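import Pool.Agent.Lib.MP_d8bd92_nt.Radical

set_option autoImplicit false

/-!
Sums of `1 / rad`, and long variables in a number with large radical.
-/

namespace Pool.Agent.Lib.MP_d8bd92_nt

open Finset Pool.Agent.Lib.Szpiro

theorem rd_mul_coprime (m n : ℕ) (hm : m ≠ 0) (hn : n ≠ 0) (h : Nat.Coprime m n) :
    rd (m * n) = rd m * rd n := by
  unfold rd
  rw [Nat.primeFactors_mul hm hn, Finset.prod_union h.disjoint_primeFactors]

theorem rd_prime_pow (p k : ℕ) (hp : p.Prime) (hk : k ≠ 0) : rd (p ^ k) = p := by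
  unfold rd
  rw [Nat.primeFactors_prime_pow hk hp, Finset.prod_singleton]

theorem rd_one : rd 1 = 1 := by
  unfold rd
  simp

/-- `∑_{a ≤ Z} 1 / rad a ≤ C Z^ε`. -/
theorem sum_inv_rd (ε : ℝ) (hε : 0 < ε) : ∃ C : ℝ, 1 ≤ C ∧ ∀ Z : ℕ, 1 ≤ Z →
    ∑ a ∈ Icc 1 Z, ((rd a : ℝ))⁻¹ ≤ C * (Z : ℝ) ^ ε := by
  classical
  set f : ℕ → ℝ := fun n => ((rd n : ℝ))⁻¹ * (n : ℝ) ^ (-ε) with hf
  have hf0 : ∀ n, 0 ≤ f n := fun n => by positivity
  have hf1 : f 1 = 1 := by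
    simp [hf, rd_one]
  have hmul : ∀ {m n : ℕ}, Nat.Coprime m n → f (m * n) = f m * f n := by
    intro m n hmn
    by_cases hm : m = 0
    · subst hm
      have hn : n = 1 := by simpa using hmn
      subst hn
      rw [hf1, mul_one, mul_one]
    · by_cases hn : n = 0
      · subst hn
        have hm : m = 1 := by simpa using hmn
        subst hm
        rw [hf1, one_mul, one_mul]
      · simp only [hf]
        rw [rd_mul_coprime m n hm hn hmn]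
        push_cast
        rw [Real.mul_rpow (by positivity) (by positivity), mul_inv]
        ring
  set κ : ℝ := 1 - (2 : ℝ) ^ (-ε) with hκ
  have hκ0 : 0 < κ := by
    have h1 : (2 : ℝ) ^ (-ε) < 1 := Real.rpow_lt_one_of_one_lt_of_neg (by norm_num) (by linarith)
    linarith
  -- local factors
  have hloc : ∀ p : ℕ, p.Prime → HasSum (fun n : ℕ => f (p ^ n))
      (1 + (p : ℝ)⁻¹ * ((p : ℝ) ^ (-ε) * (1 - (p : ℝ) ^ (-ε))⁻¹)) := by
    intro p hp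
    have hp2 : (2 : ℝ) ≤ (p : ℝ) := by exact_mod_cast hp.two_le
    have hr0 : 0 ≤ (p : ℝ) ^ (-ε) := by positivity
    have hr1 : (p : ℝ) ^ (-ε) < 1 := Real.rpow_lt_one_of_one_lt_of_neg (by linarith) (by linarith)
    have h1 : ∀ n : ℕ, f (p ^ (n + 1)) = (p : ℝ)⁻¹ * ((p : ℝ) ^ (-ε) * ((p : ℝ) ^ (-ε)) ^ n) := by
      intro n
      simp only [hf]
      rw [rd_prime_pow p (n + 1) hp (by omega), ← pow_succ', ← Real.rpow_natCast,
        ← Real.rpow_mul (by positivity)]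
      congr 1
      rw [Nat.cast_pow, ← Real.rpow_natCast, ← Real.rpow_mul (by positivity)]
      congr 1
      ring
    have h2 : HasSum (fun n : ℕ => f (p ^ (n + 1)))
        ((p : ℝ)⁻¹ * ((p : ℝ) ^ (-ε) * (1 - (p : ℝ) ^ (-ε))⁻¹)) := by
      have h3 := ((hasSum_geometric_of_lt_one hr0 hr1).mul_left ((p : ℝ) ^ (-ε))).mul_left ((p : ℝ)⁻¹)
      have h4 : (fun n : ℕ => f (p ^ (n + 1))) =
          fun n : ℕ => (p : ℝ)⁻¹ * ((p : ℝ) ^ (-ε) * ((p : ℝ) ^ (-ε)) ^ n) := funext h1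
      rw [h4]
      exact h3
    rw [← hasSum_nat_add_iff' (f := fun n : ℕ => f (p ^ n)) 1]
    simpa [hf1] using h2
  have hsum : ∀ {p : ℕ}, p.Prime → Summable (fun n : ℕ => ‖f (p ^ n)‖) := by
    intro p hp
    have h1 := (hloc p hp).summable
    refine h1.congr (fun n => ?_)
    rw [Real.norm_of_nonneg (hf0 _)]
  have hzeta : Summable (fun n : ℕ => ((n : ℝ) ^ (1 + ε))⁻¹) :=
    Real.summable_nat_rpow_inv.mpr (by linarith)
  set T : ℝ := ∑' n : ℕ, ((n : ℝ) ^ (1 + ε))⁻¹ with hT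
  have hT0 : 0 ≤ T := tsum_nonneg (fun n => by positivity)
  refine ⟨Real.exp (κ⁻¹ * T), Real.one_le_exp (by positivity), ?_⟩
  intro Z hZ
  have hZ1 : (1 : ℝ) ≤ (Z : ℝ) := by exact_mod_cast hZ
  -- product bound
  have hprod : ∏ p ∈ (Z + 1).primesBelow, ∑' n : ℕ, f (p ^ n) ≤ Real.exp (κ⁻¹ * T) := by
    have h1 : ∀ p ∈ (Z + 1).primesBelow, ∑' n : ℕ, f (p ^ n) ≤
        Real.exp (κ⁻¹ * ((p : ℝ) ^ (1 + ε))⁻¹) := by
      intro p hp
      have hpp := Nat.prime_of_mem_primesBelow hp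
      have hp2 : (2 : ℝ) ≤ (p : ℝ) := by exact_mod_cast hpp.two_le
      rw [(hloc p hpp).tsum_eq]
      have h2 : (1 - (p : ℝ) ^ (-ε))⁻¹ ≤ κ⁻¹ := by
        apply inv_anti₀ hκ0
        rw [hκ]
        have h3 : (p : ℝ) ^ (-ε) ≤ (2 : ℝ) ^ (-ε) :=
          Real.rpow_le_rpow_of_nonpos (by norm_num) hp2 (by linarith)
        linarith
      have h3 : (p : ℝ)⁻¹ * (p : ℝ) ^ (-ε) = ((p : ℝ) ^ (1 + ε))⁻¹ := by
        rw [Real.rpow_add (by linarith), Real.rpow_one, Real.rpow_neg (by linarith), mul_inv]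
      calc 1 + (p : ℝ)⁻¹ * ((p : ℝ) ^ (-ε) * (1 - (p : ℝ) ^ (-ε))⁻¹)
          = 1 + ((p : ℝ) ^ (1 + ε))⁻¹ * (1 - (p : ℝ) ^ (-ε))⁻¹ := by rw [← h3]; ring
        _ ≤ 1 + ((p : ℝ) ^ (1 + ε))⁻¹ * κ⁻¹ := by gcongr
        _ = κ⁻¹ * ((p : ℝ) ^ (1 + ε))⁻¹ + 1 := by ring
        _ ≤ Real.exp (κ⁻¹ * ((p : ℝ) ^ (1 + ε))⁻¹) := Real.add_one_le_exp _
    calc ∏ p ∈ (Z + 1).primesBelow, ∑' n : ℕ, f (p ^ n)
        ≤ ∏ p ∈ (Z + 1).primesBelow, Real.exp (κ⁻¹ * ((p : ℝ) ^ (1 + ε))⁻¹) := by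
          apply Finset.prod_le_prod
          · intro p _
            exact tsum_nonneg (fun n => hf0 _)
          · exact h1
      _ = Real.exp (∑ p ∈ (Z + 1).primesBelow, κ⁻¹ * ((p : ℝ) ^ (1 + ε))⁻¹) := by
          rw [Real.exp_sum]
      _ ≤ Real.exp (κ⁻¹ * T) := by
          apply Real.exp_le_exp.mpr
          rw [← Finset.mul_sum]
          apply mul_le_mul_of_nonneg_left _ (by positivity)
          exact hzeta.sum_le_tsum _ (fun n _ => by positivity)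
  obtain ⟨hs, hh⟩ := EulerProduct.summable_and_hasSum_smoothNumbers_prod_primesBelow_tsum
    (f := f) hf1 hmul hsum (Z + 1)
  have hfin : ∑ a ∈ Icc 1 Z, f a ≤ ∏ p ∈ (Z + 1).primesBelow, ∑' n : ℕ, f (p ^ n) := by
    have hsmooth : ∀ a ∈ Icc 1 Z, a ∈ (Z + 1).smoothNumbers := by
      intro a ha
      rw [Finset.mem_Icc] at ha
      rw [Nat.mem_smoothNumbers]
      refine ⟨by omega, ?_⟩
      intro p hp
      have := Nat.le_of_mem_primeFactorsList hp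
      omega
    set g : ↥(Icc 1 Z) → ↥(Nat.smoothNumbers (Z + 1)) := fun a => ⟨a.1, hsmooth a.1 a.2⟩ with hg
    have hginj : Function.Injective g := by
      intro a b hab
      have := congrArg (fun x => x.1) hab
      exact Subtype.ext this
    have h1 : ∑ a ∈ Icc 1 Z, f a = ∑ a ∈ (Icc 1 Z).attach.map ⟨g, hginj⟩, f a := by
      rw [Finset.sum_map]
      rw [← Finset.sum_attach (Icc 1 Z)]
      rfl
    rw [h1]
    exact sum_le_hasSum _ (fun a _ => hf0 _) hh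
  have hle : ∀ a ∈ Icc 1 Z, ((rd a : ℝ))⁻¹ ≤ f a * (Z : ℝ) ^ ε := by
    intro a ha
    rw [Finset.mem_Icc] at ha
    have ha0 : (0 : ℝ) < (a : ℝ) := by exact_mod_cast (by omega : 0 < a)
    have haZ : (a : ℝ) ≤ (Z : ℝ) := by exact_mod_cast ha.2
    simp only [hf]
    have h1 : 1 ≤ (a : ℝ) ^ (-ε) * (Z : ℝ) ^ ε := by
      rw [Real.rpow_neg ha0.le, ← div_eq_inv_mul, le_div_iff₀ (by positivity), one_mul]
      exact Real.rpow_le_rpow ha0.le haZ hε.le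
    calc ((rd a : ℝ))⁻¹ = ((rd a : ℝ))⁻¹ * 1 := (mul_one _).symm
      _ ≤ ((rd a : ℝ))⁻¹ * ((a : ℝ) ^ (-ε) * (Z : ℝ) ^ ε) := by gcongr
      _ = ((rd a : ℝ))⁻¹ * (a : ℝ) ^ (-ε) * (Z : ℝ) ^ ε := by ring
  calc ∑ a ∈ Icc 1 Z, ((rd a : ℝ))⁻¹ ≤ ∑ a ∈ Icc 1 Z, f a * (Z : ℝ) ^ ε := Finset.sum_le_sum hle
    _ = (∑ a ∈ Icc 1 Z, f a) * (Z : ℝ) ^ ε := by rw [Finset.sum_mul]
    _ ≤ Real.exp (κ⁻¹ * T) * (Z : ℝ) ^ ε := by
        apply mul_le_mul_of_nonneg_right (hfin.trans hprod) (by positivity)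

end Pool.Agent.Lib.MP_d8bd92_nt
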