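import Pool.Agent.Lib.MP_d8bd92_nt.ToC

set_option autoImplicit false

/-!
Pairs with small radicals for which a fixed linear form is a square: the exponent `3/4`.
-/

namespace Pool.Agent.Lib.MP_d8bd92_nt

open Finset Pool.Agent.Lib.Szpiro

/-- fixed `m` and a large divisor `k` of `n`: few `n` -/
theorem split_fiber (α β : ℤ) (hβ : β ≠ 0) (G : ℕ) (m k : ℕ) (hk : k ≠ 0) (F : Finset ℕ)
    (hF : ∀ n ∈ F, k ∣ n ∧ 1 ≤ n ∧ n ≤ k ^ 2 ∧ Nat.gcd m n ≤ G ∧
      ∃ y : ℤ, α * (m : ℤ) + β * (n : ℤ) = y ^ 2) (hα : α ≠ 0) :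
    (F.card : ℝ) ≤ (k.divisors.card : ℝ) * (4 * (α.natAbs * G : ℕ) * β.natAbs + 1) := by
  classical
  rcases F.eq_empty_or_nonempty with hE | ⟨n1, hn1⟩
  · rw [hE, Finset.card_empty]
    push_cast
    positivity
  have hk0 : (0 : ℝ) < (k : ℝ) := by exact_mod_cast Nat.pos_of_ne_zero hk
  have hch : ∀ n : ℕ, ∃ y : ℕ, n ∈ F → α * (m : ℤ) + β * (n : ℤ) = (y : ℤ) ^ 2 := by
    intro n
    by_cases hn : n ∈ F
    · obtain ⟨_, _, _, _, y, hy⟩ := hF n hn
      exact ⟨y.natAbs, fun _ => by rw [hy, Int.natCast_natAbs, sq_abs]⟩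
    · exact ⟨0, fun h => absurd h hn⟩
  choose y hy using hch
  have hinj : F.card = (F.image y).card := by
    rw [Finset.card_image_of_injOn]
    intro a ha b hb hab
    have h1 := hy a ha
    have h2 := hy b hb
    rw [hab, ← h2] at h1
    have h3 : β * (a : ℤ) = β * (b : ℤ) := by linarith
    exact_mod_cast mul_left_cancel₀ hβ h3
  have hgcd : Int.gcd (α * (m : ℤ)) k ≤ α.natAbs * G := by
    obtain ⟨hkn, hn0, _, hg, _⟩ := hF n1 hn1
    have h1 : Int.gcd (α * (m : ℤ)) k ∣ α.natAbs * Nat.gcd m k := by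
      have h2 : Int.gcd (α * (m : ℤ)) k = Nat.gcd (α.natAbs * m) k := by
        rw [Int.gcd, Int.natAbs_mul, Int.natAbs_natCast, Int.natAbs_natCast]
      rw [h2, ← Nat.gcd_mul_left]
      exact Nat.gcd_dvd_gcd_of_dvd_right _ (Nat.dvd_mul_left _ _)
    have h2 : Nat.gcd m k ≤ Nat.gcd m n1 := by
      apply Nat.le_of_dvd (Nat.gcd_pos_of_pos_right _ (by omega))
      exact Nat.gcd_dvd_gcd_of_dvd_right _ hkn
    have h3 : 0 < α.natAbs * Nat.gcd m k := by
      apply Nat.mul_pos (Int.natAbs_pos.mpr hα)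
      exact Nat.gcd_pos_of_pos_right _ (Nat.pos_of_ne_zero hk)
    exact (Nat.le_of_dvd h3 h1).trans (Nat.mul_le_mul_left _ (h2.trans hg))
  have hroots := roots_interval k hk (α * (m : ℤ)) (α.natAbs * G) hgcd ((β.natAbs : ℝ) * k)
    (by positivity) (F.image y) (by
      intro z hz
      rw [Finset.mem_image] at hz
      obtain ⟨n, hn, rfl⟩ := hz
      rw [← hy n hn]
      have h1 : α * (m : ℤ) + β * (n : ℤ) - α * (m : ℤ) = β * (n : ℤ) := by ring
      rw [h1]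
      exact Dvd.dvd.mul_left (Int.natCast_dvd_natCast.mpr (hF n hn).1) _)
    (by
      intro u hu v hv
      rw [Finset.mem_image] at hu hv
      obtain ⟨a, ha, rfl⟩ := hu
      obtain ⟨b, hb, rfl⟩ := hv
      by_cases hle : y a ≤ y b
      · have : ((y a : ℕ) : ℝ) ≤ (y b : ℝ) := by exact_mod_cast hle
        have h2 : (0 : ℝ) ≤ (β.natAbs : ℝ) * k := by positivity
        linarith
      · push Not at hle
        have h1 : (((y a : ℤ) - y b) ^ 2) ≤ ((β.natAbs : ℤ) * k) ^ 2 := by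
          have h2 := hy a ha
          have h3 := hy b hb
          obtain ⟨_, ha1, ha2, _, _⟩ := hF a ha
          obtain ⟨_, hb1, hb2, _, _⟩ := hF b hb
          have h4 : ((y a : ℤ)) ^ 2 - (y b : ℤ) ^ 2 = β * ((a : ℤ) - b) := by
            rw [← h2, ← h3]; ring
          have h5 : β * ((a : ℤ) - b) ≤ (β.natAbs : ℤ) * (k : ℤ) ^ 2 := by
            have h6 : β * ((a : ℤ) - b) ≤ |β| * |(a : ℤ) - b| := by
              rw [← abs_mul]; exact le_abs_self _
            have h7 : |(a : ℤ) - b| ≤ (k : ℤ) ^ 2 := by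
              rw [abs_le]
              have h8 : (a : ℤ) ≤ (k : ℤ) ^ 2 := by exact_mod_cast ha2
              have h9 : (b : ℤ) ≤ (k : ℤ) ^ 2 := by exact_mod_cast hb2
              constructor <;> linarith [show (0 : ℤ) ≤ a by positivity, show (0 : ℤ) ≤ b by positivity]
            rw [Int.natCast_natAbs]
            exact h6.trans (mul_le_mul_of_nonneg_left h7 (abs_nonneg _))
          have hβ1 : (1 : ℤ) ≤ (β.natAbs : ℤ) := by
            exact_mod_cast Int.natAbs_pos.mpr hβ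
          have h6 : (y b : ℤ) < (y a : ℤ) := by exact_mod_cast hle
          have h7 : (0 : ℤ) ≤ (y b : ℤ) := by positivity
          have h8 : ((y a : ℤ) - y b) ^ 2 ≤ (y a : ℤ) ^ 2 - (y b : ℤ) ^ 2 := by
            have h10 := mul_nonneg h7 (sub_nonneg.mpr h6.le)
            have h11 : (y a : ℤ) ^ 2 - (y b : ℤ) ^ 2 - ((y a : ℤ) - y b) ^ 2 = 2 * ((y b : ℤ) * ((y a : ℤ) - y b)) := by ring
            linarith
          have h9 : (β.natAbs : ℤ) * (k : ℤ) ^ 2 ≤ ((β.natAbs : ℤ) * k) ^ 2 := by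
            rw [mul_pow]
            apply mul_le_mul_of_nonneg_right _ (sq_nonneg _)
            exact le_self_pow₀ hβ1 two_ne_zero
          linarith
        have h2 : (y a : ℤ) - y b ≤ (β.natAbs : ℤ) * k := by
          apply le_of_sq_le_sq h1
          positivity
        have h3 : (((y a : ℤ) - y b : ℤ) : ℝ) ≤ (((β.natAbs : ℤ) * k : ℤ) : ℝ) := by exact_mod_cast h2
        push_cast at h3
        simp only [Nat.cast_natAbs, Int.cast_abs] at h3 ⊢
        exact h3)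
  rw [hinj]
  refine hroots.trans (le_of_eq ?_)
  congr 1
  congr 1
  field_simp

/-- pairs with `rad m ≤ rad n` -/
theorem half_sharp (α β : ℤ) (hα : α ≠ 0) (hβ : β ≠ 0) (G : ℕ) (τ ε : ℝ) (hτ : 0 < τ)
    (hε : 0 < ε) :
    ∃ C : ℝ, 0 < C ∧ ∀ (R : ℝ) (Z : ℕ), 1 ≤ R → (Z : ℝ) ≤ R ^ τ →
      ∀ S : Finset (ℕ × ℕ), (∀ w ∈ S, 1 ≤ w.1 ∧ w.1 ≤ Z ∧ 1 ≤ w.2 ∧ w.2 ≤ Z ∧
        (rd w.1 : ℝ) * rd w.2 ≤ R ∧ (rd w.1 : ℝ) ≤ (rd w.2 : ℝ) ∧ Nat.gcd w.1 w.2 ≤ G ∧
        ∃ y : ℤ, α * (w.1 : ℤ) + β * (w.2 : ℤ) = y ^ 2) →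
      (S.card : ℝ) ≤ C * R ^ (3 / 4 + ε) := by
  classical
  -- exponents
  obtain ⟨σ, hσ⟩ : ∃ σ : ℝ, σ = ε / (2 * τ) := ⟨_, rfl⟩
  have hσ0 : 0 < σ := by rw [hσ]; positivity
  have hστ : τ * σ = ε / 2 := by rw [hσ]; field_simp
  obtain ⟨Cd, hCd1, hCd⟩ := card_divisors_le_rpow σ hσ0
  obtain ⟨C1, hC11, hC1⟩ := cs_count σ hσ0
  obtain ⟨C2, hC21, hC2⟩ := weighted_count (α := ℕ × ℕ) σ hσ0
  obtain ⟨K, hK⟩ : ∃ K : ℕ, K = ⌊2 * τ⌋₊ + 1 := ⟨_, rfl⟩
  have hfs : ∀ j : ℕ, ∃ C : ℝ, 1 ≤ C ∧ (1 ≤ j →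
      ∀ (N : ℕ) (W : ℝ) (A B : ℤ), 1 ≤ N → 1 ≤ W → A ≠ 0 → B ≠ 0 → |(A : ℝ)| ≤ W → |(B : ℝ)| ≤ W →
      ∀ S : Finset ℕ, (∀ x ∈ S, x ≤ N ∧ ∃ y : ℤ, A * (x : ℤ) ^ j + B = y ^ 2) →
      (S.card : ℝ) ≤ C * (N : ℝ) ^ (1 / 2 : ℝ) * W ^ σ) := by
    intro j
    by_cases hj : 1 ≤ j
    · obtain ⟨C, h1, h2⟩ := few_squares_sharp j hj σ hσ0
      exact ⟨C, h1, fun _ => h2⟩
    · exact ⟨1, le_refl _, fun h => absurd h hj⟩
  choose Cf hCf1 hCf using hfs
  obtain ⟨C3, hC3⟩ : ∃ C3 : ℝ, C3 = ∑ j ∈ range K, Cf j := ⟨_, rfl⟩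
  have hC3le : ∀ j ∈ range K, Cf j ≤ C3 := by
    intro j hj
    rw [hC3]
    exact Finset.single_le_sum (f := Cf) (fun i _ => by linarith [hCf1 i]) hj
  have hC30 : 0 ≤ C3 := by
    rw [hC3]
    exact Finset.sum_nonneg (fun i _ => by linarith [hCf1 i])
  set w0 : ℝ := 1 + (α.natAbs : ℝ) + (β.natAbs : ℝ) with hw0
  have hw01 : 1 ≤ w0 := by
    rw [hw0]
    have h1 : (0 : ℝ) ≤ (α.natAbs : ℝ) := Nat.cast_nonneg _
    have h2 : (0 : ℝ) ≤ (β.natAbs : ℝ) := Nat.cast_nonneg _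
    linarith
  -- constants of the three parts
  set Ka : ℝ := C1 * (Cd * w0 ^ σ) with hKa
  set Kb : ℝ := C2 * (Cd * (4 * (α.natAbs * G : ℕ) * β.natAbs + 1)) with hKb
  set Kc : ℝ := C2 * K * (C3 * w0 ^ σ) with hKc
  have hKa0 : 0 < Ka := by rw [hKa]; positivity
  have hKb0 : 0 ≤ Kb := by rw [hKb]; positivity
  have hKc0 : 0 ≤ Kc := by rw [hKc]; positivity
  refine ⟨Ka + Kb + Kc, by linarith, ?_⟩
  intro R Z hR hZR S hS
  have hR0 : 0 < R := by linarith
  -- trivial case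
  rcases Nat.eq_zero_or_pos Z with hZ | hZ
  · have hE : S = ∅ := by
      apply Finset.eq_empty_of_forall_notMem
      intro w hw
      obtain ⟨h1, h2, _⟩ := hS w hw
      omega
    rw [hE, Finset.card_empty]
    push_cast
    positivity
  have hZ1 : (1 : ℝ) ≤ (Z : ℝ) := by exact_mod_cast hZ
  have hZ0 : (0 : ℝ) < (Z : ℝ) := by linarith
  have hZσ1 : 1 ≤ (Z : ℝ) ^ σ := Real.one_le_rpow hZ1 hσ0.le
  have hZσ : (Z : ℝ) ^ σ * (Z : ℝ) ^ σ ≤ R ^ ε := by
    have h1 : (Z : ℝ) ^ σ ≤ R ^ (ε / 2) := by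
      calc (Z : ℝ) ^ σ ≤ (R ^ τ) ^ σ := Real.rpow_le_rpow hZ0.le hZR hσ0.le
        _ = R ^ (ε / 2) := by rw [← Real.rpow_mul hR0.le, hστ]
    calc (Z : ℝ) ^ σ * (Z : ℝ) ^ σ ≤ R ^ (ε / 2) * R ^ (ε / 2) :=
          mul_le_mul h1 h1 (by positivity) (by positivity)
      _ = R ^ ε := by rw [← Real.rpow_add hR0]; ring_nf
  have hsplitR : R ^ (3 / 4 + ε) = R ^ (3 / 4 : ℝ) * R ^ ε := Real.rpow_add hR0 _ _
  have hsmall : ∀ w ∈ S, (rd w.1 : ℝ) ≤ R ^ (1 / 2 : ℝ) := by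
    intro w hw
    obtain ⟨_, _, _, _, h5, h6, _⟩ := hS w hw
    have h7 := one_le_rd w.1
    apply le_of_sq_le_sq _ (by positivity)
    have h8 : (R ^ (1 / 2 : ℝ)) ^ 2 = R := by
      rw [← Real.rpow_natCast, ← Real.rpow_mul hR0.le]; norm_num
    rw [h8]
    calc (rd w.1 : ℝ) ^ 2 = (rd w.1 : ℝ) * rd w.1 := by ring
      _ ≤ (rd w.1 : ℝ) * rd w.2 := mul_le_mul_of_nonneg_left h6 (by positivity)
      _ ≤ R := h5
  set T : ℝ := R ^ (1 / 4 : ℝ) with hT
  have hT1 : 1 ≤ T := Real.one_le_rpow hR (by norm_num)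
  have hT3 : T ^ 3 = R ^ (3 / 4 : ℝ) := by
    rw [hT, ← Real.rpow_natCast, ← Real.rpow_mul hR0.le]; norm_num
  have hT4 : R = T * R ^ (3 / 4 : ℝ) := by
    rw [hT, ← Real.rpow_add hR0]; norm_num
  -- the three classes
  set PB : ℕ × ℕ → Prop := fun w => ∃ k : ℕ, k ≠ 0 ∧ k ∣ w.2 ∧ w.2 ≤ k ^ 2 ∧
    (rd w.1 : ℝ) * rd k ≤ R ^ (3 / 4 : ℝ) with hPB
  set PC : ℕ × ℕ → Prop := fun w => ∃ p i n' : ℕ, p.Prime ∧ 1 ≤ i ∧ n' ≠ 0 ∧ n' * p ^ i = w.2 ∧
    rd n' * p = rd w.2 ∧ (rd n' : ℝ) < T with hPC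
  set SA := S.filter (fun w => (rd w.2 : ℝ) ≤ R ^ (3 / 4 : ℝ)) with hSA
  set SB := S.filter (fun w => PB w) with hSB
  set SC := S.filter (fun w => R ^ (3 / 4 : ℝ) < (rd w.2 : ℝ) ∧ PC w) with hSC
  have hcover : S ⊆ SA ∪ (SB ∪ SC) := by
    intro w hw
    by_cases h1 : (rd w.2 : ℝ) ≤ R ^ (3 / 4 : ℝ)
    · exact Finset.mem_union_left _ (Finset.mem_filter.mpr ⟨hw, h1⟩)
    · push Not at h1
      obtain ⟨k1, k2, k3, k4, k5, k6, k7, k8⟩ := hS w hw
      have hrd2 : (0 : ℝ) ≤ rd w.1 := Nat.cast_nonneg _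
      rcases split_rd w.2 (by omega) T hT1 (by rw [hT3]; exact h1) with ⟨n1, n2, e1, e2, e3, e4⟩ | h2
      · apply Finset.mem_union_right
        apply Finset.mem_union_left
        rw [hSB, Finset.mem_filter]
        refine ⟨hw, ?_⟩
        have hn1 : n1 ≠ 0 := by rintro rfl; rw [zero_mul] at e1; omega
        have hn2 : n2 ≠ 0 := by rintro rfl; rw [mul_zero] at e1; omega
        have hrdm : rd w.2 = rd n1 * rd n2 := by rw [← e1, rd_mul_coprime n1 n2 hn1 hn2 e2]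
        have key : ∀ a b : ℝ, 0 ≤ a → T ≤ b → (rd w.1 : ℝ) * (a * b) ≤ R →
            (rd w.1 : ℝ) * a ≤ R ^ (3 / 4 : ℝ) := by
          intro a b ha hb hab
          have h3 : ((rd w.1 : ℝ) * a) * T ≤ R ^ (3 / 4 : ℝ) * T := by
            calc ((rd w.1 : ℝ) * a) * T ≤ ((rd w.1 : ℝ) * a) * b :=
                  mul_le_mul_of_nonneg_left hb (by positivity)
              _ = (rd w.1 : ℝ) * (a * b) := by ring
              _ ≤ R := hab
              _ = R ^ (3 / 4 : ℝ) * T := by rw [mul_comm]; exact hT4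
          exact le_of_mul_le_mul_right h3 (by linarith)
        rw [hrdm] at k5
        push_cast at k5
        rcases Nat.le_total n2 n1 with h3 | h3
        · refine ⟨n1, hn1, ⟨n2, e1.symm⟩, ?_, ?_⟩
          · rw [← e1, sq]; exact Nat.mul_le_mul_left _ h3
          · exact key _ _ (Nat.cast_nonneg _) e4 k5
        · refine ⟨n2, hn2, ⟨n1, by rw [mul_comm]; exact e1.symm⟩, ?_, ?_⟩
          · rw [← e1, sq]; exact Nat.mul_le_mul_right _ h3
          · apply key _ (rd n1 : ℝ) (Nat.cast_nonneg _) e3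
            rw [mul_comm (rd n2 : ℝ)]; exact k5
      · apply Finset.mem_union_right
        apply Finset.mem_union_right
        rw [hSC, Finset.mem_filter]
        exact ⟨hw, h1, h2⟩
  have hcard : (S.card : ℝ) ≤ (SA.card : ℝ) + ((SB.card : ℝ) + (SC.card : ℝ)) := by
    have h1 := (Finset.card_le_card hcover).trans ((Finset.card_union_le _ _).trans
      (Nat.add_le_add_left (Finset.card_union_le _ _) _))
    exact_mod_cast h1
  -- part A
  have hA : (SA.card : ℝ) ≤ Ka * ((Z : ℝ) ^ σ * (Z : ℝ) ^ σ) * R ^ (3 / 4 : ℝ) := by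
    have h1 := hC1 Z R (Cd * w0 ^ σ * (Z : ℝ) ^ σ) SA hZ hR (by
        have h2 : 1 ≤ w0 ^ σ := Real.one_le_rpow hw01 hσ0.le
        have h3 : 1 ≤ Cd * w0 ^ σ := one_le_mul_of_one_le_of_one_le hCd1 h2
        exact one_le_mul_of_one_le_of_one_le h3 hZσ1)
      (by
        intro w hw
        rw [hSA, Finset.mem_filter] at hw
        obtain ⟨k1, k2, k3, k4, k5, _⟩ := hS w hw.1
        exact ⟨k1, k2, k3, k4, k5, hsmall w hw.1, hw.2⟩)
      (by
        intro m m' hne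
        by_cases hE : ((Icc 1 Z).filter (fun n => (m, n) ∈ SA ∧ (m', n) ∈ SA)) = ∅
        · rw [hE, Finset.card_empty]
          push_cast
          positivity
        obtain ⟨n0, hn0⟩ := Finset.nonempty_iff_ne_empty.mpr hE
        rw [Finset.mem_filter] at hn0
        have hmZ : m ≤ Z := (hS _ (Finset.mem_filter.mp hn0.2.1).1).2.1
        have hm'Z : m' ≤ Z := (hS _ (Finset.mem_filter.mp hn0.2.2).1).2.1
        have h2 := common_count α β hα hβ m m' hne
          ((Icc 1 Z).filter (fun n => (m, n) ∈ SA ∧ (m', n) ∈ SA)) (by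
            intro n hn
            rw [Finset.mem_filter] at hn
            have h3 := hS _ (Finset.mem_filter.mp hn.2.1).1
            have h4 := hS _ (Finset.mem_filter.mp hn.2.2).1
            exact ⟨h3.2.2.2.2.2.2.2, h4.2.2.2.2.2.2.2⟩)
        have h0 : α * ((m : ℤ) - m') ≠ 0 :=
          mul_ne_zero hα (sub_ne_zero.mpr (by exact_mod_cast hne))
        have h3 := hCd (α * ((m : ℤ) - m')).natAbs (Int.natAbs_ne_zero.mpr h0)
        have h4 : (((α * ((m : ℤ) - m')).natAbs : ℕ) : ℝ) ≤ w0 * Z := by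
          rw [Int.natAbs_mul]
          push_cast
          have h5 : (((m : ℤ) - m').natAbs : ℕ) ≤ Z := by omega
          have h6 : ((((m : ℤ) - m').natAbs : ℕ) : ℝ) ≤ (Z : ℝ) := by exact_mod_cast h5
          have h7 : (α.natAbs : ℝ) ≤ w0 := by
            rw [hw0]
            have h8 : (0 : ℝ) ≤ (β.natAbs : ℝ) := Nat.cast_nonneg _
            linarith
          have h8 := mul_le_mul h7 h6 (Nat.cast_nonneg _) (by linarith)
          exact h8
        have h5 : (((α * ((m : ℤ) - m')).natAbs : ℕ) : ℝ) ^ σ ≤ w0 ^ σ * (Z : ℝ) ^ σ := by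
          rw [← Real.mul_rpow (by linarith) hZ0.le]
          exact Real.rpow_le_rpow (Nat.cast_nonneg _) h4 hσ0.le
        calc ((((Icc 1 Z).filter (fun n => (m, n) ∈ SA ∧ (m', n) ∈ SA)).card : ℕ) : ℝ) ≤
            (((α * ((m : ℤ) - m')).natAbs.divisors.card : ℕ) : ℝ) := by exact_mod_cast h2
          _ ≤ Cd * (((α * ((m : ℤ) - m')).natAbs : ℕ) : ℝ) ^ σ := h3
          _ ≤ Cd * (w0 ^ σ * (Z : ℝ) ^ σ) := mul_le_mul_of_nonneg_left h5 (by linarith)
          _ = Cd * w0 ^ σ * (Z : ℝ) ^ σ := by ring)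
    refine h1.trans (le_of_eq ?_)
    rw [hKa]
    ring
  -- part B
  have hB : (SB.card : ℝ) ≤ Kb * ((Z : ℝ) ^ σ * (Z : ℝ) ^ σ) * R ^ (3 / 4 : ℝ) := by
    have hch : ∀ w : ℕ × ℕ, ∃ k : ℕ, w ∈ SB → (k ≠ 0 ∧ k ∣ w.2 ∧ w.2 ≤ k ^ 2 ∧
        (rd w.1 : ℝ) * rd k ≤ R ^ (3 / 4 : ℝ)) := by
      intro w
      by_cases hw : w ∈ SB
      · obtain ⟨k, hk⟩ := (Finset.mem_filter.mp hw).2
        exact ⟨k, fun _ => hk⟩
      · exact ⟨0, fun h => absurd h hw⟩
    choose k hk using hch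
    have h1 := hC2 Z 1 (Cd * (Z : ℝ) ^ σ * (4 * (α.natAbs * G : ℕ) * β.natAbs + 1) *
        R ^ (3 / 4 : ℝ)) SB (fun w => (0, w.1, k w)) hZ (by positivity) (by
        intro w hw
        obtain ⟨e1, e2, e3, e4⟩ := hk w hw
        obtain ⟨k1, k2, k3, k4, _⟩ := hS w (Finset.mem_filter.mp hw).1
        have h2 := Nat.le_of_dvd (by omega) e2
        exact ⟨Nat.zero_lt_one, k1, k2, Nat.pos_of_ne_zero e1, h2.trans k4⟩)
      (by
        intro j m u
        set F := SB.filter (fun w => ((0, w.1, k w) : ℕ × ℕ × ℕ) = (j, m, u)) with hF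
        rcases F.eq_empty_or_nonempty with hE | ⟨w1, hw1⟩
        · rw [hE, Finset.card_empty]
          push_cast
          positivity
        have hFm : ∀ w ∈ F, w ∈ SB ∧ w.1 = m ∧ k w = u := by
          intro w hw
          rw [hF, Finset.mem_filter] at hw
          have h2 := hw.2
          simp only [Prod.mk.injEq] at h2
          exact ⟨hw.1, h2.2.1, h2.2.2⟩
        obtain ⟨q1, q2, q3⟩ := hFm w1 hw1
        obtain ⟨e1, e2, e3, e4⟩ := hk w1 q1
        rw [q3] at e1 e2 e3 e4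
        rw [q2] at e4
        have hcF : F.card = (F.image (fun w => w.2)).card := by
          rw [Finset.card_image_of_injOn]
          intro a ha b hb hab
          have h2 := hFm a ha
          have h3 := hFm b hb
          exact Prod.ext (by rw [h2.2.1, h3.2.1]) hab
        have h2 := split_fiber α β hβ G m u e1 (F.image (fun w => w.2)) (by
          intro n hn
          rw [Finset.mem_image] at hn
          obtain ⟨w, hw, rfl⟩ := hn
          obtain ⟨r1, r2, r3⟩ := hFm w hw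
          obtain ⟨f1, f2, f3, f4⟩ := hk w r1
          rw [r3] at f2 f3
          obtain ⟨k1, k2, k3, k4, k5, k6, k7, k8⟩ := hS w (Finset.mem_filter.mp r1).1
          rw [r2] at k7 k8
          exact ⟨f2, k3, f3, k7, k8⟩) hα
        rw [← hcF] at h2
        have h3 := hCd u e1
        have huZ : u ≤ Z := by
          obtain ⟨k1, k2, k3, k4, _⟩ := hS w1 (Finset.mem_filter.mp q1).1
          exact (Nat.le_of_dvd (by omega) e2).trans k4
        have h4 : (u : ℝ) ^ σ ≤ (Z : ℝ) ^ σ :=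
          Real.rpow_le_rpow (Nat.cast_nonneg _) (by exact_mod_cast huZ) hσ0.le
        have hm1 := one_le_rd m
        have hu1 := one_le_rd u
        have h5 : 1 ≤ R ^ (3 / 4 : ℝ) * (((rd m : ℝ))⁻¹ * ((rd u : ℝ))⁻¹) := by
          rw [← mul_inv, ← div_eq_mul_inv, le_div_iff₀ (by positivity), one_mul]
          exact e4
        have h6 : (0 : ℝ) ≤ 4 * (α.natAbs * G : ℕ) * β.natAbs + 1 := by positivity
        calc (F.card : ℝ) ≤ (u.divisors.card : ℝ) * (4 * (α.natAbs * G : ℕ) * β.natAbs + 1) := h2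
          _ ≤ (Cd * (Z : ℝ) ^ σ) * (4 * (α.natAbs * G : ℕ) * β.natAbs + 1) := by
              apply mul_le_mul_of_nonneg_right _ h6
              exact h3.trans (mul_le_mul_of_nonneg_left h4 (by linarith))
          _ = (Cd * (Z : ℝ) ^ σ) * (4 * (α.natAbs * G : ℕ) * β.natAbs + 1) * 1 := (mul_one _).symm
          _ ≤ (Cd * (Z : ℝ) ^ σ) * (4 * (α.natAbs * G : ℕ) * β.natAbs + 1) *
              (R ^ (3 / 4 : ℝ) * (((rd m : ℝ))⁻¹ * ((rd u : ℝ))⁻¹)) := by
              apply mul_le_mul_of_nonneg_left h5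
              positivity
          _ = Cd * (Z : ℝ) ^ σ * (4 * (α.natAbs * G : ℕ) * β.natAbs + 1) *
              R ^ (3 / 4 : ℝ) * (((rd m : ℝ))⁻¹ * ((rd u : ℝ))⁻¹) := by ring)
    refine h1.trans (le_of_eq ?_)
    rw [hKb, Nat.cast_one]
    ring
  -- part C
  have hC : (SC.card : ℝ) ≤ Kc * ((Z : ℝ) ^ σ * (Z : ℝ) ^ σ) * R ^ (3 / 4 : ℝ) := by
    have hch : ∀ w : ℕ × ℕ, ∃ t : ℕ × ℕ × ℕ, w ∈ SC → (t.1.Prime ∧ 1 ≤ t.2.1 ∧ t.2.2 ≠ 0 ∧
        t.2.2 * t.1 ^ t.2.1 = w.2 ∧ rd t.2.2 * t.1 = rd w.2 ∧ (rd t.2.2 : ℝ) < T) := by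
      intro w
      by_cases hw : w ∈ SC
      · obtain ⟨p, i, n', h⟩ := (Finset.mem_filter.mp hw).2.2
        exact ⟨(p, i, n'), fun _ => h⟩
      · exact ⟨(0, 0, 0), fun h => absurd h hw⟩
    choose t ht using hch
    have hplow : ∀ w ∈ SC, R ^ (1 / 2 : ℝ) ≤ ((t w).1 : ℝ) := by
      intro w hw
      obtain ⟨_, _, _, _, h5, h6⟩ := ht w hw
      have h7 := (Finset.mem_filter.mp hw).2.1
      rw [← h5] at h7
      push_cast at h7
      have h8 : R ^ (3 / 4 : ℝ) = T * R ^ (1 / 2 : ℝ) := by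
        rw [hT, ← Real.rpow_add hR0]; norm_num
      rw [h8] at h7
      by_contra hcon
      push Not at hcon
      have h9 : (rd (t w).2.2 : ℝ) * ((t w).1 : ℝ) ≤ T * R ^ (1 / 2 : ℝ) :=
        mul_le_mul h6.le hcon.le (Nat.cast_nonneg _) (by linarith)
      linarith
    have h1 := hC2 Z K (C3 * w0 ^ σ * (Z : ℝ) ^ σ * R ^ (3 / 4 : ℝ)) SC
      (fun w => ((t w).2.1, w.1, (t w).2.2)) hZ (by positivity) (by
        intro w hw
        obtain ⟨e1, e2, e3, e4, e5, e6⟩ := ht w hw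
        obtain ⟨k1, k2, k3, k4, k5, _⟩ := hS w (Finset.mem_filter.mp hw).1
        have hp := hplow w hw
        have hdv : (t w).2.2 ∣ w.2 := ⟨_, e4.symm⟩
        refine ⟨?_, k1, k2, Nat.pos_of_ne_zero e3, (Nat.le_of_dvd (by omega) hdv).trans k4⟩
        -- the exponent is bounded
        show (t w).2.1 < K
        have hR1 : 1 < R := by
          have h2 := (Finset.mem_filter.mp hw).2.1
          have h3 : (rd w.2 : ℝ) ≤ R := by
            have h4 := one_le_rd w.1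
            exact (le_mul_of_one_le_left (Nat.cast_nonneg _) h4).trans k5
          by_contra hcon
          push Not at hcon
          have h4 : R = 1 := le_antisymm hcon hR
          rw [h4, Real.one_rpow] at h2
          rw [h4] at h3
          linarith
        have h2 : (((t w).1 : ℝ)) ^ (t w).2.1 ≤ R ^ τ := by
          have h3 : (t w).1 ^ (t w).2.1 ≤ Z := by
            have h4 : (t w).1 ^ (t w).2.1 ∣ w.2 := by
              rw [← e4]; exact dvd_mul_left _ _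
            exact (Nat.le_of_dvd (by omega) h4).trans k4
          have h4 : (((t w).1 : ℝ)) ^ (t w).2.1 ≤ (Z : ℝ) := by exact_mod_cast h3
          exact h4.trans hZR
        have h3 : R ^ ((1 / 2 : ℝ) * (t w).2.1) ≤ R ^ τ := by
          rw [Real.rpow_mul hR0.le, Real.rpow_natCast]
          exact (pow_le_pow_left₀ (by positivity) hp _).trans h2
        have h4 : (1 / 2 : ℝ) * (t w).2.1 ≤ τ := (Real.rpow_le_rpow_left_iff hR1).mp h3
        have h5 : (((t w).2.1 : ℕ) : ℝ) ≤ 2 * τ := by linarith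
        have h6 : (t w).2.1 ≤ ⌊2 * τ⌋₊ := Nat.le_floor h5
        omega)
      (by
        intro j m u
        set F := SC.filter (fun w => (((t w).2.1, w.1, (t w).2.2) : ℕ × ℕ × ℕ) = (j, m, u)) with hF
        rcases F.eq_empty_or_nonempty with hE | ⟨w1, hw1⟩
        · rw [hE, Finset.card_empty]
          push_cast
          positivity
        have hFm : ∀ w ∈ F, w ∈ SC ∧ (t w).2.1 = j ∧ w.1 = m ∧ (t w).2.2 = u := by
          intro w hw
          rw [hF, Finset.mem_filter] at hw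
          have h2 := hw.2
          simp only [Prod.mk.injEq] at h2
          exact ⟨hw.1, h2.1, h2.2.1, h2.2.2⟩
        obtain ⟨q1, q2, q3, q4⟩ := hFm w1 hw1
        obtain ⟨e1, e2, e3, e4, e5, e6⟩ := ht w1 q1
        rw [q4] at e3 e5 e6
        rw [q2] at e2
        have hm1 := one_le_rd m
        have hu1 := one_le_rd u
        have hmZ : m ≤ Z := by
          obtain ⟨k1, k2, _⟩ := hS w1 (Finset.mem_filter.mp q1).1
          rw [← q3]; exact k2
        have hm0 : m ≠ 0 := by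
          obtain ⟨k1, k2, _⟩ := hS w1 (Finset.mem_filter.mp q1).1
          rw [← q3]; omega
        have huZ : u ≤ Z := by
          obtain ⟨k1, k2, k3, k4, _⟩ := hS w1 (Finset.mem_filter.mp q1).1
          have h2 : u ∣ w1.2 := by rw [← q4]; exact ⟨_, e4.symm⟩
          exact (Nat.le_of_dvd (by omega) h2).trans k4
        set Q : ℝ := R / ((rd m : ℝ) * (rd u : ℝ)) with hQ
        have hmu : (0 : ℝ) < (rd m : ℝ) * (rd u : ℝ) := by positivity
        have hxQ : ∀ w ∈ F, ((t w).1 : ℝ) ≤ Q := by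
          intro w hw
          obtain ⟨r1, r2, r3, r4⟩ := hFm w hw
          obtain ⟨f1, f2, f3, f4, f5, f6⟩ := ht w r1
          obtain ⟨k1, k2, k3, k4, k5, _⟩ := hS w (Finset.mem_filter.mp r1).1
          rw [← f5, r4, r3] at k5
          push_cast at k5
          rw [hQ, le_div_iff₀ hmu]
          calc ((t w).1 : ℝ) * ((rd m : ℝ) * (rd u : ℝ)) =
              (rd m : ℝ) * ((rd u : ℝ) * ((t w).1 : ℝ)) := by ring
            _ ≤ R := k5
        set N : ℕ := ⌊Q⌋₊ with hN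
        have hxN : ∀ w ∈ F, (t w).1 ≤ N := fun w hw => Nat.le_floor (hxQ w hw)
        have hN1 : 1 ≤ N := (e1.one_lt.le).trans (hxN w1 hw1)
        have hQlow : R ^ (1 / 2 : ℝ) ≤ Q := (hplow w1 q1).trans (hxQ w1 hw1)
        have hQ0 : 0 < Q := by
          have : 0 < R ^ (1 / 2 : ℝ) := by positivity
          linarith
        have hcF : F.card = (F.image (fun w => (t w).1)).card := by
          rw [Finset.card_image_of_injOn]
          intro a ha b hb hab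
          obtain ⟨r1, r2, r3, r4⟩ := hFm a ha
          obtain ⟨s1, s2, s3, s4⟩ := hFm b hb
          simp only at hab
          obtain ⟨_, _, _, f4, _⟩ := ht a r1
          obtain ⟨_, _, _, g4, _⟩ := ht b s1
          refine Prod.ext (by rw [r3, s3]) ?_
          rw [← f4, ← g4, r2, s2, r4, s4, hab]
        have hwZ : 1 ≤ w0 * Z := one_le_mul_of_one_le_of_one_le hw01 hZ1
        have hcast : ∀ (γ : ℤ) (v : ℕ), (γ.natAbs : ℝ) ≤ w0 → v ≤ Z →
            |((γ * (v : ℤ) : ℤ) : ℝ)| ≤ w0 * Z := by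
          intro γ v h2 h3
          push_cast
          rw [abs_mul, Nat.abs_cast]
          have h4 : |(γ : ℝ)| ≤ w0 := by
            simpa only [Nat.cast_natAbs, Int.cast_abs] using h2
          exact mul_le_mul h4 (by exact_mod_cast h3) (Nat.cast_nonneg _) (by linarith)
        have hαw : (α.natAbs : ℝ) ≤ w0 := by
          rw [hw0]
          have h8 : (0 : ℝ) ≤ (β.natAbs : ℝ) := Nat.cast_nonneg _
          linarith
        have hβw : (β.natAbs : ℝ) ≤ w0 := by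
          rw [hw0]
          have h8 : (0 : ℝ) ≤ (α.natAbs : ℝ) := Nat.cast_nonneg _
          linarith
        have hj : j ∈ range K := by
          have h2 := (Finset.mem_filter.mp q1).2.1
          rw [Finset.mem_range]
          obtain ⟨k1, k2, k3, k4, k5, _⟩ := hS w1 (Finset.mem_filter.mp q1).1
          have hR1 : 1 < R := by
            have h3 : (rd w1.2 : ℝ) ≤ R := by
              have h4 := one_le_rd w1.1
              exact (le_mul_of_one_le_left (Nat.cast_nonneg _) h4).trans k5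
            by_contra hcon
            push Not at hcon
            have h4 : R = 1 := le_antisymm hcon hR
            rw [h4, Real.one_rpow] at h2
            rw [h4] at h3
            linarith
          have h3 : (((t w1).1 : ℝ)) ^ j ≤ R ^ τ := by
            have h4 : (t w1).1 ^ j ≤ Z := by
              have h5 : (t w1).1 ^ j ∣ w1.2 := by
                rw [← e4, q2]; exact dvd_mul_left _ _
              exact (Nat.le_of_dvd (by omega) h5).trans k4
            have h5 : (((t w1).1 : ℝ)) ^ j ≤ (Z : ℝ) := by exact_mod_cast h4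
            exact h5.trans hZR
          have h4 : R ^ ((1 / 2 : ℝ) * j) ≤ R ^ τ := by
            rw [Real.rpow_mul hR0.le, Real.rpow_natCast]
            exact (pow_le_pow_left₀ (by positivity) (hplow w1 q1) _).trans h3
          have h5 : (1 / 2 : ℝ) * j ≤ τ := (Real.rpow_le_rpow_left_iff hR1).mp h4
          have h6 : (j : ℝ) ≤ 2 * τ := by linarith
          have h7 : j ≤ ⌊2 * τ⌋₊ := Nat.le_floor h6
          omega
        have h2 := hCf j e2 N (w0 * Z) (β * (u : ℤ)) (α * (m : ℤ)) hN1 hwZ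
          (mul_ne_zero hβ (by exact_mod_cast e3)) (mul_ne_zero hα (by exact_mod_cast hm0))
          (hcast β u hβw huZ) (hcast α m hαw hmZ) (F.image (fun w => (t w).1)) (by
            intro x hx
            rw [Finset.mem_image] at hx
            obtain ⟨w, hw, rfl⟩ := hx
            refine ⟨hxN w hw, ?_⟩
            obtain ⟨r1, r2, r3, r4⟩ := hFm w hw
            obtain ⟨_, _, _, f4, _⟩ := ht w r1
            obtain ⟨_, _, _, _, _, _, _, y, hy⟩ := hS w (Finset.mem_filter.mp r1).1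
            refine ⟨y, ?_⟩
            rw [← hy, ← f4, r2, r3, r4]
            push_cast
            ring)
        rw [← hcF] at h2
        have h3 : (N : ℝ) ^ (1 / 2 : ℝ) ≤ R ^ (3 / 4 : ℝ) * (((rd m : ℝ))⁻¹ * ((rd u : ℝ))⁻¹) := by
          have h4 : (N : ℝ) ^ (1 / 2 : ℝ) ≤ Q ^ (1 / 2 : ℝ) :=
            Real.rpow_le_rpow (Nat.cast_nonneg _) (Nat.floor_le hQ0.le) (by norm_num)
          have h5 : Q ^ (1 / 2 : ℝ) = Q * Q ^ (-(1 / 2) : ℝ) := by
            nth_rewrite 2 [← Real.rpow_one Q]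
            rw [← Real.rpow_add hQ0]; norm_num
          have h6 : Q ^ (-(1 / 2) : ℝ) ≤ (R ^ (1 / 2 : ℝ)) ^ (-(1 / 2) : ℝ) :=
            Real.rpow_le_rpow_of_nonpos (by positivity) hQlow (by norm_num)
          have h7 : (R ^ (1 / 2 : ℝ)) ^ (-(1 / 2) : ℝ) = R ^ (-(1 / 4) : ℝ) := by
            rw [← Real.rpow_mul hR0.le]; norm_num
          rw [h7] at h6
          calc (N : ℝ) ^ (1 / 2 : ℝ) ≤ Q * Q ^ (-(1 / 2) : ℝ) := by rw [← h5]; exact h4
            _ ≤ Q * R ^ (-(1 / 4) : ℝ) := mul_le_mul_of_nonneg_left h6 hQ0.le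
            _ = (R * R ^ (-(1 / 4) : ℝ)) * (((rd m : ℝ))⁻¹ * ((rd u : ℝ))⁻¹) := by
                rw [hQ]; field_simp
            _ = R ^ (3 / 4 : ℝ) * (((rd m : ℝ))⁻¹ * ((rd u : ℝ))⁻¹) := by
                congr 1
                nth_rewrite 1 [← Real.rpow_one R]
                rw [← Real.rpow_add hR0]; norm_num
        have h4 : (w0 * Z) ^ σ = w0 ^ σ * (Z : ℝ) ^ σ := Real.mul_rpow (by linarith) hZ0.le
        have h5 := hC3le j hj
        calc (F.card : ℝ) ≤ Cf j * (N : ℝ) ^ (1 / 2 : ℝ) * (w0 * Z) ^ σ := h2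
          _ ≤ C3 * (R ^ (3 / 4 : ℝ) * (((rd m : ℝ))⁻¹ * ((rd u : ℝ))⁻¹)) * (w0 * Z) ^ σ := by
              apply mul_le_mul_of_nonneg_right _ (by positivity)
              exact mul_le_mul h5 h3 (by positivity) hC30
          _ = C3 * w0 ^ σ * (Z : ℝ) ^ σ * R ^ (3 / 4 : ℝ) *
              (((rd m : ℝ))⁻¹ * ((rd u : ℝ))⁻¹) := by rw [h4]; ring)
    refine h1.trans (le_of_eq ?_)
    rw [hKc]
    ring
  have hR34 : 0 < R ^ (3 / 4 : ℝ) := by positivity
  have hfin : (Ka + Kb + Kc) * ((Z : ℝ) ^ σ * (Z : ℝ) ^ σ) * R ^ (3 / 4 : ℝ) ≤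
      (Ka + Kb + Kc) * R ^ ε * R ^ (3 / 4 : ℝ) := by
    apply mul_le_mul_of_nonneg_right _ hR34.le
    exact mul_le_mul_of_nonneg_left hZσ (by linarith)
  calc (S.card : ℝ) ≤ (SA.card : ℝ) + ((SB.card : ℝ) + (SC.card : ℝ)) := hcard
    _ ≤ (Ka + Kb + Kc) * ((Z : ℝ) ^ σ * (Z : ℝ) ^ σ) * R ^ (3 / 4 : ℝ) := by linarith
    _ ≤ (Ka + Kb + Kc) * R ^ ε * R ^ (3 / 4 : ℝ) := hfin
    _ = (Ka + Kb + Kc) * R ^ (3 / 4 + ε) := by rw [hsplitR]; ring

/-- **Pairs with small radicals for which a fixed linear form is a square**: exponent `3/4`. -/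
theorem pair_count_sharp (α β : ℤ) (hα : α ≠ 0) (hβ : β ≠ 0) (G : ℕ) (τ ε : ℝ) (hτ : 0 < τ)
    (hε : 0 < ε) :
    ∃ C : ℝ, 0 < C ∧ ∀ (R : ℝ) (Z : ℕ), 1 ≤ R → (Z : ℝ) ≤ R ^ τ →
      ∀ S : Finset (ℕ × ℕ), (∀ w ∈ S, 1 ≤ w.1 ∧ w.1 ≤ Z ∧ 1 ≤ w.2 ∧ w.2 ≤ Z ∧
        (rd w.1 : ℝ) * rd w.2 ≤ R ∧ Nat.gcd w.1 w.2 ≤ G ∧
        ∃ y : ℤ, α * (w.1 : ℤ) + β * (w.2 : ℤ) = y ^ 2) →
      (S.card : ℝ) ≤ C * R ^ (3 / 4 + ε) := by
  classical
  obtain ⟨Ca, hCa, ha⟩ := half_sharp α β hα hβ G τ ε hτ hε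
  obtain ⟨Cb, hCb, hb⟩ := half_sharp β α hβ hα G τ ε hτ hε
  refine ⟨Ca + Cb, by positivity, ?_⟩
  intro R Z hR hZR S hS
  set S1 := S.filter (fun w => (rd w.1 : ℝ) ≤ (rd w.2 : ℝ)) with hS1
  set S2 := S.filter (fun w => ¬ (rd w.1 : ℝ) ≤ (rd w.2 : ℝ)) with hS2
  have hcard : (S.card : ℝ) = (S1.card : ℝ) + (S2.card : ℝ) := by
    rw [hS1, hS2, ← Nat.cast_add, Finset.card_filter_add_card_filter_not]
  have h1 : (S1.card : ℝ) ≤ Ca * R ^ (3 / 4 + ε) := by
    apply ha R Z hR hZR S1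
    intro w hw
    rw [hS1, Finset.mem_filter] at hw
    obtain ⟨k1, k2, k3, k4, k5, k6, k7⟩ := hS w hw.1
    exact ⟨k1, k2, k3, k4, k5, hw.2, k6, k7⟩
  have h2 : (S2.card : ℝ) ≤ Cb * R ^ (3 / 4 + ε) := by
    have h4 : S2.card = (S2.map ⟨Prod.swap, Prod.swap_injective⟩).card := (Finset.card_map _).symm
    rw [h4]
    apply hb R Z hR hZR _
    intro w hw
    rw [Finset.mem_map] at hw
    obtain ⟨v, hv, rfl⟩ := hw
    rw [hS2, Finset.mem_filter] at hv
    obtain ⟨k1, k2, k3, k4, k5, k6, y, hy⟩ := hS v hv.1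
    simp only [Function.Embedding.coeFn_mk, Prod.fst_swap, Prod.snd_swap]
    refine ⟨k3, k4, k1, k2, by rw [mul_comm]; exact k5, (not_le.mp hv.2).le, ?_, y, ?_⟩
    · rw [Nat.gcd_comm]; exact k6
    · rw [← hy]; ring
  rw [hcard]
  linarith

end Pool.Agent.Lib.MP_d8bd92_nt
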