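import Pool.Agent.Lib.MP_d8bd92_nt.TwCurve
import Pool.Agent.Lib.MP_d8bd92_nt.ToD

set_option autoImplicit false

/-!
Semistable curves with a rational point of order two ordered by conductor: the upper bound.
-/

namespace Pool.Agent.Lib.MP_d8bd92_nt

open Finset Pool.Agent.Lib.Szpiro WeierstrassCurve WeierstrassCurve.Affine

theorem gcd_le_six (m d D c : ℤ) (hD : D ≠ 0) (hc : c = m + d) (h256 : 256 * D = m ^ 2 * d)
    (hcop : IsCoprime c D) : Nat.gcd m.natAbs d.natAbs ≤ 6 := by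
  set g := Nat.gcd m.natAbs d.natAbs with hg
  have hgm : (g : ℤ) ∣ m := Int.natCast_dvd.mpr (Nat.gcd_dvd_left _ _)
  have hgd : (g : ℤ) ∣ d := Int.natCast_dvd.mpr (Nat.gcd_dvd_right _ _)
  have hgc : (g : ℤ) ∣ c := by rw [hc]; exact dvd_add hgm hgd
  have h1 : IsCoprime (g : ℤ) D := hcop.of_isCoprime_of_dvd_left hgc
  have h2 : IsCoprime ((g : ℤ) ^ 3) D := h1.pow_left
  have h3 : (g : ℤ) ^ 3 ∣ 256 * D := by
    rw [h256]
    have h4 : (g : ℤ) ^ 3 = (g : ℤ) ^ 2 * g := by ring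
    rw [h4]
    exact mul_dvd_mul (pow_dvd_pow_of_dvd hgm 2) hgd
  have h4 : (g : ℤ) ^ 3 ∣ 256 := h2.dvd_of_dvd_mul_right h3
  have h5 : g ^ 3 ∣ 256 := by exact_mod_cast h4
  have h6 : g ^ 3 ≤ 256 := Nat.le_of_dvd (by norm_num) h5
  by_contra hcon
  push Not at hcon
  have h7 : 7 ^ 3 ≤ g ^ 3 := Nat.pow_le_pow_left hcon 3
  omega

theorem twoSet_upper (κ ε : ℝ) (hκ : 0 < κ) (hε : 0 < ε) : ∃ C : ℝ, 0 < C ∧ ∀ Y : ℝ, 1 ≤ Y →
    (twoSet Y κ).Finite ∧ ((twoSet Y κ).ncard : ℝ) ≤ C * Y ^ (3 / 4 + ε) := by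
  classical
  have hs : ∀ s : Bool × Bool, ∃ C : ℝ, 0 < C ∧ ∀ (R : ℝ) (Z : ℕ), 1 ≤ R →
      (Z : ℝ) ≤ R ^ (κ + 4) → ∀ S : Finset (ℕ × ℕ), (∀ w ∈ S, 1 ≤ w.1 ∧ w.1 ≤ Z ∧ 1 ≤ w.2 ∧
        w.2 ≤ Z ∧ (rd w.1 : ℝ) * rd w.2 ≤ R ∧ Nat.gcd w.1 w.2 ≤ 6 ∧
        ∃ y : ℤ, (if s.1 then 4 else -4) * (w.1 : ℤ) +
          (if s.2 then 1 else -1) * (w.2 : ℤ) = y ^ 2) →
      (S.card : ℝ) ≤ C * R ^ (3 / 4 + ε) := by
    intro s
    apply pair_count_sharp _ _ _ _ 6 (κ + 4) ε (by linarith) hε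
    · split_ifs <;> norm_num
    · split_ifs <;> norm_num
  choose Cf hCf hmain using hs
  have hCsum : 0 < ∑ s : Bool × Bool, Cf s := Finset.sum_pos (fun s _ => hCf s) Finset.univ_nonempty
  refine ⟨2 * (∑ s : Bool × Bool, Cf s) * 4 ^ (3 / 4 + ε), by positivity, ?_⟩
  intro Y hY
  have hY0 : 0 < Y := by linarith
  -- choose parameters
  have hpar : ∀ c : ℤ × ℤ, ∃ t : ℤ × ℤ, c ∈ twoSet Y κ → (t.1 ≠ 0 ∧ t.2 ≠ 0 ∧
      t.1.natAbs ≤ ⌊256 * Y ^ κ⌋₊ ∧ t.2.natAbs ≤ ⌊256 * Y ^ κ⌋₊ ∧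
      ((rd t.1.natAbs : ℕ) : ℝ) * ((rd t.2.natAbs : ℕ) : ℝ) ≤ 4 * Y ∧ c.1 = t.1 + t.2 ∧
      (∃ g : ℤ, 4 * t.1 + t.2 = g ^ 2) ∧ 4 * c.2 ^ 2 = (4 * t.1 + t.2) * (t.1 - 2 * t.2) ^ 2 ∧
      Nat.gcd t.1.natAbs t.2.natAbs ≤ 6) := by
    intro c
    by_cases hc : c ∈ twoSet Y κ
    · obtain ⟨W, h4, h6, hΔ, hss, ⟨P, hP⟩, hN, hD⟩ := hc
      obtain ⟨m, d, g, e1, e2, e3, e4⟩ := two_torsion_param W P hP
      refine ⟨(m, d), fun _ => ?_⟩
      have hne : m ^ 2 * d ≠ 0 := by rw [← e2]; exact mul_ne_zero (by norm_num) hΔ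
      have hm0 : m ≠ 0 := by rintro h0; rw [h0] at hne; simp at hne
      have hd0 : d ≠ 0 := by rintro h0; rw [h0] at hne; simp at hne
      have hN' : 256 * W.Δ.natAbs = m.natAbs ^ 2 * d.natAbs := by
        have := congrArg Int.natAbs e2
        rw [Int.natAbs_mul, Int.natAbs_mul, Int.natAbs_pow] at this
        exact this
      have hm1 : 1 ≤ m.natAbs := Int.natAbs_pos.mpr hm0
      have hd1 : 1 ≤ d.natAbs := Int.natAbs_pos.mpr hd0
      have hdb : d.natAbs ≤ 256 * W.Δ.natAbs := by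
        rw [hN']; exact Nat.le_mul_of_pos_left _ (by positivity)
      have hmb : m.natAbs ≤ 256 * W.Δ.natAbs := by
        rw [hN']
        calc m.natAbs = m.natAbs * 1 * 1 := by ring
          _ ≤ m.natAbs * m.natAbs * d.natAbs := by gcongr
          _ = m.natAbs ^ 2 * d.natAbs := by ring
      have hfl : ∀ k : ℕ, k ≤ 256 * W.Δ.natAbs → k ≤ ⌊256 * Y ^ κ⌋₊ := by
        intro k hk
        apply Nat.le_floor
        have h1 : (k : ℝ) ≤ 256 * (W.Δ.natAbs : ℝ) := by exact_mod_cast hk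
        linarith
      refine ⟨hm0, hd0, hfl _ hmb, hfl _ hdb, ?_, ?_, ⟨g, e3⟩, ?_,
        gcd_le_six m d W.Δ W.c₄ hΔ e1 e2 hss⟩
      · have h1 := rd_mul_rd_le m d W.Δ W.c₄ hΔ e1 e2 hss
        have h2 : ((rd m.natAbs : ℕ) : ℝ) * ((rd d.natAbs : ℕ) : ℝ) ≤ 4 * ((rd W.Δ.natAbs : ℕ) : ℝ) := by
          exact_mod_cast h1
        linarith
      · rw [← h4, e1]
      · have h1 : 4 * c.2 ^ 2 = (2 * W.c₆) ^ 2 := by rw [h6]; ring
        rw [h1, e4, e3]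
        ring
    · exact ⟨(0, 0), fun h => absurd h hc⟩
  choose t ht using hpar
  -- injectivity
  have hinj : Set.InjOn (fun c : ℤ × ℤ => ((t c, decide (0 ≤ c.2)) : (ℤ × ℤ) × Bool)) (twoSet Y κ) := by
    intro c hc c' hc' hcc
    simp only [Prod.mk.injEq] at hcc
    obtain ⟨h1, h2⟩ := hcc
    obtain ⟨_, _, _, _, _, e1, _, e2, _⟩ := ht c hc
    obtain ⟨_, _, _, _, _, e1', _, e2', _⟩ := ht c' hc'
    rw [h1] at e1 e2
    have h3 : c.1 = c'.1 := by rw [e1, e1']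
    have h4 : c.2 ^ 2 = c'.2 ^ 2 := by linarith
    have h5 : c.2 = c'.2 := by
      rcases sq_eq_sq_iff_eq_or_eq_neg.mp h4 with h | h
      · exact h
      · have h6 : (0 ≤ c.2) ↔ (0 ≤ c'.2) := by simpa using h2
        by_cases h7 : 0 ≤ c'.2
        · have := h6.mpr h7
          omega
        · have h8 : ¬ 0 ≤ c.2 := fun h => h7 (h6.mp h)
          omega
    exact Prod.ext h3 h5
  set B : ℤ := (⌊256 * Y ^ κ⌋₊ : ℤ) with hB
  have hfin : (twoSet Y κ).Finite := by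
    apply Set.Finite.of_finite_image _ hinj
    apply Set.Finite.subset (Finset.finite_toSet
      (((Finset.Icc (-B) B) ×ˢ (Finset.Icc (-B) B)) ×ˢ (Finset.univ : Finset Bool)))
    rintro w ⟨c, hc, rfl⟩
    obtain ⟨_, _, h1, h2, _⟩ := ht c hc
    simp only [Finset.mem_coe, Finset.mem_product, Finset.mem_Icc, Finset.mem_univ, and_true]
    constructor <;> constructor <;> omega
  refine ⟨hfin, ?_⟩
  rw [Set.ncard_eq_toFinset_card _ hfin]
  set F : Finset (ℤ × ℤ) := hfin.toFinset with hF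
  have hFmem : ∀ c ∈ F, c ∈ twoSet Y κ := fun c hc => (Set.Finite.mem_toFinset hfin).mp hc
  -- split by signs
  set sg : ℤ × ℤ → (Bool × Bool) × Bool := fun c =>
    ((decide (0 ≤ (t c).1), decide (0 ≤ (t c).2)), decide (0 ≤ c.2)) with hsg
  have hsum : F.card = ∑ s : (Bool × Bool) × Bool, (F.filter (fun c => sg c = s)).card :=
    Finset.card_eq_sum_card_fiberwise (fun c _ => Finset.mem_univ _)
  have hZ : ((⌊256 * Y ^ κ⌋₊ : ℕ) : ℝ) ≤ (4 * Y) ^ (κ + 4) := by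
    have h1 : ((⌊256 * Y ^ κ⌋₊ : ℕ) : ℝ) ≤ 256 * Y ^ κ := Nat.floor_le (by positivity)
    refine h1.trans ?_
    have h2 : (4 * Y) ^ (κ + 4) = (4 * Y) ^ κ * (4 * Y) ^ (4 : ℕ) := by
      rw [Real.rpow_add (by positivity)]
      congr 1
      exact_mod_cast Real.rpow_natCast (4 * Y) 4
    have h3 : Y ^ κ ≤ (4 * Y) ^ κ := Real.rpow_le_rpow hY0.le (by linarith) hκ.le
    have h4 : (256 : ℝ) ≤ (4 * Y) ^ (4 : ℕ) := by
      have h5 : (4 : ℝ) ^ 4 ≤ (4 * Y) ^ 4 := pow_le_pow_left₀ (by norm_num) (by linarith) 4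
      norm_num at h5 ⊢
      linarith
    rw [h2]
    calc 256 * Y ^ κ = Y ^ κ * 256 := by ring
      _ ≤ (4 * Y) ^ κ * (4 * Y) ^ (4 : ℕ) := mul_le_mul h3 h4 (by norm_num) (by positivity)
  have hfib : ∀ s : (Bool × Bool) × Bool, ((F.filter (fun c => sg c = s)).card : ℝ) ≤
      Cf s.1 * (4 * Y) ^ (3 / 4 + ε) := by
    intro s
    set G := F.filter (fun c => sg c = s) with hG
    have hGmem : ∀ c ∈ G, c ∈ twoSet Y κ ∧ decide (0 ≤ (t c).1) = s.1.1 ∧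
        decide (0 ≤ (t c).2) = s.1.2 ∧ decide (0 ≤ c.2) = s.2 := by
      intro c hc
      rw [hG, Finset.mem_filter] at hc
      have h1 := hc.2
      rw [hsg] at h1
      simp only at h1
      rw [← h1]
      exact ⟨hFmem c hc.1, rfl, rfl, rfl⟩
    have hcardG : G.card = (G.image (fun c => ((t c).1.natAbs, (t c).2.natAbs))).card := by
      rw [Finset.card_image_of_injOn]
      intro c hc c' hc' hcc
      simp only [Prod.mk.injEq] at hcc
      obtain ⟨k1, k2, k3, k4⟩ := hGmem c hc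
      obtain ⟨k1', k2', k3', k4'⟩ := hGmem c' hc'
      apply hinj k1 k1'
      simp only [Prod.mk.injEq]
      refine ⟨Prod.ext ?_ ?_, by rw [k4, k4']⟩
      · have h1 : (0 ≤ (t c).1) ↔ (0 ≤ (t c').1) := by
          have := k2.trans k2'.symm
          simpa using this
        by_cases h2 : 0 ≤ (t c').1
        · have := h1.mpr h2
          omega
        · have h3 : ¬ 0 ≤ (t c).1 := fun h => h2 (h1.mp h)
          omega
      · have h1 : (0 ≤ (t c).2) ↔ (0 ≤ (t c').2) := by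
          have := k3.trans k3'.symm
          simpa using this
        by_cases h2 : 0 ≤ (t c').2
        · have := h1.mpr h2
          omega
        · have h3 : ¬ 0 ≤ (t c).2 := fun h => h2 (h1.mp h)
          omega
    rw [hcardG]
    apply hmain s.1 (4 * Y) ⌊256 * Y ^ κ⌋₊ (by linarith) hZ _ ?_
    · intro w hw
      rw [Finset.mem_image] at hw
      obtain ⟨c, hc, rfl⟩ := hw
      obtain ⟨k1, k2, k3, k4⟩ := hGmem c hc
      obtain ⟨a1, a2, a3, a4, a5, _, ⟨g, a7⟩, _, a8⟩ := ht c k1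
      refine ⟨Int.natAbs_pos.mpr a1, a3, Int.natAbs_pos.mpr a2, a4, a5, a8, g, ?_⟩
      rw [← a7, ← k2, ← k3]
      simp only [decide_eq_true_eq]
      by_cases h1 : 0 ≤ (t c).1
      · by_cases h2 : 0 ≤ (t c).2
        · rw [if_pos h1, if_pos h2]; omega
        · rw [if_pos h1, if_neg h2]; omega
      · by_cases h2 : 0 ≤ (t c).2
        · rw [if_neg h1, if_pos h2]; omega
        · rw [if_neg h1, if_neg h2]; omega
  calc (F.card : ℝ) = ∑ s : (Bool × Bool) × Bool, ((F.filter (fun c => sg c = s)).card : ℝ) := by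
        rw [hsum]; push_cast; rfl
    _ ≤ ∑ s : (Bool × Bool) × Bool, Cf s.1 * (4 * Y) ^ (3 / 4 + ε) :=
        Finset.sum_le_sum (fun s _ => hfib s)
    _ = 2 * (∑ s : Bool × Bool, Cf s) * (4 * Y) ^ (3 / 4 + ε) := by
        rw [Fintype.sum_prod_type]
        simp only [Finset.sum_const, Finset.card_univ, Fintype.card_bool, nsmul_eq_mul]
        rw [← Finset.mul_sum, ← Finset.sum_mul]
        push_cast
        ring
    _ = 2 * (∑ s : Bool × Bool, Cf s) * 4 ^ (3 / 4 + ε) * Y ^ (3 / 4 + ε) := by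
        rw [Real.mul_rpow (by norm_num) hY0.le]; ring

end Pool.Agent.Lib.MP_d8bd92_nt
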