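import Pool.Agent.Lib.MP_d8bd92_nt.ToE

set_option autoImplicit false

/-!
Semistable curves with a rational point of order two ordered by conductor: the lower bound.
-/

namespace Pool.Agent.Lib.MP_d8bd92_nt

open Finset Pool.Agent.Lib.Szpiro WeierstrassCurve WeierstrassCurve.Affine

/-- the curve `y² + xy = x³ + t x² + b x` -/
def LoW (t b : ℤ) : WeierstrassCurve ℤ := ⟨1, t, 0, b, 0⟩

theorem LoW_c4 (t b : ℤ) : (LoW t b).c₄ = (4 * t + 1) ^ 2 - 48 * b := by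
  rw [WeierstrassCurve.c₄, WeierstrassCurve.b₂, WeierstrassCurve.b₄]
  simp only [LoW]
  ring

theorem LoW_c6 (t b : ℤ) : (LoW t b).c₆ = -(4 * t + 1) ^ 3 + 72 * (4 * t + 1) * b := by
  rw [WeierstrassCurve.c₆, WeierstrassCurve.b₂, WeierstrassCurve.b₄, WeierstrassCurve.b₆]
  simp only [LoW]
  ring

theorem LoW_Δ (t b : ℤ) : (LoW t b).Δ = b ^ 2 * ((4 * t + 1) ^ 2 - 64 * b) := by
  rw [WeierstrassCurve.Δ, WeierstrassCurve.b₂, WeierstrassCurve.b₄, WeierstrassCurve.b₆,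
    WeierstrassCurve.b₈]
  simp only [LoW]
  ring

theorem LoW_Δ_ne (t b : ℤ) (hb : b ≠ 0) : (LoW t b).Δ ≠ 0 := by
  rw [LoW_Δ]
  apply mul_ne_zero (pow_ne_zero _ hb)
  intro h
  have h1 : (4 * t + 1) ^ 2 - 64 * b = 2 * (8 * t ^ 2 + 4 * t - 32 * b) + 1 := by ring
  omega

theorem LoW_coprime (t b : ℤ) (h : IsCoprime (4 * t + 1) b) :
    IsCoprime (LoW t b).c₄ (LoW t b).Δ := by
  rw [LoW_c4, LoW_Δ]
  have h1 : IsCoprime ((4 * t + 1) ^ 2 - 48 * b) b := by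
    have h2 : IsCoprime ((4 * t + 1) ^ 2) b := h.pow_left
    have e : (4 * t + 1) ^ 2 - 48 * b = (4 * t + 1) ^ 2 + b * (-48) := by ring
    rw [e]
    exact h2.add_mul_left_left _
  have h16 : IsCoprime ((4 * t + 1) ^ 2 - 48 * b) 16 := by
    have h2 : IsCoprime (4 * t + 1) (4 : ℤ) := ⟨1, -t, by ring⟩
    have h3 : IsCoprime ((4 * t + 1) ^ 2) ((4 : ℤ) ^ 2) := h2.pow
    have e : (4 * t + 1) ^ 2 - 48 * b = (4 * t + 1) ^ 2 + 4 ^ 2 * (-3 * b) := by ring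
    rw [e]
    have h4 := h3.add_mul_left_left (-3 * b)
    norm_num at h4 ⊢
    exact h4
  apply IsCoprime.mul_right h1.pow_right
  have e : (4 * t + 1) ^ 2 - 64 * b = -(16 * b) + ((4 * t + 1) ^ 2 - 48 * b) * 1 := by ring
  rw [e]
  apply IsCoprime.add_mul_left_right
  exact (h16.mul_right h1).neg_right

theorem LoW_point (t b : ℤ) (hb : b ≠ 0) :
    ∃ P : ((LoW t b).baseChange ℚ).toAffine.Point, addOrderOf P = 2 := by
  have hΔ0 := LoW_Δ_ne t b hb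
  have hΔQ : ((LoW t b).baseChange ℚ).toAffine.Δ ≠ 0 := by
    have : ((LoW t b).baseChange ℚ).Δ = ((LoW t b).Δ : ℚ) := by
      rw [WeierstrassCurve.baseChange, WeierstrassCurve.map_Δ]; simp
    change ((LoW t b).baseChange ℚ).Δ ≠ 0
    rw [this]
    exact_mod_cast hΔ0
  have e1 : ((LoW t b).baseChange ℚ).toAffine.a₁ = 1 := by
    simp [WeierstrassCurve.baseChange, LoW]
  have e2 : ((LoW t b).baseChange ℚ).toAffine.a₂ = (t : ℚ) := by
    simp [WeierstrassCurve.baseChange, LoW]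
  have e3 : ((LoW t b).baseChange ℚ).toAffine.a₃ = 0 := by
    simp [WeierstrassCurve.baseChange, LoW]
  have e4 : ((LoW t b).baseChange ℚ).toAffine.a₄ = (b : ℚ) := by
    simp [WeierstrassCurve.baseChange, LoW]
  have e6 : ((LoW t b).baseChange ℚ).toAffine.a₆ = 0 := by
    simp [WeierstrassCurve.baseChange, LoW]
  have hS : ((LoW t b).baseChange ℚ).toAffine.Nonsingular 0 0 := by
    rw [← equation_iff_nonsingular_of_Δ_ne_zero hΔQ, equation_iff, e1, e2, e3, e4, e6]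
    ring
  refine ⟨Point.some _ _ hS, ?_⟩
  rw [addOrderOf_eq_prime_iff (p := 2)]
  refine ⟨?_, Point.some_ne_zero _⟩
  rw [two_nsmul]
  apply Point.add_self_of_Y_eq
  rw [negY, e1, e3]; ring

/-- every positive odd number is `±(4 t + 1)` -/
theorem exists_t (s : ℕ) : ∃ t : ℤ, (4 * t + 1).natAbs = 2 * s - 1 ∨ s = 0 := by
  rcases Nat.even_or_odd' s with ⟨c, h | h⟩
  · exact ⟨-c, by omega⟩
  · exact ⟨c, by omega⟩

theorem sum_odd_sq (T : ℕ) : ∑ k ∈ Icc 1 T, (2 / ((2 * (k : ℝ) + 1) ^ 2)) ≤ 1 / 2 - 1 / (2 * ((T : ℝ) + 1)) := by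
  induction T with
  | zero => simp
  | succ T ih =>
    rw [Finset.sum_Icc_succ_top (by omega)]
    have h1 : (0 : ℝ) ≤ (T : ℝ) := Nat.cast_nonneg T
    have h2 : 2 / ((2 * ((T + 1 : ℕ) : ℝ) + 1) ^ 2) ≤
        1 / (2 * ((T : ℝ) + 1)) - 1 / (2 * (((T + 1 : ℕ) : ℝ) + 1)) := by
      push_cast
      rw [div_sub_div _ _ (by positivity) (by positivity), div_le_div_iff₀ (by positivity) (by positivity)]
      nlinarith
    linarith

/-- many coprime pairs -/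
theorem many_coprime (T B : ℕ) (hT : 1 ≤ T) : (3 / 8 : ℝ) * T * B ≤
    ((((Icc 1 T) ×ˢ (Icc 1 B)).filter (fun w : ℕ × ℕ => Nat.Coprime (2 * w.1 - 1) w.2 ∧
      B < 8 * w.2)).card : ℝ) := by
  classical
  set A := (Icc 1 T) ×ˢ (Icc 1 B) with hA
  set P := A.filter (fun w : ℕ × ℕ => Nat.Coprime (2 * w.1 - 1) w.2 ∧ B < 8 * w.2) with hP
  set Q := A.filter (fun w : ℕ × ℕ => 8 * w.2 ≤ B) with hQ
  set V : ℕ → Finset (ℕ × ℕ) := fun k => A.filter (fun w : ℕ × ℕ => 2 * k + 1 ∣ 2 * w.1 - 1 ∧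
    2 * k + 1 ∣ w.2) with hV
  have hcover : A ⊆ P ∪ (Q ∪ (Icc 1 T).biUnion V) := by
    intro w hw
    have hw' := hw
    rw [hA, Finset.mem_product, Finset.mem_Icc, Finset.mem_Icc] at hw'
    by_cases h1 : B < 8 * w.2
    · by_cases h2 : Nat.Coprime (2 * w.1 - 1) w.2
      · exact Finset.mem_union_left _ (Finset.mem_filter.mpr ⟨hw, h2, h1⟩)
      · apply Finset.mem_union_right
        apply Finset.mem_union_right
        rw [Finset.mem_biUnion]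
        obtain ⟨g, hg⟩ : ∃ g : ℕ, g = Nat.gcd (2 * w.1 - 1) w.2 := ⟨_, rfl⟩
        have hg1 : g ∣ 2 * w.1 - 1 := by rw [hg]; exact Nat.gcd_dvd_left _ _
        have hg2 : g ∣ w.2 := by rw [hg]; exact Nat.gcd_dvd_right _ _
        have hgne : g ≠ 1 := by rw [hg]; exact h2
        have hgle : g ≤ 2 * w.1 - 1 := Nat.le_of_dvd (by omega) hg1
        have hgodd : g % 2 = 1 := by
          rcases Nat.even_or_odd g with he | ho
          · exfalso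
            have h3 : 2 ∣ 2 * w.1 - 1 := dvd_trans he.two_dvd hg1
            omega
          · exact Nat.odd_iff.mp ho
        have hg0 : g ≠ 0 := by omega
        refine ⟨g / 2, ?_, ?_⟩
        · rw [Finset.mem_Icc]
          omega
        · rw [hV]
          simp only [Finset.mem_filter]
          have h3 : 2 * (g / 2) + 1 = g := by omega
          rw [h3]
          exact ⟨hw, hg1, hg2⟩
    · apply Finset.mem_union_right
      exact Finset.mem_union_left _ (Finset.mem_filter.mpr ⟨hw, not_lt.mp h1⟩)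
  have hTR : (0 : ℝ) ≤ (T : ℝ) := Nat.cast_nonneg T
  have hBR : (0 : ℝ) ≤ (B : ℝ) := Nat.cast_nonneg B
  have hQc : (Q.card : ℝ) ≤ (T : ℝ) * B / 8 := by
    have h1 : Q ⊆ (Icc 1 T) ×ˢ (Icc 1 (B / 8)) := by
      intro w hw
      rw [hQ, Finset.mem_filter, hA, Finset.mem_product, Finset.mem_Icc, Finset.mem_Icc] at hw
      rw [Finset.mem_product, Finset.mem_Icc, Finset.mem_Icc]
      omega
    have h2 := Finset.card_le_card h1
    rw [Finset.card_product, Nat.card_Icc, Nat.card_Icc] at h2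
    have h3 : Q.card ≤ T * (B / 8) := by simpa using h2
    have h4 : (Q.card : ℝ) ≤ (T : ℝ) * ((B / 8 : ℕ) : ℝ) := by exact_mod_cast h3
    have h5 : ((B / 8 : ℕ) : ℝ) ≤ (B : ℝ) / 8 := by
      have := Nat.cast_div_le (m := B) (n := 8) (α := ℝ)
      simpa using this
    calc (Q.card : ℝ) ≤ (T : ℝ) * ((B / 8 : ℕ) : ℝ) := h4
      _ ≤ (T : ℝ) * ((B : ℝ) / 8) := mul_le_mul_of_nonneg_left h5 hTR
      _ = (T : ℝ) * B / 8 := by ring
  have hVc : ∀ k ∈ Icc 1 T, ((V k).card : ℝ) ≤ (T : ℝ) * B * (2 / ((2 * (k : ℝ) + 1) ^ 2)) := by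
    intro k _
    set g := 2 * k + 1 with hg
    have hg0 : 0 < g := by omega
    have h1 : V k ⊆ ((Icc 1 T).filter (fun s => g ∣ 2 * s - 1)) ×ˢ
        ((Ioc 0 B).filter (fun b => g ∣ b)) := by
      intro w hw
      rw [hV] at hw
      simp only [Finset.mem_filter] at hw
      rw [hA, Finset.mem_product, Finset.mem_Icc, Finset.mem_Icc] at hw
      rw [Finset.mem_product, Finset.mem_filter, Finset.mem_filter, Finset.mem_Icc, Finset.mem_Ioc]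
      refine ⟨⟨hw.1.1, hw.2.1⟩, ⟨?_, hw.2.2⟩⟩
      omega
    have h2 : ((Icc 1 T).filter (fun s => g ∣ 2 * s - 1)).card ≤ 2 * T / g := by
      calc ((Icc 1 T).filter (fun s => g ∣ 2 * s - 1)).card ≤ (Icc 1 (2 * T / g)).card := by
            apply Finset.card_le_card_of_injOn (fun s => (2 * s - 1) / g)
            · intro s hs
              simp only [Finset.coe_filter, Set.mem_ofPred_eq, Finset.mem_Icc] at hs
              simp only [Finset.coe_Icc, Set.mem_Icc]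
              constructor
              · exact Nat.div_pos (Nat.le_of_dvd (by omega) hs.2) hg0
              · exact Nat.div_le_div_right (by omega)
            · intro s hs s' hs' hss
              simp only [Finset.coe_filter, Set.mem_ofPred_eq, Finset.mem_Icc] at hs hs'
              simp only at hss
              have h3 := Nat.div_mul_cancel hs.2
              have h4 := Nat.div_mul_cancel hs'.2
              rw [hss, h4] at h3
              omega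
        _ = 2 * T / g := by rw [Nat.card_Icc, Nat.add_sub_cancel]
    have h3 : ((Ioc 0 B).filter (fun b => g ∣ b)).card = B / g := Nat.Ioc_filter_dvd_card_eq_div B g
    have h4 : (V k).card ≤ (2 * T / g) * (B / g) := by
      refine (Finset.card_le_card h1).trans ?_
      rw [Finset.card_product, h3]
      exact Nat.mul_le_mul_right _ h2
    have hgR : (0 : ℝ) < (g : ℝ) := by exact_mod_cast hg0
    have h5 : ((2 * T / g : ℕ) : ℝ) ≤ 2 * T / g := by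
      have := Nat.cast_div_le (m := 2 * T) (n := g) (α := ℝ)
      push_cast at this
      exact this
    have h6 : ((B / g : ℕ) : ℝ) ≤ B / g := Nat.cast_div_le
    have hgk : (g : ℝ) = 2 * (k : ℝ) + 1 := by rw [hg]; push_cast; ring
    calc ((V k).card : ℝ) ≤ (((2 * T / g) * (B / g) : ℕ) : ℝ) := by exact_mod_cast h4
      _ = ((2 * T / g : ℕ) : ℝ) * ((B / g : ℕ) : ℝ) := by push_cast; ring
      _ ≤ (2 * T / g) * (B / g) := mul_le_mul h5 h6 (Nat.cast_nonneg _) (by positivity)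
      _ = (T : ℝ) * B * (2 / ((2 * (k : ℝ) + 1) ^ 2)) := by rw [hgk]; field_simp
  have hbi : (((Icc 1 T).biUnion V).card : ℝ) ≤ (T : ℝ) * B / 2 := by
    have h1 : (((Icc 1 T).biUnion V).card : ℝ) ≤ ∑ k ∈ Icc 1 T, ((V k).card : ℝ) := by
      exact_mod_cast Finset.card_biUnion_le
    have h2 := sum_odd_sq T
    have h3 : (0 : ℝ) ≤ 1 / (2 * ((T : ℝ) + 1)) := by positivity
    calc (((Icc 1 T).biUnion V).card : ℝ) ≤ ∑ k ∈ Icc 1 T, ((V k).card : ℝ) := h1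
      _ ≤ ∑ k ∈ Icc 1 T, (T : ℝ) * B * (2 / ((2 * (k : ℝ) + 1) ^ 2)) := Finset.sum_le_sum hVc
      _ = (T : ℝ) * B * ∑ k ∈ Icc 1 T, (2 / ((2 * (k : ℝ) + 1) ^ 2)) := by rw [Finset.mul_sum]
      _ ≤ (T : ℝ) * B * (1 / 2) := mul_le_mul_of_nonneg_left (by linarith) (by positivity)
      _ = (T : ℝ) * B / 2 := by ring
  have hAc : (A.card : ℝ) = (T : ℝ) * B := by
    rw [hA, Finset.card_product, Nat.card_Icc, Nat.card_Icc]
    push_cast
    simp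
  have hfin : (A.card : ℝ) ≤ (P.card : ℝ) + ((Q.card : ℝ) + (((Icc 1 T).biUnion V).card : ℝ)) := by
    have h1 := (Finset.card_le_card hcover).trans ((Finset.card_union_le _ _).trans
      (Nat.add_le_add_left (Finset.card_union_le _ _) _))
    exact_mod_cast h1
  rw [hAc] at hfin
  linarith

theorem ToF_inj (a a' b b' T B : ℤ) (ha : |a| ≤ 2 * T) (ha' : |a'| ≤ 2 * T) (hT : 0 ≤ T)
    (hTT : 2 * T ^ 2 ≤ 3 * B) (h6 : B < 8 * b) (e4 : a ^ 2 - 48 * b = a' ^ 2 - 48 * b')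
    (e6 : -a ^ 3 + 72 * a * b = -a' ^ 3 + 72 * a' * b') : a = a' ∧ b = b' := by
  have hfac : (a - a') * (a ^ 2 + a * a' + a' ^ 2 - 3 * (a ^ 2 - 48 * b)) = 0 := by
    linear_combination 2 * e6 + (3 * a') * e4
  have haeq : a = a' := by
    rcases mul_eq_zero.mp hfac with h | h
    · exact sub_eq_zero.1 h
    · exfalso
      clear e4 e6 hfac
      have h9 : a ^ 2 ≤ (2 * T) ^ 2 := sq_le_sq' (abs_le.mp ha).1 (abs_le.mp ha).2
      have h11 : |a * a'| ≤ (2 * T) * (2 * T) := by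
        rw [abs_mul]
        exact mul_le_mul ha ha' (abs_nonneg _) (mul_nonneg two_pos.le hT)
      have h12 := neg_abs_le (a * a')
      have h13 := sq_nonneg a'
      clear ha ha'
      linarith
  subst haeq
  refine ⟨rfl, ?_⟩
  omega

theorem ToF_e (a : ℤ) (T B b : ℕ) (ha : |a| ≤ 2 * (T : ℤ)) (hTT : 2 * T ^ 2 ≤ 3 * B)
    (hb : b ≤ B) : (a ^ 2 - 64 * (b : ℤ)).natAbs ≤ 64 * B := by
  have h2 : a ^ 2 ≤ (2 * (T : ℤ)) ^ 2 := sq_le_sq' (abs_le.mp ha).1 (abs_le.mp ha).2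
  have h3 : 2 * (T : ℤ) ^ 2 ≤ 3 * (B : ℤ) := by exact_mod_cast hTT
  have h1 : a ^ 2 ≤ 6 * (B : ℤ) := by
    clear ha hTT
    linarith
  have h5 := sq_nonneg a
  clear h2 h3 ha hTT
  omega

theorem ToF_real (q : ℝ) (hq1 : 4 ≤ q) (T B : ℕ) (hT4 : (T : ℝ) ≤ q / 4)
    (hTlow : q / 4 < (T : ℝ) + 1) (hBlow : q ^ 2 / 8 < (B : ℝ) + 1) :
    1 ≤ T ∧ 2 * T ^ 2 ≤ 3 * B ∧ q / 8 ≤ (T : ℝ) ∧ q ^ 2 / 16 ≤ (B : ℝ) := by
  have hT0 : (0 : ℝ) < (T : ℝ) := by linarith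
  have hT1 : 1 ≤ T := Nat.cast_pos.1 hT0
  have hT1R : (1 : ℝ) ≤ (T : ℝ) := by exact_mod_cast hT1
  have hq2 : (4 : ℝ) ^ 2 ≤ q ^ 2 := pow_le_pow_left₀ (by norm_num) hq1 2
  have hB1 : (1 : ℝ) < (B : ℝ) := by linarith
  have hB1n : 2 ≤ B := Nat.one_lt_cast.1 hB1
  have hB1R : (2 : ℝ) ≤ (B : ℝ) := by exact_mod_cast hB1n
  have h2 : (T : ℝ) ^ 2 ≤ (q / 4) ^ 2 := pow_le_pow_left₀ (Nat.cast_nonneg T) hT4 2
  have h3 : (q / 4) ^ 2 = q ^ 2 / 16 := by ring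
  refine ⟨hT1, ?_, by linarith, by linarith⟩
  have h1 : (2 : ℝ) * (T : ℝ) ^ 2 ≤ 3 * B := by linarith
  exact_mod_cast h1

theorem ToF_mem (κ Y q : ℝ) (hκ : 3 / 2 ≤ κ) (hY1 : 1 ≤ Y) (hq0 : 0 ≤ q) (hq4 : q ^ 4 = Y)
    (hq6 : q ^ 6 = Y ^ (3 / 2 : ℝ)) (t : ℤ) (b T B : ℕ) (hb0 : 1 ≤ b) (hbB : b ≤ B)
    (ha : |4 * t + 1| ≤ 2 * (T : ℤ)) (hTT : 2 * T ^ 2 ≤ 3 * B)
    (hcop : IsCoprime (4 * t + 1) (b : ℤ)) (hB8 : (B : ℝ) ≤ q ^ 2 / 8) :
    ((LoW t b).c₄, (LoW t b).c₆) ∈ twoSet Y κ := by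
  have hb1 : b ≠ 0 := Nat.one_le_iff_ne_zero.1 hb0
  have hb2 : (b : ℤ) ≠ 0 := Nat.cast_ne_zero.2 hb1
  have hΔ0 := LoW_Δ_ne t b hb2
  obtain ⟨e, he⟩ : ∃ e : ℕ, e = ((4 * t + 1) ^ 2 - 64 * (b : ℤ)).natAbs := ⟨_, rfl⟩
  have hE : ((LoW t b).Δ).natAbs = b ^ 2 * e := by
    rw [LoW_Δ, Int.natAbs_mul, Int.natAbs_pow, Int.natAbs_natCast, he]
  have he64 : e ≤ 64 * B := by rw [he]; exact ToF_e _ T B b ha hTT hbB
  have he0 : e ≠ 0 := by
    intro h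
    rw [h, mul_zero, Int.natAbs_eq_zero] at hE
    exact hΔ0 hE
  have hBR : (0 : ℝ) ≤ (B : ℝ) := Nat.cast_nonneg B
  refine ⟨LoW t b, rfl, rfl, hΔ0, LoW_coprime _ _ hcop, LoW_point _ _ hb2, ?_, ?_⟩
  · -- radical
    have h8 : rd (b ^ 2 * e) ≤ rd (b * e) := by
      apply rd_mono'
      · exact Nat.mul_ne_zero hb1 he0
      · intro p hp hpd
        rcases (hp.dvd_mul).mp hpd with h9 | h9
        · exact Dvd.dvd.mul_right (hp.dvd_of_dvd_pow h9) _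
        · exact Dvd.dvd.mul_left h9 _
    have h9 : rd (b ^ 2 * e) ≤ B * (64 * B) :=
      (h8.trans (rd_le (Nat.mul_ne_zero hb1 he0))).trans (Nat.mul_le_mul hbB he64)
    rw [hE]
    have h10 : ((rd (b ^ 2 * e) : ℕ) : ℝ) ≤ (B : ℝ) * (64 * B) := by exact_mod_cast h9
    refine h10.trans ?_
    rw [← hq4]
    calc (B : ℝ) * (64 * B) = 64 * (B : ℝ) ^ 2 := by ring
      _ ≤ 64 * (q ^ 2 / 8) ^ 2 :=
          mul_le_mul_of_nonneg_left (pow_le_pow_left₀ hBR hB8 2) (by norm_num)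
      _ = q ^ 4 := by ring
  · rw [hE]
    have h8 : b ^ 2 * e ≤ B ^ 2 * (64 * B) := Nat.mul_le_mul (Nat.pow_le_pow_left hbB 2) he64
    have h9 : ((b ^ 2 * e : ℕ) : ℝ) ≤ (B : ℝ) ^ 2 * (64 * B) := by exact_mod_cast h8
    refine h9.trans ?_
    have h10 : (B : ℝ) ^ 2 * (64 * B) ≤ q ^ 6 := by
      calc (B : ℝ) ^ 2 * (64 * B) = 64 * (B : ℝ) ^ 3 := by ring
        _ ≤ 64 * (q ^ 2 / 8) ^ 3 :=
            mul_le_mul_of_nonneg_left (pow_le_pow_left₀ hBR hB8 3) (by norm_num)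
        _ = q ^ 6 / 8 := by ring
        _ ≤ q ^ 6 := div_le_self (pow_nonneg hq0 6) (by norm_num)
    refine h10.trans ?_
    rw [hq6]
    exact Real.rpow_le_rpow_of_exponent_le hY1 hκ

/-- The lower bound. -/
theorem twoSet_lower (κ : ℝ) (hκ : 3 / 2 ≤ κ) (Y : ℝ) (hY : 256 ≤ Y) (hfin : (twoSet Y κ).Finite) :
    3 / 1024 * Y ^ (3 / 4 : ℝ) ≤ ((twoSet Y κ).ncard : ℝ) := by
  classical
  have hY1 : 1 ≤ Y := by linarith
  have hY0 : 0 ≤ Y := by linarith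
  obtain ⟨q, hq⟩ : ∃ q : ℝ, q = Y ^ (1 / 4 : ℝ) := ⟨_, rfl⟩
  have hq4 : q ^ 4 = Y := by
    rw [hq, ← Real.rpow_natCast, ← Real.rpow_mul hY0]; norm_num
  have hq0 : 0 ≤ q := by rw [hq]; exact Real.rpow_nonneg hY0 _
  have hq1 : 4 ≤ q := by
    rw [hq]
    calc (4 : ℝ) = (256 : ℝ) ^ (1 / 4 : ℝ) := by
          rw [show (256 : ℝ) = 4 ^ (4 : ℝ) by norm_num, ← Real.rpow_mul (by norm_num)]; norm_num
      _ ≤ Y ^ (1 / 4 : ℝ) := Real.rpow_le_rpow (by norm_num) hY (by norm_num)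
  have hq3 : Y ^ (3 / 4 : ℝ) = q ^ 3 := by
    rw [hq, ← Real.rpow_natCast, ← Real.rpow_mul hY0]; norm_num
  have hq6 : q ^ 6 = Y ^ (3 / 2 : ℝ) := by
    rw [hq, ← Real.rpow_natCast, ← Real.rpow_mul hY0]; norm_num
  clear hq
  obtain ⟨T, hT4, hTlow⟩ : ∃ T : ℕ, (T : ℝ) ≤ q / 4 ∧ q / 4 < (T : ℝ) + 1 :=
    ⟨⌊q / 4⌋₊, Nat.floor_le (div_nonneg hq0 (by norm_num)), Nat.lt_floor_add_one _⟩
  obtain ⟨B, hB8, hBlow⟩ : ∃ B : ℕ, (B : ℝ) ≤ q ^ 2 / 8 ∧ q ^ 2 / 8 < (B : ℝ) + 1 :=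
    ⟨⌊q ^ 2 / 8⌋₊, Nat.floor_le (div_nonneg (pow_nonneg hq0 2) (by norm_num)),
      Nat.lt_floor_add_one _⟩
  obtain ⟨hT1, hTT, h3, h4⟩ := ToF_real q hq1 T B hT4 hTlow hBlow
  clear hT4 hTlow hBlow
  choose t ht using exists_t
  obtain ⟨P, hP⟩ : ∃ P : Finset (ℕ × ℕ), P = ((Icc 1 T) ×ˢ (Icc 1 B)).filter (fun w : ℕ × ℕ =>
      Nat.Coprime (2 * w.1 - 1) w.2 ∧ B < 8 * w.2) := ⟨_, rfl⟩
  have hPmem : ∀ w ∈ P, 1 ≤ w.1 ∧ w.1 ≤ T ∧ 1 ≤ w.2 ∧ w.2 ≤ B ∧ Nat.Coprime (2 * w.1 - 1) w.2 ∧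
      B < 8 * w.2 ∧ (4 * t w.1 + 1).natAbs = 2 * w.1 - 1 := by
    intro w hw
    rw [hP, Finset.mem_filter, Finset.mem_product, Finset.mem_Icc, Finset.mem_Icc] at hw
    obtain ⟨⟨⟨h1, h2⟩, h3, h4⟩, h5, h6⟩ := hw
    refine ⟨h1, h2, h3, h4, h5, h6, ?_⟩
    rcases ht w.1 with h | h
    · exact h
    · exact absurd h (Nat.one_le_iff_ne_zero.1 h1)
  have habs : ∀ w ∈ P, |4 * t w.1 + 1| ≤ 2 * (T : ℤ) := by
    intro w hw
    obtain ⟨h1, h2, _, _, _, _, h7⟩ := hPmem w hw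
    rw [Int.abs_eq_natAbs, h7]
    clear hPmem hP hTT h7
    omega
  -- injectivity
  have hinj : Set.InjOn (fun w : ℕ × ℕ => ((LoW (t w.1) w.2).c₄, (LoW (t w.1) w.2).c₆))
      (P : Set (ℕ × ℕ)) := by
    intro w hw w' hw' hww
    have hw1 : w ∈ P := hw
    have hw1' : w' ∈ P := hw'
    obtain ⟨h1, h2, h3, h4, h5, h6, h7⟩ := hPmem w hw1
    obtain ⟨h1', h2', h3', h4', h5', h6', h7'⟩ := hPmem w' hw1'
    simp only [Prod.mk.injEq, LoW_c4, LoW_c6] at hww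
    obtain ⟨e4, e6⟩ := hww
    have h8 := ToF_inj (4 * t w.1 + 1) (4 * t w'.1 + 1) (w.2 : ℤ) (w'.2 : ℤ) T B (habs w hw1)
      (habs w' hw1') (Int.natCast_nonneg T) (by exact_mod_cast hTT) (by exact_mod_cast h6) e4
      (by rw [mul_assoc 72, mul_assoc 72] at e6 ⊢; exact e6)
    apply Prod.ext
    · have h9 := h8.1
      have h10 : (4 * t w.1 + 1).natAbs = (4 * t w'.1 + 1).natAbs := by rw [h9]
      rw [h7, h7'] at h10
      clear hPmem habs hP e4 e6 h8 h9 hTT h5 h5' h6 h6' h7 h7'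
      omega
    · exact Nat.cast_injective h8.2
  -- membership
  have hmem : ∀ w ∈ P, ((LoW (t w.1) w.2).c₄, (LoW (t w.1) w.2).c₆) ∈ twoSet Y κ := by
    intro w hw
    obtain ⟨h1, h2, h3, h4, h5, h6, h7⟩ := hPmem w hw
    have hcop : IsCoprime (4 * t w.1 + 1) (w.2 : ℤ) := by
      rw [Int.isCoprime_iff_gcd_eq_one, Int.gcd, h7, Int.natAbs_natCast]
      exact h5
    exact ToF_mem κ Y q hκ hY1 hq0 hq4 hq6 (t w.1) w.2 T B h3 h4 (habs w hw) hTT hcop hB8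
  have hcount := many_coprime T B hT1
  rw [← hP] at hcount
  have h1 : P.card ≤ (twoSet Y κ).ncard := by
    rw [← Finset.card_image_of_injOn hinj, ← Set.ncard_coe_finset]
    apply Set.ncard_le_ncard _ hfin
    intro c hc
    simp only [Finset.coe_image, Set.mem_image, Finset.mem_coe] at hc
    obtain ⟨w, hw, rfl⟩ := hc
    exact hmem w hw
  have h2 : (P.card : ℝ) ≤ ((twoSet Y κ).ncard : ℝ) := Nat.cast_le.2 h1
  refine le_trans ?_ (hcount.trans h2)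
  rw [hq3]
  have hTR : (0 : ℝ) ≤ (T : ℝ) := Nat.cast_nonneg T
  calc 3 / 1024 * q ^ 3 = 3 / 8 * ((q / 8) * (q ^ 2 / 16)) := by ring
    _ ≤ 3 / 8 * ((T : ℝ) * B) :=
        mul_le_mul_of_nonneg_left (mul_le_mul h3 h4
          (div_nonneg (pow_nonneg hq0 2) (by norm_num)) hTR) (by norm_num)
    _ = 3 / 8 * T * B := by ring

end Pool.Agent.Lib.MP_d8bd92_nt
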