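import Pool.Agent.Lib.MP_d8bd92_nt.Mult

set_option autoImplicit false

/-!
Sum and product of the abscissas of `P + Q` and `P - Q`; integrality over a subring.
-/

namespace Pool.Agent.Lib.Szpiro

open WeierstrassCurve WeierstrassCurve.Affine

variable {F : Type*} [Field F] [DecidableEq F]

/-- the abscissas of `P + Q` and `P - Q` -/
theorem bg_sum_prod {W : Affine F} {x1 y1 x2 y2 : F} (h1 : W.Nonsingular x1 y1)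
    (h2 : W.Nonsingular x2 y2) (hx : x1 ≠ x2) :
    ∃ x3 y3 h3 x4 y4 h4, Point.some x1 y1 h1 + Point.some x2 y2 h2 = Point.some x3 y3 h3 ∧
      Point.some x1 y1 h1 - Point.some x2 y2 h2 = Point.some x4 y4 h4 ∧
      (x3 + x4) * (x1 - x2) ^ 2 =
        2 * x1 ^ 2 * x2 + 2 * x1 * x2 ^ 2 + W.b₂ * x1 * x2 + W.b₄ * (x1 + x2) + W.b₆ ∧
      x3 * x4 * (x1 - x2) ^ 2 = x1 ^ 2 * x2 ^ 2 - W.b₄ * x1 * x2 - W.b₆ * (x1 + x2) - W.b₈ := by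
  have hD : x1 - x2 ≠ 0 := sub_ne_zero.mpr hx
  obtain ⟨l, hl⟩ : ∃ l, l * (x1 - x2) = y1 - y2 := ⟨_, div_mul_cancel₀ _ hD⟩
  obtain ⟨m, hm⟩ : ∃ m, m * (x1 - x2) = y1 - W.negY x2 y2 := ⟨_, div_mul_cancel₀ _ hD⟩
  have h2n : W.Nonsingular x2 (W.negY x2 y2) := (nonsingular_neg ..).mpr h2
  obtain ⟨h3, e3⟩ := add_chord h1 h2 hx hl
  obtain ⟨h4, e4⟩ := add_chord h1 h2n hx hm
  have hE1 := h1.1
  have hE2 := h2.1
  rw [equation_iff] at hE1 hE2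
  rw [negY] at hm
  refine ⟨_, _, h3, _, _, h4, e3, ?_, ?_, ?_⟩
  · rw [sub_eq_add_neg, Point.neg_some, e4]
  · have hl2 : (l * (x1 - x2)) ^ 2 = (y1 - y2) ^ 2 := by rw [hl]
    have hm2 : (m * (x1 - x2)) ^ 2 = (y1 - (-y2 - W.a₁ * x2 - W.a₃)) ^ 2 := by rw [hm]
    simp only [WeierstrassCurve.b₂, WeierstrassCurve.b₄, WeierstrassCurve.b₆]
    linear_combination hl2 + W.a₁ * (x1 - x2) * hl + hm2 + W.a₁ * (x1 - x2) * hm +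
      2 * hE1 + 2 * hE2
  · have hA : (l ^ 2 + W.a₁ * l - W.a₂ - x1 - x2) * (x1 - x2) ^ 2 =
        (y1 - y2) ^ 2 + W.a₁ * (y1 - y2) * (x1 - x2) - (W.a₂ + x1 + x2) * (x1 - x2) ^ 2 := by
      rw [← hl]; ring
    have hB : (m ^ 2 + W.a₁ * m - W.a₂ - x1 - x2) * (x1 - x2) ^ 2 =
        (y1 + y2 + W.a₁ * x2 + W.a₃) ^ 2 + W.a₁ * (y1 + y2 + W.a₁ * x2 + W.a₃) * (x1 - x2)
          - (W.a₂ + x1 + x2) * (x1 - x2) ^ 2 := by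
      have : y1 + y2 + W.a₁ * x2 + W.a₃ = m * (x1 - x2) := by rw [hm]; ring
      rw [this]; ring
    have hD2 : (x1 - x2) ^ 2 ≠ 0 := pow_ne_zero 2 hD
    apply mul_right_cancel₀ hD2
    have hAB : (l ^ 2 + W.a₁ * l - W.a₂ - x1 - x2) * (m ^ 2 + W.a₁ * m - W.a₂ - x1 - x2) *
        (x1 - x2) ^ 2 * (x1 - x2) ^ 2 = ((l ^ 2 + W.a₁ * l - W.a₂ - x1 - x2) * (x1 - x2) ^ 2) *
        ((m ^ 2 + W.a₁ * m - W.a₂ - x1 - x2) * (x1 - x2) ^ 2) := by ring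
    rw [hAB, hA, hB]
    simp only [WeierstrassCurve.b₂, WeierstrassCurve.b₄, WeierstrassCurve.b₆, WeierstrassCurve.b₈]
    generalize W.a₁ = a1 at *
    generalize W.a₂ = a2 at *
    generalize W.a₃ = a3 at *
    generalize W.a₄ = a4 at *
    generalize W.a₆ = a6 at *
    linear_combination (y1 ^ 2 + y1 * a1 * x1 + y1 * a3 - 2 * y2 ^ 2 - 2 * y2 * a1 * x2
      - 2 * y2 * a3 + a1 ^ 2 * x1 * x2 - a1 ^ 2 * x2 ^ 2 + a1 * a3 * x1 - a1 * a3 * x2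
      - a2 * x1 ^ 2 + 4 * a2 * x1 * x2 - 2 * a2 * x2 ^ 2 + a4 * x1 + a6 - x1 ^ 3
      + 2 * x1 ^ 2 * x2 + 2 * x1 * x2 ^ 2 - 2 * x2 ^ 3) * hE1 +
      (y2 ^ 2 + y2 * a1 * x2 + y2 * a3 - a1 ^ 2 * x1 ^ 2 + a1 ^ 2 * x1 * x2 - a1 * a3 * x1
      + a1 * a3 * x2 - 4 * a2 * x1 ^ 2 + 4 * a2 * x1 * x2 - a2 * x2 ^ 2 - 2 * a4 * x1
      + a4 * x2 - a6 - 4 * x1 ^ 3 + 2 * x1 ^ 2 * x2 + 2 * x1 * x2 ^ 2 - x2 ^ 3) * hE2

/-- the abscissa of `2P` -/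
theorem bg_dup {W : Affine F} {x y : F} (h : W.Nonsingular x y)
    (h2 : Point.some x y h + Point.some x y h ≠ 0) :
    ∃ x' y' h', Point.some x y h + Point.some x y h = Point.some x' y' h' ∧
      x' * (4 * x ^ 3 + W.b₂ * x ^ 2 + 2 * W.b₄ * x + W.b₆) =
        x ^ 4 - W.b₄ * x ^ 2 - 2 * W.b₆ * x - W.b₈ := by
  have hden : 2 * y + W.a₁ * x + W.a₃ ≠ 0 := by
    intro h0
    apply h2
    apply Point.add_self_of_Y_eq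
    rw [negY]
    linear_combination h0
  obtain ⟨l, hl⟩ : ∃ l, l * (2 * y + W.a₁ * x + W.a₃)
      = 3 * x ^ 2 + 2 * W.a₂ * x + W.a₄ - W.a₁ * y := ⟨_, div_mul_cancel₀ _ hden⟩
  obtain ⟨h', e⟩ := add_tangent h hden hl
  refine ⟨_, _, h', e, ?_⟩
  have hE := h.1
  rw [equation_iff] at hE
  have hpsi : 4 * x ^ 3 + W.b₂ * x ^ 2 + 2 * W.b₄ * x + W.b₆ =
      (2 * y + W.a₁ * x + W.a₃) ^ 2 := by
    simp only [WeierstrassCurve.b₂, WeierstrassCurve.b₄, WeierstrassCurve.b₆]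
    linear_combination -4 * hE
  rw [hpsi]
  have hA : (l ^ 2 + W.a₁ * l - W.a₂ - x - x) * (2 * y + W.a₁ * x + W.a₃) ^ 2 =
      (3 * x ^ 2 + 2 * W.a₂ * x + W.a₄ - W.a₁ * y) ^ 2 +
      W.a₁ * (3 * x ^ 2 + 2 * W.a₂ * x + W.a₄ - W.a₁ * y) * (2 * y + W.a₁ * x + W.a₃)
      - (W.a₂ + 2 * x) * (2 * y + W.a₁ * x + W.a₃) ^ 2 := by
    rw [← hl]; ring
  rw [hA]
  simp only [WeierstrassCurve.b₂, WeierstrassCurve.b₄, WeierstrassCurve.b₆, WeierstrassCurve.b₈]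
  linear_combination (-W.a₁ ^ 2 - 4 * W.a₂ - 8 * x) * hE

end Pool.Agent.Lib.Szpiro
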