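import Mathlib

set_option autoImplicit false

/-!
The inverses of the abscissas of the multiples of a point which is small at a prime.
-/

namespace Pool.Agent.Lib.Szpiro

/-- If `x 1 = 1 / u` with `u` small, and the `x m` are the abscissas of the multiples of a point,
then `1 / x m = u (m ^ 2 + u r)`. -/
theorem bg_seq {R F : Type*} [CommRing R] [Field F] (φ : R →+* F) (b2 b4 b6 b8 u : R)
    (hunit : ∀ r : R, ∃ v : R, (1 + u * r) * v = 1) (x : ℕ → F) (N : ℕ)
    (hx1 : x 1 * φ u = 1)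
    (h2 : x 2 * (4 * x 1 ^ 3 + φ b2 * x 1 ^ 2 + 2 * φ b4 * x 1 + φ b6) =
      x 1 ^ 4 - φ b4 * x 1 ^ 2 - 2 * φ b6 * x 1 - φ b8)
    (hs : ∀ m, 2 ≤ m → m < N → (x (m + 1) + x (m - 1)) * (x m - x 1) ^ 2 =
      2 * x m ^ 2 * x 1 + 2 * x m * x 1 ^ 2 + φ b2 * x m * x 1 + φ b4 * (x m + x 1) + φ b6)
    (hp : ∀ m, 2 ≤ m → m < N → x (m + 1) * x (m - 1) * (x m - x 1) ^ 2 =
      x m ^ 2 * x 1 ^ 2 - φ b4 * x m * x 1 - φ b6 * (x m + x 1) - φ b8) :
    ∀ m, 1 ≤ m → m ≤ N → ∃ c r : R, x m * φ u * φ c = 1 ∧ c = (m : R) ^ 2 + u * r := by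
  have hφ2 : φ 2 = 2 := map_ofNat φ 2
  have hφ4 : φ 4 = 4 := map_ofNat φ 4
  have hu0 : φ u ≠ 0 := by
    intro h0
    rw [h0, mul_zero] at hx1
    exact zero_ne_one hx1
  have hx1' : x 1 = (φ u)⁻¹ := eq_inv_of_mul_eq_one_left hx1
  have base1 : ∃ c r : R, x 1 * φ u * φ c = 1 ∧ c = ((1 : ℕ) : R) ^ 2 + u * r :=
    ⟨1, 0, by rw [map_one, mul_one, hx1], by simp⟩
  have base2 : ∃ c r : R, x 2 * φ u * φ c = 1 ∧ c = ((2 : ℕ) : R) ^ 2 + u * r := by
    obtain ⟨v, hv⟩ := hunit (-(b4 * u) - 2 * b6 * u ^ 2 - b8 * u ^ 3)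
    refine ⟨(4 + u * (b2 + 2 * b4 * u + b6 * u ^ 2)) * v,
      (b2 + 2 * b4 * u + b6 * u ^ 2 - 4 * (-(b4 * u) - 2 * b6 * u ^ 2 - b8 * u ^ 3)) * v, ?_, ?_⟩
    · have hv' : (1 + φ u * (-(φ b4 * φ u) - 2 * φ b6 * φ u ^ 2 - φ b8 * φ u ^ 3)) * φ v = 1 := by
        have := congrArg φ hv
        simpa [hφ2] using this
      have e1 : x 2 * φ u * (4 + φ u * (φ b2 + 2 * φ b4 * φ u + φ b6 * φ u ^ 2)) =
          1 + φ u * (-(φ b4 * φ u) - 2 * φ b6 * φ u ^ 2 - φ b8 * φ u ^ 3) := by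
        rw [hx1'] at h2
        field_simp at h2
        linear_combination h2
      rw [map_mul]
      have e2 : φ (4 + u * (b2 + 2 * b4 * u + b6 * u ^ 2)) =
          4 + φ u * (φ b2 + 2 * φ b4 * φ u + φ b6 * φ u ^ 2) := by simp [hφ2, hφ4]
      rw [e2]
      linear_combination φ v * e1 + hv'
    · push_cast
      linear_combination 4 * hv
  have step : ∀ m, 2 ≤ m → m < N →
      (∃ c r : R, x (m - 1) * φ u * φ c = 1 ∧ c = ((m - 1 : ℕ) : R) ^ 2 + u * r) →
      (∃ c r : R, x m * φ u * φ c = 1 ∧ c = (m : R) ^ 2 + u * r) →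
      ∃ c r : R, x (m + 1) * φ u * φ c = 1 ∧ c = ((m + 1 : ℕ) : R) ^ 2 + u * r := by
    rintro m hm hmN ⟨c', r', h3, h4⟩ ⟨c, r, h5, h6⟩
    have hc0 : φ c ≠ 0 := by
      intro h0
      rw [h0, mul_zero] at h5
      exact zero_ne_one h5
    have hc0' : φ c' ≠ 0 := by
      intro h0
      rw [h0, mul_zero] at h3
      exact zero_ne_one h3
    obtain ⟨w, hw⟩ : ∃ w : R, w = -(b4 * u * c) - b6 * u ^ 2 * c * (1 + c) - b8 * u ^ 3 * c ^ 2 :=
      ⟨_, rfl⟩
    obtain ⟨t, ht⟩ : ∃ t : R, t = b2 * c + b4 * u * c * (1 + c) + b6 * u ^ 2 * c ^ 2 := ⟨_, rfl⟩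
    obtain ⟨v, hv⟩ := hunit w
    have hv' : (1 + φ u * φ w) * φ v = 1 := by
      have := congrArg φ hv
      simpa using this
    have hV0 : 1 + φ u * φ w ≠ 0 := by
      intro h0
      rw [h0, zero_mul] at hv'
      exact zero_ne_one hv'
    have hw' : φ w = -(φ b4 * φ u * φ c) - φ b6 * φ u ^ 2 * φ c * (1 + φ c)
        - φ b8 * φ u ^ 3 * φ c ^ 2 := by rw [hw]; simp
    have ht' : φ t = φ b2 * φ c + φ b4 * φ u * φ c * (1 + φ c) + φ b6 * φ u ^ 2 * φ c ^ 2 := by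
      rw [ht]; simp
    have hxm : x m = (φ u * φ c)⁻¹ := by
      apply eq_inv_of_mul_eq_one_left
      linear_combination h5
    have hxm' : x (m - 1) = (φ u * φ c')⁻¹ := by
      apply eq_inv_of_mul_eq_one_left
      linear_combination h3
    have hP := hp m hm hmN
    have hS := hs m hm hmN
    have hD : (x m - x 1) ^ 2 ≠ 0 := by
      intro h0
      rw [h0, mul_zero] at hP
      apply hV0
      rw [hw']
      rw [hxm, hx1'] at hP
      field_simp at hP
      linear_combination -hP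
    have key : (x (m + 1) + x (m - 1)) * (1 + φ u * φ w) =
        x (m + 1) * x (m - 1) * (φ u * (2 + 2 * φ c + φ u * φ t)) := by
      apply mul_right_cancel₀ hD
      have e1 : (x (m + 1) + x (m - 1)) * (1 + φ u * φ w) * (x m - x 1) ^ 2 =
          ((x (m + 1) + x (m - 1)) * (x m - x 1) ^ 2) * (1 + φ u * φ w) := by ring
      have e2 : x (m + 1) * x (m - 1) * (φ u * (2 + 2 * φ c + φ u * φ t)) * (x m - x 1) ^ 2 =
          (x (m + 1) * x (m - 1) * (x m - x 1) ^ 2) * (φ u * (2 + 2 * φ c + φ u * φ t)) := by ring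
      rw [e1, e2, hS, hP, hw', ht', hxm, hx1']
      field_simp
      ring
    have key2 : x (m + 1) * φ u * (2 + 2 * φ c + φ u * φ t - φ c' * (1 + φ u * φ w)) =
        1 + φ u * φ w := by
      rw [hxm'] at key
      field_simp at key
      linear_combination -key
    refine ⟨(2 + 2 * c + u * t) * v - c', 2 * r - r' + t * v - (2 + 2 * c) * w * v, ?_, ?_⟩
    · have e3 : φ ((2 + 2 * c + u * t) * v - c') = (2 + 2 * φ c + φ u * φ t) * φ v - φ c' := by
        simp [hφ2]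
      rw [e3]
      linear_combination φ v * key2 + (1 + x (m + 1) * φ u * φ c') * hv'
    · have hm1 : ((m - 1 : ℕ) : R) = (m : R) - 1 := by
        rw [Nat.cast_sub (by omega), Nat.cast_one]
      rw [hm1] at h4
      push_cast
      linear_combination (2 + 2 * c) * hv + 2 * h6 - h4
  intro m
  induction m using Nat.strong_induction_on with
  | _ m ih =>
    intro hm1 hmN
    rcases Nat.lt_or_ge m 3 with h | h
    · interval_cases m
      · exact base1
      · exact base2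
    · have h7 := step (m - 1) (by omega) (by omega)
        (ih (m - 1 - 1) (by omega) (by omega) (by omega))
        (ih (m - 1) (by omega) (by omega) (by omega))
      rwa [Nat.sub_add_cancel (by omega)] at h7

end Pool.Agent.Lib.Szpiro
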