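import Pool.Agent.Lib.MP_d8bd92_nt.BgA
import Pool.Agent.Lib.MP_d8bd92_nt.BgB

set_option autoImplicit false

/-!
Rational points of prime order at least five are integral.
-/

namespace Pool.Agent.Lib.Szpiro

open WeierstrassCurve WeierstrassCurve.Affine

section
variable {F : Type*} [Field F]

/-- the abscissa (`0` at infinity) -/
def xco {W : Affine F} : W.Point → F
  | Point.zero => 0
  | Point.some x _ _ => x

theorem xco_some {W : Affine F} {x y : F} (h : W.Nonsingular x y) :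
    xco (Point.some x y h) = x := rfl

theorem xco_neg {W : Affine F} (P : W.Point) : xco (-P) = xco P := by
  rcases P with _ | ⟨x, y, h⟩
  · rfl
  · rw [Point.neg_some]; rfl

variable [DecidableEq F]

theorem bg_mult {W : Affine F} (P : W.Point) (m : ℕ) (hm1 : 1 ≤ m) (h1 : P ≠ 0) (hm : m • P ≠ 0)
    (hne : m • P ≠ P) (hne' : m • P ≠ -P) :
    (xco ((m + 1) • P) + xco ((m - 1) • P)) * (xco (m • P) - xco P) ^ 2 =
      2 * xco (m • P) ^ 2 * xco P + 2 * xco (m • P) * xco P ^ 2 + W.b₂ * xco (m • P) * xco P +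
        W.b₄ * (xco (m • P) + xco P) + W.b₆ ∧
    xco ((m + 1) • P) * xco ((m - 1) • P) * (xco (m • P) - xco P) ^ 2 =
      xco (m • P) ^ 2 * xco P ^ 2 - W.b₄ * xco (m • P) * xco P -
        W.b₆ * (xco (m • P) + xco P) - W.b₈ := by
  have e1 : (m + 1) • P = m • P + P := succ_nsmul P m
  have e2 : (m - 1) • P = m • P - P := by
    have h : m • P = (m - 1) • P + P := by
      rw [← succ_nsmul, Nat.sub_add_cancel hm1]
    rw [h]; simp
  rw [e1, e2]
  generalize m • P = Q at *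
  rcases P with _ | ⟨x1, y1, h1'⟩
  · exact absurd rfl h1
  rcases Q with _ | ⟨x2, y2, h2'⟩
  · exact absurd rfl hm
  have hx : x2 ≠ x1 := by
    intro h0
    rcases (Point.X_eq_iff (h₁ := h2') (h₂ := h1')).mp h0 with h | h
    · exact hne h
    · exact hne' h
  obtain ⟨x3, y3, h3, x4, y4, h4, f1, f2, f3, f4⟩ := bg_sum_prod h2' h1' hx
  rw [f1, f2]
  simp only [xco_some]
  exact ⟨f3, f4⟩

theorem bg_double {W : Affine F} (P : W.Point) (h1 : P ≠ 0) (h2 : 2 • P ≠ 0) :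
    xco (2 • P) * (4 * xco P ^ 3 + W.b₂ * xco P ^ 2 + 2 * W.b₄ * xco P + W.b₆) =
      xco P ^ 4 - W.b₄ * xco P ^ 2 - 2 * W.b₆ * xco P - W.b₈ := by
  rw [two_nsmul] at h2 ⊢
  rcases P with _ | ⟨x1, y1, h1'⟩
  · exact absurd rfl h1
  obtain ⟨x', y', h', e1, e2⟩ := bg_dup h1' h2
  rw [e1]
  simp only [xco_some]
  exact e2

end

theorem rat_int_of_padic (q : ℚ) (h : ∀ p : ℕ, ∀ _ : Fact p.Prime, ‖(q : ℚ_[p])‖ ≤ 1) :
    ∃ n : ℤ, q = n := by
  by_cases hd : q.den = 1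
  · exact ⟨q.num, ((Rat.den_eq_one_iff q).mp hd).symm⟩
  exfalso
  obtain ⟨p, hp, hpd⟩ := Nat.exists_prime_and_dvd hd
  haveI : Fact p.Prime := ⟨hp⟩
  have h1 := h p ⟨hp⟩
  have hnum : ¬ (p : ℤ) ∣ q.num := by
    intro h2
    have h3 : p ∣ q.num.natAbs := Int.natCast_dvd.mp h2
    have h4 := Nat.Coprime.eq_one_of_dvd (Nat.Coprime.coprime_dvd_left h3 q.reduced) hpd
    exact hp.one_lt.ne' h4
  have e1 : (q : ℚ_[p]) * ((q.den : ℤ) : ℚ_[p]) = ((q.num : ℤ) : ℚ_[p]) := by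
    have : q * ((q.den : ℤ) : ℚ) = ((q.num : ℤ) : ℚ) := by
      rw [Int.cast_natCast]; exact Rat.mul_den_eq_num q
    exact_mod_cast congrArg (fun t : ℚ => (t : ℚ_[p])) this
  have e2 : ‖((q.den : ℤ) : ℚ_[p])‖ < 1 := by
    have := (PadicInt.norm_int_lt_one_iff_dvd (p := p) (q.den : ℤ)).mpr (by exact_mod_cast hpd)
    rwa [PadicInt.norm_def, PadicInt.coe_intCast] at this
  have e3 : ¬ ‖((q.num : ℤ) : ℚ_[p])‖ < 1 := by
    intro h5
    apply hnum
    rw [← PadicInt.coe_intCast, ← PadicInt.norm_def] at h5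
    exact (PadicInt.norm_int_lt_one_iff_dvd (p := p) q.num).mp h5
  apply e3
  rw [← e1, norm_mul]
  calc ‖(q : ℚ_[p])‖ * ‖((q.den : ℤ) : ℚ_[p])‖ ≤ 1 * ‖((q.den : ℤ) : ℚ_[p])‖ :=
        mul_le_mul_of_nonneg_right h1 (norm_nonneg _)
    _ < 1 := by rw [one_mul]; exact e2

end Pool.Agent.Lib.Szpiro
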