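import Pool.Agent.Lib.MP_d8bd92_nt.BgC

set_option autoImplicit false

/-!
Rational points of prime order at least five are integral: the proof.
-/

namespace Pool.Agent.Lib.Szpiro

open WeierstrassCurve WeierstrassCurve.Affine

/-- a point of prime order `l ≥ 5`: `l x` is integral at every prime -/
theorem bg_padic (W : WeierstrassCurve ℤ) (P : (W.baseChange ℚ).toAffine.Point) (l : ℕ)
    (hl : l.Prime) (h5 : 5 ≤ l) (hP : addOrderOf P = l) (p : ℕ) [hp : Fact p.Prime] :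
    ‖(((l : ℚ) * xco P : ℚ) : ℚ_[p])‖ ≤ 1 := by
  have hmul0 : ∀ m : ℕ, 1 ≤ m → m < l → m • P ≠ 0 := by
    intro m hm hml h0
    have := addOrderOf_le_of_nsmul_eq_zero hm h0
    omega
  have hlP : l • P = 0 := by rw [← hP]; exact addOrderOf_nsmul_eq_zero P
  have hP0 : P ≠ 0 := by simpa using hmul0 1 le_rfl (by omega)
  have eb2 : (W.baseChange ℚ).toAffine.b₂ = ((W.b₂ : ℤ) : ℚ) := by simp [WeierstrassCurve.baseChange]
  have eb4 : (W.baseChange ℚ).toAffine.b₄ = ((W.b₄ : ℤ) : ℚ) := by simp [WeierstrassCurve.baseChange]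
  have eb6 : (W.baseChange ℚ).toAffine.b₆ = ((W.b₆ : ℤ) : ℚ) := by simp [WeierstrassCurve.baseChange]
  have eb8 : (W.baseChange ℚ).toAffine.b₈ = ((W.b₈ : ℤ) : ℚ) := by simp [WeierstrassCurve.baseChange]
  rw [Rat.cast_mul, Rat.cast_natCast, norm_mul]
  by_cases hx : ‖((xco P : ℚ) : ℚ_[p])‖ ≤ 1
  · have h1 : ‖((l : ℕ) : ℚ_[p])‖ ≤ 1 := by
      have := Padic.norm_int_le_one (p := p) (l : ℤ)
      simpa using this
    exact mul_le_one₀ h1 (norm_nonneg _) hx
  push Not at hx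
  have hx0 : ((xco P : ℚ) : ℚ_[p]) ≠ 0 := by
    intro h0
    rw [h0, norm_zero] at hx
    linarith
  have hun : ‖(((xco P : ℚ) : ℚ_[p]))⁻¹‖ < 1 := by
    rw [norm_inv]
    exact inv_lt_one_of_one_lt₀ hx
  obtain ⟨u, hu⟩ : ∃ u : ℤ_[p], (u : ℚ_[p]) = (((xco P : ℚ) : ℚ_[p]))⁻¹ := ⟨⟨_, hun.le⟩, rfl⟩
  have hu1 : ‖u‖ < 1 := by rw [PadicInt.norm_def, hu]; exact hun
  obtain ⟨φ, hφ⟩ : ∃ φ : ℤ_[p] →+* ℚ_[p], ∀ a : ℤ_[p], φ a = (a : ℚ_[p]) :=
    ⟨PadicInt.Coe.ringHom, fun a => rfl⟩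
  have hunit : ∀ r : ℤ_[p], ∃ v : ℤ_[p], (1 + u * r) * v = 1 := by
    intro r
    have h1 : u * r ∈ nonunits ℤ_[p] := by
      rw [PadicInt.mem_nonunits, norm_mul]
      calc ‖u‖ * ‖r‖ ≤ ‖u‖ * 1 := mul_le_mul_of_nonneg_left (PadicInt.norm_le_one r) (norm_nonneg _)
        _ < 1 := by rw [mul_one]; exact hu1
    have h2 : IsUnit (1 - -(u * r)) := by
      apply IsLocalRing.isUnit_one_sub_self_of_mem_nonunits
      rw [mem_nonunits_iff, IsUnit.neg_iff]
      exact h1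
    obtain ⟨v, hv⟩ := h2.exists_right_inv
    rw [sub_neg_eq_add] at hv
    exact ⟨v, hv⟩
  obtain ⟨x, hxdef⟩ : ∃ x : ℕ → ℚ_[p], ∀ m, x m = ((xco (m • P) : ℚ) : ℚ_[p]) := ⟨_, fun _ => rfl⟩
  have hx1 : x 1 * φ u = 1 := by
    rw [hxdef, hφ, hu, one_nsmul]
    exact mul_inv_cancel₀ hx0
  have hint : ∀ z : ℤ, φ ((z : ℤ) : ℤ_[p]) = (((z : ℤ) : ℚ) : ℚ_[p]) := by
    intro z; rw [map_intCast]; simp
  have hseq := bg_seq φ (W.b₂ : ℤ_[p]) (W.b₄ : ℤ_[p]) (W.b₆ : ℤ_[p]) (W.b₈ : ℤ_[p]) u hunit x (l - 1)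
    hx1 (by
      have h := bg_double P hP0 (hmul0 2 (by norm_num) (by omega))
      rw [eb2, eb4, eb6, eb8] at h
      simp only [hint, hxdef, one_nsmul]
      exact_mod_cast congrArg (fun t : ℚ => (t : ℚ_[p])) h) (by
      intro m hm2 hml
      have h := (bg_mult P m (by omega) hP0 (hmul0 m (by omega) (by omega)) (by
          intro h0
          apply hmul0 (m - 1) (by omega) (by omega)
          have h1 : m • P = (m - 1) • P + P := by
            rw [← succ_nsmul, Nat.sub_add_cancel (by omega)]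
          rw [h1] at h0
          simpa using h0) (by
          intro h0
          apply hmul0 (m + 1) (by omega) (by omega)
          rw [succ_nsmul, h0]; simp)).1
      rw [eb2, eb4, eb6] at h
      simp only [hint, hxdef, one_nsmul]
      exact_mod_cast congrArg (fun t : ℚ => (t : ℚ_[p])) h) (by
      intro m hm2 hml
      have h := (bg_mult P m (by omega) hP0 (hmul0 m (by omega) (by omega)) (by
          intro h0
          apply hmul0 (m - 1) (by omega) (by omega)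
          have h1 : m • P = (m - 1) • P + P := by
            rw [← succ_nsmul, Nat.sub_add_cancel (by omega)]
          rw [h1] at h0
          simpa using h0) (by
          intro h0
          apply hmul0 (m + 1) (by omega) (by omega)
          rw [succ_nsmul, h0]; simp)).2
      rw [eb4, eb6, eb8] at h
      simp only [hint, hxdef, one_nsmul]
      exact_mod_cast congrArg (fun t : ℚ => (t : ℚ_[p])) h)
  have hφinj : ∀ a b : ℤ_[p], φ a = φ b → a = b := by
    intro a b hab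
    rw [hφ, hφ] at hab
    exact Subtype.ext hab
  -- the multiples `l - 1` and `l - 2`
  have hxl1 : x (l - 1) = x 1 := by
    rw [hxdef, hxdef, one_nsmul]
    have h1 : (l - 1) • P = -P := by
      have h2 : l • P = (l - 1) • P + P := by rw [← succ_nsmul, Nat.sub_add_cancel (by omega)]
      rw [hlP] at h2
      exact eq_neg_of_add_eq_zero_left h2.symm
    rw [h1, xco_neg]
  have hxl2 : x (l - 2) = x 2 := by
    rw [hxdef, hxdef]
    have h1 : (l - 2) • P = -(2 • P) := by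
      have h2 : l • P = (l - 2) • P + 2 • P := by rw [← add_nsmul, Nat.sub_add_cancel (by omega)]
      rw [hlP] at h2
      exact eq_neg_of_add_eq_zero_left h2.symm
    rw [h1, xco_neg]
  obtain ⟨c1, r1, f1, g1⟩ := hseq (l - 1) (by omega) le_rfl
  obtain ⟨c2, r2, f2, g2⟩ := hseq (l - 2) (by omega) (by omega)
  obtain ⟨c3, r3, f3, g3⟩ := hseq 2 (by omega) (by omega)
  have k1 : c1 = 1 := by
    apply hφinj
    rw [hxl1, hx1, one_mul] at f1
    rw [f1, map_one]
  have k2 : c2 = c3 := by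
    apply hφinj
    rw [hxl2] at f2
    have hne : x 2 * φ u ≠ 0 := by
      intro h0
      rw [h0, zero_mul] at f3
      exact zero_ne_one f3
    exact mul_left_cancel₀ hne (f2.trans f3.symm)
  have hl1 : ((l - 1 : ℕ) : ℤ_[p]) = (l : ℤ_[p]) - 1 := by
    rw [Nat.cast_sub (by omega), Nat.cast_one]
  have hl2 : ((l - 2 : ℕ) : ℤ_[p]) = (l : ℤ_[p]) - 2 := by
    rw [Nat.cast_sub (by omega)]; simp
  obtain ⟨k, hk⟩ : ∃ k : ℕ, l = 2 * k + 1 := by
    rcases hl.eq_two_or_odd' with h | h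
    · omega
    · obtain ⟨k, hk⟩ := h; exact ⟨k, hk⟩
  have hkl : (l : ℤ_[p]) = 2 * (k : ℤ_[p]) + 1 := by
    rw [hk]; push_cast; ring
  rw [hl1] at g1
  rw [hl2] at g2
  push_cast at g3
  rw [k1] at g1
  rw [k2] at g2
  have key : ∃ r : ℤ_[p], (l : ℤ_[p]) = u * r := by
    refine ⟨(k : ℤ_[p]) * (r2 - r3 - r1) + r1, ?_⟩
    have e1 : (l : ℤ_[p]) * (l - 2) = -(u * r1) := by linear_combination -g1
    have e2 : (l : ℤ_[p]) * (l - 4) = u * (r3 - r2) := by linear_combination g3 - g2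
    have e3 : 2 * (l : ℤ_[p]) = -(u * r1) - u * (r3 - r2) := by linear_combination e1 - e2
    have e4 : (l : ℤ_[p]) * (l - 2) = (k : ℤ_[p]) * (2 * l) - l := by
      linear_combination (l : ℤ_[p]) * hkl
    linear_combination (k : ℤ_[p]) * e3 - e1 + e4
  obtain ⟨r, hr⟩ := key
  have hfin : ((l : ℕ) : ℚ_[p]) * ((xco P : ℚ) : ℚ_[p]) = (r : ℚ_[p]) := by
    have h1 := congrArg φ hr
    rw [map_mul, map_natCast] at h1
    rw [h1, ← hφ r]
    have h2 : x 1 = ((xco P : ℚ) : ℚ_[p]) := by rw [hxdef, one_nsmul]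
    rw [← h2]
    linear_combination φ r * hx1
  rw [← norm_mul, hfin]
  exact PadicInt.norm_le_one r

end Pool.Agent.Lib.Szpiro
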