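import Pool.Agent.Lib.MP_d8bd92_nt.BgD

set_option autoImplicit false

/-!
Integral coordinates, and the points which are not singular modulo a prime.
-/

namespace Pool.Agent.Lib.Szpiro

open WeierstrassCurve WeierstrassCurve.Affine

theorem quad_int (q : ℚ) (b c : ℤ) (h : q ^ 2 + b * q + c = 0) : ∃ n : ℤ, q = n := by
  have hint : _root_.IsIntegral ℤ q := by
    refine ⟨Polynomial.X ^ 2 + Polynomial.C b * Polynomial.X + Polynomial.C c, ?_, ?_⟩
    · monicity!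
    · simp only [Polynomial.eval₂_add, Polynomial.eval₂_mul, Polynomial.eval₂_pow,
        Polynomial.eval₂_X, Polynomial.eval₂_C]
      simp only [eq_intCast]
      exact h
  obtain ⟨e, he⟩ := IsIntegrallyClosed.isIntegral_iff.mp hint
  exact ⟨e, by simpa using he.symm⟩

/-- the equation of the curve over the integers -/
def CurveEq (W : WeierstrassCurve ℤ) (x y : ℤ) : Prop :=
  y ^ 2 + W.a₁ * x * y + W.a₃ * y = x ^ 3 + W.a₂ * x ^ 2 + W.a₄ * x + W.a₆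

theorem curveEq_of (W : WeierstrassCurve ℤ) (x y : ℤ)
    (h : (W.baseChange ℚ).toAffine.Nonsingular (x : ℚ) (y : ℚ)) : CurveEq W x y := by
  have h0 := h.1
  rw [equation_iff] at h0
  simp only [WeierstrassCurve.baseChange, WeierstrassCurve.map_a₁, WeierstrassCurve.map_a₂,
    WeierstrassCurve.map_a₃, WeierstrassCurve.map_a₄, WeierstrassCurve.map_a₆,
    algebraMap_int_eq, eq_intCast] at h0
  unfold CurveEq
  exact_mod_cast h0

/-- an ordinate over an integral abscissa is integral -/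
theorem y_int (W : WeierstrassCurve ℤ) (x : ℤ) (y : ℚ)
    (h : (W.baseChange ℚ).toAffine.Nonsingular (x : ℚ) y) : ∃ n : ℤ, y = n := by
  have h0 := h.1
  rw [equation_iff] at h0
  simp only [WeierstrassCurve.baseChange, WeierstrassCurve.map_a₁, WeierstrassCurve.map_a₂,
    WeierstrassCurve.map_a₃, WeierstrassCurve.map_a₄, WeierstrassCurve.map_a₆,
    algebraMap_int_eq, eq_intCast] at h0
  apply quad_int y (W.a₁ * x + W.a₃) (-(x ^ 3 + W.a₂ * x ^ 2 + W.a₄ * x + W.a₆))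
  push_cast
  linear_combination h0

/-- the abscissa of a point of prime order `l ≥ 5` is an integer -/
theorem bg_xint (W : WeierstrassCurve ℤ) (P : (W.baseChange ℚ).toAffine.Point) (l : ℕ)
    (hl : l.Prime) (h5 : 5 ≤ l) (hP : addOrderOf P = l) : ∃ n : ℤ, xco P = n := by
  obtain ⟨n, hn⟩ := rat_int_of_padic ((l : ℚ) * xco P)
    (fun p hp => bg_padic W P l hl h5 hP p)
  have hl0 : (l : ℚ) ≠ 0 := by exact_mod_cast hl.ne_zero
  rcases P with _ | ⟨x, y, h⟩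
  · refine ⟨0, ?_⟩
    simp [xco]
  simp only [xco_some] at hn ⊢
  have h0 := h.1
  rw [equation_iff] at h0
  simp only [WeierstrassCurve.baseChange, WeierstrassCurve.map_a₁, WeierstrassCurve.map_a₂,
    WeierstrassCurve.map_a₃, WeierstrassCurve.map_a₄, WeierstrassCurve.map_a₆,
    algebraMap_int_eq, eq_intCast] at h0
  have hz : ((l : ℚ) ^ 2 * (2 * y + W.a₁ * x + W.a₃)) ^ 2 =
      (((l : ℤ) * (4 * n ^ 3 + (l : ℤ) * (W.b₂ * n ^ 2 + 2 * W.b₄ * l * n + W.b₆ * l ^ 2)) : ℤ) : ℚ) := by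
    push_cast
    rw [← hn]
    simp only [WeierstrassCurve.b₂, WeierstrassCurve.b₄, WeierstrassCurve.b₆]
    push_cast
    linear_combination 4 * (l : ℚ) ^ 4 * h0
  obtain ⟨t, ht⟩ := quad_int ((l : ℚ) ^ 2 * (2 * y + W.a₁ * x + W.a₃)) 0
    (-((l : ℤ) * (4 * n ^ 3 + (l : ℤ) * (W.b₂ * n ^ 2 + 2 * W.b₄ * l * n + W.b₆ * l ^ 2)))) (by
      rw [hz]; push_cast; ring)
  rw [ht] at hz
  have hz' : t ^ 2 = (l : ℤ) * (4 * n ^ 3 + (l : ℤ) * (W.b₂ * n ^ 2 + 2 * W.b₄ * l * n + W.b₆ * l ^ 2)) := by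
    exact_mod_cast hz
  have hlp : Prime (l : ℤ) := Nat.prime_iff_prime_int.mp hl
  have h1 : (l : ℤ) ∣ t := hlp.dvd_of_dvd_pow (n := 2) ⟨_, hz'⟩
  obtain ⟨s, hs⟩ := h1
  have hl0' : (l : ℤ) ≠ 0 := hlp.ne_zero
  have h2 : (l : ℤ) ∣ 4 * n ^ 3 := by
    have h3 : (l : ℤ) * ((l : ℤ) * s ^ 2) = (l : ℤ) * (4 * n ^ 3 + (l : ℤ) * (W.b₂ * n ^ 2 + 2 * W.b₄ * l * n + W.b₆ * l ^ 2)) := by
      rw [← hz', hs]; ring
    have h4 := mul_left_cancel₀ hl0' h3
    refine ⟨s ^ 2 - (W.b₂ * n ^ 2 + 2 * W.b₄ * l * n + W.b₆ * l ^ 2), ?_⟩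
    linear_combination -h4
  have h3 : (l : ℤ) ∣ n := by
    rcases hlp.dvd_or_dvd h2 with h | h
    · have : (l : ℤ) ≤ 4 := Int.le_of_dvd (by norm_num) h
      omega
    · exact hlp.dvd_of_dvd_pow h
  obtain ⟨m, hm⟩ := h3
  refine ⟨m, ?_⟩
  rw [hm] at hn
  push_cast at hn
  exact mul_left_cancel₀ hl0 hn

/-- the point is integral and not singular modulo `p` -/
def Sm (W : WeierstrassCurve ℤ) (p : ℤ) (Q : (W.baseChange ℚ).toAffine.Point) : Prop :=
  ∃ x y : ℤ, ∃ h, Q = Point.some (x : ℚ) (y : ℚ) h ∧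
    ¬ (p ∣ 2 * y + W.a₁ * x + W.a₃ ∧ p ∣ 3 * x ^ 2 + 2 * W.a₂ * x + W.a₄ - W.a₁ * y)

/-- the points which are not singular modulo `p` are closed under addition -/
theorem Sm.add {W : WeierstrassCurve ℤ} {p : ℤ} (hp : Prime p)
    {Q R : (W.baseChange ℚ).toAffine.Point} (hQ : Sm W p Q) (hR : Sm W p R) (h0 : Q + R ≠ 0)
    (hx : ∃ n : ℤ, xco (Q + R) = n) : Sm W p (Q + R) := by
  obtain ⟨x1, y1, h1, e1, n1⟩ := hQ
  obtain ⟨x2, y2, h2, e2, n2⟩ := hR
  obtain ⟨x3, hx3⟩ := hx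
  have E1 := curveEq_of W x1 y1 h1
  have E2 := curveEq_of W x2 y2 h2
  unfold CurveEq at E1 E2
  have ea1 : (W.baseChange ℚ).toAffine.a₁ = (W.a₁ : ℚ) := by simp [WeierstrassCurve.baseChange]
  have ea2 : (W.baseChange ℚ).toAffine.a₂ = (W.a₂ : ℚ) := by simp [WeierstrassCurve.baseChange]
  have ea3 : (W.baseChange ℚ).toAffine.a₃ = (W.a₃ : ℚ) := by simp [WeierstrassCurve.baseChange]
  have ea4 : (W.baseChange ℚ).toAffine.a₄ = (W.a₄ : ℚ) := by simp [WeierstrassCurve.baseChange]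
  -- the common end: a slope `l` in `ℤ`
  have finish : ∀ (l : ℤ) (h : (W.baseChange ℚ).toAffine.Nonsingular (x3 : ℚ)
      ((-(l * (x3 - x1) + y1) - W.a₁ * x3 - W.a₃ : ℤ) : ℚ)),
      Q + R = Point.some _ _ h →
      l * (x2 - x1) = y2 - y1 →
      (3 * x3 ^ 2 + 2 * W.a₂ * x3 + W.a₄ - W.a₁ * (l * (x3 - x1) + y1))
        - l * (2 * (l * (x3 - x1) + y1) + W.a₁ * x3 + W.a₃) = (x3 - x1) * (x3 - x2) →
      Sm W p (Q + R) := by
    intro l h e hl hder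
    refine ⟨x3, _, h, e, ?_⟩
    rintro ⟨d1, d2⟩
    obtain ⟨y', hy'⟩ : ∃ y' : ℤ, y' = l * (x3 - x1) + y1 := ⟨_, rfl⟩
    rw [← hy'] at d1 d2 hder
    have d3 : p ∣ 2 * y' + W.a₁ * x3 + W.a₃ := by
      have : 2 * y' + W.a₁ * x3 + W.a₃ = -(2 * (-y' - W.a₁ * x3 - W.a₃) + W.a₁ * x3 + W.a₃) := by
        ring
      rw [this]
      exact d1.neg_right
    have d4 : p ∣ 3 * x3 ^ 2 + 2 * W.a₂ * x3 + W.a₄ - W.a₁ * y' := by
      have : 3 * x3 ^ 2 + 2 * W.a₂ * x3 + W.a₄ - W.a₁ * y' =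
          (3 * x3 ^ 2 + 2 * W.a₂ * x3 + W.a₄ - W.a₁ * (-y' - W.a₁ * x3 - W.a₃))
          - W.a₁ * (2 * y' + W.a₁ * x3 + W.a₃) := by ring
      rw [this]
      exact dvd_sub d2 (Dvd.dvd.mul_left d3 _)
    have d5 : p ∣ (x3 - x1) * (x3 - x2) := by
      rw [← hder]
      exact dvd_sub d4 (Dvd.dvd.mul_left d3 _)
    rcases hp.dvd_or_dvd d5 with ⟨t, ht⟩ | ⟨t, ht⟩
    · apply n1
      have hxx : x3 = x1 + p * t := by linarith
      have hyy : y' = y1 + p * (l * t) := by rw [hy', ht]; ring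
      rw [hxx, hyy] at d3 d4
      constructor
      · have : 2 * y1 + W.a₁ * x1 + W.a₃ =
            (2 * (y1 + p * (l * t)) + W.a₁ * (x1 + p * t) + W.a₃) - p * (2 * (l * t) + W.a₁ * t) := by
          ring
        rw [this]
        exact dvd_sub d3 (dvd_mul_right _ _)
      · have : 3 * x1 ^ 2 + 2 * W.a₂ * x1 + W.a₄ - W.a₁ * y1 =
            (3 * (x1 + p * t) ^ 2 + 2 * W.a₂ * (x1 + p * t) + W.a₄ - W.a₁ * (y1 + p * (l * t)))
            - p * (6 * x1 * t + 3 * p * t ^ 2 + 2 * W.a₂ * t - W.a₁ * (l * t)) := by ring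
        rw [this]
        exact dvd_sub d4 (dvd_mul_right _ _)
    · apply n2
      have hxx : x3 = x2 + p * t := by linarith
      have hyy : y' = y2 + p * (l * t) := by rw [hy']; linear_combination l * ht + hl
      rw [hxx, hyy] at d3 d4
      constructor
      · have : 2 * y2 + W.a₁ * x2 + W.a₃ =
            (2 * (y2 + p * (l * t)) + W.a₁ * (x2 + p * t) + W.a₃) - p * (2 * (l * t) + W.a₁ * t) := by
          ring
        rw [this]
        exact dvd_sub d3 (dvd_mul_right _ _)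
      · have : 3 * x2 ^ 2 + 2 * W.a₂ * x2 + W.a₄ - W.a₁ * y2 =
            (3 * (x2 + p * t) ^ 2 + 2 * W.a₂ * (x2 + p * t) + W.a₄ - W.a₁ * (y2 + p * (l * t)))
            - p * (6 * x2 * t + 3 * p * t ^ 2 + 2 * W.a₂ * t - W.a₁ * (l * t)) := by ring
        rw [this]
        exact dvd_sub d4 (dvd_mul_right _ _)
  by_cases hxx : x1 = x2
  · -- tangent
    subst hxx
    have hQR : Q = R := by
      rcases (Point.X_eq_iff (h₁ := h1) (h₂ := h2)).mp rfl with h | h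
      · rw [e1, e2, h]
      · exact absurd (by rw [e1, e2, h]; simp) h0
    subst hQR
    have hyy : y1 = y2 := by
      rw [e1] at e2
      have := (Point.some.injEq ..).mp e2
      exact_mod_cast this.2
    subst hyy
    have hden : 2 * (y1 : ℚ) + (W.baseChange ℚ).toAffine.a₁ * x1 + (W.baseChange ℚ).toAffine.a₃ ≠ 0 := by
      intro h00
      apply h0
      rw [e1]
      apply Point.add_self_of_Y_eq
      rw [negY]
      linear_combination h00
    obtain ⟨l, hl⟩ : ∃ l : ℚ, l * (2 * (y1 : ℚ) + (W.baseChange ℚ).toAffine.a₁ * x1 + (W.baseChange ℚ).toAffine.a₃)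
      = 3 * (x1 : ℚ) ^ 2 + 2 * (W.baseChange ℚ).toAffine.a₂ * x1 + (W.baseChange ℚ).toAffine.a₄
        - (W.baseChange ℚ).toAffine.a₁ * y1 := ⟨_, div_mul_cancel₀ _ hden⟩
    obtain ⟨h3, e3⟩ := add_tangent h1 hden hl
    rw [← e1] at e3
    rw [e3, xco_some] at hx3
    rw [ea1, ea2] at hx3
    rw [ea1, ea2, ea3, ea4] at hl
    obtain ⟨l', hl'⟩ := quad_int l W.a₁ (-(W.a₂ + 2 * x1 + x3)) (by push_cast; linear_combination hx3)
    subst hl'
    have hx3' : l' ^ 2 + W.a₁ * l' - W.a₂ - x1 - x1 = x3 := by exact_mod_cast hx3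
    have hl2 : l' * (2 * y1 + W.a₁ * x1 + W.a₃) = 3 * x1 ^ 2 + 2 * W.a₂ * x1 + W.a₄ - W.a₁ * y1 := by
      exact_mod_cast hl
    obtain ⟨h4, e4⟩ := point_congr (x' := (x3 : ℚ))
      (y' := ((-(l' * (x3 - x1) + y1) - W.a₁ * x3 - W.a₃ : ℤ) : ℚ)) h3 (by rw [ea1, ea2]; exact hx3)
      (by rw [ea1, ea2, ea3, hx3]; push_cast; ring)
    refine finish l' h4 (e3.trans e4) (by ring) ?_
    rw [← hx3']
    linear_combination -hl2
  · -- chord
    have hxq : (x1 : ℚ) ≠ (x2 : ℚ) := by exact_mod_cast hxx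
    obtain ⟨l, hl⟩ : ∃ l : ℚ, l * ((x1 : ℚ) - x2) = (y1 : ℚ) - y2 :=
      ⟨_, div_mul_cancel₀ _ (sub_ne_zero.mpr hxq)⟩
    obtain ⟨h3, e3⟩ := add_chord h1 h2 hxq hl
    rw [← e1, ← e2] at e3
    rw [e3, xco_some] at hx3
    rw [ea1, ea2] at hx3
    obtain ⟨l', hl'⟩ := quad_int l W.a₁ (-(W.a₂ + x1 + x2 + x3)) (by push_cast; linear_combination hx3)
    subst hl'
    have hx3' : l' ^ 2 + W.a₁ * l' - W.a₂ - x1 - x2 = x3 := by exact_mod_cast hx3
    have hl2 : l' * (x1 - x2) = y1 - y2 := by exact_mod_cast hl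
    obtain ⟨h4, e4⟩ := point_congr (x' := (x3 : ℚ))
      (y' := ((-(l' * (x3 - x1) + y1) - W.a₁ * x3 - W.a₃ : ℤ) : ℚ)) h3 (by rw [ea1, ea2]; exact hx3)
      (by rw [ea1, ea2, ea3, hx3]; push_cast; ring)
    refine finish l' h4 (e3.trans e4) (by linear_combination -hl2) ?_
    have hy1 : y1 = y2 + l' * (x1 - x2) := by linarith
    apply mul_left_cancel₀ (sub_ne_zero.mpr hxx)
    rw [← hx3']
    rw [hy1] at E1 ⊢
    linear_combination E2 - E1

end Pool.Agent.Lib.Szpiro
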