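import Pool.Agent.Lib.MP_d8bd92_nt.BgE

set_option autoImplicit false

/-!
The multiples of a point of prime order which is singular modulo `p`.
-/

namespace Pool.Agent.Lib.Szpiro

open WeierstrassCurve WeierstrassCurve.Affine

/-- the singular point modulo `p` is unique -/
theorem sing_unique (W : WeierstrassCurve ℤ) (p x y x' y' : ℤ) (hp : Prime p)
    (E : CurveEq W x y) (E' : CurveEq W x' y')
    (h1 : p ∣ 2 * y + W.a₁ * x + W.a₃) (h2 : p ∣ 3 * x ^ 2 + 2 * W.a₂ * x + W.a₄ - W.a₁ * y)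
    (h1' : p ∣ 2 * y' + W.a₁ * x' + W.a₃)
    (h2' : p ∣ 3 * x' ^ 2 + 2 * W.a₂ * x' + W.a₄ - W.a₁ * y') : p ∣ x' - x := by
  unfold CurveEq at E E'
  have h : (x' - x) ^ 3 = (x' - x) * ((3 * x ^ 2 + 2 * W.a₂ * x + W.a₄ - W.a₁ * y) +
      (3 * x' ^ 2 + 2 * W.a₂ * x' + W.a₄ - W.a₁ * y')) - (y' - y) * ((2 * y + W.a₁ * x + W.a₃) +
      (2 * y' + W.a₁ * x' + W.a₃)) := by
    linear_combination 2 * E' - 2 * E
  apply hp.dvd_of_dvd_pow (n := 3)
  rw [h]
  exact dvd_sub (Dvd.dvd.mul_left (dvd_add h2 h2') _) (Dvd.dvd.mul_left (dvd_add h1 h1') _)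

/-- if a multiple of a point `P` of prime order is not singular modulo `p` then `P` is not -/
theorem sm_of_multiple (W : WeierstrassCurve ℤ) (P : (W.baseChange ℚ).toAffine.Point) (l : ℕ)
    (hl : l.Prime) (h5 : 5 ≤ l) (hP : addOrderOf P = l) (p : ℤ) (hp : Prime p) (k : ℕ)
    (hk1 : 1 ≤ k) (hkl : k < l) (h : Sm W p (k • P)) : Sm W p P := by
  have hfact : Fact l.Prime := ⟨hl⟩
  have hlP : l • P = 0 := by rw [← hP]; exact addOrderOf_nsmul_eq_zero P
  have hP0 : P ≠ 0 := by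
    intro h0
    rw [h0, addOrderOf_zero] at hP
    omega
  have hord : ∀ m : ℕ, m • P ≠ 0 → ∃ n : ℤ, xco (m • P) = n := by
    intro m hm
    apply bg_xint W (m • P) l hl h5
    apply addOrderOf_eq_prime _ hm
    rw [← mul_nsmul', mul_comm, mul_nsmul', hlP, nsmul_zero]
  have hk0 : k • P ≠ 0 := by
    intro h0
    have := addOrderOf_le_of_nsmul_eq_zero hk1 h0
    omega
  have hall : ∀ n : ℕ, n • (k • P) = 0 ∨ Sm W p (n • (k • P)) := by
    intro n
    induction n with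
    | zero => left; simp
    | succ n ih =>
      rcases ih with h0 | h0
      · right
        rw [succ_nsmul, h0, zero_add]
        exact h
      · by_cases hz : (n + 1) • (k • P) = 0
        · left; exact hz
        · right
          rw [succ_nsmul] at hz ⊢
          apply Sm.add hp h0 h hz
          rw [← succ_nsmul, ← mul_nsmul'] at hz ⊢
          exact hord _ hz
  have hcop : Nat.Coprime k l := (Nat.coprime_of_lt_prime (by omega) hkl hl).symm
  obtain ⟨j, hj⟩ : ∃ j : ℕ, j * k % l = 1 := by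
    obtain ⟨j, _, hj⟩ := Nat.exists_mul_mod_eq_one_of_coprime hcop (by omega)
    exact ⟨j, by rw [mul_comm]; exact hj⟩
  have hjP : j • (k • P) = P := by
    rw [← mul_nsmul', ← Nat.div_add_mod (j * k) l, hj, add_nsmul, one_nsmul]
    have : (l * (j * k / l)) • P = 0 := by rw [mul_comm, mul_nsmul', hlP, nsmul_zero]
    rw [this, zero_add]
  rcases hall j with h0 | h0
  · rw [hjP] at h0; exact absurd h0 hP0
  · rw [hjP] at h0; exact h0

/-- all multiples have the same abscissa modulo `p` as a singular point `P` -/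
theorem sing_multiples (W : WeierstrassCurve ℤ) (x y : ℤ)
    (h : (W.baseChange ℚ).toAffine.Nonsingular (x : ℚ) (y : ℚ)) (l : ℕ)
    (hl : l.Prime) (h5 : 5 ≤ l) (hP : addOrderOf (Point.some (x : ℚ) (y : ℚ) h) = l)
    (p : ℤ) (hp : Prime p)
    (h1 : p ∣ 2 * y + W.a₁ * x + W.a₃) (h2 : p ∣ 3 * x ^ 2 + 2 * W.a₂ * x + W.a₄ - W.a₁ * y)
    (k : ℕ) (hk1 : 1 ≤ k) (hkl : k < l) (xk : ℤ) (hxk : xco (k • Point.some (x : ℚ) (y : ℚ) h) = xk) :
    p ∣ xk - x := by
  have hfact : Fact l.Prime := ⟨hl⟩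
  have hk0 : k • Point.some (x : ℚ) (y : ℚ) h ≠ 0 := by
    intro h0
    have := addOrderOf_le_of_nsmul_eq_zero hk1 h0
    omega
  have hns : ¬ Sm W p (k • Point.some (x : ℚ) (y : ℚ) h) := by
    intro h0
    obtain ⟨x', y', h', e, n⟩ := sm_of_multiple W _ l hl h5 hP p hp k hk1 hkl h0
    apply n
    have e' := (Point.some.injEq ..).mp e
    have ex : x = x' := by exact_mod_cast e'.1
    have ey : y = y' := by exact_mod_cast e'.2
    rw [← ex, ← ey]
    exact ⟨h1, h2⟩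
  generalize k • Point.some (x : ℚ) (y : ℚ) h = Q at *
  rcases Q with _ | ⟨u, v, h3⟩
  · exact absurd rfl hk0
  rw [xco_some] at hxk
  subst hxk
  obtain ⟨v', hv'⟩ := y_int W xk v h3
  subst hv'
  have h4 : p ∣ 2 * v' + W.a₁ * xk + W.a₃ ∧ p ∣ 3 * xk ^ 2 + 2 * W.a₂ * xk + W.a₄ - W.a₁ * v' := by
    by_contra h5
    exact hns ⟨xk, v', h3, rfl, h5⟩
  exact sing_unique W p x y xk v' hp (curveEq_of W x y h) (curveEq_of W xk v' h3) h1 h2 h4.1 h4.2

end Pool.Agent.Lib.Szpiro
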