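import Pool.Agent.Lib.MP_d8bd92_nt.BgF

set_option autoImplicit false

/-!
Integral parameters of a curve with a rational point of prime order at least eleven.
-/

namespace Pool.Agent.Lib.Szpiro

open WeierstrassCurve WeierstrassCurve.Affine

theorem bg_param (W : WeierstrassCurve ℤ) (P : (W.baseChange ℚ).toAffine.Point) (l : ℕ)
    (hl : l.Prime) (h11 : 11 ≤ l) (hP : addOrderOf P = l) :
    ∃ (x y lam d g f h : ℤ) (hns : (W.baseChange ℚ).toAffine.Nonsingular (x : ℚ) (y : ℚ)),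
      P = Point.some (x : ℚ) (y : ℚ) hns ∧ d ≠ 0 ∧ g ≠ 0 ∧ f ≠ 0 ∧ d + f ≠ 0 ∧
      h * (d + f) = g * f ∧ W.a₁ + 2 * lam = d - g ∧
      W.a₂ - lam * W.a₁ + 3 * x - lam ^ 2 = g * f ∧ 2 * y + W.a₁ * x + W.a₃ = d * (g * f) ∧
      lam * (2 * y + W.a₁ * x + W.a₃) = 3 * x ^ 2 + 2 * W.a₂ * x + W.a₄ - W.a₁ * y ∧
      xco (2 • P) = ((x - g * f : ℤ) : ℚ) ∧ xco (3 • P) = ((x + d * g : ℤ) : ℚ) ∧
      xco (4 • P) = ((x + (d + f) * f : ℤ) : ℚ) ∧
      xco (5 • P) = ((x + h * (h - g - d) : ℤ) : ℚ) := by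
  have hfact : Fact l.Prime := ⟨hl⟩
  have hlP : l • P = 0 := by rw [← hP]; exact addOrderOf_nsmul_eq_zero P
  have hne : ∀ m : ℕ, 1 ≤ m → m < l → m • P ≠ 0 := by
    intro m hm hml h0
    have := addOrderOf_le_of_nsmul_eq_zero hm h0
    omega
  have hord : ∀ m : ℕ, 1 ≤ m → m < l → ∃ n : ℤ, xco (m • P) = n := by
    intro m hm hml
    apply bg_xint W (m • P) l hl (by omega)
    apply addOrderOf_eq_prime _ (hne m hm hml)
    rw [← mul_nsmul', mul_comm, mul_nsmul', hlP, nsmul_zero]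
  have ea1 : (W.baseChange ℚ).toAffine.a₁ = (W.a₁ : ℚ) := by simp [WeierstrassCurve.baseChange]
  have ea2 : (W.baseChange ℚ).toAffine.a₂ = (W.a₂ : ℚ) := by simp [WeierstrassCurve.baseChange]
  have ea3 : (W.baseChange ℚ).toAffine.a₃ = (W.a₃ : ℚ) := by simp [WeierstrassCurve.baseChange]
  have ea4 : (W.baseChange ℚ).toAffine.a₄ = (W.a₄ : ℚ) := by simp [WeierstrassCurve.baseChange]
  obtain ⟨n1, hn1⟩ := hord 1 le_rfl (by omega)
  obtain ⟨n2, hn2⟩ := hord 2 (by norm_num) (by omega)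
  obtain ⟨n3, hn3⟩ := hord 3 (by norm_num) (by omega)
  obtain ⟨n4, hn4⟩ := hord 4 (by norm_num) (by omega)
  obtain ⟨n5, hn5⟩ := hord 5 (by norm_num) (by omega)
  have h1 : P ≠ 0 := by simpa using hne 1 (by norm_num) (by omega)
  have h2 : P + P ≠ 0 := by simpa [succ_nsmul] using hne 2 (by norm_num) (by omega)
  have h3 : P + P + P ≠ 0 := by simpa [succ_nsmul] using hne 3 (by norm_num) (by omega)
  have h4 : P + P + P + P ≠ 0 := by simpa [succ_nsmul] using hne 4 (by norm_num) (by omega)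
  have h5 : P + P + P + P + P ≠ 0 := by simpa [succ_nsmul] using hne 5 (by norm_num) (by omega)
  rcases P with _ | ⟨x, y, h⟩
  · exact absurd rfl h1
  rw [one_nsmul, xco_some] at hn1
  subst hn1
  obtain ⟨y', hy'⟩ := y_int W n1 y h
  subst hy'
  have s2 : 2 • Point.some (n1 : ℚ) (y' : ℚ) h =
      Point.some (n1 : ℚ) (y' : ℚ) h + Point.some (n1 : ℚ) (y' : ℚ) h := two_nsmul _
  have s3 : 3 • Point.some (n1 : ℚ) (y' : ℚ) h =
      Point.some (n1 : ℚ) (y' : ℚ) h + Point.some (n1 : ℚ) (y' : ℚ) h +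
        Point.some (n1 : ℚ) (y' : ℚ) h := by rw [succ_nsmul, s2]
  obtain ⟨lam, A1, A2, U, D, ⟨h2', e2⟩, ⟨h3', e3⟩⟩ := exists_multiples h h2 h3
  obtain ⟨hA2, hU, ha1, ha3, ha2, htan⟩ := D
  rw [s2, e2, xco_some] at hn2
  rw [s3, e3, xco_some] at hn3
  -- 3P and P have different abscissas
  have hmu : U - A1 ≠ 0 := by
    intro h0
    have hx : (n1 : ℚ) + U * (U - A1) = n1 := by rw [h0]; ring
    rcases (Point.X_eq_iff (h₁ := h3') (h₂ := h)).mp hx with hh | hh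
    · rw [← e3] at hh
      apply h2
      have : Point.some (n1 : ℚ) (y' : ℚ) h + Point.some (n1 : ℚ) (y' : ℚ) h +
          Point.some (n1 : ℚ) (y' : ℚ) h - Point.some (n1 : ℚ) (y' : ℚ) h = 0 := by
        rw [hh, sub_self]
      simpa using this
    · rw [← e3] at hh
      apply h4
      rw [hh]; simp
  obtain ⟨k, hk⟩ : ∃ k, A2 = k * (U - A1) := ⟨_, (div_mul_cancel₀ _ hmu).symm⟩
  have hne3 : (n1 : ℚ) + U * (U - A1) ≠ n1 := by
    intro h0
    have : U * (U - A1) = 0 := by linear_combination h0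
    rcases mul_eq_zero.mp this with h | h
    · exact hU h
    · exact hmu h
  obtain ⟨h4', e4⟩ := add_chord (l := lam - U - k) h3' h hne3 (by rw [hk]; ring)
  have s4 : 4 • Point.some (n1 : ℚ) (y' : ℚ) h = 3 • Point.some (n1 : ℚ) (y' : ℚ) h +
      Point.some (n1 : ℚ) (y' : ℚ) h := succ_nsmul _ 3
  have s5 : 5 • Point.some (n1 : ℚ) (y' : ℚ) h = 3 • Point.some (n1 : ℚ) (y' : ℚ) h +
      2 • Point.some (n1 : ℚ) (y' : ℚ) h := by rw [← add_nsmul]
  rw [s4, s3, e3, e4, xco_some] at hn4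
  -- 3P and 2P have different abscissas
  have hs : U + k ≠ 0 := by
    intro h0
    have hx : (n1 : ℚ) + U * (U - A1) = n1 - A2 := by
      rw [hk]; linear_combination (U - A1) * h0
    rcases (Point.X_eq_iff (h₁ := h3') (h₂ := h2')).mp hx with hh | hh
    · rw [← e3, ← e2] at hh
      apply h1
      have : Point.some (n1 : ℚ) (y' : ℚ) h + Point.some (n1 : ℚ) (y' : ℚ) h +
          Point.some (n1 : ℚ) (y' : ℚ) h - (Point.some (n1 : ℚ) (y' : ℚ) h +
          Point.some (n1 : ℚ) (y' : ℚ) h) = 0 := by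
        rw [hh, sub_self]
      simpa using this
    · rw [← e3, ← e2] at hh
      apply h5
      have : Point.some (n1 : ℚ) (y' : ℚ) h + Point.some (n1 : ℚ) (y' : ℚ) h +
          Point.some (n1 : ℚ) (y' : ℚ) h + (Point.some (n1 : ℚ) (y' : ℚ) h +
          Point.some (n1 : ℚ) (y' : ℚ) h) = 0 := by
        rw [hh, neg_add_cancel]
      rw [← this]; abel
  obtain ⟨r, hr⟩ : ∃ r, r * (U + k) = (U - A1) * k := ⟨_, div_mul_cancel₀ _ hs⟩
  have hne32 : (n1 : ℚ) + U * (U - A1) ≠ n1 - A2 := by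
    intro h0
    have : (U - A1) * (U + k) = 0 := by rw [hk] at h0; linear_combination h0
    rcases mul_eq_zero.mp this with h | h
    · exact hmu h
    · exact hs h
  obtain ⟨h5', e5⟩ := add_chord (l := lam - U + r) h3' h2' hne32 (by
    rw [hk]; linear_combination (U - A1) * hr)
  rw [s5, s3, s2, e3, e2, e5, xco_some] at hn5
  -- integrality
  rw [ea1] at ha1
  rw [ea1, ea3] at ha3
  rw [ea1, ea2] at ha2
  rw [ea1, ea2, ea3, ea4] at htan
  rw [ea1, ea2] at hn4 hn5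
  obtain ⟨lam', hlam'⟩ := quad_int lam W.a₁ (n1 - n2 - W.a₂ - 3 * n1) (by
    push_cast
    linear_combination ha2 + hn2)
  subst hlam'
  obtain ⟨A2', hA2'⟩ : ∃ z : ℤ, A2 = z := ⟨n1 - n2, by push_cast; linear_combination -hn2⟩
  subst hA2'
  obtain ⟨A1', hA1'⟩ : ∃ z : ℤ, A1 = z := ⟨W.a₁ + 2 * lam', by push_cast; exact ha1⟩
  subst hA1'
  obtain ⟨U', hU'⟩ := quad_int U (-A1') (n1 - n3) (by push_cast; linear_combination hn3)
  subst hU'
  obtain ⟨k1, hk1⟩ := quad_int ((lam' : ℚ) - U' - k) W.a₁ (-(W.a₂ + n3 + n1 + n4)) (by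
    push_cast
    linear_combination hn4 + hn3)
  obtain ⟨k', hk'⟩ : ∃ z : ℤ, k = z := ⟨lam' - U' - k1, by push_cast; linear_combination -hk1⟩
  subst hk'
  obtain ⟨r1, hr1⟩ := quad_int ((lam' : ℚ) - U' + r) W.a₁ (-(W.a₂ + n3 + n2 + n5)) (by
    push_cast
    linear_combination hn5 + hn3 + hn2)
  obtain ⟨r', hr'⟩ : ∃ z : ℤ, r = z := ⟨r1 - lam' + U', by push_cast; linear_combination hr1⟩
  subst hr'
  refine ⟨n1, y', lam', U', U' - A1', k', r', h, rfl, ?_, ?_, ?_, ?_, ?_, ?_, ?_, ?_, ?_, ?_, ?_, ?_, ?_⟩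
  · exact_mod_cast hU
  · exact_mod_cast hmu
  · intro h0
    apply hA2
    rw [hk, h0]; simp
  · exact_mod_cast hs
  · exact_mod_cast hr
  · have : (A1' : ℤ) = W.a₁ + 2 * lam' := by exact_mod_cast ha1
    rw [this]; ring
  · have e1 : (A2' : ℤ) = W.a₂ - lam' * W.a₁ + 3 * n1 - lam' ^ 2 := by exact_mod_cast ha2
    have e2 : (A2' : ℤ) = k' * (U' - A1') := by exact_mod_cast hk
    rw [← e1, e2]; ring
  · have e1 : 2 * y' + W.a₁ * n1 + W.a₃ = U' * A2' := by exact_mod_cast ha3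
    have e2 : (A2' : ℤ) = k' * (U' - A1') := by exact_mod_cast hk
    rw [e1, e2]; ring
  · exact_mod_cast htan
  · rw [s2, e2, xco_some, hk]; push_cast; ring
  · rw [s3, e3, xco_some]; push_cast; ring
  · rw [s4, s3, e3, e4, xco_some, ea1, ea2]
    push_cast
    rw [hk] at ha2
    linear_combination ha2 + ((U' : ℚ) + k') * ha1
  · rw [s5, s3, s2, e3, e2, e5, xco_some, ea1, ea2]
    push_cast
    rw [hk] at ha2 ⊢
    linear_combination ha2 + ((U' : ℚ) - r') * ha1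

end Pool.Agent.Lib.Szpiro
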