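import Pool.Agent.Lib.MP_d8bd92_nt.BgG

set_option autoImplicit false

/-!
The parameters of a semistable curve with a rational point of prime order at least eleven.
-/

namespace Pool.Agent.Lib.Szpiro

open WeierstrassCurve WeierstrassCurve.Affine

/-- `c₄` of the family `y² + (d - g) x y + d g f y = x³ + g f x²` -/
def bgC4 (d g f : ℤ) : ℤ := ((d - g) ^ 2 + 4 * (g * f)) ^ 2 - 24 * ((d - g) * (d * (g * f)))

/-- `c₆` of the family `y² + (d - g) x y + d g f y = x³ + g f x²` -/
def bgC6 (d g f : ℤ) : ℤ := -((d - g) ^ 2 + 4 * (g * f)) ^ 3 +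
  36 * ((d - g) ^ 2 + 4 * (g * f)) * ((d - g) * (d * (g * f))) - 216 * (d * (g * f)) ^ 2

theorem bg_invariants (W : WeierstrassCurve ℤ) (x y lam d g f : ℤ) (E : CurveEq W x y)
    (h1 : W.a₁ + 2 * lam = d - g) (h2 : W.a₂ - lam * W.a₁ + 3 * x - lam ^ 2 = g * f)
    (h3 : 2 * y + W.a₁ * x + W.a₃ = d * (g * f))
    (h4 : lam * (2 * y + W.a₁ * x + W.a₃) = 3 * x ^ 2 + 2 * W.a₂ * x + W.a₄ - W.a₁ * y) :
    W.c₄ = bgC4 d g f ∧ W.c₆ = bgC6 d g f ∧ (d * (g * f)) ^ 2 ∣ W.Δ := by
  unfold CurveEq at E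
  let C : VariableChange ℤ := ⟨1, x, lam, y⟩
  have g1 : (C • W).a₁ = d - g := by
    rw [variableChange_a₁]; simp only [C, inv_one, Units.val_one, one_mul, h1]
  have g2 : (C • W).a₂ = g * f := by
    rw [variableChange_a₂]; simp only [C, inv_one, Units.val_one, one_pow, one_mul]
    linear_combination h2
  have g3 : (C • W).a₃ = d * (g * f) := by
    rw [variableChange_a₃]; simp only [C, inv_one, Units.val_one, one_pow, one_mul]
    linear_combination h3
  have g4 : (C • W).a₄ = 0 := by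
    rw [variableChange_a₄]; simp only [C, inv_one, Units.val_one, one_pow, one_mul]
    linear_combination -h4
  have g6 : (C • W).a₆ = 0 := by
    rw [variableChange_a₆]; simp only [C, inv_one, Units.val_one, one_pow, one_mul]
    linear_combination -E
  have hc : (C • W).c₄ = W.c₄ := by
    rw [variableChange_c₄]; simp only [C, inv_one, Units.val_one, one_pow, one_mul]
  have hc6 : (C • W).c₆ = W.c₆ := by
    rw [variableChange_c₆]; simp only [C, inv_one, Units.val_one, one_pow, one_mul]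
  have hD : (C • W).Δ = W.Δ := by
    rw [variableChange_Δ]; simp only [C, inv_one, Units.val_one, one_pow, one_mul]
  refine ⟨?_, ?_, ?_⟩
  · rw [← hc]
    simp only [WeierstrassCurve.c₄, WeierstrassCurve.b₂, WeierstrassCurve.b₄, g1, g2, g3, g4,
      bgC4]
    ring
  · rw [← hc6]
    simp only [WeierstrassCurve.c₆, WeierstrassCurve.b₂, WeierstrassCurve.b₄,
      WeierstrassCurve.b₆, g1, g2, g3, g4, g6, bgC6]
    ring
  · rw [← hD]
    simp only [WeierstrassCurve.Δ, WeierstrassCurve.b₂, WeierstrassCurve.b₄,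
      WeierstrassCurve.b₆, WeierstrassCurve.b₈, g1, g2, g3, g4, g6]
    refine ⟨-((d - g) ^ 2 + 4 * (g * f)) ^ 2 * (g * f) - 8 * (d - g) ^ 3 * (d * (g * f))
      - 27 * (d * (g * f)) ^ 2 + 9 * ((d - g) ^ 2 + 4 * (g * f)) * (d - g) * (d * (g * f)), ?_⟩
    ring

/-- every bad prime at which `P` is singular divides `d' f' (d' + f')` -/
theorem bg_arith (p d g f h t d' f' : ℤ) (hp : Prime p) (ht : t ≠ 0) (hd : d = t * d')
    (hf : f = t * f') (hh : h * (d + f) = g * f) (h1 : p ∣ g * f) (h3 : p ∣ (d + f) * f)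
    (h4 : p ∣ h * (h - g - d)) (h5 : ¬ p ∣ d - g) : p ∣ d' * f' * (d' + f') := by
  by_contra hcon
  have n1 : ¬ p ∣ d' := fun h => hcon (Dvd.dvd.mul_right (Dvd.dvd.mul_right h _) _)
  have n2 : ¬ p ∣ f' := fun h => hcon (Dvd.dvd.mul_right (Dvd.dvd.mul_left h _) _)
  have n3 : ¬ p ∣ d' + f' := fun h => hcon (Dvd.dvd.mul_left h _)
  by_cases hg : p ∣ g
  · have n4 : ¬ p ∣ t := by
      intro h
      apply h5
      rw [hd]
      exact dvd_sub (Dvd.dvd.mul_right h _) hg
    have h6 : (d + f) * f = t * (d' + f') * (t * f') := by rw [hd, hf]; ring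
    rw [h6] at h3
    rcases hp.dvd_or_dvd h3 with h | h
    · rcases hp.dvd_or_dvd h with h | h
      · exact n4 h
      · exact n3 h
    · rcases hp.dvd_or_dvd h with h | h
      · exact n4 h
      · exact n2 h
  · have n4 : p ∣ t := by
      rcases hp.dvd_or_dvd h1 with h | h
      · exact absurd h hg
      · rw [hf] at h
        rcases hp.dvd_or_dvd h with h | h
        · exact h
        · exact absurd h n2
    have n5 : p ∣ d := by rw [hd]; exact Dvd.dvd.mul_right n4 _
    have h6 : h * (d' + f') = g * f' := by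
      apply mul_left_cancel₀ ht
      rw [hd, hf] at hh
      linear_combination hh
    have n6 : ¬ p ∣ h := by
      intro h7
      have h8 : p ∣ g * f' := by rw [← h6]; exact Dvd.dvd.mul_right h7 _
      rcases hp.dvd_or_dvd h8 with h9 | h9
      · exact hg h9
      · exact n2 h9
    have h7 : p ∣ h - g - d := (hp.dvd_or_dvd h4).resolve_left n6
    have h8 : p ∣ h - g := by
      have : h - g = (h - g - d) + d := by ring
      rw [this]
      exact dvd_add h7 n5
    have h9 : p ∣ g * d' := by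
      have : g * d' = -((d' + f') * (h - g)) := by linear_combination h6
      rw [this]
      exact (Dvd.dvd.mul_left h8 _).neg_right
    rcases hp.dvd_or_dvd h9 with h | h
    · exact hg h
    · exact n1 h

/-- the parameters of a semistable curve with a rational point of prime order at least eleven -/
theorem bg_data (W : WeierstrassCurve ℤ) (hc : IsCoprime W.c₄ W.Δ)
    (P : (W.baseChange ℚ).toAffine.Point) (l : ℕ) (hl : l.Prime) (h11 : 11 ≤ l)
    (hP : addOrderOf P = l) :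
    ∃ t d' f' g : ℤ, W.c₄ = bgC4 (t * d') g (t * f') ∧ W.c₆ = bgC6 (t * d') g (t * f') ∧
      t ∣ W.Δ ∧ g ∣ W.Δ ∧ d' ∣ W.Δ ∧ f' ∣ W.Δ ∧ (d' + f') ∣ W.Δ ∧ IsCoprime d' f' ∧
      ∀ p : ℤ, Prime p → p ∣ t * g → p ∣ d' * f' * (d' + f') := by
  obtain ⟨x, y, lam, d, g, f, h, hns, e, hd0, hg0, hf0, hs0, hh, k1, k2, k3, k4, x2, x3, x4, x5⟩ :=
    bg_param W P l hl h11 hP
  have E := curveEq_of W x y hns
  obtain ⟨i1, i2, i3⟩ := bg_invariants W x y lam d g f E k1 k2 k3 k4
  obtain ⟨t, d', f', hcop, hd, hf⟩ : ∃ t d' f' : ℤ, IsCoprime d' f' ∧ d = t * d' ∧ f = t * f' := by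
    obtain ⟨d', f', hcop, h1, h2⟩ := Int.exists_gcd_one (m := d) (n := f) (Int.gcd_pos_of_ne_zero_left _ hd0)
    exact ⟨Int.gcd d f, d', f', Int.isCoprime_iff_gcd_eq_one.mpr hcop, by rw [mul_comm]; exact h1,
      by rw [mul_comm]; exact h2⟩
  have ht0 : t ≠ 0 := by
    intro h0
    rw [h0, zero_mul] at hd
    exact hd0 hd
  have hdgf : d * (g * f) ∣ W.Δ := dvd_trans (dvd_pow_self _ (by norm_num)) i3
  have hdΔ : d ∣ W.Δ := dvd_trans (dvd_mul_right _ _) hdgf
  have hgfΔ : g * f ∣ W.Δ := dvd_trans (dvd_mul_left _ _) hdgf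
  have hgΔ : g ∣ W.Δ := dvd_trans (dvd_mul_right _ _) hgfΔ
  have hfΔ : f ∣ W.Δ := dvd_trans (dvd_mul_left _ _) hgfΔ
  have hsΔ : d + f ∣ W.Δ := dvd_trans ⟨h, by rw [← hh]; ring⟩ hgfΔ
  have hs' : d + f = t * (d' + f') := by rw [hd, hf]; ring
  refine ⟨t, d', f', g, ?_, ?_, ?_, hgΔ, ?_, ?_, ?_, hcop, ?_⟩
  · rw [← hd, ← hf]; exact i1
  · rw [← hd, ← hf]; exact i2
  · exact dvd_trans ⟨d', hd⟩ hdΔ
  · exact dvd_trans ⟨t, by rw [hd]; ring⟩ hdΔ
  · exact dvd_trans ⟨t, by rw [hf]; ring⟩ hfΔ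
  · exact dvd_trans ⟨t, by rw [hs']; ring⟩ hsΔ
  · intro p hp hpt
    have hpd : p ∣ d * (g * f) := by
      rcases hp.dvd_or_dvd hpt with h | h
      · rw [hd]
        exact Dvd.dvd.mul_right (Dvd.dvd.mul_right h _) _
      · exact Dvd.dvd.mul_left (Dvd.dvd.mul_right h _) _
    have q1 : p ∣ 2 * y + W.a₁ * x + W.a₃ := by rw [k3]; exact hpd
    have q2 : p ∣ 3 * x ^ 2 + 2 * W.a₂ * x + W.a₄ - W.a₁ * y := by
      rw [← k4]; exact Dvd.dvd.mul_left q1 _
    rw [e] at hP x2 x3 x4 x5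
    have r2 := sing_multiples W x y hns l hl (by omega) hP p hp q1 q2 2 (by norm_num) (by omega) _ x2
    have r4 := sing_multiples W x y hns l hl (by omega) hP p hp q1 q2 4 (by norm_num) (by omega) _ x4
    have r5 := sing_multiples W x y hns l hl (by omega) hP p hp q1 q2 5 (by norm_num) (by omega) _ x5
    have s2 : p ∣ g * f := by
      have : g * f = -((x - g * f) - x) := by ring
      rw [this]; exact r2.neg_right
    have s4 : p ∣ (d + f) * f := by
      have : (d + f) * f = (x + (d + f) * f) - x := by ring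
      rw [this]; exact r4
    have s5 : p ∣ h * (h - g - d) := by
      have : h * (h - g - d) = (x + h * (h - g - d)) - x := by ring
      rw [this]; exact r5
    apply bg_arith p d g f h t d' f' hp ht0 hd hf hh s2 s4 s5
    intro hdg
    have hc4 : p ∣ W.c₄ := by
      rw [i1]
      unfold bgC4
      apply dvd_sub
      · apply dvd_pow _ (by norm_num)
        exact dvd_add (dvd_pow hdg (by norm_num)) (Dvd.dvd.mul_left s2 _)
      · exact Dvd.dvd.mul_left (Dvd.dvd.mul_left hpd _) _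
    exact hp.not_isUnit (hc.isUnit_of_dvd' hc4 (dvd_trans hpd hdgf))

end Pool.Agent.Lib.Szpiro
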