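import Pool.Agent.Lib.MP_d8bd92_nt.SqDefs

set_option autoImplicit false

/-!
Counting integers with small partial radical.

PROOF of card_nrad_le. Every n in [1,Z] is n = n0 n' with n0 composed of primes dividing M and n' prime to M, n0,
n' <= Z, rd n' = nrad M n <= r. The number of n' is <= C Z^σ r (`card_rd_le`). The number of n0 <= Z composed of
primes dividing M: rd n0 = e is a divisor of M (e | M since e squarefree), e <= M <= Z; for given e the number of n0 <= Z with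
rd n0 = e is at most C Z^σ (from `sum_inv_rd`: sum over a <= Z of 1/rd a <= C Z^σ, so number of a with
rd a = e is <= C Z^σ e: not good enough; instead use the count of n0 <= Z with all primes dividing e: with
n0 ↦ the exponents: Rankin: number <= sum over n0 | e^infinity of (Z/n0)^σ = Z^σ prod over p | e (1-p^(-σ))⁻¹ <= C Z^(2σ)).
So the number of n0 is at most Z^σ prod over p | M (1-p^(-σ))⁻¹ <= C_σ Z^(2σ), since (1-p^(-σ))⁻¹ <= 2 for p > p0(σ)
and 2^omega(M) <= C M^σ.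
PROOF of sum_nrad_le. Same decomposition: sum n0^(-1/3) <= number of n0 <= C Z^(2σ); and
sum over n' of n'^(-1/3) <= sum over n' of (rd n')^(-1/3) = sum (rd n')^(2/3) (rd n')⁻¹ <= r^(2/3) sum 1/rd n' <= r^(2/3) C Z^σ
(`sum_inv_rd`).
(Rename σ to σ/4 at the start.)
-/

namespace Pool.Agent.Lib.SqPart

open Finset Pool.Agent.Lib.Szpiro Pool.Agent.Lib.MP_d8bd92_nt

/-- the numbers up to `Z` composed of primes dividing `M` -/
noncomputable def e1A (Z M : ℕ) : Finset ℕ :=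
  (Icc 1 Z).filter (fun a => a.primeFactors ⊆ M.primeFactors)

theorem e1_omega (σ : ℝ) (hσ : 0 < σ) (B : ℝ) (hB : 1 ≤ B) : ∃ C : ℝ, 1 ≤ C ∧ ∀ M : ℕ, M ≠ 0 →
    B ^ M.primeFactors.card ≤ C * (M : ℝ) ^ σ := by
  obtain ⟨k, hk⟩ := pow_unbounded_of_one_lt B (show (1 : ℝ) < 2 by norm_num)
  obtain ⟨C, hC, hdiv⟩ := card_divisors_le_rpow (σ / (k + 1)) (by positivity)
  refine ⟨C ^ (k + 1), one_le_pow₀ hC, fun M hM => ?_⟩
  have hM1 : (1 : ℝ) ≤ M := by exact_mod_cast Nat.one_le_iff_ne_zero.mpr hM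
  have h1 : B ≤ 2 ^ (k + 1) := by
    have h2 : (2 : ℝ) ^ k ≤ 2 ^ (k + 1) := pow_le_pow_right₀ (by norm_num) (by omega)
    linarith
  have h2 : (2 : ℝ) ^ M.primeFactors.card ≤ (M.divisors.card : ℝ) := by
    rw [Nat.card_divisors hM]
    push_cast
    rw [← Finset.prod_const]
    refine Finset.prod_le_prod (fun _ _ => by norm_num) fun p hp => ?_
    have h3 : 1 ≤ M.factorization p :=
      (Nat.mem_primeFactors.mp hp).1.factorization_pos_of_dvd hM (Nat.mem_primeFactors.mp hp).2.1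
    have h4 : (1 : ℝ) ≤ (M.factorization p : ℝ) := by exact_mod_cast h3
    linarith
  calc B ^ M.primeFactors.card ≤ (2 ^ (k + 1)) ^ M.primeFactors.card :=
        pow_le_pow_left₀ (by linarith) h1 _
    _ = ((2 : ℝ) ^ M.primeFactors.card) ^ (k + 1) := by
        rw [← pow_mul, ← pow_mul, mul_comm]
    _ ≤ (M.divisors.card : ℝ) ^ (k + 1) := pow_le_pow_left₀ (by positivity) h2 _
    _ ≤ (C * (M : ℝ) ^ (σ / (k + 1))) ^ (k + 1) :=
        pow_le_pow_left₀ (Nat.cast_nonneg _) (hdiv M hM) _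
    _ = C ^ (k + 1) * (M : ℝ) ^ σ := by
        rw [mul_pow, ← Real.rpow_natCast ((M : ℝ) ^ (σ / (k + 1))) (k + 1),
          ← Real.rpow_mul (by linarith)]
        congr 2
        push_cast
        field_simp

/-- the number of integers up to `Z` composed of primes dividing `M` -/
theorem e1_card_A (σ : ℝ) (hσ : 0 < σ) : ∃ C : ℝ, 1 ≤ C ∧ ∀ Z M : ℕ, 1 ≤ M → M ≤ Z →
    ((e1A Z M).card : ℝ) ≤ C * (Z : ℝ) ^ (2 * σ) := by
  set κ : ℝ := 1 - (2 : ℝ) ^ (-σ) with hκ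
  have hlt : (2 : ℝ) ^ (-σ) < 1 := Real.rpow_lt_one_of_one_lt_of_neg (by norm_num) (by linarith)
  have hgt : (0 : ℝ) < (2 : ℝ) ^ (-σ) := by positivity
  have hκ0 : 0 < κ := by linarith
  have hκ1 : κ ≤ 1 := by linarith
  obtain ⟨C, hC, hω⟩ := e1_omega σ hσ κ⁻¹ ((one_le_inv₀ hκ0).mpr hκ1)
  refine ⟨C, hC, fun Z M hM hMZ => ?_⟩
  have hZ1 : (1 : ℝ) ≤ Z := by exact_mod_cast hM.trans hMZ
  set f : ℕ →* ℝ :=
    { toFun := fun n => (n : ℝ) ^ (-σ)
      map_one' := by simp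
      map_mul' := fun m n => by
        push_cast
        exact Real.mul_rpow (Nat.cast_nonneg _) (Nat.cast_nonneg _) } with hf
  have hfn : ∀ n : ℕ, f n = (n : ℝ) ^ (-σ) := fun n => rfl
  have hlt1 : ∀ {p : ℕ}, p.Prime → ‖f p‖ < 1 := by
    intro p hp
    rw [hfn, Real.norm_of_nonneg (by positivity)]
    exact Real.rpow_lt_one_of_one_lt_of_neg (by exact_mod_cast hp.one_lt) (by linarith)
  obtain ⟨_, hsum⟩ := EulerProduct.summable_and_hasSum_factoredNumbers_prod_filter_prime_geometric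
    hlt1 M.primeFactors
  have hmem : ∀ a ∈ e1A Z M, a ∈ Nat.factoredNumbers M.primeFactors := by
    intro a ha
    rw [e1A, mem_filter, mem_Icc] at ha
    exact Nat.mem_factoredNumbers_of_primeFactors_subset (by omega) ha.2
  have h1 : ∑ a ∈ e1A Z M, f a ≤ ∏ p ∈ M.primeFactors with p.Prime, (1 - f p)⁻¹ := by
    set g : ↥(e1A Z M) → ↥(Nat.factoredNumbers M.primeFactors) := fun a => ⟨a.1, hmem a.1 a.2⟩
      with hg
    have hginj : Function.Injective g := by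
      intro a b hab
      have := congrArg (fun x => x.1) hab
      exact Subtype.ext this
    have h2 : ∑ a ∈ e1A Z M, f a = ∑ a ∈ (e1A Z M).attach.map ⟨g, hginj⟩, f a := by
      rw [Finset.sum_map, ← Finset.sum_attach (e1A Z M)]
      rfl
    rw [h2]
    refine sum_le_hasSum _ (fun a _ => ?_) hsum
    rw [hfn]
    positivity
  have h3 : ∏ p ∈ M.primeFactors with p.Prime, (1 - f p)⁻¹ ≤ κ⁻¹ ^ M.primeFactors.card := by
    have h4 : (M.primeFactors.filter fun p => p.Prime) = M.primeFactors :=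
      Finset.filter_true_of_mem fun p hp => (Nat.mem_primeFactors.mp hp).1
    rw [h4, ← Finset.prod_const]
    refine Finset.prod_le_prod (fun p hp => ?_) fun p hp => ?_
    · have h5 := hlt1 (Nat.mem_primeFactors.mp hp).1
      rw [hfn, Real.norm_of_nonneg (by positivity)] at h5
      rw [hfn]
      exact inv_nonneg.mpr (by linarith)
    · apply inv_anti₀ hκ0
      rw [hκ, hfn]
      have hp2 : (2 : ℝ) ≤ (p : ℝ) := by exact_mod_cast (Nat.mem_primeFactors.mp hp).1.two_le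
      have h5 : (p : ℝ) ^ (-σ) ≤ (2 : ℝ) ^ (-σ) :=
        Real.rpow_le_rpow_of_nonpos (by norm_num) hp2 (by linarith)
      linarith
  have h6 : ∀ a ∈ e1A Z M, (Z : ℝ) ^ (-σ) ≤ f a := by
    intro a ha
    rw [e1A, mem_filter, mem_Icc] at ha
    rw [hfn]
    exact Real.rpow_le_rpow_of_nonpos (by exact_mod_cast ha.1.1) (by exact_mod_cast ha.1.2)
      (by linarith)
  have h7 : ((e1A Z M).card : ℝ) * (Z : ℝ) ^ (-σ) ≤ C * (M : ℝ) ^ σ := by
    calc ((e1A Z M).card : ℝ) * (Z : ℝ) ^ (-σ) = ∑ _a ∈ e1A Z M, (Z : ℝ) ^ (-σ) := by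
          rw [Finset.sum_const, nsmul_eq_mul]
      _ ≤ ∑ a ∈ e1A Z M, f a := Finset.sum_le_sum h6
      _ ≤ C * (M : ℝ) ^ σ := h1.trans (h3.trans (hω M (by omega)))
  have h8 : (M : ℝ) ^ σ ≤ (Z : ℝ) ^ σ :=
    Real.rpow_le_rpow (Nat.cast_nonneg _) (by exact_mod_cast hMZ) hσ.le
  have h9 : (Z : ℝ) ^ (-σ) * (Z : ℝ) ^ σ = 1 := by
    rw [← Real.rpow_add (by linarith)]
    simp
  have h10 : (0 : ℝ) < (Z : ℝ) ^ σ := by positivity
  calc ((e1A Z M).card : ℝ) = ((e1A Z M).card : ℝ) * (Z : ℝ) ^ (-σ) * (Z : ℝ) ^ σ := by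
        rw [mul_assoc, h9, mul_one]
    _ ≤ (C * (Z : ℝ) ^ σ) * (Z : ℝ) ^ σ := by
        refine mul_le_mul_of_nonneg_right (h7.trans ?_) h10.le
        exact mul_le_mul_of_nonneg_left h8 (by linarith)
    _ = C * (Z : ℝ) ^ (2 * σ) := by
        rw [mul_assoc, ← Real.rpow_add (by linarith)]
        congr 2
        ring

/-- the decomposition of `n` -/
theorem e1_split (M n : ℕ) (hM : M ≠ 0) (hn : n ≠ 0) : ∃ a m : ℕ, a ≠ 0 ∧ m ≠ 0 ∧ a * m = n ∧
    a.primeFactors ⊆ M.primeFactors ∧ rd m = nrad M n := by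
  classical
  set f₁ := n.factorization.filter (fun p => p ∣ M) with hf₁
  set f₂ := n.factorization.filter (fun p => ¬ p ∣ M) with hf₂
  have hp₁ : ∀ p ∈ f₁.support, p.Prime := by
    intro p hp
    rw [hf₁, Finsupp.support_filter, mem_filter] at hp
    exact Nat.prime_of_mem_primeFactors hp.1
  have hp₂ : ∀ p ∈ f₂.support, p.Prime := by
    intro p hp
    rw [hf₂, Finsupp.support_filter, mem_filter] at hp
    exact Nat.prime_of_mem_primeFactors hp.1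
  have h₁ := Nat.prod_pow_factorization_eq_self hp₁
  have h₂ := Nat.prod_pow_factorization_eq_self hp₂
  have hne : ∀ f : ℕ →₀ ℕ, (∀ p ∈ f.support, p.Prime) → f.prod (fun x1 x2 => x1 ^ x2) ≠ 0 := by
    intro f hf
    rw [Finsupp.prod, Finset.prod_ne_zero_iff]
    exact fun p hp => pow_ne_zero _ (hf p hp).ne_zero
  refine ⟨f₁.prod fun x1 x2 => x1 ^ x2, f₂.prod fun x1 x2 => x1 ^ x2, hne f₁ hp₁, hne f₂ hp₂,
    ?_, ?_, ?_⟩
  · rw [← Finsupp.prod_add_index' (fun a => pow_zero a) (fun a b c => pow_add a b c), hf₁, hf₂,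
      Finsupp.filter_add_filter_not]
    exact Nat.prod_factorization_pow_eq_self hn
  · rw [← Nat.support_factorization, h₁, hf₁, Finsupp.support_filter]
    intro p hp
    rw [mem_filter] at hp
    exact Nat.mem_primeFactors.mpr ⟨Nat.prime_of_mem_primeFactors hp.1, hp.2, hM⟩
  · unfold rd nrad
    rw [← Nat.support_factorization, h₂, hf₂, Finsupp.support_filter, Nat.support_factorization]

/-- sums over the `n` with small partial radical -/
theorem e1_sum (Z M : ℕ) (r : ℝ) (hM : 1 ≤ M) (w : ℕ → ℝ) (hw : ∀ n, 0 ≤ w n)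
    (hw1 : ∀ a m : ℕ, a ≠ 0 → w (a * m) ≤ w m) :
    ∑ n ∈ (Icc 1 Z).filter (fun n => (nrad M n : ℝ) ≤ r), w n ≤
      ((e1A Z M).card : ℝ) * ∑ m ∈ (Icc 1 Z).filter (fun m => (rd m : ℝ) ≤ r), w m := by
  classical
  have hch : ∀ n : ℕ, ∃ am : ℕ × ℕ, n ≠ 0 → am.1 ≠ 0 ∧ am.2 ≠ 0 ∧ am.1 * am.2 = n ∧
      am.1.primeFactors ⊆ M.primeFactors ∧ rd am.2 = nrad M n := by
    intro n
    by_cases hn : n = 0
    · exact ⟨(0, 0), fun h => absurd hn h⟩
    · obtain ⟨a, m, h⟩ := e1_split M n (by omega) hn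
      exact ⟨(a, m), fun _ => h⟩
  choose s hs using hch
  have h1 : ∀ n ∈ (Icc 1 Z).filter (fun n => (nrad M n : ℝ) ≤ r),
      s n ∈ e1A Z M ×ˢ (Icc 1 Z).filter (fun m => (rd m : ℝ) ≤ r) := by
    intro n hn
    rw [mem_filter, mem_Icc] at hn
    obtain ⟨ha, hm, ham, hsub, hrd⟩ := hs n (by omega)
    have ha1 := Nat.one_le_iff_ne_zero.mpr ha
    have hm1 := Nat.one_le_iff_ne_zero.mpr hm
    have hle1 : (s n).1 ≤ n :=
      (Nat.le_mul_of_pos_right _ hm1).trans (le_of_eq ham)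
    have hle2 : (s n).2 ≤ n :=
      (Nat.le_mul_of_pos_left _ ha1).trans (le_of_eq ham)
    rw [mem_product, e1A, mem_filter, mem_filter, mem_Icc, mem_Icc]
    refine ⟨⟨⟨ha1, by omega⟩, hsub⟩, ⟨hm1, by omega⟩, ?_⟩
    rw [hrd]
    exact hn.2
  have hinj : Set.InjOn s ((Icc 1 Z).filter (fun n => (nrad M n : ℝ) ≤ r) : Finset ℕ) := by
    intro n hn n' hn' h
    rw [mem_coe, mem_filter, mem_Icc] at hn hn'
    rw [← (hs n (by omega)).2.2.1, ← (hs n' (by omega)).2.2.1, h]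
  calc ∑ n ∈ (Icc 1 Z).filter (fun n => (nrad M n : ℝ) ≤ r), w n ≤
        ∑ n ∈ (Icc 1 Z).filter (fun n => (nrad M n : ℝ) ≤ r), w (s n).2 := by
        refine Finset.sum_le_sum fun n hn => ?_
        rw [mem_filter, mem_Icc] at hn
        obtain ⟨ha, _, ham, _, _⟩ := hs n (by omega)
        conv_lhs => rw [← ham]
        exact hw1 _ _ ha
    _ = ∑ x ∈ ((Icc 1 Z).filter (fun n => (nrad M n : ℝ) ≤ r)).image s, w x.2 :=
        (Finset.sum_image (f := fun x : ℕ × ℕ => w x.2) hinj).symm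
    _ ≤ ∑ x ∈ e1A Z M ×ˢ (Icc 1 Z).filter (fun m => (rd m : ℝ) ≤ r), w x.2 := by
        refine Finset.sum_le_sum_of_subset_of_nonneg ?_ (fun x _ _ => hw _)
        intro x hx
        obtain ⟨n, hn, rfl⟩ := mem_image.mp hx
        exact h1 n hn
    _ = _ := by
        rw [Finset.sum_product]
        simp only []
        rw [Finset.sum_const, nsmul_eq_mul]

theorem card_nrad_le (σ : ℝ) (hσ : 0 < σ) : ∃ C : ℝ, 1 ≤ C ∧ ∀ (Z M : ℕ) (r : ℝ), 1 ≤ M → M ≤ Z →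
    0 ≤ r → (((Icc 1 Z).filter (fun n => (nrad M n : ℝ) ≤ r)).card : ℝ) ≤
      C * (Z : ℝ) ^ σ * r := by
  obtain ⟨C₁, hC₁, h₁⟩ := e1_card_A (σ / 4) (by linarith)
  obtain ⟨C₂, hC₂, h₂⟩ := card_rd_le (σ / 2) (by linarith)
  refine ⟨C₁ * C₂, one_le_mul_of_one_le_of_one_le hC₁ hC₂, fun Z M r hM hMZ hr => ?_⟩
  have hZ : 1 ≤ Z := hM.trans hMZ
  have hZ1 : (1 : ℝ) ≤ Z := by exact_mod_cast hZ
  have h3 := e1_sum Z M r hM (fun _ => 1) (fun _ => zero_le_one) (fun _ _ _ => le_rfl)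
  simp only [Finset.sum_const, nsmul_eq_mul, mul_one] at h3
  have h4 : (0 : ℝ) ≤ C₁ * (Z : ℝ) ^ (2 * (σ / 4)) := by positivity
  calc (((Icc 1 Z).filter (fun n => (nrad M n : ℝ) ≤ r)).card : ℝ) ≤ _ := h3
    _ ≤ (C₁ * (Z : ℝ) ^ (2 * (σ / 4))) * (C₂ * (Z : ℝ) ^ (σ / 2) * r) :=
        mul_le_mul (h₁ Z M hM hMZ) (h₂ Z r hZ hr) (Nat.cast_nonneg _) h4
    _ = C₁ * C₂ * ((Z : ℝ) ^ (2 * (σ / 4)) * (Z : ℝ) ^ (σ / 2)) * r := by ring
    _ = C₁ * C₂ * (Z : ℝ) ^ σ * r := by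
        rw [← Real.rpow_add (by linarith)]
        congr 3
        ring

theorem sum_nrad_le (σ : ℝ) (hσ : 0 < σ) : ∃ C : ℝ, 1 ≤ C ∧ ∀ (Z M : ℕ) (r : ℝ), 1 ≤ M → M ≤ Z →
    1 ≤ r → ∑ n ∈ (Icc 1 Z).filter (fun n => (nrad M n : ℝ) ≤ r), (n : ℝ) ^ (-(1 / 3) : ℝ) ≤
      C * (Z : ℝ) ^ σ * r ^ (2 / 3 : ℝ) := by
  obtain ⟨C₁, hC₁, h₁⟩ := e1_card_A (σ / 4) (by linarith)
  obtain ⟨C₂, hC₂, h₂⟩ := sum_inv_rd (σ / 2) (by linarith)
  refine ⟨C₁ * C₂, one_le_mul_of_one_le_of_one_le hC₁ hC₂, fun Z M r hM hMZ hr => ?_⟩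
  have hZ : 1 ≤ Z := hM.trans hMZ
  have hZ1 : (1 : ℝ) ≤ Z := by exact_mod_cast hZ
  have hr0 : (0 : ℝ) < r := by linarith
  have h3 := e1_sum Z M r hM (fun n => (n : ℝ) ^ (-(1 / 3) : ℝ)) (fun n => by positivity)
    (fun a m ha => by
      rcases Nat.eq_zero_or_pos m with hm | hm
      · subst hm
        simp
      · refine Real.rpow_le_rpow_of_nonpos (by exact_mod_cast hm) ?_ (by norm_num)
        exact_mod_cast Nat.le_mul_of_pos_left _ (Nat.pos_of_ne_zero ha))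
  have h5 : ∑ m ∈ (Icc 1 Z).filter (fun m => (rd m : ℝ) ≤ r), (m : ℝ) ^ (-(1 / 3) : ℝ) ≤
      r ^ (2 / 3 : ℝ) * (C₂ * (Z : ℝ) ^ (σ / 2)) := by
    calc ∑ m ∈ (Icc 1 Z).filter (fun m => (rd m : ℝ) ≤ r), (m : ℝ) ^ (-(1 / 3) : ℝ) ≤
          ∑ m ∈ (Icc 1 Z).filter (fun m => (rd m : ℝ) ≤ r), r ^ (2 / 3 : ℝ) * ((rd m : ℝ))⁻¹ := by
          refine Finset.sum_le_sum fun m hm => ?_
          rw [mem_filter, mem_Icc] at hm
          have hrd1 : 1 ≤ rd m := by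
            unfold rd
            exact Finset.prod_pos fun p hp => (Nat.prime_of_mem_primeFactors hp).pos
          have hrd0 : (0 : ℝ) < rd m := by exact_mod_cast hrd1
          have hrdm : (rd m : ℝ) ≤ m := by
            have : rd m ∣ m := Nat.prod_primeFactors_dvd m
            exact_mod_cast Nat.le_of_dvd (by omega) this
          calc (m : ℝ) ^ (-(1 / 3) : ℝ) ≤ (rd m : ℝ) ^ (-(1 / 3) : ℝ) :=
                Real.rpow_le_rpow_of_nonpos hrd0 hrdm (by norm_num)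
            _ = (rd m : ℝ) ^ (2 / 3 : ℝ) * ((rd m : ℝ))⁻¹ := by
                rw [← Real.rpow_neg_one, ← Real.rpow_add hrd0]
                norm_num
            _ ≤ r ^ (2 / 3 : ℝ) * ((rd m : ℝ))⁻¹ := by
                refine mul_le_mul_of_nonneg_right ?_ (by positivity)
                exact Real.rpow_le_rpow hrd0.le hm.2 (by norm_num)
      _ = r ^ (2 / 3 : ℝ) * ∑ m ∈ (Icc 1 Z).filter (fun m => (rd m : ℝ) ≤ r), ((rd m : ℝ))⁻¹ := by
          rw [Finset.mul_sum]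
      _ ≤ r ^ (2 / 3 : ℝ) * (C₂ * (Z : ℝ) ^ (σ / 2)) := by
          refine mul_le_mul_of_nonneg_left ?_ (by positivity)
          refine le_trans (Finset.sum_le_sum_of_subset_of_nonneg (Finset.filter_subset _ _)
            (fun _ _ _ => by positivity)) (h₂ Z hZ)
  calc _ ≤ _ := h3
    _ ≤ (C₁ * (Z : ℝ) ^ (2 * (σ / 4))) * (r ^ (2 / 3 : ℝ) * (C₂ * (Z : ℝ) ^ (σ / 2))) :=
        mul_le_mul (h₁ Z M hM hMZ) h5 (Finset.sum_nonneg fun _ _ => by positivity) (by positivity)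
    _ = C₁ * C₂ * ((Z : ℝ) ^ (2 * (σ / 4)) * (Z : ℝ) ^ (σ / 2)) * r ^ (2 / 3 : ℝ) := by ring
    _ = C₁ * C₂ * (Z : ℝ) ^ σ * r ^ (2 / 3 : ℝ) := by
        rw [← Real.rpow_add (by linarith)]
        congr 3
        ring

end Pool.Agent.Lib.SqPart
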