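import Mathlib

set_option autoImplicit false

/-!
Multiples of a point on a Weierstrass curve in terms of the Tate-type parameters.
-/

namespace Pool.Agent.Lib.Szpiro

open WeierstrassCurve WeierstrassCurve.Affine

variable {F : Type*} [Field F] [DecidableEq F]

omit [DecidableEq F] in
theorem point_congr {W : Affine F} {x y x' y' : F} (h : W.Nonsingular x y) (hx : x = x')
    (hy : y = y') : ∃ h', Point.some x y h = Point.some x' y' h' := by
  subst hx; subst hy; exact ⟨h, rfl⟩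

/-- The chord law with an explicitly given slope. -/
theorem add_chord {W : Affine F} {x1 y1 x2 y2 l : F} (h1 : W.Nonsingular x1 y1)
    (h2 : W.Nonsingular x2 y2) (hx : x1 ≠ x2) (hl : l * (x1 - x2) = y1 - y2) :
    ∃ h, Point.some x1 y1 h1 + Point.some x2 y2 h2 =
      Point.some (l ^ 2 + W.a₁ * l - W.a₂ - x1 - x2)
        (-(l * ((l ^ 2 + W.a₁ * l - W.a₂ - x1 - x2) - x1) + y1)
          - W.a₁ * (l ^ 2 + W.a₁ * l - W.a₂ - x1 - x2) - W.a₃) h := by
  have hs : W.slope x1 x2 y1 y2 = l := by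
    rw [slope_of_X_ne hx, div_eq_iff (sub_ne_zero.mpr hx), hl]
  rw [Point.add_of_X_ne hx]
  apply point_congr
  · rw [hs, addX]
  · rw [hs, addY, negY, negAddY, addX]

/-- The tangent law with an explicitly given slope. -/
theorem add_tangent {W : Affine F} {x y l : F} (h : W.Nonsingular x y)
    (hden : 2 * y + W.a₁ * x + W.a₃ ≠ 0)
    (hl : l * (2 * y + W.a₁ * x + W.a₃) = 3 * x ^ 2 + 2 * W.a₂ * x + W.a₄ - W.a₁ * y) :
    ∃ h', Point.some x y h + Point.some x y h =
      Point.some (l ^ 2 + W.a₁ * l - W.a₂ - x - x)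
        (-(l * ((l ^ 2 + W.a₁ * l - W.a₂ - x - x) - x) + y)
          - W.a₁ * (l ^ 2 + W.a₁ * l - W.a₂ - x - x) - W.a₃) h' := by
  have hy : y ≠ W.negY x y := by
    intro hy
    apply hden
    rw [negY] at hy
    linear_combination hy
  have hs : W.slope x x y y = l := by
    rw [slope_of_Y_ne rfl hy, negY]
    have : y - (-y - W.a₁ * x - W.a₃) = 2 * y + W.a₁ * x + W.a₃ := by ring
    rw [this, div_eq_iff hden, hl]
  rw [Point.add_self_of_Y_ne hy]
  apply point_congr
  · rw [hs, addX]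
  · rw [hs, addY, negY, negAddY, addX]

/-- Tate-type parameters of a point `P = (x, y)` with `2P ≠ 0` and `3P ≠ 0`: `lam` is the slope of
the tangent at `P`; after the translation `x ↦ x + x(P)`, `y ↦ y + lam x + y(P)` the curve becomes
`y² + A1 xy + U A2 y = x³ + A2 x²`. -/
structure TateData (W : Affine F) (x y lam A1 A2 U : F) : Prop where
  hA2 : A2 ≠ 0
  hU : U ≠ 0
  ha1 : A1 = W.a₁ + 2 * lam
  ha3 : 2 * y + W.a₁ * x + W.a₃ = U * A2
  ha2 : A2 = W.a₂ - lam * W.a₁ + 3 * x - lam ^ 2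
  htan : lam * (2 * y + W.a₁ * x + W.a₃) = 3 * x ^ 2 + 2 * W.a₂ * x + W.a₄ - W.a₁ * y

theorem exists_multiples {W : Affine F} {x y : F} (h : W.Nonsingular x y)
    (h2 : Point.some x y h + Point.some x y h ≠ 0)
    (h3 : Point.some x y h + Point.some x y h + Point.some x y h ≠ 0) :
    ∃ lam A1 A2 U, TateData W x y lam A1 A2 U ∧
      (∃ h2', Point.some x y h + Point.some x y h = Point.some (x - A2)
        (y - lam * A2 + A1 * A2 - U * A2) h2') ∧
      (∃ h3', Point.some x y h + Point.some x y h + Point.some x y h =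
        Point.some (x + U * (U - A1))
        (y + lam * (U * (U - A1)) - U ^ 2 * (U - A1) - U * A2) h3') := by
  -- first doubling
  have hden : 2 * y + W.a₁ * x + W.a₃ ≠ 0 := by
    intro h0
    apply h2
    apply Point.add_self_of_Y_eq
    rw [negY]
    linear_combination h0
  obtain ⟨lam, hlam⟩ : ∃ lam, lam * (2 * y + W.a₁ * x + W.a₃)
      = 3 * x ^ 2 + 2 * W.a₂ * x + W.a₄ - W.a₁ * y := ⟨_, div_mul_cancel₀ _ hden⟩
  obtain ⟨h2', e2⟩ := add_tangent h hden hlam
  obtain ⟨A2, hA2⟩ : ∃ A2, A2 = W.a₂ - lam * W.a₁ + 3 * x - lam ^ 2 := ⟨_, rfl⟩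
  obtain ⟨A1, hA1⟩ : ∃ A1, A1 = W.a₁ + 2 * lam := ⟨_, rfl⟩
  obtain ⟨h2'', e2'⟩ := point_congr (x' := x - A2)
    (y' := y - lam * A2 + A1 * A2 - (2 * y + W.a₁ * x + W.a₃)) h2'
    (by rw [hA2]; ring) (by rw [hA2, hA1]; ring)
  rw [e2'] at e2
  have hA20 : A2 ≠ 0 := by
    intro h0
    apply h3
    rw [e2]
    apply Point.add_of_Y_eq
    · rw [h0, sub_zero]
    · rw [h0, negY]; ring
  obtain ⟨U, hU⟩ : ∃ U, 2 * y + W.a₁ * x + W.a₃ = U * A2 := ⟨_, (div_mul_cancel₀ _ hA20).symm⟩
  have hU0 : U ≠ 0 := by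
    intro h0
    rw [h0, zero_mul] at hU
    exact hden hU
  obtain ⟨h2s, e2s⟩ := point_congr (x' := x - A2) (y' := y - lam * A2 + A1 * A2 - U * A2) h2''
    rfl (by rw [hU])
  rw [e2s] at e2
  have hne : x - A2 ≠ x := by
    intro h0; apply hA20; linear_combination -h0
  obtain ⟨h3', e3⟩ := add_chord (l := lam + (U - A1)) h2s h hne (by ring)
  obtain ⟨h3'', e3'⟩ := point_congr (x' := x + U * (U - A1))
    (y' := y + lam * (U * (U - A1)) - U ^ 2 * (U - A1) - U * A2) h3'
    (by rw [hA2, hA1]; ring) (by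
      rw [show W.a₃ = U * A2 - 2 * y - W.a₁ * x by rw [← hU]; ring, hA2, hA1]
      ring)
  refine ⟨lam, A1, A2, U, ⟨hA20, hU0, hA1, hU, hA2, hlam⟩, ⟨h2s, e2⟩, ⟨h3'', ?_⟩⟩
  rw [e2, e3, e3']

omit [DecidableEq F] in
/-- `c₄` and `Δ` in terms of the Tate-type parameters. -/
theorem TateData.invariants {W : Affine F} {x y lam A1 A2 U : F} (h : W.Equation x y)
    (D : TateData W x y lam A1 A2 U) :
    W.c₄ = (A1 ^ 2 + 4 * A2) ^ 2 - 24 * (A1 * (U * A2)) ∧
    W.Δ = (U * A2) ^ 2 * (- (A1 ^ 2 + 4 * A2) ^ 2 * A2 + 8 * A1 ^ 3 * (U * A2) * 0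
      - 8 * A1 ^ 3 * (U * A2) - 27 * (U * A2) ^ 2 + 9 * (A1 ^ 2 + 4 * A2) * A1 * (U * A2)) := by
  obtain ⟨hA2, hU, ha1, ha3, ha2, htan⟩ := D
  let C : VariableChange F := ⟨1, x, lam, y⟩
  have h1 : (C • W).a₁ = A1 := by
    rw [variableChange_a₁]; simp only [C, inv_one, Units.val_one, one_mul, ha1]
  have h2 : (C • W).a₂ = A2 := by
    rw [variableChange_a₂]; simp only [C, inv_one, Units.val_one, one_pow, one_mul, ha2]
  have h3 : (C • W).a₃ = U * A2 := by
    rw [variableChange_a₃]; simp only [C, inv_one, Units.val_one, one_pow, one_mul, ← ha3]; ring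
  have h4 : (C • W).a₄ = 0 := by
    rw [variableChange_a₄]; simp only [C, inv_one, Units.val_one, one_pow, one_mul]
    linear_combination -htan
  have h6 : (C • W).a₆ = 0 := by
    rw [variableChange_a₆]; simp only [C, inv_one, Units.val_one, one_pow, one_mul]
    rw [equation_iff] at h
    linear_combination -h
  have hc : (C • W).c₄ = W.c₄ := by
    rw [variableChange_c₄]; simp only [C, inv_one, Units.val_one, one_pow, one_mul]
  have hD : (C • W).Δ = W.Δ := by
    rw [variableChange_Δ]; simp only [C, inv_one, Units.val_one, one_pow, one_mul]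
  rw [← hc, ← hD]
  simp only [WeierstrassCurve.c₄, WeierstrassCurve.Δ, WeierstrassCurve.b₂, WeierstrassCurve.b₄,
    WeierstrassCurve.b₆, WeierstrassCurve.b₈, h1, h2, h3, h4, h6]
  constructor <;> ring

/-- A point of exact order seven gives the universal family over `X_1(7)`. -/
theorem order_seven {W : Affine F} (P : W.Point) (hP : addOrderOf P = 7) :
    ∃ U d : F, U ≠ 0 ∧
      W.c₄ = U ^ 4 * ((d ^ 2 - d + 1) * (d ^ 6 - 11 * d ^ 5 + 30 * d ^ 4 - 15 * d ^ 3
        - 10 * d ^ 2 + 5 * d + 1)) ∧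
      W.Δ = U ^ 12 * (d ^ 7 * (d - 1) ^ 7 * (d ^ 3 - 8 * d ^ 2 + 5 * d + 1)) := by
  have h7 : P + P + P + P + P + P + P = 0 := by
    have := addOrderOf_nsmul_eq_zero P
    rw [hP] at this
    simpa [succ_nsmul] using this
  have hne : ∀ n : ℕ, 0 < n → n < 7 → n • P ≠ 0 := by
    intro n hn hn7 h0
    have := addOrderOf_le_of_nsmul_eq_zero hn h0
    omega
  have h1 : P ≠ 0 := by simpa using hne 1 (by norm_num) (by norm_num)
  have h2 : P + P ≠ 0 := by simpa [succ_nsmul] using hne 2 (by norm_num) (by norm_num)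
  have h3 : P + P + P ≠ 0 := by simpa [succ_nsmul] using hne 3 (by norm_num) (by norm_num)
  have h4 : P + P + P + P ≠ 0 := by simpa [succ_nsmul] using hne 4 (by norm_num) (by norm_num)
  rcases P with _ | ⟨x, y, h⟩
  · exact absurd rfl h1
  obtain ⟨lam, A1, A2, U, D, ⟨h2', e2⟩, ⟨h3', e3⟩⟩ := exists_multiples h h2 h3
  obtain ⟨hc, hΔ⟩ := D.invariants h.1
  obtain ⟨hA2, hU, ha1, ha3, ha2, htan⟩ := D
  -- 3P and P have different abscissas
  have hmu : U - A1 ≠ 0 := by
    intro h0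
    have hx : x + U * (U - A1) = x := by rw [h0]; ring
    rcases (Point.X_eq_iff (h₁ := h3') (h₂ := h)).mp hx with hh | hh
    · rw [← e3] at hh
      apply h2
      have : Point.some x y h + Point.some x y h + Point.some x y h - Point.some x y h = 0 := by
        rw [hh, sub_self]
      simpa using this
    · rw [← e3] at hh
      apply h4
      rw [hh]; simp
  obtain ⟨k, hk⟩ : ∃ k, A2 = k * (U - A1) := ⟨_, (div_mul_cancel₀ _ hmu).symm⟩
  have hne3 : x + U * (U - A1) ≠ x := by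
    intro h0
    have : U * (U - A1) = 0 := by linear_combination h0
    rcases mul_eq_zero.mp this with h | h
    · exact hU h
    · exact hmu h
  obtain ⟨h4', e4⟩ := add_chord (l := lam - U - k) h3' h hne3 (by rw [hk]; ring)
  have hX : (lam - U - k) ^ 2 + W.a₁ * (lam - U - k) - W.a₂ - (x + U * (U - A1)) - x
      = x + U * (U - A1) := by
    have hneg : Point.some x y h + Point.some x y h + Point.some x y h + Point.some x y h =
        -(Point.some x y h + Point.some x y h + Point.some x y h) := by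
      rw [eq_neg_iff_add_eq_zero, ← h7]; abel
    rw [e3, e4] at hneg
    exact (Point.X_eq_iff (h₁ := h4') (h₂ := h3')).mpr (Or.inr hneg)
  have hrel : k * (U + k) = U * (U - A1) := by
    have : W.a₁ = A1 - 2 * lam := by rw [ha1]; ring
    have h2a : W.a₂ = A2 + lam * W.a₁ - 3 * x + lam ^ 2 := by rw [ha2]; ring
    rw [h2a, this, hk] at hX
    linear_combination hX
  -- parameters
  refine ⟨U, - k / U, hU, ?_, ?_⟩
  · rw [hc]
    have hA1 : A1 = U * (1 - ((-k / U) ^ 2 - (-k / U))) := by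
      field_simp
      linear_combination hrel
    have hA2' : A2 = - U ^ 2 * ((-k / U) ^ 3 - (-k / U) ^ 2) := by
      rw [hk, hA1]; field_simp; ring
    rw [hA2', hA1]
    generalize -k / U = d
    ring
  · rw [hΔ]
    have hA1 : A1 = U * (1 - ((-k / U) ^ 2 - (-k / U))) := by
      field_simp
      linear_combination hrel
    have hA2' : A2 = - U ^ 2 * ((-k / U) ^ 3 - (-k / U) ^ 2) := by
      rw [hk, hA1]; field_simp; ring
    rw [hA2', hA1]
    generalize -k / U = d
    ring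

end Pool.Agent.Lib.Szpiro
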