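import Mathlib

set_option autoImplicit false

namespace Pool.Agent.Lib.Szpiro

/-- If a pair of coprime integers `(c, D)` of weights `4, 12` is a rational rescaling of an
integral pair `(C, E)` which is primitive (no prime `p` has `p⁴ ∣ C` and `p¹² ∣ E`), then the
two pairs are equal. -/
theorem scale_eq {c D C E : ℤ} (hcop : IsCoprime c D) (hD : D ≠ 0) (l : ℚ)
    (h4 : (c : ℚ) = l ^ 4 * C) (h12 : (D : ℚ) = l ^ 12 * E)
    (hprim : ∀ p : ℕ, p.Prime → (p : ℤ) ^ 4 ∣ C → (p : ℤ) ^ 12 ∣ E → False) :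
    c = C ∧ D = E := by
  have hl : l ≠ 0 := by
    rintro rfl
    apply hD
    have : (D : ℚ) = 0 := by rw [h12]; ring
    exact_mod_cast this
  have hden : (l.den : ℚ) ≠ 0 := by exact_mod_cast l.den_nz
  have hl' : l * l.den = l.num := Rat.mul_den_eq_num l
  have e4 : (l.den : ℤ) ^ 4 * c = l.num ^ 4 * C := by
    have : ((l.den : ℚ)) ^ 4 * c = (l.num : ℚ) ^ 4 * C := by
      rw [h4, ← hl']; ring
    exact_mod_cast this
  have e12 : (l.den : ℤ) ^ 12 * D = l.num ^ 12 * E := by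
    have : ((l.den : ℚ)) ^ 12 * D = (l.num : ℚ) ^ 12 * E := by
      rw [h12, ← hl']; ring
    exact_mod_cast this
  have hco : IsCoprime l.num (l.den : ℤ) := by
    have := l.reduced
    rw [Int.isCoprime_iff_gcd_eq_one]
    simpa [Int.gcd, Nat.Coprime] using this
  -- numerator is a unit
  have hnum : l.num.natAbs = 1 := by
    by_contra hne
    obtain ⟨p, hp, hpd⟩ := Nat.exists_prime_and_dvd hne
    have hpZ : Prime (p : ℤ) := Nat.prime_iff_prime_int.mp hp
    have hpn : (p : ℤ) ∣ l.num := by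
      exact Int.natCast_dvd.mpr hpd
    have hpd' : ¬ (p : ℤ) ∣ (l.den : ℤ) := fun h => hpZ.not_isUnit (hco.isUnit_of_dvd' hpn h)
    have h1 : (p : ℤ) ∣ c := by
      have : (p : ℤ) ∣ (l.den : ℤ) ^ 4 * c := by
        rw [e4]; exact Dvd.dvd.mul_right (dvd_pow hpn (by norm_num)) _
      rcases hpZ.dvd_or_dvd this with h | h
      · exact absurd (hpZ.dvd_of_dvd_pow h) hpd'
      · exact h
    have h2 : (p : ℤ) ∣ D := by
      have : (p : ℤ) ∣ (l.den : ℤ) ^ 12 * D := by
        rw [e12]; exact Dvd.dvd.mul_right (dvd_pow hpn (by norm_num)) _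
      rcases hpZ.dvd_or_dvd this with h | h
      · exact absurd (hpZ.dvd_of_dvd_pow h) hpd'
      · exact h
    exact hpZ.not_isUnit (hcop.isUnit_of_dvd' h1 h2)
  have hnum4 : l.num ^ 4 = 1 := by
    rcases Int.natAbs_eq l.num with h | h <;> rw [h, hnum] <;> norm_num
  have hnum12 : l.num ^ 12 = 1 := by
    have : l.num ^ 12 = (l.num ^ 4) ^ 3 := by ring
    rw [this, hnum4]; norm_num
  rw [hnum4, one_mul] at e4
  rw [hnum12, one_mul] at e12
  have hd1 : l.den = 1 := by
    by_contra hne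
    obtain ⟨p, hp, hpd⟩ := Nat.exists_prime_and_dvd hne
    have hpd' : (p : ℤ) ∣ (l.den : ℤ) := by exact_mod_cast hpd
    exact hprim p hp (by rw [← e4]; exact Dvd.dvd.mul_right (pow_dvd_pow_of_dvd hpd' 4) _)
      (by rw [← e12]; exact Dvd.dvd.mul_right (pow_dvd_pow_of_dvd hpd' 12) _)
  rw [hd1] at e4 e12
  norm_num at e4 e12
  exact ⟨e4, e12⟩

end Pool.Agent.Lib.Szpiro
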