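import Mathlib
import Pool.Agent.Lib.MP_d8bd92_nt.Mult
import Pool.Agent.Lib.MP_d8bd92_nt.Scale

set_option autoImplicit false

namespace Pool.Agent.Lib.Szpiro

open WeierstrassCurve WeierstrassCurve.Affine

/-- The cubic form whose zeros are the three irrational cusps of `X_1(7)`. -/
def cub7 (a b : ℤ) : ℤ := a ^ 3 - 8 * a ^ 2 * b + 5 * a * b ^ 2 + b ^ 3

def C47 (a b : ℤ) : ℤ := (a ^ 2 - a * b + b ^ 2) * (a ^ 6 - 11 * a ^ 5 * b + 30 * a ^ 4 * b ^ 2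
  - 15 * a ^ 3 * b ^ 3 - 10 * a ^ 2 * b ^ 4 + 5 * a * b ^ 5 + b ^ 6)

theorem bezout7 (a b : ℤ) :
    (-1661 * b ^ 7 - 1540 * a * b ^ 6 + 6776 * a ^ 2 * b ^ 5 - 693 * a ^ 3 * b ^ 4
      - 6853 * a ^ 4 * b ^ 3 + 12530 * a ^ 5 * b ^ 2 - 4781 * a ^ 6 * b + 444 * a ^ 7) * cub7 a b
    + (1710 * b ^ 2 + 3005 * a * b - 444 * a ^ 2) * C47 a b = 49 * b ^ 10 := by
  unfold cub7 C47; ring

theorem bezout7' (a b : ℤ) :
    (-4222 * a ^ 7 + 19593 * b * a ^ 6 - 26488 * b ^ 2 * a ^ 5 + 17115 * b ^ 3 * a ^ 4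
      + 378 * b ^ 4 * a ^ 3 - 6832 * b ^ 5 * a ^ 2 + 1673 * b ^ 6 * a + 444 * b ^ 7) * cub7 a b
    + (4271 * a ^ 2 - 2117 * b * a - 444 * b ^ 2) * C47 a b = 49 * a ^ 10 := by
  unfold cub7 C47; ring

theorem prim7 {a b : ℤ} (hab : IsCoprime a b) (p : ℕ) (hp : p.Prime)
    (h1 : (p : ℤ) ^ 4 ∣ C47 a b) (h2 : (p : ℤ) ^ 12 ∣ (a * b * (a - b)) ^ 7 * cub7 a b) : False := by
  have hpZ : Prime (p : ℤ) := Nat.prime_iff_prime_int.mp hp
  have hpC : (p : ℤ) ∣ C47 a b := dvd_trans (dvd_pow_self _ (by norm_num)) h1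
  have hnota : ¬ (p : ℤ) ∣ a := by
    intro ha
    have : (p : ℤ) ∣ b ^ 8 := by
      have h : C47 a b - a * (a ^ 7 - 12 * a ^ 6 * b + 42 * a ^ 5 * b ^ 2 - 56 * a ^ 4 * b ^ 3
        + 35 * a ^ 3 * b ^ 4 + 0 * a ^ 2 * b ^ 5 - 14 * a * b ^ 6 + 4 * b ^ 7) = b ^ 8 := by
        unfold C47; ring
      rw [← h]
      exact dvd_sub hpC (Dvd.dvd.mul_right ha _)
    exact hpZ.not_isUnit (hab.isUnit_of_dvd' ha (hpZ.dvd_of_dvd_pow this))
  have hnotb : ¬ (p : ℤ) ∣ b := by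
    intro hb
    have : (p : ℤ) ∣ a ^ 8 := by
      have h : C47 a b - b * (- 12 * a ^ 7 + 42 * a ^ 6 * b - 56 * a ^ 5 * b ^ 2
        + 35 * a ^ 4 * b ^ 3 + 0 * a ^ 3 * b ^ 4 - 14 * a ^ 2 * b ^ 5 + 4 * a * b ^ 6 + b ^ 7)
          = a ^ 8 := by
        unfold C47; ring
      rw [← h]
      exact dvd_sub hpC (Dvd.dvd.mul_right hb _)
    exact hpZ.not_isUnit (hab.isUnit_of_dvd' (hpZ.dvd_of_dvd_pow this) hb)
  have hnotab : ¬ (p : ℤ) ∣ a - b := by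
    intro hc
    have : (p : ℤ) ∣ a ^ 8 := by
      have h : ∃ k, C47 a b - (a - b) * k = a ^ 8 := by
        refine ⟨-(b ^ 7 + 5 * a * b ^ 6 - 9 * a ^ 2 * b ^ 5 - 9 * a ^ 3 * b ^ 4
          + 26 * a ^ 4 * b ^ 3 - 30 * a ^ 5 * b ^ 2 + 12 * a ^ 6 * b + 0 * a ^ 7), ?_⟩
        unfold C47; ring
      obtain ⟨k, hk⟩ := h
      rw [← hk]
      exact dvd_sub hpC (Dvd.dvd.mul_right hc _)
    exact hnota (hpZ.dvd_of_dvd_pow this)
  have hprod : ¬ (p : ℤ) ∣ (a * b * (a - b)) ^ 7 := by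
    intro h
    rcases hpZ.dvd_or_dvd (hpZ.dvd_of_dvd_pow h) with h | h
    · rcases hpZ.dvd_or_dvd h with h | h
      · exact hnota h
      · exact hnotb h
    · exact hnotab h
  have h4 : (p : ℤ) ^ 4 ∣ (a * b * (a - b)) ^ 7 * cub7 a b :=
    dvd_trans (pow_dvd_pow _ (by norm_num)) h2
  have hcub : (p : ℤ) ^ 4 ∣ cub7 a b :=
    hpZ.pow_dvd_of_dvd_mul_left _ hprod h4
  have hb10 : (p : ℤ) ^ 4 ∣ 49 * b ^ 10 := by
    rw [← bezout7 a b]
    exact dvd_add (Dvd.dvd.mul_left hcub _) (Dvd.dvd.mul_left h1 _)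
  have hb : ¬ (p : ℤ) ∣ b ^ 10 := fun h => hnotb (hpZ.dvd_of_dvd_pow h)
  have h49 : (p : ℤ) ^ 4 ∣ 49 := hpZ.pow_dvd_of_dvd_mul_right _ hb hb10
  have h49' : p ^ 4 ∣ 49 := by exact_mod_cast h49
  have h2p : 2 ≤ p := hp.two_le
  have hle : p ^ 4 ≤ 49 := Nat.le_of_dvd (by norm_num) h49'
  have : p ≤ 2 := by
    by_contra h
    have : 3 ≤ p := by omega
    have : 3 ^ 4 ≤ p ^ 4 := Nat.pow_le_pow_left this 4
    omega
  have : p = 2 := by omega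
  subst this
  norm_num at h49'

/-- Every semistable curve with a rational point of order seven is a fibre of the
universal family at a pair of coprime integers. -/
theorem param7 (W : WeierstrassCurve ℤ) (hΔ : W.Δ ≠ 0) (hc : IsCoprime W.c₄ W.Δ)
    (P : (W.baseChange ℚ).toAffine.Point) (hP : addOrderOf P = 7) :
    ∃ a b : ℤ, IsCoprime a b ∧ W.c₄ = C47 a b ∧ W.Δ = (a * b * (a - b)) ^ 7 * cub7 a b := by
  obtain ⟨U, d, hU, h4, h12⟩ := order_seven P hP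
  have e4 : ((W.c₄ : ℤ) : ℚ) = (W.baseChange ℚ).c₄ := by
    simp [WeierstrassCurve.baseChange]
  have e12 : ((W.Δ : ℤ) : ℚ) = (W.baseChange ℚ).Δ := by
    simp [WeierstrassCurve.baseChange]
  have hden : (d.den : ℚ) ≠ 0 := by exact_mod_cast d.den_nz
  have hd : d = (d.num : ℚ) / d.den := (Rat.num_div_den d).symm
  have hcop : IsCoprime d.num (d.den : ℤ) := by
    have := d.reduced
    rw [Int.isCoprime_iff_gcd_eq_one]
    simpa [Int.gcd, Nat.Coprime] using this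
  refine ⟨d.num, d.den, hcop, ?_⟩
  have key := scale_eq (c := W.c₄) (D := W.Δ) (C := C47 d.num d.den)
    (E := (d.num * d.den * (d.num - d.den)) ^ 7 * cub7 d.num d.den) hc hΔ
    (U / (d.den : ℚ) ^ 2) ?_ ?_ ?_
  · exact key
  · rw [e4, h4]
    unfold C47
    push_cast
    generalize (d.den : ℚ) = m at *
    generalize (d.num : ℚ) = n at *
    rw [hd]
    field_simp
  · rw [e12, h12]
    unfold cub7
    push_cast
    generalize (d.den : ℚ) = m at *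
    generalize (d.num : ℚ) = n at *
    rw [hd]
    field_simp
  · intro p hp h1 h2
    exact prim7 hcop p hp h1 h2

end Pool.Agent.Lib.Szpiro
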