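import Pool.Agent.Lib.MP_d8bd92_nt.ThF
import Pool.Agent.Lib.MP_d8bd92_nt.Param7

set_option autoImplicit false

/-!
Semistable curves with a rational point of order five or seven, counted by conductor.
-/

namespace Pool.Agent.Lib.Szpiro

open WeierstrassCurve WeierstrassCurve.Affine

def C45 (a b : ℤ) : ℤ := b ^ 4 + 12 * a * b ^ 3 + 14 * a ^ 2 * b ^ 2 - 12 * a ^ 3 * b + a ^ 4

def Q5 (a b : ℤ) : ℤ := a ^ 2 - 11 * a * b - b ^ 2

theorem prim5 {a b : ℤ} (hab : IsCoprime a b) (p : ℕ) (hp : p.Prime)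
    (h1 : (p : ℤ) ^ 4 ∣ C45 a b) (h2 : (p : ℤ) ^ 12 ∣ (a * b) ^ 5 * Q5 a b) : False := by
  have hpZ : Prime (p : ℤ) := Nat.prime_iff_prime_int.mp hp
  have hpC : (p : ℤ) ∣ C45 a b := dvd_trans (dvd_pow_self _ (by norm_num)) h1
  have hnota : ¬ (p : ℤ) ∣ a := by
    intro ha
    have : (p : ℤ) ∣ b ^ 4 := by
      have h : C45 a b - a * (12 * b ^ 3 + 14 * a * b ^ 2 - 12 * a ^ 2 * b + a ^ 3) = b ^ 4 := by
        unfold C45; ring
      rw [← h]
      exact dvd_sub hpC (Dvd.dvd.mul_right ha _)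
    exact hpZ.not_isUnit (hab.isUnit_of_dvd' ha (hpZ.dvd_of_dvd_pow this))
  have hnotb : ¬ (p : ℤ) ∣ b := by
    intro hb
    have : (p : ℤ) ∣ a ^ 4 := by
      have h : C45 a b - b * (b ^ 3 + 12 * a * b ^ 2 + 14 * a ^ 2 * b - 12 * a ^ 3) = a ^ 4 := by
        unfold C45; ring
      rw [← h]
      exact dvd_sub hpC (Dvd.dvd.mul_right hb _)
    exact hpZ.not_isUnit (hab.isUnit_of_dvd' (hpZ.dvd_of_dvd_pow this) hb)
  have hprod : ¬ (p : ℤ) ∣ (a * b) ^ 5 := by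
    intro h
    rcases hpZ.dvd_or_dvd (hpZ.dvd_of_dvd_pow h) with h | h
    · exact hnota h
    · exact hnotb h
  have h4 : (p : ℤ) ^ 4 ∣ (a * b) ^ 5 * Q5 a b :=
    dvd_trans (pow_dvd_pow _ (by norm_num)) h2
  have hQ : (p : ℤ) ^ 4 ∣ Q5 a b := hpZ.pow_dvd_of_dvd_mul_left _ hprod h4
  have hb5 : (p : ℤ) ^ 4 ∣ 5 * b ^ 5 := by
    have h : 5 * b ^ 5 = (605 * b ^ 3 + (11 * a - 122 * b) * (a ^ 2 - a * b + 4 * b ^ 2)) * Q5 a b -
        (11 * a - 122 * b) * C45 a b := by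
      unfold Q5 C45; ring
    rw [h]
    exact dvd_sub (Dvd.dvd.mul_left hQ _) (Dvd.dvd.mul_left h1 _)
  have hb : ¬ (p : ℤ) ∣ b ^ 5 := fun h => hnotb (hpZ.dvd_of_dvd_pow h)
  have h5 : (p : ℤ) ^ 4 ∣ 5 := hpZ.pow_dvd_of_dvd_mul_right _ hb hb5
  have h5' : p ^ 4 ∣ 5 := by exact_mod_cast h5
  have hle : p ^ 4 ≤ 5 := Nat.le_of_dvd (by norm_num) h5'
  have : 2 ^ 4 ≤ p ^ 4 := Nat.pow_le_pow_left hp.two_le 4
  omega

/-- Every semistable curve with a rational point of order five is a fibre of the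
universal family at a pair of coprime integers. -/
theorem param5 (W : WeierstrassCurve ℤ) (hΔ : W.Δ ≠ 0) (hc : IsCoprime W.c₄ W.Δ)
    (P : (W.baseChange ℚ).toAffine.Point) (hP : addOrderOf P = 5) :
    ∃ a b : ℤ, IsCoprime a b ∧ W.c₄ = C45 a b ∧ W.Δ = (a * b) ^ 5 * Q5 a b := by
  obtain ⟨U, d, hU, h4, h12⟩ := order_five P hP
  have e4 : ((W.c₄ : ℤ) : ℚ) = (W.baseChange ℚ).c₄ := by
    simp [WeierstrassCurve.baseChange]
  have e12 : ((W.Δ : ℤ) : ℚ) = (W.baseChange ℚ).Δ := by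
    simp [WeierstrassCurve.baseChange]
  have hden : (d.den : ℚ) ≠ 0 := by exact_mod_cast d.den_nz
  have hd : d = (d.num : ℚ) / d.den := (Rat.num_div_den d).symm
  have hcop : IsCoprime d.num (d.den : ℤ) := by
    have := d.reduced
    rw [Int.isCoprime_iff_gcd_eq_one]
    simpa [Int.gcd, Nat.Coprime] using this
  refine ⟨d.num, d.den, hcop, ?_⟩
  have key := scale_eq (c := W.c₄) (D := W.Δ) (C := C45 d.num d.den)
    (E := (d.num * d.den) ^ 5 * Q5 d.num d.den) hc hΔ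
    (U / (d.den : ℚ)) ?_ ?_ ?_
  · exact key
  · rw [e4, h4]
    unfold C45
    push_cast
    generalize (d.den : ℚ) = m at *
    generalize (d.num : ℚ) = n at *
    rw [hd]
    field_simp
  · rw [e12, h12]
    unfold Q5
    push_cast
    generalize (d.den : ℚ) = m at *
    generalize (d.num : ℚ) = n at *
    rw [hd]
    field_simp
  · intro p hp h1 h2
    exact prim5 hcop p hp h1 h2

end Pool.Agent.Lib.Szpiro

namespace Pool.Agent.Lib.MP_d8bd92_nt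

open Finset Pool.Agent.Lib.Szpiro WeierstrassCurve WeierstrassCurve.Affine

namespace Th

/-- a set with three coordinates, the radicals of which have a small product, such that any two
coordinates determine the third up to a bounded number of choices -/
theorem three_count (σ : ℝ) (hσ : 0 < σ) : ∃ C : ℝ, 1 ≤ C ∧ ∀ (Z D : ℕ) (Y : ℝ)
    (F : Finset (ℕ × ℕ)) (u v w : ℕ × ℕ → ℕ), 1 ≤ Z → 1 ≤ Y →
    (∀ x ∈ F, 1 ≤ u x ∧ u x ≤ Z ∧ 1 ≤ v x ∧ v x ≤ Z ∧ 1 ≤ w x ∧ w x ≤ Z ∧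
      (rd (u x) : ℝ) * rd (v x) * rd (w x) ≤ Y) →
    (∀ i j : ℕ, (F.filter (fun x => u x = i ∧ v x = j)).card ≤ D) →
    (∀ i j : ℕ, (F.filter (fun x => u x = i ∧ w x = j)).card ≤ D) →
    (∀ i j : ℕ, (F.filter (fun x => v x = i ∧ w x = j)).card ≤ D) →
    (F.card : ℝ) ≤ C * D * (Z : ℝ) ^ σ * Y ^ (2 / 3 : ℝ) := by
  classical
  obtain ⟨C, hC1, hC⟩ := card_pair_rd_le σ hσ
  refine ⟨3 * C, by linarith, ?_⟩
  intro Z D Y F u v w hZ hY hF huv huw hvw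
  have hY0 : 0 < Y := by linarith
  set Q : ℝ := Y ^ (2 / 3 : ℝ) with hQ
  have hQ0 : 0 < Q := by positivity
  have hQ3 : Q ^ 3 = Y ^ 2 := by
    rw [hQ, ← Real.rpow_natCast, ← Real.rpow_mul hY0.le, ← Real.rpow_natCast]
    norm_num
  have hone : ∀ (f g : ℕ × ℕ → ℕ) (G : Finset (ℕ × ℕ)), (∀ x ∈ G, 1 ≤ f x ∧ f x ≤ Z ∧ 1 ≤ g x ∧
      g x ≤ Z ∧ (rd (f x) : ℝ) * rd (g x) ≤ Q) →
      (∀ i j : ℕ, (G.filter (fun x => f x = i ∧ g x = j)).card ≤ D) →
      (G.card : ℝ) ≤ C * D * (Z : ℝ) ^ σ * Q := by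
    intro f g G hG hfib
    have h1 : G.card ≤ D * ((Icc 1 Z ×ˢ Icc 1 Z).filter
        (fun q : ℕ × ℕ => (rd q.1 : ℝ) * rd q.2 ≤ Q)).card := by
      apply Finset.card_le_mul_card_image_of_maps_to (f := fun x => (f x, g x))
      · intro x hx
        obtain ⟨h1, h2, h3, h4, h5⟩ := hG x hx
        rw [Finset.mem_filter, Finset.mem_product, Finset.mem_Icc, Finset.mem_Icc]
        exact ⟨⟨⟨h1, h2⟩, ⟨h3, h4⟩⟩, h5⟩
      · rintro ⟨i, j⟩ _
        refine le_trans (le_of_eq ?_) (hfib i j)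
        congr 1
        ext x
        simp only [Finset.mem_filter, Prod.mk.injEq]
    have h2 := hC Z Q hZ hQ0.le
    calc (G.card : ℝ) ≤ (D : ℝ) * (((Icc 1 Z ×ˢ Icc 1 Z).filter
          (fun q : ℕ × ℕ => (rd q.1 : ℝ) * rd q.2 ≤ Q)).card : ℝ) := by exact_mod_cast h1
      _ ≤ (D : ℝ) * (C * (Z : ℝ) ^ σ * Q) := mul_le_mul_of_nonneg_left h2 (by positivity)
      _ = C * D * (Z : ℝ) ^ σ * Q := by ring
  set F1 := F.filter (fun x => (rd (u x) : ℝ) * rd (v x) ≤ Q) with hF1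
  set F2 := F.filter (fun x => (rd (u x) : ℝ) * rd (w x) ≤ Q) with hF2
  set F3 := F.filter (fun x => (rd (v x) : ℝ) * rd (w x) ≤ Q) with hF3
  have hcover : F ⊆ F1 ∪ (F2 ∪ F3) := by
    intro x hx
    rw [Finset.mem_union, Finset.mem_union, hF1, hF2, hF3, Finset.mem_filter, Finset.mem_filter,
      Finset.mem_filter]
    by_contra hcon
    push Not at hcon
    obtain ⟨c1, c2, c3⟩ := hcon
    have d1 := c1 hx
    have d2 := c2 hx
    have d3 := c3 hx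
    obtain ⟨_, _, _, _, _, _, h7⟩ := hF x hx
    have e1 : Q * Q * Q < ((rd (u x) : ℝ) * rd (v x)) * ((rd (u x) : ℝ) * rd (w x)) *
        ((rd (v x) : ℝ) * rd (w x)) :=
      mul_lt_mul'' (mul_lt_mul'' d1 d2 hQ0.le hQ0.le) d3 (by positivity) hQ0.le
    have e2 : ((rd (u x) : ℝ) * rd (v x)) * ((rd (u x) : ℝ) * rd (w x)) *
        ((rd (v x) : ℝ) * rd (w x)) = ((rd (u x) : ℝ) * rd (v x) * rd (w x)) ^ 2 := by ring
    have e3 : ((rd (u x) : ℝ) * rd (v x) * rd (w x)) ^ 2 ≤ Y ^ 2 :=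
      pow_le_pow_left₀ (by positivity) h7 2
    have e4 : Q * Q * Q = Y ^ 2 := by rw [← hQ3]; ring
    linarith
  have hcard : (F.card : ℝ) ≤ (F1.card : ℝ) + ((F2.card : ℝ) + (F3.card : ℝ)) := by
    have h1 := (Finset.card_le_card hcover).trans ((Finset.card_union_le _ _).trans
      (Nat.add_le_add_left (Finset.card_union_le _ _) _))
    exact_mod_cast h1
  have hsub : ∀ (P : ℕ × ℕ → Prop) [DecidablePred P] (R : ℕ × ℕ → Prop) [DecidablePred R],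
      (F.filter R).card ≤ D → ((F.filter P).filter R).card ≤ D := by
    intro P _ R _ h
    refine le_trans (Finset.card_le_card ?_) h
    intro x hx
    rw [Finset.mem_filter, Finset.mem_filter] at hx
    exact Finset.mem_filter.mpr ⟨hx.1.1, hx.2⟩
  have h1 := hone u v F1 (by
    intro x hx
    rw [hF1, Finset.mem_filter] at hx
    obtain ⟨k1, k2, k3, k4, k5, k6, _⟩ := hF x hx.1
    exact ⟨k1, k2, k3, k4, hx.2⟩) (fun i j => hsub _ _ (huv i j))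
  have h2 := hone u w F2 (by
    intro x hx
    rw [hF2, Finset.mem_filter] at hx
    obtain ⟨k1, k2, k3, k4, k5, k6, _⟩ := hF x hx.1
    exact ⟨k1, k2, k5, k6, hx.2⟩) (fun i j => hsub _ _ (huw i j))
  have h3 := hone v w F3 (by
    intro x hx
    rw [hF3, Finset.mem_filter] at hx
    obtain ⟨k1, k2, k3, k4, k5, k6, _⟩ := hF x hx.1
    exact ⟨k3, k4, k5, k6, hx.2⟩) (fun i j => hsub _ _ (hvw i j))
  calc (F.card : ℝ) ≤ (F1.card : ℝ) + ((F2.card : ℝ) + (F3.card : ℝ)) := hcard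
    _ ≤ C * D * (Z : ℝ) ^ σ * Q + (C * D * (Z : ℝ) ^ σ * Q + C * D * (Z : ℝ) ^ σ * Q) := by linarith
    _ = 3 * C * D * (Z : ℝ) ^ σ * Q := by ring

/-- radicals of pairwise coprime divisors -/
theorem rd_three (x y z n : ℕ) (hn : n ≠ 0) (hx : x ∣ n) (hy : y ∣ n) (hz : z ∣ n)
    (hxy : Nat.Coprime x y) (hxz : Nat.Coprime x z) (hyz : Nat.Coprime y z) :
    rd x * rd y * rd z ≤ rd n := by
  have hx0 : x ≠ 0 := fun h => hn (by rw [h] at hx; exact Nat.eq_zero_of_zero_dvd hx)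
  have hy0 : y ≠ 0 := fun h => hn (by rw [h] at hy; exact Nat.eq_zero_of_zero_dvd hy)
  have hz0 : z ≠ 0 := fun h => hn (by rw [h] at hz; exact Nat.eq_zero_of_zero_dvd hz)
  rw [← rd_mul_coprime x y hx0 hy0 hxy,
    ← rd_mul_coprime (x * y) z (mul_ne_zero hx0 hy0) hz0 (Nat.Coprime.mul_left hxz hyz)]
  apply rd_mono' hn
  intro p hp hpd
  rcases hp.dvd_mul.mp hpd with h | h
  · rcases hp.dvd_mul.mp h with h | h
    · exact h.trans hx
    · exact h.trans hy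
  · exact h.trans hz

/-- a set on which `q` takes two values at most, each of them at most twice -/
theorem card_le_four (F : Finset (ℕ × ℕ)) (q : ℕ × ℕ → ℤ) (j : ℕ) (hq : ∀ x ∈ F, (q x).natAbs = j)
    (h3 : ∀ x ∈ F, ∀ y ∈ F, ∀ z ∈ F, q x = q y → q x = q z → x = y ∨ x = z ∨ y = z) :
    F.card ≤ 4 := by
  classical
  have h1 : F.card ≤ 2 * (Finset.univ : Finset Bool).card := by
    apply Finset.card_le_mul_card_image_of_maps_to (f := fun x => decide (0 ≤ q x))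
    · intro x _
      exact Finset.mem_univ _
    · intro s _
      by_contra hcon
      push Not at hcon
      obtain ⟨x, y, z, hx, hy, hz, hxy, hxz, hyz⟩ := Finset.two_lt_card_iff.mp hcon
      rw [Finset.mem_filter] at hx hy hz
      have e : ∀ x' ∈ F, ∀ y' ∈ F, decide (0 ≤ q x') = decide (0 ≤ q y') → q x' = q y' := by
        intro x' hx' y' hy' h
        rw [decide_eq_decide] at h
        have k1 := hq x' hx'
        have k2 := hq y' hy'
        omega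
      rcases h3 x hx.1 y hy.1 z hz.1 (e _ hx.1 _ hy.1 (hx.2.trans hy.2.symm))
        (e _ hx.1 _ hz.1 (hx.2.trans hz.2.symm)) with h | h | h
      · exact hxy h
      · exact hxz h
      · exact hyz h
  rw [Finset.card_univ, Fintype.card_bool] at h1
  omega

/-- counting curves with three coprime factors of the discriminant -/
theorem three_factors (p : ℕ) (G T H : ℤ → ℤ → ℤ)
    (hpar : ∀ W : WeierstrassCurve ℤ, W.Δ ≠ 0 → IsCoprime W.c₄ W.Δ →
      (∃ P : (W.baseChange ℚ).toAffine.Point, addOrderOf P = p) →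
      ∃ a b : ℤ, W.c₄ = G a b ∧ W.Δ = T a b ∧ a ∣ W.Δ ∧ b ∣ W.Δ ∧ H a b ∣ W.Δ ∧
        IsCoprime a b ∧ IsCoprime a (H a b) ∧ IsCoprime b (H a b))
    (h1 : ∀ (s : Bool × Bool) (i j : ℕ) (F : Finset (ℕ × ℕ)), (∀ x ∈ F, x.1 = i ∧
      (H (sg s.1 * (x.1 : ℤ)) (sg s.2 * (x.2 : ℤ))).natAbs = j) → F.card ≤ 4)
    (h2 : ∀ (s : Bool × Bool) (i j : ℕ) (F : Finset (ℕ × ℕ)), (∀ x ∈ F, x.2 = i ∧
      (H (sg s.1 * (x.1 : ℤ)) (sg s.2 * (x.2 : ℤ))).natAbs = j) → F.card ≤ 4)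
    (κ ε : ℝ) (hκ : 0 < κ) (hε : 0 < ε) : ∃ C : ℝ, 0 < C ∧ ∀ Y : ℝ, 1 ≤ Y →
    (torSet p Y κ).Finite ∧ ((torSet p Y κ).ncard : ℝ) ≤ C * Y ^ (2 / 3 + ε) := by
  classical
  obtain ⟨σ, hσ⟩ : ∃ σ : ℝ, σ = ε / κ := ⟨_, rfl⟩
  have hσ0 : 0 < σ := by rw [hσ]; positivity
  obtain ⟨C1, hC1, hmain⟩ := three_count σ hσ0
  refine ⟨32 * C1, by positivity, ?_⟩
  intro Y hY
  have hY0 : 0 < Y := by linarith
  have hpar' : ∀ c : ℤ × ℤ, ∃ t : ℤ × ℤ, c ∈ torSet p Y κ → (t.1 ≠ 0 ∧ t.2 ≠ 0 ∧ H t.1 t.2 ≠ 0 ∧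
      t.1.natAbs ≤ ⌊Y ^ κ⌋₊ ∧ t.2.natAbs ≤ ⌊Y ^ κ⌋₊ ∧ (H t.1 t.2).natAbs ≤ ⌊Y ^ κ⌋₊ ∧
      ((rd t.1.natAbs : ℕ) : ℝ) * ((rd t.2.natAbs : ℕ) : ℝ) * ((rd (H t.1 t.2).natAbs : ℕ) : ℝ) ≤ Y ∧
      c.1 = G t.1 t.2 ∧ c.2 ^ 2 = (G t.1 t.2) ^ 3 - 1728 * T t.1 t.2) := by
    intro c
    by_cases hc : c ∈ torSet p Y κ
    · obtain ⟨W, h4, h6, hΔ, hss, hP, hN, hD⟩ := hc
      obtain ⟨a, b, e1, e2, e3, e4, e5, e6, e7, e8⟩ := hpar W hΔ hss hP
      refine ⟨(a, b), fun _ => ?_⟩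
      have hnz : ∀ x : ℤ, x ∣ W.Δ → x ≠ 0 := by
        rintro x hx rfl
        exact hΔ (zero_dvd_iff.mp hx)
      have hfl : ∀ x : ℤ, x ∣ W.Δ → x.natAbs ≤ ⌊Y ^ κ⌋₊ := by
        intro x hx
        apply Nat.le_floor
        refine le_trans ?_ hD
        exact_mod_cast Nat.le_of_dvd (Int.natAbs_pos.mpr hΔ) (Int.natAbs_dvd_natAbs.mpr hx)
      refine ⟨hnz _ e3, hnz _ e4, hnz _ e5, hfl _ e3, hfl _ e4, hfl _ e5, ?_, ?_, ?_⟩
      · have h7 := rd_three a.natAbs b.natAbs (H a b).natAbs W.Δ.natAbs (Int.natAbs_ne_zero.mpr hΔ)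
          (Int.natAbs_dvd_natAbs.mpr e3) (Int.natAbs_dvd_natAbs.mpr e4)
          (Int.natAbs_dvd_natAbs.mpr e5) (Int.isCoprime_iff_nat_coprime.mp e6)
          (Int.isCoprime_iff_nat_coprime.mp e7) (Int.isCoprime_iff_nat_coprime.mp e8)
        refine le_trans ?_ hN
        exact_mod_cast h7
      · rw [← h4, e1]
      · have h8 := W.c_relation
        rw [← h6]
        simp only
        rw [← e1, ← e2]
        linear_combination h8
    · exact ⟨0, fun h => absurd h hc⟩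
  choose t ht using hpar'
  have hZ1 : 1 ≤ ⌊Y ^ κ⌋₊ := by
    apply Nat.le_floor
    rw [Nat.cast_one]
    exact Real.one_le_rpow hY hκ.le
  have hZR : ((⌊Y ^ κ⌋₊ : ℕ) : ℝ) ≤ Y ^ κ := Nat.floor_le (by positivity)
  have hZσ : ((⌊Y ^ κ⌋₊ : ℕ) : ℝ) ^ σ ≤ Y ^ ε := by
    calc ((⌊Y ^ κ⌋₊ : ℕ) : ℝ) ^ σ ≤ (Y ^ κ) ^ σ :=
          Real.rpow_le_rpow (by positivity) hZR hσ0.le
      _ = Y ^ ε := by
          rw [← Real.rpow_mul hY0.le, hσ]
          congr 1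
          field_simp
  have key := transfer (torSet p Y κ) t ⌊Y ^ κ⌋₊ (4 * C1 * Y ^ (2 / 3 + ε)) ?_ ?_ ?_
  · refine ⟨key.1, key.2.trans (le_of_eq (by ring))⟩
  · intro c hc c' hc' hcc
    simp only [Prod.mk.injEq] at hcc
    obtain ⟨k1, k2⟩ := hcc
    obtain ⟨_, _, _, _, _, _, _, e1, e2⟩ := ht c hc
    obtain ⟨_, _, _, _, _, _, _, e1', e2'⟩ := ht c' hc'
    rw [k1] at e1 e2
    have k3 : c.1 = c'.1 := by rw [e1, e1']
    have k4 : c.2 ^ 2 = c'.2 ^ 2 := by rw [e2, e2']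
    have k5 : c.2 = c'.2 := by
      rw [decide_eq_decide] at k2
      rcases sq_eq_sq_iff_eq_or_eq_neg.mp k4 with h | h
      · exact h
      · omega
    exact Prod.ext k3 k5
  · intro c hc
    obtain ⟨_, _, _, h5, h6, _⟩ := ht c hc
    exact ⟨h5, h6⟩
  · intro s S hS
    set w : ℕ × ℕ → ℕ := fun x => (H (sg s.1 * (x.1 : ℤ)) (sg s.2 * (x.2 : ℤ))).natAbs with hw
    have h := hmain ⌊Y ^ κ⌋₊ 4 Y S (fun x => x.1) (fun x => x.2) w hZ1 hY ?_ ?_ ?_ ?_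
    · refine h.trans ?_
      have h1 : Y ^ (2 / 3 + ε) = Y ^ ε * Y ^ (2 / 3 : ℝ) := by
        rw [← Real.rpow_add hY0]
        congr 1
        ring
      rw [h1]
      push_cast
      calc C1 * 4 * ((⌊Y ^ κ⌋₊ : ℕ) : ℝ) ^ σ * Y ^ (2 / 3 : ℝ) ≤ C1 * 4 * Y ^ ε * Y ^ (2 / 3 : ℝ) := by
            gcongr
        _ = 4 * C1 * (Y ^ ε * Y ^ (2 / 3 : ℝ)) := by ring
    · intro x hx
      obtain ⟨c, hc, k1, k2⟩ := hS x hx
      obtain ⟨g1, g2, g3, g4, g5, g6, g7, _⟩ := ht c hc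
      have a1 : (t c).1.natAbs = x.1 := by
        rw [k1, Int.natAbs_mul, sg_abs, one_mul, Int.natAbs_natCast]
      have a2 : (t c).2.natAbs = x.2 := by
        rw [k2, Int.natAbs_mul, sg_abs, one_mul, Int.natAbs_natCast]
      have a3 : (H (t c).1 (t c).2).natAbs = w x := by
        rw [hw, k1, k2]
      rw [a1] at g4 g7
      rw [a2] at g5 g7
      rw [a3] at g6 g7
      refine ⟨?_, g4, ?_, g5, ?_, g6, g7⟩
      · rw [← a1]; exact Int.natAbs_pos.mpr g1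
      · rw [← a2]; exact Int.natAbs_pos.mpr g2
      · rw [← a3]; exact Int.natAbs_pos.mpr g3
    · intro i j
      refine le_trans ?_ (by norm_num : 1 ≤ 4)
      rw [Finset.card_le_one]
      intro x hx y hy
      rw [Finset.mem_filter] at hx hy
      exact Prod.ext (hx.2.1.trans hy.2.1.symm) (hx.2.2.trans hy.2.2.symm)
    · intro i j
      apply h1 s i j
      intro x hx
      rw [Finset.mem_filter] at hx
      exact hx.2
    · intro i j
      apply h2 s i j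
      intro x hx
      rw [Finset.mem_filter] at hx
      exact hx.2

end Th

open Th in
/-- Semistable curves with a rational point of order five. -/
theorem torSet_five (κ ε : ℝ) (hκ : 0 < κ) (hε : 0 < ε) : ∃ C : ℝ, 0 < C ∧ ∀ Y : ℝ, 1 ≤ Y →
    (torSet 5 Y κ).Finite ∧ ((torSet 5 Y κ).ncard : ℝ) ≤ C * Y ^ (2 / 3 + ε) := by
  apply three_factors 5 C45 (fun a b => (a * b) ^ 5 * Q5 a b) Q5 ?_ ?_ ?_ κ ε hκ hε
  · rintro W hΔ hc ⟨P, hP⟩
    obtain ⟨a, b, hab, e1, e2⟩ := param5 W hΔ hc P hP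
    refine ⟨a, b, e1, e2, ?_, ?_, ?_, hab, ?_, ?_⟩
    · rw [e2]; exact Dvd.dvd.mul_right (dvd_pow (dvd_mul_right _ _) (by norm_num)) _
    · rw [e2]; exact Dvd.dvd.mul_right (dvd_pow (dvd_mul_left _ _) (by norm_num)) _
    · rw [e2]; exact dvd_mul_left _ _
    · have h : Q5 a b = -b ^ 2 + a * (a - 11 * b) := by unfold Q5; ring
      rw [h]
      exact IsCoprime.add_mul_left_right ((hab.pow_right (n := 2)).neg_right) _
    · have h : Q5 a b = a ^ 2 + b * (-(11 * a) - b) := by unfold Q5; ring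
      rw [h]
      exact IsCoprime.add_mul_left_right (hab.symm.pow_right (n := 2)) _
  · intro s i j F hF
    apply card_le_four F (fun x => Q5 (sg s.1 * (x.1 : ℤ)) (sg s.2 * (x.2 : ℤ))) j
      (fun x hx => (hF x hx).2)
    intro x hx y hy z hz hxy hxz
    have a1 := (hF x hx).1
    have a2 := (hF y hy).1
    have a3 := (hF z hz).1
    simp only [Q5] at hxy hxz
    rw [a1] at hxy hxz
    rw [a2] at hxy
    rw [a3] at hxz
    by_contra hcon
    push Not at hcon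
    obtain ⟨c1, c2, c3⟩ := hcon
    have d1 : (x.2 : ℤ) ≠ y.2 := fun h => c1 (Prod.ext (a1.trans a2.symm) (by exact_mod_cast h))
    have d2 : (x.2 : ℤ) ≠ z.2 := fun h => c2 (Prod.ext (a1.trans a3.symm) (by exact_mod_cast h))
    have d3 : (y.2 : ℤ) ≠ z.2 := fun h => c3 (Prod.ext (a2.trans a3.symm) (by exact_mod_cast h))
    have hs2 : sg s.2 ^ 2 = 1 := by rcases s.2 <;> simp [sg]
    have f1 : ((x.2 : ℤ) - y.2) * (11 * (sg s.1 * i) * sg s.2 + (x.2 + y.2)) = 0 := by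
      linear_combination -hxy - ((x.2 : ℤ) ^ 2 - (y.2 : ℤ) ^ 2) * hs2
    have f2 : ((x.2 : ℤ) - z.2) * (11 * (sg s.1 * i) * sg s.2 + (x.2 + z.2)) = 0 := by
      linear_combination -hxz - ((x.2 : ℤ) ^ 2 - (z.2 : ℤ) ^ 2) * hs2
    have g1 := (mul_eq_zero.mp f1).resolve_left (sub_ne_zero.mpr d1)
    have g2 := (mul_eq_zero.mp f2).resolve_left (sub_ne_zero.mpr d2)
    apply d3
    linarith
  · intro s i j F hF
    apply card_le_four F (fun x => Q5 (sg s.1 * (x.1 : ℤ)) (sg s.2 * (x.2 : ℤ))) j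
      (fun x hx => (hF x hx).2)
    intro x hx y hy z hz hxy hxz
    have a1 := (hF x hx).1
    have a2 := (hF y hy).1
    have a3 := (hF z hz).1
    simp only [Q5] at hxy hxz
    rw [a1] at hxy hxz
    rw [a2] at hxy
    rw [a3] at hxz
    by_contra hcon
    push Not at hcon
    obtain ⟨c1, c2, c3⟩ := hcon
    have d1 : (x.1 : ℤ) ≠ y.1 := fun h => c1 (Prod.ext (by exact_mod_cast h) (a1.trans a2.symm))
    have d2 : (x.1 : ℤ) ≠ z.1 := fun h => c2 (Prod.ext (by exact_mod_cast h) (a1.trans a3.symm))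
    have d3 : (y.1 : ℤ) ≠ z.1 := fun h => c3 (Prod.ext (by exact_mod_cast h) (a2.trans a3.symm))
    have hs1 : sg s.1 ^ 2 = 1 := by rcases s.1 <;> simp [sg]
    have f1 : ((x.1 : ℤ) - y.1) * ((x.1 + y.1) - 11 * (sg s.2 * i) * sg s.1) = 0 := by
      linear_combination hxy - ((x.1 : ℤ) ^ 2 - (y.1 : ℤ) ^ 2) * hs1
    have f2 : ((x.1 : ℤ) - z.1) * ((x.1 + z.1) - 11 * (sg s.2 * i) * sg s.1) = 0 := by
      linear_combination hxz - ((x.1 : ℤ) ^ 2 - (z.1 : ℤ) ^ 2) * hs1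
    have g1 := (mul_eq_zero.mp f1).resolve_left (sub_ne_zero.mpr d1)
    have g2 := (mul_eq_zero.mp f2).resolve_left (sub_ne_zero.mpr d2)
    apply d3
    linarith

open Th in
/-- Semistable curves with a rational point of order seven. -/
theorem torSet_seven (κ ε : ℝ) (hκ : 0 < κ) (hε : 0 < ε) : ∃ C : ℝ, 0 < C ∧ ∀ Y : ℝ, 1 ≤ Y →
    (torSet 7 Y κ).Finite ∧ ((torSet 7 Y κ).ncard : ℝ) ≤ C * Y ^ (2 / 3 + ε) := by
  apply three_factors 7 C47 (fun a b => (a * b * (a - b)) ^ 7 * cub7 a b) (fun a b => a - b)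
    ?_ ?_ ?_ κ ε hκ hε
  · rintro W hΔ hc ⟨P, hP⟩
    obtain ⟨a, b, hab, e1, e2⟩ := param7 W hΔ hc P hP
    refine ⟨a, b, e1, e2, ?_, ?_, ?_, hab, ?_, ?_⟩
    · rw [e2]
      exact Dvd.dvd.mul_right (dvd_pow (Dvd.dvd.mul_right (dvd_mul_right _ _) _) (by norm_num)) _
    · rw [e2]
      exact Dvd.dvd.mul_right (dvd_pow (Dvd.dvd.mul_right (dvd_mul_left _ _) _) (by norm_num)) _
    · rw [e2]
      exact Dvd.dvd.mul_right (dvd_pow (dvd_mul_left _ _) (by norm_num)) _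
    · have h : a - b = -b + a * 1 := by ring
      rw [h]
      exact IsCoprime.add_mul_left_right hab.neg_right _
    · have h : a - b = a + b * (-1) := by ring
      rw [h]
      exact IsCoprime.add_mul_left_right hab.symm _
  · intro s i j F hF
    apply card_le_four F (fun x => sg s.1 * (x.1 : ℤ) - sg s.2 * (x.2 : ℤ)) j
      (fun x hx => (hF x hx).2)
    intro x hx y hy z hz hxy hxz
    left
    have a1 := (hF x hx).1
    have a2 := (hF y hy).1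
    rw [a1, a2] at hxy
    have h : sg s.2 * (x.2 : ℤ) = sg s.2 * (y.2 : ℤ) := by linarith
    have h' := mul_left_cancel₀ (sg_ne _) h
    exact Prod.ext (a1.trans a2.symm) (by exact_mod_cast h')
  · intro s i j F hF
    apply card_le_four F (fun x => sg s.1 * (x.1 : ℤ) - sg s.2 * (x.2 : ℤ)) j
      (fun x hx => (hF x hx).2)
    intro x hx y hy z hz hxy hxz
    left
    have a1 := (hF x hx).1
    have a2 := (hF y hy).1
    rw [a1, a2] at hxy
    have h : sg s.1 * (x.1 : ℤ) = sg s.1 * (y.1 : ℤ) := by linarith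
    have h' := mul_left_cancel₀ (sg_ne _) h
    exact Prod.ext (by exact_mod_cast h') (a1.trans a2.symm)

end Pool.Agent.Lib.MP_d8bd92_nt
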