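import Pool.Agent.Lib.MP_d8bd92_nt.BgH
import Pool.Agent.Lib.MP_d8bd92_nt.ThG
import Pool.Agent.Lib.MP_d8bd92_nt.SqE1

set_option autoImplicit false

/-!
Semistable curves with a rational point of prime order at least eleven are rare.
-/

namespace Pool.Agent.Lib.MP_d8bd92_nt

open Finset Pool.Agent.Lib.Szpiro Pool.Agent.Lib.SqPart WeierstrassCurve WeierstrassCurve.Affine

/-- the invariants of the semistable curves with a rational point of prime order at least `11` -/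
def bigSet (Y κ : ℝ) : Set (ℤ × ℤ) :=
  {c | ∃ W : WeierstrassCurve ℤ, W.c₄ = c.1 ∧ W.c₆ = c.2 ∧ W.Δ ≠ 0 ∧ IsCoprime W.c₄ W.Δ ∧
    (∃ P : (W.baseChange ℚ).toAffine.Point, ∃ l : ℕ, l.Prime ∧ 11 ≤ l ∧ addOrderOf P = l) ∧
    ((rd W.Δ.natAbs : ℕ) : ℝ) ≤ Y ∧ ((W.Δ.natAbs : ℕ) : ℝ) ≤ Y ^ κ}

namespace Th

/-- pairs `(a, b)` with `rd a * rd b * rd |± a ± b| ≤ Y` -/
theorem abc_pairs (σ : ℝ) (hσ : 0 < σ) : ∃ C : ℝ, 1 ≤ C ∧ ∀ (Z : ℕ) (Y : ℝ) (s : Bool × Bool)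
    (F : Finset (ℕ × ℕ)), 1 ≤ Z → 1 ≤ Y →
    (∀ x ∈ F, 1 ≤ x.1 ∧ x.1 ≤ Z ∧ 1 ≤ x.2 ∧ x.2 ≤ Z ∧
      1 ≤ (sg s.1 * (x.1 : ℤ) + sg s.2 * (x.2 : ℤ)).natAbs ∧
      (sg s.1 * (x.1 : ℤ) + sg s.2 * (x.2 : ℤ)).natAbs ≤ Z ∧
      (rd x.1 : ℝ) * rd x.2 * rd (sg s.1 * (x.1 : ℤ) + sg s.2 * (x.2 : ℤ)).natAbs ≤ Y) →
    (F.card : ℝ) ≤ C * (Z : ℝ) ^ σ * Y ^ (2 / 3 : ℝ) := by
  obtain ⟨C, hC, h⟩ := three_count σ hσ
  refine ⟨4 * C, by linarith, ?_⟩
  intro Z Y s F hZ hY hF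
  have key := h Z 4 Y F (fun x => x.1) (fun x => x.2)
    (fun x => (sg s.1 * (x.1 : ℤ) + sg s.2 * (x.2 : ℤ)).natAbs) hZ hY
    (fun x hx => by
      obtain ⟨k1, k2, k3, k4, k5, k6, k7⟩ := hF x hx
      exact ⟨k1, k2, k3, k4, k5, k6, k7⟩) ?_ ?_ ?_
  · refine key.trans (le_of_eq ?_)
    push_cast
    ring
  · intro i j
    refine le_trans ?_ (by norm_num : 1 ≤ 4)
    rw [Finset.card_le_one]
    intro x hx y hy
    rw [Finset.mem_filter] at hx hy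
    exact Prod.ext (hx.2.1.trans hy.2.1.symm) (hx.2.2.trans hy.2.2.symm)
  · intro i j
    apply card_le_four _ (fun x => sg s.1 * (x.1 : ℤ) + sg s.2 * (x.2 : ℤ)) j
      (fun x hx => (Finset.mem_filter.mp hx).2.2)
    intro x hx y hy z hz hxy hxz
    left
    have a1 := (Finset.mem_filter.mp hx).2.1
    have a2 := (Finset.mem_filter.mp hy).2.1
    rw [a1, a2] at hxy
    have h' := mul_left_cancel₀ (sg_ne _) (add_left_cancel hxy)
    exact Prod.ext (a1.trans a2.symm) (by exact_mod_cast h')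
  · intro i j
    apply card_le_four _ (fun x => sg s.1 * (x.1 : ℤ) + sg s.2 * (x.2 : ℤ)) j
      (fun x hx => (Finset.mem_filter.mp hx).2.2)
    intro x hx y hy z hz hxy hxz
    left
    have a1 := (Finset.mem_filter.mp hx).2.1
    have a2 := (Finset.mem_filter.mp hy).2.1
    rw [a1, a2] at hxy
    have h' := mul_left_cancel₀ (sg_ne _) (add_right_cancel hxy)
    exact Prod.ext (by exact_mod_cast h') (a1.trans a2.symm)

end Th

open Th in
/-- Semistable curves with a rational point of prime order at least eleven. -/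
theorem bigSet_few (κ ε : ℝ) (hκ : 0 < κ) (hε : 0 < ε) : ∃ C : ℝ, 0 < C ∧ ∀ Y : ℝ, 1 ≤ Y →
    (bigSet Y κ).Finite ∧ ((bigSet Y κ).ncard : ℝ) ≤ C * Y ^ (2 / 3 + ε) := by
  classical
  obtain ⟨σ, hσ⟩ : ∃ σ : ℝ, σ = ε / (5 * κ) := ⟨_, rfl⟩
  have hσ0 : 0 < σ := by rw [hσ]; positivity
  obtain ⟨C1, hC1, hmain⟩ := abc_pairs σ hσ0
  obtain ⟨C2, hC2, hsm⟩ := e1_card_A σ hσ0
  refine ⟨16 * (C1 * C2 ^ 2), by positivity, ?_⟩
  intro Y hY
  have hY0 : 0 < Y := by linarith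
  obtain ⟨Z, hZ⟩ : ∃ Z : ℕ, Z = ⌊Y ^ κ⌋₊ := ⟨_, rfl⟩
  have hZ1 : 1 ≤ Z := by
    rw [hZ]
    apply Nat.le_floor
    rw [Nat.cast_one]
    exact Real.one_le_rpow hY hκ.le
  have hZR : (Z : ℝ) ≤ Y ^ κ := by rw [hZ]; exact Nat.floor_le (by positivity)
  have hZ0 : (0 : ℝ) < Z := by exact_mod_cast hZ1
  have hpar : ∀ c : ℤ × ℤ, ∃ t : (ℤ × ℤ) × (ℤ × ℤ), c ∈ bigSet Y κ →
      (t.1.1 ≠ 0 ∧ t.1.2 ≠ 0 ∧ t.1.1 + t.1.2 ≠ 0 ∧ t.2.1 ≠ 0 ∧ t.2.2 ≠ 0) ∧
      (t.1.1.natAbs ≤ Z ∧ t.1.2.natAbs ≤ Z ∧ (t.1.1 + t.1.2).natAbs ≤ Z ∧ t.2.1.natAbs ≤ Z ∧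
        t.2.2.natAbs ≤ Z) ∧
      ((rd t.1.1.natAbs : ℕ) : ℝ) * ((rd t.1.2.natAbs : ℕ) : ℝ) *
        ((rd (t.1.1 + t.1.2).natAbs : ℕ) : ℝ) ≤ Y ∧
      rd (t.1.1 * t.1.2 * (t.1.1 + t.1.2)).natAbs ≤ Z ∧
      (∀ p : ℕ, p.Prime → p ∣ t.2.1.natAbs * t.2.2.natAbs →
        p ∣ (t.1.1 * t.1.2 * (t.1.1 + t.1.2)).natAbs) ∧
      c.1 = bgC4 (t.2.1 * t.1.1) t.2.2 (t.2.1 * t.1.2) ∧
      c.2 = bgC6 (t.2.1 * t.1.1) t.2.2 (t.2.1 * t.1.2) := by
    intro c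
    by_cases hc : c ∈ bigSet Y κ
    · obtain ⟨W, h4, h6, hΔ, hss, ⟨P, l, hl, h11, hP⟩, hN, hD⟩ := hc
      obtain ⟨t, d, f, g, e1, e2, e3, e4, e5, e6, e7, e8, e9⟩ := bg_data W hss P l hl h11 hP
      refine ⟨((d, f), (t, g)), fun _ => ?_⟩
      have hnz : ∀ x : ℤ, x ∣ W.Δ → x ≠ 0 := by
        rintro x hx rfl
        exact hΔ (zero_dvd_iff.mp hx)
      have hfl : ∀ x : ℤ, x ∣ W.Δ → x.natAbs ≤ Z := by
        intro x hx
        rw [hZ]
        apply Nat.le_floor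
        refine le_trans ?_ hD
        exact_mod_cast Nat.le_of_dvd (Int.natAbs_pos.mpr hΔ) (Int.natAbs_dvd_natAbs.mpr hx)
      have c1 : IsCoprime d (d + f) := by
        have := e8.add_mul_left_right 1
        rw [mul_one] at this
        rw [add_comm]
        exact this
      have c2 : IsCoprime f (d + f) := by
        have := e8.symm.add_mul_left_right 1
        rw [mul_one] at this
        exact this
      refine ⟨⟨hnz _ e5, hnz _ e6, hnz _ e7, hnz _ e3, hnz _ e4⟩,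
        ⟨hfl _ e5, hfl _ e6, hfl _ e7, hfl _ e3, hfl _ e4⟩, ?_, ?_, ?_, ?_, ?_⟩
      · have h7 := rd_three d.natAbs f.natAbs (d + f).natAbs W.Δ.natAbs (Int.natAbs_ne_zero.mpr hΔ)
          (Int.natAbs_dvd_natAbs.mpr e5) (Int.natAbs_dvd_natAbs.mpr e6)
          (Int.natAbs_dvd_natAbs.mpr e7) (Int.isCoprime_iff_nat_coprime.mp e8)
          (Int.isCoprime_iff_nat_coprime.mp c1) (Int.isCoprime_iff_nat_coprime.mp c2)
        refine le_trans ?_ hN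
        exact_mod_cast h7
      · have h8 : (d * f * (d + f)) ∣ W.Δ := by
          have h9 : d * f ∣ W.Δ := e8.mul_dvd e5 e6
          exact (IsCoprime.mul_left c1 c2).mul_dvd h9 e7
        have h9 : rd (d * f * (d + f)).natAbs ≤ (d * f * (d + f)).natAbs :=
          rd_le (Int.natAbs_ne_zero.mpr (hnz _ h8))
        exact h9.trans (hfl _ h8)
      · intro p hp hpd
        have h1 : (p : ℤ) ∣ t * g := by
          rw [← Int.natAbs_mul] at hpd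
          exact Int.natCast_dvd.mpr hpd
        exact Int.natCast_dvd.mp (e9 p (Nat.prime_iff_prime_int.mp hp) h1)
      · rw [← h4, e1]
      · rw [← h6, e2]
    · exact ⟨0, fun h => absurd h hc⟩
  choose t ht using hpar
  have hfin : (bigSet Y κ).Finite := by
    apply Set.Finite.of_finite_image (f := t)
    · apply Set.Finite.subset (Finset.finite_toSet
        (((Finset.Icc (-(Z : ℤ)) Z) ×ˢ (Finset.Icc (-(Z : ℤ)) Z)) ×ˢ
          ((Finset.Icc (-(Z : ℤ)) Z) ×ˢ (Finset.Icc (-(Z : ℤ)) Z))))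
      rintro w ⟨c, hc, rfl⟩
      obtain ⟨_, ⟨h1, h2, _, h4, h5⟩, _⟩ := ht c hc
      simp only [Finset.mem_coe, Finset.mem_product, Finset.mem_Icc]
      refine ⟨⟨?_, ?_⟩, ⟨?_, ?_⟩⟩ <;> constructor <;> omega
    · intro c hc c' hc' hcc
      obtain ⟨_, _, _, _, _, e1, e2⟩ := ht c hc
      obtain ⟨_, _, _, _, _, e1', e2'⟩ := ht c' hc'
      rw [hcc] at e1 e2
      exact Prod.ext (e1.trans e1'.symm) (e2.trans e2'.symm)
  refine ⟨hfin, ?_⟩
  rw [Set.ncard_eq_toFinset_card _ hfin]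
  set F : Finset (ℤ × ℤ) := hfin.toFinset with hF
  have hFmem : ∀ c ∈ F, c ∈ bigSet Y κ := fun c hc => (Set.Finite.mem_toFinset hfin).mp hc
  set sgn : ℤ × ℤ → (Bool × Bool) × (Bool × Bool) := fun c =>
    ((decide (0 ≤ (t c).1.1), decide (0 ≤ (t c).1.2)),
      (decide (0 ≤ (t c).2.1), decide (0 ≤ (t c).2.2))) with hsg
  obtain ⟨N, hN⟩ : ∃ N : ℝ, N = (C1 * (Z : ℝ) ^ σ * Y ^ (2 / 3 : ℝ)) * (C2 * (Z : ℝ) ^ (2 * σ)) ^ 2 :=
    ⟨_, rfl⟩
  have hsum : F.card = ∑ s : (Bool × Bool) × (Bool × Bool), (F.filter (fun c => sgn c = s)).card :=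
    Finset.card_eq_sum_card_fiberwise (fun c _ => Finset.mem_univ _)
  have hfib : ∀ s : (Bool × Bool) × (Bool × Bool), ((F.filter (fun c => sgn c = s)).card : ℝ) ≤ N := by
    intro s
    set G := F.filter (fun c => sgn c = s) with hG
    have hGmem : ∀ c ∈ G, c ∈ bigSet Y κ ∧ (t c).1.1 = sg s.1.1 * ((t c).1.1.natAbs : ℤ) ∧
        (t c).1.2 = sg s.1.2 * ((t c).1.2.natAbs : ℤ) ∧
        (t c).2.1 = sg s.2.1 * ((t c).2.1.natAbs : ℤ) ∧
        (t c).2.2 = sg s.2.2 * ((t c).2.2.natAbs : ℤ) := by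
      intro c hc
      rw [hG, Finset.mem_filter] at hc
      have h1 := hc.2
      rw [hsg] at h1
      simp only at h1
      rw [← h1]
      exact ⟨hFmem c hc.1, sg_natAbs _, sg_natAbs _, sg_natAbs _, sg_natAbs _⟩
    set q : ℤ × ℤ → ℕ × ℕ := fun c => ((t c).1.1.natAbs, (t c).1.2.natAbs) with hq
    have himg : ((G.image q).card : ℝ) ≤ C1 * (Z : ℝ) ^ σ * Y ^ (2 / 3 : ℝ) := by
      apply hmain Z Y s.1 (G.image q) hZ1 hY
      intro x hx
      rw [Finset.mem_image] at hx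
      obtain ⟨c, hc, rfl⟩ := hx
      obtain ⟨k1, k2, k3, k4, k5⟩ := hGmem c hc
      obtain ⟨⟨a1, a2, a3, a4, a5⟩, ⟨b1, b2, b3, b4, b5⟩, c1, _⟩ := ht c k1
      simp only [hq]
      rw [← k2, ← k3]
      exact ⟨Int.natAbs_pos.mpr a1, b1, Int.natAbs_pos.mpr a2, b2, Int.natAbs_pos.mpr a3, b3, c1⟩
    have hfiber : ∀ x ∈ G.image q, ((G.filter (fun c => q c = x)).card : ℝ) ≤
        (C2 * (Z : ℝ) ^ (2 * σ)) ^ 2 := by
      intro x hx
      rw [Finset.mem_image] at hx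
      obtain ⟨c0, hc0, rfl⟩ := hx
      obtain ⟨M, hM⟩ : ∃ M : ℕ, M = rd ((t c0).1.1 * (t c0).1.2 * ((t c0).1.1 + (t c0).1.2)).natAbs :=
        ⟨_, rfl⟩
      have hfix : ∀ c ∈ G.filter (fun c => q c = q c0), c ∈ bigSet Y κ ∧ (t c).1 = (t c0).1 := by
        intro c hc
        rw [Finset.mem_filter] at hc
        obtain ⟨k1, k2, k3, k4, k5⟩ := hGmem c hc.1
        obtain ⟨k1', k2', k3', k4', k5'⟩ := hGmem c0 hc0
        have h1 := hc.2
        simp only [hq, Prod.mk.injEq] at h1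
        refine ⟨k1, Prod.ext ?_ ?_⟩
        · rw [k2, k2', h1.1]
        · rw [k3, k3', h1.2]
      have hM0 : ((t c0).1.1 * (t c0).1.2 * ((t c0).1.1 + (t c0).1.2)).natAbs ≠ 0 := by
        obtain ⟨⟨a1, a2, a3, a4, a5⟩, _⟩ := ht c0 (hGmem c0 hc0).1
        exact Int.natAbs_ne_zero.mpr (mul_ne_zero (mul_ne_zero a1 a2) a3)
      have hMZ : M ≤ Z := by
        obtain ⟨_, _, _, a, _⟩ := ht c0 (hGmem c0 hc0).1
        rw [hM]; exact a
      have hM1 : 1 ≤ M := by rw [hM]; exact rd_pos _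
      have hMp : M.primeFactors =
          ((t c0).1.1 * (t c0).1.2 * ((t c0).1.1 + (t c0).1.2)).natAbs.primeFactors := by
        rw [hM]
        unfold rd
        exact Nat.primeFactors_prod (fun p hp => Nat.prime_of_mem_primeFactors hp)
      have hcard : (G.filter (fun c => q c = q c0)).card ≤ ((e1A Z M) ×ˢ (e1A Z M)).card := by
        apply Finset.card_le_card_of_injOn (fun c => ((t c).2.1.natAbs, (t c).2.2.natAbs))
        · intro c hc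
          obtain ⟨k1, k2⟩ := hfix c hc
          obtain ⟨⟨a1, a2, a3, a4, a5⟩, ⟨b1, b2, b3, b4, b5⟩, _, _, c2, _⟩ := ht c k1
          rw [k2] at c2
          simp only [Finset.coe_product, Set.mem_prod, Finset.mem_coe, e1A, Finset.mem_filter,
            Finset.mem_Icc]
          refine ⟨⟨⟨Int.natAbs_pos.mpr a4, b4⟩, ?_⟩, ⟨⟨Int.natAbs_pos.mpr a5, b5⟩, ?_⟩⟩
          · intro p hp
            rw [hMp, Nat.mem_primeFactors]
            have hp' := Nat.mem_primeFactors.mp hp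
            exact ⟨hp'.1, c2 p hp'.1 (Dvd.dvd.mul_right hp'.2.1 _), hM0⟩
          · intro p hp
            rw [hMp, Nat.mem_primeFactors]
            have hp' := Nat.mem_primeFactors.mp hp
            exact ⟨hp'.1, c2 p hp'.1 (Dvd.dvd.mul_left hp'.2.1 _), hM0⟩
        · intro c hc c' hc' hcc
          simp only [Prod.mk.injEq] at hcc
          have hc1 := Finset.mem_coe.mp hc
          have hc1' := Finset.mem_coe.mp hc'
          obtain ⟨k1, k2⟩ := hfix c hc1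
          obtain ⟨k1', k2'⟩ := hfix c' hc1'
          obtain ⟨_, _, _, m4, m5⟩ := hGmem c (Finset.mem_filter.mp hc1).1
          obtain ⟨_, _, _, m4', m5'⟩ := hGmem c' (Finset.mem_filter.mp hc1').1
          have q1 : (t c).2.1 = (t c').2.1 := by rw [m4, m4', hcc.1]
          have q2 : (t c).2.2 = (t c').2.2 := by rw [m5, m5', hcc.2]
          obtain ⟨_, _, _, _, _, e1, e2⟩ := ht c k1
          obtain ⟨_, _, _, _, _, e1', e2'⟩ := ht c' k1'
          rw [k2, q1, q2] at e1 e2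
          rw [k2'] at e1' e2'
          exact Prod.ext (e1.trans e1'.symm) (e2.trans e2'.symm)
      have h1 := hsm Z M hM1 hMZ
      calc ((G.filter (fun c => q c = q c0)).card : ℝ) ≤ (((e1A Z M) ×ˢ (e1A Z M)).card : ℝ) := by
            exact_mod_cast hcard
        _ = ((e1A Z M).card : ℝ) ^ 2 := by rw [Finset.card_product]; push_cast; ring
        _ ≤ (C2 * (Z : ℝ) ^ (2 * σ)) ^ 2 := pow_le_pow_left₀ (by positivity) h1 2
    have hGsum : (G.card : ℝ) = ∑ x ∈ G.image q, ((G.filter (fun c => q c = x)).card : ℝ) := by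
      exact_mod_cast Finset.card_eq_sum_card_image q G
    rw [hGsum, hN]
    calc ∑ x ∈ G.image q, ((G.filter (fun c => q c = x)).card : ℝ)
        ≤ ∑ _x ∈ G.image q, (C2 * (Z : ℝ) ^ (2 * σ)) ^ 2 := Finset.sum_le_sum hfiber
      _ = ((G.image q).card : ℝ) * (C2 * (Z : ℝ) ^ (2 * σ)) ^ 2 := by
          rw [Finset.sum_const, nsmul_eq_mul]
      _ ≤ (C1 * (Z : ℝ) ^ σ * Y ^ (2 / 3 : ℝ)) * (C2 * (Z : ℝ) ^ (2 * σ)) ^ 2 :=
          mul_le_mul_of_nonneg_right himg (by positivity)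
  have hNle : N ≤ C1 * C2 ^ 2 * Y ^ (2 / 3 + ε) := by
    have h1 : N = C1 * C2 ^ 2 * ((Z : ℝ) ^ (5 * σ) * Y ^ (2 / 3 : ℝ)) := by
      rw [hN, mul_pow, ← Real.rpow_natCast ((Z : ℝ) ^ (2 * σ)) 2, ← Real.rpow_mul hZ0.le]
      have : (Z : ℝ) ^ (5 * σ) = (Z : ℝ) ^ σ * (Z : ℝ) ^ (2 * σ * ((2 : ℕ) : ℝ)) := by
        rw [← Real.rpow_add hZ0]
        congr 1
        push_cast
        ring
      rw [this]
      ring
    have h2 : (Z : ℝ) ^ (5 * σ) ≤ Y ^ ε := by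
      calc (Z : ℝ) ^ (5 * σ) ≤ (Y ^ κ) ^ (5 * σ) := Real.rpow_le_rpow hZ0.le hZR (by positivity)
        _ = Y ^ ε := by
            rw [← Real.rpow_mul hY0.le, hσ]
            congr 1
            field_simp
    have h3 : Y ^ (2 / 3 + ε) = Y ^ ε * Y ^ (2 / 3 : ℝ) := by
      rw [← Real.rpow_add hY0]
      congr 1
      ring
    rw [h1, h3]
    have h4 : 0 ≤ C1 * C2 ^ 2 := by positivity
    apply mul_le_mul_of_nonneg_left _ h4
    exact mul_le_mul_of_nonneg_right h2 (by positivity)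
  calc (F.card : ℝ) = ∑ s : (Bool × Bool) × (Bool × Bool),
        ((F.filter (fun c => sgn c = s)).card : ℝ) := by
        rw [hsum]; push_cast; rfl
    _ ≤ ∑ _s : (Bool × Bool) × (Bool × Bool), N := Finset.sum_le_sum (fun s _ => hfib s)
    _ = 16 * N := by
        rw [Finset.sum_const, nsmul_eq_mul, Finset.card_univ]
        simp only [Fintype.card_prod, Fintype.card_bool]
        norm_num
    _ ≤ 16 * (C1 * C2 ^ 2 * Y ^ (2 / 3 + ε)) := by linarith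
    _ = 16 * (C1 * C2 ^ 2) * Y ^ (2 / 3 + ε) := by ring

end Pool.Agent.Lib.MP_d8bd92_nt
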