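import Pool.Agent.Lib.MP_d8bd92_nt.CdDefs

set_option autoImplicit false

/-!
Row A: counting integers with small radical, and the divisor bound.
-/

namespace Pool.Agent.Lib.MP_d8bd92_nt

open Finset Pool.Agent.Lib.Szpiro

/-- `#{n ≤ Z : rad n ≤ r} ≤ C Z^σ r` -/
theorem card_rd_le (σ : ℝ) (hσ : 0 < σ) : ∃ C : ℝ, 1 ≤ C ∧ ∀ (Z : ℕ) (r : ℝ), 1 ≤ Z → 0 ≤ r →
    (((Icc 1 Z).filter (fun n => (rd n : ℝ) ≤ r)).card : ℝ) ≤ C * (Z : ℝ) ^ σ * r := by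
  obtain ⟨C, hC1, hC⟩ := sum_inv_rd σ hσ
  refine ⟨C, hC1, fun Z r hZ hr => ?_⟩
  have h1 : (((Icc 1 Z).filter (fun n => (rd n : ℝ) ≤ r)).card : ℝ) ≤
      ∑ n ∈ (Icc 1 Z).filter (fun n => (rd n : ℝ) ≤ r), r * ((rd n : ℝ))⁻¹ := by
    rw [Finset.card_eq_sum_ones, Nat.cast_sum]
    apply Finset.sum_le_sum
    intro n hn
    rw [Finset.mem_filter] at hn
    have h2 : (0 : ℝ) < rd n := by exact_mod_cast rd_pos n
    rw [Nat.cast_one, ← div_eq_mul_inv, le_div_iff₀ h2, one_mul]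
    exact hn.2
  have h3 : ∑ n ∈ (Icc 1 Z).filter (fun n => (rd n : ℝ) ≤ r), r * ((rd n : ℝ))⁻¹ ≤
      ∑ n ∈ Icc 1 Z, r * ((rd n : ℝ))⁻¹ :=
    Finset.sum_le_sum_of_subset_of_nonneg (Finset.filter_subset _ _) fun n _ _ => by positivity
  have h4 := hC Z hZ
  calc (((Icc 1 Z).filter (fun n => (rd n : ℝ) ≤ r)).card : ℝ)
      ≤ r * ∑ n ∈ Icc 1 Z, ((rd n : ℝ))⁻¹ := by rw [Finset.mul_sum]; exact h1.trans h3
    _ ≤ r * (C * (Z : ℝ) ^ σ) := mul_le_mul_of_nonneg_left h4 hr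
    _ = C * (Z : ℝ) ^ σ * r := by ring

/-- `#{(m, n) : m, n ≤ Z, rad m rad n ≤ Q} ≤ C Z^σ Q` -/
theorem card_pair_rd_le (σ : ℝ) (hσ : 0 < σ) : ∃ C : ℝ, 1 ≤ C ∧ ∀ (Z : ℕ) (Q : ℝ), 1 ≤ Z → 0 ≤ Q →
    (((Icc 1 Z ×ˢ Icc 1 Z).filter (fun q : ℕ × ℕ => (rd q.1 : ℝ) * rd q.2 ≤ Q)).card : ℝ) ≤
      C * (Z : ℝ) ^ σ * Q := by
  obtain ⟨C, hC1, hC⟩ := sum_inv_rd (σ / 2) (by positivity)
  refine ⟨C ^ 2, one_le_pow₀ hC1, fun Z Q hZ hQ => ?_⟩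
  have hZ0 : (0 : ℝ) < (Z : ℝ) := by exact_mod_cast hZ
  have h1 : (((Icc 1 Z ×ˢ Icc 1 Z).filter
      (fun q : ℕ × ℕ => (rd q.1 : ℝ) * rd q.2 ≤ Q)).card : ℝ) ≤
      ∑ q ∈ (Icc 1 Z ×ˢ Icc 1 Z).filter (fun q : ℕ × ℕ => (rd q.1 : ℝ) * rd q.2 ≤ Q),
        Q * (((rd q.1 : ℝ))⁻¹ * ((rd q.2 : ℝ))⁻¹) := by
    rw [Finset.card_eq_sum_ones, Nat.cast_sum]
    apply Finset.sum_le_sum
    intro q hq
    rw [Finset.mem_filter] at hq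
    have h2 : (0 : ℝ) < rd q.1 := by exact_mod_cast rd_pos q.1
    have h3 : (0 : ℝ) < rd q.2 := by exact_mod_cast rd_pos q.2
    rw [Nat.cast_one, ← mul_inv, ← div_eq_mul_inv, le_div_iff₀ (by positivity), one_mul]
    exact hq.2
  have h3 : ∑ q ∈ (Icc 1 Z ×ˢ Icc 1 Z).filter (fun q : ℕ × ℕ => (rd q.1 : ℝ) * rd q.2 ≤ Q),
        Q * (((rd q.1 : ℝ))⁻¹ * ((rd q.2 : ℝ))⁻¹) ≤
      ∑ q ∈ Icc 1 Z ×ˢ Icc 1 Z, Q * (((rd q.1 : ℝ))⁻¹ * ((rd q.2 : ℝ))⁻¹) :=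
    Finset.sum_le_sum_of_subset_of_nonneg (Finset.filter_subset _ _) fun q _ _ => by positivity
  have h4 : ∑ q ∈ Icc 1 Z ×ˢ Icc 1 Z, Q * (((rd q.1 : ℝ))⁻¹ * ((rd q.2 : ℝ))⁻¹) =
      Q * ((∑ n ∈ Icc 1 Z, ((rd n : ℝ))⁻¹) * ∑ n ∈ Icc 1 Z, ((rd n : ℝ))⁻¹) := by
    rw [Finset.sum_mul_sum, ← Finset.sum_product', Finset.mul_sum]
  have h5 := hC Z hZ
  have h6 : (0 : ℝ) ≤ ∑ n ∈ Icc 1 Z, ((rd n : ℝ))⁻¹ := Finset.sum_nonneg fun n _ => by positivity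
  have h7 : (Z : ℝ) ^ (σ / 2) * (Z : ℝ) ^ (σ / 2) = (Z : ℝ) ^ σ := by
    rw [← Real.rpow_add hZ0]
    congr 1
    ring
  calc (((Icc 1 Z ×ˢ Icc 1 Z).filter (fun q : ℕ × ℕ => (rd q.1 : ℝ) * rd q.2 ≤ Q)).card : ℝ)
      ≤ Q * ((∑ n ∈ Icc 1 Z, ((rd n : ℝ))⁻¹) * ∑ n ∈ Icc 1 Z, ((rd n : ℝ))⁻¹) := by
        rw [← h4]; exact h1.trans h3
    _ ≤ Q * ((C * (Z : ℝ) ^ (σ / 2)) * (C * (Z : ℝ) ^ (σ / 2))) := by
        apply mul_le_mul_of_nonneg_left _ hQ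
        exact mul_le_mul h5 h5 h6 (h6.trans h5)
    _ = C ^ 2 * ((Z : ℝ) ^ (σ / 2) * (Z : ℝ) ^ (σ / 2)) * Q := by ring
    _ = C ^ 2 * (Z : ℝ) ^ σ * Q := by rw [h7]

/-- the divisor bound -/
theorem card_divisors_le_rpow (σ : ℝ) (hσ : 0 < σ) : ∃ C : ℝ, 1 ≤ C ∧ ∀ n : ℕ, n ≠ 0 →
    ((n.divisors.card : ℕ) : ℝ) ≤ C * (n : ℝ) ^ σ := by
  have hl2 : 0 < Real.log 2 := Real.log_pos (by norm_num)
  set A : ℝ := max 1 (1 / (σ * Real.log 2)) with hA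
  have hA1 : 1 ≤ A := le_max_left _ _
  have hA2 : 1 ≤ A * (σ * Real.log 2) := by
    have h : 1 / (σ * Real.log 2) ≤ A := le_max_right _ _
    rwa [div_le_iff₀ (by positivity)] at h
  set P0 : ℕ := ⌈(2 : ℝ) ^ (1 / σ)⌉₊ with hP0
  -- small primes
  have hsmall : ∀ p : ℕ, p.Prime → ∀ k : ℕ, ((k + 1 : ℕ) : ℝ) ≤ A * ((p : ℝ) ^ k) ^ σ := by
    intro p hp k
    have hp2 : (2 : ℝ) ≤ p := by exact_mod_cast hp.two_le
    have h1 : ((2 : ℝ) ^ k) ^ σ ≤ ((p : ℝ) ^ k) ^ σ :=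
      Real.rpow_le_rpow (by positivity) (pow_le_pow_left₀ (by norm_num) hp2 k) hσ.le
    have h2 : 1 + k * (σ * Real.log 2) ≤ ((2 : ℝ) ^ k) ^ σ := by
      rw [Real.rpow_def_of_pos (by positivity), Real.log_pow]
      have := Real.add_one_le_exp (k * Real.log 2 * σ)
      linarith
    have h3 : ((k + 1 : ℕ) : ℝ) ≤ A * (1 + k * (σ * Real.log 2)) := by
      push_cast
      have hk : (0 : ℝ) ≤ k := Nat.cast_nonneg _
      nlinarith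
    exact h3.trans (mul_le_mul_of_nonneg_left (h2.trans h1) (by positivity))
  -- large primes
  have hlarge : ∀ p : ℕ, P0 ≤ p → ∀ k : ℕ, ((k + 1 : ℕ) : ℝ) ≤ ((p : ℝ) ^ k) ^ σ := by
    intro p hp k
    have h1 : (2 : ℝ) ^ (1 / σ) ≤ p := (Nat.le_ceil _).trans (by exact_mod_cast hp)
    have h2 : (2 : ℝ) ≤ (p : ℝ) ^ σ := by
      calc (2 : ℝ) = ((2 : ℝ) ^ (1 / σ)) ^ σ := by
            rw [← Real.rpow_mul (by norm_num), one_div_mul_cancel hσ.ne', Real.rpow_one]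
        _ ≤ (p : ℝ) ^ σ := Real.rpow_le_rpow (by positivity) h1 hσ.le
    have h3 : ((p : ℝ) ^ k) ^ σ = ((p : ℝ) ^ σ) ^ k := by
      rw [← Real.rpow_natCast, ← Real.rpow_mul (by positivity), mul_comm,
        Real.rpow_mul (by positivity), Real.rpow_natCast]
    have h4 : k + 1 ≤ 2 ^ k := Nat.lt_two_pow_self
    calc ((k + 1 : ℕ) : ℝ) ≤ (2 : ℝ) ^ k := by exact_mod_cast h4
      _ ≤ ((p : ℝ) ^ σ) ^ k := pow_le_pow_left₀ (by norm_num) h2 k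
      _ = _ := h3.symm
  refine ⟨A ^ P0, one_le_pow₀ hA1, fun n hn => ?_⟩
  rw [Nat.card_divisors hn]
  have hn' : (n : ℝ) = ∏ p ∈ n.primeFactors, (p : ℝ) ^ (n.factorization p) := by
    conv_lhs => rw [← Nat.prod_factorization_pow_eq_self hn]
    rw [Finsupp.prod, Nat.support_factorization]
    push_cast
    rfl
  have hpw : (n : ℝ) ^ σ = ∏ p ∈ n.primeFactors, ((p : ℝ) ^ (n.factorization p)) ^ σ := by
    conv_lhs => rw [hn']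
    rw [Real.finsetProd_rpow _ _ (fun i _ => by positivity)]
  rw [hpw, Nat.cast_prod]
  have hterm : ∀ p ∈ n.primeFactors, ((n.factorization p + 1 : ℕ) : ℝ) ≤
      (if p < P0 then A else 1) * ((p : ℝ) ^ (n.factorization p)) ^ σ := by
    intro p hp
    split_ifs with h
    · exact hsmall p (Nat.prime_of_mem_primeFactors hp) _
    · rw [one_mul]
      exact hlarge p (not_lt.1 h) _
  refine (Finset.prod_le_prod (fun _ _ => Nat.cast_nonneg _) hterm).trans ?_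
  rw [Finset.prod_mul_distrib]
  apply mul_le_mul_of_nonneg_right _ (Finset.prod_nonneg fun _ _ => by positivity)
  rw [Finset.prod_ite, Finset.prod_const, Finset.prod_const_one, mul_one]
  apply pow_le_pow_right₀ hA1
  calc (n.primeFactors.filter (fun p => p < P0)).card ≤ (Finset.range P0).card := by
        apply Finset.card_le_card
        intro p hp
        rw [Finset.mem_filter] at hp
        exact Finset.mem_range.2 hp.2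
    _ = P0 := Finset.card_range _

end Pool.Agent.Lib.MP_d8bd92_nt
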