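import Pool.Agent.Lib.MP_d8bd92_nt.CdDefs

set_option autoImplicit false

/-!
The part of exact exponent `k`.
-/

namespace Pool.Agent.Lib.MP_d8bd92_nt

open Finset Pool.Agent.Lib.Szpiro

theorem xpart_zero (n : ℕ) : xpart n 0 = 1 := by
  unfold xpart
  rw [Finset.filter_false_of_mem, Finset.prod_empty]
  intro p hp h
  have h1 := Nat.mem_primeFactors.1 hp
  have h2 := h1.1.factorization_pos_of_dvd h1.2.2 h1.2.1
  omega

theorem xpart_pos (n k : ℕ) : 0 < xpart n k :=
  Finset.prod_pos fun _ hp => (Nat.prime_of_mem_primeFactors (Finset.mem_filter.1 hp).1).pos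

theorem xpart_squarefree (n k : ℕ) : Squarefree (xpart n k) := by
  unfold xpart
  refine Finset.squarefree_prod_of_pairwise_isCoprime ?_ ?_
  · intro p hp q hq hpq
    have h1 := Nat.prime_of_mem_primeFactors (Finset.mem_filter.1 hp).1
    have h2 := Nat.prime_of_mem_primeFactors (Finset.mem_filter.1 hq).1
    exact (Nat.coprime_iff_isRelPrime.1 ((Nat.coprime_primes h1 h2).2 hpq))
  · intro p hp
    exact (Nat.prime_of_mem_primeFactors (Finset.mem_filter.1 hp).1).prime.squarefree

/-- the product of the prime powers -/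
theorem CdB_prod_pow (n : ℕ) (hn : n ≠ 0) :
    ∏ p ∈ n.primeFactors, p ^ (n.factorization p) = n := by
  have h := Nat.prod_factorization_pow_eq_self hn
  rw [Finsupp.prod, Nat.support_factorization] at h
  exact h

/-- `(xpart n k)^k` divides `n` -/
theorem xpart_pow_dvd (n k : ℕ) : xpart n k ^ k ∣ n := by
  rcases eq_or_ne n 0 with rfl | hn
  · exact dvd_zero _
  · conv_rhs => rw [← CdB_prod_pow n hn]
    unfold xpart
    rw [← Finset.prod_pow]
    have h1 : ∏ p ∈ n.primeFactors.filter (fun p => n.factorization p = k), p ^ k =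
        ∏ p ∈ n.primeFactors.filter (fun p => n.factorization p = k), p ^ n.factorization p := by
      refine Finset.prod_congr rfl (fun p hp => ?_)
      rw [(Finset.mem_filter.1 hp).2]
    rw [h1]
    exact Finset.prod_dvd_prod_of_subset _ _ _ (Finset.filter_subset _ _)

/-- radical of a product of prime powers -/
theorem CdB_rd_prod (s : Finset ℕ) (e : ℕ → ℕ) (hs : ∀ p ∈ s, p.Prime) (he : ∀ p ∈ s, e p ≠ 0) :
    rd (∏ p ∈ s, p ^ e p) = ∏ p ∈ s, p := by
  classical
  induction s using Finset.induction_on with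
  | empty => simp [rd_one]
  | insert q s hq ih =>
    rw [Finset.prod_insert hq, Finset.prod_insert hq]
    have hqp : q.Prime := hs q (Finset.mem_insert_self _ _)
    have hs' : ∀ p ∈ s, p.Prime := fun p hp => hs p (Finset.mem_insert_of_mem hp)
    have he' : ∀ p ∈ s, e p ≠ 0 := fun p hp => he p (Finset.mem_insert_of_mem hp)
    have hcop : Nat.Coprime (q ^ e q) (∏ p ∈ s, p ^ e p) := by
      refine Nat.Coprime.prod_right (fun p hp => ?_)
      refine Nat.Coprime.pow _ _ ((Nat.coprime_primes hqp (hs' p hp)).2 ?_)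
      rintro rfl
      exact hq hp
    rw [rd_mul_coprime _ _ (pow_ne_zero _ hqp.ne_zero)
      (Finset.prod_ne_zero_iff.2 fun p hp => pow_ne_zero _ (hs' p hp).ne_zero) hcop,
      rd_prime_pow _ _ hqp (he q (Finset.mem_insert_self _ _)), ih hs' he']

/-- the complementary part -/
theorem CdB_split (n : ℕ) (hn : n ≠ 0) (S : Finset ℕ) :
    ∃ w : ℕ, w = ∏ p ∈ n.primeFactors.filter (fun p => n.factorization p ∉ S),
        p ^ n.factorization p ∧ w ≠ 0 ∧ n = w * ∏ k ∈ S, xpart n k ^ k ∧
      rd w = ∏ p ∈ n.primeFactors.filter (fun p => n.factorization p ∉ S), p ∧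
      rd n = rd w * ∏ k ∈ S, xpart n k ∧
      (∀ k ∈ S, Nat.Coprime w (xpart n k)) := by
  classical
  have hprime : ∀ p ∈ n.primeFactors, p.Prime := fun p hp => Nat.prime_of_mem_primeFactors hp
  have hfac : ∀ p ∈ n.primeFactors, n.factorization p ≠ 0 := fun p hp => by
    have h1 := Nat.mem_primeFactors.1 hp
    have h2 := h1.1.factorization_pos_of_dvd h1.2.2 h1.2.1
    omega
  refine ⟨_, rfl, ?_, ?_, ?_, ?_, ?_⟩
  · exact Finset.prod_ne_zero_iff.2 fun p hp =>
      pow_ne_zero _ (hprime p (Finset.mem_filter.1 hp).1).ne_zero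
  · have h1 : ∏ k ∈ S, xpart n k ^ k =
        ∏ p ∈ n.primeFactors.filter (fun p => n.factorization p ∈ S), p ^ n.factorization p := by
      rw [← Finset.prod_fiberwise_of_maps_to (t := S) (g := fun p => n.factorization p)
        (fun p hp => (Finset.mem_filter.1 hp).2)]
      refine Finset.prod_congr rfl (fun k hk => ?_)
      unfold xpart
      rw [← Finset.prod_pow]
      have h2 : (n.primeFactors.filter (fun p => n.factorization p ∈ S)).filter
          (fun p => n.factorization p = k) = n.primeFactors.filter (fun p => n.factorization p = k) := by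
        ext p
        simp only [Finset.mem_filter]
        constructor
        · rintro ⟨⟨h1, _⟩, h2⟩
          exact ⟨h1, h2⟩
        · rintro ⟨h1, h2⟩
          exact ⟨⟨h1, by rw [h2]; exact hk⟩, h2⟩
      rw [h2]
      refine Finset.prod_congr rfl (fun p hp => ?_)
      rw [(Finset.mem_filter.1 hp).2]
    rw [h1, mul_comm, Finset.prod_filter_mul_prod_filter_not]
    exact (CdB_prod_pow n hn).symm
  · exact CdB_rd_prod _ _ (fun p hp => hprime p (Finset.mem_filter.1 hp).1)
      (fun p hp => hfac p (Finset.mem_filter.1 hp).1)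
  · rw [CdB_rd_prod _ _ (fun p hp => hprime p (Finset.mem_filter.1 hp).1)
      (fun p hp => hfac p (Finset.mem_filter.1 hp).1)]
    have h1 : ∏ k ∈ S, xpart n k =
        ∏ p ∈ n.primeFactors.filter (fun p => n.factorization p ∈ S), p := by
      rw [← Finset.prod_fiberwise_of_maps_to (t := S) (g := fun p => n.factorization p)
        (fun p hp => (Finset.mem_filter.1 hp).2)]
      refine Finset.prod_congr rfl (fun k hk => ?_)
      unfold xpart
      have h2 : (n.primeFactors.filter (fun p => n.factorization p ∈ S)).filter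
          (fun p => n.factorization p = k) = n.primeFactors.filter (fun p => n.factorization p = k) := by
        ext p
        simp only [Finset.mem_filter]
        constructor
        · rintro ⟨⟨h1, _⟩, h2⟩
          exact ⟨h1, h2⟩
        · rintro ⟨h1, h2⟩
          exact ⟨⟨h1, by rw [h2]; exact hk⟩, h2⟩
      rw [h2]
    rw [h1, mul_comm, Finset.prod_filter_mul_prod_filter_not]
    rfl
  · intro k hk
    unfold xpart
    refine Nat.Coprime.prod_left (fun p hp => Nat.Coprime.prod_right (fun q hq => ?_))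
    have h1 := Finset.mem_filter.1 hp
    have h2 := Finset.mem_filter.1 hq
    refine Nat.Coprime.pow_left _ ((Nat.coprime_primes (hprime p h1.1) (hprime q h2.1)).2 ?_)
    rintro rfl
    exact h1.2 (by rw [h2.2]; exact hk)

/-- split off the parts with exponents in `S` -/
theorem xpart_split (n : ℕ) (hn : n ≠ 0) (S : Finset ℕ) (hS : ∀ k ∈ S, 1 ≤ k) :
    ∃ w : ℕ, w ≠ 0 ∧ n = w * ∏ k ∈ S, xpart n k ^ k ∧ rd n = rd w * ∏ k ∈ S, xpart n k ∧
      (∀ k ∈ S, Nat.Coprime w (xpart n k)) := by
  obtain ⟨w, -, h1, h2, -, h3, h4⟩ := CdB_split n hn S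
  exact ⟨w, h1, h2, h3, h4⟩

/-- the parts of exponent `< K` give almost the whole radical -/
theorem rd_le_prod_xpart (n K : ℕ) (hn : n ≠ 0) (hK : 2 ≤ K) :
    (rd n : ℝ) ≤ (∏ k ∈ Ico 1 K, (xpart n k : ℝ)) * (n : ℝ) ^ (1 / (K : ℝ)) := by
  obtain ⟨w, hw, hw0, h1, h2, h3, -⟩ := CdB_split n hn (Ico 1 K)
  have hprime : ∀ p ∈ n.primeFactors, p.Prime := fun p hp => Nat.prime_of_mem_primeFactors hp
  have hfac : ∀ p ∈ n.primeFactors, n.factorization p ≠ 0 := fun p hp => by
    have h1 := Nat.mem_primeFactors.1 hp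
    have h2 := h1.1.factorization_pos_of_dvd h1.2.2 h1.2.1
    omega
  have h4 : rd w ^ K ≤ n := by
    have h5 : rd w ^ K ∣ w := by
      rw [h2]
      conv_rhs => rw [hw]
      rw [← Finset.prod_pow]
      refine Finset.prod_dvd_prod_of_dvd _ _ (fun p hp => ?_)
      have h6 := Finset.mem_filter.1 hp
      refine pow_dvd_pow _ ?_
      have h7 := hfac p h6.1
      have h8 : ¬ (1 ≤ n.factorization p ∧ n.factorization p < K) := fun h =>
        h6.2 (Finset.mem_Ico.2 h)
      omega
    have h6 : w ∣ n := ⟨_, h1⟩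
    exact Nat.le_of_dvd (Nat.pos_of_ne_zero hn) (h5.trans h6)
  have hK0 : (K : ℝ) ≠ 0 := by
    have : K ≠ 0 := by omega
    exact_mod_cast this
  have h5 : (rd w : ℝ) ≤ (n : ℝ) ^ (1 / (K : ℝ)) := by
    have h6 : ((rd w : ℝ)) ^ (K : ℝ) ≤ n := by
      rw [Real.rpow_natCast]
      exact_mod_cast h4
    calc (rd w : ℝ) = ((rd w : ℝ) ^ (K : ℝ)) ^ (1 / (K : ℝ)) := by
          rw [← Real.rpow_mul (Nat.cast_nonneg _), mul_one_div_cancel hK0, Real.rpow_one]
      _ ≤ _ := Real.rpow_le_rpow (by positivity) h6 (by positivity)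
  rw [h3]
  push_cast
  rw [mul_comm]
  exact mul_le_mul_of_nonneg_left h5 (by positivity)

end Pool.Agent.Lib.MP_d8bd92_nt
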