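import Pool.Agent.Lib.MP_d8bd92_nt.CdDefs

set_option autoImplicit false

/-!
Row C: a convolution inequality in a commutative group.
-/

namespace Pool.Agent.Lib.MP_d8bd92_nt

open Finset Pool.Agent.Lib.Szpiro

namespace FourConv

theorem card_pairs {U V G : Type*} [DecidableEq G] (s : Finset U) (t : Finset V) (φ : U → G)
    (ψ : V → G) (T : Finset G) (hT : ∀ u ∈ s, φ u ∈ T) :
    ((s ×ˢ t).filter (fun y : U × V => φ y.1 = ψ y.2)).card =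
      ∑ h ∈ T, (s.filter (fun u => φ u = h)).card * (t.filter (fun v => ψ v = h)).card := by
  have h1 : ∀ y ∈ (s ×ˢ t).filter (fun y : U × V => φ y.1 = ψ y.2), φ y.1 ∈ T := by
    intro y hy
    exact hT y.1 (mem_product.1 (mem_filter.1 hy).1).1
  rw [card_eq_sum_card_fiberwise h1]
  refine Finset.sum_congr rfl fun h _ => ?_
  rw [← card_product]
  congr 1
  ext y
  simp only [mem_filter, mem_product]
  constructor
  · rintro ⟨⟨⟨h2, h3⟩, h4⟩, h5⟩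
    exact ⟨⟨h2, h5⟩, ⟨h3, by rw [← h4, h5]⟩⟩
  · rintro ⟨⟨h2, h3⟩, ⟨h4, h5⟩⟩
    exact ⟨⟨⟨h2, h4⟩, by rw [h3, h5]⟩, h3⟩

/-- Cauchy-Schwarz for coincidences -/
theorem cs {U V G : Type*} [DecidableEq G] (s : Finset U) (t : Finset V) (φ : U → G)
    (ψ : V → G) :
    ((s ×ˢ t).filter (fun y : U × V => φ y.1 = ψ y.2)).card ^ 2 ≤
      ((s ×ˢ s).filter (fun y : U × U => φ y.1 = φ y.2)).card *
        ((t ×ˢ t).filter (fun y : V × V => ψ y.1 = ψ y.2)).card := by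
  classical
  have hs : ∀ u ∈ s, φ u ∈ s.image φ ∪ t.image ψ := fun u hu =>
    mem_union_left _ (mem_image_of_mem φ hu)
  have ht : ∀ v ∈ t, ψ v ∈ s.image φ ∪ t.image ψ := fun v hv =>
    mem_union_right _ (mem_image_of_mem ψ hv)
  rw [card_pairs s t φ ψ _ hs, card_pairs s s φ φ _ hs, card_pairs t t ψ ψ _ ht]
  refine (Finset.sum_mul_sq_le_sq_mul_sq _ _ _).trans (le_of_eq ?_)
  congr 1 <;> exact Finset.sum_congr rfl fun h _ => sq _

theorem quot_energy {G : Type*} [CommGroup G] [DecidableEq G] {α : Type*} (s : Finset α)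
    (f : α → G) :
    (((s ×ˢ s) ×ˢ (s ×ˢ s)).filter (fun y : (α × α) × (α × α) =>
      f y.1.1 * (f y.1.2)⁻¹ = f y.2.1 * (f y.2.2)⁻¹)).card ≤ energy s f := by
  unfold energy
  refine card_le_card_of_injOn (fun y : (α × α) × (α × α) => (y.1.1, y.2.2, y.2.1, y.1.2)) ?_ ?_
  · intro y hy
    simp only [coe_filter, mem_product, Set.mem_setOf_eq] at hy ⊢
    obtain ⟨⟨⟨h1, h2⟩, ⟨h3, h4⟩⟩, h5⟩ := hy
    refine ⟨⟨h1, h4, h3, h2⟩, ?_⟩
    rw [← div_eq_mul_inv, ← div_eq_mul_inv, div_eq_div_iff_mul_eq_mul] at h5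
    exact h5
  · rintro ⟨⟨a, b⟩, ⟨c, d⟩⟩ _ ⟨⟨a', b'⟩, ⟨c', d'⟩⟩ _ h
    simp only [Prod.mk.injEq] at h
    obtain ⟨h1, h2, h3, h4⟩ := h
    subst h1 h2 h3 h4
    rfl

theorem quot_energy' {G : Type*} [CommGroup G] [DecidableEq G] {α : Type*} (s : Finset α)
    (f : α → G) :
    (((s ×ˢ s) ×ˢ (s ×ˢ s)).filter (fun y : (α × α) × (α × α) =>
      f y.1.2 * (f y.1.1)⁻¹ = f y.2.2 * (f y.2.1)⁻¹)).card ≤ energy s f := by
  unfold energy
  refine card_le_card_of_injOn (fun y : (α × α) × (α × α) => (y.1.2, y.2.1, y.2.2, y.1.1)) ?_ ?_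
  · intro y hy
    simp only [coe_filter, mem_product, Set.mem_setOf_eq] at hy ⊢
    obtain ⟨⟨⟨h1, h2⟩, ⟨h3, h4⟩⟩, h5⟩ := hy
    refine ⟨⟨h2, h3, h4, h1⟩, ?_⟩
    rw [← div_eq_mul_inv, ← div_eq_mul_inv, div_eq_div_iff_mul_eq_mul] at h5
    exact h5
  · rintro ⟨⟨a, b⟩, ⟨c, d⟩⟩ _ ⟨⟨a', b'⟩, ⟨c', d'⟩⟩ _ h
    simp only [Prod.mk.injEq] at h
    obtain ⟨h1, h2, h3, h4⟩ := h
    subst h1 h2 h3 h4
    rfl

theorem two_energy {G : Type*} [CommGroup G] [DecidableEq G] {α : Type*} (s t : Finset α)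
    (f g : α → G) :
    (((s ×ˢ t) ×ˢ (s ×ˢ t)).filter (fun y : (α × α) × (α × α) =>
      f y.1.1 * g y.1.2 = f y.2.1 * g y.2.2)).card ^ 2 ≤ energy s f * energy t g := by
  have h1 := cs (s ×ˢ s) (t ×ˢ t) (fun y : α × α => f y.1 * (f y.2)⁻¹)
    (fun y : α × α => g y.2 * (g y.1)⁻¹)
  refine le_trans (Nat.pow_le_pow_left ?_ 2) (h1.trans
    (Nat.mul_le_mul (quot_energy s f) (quot_energy' t g)))
  refine card_le_card_of_injOn (fun y : (α × α) × (α × α) =>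
    (((y.1.1, y.2.1), (y.1.2, y.2.2)) : (α × α) × (α × α))) ?_ ?_
  · intro y hy
    simp only [coe_filter, mem_product, Set.mem_setOf_eq] at hy ⊢
    obtain ⟨⟨⟨h1, h2⟩, ⟨h3, h4⟩⟩, h5⟩ := hy
    refine ⟨⟨⟨h1, h3⟩, ⟨h2, h4⟩⟩, ?_⟩
    rw [← div_eq_mul_inv, ← div_eq_mul_inv, div_eq_div_iff_mul_eq_mul, h5, mul_comm]
  · rintro ⟨⟨a, b⟩, ⟨c, d⟩⟩ _ ⟨⟨a', b'⟩, ⟨c', d'⟩⟩ _ h
    simp only [Prod.mk.injEq] at h
    obtain ⟨⟨h1, h2⟩, h3, h4⟩ := h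
    subst h1 h2 h3 h4
    rfl

end FourConv

open FourConv in
theorem four_conv {G : Type*} [CommGroup G] [DecidableEq G] {α : Type*} (s : Fin 4 → Finset α)
    (f : Fin 4 → α → G) (g : G) :
    ((Fintype.piFinset s).filter (fun x : Fin 4 → α => ∏ j, f j (x j) = g)).card ^ 4 ≤
      ∏ j, energy (s j) (f j) := by
  have h1 := cs (s 0 ×ˢ s 1) (s 2 ×ˢ s 3) (fun y : α × α => f 0 y.1 * f 1 y.2)
    (fun y : α × α => g * (f 2 y.1 * f 3 y.2)⁻¹)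
  have h2 := two_energy (s 0) (s 1) (f 0) (f 1)
  have h3 := two_energy (s 2) (s 3) (f 2) (f 3)
  have h4 : ((Fintype.piFinset s).filter (fun x : Fin 4 → α => ∏ j, f j (x j) = g)).card ≤
      (((s 0 ×ˢ s 1) ×ˢ (s 2 ×ˢ s 3)).filter (fun y : (α × α) × (α × α) =>
        f 0 y.1.1 * f 1 y.1.2 = g * (f 2 y.2.1 * f 3 y.2.2)⁻¹)).card := by
    refine card_le_card_of_injOn (fun x : Fin 4 → α =>
      (((x 0, x 1), (x 2, x 3)) : (α × α) × (α × α))) ?_ ?_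
    · intro x hx
      simp only [coe_filter, mem_product, Set.mem_setOf_eq, Fintype.mem_piFinset] at hx ⊢
      refine ⟨⟨⟨hx.1 0, hx.1 1⟩, ⟨hx.1 2, hx.1 3⟩⟩, ?_⟩
      have h5 := hx.2
      rw [Fin.prod_univ_four] at h5
      rw [← h5, mul_assoc (f 0 (x 0) * f 1 (x 1)), mul_inv_cancel_right]
    · intro x _ y _ h
      simp only [Prod.mk.injEq] at h
      obtain ⟨⟨h5, h6⟩, h7, h8⟩ := h
      funext j
      fin_cases j
      · exact h5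
      · exact h6
      · exact h7
      · exact h8
  have h5 : (((s 2 ×ˢ s 3) ×ˢ (s 2 ×ˢ s 3)).filter (fun y : (α × α) × (α × α) =>
      g * (f 2 y.1.1 * f 3 y.1.2)⁻¹ = g * (f 2 y.2.1 * f 3 y.2.2)⁻¹)) =
      (((s 2 ×ˢ s 3) ×ˢ (s 2 ×ˢ s 3)).filter (fun y : (α × α) × (α × α) =>
      f 2 y.1.1 * f 3 y.1.2 = f 2 y.2.1 * f 3 y.2.2)) := by
    refine Finset.filter_congr fun y _ => ?_
    rw [mul_right_inj, inv_inj]
  rw [h5] at h1
  rw [Fin.prod_univ_four]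
  have h6 := (Nat.pow_le_pow_left h4 2).trans h1
  have h7 := Nat.pow_le_pow_left h6 2
  calc ((Fintype.piFinset s).filter (fun x : Fin 4 → α => ∏ j, f j (x j) = g)).card ^ 4
      = (((Fintype.piFinset s).filter (fun x : Fin 4 → α => ∏ j, f j (x j) = g)).card ^ 2) ^ 2 := by
        rw [← pow_mul]
    _ ≤ _ := h7
    _ = _ := mul_pow _ _ _
    _ ≤ _ := Nat.mul_le_mul h2 h3
    _ = _ := by ring

end Pool.Agent.Lib.MP_d8bd92_nt
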