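import Mathlib

set_option autoImplicit false

namespace Pool.Agent.Lib.MP_d8bd92_nt

open Finset Polynomial

/-- `hev n f a b = ∑_{i ≤ n} f_i a^i b^(n-i)`: the value at `(a, b)` of the binary form of
degree `n` attached to `f`. -/
def hev {R : Type*} [CommRing R] (n : ℕ) (f : R[X]) (a b : R) : R :=
  ∑ i ∈ Finset.range (n + 1), f.coeff i * a ^ i * b ^ (n - i)

theorem hev_eq_eval {K : Type*} [Field K] (n : ℕ) (f : K[X]) (hf : f.natDegree ≤ n) (a b : K)
    (hb : b ≠ 0) : hev n f a b = b ^ n * f.eval (a / b) := by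
  rw [eval_eq_sum_range' (Nat.lt_succ_of_le hf), hev, Finset.mul_sum]
  apply Finset.sum_congr rfl
  intro i hi
  have hi' : i ≤ n := Nat.lt_succ_iff.mp (Finset.mem_range.mp hi)
  obtain ⟨j, hj⟩ := Nat.exists_eq_add_of_le hi'
  rw [hj, Nat.add_sub_cancel_left, div_pow, pow_add]
  field_simp

theorem hev_map {R S : Type*} [CommRing R] [CommRing S] (φ : R →+* S) (n : ℕ) (f : R[X]) (a b : R) :
    hev n (f.map φ) (φ a) (φ b) = φ (hev n f a b) := by
  unfold hev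
  rw [map_sum]
  apply Finset.sum_congr rfl
  intro i _
  rw [coeff_map, map_mul, map_mul, map_pow, map_pow]

theorem hev_one {R : Type*} [CommRing R] (n : ℕ) (f : R[X]) (hf : f.natDegree ≤ n) (a : R) :
    hev n f a 1 = f.eval a := by
  rw [eval_eq_sum_range' (Nat.lt_succ_of_le hf), hev]
  apply Finset.sum_congr rfl
  intro i _
  rw [one_pow, mul_one]

theorem hev_zero_right {R : Type*} [CommRing R] (n : ℕ) (f : R[X]) (a : R) :
    hev n f a 0 = f.coeff n * a ^ n := by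
  unfold hev
  rw [Finset.sum_range_succ, Finset.sum_eq_zero, zero_add, Nat.sub_self, pow_zero, mul_one]
  intro i hi
  have : n - i ≠ 0 := by have := Finset.mem_range.mp hi; omega
  rw [zero_pow this, mul_zero]

/-- absolute coefficient sum -/
def csum (n : ℕ) (f : ℤ[X]) : ℝ := ∑ i ∈ Finset.range (n + 1), |((f.coeff i : ℤ) : ℝ)|

theorem csum_nonneg (n : ℕ) (f : ℤ[X]) : 0 ≤ csum n f :=
  Finset.sum_nonneg (fun _ _ => abs_nonneg _)

theorem abs_hev_le (n : ℕ) (f : ℤ[X]) (a b : ℤ) (M : ℝ) (ha : |(a : ℝ)| ≤ M)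
    (hb : |(b : ℝ)| ≤ M) : |((hev n f a b : ℤ) : ℝ)| ≤ csum n f * M ^ n := by
  have hM : 0 ≤ M := (abs_nonneg _).trans ha
  unfold hev csum
  push_cast
  refine (Finset.abs_sum_le_sum_abs _ _).trans ?_
  rw [Finset.sum_mul]
  apply Finset.sum_le_sum
  intro i hi
  have hi' : i ≤ n := Nat.lt_succ_iff.mp (Finset.mem_range.mp hi)
  rw [abs_mul, abs_mul, abs_pow, abs_pow, mul_assoc]
  apply mul_le_mul_of_nonneg_left _ (abs_nonneg _)
  calc |(a : ℝ)| ^ i * |(b : ℝ)| ^ (n - i) ≤ M ^ i * M ^ (n - i) := by gcongr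
    _ = M ^ n := by rw [← pow_add, Nat.add_sub_cancel' hi']

theorem abs_hev_sub_le (n : ℕ) (f : ℤ[X]) (a b a' b' : ℤ) (M : ℝ) (ha : |(a : ℝ)| ≤ M)
    (hb : |(b : ℝ)| ≤ M) (ha' : |(a' : ℝ)| ≤ M) (hb' : |(b' : ℝ)| ≤ M) :
    |((hev n f a b : ℤ) : ℝ) - ((hev n f a' b' : ℤ) : ℝ)| ≤
      csum n f * (n * M ^ (n - 1)) * (|(a : ℝ) - a'| + |(b : ℝ) - b'|) := by
  have hM : 0 ≤ M := (abs_nonneg _).trans ha
  unfold hev csum
  push_cast
  rw [← Finset.sum_sub_distrib]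
  refine (Finset.abs_sum_le_sum_abs _ _).trans ?_
  rw [mul_assoc, Finset.sum_mul]
  apply Finset.sum_le_sum
  intro i hi
  have hi' : i ≤ n := Nat.lt_succ_iff.mp (Finset.mem_range.mp hi)
  have h1 : (f.coeff i : ℝ) * (a : ℝ) ^ i * (b : ℝ) ^ (n - i) -
      (f.coeff i : ℝ) * (a' : ℝ) ^ i * (b' : ℝ) ^ (n - i) =
      (f.coeff i : ℝ) * (((a : ℝ) ^ i - (a' : ℝ) ^ i) * (b : ℝ) ^ (n - i) +
        (a' : ℝ) ^ i * ((b : ℝ) ^ (n - i) - (b' : ℝ) ^ (n - i))) := by ring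
  rw [h1, abs_mul]
  apply mul_le_mul_of_nonneg_left _ (abs_nonneg _)
  refine (abs_add_le _ _).trans ?_
  rw [abs_mul, abs_mul]
  have hpow : ∀ (j : ℕ) (u u' : ℝ), |u| ≤ M → |u'| ≤ M → |u ^ j - u' ^ j| ≤
      |u - u'| * (j * M ^ (j - 1)) := by
    intro j u u' hu hu'
    refine (abs_pow_sub_pow_le u u' j).trans ?_
    rw [mul_assoc]
    gcongr
    exact max_le hu hu'
  have h2 := hpow i a a' ha ha'
  have h3 := hpow (n - i) b b' hb hb'
  have h4 : |(b : ℝ) ^ (n - i)| ≤ M ^ (n - i) := by rw [abs_pow]; gcongr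
  have h5 : |(a' : ℝ) ^ i| ≤ M ^ i := by rw [abs_pow]; gcongr
  have h6 : (i : ℝ) * M ^ (i - 1) * M ^ (n - i) ≤ n * M ^ (n - 1) := by
    rcases Nat.eq_zero_or_pos i with h0 | h0
    · rw [h0]; simp; positivity
    · rw [mul_assoc, ← pow_add]
      have : i - 1 + (n - i) = n - 1 := by omega
      rw [this]
      have : (i : ℝ) ≤ n := by exact_mod_cast hi'
      gcongr
  have h7 : M ^ i * (((n - i : ℕ) : ℝ) * M ^ (n - i - 1)) ≤ n * M ^ (n - 1) := by
    rcases Nat.eq_zero_or_pos (n - i) with h0 | h0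
    · rw [h0]; simp; positivity
    · have e1 : M ^ i * (((n - i : ℕ) : ℝ) * M ^ (n - i - 1)) =
          ((n - i : ℕ) : ℝ) * (M ^ i * M ^ (n - i - 1)) := by ring
      rw [e1, ← pow_add]
      have : i + (n - i - 1) = n - 1 := by omega
      rw [this]
      have : ((n - i : ℕ) : ℝ) ≤ n := by exact_mod_cast Nat.sub_le n i
      gcongr
  calc |(a : ℝ) ^ i - (a' : ℝ) ^ i| * |(b : ℝ) ^ (n - i)| +
        |(a' : ℝ) ^ i| * |(b : ℝ) ^ (n - i) - (b' : ℝ) ^ (n - i)|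
      ≤ (|(a : ℝ) - a'| * (i * M ^ (i - 1))) * M ^ (n - i) +
        M ^ i * (|(b : ℝ) - b'| * (((n - i : ℕ) : ℝ) * M ^ (n - i - 1))) := by gcongr
    _ = |(a : ℝ) - a'| * (i * M ^ (i - 1) * M ^ (n - i)) +
        |(b : ℝ) - b'| * (M ^ i * (((n - i : ℕ) : ℝ) * M ^ (n - i - 1))) := by ring
    _ ≤ |(a : ℝ) - a'| * (n * M ^ (n - 1)) + |(b : ℝ) - b'| * (n * M ^ (n - 1)) := by gcongr
    _ = (n * M ^ (n - 1)) * (|(a : ℝ) - a'| + |(b : ℝ) - b'|) := by ring

theorem hev_mul {K : Type*} [Field K] (n m : ℕ) (f g : K[X]) (hf : f.natDegree ≤ n)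
    (hg : g.natDegree ≤ m) (a b : K) : hev (n + m) (f * g) a b = hev n f a b * hev m g a b := by
  by_cases hb : b = 0
  · rw [hb, hev_zero_right, hev_zero_right, hev_zero_right,
      coeff_mul_add_eq_of_natDegree_le hf hg]
    ring
  · rw [hev_eq_eval _ _ _ _ _ hb, hev_eq_eval _ _ hf _ _ hb, hev_eq_eval _ _ hg _ _ hb, eval_mul]
    · ring
    · exact natDegree_mul_le.trans (add_le_add hf hg)

theorem hev_mul_int (n m : ℕ) (f g : ℤ[X]) (hf : f.natDegree ≤ n)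
    (hg : g.natDegree ≤ m) (a b : ℤ) : hev (n + m) (f * g) a b = hev n f a b * hev m g a b := by
  have h := hev_mul n m (f.map (Int.castRingHom ℚ)) (g.map (Int.castRingHom ℚ))
    (natDegree_map_le.trans hf) (natDegree_map_le.trans hg) (Int.castRingHom ℚ a)
    (Int.castRingHom ℚ b)
  rw [← Polynomial.map_mul, hev_map, hev_map, hev_map, ← map_mul] at h
  exact (Int.castRingHom ℚ).injective_int h

/-- `hev` with a larger degree picks up a power of `b`. -/
theorem hev_add_int (n m : ℕ) (f : ℤ[X]) (hf : f.natDegree ≤ n) (a b : ℤ) :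
    hev (n + m) f a b = hev n f a b * b ^ m := by
  have h := hev_mul_int n m f 1 hf (by simp) a b
  rw [mul_one] at h
  rw [h]
  congr 1
  unfold hev
  rw [Finset.sum_eq_single 0]
  · simp
  · intro i _ hi
    rw [coeff_one, if_neg (by omega)]; ring
  · intro h; exact absurd (Finset.mem_range.mpr (by omega)) h

/-- congruence: if `a ≡ x b (mod D)` then `hev n f a b ≡ b^n f(x)`. -/
theorem hev_modEq (n : ℕ) (f : ℤ[X]) (hf : f.natDegree ≤ n) (a b x : ℤ) (D : ℤ)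
    (h : D ∣ a - x * b) : D ∣ hev n f a b - b ^ n * f.eval x := by
  have h1 : hev n f (x * b) b = b ^ n * f.eval x := by
    rw [eval_eq_sum_range' (Nat.lt_succ_of_le hf), hev, Finset.mul_sum]
    apply Finset.sum_congr rfl
    intro i hi
    have hi' : i ≤ n := Nat.lt_succ_iff.mp (Finset.mem_range.mp hi)
    have h2 : b ^ n = b ^ i * b ^ (n - i) := by rw [← pow_add, Nat.add_sub_cancel' hi']
    rw [h2, mul_pow]; ring
  rw [← h1]
  unfold hev
  rw [← Finset.sum_sub_distrib]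
  apply Finset.dvd_sum
  intro i _
  have h3 : f.coeff i * a ^ i * b ^ (n - i) - f.coeff i * (x * b) ^ i * b ^ (n - i) =
      (f.coeff i * b ^ (n - i)) * (a ^ i - (x * b) ^ i) := by ring
  rw [h3]
  exact Dvd.dvd.mul_left (h.trans (sub_dvd_pow_sub_pow a (x * b) i)) _

/-- a prime dividing `b` and a value of the form at a coprime pair divides the top coefficient -/
theorem prime_dvd_coeff_of_dvd (n : ℕ) (f : ℤ[X]) (a b p : ℤ) (hp : Prime p)
    (hab : IsCoprime a b) (hpb : p ∣ b) (hpf : p ∣ hev n f a b) : p ∣ f.coeff n := by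
  unfold hev at hpf
  rw [Finset.sum_range_succ, Nat.sub_self, pow_zero, mul_one] at hpf
  have h1 : p ∣ ∑ i ∈ Finset.range n, f.coeff i * a ^ i * b ^ (n - i) := by
    apply Finset.dvd_sum
    intro i hi
    have : n - i ≠ 0 := by have := Finset.mem_range.mp hi; omega
    exact Dvd.dvd.mul_left (dvd_pow hpb this) _
  have h2 : p ∣ f.coeff n * a ^ n := (dvd_add_right h1).mp hpf
  rcases hp.dvd_or_dvd h2 with h | h
  · exact h
  · exfalso
    have h3 : p ∣ a := hp.dvd_of_dvd_pow h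
    exact hp.not_isUnit (hab.isUnit_of_dvd' h3 hpb)

theorem isCoprime_of_dvd_hev (n : ℕ) (f : ℤ[X]) (a b : ℤ) (D : ℕ) (hD : D ≠ 0)
    (hab : IsCoprime a b) (hcop : IsCoprime (D : ℤ) (f.coeff n)) (h : (D : ℤ) ∣ hev n f a b) :
    IsCoprime b (D : ℤ) := by
  rw [Int.isCoprime_iff_gcd_eq_one]
  by_contra hne
  obtain ⟨p, hp, hpd⟩ := Nat.exists_prime_and_dvd hne
  have h1 : (p : ℤ) ∣ b := (Int.natCast_dvd_natCast.mpr hpd).trans (Int.gcd_dvd_left b D)
  have h2 : (p : ℤ) ∣ (D : ℤ) := (Int.natCast_dvd_natCast.mpr hpd).trans (Int.gcd_dvd_right b D)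
  have hpp : Prime (p : ℤ) := Nat.prime_iff_prime_int.mp hp
  have h3 := prime_dvd_coeff_of_dvd n f a b p hpp hab h1 (h2.trans h)
  exact hpp.not_isUnit (hcop.isUnit_of_dvd' h2 h3)

end Pool.Agent.Lib.MP_d8bd92_nt
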