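import Pool.Agent.Lib.MP_d8bd92_nt.FamLattice
import Pool.Agent.Lib.MP_d8bd92_nt.FamForm

set_option autoImplicit false

namespace Pool.Agent.Lib.MP_d8bd92_nt

open Finset Polynomial

/-- residues `x ∈ [0, D)` with `D ∣ f(x)` -/
noncomputable def rootsMod (f : ℤ[X]) (D : ℕ) : Finset ℕ :=
  (Finset.range D).filter (fun x => (D : ℤ) ∣ f.eval (x : ℤ))

theorem card_rootsMod_prime (f A B : ℤ[X]) (d : ℤ) (hd : A * f + B * derivative f = C d)
    (p : ℕ) (hp : p.Prime) (hpd : ¬ (p : ℤ) ∣ d) : (rootsMod f p).card ≤ f.natDegree := by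
  classical
  haveI : Fact p.Prime := ⟨hp⟩
  set φ := Int.castRingHom (ZMod p) with hφ
  have hne : f.map φ ≠ 0 := by
    intro h
    have h1 := congrArg (Polynomial.map φ) hd
    rw [Polynomial.map_add, Polynomial.map_mul, Polynomial.map_mul, h, mul_zero, zero_add,
      ← Polynomial.derivative_map, h, derivative_zero, mul_zero, map_C] at h1
    have h2 : φ d = 0 := by
      have := C_eq_zero.mp h1.symm
      exact this
    rw [hφ, eq_intCast] at h2
    exact hpd ((ZMod.intCast_zmod_eq_zero_iff_dvd d p).mp h2)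
  have hmap : ∀ x ∈ rootsMod f p, ((x : ℕ) : ZMod p) ∈ (f.map φ).roots.toFinset := by
    intro x hx
    rw [rootsMod, Finset.mem_filter] at hx
    rw [Multiset.mem_toFinset, mem_roots hne, IsRoot.def]
    have h1 : eval ((x : ℕ) : ZMod p) (f.map φ) = φ (eval ((x : ℕ) : ℤ) f) := by
      have h0 := Polynomial.eval_intCast_map φ f ((x : ℕ) : ℤ)
      rw [Int.cast_natCast] at h0
      exact h0
    rw [h1, hφ, eq_intCast]
    exact (ZMod.intCast_zmod_eq_zero_iff_dvd _ p).mpr hx.2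
  have hinj : Set.InjOn (fun x : ℕ => ((x : ℕ) : ZMod p)) (rootsMod f p) := by
    intro x hx y hy hxy
    have hx' := Finset.mem_coe.mp hx
    have hy' := Finset.mem_coe.mp hy
    rw [rootsMod, Finset.mem_filter, Finset.mem_range] at hx' hy'
    have h1 := (ZMod.natCast_eq_natCast_iff' x y p).mp hxy
    rwa [Nat.mod_eq_of_lt hx'.1, Nat.mod_eq_of_lt hy'.1] at h1
  calc (rootsMod f p).card ≤ (f.map φ).roots.toFinset.card :=
        Finset.card_le_card_of_injOn _ hmap hinj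
    _ ≤ Multiset.card (f.map φ).roots := Multiset.toFinset_card_le _
    _ ≤ (f.map φ).natDegree := card_roots' _
    _ ≤ f.natDegree := natDegree_map_le

theorem card_rootsMod (f A B : ℤ[X]) (d : ℤ) (hd : A * f + B * derivative f = C d)
    (D : ℕ) (hD : D ≠ 0) (hDd : IsCoprime (D : ℤ) d) :
    (rootsMod f D).card ≤ f.natDegree ^ D.primeFactors.card := by
  classical
  have hnd : ∀ p ∈ D.primeFactors, ¬ (p : ℤ) ∣ d := by
    intro p hp h
    have hpp := Nat.prime_of_mem_primeFactors hp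
    have h1 : (p : ℤ) ∣ (D : ℤ) := Int.natCast_dvd_natCast.mpr (Nat.dvd_of_mem_primeFactors hp)
    exact (Nat.prime_iff_prime_int.mp hpp).not_isUnit (hDd.isUnit_of_dvd' h1 h)
  set PI := D.primeFactors.pi (fun p => rootsMod f p) with hPI
  have hPIcard : PI.card ≤ f.natDegree ^ D.primeFactors.card := by
    rw [hPI, Finset.card_pi]
    apply Finset.prod_le_pow_card
    intro p hp
    exact card_rootsMod_prime f A B d hd p (Nat.prime_of_mem_primeFactors hp) (hnd p hp)
  refine le_trans (Finset.card_le_card_of_injOn (fun x => fun p _ => x % p) ?_ ?_) hPIcard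
  · intro x hx
    have hx := Finset.mem_coe.mp hx
    rw [rootsMod, Finset.mem_filter, Finset.mem_range] at hx
    rw [Finset.mem_coe, hPI, Finset.mem_pi]
    intro p hp
    rw [rootsMod, Finset.mem_filter, Finset.mem_range]
    have hpp := Nat.prime_of_mem_primeFactors hp
    refine ⟨Nat.mod_lt _ hpp.pos, ?_⟩
    have h1 : (p : ℤ) ∣ f.eval (x : ℤ) :=
      (Int.natCast_dvd_natCast.mpr (Nat.dvd_of_mem_primeFactors hp)).trans hx.2
    have h2 : ((x % p : ℕ) : ℤ) - (x : ℤ) ∣ f.eval ((x % p : ℕ) : ℤ) - f.eval (x : ℤ) :=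
      Polynomial.sub_dvd_eval_sub _ _ f
    have h3 : (p : ℤ) ∣ ((x % p : ℕ) : ℤ) - (x : ℤ) := by
      push_cast
      exact (Int.ModEq.symm (Int.mod_modEq (x : ℤ) p)).dvd
    have h4 := h3.trans h2
    exact (dvd_iff_dvd_of_dvd_sub h4).mpr h1
  · intro x hx y hy hxy
    have hx := Finset.mem_coe.mp hx
    have hy := Finset.mem_coe.mp hy
    rw [rootsMod, Finset.mem_filter, Finset.mem_range] at hx hy
    have hmod : ∀ p ∈ D.primeFactors, x % p = y % p := by
      intro p hp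
      have := congrFun (congrFun hxy p) hp
      exact this
    have hsub : ∀ p ∈ D.primeFactors, (p : ℤ) ∣ (y : ℤ) - x := by
      intro p hp
      have h1 : (x : ℤ) ≡ (y : ℤ) [ZMOD (p : ℤ)] :=
        (Int.natCast_modEq_iff).mpr (hmod p hp)
      exact h1.dvd
    -- Taylor expansion
    obtain ⟨k, hk⟩ := Polynomial.binomExpansion f (x : ℤ) ((y : ℤ) - x)
    have h1 : (x : ℤ) + ((y : ℤ) - x) = y := by ring
    rw [h1] at hk
    set g : ℤ := (derivative f).eval (x : ℤ) + k * ((y : ℤ) - x) with hg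
    have h2 : (D : ℤ) ∣ ((y : ℤ) - x) * g := by
      have h3 : ((y : ℤ) - x) * g = f.eval (y : ℤ) - f.eval (x : ℤ) := by
        rw [hk, hg]; ring
      rw [h3]
      exact dvd_sub hy.2 hx.2
    have h4 : IsCoprime (D : ℤ) g := by
      rw [Int.isCoprime_iff_gcd_eq_one]
      by_contra hne
      obtain ⟨p, hp, hpd⟩ := Nat.exists_prime_and_dvd hne
      have h5 : (p : ℤ) ∣ (D : ℤ) := (Int.natCast_dvd_natCast.mpr hpd).trans (Int.gcd_dvd_left _ _)
      have h6 : (p : ℤ) ∣ g := (Int.natCast_dvd_natCast.mpr hpd).trans (Int.gcd_dvd_right _ _)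
      have hpm : p ∈ D.primeFactors :=
        Nat.mem_primeFactors.mpr ⟨hp, Int.natCast_dvd_natCast.mp h5, hD⟩
      have h7 : (p : ℤ) ∣ (derivative f).eval (x : ℤ) := by
        have h8 : (p : ℤ) ∣ k * ((y : ℤ) - x) := (hsub p hpm).mul_left k
        rw [hg] at h6
        exact (dvd_add_left h8).mp h6
      have h9 : (p : ℤ) ∣ f.eval (x : ℤ) := h5.trans hx.2
      have h10 : (p : ℤ) ∣ d := by
        have h11 := congrArg (Polynomial.eval (x : ℤ)) hd
        rw [eval_add, eval_mul, eval_mul, eval_C] at h11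
        rw [← h11]
        exact dvd_add (h9.mul_left _) (h7.mul_left _)
      exact hnd p hpm h10
    have h5 : (D : ℤ) ∣ (y : ℤ) - x := h4.dvd_of_dvd_mul_right h2
    have h6 : (x : ℤ) ≡ (y : ℤ) [ZMOD (D : ℤ)] := Int.modEq_iff_dvd.mpr h5
    have h7 : x ≡ y [MOD D] := Int.natCast_modEq_iff.mp h6
    rw [Nat.ModEq, Nat.mod_eq_of_lt hx.1, Nat.mod_eq_of_lt hy.1] at h7
    exact h7

/-- Counting coprime pairs with `D ∣ F(a,b)` through the roots of `f` modulo `D`. -/
theorem card_le_of_lattices (f A B : ℤ[X]) (d : ℤ) (hd : A * f + B * derivative f = C d)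
    (n : ℕ) (hn : f.natDegree ≤ n)
    (D : ℕ) (hD : D ≠ 0) (hDd : IsCoprime (D : ℤ) d) (hDc : IsCoprime (D : ℤ) (f.coeff n))
    (T : Finset (ℤ × ℤ))
    (hT : ∀ w ∈ T, IsCoprime w.1 w.2 ∧ (D : ℤ) ∣ hev n f w.1 w.2)
    (M : ℝ) (hM : 0 ≤ M)
    (hlat : ∀ x : ℕ, ∀ T' : Finset (ℤ × ℤ), T' ⊆ T → (∀ w ∈ T', InLat D (x : ℤ) w) →
      (T'.card : ℝ) ≤ M) :
    (T.card : ℝ) ≤ (f.natDegree : ℝ) ^ D.primeFactors.card * M := by
  classical
  have hDZ : (0 : ℤ) < (D : ℤ) := by
    have := Nat.pos_of_ne_zero hD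
    exact_mod_cast this
  have hcover : T ⊆ (rootsMod f D).biUnion (fun x => T.filter (fun w => InLat D (x : ℤ) w)) := by
    intro w hw
    obtain ⟨hcop, hdvd⟩ := hT w hw
    have hb : IsCoprime w.2 (D : ℤ) := isCoprime_of_dvd_hev n f w.1 w.2 D hD hcop hDc hdvd
    obtain ⟨u, t, hut⟩ := hb
    -- u * w.2 + t * D = 1
    set x : ℕ := ((w.1 * u) % (D : ℤ)).toNat with hx
    have h1 := Int.emod_nonneg (w.1 * u) hDZ.ne'
    have h2 := Int.emod_lt_of_pos (w.1 * u) hDZ
    have hxZ : (x : ℤ) = (w.1 * u) % (D : ℤ) := by rw [hx, Int.toNat_of_nonneg h1]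
    have hxlt : x < D := by omega
    have hlat : (D : ℤ) ∣ w.1 - (x : ℤ) * w.2 := by
      have h3 : (D : ℤ) ∣ (w.1 * u) - x := by
        rw [hxZ]
        exact (Int.mod_modEq (w.1 * u) (D : ℤ)).dvd
      have h4 : w.1 - (x : ℤ) * w.2 = ((w.1 * u) - x) * w.2 + (D : ℤ) * (t * w.1) := by
        linear_combination (-w.1) * hut
      rw [h4]
      exact dvd_add (h3.mul_right _) (dvd_mul_right _ _)
    have hroot : (D : ℤ) ∣ f.eval (x : ℤ) := by
      have h5 := hev_modEq n f hn w.1 w.2 (x : ℤ) (D : ℤ) hlat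
      have h6 : (D : ℤ) ∣ w.2 ^ n * f.eval (x : ℤ) := (dvd_iff_dvd_of_dvd_sub h5).mp hdvd
      have h7 : IsCoprime (D : ℤ) (w.2 ^ n) :=
        (IsCoprime.pow_left (⟨u, t, hut⟩ : IsCoprime w.2 (D : ℤ))).symm
      exact h7.dvd_of_dvd_mul_left h6
    rw [Finset.mem_biUnion]
    refine ⟨x, ?_, ?_⟩
    · rw [rootsMod, Finset.mem_filter, Finset.mem_range]
      exact ⟨hxlt, hroot⟩
    · rw [Finset.mem_filter]
      exact ⟨hw, hlat⟩
  have h1 : T.card ≤ ∑ x ∈ rootsMod f D, (T.filter (fun w => InLat D (x : ℤ) w)).card :=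
    (Finset.card_le_card hcover).trans Finset.card_biUnion_le
  have h2 : (T.card : ℝ) ≤ ∑ x ∈ rootsMod f D, ((T.filter (fun w => InLat D (x : ℤ) w)).card : ℝ) := by
    exact_mod_cast h1
  refine h2.trans ?_
  calc ∑ x ∈ rootsMod f D, ((T.filter (fun w => InLat D (x : ℤ) w)).card : ℝ)
      ≤ ∑ _x ∈ rootsMod f D, M := by
        apply Finset.sum_le_sum
        intro x _
        apply hlat x _ (Finset.filter_subset _ _)
        intro w hw
        exact (Finset.mem_filter.mp hw).2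
    _ = (rootsMod f D).card * M := by rw [Finset.sum_const, nsmul_eq_mul]
    _ ≤ (f.natDegree : ℝ) ^ D.primeFactors.card * M := by
        apply mul_le_mul_of_nonneg_right _ hM
        exact_mod_cast card_rootsMod f A B d hd D hD hDd

end Pool.Agent.Lib.MP_d8bd92_nt
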