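import Pool.Agent.Lib.MP_d8bd92_nt.CdDefs
import Pool.Agent.Lib.MP_d8bd92_nt.FamRoots
import Pool.Agent.Lib.MP_d8bd92_nt.CdA

set_option autoImplicit false

namespace Pool.Agent.Lib.MP_d8bd92_nt

open Finset Pool.Agent.Lib.Szpiro


section

open Polynomial

/-- `x^n - k` -/
noncomputable def cdD_powSub (n : ℕ) (k : ℤ) : ℤ[X] := X ^ n - C k

theorem cdD_powSub_eval (n : ℕ) (k x : ℤ) : (cdD_powSub n k).eval x = x ^ n - k := by
  unfold cdD_powSub; simp

theorem cdD_powSub_natDegree (n : ℕ) (k : ℤ) : (cdD_powSub n k).natDegree = n := by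
  unfold cdD_powSub
  exact natDegree_X_pow_sub_C

theorem cdD_powSub_bezout (n : ℕ) (hn : 1 ≤ n) (k : ℤ) :
    C (-(n : ℤ)) * cdD_powSub n k + X * derivative (cdD_powSub n k) = C ((n : ℤ) * k) := by
  unfold cdD_powSub
  rw [derivative_sub, derivative_X_pow, derivative_C, sub_zero]
  obtain ⟨j, rfl⟩ : ∃ j, n = j + 1 := ⟨n - 1, by omega⟩
  rw [Nat.add_sub_cancel]
  simp only [map_neg, map_mul]
  push_cast
  simp only [map_add, map_natCast, map_one]
  ring

theorem cdD_powSub_coeff (n : ℕ) (hn : 1 ≤ n) (k : ℤ) : (cdD_powSub n k).coeff n = 1 := by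
  unfold cdD_powSub
  rw [coeff_sub, coeff_X_pow, if_pos rfl, coeff_C, if_neg (by omega), sub_zero]

/-- integers of an interval in one residue class -/
theorem cdD_card_class (T : Finset ℤ) (H D : ℕ) (hD : 1 ≤ D)
    (hdiam : ∀ s ∈ T, ∀ t ∈ T, s - t ≤ (H : ℤ)) (x : ℤ) (hcl : ∀ s ∈ T, (D : ℤ) ∣ s - x) :
    (T.card : ℝ) ≤ 2 * ((H : ℝ) / D + 1) := by
  have h1 := card_le_of_windows T D hD 2 (H : ℝ) (Nat.cast_nonneg _)
    (fun s hs t ht => by exact_mod_cast hdiam s hs t ht) (by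
      intro S hS hd
      by_contra hc
      push Not at hc
      obtain ⟨a, b, c, ha, hb, hcc, hab, hac, hbc⟩ := Finset.two_lt_card_iff.mp hc
      have key : ∀ u ∈ S, ∀ v ∈ S, u ≠ v → |u - v| = (D : ℤ) := by
        intro u hu v hv huv
        have h1 : (D : ℤ) ∣ u - v := by
          have := dvd_sub (hcl u (hS hu)) (hcl v (hS hv))
          have e : u - x - (v - x) = u - v := by ring
          rwa [e] at this
        have h2 := hd u hu v hv
        have h3 : (D : ℤ) ∣ |u - v| := (dvd_abs _ _).mpr h1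
        have h4 : 0 < |u - v| := abs_pos.mpr (sub_ne_zero.mpr huv)
        have h5 := Int.le_of_dvd h4 h3
        omega
      have e1 := key a ha b hb hab
      have e2 := key a ha c hcc hac
      have e3 := key b hb c hcc hbc
      have hD0 : (1 : ℤ) ≤ (D : ℤ) := by exact_mod_cast hD
      rcases abs_choice (a - b) with h1 | h1 <;> rcases abs_choice (a - c) with h2 | h2 <;>
        rcases abs_choice (b - c) with h3 | h3 <;> omega)
  push_cast at h1
  exact h1

/-- integers `x` of an interval with `D ∣ x^n - k`, `D` coprime to `n k` -/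
theorem cdD_card_dvd_powSub (n : ℕ) (hn : 1 ≤ n) (k : ℤ) (T : Finset ℤ) (D : ℕ) (hD : 1 ≤ D)
    (hcop : IsCoprime (D : ℤ) ((n : ℤ) * k)) (hdvd : ∀ s ∈ T, (D : ℤ) ∣ s ^ n - k) (M : ℝ)
    (hM : 0 ≤ M)
    (hcl : ∀ x : ℤ, ∀ T' : Finset ℤ, T' ⊆ T → (∀ s ∈ T', (D : ℤ) ∣ s - x) → (T'.card : ℝ) ≤ M) :
    (T.card : ℝ) ≤ (n : ℝ) ^ D.primeFactors.card * M := by
  classical
  have hDZ : (0 : ℤ) < (D : ℤ) := by exact_mod_cast hD
  have hcover : T ⊆ (rootsMod (cdD_powSub n k) D).biUnion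
      (fun x => T.filter (fun s => (D : ℤ) ∣ s - (x : ℤ))) := by
    intro s hs
    rw [Finset.mem_biUnion]
    have h1 := Int.emod_nonneg s hDZ.ne'
    have h2 := Int.emod_lt_of_pos s hDZ
    have h3 : ((s % (D : ℤ)).toNat : ℤ) = s % (D : ℤ) := Int.toNat_of_nonneg h1
    have h4 : (D : ℤ) ∣ s - ((s % (D : ℤ)).toNat : ℤ) := by
      rw [h3]
      exact (Int.mod_modEq s (D : ℤ)).dvd
    refine ⟨(s % (D : ℤ)).toNat, ?_, ?_⟩
    · rw [rootsMod, Finset.mem_filter, Finset.mem_range]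
      refine ⟨by omega, ?_⟩
      have h5 : s - ((s % (D : ℤ)).toNat : ℤ) ∣
          (cdD_powSub n k).eval s - (cdD_powSub n k).eval (((s % (D : ℤ)).toNat : ℤ)) :=
        Polynomial.sub_dvd_eval_sub _ _ _
      have h6 := h4.trans h5
      have h7 : (D : ℤ) ∣ (cdD_powSub n k).eval s := by rw [cdD_powSub_eval]; exact hdvd s hs
      exact (dvd_iff_dvd_of_dvd_sub h6).mp h7
    · rw [Finset.mem_filter]
      exact ⟨hs, h4⟩
  have hroots := card_rootsMod (cdD_powSub n k) (C (-(n : ℤ))) X ((n : ℤ) * k) (cdD_powSub_bezout n hn k) D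
    (by omega) hcop
  rw [cdD_powSub_natDegree] at hroots
  have h1 : (T.card : ℝ) ≤ ∑ x ∈ rootsMod (cdD_powSub n k) D,
      ((T.filter (fun s => (D : ℤ) ∣ s - (x : ℤ))).card : ℝ) := by
    exact_mod_cast (Finset.card_le_card hcover).trans Finset.card_biUnion_le
  refine h1.trans ?_
  calc ∑ x ∈ rootsMod (cdD_powSub n k) D, ((T.filter (fun s => (D : ℤ) ∣ s - (x : ℤ))).card : ℝ)
      ≤ ∑ _x ∈ rootsMod (cdD_powSub n k) D, M := by
        apply Finset.sum_le_sum
        intro x _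
        exact hcl x _ (Finset.filter_subset _ _) (fun s hs => (Finset.mem_filter.mp hs).2)
    _ = (rootsMod (cdD_powSub n k) D).card * M := by rw [Finset.sum_const, nsmul_eq_mul]
    _ ≤ (n : ℝ) ^ D.primeFactors.card * M := by
        apply mul_le_mul_of_nonneg_right _ hM
        exact_mod_cast hroots

end

theorem cdD_pairs_le (S : Finset (ℕ × ℕ)) (m : ℕ) (hm : m ≠ 0) (h : ∀ q ∈ S, q.1 * q.2 = m) :
    S.card ≤ m.divisors.card := by
  have h1 : S ⊆ m.divisorsAntidiagonal := by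
    intro q hq
    rw [Nat.mem_divisorsAntidiagonal]
    exact ⟨h q hq, hm⟩
  have h2 : (m.divisorsAntidiagonal).card = m.divisors.card := by
    rw [← Nat.map_div_right_divisors, Finset.card_map]
  rw [← h2]
  exact Finset.card_le_card h1

theorem cdD_mem_box (X D x : ℕ) (h : x ∈ box X D) : X ≤ x ∧ x < 2 * X ∧ Nat.Coprime x D := by
  unfold box at h
  rw [Finset.mem_filter, Finset.mem_Ico] at h
  exact ⟨h.1.1, h.1.2, h.2⟩

theorem cdD_card_box (X D : ℕ) : (box X D).card ≤ X := by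
  unfold box
  refine (Finset.card_filter_le _ _).trans ?_
  rw [Nat.card_Ico]
  omega

/-- the number of pairs for a fixed product -/
theorem cdD_fiber (e : ℕ) (he : 1 ≤ e) (X D : ℕ) (hX : 1 ≤ X) (hD : 1 ≤ D)
    (hcop : Nat.Coprime D e) (m' : ℕ) (hm' : Nat.Coprime m' D) (M : ℝ)
    (hM : ∀ m : ℕ, m ≠ 0 → m < 4 * X ^ 2 → ((m.divisors.card : ℕ) : ℝ) ≤ M)
    (S : Finset (ℕ × ℕ))
    (hS : ∀ q ∈ S, q.1 ∈ box X D ∧ q.2 ∈ box X D ∧ (q.1 * q.2) ^ e ≡ m' ^ e [MOD D]) :
    (S.card : ℝ) ≤ ((e : ℝ) ^ D.primeFactors.card * (2 * (4 * (X : ℝ) ^ 2 / D + 1))) * M := by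
  classical
  have hM0 : 0 ≤ M := by
    have := hM 1 (by omega) (by nlinarith)
    exact le_trans (Nat.cast_nonneg _) this
  set T : Finset ℤ := S.image (fun q => ((q.1 * q.2 : ℕ) : ℤ)) with hT
  have hprod : ∀ q ∈ S, 1 ≤ q.1 * q.2 ∧ q.1 * q.2 < 4 * X ^ 2 := by
    intro q hq
    obtain ⟨h1, h2, _⟩ := hS q hq
    obtain ⟨a1, a2, _⟩ := cdD_mem_box X D q.1 h1
    obtain ⟨b1, b2, _⟩ := cdD_mem_box X D q.2 h2
    constructor
    · exact Nat.mul_pos (by omega) (by omega)
    · calc q.1 * q.2 < (2 * X) * (2 * X) := Nat.mul_lt_mul'' a2 b2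
        _ = 4 * X ^ 2 := by ring
  have hTc : (T.card : ℝ) ≤ (e : ℝ) ^ D.primeFactors.card * (2 * (4 * (X : ℝ) ^ 2 / D + 1)) := by
    apply cdD_card_dvd_powSub e he (((m' ^ e : ℕ) : ℤ)) T D hD
    · apply IsCoprime.mul_right
      · exact Nat.isCoprime_iff_coprime.mpr hcop
      · exact Nat.isCoprime_iff_coprime.mpr (Nat.Coprime.pow_right e hm'.symm)
    · intro s hs
      rw [hT, Finset.mem_image] at hs
      obtain ⟨q, hq, rfl⟩ := hs
      have h1 := (hS q hq).2.2
      have h2 := (Nat.modEq_iff_dvd.mp h1.symm)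
      push_cast at h2 ⊢
      exact h2
    · positivity
    · intro x T' hT' hcl
      have h1 := cdD_card_class T' (4 * X ^ 2) D hD (by
        intro s hs t ht
        have hs' := hT' hs
        have ht' := hT' ht
        rw [hT, Finset.mem_image] at hs' ht'
        obtain ⟨q, hq, rfl⟩ := hs'
        obtain ⟨r, hr, rfl⟩ := ht'
        have e1 := hprod q hq
        have e2 := hprod r hr
        omega) x hcl
      push_cast at h1
      exact h1
  have hmap : ∀ q ∈ S, ((q.1 * q.2 : ℕ) : ℤ) ∈ T := by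
    intro q hq
    rw [hT]
    exact Finset.mem_image_of_mem _ hq
  have hsum : (S.card : ℝ) = ∑ t ∈ T, ((S.filter (fun q => ((q.1 * q.2 : ℕ) : ℤ) = t)).card : ℝ) := by
    exact_mod_cast Finset.card_eq_sum_card_fiberwise hmap
  rw [hsum]
  calc ∑ t ∈ T, ((S.filter (fun q => ((q.1 * q.2 : ℕ) : ℤ) = t)).card : ℝ)
      ≤ ∑ _t ∈ T, M := by
        apply Finset.sum_le_sum
        intro t ht
        rw [hT, Finset.mem_image] at ht
        obtain ⟨q, hq, rfl⟩ := ht
        have e1 := hprod q hq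
        have e2 := cdD_pairs_le (S.filter (fun r => ((r.1 * r.2 : ℕ) : ℤ) = ((q.1 * q.2 : ℕ) : ℤ)))
          (q.1 * q.2) (by omega) (by
            intro r hr
            exact_mod_cast (Finset.mem_filter.mp hr).2)
        have e3 := hM (q.1 * q.2) (by omega) e1.2
        exact le_trans (by exact_mod_cast e2) e3
    _ = T.card * M := by rw [Finset.sum_const, nsmul_eq_mul]
    _ ≤ _ := mul_le_mul_of_nonneg_right hTc hM0

/-! ### D. Multiplicative energy of an interval modulo `D` -/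

/-- quadruples of `[X, 2X)` coprime to `D` with `(y₁ y₂)^e ≡ (y₃ y₄)^e mod D` -/
theorem energy_box (e : ℕ) (σ : ℝ) (hσ : 0 < σ) : ∃ C : ℝ, 1 ≤ C ∧ ∀ X D : ℕ, 1 ≤ X → 1 ≤ D →
    (e = 0 → X = 1) → Nat.Coprime D e ∨ e = 0 →
    ((((box X D) ×ˢ (box X D) ×ˢ (box X D) ×ˢ (box X D)).filter (fun y : ℕ × ℕ × ℕ × ℕ =>
      (y.1 * y.2.1) ^ e ≡ (y.2.2.1 * y.2.2.2) ^ e [MOD D])).card : ℝ) ≤
      C * ((X : ℝ) * D) ^ σ * ((X : ℝ) ^ 2 * (1 + (X : ℝ) ^ 2 / D)) := by
  classical
  obtain ⟨C1, hC1, hdiv⟩ := card_divisors_le_rpow (σ / 2) (by linarith)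
  obtain ⟨C2, hC2, hom⟩ := exists_pow_card_primeFactors_le e σ hσ
  have h4 : (1 : ℝ) ≤ 4 ^ (σ / 2) := Real.one_le_rpow (by norm_num) (by linarith)
  refine ⟨8 * C1 * C2 * 4 ^ (σ / 2), ?_, ?_⟩
  · have h1 : (1 : ℝ) ≤ C1 * C2 := by nlinarith
    have h2 : (1 : ℝ) ≤ C1 * C2 * 4 ^ (σ / 2) := by nlinarith
    nlinarith
  · intro X D hX hD he0 hcop
    have hXr : (1 : ℝ) ≤ (X : ℝ) := by exact_mod_cast hX
    have hDr : (1 : ℝ) ≤ (D : ℝ) := by exact_mod_cast hD
    set B := box X D with hB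
    set F := (B ×ˢ B ×ˢ B ×ˢ B).filter (fun y : ℕ × ℕ × ℕ × ℕ =>
      (y.1 * y.2.1) ^ e ≡ (y.2.2.1 * y.2.2.2) ^ e [MOD D]) with hF
    have hBc : (B.card : ℝ) ≤ X := by exact_mod_cast cdD_card_box X D
    set M : ℝ := C1 * (4 ^ (σ / 2) * (X : ℝ) ^ σ) with hMdef
    have hM0 : 0 ≤ M := by positivity
    set K : ℝ := (C2 * (D : ℝ) ^ σ * (2 * (4 * (X : ℝ) ^ 2 / D + 1))) * M with hKdef
    have hK0 : 0 ≤ K := by positivity
    have hfin : K * ((X : ℝ) * X) ≤
        8 * C1 * C2 * 4 ^ (σ / 2) * ((X : ℝ) * D) ^ σ * ((X : ℝ) ^ 2 * (1 + (X : ℝ) ^ 2 / D)) := by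
      rw [Real.mul_rpow (by positivity) (by positivity), hKdef, hMdef]
      have h5 : 2 * (4 * (X : ℝ) ^ 2 / D + 1) ≤ 8 * (1 + (X : ℝ) ^ 2 / D) := by
        have : 4 * (X : ℝ) ^ 2 / D = 4 * ((X : ℝ) ^ 2 / D) := by ring
        rw [this]
        linarith
      have h6 : 0 ≤ C2 * (D : ℝ) ^ σ * (C1 * (4 ^ (σ / 2) * (X : ℝ) ^ σ)) * ((X : ℝ) * X) := by
        positivity
      calc C2 * (D : ℝ) ^ σ * (2 * (4 * (X : ℝ) ^ 2 / D + 1)) *
            (C1 * (4 ^ (σ / 2) * (X : ℝ) ^ σ)) * ((X : ℝ) * X)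
          = C2 * (D : ℝ) ^ σ * (C1 * (4 ^ (σ / 2) * (X : ℝ) ^ σ)) * ((X : ℝ) * X) *
            (2 * (4 * (X : ℝ) ^ 2 / D + 1)) := by ring
        _ ≤ C2 * (D : ℝ) ^ σ * (C1 * (4 ^ (σ / 2) * (X : ℝ) ^ σ)) * ((X : ℝ) * X) *
            (8 * (1 + (X : ℝ) ^ 2 / D)) := mul_le_mul_of_nonneg_left h5 h6
        _ = _ := by ring
    refine le_trans ?_ hfin
    rcases Nat.eq_zero_or_pos e with he | he
    · -- `e = 0`
      have hX1 := he0 he
      have hF1 : (F.card : ℝ) ≤ 1 := by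
        have h1 : F ⊆ {((1 : ℕ), (1 : ℕ), (1 : ℕ), (1 : ℕ))} := by
          intro y hy
          rw [hF, Finset.mem_filter] at hy
          simp only [Finset.mem_product] at hy
          obtain ⟨⟨a1, a2, a3, a4⟩, _⟩ := hy
          have b1 := cdD_mem_box X D _ a1
          have b2 := cdD_mem_box X D _ a2
          have b3 := cdD_mem_box X D _ a3
          have b4 := cdD_mem_box X D _ a4
          rw [Finset.mem_singleton]
          obtain ⟨y1, y2, y3, y4⟩ := y
          simp only at b1 b2 b3 b4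
          simp only [Prod.mk.injEq]
          omega
        have h2 := Finset.card_le_card h1
        rw [Finset.card_singleton] at h2
        exact_mod_cast h2
      have hK1 : 1 ≤ K * ((X : ℝ) * X) := by
        rw [hKdef, hMdef]
        have g1 : (1 : ℝ) ≤ (D : ℝ) ^ σ := Real.one_le_rpow hDr hσ.le
        have g2 : (1 : ℝ) ≤ (X : ℝ) ^ σ := Real.one_le_rpow hXr hσ.le
        have g3 : (1 : ℝ) ≤ 2 * (4 * (X : ℝ) ^ 2 / D + 1) := by
          have : 0 ≤ 4 * (X : ℝ) ^ 2 / D := by positivity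
          linarith
        have g4 : (1 : ℝ) ≤ (X : ℝ) * X := one_le_mul_of_one_le_of_one_le hXr hXr
        have g5 : (1 : ℝ) ≤ C2 * (D : ℝ) ^ σ := one_le_mul_of_one_le_of_one_le hC2 g1
        have g6 : (1 : ℝ) ≤ C1 * (4 ^ (σ / 2) * (X : ℝ) ^ σ) :=
          one_le_mul_of_one_le_of_one_le hC1 (one_le_mul_of_one_le_of_one_le h4 g2)
        exact one_le_mul_of_one_le_of_one_le (one_le_mul_of_one_le_of_one_le
          (one_le_mul_of_one_le_of_one_le g5 g3) g6) g4
      linarith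
    · have hcop' : Nat.Coprime D e := by
        rcases hcop with h | h
        · exact h
        · omega
      have hMb : ∀ m : ℕ, m ≠ 0 → m < 4 * X ^ 2 → ((m.divisors.card : ℕ) : ℝ) ≤ M := by
        intro m hm hmX
        refine (hdiv m hm).trans ?_
        rw [hMdef]
        apply mul_le_mul_of_nonneg_left _ (by linarith)
        have h1 : (m : ℝ) ≤ 4 * (X : ℝ) ^ 2 := by exact_mod_cast hmX.le
        have h2 : (m : ℝ) ^ (σ / 2) ≤ (4 * (X : ℝ) ^ 2) ^ (σ / 2) :=
          Real.rpow_le_rpow (Nat.cast_nonneg _) h1 (by linarith)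
        refine h2.trans (le_of_eq ?_)
        rw [Real.mul_rpow (by norm_num) (by positivity)]
        congr 1
        rw [← Real.rpow_natCast, ← Real.rpow_mul (by positivity)]
        congr 1
        push_cast
        ring
      have hmaps : ∀ y ∈ F, (y.2.2 : ℕ × ℕ) ∈ B ×ˢ B := by
        intro y hy
        rw [hF, Finset.mem_filter] at hy
        simp only [Finset.mem_product] at hy
        rw [Finset.mem_product]
        exact ⟨hy.1.2.2.1, hy.1.2.2.2⟩
      have hsum : (F.card : ℝ) =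
          ∑ t ∈ B ×ˢ B, ((F.filter (fun y : ℕ × ℕ × ℕ × ℕ => y.2.2 = t)).card : ℝ) := by
        exact_mod_cast Finset.card_eq_sum_card_fiberwise hmaps
      rw [hsum]
      calc ∑ t ∈ B ×ˢ B, ((F.filter (fun y : ℕ × ℕ × ℕ × ℕ => y.2.2 = t)).card : ℝ)
          ≤ ∑ _t ∈ B ×ˢ B, K := by
            apply Finset.sum_le_sum
            intro t ht
            rw [Finset.mem_product] at ht
            have c1 := cdD_mem_box X D _ ht.1
            have c2 := cdD_mem_box X D _ ht.2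
            set G := F.filter (fun y : ℕ × ℕ × ℕ × ℕ => y.2.2 = t) with hG
            have hinj : G.card = (G.image (fun y : ℕ × ℕ × ℕ × ℕ => (y.1, y.2.1))).card := by
              symm
              apply Finset.card_image_of_injOn
              intro y hy z hz hyz
              have hy' := (Finset.mem_filter.mp (Finset.mem_coe.mp hy)).2
              have hz' := (Finset.mem_filter.mp (Finset.mem_coe.mp hz)).2
              obtain ⟨y1, y2, y3⟩ := y
              obtain ⟨z1, z2, z3⟩ := z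
              simp only [Prod.mk.injEq] at hy' hz' hyz ⊢
              refine ⟨hyz.1, hyz.2, ?_⟩
              rw [hy', hz']
            rw [hinj]
            have hfib := cdD_fiber e he X D hX hD hcop' (t.1 * t.2)
              (Nat.Coprime.mul_left c1.2.2 c2.2.2) M hMb
              (G.image (fun y : ℕ × ℕ × ℕ × ℕ => (y.1, y.2.1))) (by
                intro q hq
                rw [Finset.mem_image] at hq
                obtain ⟨y, hy, rfl⟩ := hq
                rw [hG, Finset.mem_filter, hF, Finset.mem_filter] at hy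
                simp only [Finset.mem_product] at hy
                obtain ⟨⟨⟨a1, a2, a3, a4⟩, a5⟩, a6⟩ := hy
                refine ⟨a1, a2, ?_⟩
                rw [← a6]
                exact a5)
            refine hfib.trans ?_
            rw [hKdef]
            apply mul_le_mul_of_nonneg_right _ hM0
            apply mul_le_mul_of_nonneg_right (hom D (by omega)) (by positivity)
        _ = (B.card : ℝ) * B.card * K := by
            rw [Finset.sum_const, nsmul_eq_mul, Finset.card_product]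
            push_cast
            ring
        _ ≤ (X : ℝ) * X * K := by
            apply mul_le_mul_of_nonneg_right _ hK0
            exact mul_le_mul hBc hBc (Nat.cast_nonneg _) (by linarith)
        _ = K * ((X : ℝ) * X) := by ring

end Pool.Agent.Lib.MP_d8bd92_nt
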