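import Mathlib

set_option autoImplicit false

namespace Pool.Agent.Lib.MP_d8bd92_nt

open Finset

/-- `r ^ ω(n) ≤ C n ^ κ`. -/
theorem exists_pow_card_primeFactors_le (r : ℕ) (κ : ℝ) (hκ : 0 < κ) :
    ∃ C : ℝ, 1 ≤ C ∧ ∀ n : ℕ, n ≠ 0 →
      ((r : ℝ) ^ (n.primeFactors.card)) ≤ C * (n : ℝ) ^ κ := by
  classical
  -- replace r by r' = max r 1
  set R : ℝ := max (r : ℝ) 1 with hR
  have hR1 : 1 ≤ R := le_max_right _ _
  have hR0 : 0 < R := by linarith
  set P0 : ℕ := ⌈R ^ (1 / κ)⌉₊ with hP0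
  refine ⟨R ^ P0, one_le_pow₀ hR1, ?_⟩
  intro n hn
  have hle : (r : ℝ) ^ n.primeFactors.card ≤ R ^ n.primeFactors.card :=
    pow_le_pow_left₀ (Nat.cast_nonneg _) (le_max_left _ _) _
  refine hle.trans ?_
  -- split
  have hsplit : R ^ n.primeFactors.card =
      R ^ (n.primeFactors.filter (fun p => p < P0)).card *
        R ^ (n.primeFactors.filter (fun p => ¬ p < P0)).card := by
    rw [← pow_add, Finset.card_filter_add_card_filter_not]
  rw [hsplit]
  have h1 : R ^ (n.primeFactors.filter (fun p => p < P0)).card ≤ R ^ P0 := by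
    apply pow_le_pow_right₀ hR1
    calc (n.primeFactors.filter (fun p => p < P0)).card ≤ (Finset.range P0).card := by
          apply Finset.card_le_card
          intro p hp
          rw [Finset.mem_filter] at hp
          exact Finset.mem_range.mpr hp.2
      _ = P0 := Finset.card_range _
  have h2 : R ^ (n.primeFactors.filter (fun p => ¬ p < P0)).card ≤ (n : ℝ) ^ κ := by
    have h3 : R ^ (n.primeFactors.filter (fun p => ¬ p < P0)).card ≤
        ∏ p ∈ n.primeFactors.filter (fun p => ¬ p < P0), (p : ℝ) ^ κ := by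
      rw [← Finset.prod_const]
      apply Finset.prod_le_prod
      · intro i _; exact hR0.le
      · intro p hp
        rw [Finset.mem_filter, not_lt] at hp
        have h4 : R ^ (1 / κ) ≤ (p : ℝ) := by
          calc R ^ (1 / κ) ≤ (P0 : ℝ) := Nat.le_ceil _
            _ ≤ (p : ℝ) := by exact_mod_cast hp.2
        calc R = (R ^ (1 / κ)) ^ κ := by
              rw [← Real.rpow_mul hR0.le, one_div_mul_cancel hκ.ne', Real.rpow_one]
          _ ≤ (p : ℝ) ^ κ := Real.rpow_le_rpow (Real.rpow_nonneg hR0.le _) h4 hκ.le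
    refine h3.trans ?_
    rw [Real.finsetProd_rpow _ _ (fun i _ => Nat.cast_nonneg _)]
    apply Real.rpow_le_rpow (Finset.prod_nonneg (fun i _ => Nat.cast_nonneg _)) _ hκ.le
    have h5 : ∏ p ∈ n.primeFactors.filter (fun p => ¬ p < P0), p ≤ n := by
      apply Nat.le_of_dvd (Nat.pos_of_ne_zero hn)
      refine dvd_trans ?_ (Nat.prod_primeFactors_dvd n)
      exact Finset.prod_dvd_prod_of_subset _ _ _ (Finset.filter_subset _ _)
    calc ∏ p ∈ n.primeFactors.filter (fun p => ¬ p < P0), (p : ℝ)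
        = ((∏ p ∈ n.primeFactors.filter (fun p => ¬ p < P0), p : ℕ) : ℝ) := by push_cast; rfl
      _ ≤ (n : ℝ) := by exact_mod_cast h5
  exact mul_le_mul h1 h2 (by positivity) (by positivity)

/-- A natural number is squareful if every prime dividing it divides it at least twice. -/
def Squareful (D : ℕ) : Prop := ∀ p : ℕ, p.Prime → p ∣ D → p ^ 2 ∣ D

theorem squareful_repr (D : ℕ) (hD : D ≠ 0) (h : Squareful D) :
    ∃ x z : ℕ, 0 < x ∧ 0 < z ∧ D = x ^ 2 * z ^ 3 := by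
  induction D using Nat.recOnPosPrimePosCoprime with
  | prime_pow p n hp hn =>
    have h2 : 2 ≤ n := by
      have h3 := h p hp (dvd_pow_self p hn.ne')
      exact (Nat.pow_dvd_pow_iff_le_right hp.one_lt).mp h3
    rcases Nat.even_or_odd n with he | ho
    · obtain ⟨i, hi⟩ := he
      refine ⟨p ^ i, 1, pow_pos hp.pos _, one_pos, ?_⟩
      rw [hi]; ring
    · obtain ⟨i, hi⟩ := ho
      refine ⟨p ^ (i - 1), p, pow_pos hp.pos _, hp.pos, ?_⟩
      have hi1 : 1 ≤ i := by omega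
      rw [hi, ← pow_mul, ← pow_add]
      congr 1
      omega
  | zero => exact absurd rfl hD
  | one => exact ⟨1, 1, one_pos, one_pos, by norm_num⟩
  | coprime a b ha hb hab iha ihb =>
    have ha0 : a ≠ 0 := by omega
    have hb0 : b ≠ 0 := by omega
    have hsa : Squareful a := by
      intro p hp hpa
      have h1 := h p hp (hpa.mul_right b)
      have h2 : Nat.Coprime p b := Nat.Coprime.coprime_dvd_left hpa hab
      exact (Nat.Coprime.pow_left 2 h2).dvd_of_dvd_mul_right h1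
    have hsb : Squareful b := by
      intro p hp hpb
      have h1 := h p hp (hpb.mul_left a)
      have h2 : Nat.Coprime p a := Nat.Coprime.coprime_dvd_left hpb hab.symm
      exact (Nat.Coprime.pow_left 2 h2).dvd_of_dvd_mul_left h1
    obtain ⟨x, z, hx, hz, e1⟩ := iha ha0 hsa
    obtain ⟨x', z', hx', hz', e2⟩ := ihb hb0 hsb
    refine ⟨x * x', z * z', Nat.mul_pos hx hx', Nat.mul_pos hz hz', ?_⟩
    rw [e1, e2]; ring

theorem FamArith_nn (s : ℝ) (n : ℕ) : 0 ≤ ((n : ℝ) ^ s)⁻¹ :=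
  inv_nonneg.2 (Real.rpow_nonneg (Nat.cast_nonneg n) s)

theorem FamArith_eq (s : ℝ) (q : ℕ × ℕ) : ((q.1 : ℝ) ^ (2 : ℕ) * (q.2 : ℝ) ^ (3 : ℕ)) ^ (-s) =
    ((q.1 : ℝ) ^ (2 * s))⁻¹ * ((q.2 : ℝ) ^ (3 * s))⁻¹ := by
  have h1 : (0 : ℝ) ≤ (q.1 : ℝ) := Nat.cast_nonneg _
  have h2 : (0 : ℝ) ≤ (q.2 : ℝ) := Nat.cast_nonneg _
  rw [Real.mul_rpow (pow_nonneg h1 2) (pow_nonneg h2 3), Real.rpow_neg (pow_nonneg h1 2),
    Real.rpow_neg (pow_nonneg h2 3), ← Real.rpow_natCast_mul h1, ← Real.rpow_natCast_mul h2, Nat.cast_ofNat,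
    Nat.cast_ofNat]

theorem FamArith_bd (f : ℕ × ℕ → ℝ) (h : Summable f) (h0 : ∀ q, 0 ≤ f q) :
    ∃ C : ℝ, 0 < C ∧ ∀ P : Finset (ℕ × ℕ), ∑ q ∈ P, f q ≤ C :=
  ⟨(∑' q, f q) + 1, add_pos_of_nonneg_of_pos (tsum_nonneg h0) one_pos,
    fun P => (h.sum_le_tsum P fun q _ => h0 q).trans (le_add_of_nonneg_right zero_le_one)⟩

theorem exists_sum_rpow_le (s : ℝ) (hs : 1 / 2 < s) :
    ∃ C : ℝ, 0 < C ∧ ∀ P : Finset (ℕ × ℕ),
      (∑ q ∈ P, ((q.1 : ℝ) ^ (2 : ℕ) * (q.2 : ℝ) ^ (3 : ℕ)) ^ (-s)) ≤ C := by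
  have h1 : Summable (fun n : ℕ => ((n : ℝ) ^ (2 * s))⁻¹) :=
    Real.summable_nat_rpow_inv.mpr (by linarith)
  have h2 : Summable (fun n : ℕ => ((n : ℝ) ^ (3 * s))⁻¹) :=
    Real.summable_nat_rpow_inv.mpr (by linarith)
  have h3 := h1.mul_of_nonneg h2 (FamArith_nn (2 * s)) (FamArith_nn (3 * s))
  obtain ⟨C, hC, h⟩ := FamArith_bd _ h3 fun q => mul_nonneg (FamArith_nn _ _) (FamArith_nn _ _)
  refine ⟨C, hC, fun P => ?_⟩
  rw [Finset.sum_congr rfl fun q _ => FamArith_eq s q]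
  exact h P

end Pool.Agent.Lib.MP_d8bd92_nt
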