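import Pool.Agent.Lib.MP_d8bd92_nt.TwRad
import Pool.Agent.Lib.MP_d8bd92_nt.FamArith

set_option autoImplicit false

/-!
Definitions for: semistable elliptic curves with full rational 2-torsion ordered by conductor.
-/

namespace Pool.Agent.Lib.MP_d8bd92_nt

open Finset Pool.Agent.Lib.Szpiro

/-- the product of the primes `p` with `v_p(n) = k` (for `k = 0` it is `1`) -/
def xpart (n k : ℕ) : ℕ := ∏ p ∈ n.primeFactors.filter (fun p => n.factorization p = k), p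

/-- the multiplicative energy of a map on a finite set -/
def energy {G α : Type*} [CommGroup G] [DecidableEq G] (s : Finset α) (f : α → G) : ℕ :=
  ((s ×ˢ s ×ˢ s ×ˢ s).filter (fun y : α × α × α × α => f y.1 * f y.2.1 = f y.2.2.1 * f y.2.2.2)).card

/-- the numbers of `[X, 2X)` coprime to `D` -/
def box (X D : ℕ) : Finset ℕ := (Ico X (2 * X)).filter (fun x => Nat.Coprime x D)

/-- `n = u x^k` with `1 ≤ k < K`, `rad u ≤ U`, `1 ≤ x ≤ M` -/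
def NearPow (K : ℕ) (U M : ℝ) (n : ℕ) : Prop :=
  ∃ k u x : ℕ, 1 ≤ k ∧ k < K ∧ n = u * x ^ k ∧ (rd u : ℝ) ≤ U ∧ 1 ≤ x ∧ (x : ℝ) ≤ M

/-- event E1: two of the radicals have a small product -/
def EvOne (Q : ℝ) (a b : ℕ) : Prop :=
  (rd a : ℝ) * rd b ≤ Q ∨ (rd a : ℝ) * rd (a + b) ≤ Q ∨ (rd b : ℝ) * rd (a + b) ≤ Q

/-- the data common to E2: the pair `(m, n)` is `(a, b)`, `(a, c)` or `(b, c)` (in any order), `l`
is the third number; `l` divides `m - s n` -/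
def Role (a b : ℕ) (s : ℤ) (m n l : ℕ) : Prop :=
  (s = -1 ∧ ((m = a ∧ n = b) ∨ (m = b ∧ n = a)) ∧ l = a + b) ∨
  (s = 1 ∧ ((m = a ∧ n = a + b) ∨ (m = a + b ∧ n = a)) ∧ l = b) ∨
  (s = 1 ∧ ((m = b ∧ n = a + b) ∨ (m = a + b ∧ n = b)) ∧ l = a)

/-- event E2a: `p² ∣ l` and `m` has a long variable of exact exponent `i`, longer than `p L` -/
def EvTwoA (K : ℕ) (pmin L : ℝ) (a b : ℕ) : Prop :=
  ∃ (s : ℤ) (m n l k i : ℕ), Role a b s m n l ∧ 2 ≤ k ∧ k < K ∧ 1 ≤ i ∧ i < K ∧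
    pmin ≤ (xpart l k : ℝ) ∧ (xpart l k : ℝ) * L ≤ (xpart m i : ℝ)

/-- event E2b: `p² ∣ l` and `m n` has at most four variables, none longer than `p L`, with product
at least `p² V` -/
def EvTwoB (K : ℕ) (pmin L V : ℝ) (a b : ℕ) : Prop :=
  ∃ (s : ℤ) (m n l k : ℕ) (W : Finset (Bool × ℕ)), Role a b s m n l ∧ 2 ≤ k ∧ k < K ∧
    W.card ≤ 4 ∧ (∀ w ∈ W, 1 ≤ w.2 ∧ w.2 < K) ∧
    pmin ≤ (xpart l k : ℝ) ∧
    (∀ w ∈ W, (xpart (if w.1 then m else n) w.2 : ℝ) ≤ (xpart l k : ℝ) * L) ∧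
    (xpart l k : ℝ) ^ 2 * V ≤ ∏ w ∈ W, (xpart (if w.1 then m else n) w.2 : ℝ)

/-- The pairs `(c₄, c₆)` of the semistable elliptic curves over `ℚ` (given by integral Weierstrass
curves with `Δ ≠ 0` prime to `c₄`) with full rational 2-torsion, whose conductor `N` (the product
of the primes dividing `Δ`) and discriminant satisfy `P N |Δ|`. -/
def FullTwoSet (P : ℕ → ℕ → Prop) : Set (ℤ × ℤ) :=
  {c | ∃ W : WeierstrassCurve ℤ, W.c₄ = c.1 ∧ W.c₆ = c.2 ∧ W.Δ ≠ 0 ∧ IsCoprime W.c₄ W.Δ ∧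
    (∃ S T : (W.baseChange ℚ).toAffine.Point, addOrderOf S = 2 ∧ addOrderOf T = 2 ∧ S ≠ T) ∧
    P (∏ p ∈ W.Δ.natAbs.primeFactors, p) W.Δ.natAbs}

end Pool.Agent.Lib.MP_d8bd92_nt
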