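import Pool.Agent.Lib.MP_d8bd92_nt.CdDefs
import Pool.Agent.Lib.MP_d8bd92_nt.CdA

set_option autoImplicit false

/-!
Row E1: pairs `(m, n)` with one long variable and a square divisor of `m - s n`.
-/

namespace Pool.Agent.Lib.MP_d8bd92_nt

open Finset Pool.Agent.Lib.Szpiro


namespace CdE1

/-- roots of unity in a finite abelian group that is cyclic up to index two -/
theorem nat_card_tors_le {G : Type*} [CommGroup G] [Finite G] (g : G)
    (hg : Nat.card G ≤ 2 * orderOf g) (e : ℕ) (he : 1 ≤ e) :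
    Nat.card {u : G // u ^ e = 1} ≤ 2 * e := by
  set φ : G →* G := powMonoidHom e with hφ
  have h0 : Nat.card {u : G // u ^ e = 1} = Nat.card φ.ker := by
    refine Nat.card_congr (Equiv.subtypeEquivRight ?_)
    intro u
    rw [MonoidHom.mem_ker]
    rfl
  have h1 : Nat.card G = Nat.card (G ⧸ φ.ker) * Nat.card φ.ker :=
    Subgroup.card_eq_card_quotient_mul_card_subgroup φ.ker
  have h2 : Nat.card (G ⧸ φ.ker) = Nat.card φ.range :=
    Nat.card_congr (QuotientGroup.quotientKerEquivRange φ).toEquiv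
  have h3 : orderOf (g ^ e) ≤ Nat.card φ.range := by
    have h4 : Subgroup.zpowers (g ^ e) ≤ φ.range := by
      rw [Subgroup.zpowers_le]
      exact ⟨g, rfl⟩
    rw [← Nat.card_zpowers]
    exact Nat.card_le_card_of_injective (Subgroup.inclusion h4) (Subgroup.inclusion_injective h4)
  have h5 : orderOf g ≤ e * orderOf (g ^ e) := by
    refine Nat.le_of_dvd (Nat.mul_pos (by omega) (orderOf_pos _)) ?_
    rw [orderOf_dvd_iff_pow_eq_one, pow_mul, pow_orderOf_eq_one]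
  have h6 : 0 < orderOf g := orderOf_pos g
  rw [h0]
  have h7 : Nat.card φ.ker * orderOf g ≤ (2 * e) * orderOf g := by
    calc Nat.card φ.ker * orderOf g ≤ Nat.card φ.ker * (e * orderOf (g ^ e)) :=
          Nat.mul_le_mul_left _ h5
      _ ≤ Nat.card φ.ker * (e * Nat.card φ.range) :=
          Nat.mul_le_mul_left _ (Nat.mul_le_mul_left _ h3)
      _ = e * Nat.card G := by rw [h1, h2]; ring
      _ ≤ e * (2 * orderOf g) := Nat.mul_le_mul_left _ hg
      _ = (2 * e) * orderOf g := by ring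
  exact Nat.le_of_mul_le_mul_right h7 h6

theorem nat_card_tors_prime_pow (q a e : ℕ) (hq : q.Prime) (he : 1 ≤ e) :
    Nat.card {u : (ZMod (q ^ a))ˣ // u ^ e = 1} ≤ 2 * e := by
  haveI : NeZero (q ^ a) := ⟨pow_ne_zero _ hq.ne_zero⟩
  by_cases hq2 : q = 2
  · subst hq2
    rcases Nat.lt_or_ge a 2 with ha | ha
    · interval_cases a
      · refine nat_card_tors_le (1 : (ZMod (2 ^ 0))ˣ) ?_ e he
        rw [Nat.card_eq_fintype_card, ZMod.card_units_eq_totient]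
        simp
      · refine nat_card_tors_le (1 : (ZMod (2 ^ 1))ˣ) ?_ e he
        rw [Nat.card_eq_fintype_card, ZMod.card_units_eq_totient]
        simp
    · obtain ⟨n, rfl⟩ : ∃ n, a = n + 2 := ⟨a - 2, by omega⟩
      have hco : Nat.Coprime 5 (2 ^ (n + 2)) := Nat.Coprime.pow_right _ (by norm_num)
      refine nat_card_tors_le (ZMod.unitOfCoprime 5 hco) ?_ e he
      have h5 : orderOf (ZMod.unitOfCoprime 5 hco) = 2 ^ n := by
        rw [← orderOf_units, ZMod.coe_unitOfCoprime]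
        have := ZMod.orderOf_five n
        exact_mod_cast this
      rw [h5, Nat.card_eq_fintype_card, ZMod.card_units_eq_totient,
        Nat.totient_prime_pow (by norm_num) (by omega)]
      simp only [show n + 2 - 1 = n + 1 by omega]
      rw [pow_succ]
      omega
  · haveI := ZMod.isCyclic_units_of_prime_pow q hq hq2 a
    obtain ⟨g, hg⟩ := IsCyclic.exists_ofOrder_eq_natCard (α := (ZMod (q ^ a))ˣ)
    exact nat_card_tors_le g (by omega) e he

theorem nat_card_tors_mul (a b e : ℕ) (h : Nat.Coprime a b) :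
    Nat.card {u : (ZMod (a * b))ˣ // u ^ e = 1} =
      Nat.card {u : (ZMod a)ˣ // u ^ e = 1} * Nat.card {u : (ZMod b)ˣ // u ^ e = 1} := by
  let f : (ZMod (a * b))ˣ ≃* (ZMod a)ˣ × (ZMod b)ˣ :=
    (Units.mapEquiv (ZMod.chineseRemainder h).toMulEquiv).trans MulEquiv.prodUnits
  rw [← Nat.card_prod]
  refine Nat.card_congr ?_
  refine { toFun := fun u => (⟨(f u.1).1, ?_⟩, ⟨(f u.1).2, ?_⟩),
           invFun := fun v => ⟨f.symm (v.1.1, v.2.1), ?_⟩,
           left_inv := ?_, right_inv := ?_ }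
  · have h1 := congrArg f u.2
    rw [map_pow, map_one] at h1
    exact congrArg Prod.fst h1
  · have h1 := congrArg f u.2
    rw [map_pow, map_one] at h1
    exact congrArg Prod.snd h1
  · rw [← map_pow, Prod.pow_mk, v.1.2, v.2.2]
    exact map_one f.symm
  · intro u
    apply Subtype.ext
    exact f.symm_apply_apply u.1
  · intro v
    refine Prod.ext (Subtype.ext ?_) (Subtype.ext ?_)
    · show (f (f.symm (v.1.1, v.2.1))).1 = _
      rw [f.apply_symm_apply]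
    · show (f (f.symm (v.1.1, v.2.1))).2 = _
      rw [f.apply_symm_apply]

theorem nat_card_tors (e : ℕ) (he : 1 ≤ e) (D : ℕ) (hD : D ≠ 0) :
    Nat.card {u : (ZMod D)ˣ // u ^ e = 1} ≤ (2 * e) ^ D.primeFactors.card := by
  induction D using Nat.recOnPosPrimePosCoprime with
  | prime_pow p n hp hn =>
    rw [Nat.primeFactors_prime_pow hn.ne' hp, Finset.card_singleton, pow_one]
    exact nat_card_tors_prime_pow p n e hp he
  | zero => exact absurd rfl hD
  | one =>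
    haveI : Subsingleton (ZMod 1)ˣ := by
      refine ⟨fun a b => Units.ext ?_⟩
      exact Subsingleton.elim _ _
    simp only [Nat.primeFactors_one, Finset.card_empty, pow_zero]
    exact Finite.card_le_one_iff_subsingleton.mpr inferInstance
  | coprime a b ha hb hab iha ihb =>
    rw [nat_card_tors_mul a b e hab, hab.primeFactors_mul,
      Finset.card_union_of_disjoint hab.disjoint_primeFactors, pow_add]
    exact Nat.mul_le_mul (iha (by omega)) (ihb (by omega))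

theorem card_residue (D X : ℕ) (hD : 1 ≤ D) (T : Finset ℕ) (hT : ∀ x ∈ T, X ≤ x ∧ x < 2 * X)
    (hc : ∀ x ∈ T, ∀ y ∈ T, x ≡ y [MOD D]) : (T.card : ℝ) ≤ 1 + (X : ℝ) / D := by
  have h1 : T.card ≤ X / D + 1 := by
    rw [← Finset.card_range (X / D + 1)]
    refine Finset.card_le_card_of_injOn (fun x => (x - X) / D) ?_ ?_
    · intro x hx
      have h2 := hT x hx
      simp only [Finset.coe_range, Set.mem_Iio]
      have h3 : (x - X) / D ≤ X / D := Nat.div_le_div_right (by omega)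
      omega
    · intro x hx y hy hxy
      have h2 := hT x hx
      have h3 := hT y hy
      have h4 := hc x hx y hy
      have h5 : x - X ≡ y - X [MOD D] := by
        refine Nat.ModEq.add_right_cancel' X ?_
        rwa [Nat.sub_add_cancel h2.1, Nat.sub_add_cancel h3.1]
      have h6 : (x - X) % D = (y - X) % D := h5
      simp only at hxy
      have h7 := Nat.div_add_mod (x - X) D
      have h8 := Nat.div_add_mod (y - X) D
      rw [hxy, h6] at h7
      omega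
  have h2 : ((X / D : ℕ) : ℝ) ≤ (X : ℝ) / D := Nat.cast_div_le
  calc (T.card : ℝ) ≤ ((X / D + 1 : ℕ) : ℝ) := by exact_mod_cast h1
    _ = ((X / D : ℕ) : ℝ) + 1 := by push_cast; ring
    _ ≤ 1 + (X : ℝ) / D := by linarith

/-- solutions of `w x ^ e ≡ c mod D` in `[X, 2X)` -/
theorem card_roots (K : ℕ) (σ : ℝ) (hσ : 0 < σ) : ∃ C : ℝ, 1 ≤ C ∧
    ∀ (D X e w : ℕ) (c : ℤ) (T : Finset ℕ), 1 ≤ D → 1 ≤ e → e < K → Nat.Coprime w D →
    (∀ x ∈ T, X ≤ x ∧ x < 2 * X ∧ Nat.Coprime x D ∧ (D : ℤ) ∣ (w : ℤ) * (x : ℤ) ^ e - c) →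
    (T.card : ℝ) ≤ C * (D : ℝ) ^ σ * (1 + (X : ℝ) / D) := by
  classical
  obtain ⟨C, hC, hb⟩ := exists_pow_card_primeFactors_le (2 * K) σ hσ
  refine ⟨C, hC, ?_⟩
  intro D X e w c T hD he heK hw hT
  haveI : NeZero D := ⟨by omega⟩
  have hD0 : (0 : ℝ) < D := by exact_mod_cast hD
  have hM0 : 0 ≤ 1 + (X : ℝ) / D := by positivity
  rcases T.eq_empty_or_nonempty with h0 | ⟨x0, hx0⟩
  · subst h0
    simp only [Finset.card_empty, Nat.cast_zero]
    positivity
  -- the unit attached to x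
  have hx0c := (hT x0 hx0).2.2.1
  set u0 : (ZMod D)ˣ := ZMod.unitOfCoprime x0 hx0c with hu0
  set un : ℕ → (ZMod D)ˣ := fun x => if h : Nat.Coprime x D then ZMod.unitOfCoprime x h else 1
    with hun
  have hun1 : ∀ x, Nat.Coprime x D → ((un x : (ZMod D)ˣ) : ZMod D) = (x : ZMod D) := by
    intro x hx
    rw [hun]
    simp only [dif_pos hx, ZMod.coe_unitOfCoprime]
  set R : Finset (ZMod D)ˣ := Finset.univ.filter (fun u => u ^ e = 1) with hR
  have hRcard : (R.card : ℝ) ≤ C * (D : ℝ) ^ σ := by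
    have h1 : R.card = Nat.card {u : (ZMod D)ˣ // u ^ e = 1} := by
      rw [Nat.card_eq_fintype_card, Fintype.card_subtype]
    have h2 := nat_card_tors e he D (by omega)
    rw [← h1] at h2
    calc (R.card : ℝ) ≤ (((2 * e) ^ D.primeFactors.card : ℕ) : ℝ) := by exact_mod_cast h2
      _ ≤ (((2 * K) ^ D.primeFactors.card : ℕ) : ℝ) := by
          have h3 : (2 * e) ^ D.primeFactors.card ≤ (2 * K) ^ D.primeFactors.card :=
            Nat.pow_le_pow_left (by omega) _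
          exact_mod_cast h3
      _ = ((2 * K : ℕ) : ℝ) ^ D.primeFactors.card := by push_cast; ring
      _ ≤ C * (D : ℝ) ^ σ := hb D (by omega)
  have hmem : ∀ x ∈ T, un x * (un x0)⁻¹ ∈ R := by
    intro x hx
    rw [hR, Finset.mem_filter]
    refine ⟨Finset.mem_univ _, ?_⟩
    have h1 := (hT x hx)
    have h2 := (hT x0 hx0)
    have h3 : (D : ℤ) ∣ (w : ℤ) * ((x : ℤ) ^ e - (x0 : ℤ) ^ e) := by
      have h4 := dvd_sub h1.2.2.2 h2.2.2.2
      have h5 : (w : ℤ) * (x : ℤ) ^ e - c - ((w : ℤ) * (x0 : ℤ) ^ e - c) =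
          (w : ℤ) * ((x : ℤ) ^ e - (x0 : ℤ) ^ e) := by ring
      rwa [h5] at h4
    have h6 : (D : ℤ) ∣ (x : ℤ) ^ e - (x0 : ℤ) ^ e := by
      refine IsCoprime.dvd_of_dvd_mul_left ?_ h3
      exact Nat.isCoprime_iff_coprime.mpr hw.symm
    have h7 : ((x : ZMod D)) ^ e = ((x0 : ZMod D)) ^ e := by
      have h8 := (ZMod.intCast_zmod_eq_zero_iff_dvd ((x : ℤ) ^ e - (x0 : ℤ) ^ e) D).mpr h6
      push_cast at h8
      exact sub_eq_zero.mp h8
    have h9 : (un x) ^ e = (un x0) ^ e := by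
      apply Units.ext
      rw [Units.val_pow_eq_pow_val, Units.val_pow_eq_pow_val, hun1 x h1.2.2.1, hun1 x0 h2.2.2.1, h7]
    rw [mul_pow, inv_pow, h9, mul_inv_cancel]
  have hfib : ∀ r ∈ R, ((T.filter (fun x => un x * (un x0)⁻¹ = r)).card : ℝ) ≤
      1 + (X : ℝ) / D := by
    intro r _
    refine card_residue D X hD _ ?_ ?_
    · intro x hx
      have h1 := hT x (Finset.mem_filter.mp hx).1
      exact ⟨h1.1, h1.2.1⟩
    · intro x hx y hy
      rw [Finset.mem_filter] at hx hy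
      have h1 := hT x hx.1
      have h2 := hT y hy.1
      have h3 : un x = un y := mul_right_cancel (hx.2.trans hy.2.symm)
      have h4 : (x : ZMod D) = (y : ZMod D) := by
        rw [← hun1 x h1.2.2.1, ← hun1 y h2.2.2.1, h3]
      exact (ZMod.natCast_eq_natCast_iff x y D).mp h4
  have hsum : (T.card : ℝ) = ∑ r ∈ R, ((T.filter (fun x => un x * (un x0)⁻¹ = r)).card : ℝ) := by
    rw [Finset.card_eq_sum_card_fiberwise (f := fun x => un x * (un x0)⁻¹) (t := R) hmem]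
    push_cast
    rfl
  rw [hsum]
  calc ∑ r ∈ R, ((T.filter (fun x => un x * (un x0)⁻¹ = r)).card : ℝ)
      ≤ ∑ _r ∈ R, (1 + (X : ℝ) / D) := Finset.sum_le_sum hfib
    _ = R.card * (1 + (X : ℝ) / D) := by rw [Finset.sum_const, nsmul_eq_mul]
    _ ≤ C * (D : ℝ) ^ σ * (1 + (X : ℝ) / D) := mul_le_mul_of_nonneg_right hRcard hM0

end CdE1

/-- pairs `(m, n)` with `m = w x^e`, `rad w rad n ≤ Q` and `p² ∣ m - s n` for some `p ∈ [P, 2P)` -/
theorem count_one (K : ℕ) (σ : ℝ) (hσ : 0 < σ) : ∃ C : ℝ, 1 ≤ C ∧ ∀ (Z P X e : ℕ) (s : ℤ)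
    (Q : ℝ) (S : Finset (ℕ × ℕ)),
    1 ≤ Z → 1 ≤ P → P ≤ Z → 1 ≤ X → 1 ≤ e → e < K → (s = 1 ∨ s = -1) → 0 ≤ Q →
    (∀ q ∈ S, 1 ≤ q.1 ∧ q.1 ≤ Z ∧ 1 ≤ q.2 ∧ q.2 ≤ Z ∧ ∃ (p w x : ℕ), P ≤ p ∧ p < 2 * P ∧
      q.1 = w * x ^ e ∧ (rd w : ℝ) * rd q.2 ≤ Q ∧ X ≤ x ∧ x < 2 * X ∧
      Nat.Coprime p (q.1 * q.2) ∧ ((p : ℤ)) ^ 2 ∣ (q.1 : ℤ) - s * q.2) →
    (S.card : ℝ) ≤ C * (Z : ℝ) ^ σ * (P * Q) * (1 + (X : ℝ) / (P : ℝ) ^ 2) := by
  classical
  obtain ⟨C1, hC1, h1⟩ := card_pair_rd_le (σ / 2) (by positivity)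
  obtain ⟨C2, hC2, h2⟩ := CdE1.card_roots K (σ / 4) (by positivity)
  have h4σ : (1 : ℝ) ≤ 4 ^ (σ / 4) := Real.one_le_rpow (by norm_num) (by positivity)
  refine ⟨C1 * (C2 * 4 ^ (σ / 4)), ?_, ?_⟩
  · have h3 : (1 : ℝ) ≤ C2 * 4 ^ (σ / 4) := one_le_mul_of_one_le_of_one_le hC2 h4σ
    exact one_le_mul_of_one_le_of_one_le hC1 h3
  intro Z P X e s Q S hZ hP hPZ hX he heK hs hQ hS
  have hZ0 : (0 : ℝ) < Z := by exact_mod_cast hZ
  have hP0 : (0 : ℝ) < P := by exact_mod_cast hP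
  set I : Finset ℕ := Ico P (2 * P) with hI
  set B : Finset (ℕ × ℕ) := (Icc 1 Z ×ˢ Icc 1 Z).filter
    (fun q : ℕ × ℕ => (rd q.1 : ℝ) * rd q.2 ≤ Q) with hB
  set T : ℕ → ℕ × ℕ → Finset ℕ := fun p b => (Ico X (2 * X)).filter
    (fun x => Nat.Coprime p (b.1 * x ^ e) ∧
      ((p : ℤ)) ^ 2 ∣ (b.1 : ℤ) * (x : ℤ) ^ e - s * b.2) with hT
  have hsub : S ⊆ I.biUnion (fun p => B.biUnion (fun b => (T p b).image
      (fun x => (b.1 * x ^ e, b.2)))) := by
    intro q hq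
    obtain ⟨hm1, hmZ, hn1, hnZ, p, w, x, hPp, hpP, hmw, hrd, hXx, hxX, hcop, hdvd⟩ := hS q hq
    rw [Finset.mem_biUnion]
    refine ⟨p, Finset.mem_Ico.mpr ⟨hPp, hpP⟩, ?_⟩
    rw [Finset.mem_biUnion]
    have hx1 : 1 ≤ x := le_trans hX hXx
    have hxe : 1 ≤ x ^ e := Nat.one_le_pow _ _ hx1
    have hw1 : 1 ≤ w := by
      rcases Nat.eq_zero_or_pos w with h | h
      · rw [h, zero_mul] at hmw; omega
      · exact h
    have hwZ : w ≤ Z := by
      calc w = w * 1 := (mul_one w).symm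
        _ ≤ w * x ^ e := Nat.mul_le_mul_left _ hxe
        _ = q.1 := hmw.symm
        _ ≤ Z := hmZ
    refine ⟨(w, q.2), ?_, ?_⟩
    · rw [hB, Finset.mem_filter, Finset.mem_product, Finset.mem_Icc, Finset.mem_Icc]
      exact ⟨⟨⟨hw1, hwZ⟩, ⟨hn1, hnZ⟩⟩, hrd⟩
    · rw [Finset.mem_image]
      refine ⟨x, ?_, ?_⟩
      · rw [hT]
        simp only [Finset.mem_filter, Finset.mem_Ico]
        refine ⟨⟨hXx, hxX⟩, ?_, ?_⟩
        · rw [← hmw]
          exact Nat.Coprime.coprime_dvd_right (Dvd.intro _ rfl) hcop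
        · rw [hmw] at hdvd
          push_cast at hdvd
          exact hdvd
      · rw [← hmw]
  set M : ℝ := C2 * (4 ^ (σ / 4) * (Z : ℝ) ^ (σ / 2)) * (1 + (X : ℝ) / (P : ℝ) ^ 2) with hM
  have hM0 : 0 ≤ M := by positivity
  have hcard : ∀ p ∈ I, ∀ b ∈ B, ((T p b).card : ℝ) ≤ M := by
    intro p hp b _
    rw [hI, Finset.mem_Ico] at hp
    have hp1 : 1 ≤ p := le_trans hP hp.1
    have hp2 : 1 ≤ p ^ 2 := Nat.one_le_pow _ _ hp1
    rcases (T p b).eq_empty_or_nonempty with h0 | ⟨x0, hx0⟩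
    · rw [h0, Finset.card_empty, Nat.cast_zero]; exact hM0
    have hw : Nat.Coprime b.1 (p ^ 2) := by
      rw [hT] at hx0
      simp only [Finset.mem_filter] at hx0
      exact Nat.Coprime.pow_right _ (Nat.Coprime.coprime_dvd_right (Dvd.intro _ rfl) hx0.2.1).symm
    have h3 := h2 (p ^ 2) X e b.1 (s * b.2) (T p b) hp2 he heK hw (by
      intro x hx
      rw [hT] at hx
      simp only [Finset.mem_filter, Finset.mem_Ico] at hx
      obtain ⟨⟨hx1, hx2⟩, hx3, hx4⟩ := hx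
      refine ⟨hx1, hx2, ?_, ?_⟩
      · refine Nat.Coprime.pow_right _ ?_
        have h4 : Nat.Coprime p (x ^ e) := Nat.Coprime.coprime_dvd_right (Dvd.intro_left _ rfl) hx3
        exact (Nat.Coprime.coprime_dvd_right (dvd_pow_self x (by omega)) h4).symm
      · push_cast
        exact hx4)
    refine h3.trans ?_
    have h5 : ((p ^ 2 : ℕ) : ℝ) ^ (σ / 4) ≤ 4 ^ (σ / 4) * (Z : ℝ) ^ (σ / 2) := by
      have h6 : ((p ^ 2 : ℕ) : ℝ) ≤ 4 * (Z : ℝ) ^ (2 : ℕ) := by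
        have h7 : p ≤ 2 * Z := by omega
        have h8 : p ^ 2 ≤ (2 * Z) ^ 2 := Nat.pow_le_pow_left h7 2
        calc ((p ^ 2 : ℕ) : ℝ) ≤ (((2 * Z) ^ 2 : ℕ) : ℝ) := by exact_mod_cast h8
          _ = 4 * (Z : ℝ) ^ (2 : ℕ) := by push_cast; ring
      calc ((p ^ 2 : ℕ) : ℝ) ^ (σ / 4) ≤ (4 * (Z : ℝ) ^ (2 : ℕ)) ^ (σ / 4) :=
            Real.rpow_le_rpow (Nat.cast_nonneg _) h6 (by positivity)
        _ = 4 ^ (σ / 4) * ((Z : ℝ) ^ (2 : ℕ)) ^ (σ / 4) :=
            Real.mul_rpow (by norm_num) (by positivity)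
        _ = 4 ^ (σ / 4) * (Z : ℝ) ^ (σ / 2) := by
            rw [← Real.rpow_natCast, ← Real.rpow_mul hZ0.le]
            congr 2
            push_cast
            ring
    have h9 : (X : ℝ) / ((p ^ 2 : ℕ) : ℝ) ≤ (X : ℝ) / (P : ℝ) ^ 2 := by
      refine div_le_div_of_nonneg_left (Nat.cast_nonneg _) (by positivity) ?_
      have h10 : P ^ 2 ≤ p ^ 2 := Nat.pow_le_pow_left hp.1 2
      exact_mod_cast h10
    rw [hM]
    refine mul_le_mul (mul_le_mul_of_nonneg_left h5 (by linarith)) (by linarith) ?_ (by positivity)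
    have : (0 : ℝ) ≤ (X : ℝ) / ((p ^ 2 : ℕ) : ℝ) := by positivity
    linarith
  have hstep : (S.card : ℝ) ≤ ∑ p ∈ I, ∑ b ∈ B, ((T p b).card : ℝ) := by
    have h3 : S.card ≤ ∑ p ∈ I, ∑ b ∈ B, (T p b).card := by
      refine (Finset.card_le_card hsub).trans ?_
      refine Finset.card_biUnion_le.trans (Finset.sum_le_sum fun p _ => ?_)
      exact Finset.card_biUnion_le.trans (Finset.sum_le_sum fun b _ => Finset.card_image_le)
    exact_mod_cast h3
  have hBcard := h1 Z Q hZ hQ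
  rw [← hB] at hBcard
  have hZσ : (Z : ℝ) ^ (σ / 2) * (Z : ℝ) ^ (σ / 2) = (Z : ℝ) ^ σ := by
    rw [← Real.rpow_add hZ0]
    congr 1
    ring
  calc (S.card : ℝ) ≤ ∑ p ∈ I, ∑ b ∈ B, ((T p b).card : ℝ) := hstep
    _ ≤ ∑ _p ∈ I, ∑ _b ∈ B, M :=
        Finset.sum_le_sum fun p hp => Finset.sum_le_sum fun b hb => hcard p hp b hb
    _ = (P : ℝ) * ((B.card : ℝ) * M) := by
        rw [Finset.sum_const, Finset.sum_const, nsmul_eq_mul, nsmul_eq_mul, hI, Nat.card_Ico]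
        congr 1
        have h3 : 2 * P - P = P := by omega
        rw [h3]
    _ ≤ (P : ℝ) * ((C1 * (Z : ℝ) ^ (σ / 2) * Q) * M) := by
        refine mul_le_mul_of_nonneg_left ?_ hP0.le
        exact mul_le_mul_of_nonneg_right hBcard hM0
    _ = C1 * (C2 * 4 ^ (σ / 4)) * ((Z : ℝ) ^ (σ / 2) * (Z : ℝ) ^ (σ / 2)) * (P * Q) *
          (1 + (X : ℝ) / (P : ℝ) ^ 2) := by rw [hM]; ring
    _ = C1 * (C2 * 4 ^ (σ / 4)) * (Z : ℝ) ^ σ * (P * Q) * (1 + (X : ℝ) / (P : ℝ) ^ 2) := by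
        rw [hZσ]

end Pool.Agent.Lib.MP_d8bd92_nt
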