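import Pool.Agent.Lib.MP_d8bd92_nt.CdDefs
import Pool.Agent.Lib.MP_d8bd92_nt.CdA
import Pool.Agent.Lib.MP_d8bd92_nt.CdC
import Pool.Agent.Lib.MP_d8bd92_nt.CdD

set_option autoImplicit false

/-!
Row E4: pairs with four long variables and a square divisor.
-/

namespace Pool.Agent.Lib.MP_d8bd92_nt

open Finset Pool.Agent.Lib.Szpiro


namespace CountFour

/-- the modulus: the square of the part of `p` prime to `K!` -/
def modD (K p : ℕ) : ℕ := (p / Nat.gcd p K.factorial) ^ 2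

theorem modD_dvd (K p : ℕ) : modD K p ∣ p ^ 2 :=
  pow_dvd_pow_of_dvd (Nat.div_dvd_of_dvd (Nat.gcd_dvd_left _ _)) 2

theorem modD_pos (K p : ℕ) (hp : 0 < p) : 0 < modD K p := by
  unfold modD
  have h : 0 < p / Nat.gcd p K.factorial :=
    Nat.div_pos (Nat.le_of_dvd hp (Nat.gcd_dvd_left _ _)) (Nat.gcd_pos_of_pos_left _ hp)
  positivity

theorem modD_coprime (K p e : ℕ) (hp : Squarefree p) (he : 1 ≤ e) (heK : e ≤ K) :
    Nat.Coprime (modD K p) e := by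
  unfold modD
  refine Nat.Coprime.pow_left 2 ?_
  by_contra hc
  obtain ⟨q, hq, h1, h2⟩ := Nat.Prime.not_coprime_iff_dvd.1 hc
  have hp0 : p ≠ 0 := hp.ne_zero
  have hqe : q ≤ e := Nat.le_of_dvd (by omega) h2
  have hqK : q ∣ K.factorial := (Nat.dvd_factorial hq.pos (by omega))
  have hqp : q ∣ p := h1.trans (Nat.div_dvd_of_dvd (Nat.gcd_dvd_left _ _))
  have hqg : q ∣ Nat.gcd p K.factorial := Nat.dvd_gcd hqp hqK
  have h3 : q * q ∣ p := by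
    calc q * q ∣ (Nat.gcd p K.factorial) * (p / Nat.gcd p K.factorial) := mul_dvd_mul hqg h1
      _ = p := Nat.mul_div_cancel' (Nat.gcd_dvd_left _ _)
  have := hp q h3
  exact hq.one_lt.ne' (Nat.isUnit_iff.1 this)

theorem modD_ge (K p P : ℕ) (hP : P ≤ p) :
    (P : ℝ) ^ 2 ≤ (K.factorial : ℝ) ^ 2 * (modD K p : ℝ) := by
  have h1 : P ≤ K.factorial * (p / Nat.gcd p K.factorial) := by
    calc P ≤ p := hP
      _ = (Nat.gcd p K.factorial) * (p / Nat.gcd p K.factorial) :=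
        (Nat.mul_div_cancel' (Nat.gcd_dvd_left _ _)).symm
      _ ≤ K.factorial * (p / Nat.gcd p K.factorial) :=
        Nat.mul_le_mul_right _ (Nat.le_of_dvd (Nat.factorial_pos K) (Nat.gcd_dvd_right _ _))
  unfold modD
  push_cast
  rw [← mul_pow]
  have h2 : (P : ℝ) ≤ (K.factorial : ℝ) * ((p / Nat.gcd p K.factorial : ℕ) : ℝ) := by
    exact_mod_cast h1
  exact pow_le_pow_left₀ (by positivity) h2 2

/-- the power `x^(± e)` in the unit group mod `D` -/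
noncomputable def upow (D : ℕ) (v : Bool × ℕ) (x : ℕ) : (ZMod D)ˣ :=
  if h : Nat.Coprime x D then
    (if v.1 then (ZMod.unitOfCoprime x h) ^ v.2 else ((ZMod.unitOfCoprime x h) ^ v.2)⁻¹) else 1

theorem mod_of_units {D e : ℕ} {a b c d : ℕ} (ha : Nat.Coprime a D) (hb : Nat.Coprime b D)
    (hc : Nat.Coprime c D) (hd : Nat.Coprime d D)
    (h : (ZMod.unitOfCoprime a ha) ^ e * (ZMod.unitOfCoprime b hb) ^ e =
      (ZMod.unitOfCoprime c hc) ^ e * (ZMod.unitOfCoprime d hd) ^ e) :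
    (a * b) ^ e ≡ (c * d) ^ e [MOD D] := by
  have h1 := congrArg (fun u : (ZMod D)ˣ => (u : ZMod D)) h
  simp only [Units.val_mul, Units.val_pow_eq_pow_val, ZMod.coe_unitOfCoprime] at h1
  rw [← ZMod.natCast_eq_natCast_iff]
  push_cast
  rw [mul_pow, mul_pow]
  exact h1

theorem energy_le (D : ℕ) (v : Bool × ℕ) (X : ℕ) [DecidableEq (ZMod D)ˣ] :
    energy (box X D) (upow D v) ≤
      (((box X D) ×ˢ (box X D) ×ˢ (box X D) ×ˢ (box X D)).filter (fun y : ℕ × ℕ × ℕ × ℕ =>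
      (y.1 * y.2.1) ^ v.2 ≡ (y.2.2.1 * y.2.2.2) ^ v.2 [MOD D])).card := by
  unfold energy
  refine card_le_card ?_
  intro y hy
  rw [mem_filter] at hy ⊢
  refine ⟨hy.1, ?_⟩
  obtain ⟨hy1, hy2⟩ := hy
  simp only [mem_product, box, mem_filter] at hy1
  obtain ⟨⟨_, h1⟩, ⟨_, h2⟩, ⟨_, h3⟩, ⟨_, h4⟩⟩ := hy1
  refine mod_of_units h1 h2 h3 h4 ?_
  unfold upow at hy2
  rw [dif_pos h1, dif_pos h2, dif_pos h3, dif_pos h4] at hy2
  rcases hv : v.1 with _ | _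
  · simp only [hv, Bool.false_eq_true, if_false] at hy2
    rw [← mul_inv, ← mul_inv] at hy2
    exact inv_injective hy2
  · simp only [hv, if_true] at hy2
    exact hy2

/-- the right hand side -/
noncomputable def gval (D : ℕ) (s : ℤ) (w : ℕ × ℕ) : (ZMod D)ˣ :=
  if h : Nat.Coprime w.1 D ∧ Nat.Coprime w.2 D then
    (if s = 1 then 1 else -1) * ZMod.unitOfCoprime w.2 h.2 * (ZMod.unitOfCoprime w.1 h.1)⁻¹ else 1

theorem grp_aux {G : Type*} [CommGroup G] (a c w b : G) :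
    a⁻¹ * (c * (w * b)) * b⁻¹ = c * w * a⁻¹ := by
  rw [mul_assoc, mul_assoc, mul_assoc, mul_inv_cancel, mul_one, mul_comm]

theorem upow_eq (D : ℕ) (v : Bool × ℕ) (x : ℕ) (h : Nat.Coprime x D) :
    upow D v x = (if v.1 then (ZMod.unitOfCoprime x h) ^ v.2 else 1) *
      (if v.1 then 1 else (ZMod.unitOfCoprime x h) ^ v.2)⁻¹ := by
  unfold upow
  rw [dif_pos h]
  rcases hv : v.1 with _ | _
  · simp
  · simp

theorem prod_upow_eq (D : ℕ) (s : ℤ) (hs : s = 1 ∨ s = -1) (v : Fin 4 → Bool × ℕ) (x : Fin 4 → ℕ)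
    (hx : ∀ j, Nat.Coprime (x j) D) (w : ℕ × ℕ) (hw1 : Nat.Coprime w.1 D)
    (hw2 : Nat.Coprime w.2 D)
    (h : (D : ℤ) ∣ ((w.1 * ∏ j, (if (v j).1 then x j ^ (v j).2 else 1) : ℕ) : ℤ) -
      s * ((w.2 * ∏ j, (if (v j).1 then 1 else x j ^ (v j).2) : ℕ) : ℤ)) :
    ∏ j, upow D (v j) (x j) = gval D s w := by
  have h1 : ∏ j, upow D (v j) (x j) =
      (∏ j, (if (v j).1 then (ZMod.unitOfCoprime (x j) (hx j)) ^ (v j).2 else 1)) *
      (∏ j, (if (v j).1 then 1 else (ZMod.unitOfCoprime (x j) (hx j)) ^ (v j).2))⁻¹ := by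
    rw [← Finset.prod_inv_distrib, ← Finset.prod_mul_distrib]
    exact Finset.prod_congr rfl fun j _ => upow_eq D (v j) (x j) (hx j)
  rw [h1]
  unfold gval
  rw [dif_pos ⟨hw1, hw2⟩]
  set A := ∏ j, (if (v j).1 then (ZMod.unitOfCoprime (x j) (hx j)) ^ (v j).2 else 1) with hA
  set B := ∏ j, (if (v j).1 then 1 else (ZMod.unitOfCoprime (x j) (hx j)) ^ (v j).2) with hB
  have hAc : (A : ZMod D) = ((∏ j, (if (v j).1 then x j ^ (v j).2 else 1) : ℕ) : ZMod D) := by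
    rw [hA, Units.coe_prod, Nat.cast_prod]
    refine Finset.prod_congr rfl fun j _ => ?_
    split_ifs <;> simp
  have hBc : (B : ZMod D) = ((∏ j, (if (v j).1 then 1 else x j ^ (v j).2) : ℕ) : ZMod D) := by
    rw [hB, Units.coe_prod, Nat.cast_prod]
    refine Finset.prod_congr rfl fun j _ => ?_
    split_ifs <;> simp
  have h2 : (((w.1 * ∏ j, (if (v j).1 then x j ^ (v j).2 else 1) : ℕ) : ℤ) : ZMod D) =
      ((s * ((w.2 * ∏ j, (if (v j).1 then 1 else x j ^ (v j).2) : ℕ) : ℤ) : ℤ) : ZMod D) := by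
    rw [← sub_eq_zero, ← Int.cast_sub]
    exact (ZMod.intCast_zmod_eq_zero_iff_dvd _ _).2 h
  have h3 : (w.1 : ZMod D) * (A : ZMod D) = (s : ZMod D) * ((w.2 : ZMod D) * (B : ZMod D)) := by
    rw [hAc, hBc]
    push_cast at h2 ⊢
    exact h2
  have h4 : ZMod.unitOfCoprime w.1 hw1 * A =
      (if s = 1 then 1 else -1) * (ZMod.unitOfCoprime w.2 hw2 * B) := by
    apply Units.ext
    rw [Units.val_mul, ZMod.coe_unitOfCoprime, h3]
    rcases hs with hs | hs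
    · subst hs
      simp
    · subst hs
      simp
  have h5 : A = (ZMod.unitOfCoprime w.1 hw1)⁻¹ * ((if s = 1 then 1 else -1) *
      (ZMod.unitOfCoprime w.2 hw2 * B)) := by
    rw [← h4, inv_mul_cancel_left]
  rw [h5, grp_aux]

theorem energy_bound (K : ℕ) (σ CE : ℝ) (hσ : 0 < σ) (hCE1 : 1 ≤ CE)
    (hCE : ∀ e < K, ∀ X D : ℕ, 1 ≤ X → 1 ≤ D → (e = 0 → X = 1) → Nat.Coprime D e ∨ e = 0 →
      ((((box X D) ×ˢ (box X D) ×ˢ (box X D) ×ˢ (box X D)).filter (fun y : ℕ × ℕ × ℕ × ℕ =>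
      (y.1 * y.2.1) ^ e ≡ (y.2.2.1 * y.2.2.2) ^ e [MOD D])).card : ℝ) ≤
      CE * ((X : ℝ) * D) ^ σ * ((X : ℝ) ^ 2 * (1 + (X : ℝ) ^ 2 / D)))
    (Z P p : ℕ) (hP : 1 ≤ P) (hPZ : P ≤ Z) (hPp : P ≤ p) (hpP : p < 2 * P) (hsq : Squarefree p)
    (v : Bool × ℕ) (hv : v.2 < K) (X : ℕ) (hX : 1 ≤ X) (hXZ : X ≤ Z) (hX0 : v.2 = 0 → X = 1)
    [DecidableEq (ZMod (modD K p))ˣ] :
    (energy (box X (modD K p)) (upow (modD K p) v) : ℝ) ≤
      (CE * (4 * (Z : ℝ) ^ 3) ^ σ * (K.factorial : ℝ) ^ 2) *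
        ((X : ℝ) ^ 2 * (1 + (X : ℝ) ^ 2 / (P : ℝ) ^ 2)) := by
  have hp0 : 0 < p := by omega
  have hD := modD_pos K p hp0
  have hDR : (0 : ℝ) < (modD K p : ℝ) := by exact_mod_cast hD
  have hPR : (0 : ℝ) < (P : ℝ) := by exact_mod_cast hP
  have hZR : (P : ℝ) ≤ (Z : ℝ) := by exact_mod_cast hPZ
  have hXZR : (X : ℝ) ≤ (Z : ℝ) := by exact_mod_cast hXZ
  have hXR : (1 : ℝ) ≤ (X : ℝ) := by exact_mod_cast hX
  have hKR : (1 : ℝ) ≤ (K.factorial : ℝ) := by exact_mod_cast Nat.factorial_pos K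
  have h1 : (energy (box X (modD K p)) (upow (modD K p) v) : ℝ) ≤
      CE * ((X : ℝ) * (modD K p : ℝ)) ^ σ * ((X : ℝ) ^ 2 * (1 + (X : ℝ) ^ 2 / (modD K p : ℝ))) := by
    refine le_trans (by exact_mod_cast energy_le (modD K p) v X) (hCE v.2 hv X (modD K p) hX hD hX0 ?_)
    rcases Nat.eq_zero_or_pos v.2 with h | h
    · exact Or.inr h
    · exact Or.inl (modD_coprime K p v.2 hsq h hv.le)
  refine h1.trans ?_
  have h2 : (X : ℝ) * (modD K p : ℝ) ≤ 4 * (Z : ℝ) ^ 3 := by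
    have h3 : (modD K p : ℝ) ≤ (p : ℝ) ^ 2 := by
      exact_mod_cast Nat.le_of_dvd (by positivity) (modD_dvd K p)
    have h4 : (p : ℝ) ≤ 2 * (Z : ℝ) := by
      have : (p : ℝ) < 2 * (P : ℝ) := by exact_mod_cast hpP
      linarith
    have h5 : (p : ℝ) ^ 2 ≤ (2 * (Z : ℝ)) ^ 2 := pow_le_pow_left₀ (by positivity) h4 2
    calc (X : ℝ) * (modD K p : ℝ) ≤ (Z : ℝ) * (2 * (Z : ℝ)) ^ 2 :=
          mul_le_mul hXZR (h3.trans h5) hDR.le (by linarith)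
      _ = 4 * (Z : ℝ) ^ 3 := by ring
  have h6 : ((X : ℝ) * (modD K p : ℝ)) ^ σ ≤ (4 * (Z : ℝ) ^ 3) ^ σ :=
    Real.rpow_le_rpow (by positivity) h2 hσ.le
  have h7 : (1 + (X : ℝ) ^ 2 / (modD K p : ℝ)) ≤
      (K.factorial : ℝ) ^ 2 * (1 + (X : ℝ) ^ 2 / (P : ℝ) ^ 2) := by
    have h8 := modD_ge K p P hPp
    have h9 : (X : ℝ) ^ 2 / (modD K p : ℝ) ≤ (K.factorial : ℝ) ^ 2 * ((X : ℝ) ^ 2 / (P : ℝ) ^ 2) := by
      rw [div_le_iff₀ hDR]
      have h10 : (K.factorial : ℝ) ^ 2 * ((X : ℝ) ^ 2 / (P : ℝ) ^ 2) * (modD K p : ℝ) =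
          (X : ℝ) ^ 2 * (((K.factorial : ℝ) ^ 2 * (modD K p : ℝ)) / (P : ℝ) ^ 2) := by
        ring
      rw [h10]
      have h11 : 1 ≤ ((K.factorial : ℝ) ^ 2 * (modD K p : ℝ)) / (P : ℝ) ^ 2 := by
        rw [le_div_iff₀ (by positivity), one_mul]
        exact h8
      nlinarith [sq_nonneg (X : ℝ)]
    have h12 : (1 : ℝ) ≤ (K.factorial : ℝ) ^ 2 := one_le_pow₀ hKR
    linarith
  calc CE * ((X : ℝ) * (modD K p : ℝ)) ^ σ * ((X : ℝ) ^ 2 * (1 + (X : ℝ) ^ 2 / (modD K p : ℝ)))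
      ≤ CE * (4 * (Z : ℝ) ^ 3) ^ σ * ((X : ℝ) ^ 2 *
        ((K.factorial : ℝ) ^ 2 * (1 + (X : ℝ) ^ 2 / (P : ℝ) ^ 2))) := by
        refine mul_le_mul ?_ ?_ (by positivity) (by positivity)
        · exact mul_le_mul_of_nonneg_left h6 (by linarith)
        · exact mul_le_mul_of_nonneg_left h7 (by positivity)
    _ = _ := by ring

theorem sol_card (K : ℕ) (σ CE : ℝ) (hσ : 0 < σ) (hCE1 : 1 ≤ CE)
    (hCE : ∀ e < K, ∀ X D : ℕ, 1 ≤ X → 1 ≤ D → (e = 0 → X = 1) → Nat.Coprime D e ∨ e = 0 →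
      ((((box X D) ×ˢ (box X D) ×ˢ (box X D) ×ˢ (box X D)).filter (fun y : ℕ × ℕ × ℕ × ℕ =>
      (y.1 * y.2.1) ^ e ≡ (y.2.2.1 * y.2.2.2) ^ e [MOD D])).card : ℝ) ≤
      CE * ((X : ℝ) * D) ^ σ * ((X : ℝ) ^ 2 * (1 + (X : ℝ) ^ 2 / D)))
    (Z P p : ℕ) (hP : 1 ≤ P) (hPZ : P ≤ Z) (hPp : P ≤ p) (hpP : p < 2 * P) (hsq : Squarefree p)
    (v : Fin 4 → Bool × ℕ) (hv : ∀ j, (v j).2 < K) (X : Fin 4 → ℕ) (hX : ∀ j, 1 ≤ X j)
    (hXZ : ∀ j, X j ≤ Z) (hX0 : ∀ j, (v j).2 = 0 → X j = 1)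
    [DecidableEq (ZMod (modD K p))ˣ] (g : (ZMod (modD K p))ˣ) :
    (((Fintype.piFinset (fun j => box (X j) (modD K p))).filter (fun x : Fin 4 → ℕ =>
      ∏ j, upow (modD K p) (v j) (x j) = g)).card : ℝ) ≤
      (CE * (4 * (Z : ℝ) ^ 3) ^ σ * (K.factorial : ℝ) ^ 2) *
        ∏ j, ((X j : ℝ) ^ 2 * (1 + (X j : ℝ) ^ 2 / (P : ℝ) ^ 2)) ^ (1 / 4 : ℝ) := by
  have hZ1 : (1 : ℝ) ≤ Z := by exact_mod_cast (hP.trans hPZ)
  have h1 := four_conv (fun j => box (X j) (modD K p)) (fun j => upow (modD K p) (v j)) g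
  have h2 : ((((Fintype.piFinset (fun j => box (X j) (modD K p))).filter (fun x : Fin 4 → ℕ =>
      ∏ j, upow (modD K p) (v j) (x j) = g)).card : ℝ)) ^ 4 ≤
      ∏ j, (energy (box (X j) (modD K p)) (upow (modD K p) (v j)) : ℝ) := by
    exact_mod_cast h1
  rw [← pow_le_pow_iff_left₀ (Nat.cast_nonneg _) (by positivity) (show (4 : ℕ) ≠ 0 by norm_num)]
  refine h2.trans ?_
  have h3 : ∏ j : Fin 4, (energy (box (X j) (modD K p)) (upow (modD K p) (v j)) : ℝ) ≤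
      ∏ j : Fin 4, ((CE * (4 * (Z : ℝ) ^ 3) ^ σ * (K.factorial : ℝ) ^ 2) *
        ((X j : ℝ) ^ 2 * (1 + (X j : ℝ) ^ 2 / (P : ℝ) ^ 2))) := by
    refine Finset.prod_le_prod (fun j _ => Nat.cast_nonneg _) fun j _ => ?_
    exact energy_bound K σ CE hσ hCE1 hCE Z P p hP hPZ hPp hpP hsq (v j) (hv j) (X j) (hX j)
      (hXZ j) (hX0 j)
  refine h3.trans (le_of_eq ?_)
  generalize CE * (4 * (Z : ℝ) ^ 3) ^ σ * (K.factorial : ℝ) ^ 2 = T
  rw [Finset.prod_mul_distrib, Finset.prod_const, Finset.card_univ, Fintype.card_fin, mul_pow,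
    ← Finset.prod_pow]
  congr 1
  refine Finset.prod_congr rfl fun j _ => ?_
  have hpos : 0 ≤ (X j : ℝ) ^ 2 * (1 + (X j : ℝ) ^ 2 / (P : ℝ) ^ 2) := by positivity
  generalize (X j : ℝ) ^ 2 * (1 + (X j : ℝ) ^ 2 / (P : ℝ) ^ 2) = y at hpos ⊢
  rw [← Real.rpow_natCast, ← Real.rpow_mul hpos]
  norm_num

end CountFour

open CountFour in
/-- pairs `(m, n)` with `m = w₁ ∏ x_j^{e_j}`, `n = w₂ ∏ x_j^{e_j}` (four long variables, distributed
by `(v j).1`), `rad w₁ rad w₂ ≤ Q` and `p² ∣ m - s n` for some squarefree `p ∈ [P, 2P)` -/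
theorem count_four (K : ℕ) (σ : ℝ) (hσ : 0 < σ) : ∃ C : ℝ, 1 ≤ C ∧ ∀ (Z P : ℕ) (s : ℤ)
    (v : Fin 4 → Bool × ℕ) (X : Fin 4 → ℕ) (Q : ℝ) (S : Finset (ℕ × ℕ)),
    1 ≤ Z → 1 ≤ P → P ≤ Z → (s = 1 ∨ s = -1) → (∀ j, (v j).2 < K) → (∀ j, 1 ≤ X j) →
    (∀ j, (v j).2 = 0 → X j = 1) → 0 ≤ Q →
    (∀ q ∈ S, 1 ≤ q.1 ∧ q.1 ≤ Z ∧ 1 ≤ q.2 ∧ q.2 ≤ Z ∧ ∃ (p w₁ w₂ : ℕ) (x : Fin 4 → ℕ),
      P ≤ p ∧ p < 2 * P ∧ Squarefree p ∧
      q.1 = w₁ * ∏ j, (if (v j).1 then x j ^ (v j).2 else 1) ∧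
      q.2 = w₂ * ∏ j, (if (v j).1 then 1 else x j ^ (v j).2) ∧
      (rd w₁ : ℝ) * rd w₂ ≤ Q ∧ (∀ j, X j ≤ x j ∧ x j < 2 * X j) ∧
      Nat.Coprime p (q.1 * q.2) ∧ ((p : ℤ)) ^ 2 ∣ (q.1 : ℤ) - s * q.2) →
    (S.card : ℝ) ≤ C * (Z : ℝ) ^ σ * (P * Q) *
      ∏ j, (((X j : ℝ)) ^ 2 * (1 + (X j : ℝ) ^ 2 / (P : ℝ) ^ 2)) ^ (1 / 4 : ℝ) := by
  classical
  obtain ⟨CA, hCA1, hCA⟩ := card_pair_rd_le (σ / 2) (by positivity)
  choose CD hCD1 hCD using fun e : ℕ => energy_box e (σ / 6) (by positivity)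
  set CE : ℝ := 1 + ∑ e ∈ range K, CD e with hCEdef
  have hsum0 : 0 ≤ ∑ e ∈ range K, CD e :=
    Finset.sum_nonneg fun e _ => (zero_le_one.trans (hCD1 e))
  have hCE1 : 1 ≤ CE := by linarith
  have hCE : ∀ e < K, ∀ X D : ℕ, 1 ≤ X → 1 ≤ D → (e = 0 → X = 1) → Nat.Coprime D e ∨ e = 0 →
      ((((box X D) ×ˢ (box X D) ×ˢ (box X D) ×ˢ (box X D)).filter (fun y : ℕ × ℕ × ℕ × ℕ =>
      (y.1 * y.2.1) ^ e ≡ (y.2.2.1 * y.2.2.2) ^ e [MOD D])).card : ℝ) ≤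
      CE * ((X : ℝ) * D) ^ (σ / 6) * ((X : ℝ) ^ 2 * (1 + (X : ℝ) ^ 2 / D)) := by
    intro e he X D hX hD h0 hc
    refine (hCD e X D hX hD h0 hc).trans ?_
    have h1 : CD e ≤ CE := by
      have := Finset.single_le_sum (f := CD) (fun i _ => zero_le_one.trans (hCD1 i))
        (Finset.mem_range.2 he)
      linarith
    rw [mul_assoc, mul_assoc]
    exact mul_le_mul_of_nonneg_right h1 (by positivity)
  refine ⟨CA * (CE * (4 : ℝ) ^ (σ / 6) * (K.factorial : ℝ) ^ 2), ?_, ?_⟩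
  · have h1 : (1 : ℝ) ≤ (4 : ℝ) ^ (σ / 6) := Real.one_le_rpow (by norm_num) (by positivity)
    have h2 : (1 : ℝ) ≤ (K.factorial : ℝ) ^ 2 := one_le_pow₀ (by exact_mod_cast Nat.factorial_pos K)
    have h3 : 1 ≤ CE * (4 : ℝ) ^ (σ / 6) := one_le_mul_of_one_le_of_one_le hCE1 h1
    exact one_le_mul_of_one_le_of_one_le hCA1 (one_le_mul_of_one_le_of_one_le h3 h2)
  intro Z P s v X Q S hZ hP hPZ hs hv hX hX0 hQ hS
  have hZR : (1 : ℝ) ≤ (Z : ℝ) := by exact_mod_cast hZ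
  rcases S.eq_empty_or_nonempty with hSe | hSn
  · subst hSe
    simp only [card_empty, Nat.cast_zero]
    have hCA0 : 0 ≤ CA := by linarith
    have hCE0 : 0 ≤ CE := by linarith
    positivity
  have hxdvd : ∀ q ∈ S, ∀ (w₁ w₂ : ℕ) (x : Fin 4 → ℕ),
      q.1 = w₁ * ∏ j, (if (v j).1 then x j ^ (v j).2 else 1) →
      q.2 = w₂ * ∏ j, (if (v j).1 then 1 else x j ^ (v j).2) →
      ∀ j, x j ^ (v j).2 ∣ q.1 ∨ x j ^ (v j).2 ∣ q.2 := by
    intro q hq w₁ w₂ x h1 h2 j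
    rcases hvj : (v j).1 with _ | _
    · right
      have h3 : (if (v j).1 then 1 else x j ^ (v j).2) = x j ^ (v j).2 := by simp [hvj]
      rw [h2, ← h3]
      exact (Finset.dvd_prod_of_mem (fun j => if (v j).1 then 1 else x j ^ (v j).2)
        (mem_univ j)).mul_left w₂
    · left
      have h3 : (if (v j).1 then x j ^ (v j).2 else 1) = x j ^ (v j).2 := by simp [hvj]
      rw [h1, ← h3]
      exact (Finset.dvd_prod_of_mem (fun j => if (v j).1 then x j ^ (v j).2 else 1)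
        (mem_univ j)).mul_left w₁
  have hXZ : ∀ j, X j ≤ Z := by
    obtain ⟨q, hq⟩ := hSn
    obtain ⟨h1, h2, h3, h4, p, w₁, w₂, x, -, -, -, h5, h6, -, h7, -, -⟩ := hS q hq
    intro j
    rcases Nat.eq_zero_or_pos (v j).2 with h0 | h0
    · rw [hX0 j h0]
      exact hZ
    · have h8 : x j ^ (v j).2 ≤ Z := by
        rcases hxdvd q hq w₁ w₂ x h5 h6 j with h | h
        · exact (Nat.le_of_dvd h1 h).trans h2
        · exact (Nat.le_of_dvd h3 h).trans h4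
      have h9 : x j ≤ x j ^ (v j).2 := Nat.le_self_pow h0.ne' _
      exact (h7 j).1.trans (h9.trans h8)
  -- the covering
  set W : Finset (ℕ × ℕ) := (Icc 1 Z ×ˢ Icc 1 Z).filter
    (fun q : ℕ × ℕ => (rd q.1 : ℝ) * rd q.2 ≤ Q) with hW
  set sol : ℕ → ℕ × ℕ → Finset (Fin 4 → ℕ) := fun p w =>
    (Fintype.piFinset (fun j => box (X j) (modD K p))).filter (fun x : Fin 4 → ℕ =>
      ∏ j, upow (modD K p) (v j) (x j) = gval (modD K p) s w) with hsol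
  have hcover : S ⊆ ((Ico P (2 * P)).filter Squarefree).biUnion fun p => W.biUnion fun w =>
      (sol p w).image (fun x => (w.1 * ∏ j, (if (v j).1 then x j ^ (v j).2 else 1),
        w.2 * ∏ j, (if (v j).1 then 1 else x j ^ (v j).2))) := by
    intro q hq
    obtain ⟨h1, h2, h3, h4, p, w₁, w₂, x, hPp, hpP, hsq, h5, h6, hQw, h7, hcop, hdvd⟩ := hS q hq
    have hw1 : w₁ ∣ q.1 := by rw [h5]; exact dvd_mul_right _ _
    have hw2 : w₂ ∣ q.2 := by rw [h6]; exact dvd_mul_right _ _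
    have hw1pos : 1 ≤ w₁ := Nat.pos_of_dvd_of_pos hw1 h1
    have hw2pos : 1 ≤ w₂ := Nat.pos_of_dvd_of_pos hw2 h3
    have hcD : ∀ m : ℕ, m ∣ q.1 ∨ m ∣ q.2 → Nat.Coprime m (modD K p) := by
      intro m hm
      have h8 : m ∣ q.1 * q.2 := by
        rcases hm with h | h
        · exact h.mul_right _
        · exact h.mul_left _
      have h9 : Nat.Coprime m (p ^ 2) :=
        Nat.Coprime.pow_right 2 ((Nat.Coprime.coprime_dvd_right h8 hcop).symm)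
      exact Nat.Coprime.coprime_dvd_right (modD_dvd K p) h9
    have hxc : ∀ j, Nat.Coprime (x j) (modD K p) := by
      intro j
      rcases Nat.eq_zero_or_pos (v j).2 with h0 | h0
      · have h8 := hX0 j h0
        have h9 := h7 j
        have h10 : x j = 1 := by omega
        rw [h10]
        exact Nat.coprime_one_left _
      · have h8 := hcD (x j ^ (v j).2) (hxdvd q hq w₁ w₂ x h5 h6 j)
        exact (Nat.coprime_pow_left_iff h0 _ _).1 h8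
    simp only [mem_biUnion, mem_image]
    refine ⟨p, mem_filter.2 ⟨mem_Ico.2 ⟨hPp, hpP⟩, hsq⟩, (w₁, w₂), ?_, x, ?_, ?_⟩
    · rw [hW, mem_filter, mem_product, mem_Icc, mem_Icc]
      exact ⟨⟨⟨hw1pos, (Nat.le_of_dvd h1 hw1).trans h2⟩,
        ⟨hw2pos, (Nat.le_of_dvd h3 hw2).trans h4⟩⟩, hQw⟩
    · rw [hsol]
      simp only [mem_filter, Fintype.mem_piFinset]
      refine ⟨fun j => ?_, ?_⟩
      · unfold box
        rw [mem_filter, mem_Ico]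
        exact ⟨h7 j, hxc j⟩
      · refine prod_upow_eq (modD K p) s hs v x hxc (w₁, w₂) (hcD w₁ (Or.inl hw1))
          (hcD w₂ (Or.inr hw2)) ?_
        have h8 : ((modD K p : ℕ) : ℤ) ∣ (p : ℤ) ^ 2 := by
          exact_mod_cast Int.natCast_dvd_natCast.2 (modD_dvd K p)
        have h9 := h8.trans hdvd
        rw [h5, h6] at h9
        exact h9
    · rw [← h5, ← h6]
  set T : ℝ := CE * (4 * (Z : ℝ) ^ 3) ^ (σ / 6) * (K.factorial : ℝ) ^ 2 with hT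
  set Y : ℝ := ∏ j, (((X j : ℝ)) ^ 2 * (1 + (X j : ℝ) ^ 2 / (P : ℝ) ^ 2)) ^ (1 / 4 : ℝ) with hY
  have hY0 : 0 ≤ Y := Finset.prod_nonneg fun j _ => by positivity
  have hT0 : 0 ≤ T := by
    have : 0 ≤ CE := by linarith
    positivity
  have hWc : (W.card : ℝ) ≤ CA * (Z : ℝ) ^ (σ / 2) * Q := hCA Z Q hZ hQ
  have h1 : (S.card : ℝ) ≤ ∑ p ∈ (Ico P (2 * P)).filter Squarefree, ∑ w ∈ W,
      ((sol p w).card : ℝ) := by
    have h2 := (card_le_card hcover).trans card_biUnion_le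
    have h3 : (S.card : ℝ) ≤ ∑ p ∈ (Ico P (2 * P)).filter Squarefree,
        ((W.biUnion fun w => (sol p w).image
          (fun x => (w.1 * ∏ j, (if (v j).1 then x j ^ (v j).2 else 1),
        w.2 * ∏ j, (if (v j).1 then 1 else x j ^ (v j).2)))).card : ℝ) := by
      exact_mod_cast h2
    refine h3.trans (Finset.sum_le_sum fun p _ => ?_)
    have h4 : ((W.biUnion fun w => (sol p w).image
          (fun x => (w.1 * ∏ j, (if (v j).1 then x j ^ (v j).2 else 1),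
        w.2 * ∏ j, (if (v j).1 then 1 else x j ^ (v j).2)))).card) ≤
        ∑ w ∈ W, (sol p w).card :=
      card_biUnion_le.trans (Finset.sum_le_sum fun w _ => card_image_le)
    exact_mod_cast h4
  have h2 : ∑ p ∈ (Ico P (2 * P)).filter Squarefree, ∑ w ∈ W, ((sol p w).card : ℝ) ≤
      ∑ p ∈ (Ico P (2 * P)).filter Squarefree, ∑ w ∈ W, T * Y := by
    refine Finset.sum_le_sum fun p hp => Finset.sum_le_sum fun w _ => ?_
    rw [mem_filter, mem_Ico] at hp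
    exact sol_card K (σ / 6) CE (by positivity) hCE1 hCE Z P p hP hPZ hp.1.1 hp.1.2 hp.2 v hv X hX
      hXZ hX0 _
  have h3 : ∑ p ∈ (Ico P (2 * P)).filter Squarefree, ∑ w ∈ W, T * Y ≤
      (P : ℝ) * ((CA * (Z : ℝ) ^ (σ / 2) * Q) * (T * Y)) := by
    rw [Finset.sum_const, Finset.sum_const, nsmul_eq_mul, nsmul_eq_mul]
    have h4 : (((Ico P (2 * P)).filter Squarefree).card : ℝ) ≤ (P : ℝ) := by
      have h5 : ((Ico P (2 * P)).filter Squarefree).card ≤ P := by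
        refine (card_filter_le _ _).trans ?_
        rw [Nat.card_Ico]
        omega
      exact_mod_cast h5
    refine mul_le_mul h4 ?_ (by positivity) (by positivity)
    exact mul_le_mul_of_nonneg_right hWc (by positivity)
  refine (h1.trans (h2.trans h3)).trans (le_of_eq ?_)
  have hZ0 : (0 : ℝ) < (Z : ℝ) := by linarith
  have h4 : (4 * (Z : ℝ) ^ 3) ^ (σ / 6) = (4 : ℝ) ^ (σ / 6) * (Z : ℝ) ^ (σ / 2) := by
    rw [Real.mul_rpow (by norm_num) (by positivity), ← Real.rpow_natCast, ← Real.rpow_mul hZ0.le]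
    congr 2
    push_cast
    ring
  have h5 : (Z : ℝ) ^ σ = (Z : ℝ) ^ (σ / 2) * (Z : ℝ) ^ (σ / 2) := by
    rw [← Real.rpow_add hZ0]
    congr 1
    ring
  rw [hT, h4, h5]
  ring

end Pool.Agent.Lib.MP_d8bd92_nt
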