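import Pool.Agent.Lib.MP_d8bd92_nt.CdDefs

set_option autoImplicit false

namespace Pool.Agent.Lib.MP_d8bd92_nt

open Finset Pool.Agent.Lib.Szpiro

/-! ### F. Integer points on `A x^i + B z^k = c` -/

/-- a strictly increasing set of pairs meets few cells; the other points come from short
differences -/
theorem cdF_grid (M D L : ℕ) (hD : 1 ≤ D) (S : Finset (ℕ × ℕ))
    (hM : ∀ q ∈ S, q.1 ≤ M ∧ q.2 ≤ M)
    (hmono : ∀ q ∈ S, ∀ q' ∈ S, q.1 < q'.1 → q.2 < q'.2)
    (hinj : ∀ q ∈ S, ∀ q' ∈ S, q.1 = q'.1 → q = q')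
    (hL : ∀ r s : ℕ, 1 ≤ r → (S.filter (fun q => (q.1 + r, q.2 + s) ∈ S)).card ≤ L) :
    S.card ≤ 2 * (M / D) + 1 + D ^ 2 * L := by
  classical
  set m : ℕ × ℕ → Prop := fun q => ∀ q' ∈ S, q'.1 / D = q.1 / D → q'.2 / D = q.2 / D → q.1 ≤ q'.1
    with hm
  have h1 : (S.filter m).card ≤ 2 * (M / D) + 1 := by
    rw [← Finset.card_range (2 * (M / D) + 1)]
    refine Finset.card_le_card_of_injOn (fun q => q.1 / D + q.2 / D) ?_ ?_
    · intro q hq
      have hq' := Finset.mem_filter.1 (Finset.mem_coe.1 hq)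
      have := hM q hq'.1
      have h2 := Nat.div_le_div_right (c := D) this.1
      have h3 := Nat.div_le_div_right (c := D) this.2
      simp only [Finset.coe_range, Set.mem_Iio]
      omega
    · have key : ∀ q ∈ S.filter m, ∀ q' ∈ S.filter m, q.1 < q'.1 →
          q.1 / D + q.2 / D = q'.1 / D + q'.2 / D → False := by
        intro q hq q' hq' hlt h
        rw [Finset.mem_filter] at hq hq'
        have h2 := hmono q hq.1 q' hq'.1 hlt
        have h3 := Nat.div_le_div_right (c := D) hlt.le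
        have h4 := Nat.div_le_div_right (c := D) h2.le
        have := hq'.2 q hq.1 (by omega) (by omega)
        omega
      intro q hq q' hq' h
      have hq := Finset.mem_coe.1 hq
      have hq' := Finset.mem_coe.1 hq'
      rcases lt_trichotomy q.1 q'.1 with h2 | h2 | h2
      · exact (key q hq q' hq' h2 h).elim
      · exact hinj q (Finset.mem_filter.1 hq).1 q' (Finset.mem_filter.1 hq').1 h2
      · exact (key q' hq' q hq h2 h.symm).elim
  have h2 : (S.filter (fun q => ¬ m q)).card ≤ D ^ 2 * L := by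
    have hch : ∀ q ∈ S.filter (fun q => ¬ m q), ∃ q' ∈ S, q'.1 < q.1 ∧ q'.2 < q.2 ∧
        q.1 < q'.1 + D ∧ q.2 < q'.2 + D := by
      intro q hq
      rw [Finset.mem_filter, hm] at hq
      obtain ⟨hqS, hq2⟩ := hq
      push Not at hq2
      obtain ⟨q', hq'S, ha, hb, hc⟩ := hq2
      refine ⟨q', hq'S, hc, hmono q' hq'S q hqS hc, ?_, ?_⟩
      · have e1 := Nat.div_add_mod q.1 D
        have e2 := Nat.div_add_mod q'.1 D
        have e3 := Nat.mod_lt q.1 (show D > 0 by omega)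
        rw [ha] at e2
        omega
      · have e1 := Nat.div_add_mod q.2 D
        have e2 := Nat.div_add_mod q'.2 D
        have e3 := Nat.mod_lt q.2 (show D > 0 by omega)
        rw [hb] at e2
        omega
    choose! f hf using hch
    have hcov : S.filter (fun q => ¬ m q) ⊆
        ((Ico 1 D) ×ˢ (range D)).biUnion (fun p =>
          (S.filter (fun q => (q.1 + p.1, q.2 + p.2) ∈ S)).image
            (fun q => (q.1 + p.1, q.2 + p.2))) := by
      intro q hq
      obtain ⟨a1, a2, a3, a4, a5⟩ := hf q hq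
      rw [Finset.mem_biUnion]
      refine ⟨(q.1 - (f q).1, q.2 - (f q).2), ?_, ?_⟩
      · rw [Finset.mem_product, Finset.mem_Ico, Finset.mem_range]
        exact ⟨⟨by simp only; omega, by simp only; omega⟩, by simp only; omega⟩
      · rw [Finset.mem_image]
        have e : ((f q).1 + (q.1 - (f q).1), (f q).2 + (q.2 - (f q).2)) = q := by
          ext
          · simp only; omega
          · simp only; omega
        refine ⟨f q, ?_, e⟩
        rw [Finset.mem_filter]
        refine ⟨a1, ?_⟩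
        show ((f q).1 + (q.1 - (f q).1), (f q).2 + (q.2 - (f q).2)) ∈ S
        rw [e]
        exact (Finset.mem_filter.1 hq).1
    calc (S.filter (fun q => ¬ m q)).card ≤ _ := Finset.card_le_card hcov
      _ ≤ ∑ p ∈ (Ico 1 D) ×ˢ (range D), _ := Finset.card_biUnion_le
      _ ≤ ∑ p ∈ (Ico 1 D) ×ˢ (range D), L := by
          refine Finset.sum_le_sum fun p hp => ?_
          refine Finset.card_image_le.trans (hL p.1 p.2 ?_)
          rw [Finset.mem_product, Finset.mem_Ico] at hp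
          exact hp.1.1
      _ = (D - 1) * D * L := by
          rw [Finset.sum_const, Finset.card_product, Nat.card_Ico, Finset.card_range, smul_eq_mul]
      _ ≤ D ^ 2 * L := by
          refine Nat.mul_le_mul_right _ ?_
          rw [pow_two]
          exact Nat.mul_le_mul_right _ (Nat.sub_le _ _)
  have h3 := Finset.card_filter_add_card_filter_not (s := S) m
  omega


/-- the polynomial whose roots separate the solutions -/
noncomputable def cdF_poly (i k : ℕ) (a b r : ℝ) : Polynomial ℝ :=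
  (Polynomial.X + Polynomial.C r) ^ (k * (i - 1)) *
      (Polynomial.C b - Polynomial.C a * Polynomial.X ^ i) ^ (k - 1) -
    Polynomial.X ^ (k * (i - 1)) *
      (Polynomial.C b - Polynomial.C a * (Polynomial.X + Polynomial.C r) ^ i) ^ (k - 1)

theorem cdF_poly_natDegree (i k : ℕ) (a b r : ℝ) : (cdF_poly i k a b r).natDegree ≤ 2 * (i * k) := by
  have h0 : (Polynomial.X + Polynomial.C r : Polynomial ℝ).natDegree ≤ 1 :=
    (Polynomial.natDegree_X_add_C r).le
  have h1 : ((Polynomial.X + Polynomial.C r : Polynomial ℝ) ^ (k * (i - 1))).natDegree ≤ i * k :=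
    Polynomial.natDegree_pow_le.trans
      ((Nat.mul_le_mul_left _ h0).trans (by rw [mul_one, mul_comm]; exact Nat.mul_le_mul_right _ (Nat.sub_le _ _)))
  have h2 : (Polynomial.X ^ (k * (i - 1)) : Polynomial ℝ).natDegree ≤ i * k := by
    rw [Polynomial.natDegree_X_pow, mul_comm]
    exact Nat.mul_le_mul_right _ (Nat.sub_le _ _)
  have h3 : ((Polynomial.C b - Polynomial.C a * Polynomial.X ^ i : Polynomial ℝ) ^ (k - 1)).natDegree
      ≤ i * k := by
    refine Polynomial.natDegree_pow_le.trans ?_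
    have : (Polynomial.C b - Polynomial.C a * Polynomial.X ^ i : Polynomial ℝ).natDegree ≤ i := by
      refine (Polynomial.natDegree_sub_le _ _).trans ?_
      rw [Polynomial.natDegree_C]
      exact max_le (Nat.zero_le _) (Polynomial.natDegree_C_mul_X_pow_le a i)
    calc (k - 1) * _ ≤ k * i := Nat.mul_le_mul (Nat.sub_le _ _) this
      _ = i * k := mul_comm _ _
  have h4 : ((Polynomial.C b - Polynomial.C a * (Polynomial.X + Polynomial.C r) ^ i :
      Polynomial ℝ) ^ (k - 1)).natDegree ≤ i * k := by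
    refine Polynomial.natDegree_pow_le.trans ?_
    have : (Polynomial.C b - Polynomial.C a * (Polynomial.X + Polynomial.C r) ^ i :
        Polynomial ℝ).natDegree ≤ i := by
      refine (Polynomial.natDegree_sub_le _ _).trans ?_
      rw [Polynomial.natDegree_C]
      refine max_le (Nat.zero_le _) ?_
      refine (Polynomial.natDegree_C_mul_le _ _).trans ?_
      exact Polynomial.natDegree_pow_le.trans ((Nat.mul_le_mul_left _ h0).trans (by rw [mul_one]))
    calc (k - 1) * _ ≤ k * i := Nat.mul_le_mul (Nat.sub_le _ _) this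
      _ = i * k := mul_comm _ _
  unfold cdF_poly
  refine (Polynomial.natDegree_sub_le _ _).trans (max_le ?_ ?_)
  · refine Polynomial.natDegree_mul_le.trans ?_
    omega
  · refine Polynomial.natDegree_mul_le.trans ?_
    omega

theorem cdF_poly_eval (i k : ℕ) (a b r t : ℝ) : (cdF_poly i k a b r).eval t =
    (t + r) ^ (k * (i - 1)) * (b - a * t ^ i) ^ (k - 1) -
      t ^ (k * (i - 1)) * (b - a * (t + r) ^ i) ^ (k - 1) := by
  simp [cdF_poly]

theorem cdF_poly_ne (i k : ℕ) (hi : 2 ≤ i) (hk : 2 ≤ k) (a b r : ℝ) (hb : b ≠ 0) (hr : 0 < r) :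
    cdF_poly i k a b r ≠ 0 := by
  intro h
  have h1 := cdF_poly_eval i k a b r 0
  rw [h, Polynomial.eval_zero] at h1
  have h2 : k * (i - 1) ≠ 0 := Nat.mul_ne_zero (by omega) (by omega)
  rw [zero_pow h2, zero_add, zero_pow (by omega : i ≠ 0)] at h1
  have h3 : r ^ (k * (i - 1)) * b ^ (k - 1) = 0 := by
    have := h1.symm
    simpa using this
  exact (mul_ne_zero (pow_ne_zero _ hr.ne') (pow_ne_zero _ hb)) h3

theorem cdF_pos (i : ℕ) (a b x y t : ℝ) (hx : 0 < x) (hxt : x ≤ t) (hty : t ≤ y)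
    (h1 : 0 < b - a * x ^ i) (h2 : 0 < b - a * y ^ i) : 0 < b - a * t ^ i := by
  have e1 : x ^ i ≤ t ^ i := pow_le_pow_left₀ hx.le hxt i
  have e2 : t ^ i ≤ y ^ i := pow_le_pow_left₀ (hx.le.trans hxt) hty i
  rcases le_total 0 a with ha | ha
  · have := mul_le_mul_of_nonneg_left e2 ha
    linarith
  · have := mul_le_mul_of_nonpos_left e1 ha
    linarith

theorem cdF_deriv (i : ℕ) (a b p r t : ℝ) (h : b - a * (t + r) ^ i ≠ 0) :
    HasDerivAt (fun u : ℝ => (b - a * (u + r) ^ i) ^ p)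
      (-(a * (i * (t + r) ^ (i - 1))) * p * (b - a * (t + r) ^ i) ^ (p - 1)) t := by
  have h1 : HasDerivAt (fun u : ℝ => u + r) 1 t := (hasDerivAt_id t).add_const r
  have h2 : HasDerivAt (fun u : ℝ => (u + r) ^ i) (i * (t + r) ^ (i - 1) * 1) t := h1.pow i
  have h3 : HasDerivAt (fun u : ℝ => b - a * (u + r) ^ i) (-(a * (i * (t + r) ^ (i - 1) * 1))) t :=
    (h2.const_mul a).const_sub b
  have h4 := h3.rpow_const (p := p) (Or.inl h)
  rw [mul_one] at h4
  exact h4

theorem cdF_real (i k : ℕ) (hi : 2 ≤ i) (hk : 2 ≤ k) (a b r s : ℝ) (ha : a ≠ 0) (hb : b ≠ 0)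
    (hr : 0 < r) (T : Finset ℝ)
    (hT : ∀ x ∈ T, 0 < x ∧ ∃ z z' : ℝ, 0 < z ∧ 0 < z' ∧ b - a * x ^ i = z ^ k ∧
      b - a * (x + r) ^ i = z' ^ k ∧ z' - z = s) :
    T.card ≤ 2 * (i * k) + 1 := by
  classical
  have hk0 : (k : ℝ) ≠ 0 := by
    have : k ≠ 0 := by omega
    exact_mod_cast this
  have hi0 : (i : ℝ) ≠ 0 := by
    have : i ≠ 0 := by omega
    exact_mod_cast this
  set p : ℝ := (k : ℝ)⁻¹ with hp
  have hp0 : p ≠ 0 := inv_ne_zero hk0
  have hcard : (cdF_poly i k a b r).roots.toFinset.card ≤ 2 * (i * k) :=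
    (Multiset.toFinset_card_le _).trans
      ((Polynomial.card_roots' _).trans (cdF_poly_natDegree i k a b r))
  refine le_trans (Finset.card_le_of_interleaved (t := (cdF_poly i k a b r).roots.toFinset) ?_)
    (Nat.succ_le_succ hcard)
  intro x hx y hy hxy _
  obtain ⟨hx0, z, z', hz, hz', e1, e2, e3⟩ := hT x hx
  obtain ⟨hy0, w, w', hw, hw', f1, f2, f3⟩ := hT y hy
  have hW : ∀ t ∈ Set.Icc x y, 0 < b - a * t ^ i := fun t ht =>
    cdF_pos i a b x y t hx0 ht.1 ht.2 (by rw [e1]; positivity) (by rw [f1]; positivity)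
  have hWr : ∀ t ∈ Set.Icc x y, 0 < b - a * (t + r) ^ i := fun t ht =>
    cdF_pos i a b (x + r) (y + r) (t + r) (by linarith) (by linarith [ht.1]) (by linarith [ht.2])
      (by rw [e2]; positivity) (by rw [f2]; positivity)
  have hd : ∀ t ∈ Set.Icc x y, HasDerivAt (fun u : ℝ => (b - a * (u + r) ^ i) ^ p -
      (b - a * (u + 0) ^ i) ^ p)
      (-(a * (i * (t + r) ^ (i - 1))) * p * (b - a * (t + r) ^ i) ^ (p - 1) -
        (-(a * (i * (t + 0) ^ (i - 1))) * p * (b - a * (t + 0) ^ i) ^ (p - 1))) t := by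
    intro t ht
    refine (cdF_deriv i a b p r t (hWr t ht).ne').sub (cdF_deriv i a b p 0 t ?_)
    rw [add_zero]
    exact (hW t ht).ne'
  have hval : ∀ x z z' : ℝ, 0 < z → 0 < z' → b - a * x ^ i = z ^ k →
      b - a * (x + r) ^ i = z' ^ k → z' - z = s →
      (b - a * (x + r) ^ i) ^ p - (b - a * (x + 0) ^ i) ^ p = s := by
    intro x z z' hz hz' e1 e2 e3
    rw [add_zero, e1, e2, hp, Real.pow_rpow_inv_natCast hz'.le (by omega),
      Real.pow_rpow_inv_natCast hz.le (by omega), e3]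
  obtain ⟨t, ht, ht0⟩ := exists_hasDerivAt_eq_zero hxy
    (fun t ht => (hd t ht).continuousAt.continuousWithinAt)
    ((hval x z z' hz hz' e1 e2 e3).trans (hval y w w' hw hw' f1 f2 f3).symm)
    (fun t ht => hd t (Set.Ioo_subset_Icc_self ht))
  refine ⟨t, ?_, ht.1, ht.2⟩
  rw [Multiset.mem_toFinset, Polynomial.mem_roots (cdF_poly_ne i k hi hk a b r hb hr),
    Polynomial.IsRoot, cdF_poly_eval]
  have htI := Set.Ioo_subset_Icc_self ht
  have ht1 : 0 < t := hx0.trans ht.1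
  rw [add_zero] at ht0
  have hU : ∀ w : ℝ, 0 < w → (w ^ (p - 1)) ^ k * w ^ (k - 1) = 1 := by
    intro w hw
    rw [← Real.rpow_natCast (w ^ (p - 1)) k, ← Real.rpow_mul hw.le, ← Real.rpow_natCast w (k - 1),
      ← Real.rpow_add hw, hp, Nat.cast_sub (by omega)]
    have : ((k : ℝ)⁻¹ - 1) * k + ((k : ℝ) - (1 : ℕ)) = 0 := by
      rw [sub_mul, inv_mul_cancel₀ hk0]
      push_cast
      ring
    rw [this, Real.rpow_zero]
  have hE : (t + r) ^ (i - 1) * (b - a * (t + r) ^ i) ^ (p - 1) =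
      t ^ (i - 1) * (b - a * t ^ i) ^ (p - 1) := by
    have h1 : a * i * p ≠ 0 := mul_ne_zero (mul_ne_zero ha hi0) hp0
    have h2 : a * i * p * ((t + r) ^ (i - 1) * (b - a * (t + r) ^ i) ^ (p - 1) -
        t ^ (i - 1) * (b - a * t ^ i) ^ (p - 1)) = 0 := by linear_combination -ht0
    rcases mul_eq_zero.1 h2 with h3 | h3
    · exact absurd h3 h1
    · linarith
  have hEk := congrArg (fun u => u ^ k) hE
  simp only [mul_pow, ← pow_mul] at hEk
  have hU1 := hU _ (hW t htI)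
  have hU2 := hU _ (hWr t htI)
  rw [mul_comm (i - 1) k] at hEk
  rw [sub_eq_zero]
  calc (t + r) ^ (k * (i - 1)) * (b - a * t ^ i) ^ (k - 1)
      = (t + r) ^ (k * (i - 1)) * (b - a * t ^ i) ^ (k - 1) *
          (((b - a * (t + r) ^ i) ^ (p - 1)) ^ k * (b - a * (t + r) ^ i) ^ (k - 1)) := by
        rw [hU2, mul_one]
    _ = ((t + r) ^ (k * (i - 1)) * ((b - a * (t + r) ^ i) ^ (p - 1)) ^ k) *
          (b - a * t ^ i) ^ (k - 1) * (b - a * (t + r) ^ i) ^ (k - 1) := by ring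
    _ = (t ^ (k * (i - 1)) * ((b - a * t ^ i) ^ (p - 1)) ^ k) *
          (b - a * t ^ i) ^ (k - 1) * (b - a * (t + r) ^ i) ^ (k - 1) := by rw [hEk]
    _ = t ^ (k * (i - 1)) * (((b - a * t ^ i) ^ (p - 1)) ^ k *
          (b - a * t ^ i) ^ (k - 1)) * (b - a * (t + r) ^ i) ^ (k - 1) := by ring
    _ = t ^ (k * (i - 1)) * (b - a * (t + r) ^ i) ^ (k - 1) := by rw [hU1, mul_one]


/-- the number of points with a given shift -/
theorem cdF_shift (i k : ℕ) (hi : 2 ≤ i) (hk : 2 ≤ k) (A B c : ℤ) (hA : A ≠ 0) (hB : B ≠ 0)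
    (hc : c ≠ 0) (S : Finset (ℕ × ℕ))
    (hS : ∀ q ∈ S, 1 ≤ q.1 ∧ 1 ≤ q.2 ∧ A * (q.1 : ℤ) ^ i + B * (q.2 : ℤ) ^ k = c)
    (r : ℕ) (hr : 1 ≤ r) (s : ℝ) (U : Finset ℕ)
    (hU : ∀ x ∈ U, ∃ z z' : ℕ, (x, z) ∈ S ∧ (x + r, z') ∈ S ∧ (z' : ℝ) - z = s) :
    U.card ≤ 2 * (i * k) + 1 := by
  classical
  have hB' : (B : ℝ) ≠ 0 := by exact_mod_cast hB
  have hA' : (A : ℝ) ≠ 0 := by exact_mod_cast hA
  have hc' : (c : ℝ) ≠ 0 := by exact_mod_cast hc
  have heq : ∀ q ∈ S, (c : ℝ) / B - (A : ℝ) / B * (q.1 : ℝ) ^ i = (q.2 : ℝ) ^ k := by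
    intro q hq
    have h := (hS q hq).2.2
    have h' : (A : ℝ) * (q.1 : ℝ) ^ i + B * (q.2 : ℝ) ^ k = c := by exact_mod_cast h
    field_simp
    linarith
  have h1 := cdF_real i k hi hk ((A : ℝ) / B) ((c : ℝ) / B) r s (div_ne_zero hA' hB')
    (div_ne_zero hc' hB') (by exact_mod_cast (by omega : 0 < r)) (U.image (fun x : ℕ => (x : ℝ)))
    (by
      intro y hy
      rw [Finset.mem_image] at hy
      obtain ⟨x, hx, rfl⟩ := hy
      obtain ⟨z, z', h1, h2, h3⟩ := hU x hx
      have e1 := heq _ h1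
      have e2 := heq _ h2
      have p1 := hS _ h1
      have p2 := hS _ h2
      simp only [Nat.cast_add] at e1 e2
      simp only at p1 p2
      refine ⟨by exact_mod_cast (by omega : 0 < x), z, z', by exact_mod_cast (by omega : 0 < z),
        by exact_mod_cast (by omega : 0 < z'), e1, e2, h3⟩)
  rwa [Finset.card_image_of_injective _ Nat.cast_injective] at h1

/-- Jarnik's bound for the curves `A x^i + B z^k = c`, uniform in the coefficients -/
theorem curve_count (i k : ℕ) (hi : 2 ≤ i) (hk : 2 ≤ k) : ∃ C : ℝ, 1 ≤ C ∧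
    ∀ (A B c : ℤ) (M : ℕ) (S : Finset (ℕ × ℕ)), A ≠ 0 → B ≠ 0 → c ≠ 0 → 1 ≤ M →
    (∀ q ∈ S, 1 ≤ q.1 ∧ q.1 ≤ M ∧ 1 ≤ q.2 ∧ q.2 ≤ M ∧
      A * (q.1 : ℤ) ^ i + B * (q.2 : ℤ) ^ k = c) →
    (S.card : ℝ) ≤ C * (M : ℝ) ^ (2 / 3 : ℝ) := by
  classical
  set L : ℕ := 2 * (i * k) + 1 with hLdef
  refine ⟨3 + 4 * L, by have : (0 : ℝ) ≤ L := Nat.cast_nonneg _; linarith, ?_⟩
  intro A B c M S hA hB hc hM hS
  -- basic facts
  have hS' : ∀ q ∈ S, 1 ≤ q.1 ∧ 1 ≤ q.2 ∧ A * (q.1 : ℤ) ^ i + B * (q.2 : ℤ) ^ k = c := fun q hq =>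
    ⟨(hS q hq).1, (hS q hq).2.2.1, (hS q hq).2.2.2.2⟩
  have hinj : ∀ q ∈ S, ∀ q' ∈ S, q.1 = q'.1 → q = q' := by
    intro q hq q' hq' h
    have e1 := (hS' q hq).2.2
    have e2 := (hS' q' hq').2.2
    rw [← h] at e2
    have e3 : B * ((q.2 : ℤ) ^ k) = B * ((q'.2 : ℤ) ^ k) := by linarith
    have e4 := mul_left_cancel₀ hB e3
    have e5 : q.2 ^ k = q'.2 ^ k := by exact_mod_cast e4
    exact Prod.ext h (Nat.pow_left_injective (by omega) e5)
  have hkey : ∀ q ∈ S, ∀ q' ∈ S, q.1 < q'.1 → (A * B) * ((q'.1 : ℤ) ^ i - (q.1 : ℤ) ^ i) =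
      B * B * ((q.2 : ℤ) ^ k - (q'.2 : ℤ) ^ k) ∧ 0 < (q'.1 : ℤ) ^ i - (q.1 : ℤ) ^ i := by
    intro q hq q' hq' h
    have e1 := (hS' q hq).2.2
    have e2 := (hS' q' hq').2.2
    refine ⟨by linear_combination B * e2 - B * e1, ?_⟩
    have : (q.1 : ℤ) ^ i < (q'.1 : ℤ) ^ i :=
      pow_lt_pow_left₀ (by exact_mod_cast h) (by positivity) (by omega)
    linarith
  have hBB : 0 < B * B := mul_self_pos.2 hB
  -- the grid bound
  have hgrid : ∀ D : ℕ, 1 ≤ D → S.card ≤ 2 * (M / D) + 1 + D ^ 2 * L := by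
    intro D hD
    rcases lt_or_gt_of_ne (mul_ne_zero hA hB) with hAB | hAB
    · -- increasing
      refine cdF_grid M D L hD S (fun q hq => ⟨(hS q hq).2.1, (hS q hq).2.2.2.1⟩) ?_ hinj ?_
      · intro q hq q' hq' h
        obtain ⟨h1, h2⟩ := hkey q hq q' hq' h
        by_contra hcon
        have h3 : (q'.2 : ℤ) ^ k ≤ (q.2 : ℤ) ^ k :=
          pow_le_pow_left₀ (by positivity) (by exact_mod_cast not_lt.1 hcon) k
        nlinarith
      · intro r s hr
        have hcard : (S.filter (fun q => (q.1 + r, q.2 + s) ∈ S)).card =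
            ((S.filter (fun q => (q.1 + r, q.2 + s) ∈ S)).image Prod.fst).card := by
          rw [Finset.card_image_of_injOn]
          intro q hq q' hq' h
          exact hinj q (Finset.mem_filter.1 (Finset.mem_coe.1 hq)).1 q'
            (Finset.mem_filter.1 (Finset.mem_coe.1 hq')).1 h
        rw [hcard]
        refine cdF_shift i k hi hk A B c hA hB hc S hS' r hr s _ ?_
        intro x hx
        rw [Finset.mem_image] at hx
        obtain ⟨q, hq, rfl⟩ := hx
        rw [Finset.mem_filter] at hq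
        exact ⟨q.2, q.2 + s, hq.1, hq.2, by push_cast; ring⟩
    · -- decreasing
      set S' : Finset (ℕ × ℕ) := S.image (fun q => (q.1, M - q.2)) with hS'def
      have hmem : ∀ q' ∈ S', ∃ q ∈ S, q'.1 = q.1 ∧ q'.2 = M - q.2 := by
        intro q' hq'
        rw [hS'def, Finset.mem_image] at hq'
        obtain ⟨q, hq, rfl⟩ := hq'
        exact ⟨q, hq, rfl, rfl⟩
      have hcardS : S'.card = S.card := by
        rw [hS'def]
        refine Finset.card_image_of_injOn ?_
        intro q hq q' hq' h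
        simp only [Prod.mk.injEq] at h
        exact hinj q (Finset.mem_coe.1 hq) q' (Finset.mem_coe.1 hq') h.1
      have hinj' : ∀ q ∈ S', ∀ q' ∈ S', q.1 = q'.1 → q = q' := by
        intro q hq q' hq' h
        obtain ⟨p, hp, p1, p2⟩ := hmem q hq
        obtain ⟨p', hp', p1', p2'⟩ := hmem q' hq'
        have := hinj p hp p' hp' (by rw [← p1, ← p1', h])
        refine Prod.ext h ?_
        rw [p2, p2', this]
      rw [← hcardS]
      refine cdF_grid M D L hD S' ?_ ?_ hinj' ?_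
      · intro q hq
        obtain ⟨p, hp, p1, p2⟩ := hmem q hq
        rw [p1, p2]
        exact ⟨(hS p hp).2.1, Nat.sub_le _ _⟩
      · intro q hq q' hq' h
        obtain ⟨p, hp, p1, p2⟩ := hmem q hq
        obtain ⟨p', hp', p1', p2'⟩ := hmem q' hq'
        rw [p1, p1'] at h
        obtain ⟨h1, h2⟩ := hkey p hp p' hp' h
        have h3 : p'.2 < p.2 := by
          by_contra hcon
          have h3 : (p.2 : ℤ) ^ k ≤ (p'.2 : ℤ) ^ k :=
            pow_le_pow_left₀ (by positivity) (by exact_mod_cast not_lt.1 hcon) k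
          nlinarith
        have h4 := (hS p hp).2.2.2.1
        rw [p2, p2']
        omega
      · intro r s hr
        have hcard : (S'.filter (fun q => (q.1 + r, q.2 + s) ∈ S')).card =
            ((S'.filter (fun q => (q.1 + r, q.2 + s) ∈ S')).image Prod.fst).card := by
          rw [Finset.card_image_of_injOn]
          intro q hq q' hq' h
          exact hinj' q (Finset.mem_filter.1 (Finset.mem_coe.1 hq)).1 q'
            (Finset.mem_filter.1 (Finset.mem_coe.1 hq')).1 h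
        rw [hcard]
        refine cdF_shift i k hi hk A B c hA hB hc S hS' r hr (-(s : ℝ)) _ ?_
        intro x hx
        rw [Finset.mem_image] at hx
        obtain ⟨q, hq, rfl⟩ := hx
        rw [Finset.mem_filter] at hq
        obtain ⟨p, hp, p1, p2⟩ := hmem q hq.1
        obtain ⟨p', hp', p1', p2'⟩ := hmem _ hq.2
        simp only at p1' p2'
        refine ⟨p.2, p'.2, ?_, ?_, ?_⟩
        · rw [p1]; exact hp
        · rw [p1']; exact hp'
        · have h1 := (hS p hp).2.2.2.1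
          have h2 := (hS p' hp').2.2.2.1
          have h3 : p'.2 + s = p.2 := by omega
          have h4 : (p'.2 : ℝ) + s = p.2 := by exact_mod_cast h3
          linarith
  -- choice of the side
  have hM0 : (1 : ℝ) ≤ M := by exact_mod_cast hM
  have hM1 : (0 : ℝ) < M := by linarith
  set y : ℝ := (M : ℝ) ^ (1 / 3 : ℝ) with hy
  have hy1 : 1 ≤ y := Real.one_le_rpow hM0 (by norm_num)
  have hy2 : y ^ 2 = (M : ℝ) ^ (2 / 3 : ℝ) := by
    rw [hy, ← Real.rpow_natCast, ← Real.rpow_mul hM1.le]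
    norm_num
  have hy3 : y ^ 3 = M := by
    rw [hy, ← Real.rpow_natCast, ← Real.rpow_mul hM1.le]
    norm_num
  set D : ℕ := ⌈y⌉₊ with hD
  have hD1 : y ≤ D := Nat.le_ceil y
  have hD2 : (D : ℝ) ≤ 2 * y := by
    have := (Nat.ceil_lt_add_one (by linarith : (0 : ℝ) ≤ y)).le
    rw [← hD] at this
    linarith
  have hD0 : 1 ≤ D := by
    have : (1 : ℝ) ≤ D := hy1.trans hD1
    exact_mod_cast this
  have hg := hgrid D hD0
  have hg' : (S.card : ℝ) ≤ 2 * ((M / D : ℕ) : ℝ) + 1 + (D : ℝ) ^ 2 * L := by exact_mod_cast hg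
  have hdiv : ((M / D : ℕ) : ℝ) ≤ y ^ 2 := by
    refine Nat.cast_div_le.trans ?_
    rw [div_le_iff₀ (by linarith)]
    calc (M : ℝ) = y ^ 2 * y := by rw [← hy3]; ring
      _ ≤ y ^ 2 * D := mul_le_mul_of_nonneg_left hD1 (by positivity)
  have hDD : (D : ℝ) ^ 2 ≤ 4 * y ^ 2 := by nlinarith
  have hL0 : (0 : ℝ) ≤ L := Nat.cast_nonneg _
  have hy22 : 1 ≤ y ^ 2 := by nlinarith
  rw [← hy2]
  calc (S.card : ℝ) ≤ 2 * ((M / D : ℕ) : ℝ) + 1 + (D : ℝ) ^ 2 * L := hg'
    _ ≤ 2 * y ^ 2 + y ^ 2 + 4 * y ^ 2 * L := by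
        have := mul_le_mul_of_nonneg_right hDD hL0
        linarith
    _ = (3 + 4 * L) * y ^ 2 := by ring

end Pool.Agent.Lib.MP_d8bd92_nt
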