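import Pool.Agent.Lib.MP_d8bd92_nt.CdDefs
import Pool.Agent.Lib.MP_d8bd92_nt.CdA
import Pool.Agent.Lib.MP_d8bd92_nt.CdF

set_option autoImplicit false

/-!
Row G: all three numbers are almost pure powers.
-/

namespace Pool.Agent.Lib.MP_d8bd92_nt

open Finset Pool.Agent.Lib.Szpiro


theorem G_card_le_fibre {α : Type*} [DecidableEq α] (m : ℕ) (B : ℝ) (S : Finset (ℕ × ℕ))
    (F : ℕ → Finset α) (g : ℕ → α → ℕ × ℕ)
    (hF : ∀ t ∈ Icc 1 m, ((F t).card : ℝ) ≤ B)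
    (hS : ∀ q ∈ S, ∃ t ∈ Icc 1 m, ∃ w ∈ F t, q = g t w) :
    (S.card : ℝ) ≤ m * B := by
  have hsub : S ⊆ (Icc 1 m).biUnion (fun t => (F t).image (g t)) := by
    intro q hq
    obtain ⟨t, ht, w, hw, rfl⟩ := hS q hq
    exact mem_biUnion.2 ⟨t, ht, mem_image_of_mem _ hw⟩
  have h1 : (S.card : ℝ) ≤ ∑ t ∈ Icc 1 m, ((F t).card : ℝ) := by
    have h3 := (card_le_card hsub).trans card_biUnion_le
    have h2 : ∑ t ∈ Icc 1 m, ((F t).image (g t)).card ≤ ∑ t ∈ Icc 1 m, (F t).card :=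
      sum_le_sum fun t _ => card_image_le
    exact_mod_cast h3.trans h2
  calc (S.card : ℝ) ≤ ∑ t ∈ Icc 1 m, ((F t).card : ℝ) := h1
    _ ≤ ∑ t ∈ Icc 1 m, B := sum_le_sum hF
    _ = m * B := by simp

theorem G_card_cong (m α β : ℕ) (e : ℤ) (hc : Nat.Coprime α β) :
    (((Icc 1 m).filter (fun x : ℕ => (α : ℤ) ∣ (β : ℤ) * x + e)).card : ℝ) ≤ (m : ℝ) / α + 1 := by
  have h1 : ((Icc 1 m).filter (fun x : ℕ => (α : ℤ) ∣ (β : ℤ) * x + e)).card ≤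
      (range (m / α + 1)).card := by
    apply card_le_card_of_injOn (fun x => x / α)
    · intro x hx
      have hx' := (mem_filter.1 hx).1
      rw [mem_Icc] at hx'
      simp only [coe_range, Set.mem_Iio]
      exact Nat.lt_succ_of_le (Nat.div_le_div_right hx'.2)
    · intro x hx y hy hxy
      have hx' := (mem_filter.1 hx).2
      have hy' := (mem_filter.1 hy).2
      have h2 : (α : ℤ) ∣ (β : ℤ) * ((x : ℤ) - y) := by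
        have := dvd_sub hx' hy'
        have h3 : (β : ℤ) * x + e - ((β : ℤ) * y + e) = (β : ℤ) * ((x : ℤ) - y) := by ring
        rwa [h3] at this
      have h4 : IsCoprime (α : ℤ) (β : ℤ) := Nat.isCoprime_iff_coprime.2 hc
      have h5 : (α : ℤ) ∣ (x : ℤ) - y := h4.dvd_of_dvd_mul_left h2
      have h6 : x % α = y % α := by
        have h7 : (y : ℤ) ≡ x [ZMOD α] := (Int.modEq_iff_dvd).2 h5
        exact ((Int.natCast_modEq_iff).1 h7).symm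
      have h8 : x / α = y / α := hxy
      calc x = α * (x / α) + x % α := (Nat.div_add_mod x α).symm
        _ = α * (y / α) + y % α := by rw [h8, h6]
        _ = y := Nat.div_add_mod y α
  rw [card_range] at h1
  have h2 : ((m / α : ℕ) : ℝ) ≤ (m : ℝ) / α := Nat.cast_div_le
  have h3 : (((Icc 1 m).filter (fun x : ℕ => (α : ℤ) ∣ (β : ℤ) * x + e)).card : ℝ) ≤
      ((m / α : ℕ) : ℝ) + 1 := by exact_mod_cast h1
  linarith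

/-- linear case: the modulus `α` is large -/
theorem G_linear (α β : ℕ) (M H : ℝ) (S : Finset (ℕ × ℕ)) (e : ℕ → ℤ) (g : ℕ → ℕ → ℕ × ℕ)
    (hM : 1 ≤ M) (hH : 1 ≤ H)
    (hS : ∀ q ∈ S, ∃ t x y n n' : ℕ, 1 ≤ t ∧ (t : ℝ) ≤ M ∧ 1 ≤ x ∧ (x : ℝ) ≤ M ∧ (y : ℝ) ≤ M ∧
      n = α * y ∧ n' = β * x ∧ Nat.Coprime n n' ∧ H ≤ 2 * (n : ℝ) ∧
      (α : ℤ) ∣ (β : ℤ) * x + e t ∧ q = g t x) :
    (S.card : ℝ) ≤ M + 2 * (M ^ 3 / H) := by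
  have hM0 : 0 < M := by linarith
  have hH0 : 0 < H := by linarith
  rcases S.eq_empty_or_nonempty with rfl | ⟨q₀, hq₀⟩
  · simp only [card_empty, Nat.cast_zero]; positivity
  obtain ⟨t, x, y, n, n', ht, htM, hx, hxM, hyM, hn, hn', hnn, hHn, -, -⟩ := hS q₀ hq₀
  have hαy : H ≤ 2 * ((α : ℝ) * y) := by
    rw [hn] at hHn; push_cast at hHn; exact hHn
  have hα0 : (0 : ℝ) ≤ α := Nat.cast_nonneg _
  have hαM : H ≤ 2 * ((α : ℝ) * M) :=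
    hαy.trans (by nlinarith [mul_le_mul_of_nonneg_left hyM hα0])
  have hα : 1 ≤ α := by
    rcases Nat.eq_zero_or_pos α with h | h
    · rw [h] at hαM; push_cast at hαM; linarith
    · exact h
  have hαp : (0 : ℝ) < α := by exact_mod_cast hα
  have hc : Nat.Coprime α β := by
    rw [hn, hn'] at hnn
    exact Nat.Coprime.coprime_mul_right (Nat.Coprime.coprime_mul_right_right hnn)
  set m := ⌊M⌋₊ with hm
  have hmM : (m : ℝ) ≤ M := Nat.floor_le hM0.le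
  have h1 : (S.card : ℝ) ≤ m * ((m : ℝ) / α + 1) := by
    apply G_card_le_fibre m _ S
      (fun t => (Icc 1 m).filter (fun x : ℕ => (α : ℤ) ∣ (β : ℤ) * x + e t)) g
    · intro t _
      exact G_card_cong m α β (e t) hc
    · intro q hq
      obtain ⟨t, x, y, n, n', ht, htM, hx, hxM, hyM, hn, hn', hnn, hHn, hd, hqg⟩ := hS q hq
      refine ⟨t, mem_Icc.2 ⟨ht, Nat.le_floor htM⟩, x, mem_filter.2 ⟨mem_Icc.2 ⟨hx,
        Nat.le_floor hxM⟩, hd⟩, hqg⟩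
  have h2 : (m : ℝ) / α ≤ 2 * M ^ 2 / H := by
    rw [div_le_div_iff₀ hαp hH0]
    calc (m : ℝ) * H ≤ M * (2 * ((α : ℝ) * M)) := mul_le_mul hmM hαM hH0.le hM0.le
      _ = 2 * M ^ 2 * α := by ring
  calc (S.card : ℝ) ≤ m * ((m : ℝ) / α + 1) := h1
    _ ≤ M * (2 * M ^ 2 / H + 1) := by
        apply mul_le_mul hmM (by linarith) (by positivity) hM0.le
    _ = M + 2 * (M ^ 3 / H) := by ring

theorem G_tuple (K : ℕ) : ∃ C : ℝ, 1 ≤ C ∧ ∀ (k₁ k₂ k₃ u₁ u₂ u₃ : ℕ) (M H : ℝ)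
    (S : Finset (ℕ × ℕ)), 1 ≤ k₁ → k₁ < K → 1 ≤ k₂ → k₂ < K → 1 ≤ k₃ → k₃ < K → 1 ≤ u₁ → 1 ≤ u₂ →
    1 ≤ u₃ → 1 ≤ M → 1 ≤ H →
    (∀ q ∈ S, 1 ≤ q.1 ∧ 1 ≤ q.2 ∧ Nat.Coprime q.1 q.2 ∧ H ≤ ((q.1 + q.2 : ℕ) : ℝ) ∧
      ∃ x y z : ℕ, 1 ≤ x ∧ 1 ≤ y ∧ 1 ≤ z ∧ (x : ℝ) ≤ M ∧ (y : ℝ) ≤ M ∧ (z : ℝ) ≤ M ∧
        q.1 = u₁ * x ^ k₁ ∧ q.2 = u₂ * y ^ k₂ ∧ q.1 + q.2 = u₃ * z ^ k₃) →
    (S.card : ℝ) ≤ C * (M ^ (5 / 3 : ℝ) + M ^ 3 / H) := by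
  have hex : ∀ i k : ℕ, ∃ C : ℝ, 1 ≤ C ∧ (2 ≤ i → 2 ≤ k →
    ∀ (A B c : ℤ) (M : ℕ) (S : Finset (ℕ × ℕ)), A ≠ 0 → B ≠ 0 → c ≠ 0 → 1 ≤ M →
    (∀ q ∈ S, 1 ≤ q.1 ∧ q.1 ≤ M ∧ 1 ≤ q.2 ∧ q.2 ≤ M ∧
      A * (q.1 : ℤ) ^ i + B * (q.2 : ℤ) ^ k = c) →
    (S.card : ℝ) ≤ C * (M : ℝ) ^ (2 / 3 : ℝ)) := by
    intro i k
    by_cases h : 2 ≤ i ∧ 2 ≤ k
    · obtain ⟨C, hC, hC'⟩ := curve_count i k h.1 h.2
      exact ⟨C, hC, fun _ _ => hC'⟩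
    · exact ⟨1, le_rfl, fun h1 h2 => absurd ⟨h1, h2⟩ h⟩
  choose Cf hCf1 hCf2 using hex
  set C₀ : ℝ := ∑ i ∈ range K, ∑ k ∈ range K, Cf i k with hC₀
  have hCf0 : ∀ i k, 0 ≤ Cf i k := fun i k => by linarith [hCf1 i k]
  have hCle : ∀ i k, i < K → k < K → Cf i k ≤ C₀ := by
    intro i k hi hk
    calc Cf i k ≤ ∑ k ∈ range K, Cf i k :=
          single_le_sum (f := fun k => Cf i k) (fun j _ => hCf0 i j) (mem_range.2 hk)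
      _ ≤ C₀ := single_le_sum (f := fun i => ∑ k ∈ range K, Cf i k)
          (fun j _ => sum_nonneg fun l _ => hCf0 j l) (mem_range.2 hi)
  have hC₀0 : 0 ≤ C₀ := sum_nonneg fun j _ => sum_nonneg fun l _ => hCf0 j l
  refine ⟨C₀ + 4, by linarith, ?_⟩
  intro k₁ k₂ k₃ u₁ u₂ u₃ M H S h1 h1' h2 h2' h3 h3' hu1 hu2 hu3 hM hH hS
  have hM0 : 0 < M := by linarith
  have hH0 : 0 < H := by linarith
  set m := ⌊M⌋₊ with hm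
  have hmM : (m : ℝ) ≤ M := Nat.floor_le hM0.le
  have hm1 : 1 ≤ m := Nat.le_floor (by exact_mod_cast hM)
  have hMp : M ^ (5 / 3 : ℝ) = M * M ^ (2 / 3 : ℝ) := by
    rw [show (5 / 3 : ℝ) = 1 + 2 / 3 by norm_num, Real.rpow_add hM0, Real.rpow_one]
  have hMH : 0 ≤ M ^ 3 / H := by positivity
  have hM53 : 0 ≤ M ^ (5 / 3 : ℝ) := Real.rpow_nonneg hM0.le _
  have hMM : M ≤ M ^ (5 / 3 : ℝ) := by
    calc M = M ^ (1 : ℝ) := (Real.rpow_one M).symm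
      _ ≤ M ^ (5 / 3 : ℝ) := Real.rpow_le_rpow_of_exponent_le hM (by norm_num)
  -- the bound of the case of two exponents `≥ 2`
  have hcase1 : ∀ i k : ℕ, i < K → k < K → 2 ≤ i → 2 ≤ k → ∀ (A B : ℤ) (c : ℕ → ℤ)
      (g : ℕ → ℕ × ℕ → ℕ × ℕ), A ≠ 0 → B ≠ 0 → (∀ t, 1 ≤ t → c t ≠ 0) →
      (∀ q ∈ S, ∃ t x y : ℕ, 1 ≤ t ∧ 1 ≤ x ∧ 1 ≤ y ∧ (t : ℝ) ≤ M ∧ (x : ℝ) ≤ M ∧ (y : ℝ) ≤ M ∧
        A * (x : ℤ) ^ i + B * (y : ℤ) ^ k = c t ∧ q = g t (x, y)) →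
      (S.card : ℝ) ≤ (C₀ + 4) * (M ^ (5 / 3 : ℝ) + M ^ 3 / H) := by
    intro i k hiK hkK hi hk A B c g hA hB hc hq
    have h4 : (S.card : ℝ) ≤ m * (Cf i k * (m : ℝ) ^ (2 / 3 : ℝ)) := by
      apply G_card_le_fibre m _ S (fun t => (Icc 1 m ×ˢ Icc 1 m).filter
        (fun w : ℕ × ℕ => A * (w.1 : ℤ) ^ i + B * (w.2 : ℤ) ^ k = c t)) g
      · intro t ht
        apply hCf2 i k hi hk A B (c t) m _ hA hB (hc t (mem_Icc.1 ht).1) hm1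
        intro w hw
        obtain ⟨hw1, hw2⟩ := mem_filter.1 hw
        obtain ⟨hw3, hw4⟩ := mem_product.1 hw1
        exact ⟨(mem_Icc.1 hw3).1, (mem_Icc.1 hw3).2, (mem_Icc.1 hw4).1, (mem_Icc.1 hw4).2, hw2⟩
      · intro q hq'
        obtain ⟨t, x, y, ht, hx, hy, htM, hxM, hyM, he, hg⟩ := hq q hq'
        exact ⟨t, mem_Icc.2 ⟨ht, Nat.le_floor htM⟩, (x, y), mem_filter.2 ⟨mem_product.2
          ⟨mem_Icc.2 ⟨hx, Nat.le_floor hxM⟩, mem_Icc.2 ⟨hy, Nat.le_floor hyM⟩⟩, he⟩, hg⟩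
    calc (S.card : ℝ) ≤ m * (Cf i k * (m : ℝ) ^ (2 / 3 : ℝ)) := h4
      _ ≤ M * (C₀ * M ^ (2 / 3 : ℝ)) := by
          apply mul_le_mul hmM _ (by have := hCf0 i k; positivity) hM0.le
          apply mul_le_mul (hCle i k hiK hkK) _ (by positivity) hC₀0
          exact Real.rpow_le_rpow (Nat.cast_nonneg _) hmM (by norm_num)
      _ = C₀ * M ^ (5 / 3 : ℝ) := by rw [hMp]; ring
      _ ≤ (C₀ + 4) * (M ^ (5 / 3 : ℝ) + M ^ 3 / H) := by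
          nlinarith [mul_nonneg hC₀0 hMH]
  have hpos : ∀ u k t : ℕ, 1 ≤ u → 1 ≤ t → (0 : ℤ) < (u : ℤ) * (t : ℤ) ^ k := by
    intro u k t hu ht
    have h4 : (0 : ℤ) < u := by exact_mod_cast hu
    have h5 : (0 : ℤ) < t := by exact_mod_cast ht
    positivity
  by_cases hA : 2 ≤ k₁ ∧ 2 ≤ k₂
  · apply hcase1 k₁ k₂ h1' h2' hA.1 hA.2 (u₁ : ℤ) (u₂ : ℤ) (fun t => (u₃ : ℤ) * (t : ℤ) ^ k₃)
      (fun _ w => (u₁ * w.1 ^ k₁, u₂ * w.2 ^ k₂))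
    · exact_mod_cast (by omega : u₁ ≠ 0)
    · exact_mod_cast (by omega : u₂ ≠ 0)
    · intro t ht
      exact (hpos u₃ k₃ t hu3 ht).ne'
    · intro q hq
      obtain ⟨-, -, -, -, x, y, z, hx, hy, hz, hxM, hyM, hzM, e1, e2, e3⟩ := hS q hq
      refine ⟨z, x, y, hz, hx, hy, hzM, hxM, hyM, ?_, Prod.ext e1 e2⟩
      rw [e1, e2] at e3
      exact_mod_cast e3
  by_cases hB : 2 ≤ k₁ ∧ 2 ≤ k₃
  · apply hcase1 k₁ k₃ h1' h3' hB.1 hB.2 (u₁ : ℤ) (-(u₃ : ℤ)) (fun t => -((u₂ : ℤ) * (t : ℤ) ^ k₂))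
      (fun t w => (u₁ * w.1 ^ k₁, u₂ * t ^ k₂))
    · exact_mod_cast (by omega : u₁ ≠ 0)
    · have : (u₃ : ℤ) ≠ 0 := by exact_mod_cast (by omega : u₃ ≠ 0)
      exact neg_ne_zero.2 this
    · intro t ht
      exact neg_ne_zero.2 (hpos u₂ k₂ t hu2 ht).ne'
    · intro q hq
      obtain ⟨-, -, -, -, x, y, z, hx, hy, hz, hxM, hyM, hzM, e1, e2, e3⟩ := hS q hq
      refine ⟨y, x, z, hy, hx, hz, hyM, hxM, hzM, ?_, Prod.ext e1 e2⟩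
      rw [e1, e2] at e3
      have e4 : (u₁ : ℤ) * (x : ℤ) ^ k₁ + (u₂ : ℤ) * (y : ℤ) ^ k₂ = (u₃ : ℤ) * (z : ℤ) ^ k₃ := by
        exact_mod_cast e3
      linarith
  by_cases hC : 2 ≤ k₂ ∧ 2 ≤ k₃
  · apply hcase1 k₂ k₃ h2' h3' hC.1 hC.2 (u₂ : ℤ) (-(u₃ : ℤ)) (fun t => -((u₁ : ℤ) * (t : ℤ) ^ k₁))
      (fun t w => (u₁ * t ^ k₁, u₂ * w.1 ^ k₂))
    · exact_mod_cast (by omega : u₂ ≠ 0)
    · have : (u₃ : ℤ) ≠ 0 := by exact_mod_cast (by omega : u₃ ≠ 0)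
      exact neg_ne_zero.2 this
    · intro t ht
      exact neg_ne_zero.2 (hpos u₁ k₁ t hu1 ht).ne'
    · intro q hq
      obtain ⟨-, -, -, -, x, y, z, hx, hy, hz, hxM, hyM, hzM, e1, e2, e3⟩ := hS q hq
      refine ⟨x, y, z, hx, hy, hz, hxM, hyM, hzM, ?_, Prod.ext e1 e2⟩
      rw [e1, e2] at e3
      have e4 : (u₁ : ℤ) * (x : ℤ) ^ k₁ + (u₂ : ℤ) * (y : ℤ) ^ k₂ = (u₃ : ℤ) * (z : ℤ) ^ k₃ := by
        exact_mod_cast e3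
      linarith
  -- two of the exponents are `1`
  have hfin : ∀ (P : ℕ × ℕ → Prop) [DecidablePred P],
      ((S.filter P).card : ℝ) ≤ M + 2 * (M ^ 3 / H) →
      ((S.filter (fun q => ¬ P q)).card : ℝ) ≤ M + 2 * (M ^ 3 / H) →
      (S.card : ℝ) ≤ (C₀ + 4) * (M ^ (5 / 3 : ℝ) + M ^ 3 / H) := by
    intro P _ hb1 hb2
    have h4 : (S.card : ℝ) = ((S.filter P).card : ℝ) + ((S.filter (fun q => ¬ P q)).card : ℝ) := by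
      have := card_filter_add_card_filter_not (s := S) P
      exact_mod_cast this.symm
    have h5 := mul_nonneg hC₀0 hMH
    have h6 := mul_nonneg hC₀0 hM53
    have h7 : (C₀ + 4) * (M ^ (5 / 3 : ℝ) + M ^ 3 / H) = C₀ * M ^ (5 / 3 : ℝ) + C₀ * (M ^ 3 / H) +
        4 * M ^ (5 / 3 : ℝ) + 4 * (M ^ 3 / H) := by ring
    rw [h4, h7]
    linarith
  have hk : (k₁ = 1 ∧ k₂ = 1) ∨ (k₁ = 1 ∧ k₃ = 1) ∨ (k₂ = 1 ∧ k₃ = 1) := by omega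
  rcases hk with ⟨rfl, rfl⟩ | ⟨rfl, rfl⟩ | ⟨rfl, rfl⟩
  · -- `k₁ = k₂ = 1`
    apply hfin (fun q => q.2 ≤ q.1)
    · apply G_linear u₁ u₂ M H _ (fun t => -((u₃ : ℤ) * (t : ℤ) ^ k₃))
        (fun t x => (u₃ * t ^ k₃ - u₂ * x, u₂ * x)) hM hH
      intro q hq
      obtain ⟨hq, hle⟩ := mem_filter.1 hq
      obtain ⟨p1, p2, p3, p4, x, y, z, hx, hy, hz, hxM, hyM, hzM, e1, e2, e3⟩ := hS q hq
      rw [pow_one] at e1 e2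
      refine ⟨z, y, x, q.1, q.2, hz, hzM, hy, hyM, hxM, e1, e2, p3, ?_, ?_, ?_⟩
      · refine p4.trans ?_
        push_cast
        have : (q.2 : ℝ) ≤ q.1 := by exact_mod_cast hle
        linarith
      · refine ⟨-(x : ℤ), ?_⟩
        rw [e1, e2] at e3
        have e4 : (u₁ : ℤ) * (x : ℤ) + (u₂ : ℤ) * (y : ℤ) = (u₃ : ℤ) * (z : ℤ) ^ k₃ := by
          exact_mod_cast e3
        linarith
      · refine Prod.ext ?_ e2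
        show q.1 = u₃ * z ^ k₃ - u₂ * y
        omega
    · apply G_linear u₂ u₁ M H _ (fun t => -((u₃ : ℤ) * (t : ℤ) ^ k₃))
        (fun t x => (u₁ * x, u₃ * t ^ k₃ - u₁ * x)) hM hH
      intro q hq
      obtain ⟨hq, hle⟩ := mem_filter.1 hq
      obtain ⟨p1, p2, p3, p4, x, y, z, hx, hy, hz, hxM, hyM, hzM, e1, e2, e3⟩ := hS q hq
      rw [pow_one] at e1 e2
      refine ⟨z, x, y, q.2, q.1, hz, hzM, hx, hxM, hyM, e2, e1, p3.symm, ?_, ?_, ?_⟩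
      · refine p4.trans ?_
        push_cast
        have : (q.1 : ℝ) ≤ q.2 := by exact_mod_cast (not_le.1 hle).le
        linarith
      · refine ⟨-(y : ℤ), ?_⟩
        rw [e1, e2] at e3
        have e4 : (u₁ : ℤ) * (x : ℤ) + (u₂ : ℤ) * (y : ℤ) = (u₃ : ℤ) * (z : ℤ) ^ k₃ := by
          exact_mod_cast e3
        linarith
      · refine Prod.ext e1 ?_
        show q.2 = u₃ * z ^ k₃ - u₁ * x
        omega
  · -- `k₁ = k₃ = 1`; the number `c` always has a large `u₃`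
    apply hfin (fun _ => True)
    · apply G_linear u₃ u₁ M H _ (fun t => (u₂ : ℤ) * (t : ℤ) ^ k₂)
        (fun t x => (u₁ * x, u₂ * t ^ k₂)) hM hH
      intro q hq
      obtain ⟨hq, -⟩ := mem_filter.1 hq
      obtain ⟨p1, p2, p3, p4, x, y, z, hx, hy, hz, hxM, hyM, hzM, e1, e2, e3⟩ := hS q hq
      rw [pow_one] at e1 e3
      refine ⟨y, x, z, q.1 + q.2, q.1, hy, hyM, hx, hxM, hzM, e3, e1, ?_, ?_, ?_, ?_⟩
      · rw [Nat.coprime_self_add_left]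
        exact p3.symm
      · have : (0 : ℝ) ≤ ((q.1 + q.2 : ℕ) : ℝ) := Nat.cast_nonneg _
        linarith
      · refine ⟨(z : ℤ), ?_⟩
        rw [e1, e2] at e3
        have e4 : (u₁ : ℤ) * (x : ℤ) + (u₂ : ℤ) * (y : ℤ) ^ k₂ = (u₃ : ℤ) * (z : ℤ) := by
          exact_mod_cast e3
        linarith
      · exact Prod.ext e1 e2
    · have h5 : S.filter (fun q => ¬ True) = ∅ := by simp
      rw [h5]
      simp only [card_empty, Nat.cast_zero]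
      positivity
  · apply hfin (fun _ => True)
    · apply G_linear u₃ u₂ M H _ (fun t => (u₁ : ℤ) * (t : ℤ) ^ k₁)
        (fun t x => (u₁ * t ^ k₁, u₂ * x)) hM hH
      intro q hq
      obtain ⟨hq, -⟩ := mem_filter.1 hq
      obtain ⟨p1, p2, p3, p4, x, y, z, hx, hy, hz, hxM, hyM, hzM, e1, e2, e3⟩ := hS q hq
      rw [pow_one] at e2 e3
      refine ⟨x, y, z, q.1 + q.2, q.2, hx, hxM, hy, hyM, hzM, e3, e2, ?_, ?_, ?_, ?_⟩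
      · rw [Nat.coprime_add_self_left]
        exact p3
      · have : (0 : ℝ) ≤ ((q.1 + q.2 : ℕ) : ℝ) := Nat.cast_nonneg _
        linarith
      · refine ⟨(z : ℤ), ?_⟩
        rw [e1, e2] at e3
        have e4 : (u₁ : ℤ) * (x : ℤ) ^ k₁ + (u₂ : ℤ) * (y : ℤ) = (u₃ : ℤ) * (z : ℤ) := by
          exact_mod_cast e3
        linarith
      · exact Prod.ext e1 e2
    · have h5 : S.filter (fun q => ¬ True) = ∅ := by simp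
      rw [h5]
      simp only [card_empty, Nat.cast_zero]
      positivity

theorem count_final (K : ℕ) (σ : ℝ) (hσ : 0 < σ) : ∃ C : ℝ, 1 ≤ C ∧ ∀ (Z : ℕ) (U M H : ℝ)
    (S : Finset (ℕ × ℕ)), 1 ≤ Z → 1 ≤ U → 1 ≤ M → 1 ≤ H →
    (∀ q ∈ S, 1 ≤ q.1 ∧ 1 ≤ q.2 ∧ q.1 + q.2 ≤ Z ∧ Nat.Coprime q.1 q.2 ∧ H ≤ ((q.1 + q.2 : ℕ) : ℝ) ∧
      NearPow K U M q.1 ∧ NearPow K U M q.2 ∧ NearPow K U M (q.1 + q.2)) →
    (S.card : ℝ) ≤ C * (Z : ℝ) ^ σ * U ^ 3 * (M ^ (5 / 3 : ℝ) + M ^ 3 / H) := by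
  obtain ⟨C₁, hC₁, hC₁'⟩ := card_rd_le (σ / 3) (by positivity)
  obtain ⟨C₂, hC₂, hC₂'⟩ := G_tuple K
  refine ⟨((K : ℝ) + 1) ^ 3 * C₁ ^ 3 * C₂, ?_, ?_⟩
  · have h1 : (1 : ℝ) ≤ (K : ℝ) + 1 := by
      have : (0 : ℝ) ≤ K := Nat.cast_nonneg _
      linarith
    have h2 := one_le_pow₀ (n := 3) h1
    have h3 := one_le_pow₀ (n := 3) hC₁
    exact one_le_mul_of_one_le_of_one_le (one_le_mul_of_one_le_of_one_le h2 h3) hC₂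
  intro Z U M H S hZ hU hM hH hS
  have hM0 : 0 < M := by linarith
  have hH0 : 0 < H := by linarith
  have hU0 : 0 < U := by linarith
  have hZ0 : (0 : ℝ) < Z := by exact_mod_cast hZ
  set R := (Icc 1 Z).filter (fun n => (rd n : ℝ) ≤ U) with hR
  have hRc : (R.card : ℝ) ≤ C₁ * (Z : ℝ) ^ (σ / 3) * U := hC₁' Z U hZ hU0.le
  classical
  set B : ℝ := C₂ * (M ^ (5 / 3 : ℝ) + M ^ 3 / H) with hB
  have hB0 : 0 ≤ B := by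
    have : 0 ≤ M ^ (5 / 3 : ℝ) := Real.rpow_nonneg hM0.le _
    positivity
  let T : Finset ((ℕ × ℕ × ℕ) × (ℕ × ℕ × ℕ)) :=
    (Ico 1 K ×ˢ Ico 1 K ×ˢ Ico 1 K) ×ˢ (R ×ˢ R ×ˢ R)
  let Q : (ℕ × ℕ × ℕ) × (ℕ × ℕ × ℕ) → ℕ × ℕ → Prop := fun t q =>
    ∃ x y z : ℕ, 1 ≤ x ∧ 1 ≤ y ∧ 1 ≤ z ∧ (x : ℝ) ≤ M ∧ (y : ℝ) ≤ M ∧ (z : ℝ) ≤ M ∧
        q.1 = t.2.1 * x ^ t.1.1 ∧ q.2 = t.2.2.1 * y ^ t.1.2.1 ∧
        q.1 + q.2 = t.2.2.2 * z ^ t.1.2.2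
  have hsub : S ⊆ T.biUnion (fun t => S.filter (Q t)) := by
    intro q hq
    obtain ⟨p1, p2, p3, p4, p5, n1, n2, n3⟩ := hS q hq
    obtain ⟨k₁, u₁, x, hk1, hk1', e1, hr1, hx, hxM⟩ := n1
    obtain ⟨k₂, u₂, y, hk2, hk2', e2, hr2, hy, hyM⟩ := n2
    obtain ⟨k₃, u₃, z, hk3, hk3', e3, hr3, hz, hzM⟩ := n3
    have hmemR : ∀ n u k t : ℕ, 1 ≤ n → n ≤ Z → n = u * t ^ k → 1 ≤ t → (rd u : ℝ) ≤ U →
        u ∈ R := by
      intro n u k t hn hnZ he ht hr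
      have hu0 : u ≠ 0 := by
        rintro rfl
        rw [zero_mul] at he; omega
      have htp : 1 ≤ t ^ k := Nat.one_le_pow _ _ ht
      have hle : u ≤ n := by
        rw [he]; exact Nat.le_mul_of_pos_right u htp
      exact mem_filter.2 ⟨mem_Icc.2 ⟨Nat.one_le_iff_ne_zero.2 hu0, hle.trans hnZ⟩, hr⟩
    refine mem_biUnion.2 ⟨((k₁, k₂, k₃), (u₁, u₂, u₃)), ?_, ?_⟩
    · refine mem_product.2 ⟨mem_product.2 ⟨mem_Ico.2 ⟨hk1, hk1'⟩, mem_product.2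
        ⟨mem_Ico.2 ⟨hk2, hk2'⟩, mem_Ico.2 ⟨hk3, hk3'⟩⟩⟩, mem_product.2 ⟨?_, mem_product.2 ⟨?_, ?_⟩⟩⟩
      · exact hmemR _ u₁ k₁ x p1 (by omega) e1 hx hr1
      · exact hmemR _ u₂ k₂ y p2 (by omega) e2 hy hr2
      · exact hmemR _ u₃ k₃ z (by omega) p3 e3 hz hr3
    · exact mem_filter.2 ⟨hq, x, y, z, hx, hy, hz, hxM, hyM, hzM, e1, e2, e3⟩
  have hcard : (S.card : ℝ) ≤ T.card * B := by
    have h1 : S.card ≤ ∑ t ∈ T, (S.filter (Q t)).card := (card_le_card hsub).trans card_biUnion_le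
    have h2 : (S.card : ℝ) ≤ ∑ t ∈ T, ((S.filter (Q t)).card : ℝ) := by exact_mod_cast h1
    refine h2.trans ?_
    rw [← nsmul_eq_mul, ← sum_const]
    apply sum_le_sum
    intro t ht
    obtain ⟨ht1, ht2⟩ := mem_product.1 ht
    obtain ⟨ht3, ht4⟩ := mem_product.1 ht1
    obtain ⟨ht5, ht6⟩ := mem_product.1 ht4
    obtain ⟨ht7, ht8⟩ := mem_product.1 ht2
    obtain ⟨ht9, ht10⟩ := mem_product.1 ht8
    apply hC₂' t.1.1 t.1.2.1 t.1.2.2 t.2.1 t.2.2.1 t.2.2.2 M H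
      _ (mem_Ico.1 ht3).1 (mem_Ico.1 ht3).2
      (mem_Ico.1 ht5).1 (mem_Ico.1 ht5).2 (mem_Ico.1 ht6).1 (mem_Ico.1 ht6).2
      (mem_Icc.1 (mem_filter.1 ht7).1).1 (mem_Icc.1 (mem_filter.1 ht9).1).1
      (mem_Icc.1 (mem_filter.1 ht10).1).1 hM hH
    intro q hq
    obtain ⟨hq1, hq2⟩ := mem_filter.1 hq
    obtain ⟨p1, p2, p3, p4, p5, -⟩ := hS q hq1
    exact ⟨p1, p2, p4, p5, hq2⟩
  have hTc : (T.card : ℝ) ≤ ((K : ℝ) + 1) ^ 3 * (C₁ * (Z : ℝ) ^ (σ / 3) * U) ^ 3 := by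
    have h1 : T.card = (K - 1) * ((K - 1) * (K - 1)) * (R.card * (R.card * R.card)) := by
      simp only [T, card_product, Nat.card_Ico]
    rw [h1]
    push_cast
    have h2 : ((K - 1 : ℕ) : ℝ) ≤ (K : ℝ) + 1 := by
      have : K - 1 ≤ K + 1 := by omega
      exact_mod_cast this
    have h3 : (0 : ℝ) ≤ ((K - 1 : ℕ) : ℝ) := Nat.cast_nonneg _
    have h4 : (0 : ℝ) ≤ (R.card : ℝ) := Nat.cast_nonneg _
    calc ((K - 1 : ℕ) : ℝ) * (((K - 1 : ℕ) : ℝ) * ((K - 1 : ℕ) : ℝ)) *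
          ((R.card : ℝ) * ((R.card : ℝ) * (R.card : ℝ)))
        = ((K - 1 : ℕ) : ℝ) ^ 3 * (R.card : ℝ) ^ 3 := by ring
      _ ≤ ((K : ℝ) + 1) ^ 3 * (C₁ * (Z : ℝ) ^ (σ / 3) * U) ^ 3 := by
          apply mul_le_mul (pow_le_pow_left₀ h3 h2 3) (pow_le_pow_left₀ h4 hRc 3) (by positivity)
            (by positivity)
  have hZp : ((Z : ℝ) ^ (σ / 3)) ^ 3 = (Z : ℝ) ^ σ := by
    rw [← Real.rpow_natCast ((Z : ℝ) ^ (σ / 3)) 3, ← Real.rpow_mul hZ0.le]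
    congr 1
    push_cast
    ring
  calc (S.card : ℝ) ≤ T.card * B := hcard
    _ ≤ ((K : ℝ) + 1) ^ 3 * (C₁ * (Z : ℝ) ^ (σ / 3) * U) ^ 3 * B :=
        mul_le_mul_of_nonneg_right hTc hB0
    _ = ((K : ℝ) + 1) ^ 3 * C₁ ^ 3 * C₂ * (Z : ℝ) ^ σ * U ^ 3 * (M ^ (5 / 3 : ℝ) + M ^ 3 / H) := by
        rw [mul_pow, mul_pow, hZp, hB]; ring

end Pool.Agent.Lib.MP_d8bd92_nt
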