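import Pool.Agent.Lib.MP_d8bd92_nt.CdDefs
import Pool.Agent.Lib.MP_d8bd92_nt.CdB

set_option autoImplicit false

/-!
Structure of a triple `a + b = c` whose radical is at most `Y`.
-/

namespace Pool.Agent.Lib.MP_d8bd92_nt

open Finset Pool.Agent.Lib.Szpiro


theorem one_le_xpart (n k : ℕ) : (1 : ℝ) ≤ (xpart n k : ℝ) := by
  exact_mod_cast xpart_pos n k

/-- the small variables contribute at most `Y^(K η)` -/
theorem prod_small_le (n K : ℕ) (Y η : ℝ) (hY : 1 ≤ Y) (hη : 0 ≤ η) (T : Finset ℕ)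
    (hT : T ⊆ Ico 2 K) (h : ∀ i ∈ T, (xpart n i : ℝ) ≤ Y ^ η) :
    ∏ i ∈ T, (xpart n i : ℝ) ≤ Y ^ ((K : ℝ) * η) := by
  have hY0 : 0 < Y := by linarith
  calc ∏ i ∈ T, (xpart n i : ℝ) ≤ ∏ _i ∈ T, Y ^ η :=
        Finset.prod_le_prod (fun i _ => Nat.cast_nonneg _) h
    _ = (Y ^ η) ^ T.card := by rw [Finset.prod_const]
    _ ≤ (Y ^ η) ^ K := by
        apply pow_le_pow_right₀ (Real.one_le_rpow hY hη)
        calc T.card ≤ (Ico 2 K).card := Finset.card_le_card hT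
          _ ≤ K := by rw [Nat.card_Ico]; omega
    _ = Y ^ ((K : ℝ) * η) := by
        rw [← Real.rpow_natCast, ← Real.rpow_mul hY0.le]
        ring_nf

/-- the tail `n^(1/K)` -/
theorem tail_le (n K : ℕ) (hK : 2 ≤ K) (Y κ : ℝ) (hY : 1 ≤ Y) (hZ : (n : ℝ) ≤ Y ^ κ) :
    (n : ℝ) ^ (1 / (K : ℝ)) ≤ Y ^ (κ / K) := by
  have hY0 : 0 < Y := by linarith
  calc (n : ℝ) ^ (1 / (K : ℝ)) ≤ (Y ^ κ) ^ (1 / (K : ℝ)) :=
        Real.rpow_le_rpow (Nat.cast_nonneg _) hZ (by positivity)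
    _ = Y ^ (κ / K) := by rw [← Real.rpow_mul hY0.le]; ring_nf

theorem prod_Ico_one (n K : ℕ) (hK : 2 ≤ K) :
    ∏ k ∈ Ico 1 K, (xpart n k : ℝ) = (xpart n 1 : ℝ) * ∏ k ∈ Ico 2 K, (xpart n k : ℝ) := by
  rw [Finset.prod_eq_prod_Ico_succ_bot (by omega : 1 < K)]

/-- `rad n ≤ x₁ · (big variables) · Y^(K η) · Y^(κ / K)` -/
theorem rd_le_big (n K : ℕ) (hn : n ≠ 0) (hK : 2 ≤ K) (Y κ η : ℝ) (hY : 1 ≤ Y) (hη : 0 ≤ η)
    (hZ : (n : ℝ) ≤ Y ^ κ) :
    (rd n : ℝ) ≤ (xpart n 1 : ℝ) *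
      (∏ k ∈ (Ico 2 K).filter (fun i => Y ^ η ≤ (xpart n i : ℝ)), (xpart n k : ℝ)) *
      Y ^ ((K : ℝ) * η + κ / K) := by
  have hY0 : 0 < Y := by linarith
  have h1 := rd_le_prod_xpart n K hn hK
  rw [prod_Ico_one n K hK,
    ← Finset.prod_filter_mul_prod_filter_not (Ico 2 K) (fun i => Y ^ η ≤ (xpart n i : ℝ))] at h1
  have h2 := prod_small_le n K Y η hY hη ((Ico 2 K).filter (fun i => ¬ Y ^ η ≤ (xpart n i : ℝ)))
    (Finset.filter_subset _ _) (fun i hi => (not_le.mp (Finset.mem_filter.mp hi).2).le)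
  have h3 := tail_le n K hK Y κ hY hZ
  set P1 := ∏ k ∈ (Ico 2 K).filter (fun i => Y ^ η ≤ (xpart n i : ℝ)), (xpart n k : ℝ) with hP1
  set P2 := ∏ k ∈ (Ico 2 K).filter (fun i => ¬ Y ^ η ≤ (xpart n i : ℝ)), (xpart n k : ℝ) with hP2
  have hP1' : 0 ≤ P1 := Finset.prod_nonneg (fun i _ => Nat.cast_nonneg _)
  have hP2' : 0 ≤ P2 := Finset.prod_nonneg (fun i _ => Nat.cast_nonneg _)
  calc (rd n : ℝ) ≤ (xpart n 1 : ℝ) * (P1 * P2) * (n : ℝ) ^ (1 / (K : ℝ)) := h1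
    _ ≤ (xpart n 1 : ℝ) * (P1 * Y ^ ((K : ℝ) * η)) * Y ^ (κ / K) := by
        gcongr
    _ = (xpart n 1 : ℝ) * P1 * Y ^ ((K : ℝ) * η + κ / K) := by
        rw [Real.rpow_add hY0]; ring

theorem nearPow_one (K n : ℕ) (hn : n ≠ 0) (hK : 2 ≤ K) (κ η₂ η M Y : ℝ) (hY : 1 ≤ Y)
    (hη : 0 ≤ η) (hKη : 8 * K * η ≤ η₂) (hκ : 8 * κ ≤ η₂ * K) (hη₂ : 0 ≤ η₂)
    (hZ : (n : ℝ) ≤ Y ^ κ) (hM : (rd n : ℝ) ≤ M)
    (hsmall : ∀ i ∈ Ico 2 K, (xpart n i : ℝ) < Y ^ η) :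
    NearPow K (Y ^ (2 * η₂)) M n := by
  have hY0 : 0 < Y := by linarith
  obtain ⟨w, hw, hnw, hrw, -⟩ := xpart_split n hn {1} (by simp)
  rw [Finset.prod_singleton] at hnw hrw
  have h1 := rd_le_big n K hn hK Y κ η hY hη hZ
  have hempty : (Ico 2 K).filter (fun i => Y ^ η ≤ (xpart n i : ℝ)) = ∅ := by
    rw [Finset.filter_eq_empty_iff]
    intro i hi
    exact not_le.mpr (hsmall i hi)
  rw [hempty, Finset.prod_empty, mul_one] at h1
  have hx := one_le_xpart n 1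
  have hx0 : (0 : ℝ) < (xpart n 1 : ℝ) := by linarith
  have hK0 : (0 : ℝ) < (K : ℝ) := by exact_mod_cast (by omega : 0 < K)
  refine ⟨1, w, xpart n 1, le_rfl, by omega, hnw, ?_, xpart_pos n 1, ?_⟩
  · have h2 : (rd w : ℝ) * (xpart n 1 : ℝ) ≤ Y ^ ((K : ℝ) * η + κ / K) * (xpart n 1 : ℝ) := by
      calc (rd w : ℝ) * (xpart n 1 : ℝ) = (rd n : ℝ) := by rw [hrw]; push_cast; ring
        _ ≤ _ := h1
        _ = _ := by ring
    have h3 := le_of_mul_le_mul_right h2 hx0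
    refine h3.trans (Real.rpow_le_rpow_of_exponent_le hY ?_)
    have h4 : κ / K ≤ η₂ / 8 := by
      rw [div_le_div_iff₀ hK0 (by norm_num)]
      linarith
    have h5 : (K : ℝ) * η ≤ η₂ / 8 := by linarith
    linarith
  · have h2 : (xpart n 1 : ℝ) ≤ (rd n : ℝ) := by
      rw [hrw]
      push_cast
      have := one_le_rd w
      nlinarith
    linarith

theorem nearPow_big (K n i : ℕ) (hn : n ≠ 0) (hi : 2 ≤ i) (hiK : i < K) (η₂ δ₀ Y : ℝ)
    (hY : 1 ≤ Y) (hδ₀ : δ₀ ≤ η₂)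
    (hM : (rd n : ℝ) ≤ Y ^ (1 / 3 + δ₀)) (hbig : Y ^ (1 / 3 - η₂) ≤ (xpart n i : ℝ)) :
    NearPow K (Y ^ (2 * η₂)) (Y ^ (1 / 3 + δ₀)) n := by
  have hY0 : 0 < Y := by linarith
  obtain ⟨w, hw, hnw, hrw, -⟩ := xpart_split n hn {i} (by simp; omega)
  rw [Finset.prod_singleton] at hnw hrw
  have hx := one_le_xpart n i
  refine ⟨i, w, xpart n i, by omega, hiK, hnw, ?_, xpart_pos n i, ?_⟩
  · have h1 : (rd w : ℝ) * Y ^ (1 / 3 - η₂) ≤ Y ^ (2 * η₂) * Y ^ (1 / 3 - η₂) := by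
      calc (rd w : ℝ) * Y ^ (1 / 3 - η₂) ≤ (rd w : ℝ) * (xpart n i : ℝ) := by gcongr
        _ = (rd n : ℝ) := by rw [hrw]; push_cast; ring
        _ ≤ Y ^ (1 / 3 + δ₀) := hM
        _ ≤ Y ^ (2 * η₂ + (1 / 3 - η₂)) :=
            Real.rpow_le_rpow_of_exponent_le hY (by linarith)
        _ = _ := by rw [Real.rpow_add hY0]
    exact le_of_mul_le_mul_right h1 (Real.rpow_pos_of_pos hY0 _)
  · have h2 : (xpart n i : ℝ) ≤ (rd n : ℝ) := by
      rw [hrw]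
      push_cast
      have := one_le_rd w
      nlinarith
    linarith

/-- the main case: the smallest variable `p = xpart l k` is short -/
theorem structure_core (K : ℕ) (hK : 2 ≤ K) (κ η₂ η₁ η δ₀ : ℝ) (hη₂ : 0 < η₂)
    (hη : 0 < η) (hKη : 8 * K * η ≤ η₂) (hκ : 8 * κ ≤ η₂ * K) (hδ₀' : δ₀ ≤ η / 8)
    (Y : ℝ) (hY : 1 ≤ Y) (a b : ℕ) (s : ℤ) (m n l k : ℕ)
    (hrole : Role a b s m n l) (hrole' : Role a b s n m l)
    (hk : 2 ≤ k) (hkK : k < K) (hm : m ≠ 0) (hn : n ≠ 0)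
    (hmZ : (m : ℝ) ≤ Y ^ κ) (hnZ : (n : ℝ) ≤ Y ^ κ)
    (hQ : Y ^ (2 / 3 - δ₀) < (rd m : ℝ) * rd n)
    (hp : Y ^ η ≤ (xpart l k : ℝ)) (hp2 : (xpart l k : ℝ) < Y ^ (1 / 3 - η₂))
    (hminm : ∀ i ∈ Ico 2 K, Y ^ η ≤ (xpart m i : ℝ) → (xpart l k : ℝ) ≤ xpart m i)
    (hminn : ∀ i ∈ Ico 2 K, Y ^ η ≤ (xpart n i : ℝ) → (xpart l k : ℝ) ≤ xpart n i) :
    EvTwoA K (Y ^ η) (Y ^ η₁) a b ∨ EvTwoB K (Y ^ η) (Y ^ η₁) (Y ^ η) a b := by
  classical
  have hY0 : 0 < Y := by linarith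
  have hK0 : (0 : ℝ) < (K : ℝ) := by exact_mod_cast (by omega : 0 < K)
  set p : ℝ := (xpart l k : ℝ) with hpdef
  have hp1 : 1 ≤ p := one_le_xpart l k
  have hp0 : 0 < p := by linarith
  have h4 : κ / K ≤ η₂ / 8 := by
    rw [div_le_div_iff₀ hK0 (by norm_num)]
    linarith
  have h5 : (K : ℝ) * η ≤ η₂ / 8 := by linarith
  have h6 : η ≤ η₂ / 16 := by
    have hK2 : (2 : ℝ) ≤ (K : ℝ) := by exact_mod_cast hK
    have := mul_le_mul_of_nonneg_right hK2 hη.le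
    linarith
  by_cases hA : ∃ i ∈ Ico 1 K, p * Y ^ η₁ ≤ (xpart m i : ℝ)
  · obtain ⟨i, hi, hx⟩ := hA
    rw [Finset.mem_Ico] at hi
    exact Or.inl ⟨s, m, n, l, k, i, hrole, hk, hkK, hi.1, hi.2, hp, hx⟩
  by_cases hB : ∃ i ∈ Ico 1 K, p * Y ^ η₁ ≤ (xpart n i : ℝ)
  · obtain ⟨i, hi, hx⟩ := hB
    rw [Finset.mem_Ico] at hi
    exact Or.inl ⟨s, n, m, l, k, i, hrole', hk, hkK, hi.1, hi.2, hp, hx⟩
  right
  push Not at hA hB
  set Bm : Finset ℕ := (Ico 2 K).filter (fun i => Y ^ η ≤ (xpart m i : ℝ)) with hBm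
  set Bn : Finset ℕ := (Ico 2 K).filter (fun i => Y ^ η ≤ (xpart n i : ℝ)) with hBn
  set W0 : Finset (Bool × ℕ) := Bm.image (fun i => (true, i)) ∪ Bn.image (fun i => (false, i)) with hW0
  have hdisj : Disjoint (Bm.image (fun i => ((true, i) : Bool × ℕ)))
      (Bn.image (fun i => ((false, i) : Bool × ℕ))) := by
    rw [Finset.disjoint_left]
    intro w hw hw'
    rw [Finset.mem_image] at hw hw'
    obtain ⟨i, _, rfl⟩ := hw
    obtain ⟨j, _, hj⟩ := hw'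
    simp at hj
  have hprodW0 : ∏ w ∈ W0, (xpart (if w.1 then m else n) w.2 : ℝ) =
      (∏ i ∈ Bm, (xpart m i : ℝ)) * ∏ i ∈ Bn, (xpart n i : ℝ) := by
    rw [hW0, Finset.prod_union hdisj, Finset.prod_image (by intro x _ y _ h; simpa using h),
      Finset.prod_image (by intro x _ y _ h; simpa using h)]
    simp
  have hW0mem : ∀ w ∈ W0, 2 ≤ w.2 ∧ w.2 < K ∧
      Y ^ η ≤ (xpart (if w.1 then m else n) w.2 : ℝ) := by
    intro w hw
    rw [hW0, Finset.mem_union, Finset.mem_image, Finset.mem_image] at hw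
    rcases hw with ⟨i, hi, rfl⟩ | ⟨i, hi, rfl⟩
    · rw [hBm, Finset.mem_filter, Finset.mem_Ico] at hi
      exact ⟨hi.1.1, hi.1.2, by simpa using hi.2⟩
    · rw [hBn, Finset.mem_filter, Finset.mem_Ico] at hi
      exact ⟨hi.1.1, hi.1.2, by simpa using hi.2⟩
  have hbound : ∀ w : Bool × ℕ, 1 ≤ w.2 → w.2 < K →
      (xpart (if w.1 then m else n) w.2 : ℝ) ≤ p * Y ^ η₁ := by
    rintro ⟨t, i⟩ h1 h2
    cases t
    · simpa using (hB i (Finset.mem_Ico.mpr ⟨h1, h2⟩)).le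
    · simpa using (hA i (Finset.mem_Ico.mpr ⟨h1, h2⟩)).le
  by_cases hcard : W0.card ≤ 2
  · -- at most two big variables
    refine ⟨s, m, n, l, k, insert (true, 1) (insert (false, 1) W0), hrole, hk, hkK, ?_, ?_, hp,
      ?_, ?_⟩
    · calc (insert ((true, 1) : Bool × ℕ) (insert (false, 1) W0)).card
          ≤ (insert ((false, 1) : Bool × ℕ) W0).card + 1 := Finset.card_insert_le _ _
        _ ≤ W0.card + 1 + 1 := by
            have := Finset.card_insert_le ((false, 1) : Bool × ℕ) W0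
            omega
        _ ≤ 4 := by omega
    · intro w hw
      rw [Finset.mem_insert, Finset.mem_insert] at hw
      rcases hw with rfl | rfl | hw
      · exact ⟨le_rfl, by show 1 < K; omega⟩
      · exact ⟨le_rfl, by show 1 < K; omega⟩
      · exact ⟨by have := (hW0mem w hw).1; omega, (hW0mem w hw).2.1⟩
    · intro w hw
      rw [Finset.mem_insert, Finset.mem_insert] at hw
      rcases hw with rfl | rfl | hw
      · exact hbound _ le_rfl (by show 1 < K; omega)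
      · exact hbound _ le_rfl (by show 1 < K; omega)
      · exact hbound w (by have := (hW0mem w hw).1; omega) (hW0mem w hw).2.1
    · have hni : ((false, 1) : Bool × ℕ) ∉ W0 := by
        intro h
        have := (hW0mem _ h).1
        simp at this
      have hni' : ((true, 1) : Bool × ℕ) ∉ insert ((false, 1) : Bool × ℕ) W0 := by
        rw [Finset.mem_insert]
        rintro (h | h)
        · simp at h
        · have := (hW0mem _ h).1
          simp at this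
      rw [Finset.prod_insert hni', Finset.prod_insert hni, hprodW0]
      simp only [if_true, Bool.false_eq_true, if_false]
      have h1 := rd_le_big m K hm hK Y κ η hY hη.le hmZ
      have h2 := rd_le_big n K hn hK Y κ η hY hη.le hnZ
      rw [← hBm] at h1
      rw [← hBn] at h2
      set PM := ∏ i ∈ Bm, (xpart m i : ℝ) with hPM
      set PN := ∏ i ∈ Bn, (xpart n i : ℝ) with hPN
      have hPM0 : 0 ≤ PM := Finset.prod_nonneg (fun i _ => Nat.cast_nonneg _)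
      have hPN0 : 0 ≤ PN := Finset.prod_nonneg (fun i _ => Nat.cast_nonneg _)
      clear_value PM PN
      have hrn : (0 : ℝ) ≤ (rd n : ℝ) := by
        have := one_le_rd n
        linarith
      have hE0 : 0 < Y ^ ((K : ℝ) * η + κ / K) := Real.rpow_pos_of_pos hY0 _
      have hE2 : Y ^ (2 * ((K : ℝ) * η + κ / K)) =
          Y ^ ((K : ℝ) * η + κ / K) * Y ^ ((K : ℝ) * η + κ / K) := by
        rw [← Real.rpow_add hY0, two_mul]
      have h3 : Y ^ (2 / 3 - δ₀) ≤ ((xpart m 1 : ℝ) * ((xpart n 1 : ℝ) * (PM * PN))) *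
          Y ^ (2 * ((K : ℝ) * η + κ / K)) := by
        calc Y ^ (2 / 3 - δ₀) ≤ (rd m : ℝ) * rd n := hQ.le
          _ ≤ ((xpart m 1 : ℝ) * PM * Y ^ ((K : ℝ) * η + κ / K)) *
              ((xpart n 1 : ℝ) * PN * Y ^ ((K : ℝ) * η + κ / K)) :=
              mul_le_mul h1 h2 hrn (by positivity)
          _ = _ := by rw [hE2]; ring
      have h7 : p ^ 2 * Y ^ η * Y ^ (2 * ((K : ℝ) * η + κ / K)) ≤ Y ^ (2 / 3 - δ₀) := by
        have h8 : p ^ 2 ≤ Y ^ (2 * (1 / 3 - η₂)) := by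
          calc p ^ 2 ≤ (Y ^ (1 / 3 - η₂)) ^ 2 := pow_le_pow_left₀ hp0.le hp2.le 2
            _ = Y ^ (2 * (1 / 3 - η₂)) := by
                rw [← Real.rpow_natCast, ← Real.rpow_mul hY0.le]
                push_cast
                ring_nf
        calc p ^ 2 * Y ^ η * Y ^ (2 * ((K : ℝ) * η + κ / K))
            ≤ Y ^ (2 * (1 / 3 - η₂)) * Y ^ η * Y ^ (2 * ((K : ℝ) * η + κ / K)) := by gcongr
          _ = Y ^ (2 * (1 / 3 - η₂) + η + 2 * ((K : ℝ) * η + κ / K)) := by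
              rw [Real.rpow_add hY0, Real.rpow_add hY0]
          _ ≤ Y ^ (2 / 3 - δ₀) := by
              apply Real.rpow_le_rpow_of_exponent_le hY
              linarith
      exact le_of_mul_le_mul_right (h7.trans h3) (Real.rpow_pos_of_pos hY0 _)
  · -- at least three big variables
    obtain ⟨W, hWsub, hWcard⟩ := Finset.exists_subset_card_eq (by omega : 3 ≤ W0.card)
    refine ⟨s, m, n, l, k, W, hrole, hk, hkK, by omega, ?_, hp, ?_, ?_⟩
    · intro w hw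
      have := hW0mem w (hWsub hw)
      exact ⟨by omega, this.2.1⟩
    · intro w hw
      have := hW0mem w (hWsub hw)
      exact hbound w (by omega) this.2.1
    · have h1 : ∏ _w ∈ W, p ≤ ∏ w ∈ W, (xpart (if w.1 then m else n) w.2 : ℝ) := by
        apply Finset.prod_le_prod
        · intro w _
          exact hp0.le
        · rintro ⟨t, i⟩ hw
          have h2 := hW0mem _ (hWsub hw)
          cases t
          · simp only [Bool.false_eq_true, if_false] at h2 ⊢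
            exact hminn i (Finset.mem_Ico.mpr ⟨h2.1, h2.2.1⟩) h2.2.2
          · simp only [if_true] at h2 ⊢
            exact hminm i (Finset.mem_Ico.mpr ⟨h2.1, h2.2.1⟩) h2.2.2
      rw [Finset.prod_const, hWcard] at h1
      refine le_trans ?_ h1
      calc p ^ 2 * Y ^ η ≤ p ^ 2 * p := by gcongr
        _ = p ^ 3 := by ring

theorem structure_lemma (K : ℕ) (hK : 2 ≤ K) (κ η₂ η₁ η δ₀ : ℝ) (hη₂ : 0 < η₂) (hη₂' : η₂ ≤ 1 / 16)
    (hη : 0 < η) (hKη : 8 * K * η ≤ η₂) (hη₁ : 0 < η₁) (hκ : 8 * κ ≤ η₂ * K) (hκ0 : 0 ≤ κ)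
    (hδ₀ : 0 < δ₀) (hδ₀' : δ₀ ≤ η / 8)
    (Y : ℝ) (hY : 1 ≤ Y) (a b : ℕ) (ha : 1 ≤ a) (hb : 1 ≤ b) (hab : Nat.Coprime a b)
    (hZ : ((a + b : ℕ) : ℝ) ≤ Y ^ κ) (hN : (rd (a * b * (a + b)) : ℝ) ≤ Y) :
    EvOne (Y ^ (2 / 3 - δ₀)) a b ∨ EvTwoA K (Y ^ η) (Y ^ η₁) a b ∨
      EvTwoB K (Y ^ η) (Y ^ η₁) (Y ^ η) a b ∨
      (Y ^ (1 - 3 / 2 * δ₀) ≤ (rd (a * b * (a + b)) : ℝ) ∧
        NearPow K (Y ^ (2 * η₂)) (Y ^ (1 / 3 + δ₀)) a ∧ NearPow K (Y ^ (2 * η₂)) (Y ^ (1 / 3 + δ₀)) b ∧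
        NearPow K (Y ^ (2 * η₂)) (Y ^ (1 / 3 + δ₀)) (a + b)) := by
  classical
  have hY0 : 0 < Y := by linarith
  set c : ℕ := a + b with hc
  have hK0 : (0 : ℝ) < (K : ℝ) := by exact_mod_cast (by omega : 0 < K)
  have hK2 : (2 : ℝ) ≤ (K : ℝ) := by exact_mod_cast hK
  have hη2η : η ≤ η₂ / 16 := by
    have := mul_le_mul_of_nonneg_right hK2 hη.le
    linarith
  have hδη₂ : δ₀ ≤ η₂ := by linarith
  have hac : Nat.Coprime a c := by rw [hc]; simpa using hab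
  have hbc : Nat.Coprime b c := by rw [hc]; simpa [Nat.coprime_comm] using hab
  have habc : Nat.Coprime (a * b) c := Nat.Coprime.mul_left hac hbc
  have hrd : (rd (a * b * c) : ℝ) = (rd a : ℝ) * rd b * rd c := by
    rw [rd_mul_coprime _ _ (by positivity) (by omega) habc,
      rd_mul_coprime _ _ (by omega) (by omega) hab]
    push_cast
    ring
  by_cases h1 : EvOne (Y ^ (2 / 3 - δ₀)) a b
  · exact Or.inl h1
  right
  unfold EvOne at h1
  push Not at h1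
  obtain ⟨hAB, hAC, hBC⟩ := h1
  rw [← hc] at hAC hBC
  have ra := one_le_rd a
  have rb := one_le_rd b
  have rc := one_le_rd c
  rw [hrd] at hN ⊢
  set A : ℝ := (rd a : ℝ) with hA
  set B : ℝ := (rd b : ℝ) with hB
  set C : ℝ := (rd c : ℝ) with hC
  have hQ0 : 0 < Y ^ (2 / 3 - δ₀) := Real.rpow_pos_of_pos hY0 _
  have hsplit : Y = Y ^ (2 / 3 - δ₀) * Y ^ (1 / 3 + δ₀) := by
    rw [← Real.rpow_add hY0]
    norm_num
  have upper : ∀ x z : ℝ, 1 ≤ z → Y ^ (2 / 3 - δ₀) < x → x * z ≤ Y → z ≤ Y ^ (1 / 3 + δ₀) := by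
    intro x z hz hx hxz
    have h2 : Y ^ (2 / 3 - δ₀) * z ≤ Y ^ (2 / 3 - δ₀) * Y ^ (1 / 3 + δ₀) := by
      rw [← hsplit]
      nlinarith
    exact le_of_mul_le_mul_left h2 hQ0
  have hCM : C ≤ Y ^ (1 / 3 + δ₀) := upper (A * B) C rc hAB hN
  have hBM : B ≤ Y ^ (1 / 3 + δ₀) := upper (A * C) B rb hAC (by nlinarith [hN])
  have hAM : A ≤ Y ^ (1 / 3 + δ₀) := upper (B * C) A ra hBC (by nlinarith [hN])
  have hNlow : Y ^ (1 - 3 / 2 * δ₀) ≤ A * B * C := by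
    have h2 : (Y ^ (1 - 3 / 2 * δ₀)) ^ 2 ≤ (A * B * C) ^ 2 := by
      calc (Y ^ (1 - 3 / 2 * δ₀)) ^ 2 = (Y ^ (2 / 3 - δ₀)) ^ 3 := by
            rw [← Real.rpow_natCast, ← Real.rpow_natCast, ← Real.rpow_mul hY0.le,
              ← Real.rpow_mul hY0.le]
            congr 1
            push_cast
            ring
        _ = Y ^ (2 / 3 - δ₀) * Y ^ (2 / 3 - δ₀) * Y ^ (2 / 3 - δ₀) := by ring
        _ ≤ (A * B) * (A * C) * (B * C) := by
            apply mul_le_mul (mul_le_mul hAB.le hAC.le hQ0.le (by positivity)) hBC.le hQ0.le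
              (by positivity)
        _ = (A * B * C) ^ 2 := by ring
    exact le_of_pow_le_pow_left₀ two_ne_zero (by positivity) h2
  have haZ : (a : ℝ) ≤ Y ^ κ := le_trans (by exact_mod_cast (by omega : a ≤ c)) hZ
  have hbZ : (b : ℝ) ≤ Y ^ κ := le_trans (by exact_mod_cast (by omega : b ≤ c)) hZ
  set nn : Fin 3 → ℕ := ![a, b, c] with hnn
  have hnn0 : ∀ t, nn t ≠ 0 := by
    intro t
    fin_cases t <;> simp [hnn] <;> omega
  have hnnZ : ∀ t, (nn t : ℝ) ≤ Y ^ κ := by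
    intro t
    fin_cases t
    · simpa [hnn] using haZ
    · simpa [hnn] using hbZ
    · simpa [hnn] using hZ
  have hnnM : ∀ t, (rd (nn t) : ℝ) ≤ Y ^ (1 / 3 + δ₀) := by
    intro t
    fin_cases t
    · simpa [hnn] using hAM
    · simpa [hnn] using hBM
    · simpa [hnn] using hCM
  have fin3 : (∀ t, NearPow K (Y ^ (2 * η₂)) (Y ^ (1 / 3 + δ₀)) (nn t)) →
      (EvTwoA K (Y ^ η) (Y ^ η₁) a b ∨ EvTwoB K (Y ^ η) (Y ^ η₁) (Y ^ η) a b ∨
      (Y ^ (1 - 3 / 2 * δ₀) ≤ A * B * C ∧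
        NearPow K (Y ^ (2 * η₂)) (Y ^ (1 / 3 + δ₀)) a ∧ NearPow K (Y ^ (2 * η₂)) (Y ^ (1 / 3 + δ₀)) b ∧
        NearPow K (Y ^ (2 * η₂)) (Y ^ (1 / 3 + δ₀)) c)) := by
    intro h
    refine Or.inr (Or.inr ⟨hNlow, ?_, ?_, ?_⟩)
    · simpa [hnn] using h 0
    · simpa [hnn] using h 1
    · simpa [hnn] using h 2
  set V : Finset (Fin 3 × ℕ) := ((Finset.univ : Finset (Fin 3)) ×ˢ Ico 2 K).filter
    (fun v => Y ^ η ≤ (xpart (nn v.1) v.2 : ℝ)) with hV
  by_cases hVe : V = ∅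
  · apply fin3
    intro t
    apply nearPow_one K (nn t) (hnn0 t) hK κ η₂ η _ Y hY hη.le hKη hκ hη₂.le (hnnZ t) (hnnM t)
    intro i hi
    by_contra hcon
    have : (t, i) ∈ V := by
      rw [hV, Finset.mem_filter, Finset.mem_product]
      exact ⟨⟨Finset.mem_univ _, hi⟩, not_lt.mp hcon⟩
    rw [hVe] at this
    simp at this
  · obtain ⟨v0, hv0, hmin⟩ := Finset.exists_min_image V (fun v => (xpart (nn v.1) v.2 : ℝ))
      (Finset.nonempty_iff_ne_empty.mpr hVe)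
    rw [hV, Finset.mem_filter, Finset.mem_product, Finset.mem_Ico] at hv0
    obtain ⟨⟨_, hk2, hkK⟩, hpη⟩ := hv0
    have hmin' : ∀ (t : Fin 3) (i : ℕ), i ∈ Ico 2 K → Y ^ η ≤ (xpart (nn t) i : ℝ) →
        (xpart (nn v0.1) v0.2 : ℝ) ≤ xpart (nn t) i := by
      intro t i hi hx
      exact hmin (t, i) (by rw [hV, Finset.mem_filter, Finset.mem_product]; exact ⟨⟨Finset.mem_univ _, hi⟩, hx⟩)
    by_cases hbig : Y ^ (1 / 3 - η₂) ≤ (xpart (nn v0.1) v0.2 : ℝ)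
    · apply fin3
      intro t
      by_cases hex : ∃ i ∈ Ico 2 K, Y ^ η ≤ (xpart (nn t) i : ℝ)
      · obtain ⟨i, hi, hx⟩ := hex
        have hi' := Finset.mem_Ico.mp hi
        exact nearPow_big K (nn t) i (hnn0 t) hi'.1 hi'.2 η₂ δ₀ Y hY hδη₂ (hnnM t)
          (hbig.trans (hmin' t i hi hx))
      · push Not at hex
        exact nearPow_one K (nn t) (hnn0 t) hK κ η₂ η _ Y hY hη.le hKη hκ hη₂.le (hnnZ t) (hnnM t) hex
    · rw [not_le] at hbig
      have hcases : v0.1 = 0 ∨ v0.1 = 1 ∨ v0.1 = 2 := by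
        rcases v0 with ⟨t, i⟩
        fin_cases t <;> simp
      have key : EvTwoA K (Y ^ η) (Y ^ η₁) a b ∨ EvTwoB K (Y ^ η) (Y ^ η₁) (Y ^ η) a b := by
        rcases hcases with h0 | h0 | h0
        · -- l = a
          rw [h0] at hpη hbig hmin'
          have e0 : nn 0 = a := by simp [hnn]
          rw [e0] at hpη hbig hmin'
          have hm := fun i hi hx => hmin' 1 i hi hx
          have hn := fun i hi hx => hmin' 2 i hi hx
          have e1 : nn 1 = b := by simp [hnn]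
          have e2 : nn 2 = c := by simp [hnn]
          rw [e1] at hm
          rw [e2] at hn
          exact structure_core K hK κ η₂ η₁ η δ₀ hη₂ hη hKη hκ hδ₀' Y hY a b 1 b c a v0.2
            (by unfold Role; right; right; exact ⟨rfl, Or.inl ⟨rfl, rfl⟩, rfl⟩)
            (by unfold Role; right; right; exact ⟨rfl, Or.inr ⟨rfl, rfl⟩, rfl⟩)
            hk2 hkK (by omega) (by omega) hbZ hZ hBC hpη hbig hm hn
        · -- l = b
          rw [h0] at hpη hbig hmin'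
          have e0 : nn 1 = b := by simp [hnn]
          rw [e0] at hpη hbig hmin'
          have hm := fun i hi hx => hmin' 0 i hi hx
          have hn := fun i hi hx => hmin' 2 i hi hx
          have e1 : nn 0 = a := by simp [hnn]
          have e2 : nn 2 = c := by simp [hnn]
          rw [e1] at hm
          rw [e2] at hn
          exact structure_core K hK κ η₂ η₁ η δ₀ hη₂ hη hKη hκ hδ₀' Y hY a b 1 a c b v0.2
            (by unfold Role; right; left; exact ⟨rfl, Or.inl ⟨rfl, rfl⟩, rfl⟩)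
            (by unfold Role; right; left; exact ⟨rfl, Or.inr ⟨rfl, rfl⟩, rfl⟩)
            hk2 hkK (by omega) (by omega) haZ hZ hAC hpη hbig hm hn
        · -- l = c
          rw [h0] at hpη hbig hmin'
          have e0 : nn 2 = c := by simp [hnn]
          rw [e0] at hpη hbig hmin'
          have hm := fun i hi hx => hmin' 0 i hi hx
          have hn := fun i hi hx => hmin' 1 i hi hx
          have e1 : nn 0 = a := by simp [hnn]
          have e2 : nn 1 = b := by simp [hnn]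
          rw [e1] at hm
          rw [e2] at hn
          exact structure_core K hK κ η₂ η₁ η δ₀ hη₂ hη hKη hκ hδ₀' Y hY a b (-1) a b c v0.2
            (by unfold Role; left; exact ⟨rfl, Or.inl ⟨rfl, rfl⟩, rfl⟩)
            (by unfold Role; left; exact ⟨rfl, Or.inr ⟨rfl, rfl⟩, rfl⟩)
            hk2 hkK (by omega) (by omega) haZ hbZ hAB hpη hbig hm hn
      rcases key with h | h
      · exact Or.inl h
      · exact Or.inr (Or.inl h)

end Pool.Agent.Lib.MP_d8bd92_nt
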