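import Pool.Agent.Lib.MP_d8bd92_nt.CdDefs
import Pool.Agent.Lib.MP_d8bd92_nt.CdA
import Pool.Agent.Lib.MP_d8bd92_nt.CdB
import Pool.Agent.Lib.MP_d8bd92_nt.CdE1

set_option autoImplicit false

/-!
The events E1 and E2a are rare.
-/

namespace Pool.Agent.Lib.MP_d8bd92_nt

open Finset Pool.Agent.Lib.Szpiro


theorem card_evOne (σ : ℝ) (hσ : 0 < σ) : ∃ C : ℝ, 1 ≤ C ∧ ∀ (Z : ℕ) (Q : ℝ) (S : Finset (ℕ × ℕ)),
    1 ≤ Z → 0 ≤ Q → (∀ q ∈ S, 1 ≤ q.1 ∧ 1 ≤ q.2 ∧ q.1 + q.2 ≤ Z ∧ EvOne Q q.1 q.2) →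
    (S.card : ℝ) ≤ C * (Z : ℝ) ^ σ * Q := by
  classical
  obtain ⟨C, hC1, hC⟩ := card_pair_rd_le σ hσ
  refine ⟨3 * C, by linarith, ?_⟩
  intro Z Q S hZ hQ hS
  set T := (Icc 1 Z ×ˢ Icc 1 Z).filter (fun q : ℕ × ℕ => (rd q.1 : ℝ) * rd q.2 ≤ Q) with hT
  have key : ∀ (S' : Finset (ℕ × ℕ)) (f : ℕ × ℕ → ℕ × ℕ), Function.Injective f →
      (∀ q ∈ S', f q ∈ T) → (S'.card : ℝ) ≤ C * (Z : ℝ) ^ σ * Q := by
    intro S' f hf h
    refine le_trans ?_ (hC Z Q hZ hQ)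
    exact Nat.cast_le.2 (Finset.card_le_card_of_injOn f h hf.injOn)
  set S1 := S.filter (fun q => (rd q.1 : ℝ) * rd q.2 ≤ Q) with hS1
  set S2 := S.filter (fun q => (rd q.1 : ℝ) * rd (q.1 + q.2) ≤ Q) with hS2
  set S3 := S.filter (fun q => (rd q.2 : ℝ) * rd (q.1 + q.2) ≤ Q) with hS3
  have hsub : S ⊆ S1 ∪ S2 ∪ S3 := by
    intro q hq
    obtain ⟨_, _, _, h⟩ := hS q hq
    rw [Finset.mem_union, Finset.mem_union, hS1, hS2, hS3, Finset.mem_filter, Finset.mem_filter,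
      Finset.mem_filter]
    rcases h with h | h | h
    · exact Or.inl (Or.inl ⟨hq, h⟩)
    · exact Or.inl (Or.inr ⟨hq, h⟩)
    · exact Or.inr ⟨hq, h⟩
  have h1 : (S1.card : ℝ) ≤ C * (Z : ℝ) ^ σ * Q := by
    refine key S1 id Function.injective_id ?_
    intro q hq
    obtain ⟨hq1, hq2⟩ := Finset.mem_filter.1 hq
    obtain ⟨a1, a2, a3, _⟩ := hS q hq1
    rw [hT, Finset.mem_filter, Finset.mem_product, Finset.mem_Icc, Finset.mem_Icc]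
    exact ⟨⟨⟨a1, by simp only [id]; omega⟩, ⟨a2, by simp only [id]; omega⟩⟩, hq2⟩
  have h2 : (S2.card : ℝ) ≤ C * (Z : ℝ) ^ σ * Q := by
    refine key S2 (fun q => (q.1, q.1 + q.2)) ?_ ?_
    · intro q q' h
      simp only [Prod.mk.injEq] at h
      exact Prod.ext h.1 (by omega)
    intro q hq
    obtain ⟨hq1, hq2⟩ := Finset.mem_filter.1 hq
    obtain ⟨a1, a2, a3, _⟩ := hS q hq1
    rw [hT, Finset.mem_filter, Finset.mem_product, Finset.mem_Icc, Finset.mem_Icc]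
    exact ⟨⟨⟨a1, by simp only; omega⟩, ⟨by simp only; omega, a3⟩⟩, hq2⟩
  have h3 : (S3.card : ℝ) ≤ C * (Z : ℝ) ^ σ * Q := by
    refine key S3 (fun q => (q.2, q.1 + q.2)) ?_ ?_
    · intro q q' h
      simp only [Prod.mk.injEq] at h
      exact Prod.ext (by omega) h.1
    intro q hq
    obtain ⟨hq1, hq2⟩ := Finset.mem_filter.1 hq
    obtain ⟨a1, a2, a3, _⟩ := hS q hq1
    rw [hT, Finset.mem_filter, Finset.mem_product, Finset.mem_Icc, Finset.mem_Icc]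
    exact ⟨⟨⟨a2, by simp only; omega⟩, ⟨by simp only; omega, a3⟩⟩, hq2⟩
  have h4 : (S.card : ℝ) ≤ (S1.card : ℝ) + S2.card + S3.card := by
    have e1 := Finset.card_le_card hsub
    have e2 := Finset.card_union_le (S1 ∪ S2) S3
    have e3 := Finset.card_union_le S1 S2
    exact_mod_cast (by omega : S.card ≤ S1.card + S2.card + S3.card)
  linarith

/-- the number of dyadic sizes is small -/
theorem I1_log (τ : ℝ) (hτ : 0 < τ) : ∃ C : ℝ, 1 ≤ C ∧ ∀ Z : ℕ, 1 ≤ Z →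
    ((Nat.log 2 Z : ℕ) : ℝ) + 1 ≤ C * (Z : ℝ) ^ τ := by
  have hl2 : 0 < Real.log 2 := Real.log_pos (by norm_num)
  refine ⟨1 / (τ * Real.log 2) + 1, by
    have : 0 < 1 / (τ * Real.log 2) := by positivity
    linarith, ?_⟩
  intro Z hZ
  have hZ1 : (1 : ℝ) ≤ Z := by exact_mod_cast hZ
  have h1 : ((Nat.log 2 Z : ℕ) : ℝ) ≤ Real.logb 2 Z := Real.natLog_le_logb Z 2
  have h2 : Real.log Z ≤ (Z : ℝ) ^ τ / τ := Real.log_le_rpow_div (by linarith) hτ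
  have h3 : (1 : ℝ) ≤ (Z : ℝ) ^ τ := Real.one_le_rpow hZ1 hτ.le
  have h4 : Real.logb 2 Z ≤ 1 / (τ * Real.log 2) * (Z : ℝ) ^ τ := by
    rw [Real.logb, div_le_iff₀ hl2]
    refine h2.trans (le_of_eq ?_)
    field_simp
  linarith

/-- one role of event E2a -/
theorem I1_role (K : ℕ) (σ : ℝ) (hσ : 0 < σ) : ∃ C : ℝ, 1 ≤ C ∧ ∀ (Z : ℕ) (R pmin L : ℝ) (s : ℤ)
    (S : Finset (ℕ × ℕ)), 1 ≤ Z → 1 ≤ R → 1 ≤ pmin → 1 ≤ L → (s = 1 ∨ s = -1) →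
    (∀ q ∈ S, 1 ≤ q.1 ∧ q.1 ≤ Z ∧ 1 ≤ q.2 ∧ q.2 ≤ Z ∧ (rd q.1 : ℝ) * rd q.2 ≤ R ∧
      ∃ l k i : ℕ, 1 ≤ l ∧ l ≤ Z ∧ Nat.Coprime l (q.1 * q.2) ∧ (l : ℤ) ∣ (q.1 : ℤ) - s * q.2 ∧
        2 ≤ k ∧ 1 ≤ i ∧ i < K ∧ pmin ≤ (xpart l k : ℝ) ∧
        (xpart l k : ℝ) * L ≤ (xpart q.1 i : ℝ)) →
    (S.card : ℝ) ≤ C * (Z : ℝ) ^ σ * R * (1 / L + 1 / pmin) := by
  classical
  obtain ⟨C1, hC11, hC1⟩ := count_one K (σ / 3) (by positivity)
  obtain ⟨C2, hC21, hC2⟩ := I1_log (σ / 3) (by positivity)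
  refine ⟨2 * C1 * C2 ^ 2 * (K + 1), ?_, ?_⟩
  · have hK : (1 : ℝ) ≤ (K : ℝ) + 1 := by
      have := (Nat.cast_nonneg K : (0 : ℝ) ≤ K)
      linarith
    have h1 : (1 : ℝ) ≤ C2 ^ 2 := one_le_pow₀ hC21
    have h2 : (1 : ℝ) ≤ C1 * C2 ^ 2 := one_le_mul_of_one_le_of_one_le hC11 h1
    have h3 : (1 : ℝ) ≤ C1 * C2 ^ 2 * (K + 1) := one_le_mul_of_one_le_of_one_le h2 hK
    nlinarith
  intro Z R pmin L s S hZ hR hpm hL hs hS
  have hZ1 : (1 : ℝ) ≤ Z := by exact_mod_cast hZ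
  set D := Nat.log 2 Z with hD
  set cell : ℕ × ℕ × ℕ → Finset (ℕ × ℕ) := fun c => S.filter (fun q =>
    ∃ l k : ℕ, 1 ≤ l ∧ l ≤ Z ∧ Nat.Coprime l (q.1 * q.2) ∧ (l : ℤ) ∣ (q.1 : ℤ) - s * q.2 ∧
        2 ≤ k ∧ pmin ≤ (xpart l k : ℝ) ∧ (xpart l k : ℝ) * L ≤ (xpart q.1 c.2.2 : ℝ) ∧
        Nat.log 2 (xpart l k) = c.1 ∧ Nat.log 2 (xpart q.1 c.2.2) = c.2.1) with hcell
  -- parts divide
  have hpart : ∀ n k : ℕ, 1 ≤ n → 1 ≤ k → xpart n k ^ k ∣ n ∧ xpart n k ≤ n := by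
    intro n k hn hk
    obtain ⟨w, hw0, hw1, _, _⟩ := xpart_split n (by omega) {k} (by simpa using hk)
    rw [Finset.prod_singleton] at hw1
    have h1 : xpart n k ^ k ∣ n := ⟨w, by rw [mul_comm]; exact hw1⟩
    refine ⟨h1, ?_⟩
    exact Nat.le_of_dvd (by omega) ((dvd_pow_self _ (by omega)).trans h1)
  set I : Finset (ℕ × ℕ × ℕ) := range (D + 1) ×ˢ range (D + 1) ×ˢ Ico 1 K with hI
  have hsub : S ⊆ I.biUnion cell := by
    intro q hq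
    obtain ⟨a1, a2, a3, a4, a5, l, k, i, b1, b2, b3, b4, b5, b6, b7, b8, b9⟩ := hS q hq
    rw [Finset.mem_biUnion]
    refine ⟨(Nat.log 2 (xpart l k), Nat.log 2 (xpart q.1 i), i), ?_, ?_⟩
    · rw [hI, Finset.mem_product, Finset.mem_product, Finset.mem_range, Finset.mem_range,
        Finset.mem_Ico]
      refine ⟨?_, ?_, b6, b7⟩
      · show Nat.log 2 (xpart l k) < D + 1
        exact Nat.lt_succ_iff.2 (Nat.log_mono_right ((hpart l k b1 (by omega)).2.trans b2))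
      · show Nat.log 2 (xpart q.1 i) < D + 1
        exact Nat.lt_succ_iff.2 (Nat.log_mono_right ((hpart q.1 i a1 b6).2.trans a2))
    · rw [hcell, Finset.mem_filter]
      exact ⟨hq, l, k, b1, b2, b3, b4, b5, b8, b9, rfl, rfl⟩
  have hone : ∀ c ∈ I, ((cell c).card : ℝ) ≤
      C1 * (Z : ℝ) ^ (σ / 3) * R * (2 * (1 / L + 1 / pmin)) := by
    intro c hc
    rw [hI, Finset.mem_product, Finset.mem_product, Finset.mem_range, Finset.mem_range,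
      Finset.mem_Ico] at hc
    obtain ⟨hc1, hc2, hc3, hc4⟩ := hc
    rcases Finset.eq_empty_or_nonempty (cell c) with he | ⟨q0, hq0⟩
    · rw [he, Finset.card_empty, Nat.cast_zero]
      positivity
    set P := 2 ^ c.1 with hP
    set X := 2 ^ c.2.1 with hX
    have hP1 : 1 ≤ P := Nat.one_le_two_pow
    have hX1 : 1 ≤ X := Nat.one_le_two_pow
    have hPZ : P ≤ Z := by
      calc P ≤ 2 ^ D := Nat.pow_le_pow_right (by norm_num) (by omega)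
        _ ≤ Z := Nat.pow_log_le_self 2 (by omega)
    have hP1' : (1 : ℝ) ≤ P := by exact_mod_cast hP1
    have hX1' : (1 : ℝ) ≤ X := by exact_mod_cast hX1
    have hdy : ∀ y : ℕ, 0 < y → 2 ^ Nat.log 2 y ≤ y ∧ y < 2 * 2 ^ Nat.log 2 y := by
      intro y hy
      refine ⟨Nat.pow_log_le_self 2 hy.ne', ?_⟩
      have := Nat.lt_pow_succ_log_self (b := 2) (by norm_num) y
      rw [pow_succ] at this
      omega
    have hQ0 : (0 : ℝ) ≤ R / X := by positivity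
    have h := hC1 Z P X c.2.2 s (R / X) (cell c) hZ hP1 hPZ hX1 hc3 hc4 hs hQ0 (by
      intro q hq
      obtain ⟨hq1, l, k, b1, b2, b3, b4, b5, b8, b9, b10, b11⟩ := Finset.mem_filter.1 hq
      obtain ⟨a1, a2, a3, a4, a5, _⟩ := hS q hq1
      have hd1 := hdy (xpart l k) (xpart_pos l k)
      have hd2 := hdy (xpart q.1 c.2.2) (xpart_pos q.1 c.2.2)
      rw [b10] at hd1
      rw [b11] at hd2
      obtain ⟨w, hw0, hw1, hw2, _⟩ := xpart_split q.1 (by omega) {c.2.2} (by simpa using hc3)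
      rw [Finset.prod_singleton] at hw1 hw2
      refine ⟨a1, a2, a3, a4, xpart l k, w, xpart q.1 c.2.2, hd1.1, hd1.2,
        hw1, ?_, hd2.1, hd2.2, ?_, ?_⟩
      · rw [le_div_iff₀ (by linarith)]
        have hx : (X : ℝ) ≤ (xpart q.1 c.2.2 : ℝ) := by exact_mod_cast hd2.1
        calc (rd w : ℝ) * rd q.2 * X ≤ (rd w : ℝ) * rd q.2 * (xpart q.1 c.2.2 : ℝ) := by gcongr
          _ = (rd q.1 : ℝ) * rd q.2 := by rw [hw2]; push_cast; ring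
          _ ≤ R := a5
      · exact Nat.Coprime.coprime_dvd_left
          ((dvd_pow_self _ (by omega : k ≠ 0)).trans (hpart l k b1 (by omega)).1) b3
      · have h1 : ((xpart l k : ℕ) : ℤ) ^ 2 ∣ (l : ℤ) := by
          exact_mod_cast (pow_dvd_pow _ b5).trans (hpart l k b1 (by omega)).1
        exact h1.trans b4)
    refine h.trans ?_
    -- sizes
    obtain ⟨hq1, l, k, b1, b2, b3, b4, b5, b8, b9, b10, b11⟩ := Finset.mem_filter.1 hq0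
    have hd1 := hdy (xpart l k) (xpart_pos l k)
    have hd2 := hdy (xpart q0.1 c.2.2) (xpart_pos q0.1 c.2.2)
    rw [b10] at hd1
    rw [b11] at hd2
    have e1 : (P : ℝ) ≤ (xpart l k : ℝ) := by exact_mod_cast hd1.1
    have e2 : (xpart l k : ℝ) < 2 * P := by exact_mod_cast hd1.2
    have e3 : (xpart q0.1 c.2.2 : ℝ) < 2 * X := by exact_mod_cast hd2.2
    have e4 : (P : ℝ) * L ≤ 2 * X := by nlinarith
    have e5 : (P : ℝ) / X ≤ 2 * (1 / L) := by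
      rw [div_le_iff₀ (by linarith)]
      rw [show 2 * (1 / L) * (X : ℝ) = 2 * X / L by ring, le_div_iff₀ (by linarith)]
      exact e4
    have e6 : 1 / (P : ℝ) ≤ 2 * (1 / pmin) := by
      rw [div_le_iff₀ (by linarith)]
      rw [show 2 * (1 / pmin) * (P : ℝ) = 2 * P / pmin by ring, le_div_iff₀ (by linarith)]
      linarith
    have e7 : (P : ℝ) * (R / X) * (1 + (X : ℝ) / (P : ℝ) ^ 2) = R * (P / X + 1 / P) := by
      field_simp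
    calc C1 * (Z : ℝ) ^ (σ / 3) * (P * (R / X)) * (1 + (X : ℝ) / (P : ℝ) ^ 2)
        = C1 * (Z : ℝ) ^ (σ / 3) * ((P : ℝ) * (R / X) * (1 + (X : ℝ) / (P : ℝ) ^ 2)) := by ring
      _ = C1 * (Z : ℝ) ^ (σ / 3) * R * (P / X + 1 / P) := by rw [e7]; ring
      _ ≤ C1 * (Z : ℝ) ^ (σ / 3) * R * (2 * (1 / L + 1 / pmin)) := by
        gcongr
        linarith
  have hcard : (S.card : ℝ) ≤ (I.card : ℝ) *
      (C1 * (Z : ℝ) ^ (σ / 3) * R * (2 * (1 / L + 1 / pmin))) := by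
    calc (S.card : ℝ) ≤ ((I.biUnion cell).card : ℝ) := by exact_mod_cast Finset.card_le_card hsub
      _ ≤ ∑ c ∈ I, ((cell c).card : ℝ) := by exact_mod_cast Finset.card_biUnion_le
      _ ≤ ∑ _c ∈ I, C1 * (Z : ℝ) ^ (σ / 3) * R * (2 * (1 / L + 1 / pmin)) :=
        Finset.sum_le_sum hone
      _ = _ := by rw [Finset.sum_const, nsmul_eq_mul]
  have hIcard : (I.card : ℝ) ≤ (C2 * (Z : ℝ) ^ (σ / 3)) ^ 2 * (K + 1) := by
    have h1 : (I.card : ℝ) = ((D : ℝ) + 1) * (((D : ℝ) + 1) * ((K - 1 : ℕ) : ℝ)) := by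
      rw [hI, Finset.card_product, Finset.card_product, Finset.card_range, Nat.card_Ico]
      push_cast
      ring
    rw [h1]
    have h2 := hC2 Z hZ
    rw [← hD] at h2
    have h3 : ((K - 1 : ℕ) : ℝ) ≤ (K : ℝ) + 1 := by
      exact_mod_cast (by omega : K - 1 ≤ K + 1)
    calc ((D : ℝ) + 1) * (((D : ℝ) + 1) * ((K - 1 : ℕ) : ℝ))
        ≤ (C2 * (Z : ℝ) ^ (σ / 3)) * ((C2 * (Z : ℝ) ^ (σ / 3)) * ((K : ℝ) + 1)) := by gcongr
      _ = _ := by ring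
  have hzz : ((Z : ℝ) ^ (σ / 3)) ^ 2 * (Z : ℝ) ^ (σ / 3) = (Z : ℝ) ^ σ := by
    rw [← pow_succ, ← Real.rpow_natCast, ← Real.rpow_mul (by linarith)]
    congr 1
    push_cast
    ring
  refine hcard.trans ?_
  calc (I.card : ℝ) * (C1 * (Z : ℝ) ^ (σ / 3) * R * (2 * (1 / L + 1 / pmin)))
      ≤ ((C2 * (Z : ℝ) ^ (σ / 3)) ^ 2 * (K + 1)) *
        (C1 * (Z : ℝ) ^ (σ / 3) * R * (2 * (1 / L + 1 / pmin))) := by gcongr
    _ = 2 * C1 * C2 ^ 2 * (K + 1) * (((Z : ℝ) ^ (σ / 3)) ^ 2 * (Z : ℝ) ^ (σ / 3)) * R *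
        (1 / L + 1 / pmin) := by ring
    _ = _ := by rw [hzz]

/-- `R` bounds the product of the two radicals `rad m rad n` -/
theorem card_evTwoA (K : ℕ) (σ : ℝ) (hσ : 0 < σ) : ∃ C : ℝ, 1 ≤ C ∧ ∀ (Z : ℕ) (R pmin L : ℝ)
    (S : Finset (ℕ × ℕ)), 1 ≤ Z → 1 ≤ R → 1 ≤ pmin → 1 ≤ L →
    (∀ q ∈ S, 1 ≤ q.1 ∧ 1 ≤ q.2 ∧ q.1 + q.2 ≤ Z ∧ Nat.Coprime q.1 q.2 ∧
      (rd q.1 : ℝ) * rd q.2 ≤ R ∧ (rd q.1 : ℝ) * rd (q.1 + q.2) ≤ R ∧
      (rd q.2 : ℝ) * rd (q.1 + q.2) ≤ R ∧ EvTwoA K pmin L q.1 q.2) →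
    (S.card : ℝ) ≤ C * (Z : ℝ) ^ σ * R * (1 / L + 1 / pmin) := by
  classical
  obtain ⟨C, hC1, hC⟩ := I1_role K σ hσ
  refine ⟨6 * C, by linarith, ?_⟩
  intro Z R pmin L S hZ hR hpm hL hS
  -- one role
  have key : ∀ (s : ℤ) (f : ℕ × ℕ → ℕ × ℕ) (g : ℕ × ℕ → ℕ), (s = 1 ∨ s = -1) →
      Function.Injective f →
      (∀ q ∈ S, 1 ≤ (f q).1 ∧ (f q).1 ≤ Z ∧ 1 ≤ (f q).2 ∧ (f q).2 ≤ Z ∧
        (rd (f q).1 : ℝ) * rd (f q).2 ≤ R ∧ 1 ≤ g q ∧ g q ≤ Z ∧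
        Nat.Coprime (g q) ((f q).1 * (f q).2) ∧ ((g q : ℕ) : ℤ) ∣ ((f q).1 : ℤ) - s * (f q).2) →
      ((S.filter (fun q => ∃ k i : ℕ, 2 ≤ k ∧ k < K ∧ 1 ≤ i ∧ i < K ∧
        pmin ≤ (xpart (g q) k : ℝ) ∧ (xpart (g q) k : ℝ) * L ≤ (xpart (f q).1 i : ℝ))).card : ℝ) ≤
        C * (Z : ℝ) ^ σ * R * (1 / L + 1 / pmin) := by
    intro s f g hs hf hfg
    rw [← Finset.card_image_of_injective _ hf]
    refine hC Z R pmin L s _ hZ hR hpm hL hs ?_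
    intro q' hq'
    obtain ⟨q, hq, rfl⟩ := Finset.mem_image.1 hq'
    obtain ⟨hq1, k, i, c1, c2, c3, c4, c5, c6⟩ := Finset.mem_filter.1 hq
    obtain ⟨a1, a2, a3, a4, a5, a6, a7, a8, a9⟩ := hfg q hq1
    exact ⟨a1, a2, a3, a4, a5, g q, k, i, a6, a7, a8, a9, c1, c3, c4, c5, c6⟩
  -- coprimality
  have hco : ∀ q ∈ S, Nat.Coprime (q.1 + q.2) (q.1 * q.2) ∧ Nat.Coprime q.2 (q.1 * (q.1 + q.2)) ∧
      Nat.Coprime q.1 (q.2 * (q.1 + q.2)) := by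
    intro q hq
    obtain ⟨a1, a2, a3, a4, a5, a6, a7, a8⟩ := hS q hq
    have h1 : Nat.Coprime (q.1 + q.2) q.1 := by
      simpa using a4.symm
    have h2 : Nat.Coprime (q.1 + q.2) q.2 := by
      simpa using a4
    exact ⟨Nat.Coprime.mul_right h1 h2, Nat.Coprime.mul_right a4.symm h2.symm,
      Nat.Coprime.mul_right a4 h1.symm⟩
  have h0 := key (-1) (fun q => q) (fun q => q.1 + q.2) (Or.inr rfl) (fun _ _ h => h) (by
    intro q hq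
    obtain ⟨a1, a2, a3, a4, a5, a6, a7, a8⟩ := hS q hq
    refine ⟨a1, by omega, a2, by omega, a5, by omega, a3, (hco q hq).1, ?_⟩
    exact ⟨1, by push_cast; ring⟩)
  have h1 := key (-1) (fun q => (q.2, q.1)) (fun q => q.1 + q.2) (Or.inr rfl)
    (fun q q' h => by
      simp only [Prod.mk.injEq] at h
      exact Prod.ext h.2 h.1) (by
    intro q hq
    obtain ⟨a1, a2, a3, a4, a5, a6, a7, a8⟩ := hS q hq
    refine ⟨a2, by show q.2 ≤ Z; omega, a1, by show q.1 ≤ Z; omega, ?_, by omega, a3, ?_, ?_⟩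
    · show (rd q.2 : ℝ) * rd q.1 ≤ R
      rw [mul_comm]; exact a5
    · show Nat.Coprime (q.1 + q.2) (q.2 * q.1)
      rw [mul_comm q.2]; exact (hco q hq).1
    · exact ⟨1, by push_cast; ring⟩)
  have h2 := key 1 (fun q => (q.1, q.1 + q.2)) (fun q => q.2) (Or.inl rfl)
    (fun q q' h => by
      simp only [Prod.mk.injEq] at h
      exact Prod.ext h.1 (by omega)) (by
    intro q hq
    obtain ⟨a1, a2, a3, a4, a5, a6, a7, a8⟩ := hS q hq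
    refine ⟨a1, by show q.1 ≤ Z; omega, by show 1 ≤ q.1 + q.2; omega, a3, a6, a2,
      by show q.2 ≤ Z; omega, (hco q hq).2.1, ?_⟩
    exact ⟨-1, by push_cast; ring⟩)
  have h3 := key 1 (fun q => (q.1 + q.2, q.1)) (fun q => q.2) (Or.inl rfl)
    (fun q q' h => by
      simp only [Prod.mk.injEq] at h
      exact Prod.ext h.2 (by omega)) (by
    intro q hq
    obtain ⟨a1, a2, a3, a4, a5, a6, a7, a8⟩ := hS q hq
    refine ⟨by show 1 ≤ q.1 + q.2; omega, a3, a1, by show q.1 ≤ Z; omega, ?_, a2,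
      by show q.2 ≤ Z; omega, ?_, ?_⟩
    · show (rd (q.1 + q.2) : ℝ) * rd q.1 ≤ R
      rw [mul_comm]; exact a6
    · show Nat.Coprime q.2 ((q.1 + q.2) * q.1)
      rw [mul_comm]; exact (hco q hq).2.1
    · exact ⟨1, by push_cast; ring⟩)
  have h4 := key 1 (fun q => (q.2, q.1 + q.2)) (fun q => q.1) (Or.inl rfl)
    (fun q q' h => by
      simp only [Prod.mk.injEq] at h
      exact Prod.ext (by omega) h.1) (by
    intro q hq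
    obtain ⟨a1, a2, a3, a4, a5, a6, a7, a8⟩ := hS q hq
    refine ⟨a2, by show q.2 ≤ Z; omega, by show 1 ≤ q.1 + q.2; omega, a3, a7, a1,
      by show q.1 ≤ Z; omega, (hco q hq).2.2, ?_⟩
    exact ⟨-1, by push_cast; ring⟩)
  have h5 := key 1 (fun q => (q.1 + q.2, q.2)) (fun q => q.1) (Or.inl rfl)
    (fun q q' h => by
      simp only [Prod.mk.injEq] at h
      exact Prod.ext (by omega) h.2) (by
    intro q hq
    obtain ⟨a1, a2, a3, a4, a5, a6, a7, a8⟩ := hS q hq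
    refine ⟨by show 1 ≤ q.1 + q.2; omega, a3, a2, by show q.2 ≤ Z; omega, ?_, a1,
      by show q.1 ≤ Z; omega, ?_, ?_⟩
    · show (rd (q.1 + q.2) : ℝ) * rd q.2 ≤ R
      rw [mul_comm]; exact a7
    · show Nat.Coprime q.1 ((q.1 + q.2) * q.2)
      rw [mul_comm]; exact (hco q hq).2.2
    · exact ⟨1, by push_cast; ring⟩)
  set F0 := S.filter (fun q => ∃ k i : ℕ, 2 ≤ k ∧ k < K ∧ 1 ≤ i ∧ i < K ∧
    pmin ≤ (xpart (q.1 + q.2) k : ℝ) ∧ (xpart (q.1 + q.2) k : ℝ) * L ≤ (xpart q.1 i : ℝ)) with hF0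
  set F1 := S.filter (fun q => ∃ k i : ℕ, 2 ≤ k ∧ k < K ∧ 1 ≤ i ∧ i < K ∧
    pmin ≤ (xpart (q.1 + q.2) k : ℝ) ∧ (xpart (q.1 + q.2) k : ℝ) * L ≤ (xpart q.2 i : ℝ)) with hF1
  set F2 := S.filter (fun q => ∃ k i : ℕ, 2 ≤ k ∧ k < K ∧ 1 ≤ i ∧ i < K ∧
    pmin ≤ (xpart q.2 k : ℝ) ∧ (xpart q.2 k : ℝ) * L ≤ (xpart q.1 i : ℝ)) with hF2
  set F3 := S.filter (fun q => ∃ k i : ℕ, 2 ≤ k ∧ k < K ∧ 1 ≤ i ∧ i < K ∧
    pmin ≤ (xpart q.2 k : ℝ) ∧ (xpart q.2 k : ℝ) * L ≤ (xpart (q.1 + q.2) i : ℝ)) with hF3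
  set F4 := S.filter (fun q => ∃ k i : ℕ, 2 ≤ k ∧ k < K ∧ 1 ≤ i ∧ i < K ∧
    pmin ≤ (xpart q.1 k : ℝ) ∧ (xpart q.1 k : ℝ) * L ≤ (xpart q.2 i : ℝ)) with hF4
  set F5 := S.filter (fun q => ∃ k i : ℕ, 2 ≤ k ∧ k < K ∧ 1 ≤ i ∧ i < K ∧
    pmin ≤ (xpart q.1 k : ℝ) ∧ (xpart q.1 k : ℝ) * L ≤ (xpart (q.1 + q.2) i : ℝ)) with hF5
  have hsub : S ⊆ ((((F0 ∪ F1) ∪ F2) ∪ F3) ∪ F4) ∪ F5 := by
    intro q hq
    obtain ⟨_, _, _, _, _, _, _, s, m, n, l, k, i, hrole, c1, c2, c3, c4, c5, c6⟩ := hS q hq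
    simp only [Finset.mem_union, hF0, hF1, hF2, hF3, hF4, hF5, Finset.mem_filter]
    rcases hrole with ⟨_, ⟨hm, hn⟩ | ⟨hm, hn⟩, hl⟩ | ⟨_, ⟨hm, hn⟩ | ⟨hm, hn⟩, hl⟩ |
      ⟨_, ⟨hm, hn⟩ | ⟨hm, hn⟩, hl⟩
    · subst hm hn hl
      exact Or.inl (Or.inl (Or.inl (Or.inl (Or.inl ⟨hq, k, i, c1, c2, c3, c4, c5, c6⟩))))
    · subst hm hn hl
      exact Or.inl (Or.inl (Or.inl (Or.inl (Or.inr ⟨hq, k, i, c1, c2, c3, c4, c5, c6⟩))))
    · subst hm hn hl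
      exact Or.inl (Or.inl (Or.inl (Or.inr ⟨hq, k, i, c1, c2, c3, c4, c5, c6⟩)))
    · subst hm hn hl
      exact Or.inl (Or.inl (Or.inr ⟨hq, k, i, c1, c2, c3, c4, c5, c6⟩))
    · subst hm hn hl
      exact Or.inl (Or.inr ⟨hq, k, i, c1, c2, c3, c4, c5, c6⟩)
    · subst hm hn hl
      exact Or.inr ⟨hq, k, i, c1, c2, c3, c4, c5, c6⟩
  have hcard : (S.card : ℝ) ≤ (F0.card : ℝ) + F1.card + F2.card + F3.card + F4.card + F5.card := by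
    have e0 := Finset.card_le_card hsub
    have e1 := Finset.card_union_le (((((F0 ∪ F1) ∪ F2) ∪ F3) ∪ F4)) F5
    have e2 := Finset.card_union_le ((((F0 ∪ F1) ∪ F2) ∪ F3)) F4
    have e3 := Finset.card_union_le ((F0 ∪ F1) ∪ F2) F3
    have e4 := Finset.card_union_le (F0 ∪ F1) F2
    have e5 := Finset.card_union_le F0 F1
    exact_mod_cast (by omega : S.card ≤ F0.card + F1.card + F2.card + F3.card + F4.card + F5.card)
  have hfin : 6 * C * (Z : ℝ) ^ σ * R * (1 / L + 1 / pmin) =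
      6 * (C * (Z : ℝ) ^ σ * R * (1 / L + 1 / pmin)) := by ring
  rw [hfin]
  linarith

end Pool.Agent.Lib.MP_d8bd92_nt
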