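import Pool.Agent.Lib.MP_d8bd92_nt.CdDefs
import Pool.Agent.Lib.MP_d8bd92_nt.CdB
import Pool.Agent.Lib.MP_d8bd92_nt.CdE4

set_option autoImplicit false

/-!
Row I2: the event E2b is rare.
-/

namespace Pool.Agent.Lib.MP_d8bd92_nt

open Finset Pool.Agent.Lib.Szpiro


/-- the six pairs -/
def i2pair (r : Fin 6) (q : ℕ × ℕ) : ℕ × ℕ :=
  match r with
  | 0 => (q.1, q.2)
  | 1 => (q.2, q.1)
  | 2 => (q.1, q.1 + q.2)
  | 3 => (q.1 + q.2, q.1)
  | 4 => (q.2, q.1 + q.2)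
  | 5 => (q.1 + q.2, q.2)

/-- the third number -/
def i2l (r : Fin 6) (q : ℕ × ℕ) : ℕ :=
  match r with
  | 0 => q.1 + q.2
  | 1 => q.1 + q.2
  | 2 => q.2
  | 3 => q.2
  | 4 => q.1
  | 5 => q.1

/-- the sign -/
def i2s (r : Fin 6) : ℤ :=
  match r with
  | 0 => -1
  | 1 => -1
  | 2 => 1
  | 3 => 1
  | 4 => 1
  | 5 => 1

lemma i2_role {a b : ℕ} {s : ℤ} {m n l : ℕ} (h : Role a b s m n l) :
    ∃ r : Fin 6, i2pair r (a, b) = (m, n) ∧ i2l r (a, b) = l ∧ i2s r = s := by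
  rcases h with ⟨rfl, h | h, rfl⟩ | ⟨rfl, h | h, rfl⟩ | ⟨rfl, h | h, rfl⟩ <;>
    obtain ⟨rfl, rfl⟩ := h
  · exact ⟨0, rfl, rfl, rfl⟩
  · exact ⟨1, rfl, rfl, rfl⟩
  · exact ⟨2, rfl, rfl, rfl⟩
  · exact ⟨3, rfl, rfl, rfl⟩
  · exact ⟨4, rfl, rfl, rfl⟩
  · exact ⟨5, rfl, rfl, rfl⟩

lemma i2_inj (r : Fin 6) : Function.Injective (i2pair r) := by
  rintro ⟨a, b⟩ ⟨c, d⟩ h
  fin_cases r <;> simp [i2pair] at h <;> ext <;> simp <;> omega

lemma i2_sign (r : Fin 6) : i2s r = 1 ∨ i2s r = -1 := by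
  fin_cases r <;> simp [i2s]

lemma i2_facts (r : Fin 6) {q : ℕ × ℕ} {Z : ℕ} {R : ℝ} (h1 : 1 ≤ q.1) (h2 : 1 ≤ q.2)
    (hZ : q.1 + q.2 ≤ Z) (hco : Nat.Coprime q.1 q.2)
    (hR1 : (rd q.1 : ℝ) * rd q.2 ≤ R) (hR2 : (rd q.1 : ℝ) * rd (q.1 + q.2) ≤ R)
    (hR3 : (rd q.2 : ℝ) * rd (q.1 + q.2) ≤ R) :
    1 ≤ (i2pair r q).1 ∧ (i2pair r q).1 ≤ Z ∧ 1 ≤ (i2pair r q).2 ∧ (i2pair r q).2 ≤ Z ∧
      1 ≤ i2l r q ∧ i2l r q ≤ Z ∧ Nat.Coprime (i2l r q) ((i2pair r q).1 * (i2pair r q).2) ∧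
      ((i2l r q : ℕ) : ℤ) ∣ ((i2pair r q).1 : ℤ) - i2s r * (i2pair r q).2 ∧
      (rd (i2pair r q).1 : ℝ) * rd (i2pair r q).2 ≤ R := by
  have c1 : Nat.Coprime (q.1 + q.2) q.1 := by
    rw [Nat.coprime_self_add_left]
    exact hco.symm
  have c2 : Nat.Coprime (q.1 + q.2) q.2 := by
    rw [Nat.coprime_add_self_left]
    exact hco
  fin_cases r
  · refine ⟨h1, by simp only [i2pair]; omega, h2, by simp only [i2pair]; omega,
      by simp only [i2l]; omega, hZ, Nat.Coprime.mul_right c1 c2, ?_, hR1⟩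
    simp [i2pair, i2l, i2s]
  · refine ⟨h2, by simp only [i2pair]; omega, h1, by simp only [i2pair]; omega,
      by simp only [i2l]; omega, hZ, Nat.Coprime.mul_right c2 c1, ?_, by
        simp only [i2pair]; rw [mul_comm]; exact hR1⟩
    simp [i2pair, i2l, i2s, add_comm]
  · refine ⟨h1, by simp only [i2pair]; omega, by simp only [i2pair]; omega, hZ,
      h2, by simp only [i2l]; omega, Nat.Coprime.mul_right hco.symm c2.symm, ?_, hR2⟩
    simp [i2pair, i2l, i2s]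
  · refine ⟨by simp only [i2pair]; omega, hZ, h1, by simp only [i2pair]; omega,
      h2, by simp only [i2l]; omega, Nat.Coprime.mul_right c2.symm hco.symm, ?_, by
        simp only [i2pair]; rw [mul_comm]; exact hR2⟩
    simp [i2pair, i2l, i2s]
  · refine ⟨h2, by simp only [i2pair]; omega, by simp only [i2pair]; omega, hZ,
      h1, by simp only [i2l]; omega, Nat.Coprime.mul_right hco c1.symm, ?_, hR3⟩
    simp [i2pair, i2l, i2s]
  · refine ⟨by simp only [i2pair]; omega, hZ, h2, by simp only [i2pair]; omega,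
      h1, by simp only [i2l]; omega, Nat.Coprime.mul_right c1.symm hco, ?_, by
        simp only [i2pair]; rw [mul_comm]; exact hR3⟩
    simp [i2pair, i2l, i2s]

/-- enumeration of a set with at most four elements, padded by `d` -/
lemma i2_getD {α M : Type*} [CommMonoid M] (g : α → M) (d : α) (hd : g d = 1) (l : List α)
    (hl : l.length ≤ 4) : ∏ j : Fin 4, g (l.getD j d) = (l.map g).prod := by
  rw [Fin.prod_univ_four]
  match l, hl with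
  | [], _ => simp [hd]
  | [a], _ => simp [hd]
  | [a, b], _ => simp [hd]
  | [a, b, c], _ => simp [hd, mul_assoc]
  | [a, b, c, e], _ => simp [mul_assoc]
  | _ :: _ :: _ :: _ :: _ :: _, hl => exact absurd hl (by simp only [List.length_cons]; omega)

/-- the padded enumeration -/
noncomputable def i2v (W : Finset (Bool × ℕ)) (j : Fin 4) : Bool × ℕ := W.toList.getD j (true, 0)

lemma i2v_prod {M : Type*} [CommMonoid M] (W : Finset (Bool × ℕ)) (hW : W.card ≤ 4)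
    (g : Bool × ℕ → M) (hg : g (true, 0) = 1) : ∏ j, g (i2v W j) = ∏ w ∈ W, g w := by
  unfold i2v
  rw [i2_getD g _ hg _ (by rw [Finset.length_toList]; exact hW), Finset.prod_map_toList]

lemma i2v_mem (W : Finset (Bool × ℕ)) (j : Fin 4) : i2v W j ∈ W ∨ i2v W j = (true, 0) := by
  unfold i2v
  rw [List.getD_eq_getElem?_getD]
  rcases h : W.toList[(j : ℕ)]? with _ | a
  · right
    rfl
  · left
    rw [Option.getD_some]
    exact Finset.mem_toList.1 (List.mem_of_getElem? h)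

/-- the decomposition of `m` and `n` along `W` -/
lemma i2_decomp {m n : ℕ} (hm : m ≠ 0) (hn : n ≠ 0) (W : Finset (Bool × ℕ)) (hW : W.card ≤ 4)
    (hW1 : ∀ w ∈ W, 1 ≤ w.2) :
    ∃ w₁ w₂ : ℕ,
      m = w₁ * ∏ j, (if (i2v W j).1 then
        xpart (if (i2v W j).1 then m else n) (i2v W j).2 ^ (i2v W j).2 else 1) ∧
      n = w₂ * ∏ j, (if (i2v W j).1 then 1 else
        xpart (if (i2v W j).1 then m else n) (i2v W j).2 ^ (i2v W j).2) ∧
      rd m * rd n = rd w₁ * rd w₂ * ∏ w ∈ W, xpart (if w.1 then m else n) w.2 := by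
  classical
  set S₁ := (W.filter (fun w => w.1 = true)).image Prod.snd with hS₁
  set S₂ := (W.filter (fun w => ¬ w.1 = true)).image Prod.snd with hS₂
  have inj1 : Set.InjOn Prod.snd (W.filter (fun w => w.1 = true) : Set (Bool × ℕ)) := by
    intro a ha b hb hab
    rw [mem_coe, mem_filter] at ha hb
    exact Prod.ext (ha.2.trans hb.2.symm) hab
  have inj2 : Set.InjOn Prod.snd (W.filter (fun w => ¬ w.1 = true) : Set (Bool × ℕ)) := by
    intro a ha b hb hab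
    rw [mem_coe, mem_filter, Bool.not_eq_true] at ha hb
    exact Prod.ext (ha.2.trans hb.2.symm) hab
  obtain ⟨w₁, -, hmw, hrm, -⟩ := xpart_split m hm S₁ (by
    intro k hk
    obtain ⟨w, hw, rfl⟩ := mem_image.1 hk
    exact hW1 w (mem_filter.1 hw).1)
  obtain ⟨w₂, -, hnw, hrn, -⟩ := xpart_split n hn S₂ (by
    intro k hk
    obtain ⟨w, hw, rfl⟩ := mem_image.1 hk
    exact hW1 w (mem_filter.1 hw).1)
  refine ⟨w₁, w₂, ?_, ?_, ?_⟩
  · rw [i2v_prod W hW (fun w => if w.1 then xpart (if w.1 then m else n) w.2 ^ w.2 else 1)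
      (by simp), ← Finset.prod_filter]
    nth_rewrite 1 [hmw]
    congr 1
    rw [hS₁, Finset.prod_image inj1]
    refine Finset.prod_congr rfl fun w hw => ?_
    rw [if_pos (mem_filter.1 hw).2]
  · rw [i2v_prod W hW (fun w => if w.1 then 1 else xpart (if w.1 then m else n) w.2 ^ w.2)
      (by simp)]
    nth_rewrite 1 [hnw]
    congr 1
    rw [hS₂, Finset.prod_image inj2, Finset.prod_filter]
    refine Finset.prod_congr rfl fun w hw => ?_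
    by_cases h : w.1 = true
    · simp [h]
    · simp [h]
  · rw [hrm, hrn, ← Finset.prod_filter_mul_prod_filter_not W (fun w => w.1 = true), hS₁, hS₂,
      Finset.prod_image inj1, Finset.prod_image inj2]
    have e1 : ∏ w ∈ W.filter (fun w => w.1 = true), xpart (if w.1 then m else n) w.2 =
        ∏ w ∈ W.filter (fun w => w.1 = true), xpart m w.2 :=
      Finset.prod_congr rfl fun w hw => by rw [if_pos (mem_filter.1 hw).2]
    have e2 : ∏ w ∈ W.filter (fun w => ¬ w.1 = true), xpart (if w.1 then m else n) w.2 =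
        ∏ w ∈ W.filter (fun w => ¬ w.1 = true), xpart n w.2 :=
      Finset.prod_congr rfl fun w hw => by rw [if_neg (mem_filter.1 hw).2]
    rw [e1, e2]
    ring

/-- the long variable divides -/
lemma i2_sq_dvd {l k : ℕ} (hl : l ≠ 0) (hk : 2 ≤ k) : xpart l k ^ 2 ∣ l := by
  obtain ⟨w, -, h, -, -⟩ := xpart_split l hl {k} (by simp; omega)
  rw [Finset.prod_singleton] at h
  have h3 : xpart l k ^ k ∣ l := by
    nth_rewrite 2 [h]
    exact dvd_mul_left _ _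
  exact (pow_dvd_pow _ hk).trans h3

lemma i2_xpart_le {m k : ℕ} (hm : m ≠ 0) : xpart m k ≤ m := by
  rcases Nat.eq_zero_or_pos k with rfl | hk
  · rw [xpart_zero]
    omega
  · obtain ⟨w, -, h, -, -⟩ := xpart_split m hm {k} (by simp; omega)
    rw [Finset.prod_singleton] at h
    have h1 : xpart m k ∣ m := by
      have h2 : xpart m k ∣ xpart m k ^ k := dvd_pow_self _ (by omega)
      have h3 : xpart m k ^ k ∣ m := by
        nth_rewrite 2 [h]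
        exact dvd_mul_left _ _
      exact h2.trans h3
    exact Nat.le_of_dvd (by omega) h1

/-- the shape of a pair -/
def I2Shape (K Z : ℕ) (R L V : ℝ) (r : Fin 6) (v : Fin 4 → Bool × ℕ) (d : ℕ) (dd : Fin 4 → ℕ)
    (q : ℕ × ℕ) : Prop :=
  2 ^ d ≤ Z ∧ (∀ j, (v j).2 < K) ∧ (∀ j, (v j).2 = 0 → dd j = 0) ∧
    (∀ j, ((2 : ℝ) ^ dd j) ≤ 2 * 2 ^ d * L) ∧
    ((2 : ℝ) ^ d) ^ 2 * V ≤ 16 * ∏ j, (2 : ℝ) ^ dd j ∧
    (1 ≤ (i2pair r q).1 ∧ (i2pair r q).1 ≤ Z ∧ 1 ≤ (i2pair r q).2 ∧ (i2pair r q).2 ≤ Z ∧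
      ∃ (p w₁ w₂ : ℕ) (x : Fin 4 → ℕ),
      2 ^ d ≤ p ∧ p < 2 * 2 ^ d ∧ Squarefree p ∧
      (i2pair r q).1 = w₁ * ∏ j, (if (v j).1 then x j ^ (v j).2 else 1) ∧
      (i2pair r q).2 = w₂ * ∏ j, (if (v j).1 then 1 else x j ^ (v j).2) ∧
      (rd w₁ : ℝ) * rd w₂ ≤ R / ∏ j, (2 : ℝ) ^ dd j ∧ (∀ j, 2 ^ dd j ≤ x j ∧ x j < 2 * 2 ^ dd j) ∧
      Nat.Coprime p ((i2pair r q).1 * (i2pair r q).2) ∧
      ((p : ℤ)) ^ 2 ∣ ((i2pair r q).1 : ℤ) - i2s r * (i2pair r q).2)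

lemma i2_log {x : ℕ} (hx : 1 ≤ x) : 2 ^ Nat.log 2 x ≤ x ∧ x < 2 * 2 ^ Nat.log 2 x := by
  refine ⟨Nat.pow_log_le_self 2 (by omega), ?_⟩
  have := Nat.lt_pow_succ_log_self (by norm_num : 1 < 2) x
  rw [pow_succ] at this
  omega

/-- every pair has a shape -/
lemma i2_exists {K Z : ℕ} {R pmin L V : ℝ} (hp : 1 ≤ pmin)
    (hL : 1 ≤ L) (hV : 1 ≤ V) {q : ℕ × ℕ} (h1 : 1 ≤ q.1) (h2 : 1 ≤ q.2)
    (hZ : q.1 + q.2 ≤ Z) (hco : Nat.Coprime q.1 q.2)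
    (hR1 : (rd q.1 : ℝ) * rd q.2 ≤ R) (hR2 : (rd q.1 : ℝ) * rd (q.1 + q.2) ≤ R)
    (hR3 : (rd q.2 : ℝ) * rd (q.1 + q.2) ≤ R) (h : EvTwoB K pmin L V q.1 q.2) :
    ∃ (r : Fin 6) (v : Fin 4 → Bool × ℕ) (d : ℕ) (dd : Fin 4 → ℕ),
      d ≤ Nat.log 2 Z ∧ (∀ j, dd j ≤ Nat.log 2 Z) ∧ I2Shape K Z R L V r v d dd q := by
  obtain ⟨s, m, n, l, k, W, hrole, hk2, hkK, hW4, hWe, hpm, hWL, hWV⟩ := h
  obtain ⟨r, hr1, hr2, hr3⟩ := i2_role hrole
  obtain ⟨f1, f2, f3, f4, f5, f6, f7, f8, f9⟩ := i2_facts r h1 h2 hZ hco hR1 hR2 hR3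
  have hr1' : i2pair r q = (m, n) := hr1
  have hr2' : i2l r q = l := hr2
  rw [hr1'] at f1 f2 f3 f4 f7 f8 f9
  rw [hr2'] at f5 f6 f7 f8
  simp only at f1 f2 f3 f4 f7 f8 f9
  obtain ⟨w₁, w₂, hw1, hw2, hw3⟩ := i2_decomp (by omega : m ≠ 0) (by omega : n ≠ 0) W hW4
    (fun w hw => (hWe w hw).1)
  set x : Fin 4 → ℕ := fun j => xpart (if (i2v W j).1 then m else n) (i2v W j).2 with hx
  set p := xpart l k with hpdef
  have hp1 : 1 ≤ p := xpart_pos _ _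
  have hx1 : ∀ j, 1 ≤ x j := fun j => xpart_pos _ _
  have hpl : p ≤ l := i2_xpart_le (by omega)
  have hxZ : ∀ j, x j ≤ Z := by
    intro j
    refine (i2_xpart_le ?_).trans ?_
    · split_ifs <;> omega
    · split_ifs <;> omega
  obtain ⟨lp1, lp2⟩ := i2_log hp1
  have hlx := fun j => i2_log (hx1 j)
  have hprodx : ∏ j, x j = ∏ w ∈ W, xpart (if w.1 then m else n) w.2 := by
    rw [hx, i2v_prod W hW4 (fun w => xpart (if w.1 then m else n) w.2)]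
    simp [xpart_zero]
  have hpR : (1 : ℝ) ≤ p := by exact_mod_cast hp1
  have hxR : ∀ j, (1 : ℝ) ≤ x j := fun j => by exact_mod_cast hx1 j
  have hpos : ∀ j, (0 : ℝ) < (2 : ℝ) ^ Nat.log 2 (x j) := fun j => by positivity
  have hle : ∀ j, (2 : ℝ) ^ Nat.log 2 (x j) ≤ x j := fun j => by exact_mod_cast (hlx j).1
  have hlt : ∀ j, (x j : ℝ) ≤ 2 * (2 : ℝ) ^ Nat.log 2 (x j) := fun j => by
    exact_mod_cast (hlx j).2.le
  have hpp : (p : ℝ) ≤ 2 * (2 : ℝ) ^ Nat.log 2 p := by exact_mod_cast lp2.le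
  have hpp' : (2 : ℝ) ^ Nat.log 2 p ≤ p := by exact_mod_cast lp1
  have hprodle : ∏ j, (2 : ℝ) ^ Nat.log 2 (x j) ≤ ∏ j, (x j : ℝ) :=
    Finset.prod_le_prod (fun j _ => (hpos j).le) fun j _ => hle j
  have hprodlt : ∏ j, (x j : ℝ) ≤ 16 * ∏ j, (2 : ℝ) ^ Nat.log 2 (x j) := by
    calc ∏ j, (x j : ℝ) ≤ ∏ j, (2 * (2 : ℝ) ^ Nat.log 2 (x j)) :=
          Finset.prod_le_prod (fun j _ => by positivity) fun j _ => hlt j
      _ = _ := by
          rw [Finset.prod_mul_distrib, Finset.prod_const, Finset.card_univ, Fintype.card_fin]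
          norm_num
  have hprodpos : 0 < ∏ j, (2 : ℝ) ^ Nat.log 2 (x j) := Finset.prod_pos fun j _ => hpos j
  have hprodR : (∏ j, (x j : ℝ)) = ∏ w ∈ W, (xpart (if w.1 then m else n) w.2 : ℝ) := by
    exact_mod_cast hprodx
  refine ⟨r, i2v W, Nat.log 2 p, fun j => Nat.log 2 (x j), Nat.log_mono_right (by omega),
    fun j => Nat.log_mono_right (hxZ j), ?_, ?_, ?_, ?_, ?_, ?_⟩
  · omega
  · intro j
    rcases i2v_mem W j with hj | hj
    · exact (hWe _ hj).2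
    · rw [hj]
      show 0 < K
      omega
  · intro j hj
    have : x j = 1 := by
      simp only [hx, hj, xpart_zero]
    show Nat.log 2 (x j) = 0
    rw [this]
    rfl
  · intro j
    have hxL : (x j : ℝ) ≤ p * L := by
      rcases i2v_mem W j with hj | hj
      · exact hWL _ hj
      · have : x j = 1 := by
          simp only [hx, hj, xpart_zero]
        rw [this, Nat.cast_one]
        nlinarith
    calc (2 : ℝ) ^ Nat.log 2 (x j) ≤ x j := hle j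
      _ ≤ p * L := hxL
      _ ≤ _ := mul_le_mul_of_nonneg_right hpp (by linarith)
  · calc ((2 : ℝ) ^ Nat.log 2 p) ^ 2 * V ≤ (p : ℝ) ^ 2 * V :=
          mul_le_mul_of_nonneg_right (pow_le_pow_left₀ (by positivity) hpp' 2) (by linarith)
      _ ≤ ∏ j, (x j : ℝ) := by rw [hprodR]; exact hWV
      _ ≤ _ := hprodlt
  · rw [hr1', hr3]
    refine ⟨f1, f2, f3, f4, p, w₁, w₂, x, lp1, lp2, xpart_squarefree _ _, hw1, hw2, ?_, fun j => hlx j, ?_, ?_⟩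
    · rw [le_div_iff₀ hprodpos]
      have e : (rd m : ℝ) * rd n = rd w₁ * rd w₂ * ∏ j, (x j : ℝ) := by
        rw [hprodR]
        exact_mod_cast hw3
      calc (rd w₁ : ℝ) * rd w₂ * ∏ j, (2 : ℝ) ^ Nat.log 2 (x j)
          ≤ (rd w₁ : ℝ) * rd w₂ * ∏ j, (x j : ℝ) := mul_le_mul_of_nonneg_left hprodle (by positivity)
        _ = (rd m : ℝ) * rd n := e.symm
        _ ≤ R := f9
    · have hdvd : p ∣ l := (dvd_pow_self p (by norm_num : 2 ≠ 0)).trans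
        (i2_sq_dvd (by omega) hk2)
      exact Nat.Coprime.coprime_dvd_left hdvd f7
    · have h3 : ((p : ℤ)) ^ 2 ∣ (l : ℤ) := by
        exact_mod_cast i2_sq_dvd (by omega : l ≠ 0) hk2
      rw [hr3] at f8
      exact h3.trans f8

/-- the bound for one shape -/
lemma i2_bound (R L V P : ℝ) (X : Fin 4 → ℝ) (hR : 1 ≤ R) (hL : 1 ≤ L) (hV : 1 ≤ V) (hP : 1 ≤ P)
    (hX : ∀ j, 1 ≤ X j) (hXL : ∀ j, X j ≤ 2 * P * L) (hPV : P ^ 2 * V ≤ 16 * ∏ j, X j) :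
    (P * (R / ∏ j, X j)) * ∏ j, ((X j) ^ 2 * (1 + (X j) ^ 2 / P ^ 2)) ^ (1 / 4 : ℝ) ≤
      20 * R * (L ^ 2 / V ^ (1 / 2 : ℝ)) := by
  set Pi0 := ∏ j, X j with hPi0
  have hPi1 : 1 ≤ Pi0 := by
    rw [hPi0]
    calc (1 : ℝ) = ∏ _j : Fin 4, (1 : ℝ) := by simp
      _ ≤ ∏ j, X j := Finset.prod_le_prod (fun _ _ => zero_le_one) fun j _ => hX j
  have hPi0 : 0 < Pi0 := by linarith
  have hP0 : 0 < P := by linarith
  have hV0 : 0 < V := by linarith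
  have h1 : ∏ j, ((X j) ^ 2 * (1 + (X j) ^ 2 / P ^ 2)) ^ (1 / 4 : ℝ) ≤ Real.sqrt Pi0 * (5 * L ^ 2) := by
    have h2 : ∀ j, (X j) ^ 2 * (1 + (X j) ^ 2 / P ^ 2) ≤ (X j) ^ 2 * (5 * L ^ 2) := by
      intro j
      refine mul_le_mul_of_nonneg_left ?_ (by positivity)
      have h3 : (X j) ^ 2 / P ^ 2 ≤ 4 * L ^ 2 := by
        rw [div_le_iff₀ (by positivity)]
        calc (X j) ^ 2 ≤ (2 * P * L) ^ 2 := pow_le_pow_left₀ (by linarith [hX j]) (hXL j) 2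
          _ = _ := by ring
      nlinarith
    rw [Real.finsetProd_rpow _ _ (fun j _ => by positivity)]
    have h4 : ∏ j, ((X j) ^ 2 * (1 + (X j) ^ 2 / P ^ 2)) ≤ (Real.sqrt Pi0 * (5 * L ^ 2)) ^ 4 := by
      calc ∏ j, ((X j) ^ 2 * (1 + (X j) ^ 2 / P ^ 2)) ≤ ∏ j, ((X j) ^ 2 * (5 * L ^ 2)) :=
            Finset.prod_le_prod (fun j _ => by positivity) fun j _ => h2 j
        _ = Pi0 ^ 2 * (5 * L ^ 2) ^ 4 := by
            rw [Finset.prod_mul_distrib, Finset.prod_const, Finset.card_univ, Fintype.card_fin,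
              Finset.prod_pow]
        _ = _ := by
            rw [mul_pow (Real.sqrt Pi0)]
            congr 1
            have := Real.sq_sqrt hPi0.le
            calc Pi0 ^ 2 = (Real.sqrt Pi0 ^ 2) ^ 2 := by rw [this]
              _ = _ := by ring
    calc (∏ j, ((X j) ^ 2 * (1 + (X j) ^ 2 / P ^ 2))) ^ (1 / 4 : ℝ)
        ≤ ((Real.sqrt Pi0 * (5 * L ^ 2)) ^ 4) ^ (1 / 4 : ℝ) :=
          Real.rpow_le_rpow (Finset.prod_nonneg fun j _ => by positivity) h4 (by norm_num)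
      _ = _ := by
          rw [← Real.rpow_natCast, ← Real.rpow_mul (by positivity)]
          norm_num
  have hs : P * Real.sqrt V ≤ 4 * Real.sqrt Pi0 := by
    have h5 : Real.sqrt (P ^ 2 * V) ≤ Real.sqrt (16 * Pi0) := Real.sqrt_le_sqrt hPV
    rw [Real.sqrt_mul (by positivity), Real.sqrt_sq hP0.le, Real.sqrt_mul (by norm_num)] at h5
    have h6 : Real.sqrt 16 = 4 := by
      rw [show (16 : ℝ) = 4 ^ 2 by norm_num]
      exact Real.sqrt_sq (by norm_num)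
    rwa [h6] at h5
  have hsV : 0 < Real.sqrt V := Real.sqrt_pos.2 hV0
  have hsPi0 : 0 < Real.sqrt Pi0 := Real.sqrt_pos.2 hPi0
  rw [← Real.sqrt_eq_rpow]
  calc (P * (R / Pi0)) * ∏ j, ((X j) ^ 2 * (1 + (X j) ^ 2 / P ^ 2)) ^ (1 / 4 : ℝ)
      ≤ (P * (R / Pi0)) * (Real.sqrt Pi0 * (5 * L ^ 2)) :=
        mul_le_mul_of_nonneg_left h1 (by positivity)
    _ = 5 * R * L ^ 2 * (P * (Real.sqrt Pi0 / Pi0)) := by ring
    _ = 5 * R * L ^ 2 * (P / Real.sqrt Pi0) := by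
        rw [Real.sqrt_div_self', one_div]
        ring
    _ ≤ 5 * R * L ^ 2 * (4 / Real.sqrt V) := by
        refine mul_le_mul_of_nonneg_left ?_ (by positivity)
        rw [div_le_div_iff₀ hsPi0 hsV]
        exact hs
    _ = _ := by ring

/-- logarithms are small -/
lemma i2_log_le (ε : ℝ) (hε : 0 < ε) : ∃ C : ℝ, 1 ≤ C ∧ ∀ Z : ℕ, 1 ≤ Z →
    ((Nat.log 2 Z + 1 : ℕ) : ℝ) ≤ C * (Z : ℝ) ^ ε := by
  have hl2 : 0 < Real.log 2 := Real.log_pos (by norm_num)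
  refine ⟨1 / (ε * Real.log 2) + 1, by
    have : 0 < 1 / (ε * Real.log 2) := by positivity
    linarith, ?_⟩
  intro Z hZ
  have hZ' : (1 : ℝ) ≤ Z := by exact_mod_cast hZ
  have h1 : ((2 : ℝ)) ^ (Nat.log 2 Z) ≤ Z := by exact_mod_cast Nat.pow_log_le_self 2 (by omega)
  have h2 : (Nat.log 2 Z : ℝ) * Real.log 2 ≤ Real.log Z := by
    rw [← Real.log_pow]
    exact Real.log_le_log (by positivity) h1
  have h3 := Real.log_le_rpow_div (by linarith : (0 : ℝ) ≤ Z) hε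
  have h4 : (Nat.log 2 Z : ℝ) ≤ 1 / (ε * Real.log 2) * (Z : ℝ) ^ ε := by
    rw [one_div, ← div_eq_inv_mul, le_div_iff₀ (by positivity)]
    rw [le_div_iff₀ hε] at h3
    nlinarith
  have h5 : (1 : ℝ) ≤ (Z : ℝ) ^ ε := Real.one_le_rpow hZ' hε.le
  push_cast
  nlinarith

theorem card_evTwoB (K : ℕ) (σ : ℝ) (hσ : 0 < σ) : ∃ C : ℝ, 1 ≤ C ∧ ∀ (Z : ℕ) (R pmin L V : ℝ)
    (S : Finset (ℕ × ℕ)), 1 ≤ Z → 1 ≤ R → 1 ≤ pmin → 1 ≤ L → 1 ≤ V →
    (∀ q ∈ S, 1 ≤ q.1 ∧ 1 ≤ q.2 ∧ q.1 + q.2 ≤ Z ∧ Nat.Coprime q.1 q.2 ∧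
      (rd q.1 : ℝ) * rd q.2 ≤ R ∧ (rd q.1 : ℝ) * rd (q.1 + q.2) ≤ R ∧
      (rd q.2 : ℝ) * rd (q.1 + q.2) ≤ R ∧ EvTwoB K pmin L V q.1 q.2) →
    (S.card : ℝ) ≤ C * (Z : ℝ) ^ σ * R * (L ^ 2 / V ^ (1 / 2 : ℝ)) := by
  classical
  obtain ⟨C₁, hC₁, h4⟩ := count_four K (σ / 2) (by linarith)
  obtain ⟨C₂, hC₂, hlog⟩ := i2_log_le (σ / 10) (by linarith)
  refine ⟨1 + C₁ * 20 * (6 * (2 * K) ^ 4 * C₂ ^ 5), by
    have : 0 ≤ C₁ * 20 * (6 * (2 * K) ^ 4 * C₂ ^ 5) := by positivity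
    linarith, ?_⟩
  intro Z R pmin L V S hZ hR hp hL hV hS
  have hZ' : (1 : ℝ) ≤ Z := by exact_mod_cast hZ
  have hV0 : 0 < V := by linarith
  set N := Nat.log 2 Z + 1 with hN
  let T := Fin 6 × (Fin 4 → Bool × Fin K) × Fin N × (Fin 4 → Fin N)
  let ST : T → Finset (ℕ × ℕ) := fun τ => S.filter (fun q =>
    I2Shape K Z R L V τ.1 (fun j => ((τ.2.1 j).1, ((τ.2.1 j).2 : ℕ))) (τ.2.2.1 : ℕ)
      (fun j => ((τ.2.2.2 j : Fin N) : ℕ)) q)
  have hcover : S ⊆ univ.biUnion ST := by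
    intro q hq
    obtain ⟨h1, h2, h3, hco, hR1, hR2, hR3, hev⟩ := hS q hq
    obtain ⟨r, v, d, dd, hd, hdd, hsh⟩ := i2_exists hp hL hV h1 h2 h3 hco hR1 hR2 hR3 hev
    rw [mem_biUnion]
    refine ⟨(r, fun j => ((v j).1, ⟨(v j).2, hsh.2.1 j⟩), ⟨d, by omega⟩,
      fun j => ⟨dd j, by have := hdd j; omega⟩), mem_univ _, ?_⟩
    simp only [ST, mem_filter]
    exact ⟨hq, hsh⟩
  have hone : ∀ τ : T, ((ST τ).card : ℝ) ≤
      C₁ * (Z : ℝ) ^ (σ / 2) * (20 * R * (L ^ 2 / V ^ (1 / 2 : ℝ))) := by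
    intro τ
    have hnn : 0 ≤ C₁ * (Z : ℝ) ^ (σ / 2) * (20 * R * (L ^ 2 / V ^ (1 / 2 : ℝ))) := by positivity
    rcases (ST τ).eq_empty_or_nonempty with he | ⟨q₀, hq₀⟩
    · rw [he, card_empty, Nat.cast_zero]
      exact hnn
    · have hsh₀ := (mem_filter.1 hq₀).2
      obtain ⟨g1, g2, g3, g4, g5, -⟩ := hsh₀
      set v : Fin 4 → Bool × ℕ := fun j => ((τ.2.1 j).1, ((τ.2.1 j).2 : ℕ)) with hv
      set X : Fin 4 → ℕ := fun j => 2 ^ ((τ.2.2.2 j : Fin N) : ℕ) with hX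
      have hX1 : ∀ j, 1 ≤ X j := fun j => Nat.one_le_two_pow
      have hXR : ∀ j, ((X j : ℕ) : ℝ) = (2 : ℝ) ^ ((τ.2.2.2 j : Fin N) : ℕ) := fun j => by
        simp [hX]
      have hP1 : 1 ≤ 2 ^ (τ.2.2.1 : ℕ) := Nat.one_le_two_pow
      have hcard : (ST τ).card = ((ST τ).image (i2pair τ.1)).card :=
        (Finset.card_image_of_injective _ (i2_inj τ.1)).symm
      have key := h4 Z (2 ^ (τ.2.2.1 : ℕ)) (i2s τ.1) v X (R / ∏ j, ((X j : ℕ) : ℝ))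
        ((ST τ).image (i2pair τ.1)) hZ hP1 g1 (i2_sign τ.1) g2 hX1
        (fun j hj => by
          have := g3 j hj
          simp only [hX, this, pow_zero])
        (by positivity)
        (by
          intro q' hq'
          obtain ⟨q, hq, rfl⟩ := mem_image.1 hq'
          obtain ⟨-, -, -, -, -, k1, k2, k3, k4, p, w₁, w₂, x, k5, k6, k7', k7, k8, k9, k10, k11, k12⟩ :=
            (mem_filter.1 hq).2
          refine ⟨k1, k2, k3, k4, p, w₁, w₂, x, k5, k6, k7', k7, k8, ?_, k10, k11, k12⟩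
          simp only [hXR]
          exact k9)
      rw [← hcard] at key
      refine key.trans ?_
      rw [mul_assoc]
      refine mul_le_mul_of_nonneg_left ?_ (by positivity)
      refine i2_bound R L V _ (fun j => ((X j : ℕ) : ℝ)) hR hL hV (by exact_mod_cast hP1)
        (fun j => by exact_mod_cast hX1 j) ?_ ?_
      · intro j
        simp only [hXR]
        push_cast
        exact g4 j
      · simp only [hXR]
        push_cast
        exact g5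
  have hcardT : ((univ : Finset T).card : ℝ) ≤ 6 * (2 * K) ^ 4 * C₂ ^ 5 * (Z : ℝ) ^ (σ / 2) := by
    have e1 : (univ : Finset T).card = 6 * ((2 * K) ^ 4 * (N * N ^ 4)) := by
      rw [Finset.card_univ]
      simp only [T, Fintype.card_prod, Fintype.card_fun, Fintype.card_fin, Fintype.card_bool]
    have e2 : ((N : ℕ) : ℝ) ^ 5 ≤ C₂ ^ 5 * (Z : ℝ) ^ (σ / 2) := by
      calc ((N : ℕ) : ℝ) ^ 5 ≤ (C₂ * (Z : ℝ) ^ (σ / 10)) ^ 5 :=
            pow_le_pow_left₀ (by positivity) (hlog Z hZ) 5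
        _ = _ := by
            rw [mul_pow]
            congr 1
            rw [← Real.rpow_natCast, ← Real.rpow_mul (by positivity)]
            congr 1
            push_cast
            ring
    rw [e1]
    push_cast
    calc (6 : ℝ) * ((2 * K) ^ 4 * (N * N ^ 4)) = 6 * (2 * K) ^ 4 * ((N : ℕ) : ℝ) ^ 5 := by
          ring
      _ ≤ 6 * (2 * K) ^ 4 * (C₂ ^ 5 * (Z : ℝ) ^ (σ / 2)) :=
          mul_le_mul_of_nonneg_left e2 (by positivity)
      _ = _ := by ring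
  have hZσ : (Z : ℝ) ^ (σ / 2) * (Z : ℝ) ^ (σ / 2) = (Z : ℝ) ^ σ := by
    rw [← Real.rpow_add (by linarith)]
    congr 1
    ring
  calc (S.card : ℝ) ≤ ((univ.biUnion ST).card : ℝ) := by
        exact_mod_cast Finset.card_le_card hcover
    _ ≤ ∑ τ : T, ((ST τ).card : ℝ) := by
        exact_mod_cast Finset.card_biUnion_le
    _ ≤ ∑ _τ : T, C₁ * (Z : ℝ) ^ (σ / 2) * (20 * R * (L ^ 2 / V ^ (1 / 2 : ℝ))) :=
        Finset.sum_le_sum fun τ _ => hone τ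
    _ = ((univ : Finset T).card : ℝ) *
        (C₁ * (Z : ℝ) ^ (σ / 2) * (20 * R * (L ^ 2 / V ^ (1 / 2 : ℝ)))) := by
        rw [Finset.sum_const, nsmul_eq_mul]
    _ ≤ (6 * (2 * K) ^ 4 * C₂ ^ 5 * (Z : ℝ) ^ (σ / 2)) *
        (C₁ * (Z : ℝ) ^ (σ / 2) * (20 * R * (L ^ 2 / V ^ (1 / 2 : ℝ)))) :=
        mul_le_mul_of_nonneg_right hcardT (by positivity)
    _ = (C₁ * 20 * (6 * (2 * K) ^ 4 * C₂ ^ 5)) * ((Z : ℝ) ^ (σ / 2) * (Z : ℝ) ^ (σ / 2)) * R *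
        (L ^ 2 / V ^ (1 / 2 : ℝ)) := by ring
    _ = (C₁ * 20 * (6 * (2 * K) ^ 4 * C₂ ^ 5)) * (Z : ℝ) ^ σ * R *
        (L ^ 2 / V ^ (1 / 2 : ℝ)) := by rw [hZσ]
    _ ≤ _ := by
        have : (0 : ℝ) ≤ (Z : ℝ) ^ σ * R * (L ^ 2 / V ^ (1 / 2 : ℝ)) := by positivity
        nlinarith

end Pool.Agent.Lib.MP_d8bd92_nt
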