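import Pool.Agent.Lib.MP_d8bd92_nt.CdDefs
import Pool.Agent.Lib.MP_d8bd92_nt.CdH
import Pool.Agent.Lib.MP_d8bd92_nt.CdI1
import Pool.Agent.Lib.MP_d8bd92_nt.CdI2
import Pool.Agent.Lib.MP_d8bd92_nt.CdG

set_option autoImplicit false

/-!
Sums `a + b = c` ordered by the radical of `abc`.
-/

namespace Pool.Agent.Lib.MP_d8bd92_nt

open Finset Pool.Agent.Lib.Szpiro


/-- if no two radicals have product `≤ Y^(2/3-δ₀)`, every product of two is `≤ Y^(2/3+2δ₀)` -/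
theorem pairs_le (Y δ₀ A B C : ℝ) (hY : 1 ≤ Y) (hA : 1 ≤ A) (hB : 1 ≤ B) (hC : 1 ≤ C)
    (hN : A * B * C ≤ Y) (hBC : Y ^ (2 / 3 - δ₀) < B * C) (hAC : Y ^ (2 / 3 - δ₀) < A * C) :
    A * B ≤ Y ^ (2 / 3 + 2 * δ₀) := by
  have hY0 : 0 < Y := by linarith
  set Q : ℝ := Y ^ (2 / 3 - δ₀) with hQ
  set T : ℝ := Y ^ (1 / 3 + δ₀) with hT
  set L : ℝ := Y ^ (1 / 3 - 2 * δ₀) with hL
  have hQ0 : 0 < Q := Real.rpow_pos_of_pos hY0 _
  have hT0 : 0 < T := Real.rpow_pos_of_pos hY0 _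
  have hL0 : 0 < L := Real.rpow_pos_of_pos hY0 _
  have e1 : Q * T = Y := by
    rw [hQ, hT, ← Real.rpow_add hY0]
    norm_num
  have e2 : L * T = Q := by
    rw [hQ, hT, hL, ← Real.rpow_add hY0]
    congr 1
    ring
  have e3 : Y ^ (2 / 3 + 2 * δ₀) * L = Y := by
    rw [hL, ← Real.rpow_add hY0]
    norm_num
  have h1 : A ≤ T := by
    have : Q * A ≤ Q * T := by
      rw [e1]
      nlinarith
    exact le_of_mul_le_mul_left this hQ0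
  have h2 : L ≤ C := by
    have h3 : L * T ≤ C * T := by
      rw [e2]
      calc Q ≤ A * C := hAC.le
        _ ≤ T * C := by gcongr
        _ = C * T := by ring
    exact le_of_mul_le_mul_right h3 hT0
  have h4 : (A * B) * L ≤ Y ^ (2 / 3 + 2 * δ₀) * L := by
    rw [e3]
    calc (A * B) * L ≤ (A * B) * C := by gcongr
      _ ≤ Y := hN
  exact le_of_mul_le_mul_right h4 hL0

theorem abc_by_radical (κ ε : ℝ) (hκ : 0 < κ) (hε : 0 < ε) : ∃ C δ : ℝ, 1 ≤ C ∧ 0 < δ ∧ δ ≤ 1 / 8 ∧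
    ∀ (Y : ℝ) (S : Finset (ℕ × ℕ)), 1 ≤ Y →
    (∀ q ∈ S, 1 ≤ q.1 ∧ 1 ≤ q.2 ∧ Nat.Coprime q.1 q.2 ∧ ((q.1 + q.2 : ℕ) : ℝ) ≤ Y ^ κ ∧
      (rd (q.1 * q.2 * (q.1 + q.2)) : ℝ) ≤ Y ∧
      (rd (q.1 * q.2 * (q.1 + q.2)) : ℝ) ^ (1 / 3 + ε) < ((q.1 + q.2 : ℕ) : ℝ)) →
    (S.card : ℝ) ≤ C * Y ^ (2 / 3 - δ) := by
  classical
  -- parameters
  set e : ℝ := min ε (1 / 4) with he
  have he0 : 0 < e := lt_min hε (by norm_num)
  have he4 : e ≤ 1 / 4 := min_le_right _ _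
  have heε : e ≤ ε := min_le_left _ _
  clear_value e
  set η₂ : ℝ := e / 16 with hη₂
  have hη₂0 : 0 < η₂ := by positivity
  set K : ℕ := ⌈8 * κ / η₂⌉₊ + 2 with hK
  have hK2 : 2 ≤ K := by omega
  have hK2' : (2 : ℝ) ≤ (K : ℝ) := by exact_mod_cast hK2
  have hKκ : 8 * κ ≤ η₂ * K := by
    have h1 : 8 * κ / η₂ ≤ (K : ℝ) := by
      rw [hK]
      push_cast
      have := Nat.le_ceil (8 * κ / η₂)
      linarith
    rw [div_le_iff₀ hη₂0] at h1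
    linarith
  have hK0 : (0 : ℝ) < (K : ℝ) := by linarith
  clear_value K
  set η : ℝ := η₂ / (8 * K) with hη
  have hη0 : 0 < η := by positivity
  have hKη : 8 * K * η = η₂ := by
    rw [hη]
    field_simp
  have hηη₂ : 16 * η ≤ η₂ := by
    have := mul_le_mul_of_nonneg_right hK2' hη0.le
    linarith
  clear_value η
  set η₁ : ℝ := η / 16 with hη₁
  set δ₀ : ℝ := η / 128 with hδ₀
  set σ : ℝ := η / (512 * κ) with hσ
  have hσ0 : 0 < σ := by positivity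
  have hκσ : κ * σ = η / 512 := by
    rw [hσ]
    field_simp
  clear_value σ
  obtain ⟨C1, hC1, H1⟩ := card_evOne σ hσ0
  obtain ⟨C2, hC2, H2⟩ := card_evTwoA K σ hσ0
  obtain ⟨C3, hC3, H3⟩ := card_evTwoB K σ hσ0
  obtain ⟨C4, hC4, H4⟩ := count_final K σ hσ0
  refine ⟨C1 + 2 * C2 + C3 + 2 * C4, η / 512, by linarith, by positivity, by linarith, ?_⟩
  intro Y S hY hS
  have hY0 : 0 < Y := by linarith
  have hmono : ∀ {x y : ℝ}, x ≤ y → Y ^ x ≤ Y ^ y := fun h => Real.rpow_le_rpow_of_exponent_le hY h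
  have hone : ∀ {x : ℝ}, 0 ≤ x → 1 ≤ Y ^ x := fun h => Real.one_le_rpow hY h
  set Z : ℕ := ⌊Y ^ κ⌋₊ with hZ
  have hZ1 : 1 ≤ Z := Nat.le_floor (by simpa using hone hκ.le)
  have hZσ : (Z : ℝ) ^ σ ≤ Y ^ (η / 512) := by
    calc (Z : ℝ) ^ σ ≤ (Y ^ κ) ^ σ :=
          Real.rpow_le_rpow (Nat.cast_nonneg _) (Nat.floor_le (Real.rpow_nonneg hY0.le _)) hσ0.le
      _ = Y ^ (η / 512) := by rw [← Real.rpow_mul hY0.le, hκσ]
  have hZσ0 : 0 ≤ (Z : ℝ) ^ σ := Real.rpow_nonneg (Nat.cast_nonneg _) _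
  have hSZ : ∀ q ∈ S, q.1 + q.2 ≤ Z := by
    intro q hq
    rw [hZ]
    exact Nat.le_floor (hS q hq).2.2.2.1
  clear_value Z
  set U : ℝ := Y ^ (2 * η₂) with hU
  set M : ℝ := Y ^ (1 / 3 + δ₀) with hM
  set H : ℝ := Y ^ (1 / 3 + e / 2) with hH
  set R : ℝ := Y ^ (2 / 3 + 2 * δ₀) with hR
  set Q : ℝ := Y ^ (2 / 3 - δ₀) with hQ
  have hδ₀0 : 0 < δ₀ := by positivity
  have hη₁0 : 0 < η₁ := by positivity
  -- the radical of a product
  have hrd : ∀ q ∈ S, (rd (q.1 * q.2 * (q.1 + q.2)) : ℝ) =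
      (rd q.1 : ℝ) * rd q.2 * rd (q.1 + q.2) := by
    intro q hq
    obtain ⟨h1, h2, h3, -⟩ := hS q hq
    have hac : Nat.Coprime q.1 (q.1 + q.2) := by simpa using h3
    have hbc : Nat.Coprime q.2 (q.1 + q.2) := by simpa [Nat.coprime_comm] using h3
    rw [rd_mul_coprime _ _ (Nat.mul_ne_zero (by omega) (by omega)) (by omega)
      (Nat.Coprime.mul_left hac hbc), rd_mul_coprime _ _ (by omega) (by omega) h3]
    push_cast
    ring
  have hpairs : ∀ q ∈ S, ¬ EvOne Q q.1 q.2 → (rd q.1 : ℝ) * rd q.2 ≤ R ∧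
      (rd q.1 : ℝ) * rd (q.1 + q.2) ≤ R ∧ (rd q.2 : ℝ) * rd (q.1 + q.2) ≤ R := by
    intro q hq hno
    have hN := (hS q hq).2.2.2.2.1
    rw [hrd q hq] at hN
    unfold EvOne at hno
    push Not at hno
    obtain ⟨hAB, hAC, hBC⟩ := hno
    have ra := one_le_rd q.1
    have rb := one_le_rd q.2
    have rc := one_le_rd (q.1 + q.2)
    refine ⟨pairs_le Y δ₀ _ _ _ hY ra rb rc hN hBC hAC, ?_, ?_⟩
    · exact pairs_le Y δ₀ _ _ _ hY ra rc rb (by linarith [mul_right_comm (rd q.1 : ℝ) (rd q.2) (rd (q.1 + q.2))])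
        (by rw [mul_comm]; exact hBC) hAB
    · refine pairs_le Y δ₀ _ _ _ hY rb rc ra ?_ (by rw [mul_comm]; exact hAC) (by rw [mul_comm]; exact hAB)
      calc (rd q.2 : ℝ) * rd (q.1 + q.2) * rd q.1 = (rd q.1 : ℝ) * rd q.2 * rd (q.1 + q.2) := by ring
        _ ≤ Y := hN
  -- the four parts
  set S1 : Finset (ℕ × ℕ) := S.filter (fun q => EvOne Q q.1 q.2) with hS1
  set S2 : Finset (ℕ × ℕ) := S.filter (fun q => ¬ EvOne Q q.1 q.2 ∧
    EvTwoA K (Y ^ η) (Y ^ η₁) q.1 q.2) with hS2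
  set S3 : Finset (ℕ × ℕ) := S.filter (fun q => ¬ EvOne Q q.1 q.2 ∧
    EvTwoB K (Y ^ η) (Y ^ η₁) (Y ^ η) q.1 q.2) with hS3
  set S4 : Finset (ℕ × ℕ) := S.filter (fun q =>
    Y ^ (1 - 3 / 2 * δ₀) ≤ (rd (q.1 * q.2 * (q.1 + q.2)) : ℝ) ∧ NearPow K U M q.1 ∧
      NearPow K U M q.2 ∧ NearPow K U M (q.1 + q.2)) with hS4
  have hcover : S ⊆ S1 ∪ S2 ∪ S3 ∪ S4 := by
    intro q hq
    obtain ⟨h1, h2, h3, h4, h5, -⟩ := hS q hq
    rw [Finset.mem_union, Finset.mem_union, Finset.mem_union, hS1, hS2, hS3, hS4,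
      Finset.mem_filter, Finset.mem_filter, Finset.mem_filter, Finset.mem_filter]
    by_cases h : EvOne Q q.1 q.2
    · exact Or.inl (Or.inl (Or.inl ⟨hq, h⟩))
    · rcases structure_lemma K hK2 κ η₂ η₁ η δ₀ hη₂0 (by rw [hη₂]; linarith) hη0 hKη.le hη₁0
        hKκ hκ.le hδ₀0 (by rw [hδ₀]; linarith) Y hY q.1 q.2 h1 h2 h3 h4 h5 with h' | h' | h' | h'
      · exact absurd h' h
      · exact Or.inl (Or.inl (Or.inr ⟨hq, h, h'⟩))
      · exact Or.inl (Or.inr ⟨hq, h, h'⟩)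
      · exact Or.inr ⟨hq, h'⟩
  have hcard : (S.card : ℝ) ≤ S1.card + S2.card + S3.card + S4.card := by
    have h1 := Finset.card_le_card hcover
    have h2 := Finset.card_union_le (S1 ∪ S2 ∪ S3) S4
    have h3 := Finset.card_union_le (S1 ∪ S2) S3
    have h4 := Finset.card_union_le S1 S2
    exact_mod_cast (by omega : S.card ≤ S1.card + S2.card + S3.card + S4.card)
  set T : ℝ := Y ^ (2 / 3 - η / 512) with hT
  have hT0 : 0 ≤ T := Real.rpow_nonneg hY0.le _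
  -- part 1
  have b1 : (S1.card : ℝ) ≤ C1 * T := by
    have h := H1 Z Q S1 hZ1 (Real.rpow_nonneg hY0.le _) (by
      intro q hq
      rw [hS1, Finset.mem_filter] at hq
      exact ⟨(hS q hq.1).1, (hS q hq.1).2.1, hSZ q hq.1, hq.2⟩)
    refine h.trans ?_
    have hQT : (Z : ℝ) ^ σ * Q ≤ T := by
      calc (Z : ℝ) ^ σ * Q ≤ Y ^ (η / 512) * Y ^ (2 / 3 - δ₀) := by
            rw [hQ]; gcongr
        _ = Y ^ (η / 512 + (2 / 3 - δ₀)) := by rw [← Real.rpow_add hY0]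
        _ ≤ T := hmono (by rw [hδ₀]; linarith)
    calc C1 * (Z : ℝ) ^ σ * Q = C1 * ((Z : ℝ) ^ σ * Q) := by ring
      _ ≤ C1 * T := by gcongr
  have b2 : (S2.card : ℝ) ≤ 2 * C2 * T := by
    have h := H2 Z R (Y ^ η) (Y ^ η₁) S2 hZ1 (hone (by linarith)) (hone hη0.le) (hone hη₁0.le) (by
      intro q hq
      rw [hS2, Finset.mem_filter] at hq
      obtain ⟨p1, p2, p3⟩ := hpairs q hq.1 hq.2.1
      exact ⟨(hS q hq.1).1, (hS q hq.1).2.1, hSZ q hq.1, (hS q hq.1).2.2.1, p1, p2, p3, hq.2.2⟩)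
    refine h.trans ?_
    have e1 : 1 / Y ^ η₁ = Y ^ (-η₁) := by rw [Real.rpow_neg hY0.le, one_div]
    have e2 : 1 / Y ^ η ≤ Y ^ (-η₁) := by
      rw [one_div, ← Real.rpow_neg hY0.le]
      exact hmono (by rw [hη₁]; linarith)
    have hRT : (Z : ℝ) ^ σ * R * Y ^ (-η₁) ≤ T := by
      calc (Z : ℝ) ^ σ * R * Y ^ (-η₁) ≤ Y ^ (η / 512) * Y ^ (2 / 3 + 2 * δ₀) * Y ^ (-η₁) := by
            rw [hR]; gcongr
        _ = Y ^ (η / 512 + (2 / 3 + 2 * δ₀) + (-η₁)) := by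
            rw [← Real.rpow_add hY0, ← Real.rpow_add hY0]
        _ ≤ T := hmono (by rw [hδ₀, hη₁]; linarith)
    have hR0 : 0 ≤ R := Real.rpow_nonneg hY0.le _
    calc C2 * (Z : ℝ) ^ σ * R * (1 / Y ^ η₁ + 1 / Y ^ η)
        ≤ C2 * (Z : ℝ) ^ σ * R * (Y ^ (-η₁) + Y ^ (-η₁)) := by
          apply mul_le_mul_of_nonneg_left _ (by positivity)
          rw [e1]
          linarith
      _ = 2 * C2 * ((Z : ℝ) ^ σ * R * Y ^ (-η₁)) := by ring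
      _ ≤ 2 * C2 * T := by gcongr
  have b3 : (S3.card : ℝ) ≤ C3 * T := by
    have h := H3 Z R (Y ^ η) (Y ^ η₁) (Y ^ η) S3 hZ1 (hone (by linarith)) (hone hη0.le)
      (hone hη₁0.le) (hone hη0.le) (by
      intro q hq
      rw [hS3, Finset.mem_filter] at hq
      obtain ⟨p1, p2, p3⟩ := hpairs q hq.1 hq.2.1
      exact ⟨(hS q hq.1).1, (hS q hq.1).2.1, hSZ q hq.1, (hS q hq.1).2.2.1, p1, p2, p3, hq.2.2⟩)
    refine h.trans ?_
    have e1 : (Y ^ η₁) ^ 2 / (Y ^ η) ^ (1 / 2 : ℝ) = Y ^ (2 * η₁ - η / 2) := by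
      rw [Real.rpow_sub hY0, ← Real.rpow_mul hY0.le, ← Real.rpow_natCast, ← Real.rpow_mul hY0.le]
      congr 1
      · congr 1
        push_cast
        ring
      · congr 1
        ring
    rw [e1]
    have hRT : (Z : ℝ) ^ σ * R * Y ^ (2 * η₁ - η / 2) ≤ T := by
      calc (Z : ℝ) ^ σ * R * Y ^ (2 * η₁ - η / 2)
          ≤ Y ^ (η / 512) * Y ^ (2 / 3 + 2 * δ₀) * Y ^ (2 * η₁ - η / 2) := by
            rw [hR]; gcongr
        _ = Y ^ (η / 512 + (2 / 3 + 2 * δ₀) + (2 * η₁ - η / 2)) := by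
            rw [← Real.rpow_add hY0, ← Real.rpow_add hY0]
        _ ≤ T := hmono (by rw [hδ₀, hη₁]; linarith)
    calc C3 * (Z : ℝ) ^ σ * R * Y ^ (2 * η₁ - η / 2)
        = C3 * ((Z : ℝ) ^ σ * R * Y ^ (2 * η₁ - η / 2)) := by ring
      _ ≤ C3 * T := by gcongr
  have b4 : (S4.card : ℝ) ≤ 2 * C4 * T := by
    have h := H4 Z U M H S4 hZ1 (hone (by positivity)) (hone (by positivity)) (hone (by positivity)) (by
      intro q hq
      rw [hS4, Finset.mem_filter] at hq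
      obtain ⟨hqS, hlow, n1, n2, n3⟩ := hq
      refine ⟨(hS q hqS).1, (hS q hqS).2.1, hSZ q hqS, (hS q hqS).2.2.1, ?_, n1, n2, n3⟩
      have hbig := (hS q hqS).2.2.2.2.2
      refine le_trans ?_ hbig.le
      have hr1 := one_le_rd (q.1 * q.2 * (q.1 + q.2))
      calc H ≤ Y ^ ((1 - 3 / 2 * δ₀) * (1 / 3 + e)) := by
            rw [hH]
            apply hmono
            rw [hδ₀]
            nlinarith [mul_pos hη0 he0]
        _ = (Y ^ (1 - 3 / 2 * δ₀)) ^ (1 / 3 + e) := by rw [← Real.rpow_mul hY0.le]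
        _ ≤ (rd (q.1 * q.2 * (q.1 + q.2)) : ℝ) ^ (1 / 3 + e) :=
            Real.rpow_le_rpow (Real.rpow_nonneg hY0.le _) hlow (by positivity)
        _ ≤ (rd (q.1 * q.2 * (q.1 + q.2)) : ℝ) ^ (1 / 3 + ε) :=
            Real.rpow_le_rpow_of_exponent_le hr1 (by linarith))
    refine h.trans ?_
    have eU : U ^ 3 = Y ^ (6 * η₂) := by
      rw [hU, ← Real.rpow_natCast, ← Real.rpow_mul hY0.le]
      congr 1
      push_cast
      ring
    have eM : M ^ (5 / 3 : ℝ) = Y ^ (5 / 3 * (1 / 3 + δ₀)) := by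
      rw [hM, ← Real.rpow_mul hY0.le]
      congr 1
      ring
    have eMH : M ^ 3 / H = Y ^ (3 * (1 / 3 + δ₀) - (1 / 3 + e / 2)) := by
      rw [hM, hH, Real.rpow_sub hY0, ← Real.rpow_natCast, ← Real.rpow_mul hY0.le]
      congr 2
      push_cast
      ring
    have c1 : (Z : ℝ) ^ σ * U ^ 3 * M ^ (5 / 3 : ℝ) ≤ T := by
      rw [eU, eM]
      calc (Z : ℝ) ^ σ * Y ^ (6 * η₂) * Y ^ (5 / 3 * (1 / 3 + δ₀))
          ≤ Y ^ (η / 512) * Y ^ (6 * η₂) * Y ^ (5 / 3 * (1 / 3 + δ₀)) := by gcongr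
        _ = Y ^ (η / 512 + 6 * η₂ + 5 / 3 * (1 / 3 + δ₀)) := by
            rw [← Real.rpow_add hY0, ← Real.rpow_add hY0]
        _ ≤ T := hmono (by rw [hδ₀, hη₂] at *; linarith)
    have c2 : (Z : ℝ) ^ σ * U ^ 3 * (M ^ 3 / H) ≤ T := by
      rw [eU, eMH]
      calc (Z : ℝ) ^ σ * Y ^ (6 * η₂) * Y ^ (3 * (1 / 3 + δ₀) - (1 / 3 + e / 2))
          ≤ Y ^ (η / 512) * Y ^ (6 * η₂) * Y ^ (3 * (1 / 3 + δ₀) - (1 / 3 + e / 2)) := by gcongr
        _ = Y ^ (η / 512 + 6 * η₂ + (3 * (1 / 3 + δ₀) - (1 / 3 + e / 2))) := by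
            rw [← Real.rpow_add hY0, ← Real.rpow_add hY0]
        _ ≤ T := hmono (by rw [hδ₀, hη₂] at *; linarith)
    calc C4 * (Z : ℝ) ^ σ * U ^ 3 * (M ^ (5 / 3 : ℝ) + M ^ 3 / H)
        = C4 * ((Z : ℝ) ^ σ * U ^ 3 * M ^ (5 / 3 : ℝ) + (Z : ℝ) ^ σ * U ^ 3 * (M ^ 3 / H)) := by ring
      _ ≤ C4 * (T + T) := by gcongr
      _ = 2 * C4 * T := by ring
  calc (S.card : ℝ) ≤ S1.card + S2.card + S3.card + S4.card := hcard
    _ ≤ C1 * T + 2 * C2 * T + C3 * T + 2 * C4 * T := by linarith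
    _ = (C1 + 2 * C2 + C3 + 2 * C4) * T := by ring

end Pool.Agent.Lib.MP_d8bd92_nt
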