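import Pool.Agent.Lib.MP_d8bd92_nt.CdDefs

set_option autoImplicit false

/-!
Full rational 2-torsion: the parametrisation by the differences of the roots.
-/

namespace Pool.Agent.Lib.MP_d8bd92_nt

open Finset Pool.Agent.Lib.Szpiro WeierstrassCurve WeierstrassCurve.Affine

/-- a point of order 2 gives an integral root -/
theorem K1_root (W : WeierstrassCurve ℤ) (P : (W.baseChange ℚ).toAffine.Point)
    (hP : addOrderOf P = 2) :
    ∃ (x y : ℚ) (h : (W.baseChange ℚ).toAffine.Nonsingular x y) (e : ℤ), P = Point.some x y h ∧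
      (e : ℚ) = 4 * x ∧ 2 * y + (W.a₁ : ℚ) * x + W.a₃ = 0 ∧
      e ^ 3 + W.b₂ * e ^ 2 + 8 * W.b₄ * e + 16 * W.b₆ = 0 := by
  obtain ⟨hP2, hP0⟩ := (addOrderOf_eq_prime_iff (p := 2)).mp hP
  rw [two_nsmul] at hP2
  rcases P with _ | ⟨x, y, h⟩
  · exact absurd rfl hP0
  have hy : 2 * y + (W.a₁ : ℚ) * x + W.a₃ = 0 := by
    by_contra hne
    have hy' : y ≠ (W.baseChange ℚ).toAffine.negY x y := by
      intro he
      apply hne
      rw [negY] at he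
      have e1 : (W.baseChange ℚ).toAffine.a₁ = (W.a₁ : ℚ) := by
        simp [WeierstrassCurve.baseChange]
      have e3 : (W.baseChange ℚ).toAffine.a₃ = (W.a₃ : ℚ) := by
        simp [WeierstrassCurve.baseChange]
      rw [e1, e3] at he
      linear_combination he
    rw [Point.add_self_of_Y_ne hy'] at hP2
    exact Point.some_ne_zero _ hP2
  have heq : y ^ 2 + W.a₁ * x * y + W.a₃ * y = x ^ 3 + W.a₂ * x ^ 2 + W.a₄ * x + (W.a₆ : ℚ) := by
    have := (equation_iff (W := (W.baseChange ℚ).toAffine) x y).mp h.1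
    simpa [WeierstrassCurve.baseChange] using this
  -- the integral root
  have hroot : (4 * x) ^ 3 + (W.b₂ : ℚ) * (4 * x) ^ 2 + 8 * W.b₄ * (4 * x) + 16 * W.b₆ = 0 := by
    simp only [WeierstrassCurve.b₂, WeierstrassCurve.b₄, WeierstrassCurve.b₆]
    push_cast
    have h2 : (2 * y + (W.a₁ : ℚ) * x + W.a₃) ^ 2 = 0 := by rw [hy]; ring
    linear_combination 16 * h2 - 64 * heq
  obtain ⟨e, he⟩ : ∃ e : ℤ, (e : ℚ) = 4 * x := by
    have hint : _root_.IsIntegral ℤ (4 * x) := by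
      refine ⟨Polynomial.X ^ 3 + Polynomial.C W.b₂ * Polynomial.X ^ 2 +
        Polynomial.C (8 * W.b₄) * Polynomial.X + Polynomial.C (16 * W.b₆), ?_, ?_⟩
      · monicity!
      · simp only [Polynomial.eval₂_add, Polynomial.eval₂_mul, Polynomial.eval₂_pow,
          Polynomial.eval₂_X, Polynomial.eval₂_C]
        simp only [eq_intCast, Int.cast_mul, Int.cast_ofNat]
        exact hroot
    obtain ⟨e, he⟩ := IsIntegrallyClosed.isIntegral_iff.mp hint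
    exact ⟨e, by simpa using he⟩
  refine ⟨x, y, h, e, rfl, he, hy, ?_⟩
  rw [← he] at hroot
  exact_mod_cast hroot

/-- the sorted case -/
theorem K1_key (c D : ℤ) (hc : IsCoprime c D) (x y z : ℤ) (hxy : y < x) (hyz : z < y)
    (h4 : c = x ^ 2 + y ^ 2 + z ^ 2 - x * y - y * z - x * z)
    (hD : 256 * D = ((x - y) * (y - z) * (x - z)) ^ 2) :
    ∃ (a b g : ℕ), 1 ≤ a ∧ 1 ≤ b ∧ Nat.Coprime a b ∧ (g = 1 ∨ g = 2) ∧
      c = (g : ℤ) ^ 2 * ((a : ℤ) ^ 2 + a * b + b ^ 2) ∧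
      256 * D = (g : ℤ) ^ 6 * (a * b * (a + b)) ^ 2 := by
  obtain ⟨A, hA⟩ := Int.eq_ofNat_of_zero_le (by omega : 0 ≤ x - y)
  obtain ⟨B, hB⟩ := Int.eq_ofNat_of_zero_le (by omega : 0 ≤ y - z)
  have hA0 : 0 < A := by omega
  have hB0 : 0 < B := by omega
  obtain ⟨a, b, hab, ha, hb⟩ := Nat.exists_coprime A B
  set g := Nat.gcd A B with hg
  have hg0 : 0 < g := Nat.gcd_pos_of_pos_left B hA0
  have ha0 : 1 ≤ a := by
    rcases Nat.eq_zero_or_pos a with h | h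
    · rw [h, zero_mul] at ha; omega
    · exact h
  have hb0 : 1 ≤ b := by
    rcases Nat.eq_zero_or_pos b with h | h
    · rw [h, zero_mul] at hb; omega
    · exact h
  have hxy' : x - y = (g : ℤ) * a := by
    rw [hA, ha]; push_cast; ring
  have hyz' : y - z = (g : ℤ) * b := by
    rw [hB, hb]; push_cast; ring
  have hc' : c = (g : ℤ) ^ 2 * ((a : ℤ) ^ 2 + a * b + b ^ 2) := by
    have e1 : x = y + (g : ℤ) * a := by linarith
    have e2 : z = y - (g : ℤ) * b := by linarith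
    rw [h4, e1, e2]
    ring
  have hD' : 256 * D = (g : ℤ) ^ 6 * (a * b * (a + b)) ^ 2 := by
    rw [hD, show x - z = (x - y) + (y - z) by ring, hxy', hyz']
    ring
  refine ⟨a, b, g, ha0, hb0, hab, ?_, hc', hD'⟩
  -- no odd prime divides g
  have hunit : ∀ p : ℕ, p.Prime → (p : ℤ) ∣ c → (p : ℤ) ∣ D → False := by
    intro p hp h1 h2
    exact (Nat.prime_iff_prime_int.mp hp).not_isUnit (hc.isUnit_of_dvd' h1 h2)
  have hprime : ∀ {p : ℕ}, p.Prime → p ∣ g → p = 2 := by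
    intro p hp hpg
    by_contra hne
    have h1 : (p : ℤ) ∣ (g : ℤ) := by exact_mod_cast hpg
    have h2 : (p : ℤ) ∣ c := by
      rw [hc']
      exact Dvd.dvd.mul_right (h1.trans (dvd_pow_self _ (by norm_num))) _
    have h3 : (p : ℤ) ∣ 256 * D := by
      rw [hD']
      exact Dvd.dvd.mul_right (h1.trans (dvd_pow_self _ (by norm_num))) _
    have hpZ := Nat.prime_iff_prime_int.mp hp
    rcases hpZ.dvd_or_dvd h3 with h4 | h4
    · have h5 : p ∣ 2 ^ 8 := by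
        have : p ∣ 256 := by exact_mod_cast h4
        simpa using this
      have h6 := hp.dvd_of_dvd_pow h5
      exact hne ((Nat.prime_dvd_prime_iff_eq hp Nat.prime_two).1 h6)
    · exact hunit p hp h2 h4
  have h4g : ¬ 4 ∣ g := by
    rintro ⟨h, hh⟩
    have hgz : (g : ℤ) = 4 * h := by rw [hh]; push_cast; ring
    have h2 : ((2 : ℕ) : ℤ) ∣ c := by
      rw [hc', hgz]
      exact ⟨8 * (h : ℤ) ^ 2 * ((a : ℤ) ^ 2 + a * b + b ^ 2), by push_cast; ring⟩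
    have h3 : ((2 : ℕ) : ℤ) ∣ D := by
      refine ⟨8 * (h : ℤ) ^ 6 * (a * b * (a + b)) ^ 2, ?_⟩
      rw [hgz] at hD'
      push_cast
      linarith
    exact hunit 2 Nat.prime_two h2 h3
  have hpow := Nat.eq_prime_pow_of_unique_prime_dvd hg0.ne' hprime
  set k := g.primeFactorsList.length with hk
  rcases k with _ | _ | k
  · left; simpa using hpow
  · right; simpa using hpow
  · exfalso
    apply h4g
    rw [hpow]
    exact ⟨2 ^ k, by ring⟩

/-- the parametrisation by differences of the roots -/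
theorem full_two_param (W : WeierstrassCurve ℤ) (hΔ : W.Δ ≠ 0) (hc : IsCoprime W.c₄ W.Δ)
    (h2 : ∃ S T : (W.baseChange ℚ).toAffine.Point, addOrderOf S = 2 ∧ addOrderOf T = 2 ∧ S ≠ T) :
    ∃ (a b g : ℕ), 1 ≤ a ∧ 1 ≤ b ∧ Nat.Coprime a b ∧ (g = 1 ∨ g = 2) ∧
      W.c₄ = (g : ℤ) ^ 2 * ((a : ℤ) ^ 2 + a * b + b ^ 2) ∧
      256 * W.Δ = (g : ℤ) ^ 6 * (a * b * (a + b)) ^ 2 := by
  obtain ⟨S, T, hS, hT, hST⟩ := h2
  obtain ⟨x₁, y₁, h₁, e₁, hS', he₁, hy₁, hr₁⟩ := K1_root W S hS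
  obtain ⟨x₂, y₂, h₂, e₂, hT', he₂, hy₂, hr₂⟩ := K1_root W T hT
  have hne : e₁ ≠ e₂ := by
    intro h
    apply hST
    have hx : x₁ = x₂ := by
      have : (4 : ℚ) * x₁ = 4 * x₂ := by rw [← he₁, ← he₂, h]
      linarith
    subst hx
    have hy : y₁ = y₂ := by linarith
    subst hy
    rw [hS', hT']
  obtain ⟨e₃, he₃⟩ : ∃ e₃ : ℤ, e₃ = -W.b₂ - e₁ - e₂ := ⟨_, rfl⟩
  have hb2 : W.b₂ = -(e₁ + e₂ + e₃) := by rw [he₃]; ring
  have hb4 : 8 * W.b₄ = e₁ * e₂ + e₁ * e₃ + e₂ * e₃ := by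
    have h : (e₁ - e₂) * (8 * W.b₄ - (e₁ * e₂ + e₁ * e₃ + e₂ * e₃)) = 0 := by
      rw [he₃]
      linear_combination hr₁ - hr₂
    rcases mul_eq_zero.1 h with h | h
    · exact absurd (sub_eq_zero.1 h) hne
    · linarith
  have hb6 : 16 * W.b₆ = -(e₁ * e₂ * e₃) := by
    rw [hb2, hb4] at hr₁
    linear_combination hr₁
  have hc4 : W.c₄ = e₁ ^ 2 + e₂ ^ 2 + e₃ ^ 2 - e₁ * e₂ - e₂ * e₃ - e₁ * e₃ := by
    rw [WeierstrassCurve.c₄, hb2]
    linear_combination -3 * hb4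
  have hD : 256 * W.Δ = ((e₁ - e₂) * (e₂ - e₃) * (e₁ - e₃)) ^ 2 := by
    have h8 := W.b_relation
    have h256 : 256 * W.Δ = W.b₂ ^ 2 * (8 * W.b₄) ^ 2 - 4 * (8 * W.b₄) ^ 3
        - 4 * W.b₂ ^ 3 * (16 * W.b₆) - 27 * (16 * W.b₆) ^ 2
        + 18 * W.b₂ * (8 * W.b₄) * (16 * W.b₆) := by
      rw [WeierstrassCurve.Δ]
      linear_combination (-64 * W.b₂ ^ 2) * h8
    rw [h256, hb4, hb6, hb2]
    ring
  have h13 : e₁ ≠ e₃ := by
    intro h
    apply hΔ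
    rw [h] at hD
    simp at hD
    exact hD
  have h23 : e₂ ≠ e₃ := by
    intro h
    apply hΔ
    rw [h] at hD
    simp at hD
    exact hD
  have hsymm : ∀ x y z : ℤ, y < x → z < y →
      W.c₄ = x ^ 2 + y ^ 2 + z ^ 2 - x * y - y * z - x * z →
      256 * W.Δ = ((x - y) * (y - z) * (x - z)) ^ 2 →
      ∃ (a b g : ℕ), 1 ≤ a ∧ 1 ≤ b ∧ Nat.Coprime a b ∧ (g = 1 ∨ g = 2) ∧
      W.c₄ = (g : ℤ) ^ 2 * ((a : ℤ) ^ 2 + a * b + b ^ 2) ∧
      256 * W.Δ = (g : ℤ) ^ 6 * (a * b * (a + b)) ^ 2 :=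
    fun x y z hxy hyz h4 hD' => K1_key W.c₄ W.Δ hc x y z hxy hyz h4 hD'
  rcases lt_or_gt_of_ne hne with h12 | h12 <;> rcases lt_or_gt_of_ne h13 with h13 | h13 <;>
    rcases lt_or_gt_of_ne h23 with h23 | h23
  · exact hsymm e₃ e₂ e₁ h23 h12 (by rw [hc4]; ring) (by rw [hD]; ring)
  · exact hsymm e₂ e₃ e₁ h23 h13 (by rw [hc4]; ring) (by rw [hD]; ring)
  · exact absurd (h12.trans h23) (not_lt.2 h13.le)
  · exact hsymm e₂ e₁ e₃ h12 h13 (by rw [hc4]; ring) (by rw [hD]; ring)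
  · exact hsymm e₃ e₁ e₂ h13 h12 (by rw [hc4]; ring) (by rw [hD]; ring)
  · exact absurd (h12.trans_le h13.le) (not_lt.2 h23.le)
  · exact hsymm e₁ e₃ e₂ h13 h23 (by rw [hc4]; ring) (by rw [hD]; ring)
  · exact hsymm e₁ e₂ e₃ h12 h23 (by rw [hc4]) (by rw [hD])

end Pool.Agent.Lib.MP_d8bd92_nt
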