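import Pool.Agent.Lib.MP_d8bd92_nt.CdDefs
import Pool.Agent.Lib.MP_d8bd92_nt.CdK1
import Pool.Agent.Lib.MP_d8bd92_nt.CdJ

set_option autoImplicit false

/-!
Row K2: the curves with full 2-torsion from the pairs `(a, b)`.
-/

namespace Pool.Agent.Lib.MP_d8bd92_nt

open Finset Pool.Agent.Lib.Szpiro


/-- the pair `(c₄, c₆)` of the data `(a, b)`, `g`, sign -/
def cdMap (q : (ℕ × ℕ) × ℕ × ℤ) : ℤ × ℤ :=
  ((q.2.1 : ℤ) ^ 2 * ((q.1.1 : ℤ) ^ 2 + q.1.1 * q.1.2 + q.1.2 ^ 2),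
    q.2.2 * (((q.2.1 : ℤ) ^ 3 * (((q.1.1 : ℤ) - q.1.2) * (2 * q.1.1 + q.1.2) *
      (q.1.1 + 2 * q.1.2))) / 2))

theorem cd_c6 (W : WeierstrassCurve ℤ) (a b g : ℕ)
    (h4 : W.c₄ = (g : ℤ) ^ 2 * ((a : ℤ) ^ 2 + a * b + b ^ 2))
    (hD : 256 * W.Δ = (g : ℤ) ^ 6 * (a * b * (a + b)) ^ 2) :
    ∃ s ∈ ({1, -1} : Finset ℤ), (W.c₄, W.c₆) = cdMap ((a, b), g, s) := by
  have hrel := W.c_relation
  set X : ℤ := (g : ℤ) ^ 3 * (((a : ℤ) - b) * (2 * a + b) * (a + 2 * b)) with hX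
  have hsq : (2 * W.c₆) ^ 2 = X ^ 2 := by
    have h1 : (2 * W.c₆) ^ 2 = 4 * W.c₄ ^ 3 - 27 * (256 * W.Δ) := by linarith
    rw [h1, h4, hD, hX]
    ring
  rcases sq_eq_sq_iff_eq_or_eq_neg.1 hsq with h | h
  · refine ⟨1, by simp, ?_⟩
    have h6 : W.c₆ = X / 2 := by omega
    rw [h6, h4]
    simp only [cdMap, one_mul]
    rfl
  · refine ⟨-1, by simp, ?_⟩
    have h6 : W.c₆ = -1 * (X / 2) := by omega
    rw [h6, h4]
    simp only [cdMap]
    rfl

/-- the cover of `FullTwoSet P` by the pairs `(a, b)` -/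
theorem cd_cover (P : ℕ → ℕ → Prop) (S : Finset (ℕ × ℕ))
    (hS : ∀ a b N D : ℕ, 1 ≤ a → 1 ≤ b → Nat.Coprime a b → P N D → 1 ≤ N →
      rd (a * b * (a + b)) ≤ 2 * N → (a + b) ^ 4 ≤ 1024 * D → 64 * D ≤ (a + b) ^ 6 →
      (a, b) ∈ S) :
    (FullTwoSet P).Finite ∧ (FullTwoSet P).ncard ≤ 4 * S.card := by
  classical
  set F : Finset (ℤ × ℤ) := (S ×ˢ (({1, 2} : Finset ℕ) ×ˢ ({1, -1} : Finset ℤ))).image cdMap with hF
  have hsub : FullTwoSet P ⊆ (F : Set (ℤ × ℤ)) := by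
    rintro ⟨c4, c6⟩ ⟨W, h4, h6, hΔ, hc, h2, hP⟩
    obtain ⟨a, b, g, ha, hb, hab, hg, e4, eD⟩ := full_two_param W hΔ hc h2
    obtain ⟨s, hs, hcd⟩ := cd_c6 W a b g e4 eD
    simp only at h4 h6
    rw [← h4, ← h6, hcd, hF, Finset.mem_coe]
    refine Finset.mem_image_of_mem _ ?_
    simp only [Finset.mem_product]
    refine ⟨?_, ?_, hs⟩
    · -- natural number form of the discriminant
      have hDn : 256 * W.Δ.natAbs = g ^ 6 * (a * b * (a + b)) ^ 2 := by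
        have h1 : (256 * W.Δ).natAbs = ((g : ℤ) ^ 6 * (a * b * (a + b)) ^ 2).natAbs := by rw [eD]
        rw [Int.natAbs_mul] at h1
        have h3 : ((g : ℤ) ^ 6 * (a * b * (a + b)) ^ 2) =
          ((g ^ 6 * (a * b * (a + b)) ^ 2 : ℕ) : ℤ) := by push_cast; ring
        rw [h3, Int.natAbs_natCast] at h1
        exact h1
      have hg1 : 1 ≤ g ^ 6 := by rcases hg with rfl | rfl <;> norm_num
      have hg2 : g ^ 6 ≤ 64 := by rcases hg with rfl | rfl <;> norm_num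
      have hnz : a * b * (a + b) ≠ 0 := by positivity
      refine hS a b _ _ ha hb hab hP (rd_pos W.Δ.natAbs) ?_ ?_ ?_
      · change rd (a * b * (a + b)) ≤ 2 * rd W.Δ.natAbs
        have hΔn : W.Δ.natAbs ≠ 0 := Int.natAbs_ne_zero.2 hΔ
        calc rd (a * b * (a + b)) ≤ rd (2 * W.Δ.natAbs) := by
              apply rd_mono' (mul_ne_zero two_ne_zero hΔn)
              intro p hp hpd
              have h1 : p ∣ 256 * W.Δ.natAbs := by
                rw [hDn]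
                exact Dvd.dvd.mul_left (dvd_pow hpd two_ne_zero) _
              rcases (Nat.Prime.dvd_mul hp).1 h1 with h | h
              · have : (256 : ℕ) = 2 ^ 8 := by norm_num
                rw [this] at h
                exact Dvd.dvd.mul_right (hp.dvd_of_dvd_pow h) _
              · exact Dvd.dvd.mul_left h _
          _ ≤ rd 2 * rd W.Δ.natAbs := rd_mul_le _ _ two_ne_zero hΔn
          _ = 2 * rd W.Δ.natAbs := by
              have h2' : rd 2 = 2 := by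
                have := rd_prime_pow 2 1 Nat.prime_two one_ne_zero
                simpa using this
              rw [h2']
      · -- `(a+b)^4 ≤ 1024 D`
        have h1 : a + b ≤ 2 * (a * b) := by
          nlinarith [mul_le_mul ha hb (by omega) (by omega), Nat.mul_le_mul ha (le_refl b),
            Nat.mul_le_mul (le_refl a) hb]
        have h2' : (a + b) ^ 2 ≤ 2 * (a * b * (a + b)) := by
          calc (a + b) ^ 2 = (a + b) * (a + b) := by ring
            _ ≤ (2 * (a * b)) * (a + b) := Nat.mul_le_mul_right _ h1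
            _ = 2 * (a * b * (a + b)) := by ring
        calc (a + b) ^ 4 = ((a + b) ^ 2) ^ 2 := by ring
          _ ≤ (2 * (a * b * (a + b))) ^ 2 := Nat.pow_le_pow_left h2' 2
          _ = 4 * (1 * (a * b * (a + b)) ^ 2) := by ring
          _ ≤ 4 * (g ^ 6 * (a * b * (a + b)) ^ 2) :=
              Nat.mul_le_mul_left _ (Nat.mul_le_mul_right _ hg1)
          _ = 4 * (256 * W.Δ.natAbs) := by rw [hDn]
          _ = 1024 * W.Δ.natAbs := by ring
      · -- `64 D ≤ (a+b)^6`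
        have h1 : 4 * (a * b) ≤ (a + b) ^ 2 := by
          have : (4 * ((a : ℤ) * b)) ≤ ((a : ℤ) + b) ^ 2 := by nlinarith [sq_nonneg ((a : ℤ) - b)]
          exact_mod_cast this
        have h2' : 4 * (a * b * (a + b)) ≤ (a + b) ^ 3 := by
          calc 4 * (a * b * (a + b)) = 4 * (a * b) * (a + b) := by ring
            _ ≤ (a + b) ^ 2 * (a + b) := Nat.mul_le_mul_right _ h1
            _ = (a + b) ^ 3 := by ring
        have h3 : 16 * (a * b * (a + b)) ^ 2 ≤ (a + b) ^ 6 := by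
          calc 16 * (a * b * (a + b)) ^ 2 = (4 * (a * b * (a + b))) ^ 2 := by ring
            _ ≤ ((a + b) ^ 3) ^ 2 := Nat.pow_le_pow_left h2' 2
            _ = (a + b) ^ 6 := by ring
        have h4' : 256 * W.Δ.natAbs ≤ 64 * (a * b * (a + b)) ^ 2 := by
          rw [hDn]
          exact Nat.mul_le_mul_right _ hg2
        omega
    · rcases hg with rfl | rfl <;> simp
  refine ⟨(Finset.finite_toSet F).subset hsub, ?_⟩
  calc (FullTwoSet P).ncard ≤ (F : Set (ℤ × ℤ)).ncard := Set.ncard_le_ncard hsub F.finite_toSet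
    _ = F.card := Set.ncard_coe_finset F
    _ ≤ (S ×ˢ (({1, 2} : Finset ℕ) ×ˢ ({1, -1} : Finset ℤ))).card := Finset.card_image_le
    _ = 4 * S.card := by
        rw [Finset.card_product, Finset.card_product]
        have e1 : ({1, 2} : Finset ℕ).card = 2 := by decide
        have e2 : ({1, -1} : Finset ℤ).card = 2 := by decide
        rw [e1, e2]
        ring

/-- finitely many curves of bounded discriminant -/
theorem full_two_finite (T : ℝ) : (FullTwoSet (fun _ D => (D : ℝ) ≤ T)).Finite := by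
  classical
  refine (cd_cover _ (Icc 1 ⌊1024 * T⌋₊ ×ˢ Icc 1 ⌊1024 * T⌋₊) ?_).1
  intro a b N D ha hb _ hP _ _ h4 _
  have h1 : a + b ≤ (a + b) ^ 4 := Nat.le_self_pow (by norm_num) _
  have h2 : a + b ≤ ⌊1024 * T⌋₊ := by
    apply Nat.le_floor
    calc ((a + b : ℕ) : ℝ) ≤ ((1024 * D : ℕ) : ℝ) := by exact_mod_cast h1.trans h4
      _ = 1024 * (D : ℝ) := by push_cast; ring
      _ ≤ 1024 * T := by
        have : (D : ℝ) ≤ T := hP
        linarith
  rw [Finset.mem_product, Finset.mem_Icc, Finset.mem_Icc]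
  exact ⟨⟨ha, by omega⟩, ⟨hb, by omega⟩⟩

theorem full_two_upper (κ ε : ℝ) (hκ : 0 < κ) (hε : 0 < ε) : ∃ C δ : ℝ, 1 ≤ C ∧ 0 < δ ∧ δ ≤ 1 / 8 ∧
    ∀ Y : ℝ, 1 ≤ Y →
    (FullTwoSet (fun N D => (N : ℝ) ≤ Y ∧ (N : ℝ) ^ (2 + ε) < (D : ℝ) ∧ (D : ℝ) ≤ Y ^ κ)).Finite ∧
    ((FullTwoSet (fun N D => (N : ℝ) ≤ Y ∧ (N : ℝ) ^ (2 + ε) < (D : ℝ) ∧
      (D : ℝ) ≤ Y ^ κ)).ncard : ℝ) ≤ C * Y ^ (2 / 3 - δ) := by
  classical
  set ε' : ℝ := min (ε / 6) (1 / 2) with hε'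
  have hε'0 : 0 < ε' := lt_min (by linarith) (by norm_num)
  have hε'1 : ε' ≤ ε / 6 := min_le_left _ _
  have hε'2 : ε' ≤ 1 / 2 := min_le_right _ _
  set κ' : ℝ := κ / 4 + 3 with hκ'
  have hκ'0 : 0 < κ' := by positivity
  obtain ⟨C, δ, hC, hδ, hδ', hmain⟩ := abc_by_radical κ' ε' hκ'0 hε'0
  refine ⟨8 * C, δ, by linarith, hδ, hδ', ?_⟩
  intro Y hY
  have hY0 : 0 < Y := by linarith
  have h2Y : 1 ≤ 2 * Y := by linarith
  set M : ℕ := ⌊(2 * Y) ^ κ'⌋₊ with hM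
  set S : Finset (ℕ × ℕ) := (Icc 1 M ×ˢ Icc 1 M).filter (fun q : ℕ × ℕ =>
    1 ≤ q.1 ∧ 1 ≤ q.2 ∧ Nat.Coprime q.1 q.2 ∧ ((q.1 + q.2 : ℕ) : ℝ) ≤ (2 * Y) ^ κ' ∧
      (rd (q.1 * q.2 * (q.1 + q.2)) : ℝ) ≤ 2 * Y ∧
      (rd (q.1 * q.2 * (q.1 + q.2)) : ℝ) ^ (1 / 3 + ε') < ((q.1 + q.2 : ℕ) : ℝ)) with hS
  have hcov := cd_cover (fun N D => (N : ℝ) ≤ Y ∧ (N : ℝ) ^ (2 + ε) < (D : ℝ) ∧
    (D : ℝ) ≤ Y ^ κ) S ?_
  · refine ⟨hcov.1, ?_⟩
    have h1 : (S.card : ℝ) ≤ C * (2 * Y) ^ (2 / 3 - δ) := by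
      apply hmain (2 * Y) S h2Y
      intro q hq
      exact (Finset.mem_filter.1 hq).2
    have h2 : (2 * Y) ^ (2 / 3 - δ) ≤ 2 * Y ^ (2 / 3 - δ) := by
      rw [Real.mul_rpow (by norm_num) hY0.le]
      apply mul_le_mul_of_nonneg_right _ (Real.rpow_nonneg hY0.le _)
      calc (2 : ℝ) ^ (2 / 3 - δ) ≤ (2 : ℝ) ^ (1 : ℝ) :=
            Real.rpow_le_rpow_of_exponent_le (by norm_num) (by linarith)
        _ = 2 := Real.rpow_one 2
    calc ((FullTwoSet (fun N D => (N : ℝ) ≤ Y ∧ (N : ℝ) ^ (2 + ε) < (D : ℝ) ∧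
      (D : ℝ) ≤ Y ^ κ)).ncard : ℝ) ≤ ((4 * S.card : ℕ) : ℝ) := by exact_mod_cast hcov.2
      _ = 4 * (S.card : ℝ) := by push_cast; ring
      _ ≤ 4 * (C * (2 * Y ^ (2 / 3 - δ))) := by
          have := h1.trans (mul_le_mul_of_nonneg_left h2 (by linarith))
          linarith
      _ = 8 * C * Y ^ (2 / 3 - δ) := by ring
  · intro a b N D ha hb hab hP hN hrd h4 h6
    obtain ⟨hP1, hP2, hP3⟩ := hP
    have hN1 : (1 : ℝ) ≤ (N : ℝ) := by exact_mod_cast hN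
    have hab0 : (0 : ℝ) < ((a + b : ℕ) : ℝ) := by
      have : 0 < a + b := by omega
      exact_mod_cast this
    -- `a + b ≤ (2Y)^κ'`
    have hsize : ((a + b : ℕ) : ℝ) ≤ (2 * Y) ^ κ' := by
      have h1 : (((a + b : ℕ) : ℝ)) ^ 4 ≤ 1024 * Y ^ κ := by
        have : (((a + b) ^ 4 : ℕ) : ℝ) ≤ ((1024 * D : ℕ) : ℝ) := by exact_mod_cast h4
        push_cast at this ⊢
        nlinarith [this, hP3]
      have h2 : 1024 * Y ^ κ ≤ ((2 * Y) ^ κ') ^ 4 := by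
        have e1 : ((2 * Y) ^ κ') ^ 4 = (2 * Y) ^ (κ + 12) := by
          rw [← Real.rpow_natCast, ← Real.rpow_mul (by linarith)]
          congr 1
          rw [hκ']
          push_cast
          ring
        rw [e1, Real.rpow_add (by linarith), Real.mul_rpow (by norm_num) hY0.le]
        have e2 : (1 : ℝ) ≤ (2 : ℝ) ^ κ := Real.one_le_rpow (by norm_num) hκ.le
        have e3 : (4096 : ℝ) ≤ (2 * Y) ^ (12 : ℝ) := by
          have : (2 : ℝ) ^ (12 : ℝ) ≤ (2 * Y) ^ (12 : ℝ) :=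
            Real.rpow_le_rpow (by norm_num) (by linarith) (by norm_num)
          have e4 : (2 : ℝ) ^ (12 : ℝ) = 4096 := by
            rw [show (12 : ℝ) = ((12 : ℕ) : ℝ) by norm_num, Real.rpow_natCast]
            norm_num
          rwa [e4] at this
        have e5 : 0 < Y ^ κ := Real.rpow_pos_of_pos hY0 _
        calc 1024 * Y ^ κ ≤ (1 * Y ^ κ) * 4096 := by linarith
          _ ≤ ((2 : ℝ) ^ κ * Y ^ κ) * (2 * Y) ^ (12 : ℝ) := by
            apply mul_le_mul _ e3 (by norm_num) (by positivity)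
            exact mul_le_mul_of_nonneg_right e2 e5.le
      exact le_of_pow_le_pow_left₀ (by norm_num) (by positivity) (h1.trans h2)
    rw [hS, Finset.mem_filter, Finset.mem_product, Finset.mem_Icc, Finset.mem_Icc]
    have hM' : a + b ≤ M := Nat.le_floor hsize
    have hrdR : (rd (a * b * (a + b)) : ℝ) ≤ 2 * N := by exact_mod_cast hrd
    refine ⟨⟨⟨ha, by omega⟩, ⟨hb, by omega⟩⟩, ha, hb, hab, hsize, by linarith, ?_⟩
    -- the radical is small
    have hkey : 2 * (N : ℝ) ^ (1 / 3 + ε / 6) < ((a + b : ℕ) : ℝ) := by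
      by_contra hcon
      push Not at hcon
      have h1 : (((a + b : ℕ) : ℝ)) ^ 6 ≤ (2 * (N : ℝ) ^ (1 / 3 + ε / 6)) ^ 6 :=
        pow_le_pow_left₀ hab0.le hcon 6
      have e1 : (2 * (N : ℝ) ^ (1 / 3 + ε / 6)) ^ 6 = 64 * (N : ℝ) ^ (2 + ε) := by
        rw [mul_pow, ← Real.rpow_natCast ((N : ℝ) ^ (1 / 3 + ε / 6)), ← Real.rpow_mul (by linarith)]
        norm_num
        congr 1
        ring
      have h2 : (64 * (D : ℝ)) ≤ (((a + b : ℕ) : ℝ)) ^ 6 := by exact_mod_cast h6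
      rw [e1] at h1
      linarith
    calc (rd (a * b * (a + b)) : ℝ) ^ (1 / 3 + ε') ≤ (2 * (N : ℝ)) ^ (1 / 3 + ε') :=
          Real.rpow_le_rpow (by positivity) hrdR (by linarith)
      _ = (2 : ℝ) ^ (1 / 3 + ε') * (N : ℝ) ^ (1 / 3 + ε') :=
          Real.mul_rpow (by norm_num) (by linarith)
      _ ≤ 2 * (N : ℝ) ^ (1 / 3 + ε / 6) := by
          apply mul_le_mul _ _ (by positivity) (by norm_num)
          · calc (2 : ℝ) ^ (1 / 3 + ε') ≤ (2 : ℝ) ^ (1 : ℝ) :=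
                Real.rpow_le_rpow_of_exponent_le (by norm_num) (by linarith)
              _ = 2 := Real.rpow_one 2
          · exact Real.rpow_le_rpow_of_exponent_le hN1 (by linarith)
      _ < ((a + b : ℕ) : ℝ) := hkey

end Pool.Agent.Lib.MP_d8bd92_nt
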