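import Pool.Agent.Lib.MP_d8bd92_nt.CdDefs
import Pool.Agent.Lib.MP_d8bd92_nt.CdK2

set_option autoImplicit false

/-!
Many semistable curves with full rational 2-torsion and conductor at most `Y`.
-/

namespace Pool.Agent.Lib.MP_d8bd92_nt

open Finset Pool.Agent.Lib.Szpiro WeierstrassCurve WeierstrassCurve.Affine


/-- the curve with differences of roots `16 s`, `4 t + 1` -/
def K3W (s t : ℤ) : WeierstrassCurve ℤ := ⟨1, t - 4 * s, 0, -(s * (4 * t + 1)), 0⟩

theorem K3W_c₄ (s t : ℤ) : (K3W s t).c₄ =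
    (16 * s) ^ 2 + 16 * s * (4 * t + 1) + (4 * t + 1) ^ 2 := by
  simp only [K3W, WeierstrassCurve.c₄, WeierstrassCurve.b₂, WeierstrassCurve.b₄]
  ring

theorem K3W_Δ (s t : ℤ) : (K3W s t).Δ =
    (s * (4 * t + 1) * (16 * s + (4 * t + 1))) ^ 2 := by
  simp only [K3W, WeierstrassCurve.Δ, WeierstrassCurve.b₂, WeierstrassCurve.b₄,
    WeierstrassCurve.b₆, WeierstrassCurve.b₈]
  ring

/-- few pairs are not coprime -/
theorem K3_bad (X : ℕ) : ((((Icc 1 X ×ˢ Icc 1 X).filter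
    (fun q : ℕ × ℕ => ¬ Nat.Coprime q.1 (4 * q.2 + 1))).card : ℕ) : ℝ) ≤ (X : ℝ) ^ 2 / 2 := by
  classical
  have hsub : (Icc 1 X ×ˢ Icc 1 X).filter (fun q : ℕ × ℕ => ¬ Nat.Coprime q.1 (4 * q.2 + 1)) ⊆
      (Icc 1 X).biUnion (fun k => ((Icc 1 X).filter (fun s => 2 * k + 1 ∣ s)) ×ˢ
        ((Icc 1 X).filter (fun t => 2 * k + 1 ∣ 4 * t + 1))) := by
    intro q hq
    rw [Finset.mem_filter, Finset.mem_product] at hq
    obtain ⟨⟨h1, h2⟩, h3⟩ := hq
    obtain ⟨p, hp, hp1, hp2⟩ := Nat.Prime.not_coprime_iff_dvd.1 h3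
    have hodd : p % 2 = 1 := by
      rcases hp.eq_two_or_odd with h | h
      · subst h; omega
      · exact h
    have hp3 := hp.two_le
    have hle : p ≤ q.1 := Nat.le_of_dvd (by have := Finset.mem_Icc.1 h1; omega) hp1
    have hX := (Finset.mem_Icc.1 h1).2
    refine Finset.mem_biUnion.2 ⟨p / 2, Finset.mem_Icc.2 ⟨by omega, by omega⟩, ?_⟩
    have he : 2 * (p / 2) + 1 = p := by omega
    rw [he, Finset.mem_product, Finset.mem_filter, Finset.mem_filter]
    exact ⟨⟨h1, hp1⟩, h2, hp2⟩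
  have hcount : ∀ p : ℕ, 1 ≤ p → p % 2 = 1 →
      ((((Icc 1 X).filter (fun s => p ∣ s)) ×ˢ
        ((Icc 1 X).filter (fun t => p ∣ 4 * t + 1))).card : ℝ) ≤ 2 * (X : ℝ) ^ 2 / (p : ℝ) ^ 2 := by
    intro p hp hodd
    rw [Finset.card_product]
    have hA : ((Icc 1 X).filter (fun s => p ∣ s)).card ≤ X / p := by
      have : ((Icc 1 X).filter (fun s => p ∣ s)).card ≤ (Icc 1 (X / p)).card := by
        refine Finset.card_le_card_of_injOn (fun s => s / p) ?_ ?_
        · intro s hs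
          have hs' := Finset.mem_filter.1 (Finset.mem_coe.1 hs)
          obtain ⟨c, hc⟩ := hs'.2
          have h1 := Finset.mem_Icc.1 hs'.1
          have hdiv : s / p = c := by rw [hc]; exact Nat.mul_div_cancel_left c hp
          simp only [Finset.coe_Icc, Set.mem_Icc]
          rw [hdiv]
          constructor
          · by_contra h0
            have : c = 0 := by omega
            rw [this, mul_zero] at hc
            omega
          · rw [Nat.le_div_iff_mul_le hp]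
            rw [mul_comm, ← hc]; exact h1.2
        · intro s hs s' hs' h
          have h1 := (Finset.mem_filter.1 (Finset.mem_coe.1 hs)).2
          have h2 := (Finset.mem_filter.1 (Finset.mem_coe.1 hs')).2
          have h' : s / p = s' / p := h
          rw [← Nat.mul_div_cancel' h1, ← Nat.mul_div_cancel' h2, h']
      simpa using this
    have hB : ((Icc 1 X).filter (fun t => p ∣ 4 * t + 1)).card ≤ X / p + 1 := by
      have : ((Icc 1 X).filter (fun t => p ∣ 4 * t + 1)).card ≤ (range (X / p + 1)).card := by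
        refine Finset.card_le_card_of_injOn (fun s => s / p) ?_ ?_
        · intro s hs
          have hs' := Finset.mem_filter.1 (Finset.mem_coe.1 hs)
          have h1 := Finset.mem_Icc.1 hs'.1
          simp only [Finset.coe_range, Set.mem_Iio]
          exact Nat.lt_succ_of_le (Nat.div_le_div_right h1.2)
        · intro s hs s' hs' h
          have h1 := (Finset.mem_filter.1 (Finset.mem_coe.1 hs)).2
          have h2 := (Finset.mem_filter.1 (Finset.mem_coe.1 hs')).2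
          have h' : s / p = s' / p := h
          have hmod : s ≡ s' [MOD p] := by
            have h3 : (4 * s + 1) ≡ (4 * s' + 1) [MOD p] :=
              ((Nat.modEq_zero_iff_dvd).2 h1).trans ((Nat.modEq_zero_iff_dvd).2 h2).symm
            have h4 : 4 * s ≡ 4 * s' [MOD p] := Nat.ModEq.add_right_cancel' 1 h3
            have hc : Nat.gcd p 4 = 1 := by
              have h5 : Nat.Coprime p 2 := Nat.coprime_two_right.2 (Nat.odd_iff.2 hodd)
              have h6 : Nat.Coprime p (2 ^ 2) := Nat.Coprime.pow_right 2 h5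
              simpa using h6
            exact Nat.ModEq.cancel_left_of_coprime hc h4
          rw [← Nat.div_add_mod s p, ← Nat.div_add_mod s' p, h', hmod]
      simpa using this
    have hp0 : (0 : ℝ) < p := by exact_mod_cast hp
    rcases lt_or_ge X p with hlt | hge
    · have h0 : X / p = 0 := Nat.div_eq_of_lt hlt
      rw [h0] at hA
      have : ((Icc 1 X).filter (fun s => p ∣ s)).card = 0 := by omega
      rw [this, zero_mul, Nat.cast_zero]
      positivity
    · have h1 : ((X / p : ℕ) : ℝ) ≤ (X : ℝ) / p := Nat.cast_div_le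
      have h2 : (1 : ℝ) ≤ (X : ℝ) / p := by
        rw [le_div_iff₀ hp0]
        exact_mod_cast (by omega : 1 * p ≤ X)
      have hA' : (((Icc 1 X).filter (fun s => p ∣ s)).card : ℝ) ≤ (X : ℝ) / p :=
        le_trans (by exact_mod_cast hA) h1
      have hB' : (((Icc 1 X).filter (fun t => p ∣ 4 * t + 1)).card : ℝ) ≤ 2 * ((X : ℝ) / p) := by
        have : (((Icc 1 X).filter (fun t => p ∣ 4 * t + 1)).card : ℝ) ≤ ((X / p : ℕ) : ℝ) + 1 := by
          exact_mod_cast hB
        linarith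
      push_cast
      calc (((Icc 1 X).filter (fun s => p ∣ s)).card : ℝ) *
            (((Icc 1 X).filter (fun t => p ∣ 4 * t + 1)).card : ℝ)
          ≤ ((X : ℝ) / p) * (2 * ((X : ℝ) / p)) := by gcongr
        _ = 2 * (X : ℝ) ^ 2 / (p : ℝ) ^ 2 := by field_simp
  have hstep : ∀ n : ℕ, ∑ k ∈ Icc 1 n, 2 * (X : ℝ) ^ 2 / ((2 * k + 1 : ℕ) : ℝ) ^ 2 ≤
      (X : ℝ) ^ 2 / 2 * (1 - 1 / (n + 1)) := by
    intro n
    induction n with
    | zero => simp
    | succ n ih =>
      rw [Finset.sum_Icc_succ_top (by omega)]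
      have h1 : 2 * (X : ℝ) ^ 2 / ((2 * (n + 1) + 1 : ℕ) : ℝ) ^ 2 ≤
          (X : ℝ) ^ 2 / 2 * (1 / (n + 1) - 1 / (n + 2)) := by
        have h2 : (1 : ℝ) / (n + 1) - 1 / (n + 2) = 1 / ((n + 1) * (n + 2)) := by
          field_simp
          ring
        rw [h2]
        have h3 : (X : ℝ) ^ 2 / 2 * (1 / ((n + 1) * (n + 2))) =
            2 * (X : ℝ) ^ 2 / (4 * ((n + 1) * (n + 2))) := by
          field_simp
          ring
        rw [h3]
        apply div_le_div_of_nonneg_left (by positivity) (by positivity)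
        push_cast
        nlinarith [(Nat.cast_nonneg n : (0 : ℝ) ≤ n)]
      have h4 : ((n + 1 : ℕ) : ℝ) + 1 = n + 2 := by push_cast; ring
      rw [h4]
      calc _ ≤ (X : ℝ) ^ 2 / 2 * (1 - 1 / (n + 1)) + (X : ℝ) ^ 2 / 2 * (1 / (n + 1) - 1 / (n + 2)) :=
            add_le_add ih h1
        _ = _ := by ring
  calc ((((Icc 1 X ×ˢ Icc 1 X).filter
    (fun q : ℕ × ℕ => ¬ Nat.Coprime q.1 (4 * q.2 + 1))).card : ℕ) : ℝ)
      ≤ (((Icc 1 X).biUnion (fun k => ((Icc 1 X).filter (fun s => 2 * k + 1 ∣ s)) ×ˢ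
        ((Icc 1 X).filter (fun t => 2 * k + 1 ∣ 4 * t + 1)))).card : ℝ) := by
        exact_mod_cast Finset.card_le_card hsub
    _ ≤ ∑ k ∈ Icc 1 X, ((((Icc 1 X).filter (fun s => 2 * k + 1 ∣ s)) ×ˢ
        ((Icc 1 X).filter (fun t => 2 * k + 1 ∣ 4 * t + 1))).card : ℝ) := by
        exact_mod_cast Finset.card_biUnion_le
    _ ≤ ∑ k ∈ Icc 1 X, 2 * (X : ℝ) ^ 2 / ((2 * k + 1 : ℕ) : ℝ) ^ 2 :=
        Finset.sum_le_sum fun k _ => hcount (2 * k + 1) (by omega) (by omega)
    _ ≤ (X : ℝ) ^ 2 / 2 * (1 - 1 / (X + 1)) := hstep X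
    _ ≤ (X : ℝ) ^ 2 / 2 := by
        have : (0 : ℝ) ≤ (X : ℝ) ^ 2 / 2 * (1 / (X + 1)) := by positivity
        linarith [mul_sub ((X : ℝ) ^ 2 / 2) 1 (1 / ((X : ℝ) + 1))]

theorem K3_good (X : ℕ) : (X : ℝ) ^ 2 / 2 ≤ ((((Icc 1 X ×ˢ Icc 1 X).filter
    (fun q : ℕ × ℕ => Nat.Coprime q.1 (4 * q.2 + 1))).card : ℕ) : ℝ) := by
  have h := Finset.card_filter_add_card_filter_not (s := Icc 1 X ×ˢ Icc 1 X)
    (fun q : ℕ × ℕ => Nat.Coprime q.1 (4 * q.2 + 1))
  have h1 : (Icc 1 X ×ˢ Icc 1 X).card = X * X := by simp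
  rw [h1] at h
  have h2 : ((((Icc 1 X ×ˢ Icc 1 X).filter
    (fun q : ℕ × ℕ => Nat.Coprime q.1 (4 * q.2 + 1))).card : ℕ) : ℝ) +
    ((((Icc 1 X ×ˢ Icc 1 X).filter
    (fun q : ℕ × ℕ => ¬ Nat.Coprime q.1 (4 * q.2 + 1))).card : ℕ) : ℝ) = (X : ℝ) * X := by
    exact_mod_cast h
  have h3 := K3_bad X
  nlinarith

/-- `c₄`, `Δ` determine `s`, `t` -/
theorem K3_inj {s t s' t' : ℤ} (hs : 1 ≤ s) (ht : 1 ≤ t) (hs' : 1 ≤ s') (ht' : 1 ≤ t')
    (h4 : (K3W s t).c₄ = (K3W s' t').c₄) (h6 : (K3W s t).c₆ = (K3W s' t').c₆) :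
    s = s' ∧ t = t' := by
  have hΔ : (K3W s t).Δ = (K3W s' t').Δ := by
    have h1 := (K3W s t).c_relation
    have h2 := (K3W s' t').c_relation
    rw [← h4, ← h6] at h2
    linarith
  rw [K3W_Δ, K3W_Δ] at hΔ
  rw [K3W_c₄, K3W_c₄] at h4
  have hpos : 0 ≤ s * (4 * t + 1) * (16 * s + (4 * t + 1)) := by positivity
  have hpos' : 0 ≤ s' * (4 * t' + 1) * (16 * s' + (4 * t' + 1)) := by positivity
  have h5 : s * (4 * t + 1) * (16 * s + (4 * t + 1)) =
      s' * (4 * t' + 1) * (16 * s' + (4 * t' + 1)) := by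
    rcases sq_eq_sq_iff_eq_or_eq_neg.1 hΔ with h | h
    · exact h
    · have hp1 : 0 < s * (4 * t + 1) * (16 * s + (4 * t + 1)) := by positivity
      linarith
  set u := 16 * s with hu
  set v := 4 * t + 1 with hv
  set u' := 16 * s' with hu'
  set v' := 4 * t' + 1 with hv'
  have hupos : 0 < u := by omega
  have hvpos : 0 < v := by omega
  have hupos' : 0 < u' := by omega
  have hvpos' : 0 < v' := by omega
  have h5' : u * v * (u + v) = u' * v' * (u' + v') := by
    linear_combination 16 * h5 + hu * (v * (u + v)) - hu' * (v' * (u' + v'))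
  have hw : u + v = u' + v' := by
    have hkey : ((u + v) - (u' + v')) *
        ((u + v) ^ 2 + (u + v) * (u' + v') + (u' + v') ^ 2 - (u ^ 2 + u * v + v ^ 2)) = 0 := by
      linear_combination h5' + (u' + v') * h4
    rcases mul_eq_zero.1 hkey with h | h
    · linarith
    · exfalso
      have h1 : 0 < u * v := mul_pos hupos hvpos
      have h2 : 0 < (u + v) * (u' + v') := by positivity
      nlinarith [sq_nonneg (u' + v')]
  have huv : u * v = u' * v' := by
    have e1 : u' + v' = u + v := hw.symm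
    have : (u + v) ^ 2 = (u' + v') ^ 2 := by rw [hw]
    linear_combination this - h4
  have hfac : (u - u') * (u - v') = 0 := by
    have e1 : v = u' + v' - u := by linarith
    rw [e1] at huv
    linear_combination -huv
  rcases mul_eq_zero.1 hfac with h | h
  · constructor <;> omega
  · exfalso; omega

theorem K3_mem (s t : ℕ) (hs : 1 ≤ s) (hcop : Nat.Coprime s (4 * t + 1)) (Y : ℝ)
    (hY : ((s * (4 * t + 1) * (16 * s + (4 * t + 1)) : ℕ) : ℝ) ≤ Y) :
    ((K3W s t).c₄, (K3W s t).c₆) ∈ FullTwoSet (fun N D => (N : ℝ) ≤ Y ∧ (D : ℝ) ≤ Y ^ 2) := by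
  have hΔ : (K3W s t).Δ = (((s * (4 * t + 1) * (16 * s + (4 * t + 1))) ^ 2 : ℕ) : ℤ) := by
    rw [K3W_Δ]; push_cast; ring
  have hpos : 0 < s * (4 * t + 1) * (16 * s + (4 * t + 1)) := by positivity
  have hΔ0 : (K3W s t).Δ ≠ 0 := by
    rw [hΔ]; exact_mod_cast (pow_pos hpos 2).ne'
  have hnat : (K3W s t).Δ.natAbs = (s * (4 * t + 1) * (16 * s + (4 * t + 1))) ^ 2 := by
    rw [hΔ]; exact Int.natAbs_natCast _
  have hcopZ : IsCoprime (16 * (s : ℤ)) (4 * (t : ℤ) + 1) := by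
    refine IsCoprime.mul_left ?_ ?_
    · have h2 : IsCoprime (2 : ℤ) (4 * (t : ℤ) + 1) := ⟨-(2 * (t : ℤ)), 1, by ring⟩
      have := h2.pow_left (m := 4)
      norm_num at this
      exact this
    · have := Nat.isCoprime_iff_coprime.2 hcop
      push_cast at this
      exact this
  have hc4 : IsCoprime (K3W s t).c₄ (K3W s t).Δ := by
    rw [K3W_c₄, K3W_Δ]
    refine IsCoprime.pow_right ?_
    refine IsCoprime.mul_right (IsCoprime.mul_right ?_ ?_) ?_
    · -- modulo s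
      have h1 : IsCoprime ((4 * (t : ℤ) + 1) ^ 2) (s : ℤ) :=
        (hcopZ.of_mul_left_right.symm).pow_left
      have e : (16 * (s : ℤ)) ^ 2 + 16 * s * (4 * t + 1) + (4 * t + 1) ^ 2 =
          (4 * (t : ℤ) + 1) ^ 2 + (s : ℤ) * (256 * s + 16 * (4 * t + 1)) := by ring
      rw [e]
      exact IsCoprime.add_mul_left_left h1 _
    · have h1 : IsCoprime ((16 * (s : ℤ)) ^ 2) (4 * (t : ℤ) + 1) := hcopZ.pow_left
      have e : (16 * (s : ℤ)) ^ 2 + 16 * s * (4 * t + 1) + (4 * t + 1) ^ 2 =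
          (16 * (s : ℤ)) ^ 2 + (4 * (t : ℤ) + 1) * (16 * s + (4 * t + 1)) := by ring
      rw [e]
      exact IsCoprime.add_mul_left_left h1 _
    · have h0 : IsCoprime (16 * (s : ℤ)) (16 * (s : ℤ) + (4 * (t : ℤ) + 1)) := by
        have := IsCoprime.add_mul_left_right hcopZ 1
        rw [mul_one, add_comm] at this
        exact this
      have h1 : IsCoprime ((16 * (s : ℤ)) ^ 2) (16 * (s : ℤ) + (4 * (t : ℤ) + 1)) := h0.pow_left
      have e : (16 * (s : ℤ)) ^ 2 + 16 * s * (4 * t + 1) + (4 * t + 1) ^ 2 =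
          (16 * (s : ℤ)) ^ 2 + (16 * (s : ℤ) + (4 * (t : ℤ) + 1)) * (4 * t + 1) := by ring
      rw [e]
      exact IsCoprime.add_mul_left_left h1 _
  refine ⟨K3W s t, rfl, rfl, hΔ0, hc4, ?_, ?_⟩
  · -- the points
    have hΔQ : ((K3W s t).baseChange ℚ).toAffine.Δ ≠ 0 := by
      have : ((K3W s t).baseChange ℚ).Δ = ((K3W s t).Δ : ℚ) := by
        rw [WeierstrassCurve.baseChange, WeierstrassCurve.map_Δ]; simp
      change ((K3W s t).baseChange ℚ).Δ ≠ 0
      rw [this]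
      exact_mod_cast hΔ0
    have e1 : ((K3W s t).baseChange ℚ).toAffine.a₁ = 1 := by
      simp [WeierstrassCurve.baseChange, K3W]
    have e2 : ((K3W s t).baseChange ℚ).toAffine.a₂ = (t : ℚ) - 4 * s := by
      simp [WeierstrassCurve.baseChange, K3W]
    have e3 : ((K3W s t).baseChange ℚ).toAffine.a₃ = 0 := by
      simp [WeierstrassCurve.baseChange, K3W]
    have e4 : ((K3W s t).baseChange ℚ).toAffine.a₄ = -((s : ℚ) * (4 * t + 1)) := by
      simp [WeierstrassCurve.baseChange, K3W]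
    have e6 : ((K3W s t).baseChange ℚ).toAffine.a₆ = 0 := by
      simp [WeierstrassCurve.baseChange, K3W]
    have hS : ((K3W s t).baseChange ℚ).toAffine.Nonsingular 0 0 := by
      rw [← equation_iff_nonsingular_of_Δ_ne_zero hΔQ, equation_iff, e1, e2, e3, e4, e6]
      ring
    have hT : ((K3W s t).baseChange ℚ).toAffine.Nonsingular (4 * (s : ℚ)) (-(2 * (s : ℚ))) := by
      rw [← equation_iff_nonsingular_of_Δ_ne_zero hΔQ, equation_iff, e1, e2, e3, e4, e6]
      ring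
    refine ⟨Point.some _ _ hS, Point.some _ _ hT, ?_, ?_, ?_⟩
    · rw [addOrderOf_eq_prime_iff (p := 2)]
      refine ⟨?_, Point.some_ne_zero _⟩
      rw [two_nsmul]
      apply Point.add_self_of_Y_eq
      rw [negY, e1, e3]; ring
    · rw [addOrderOf_eq_prime_iff (p := 2)]
      refine ⟨?_, Point.some_ne_zero _⟩
      rw [two_nsmul]
      apply Point.add_self_of_Y_eq
      rw [negY, e1, e3]; ring
    · intro h
      rw [Point.some.injEq] at h
      have h1 := h.1
      have h2 : (1 : ℚ) ≤ s := by exact_mod_cast hs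
      linarith
  · have hYpos : (0 : ℝ) ≤ Y := le_trans (Nat.cast_nonneg _) hY
    rw [hnat, Nat.primeFactors_pow _ (by norm_num)]
    constructor
    · refine le_trans ?_ hY
      exact_mod_cast Nat.le_of_dvd hpos (Nat.prod_primeFactors_dvd _)
    · push_cast
      push_cast at hY
      exact pow_le_pow_left₀ (by positivity) hY 2

/-- many curves with `N ≤ Y` (and `|Δ| ≤ Y²`) -/
theorem full_two_many : ∃ c Y₀ : ℝ, 0 < c ∧ 1 ≤ Y₀ ∧ ∀ Y : ℝ, Y₀ ≤ Y →
    c * Y ^ (2 / 3 : ℝ) ≤ ((FullTwoSet (fun N D => (N : ℝ) ≤ Y ∧ (D : ℝ) ≤ Y ^ 2)).ncard : ℝ) := by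
  classical
  refine ⟨1 / 200, 1000, by norm_num, by norm_num, ?_⟩
  intro Y hY
  have hY0 : (0 : ℝ) ≤ Y := by linarith
  set r : ℝ := Y ^ (1 / 3 : ℝ) with hr
  have hr0 : 0 ≤ r := Real.rpow_nonneg hY0 _
  have hr3 : r ^ 3 = Y := by
    rw [hr, ← Real.rpow_natCast, ← Real.rpow_mul hY0]
    norm_num
  have hr2 : Y ^ (2 / 3 : ℝ) = r ^ 2 := by
    rw [hr, ← Real.rpow_natCast, ← Real.rpow_mul hY0]
    norm_num
  have hr10 : 10 ≤ r := by
    by_contra hlt
    push Not at hlt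
    have : r ^ 3 < 10 ^ 3 := pow_lt_pow_left₀ hlt hr0 (by norm_num)
    rw [hr3] at this
    linarith
  set X : ℕ := ⌊r / 5⌋₊ with hX
  have hX1 : (X : ℝ) ≤ r / 5 := Nat.floor_le (by positivity)
  have hX2 : r / 10 ≤ (X : ℝ) := by
    have := Nat.lt_floor_add_one (r / 5)
    rw [← hX] at this
    linarith
  have hfin : (FullTwoSet (fun N D => (N : ℝ) ≤ Y ∧ (D : ℝ) ≤ Y ^ 2)).Finite := by
    refine (full_two_finite (Y ^ 2)).subset ?_
    rintro c ⟨W, h1, h2, h3, h4, h5, h6⟩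
    exact ⟨W, h1, h2, h3, h4, h5, h6.2⟩
  set G : Finset (ℕ × ℕ) := (Icc 1 X ×ˢ Icc 1 X).filter
    (fun q : ℕ × ℕ => Nat.Coprime q.1 (4 * q.2 + 1)) with hG
  have hcard : G.card ≤ (FullTwoSet (fun N D => (N : ℝ) ≤ Y ∧ (D : ℝ) ≤ Y ^ 2)).ncard := by
    rw [← Set.ncard_coe_finset G]
    refine Set.ncard_le_ncard_of_injOn
      (fun q : ℕ × ℕ => ((K3W q.1 q.2).c₄, (K3W q.1 q.2).c₆)) ?_ ?_ hfin
    · intro q hq
      have hq' := Finset.mem_filter.1 (Finset.mem_coe.1 hq)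
      obtain ⟨h1, h2⟩ := Finset.mem_product.1 hq'.1
      rw [Finset.mem_Icc] at h1 h2
      refine K3_mem q.1 q.2 h1.1 hq'.2 Y ?_
      have a1 : (q.1 : ℝ) ≤ X := by exact_mod_cast h1.2
      have a2 : (q.2 : ℝ) ≤ X := by exact_mod_cast h2.2
      have a3 : (1 : ℝ) ≤ q.2 := by exact_mod_cast h2.1
      push_cast
      calc (q.1 : ℝ) * (4 * q.2 + 1) * (16 * q.1 + (4 * q.2 + 1))
          ≤ (X : ℝ) * (5 * X) * (21 * X) := by
            gcongr
            · linarith
            · linarith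
        _ = 105 * (X : ℝ) ^ 3 := by ring
        _ ≤ 105 * (r / 5) ^ 3 := by gcongr
        _ ≤ r ^ 3 := by
            have : 0 ≤ r ^ 3 := by positivity
            nlinarith
        _ = Y := hr3
    · intro q hq q' hq' h
      have h1 := Finset.mem_product.1 (Finset.mem_filter.1 (Finset.mem_coe.1 hq)).1
      have h2 := Finset.mem_product.1 (Finset.mem_filter.1 (Finset.mem_coe.1 hq')).1
      rw [Finset.mem_Icc, Finset.mem_Icc] at h1 h2
      simp only [Prod.mk.injEq] at h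
      have := K3_inj (s := q.1) (t := q.2) (s' := q'.1) (t' := q'.2)
        (by exact_mod_cast h1.1.1) (by exact_mod_cast h1.2.1) (by exact_mod_cast h2.1.1)
        (by exact_mod_cast h2.2.1) h.1 h.2
      exact Prod.ext (by exact_mod_cast this.1) (by exact_mod_cast this.2)
  have hgood := K3_good X
  rw [hr2]
  have hc : (G.card : ℝ) ≤ ((FullTwoSet (fun N D => (N : ℝ) ≤ Y ∧ (D : ℝ) ≤ Y ^ 2)).ncard : ℝ) := by
    exact_mod_cast hcard
  refine le_trans ?_ hc
  refine le_trans ?_ hgood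
  have h1 : (r / 10) ^ 2 ≤ (X : ℝ) ^ 2 := pow_le_pow_left₀ (by positivity) hX2 2
  nlinarith

end Pool.Agent.Lib.MP_d8bd92_nt
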