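import Pool.Agent.Lib.MP_d8bd92_nt.CdDefs
import Pool.Agent.Lib.MP_d8bd92_nt.CdK2
import Pool.Agent.Lib.MP_d8bd92_nt.CdK3

set_option autoImplicit false

/-!
Most semistable elliptic curves with full rational 2-torsion, ordered by the conductor, satisfy
Szpiro's inequality: the final theorem.
-/

namespace Pool.Agent.Lib.MP_d8bd92_nt

open Finset Pool.Agent.Lib.Szpiro


theorem fullTwoSet_mono {P Q : ℕ → ℕ → Prop} (h : ∀ N D, P N D → Q N D) :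
    FullTwoSet P ⊆ FullTwoSet Q := by
  rintro c ⟨W, h1, h2, h3, h4, h5, h6⟩
  exact ⟨W, h1, h2, h3, h4, h5, h _ _ h6⟩

theorem fullTwoSet_or (P Q : ℕ → ℕ → Prop) :
    FullTwoSet (fun N D => P N D ∨ Q N D) ⊆ FullTwoSet P ∪ FullTwoSet Q := by
  rintro c ⟨W, h1, h2, h3, h4, h5, h6⟩
  rcases h6 with h6 | h6
  · exact Or.inl ⟨W, h1, h2, h3, h4, h5, h6⟩
  · exact Or.inr ⟨W, h1, h2, h3, h4, h5, h6⟩

/-- the final theorem -/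
theorem full_two_main (κ ε : ℝ) (hκ : 0 < κ) (hε : 0 < ε) : ∃ C c δ Y₀ : ℝ, 0 < δ ∧ 0 < c ∧
    ∀ Y : ℝ, Y₀ ≤ Y →
    ((FullTwoSet (fun N D => (N : ℝ) ≤ Y ∧ (N : ℝ) ^ (2 + ε) < (D : ℝ) ∧
      (D : ℝ) ≤ Y ^ κ)).ncard : ℝ) ≤ C * Y ^ (2 / 3 - δ) ∧
    c * Y ^ (2 / 3 : ℝ) ≤ ((FullTwoSet (fun N D => (N : ℝ) ≤ Y ∧
      (D : ℝ) ≤ (N : ℝ) ^ (2 + ε))).ncard : ℝ) := by
  obtain ⟨C, δ, _, hδ, _, hup⟩ := full_two_upper κ ε hκ hε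
  obtain ⟨C', δ', hC', hδ', _, hup'⟩ := full_two_upper 2 ε (by norm_num) hε
  obtain ⟨c, Y₁, hc, hY₁, hlow⟩ := full_two_many
  refine ⟨C, c / 2, δ, max Y₁ ((2 * C' / c) ^ (1 / δ')), hδ, by positivity, ?_⟩
  intro Y hY
  have hYY : Y₁ ≤ Y := (le_max_left _ _).trans hY
  have hY1 : 1 ≤ Y := hY₁.trans hYY
  have hY0 : 0 < Y := by linarith
  refine ⟨(hup Y hY1).2, ?_⟩
  -- the exceptional curves are few
  have h1 : 2 * C' / c ≤ Y ^ δ' := by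
    have h2 : (2 * C' / c) ^ (1 / δ') ≤ Y := (le_max_right _ _).trans hY
    have h3 : 0 ≤ 2 * C' / c := by positivity
    have h4 := Real.rpow_le_rpow (by positivity) h2 hδ'.le
    rwa [← Real.rpow_mul h3, one_div, inv_mul_cancel₀ hδ'.ne', Real.rpow_one] at h4
  have h5 : C' * Y ^ (2 / 3 - δ') ≤ c / 2 * Y ^ (2 / 3 : ℝ) := by
    rw [Real.rpow_sub hY0]
    have h6 : 0 < Y ^ δ' := Real.rpow_pos_of_pos hY0 _
    have h7 : C' ≤ c / 2 * Y ^ δ' := by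
      rw [div_le_iff₀ hc] at h1
      linarith
    have h8 : 0 < Y ^ (2 / 3 : ℝ) := Real.rpow_pos_of_pos hY0 _
    rw [mul_div_assoc', div_le_iff₀ h6]
    nlinarith
  -- the union
  have hfin : (FullTwoSet (fun N D => (N : ℝ) ≤ Y ∧ (D : ℝ) ≤ (N : ℝ) ^ (2 + ε))).Finite := by
    refine (full_two_finite (Y ^ (2 + ε))).subset (fullTwoSet_mono ?_)
    rintro N D ⟨hN, hD⟩
    exact hD.trans (Real.rpow_le_rpow (Nat.cast_nonneg N) hN (by linarith))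
  obtain ⟨hfin', hcard'⟩ := hup' Y hY1
  have hsub : FullTwoSet (fun N D => (N : ℝ) ≤ Y ∧ (D : ℝ) ≤ Y ^ 2) ⊆
      FullTwoSet (fun N D => (N : ℝ) ≤ Y ∧ (D : ℝ) ≤ (N : ℝ) ^ (2 + ε)) ∪
      FullTwoSet (fun N D => (N : ℝ) ≤ Y ∧ (N : ℝ) ^ (2 + ε) < (D : ℝ) ∧
        (D : ℝ) ≤ Y ^ (2 : ℝ)) := by
    refine (fullTwoSet_mono ?_).trans (fullTwoSet_or _ _)
    rintro N D ⟨hN, hD⟩
    rcases le_or_gt (D : ℝ) ((N : ℝ) ^ (2 + ε)) with h | h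
    · exact Or.inl ⟨hN, h⟩
    · refine Or.inr ⟨hN, h, ?_⟩
      rw [Real.rpow_two]
      exact hD
  have hle : (FullTwoSet (fun N D => (N : ℝ) ≤ Y ∧ (D : ℝ) ≤ Y ^ 2)).ncard ≤
      (FullTwoSet (fun N D => (N : ℝ) ≤ Y ∧ (D : ℝ) ≤ (N : ℝ) ^ (2 + ε))).ncard +
      (FullTwoSet (fun N D => (N : ℝ) ≤ Y ∧ (N : ℝ) ^ (2 + ε) < (D : ℝ) ∧
        (D : ℝ) ≤ Y ^ (2 : ℝ))).ncard :=
    (Set.ncard_le_ncard hsub (hfin.union hfin')).trans (Set.ncard_union_le _ _)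
  have hle' : ((FullTwoSet (fun N D => (N : ℝ) ≤ Y ∧ (D : ℝ) ≤ Y ^ 2)).ncard : ℝ) ≤
      ((FullTwoSet (fun N D => (N : ℝ) ≤ Y ∧ (D : ℝ) ≤ (N : ℝ) ^ (2 + ε))).ncard : ℝ) +
      ((FullTwoSet (fun N D => (N : ℝ) ≤ Y ∧ (N : ℝ) ^ (2 + ε) < (D : ℝ) ∧
        (D : ℝ) ≤ Y ^ (2 : ℝ))).ncard : ℝ) := by
    exact_mod_cast hle
  have h9 := hlow Y hYY
  linarith

end Pool.Agent.Lib.MP_d8bd92_nt
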