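import Mathlib

set_option autoImplicit false

/-!
Elementary 2-adic lemmas about perfect powers close to powers of two.
-/

namespace Pool.Agent.Lib.Szpiro

theorem odd_geom_sum {s : ℤ} (hs : Odd s) : ∀ k : ℕ, Odd (∑ i ∈ Finset.range k, s ^ i) ↔ Odd k := by
  intro k
  induction k with
  | zero => simp
  | succ n ih =>
    rw [Finset.sum_range_succ]
    have hp : Odd (s ^ n) := hs.pow
    rw [Int.odd_add', Nat.odd_add_one, ← ih]
    constructor
    · intro h
      have := h.mp hp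
      rwa [Int.not_odd_iff_even]
    · intro h
      rw [Int.not_odd_iff_even] at h
      exact ⟨fun _ => h, fun _ => hp⟩

/-- For odd `s` and odd `k`, `s ^ k - 1 = (s - 1) * Q` with `Q` odd. -/
theorem pow_sub_one_factor {s : ℤ} (hs : Odd s) {k : ℕ} (hk : Odd k) :
    ∃ Q : ℤ, Odd Q ∧ s ^ k - 1 = (s - 1) * Q :=
  ⟨∑ i ∈ Finset.range k, s ^ i, (odd_geom_sum hs k).mpr hk, by rw [mul_comm, geom_sum_mul]⟩

/-- If an odd `Q` and `2^m ∣ u * Q` then `2 ^ m ∣ u`. -/
theorem two_pow_dvd_of_odd {m : ℕ} {u Q : ℤ} (hQ : Odd Q) (h : (2 : ℤ) ^ m ∣ u * Q) :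
    (2 : ℤ) ^ m ∣ u := by
  have h2 : IsCoprime ((2 : ℤ) ^ m) Q := by
    apply IsCoprime.pow_left
    rw [Int.isCoprime_iff_gcd_eq_one]
    obtain ⟨k, hk⟩ := hQ
    have : Q.natAbs % 2 = 1 := by omega
    have : Nat.Coprime 2 Q.natAbs := by
      rw [Nat.coprime_two_left]; exact Nat.odd_iff.mpr this
    simpa [Int.gcd, Nat.Coprime] using this
  exact h2.dvd_of_dvd_mul_right h

/-- If `s, h` are odd and `2 ^ (e + 1) ∣ (s - h) * (s + h)` then `2 ^ e` divides
`s - h` or `s + h`. -/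
theorem two_pow_dvd_factor {s h : ℤ} (hs : Odd s) (hh : Odd h) {e : ℕ}
    (hd : (2 : ℤ) ^ (e + 1) ∣ (s - h) * (s + h)) :
    (2 : ℤ) ^ e ∣ s - h ∨ (2 : ℤ) ^ e ∣ s + h := by
  obtain ⟨i, hi⟩ := hs
  obtain ⟨j, hj⟩ := hh
  have e1 : s - h = 2 * (i - j) := by rw [hi, hj]; ring
  have e2 : s + h = 2 * (i + j + 1) := by rw [hi, hj]; ring
  rcases Int.even_or_odd (i - j) with hev | hodd
  · -- then i + j + 1 is odd
    have ho : Odd (i + j + 1) := by
      obtain ⟨r, hr⟩ := hev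
      exact ⟨r + j, by linarith⟩
    left
    have : (2 : ℤ) ^ e ∣ (s - h) * (i + j + 1) := by
      have h' : (s - h) * (s + h) = 2 * ((s - h) * (i + j + 1)) := by rw [e2]; ring
      rw [h', pow_succ, mul_comm ((2 : ℤ) ^ e) 2] at hd
      exact (mul_dvd_mul_iff_left (by norm_num)).mp hd
    exact two_pow_dvd_of_odd ho this
  · right
    have : (2 : ℤ) ^ e ∣ (s + h) * (i - j) := by
      have h' : (s - h) * (s + h) = 2 * ((s + h) * (i - j)) := by rw [e1]; ring
      rw [h', pow_succ, mul_comm ((2 : ℤ) ^ e) 2] at hd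
      exact (mul_dvd_mul_iff_left (by norm_num)).mp hd
    exact two_pow_dvd_of_odd hodd this

theorem le_abs_of_dvd {m u : ℤ} (hm : m ∣ u) (hu : u ≠ 0) : |m| ≤ |u| := by
  have := Int.natAbs_le_of_dvd_ne_zero hm hu
  rw [Int.abs_eq_natAbs, Int.abs_eq_natAbs]
  exact_mod_cast this

theorem sq_mod_four {s : ℤ} (h : s ^ 2 % 4 = 3) : False := by
  rcases Int.even_or_odd' s with ⟨c, hc | hc⟩
  · rw [hc] at h; ring_nf at h; omega
  · rw [hc] at h; ring_nf at h; omega

/-- perfect powers with exponent at least two are squares or odd powers of exponent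
at least three, up to changing the base. -/
theorem pow_cases {z r : ℤ} {k : ℕ} (hk : 2 ≤ k) (hr : Odd r) (h : z = r ^ k ∨ -z = r ^ k) :
    (∃ s : ℤ, Odd s ∧ z = s ^ 2) ∨ (∃ s : ℤ, -z = s ^ 2) ∨
    (∃ s : ℤ, ∃ j : ℕ, Odd s ∧ Odd j ∧ 3 ≤ j ∧ z = s ^ j) := by
  rcases Nat.even_or_odd' k with ⟨j, hj | hj⟩
  · have e : r ^ k = (r ^ j) ^ 2 := by rw [hj, ← pow_mul, mul_comm]
    rcases h with h | h
    · left; exact ⟨r ^ j, hr.pow, by rw [h, e]⟩
    · right; left; exact ⟨r ^ j, by rw [h, e]⟩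
  · right; right
    rcases h with h | h
    · exact ⟨r, k, hr, ⟨j, hj⟩, by omega, h⟩
    · refine ⟨-r, k, hr.neg, ⟨j, hj⟩, by omega, ?_⟩
      rw [Odd.neg_pow ⟨j, hj⟩, ← h, neg_neg]

/-- The cubic polynomial of the first kind takes no perfect power value at `± 2 ^ m`, `m ≥ 7`. -/
theorem cubic_one_not_power {m : ℕ} (hm : 7 ≤ m) {x : ℤ} (hx : x = 2 ^ m ∨ x = -2 ^ m)
    {r : ℤ} {k : ℕ} (hk : 2 ≤ k) (hr : Odd r)
    (h : x ^ 3 - 8 * x ^ 2 + 5 * x + 1 = r ^ k ∨ -(x ^ 3 - 8 * x ^ 2 + 5 * x + 1) = r ^ k) :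
    False := by
  obtain ⟨n, rfl⟩ : ∃ n, m = n + 3 := ⟨m - 3, by omega⟩
  have hn : 4 ≤ n := by omega
  obtain ⟨T, hT⟩ : ∃ T : ℤ, T = 2 ^ n := ⟨_, rfl⟩
  have hT16 : 16 ≤ T := by
    rw [hT]
    calc (16 : ℤ) = 2 ^ 4 := by norm_num
      _ ≤ 2 ^ n := pow_le_pow_right₀ (by norm_num) hn
  have hTeven : (2 : ℤ) ∣ T := by
    rw [hT]; exact dvd_pow_self _ (by omega)
  obtain ⟨t, ht, htx⟩ : ∃ t : ℤ, (t = T ∨ t = -T) ∧ x = 8 * t := by
    rcases hx with hx | hx
    · exact ⟨T, Or.inl rfl, by rw [hx, hT, pow_add]; ring⟩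
    · exact ⟨-T, Or.inr rfl, by rw [hx, hT, pow_add]; ring⟩
  have ht2 : (2 : ℤ) ∣ t := by
    rcases ht with rfl | rfl
    · exact hTeven
    · exact (dvd_neg).mpr hTeven
  have habs : |t| = T := by
    rcases ht with rfl | rfl
    · exact abs_of_pos (by linarith)
    · rw [abs_neg]; exact abs_of_pos (by linarith)
  rcases pow_cases hk hr h with ⟨s, hs, hsq⟩ | ⟨s, hsq⟩ | ⟨s, j, hs, hj, hj3, hpow⟩
  · -- perfect square
    rw [htx] at hsq
    have hho : Odd (1 + 20 * t - 456 * t ^ 2) := by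
      refine ⟨10 * t - 228 * t ^ 2, by ring⟩
    have hprod : (s - (1 + 20 * t - 456 * t ^ 2)) * (s + (1 + 20 * t - 456 * t ^ 2))
        = 64 * t ^ 3 * (293 - 3249 * t) := by
      have : s ^ 2 = (8 * t) ^ 3 - 8 * (8 * t) ^ 2 + 5 * (8 * t) + 1 := hsq.symm
      linear_combination this
    have h293 : 293 - 3249 * t ≠ 0 := by omega
    have ht0 : t ≠ 0 := by
      intro h0; rw [h0, abs_zero] at habs; omega
    have hdvd : (2 : ℤ) ^ ((3 * n + 5) + 1) ∣ (s - (1 + 20 * t - 456 * t ^ 2)) *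
        (s + (1 + 20 * t - 456 * t ^ 2)) := by
      rw [hprod]
      apply Dvd.dvd.mul_right
      have h3 : (2 : ℤ) ^ ((3 * n + 5) + 1) = 64 * T ^ 3 := by
        rw [hT]; ring
      rw [h3]
      rcases ht with rfl | rfl
      · exact dvd_refl _
      · exact ⟨-1, by ring⟩
    have hpne : (s - (1 + 20 * t - 456 * t ^ 2)) * (s + (1 + 20 * t - 456 * t ^ 2)) ≠ 0 := by
      rw [hprod]
      exact mul_ne_zero (mul_ne_zero (by norm_num) (pow_ne_zero _ ht0)) h293
    have h32 : (2 : ℤ) ^ (3 * n + 5) = 32 * T ^ 3 := by rw [hT]; ring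
    have hbig : 32 * T ^ 3 ≤ |s| + |1 + 20 * t - 456 * t ^ 2| := by
      rcases two_pow_dvd_factor hs hho hdvd with hd | hd
      · have h1 := le_abs_of_dvd hd (left_ne_zero_of_mul hpne)
        rw [h32, abs_of_nonneg (by positivity)] at h1
        exact h1.trans (abs_sub _ _)
      · have h1 := le_abs_of_dvd hd (right_ne_zero_of_mul hpne)
        rw [h32, abs_of_nonneg (by positivity)] at h1
        exact h1.trans (abs_add_le _ _)
    have hh : |1 + 20 * t - 456 * t ^ 2| ≤ 458 * T ^ 2 := by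
      rw [abs_le]
      rcases ht with rfl | rfl
      · constructor <;> nlinarith
      · constructor <;> nlinarith
    have hss : |s| ≤ 6 * T ^ 2 := by
      apply abs_le_of_sq_le_sq _ (by positivity)
      have : s ^ 2 = (8 * t) ^ 3 - 8 * (8 * t) ^ 2 + 5 * (8 * t) + 1 := hsq.symm
      rw [this]
      have hT3 : 16 * T ^ 3 ≤ T ^ 4 := by nlinarith [pow_pos (by linarith : (0:ℤ) < T) 3]
      have hT2 : 16 * T ^ 2 ≤ T ^ 3 := by nlinarith [pow_pos (by linarith : (0:ℤ) < T) 2]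
      have hT1 : 16 * T ≤ T ^ 2 := by nlinarith
      rcases ht with rfl | rfl
      · nlinarith
      · nlinarith
    nlinarith [pow_pos (by linarith : (0:ℤ) < T) 2]
  · -- minus a square
    apply sq_mod_four (s := s)
    rw [← hsq, htx]
    have : -((8 * t) ^ 3 - 8 * (8 * t) ^ 2 + 5 * (8 * t) + 1) = 3 + 4 * (-128 * t ^ 3 + 128 * t ^ 2
      - 10 * t - 1) := by ring
    rw [this]; omega
  · -- odd power
    obtain ⟨Q, hQ, hfac⟩ := pow_sub_one_factor hs hj
    obtain ⟨X, hX⟩ : ∃ X : ℤ, X = 8 * T := ⟨_, rfl⟩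
    have hX128 : 128 ≤ X := by linarith
    have hxX : |x| = X := by
      rw [htx, abs_mul, habs, hX]; norm_num
    have hXpow : (2 : ℤ) ^ (n + 3) = X := by rw [hX, hT]; ring
    have hfx : s ^ j - 1 = x * (x ^ 2 - 8 * x + 5) := by rw [← hpow]; ring
    have hx8 : (8 : ℤ) ∣ x := ⟨t, htx⟩
    have hxne : x ≠ 0 := by
      intro h0; rw [h0, abs_zero] at hxX; omega
    have hqne : x ^ 2 - 8 * x + 5 ≠ 0 := by
      obtain ⟨y, rfl⟩ := hx8
      intro h0
      have : (8 * y) ^ 2 - 8 * (8 * y) + 5 = 8 * (8 * y ^ 2 - 8 * y) + 5 := by ring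
      omega
    have hdx : X ∣ x := by rw [← hxX]; exact abs_dvd_self x
    have hxd : x ∣ X := by rw [← hxX]; exact self_dvd_abs x
    have hdvd : (2 : ℤ) ^ (n + 3) ∣ (s - 1) * Q := by
      rw [← hfac, hfx, hXpow]; exact hdx.mul_right _
    have hds : X ∣ s - 1 := by
      have := two_pow_dvd_of_odd hQ hdvd
      rwa [hXpow] at this
    have hs1 : s - 1 ≠ 0 := by
      intro h0
      rw [h0, zero_mul] at hfac
      rw [hfac] at hfx
      exact (mul_ne_zero hxne hqne) hfx.symm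
    have hsX : X ≤ |s - 1| := by
      have := le_abs_of_dvd hds hs1
      rwa [abs_of_pos (by linarith : (0:ℤ) < X)] at this
    have hsX' : X - 1 ≤ |s| := by
      have : |s - 1| ≤ |s| + 1 := by
        calc |s - 1| ≤ |s| + |1| := abs_sub _ _
          _ = |s| + 1 := by norm_num
      linarith
    have hup : |s| ^ j ≤ X ^ 3 + 8 * X ^ 2 + 5 * X + 1 := by
      rw [← abs_pow, ← hpow]
      calc |x ^ 3 - 8 * x ^ 2 + 5 * x + 1| ≤ |x| ^ 3 + 8 * |x| ^ 2 + 5 * |x| + 1 := by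
            rw [abs_le]
            have e3 := abs_pow x 3
            have e2 := abs_pow x 2
            have a1 := le_abs_self (x ^ 3)
            have a2 := neg_abs_le (x ^ 3)
            have b1 := le_abs_self (x ^ 2)
            have b2 := neg_abs_le (x ^ 2)
            have c1 := le_abs_self x
            have c2 := neg_abs_le x
            rw [e3] at a1 a2
            rw [e2] at b1 b2
            have b3 : 0 ≤ x ^ 2 := by positivity
            constructor <;> linarith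
        _ = X ^ 3 + 8 * X ^ 2 + 5 * X + 1 := by rw [hxX]
    by_cases hj5 : 5 ≤ j
    · have h1 : |s| ^ 5 ≤ |s| ^ j := pow_le_pow_right₀ (by linarith) hj5
      have h2 : (X - 1) ^ 5 ≤ |s| ^ 5 := pow_le_pow_left₀ (by linarith) hsX' 5
      have h3 : X ^ 3 + 8 * X ^ 2 + 5 * X + 1 < (X - 1) ^ 5 := by
        have e1 : X ^ 3 ≤ (2 * (X - 1)) ^ 3 := pow_le_pow_left₀ (by linarith) (by linarith) 3
        have e2 : (127 : ℤ) ^ 2 ≤ (X - 1) ^ 2 := pow_le_pow_left₀ (by norm_num) (by linarith) 2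
        have e3 : (0 : ℤ) < (X - 1) ^ 3 := pow_pos (by linarith) 3
        have e4 : (127 : ℤ) ^ 2 * (X - 1) ^ 3 ≤ (X - 1) ^ 2 * (X - 1) ^ 3 :=
          mul_le_mul_of_nonneg_right e2 e3.le
        have e5 : (X - 1) ^ 5 = (X - 1) ^ 2 * (X - 1) ^ 3 := by ring
        have e6 : (2 * (X - 1)) ^ 3 = 8 * (X - 1) ^ 3 := by ring
        have e7 : 128 * X ^ 2 ≤ X ^ 3 := by nlinarith [sq_nonneg X]
        have e8 : 128 * X ≤ X ^ 2 := by nlinarith
        rw [e6] at e1
        rw [e5]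
        linarith
      linarith
    · have hj3' : j = 3 := by
        obtain ⟨i, hi⟩ := hj; omega
      subst hj3'
      obtain ⟨w, hw⟩ : x ∣ s - 1 := hxd.trans hds
      have hsw : s = 1 + x * w := by linarith
      have hrel : 3 * w - 5 = x * (-3 * w ^ 2 - 8 + x * (1 - w ^ 3)) := by
        have h1 : (1 + x * w) ^ 3 = x ^ 3 - 8 * x ^ 2 + 5 * x + 1 := by rw [← hsw, ← hpow]
        have h2 : x * (3 * w - 5 - x * (-3 * w ^ 2 - 8 + x * (1 - w ^ 3))) = 0 := by
          linear_combination h1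
        rcases mul_eq_zero.mp h2 with h | h
        · exact absurd h hxne
        · linarith
      have hw5 : X ≤ |3 * w - 5| := by
        have := le_abs_of_dvd (hdx.trans ⟨_, hrel⟩) (by omega)
        rwa [abs_of_pos (by linarith : (0:ℤ) < X)] at this
      have hw5' : X - 5 ≤ 3 * |w| := by
        have : |3 * w - 5| ≤ 3 * |w| + 5 := by
          calc |3 * w - 5| ≤ |3 * w| + |5| := abs_sub _ _
            _ = 3 * |w| + 5 := by rw [abs_mul]; norm_num
        linarith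
      have hw41 : 41 ≤ |w| := by omega
      have hs40 : 40 * X ≤ |s| := by
        have h1 : |x * w| ≤ |s| + 1 := by
          have : x * w = s - 1 := by linarith
          rw [this]
          calc |s - 1| ≤ |s| + |1| := abs_sub _ _
            _ = |s| + 1 := by norm_num
        rw [abs_mul, hxX] at h1
        nlinarith
      have h2 : (40 * X) ^ 3 ≤ |s| ^ 3 := pow_le_pow_left₀ (by linarith) hs40 3
      nlinarith [pow_pos (by linarith : (0:ℤ) < X) 3, pow_pos (by linarith : (0:ℤ) < X) 2]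

end Pool.Agent.Lib.Szpiro
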