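import Mathlib
import Pool.Agent.Lib.MP_d8bd92_nt.TwoAdic

set_option autoImplicit false

namespace Pool.Agent.Lib.Szpiro

/-- The cubic polynomial of the second kind takes no perfect power value at `± 2 ^ m`,
`m ≥ 7`. -/
theorem cubic_two_not_power {m : ℕ} (hm : 7 ≤ m) {x : ℤ} (hx : x = 2 ^ m ∨ x = -2 ^ m)
    {r : ℤ} {k : ℕ} (hk : 2 ≤ k) (hr : Odd r)
    (h : 1 + 8 * x + 5 * x ^ 2 - x ^ 3 = r ^ k ∨ -(1 + 8 * x + 5 * x ^ 2 - x ^ 3) = r ^ k) :
    False := by
  obtain ⟨n, rfl⟩ : ∃ n, m = n + 2 := ⟨m - 2, by omega⟩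
  have hn : 5 ≤ n := by omega
  obtain ⟨T, hT⟩ : ∃ T : ℤ, T = 2 ^ n := ⟨_, rfl⟩
  have hT32 : 32 ≤ T := by
    rw [hT]
    calc (32 : ℤ) = 2 ^ 5 := by norm_num
      _ ≤ 2 ^ n := pow_le_pow_right₀ (by norm_num) hn
  have hTeven : (2 : ℤ) ∣ T := by
    rw [hT]; exact dvd_pow_self _ (by omega)
  obtain ⟨t, ht, htx⟩ : ∃ t : ℤ, (t = T ∨ t = -T) ∧ x = 4 * t := by
    rcases hx with hx | hx
    · exact ⟨T, Or.inl rfl, by rw [hx, hT, pow_add]; ring⟩
    · exact ⟨-T, Or.inr rfl, by rw [hx, hT, pow_add]; ring⟩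
  have ht2 : (2 : ℤ) ∣ t := by
    rcases ht with rfl | rfl
    · exact hTeven
    · exact (dvd_neg).mpr hTeven
  have habs : |t| = T := by
    rcases ht with rfl | rfl
    · exact abs_of_pos (by linarith)
    · rw [abs_neg]; exact abs_of_pos (by linarith)
  rcases pow_cases hk hr h with ⟨s, hs, hsq⟩ | ⟨s, hsq⟩ | ⟨s, j, hs, hj, hj3, hpow⟩
  · -- perfect square
    rw [htx] at hsq
    have hho : Odd (1 + 16 * t - 88 * t ^ 2) := by
      refine ⟨8 * t - 44 * t ^ 2, by ring⟩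
    have hprod : (s - (1 + 16 * t - 88 * t ^ 2)) * (s + (1 + 16 * t - 88 * t ^ 2))
        = 64 * t ^ 3 * (43 - 121 * t) := by
      have : s ^ 2 = 1 + 8 * (4 * t) + 5 * (4 * t) ^ 2 - (4 * t) ^ 3 := hsq.symm
      linear_combination this
    have h43 : 43 - 121 * t ≠ 0 := by omega
    have ht0 : t ≠ 0 := by
      intro h0; rw [h0, abs_zero] at habs; omega
    have hdvd : (2 : ℤ) ^ ((3 * n + 5) + 1) ∣ (s - (1 + 16 * t - 88 * t ^ 2)) *
        (s + (1 + 16 * t - 88 * t ^ 2)) := by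
      rw [hprod]
      apply Dvd.dvd.mul_right
      have h3 : (2 : ℤ) ^ ((3 * n + 5) + 1) = 64 * T ^ 3 := by
        rw [hT]; ring
      rw [h3]
      rcases ht with rfl | rfl
      · exact dvd_refl _
      · exact ⟨-1, by ring⟩
    have hpne : (s - (1 + 16 * t - 88 * t ^ 2)) * (s + (1 + 16 * t - 88 * t ^ 2)) ≠ 0 := by
      rw [hprod]
      exact mul_ne_zero (mul_ne_zero (by norm_num) (pow_ne_zero _ ht0)) h43
    have h32 : (2 : ℤ) ^ (3 * n + 5) = 32 * T ^ 3 := by rw [hT]; ring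
    have hbig : 32 * T ^ 3 ≤ |s| + |1 + 16 * t - 88 * t ^ 2| := by
      rcases two_pow_dvd_factor hs hho hdvd with hd | hd
      · have h1 := le_abs_of_dvd hd (left_ne_zero_of_mul hpne)
        rw [h32, abs_of_nonneg (by positivity)] at h1
        exact h1.trans (abs_sub _ _)
      · have h1 := le_abs_of_dvd hd (right_ne_zero_of_mul hpne)
        rw [h32, abs_of_nonneg (by positivity)] at h1
        exact h1.trans (abs_add_le _ _)
    have hh : |1 + 16 * t - 88 * t ^ 2| ≤ 89 * T ^ 2 := by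
      rw [abs_le]
      rcases ht with rfl | rfl
      · constructor <;> nlinarith
      · constructor <;> nlinarith
    have hss : |s| ≤ 2 * T ^ 2 := by
      apply abs_le_of_sq_le_sq _ (by positivity)
      have : s ^ 2 = 1 + 8 * (4 * t) + 5 * (4 * t) ^ 2 - (4 * t) ^ 3 := hsq.symm
      rw [this]
      have hT3 : 32 * T ^ 3 ≤ T ^ 4 := by nlinarith [pow_pos (by linarith : (0:ℤ) < T) 3]
      have hT2 : 32 * T ^ 2 ≤ T ^ 3 := by nlinarith [pow_pos (by linarith : (0:ℤ) < T) 2]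
      have hT1 : 32 * T ≤ T ^ 2 := by nlinarith
      rcases ht with rfl | rfl
      · nlinarith
      · nlinarith
    nlinarith [pow_pos (by linarith : (0:ℤ) < T) 2]
  · -- minus a square
    apply sq_mod_four (s := s)
    rw [← hsq, htx]
    have : -(1 + 8 * (4 * t) + 5 * (4 * t) ^ 2 - (4 * t) ^ 3) = 3 + 4 * (16 * t ^ 3 - 20 * t ^ 2
      - 8 * t - 1) := by ring
    rw [this]; omega
  · -- odd power
    obtain ⟨Q, hQ, hfac⟩ := pow_sub_one_factor hs hj
    obtain ⟨X, hX⟩ : ∃ X : ℤ, X = 4 * T := ⟨_, rfl⟩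
    have hX128 : 128 ≤ X := by linarith
    have hxX : |x| = X := by
      rw [htx, abs_mul, habs, hX]; norm_num
    have hXpow : (2 : ℤ) ^ (n + 5) = 8 * X := by rw [hX, hT]; ring
    obtain ⟨t', ht'⟩ := ht2
    have hfx : s ^ j - 1 = 8 * x * (1 + 5 * t' - 8 * t' ^ 2) := by
      rw [← hpow, htx, ht']; ring
    have hxne : x ≠ 0 := by
      intro h0; rw [h0, abs_zero] at hxX; omega
    have ht'2 : (2 : ℤ) ∣ t' := by
      have h4 : (4 : ℤ) ∣ T := by
        rw [hT]
        have : (4 : ℤ) = 2 ^ 2 := by norm_num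
        rw [this]; exact pow_dvd_pow _ (by omega)
      have h4' : (4 : ℤ) ∣ t := by
        rcases ht with rfl | rfl
        · exact h4
        · exact (dvd_neg).mpr h4
      omega
    have hqne : 1 + 5 * t' - 8 * t' ^ 2 ≠ 0 := by
      obtain ⟨y, rfl⟩ := ht'2
      intro h0
      have : 1 + 5 * (2 * y) - 8 * (2 * y) ^ 2 = 2 * (5 * y - 16 * y ^ 2) + 1 := by ring
      omega
    have hdx : X ∣ x := by rw [← hxX]; exact abs_dvd_self x
    have hdvd : (2 : ℤ) ^ (n + 5) ∣ (s - 1) * Q := by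
      rw [← hfac, hfx, hXpow]; exact (mul_dvd_mul_left 8 hdx).mul_right _
    have hds : 8 * X ∣ s - 1 := by
      have := two_pow_dvd_of_odd hQ hdvd
      rwa [hXpow] at this
    have hs1 : s - 1 ≠ 0 := by
      intro h0
      rw [h0, zero_mul] at hfac
      rw [hfac] at hfx
      exact (mul_ne_zero (mul_ne_zero (by norm_num) hxne) hqne) hfx.symm
    have hsX : 8 * X ≤ |s - 1| := by
      have := le_abs_of_dvd hds hs1
      rwa [abs_of_pos (by linarith : (0:ℤ) < 8 * X)] at this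
    have hsX' : 7 * X ≤ |s| := by
      have : |s - 1| ≤ |s| + 1 := by
        calc |s - 1| ≤ |s| + |1| := abs_sub _ _
          _ = |s| + 1 := by norm_num
      linarith
    have hup : |s| ^ j ≤ X ^ 3 + 5 * X ^ 2 + 8 * X + 1 := by
      rw [← abs_pow, ← hpow]
      calc |1 + 8 * x + 5 * x ^ 2 - x ^ 3| ≤ |x| ^ 3 + 5 * |x| ^ 2 + 8 * |x| + 1 := by
            rw [abs_le]
            have e3 := abs_pow x 3
            have e2 := abs_pow x 2
            have a1 := le_abs_self (x ^ 3)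
            have a2 := neg_abs_le (x ^ 3)
            have b1 := le_abs_self (x ^ 2)
            have b2 := neg_abs_le (x ^ 2)
            have c1 := le_abs_self x
            have c2 := neg_abs_le x
            rw [e3] at a1 a2
            rw [e2] at b1 b2
            have b3 : 0 ≤ x ^ 2 := by positivity
            constructor <;> linarith
        _ = X ^ 3 + 5 * X ^ 2 + 8 * X + 1 := by rw [hxX]
    have h1 : |s| ^ 3 ≤ |s| ^ j := pow_le_pow_right₀ (by linarith) hj3
    have h2 : (7 * X) ^ 3 ≤ |s| ^ 3 := pow_le_pow_left₀ (by linarith) hsX' 3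
    have e7 : 128 * X ^ 2 ≤ X ^ 3 := by nlinarith [sq_nonneg X]
    have e8 : 128 * X ≤ X ^ 2 := by nlinarith
    have e9 : (7 * X) ^ 3 = 343 * X ^ 3 := by ring
    rw [e9] at h2
    linarith

/-- `± 2 ^ m ± 1` is not a proper power of an odd number for `m ≥ 4`. -/
theorem pm_one_not_power {m : ℕ} (hm : 4 ≤ m) {x z e : ℤ} (hx : x = 2 ^ m ∨ x = -2 ^ m)
    (he : e = 1 ∨ e = -1) (hz : z = x + e) {r : ℤ} {k : ℕ} (hk : 2 ≤ k) (hr : Odd r)
    (h : z = r ^ k ∨ -z = r ^ k) : False := by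
  -- pass to `e * z = 1 + e * x`
  obtain ⟨y, hy⟩ : ∃ y, y = e * x := ⟨_, rfl⟩
  obtain ⟨X, hX⟩ : ∃ X : ℤ, X = 2 ^ m := ⟨_, rfl⟩
  have hX16 : 16 ≤ X := by
    rw [hX]
    calc (16 : ℤ) = 2 ^ 4 := by norm_num
      _ ≤ 2 ^ m := pow_le_pow_right₀ (by norm_num) hm
  have hyX : y = X ∨ y = -X := by
    rcases he with rfl | rfl <;> rcases hx with hx | hx
    · left; rw [hy, hx, hX]; ring
    · right; rw [hy, hx, hX]; ring
    · right; rw [hy, hx, hX]; ring
    · left; rw [hy, hx, hX]; ring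
  have h' : y + 1 = r ^ k ∨ -(y + 1) = r ^ k := by
    rcases he with rfl | rfl
    · have : y + 1 = z := by rw [hz, hy]; ring
      rw [this]; exact h
    · have : y + 1 = -z := by rw [hz, hy]; ring
      rw [this, neg_neg]; exact h.symm
  have h4X : (4 : ℤ) ∣ X := by
    rw [hX]
    have : (4 : ℤ) = 2 ^ 2 := by norm_num
    rw [this]; exact pow_dvd_pow _ (by omega)
  rcases pow_cases hk hr h' with ⟨s, hs, hsq⟩ | ⟨s, hsq⟩ | ⟨s, j, hs, hj, hj3, hpow⟩
  · -- y + 1 = s ^ 2
    have hypos : y = X := by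
      rcases hyX with h | h
      · exact h
      · exfalso; nlinarith [sq_nonneg s]
    have hprod : (s - 1) * (s + 1) = X := by rw [← hypos]; linear_combination -hsq
    have hne : (s - 1) * (s + 1) ≠ 0 := by rw [hprod]; omega
    have hd : (2 : ℤ) ^ ((m - 1) + 1) ∣ (s - 1) * (s + 1) := by
      rw [hprod, hX, Nat.sub_add_cancel (by omega)]
    have hhalf : 2 * (2 : ℤ) ^ (m - 1) = X := by
      rw [hX, ← pow_succ']; congr 1; omega
    have h8 : 8 ≤ (2 : ℤ) ^ (m - 1) := by linarith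
    have hbig : (2 : ℤ) ^ (m - 1) ≤ |s| + 1 := by
      rcases two_pow_dvd_factor hs (by decide : Odd (1:ℤ)) hd with hd | hd
      · have h1 := le_abs_of_dvd hd (left_ne_zero_of_mul hne)
        rw [abs_of_nonneg (by positivity)] at h1
        calc _ ≤ |s - 1| := h1
          _ ≤ |s| + |1| := abs_sub _ _
          _ = |s| + 1 := by norm_num
      · have h1 := le_abs_of_dvd hd (right_ne_zero_of_mul hne)
        rw [abs_of_nonneg (by positivity)] at h1
        calc _ ≤ |s + 1| := h1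
          _ ≤ |s| + |1| := abs_add_le _ _
          _ = |s| + 1 := by norm_num
    have hs2 : |s| ^ 2 = X + 1 := by rw [sq_abs, ← hypos, hsq]
    nlinarith
  · -- -(y + 1) is a square
    apply sq_mod_four (s := s)
    rw [← hsq]
    rcases hyX with rfl | rfl <;> omega
  · obtain ⟨Q, hQ, hfac⟩ := pow_sub_one_factor hs hj
    have hyne : y ≠ 0 := by rcases hyX with rfl | rfl <;> omega
    have hfy : s ^ j - 1 = y := by rw [← hpow]; ring
    have hXy : X ∣ y := by
      rcases hyX with rfl | rfl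
      · exact dvd_refl _
      · exact (dvd_neg).mpr (dvd_refl _)
    have hdvd : (2 : ℤ) ^ m ∣ (s - 1) * Q := by
      rw [← hfac, hfy, ← hX]; exact hXy
    have hds : X ∣ s - 1 := by
      have := two_pow_dvd_of_odd hQ hdvd
      rwa [← hX] at this
    have hs1 : s - 1 ≠ 0 := by
      intro h0
      rw [h0, zero_mul] at hfac
      exact hyne (by rw [← hfy, hfac])
    have hsX : X ≤ |s - 1| := by
      have := le_abs_of_dvd hds hs1
      rwa [abs_of_pos (by linarith : (0:ℤ) < X)] at this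
    have hsX' : X - 1 ≤ |s| := by
      have : |s - 1| ≤ |s| + 1 := by
        calc |s - 1| ≤ |s| + |1| := abs_sub _ _
          _ = |s| + 1 := by norm_num
      linarith
    have hup : |s| ^ j ≤ X + 1 := by
      rw [← abs_pow, ← hpow, abs_le]
      rcases hyX with rfl | rfl <;> constructor <;> linarith
    have h1 : |s| ^ 3 ≤ |s| ^ j := pow_le_pow_right₀ (by linarith) hj3
    have h2 : (X - 1) ^ 3 ≤ |s| ^ 3 := pow_le_pow_left₀ (by linarith) hsX' 3
    have h3 : X + 1 < (X - 1) ^ 3 := by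
      have : 15 ^ 2 ≤ (X - 1) ^ 2 := pow_le_pow_left₀ (by norm_num) (by linarith) 2
      have h5 : (X - 1) ^ 3 = (X - 1) ^ 2 * (X - 1) := by ring
      rw [h5]; nlinarith
    linarith

end Pool.Agent.Lib.Szpiro
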