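import Mathlib
import Pool.Agent.Lib.MP_d8bd92_nt.Param7
import Pool.Agent.Lib.MP_d8bd92_nt.TwoAdic2

set_option autoImplicit false

namespace Pool.Agent.Lib.Szpiro

/-- The product of the primes dividing a natural number. -/
theorem prod_le_rad {n : ℕ} (hn : n ≠ 0) (T : Finset ℕ) (hT : ∀ p ∈ T, p.Prime ∧ p ∣ n) :
    ∏ p ∈ T, p ≤ ∏ p ∈ n.primeFactors, p := by
  apply Finset.prod_le_prod_of_subset_of_one_le'
  · intro p hp
    exact Nat.mem_primeFactors.mpr ⟨(hT p hp).1, (hT p hp).2, hn⟩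
  · intro p hp _
    exact (Nat.prime_of_mem_primeFactors hp).one_le

theorem card_four {n p q r s : ℕ} (hn : n ≠ 0) (hp : p.Prime) (hq : q.Prime) (hr : r.Prime)
    (hs : s.Prime) (hpn : p ∣ n) (hqn : q ∣ n) (hrn : r ∣ n) (hsn : s ∣ n)
    (h1 : p ≠ q) (h2 : p ≠ r) (h3 : p ≠ s) (h4 : q ≠ r) (h5 : q ≠ s) (h6 : r ≠ s) :
    4 ≤ n.primeFactors.card := by
  have : ({p, q, r, s} : Finset ℕ) ⊆ n.primeFactors := by
    intro x hx
    simp only [Finset.mem_insert, Finset.mem_singleton] at hx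
    rw [Nat.mem_primeFactors]
    rcases hx with rfl | rfl | rfl | rfl
    · exact ⟨hp, hpn, hn⟩
    · exact ⟨hq, hqn, hn⟩
    · exact ⟨hr, hrn, hn⟩
    · exact ⟨hs, hsn, hn⟩
  have h := Finset.card_le_card this
  have hc : ({p, q, r, s} : Finset ℕ).card = 4 := by
    rw [Finset.card_insert_of_notMem, Finset.card_insert_of_notMem,
      Finset.card_insert_of_notMem, Finset.card_singleton]
    · simpa using h6
    · simp [h4, h5]
    · simp [h1, h2, h3]
  omega

theorem three_le_rad {n p q r : ℕ} (hn : n ≠ 0) (hp : p.Prime) (hq : q.Prime) (hr : r.Prime)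
    (hpn : p ∣ n) (hqn : q ∣ n) (hrn : r ∣ n) (h1 : p ≠ q) (h2 : p ≠ r) (h4 : q ≠ r) :
    p * q * r ≤ ∏ p ∈ n.primeFactors, p := by
  have h := prod_le_rad hn {p, q, r} (by
    intro x hx
    simp only [Finset.mem_insert, Finset.mem_singleton] at hx
    rcases hx with rfl | rfl | rfl
    · exact ⟨hp, hpn⟩
    · exact ⟨hq, hqn⟩
    · exact ⟨hr, hrn⟩)
  rw [Finset.prod_insert, Finset.prod_insert, Finset.prod_singleton] at h
  · rw [mul_assoc]; exact h
  · simpa using h4
  · simp [h1, h2]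

/-- Structure of the three factors when there are at most three primes. -/
theorem structure_three {x z f : ℤ} {n : ℕ} (hn : n ≠ 0) (hx0 : x ≠ 0) (hxe : Even x)
    (hz : z = x + 1 ∨ z = x - 1) (hz0 : z ≠ 0) (hf1 : f.natAbs ≠ 1) (hf0 : f ≠ 0)
    (hxf : IsCoprime x f) (hzf : IsCoprime z f) (hxn : x.natAbs ∣ n) (hzn : z.natAbs ∣ n)
    (hfn : f.natAbs ∣ n) (hcard : n.primeFactors.card ≤ 3) :
    (∃ m, 1 ≤ m ∧ x.natAbs = 2 ^ m) ∧ (z.natAbs ≠ 1 →
      ∃ s i r k, s.Prime ∧ r.Prime ∧ 1 ≤ i ∧ 1 ≤ k ∧ z.natAbs = s ^ i ∧ f.natAbs = r ^ k ∧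
        s ≠ 2 ∧ r ≠ 2 ∧ s ≠ r) := by
  have hxz : IsCoprime x z := by
    rcases hz with rfl | rfl
    · exact ⟨-1, 1, by ring⟩
    · exact ⟨1, -1, by ring⟩
  obtain ⟨r, hr, hrf⟩ := Nat.exists_prime_and_dvd hf1
  have h2x : 2 ∣ x.natAbs := by
    rw [← Int.natCast_dvd_natCast, Int.dvd_natAbs]
    exact_mod_cast even_iff_two_dvd.mp hxe
  have hdistinct : ∀ {u v : ℤ} {p q : ℕ}, IsCoprime u v → p.Prime → p ∣ u.natAbs → q ∣ v.natAbs →
      p ≠ q := by
    intro u v p q huv hp hpu hqv hpq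
    subst hpq
    have h1 : (p : ℤ) ∣ u := Int.natCast_dvd.mpr hpu
    have h2 : (p : ℤ) ∣ v := Int.natCast_dvd.mpr hqv
    exact (Nat.prime_iff_prime_int.mp hp).not_isUnit (huv.isUnit_of_dvd' h1 h2)
  have h2r : 2 ≠ r := hdistinct hxf Nat.prime_two h2x hrf
  have hxpow : ∀ {q : ℕ}, q.Prime → q ∣ x.natAbs → q = 2 := by
    intro q hq hqx
    by_contra hq2
    by_cases hz1 : z.natAbs = 1
    · -- x = ± 2
      have hxabs : x.natAbs = 2 := by
        rcases hz with h | h <;> omega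
      rw [hxabs] at hqx
      exact hq2 ((Nat.prime_dvd_prime_iff_eq hq Nat.prime_two).mp hqx)
    · obtain ⟨s, hs, hsz⟩ := Nat.exists_prime_and_dvd hz1
      have := card_four hn Nat.prime_two hq hs hr (h2x.trans hxn) (hqx.trans hxn)
        (hsz.trans hzn) (hrf.trans hfn) (Ne.symm hq2) (hdistinct hxz Nat.prime_two h2x hsz) h2r
        (hdistinct hxz hq hqx hsz) (hdistinct hxf hq hqx hrf) (hdistinct hzf hs hsz hrf)
      omega
  constructor
  · have hx0' : x.natAbs ≠ 0 := Int.natAbs_ne_zero.mpr hx0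
    have h := Nat.eq_prime_pow_of_unique_prime_dvd (p := 2) hx0' hxpow
    refine ⟨x.natAbs.primeFactorsList.length, ?_, h⟩
    rw [Nat.one_le_iff_ne_zero]
    intro h0
    rw [h0, pow_zero] at h
    rw [h] at h2x
    omega
  · intro hz1
    obtain ⟨s, hs, hsz⟩ := Nat.exists_prime_and_dvd hz1
    have hs2 : 2 ≠ s := hdistinct hxz Nat.prime_two h2x hsz
    have hsr : s ≠ r := hdistinct hzf hs hsz hrf
    have hzpow : ∀ {q : ℕ}, q.Prime → q ∣ z.natAbs → q = s := by
      intro q hq hqz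
      by_contra hqs
      have := card_four hn Nat.prime_two hq hs hr (h2x.trans hxn) (hqz.trans hzn)
        (hsz.trans hzn) (hrf.trans hfn) (hdistinct hxz Nat.prime_two h2x hqz) hs2 h2r
        hqs (hdistinct hzf hq hqz hrf) hsr
      omega
    have hfpow : ∀ {q : ℕ}, q.Prime → q ∣ f.natAbs → q = r := by
      intro q hq hqf
      by_contra hqr
      have := card_four hn Nat.prime_two hs hq hr (h2x.trans hxn) (hsz.trans hzn)
        (hqf.trans hfn) (hrf.trans hfn) hs2 (hdistinct hxf Nat.prime_two h2x hqf) h2r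
        (hdistinct hzf hs hsz hqf) hsr hqr
      omega
    have e1 := Nat.eq_prime_pow_of_unique_prime_dvd (Int.natAbs_ne_zero.mpr hz0) hzpow
    have e2 := Nat.eq_prime_pow_of_unique_prime_dvd (Int.natAbs_ne_zero.mpr hf0) hfpow
    refine ⟨s, _, r, _, hs, hr, ?_, ?_, e1, e2, hs2.symm, h2r.symm, hsr⟩
    · rw [Nat.one_le_iff_ne_zero]
      intro h0
      rw [h0, pow_zero] at e1
      exact hz1 e1
    · rw [Nat.one_le_iff_ne_zero]
      intro h0
      rw [h0, pow_zero] at e2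
      exact hf1 e2

/-- final numerical inequality for large `m` -/
theorem final_ineq {X s r : ℕ} (hX : 2 ≤ X) (hs : s ≤ 2 * X) (hr : X ^ 3 ≤ 2 * r) :
    (X ^ 7 * s ^ 7 * r) ^ 4 ≤ (2 * s * r) ^ 21 := by
  have h1 : X ^ 28 * s ^ 7 ≤ 2 ^ 21 * r ^ 17 := by
    have h8 : 8 ≤ X ^ 16 := by
      calc 8 ≤ 2 ^ 16 := by norm_num
        _ ≤ X ^ 16 := Nat.pow_le_pow_left hX 16
    calc X ^ 28 * s ^ 7 ≤ X ^ 28 * (2 * X) ^ 7 := Nat.mul_le_mul_left _ (Nat.pow_le_pow_left hs 7)
      _ = 2 ^ 4 * X ^ 35 * 8 := by ring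
      _ ≤ 2 ^ 4 * X ^ 35 * X ^ 16 := Nat.mul_le_mul_left _ h8
      _ = 2 ^ 4 * (X ^ 3) ^ 17 := by ring
      _ ≤ 2 ^ 4 * (2 * r) ^ 17 := Nat.mul_le_mul_left _ (Nat.pow_le_pow_left hr 17)
      _ = 2 ^ 21 * r ^ 17 := by ring
  calc (X ^ 7 * s ^ 7 * r) ^ 4 = (X ^ 28 * s ^ 7) * (s ^ 21 * r ^ 4) := by ring
    _ ≤ (2 ^ 21 * r ^ 17) * (s ^ 21 * r ^ 4) := Nat.mul_le_mul_right _ h1
    _ = (2 * s * r) ^ 21 := by ring

/-- The discriminant form of the universal curve with a point of order seven. -/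
def D7 (a b : ℤ) : ℤ := (a * b * (a - b)) ^ 7 * cub7 a b

theorem D7_rot (a b : ℤ) : D7 b (b - a) = D7 a b := by unfold D7 cub7; ring
theorem C47_rot (a b : ℤ) : C47 b (b - a) = C47 a b := by unfold C47; ring
theorem D7_neg (a b : ℤ) : D7 (-a) (-b) = D7 a b := by unfold D7 cub7; ring
theorem C47_neg (a b : ℤ) : C47 (-a) (-b) = C47 a b := by unfold C47; ring

theorem coprime_rot {a b : ℤ} (h : IsCoprime a b) : IsCoprime b (b - a) := by
  obtain ⟨u, v, huv⟩ := h
  exact ⟨u + v, -u, by linear_combination huv⟩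

/-- explicit check of the inequality with a given set of primes -/
theorem check {n M : ℕ} (T : Finset ℕ) (hn : n ≠ 0) (hT : ∀ p ∈ T, p.Prime ∧ p ∣ n)
    (hM : ∏ p ∈ T, p = M) (h : n ^ 4 ≤ M ^ 21) : n ^ 4 ≤ (∏ p ∈ n.primeFactors, p) ^ 21 := by
  refine h.trans (Nat.pow_le_pow_left ?_ 21)
  rw [← hM]
  exact prod_le_rad hn T hT

theorem small_cases (a : ℤ) (ha : a ∈ ({2, -2, 3, -1, 4, -4, -3, 8, -8, 9, -7, 16, -16, 17, -15,
    32, -32, 33, -31, 64, -64, 65, -63} : Finset ℤ)) :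
    (D7 a 1).natAbs ^ 4 ≤ (∏ p ∈ (D7 a 1).natAbs.primeFactors, p) ^ 21 := by
  simp only [Finset.mem_insert, Finset.mem_singleton] at ha
  unfold D7 cub7
  rcases ha with rfl | rfl | rfl | rfl | rfl | rfl | rfl | rfl | rfl | rfl | rfl | rfl | rfl | rfl |
    rfl | rfl | rfl | rfl | rfl | rfl | rfl | rfl | rfl
  · exact check {2, 13} (by norm_num) (by intro p hp; fin_cases hp <;> norm_num) rfl (by norm_num)
  · exact check {2, 3, 7} (by norm_num) (by intro p hp; fin_cases hp <;> norm_num) rfl (by norm_num)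
  · exact check {2, 3, 29} (by norm_num) (by intro p hp; fin_cases hp <;> norm_num) rfl
      (by norm_num)
  · exact check {2, 13} (by norm_num) (by intro p hp; fin_cases hp <;> norm_num) rfl (by norm_num)
  · exact check {2, 3, 43} (by norm_num) (by intro p hp; fin_cases hp <;> norm_num) rfl
      (by norm_num)
  · exact check {2, 5, 211} (by norm_num) (by intro p hp; fin_cases hp <;> norm_num) rfl
      (by norm_num)
  · exact check {2, 3, 113} (by norm_num) (by intro p hp; fin_cases hp <;> norm_num) rfl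
      (by norm_num)
  · exact check {2, 7, 41} (by norm_num) (by intro p hp; fin_cases hp <;> norm_num) rfl
      (by norm_num)
  · exact check {2, 3, 1063} (by norm_num) (by intro p hp; fin_cases hp <;> norm_num) rfl
      (by norm_num)
  · exact check {2, 3, 127} (by norm_num) (by intro p hp; fin_cases hp <;> norm_num) rfl
      (by norm_num)
  · exact check {2, 7, 769} (by norm_num) (by intro p hp; fin_cases hp <;> norm_num) rfl
      (by norm_num)
  · exact check {2, 3, 5, 2129} (by norm_num) (by intro p hp; fin_cases hp <;> norm_num) rfl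
      (by norm_num)
  · exact check {2, 17, 7, 127} (by norm_num) (by intro p hp; fin_cases hp <;> norm_num) rfl
      (by norm_num)
  · exact check {2, 17, 2687} (by norm_num) (by intro p hp; fin_cases hp <;> norm_num) rfl
      (by norm_num)
  · exact check {2, 3, 5, 29, 181} (by norm_num) (by intro p hp; fin_cases hp <;> norm_num) rfl
      (by norm_num)
  · exact check {2, 31, 29, 853} (by norm_num) (by intro p hp; fin_cases hp <;> norm_num) rfl
      (by norm_num)
  · exact check {2, 3, 11, 13, 3163} (by norm_num) (by intro p hp; fin_cases hp <;> norm_num) rfl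
      (by norm_num)
  · exact check {2, 3, 11, 7, 13, 43} (by norm_num) (by intro p hp; fin_cases hp <;> norm_num) rfl
      (by norm_num)
  · exact check {2, 31, 37633} (by norm_num) (by intro p hp; fin_cases hp <;> norm_num) rfl
      (by norm_num)
  · exact check {2, 3, 7, 13, 17669} (by norm_num) (by intro p hp; fin_cases hp <;> norm_num) rfl
      (by norm_num)
  · exact check {2, 5, 13, 83, 3557} (by norm_num) (by intro p hp; fin_cases hp <;> norm_num) rfl
      (by norm_num)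
  · exact check {2, 5, 13, 239, 1009} (by norm_num) (by intro p hp; fin_cases hp <;> norm_num) rfl
      (by norm_num)
  · exact check {2, 3, 7, 13, 21701} (by norm_num) (by intro p hp; fin_cases hp <;> norm_num) rfl
      (by norm_num)

theorem natAbs_of_pow {x : ℤ} {m : ℕ} (h : x.natAbs = 2 ^ m) : x = 2 ^ m ∨ x = -2 ^ m := by
  rcases Int.natAbs_eq x with h1 | h1
  · left; rw [h1, h]; push_cast; rfl
  · right; rw [h1, h]; push_cast; rfl

theorem int_pow_of_natAbs {z : ℤ} {s i : ℕ} (h : z.natAbs = s ^ i) :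
    z = (s : ℤ) ^ i ∨ -z = (s : ℤ) ^ i := by
  rcases Int.natAbs_eq z with h1 | h1
  · left; rw [h1, h]; push_cast; rfl
  · right; rw [h1, h]; push_cast; ring

theorem zabs_ne_one {x z : ℤ} {X : ℕ} (hx : x.natAbs = X) (hX : 3 ≤ X)
    (hz : z = x + 1 ∨ z = x - 1) : z.natAbs ≠ 1 := by
  rcases hz with h | h <;> omega

theorem zabs_le {x z : ℤ} {X : ℕ} (hx : x.natAbs = X) (hX : 3 ≤ X)
    (hz : z = x + 1 ∨ z = x - 1) : z.natAbs ≤ 2 * X := by
  rcases hz with h | h <;> omega

theorem main_b_one (a : ℤ) (hne : D7 a 1 ≠ 0) (hcop : IsCoprime (C47 a 1) (D7 a 1))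
    (hcard : (D7 a 1).natAbs.primeFactors.card ≤ 3) :
    (D7 a 1).natAbs ^ 4 ≤ (∏ p ∈ (D7 a 1).natAbs.primeFactors, p) ^ 21 := by
  have ha0 : a ≠ 0 := by
    rintro rfl; exact hne (by unfold D7; ring)
  have ha1 : a - 1 ≠ 0 := by
    intro h
    have : a = 1 := by linarith
    subst this
    exact hne (by unfold D7; ring)
  obtain ⟨f, hf⟩ : ∃ f, f = a ^ 3 - 8 * a ^ 2 + 5 * a + 1 := ⟨_, rfl⟩
  have hcub : cub7 a 1 = f := by rw [hf]; unfold cub7; ring
  have hDeq : D7 a 1 = (a * (a - 1)) ^ 7 * f := by unfold D7; rw [hcub]; ring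
  have hf0 : f ≠ 0 := by
    rintro rfl; exact hne (by rw [hDeq, mul_zero])
  have hfne1 : f ≠ 1 := by
    intro h
    have h1 : a * ((a - 4) ^ 2 - 11) = 0 := by rw [hf] at h; linear_combination h
    rcases mul_eq_zero.mp h1 with h1 | h1
    · exact ha0 h1
    · have h2 : (a - 4) ^ 2 = 11 := by linarith
      have h3 : a - 4 ≤ 3 := by nlinarith
      have h4 : -3 ≤ a - 4 := by nlinarith
      obtain ⟨y, hy⟩ : ∃ y, y = a - 4 := ⟨_, rfl⟩
      rw [← hy] at h2 h3 h4
      interval_cases y <;> omega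
  have hfne2 : f ≠ -1 := by
    intro h
    have h1 : (a - 1) * ((2 * a - 7) ^ 2 - 57) = 0 := by rw [hf] at h; linear_combination 4 * h
    rcases mul_eq_zero.mp h1 with h1 | h1
    · exact ha1 h1
    · have h2 : (2 * a - 7) ^ 2 = 57 := by linarith
      have h3 : 2 * a - 7 ≤ 7 := by nlinarith
      have h4 : -7 ≤ 2 * a - 7 := by nlinarith
      obtain ⟨y, hy⟩ : ∃ y, y = 2 * a - 7 := ⟨_, rfl⟩
      rw [← hy] at h2 h3 h4
      interval_cases y <;> omega
  have hf1 : f.natAbs ≠ 1 := by omega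
  have hcopa : IsCoprime a f := ⟨-(a ^ 2 - 8 * a + 5), 1, by rw [hf]; ring⟩
  have hcopa1 : IsCoprime (a - 1) f := ⟨(a ^ 2 - 7 * a - 2), -1, by rw [hf]; ring⟩
  obtain ⟨n, hn⟩ : ∃ n, n = (D7 a 1).natAbs := ⟨_, rfl⟩
  have hn' : n = (a.natAbs * (a - 1).natAbs) ^ 7 * f.natAbs := by
    rw [hn, hDeq, Int.natAbs_mul, Int.natAbs_pow, Int.natAbs_mul]
  have hn0 : n ≠ 0 := by rw [hn]; exact Int.natAbs_ne_zero.mpr hne
  have hna : a.natAbs ∣ n := by
    rw [hn']
    exact Dvd.dvd.mul_right (dvd_pow (Dvd.intro _ rfl) (by norm_num)) _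
  have hna1 : (a - 1).natAbs ∣ n := by
    rw [hn']
    exact Dvd.dvd.mul_right (dvd_pow (Dvd.intro_left _ rfl) (by norm_num)) _
  have hnf : f.natAbs ∣ n := by rw [hn']; exact Dvd.intro_left _ rfl
  have hfodd : Odd f := by
    rcases Int.even_or_odd' a with ⟨c, hc | hc⟩
    · exact ⟨4 * c ^ 3 - 16 * c ^ 2 + 5 * c, by rw [hf, hc]; ring⟩
    · exact ⟨4 * c ^ 3 - 10 * c ^ 2 - 8 * c - 1, by rw [hf, hc]; ring⟩
  rw [← hn] at hcard ⊢
  -- a common final argument
  have key : ∀ (x z : ℤ) (m : ℕ), x * z = a * (a - 1) → x.natAbs = 2 ^ m → 7 ≤ m →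
      (z = x + 1 ∨ z = x - 1) → (z.natAbs ≠ 1 → ∃ s i r k, s.Prime ∧ r.Prime ∧ 1 ≤ i ∧ 1 ≤ k ∧
        z.natAbs = s ^ i ∧ f.natAbs = r ^ k ∧ s ≠ 2 ∧ r ≠ 2 ∧ s ≠ r) →
      (∀ r k : ℕ, 2 ≤ k → r ≠ 2 → r.Prime → f.natAbs = r ^ k → False) →
      (2 ^ m) ^ 3 ≤ 2 * f.natAbs →
      n ^ 4 ≤ (∏ p ∈ n.primeFactors, p) ^ 21 := by
    intro x z m hxz hx hm hz hst hk hlarge
    have hX : 128 ≤ 2 ^ m := by
      calc 128 = 2 ^ 7 := by norm_num
        _ ≤ 2 ^ m := Nat.pow_le_pow_right (by norm_num) hm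
    have hz1 : z.natAbs ≠ 1 := zabs_ne_one hx (le_trans (by norm_num) hX) hz
    obtain ⟨s, i, r, k, hs, hr, hi, hk1, hzs, hfr, hs2, hr2, hsr⟩ := hst hz1
    have hi1 : i = 1 := by
      by_contra hi1
      have hsodd : Odd (s : ℤ) := by
        exact_mod_cast hs.odd_of_ne_two hs2
      rcases hz with h' | h'
      · exact pm_one_not_power (by omega) (natAbs_of_pow hx) (Or.inl rfl) h' (k := i) (by omega)
          hsodd (int_pow_of_natAbs hzs)
      · exact pm_one_not_power (by omega) (natAbs_of_pow hx) (Or.inr rfl)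
          (by rw [h']; ring) (k := i) (by omega) hsodd (int_pow_of_natAbs hzs)
    have hk1' : k = 1 := by
      by_contra hk1'
      exact hk r k (by omega) hr2 hr hfr
    subst hi1; subst hk1'
    rw [pow_one] at hzs hfr
    have hnn : n = (2 ^ m) ^ 7 * s ^ 7 * r := by
      have : n = (x.natAbs * z.natAbs) ^ 7 * f.natAbs := by
        rw [hn', ← Int.natAbs_mul, ← Int.natAbs_mul, hxz]
      rw [this, hx, hzs, hfr]; ring
    have h2n : 2 ∣ n := by
      rw [hnn]
      exact ((dvd_pow_self 2 (by omega : m ≠ 0)).trans (dvd_pow_self _ (by norm_num))).mul_right _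
        |>.mul_right _
    have hsn : s ∣ n := by
      rw [hnn]; exact ((dvd_pow_self s (by norm_num)).mul_left _).mul_right _
    have hrn : r ∣ n := by rw [hnn]; exact dvd_mul_left _ _
    have hrad := three_le_rad hn0 Nat.prime_two hs hr h2n hsn hrn hs2.symm hr2.symm hsr
    have hs_le : s ≤ 2 * 2 ^ m := by
      rw [← hzs]; exact zabs_le hx (le_trans (by norm_num) hX) hz
    rw [hfr] at hlarge
    calc n ^ 4 = ((2 ^ m) ^ 7 * s ^ 7 * r) ^ 4 := by rw [hnn]
      _ ≤ (2 * s * r) ^ 21 := final_ineq (by omega) hs_le hlarge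
      _ ≤ _ := Nat.pow_le_pow_left hrad 21
  rcases Int.even_or_odd a with hae | hao
  · -- `a` even
    obtain ⟨⟨m, hm1, hxm⟩, hst⟩ := structure_three hn0 ha0 hae (z := a - 1) (Or.inr rfl) ha1 hf1
      hf0 hcopa hcopa1 hna hna1 hnf hcard
    by_cases hm : 7 ≤ m
    · refine key a (a - 1) m rfl hxm hm (Or.inr rfl) hst ?_ ?_
      · intro r k hk hr2 hr hfr
        have hrodd : Odd (r : ℤ) := by exact_mod_cast hr.odd_of_ne_two hr2
        refine cubic_one_not_power hm (natAbs_of_pow hxm) hk hrodd ?_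
        rw [← hf]; exact int_pow_of_natAbs hfr
      · have hX : (128 : ℤ) ≤ 2 ^ m := by
          calc (128 : ℤ) = 2 ^ 7 := by norm_num
            _ ≤ 2 ^ m := pow_le_pow_right₀ (by norm_num) hm
        have hgoal : ((2 : ℤ) ^ m) ^ 3 ≤ 2 * |f| := by
          have hxx := natAbs_of_pow hxm
          rw [hf]
          generalize (2 : ℤ) ^ m = X at *
          have e7 : 128 * X ^ 2 ≤ X ^ 3 := by nlinarith [sq_nonneg X]
          have e8 : 128 * X ≤ X ^ 2 := by nlinarith
          rcases hxx with rfl | rfl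
          · have := le_abs_self (a ^ 3 - 8 * a ^ 2 + 5 * a + 1)
            linarith
          · have := neg_abs_le ((-X) ^ 3 - 8 * (-X) ^ 2 + 5 * (-X) + 1)
            have h1 : (-X) ^ 3 - 8 * (-X) ^ 2 + 5 * (-X) + 1 = -(X ^ 3 + 8 * X ^ 2 + 5 * X - 1) := by
              ring
            rw [h1, abs_neg]
            have := le_abs_self (X ^ 3 + 8 * X ^ 2 + 5 * X - 1)
            linarith
        rw [Int.abs_eq_natAbs] at hgoal
        exact_mod_cast hgoal
    · rw [hn]
      apply small_cases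
      have hm6 : m ≤ 6 := by omega
      have hxx := natAbs_of_pow hxm
      interval_cases m <;> norm_num at hxx <;> rcases hxx with rfl | rfl <;> decide
  · -- `a` odd
    have hxe : Even (a - 1) := by
      obtain ⟨c, hc⟩ := hao
      exact ⟨c, by linarith⟩
    obtain ⟨⟨m, hm1, hxm⟩, hst⟩ := structure_three hn0 ha1 hxe (z := a) (Or.inl (by ring)) ha0 hf1
      hf0 hcopa1 hcopa hna1 hna hnf hcard
    by_cases hm : 7 ≤ m
    · refine key (a - 1) a m (by ring) hxm hm (Or.inl (by ring)) hst ?_ ?_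
      · intro r k hk hr2 hr hfr
        have hrodd : Odd (r : ℤ) := by exact_mod_cast hr.odd_of_ne_two hr2
        refine cubic_two_not_power hm (natAbs_of_pow hxm) hk hrodd ?_
        have e : 1 + 8 * (a - 1) + 5 * (a - 1) ^ 2 - (a - 1) ^ 3 = -f := by rw [hf]; ring
        rw [e, neg_neg]; exact (int_pow_of_natAbs hfr).symm
      · have hX : (128 : ℤ) ≤ 2 ^ m := by
          calc (128 : ℤ) = 2 ^ 7 := by norm_num
            _ ≤ 2 ^ m := pow_le_pow_right₀ (by norm_num) hm
        have hgoal : ((2 : ℤ) ^ m) ^ 3 ≤ 2 * |f| := by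
          have hxx := natAbs_of_pow hxm
          have e : f = (a - 1) ^ 3 - 5 * (a - 1) ^ 2 - 8 * (a - 1) - 1 := by rw [hf]; ring
          rw [e]
          generalize (2 : ℤ) ^ m = X at *
          generalize a - 1 = x at *
          have e7 : 128 * X ^ 2 ≤ X ^ 3 := by nlinarith [sq_nonneg X]
          have e8 : 128 * X ≤ X ^ 2 := by nlinarith
          rcases hxx with rfl | rfl
          · have := le_abs_self (x ^ 3 - 5 * x ^ 2 - 8 * x - 1)
            linarith
          · have h1 : (-X) ^ 3 - 5 * (-X) ^ 2 - 8 * (-X) - 1 = -(X ^ 3 + 5 * X ^ 2 - 8 * X + 1) := by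
              ring
            rw [h1, abs_neg]
            have := le_abs_self (X ^ 3 + 5 * X ^ 2 - 8 * X + 1)
            linarith
        rw [Int.abs_eq_natAbs] at hgoal
        exact_mod_cast hgoal
    · have hm6 : m ≤ 6 := by omega
      have hxx := natAbs_of_pow hxm
      by_cases ha5 : a = 5
      · exfalso
        subst ha5
        have h1 : (7 : ℤ) ∣ C47 5 1 := by unfold C47; norm_num
        have h2 : (7 : ℤ) ∣ D7 5 1 := by unfold D7 cub7; norm_num
        have := hcop.isUnit_of_dvd' h1 h2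
        rw [Int.isUnit_iff] at this
        omega
      · rw [hn]
        apply small_cases
        interval_cases m <;> norm_num at hxx <;> rcases hxx with h | h
        · obtain rfl : a = 3 := by omega
          decide
        · obtain rfl : a = -1 := by omega
          decide
        · exact absurd (by omega : a = 5) ha5
        · obtain rfl : a = -3 := by omega
          decide
        · obtain rfl : a = 9 := by omega
          decide
        · obtain rfl : a = -7 := by omega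
          decide
        · obtain rfl : a = 17 := by omega
          decide
        · obtain rfl : a = -15 := by omega
          decide
        · obtain rfl : a = 33 := by omega
          decide
        · obtain rfl : a = -31 := by omega
          decide
        · obtain rfl : a = 65 := by omega
          decide
        · obtain rfl : a = -63 := by omega
          decide

theorem aux_bound {A P Q R : ℤ} (hA : 2 ≤ A) (hP : 0 < P) (hQP : Q ≤ P) (hRP : R < P)
    (h : A ^ 2 * P ≤ R + A * Q) : False := by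
  have h1 : 2 * P ≤ A * P := mul_le_mul_of_nonneg_right hA hP.le
  have h2 : 2 * (A * P) ≤ A * (A * P) := mul_le_mul_of_nonneg_right hA (by linarith)
  have h3 : A * Q ≤ A * P := mul_le_mul_of_nonneg_left hQP (by linarith)
  have h4 : A ^ 2 * P = A * (A * P) := by ring
  rw [h4] at h
  linarith

theorem x_bound {A x : ℤ} (hA2 : 2 ≤ A) (hbound : A ^ 2 * |x ^ 3 + 5 * x ^ 2 - 8 * x + 1| ≤
    |3 * x + 5| + A * |3 * x ^ 2 + 10 * x - 8|) : -11 ≤ x ∧ x ≤ 9 := by
  constructor
  · by_contra hcon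
    obtain ⟨y, rfl⟩ : ∃ y, x = -y := ⟨-x, by ring⟩
    have hy : 12 ≤ y := by omega
    have e1 : (-y) ^ 3 + 5 * (-y) ^ 2 - 8 * (-y) + 1 = -(y ^ 3 - 5 * y ^ 2 - 8 * y - 1) := by ring
    have e2 : 3 * (-y) + 5 = -(3 * y - 5) := by ring
    have e3 : 3 * (-y) ^ 2 + 10 * (-y) - 8 = 3 * y ^ 2 - 10 * y - 8 := by ring
    have h1 : 12 * y ^ 2 ≤ y ^ 3 := by nlinarith [sq_nonneg y]
    have h2 : 12 * y ≤ y ^ 2 := by nlinarith
    have h6 : 0 < y ^ 3 - 5 * y ^ 2 - 8 * y - 1 := by linarith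
    rw [e1, e2, e3, abs_neg, abs_neg, abs_of_nonneg h6.le,
      abs_of_nonneg (by linarith : (0:ℤ) ≤ 3 * y - 5),
      abs_of_nonneg (by linarith : (0:ℤ) ≤ 3 * y ^ 2 - 10 * y - 8)] at hbound
    exact aux_bound hA2 h6 (by linarith) (by linarith) hbound
  · by_contra hcon
    have hx10 : 10 ≤ x := by omega
    have h1 : 10 * x ^ 2 ≤ x ^ 3 := by nlinarith [sq_nonneg x]
    have h2 : 10 * x ≤ x ^ 2 := by nlinarith
    have h6 : 0 < x ^ 3 + 5 * x ^ 2 - 8 * x + 1 := by linarith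
    rw [abs_of_nonneg h6.le,
      abs_of_nonneg (by linarith : (0:ℤ) ≤ 3 * x + 5),
      abs_of_nonneg (by linarith : (0:ℤ) ≤ 3 * x ^ 2 + 10 * x - 8)] at hbound
    exact aux_bound hA2 h6 (by linarith) (by linarith) hbound

theorem thue7_check : ∀ x ∈ Finset.Icc (-11 : ℤ) 9, ∀ A ∈ ({2, 4, 8, 16, 32} : Finset ℤ),
    (3 * x + 5) + A * (3 * x ^ 2 + 10 * x - 8) + A ^ 2 * (x ^ 3 + 5 * x ^ 2 - 8 * x + 1) ≠ 0 ∧
    (3 * x + 5) - A * (3 * x ^ 2 + 10 * x - 8) + A ^ 2 * (x ^ 3 + 5 * x ^ 2 - 8 * x + 1) ≠ 0 := by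
  decide +kernel

/-- The Thue equation `cub7 (± 2 ^ m) b = ± 1` has no solutions with `m ≥ 1`. -/
theorem thue7 {a b d : ℤ} {m : ℕ} (hm : 1 ≤ m) (ha : a = 2 ^ m ∨ a = -2 ^ m)
    (hd : d = 1 ∨ d = -1) (h : cub7 a b = d) : False := by
  unfold cub7 at h
  obtain ⟨A, hA⟩ : ∃ A : ℤ, A = 2 ^ m := ⟨_, rfl⟩
  have hA2 : 2 ≤ A := by
    rw [hA]
    calc (2 : ℤ) = 2 ^ 1 := by norm_num
      _ ≤ 2 ^ m := pow_le_pow_right₀ (by norm_num) hm
  rw [← hA] at ha
  have haA : a ∣ A := by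
    rcases ha with rfl | rfl
    · exact dvd_refl _
    · exact (neg_dvd).mpr (dvd_refl _)
  have hAa : A ∣ a := by
    rcases ha with rfl | rfl
    · exact dvd_refl _
    · exact (dvd_neg).mpr (dvd_refl _)
  have ha2 : (2 : ℤ) ∣ a := by
    refine dvd_trans ?_ hAa
    rw [hA]; exact dvd_pow_self _ (by omega)
  have ha0 : a ≠ 0 := by rcases ha with rfl | rfl <;> omega
  have hd2 : d ^ 2 = 1 := by rcases hd with rfl | rfl <;> norm_num
  have hbo : Odd b := by
    rcases Int.even_or_odd b with hb | hb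
    · exfalso
      obtain ⟨u, hu⟩ := ha2
      obtain ⟨v, hv⟩ := hb
      have : d = 2 * (4 * u ^ 3 - 8 * (2 * u ^ 2) * (2 * v) + 5 * u * (2 * v) ^ 2 + 4 * v ^ 3) := by
        rw [← h, hu, hv]; ring
      rcases hd with rfl | rfl <;> omega
    · exact hb
  -- `b ≡ d` modulo `a`
  have hQ : Odd (b ^ 2 + d * b + 1) := by
    obtain ⟨v, hv⟩ := hbo
    rcases hd with rfl | rfl
    · exact ⟨2 * v ^ 2 + 3 * v + 1, by rw [hv]; ring⟩
    · exact ⟨2 * v ^ 2 + v, by rw [hv]; ring⟩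
  have hdvd : (2 : ℤ) ^ m ∣ (b - d) * (b ^ 2 + d * b + 1) := by
    rw [← hA]
    refine dvd_trans hAa ⟨-(a ^ 2 - 8 * a * b + 5 * b ^ 2), ?_⟩
    have : d ^ 2 * b = b := by rw [hd2, one_mul]
    linear_combination h - this
  have hbd : a ∣ b - d := haA.trans (by rw [hA]; exact two_pow_dvd_of_odd hQ hdvd)
  obtain ⟨x, hx⟩ := hbd
  have hb : b = d + a * x := by linarith
  have hd3 : d ^ 3 = d := by rw [pow_succ, hd2, one_mul]
  have hrel : (3 * x + 5) + d * a * (3 * x ^ 2 + 10 * x - 8) + a ^ 2 * (x ^ 3 + 5 * x ^ 2 - 8 * x + 1)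
      = 0 := by
    have h2 : a * ((3 * x + 5) + d * a * (3 * x ^ 2 + 10 * x - 8)
        + a ^ 2 * (x ^ 3 + 5 * x ^ 2 - 8 * x + 1)) = 0 := by
      rw [hb] at h
      linear_combination h - (3 * a * x + 5 * a) * hd2 - hd3
    rcases mul_eq_zero.mp h2 with h | h
    · exact absurd h ha0
    · exact h
  have hdiv : a ∣ 3 * x + 5 := ⟨-(d * (3 * x ^ 2 + 10 * x - 8) + a * (x ^ 3 + 5 * x ^ 2 - 8 * x + 1)),
    by linear_combination hrel⟩
  have hAle : A ≤ |3 * x + 5| := by
    have := le_abs_of_dvd (hAa.trans hdiv) (by omega)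
    rwa [abs_of_pos (by linarith : (0:ℤ) < A)] at this
  -- bound on `x`
  have hA4 : A ^ 2 = a ^ 2 := by rcases ha with rfl | rfl <;> ring
  have hbound : A ^ 2 * |x ^ 3 + 5 * x ^ 2 - 8 * x + 1| ≤ |3 * x + 5| + A * |3 * x ^ 2 + 10 * x - 8| := by
    have e1 : A ^ 2 * |x ^ 3 + 5 * x ^ 2 - 8 * x + 1| = |a ^ 2 * (x ^ 3 + 5 * x ^ 2 - 8 * x + 1)| := by
      rw [abs_mul, ← hA4, abs_of_nonneg (by positivity : (0:ℤ) ≤ A ^ 2)]
    have e2 : A * |3 * x ^ 2 + 10 * x - 8| = |d * a * (3 * x ^ 2 + 10 * x - 8)| := by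
      rw [abs_mul, abs_mul]
      have h1 : |d| = 1 := by rcases hd with rfl | rfl <;> norm_num
      have h2 : |a| = A := by
        rcases ha with rfl | rfl
        · exact abs_of_pos (by linarith)
        · rw [abs_neg]; exact abs_of_pos (by linarith)
      rw [h1, h2, one_mul]
    rw [e1, e2]
    have e3 : a ^ 2 * (x ^ 3 + 5 * x ^ 2 - 8 * x + 1)
        = -((3 * x + 5) + d * a * (3 * x ^ 2 + 10 * x - 8)) := by linear_combination hrel
    rw [e3, abs_neg]
    exact abs_add_le _ _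
  obtain ⟨hx9', hx9⟩ := x_bound hA2 hbound
  have hA32 : A ≤ 32 := by
    refine hAle.trans ?_
    rw [abs_le]; constructor <;> linarith
  have hda : d * a = A ∨ d * a = -A := by
    rcases hd with rfl | rfl <;> rcases ha with rfl | rfl
    · left; ring
    · right; ring
    · right; ring
    · left; ring
  have hAmem : A ∈ ({2, 4, 8, 16, 32} : Finset ℤ) := by
    have hm5 : m ≤ 5 := by
      by_contra hcon
      have : (2 : ℤ) ^ 6 ≤ 2 ^ m := pow_le_pow_right₀ (by norm_num) (by omega)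
      rw [← hA] at this
      linarith
    rw [hA]
    interval_cases m <;> decide
  obtain ⟨c1, c2⟩ := thue7_check x (Finset.mem_Icc.mpr ⟨hx9', hx9⟩) A hAmem
  rw [← hA4] at hrel
  rcases hda with h1 | h1
  · rw [h1] at hrel; exact c1 hrel
  · rw [h1] at hrel; exact c2 (by linear_combination hrel)

theorem ne_of_coprime {u v : ℤ} {p q : ℕ} (huv : IsCoprime u v) (hp : p.Prime)
    (hpu : p ∣ u.natAbs) (hqv : q ∣ v.natAbs) : p ≠ q := by
  intro hpq
  subst hpq
  have h1 : (p : ℤ) ∣ u := Int.natCast_dvd.mpr hpu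
  have h2 : (p : ℤ) ∣ v := Int.natCast_dvd.mpr hqv
  exact (Nat.prime_iff_prime_int.mp hp).not_isUnit (huv.isUnit_of_dvd' h1 h2)

theorem cub7_rot (a b : ℤ) : cub7 b (b - a) = - cub7 a b := by unfold cub7; ring

theorem coprime_cub7_left {a b : ℤ} (h : IsCoprime a b) : IsCoprime a (cub7 a b) := by
  have h3 : IsCoprime a (b ^ 3) := h.pow_right
  have : cub7 a b = b ^ 3 + a * (a ^ 2 - 8 * a * b + 5 * b ^ 2) := by unfold cub7; ring
  rw [this]
  exact IsCoprime.add_mul_left_right h3 _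

theorem coprime_sub {a b : ℤ} (h : IsCoprime a b) : IsCoprime a (a - b) := by
  obtain ⟨u, v, huv⟩ := h
  exact ⟨u + v, -v, by linear_combination huv⟩

theorem coprime_sub' {a b : ℤ} (h : IsCoprime a b) : IsCoprime b (a - b) := by
  obtain ⟨u, v, huv⟩ := h
  exact ⟨u + v, u, by linear_combination huv⟩

theorem dvd_D7 (a b : ℤ) : a.natAbs ∣ (D7 a b).natAbs ∧ b.natAbs ∣ (D7 a b).natAbs ∧
    (a - b).natAbs ∣ (D7 a b).natAbs ∧ (cub7 a b).natAbs ∣ (D7 a b).natAbs := by
  unfold D7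
  refine ⟨?_, ?_, ?_, ?_⟩ <;> rw [Int.natAbs_dvd_natAbs]
  · exact Dvd.dvd.mul_right (dvd_pow (by rw [mul_assoc]; exact dvd_mul_right _ _) (by norm_num)) _
  · exact Dvd.dvd.mul_right (dvd_pow (by rw [mul_comm a b, mul_assoc]; exact dvd_mul_right _ _)
      (by norm_num)) _
  · exact Dvd.dvd.mul_right (dvd_pow (dvd_mul_left _ _) (by norm_num)) _
  · exact dvd_mul_left _ _

/-- If `a` is even and none of `a`, `b`, `a - b` is a unit, then there are at least four
bad primes. -/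
theorem no_unit_even {a b : ℤ} (hab : IsCoprime a b) (hne : D7 a b ≠ 0)
    (hcard : (D7 a b).natAbs.primeFactors.card ≤ 3) (ha : a.natAbs ≠ 1) (hb : b.natAbs ≠ 1)
    (hc : (a - b).natAbs ≠ 1) (hae : Even a) : False := by
  obtain ⟨da, db, dc, dcub⟩ := dvd_D7 a b
  have hn : (D7 a b).natAbs ≠ 0 := Int.natAbs_ne_zero.mpr hne
  obtain ⟨q, hq, hqb⟩ := Nat.exists_prime_and_dvd hb
  obtain ⟨r, hr, hrc⟩ := Nat.exists_prime_and_dvd hc
  have h2a : 2 ∣ a.natAbs := by
    rw [← Int.natCast_dvd_natCast, Int.dvd_natAbs]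
    exact_mod_cast even_iff_two_dvd.mp hae
  have h2q := ne_of_coprime hab Nat.prime_two h2a hqb
  have h2r := ne_of_coprime (coprime_sub hab) Nat.prime_two h2a hrc
  have hqr := ne_of_coprime (coprime_sub' hab) hq hqb hrc
  have ha0 : a ≠ 0 := by
    rintro rfl; exact hne (by unfold D7; ring)
  -- the cubic form is `± 1`
  have hcub : (cub7 a b).natAbs = 1 := by
    by_contra hcub
    obtain ⟨s, hs, hsc⟩ := Nat.exists_prime_and_dvd hcub
    have e1 := ne_of_coprime (coprime_cub7_left hab) Nat.prime_two h2a hsc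
    have e2 : q ≠ s := by
      have h := coprime_cub7_left (coprime_rot hab)
      rw [cub7_rot] at h
      exact ne_of_coprime h hq hqb (by rw [Int.natAbs_neg]; exact hsc)
    have e3 : r ≠ s := by
      have h := coprime_cub7_left (coprime_rot (coprime_rot hab))
      rw [cub7_rot, cub7_rot, neg_neg] at h
      refine ne_of_coprime h hr ?_ hsc
      rw [← Int.natAbs_neg, neg_sub]; exact hrc
    have := card_four hn Nat.prime_two hq hr hs (h2a.trans da) (hqb.trans db) (hrc.trans dc)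
      (hsc.trans dcub) h2q h2r e1 hqr e2 e3
    omega
  -- `a` is a power of two
  have hapow : ∀ {p : ℕ}, p.Prime → p ∣ a.natAbs → p = 2 := by
    intro p hp hpa
    by_contra hp2
    have := card_four hn Nat.prime_two hp hq hr (h2a.trans da) (hpa.trans da) (hqb.trans db)
      (hrc.trans dc) (Ne.symm hp2) h2q h2r (ne_of_coprime hab hp hpa hqb)
      (ne_of_coprime (coprime_sub hab) hp hpa hrc) hqr
    omega
  have h := Nat.eq_prime_pow_of_unique_prime_dvd (p := 2) (Int.natAbs_ne_zero.mpr ha0) hapow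
  have hm : 1 ≤ a.natAbs.primeFactorsList.length := by
    rw [Nat.one_le_iff_ne_zero]
    intro h0
    rw [h0, pow_zero] at h
    exact ha h
  have hd : cub7 a b = 1 ∨ cub7 a b = -1 := by
    rcases Int.natAbs_eq (cub7 a b) with h | h <;> rw [hcub] at h
    · left; rw [h]; norm_num
    · right; rw [h]; norm_num
  exact thue7 hm (natAbs_of_pow h) hd rfl

theorem dioph7 {a b : ℤ} (hab : IsCoprime a b) (hne : D7 a b ≠ 0)
    (hcop : IsCoprime (C47 a b) (D7 a b)) (hcard : (D7 a b).natAbs.primeFactors.card ≤ 3) :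
    (D7 a b).natAbs ^ 4 ≤ (∏ p ∈ (D7 a b).natAbs.primeFactors, p) ^ 21 := by
  -- the case `b = ± 1`
  have key : ∀ a b : ℤ, D7 a b ≠ 0 → IsCoprime (C47 a b) (D7 a b) →
      (D7 a b).natAbs.primeFactors.card ≤ 3 → b.natAbs = 1 →
      (D7 a b).natAbs ^ 4 ≤ (∏ p ∈ (D7 a b).natAbs.primeFactors, p) ^ 21 := by
    intro a b hne hcop hcard hb
    rcases Int.natAbs_eq b with h | h <;> rw [hb] at h
    · have hb1 : b = 1 := by rw [h]; norm_num
      subst hb1
      exact main_b_one a hne hcop hcard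
    · have hb1 : b = -1 := by rw [h]; norm_num
      subst hb1
      have e1 : D7 a (-1) = D7 (-a) 1 := by rw [← D7_neg a (-1), neg_neg]
      have e2 : C47 a (-1) = C47 (-a) 1 := by rw [← C47_neg a (-1), neg_neg]
      rw [e1] at hne hcop hcard ⊢
      rw [e2] at hcop
      exact main_b_one (-a) hne hcop hcard
  by_cases hb : b.natAbs = 1
  · exact key a b hne hcop hcard hb
  by_cases hc : (a - b).natAbs = 1
  · have h := key b (b - a)
    rw [D7_rot, C47_rot] at h
    exact h hne hcop hcard (by rw [← Int.natAbs_neg, neg_sub]; exact hc)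
  by_cases ha : a.natAbs = 1
  · have h := key (b - a) (b - a - b)
    rw [D7_rot, C47_rot, D7_rot, C47_rot] at h
    exact h hne hcop hcard (by rw [show b - a - b = -a by ring, Int.natAbs_neg]; exact ha)
  exfalso
  rcases Int.even_or_odd a with hae | hao
  · exact no_unit_even hab hne hcard ha hb hc hae
  rcases Int.even_or_odd b with hbe | hbo
  · refine no_unit_even (coprime_rot hab) (by rwa [D7_rot]) (by rwa [D7_rot]) hb ?_ ?_ hbe
    · rw [← Int.natAbs_neg, neg_sub]; exact hc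
    · rw [show b - (b - a) = a by ring]; exact ha
  · have hce : Even (b - a) := by
      obtain ⟨u, hu⟩ := hao
      obtain ⟨v, hv⟩ := hbo
      exact ⟨v - u, by rw [hu, hv]; ring⟩
    refine no_unit_even (coprime_rot (coprime_rot hab)) (by rwa [D7_rot, D7_rot])
      (by rwa [D7_rot, D7_rot]) ?_ ?_ ?_ hce
    · rw [← Int.natAbs_neg, neg_sub]; exact hc
    · rw [show b - a - b = -a by ring, Int.natAbs_neg]; exact ha
    · rw [show b - a - (b - a - b) = b by ring]; exact hb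

end Pool.Agent.Lib.Szpiro
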