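import Mathlib

set_option autoImplicit false

namespace Pool.Agent.Lib.MP_d8bd92_nt

open Finset Polynomial UniqueFactorizationMonoid

/-- clearing denominators -/
theorem exists_int_poly (q : ℚ[X]) :
    ∃ (p : ℤ[X]) (m : ℤ), m ≠ 0 ∧ p.map (Int.castRingHom ℚ) = C (m : ℚ) * q := by
  obtain ⟨b, hb, h⟩ := IsLocalization.integerNormalization_spec (nonZeroDivisors ℤ) q
  refine ⟨IsLocalization.integerNormalization (nonZeroDivisors ℤ) q, b,
    nonZeroDivisors.ne_zero hb, ?_⟩
  have h1 : (algebraMap ℤ ℚ) = Int.castRingHom ℚ := rfl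
  rw [← h1, h, zsmul_eq_mul]
  simp

/-- a primitive integer multiple of a rational polynomial -/
theorem exists_primitive (q : ℚ[X]) (hq : q ≠ 0) :
    ∃ p : ℤ[X], p.IsPrimitive ∧ ∃ u : ℚ, u ≠ 0 ∧ p.map (Int.castRingHom ℚ) = C u * q := by
  obtain ⟨p, m, hm, hp⟩ := exists_int_poly q
  have hp0 : p ≠ 0 := by
    intro h
    rw [h, Polynomial.map_zero] at hp
    have h1 : (C (m : ℚ) : ℚ[X]) ≠ 0 := by
      rw [Ne, C_eq_zero]; exact_mod_cast hm
    exact (mul_ne_zero h1 hq) hp.symm
  have hc0 : p.content ≠ 0 := by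
    rw [Ne, content_eq_zero_iff]; exact hp0
  refine ⟨p.primPart, p.isPrimitive_primPart, (p.content : ℚ)⁻¹ * m, ?_, ?_⟩
  · have h1 : (p.content : ℚ) ≠ 0 := by exact_mod_cast hc0
    have h2 : (m : ℚ) ≠ 0 := by exact_mod_cast hm
    positivity
  · have h1 : (p.content : ℚ) ≠ 0 := by exact_mod_cast hc0
    have h2 := p.eq_C_content_mul_primPart
    have h3 : p.map (Int.castRingHom ℚ) =
        C (p.content : ℚ) * p.primPart.map (Int.castRingHom ℚ) := by
      conv_lhs => rw [h2]
      rw [Polynomial.map_mul, map_C]; rfl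
    rw [C_mul, mul_assoc, ← hp, h3, ← mul_assoc, ← C_mul, inv_mul_cancel₀ h1, C_1, one_mul]

theorem map_cast_injective : Function.Injective (Polynomial.map (Int.castRingHom ℚ)) :=
  Polynomial.map_injective _ (Int.castRingHom ℚ).injective_int

/-- An integral Bezout relation from coprimality over the rationals. -/
theorem exists_bezout_int (f g : ℤ[X])
    (h : IsCoprime (f.map (Int.castRingHom ℚ)) (g.map (Int.castRingHom ℚ))) :
    ∃ (P Q : ℤ[X]) (d : ℤ), d ≠ 0 ∧ P * f + Q * g = C d := by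
  obtain ⟨a, b, hab⟩ := h
  obtain ⟨P, m, hm, hP⟩ := exists_int_poly a
  obtain ⟨Q, n, hn, hQ⟩ := exists_int_poly b
  refine ⟨C n * P, C m * Q, m * n, mul_ne_zero hm hn, ?_⟩
  apply map_cast_injective
  rw [Polynomial.map_add, Polynomial.map_mul, Polynomial.map_mul, Polynomial.map_mul,
    Polynomial.map_mul, hP, hQ, map_C, map_C, map_C]
  simp only [eq_intCast]
  push_cast
  calc C (n : ℚ) * (C (m : ℚ) * a) * f.map (Int.castRingHom ℚ) +
        C (m : ℚ) * (C (n : ℚ) * b) * g.map (Int.castRingHom ℚ)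
      = C (m : ℚ) * C (n : ℚ) * (a * f.map (Int.castRingHom ℚ) + b * g.map (Int.castRingHom ℚ)) := by
        ring
    _ = C (m : ℚ) * C (n : ℚ) := by rw [hab, mul_one]
    _ = _ := by rw [← C_mul]

/-- the squarefree part of an integral polynomial -/
theorem exists_squarefree_part (D : ℤ[X]) (hD : D ≠ 0) :
    ∃ (R P Q : ℤ[X]) (d : ℤ), d ≠ 0 ∧ R ∣ D ∧ P * R + Q * derivative R = C d ∧
      R.natDegree = (radical (D.map (Int.castRingHom ℚ))).natDegree := by
  set Dq := D.map (Int.castRingHom ℚ) with hDq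
  have hDq0 : Dq ≠ 0 := by
    intro h
    apply hD
    apply map_cast_injective
    rw [← hDq, h, Polynomial.map_zero]
  have hrad0 : radical Dq ≠ 0 := radical_ne_zero
  obtain ⟨R, hRprim, u, hu, hR⟩ := exists_primitive (radical Dq) hrad0
  have hCu : IsUnit (C u : ℚ[X]) := isUnit_C.mpr (isUnit_iff_ne_zero.mpr hu)
  have hassoc : Associated (radical Dq) (R.map (Int.castRingHom ℚ)) := by
    rw [hR]
    exact (associated_unit_mul_left (radical Dq) _ hCu).symm
  have hdvd : R ∣ D := by
    rw [IsPrimitive.Int.dvd_iff_map_cast_dvd_map_cast R D hRprim]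
    exact hassoc.symm.dvd.trans radical_dvd_self
  have hsq : Squarefree (R.map (Int.castRingHom ℚ)) :=
    hassoc.squarefree_iff.mp squarefree_radical
  have hsep : (R.map (Int.castRingHom ℚ)).Separable := PerfectField.separable_iff_squarefree.mpr hsq
  have hcop : IsCoprime (R.map (Int.castRingHom ℚ)) ((derivative R).map (Int.castRingHom ℚ)) := by
    rw [← Polynomial.derivative_map]; exact hsep
  obtain ⟨P, Q, d, hd, hPQ⟩ := exists_bezout_int R (derivative R) hcop
  refine ⟨R, P, Q, d, hd, hdvd, hPQ, ?_⟩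
  have h1 : (R.map (Int.castRingHom ℚ)).natDegree = R.natDegree :=
    natDegree_map_eq_of_injective (Int.castRingHom ℚ).injective_int R
  rw [← h1, hR, natDegree_C_mul hu]

/-- Mason and Stothers theorem for the relation `1728 Δ = c₄³ - c₆²`. -/
theorem mason_bound (c4 c6 D : ℚ[X]) (hrel : 1728 * D = c4 ^ 3 - c6 ^ 2) (hcop : IsCoprime c4 D)
    (hdeg : 0 < D.natDegree) :
    c4.natDegree + 2 ≤ 2 * (radical D).natDegree ∧
      D.natDegree + 6 ≤ 6 * (radical D).natDegree := by
  classical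
  have hD0 : D ≠ 0 := by intro h; rw [h, natDegree_zero] at hdeg; exact lt_irrefl _ hdeg
  have hDnu : ¬ IsUnit D := by
    intro h
    have := natDegree_eq_zero_of_isUnit h
    omega
  have h1728 : (1728 : ℚ[X]) = C 1728 := by rw [← map_ofNat C 1728]
  have hc4 : c4 ≠ 0 := by
    intro h
    rw [h] at hcop
    exact hDnu (isCoprime_zero_left.mp hcop)
  have hc6 : c6 ≠ 0 := by
    intro h
    rw [h] at hrel
    have h1 : c4 ∣ D := by
      have h2 : D = c4 * (C (1728⁻¹) * c4 ^ 2) := by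
        have h3 : D = C (1728⁻¹) * (1728 * D) := by
          rw [h1728, ← mul_assoc, ← C_mul]; norm_num
        rw [h3, hrel]; ring
      exact ⟨_, h2⟩
    have h4 : IsUnit c4 := by
      have h5 := hcop.isUnit_of_dvd' dvd_rfl h1
      exact h5
    have h6 : c4.natDegree = 0 := natDegree_eq_zero_of_isUnit h4
    have h7 : (1728 * D).natDegree = D.natDegree := by
      rw [h1728, natDegree_C_mul (by norm_num)]
    have h8 : (c4 ^ 3 - 0 ^ 2 : ℚ[X]).natDegree = 0 := by
      have : (c4 ^ 3 - 0 ^ 2 : ℚ[X]) = c4 ^ 3 := by ring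
      rw [this, natDegree_pow, h6]
    rw [hrel, h8] at h7
    omega
  have hcop2 : IsCoprime (c4 ^ 3) (-(c6 ^ 2)) := by
    have h1 : IsCoprime (c4 ^ 3) (1728 * D) := by
      apply IsCoprime.mul_right
      · rw [h1728]
        exact isCoprime_one_right.mono dvd_rfl (isUnit_C.mpr (by norm_num)).dvd
      · exact IsCoprime.pow_left hcop
    have h2 : -(c6 ^ 2) = 1728 * D + c4 ^ 3 * (-1) := by rw [hrel]; ring
    rw [h2]
    exact h1.add_mul_left_right (-1)
  set c : ℚ[X] := -(1728 * D) with hc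
  have hcne : c ≠ 0 := by
    rw [hc, neg_ne_zero, h1728]
    exact mul_ne_zero (C_ne_zero.mpr (by norm_num)) hD0
  have hsum : c4 ^ 3 + -(c6 ^ 2) + c = 0 := by rw [hc, hrel]; ring
  have hcdeg : c.natDegree = D.natDegree := by
    rw [hc, natDegree_neg, h1728, natDegree_C_mul (by norm_num)]
  have habc := Polynomial.abc (pow_ne_zero 3 hc4) (neg_ne_zero.mpr (pow_ne_zero 2 hc6)) hcne hcop2
    hsum
  have hradle : (radical (c4 ^ 3 * -(c6 ^ 2) * c)).natDegree ≤
      c4.natDegree + c6.natDegree + (radical D).natDegree := by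
    have hraddvd : radical (c4 ^ 3 * -(c6 ^ 2) * c) ∣ c4 * c6 * radical D := by
      rw [← exists_dvd_pow_iff_radical_dvd]
      · obtain ⟨n, hn⟩ := exists_dvd_radical_self_pow hD0
        refine ⟨3 + n, ?_⟩
        have e1 : (c4 * c6 * radical D) ^ (3 + n) =
            (c4 ^ 3 * c4 ^ n) * (c6 ^ 2 * (c6 * c6 ^ n)) * ((radical D) ^ 3 * (radical D) ^ n) := by
          ring
        rw [e1]
        apply mul_dvd_mul
        · apply mul_dvd_mul
          · exact dvd_mul_right _ _
          · rw [neg_dvd]; exact dvd_mul_right _ _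
        · rw [hc, neg_dvd, h1728]
          have e2 : IsUnit (C (1728 : ℚ)) := isUnit_C.mpr (by norm_num)
          rw [e2.mul_left_dvd]
          exact hn.mul_left _
      · exact mul_ne_zero (mul_ne_zero (pow_ne_zero 3 hc4) (neg_ne_zero.mpr (pow_ne_zero 2 hc6))) hcne
    have hne : c4 * c6 * radical D ≠ 0 := mul_ne_zero (mul_ne_zero hc4 hc6) radical_ne_zero
    have h1 := natDegree_le_of_dvd hraddvd hne
    rw [natDegree_mul (mul_ne_zero hc4 hc6) radical_ne_zero, natDegree_mul hc4 hc6] at h1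
    exact h1
  rcases habc with ⟨h1, h2, h3⟩ | ⟨_, _, h3⟩
  · rw [natDegree_pow] at h1
    rw [natDegree_neg, natDegree_pow] at h2
    rw [hcdeg] at h3
    constructor <;> omega
  · exfalso
    have := Polynomial.derivative_eq_zero.mp h3
    rw [hcdeg] at this
    omega

end Pool.Agent.Lib.MP_d8bd92_nt
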