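import Pool.Agent.Lib.MP_d8bd92_nt.FamArith

set_option autoImplicit false

namespace Pool.Agent.Lib.MP_d8bd92_nt

open Finset

theorem squareful_div_of_cube {D p : ℕ} (hp : p.Prime) (hD : Squareful D) (h3 : p ^ 3 ∣ D) :
    Squareful (D / p) := by
  intro q hq hqD
  have hpD : p ∣ D := (dvd_pow_self p (by norm_num)).trans h3
  obtain ⟨E, hE⟩ := hpD
  have hE' : D / p = E := by rw [hE, Nat.mul_div_cancel_left _ hp.pos]
  rw [hE'] at hqD ⊢
  have hqD2 : q ^ 2 ∣ D := hD q hq (by rw [hE]; exact hqD.mul_left p)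
  by_cases hqp : q = p
  · subst hqp
    rw [hE] at h3
    have : q * q ^ 2 ∣ q * E := by
      have e : q ^ 3 = q * q ^ 2 := by ring
      rw [← e]; exact h3
    exact Nat.dvd_of_mul_dvd_mul_left hq.pos this
  · have hc : Nat.Coprime (q ^ 2) p := Nat.Coprime.pow_left 2 ((Nat.coprime_primes hq hp).mpr hqp)
    rw [hE] at hqD2
    exact hc.dvd_of_dvd_mul_left hqD2

theorem squareful_div_of_sq {D p : ℕ} (hp : p.Prime) (hD : Squareful D) (hpD : p ^ 2 ∣ D)
    (h3 : ¬ p ^ 3 ∣ D) : Squareful (D / p ^ 2) := by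
  intro q hq hqD
  obtain ⟨E, hE⟩ := hpD
  have hE' : D / p ^ 2 = E := by rw [hE, Nat.mul_div_cancel_left _ (pow_pos hp.pos 2)]
  rw [hE'] at hqD ⊢
  have hqD2 : q ^ 2 ∣ D := hD q hq (by rw [hE]; exact hqD.mul_left _)
  by_cases hqp : q = p
  · subst hqp
    exfalso
    apply h3
    rw [hE]
    have e : q ^ 3 = q ^ 2 * q := by ring
    rw [e]
    exact Nat.mul_dvd_mul_left _ hqD
  · have hc : Nat.Coprime (q ^ 2) (p ^ 2) :=
      Nat.Coprime.pow 2 2 ((Nat.coprime_primes hq hp).mpr hqp)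
    rw [hE] at hqD2
    exact hc.dvd_of_dvd_mul_left hqD2

theorem squareful_sq {p : ℕ} (hp : p.Prime) : Squareful (p ^ 2) := by
  intro q hq hqp
  have : q = p := (Nat.prime_dvd_prime_iff_eq hq hp).mp (hq.dvd_of_dvd_pow hqp)
  rw [this]

/-- If `s` is squareful with all its primes `≤ y` and no squareful divisor of `s` lies in
`[Y1, Y2]`, then `s < Y1`. -/
theorem squareful_small {s : ℕ} (hs0 : s ≠ 0) {y Y1 Y2 : ℝ} (hY1 : 1 < Y1)
    (hy0 : 0 ≤ y) (hy : y ^ 2 ≤ Y2) (hY : Y1 ^ 2 ≤ Y2) (hs : Squareful s)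
    (hsy : ∀ p : ℕ, p.Prime → p ∣ s → (p : ℝ) ≤ y)
    (hno : ∀ D : ℕ, D ∣ s → Squareful D → Y1 ≤ (D : ℝ) → Y2 < (D : ℝ)) : (s : ℝ) < Y1 := by
  classical
  by_contra hcon
  push Not at hcon
  have hex : ∃ D : ℕ, D ∣ s ∧ Squareful D ∧ Y1 ≤ (D : ℝ) := ⟨s, dvd_rfl, hs, hcon⟩
  set D0 := Nat.find hex with hD0
  obtain ⟨hd, hsq, hge⟩ := Nat.find_spec hex
  rw [← hD0] at hd hsq hge
  have hmin : ∀ D : ℕ, D ∣ s → Squareful D → Y1 ≤ (D : ℝ) → D0 ≤ D := by
    intro D h1 h2 h3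
    exact Nat.find_min' hex ⟨h1, h2, h3⟩
  have hD0Y2 : Y2 < (D0 : ℝ) := hno D0 hd hsq hge
  have hD0ne : D0 ≠ 0 := by
    rintro h
    rw [h] at hge
    norm_num at hge
    linarith
  have hD01 : D0 ≠ 1 := by
    rintro h
    rw [h] at hge
    norm_num at hge
    linarith
  set p := D0.minFac with hp
  have hpp : p.Prime := Nat.minFac_prime hD01
  have hpD : p ∣ D0 := Nat.minFac_dvd D0
  have hp2 : p ^ 2 ∣ D0 := hsq p hpp hpD
  have hpy : (p : ℝ) ≤ y := hsy p hpp (hpD.trans hd)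
  have hp2y : ((p ^ 2 : ℕ) : ℝ) ≤ Y2 := by
    push_cast
    calc (p : ℝ) ^ 2 ≤ y ^ 2 := by gcongr
      _ ≤ Y2 := hy
  by_cases hA : Y1 ≤ ((p ^ 2 : ℕ) : ℝ)
  · have h1 := hmin (p ^ 2) (hp2.trans hd) (squareful_sq hpp) hA
    have h2 : (D0 : ℝ) ≤ ((p ^ 2 : ℕ) : ℝ) := by exact_mod_cast h1
    linarith
  · push Not at hA
    -- case B
    have key : ∃ D1 : ℕ, D0 ≤ p ^ 2 * D1 ∧ (D1 : ℝ) < Y1 := by
      by_cases h3 : p ^ 3 ∣ D0
      · refine ⟨D0 / p, ?_, ?_⟩
        · obtain ⟨E, hE⟩ := hpD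
          rw [hE, Nat.mul_div_cancel_left _ hpp.pos]
          have : p ≤ p ^ 2 := by nlinarith [hpp.one_le]
          exact Nat.mul_le_mul_right _ this
        · by_contra hc
          push Not at hc
          have h4 := hmin (D0 / p) ((Nat.div_dvd_of_dvd hpD).trans hd)
            (squareful_div_of_cube hpp hsq h3) hc
          have h5 : D0 / p < D0 := Nat.div_lt_self (Nat.pos_of_ne_zero hD0ne) hpp.one_lt
          omega
      · refine ⟨D0 / p ^ 2, ?_, ?_⟩
        · rw [Nat.mul_div_cancel' hp2]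
        · by_contra hc
          push Not at hc
          have h4 := hmin (D0 / p ^ 2) ((Nat.div_dvd_of_dvd hp2).trans hd)
            (squareful_div_of_sq hpp hsq hp2 h3) hc
          have h5 : D0 / p ^ 2 < D0 := Nat.div_lt_self (Nat.pos_of_ne_zero hD0ne)
            (by nlinarith [hpp.one_lt])
          omega
    obtain ⟨D1, h1, h2⟩ := key
    have h3 : (D0 : ℝ) ≤ ((p ^ 2 : ℕ) : ℝ) * (D1 : ℝ) := by exact_mod_cast h1
    have h4 : ((p ^ 2 : ℕ) : ℝ) * (D1 : ℝ) ≤ Y1 * Y1 := by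
      apply mul_le_mul hA.le h2.le (Nat.cast_nonneg _) (by linarith)
    nlinarith

/-- The arithmetic decomposition of an integer without medium sized squareful divisors. -/
theorem decomp {n M0 : ℕ} (hn : n ≠ 0) {y Y1 Y2 Yb : ℝ} (hY1 : 1 < Y1)
    (hYb : 1 ≤ Yb)
    (hy0 : 0 ≤ y) (hy : y ^ 2 ≤ Y2) (hY : Y1 ^ 2 ≤ Y2)
    (hno : ∀ D : ℕ, D ∣ n → Squareful D → Nat.Coprime D M0 → Y1 ≤ (D : ℝ) → Y2 < (D : ℝ))
    (hbad : ((∏ p ∈ n.primeFactors.filter (fun p => p ∣ M0), p ^ n.factorization p : ℕ) : ℝ) ≤ Yb) :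
    y ^ 2 ≤ ((∏ p ∈ n.primeFactors, p : ℕ) : ℝ) ∨
    (n : ℝ) ≤ Yb * Y1 * ((∏ p ∈ n.primeFactors, p : ℕ) : ℝ) ∨
    ∃ p e m0 m1 : ℕ, p.Prime ∧ y < (p : ℝ) ∧ 2 ≤ e ∧ n = m0 * m1 * p ^ e ∧ m0 ≠ 0 ∧ m1 ≠ 0 ∧
      (m0 : ℝ) ≤ Yb ∧ Nat.Coprime m1 M0 ∧
      (m1 : ℝ) * p ≤ Y1 * ((∏ p ∈ n.primeFactors, p : ℕ) : ℝ) := by
  classical
  set pf := n.primeFactors with hpf
  set Bad := pf.filter (fun p => p ∣ M0) with hBad
  set Good := pf.filter (fun p => ¬ p ∣ M0) with hGood
  set Sm := Good.filter (fun p : ℕ => (p : ℝ) ≤ y) with hSm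
  set Lg := Good.filter (fun p : ℕ => ¬ (p : ℝ) ≤ y) with hLg
  set S2 := Sm.filter (fun p => 2 ≤ n.factorization p) with hS2
  set S1 := Sm.filter (fun p => ¬ 2 ≤ n.factorization p) with hS1
  have hprod : ∀ g : ℕ → ℕ, ∏ p ∈ pf, g p =
      (∏ p ∈ Bad, g p) * (((∏ p ∈ S2, g p) * (∏ p ∈ S1, g p)) * (∏ p ∈ Lg, g p)) := by
    intro g
    rw [hS2, hS1, Finset.prod_filter_mul_prod_filter_not, hSm, hLg,
      Finset.prod_filter_mul_prod_filter_not, hBad, hGood,
      Finset.prod_filter_mul_prod_filter_not]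
  set bad := ∏ p ∈ Bad, p ^ n.factorization p with hbaddef
  set s := ∏ p ∈ S2, p ^ n.factorization p with hsdef
  set q := ∏ p ∈ S1, p with hqdef
  have hprime : ∀ p ∈ pf, p.Prime := fun p hp => Nat.prime_of_mem_primeFactors hp
  have hS1q : ∏ p ∈ S1, p ^ n.factorization p = q := by
    apply Finset.prod_congr rfl
    intro p hp
    rw [hS1, Finset.mem_filter, hSm, Finset.mem_filter, hGood, Finset.mem_filter] at hp
    have h1 : n.factorization p ≠ 0 := by
      have h0 : p ∈ n.factorization.support := by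
        rw [Nat.support_factorization]; exact hp.1.1.1
      exact Finsupp.mem_support_iff.mp h0
    have h2 : n.factorization p = 1 := by omega
    rw [h2, pow_one]
  have hn_eq : n = bad * ((s * q) * (∏ p ∈ Lg, p ^ n.factorization p)) := by
    have h1 := hprod (fun p => p ^ n.factorization p)
    rw [hS1q] at h1
    rw [← h1]
    have h2 := Nat.prod_factorization_pow_eq_self hn
    rw [Finsupp.prod, Nat.support_factorization] at h2
    exact h2.symm
  set N := ∏ p ∈ pf, p with hN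
  have hN_eq : N = (∏ p ∈ Bad, p) * (((∏ p ∈ S2, p) * q) * (∏ p ∈ Lg, p)) := hprod (fun p => p)
  have hpos : ∀ t : Finset ℕ, t ⊆ pf → 1 ≤ ∏ p ∈ t, p := by
    intro t ht
    apply Nat.one_le_iff_ne_zero.mpr
    apply Finset.prod_ne_zero_iff.mpr
    intro p hp
    exact (hprime p (ht hp)).ne_zero
  have hBadsub : Bad ⊆ pf := Finset.filter_subset _ _
  have hGoodsub : Good ⊆ pf := Finset.filter_subset _ _
  have hSmsub : Sm ⊆ pf := (Finset.filter_subset _ _).trans hGoodsub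
  have hLgsub : Lg ⊆ pf := (Finset.filter_subset _ _).trans hGoodsub
  have hS2sub : S2 ⊆ pf := (Finset.filter_subset _ _).trans hSmsub
  have hNge : q * (∏ p ∈ Lg, p) ≤ N := by
    rw [hN_eq]
    have h1 := hpos Bad hBadsub
    have h2 := hpos S2 hS2sub
    calc q * (∏ p ∈ Lg, p) = 1 * ((1 * q) * (∏ p ∈ Lg, p)) := by ring
      _ ≤ (∏ p ∈ Bad, p) * (((∏ p ∈ S2, p) * q) * (∏ p ∈ Lg, p)) := by gcongr
  have hbad0 : bad ≠ 0 := by
    intro h; rw [h, zero_mul] at hn_eq; exact hn hn_eq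
  have hs0 : s ≠ 0 := by
    intro h; rw [h] at hn_eq; simp at hn_eq; exact hn hn_eq
  have hq0 : q ≠ 0 := by
    intro h; rw [h] at hn_eq; simp at hn_eq; exact hn hn_eq
  -- primes dividing s
  have hprs : ∀ p : ℕ, p.Prime → p ∣ s → p ∈ S2 := by
    intro p hp hps
    rw [hsdef] at hps
    obtain ⟨r, hr, hpr⟩ := (Nat.Prime.prime hp).exists_mem_finset_dvd hps
    have h1 := (hp.dvd_of_dvd_pow hpr)
    have h2 : p = r := (Nat.prime_dvd_prime_iff_eq hp (hprime r (hS2sub hr))).mp h1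
    rw [h2]; exact hr
  have hprq : ∀ p : ℕ, p.Prime → p ∣ q → p ∈ S1 := by
    intro p hp hps
    rw [hqdef] at hps
    obtain ⟨r, hr, hpr⟩ := (Nat.Prime.prime hp).exists_mem_finset_dvd hps
    have h2 : p = r :=
      (Nat.prime_dvd_prime_iff_eq hp (hprime r (hSmsub (Finset.filter_subset _ _ hr)))).mp hpr
    rw [h2]; exact hr
  have hsq : Squareful s := by
    intro p hp hps
    have h1 := hprs p hp hps
    have h2 : p ^ n.factorization p ∣ s := Finset.dvd_prod_of_mem _ h1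
    refine dvd_trans (pow_dvd_pow p ?_) h2
    rw [hS2, Finset.mem_filter] at h1
    exact h1.2
  have hsn : s ∣ n := by
    have h1 : s ∣ bad * (s * q * ∏ p ∈ Lg, p ^ n.factorization p) :=
      ((dvd_mul_right s q).mul_right _).mul_left _
    rw [← hn_eq] at h1
    exact h1
  have hcop : ∀ D : ℕ, D ∣ s → Nat.Coprime D M0 := by
    intro D hD
    apply Nat.Coprime.coprime_dvd_left hD
    rw [Nat.coprime_comm]
    apply Nat.Coprime.symm
    apply Nat.coprime_of_dvd
    intro p hp hps hpM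
    have h1 := hprs p hp hps
    rw [hS2, Finset.mem_filter, hSm, Finset.mem_filter, hGood, Finset.mem_filter] at h1
    exact h1.1.1.2 hpM
  have hs_lt : (s : ℝ) < Y1 := by
    apply squareful_small hs0 hY1 hy0 hy hY hsq
    · intro p hp hps
      have h1 := hprs p hp hps
      rw [hS2, Finset.mem_filter, hSm, Finset.mem_filter] at h1
      exact h1.1.2
    · intro D hD hDs hDY
      exact hno D (hD.trans hsn) hDs (hcop D hD) hDY
  have hLgy : ∀ p ∈ Lg, y < (p : ℝ) := by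
    intro p hp
    rw [hLg, Finset.mem_filter] at hp
    exact not_le.mp hp.2
  rcases Nat.lt_or_ge 1 Lg.card with hc | hc
  · -- at least two large primes
    left
    obtain ⟨p1, hp1, p2, hp2, hne⟩ := Finset.one_lt_card.mp hc
    have h1 : p1 * p2 ∣ ∏ p ∈ Lg, p := by
      have h0 : ∏ p ∈ ({p1, p2} : Finset ℕ), p = p1 * p2 := Finset.prod_pair hne
      rw [← h0]
      apply Finset.prod_dvd_prod_of_subset
      intro x hx
      rw [Finset.mem_insert, Finset.mem_singleton] at hx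
      rcases hx with rfl | rfl
      · exact hp1
      · exact hp2
    have h2 : p1 * p2 ≤ ∏ p ∈ Lg, p := Nat.le_of_dvd (hpos Lg hLgsub) h1
    have h3 : p1 * p2 ≤ N := by
      refine h2.trans (le_trans ?_ hNge)
      exact Nat.le_mul_of_pos_left _ (Nat.pos_of_ne_zero hq0)
    have h4 : ((p1 * p2 : ℕ) : ℝ) ≤ (N : ℝ) := by exact_mod_cast h3
    push_cast at h4
    have h5 := hLgy p1 hp1
    have h6 := hLgy p2 hp2
    nlinarith
  · right
    rcases Nat.lt_or_ge Lg.card 1 with hc0 | hc1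
    · left
      have hL : Lg = ∅ := Finset.card_eq_zero.mp (by omega)
      rw [hL, Finset.prod_empty, mul_one] at hNge
      rw [hL, Finset.prod_empty, mul_one] at hn_eq
      have h1 : (n : ℝ) = (bad : ℝ) * ((s : ℝ) * (q : ℝ)) := by
        exact_mod_cast congrArg (Nat.cast : ℕ → ℝ) hn_eq
      rw [h1]
      have h2 : (q : ℝ) ≤ (N : ℝ) := by exact_mod_cast hNge
      calc (bad : ℝ) * ((s : ℝ) * (q : ℝ)) ≤ Yb * (Y1 * (N : ℝ)) := by
            gcongr
        _ = Yb * Y1 * (N : ℝ) := by ring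
    · have hcard : Lg.card = 1 := by omega
      obtain ⟨p, hp⟩ := Finset.card_eq_one.mp hcard
      have hpL : p ∈ Lg := by rw [hp]; exact Finset.mem_singleton_self p
      have hpp : p.Prime := hprime p (hLgsub hpL)
      rw [hp, Finset.prod_singleton] at hNge
      rw [hp, Finset.prod_singleton] at hn_eq
      set e := n.factorization p with he
      have h2 : (q : ℝ) * p ≤ (N : ℝ) := by exact_mod_cast hNge
      rcases Nat.lt_or_ge e 2 with h | h
      · left
        have h1 : (n : ℝ) = (bad : ℝ) * (((s : ℝ) * (q : ℝ)) * (p : ℝ) ^ e) := by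
          exact_mod_cast congrArg (Nat.cast : ℕ → ℝ) hn_eq
        have hp1 : (1 : ℝ) ≤ p := by exact_mod_cast hpp.one_le
        have h3 : (p : ℝ) ^ e ≤ p := by
          calc (p : ℝ) ^ e ≤ (p : ℝ) ^ 1 := pow_le_pow_right₀ hp1 (by omega)
            _ = p := pow_one _
        rw [h1]
        calc (bad : ℝ) * (((s : ℝ) * (q : ℝ)) * (p : ℝ) ^ e)
            ≤ Yb * ((Y1 * (q : ℝ)) * (p : ℝ)) := by gcongr
          _ = Yb * Y1 * ((q : ℝ) * p) := by ring
          _ ≤ Yb * Y1 * (N : ℝ) := by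
              apply mul_le_mul_of_nonneg_left h2
              have : 0 < Yb := by linarith
              have : 0 < Y1 := by linarith
              positivity
      · right
        refine ⟨p, e, bad, s * q, hpp, hLgy p hpL, h, ?_, hbad0, mul_ne_zero hs0 hq0, hbad, ?_, ?_⟩
        · rw [hn_eq]; ring
        · apply Nat.Coprime.mul_left (hcop s dvd_rfl)
          apply Nat.coprime_of_dvd
          intro p' hp' hpq hpM
          have h1 := hprq p' hp' hpq
          rw [hS1, Finset.mem_filter, hSm, Finset.mem_filter, hGood, Finset.mem_filter] at h1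
          exact h1.1.1.2 hpM
        · push_cast
          calc (s : ℝ) * q * p = (s : ℝ) * (q * p) := by ring
            _ ≤ Y1 * (N : ℝ) := by gcongr

end Pool.Agent.Lib.MP_d8bd92_nt
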