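import Pool.Agent.Lib.MP_d8bd92_nt.FamLattice
import Pool.Agent.Lib.MP_d8bd92_nt.FamForm

set_option autoImplicit false

namespace Pool.Agent.Lib.MP_d8bd92_nt

open Finset Polynomial

/-- restriction of the binary form of `f` to the line `w + s v` -/
noncomputable def linePoly {R : Type*} [CommRing R] (n : ℕ) (f : R[X]) (w v : R × R) : R[X] :=
  ∑ i ∈ Finset.range (n + 1),
    C (f.coeff i) * (C w.1 + C v.1 * X) ^ i * (C w.2 + C v.2 * X) ^ (n - i)

theorem linePoly_eval {R : Type*} [CommRing R] (n : ℕ) (f : R[X]) (w v : R × R) (s : R) :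
    (linePoly n f w v).eval s = hev n f (w.1 + v.1 * s) (w.2 + v.2 * s) := by
  unfold linePoly hev
  rw [eval_finsetSum]
  apply Finset.sum_congr rfl
  intro i _
  simp

theorem linePoly_natDegree_le {R : Type*} [CommRing R] (n : ℕ) (f : R[X]) (w v : R × R) :
    (linePoly n f w v).natDegree ≤ n := by
  unfold linePoly
  apply natDegree_sum_le_of_forall_le
  intro i hi
  have hi' : i ≤ n := Nat.lt_succ_iff.mp (Finset.mem_range.mp hi)
  have h1 : ∀ a b : R, (C a + C b * X : R[X]).natDegree ≤ 1 := by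
    intro a b
    refine (natDegree_add_le _ _).trans (max_le ?_ ?_)
    · rw [natDegree_C]; exact Nat.zero_le _
    · refine (natDegree_C_mul_le _ _).trans natDegree_X_le
  calc (C (f.coeff i) * (C w.1 + C v.1 * X) ^ i * (C w.2 + C v.2 * X) ^ (n - i)).natDegree
      ≤ (C (f.coeff i) * (C w.1 + C v.1 * X) ^ i).natDegree +
        ((C w.2 + C v.2 * X) ^ (n - i)).natDegree := natDegree_mul_le
    _ ≤ i * 1 + (n - i) * 1 := by
        apply add_le_add
        · refine (natDegree_C_mul_le _ _).trans (natDegree_pow_le.trans ?_)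
          exact Nat.mul_le_mul_left _ (h1 _ _)
        · refine natDegree_pow_le.trans ?_
          exact Nat.mul_le_mul_left _ (h1 _ _)
    _ = n := by omega

theorem linePoly_map {R S : Type*} [CommRing R] [CommRing S] (φ : R →+* S) (n : ℕ) (f : R[X])
    (w v : R × R) :
    (linePoly n f w v).map φ = linePoly n (f.map φ) (φ w.1, φ w.2) (φ v.1, φ v.2) := by
  unfold linePoly
  rw [Polynomial.map_sum]
  apply Finset.sum_congr rfl
  intro i _
  simp

/-- key identity at a point of the line -/
theorem linePoly_identity {K : Type*} [Field K] (n : ℕ) (f : K[X]) (w v : K × K) (ρ : K) :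
    v.2 * n * (linePoly n f w v).eval ρ -
      (w.2 + v.2 * ρ) * (derivative (linePoly n f w v)).eval ρ =
    (v.2 * w.1 - v.1 * w.2) * ∑ i ∈ Finset.range (n + 1),
      (i : K) * f.coeff i * (w.1 + v.1 * ρ) ^ (i - 1) * (w.2 + v.2 * ρ) ^ (n - i) := by
  unfold linePoly
  rw [derivative_sum, eval_finsetSum, eval_finsetSum, Finset.mul_sum, Finset.mul_sum,
    ← Finset.sum_sub_distrib, Finset.mul_sum]
  apply Finset.sum_congr rfl
  intro i hi
  have hi' : i ≤ n := Nat.lt_succ_iff.mp (Finset.mem_range.mp hi)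
  simp only [derivative_mul, derivative_C, derivative_pow, derivative_add, derivative_X, zero_mul,
    zero_add, mul_one, eval_add, eval_mul, eval_C, eval_pow, eval_X, eval_natCast]
  set α := w.1 + v.1 * ρ with hα
  set β := w.2 + v.2 * ρ with hβ
  have hκ : v.2 * w.1 - v.1 * w.2 = v.2 * α - v.1 * β := by rw [hα, hβ]; ring
  rw [hκ]
  obtain ⟨j, hj⟩ := Nat.exists_eq_add_of_le hi'
  rw [hj, Nat.add_sub_cancel_left]
  rcases i with _ | i
  · rcases j with _ | j
    · simp
    · simp only [Nat.cast_zero, Nat.cast_add, Nat.cast_one, Nat.add_sub_cancel, pow_zero, zero_add,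
        Nat.zero_sub, zero_mul, mul_zero]
      ring
  · rcases j with _ | j
    · simp only [Nat.cast_zero, Nat.cast_add, Nat.cast_one, Nat.add_sub_cancel, pow_zero, add_zero,
        Nat.zero_sub, zero_mul, mul_zero]
      ring
    · simp only [Nat.cast_add, Nat.cast_one, Nat.add_sub_cancel]
      ring

theorem sum_deriv_eq {K : Type*} [Field K] (n : ℕ) (f : K[X]) (hf : f.natDegree ≤ n) (α β : K)
    (hβ : β ≠ 0) :
    β * ∑ i ∈ Finset.range (n + 1), (i : K) * f.coeff i * α ^ (i - 1) * β ^ (n - i) =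
      β ^ n * (derivative f).eval (α / β) := by
  rw [derivative_eval, sum_over_range' f _ (n + 1) (Nat.lt_succ_of_le hf), Finset.mul_sum,
    Finset.mul_sum]
  · apply Finset.sum_congr rfl
    intro i hi
    have hi' : i ≤ n := Nat.lt_succ_iff.mp (Finset.mem_range.mp hi)
    obtain ⟨j, hj⟩ := Nat.exists_eq_add_of_le hi'
    rw [hj, Nat.add_sub_cancel_left]
    rcases i with _ | i
    · simp
    · simp only [Nat.add_sub_cancel]
      rw [div_pow]
      field_simp
      ring
  · intro i; simp

/-- The restriction of a squarefree binary form of degree at least two to a line not through the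
origin is not a constant times an `e`-th power, `e ≥ 2`. -/
theorem linePoly_not_pow (f A B : ℤ[X]) (d : ℤ) (hd0 : d ≠ 0)
    (hd : A * f + B * derivative f = C d) (hr : 2 ≤ f.natDegree) (w v : ℤ × ℤ)
    (hdet : det2 v w ≠ 0) (m : ℤ) (hm : m ≠ 0) (e : ℕ) (he : 2 ≤ e) :
    ¬ ∃ R : ℚ[X], (linePoly f.natDegree f w v).map (Int.castRingHom ℚ) = C (m : ℚ) * R ^ e := by
  rintro ⟨R, hR⟩
  set r := f.natDegree with hrdef
  set φ := Int.castRingHom ℂ with hφ
  have hφinj : Function.Injective φ := φ.injective_int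
  set fC := f.map φ with hfC
  have hdeg : fC.natDegree = r := natDegree_map_eq_of_injective hφinj f
  have hdC : A.map φ * fC + B.map φ * derivative fC = C (d : ℂ) := by
    have h1 := congrArg (Polynomial.map φ) hd
    rw [Polynomial.map_add, Polynomial.map_mul, Polynomial.map_mul, ← Polynomial.derivative_map,
      map_C] at h1
    exact h1
  have hd0C : (d : ℂ) ≠ 0 := by exact_mod_cast hd0
  have hnoroot : ∀ x : ℂ, fC.eval x = 0 → (derivative fC).eval x = 0 → False := by
    intro x h1 h2
    have h3 := congrArg (Polynomial.eval x) hdC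
    rw [eval_add, eval_mul, eval_mul, h1, h2, mul_zero, mul_zero, add_zero, eval_C] at h3
    exact hd0C h3.symm
  -- separability and two distinct roots
  have hsep : fC.Separable := by
    rw [separable_def']
    refine ⟨C ((d : ℂ)⁻¹) * A.map φ, C ((d : ℂ)⁻¹) * B.map φ, ?_⟩
    rw [mul_assoc, mul_assoc, ← mul_add, hdC, ← C_mul, inv_mul_cancel₀ hd0C, C_1]
  have hfC0 : fC ≠ 0 := by
    intro h; rw [h, natDegree_zero] at hdeg; omega
  have hcard : 2 ≤ fC.roots.toFinset.card := by
    rw [Multiset.toFinset_card_of_nodup (nodup_roots hsep)]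
    have h1 : Multiset.card fC.roots = fC.natDegree :=
      (IsAlgClosed.splits fC).natDegree_eq_card_roots.symm
    rw [h1, hdeg]; exact hr
  obtain ⟨θ1, h1m, θ2, h2m, hne⟩ := Finset.one_lt_card.mp (show 1 < fC.roots.toFinset.card by omega)
  rw [Multiset.mem_toFinset, mem_roots hfC0, IsRoot.def] at h1m h2m
  set V : ℂ × ℂ := (φ v.1, φ v.2) with hV
  set W : ℂ × ℂ := (φ w.1, φ w.2) with hW
  have hκ : V.2 * W.1 - V.1 * W.2 ≠ 0 := by
    have h1 : V.2 * W.1 - V.1 * W.2 = φ (-(det2 v w)) := by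
      rw [hV, hW]; unfold det2; simp
    rw [h1]
    intro h
    have h2 : -(det2 v w) = 0 := hφinj (by rw [h, map_zero])
    exact hdet (neg_eq_zero.mp h2)
  have hθ : ∃ θ : ℂ, fC.eval θ = 0 ∧ V.1 - θ * V.2 ≠ 0 := by
    by_contra hcon
    push Not at hcon
    have e1 := hcon θ1 h1m
    have e2 := hcon θ2 h2m
    have e3 : (θ1 - θ2) * V.2 = 0 := by linear_combination e2 - e1
    have e4 : V.2 = 0 := by
      rcases mul_eq_zero.mp e3 with h | h
      · exact absurd (sub_eq_zero.mp h) hne
      · exact h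
    rw [e4, mul_zero, sub_zero] at e1
    apply hκ
    rw [e4, e1]; ring
  obtain ⟨θ, hθ0, hθV⟩ := hθ
  set ρ : ℂ := -(W.1 - θ * W.2) / (V.1 - θ * V.2) with hρ
  set α := W.1 + V.1 * ρ with hα
  set β := W.2 + V.2 * ρ with hβ
  have hαβ : α = θ * β := by
    rw [hα, hβ, hρ]; field_simp
    ring
  have hβ0 : β ≠ 0 := by
    intro h
    apply hκ
    have h1 : α = 0 := by rw [hαβ, h, mul_zero]
    have h2 : V.2 * W.1 - V.1 * W.2 = V.2 * α - V.1 * β := by rw [hα, hβ]; ring
    rw [h2, h1, h]; ring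
  set P := linePoly r fC W V with hP
  have hPρ : P.eval ρ = 0 := by
    rw [hP, linePoly_eval, hev_eq_eval r fC hdeg.le _ _ hβ0]
    have h1 : (W.1 + V.1 * ρ) / (W.2 + V.2 * ρ) = θ := by
      change α / β = θ
      rw [hαβ, mul_div_assoc, div_self hβ0, mul_one]
    rw [h1, hθ0, mul_zero]
  have hP'ρ : (derivative P).eval ρ ≠ 0 := by
    intro h
    have h1 := linePoly_identity r fC W V ρ
    rw [← hP, hPρ, h, mul_zero, mul_zero, sub_zero] at h1
    have h2 : ∑ i ∈ Finset.range (r + 1), (i : ℂ) * fC.coeff i * α ^ (i - 1) * β ^ (r - i) = 0 := by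
      rcases mul_eq_zero.mp h1.symm with h3 | h3
      · exact absurd h3 hκ
      · exact h3
    have h3 := sum_deriv_eq r fC hdeg.le α β hβ0
    rw [h2, mul_zero] at h3
    have h4 : (derivative fC).eval (α / β) = 0 := by
      rcases mul_eq_zero.mp h3.symm with h5 | h5
      · exact absurd h5 (pow_ne_zero _ hβ0)
      · exact h5
    have h5 : α / β = θ := by rw [hαβ, mul_div_assoc, div_self hβ0, mul_one]
    rw [h5] at h4
    exact hnoroot θ hθ0 h4
  -- transport hR to ℂ
  have hPeq : P = C (m : ℂ) * (R.map (algebraMap ℚ ℂ)) ^ e := by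
    have h1 := congrArg (Polynomial.map (algebraMap ℚ ℂ)) hR
    rw [Polynomial.map_map, Polynomial.map_mul, Polynomial.map_pow, map_C] at h1
    have h2 : (algebraMap ℚ ℂ).comp (Int.castRingHom ℚ) = φ := RingHom.ext_int _ _
    rw [h2, linePoly_map] at h1
    rw [hP, hfC, hW, hV, h1]
    simp
  set RC := R.map (algebraMap ℚ ℂ) with hRC
  have hmC : (m : ℂ) ≠ 0 := by exact_mod_cast hm
  have hRρ : RC.eval ρ = 0 := by
    rw [hPeq, eval_mul, eval_C, eval_pow] at hPρ
    rcases mul_eq_zero.mp hPρ with h | h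
    · exact absurd h hmC
    · exact pow_eq_zero_iff (by omega) |>.mp h
  apply hP'ρ
  rw [hPeq, derivative_mul, derivative_C, zero_mul, zero_add, derivative_pow, eval_mul, eval_mul,
    eval_mul, eval_pow, hRρ, zero_pow (by omega)]
  ring

end Pool.Agent.Lib.MP_d8bd92_nt
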