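import Pool.Agent.Lib.MP_d8bd92_nt.FamLine
import Pool.Agent.Lib.MP_d8bd92_nt.FamLinePoly

set_option autoImplicit false

namespace Pool.Agent.Lib.MP_d8bd92_nt

open Finset Polynomial

/-- the box `|a| ≤ A`, `1 ≤ b ≤ B` -/
noncomputable def box (A B : ℕ) : Finset (ℤ × ℤ) := (Finset.Icc (-(A : ℤ)) A) ×ˢ (Finset.Icc 1 (B : ℤ))

theorem mem_box {A B : ℕ} {w : ℤ × ℤ} :
    w ∈ box A B ↔ (-(A : ℤ) ≤ w.1 ∧ w.1 ≤ A) ∧ (1 ≤ w.2 ∧ w.2 ≤ B) := by
  unfold box
  rw [Finset.mem_product, Finset.mem_Icc, Finset.mem_Icc]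

/-- counting a subset of a box by its rows -/
theorem card_le_rows {A B : ℕ} (T : Finset (ℤ × ℤ)) (hT : T ⊆ box A B) (M : ℝ)
    (hrow : ∀ b : ℤ, 1 ≤ b → b ≤ B → ((T.filter (fun w => w.2 = b)).card : ℝ) ≤ M) :
    (T.card : ℝ) ≤ B * M := by
  classical
  have h1 := Finset.card_eq_sum_card_fiberwise (f := fun w : ℤ × ℤ => w.2) (s := T)
    (t := Finset.Icc 1 (B : ℤ)) (by
      intro w hw
      have := mem_box.mp (hT hw)
      exact Finset.mem_coe.mpr (Finset.mem_Icc.mpr this.2))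
  have h2 : (T.card : ℝ) = ∑ b ∈ Finset.Icc 1 (B : ℤ), ((T.filter (fun w => w.2 = b)).card : ℝ) := by
    rw [h1]; push_cast; rfl
  rw [h2]
  calc ∑ b ∈ Finset.Icc 1 (B : ℤ), ((T.filter (fun w => w.2 = b)).card : ℝ)
      ≤ ∑ _b ∈ Finset.Icc 1 (B : ℤ), M := by
        apply Finset.sum_le_sum
        intro b hb
        rw [Finset.mem_Icc] at hb
        exact hrow b hb.1 hb.2
    _ = B * M := by
        rw [Finset.sum_const, Int.card_Icc, nsmul_eq_mul]
        simp

/-- integers in a real interval -/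
theorem card_int_near (S : Finset ℤ) (c Y : ℝ) (hY : 0 ≤ Y) (h : ∀ a ∈ S, |(a : ℝ) - c| ≤ Y) :
    (S.card : ℝ) ≤ 2 * Y + 1 := by
  have h1 : S ⊆ Finset.Icc ⌈c - Y⌉ ⌊c + Y⌋ := by
    intro a ha
    have h2 := abs_le.mp (h a ha)
    rw [Finset.mem_Icc]
    constructor
    · apply Int.ceil_le.mpr; linarith
    · apply Int.le_floor.mpr; linarith
  have h2 : (S.card : ℝ) ≤ ((Finset.Icc ⌈c - Y⌉ ⌊c + Y⌋).card : ℝ) := by
    exact_mod_cast Finset.card_le_card h1
  refine h2.trans ?_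
  rw [Int.card_Icc]
  have h3 : (⌊c + Y⌋ : ℝ) ≤ c + Y := Int.floor_le _
  have h4 : c - Y ≤ (⌈c - Y⌉ : ℝ) := Int.le_ceil _
  rcases le_total 0 (⌊c + Y⌋ + 1 - ⌈c - Y⌉) with h5 | h5
  · have h6 : (((⌊c + Y⌋ + 1 - ⌈c - Y⌉).toNat : ℕ) : ℝ) = ((⌊c + Y⌋ + 1 - ⌈c - Y⌉ : ℤ) : ℝ) := by
      exact_mod_cast congrArg (Int.cast : ℤ → ℝ) (Int.toNat_of_nonneg h5)
    rw [h6]; push_cast; linarith
  · rw [Int.toNat_of_nonpos h5]; simp; linarith

theorem hev_eq_prod_roots (f : ℂ[X]) (a b : ℂ) (hb : b ≠ 0) :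
    hev f.natDegree f a b = f.leadingCoeff * (f.roots.map (fun ρ => a - ρ * b)).prod := by
  rw [hev_eq_eval _ _ le_rfl _ _ hb]
  have hs : f.Splits := IsAlgClosed.splits f
  rw [hs.eval_eq_prod_roots]
  have hc : Multiset.card f.roots = f.natDegree := hs.natDegree_eq_card_roots.symm
  have h1 : (f.roots.map (fun ρ => a - ρ * b)).prod =
      (f.roots.map (fun ρ => b * (a / b - ρ))).prod := by
    congr 1
    apply Multiset.map_congr rfl
    intro ρ _
    field_simp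
  rw [h1, Multiset.prod_map_mul, Multiset.map_const', Multiset.prod_replicate, hc]
  ring

/-- Few pairs give a small value of the form. -/
theorem card_small_values (g : ℤ[X]) (hr : 1 ≤ g.natDegree) (θ : ℝ) (hθ : 0 < θ)
    (hθ' : θ ≤ g.natDegree) (A B : ℕ) (hA : 1 ≤ A) (T : Finset (ℤ × ℤ)) (hT : T ⊆ box A B)
    (hsmall : ∀ w ∈ T, |((hev g.natDegree g w.1 w.2 : ℤ) : ℝ)| < (A : ℝ) ^ ((g.natDegree : ℝ) - θ)) :
    (T.card : ℝ) ≤ 3 * g.natDegree * ((A : ℝ) ^ (1 - θ / g.natDegree) * B) := by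
  classical
  set r := g.natDegree with hrdef
  have hr0 : (0 : ℝ) < (r : ℝ) := by exact_mod_cast hr
  have hA0 : (0 : ℝ) < (A : ℝ) := by exact_mod_cast hA
  have hA1 : (1 : ℝ) ≤ (A : ℝ) := by exact_mod_cast hA
  set Y : ℝ := (A : ℝ) ^ (1 - θ / r) with hY
  have hexp : 0 ≤ 1 - θ / r := by
    rw [sub_nonneg, div_le_one hr0]; exact hθ'
  have hY1 : 1 ≤ Y := Real.one_le_rpow hA1 hexp
  have hYr : Y ^ r = (A : ℝ) ^ ((r : ℝ) - θ) := by
    rw [hY, ← Real.rpow_natCast, ← Real.rpow_mul hA0.le]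
    congr 1
    field_simp
  set φ := Int.castRingHom ℂ with hφ
  have hφinj : Function.Injective φ := φ.injective_int
  set gC := g.map φ with hgC
  have hdeg : gC.natDegree = r := natDegree_map_eq_of_injective hφinj g
  have hg0 : g ≠ 0 := by
    intro h; rw [h, natDegree_zero] at hrdef; omega
  have hlc : 1 ≤ ‖gC.leadingCoeff‖ := by
    rw [hgC, leadingCoeff_map_of_injective hφinj]
    have h1 : g.leadingCoeff ≠ 0 := leadingCoeff_ne_zero.mpr hg0
    have h2 : (1 : ℤ) ≤ |g.leadingCoeff| := Int.one_le_abs h1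
    rw [hφ, eq_intCast, Complex.norm_intCast]
    exact_mod_cast h2
  -- each w in T is close to a root line
  have hclose : ∀ w ∈ T, ∃ ρ ∈ gC.roots.toFinset, ‖(w.1 : ℂ) - ρ * w.2‖ < Y := by
    intro w hw
    by_contra hcon
    push Not at hcon
    have hb := (mem_box.mp (hT hw)).2.1
    have hb0 : ((w.2 : ℤ) : ℂ) ≠ 0 := by
      have : w.2 ≠ 0 := by omega
      exact_mod_cast this
    have h1 := hev_eq_prod_roots gC (w.1 : ℂ) (w.2 : ℂ) hb0
    rw [hdeg] at h1
    have h2 : hev r gC (w.1 : ℂ) (w.2 : ℂ) = ((hev r g w.1 w.2 : ℤ) : ℂ) := by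
      have := hev_map φ r g w.1 w.2
      rw [hφ] at this
      simpa using this
    have h3 : |((hev r g w.1 w.2 : ℤ) : ℝ)| = ‖((hev r g w.1 w.2 : ℤ) : ℂ)‖ := by
      rw [Complex.norm_intCast]
    have h4 := hsmall w hw
    rw [h3, ← h2, h1, norm_mul] at h4
    have h5 : ‖(gC.roots.map (fun ρ => (w.1 : ℂ) - ρ * w.2)).prod‖ =
        (gC.roots.map (fun ρ => ‖(w.1 : ℂ) - ρ * w.2‖)).prod := by
      have h0 := map_multiset_prod (normHom : ℂ →*₀ ℝ)
        (gC.roots.map (fun ρ => (w.1 : ℂ) - ρ * w.2))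
      rw [Multiset.map_map] at h0
      exact h0
    have hc : Multiset.card gC.roots = r := by
      rw [← hdeg]
      exact (IsAlgClosed.splits gC).natDegree_eq_card_roots.symm
    have h6 : Y ^ r ≤ (gC.roots.map (fun ρ => ‖(w.1 : ℂ) - ρ * w.2‖)).prod := by
      have h7 := Multiset.prod_map_le_prod_map₀ (s := gC.roots) (fun _ => Y)
        (fun ρ => ‖(w.1 : ℂ) - ρ * w.2‖) (fun _ _ => by linarith)
        (fun ρ hρ => hcon ρ (Multiset.mem_toFinset.mpr hρ))
      rwa [Multiset.map_const', Multiset.prod_replicate, hc] at h7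
    rw [h5] at h4
    have h8 : Y ^ r ≤ ‖gC.leadingCoeff‖ * (gC.roots.map (fun ρ => ‖(w.1 : ℂ) - ρ * w.2‖)).prod := by
      calc Y ^ r = 1 * Y ^ r := (one_mul _).symm
        _ ≤ _ := mul_le_mul hlc h6 (by positivity) (norm_nonneg _)
    rw [hYr] at h8
    linarith
  have hrow : ∀ b : ℤ, 1 ≤ b → b ≤ B → ((T.filter (fun w => w.2 = b)).card : ℝ) ≤ r * (3 * Y) := by
    intro b _ _
    set Tb := T.filter (fun w => w.2 = b) with hTb
    set Sb := Tb.image Prod.fst with hSb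
    have hcardb : Tb.card = Sb.card := by
      rw [hSb, Finset.card_image_of_injOn]
      intro w hw w' hw' h
      have h1 := (Finset.mem_filter.mp hw).2
      have h2 := (Finset.mem_filter.mp hw').2
      exact Prod.ext h (by rw [h1, h2])
    rw [hcardb]
    have hcov : Sb ⊆ gC.roots.toFinset.biUnion
        (fun ρ => Sb.filter (fun a : ℤ => |(a : ℝ) - (ρ * b).re| ≤ Y)) := by
      intro a ha
      have ha' := ha
      rw [hSb, Finset.mem_image] at ha'
      obtain ⟨w, hw, rfl⟩ := ha'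
      rw [hTb, Finset.mem_filter] at hw
      obtain ⟨ρ, hρ, hlt⟩ := hclose w hw.1
      rw [Finset.mem_biUnion]
      refine ⟨ρ, hρ, ?_⟩
      rw [Finset.mem_filter]
      refine ⟨ha, ?_⟩
      rw [hw.2] at hlt
      have h1 : ((w.1 : ℂ) - ρ * b).re = (w.1 : ℝ) - (ρ * b).re := by simp
      rw [← h1]
      exact (Complex.abs_re_le_norm _).trans hlt.le
    have h1 : (Sb.card : ℝ) ≤ ∑ ρ ∈ gC.roots.toFinset,
        ((Sb.filter (fun a : ℤ => |(a : ℝ) - (ρ * b).re| ≤ Y)).card : ℝ) := by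
      exact_mod_cast (Finset.card_le_card hcov).trans Finset.card_biUnion_le
    refine h1.trans ?_
    calc ∑ ρ ∈ gC.roots.toFinset, ((Sb.filter (fun a : ℤ => |(a : ℝ) - (ρ * b).re| ≤ Y)).card : ℝ)
        ≤ ∑ _ρ ∈ gC.roots.toFinset, 3 * Y := by
          apply Finset.sum_le_sum
          intro ρ _
          have h2 := card_int_near (Sb.filter (fun a : ℤ => |(a : ℝ) - (ρ * b).re| ≤ Y)) (ρ * b).re Y
            (by linarith) (fun a ha => (Finset.mem_filter.mp ha).2)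
          linarith
      _ = gC.roots.toFinset.card * (3 * Y) := by rw [Finset.sum_const, nsmul_eq_mul]
      _ ≤ r * (3 * Y) := by
          apply mul_le_mul_of_nonneg_right _ (by linarith)
          have h3 : gC.roots.toFinset.card ≤ r := by
            calc gC.roots.toFinset.card ≤ Multiset.card gC.roots := Multiset.toFinset_card_le _
              _ ≤ gC.natDegree := card_roots' _
              _ = r := hdeg
          exact_mod_cast h3
  have hfin := card_le_rows T hT (r * (3 * Y)) hrow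
  calc (T.card : ℝ) ≤ B * (r * (3 * Y)) := hfin
    _ = 3 * r * (Y * B) := by ring

/-- A large divisor of many values of a polynomial at close integers. -/
theorem dvd_values_bound (P : ℤ[X]) (r : ℕ) (hP : P.natDegree ≤ r) (S : Finset ℤ)
    (hS : S.card = r + 1) (ℓ : ℕ) (hdiam : ∀ s ∈ S, ∀ t ∈ S, |s - t| ≤ (ℓ : ℤ)) (D : ℕ)
    (hdvd : ∀ s ∈ S, (D : ℤ) ∣ P.eval s) (hc : P.coeff r ≠ 0) :
    (D : ℝ) ≤ |((P.coeff r : ℤ) : ℝ)| * (ℓ : ℝ) ^ ((r + 1) * r) := by
  classical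
  set W : ℤ := ∏ i ∈ S, ∏ j ∈ S.erase i, (i - j) with hW
  have hW0 : W ≠ 0 := by
    apply Finset.prod_ne_zero_iff.mpr
    intro i _
    apply Finset.prod_ne_zero_iff.mpr
    intro j hj
    exact sub_ne_zero.mpr (Finset.ne_of_mem_erase hj).symm
  have hinj : Set.InjOn (fun s : ℤ => (s : ℚ)) S := Int.cast_injective.injOn
  have hdegQ : (P.map (Int.castRingHom ℚ)).degree < (S.card : WithBot ℕ) := by
    rw [hS]
    refine lt_of_le_of_lt degree_le_natDegree ?_
    have : (P.map (Int.castRingHom ℚ)).natDegree ≤ r := natDegree_map_le.trans hP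
    exact_mod_cast Nat.lt_succ_of_le this
  have h1 := Lagrange.coeff_eq_sum (F := ℚ) hinj hdegQ
  rw [hS, Nat.add_sub_cancel, coeff_map] at h1
  have h2 : (D : ℤ) ∣ W * P.coeff r := by
    have h3 : W * P.coeff r =
        ∑ i ∈ S, P.eval i * ∏ i' ∈ S.erase i, ∏ j ∈ S.erase i', (i' - j) := by
      have h4 : ((W * P.coeff r : ℤ) : ℚ) =
          ((∑ i ∈ S, P.eval i * ∏ i' ∈ S.erase i, ∏ j ∈ S.erase i', (i' - j) : ℤ) : ℚ) := by
        push_cast
        have h5 : ((P.coeff r : ℤ) : ℚ) = ∑ i ∈ S, eval ((i : ℤ) : ℚ) (P.map (Int.castRingHom ℚ)) /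
          ∏ j ∈ S.erase i, (((i : ℤ) : ℚ) - ((j : ℤ) : ℚ)) := h1
        rw [h5, Finset.mul_sum]
        apply Finset.sum_congr rfl
        intro i hi
        have h6 : (W : ℚ) = (∏ j ∈ S.erase i, ((i : ℚ) - j)) *
            (∏ i' ∈ S.erase i, ∏ j ∈ S.erase i', ((i' : ℚ) - j)) := by
          rw [hW]; push_cast
          rw [← Finset.mul_prod_erase S _ hi]
        have h7 : (∏ j ∈ S.erase i, ((i : ℚ) - j)) ≠ 0 := by
          apply Finset.prod_ne_zero_iff.mpr
          intro j hj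
          rw [sub_ne_zero]
          intro h
          exact (Finset.ne_of_mem_erase hj) (by exact_mod_cast h.symm)
        have h8 : eval ((i : ℤ) : ℚ) (P.map (Int.castRingHom ℚ)) = ((P.eval i : ℤ) : ℚ) := by
          rw [Polynomial.eval_intCast_map]; rfl
        rw [h6, h8]
        field_simp
      exact_mod_cast h4
    rw [h3]
    apply Finset.dvd_sum
    intro i hi
    exact (hdvd i hi).mul_right _
  have h3 : (D : ℤ) ≤ |W * P.coeff r| := by
    apply Int.le_of_dvd (abs_pos.mpr (mul_ne_zero hW0 hc))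
    exact (dvd_abs _ _).mpr h2
  have h4 : |(W : ℝ)| ≤ (ℓ : ℝ) ^ ((r + 1) * r) := by
    rw [hW]
    push_cast
    rw [Finset.abs_prod]
    calc ∏ i ∈ S, |∏ j ∈ S.erase i, ((i : ℝ) - j)|
        ≤ ∏ _i ∈ S, (ℓ : ℝ) ^ r := by
          apply Finset.prod_le_prod
          · intro i _; exact abs_nonneg _
          · intro i hi
            rw [Finset.abs_prod]
            calc ∏ j ∈ S.erase i, |(i : ℝ) - j| ≤ ∏ _j ∈ S.erase i, (ℓ : ℝ) := by
                  apply Finset.prod_le_prod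
                  · intro j _; exact abs_nonneg _
                  · intro j hj
                    have h0 := hdiam i hi j (Finset.mem_of_mem_erase hj)
                    exact_mod_cast h0
              _ = (ℓ : ℝ) ^ r := by
                  rw [Finset.prod_const, Finset.card_erase_of_mem hi, hS, Nat.add_sub_cancel]
      _ = (ℓ : ℝ) ^ ((r + 1) * r) := by
          rw [Finset.prod_const, hS, ← pow_mul, mul_comm]
  calc (D : ℝ) ≤ ((|W * P.coeff r| : ℤ) : ℝ) := by exact_mod_cast h3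
    _ = |(W : ℝ)| * |((P.coeff r : ℤ) : ℝ)| := by push_cast; rw [abs_mul]
    _ ≤ (ℓ : ℝ) ^ ((r + 1) * r) * |((P.coeff r : ℤ) : ℝ)| := by gcongr
    _ = _ := mul_comm _ _

theorem linePoly_row_coeff (r : ℕ) (f : ℤ[X]) (b : ℤ) :
    (linePoly r f (0, b) (1, 0)).coeff r = f.coeff r := by
  unfold linePoly
  simp only [map_zero, map_one, zero_add, one_mul, zero_mul, add_zero]
  rw [finsetSum_coeff, Finset.sum_eq_single r]
  · rw [Nat.sub_self, pow_zero, mul_one, coeff_C_mul_X_pow, if_pos rfl]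
  · intro i _ hi
    rw [mul_comm, ← C_pow, coeff_C_mul, coeff_C_mul_X_pow, if_neg (Ne.symm hi), mul_zero]
  · intro h; exact absurd (Finset.mem_range.mpr (Nat.lt_succ_self r)) h

/-- Few pairs in a box have the form divisible by a fixed large integer. -/
theorem card_dvd_fixed (f : ℤ[X]) (r : ℕ) (hc : f.coeff r ≠ 0) (A B : ℕ)
    (D ℓ : ℕ) (hℓ : 1 ≤ ℓ)
    (hD : |((f.coeff r : ℤ) : ℝ)| * (ℓ : ℝ) ^ ((r + 1) * r) < D)
    (T : Finset (ℤ × ℤ)) (hT : T ⊆ box A B) (hdvd : ∀ w ∈ T, (D : ℤ) ∣ hev r f w.1 w.2) :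
    (T.card : ℝ) ≤ B * (r * (2 * A / ℓ + 1)) := by
  classical
  apply card_le_rows T hT
  intro b _ _
  set Tb := T.filter (fun w => w.2 = b) with hTb
  set Sb := Tb.image Prod.fst with hSb
  have hcardb : Tb.card = Sb.card := by
    rw [hSb, Finset.card_image_of_injOn]
    intro w hw w' hw' h
    have h1 := (Finset.mem_filter.mp hw).2
    have h2 := (Finset.mem_filter.mp hw').2
    exact Prod.ext h (by rw [h1, h2])
  rw [hcardb]
  have hmem : ∀ s ∈ Sb, (-(A : ℤ) ≤ s ∧ s ≤ A) ∧ (D : ℤ) ∣ hev r f s b := by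
    intro s hs
    rw [hSb, Finset.mem_image] at hs
    obtain ⟨w, hw, rfl⟩ := hs
    rw [hTb, Finset.mem_filter] at hw
    refine ⟨(mem_box.mp (hT hw.1)).1, ?_⟩
    rw [← hw.2]
    exact hdvd w hw.1
  apply card_le_of_windows Sb ℓ hℓ r (2 * A) (by positivity)
  · intro s hs t ht
    have h1 := (hmem s hs).1.2
    have h2 := (hmem t ht).1.1
    have h3 : s - t ≤ 2 * (A : ℤ) := by linarith
    exact_mod_cast h3
  · intro S' hS' hdiam
    by_contra hcon
    push Not at hcon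
    obtain ⟨S'', hS'', hcard⟩ := Finset.exists_subset_card_eq (Nat.succ_le_of_lt hcon)
    have h1 := dvd_values_bound (linePoly r f (0, b) (1, 0)) r (linePoly_natDegree_le _ _ _ _) S''
      hcard ℓ (fun s hs t ht => hdiam s (hS'' hs) t (hS'' ht)) D (by
        intro s hs
        rw [linePoly_eval]
        simp only [zero_add, one_mul, zero_mul, add_zero]
        exact (hmem s (hS' (hS'' hs))).2) (by rw [linePoly_row_coeff]; exact hc)
    rw [linePoly_row_coeff] at h1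
    linarith

theorem card_box_le {A B : ℕ} (hA : 1 ≤ A) : ((box A B).card : ℝ) ≤ 3 * ((A : ℝ) * B) := by
  unfold box
  rw [Finset.card_product, Int.card_Icc, Int.card_Icc]
  have h1 : ((A : ℤ) + 1 - -(A : ℤ)).toNat = 2 * A + 1 := by omega
  have h2 : ((B : ℤ) + 1 - 1).toNat = B := by omega
  rw [h1, h2]
  push_cast
  have hA1 : (1 : ℝ) ≤ (A : ℝ) := by exact_mod_cast hA
  have hB0 : (0 : ℝ) ≤ (B : ℝ) := Nat.cast_nonneg _
  nlinarith

end Pool.Agent.Lib.MP_d8bd92_nt
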