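import Mathlib

set_option autoImplicit false

namespace Pool.Agent.Lib.MP_d8bd92_nt

open Finset Polynomial

theorem exists_sum_rpow_sub_le (κ : ℝ) (hκ : 0 < κ) :
    ∃ C : ℝ, 0 < C ∧ ∀ (N : ℕ) (U : ℝ), (N : ℝ) ≤ U →
      ∑ m ∈ Finset.Icc 1 N, (m : ℝ) ^ (κ - 1) ≤ C * U ^ (2 * κ) := by
  have h1 : Summable (fun n : ℕ => ((n : ℝ) ^ (1 + κ))⁻¹) :=
    Real.summable_nat_rpow_inv.mpr (by linarith)
  have h0 : 0 ≤ ∑' n : ℕ, ((n : ℝ) ^ (1 + κ))⁻¹ := tsum_nonneg (fun n => by positivity)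
  refine ⟨(∑' n : ℕ, ((n : ℝ) ^ (1 + κ))⁻¹) + 1, by linarith, ?_⟩
  intro N U hNU
  have hU0 : 0 ≤ U := (Nat.cast_nonneg N).trans hNU
  have h2 : ∑ m ∈ Finset.Icc 1 N, (m : ℝ) ^ (κ - 1) ≤
      ∑ m ∈ Finset.Icc 1 N, U ^ (2 * κ) * ((m : ℝ) ^ (1 + κ))⁻¹ := by
    apply Finset.sum_le_sum
    intro m hm
    rw [Finset.mem_Icc] at hm
    have hm0 : (0 : ℝ) < (m : ℝ) := by exact_mod_cast hm.1
    have hmU : (m : ℝ) ≤ U := le_trans (by exact_mod_cast hm.2) hNU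
    have e1 : (m : ℝ) ^ (κ - 1) = (m : ℝ) ^ (2 * κ) * ((m : ℝ) ^ (1 + κ))⁻¹ := by
      rw [← Real.rpow_neg hm0.le, ← Real.rpow_add hm0]; congr 1; ring
    rw [e1]
    gcongr
  refine h2.trans ?_
  rw [← Finset.mul_sum, mul_comm]
  apply mul_le_mul_of_nonneg_right _ (Real.rpow_nonneg hU0 _)
  have h3 := h1.sum_le_tsum (Finset.Icc 1 N) (fun n _ => by positivity)
  linarith

theorem isCoprime_of_coprime_natAbs_mul {D : ℕ} {x y : ℤ} (h : Nat.Coprime D (x * y).natAbs) :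
    IsCoprime (D : ℤ) x ∧ IsCoprime (D : ℤ) y := by
  rw [Int.natAbs_mul] at h
  have h1 := Nat.Coprime.coprime_mul_right_right h
  have h2 := Nat.Coprime.coprime_mul_left_right h
  constructor
  · rw [Int.isCoprime_iff_gcd_eq_one]; simpa [Int.gcd] using h1
  · rw [Int.isCoprime_iff_gcd_eq_one]; simpa [Int.gcd] using h2

end Pool.Agent.Lib.MP_d8bd92_nt
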