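import Pool.Agent.Lib.MP_d8bd92_nt.FamArith
import Pool.Agent.Lib.MP_d8bd92_nt.FamMisc
import Pool.Agent.Lib.MP_d8bd92_nt.FamRoots
import Pool.Agent.Lib.MP_d8bd92_nt.FamEvents1

set_option autoImplicit false

namespace Pool.Agent.Lib.MP_d8bd92_nt

open Finset Polynomial

theorem card_dvd_good (f P Q : ℤ[X]) (d : ℤ) (hd : P * f + Q * derivative f = C d)
    {A B : ℕ} (hA : 1 ≤ A) (hB : 1 ≤ B) (D : ℕ) (hD : 1 ≤ D)
    (hcop : Nat.Coprime D (d * f.coeff f.natDegree).natAbs)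
    (T : Finset (ℤ × ℤ)) (hT : T ⊆ box A B)
    (hTc : ∀ w ∈ T, IsCoprime w.1 w.2) (hTd : ∀ w ∈ T, (D : ℤ) ∣ hev f.natDegree f w.1 w.2) :
    (T.card : ℝ) ≤ (f.natDegree : ℝ) ^ D.primeFactors.card * (1 + 24 * ((A : ℝ) * B) / D) := by
  obtain ⟨h1, h2⟩ := isCoprime_of_coprime_natAbs_mul hcop
  apply card_le_of_lattices f P Q d hd f.natDegree le_rfl D (by omega) h1 h2 T
    (fun w hw => ⟨hTc w hw, hTd w hw⟩)
  · positivity
  · intro x T' hT' hlat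
    apply lattice_count_basic hA hB hD (x : ℤ) T'
    intro w hw
    have h3 := mem_box.mp (hT (hT' hw))
    exact ⟨hlat w hw, abs_le.mpr h3.1, h3.2.1, h3.2.2, hTc w (hT' hw)⟩

/-- Event E1: few pairs have a medium sized squareful divisor. -/
theorem card_squareful (f P Q : ℤ[X]) (d : ℤ) (hd : P * f + Q * derivative f = C d)
    (η : ℝ) (hη : 0 < η) (hη' : η ≤ 1 / 2) :
    ∃ C0 : ℝ, 0 < C0 ∧ ∀ A B : ℕ, 1 ≤ A → 1 ≤ B → ∀ T : Finset (ℤ × ℤ), T ⊆ box A B →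
      (∀ w ∈ T, IsCoprime w.1 w.2 ∧ ∃ D : ℕ, Squareful D ∧
        Nat.Coprime D (d * f.coeff f.natDegree).natAbs ∧
        ((A : ℝ) * B) ^ η ≤ (D : ℝ) ∧ (D : ℝ) ≤ ((A : ℝ) * B) ^ (2 - 2 * η) ∧
        (D : ℤ) ∣ hev f.natDegree f w.1 w.2) →
      (T.card : ℝ) ≤ C0 * ((A : ℝ) * B) ^ (1 - η / 4) := by
  classical
  set κ : ℝ := η / 8 with hκ
  have hκ0 : 0 < κ := by positivity
  obtain ⟨Cω, hCω1, hCω⟩ := exists_pow_card_primeFactors_le f.natDegree κ hκ0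
  obtain ⟨C1, hC10, hC1⟩ := exists_sum_rpow_le (5 / 8) (by norm_num)
  obtain ⟨C2, hC20, hC2⟩ := exists_sum_rpow_le (1 / 2 + κ) (by linarith)
  refine ⟨Cω * (24 * C1 + C2), by positivity, ?_⟩
  intro A B hA hB T hT hTw
  set U : ℝ := (A : ℝ) * B with hU
  have hU1 : 1 ≤ U := by
    have h1 : (1 : ℝ) ≤ (A : ℝ) := by exact_mod_cast hA
    have h2 : (1 : ℝ) ≤ (B : ℝ) := by exact_mod_cast hB
    nlinarith
  have hU0 : 0 < U := by linarith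
  set r := f.natDegree with hr
  set N : ℕ := ⌊U ^ (2 - 2 * η)⌋₊ with hN
  set PP : Finset (ℕ × ℕ) := ((Finset.range (N + 1)) ×ˢ (Finset.range (N + 1))).filter
    (fun q => 0 < q.1 ∧ 0 < q.2 ∧ U ^ η ≤ ((q.1 ^ 2 * q.2 ^ 3 : ℕ) : ℝ) ∧
      ((q.1 ^ 2 * q.2 ^ 3 : ℕ) : ℝ) ≤ U ^ (2 - 2 * η) ∧
      Nat.Coprime (q.1 ^ 2 * q.2 ^ 3) (d * f.coeff r).natAbs) with hPP
  have hcover : T ⊆ PP.biUnion (fun q =>
      T.filter (fun w => ((q.1 ^ 2 * q.2 ^ 3 : ℕ) : ℤ) ∣ hev r f w.1 w.2)) := by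
    intro w hw
    obtain ⟨_, D, hDs, hDc, hD1, hD2, hDd⟩ := hTw w hw
    have hD0 : D ≠ 0 := by
      intro h
      rw [h] at hD1
      have : 0 < U ^ η := Real.rpow_pos_of_pos hU0 _
      norm_num at hD1
      linarith
    obtain ⟨x, z, hx, hz, hxz⟩ := squareful_repr D hD0 hDs
    rw [Finset.mem_biUnion]
    refine ⟨(x, z), ?_, ?_⟩
    · rw [hPP, Finset.mem_filter, Finset.mem_product, Finset.mem_range, Finset.mem_range]
      have hDN : D ≤ N := Nat.le_floor hD2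
      have hx1 : x ≤ D := by
        rw [hxz]
        calc x = x * 1 := (mul_one x).symm
          _ ≤ x ^ 2 * z ^ 3 := by
            apply Nat.mul_le_mul
            · nlinarith
            · exact Nat.one_le_pow _ _ hz
      have hz1 : z ≤ D := by
        rw [hxz]
        calc z = 1 * z ^ 1 := by ring
          _ ≤ x ^ 2 * z ^ 3 := by
            apply Nat.mul_le_mul
            · exact Nat.one_le_pow _ _ hx
            · exact Nat.pow_le_pow_right hz (by norm_num)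
      refine ⟨⟨?_, ?_⟩, hx, hz, ?_, ?_, ?_⟩
      · show x < N + 1; omega
      · show z < N + 1; omega
      · show U ^ η ≤ ((x ^ 2 * z ^ 3 : ℕ) : ℝ); rw [← hxz]; exact hD1
      · show ((x ^ 2 * z ^ 3 : ℕ) : ℝ) ≤ U ^ (2 - 2 * η); rw [← hxz]; exact hD2
      · show Nat.Coprime (x ^ 2 * z ^ 3) _; rw [← hxz]; exact hDc
    · rw [Finset.mem_filter]
      refine ⟨hw, ?_⟩
      show ((x ^ 2 * z ^ 3 : ℕ) : ℤ) ∣ _
      rw [← hxz]; exact hDd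
  have h1 : (T.card : ℝ) ≤ ∑ q ∈ PP,
      ((T.filter (fun w => ((q.1 ^ 2 * q.2 ^ 3 : ℕ) : ℤ) ∣ hev r f w.1 w.2)).card : ℝ) := by
    exact_mod_cast (Finset.card_le_card hcover).trans Finset.card_biUnion_le
  refine h1.trans ?_
  -- bound each term
  have hterm : ∀ q ∈ PP,
      ((T.filter (fun w => ((q.1 ^ 2 * q.2 ^ 3 : ℕ) : ℤ) ∣ hev r f w.1 w.2)).card : ℝ) ≤
      Cω * (24 * U ^ (1 - η / 4)) * ((q.1 : ℝ) ^ (2 : ℕ) * (q.2 : ℝ) ^ (3 : ℕ)) ^ (-(5 / 8 : ℝ)) +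
      Cω * U ^ (1 - η / 4) * ((q.1 : ℝ) ^ (2 : ℕ) * (q.2 : ℝ) ^ (3 : ℕ)) ^ (-(1 / 2 + κ)) := by
    intro q hq
    rw [hPP, Finset.mem_filter] at hq
    obtain ⟨_, hx, hz, hD1, hD2, hDc⟩ := hq
    set D : ℕ := q.1 ^ 2 * q.2 ^ 3 with hD
    have hDR : ((q.1 : ℝ) ^ (2 : ℕ) * (q.2 : ℝ) ^ (3 : ℕ)) = (D : ℝ) := by rw [hD]; push_cast; ring
    rw [hDR]
    have hD0 : 1 ≤ D := Nat.one_le_iff_ne_zero.mpr (by positivity)
    have hDpos : (0 : ℝ) < (D : ℝ) := by exact_mod_cast hD0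
    have h2 := card_dvd_good f P Q d hd hA hB D hD0 hDc
      (T.filter (fun w => (D : ℤ) ∣ hev r f w.1 w.2)) ((Finset.filter_subset _ _).trans hT)
      (fun w hw => (hTw w (Finset.mem_filter.mp hw).1).1)
      (fun w hw => (Finset.mem_filter.mp hw).2)
    refine h2.trans ?_
    have h3 := hCω D (by omega)
    have h4 : (r : ℝ) ^ D.primeFactors.card * (1 + 24 * ((A : ℝ) * B) / D) ≤
        (Cω * (D : ℝ) ^ κ) * (1 + 24 * U / D) := by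
      apply mul_le_mul_of_nonneg_right h3; positivity
    refine h4.trans ?_
    have h5 : (D : ℝ) ^ κ * (24 * U / D) ≤ 24 * U ^ (1 - η / 4) * (D : ℝ) ^ (-(5 / 8 : ℝ)) := by
      have e1 : (D : ℝ) ^ κ * (24 * U / D) = 24 * U * ((D : ℝ) ^ (κ - 1)) := by
        rw [Real.rpow_sub hDpos, Real.rpow_one]; ring
      have e2 : (D : ℝ) ^ (κ - 1) = (D : ℝ) ^ (-(5 / 8 : ℝ)) * (D : ℝ) ^ (-(3 / 8 - κ)) := by
        rw [← Real.rpow_add hDpos]; congr 1; ring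
      have e3 : (D : ℝ) ^ (-(3 / 8 - κ)) ≤ U ^ (-(η / 4)) := by
        have f1 : (D : ℝ) ^ (-(3 / 8 - κ)) ≤ (U ^ η) ^ (-(3 / 8 - κ)) := by
          apply Real.rpow_le_rpow_of_nonpos (Real.rpow_pos_of_pos hU0 _) hD1
          rw [hκ]; linarith
        refine f1.trans ?_
        rw [← Real.rpow_mul hU0.le]
        apply Real.rpow_le_rpow_of_exponent_le hU1
        rw [hκ]; nlinarith
      have e4 : U ^ (1 - η / 4) = U * U ^ (-(η / 4)) := by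
        rw [sub_eq_add_neg, Real.rpow_add hU0, Real.rpow_one]
      rw [e1, e2, e4]
      have e5 : 0 ≤ (D : ℝ) ^ (-(5 / 8 : ℝ)) := Real.rpow_nonneg hDpos.le _
      calc 24 * U * ((D : ℝ) ^ (-(5 / 8 : ℝ)) * (D : ℝ) ^ (-(3 / 8 - κ)))
          ≤ 24 * U * ((D : ℝ) ^ (-(5 / 8 : ℝ)) * U ^ (-(η / 4))) := by gcongr
        _ = 24 * (U * U ^ (-(η / 4))) * (D : ℝ) ^ (-(5 / 8 : ℝ)) := by ring
    have h6 : (D : ℝ) ^ κ ≤ U ^ (1 - η / 4) * (D : ℝ) ^ (-(1 / 2 + κ)) := by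
      have e1 : (D : ℝ) ^ κ = (D : ℝ) ^ (1 / 2 + 2 * κ) * (D : ℝ) ^ (-(1 / 2 + κ)) := by
        rw [← Real.rpow_add hDpos]; congr 1; ring
      rw [e1]
      apply mul_le_mul_of_nonneg_right _ (Real.rpow_nonneg hDpos.le _)
      have f1 : (D : ℝ) ^ (1 / 2 + 2 * κ) ≤ (U ^ (2 - 2 * η)) ^ (1 / 2 + 2 * κ) := by
        apply Real.rpow_le_rpow hDpos.le hD2; positivity
      refine f1.trans ?_
      rw [← Real.rpow_mul hU0.le]
      apply Real.rpow_le_rpow_of_exponent_le hU1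
      rw [hκ]; nlinarith
    have hCω0 : 0 ≤ Cω := by linarith
    calc (Cω * (D : ℝ) ^ κ) * (1 + 24 * U / D)
        = Cω * ((D : ℝ) ^ κ * (24 * U / D)) + Cω * (D : ℝ) ^ κ := by ring
      _ ≤ Cω * (24 * U ^ (1 - η / 4) * (D : ℝ) ^ (-(5 / 8 : ℝ))) +
          Cω * (U ^ (1 - η / 4) * (D : ℝ) ^ (-(1 / 2 + κ))) := by gcongr
      _ = _ := by ring
  have hCω0 : 0 ≤ Cω := by linarith
  have hUp : 0 ≤ U ^ (1 - η / 4) := Real.rpow_nonneg hU0.le _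
  calc ∑ q ∈ PP, ((T.filter (fun w => ((q.1 ^ 2 * q.2 ^ 3 : ℕ) : ℤ) ∣ hev r f w.1 w.2)).card : ℝ)
      ≤ ∑ q ∈ PP, (Cω * (24 * U ^ (1 - η / 4)) *
          ((q.1 : ℝ) ^ (2 : ℕ) * (q.2 : ℝ) ^ (3 : ℕ)) ^ (-(5 / 8 : ℝ)) +
        Cω * U ^ (1 - η / 4) * ((q.1 : ℝ) ^ (2 : ℕ) * (q.2 : ℝ) ^ (3 : ℕ)) ^ (-(1 / 2 + κ))) :=
        Finset.sum_le_sum hterm
    _ = Cω * (24 * U ^ (1 - η / 4)) *
          (∑ q ∈ PP, ((q.1 : ℝ) ^ (2 : ℕ) * (q.2 : ℝ) ^ (3 : ℕ)) ^ (-(5 / 8 : ℝ))) +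
        Cω * U ^ (1 - η / 4) *
          (∑ q ∈ PP, ((q.1 : ℝ) ^ (2 : ℕ) * (q.2 : ℝ) ^ (3 : ℕ)) ^ (-(1 / 2 + κ))) := by
        rw [Finset.sum_add_distrib, Finset.mul_sum, Finset.mul_sum]
    _ ≤ Cω * (24 * U ^ (1 - η / 4)) * C1 + Cω * U ^ (1 - η / 4) * C2 := by
        have g1 := hC1 PP
        have g2 := hC2 PP
        gcongr
    _ = Cω * (24 * C1 + C2) * U ^ (1 - η / 4) := by ring

end Pool.Agent.Lib.MP_d8bd92_nt
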