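import Pool.Agent.Lib.MP_d8bd92_nt.FamArith
import Pool.Agent.Lib.MP_d8bd92_nt.FamMisc
import Pool.Agent.Lib.MP_d8bd92_nt.FamRoots
import Pool.Agent.Lib.MP_d8bd92_nt.FamEvents1

set_option autoImplicit false

namespace Pool.Agent.Lib.MP_d8bd92_nt

open Finset Polynomial

theorem isMin_nrm_le {A B D : ℕ} (hA : 1 ≤ A) (hB : 1 ≤ B) (hD : 1 ≤ D) (x : ℤ) (v : ℤ × ℤ)
    (hv : IsMin A B D x v) (ε : ℝ) (hε : 0 < ε)
    (hDU : (D : ℝ) ≤ ((A : ℝ) * B) ^ (1 - ε)) :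
    (nrm A B v : ℝ) ≤ ((A : ℝ) * B) ^ (1 - ε / 4) := by
  have hA1 : (1 : ℝ) ≤ (A : ℝ) := by exact_mod_cast hA
  have hB1 : (1 : ℝ) ≤ (B : ℝ) := by exact_mod_cast hB
  set U : ℝ := (A : ℝ) * B with hU
  have hU1 : 1 ≤ U := by nlinarith
  have hU0 : 0 < U := by linarith
  set ν : ℝ := U ^ (-(ε / 4)) with hν
  have hν0 : 0 < ν := Real.rpow_pos_of_pos hU0 _
  set I : ℕ := ⌊ν * A⌋₊ with hI
  set J : ℕ := ⌊ν * B⌋₊ with hJ
  have hI1 : ν * A < I + 1 := Nat.lt_floor_add_one _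
  have hJ1 : ν * B < J + 1 := Nat.lt_floor_add_one _
  have hI2 : (I : ℝ) ≤ ν * A := Nat.floor_le (by positivity)
  have hJ2 : (J : ℝ) ≤ ν * B := Nat.floor_le (by positivity)
  have hνU : ν * U = U ^ (1 - ε / 4) := by
    rw [hν, sub_eq_add_neg, Real.rpow_add hU0, Real.rpow_one, mul_comm]
  have hννU : (ν * A) * (ν * B) = U ^ (1 - ε / 2) := by
    have h1 : (ν * A) * (ν * B) = ν * ν * U := by rw [hU]; ring
    rw [h1, hν, ← Real.rpow_add hU0]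
    have h2 : U ^ (-(ε / 4) + -(ε / 4)) * U = U ^ (-(ε / 4) + -(ε / 4)) * U ^ (1 : ℝ) := by
      rw [Real.rpow_one]
    rw [h2, ← Real.rpow_add hU0]
    congr 1; ring
  have hlt : D < (I + 1) * (J + 1) := by
    have h1 : (D : ℝ) < ((I + 1) * (J + 1) : ℕ) := by
      push_cast
      calc (D : ℝ) ≤ U ^ (1 - ε) := hDU
        _ ≤ U ^ (1 - ε / 2) := Real.rpow_le_rpow_of_exponent_le hU1 (by linarith)
        _ = (ν * A) * (ν * B) := hννU.symm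
        _ < ((I : ℝ) + 1) * ((J : ℝ) + 1) := by
            apply mul_lt_mul'' hI1 hJ1 <;> positivity
    exact_mod_cast h1
  obtain ⟨w, hw1, hw2, hw3⟩ := exists_short (A := A) (B := B) hD x I J hlt
  have h1 := (hv.2.2 w hw1 hw2).trans hw3
  have h2 : (nrm A B v : ℝ) ≤ ((max (I * B) (J * A) : ℕ) : ℝ) := by exact_mod_cast h1
  refine h2.trans ?_
  push_cast
  rw [← hνU]
  apply max_le
  · calc (I : ℝ) * B ≤ ν * A * B := by gcongr
      _ = ν * U := by rw [hU]; ring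
  · calc (J : ℝ) * A ≤ ν * B * A := by gcongr
      _ = ν * U := by rw [hU]; ring

theorem nrm_bounds {A B : ℕ} (v : ℤ × ℤ) : |(v.1 : ℝ)| * B ≤ (nrm A B v : ℝ) ∧
    |(v.2 : ℝ)| * A ≤ (nrm A B v : ℝ) := by
  unfold nrm
  push_cast
  rw [Nat.cast_natAbs, Nat.cast_natAbs]
  push_cast
  exact ⟨le_max_left _ _, le_max_right _ _⟩

theorem window_powers (f P Q : ℤ[X]) (d : ℤ) (hd0 : d ≠ 0)
    (hd : P * f + Q * derivative f = C d) (hr : 2 ≤ f.natDegree) (e : ℕ) (he : 2 ≤ e)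
    (ε : ℝ) (hε : 0 < ε) :
    ∃ (c1 U0 : ℝ) (G : ℕ), 0 < c1 ∧ c1 ≤ 1 ∧ c1 ≤ ε / 16 ∧ 1 ≤ U0 ∧ ∀ A B : ℕ, 1 ≤ B → B ≤ A →
      U0 ≤ (A : ℝ) * B → ∀ (v w0 : ℤ × ℤ), (nrm A B v : ℝ) ≤ ((A : ℝ) * B) ^ (1 - ε / 4) →
      det2 v w0 ≠ 0 → ∀ m : ℤ, m ≠ 0 → ∀ (L : ℕ), 1 ≤ L → (L : ℝ) ≤ ((A : ℝ) * B) ^ c1 →
      ∀ S : Finset ℤ, (∀ s ∈ S, (w0 + s • v) ∈ box A B ∧
        (A : ℝ) ^ ((f.natDegree : ℝ) - ε / 16) ≤
          |((hev f.natDegree f (w0 + s • v).1 (w0 + s • v).2 : ℤ) : ℝ)| ∧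
        ∃ y : ℕ, 1 ≤ y ∧ hev f.natDegree f (w0 + s • v).1 (w0 + s • v).2 = m * (y : ℤ) ^ e) →
      (∀ s ∈ S, ∀ t ∈ S, |s - t| ≤ (L : ℤ)) → S.card ≤ G := by
  classical
  set r := f.natDegree with hrdef
  set K : ℕ := ⌈8 * ((r : ℝ) + 2) / ε⌉₊ with hK
  have hKε : (r : ℝ) + 2 ≤ ((K : ℝ) + 1) * (ε / 8) := by
    have h1 : 8 * ((r : ℝ) + 2) / ε ≤ K := Nat.le_ceil _
    rw [div_le_iff₀ hε] at h1
    nlinarith
  obtain ⟨CI, z0, hCI, hz0, hpow⟩ := power_values_short r e K he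
  set k : ℕ := r * K + 1 with hk
  have hk1 : (1 : ℝ) ≤ (k : ℝ) := by
    have : 1 ≤ k := by omega
    exact_mod_cast this
  set c1 : ℝ := min (ε / 16) (1 / ((k : ℝ) * k)) with hc1
  have hc1pos : 0 < c1 := lt_min (by positivity) (by positivity)
  have hc1k : c1 * (k * k : ℕ) ≤ 1 := by
    have h1 : c1 ≤ 1 / ((k : ℝ) * k) := min_le_right _ _
    rw [le_div_iff₀ (by positivity)] at h1
    push_cast
    exact h1
  set Cs : ℝ := csum r f with hCs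
  have hCs0 : 0 ≤ Cs := csum_nonneg _ _
  set Λ : ℝ := 2 * Cs * r with hΛ
  have hΛ0 : 0 ≤ Λ := by positivity
  -- large U
  set U1 : ℝ := (Λ / z0 + 1) ^ (8 / ε) with hU1def
  set U2 : ℝ := CI * Cs * Λ ^ (K + 1) + 1 with hU2def
  set U0 : ℝ := max 1 (max U1 U2) with hU0def
  have hc1one : c1 ≤ 1 := by
    refine (min_le_right _ _).trans ?_
    rw [div_le_one (by positivity)]
    nlinarith
  refine ⟨c1, U0, e * (r * K) + r, hc1pos, hc1one, min_le_left _ _, le_max_left _ _, ?_⟩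
  intro A B hB hBA hU v w0 hv hdet m hm L hL hLU S hS hdiam
  have hA : 1 ≤ A := hB.trans hBA
  have hA1 : (1 : ℝ) ≤ (A : ℝ) := by exact_mod_cast hA
  have hB1 : (1 : ℝ) ≤ (B : ℝ) := by exact_mod_cast hB
  have hBAR : (B : ℝ) ≤ (A : ℝ) := by exact_mod_cast hBA
  have hA0 : (0 : ℝ) < (A : ℝ) := by linarith
  have hB0 : (0 : ℝ) < (B : ℝ) := by linarith
  set U : ℝ := (A : ℝ) * B with hUdef
  have hU1' : 1 ≤ U := (le_max_left _ _).trans hU
  have hUpos : 0 < U := by linarith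
  have hAU : (A : ℝ) ≤ U := by rw [hUdef]; nlinarith
  set lam : ℝ := Λ * U ^ (-(ε / 8)) with hlam
  have hlam0 : 0 ≤ lam := mul_nonneg hΛ0 (Real.rpow_nonneg hUpos.le _)
  -- lam ≤ z0
  have hlamz : lam ≤ z0 := by
    have h1 : U1 ≤ U := ((le_max_left _ _).trans (le_max_right _ _)).trans hU
    have h2 : Λ / z0 + 1 ≤ U ^ (ε / 8) := by
      have h3 : 0 ≤ Λ / z0 + 1 := by positivity
      calc Λ / z0 + 1 = ((Λ / z0 + 1) ^ (8 / ε)) ^ (ε / 8) := by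
            rw [← Real.rpow_mul h3]
            have : 8 / ε * (ε / 8) = 1 := by field_simp
            rw [this, Real.rpow_one]
        _ ≤ U ^ (ε / 8) := Real.rpow_le_rpow (Real.rpow_nonneg h3 _) h1 (by positivity)
    have h3 : Λ / z0 ≤ U ^ (ε / 8) := by linarith
    rw [div_le_iff₀ hz0] at h3
    rw [hlam, Real.rpow_neg hUpos.le, ← div_eq_mul_inv, div_le_iff₀ (Real.rpow_pos_of_pos hUpos _)]
    linarith
  -- choose y
  have hy : ∀ s : ℤ, ∃ y : ℕ, s ∈ S → (1 ≤ y ∧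
      hev r f (w0 + s • v).1 (w0 + s • v).2 = m * (y : ℤ) ^ e) := by
    intro s
    by_cases hs : s ∈ S
    · obtain ⟨_, _, y, hy⟩ := hS s hs
      exact ⟨y, fun _ => hy⟩
    · exact ⟨0, fun h => absurd h hs⟩
  choose y hy using hy
  have heval : ∀ s : ℤ, (linePoly r f w0 v).eval s = hev r f (w0 + s • v).1 (w0 + s • v).2 := by
    intro s
    rw [linePoly_eval]
    congr 1
    · simp only [Prod.fst_add, Prod.smul_fst, smul_eq_mul]; ring
    · simp only [Prod.snd_add, Prod.smul_snd, smul_eq_mul]; ring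
  have habs : ∀ s ∈ S, |((w0 + s • v).1 : ℝ)| ≤ (A : ℝ) ∧ |((w0 + s • v).2 : ℝ)| ≤ (A : ℝ) := by
    intro s hs
    have h1 := mem_box.mp (hS s hs).1
    constructor
    · rw [abs_le]
      exact ⟨by exact_mod_cast h1.1.1, by exact_mod_cast h1.1.2⟩
    · rw [abs_le]
      constructor
      · have : (0 : ℤ) ≤ (w0 + s • v).2 := by linarith [h1.2.1]
        have h2 : (0 : ℝ) ≤ ((w0 + s • v).2 : ℝ) := by exact_mod_cast this
        linarith
      · have h2 : ((w0 + s • v).2 : ℝ) ≤ (B : ℝ) := by exact_mod_cast h1.2.2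
        linarith
  apply hpow (linePoly r f w0 v) m S y L (Cs * U ^ (r : ℝ)) lam (linePoly_natDegree_le _ _ _ _) hm hL
  · intro s hs
    rw [heval]; exact (hy s hs).2
  · intro s hs
    exact (hy s hs).1
  · intro s hs
    obtain ⟨hy1, hy2⟩ := hy s hs
    have h1 := abs_hev_le r f (w0 + s • v).1 (w0 + s • v).2 A (habs s hs).1 (habs s hs).2
    rw [hy2] at h1
    push_cast at h1
    rw [abs_mul, abs_of_nonneg (by positivity : (0 : ℝ) ≤ (y s : ℝ) ^ e)] at h1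
    have h2 : (1 : ℝ) ≤ |(m : ℝ)| := by exact_mod_cast Int.one_le_abs hm
    have hy1R : (1 : ℝ) ≤ (y s : ℝ) := by exact_mod_cast hy1
    have h3 : (y s : ℝ) ≤ (y s : ℝ) ^ e := by
      calc (y s : ℝ) = (y s : ℝ) ^ 1 := (pow_one _).symm
        _ ≤ (y s : ℝ) ^ e := pow_le_pow_right₀ hy1R (by omega)
    calc (y s : ℝ) ≤ 1 * (y s : ℝ) ^ e := by linarith
      _ ≤ |(m : ℝ)| * (y s : ℝ) ^ e := by gcongr
      _ ≤ Cs * (A : ℝ) ^ r := h1
      _ ≤ Cs * U ^ r := by gcongr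
      _ = Cs * U ^ (r : ℝ) := by rw [Real.rpow_natCast]
  · exact hdiam
  · exact hlam0
  · exact hlamz
  · -- variation
    intro s hs t ht
    rw [heval, heval]
    have h1 := abs_hev_sub_le r f (w0 + s • v).1 (w0 + s • v).2 (w0 + t • v).1 (w0 + t • v).2 A
      (habs s hs).1 (habs s hs).2 (habs t ht).1 (habs t ht).2
    refine h1.trans ?_
    have hst : |(s : ℝ) - t| ≤ (L : ℝ) := by exact_mod_cast hdiam s hs t ht
    have hL0 : (0 : ℝ) ≤ (L : ℝ) := Nat.cast_nonneg _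
    obtain ⟨hn1, hn2⟩ := nrm_bounds (A := A) (B := B) v
    have hn0 : (0 : ℝ) ≤ (nrm A B v : ℝ) := Nat.cast_nonneg _
    have h2 : |((w0 + s • v).1 : ℝ) - ((w0 + t • v).1 : ℝ)| * B ≤ L * (nrm A B v : ℝ) := by
      have e1 : ((w0 + s • v).1 : ℝ) - ((w0 + t • v).1 : ℝ) = ((s : ℝ) - t) * (v.1 : ℝ) := by
        simp only [Prod.fst_add, Prod.smul_fst, smul_eq_mul]; push_cast; ring
      rw [e1, abs_mul, mul_assoc]
      exact mul_le_mul hst hn1 (by positivity) hL0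
    have h3 : |((w0 + s • v).2 : ℝ) - ((w0 + t • v).2 : ℝ)| * B ≤ L * (nrm A B v : ℝ) := by
      have e1 : ((w0 + s • v).2 : ℝ) - ((w0 + t • v).2 : ℝ) = ((s : ℝ) - t) * (v.2 : ℝ) := by
        simp only [Prod.snd_add, Prod.smul_snd, smul_eq_mul]; push_cast; ring
      rw [e1, abs_mul, mul_assoc]
      refine mul_le_mul hst ?_ (by positivity) hL0
      calc |(v.2 : ℝ)| * B ≤ |(v.2 : ℝ)| * A := by gcongr
        _ ≤ _ := hn2
    have h4 : |((w0 + s • v).1 : ℝ) - ((w0 + t • v).1 : ℝ)| +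
        |((w0 + s • v).2 : ℝ) - ((w0 + t • v).2 : ℝ)| ≤ 2 * (L * (nrm A B v : ℝ)) / B := by
      rw [le_div_iff₀ hB0]
      linarith
    have h5 : (A : ℝ) ^ (r - 1) * (2 * (L * (nrm A B v : ℝ)) / B) =
        2 * (A : ℝ) ^ r * (L * (nrm A B v : ℝ) / U) := by
      obtain ⟨j, hj⟩ : ∃ j, r = j + 1 := ⟨r - 1, by omega⟩
      rw [hj, Nat.add_sub_cancel, hUdef, pow_succ]
      field_simp
    have h6 : (L : ℝ) * (nrm A B v : ℝ) / U ≤ U ^ (c1 - ε / 4) := by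
      rw [div_le_iff₀ hUpos]
      calc (L : ℝ) * (nrm A B v : ℝ) ≤ U ^ c1 * U ^ (1 - ε / 4) := by gcongr
        _ = U ^ (c1 - ε / 4) * U := by
            rw [← Real.rpow_add hUpos]
            nth_rewrite 3 [← Real.rpow_one U]
            rw [← Real.rpow_add hUpos]
            congr 1; ring
    have h7 : (A : ℝ) ^ r * U ^ (-(ε / 16)) ≤ (A : ℝ) ^ ((r : ℝ) - ε / 16) := by
      rw [sub_eq_add_neg, Real.rpow_add hA0, Real.rpow_natCast]
      apply mul_le_mul_of_nonneg_left _ (by positivity)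
      apply Real.rpow_le_rpow_of_nonpos hA0 hAU
      linarith
    have h8 := (hS t ht).2.1
    have h9 : U ^ (c1 - ε / 4) ≤ U ^ (-(ε / 8)) * U ^ (-(ε / 16)) := by
      rw [← Real.rpow_add hUpos]
      apply Real.rpow_le_rpow_of_exponent_le hU1'
      have : c1 ≤ ε / 16 := min_le_left _ _
      linarith
    calc csum r f * ((r : ℝ) * (A : ℝ) ^ (r - 1)) *
          (|((w0 + s • v).1 : ℝ) - ((w0 + t • v).1 : ℝ)| +
            |((w0 + s • v).2 : ℝ) - ((w0 + t • v).2 : ℝ)|)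
        ≤ csum r f * ((r : ℝ) * (A : ℝ) ^ (r - 1)) * (2 * (L * (nrm A B v : ℝ)) / B) := by
          gcongr
      _ = Cs * r * ((A : ℝ) ^ (r - 1) * (2 * (L * (nrm A B v : ℝ)) / B)) := by rw [hCs]; ring
      _ = Λ * ((A : ℝ) ^ r * (L * (nrm A B v : ℝ) / U)) := by rw [h5, hΛ]; ring
      _ ≤ Λ * ((A : ℝ) ^ r * (U ^ (-(ε / 8)) * U ^ (-(ε / 16)))) := by
          have := h6.trans h9
          gcongr
      _ = lam * ((A : ℝ) ^ r * U ^ (-(ε / 16))) := by rw [hlam]; ring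
      _ ≤ lam * |((hev r f (w0 + t • v).1 (w0 + t • v).2 : ℤ) : ℝ)| := by
          have := h7.trans h8
          gcongr
  · -- the smallness condition
    have h1 : U2 ≤ U := ((le_max_right _ _).trans (le_max_right _ _)).trans hU
    have h2 : lam ^ (K + 1) ≤ Λ ^ (K + 1) * U ^ (-((r : ℝ) + 2)) := by
      rw [hlam, mul_pow]
      apply mul_le_mul_of_nonneg_left _ (by positivity)
      rw [← Real.rpow_natCast, ← Real.rpow_mul hUpos.le]
      apply Real.rpow_le_rpow_of_exponent_le hU1'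
      push_cast
      linarith
    have h3 : (L : ℝ) ^ (k * k) ≤ U := by
      calc (L : ℝ) ^ (k * k) ≤ (U ^ c1) ^ (k * k) := by gcongr
        _ = U ^ (c1 * (k * k : ℕ)) := by
            rw [← Real.rpow_natCast, ← Real.rpow_mul hUpos.le]
        _ ≤ U ^ (1 : ℝ) := Real.rpow_le_rpow_of_exponent_le hU1' hc1k
        _ = U := Real.rpow_one U
    have h4 : U ^ (r : ℝ) * U ^ (-((r : ℝ) + 2)) * U = U ^ (-(1 : ℝ)) := by
      rw [← Real.rpow_add hUpos]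
      nth_rewrite 2 [← Real.rpow_one U]
      rw [← Real.rpow_add hUpos]
      congr 1; ring
    calc CI * (Cs * U ^ (r : ℝ)) * lam ^ (K + 1) * (L : ℝ) ^ (k * k)
        ≤ CI * (Cs * U ^ (r : ℝ)) * (Λ ^ (K + 1) * U ^ (-((r : ℝ) + 2))) * U := by
          have : 0 ≤ U ^ (r : ℝ) := Real.rpow_nonneg hUpos.le _
          gcongr
      _ = (CI * Cs * Λ ^ (K + 1)) * (U ^ (r : ℝ) * U ^ (-((r : ℝ) + 2)) * U) := by ring
      _ = (CI * Cs * Λ ^ (K + 1)) / U := by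
          rw [h4, Real.rpow_neg hUpos.le, Real.rpow_one, div_eq_mul_inv]
      _ < 1 := by
          rw [div_lt_one hUpos]
          linarith
  · exact linePoly_not_pow f P Q d hd0 hd hr w0 v hdet m hm e he

/-- Event E2: few pairs have a value of the shape `± m0 m1 y^e`. -/
theorem card_powers (f P Q : ℤ[X]) (d : ℤ) (hd0 : d ≠ 0)
    (hd : P * f + Q * derivative f = C d) (hr : 2 ≤ f.natDegree) (e : ℕ) (he : 2 ≤ e)
    (ε : ℝ) (hε : 0 < ε) :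
    ∃ C0 c : ℝ, 0 < C0 ∧ 0 < c ∧ c ≤ 1 ∧ c ≤ ε / 64 ∧ ∀ A B : ℕ, 1 ≤ B → B ≤ A →
      ∀ T : Finset (ℤ × ℤ), T ⊆ box A B →
      (∀ w ∈ T, IsCoprime w.1 w.2 ∧
        (A : ℝ) ^ ((f.natDegree : ℝ) - ε / 16) ≤ |((hev f.natDegree f w.1 w.2 : ℤ) : ℝ)| ∧
        ∃ m0 m1 y : ℕ, 1 ≤ m0 ∧ (m0 : ℝ) ≤ ((A : ℝ) * B) ^ c ∧ 1 ≤ m1 ∧
          (m1 : ℝ) ≤ ((A : ℝ) * B) ^ (1 - ε) ∧
          Nat.Coprime m1 (d * f.coeff f.natDegree).natAbs ∧ 1 ≤ y ∧
          (hev f.natDegree f w.1 w.2).natAbs = m0 * m1 * y ^ e) →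
      (T.card : ℝ) ≤ C0 * ((A : ℝ) * B) ^ (1 - c) := by
  classical
  obtain ⟨c1, U0, G, hc1, hc1one, hc1ε, hU0, hwin⟩ := window_powers f P Q d hd0 hd hr e he ε hε
  set κ : ℝ := c1 / 8 with hκ
  have hκ0 : 0 < κ := by positivity
  set r := f.natDegree with hrdef
  obtain ⟨Cω, hCω1, hCω⟩ := exists_pow_card_primeFactors_le r κ hκ0
  obtain ⟨C1, hC10, hC1⟩ := exists_sum_rpow_sub_le κ hκ0
  set c : ℝ := c1 / 4 with hc
  refine ⟨3 * U0 + 2 * Cω + 40 * G * Cω * C1, c, by positivity, by positivity, by linarith,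
    by linarith, ?_⟩
  intro A B hB hBA T hT hTw
  have hA : 1 ≤ A := hB.trans hBA
  have hA1 : (1 : ℝ) ≤ (A : ℝ) := by exact_mod_cast hA
  have hB1 : (1 : ℝ) ≤ (B : ℝ) := by exact_mod_cast hB
  set U : ℝ := (A : ℝ) * B with hUdef
  have hU1 : 1 ≤ U := by rw [hUdef]; nlinarith
  have hUpos : 0 < U := by linarith
  have hUc1 : 1 ≤ U ^ (1 - c) := Real.one_le_rpow hU1 (by linarith)
  have hCω0 : 0 ≤ Cω := by linarith
  have hG0 : (0 : ℝ) ≤ (G : ℝ) := Nat.cast_nonneg _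
  rcases lt_or_ge U U0 with hUU | hUU
  · have h1 : (T.card : ℝ) ≤ ((box A B).card : ℝ) := by exact_mod_cast Finset.card_le_card hT
    have h2 := card_box_le (A := A) (B := B) hA
    have h3 : 3 * U0 * 1 ≤ (3 * U0 + 2 * Cω + 40 * G * Cω * C1) * U ^ (1 - c) := by
      apply mul_le_mul _ hUc1 zero_le_one (by positivity)
      have : 0 ≤ 2 * Cω + 40 * G * Cω * C1 := by positivity
      linarith
    linarith
  -- main case
  set M0 := (d * f.coeff r).natAbs with hM0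
  set N0 : ℕ := ⌊U ^ c⌋₊ with hN0
  set N1 : ℕ := ⌊U ^ (1 - ε)⌋₊ with hN1
  set L : ℕ := ⌊U ^ c1⌋₊ with hL
  have hUc : 1 ≤ U ^ c1 := Real.one_le_rpow hU1 hc1.le
  have hL1 : 1 ≤ L := by
    rw [hL]; exact Nat.one_le_floor_iff _ |>.mpr hUc
  have hLle : (L : ℝ) ≤ U ^ c1 := Nat.floor_le (by positivity)
  have hLge : U ^ c1 / 2 ≤ (L : ℝ) := by
    have h1 : U ^ c1 < L + 1 := Nat.lt_floor_add_one _
    have h2 : (1 : ℝ) ≤ (L : ℝ) := by exact_mod_cast hL1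
    linarith
  -- fixed m, m1
  have hfix : ∀ (m : ℤ) (m1 : ℕ), m ≠ 0 → 1 ≤ m1 → (m1 : ℤ) ∣ m → (m1 : ℝ) ≤ U ^ (1 - ε) →
      Nat.Coprime m1 M0 → ∀ T' : Finset (ℤ × ℤ), T' ⊆ T →
      (∀ w ∈ T', ∃ y : ℕ, 1 ≤ y ∧ hev r f w.1 w.2 = m * (y : ℤ) ^ e) →
      (T'.card : ℝ) ≤ Cω * (m1 : ℝ) ^ κ * (1 + 20 * G * U ^ (1 - c1) / m1) := by
    intro m m1 hm hm1 hm1m hm1U hcop T' hT' hy
    obtain ⟨hcd, hcf⟩ := isCoprime_of_coprime_natAbs_mul hcop
    have hm1R : (0 : ℝ) < (m1 : ℝ) := by exact_mod_cast hm1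
    have hMnn : 0 ≤ 1 + 20 * (G : ℝ) * U ^ (1 - c1) / m1 := by positivity
    have h1 := card_le_of_lattices f P Q d hd r le_rfl m1 (by omega) hcd hcf T'
      (fun w hw => by
        obtain ⟨y, _, hy2⟩ := hy w hw
        refine ⟨(hTw w (hT' hw)).1, ?_⟩
        rw [hy2]
        exact hm1m.mul_right _)
      (1 + 20 * G * U ^ (1 - c1) / m1) hMnn (by
        intro x T'' hT'' hlat
        obtain ⟨v, hv⟩ := exists_isMin A B m1 hm1 (x : ℤ)
        have hvn := isMin_nrm_le hA hB hm1 (x : ℤ) v hv ε hε hm1U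
        have h2 := lattice_count hA hB hm1 (x : ℤ) v hv T'' (by
          intro w hw
          have h3 := mem_box.mp (hT (hT' (hT'' hw)))
          exact ⟨hlat w hw, abs_le.mpr h3.1, h3.2.1, h3.2.2, (hTw w (hT' (hT'' hw))).1⟩) L hL1 G (by
          intro w0 _ hdet S hS hdiam
          apply hwin A B hB hBA hUU v w0 hvn hdet m hm L hL1 hLle S _ hdiam
          intro s hs
          have h4 := hT' (hT'' (hS s hs))
          exact ⟨hT h4, (hTw _ h4).2.1, hy _ (hT'' (hS s hs))⟩)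
        refine h2.trans ?_
        have h5 : 8 * U / (m1 * L) ≤ 16 * U ^ (1 - c1) / m1 := by
          have h6 : U ^ (1 - c1) = U / U ^ c1 := by rw [Real.rpow_sub hUpos, Real.rpow_one]
          have h7 : 0 < U ^ c1 := by linarith
          have h8 : 8 * U / (m1 * L) ≤ 8 * U / (m1 * (U ^ c1 / 2)) := by gcongr
          refine h8.trans (le_of_eq ?_)
          rw [h6]
          field_simp
          ring
        have h6 : 4 * (nrm A B v : ℝ) / m1 ≤ 4 * U ^ (1 - c1) / m1 := by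
          have h7 : U ^ (1 - ε / 4) ≤ U ^ (1 - c1) :=
            Real.rpow_le_rpow_of_exponent_le hU1 (by linarith)
          have h8 := hvn.trans h7
          gcongr
        have h7 : 8 * U / (m1 * L) + 4 * (nrm A B v : ℝ) / m1 ≤ 20 * U ^ (1 - c1) / m1 := by
          have h9 : 20 * U ^ (1 - c1) / m1 = 16 * U ^ (1 - c1) / m1 + 4 * U ^ (1 - c1) / m1 := by
            ring
          rw [h9]; linarith
        calc 1 + (G : ℝ) * (8 * U / (m1 * L) + 4 * (nrm A B v : ℝ) / m1)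
            ≤ 1 + (G : ℝ) * (20 * U ^ (1 - c1) / m1) := by gcongr
          _ = 1 + 20 * (G : ℝ) * U ^ (1 - c1) / m1 := by ring)
    refine h1.trans ?_
    exact mul_le_mul_of_nonneg_right (hCω m1 (by omega)) hMnn
  set PP : Finset (ℤ × (ℕ × ℕ)) := ((({1, -1} : Finset ℤ) ×ˢ
    ((Finset.Icc 1 N0) ×ˢ (Finset.Icc 1 N1)))).filter (fun q => Nat.Coprime q.2.2 M0) with hPP
  have hcover : T ⊆ PP.biUnion (fun q => T.filter (fun w =>
      ∃ y : ℕ, 1 ≤ y ∧ hev r f w.1 w.2 = (q.1 * (q.2.1 * q.2.2)) * (y : ℤ) ^ e)) := by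
    intro w hw
    obtain ⟨_, _, m0, m1, y, h1, h2, h3, h4, h5, h6, h7⟩ := hTw w hw
    have h8 : ∃ σ ∈ ({1, -1} : Finset ℤ), hev r f w.1 w.2 = σ * ((hev r f w.1 w.2).natAbs : ℤ) := by
      rcases Int.natAbs_eq (hev r f w.1 w.2) with h | h
      · exact ⟨1, by simp, by rw [one_mul]; exact h⟩
      · exact ⟨-1, by simp, by rw [neg_one_mul]; exact h⟩
    obtain ⟨σ, hσ, hσe⟩ := h8
    rw [Finset.mem_biUnion]
    refine ⟨(σ, (m0, m1)), ?_, ?_⟩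
    · rw [hPP, Finset.mem_filter, Finset.mem_product, Finset.mem_product, Finset.mem_Icc,
        Finset.mem_Icc]
      exact ⟨⟨hσ, ⟨h1, Nat.le_floor h2⟩, ⟨h3, Nat.le_floor h4⟩⟩, h5⟩
    · rw [Finset.mem_filter]
      refine ⟨hw, y, h6, ?_⟩
      rw [hσe, h7]; push_cast; ring
  have h1 : (T.card : ℝ) ≤ ∑ q ∈ PP, ((T.filter (fun w =>
      ∃ y : ℕ, 1 ≤ y ∧ hev r f w.1 w.2 = (q.1 * (q.2.1 * q.2.2)) * (y : ℤ) ^ e)).card : ℝ) := by
    exact_mod_cast (Finset.card_le_card hcover).trans Finset.card_biUnion_le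
  refine h1.trans ?_
  have hUκ0 : 0 ≤ U ^ (1 - c1) := Real.rpow_nonneg hUpos.le _
  have hterm : ∀ q ∈ PP, ((T.filter (fun w =>
      ∃ y : ℕ, 1 ≤ y ∧ hev r f w.1 w.2 = (q.1 * (q.2.1 * q.2.2)) * (y : ℤ) ^ e)).card : ℝ) ≤
      Cω * U ^ κ + 20 * G * Cω * U ^ (1 - c1) * (q.2.2 : ℝ) ^ (κ - 1) := by
    intro q hq
    rw [hPP, Finset.mem_filter, Finset.mem_product, Finset.mem_product, Finset.mem_Icc,
      Finset.mem_Icc] at hq
    obtain ⟨⟨hσ, ⟨h1, h2⟩, ⟨h3, h4⟩⟩, h5⟩ := hq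
    have hσ0 : q.1 ≠ 0 := by
      rw [Finset.mem_insert, Finset.mem_singleton] at hσ
      rcases hσ with h | h <;> rw [h] <;> norm_num
    have hm0 : (q.2.1 : ℤ) ≠ 0 := by exact_mod_cast (show q.2.1 ≠ 0 by omega)
    have hm1 : (q.2.2 : ℤ) ≠ 0 := by exact_mod_cast (show q.2.2 ≠ 0 by omega)
    have hm1U : (q.2.2 : ℝ) ≤ U ^ (1 - ε) := (Nat.le_floor_iff (by positivity)).mp h4
    have h6 := hfix (q.1 * (q.2.1 * q.2.2)) q.2.2 (mul_ne_zero hσ0 (mul_ne_zero hm0 hm1)) h3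
      ((dvd_mul_left _ _).mul_left _) hm1U h5 _ (Finset.filter_subset _ _)
      (fun w hw => (Finset.mem_filter.mp hw).2)
    refine h6.trans ?_
    have hm1R : (0 : ℝ) < (q.2.2 : ℝ) := by exact_mod_cast h3
    have h7 : (q.2.2 : ℝ) ^ κ ≤ U ^ κ := by
      have h8 : (q.2.2 : ℝ) ≤ U := by
        refine hm1U.trans ?_
        calc U ^ (1 - ε) ≤ U ^ (1 : ℝ) := Real.rpow_le_rpow_of_exponent_le hU1 (by linarith)
          _ = U := Real.rpow_one U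
      gcongr
    have h8 : (q.2.2 : ℝ) ^ (κ - 1) = (q.2.2 : ℝ) ^ κ / q.2.2 := by
      rw [Real.rpow_sub hm1R, Real.rpow_one]
    rw [h8]
    calc Cω * (q.2.2 : ℝ) ^ κ * (1 + 20 * G * U ^ (1 - c1) / q.2.2)
        = Cω * (q.2.2 : ℝ) ^ κ + 20 * G * Cω * U ^ (1 - c1) * ((q.2.2 : ℝ) ^ κ / q.2.2) := by ring
      _ ≤ Cω * U ^ κ + 20 * G * Cω * U ^ (1 - c1) * ((q.2.2 : ℝ) ^ κ / q.2.2) := by gcongr
  have hN0U : (N0 : ℝ) ≤ U ^ c := Nat.floor_le (by positivity)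
  have hN1U : (N1 : ℝ) ≤ U ^ (1 - ε) := Nat.floor_le (by positivity)
  have hN1U' : (N1 : ℝ) ≤ U := by
    refine hN1U.trans ?_
    calc U ^ (1 - ε) ≤ U ^ (1 : ℝ) := Real.rpow_le_rpow_of_exponent_le hU1 (by linarith)
      _ = U := Real.rpow_one U
  calc ∑ q ∈ PP, ((T.filter (fun w =>
      ∃ y : ℕ, 1 ≤ y ∧ hev r f w.1 w.2 = (q.1 * (q.2.1 * q.2.2)) * (y : ℤ) ^ e)).card : ℝ)
      ≤ ∑ q ∈ PP, (Cω * U ^ κ + 20 * G * Cω * U ^ (1 - c1) * (q.2.2 : ℝ) ^ (κ - 1)) :=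
        Finset.sum_le_sum hterm
    _ ≤ ∑ q ∈ ({1, -1} : Finset ℤ) ×ˢ ((Finset.Icc 1 N0) ×ˢ (Finset.Icc 1 N1)),
        (Cω * U ^ κ + 20 * G * Cω * U ^ (1 - c1) * (q.2.2 : ℝ) ^ (κ - 1)) := by
        apply Finset.sum_le_sum_of_subset_of_nonneg (Finset.filter_subset _ _)
        intro q _ _
        positivity
    _ = 2 * (N0 * (N1 * (Cω * U ^ κ) + 20 * G * Cω * U ^ (1 - c1) *
          ∑ m ∈ Finset.Icc 1 N1, (m : ℝ) ^ (κ - 1))) := by
        simp only [Finset.sum_product, Finset.sum_const, Finset.sum_add_distrib, Nat.card_Icc,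
          Finset.card_product,
          Nat.add_sub_cancel, nsmul_eq_mul, ← Finset.mul_sum]
        rw [Finset.card_pair (by norm_num)]
        push_cast
        ring
    _ ≤ 2 * (U ^ c * (U ^ (1 - ε) * (Cω * U ^ κ) + 20 * G * Cω * U ^ (1 - c1) *
          (C1 * U ^ (2 * κ)))) := by
        have h9 := hC1 N1 U hN1U'
        gcongr
    _ = 2 * Cω * (U ^ c * (U ^ (1 - ε) * U ^ κ)) +
        40 * G * Cω * C1 * (U ^ c * (U ^ (1 - c1) * U ^ (2 * κ))) := by ring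
    _ ≤ 2 * Cω * U ^ (1 - c) + 40 * G * Cω * C1 * U ^ (1 - c) := by
        have g1 : U ^ c * (U ^ (1 - ε) * U ^ κ) ≤ U ^ (1 - c) := by
          rw [← Real.rpow_add hUpos, ← Real.rpow_add hUpos]
          apply Real.rpow_le_rpow_of_exponent_le hU1
          rw [hκ, hc]; linarith
        have g2 : U ^ c * (U ^ (1 - c1) * U ^ (2 * κ)) ≤ U ^ (1 - c) := by
          rw [← Real.rpow_add hUpos, ← Real.rpow_add hUpos]
          apply Real.rpow_le_rpow_of_exponent_le hU1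
          rw [hκ, hc]; linarith
        gcongr
    _ ≤ (3 * U0 + 2 * Cω + 40 * G * Cω * C1) * U ^ (1 - c) := by
        have : 0 ≤ 3 * U0 * U ^ (1 - c) := by positivity
        nlinarith

end Pool.Agent.Lib.MP_d8bd92_nt
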