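import Pool.Agent.Lib.MP_d8bd92_nt.FamEvents1
import Pool.Agent.Lib.MP_d8bd92_nt.FamRoots
import Pool.Agent.Lib.MP_d8bd92_nt.FamArith

set_option autoImplicit false

namespace Pool.Agent.Lib.MP_d8bd92_nt

open Finset Polynomial

/-- Event Eb: few pairs have a large part supported on fixed primes. -/
theorem card_bad (f : ℤ[X]) (hf : f.coeff f.natDegree ≠ 0) (M0 : ℕ)
    (hM0 : M0 ≠ 0) (η1 : ℝ) (hη1 : 0 < η1) :
    ∃ C0 δ : ℝ, 0 < C0 ∧ 0 < δ ∧ δ ≤ 1 / 2 ∧ ∀ A B : ℕ, 1 ≤ B → B ≤ A →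
      ∀ T : Finset (ℤ × ℤ), T ⊆ box A B →
      (∀ w ∈ T, hev f.natDegree f w.1 w.2 ≠ 0 ∧ ((A : ℝ) * B) ^ η1 <
        ((∏ p ∈ (hev f.natDegree f w.1 w.2).natAbs.primeFactors.filter (fun p => p ∣ M0),
          p ^ (hev f.natDegree f w.1 w.2).natAbs.factorization p : ℕ) : ℝ)) →
      (T.card : ℝ) ≤ C0 * ((A : ℝ) * B) ^ (1 - δ) := by
  classical
  set r := f.natDegree with hrdef
  set k : ℕ := M0.primeFactors.card + 1 with hk
  have hk1 : (1 : ℝ) ≤ (k : ℝ) := by
    have : 1 ≤ k := by omega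
    exact_mod_cast this
  set η : ℝ := η1 / k with hη
  have hη0 : 0 < η := by positivity
  set q : ℕ := (r + 1) * r + 1 with hq
  have hq1 : (1 : ℝ) ≤ (q : ℝ) := by
    have : 1 ≤ q := by omega
    exact_mod_cast this
  set η2 : ℝ := η / (2 * q) with hη2
  have hη20 : 0 < η2 := by positivity
  set F0 : ℝ := |((f.coeff r : ℤ) : ℝ)| with hF0
  have hF00 : 0 ≤ F0 := abs_nonneg _
  set U0 : ℝ := (F0 + 1) ^ (2 / η) with hU0
  have hU01 : 1 ≤ U0 := Real.one_le_rpow (by linarith) (by positivity)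
  set δ : ℝ := min η2 (1 / 2) with hδ
  have hδ0 : 0 < δ := lt_min hη20 (by norm_num)
  refine ⟨3 * U0 + k * (5 * r), δ, by positivity, hδ0, min_le_right _ _, ?_⟩
  intro A B hB hBA T hT hTw
  have hA : 1 ≤ A := hB.trans hBA
  have hA1 : (1 : ℝ) ≤ (A : ℝ) := by exact_mod_cast hA
  have hB1 : (1 : ℝ) ≤ (B : ℝ) := by exact_mod_cast hB
  have hBAR : (B : ℝ) ≤ (A : ℝ) := by exact_mod_cast hBA
  set U : ℝ := (A : ℝ) * B with hUdef
  have hU1 : 1 ≤ U := by rw [hUdef]; nlinarith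
  have hUpos : 0 < U := by linarith
  have hδ1 : δ ≤ 1 / 2 := min_le_right _ _
  have hUc1 : 1 ≤ U ^ (1 - δ) := Real.one_le_rpow hU1 (by linarith)
  rcases lt_or_ge U U0 with hUU | hUU
  · have h1 : (T.card : ℝ) ≤ ((box A B).card : ℝ) := by exact_mod_cast Finset.card_le_card hT
    have h2 := card_box_le (A := A) (B := B) hA
    have h3 : 3 * U0 * 1 ≤ (3 * U0 + k * (5 * r)) * U ^ (1 - δ) := by
      apply mul_le_mul _ hUc1 zero_le_one (by positivity)
      have : 0 ≤ (k : ℝ) * (5 * r) := by positivity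
      linarith
    linarith
  set t : ℕ := ⌈U ^ η⌉₊ with ht
  have htU : U ^ η ≤ (t : ℝ) := Nat.le_ceil _
  set Dp : ℕ → ℕ := fun p => p ^ Nat.clog p t with hDp
  have hcover : T ⊆ M0.primeFactors.biUnion (fun p =>
      T.filter (fun w => ((Dp p : ℕ) : ℤ) ∣ hev r f w.1 w.2)) := by
    intro w hw
    obtain ⟨hn0, hbig⟩ := hTw w hw
    set n := (hev r f w.1 w.2).natAbs with hn
    by_contra hcon
    have hsmall : ∀ p ∈ n.primeFactors.filter (fun p => p ∣ M0),
        ((p ^ n.factorization p : ℕ) : ℝ) ≤ U ^ η := by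
      intro p hp
      rw [Finset.mem_filter] at hp
      by_contra hlt
      push Not at hlt
      apply hcon
      have hpp := Nat.prime_of_mem_primeFactors hp.1
      rw [Finset.mem_biUnion]
      refine ⟨p, Nat.mem_primeFactors.mpr ⟨hpp, hp.2, hM0⟩, ?_⟩
      rw [Finset.mem_filter]
      refine ⟨hw, ?_⟩
      have h1 : t ≤ p ^ n.factorization p := Nat.ceil_le.mpr hlt.le
      have h2 : Nat.clog p t ≤ n.factorization p := Nat.clog_le_of_le_pow h1
      have h3 : Dp p ∣ n := (pow_dvd_pow p h2).trans (Nat.ordProj_dvd n p)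
      rw [hn] at h3
      exact Int.natCast_dvd.mpr h3
    have h1 : ((∏ p ∈ n.primeFactors.filter (fun p => p ∣ M0),
        p ^ n.factorization p : ℕ) : ℝ) ≤ U ^ η1 := by
      rw [Nat.cast_prod]
      have h2 : ∏ p ∈ n.primeFactors.filter (fun p => p ∣ M0), ((p ^ n.factorization p : ℕ) : ℝ) ≤
          ∏ _p ∈ n.primeFactors.filter (fun p => p ∣ M0), U ^ η :=
        Finset.prod_le_prod (fun _ _ => Nat.cast_nonneg _) hsmall
      refine h2.trans ?_
      rw [Finset.prod_const]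
      have hUη : 1 ≤ U ^ η := Real.one_le_rpow hU1 hη0.le
      have h3 : (n.primeFactors.filter (fun p => p ∣ M0)).card ≤ k := by
        have h4 : n.primeFactors.filter (fun p => p ∣ M0) ⊆ M0.primeFactors := by
          intro p hp
          rw [Finset.mem_filter] at hp
          exact Nat.mem_primeFactors.mpr ⟨Nat.prime_of_mem_primeFactors hp.1, hp.2, hM0⟩
        have := Finset.card_le_card h4
        omega
      calc (U ^ η) ^ (n.primeFactors.filter (fun p => p ∣ M0)).card ≤ (U ^ η) ^ k :=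
            pow_le_pow_right₀ hUη h3
        _ = U ^ η1 := by
            rw [← Real.rpow_natCast, ← Real.rpow_mul hUpos.le, hη]
            congr 1
            field_simp
    linarith
  have h1 : (T.card : ℝ) ≤ ∑ p ∈ M0.primeFactors,
      ((T.filter (fun w => ((Dp p : ℕ) : ℤ) ∣ hev r f w.1 w.2)).card : ℝ) := by
    exact_mod_cast (Finset.card_le_card hcover).trans Finset.card_biUnion_le
  refine h1.trans ?_
  set ℓ : ℕ := ⌊U ^ η2⌋₊ with hℓ
  have hUη2 : 1 ≤ U ^ η2 := Real.one_le_rpow hU1 hη20.le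
  have hℓ1 : 1 ≤ ℓ := Nat.one_le_floor_iff _ |>.mpr hUη2
  have hℓle : (ℓ : ℝ) ≤ U ^ η2 := Nat.floor_le (by positivity)
  have hℓge : U ^ η2 / 2 ≤ (ℓ : ℝ) := by
    have h1 : U ^ η2 < ℓ + 1 := Nat.lt_floor_add_one _
    have h2 : (1 : ℝ) ≤ (ℓ : ℝ) := by exact_mod_cast hℓ1
    linarith
  have hF1 : F0 + 1 ≤ U ^ (η / 2) := by
    calc F0 + 1 = ((F0 + 1) ^ (2 / η)) ^ (η / 2) := by
          rw [← Real.rpow_mul (by linarith)]
          have : 2 / η * (η / 2) = 1 := by field_simp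
          rw [this, Real.rpow_one]
      _ ≤ U ^ (η / 2) := Real.rpow_le_rpow (by positivity) hUU (by positivity)
  have hterm : ∀ p ∈ M0.primeFactors,
      ((T.filter (fun w => ((Dp p : ℕ) : ℤ) ∣ hev r f w.1 w.2)).card : ℝ) ≤
        5 * r * U ^ (1 - δ) := by
    intro p hp
    have hpp := Nat.prime_of_mem_primeFactors hp
    have hD1 : U ^ η ≤ ((Dp p : ℕ) : ℝ) := by
      have h2 : t ≤ Dp p := Nat.le_pow_clog hpp.one_lt t
      exact htU.trans (by exact_mod_cast h2)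
    have h2 := card_dvd_fixed f r hf A B (Dp p) ℓ hℓ1 (by
      have h3 : (ℓ : ℝ) ^ ((r + 1) * r) ≤ U ^ (η / 2) := by
        calc (ℓ : ℝ) ^ ((r + 1) * r) ≤ (ℓ : ℝ) ^ q := by
              apply pow_le_pow_right₀ (by exact_mod_cast hℓ1)
              omega
          _ ≤ (U ^ η2) ^ q := by gcongr
          _ = U ^ (η / 2) := by
              rw [← Real.rpow_natCast, ← Real.rpow_mul hUpos.le, hη2]
              congr 1
              field_simp
      have hUη0 : 0 < U ^ (η / 2) := Real.rpow_pos_of_pos hUpos _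
      calc F0 * (ℓ : ℝ) ^ ((r + 1) * r) ≤ F0 * U ^ (η / 2) := by gcongr
        _ < (F0 + 1) * U ^ (η / 2) := by nlinarith
        _ ≤ U ^ (η / 2) * U ^ (η / 2) := by gcongr
        _ = U ^ η := by rw [← Real.rpow_add hUpos]; congr 1; ring
        _ ≤ _ := hD1)
      (T.filter (fun w => ((Dp p : ℕ) : ℤ) ∣ hev r f w.1 w.2))
      ((Finset.filter_subset _ _).trans hT) (fun w hw => (Finset.mem_filter.mp hw).2)
    refine h2.trans ?_
    have h3 : U ^ (1 - η2) = U / U ^ η2 := by rw [Real.rpow_sub hUpos, Real.rpow_one]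
    have h4 : (B : ℝ) * (2 * A / ℓ) ≤ 4 * U ^ (1 - η2) := by
      have h5 : (B : ℝ) * (2 * A / ℓ) ≤ (B : ℝ) * (2 * A / (U ^ η2 / 2)) := by
        have : 0 < U ^ η2 / 2 := by positivity
        gcongr
      refine h5.trans (le_of_eq ?_)
      rw [h3, hUdef]
      field_simp
      norm_num
    have h5 : (B : ℝ) ≤ U ^ (1 / 2 : ℝ) := by
      rw [← Real.sqrt_eq_rpow]
      apply Real.le_sqrt_of_sq_le
      rw [hUdef]; nlinarith
    have h6 : U ^ (1 - η2) ≤ U ^ (1 - δ) := by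
      apply Real.rpow_le_rpow_of_exponent_le hU1
      have : δ ≤ η2 := min_le_left _ _
      linarith
    have h7 : U ^ (1 / 2 : ℝ) ≤ U ^ (1 - δ) := by
      apply Real.rpow_le_rpow_of_exponent_le hU1
      linarith
    have hr0 : (0 : ℝ) ≤ (r : ℝ) := Nat.cast_nonneg _
    calc (B : ℝ) * (r * (2 * A / ℓ + 1)) = r * ((B : ℝ) * (2 * A / ℓ)) + r * B := by ring
      _ ≤ r * (4 * U ^ (1 - δ)) + r * U ^ (1 - δ) := by
          have e1 := h4.trans (mul_le_mul_of_nonneg_left h6 (by norm_num : (0 : ℝ) ≤ 4))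
          have e2 := h5.trans h7
          gcongr
      _ = 5 * r * U ^ (1 - δ) := by ring
  calc ∑ p ∈ M0.primeFactors,
      ((T.filter (fun w => ((Dp p : ℕ) : ℤ) ∣ hev r f w.1 w.2)).card : ℝ)
      ≤ ∑ _p ∈ M0.primeFactors, 5 * r * U ^ (1 - δ) := Finset.sum_le_sum hterm
    _ = M0.primeFactors.card * (5 * r * U ^ (1 - δ)) := by rw [Finset.sum_const, nsmul_eq_mul]
    _ ≤ k * (5 * r * U ^ (1 - δ)) := by
        have : (M0.primeFactors.card : ℝ) ≤ k := by
          rw [hk]; push_cast; linarith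
        gcongr
    _ ≤ (3 * U0 + k * (5 * r)) * U ^ (1 - δ) := by
        have : 0 ≤ 3 * U0 * U ^ (1 - δ) := by positivity
        nlinarith

end Pool.Agent.Lib.MP_d8bd92_nt
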