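import Mathlib

set_option autoImplicit false

namespace Pool.Agent.Lib.MP_d8bd92_nt

open Finset Polynomial

/-- Integer values close to a polynomial of degree `< k` at integer points of small diameter lie
exactly on a polynomial of degree `< k`. -/
theorem interp_rigidity (S : Finset ℤ) (y : ℤ → ℤ) (k : ℕ) (hk : 1 ≤ k) (L : ℕ) (hL : 1 ≤ L)
    (hdiam : ∀ s ∈ S, ∀ t ∈ S, |s - t| ≤ (L : ℤ)) (Q : ℝ[X]) (hQ : Q.natDegree < k)
    (E : ℝ) (hE : 0 ≤ E)
    (happ : ∀ s ∈ S, |(y s : ℝ) - Q.eval (s : ℝ)| ≤ E)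
    (hsmall : (L : ℝ) ^ (k * (k - 1)) * (E * (1 + k * (L : ℝ) ^ (k - 1))) < 1) :
    ∃ R : ℚ[X], R.natDegree < k ∧ ∀ s ∈ S, R.eval (s : ℚ) = y s := by
  classical
  have hinjQ : ∀ T : Finset ℤ, Set.InjOn (fun s : ℤ => (s : ℚ)) T :=
    fun T => Int.cast_injective.injOn
  have hinjR : ∀ T : Finset ℤ, Set.InjOn (fun s : ℤ => (s : ℝ)) T :=
    fun T => Int.cast_injective.injOn
  -- degree of interpolation
  have hdeg : ∀ T : Finset ℤ, T.card ≤ k →
      (Lagrange.interpolate T (fun s : ℤ => (s : ℚ)) (fun s => (y s : ℚ))).natDegree < k := by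
    intro T hT
    have h1 := Lagrange.degree_interpolate_lt (F := ℚ) (fun s => (y s : ℚ)) (hinjQ T)
    by_cases h0 : Lagrange.interpolate T (fun s : ℤ => (s : ℚ)) (fun s => (y s : ℚ)) = 0
    · rw [h0, natDegree_zero]; omega
    · have h2 := (natDegree_lt_iff_degree_lt h0).mpr h1
      omega
  rcases Nat.lt_or_ge k S.card with hc | hc
  · obtain ⟨S0, hS0, hS0c⟩ := Finset.exists_subset_card_eq hc.le
    refine ⟨Lagrange.interpolate S0 (fun s : ℤ => (s : ℚ)) (fun s => (y s : ℚ)),
      hdeg S0 hS0c.le, ?_⟩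
    intro s hs
    by_cases hsS : s ∈ S0
    · exact Lagrange.eval_interpolate_at_node (F := ℚ) (fun s => (y s : ℚ)) (hinjQ S0) hsS
    · -- the interesting case
      set W : ℤ := ∏ i ∈ S0, ∏ j ∈ S0.erase i, (i - j) with hW
      have hW0 : W ≠ 0 := by
        apply Finset.prod_ne_zero_iff.mpr
        intro i _
        apply Finset.prod_ne_zero_iff.mpr
        intro j hj
        exact sub_ne_zero.mpr (Finset.ne_of_mem_erase hj).symm
      -- explicit value
      have hval : ∀ (F : Type) [Field F] (r : ℤ → F),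
          (Lagrange.interpolate S0 (fun s : ℤ => (s : F)) r).eval (s : F) =
          ∑ i ∈ S0, r i * ∏ j ∈ S0.erase i, (((i : F) - j)⁻¹ * ((s : F) - j)) := by
        intro F _ r
        rw [Lagrange.interpolate_apply, eval_finsetSum]
        apply Finset.sum_congr rfl
        intro i hi
        rw [eval_mul, eval_C, Lagrange.basis, eval_prod]
        congr 1
        apply Finset.prod_congr rfl
        intro j hj
        rw [Lagrange.basisDivisor, eval_mul, eval_C, eval_sub, eval_X, eval_C]
      -- integrality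
      have hint : ∃ z : ℤ, (W : ℚ) * ((Lagrange.interpolate S0 (fun s : ℤ => (s : ℚ))
          (fun s => (y s : ℚ))).eval (s : ℚ)) = z := by
        rw [hval ℚ]
        refine ⟨∑ i ∈ S0, y i * ((∏ i' ∈ S0.erase i, ∏ j ∈ S0.erase i', (i' - j)) *
          ∏ j ∈ S0.erase i, (s - j)), ?_⟩
        rw [Finset.mul_sum]
        push_cast
        apply Finset.sum_congr rfl
        intro i hi
        have h1 : (W : ℚ) = (∏ j ∈ S0.erase i, ((i : ℚ) - j)) *
            (∏ i' ∈ S0.erase i, ∏ j ∈ S0.erase i', ((i' : ℚ) - j)) := by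
          rw [hW]
          push_cast
          rw [← Finset.mul_prod_erase S0 _ hi]
        rw [h1, Finset.prod_mul_distrib]
        have h2 : (∏ j ∈ S0.erase i, ((i : ℚ) - j)) * (∏ j ∈ S0.erase i, ((i : ℚ) - j)⁻¹) = 1 := by
          rw [← Finset.prod_mul_distrib]
          apply Finset.prod_eq_one
          intro j hj
          apply mul_inv_cancel₀
          rw [sub_ne_zero]
          intro h
          exact (Finset.ne_of_mem_erase hj) (by exact_mod_cast h.symm)
        calc (∏ j ∈ S0.erase i, ((i : ℚ) - j)) *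
              (∏ i' ∈ S0.erase i, ∏ j ∈ S0.erase i', ((i' : ℚ) - j)) *
              ((y i : ℚ) * ((∏ j ∈ S0.erase i, ((i : ℚ) - j)⁻¹) * ∏ j ∈ S0.erase i, ((s : ℚ) - j)))
            = ((∏ j ∈ S0.erase i, ((i : ℚ) - j)) * (∏ j ∈ S0.erase i, ((i : ℚ) - j)⁻¹)) *
              ((y i : ℚ) * ((∏ i' ∈ S0.erase i, ∏ j ∈ S0.erase i', ((i' : ℚ) - j)) *
              ∏ j ∈ S0.erase i, ((s : ℚ) - j))) := by ring
          _ = _ := by rw [h2, one_mul]
      obtain ⟨z, hz⟩ := hint
      -- cast relation between rational and real interpolants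
      have hcast : (((Lagrange.interpolate S0 (fun s : ℤ => (s : ℚ))
          (fun s => (y s : ℚ))).eval (s : ℚ) : ℚ) : ℝ) =
          ∑ i ∈ S0, (y i : ℝ) * ∏ j ∈ S0.erase i, (((i : ℝ) - j)⁻¹ * ((s : ℝ) - j)) := by
        rw [hval ℚ]
        push_cast
        rfl
      -- Q is reproduced
      have hQrep : Q.eval (s : ℝ) =
          ∑ i ∈ S0, Q.eval (i : ℝ) * ∏ j ∈ S0.erase i, (((i : ℝ) - j)⁻¹ * ((s : ℝ) - j)) := by
        have h1 : Q = Lagrange.interpolate S0 (fun s : ℤ => (s : ℝ)) (fun i => Q.eval (i : ℝ)) := by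
          apply Lagrange.eq_interpolate (hinjR S0)
          rw [hS0c]
          exact lt_of_le_of_lt degree_le_natDegree (by exact_mod_cast hQ)
        have h2 := hval ℝ (fun i => Q.eval (i : ℝ))
        rw [← h1] at h2
        exact h2
      have hfac : ∀ i ∈ S0, |∏ j ∈ S0.erase i, (((i : ℝ) - j)⁻¹ * ((s : ℝ) - j))| ≤
          (L : ℝ) ^ (k - 1) := by
        intro i hi
        rw [Finset.abs_prod]
        calc ∏ j ∈ S0.erase i, |((i : ℝ) - j)⁻¹ * ((s : ℝ) - j)|
            ≤ ∏ _j ∈ S0.erase i, (L : ℝ) := by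
              apply Finset.prod_le_prod
              · intro j _; exact abs_nonneg _
              · intro j hj
                have hij : i ≠ j := (Finset.ne_of_mem_erase hj).symm
                have h1 : (1 : ℝ) ≤ |(i : ℝ) - j| := by
                  have h0 : (1 : ℤ) ≤ |i - j| := Int.one_le_abs (sub_ne_zero.mpr hij)
                  exact_mod_cast h0
                have h2 : |(s : ℝ) - j| ≤ L := by
                  have h0 := hdiam s hs j (hS0 (Finset.mem_of_mem_erase hj))
                  exact_mod_cast h0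
                rw [abs_mul, abs_inv]
                have h3 : |(i : ℝ) - j|⁻¹ ≤ 1 := inv_le_one_of_one_le₀ h1
                calc |(i : ℝ) - j|⁻¹ * |(s : ℝ) - j| ≤ 1 * L := by
                      apply mul_le_mul h3 h2 (abs_nonneg _) zero_le_one
                  _ = L := one_mul _
          _ = (L : ℝ) ^ (k - 1) := by
              rw [Finset.prod_const, Finset.card_erase_of_mem hi, hS0c]
      -- real estimate
      set V : ℚ := (Lagrange.interpolate S0 (fun s : ℤ => (s : ℚ))
          (fun s => (y s : ℚ))).eval (s : ℚ) with hV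
      have hest : |(y s : ℝ) - (V : ℝ)| ≤ E * (1 + k * (L : ℝ) ^ (k - 1)) := by
        have h1 : (y s : ℝ) - (V : ℝ) = ((y s : ℝ) - Q.eval (s : ℝ)) -
            ∑ i ∈ S0, ((y i : ℝ) - Q.eval (i : ℝ)) *
              ∏ j ∈ S0.erase i, (((i : ℝ) - j)⁻¹ * ((s : ℝ) - j)) := by
          rw [hcast]
          simp_rw [sub_mul]
          rw [Finset.sum_sub_distrib, ← hQrep]
          ring
        rw [h1]
        refine (abs_sub _ _).trans ?_
        have h2 : |∑ i ∈ S0, ((y i : ℝ) - Q.eval (i : ℝ)) *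
              ∏ j ∈ S0.erase i, (((i : ℝ) - j)⁻¹ * ((s : ℝ) - j))| ≤
              ∑ _i ∈ S0, E * (L : ℝ) ^ (k - 1) := by
          refine (Finset.abs_sum_le_sum_abs _ _).trans ?_
          apply Finset.sum_le_sum
          intro i hi
          rw [abs_mul]
          exact mul_le_mul (happ i (hS0 hi)) (hfac i hi) (abs_nonneg _) hE
        rw [Finset.sum_const, hS0c, nsmul_eq_mul] at h2
        have h3 := happ s hs
        calc |(y s : ℝ) - Q.eval (s : ℝ)| + _ ≤ E + k * (E * (L : ℝ) ^ (k - 1)) := add_le_add h3 h2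
          _ = E * (1 + k * (L : ℝ) ^ (k - 1)) := by ring
      have hWle : |(W : ℝ)| ≤ (L : ℝ) ^ (k * (k - 1)) := by
        rw [hW]
        push_cast
        rw [Finset.abs_prod]
        calc ∏ i ∈ S0, |∏ j ∈ S0.erase i, ((i : ℝ) - j)|
            ≤ ∏ _i ∈ S0, (L : ℝ) ^ (k - 1) := by
              apply Finset.prod_le_prod
              · intro i _; exact abs_nonneg _
              · intro i hi
                rw [Finset.abs_prod]
                calc ∏ j ∈ S0.erase i, |(i : ℝ) - j| ≤ ∏ _j ∈ S0.erase i, (L : ℝ) := by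
                      apply Finset.prod_le_prod
                      · intro j _; exact abs_nonneg _
                      · intro j hj
                        have h0 := hdiam i (hS0 hi) j (hS0 (Finset.mem_of_mem_erase hj))
                        exact_mod_cast h0
                  _ = (L : ℝ) ^ (k - 1) := by
                      rw [Finset.prod_const, Finset.card_erase_of_mem hi, hS0c]
          _ = (L : ℝ) ^ (k * (k - 1)) := by
              rw [Finset.prod_const, hS0c, ← pow_mul, mul_comm]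
      -- conclude
      have hzz : (W : ℝ) * ((y s : ℝ) - (V : ℝ)) = ((W * y s - z : ℤ) : ℝ) := by
        have h1 : (W : ℝ) * (V : ℝ) = (z : ℝ) := by exact_mod_cast congrArg (Rat.cast : ℚ → ℝ) hz
        push_cast
        rw [mul_sub, h1]
      have hlt : |((W * y s - z : ℤ) : ℝ)| < 1 := by
        rw [← hzz, abs_mul]
        refine lt_of_le_of_lt ?_ hsmall
        exact mul_le_mul hWle hest (abs_nonneg _) (by positivity)
      have hz0 : W * y s - z = 0 := by
        by_contra hne
        have h1 : (1 : ℤ) ≤ |W * y s - z| := Int.one_le_abs hne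
        have h2 : (1 : ℝ) ≤ |((W * y s - z : ℤ) : ℝ)| := by exact_mod_cast h1
        linarith
      have h4 : (W : ℚ) * V = (W : ℚ) * (y s : ℚ) := by
        rw [hz]
        have : z = W * y s := by omega
        rw [this]; push_cast; ring
      have hW0' : (W : ℚ) ≠ 0 := by exact_mod_cast hW0
      exact mul_left_cancel₀ hW0' h4
  · refine ⟨Lagrange.interpolate S (fun s : ℤ => (s : ℚ)) (fun s => (y s : ℚ)), hdeg S hc, ?_⟩
    intro s hs
    exact Lagrange.eval_interpolate_at_node (F := ℚ) (fun s => (y s : ℚ)) (hinjQ S) hs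

/-- A polynomial identity forced by many values. -/
theorem eq_of_many_values (P : ℤ[X]) (R : ℚ[X]) (m : ℤ) (e : ℕ) (S : Finset ℤ) (d : ℕ)
    (hP : P.natDegree ≤ d) (hR : e * R.natDegree ≤ d) (hS : d < S.card)
    (h : ∀ s ∈ S, ((P.eval s : ℤ) : ℚ) = m * (R.eval (s : ℚ)) ^ e) :
    P.map (Int.castRingHom ℚ) = C (m : ℚ) * R ^ e := by
  classical
  rw [← sub_eq_zero]
  apply Polynomial.eq_zero_of_natDegree_lt_card_of_eval_eq_zero' _
    (S.image (fun s : ℤ => (s : ℚ)))
  · intro x hx
    rw [Finset.mem_image] at hx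
    obtain ⟨s, hs, rfl⟩ := hx
    rw [eval_sub, eval_mul, eval_C, eval_pow, ← h s hs, sub_eq_zero]
    have := Polynomial.eval_intCast_map (Int.castRingHom ℚ) P s
    rw [this]; rfl
  · rw [Finset.card_image_of_injective _ Int.cast_injective]
    refine lt_of_le_of_lt ?_ hS
    refine (natDegree_sub_le _ _).trans (max_le ?_ ?_)
    · exact natDegree_map_le.trans hP
    · refine (natDegree_C_mul_le _ _).trans ?_
      exact (natDegree_pow_le).trans hR

/-- Polynomial approximation of `(1+z)^(1/e)` near `0`. -/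
theorem exists_taylor (e K : ℕ) : ∃ q : ℝ[X], q.natDegree ≤ K ∧ ∃ C z0 : ℝ, 0 < C ∧ 0 < z0 ∧
    z0 ≤ 1 / 2 ∧ ∀ z : ℝ, |z| ≤ z0 →
      |(1 + z) ^ ((1 : ℝ) / e) - q.eval z| ≤ C * |z| ^ (K + 1) := by
  have h := (Real.one_add_rpow_hasFPowerSeriesAt_zero (a := (1 : ℝ) / e)).isBigO_sub_partialSum_pow
    (K + 1)
  rw [Asymptotics.isBigO_iff] at h
  obtain ⟨c, hc⟩ := h
  rw [Metric.eventually_nhds_iff] at hc
  obtain ⟨ε, hε, hc⟩ := hc
  set p := binomialSeries ℝ ((1 : ℝ) / e) with hp
  refine ⟨∑ n ∈ Finset.range (K + 1), C (p.coeff n) * X ^ n, ?_, max c 1, min (ε / 2) (1 / 2),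
    ?_, ?_, min_le_right _ _, ?_⟩
  · apply Polynomial.natDegree_sum_le_of_forall_le
    intro n hn
    refine (natDegree_C_mul_X_pow_le _ _).trans ?_
    have := Finset.mem_range.mp hn
    omega
  · exact lt_of_lt_of_le one_pos (le_max_right _ _)
  · exact lt_min (by linarith) (by norm_num)
  · intro z hz
    have h1 : dist z 0 < ε := by
      rw [dist_zero_right, Real.norm_eq_abs]
      have := min_le_left (ε / 2) (1 / 2 : ℝ)
      linarith
    have h2 := hc h1
    simp only [zero_add, norm_pow, Real.norm_eq_abs, abs_abs] at h2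
    have h3 : p.partialSum (K + 1) z =
        eval z (∑ n ∈ Finset.range (K + 1), C (p.coeff n) * X ^ n) := by
      rw [FormalMultilinearSeries.partialSum, eval_finsetSum]
      apply Finset.sum_congr rfl
      intro n _
      rw [FormalMultilinearSeries.apply_eq_pow_smul_coeff, eval_mul, eval_C, eval_pow, eval_X,
        smul_eq_mul, mul_comm]
    rw [h3] at h2
    refine h2.trans ?_
    gcongr
    exact le_max_left _ _

end Pool.Agent.Lib.MP_d8bd92_nt
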