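import Pool.Agent.Lib.MP_d8bd92_nt.FamK

set_option autoImplicit false

namespace Pool.Agent.Lib.MP_d8bd92_nt

open Finset Polynomial UniqueFactorizationMonoid

/-- Mason and Stothers theorem for `J₁ - (J₁ - 1728 J₂) = 1728 J₂` with `J₁` a cube and `J₁ - 1728 J₂` a
square up to constants. -/
theorem mason_general (J1 J2 P Q : ℚ[X]) (c c' : ℚ) (hcop : IsCoprime J1 J2)
    (hnc : 0 < J1.natDegree ∨ 0 < J2.natDegree) (hc : c ≠ 0) (hc' : c' ≠ 0)
    (h1 : J1 = C c * P ^ 3) (h3 : J1 - C 1728 * J2 = C c' * Q ^ 2) :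
    J1.natDegree + 6 ≤ 6 * (radical J2).natDegree ∧
      J2.natDegree + 6 ≤ 6 * (radical J2).natDegree := by
  classical
  have h1728 : (C (1728 : ℚ) : ℚ[X]) ≠ 0 := C_ne_zero.mpr (by norm_num)
  have hu : IsUnit (C (1728 : ℚ) : ℚ[X]) := isUnit_C.mpr (by norm_num)
  have hJ2 : J2 ≠ 0 := by
    intro h
    rw [h] at hcop hnc
    have h2 := natDegree_eq_zero_of_isUnit (isCoprime_zero_right.mp hcop)
    rw [natDegree_zero, h2] at hnc
    omega
  have hJ1 : J1 ≠ 0 := by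
    intro h
    rw [h] at hcop hnc
    have h2 := natDegree_eq_zero_of_isUnit (isCoprime_zero_left.mp hcop)
    rw [natDegree_zero, h2] at hnc
    omega
  have hJ3 : J1 - C 1728 * J2 ≠ 0 := by
    intro h
    have h2 : J1 = C 1728 * J2 := sub_eq_zero.mp h
    have h4 : J2 ∣ J1 := ⟨C 1728, by rw [h2]; ring⟩
    have h5 : IsUnit J2 := hcop.isUnit_of_dvd' h4 dvd_rfl
    have h6 : J2.natDegree = 0 := natDegree_eq_zero_of_isUnit h5
    have h7 : J1.natDegree = 0 := by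
      rw [h2, natDegree_C_mul (by norm_num), h6]
    omega
  have hP : P ≠ 0 := by
    intro h; rw [h] at h1; apply hJ1; rw [h1]; ring
  have hQ : Q ≠ 0 := by
    intro h; rw [h] at h3; apply hJ3; rw [h3]; ring
  have hd1 : J1.natDegree = 3 * P.natDegree := by
    rw [h1, natDegree_C_mul hc, natDegree_pow]
  have hd3 : (J1 - C 1728 * J2).natDegree = 2 * Q.natDegree := by
    rw [h3, natDegree_C_mul hc', natDegree_pow]
  have hcop2 : IsCoprime J1 (-(J1 - C 1728 * J2)) := by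
    have e1 : -(J1 - C 1728 * J2) = C 1728 * J2 + J1 * (-1) := by ring
    rw [e1]
    apply IsCoprime.add_mul_left_right
    exact (isCoprime_mul_unit_left_right hu _ _).mpr hcop
  have hsum : J1 + -(J1 - C 1728 * J2) + -(C 1728 * J2) = 0 := by ring
  have habc := Polynomial.abc hJ1 (neg_ne_zero.mpr hJ3)
    (neg_ne_zero.mpr (mul_ne_zero h1728 hJ2)) hcop2 hsum
  have hradle : (radical (J1 * -(J1 - C 1728 * J2) * -(C 1728 * J2))).natDegree ≤
      P.natDegree + Q.natDegree + (radical J2).natDegree := by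
    have hraddvd : radical (J1 * -(J1 - C 1728 * J2) * -(C 1728 * J2)) ∣ P * Q * radical J2 := by
      rw [← exists_dvd_pow_iff_radical_dvd]
      · obtain ⟨n, hn⟩ := exists_dvd_radical_self_pow hJ2
        refine ⟨3 + n, ?_⟩
        have e1 : (P * Q * radical J2) ^ (3 + n) =
            (P ^ 3 * P ^ n) * (Q ^ 2 * (Q * Q ^ n)) * ((radical J2) ^ 3 * (radical J2) ^ n) := by
          ring
        rw [e1]
        have huc : IsUnit (C c : ℚ[X]) := isUnit_C.mpr (isUnit_iff_ne_zero.mpr hc)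
        have huc' : IsUnit (C c' : ℚ[X]) := isUnit_C.mpr (isUnit_iff_ne_zero.mpr hc')
        apply mul_dvd_mul
        · apply mul_dvd_mul
          · rw [h1, huc.mul_left_dvd]; exact dvd_mul_right _ _
          · rw [neg_dvd, h3, huc'.mul_left_dvd]; exact dvd_mul_right _ _
        · rw [neg_dvd, hu.mul_left_dvd]
          exact hn.mul_left _
      · exact mul_ne_zero (mul_ne_zero hJ1 (neg_ne_zero.mpr hJ3))
          (neg_ne_zero.mpr (mul_ne_zero h1728 hJ2))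
    have hne : P * Q * radical J2 ≠ 0 := mul_ne_zero (mul_ne_zero hP hQ) radical_ne_zero
    have h5 := natDegree_le_of_dvd hraddvd hne
    rw [natDegree_mul (mul_ne_zero hP hQ) radical_ne_zero, natDegree_mul hP hQ] at h5
    exact h5
  have hdc : (-(C 1728 * J2)).natDegree = J2.natDegree := by
    rw [natDegree_neg, natDegree_C_mul (by norm_num)]
  rcases habc with ⟨e1, e2, e3⟩ | ⟨e1, _, e3⟩
  · rw [hd1] at e1
    rw [natDegree_neg, hd3] at e2
    rw [hdc] at e3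
    rw [hd1]
    constructor <;> omega
  · exfalso
    have e4 := Polynomial.derivative_eq_zero.mp e1
    have e5 := Polynomial.derivative_eq_zero.mp e3
    rw [hdc] at e5
    omega

/-- the data attached to an exceptional pair -/
theorem exceptional_data (m : ℕ) (J1 J2 P Q : ℤ[X]) (ρ1 : ℤ) (hb : P * J1 + Q * J2 = C ρ1)
    (hρ1 : ρ1 ≠ 0) (hm1 : J1.natDegree ≤ m) (hm2 : J2.natDegree ≤ m)
    (a b x y D : ℤ) (hbpos : 1 ≤ b) (hab : IsCoprime a b)
    (hxD : IsCoprime x D) (hD : 1 < D.natAbs) (hrel : 1728 * D = x ^ 3 - y ^ 2)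
    (hj : hev m J1 a b * D = hev m J2 a b * x ^ 3) :
    x ≠ 0 ∧ y ≠ 0 ∧ ∃ ρ : ℤ, ρ ≠ 0 ∧ hev m J1 a b = ρ * x ^ 3 ∧ hev m J2 a b = ρ * D ∧
      ∀ p : ℕ, p.Prime → (p : ℤ) ∣ ρ → (p : ℤ) ∣ ρ1 * ((J1.coeff m) ^ 2 + (J2.coeff m) ^ 2) := by
  have hD0 : D ≠ 0 := by rintro rfl; simp at hD
  have hDnu : ¬ IsUnit D := by
    intro h
    rw [Int.isUnit_iff_natAbs_eq] at h
    omega
  have hx : x ≠ 0 := by
    rintro rfl
    exact hDnu (isCoprime_zero_left.mp hxD)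
  have hy : y ≠ 0 := by
    rintro rfl
    have h1 : D ∣ x ^ 3 := ⟨1728, by linarith⟩
    have h2 : IsCoprime (x ^ 3) D := IsCoprime.pow_left hxD
    exact hDnu (h2.isUnit_of_dvd' h1 dvd_rfl)
  refine ⟨hx, hy, ?_⟩
  have h1 : D ∣ hev m J2 a b := by
    have h2 : D ∣ hev m J2 a b * x ^ 3 := ⟨hev m J1 a b, by rw [← hj]; ring⟩
    have h3 : IsCoprime D (x ^ 3) := (IsCoprime.pow_left hxD).symm
    exact h3.dvd_of_dvd_mul_right h2
  obtain ⟨ρ, hρ⟩ := h1
  have hj1 : hev m J1 a b = ρ * x ^ 3 := by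
    have h2 : hev m J1 a b * D = (ρ * x ^ 3) * D := by rw [hj, hρ]; ring
    exact mul_right_cancel₀ hD0 h2
  refine ⟨ρ, ?_, hj1, by rw [hρ]; ring, ?_⟩
  · rintro rfl
    rw [zero_mul] at hj1
    rw [mul_zero] at hρ
    -- both forms vanish
    have hbQ : ((b : ℤ) : ℚ) ≠ 0 := by
      have : b ≠ 0 := by omega
      exact_mod_cast this
    have e1 := hev_map (Int.castRingHom ℚ) m J1 a b
    have e2 := hev_map (Int.castRingHom ℚ) m J2 a b
    rw [hj1, map_zero] at e1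
    rw [hρ, map_zero] at e2
    simp only [eq_intCast] at e1 e2
    rw [hev_eq_eval m _ (natDegree_map_le.trans hm1) _ _ hbQ] at e1
    rw [hev_eq_eval m _ (natDegree_map_le.trans hm2) _ _ hbQ] at e2
    have hbm : ((b : ℤ) : ℚ) ^ m ≠ 0 := pow_ne_zero _ hbQ
    have e3 := (mul_eq_zero.mp e1).resolve_left hbm
    have e4 := (mul_eq_zero.mp e2).resolve_left hbm
    have e5 := congrArg (fun f : ℤ[X] => (f.map (Int.castRingHom ℚ)).eval ((a : ℚ) / b)) hb
    simp only [Polynomial.map_add, Polynomial.map_mul, eval_add, eval_mul, e3, e4, mul_zero,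
      add_zero, map_C, eval_C] at e5
    have e6 : (ρ1 : ℚ) = 0 := e5.symm
    exact hρ1 (by exact_mod_cast e6)
  · intro p hp hpρ
    have hp1 : (p : ℤ) ∣ hev m J1 a b := by rw [hj1]; exact hpρ.mul_right _
    have hp2 : (p : ℤ) ∣ hev m J2 a b := by rw [hρ]; exact hpρ.mul_left _
    have hpp : Prime (p : ℤ) := Nat.prime_iff_prime_int.mp hp
    by_cases hpb : (p : ℤ) ∣ b
    · have e1 := prime_dvd_coeff_of_dvd m J1 a b p hpp hab hpb hp1
      have e2 := prime_dvd_coeff_of_dvd m J2 a b p hpp hab hpb hp2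
      apply Dvd.dvd.mul_left
      exact dvd_add (dvd_pow e1 (by norm_num)) (dvd_pow e2 (by norm_num))
    · exact (prime_dvd_bezout J1 J2 P Q ρ1 hb m m hm1 hm2 a b p hp hpb hp1 hp2).mul_right _

/-- The integral form of the theorem on one parameter families. -/
theorem family_int2 (J1 J2 : ℤ[X])
    (hcop : IsCoprime (J1.map (Int.castRingHom ℚ)) (J2.map (Int.castRingHom ℚ))) (m : ℕ)
    (hm1 : J1.natDegree ≤ m) (hm2 : J2.natDegree ≤ m) (hm3 : m = J1.natDegree ∨ m = J2.natDegree)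
    (hmpos : 0 < m) (κ σ : ℝ) (hκ : 1 ≤ κ) (hσ0 : 0 < σ) (F : Finset ℚ[X])
    (hF : ∀ p, p ∈ F ↔ p ∈ normalizedFactors (J2.map (Int.castRingHom ℚ)))
    (hσ : (m : ℝ) ≤ σ * ∑ p ∈ F, phi κ p.natDegree ∨ (6 * (m : ℝ) ≤ σ * (m + 6) ∧
      ((m : ℝ) ≤ 2 * κ * σ ∨ ∀ p ∈ F, (p.natDegree : ℝ) < 3 * κ))) (ε : ℝ) (hε : 0 < ε) :
    ∃ C0 δ : ℝ, 0 < C0 ∧ 0 < δ ∧ δ ≤ 1 / 2 ∧ ∀ A B : ℕ, 1 ≤ B → B ≤ A →
      (A : ℝ) ^ κ ≤ (A : ℝ) * B →
      ∀ T : Finset (ℤ × ℤ), T ⊆ box A B →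
      (∀ w ∈ T, IsCoprime w.1 w.2 ∧ ∃ x y D : ℤ, IsCoprime x D ∧ D ≠ 0 ∧
        1728 * D = x ^ 3 - y ^ 2 ∧ hev m J1 w.1 w.2 * D = hev m J2 w.1 w.2 * x ^ 3 ∧
        ((∏ p ∈ D.natAbs.primeFactors, p : ℕ) : ℝ) ^ (σ + ε) < (D.natAbs : ℝ)) →
      (T.card : ℝ) ≤ C0 * ((A : ℝ) * B) ^ (1 - δ) := by
  classical
  set φ := Int.castRingHom ℚ with hφ
  obtain ⟨P, Q, ρ1, hρ1, hbez⟩ := exists_bezout_int J1 J2 hcop
  have hcoeff : (J1.coeff m) ^ 2 + (J2.coeff m) ^ 2 ≠ 0 := by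
    have h1 : J1.coeff m ≠ 0 ∨ J2.coeff m ≠ 0 := by
      rcases hm3 with h | h
      · left
        rw [h]
        apply leadingCoeff_ne_zero.mpr
        rintro rfl
        rw [natDegree_zero] at h; omega
      · right
        rw [h]
        apply leadingCoeff_ne_zero.mpr
        rintro rfl
        rw [natDegree_zero] at h; omega
    rcases h1 with h | h
    · have := sq_nonneg (J2.coeff m)
      have := pow_pos (abs_pos.mpr h) 2
      rw [sq_abs] at this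
      omega
    · have := sq_nonneg (J1.coeff m)
      have := pow_pos (abs_pos.mpr h) 2
      rw [sq_abs] at this
      omega
  set ρ0 : ℕ := (ρ1 * ((J1.coeff m) ^ 2 + (J2.coeff m) ^ 2)).natAbs with hρ0
  have hρ0ne : ρ0 ≠ 0 := Int.natAbs_ne_zero.mpr (mul_ne_zero hρ1 hcoeff)
  -- data at exceptional pairs
  have hdata : ∀ A B : ℕ, ∀ w : ℤ × ℤ, w ∈ box A B → (IsCoprime w.1 w.2 ∧ ∃ x y D : ℤ,
        IsCoprime x D ∧ D ≠ 0 ∧
        1728 * D = x ^ 3 - y ^ 2 ∧ hev m J1 w.1 w.2 * D = hev m J2 w.1 w.2 * x ^ 3 ∧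
        ((∏ p ∈ D.natAbs.primeFactors, p : ℕ) : ℝ) ^ (σ + ε) < (D.natAbs : ℝ)) →
      ∃ x y D ρ : ℤ, x ≠ 0 ∧ y ≠ 0 ∧ D ≠ 0 ∧ ρ ≠ 0 ∧ hev m J1 w.1 w.2 = ρ * x ^ 3 ∧
        hev m J2 w.1 w.2 = ρ * D ∧ hev m (J1 - C 1728 * J2) w.1 w.2 = ρ * y ^ 2 ∧
        (∀ p : ℕ, p.Prime → p ∣ ρ.natAbs → p ∣ ρ0) ∧
        ((∏ p ∈ D.natAbs.primeFactors, p : ℕ) : ℝ) ^ (σ + ε) < (D.natAbs : ℝ) := by
    intro A B w hw hh
    obtain ⟨hc, x, y, D, hxD, hD0, hrel, hj, hbig⟩ := hh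
    have hD1 : 1 < D.natAbs := by
      have h1 : (1 : ℝ) ≤ ((∏ p ∈ D.natAbs.primeFactors, p : ℕ) : ℝ) := by
        have : 0 < ∏ p ∈ D.natAbs.primeFactors, p :=
          Finset.prod_pos (fun p hp => (Nat.prime_of_mem_primeFactors hp).pos)
        exact_mod_cast this
      have h2 := Real.one_le_rpow h1 (by linarith : (0 : ℝ) ≤ σ + ε)
      have h3 : (1 : ℝ) < (D.natAbs : ℝ) := lt_of_le_of_lt h2 hbig
      exact_mod_cast h3
    obtain ⟨hx, hy, ρ, hρ, e1, e2, e3⟩ := exceptional_data m J1 J2 P Q ρ1 hbez hρ1 hm1 hm2 w.1 w.2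
      x y D (mem_box.mp hw).2.1 hc hxD hD1 hrel hj
    refine ⟨x, y, D, ρ, hx, hy, hD0, hρ, e1, e2, ?_, ?_, hbig⟩
    · have h4 : hev m (J1 - C 1728 * J2) w.1 w.2 = hev m J1 w.1 w.2 - 1728 * hev m J2 w.1 w.2 := by
        unfold hev
        rw [Finset.mul_sum, ← Finset.sum_sub_distrib]
        apply Finset.sum_congr rfl
        intro i _
        rw [coeff_sub, coeff_C_mul]; ring
      rw [h4, e1, e2]
      linear_combination (-ρ) * hrel
    · intro p hp hpρ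
      have := e3 p hp (Int.natCast_dvd.mpr hpρ)
      exact Int.natCast_dvd.mp this
  -- valuations
  have hval : ∀ (n ρ x : ℤ) (q : ℕ), ρ ≠ 0 → x ≠ 0 → n = ρ * x ^ q →
      (∀ p : ℕ, p.Prime → p ∣ ρ.natAbs → p ∣ ρ0) →
      n ≠ 0 ∧ ∀ p : ℕ, p.Prime → ¬ p ∣ ρ0 → q ∣ n.natAbs.factorization p := by
    intro n ρ x q hρ hx hn hp
    constructor
    · rw [hn]; exact mul_ne_zero hρ (pow_ne_zero _ hx)
    · intro p hpp hpρ
      have h1 : ¬ p ∣ ρ.natAbs := fun h => hpρ (hp p hpp h)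
      rw [hn, Int.natAbs_mul, Int.natAbs_pow,
        Nat.factorization_mul (Int.natAbs_ne_zero.mpr hρ)
          (pow_ne_zero _ (Int.natAbs_ne_zero.mpr hx)), Nat.factorization_pow]
      simp only [Finsupp.add_apply, Finsupp.smul_apply, smul_eq_mul]
      rw [Nat.factorization_eq_zero_of_not_dvd h1, zero_add]
      exact dvd_mul_right _ _
  have hJ1ne : J1 ≠ 0 ∨ m = 0 := by
    by_contra hcon
    push Not at hcon
    obtain ⟨h1, h2⟩ := hcon
    rw [h1, Polynomial.map_zero] at hcop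
    have h3 := natDegree_eq_zero_of_isUnit (isCoprime_zero_left.mp hcop)
    rw [natDegree_map_eq_of_injective φ.injective_int] at h3
    rw [h1, natDegree_zero, h3] at hm3
    omega
  have hJ1 : J1 ≠ 0 := hJ1ne.resolve_right (by omega)
  have hJ2 : J2 ≠ 0 := by
    intro h1
    rw [h1, Polynomial.map_zero] at hcop
    have h3 := natDegree_eq_zero_of_isUnit (isCoprime_zero_right.mp hcop)
    rw [natDegree_map_eq_of_injective φ.injective_int] at h3
    rw [h1, natDegree_zero, h3] at hm3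
    omega
  have hmapJ3 : (J1 - C 1728 * J2).map φ = J1.map φ - C 1728 * J2.map φ := by
    rw [Polynomial.map_sub, Polynomial.map_mul, map_C]; norm_num
  have hncQ : 0 < (J1.map φ).natDegree ∨ 0 < (J2.map φ).natDegree := by
    rw [natDegree_map_eq_of_injective φ.injective_int,
      natDegree_map_eq_of_injective φ.injective_int]
    omega
  have hJ3 : J1 - C 1728 * J2 ≠ 0 := by
    intro h
    have h2 : J1 = C 1728 * J2 := sub_eq_zero.mp h
    have h4 : J2.map φ ∣ J1.map φ := Polynomial.map_dvd φ ⟨C 1728, by rw [h2]; ring⟩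
    have h5 : IsUnit (J2.map φ) := hcop.isUnit_of_dvd' h4 dvd_rfl
    have h6 := natDegree_eq_zero_of_isUnit h5
    rw [natDegree_map_eq_of_injective φ.injective_int] at h6
    have h7 : J1.natDegree = 0 := by
      rw [h2, natDegree_C_mul (by norm_num), h6]
    omega
  by_cases hcube : ∃ (c : ℚ) (P : ℚ[X]), c ≠ 0 ∧ J1.map φ = C c * P ^ 3
  swap
  · obtain ⟨C0, δ, hC0, hδ, hδ2, hmain⟩ := card_irred_power J1 hJ1 m hm1 3 Nat.prime_three hcube ρ0
      hρ0ne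
    refine ⟨C0, δ, hC0, hδ, hδ2, ?_⟩
    intro A B hB hBA _ T hT hTw
    apply hmain A B hB hBA T hT
    intro w hw
    obtain ⟨x, y, D, ρ, hx, hy, hD, hρ, e1, e2, e3, hp, _⟩ := hdata A B w (hT hw) (hTw w hw)
    have h1 := hval _ ρ x 3 hρ hx e1 hp
    exact ⟨(hTw w hw).1, h1.1, h1.2⟩
  by_cases hsq : ∃ (c : ℚ) (P : ℚ[X]), c ≠ 0 ∧ (J1 - C 1728 * J2).map φ = C c * P ^ 2
  swap
  · have hdeg3 : (J1 - C 1728 * J2).natDegree ≤ m := by
      refine (natDegree_sub_le _ _).trans (max_le hm1 ?_)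
      exact (natDegree_C_mul_le _ _).trans hm2
    obtain ⟨C0, δ, hC0, hδ, hδ2, hmain⟩ := card_irred_power (J1 - C 1728 * J2) hJ3 m hdeg3 2
      Nat.prime_two hsq ρ0 hρ0ne
    refine ⟨C0, δ, hC0, hδ, hδ2, ?_⟩
    intro A B hB hBA _ T hT hTw
    apply hmain A B hB hBA T hT
    intro w hw
    obtain ⟨x, y, D, ρ, hx, hy, hD, hρ, e1, e2, e3, hp, _⟩ := hdata A B w (hT hw) (hTw w hw)
    have h1 := hval _ ρ y 2 hρ hy e3 hp
    exact ⟨(hTw w hw).1, h1.1, h1.2⟩
  obtain ⟨c, P3, hc, hP3⟩ := hcube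
  obtain ⟨c', Q2, hc', hQ2⟩ := hsq
  rw [hmapJ3] at hQ2
  have hmason := mason_general (J1.map φ) (J2.map φ) P3 Q2 c c' hcop hncQ hc hc' hP3 hQ2
  rw [natDegree_map_eq_of_injective φ.injective_int,
    natDegree_map_eq_of_injective φ.injective_int] at hmason
  have hrdeg : (radical (J2.map φ)).natDegree = ∑ p ∈ F, p.natDegree := by
    have h1 : radical (J2.map φ) = ∏ p ∈ F, p := by
      rw [radical]
      apply Finset.prod_congr _ (fun _ _ => rfl)
      ext p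
      rw [mem_primeFactors]
      exact (hF p).symm
    rw [h1]
    apply natDegree_prod
    intro p hp
    exact (irreducible_of_normalized_factor p ((hF p).mp hp)).ne_zero
  rw [hrdeg] at hmason
  set r := ∑ p ∈ F, p.natDegree with hr
  have hrm : m + 6 ≤ 6 * r := by
    rcases hm3 with h | h
    · rw [h]; exact hmason.1
    · rw [h]; exact hmason.2
  have hS : (m : ℝ) ≤ σ * ∑ p ∈ F, phi κ p.natDegree := by
    rcases hσ with h | ⟨h1, h2⟩
    · exact h
    · have hsmall : (∀ p ∈ F, (p.natDegree : ℝ) < 3 * κ) →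
          (m : ℝ) ≤ σ * ∑ p ∈ F, phi κ p.natDegree := by
        intro hall
        have e1 : ∑ p ∈ F, phi κ p.natDegree = (r : ℝ) := by
          rw [hr]; push_cast
          apply Finset.sum_congr rfl
          intro p hp
          rw [phi, if_pos (hall p hp)]
        rw [e1]
        have e2 : (m : ℝ) + 6 ≤ 6 * r := by exact_mod_cast hrm
        nlinarith
      rcases h2 with h2 | h2
      · by_cases hall : ∀ p ∈ F, (p.natDegree : ℝ) < 3 * κ
        · exact hsmall hall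
        · push Not at hall
          obtain ⟨p, hp, hpd⟩ := hall
          have e1 : phi κ p.natDegree ≤ ∑ p ∈ F, phi κ p.natDegree :=
            Finset.single_le_sum (f := fun p : ℚ[X] => phi κ p.natDegree)
              (fun q hq => (phi_pos κ hκ _
                (irreducible_of_normalized_factor q ((hF q).mp hq)).natDegree_pos).le) hp
          rw [phi, if_neg (not_lt.mpr hpd)] at e1
          have e2 : σ * (2 * κ) ≤ σ * ∑ p ∈ F, phi κ p.natDegree := by gcongr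
          linarith
      · exact hsmall h2
  obtain ⟨C0, δ, hC0, hδ, hδ2, hmain⟩ := core_bound J2 hJ2 m hm2 hmpos ρ0 hρ0ne F
    (fun p hp => (hF p).mp hp) κ σ ε hκ hσ0 hε hS
  refine ⟨C0, δ, hC0, hδ, hδ2, ?_⟩
  intro A B hB hBA hAκ T hT hTw
  apply hmain A B hB hBA hAκ T hT
  intro w hw
  obtain ⟨x, y, D, ρ, hx, hy, hD, hρ, e1, e2, e3, hp, hbig⟩ := hdata A B w (hT hw) (hTw w hw)
  exact ⟨(hTw w hw).1, D, ρ, hD, hρ, e2, hp, hbig⟩

end Pool.Agent.Lib.MP_d8bd92_nt
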