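import Pool.Agent.Lib.MP_d8bd92_nt.FamEvents2
import Pool.Agent.Lib.MP_d8bd92_nt.FamEvents3
import Pool.Agent.Lib.MP_d8bd92_nt.FamEvents4

set_option autoImplicit false

namespace Pool.Agent.Lib.MP_d8bd92_nt

open Finset Polynomial

/-- a rational polynomial is a constant times a `q`-th power, or some irreducible factor has
multiplicity not divisible by `q` -/
theorem power_or_irreducible (q : ℕ) (f : ℚ[X]) (hf : f ≠ 0) :
    (∃ (c : ℚ) (P : ℚ[X]), c ≠ 0 ∧ f = C c * P ^ q) ∨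
    (∃ (g h : ℚ[X]) (e : ℕ), Irreducible g ∧ f = g ^ e * h ∧ ¬ g ∣ h ∧ ¬ q ∣ e) := by
  induction hn : f.natDegree using Nat.strong_induction_on generalizing f with
  | _ n ih =>
    by_cases hu : IsUnit f
    · left
      obtain ⟨c, hc, hcf⟩ := Polynomial.isUnit_iff.mp hu
      exact ⟨c, 1, hc.ne_zero, by rw [one_pow, mul_one, hcf]⟩
    · obtain ⟨g, hg, hgf⟩ := WfDvdMonoid.exists_irreducible_factor hu hf
      have hfin : FiniteMultiplicity g f := FiniteMultiplicity.of_not_isUnit hg.not_isUnit hf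
      obtain ⟨h, hfh, hgh⟩ := hfin.exists_eq_pow_mul_and_not_dvd
      set e := multiplicity g f with he
      have he1 : 1 ≤ e := by
        by_contra hcon
        have h0 : e = 0 := by omega
        rw [h0, pow_zero, one_mul] at hfh
        rw [hfh] at hgf
        exact hgh hgf
      have hh0 : h ≠ 0 := by
        intro h0; rw [h0, mul_zero] at hfh; exact hf hfh
      by_cases hqe : q ∣ e
      · have hdeg : h.natDegree < n := by
          have h1 : f.natDegree = e * g.natDegree + h.natDegree := by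
            conv_lhs => rw [hfh]
            rw [natDegree_mul (pow_ne_zero _ hg.ne_zero) hh0, natDegree_pow]
          have h2 : 0 < g.natDegree := hg.natDegree_pos
          have h3 : 1 * 1 ≤ e * g.natDegree := Nat.mul_le_mul he1 h2
          omega
        rcases ih h.natDegree hdeg h hh0 rfl with ⟨c, P, hc, hP⟩ | ⟨g2, h2, e2, hg2, hh2, hg2h, hqe2⟩
        · left
          obtain ⟨e', he'⟩ := hqe
          refine ⟨c, g ^ e' * P, hc, ?_⟩
          rw [hfh, hP, he', mul_pow, ← pow_mul, mul_comm q e']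
          ring
        · right
          refine ⟨g2, g ^ e * h2, e2, hg2, ?_, ?_, hqe2⟩
          · rw [hfh, hh2]; ring
          · intro hdvd
            have hg2p : Prime g2 := hg2.prime
            rcases hg2p.dvd_or_dvd hdvd with h3 | h3
            · have h4 : g2 ∣ g := hg2p.dvd_of_dvd_pow h3
              have h5 : Associated g2 g := hg2.associated_of_dvd hg h4
              apply hgh
              apply h5.symm.dvd.trans
              rw [hh2]
              have he2 : e2 ≠ 0 := by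
                rintro rfl; exact hqe2 (dvd_zero _)
              exact (dvd_pow_self g2 he2).mul_right _
            · exact hg2h h3
      · right
        exact ⟨g, h, e, hg, hfh, hgh, hqe⟩

theorem hev_pow_int (n : ℕ) (f : ℤ[X]) (hf : f.natDegree ≤ n) (a b : ℤ) (e : ℕ) :
    hev (e * n) (f ^ e) a b = hev n f a b ^ e := by
  induction e with
  | zero =>
    rw [zero_mul, pow_zero, pow_zero]
    unfold hev
    simp
  | succ e ih =>
    rw [Nat.succ_mul, pow_succ, hev_mul_int _ _ _ _ _ hf, ih, pow_succ]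
    exact natDegree_pow_le.trans (Nat.mul_le_mul_left _ hf)

theorem hev_C_mul (n : ℕ) (c : ℤ) (f : ℤ[X]) (a b : ℤ) : hev n (C c * f) a b = c * hev n f a b := by
  unfold hev
  rw [Finset.mul_sum]
  apply Finset.sum_congr rfl
  intro i _
  rw [coeff_C_mul]; ring

/-- a common prime divisor, prime to `b`, of two forms with a Bezout relation -/
theorem prime_dvd_bezout (f g P Q : ℤ[X]) (ρ : ℤ) (h : P * f + Q * g = C ρ) (n1 n2 : ℕ)
    (hf : f.natDegree ≤ n1) (hg : g.natDegree ≤ n2) (a b : ℤ) (p : ℕ) (hp : p.Prime)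
    (hpb : ¬ (p : ℤ) ∣ b) (h1 : (p : ℤ) ∣ hev n1 f a b) (h2 : (p : ℤ) ∣ hev n2 g a b) :
    (p : ℤ) ∣ ρ := by
  have hpp : Prime (p : ℤ) := Nat.prime_iff_prime_int.mp hp
  have hcop : IsCoprime (p : ℤ) b := (Prime.coprime_iff_not_dvd hpp).mpr hpb
  obtain ⟨u, v, huv⟩ := hcop
  -- u * p + v * b = 1
  set x : ℤ := a * v with hx
  have hxd : (p : ℤ) ∣ a - x * b := by
    refine ⟨a * u, ?_⟩
    rw [hx]
    linear_combination (-a) * huv
  have hpow : ∀ n : ℕ, ¬ (p : ℤ) ∣ b ^ n := fun n hn => hpb (hpp.dvd_of_dvd_pow hn)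
  have e1 : (p : ℤ) ∣ f.eval x := by
    have h3 := hev_modEq n1 f hf a b x p hxd
    have h4 : (p : ℤ) ∣ b ^ n1 * f.eval x := (dvd_iff_dvd_of_dvd_sub h3).mp h1
    exact (hpp.dvd_or_dvd h4).resolve_left (hpow n1)
  have e2 : (p : ℤ) ∣ g.eval x := by
    have h3 := hev_modEq n2 g hg a b x p hxd
    have h4 : (p : ℤ) ∣ b ^ n2 * g.eval x := (dvd_iff_dvd_of_dvd_sub h3).mp h2
    exact (hpp.dvd_or_dvd h4).resolve_left (hpow n2)
  have h5 := congrArg (Polynomial.eval x) h
  rw [eval_add, eval_mul, eval_mul, eval_C] at h5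
  rw [← h5]
  exact dvd_add (e1.mul_left _) (e2.mul_left _)

/-- splitting off the part of `n` supported on the primes of `M` when the rest is a power -/
theorem exists_split_power (n M q : ℕ) (hn : n ≠ 0)
    (h : ∀ p : ℕ, p.Prime → ¬ p ∣ M → q ∣ n.factorization p) :
    ∃ z : ℕ, z ≠ 0 ∧ Nat.Coprime z M ∧
      n = (∏ p ∈ n.primeFactors.filter (fun p => p ∣ M), p ^ n.factorization p) * z ^ q := by
  classical
  set G := n.primeFactors.filter (fun p => ¬ p ∣ M) with hG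
  refine ⟨∏ p ∈ G, p ^ (n.factorization p / q), ?_, ?_, ?_⟩
  · apply Finset.prod_ne_zero_iff.mpr
    intro p hp
    rw [hG, Finset.mem_filter] at hp
    exact pow_ne_zero _ (Nat.prime_of_mem_primeFactors hp.1).ne_zero
  · apply Nat.Coprime.prod_left
    intro p hp
    rw [hG, Finset.mem_filter] at hp
    exact Nat.Coprime.pow_left _
      ((Nat.Prime.coprime_iff_not_dvd (Nat.prime_of_mem_primeFactors hp.1)).mpr hp.2)
  · rw [← Finset.prod_pow]
    have h1 : ∏ p ∈ G, (p ^ (n.factorization p / q)) ^ q = ∏ p ∈ G, p ^ n.factorization p := by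
      apply Finset.prod_congr rfl
      intro p hp
      rw [hG, Finset.mem_filter] at hp
      rw [← pow_mul, Nat.div_mul_cancel (h p (Nat.prime_of_mem_primeFactors hp.1) hp.2)]
    rw [h1, hG, Finset.prod_filter_mul_prod_filter_not]
    have h2 := Nat.prod_factorization_pow_eq_self hn
    rw [Finsupp.prod, Nat.support_factorization] at h2
    exact h2.symm

theorem squareful_pow (z q : ℕ) (hq : 2 ≤ q) : Squareful (z ^ q) := by
  intro p hp hpz
  have h1 : p ∣ z := hp.dvd_of_dvd_pow hpz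
  exact (pow_dvd_pow_of_dvd h1 2).trans (pow_dvd_pow z hq)

/-- Few pairs have a value which is a perfect power away from fixed primes. -/
theorem card_power_values (g P Q : ℤ[X]) (d : ℤ) (hd0 : d ≠ 0)
    (hPQ : P * g + Q * derivative g = C d) (hdeg : 1 ≤ g.natDegree) (q : ℕ) (hq : 2 ≤ q) (M0 : ℕ)
    (hM0 : M0 ≠ 0) :
    ∃ C0 δ : ℝ, 0 < C0 ∧ 0 < δ ∧ δ ≤ 1 / 2 ∧ ∀ A B : ℕ, 1 ≤ B → B ≤ A →
      ∀ T : Finset (ℤ × ℤ), T ⊆ box A B →
      (∀ w ∈ T, IsCoprime w.1 w.2 ∧ hev g.natDegree g w.1 w.2 ≠ 0 ∧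
        ∀ p : ℕ, p.Prime → ¬ p ∣ M0 → q ∣ (hev g.natDegree g w.1 w.2).natAbs.factorization p) →
      (T.card : ℝ) ≤ C0 * ((A : ℝ) * B) ^ (1 - δ) := by
  classical
  set r := g.natDegree with hrdef
  have hrR : (1 : ℝ) ≤ (r : ℝ) := by exact_mod_cast hdeg
  have hg0 : g.coeff r ≠ 0 := by
    have : g ≠ 0 := by
      intro h; rw [h, natDegree_zero] at hrdef; omega
    rw [hrdef]
    exact leadingCoeff_ne_zero.mpr this
  set N0 : ℕ := (d * g.coeff r).natAbs with hN0
  have hN0ne : N0 ≠ 0 := Int.natAbs_ne_zero.mpr (mul_ne_zero hd0 hg0)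
  set M1 : ℕ := M0 * N0 with hM1
  have hM1ne : M1 ≠ 0 := mul_ne_zero hM0 hN0ne
  set Cs : ℝ := csum r g with hCs
  have hCs0 : 0 ≤ Cs := csum_nonneg _ _
  -- the power or squareful event
  have hE : ∃ C1 c : ℝ, 0 < C1 ∧ 0 < c ∧ c ≤ 1 / 16 ∧ ∀ A B : ℕ, 1 ≤ B → B ≤ A →
      (Cs + 2) ^ 2 ≤ (A : ℝ) * B →
      ∀ T : Finset (ℤ × ℤ), T ⊆ box A B →
      (∀ w ∈ T, IsCoprime w.1 w.2 ∧ (A : ℝ) ^ ((r : ℝ) - 1 / 32) ≤ |((hev r g w.1 w.2 : ℤ) : ℝ)| ∧
        ∃ m0 z : ℕ, 1 ≤ m0 ∧ (m0 : ℝ) ≤ ((A : ℝ) * B) ^ c ∧ z ≠ 0 ∧ Nat.Coprime z M1 ∧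
          (hev r g w.1 w.2).natAbs = m0 * z ^ q) →
      (T.card : ℝ) ≤ C1 * ((A : ℝ) * B) ^ (1 - c) := by
    rcases Nat.lt_or_ge r 2 with hr2 | hr2
    · -- linear case
      have hr1 : r = 1 := by omega
      obtain ⟨C1, hC1, hE1⟩ := card_squareful g P Q d hPQ (1 / 16) (by norm_num) (by norm_num)
      refine ⟨C1, 1 / 64, hC1, by norm_num, by norm_num, ?_⟩
      intro A B hB hBA hUbig T hT hTw
      have hA : 1 ≤ A := hB.trans hBA
      have hA1 : (1 : ℝ) ≤ (A : ℝ) := by exact_mod_cast hA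
      have hB1 : (1 : ℝ) ≤ (B : ℝ) := by exact_mod_cast hB
      have hBAR : (B : ℝ) ≤ (A : ℝ) := by exact_mod_cast hBA
      have hA0 : (0 : ℝ) < (A : ℝ) := by linarith
      set U : ℝ := (A : ℝ) * B with hUdef
      have hU1 : 1 ≤ U := by rw [hUdef]; nlinarith
      have hUpos : 0 < U := by linarith
      have hUA : U ≤ (A : ℝ) ^ (2 : ℝ) := by
        have h2 : (A : ℝ) ^ (2 : ℝ) = (A : ℝ) * A := by
          rw [Real.rpow_two]; ring
        rw [h2, hUdef]; nlinarith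
      have hAU : (A : ℝ) ≤ U := by rw [hUdef]; nlinarith
      have h1 := hE1 A B hA hB T hT (by
        intro w hw
        obtain ⟨hcop, hbig, m0, z, hm0, hm0U, hz, hzM, hfac⟩ := hTw w hw
        refine ⟨hcop, z ^ q, squareful_pow z q hq, ?_, ?_, ?_, ?_⟩
        · apply Nat.Coprime.pow_left
          exact Nat.Coprime.coprime_mul_left_right hzM
        · have h2 : |((hev r g w.1 w.2 : ℤ) : ℝ)| = (m0 : ℝ) * ((z ^ q : ℕ) : ℝ) := by
            have h3 : (((hev r g w.1 w.2).natAbs : ℕ) : ℝ) = |((hev r g w.1 w.2 : ℤ) : ℝ)| := by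
              rw [Nat.cast_natAbs]; push_cast; rfl
            rw [← h3, hfac]; push_cast; ring
          rw [h2, hr1] at hbig
          have h4 : U ^ (1 / 4 : ℝ) ≤ (A : ℝ) ^ (((1 : ℕ) : ℝ) - 1 / 32) := by
            calc U ^ (1 / 4 : ℝ) ≤ ((A : ℝ) ^ (2 : ℝ)) ^ (1 / 4 : ℝ) :=
                  Real.rpow_le_rpow hUpos.le hUA (by norm_num)
              _ = (A : ℝ) ^ (1 / 2 : ℝ) := by
                  rw [← Real.rpow_mul hA0.le]; norm_num
              _ ≤ _ := Real.rpow_le_rpow_of_exponent_le hA1 (by norm_num)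
          have h5 : (m0 : ℝ) * ((z ^ q : ℕ) : ℝ) ≤ U ^ (1 / 64 : ℝ) * ((z ^ q : ℕ) : ℝ) := by
            gcongr
          have h6 : U ^ (1 / 64 : ℝ) * U ^ (1 / 16 : ℝ) ≤ U ^ (1 / 64 : ℝ) * ((z ^ q : ℕ) : ℝ) := by
            refine le_trans ?_ (h4.trans (hbig.trans h5))
            rw [← Real.rpow_add hUpos]
            apply Real.rpow_le_rpow_of_exponent_le hU1
            norm_num
          exact le_of_mul_le_mul_left h6 (Real.rpow_pos_of_pos hUpos _)
        · have h2 : (((hev r g w.1 w.2).natAbs : ℕ) : ℝ) = |((hev r g w.1 w.2 : ℤ) : ℝ)| := by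
            rw [Nat.cast_natAbs]; push_cast; rfl
          have h3 : z ^ q ≤ (hev r g w.1 w.2).natAbs := by
            rw [hfac]; exact Nat.le_mul_of_pos_left _ (by omega)
          have h4 : ((z ^ q : ℕ) : ℝ) ≤ |((hev r g w.1 w.2 : ℤ) : ℝ)| := by
            rw [← h2]; exact_mod_cast h3
          have hbx := mem_box.mp (hT hw)
          have h5 : |((hev r g w.1 w.2 : ℤ) : ℝ)| ≤ Cs * (A : ℝ) ^ r := by
            apply abs_hev_le
            · rw [abs_le]
              exact ⟨by exact_mod_cast hbx.1.1, by exact_mod_cast hbx.1.2⟩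
            · have e1 : (0 : ℝ) ≤ (w.2 : ℝ) := by
                have : (0 : ℤ) ≤ w.2 := by linarith [hbx.2.1]
                exact_mod_cast this
              rw [abs_of_nonneg e1]
              have e2 : (w.2 : ℝ) ≤ (B : ℝ) := by exact_mod_cast hbx.2.2
              linarith
          have e9 : (A : ℝ) ^ r = A := by rw [hr1, pow_one]
          rw [e9] at h5
          have h6 : Cs ≤ U ^ (1 / 2 : ℝ) := by
            rw [← Real.sqrt_eq_rpow]
            apply Real.le_sqrt_of_sq_le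
            nlinarith
          calc ((z ^ q : ℕ) : ℝ) ≤ Cs * A := h4.trans h5
            _ ≤ U ^ (1 / 2 : ℝ) * U ^ (1 : ℝ) := by
                rw [Real.rpow_one]
                gcongr
            _ = U ^ (3 / 2 : ℝ) := by rw [← Real.rpow_add hUpos]; norm_num
            _ ≤ U ^ (2 - 2 * (1 / 16 : ℝ)) := by
                apply Real.rpow_le_rpow_of_exponent_le hU1
                norm_num
        · have h2 : z ^ q ∣ (hev r g w.1 w.2).natAbs := by
            rw [hfac]; exact dvd_mul_left _ _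
          exact Int.natCast_dvd.mpr h2)
      refine h1.trans ?_
      have h2 : U ^ (1 - (1 / 16 : ℝ) / 4) ≤ U ^ (1 - 1 / 64 : ℝ) :=
        Real.rpow_le_rpow_of_exponent_le hU1 (by norm_num)
      gcongr
    · obtain ⟨C1, c, hC1, hc, hc1, hc2, hE2⟩ := card_powers g P Q d hd0 hPQ hr2 q hq (1 / 2)
        (by norm_num)
      refine ⟨C1, c, hC1, hc, by linarith, ?_⟩
      intro A B hB hBA hUbig T hT hTw
      apply hE2 A B hB hBA T hT
      intro w hw
      obtain ⟨hcop, hbig, m0, z, hm0, hm0U, hz, hzM, hfac⟩ := hTw w hw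
      refine ⟨hcop, ?_, m0, 1, z, hm0, hm0U, le_rfl, ?_, Nat.coprime_one_left _,
        Nat.one_le_iff_ne_zero.mpr hz, by rw [hfac, mul_one]⟩
      · rw [← hrdef]
        have : (1 / 2 : ℝ) / 16 = 1 / 32 := by norm_num
        rw [this]; exact hbig
      · have hA1 : (1 : ℝ) ≤ (A : ℝ) := by exact_mod_cast hB.trans hBA
        have hB1 : (1 : ℝ) ≤ (B : ℝ) := by exact_mod_cast hB
        rw [Nat.cast_one]
        apply Real.one_le_rpow
        · nlinarith
        · norm_num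
  obtain ⟨C1, c, hC1, hc, hc16, hE⟩ := hE
  obtain ⟨Cb, δb, hCb, hδb, hδb2, hEb⟩ := card_bad g hg0 M1 hM1ne c hc
  set θ : ℝ := 1 / 32 with hθ
  have hθ0 : 0 < θ := by norm_num
  set δ0 : ℝ := θ / (2 * r) with hδ0
  have hδ00 : 0 < δ0 := by positivity
  set δ : ℝ := min δ0 (min δb c) with hδ
  have hδpos : 0 < δ := lt_min hδ00 (lt_min hδb hc)
  have hδδ0 : δ ≤ δ0 := min_le_left _ _
  have hδδb : δ ≤ δb := (min_le_right _ _).trans (min_le_left _ _)
  have hδc : δ ≤ c := (min_le_right _ _).trans (min_le_right _ _)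
  set U0 : ℝ := (Cs + 2) ^ 2 with hU0
  have hU00 : 0 ≤ U0 := by positivity
  refine ⟨3 * U0 + (3 * r + (Cb + C1)), δ, by positivity, hδpos, by linarith, ?_⟩
  intro A B hB hBA T hT hTw
  have hA : 1 ≤ A := hB.trans hBA
  have hA1 : (1 : ℝ) ≤ (A : ℝ) := by exact_mod_cast hA
  have hB1 : (1 : ℝ) ≤ (B : ℝ) := by exact_mod_cast hB
  have hBAR : (B : ℝ) ≤ (A : ℝ) := by exact_mod_cast hBA
  have hA0 : (0 : ℝ) < (A : ℝ) := by linarith
  set U : ℝ := (A : ℝ) * B with hUdef
  have hU1 : 1 ≤ U := by rw [hUdef]; nlinarith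
  have hUpos : 0 < U := by linarith
  have hUA : U ≤ (A : ℝ) ^ (2 : ℝ) := by
    have h2 : (A : ℝ) ^ (2 : ℝ) = (A : ℝ) * A := by
      rw [Real.rpow_two]; ring
    rw [h2, hUdef]; nlinarith
  have hUδ1 : 1 ≤ U ^ (1 - δ) := Real.one_le_rpow hU1 (by linarith)
  have hUδ0 : 0 ≤ U ^ (1 - δ) := by linarith
  rcases lt_or_ge U U0 with hUU | hUU
  · have h1 : (T.card : ℝ) ≤ ((box A B).card : ℝ) := by exact_mod_cast Finset.card_le_card hT
    have h2 := card_box_le (A := A) (B := B) hA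
    have h3 : 3 * U0 * 1 ≤ (3 * U0 + (3 * r + (Cb + C1))) * U ^ (1 - δ) := by
      apply mul_le_mul _ hUδ1 zero_le_one (by positivity)
      have : 0 ≤ 3 * (r : ℝ) + (Cb + C1) := by positivity
      linarith
    linarith
  set Φ : ℤ × ℤ → ℤ := fun w => hev r g w.1 w.2 with hΦ
  set T0 := T.filter (fun w => |((Φ w : ℤ) : ℝ)| < (A : ℝ) ^ ((r : ℝ) - θ)) with hT0
  set Tb := T.filter (fun w => U ^ c < ((∏ p ∈ (Φ w).natAbs.primeFactors.filter
    (fun p => p ∣ M1), p ^ (Φ w).natAbs.factorization p : ℕ) : ℝ)) with hTb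
  set T2 := T.filter (fun w => (A : ℝ) ^ ((r : ℝ) - 1 / 32) ≤ |((Φ w : ℤ) : ℝ)| ∧
        ∃ m0 z : ℕ, 1 ≤ m0 ∧ (m0 : ℝ) ≤ U ^ c ∧ z ≠ 0 ∧ Nat.Coprime z M1 ∧
          (Φ w).natAbs = m0 * z ^ q) with hT2
  have hcover : T ⊆ T0 ∪ (Tb ∪ T2) := by
    intro w hw
    obtain ⟨hcop, hne, hpow⟩ := hTw w hw
    rw [Finset.mem_union, Finset.mem_union]
    by_cases h0 : |((Φ w : ℤ) : ℝ)| < (A : ℝ) ^ ((r : ℝ) - θ)
    · left; rw [hT0, Finset.mem_filter]; exact ⟨hw, h0⟩
    push Not at h0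
    right
    by_cases hb : U ^ c < ((∏ p ∈ (Φ w).natAbs.primeFactors.filter
      (fun p => p ∣ M1), p ^ (Φ w).natAbs.factorization p : ℕ) : ℝ)
    · left; rw [hTb, Finset.mem_filter]; exact ⟨hw, hb⟩
    right
    push Not at hb
    have hn0 : (Φ w).natAbs ≠ 0 := Int.natAbs_ne_zero.mpr hne
    obtain ⟨z, hz, hzM, hfac⟩ := exists_split_power (Φ w).natAbs M1 q hn0 (by
      intro p hp hpM
      apply hpow p hp
      intro h
      exact hpM (h.mul_right _))
    rw [hT2, Finset.mem_filter]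
    refine ⟨hw, h0, _, z, ?_, hb, hz, hzM, hfac⟩
    apply Nat.one_le_iff_ne_zero.mpr
    intro h
    rw [h, zero_mul] at hfac
    exact hn0 hfac
  have hθ1 : θ ≤ 1 := by rw [hθ]; norm_num
  have hT0le : (T0.card : ℝ) ≤ 3 * r * U ^ (1 - δ) := by
    have h1 := card_small_values g hdeg θ hθ0 (by rw [← hrdef]; linarith) A B hA T0
      ((Finset.filter_subset _ _).trans hT) (fun w hw => (Finset.mem_filter.mp hw).2)
    refine h1.trans ?_
    rw [← hrdef]
    have hr00 : (0 : ℝ) < (r : ℝ) := by linarith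
    have h2 : (A : ℝ) ^ (1 - θ / r) * B ≤ U ^ (1 - δ) := by
      have e1 : (A : ℝ) ^ (1 - θ / r) * B = U * (A : ℝ) ^ (-(θ / r)) := by
        rw [sub_eq_add_neg, Real.rpow_add hA0, Real.rpow_one, hUdef]; ring
      have e2 : (A : ℝ) ^ (-(θ / r)) ≤ U ^ (-δ0) := by
        have e3 : (A : ℝ) ^ (-(θ / r)) = ((A : ℝ) ^ (2 : ℝ)) ^ (-δ0) := by
          rw [← Real.rpow_mul hA0.le, hδ0]
          congr 1
          field_simp
        rw [e3]
        apply Real.rpow_le_rpow_of_nonpos hUpos hUA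
        linarith
      rw [e1]
      calc U * (A : ℝ) ^ (-(θ / r)) ≤ U * U ^ (-δ0) := by gcongr
        _ = U ^ (1 - δ0) := by rw [sub_eq_add_neg, Real.rpow_add hUpos, Real.rpow_one]
        _ ≤ U ^ (1 - δ) := Real.rpow_le_rpow_of_exponent_le hU1 (by linarith)
    gcongr
  have hTble : (Tb.card : ℝ) ≤ Cb * U ^ (1 - δ) := by
    have h1 := hEb A B hB hBA Tb ((Finset.filter_subset _ _).trans hT) (by
      intro w hw
      have h2 := Finset.mem_filter.mp hw
      exact ⟨(hTw w h2.1).2.1, h2.2⟩)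
    refine h1.trans ?_
    have h2 : U ^ (1 - δb) ≤ U ^ (1 - δ) :=
      Real.rpow_le_rpow_of_exponent_le hU1 (by linarith)
    gcongr
  have hT2le : (T2.card : ℝ) ≤ C1 * U ^ (1 - δ) := by
    have h1 := hE A B hB hBA hUU T2 ((Finset.filter_subset _ _).trans hT) (by
      intro w hw
      have h2 := Finset.mem_filter.mp hw
      exact ⟨(hTw w h2.1).1, h2.2⟩)
    refine h1.trans ?_
    have h2 : U ^ (1 - c) ≤ U ^ (1 - δ) :=
      Real.rpow_le_rpow_of_exponent_le hU1 (by linarith)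
    gcongr
  have hfin : (T.card : ℝ) ≤ T0.card + (Tb.card + T2.card) := by
    have h1 := Finset.card_le_card hcover
    have h2 := Finset.card_union_le T0 (Tb ∪ T2)
    have h3 := Finset.card_union_le Tb T2
    have h5 : T.card ≤ T0.card + (Tb.card + T2.card) := by omega
    exact_mod_cast h5
  have h9 : 0 ≤ 3 * U0 * U ^ (1 - δ) := by positivity
  linarith

end Pool.Agent.Lib.MP_d8bd92_nt
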