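import Pool.Agent.Lib.MP_d8bd92_nt.FamAlg
import Pool.Agent.Lib.MP_d8bd92_nt.FamPow

set_option autoImplicit false

namespace Pool.Agent.Lib.MP_d8bd92_nt

open Finset Polynomial

/-- If the polynomial `F` is not a constant times a `q`-th power, few pairs give values of the
form of degree `m` which are `q`-th powers away from fixed primes. -/
theorem card_irred_power (F : ℤ[X]) (hF : F ≠ 0) (m : ℕ) (hm : F.natDegree ≤ m) (q : ℕ)
    (hq : q.Prime)
    (hpow : ¬ ∃ (c : ℚ) (P : ℚ[X]), c ≠ 0 ∧ F.map (Int.castRingHom ℚ) = C c * P ^ q)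
    (ρ0 : ℕ) (hρ0 : ρ0 ≠ 0) :
    ∃ C0 δ : ℝ, 0 < C0 ∧ 0 < δ ∧ δ ≤ 1 / 2 ∧ ∀ A B : ℕ, 1 ≤ B → B ≤ A →
      ∀ T : Finset (ℤ × ℤ), T ⊆ box A B →
      (∀ w ∈ T, IsCoprime w.1 w.2 ∧ hev m F w.1 w.2 ≠ 0 ∧
        ∀ p : ℕ, p.Prime → ¬ p ∣ ρ0 → q ∣ (hev m F w.1 w.2).natAbs.factorization p) →
      (T.card : ℝ) ≤ C0 * ((A : ℝ) * B) ^ (1 - δ) := by
  classical
  set φ := Int.castRingHom ℚ with hφ
  have hFq : F.map φ ≠ 0 := by
    intro h
    apply hF
    apply map_cast_injective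
    rw [Polynomial.map_zero]; exact h
  rcases power_or_irreducible q (F.map φ) hFq with h | ⟨g0, h0, e, hg0, hfac, hndvd, hqe⟩
  · exact absurd h hpow
  have he0 : e ≠ 0 := by rintro rfl; exact hqe (dvd_zero _)
  have hh0 : h0 ≠ 0 := by
    intro h; rw [h, mul_zero] at hfac; exact hFq hfac
  obtain ⟨g, hgprim, u, hu, hg⟩ := exists_primitive g0 hg0.ne_zero
  obtain ⟨h, n, hn, hh⟩ := exists_int_poly (C ((u ^ e)⁻¹) * h0)
  have hue : (u ^ e) ≠ 0 := pow_ne_zero _ hu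
  have hnQ : (n : ℚ) ≠ 0 := by exact_mod_cast hn
  have hid : C n * F = g ^ e * h := by
    apply map_cast_injective
    rw [Polynomial.map_mul, Polynomial.map_mul, Polynomial.map_pow, map_C, hh]
    rw [hφ] at hfac
    rw [hfac, hg, mul_pow, ← C_pow]
    simp only [eq_intCast]
    have e1 : (C (u ^ e) * C ((u ^ e)⁻¹) : ℚ[X]) = 1 := by
      rw [← C_mul, mul_inv_cancel₀ hue, C_1]
    linear_combination (-(C (n : ℚ) * g0 ^ e * h0)) * e1
  have hCu : IsUnit (C u : ℚ[X]) := isUnit_C.mpr (isUnit_iff_ne_zero.mpr hu)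
  have hg0i : g ≠ 0 := hgprim.ne_zero
  have hhi : h ≠ 0 := by
    intro h1
    rw [h1, mul_zero] at hid
    have : (C n : ℤ[X]) ≠ 0 := C_ne_zero.mpr hn
    exact (mul_ne_zero this hF) hid
  have hcop : IsCoprime (g.map φ) (h.map φ) := by
    rw [hφ, hg, hh]
    have h1 : IsCoprime g0 h0 := (hg0.coprime_iff_not_dvd).mpr hndvd
    have h2 : IsUnit (C (n : ℚ) * C ((u ^ e)⁻¹) : ℚ[X]) := by
      rw [← C_mul]
      exact isUnit_C.mpr (isUnit_iff_ne_zero.mpr (mul_ne_zero hnQ (inv_ne_zero hue)))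
    rw [← mul_assoc]
    exact (isCoprime_mul_unit_left_left hCu _ _).mpr
      ((isCoprime_mul_unit_left_right h2 _ _).mpr h1)
  obtain ⟨P1, Q1, ρ1, hρ1, hb1⟩ := exists_bezout_int g h hcop
  have hirr : Irreducible (g.map φ) := by
    rw [hφ, hg]
    exact (irreducible_isUnit_mul hCu).mpr hg0
  have hsep : IsCoprime (g.map φ) ((derivative g).map φ) := by
    rw [← Polynomial.derivative_map]
    exact hirr.separable
  obtain ⟨P2, Q2, d, hd, hb2⟩ := exists_bezout_int g (derivative g) hsep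
  set r := g.natDegree with hr
  have hr1 : 1 ≤ r := by
    have h1 : (g.map φ).natDegree = g.natDegree :=
      natDegree_map_eq_of_injective (Int.castRingHom ℚ).injective_int g
    have h2 := hirr.natDegree_pos
    rw [h1] at h2
    exact h2
  have hgr : g.coeff r ≠ 0 := leadingCoeff_ne_zero.mpr hg0i
  have hdegs : e * r + h.natDegree ≤ m := by
    have h1 := congrArg natDegree hid
    rw [natDegree_C_mul hn, natDegree_mul (pow_ne_zero _ hg0i) hhi, natDegree_pow, ← hr] at h1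
    omega
  set M : ℕ := ρ0 * (n.natAbs * (ρ1.natAbs * (g.coeff r).natAbs)) with hM
  have hMne : M ≠ 0 := mul_ne_zero hρ0 (mul_ne_zero (Int.natAbs_ne_zero.mpr hn)
    (mul_ne_zero (Int.natAbs_ne_zero.mpr hρ1) (Int.natAbs_ne_zero.mpr hgr)))
  obtain ⟨C0, δ, hC0, hδ, hδ2, hmain⟩ := card_power_values g P2 Q2 d hd hb2 hr1 q hq.two_le M hMne
  refine ⟨C0, δ, hC0, hδ, hδ2, ?_⟩
  intro A B hB hBA T hT hTw
  apply hmain A B hB hBA T hT
  intro w hw
  obtain ⟨hcw, hne, hpw⟩ := hTw w hw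
  have hform : n * hev m F w.1 w.2 = (hev r g w.1 w.2) ^ e * hev (m - e * r) h w.1 w.2 := by
    rw [← hev_C_mul, hid]
    have h1 : m = e * r + (m - e * r) := by omega
    conv_lhs => rw [h1]
    rw [hev_mul_int _ _ _ _ _ _, hev_pow_int _ _ le_rfl]
    · exact natDegree_pow_le.trans (Nat.mul_le_mul_left _ le_rfl)
    · omega
  have hnz : n * hev m F w.1 w.2 ≠ 0 := mul_ne_zero hn hne
  have hgw : hev r g w.1 w.2 ≠ 0 := by
    intro h1
    rw [hform, h1, zero_pow he0, zero_mul] at hnz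
    exact hnz rfl
  have hhw : hev (m - e * r) h w.1 w.2 ≠ 0 := by
    intro h1
    rw [hform, h1, mul_zero] at hnz
    exact hnz rfl
  refine ⟨hcw, hgw, ?_⟩
  intro p hp hpM
  have hp1 : ¬ p ∣ ρ0 := fun h1 => hpM (h1.mul_right _)
  have hp2 : ¬ p ∣ n.natAbs := fun h1 => hpM ((h1.mul_right _).mul_left _)
  have hp3 : ¬ p ∣ ρ1.natAbs := fun h1 => hpM (((h1.mul_right _).mul_left _).mul_left _)
  have hp4 : ¬ p ∣ (g.coeff r).natAbs := fun h1 => hpM (((h1.mul_left _).mul_left _).mul_left _)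
  by_cases hpg : p ∣ (hev r g w.1 w.2).natAbs
  · have hpgZ : (p : ℤ) ∣ hev r g w.1 w.2 := Int.natCast_dvd.mpr hpg
    have hpp : Prime (p : ℤ) := Nat.prime_iff_prime_int.mp hp
    have hpb : ¬ (p : ℤ) ∣ w.2 := by
      intro h1
      have h2 := prime_dvd_coeff_of_dvd r g w.1 w.2 p hpp hcw h1 hpgZ
      exact hp4 (Int.natCast_dvd.mp h2)
    have hph : ¬ p ∣ (hev (m - e * r) h w.1 w.2).natAbs := by
      intro h1
      have h2 := prime_dvd_bezout g h P1 Q1 ρ1 hb1 r (m - e * r) le_rfl (by omega) w.1 w.2 p hp hpb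
        hpgZ (Int.natCast_dvd.mpr h1)
      exact hp3 (Int.natCast_dvd.mp h2)
    have h1 : (n * hev m F w.1 w.2).natAbs.factorization p =
        ((hev r g w.1 w.2) ^ e * hev (m - e * r) h w.1 w.2).natAbs.factorization p := by
      rw [hform]
    rw [Int.natAbs_mul, Int.natAbs_mul, Int.natAbs_pow,
      Nat.factorization_mul (Int.natAbs_ne_zero.mpr hn) (Int.natAbs_ne_zero.mpr hne),
      Nat.factorization_mul (pow_ne_zero _ (Int.natAbs_ne_zero.mpr hgw))
        (Int.natAbs_ne_zero.mpr hhw), Nat.factorization_pow] at h1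
    simp only [Finsupp.add_apply, Finsupp.smul_apply, smul_eq_mul] at h1
    rw [Nat.factorization_eq_zero_of_not_dvd hp2, Nat.factorization_eq_zero_of_not_dvd hph,
      zero_add, add_zero] at h1
    have h2 := hpw p hp hp1
    rw [h1] at h2
    exact (hq.dvd_mul.mp h2).resolve_left hqe
  · rw [Nat.factorization_eq_zero_of_not_dvd hpg]
    exact dvd_zero _

end Pool.Agent.Lib.MP_d8bd92_nt
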