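import Pool.Agent.Lib.MP_d8bd92_nt.FamDecomp
import Pool.Agent.Lib.MP_d8bd92_nt.FamEvents2
import Pool.Agent.Lib.MP_d8bd92_nt.FamEvents3
import Pool.Agent.Lib.MP_d8bd92_nt.FamEvents4

set_option autoImplicit false

namespace Pool.Agent.Lib.MP_d8bd92_nt

open Finset Polynomial

/-- Second form of the arithmetic decomposition of an integer without medium sized squareful
divisors. -/
theorem decomp2 {n M0 : ℕ} (hn : n ≠ 0) {y Y1 Y2 Yb : ℝ} (hY1 : 1 < Y1)
    (hYb : 1 ≤ Yb)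
    (hy0 : 0 ≤ y) (hy : y ^ 2 ≤ Y2) (hY : Y1 ^ 2 ≤ Y2)
    (hno : ∀ D : ℕ, D ∣ n → Squareful D → Nat.Coprime D M0 → Y1 ≤ (D : ℝ) → Y2 < (D : ℝ))
    (hbad : ((∏ p ∈ n.primeFactors.filter (fun p => p ∣ M0), p ^ n.factorization p : ℕ) : ℝ) ≤ Yb) :
    (n : ℝ) ≤ Yb * Y1 * ((∏ p ∈ n.primeFactors, p : ℕ) : ℝ) ∨
    ∃ p e m0 m1 : ℕ, p.Prime ∧ y < (p : ℝ) ∧ 2 ≤ e ∧ n = m0 * m1 * p ^ e ∧ m0 ≠ 0 ∧ m1 ≠ 0 ∧
      (m0 : ℝ) ≤ Yb ∧ Nat.Coprime m1 M0 := by
  classical
  set pf := n.primeFactors with hpf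
  set Bad := pf.filter (fun p => p ∣ M0) with hBad
  set Good := pf.filter (fun p => ¬ p ∣ M0) with hGood
  set S2 := Good.filter (fun p => 2 ≤ n.factorization p) with hS2
  set S1 := Good.filter (fun p => ¬ 2 ≤ n.factorization p) with hS1
  have hprod : ∀ g : ℕ → ℕ, ∏ p ∈ pf, g p =
      (∏ p ∈ Bad, g p) * ((∏ p ∈ S2, g p) * (∏ p ∈ S1, g p)) := by
    intro g
    rw [hS2, hS1, Finset.prod_filter_mul_prod_filter_not, hBad, hGood,
      Finset.prod_filter_mul_prod_filter_not]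
  set bad := ∏ p ∈ Bad, p ^ n.factorization p with hbaddef
  set s := ∏ p ∈ S2, p ^ n.factorization p with hsdef
  set q := ∏ p ∈ S1, p with hqdef
  have hprime : ∀ p ∈ pf, p.Prime := fun p hp => Nat.prime_of_mem_primeFactors hp
  have hfac : n = ∏ p ∈ pf, p ^ n.factorization p := by
    have h2 := Nat.prod_factorization_pow_eq_self hn
    rw [Finsupp.prod, Nat.support_factorization] at h2
    exact h2.symm
  have hS1q : ∏ p ∈ S1, p ^ n.factorization p = q := by
    apply Finset.prod_congr rfl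
    intro p hp
    rw [hS1, Finset.mem_filter, hGood, Finset.mem_filter] at hp
    have h1 : n.factorization p ≠ 0 := by
      have h0 : p ∈ n.factorization.support := by
        rw [Nat.support_factorization]; exact hp.1.1
      exact Finsupp.mem_support_iff.mp h0
    have h2 : n.factorization p = 1 := by omega
    rw [h2, pow_one]
  have hn_eq : n = bad * (s * q) := by
    have h1 := hprod (fun p => p ^ n.factorization p)
    rw [hS1q] at h1
    rw [← h1]; exact hfac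
  set N := ∏ p ∈ pf, p with hN
  have hN_eq : N = (∏ p ∈ Bad, p) * ((∏ p ∈ S2, p) * q) := hprod (fun p => p)
  have hBadsub : Bad ⊆ pf := Finset.filter_subset _ _
  have hGoodsub : Good ⊆ pf := Finset.filter_subset _ _
  have hS2sub : S2 ⊆ pf := (Finset.filter_subset _ _).trans hGoodsub
  have hS1sub : S1 ⊆ pf := (Finset.filter_subset _ _).trans hGoodsub
  have hpos : ∀ t : Finset ℕ, t ⊆ pf → 1 ≤ ∏ p ∈ t, p := by
    intro t ht
    apply Nat.one_le_iff_ne_zero.mpr
    apply Finset.prod_ne_zero_iff.mpr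
    intro p hp
    exact (hprime p (ht hp)).ne_zero
  have hNge : q ≤ N := by
    rw [hN_eq]
    have h1 := hpos Bad hBadsub
    have h2 := hpos S2 hS2sub
    calc q = 1 * (1 * q) := by ring
      _ ≤ (∏ p ∈ Bad, p) * ((∏ p ∈ S2, p) * q) := by gcongr
  have hbad0 : bad ≠ 0 := by
    intro h; rw [h, zero_mul] at hn_eq; exact hn hn_eq
  have hs0 : s ≠ 0 := by
    intro h; rw [h] at hn_eq; simp at hn_eq; exact hn hn_eq
  have hprs : ∀ p : ℕ, p.Prime → p ∣ s → p ∈ S2 := by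
    intro p hp hps
    rw [hsdef] at hps
    obtain ⟨r, hr, hpr⟩ := (Nat.Prime.prime hp).exists_mem_finset_dvd hps
    have h1 := (hp.dvd_of_dvd_pow hpr)
    have h2 : p = r := (Nat.prime_dvd_prime_iff_eq hp (hprime r (hS2sub hr))).mp h1
    rw [h2]; exact hr
  by_cases hall : ∀ p ∈ S2, (p : ℝ) ≤ y
  · left
    have hsq : Squareful s := by
      intro p hp hps
      have h1 := hprs p hp hps
      have h2 : p ^ n.factorization p ∣ s := Finset.dvd_prod_of_mem _ h1
      refine dvd_trans (pow_dvd_pow p ?_) h2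
      rw [hS2, Finset.mem_filter] at h1
      exact h1.2
    have hsn : s ∣ n := by
      rw [hn_eq]
      exact (dvd_mul_right s q).mul_left _
    have hcop : ∀ D : ℕ, D ∣ s → Nat.Coprime D M0 := by
      intro D hD
      apply Nat.Coprime.coprime_dvd_left hD
      apply Nat.coprime_of_dvd
      intro p hp hps hpM
      have h1 := hprs p hp hps
      rw [hS2, Finset.mem_filter, hGood, Finset.mem_filter] at h1
      exact h1.1.2 hpM
    have hs_lt : (s : ℝ) < Y1 := by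
      apply squareful_small hs0 hY1 hy0 hy hY hsq
      · intro p hp hps
        exact hall p (hprs p hp hps)
      · intro D hD hDs hDY
        exact hno D (hD.trans hsn) hDs (hcop D hD) hDY
    have h1 : (n : ℝ) = (bad : ℝ) * ((s : ℝ) * (q : ℝ)) := by
      exact_mod_cast congrArg (Nat.cast : ℕ → ℝ) hn_eq
    rw [h1]
    have h2 : (q : ℝ) ≤ (N : ℝ) := by exact_mod_cast hNge
    calc (bad : ℝ) * ((s : ℝ) * (q : ℝ)) ≤ Yb * (Y1 * (N : ℝ)) := by gcongr
      _ = Yb * Y1 * (N : ℝ) := by ring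
  · right
    push Not at hall
    obtain ⟨p, hpS, hpy⟩ := hall
    have hpG : p ∈ Good := (Finset.mem_filter.mp hpS).1
    have hp2 : 2 ≤ n.factorization p := (Finset.mem_filter.mp hpS).2
    have hpp : p.Prime := hprime p (hGoodsub hpG)
    set m1 := ∏ p' ∈ Good.erase p, p' ^ n.factorization p' with hm1
    have hGoodprod : ∏ p' ∈ Good, p' ^ n.factorization p' = m1 * p ^ n.factorization p := by
      rw [hm1, mul_comm]
      exact (Finset.mul_prod_erase Good (fun p' => p' ^ n.factorization p') hpG).symm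
    have hn_eq2 : n = bad * m1 * p ^ n.factorization p := by
      have h1 : ∏ p ∈ pf, p ^ n.factorization p =
          bad * ∏ p' ∈ Good, p' ^ n.factorization p' := by
        rw [hbaddef, hBad, hGood, Finset.prod_filter_mul_prod_filter_not]
      rw [mul_assoc, ← hGoodprod, ← h1]; exact hfac
    have hm10 : m1 ≠ 0 := by
      intro h; rw [h] at hn_eq2; simp at hn_eq2; exact hn hn_eq2
    refine ⟨p, n.factorization p, bad, m1, hpp, hpy, hp2, hn_eq2, hbad0, hm10, hbad, ?_⟩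
    rw [hm1]
    apply Nat.Coprime.prod_left
    intro p' hp'
    have h1 : p' ∈ Good := Finset.mem_of_mem_erase hp'
    have h2 : ¬ p' ∣ M0 := (Finset.mem_filter.mp h1).2
    have h3 : p'.Prime := hprime p' (hGoodsub h1)
    exact Nat.Coprime.pow_left _ ((Nat.Prime.coprime_iff_not_dvd h3).mpr h2)

/-- The radical of a squarefree binary form of small degree is as large as the form itself for
almost all coprime pairs of a box of size `U` with `A ^ κ ≤ U`, as soon as the degree is less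
than `3 κ`. -/
theorem radical_lower_small (f P Q : ℤ[X]) (d : ℤ) (hd0 : d ≠ 0)
    (hd : P * f + Q * derivative f = C d) (hr : 1 ≤ f.natDegree) (κ : ℝ) (hκ : 1 ≤ κ)
    (hrκ : (f.natDegree : ℝ) < 3 * κ) (ε : ℝ) (hε : 0 < ε) :
    ∃ C0 δ : ℝ, 0 < C0 ∧ 0 < δ ∧ δ ≤ 1 / 2 ∧ ∀ A B : ℕ, 1 ≤ B → B ≤ A →
      (A : ℝ) ^ κ ≤ (A : ℝ) * B →
      ∀ T : Finset (ℤ × ℤ), T ⊆ box A B →
      (∀ w ∈ T, IsCoprime w.1 w.2 ∧ hev f.natDegree f w.1 w.2 ≠ 0 ∧
        ((∏ p ∈ (hev f.natDegree f w.1 w.2).natAbs.primeFactors, p : ℕ) : ℝ) <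
          (A : ℝ) ^ ((f.natDegree : ℝ) - ε)) →
      (T.card : ℝ) ≤ C0 * ((A : ℝ) * B) ^ (1 - δ) := by
  classical
  set r := f.natDegree with hrdef
  have hr0 : (1 : ℝ) ≤ (r : ℝ) := by exact_mod_cast hr
  have hf0 : f.coeff r ≠ 0 := by
    have : f ≠ 0 := by
      intro h; rw [h, natDegree_zero] at hrdef; omega
    rw [hrdef]
    exact leadingCoeff_ne_zero.mpr this
  set g : ℝ := 3 * κ - r with hg
  have hg0 : 0 < g := by rw [hg]; linarith
  have hκ0 : 0 < κ := by linarith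
  set ε0 : ℝ := min ε 1 with hε0
  have hε0pos : 0 < ε0 := lt_min hε one_pos
  have hε0one : ε0 ≤ 1 := min_le_right _ _
  have hε0ε : ε0 ≤ ε := min_le_left _ _
  set η : ℝ := min (ε0 / 16) (g / (16 * κ)) with hη
  have hη0 : 0 < η := lt_min (by positivity) (by positivity)
  have hη16 : η ≤ ε0 / 16 := min_le_left _ _
  have hηg : κ * η ≤ g / 16 := by
    have h1 : η ≤ g / (16 * κ) := min_le_right _ _
    have h2 : κ * η ≤ κ * (g / (16 * κ)) := by gcongr
    have h3 : κ * (g / (16 * κ)) = g / 16 := by field_simp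
    linarith
  set ε2 : ℝ := min (ε0 / 4) (g / (8 * κ)) with hε2
  have hε20 : 0 < ε2 := lt_min (by positivity) (by positivity)
  have hε24 : ε2 ≤ ε0 / 4 := min_le_left _ _
  have hε2g : κ * ε2 ≤ g / 8 := by
    have h1 : ε2 ≤ g / (8 * κ) := min_le_right _ _
    have h2 : κ * ε2 ≤ κ * (g / (8 * κ)) := by gcongr
    have h3 : κ * (g / (8 * κ)) = g / 8 := by field_simp
    linarith
  set θ : ℝ := ε2 / 16 with hθ
  have hθ0 : 0 < θ := by positivity
  obtain ⟨C1, hC1, hE1⟩ := card_squareful f P Q d hd η hη0 (by linarith)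
  have hE2 : ∀ e : ℕ, ∃ C0 c : ℝ, 0 < C0 ∧ 0 < c ∧ c ≤ 1 ∧ (2 ≤ r → 2 ≤ e → ∀ A B : ℕ,
      1 ≤ B → B ≤ A →
      ∀ T : Finset (ℤ × ℤ), T ⊆ box A B →
      (∀ w ∈ T, IsCoprime w.1 w.2 ∧
        (A : ℝ) ^ ((r : ℝ) - ε2 / 16) ≤ |((hev r f w.1 w.2 : ℤ) : ℝ)| ∧
        ∃ m0 m1 y : ℕ, 1 ≤ m0 ∧ (m0 : ℝ) ≤ ((A : ℝ) * B) ^ c ∧ 1 ≤ m1 ∧
          (m1 : ℝ) ≤ ((A : ℝ) * B) ^ (1 - ε2) ∧
          Nat.Coprime m1 (d * f.coeff r).natAbs ∧ 1 ≤ y ∧
          (hev r f w.1 w.2).natAbs = m0 * m1 * y ^ e) →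
      (T.card : ℝ) ≤ C0 * ((A : ℝ) * B) ^ (1 - c)) := by
    intro e
    by_cases he : 2 ≤ e ∧ 2 ≤ r
    · obtain ⟨C0, c, h1, h2, h3, _, h5⟩ := card_powers f P Q d hd0 hd he.2 e he.1 ε2 hε20
      exact ⟨C0, c, h1, h2, h3, fun _ _ => h5⟩
    · exact ⟨1, 1, one_pos, one_pos, le_rfl, fun h h' => absurd ⟨h', h⟩ he⟩
  choose CE cE hCE hcE hcE1 hE2 using hE2
  set EE : Finset ℕ := Finset.Icc 2 (2 * r + 2) with hEE
  have hEEne : EE.Nonempty := ⟨2, by rw [hEE, Finset.mem_Icc]; omega⟩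
  set c' : ℝ := EE.inf' hEEne cE with hc'
  have hc'0 : 0 < c' := by
    rw [hc', Finset.lt_inf'_iff]
    intro e _; exact hcE e
  have hc'le : ∀ e ∈ EE, c' ≤ cE e := fun e he => Finset.inf'_le _ he
  set η1 : ℝ := min c' (ε0 / 16) with hη1
  have hη10 : 0 < η1 := lt_min hc'0 (by positivity)
  set M0 : ℕ := (d * f.coeff r).natAbs with hM0
  have hM0ne : M0 ≠ 0 := Int.natAbs_ne_zero.mpr (mul_ne_zero hd0 hf0)
  obtain ⟨Cb, δb, hCb, hδb, hδb2, hEb⟩ := card_bad f hf0 M0 hM0ne η1 hη10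
  set δ0 : ℝ := θ / (2 * r) with hδ0
  have hδ00 : 0 < δ0 := by positivity
  set δ : ℝ := min (min δ0 (η / 4)) (min δb c') with hδ
  have hδpos : 0 < δ := lt_min (lt_min hδ00 (by positivity)) (lt_min hδb hc'0)
  have hδδ0 : δ ≤ δ0 := (min_le_left _ _).trans (min_le_left _ _)
  have hδη : δ ≤ η / 4 := (min_le_left _ _).trans (min_le_right _ _)
  have hδδb : δ ≤ δb := (min_le_right _ _).trans (min_le_left _ _)
  have hδc' : δ ≤ c' := (min_le_right _ _).trans (min_le_right _ _)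
  set Cs : ℝ := csum r f with hCs
  have hCs0 : 0 ≤ Cs := csum_nonneg _ _
  set E0 : ℝ := 3 + 8 / (3 * g) with hE0
  have hE03 : 3 ≤ E0 := by
    have : 0 < 8 / (3 * g) := by positivity
    rw [hE0]; linarith
  set U0 : ℝ := (Cs + 2) ^ E0 with hU0
  have hU00 : 0 < U0 := Real.rpow_pos_of_pos (by linarith) _
  set CEs : ℝ := ∑ e ∈ EE, CE e with hCEs
  have hCEs0 : 0 ≤ CEs := Finset.sum_nonneg (fun e _ => (hCE e).le)
  refine ⟨3 * U0 + (3 * r + (C1 + (Cb + CEs))), δ, by positivity, hδpos, hδδb.trans hδb2, ?_⟩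
  intro A B hB hBA hAκ T hT hTw
  have hA : 1 ≤ A := hB.trans hBA
  have hA1 : (1 : ℝ) ≤ (A : ℝ) := by exact_mod_cast hA
  have hB1 : (1 : ℝ) ≤ (B : ℝ) := by exact_mod_cast hB
  have hBAR : (B : ℝ) ≤ (A : ℝ) := by exact_mod_cast hBA
  have hA0 : (0 : ℝ) < (A : ℝ) := by linarith
  set U : ℝ := (A : ℝ) * B with hUdef
  have hU1 : 1 ≤ U := by rw [hUdef]; nlinarith
  have hUpos : 0 < U := by linarith
  have hUA : U ≤ (A : ℝ) ^ (2 : ℝ) := by
    have h2 : (A : ℝ) ^ (2 : ℝ) = (A : ℝ) * A := by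
      rw [Real.rpow_two]; ring
    rw [h2, hUdef]; nlinarith
  have hAU : (A : ℝ) ≤ U := by rw [hUdef]; nlinarith
  have hUδ1 : 1 ≤ U ^ (1 - δ) := Real.one_le_rpow hU1 (by linarith)
  have hUδ0 : 0 ≤ U ^ (1 - δ) := by linarith
  rcases lt_or_ge U U0 with hUU | hUU
  · have h1 : (T.card : ℝ) ≤ ((box A B).card : ℝ) := by exact_mod_cast Finset.card_le_card hT
    have h2 := card_box_le (A := A) (B := B) hA
    have h3 : 3 * U0 * 1 ≤ (3 * U0 + (3 * r + (C1 + (Cb + CEs)))) * U ^ (1 - δ) := by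
      apply mul_le_mul _ hUδ1 zero_le_one (by positivity)
      have : 0 ≤ 3 * (r : ℝ) + (C1 + (Cb + CEs)) := by positivity
      linarith
    linarith
  have hUbig : ∀ x : ℝ, x ≤ E0 → (Cs + 2) ^ x ≤ U := by
    intro x hx
    exact (Real.rpow_le_rpow_of_exponent_le (by linarith) hx).trans hUU
  have hUCs : Cs + 2 ≤ U := by
    have := hUbig 1 (by linarith)
    rwa [Real.rpow_one] at this
  have hU2 : 2 ≤ U := by linarith
  have hU1' : 1 < U := by linarith
  set Φ : ℤ × ℤ → ℤ := fun w => hev r f w.1 w.2 with hΦ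
  set T0 := T.filter (fun w => |((Φ w : ℤ) : ℝ)| < (A : ℝ) ^ ((r : ℝ) - θ)) with hT0
  set T1 := T.filter (fun w => ∃ D : ℕ, Squareful D ∧ Nat.Coprime D M0 ∧
        U ^ η ≤ (D : ℝ) ∧ (D : ℝ) ≤ U ^ (2 - 2 * η) ∧ (D : ℤ) ∣ Φ w) with hT1
  set Tb := T.filter (fun w => U ^ η1 < ((∏ p ∈ (Φ w).natAbs.primeFactors.filter
    (fun p => p ∣ M0), p ^ (Φ w).natAbs.factorization p : ℕ) : ℝ)) with hTb
  set T2 : ℕ → Finset (ℤ × ℤ) := fun e => T.filter (fun w => 2 ≤ r ∧
    (A : ℝ) ^ ((r : ℝ) - ε2 / 16) ≤ |((Φ w : ℤ) : ℝ)| ∧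
        ∃ m0 m1 y : ℕ, 1 ≤ m0 ∧ (m0 : ℝ) ≤ U ^ c' ∧ 1 ≤ m1 ∧
          (m1 : ℝ) ≤ U ^ (1 - ε2) ∧
          Nat.Coprime m1 M0 ∧ 1 ≤ y ∧
          (Φ w).natAbs = m0 * m1 * y ^ e) with hT2
  have hcover : T ⊆ T0 ∪ (T1 ∪ (Tb ∪ EE.biUnion T2)) := by
    intro w hw
    obtain ⟨hcop, hne, hrad⟩ := hTw w hw
    rw [Finset.mem_union, Finset.mem_union, Finset.mem_union, Finset.mem_biUnion]
    by_cases h0 : |((Φ w : ℤ) : ℝ)| < (A : ℝ) ^ ((r : ℝ) - θ)
    · left; rw [hT0, Finset.mem_filter]; exact ⟨hw, h0⟩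
    push Not at h0
    right
    by_cases h1 : ∃ D : ℕ, Squareful D ∧ Nat.Coprime D M0 ∧
        U ^ η ≤ (D : ℝ) ∧ (D : ℝ) ≤ U ^ (2 - 2 * η) ∧ (D : ℤ) ∣ Φ w
    · left; rw [hT1, Finset.mem_filter]; exact ⟨hw, h1⟩
    right
    by_cases hb : U ^ η1 < ((∏ p ∈ (Φ w).natAbs.primeFactors.filter
      (fun p => p ∣ M0), p ^ (Φ w).natAbs.factorization p : ℕ) : ℝ)
    · left; rw [hTb, Finset.mem_filter]; exact ⟨hw, hb⟩
    right
    push Not at hb
    set n := (Φ w).natAbs with hn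
    have hn0 : n ≠ 0 := Int.natAbs_ne_zero.mpr hne
    have hnR : (n : ℝ) = |((Φ w : ℤ) : ℝ)| := by
      rw [hn, Nat.cast_natAbs]; push_cast; rfl
    set N : ℝ := ((∏ p ∈ n.primeFactors, p : ℕ) : ℝ) with hN
    have hrad1 : N < (A : ℝ) ^ ((r : ℝ) - ε) := hrad
    have hnle : (n : ℝ) ≤ Cs * (A : ℝ) ^ r := by
      have hbx := mem_box.mp (hT hw)
      rw [hnR]
      apply abs_hev_le
      · rw [abs_le]
        exact ⟨by exact_mod_cast hbx.1.1, by exact_mod_cast hbx.1.2⟩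
      · have e1 : (0 : ℝ) ≤ (w.2 : ℝ) := by
          have : (0 : ℤ) ≤ w.2 := by linarith [hbx.2.1]
          exact_mod_cast this
        rw [abs_of_nonneg e1]
        have e2 : (w.2 : ℝ) ≤ (B : ℝ) := by exact_mod_cast hbx.2.2
        linarith
    have hdec := decomp2 (n := n) (M0 := M0) hn0 (y := U ^ (1 - η)) (Y1 := U ^ η)
      (Y2 := U ^ (2 - 2 * η)) (Yb := U ^ η1)
      (Real.one_lt_rpow hU1' hη0) (Real.one_le_rpow hU1 hη10.le) (Real.rpow_nonneg hUpos.le _)
      (by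
        rw [← Real.rpow_natCast, ← Real.rpow_mul hUpos.le]
        apply Real.rpow_le_rpow_of_exponent_le hU1
        push_cast; linarith)
      (by
        rw [← Real.rpow_natCast, ← Real.rpow_mul hUpos.le]
        apply Real.rpow_le_rpow_of_exponent_le hU1
        push_cast; linarith)
      (by
        intro D hDn hDs hDc hD1
        by_contra hcon
        push Not at hcon
        apply h1
        refine ⟨D, hDs, hDc, hD1, hcon, ?_⟩
        exact Int.natCast_dvd.mpr hDn)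
      hb
    rcases hdec with hii | ⟨p, e, m0, m1, hp, hpy, he, hfac, hm0, hm1, hm0U, hm1c⟩
    · exfalso
      have h2 : (A : ℝ) ^ ((r : ℝ) - θ) ≤ U ^ η1 * U ^ η * N := by
        rw [← hnR] at h0
        exact h0.trans hii
      have h3 : U ^ η1 * U ^ η ≤ (A : ℝ) ^ (2 * (η1 + η)) := by
        rw [← Real.rpow_add hUpos]
        calc U ^ (η1 + η) ≤ ((A : ℝ) ^ (2 : ℝ)) ^ (η1 + η) :=
              Real.rpow_le_rpow hUpos.le hUA (by positivity)
          _ = (A : ℝ) ^ (2 * (η1 + η)) := by rw [← Real.rpow_mul hA0.le]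
      have h4 : (A : ℝ) ^ ((r : ℝ) - θ) < (A : ℝ) ^ (2 * (η1 + η)) * (A : ℝ) ^ ((r : ℝ) - ε) := by
        have hApos : 0 < (A : ℝ) ^ (2 * (η1 + η)) := Real.rpow_pos_of_pos hA0 _
        have hN0 : 0 ≤ N := Nat.cast_nonneg _
        calc (A : ℝ) ^ ((r : ℝ) - θ) ≤ U ^ η1 * U ^ η * N := h2
          _ ≤ (A : ℝ) ^ (2 * (η1 + η)) * N := by gcongr
          _ < (A : ℝ) ^ (2 * (η1 + η)) * (A : ℝ) ^ ((r : ℝ) - ε) := by gcongr
      rw [← Real.rpow_add hA0] at h4
      have h5 : (A : ℝ) ^ (2 * (η1 + η) + ((r : ℝ) - ε)) ≤ (A : ℝ) ^ ((r : ℝ) - θ) := by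
        apply Real.rpow_le_rpow_of_exponent_le hA1
        have : η1 ≤ ε0 / 16 := min_le_right _ _
        linarith
      linarith
    · have hpR : (1 : ℝ) ≤ (p : ℝ) := by exact_mod_cast hp.one_le
      have hm1R : (1 : ℝ) ≤ (m1 : ℝ) := by exact_mod_cast Nat.one_le_iff_ne_zero.mpr hm1
      have hm1pe : (m1 : ℝ) * (p : ℝ) ^ e ≤ (n : ℝ) := by
        have h2 : m1 * p ^ e ≤ n := by
          rw [hfac, mul_assoc]
          exact Nat.le_mul_of_pos_left _ (Nat.pos_of_ne_zero hm0)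
        exact_mod_cast h2
      have hp2 : U ^ (2 - 2 * η) ≤ (p : ℝ) ^ e := by
        calc U ^ (2 - 2 * η) = (U ^ (1 - η)) ^ 2 := by
              rw [← Real.rpow_natCast, ← Real.rpow_mul hUpos.le]
              congr 1; push_cast; ring
          _ ≤ (p : ℝ) ^ 2 := by
              have := Real.rpow_nonneg hUpos.le (1 - η)
              gcongr
          _ ≤ (p : ℝ) ^ e := pow_le_pow_right₀ hpR he
      have hr2 : 2 ≤ r := by
        by_contra hcon
        have hr1 : r = 1 := by omega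
        have h2 : U ^ (2 - 2 * η) ≤ Cs * U := by
          calc U ^ (2 - 2 * η) ≤ 1 * (p : ℝ) ^ e := by rw [one_mul]; exact hp2
            _ ≤ (m1 : ℝ) * (p : ℝ) ^ e := by gcongr
            _ ≤ (n : ℝ) := hm1pe
            _ ≤ Cs * (A : ℝ) ^ r := hnle
            _ = Cs * A := by rw [hr1, pow_one]
            _ ≤ Cs * U := by gcongr
        have h3 : U ^ (1 / 2 : ℝ) * U ≤ U ^ (2 - 2 * η) := by
          have e1 : U ^ (1 / 2 : ℝ) * U = U ^ (1 / 2 + 1 : ℝ) := by
            rw [Real.rpow_add hUpos, Real.rpow_one]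
          rw [e1]
          apply Real.rpow_le_rpow_of_exponent_le hU1
          linarith
        have h4 : Cs + 2 ≤ U ^ (1 / 2 : ℝ) := by
          have h5 := hUbig 2 (by linarith)
          calc Cs + 2 = ((Cs + 2) ^ (2 : ℝ)) ^ (1 / 2 : ℝ) := by
                rw [← Real.rpow_mul (by linarith)]; norm_num
            _ ≤ U ^ (1 / 2 : ℝ) := Real.rpow_le_rpow (by positivity) h5 (by norm_num)
        nlinarith
      refine ⟨e, ?_, ?_⟩
      · rw [hEE, Finset.mem_Icc]
        refine ⟨he, ?_⟩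
        by_contra hcon
        push Not at hcon
        have h3 : (p : ℝ) ^ e ≤ (n : ℝ) := by
          refine le_trans ?_ hm1pe
          have : 0 ≤ (p : ℝ) ^ e := by positivity
          nlinarith
        have h5 : (n : ℝ) < U ^ ((r : ℝ) + 1) := by
          rw [Real.rpow_add hUpos, Real.rpow_one, Real.rpow_natCast]
          have e3 : (A : ℝ) ^ r ≤ U ^ r := by gcongr
          have e4 : 0 < U ^ r := by positivity
          calc (n : ℝ) ≤ Cs * (A : ℝ) ^ r := hnle
            _ ≤ Cs * U ^ r := by gcongr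
            _ < U * U ^ r := by
                apply mul_lt_mul_of_pos_right _ e4
                linarith
            _ = U ^ r * U := mul_comm _ _
        have h6 : U ^ ((r : ℝ) + 1) ≤ (p : ℝ) ^ e := by
          have e5 : U ^ (1 / 2 : ℝ) ≤ (p : ℝ) := by
            refine le_trans ?_ hpy.le
            apply Real.rpow_le_rpow_of_exponent_le hU1
            linarith
          calc U ^ ((r : ℝ) + 1) ≤ (U ^ (1 / 2 : ℝ)) ^ e := by
                rw [← Real.rpow_natCast, ← Real.rpow_mul hUpos.le]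
                apply Real.rpow_le_rpow_of_exponent_le hU1
                have : (2 * r + 3 : ℝ) ≤ (e : ℝ) := by
                  have : 2 * r + 3 ≤ e := by omega
                  exact_mod_cast this
                linarith
            _ ≤ (p : ℝ) ^ e := by gcongr
        linarith
      · rw [hT2, Finset.mem_filter]
        refine ⟨hw, hr2, h0, m0, m1, p, Nat.one_le_iff_ne_zero.mpr hm0, ?_,
          Nat.one_le_iff_ne_zero.mpr hm1, ?_, hm1c, hp.one_le, hfac⟩
        · refine hm0U.trans ?_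
          apply Real.rpow_le_rpow_of_exponent_le hU1
          exact min_le_left _ _
        · by_contra hcon
          push Not at hcon
          have h2 : U ^ (3 - ε2 - 2 * η) ≤ Cs * (A : ℝ) ^ r := by
            calc U ^ (3 - ε2 - 2 * η) = U ^ (1 - ε2) * U ^ (2 - 2 * η) := by
                  rw [← Real.rpow_add hUpos]; congr 1; ring
              _ ≤ (m1 : ℝ) * (p : ℝ) ^ e := by
                  have := Real.rpow_nonneg hUpos.le (2 - 2 * η)
                  have := hcon.le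
                  gcongr
              _ ≤ (n : ℝ) := hm1pe
              _ ≤ Cs * (A : ℝ) ^ r := hnle
          have h3 : (A : ℝ) ^ ((r : ℝ) + 3 * g / 4) ≤ U ^ (3 - ε2 - 2 * η) := by
            calc (A : ℝ) ^ ((r : ℝ) + 3 * g / 4) ≤ (A : ℝ) ^ (κ * (3 - ε2 - 2 * η)) := by
                  apply Real.rpow_le_rpow_of_exponent_le hA1
                  have : κ * (3 - ε2 - 2 * η) = 3 * κ - κ * ε2 - 2 * (κ * η) := by ring
                  rw [this, hg]
                  rw [hg] at hε2g hηg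
                  linarith
              _ = ((A : ℝ) ^ κ) ^ (3 - ε2 - 2 * η) := by rw [← Real.rpow_mul hA0.le]
              _ ≤ U ^ (3 - ε2 - 2 * η) := by
                  apply Real.rpow_le_rpow (Real.rpow_nonneg hA0.le _) hAκ
                  linarith
          have h4 : (A : ℝ) ^ r * (A : ℝ) ^ (3 * g / 4) ≤ (A : ℝ) ^ r * Cs := by
            rw [Real.rpow_add hA0, Real.rpow_natCast] at h3
            linarith
          have h5 : (A : ℝ) ^ (3 * g / 4) ≤ Cs := le_of_mul_le_mul_left h4 (by positivity)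
          have h6 : Cs + 2 ≤ (A : ℝ) ^ (3 * g / 4) := by
            have h7 := hUbig (8 / (3 * g)) (by rw [hE0]; linarith)
            calc Cs + 2 = ((Cs + 2) ^ (8 / (3 * g))) ^ (3 * g / 8) := by
                  rw [← Real.rpow_mul (by linarith)]
                  have : 8 / (3 * g) * (3 * g / 8) = 1 := by field_simp
                  rw [this, Real.rpow_one]
              _ ≤ U ^ (3 * g / 8) := Real.rpow_le_rpow (by positivity) h7 (by positivity)
              _ ≤ ((A : ℝ) ^ (2 : ℝ)) ^ (3 * g / 8) :=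
                  Real.rpow_le_rpow hUpos.le hUA (by positivity)
              _ = (A : ℝ) ^ (3 * g / 4) := by
                  rw [← Real.rpow_mul hA0.le]; congr 1; ring
          linarith
  have hT0le : (T0.card : ℝ) ≤ 3 * r * U ^ (1 - δ) := by
    have h1 := card_small_values f (by omega) θ hθ0 (by rw [← hrdef]; linarith) A B hA T0
      ((Finset.filter_subset _ _).trans hT) (fun w hw => (Finset.mem_filter.mp hw).2)
    refine h1.trans ?_
    rw [← hrdef]
    have hr00 : (0 : ℝ) < (r : ℝ) := by linarith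
    have h2 : (A : ℝ) ^ (1 - θ / r) * B ≤ U ^ (1 - δ) := by
      have e1 : (A : ℝ) ^ (1 - θ / r) * B = U * (A : ℝ) ^ (-(θ / r)) := by
        rw [sub_eq_add_neg, Real.rpow_add hA0, Real.rpow_one, hUdef]; ring
      have e2 : (A : ℝ) ^ (-(θ / r)) ≤ U ^ (-δ0) := by
        have e3 : (A : ℝ) ^ (-(θ / r)) = ((A : ℝ) ^ (2 : ℝ)) ^ (-δ0) := by
          rw [← Real.rpow_mul hA0.le, hδ0]
          congr 1
          field_simp
        rw [e3]
        apply Real.rpow_le_rpow_of_nonpos hUpos hUA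
        linarith
      rw [e1]
      calc U * (A : ℝ) ^ (-(θ / r)) ≤ U * U ^ (-δ0) := by gcongr
        _ = U ^ (1 - δ0) := by rw [sub_eq_add_neg, Real.rpow_add hUpos, Real.rpow_one]
        _ ≤ U ^ (1 - δ) := Real.rpow_le_rpow_of_exponent_le hU1 (by linarith)
    gcongr
  have hT1le : (T1.card : ℝ) ≤ C1 * U ^ (1 - δ) := by
    have h1 := hE1 A B hA hB T1 ((Finset.filter_subset _ _).trans hT) (by
      intro w hw
      have h2 := Finset.mem_filter.mp hw
      exact ⟨(hTw w h2.1).1, h2.2⟩)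
    refine h1.trans ?_
    have h2 : U ^ (1 - η / 4) ≤ U ^ (1 - δ) :=
      Real.rpow_le_rpow_of_exponent_le hU1 (by linarith)
    gcongr
  have hTble : (Tb.card : ℝ) ≤ Cb * U ^ (1 - δ) := by
    have h1 := hEb A B hB hBA Tb ((Finset.filter_subset _ _).trans hT) (by
      intro w hw
      have h2 := Finset.mem_filter.mp hw
      exact ⟨(hTw w h2.1).2.1, h2.2⟩)
    refine h1.trans ?_
    have h2 : U ^ (1 - δb) ≤ U ^ (1 - δ) :=
      Real.rpow_le_rpow_of_exponent_le hU1 (by linarith)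
    gcongr
  have hT2le : ∀ e ∈ EE, ((T2 e).card : ℝ) ≤ CE e * U ^ (1 - δ) := by
    intro e he
    by_cases hr2 : 2 ≤ r
    · have h1 := hE2 e hr2 (Finset.mem_Icc.mp he).1 A B hB hBA (T2 e)
        ((Finset.filter_subset _ _).trans hT) (by
          intro w hw
          obtain ⟨h2, _, h3, m0, m1, y, h4, h5, h6⟩ := Finset.mem_filter.mp hw
          refine ⟨(hTw w h2).1, h3, m0, m1, y, h4, ?_, h6⟩
          exact h5.trans (Real.rpow_le_rpow_of_exponent_le hU1 (hc'le e he)))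
      refine h1.trans ?_
      have h2 : U ^ (1 - cE e) ≤ U ^ (1 - δ) := by
        apply Real.rpow_le_rpow_of_exponent_le hU1
        have := hc'le e he
        linarith
      have := (hCE e).le
      gcongr
    · have h1 : T2 e = ∅ := by
        rw [hT2, Finset.filter_eq_empty_iff]
        intro w _ h
        exact hr2 h.1
      rw [h1, Finset.card_empty, Nat.cast_zero]
      exact mul_nonneg (hCE e).le hUδ0
  have hbi : ((EE.biUnion T2).card : ℝ) ≤ CEs * U ^ (1 - δ) := by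
    calc ((EE.biUnion T2).card : ℝ) ≤ ∑ e ∈ EE, ((T2 e).card : ℝ) := by
          exact_mod_cast Finset.card_biUnion_le
      _ ≤ ∑ e ∈ EE, CE e * U ^ (1 - δ) := Finset.sum_le_sum hT2le
      _ = CEs * U ^ (1 - δ) := by rw [hCEs, Finset.sum_mul]
  have hfin : (T.card : ℝ) ≤ T0.card + (T1.card + (Tb.card + (EE.biUnion T2).card)) := by
    have h1 := Finset.card_le_card hcover
    have h2 := Finset.card_union_le T0 (T1 ∪ (Tb ∪ EE.biUnion T2))
    have h3 := Finset.card_union_le T1 (Tb ∪ EE.biUnion T2)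
    have h4 := Finset.card_union_le Tb (EE.biUnion T2)
    have h5 : T.card ≤ T0.card + (T1.card + (Tb.card + (EE.biUnion T2).card)) := by omega
    exact_mod_cast h5
  have h9 : 0 ≤ 3 * U0 * U ^ (1 - δ) := by positivity
  linarith

end Pool.Agent.Lib.MP_d8bd92_nt
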