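import Pool.Agent.Lib.MP_d8bd92_nt.FamMain
import Pool.Agent.Lib.MP_d8bd92_nt.FamSmall
import Pool.Agent.Lib.MP_d8bd92_nt.FamPow2

set_option autoImplicit false

namespace Pool.Agent.Lib.MP_d8bd92_nt

open Finset Polynomial UniqueFactorizationMonoid

/-- The product of the radicals of numbers which are pairwise coprime and divide `D`, up to the
primes of `M`. -/
theorem prod_rad_le {ι : Type*} (I : Finset ι) (n : ι → ℕ) (M D : ℕ) (hM : M ≠ 0) (hD : D ≠ 0)
    (h1 : ∀ p : ℕ, p.Prime → ¬ p ∣ M → ∀ i ∈ I, p ∣ n i → p ∣ D)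
    (h2 : ∀ p : ℕ, p.Prime → ¬ p ∣ M → ∀ i ∈ I, ∀ j ∈ I, p ∣ n i → p ∣ n j → i = j) :
    ∏ i ∈ I, (∏ p ∈ (n i).primeFactors, p) ≤ M ^ I.card * ∏ p ∈ D.primeFactors, p := by
  classical
  have h3 : ∀ i ∈ I, (∏ p ∈ (n i).primeFactors, p) ≤
      M * ∏ p ∈ (n i).primeFactors.filter (fun p => ¬ p ∣ M), p := by
    intro i _
    have e1 := Finset.prod_filter_mul_prod_filter_not (n i).primeFactors (fun p => p ∣ M) (fun p => p)
    rw [← e1]
    apply Nat.mul_le_mul_right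
    apply Nat.le_of_dvd (Nat.pos_of_ne_zero hM)
    refine dvd_trans ?_ (Nat.prod_primeFactors_dvd M)
    apply Finset.prod_dvd_prod_of_subset
    intro p hp
    rw [Finset.mem_filter] at hp
    exact Nat.mem_primeFactors.mpr ⟨Nat.prime_of_mem_primeFactors hp.1, hp.2, hM⟩
  refine (Finset.prod_le_prod' h3).trans ?_
  rw [Finset.prod_mul_distrib, Finset.prod_const]
  apply Nat.mul_le_mul_left
  rw [← Finset.prod_biUnion]
  · apply Nat.le_of_dvd
    · exact Finset.prod_pos (fun p hp => (Nat.prime_of_mem_primeFactors hp).pos)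
    · apply Finset.prod_dvd_prod_of_subset
      intro p hp
      rw [Finset.mem_biUnion] at hp
      obtain ⟨i, hi, hp⟩ := hp
      rw [Finset.mem_filter] at hp
      have hpp := Nat.prime_of_mem_primeFactors hp.1
      exact Nat.mem_primeFactors.mpr ⟨hpp, h1 p hpp hp.2 i hi (Nat.dvd_of_mem_primeFactors hp.1), hD⟩
  · intro i hi j hj hij
    rw [Function.onFun, Finset.disjoint_left]
    intro p hp hp'
    rw [Finset.mem_filter] at hp hp'
    have hpp := Nat.prime_of_mem_primeFactors hp.1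
    exact hij (h2 p hpp hp.2 i hi j hj (Nat.dvd_of_mem_primeFactors hp.1)
      (Nat.dvd_of_mem_primeFactors hp'.1))

/-- integral data attached to the irreducible factors -/
theorem exists_factor_data (J : ℤ[X]) (hJ : J ≠ 0) (F : Finset ℚ[X])
    (hF : ∀ p ∈ F, p ∈ normalizedFactors (J.map (Int.castRingHom ℚ))) :
    ∃ (R : ℚ[X] → ℤ[X]) (M : ℕ), M ≠ 0 ∧
      (∀ p ∈ F, R p ∣ J ∧ (R p).natDegree = p.natDegree ∧ 1 ≤ p.natDegree ∧
        ∃ (P Q : ℤ[X]) (d : ℤ), d ≠ 0 ∧ P * R p + Q * derivative (R p) = C d) ∧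
      ∀ p ∈ F, ∀ q ∈ F, ∀ a b : ℤ, IsCoprime a b → ∀ l : ℕ, l.Prime → ¬ l ∣ M →
        l ∣ (hev (R p).natDegree (R p) a b).natAbs → l ∣ (hev (R q).natDegree (R q) a b).natAbs →
        p = q := by
  classical
  set φ := Int.castRingHom ℚ with hφ
  have hJq : J.map φ ≠ 0 := by
    intro h
    apply hJ
    apply map_cast_injective
    rw [← hφ, h, Polynomial.map_zero]
  have hex : ∀ p : ℚ[X], ∃ R : ℤ[X], p ∈ F → (R.IsPrimitive ∧ ∃ u : ℚ, u ≠ 0 ∧ R.map φ = C u * p) := by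
    intro p
    by_cases hp : p ∈ F
    · have h1 : p ≠ 0 := (irreducible_of_normalized_factor p (hF p hp)).ne_zero
      obtain ⟨R, hR⟩ := exists_primitive p h1
      exact ⟨R, fun _ => hR⟩
    · exact ⟨0, fun h => absurd h hp⟩
  choose R hR using hex
  have hassoc : ∀ p ∈ F, Associated p ((R p).map φ) := by
    intro p hp
    obtain ⟨_, u, hu, hRu⟩ := hR p hp
    have hCu : IsUnit (C u : ℚ[X]) := isUnit_C.mpr (isUnit_iff_ne_zero.mpr hu)
    rw [hRu]
    exact (associated_unit_mul_left p _ hCu).symm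
  have hcopR : ∀ p ∈ F, ∀ q ∈ F, p ≠ q → IsCoprime ((R p).map φ) ((R q).map φ) := by
    intro p hp q hq hpq
    have hip := irreducible_of_normalized_factor p (hF p hp)
    have hiq := irreducible_of_normalized_factor q (hF q hq)
    have hcop : IsCoprime p q := by
      apply (hip.coprime_iff_not_dvd).mpr
      intro hdvd
      have h1 : Associated p q := hip.associated_of_dvd hiq hdvd
      have h2 : p = q := by
        have e1 := normalize_normalized_factor p (hF p hp)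
        have e2 := normalize_normalized_factor q (hF q hq)
        rw [← e1, ← e2]
        exact normalize_eq_normalize_iff_associated.mpr h1
      exact hpq h2
    obtain ⟨_, u, hu, hRu⟩ := hR p hp
    obtain ⟨_, v, hv, hRv⟩ := hR q hq
    have hCu : IsUnit (C u : ℚ[X]) := isUnit_C.mpr (isUnit_iff_ne_zero.mpr hu)
    have hCv : IsUnit (C v : ℚ[X]) := isUnit_C.mpr (isUnit_iff_ne_zero.mpr hv)
    rw [hRu, hRv]
    exact (isCoprime_mul_unit_left_left hCu _ _).mpr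
      ((isCoprime_mul_unit_left_right hCv _ _).mpr hcop)
  have hbez : ∀ p q : ℚ[X], ∃ ρ : ℤ, ρ ≠ 0 ∧ (p ∈ F → q ∈ F → p ≠ q →
      ∃ (P Q : ℤ[X]), P * R p + Q * R q = C ρ) := by
    intro p q
    by_cases h : p ∈ F ∧ q ∈ F ∧ p ≠ q
    · obtain ⟨P, Q, ρ, hρ, hPQ⟩ := exists_bezout_int (R p) (R q) (hcopR p h.1 q h.2.1 h.2.2)
      exact ⟨ρ, hρ, fun _ _ _ => ⟨P, Q, hPQ⟩⟩
    · exact ⟨1, one_ne_zero, fun h1 h2 h3 => absurd ⟨h1, h2, h3⟩ h⟩
  choose ρ hρ0 hρ using hbez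
  have hR0 : ∀ p ∈ F, R p ≠ 0 := by
    intro p hp
    exact (hR p hp).1.ne_zero
  set M : ℕ := (∏ p ∈ F, (R p).leadingCoeff.natAbs) * ∏ p ∈ F, ∏ q ∈ F, (ρ p q).natAbs with hM
  refine ⟨R, M, ?_, ?_, ?_⟩
  · rw [hM]
    apply mul_ne_zero
    · apply Finset.prod_ne_zero_iff.mpr
      intro p hp
      exact Int.natAbs_ne_zero.mpr (leadingCoeff_ne_zero.mpr (hR0 p hp))
    · apply Finset.prod_ne_zero_iff.mpr
      intro p _
      apply Finset.prod_ne_zero_iff.mpr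
      intro q _
      exact Int.natAbs_ne_zero.mpr (hρ0 p q)
  · intro p hp
    have hirr := irreducible_of_normalized_factor p (hF p hp)
    obtain ⟨hprim, u, hu, hRu⟩ := hR p hp
    have hdeg : (R p).natDegree = p.natDegree := by
      rw [← natDegree_map_eq_of_injective φ.injective_int (R p), hRu, natDegree_C_mul hu]
    refine ⟨?_, hdeg, hirr.natDegree_pos, ?_⟩
    · rw [IsPrimitive.Int.dvd_iff_map_cast_dvd_map_cast (R p) J hprim]
      exact (hassoc p hp).symm.dvd.trans (dvd_of_mem_normalizedFactors (hF p hp))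
    · have hsq : Squarefree ((R p).map φ) :=
        (hassoc p hp).squarefree_iff.mp hirr.squarefree
      have hsep : ((R p).map φ).Separable := PerfectField.separable_iff_squarefree.mpr hsq
      have hcop : IsCoprime ((R p).map φ) ((derivative (R p)).map φ) := by
        rw [← Polynomial.derivative_map]; exact hsep
      obtain ⟨P, Q, d, hd, hPQ⟩ := exists_bezout_int (R p) (derivative (R p)) hcop
      exact ⟨P, Q, d, hd, hPQ⟩
  · intro p hp q hq a b hab l hl hlM h1 h2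
    by_contra hpq
    obtain ⟨P, Q, hPQ⟩ := hρ p q hp hq hpq
    have h1' : (l : ℤ) ∣ hev (R p).natDegree (R p) a b := Int.natCast_dvd.mpr h1
    have h2' : (l : ℤ) ∣ hev (R q).natDegree (R q) a b := Int.natCast_dvd.mpr h2
    apply hlM
    by_cases hlb : (l : ℤ) ∣ b
    · have h3 := prime_dvd_coeff_of_dvd _ (R p) a b l (Nat.prime_iff_prime_int.mp hl) hab hlb h1'
      have h4 : l ∣ (R p).leadingCoeff.natAbs := Int.natCast_dvd.mp h3
      exact (h4.trans (Finset.dvd_prod_of_mem (fun p => (R p).leadingCoeff.natAbs) hp)).mul_right _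
    · have h3 := prime_dvd_bezout (R p) (R q) P Q (ρ p q) hPQ _ _ le_rfl le_rfl a b l hl hlb h1' h2'
      have h4 : l ∣ (ρ p q).natAbs := Int.natCast_dvd.mp h3
      have h5 : (ρ p q).natAbs ∣ ∏ q ∈ F, (ρ p q).natAbs :=
        Finset.dvd_prod_of_mem (fun q => (ρ p q).natAbs) hq
      have h6 : ∏ q ∈ F, (ρ p q).natAbs ∣ ∏ p ∈ F, ∏ q ∈ F, (ρ p q).natAbs :=
        Finset.dvd_prod_of_mem (fun p => ∏ q ∈ F, (ρ p q).natAbs) hp
      exact ((h4.trans h5).trans h6).mul_left _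

/-- the exponent of an irreducible factor of degree `n` -/
noncomputable def phi (κ : ℝ) (n : ℕ) : ℝ := if (n : ℝ) < 3 * κ then (n : ℝ) else 2 * κ

/-- lower bound for the radical of a form, in the uniform shape used below -/
theorem radical_lower_phi (f P Q : ℤ[X]) (d : ℤ) (hd0 : d ≠ 0)
    (hd : P * f + Q * derivative f = C d) (hr : 1 ≤ f.natDegree) (κ : ℝ) (hκ : 1 ≤ κ)
    (ε : ℝ) (hε : 0 < ε) (hε2 : ε ≤ 2) :
    ∃ C0 δ : ℝ, 0 < C0 ∧ 0 < δ ∧ δ ≤ 1 / 2 ∧ ∀ A B : ℕ, 1 ≤ B → B ≤ A →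
      (A : ℝ) ^ κ ≤ (A : ℝ) * B →
      ∀ T : Finset (ℤ × ℤ), T ⊆ box A B →
      (∀ w ∈ T, IsCoprime w.1 w.2 ∧ hev f.natDegree f w.1 w.2 ≠ 0 ∧
        ((∏ p ∈ (hev f.natDegree f w.1 w.2).natAbs.primeFactors, p : ℕ) : ℝ) <
          (A : ℝ) ^ (phi κ f.natDegree - κ * ε)) →
      (T.card : ℝ) ≤ C0 * ((A : ℝ) * B) ^ (1 - δ) := by
  by_cases h : (f.natDegree : ℝ) < 3 * κ
  · obtain ⟨C0, δ, h1, h2, h3, h4⟩ := radical_lower_small f P Q d hd0 hd hr κ hκ h ε hε
    refine ⟨C0, δ, h1, h2, h3, ?_⟩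
    intro A B hB hBA hAκ T hT hTw
    apply h4 A B hB hBA hAκ T hT
    intro w hw
    obtain ⟨e1, e2, e3⟩ := hTw w hw
    refine ⟨e1, e2, lt_of_lt_of_le e3 ?_⟩
    have hA1 : (1 : ℝ) ≤ (A : ℝ) := by exact_mod_cast hB.trans hBA
    apply Real.rpow_le_rpow_of_exponent_le hA1
    rw [phi, if_pos h]
    nlinarith
  · have hge : 3 * κ ≤ (f.natDegree : ℝ) := not_lt.mp h
    have hr2 : 2 ≤ f.natDegree := by
      have h5 : (2 : ℝ) ≤ (f.natDegree : ℝ) := by linarith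
      exact_mod_cast h5
    obtain ⟨C0, δ, h1, h2, h3, h4⟩ := radical_lower f P Q d hd0 hd hr2 ε hε
    refine ⟨C0, δ, h1, h2, h3, ?_⟩
    intro A B hB hBA hAκ T hT hTw
    apply h4 A B hB hBA T hT
    intro w hw
    obtain ⟨e1, e2, e3⟩ := hTw w hw
    refine ⟨e1, e2, lt_of_lt_of_le e3 ?_⟩
    have hA1 : (1 : ℝ) ≤ (A : ℝ) := by exact_mod_cast hB.trans hBA
    have hA0 : (0 : ℝ) < (A : ℝ) := by linarith
    rw [phi, if_neg h]
    apply le_min
    · apply Real.rpow_le_rpow_of_exponent_le hA1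
      nlinarith
    · calc (A : ℝ) ^ (2 * κ - κ * ε) = ((A : ℝ) ^ κ) ^ (2 - ε) := by
            rw [← Real.rpow_mul hA0.le]; congr 1; ring
        _ ≤ ((A : ℝ) * B) ^ (2 - ε) :=
            Real.rpow_le_rpow (Real.rpow_nonneg hA0.le _) hAκ (by linarith)

theorem phi_pos (κ : ℝ) (hκ : 1 ≤ κ) (n : ℕ) (hn : 1 ≤ n) : 0 < phi κ n := by
  unfold phi
  split_ifs
  · have : (1 : ℝ) ≤ (n : ℝ) := by exact_mod_cast hn
    linarith
  · linarith

theorem phi_le (κ : ℝ) (hκ : 1 ≤ κ) (n : ℕ) : phi κ n ≤ 3 * κ := by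
  unfold phi
  split_ifs with h
  · exact h.le
  · linarith

/-- the analytic core -/
theorem core_bound (J : ℤ[X]) (hJ : J ≠ 0) (m : ℕ) (hm2 : J.natDegree ≤ m) (hmpos : 0 < m)
    (ρ0 : ℕ) (hρ0 : ρ0 ≠ 0) (F : Finset ℚ[X])
    (hF : ∀ p ∈ F, p ∈ normalizedFactors (J.map (Int.castRingHom ℚ)))
    (κ σ ε : ℝ) (hκ : 1 ≤ κ) (hσ0 : 0 < σ) (hε : 0 < ε)
    (hS : (m : ℝ) ≤ σ * ∑ p ∈ F, phi κ p.natDegree) :
    ∃ C0 δ : ℝ, 0 < C0 ∧ 0 < δ ∧ δ ≤ 1 / 2 ∧ ∀ A B : ℕ, 1 ≤ B → B ≤ A →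
      (A : ℝ) ^ κ ≤ (A : ℝ) * B →
      ∀ T : Finset (ℤ × ℤ), T ⊆ box A B →
      (∀ w ∈ T, IsCoprime w.1 w.2 ∧ ∃ D ρ : ℤ, D ≠ 0 ∧ ρ ≠ 0 ∧ hev m J w.1 w.2 = ρ * D ∧
        (∀ p : ℕ, p.Prime → p ∣ ρ.natAbs → p ∣ ρ0) ∧
        ((∏ p ∈ D.natAbs.primeFactors, p : ℕ) : ℝ) ^ (σ + ε) < (D.natAbs : ℝ)) →
      (T.card : ℝ) ≤ C0 * ((A : ℝ) * B) ^ (1 - δ) := by
  classical
  obtain ⟨R, M, hM, hRd, hRc⟩ := exists_factor_data J hJ F hF
  set S : ℝ := ∑ p ∈ F, phi κ p.natDegree with hSdef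
  have hmR : (1 : ℝ) ≤ (m : ℝ) := by exact_mod_cast hmpos
  have hS0 : 0 < S := by
    by_contra hcon
    push Not at hcon
    nlinarith
  have hFne : F.Nonempty := by
    by_contra hcon
    rw [Finset.not_nonempty_iff_eq_empty] at hcon
    rw [hSdef, hcon, Finset.sum_empty] at hS0
    exact lt_irrefl _ hS0
  set k : ℕ := F.card with hk
  have hk1 : 1 ≤ k := Finset.card_pos.mpr hFne
  have hkR : (1 : ℝ) ≤ (k : ℝ) := by exact_mod_cast hk1
  have hSk : S ≤ 3 * κ * k := by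
    calc S ≤ ∑ _p ∈ F, 3 * κ := Finset.sum_le_sum (fun p _ => phi_le κ hκ _)
      _ = 3 * κ * k := by rw [Finset.sum_const, nsmul_eq_mul, hk]; ring
  have hκ0 : 0 < κ := by linarith
  set ε' : ℝ := S * ε / (2 * k * κ * (σ + ε)) with hε'
  have hε'0 : 0 < ε' := by positivity
  have hε'2 : ε' ≤ 2 := by
    rw [hε', div_le_iff₀ (by positivity)]
    have h1 : S * ε ≤ 3 * κ * k * ε := by gcongr
    have h2 : 0 ≤ κ * k * σ := by positivity
    have h3 : 0 ≤ κ * k * ε := by positivity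
    nlinarith
  have hε'k : k * (κ * ε') * (σ + ε) = S * ε / 2 := by
    rw [hε']; field_simp
  -- bounds for every factor
  have hall : ∀ p : ℚ[X], ∃ C0 δ : ℝ, 0 < C0 ∧ 0 < δ ∧ δ ≤ 1 / 2 ∧ (p ∈ F → ∀ A B : ℕ,
      1 ≤ B → B ≤ A → (A : ℝ) ^ κ ≤ (A : ℝ) * B →
      ∀ T : Finset (ℤ × ℤ), T ⊆ box A B →
      (∀ w ∈ T, IsCoprime w.1 w.2 ∧ hev (R p).natDegree (R p) w.1 w.2 ≠ 0 ∧
        ((∏ l ∈ (hev (R p).natDegree (R p) w.1 w.2).natAbs.primeFactors, l : ℕ) : ℝ) <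
          (A : ℝ) ^ (phi κ p.natDegree - κ * ε')) →
      (T.card : ℝ) ≤ C0 * ((A : ℝ) * B) ^ (1 - δ)) := by
    intro p
    by_cases hp : p ∈ F
    · obtain ⟨_, hdeg, hdeg1, P, Q, d, hd, hPQ⟩ := hRd p hp
      obtain ⟨C0, δ, h1, h2, h3, h4⟩ := radical_lower_phi (R p) P Q d hd hPQ
        (by rw [hdeg]; exact hdeg1) κ hκ ε' hε'0 hε'2
      refine ⟨C0, δ, h1, h2, h3, fun _ => ?_⟩
      rw [hdeg] at h4 ⊢
      exact h4
    · exact ⟨1, 1 / 2, one_pos, by norm_num, le_rfl, fun h => absurd h hp⟩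
  choose CC δδ hCC hδδ hδδ2 hall using hall
  set δ : ℝ := F.inf' hFne δδ with hδ
  have hδ0 : 0 < δ := by
    rw [hδ, Finset.lt_inf'_iff]
    intro p _; exact hδδ p
  have hδle : ∀ p ∈ F, δ ≤ δδ p := fun p hp => Finset.inf'_le _ hp
  have hδ2 : δ ≤ 1 / 2 := by
    obtain ⟨p, hp⟩ := hFne
    exact (hδle p hp).trans (hδδ2 p)
  set Cs : ℝ := csum m J with hCs
  have hCs0 : 0 ≤ Cs := csum_nonneg _ _
  set M' : ℕ := M * ρ0 with hM'
  have hM'0 : M' ≠ 0 := mul_ne_zero hM hρ0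
  have hM'R : (1 : ℝ) ≤ (M' : ℝ) := by exact_mod_cast Nat.one_le_iff_ne_zero.mpr hM'0
  have hM'k : (1 : ℝ) ≤ (M' : ℝ) ^ k := one_le_pow₀ hM'R
  set Kc : ℝ := ((M' : ℝ) ^ k) ^ (σ + ε) * (Cs + 1) with hKc
  have hKc1 : 1 ≤ Kc := by
    have h1 := Real.one_le_rpow hM'k (by linarith : (0 : ℝ) ≤ σ + ε)
    nlinarith
  set A0 : ℝ := Kc ^ (2 / (S * ε)) with hA0def
  have hA01 : 1 ≤ A0 := Real.one_le_rpow hKc1 (by positivity)
  set CS : ℝ := ∑ p ∈ F, CC p with hCS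
  have hCS0 : 0 < CS := Finset.sum_pos (fun p _ => hCC p) hFne
  refine ⟨CS + 3 * (A0 * A0), δ, by positivity, hδ0, hδ2, ?_⟩
  intro A B hB hBA hAκ T hT hTw
  have hA : 1 ≤ A := hB.trans hBA
  have hA1 : (1 : ℝ) ≤ (A : ℝ) := by exact_mod_cast hA
  have hB1 : (1 : ℝ) ≤ (B : ℝ) := by exact_mod_cast hB
  have hBAR : (B : ℝ) ≤ (A : ℝ) := by exact_mod_cast hBA
  have hApos : (0 : ℝ) < (A : ℝ) := by linarith
  set U : ℝ := (A : ℝ) * B with hUdef
  have hU1 : 1 ≤ U := by rw [hUdef]; nlinarith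
  have hUpos : 0 < U := by linarith
  have hUδ1 : 1 ≤ U ^ (1 - δ) := Real.one_le_rpow hU1 (by linarith)
  have hUδ0 : 0 ≤ U ^ (1 - δ) := by linarith
  rcases lt_or_ge (A : ℝ) A0 with hAA | hAA
  · have h1 : (T.card : ℝ) ≤ ((box A B).card : ℝ) := by exact_mod_cast Finset.card_le_card hT
    have h2 := card_box_le (A := A) (B := B) hA
    have h3 : U ≤ A0 * A0 := by
      rw [hUdef]
      apply mul_le_mul hAA.le (hBAR.trans hAA.le) (by linarith) (by linarith)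
    have h4 : 3 * (A0 * A0) * 1 ≤ (CS + 3 * (A0 * A0)) * U ^ (1 - δ) := by
      apply mul_le_mul _ hUδ1 zero_le_one (by positivity)
      linarith
    linarith
  set Φ : ℚ[X] → ℤ × ℤ → ℤ := fun p w => hev (R p).natDegree (R p) w.1 w.2 with hΦ
  set TT : ℚ[X] → Finset (ℤ × ℤ) := fun p => T.filter (fun w => Φ p w ≠ 0 ∧
      ((∏ l ∈ (Φ p w).natAbs.primeFactors, l : ℕ) : ℝ) <
          (A : ℝ) ^ (phi κ p.natDegree - κ * ε')) with hTT
  have hcover : T ⊆ F.biUnion TT := by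
    intro w hw
    obtain ⟨hco, D, ρ, hD, hρ, hJw, hρρ, hbig⟩ := hTw w hw
    rw [Finset.mem_biUnion]
    by_contra hcon
    push Not at hcon
    have hJ0 : hev m J w.1 w.2 ≠ 0 := by rw [hJw]; exact mul_ne_zero hρ hD
    have hdiv : ∀ p ∈ F, Φ p w ∣ hev m J w.1 w.2 := by
      intro p hp
      obtain ⟨⟨S', hS'⟩, _⟩ := hRd p hp
      have hR0 : R p ≠ 0 := by intro h; rw [h, zero_mul] at hS'; exact hJ hS'
      have hS'0 : S' ≠ 0 := by intro h; rw [h, mul_zero] at hS'; exact hJ hS'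
      have hdeg : (R p).natDegree + S'.natDegree ≤ m := by
        rw [hS', natDegree_mul hR0 hS'0] at hm2
        exact hm2
      have h1 : m = (R p).natDegree + (m - (R p).natDegree) := by omega
      refine ⟨hev (m - (R p).natDegree) S' w.1 w.2, ?_⟩
      rw [hS']
      conv_lhs => rw [h1]
      rw [hev_mul_int _ _ _ _ le_rfl (by omega)]
    have hne : ∀ p ∈ F, Φ p w ≠ 0 := by
      intro p hp h
      have := hdiv p hp
      rw [h, zero_dvd_iff] at this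
      exact hJ0 this
    have hlow : ∀ p ∈ F, (A : ℝ) ^ (phi κ p.natDegree - κ * ε') ≤
        ((∏ l ∈ (Φ p w).natAbs.primeFactors, l : ℕ) : ℝ) := by
      intro p hp
      by_contra h
      push Not at h
      apply hcon p hp
      rw [hTT, Finset.mem_filter]
      exact ⟨hw, hne p hp, h⟩
    have hprod := prod_rad_le F (fun p => (Φ p w).natAbs) M' D.natAbs hM'0
      (Int.natAbs_ne_zero.mpr hD)
      (by
        intro l hl hlM p hp hlp
        have h1 : l ∣ (ρ * D).natAbs := by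
          rw [← hJw]
          exact hlp.trans (Int.natAbs_dvd_natAbs.mpr (hdiv p hp))
        rw [Int.natAbs_mul] at h1
        rcases hl.dvd_mul.mp h1 with h2 | h2
        · exfalso
          apply hlM
          rw [hM']
          exact (hρρ l hl h2).mul_left _
        · exact h2)
      (by
        intro l hl hlM p hp q hq h1 h2
        exact hRc p hp q hq w.1 w.2 hco l hl (fun h => hlM (by rw [hM']; exact h.mul_right _)) h1 h2)
    set N : ℕ := ∏ p ∈ D.natAbs.primeFactors, p with hN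
    have hprodR : ∏ p ∈ F, ((∏ l ∈ (Φ p w).natAbs.primeFactors, l : ℕ) : ℝ) ≤
        (M' : ℝ) ^ k * (N : ℝ) := by
      have : ((∏ p ∈ F, (∏ l ∈ (Φ p w).natAbs.primeFactors, l) : ℕ) : ℝ) ≤
          ((M' ^ k * N : ℕ) : ℝ) := by exact_mod_cast hprod
      push_cast at this ⊢
      exact this
    have hlow2 : (A : ℝ) ^ (S - k * (κ * ε')) ≤ (M' : ℝ) ^ k * (N : ℝ) := by
      refine le_trans ?_ hprodR
      have h1 : ∏ p ∈ F, (A : ℝ) ^ (phi κ p.natDegree - κ * ε') = (A : ℝ) ^ (S - k * (κ * ε')) := by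
        rw [← Real.rpow_sum_of_pos hApos]
        congr 1
        rw [Finset.sum_sub_distrib, Finset.sum_const, nsmul_eq_mul]
      rw [← h1]
      apply Finset.prod_le_prod
      · intro p _
        exact Real.rpow_nonneg hApos.le _
      · exact hlow
    have h2 : ((A : ℝ) ^ (S - k * (κ * ε'))) ^ (σ + ε) ≤ ((M' : ℝ) ^ k * (N : ℝ)) ^ (σ + ε) :=
      Real.rpow_le_rpow (Real.rpow_nonneg hApos.le _) hlow2 (by linarith)
    rw [← Real.rpow_mul hApos.le, Real.mul_rpow (by positivity) (Nat.cast_nonneg _)] at h2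
    have h3 : (A : ℝ) ^ ((m : ℝ) + S * ε / 2) ≤ (A : ℝ) ^ ((S - k * (κ * ε')) * (σ + ε)) := by
      apply Real.rpow_le_rpow_of_exponent_le hA1
      have : (S - k * (κ * ε')) * (σ + ε) = σ * S + S * ε - k * (κ * ε') * (σ + ε) := by ring
      rw [this, hε'k]
      linarith
    have hDle : (D.natAbs : ℝ) ≤ Cs * (A : ℝ) ^ m := by
      have h1 : D.natAbs ≤ (hev m J w.1 w.2).natAbs := by
        rw [hJw, Int.natAbs_mul]
        exact Nat.le_mul_of_pos_left _ (Int.natAbs_pos.mpr hρ)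
      have h2 : (((hev m J w.1 w.2).natAbs : ℕ) : ℝ) = |((hev m J w.1 w.2 : ℤ) : ℝ)| := by
        rw [Nat.cast_natAbs]; push_cast; rfl
      have hbx := mem_box.mp (hT hw)
      have h3 : |((hev m J w.1 w.2 : ℤ) : ℝ)| ≤ Cs * (A : ℝ) ^ m := by
        apply abs_hev_le
        · rw [abs_le]
          exact ⟨by exact_mod_cast hbx.1.1, by exact_mod_cast hbx.1.2⟩
        · have e1 : (0 : ℝ) ≤ (w.2 : ℝ) := by
            have : (0 : ℤ) ≤ w.2 := by linarith [hbx.2.1]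
            exact_mod_cast this
          rw [abs_of_nonneg e1]
          have e2 : (w.2 : ℝ) ≤ (B : ℝ) := by exact_mod_cast hbx.2.2
          linarith
      rw [← h2] at h3
      exact le_trans (by exact_mod_cast h1) h3
    rw [Real.rpow_add hApos, Real.rpow_natCast] at h3
    have h4 : (A : ℝ) ^ (S * ε / 2) < Kc := by
      have h5 : (A : ℝ) ^ m * (A : ℝ) ^ (S * ε / 2) < (A : ℝ) ^ m * Kc := by
        calc (A : ℝ) ^ m * (A : ℝ) ^ (S * ε / 2)
            ≤ ((M' : ℝ) ^ k) ^ (σ + ε) * (N : ℝ) ^ (σ + ε) := h3.trans h2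
          _ ≤ ((M' : ℝ) ^ k) ^ (σ + ε) * (Cs * (A : ℝ) ^ m) := by
              have := hbig.le.trans hDle
              gcongr
          _ < ((M' : ℝ) ^ k) ^ (σ + ε) * ((Cs + 1) * (A : ℝ) ^ m) := by
              have h6 : 0 < (A : ℝ) ^ m := by positivity
              have h7 : 0 < ((M' : ℝ) ^ k) ^ (σ + ε) := by positivity
              gcongr
              linarith
          _ = (A : ℝ) ^ m * Kc := by rw [hKc]; ring
      exact lt_of_mul_lt_mul_left h5 (by positivity)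
    have h5 : Kc ≤ (A : ℝ) ^ (S * ε / 2) := by
      calc Kc = (Kc ^ (2 / (S * ε))) ^ (S * ε / 2) := by
            rw [← Real.rpow_mul (by linarith)]
            have : 2 / (S * ε) * (S * ε / 2) = 1 := by field_simp
            rw [this, Real.rpow_one]
        _ ≤ (A : ℝ) ^ (S * ε / 2) := by
            apply Real.rpow_le_rpow (by positivity) hAA (by positivity)
    linarith
  have hTTle : ∀ p ∈ F, ((TT p).card : ℝ) ≤ CC p * U ^ (1 - δ) := by
    intro p hp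
    have h1 := hall p hp A B hB hBA hAκ (TT p) ((Finset.filter_subset _ _).trans hT) (by
      intro w hw
      have h2 := Finset.mem_filter.mp hw
      exact ⟨(hTw w h2.1).1, h2.2⟩)
    refine h1.trans ?_
    have h2 : U ^ (1 - δδ p) ≤ U ^ (1 - δ) := by
      apply Real.rpow_le_rpow_of_exponent_le hU1
      have := hδle p hp
      linarith
    have := (hCC p).le
    gcongr
  have hbi : (T.card : ℝ) ≤ CS * U ^ (1 - δ) := by
    calc (T.card : ℝ) ≤ ((F.biUnion TT).card : ℝ) := by exact_mod_cast Finset.card_le_card hcover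
      _ ≤ ∑ p ∈ F, ((TT p).card : ℝ) := by exact_mod_cast Finset.card_biUnion_le
      _ ≤ ∑ p ∈ F, CC p * U ^ (1 - δ) := Finset.sum_le_sum hTTle
      _ = CS * U ^ (1 - δ) := by rw [hCS, Finset.sum_mul]
  have h9 : 0 ≤ 3 * (A0 * A0) * U ^ (1 - δ) := by positivity
  linarith

end Pool.Agent.Lib.MP_d8bd92_nt
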