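import Pool.Agent.Lib.MP_d8bd92_nt.FamLine

set_option autoImplicit false

namespace Pool.Agent.Lib.MP_d8bd92_nt

open Finset

/-- scaled sup norm -/
def nrm (A B : ℕ) (v : ℤ × ℤ) : ℕ := max (v.1.natAbs * B) (v.2.natAbs * A)

/-- the lattice `a ≡ x b (mod D)` -/
def InLat (D : ℕ) (x : ℤ) (v : ℤ × ℤ) : Prop := (D : ℤ) ∣ v.1 - x * v.2

/-- a nonzero vector of minimal norm in the lattice -/
def IsMin (A B D : ℕ) (x : ℤ) (v : ℤ × ℤ) : Prop :=
  InLat D x v ∧ v ≠ 0 ∧ ∀ w : ℤ × ℤ, InLat D x w → w ≠ 0 → nrm A B v ≤ nrm A B w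

def det2 (v w : ℤ × ℤ) : ℤ := v.1 * w.2 - v.2 * w.1

theorem InLat.sub {D : ℕ} {x : ℤ} {v w : ℤ × ℤ} (hv : InLat D x v) (hw : InLat D x w) :
    InLat D x (v - w) := by
  unfold InLat at *
  have : (v - w).1 - x * (v - w).2 = (v.1 - x * v.2) - (w.1 - x * w.2) := by
    simp only [Prod.fst_sub, Prod.snd_sub]; ring
  rw [this]
  exact dvd_sub hv hw

theorem InLat.smul {D : ℕ} {x : ℤ} {v : ℤ × ℤ} (s : ℤ) (hv : InLat D x v) :
    InLat D x (s • v) := by
  unfold InLat at *
  have : (s • v).1 - x * (s • v).2 = s * (v.1 - x * v.2) := by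
    simp only [Prod.smul_fst, Prod.smul_snd, smul_eq_mul]; ring
  rw [this]
  exact Dvd.dvd.mul_left hv s

theorem exists_isMin (A B D : ℕ) (hD : 1 ≤ D) (x : ℤ) : ∃ v, IsMin A B D x v := by
  classical
  have hex : ∃ n : ℕ, ∃ v : ℤ × ℤ, InLat D x v ∧ v ≠ 0 ∧ nrm A B v = n := by
    refine ⟨_, ((D : ℤ), 0), ?_, ?_, rfl⟩
    · unfold InLat; simp
    · intro h
      have := congrArg Prod.fst h
      simp at this
      omega
  obtain ⟨v, h1, h2, h3⟩ := Nat.find_spec hex
  refine ⟨v, h1, h2, ?_⟩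
  intro w hw hw0
  rw [h3]
  exact Nat.find_min' hex ⟨w, hw, hw0, rfl⟩

theorem nrm_pos {A B : ℕ} (hA : 1 ≤ A) (hB : 1 ≤ B) {v : ℤ × ℤ} (hv : v ≠ 0) : 0 < nrm A B v := by
  unfold nrm
  by_contra h
  push Not at h
  have h1 : v.1.natAbs * B = 0 := by
    have := le_max_left (v.1.natAbs * B) (v.2.natAbs * A); omega
  have h2 : v.2.natAbs * A = 0 := by
    have := le_max_right (v.1.natAbs * B) (v.2.natAbs * A); omega
  have h3 : v.1 = 0 := by
    rcases Nat.mul_eq_zero.mp h1 with h | h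
    · exact Int.natAbs_eq_zero.mp h
    · omega
  have h4 : v.2 = 0 := by
    rcases Nat.mul_eq_zero.mp h2 with h | h
    · exact Int.natAbs_eq_zero.mp h
    · omega
  exact hv (Prod.ext h3 h4)

theorem nrm_sub_le (A B : ℕ) (v w : ℤ × ℤ) : nrm A B (v - w) ≤ nrm A B v + nrm A B w := by
  unfold nrm
  apply max_le
  · calc (v - w).1.natAbs * B ≤ (v.1.natAbs + w.1.natAbs) * B :=
          Nat.mul_le_mul_right _ (Int.natAbs_sub_le _ _)
      _ = v.1.natAbs * B + w.1.natAbs * B := by ring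
      _ ≤ _ := add_le_add (le_max_left _ _) (le_max_left _ _)
  · calc (v - w).2.natAbs * A ≤ (v.2.natAbs + w.2.natAbs) * A :=
          Nat.mul_le_mul_right _ (Int.natAbs_sub_le _ _)
      _ = v.2.natAbs * A + w.2.natAbs * A := by ring
      _ ≤ _ := add_le_add (le_max_right _ _) (le_max_right _ _)

theorem nrm_smul (A B : ℕ) (s : ℤ) (v : ℤ × ℤ) : nrm A B (s • v) = s.natAbs * nrm A B v := by
  unfold nrm
  simp only [Prod.smul_fst, Prod.smul_snd, smul_eq_mul, Int.natAbs_mul, mul_assoc]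
  rw [Nat.mul_max_mul_left]

/-- Vectors of the lattice with the same determinant against a minimal vector differ by an integer
multiple of it. -/
theorem exists_smul_of_det_eq {A B D : ℕ} (hA : 1 ≤ A) (hB : 1 ≤ B) {x : ℤ} {v w w0 : ℤ × ℤ}
    (hv : IsMin A B D x v) (hw : InLat D x w) (hw0 : InLat D x w0)
    (hdet : det2 v w = det2 v w0) : ∃ s : ℤ, w = w0 + s • v := by
  obtain ⟨hvL, hv0, hmin⟩ := hv
  set u := w - w0 with hu
  have huL : InLat D x u := hw.sub hw0
  have hdu : v.1 * u.2 = v.2 * u.1 := by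
    have h1 : v.1 * w.2 - v.2 * w.1 = v.1 * w0.2 - v.2 * w0.1 := hdet
    have h2 : u.1 = w.1 - w0.1 := rfl
    have h3 : u.2 = w.2 - w0.2 := rfl
    rw [h2, h3]; linarith
  have hvpos := nrm_pos hA hB hv0
  -- it suffices to write u = s v
  suffices h : ∃ s : ℤ, u = s • v by
    obtain ⟨s, hs⟩ := h
    refine ⟨s, ?_⟩
    rw [← hs, hu]; abel
  by_cases h1 : v.1 = 0
  · -- then v.2 ≠ 0
    have h2 : v.2 ≠ 0 := by
      intro h2; exact hv0 (Prod.ext h1 h2)
    have hu1 : u.1 = 0 := by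
      rw [h1, zero_mul] at hdu
      rcases mul_eq_zero.mp hdu.symm with h | h
      · exact absurd h h2
      · exact h
    refine ⟨u.2 / v.2, ?_⟩
    set r := u - (u.2 / v.2) • v with hr
    have hrL : InLat D x r := huL.sub (hvL.smul _)
    have hr1 : r.1 = 0 := by
      rw [hr]; simp only [Prod.fst_sub, Prod.smul_fst, smul_eq_mul, h1, hu1]; ring
    have hr2 : r.2 = u.2 % v.2 := by
      rw [hr]; simp only [Prod.snd_sub, Prod.smul_snd, smul_eq_mul]
      have := Int.mul_ediv_add_emod u.2 v.2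
      linarith [mul_comm (u.2 / v.2) v.2]
    have hlt : r.2.natAbs < v.2.natAbs := by
      rw [hr2]
      have h3 := Int.emod_nonneg u.2 h2
      have h4 := Int.emod_lt_abs u.2 h2
      rw [Int.abs_eq_natAbs] at h4
      omega
    have hr0 : r = 0 := by
      by_contra hne
      have h5 := hmin r hrL hne
      have h6 : nrm A B r < nrm A B v := by
        unfold nrm
        rw [hr1, h1]
        simp only [Int.natAbs_zero, zero_mul]
        have h7 : r.2.natAbs * A < v.2.natAbs * A := Nat.mul_lt_mul_of_pos_right hlt hA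
        omega
      omega
    rw [hr] at hr0
    exact sub_eq_zero.mp hr0
  · refine ⟨u.1 / v.1, ?_⟩
    set r := u - (u.1 / v.1) • v with hr
    have hrL : InLat D x r := huL.sub (hvL.smul _)
    have hr1 : r.1 = u.1 % v.1 := by
      rw [hr]; simp only [Prod.fst_sub, Prod.smul_fst, smul_eq_mul]
      have := Int.mul_ediv_add_emod u.1 v.1
      linarith [mul_comm (u.1 / v.1) v.1]
    have hdr : v.1 * r.2 = v.2 * r.1 := by
      rw [hr]; simp only [Prod.fst_sub, Prod.snd_sub, Prod.smul_fst, Prod.smul_snd, smul_eq_mul]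
      linear_combination hdu
    have hlt : r.1.natAbs < v.1.natAbs := by
      rw [hr1]
      have h3 := Int.emod_nonneg u.1 h1
      have h4 := Int.emod_lt_abs u.1 h1
      rw [Int.abs_eq_natAbs] at h4
      omega
    have hdr' : v.1.natAbs * r.2.natAbs = v.2.natAbs * r.1.natAbs := by
      rw [← Int.natAbs_mul, ← Int.natAbs_mul, hdr]
    have hr0 : r = 0 := by
      by_contra hne
      have h5 := hmin r hrL hne
      have h6 : nrm A B r < nrm A B v := by
        unfold nrm
        apply max_lt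
        · exact lt_of_lt_of_le (Nat.mul_lt_mul_of_pos_right hlt hB) (le_max_left _ _)
        · rcases Nat.eq_zero_or_pos v.2.natAbs with h7 | h7
          · rw [h7, zero_mul] at hdr'
            have h8 : r.2.natAbs = 0 := by
              rcases Nat.mul_eq_zero.mp hdr' with h | h
              · omega
              · exact h
            rw [h8, zero_mul]
            exact hvpos
          · have h8 : r.2.natAbs < v.2.natAbs := by
              by_contra hc
              push Not at hc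
              have h9 : v.2.natAbs * r.1.natAbs < v.2.natAbs * v.1.natAbs :=
                Nat.mul_lt_mul_of_pos_left hlt h7
              have h10 : v.1.natAbs * v.2.natAbs ≤ v.1.natAbs * r.2.natAbs :=
                Nat.mul_le_mul_left _ hc
              rw [mul_comm v.1.natAbs v.2.natAbs] at h10
              omega
            exact lt_of_lt_of_le (Nat.mul_lt_mul_of_pos_right h8 hA) (le_max_right _ _)
      omega
    rw [hr] at hr0
    exact sub_eq_zero.mp hr0

/-- Pigeonhole: the lattice has short vectors. -/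
theorem exists_short {A B D : ℕ} (hD : 1 ≤ D) (x : ℤ) (I J : ℕ)
    (hIJ : D < (I + 1) * (J + 1)) :
    ∃ v : ℤ × ℤ, InLat D x v ∧ v ≠ 0 ∧ nrm A B v ≤ max (I * B) (J * A) := by
  classical
  set X := Finset.range (I + 1) ×ˢ Finset.range (J + 1) with hX
  have hDZ : (0 : ℤ) < (D : ℤ) := by exact_mod_cast hD
  set f : ℕ × ℕ → ℕ := fun q => (((q.1 : ℤ) - x * (q.2 : ℤ)) % (D : ℤ)).toNat with hf
  have hmap : ∀ q ∈ X, f q ∈ Finset.range D := by
    intro q _
    rw [Finset.mem_range, hf]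
    have h1 := Int.emod_nonneg ((q.1 : ℤ) - x * (q.2 : ℤ)) hDZ.ne'
    have h2 := Int.emod_lt_of_pos ((q.1 : ℤ) - x * (q.2 : ℤ)) hDZ
    simp only
    omega
  have hcard : (Finset.range D).card < X.card := by
    rw [hX, Finset.card_product, Finset.card_range, Finset.card_range, Finset.card_range]
    exact hIJ
  obtain ⟨q, hq, q', hq', hne, heq⟩ := Finset.exists_ne_map_eq_of_card_lt_of_maps_to hcard hmap
  have hqm := Finset.mem_product.mp hq
  have hqm' := Finset.mem_product.mp hq'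
  rw [Finset.mem_range, Finset.mem_range] at hqm hqm'
  refine ⟨((q.1 : ℤ) - q'.1, (q.2 : ℤ) - q'.2), ?_, ?_, ?_⟩
  · unfold InLat
    simp only
    have h1 := Int.emod_nonneg ((q.1 : ℤ) - x * (q.2 : ℤ)) hDZ.ne'
    have h2 := Int.emod_nonneg ((q'.1 : ℤ) - x * (q'.2 : ℤ)) hDZ.ne'
    have h3 : ((q.1 : ℤ) - x * (q.2 : ℤ)) % (D : ℤ) = ((q'.1 : ℤ) - x * (q'.2 : ℤ)) % (D : ℤ) := by
      have h4 : f q = f q' := heq
      simp only [hf] at h4
      omega
    have h5 : (D : ℤ) ∣ ((q.1 : ℤ) - x * (q.2 : ℤ)) - ((q'.1 : ℤ) - x * (q'.2 : ℤ)) :=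
      (Int.ModEq.symm (show ((q.1 : ℤ) - x * (q.2 : ℤ)) ≡
        ((q'.1 : ℤ) - x * (q'.2 : ℤ)) [ZMOD (D : ℤ)] from h3)).dvd
    have h6 : (q.1 : ℤ) - q'.1 - x * ((q.2 : ℤ) - q'.2) =
        ((q.1 : ℤ) - x * (q.2 : ℤ)) - ((q'.1 : ℤ) - x * (q'.2 : ℤ)) := by ring
    rw [h6]; exact h5
  · intro h
    have h1 := congrArg Prod.fst h
    have h2 := congrArg Prod.snd h
    simp at h1 h2
    apply hne
    exact Prod.ext (by omega) (by omega)
  · unfold nrm
    simp only
    apply max_le_max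
    · apply Nat.mul_le_mul_right; omega
    · apply Nat.mul_le_mul_right; omega

theorem coprime_parallel {w w' : ℤ × ℤ} (h : IsCoprime w.1 w.2) (h' : IsCoprime w'.1 w'.2)
    (hpos : 1 ≤ w.2) (hpos' : 1 ≤ w'.2) (hdet : w.1 * w'.2 = w.2 * w'.1) : w = w' := by
  have h1 : w.2 ∣ w'.2 := by
    have : w.2 ∣ w.1 * w'.2 := by rw [hdet]; exact dvd_mul_right _ _
    exact h.symm.dvd_of_dvd_mul_left this
  have h2 : w'.2 ∣ w.2 := by
    have : w'.2 ∣ w'.1 * w.2 := by
      rw [mul_comm w'.1 w.2, ← hdet]; exact dvd_mul_left _ _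
    exact h'.symm.dvd_of_dvd_mul_left this
  have h3 : w.2 = w'.2 := by
    apply le_antisymm
    · exact Int.le_of_dvd (by omega) h1
    · exact Int.le_of_dvd (by omega) h2
  have h4 : w.1 = w'.1 := by
    rw [← h3, mul_comm w.2 w'.1] at hdet
    exact mul_right_cancel₀ (by omega) hdet
  exact Prod.ext h4 h3

theorem lattice_count {A B D : ℕ} (hA : 1 ≤ A) (hB : 1 ≤ B) (hD : 1 ≤ D) (x : ℤ) (v : ℤ × ℤ)
    (hv : IsMin A B D x v) (T : Finset (ℤ × ℤ))
    (hT : ∀ w ∈ T, InLat D x w ∧ |w.1| ≤ (A : ℤ) ∧ 1 ≤ w.2 ∧ w.2 ≤ (B : ℤ) ∧ IsCoprime w.1 w.2)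
    (L : ℕ) (hL : 1 ≤ L) (G : ℕ)
    (hwin : ∀ w0 ∈ T, det2 v w0 ≠ 0 → ∀ S : Finset ℤ, (∀ s ∈ S, w0 + s • v ∈ T) →
      (∀ s ∈ S, ∀ t ∈ S, |s - t| ≤ (L : ℤ)) → S.card ≤ G) :
    (T.card : ℝ) ≤ 1 + G * (8 * ((A : ℝ) * B) / (D * L) + 4 * (nrm A B v : ℝ) / D) := by
  classical
  have hv' := hv
  obtain ⟨hvL, hv0, hmin⟩ := hv
  have hn0 := nrm_pos hA hB hv0
  set n1 := nrm A B v with hn1
  have hn1R : (0 : ℝ) < (n1 : ℝ) := by exact_mod_cast hn0
  have hDR : (0 : ℝ) < (D : ℝ) := by exact_mod_cast hD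
  have hLR : (0 : ℝ) < (L : ℝ) := by exact_mod_cast hL
  have hDZ : (0 : ℤ) < (D : ℤ) := by exact_mod_cast hD
  have hAB : (0 : ℝ) < (A : ℝ) * B := by
    have h1 : (0 : ℝ) < (A : ℝ) := by exact_mod_cast hA
    have h2 : (0 : ℝ) < (B : ℝ) := by exact_mod_cast hB
    positivity
  -- norms of elements of T
  have hnT : ∀ w ∈ T, nrm A B w ≤ A * B := by
    intro w hw
    obtain ⟨_, h1, h2, h3, _⟩ := hT w hw
    rw [Int.abs_eq_natAbs] at h1
    unfold nrm
    apply max_le
    · apply Nat.mul_le_mul_right; omega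
    · rw [mul_comm A B]; apply Nat.mul_le_mul_right; omega
  -- determinants
  have hdvd : ∀ w ∈ T, (D : ℤ) ∣ det2 v w := by
    intro w hw
    have h1 := (hT w hw).1
    unfold InLat at h1 hvL
    have h2 : det2 v w = (v.1 - x * v.2) * w.2 - v.2 * (w.1 - x * w.2) := by
      unfold det2; ring
    rw [h2]
    exact dvd_sub (hvL.mul_right _) (h1.mul_left _)
  have hdet_le : ∀ w ∈ T, (det2 v w).natAbs ≤ 2 * n1 := by
    intro w hw
    obtain ⟨_, h1, h2, h3, _⟩ := hT w hw
    rw [Int.abs_eq_natAbs] at h1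
    unfold det2
    refine (Int.natAbs_sub_le _ _).trans ?_
    rw [Int.natAbs_mul, Int.natAbs_mul]
    have h4 : v.1.natAbs * w.2.natAbs ≤ n1 := by
      calc v.1.natAbs * w.2.natAbs ≤ v.1.natAbs * B := Nat.mul_le_mul_left _ (by omega)
        _ ≤ n1 := le_max_left _ _
    have h5 : v.2.natAbs * w.1.natAbs ≤ n1 := by
      calc v.2.natAbs * w.1.natAbs ≤ v.2.natAbs * A := Nat.mul_le_mul_left _ (by omega)
        _ ≤ n1 := le_max_right _ _
    omega
  -- split T
  set T0 := T.filter (fun w => det2 v w = 0) with hT0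
  set T1 := T.filter (fun w => ¬ det2 v w = 0) with hT1
  have hTcard : T.card = T0.card + T1.card := (Finset.card_filter_add_card_filter_not _).symm
  have hT0card : T0.card ≤ 1 := by
    rw [Finset.card_le_one]
    intro w hw w' hw'
    rw [hT0, Finset.mem_filter] at hw hw'
    obtain ⟨_, _, h2, _, h4⟩ := hT w hw.1
    obtain ⟨_, _, h2', _, h4'⟩ := hT w' hw'.1
    apply coprime_parallel h4 h4' h2 h2'
    have e1 : v.1 * w.2 = v.2 * w.1 := sub_eq_zero.mp hw.2
    have e2 : v.1 * w'.2 = v.2 * w'.1 := sub_eq_zero.mp hw'.2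
    by_cases hz : v.1 = 0
    · have hz2 : v.2 ≠ 0 := fun h => hv0 (Prod.ext hz h)
      rw [hz, zero_mul] at e1 e2
      have f1 : w.1 = 0 := by
        rcases mul_eq_zero.mp e1.symm with h | h
        · exact absurd h hz2
        · exact h
      have f2 : w'.1 = 0 := by
        rcases mul_eq_zero.mp e2.symm with h | h
        · exact absurd h hz2
        · exact h
      rw [f1, f2]; ring
    · apply mul_left_cancel₀ hz
      linear_combination w.1 * e2 - w'.1 * e1
  set J0 : ℕ := 2 * n1 / D with hJ0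
  set IX : Finset ℤ := (Finset.Icc (-(J0 : ℤ)) J0).erase 0 with hIX
  have hJ0nn : (0 : ℤ) ≤ (J0 : ℤ) := Int.natCast_nonneg _
  have hIXcard : IX.card = 2 * J0 := by
    rw [hIX, Finset.card_erase_of_mem (by rw [Finset.mem_Icc]; omega), Int.card_Icc]
    omega
  set f : ℤ × ℤ → ℤ := fun w => det2 v w / (D : ℤ) with hf
  have hfD : ∀ w ∈ T, det2 v w = f w * (D : ℤ) := by
    intro w hw
    rw [hf]; simp only
    rw [Int.ediv_mul_cancel (hdvd w hw)]
  have hmap : ∀ w ∈ T1, f w ∈ IX := by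
    intro w hw
    rw [hT1, Finset.mem_filter] at hw
    have h1 := hfD w hw.1
    rw [hIX, Finset.mem_erase, Finset.mem_Icc]
    have h2 : f w ≠ 0 := by
      intro h; rw [h, zero_mul] at h1; exact hw.2 h1
    refine ⟨h2, ?_⟩
    have h3 := hdet_le w hw.1
    rw [h1, Int.natAbs_mul, Int.natAbs_natCast] at h3
    have h4 : (f w).natAbs ≤ J0 := by
      rw [hJ0, Nat.le_div_iff_mul_le hD]
      exact h3
    omega
  -- fibres
  set H : ℝ := 2 * ((A : ℝ) * B) / n1 with hH
  have hH0 : 0 ≤ H := by positivity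
  have hfib : ∀ j ∈ IX, ((T1.filter (fun w => f w = j)).card : ℝ) ≤ G * (H / L + 1) := by
    intro j hj
    set F := T1.filter (fun w => f w = j) with hF
    rcases F.eq_empty_or_nonempty with hE | hE
    · rw [hE]; simp; positivity
    · obtain ⟨w0, hw0⟩ := hE
      have hFT : ∀ w ∈ F, w ∈ T := by
        intro w hw
        rw [hF, Finset.mem_filter, hT1, Finset.mem_filter] at hw
        exact hw.1.1
      have hw0T := hFT w0 hw0
      have hw0d : det2 v w0 ≠ 0 := by
        rw [hF, Finset.mem_filter, hT1, Finset.mem_filter] at hw0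
        exact hw0.1.2
      have hrep : ∀ w ∈ F, ∃ s : ℤ, w = w0 + s • v := by
        intro w hw
        apply exists_smul_of_det_eq hA hB hv' (hT w (hFT w hw)).1 (hT w0 hw0T).1
        rw [hfD w (hFT w hw), hfD w0 hw0T]
        rw [hF, Finset.mem_filter] at hw hw0
        rw [hw.2, hw0.2]
      -- choose s
      have hch : ∃ g : ℤ × ℤ → ℤ, ∀ w ∈ F, w = w0 + g w • v := by
        refine ⟨fun w => if h : w ∈ F then (hrep w h).choose else 0, ?_⟩
        intro w hw
        simp only [hw, dif_pos]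
        exact (hrep w hw).choose_spec
      obtain ⟨g, hg⟩ := hch
      set S := F.image g with hS
      have hSc : S.card = F.card := by
        rw [hS]
        apply Finset.card_image_of_injOn
        intro w hw w' hw' h
        rw [hg w hw, hg w' hw', h]
      rw [← hSc]
      apply card_le_of_windows S L hL G H hH0
      · intro s hs t ht
        rw [hS, Finset.mem_image] at hs ht
        obtain ⟨w, hw, rfl⟩ := hs
        obtain ⟨w', hw', rfl⟩ := ht
        have h1 : (g w - g w') • v = w - w' := by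
          conv_rhs => rw [hg w hw, hg w' hw']
          rw [sub_smul]; abel
        have h2 : nrm A B ((g w - g w') • v) ≤ 2 * (A * B) := by
          rw [h1]
          refine (nrm_sub_le _ _ _ _).trans ?_
          have h3 := hnT w (hFT w hw)
          have h4 := hnT w' (hFT w' hw')
          omega
        rw [nrm_smul] at h2
        rw [hH, le_div_iff₀ hn1R]
        have h3 : (((g w - g w').natAbs : ℕ) : ℝ) * (n1 : ℝ) ≤ 2 * ((A : ℝ) * B) := by
          exact_mod_cast h2
        have h4 : ((g w - g w' : ℤ) : ℝ) ≤ (((g w - g w').natAbs : ℕ) : ℝ) := by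
          rw [Nat.cast_natAbs]
          exact_mod_cast le_abs_self (g w - g w')
        calc ((g w - g w' : ℤ) : ℝ) * (n1 : ℝ) ≤ (((g w - g w').natAbs : ℕ) : ℝ) * (n1 : ℝ) := by
              gcongr
          _ ≤ _ := h3
      · intro S' hS' hdiam
        apply hwin w0 hw0T hw0d S' _ hdiam
        intro s hs
        have h1 := hS' hs
        rw [hS, Finset.mem_image] at h1
        obtain ⟨w, hw, rfl⟩ := h1
        rw [← hg w hw]
        exact hFT w hw
  have hT1card : (T1.card : ℝ) ≤ (2 * J0 : ℕ) * (G * (H / L + 1)) := by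
    rw [Finset.card_eq_sum_card_fiberwise (f := f) (s := T1) (t := IX) hmap]
    push_cast
    calc ∑ j ∈ IX, ((T1.filter (fun w => f w = j)).card : ℝ)
        ≤ ∑ _j ∈ IX, (G * (H / L + 1) : ℝ) := Finset.sum_le_sum hfib
      _ = 2 * (J0 : ℝ) * (G * (H / L + 1)) := by
          rw [Finset.sum_const, hIXcard, nsmul_eq_mul]; push_cast; ring
  have hJ0R : (J0 : ℝ) ≤ 2 * n1 / D := by
    rw [hJ0]
    have := @Nat.cast_div_le ℝ _ _ _ (2 * n1) D
    push_cast at this
    exact this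
  have hTR : (T.card : ℝ) = (T0.card : ℝ) + (T1.card : ℝ) := by rw [hTcard]; push_cast; ring
  have hT0R : (T0.card : ℝ) ≤ 1 := by exact_mod_cast hT0card
  have hfin : ((2 * J0 : ℕ) : ℝ) * (G * (H / L + 1)) ≤
      G * (8 * ((A : ℝ) * B) / (D * L) + 4 * (n1 : ℝ) / D) := by
    push_cast
    calc 2 * (J0 : ℝ) * (G * (H / L + 1)) ≤ 2 * (2 * n1 / D) * (G * (H / L + 1)) := by
          gcongr
      _ = G * (8 * ((A : ℝ) * B) / (D * L) + 4 * (n1 : ℝ) / D) := by
          rw [hH]; field_simp; ring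
  linarith

/-- The basic count of coprime lattice points in a box. -/
theorem lattice_count_basic {A B D : ℕ} (hA : 1 ≤ A) (hB : 1 ≤ B) (hD : 1 ≤ D) (x : ℤ)
    (T : Finset (ℤ × ℤ))
    (hT : ∀ w ∈ T, InLat D x w ∧ |w.1| ≤ (A : ℤ) ∧ 1 ≤ w.2 ∧ w.2 ≤ (B : ℤ) ∧ IsCoprime w.1 w.2) :
    (T.card : ℝ) ≤ 1 + 24 * ((A : ℝ) * B) / D := by
  classical
  obtain ⟨v, hv⟩ := exists_isMin A B D hD x
  have hDR : (0 : ℝ) < (D : ℝ) := by exact_mod_cast hD
  rcases T.eq_empty_or_nonempty with hE | ⟨w, hw⟩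
  · rw [hE]; simp; positivity
  · have h1 := lattice_count hA hB hD x v hv T hT 1 le_rfl 2 (by
      intro w0 _ _ S _ hdiam
      by_contra hc
      push Not at hc
      obtain ⟨a, b, c, ha, hb, hcc, hab, hac, hbc⟩ := Finset.two_lt_card_iff.mp hc
      have h1 := hdiam a ha b hb
      have h2 := hdiam a ha c hcc
      have h3 := hdiam b hb c hcc
      rw [abs_le] at h1 h2 h3
      push_cast at h1 h2 h3
      omega)
    have h2 : nrm A B v ≤ A * B := by
      obtain ⟨h3, h4, h5, h6, h7⟩ := hT w hw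
      rw [Int.abs_eq_natAbs] at h4
      have hw0 : w ≠ 0 := by
        intro h
        rw [h] at h5
        simp at h5
      refine (hv.2.2 w h3 hw0).trans ?_
      unfold nrm
      apply max_le
      · apply Nat.mul_le_mul_right; omega
      · rw [mul_comm A B]; apply Nat.mul_le_mul_right; omega
    have h3 : (nrm A B v : ℝ) ≤ (A : ℝ) * B := by exact_mod_cast h2
    refine h1.trans ?_
    have h4 : 4 * (nrm A B v : ℝ) / D ≤ 4 * ((A : ℝ) * B) / D := by gcongr
    push_cast
    rw [mul_one]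
    calc 1 + 2 * (8 * ((A : ℝ) * B) / D + 4 * (nrm A B v : ℝ) / D)
        ≤ 1 + 2 * (8 * ((A : ℝ) * B) / D + 4 * ((A : ℝ) * B) / D) := by gcongr
      _ = 1 + 24 * ((A : ℝ) * B) / D := by ring

end Pool.Agent.Lib.MP_d8bd92_nt
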