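import Pool.Agent.Lib.MP_d8bd92_nt.FamInterp

set_option autoImplicit false

namespace Pool.Agent.Lib.MP_d8bd92_nt

open Finset Polynomial

/-- Few perfect power values of a polynomial on a short interval where it varies little. -/
theorem power_values_short (r e K : ℕ) (he : 2 ≤ e) :
    ∃ CI z0 : ℝ, 0 < CI ∧ 0 < z0 ∧
      ∀ (P : ℤ[X]) (m : ℤ) (S : Finset ℤ) (y : ℤ → ℕ) (L : ℕ) (Y lam : ℝ),
      P.natDegree ≤ r → m ≠ 0 → 1 ≤ L →
      (∀ s ∈ S, P.eval s = m * (y s : ℤ) ^ e) → (∀ s ∈ S, 1 ≤ y s) →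
      (∀ s ∈ S, (y s : ℝ) ≤ Y) →
      (∀ s ∈ S, ∀ t ∈ S, |s - t| ≤ (L : ℤ)) → 0 ≤ lam → lam ≤ z0 →
      (∀ s ∈ S, ∀ t ∈ S, |((P.eval s : ℤ) : ℝ) - ((P.eval t : ℤ) : ℝ)| ≤
        lam * |((P.eval t : ℤ) : ℝ)|) →
      CI * Y * lam ^ (K + 1) * (L : ℝ) ^ ((r * K + 1) * (r * K + 1)) < 1 →
      (¬ ∃ R : ℚ[X], P.map (Int.castRingHom ℚ) = C (m : ℚ) * R ^ e) →
      S.card ≤ e * (r * K) + r := by
  classical
  obtain ⟨q, hqdeg, C0, z0, hC0, hz0, hz0', hq⟩ := exists_taylor e K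
  set k : ℕ := r * K + 1 with hk
  refine ⟨(k + 1) * C0, z0, by positivity, hz0, ?_⟩
  intro P m S y L Y lam hP hm hL hval hy1 hyY hdiam hlam0 hlam hvar hsmall hno
  by_contra hcard
  push Not at hcard
  have hSne : S.Nonempty := by
    rw [← Finset.card_pos]; omega
  obtain ⟨t, ht⟩ := hSne
  have hyt : (0 : ℝ) < (y t : ℝ) := by exact_mod_cast hy1 t ht
  have hmR : (m : ℝ) ≠ 0 := by exact_mod_cast hm
  have hPt : ((P.eval t : ℤ) : ℝ) = (m : ℝ) * (y t : ℝ) ^ e := by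
    rw [hval t ht]; push_cast; ring
  have hPt0 : ((P.eval t : ℤ) : ℝ) ≠ 0 := by
    rw [hPt]; positivity
  set Z : ℝ[X] := C (((P.eval t : ℤ) : ℝ)⁻¹) *
    (P.map (Int.castRingHom ℝ) - C (((P.eval t : ℤ) : ℝ))) with hZ
  have hZeval : ∀ s : ℤ, Z.eval (s : ℝ) =
      (((P.eval s : ℤ) : ℝ) - ((P.eval t : ℤ) : ℝ)) / ((P.eval t : ℤ) : ℝ) := by
    intro s
    rw [hZ, eval_mul, eval_C, eval_sub, eval_C, Polynomial.eval_intCast_map, div_eq_inv_mul]
    rfl
  have hZdeg : Z.natDegree ≤ r := by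
    rw [hZ]
    refine (natDegree_C_mul_le _ _).trans ?_
    refine (natDegree_sub_le _ _).trans (max_le ?_ ?_)
    · exact natDegree_map_le.trans hP
    · rw [natDegree_C]; exact Nat.zero_le _
  set Q : ℝ[X] := C ((y t : ℝ)) * q.comp Z with hQ
  have hQdeg : Q.natDegree < k := by
    rw [hQ, hk]
    refine Nat.lt_succ_of_le ((natDegree_C_mul_le _ _).trans ?_)
    refine natDegree_comp_le.trans ?_
    calc q.natDegree * Z.natDegree ≤ K * r := Nat.mul_le_mul hqdeg hZdeg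
      _ = r * K := mul_comm _ _
  have hY0 : 0 < Y := lt_of_lt_of_le hyt (hyY t ht)
  set E : ℝ := Y * (C0 * lam ^ (K + 1)) with hE
  have hE0 : 0 ≤ E := by positivity
  have he0 : (e : ℝ) ≠ 0 := by
    have : e ≠ 0 := by omega
    exact_mod_cast this
  have happ : ∀ s ∈ S, |(((y s : ℕ) : ℤ) : ℝ) - Q.eval (s : ℝ)| ≤ E := by
    intro s hs
    have hys : (0 : ℝ) < (y s : ℝ) := by exact_mod_cast hy1 s hs
    have hPs : ((P.eval s : ℤ) : ℝ) = (m : ℝ) * (y s : ℝ) ^ e := by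
      rw [hval s hs]; push_cast; ring
    have hz : |Z.eval (s : ℝ)| ≤ lam := by
      rw [hZeval, abs_div, div_le_iff₀ (abs_pos.mpr hPt0)]
      exact hvar s hs t ht
    have h1z : 1 + Z.eval (s : ℝ) = ((y s : ℝ) / (y t : ℝ)) ^ e := by
      rw [hZeval, hPs, hPt, div_pow]
      field_simp
      ring
    have hroot : (1 + Z.eval (s : ℝ)) ^ ((1 : ℝ) / e) = (y s : ℝ) / (y t : ℝ) := by
      rw [h1z, one_div, Real.pow_rpow_inv_natCast (by positivity) (by omega)]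
    have h2 := hq (Z.eval (s : ℝ)) (hz.trans hlam)
    rw [hroot] at h2
    rw [hQ, eval_mul, eval_C, eval_comp]
    have h3 : (((y s : ℕ) : ℤ) : ℝ) - (y t : ℝ) * eval (eval (s : ℝ) Z) q =
        (y t : ℝ) * ((y s : ℝ) / (y t : ℝ) - eval (eval (s : ℝ) Z) q) := by
      push_cast
      field_simp
    rw [h3, abs_mul, abs_of_pos hyt, hE]
    have h4 : |Z.eval (s : ℝ)| ^ (K + 1) ≤ lam ^ (K + 1) := by gcongr
    calc (y t : ℝ) * |(y s : ℝ) / (y t : ℝ) - eval (eval (s : ℝ) Z) q|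
        ≤ Y * (C0 * |Z.eval (s : ℝ)| ^ (K + 1)) := by
          apply mul_le_mul (hyY t ht) h2 (abs_nonneg _) hY0.le
      _ ≤ Y * (C0 * lam ^ (K + 1)) := by gcongr
  have hLR : (1 : ℝ) ≤ (L : ℝ) := by exact_mod_cast hL
  have hsmall' : (L : ℝ) ^ (k * (k - 1)) * (E * (1 + k * (L : ℝ) ^ (k - 1))) < 1 := by
    refine lt_of_le_of_lt ?_ hsmall
    have h1 : (1 : ℝ) + k * (L : ℝ) ^ (k - 1) ≤ (k + 1) * (L : ℝ) ^ (k - 1) := by
      have : (1 : ℝ) ≤ (L : ℝ) ^ (k - 1) := one_le_pow₀ hLR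
      nlinarith
    have h2 : (L : ℝ) ^ (k * (k - 1)) * (L : ℝ) ^ (k - 1) ≤ (L : ℝ) ^ (k * k) := by
      rw [← pow_add]
      apply pow_le_pow_right₀ hLR
      have hk1 : 1 ≤ k := by omega
      obtain ⟨j, hj⟩ : ∃ j, k = j + 1 := ⟨k - 1, by omega⟩
      rw [hj]
      simp only [Nat.add_sub_cancel]
      nlinarith
    calc (L : ℝ) ^ (k * (k - 1)) * (E * (1 + k * (L : ℝ) ^ (k - 1)))
        ≤ (L : ℝ) ^ (k * (k - 1)) * (E * ((k + 1) * (L : ℝ) ^ (k - 1))) := by gcongr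
      _ = ((k + 1) * E) * ((L : ℝ) ^ (k * (k - 1)) * (L : ℝ) ^ (k - 1)) := by ring
      _ ≤ ((k + 1) * E) * (L : ℝ) ^ (k * k) := by gcongr
      _ = (k + 1) * C0 * Y * lam ^ (K + 1) * (L : ℝ) ^ (k * k) := by rw [hE]; ring
  obtain ⟨R, hRdeg, hR⟩ := interp_rigidity S (fun s => ((y s : ℕ) : ℤ)) k (by omega) L hL hdiam
    Q hQdeg E hE0 happ hsmall'
  apply hno
  refine ⟨R, ?_⟩
  apply eq_of_many_values P R m e S (e * (r * K) + r) (by omega) ?_ hcard
  · intro s hs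
    rw [hR s hs, hval s hs]
    push_cast
    ring
  · have : R.natDegree ≤ r * K := by omega
    calc e * R.natDegree ≤ e * (r * K) := Nat.mul_le_mul_left _ this
      _ ≤ e * (r * K) + r := Nat.le_add_right _ _

/-- If every window of length `L` contains at most `G` elements of `S`, and `S` has diameter at
most `H`, then `S` has at most `G * (H / L + 1)` elements. -/
theorem card_le_of_windows (S : Finset ℤ) (L : ℕ) (hL : 1 ≤ L) (G : ℕ) (H : ℝ) (hH : 0 ≤ H)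
    (hdiam : ∀ s ∈ S, ∀ t ∈ S, ((s - t : ℤ) : ℝ) ≤ H)
    (hwin : ∀ T : Finset ℤ, T ⊆ S → (∀ s ∈ T, ∀ t ∈ T, |s - t| ≤ (L : ℤ)) → T.card ≤ G) :
    (S.card : ℝ) ≤ G * (H / L + 1) := by
  classical
  rcases S.eq_empty_or_nonempty with hS | hS
  · rw [hS]; simp
    positivity
  · set a := S.min' hS with ha
    have hLZ : (0 : ℤ) < (L : ℤ) := by exact_mod_cast hL
    have hLR : (0 : ℝ) < (L : ℝ) := by exact_mod_cast hL
    -- block index
    set f : ℤ → ℕ := fun s => ((s - a) / (L : ℤ)).toNat with hf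
    set n : ℕ := ⌊H / L⌋₊ + 1 with hn
    have hmap : ∀ s ∈ S, f s ∈ Finset.range n := by
      intro s hs
      rw [Finset.mem_range, hn, Nat.lt_succ_iff, hf]
      apply Nat.le_floor
      have h0 : 0 ≤ s - a := sub_nonneg.mpr (S.min'_le s hs)
      have h1 : 0 ≤ (s - a) / (L : ℤ) := Int.ediv_nonneg h0 hLZ.le
      have h2 : ((((s - a) / (L : ℤ)).toNat : ℕ) : ℝ) = (((s - a) / (L : ℤ) : ℤ) : ℝ) := by
        exact_mod_cast congrArg (Int.cast : ℤ → ℝ) (Int.toNat_of_nonneg h1)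
      rw [h2, le_div_iff₀ hLR]
      have h3 : (s - a) / (L : ℤ) * (L : ℤ) ≤ s - a := Int.ediv_mul_le _ hLZ.ne'
      have h4 : (((s - a) / (L : ℤ) : ℤ) : ℝ) * (L : ℝ) ≤ ((s - a : ℤ) : ℝ) := by exact_mod_cast h3
      exact h4.trans (hdiam s hs a (S.min'_mem hS))
    have hfib : ∀ j ∈ Finset.range n, (S.filter (fun s => f s = j)).card ≤ G := by
      intro j _
      apply hwin _ (Finset.filter_subset _ _)
      intro s hs t ht
      rw [Finset.mem_filter] at hs ht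
      have hs0 : 0 ≤ s - a := sub_nonneg.mpr (S.min'_le s hs.1)
      have ht0 : 0 ≤ t - a := sub_nonneg.mpr (S.min'_le t ht.1)
      have hs1 : 0 ≤ (s - a) / (L : ℤ) := Int.ediv_nonneg hs0 hLZ.le
      have ht1 : 0 ≤ (t - a) / (L : ℤ) := Int.ediv_nonneg ht0 hLZ.le
      have e1 : (s - a) / (L : ℤ) = (t - a) / (L : ℤ) := by
        have h1 : (((s - a) / (L : ℤ)).toNat : ℤ) = (((t - a) / (L : ℤ)).toNat : ℤ) := by
          have := hs.2.trans ht.2.symm
          exact_mod_cast this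
        rwa [Int.toNat_of_nonneg hs1, Int.toNat_of_nonneg ht1] at h1
      have h3 := Int.mul_ediv_add_emod (s - a) (L : ℤ)
      have h4 := Int.mul_ediv_add_emod (t - a) (L : ℤ)
      have h5 := Int.emod_nonneg (s - a) hLZ.ne'
      have h6 := Int.emod_lt_of_pos (s - a) hLZ
      have h7 := Int.emod_nonneg (t - a) hLZ.ne'
      have h8 := Int.emod_lt_of_pos (t - a) hLZ
      rw [e1] at h3
      rw [abs_le]
      constructor <;> linarith
    have hcard := Finset.card_eq_sum_card_fiberwise (f := f) (s := S) (t := Finset.range n) hmap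
    have h1 : S.card ≤ n * G := by
      rw [hcard]
      calc ∑ j ∈ Finset.range n, (S.filter (fun s => f s = j)).card
          ≤ ∑ _j ∈ Finset.range n, G := Finset.sum_le_sum hfib
        _ = n * G := by rw [Finset.sum_const, Finset.card_range, smul_eq_mul]
    have h2 : (S.card : ℝ) ≤ n * G := by exact_mod_cast h1
    have h3 : (n : ℝ) ≤ H / L + 1 := by
      rw [hn]; push_cast
      have := Nat.floor_le (div_nonneg hH hLR.le)
      linarith
    calc (S.card : ℝ) ≤ n * G := h2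
      _ ≤ (H / L + 1) * G := by gcongr
      _ = G * (H / L + 1) := by ring

end Pool.Agent.Lib.MP_d8bd92_nt
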