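import Pool.Agent.Lib.MP_d8bd92_nt.FamDecomp
import Pool.Agent.Lib.MP_d8bd92_nt.FamEvents2
import Pool.Agent.Lib.MP_d8bd92_nt.FamEvents3
import Pool.Agent.Lib.MP_d8bd92_nt.FamEvents4

set_option autoImplicit false

namespace Pool.Agent.Lib.MP_d8bd92_nt

open Finset Polynomial

/-- The radical of a squarefree binary form is large for almost all coprime pairs. -/
theorem radical_lower (f P Q : ℤ[X]) (d : ℤ) (hd0 : d ≠ 0)
    (hd : P * f + Q * derivative f = C d) (hr : 2 ≤ f.natDegree) (ε : ℝ) (hε : 0 < ε) :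
    ∃ C0 δ : ℝ, 0 < C0 ∧ 0 < δ ∧ δ ≤ 1 / 2 ∧ ∀ A B : ℕ, 1 ≤ B → B ≤ A →
      ∀ T : Finset (ℤ × ℤ), T ⊆ box A B →
      (∀ w ∈ T, IsCoprime w.1 w.2 ∧ hev f.natDegree f w.1 w.2 ≠ 0 ∧
        ((∏ p ∈ (hev f.natDegree f w.1 w.2).natAbs.primeFactors, p : ℕ) : ℝ) <
          min ((A : ℝ) ^ ((f.natDegree : ℝ) - ε)) (((A : ℝ) * B) ^ (2 - ε))) →
      (T.card : ℝ) ≤ C0 * ((A : ℝ) * B) ^ (1 - δ) := by
  classical
  set r := f.natDegree with hrdef
  have hr0 : (2 : ℝ) ≤ (r : ℝ) := by exact_mod_cast hr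
  have hf0 : f.coeff r ≠ 0 := by
    have : f ≠ 0 := by
      intro h; rw [h, natDegree_zero] at hrdef; omega
    rw [hrdef]
    exact leadingCoeff_ne_zero.mpr this
  set ε0 : ℝ := min ε 1 with hε0
  have hε0pos : 0 < ε0 := lt_min hε one_pos
  have hε0one : ε0 ≤ 1 := min_le_right _ _
  have hε0ε : ε0 ≤ ε := min_le_left _ _
  set η : ℝ := ε0 / 16 with hη
  have hη0 : 0 < η := by positivity
  set ε2 : ℝ := ε0 / 4 with hε2
  have hε20 : 0 < ε2 := by positivity
  set θ : ℝ := ε2 / 16 with hθ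
  have hθ0 : 0 < θ := by positivity
  obtain ⟨C1, hC1, hE1⟩ := card_squareful f P Q d hd η hη0 (by linarith)
  have hE2 : ∀ e : ℕ, ∃ C0 c : ℝ, 0 < C0 ∧ 0 < c ∧ c ≤ 1 ∧ (2 ≤ e → ∀ A B : ℕ, 1 ≤ B → B ≤ A →
      ∀ T : Finset (ℤ × ℤ), T ⊆ box A B →
      (∀ w ∈ T, IsCoprime w.1 w.2 ∧
        (A : ℝ) ^ ((r : ℝ) - ε2 / 16) ≤ |((hev r f w.1 w.2 : ℤ) : ℝ)| ∧
        ∃ m0 m1 y : ℕ, 1 ≤ m0 ∧ (m0 : ℝ) ≤ ((A : ℝ) * B) ^ c ∧ 1 ≤ m1 ∧
          (m1 : ℝ) ≤ ((A : ℝ) * B) ^ (1 - ε2) ∧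
          Nat.Coprime m1 (d * f.coeff r).natAbs ∧ 1 ≤ y ∧
          (hev r f w.1 w.2).natAbs = m0 * m1 * y ^ e) →
      (T.card : ℝ) ≤ C0 * ((A : ℝ) * B) ^ (1 - c)) := by
    intro e
    by_cases he : 2 ≤ e
    · obtain ⟨C0, c, h1, h2, h3, _, h5⟩ := card_powers f P Q d hd0 hd hr e he ε2 hε20
      exact ⟨C0, c, h1, h2, h3, fun _ => h5⟩
    · exact ⟨1, 1, one_pos, one_pos, le_rfl, fun h => absurd h he⟩
  choose CE cE hCE hcE hcE1 hE2 using hE2
  set EE : Finset ℕ := Finset.Icc 2 (2 * r + 2) with hEE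
  have hEEne : EE.Nonempty := ⟨2, by rw [hEE, Finset.mem_Icc]; omega⟩
  set c' : ℝ := EE.inf' hEEne cE with hc'
  have hc'0 : 0 < c' := by
    rw [hc', Finset.lt_inf'_iff]
    intro e _; exact hcE e
  have hc'le : ∀ e ∈ EE, c' ≤ cE e := fun e he => Finset.inf'_le _ he
  set η1 : ℝ := min c' (ε0 / 16) with hη1
  have hη10 : 0 < η1 := lt_min hc'0 (by positivity)
  set M0 : ℕ := (d * f.coeff r).natAbs with hM0
  have hM0ne : M0 ≠ 0 := Int.natAbs_ne_zero.mpr (mul_ne_zero hd0 hf0)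
  obtain ⟨Cb, δb, hCb, hδb, hδb2, hEb⟩ := card_bad f hf0 M0 hM0ne η1 hη10
  set δ0 : ℝ := θ / (2 * r) with hδ0
  have hδ00 : 0 < δ0 := by positivity
  set δ : ℝ := min (min δ0 (η / 4)) (min δb c') with hδ
  have hδpos : 0 < δ := lt_min (lt_min hδ00 (by positivity)) (lt_min hδb hc'0)
  have hδδ0 : δ ≤ δ0 := (min_le_left _ _).trans (min_le_left _ _)
  have hδη : δ ≤ η / 4 := (min_le_left _ _).trans (min_le_right _ _)
  have hδδb : δ ≤ δb := (min_le_right _ _).trans (min_le_left _ _)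
  have hδc' : δ ≤ c' := (min_le_right _ _).trans (min_le_right _ _)
  set Cs : ℝ := csum r f with hCs
  have hCs0 : 0 ≤ Cs := csum_nonneg _ _
  set U0 : ℝ := Cs + 2 with hU0
  set CEs : ℝ := ∑ e ∈ EE, CE e with hCEs
  have hCEs0 : 0 ≤ CEs := Finset.sum_nonneg (fun e _ => (hCE e).le)
  refine ⟨3 * U0 + (3 * r + (C1 + (Cb + CEs))), δ, by positivity, hδpos, hδδb.trans hδb2, ?_⟩
  intro A B hB hBA T hT hTw
  have hA : 1 ≤ A := hB.trans hBA
  have hA1 : (1 : ℝ) ≤ (A : ℝ) := by exact_mod_cast hA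
  have hB1 : (1 : ℝ) ≤ (B : ℝ) := by exact_mod_cast hB
  have hBAR : (B : ℝ) ≤ (A : ℝ) := by exact_mod_cast hBA
  have hA0 : (0 : ℝ) < (A : ℝ) := by linarith
  set U : ℝ := (A : ℝ) * B with hUdef
  have hU1 : 1 ≤ U := by rw [hUdef]; nlinarith
  have hUpos : 0 < U := by linarith
  have hUA : U ≤ (A : ℝ) ^ (2 : ℝ) := by
    have h2 : (A : ℝ) ^ (2 : ℝ) = (A : ℝ) * A := by
      rw [Real.rpow_two]; ring
    rw [h2, hUdef]; nlinarith
  have hAU : (A : ℝ) ≤ U := by rw [hUdef]; nlinarith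
  have hUδ1 : 1 ≤ U ^ (1 - δ) := Real.one_le_rpow hU1 (by linarith)
  have hUδ0 : 0 ≤ U ^ (1 - δ) := by linarith
  rcases lt_or_ge U U0 with hUU | hUU
  · have h1 : (T.card : ℝ) ≤ ((box A B).card : ℝ) := by exact_mod_cast Finset.card_le_card hT
    have h2 := card_box_le (A := A) (B := B) hA
    have h3 : 3 * U0 * 1 ≤ (3 * U0 + (3 * r + (C1 + (Cb + CEs)))) * U ^ (1 - δ) := by
      apply mul_le_mul _ hUδ1 zero_le_one (by positivity)
      have : 0 ≤ 3 * (r : ℝ) + (C1 + (Cb + CEs)) := by positivity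
      linarith
    linarith
  have hU2 : 2 ≤ U := by linarith
  have hU1' : 1 < U := by linarith
  set Φ : ℤ × ℤ → ℤ := fun w => hev r f w.1 w.2 with hΦ
  set T0 := T.filter (fun w => |((Φ w : ℤ) : ℝ)| < (A : ℝ) ^ ((r : ℝ) - θ)) with hT0
  set T1 := T.filter (fun w => ∃ D : ℕ, Squareful D ∧ Nat.Coprime D M0 ∧
        U ^ η ≤ (D : ℝ) ∧ (D : ℝ) ≤ U ^ (2 - 2 * η) ∧ (D : ℤ) ∣ Φ w) with hT1
  set Tb := T.filter (fun w => U ^ η1 < ((∏ p ∈ (Φ w).natAbs.primeFactors.filter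
    (fun p => p ∣ M0), p ^ (Φ w).natAbs.factorization p : ℕ) : ℝ)) with hTb
  set T2 : ℕ → Finset (ℤ × ℤ) := fun e => T.filter (fun w =>
    (A : ℝ) ^ ((r : ℝ) - ε2 / 16) ≤ |((Φ w : ℤ) : ℝ)| ∧
        ∃ m0 m1 y : ℕ, 1 ≤ m0 ∧ (m0 : ℝ) ≤ U ^ c' ∧ 1 ≤ m1 ∧
          (m1 : ℝ) ≤ U ^ (1 - ε2) ∧
          Nat.Coprime m1 M0 ∧ 1 ≤ y ∧
          (Φ w).natAbs = m0 * m1 * y ^ e) with hT2
  have hcover : T ⊆ T0 ∪ (T1 ∪ (Tb ∪ EE.biUnion T2)) := by
    intro w hw
    obtain ⟨hcop, hne, hrad⟩ := hTw w hw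
    rw [Finset.mem_union, Finset.mem_union, Finset.mem_union, Finset.mem_biUnion]
    by_cases h0 : |((Φ w : ℤ) : ℝ)| < (A : ℝ) ^ ((r : ℝ) - θ)
    · left; rw [hT0, Finset.mem_filter]; exact ⟨hw, h0⟩
    push Not at h0
    right
    by_cases h1 : ∃ D : ℕ, Squareful D ∧ Nat.Coprime D M0 ∧
        U ^ η ≤ (D : ℝ) ∧ (D : ℝ) ≤ U ^ (2 - 2 * η) ∧ (D : ℤ) ∣ Φ w
    · left; rw [hT1, Finset.mem_filter]; exact ⟨hw, h1⟩
    right
    by_cases hb : U ^ η1 < ((∏ p ∈ (Φ w).natAbs.primeFactors.filter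
      (fun p => p ∣ M0), p ^ (Φ w).natAbs.factorization p : ℕ) : ℝ)
    · left; rw [hTb, Finset.mem_filter]; exact ⟨hw, hb⟩
    right
    push Not at hb
    set n := (Φ w).natAbs with hn
    have hn0 : n ≠ 0 := Int.natAbs_ne_zero.mpr hne
    have hnR : (n : ℝ) = |((Φ w : ℤ) : ℝ)| := by
      rw [hn, Nat.cast_natAbs]; push_cast; rfl
    set N : ℝ := ((∏ p ∈ n.primeFactors, p : ℕ) : ℝ) with hN
    have hrad1 : N < (A : ℝ) ^ ((r : ℝ) - ε) := lt_of_lt_of_le hrad (min_le_left _ _)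
    have hrad2 : N < U ^ (2 - ε) := lt_of_lt_of_le hrad (min_le_right _ _)
    have hdec := decomp (n := n) (M0 := M0) hn0 (y := U ^ (1 - η)) (Y1 := U ^ η)
      (Y2 := U ^ (2 - 2 * η)) (Yb := U ^ η1)
      (Real.one_lt_rpow hU1' hη0) (Real.one_le_rpow hU1 hη10.le) (Real.rpow_nonneg hUpos.le _)
      (by
        rw [← Real.rpow_natCast, ← Real.rpow_mul hUpos.le]
        apply Real.rpow_le_rpow_of_exponent_le hU1
        push_cast; linarith)
      (by
        rw [← Real.rpow_natCast, ← Real.rpow_mul hUpos.le]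
        apply Real.rpow_le_rpow_of_exponent_le hU1
        push_cast; linarith)
      (by
        intro D hDn hDs hDc hD1
        by_contra hcon
        push Not at hcon
        apply h1
        refine ⟨D, hDs, hDc, hD1, hcon, ?_⟩
        exact Int.natCast_dvd.mpr hDn)
      hb
    rcases hdec with hi | hii | ⟨p, e, m0, m1, hp, hpy, he, hfac, hm0, hm1, hm0U, hm1c, hm1p⟩
    · exfalso
      have h2 : U ^ (2 - ε) ≤ (U ^ (1 - η)) ^ 2 := by
        rw [← Real.rpow_natCast, ← Real.rpow_mul hUpos.le]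
        apply Real.rpow_le_rpow_of_exponent_le hU1
        push_cast; linarith
      linarith
    · exfalso
      have h2 : (A : ℝ) ^ ((r : ℝ) - θ) ≤ U ^ η1 * U ^ η * N := by
        rw [← hnR] at h0
        exact h0.trans hii
      have h3 : U ^ η1 * U ^ η ≤ (A : ℝ) ^ (2 * (η1 + η)) := by
        rw [← Real.rpow_add hUpos]
        calc U ^ (η1 + η) ≤ ((A : ℝ) ^ (2 : ℝ)) ^ (η1 + η) :=
              Real.rpow_le_rpow hUpos.le hUA (by positivity)
          _ = (A : ℝ) ^ (2 * (η1 + η)) := by rw [← Real.rpow_mul hA0.le]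
      have h4 : (A : ℝ) ^ ((r : ℝ) - θ) < (A : ℝ) ^ (2 * (η1 + η)) * (A : ℝ) ^ ((r : ℝ) - ε) := by
        have hApos : 0 < (A : ℝ) ^ (2 * (η1 + η)) := Real.rpow_pos_of_pos hA0 _
        have hN0 : 0 ≤ N := Nat.cast_nonneg _
        calc (A : ℝ) ^ ((r : ℝ) - θ) ≤ U ^ η1 * U ^ η * N := h2
          _ ≤ (A : ℝ) ^ (2 * (η1 + η)) * N := by gcongr
          _ < (A : ℝ) ^ (2 * (η1 + η)) * (A : ℝ) ^ ((r : ℝ) - ε) := by gcongr
      rw [← Real.rpow_add hA0] at h4
      have h5 : (A : ℝ) ^ (2 * (η1 + η) + ((r : ℝ) - ε)) ≤ (A : ℝ) ^ ((r : ℝ) - θ) := by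
        apply Real.rpow_le_rpow_of_exponent_le hA1
        have : η1 ≤ ε0 / 16 := min_le_right _ _
        linarith
      linarith
    · have hpR : (1 : ℝ) ≤ (p : ℝ) := by exact_mod_cast hp.one_le
      refine ⟨e, ?_, ?_⟩
      · rw [hEE, Finset.mem_Icc]
        refine ⟨he, ?_⟩
        by_contra hcon
        push Not at hcon
        have h2 : p ^ e ≤ n := by
          rw [hfac]
          exact Nat.le_mul_of_pos_left _ (Nat.pos_of_ne_zero (mul_ne_zero hm0 hm1))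
        have h3 : (p : ℝ) ^ e ≤ (n : ℝ) := by exact_mod_cast h2
        have hbx := mem_box.mp (hT hw)
        have h4 : (n : ℝ) ≤ Cs * (A : ℝ) ^ r := by
          rw [hnR]
          apply abs_hev_le
          · rw [abs_le]
            exact ⟨by exact_mod_cast hbx.1.1, by exact_mod_cast hbx.1.2⟩
          · have e1 : (0 : ℝ) ≤ (w.2 : ℝ) := by
              have : (0 : ℤ) ≤ w.2 := by linarith [hbx.2.1]
              exact_mod_cast this
            rw [abs_of_nonneg e1]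
            have e2 : (w.2 : ℝ) ≤ (B : ℝ) := by exact_mod_cast hbx.2.2
            linarith
        have h5 : (n : ℝ) < U ^ ((r : ℝ) + 1) := by
          rw [Real.rpow_add hUpos, Real.rpow_one, Real.rpow_natCast]
          have e3 : (A : ℝ) ^ r ≤ U ^ r := by gcongr
          have e4 : 0 < U ^ r := by positivity
          calc (n : ℝ) ≤ Cs * (A : ℝ) ^ r := h4
            _ ≤ Cs * U ^ r := by gcongr
            _ < U * U ^ r := by
                apply mul_lt_mul_of_pos_right _ e4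
                linarith
            _ = U ^ r * U := mul_comm _ _
        have h6 : U ^ ((r : ℝ) + 1) ≤ (p : ℝ) ^ e := by
          have e5 : U ^ (1 / 2 : ℝ) ≤ (p : ℝ) := by
            refine le_trans ?_ hpy.le
            apply Real.rpow_le_rpow_of_exponent_le hU1
            linarith
          calc U ^ ((r : ℝ) + 1) ≤ (U ^ (1 / 2 : ℝ)) ^ e := by
                rw [← Real.rpow_natCast, ← Real.rpow_mul hUpos.le]
                apply Real.rpow_le_rpow_of_exponent_le hU1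
                have : (2 * r + 3 : ℝ) ≤ (e : ℝ) := by
                  have : 2 * r + 3 ≤ e := by omega
                  exact_mod_cast this
                linarith
            _ ≤ (p : ℝ) ^ e := by gcongr
        linarith
      · rw [hT2, Finset.mem_filter]
        refine ⟨hw, h0, m0, m1, p, Nat.one_le_iff_ne_zero.mpr hm0, ?_,
          Nat.one_le_iff_ne_zero.mpr hm1, ?_, hm1c, hp.one_le, hfac⟩
        · refine hm0U.trans ?_
          apply Real.rpow_le_rpow_of_exponent_le hU1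
          exact min_le_left _ _
        · by_contra hcon
          push Not at hcon
          have h2 : U ^ (1 - ε2) * U ^ (1 - η) < U ^ η * N := by
            have e1 : 0 < U ^ (1 - ε2) := Real.rpow_pos_of_pos hUpos _
            have e2 : 0 < U ^ (1 - η) := Real.rpow_pos_of_pos hUpos _
            calc U ^ (1 - ε2) * U ^ (1 - η) < (m1 : ℝ) * p := by
                  apply mul_lt_mul'' hcon hpy e1.le e2.le
              _ ≤ U ^ η * N := hm1p
          have h3 : U ^ η * N < U ^ η * U ^ (2 - ε) := by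
            have e1 : 0 < U ^ η := Real.rpow_pos_of_pos hUpos _
            gcongr
          have h4 : U ^ η * U ^ (2 - ε) ≤ U ^ (1 - ε2) * U ^ (1 - η) := by
            rw [← Real.rpow_add hUpos, ← Real.rpow_add hUpos]
            apply Real.rpow_le_rpow_of_exponent_le hU1
            linarith
          linarith
  have hT0le : (T0.card : ℝ) ≤ 3 * r * U ^ (1 - δ) := by
    have h1 := card_small_values f (by omega) θ hθ0 (by rw [← hrdef]; linarith) A B hA T0
      ((Finset.filter_subset _ _).trans hT) (fun w hw => (Finset.mem_filter.mp hw).2)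
    refine h1.trans ?_
    rw [← hrdef]
    have hr00 : (0 : ℝ) < (r : ℝ) := by linarith
    have h2 : (A : ℝ) ^ (1 - θ / r) * B ≤ U ^ (1 - δ) := by
      have e1 : (A : ℝ) ^ (1 - θ / r) * B = U * (A : ℝ) ^ (-(θ / r)) := by
        rw [sub_eq_add_neg, Real.rpow_add hA0, Real.rpow_one, hUdef]; ring
      have e2 : (A : ℝ) ^ (-(θ / r)) ≤ U ^ (-δ0) := by
        have e3 : (A : ℝ) ^ (-(θ / r)) = ((A : ℝ) ^ (2 : ℝ)) ^ (-δ0) := by
          rw [← Real.rpow_mul hA0.le, hδ0]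
          congr 1
          field_simp
        rw [e3]
        apply Real.rpow_le_rpow_of_nonpos hUpos hUA
        linarith
      rw [e1]
      calc U * (A : ℝ) ^ (-(θ / r)) ≤ U * U ^ (-δ0) := by gcongr
        _ = U ^ (1 - δ0) := by rw [sub_eq_add_neg, Real.rpow_add hUpos, Real.rpow_one]
        _ ≤ U ^ (1 - δ) := Real.rpow_le_rpow_of_exponent_le hU1 (by linarith)
    gcongr
  have hT1le : (T1.card : ℝ) ≤ C1 * U ^ (1 - δ) := by
    have h1 := hE1 A B hA hB T1 ((Finset.filter_subset _ _).trans hT) (by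
      intro w hw
      have h2 := Finset.mem_filter.mp hw
      exact ⟨(hTw w h2.1).1, h2.2⟩)
    refine h1.trans ?_
    have h2 : U ^ (1 - η / 4) ≤ U ^ (1 - δ) :=
      Real.rpow_le_rpow_of_exponent_le hU1 (by linarith)
    gcongr
  have hTble : (Tb.card : ℝ) ≤ Cb * U ^ (1 - δ) := by
    have h1 := hEb A B hB hBA Tb ((Finset.filter_subset _ _).trans hT) (by
      intro w hw
      have h2 := Finset.mem_filter.mp hw
      exact ⟨(hTw w h2.1).2.1, h2.2⟩)
    refine h1.trans ?_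
    have h2 : U ^ (1 - δb) ≤ U ^ (1 - δ) :=
      Real.rpow_le_rpow_of_exponent_le hU1 (by linarith)
    gcongr
  have hT2le : ∀ e ∈ EE, ((T2 e).card : ℝ) ≤ CE e * U ^ (1 - δ) := by
    intro e he
    have h1 := hE2 e (Finset.mem_Icc.mp he).1 A B hB hBA (T2 e)
      ((Finset.filter_subset _ _).trans hT) (by
        intro w hw
        obtain ⟨h2, h3, m0, m1, y, h4, h5, h6⟩ := Finset.mem_filter.mp hw
        refine ⟨(hTw w h2).1, h3, m0, m1, y, h4, ?_, h6⟩
        exact h5.trans (Real.rpow_le_rpow_of_exponent_le hU1 (hc'le e he)))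
    refine h1.trans ?_
    have h2 : U ^ (1 - cE e) ≤ U ^ (1 - δ) := by
      apply Real.rpow_le_rpow_of_exponent_le hU1
      have := hc'le e he
      linarith
    have := (hCE e).le
    gcongr
  have hbi : ((EE.biUnion T2).card : ℝ) ≤ CEs * U ^ (1 - δ) := by
    calc ((EE.biUnion T2).card : ℝ) ≤ ∑ e ∈ EE, ((T2 e).card : ℝ) := by
          exact_mod_cast Finset.card_biUnion_le
      _ ≤ ∑ e ∈ EE, CE e * U ^ (1 - δ) := Finset.sum_le_sum hT2le
      _ = CEs * U ^ (1 - δ) := by rw [hCEs, Finset.sum_mul]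
  have hfin : (T.card : ℝ) ≤ T0.card + (T1.card + (Tb.card + (EE.biUnion T2).card)) := by
    have h1 := Finset.card_le_card hcover
    have h2 := Finset.card_union_le T0 (T1 ∪ (Tb ∪ EE.biUnion T2))
    have h3 := Finset.card_union_le T1 (Tb ∪ EE.biUnion T2)
    have h4 := Finset.card_union_le Tb (EE.biUnion T2)
    have h5 : T.card ≤ T0.card + (T1.card + (Tb.card + (EE.biUnion T2).card)) := by omega
    exact_mod_cast h5
  have h9 : 0 ≤ 3 * U0 * U ^ (1 - δ) := by positivity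
  linarith

end Pool.Agent.Lib.MP_d8bd92_nt
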