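import Pool.Agent.Lib.MP_d8bd92_nt.TfDefs

set_option autoImplicit false

namespace Pool.Agent.Lib.MP_d8bd92_nt

open Finset Pool.Agent.Lib.Szpiro

namespace TfG

/-- primes in consecutive dyadic intervals -/
lemma exists_primes (P' : ℕ) (hP' : 1 ≤ P') : ∃ p : ℕ → ℕ,
    (∀ i, (p i).Prime) ∧ (∀ i, 2 ^ i * P' < p i) ∧ (∀ i, p i ≤ 2 ^ (i + 1) * P') := by
  have h : ∀ i : ℕ, ∃ q : ℕ, q.Prime ∧ 2 ^ i * P' < q ∧ q ≤ 2 ^ (i + 1) * P' := by
    intro i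
    obtain ⟨q, hq, h1, h2⟩ := Nat.exists_prime_lt_and_le_two_mul (2 ^ i * P')
      (by positivity)
    refine ⟨q, hq, h1, ?_⟩
    calc q ≤ 2 * (2 ^ i * P') := h2
      _ = 2 ^ (i + 1) * P' := by ring
  choose p hp h1 h2 using h
  exact ⟨p, hp, h1, h2⟩

/-- if all the primes divide `N` then `N` is large -/
lemma pow_le_of_dvd (P' N m : ℕ) (hN : 1 ≤ N) (p : ℕ → ℕ) (hP' : 1 ≤ P')
    (hp : ∀ i, (p i).Prime) (h1 : ∀ i, 2 ^ i * P' < p i) (h2 : ∀ i, p i ≤ 2 ^ (i + 1) * P')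
    (hd : ∀ i, i < m → p i ∣ N) : 2 ^ (∑ i ∈ range m, i) ≤ N := by
  have hmono : StrictMono p := strictMono_nat_of_lt_succ (fun i => (h2 i).trans_lt (h1 (i + 1)))
  have hdvd : (∏ q ∈ (range m).image p, q) ∣ N := by
    refine Finset.prod_primes_dvd N ?_ ?_
    · intro a ha
      obtain ⟨i, _, rfl⟩ := Finset.mem_image.mp ha
      exact (hp i).prime
    · intro a ha
      obtain ⟨i, hi, rfl⟩ := Finset.mem_image.mp ha
      exact hd i (Finset.mem_range.mp hi)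
  rw [Finset.prod_image (fun a _ b _ hab => hmono.injective hab)] at hdvd
  calc 2 ^ (∑ i ∈ range m, i) = ∏ i ∈ range m, 2 ^ i := (Finset.prod_pow_eq_pow_sum _ _ _).symm
    _ ≤ ∏ i ∈ range m, p i := by
        refine Finset.prod_le_prod' (fun i _ => ?_)
        have := h1 i
        have h3 : 2 ^ i * 1 ≤ 2 ^ i * P' := Nat.mul_le_mul_left _ hP'
        omega
    _ ≤ N := Nat.le_of_dvd (by omega) hdvd

end TfG

/-- Row G. A prime avoiding a number. -/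
theorem tf_prime (σ κ : ℝ) (hσ : 0 < σ) (hκ : 1 ≤ κ) : ∃ C : ℝ, 1 ≤ C ∧
    ∀ (Z N : ℕ) (P : ℝ), 1 ≤ Z → 1 ≤ N → (N : ℝ) ≤ κ * (Z : ℝ) ^ κ → 1 ≤ P →
    ∃ p : ℕ, p.Prime ∧ P ≤ p ∧ (p : ℝ) ≤ C * (Z : ℝ) ^ σ * P ∧ ¬ p ∣ N := by
  obtain ⟨m₀, hm₀⟩ : ∃ m₀ : ℕ, 2 * κ / σ + 2 * κ + 4 ≤ (m₀ : ℝ) := exists_nat_ge _
  have hκ0 : 0 < κ := by linarith
  have hA : 0 < 2 * κ / σ := by positivity
  refine ⟨2 ^ (m₀ + 2), one_le_pow₀ (by norm_num), ?_⟩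
  intro Z N P hZ hN hNZ hP
  have hl2 : 0 < Real.log 2 := Real.log_pos (by norm_num)
  have hl2' : (1 : ℝ) / 2 < Real.log 2 := by
    have := Real.log_two_gt_d9
    linarith
  have hZ1 : (1 : ℝ) ≤ Z := by exact_mod_cast hZ
  have hx : 0 ≤ Real.log Z := Real.log_nonneg hZ1
  set x : ℝ := Real.log Z with hxdef
  set t : ℝ := σ * x / Real.log 2 with ht
  have ht0 : 0 ≤ t := by positivity
  set m : ℕ := ⌈t⌉₊ + m₀ with hm
  have hP' : 1 ≤ ⌈P⌉₊ := Nat.one_le_ceil_iff.mpr (by linarith)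
  obtain ⟨p, hp, h1, h2⟩ := TfG.exists_primes ⌈P⌉₊ hP'
  have hex : ∃ i, i < m ∧ ¬ p i ∣ N := by
    by_contra hcon
    push Not at hcon
    have h3 := TfG.pow_le_of_dvd ⌈P⌉₊ N m hN p hP' hp h1 h2 hcon
    have h4 : ((2 : ℝ)) ^ (∑ i ∈ range m, i) ≤ κ * (Z : ℝ) ^ κ :=
      le_trans (by exact_mod_cast h3) hNZ
    have h5 := Real.log_le_log (by positivity) h4
    rw [Real.log_pow, Real.log_mul (by positivity) (by positivity),
      Real.log_rpow (by linarith)] at h5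
    have h6 : ((∑ i ∈ range m, i : ℕ) : ℝ) * 2 = (m : ℝ) * ((m : ℝ) - 1) := by
      have h7 := Finset.sum_range_id_mul_two m
      have hm1 : 1 ≤ m := by
        have : (1 : ℝ) ≤ m₀ := by linarith
        have : 1 ≤ m₀ := by exact_mod_cast this
        omega
      have h8 : ((((∑ i ∈ range m, i) * 2 : ℕ)) : ℝ) = ((m * (m - 1) : ℕ) : ℝ) := by rw [h7]
      push_cast [Nat.cast_sub hm1] at h8 ⊢
      exact h8
    have h9 : Real.log κ ≤ κ - 1 := Real.log_le_sub_one_of_pos hκ0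
    -- `m ≥ t + m₀`
    have hmt : t + m₀ ≤ (m : ℝ) := by
      rw [hm]
      push_cast
      have := Nat.le_ceil t
      linarith
    have h10 : (t + m₀) * ((m₀ : ℝ) - 1) ≤ (m : ℝ) * ((m : ℝ) - 1) := by
      apply mul_le_mul hmt
      · linarith
      · linarith
      · linarith
    have h11 : (m : ℝ) * ((m : ℝ) - 1) * Real.log 2 ≤ 2 * (κ - 1 + κ * x) := by
      rw [← h6]
      nlinarith [h5, h9]
    have h12 : (t + m₀) * ((m₀ : ℝ) - 1) * Real.log 2 ≤ 2 * (κ - 1 + κ * x) :=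
      (mul_le_mul_of_nonneg_right h10 hl2.le).trans h11
    have h13 : t * Real.log 2 = σ * x := by
      rw [ht]
      field_simp
    have h14 : 2 * κ * x ≤ t * ((m₀ : ℝ) - 1) * Real.log 2 := by
      have e : t * ((m₀ : ℝ) - 1) * Real.log 2 = (((m₀ : ℝ) - 1) * σ) * x := by
        rw [mul_right_comm, h13]
        ring
      rw [e]
      refine mul_le_mul_of_nonneg_right ?_ hx
      have h15 : 2 * κ / σ ≤ (m₀ : ℝ) - 1 := by linarith
      have h16 := mul_le_mul_of_nonneg_right h15 hσ.le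
      have h17 : 2 * κ / σ * σ = 2 * κ := by field_simp
      linarith
    have h18 : 2 * κ < (m₀ : ℝ) * ((m₀ : ℝ) - 1) * Real.log 2 := by
      have h19 : (2 * κ + 4) * (2 * κ + 3) ≤ (m₀ : ℝ) * ((m₀ : ℝ) - 1) := by
        apply mul_le_mul <;> linarith
      have h20 : (m₀ : ℝ) * ((m₀ : ℝ) - 1) * (1 / 2) ≤ (m₀ : ℝ) * ((m₀ : ℝ) - 1) * Real.log 2 := by
        apply mul_le_mul_of_nonneg_left hl2'.le
        nlinarith
      nlinarith
    nlinarith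
  obtain ⟨i, hi, hni⟩ := hex
  refine ⟨p i, hp i, ?_, ?_, hni⟩
  · have h3 : ⌈P⌉₊ ≤ p i := by
      have h4 : 1 * ⌈P⌉₊ ≤ 2 ^ i * ⌈P⌉₊ := Nat.mul_le_mul_right _ Nat.one_le_two_pow
      have := h1 i
      omega
    calc P ≤ (⌈P⌉₊ : ℝ) := Nat.le_ceil P
      _ ≤ (p i : ℝ) := by exact_mod_cast h3
  · have h3 : (p i : ℝ) ≤ 2 ^ (i + 1) * (⌈P⌉₊ : ℝ) := by exact_mod_cast h2 i
    have h4 : (⌈P⌉₊ : ℝ) ≤ 2 * P := by
      have := (Nat.ceil_lt_add_one (by linarith : (0 : ℝ) ≤ P)).le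
      linarith
    have h5 : (2 : ℝ) ^ (i + 1) ≤ 2 ^ m := pow_le_pow_right₀ (by norm_num) hi
    have h6 : (2 : ℝ) ^ m ≤ 2 ^ (m₀ + 1) * (Z : ℝ) ^ σ := by
      have h7 : (⌈t⌉₊ : ℝ) ≤ t + 1 := (Nat.ceil_lt_add_one ht0).le
      have h8 : (2 : ℝ) ^ (⌈t⌉₊) ≤ 2 * (Z : ℝ) ^ σ := by
        calc (2 : ℝ) ^ (⌈t⌉₊) = (2 : ℝ) ^ ((⌈t⌉₊ : ℕ) : ℝ) := (Real.rpow_natCast _ _).symm
          _ ≤ (2 : ℝ) ^ (t + 1) := Real.rpow_le_rpow_of_exponent_le (by norm_num) h7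
          _ = 2 * (Z : ℝ) ^ σ := by
            rw [Real.rpow_add (by norm_num), Real.rpow_one]
            have e : (2 : ℝ) ^ t = (Z : ℝ) ^ σ := by
              rw [Real.rpow_def_of_pos (by norm_num : (0 : ℝ) < 2),
                Real.rpow_def_of_pos (by linarith : (0 : ℝ) < Z)]
              congr 1
              rw [ht, hxdef]
              field_simp
            rw [e]
            ring
      rw [hm, pow_add]
      calc (2 : ℝ) ^ (⌈t⌉₊) * 2 ^ m₀ ≤ (2 * (Z : ℝ) ^ σ) * 2 ^ m₀ :=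
            mul_le_mul_of_nonneg_right h8 (by positivity)
        _ = 2 ^ (m₀ + 1) * (Z : ℝ) ^ σ := by ring
    have hZσ : 0 ≤ (Z : ℝ) ^ σ := by positivity
    calc (p i : ℝ) ≤ 2 ^ (i + 1) * (⌈P⌉₊ : ℝ) := h3
      _ ≤ (2 ^ (m₀ + 1) * (Z : ℝ) ^ σ) * (2 * P) := by
          apply mul_le_mul (h5.trans h6) h4 (by positivity) (by positivity)
      _ = 2 ^ (m₀ + 2) * (Z : ℝ) ^ σ * P := by ring

end Pool.Agent.Lib.MP_d8bd92_nt
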