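import Pool.Agent.Lib.MP_d8bd92_nt.TfDefs

namespace Pool.Agent.Lib.MP_d8bd92_nt

open Finset

namespace TfH

open Polynomial

lemma lift_poly {A : Type*} [CommRing A] (k : ℕ) (v z₀ : A) (h : A[X])
    (h0 : v * z₀ ^ k = h.coeff 0) (hun : IsUnit ((k : A) * v * z₀ ^ (k - 1))) :
    ∀ n : ℕ, 1 ≤ n → ∃ q : A[X], q.coeff 0 = z₀ ∧ X ^ n ∣ C v * q ^ k - h := by
  intro n hn
  induction n, hn using Nat.le_induction with
  | base =>
    refine ⟨C z₀, by simp, ?_⟩
    rw [pow_one, X_dvd_iff, coeff_sub, coeff_C_mul, ← C_pow, coeff_C_zero, h0, sub_self]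
  | succ n hn ih =>
    obtain ⟨q, hq0, r, hr⟩ := ih
    obtain ⟨w, hw⟩ := hun
    set c : A := r.coeff 0 * (↑w⁻¹ : A) with hc
    refine ⟨q + -(C c * X ^ n), ?_, ?_⟩
    · rw [coeff_add, coeff_neg, coeff_C_mul, coeff_X_pow, if_neg (by omega), mul_zero, neg_zero,
        add_zero, hq0]
    · obtain ⟨s, hs⟩ := powAddExpansion q (-(C c * X ^ n)) k
      have hX : X ∣ r - C ((k : A) * v * c) * q ^ (k - 1) := by
        rw [X_dvd_iff, coeff_sub, coeff_C_mul]
        have e1 : (q ^ (k - 1)).coeff 0 = z₀ ^ (k - 1) := by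
          rw [coeff_zero_eq_eval_zero, eval_pow, ← coeff_zero_eq_eval_zero, hq0]
        rw [e1, hc]
        have e2 : (k : A) * v * (r.coeff 0 * (↑w⁻¹ : A)) * z₀ ^ (k - 1)
            = r.coeff 0 * ((↑w⁻¹ : A) * ((k : A) * v * z₀ ^ (k - 1))) := by ring
        rw [e2, ← hw, Units.inv_mul, mul_one, sub_self]
      obtain ⟨r', hr'⟩ := hX
      obtain ⟨m, rfl⟩ : ∃ m, n = m + 1 := ⟨n - 1, by omega⟩
      refine ⟨r' + C v * s * C c ^ 2 * X ^ m, ?_⟩
      have e3 : r = C ((k : A) * v * c) * q ^ (k - 1) + X * r' := by rw [← hr']; ring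
      rw [hs]
      have e4 : C v * (q ^ k + (k : A[X]) * q ^ (k - 1) * -(C c * X ^ (m + 1))
          + s * (-(C c * X ^ (m + 1))) ^ 2) - h
          = (C v * q ^ k - h) - C v * ((k : A[X]) * q ^ (k - 1) * (C c * X ^ (m + 1)))
            + C v * s * (C c) ^ 2 * (X ^ (m + 1)) ^ 2 := by ring
      rw [e4, hr, e3]
      simp only [C_mul, C_eq_natCast]
      ring

lemma local_gen {A : Type*} [CommRing A] (p N : ℕ) (hN : 1 ≤ N) (hpN : ((p : ℕ) : A) ^ N = 0)
    (j k : ℕ) (u v a : ℤ) {ι : Type} (y z : ι → ℤ) (i₀ : ι)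
    (hc : ∀ i, u * y i ^ j + a = v * z i ^ k)
    (hy : ∀ i, (p : ℤ) ∣ y i - y i₀) (hz : ∀ i, (p : ℤ) ∣ z i - z i₀)
    (hz0 : IsUnit ((z i₀ : ℤ) : A)) (hvu : IsUnit ((v : ℤ) : A)) (hku : IsUnit ((k : ℕ) : A)) :
    ∃ q : Polynomial A, ∀ i, ((z i : ℤ) : A) = q.eval ((y i - y i₀ : ℤ) : A) := by
  classical
  set h : Polynomial A := Polynomial.C (u : A) * (Polynomial.C (y i₀ : A) + Polynomial.X) ^ j
    + Polynomial.C (a : A) with hh
  have hcA : ∀ i, (u : A) * (y i : A) ^ j + (a : A) = (v : A) * (z i : A) ^ k := by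
    intro i
    have := congrArg (Int.cast : ℤ → A) (hc i)
    push_cast at this
    exact this
  have h0 : (v : A) * (z i₀ : A) ^ k = h.coeff 0 := by
    rw [Polynomial.coeff_zero_eq_eval_zero, hh]
    simp only [Polynomial.eval_add, Polynomial.eval_mul, Polynomial.eval_C, Polynomial.eval_pow,
      Polynomial.eval_X, add_zero]
    exact (hcA i₀).symm
  obtain ⟨q, hq0, hq⟩ := lift_poly k (v : A) (z i₀ : A) h h0 ((hku.mul hvu).mul (hz0.pow _)) N hN
  refine ⟨q, fun i => ?_⟩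
  obtain ⟨w, hw⟩ := hy i
  set t : A := ((y i - y i₀ : ℤ) : A) with ht
  have ht' : t = (p : A) * (w : A) := by rw [ht, hw]; push_cast; ring
  have htN : t ^ N = 0 := by rw [ht', mul_pow, hpN, zero_mul]
  have hev : (v : A) * (q.eval t) ^ k = (v : A) * (z i : A) ^ k := by
    obtain ⟨r, hr⟩ := hq
    have e := congrArg (Polynomial.eval t) hr
    rw [Polynomial.eval_mul, Polynomial.eval_pow, Polynomial.eval_X, htN, zero_mul, hh] at e
    simp only [Polynomial.eval_add, Polynomial.eval_sub, Polynomial.eval_mul, Polynomial.eval_C,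
      Polynomial.eval_pow, Polynomial.eval_X] at e
    have e2 : (y i₀ : A) + t = (y i : A) := by rw [ht]; push_cast; ring
    rw [e2, hcA i] at e
    exact sub_eq_zero.1 e
  have hpow : (q.eval t) ^ k = (z i : A) ^ k := hvu.mul_left_cancel hev
  have hgeom := (Commute.all (q.eval t) (z i : A)).mul_geom_sum₂ k
  rw [hpow, sub_self] at hgeom
  -- the geometric sum is a unit
  have hmem : (∑ m ∈ Finset.range k, (q.eval t) ^ m * (z i : A) ^ (k - 1 - m))
      - (k : A) * (z i₀ : A) ^ (k - 1) ∈ Ideal.span {(p : A)} := by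
    have hq1 : q.eval t - (z i₀ : A) ∈ Ideal.span {(p : A)} := by
      rw [Ideal.mem_span_singleton]
      have := Polynomial.sub_dvd_eval_sub t 0 q
      rw [← Polynomial.coeff_zero_eq_eval_zero, hq0, sub_zero] at this
      exact (Dvd.intro _ ht'.symm).trans this
    have hz1 : (z i : A) - (z i₀ : A) ∈ Ideal.span {(p : A)} := by
      rw [Ideal.mem_span_singleton]
      obtain ⟨w', hw'⟩ := hz i
      refine ⟨(w' : A), ?_⟩
      have := congrArg (Int.cast : ℤ → A) hw'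
      push_cast at this
      exact this
    rw [← Ideal.Quotient.eq] at hq1 hz1 ⊢
    rw [map_sum, map_mul, map_pow, map_natCast]
    simp only [map_mul, map_pow, hq1, hz1]
    rw [Finset.sum_congr rfl (g := fun _ => (Ideal.Quotient.mk (Ideal.span {(p : A)})
      (z i₀ : A)) ^ (k - 1))]
    · rw [Finset.sum_const, Finset.card_range, nsmul_eq_mul]
    · intro m hm
      rw [Finset.mem_range] at hm
      rw [← pow_add]
      congr 1
      omega
  rw [Ideal.mem_span_singleton] at hmem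
  obtain ⟨s, hs⟩ := hmem
  have hsum : IsUnit (∑ m ∈ Finset.range k, (q.eval t) ^ m * (z i : A) ^ (k - 1 - m)) := by
    have e : (∑ m ∈ Finset.range k, (q.eval t) ^ m * (z i : A) ^ (k - 1 - m))
        = (p : A) * s + (k : A) * (z i₀ : A) ^ (k - 1) := by rw [← hs]; ring
    rw [e]
    have hnil : IsNilpotent ((p : A) * s) := ⟨N, by rw [mul_pow, hpN, zero_mul]⟩
    exact IsNilpotent.isUnit_add_right_of_commute hnil (hku.mul (hz0.pow _)) (Commute.all _ _)
  have hfin : q.eval t - (z i : A) = 0 := hsum.mul_left_eq_zero.1 hgeom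
  exact (sub_eq_zero.1 hfin).symm

end TfH

theorem tf_local (p N : ℕ) (hp : p.Prime) (hN : 1 ≤ N) (j k : ℕ) (hk : 1 ≤ k) (u v a : ℤ)
    {ι : Type} (y z : ι → ℤ) (i₀ : ι) (hc : ∀ i, u * y i ^ j + a = v * z i ^ k)
    (hy : ∀ i, (p : ℤ) ∣ y i - y i₀) (hz : ∀ i, (p : ℤ) ∣ z i - z i₀)
    (hu : ¬ (p : ℤ) ∣ (k : ℤ) * v * z i₀) :
    ∃ q : Polynomial (ZMod (p ^ N)), ∀ i,
      ((z i : ℤ) : ZMod (p ^ N)) = q.eval ((y i - y i₀ : ℤ) : ZMod (p ^ N)) := by
  -- units
  have hunit : IsUnit (((k : ℤ) * v * z i₀ : ℤ) : ZMod (p ^ N)) := by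
    rw [ZMod.coe_int_isUnit_iff_isCoprime]
    push_cast
    refine IsCoprime.pow_left ?_
    exact (Prime.coprime_iff_not_dvd (Nat.prime_iff_prime_int.1 hp)).2 hu
  push_cast at hunit
  have hz0 : IsUnit ((z i₀ : ℤ) : ZMod (p ^ N)) := isUnit_of_mul_isUnit_right hunit
  have hkv : IsUnit ((k : ZMod (p ^ N)) * (v : ZMod (p ^ N))) := isUnit_of_mul_isUnit_left hunit
  have hvu : IsUnit ((v : ℤ) : ZMod (p ^ N)) := isUnit_of_mul_isUnit_right hkv
  have hku : IsUnit ((k : ℕ) : ZMod (p ^ N)) := isUnit_of_mul_isUnit_left hkv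
  have hpN : ((p : ℕ) : ZMod (p ^ N)) ^ N = 0 := by
    have : ((p ^ N : ℕ) : ZMod (p ^ N)) = 0 := ZMod.natCast_self _
    push_cast at this
    exact this
  exact TfH.local_gen p N hN hpN j k u v a y z i₀ hc hy hz hz0 hvu hku

end Pool.Agent.Lib.MP_d8bd92_nt
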