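import Pool.Agent.Lib.MP_d8bd92_nt.TfDefs

set_option autoImplicit false

namespace Pool.Agent.Lib.MP_d8bd92_nt

open Finset Pool.Agent.Lib.Szpiro


namespace TfI

/-- the sum of `e` distinct naturals is at least `0 + 1 + ... + (e-1)` -/
theorem sum_ge : ∀ (e : ℕ) (s : Finset ℕ), s.card = e → e * (e - 1) / 2 ≤ ∑ x ∈ s, x := by
  intro e
  induction e with
  | zero => intro s _; simp
  | succ e ih =>
    intro s hs
    have hne : s.Nonempty := by
      rw [← Finset.card_pos, hs]; omega
    set M := s.max' hne with hM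
    have hMs : M ∈ s := s.max'_mem hne
    have hsub : s ⊆ Finset.range (M + 1) := by
      intro x hx
      rw [Finset.mem_range]
      have := s.le_max' x hx
      omega
    have hcard := Finset.card_le_card hsub
    rw [hs, Finset.card_range] at hcard
    have h1 := ih (s.erase M) (by rw [Finset.card_erase_of_mem hMs, hs]; rfl)
    have h2 : ∑ x ∈ s.erase M, x + M = ∑ x ∈ s, x := Finset.sum_erase_add s (fun x => x) hMs
    rw [← h2]
    have h3 : (e + 1) * (e + 1 - 1) / 2 = e * (e - 1) / 2 + e := by
      have h4 : (e + 1) * (e + 1 - 1) = e * (e - 1) + e * 2 := by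
        rcases Nat.eq_zero_or_pos e with h | h
        · subst h; rfl
        · obtain ⟨k, rfl⟩ : ∃ k, e = k + 1 := ⟨e - 1, by omega⟩
          simp only [Nat.add_sub_cancel]
          ring
      rw [h4, Nat.add_mul_div_right _ _ (by norm_num : 0 < 2)]
    rw [h3]
    omega

theorem det_zero {A : Type*} [CommRing A] (P : A) (N e : ℕ) (hP : P ^ N = 0)
    (hN : N ≤ e * (e - 1) / 2) (w : Fin e → A) (q : Fin e → Polynomial A) :
    Matrix.det (Matrix.of fun i m : Fin e => (q m).eval (P * w i)) = 0 := by
  classical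
  -- a common bound for the degrees
  set L : ℕ := (∑ m, (q m).natDegree) + 1 with hL
  have hdeg : ∀ m, (q m).natDegree < L := by
    intro m
    have : (q m).natDegree ≤ ∑ m, (q m).natDegree :=
      Finset.single_le_sum (f := fun m => (q m).natDegree) (fun _ _ => Nat.zero_le _)
        (Finset.mem_univ m)
    omega
  have hrow : (Matrix.of fun i m : Fin e => (q m).eval (P * w i)) =
      fun i => ∑ s : Fin L, ((P * w i) ^ (s : ℕ)) • (fun m : Fin e => (q m).coeff (s : ℕ)) := by
    funext i m
    rw [Matrix.of_apply, Polynomial.eval_eq_sum_range' (hdeg m), Finset.sum_apply,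
      ← Fin.sum_univ_eq_sum_range (fun s => (q m).coeff s * (P * w i) ^ s) L]
    refine Finset.sum_congr rfl fun s _ => ?_
    rw [Pi.smul_apply, smul_eq_mul, mul_comm]
  rw [hrow]
  have h1 := MultilinearMap.map_sum (Matrix.detRowAlternating (R := A) (n := Fin e)).toMultilinearMap
    (α := fun _ => Fin L)
    (fun i s => ((P * w i) ^ (s : ℕ)) • (fun m : Fin e => (q m).coeff (s : ℕ)))
  have h2 : (Matrix.detRowAlternating (R := A) (n := Fin e)).toMultilinearMap
      (fun i => ∑ s : Fin L, ((P * w i) ^ (s : ℕ)) • (fun m : Fin e => (q m).coeff (s : ℕ))) =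
      Matrix.det (fun i => ∑ s : Fin L, ((P * w i) ^ (s : ℕ)) •
        (fun m : Fin e => (q m).coeff (s : ℕ))) := rfl
  rw [← h2, h1]
  refine Finset.sum_eq_zero fun r _ => ?_
  rw [MultilinearMap.map_smul_univ]
  by_cases hr : Function.Injective r
  · have hr' : Function.Injective (fun i => (r i : ℕ)) := fun a b h => hr (Fin.ext h)
    have hs : e * (e - 1) / 2 ≤ ∑ i, (r i : ℕ) := by
      have := sum_ge e (Finset.univ.image (fun i => (r i : ℕ)))
        (by rw [Finset.card_image_of_injective _ hr', Finset.card_univ, Fintype.card_fin])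
      rwa [Finset.sum_image (fun a _ b _ h => hr' h)] at this
    have h3 : ∏ i, (P * w i) ^ (r i : ℕ) = 0 := by
      have h4 : ∏ i, (P * w i) ^ (r i : ℕ) = P ^ (∑ i, (r i : ℕ)) * ∏ i, (w i) ^ (r i : ℕ) := by
        rw [← Finset.prod_pow_eq_pow_sum, ← Finset.prod_mul_distrib]
        exact Finset.prod_congr rfl fun i _ => mul_pow _ _ _
      obtain ⟨d, hd⟩ := Nat.exists_eq_add_of_le (hN.trans hs)
      rw [h4, hd, pow_add, hP, zero_mul, zero_mul]
    rw [h3, zero_smul]
  · have h3 : (Matrix.detRowAlternating (R := A) (n := Fin e)).toMultilinearMap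
        (fun i => fun m : Fin e => (q m).coeff ((r i : Fin L) : ℕ)) = 0 := by
      have h5 : ∃ a b, r a = r b ∧ a ≠ b := by
        by_contra hcon
        push Not at hcon
        exact hr fun a b hab => hcon a b hab
      obtain ⟨a, b, hab, hne⟩ := h5
      show (Matrix.detRowAlternating (R := A) (n := Fin e))
        (fun i => fun m : Fin e => (q m).coeff ((r i : Fin L) : ℕ)) = 0
      refine AlternatingMap.map_eq_zero_of_eq _ _ (i := a) (j := b) ?_ hne
      simp only [hab]
    rw [h3, smul_zero]

end TfI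

theorem tf_det (p N e : ℕ) (hN : N ≤ e * (e - 1) / 2) (w : Fin e → ZMod (p ^ N))
    (q : Fin e → Polynomial (ZMod (p ^ N))) :
    Matrix.det (Matrix.of fun i m : Fin e => (q m).eval ((p : ZMod (p ^ N)) * w i)) = 0 := by
  refine TfI.det_zero (p : ZMod (p ^ N)) N e ?_ hN w q
  have h := ZMod.natCast_self (p ^ N)
  rwa [Nat.cast_pow] at h

end Pool.Agent.Lib.MP_d8bd92_nt
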