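import Pool.Agent.Lib.MP_d8bd92_nt.TfDefs
import Pool.Agent.Lib.MP_d8bd92_nt.TfH
import Pool.Agent.Lib.MP_d8bd92_nt.TfI

namespace Pool.Agent.Lib.MP_d8bd92_nt

open Finset


namespace TfJ

/-- The case where `p` does not divide `z i₀`. -/
lemma det_dvd_case (p e : ℕ) (hp : p.Prime) (j k : ℕ) (hk : 1 ≤ k) (u v a : ℤ)
    (y z : Fin e → ℤ) (E : Fin e → ℕ × ℕ) (hc : ∀ i, u * y i ^ j + a = v * z i ^ k)
    (hy : ∀ i i', (p : ℤ) ∣ y i - y i') (hz : ∀ i i', (p : ℤ) ∣ z i - z i') (i₀ : Fin e)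
    (hN1 : 1 ≤ e * (e - 1) / 2)
    (hu : ¬ (p : ℤ) ∣ (k : ℤ) * v * z i₀) :
    (p : ℤ) ^ (e * (e - 1) / 2) ∣
      Matrix.det (Matrix.of fun i m : Fin e => y i ^ (E m).1 * z i ^ (E m).2) := by
  classical
  obtain ⟨q, hq⟩ := tf_local p (e * (e - 1) / 2) hp hN1 j k hk u v a y z i₀ hc
    (fun i => hy i i₀) (fun i => hz i i₀) hu
  choose w hw using fun i => hy i i₀
  have hdet := tf_det p (e * (e - 1) / 2) e le_rfl (fun i => (w i : ZMod (p ^ (e * (e - 1) / 2))))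
    (fun m => (Polynomial.C ((y i₀ : ℤ) : ZMod (p ^ (e * (e - 1) / 2))) + Polynomial.X) ^ (E m).1
      * q ^ (E m).2)
  have hcast : ((p : ℤ) ^ (e * (e - 1) / 2)) = ((p ^ (e * (e - 1) / 2) : ℕ) : ℤ) := by push_cast; rfl
  rw [hcast, ← ZMod.intCast_zmod_eq_zero_iff_dvd]
  rw [← hdet, Int.cast_det]
  congr 1
  ext i m
  simp only [Matrix.map_apply, Matrix.of_apply]
  rw [Polynomial.eval_mul, Polynomial.eval_pow, Polynomial.eval_pow, Polynomial.eval_add,
    Polynomial.eval_C, Polynomial.eval_X]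
  have e1 : (p : ZMod (p ^ (e * (e - 1) / 2))) * (w i : ZMod (p ^ (e * (e - 1) / 2)))
      = ((y i - y i₀ : ℤ) : ZMod (p ^ (e * (e - 1) / 2))) := by
    rw [hw i]; push_cast; rfl
  rw [e1, ← hq i]
  push_cast
  congr 2
  ring

end TfJ

theorem tf_det_dvd (p e : ℕ) (hp : p.Prime) (j k : ℕ) (hj : 1 ≤ j) (hk : 1 ≤ k) (u v a : ℤ)
    (y z : Fin e → ℤ) (E : Fin e → ℕ × ℕ) (hc : ∀ i, u * y i ^ j + a = v * z i ^ k)
    (hy : ∀ i i', (p : ℤ) ∣ y i - y i') (hz : ∀ i i', (p : ℤ) ∣ z i - z i')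
    (hN : ¬ (p : ℤ) ∣ (j : ℤ) * k * u * v * a) :
    (p : ℤ) ^ (e * (e - 1) / 2) ∣
      Matrix.det (Matrix.of fun i m : Fin e => y i ^ (E m).1 * z i ^ (E m).2) := by
  classical
  have hpi : Prime (p : ℤ) := Nat.prime_iff_prime_int.1 hp
  by_cases hN1 : 1 ≤ e * (e - 1) / 2
  swap
  · have : e * (e - 1) / 2 = 0 := by omega
    rw [this, pow_zero]
    exact one_dvd _
  have he : 0 < e := by
    rcases Nat.eq_zero_or_pos e with h | h
    · subst h; simp at hN1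
    · exact h
  set i₀ : Fin e := ⟨0, he⟩ with hi₀
  have hj' : ¬ (p : ℤ) ∣ (j : ℤ) := fun h => hN ((((h.mul_right _).mul_right _).mul_right _).mul_right _)
  have hk' : ¬ (p : ℤ) ∣ (k : ℤ) := fun h => hN ((((h.mul_left _).mul_right _).mul_right _).mul_right _)
  have hu' : ¬ (p : ℤ) ∣ u := fun h => hN (((h.mul_left _).mul_right _).mul_right _)
  have hv' : ¬ (p : ℤ) ∣ v := fun h => hN ((h.mul_left _).mul_right _)
  have ha' : ¬ (p : ℤ) ∣ a := fun h => hN (h.mul_left _)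
  by_cases hz0 : (p : ℤ) ∣ z i₀
  · -- then `p` does not divide `y i₀`
    have hy0 : ¬ (p : ℤ) ∣ y i₀ := by
      intro h
      have h1 : (p : ℤ) ∣ v * z i₀ ^ k := (dvd_pow hz0 (by omega)).mul_left _
      rw [← hc i₀] at h1
      have h2 : (p : ℤ) ∣ u * y i₀ ^ j := (dvd_pow h (by omega)).mul_left _
      exact ha' ((dvd_add_right h2).1 h1)
    have hu2 : ¬ (p : ℤ) ∣ (j : ℤ) * u * y i₀ := by
      intro h
      rcases hpi.dvd_or_dvd h with h | h
      · rcases hpi.dvd_or_dvd h with h | h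
        · exact hj' h
        · exact hu' h
      · exact hy0 h
    have h := TfJ.det_dvd_case p e hp k j hj v u (-a) z y (fun m => ((E m).2, (E m).1))
      (fun i => by rw [← hc i]; ring) hz hy i₀ hN1 hu2
    have e1 : (Matrix.of fun i m : Fin e => z i ^ (E m).2 * y i ^ (E m).1)
        = Matrix.of fun i m : Fin e => y i ^ (E m).1 * z i ^ (E m).2 := by
      ext i m
      simp only [Matrix.of_apply]
      ring
    simp only at h
    rwa [e1] at h
  · refine TfJ.det_dvd_case p e hp j k hk u v a y z E hc hy hz i₀ hN1 ?_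
    intro h
    rcases hpi.dvd_or_dvd h with h | h
    · rcases hpi.dvd_or_dvd h with h | h
      · exact hk' h
      · exact hv' h
    · exact hz0 h

end Pool.Agent.Lib.MP_d8bd92_nt
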