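import Pool.Agent.Lib.MP_d8bd92_nt.TfDefs

namespace Pool.Agent.Lib.MP_d8bd92_nt

open Finset

namespace TfK

open Polynomial

/-- The polynomial `u X^j + a` over `ℚ`. -/
noncomputable def hh (j : ℕ) (u a : ℚ) : ℚ[X] := C u * X ^ j + C a

/-- `v Y^k - (u X^j + a)`. -/
noncomputable def FF (j k : ℕ) (u v a : ℚ) : ℚ[X][X] := C (C v) * X ^ k - C (hh j u a)

lemma hh_natDegree {j : ℕ} {u a : ℚ} (hu : u ≠ 0) : (hh j u a).natDegree = j := by
  unfold hh
  rw [natDegree_add_C, natDegree_C_mul_X_pow j u hu]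

lemma hh_natDegree_le {j : ℕ} {u a : ℚ} : (hh j u a).natDegree ≤ j := by
  unfold hh
  rw [natDegree_add_C]
  exact natDegree_C_mul_X_pow_le u j

lemma FF_coeff (j k : ℕ) (u v a : ℚ) (n : ℕ) :
    (FF j k u v a).coeff n = (if n = k then C v else 0) - (if n = 0 then hh j u a else 0) := by
  unfold FF
  rw [coeff_sub, coeff_C_mul_X_pow, coeff_C]

lemma FF_natDegree {j k : ℕ} {u v a : ℚ} (hv : v ≠ 0) :
    (FF j k u v a).natDegree = k := by
  unfold FF
  rw [natDegree_sub_C, natDegree_C_mul_X_pow k _ (by simpa using hv)]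

lemma not_sq_dvd {j : ℕ} {u a : ℚ} (hj : 1 ≤ j) (ha : a ≠ 0) {π : ℚ[X]}
    (hπ : Irreducible π) (h2 : π ^ 2 ∣ hh j u a) : False := by
  have h1 : π ∣ hh j u a := (dvd_pow_self π two_ne_zero).trans h2
  have hd : π ∣ derivative (hh j u a) := by
    obtain ⟨q, hq⟩ := h2
    rw [hq, derivative_mul, derivative_pow]
    refine dvd_add ?_ ?_
    · exact ⟨C (2 : ℚ) * derivative π * q, by simp; ring⟩
    · exact ⟨π * derivative q, by ring⟩
  have hder : derivative (hh j u a) = C (u * j) * X ^ (j - 1) := by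
    unfold hh
    rw [derivative_add, derivative_C, add_zero, derivative_C_mul_X_pow]
  have hX : X * derivative (hh j u a) - C (j : ℚ) * hh j u a = C (-((j : ℚ) * a)) := by
    rw [hder]
    unfold hh
    obtain ⟨i, rfl⟩ : ∃ i, j = i + 1 := ⟨j - 1, by omega⟩
    simp only [Nat.add_sub_cancel, C_mul, C_neg]
    ring
  have hdv : π ∣ C (-((j : ℚ) * a)) := by
    rw [← hX]
    exact dvd_sub (hd.mul_left _) (h1.mul_left _)
  have hj0 : (j : ℚ) ≠ 0 := by
    have : j ≠ 0 := by omega
    exact_mod_cast this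
  have hun : IsUnit (C (-((j : ℚ) * a)) : ℚ[X]) := by
    rw [isUnit_C]
    exact (neg_ne_zero.2 (mul_ne_zero hj0 ha)).isUnit
  exact hπ.not_isUnit (isUnit_of_dvd_unit hdv hun)

lemma FF_irreducible {j k : ℕ} {u v a : ℚ} (hj : 1 ≤ j) (hk : 1 ≤ k) (hu : u ≠ 0) (hv : v ≠ 0)
    (ha : a ≠ 0) : Irreducible (FF j k u v a) ∧ (FF j k u v a).IsPrimitive := by
  have hdeg := hh_natDegree (j := j) (a := a) hu
  have hne : hh j u a ≠ 0 := by
    intro h
    rw [h, natDegree_zero] at hdeg
    omega
  have hnu : ¬ IsUnit (hh j u a) := by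
    intro h
    have := natDegree_eq_zero_of_isUnit h
    omega
  obtain ⟨π, hπ, hdvd⟩ := WfDvdMonoid.exists_irreducible_factor hnu hne
  have hvu : IsUnit (C v : ℚ[X]) := by
    rw [isUnit_C]; exact hv.isUnit
  have hprim : (FF j k u v a).IsPrimitive := by
    intro r hr
    rw [C_dvd_iff_dvd_coeff] at hr
    have h1 := hr k
    rw [FF_coeff, if_pos rfl, if_neg (by omega), sub_zero] at h1
    exact isUnit_of_dvd_unit h1 hvu
  refine ⟨?_, hprim⟩
  have hE : (FF j k u v a).IsEisensteinAt (Ideal.span {π}) := by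
    refine ⟨?_, ?_, ?_⟩
    · rw [leadingCoeff, FF_natDegree hv, FF_coeff, if_pos rfl, if_neg (by omega), sub_zero,
        Ideal.mem_span_singleton]
      intro h
      exact hπ.not_isUnit (isUnit_of_dvd_unit h hvu)
    · intro n hn
      rw [FF_natDegree hv] at hn
      rw [FF_coeff, if_neg (by omega), zero_sub, Ideal.mem_span_singleton]
      split_ifs with h0
      · exact (dvd_neg).2 hdvd
      · simp
    · rw [FF_coeff, if_neg (by omega), if_pos rfl, zero_sub, Ideal.span_singleton_pow,
        Ideal.mem_span_singleton, dvd_neg]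
      intro h
      exact not_sq_dvd hj ha hπ h
  refine hE.irreducible ?_ hprim (by rw [FF_natDegree hv]; omega)
  exact (Ideal.span_singleton_prime hπ.ne_zero).2 hπ.prime

lemma natDegree_det_le {n d : ℕ} (M : Matrix (Fin n) (Fin n) ℚ[X])
    (hM : ∀ i i', (M i i').natDegree ≤ d) : M.det.natDegree ≤ n * d := by
  rw [Matrix.det_apply]
  refine natDegree_sum_le_of_forall_le _ _ fun σ _ => ?_
  refine (natDegree_smul_le _ _).trans ?_
  refine (natDegree_prod_le _ _).trans ?_
  refine (Finset.sum_le_card_nsmul _ _ d fun i _ => hM _ _).trans ?_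
  simp

end TfK

theorem tf_bezout (j k I : ℕ) (hj : 1 ≤ j) (hk : 1 ≤ k) (u v a : ℤ) (hu : u ≠ 0) (hv : v ≠ 0)
    (ha : a ≠ 0) (c : Fin I → Fin k → ℚ) (hc : ∃ i l, c i l ≠ 0) (S : Finset (ℕ × ℕ))
    (hS : ∀ q ∈ S, 1 ≤ q.2 ∧ u * (q.1 : ℤ) ^ j + a = v * (q.2 : ℤ) ^ k ∧
      ∑ i, ∑ l, c i l * (q.1 : ℚ) ^ (i : ℕ) * (q.2 : ℚ) ^ (l : ℕ) = 0) :
    S.card ≤ 2 * k * (I + j) := by
  classical
  have hu' : (u : ℚ) ≠ 0 := by exact_mod_cast hu
  have hv' : (v : ℚ) ≠ 0 := by exact_mod_cast hv
  have ha' : (a : ℚ) ≠ 0 := by exact_mod_cast ha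
  obtain ⟨hirr, hprim⟩ := TfK.FF_irreducible hj hk hu' hv' ha'
  set F := TfK.FF j k u v a with hF
  have hFdeg : F.natDegree = k := TfK.FF_natDegree hv'
  -- the second polynomial
  set cc : Fin k → Polynomial ℚ := fun l => ∑ i, Polynomial.C (c i l) * Polynomial.X ^ (i : ℕ)
    with hcc
  set g : Polynomial (Polynomial ℚ) := ∑ l : Fin k, Polynomial.C (cc l) * Polynomial.X ^ (l : ℕ)
    with hg
  have hcc_coeff : ∀ (i : Fin I) (l : Fin k), (cc l).coeff i = c i l := by
    intro i l
    simp only [hcc, Polynomial.finsetSum_coeff, Polynomial.coeff_C_mul, Polynomial.coeff_X_pow]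
    rw [Finset.sum_eq_single i]
    · simp
    · intro b _ hb
      rw [if_neg, mul_zero]
      intro h
      exact hb (Fin.ext h.symm)
    · simp
  have hcc_deg : ∀ l, (cc l).natDegree ≤ I := by
    intro l
    refine Polynomial.natDegree_sum_le_of_forall_le _ _ fun i _ => ?_
    exact (Polynomial.natDegree_C_mul_X_pow_le _ _).trans i.2.le
  have hg_coeff : ∀ n, g.coeff n = if h : n < k then cc ⟨n, h⟩ else 0 := by
    intro n
    simp only [hg, Polynomial.finsetSum_coeff, Polynomial.coeff_C_mul, Polynomial.coeff_X_pow]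
    split_ifs with h
    · rw [Finset.sum_eq_single ⟨n, h⟩]
      · simp
      · intro b _ hb
        rw [if_neg, mul_zero]
        intro h'
        exact hb (Fin.ext h'.symm)
      · simp
    · refine Finset.sum_eq_zero fun b _ => ?_
      rw [if_neg, mul_zero]
      intro h'
      exact h (h' ▸ b.2)
  have hg0 : g ≠ 0 := by
    obtain ⟨i, l, hil⟩ := hc
    intro h0
    apply hil
    rw [← hcc_coeff i l]
    have := hg_coeff l
    rw [h0, dif_pos l.2] at this
    rw [← this]
    simp
  have hgdeg : g.natDegree < k := by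
    have : g.natDegree ≤ k - 1 := by
      refine Polynomial.natDegree_sum_le_of_forall_le _ _ fun l _ => ?_
      exact (Polynomial.natDegree_C_mul_X_pow_le _ _).trans (by have := l.2; omega)
    omega
  -- the resultant
  set ρ := Polynomial.resultant F g with hρ
  have hρ0 : ρ ≠ 0 := by
    let K := FractionRing (Polynomial ℚ)
    have hinj : Function.Injective (algebraMap (Polynomial ℚ) K) :=
      IsFractionRing.injective (Polynomial ℚ) K
    have hirrK : Irreducible (F.map (algebraMap (Polynomial ℚ) K)) :=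
      (Polynomial.IsPrimitive.irreducible_iff_irreducible_map_fraction_map (K := K) hprim).1 hirr
    have hcop : IsCoprime (F.map (algebraMap (Polynomial ℚ) K))
        (g.map (algebraMap (Polynomial ℚ) K)) := by
      rw [hirrK.coprime_iff_not_dvd]
      apply Polynomial.not_dvd_of_natDegree_lt
      · rw [Ne, Polynomial.map_eq_zero_iff hinj]
        exact hg0
      · rw [Polynomial.natDegree_map_eq_of_injective hinj,
          Polynomial.natDegree_map_eq_of_injective hinj, hFdeg]
        exact hgdeg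
    have h1 := Polynomial.resultant_ne_zero _ _ hcop
    rw [Polynomial.natDegree_map_eq_of_injective hinj,
      Polynomial.natDegree_map_eq_of_injective hinj, Polynomial.resultant_map_map] at h1
    intro h0
    apply h1
    rw [← hρ, h0, map_zero]
  obtain ⟨p, q, -, -, hpq⟩ := Polynomial.exists_mul_add_mul_eq_C_resultant F g le_rfl le_rfl
    (Or.inl (by rw [hFdeg]; omega))
  rw [← hρ] at hpq
  -- degree of the resultant
  have hρdeg : ρ.natDegree ≤ 2 * k * (I + j) := by
    have h1 : ρ.natDegree ≤ (F.natDegree + g.natDegree) * (I + j) := by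
      rw [hρ, Polynomial.resultant]
      refine TfK.natDegree_det_le _ fun i i' => ?_
      have hFc : ∀ n, (F.coeff n).natDegree ≤ I + j := by
        intro n
        rw [hF, TfK.FF_coeff]
        refine (Polynomial.natDegree_sub_le _ _).trans (max_le ?_ ?_)
        · split_ifs <;> simp
        · split_ifs
          · exact TfK.hh_natDegree_le.trans (by omega)
          · simp
      have hgc : ∀ n, (g.coeff n).natDegree ≤ I + j := by
        intro n
        rw [hg_coeff]
        split_ifs
        · exact (hcc_deg _).trans (by omega)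
        · simp
      rw [Polynomial.sylvester, Matrix.of_apply]
      refine Fin.addCases (fun i₁ => ?_) (fun i₁ => ?_) i'
      · rw [Fin.addCases_left]
        split_ifs
        · exact hgc _
        · simp
      · rw [Fin.addCases_right]
        split_ifs
        · exact hFc _
        · simp
    refine h1.trans (Nat.mul_le_mul_right _ ?_)
    omega
  -- roots
  have hroot : ∀ s ∈ S, (s.1 : ℚ) ∈ ρ.roots.toFinset := by
    intro s hs
    obtain ⟨-, h2, h3⟩ := hS s hs
    rw [Multiset.mem_toFinset, Polynomial.mem_roots hρ0, Polynomial.IsRoot.def]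
    have e1 : F.evalEval (s.1 : ℚ) (s.2 : ℚ) = 0 := by
      have h2' : (u : ℚ) * (s.1 : ℚ) ^ j + a = v * (s.2 : ℚ) ^ k := by exact_mod_cast h2
      simp only [hF, TfK.FF, TfK.hh, Polynomial.evalEval, Polynomial.eval_sub, Polynomial.eval_mul,
        Polynomial.eval_C, Polynomial.eval_pow, Polynomial.eval_X, Polynomial.eval_add]
      linarith
    have e2 : g.evalEval (s.1 : ℚ) (s.2 : ℚ) = 0 := by
      rw [← h3, Finset.sum_comm]
      simp only [hg, hcc, Polynomial.evalEval, Polynomial.eval_finsetSum, Polynomial.eval_mul,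
        Polynomial.eval_C, Polynomial.eval_pow, Polynomial.eval_X]
      refine Finset.sum_congr rfl fun l _ => ?_
      rw [Finset.sum_mul]
    have e3 := congrArg (Polynomial.evalEval (s.1 : ℚ) (s.2 : ℚ)) hpq
    rw [Polynomial.evalEval_add, Polynomial.evalEval_mul, Polynomial.evalEval_mul, e1, e2,
      Polynomial.evalEval_C, zero_mul, zero_mul, add_zero] at e3
    exact e3.symm
  have hinj : Set.InjOn (fun s : ℕ × ℕ => (s.1 : ℚ)) S := by
    intro s hs t ht hst
    have h0 : (s.1 : ℚ) = (t.1 : ℚ) := hst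
    have h1 : s.1 = t.1 := by exact_mod_cast h0
    obtain ⟨-, h2, -⟩ := hS s hs
    obtain ⟨-, h3, -⟩ := hS t ht
    have h4 : v * (s.2 : ℤ) ^ k = v * (t.2 : ℤ) ^ k := by rw [← h2, ← h3, h1]
    have h5 := mul_left_cancel₀ hv h4
    have h6 : s.2 ^ k = t.2 ^ k := by exact_mod_cast h5
    have h7 : s.2 = t.2 := Nat.pow_left_injective (by omega) h6
    exact Prod.ext h1 h7
  calc S.card ≤ ρ.roots.toFinset.card := Finset.card_le_card_of_injOn _ hroot hinj
    _ ≤ Multiset.card ρ.roots := Multiset.toFinset_card_le _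
    _ ≤ ρ.natDegree := ρ.card_roots'
    _ ≤ _ := hρdeg

end Pool.Agent.Lib.MP_d8bd92_nt
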