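import Pool.Agent.Lib.MP_d8bd92_nt.TfDefs
import Pool.Agent.Lib.MP_d8bd92_nt.TfG
import Pool.Agent.Lib.MP_d8bd92_nt.TfJ
import Pool.Agent.Lib.MP_d8bd92_nt.TfK

set_option autoImplicit false

/-!
Row L: points on the curve `u y^j + a = v z^k` (the `p`-adic determinant method).
-/

namespace Pool.Agent.Lib.MP_d8bd92_nt

open Finset Pool.Agent.Lib.Szpiro


namespace TfL

/-- the vector of the monomials -/
def phi (I k : ℕ) (q : ℕ × ℕ) : Fin I × Fin k → ℚ :=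
  fun m => (q.1 : ℚ) ^ (m.1 : ℕ) * (q.2 : ℚ) ^ (m.2 : ℕ)

/-- the exponents of the monomials -/
def expo (I k : ℕ) (m : Fin (I * k)) : ℕ × ℕ :=
  (((finProdFinEquiv.symm m).1 : ℕ), ((finProdFinEquiv.symm m).2 : ℕ))

/-- the integer matrix -/
def mat (I k : ℕ) (t : Fin (I * k) → ℕ × ℕ) : Matrix (Fin (I * k)) (Fin (I * k)) ℤ :=
  Matrix.of fun i m => ((t i).1 : ℤ) ^ (expo I k m).1 * ((t i).2 : ℤ) ^ (expo I k m).2

/-- either a linear relation or a nonzero determinant -/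
theorem dichotomy (I k : ℕ) (T : Finset (ℕ × ℕ)) :
    (∃ c : Fin I → Fin k → ℚ, (∃ i l, c i l ≠ 0) ∧ ∀ q ∈ T,
      ∑ i, ∑ l, c i l * (q.1 : ℚ) ^ (i : ℕ) * (q.2 : ℚ) ^ (l : ℕ) = 0) ∨
    ∃ t : Fin (I * k) → ℕ × ℕ, (∀ i, t i ∈ T) ∧ (mat I k t).det ≠ 0 := by
  by_cases hspan : Submodule.span ℚ (phi I k '' (T : Set (ℕ × ℕ))) = ⊤
  · right
    obtain ⟨b, hb1, hb2, hb3⟩ := exists_linearIndependent ℚ (phi I k '' (T : Set (ℕ × ℕ)))
    have hbs : Submodule.span ℚ (Set.range (Subtype.val : b → (Fin I × Fin k → ℚ))) = ⊤ := by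
      rw [Subtype.range_coe, hb2, hspan]
    let B : Module.Basis b ℚ (Fin I × Fin k → ℚ) := Module.Basis.mk hb3 hbs.ge
    have e1 : b ≃ Fin I × Fin k := B.indexEquiv (Pi.basisFun ℚ (Fin I × Fin k))
    let e2 : Fin (I * k) ≃ b := finProdFinEquiv.symm.trans e1.symm
    have hmem : ∀ i, ∃ q ∈ T, phi I k q = (e2 i : Fin I × Fin k → ℚ) := by
      intro i
      obtain ⟨q, hq, hq'⟩ := hb1 (e2 i).2
      exact ⟨q, by simpa using hq, hq'⟩
    choose t ht ht' using hmem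
    refine ⟨t, ht, ?_⟩
    have hli : LinearIndependent ℚ (fun i => (e2 i : Fin I × Fin k → ℚ)) :=
      hb3.comp e2 e2.injective
    have hli2 : LinearIndependent ℚ (fun i => (fun m : Fin (I * k) =>
        phi I k (t i) (finProdFinEquiv.symm m))) := by
      have hmap := hli.map' (LinearMap.funLeft ℚ ℚ (finProdFinEquiv.symm : Fin (I * k) → Fin I × Fin k))
        (LinearMap.ker_eq_bot.2 (LinearMap.funLeft_injective_of_surjective ℚ ℚ _
          finProdFinEquiv.symm.surjective))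
      have heq : ((LinearMap.funLeft ℚ ℚ (finProdFinEquiv.symm : Fin (I * k) → Fin I × Fin k)) ∘
          fun i => (e2 i : Fin I × Fin k → ℚ)) =
          fun i => (fun m : Fin (I * k) => phi I k (t i) (finProdFinEquiv.symm m)) := by
        funext i
        funext m
        simp [LinearMap.funLeft_apply, ht' i]
      rw [heq] at hmap
      exact hmap
    have hU : IsUnit ((mat I k t).map (Int.castRingHom ℚ)) := by
      rw [← Matrix.linearIndependent_rows_iff_isUnit]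
      have heq : ((mat I k t).map (Int.castRingHom ℚ)).row =
          fun i => (fun m : Fin (I * k) => phi I k (t i) (finProdFinEquiv.symm m)) := by
        funext i m
        simp [mat, phi, expo, Matrix.row]
      rw [heq]
      exact hli2
    rw [Matrix.isUnit_iff_isUnit_det] at hU
    intro h0
    rw [← RingHom.mapMatrix_apply, ← RingHom.map_det, h0, map_zero] at hU
    exact not_isUnit_zero hU
  · left
    obtain ⟨f, hf, hf'⟩ := Submodule.exists_le_ker_of_lt_top _ (lt_top_iff_ne_top.2 hspan)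
    refine ⟨fun i l => f (Pi.single (i, l) 1), ?_, ?_⟩
    · by_contra hcon
      push Not at hcon
      apply hf
      apply LinearMap.pi_ext'
      rintro ⟨i, l⟩
      ext
      simpa using hcon i l
    · intro q hq
      have h1 : phi I k q ∈ LinearMap.ker f :=
        hf' (Submodule.subset_span ⟨q, by simpa using hq, rfl⟩)
      rw [LinearMap.mem_ker, LinearMap.pi_apply_eq_sum_univ f, Fintype.sum_prod_type] at h1
      rw [← h1]
      refine Finset.sum_congr rfl fun i _ => Finset.sum_congr rfl fun l _ => ?_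
      simp only [phi, smul_eq_mul]
      rw [show (fun m : Fin I × Fin k => if (i, l) = m then (1 : ℚ) else 0) = Pi.single (i, l) 1 from ?_]
      · ring
      · funext m
        simp [Pi.single_apply, eq_comm]

theorem sum_expo (I k : ℕ) : 2 * ∑ m, (expo I k m).1 = k * I * (I - 1) ∧
    2 * ∑ m, (expo I k m).2 = I * k * (k - 1) := by
  have h1 : ∑ m, (expo I k m).1 = ∑ m : Fin I × Fin k, (m.1 : ℕ) := by
    unfold expo
    exact Equiv.sum_comp finProdFinEquiv.symm (fun m : Fin I × Fin k => (m.1 : ℕ))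
  have h2 : ∑ m, (expo I k m).2 = ∑ m : Fin I × Fin k, (m.2 : ℕ) := by
    unfold expo
    exact Equiv.sum_comp finProdFinEquiv.symm (fun m : Fin I × Fin k => (m.2 : ℕ))
  have h3 : ∀ n : ℕ, 2 * ∑ i : Fin n, (i : ℕ) = n * (n - 1) := by
    intro n
    rw [Fin.sum_univ_eq_sum_range (fun i => i) n, mul_comm, Finset.sum_range_id_mul_two]
  rw [h1, h2, Fintype.sum_prod_type, Fintype.sum_prod_type]
  constructor
  · simp only [Finset.sum_const, Finset.card_univ, Fintype.card_fin, smul_eq_mul]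
    rw [← Finset.mul_sum, mul_left_comm, h3]
    ring
  · simp only [Finset.sum_const, Finset.card_univ, Fintype.card_fin, smul_eq_mul]
    rw [mul_left_comm, h3]
    ring

theorem det_le (I k : ℕ) (X Y : ℕ) (t : Fin (I * k) → ℕ × ℕ) (ht : ∀ i, (t i).1 ≤ X ∧ (t i).2 ≤ Y) :
    |(mat I k t).det| ≤ ((I * k).factorial : ℤ) *
      ((X : ℤ) ^ (∑ m, (expo I k m).1) * (Y : ℤ) ^ (∑ m, (expo I k m).2)) := by
  rw [Matrix.det_apply]
  refine (Finset.abs_sum_le_sum_abs _ _).trans ?_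
  have hterm : ∀ s : Equiv.Perm (Fin (I * k)),
      |Equiv.Perm.sign s • ∏ i, mat I k t (s i) i| ≤
        (X : ℤ) ^ (∑ m, (expo I k m).1) * (Y : ℤ) ^ (∑ m, (expo I k m).2) := by
    intro s
    have h1 : |Equiv.Perm.sign s • ∏ i, mat I k t (s i) i| = ∏ i, |mat I k t (s i) i| := by
      rw [← Finset.abs_prod]
      rcases Int.units_eq_one_or (Equiv.Perm.sign s) with h | h <;> rw [h] <;> simp
    rw [h1, ← Finset.prod_pow_eq_pow_sum, ← Finset.prod_pow_eq_pow_sum, ← Finset.prod_mul_distrib]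
    refine Finset.prod_le_prod (fun i _ => abs_nonneg _) fun i _ => ?_
    have h2 : |mat I k t (s i) i| =
        ((t (s i)).1 : ℤ) ^ (expo I k i).1 * ((t (s i)).2 : ℤ) ^ (expo I k i).2 := by
      rw [abs_of_nonneg]
      · rfl
      · unfold mat
        simp only [Matrix.of_apply]
        positivity
    rw [h2]
    have h3 := ht (s i)
    have h4 : ((t (s i)).1 : ℤ) ≤ X := by exact_mod_cast h3.1
    have h5 : ((t (s i)).2 : ℤ) ≤ Y := by exact_mod_cast h3.2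
    gcongr
  calc ∑ s, |Equiv.Perm.sign s • ∏ i, mat I k t (s i) i|
      ≤ ∑ _s : Equiv.Perm (Fin (I * k)),
        (X : ℤ) ^ (∑ m, (expo I k m).1) * (Y : ℤ) ^ (∑ m, (expo I k m).2) :=
        Finset.sum_le_sum fun s _ => hterm s
    _ = _ := by
        rw [Finset.sum_const, Finset.card_univ, Fintype.card_perm, Fintype.card_fin, nsmul_eq_mul]

theorem card_V (p j k : ℕ) (hp : p.Prime) (hk : 1 ≤ k) (u v a : ℤ) (hv : ¬ (p : ℤ) ∣ v) :
    haveI := Fact.mk hp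
    ((Finset.univ : Finset (ZMod p × ZMod p)).filter (fun w =>
      (u : ZMod p) * w.1 ^ j + (a : ZMod p) = (v : ZMod p) * w.2 ^ k)).card ≤ k * p := by
  haveI := Fact.mk hp
  have hv' : (v : ZMod p) ≠ 0 := by
    rwa [Ne, ZMod.intCast_zmod_eq_zero_iff_dvd]
  have h := Finset.card_le_mul_card_image_of_maps_to (s := (Finset.univ :
    Finset (ZMod p × ZMod p)).filter (fun w =>
      (u : ZMod p) * w.1 ^ j + (a : ZMod p) = (v : ZMod p) * w.2 ^ k))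
    (t := (Finset.univ : Finset (ZMod p))) (f := Prod.fst) (fun _ _ => Finset.mem_univ _) k ?_
  · simpa [ZMod.card] using h
  · intro b _
    have hsub : (((Finset.univ : Finset (ZMod p × ZMod p)).filter (fun w =>
        (u : ZMod p) * w.1 ^ j + (a : ZMod p) = (v : ZMod p) * w.2 ^ k)).filter
        (fun w => w.1 = b)).card ≤
        ((Polynomial.nthRoots k (((u : ZMod p) * b ^ j + (a : ZMod p)) / v)).toFinset).card := by
      refine Finset.card_le_card_of_injOn Prod.snd ?_ ?_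
      · intro w hw
        simp only [Finset.coe_filter, Finset.mem_filter, Finset.mem_univ, true_and,
          Set.mem_setOf_eq] at hw
        simp only [Finset.mem_coe, Multiset.mem_toFinset]
        rw [Polynomial.mem_nthRoots (by omega), eq_div_iff hv']
        rw [← hw.2, hw.1]
        ring
      · intro w hw w' hw' h
        simp only [Finset.coe_filter, Finset.mem_filter, Finset.mem_univ, true_and,
          Set.mem_setOf_eq] at hw hw'
        exact Prod.ext (hw.2.trans hw'.2.symm) h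
    exact hsub.trans ((Multiset.toFinset_card_le _).trans (Polynomial.card_nthRoots _ _))

/-- the growth inequality -/
theorem growth (I k : ℕ) (hI : 2 ≤ I) (hk : 1 ≤ k) (σ : ℝ) (hσ : 0 < σ)
    (hIσ : 1 / σ + 1 ≤ I) (Z X Y : ℕ) (hZ : 1 ≤ Z) (hX : 1 ≤ X) (hY : Y ≤ Z) (p : ℝ)
    (hp : (((I * k).factorial : ℝ) + 1) * (Z : ℝ) ^ σ * (X : ℝ) ^ (1 / (k : ℝ)) ≤ p) :
    ((I * k).factorial : ℝ) *
      ((X : ℝ) ^ (∑ m, (expo I k m).1) * (Y : ℝ) ^ (∑ m, (expo I k m).2)) <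
      p ^ (I * k * (I * k - 1) / 2) := by
  obtain ⟨hA1, hA2⟩ := sum_expo I k
  set A1 := ∑ m, (expo I k m).1
  set A2 := ∑ m, (expo I k m).2
  set M := I * k * (I * k - 1) / 2 with hM
  have hZ' : (1 : ℝ) ≤ Z := Nat.one_le_cast.2 hZ
  have hX' : (1 : ℝ) ≤ X := Nat.one_le_cast.2 hX
  have hY' : (Y : ℝ) ≤ Z := Nat.cast_le.2 hY
  have hZ0 : (0 : ℝ) ≤ Z := Nat.cast_nonneg Z
  have hX0 : (0 : ℝ) ≤ X := Nat.cast_nonneg X
  have hk' : (1 : ℝ) ≤ k := Nat.one_le_cast.2 hk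
  have hk0 : (0 : ℝ) ≤ k := Nat.cast_nonneg k
  have he : 2 ≤ I * k := hI.trans (Nat.le_mul_of_pos_right I hk)
  have h2M : 2 * M = I * k * (I * k - 1) := by
    rw [hM]
    exact Nat.mul_div_cancel' (Nat.even_mul_pred_self (I * k)).two_dvd
  have hM1 : 1 ≤ M := by
    have h1 : 2 * 1 ≤ I * k * (I * k - 1) := Nat.mul_le_mul he (Nat.le_sub_of_add_le he)
    rw [← h2M] at h1
    exact Nat.le_of_mul_le_mul_left h1 two_pos
  have h2Mr : 2 * (M : ℝ) = I * k * (I * k - 1) := by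
    have h := congrArg (Nat.cast : ℕ → ℝ) h2M
    rw [Nat.cast_mul, Nat.cast_mul, Nat.cast_sub (one_le_two.trans he), Nat.cast_mul, Nat.cast_ofNat, Nat.cast_one] at h
    exact h
  have hA1r : 2 * (A1 : ℝ) = k * I * (I - 1) := by
    have h := congrArg (Nat.cast : ℕ → ℝ) hA1
    rw [Nat.cast_mul, Nat.cast_mul, Nat.cast_sub (one_le_two.trans hI), Nat.cast_mul, Nat.cast_ofNat, Nat.cast_one] at h
    exact h
  have hA2r : 2 * (A2 : ℝ) = I * k * (k - 1) := by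
    have h := congrArg (Nat.cast : ℕ → ℝ) hA2
    rw [Nat.cast_mul, Nat.cast_mul, Nat.cast_sub hk, Nat.cast_mul, Nat.cast_ofNat, Nat.cast_one] at h
    exact h
  have hIk : 0 ≤ (I : ℝ) * k := mul_nonneg (Nat.cast_nonneg I) hk0
  have hσI : (k : ℝ) - 1 ≤ σ * (I * k - 1) := by
    have h1 : 1 ≤ σ * ((I : ℝ) - 1) := by
      have h2 : σ * (1 / σ) ≤ σ * ((I : ℝ) - 1) := mul_le_mul_of_nonneg_left (le_sub_iff_add_le.2 hIσ) hσ.le
      rwa [mul_one_div_cancel hσ.ne'] at h2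
    have h4 : (k : ℝ) ≤ k * (σ * (I - 1)) := le_mul_of_one_le_right hk0 h1
    have h5 : 0 ≤ σ * ((k : ℝ) - 1) := mul_nonneg hσ.le (sub_nonneg.2 hk')
    have h6 : σ * ((I : ℝ) * k - 1) = k * (σ * (I - 1)) + σ * (k - 1) := by ring
    rw [h6]
    exact (sub_le_self _ zero_le_one).trans (h4.trans (le_add_of_nonneg_right h5))
  have hMA2 : (A2 : ℝ) ≤ σ * M := by
    have h1 := mul_le_mul_of_nonneg_left hσI hIk
    rw [← hA2r] at h1
    have h2 : (I : ℝ) * k * (σ * (I * k - 1)) = 2 * (σ * M) := by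
      rw [mul_left_comm (2 : ℝ), h2Mr, mul_left_comm]
    rw [h2] at h1
    exact (mul_le_mul_iff_right₀ two_pos).1 h1
  have hMA1 : (A1 : ℝ) ≤ 1 / (k : ℝ) * M := by
    rw [one_div, inv_mul_eq_div, le_div_iff₀ (one_pos.trans_le hk')]
    have h3 : (k : ℝ) * (I - 1) ≤ I * k - 1 := by
      rw [mul_sub, mul_one, mul_comm (k : ℝ)]
      exact sub_le_sub_left hk' _
    have h4 : 2 * ((A1 : ℝ) * k) ≤ 2 * M := by
      rw [← mul_assoc, hA1r, h2Mr, mul_comm (k : ℝ) I, mul_assoc ((I : ℝ) * k), mul_comm ((I : ℝ) - 1)]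
      exact mul_le_mul_of_nonneg_left h3 hIk
    exact (mul_le_mul_iff_right₀ two_pos).1 h4
  have hf : (0 : ℝ) < ((I * k).factorial : ℝ) := Nat.cast_pos.2 (Nat.factorial_pos _)
  have hf1 : (0 : ℝ) ≤ ((I * k).factorial : ℝ) + 1 := (hf.trans (lt_add_one _)).le
  have hf2 : (1 : ℝ) ≤ ((I * k).factorial : ℝ) + 1 := le_add_of_nonneg_left hf.le
  have hP0 : (0 : ℝ) ≤ (((I * k).factorial : ℝ) + 1) * (Z : ℝ) ^ σ * (X : ℝ) ^ (1 / (k : ℝ)) :=
    mul_nonneg (mul_nonneg hf1 (Real.rpow_nonneg hZ0 _)) (Real.rpow_nonneg hX0 _)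
  have hpow : ((((I * k).factorial : ℝ) + 1) * (Z : ℝ) ^ σ * (X : ℝ) ^ (1 / (k : ℝ))) ^ M ≤ p ^ M :=
    pow_le_pow_left₀ hP0 hp M
  refine lt_of_lt_of_le ?_ hpow
  rw [mul_pow, mul_pow, ← Real.rpow_natCast ((Z : ℝ) ^ σ) M,
    ← Real.rpow_natCast ((X : ℝ) ^ (1 / (k : ℝ))) M, ← Real.rpow_mul hZ0, ← Real.rpow_mul hX0]
  have g1 : ((I * k).factorial : ℝ) < (((I * k).factorial : ℝ) + 1) ^ M :=
    (lt_add_one _).trans_le (le_self_pow₀ hf2 (one_pos.trans_le hM1).ne')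
  have g2 : (Y : ℝ) ^ A2 ≤ (Z : ℝ) ^ (σ * (M : ℝ)) := by
    refine (pow_le_pow_left₀ (Nat.cast_nonneg Y) hY' _).trans ?_
    rw [← Real.rpow_natCast]
    exact Real.rpow_le_rpow_of_exponent_le hZ' hMA2
  have g3 : (X : ℝ) ^ A1 ≤ (X : ℝ) ^ (1 / (k : ℝ) * (M : ℝ)) := by
    rw [← Real.rpow_natCast]
    exact Real.rpow_le_rpow_of_exponent_le hX' hMA1
  have gZ : (0 : ℝ) < (Z : ℝ) ^ (σ * (M : ℝ)) := Real.rpow_pos_of_pos (one_pos.trans_le hZ') _
  have gX : (0 : ℝ) < (X : ℝ) ^ (1 / (k : ℝ) * (M : ℝ)) := Real.rpow_pos_of_pos (one_pos.trans_le hX') _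
  have g4 : (X : ℝ) ^ A1 * (Y : ℝ) ^ A2 ≤ (Z : ℝ) ^ (σ * (M : ℝ)) * (X : ℝ) ^ (1 / (k : ℝ) * (M : ℝ)) := by
    rw [mul_comm ((Z : ℝ) ^ (σ * (M : ℝ)))]
    exact mul_le_mul g3 g2 (pow_nonneg (Nat.cast_nonneg Y) _) gX.le
  rw [mul_assoc]
  exact (mul_le_mul_of_nonneg_left g4 hf.le).trans_lt (mul_lt_mul_of_pos_right g1 (mul_pos gZ gX))

/-- a class modulo `p` has a bounded number of points -/
theorem class_card (j k I : ℕ) (hj : 1 ≤ j) (hk : 1 ≤ k) (hI : 2 ≤ I) (σ : ℝ) (hσ : 0 < σ)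
    (hIσ : 1 / σ + 1 ≤ I) (Z X Y : ℕ) (hZ : 1 ≤ Z) (hX : 1 ≤ X) (hY : Y ≤ Z) (p : ℕ)
    (hp : p.Prime)
    (hpP : (((I * k).factorial : ℝ) + 1) * (Z : ℝ) ^ σ * (X : ℝ) ^ (1 / (k : ℝ)) ≤ p)
    (u v a : ℤ) (hu : u ≠ 0) (hv : v ≠ 0) (ha : a ≠ 0)
    (hN : ¬ (p : ℤ) ∣ (j : ℤ) * k * u * v * a) (T : Finset (ℕ × ℕ))
    (hT : ∀ q ∈ T, 1 ≤ q.1 ∧ q.1 ≤ X ∧ 1 ≤ q.2 ∧ q.2 ≤ Y ∧
      u * (q.1 : ℤ) ^ j + a = v * (q.2 : ℤ) ^ k)
    (hcl : ∀ q ∈ T, ∀ q' ∈ T, (p : ℤ) ∣ (q.1 : ℤ) - q'.1 ∧ (p : ℤ) ∣ (q.2 : ℤ) - q'.2) :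
    T.card ≤ 2 * k * (I + j) := by
  rcases dichotomy I k T with ⟨c, hc, hc'⟩ | ⟨t, ht, hdet⟩
  · refine tf_bezout j k I hj hk u v a hu hv ha c hc T fun q hq => ?_
    obtain ⟨-, -, h3, -, h5⟩ := hT q hq
    exact ⟨h3, h5, hc' q hq⟩
  · exfalso
    have hdvd := tf_det_dvd p (I * k) hp j k hj hk u v a (fun i => ((t i).1 : ℤ))
      (fun i => ((t i).2 : ℤ)) (expo I k) (fun i => (hT _ (ht i)).2.2.2.2)
      (fun i i' => (hcl _ (ht i) _ (ht i')).1) (fun i i' => (hcl _ (ht i) _ (ht i')).2) hN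
    have hle : (p : ℤ) ^ (I * k * (I * k - 1) / 2) ≤ |(mat I k t).det| :=
      Int.le_of_dvd (abs_pos.2 hdet) ((dvd_abs _ _).2 hdvd)
    have hle2 := hle.trans (det_le I k X Y t (fun i => ⟨(hT _ (ht i)).2.1, (hT _ (ht i)).2.2.2.1⟩))
    have hle3 : (p : ℝ) ^ (I * k * (I * k - 1) / 2) ≤ ((I * k).factorial : ℝ) *
      ((X : ℝ) ^ (∑ m, (expo I k m).1) * (Y : ℝ) ^ (∑ m, (expo I k m).2)) := by
      exact_mod_cast hle2
    have hlt := growth I k hI hk σ hσ hIσ Z X Y hZ hX hY p hpP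
    linarith

end TfL

theorem tf_curve (j k : ℕ) (hj : 1 ≤ j) (hk : 1 ≤ k) (σ : ℝ) (hσ : 0 < σ) : ∃ C : ℝ, 1 ≤ C ∧
    ∀ (Z : ℕ) (u v a : ℤ) (X Y : ℕ) (S : Finset (ℕ × ℕ)), 1 ≤ Z → u ≠ 0 → v ≠ 0 → a ≠ 0 →
    |u| ≤ Z → |v| ≤ Z → |a| ≤ Z → 1 ≤ X → X ≤ Z → 1 ≤ Y → Y ≤ Z →
    (∀ q ∈ S, 1 ≤ q.1 ∧ q.1 ≤ X ∧ 1 ≤ q.2 ∧ q.2 ≤ Y ∧
      u * (q.1 : ℤ) ^ j + a = v * (q.2 : ℤ) ^ k) →
    (S.card : ℝ) ≤ C * (Z : ℝ) ^ σ * (X : ℝ) ^ (1 / (k : ℝ)) := by
  have hσ1 : 0 < σ / 2 := by positivity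
  obtain ⟨I₀, hI₀⟩ := exists_nat_ge (1 / (σ / 2) + 1)
  set I := max I₀ 2 with hIdef
  have hI2 : 2 ≤ I := le_max_right _ _
  have hIσ : 1 / (σ / 2) + 1 ≤ (I : ℝ) := hI₀.trans (by exact_mod_cast le_max_left _ _)
  have hk' : (1 : ℝ) ≤ k := by exact_mod_cast hk
  have hj' : (1 : ℝ) ≤ j := by exact_mod_cast hj
  have hjk : (0 : ℝ) ≤ (j : ℝ) * k := mul_nonneg (by linarith) (by linarith)
  have hκ : (1 : ℝ) ≤ (j : ℝ) * k + 3 := by linarith
  obtain ⟨C₁, hC₁, hprime⟩ := tf_prime (σ / 2) ((j : ℝ) * k + 3) hσ1 hκ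
  have hf : (0 : ℝ) < ((I * k).factorial : ℝ) := by exact_mod_cast Nat.factorial_pos _
  refine ⟨C₁ * (((I * k).factorial : ℝ) + 1) * ((2 * k * (I + j) : ℕ) * (k : ℝ)), ?_, ?_⟩
  · have h1 : (1 : ℝ) ≤ C₁ * (((I * k).factorial : ℝ) + 1) :=
      one_le_mul_of_one_le_of_one_le hC₁ (by linarith)
    have h2 : (1 : ℝ) ≤ ((2 * k * (I + j) : ℕ) : ℝ) := by
      have : 1 ≤ 2 * k * (I + j) := Nat.mul_pos (by omega) (by omega)
      exact_mod_cast this
    exact one_le_mul_of_one_le_of_one_le h1 (one_le_mul_of_one_le_of_one_le h2 hk')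
  intro Z u v a X Y S hZ hu hv ha huZ hvZ haZ hX hXZ hY hYZ hS
  have hZ' : (1 : ℝ) ≤ Z := by exact_mod_cast hZ
  have hX' : (1 : ℝ) ≤ X := by exact_mod_cast hX
  have hne : (j : ℤ) * k * u * v * a ≠ 0 := by
    have hj0 : (j : ℤ) ≠ 0 := by exact_mod_cast (by omega : j ≠ 0)
    have hk0 : (k : ℤ) ≠ 0 := by exact_mod_cast (by omega : k ≠ 0)
    exact mul_ne_zero (mul_ne_zero (mul_ne_zero (mul_ne_zero hj0 hk0) hu) hv) ha
  set N : ℕ := ((j : ℤ) * k * u * v * a).natAbs with hN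
  have hN1 : 1 ≤ N := Int.natAbs_pos.2 hne
  have hNle : (N : ℝ) ≤ ((j : ℝ) * k + 3) * (Z : ℝ) ^ ((j : ℝ) * k + 3) := by
    have h1 : (N : ℤ) ≤ j * k * Z * Z * Z := by
      rw [hN, Int.natCast_natAbs, abs_mul, abs_mul, abs_mul, abs_mul, Nat.abs_cast, Nat.abs_cast]
      have := abs_nonneg u
      have := abs_nonneg v
      have := abs_nonneg a
      gcongr
    have h2 : (N : ℝ) ≤ j * k * Z * Z * Z := by exact_mod_cast h1
    have h3 : (Z : ℝ) ^ (3 : ℝ) ≤ (Z : ℝ) ^ ((j : ℝ) * k + 3) :=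
      Real.rpow_le_rpow_of_exponent_le hZ' (by linarith)
    have h4 : (Z : ℝ) ^ (3 : ℝ) = (Z : ℝ) * Z * Z := by
      rw [show (3 : ℝ) = ((3 : ℕ) : ℝ) by norm_num, Real.rpow_natCast]
      ring
    calc (N : ℝ) ≤ j * k * Z * Z * Z := h2
      _ = (j * k) * (Z : ℝ) ^ (3 : ℝ) := by rw [h4]; ring
      _ ≤ ((j : ℝ) * k + 3) * (Z : ℝ) ^ ((j : ℝ) * k + 3) := by
          apply mul_le_mul (by linarith) h3 (by positivity) (by positivity)
  have hP1 : 1 ≤ (((I * k).factorial : ℝ) + 1) * (Z : ℝ) ^ (σ / 2) * (X : ℝ) ^ (1 / (k : ℝ)) := by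
    have h1 : (1 : ℝ) ≤ (Z : ℝ) ^ (σ / 2) := Real.one_le_rpow hZ' hσ1.le
    have h2 : (1 : ℝ) ≤ (X : ℝ) ^ (1 / (k : ℝ)) := Real.one_le_rpow hX' (by positivity)
    have h3 : (1 : ℝ) ≤ ((I * k).factorial : ℝ) + 1 := by linarith
    exact one_le_mul_of_one_le_of_one_le (one_le_mul_of_one_le_of_one_le h3 h1) h2
  obtain ⟨p, hp, hp1, hp2, hp3⟩ := hprime Z N _ hZ hN1 hNle hP1
  have hN' : ¬ (p : ℤ) ∣ (j : ℤ) * k * u * v * a := by
    rw [Int.natCast_dvd]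
    exact hp3
  have hpv : ¬ (p : ℤ) ∣ v := fun h => hN' (Dvd.dvd.mul_right (Dvd.dvd.mul_left h _) _)
  haveI := Fact.mk hp
  have hcardV := TfL.card_V p j k hp hk u v a hpv
  have hSle : S.card ≤ (2 * k * (I + j)) * (k * p) := by
    refine le_trans (Finset.card_le_mul_card_image_of_maps_to (s := S)
      (t := (Finset.univ : Finset (ZMod p × ZMod p)).filter (fun w =>
        (u : ZMod p) * w.1 ^ j + (a : ZMod p) = (v : ZMod p) * w.2 ^ k))
      (f := fun q : ℕ × ℕ => ((q.1 : ZMod p), (q.2 : ZMod p))) ?_ (2 * k * (I + j)) ?_)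
      (Nat.mul_le_mul_left _ hcardV)
    · intro q hq
      simp only [Finset.mem_filter, Finset.mem_univ, true_and]
      have h := congrArg (Int.cast : ℤ → ZMod p) (hS q hq).2.2.2.2
      push_cast at h
      exact h
    · intro w _
      refine TfL.class_card j k I hj hk hI2 (σ / 2) hσ1 hIσ Z X Y hZ hX hYZ p hp hp1 u v a hu hv ha
        hN' _ ?_ ?_
      · intro q hq
        exact hS q (Finset.mem_filter.1 hq).1
      · intro q hq q' hq'
        have h1 := (Finset.mem_filter.1 hq).2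
        have h2 := (Finset.mem_filter.1 hq').2
        have h3 := h1.trans h2.symm
        rw [Prod.mk.injEq] at h3
        constructor
        · rw [← ZMod.intCast_zmod_eq_zero_iff_dvd]
          push_cast
          rw [h3.1, sub_self]
        · rw [← ZMod.intCast_zmod_eq_zero_iff_dvd]
          push_cast
          rw [h3.2, sub_self]
  have hSle' : (S.card : ℝ) ≤ ((2 * k * (I + j) : ℕ) : ℝ) * ((k : ℝ) * p) := by
    exact_mod_cast hSle
  have hZZ : (Z : ℝ) ^ (σ / 2) * (Z : ℝ) ^ (σ / 2) = (Z : ℝ) ^ σ := by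
    rw [← Real.rpow_add (by linarith)]
    congr 1
    ring
  calc (S.card : ℝ) ≤ ((2 * k * (I + j) : ℕ) : ℝ) * ((k : ℝ) * p) := hSle'
    _ ≤ ((2 * k * (I + j) : ℕ) : ℝ) * ((k : ℝ) * (C₁ * (Z : ℝ) ^ (σ / 2) *
        ((((I * k).factorial : ℝ) + 1) * (Z : ℝ) ^ (σ / 2) * (X : ℝ) ^ (1 / (k : ℝ))))) := by
        gcongr
    _ = C₁ * (((I * k).factorial : ℝ) + 1) * ((2 * k * (I + j) : ℕ) * (k : ℝ)) *
        ((Z : ℝ) ^ (σ / 2) * (Z : ℝ) ^ (σ / 2)) * (X : ℝ) ^ (1 / (k : ℝ)) := by ring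
    _ = _ := by rw [hZZ]

end Pool.Agent.Lib.MP_d8bd92_nt
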