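import Pool.Agent.Lib.MP_d8bd92_nt.TfDefs
import Pool.Agent.Lib.MP_d8bd92_nt.CdI1
import Pool.Agent.Lib.MP_d8bd92_nt.TfL

set_option autoImplicit false

namespace Pool.Agent.Lib.MP_d8bd92_nt

open Finset Pool.Agent.Lib.Szpiro


namespace TfM

/-- triples with a small product of radicals -/
theorem card_triple (σ : ℝ) (hσ : 0 < σ) : ∃ C : ℝ, 1 ≤ C ∧ ∀ (Z : ℕ) (Q : ℝ), 1 ≤ Z → 0 ≤ Q →
    (((Icc 1 Z ×ˢ Icc 1 Z ×ˢ Icc 1 Z).filter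
      (fun q : ℕ × ℕ × ℕ => (rd q.1 : ℝ) * rd q.2.1 * rd q.2.2 ≤ Q)).card : ℝ) ≤
      C * (Z : ℝ) ^ σ * Q := by
  obtain ⟨C, hC1, hC⟩ := sum_inv_rd (σ / 3) (by positivity)
  refine ⟨C ^ 3, one_le_pow₀ hC1, fun Z Q hZ hQ => ?_⟩
  have hZ0 : (0 : ℝ) < (Z : ℝ) := by exact_mod_cast hZ
  have h1 : (((Icc 1 Z ×ˢ Icc 1 Z ×ˢ Icc 1 Z).filter
      (fun q : ℕ × ℕ × ℕ => (rd q.1 : ℝ) * rd q.2.1 * rd q.2.2 ≤ Q)).card : ℝ) ≤
      ∑ q ∈ (Icc 1 Z ×ˢ Icc 1 Z ×ˢ Icc 1 Z).filter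
        (fun q : ℕ × ℕ × ℕ => (rd q.1 : ℝ) * rd q.2.1 * rd q.2.2 ≤ Q),
        Q * (((rd q.1 : ℝ))⁻¹ * (((rd q.2.1 : ℝ))⁻¹ * ((rd q.2.2 : ℝ))⁻¹)) := by
    rw [Finset.card_eq_sum_ones, Nat.cast_sum]
    apply Finset.sum_le_sum
    intro q hq
    rw [Finset.mem_filter] at hq
    have h2 : (0 : ℝ) < rd q.1 := by exact_mod_cast rd_pos q.1
    have h3 : (0 : ℝ) < rd q.2.1 := by exact_mod_cast rd_pos q.2.1
    have h4 : (0 : ℝ) < rd q.2.2 := by exact_mod_cast rd_pos q.2.2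
    rw [Nat.cast_one, ← mul_inv, ← mul_inv, ← div_eq_mul_inv, le_div_iff₀ (by positivity), one_mul,
      ← mul_assoc]
    exact hq.2
  have h3 : ∑ q ∈ (Icc 1 Z ×ˢ Icc 1 Z ×ˢ Icc 1 Z).filter
        (fun q : ℕ × ℕ × ℕ => (rd q.1 : ℝ) * rd q.2.1 * rd q.2.2 ≤ Q),
        Q * (((rd q.1 : ℝ))⁻¹ * (((rd q.2.1 : ℝ))⁻¹ * ((rd q.2.2 : ℝ))⁻¹)) ≤
      ∑ q ∈ Icc 1 Z ×ˢ Icc 1 Z ×ˢ Icc 1 Z,
        Q * (((rd q.1 : ℝ))⁻¹ * (((rd q.2.1 : ℝ))⁻¹ * ((rd q.2.2 : ℝ))⁻¹)) :=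
    Finset.sum_le_sum_of_subset_of_nonneg (Finset.filter_subset _ _) fun q _ _ => by positivity
  set s : ℝ := ∑ n ∈ Icc 1 Z, ((rd n : ℝ))⁻¹ with hs
  have h4 : ∑ q ∈ Icc 1 Z ×ˢ Icc 1 Z ×ˢ Icc 1 Z,
        Q * (((rd q.1 : ℝ))⁻¹ * (((rd q.2.1 : ℝ))⁻¹ * ((rd q.2.2 : ℝ))⁻¹)) = Q * (s * (s * s)) := by
    simp only [Finset.sum_product, ← Finset.mul_sum, ← Finset.sum_mul]
    rfl
  have h5 := hC Z hZ
  have h6 : (0 : ℝ) ≤ s := Finset.sum_nonneg fun n _ => by positivity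
  have h7 : (Z : ℝ) ^ (σ / 3) * ((Z : ℝ) ^ (σ / 3) * (Z : ℝ) ^ (σ / 3)) = (Z : ℝ) ^ σ := by
    rw [← Real.rpow_add hZ0, ← Real.rpow_add hZ0]
    congr 1
    ring
  calc (((Icc 1 Z ×ˢ Icc 1 Z ×ˢ Icc 1 Z).filter
      (fun q : ℕ × ℕ × ℕ => (rd q.1 : ℝ) * rd q.2.1 * rd q.2.2 ≤ Q)).card : ℝ)
      ≤ Q * (s * (s * s)) := by
        rw [← h4]; exact h1.trans h3
    _ ≤ Q * ((C * (Z : ℝ) ^ (σ / 3)) * ((C * (Z : ℝ) ^ (σ / 3)) * (C * (Z : ℝ) ^ (σ / 3)))) := by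
        apply mul_le_mul_of_nonneg_left _ hQ
        have h8 : 0 ≤ C * (Z : ℝ) ^ (σ / 3) := h6.trans h5
        exact mul_le_mul h5 (mul_le_mul h5 h5 h6 h8) (by positivity) h8
    _ = C ^ 3 * ((Z : ℝ) ^ (σ / 3) * ((Z : ℝ) ^ (σ / 3) * (Z : ℝ) ^ (σ / 3))) * Q := by ring
    _ = C ^ 3 * (Z : ℝ) ^ σ * Q := by rw [h7]

/-- split off the part of exact exponent `j` -/
theorem quot (n j : ℕ) (hn : n ≠ 0) (hj : 1 ≤ j) :
    n / xpart n j ^ j ≠ 0 ∧ (n / xpart n j ^ j) * xpart n j ^ j = n ∧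
      rd n = rd (n / xpart n j ^ j) * xpart n j := by
  obtain ⟨w, hw0, hw, hr, -⟩ := xpart_split n hn {j} (by
    intro k hk
    rw [Finset.mem_singleton] at hk
    omega)
  rw [Finset.prod_singleton] at hw hr
  have hpos : 0 < xpart n j ^ j := pow_pos (xpart_pos n j) j
  have hq : n / xpart n j ^ j = w := Nat.div_eq_of_eq_mul_left hpos hw
  rw [hq]
  exact ⟨hw0, hw.symm, hr⟩

/-- the product of the two sizes, when a number is bounded in two ways -/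
theorem min_bound (c M : ℝ) (X X' : ℕ) (hM : 0 ≤ M) (hX : 1 ≤ X) (hX' : 1 ≤ X') (j k : ℕ)
    (hj : 3 ≤ j) (hk : 3 ≤ k) (h1 : c ≤ M * (X : ℝ) ^ (1 / (k : ℝ)))
    (h2 : c ≤ M * (X' : ℝ) ^ (1 / (j : ℝ))) : c ≤ M * ((X : ℝ) * X') ^ (1 / 6 : ℝ) := by
  have e1 : ∀ (x : ℕ) (m : ℕ), 1 ≤ x → 3 ≤ m →
      (x : ℝ) ^ (1 / (m : ℝ)) ≤ ((x : ℝ) * x) ^ (1 / 6 : ℝ) := by
    intro x m hx hm
    have hx1 : (1 : ℝ) ≤ x := by exact_mod_cast hx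
    have hm1 : (3 : ℝ) ≤ m := by exact_mod_cast hm
    have h3 : ((x : ℝ) * x) ^ (1 / 6 : ℝ) = (x : ℝ) ^ (1 / 3 : ℝ) := by
      rw [Real.mul_rpow (by positivity) (by positivity), ← Real.rpow_add (by linarith)]
      norm_num
    rw [h3]
    apply Real.rpow_le_rpow_of_exponent_le hx1
    apply one_div_le_one_div_of_le (by norm_num) hm1
  have hX0 : (0 : ℝ) < X := by exact_mod_cast hX
  have hX0' : (0 : ℝ) < X' := by exact_mod_cast hX'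
  rcases le_total X X' with h | h
  · have h' : (X : ℝ) ≤ X' := by exact_mod_cast h
    refine h1.trans (mul_le_mul_of_nonneg_left ((e1 X k hX hk).trans ?_) hM)
    exact Real.rpow_le_rpow (by positivity) (mul_le_mul_of_nonneg_left h' hX0.le) (by norm_num)
  · have h' : (X' : ℝ) ≤ X := by exact_mod_cast h
    refine h2.trans (mul_le_mul_of_nonneg_left ((e1 X' j hX' hj).trans ?_) hM)
    exact Real.rpow_le_rpow (by positivity) (mul_le_mul_of_nonneg_right h' hX0'.le) (by norm_num)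

/-- the number of points on one curve -/
theorem fiber_bound (j k : ℕ) (hj : 3 ≤ j) (hk : 3 ≤ k) (τ : ℝ) (hτ : 0 < τ) : ∃ C : ℝ, 1 ≤ C ∧
    ∀ (Z a u v α β : ℕ) (S : Finset (ℕ × ℕ)), 1 ≤ Z → 1 ≤ a → a ≤ Z → 1 ≤ u → u ≤ Z → 1 ≤ v →
    v ≤ Z → 2 ^ α ≤ Z → 2 ^ β ≤ Z →
    (∀ q ∈ S, 1 ≤ q.1 ∧ q.1 ≤ 2 ^ (α + 1) ∧ 1 ≤ q.2 ∧ q.2 ≤ 2 ^ (β + 1) ∧
      u * q.1 ^ j + a = v * q.2 ^ k) →
    (S.card : ℝ) ≤ C * (Z : ℝ) ^ τ * (4 * (2 : ℝ) ^ (α + β)) ^ (1 / 6 : ℝ) := by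
  obtain ⟨C1, hC11, hC1⟩ := tf_curve j k (by omega) (by omega) τ hτ
  obtain ⟨C2, hC21, hC2⟩ := tf_curve k j (by omega) (by omega) τ hτ
  have h2τ : (1 : ℝ) ≤ (2 : ℝ) ^ τ := Real.one_le_rpow (by norm_num) hτ.le
  refine ⟨(C1 + C2) * (2 : ℝ) ^ τ, ?_, ?_⟩
  · exact one_le_mul_of_one_le_of_one_le (by linarith) h2τ
  intro Z a u v α β S hZ ha haZ hu huZ hv hvZ hα hβ hS
  have hZ0 : (0 : ℝ) < Z := by exact_mod_cast hZ
  have hb1 := hC1 (2 * Z) u v a (2 ^ (α + 1)) (2 ^ (β + 1)) S (by omega) (by omega) (by omega)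
    (by omega) (by rw [abs_of_nonneg (by positivity)]; push_cast; omega)
    (by rw [abs_of_nonneg (by positivity)]; push_cast; omega)
    (by rw [abs_of_nonneg (by positivity)]; push_cast; omega)
    (Nat.one_le_two_pow) (by rw [pow_succ]; omega) (Nat.one_le_two_pow) (by rw [pow_succ]; omega)
    (by
      intro q hq
      obtain ⟨h1, h2, h3, h4, h5⟩ := hS q hq
      exact ⟨h1, h2, h3, h4, by exact_mod_cast h5⟩)
  have hb2 := hC2 (2 * Z) v u (-a) (2 ^ (β + 1)) (2 ^ (α + 1)) (S.image Prod.swap) (by omega)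
    (by omega) (by omega)
    (by omega) (by rw [abs_of_nonneg (by positivity)]; push_cast; omega)
    (by rw [abs_of_nonneg (by positivity)]; push_cast; omega)
    (by rw [abs_neg, abs_of_nonneg (by positivity)]; push_cast; omega)
    (Nat.one_le_two_pow) (by rw [pow_succ]; omega) (Nat.one_le_two_pow) (by rw [pow_succ]; omega)
    (by
      intro q hq
      obtain ⟨q', hq', rfl⟩ := Finset.mem_image.1 hq
      obtain ⟨h1, h2, h3, h4, h5⟩ := hS q' hq'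
      refine ⟨h3, h4, h1, h2, ?_⟩
      have h6 : (u : ℤ) * (q'.1 : ℤ) ^ j + a = v * (q'.2 : ℤ) ^ k := by exact_mod_cast h5
      simp only [Prod.fst_swap, Prod.snd_swap]
      linarith)
  rw [Finset.card_image_of_injective _ Prod.swap_injective] at hb2
  have hM : (0 : ℝ) ≤ (C1 + C2) * ((2 * Z : ℕ) : ℝ) ^ τ := by positivity
  have h3 := min_bound (S.card : ℝ) ((C1 + C2) * ((2 * Z : ℕ) : ℝ) ^ τ) (2 ^ (α + 1)) (2 ^ (β + 1))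
    hM Nat.one_le_two_pow Nat.one_le_two_pow j k hj hk
    (hb1.trans (by gcongr; linarith)) (hb2.trans (by gcongr; linarith))
  refine h3.trans (le_of_eq ?_)
  have h4 : ((2 ^ (α + 1) : ℕ) : ℝ) * ((2 ^ (β + 1) : ℕ) : ℝ) = 4 * (2 : ℝ) ^ (α + β) := by
    push_cast
    ring
  have h5 : ((2 * Z : ℕ) : ℝ) ^ τ = (2 : ℝ) ^ τ * (Z : ℝ) ^ τ := by
    push_cast
    exact Real.mul_rpow (by norm_num) hZ0.le
  rw [h4, h5]
  ring

/-- one dyadic class -/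
theorem class_bound (j k : ℕ) (hj : 3 ≤ j) (hk : 3 ≤ k) (τ : ℝ) (hτ : 0 < τ) : ∃ C : ℝ, 1 ≤ C ∧
    ∀ (Z : ℕ) (Y Q : ℝ) (α β : ℕ) (S : Finset (ℕ × ℕ)), 1 ≤ Z → 1 ≤ Y → 0 ≤ Q →
    (∀ q ∈ S, 1 ≤ q.1 ∧ 1 ≤ q.2 ∧ q.1 + q.2 ≤ Z ∧ Nat.Coprime q.1 q.2 ∧
      (rd (q.1 * q.2 * (q.1 + q.2)) : ℝ) ≤ Y ∧
      Y ≤ Q * ((xpart q.2 j : ℝ) * xpart (q.1 + q.2) k) ^ (5 / 6 : ℝ) ∧
      Nat.log 2 (xpart q.2 j) = α ∧ Nat.log 2 (xpart (q.1 + q.2) k) = β) →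
    (S.card : ℝ) ≤ C * (Z : ℝ) ^ (2 * τ) * Q := by
  classical
  obtain ⟨C1, hC11, hC1⟩ := fiber_bound j k hj hk τ hτ
  obtain ⟨C3, hC31, hC3⟩ := card_triple τ hτ
  refine ⟨4 * C1 * C3, ?_, ?_⟩
  · have := one_le_mul_of_one_le_of_one_le hC11 hC31
    linarith
  intro Z Y Q α β S hZ hY hQ hS
  have hZ0 : (0 : ℝ) < Z := by exact_mod_cast hZ
  rcases S.eq_empty_or_nonempty with rfl | ⟨q0, hq0⟩
  · simp only [Finset.card_empty, Nat.cast_zero]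
    positivity
  -- sizes
  have hlog : ∀ n m e : ℕ, Nat.log 2 (xpart n m) = e →
      2 ^ e ≤ xpart n m ∧ xpart n m ≤ 2 ^ (e + 1) := by
    intro n m e he
    have hp := xpart_pos n m
    refine ⟨?_, ?_⟩
    · rw [← he]
      exact Nat.pow_log_le_self 2 hp.ne'
    · rw [← he]
      exact (Nat.lt_pow_succ_log_self (by norm_num) _).le
  have hxle : ∀ n m : ℕ, n ≠ 0 → 1 ≤ m → xpart n m ≤ n := by
    intro n m hn hm
    refine le_trans ?_ (Nat.le_of_dvd (Nat.pos_of_ne_zero hn) (xpart_pow_dvd n m))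
    exact Nat.le_self_pow (by omega) _
  set P : ℝ := (2 : ℝ) ^ (α + β) with hP
  have hP0 : 0 < P := by positivity
  -- the triple
  set f : ℕ × ℕ → ℕ × ℕ × ℕ := fun q =>
    (q.1, q.2 / xpart q.2 j ^ j, (q.1 + q.2) / xpart (q.1 + q.2) k ^ k) with hf
  set T := (Icc 1 Z ×ˢ Icc 1 Z ×ˢ Icc 1 Z).filter
      (fun q : ℕ × ℕ × ℕ => (rd q.1 : ℝ) * rd q.2.1 * rd q.2.2 ≤ Y / P) with hT
  have hmaps : ∀ q ∈ S, f q ∈ T := by
    intro q hq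
    obtain ⟨h1, h2, h3, h4, h5, -, h6, h7⟩ := hS q hq
    obtain ⟨u1, u2, u3⟩ := quot q.2 j (by omega) (by omega)
    obtain ⟨v1, v2, v3⟩ := quot (q.1 + q.2) k (by omega) (by omega)
    have ul : q.2 / xpart q.2 j ^ j ≤ q.2 := Nat.div_le_self _ _
    have vl : (q.1 + q.2) / xpart (q.1 + q.2) k ^ k ≤ q.1 + q.2 := Nat.div_le_self _ _
    rw [hT, Finset.mem_filter, Finset.mem_product, Finset.mem_product, Finset.mem_Icc,
      Finset.mem_Icc, Finset.mem_Icc]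
    simp only [hf]
    refine ⟨⟨⟨h1, by omega⟩, ⟨Nat.one_le_iff_ne_zero.2 u1, ul.trans (by omega)⟩,
      ⟨Nat.one_le_iff_ne_zero.2 v1, vl.trans h3⟩⟩, ?_⟩
    rw [le_div_iff₀ hP0]
    have hcop1 : Nat.Coprime (q.1 * q.2) (q.1 + q.2) := by
      apply Nat.Coprime.mul_left
      · rw [Nat.coprime_self_add_right]
        exact h4
      · rw [Nat.coprime_add_self_right]
        exact h4.symm
    have hrd : rd (q.1 * q.2 * (q.1 + q.2)) = rd q.1 * rd q.2 * rd (q.1 + q.2) := by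
      rw [rd_mul_coprime _ _ (by positivity) (by omega) hcop1,
        rd_mul_coprime _ _ (by omega) (by omega) h4]
    have hy := (hlog _ _ _ h6).1
    have hz := (hlog _ _ _ h7).1
    have hyz : P ≤ (xpart q.2 j : ℝ) * xpart (q.1 + q.2) k := by
      rw [hP, pow_add]
      have hy' : (2 : ℝ) ^ α ≤ (xpart q.2 j : ℝ) := by exact_mod_cast hy
      have hz' : (2 : ℝ) ^ β ≤ (xpart (q.1 + q.2) k : ℝ) := by exact_mod_cast hz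
      exact mul_le_mul hy' hz' (by positivity) (by positivity)
    calc (rd q.1 : ℝ) * rd (q.2 / xpart q.2 j ^ j) * rd ((q.1 + q.2) / xpart (q.1 + q.2) k ^ k) * P
        ≤ (rd q.1 : ℝ) * rd (q.2 / xpart q.2 j ^ j) * rd ((q.1 + q.2) / xpart (q.1 + q.2) k ^ k) *
          ((xpart q.2 j : ℝ) * xpart (q.1 + q.2) k) :=
          mul_le_mul_of_nonneg_left hyz (by positivity)
      _ = (rd (q.1 * q.2 * (q.1 + q.2)) : ℝ) := by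
          rw [hrd]
          conv_rhs => rw [u3, v3]
          push_cast
          ring
      _ ≤ Y := h5
  -- sizes from the element q0
  obtain ⟨g1, g2, g3, g4, g5, g6, g7, g8⟩ := hS q0 hq0
  have hαZ : 2 ^ α ≤ Z := by
    have h1 := (hlog _ _ _ g7).1
    have h2 := hxle q0.2 j (by omega) (by omega)
    omega
  have hβZ : 2 ^ β ≤ Z := by
    have h1 := (hlog _ _ _ g8).1
    have h2 := hxle (q0.1 + q0.2) k (by omega) (by omega)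
    omega
  -- the fibres
  set B : ℝ := C1 * (Z : ℝ) ^ τ * (4 * P) ^ (1 / 6 : ℝ) with hB
  have hfib : ∀ t ∈ T, (((S.filter (fun q => f q = t)).card : ℕ) : ℝ) ≤ B := by
    intro t ht
    rw [hT, Finset.mem_filter, Finset.mem_product, Finset.mem_product, Finset.mem_Icc,
      Finset.mem_Icc, Finset.mem_Icc] at ht
    obtain ⟨⟨⟨t1, t2⟩, ⟨t3, t4⟩, ⟨t5, t6⟩⟩, -⟩ := ht
    set g : ℕ × ℕ → ℕ × ℕ := fun q => (xpart q.2 j, xpart (q.1 + q.2) k) with hg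
    have hinj : Set.InjOn g (S.filter (fun q => f q = t) : Finset (ℕ × ℕ)) := by
      intro q hq q' hq' hgg
      rw [Finset.mem_coe, Finset.mem_filter] at hq hq'
      obtain ⟨hqS, hqt⟩ := hq
      obtain ⟨hqS', hqt'⟩ := hq'
      obtain ⟨h1, h2, -⟩ := hS q hqS
      obtain ⟨h1', h2', -⟩ := hS q' hqS'
      simp only [hf] at hqt hqt'
      simp only [hg, Prod.mk.injEq] at hgg
      have e1 : q.1 = q'.1 := by
        rw [← hqt'] at hqt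
        exact (Prod.mk.inj hqt).1
      have e2 : q.2 / xpart q.2 j ^ j = q'.2 / xpart q'.2 j ^ j := by
        rw [← hqt'] at hqt
        exact (Prod.mk.inj (Prod.mk.inj hqt).2).1
      have e3 : q.2 = q'.2 := by
        have k1 := (quot q.2 j (by omega) (by omega)).2.1
        have k2 := (quot q'.2 j (by omega) (by omega)).2.1
        rw [← k1, ← k2, e2, hgg.1]
      exact Prod.ext e1 e3
    rw [← Finset.card_image_of_injOn hinj]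
    have h := hC1 Z t.1 t.2.1 t.2.2 α β ((S.filter (fun q => f q = t)).image g) hZ t1 t2 t3 t4 t5 t6
      hαZ hβZ ?_
    · exact h
    · intro w hw
      obtain ⟨q, hq, rfl⟩ := Finset.mem_image.1 hw
      rw [Finset.mem_filter] at hq
      obtain ⟨hqS, hqt⟩ := hq
      obtain ⟨h1, h2, -, -, -, -, h6, h7⟩ := hS q hqS
      refine ⟨xpart_pos _ _, (hlog _ _ _ h6).2, xpart_pos _ _, (hlog _ _ _ h7).2, ?_⟩
      rw [← hqt]
      simp only [hf, hg]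
      rw [(quot q.2 j (by omega) (by omega)).2.1, (quot (q.1 + q.2) k (by omega) (by omega)).2.1,
        add_comm]
  have hcard : (S.card : ℝ) ≤ T.card * B := by
    rw [Finset.card_eq_sum_card_fiberwise (f := f) (t := T) (fun q hq => hmaps q hq)]
    push_cast
    calc ∑ t ∈ T, (((S.filter (fun q => f q = t)).card : ℕ) : ℝ) ≤ ∑ t ∈ T, B :=
          Finset.sum_le_sum hfib
      _ = T.card * B := by rw [Finset.sum_const, nsmul_eq_mul]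
  have hTc := hC3 Z (Y / P) hZ (by positivity)
  -- Y is bounded
  have hYle : Y ≤ Q * (4 * P) ^ (5 / 6 : ℝ) := by
    refine g6.trans (mul_le_mul_of_nonneg_left ?_ hQ)
    apply Real.rpow_le_rpow (by positivity) _ (by norm_num)
    have hy' : (xpart q0.2 j : ℝ) ≤ (2 : ℝ) ^ (α + 1) := by exact_mod_cast (hlog _ _ _ g7).2
    have hz' : (xpart (q0.1 + q0.2) k : ℝ) ≤ (2 : ℝ) ^ (β + 1) := by
      exact_mod_cast (hlog _ _ _ g8).2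
    calc (xpart q0.2 j : ℝ) * xpart (q0.1 + q0.2) k ≤ (2 : ℝ) ^ (α + 1) * (2 : ℝ) ^ (β + 1) :=
          mul_le_mul hy' hz' (by positivity) (by positivity)
      _ = 4 * P := by
          rw [hP]
          ring
  have h4P : (4 * P) ^ (5 / 6 : ℝ) * (4 * P) ^ (1 / 6 : ℝ) = 4 * P := by
    rw [← Real.rpow_add (by positivity)]
    norm_num
  have hZτ : (Z : ℝ) ^ τ * (Z : ℝ) ^ τ = (Z : ℝ) ^ (2 * τ) := by
    rw [← Real.rpow_add hZ0]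
    congr 1
    ring
  calc (S.card : ℝ) ≤ T.card * B := hcard
    _ ≤ (C3 * (Z : ℝ) ^ τ * (Y / P)) * B :=
        mul_le_mul_of_nonneg_right hTc (by positivity)
    _ = C1 * C3 * ((Z : ℝ) ^ τ * (Z : ℝ) ^ τ) * (4 * P) ^ (1 / 6 : ℝ) / P * Y := by
        rw [hB]
        ring
    _ ≤ C1 * C3 * ((Z : ℝ) ^ τ * (Z : ℝ) ^ τ) * (4 * P) ^ (1 / 6 : ℝ) / P *
        (Q * (4 * P) ^ (5 / 6 : ℝ)) := mul_le_mul_of_nonneg_left hYle (by positivity)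
    _ = C1 * C3 * ((Z : ℝ) ^ τ * (Z : ℝ) ^ τ) * Q / P *
        ((4 * P) ^ (5 / 6 : ℝ) * (4 * P) ^ (1 / 6 : ℝ)) := by ring
    _ = 4 * C1 * C3 * (Z : ℝ) ^ (2 * τ) * Q := by
        rw [h4P, hZτ]
        field_simp

/-- fixed exponents -/
theorem jk_bound (j k : ℕ) (hj : 3 ≤ j) (hk : 3 ≤ k) (σ : ℝ) (hσ : 0 < σ) : ∃ C : ℝ, 1 ≤ C ∧
    ∀ (Z : ℕ) (Y Q : ℝ) (S : Finset (ℕ × ℕ)), 1 ≤ Z → 1 ≤ Y → 0 ≤ Q →
    (∀ q ∈ S, 1 ≤ q.1 ∧ 1 ≤ q.2 ∧ q.1 + q.2 ≤ Z ∧ Nat.Coprime q.1 q.2 ∧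
      (rd (q.1 * q.2 * (q.1 + q.2)) : ℝ) ≤ Y ∧
      Y ≤ Q * ((xpart q.2 j : ℝ) * xpart (q.1 + q.2) k) ^ (5 / 6 : ℝ)) →
    (S.card : ℝ) ≤ C * (Z : ℝ) ^ σ * Q := by
  classical
  obtain ⟨C1, hC11, hC1⟩ := class_bound j k hj hk (σ / 4) (by positivity)
  obtain ⟨C2, hC21, hC2⟩ := I1_log (σ / 4) (by positivity)
  refine ⟨C2 ^ 2 * C1, one_le_mul_of_one_le_of_one_le (one_le_pow₀ hC21) hC11, ?_⟩
  intro Z Y Q S hZ hY hQ hS
  have hZ0 : (0 : ℝ) < Z := by exact_mod_cast hZ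
  have hxle : ∀ n m : ℕ, n ≠ 0 → 1 ≤ m → xpart n m ≤ n := by
    intro n m hn hm
    refine le_trans ?_ (Nat.le_of_dvd (Nat.pos_of_ne_zero hn) (xpart_pow_dvd n m))
    exact Nat.le_self_pow (by omega) _
  set L := Nat.log 2 Z with hL
  set f : ℕ × ℕ → ℕ × ℕ := fun q =>
    (Nat.log 2 (xpart q.2 j), Nat.log 2 (xpart (q.1 + q.2) k)) with hf
  set T := Finset.range (L + 1) ×ˢ Finset.range (L + 1) with hT
  have hmaps : ∀ q ∈ S, f q ∈ T := by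
    intro q hq
    obtain ⟨h1, h2, h3, -⟩ := hS q hq
    rw [hT, Finset.mem_product, Finset.mem_range, Finset.mem_range]
    simp only [hf]
    have e1 := hxle q.2 j (by omega) (by omega)
    have e2 := hxle (q.1 + q.2) k (by omega) (by omega)
    have e3 : Nat.log 2 (xpart q.2 j) ≤ L := Nat.log_mono_right (by omega)
    have e4 : Nat.log 2 (xpart (q.1 + q.2) k) ≤ L := Nat.log_mono_right (by omega)
    omega
  have hfib : ∀ t ∈ T, (((S.filter (fun q => f q = t)).card : ℕ) : ℝ) ≤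
      C1 * (Z : ℝ) ^ (2 * (σ / 4)) * Q := by
    intro t _
    refine hC1 Z Y Q t.1 t.2 _ hZ hY hQ ?_
    intro q hq
    rw [Finset.mem_filter] at hq
    obtain ⟨h1, h2, h3, h4, h5, h6⟩ := hS q hq.1
    have h7 : f q = t := hq.2
    simp only [hf] at h7
    exact ⟨h1, h2, h3, h4, h5, h6, (Prod.ext_iff.1 h7).1, (Prod.ext_iff.1 h7).2⟩
  have hTc : ((T.card : ℕ) : ℝ) ≤ (C2 * (Z : ℝ) ^ (σ / 4)) ^ 2 := by
    rw [hT, Finset.card_product, Finset.card_range]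
    push_cast
    have h1 := hC2 Z hZ
    have h2 : (0 : ℝ) ≤ (L : ℝ) + 1 := by positivity
    rw [← sq]
    exact pow_le_pow_left₀ h2 h1 2
  have hcard : (S.card : ℝ) ≤ T.card * (C1 * (Z : ℝ) ^ (2 * (σ / 4)) * Q) := by
    rw [Finset.card_eq_sum_card_fiberwise (f := f) (t := T) (fun q hq => hmaps q hq)]
    push_cast
    calc ∑ t ∈ T, (((S.filter (fun q => f q = t)).card : ℕ) : ℝ) ≤
          ∑ t ∈ T, (C1 * (Z : ℝ) ^ (2 * (σ / 4)) * Q) := Finset.sum_le_sum hfib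
      _ = T.card * (C1 * (Z : ℝ) ^ (2 * (σ / 4)) * Q) := by rw [Finset.sum_const, nsmul_eq_mul]
  have hZσ : ((Z : ℝ) ^ (σ / 4)) ^ 2 * (Z : ℝ) ^ (2 * (σ / 4)) = (Z : ℝ) ^ σ := by
    rw [← Real.rpow_natCast, ← Real.rpow_mul hZ0.le, ← Real.rpow_add hZ0]
    congr 1
    push_cast
    ring
  calc (S.card : ℝ) ≤ T.card * (C1 * (Z : ℝ) ^ (2 * (σ / 4)) * Q) := hcard
    _ ≤ (C2 * (Z : ℝ) ^ (σ / 4)) ^ 2 * (C1 * (Z : ℝ) ^ (2 * (σ / 4)) * Q) :=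
        mul_le_mul_of_nonneg_right hTc (by positivity)
    _ = C2 ^ 2 * C1 * (((Z : ℝ) ^ (σ / 4)) ^ 2 * (Z : ℝ) ^ (2 * (σ / 4))) * Q := by ring
    _ = C2 ^ 2 * C1 * (Z : ℝ) ^ σ * Q := by rw [hZσ]

end TfM

theorem card_evLong (K : ℕ) (σ : ℝ) (hσ : 0 < σ) : ∃ C : ℝ, 1 ≤ C ∧ ∀ (Z : ℕ) (Y Q : ℝ)
    (S : Finset (ℕ × ℕ)), 1 ≤ Z → 1 ≤ Y → 0 ≤ Q →
    (∀ q ∈ S, 1 ≤ q.1 ∧ 1 ≤ q.2 ∧ q.1 + q.2 ≤ Z ∧ Nat.Coprime q.1 q.2 ∧
      (rd (q.1 * q.2 * (q.1 + q.2)) : ℝ) ≤ Y ∧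
      ∃ j k : ℕ, 3 ≤ j ∧ j < K ∧ 3 ≤ k ∧ k < K ∧
        Y ≤ Q * ((xpart q.2 j : ℝ) * xpart (q.1 + q.2) k) ^ (5 / 6 : ℝ)) →
    (S.card : ℝ) ≤ C * (Z : ℝ) ^ σ * Q := by
  classical
  have hex : ∀ p : ℕ × ℕ, ∃ C : ℝ, 1 ≤ C ∧ (3 ≤ p.1 → 3 ≤ p.2 →
    ∀ (Z : ℕ) (Y Q : ℝ) (S : Finset (ℕ × ℕ)), 1 ≤ Z → 1 ≤ Y → 0 ≤ Q →
    (∀ q ∈ S, 1 ≤ q.1 ∧ 1 ≤ q.2 ∧ q.1 + q.2 ≤ Z ∧ Nat.Coprime q.1 q.2 ∧
      (rd (q.1 * q.2 * (q.1 + q.2)) : ℝ) ≤ Y ∧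
      Y ≤ Q * ((xpart q.2 p.1 : ℝ) * xpart (q.1 + q.2) p.2) ^ (5 / 6 : ℝ)) →
    (S.card : ℝ) ≤ C * (Z : ℝ) ^ σ * Q) := by
    intro p
    by_cases h : 3 ≤ p.1 ∧ 3 ≤ p.2
    · obtain ⟨C, hC1, hC⟩ := TfM.jk_bound p.1 p.2 h.1 h.2 σ hσ
      exact ⟨C, hC1, fun _ _ => hC⟩
    · exact ⟨1, le_rfl, fun h1 h2 => absurd ⟨h1, h2⟩ h⟩
  choose c hc1 hc using hex
  have hc0 : ∀ p, 0 ≤ c p := fun p => zero_le_one.trans (hc1 p)
  set W := Finset.range K ×ˢ Finset.range K with hW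
  refine ⟨1 + ∑ p ∈ W, c p, by
    have := Finset.sum_nonneg (fun p (_ : p ∈ W) => hc0 p)
    linarith, ?_⟩
  intro Z Y Q S hZ hY hQ hS
  have hZ0 : (0 : ℝ) < Z := by exact_mod_cast hZ
  set S' : ℕ × ℕ → Finset (ℕ × ℕ) := fun p => S.filter (fun q => 3 ≤ p.1 ∧ 3 ≤ p.2 ∧
    Y ≤ Q * ((xpart q.2 p.1 : ℝ) * xpart (q.1 + q.2) p.2) ^ (5 / 6 : ℝ)) with hS'
  have hsub : S ⊆ W.biUnion S' := by
    intro q hq
    obtain ⟨-, -, -, -, -, j, k, h1, h2, h3, h4, h5⟩ := hS q hq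
    rw [Finset.mem_biUnion]
    refine ⟨(j, k), ?_, ?_⟩
    · rw [hW, Finset.mem_product, Finset.mem_range, Finset.mem_range]
      exact ⟨h2, h4⟩
    · simp only [hS', Finset.mem_filter]
      exact ⟨hq, h1, h3, h5⟩
  have hp : ∀ p ∈ W, (((S' p).card : ℕ) : ℝ) ≤ c p * (Z : ℝ) ^ σ * Q := by
    intro p _
    by_cases h : 3 ≤ p.1 ∧ 3 ≤ p.2
    · refine hc p h.1 h.2 Z Y Q (S' p) hZ hY hQ ?_
      intro q hq
      simp only [hS', Finset.mem_filter] at hq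
      obtain ⟨h1, h2, h3, h4, h5, -⟩ := hS q hq.1
      exact ⟨h1, h2, h3, h4, h5, hq.2.2.2⟩
    · have h0 : S' p = ∅ := by
        simp only [hS']
        rw [Finset.filter_eq_empty_iff]
        rintro q _ ⟨h1, h2, -⟩
        exact h ⟨h1, h2⟩
      rw [h0, Finset.card_empty, Nat.cast_zero]
      have := hc0 p
      positivity
  have h1 : (S.card : ℝ) ≤ ∑ p ∈ W, (((S' p).card : ℕ) : ℝ) := by
    have h2 := (Finset.card_le_card hsub).trans Finset.card_biUnion_le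
    exact_mod_cast h2
  calc (S.card : ℝ) ≤ ∑ p ∈ W, (((S' p).card : ℕ) : ℝ) := h1
    _ ≤ ∑ p ∈ W, c p * (Z : ℝ) ^ σ * Q := Finset.sum_le_sum hp
    _ = (∑ p ∈ W, c p) * (Z : ℝ) ^ σ * Q := by rw [Finset.sum_mul, Finset.sum_mul]
    _ ≤ (1 + ∑ p ∈ W, c p) * (Z : ℝ) ^ σ * Q := by
        have h3 : (0 : ℝ) ≤ (Z : ℝ) ^ σ * Q := by positivity
        rw [add_mul, add_mul, one_mul]
        linarith

end Pool.Agent.Lib.MP_d8bd92_nt
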