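import Pool.Agent.Lib.MP_d8bd92_nt.LgDefs

set_option autoImplicit false

/-! Row S: primitive solutions of a ternary linear equation in a box. -/

namespace Pool.Agent.Lib.MP_d8bd92_nt

open Finset Pool.Agent.Lib.Szpiro

namespace LgS

/-- two primitive solutions with the same slope are equal -/
theorem same (a b c x₁ y₁ z₁ x₂ y₂ z₂ : ℕ) (hc : 1 ≤ c) (h₁ : Nat.Coprime x₁ y₁)
    (h₂ : Nat.Coprime x₂ y₂) (e₁ : a * x₁ + b * y₁ = c * z₁) (e₂ : a * x₂ + b * y₂ = c * z₂)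
    (h : x₁ * y₂ = x₂ * y₁) : x₁ = x₂ ∧ y₁ = y₂ ∧ z₁ = z₂ := by
  have hx : x₁ = x₂ := by
    apply Nat.dvd_antisymm
    · exact h₁.dvd_of_dvd_mul_right (h ▸ Dvd.intro _ rfl)
    · exact h₂.dvd_of_dvd_mul_right (h.symm ▸ Dvd.intro _ rfl)
  have hy : y₁ = y₂ := by
    apply Nat.dvd_antisymm
    · exact h₁.symm.dvd_of_dvd_mul_left (h ▸ Dvd.intro_left _ rfl)
    · exact h₂.symm.dvd_of_dvd_mul_left (h.symm ▸ Dvd.intro_left _ rfl)
  subst hx hy
  refine ⟨rfl, rfl, ?_⟩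
  rw [e₁] at e₂
  exact Nat.eq_of_mul_eq_mul_left hc e₂

/-- the determinant is divisible by `c` -/
theorem dvd (a b c x₁ y₁ z₁ x₂ y₂ z₂ : ℕ) (hac : Nat.Coprime a c)
    (e₁ : a * x₁ + b * y₁ = c * z₁) (e₂ : a * x₂ + b * y₂ = c * z₂) :
    (c : ℤ) ∣ (x₁ : ℤ) * y₂ - x₂ * y₁ := by
  have e₁' : (a : ℤ) * x₁ + b * y₁ = c * z₁ := by exact_mod_cast e₁
  have e₂' : (a : ℤ) * x₂ + b * y₂ = c * z₂ := by exact_mod_cast e₂
  have h1 : (c : ℤ) ∣ (a : ℤ) * ((x₁ : ℤ) * y₂ - x₂ * y₁) :=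
    ⟨z₁ * y₂ - z₂ * y₁, by linear_combination (y₂ : ℤ) * e₁' - (y₁ : ℤ) * e₂'⟩
  have h2 : IsCoprime (c : ℤ) (a : ℤ) := by
    rw [Int.isCoprime_iff_gcd_eq_one]
    simpa [Int.gcd] using hac.symm
  exact h2.dvd_of_dvd_mul_left h1

end LgS

/-- Row S. Primitive solutions of a ternary linear equation in a box. -/
theorem lg_lattice (a b c X Y : ℕ) (ha : 1 ≤ a) (hb : 1 ≤ b) (hc : 1 ≤ c) (hX : 1 ≤ X)
    (hY : 1 ≤ Y) (hac : Nat.Coprime a c) (T : Finset (ℕ × ℕ × ℕ))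
    (hT : ∀ v ∈ T, X ≤ v.1 ∧ v.1 < 2 * X ∧ Y ≤ v.2.1 ∧ v.2.1 < 2 * Y ∧ Nat.Coprime v.1 v.2.1 ∧
      a * v.1 + b * v.2.1 = c * v.2.2) :
    (T.card : ℝ) ≤ 1 + 8 * (X : ℝ) * Y / c := by
  have hc0 : (0 : ℝ) < c := by exact_mod_cast hc
  have hX0 : (0 : ℝ) < X := by exact_mod_cast hX
  have hY0 : (0 : ℝ) < Y := by exact_mod_cast hY
  have hB0 : 0 ≤ 8 * (X : ℝ) * Y / c := by positivity
  set g : ℕ × ℕ × ℕ → ℝ := fun v => (v.2.1 : ℝ) / v.1 * (4 * (X : ℝ) ^ 2 / c) with hg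
  have hcard : T.card ≤ (Finset.range (⌊8 * (X : ℝ) * Y / c⌋₊ + 1)).card := by
    refine Finset.card_le_card_of_injOn (fun v => ⌊g v⌋₊) ?_ ?_
    · intro v hv
      obtain ⟨h1, h2, h3, h4, h5, h6⟩ := hT v hv
      have hx : (X : ℝ) ≤ v.1 := by exact_mod_cast h1
      have hy : (v.2.1 : ℝ) ≤ 2 * Y := by exact_mod_cast h4.le
      have hle : g v ≤ 8 * (X : ℝ) * Y / c := by
        have e1 : (v.2.1 : ℝ) / v.1 ≤ 2 * Y / X :=
          div_le_div₀ (by positivity) hy hX0 hx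
        calc g v ≤ 2 * Y / X * (4 * (X : ℝ) ^ 2 / c) :=
              mul_le_mul_of_nonneg_right e1 (by positivity)
          _ = 8 * (X : ℝ) * Y / c := by
              field_simp
              try ring
      simp only [Finset.coe_range, Set.mem_Iio]
      exact Nat.lt_succ_of_le (Nat.floor_le_floor hle)
    · intro v hv w hw hvw
      obtain ⟨h1, h2, h3, h4, h5, h6⟩ := hT v hv
      obtain ⟨k1, k2, k3, k4, k5, k6⟩ := hT w hw
      by_contra hne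
      have hx0 : (0 : ℝ) < v.1 := by exact_mod_cast (lt_of_lt_of_le (by omega) h1)
      have hx0' : (0 : ℝ) < w.1 := by exact_mod_cast (lt_of_lt_of_le (by omega) k1)
      have hgv : 0 ≤ g v := by positivity
      have hgw : 0 ≤ g w := by positivity
      have hd := LgS.dvd a b c v.1 v.2.1 v.2.2 w.1 w.2.1 w.2.2 hac h6 k6
      have hD : (v.1 : ℤ) * w.2.1 - w.1 * v.2.1 ≠ 0 := by
        intro h0
        have h7 : v.1 * w.2.1 = w.1 * v.2.1 := by
          have : (v.1 : ℤ) * w.2.1 = w.1 * v.2.1 := by linarith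
          exact_mod_cast this
        obtain ⟨q1, q2, q3⟩ := LgS.same a b c v.1 v.2.1 v.2.2 w.1 w.2.1 w.2.2 hc h5 k5 h6 k6 h7
        exact hne (Prod.ext q1 (Prod.ext q2 q3))
      have habs : (c : ℤ) ≤ |(v.1 : ℤ) * w.2.1 - w.1 * v.2.1| := by
        have := Int.le_of_dvd (abs_pos.2 hD) ((dvd_abs _ _).2 hd)
        exact this
      have habsR : (c : ℝ) ≤ |(v.1 : ℝ) * w.2.1 - w.1 * v.2.1| := by
        have : ((c : ℤ) : ℝ) ≤ ((|(v.1 : ℤ) * w.2.1 - w.1 * v.2.1| : ℤ) : ℝ) := by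
          exact_mod_cast habs
        push_cast at this
        exact this
      have hfl : ⌊g v⌋₊ = ⌊g w⌋₊ := hvw
      have u1 := Nat.lt_floor_add_one (g v)
      have u2 := Nat.floor_le hgw
      have u3 := Nat.lt_floor_add_one (g w)
      have u4 := Nat.floor_le hgv
      rw [hfl] at u1 u4
      have hlt : |g v - g w| < 1 := by
        rw [abs_lt]
        constructor <;> linarith
      have hid : (g v - g w) * ((v.1 : ℝ) * w.1 * c) =
          -((v.1 : ℝ) * w.2.1 - w.1 * v.2.1) * (4 * (X : ℝ) ^ 2) := by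
        simp only [hg]
        field_simp
        try ring
      have hpos : (0 : ℝ) < (v.1 : ℝ) * w.1 * c := by positivity
      have h8 : |g v - g w| * ((v.1 : ℝ) * w.1 * c) =
          |(v.1 : ℝ) * w.2.1 - w.1 * v.2.1| * (4 * (X : ℝ) ^ 2) := by
        have h81 : |(g v - g w) * ((v.1 : ℝ) * w.1 * c)| =
            |g v - g w| * ((v.1 : ℝ) * w.1 * c) := by
          rw [abs_mul, abs_of_pos hpos]
        rw [← h81, hid, abs_mul, abs_neg,
          abs_of_nonneg (by positivity : (0 : ℝ) ≤ 4 * (X : ℝ) ^ 2)]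
      have h9 : |g v - g w| * ((v.1 : ℝ) * w.1 * c) < (v.1 : ℝ) * w.1 * c := by
        have := mul_lt_mul_of_pos_right hlt hpos
        linarith
      have hvx : (v.1 : ℝ) ≤ 2 * X := by exact_mod_cast h2.le
      have hwx : (w.1 : ℝ) ≤ 2 * X := by exact_mod_cast k2.le
      have h10 : (v.1 : ℝ) * w.1 ≤ 4 * (X : ℝ) ^ 2 := by
        have := mul_le_mul hvx hwx hx0'.le (by positivity)
        nlinarith
      have h11 : (v.1 : ℝ) * w.1 * c ≤ 4 * (X : ℝ) ^ 2 * c :=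
        mul_le_mul_of_nonneg_right h10 hc0.le
      have h12 : (c : ℝ) * (4 * (X : ℝ) ^ 2) ≤
          |(v.1 : ℝ) * w.2.1 - w.1 * v.2.1| * (4 * (X : ℝ) ^ 2) :=
        mul_le_mul_of_nonneg_right habsR (by positivity)
      linarith
  rw [Finset.card_range] at hcard
  have h1 : (T.card : ℝ) ≤ (⌊8 * (X : ℝ) * Y / c⌋₊ : ℝ) + 1 := by exact_mod_cast hcard
  have h2 := Nat.floor_le hB0
  linarith

end Pool.Agent.Lib.MP_d8bd92_nt
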