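import Pool.Agent.Lib.MP_d8bd92_nt.TfDefs

set_option autoImplicit false

/-!
Row B: the pointwise inequality.
-/

namespace Pool.Agent.Lib.MP_d8bd92_nt

open Finset Pool.Agent.Lib.Szpiro

namespace TfB

/-- the saving for one variable -/
theorem one_var (y μ a : ℝ) (R : ℕ) (hR : 1 ≤ R) (hy0 : 0 ≤ y) (hy1 : y ≤ 1) (hμ0 : 0 ≤ μ)
    (hμ1 : μ ≤ 1) (ha : 0 ≤ a)
    (h1 : ∀ r : ℕ, 1 ≤ r → r ≤ R + 1 → (r : ℝ) * y ≤ 1 → (r : ℝ) * y - μ ≤ 2 * r * a)
    (h2 : ∀ r : ℕ, 1 ≤ r → r ≤ R + 1 → 1 ≤ (r : ℝ) * y → 1 - μ ≤ 2 * r * a) :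
    1 / 2 * (y * ((1 - μ) / (1 + μ))) - 1 / (2 * R) ≤ a := by
  have hR0 : (0 : ℝ) < R := by exact_mod_cast (by omega : 0 < R)
  have hμ2 : 0 < 1 + μ := by linarith
  have hq0 : 0 ≤ (1 - μ) / (1 + μ) := div_nonneg (by linarith) hμ2.le
  have hq1 : (1 - μ) / (1 + μ) ≤ 1 := by rw [div_le_one hμ2]; linarith
  by_cases hy : y ≤ 1 / R
  · have e1 : y * ((1 - μ) / (1 + μ)) ≤ 1 / R :=
      (mul_le_mul hy hq1 hq0 (by positivity)).trans (by rw [mul_one])
    have e2 : (1 : ℝ) / (2 * R) = 1 / 2 * (1 / R) := by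
      field_simp
    rw [e2]
    linarith
  push Not at hy
  have hypos : 0 < y := lt_trans (by positivity) hy
  have hRpos : 0 ≤ (1 : ℝ) / (2 * R) := by positivity
  set r : ℕ := ⌊1 / y⌋₊ with hr
  have hinv1 : 1 ≤ 1 / y := by rw [le_div_iff₀ hypos]; linarith
  have hr1 : 1 ≤ r := by
    rw [hr]
    exact Nat.le_floor (by simpa using hinv1)
  have hrR : r ≤ R := by
    have : 1 / y < R := by
      rw [div_lt_iff₀ hypos]
      rw [div_lt_iff₀ hR0] at hy
      linarith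
    rw [hr]
    have h3 : (⌊1 / y⌋₊ : ℝ) ≤ 1 / y := Nat.floor_le (by positivity)
    have h4 : (⌊1 / y⌋₊ : ℝ) < R := lt_of_le_of_lt h3 this
    exact_mod_cast h4.le
  have hra : (r : ℝ) * y ≤ 1 := by
    have h3 : (r : ℝ) ≤ 1 / y := Nat.floor_le (by positivity)
    calc (r : ℝ) * y ≤ 1 / y * y := mul_le_mul_of_nonneg_right h3 hypos.le
      _ = 1 := by field_simp
  have hrb : 1 ≤ ((r + 1 : ℕ) : ℝ) * y := by
    have h3 : 1 / y < (r : ℝ) + 1 := Nat.lt_floor_add_one _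
    push_cast
    calc (1 : ℝ) = 1 / y * y := by field_simp
      _ ≤ ((r : ℝ) + 1) * y := mul_le_mul_of_nonneg_right h3.le hypos.le
  have k1 := h1 r hr1 (by omega) hra
  have k2 := h2 (r + 1) (by omega) (by omega) hrb
  push_cast at k2
  have hr0 : (1 : ℝ) ≤ r := by exact_mod_cast hr1
  suffices hs : y * ((1 - μ) / (1 + μ)) ≤ 2 * a by linarith
  rw [← mul_div_assoc, div_le_iff₀ hμ2]
  by_cases hc : y * ((r : ℝ) + 1) ≤ 1 + μ
  · -- use k2
    have e1 : (y * ((r : ℝ) + 1)) * (1 - μ) ≤ (1 + μ) * (2 * ((r : ℝ) + 1) * a) :=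
      mul_le_mul hc k2 (by linarith) (by linarith)
    have e2 : ((r : ℝ) + 1) * (y * (1 - μ)) ≤ ((r : ℝ) + 1) * (2 * a * (1 + μ)) := by linarith
    exact le_of_mul_le_mul_left e2 (by linarith)
  · push Not at hc
    have e0 : 1 + μ ≤ 2 * r * y := by nlinarith
    -- need y (1-μ) ≤ 2 a (1+μ); r * both
    have e1 : (r : ℝ) * (y * (1 - μ)) ≤ (r : ℝ) * (2 * a * (1 + μ)) := by
      have e3 : ((r : ℝ) * y - μ) * (1 + μ) ≤ (2 * r * a) * (1 + μ) :=
        mul_le_mul_of_nonneg_right k1 hμ2.le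
      nlinarith
    exact le_of_mul_le_mul_left e1 (by linarith)

/-- the three vertices -/
theorem three_vertices (A μ : ℝ) (hA : 0 ≤ A) (hμ0 : 0 ≤ μ) (hμ1 : μ ≤ 1) :
    min 1 (min (A / 6 + 1 / 3) (A / 2)) ≤ A / 2 * ((1 - μ) / (1 + μ)) + μ := by
  have hμ2 : 0 < 1 + μ := by linarith
  have e0 : A / 2 * ((1 - μ) / (1 + μ)) + μ = (A / 2 * (1 - μ) + μ * (1 + μ)) / (1 + μ) := by
    field_simp
  rw [e0, le_div_iff₀ hμ2]
  have m1 : min 1 (min (A / 6 + 1 / 3) (A / 2)) ≤ 1 := min_le_left _ _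
  have m2 : min 1 (min (A / 6 + 1 / 3) (A / 2)) ≤ A / 6 + 1 / 3 :=
    (min_le_right _ _).trans (min_le_left _ _)
  have m3 : min 1 (min (A / 6 + 1 / 3) (A / 2)) ≤ A / 2 :=
    (min_le_right _ _).trans (min_le_right _ _)
  rcases le_total A 1 with h | h
  · have e1 := mul_le_mul_of_nonneg_right m3 hμ2.le
    nlinarith [mul_nonneg hμ0 (by linarith : 0 ≤ 1 - A)]
  · rcases le_total A 4 with h4 | h4
    · have e1 := mul_le_mul_of_nonneg_right m2 hμ2.le
      nlinarith [mul_nonneg (by linarith : 0 ≤ 4 - A) (sq_nonneg μ),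
        mul_nonneg (by linarith : 0 ≤ A - 1) (sq_nonneg (1 - μ))]
    · have e1 := mul_le_mul_of_nonneg_right m1 hμ2.le
      nlinarith [mul_nonneg (by linarith : 0 ≤ A - 4) (by linarith : 0 ≤ 1 - μ), sq_nonneg (1 - μ)]

end TfB

theorem tf_pointwise {ι : Type} [Fintype ι] (R : ℕ) (hR : 1 ≤ R) (D M : ℝ) (hD : 1 ≤ D)
    (hM : 1 ≤ M) (X s : ι → ℝ) (hX : ∀ j, 1 ≤ X j) (hXD : ∀ j, X j ≤ D) (hs0 : ∀ j, 0 ≤ s j)
    (hs1 : ∀ j, s j ≤ 1)
    (h : ∀ j, ∀ r : ℕ, 1 ≤ r → r ≤ R + 1 → (s j) ^ (2 * r) * min ((X j) ^ r) D ≤ M) :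
    (∏ j, s j) * sav (∏ j, X j) D ≤ M * D ^ ((Fintype.card ι : ℝ) / (2 * R)) := by
  classical
  have hP1 : 1 ≤ ∏ j, X j := by
    have := Finset.prod_le_prod (s := (univ : Finset ι)) (f := fun _ => (1 : ℝ)) (g := X)
      (fun _ _ => by norm_num) (fun j _ => hX j)
    simpa using this
  have hP0 : 0 < ∏ j, X j := by linarith
  have hD0 : 0 < D := by linarith
  have hR0 : (0 : ℝ) < R := by exact_mod_cast (by omega : 0 < R)
  have hsav0 : 0 < sav (∏ j, X j) D := by
    unfold sav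
    exact lt_min hD0 (lt_min (by positivity) (by positivity))
  have hsavD : sav (∏ j, X j) D ≤ D := min_le_left _ _
  have hprod1 : ∏ j, s j ≤ 1 := Finset.prod_le_one (fun j _ => hs0 j) (fun j _ => hs1 j)
  have hprod0 : 0 ≤ ∏ j, s j := Finset.prod_nonneg fun j _ => hs0 j
  have hDe : 1 ≤ D ^ ((Fintype.card ι : ℝ) / (2 * R)) := Real.one_le_rpow hD (by positivity)
  by_cases hWM : sav (∏ j, X j) D ≤ M
  · calc (∏ j, s j) * sav (∏ j, X j) D ≤ 1 * M := mul_le_mul hprod1 hWM hsav0.le (by norm_num)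
      _ = M * 1 := by ring
      _ ≤ _ := mul_le_mul_of_nonneg_left hDe (by linarith)
  push Not at hWM
  have hDM : M < D := lt_of_lt_of_le hWM hsavD
  have hD1 : 1 < D := lt_of_le_of_lt hM hDM
  set ℓ : ℝ := Real.log D with hℓ
  have hℓ0 : 0 < ℓ := Real.log_pos hD1
  have hM0 : 0 < M := by linarith
  by_cases hz : ∃ j, s j = 0
  · obtain ⟨j, hj⟩ := hz
    rw [Finset.prod_eq_zero (Finset.mem_univ j) hj, zero_mul]
    positivity
  push Not at hz
  have hspos : ∀ j, 0 < s j := fun j => lt_of_le_of_ne (hs0 j) (Ne.symm (hz j))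
  set μ : ℝ := Real.log M / ℓ with hμ
  have hμ0 : 0 ≤ μ := div_nonneg (Real.log_nonneg hM) hℓ0.le
  have hμ1 : μ ≤ 1 := by
    rw [hμ, div_le_one hℓ0]
    exact Real.log_le_log hM0 hDM.le
  have hlogM : Real.log M = μ * ℓ := by rw [hμ]; field_simp
  set y : ι → ℝ := fun j => Real.log (X j) / ℓ with hy
  have hlogX : ∀ j, Real.log (X j) = y j * ℓ := fun j => by rw [hy]; field_simp
  set a : ι → ℝ := fun j => -Real.log (s j) / ℓ with ha
  have hlogs : ∀ j, Real.log (s j) = -(a j * ℓ) := fun j => by rw [ha]; field_simp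
  have hy0 : ∀ j, 0 ≤ y j := fun j => div_nonneg (Real.log_nonneg (hX j)) hℓ0.le
  have hy1 : ∀ j, y j ≤ 1 := fun j => by
    rw [hy]
    simp only
    rw [div_le_one hℓ0]
    exact Real.log_le_log (by linarith [hX j]) (hXD j)
  have ha0 : ∀ j, 0 ≤ a j := fun j => by
    rw [ha]
    simp only
    refine div_nonneg ?_ hℓ0.le
    have := Real.log_nonpos (hs0 j) (hs1 j)
    linarith
  have hclaim : ∀ j, 1 / 2 * (y j * ((1 - μ) / (1 + μ))) - 1 / (2 * R) ≤ a j := by
    intro j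
    refine TfB.one_var (y j) μ (a j) R hR (hy0 j) (hy1 j) hμ0 hμ1 (ha0 j) ?_ ?_
    · intro r hr hrR hry
      have hXr : (X j) ^ r ≤ D := by
        have e1 : Real.log ((X j) ^ r) ≤ Real.log D := by
          rw [Real.log_pow, hlogX]
          nlinarith
        exact (Real.log_le_log_iff (by have := hX j; positivity) hD0).1 e1
      have k := h j r hr hrR
      rw [min_eq_left hXr] at k
      have k2 := Real.log_le_log (by have := hX j; have := hspos j; positivity) k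
      rw [Real.log_mul (by have := hspos j; positivity) (by have := hX j; positivity),
        Real.log_pow, Real.log_pow, hlogX, hlogs, hlogM] at k2
      push_cast at k2
      have k3 : ((r : ℝ) * y j - μ) * ℓ ≤ (2 * r * a j) * ℓ := by nlinarith
      exact le_of_mul_le_mul_right k3 hℓ0
    · intro r hr hrR hry
      have hXr : D ≤ (X j) ^ r := by
        have e1 : Real.log D ≤ Real.log ((X j) ^ r) := by
          rw [Real.log_pow, hlogX]
          nlinarith
        exact (Real.log_le_log_iff hD0 (by have := hX j; positivity)).1 e1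
      have k := h j r hr hrR
      rw [min_eq_right hXr] at k
      have k2 := Real.log_le_log (by have := hspos j; positivity) k
      rw [Real.log_mul (by have := hspos j; positivity) (by positivity),
        Real.log_pow, hlogs, hlogM] at k2
      push_cast at k2
      have k3 : (1 - μ) * ℓ ≤ (2 * r * a j) * ℓ := by nlinarith
      exact le_of_mul_le_mul_right k3 hℓ0
  set A : ℝ := ∑ j, y j with hA
  have hA0 : 0 ≤ A := Finset.sum_nonneg fun j _ => hy0 j
  have hsum : A / 2 * ((1 - μ) / (1 + μ)) - (Fintype.card ι : ℝ) / (2 * R) ≤ ∑ j, a j := by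
    have e1 := Finset.sum_le_sum (s := (univ : Finset ι)) fun j _ => hclaim j
    rw [Finset.sum_sub_distrib, ← Finset.mul_sum, ← Finset.sum_mul, Finset.sum_const,
      Finset.card_univ, nsmul_eq_mul] at e1
    calc A / 2 * ((1 - μ) / (1 + μ)) - (Fintype.card ι : ℝ) / (2 * R)
        = 1 / 2 * (A * ((1 - μ) / (1 + μ))) - (Fintype.card ι : ℝ) * (1 / (2 * R)) := by ring
      _ ≤ _ := e1
  have hlogP : Real.log (∏ j, X j) = A * ℓ := by
    rw [Real.log_prod fun j _ => by have := hX j; positivity]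
    rw [hA, Finset.sum_mul]
    exact Finset.sum_congr rfl fun j _ => hlogX j
  have hlogS : Real.log (∏ j, s j) = -(∑ j, a j) * ℓ := by
    rw [Real.log_prod fun j _ => (hspos j).ne']
    rw [neg_mul, Finset.sum_mul, ← Finset.sum_neg_distrib]
    exact Finset.sum_congr rfl fun j _ => hlogs j
  have hlogW : Real.log (sav (∏ j, X j) D) ≤ min 1 (min (A / 6 + 1 / 3) (A / 2)) * ℓ := by
    have w1 : Real.log (sav (∏ j, X j) D) ≤ 1 * ℓ := by
      rw [one_mul]
      exact Real.log_le_log hsav0 (min_le_left _ _)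
    have w2 : Real.log (sav (∏ j, X j) D) ≤ (A / 6 + 1 / 3) * ℓ := by
      have e1 : sav (∏ j, X j) D ≤ (∏ j, X j) ^ (1 / 6 : ℝ) * D ^ (1 / 3 : ℝ) :=
        (min_le_right _ _).trans (min_le_left _ _)
      have e2 := Real.log_le_log hsav0 e1
      rw [Real.log_mul (by positivity) (by positivity), Real.log_rpow hP0, Real.log_rpow hD0,
        hlogP] at e2
      linarith
    have w3 : Real.log (sav (∏ j, X j) D) ≤ (A / 2) * ℓ := by
      have e1 : sav (∏ j, X j) D ≤ (∏ j, X j) ^ (1 / 2 : ℝ) :=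
        (min_le_right _ _).trans (min_le_right _ _)
      have e2 := Real.log_le_log hsav0 e1
      rw [Real.log_rpow hP0, hlogP] at e2
      linarith
    rcases min_choice 1 (min (A / 6 + 1 / 3) (A / 2)) with hm | hm
    · rw [hm]; exact w1
    · rw [hm]
      rcases min_choice (A / 6 + 1 / 3) (A / 2) with hm' | hm'
      · rw [hm']; exact w2
      · rw [hm']; exact w3
  have hv := TfB.three_vertices A μ hA0 hμ0 hμ1
  have hprodpos : 0 < ∏ j, s j := Finset.prod_pos fun j _ => hspos j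
  have hfin : Real.log ((∏ j, s j) * sav (∏ j, X j) D) ≤
      Real.log (M * D ^ ((Fintype.card ι : ℝ) / (2 * R))) := by
    rw [Real.log_mul hprodpos.ne' hsav0.ne', Real.log_mul hM0.ne' (by positivity),
      Real.log_rpow hD0, hlogS, hlogM]
    have e1 : (min 1 (min (A / 6 + 1 / 3) (A / 2))) * ℓ ≤
        (A / 2 * ((1 - μ) / (1 + μ)) + μ) * ℓ := mul_le_mul_of_nonneg_right hv hℓ0.le
    have e2 : (A / 2 * ((1 - μ) / (1 + μ)) - (Fintype.card ι : ℝ) / (2 * R)) * ℓ ≤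
        (∑ j, a j) * ℓ := mul_le_mul_of_nonneg_right hsum hℓ0.le
    linarith
  exact (Real.log_le_log_iff (by positivity) (by positivity)).1 hfin

end Pool.Agent.Lib.MP_d8bd92_nt
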