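import Pool.Agent.Lib.MP_d8bd92_nt.LgDefs
import Pool.Agent.Lib.MP_d8bd92_nt.TfB

set_option autoImplicit false

/-!
Row B: the pointwise inequality with a general saving.
-/

namespace Pool.Agent.Lib.MP_d8bd92_nt

open Finset Pool.Agent.Lib.Szpiro

theorem lg_pointwise {ι : Type} [Fintype ι] (R : ℕ) (hR : 1 ≤ R) (D M W : ℝ) (hD : 1 ≤ D)
    (hM : 1 ≤ M) (X s : ι → ℝ) (hX : ∀ j, 1 ≤ X j) (hXD : ∀ j, X j ≤ D) (hs0 : ∀ j, 0 ≤ s j)
    (hs1 : ∀ j, s j ≤ 1) (hW : SavOK W (∏ j, X j) D)
    (h : ∀ j, ∀ r : ℕ, 1 ≤ r → r ≤ R + 1 → (s j) ^ (2 * r) * min ((X j) ^ r) D ≤ M) :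
    (∏ j, s j) * W ≤ M * D ^ ((Fintype.card ι : ℝ) / (2 * R)) := by
  classical
  have hP1 : 1 ≤ ∏ j, X j := by
    have := Finset.prod_le_prod (s := (univ : Finset ι)) (f := fun _ => (1 : ℝ)) (g := X)
      (fun _ _ => by norm_num) (fun j _ => hX j)
    simpa using this
  have hP0 : 0 < ∏ j, X j := by linarith
  have hD0 : 0 < D := by linarith
  have hR0 : (0 : ℝ) < R := by exact_mod_cast (by omega : 0 < R)
  have hsav0 : 0 < W := hW.1
  have hsavD : W ≤ D := by
    have h1 := hW.2 1 zero_le_one le_rfl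
    simpa using h1
  have hprod1 : ∏ j, s j ≤ 1 := Finset.prod_le_one (fun j _ => hs0 j) (fun j _ => hs1 j)
  have hprod0 : 0 ≤ ∏ j, s j := Finset.prod_nonneg fun j _ => hs0 j
  have hDe : 1 ≤ D ^ ((Fintype.card ι : ℝ) / (2 * R)) := Real.one_le_rpow hD (by positivity)
  by_cases hWM : W ≤ M
  · calc (∏ j, s j) * W ≤ 1 * M := mul_le_mul hprod1 hWM hsav0.le (by norm_num)
      _ = M * 1 := by ring
      _ ≤ _ := mul_le_mul_of_nonneg_left hDe (by linarith)
  push Not at hWM
  have hDM : M < D := lt_of_lt_of_le hWM hsavD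
  have hD1 : 1 < D := lt_of_le_of_lt hM hDM
  set ℓ : ℝ := Real.log D with hℓ
  have hℓ0 : 0 < ℓ := Real.log_pos hD1
  have hM0 : 0 < M := by linarith
  by_cases hz : ∃ j, s j = 0
  · obtain ⟨j, hj⟩ := hz
    rw [Finset.prod_eq_zero (Finset.mem_univ j) hj, zero_mul]
    positivity
  push Not at hz
  have hspos : ∀ j, 0 < s j := fun j => lt_of_le_of_ne (hs0 j) (Ne.symm (hz j))
  set μ : ℝ := Real.log M / ℓ with hμ
  have hμ0 : 0 ≤ μ := div_nonneg (Real.log_nonneg hM) hℓ0.le
  have hμ1 : μ ≤ 1 := by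
    rw [hμ, div_le_one hℓ0]
    exact Real.log_le_log hM0 hDM.le
  have hlogM : Real.log M = μ * ℓ := by rw [hμ]; field_simp
  set y : ι → ℝ := fun j => Real.log (X j) / ℓ with hy
  have hlogX : ∀ j, Real.log (X j) = y j * ℓ := fun j => by rw [hy]; field_simp
  set a : ι → ℝ := fun j => -Real.log (s j) / ℓ with ha
  have hlogs : ∀ j, Real.log (s j) = -(a j * ℓ) := fun j => by rw [ha]; field_simp
  have hy0 : ∀ j, 0 ≤ y j := fun j => div_nonneg (Real.log_nonneg (hX j)) hℓ0.le
  have hy1 : ∀ j, y j ≤ 1 := fun j => by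
    rw [hy]
    simp only
    rw [div_le_one hℓ0]
    exact Real.log_le_log (by linarith [hX j]) (hXD j)
  have ha0 : ∀ j, 0 ≤ a j := fun j => by
    rw [ha]
    simp only
    refine div_nonneg ?_ hℓ0.le
    have := Real.log_nonpos (hs0 j) (hs1 j)
    linarith
  have hclaim : ∀ j, 1 / 2 * (y j * ((1 - μ) / (1 + μ))) - 1 / (2 * R) ≤ a j := by
    intro j
    refine TfB.one_var (y j) μ (a j) R hR (hy0 j) (hy1 j) hμ0 hμ1 (ha0 j) ?_ ?_
    · intro r hr hrR hry
      have hXr : (X j) ^ r ≤ D := by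
        have e1 : Real.log ((X j) ^ r) ≤ Real.log D := by
          rw [Real.log_pow, hlogX]
          nlinarith
        exact (Real.log_le_log_iff (by have := hX j; positivity) hD0).1 e1
      have k := h j r hr hrR
      rw [min_eq_left hXr] at k
      have k2 := Real.log_le_log (by have := hX j; have := hspos j; positivity) k
      rw [Real.log_mul (by have := hspos j; positivity) (by have := hX j; positivity),
        Real.log_pow, Real.log_pow, hlogX, hlogs, hlogM] at k2
      push_cast at k2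
      have k3 : ((r : ℝ) * y j - μ) * ℓ ≤ (2 * r * a j) * ℓ := by nlinarith
      exact le_of_mul_le_mul_right k3 hℓ0
    · intro r hr hrR hry
      have hXr : D ≤ (X j) ^ r := by
        have e1 : Real.log D ≤ Real.log ((X j) ^ r) := by
          rw [Real.log_pow, hlogX]
          nlinarith
        exact (Real.log_le_log_iff hD0 (by have := hX j; positivity)).1 e1
      have k := h j r hr hrR
      rw [min_eq_right hXr] at k
      have k2 := Real.log_le_log (by have := hspos j; positivity) k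
      rw [Real.log_mul (by have := hspos j; positivity) (by positivity),
        Real.log_pow, hlogs, hlogM] at k2
      push_cast at k2
      have k3 : (1 - μ) * ℓ ≤ (2 * r * a j) * ℓ := by nlinarith
      exact le_of_mul_le_mul_right k3 hℓ0
  set A : ℝ := ∑ j, y j with hA
  have hA0 : 0 ≤ A := Finset.sum_nonneg fun j _ => hy0 j
  have hsum : A / 2 * ((1 - μ) / (1 + μ)) - (Fintype.card ι : ℝ) / (2 * R) ≤ ∑ j, a j := by
    have e1 := Finset.sum_le_sum (s := (univ : Finset ι)) fun j _ => hclaim j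
    rw [Finset.sum_sub_distrib, ← Finset.mul_sum, ← Finset.sum_mul, Finset.sum_const,
      Finset.card_univ, nsmul_eq_mul] at e1
    calc A / 2 * ((1 - μ) / (1 + μ)) - (Fintype.card ι : ℝ) / (2 * R)
        = 1 / 2 * (A * ((1 - μ) / (1 + μ))) - (Fintype.card ι : ℝ) * (1 / (2 * R)) := by ring
      _ ≤ _ := e1
  have hlogP : Real.log (∏ j, X j) = A * ℓ := by
    rw [Real.log_prod fun j _ => by have := hX j; positivity]
    rw [hA, Finset.sum_mul]
    exact Finset.sum_congr rfl fun j _ => hlogX j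
  have hlogS : Real.log (∏ j, s j) = -(∑ j, a j) * ℓ := by
    rw [Real.log_prod fun j _ => (hspos j).ne']
    rw [neg_mul, Finset.sum_mul, ← Finset.sum_neg_distrib]
    exact Finset.sum_congr rfl fun j _ => hlogs j
  have hlogW : Real.log W ≤ (A / 2 * ((1 - μ) / (1 + μ)) + μ) * ℓ := by
    have e1 := Real.log_le_log hsav0 (hW.2 μ hμ0 hμ1)
    rw [Real.log_mul (by positivity) (by positivity), Real.log_rpow hP0, Real.log_rpow hD0,
      hlogP] at e1
    have e2 : (1 - μ) / (2 * (1 + μ)) * (A * ℓ) + μ * ℓ =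
        (A / 2 * ((1 - μ) / (1 + μ)) + μ) * ℓ := by
      have : (1 - μ) / (2 * (1 + μ)) = 1 / 2 * ((1 - μ) / (1 + μ)) := by
        rw [div_mul_div_comm, one_mul]
      rw [this]
      ring
    rw [← e2]
    exact e1
  have hprodpos : 0 < ∏ j, s j := Finset.prod_pos fun j _ => hspos j
  have hfin : Real.log ((∏ j, s j) * W) ≤
      Real.log (M * D ^ ((Fintype.card ι : ℝ) / (2 * R))) := by
    rw [Real.log_mul hprodpos.ne' hsav0.ne', Real.log_mul hM0.ne' (by positivity),
      Real.log_rpow hD0, hlogS, hlogM]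
    have e2 : (A / 2 * ((1 - μ) / (1 + μ)) - (Fintype.card ι : ℝ) / (2 * R)) * ℓ ≤
        (∑ j, a j) * ℓ := mul_le_mul_of_nonneg_right hsum hℓ0.le
    linarith
  exact (Real.log_le_log_iff (by positivity) (by positivity)).1 hfin

end Pool.Agent.Lib.MP_d8bd92_nt
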