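import Pool.Agent.Lib.MP_d8bd92_nt.TfDefs

set_option autoImplicit false

namespace Pool.Agent.Lib.MP_d8bd92_nt

open Finset Pool.Agent.Lib.Szpiro


theorem tf_char {G : Type} [CommGroup G] [Fintype G] [DecidableEq G] :
    ∃ (T : Type) (_ : Fintype T) (χ : T → G →* ℂ), 0 < Fintype.card T ∧
      (∀ t g, ‖χ t g‖ = 1) ∧
      ∀ g : G, ∑ t, χ t g = if g = 1 then ((Fintype.card T : ℕ) : ℂ) else 0 := by
  classical
  refine ⟨AddChar (Additive G) ℂ, inferInstance, fun t =>
    { toFun := fun g => t (Additive.ofMul g)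
      map_one' := by
        rw [ofMul_one, AddChar.map_zero_eq_one]
      map_mul' := fun a b => by
        rw [ofMul_mul, AddChar.map_add_eq_mul] }, Fintype.card_pos, ?_, ?_⟩
  · intro t g
    exact AddChar.norm_apply t (Additive.ofMul g)
  · intro g
    have h := AddChar.sum_apply_eq_ite (α := Additive G) (Additive.ofMul g)
    have hc : Fintype.card (AddChar (Additive G) ℂ) = Fintype.card (Additive G) := AddChar.card_eq
    show ∑ t : AddChar (Additive G) ℂ, t (Additive.ofMul g) = _
    rw [h, hc]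
    by_cases hg : g = 1
    · rw [if_pos hg, if_pos (by rw [hg]; rfl)]
    · have h1 : Additive.ofMul g ≠ 0 := fun h0 => hg (ofMul_eq_zero.1 h0)
      rw [if_neg hg, if_neg h1]

end Pool.Agent.Lib.MP_d8bd92_nt
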