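import Pool.Agent.Lib.MP_d8bd92_nt.TfDefs
import Pool.Agent.Lib.MP_d8bd92_nt.TfB
import Pool.Agent.Lib.MP_d8bd92_nt.TfC

set_option autoImplicit false

/-!
Row D: the general count in a group.
-/

namespace Pool.Agent.Lib.MP_d8bd92_nt

open Finset Pool.Agent.Lib.Szpiro


namespace TfD

/-- orthogonality for pairs -/
theorem orth {G T : Type} [CommGroup G] [DecidableEq G] [Fintype T] (χ : T → G →* ℂ)
    (hn : ∀ t g, ‖χ t g‖ = 1)
    (ho : ∀ g : G, ∑ t, χ t g = if g = 1 then ((Fintype.card T : ℕ) : ℂ) else 0) (g h : G) :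
    ∑ t, χ t g * (starRingEnd ℂ) (χ t h) = if g = h then ((Fintype.card T : ℕ) : ℂ) else 0 := by
  have e : ∀ t, χ t g * (starRingEnd ℂ) (χ t h) = χ t (g * h⁻¹) := by
    intro t
    have h1 : (starRingEnd ℂ) (χ t h) = χ t h⁻¹ := by
      have h2 : χ t h * χ t h⁻¹ = 1 := by rw [← map_mul, mul_inv_cancel, map_one]
      have h3 : χ t h * (starRingEnd ℂ) (χ t h) = 1 := by
        rw [Complex.mul_conj, Complex.normSq_eq_norm_sq, hn]
        norm_num
      have h4 : χ t h ≠ 0 := by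
        intro h5
        have := hn t h
        rw [h5, norm_zero] at this
        exact zero_ne_one this
      exact mul_left_cancel₀ h4 (h3.trans h2.symm)
    rw [h1, map_mul]
  rw [Finset.sum_congr rfl fun t _ => e t, ho]
  by_cases hg : g = h
  · rw [if_pos hg, if_pos]
    rw [hg, mul_inv_cancel]
  · rw [if_neg hg, if_neg]
    intro h1
    exact hg (mul_inv_eq_one.1 h1)

end TfD

theorem tf_group {ι : Type} [Fintype ι] [DecidableEq ι] {G : Type} [CommGroup G] [Fintype G]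
    [DecidableEq G] (R : ℕ) (hR : 1 ≤ R) (D E : ℝ) (hD : 1 ≤ D) (hE : 1 ≤ E)
    (A : ι → Finset ℕ) (X : ι → ℝ) (hX : ∀ j, 1 ≤ X j) (hXD : ∀ j, X j ≤ D)
    (hA : ∀ j, ((A j).card : ℝ) ≤ X j) (f : ι → ℕ → G)
    (hm : ∀ j, ∀ r : ℕ, 1 ≤ r → r ≤ R + 1 →
      ((((Fintype.piFinset (fun _ : Fin r => A j)) ×ˢ
        (Fintype.piFinset (fun _ : Fin r => A j))).filter
        (fun y : (Fin r → ℕ) × (Fin r → ℕ) => ∏ i, f j (y.1 i) = ∏ i, f j (y.2 i))).card : ℝ) *
        min ((X j) ^ r) D ≤ E * (X j) ^ (2 * r)) (g : G) :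
    (((Fintype.piFinset A).filter (fun x : ι → ℕ => ∏ j, f j (x j) = g)).card : ℝ) *
      sav (∏ j, X j) D ≤
      (1 + (Fintype.card ι : ℝ) * (R + 1)) * E * D ^ ((Fintype.card ι : ℝ) / (2 * R)) *
        ∏ j, X j := by
  classical
  obtain ⟨T, hT, χ, hT0, hn, ho⟩ := tf_char (G := G)
  have hT0' : (0 : ℝ) < Fintype.card T := by exact_mod_cast hT0
  set S : ι → T → ℂ := fun j t => ∑ x ∈ A j, χ t (f j x) with hS
  set s : ι → T → ℝ := fun j t => ‖S j t‖ / X j with hs
  have hX0 : ∀ j, 0 < X j := fun j => by linarith [hX j]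
  have hSle : ∀ j t, ‖S j t‖ ≤ X j := by
    intro j t
    calc ‖S j t‖ ≤ ∑ x ∈ A j, ‖χ t (f j x)‖ := norm_sum_le _ _
      _ = ((A j).card : ℝ) := by
        rw [Finset.sum_congr rfl fun x _ => hn t (f j x)]
        simp
      _ ≤ X j := hA j
  have hs0 : ∀ j t, 0 ≤ s j t := fun j t => div_nonneg (norm_nonneg _) (hX0 j).le
  have hs1 : ∀ j t, s j t ≤ 1 := fun j t => by
    rw [hs]
    simp only
    rw [div_le_one (hX0 j)]
    exact hSle j t
  -- (1) the count
  have hcount : (Fintype.card T : ℝ) *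
      (((Fintype.piFinset A).filter (fun x : ι → ℕ => ∏ j, f j (x j) = g)).card : ℝ) ≤
      ∑ t, ∏ j, ‖S j t‖ := by
    have e1 : ∑ t, (starRingEnd ℂ) (χ t g) * ∏ j, S j t =
        ((Fintype.card T : ℕ) : ℂ) *
        (((Fintype.piFinset A).filter (fun x : ι → ℕ => ∏ j, f j (x j) = g)).card : ℂ) := by
      have e2 : ∀ t, (starRingEnd ℂ) (χ t g) * ∏ j, S j t =
          ∑ x ∈ Fintype.piFinset A, χ t (∏ j, f j (x j)) * (starRingEnd ℂ) (χ t g) := by
        intro t
        rw [hS]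
        simp only
        rw [Finset.prod_univ_sum, Finset.mul_sum]
        refine Finset.sum_congr rfl fun x _ => ?_
        rw [map_prod, mul_comm]
      rw [Finset.sum_congr rfl fun t _ => e2 t, Finset.sum_comm,
        Finset.sum_congr rfl fun x _ => TfD.orth χ hn ho _ _, Finset.sum_ite, Finset.sum_const,
        Finset.sum_const_zero, add_zero, nsmul_eq_mul, mul_comm]
    have e3 : (Fintype.card T : ℝ) *
      (((Fintype.piFinset A).filter (fun x : ι → ℕ => ∏ j, f j (x j) = g)).card : ℝ) =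
        ‖∑ t, (starRingEnd ℂ) (χ t g) * ∏ j, S j t‖ := by
      rw [e1, norm_mul, Complex.norm_natCast, Complex.norm_natCast]
    rw [e3]
    refine (norm_sum_le _ _).trans (Finset.sum_le_sum fun t _ => ?_)
    rw [norm_mul, norm_prod]
    have : ‖(starRingEnd ℂ) (χ t g)‖ = 1 := by rw [RCLike.norm_conj, hn]
    rw [this, one_mul]
  -- (2) the moments
  have hmom : ∀ j, ∀ r : ℕ, 1 ≤ r → r ≤ R + 1 →
      ∑ t, (s j t) ^ (2 * r) * min ((X j) ^ r) D ≤ (Fintype.card T : ℝ) * E := by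
    intro j r hr hrR
    have e1 : ∑ t, ‖S j t‖ ^ (2 * r) = (Fintype.card T : ℝ) *
        ((((Fintype.piFinset (fun _ : Fin r => A j)) ×ˢ
        (Fintype.piFinset (fun _ : Fin r => A j))).filter
        (fun y : (Fin r → ℕ) × (Fin r → ℕ) => ∏ i, f j (y.1 i) = ∏ i, f j (y.2 i))).card : ℝ) := by
      have e2 : ∀ t, ((‖S j t‖ ^ (2 * r) : ℝ) : ℂ) =
          ∑ y ∈ (Fintype.piFinset (fun _ : Fin r => A j)) ×ˢ
            (Fintype.piFinset (fun _ : Fin r => A j)),
            χ t (∏ i, f j (y.1 i)) * (starRingEnd ℂ) (χ t (∏ i, f j (y.2 i))) := by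
        intro t
        have e3 : ((‖S j t‖ ^ (2 * r) : ℝ) : ℂ) = (S j t) ^ r * ((starRingEnd ℂ) (S j t)) ^ r := by
          rw [← mul_pow, Complex.mul_conj, Complex.normSq_eq_norm_sq, pow_mul]
          push_cast
          rfl
        have e4 : (S j t) ^ r = ∑ x ∈ Fintype.piFinset (fun _ : Fin r => A j),
            χ t (∏ i, f j (x i)) := by
          have : (S j t) ^ r = ∏ _i : Fin r, S j t := by
            rw [Finset.prod_const, Finset.card_univ, Fintype.card_fin]
          rw [this, hS]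
          simp only
          rw [Finset.prod_univ_sum]
          refine Finset.sum_congr rfl fun x _ => ?_
          rw [map_prod]
        rw [e3, e4, ← map_pow, e4, map_sum, Finset.sum_mul_sum, ← Finset.sum_product']
      have e5 : ((∑ t, ‖S j t‖ ^ (2 * r) : ℝ) : ℂ) = (((Fintype.card T : ℝ) *
        ((((Fintype.piFinset (fun _ : Fin r => A j)) ×ˢ
        (Fintype.piFinset (fun _ : Fin r => A j))).filter
        (fun y : (Fin r → ℕ) × (Fin r → ℕ) =>
          ∏ i, f j (y.1 i) = ∏ i, f j (y.2 i))).card : ℝ) : ℝ) : ℂ) := by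
        rw [Complex.ofReal_sum, Finset.sum_congr rfl fun t _ => e2 t, Finset.sum_comm,
          Finset.sum_congr rfl fun x _ => TfD.orth χ hn ho _ _, Finset.sum_ite, Finset.sum_const,
          Finset.sum_const_zero, add_zero, nsmul_eq_mul, mul_comm]
        push_cast
        rfl
      exact_mod_cast e5
    have e6 : ∑ t, (s j t) ^ (2 * r) * min ((X j) ^ r) D =
        (∑ t, ‖S j t‖ ^ (2 * r)) * (min ((X j) ^ r) D / (X j) ^ (2 * r)) := by
      rw [Finset.sum_mul]
      refine Finset.sum_congr rfl fun t _ => ?_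
      rw [hs]
      simp only
      rw [div_pow]
      field_simp
    rw [e6, e1]
    have e7 := hm j r hr hrR
    have hXp : 0 < (X j) ^ (2 * r) := pow_pos (hX0 j) _
    rw [mul_assoc]
    refine mul_le_mul_of_nonneg_left ?_ hT0'.le
    rw [← mul_div_assoc, div_le_iff₀ hXp]
    exact e7
  -- (3) pointwise
  set M : T → ℝ := fun t => 1 + ∑ j, ∑ r ∈ Icc 1 (R + 1), (s j t) ^ (2 * r) * min ((X j) ^ r) D
    with hM
  have hmin0 : ∀ j r, 0 ≤ min ((X j) ^ r) D := fun j r => le_min (pow_nonneg (hX0 j).le _)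
    (by linarith)
  have hterm0 : ∀ t j r, 0 ≤ (s j t) ^ (2 * r) * min ((X j) ^ r) D := fun t j r =>
    mul_nonneg (pow_nonneg (hs0 j t) _) (hmin0 j r)
  have hM1 : ∀ t, 1 ≤ M t := fun t => by
    have : 0 ≤ ∑ j, ∑ r ∈ Icc 1 (R + 1), (s j t) ^ (2 * r) * min ((X j) ^ r) D :=
      Finset.sum_nonneg fun j _ => Finset.sum_nonneg fun r _ => hterm0 t j r
    simp only [hM]
    linarith
  have hpt : ∀ t, (∏ j, s j t) * sav (∏ j, X j) D ≤
      M t * D ^ ((Fintype.card ι : ℝ) / (2 * R)) := by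
    intro t
    refine tf_pointwise R hR D (M t) hD (hM1 t) X (fun j => s j t) hX hXD (fun j => hs0 j t)
      (fun j => hs1 j t) ?_
    intro j r hr hrR
    have e1 : (s j t) ^ (2 * r) * min ((X j) ^ r) D ≤
        ∑ r ∈ Icc 1 (R + 1), (s j t) ^ (2 * r) * min ((X j) ^ r) D :=
      Finset.single_le_sum (f := fun r => (s j t) ^ (2 * r) * min ((X j) ^ r) D)
        (fun r _ => hterm0 t j r) (Finset.mem_Icc.2 ⟨hr, hrR⟩)
    have e2 : ∑ r ∈ Icc 1 (R + 1), (s j t) ^ (2 * r) * min ((X j) ^ r) D ≤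
        ∑ j, ∑ r ∈ Icc 1 (R + 1), (s j t) ^ (2 * r) * min ((X j) ^ r) D :=
      Finset.single_le_sum (f := fun j => ∑ r ∈ Icc 1 (R + 1), (s j t) ^ (2 * r) *
        min ((X j) ^ r) D) (fun j _ => Finset.sum_nonneg fun r _ => hterm0 t j r)
        (Finset.mem_univ j)
    simp only [hM]
    linarith
  have hMsum : ∑ t, M t ≤ (Fintype.card T : ℝ) * ((1 + (Fintype.card ι : ℝ) * (R + 1)) * E) := by
    have e1 : ∑ t, M t = (Fintype.card T : ℝ) +
        ∑ j, ∑ r ∈ Icc 1 (R + 1), ∑ t, (s j t) ^ (2 * r) * min ((X j) ^ r) D := by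
      simp only [hM]
      rw [Finset.sum_add_distrib, Finset.sum_const, Finset.card_univ, nsmul_eq_mul, mul_one]
      congr 1
      rw [Finset.sum_comm]
      refine Finset.sum_congr rfl fun j _ => ?_
      rw [Finset.sum_comm]
    have e2 : ∑ j, ∑ r ∈ Icc 1 (R + 1), ∑ t, (s j t) ^ (2 * r) * min ((X j) ^ r) D ≤
        ∑ _j : ι, ∑ _r ∈ Icc 1 (R + 1), (Fintype.card T : ℝ) * E := by
      refine Finset.sum_le_sum fun j _ => Finset.sum_le_sum fun r hr => ?_
      rw [Finset.mem_Icc] at hr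
      exact hmom j r hr.1 hr.2
    rw [Finset.sum_const, Finset.sum_const, Finset.card_univ, Nat.card_Icc, nsmul_eq_mul,
      nsmul_eq_mul] at e2
    rw [e1]
    push_cast at e2
    nlinarith [mul_nonneg hT0'.le (by linarith : 0 ≤ E - 1)]
  -- conclusion
  have hPpos : 0 < ∏ j, X j := Finset.prod_pos fun j _ => hX0 j
  have hsav0 : 0 ≤ sav (∏ j, X j) D := by
    unfold sav
    exact le_min (by linarith) (le_min (by positivity) (by positivity))
  have hprodS : ∀ t, ∏ j, ‖S j t‖ = (∏ j, X j) * ∏ j, s j t := by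
    intro t
    rw [← Finset.prod_mul_distrib]
    refine Finset.prod_congr rfl fun j _ => ?_
    rw [hs]
    simp only
    rw [mul_div_cancel₀ _ (hX0 j).ne']
  have hfin : (Fintype.card T : ℝ) *
      ((((Fintype.piFinset A).filter (fun x : ι → ℕ => ∏ j, f j (x j) = g)).card : ℝ) *
      sav (∏ j, X j) D) ≤ (Fintype.card T : ℝ) *
      ((1 + (Fintype.card ι : ℝ) * (R + 1)) * E * D ^ ((Fintype.card ι : ℝ) / (2 * R)) *
        ∏ j, X j) := by
    calc (Fintype.card T : ℝ) *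
      ((((Fintype.piFinset A).filter (fun x : ι → ℕ => ∏ j, f j (x j) = g)).card : ℝ) *
      sav (∏ j, X j) D)
        = ((Fintype.card T : ℝ) *
      (((Fintype.piFinset A).filter (fun x : ι → ℕ => ∏ j, f j (x j) = g)).card : ℝ)) *
      sav (∏ j, X j) D := by ring
      _ ≤ (∑ t, ∏ j, ‖S j t‖) * sav (∏ j, X j) D := mul_le_mul_of_nonneg_right hcount hsav0
      _ = (∏ j, X j) * ∑ t, (∏ j, s j t) * sav (∏ j, X j) D := by
          rw [Finset.sum_congr rfl fun t _ => hprodS t, ← Finset.mul_sum, mul_assoc,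
            Finset.sum_mul]
      _ ≤ (∏ j, X j) * ∑ t, M t * D ^ ((Fintype.card ι : ℝ) / (2 * R)) :=
          mul_le_mul_of_nonneg_left (Finset.sum_le_sum fun t _ => hpt t) hPpos.le
      _ = (∏ j, X j) * (D ^ ((Fintype.card ι : ℝ) / (2 * R)) * ∑ t, M t) := by
          rw [← Finset.sum_mul, mul_comm (∑ t, M t)]
      _ ≤ (∏ j, X j) * (D ^ ((Fintype.card ι : ℝ) / (2 * R)) *
          ((Fintype.card T : ℝ) * ((1 + (Fintype.card ι : ℝ) * (R + 1)) * E))) := by
          refine mul_le_mul_of_nonneg_left ?_ hPpos.le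
          exact mul_le_mul_of_nonneg_left hMsum (by positivity)
      _ = _ := by ring
  exact le_of_mul_le_mul_left hfin hT0'

end Pool.Agent.Lib.MP_d8bd92_nt
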