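import Pool.Agent.Lib.MP_d8bd92_nt.TfDefs
import Pool.Agent.Lib.MP_d8bd92_nt.CdE1

set_option autoImplicit false

/-!
Row A: moments of the character sums over an interval.
-/

namespace Pool.Agent.Lib.MP_d8bd92_nt

open Finset Pool.Agent.Lib.Szpiro

namespace TfA

theorem mem_box {X D x : ℕ} (h : x ∈ box X D) : X ≤ x ∧ x < 2 * X ∧ Nat.Coprime x D := by
  unfold box at h
  rw [Finset.mem_filter, Finset.mem_Ico] at h
  exact ⟨h.1.1, h.1.2, h.2⟩

theorem card_box (X D : ℕ) : (box X D).card ≤ X := by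
  unfold box
  refine (Finset.card_filter_le _ _).trans ?_
  rw [Nat.card_Ico]
  omega

/-- the fibre of the product -/
theorem card_fibre (r : ℕ) (B : Finset ℕ) (P : ℕ) (hP : P ≠ 0) :
    ((Fintype.piFinset (fun _ : Fin r => B)).filter (fun x => ∏ i, x i = P)).card ≤
      P.divisors.card ^ r := by
  have h1 : (Fintype.piFinset (fun _ : Fin r => B)).filter (fun x => ∏ i, x i = P) ⊆
      Fintype.piFinset (fun _ : Fin r => P.divisors) := by
    intro x hx
    rw [Finset.mem_filter] at hx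
    rw [Fintype.mem_piFinset]
    intro i
    rw [Nat.mem_divisors]
    refine ⟨?_, hP⟩
    rw [← hx.2]
    exact Finset.dvd_prod_of_mem x (Finset.mem_univ i)
  refine (Finset.card_le_card h1).trans ?_
  rw [Fintype.card_piFinset]
  simp

theorem prod_lower (r X D : ℕ) (x : Fin r → ℕ) (hx : ∀ i, x i ∈ box X D) : X ^ r ≤ ∏ i, x i := by
  calc X ^ r = ∏ _i : Fin r, X := by simp
    _ ≤ ∏ i, x i := Finset.prod_le_prod' (fun i _ => (mem_box (hx i)).1)

theorem prod_upper (r X D : ℕ) (hr : 1 ≤ r) (x : Fin r → ℕ) (hx : ∀ i, x i ∈ box X D) :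
    ∏ i, x i < (2 * X) ^ r := by
  calc ∏ i, x i < ∏ _i : Fin r, (2 * X) := by
        have : Nonempty (Fin r) := ⟨⟨0, hr⟩⟩
        by_cases h0 : ∃ i, x i = 0
        · obtain ⟨i, hi⟩ := h0
          rw [Finset.prod_eq_zero (Finset.mem_univ i) hi]
          have := (mem_box (hx i)).2.1
          rw [Finset.prod_const]
          exact pow_pos (by omega) _
        · push Not at h0
          exact Finset.prod_lt_prod_of_nonempty (fun i _ => Nat.pos_of_ne_zero (h0 i))
            (fun i _ => (mem_box (hx i)).2.1) Finset.univ_nonempty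
    _ = (2 * X) ^ r := by simp

/-- the products in the dyadic intervals -/
theorem card_image (e r : ℕ) (he : 1 ≤ e) (C₁ σ : ℝ)
    (h₁ : ∀ (D X e' w : ℕ) (c : ℤ) (T : Finset ℕ), 1 ≤ D → 1 ≤ e' → e' < e + 1 → Nat.Coprime w D →
      (∀ x ∈ T, X ≤ x ∧ x < 2 * X ∧ Nat.Coprime x D ∧ (D : ℤ) ∣ (w : ℤ) * (x : ℤ) ^ e' - c) →
      (T.card : ℝ) ≤ C₁ * (D : ℝ) ^ σ * (1 + (X : ℝ) / D)) (hC : 1 ≤ C₁)
    (X D : ℕ) (hX : 1 ≤ X) (hD : 1 ≤ D) (c : ℕ) (T : Finset ℕ)
    (hT : ∀ P ∈ T, X ^ r ≤ P ∧ P < (2 * X) ^ r ∧ Nat.Coprime P D ∧ P ^ e ≡ c [MOD D]) :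
    (T.card : ℝ) ≤ r * (C₁ * (D : ℝ) ^ σ * (2 ^ r * (1 + (X : ℝ) ^ r / D))) := by
  classical
  have hsub : T ⊆ (Finset.range r).biUnion
      (fun t => T.filter (fun P => 2 ^ t * X ^ r ≤ P ∧ P < 2 * (2 ^ t * X ^ r))) := by
    intro P hP
    obtain ⟨a1, a2, a3, a4⟩ := hT P hP
    have hXr : 0 < X ^ r := pow_pos (by omega) r
    -- the least t with P < 2^(t+1) X^r
    have hex : ∃ t, P < 2 * (2 ^ t * X ^ r) := by
      refine ⟨r, ?_⟩
      rw [mul_pow] at a2
      omega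
    rw [Finset.mem_biUnion]
    have h1 := Nat.find_spec hex
    have h2 : Nat.find hex < r := by
      rcases Nat.eq_zero_or_pos r with hr0 | hr0
      · exfalso
        subst hr0
        simp at a1 a2
        omega
      · have : P < 2 * (2 ^ (r - 1) * X ^ r) := by
          rw [mul_pow] at a2
          have h3 : 2 ^ r = 2 * 2 ^ (r - 1) := by
            rw [← pow_succ']
            congr 1
            omega
          rw [h3] at a2
          linarith [mul_assoc 2 (2 ^ (r - 1)) (X ^ r)]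
        have := Nat.find_min' hex this
        omega
    refine ⟨Nat.find hex, Finset.mem_range.mpr h2, Finset.mem_filter.mpr ⟨hP, ?_, h1⟩⟩
    rcases Nat.eq_zero_or_pos (Nat.find hex) with h0 | h0
    · rw [h0]
      simpa using a1
    · have h3 := Nat.find_min hex (m := Nat.find hex - 1) (by omega)
      push Not at h3
      have h4 : 2 ^ Nat.find hex = 2 * 2 ^ (Nat.find hex - 1) := by
        rw [← pow_succ']
        congr 1
        omega
      rw [h4, mul_assoc]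
      exact h3
  have h2 : T.card ≤ ∑ t ∈ Finset.range r,
      (T.filter (fun P => 2 ^ t * X ^ r ≤ P ∧ P < 2 * (2 ^ t * X ^ r))).card :=
    (Finset.card_le_card hsub).trans Finset.card_biUnion_le
  have hD0 : (0 : ℝ) < D := by exact_mod_cast hD
  have h3 : ∀ t ∈ Finset.range r,
      ((T.filter (fun P => 2 ^ t * X ^ r ≤ P ∧ P < 2 * (2 ^ t * X ^ r))).card : ℝ) ≤
        C₁ * (D : ℝ) ^ σ * (2 ^ r * (1 + (X : ℝ) ^ r / D)) := by
    intro t ht
    have h4 := h₁ D (2 ^ t * X ^ r) e 1 (c : ℤ)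
      (T.filter (fun P => 2 ^ t * X ^ r ≤ P ∧ P < 2 * (2 ^ t * X ^ r))) hD he (by omega)
      (Nat.coprime_one_left D) (by
        intro P hP
        rw [Finset.mem_filter] at hP
        obtain ⟨a1, a2, a3, a4⟩ := hT P hP.1
        refine ⟨hP.2.1, hP.2.2, a3, ?_⟩
        have h5 := (Nat.modEq_iff_dvd.mp a4.symm)
        push_cast at h5 ⊢
        rw [one_mul]
        exact h5)
    refine h4.trans ?_
    refine mul_le_mul_of_nonneg_left ?_ (by positivity)
    have h6 : (2 : ℝ) ^ t ≤ 2 ^ r := pow_le_pow_right₀ (by norm_num)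
      (Finset.mem_range.mp ht).le
    have h7 : (1 : ℝ) ≤ 2 ^ r := one_le_pow₀ (by norm_num)
    have h8 : 0 ≤ (X : ℝ) ^ r / D := by positivity
    push_cast
    rw [mul_add, mul_one, mul_div_assoc]
    exact add_le_add h7 (mul_le_mul_of_nonneg_right h6 h8)
  calc (T.card : ℝ) ≤ ((∑ t ∈ Finset.range r,
      (T.filter (fun P => 2 ^ t * X ^ r ≤ P ∧ P < 2 * (2 ^ t * X ^ r))).card : ℕ) : ℝ) := by
        exact_mod_cast h2
    _ = ∑ t ∈ Finset.range r,
      ((T.filter (fun P => 2 ^ t * X ^ r ≤ P ∧ P < 2 * (2 ^ t * X ^ r))).card : ℝ) := by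
        push_cast; rfl
    _ ≤ ∑ _t ∈ Finset.range r, C₁ * (D : ℝ) ^ σ * (2 ^ r * (1 + (X : ℝ) ^ r / D)) :=
        Finset.sum_le_sum h3
    _ = r * (C₁ * (D : ℝ) ^ σ * (2 ^ r * (1 + (X : ℝ) ^ r / D))) := by
        rw [Finset.sum_const, Finset.card_range, nsmul_eq_mul]

end TfA

open TfA in
/-- Row A. Moments of the character sums over an interval. -/
theorem tf_moment (e r : ℕ) (he : 1 ≤ e) (hr : 1 ≤ r) (σ : ℝ) (hσ : 0 < σ) : ∃ C : ℝ, 1 ≤ C ∧
    ∀ X D : ℕ, 1 ≤ X → 1 ≤ D →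
    ((((Fintype.piFinset (fun _ : Fin r => box X D)) ×ˢ
      (Fintype.piFinset (fun _ : Fin r => box X D))).filter
      (fun y : (Fin r → ℕ) × (Fin r → ℕ) =>
        (∏ i, y.1 i) ^ e ≡ (∏ i, y.2 i) ^ e [MOD D])).card : ℝ) * min ((X : ℝ) ^ r) D ≤
      C * ((X : ℝ) * D) ^ σ * (X : ℝ) ^ (2 * r) := by
  classical
  obtain ⟨C₁, hC₁, h₁⟩ := CdE1.card_roots (e + 1) σ hσ
  have hr0 : (0 : ℝ) < r := by exact_mod_cast hr
  obtain ⟨C₂, hC₂, h₂⟩ := card_divisors_le_rpow (σ / (r : ℝ) ^ 2) (by positivity)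
  refine ⟨max 1 (C₂ ^ r * 2 ^ σ * (r * C₁ * 2 ^ r) * 2), le_max_left _ _, ?_⟩
  intro X D hX hD
  have hX0 : (0 : ℝ) < X := by exact_mod_cast hX
  have hD0 : (0 : ℝ) < D := by exact_mod_cast hD
  set F : ℝ := C₂ ^ r * (2 * (X : ℝ)) ^ σ with hF
  have hF0 : 0 ≤ F := by positivity
  set G : ℝ := r * (C₁ * (D : ℝ) ^ σ * (2 ^ r * (1 + (X : ℝ) ^ r / D))) with hG
  have hG0 : 0 ≤ G := by positivity
  -- one fibre
  have hone : ∀ z ∈ Fintype.piFinset (fun _ : Fin r => box X D),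
      (((Fintype.piFinset (fun _ : Fin r => box X D)).filter
        (fun x : Fin r → ℕ => (∏ i, x i) ^ e ≡ (∏ i, z i) ^ e [MOD D])).card : ℝ) ≤ F * G := by
    intro z hz
    set Q := (Fintype.piFinset (fun _ : Fin r => box X D)).filter
        (fun x : Fin r → ℕ => (∏ i, x i) ^ e ≡ (∏ i, z i) ^ e [MOD D]) with hQ
    have hQm : ∀ x ∈ Q, (∀ i, x i ∈ box X D) ∧ (∏ i, x i) ^ e ≡ (∏ i, z i) ^ e [MOD D] := by
      intro x hx
      rw [hQ, Finset.mem_filter, Fintype.mem_piFinset] at hx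
      exact hx
    have hcard := Finset.card_le_mul_card_image (f := fun x : Fin r → ℕ => ∏ i, x i) Q ⌊F⌋₊ (by
      intro P hP
      rw [Finset.mem_image] at hP
      obtain ⟨x, hx, rfl⟩ := hP
      obtain ⟨hx1, hx2⟩ := hQm x hx
      have hP0 : (∏ i, x i) ≠ 0 := by
        have := prod_lower r X D x hx1
        have := pow_pos (show 0 < X by omega) r
        omega
      apply Nat.le_floor
      have h3 : (Q.filter (fun y => ∏ i, y i = ∏ i, x i)).card ≤
          (∏ i, x i).divisors.card ^ r := by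
        refine le_trans (Finset.card_le_card ?_) (card_fibre r (box X D) _ hP0)
        intro y hy
        rw [Finset.mem_filter] at hy
        rw [Finset.mem_filter]
        refine ⟨?_, hy.2⟩
        rw [hQ, Finset.mem_filter] at hy
        exact hy.1.1
      have h4 := h₂ (∏ i, x i) hP0
      have h5 : ((∏ i, x i : ℕ) : ℝ) ≤ (2 * (X : ℝ)) ^ r := by
        have := (prod_upper r X D hr x hx1).le
        exact_mod_cast this
      have h6 : ((∏ i, x i : ℕ) : ℝ) ^ (σ / (r : ℝ) ^ 2) ≤ (2 * (X : ℝ)) ^ (σ / r) := by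
        calc ((∏ i, x i : ℕ) : ℝ) ^ (σ / (r : ℝ) ^ 2)
            ≤ ((2 * (X : ℝ)) ^ r) ^ (σ / (r : ℝ) ^ 2) :=
              Real.rpow_le_rpow (by positivity) h5 (by positivity)
          _ = (2 * (X : ℝ)) ^ (σ / r) := by
              rw [← Real.rpow_natCast (2 * (X : ℝ)) r, ← Real.rpow_mul (by positivity)]
              congr 1
              field_simp
      calc ((Q.filter (fun y => ∏ i, y i = ∏ i, x i)).card : ℝ)
          ≤ (((∏ i, x i).divisors.card ^ r : ℕ) : ℝ) := by exact_mod_cast h3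
        _ = ((∏ i, x i).divisors.card : ℝ) ^ r := by push_cast; rfl
        _ ≤ (C₂ * (2 * (X : ℝ)) ^ (σ / r)) ^ r := by
            refine pow_le_pow_left₀ (by positivity) (h4.trans ?_) r
            exact mul_le_mul_of_nonneg_left h6 (by positivity)
        _ = F := by
            rw [mul_pow, hF]
            congr 1
            rw [← Real.rpow_natCast ((2 * (X : ℝ)) ^ (σ / r)) r,
              ← Real.rpow_mul (by positivity)]
            congr 1
            field_simp)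
    have himg : (((Q.image (fun x : Fin r → ℕ => ∏ i, x i)).card : ℕ) : ℝ) ≤ G := by
      refine card_image e r he C₁ σ (fun D X e' w c T a b c' d g => h₁ D X e' w c T a b c' d g) hC₁
        X D hX hD ((∏ i, z i) ^ e) _ ?_
      intro P hP
      rw [Finset.mem_image] at hP
      obtain ⟨x, hx, rfl⟩ := hP
      obtain ⟨hx1, hx2⟩ := hQm x hx
      refine ⟨prod_lower r X D x hx1, prod_upper r X D hr x hx1, ?_, hx2⟩
      exact Nat.Coprime.prod_left (fun i _ => (mem_box (hx1 i)).2.2)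
    calc (Q.card : ℝ) ≤ ((⌊F⌋₊ * (Q.image (fun x : Fin r → ℕ => ∏ i, x i)).card : ℕ) : ℝ) := by
          exact_mod_cast hcard
      _ = (⌊F⌋₊ : ℝ) * ((Q.image (fun x : Fin r → ℕ => ∏ i, x i)).card : ℝ) := by push_cast; rfl
      _ ≤ F * G := mul_le_mul (Nat.floor_le hF0) himg (by positivity) hF0
  -- the whole set
  have hall : ((((Fintype.piFinset (fun _ : Fin r => box X D)) ×ˢ
      (Fintype.piFinset (fun _ : Fin r => box X D))).filter
      (fun y : (Fin r → ℕ) × (Fin r → ℕ) =>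
        (∏ i, y.1 i) ^ e ≡ (∏ i, y.2 i) ^ e [MOD D])).card : ℝ) ≤ (X : ℝ) ^ r * (F * G) := by
    set A := Fintype.piFinset (fun _ : Fin r => box X D) with hA
    have h3 : ((A ×ˢ A).filter (fun y : (Fin r → ℕ) × (Fin r → ℕ) =>
        (∏ i, y.1 i) ^ e ≡ (∏ i, y.2 i) ^ e [MOD D])).card =
        ∑ z ∈ A, (A.filter (fun x : Fin r → ℕ =>
          (∏ i, x i) ^ e ≡ (∏ i, z i) ^ e [MOD D])).card := by
      rw [Finset.card_filter, Finset.sum_product_right]
      refine Finset.sum_congr rfl (fun z _ => ?_)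
      rw [Finset.card_filter]
    rw [h3]
    push_cast
    calc ∑ z ∈ A, ((A.filter (fun x : Fin r → ℕ =>
          (∏ i, x i) ^ e ≡ (∏ i, z i) ^ e [MOD D])).card : ℝ) ≤ ∑ _z ∈ A, F * G :=
          Finset.sum_le_sum hone
      _ = (A.card : ℝ) * (F * G) := by rw [Finset.sum_const, nsmul_eq_mul]
      _ ≤ (X : ℝ) ^ r * (F * G) := by
          refine mul_le_mul_of_nonneg_right ?_ (by positivity)
          have h4 : A.card ≤ X ^ r := by
            rw [hA, Fintype.card_piFinset]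
            simp only [Finset.prod_const, Finset.card_univ, Fintype.card_fin]
            exact Nat.pow_le_pow_left (card_box X D) r
          exact_mod_cast h4
  have hmin : (1 + (X : ℝ) ^ r / D) * min ((X : ℝ) ^ r) D ≤ 2 * (X : ℝ) ^ r := by
    have a1 : min ((X : ℝ) ^ r) D ≤ (X : ℝ) ^ r := min_le_left _ _
    have a2 : min ((X : ℝ) ^ r) D ≤ (D : ℝ) := min_le_right _ _
    have a3 : (X : ℝ) ^ r / D * min ((X : ℝ) ^ r) D ≤ (X : ℝ) ^ r / D * D :=
      mul_le_mul_of_nonneg_left a2 (by positivity)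
    rw [div_mul_cancel₀ _ hD0.ne'] at a3
    rw [add_mul, one_mul]
    linarith
  have hm0 : 0 ≤ min ((X : ℝ) ^ r) D := by positivity
  calc _ ≤ (X : ℝ) ^ r * (F * G) * min ((X : ℝ) ^ r) D := mul_le_mul_of_nonneg_right hall hm0
    _ = (X : ℝ) ^ r * F * (r * C₁ * 2 ^ r) * (D : ℝ) ^ σ *
        ((1 + (X : ℝ) ^ r / D) * min ((X : ℝ) ^ r) D) := by rw [hG]; ring
    _ ≤ (X : ℝ) ^ r * F * (r * C₁ * 2 ^ r) * (D : ℝ) ^ σ * (2 * (X : ℝ) ^ r) :=
        mul_le_mul_of_nonneg_left hmin (by positivity)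
    _ = (C₂ ^ r * 2 ^ σ * (r * C₁ * 2 ^ r) * 2) * ((X : ℝ) * D) ^ σ * (X : ℝ) ^ (2 * r) := by
        rw [hF, Real.mul_rpow (by norm_num) hX0.le, Real.mul_rpow hX0.le hD0.le,
          show (X : ℝ) ^ (2 * r) = (X : ℝ) ^ r * (X : ℝ) ^ r by rw [two_mul, pow_add]]
        ring
    _ ≤ max 1 (C₂ ^ r * 2 ^ σ * (r * C₁ * 2 ^ r) * 2) * ((X : ℝ) * D) ^ σ *
        (X : ℝ) ^ (2 * r) := by
        refine mul_le_mul_of_nonneg_right ?_ (by positivity)
        exact mul_le_mul_of_nonneg_right (le_max_right _ _) (by positivity)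

end Pool.Agent.Lib.MP_d8bd92_nt
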