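import Pool.Agent.Lib.MP_d8bd92_nt.TfDefs
import Pool.Agent.Lib.MP_d8bd92_nt.CdE1
import Pool.Agent.Lib.MP_d8bd92_nt.CdE4
import Pool.Agent.Lib.MP_d8bd92_nt.TfA
import Pool.Agent.Lib.MP_d8bd92_nt.TfD

set_option autoImplicit false

/-!
Row E: tuples in a congruence.
-/

namespace Pool.Agent.Lib.MP_d8bd92_nt

open Finset Pool.Agent.Lib.Szpiro


namespace TfE

open CountFour

theorem prod_upow {ι : Type} [Fintype ι] (D : ℕ) (s : ℤ) (hs : s = 1 ∨ s = -1)
    (v : ι → Bool × ℕ) (x : ι → ℕ)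
    (hx : ∀ j, Nat.Coprime (x j) D) (w : ℕ × ℕ) (hw1 : Nat.Coprime w.1 D)
    (hw2 : Nat.Coprime w.2 D)
    (h : (D : ℤ) ∣ ((w.1 * ∏ j, (if (v j).1 then x j ^ (v j).2 else 1) : ℕ) : ℤ) -
      s * ((w.2 * ∏ j, (if (v j).1 then 1 else x j ^ (v j).2) : ℕ) : ℤ)) :
    ∏ j, upow D (v j) (x j) = gval D s w := by
  have h1 : ∏ j, upow D (v j) (x j) =
      (∏ j, (if (v j).1 then (ZMod.unitOfCoprime (x j) (hx j)) ^ (v j).2 else 1)) *
      (∏ j, (if (v j).1 then 1 else (ZMod.unitOfCoprime (x j) (hx j)) ^ (v j).2))⁻¹ := by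
    rw [← Finset.prod_inv_distrib, ← Finset.prod_mul_distrib]
    exact Finset.prod_congr rfl fun j _ => upow_eq D (v j) (x j) (hx j)
  rw [h1]
  unfold gval
  rw [dif_pos ⟨hw1, hw2⟩]
  set A := ∏ j, (if (v j).1 then (ZMod.unitOfCoprime (x j) (hx j)) ^ (v j).2 else 1) with hA
  set B := ∏ j, (if (v j).1 then 1 else (ZMod.unitOfCoprime (x j) (hx j)) ^ (v j).2) with hB
  have hAc : (A : ZMod D) = ((∏ j, (if (v j).1 then x j ^ (v j).2 else 1) : ℕ) : ZMod D) := by
    rw [hA, Units.coe_prod, Nat.cast_prod]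
    refine Finset.prod_congr rfl fun j _ => ?_
    split_ifs <;> simp
  have hBc : (B : ZMod D) = ((∏ j, (if (v j).1 then 1 else x j ^ (v j).2) : ℕ) : ZMod D) := by
    rw [hB, Units.coe_prod, Nat.cast_prod]
    refine Finset.prod_congr rfl fun j _ => ?_
    split_ifs <;> simp
  have h2 : (((w.1 * ∏ j, (if (v j).1 then x j ^ (v j).2 else 1) : ℕ) : ℤ) : ZMod D) =
      ((s * ((w.2 * ∏ j, (if (v j).1 then 1 else x j ^ (v j).2) : ℕ) : ℤ) : ℤ) : ZMod D) := by
    rw [← sub_eq_zero, ← Int.cast_sub]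
    exact (ZMod.intCast_zmod_eq_zero_iff_dvd _ _).2 h
  have h3 : (w.1 : ZMod D) * (A : ZMod D) = (s : ZMod D) * ((w.2 : ZMod D) * (B : ZMod D)) := by
    rw [hAc, hBc]
    push_cast at h2 ⊢
    exact h2
  have h4 : ZMod.unitOfCoprime w.1 hw1 * A =
      (if s = 1 then 1 else -1) * (ZMod.unitOfCoprime w.2 hw2 * B) := by
    apply Units.ext
    rw [Units.val_mul, ZMod.coe_unitOfCoprime, h3]
    rcases hs with hs | hs
    · subst hs
      simp
    · subst hs
      simp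
  have h5 : A = (ZMod.unitOfCoprime w.1 hw1)⁻¹ * ((if s = 1 then 1 else -1) *
      (ZMod.unitOfCoprime w.2 hw2 * B)) := by
    rw [← h4, inv_mul_cancel_left]
  rw [h5, grp_aux]

/-- the unit of a number -/
noncomputable def un (D x : ℕ) : (ZMod D)ˣ :=
  if h : Nat.Coprime x D then ZMod.unitOfCoprime x h else 1

theorem un_val {D x : ℕ} (h : Nat.Coprime x D) : ((un D x : (ZMod D)ˣ) : ZMod D) = x := by
  unfold un
  rw [dif_pos h, ZMod.coe_unitOfCoprime]

theorem upow_un {D : ℕ} (v : Bool × ℕ) {x : ℕ} (h : Nat.Coprime x D) :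
    upow D v x = if v.1 then (un D x) ^ v.2 else ((un D x) ^ v.2)⁻¹ := by
  unfold upow un
  rw [dif_pos h, dif_pos h]

theorem moment_eq (D r : ℕ) (v : Bool × ℕ) (y z : Fin r → ℕ) (hy : ∀ i, Nat.Coprime (y i) D)
    (hz : ∀ i, Nat.Coprime (z i) D) (h : ∏ i, upow D v (y i) = ∏ i, upow D v (z i)) :
    (∏ i, y i) ^ v.2 ≡ (∏ i, z i) ^ v.2 [MOD D] := by
  have h1 : (∏ i, un D (y i)) ^ v.2 = (∏ i, un D (z i)) ^ v.2 := by
    rw [← Finset.prod_pow, ← Finset.prod_pow]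
    rcases hv : v.1 with _ | _
    · have h2 : ∀ t : Fin r → ℕ, (∀ i, Nat.Coprime (t i) D) →
          ∏ i, upow D v (t i) = (∏ i, (un D (t i)) ^ v.2)⁻¹ := by
        intro t ht
        rw [← Finset.prod_inv_distrib]
        refine Finset.prod_congr rfl fun i _ => ?_
        rw [upow_un v (ht i), hv]
        simp
      rw [h2 y hy, h2 z hz] at h
      exact inv_injective h
    · have h2 : ∀ t : Fin r → ℕ, (∀ i, Nat.Coprime (t i) D) →
          ∏ i, upow D v (t i) = ∏ i, (un D (t i)) ^ v.2 := by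
        intro t ht
        refine Finset.prod_congr rfl fun i _ => ?_
        rw [upow_un v (ht i), hv]
        simp
      rw [h2 y hy, h2 z hz] at h
      exact h
  have h3 : ∀ t : Fin r → ℕ, (∀ i, Nat.Coprime (t i) D) →
      (((∏ i, un D (t i)) ^ v.2 : (ZMod D)ˣ) : ZMod D) = (((∏ i, t i) ^ v.2 : ℕ) : ZMod D) := by
    intro t ht
    rw [Units.val_pow_eq_pow_val, Units.coe_prod, Nat.cast_pow, Nat.cast_prod]
    congr 1
    exact Finset.prod_congr rfl fun i _ => un_val (ht i)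
  rw [← ZMod.natCast_eq_natCast_iff, ← h3 y hy, ← h3 z hz, h1]

/-- one large variable: the count -/
theorem case_one {ι : Type} [Fintype ι] [DecidableEq ι] (K : ℕ) (σ C₁ : ℝ) (hC₁ : 1 ≤ C₁)
    (hC : ∀ (D X e w : ℕ) (c : ℤ) (T : Finset ℕ), 1 ≤ D → 1 ≤ e → e < K → Nat.Coprime w D →
      (∀ x ∈ T, X ≤ x ∧ x < 2 * X ∧ Nat.Coprime x D ∧ (D : ℤ) ∣ (w : ℤ) * (x : ℤ) ^ e - c) →
      (T.card : ℝ) ≤ C₁ * (D : ℝ) ^ σ * (1 + (X : ℝ) / D))
    (D : ℕ) (X e : ι → ℕ) (v : ι → Bool) (w₁ w₂ : ℕ) (s : ℤ) (hD : 1 ≤ D) (hX : ∀ j, 1 ≤ X j)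
    (he : ∀ j, 1 ≤ e j ∧ e j < K) (hs : s = 1 ∨ s = -1) (hw1 : Nat.Coprime w₁ D)
    (hw2 : Nat.Coprime w₂ D) (j₀ : ι) (hj₀ : D < X j₀) :
    (((Fintype.piFinset (fun j => box (X j) D)).filter (fun x : ι → ℕ =>
      (D : ℤ) ∣ ((w₁ * ∏ j, (if v j then x j ^ e j else 1) : ℕ) : ℤ) -
        s * ((w₂ * ∏ j, (if v j then 1 else x j ^ e j) : ℕ) : ℤ))).card : ℝ) * D ≤
      2 * C₁ * (D : ℝ) ^ σ * ∏ j, (X j : ℝ) := by
  classical
  have hD0 : (0 : ℝ) < D := by exact_mod_cast hD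
  set S := (Fintype.piFinset (fun j => box (X j) D)).filter (fun x : ι → ℕ =>
      (D : ℤ) ∣ ((w₁ * ∏ j, (if v j then x j ^ e j else 1) : ℕ) : ℤ) -
        s * ((w₂ * ∏ j, (if v j then 1 else x j ^ e j) : ℕ) : ℤ)) with hS
  set F : (ι → ℕ) → (ι → ℕ) := fun x => Function.update x j₀ 0 with hF
  set M : ℝ := 2 * C₁ * (D : ℝ) ^ σ * ((X j₀ : ℝ) / D) with hM
  have hXj : (D : ℝ) ≤ X j₀ := by exact_mod_cast hj₀.le
  have hDσ : 0 ≤ (D : ℝ) ^ σ := Real.rpow_nonneg hD0.le _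
  have hM0 : 0 ≤ M := by positivity
  -- the fibres
  have hfib : ∀ y ∈ S.image F, ((S.filter (fun x => F x = y)).card : ℝ) ≤ M := by
    intro y _
    rcases (S.filter (fun x => F x = y)).eq_empty_or_nonempty with h0 | ⟨x0, hx0⟩
    · rw [h0]
      simpa using hM0
    have hmem : ∀ x ∈ S.filter (fun x => F x = y), (∀ j, x j ∈ box (X j) D) ∧
        ((D : ℤ) ∣ ((w₁ * ∏ j, (if v j then x j ^ e j else 1) : ℕ) : ℤ) -
        s * ((w₂ * ∏ j, (if v j then 1 else x j ^ e j) : ℕ) : ℤ)) ∧ ∀ j, j ≠ j₀ → x j = y j := by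
      intro x hx
      rw [mem_filter] at hx
      obtain ⟨h1, h2⟩ := hx
      rw [hS, mem_filter, Fintype.mem_piFinset] at h1
      refine ⟨h1.1, h1.2, fun j hj => ?_⟩
      rw [← h2, hF]
      simp [Function.update_of_ne hj]
    have hyc : ∀ j, j ≠ j₀ → Nat.Coprime (y j) D := by
      intro j hj
      obtain ⟨h1, -, h3⟩ := hmem x0 hx0
      rw [← h3 j hj]
      exact (cdD_mem_box _ _ _ (h1 j)).2.2
    set A : ℕ := ∏ j ∈ univ.erase j₀, (if v j then y j ^ e j else 1) with hA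
    set B : ℕ := ∏ j ∈ univ.erase j₀, (if v j then 1 else y j ^ e j) with hB
    have hAc : Nat.Coprime A D := by
      refine Nat.Coprime.prod_left fun j hj => ?_
      split_ifs
      · exact Nat.Coprime.pow_left _ (hyc j (ne_of_mem_erase hj))
      · exact Nat.coprime_one_left _
    have hBc : Nat.Coprime B D := by
      refine Nat.Coprime.prod_left fun j hj => ?_
      split_ifs
      · exact Nat.coprime_one_left _
      · exact Nat.Coprime.pow_left _ (hyc j (ne_of_mem_erase hj))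
    have hprod : ∀ x ∈ S.filter (fun x => F x = y),
        ∏ j, (if v j then x j ^ e j else 1) = (if v j₀ then x j₀ ^ e j₀ else 1) * A ∧
        ∏ j, (if v j then 1 else x j ^ e j) = (if v j₀ then 1 else x j₀ ^ e j₀) * B := by
      intro x hx
      obtain ⟨-, -, h3⟩ := hmem x hx
      constructor
      · rw [← Finset.mul_prod_erase univ _ (mem_univ j₀), hA]
        congr 1
        refine Finset.prod_congr rfl fun j hj => ?_
        rw [h3 j (ne_of_mem_erase hj)]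
      · rw [← Finset.mul_prod_erase univ _ (mem_univ j₀), hB]
        congr 1
        refine Finset.prod_congr rfl fun j hj => ?_
        rw [h3 j (ne_of_mem_erase hj)]
    have hinj : Set.InjOn (fun x : ι → ℕ => x j₀)
        ((S.filter (fun x => F x = y) : Finset (ι → ℕ)) : Set (ι → ℕ)) := by
      intro x hx x' hx' hxx
      rw [Finset.mem_coe] at hx hx'
      funext j
      by_cases hj : j = j₀
      · rw [hj]; exact hxx
      · rw [(hmem x hx).2.2 j hj, (hmem x' hx').2.2 j hj]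
    have hcard : (S.filter (fun x => F x = y)).card =
        ((S.filter (fun x => F x = y)).image (fun x : ι → ℕ => x j₀)).card :=
      (Finset.card_image_of_injOn hinj).symm
    rw [hcard]
    have hb : ((((S.filter (fun x => F x = y)).image (fun x : ι → ℕ => x j₀)).card : ℕ) : ℝ) ≤
        C₁ * (D : ℝ) ^ σ * (1 + (X j₀ : ℝ) / D) := by
      rcases hv : v j₀ with _ | _
      · refine hC D (X j₀) (e j₀) (w₂ * B) (s * ((w₁ * A : ℕ) : ℤ)) _ hD (he j₀).1 (he j₀).2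
          (Nat.Coprime.mul_left hw2 hBc) ?_
        intro a ha
        rw [mem_image] at ha
        obtain ⟨x, hx, rfl⟩ := ha
        obtain ⟨h1, h2, -⟩ := hmem x hx
        obtain ⟨h4, h5⟩ := hprod x hx
        have h6 := cdD_mem_box _ _ _ (h1 j₀)
        refine ⟨h6.1, h6.2.1, h6.2.2, ?_⟩
        rw [h4, h5, hv] at h2
        simp only [Bool.false_eq_true, if_false] at h2
        rcases hs with hs | hs
        · subst hs
          have h7 := (dvd_neg.2 h2)
          have h8 : ((w₂ * B : ℕ) : ℤ) * (x j₀ : ℤ) ^ e j₀ - 1 * ((w₁ * A : ℕ) : ℤ) =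
              -(((w₁ * (1 * A) : ℕ) : ℤ) - 1 * ((w₂ * (x j₀ ^ e j₀ * B) : ℕ) : ℤ)) := by
            push_cast
            ring
          rw [h8]
          exact h7
        · subst hs
          have h8 : ((w₂ * B : ℕ) : ℤ) * (x j₀ : ℤ) ^ e j₀ - -1 * ((w₁ * A : ℕ) : ℤ) =
              ((w₁ * (1 * A) : ℕ) : ℤ) - -1 * ((w₂ * (x j₀ ^ e j₀ * B) : ℕ) : ℤ) := by
            push_cast
            ring
          rw [h8]
          exact h2
      · refine hC D (X j₀) (e j₀) (w₁ * A) (s * ((w₂ * B : ℕ) : ℤ)) _ hD (he j₀).1 (he j₀).2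
          (Nat.Coprime.mul_left hw1 hAc) ?_
        intro a ha
        rw [mem_image] at ha
        obtain ⟨x, hx, rfl⟩ := ha
        obtain ⟨h1, h2, -⟩ := hmem x hx
        obtain ⟨h4, h5⟩ := hprod x hx
        have h6 := cdD_mem_box _ _ _ (h1 j₀)
        refine ⟨h6.1, h6.2.1, h6.2.2, ?_⟩
        rw [h4, h5, hv] at h2
        simp only [if_true] at h2
        convert h2 using 1
        push_cast
        ring
    refine hb.trans ?_
    rw [hM]
    have h7 : 1 ≤ (X j₀ : ℝ) / D := by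
      rw [le_div_iff₀ hD0, one_mul]
      exact hXj
    have h8 : 0 ≤ C₁ * (D : ℝ) ^ σ := by positivity
    nlinarith
  -- the image
  have himg : ((S.image F).card : ℝ) ≤ ∏ j ∈ univ.erase j₀, (X j : ℝ) := by
    have h1 : S.image F ⊆ Fintype.piFinset (fun j => if j = j₀ then {0} else box (X j) D) := by
      intro y hy
      rw [mem_image] at hy
      obtain ⟨x, hx, rfl⟩ := hy
      rw [hS, mem_filter, Fintype.mem_piFinset] at hx
      rw [Fintype.mem_piFinset]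
      intro j
      by_cases hj : j = j₀
      · subst hj
        simp [hF]
      · rw [if_neg hj, hF]
        simp only [Function.update_of_ne hj]
        exact hx.1 j
    have h2 := card_le_card h1
    rw [Fintype.card_piFinset, ← Finset.mul_prod_erase univ _ (mem_univ j₀)] at h2
    simp only [if_true, card_singleton, one_mul] at h2
    have h3 : ∏ j ∈ univ.erase j₀, (if j = j₀ then ({0} : Finset ℕ) else box (X j) D).card ≤
        ∏ j ∈ univ.erase j₀, X j := by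
      refine Finset.prod_le_prod' fun j hj => ?_
      rw [if_neg (ne_of_mem_erase hj)]
      exact cdD_card_box _ _
    have h4 := h2.trans h3
    calc ((S.image F).card : ℝ) ≤ ((∏ j ∈ univ.erase j₀, X j : ℕ) : ℝ) := by exact_mod_cast h4
      _ = ∏ j ∈ univ.erase j₀, (X j : ℝ) := by push_cast; rfl
  have hsum : (S.card : ℝ) = ∑ y ∈ S.image F, ((S.filter (fun x => F x = y)).card : ℝ) := by
    rw [Finset.card_eq_sum_card_image F S]
    push_cast
    rfl
  have h1 : (S.card : ℝ) ≤ (∏ j ∈ univ.erase j₀, (X j : ℝ)) * M := by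
    rw [hsum]
    calc ∑ y ∈ S.image F, ((S.filter (fun x => F x = y)).card : ℝ)
        ≤ ∑ _y ∈ S.image F, M := Finset.sum_le_sum hfib
      _ = ((S.image F).card : ℝ) * M := by rw [Finset.sum_const, nsmul_eq_mul]
      _ ≤ _ := mul_le_mul_of_nonneg_right himg hM0
  have h2 : ∏ j, (X j : ℝ) = (X j₀ : ℝ) * ∏ j ∈ univ.erase j₀, (X j : ℝ) :=
    (Finset.mul_prod_erase univ _ (mem_univ j₀)).symm
  calc (S.card : ℝ) * D ≤ ((∏ j ∈ univ.erase j₀, (X j : ℝ)) * M) * D :=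
        mul_le_mul_of_nonneg_right h1 hD0.le
    _ = 2 * C₁ * (D : ℝ) ^ σ * ∏ j, (X j : ℝ) := by
        rw [h2, hM]
        field_simp

end TfE

open TfE CountFour in
theorem tf_tuple (ι : Type) [Fintype ι] [DecidableEq ι] (K : ℕ) (σ : ℝ) (hσ : 0 < σ) :
    ∃ C : ℝ, 1 ≤ C ∧ ∀ (D : ℕ) (X e : ι → ℕ) (v : ι → Bool) (w₁ w₂ : ℕ) (s : ℤ), 1 ≤ D →
    (∀ j, 1 ≤ X j) → (∀ j, 1 ≤ e j ∧ e j < K) → (s = 1 ∨ s = -1) →
    Nat.Coprime w₁ D → Nat.Coprime w₂ D →
    (((Fintype.piFinset (fun j => box (X j) D)).filter (fun x : ι → ℕ =>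
      (D : ℤ) ∣ ((w₁ * ∏ j, (if v j then x j ^ e j else 1) : ℕ) : ℤ) -
        s * ((w₂ * ∏ j, (if v j then 1 else x j ^ e j) : ℕ) : ℤ))).card : ℝ) *
      sav (∏ j, (X j : ℝ)) D ≤ C * ((∏ j, (X j : ℝ)) * D) ^ σ * ∏ j, (X j : ℝ) := by
  classical
  obtain ⟨C₁, hC₁, hroots⟩ := CdE1.card_roots K σ hσ
  set n : ℕ := Fintype.card ι with hn
  obtain ⟨R, hR1, hR⟩ : ∃ R : ℕ, 1 ≤ R ∧ (n : ℝ) / (2 * R) ≤ σ / 2 := by
    refine ⟨⌈(n : ℝ) / σ⌉₊ + 1, by omega, ?_⟩
    have h1 : (n : ℝ) / σ ≤ (⌈(n : ℝ) / σ⌉₊ : ℝ) := Nat.le_ceil _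
    have h2 : (n : ℝ) ≤ (⌈(n : ℝ) / σ⌉₊ : ℝ) * σ := by rwa [div_le_iff₀ hσ] at h1
    rw [div_le_iff₀ (by positivity)]
    push_cast
    nlinarith
  have hmom : ∀ e r : ℕ, ∃ C : ℝ, 1 ≤ C ∧ (1 ≤ e → 1 ≤ r → ∀ X D : ℕ, 1 ≤ X → 1 ≤ D →
    ((((Fintype.piFinset (fun _ : Fin r => box X D)) ×ˢ
      (Fintype.piFinset (fun _ : Fin r => box X D))).filter
      (fun y : (Fin r → ℕ) × (Fin r → ℕ) =>
        (∏ i, y.1 i) ^ e ≡ (∏ i, y.2 i) ^ e [MOD D])).card : ℝ) * min ((X : ℝ) ^ r) D ≤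
      C * ((X : ℝ) * D) ^ (σ / 2) * (X : ℝ) ^ (2 * r)) := by
    intro e r
    by_cases h : 1 ≤ e ∧ 1 ≤ r
    · obtain ⟨C, h1, h2⟩ := tf_moment e r h.1 h.2 (σ / 2) (by positivity)
      exact ⟨C, h1, fun _ _ => h2⟩
    · exact ⟨1, le_rfl, fun h1 h2 => absurd ⟨h1, h2⟩ h⟩
  choose CM hCM1 hCM using hmom
  set C₂ : ℝ := 1 + ∑ e ∈ range K, ∑ r ∈ range (R + 2), CM e r with hC₂
  have hCM0 : ∀ e r, 0 ≤ CM e r := fun e r => zero_le_one.trans (hCM1 e r)
  have hC₂1 : 1 ≤ C₂ := by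
    have : 0 ≤ ∑ e ∈ range K, ∑ r ∈ range (R + 2), CM e r :=
      Finset.sum_nonneg fun e _ => Finset.sum_nonneg fun r _ => hCM0 e r
    linarith
  have hCMle : ∀ e < K, ∀ r < R + 2, CM e r ≤ C₂ := by
    intro e he r hr
    have h1 : CM e r ≤ ∑ r ∈ range (R + 2), CM e r :=
      Finset.single_le_sum (f := CM e) (fun i _ => hCM0 e i) (mem_range.2 hr)
    have h2 : ∑ r ∈ range (R + 2), CM e r ≤ ∑ e ∈ range K, ∑ r ∈ range (R + 2), CM e r :=
      Finset.single_le_sum (f := fun e => ∑ r ∈ range (R + 2), CM e r)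
        (fun i _ => Finset.sum_nonneg fun r _ => hCM0 i r) (mem_range.2 he)
    linarith
  refine ⟨2 * C₁ + (1 + (n : ℝ) * (R + 1)) * C₂, ?_, ?_⟩
  · have h1 : 0 ≤ (1 + (n : ℝ) * (R + 1)) * C₂ := by positivity
    linarith
  intro D X e v w₁ w₂ s hD hX he hs hw1 hw2
  have hD0 : (0 : ℝ) < D := by exact_mod_cast hD
  have hD1 : (1 : ℝ) ≤ D := by exact_mod_cast hD
  have hXR : ∀ j, (1 : ℝ) ≤ X j := fun j => by exact_mod_cast hX j
  set P : ℝ := ∏ j, (X j : ℝ) with hP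
  have hP1 : 1 ≤ P := by
    rw [hP]
    exact Finset.one_le_prod fun j _ => hXR j
  have hP0 : 0 < P := zero_lt_one.trans_le hP1
  have hPD1 : 1 ≤ P * D := one_le_mul_of_one_le_of_one_le hP1 hD1
  have hA0 : 0 ≤ (1 + (n : ℝ) * (R + 1)) * C₂ := by positivity
  have hPDσ : 0 ≤ (P * D) ^ σ := Real.rpow_nonneg (by positivity) _
  by_cases hbig : ∃ j₀, D < X j₀
  · obtain ⟨j₀, hj₀⟩ := hbig
    have h1 := case_one K σ C₁ hC₁ hroots D X e v w₁ w₂ s hD hX he hs hw1 hw2 j₀ hj₀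
    have h2 : sav P D ≤ D := min_le_left _ _
    have h3 : (D : ℝ) ^ σ ≤ (P * D) ^ σ :=
      Real.rpow_le_rpow hD0.le (by nlinarith) hσ.le
    refine (mul_le_mul_of_nonneg_left h2 (Nat.cast_nonneg _)).trans (h1.trans ?_)
    rw [← hP]
    refine mul_le_mul_of_nonneg_right ?_ hP0.le
    have h4 : 2 * C₁ * (D : ℝ) ^ σ ≤ 2 * C₁ * (P * D) ^ σ :=
      mul_le_mul_of_nonneg_left h3 (by linarith)
    have h5 : 0 ≤ (1 + (n : ℝ) * (R + 1)) * C₂ * (P * D) ^ σ := mul_nonneg hA0 hPDσ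
    nlinarith
  · push Not at hbig
    have : NeZero D := ⟨by omega⟩
    set E : ℝ := C₂ * (P * D) ^ (σ / 2) with hE
    have hpow1 : 1 ≤ (P * D) ^ (σ / 2) := Real.one_le_rpow hPD1 (by positivity)
    have hE1 : 1 ≤ E := one_le_mul_of_one_le_of_one_le hC₂1 hpow1
    have hXP : ∀ j, (X j : ℝ) ≤ P := by
      intro j
      rw [hP, ← Finset.mul_prod_erase univ _ (mem_univ j)]
      have h1 : 1 ≤ ∏ i ∈ univ.erase j, (X i : ℝ) := Finset.one_le_prod fun i _ => hXR i
      have h2 := hXR j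
      nlinarith
    have hgrp := tf_group (ι := ι) (G := (ZMod D)ˣ) R hR1 (D : ℝ) E hD1 hE1
      (fun j => box (X j) D) (fun j => (X j : ℝ)) hXR (fun j => by exact_mod_cast hbig j)
      (fun j => by exact_mod_cast cdD_card_box (X j) D)
      (fun j => upow D (v j, e j)) (by
        intro j r hr1 hrR
        have h1 := hCM (e j) r (he j).1 hr1 (X j) D (hX j) hD
        have h2 : ((((Fintype.piFinset (fun _ : Fin r => box (X j) D)) ×ˢ
            (Fintype.piFinset (fun _ : Fin r => box (X j) D))).filter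
            (fun y : (Fin r → ℕ) × (Fin r → ℕ) =>
              ∏ i, upow D (v j, e j) (y.1 i) = ∏ i, upow D (v j, e j) (y.2 i))).card : ℝ) ≤
            ((((Fintype.piFinset (fun _ : Fin r => box (X j) D)) ×ˢ
            (Fintype.piFinset (fun _ : Fin r => box (X j) D))).filter
            (fun y : (Fin r → ℕ) × (Fin r → ℕ) =>
              (∏ i, y.1 i) ^ e j ≡ (∏ i, y.2 i) ^ e j [MOD D])).card : ℝ) := by
          have h3 : ((((Fintype.piFinset (fun _ : Fin r => box (X j) D)) ×ˢ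
            (Fintype.piFinset (fun _ : Fin r => box (X j) D))).filter
            (fun y : (Fin r → ℕ) × (Fin r → ℕ) =>
              ∏ i, upow D (v j, e j) (y.1 i) = ∏ i, upow D (v j, e j) (y.2 i)))) ⊆
            ((((Fintype.piFinset (fun _ : Fin r => box (X j) D)) ×ˢ
            (Fintype.piFinset (fun _ : Fin r => box (X j) D))).filter
            (fun y : (Fin r → ℕ) × (Fin r → ℕ) =>
              (∏ i, y.1 i) ^ e j ≡ (∏ i, y.2 i) ^ e j [MOD D]))) := by
            intro y hy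
            rw [mem_filter] at hy ⊢
            refine ⟨hy.1, ?_⟩
            have h4 := hy.1
            rw [mem_product, Fintype.mem_piFinset, Fintype.mem_piFinset] at h4
            exact moment_eq D r (v j, e j) y.1 y.2
              (fun i => (cdD_mem_box _ _ _ (h4.1 i)).2.2)
              (fun i => (cdD_mem_box _ _ _ (h4.2 i)).2.2) hy.2
          exact_mod_cast card_le_card h3
        have hmin : 0 ≤ min ((X j : ℝ) ^ r) D :=
          le_min (by positivity) hD0.le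
        refine (mul_le_mul_of_nonneg_right h2 hmin).trans (h1.trans ?_)
        refine mul_le_mul_of_nonneg_right ?_ (by positivity)
        rw [hE]
        refine mul_le_mul (hCMle _ (he j).2 _ (by omega)) ?_ (by positivity) (by linarith)
        exact Real.rpow_le_rpow (by positivity)
          (mul_le_mul_of_nonneg_right (hXP j) hD0.le) (by positivity))
      (gval D s (w₁, w₂))
    have hsub : ((Fintype.piFinset (fun j => box (X j) D)).filter (fun x : ι → ℕ =>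
        (D : ℤ) ∣ ((w₁ * ∏ j, (if v j then x j ^ e j else 1) : ℕ) : ℤ) -
        s * ((w₂ * ∏ j, (if v j then 1 else x j ^ e j) : ℕ) : ℤ))) ⊆
        ((Fintype.piFinset (fun j => box (X j) D)).filter (fun x : ι → ℕ =>
          ∏ j, upow D (v j, e j) (x j) = gval D s (w₁, w₂))) := by
      intro x hx
      rw [mem_filter] at hx ⊢
      refine ⟨hx.1, ?_⟩
      have h4 := hx.1
      rw [Fintype.mem_piFinset] at h4
      exact prod_upow D s hs (fun j => (v j, e j)) x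
        (fun j => (cdD_mem_box _ _ _ (h4 j)).2.2) (w₁, w₂) hw1 hw2 hx.2
    have hcard : (((Fintype.piFinset (fun j => box (X j) D)).filter (fun x : ι → ℕ =>
        (D : ℤ) ∣ ((w₁ * ∏ j, (if v j then x j ^ e j else 1) : ℕ) : ℤ) -
        s * ((w₂ * ∏ j, (if v j then 1 else x j ^ e j) : ℕ) : ℤ))).card : ℝ) ≤
        (((Fintype.piFinset (fun j => box (X j) D)).filter (fun x : ι → ℕ =>
          ∏ j, upow D (v j, e j) (x j) = gval D s (w₁, w₂))).card : ℝ) := by
      exact_mod_cast card_le_card hsub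
    have hsav : 0 ≤ sav P D := by
      unfold sav
      exact le_min hD0.le (le_min (by positivity) (by positivity))
    refine (mul_le_mul_of_nonneg_right hcard hsav).trans ?_
    refine le_trans hgrp ?_
    refine mul_le_mul_of_nonneg_right ?_ hP0.le
    have h5 : (D : ℝ) ^ ((Fintype.card ι : ℝ) / (2 * R)) ≤ (D : ℝ) ^ (σ / 2) :=
      Real.rpow_le_rpow_of_exponent_le hD1 hR
    have h6 : (D : ℝ) ^ (σ / 2) ≤ (P * D) ^ (σ / 2) :=
      Real.rpow_le_rpow hD0.le (by nlinarith) (by positivity)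
    have h7 : (P * D) ^ σ = (P * D) ^ (σ / 2) * (P * D) ^ (σ / 2) := by
      rw [← Real.rpow_add (by positivity)]
      congr 1
      ring
    have h8 : (1 + (Fintype.card ι : ℝ) * (R + 1)) * E * (D : ℝ) ^ ((Fintype.card ι : ℝ) / (2 * R))
        ≤ (1 + (n : ℝ) * (R + 1)) * E * (P * D) ^ (σ / 2) :=
      mul_le_mul_of_nonneg_left (h5.trans h6) (by positivity)
    refine h8.trans ?_
    have h9 : (1 + (n : ℝ) * (R + 1)) * E * (P * D) ^ (σ / 2) =
        (1 + (n : ℝ) * (R + 1)) * C₂ * (P * D) ^ σ := by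
      rw [hE, h7]
      ring
    rw [h9]
    have h10 : 0 ≤ 2 * C₁ * (P * D) ^ σ := mul_nonneg (by linarith) hPDσ
    nlinarith

end Pool.Agent.Lib.MP_d8bd92_nt
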