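import Pool.Agent.Lib.MP_d8bd92_nt.LgDefs
import Pool.Agent.Lib.MP_d8bd92_nt.TfE
import Pool.Agent.Lib.MP_d8bd92_nt.LgD

set_option autoImplicit false

/-!
Row LgE: tuples in a congruence, with all savings.
-/

namespace Pool.Agent.Lib.MP_d8bd92_nt

open Finset Pool.Agent.Lib.Szpiro


open TfE CountFour in
/-- Row E. Adaptation of TfE (`tf_tuple`, helper70): replace `sav P D` by `W` with
`SavOK W P D` (`W ≤ D` is `hW.2 1`). -/
theorem lg_tuple (ι : Type) [Fintype ι] [DecidableEq ι] (K : ℕ) (σ : ℝ) (hσ : 0 < σ) :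
    ∃ C : ℝ, 1 ≤ C ∧ ∀ (D : ℕ) (W : ℝ) (X e : ι → ℕ) (v : ι → Bool) (w₁ w₂ : ℕ) (s : ℤ), 1 ≤ D →
    SavOK W (∏ j, (X j : ℝ)) D →
    (∀ j, 1 ≤ X j) → (∀ j, 1 ≤ e j ∧ e j < K) → (s = 1 ∨ s = -1) →
    Nat.Coprime w₁ D → Nat.Coprime w₂ D →
    (((Fintype.piFinset (fun j => box (X j) D)).filter (fun x : ι → ℕ =>
      (D : ℤ) ∣ ((w₁ * ∏ j, (if v j then x j ^ e j else 1) : ℕ) : ℤ) -
        s * ((w₂ * ∏ j, (if v j then 1 else x j ^ e j) : ℕ) : ℤ))).card : ℝ) * W ≤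
      C * ((∏ j, (X j : ℝ)) * D) ^ σ * ∏ j, (X j : ℝ) := by
  classical
  obtain ⟨C₁, hC₁, hroots⟩ := CdE1.card_roots K σ hσ
  set n : ℕ := Fintype.card ι with hn
  obtain ⟨R, hR1, hR⟩ : ∃ R : ℕ, 1 ≤ R ∧ (n : ℝ) / (2 * R) ≤ σ / 2 := by
    refine ⟨⌈(n : ℝ) / σ⌉₊ + 1, by omega, ?_⟩
    have h1 : (n : ℝ) / σ ≤ (⌈(n : ℝ) / σ⌉₊ : ℝ) := Nat.le_ceil _
    have h2 : (n : ℝ) ≤ (⌈(n : ℝ) / σ⌉₊ : ℝ) * σ := by rwa [div_le_iff₀ hσ] at h1
    rw [div_le_iff₀ (by positivity)]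
    push_cast
    nlinarith
  have hmom : ∀ e r : ℕ, ∃ C : ℝ, 1 ≤ C ∧ (1 ≤ e → 1 ≤ r → ∀ X D : ℕ, 1 ≤ X → 1 ≤ D →
    ((((Fintype.piFinset (fun _ : Fin r => box X D)) ×ˢ
      (Fintype.piFinset (fun _ : Fin r => box X D))).filter
      (fun y : (Fin r → ℕ) × (Fin r → ℕ) =>
        (∏ i, y.1 i) ^ e ≡ (∏ i, y.2 i) ^ e [MOD D])).card : ℝ) * min ((X : ℝ) ^ r) D ≤
      C * ((X : ℝ) * D) ^ (σ / 2) * (X : ℝ) ^ (2 * r)) := by
    intro e r
    by_cases h : 1 ≤ e ∧ 1 ≤ r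
    · obtain ⟨C, h1, h2⟩ := tf_moment e r h.1 h.2 (σ / 2) (by positivity)
      exact ⟨C, h1, fun _ _ => h2⟩
    · exact ⟨1, le_rfl, fun h1 h2 => absurd ⟨h1, h2⟩ h⟩
  choose CM hCM1 hCM using hmom
  set C₂ : ℝ := 1 + ∑ e ∈ range K, ∑ r ∈ range (R + 2), CM e r with hC₂
  have hCM0 : ∀ e r, 0 ≤ CM e r := fun e r => zero_le_one.trans (hCM1 e r)
  have hC₂1 : 1 ≤ C₂ := by
    have : 0 ≤ ∑ e ∈ range K, ∑ r ∈ range (R + 2), CM e r :=
      Finset.sum_nonneg fun e _ => Finset.sum_nonneg fun r _ => hCM0 e r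
    linarith
  have hCMle : ∀ e < K, ∀ r < R + 2, CM e r ≤ C₂ := by
    intro e he r hr
    have h1 : CM e r ≤ ∑ r ∈ range (R + 2), CM e r :=
      Finset.single_le_sum (f := CM e) (fun i _ => hCM0 e i) (mem_range.2 hr)
    have h2 : ∑ r ∈ range (R + 2), CM e r ≤ ∑ e ∈ range K, ∑ r ∈ range (R + 2), CM e r :=
      Finset.single_le_sum (f := fun e => ∑ r ∈ range (R + 2), CM e r)
        (fun i _ => Finset.sum_nonneg fun r _ => hCM0 i r) (mem_range.2 he)
    linarith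
  refine ⟨2 * C₁ + (1 + (n : ℝ) * (R + 1)) * C₂, ?_, ?_⟩
  · have h1 : 0 ≤ (1 + (n : ℝ) * (R + 1)) * C₂ := by positivity
    linarith
  intro D W X e v w₁ w₂ s hD hWok hX he hs hw1 hw2
  have hD0 : (0 : ℝ) < D := by exact_mod_cast hD
  have hD1 : (1 : ℝ) ≤ D := by exact_mod_cast hD
  have hXR : ∀ j, (1 : ℝ) ≤ X j := fun j => by exact_mod_cast hX j
  set P : ℝ := ∏ j, (X j : ℝ) with hP
  have hP1 : 1 ≤ P := by
    rw [hP]
    exact Finset.one_le_prod fun j _ => hXR j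
  have hP0 : 0 < P := zero_lt_one.trans_le hP1
  have hPD1 : 1 ≤ P * D := one_le_mul_of_one_le_of_one_le hP1 hD1
  have hA0 : 0 ≤ (1 + (n : ℝ) * (R + 1)) * C₂ := by positivity
  have hPDσ : 0 ≤ (P * D) ^ σ := Real.rpow_nonneg (by positivity) _
  by_cases hbig : ∃ j₀, D < X j₀
  · obtain ⟨j₀, hj₀⟩ := hbig
    have h1 := case_one K σ C₁ hC₁ hroots D X e v w₁ w₂ s hD hX he hs hw1 hw2 j₀ hj₀
    have h2 : W ≤ D := by
      have h20 := hWok.2 1 zero_le_one le_rfl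
      simpa using h20
    have h3 : (D : ℝ) ^ σ ≤ (P * D) ^ σ :=
      Real.rpow_le_rpow hD0.le (by nlinarith) hσ.le
    refine (mul_le_mul_of_nonneg_left h2 (Nat.cast_nonneg _)).trans (h1.trans ?_)
    rw [← hP]
    refine mul_le_mul_of_nonneg_right ?_ hP0.le
    have h4 : 2 * C₁ * (D : ℝ) ^ σ ≤ 2 * C₁ * (P * D) ^ σ :=
      mul_le_mul_of_nonneg_left h3 (by linarith)
    have h5 : 0 ≤ (1 + (n : ℝ) * (R + 1)) * C₂ * (P * D) ^ σ := mul_nonneg hA0 hPDσ
    nlinarith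
  · push Not at hbig
    have : NeZero D := ⟨by omega⟩
    set E : ℝ := C₂ * (P * D) ^ (σ / 2) with hE
    have hpow1 : 1 ≤ (P * D) ^ (σ / 2) := Real.one_le_rpow hPD1 (by positivity)
    have hE1 : 1 ≤ E := one_le_mul_of_one_le_of_one_le hC₂1 hpow1
    have hXP : ∀ j, (X j : ℝ) ≤ P := by
      intro j
      rw [hP, ← Finset.mul_prod_erase univ _ (mem_univ j)]
      have h1 : 1 ≤ ∏ i ∈ univ.erase j, (X i : ℝ) := Finset.one_le_prod fun i _ => hXR i
      have h2 := hXR j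
      nlinarith
    have hgrp := lg_group (ι := ι) (G := (ZMod D)ˣ) R hR1 (D : ℝ) E W hD1 hE1
      (fun j => box (X j) D) (fun j => (X j : ℝ)) hXR (fun j => by exact_mod_cast hbig j)
      hWok
      (fun j => by exact_mod_cast cdD_card_box (X j) D)
      (fun j => upow D (v j, e j)) (by
        intro j r hr1 hrR
        have h1 := hCM (e j) r (he j).1 hr1 (X j) D (hX j) hD
        have h2 : ((((Fintype.piFinset (fun _ : Fin r => box (X j) D)) ×ˢ
            (Fintype.piFinset (fun _ : Fin r => box (X j) D))).filter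
            (fun y : (Fin r → ℕ) × (Fin r → ℕ) =>
              ∏ i, upow D (v j, e j) (y.1 i) = ∏ i, upow D (v j, e j) (y.2 i))).card : ℝ) ≤
            ((((Fintype.piFinset (fun _ : Fin r => box (X j) D)) ×ˢ
            (Fintype.piFinset (fun _ : Fin r => box (X j) D))).filter
            (fun y : (Fin r → ℕ) × (Fin r → ℕ) =>
              (∏ i, y.1 i) ^ e j ≡ (∏ i, y.2 i) ^ e j [MOD D])).card : ℝ) := by
          have h3 : ((((Fintype.piFinset (fun _ : Fin r => box (X j) D)) ×ˢ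
            (Fintype.piFinset (fun _ : Fin r => box (X j) D))).filter
            (fun y : (Fin r → ℕ) × (Fin r → ℕ) =>
              ∏ i, upow D (v j, e j) (y.1 i) = ∏ i, upow D (v j, e j) (y.2 i)))) ⊆
            ((((Fintype.piFinset (fun _ : Fin r => box (X j) D)) ×ˢ
            (Fintype.piFinset (fun _ : Fin r => box (X j) D))).filter
            (fun y : (Fin r → ℕ) × (Fin r → ℕ) =>
              (∏ i, y.1 i) ^ e j ≡ (∏ i, y.2 i) ^ e j [MOD D]))) := by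
            intro y hy
            rw [mem_filter] at hy ⊢
            refine ⟨hy.1, ?_⟩
            have h4 := hy.1
            rw [mem_product, Fintype.mem_piFinset, Fintype.mem_piFinset] at h4
            exact moment_eq D r (v j, e j) y.1 y.2
              (fun i => (cdD_mem_box _ _ _ (h4.1 i)).2.2)
              (fun i => (cdD_mem_box _ _ _ (h4.2 i)).2.2) hy.2
          exact_mod_cast card_le_card h3
        have hmin : 0 ≤ min ((X j : ℝ) ^ r) D :=
          le_min (by positivity) hD0.le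
        refine (mul_le_mul_of_nonneg_right h2 hmin).trans (h1.trans ?_)
        refine mul_le_mul_of_nonneg_right ?_ (by positivity)
        rw [hE]
        refine mul_le_mul (hCMle _ (he j).2 _ (by omega)) ?_ (by positivity) (by linarith)
        exact Real.rpow_le_rpow (by positivity)
          (mul_le_mul_of_nonneg_right (hXP j) hD0.le) (by positivity))
      (gval D s (w₁, w₂))
    have hsub : ((Fintype.piFinset (fun j => box (X j) D)).filter (fun x : ι → ℕ =>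
        (D : ℤ) ∣ ((w₁ * ∏ j, (if v j then x j ^ e j else 1) : ℕ) : ℤ) -
        s * ((w₂ * ∏ j, (if v j then 1 else x j ^ e j) : ℕ) : ℤ))) ⊆
        ((Fintype.piFinset (fun j => box (X j) D)).filter (fun x : ι → ℕ =>
          ∏ j, upow D (v j, e j) (x j) = gval D s (w₁, w₂))) := by
      intro x hx
      rw [mem_filter] at hx ⊢
      refine ⟨hx.1, ?_⟩
      have h4 := hx.1
      rw [Fintype.mem_piFinset] at h4
      exact prod_upow D s hs (fun j => (v j, e j)) x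
        (fun j => (cdD_mem_box _ _ _ (h4 j)).2.2) (w₁, w₂) hw1 hw2 hx.2
    have hcard : (((Fintype.piFinset (fun j => box (X j) D)).filter (fun x : ι → ℕ =>
        (D : ℤ) ∣ ((w₁ * ∏ j, (if v j then x j ^ e j else 1) : ℕ) : ℤ) -
        s * ((w₂ * ∏ j, (if v j then 1 else x j ^ e j) : ℕ) : ℤ))).card : ℝ) ≤
        (((Fintype.piFinset (fun j => box (X j) D)).filter (fun x : ι → ℕ =>
          ∏ j, upow D (v j, e j) (x j) = gval D s (w₁, w₂))).card : ℝ) := by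
      exact_mod_cast card_le_card hsub
    have hsav : 0 ≤ W := hWok.1.le
    refine (mul_le_mul_of_nonneg_right hcard hsav).trans ?_
    refine le_trans hgrp ?_
    refine mul_le_mul_of_nonneg_right ?_ hP0.le
    have h5 : (D : ℝ) ^ ((Fintype.card ι : ℝ) / (2 * R)) ≤ (D : ℝ) ^ (σ / 2) :=
      Real.rpow_le_rpow_of_exponent_le hD1 hR
    have h6 : (D : ℝ) ^ (σ / 2) ≤ (P * D) ^ (σ / 2) :=
      Real.rpow_le_rpow hD0.le (by nlinarith) (by positivity)
    have h7 : (P * D) ^ σ = (P * D) ^ (σ / 2) * (P * D) ^ (σ / 2) := by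
      rw [← Real.rpow_add (by positivity)]
      congr 1
      ring
    have h8 : (1 + (Fintype.card ι : ℝ) * (R + 1)) * E * (D : ℝ) ^ ((Fintype.card ι : ℝ) / (2 * R))
        ≤ (1 + (n : ℝ) * (R + 1)) * E * (P * D) ^ (σ / 2) :=
      mul_le_mul_of_nonneg_left (h5.trans h6) (by positivity)
    refine h8.trans ?_
    have h9 : (1 + (n : ℝ) * (R + 1)) * E * (P * D) ^ (σ / 2) =
        (1 + (n : ℝ) * (R + 1)) * C₂ * (P * D) ^ σ := by
      rw [hE, h7]
      ring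
    rw [h9]
    have h10 : 0 ≤ 2 * C₁ * (P * D) ^ σ := mul_nonneg (by linarith) hPDσ
    nlinarith

end Pool.Agent.Lib.MP_d8bd92_nt
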