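import Pool.Agent.Lib.MP_d8bd92_nt.LgDefs
import Pool.Agent.Lib.MP_d8bd92_nt.TfF
import Pool.Agent.Lib.MP_d8bd92_nt.LgE

set_option autoImplicit false

namespace Pool.Agent.Lib.MP_d8bd92_nt

open Finset Pool.Agent.Lib.Szpiro


namespace LgF

open TfF

/-- the saving for a smaller product -/
theorem savOK_mono {W P R D : ℝ} (hP : 0 < P) (hPR : P ≤ R) (hD : 0 < D) (h : SavOK W R D) :
    SavOK (W * (P / R)) P D := by
  have hR : 0 < R := hP.trans_le hPR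
  have hq : 0 < P / R := div_pos hP hR
  have hq1 : P / R ≤ 1 := (div_le_one hR).2 hPR
  refine ⟨mul_pos h.1 hq, fun μ h0 h1 => ?_⟩
  have he0 : 0 ≤ (1 - μ) / (2 * (1 + μ)) := div_nonneg (by linarith) (by linarith)
  have he1 : (1 - μ) / (2 * (1 + μ)) ≤ 1 := by
    rw [div_le_one (by linarith)]
    linarith
  set e : ℝ := (1 - μ) / (2 * (1 + μ)) with he
  have h2 : P / R ≤ (P / R) ^ e := by
    calc P / R = (P / R) ^ (1 : ℝ) := (Real.rpow_one _).symm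
      _ ≤ (P / R) ^ e := Real.rpow_le_rpow_of_exponent_ge hq hq1 he1
  have h3 : R ^ e * (P / R) ^ e = P ^ e := by
    rw [← Real.mul_rpow hR.le hq.le, mul_div_cancel₀ _ hR.ne']
  calc W * (P / R) ≤ (R ^ e * D ^ μ) * (P / R) ^ e :=
        mul_le_mul (h.2 μ h0 h1) h2 hq.le (by positivity)
    _ = (R ^ e * (P / R) ^ e) * D ^ μ := by ring
    _ = P ^ e * D ^ μ := by rw [h3]

/-- one class -/
theorem one_class (K : ℕ) (hK : 2 ≤ K) (σ : ℝ) (hσ : 0 < σ) : ∃ C : ℝ, 1 ≤ C ∧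
    ∀ (Z : ℕ) (s : ℤ) (Q : ℝ) (S : Finset (ℕ × ℕ)) (α : Bool × Fin (K - 1) → ℕ),
    1 ≤ Z → 0 ≤ Q → (s = 1 ∨ s = -1) →
    (∀ q ∈ S, 1 ≤ q.1 ∧ q.1 ≤ Z ∧ 1 ≤ q.2 ∧ q.2 ≤ Z ∧ (q.1 : ℤ) ≠ s * q.2 ∧
      EvModW Q s q.1 q.2 ∧ ∀ j, Nat.log 2 (xv q j) = α j) →
    (S.card : ℝ) ≤ C * ((Z : ℝ) ^ (6 * σ) * ((Z : ℝ) ^ (1 / (K : ℝ))) ^ 2) * Q := by
  classical
  obtain ⟨C₁, hC₁, h₁⟩ := lg_tuple (Bool × Fin (K - 1)) K σ hσ
  obtain ⟨C₂, hC₂, h₂⟩ := card_rd_le σ hσ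
  obtain ⟨C₃, hC₃, h₃⟩ := sum_inv_rd σ hσ
  set c : ℝ := (2 : ℝ) ^ σ with hc
  have hc1 : 1 ≤ c := Real.one_le_rpow (by norm_num) hσ.le
  refine ⟨C₂ ^ 2 * (C₁ * c) * (C₃ * c), ?_, ?_⟩
  · exact one_le_mul_of_one_le_of_one_le (one_le_mul_of_one_le_of_one_le (one_le_pow₀ hC₂)
      (one_le_mul_of_one_le_of_one_le hC₁ hc1)) (one_le_mul_of_one_le_of_one_le hC₃ hc1)
  intro Z s Q S α hZ hQ hs hS
  have hZ1 : (1 : ℝ) ≤ Z := by exact_mod_cast hZ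
  have hZ0 : (0 : ℝ) < Z := by linarith
  rcases Finset.eq_empty_or_nonempty S with he | ⟨q₀, hq₀⟩
  · rw [he, Finset.card_empty, Nat.cast_zero]
    positivity
  set X : Bool × Fin (K - 1) → ℕ := fun j => 2 ^ α j with hX
  set P : ℝ := ∏ j, (X j : ℝ) with hP
  have hX1 : ∀ j, 1 ≤ X j := fun j => Nat.one_le_two_pow
  have hP1 : 1 ≤ P := by
    rw [hP]
    have : ∀ j ∈ (univ : Finset (Bool × Fin (K - 1))), (1 : ℝ) ≤ (X j : ℝ) := fun j _ => by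
      exact_mod_cast hX1 j
    calc (1 : ℝ) = ∏ j : Bool × Fin (K - 1), (1 : ℝ) := by simp
      _ ≤ _ := Finset.prod_le_prod (fun _ _ => zero_le_one) this
  have hP0 : 0 < P := by linarith
  have hdy : ∀ y : ℕ, 0 < y → 2 ^ Nat.log 2 y ≤ y ∧ y < 2 * 2 ^ Nat.log 2 y := by
    intro y hy
    refine ⟨Nat.pow_log_le_self 2 hy.ne', ?_⟩
    have := Nat.lt_pow_succ_log_self (b := 2) (by norm_num) y
    rw [pow_succ] at this
    omega
  have hxb : ∀ q ∈ S, ∀ j, X j ≤ xv q j ∧ xv q j < 2 * X j := by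
    intro q hq j
    have h := hdy (xv q j) (xpart_pos _ _)
    have h2 := (hS q hq).2.2.2.2.2.2 j
    rw [h2] at h
    exact h
  -- the product of the dyadic sizes is at most the product of the radicals
  have hPR : ∀ q ∈ S, P ≤ (rd q.1 : ℝ) * rd q.2 := by
    intro q hq
    obtain ⟨a1, a2, a3, a4, -⟩ := hS q hq
    obtain ⟨w₁, b1, b2, b3, b4, b5, b6⟩ := split hK a1 a2
    obtain ⟨w₂, c1, c2, c3, c4, c5, c6⟩ := split hK a3 a4
    have h1 : ∏ j, X j ≤ rd q.1 * rd q.2 := by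
      calc ∏ j, X j ≤ ∏ j, xv q j := Finset.prod_le_prod' fun j _ => (hxb q hq j).1
        _ = (∏ i : Fin (K - 1), xpart q.1 (i + 1)) * ∏ i : Fin (K - 1), xpart q.2 (i + 1) := by
            rw [prod_both]
            rfl
        _ ≤ rd q.1 * rd q.2 := by
            rw [b6, c6]
            refine Nat.mul_le_mul ?_ ?_
            · exact Nat.le_mul_of_pos_left _ (TfF.rd_pos w₁)
            · exact Nat.le_mul_of_pos_left _ (TfF.rd_pos w₂)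
    have h2 : ((∏ j, X j : ℕ) : ℝ) ≤ ((rd q.1 * rd q.2 : ℕ) : ℝ) := by exact_mod_cast h1
    push_cast at h2
    rw [hP]
    exact h2
  have hPZ : P ≤ (Z : ℝ) ^ 2 := by
    obtain ⟨a1, a2, a3, a4, -⟩ := hS q₀ hq₀
    refine (hPR q₀ hq₀).trans ?_
    have e1 : (rd q₀.1 : ℝ) ≤ Z := by exact_mod_cast (rd_le a1).trans a2
    have e2 : (rd q₀.2 : ℝ) ≤ Z := by exact_mod_cast (rd_le a3).trans a4
    rw [sq]
    exact mul_le_mul e1 e2 (Nat.cast_nonneg _) hZ0.le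
  set 𝒟 : Finset ℕ := (Icc 1 (2 * Z)).filter (fun D => ∃ V : ℝ, SavOK V P D ∧ (rd D : ℝ) * P ≤ Q * V) with h𝒟
  set W : Finset ℕ := (Icc 1 Z).filter (fun w => (rd w : ℝ) ≤ (Z : ℝ) ^ (1 / (K : ℝ))) with hW
  set tup : ℕ → ℕ → ℕ → Finset (Bool × Fin (K - 1) → ℕ) := fun D w₁ w₂ =>
    (Fintype.piFinset (fun j => box (X j) D)).filter (fun x : Bool × Fin (K - 1) → ℕ =>
      (D : ℤ) ∣ ((w₁ * ∏ j, (if j.1 then x j ^ ((j.2 : ℕ) + 1) else 1) : ℕ) : ℤ) -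
        s * ((w₂ * ∏ j, (if j.1 then 1 else x j ^ ((j.2 : ℕ) + 1)) : ℕ) : ℤ)) with htup
  set F : ℕ → ℕ → (Bool × Fin (K - 1) → ℕ) → ℕ × ℕ := fun w₁ w₂ x =>
    (w₁ * ∏ j, (if j.1 then x j ^ ((j.2 : ℕ) + 1) else 1),
      w₂ * ∏ j, (if j.1 then 1 else x j ^ ((j.2 : ℕ) + 1))) with hF
  have hsub : S ⊆ 𝒟.biUnion fun D => (W.filter fun w => Nat.Coprime w D).biUnion fun w₁ =>
      (W.filter fun w => Nat.Coprime w D).biUnion fun w₂ => (tup D w₁ w₂).image (F w₁ w₂) := by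
    intro q hq
    obtain ⟨a1, a2, a3, a4, a5, ⟨D, V, d1, d2, d3, d5, d4⟩, a7⟩ := hS q hq
    obtain ⟨w₁, b1, b2, b3, b4, b5, b6⟩ := split hK a1 a2
    obtain ⟨w₂, c1, c2, c3, c4, c5, c6⟩ := split hK a3 a4
    have hD0 : (0 : ℝ) < D := by exact_mod_cast d1
    have hDcop1 : Nat.Coprime q.1 D := (Nat.Coprime.coprime_mul_right_right d2).symm
    have hDcop2 : Nat.Coprime q.2 D := (Nat.Coprime.coprime_mul_left_right d2).symm
    have hD2Z : D ≤ 2 * Z := by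
      have hne : (q.1 : ℤ) - s * q.2 ≠ 0 := sub_ne_zero.2 a5
      have h1 := Int.le_of_dvd (abs_pos.2 hne) ((dvd_abs _ _).2 d3)
      have h2 : |(q.1 : ℤ) - s * q.2| ≤ 2 * Z := by
        rcases hs with rfl | rfl
        · rw [abs_le]
          constructor <;> nlinarith [(by exact_mod_cast a2 : (q.1 : ℤ) ≤ Z),
            (by exact_mod_cast a4 : (q.2 : ℤ) ≤ Z), (by positivity : (0 : ℤ) ≤ q.1),
            (by positivity : (0 : ℤ) ≤ q.2)]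
        · rw [abs_le]
          constructor <;> nlinarith [(by exact_mod_cast a2 : (q.1 : ℤ) ≤ Z),
            (by exact_mod_cast a4 : (q.2 : ℤ) ≤ Z), (by positivity : (0 : ℤ) ≤ q.1),
            (by positivity : (0 : ℤ) ≤ q.2)]
      have h3 : (D : ℤ) ≤ 2 * Z := h1.trans h2
      exact_mod_cast h3
    have hDmem : D ∈ 𝒟 := by
      rw [h𝒟, Finset.mem_filter, Finset.mem_Icc]
      refine ⟨⟨d1, hD2Z⟩, ?_⟩
      set R : ℝ := (rd q.1 : ℝ) * rd q.2 with hR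
      have hPR' : P ≤ R := hPR q hq
      have hR0 : 0 < R := hP0.trans_le hPR'
      refine ⟨V * (P / R), savOK_mono hP0 hPR' hD0 d5, ?_⟩
      have hq : 0 < P / R := div_pos hP0 hR0
      calc (rd D : ℝ) * P = ((rd D : ℝ) * R) * (P / R) := by
            field_simp
        _ ≤ (Q * V) * (P / R) := mul_le_mul_of_nonneg_right d4 hq.le
        _ = Q * (V * (P / R)) := by ring
    have hF1 : F w₁ w₂ (xv q) = q := by
      have e1 : w₁ * ∏ j : Bool × Fin (K - 1), (if j.1 then xv q j ^ ((j.2 : ℕ) + 1) else 1) = q.1 := by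
        rw [prod_true (fun j => xv q j ^ ((j.2 : ℕ) + 1))]
        exact b5.symm
      have e2 : w₂ * ∏ j : Bool × Fin (K - 1), (if j.1 then 1 else xv q j ^ ((j.2 : ℕ) + 1)) = q.2 := by
        rw [prod_false (fun j => xv q j ^ ((j.2 : ℕ) + 1))]
        exact c5.symm
      exact Prod.ext e1 e2
    rw [Finset.mem_biUnion]
    refine ⟨D, hDmem, ?_⟩
    rw [Finset.mem_biUnion]
    refine ⟨w₁, ?_, ?_⟩
    · rw [Finset.mem_filter, hW, Finset.mem_filter, Finset.mem_Icc]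
      exact ⟨⟨⟨b1, b2⟩, b3⟩, Nat.Coprime.coprime_dvd_left b4 hDcop1⟩
    rw [Finset.mem_biUnion]
    refine ⟨w₂, ?_, ?_⟩
    · rw [Finset.mem_filter, hW, Finset.mem_filter, Finset.mem_Icc]
      exact ⟨⟨⟨c1, c2⟩, c3⟩, Nat.Coprime.coprime_dvd_left c4 hDcop2⟩
    rw [Finset.mem_image]
    refine ⟨xv q, ?_, hF1⟩
    rw [htup, Finset.mem_filter, Fintype.mem_piFinset]
    refine ⟨fun j => ?_, ?_⟩
    · unfold box
      rw [Finset.mem_filter, Finset.mem_Ico]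
      refine ⟨hxb q hq j, ?_⟩
      have hx : xv q j ∣ (if j.1 then q.1 else q.2) :=
        (dvd_pow_self _ (by omega)).trans (xpart_pow_dvd _ _)
      refine Nat.Coprime.coprime_dvd_left hx ?_
      split_ifs
      · exact hDcop1
      · exact hDcop2
    · have h1 := congrArg Prod.fst hF1
      have h2 := congrArg Prod.snd hF1
      simp only [hF] at h1 h2
      rw [h1, h2]
      exact d3
  -- the count for one triple
  have htupc : ∀ D ∈ 𝒟, ∀ w₁ ∈ W.filter (fun w => Nat.Coprime w D),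
      ∀ w₂ ∈ W.filter (fun w => Nat.Coprime w D),
      ((tup D w₁ w₂).card : ℝ) ≤ C₁ * c * (Z : ℝ) ^ (3 * σ) * Q * ((rd D : ℝ))⁻¹ := by
    intro D hD w₁ hw₁ w₂ hw₂
    rw [h𝒟, Finset.mem_filter, Finset.mem_Icc] at hD
    obtain ⟨⟨hD1, hD2⟩, V, hV, hD3⟩ := hD
    have hD0 : (0 : ℝ) < D := by exact_mod_cast hD1
    have hsP := hV.1
    have hrd : (0 : ℝ) < rd D := by exact_mod_cast TfF.rd_pos D
    have h := h₁ D V X (fun j => (j.2 : ℕ) + 1) (fun j => j.1) w₁ w₂ s hD1 hV hX1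
      (fun j => ⟨by omega, by have := j.2.2; omega⟩) hs (Finset.mem_filter.1 hw₁).2
      (Finset.mem_filter.1 hw₂).2
    have h' : ((tup D w₁ w₂).card : ℝ) * V ≤ C₁ * (P * D) ^ σ * P := h
    have hPD : (P * D) ^ σ ≤ c * (Z : ℝ) ^ (3 * σ) := by
      have e1 : P * D ≤ 2 * (Z : ℝ) ^ (3 : ℝ) := by
        have e2 : (D : ℝ) ≤ 2 * Z := by exact_mod_cast hD2
        have e3 : (Z : ℝ) ^ (3 : ℝ) = (Z : ℝ) ^ 2 * Z := by
          rw [show (3 : ℝ) = ((3 : ℕ) : ℝ) by norm_num, Real.rpow_natCast]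
          ring
        rw [e3]
        calc P * D ≤ (Z : ℝ) ^ 2 * (2 * Z) := mul_le_mul hPZ e2 hD0.le (by positivity)
          _ = _ := by ring
      calc (P * D) ^ σ ≤ (2 * (Z : ℝ) ^ (3 : ℝ)) ^ σ :=
            Real.rpow_le_rpow (by positivity) e1 hσ.le
        _ = c * (Z : ℝ) ^ (3 * σ) := by
            rw [Real.mul_rpow (by norm_num) (by positivity), ← Real.rpow_mul hZ0.le]
    have h2 : ((tup D w₁ w₂).card : ℝ) * V * rd D ≤
        C₁ * (c * (Z : ℝ) ^ (3 * σ)) * (Q * V) := by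
      calc ((tup D w₁ w₂).card : ℝ) * V * rd D ≤ (C₁ * (P * D) ^ σ * P) * rd D :=
            mul_le_mul_of_nonneg_right h' hrd.le
        _ = C₁ * (P * D) ^ σ * ((rd D : ℝ) * P) := by ring
        _ ≤ C₁ * (c * (Z : ℝ) ^ (3 * σ)) * (Q * V) := by
            refine mul_le_mul (mul_le_mul_of_nonneg_left hPD (by linarith)) hD3 (by positivity)
              (by positivity)
    have h3 : ((tup D w₁ w₂).card : ℝ) * rd D ≤ C₁ * (c * (Z : ℝ) ^ (3 * σ)) * Q := by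
      refine le_of_mul_le_mul_right ?_ hsP
      calc ((tup D w₁ w₂).card : ℝ) * rd D * V = ((tup D w₁ w₂).card : ℝ) * V * rd D := by
            ring
        _ ≤ _ := h2
        _ = _ := by ring
    rw [← div_eq_mul_inv, le_div_iff₀ hrd]
    calc ((tup D w₁ w₂).card : ℝ) * rd D ≤ C₁ * (c * (Z : ℝ) ^ (3 * σ)) * Q := h3
      _ = _ := by ring
  have hWc : (W.card : ℝ) ≤ C₂ * (Z : ℝ) ^ σ * (Z : ℝ) ^ (1 / (K : ℝ)) :=
    h₂ Z _ hZ (by positivity)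
  set A : ℝ := C₁ * c * (Z : ℝ) ^ (3 * σ) * Q with hA
  have hA0 : 0 ≤ A := by positivity
  have hcard : (S.card : ℝ) ≤ ∑ D ∈ 𝒟, (W.card : ℝ) * ((W.card : ℝ) * (A * ((rd D : ℝ))⁻¹)) := by
    have h1 := Finset.card_le_card hsub
    have h2 : ((𝒟.biUnion fun D => (W.filter fun w => Nat.Coprime w D).biUnion fun w₁ =>
      (W.filter fun w => Nat.Coprime w D).biUnion fun w₂ =>
        (tup D w₁ w₂).image (F w₁ w₂)).card : ℝ) ≤
        ∑ D ∈ 𝒟, (W.card : ℝ) * ((W.card : ℝ) * (A * ((rd D : ℝ))⁻¹)) := by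
      refine (Nat.cast_le.2 Finset.card_biUnion_le).trans ?_
      rw [Nat.cast_sum]
      refine Finset.sum_le_sum fun D hD => ?_
      refine (Nat.cast_le.2 Finset.card_biUnion_le).trans ?_
      rw [Nat.cast_sum]
      refine (Finset.sum_le_card_nsmul _ _ ((W.card : ℝ) * (A * ((rd D : ℝ))⁻¹)) ?_).trans ?_
      · intro w₁ hw₁
        refine (Nat.cast_le.2 Finset.card_biUnion_le).trans ?_
        rw [Nat.cast_sum]
        refine (Finset.sum_le_card_nsmul _ _ (A * ((rd D : ℝ))⁻¹) ?_).trans ?_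
        · intro w₂ hw₂
          refine (Nat.cast_le.2 Finset.card_image_le).trans ?_
          exact htupc D hD w₁ hw₁ w₂ hw₂
        · rw [nsmul_eq_mul]
          refine mul_le_mul_of_nonneg_right ?_ (by positivity)
          exact_mod_cast Finset.card_filter_le _ _
      · rw [nsmul_eq_mul]
        refine mul_le_mul_of_nonneg_right ?_ (by positivity)
        exact_mod_cast Finset.card_filter_le _ _
    exact (Nat.cast_le.2 h1).trans h2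
  have hsumD : ∑ D ∈ 𝒟, ((rd D : ℝ))⁻¹ ≤ C₃ * (c * (Z : ℝ) ^ σ) := by
    calc ∑ D ∈ 𝒟, ((rd D : ℝ))⁻¹ ≤ ∑ D ∈ Icc 1 (2 * Z), ((rd D : ℝ))⁻¹ :=
          Finset.sum_le_sum_of_subset_of_nonneg (Finset.filter_subset _ _)
            (fun _ _ _ => by positivity)
      _ ≤ C₃ * ((2 * Z : ℕ) : ℝ) ^ σ := h₃ (2 * Z) (by omega)
      _ = C₃ * (c * (Z : ℝ) ^ σ) := by
          push_cast
          rw [Real.mul_rpow (by norm_num) hZ0.le]
  have hzz : (Z : ℝ) ^ σ * (Z : ℝ) ^ σ * (Z : ℝ) ^ (3 * σ) * (Z : ℝ) ^ σ = (Z : ℝ) ^ (6 * σ) := by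
    rw [← Real.rpow_add hZ0, ← Real.rpow_add hZ0, ← Real.rpow_add hZ0]
    congr 1
    ring
  calc (S.card : ℝ) ≤ ∑ D ∈ 𝒟, (W.card : ℝ) * ((W.card : ℝ) * (A * ((rd D : ℝ))⁻¹)) := hcard
    _ = (W.card : ℝ) * (W.card : ℝ) * A * ∑ D ∈ 𝒟, ((rd D : ℝ))⁻¹ := by
        rw [Finset.mul_sum]
        refine Finset.sum_congr rfl fun D _ => ?_
        ring
    _ ≤ (C₂ * (Z : ℝ) ^ σ * (Z : ℝ) ^ (1 / (K : ℝ))) * (C₂ * (Z : ℝ) ^ σ * (Z : ℝ) ^ (1 / (K : ℝ))) *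
          A * (C₃ * (c * (Z : ℝ) ^ σ)) := by
        gcongr
    _ = C₂ ^ 2 * (C₁ * c) * (C₃ * c) * (((Z : ℝ) ^ σ * (Z : ℝ) ^ σ * (Z : ℝ) ^ (3 * σ) * (Z : ℝ) ^ σ) *
          ((Z : ℝ) ^ (1 / (K : ℝ))) ^ 2) * Q := by
        rw [hA]
        ring
    _ = _ := by rw [hzz]

end LgF

/-- Row F. Pairs with a good divisor of the difference -/
theorem card_evModW (σ : ℝ) (hσ : 0 < σ) : ∃ C : ℝ, 1 ≤ C ∧ ∀ (Z : ℕ) (s : ℤ) (Q : ℝ)
    (S : Finset (ℕ × ℕ)), 1 ≤ Z → 0 ≤ Q → (s = 1 ∨ s = -1) →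
    (∀ q ∈ S, 1 ≤ q.1 ∧ q.1 ≤ Z ∧ 1 ≤ q.2 ∧ q.2 ≤ Z ∧ (q.1 : ℤ) ≠ s * q.2 ∧
      EvModW Q s q.1 q.2) →
    (S.card : ℝ) ≤ C * (Z : ℝ) ^ σ * Q := by
  classical
  set K : ℕ := ⌈16 / σ⌉₊ + 2 with hKdef
  have hK : 2 ≤ K := by omega
  have hK0 : (0 : ℝ) < K := by exact_mod_cast (by omega : 0 < K)
  have hKσ : 1 / (K : ℝ) ≤ σ / 16 := by
    have h1 : 16 / σ ≤ (K : ℝ) := by
      refine (Nat.le_ceil _).trans ?_
      rw [hKdef]
      push_cast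
      linarith
    rw [div_le_iff₀ hK0]
    rw [div_le_iff₀ hσ] at h1
    linarith
  obtain ⟨C₁, hC₁, h₁⟩ := LgF.one_class K hK (σ / 16) (by positivity)
  obtain ⟨C₂, hC₂, h₂⟩ := I1_log (σ / (16 * K)) (by positivity)
  refine ⟨C₂ ^ (2 * (K - 1)) * C₁, one_le_mul_of_one_le_of_one_le (one_le_pow₀ hC₂) hC₁, ?_⟩
  intro Z s Q S hZ hQ hs hS
  have hZ1 : (1 : ℝ) ≤ Z := by exact_mod_cast hZ
  have hZ0 : (0 : ℝ) < Z := by linarith
  set I : Finset (Bool × Fin (K - 1) → ℕ) :=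
    Fintype.piFinset (fun _ => range (Nat.log 2 Z + 1)) with hI
  have hsub : S ⊆ I.biUnion fun α => S.filter fun q => ∀ j, Nat.log 2 (TfF.xv q j) = α j := by
    intro q hq
    rw [Finset.mem_biUnion]
    refine ⟨fun j => Nat.log 2 (TfF.xv q j), ?_, ?_⟩
    · rw [hI, Fintype.mem_piFinset]
      intro j
      rw [Finset.mem_range]
      refine Nat.lt_succ_iff.2 (Nat.log_mono_right ?_)
      obtain ⟨a1, a2, a3, a4, -⟩ := hS q hq
      have hx : TfF.xv q j ∣ (if j.1 then q.1 else q.2) :=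
        (dvd_pow_self _ (by omega)).trans (xpart_pow_dvd _ _)
      have hle : (if j.1 then q.1 else q.2) ≤ Z := by
        split_ifs
        · exact a2
        · exact a4
      have hpos : 0 < (if j.1 then q.1 else q.2) := by
        split_ifs
        · exact a1
        · exact a3
      exact (Nat.le_of_dvd hpos hx).trans hle
    · rw [Finset.mem_filter]
      exact ⟨hq, fun j => rfl⟩
  have hone : ∀ α ∈ I, ((S.filter fun q => ∀ j, Nat.log 2 (TfF.xv q j) = α j).card : ℝ) ≤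
      C₁ * ((Z : ℝ) ^ (6 * (σ / 16)) * ((Z : ℝ) ^ (1 / (K : ℝ))) ^ 2) * Q := by
    intro α _
    refine h₁ Z s Q _ α hZ hQ hs fun q hq => ?_
    obtain ⟨hq1, hq2⟩ := Finset.mem_filter.1 hq
    obtain ⟨a1, a2, a3, a4, a5, a6⟩ := hS q hq1
    exact ⟨a1, a2, a3, a4, a5, a6, hq2⟩
  have hcard : (S.card : ℝ) ≤ (I.card : ℝ) *
      (C₁ * ((Z : ℝ) ^ (6 * (σ / 16)) * ((Z : ℝ) ^ (1 / (K : ℝ))) ^ 2) * Q) := by
    calc (S.card : ℝ) ≤ ((I.biUnion fun α => S.filter fun q =>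
          ∀ j, Nat.log 2 (TfF.xv q j) = α j).card : ℝ) := by
          exact_mod_cast Finset.card_le_card hsub
      _ ≤ ∑ α ∈ I, ((S.filter fun q => ∀ j, Nat.log 2 (TfF.xv q j) = α j).card : ℝ) := by
          exact_mod_cast Finset.card_biUnion_le
      _ ≤ ∑ _α ∈ I, C₁ * ((Z : ℝ) ^ (6 * (σ / 16)) * ((Z : ℝ) ^ (1 / (K : ℝ))) ^ 2) * Q :=
          Finset.sum_le_sum hone
      _ = _ := by rw [Finset.sum_const, nsmul_eq_mul]
  have hIcard : (I.card : ℝ) ≤ (C₂ * (Z : ℝ) ^ (σ / (16 * K))) ^ (2 * (K - 1)) := by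
    rw [hI, Fintype.card_piFinset]
    simp only [Finset.card_range, Finset.prod_const, Finset.card_univ, Fintype.card_prod,
      Fintype.card_bool, Fintype.card_fin]
    push_cast
    exact pow_le_pow_left₀ (by positivity) (h₂ Z hZ) _
  have hIZ : ((Z : ℝ) ^ (σ / (16 * K))) ^ (2 * (K - 1)) ≤ (Z : ℝ) ^ (σ / 8) := by
    rw [← Real.rpow_natCast, ← Real.rpow_mul hZ0.le]
    refine Real.rpow_le_rpow_of_exponent_le hZ1 ?_
    have h1 : ((2 * (K - 1) : ℕ) : ℝ) ≤ 2 * K := by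
      exact_mod_cast (by omega : 2 * (K - 1) ≤ 2 * K)
    calc σ / (16 * K) * ((2 * (K - 1) : ℕ) : ℝ) ≤ σ / (16 * K) * (2 * K) :=
          mul_le_mul_of_nonneg_left h1 (by positivity)
      _ = σ / 8 := by
          field_simp
          ring
  have hKZ : ((Z : ℝ) ^ (1 / (K : ℝ))) ^ 2 ≤ (Z : ℝ) ^ (σ / 8) := by
    rw [← Real.rpow_natCast, ← Real.rpow_mul hZ0.le]
    refine Real.rpow_le_rpow_of_exponent_le hZ1 ?_
    push_cast
    linarith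
  have hfin : (Z : ℝ) ^ (σ / 8) * ((Z : ℝ) ^ (6 * (σ / 16)) * (Z : ℝ) ^ (σ / 8)) ≤ (Z : ℝ) ^ σ := by
    rw [← Real.rpow_add hZ0, ← Real.rpow_add hZ0]
    refine Real.rpow_le_rpow_of_exponent_le hZ1 ?_
    linarith
  calc (S.card : ℝ) ≤ (I.card : ℝ) *
        (C₁ * ((Z : ℝ) ^ (6 * (σ / 16)) * ((Z : ℝ) ^ (1 / (K : ℝ))) ^ 2) * Q) := hcard
    _ ≤ (C₂ * (Z : ℝ) ^ (σ / (16 * K))) ^ (2 * (K - 1)) *
        (C₁ * ((Z : ℝ) ^ (6 * (σ / 16)) * ((Z : ℝ) ^ (1 / (K : ℝ))) ^ 2) * Q) :=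
        mul_le_mul_of_nonneg_right hIcard (by positivity)
    _ = C₂ ^ (2 * (K - 1)) * C₁ * (((Z : ℝ) ^ (σ / (16 * K))) ^ (2 * (K - 1)) *
        ((Z : ℝ) ^ (6 * (σ / 16)) * ((Z : ℝ) ^ (1 / (K : ℝ))) ^ 2)) * Q := by
        rw [mul_pow]
        ring
    _ ≤ C₂ ^ (2 * (K - 1)) * C₁ * ((Z : ℝ) ^ (σ / 8) *
        ((Z : ℝ) ^ (6 * (σ / 16)) * (Z : ℝ) ^ (σ / 8))) * Q := by
        gcongr
    _ ≤ C₂ ^ (2 * (K - 1)) * C₁ * (Z : ℝ) ^ σ * Q := by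
        gcongr

end Pool.Agent.Lib.MP_d8bd92_nt
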