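import Pool.Agent.Lib.MP_d8bd92_nt.TfDefs

set_option autoImplicit false

/-!
Row N: the inequality between the exponents.
-/

namespace Pool.Agent.Lib.MP_d8bd92_nt

open Finset Pool.Agent.Lib.Szpiro

namespace TfN

/-- a threshold crossing -/
theorem cross (F : ℕ → ℝ) (c : ℝ) (a b : ℕ) (hab : a ≤ b) (ha : c < F a) (hb : F b ≤ c) :
    ∃ j, a ≤ j ∧ j < b ∧ c < F j ∧ F (j + 1) ≤ c := by
  by_contra hcon
  push Not at hcon
  have h : ∀ n, a ≤ n → n ≤ b → c < F n := by
    intro n hn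
    induction n, hn using Nat.le_induction with
    | base => intro _; exact ha
    | succ n hn ih =>
      intro hnb
      exact hcon n hn (by omega) (ih (by omega))
  exact absurd (h b hab le_rfl) (not_lt.2 hb)

end TfN

theorem tf_shape (K : ℕ) (hK : 3 ≤ K) (ζ : ℕ → ℝ) (ω ϖ S : ℝ) (hζ : ∀ k, 0 ≤ ζ k) (hω : 0 ≤ ω)
    (hϖ : 0 ≤ ϖ) (hϖ' : ϖ ≤ 1 / 5000)
    (h1 : ∑ k ∈ Ico 1 K, ζ k + ϖ + S ≤ 1)
    (h2 : 1 - 1 / 5000 ≤ ∑ k ∈ Ico 1 K, (k : ℝ) * ζ k + ω)
    (hS : 5995 / 10000 ≤ S) (hS' : S ≤ 801 / 1000) :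
    (∃ k, 3 ≤ k ∧ k < K ∧ 591 / 1000 - S / 2 ≤ ζ k) ∨
    (∃ j, 3 ≤ j ∧ j ≤ K ∧ (∑ k ∈ Ico j K, ζ k + ϖ) + S ≤ 5995 / 10000 +
      min (∑ k ∈ Ico j K, (k : ℝ) * ζ k + ω)
        (min (S / 6 + (∑ k ∈ Ico j K, (k : ℝ) * ζ k + ω) / 3) (S / 2))) ∨
    (∃ j, 3 ≤ j ∧ j < K ∧ ζ j + S ≤ 5995 / 10000 +
      min ((j : ℝ) * ζ j) (min (S / 6 + (j : ℝ) * ζ j / 3) (S / 2))) := by
  by_contra hcon
  push Not at hcon
  obtain ⟨hA, hB, hC⟩ := hcon
  -- notation
  set Cf : ℕ → ℝ := fun j => ∑ k ∈ Ico j K, ζ k + ϖ with hCf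
  set df : ℕ → ℝ := fun j => ∑ k ∈ Ico j K, (k : ℝ) * ζ k + ω with hdf
  set G : ℝ := S - 5995 / 10000 with hG
  -- criteria
  have hB' : ∀ j, 3 ≤ j → j ≤ K → Cf j + G ≤ S / 2 → Cf j + G ≤ df j →
      6 * (Cf j + G) ≤ S + 2 * df j → False := by
    intro j hj hjK g1 g2 g3
    have h := hB j hj hjK
    refine absurd h (not_lt.2 ?_)
    have e1 : (Cf j + G) ≤ min (df j) (min (S / 6 + df j / 3) (S / 2)) :=
      le_min g2 (le_min (by linarith) g1)
    simp only [hCf, hdf, hG] at e1 ⊢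
    linarith
  have hC' : ∀ j, 3 ≤ j → j < K → ζ j + G ≤ S / 2 → ζ j + G ≤ (j : ℝ) * ζ j →
      6 * (ζ j + G) ≤ S + 2 * ((j : ℝ) * ζ j) → False := by
    intro j hj hjK g1 g2 g3
    have h := hC j hj hjK
    refine absurd h (not_lt.2 ?_)
    have e1 : (ζ j + G) ≤ min ((j : ℝ) * ζ j) (min (S / 6 + (j : ℝ) * ζ j / 3) (S / 2)) :=
      le_min g2 (le_min (by linarith) g1)
    simp only [hG] at e1 ⊢
    linarith
  have hG0 : 0 ≤ G := by rw [hG]; linarith
  have hG1 : G ≤ 2015 / 10000 := by rw [hG]; linarith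
  have hSG : S = G + 5995 / 10000 := by rw [hG]; ring
  -- the whole sums
  have hsplit : ∀ (f : ℕ → ℝ), ∑ k ∈ Ico 1 K, f k = f 1 + f 2 + ∑ k ∈ Ico 3 K, f k := by
    intro f
    rw [← Finset.sum_Ico_consecutive f (show 1 ≤ 3 by norm_num) hK]
    congr 1
    rw [Finset.sum_Ico_eq_sum_range]
    simp [Finset.sum_range_succ]
  have hs1 := hsplit ζ
  have hs2 := hsplit (fun k => (k : ℝ) * ζ k)
  simp only [Nat.cast_one, one_mul, Nat.cast_ofNat] at hs2
  have hC3 : Cf 3 ≤ 4005 / 10000 - G := by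
    have := hζ 1
    have := hζ 2
    simp only [hCf]
    linarith
  have hW3 : 1988 / 10000 + 2 * G ≤ df 3 - 2 * Cf 3 := by
    have := hζ 1
    simp only [hCf, hdf]
    linarith
  -- succ relations
  have hCs : ∀ j, j < K → Cf j = ζ j + Cf (j + 1) := by
    intro j hj
    simp only [hCf]
    rw [Finset.sum_eq_sum_Ico_succ_bot hj]
    ring
  have hds : ∀ j, j < K → df j = (j : ℝ) * ζ j + df (j + 1) := by
    intro j hj
    simp only [hdf]
    rw [Finset.sum_eq_sum_Ico_succ_bot hj]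
    ring
  have hCK : Cf K = ϖ := by simp [hCf]
  have hdK : df K = ω := by simp [hdf]
  -- lower bound of `W` for large exponents
  have hWlow : ∀ m : ℕ, ∀ j, m ≤ j → 2 ≤ m → j ≤ K → ((m : ℝ) - 2) * (Cf j - ϖ) - 2 * ϖ ≤ df j - 2 * Cf j := by
    intro m j hmj hm hjK
    have e : ∑ k ∈ Ico j K, ((m : ℝ)) * ζ k ≤ ∑ k ∈ Ico j K, (k : ℝ) * ζ k := by
      refine Finset.sum_le_sum fun k hk => ?_
      refine mul_le_mul_of_nonneg_right ?_ (hζ k)
      have := (Finset.mem_Ico.1 hk).1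
      exact_mod_cast hmj.trans this
    rw [← Finset.mul_sum] at e
    simp only [hCf, hdf]
    have hm' : (2 : ℝ) ≤ m := by exact_mod_cast hm
    nlinarith
  have hA' : ∀ k, 3 ≤ k → k < K → ζ k < 29125 / 100000 - G / 2 := by
    intro k hk hkK
    have := hA k hk hkK
    rw [hSG] at this
    linarith
  by_cases hcase : Cf 3 ≤ 29975 / 100000 - G / 2
  · refine hB' 3 le_rfl hK ?_ ?_ ?_
    · rw [hSG]; linarith
    · linarith [show (0:ℝ) ≤ Cf 3 from by simp only [hCf]; exact add_nonneg (Finset.sum_nonneg fun k _ => hζ k) hϖ]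
    · rw [hSG]; linarith
  push Not at hcase
  have hKc : Cf K ≤ 29975 / 100000 - G / 2 := by rw [hCK]; linarith
  obtain ⟨j, hj3, hjK, hj1, hj2⟩ := TfN.cross Cf _ 3 K hK hcase hKc
  have hζj := hζ j
  have hζA := hA' j hj3 hjK
  have hCj := hCs j hjK
  have hdj := hds j hjK
  set z : ℝ := ζ j with hz
  set h : ℝ := Cf (j + 1) with hh
  set W : ℝ := df (j + 1) - 2 * h with hW
  have hh0 : 0 ≤ h := by
    rw [hh]
    simp only [hCf]
    exact add_nonneg (Finset.sum_nonneg fun k _ => hζ k) hϖ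
  have hj3' : (3 : ℝ) ≤ j := by exact_mod_cast hj3
  -- 2a
  by_cases h2a : 2 * G ≤ ((j : ℝ) - 2) * z
  · refine hC' j hj3 hjK ?_ ?_ ?_
    · rw [hSG]; linarith
    · nlinarith
    · rw [hSG]; nlinarith
  push Not at h2a
  by_cases h2b : 2 * G ≤ W
  · refine hB' (j + 1) (by omega) (by omega) ?_ ?_ ?_
    · rw [hSG]; linarith
    · linarith
    · rw [hSG]; linarith
  push Not at h2b
  have hT : Cf (j + 1) + G ≤ S / 2 := by rw [hSG]; linarith
  rcases Nat.lt_or_ge j 5 with hj5 | hj5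
  · interval_cases j
    · -- j = 3
      have hW' : 1988 / 10000 + 2 * G - z ≤ W := by
        rw [hW]
        push_cast at hdj
        linarith
      refine hB' 4 (by norm_num) (by omega) hT ?_ ?_
      · by_cases hg : G ≤ 1988 / 10000
        · push_cast at h2a
          linarith
        · push Not at hg
          linarith
      · rw [hSG]
        linarith
    · -- j = 4
      have hC3' := hCs 3 (by omega)
      have hd3' := hds 3 (by omega)
      norm_num at hC3' hd3' hdj h2a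
      have hz3 := hζ 3
      have hW' : 3 * G - 2017 / 10000 + h - z ≤ W := by
        rw [hW]
        linarith
      refine hB' 5 (by norm_num) (by omega) hT ?_ ?_
      · by_cases hg : G ≤ 1989 / 10000
        · linarith
        · push Not at hg
          linarith
      · rw [hSG]
        by_cases hg : G ≤ 1961 / 10000
        · linarith
        · push Not at hg
          linarith
  · -- j ≥ 5
    have hj5' : (5 : ℝ) ≤ j := by exact_mod_cast hj5
    have hWl := hWlow 6 (j + 1) (by omega) (by norm_num) (by omega)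
    norm_num at hWl
    have hW' : 4 * h - 12 / 10000 ≤ W := by
      rw [hW]
      linarith
    by_cases g1 : G ≤ 4 * z
    · by_cases g2 : 5 * G - 5995 / 10000 ≤ 4 * z
      · refine hC' j hj3 hjK ?_ ?_ ?_
        · rw [hSG]; linarith
        · nlinarith
        · rw [hSG]; nlinarith
      · push Not at g2
        refine hB' (j + 1) (by omega) (by omega) hT ?_ ?_
        · linarith
        · rw [hSG]; linarith
    · push Not at g1
      refine hB' (j + 1) (by omega) (by omega) hT ?_ ?_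
      · linarith
      · rw [hSG]; linarith

end Pool.Agent.Lib.MP_d8bd92_nt
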