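import Pool.Agent.Lib.MP_d8bd92_nt.LgDefs
import Pool.Agent.Lib.MP_d8bd92_nt.TfN

set_option autoImplicit false

/-!
Row N: the inequality between the exponents.
-/

namespace Pool.Agent.Lib.MP_d8bd92_nt

open Finset Pool.Agent.Lib.Szpiro

namespace LgN

/-- first criterion -/
theorem crit (S T d d0 μ : ℝ) (hS : 0 < S) (h0 : 0 ≤ d0) (hd : d0 ≤ d)
    (hq : (T + d0 + S / 2) ^ 2 ≤ 4 * S * d0) (hμ : 0 ≤ μ) :
    T ≤ S * ((1 - μ) / (2 * (1 + μ))) + μ * d := by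
  have h1 : (0 : ℝ) < 1 + μ := by linarith
  have e1 : S * ((1 - μ) / (2 * (1 + μ))) = S / (1 + μ) - S / 2 := by
    field_simp
    ring
  have e2 : μ * d0 ≤ μ * d := mul_le_mul_of_nonneg_left hd hμ
  set a : ℝ := S / (1 + μ) with ha
  set b : ℝ := (1 + μ) * d0 with hb
  have hab : a * b = S * d0 := by
    rw [ha, hb]
    field_simp
  have ha0 : 0 < a := by rw [ha]; positivity
  have hb0 : 0 ≤ b := by rw [hb]; positivity
  have key : T + d0 + S / 2 ≤ a + b := by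
    by_contra hcon
    push Not at hcon
    nlinarith [sq_nonneg (a - b)]
  rw [e1]
  have : b = d0 + μ * d0 := by rw [hb]; ring
  linarith

/-- second criterion -/
theorem crit2 (S T d μ : ℝ) (hS : 0 < S) (hd : S ≤ d) (hT : T ≤ S / 2) (hμ : 0 ≤ μ) :
    T ≤ S * ((1 - μ) / (2 * (1 + μ))) + μ * d := by
  have h1 : (0 : ℝ) < 1 + μ := by linarith
  have e1 : S * ((1 - μ) / (2 * (1 + μ))) + μ * S = S / 2 + S * (μ ^ 2 / (1 + μ)) := by
    field_simp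
    ring
  have e2 : μ * S ≤ μ * d := mul_le_mul_of_nonneg_left hd hμ
  have e3 : 0 ≤ S * (μ ^ 2 / (1 + μ)) := by positivity
  linarith

theorem quadB (G C e : ℝ) (hG : 0 ≤ G) (hG' : G ≤ 101 / 1000) (hC : 55 / 1000 ≤ C)
    (hC' : 3 * C - 3 * e ≤ G + 633 / 1000) (_he : 0 ≤ e) (he' : e ≤ 1 / 5000) :
    (C + G + (3 * C - 3 * e) + (G + 633 / 1000) / 2) ^ 2 ≤
      4 * (G + 633 / 1000) * (3 * C - 3 * e) := by
  obtain ⟨u, hu⟩ : ∃ u, u = C - e := ⟨_, rfl⟩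
  have h1 : 548 / 10000 ≤ u := by rw [hu]; linarith
  have h2 : 3 * u ≤ G + 633 / 1000 := by rw [hu]; linarith
  have e1 : C = u + e := by rw [hu]; ring
  subst e1
  have e3 : 0 ≤ 4 * u + e + 3 / 2 * G + 3165 / 10000 := by linarith
  have e4 : (4 * u + e + 3 / 2 * G + 3165 / 10000) ^ 2 ≤ (4 * u + 1 / 5000 + 3 / 2 * G + 3165 / 10000) ^ 2 :=
    pow_le_pow_left₀ e3 (by linarith) 2
  have e5 : (4 * u + 1 / 5000 + 3 / 2 * G + 3165 / 10000) ^ 2 ≤ 12 * (G + 633 / 1000) * u := by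
    nlinarith [mul_nonneg (sub_nonneg.2 h1) (sub_nonneg.2 h2), mul_nonneg hG (sub_nonneg.2 hG'),
      mul_nonneg (sub_nonneg.2 h1) hG, mul_nonneg (sub_nonneg.2 h2) hG,
      mul_nonneg (sub_nonneg.2 h1) (sub_nonneg.2 hG'), mul_nonneg (sub_nonneg.2 h2) (sub_nonneg.2 hG')]
  have e2 : (u + e + G + (3 * (u + e) - 3 * e) + (G + 633 / 1000) / 2) = 4 * u + e + 3 / 2 * G + 3165 / 10000 := by ring
  rw [e2]
  calc _ ≤ _ := e4
    _ ≤ _ := e5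
    _ = _ := by ring

theorem quadB1 (G z : ℝ) (hG : 0 ≤ G) (hG' : G ≤ 101 / 1000) (hz : 2465 / 10000 - G ≤ z)
    (hz' : z ≤ 3015 / 10000 - G) :
    (z + G + 2 * z + (G + 633 / 1000) / 2) ^ 2 ≤ 4 * (G + 633 / 1000) * (2 * z) := by
  nlinarith [mul_nonneg (sub_nonneg.2 hz) (sub_nonneg.2 hz'), mul_nonneg hG (sub_nonneg.2 hG'),
      mul_nonneg (sub_nonneg.2 hz) hG, mul_nonneg (sub_nonneg.2 hz') hG,
      mul_nonneg (sub_nonneg.2 hz) (sub_nonneg.2 hG'), mul_nonneg (sub_nonneg.2 hz') (sub_nonneg.2 hG')]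

theorem quadA1 (G E e : ℝ) (hG : 0 ≤ G) (hG' : G ≤ 101 / 1000) (hE : 133 / 1000 + G ≤ E - e)
    (hE' : E ≤ 3015 / 10000 - G) (he : 0 ≤ e) (he' : e ≤ 1 / 5000) :
    (E + G + (2 * E - 2 * e) + (G + 633 / 1000) / 2) ^ 2 ≤ 4 * (G + 633 / 1000) * (2 * E - 2 * e) := by
  obtain ⟨u, hu⟩ : ∃ u, u = E - e := ⟨_, rfl⟩
  have h1 : 133 / 1000 + G ≤ u := by rw [hu]; linarith
  have h2 : u ≤ 3015 / 10000 - G := by rw [hu]; linarith
  have e1 : E = u + e := by rw [hu]; ring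
  subst e1
  have e3 : 0 ≤ 3 * u + e + 3 / 2 * G + 3165 / 10000 := by linarith
  have e4 : (3 * u + e + 3 / 2 * G + 3165 / 10000) ^ 2 ≤ (3 * u + 1 / 5000 + 3 / 2 * G + 3165 / 10000) ^ 2 :=
    pow_le_pow_left₀ e3 (by linarith) 2
  have e5 : (3 * u + 1 / 5000 + 3 / 2 * G + 3165 / 10000) ^ 2 ≤ 8 * (G + 633 / 1000) * u := by
    nlinarith [mul_nonneg (sub_nonneg.2 h1) (sub_nonneg.2 h2), mul_nonneg hG (sub_nonneg.2 hG'),
      mul_nonneg (sub_nonneg.2 h1) hG, mul_nonneg (sub_nonneg.2 h2) hG,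
      mul_nonneg (sub_nonneg.2 h1) (sub_nonneg.2 hG'), mul_nonneg (sub_nonneg.2 h2) (sub_nonneg.2 hG')]
  have e2 : (u + e + G + (2 * (u + e) - 2 * e) + (G + 633 / 1000) / 2) = 3 * u + e + 3 / 2 * G + 3165 / 10000 := by ring
  rw [e2]
  calc _ ≤ _ := e4
    _ ≤ _ := e5
    _ = _ := by ring

theorem quadA2 (G E e : ℝ) (hG : 0 ≤ G) (hG' : G ≤ 101 / 1000) (hE : E - e ≤ 133 / 1000 + G)
    (hE0 : 0 ≤ E) (hE' : E ≤ 3015 / 10000 - G) (he : 0 ≤ e) (he' : e ≤ 1 / 5000) :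
    (E + G + (E + 133 / 1000 + G - e) + (G + 633 / 1000) / 2) ^ 2 ≤
      4 * (G + 633 / 1000) * (E + 133 / 1000 + G - e) := by
  have h1 : E ≤ 1332 / 10000 + G := by linarith
  have e3 : 0 ≤ E + G + (E + 133 / 1000 + G - e) + (G + 633 / 1000) / 2 := by linarith
  have e4 : (E + G + (E + 133 / 1000 + G - e) + (G + 633 / 1000) / 2) ^ 2 ≤
      (E + G + (E + 133 / 1000 + G) + (G + 633 / 1000) / 2) ^ 2 :=
    pow_le_pow_left₀ e3 (by linarith) 2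
  have e5 : (E + G + (E + 133 / 1000 + G) + (G + 633 / 1000) / 2) ^ 2 ≤
      4 * (G + 633 / 1000) * (E + 133 / 1000 + G - 1 / 5000) := by
    nlinarith [mul_nonneg hE0 (sub_nonneg.2 hE'), mul_nonneg hE0 (sub_nonneg.2 h1),
      mul_nonneg hG (sub_nonneg.2 hG'),
      mul_nonneg hE0 hG, mul_nonneg (sub_nonneg.2 hE') hG, mul_nonneg (sub_nonneg.2 h1) hG,
      mul_nonneg hE0 (sub_nonneg.2 hG'), mul_nonneg (sub_nonneg.2 hE') (sub_nonneg.2 hG'),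
      mul_nonneg (sub_nonneg.2 h1) (sub_nonneg.2 hG'), mul_nonneg (sub_nonneg.2 h1) (sub_nonneg.2 hE')]
  have e6 : 4 * (G + 633 / 1000) * (E + 133 / 1000 + G - 1 / 5000) ≤
      4 * (G + 633 / 1000) * (E + 133 / 1000 + G - e) :=
    mul_le_mul_of_nonneg_left (by linarith) (by linarith)
  exact e4.trans (e5.trans e6)

end LgN

/-- Row N. The inequality between the exponents (helper10). -/
theorem lg_shape (K : ℕ) (hK : 2 ≤ K) (ζ : ℕ → ℝ) (ω ϖ S : ℝ) (hζ : ∀ k, 0 ≤ ζ k) (hω : 0 ≤ ω)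
    (hϖ : 0 ≤ ϖ) (hϖ' : ϖ ≤ 1 / 5000)
    (h1 : ∑ k ∈ Ico 1 K, ζ k + ϖ + S ≤ 1)
    (h2 : 1 / 2 - 1 / 5000 ≤ ∑ k ∈ Ico 1 K, (k : ℝ) * ζ k + ω)
    (hS : 633 / 1000 ≤ S) (hS' : S ≤ 734 / 1000) :
    (∃ k, 2 ≤ k ∧ k < K ∧ 9345 / 10000 - S ≤ ζ k) ∨
    (∃ j, 2 ≤ j ∧ j ≤ K ∧ ∀ μ : ℝ, 0 ≤ μ → μ ≤ 1 → (∑ k ∈ Ico j K, ζ k + ϖ) + S ≤ 633 / 1000 +
      (S * ((1 - μ) / (2 * (1 + μ))) + μ * (∑ k ∈ Ico j K, (k : ℝ) * ζ k + ω))) ∨
    (∃ j, 2 ≤ j ∧ j < K ∧ ∀ μ : ℝ, 0 ≤ μ → μ ≤ 1 → ζ j + S ≤ 633 / 1000 +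
      (S * ((1 - μ) / (2 * (1 + μ))) + μ * ((j : ℝ) * ζ j))) := by
  by_contra hcon
  push Not at hcon
  obtain ⟨hA, hB, hC⟩ := hcon
  -- notation
  set Cf : ℕ → ℝ := fun j => ∑ k ∈ Ico j K, ζ k + ϖ with hCf
  set df : ℕ → ℝ := fun j => ∑ k ∈ Ico j K, (k : ℝ) * ζ k + ω with hdf
  obtain ⟨G, hG⟩ : ∃ G : ℝ, G = S - 633 / 1000 := ⟨_, rfl⟩
  have hSG : S = G + 633 / 1000 := by rw [hG]; ring
  have hG0 : 0 ≤ G := by rw [hG]; linarith
  have hG1 : G ≤ 101 / 1000 := by rw [hG]; linarith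
  have hS0 : 0 < S := by linarith
  -- criteria
  have hB1 : ∀ j, 2 ≤ j → j ≤ K → ∀ d0 : ℝ, 0 ≤ d0 → d0 ≤ df j →
      (Cf j + G + d0 + S / 2) ^ 2 ≤ 4 * S * d0 → False := by
    intro j hj hjK d0 g0 g1 g2
    obtain ⟨μ, hμ, hμ', h⟩ := hB j hj hjK
    have := LgN.crit S (Cf j + G) (df j) d0 μ hS0 g0 g1 g2 hμ
    simp only [hCf, hdf] at this
    linarith
  have hB2 : ∀ j, 2 ≤ j → j ≤ K → S ≤ df j → Cf j + G ≤ S / 2 → False := by
    intro j hj hjK g1 g2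
    obtain ⟨μ, hμ, hμ', h⟩ := hB j hj hjK
    have := LgN.crit2 S (Cf j + G) (df j) μ hS0 g1 g2 hμ
    simp only [hCf, hdf] at this
    linarith
  have hC1 : ∀ j, 2 ≤ j → j < K → ∀ d0 : ℝ, 0 ≤ d0 → d0 ≤ (j : ℝ) * ζ j →
      (ζ j + G + d0 + S / 2) ^ 2 ≤ 4 * S * d0 → False := by
    intro j hj hjK d0 g0 g1 g2
    obtain ⟨μ, hμ, hμ', h⟩ := hC j hj hjK
    have := LgN.crit S (ζ j + G) ((j : ℝ) * ζ j) d0 μ hS0 g0 g1 g2 hμ
    linarith
  have hC2 : ∀ j, 2 ≤ j → j < K → S ≤ (j : ℝ) * ζ j → ζ j + G ≤ S / 2 → False := by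
    intro j hj hjK g1 g2
    obtain ⟨μ, hμ, hμ', h⟩ := hC j hj hjK
    have := LgN.crit2 S (ζ j + G) ((j : ℝ) * ζ j) μ hS0 g1 g2 hμ
    linarith
  -- the whole sums
  have hsplit : ∀ (f : ℕ → ℝ), ∑ k ∈ Ico 1 K, f k = f 1 + ∑ k ∈ Ico 2 K, f k := by
    intro f
    rw [Finset.sum_eq_sum_Ico_succ_bot (by omega)]
  have hs1 := hsplit ζ
  have hs2 := hsplit (fun k => (k : ℝ) * ζ k)
  simp only [Nat.cast_one, one_mul] at hs2
  have hCnn : ∀ j, 0 ≤ Cf j := by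
    intro j
    simp only [hCf]
    exact add_nonneg (Finset.sum_nonneg fun k _ => hζ k) hϖ
  have he2 : 133 / 1000 + G - 1 / 5000 ≤ df 2 - Cf 2 := by
    have := hζ 1
    simp only [hCf, hdf]
    linarith
  -- succ relations
  have hCs : ∀ j, j < K → Cf j = ζ j + Cf (j + 1) := by
    intro j hj
    simp only [hCf]
    rw [Finset.sum_eq_sum_Ico_succ_bot hj]
    ring
  have hCK : Cf K = ϖ := by simp [hCf]
  -- lower bound for large exponents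
  have hlow : ∀ m : ℕ, ∀ j, m ≤ j → 1 ≤ m → j ≤ K → (m : ℝ) * (Cf j - 1 / 5000) ≤ df j := by
    intro m j hmj hm hjK
    have e : ∑ k ∈ Ico j K, ((m : ℝ)) * ζ k ≤ ∑ k ∈ Ico j K, (k : ℝ) * ζ k := by
      refine Finset.sum_le_sum fun k hk => ?_
      refine mul_le_mul_of_nonneg_right ?_ (hζ k)
      have := (Finset.mem_Ico.1 hk).1
      exact_mod_cast hmj.trans this
    rw [← Finset.mul_sum] at e
    simp only [hCf, hdf]
    have hm' : (0 : ℝ) ≤ m := by positivity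
    have : (m : ℝ) * (∑ k ∈ Ico j K, ζ k + ϖ - 1 / 5000) ≤ (m : ℝ) * ∑ k ∈ Ico j K, ζ k :=
      mul_le_mul_of_nonneg_left (by linarith) hm'
    linarith
  have hA' : ∀ k, 2 ≤ k → k < K → ζ k < 3015 / 10000 - G := by
    intro k hk hkK
    have := hA k hk hkK
    rw [hSG] at this
    linarith
  -- the exponents at least 3
  have hthree : ∀ j, 3 ≤ j → j ≤ K → 55 / 1000 ≤ Cf j → Cf j ≤ 3165 / 10000 - G / 2 → False := by
    intro j hj hjK g1 g2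
    have hl := hlow 3 j hj (by norm_num) hjK
    push_cast at hl
    by_cases hc : 3 * Cf j - 3 * (1 / 5000) ≤ G + 633 / 1000
    · have hq := LgN.quadB G (Cf j) (1 / 5000) hG0 hG1 g1 hc (by norm_num) le_rfl
      refine hB1 j (by omega) hjK (3 * Cf j - 3 * (1 / 5000)) (by linarith) (by linarith) ?_
      rw [hSG]
      exact hq
    · push Not at hc
      refine hB2 j (by omega) hjK ?_ ?_
      · rw [hSG]; linarith
      · rw [hSG]; linarith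
  by_cases hcase : Cf 2 ≤ 3015 / 10000 - G
  · -- case A
    have hl := hlow 2 2 le_rfl (by norm_num) hK
    push_cast at hl
    by_cases hc : 133 / 1000 + G ≤ Cf 2 - 1 / 5000
    · have hq := LgN.quadA1 G (Cf 2) (1 / 5000) hG0 hG1 hc hcase (by norm_num) le_rfl
      refine hB1 2 le_rfl hK (2 * Cf 2 - 2 * (1 / 5000)) (by linarith) (by linarith) ?_
      rw [hSG]
      exact hq
    · push Not at hc
      have hq := LgN.quadA2 G (Cf 2) (1 / 5000) hG0 hG1 hc.le (hCnn 2) hcase (by norm_num) le_rfl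
      have h0 := hCnn 2
      refine hB1 2 le_rfl hK (Cf 2 + 133 / 1000 + G - 1 / 5000) (by linarith) (by linarith) ?_
      rw [hSG]
      exact hq
  push Not at hcase
  have hK3 : 3 ≤ K := by
    by_contra hcon
    have : K = 2 := by omega
    rw [this] at hCK
    linarith
  have hC2s := hCs 2 (by omega)
  have hz2 := hA' 2 le_rfl (by omega)
  norm_num at hC2s
  by_cases hc1 : Cf 3 < 55 / 1000
  · -- case B1
    have hq := LgN.quadB1 G (ζ 2) hG0 hG1 (by linarith) hz2.le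
    have h0 := hζ 2
    refine hC1 2 le_rfl (by omega) (2 * ζ 2) (by linarith) (by push_cast; linarith) ?_
    rw [hSG]
    exact hq
  push Not at hc1
  by_cases hc2 : Cf 3 ≤ 3165 / 10000 - G / 2
  · exact hthree 3 le_rfl hK3 hc1 hc2
  push Not at hc2
  have hKc : Cf K ≤ 3165 / 10000 - G / 2 := by rw [hCK]; linarith
  obtain ⟨j, hj3, hjK, hj1, hj2⟩ := TfN.cross Cf _ 3 K hK3 hc2 hKc
  by_cases hc3 : 55 / 1000 ≤ Cf (j + 1)
  · exact hthree (j + 1) (by omega) (by omega) hc3 hj2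
  push Not at hc3
  have hCj := hCs j hjK
  have hzj := hA' j (by omega) hjK
  have hj3' : (3 : ℝ) * ζ j ≤ (j : ℝ) * ζ j :=
    mul_le_mul_of_nonneg_right (by exact_mod_cast hj3) (hζ j)
  by_cases hc4 : 3 * ζ j - 3 * 0 ≤ G + 633 / 1000
  · have hq := LgN.quadB G (ζ j) 0 hG0 hG1 (by linarith) hc4 le_rfl (by norm_num)
    refine hC1 j (by omega) hjK (3 * ζ j - 3 * 0) (by linarith [hζ j]) (by linarith) ?_
    rw [hSG]
    exact hq
  · push Not at hc4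
    refine hC2 j (by omega) hjK ?_ ?_
    · rw [hSG]; linarith
    · rw [hSG]; linarith

end Pool.Agent.Lib.MP_d8bd92_nt
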