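import Pool.Agent.Lib.MP_d8bd92_nt.TfDefs
import Pool.Agent.Lib.MP_d8bd92_nt.TfN

set_option autoImplicit false

/-!
Row O: structure of a number `n ≥ Y^(1 - 1/5000)`.
-/

namespace Pool.Agent.Lib.MP_d8bd92_nt

open Finset Pool.Agent.Lib.Szpiro


namespace TfO

theorem xpart_pos (n k : ℕ) : 0 < xpart n k := by
  unfold xpart
  exact Finset.prod_pos fun p hp => (Nat.prime_of_mem_primeFactors (Finset.mem_filter.1 hp).1).pos

theorem one_le_xpart (n k : ℕ) : (1 : ℝ) ≤ xpart n k := by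
  exact_mod_cast xpart_pos n k

/-- comparison by logarithms to the base `Y` -/
theorem final (Y R D c : ℝ) (hY : 1 < Y) (hR : 0 < R) (hD : 0 < D) (hc : 0 < c)
    (h : Real.log c / Real.log Y + Real.log R / Real.log Y ≤ 5995 / 10000 +
      min (Real.log D / Real.log Y)
        (min (Real.log R / Real.log Y / 6 + Real.log D / Real.log Y / 3)
          (Real.log R / Real.log Y / 2))) :
    c * R ≤ Y ^ (5995 / 10000 : ℝ) * sav R D := by
  have hL : 0 < Real.log Y := Real.log_pos hY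
  have hY0 : 0 < Y := by linarith
  set L := Real.log Y with hLdef
  have e1 : Real.log c = (Real.log c / L) * L := by field_simp
  have e2 : Real.log R = (Real.log R / L) * L := by field_simp
  have e3 : Real.log D = (Real.log D / L) * L := by field_simp
  set lc := Real.log c / L
  set lR := Real.log R / L
  set lD := Real.log D / L
  have hYp : 0 < Y ^ (5995 / 10000 : ℝ) := Real.rpow_pos_of_pos hY0 _
  have hlhs : Real.log (c * R) = (lc + lR) * L := by
    rw [Real.log_mul hc.ne' hR.ne', e1, e2]; ring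
  unfold sav
  rw [mul_min_of_nonneg _ _ hYp.le, mul_min_of_nonneg _ _ hYp.le]
  have key : ∀ B : ℝ, 0 < B → (lc + lR) * L ≤ Real.log B → c * R ≤ B := by
    intro B hB hlog
    rw [← hlhs] at hlog
    exact (Real.log_le_log_iff (by positivity) hB).1 hlog
  refine le_min ?_ (le_min ?_ ?_)
  · apply key _ (by positivity)
    rw [Real.log_mul hYp.ne' hD.ne', Real.log_rpow hY0, e3]
    have h1 : lc + lR ≤ 5995 / 10000 + lD := h.trans (by gcongr; exact min_le_left _ _)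
    nlinarith [mul_le_mul_of_nonneg_right h1 hL.le]
  · have hR6 : 0 < R ^ (1 / 6 : ℝ) := Real.rpow_pos_of_pos hR _
    have hD3 : 0 < D ^ (1 / 3 : ℝ) := Real.rpow_pos_of_pos hD _
    apply key _ (by positivity)
    rw [Real.log_mul hYp.ne' (by positivity), Real.log_mul hR6.ne' hD3.ne', Real.log_rpow hY0,
      Real.log_rpow hR, Real.log_rpow hD, e2, e3]
    have h1 : lc + lR ≤ 5995 / 10000 + (lR / 6 + lD / 3) :=
      h.trans (by gcongr; exact (min_le_right _ _).trans (min_le_left _ _))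
    nlinarith [mul_le_mul_of_nonneg_right h1 hL.le]
  · have hR2 : 0 < R ^ (1 / 2 : ℝ) := Real.rpow_pos_of_pos hR _
    apply key _ (by positivity)
    rw [Real.log_mul hYp.ne' hR2.ne', Real.log_rpow hY0, Real.log_rpow hR, e2]
    have h1 : lc + lR ≤ 5995 / 10000 + lR / 2 :=
      h.trans (by gcongr; exact (min_le_right _ _).trans (min_le_right _ _))
    nlinarith [mul_le_mul_of_nonneg_right h1 hL.le]

theorem log_split (n w : ℕ) (S : Finset ℕ) (hw : w ≠ 0) (h : n = w * ∏ k ∈ S, xpart n k ^ k) :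
    Real.log n = Real.log w + ∑ k ∈ S, (k : ℝ) * Real.log (xpart n k) := by
  have h1 : (n : ℝ) = (w : ℝ) * ∏ k ∈ S, (xpart n k : ℝ) ^ k := by
    have h2 := congrArg (Nat.cast : ℕ → ℝ) h
    push_cast at h2
    exact h2
  have hx : ∀ k ∈ S, ((xpart n k : ℝ) ^ k) ≠ 0 := fun k _ =>
    pow_ne_zero _ (by have := one_le_xpart n k; positivity)
  conv_lhs => rw [h1]
  rw [Real.log_mul (by exact_mod_cast hw) (Finset.prod_ne_zero_iff.2 hx), Real.log_prod hx]
  congr 1
  exact Finset.sum_congr rfl fun k _ => Real.log_pow _ _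

theorem log_split_rd (n w : ℕ) (S : Finset ℕ) (h : rd n = rd w * ∏ k ∈ S, xpart n k) :
    Real.log (rd n) = Real.log (rd w) + ∑ k ∈ S, Real.log (xpart n k) := by
  have h1 : (rd n : ℝ) = (rd w : ℝ) * ∏ k ∈ S, (xpart n k : ℝ) := by
    exact_mod_cast h
  have hx : ∀ k ∈ S, (xpart n k : ℝ) ≠ 0 := fun k _ => by
    have := one_le_xpart n k; positivity
  rw [h1, Real.log_mul (by have := one_le_rd w; positivity) (Finset.prod_ne_zero_iff.2 hx),
    Real.log_prod hx]

theorem rd_pow (x j : ℕ) (hx : Squarefree x) (hj : 1 ≤ j) : rd (x ^ j) = x := by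
  unfold rd
  rw [Nat.primeFactors_pow _ (by omega)]
  exact Nat.prod_primeFactors_of_squarefree hx

end TfO

theorem tf_structure (κ : ℝ) (hκ : 1 ≤ κ) : ∃ K : ℕ, 3 ≤ K ∧ ∀ (Y R : ℝ) (n : ℕ), 2 ≤ Y →
    1 ≤ n → Y ^ (1 - 1 / 5000 : ℝ) ≤ (n : ℝ) → (n : ℝ) ≤ Y ^ κ → (rd n : ℝ) * R ≤ Y →
    Y ^ (5995 / 10000 : ℝ) ≤ R → R ≤ Y ^ (801 / 1000 : ℝ) →
    (∃ k, 3 ≤ k ∧ k < K ∧ Y ^ (591 / 1000 : ℝ) ≤ (xpart n k : ℝ) * R ^ (1 / 2 : ℝ)) ∨
    (∃ D : ℕ, 1 ≤ D ∧ D ∣ n ∧ (rd D : ℝ) * R ≤ Y ^ (5995 / 10000 : ℝ) * sav R D) := by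
  refine ⟨⌈5000 * κ⌉₊ + 3, by omega, ?_⟩
  set K := ⌈5000 * κ⌉₊ + 3 with hKdef
  have hK3 : 3 ≤ K := by omega
  have hKκ : 5000 * κ ≤ (K : ℝ) := by
    have h1 := Nat.le_ceil (5000 * κ)
    have h2 : ((⌈5000 * κ⌉₊ : ℕ) : ℝ) ≤ (K : ℝ) := by
      exact_mod_cast (by omega : ⌈5000 * κ⌉₊ ≤ K)
    linarith
  have hK0 : (0 : ℝ) < K := by linarith
  intro Y R n hY hn hnY hnκ hrdR hR1 hR2
  have hY1 : (1 : ℝ) < Y := by linarith
  have hY0 : (0 : ℝ) < Y := by linarith
  have hL : 0 < Real.log Y := Real.log_pos hY1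
  have hn0 : n ≠ 0 := by omega
  have hnr : (0 : ℝ) < n := by exact_mod_cast hn
  have hR0 : 0 < R := lt_of_lt_of_le (Real.rpow_pos_of_pos hY0 _) hR1
  have hrd : (1 : ℝ) ≤ rd n := one_le_rd n
  obtain ⟨w, hw0, hw1, hw2, -⟩ := xpart_split n hn0 (Ico 1 K) (fun k hk => (Finset.mem_Ico.1 hk).1)
  have hwr : (1 : ℝ) ≤ w := by exact_mod_cast Nat.one_le_iff_ne_zero.2 hw0
  have hrdw : (1 : ℝ) ≤ rd w := one_le_rd w
  have hlogn := TfO.log_split n w (Ico 1 K) hw0 hw1
  have hlogr := TfO.log_split_rd n w (Ico 1 K) hw2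
  set L := Real.log Y with hLdef
  set x : ℕ → ℝ := fun k => Real.log (xpart n k) with hx
  have hx0 : ∀ k, 0 ≤ x k := fun k => Real.log_nonneg (TfO.one_le_xpart n k)
  have hlw : 0 ≤ Real.log w := Real.log_nonneg hwr
  have hlrw : 0 ≤ Real.log (rd w) := Real.log_nonneg hrdw
  -- the bound for `rd w`
  have hϖ : Real.log (rd w) ≤ 1 / 5000 * L := by
    have h1 := rd_le_prod_xpart n K hn0 (by omega)
    have hprod : (0 : ℝ) < ∏ k ∈ Ico 1 K, (xpart n k : ℝ) :=
      Finset.prod_pos fun k _ => by have := TfO.one_le_xpart n k; linarith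
    have h2 : (rd n : ℝ) = (rd w : ℝ) * ∏ k ∈ Ico 1 K, (xpart n k : ℝ) := by
      exact_mod_cast hw2
    rw [h2, mul_comm (rd w : ℝ)] at h1
    have h3 : (rd w : ℝ) ≤ (n : ℝ) ^ (1 / (K : ℝ)) := le_of_mul_le_mul_left h1 hprod
    have h4 := Real.log_le_log (by linarith) h3
    rw [Real.log_rpow hnr] at h4
    have h5 : Real.log n ≤ κ * L := by
      have := Real.log_le_log hnr hnκ
      rwa [Real.log_rpow hY0] at this
    have h6 : 1 / (K : ℝ) * Real.log n ≤ 1 / (K : ℝ) * (κ * L) :=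
      mul_le_mul_of_nonneg_left h5 (by positivity)
    have h7 : 1 / (K : ℝ) * (κ * L) ≤ 1 / 5000 * L := by
      have h8 : 1 / (K : ℝ) * κ ≤ 1 / 5000 := by
        rw [one_div_mul_eq_div, div_le_div_iff₀ hK0 (by norm_num)]
        linarith
      nlinarith
    linarith
  have hs1 : ∀ S : Finset ℕ, ∑ k ∈ S, x k / L = (∑ k ∈ S, x k) / L := fun S =>
    (Finset.sum_div _ _ _).symm
  have hs2 : ∀ S : Finset ℕ, ∑ k ∈ S, (k : ℝ) * (x k / L) = (∑ k ∈ S, (k : ℝ) * x k) / L := by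
    intro S
    rw [Finset.sum_div]
    exact Finset.sum_congr rfl fun k _ => by ring
  have hshape := tf_shape K hK3 (fun k => x k / L) (Real.log w / L) (Real.log (rd w) / L)
    (Real.log R / L) (fun k => div_nonneg (hx0 k) hL.le) (div_nonneg hlw hL.le)
    (div_nonneg hlrw hL.le) (by rw [div_le_iff₀ hL]; exact hϖ) ?_ ?_ ?_ ?_
  rotate_left
  · rw [hs1, ← add_div, ← add_div, div_le_one hL]
    have h1 := Real.log_le_log (by positivity) hrdR
    rw [Real.log_mul (by positivity) hR0.ne', hlogr] at h1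
    linarith
  · rw [hs2, ← add_div, le_div_iff₀ hL]
    have h1 := Real.log_le_log (by positivity) hnY
    rw [Real.log_rpow hY0, hlogn] at h1
    linarith
  · rw [le_div_iff₀ hL]
    have h1 := Real.log_le_log (by positivity) hR1
    rwa [Real.log_rpow hY0] at h1
  · rw [div_le_iff₀ hL]
    have h1 := Real.log_le_log hR0 hR2
    rwa [Real.log_rpow hY0] at h1
  rcases hshape with ⟨k, hk1, hk2, hk3⟩ | ⟨j, hj1, hj2, hj3⟩ | ⟨j, hj1, hj2, hj3⟩
  · left
    refine ⟨k, hk1, hk2, ?_⟩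
    have hxk : (0 : ℝ) < xpart n k := by have := TfO.one_le_xpart n k; linarith
    have hRh : 0 < R ^ (1 / 2 : ℝ) := Real.rpow_pos_of_pos hR0 _
    rw [← Real.log_le_log_iff (by positivity) (by positivity), Real.log_mul hxk.ne' hRh.ne',
      Real.log_rpow hY0, Real.log_rpow hR0]
    have h1 : 591 / 1000 * L - Real.log R / L / 2 * L ≤ x k / L * L := by
      rw [← sub_mul]
      exact mul_le_mul_of_nonneg_right hk3 hL.le
    rw [div_mul_cancel₀ _ hL.ne'] at h1
    have h2 : Real.log R / L / 2 * L = 1 / 2 * Real.log R := by field_simp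
    rw [h2] at h1
    simp only [hx] at h1
    linarith
  · right
    obtain ⟨D, hD0, hD1, hD2, -⟩ := xpart_split n hn0 (Ico 1 j)
      (fun k hk => (Finset.mem_Ico.1 hk).1)
    refine ⟨D, Nat.one_le_iff_ne_zero.2 hD0, ⟨_, hD1⟩, ?_⟩
    have hDr : (0 : ℝ) < D := by exact_mod_cast Nat.pos_of_ne_zero hD0
    have hlogD := TfO.log_split n D (Ico 1 j) hD0 hD1
    have hlogrD := TfO.log_split_rd n D (Ico 1 j) hD2
    have hu1 : ∑ k ∈ Ico 1 K, (k : ℝ) * x k = ∑ k ∈ Ico 1 j, (k : ℝ) * x k +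
        ∑ k ∈ Ico j K, (k : ℝ) * x k :=
      (Finset.sum_Ico_consecutive _ (by omega) hj2).symm
    have hu2 : ∑ k ∈ Ico 1 K, x k = ∑ k ∈ Ico 1 j, x k + ∑ k ∈ Ico j K, x k :=
      (Finset.sum_Ico_consecutive _ (by omega) hj2).symm
    have hlD : ∑ k ∈ Ico j K, (k : ℝ) * x k + Real.log w = Real.log D := by
      have e1 : Real.log (n : ℝ) = Real.log w + ∑ k ∈ Ico 1 K, (k : ℝ) * x k := hlogn
      have e2 : Real.log (n : ℝ) = Real.log D + ∑ k ∈ Ico 1 j, (k : ℝ) * x k := hlogD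
      linarith
    have hlrD : ∑ k ∈ Ico j K, x k + Real.log (rd w) = Real.log (rd D) := by
      have e1 : Real.log (rd n : ℝ) = Real.log (rd w) + ∑ k ∈ Ico 1 K, x k := hlogr
      have e2 : Real.log (rd n : ℝ) = Real.log (rd D) + ∑ k ∈ Ico 1 j, x k := hlogrD
      linarith
    apply TfO.final Y R D (rd D) hY1 hR0 hDr (by have := one_le_rd D; linarith)
    have e1 : Real.log D / L = (∑ k ∈ Ico j K, (k : ℝ) * x k) / L + Real.log w / L := by
      rw [← hlD, add_div]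
    have e2 : Real.log (rd D) / L = (∑ k ∈ Ico j K, x k) / L + Real.log (rd w) / L := by
      rw [← hlrD, add_div]
    rw [hs1, hs2] at hj3
    rw [← hLdef, e1, e2]
    exact hj3
  · right
    have hxj : (0 : ℝ) < xpart n j := by have := TfO.one_le_xpart n j; linarith
    refine ⟨xpart n j ^ j, Nat.pos_of_ne_zero (pow_ne_zero _ (TfO.xpart_pos n j).ne'),
      xpart_pow_dvd n j, ?_⟩
    rw [TfO.rd_pow _ _ (xpart_squarefree n j) (by omega)]
    apply TfO.final Y R _ (xpart n j) hY1 hR0 (by push_cast; positivity) hxj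
    have e1 : Real.log ((xpart n j ^ j : ℕ) : ℝ) = (j : ℝ) * x j := by
      push_cast
      exact Real.log_pow _ _
    rw [e1, ← hLdef, mul_div_assoc]
    exact hj3

end Pool.Agent.Lib.MP_d8bd92_nt
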