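import Pool.Agent.Lib.MP_d8bd92_nt.LgDefs
import Pool.Agent.Lib.MP_d8bd92_nt.TfO
import Pool.Agent.Lib.MP_d8bd92_nt.LgN

set_option autoImplicit false

/-!
Row O: structure of a number `n ≥ Y^(1/2 - 1/5000)`.
-/

namespace Pool.Agent.Lib.MP_d8bd92_nt

open Finset Pool.Agent.Lib.Szpiro


namespace LgO

/-- comparison by logarithms to the base `Y` -/
theorem final (Y R D c : ℝ) (hY : 1 < Y) (hR : 0 < R) (hD : 0 < D) (hc : 0 < c)
    (h : ∀ μ : ℝ, 0 ≤ μ → μ ≤ 1 → Real.log c / Real.log Y + Real.log R / Real.log Y ≤ 633 / 1000 +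
      (Real.log R / Real.log Y * ((1 - μ) / (2 * (1 + μ))) + μ * (Real.log D / Real.log Y))) :
    ∃ W : ℝ, SavOK W R D ∧ c * R ≤ Y ^ (633 / 1000 : ℝ) * W := by
  have hL : 0 < Real.log Y := Real.log_pos hY
  have hY0 : 0 < Y := by linarith
  have hYp : 0 < Y ^ (633 / 1000 : ℝ) := Real.rpow_pos_of_pos hY0 _
  refine ⟨c * R / Y ^ (633 / 1000 : ℝ), ⟨by positivity, fun μ hμ0 hμ1 => ?_⟩, ?_⟩
  · rw [div_le_iff₀ hYp, ← Real.log_le_log_iff (by positivity) (by positivity),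
      Real.log_mul hc.ne' hR.ne', Real.log_mul (by positivity) hYp.ne',
      Real.log_mul (by positivity) (by positivity), Real.log_rpow hY0, Real.log_rpow hR,
      Real.log_rpow hD]
    have h1 := mul_le_mul_of_nonneg_right (h μ hμ0 hμ1) hL.le
    have e1 : (Real.log c / Real.log Y + Real.log R / Real.log Y) * Real.log Y
        = Real.log c + Real.log R := by field_simp
    have e2 : (633 / 1000 + (Real.log R / Real.log Y * ((1 - μ) / (2 * (1 + μ))) +
        μ * (Real.log D / Real.log Y))) * Real.log Y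
        = (1 - μ) / (2 * (1 + μ)) * Real.log R + μ * Real.log D + 633 / 1000 * Real.log Y := by
      have h2 : Real.log R / Real.log Y * Real.log Y = Real.log R := div_mul_cancel₀ _ hL.ne'
      have h3 : Real.log D / Real.log Y * Real.log Y = Real.log D := div_mul_cancel₀ _ hL.ne'
      calc _ = 633 / 1000 * Real.log Y + ((Real.log R / Real.log Y * Real.log Y) * ((1 - μ) / (2 * (1 + μ))) +
            μ * (Real.log D / Real.log Y * Real.log Y)) := by ring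
        _ = _ := by rw [h2, h3]; ring
    rw [e1, e2] at h1
    exact h1
  · rw [mul_div_cancel₀ _ hYp.ne']

end LgO

/-- Row O. Adaptation of TfO (`tf_structure`, helper68), from `lg_shape`. In the alternatives with
`D` take `W = Y^(C + S - 633/1000)` where `rd D = Y^C`, `R = Y^S`, i.e.
`W = rd D * R / Y^(633/1000)`; `SavOK W R D` is the exponentiated inequality of `lg_shape`. -/
theorem lg_structure (κ : ℝ) (hκ : 1 ≤ κ) : ∃ K : ℕ, 3 ≤ K ∧ ∀ (Y R : ℝ) (n : ℕ), 2 ≤ Y →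
    1 ≤ n → Y ^ (1 / 2 - 1 / 5000 : ℝ) ≤ (n : ℝ) → (n : ℝ) ≤ Y ^ κ → (rd n : ℝ) * R ≤ Y →
    Y ^ (633 / 1000 : ℝ) ≤ R → R ≤ Y ^ (734 / 1000 : ℝ) →
    (∃ k, 2 ≤ k ∧ k < K ∧ Y ^ (9345 / 10000 : ℝ) ≤ (xpart n k : ℝ) * R) ∨
    (∃ (D : ℕ) (W : ℝ), 1 ≤ D ∧ D ∣ n ∧ SavOK W R D ∧
      (rd D : ℝ) * R ≤ Y ^ (633 / 1000 : ℝ) * W) := by
  refine ⟨⌈5000 * κ⌉₊ + 3, by omega, ?_⟩
  set K := ⌈5000 * κ⌉₊ + 3 with hKdef
  have hK3 : 3 ≤ K := by omega
  have hKκ : 5000 * κ ≤ (K : ℝ) := by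
    have h1 := Nat.le_ceil (5000 * κ)
    have h2 : ((⌈5000 * κ⌉₊ : ℕ) : ℝ) ≤ (K : ℝ) := by
      exact_mod_cast (by omega : ⌈5000 * κ⌉₊ ≤ K)
    linarith
  have hK0 : (0 : ℝ) < K := by linarith
  intro Y R n hY hn hnY hnκ hrdR hR1 hR2
  have hY1 : (1 : ℝ) < Y := by linarith
  have hY0 : (0 : ℝ) < Y := by linarith
  have hL : 0 < Real.log Y := Real.log_pos hY1
  have hn0 : n ≠ 0 := by omega
  have hnr : (0 : ℝ) < n := by exact_mod_cast hn
  have hR0 : 0 < R := lt_of_lt_of_le (Real.rpow_pos_of_pos hY0 _) hR1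
  have hrd : (1 : ℝ) ≤ rd n := one_le_rd n
  obtain ⟨w, hw0, hw1, hw2, -⟩ := xpart_split n hn0 (Ico 1 K) (fun k hk => (Finset.mem_Ico.1 hk).1)
  have hwr : (1 : ℝ) ≤ w := by exact_mod_cast Nat.one_le_iff_ne_zero.2 hw0
  have hrdw : (1 : ℝ) ≤ rd w := one_le_rd w
  have hlogn := TfO.log_split n w (Ico 1 K) hw0 hw1
  have hlogr := TfO.log_split_rd n w (Ico 1 K) hw2
  set L := Real.log Y with hLdef
  set x : ℕ → ℝ := fun k => Real.log (xpart n k) with hx
  have hx0 : ∀ k, 0 ≤ x k := fun k => Real.log_nonneg (TfO.one_le_xpart n k)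
  have hlw : 0 ≤ Real.log w := Real.log_nonneg hwr
  have hlrw : 0 ≤ Real.log (rd w) := Real.log_nonneg hrdw
  -- the bound for `rd w`
  have hϖ : Real.log (rd w) ≤ 1 / 5000 * L := by
    have h1 := rd_le_prod_xpart n K hn0 (by omega)
    have hprod : (0 : ℝ) < ∏ k ∈ Ico 1 K, (xpart n k : ℝ) :=
      Finset.prod_pos fun k _ => by have := TfO.one_le_xpart n k; linarith
    have h2 : (rd n : ℝ) = (rd w : ℝ) * ∏ k ∈ Ico 1 K, (xpart n k : ℝ) := by
      exact_mod_cast hw2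
    rw [h2, mul_comm (rd w : ℝ)] at h1
    have h3 : (rd w : ℝ) ≤ (n : ℝ) ^ (1 / (K : ℝ)) := le_of_mul_le_mul_left h1 hprod
    have h4 := Real.log_le_log (by linarith) h3
    rw [Real.log_rpow hnr] at h4
    have h5 : Real.log n ≤ κ * L := by
      have := Real.log_le_log hnr hnκ
      rwa [Real.log_rpow hY0] at this
    have h6 : 1 / (K : ℝ) * Real.log n ≤ 1 / (K : ℝ) * (κ * L) :=
      mul_le_mul_of_nonneg_left h5 (by positivity)
    have h7 : 1 / (K : ℝ) * (κ * L) ≤ 1 / 5000 * L := by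
      have h8 : 1 / (K : ℝ) * κ ≤ 1 / 5000 := by
        rw [one_div_mul_eq_div, div_le_div_iff₀ hK0 (by norm_num)]
        linarith
      nlinarith
    linarith
  have hs1 : ∀ S : Finset ℕ, ∑ k ∈ S, x k / L = (∑ k ∈ S, x k) / L := fun S =>
    (Finset.sum_div _ _ _).symm
  have hs2 : ∀ S : Finset ℕ, ∑ k ∈ S, (k : ℝ) * (x k / L) = (∑ k ∈ S, (k : ℝ) * x k) / L := by
    intro S
    rw [Finset.sum_div]
    exact Finset.sum_congr rfl fun k _ => by ring
  have hshape := lg_shape K (by omega) (fun k => x k / L) (Real.log w / L) (Real.log (rd w) / L)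
    (Real.log R / L) (fun k => div_nonneg (hx0 k) hL.le) (div_nonneg hlw hL.le)
    (div_nonneg hlrw hL.le) (by rw [div_le_iff₀ hL]; exact hϖ) ?_ ?_ ?_ ?_
  rotate_left
  · rw [hs1, ← add_div, ← add_div, div_le_one hL]
    have h1 := Real.log_le_log (by positivity) hrdR
    rw [Real.log_mul (by positivity) hR0.ne', hlogr] at h1
    linarith
  · rw [hs2, ← add_div, le_div_iff₀ hL]
    have h1 := Real.log_le_log (by positivity) hnY
    rw [Real.log_rpow hY0, hlogn] at h1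
    linarith
  · rw [le_div_iff₀ hL]
    have h1 := Real.log_le_log (by positivity) hR1
    rwa [Real.log_rpow hY0] at h1
  · rw [div_le_iff₀ hL]
    have h1 := Real.log_le_log hR0 hR2
    rwa [Real.log_rpow hY0] at h1
  rcases hshape with ⟨k, hk1, hk2, hk3⟩ | ⟨j, hj1, hj2, hj3⟩ | ⟨j, hj1, hj2, hj3⟩
  · left
    refine ⟨k, hk1, hk2, ?_⟩
    have hxk : (0 : ℝ) < xpart n k := by have := TfO.one_le_xpart n k; linarith
    rw [← Real.log_le_log_iff (by positivity) (by positivity), Real.log_mul hxk.ne' hR0.ne',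
      Real.log_rpow hY0]
    have h1 : 9345 / 10000 * L - Real.log R / L * L ≤ x k / L * L := by
      rw [← sub_mul]
      exact mul_le_mul_of_nonneg_right hk3 hL.le
    rw [div_mul_cancel₀ _ hL.ne', div_mul_cancel₀ _ hL.ne'] at h1
    simp only [hx] at h1
    linarith
  · right
    obtain ⟨D, hD0, hD1, hD2, -⟩ := xpart_split n hn0 (Ico 1 j)
      (fun k hk => (Finset.mem_Ico.1 hk).1)
    suffices hW : ∃ W : ℝ, SavOK W R D ∧ (rd D : ℝ) * R ≤ Y ^ (633 / 1000 : ℝ) * W by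
      obtain ⟨W, hW1, hW2⟩ := hW
      exact ⟨D, W, Nat.one_le_iff_ne_zero.2 hD0, ⟨_, hD1⟩, hW1, hW2⟩
    have hDr : (0 : ℝ) < D := by exact_mod_cast Nat.pos_of_ne_zero hD0
    have hlogD := TfO.log_split n D (Ico 1 j) hD0 hD1
    have hlogrD := TfO.log_split_rd n D (Ico 1 j) hD2
    have hu1 : ∑ k ∈ Ico 1 K, (k : ℝ) * x k = ∑ k ∈ Ico 1 j, (k : ℝ) * x k +
        ∑ k ∈ Ico j K, (k : ℝ) * x k :=
      (Finset.sum_Ico_consecutive _ (by omega) hj2).symm
    have hu2 : ∑ k ∈ Ico 1 K, x k = ∑ k ∈ Ico 1 j, x k + ∑ k ∈ Ico j K, x k :=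
      (Finset.sum_Ico_consecutive _ (by omega) hj2).symm
    have hlD : ∑ k ∈ Ico j K, (k : ℝ) * x k + Real.log w = Real.log D := by
      have e1 : Real.log (n : ℝ) = Real.log w + ∑ k ∈ Ico 1 K, (k : ℝ) * x k := hlogn
      have e2 : Real.log (n : ℝ) = Real.log D + ∑ k ∈ Ico 1 j, (k : ℝ) * x k := hlogD
      linarith
    have hlrD : ∑ k ∈ Ico j K, x k + Real.log (rd w) = Real.log (rd D) := by
      have e1 : Real.log (rd n : ℝ) = Real.log (rd w) + ∑ k ∈ Ico 1 K, x k := hlogr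
      have e2 : Real.log (rd n : ℝ) = Real.log (rd D) + ∑ k ∈ Ico 1 j, x k := hlogrD
      linarith
    apply LgO.final Y R D (rd D) hY1 hR0 hDr (by have := one_le_rd D; linarith)
    have e1 : Real.log D / L = (∑ k ∈ Ico j K, (k : ℝ) * x k) / L + Real.log w / L := by
      rw [← hlD, add_div]
    have e2 : Real.log (rd D) / L = (∑ k ∈ Ico j K, x k) / L + Real.log (rd w) / L := by
      rw [← hlrD, add_div]
    intro μ hμ0 hμ1
    have h9 := hj3 μ hμ0 hμ1
    rw [hs1, hs2] at h9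
    rw [← hLdef, e1, e2]
    exact h9
  · right
    have hxj : (0 : ℝ) < xpart n j := by have := TfO.one_le_xpart n j; linarith
    suffices hW : ∃ W : ℝ, SavOK W R ((xpart n j ^ j : ℕ) : ℝ) ∧
        (rd (xpart n j ^ j) : ℝ) * R ≤ Y ^ (633 / 1000 : ℝ) * W by
      obtain ⟨W, hW1, hW2⟩ := hW
      exact ⟨xpart n j ^ j, W, Nat.pos_of_ne_zero (pow_ne_zero _ (TfO.xpart_pos n j).ne'),
        xpart_pow_dvd n j, hW1, hW2⟩
    rw [TfO.rd_pow _ _ (xpart_squarefree n j) (by omega)]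
    apply LgO.final Y R _ (xpart n j) hY1 hR0 (by push_cast; positivity) hxj
    have e1 : Real.log ((xpart n j ^ j : ℕ) : ℝ) = (j : ℝ) * x j := by
      push_cast
      exact Real.log_pow _ _
    intro μ hμ0 hμ1
    have h9 := hj3 μ hμ0 hμ1
    rw [e1, ← hLdef, mul_div_assoc]
    exact h9

end Pool.Agent.Lib.MP_d8bd92_nt
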