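import Pool.Agent.Lib.MP_d8bd92_nt.TfDefs

set_option autoImplicit false

/-!
Definitions for the count of Frey curves with a large Szpiro ratio.
-/

namespace Pool.Agent.Lib.MP_d8bd92_nt

open Finset Pool.Agent.Lib.Szpiro

/-- an admissible saving of the character argument: `W ≤ P^((1-μ)/(2(1+μ))) D^μ` for all
`μ ∈ [0, 1]` -/
def SavOK (W P D : ℝ) : Prop :=
  0 < W ∧ ∀ μ : ℝ, 0 ≤ μ → μ ≤ 1 → W ≤ P ^ ((1 - μ) / (2 * (1 + μ))) * D ^ μ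

/-- the difference `m - s n` has a good divisor `D` -/
def EvModW (Q : ℝ) (s : ℤ) (m n : ℕ) : Prop :=
  ∃ (D : ℕ) (W : ℝ), 1 ≤ D ∧ Nat.Coprime D (m * n) ∧ (D : ℤ) ∣ (m : ℤ) - s * n ∧
    SavOK W ((rd m : ℝ) * rd n) D ∧ (rd D : ℝ) * ((rd m : ℝ) * rd n) ≤ Q * W

end Pool.Agent.Lib.MP_d8bd92_nt
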