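import Pool.Agent.Lib.MP_d8bd92_nt.LgDefs
import Pool.Agent.Lib.MP_d8bd92_nt.TfM
import Pool.Agent.Lib.MP_d8bd92_nt.LgS

set_option autoImplicit false

namespace Pool.Agent.Lib.MP_d8bd92_nt

open Finset Pool.Agent.Lib.Szpiro


namespace LgT

/-- split off the part of exact exponent one -/
theorem piece (n : ℕ) (hn : n ≠ 0) : n / xpart n 1 ≠ 0 ∧ n / xpart n 1 * xpart n 1 = n ∧
    rd n = rd (n / xpart n 1) * xpart n 1 ∧ rd (n / xpart n 1) ^ 2 ≤ n / xpart n 1 := by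
  obtain ⟨w, hw, hw0, h1, h2, h3, -⟩ := CdB_split n hn {1}
  rw [Finset.prod_singleton, pow_one] at h1
  rw [Finset.prod_singleton] at h3
  have hq : n / xpart n 1 = w := Nat.div_eq_of_eq_mul_left (xpart_pos n 1) h1
  have hfac : ∀ p ∈ n.primeFactors, n.factorization p ≠ 0 := fun p hp => by
    have h1 := Nat.mem_primeFactors.1 hp
    have h2 := h1.1.factorization_pos_of_dvd h1.2.2 h1.2.1
    omega
  have h5 : rd w ^ 2 ∣ w := by
    rw [h2]
    conv_rhs => rw [hw]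
    rw [← Finset.prod_pow]
    refine Finset.prod_dvd_prod_of_dvd _ _ (fun p hp => ?_)
    have h6 := Finset.mem_filter.1 hp
    refine pow_dvd_pow _ ?_
    have h7 := hfac p h6.1
    have h8 : ¬ (n.factorization p = 1) := fun h => h6.2 (Finset.mem_singleton.2 h)
    omega
  rw [hq]
  exact ⟨hw0, h1.symm, h3, Nat.le_of_dvd (Nat.pos_of_ne_zero hw0) h5⟩

theorem log_bounds (n e : ℕ) (h : Nat.log 2 (xpart n 1) = e) :
    2 ^ e ≤ xpart n 1 ∧ xpart n 1 < 2 * 2 ^ e := by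
  have hp := xpart_pos n 1
  refine ⟨?_, ?_⟩
  · rw [← h]
    exact Nat.pow_log_le_self 2 hp.ne'
  · rw [← h, ← pow_succ']
    exact Nat.lt_pow_succ_log_self (by norm_num) _

/-- one dyadic class -/
theorem class_bound (τ : ℝ) (hτ : 0 < τ) : ∃ C : ℝ, 1 ≤ C ∧ ∀ (Z X : ℕ) (Y e : ℝ) (α β γ : ℕ)
    (S : Finset (ℕ × ℕ)), 1 ≤ Z → 1 ≤ X → 2 * X ≤ Z → 1 ≤ Y → 0 ≤ e → e ≤ 1 →
    (X : ℝ) ≤ 2 * Y ^ (1 / 2 : ℝ) →
    (∀ q ∈ S, 1 ≤ q.1 ∧ 1 ≤ q.2 ∧ Nat.Coprime q.1 q.2 ∧ X ≤ q.1 + q.2 ∧ q.1 + q.2 < 2 * X ∧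
      (rd (q.1 * q.2 * (q.1 + q.2)) : ℝ) ≤ Y ∧
      Y ^ (1 - e) ≤ (rd (q.1 * q.2 * (q.1 + q.2)) : ℝ) ∧
      Nat.log 2 (xpart q.1 1) = α ∧ Nat.log 2 (xpart q.2 1) = β ∧
      Nat.log 2 (xpart (q.1 + q.2) 1) = γ) →
    (S.card : ℝ) ≤ C * (Z : ℝ) ^ τ * Y ^ (2 * e) * (Y / X) := by
  classical
  obtain ⟨C3, hC31, hC3⟩ := TfM.card_triple τ hτ
  refine ⟨1040 * C3, by linarith, ?_⟩
  intro Z X Y e α β γ S hZ hX hXZ hY he0 he1 hXY hS
  have hZ0 : (0 : ℝ) < Z := by exact_mod_cast hZ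
  have hX0 : (0 : ℝ) < X := by exact_mod_cast hX
  have hY0 : 0 < Y := by linarith
  rcases S.eq_empty_or_nonempty with rfl | ⟨q0, hq0⟩
  · simp only [Finset.card_empty, Nat.cast_zero]
    positivity
  set P : ℝ := (2 : ℝ) ^ (α + β + γ) with hP
  have hP0 : 0 < P := by positivity
  have hrdall : ∀ q : ℕ × ℕ, 1 ≤ q.1 → 1 ≤ q.2 → Nat.Coprime q.1 q.2 →
      rd (q.1 * q.2 * (q.1 + q.2)) = rd q.1 * rd q.2 * rd (q.1 + q.2) := by
    intro q h1 h2 h4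
    have hcop1 : Nat.Coprime (q.1 * q.2) (q.1 + q.2) := by
      apply Nat.Coprime.mul_left
      · rw [Nat.coprime_self_add_right]
        exact h4
      · rw [Nat.coprime_add_self_right]
        exact h4.symm
    rw [rd_mul_coprime _ _ (by positivity) (by omega) hcop1,
      rd_mul_coprime _ _ (by omega) (by omega) h4]
  set f : ℕ × ℕ → ℕ × ℕ × ℕ := fun q =>
    (q.1 / xpart q.1 1, q.2 / xpart q.2 1, (q.1 + q.2) / xpart (q.1 + q.2) 1) with hf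
  set T := (Icc 1 Z ×ˢ Icc 1 Z ×ˢ Icc 1 Z).filter
      (fun q : ℕ × ℕ × ℕ => (rd q.1 : ℝ) * rd q.2.1 * rd q.2.2 ≤ Y / P) with hT
  have hmaps : ∀ q ∈ S, f q ∈ T := by
    intro q hq
    obtain ⟨h1, h2, h3, h4, h5, h6, h7, g1, g2, g3⟩ := hS q hq
    obtain ⟨u1, u2, u3, u4⟩ := piece q.1 (by omega)
    obtain ⟨v1, v2, v3, v4⟩ := piece q.2 (by omega)
    obtain ⟨w1, w2, w3, w4⟩ := piece (q.1 + q.2) (by omega)
    have ul : q.1 / xpart q.1 1 ≤ q.1 := Nat.div_le_self _ _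
    have vl : q.2 / xpart q.2 1 ≤ q.2 := Nat.div_le_self _ _
    have wl : (q.1 + q.2) / xpart (q.1 + q.2) 1 ≤ q.1 + q.2 := Nat.div_le_self _ _
    rw [hT, Finset.mem_filter, Finset.mem_product, Finset.mem_product, Finset.mem_Icc,
      Finset.mem_Icc, Finset.mem_Icc]
    simp only [hf]
    refine ⟨⟨⟨Nat.one_le_iff_ne_zero.2 u1, by omega⟩, ⟨Nat.one_le_iff_ne_zero.2 v1, by omega⟩,
      ⟨Nat.one_le_iff_ne_zero.2 w1, by omega⟩⟩, ?_⟩
    rw [le_div_iff₀ hP0]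
    have hxyz : P ≤ (xpart q.1 1 : ℝ) * xpart q.2 1 * xpart (q.1 + q.2) 1 := by
      rw [hP, pow_add, pow_add]
      have hx' : (2 : ℝ) ^ α ≤ (xpart q.1 1 : ℝ) := by exact_mod_cast (log_bounds _ _ g1).1
      have hy' : (2 : ℝ) ^ β ≤ (xpart q.2 1 : ℝ) := by exact_mod_cast (log_bounds _ _ g2).1
      have hz' : (2 : ℝ) ^ γ ≤ (xpart (q.1 + q.2) 1 : ℝ) := by
        exact_mod_cast (log_bounds _ _ g3).1
      exact mul_le_mul (mul_le_mul hx' hy' (by positivity) (by positivity)) hz' (by positivity)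
        (by positivity)
    calc (rd (q.1 / xpart q.1 1) : ℝ) * rd (q.2 / xpart q.2 1) *
          rd ((q.1 + q.2) / xpart (q.1 + q.2) 1) * P
        ≤ (rd (q.1 / xpart q.1 1) : ℝ) * rd (q.2 / xpart q.2 1) *
          rd ((q.1 + q.2) / xpart (q.1 + q.2) 1) *
          ((xpart q.1 1 : ℝ) * xpart q.2 1 * xpart (q.1 + q.2) 1) :=
          mul_le_mul_of_nonneg_left hxyz (by positivity)
      _ = (rd (q.1 * q.2 * (q.1 + q.2)) : ℝ) := by
          rw [hrdall q h1 h2 h3]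
          conv_rhs => rw [u3, v3, w3]
          push_cast
          ring
      _ ≤ Y := h6
  -- fibres
  set B : ℝ := 1 + 16 * P / X with hB
  have hB0 : 0 ≤ B := by positivity
  have hfib : ∀ t ∈ T, (((S.filter (fun q => f q = t)).card : ℕ) : ℝ) ≤ B := by
    intro t ht
    rw [hT, Finset.mem_filter, Finset.mem_product, Finset.mem_product, Finset.mem_Icc,
      Finset.mem_Icc, Finset.mem_Icc] at ht
    obtain ⟨⟨⟨t1, t2⟩, ⟨t3, t4⟩, ⟨t5, t6⟩⟩, -⟩ := ht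
    rcases (S.filter (fun q => f q = t)).eq_empty_or_nonempty with hemp | ⟨q1, hq1⟩
    · rw [hemp, Finset.card_empty, Nat.cast_zero]
      exact hB0
    set g : ℕ × ℕ → ℕ × ℕ × ℕ := fun q =>
      (xpart q.1 1, xpart q.2 1, xpart (q.1 + q.2) 1) with hg
    have hinj : Set.InjOn g (S.filter (fun q => f q = t) : Finset (ℕ × ℕ)) := by
      intro q hq q' hq' hgg
      rw [Finset.mem_coe, Finset.mem_filter] at hq hq'
      obtain ⟨hqS, hqt⟩ := hq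
      obtain ⟨hqS', hqt'⟩ := hq'
      obtain ⟨h1, h2, -⟩ := hS q hqS
      obtain ⟨h1', h2', -⟩ := hS q' hqS'
      simp only [hf] at hqt hqt'
      simp only [hg, Prod.mk.injEq] at hgg
      rw [← hqt'] at hqt
      have e1 : q.1 / xpart q.1 1 = q'.1 / xpart q'.1 1 := (Prod.mk.inj hqt).1
      have e2 : q.2 / xpart q.2 1 = q'.2 / xpart q'.2 1 := (Prod.mk.inj (Prod.mk.inj hqt).2).1
      have e3 : q.1 = q'.1 := by
        have k1 := (piece q.1 (by omega)).2.1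
        have k2 := (piece q'.1 (by omega)).2.1
        rw [← k1, ← k2, e1, hgg.1]
      have e4 : q.2 = q'.2 := by
        have k1 := (piece q.2 (by omega)).2.1
        have k2 := (piece q'.2 (by omega)).2.1
        rw [← k1, ← k2, e2, hgg.2.1]
      exact Prod.ext e3 e4
    rw [← Finset.card_image_of_injOn hinj]
    -- data from q1
    rw [Finset.mem_filter] at hq1
    obtain ⟨hq1S, hq1t⟩ := hq1
    obtain ⟨r1, r2, r3, r4, r5, r6, r7, s1, s2, s3⟩ := hS q1 hq1S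
    obtain ⟨u1, u2, u3, u4⟩ := piece q1.1 (by omega)
    obtain ⟨v1, v2, v3, v4⟩ := piece q1.2 (by omega)
    obtain ⟨w1, w2, w3, w4⟩ := piece (q1.1 + q1.2) (by omega)
    have ta : t.1 = q1.1 / xpart q1.1 1 := by rw [← hq1t]
    have tb : t.2.1 = q1.2 / xpart q1.2 1 := by rw [← hq1t]
    have tc : t.2.2 = (q1.1 + q1.2) / xpart (q1.1 + q1.2) 1 := by rw [← hq1t]
    have hac : Nat.Coprime t.1 t.2.2 := by
      have h1 : t.1 ∣ q1.1 := by rw [ta]; exact ⟨_, u2.symm⟩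
      have h2 : t.2.2 ∣ q1.1 + q1.2 := by rw [tc]; exact ⟨_, w2.symm⟩
      refine Nat.Coprime.coprime_dvd_left h1 (Nat.Coprime.coprime_dvd_right h2 ?_)
      rw [Nat.coprime_self_add_right]
      exact r3
    have h := lg_lattice t.1 t.2.1 t.2.2 (2 ^ α) (2 ^ β) t1 t3 t5 Nat.one_le_two_pow
      Nat.one_le_two_pow hac ((S.filter (fun q => f q = t)).image g) ?_
    · refine h.trans ?_
      rw [hB]
      have hc0 : (0 : ℝ) < t.2.2 := by exact_mod_cast t5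
      have hcz : (X : ℝ) ≤ t.2.2 * (2 * 2 ^ γ) := by
        have h1 : X ≤ t.2.2 * xpart (q1.1 + q1.2) 1 := by
          rw [tc, w2]; exact r4
        have h2 : xpart (q1.1 + q1.2) 1 ≤ 2 * 2 ^ γ := (log_bounds _ _ s3).2.le
        have h3 := h1.trans (Nat.mul_le_mul_left _ h2)
        exact_mod_cast h3
      have h5 : 8 * ((2 ^ α : ℕ) : ℝ) * ((2 ^ β : ℕ) : ℝ) / t.2.2 ≤ 16 * P / X := by
        rw [div_le_div_iff₀ hc0 hX0, hP]
        push_cast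
        have h6 : (0 : ℝ) ≤ 8 * 2 ^ α * 2 ^ β := by positivity
        have h7 := mul_le_mul_of_nonneg_left hcz h6
        calc 8 * (2 : ℝ) ^ α * 2 ^ β * X ≤ 8 * 2 ^ α * 2 ^ β * (t.2.2 * (2 * 2 ^ γ)) := h7
          _ = 16 * 2 ^ (α + β + γ) * t.2.2 := by
            rw [pow_add, pow_add]; ring
      linarith
    · intro v hv
      obtain ⟨q, hq, rfl⟩ := Finset.mem_image.1 hv
      rw [Finset.mem_filter] at hq
      obtain ⟨hqS, hqt⟩ := hq
      obtain ⟨h1, h2, h3, h4, h5, h6, h7, g1, g2, g3⟩ := hS q hqS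
      obtain ⟨u1', u2', u3', -⟩ := piece q.1 (by omega)
      obtain ⟨v1', v2', v3', -⟩ := piece q.2 (by omega)
      obtain ⟨w1', w2', w3', -⟩ := piece (q.1 + q.2) (by omega)
      refine ⟨(log_bounds _ _ g1).1, (log_bounds _ _ g1).2, (log_bounds _ _ g2).1,
        (log_bounds _ _ g2).2, ?_, ?_⟩
      · simp only [hg]
        have k1 : xpart q.1 1 ∣ q.1 := ⟨_, by rw [mul_comm]; exact u2'.symm⟩
        have k2 : xpart q.2 1 ∣ q.2 := ⟨_, by rw [mul_comm]; exact v2'.symm⟩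
        exact Nat.Coprime.coprime_dvd_left k1 (Nat.Coprime.coprime_dvd_right k2 h3)
      · rw [← hqt]
        simp only [hf, hg]
        rw [u2', v2', w2']
  have hcard : (S.card : ℝ) ≤ T.card * B := by
    rw [Finset.card_eq_sum_card_fiberwise (f := f) (t := T) (fun q hq => hmaps q hq)]
    push_cast
    calc ∑ t ∈ T, (((S.filter (fun q => f q = t)).card : ℕ) : ℝ) ≤ ∑ t ∈ T, B :=
          Finset.sum_le_sum hfib
      _ = T.card * B := by rw [Finset.sum_const, nsmul_eq_mul]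
  have hTc := hC3 Z (Y / P) hZ (by positivity)
  -- the bound for P
  have hPlow : Y / P ≤ 1024 * Y ^ (2 * e) * (Y / X) := by
    obtain ⟨h1, h2, h3, h4, h5, h6, h7, g1, g2, g3⟩ := hS q0 hq0
    obtain ⟨u1, u2, u3, u4⟩ := piece q0.1 (by omega)
    obtain ⟨v1, v2, v3, v4⟩ := piece q0.2 (by omega)
    obtain ⟨w1, w2, w3, w4⟩ := piece (q0.1 + q0.2) (by omega)
    set x := xpart q0.1 1 with hx
    set y := xpart q0.2 1 with hy
    set z := xpart (q0.1 + q0.2) 1 with hz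
    set a := q0.1 / x with haa
    set b := q0.2 / y with hbb
    set c := (q0.1 + q0.2) / z with hcc
    have hxP : (x : ℝ) * y * z ≤ 8 * P := by
      have k1 : (x : ℝ) ≤ 2 * 2 ^ α := by exact_mod_cast (log_bounds _ _ g1).2.le
      have k2 : (y : ℝ) ≤ 2 * 2 ^ β := by exact_mod_cast (log_bounds _ _ g2).2.le
      have k3 : (z : ℝ) ≤ 2 * 2 ^ γ := by exact_mod_cast (log_bounds _ _ g3).2.le
      calc (x : ℝ) * y * z ≤ (2 * 2 ^ α) * (2 * 2 ^ β) * (2 * 2 ^ γ) :=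
            mul_le_mul (mul_le_mul k1 k2 (by positivity) (by positivity)) k3 (by positivity)
              (by positivity)
        _ = 8 * P := by
            rw [hP, pow_add, pow_add]; ring
    have hr2 : ((rd a : ℝ) * rd b * rd c) ^ 2 * ((x : ℝ) * y * z) ≤ 8 * (X : ℝ) ^ 3 := by
      have k1 : (rd a : ℝ) ^ 2 * x ≤ 2 * X := by
        have : rd a ^ 2 * x ≤ 2 * X := by
          calc rd a ^ 2 * x ≤ a * x := Nat.mul_le_mul_right _ u4
            _ = q0.1 := u2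
            _ ≤ 2 * X := by omega
        exact_mod_cast this
      have k2 : (rd b : ℝ) ^ 2 * y ≤ 2 * X := by
        have : rd b ^ 2 * y ≤ 2 * X := by
          calc rd b ^ 2 * y ≤ b * y := Nat.mul_le_mul_right _ v4
            _ = q0.2 := v2
            _ ≤ 2 * X := by omega
        exact_mod_cast this
      have k3 : (rd c : ℝ) ^ 2 * z ≤ 2 * X := by
        have : rd c ^ 2 * z ≤ 2 * X := by
          calc rd c ^ 2 * z ≤ c * z := Nat.mul_le_mul_right _ w4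
            _ = q0.1 + q0.2 := w2
            _ ≤ 2 * X := by omega
        exact_mod_cast this
      calc ((rd a : ℝ) * rd b * rd c) ^ 2 * ((x : ℝ) * y * z)
          = ((rd a : ℝ) ^ 2 * x) * ((rd b : ℝ) ^ 2 * y) * ((rd c : ℝ) ^ 2 * z) := by ring
        _ ≤ (2 * (X : ℝ)) * (2 * (X : ℝ)) * (2 * (X : ℝ)) :=
            mul_le_mul (mul_le_mul k1 k2 (by positivity) (by positivity)) k3 (by positivity)
              (by positivity)
        _ = 8 * (X : ℝ) ^ 3 := by ring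
    have hrd : ((rd (q0.1 * q0.2 * (q0.1 + q0.2)) : ℕ) : ℝ) =
        ((rd a : ℝ) * rd b * rd c) * ((x : ℝ) * y * z) := by
      rw [hrdall q0 h1 h2 h3, u3, v3, w3]
      push_cast
      ring
    rw [hrd] at h7
    set r : ℝ := (rd a : ℝ) * rd b * rd c with hr
    set m : ℝ := (x : ℝ) * y * z with hm
    have hm0 : 0 ≤ m := by positivity
    have hr0 : 0 ≤ r := by positivity
    have hYe : Y ^ (1 - e) * Y ^ (1 - e) ≤ 8 * (X : ℝ) ^ 3 * m := by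
      have hpos : 0 ≤ Y ^ (1 - e) := Real.rpow_nonneg hY0.le _
      calc Y ^ (1 - e) * Y ^ (1 - e) ≤ (r * m) * (r * m) := mul_le_mul h7 h7 hpos (by positivity)
        _ = (r ^ 2 * m) * m := by ring
        _ ≤ 8 * (X : ℝ) ^ 3 * m := mul_le_mul_of_nonneg_right hr2 hm0
    have hX4 : (X : ℝ) ^ 4 ≤ 16 * Y ^ 2 := by
      have k1 : (X : ℝ) ^ 4 ≤ (2 * Y ^ (1 / 2 : ℝ)) ^ 4 := pow_le_pow_left₀ hX0.le hXY 4
      have k2 : (2 * Y ^ (1 / 2 : ℝ)) ^ 4 = 16 * Y ^ 2 := by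
        rw [mul_pow, ← Real.rpow_natCast (Y ^ (1 / 2 : ℝ)) 4, ← Real.rpow_mul hY0.le]
        norm_num
      rwa [k2] at k1
    have hY2 : Y ^ 2 = Y ^ (2 * e) * (Y ^ (1 - e) * Y ^ (1 - e)) := by
      rw [← Real.rpow_add hY0, ← Real.rpow_add hY0, ← Real.rpow_natCast]
      congr 1
      push_cast
      ring
    have hYep : 0 < Y ^ (2 * e) := Real.rpow_pos_of_pos hY0 _
    have hY2P : Y ^ 2 ≤ Y ^ (2 * e) * (64 * (X : ℝ) ^ 3 * P) := by
      rw [hY2]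
      refine mul_le_mul_of_nonneg_left (hYe.trans ?_) hYep.le
      have : 8 * (X : ℝ) ^ 3 * m ≤ 8 * (X : ℝ) ^ 3 * (8 * P) :=
        mul_le_mul_of_nonneg_left hxP (by positivity)
      linarith
    -- X * X^3 * Y^2 ≤ 16 Y^2 * ...
    have hfin : Y * X ≤ 1024 * Y ^ (2 * e) * Y * P := by
      -- multiply by X^3 Y^1
      have k1 : (X : ℝ) ^ 4 * Y ^ 2 ≤ 16 * Y ^ 2 * (Y ^ (2 * e) * (64 * (X : ℝ) ^ 3 * P)) :=
        mul_le_mul hX4 hY2P (by positivity) (by positivity)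
      have k2 : ((X : ℝ) ^ 3 * Y) * (Y * X) ≤
          ((X : ℝ) ^ 3 * Y) * (1024 * Y ^ (2 * e) * Y * P) := by
        calc ((X : ℝ) ^ 3 * Y) * (Y * X) = (X : ℝ) ^ 4 * Y ^ 2 := by ring
          _ ≤ _ := k1
          _ = _ := by ring
      exact le_of_mul_le_mul_left k2 (by positivity)
    rw [div_le_iff₀ hP0]
    have : 1024 * Y ^ (2 * e) * (Y / X) * P = (1024 * Y ^ (2 * e) * Y * P) / X := by
      field_simp
    rw [this, le_div_iff₀ hX0]
    exact hfin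
  have hYe1 : 1 ≤ Y ^ (2 * e) := Real.one_le_rpow hY (by linarith)
  have hYX : 0 ≤ Y / X := by positivity
  calc (S.card : ℝ) ≤ T.card * B := hcard
    _ ≤ (C3 * (Z : ℝ) ^ τ * (Y / P)) * B := mul_le_mul_of_nonneg_right hTc hB0
    _ = C3 * (Z : ℝ) ^ τ * (Y / P + 16 * (Y / X)) := by
        rw [hB]
        field_simp
    _ ≤ C3 * (Z : ℝ) ^ τ * (1024 * Y ^ (2 * e) * (Y / X) + 16 * (Y ^ (2 * e) * (Y / X))) := by
        apply mul_le_mul_of_nonneg_left _ (by positivity)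
        have : Y / X ≤ Y ^ (2 * e) * (Y / X) := le_mul_of_one_le_left hYX hYe1
        linarith
    _ = 1040 * C3 * (Z : ℝ) ^ τ * Y ^ (2 * e) * (Y / X) := by ring

end LgT

theorem lg_small (σ : ℝ) (hσ : 0 < σ) : ∃ C : ℝ, 1 ≤ C ∧ ∀ (Z X : ℕ) (Y e : ℝ)
    (S : Finset (ℕ × ℕ)), 1 ≤ Z → 1 ≤ X → 2 * X ≤ Z → 1 ≤ Y → 0 ≤ e → e ≤ 1 →
    (X : ℝ) ≤ 2 * Y ^ (1 / 2 : ℝ) →
    (∀ q ∈ S, 1 ≤ q.1 ∧ 1 ≤ q.2 ∧ Nat.Coprime q.1 q.2 ∧ X ≤ q.1 + q.2 ∧ q.1 + q.2 < 2 * X ∧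
      (rd (q.1 * q.2 * (q.1 + q.2)) : ℝ) ≤ Y ∧
      Y ^ (1 - e) ≤ (rd (q.1 * q.2 * (q.1 + q.2)) : ℝ)) →
    (S.card : ℝ) ≤ C * (Z : ℝ) ^ σ * Y ^ (2 * e) * (Y / X) := by
  classical
  obtain ⟨C1, hC11, hC1⟩ := LgT.class_bound (σ / 4) (by positivity)
  obtain ⟨C2, hC21, hC2⟩ := I1_log (σ / 4) (by positivity)
  refine ⟨C2 ^ 3 * C1, one_le_mul_of_one_le_of_one_le (one_le_pow₀ hC21) hC11, ?_⟩
  intro Z X Y e S hZ hX hXZ hY he0 he1 hXY hS
  have hZ0 : (0 : ℝ) < Z := by exact_mod_cast hZ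
  have hX0 : (0 : ℝ) < X := by exact_mod_cast hX
  have hY0 : 0 < Y := by linarith
  have hxle : ∀ n : ℕ, n ≠ 0 → xpart n 1 ≤ n := by
    intro n hn
    have h1 := (LgT.piece n hn).2.1
    have h2 := (LgT.piece n hn).1
    calc xpart n 1 = 1 * xpart n 1 := (one_mul _).symm
      _ ≤ n / xpart n 1 * xpart n 1 := Nat.mul_le_mul_right _ (Nat.one_le_iff_ne_zero.2 h2)
      _ = n := h1
  set L := Nat.log 2 Z with hL
  set f : ℕ × ℕ → ℕ × ℕ × ℕ := fun q =>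
    (Nat.log 2 (xpart q.1 1), Nat.log 2 (xpart q.2 1), Nat.log 2 (xpart (q.1 + q.2) 1)) with hf
  set T := Finset.range (L + 1) ×ˢ Finset.range (L + 1) ×ˢ Finset.range (L + 1) with hT
  have hmaps : ∀ q ∈ S, f q ∈ T := by
    intro q hq
    obtain ⟨h1, h2, h3, h4, h5, -⟩ := hS q hq
    rw [hT, Finset.mem_product, Finset.mem_product, Finset.mem_range, Finset.mem_range,
      Finset.mem_range]
    simp only [hf]
    have e1 := hxle q.1 (by omega)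
    have e2 := hxle q.2 (by omega)
    have e3 := hxle (q.1 + q.2) (by omega)
    have e4 : Nat.log 2 (xpart q.1 1) ≤ L := Nat.log_mono_right (by omega)
    have e5 : Nat.log 2 (xpart q.2 1) ≤ L := Nat.log_mono_right (by omega)
    have e6 : Nat.log 2 (xpart (q.1 + q.2) 1) ≤ L := Nat.log_mono_right (by omega)
    omega
  have hYX : 0 ≤ Y / X := by positivity
  have hYe : 0 ≤ Y ^ (2 * e) := Real.rpow_nonneg hY0.le _
  have hfib : ∀ t ∈ T, (((S.filter (fun q => f q = t)).card : ℕ) : ℝ) ≤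
      C1 * (Z : ℝ) ^ (σ / 4) * Y ^ (2 * e) * (Y / X) := by
    intro t _
    refine hC1 Z X Y e t.1 t.2.1 t.2.2 _ hZ hX hXZ hY he0 he1 hXY ?_
    intro q hq
    rw [Finset.mem_filter] at hq
    obtain ⟨h1, h2, h3, h4, h5, h6, h7⟩ := hS q hq.1
    have h8 : f q = t := hq.2
    simp only [hf] at h8
    have h9 := Prod.ext_iff.1 h8
    have h10 := Prod.ext_iff.1 h9.2
    exact ⟨h1, h2, h3, h4, h5, h6, h7, h9.1, h10.1, h10.2⟩
  have hTc : ((T.card : ℕ) : ℝ) ≤ (C2 * (Z : ℝ) ^ (σ / 4)) ^ 3 := by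
    rw [hT, Finset.card_product, Finset.card_product, Finset.card_range]
    push_cast
    have h1 := hC2 Z hZ
    have h2 : (0 : ℝ) ≤ (L : ℝ) + 1 := by positivity
    calc ((L : ℝ) + 1) * (((L : ℝ) + 1) * ((L : ℝ) + 1)) = ((L : ℝ) + 1) ^ 3 := by ring
      _ ≤ _ := pow_le_pow_left₀ h2 h1 3
  have hcard : (S.card : ℝ) ≤ T.card * (C1 * (Z : ℝ) ^ (σ / 4) * Y ^ (2 * e) * (Y / X)) := by
    rw [Finset.card_eq_sum_card_fiberwise (f := f) (t := T) (fun q hq => hmaps q hq)]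
    push_cast
    calc ∑ t ∈ T, (((S.filter (fun q => f q = t)).card : ℕ) : ℝ) ≤
          ∑ t ∈ T, (C1 * (Z : ℝ) ^ (σ / 4) * Y ^ (2 * e) * (Y / X)) := Finset.sum_le_sum hfib
      _ = T.card * (C1 * (Z : ℝ) ^ (σ / 4) * Y ^ (2 * e) * (Y / X)) := by
          rw [Finset.sum_const, nsmul_eq_mul]
  have hZσ : ((Z : ℝ) ^ (σ / 4)) ^ 3 * (Z : ℝ) ^ (σ / 4) = (Z : ℝ) ^ σ := by
    rw [← Real.rpow_natCast, ← Real.rpow_mul hZ0.le, ← Real.rpow_add hZ0]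
    congr 1
    push_cast
    ring
  calc (S.card : ℝ) ≤ T.card * (C1 * (Z : ℝ) ^ (σ / 4) * Y ^ (2 * e) * (Y / X)) := hcard
    _ ≤ (C2 * (Z : ℝ) ^ (σ / 4)) ^ 3 * (C1 * (Z : ℝ) ^ (σ / 4) * Y ^ (2 * e) * (Y / X)) :=
        mul_le_mul_of_nonneg_right hTc (by positivity)
    _ = C2 ^ 3 * C1 * (((Z : ℝ) ^ (σ / 4)) ^ 3 * (Z : ℝ) ^ (σ / 4)) * Y ^ (2 * e) *
        (Y / X) := by ring
    _ = C2 ^ 3 * C1 * (Z : ℝ) ^ σ * Y ^ (2 * e) * (Y / X) := by rw [hZσ]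

end Pool.Agent.Lib.MP_d8bd92_nt
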