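import Pool.Agent.Lib.MP_d8bd92_nt.LgDefs
import Pool.Agent.Lib.MP_d8bd92_nt.TwRad
import Pool.Agent.Lib.MP_d8bd92_nt.CdI1
import Pool.Agent.Lib.MP_d8bd92_nt.LgP
import Pool.Agent.Lib.MP_d8bd92_nt.LgT

set_option autoImplicit false

/-!
Row Q: the upper bound for the number of sums.
-/

namespace Pool.Agent.Lib.MP_d8bd92_nt

open Finset Pool.Agent.Lib.Szpiro


namespace LgQ

theorem three (x y z Q : ℝ) (hQ : 0 ≤ Q)
    (h : (x * y * z) ^ 2 ≤ Q ^ 3) : x * y ≤ Q ∨ x * z ≤ Q ∨ y * z ≤ Q := by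
  by_contra hc
  push Not at hc
  obtain ⟨h1, h2, h3⟩ := hc
  have h4 : Q * Q < (x * y) * (x * z) := mul_lt_mul'' h1 h2 hQ hQ
  have h5 : (Q * Q) * Q < ((x * y) * (x * z)) * (y * z) := mul_lt_mul'' h4 h3 (by positivity) hQ
  nlinarith

theorem rd_three (a b : ℕ) (ha : 1 ≤ a) (hb : 1 ≤ b) (h : Nat.Coprime a b) :
    (rd (a * b * (a + b)) : ℝ) = (rd a : ℝ) * rd b * rd (a + b) := by
  have h1 : Nat.Coprime (a * b) (a + b) := by
    refine Nat.Coprime.mul_left ?_ ?_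
    · simpa using h
    · simpa using h.symm
  rw [rd_mul_coprime (a * b) (a + b) (by positivity) (by omega) h1,
    rd_mul_coprime a b (by omega) (by omega) h]
  push_cast
  ring

/-- the choice of the part -/
theorem part (f : ℕ → ℝ) (t : ℝ) (n : ℕ) (h0 : t ≤ f 0) (hn : f n < t) :
    ∃ i, i < n ∧ f (i + 1) < t ∧ t ≤ f i := by
  induction n with
  | zero => exact absurd h0 (not_le.2 hn)
  | succ n ih =>
    rcases lt_or_ge (f n) t with h | h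
    · obtain ⟨i, h1, h2, h3⟩ := ih h
      exact ⟨i, by omega, h2, h3⟩
    · exact ⟨n, by omega, hn, h⟩

/-- the part with `c < y ^ (1/2)` -/
theorem small (σ : ℝ) (hσ : 0 < σ) (hσ1 : σ ≤ 1) : ∃ C : ℝ, 1 ≤ C ∧ ∀ (Y t : ℝ) (n i : ℕ)
    (S : Finset (ℕ × ℕ)), 1 ≤ Y → 0 ≤ t → t ≤ 1 → 1 ≤ n → i < n →
    (∀ q ∈ S, 1 ≤ q.1 ∧ 1 ≤ q.2 ∧ Nat.Coprime q.1 q.2 ∧
      ((q.1 + q.2 : ℕ) : ℝ) < (Y ^ (1 - (i : ℝ) / (2 * n))) ^ (1 / 2 : ℝ) ∧
      (rd (q.1 * q.2 * (q.1 + q.2)) : ℝ) ≤ Y ^ (1 - (i : ℝ) / (2 * n)) ∧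
      Y ^ (1 - ((i + 1 : ℕ) : ℝ) / (2 * n)) < (rd (q.1 * q.2 * (q.1 + q.2)) : ℝ) ∧
      (rd (q.1 * q.2 * (q.1 + q.2)) : ℝ) ^ t ≤ ((q.1 + q.2 : ℕ) : ℝ)) →
    (S.card : ℝ) ≤ C * Y ^ (2 * σ + 5 / (2 * n) + 1 - t) := by
  classical
  obtain ⟨C3, hC31, hC3⟩ := lg_small σ hσ
  obtain ⟨C4, hC41, hC4⟩ := I1_log σ hσ
  refine ⟨4 * C3 * C4, by nlinarith, ?_⟩
  intro Y t n i S hY ht0 ht1 hn hi hS
  have hY0 : 0 < Y := by linarith
  have hn1 : (1 : ℝ) ≤ n := by exact_mod_cast hn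
  have hn0 : (0 : ℝ) < n := by linarith
  have hin : (i : ℝ) + 1 ≤ n := by exact_mod_cast hi
  have hi0 : (0 : ℝ) ≤ i := Nat.cast_nonneg i
  have hexp : (i : ℝ) / (2 * n) ≤ 1 / 2 := by
    rw [div_le_iff₀ (by positivity)]
    nlinarith
  have hexp0 : 0 ≤ (i : ℝ) / (2 * n) := by positivity
  set y : ℝ := Y ^ (1 - (i : ℝ) / (2 * n)) with hy
  have hy1 : 1 ≤ y := Real.one_le_rpow hY (by linarith)
  have hy0 : 0 < y := by linarith
  have hyY : y ≤ Y := by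
    calc y ≤ Y ^ (1 : ℝ) := Real.rpow_le_rpow_of_exponent_le hY (by linarith)
      _ = Y := Real.rpow_one Y
  have hysq : y ^ (1 / 2 : ℝ) ≤ y := by
    calc y ^ (1 / 2 : ℝ) ≤ y ^ (1 : ℝ) := Real.rpow_le_rpow_of_exponent_le hy1 (by norm_num)
      _ = y := Real.rpow_one y
  set L := Nat.log 2 ⌊Y⌋₊ with hL
  have hF1 : 1 ≤ ⌊Y⌋₊ := (Nat.one_le_floor_iff _).2 hY
  set cell : ℕ → Finset (ℕ × ℕ) := fun m => S.filter (fun q => Nat.log 2 (q.1 + q.2) = m) with hcell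
  have hsub : S ⊆ (range (L + 1)).biUnion cell := by
    intro q hq
    rw [Finset.mem_biUnion]
    refine ⟨Nat.log 2 (q.1 + q.2), ?_, Finset.mem_filter.2 ⟨hq, rfl⟩⟩
    rw [Finset.mem_range, Nat.lt_succ_iff]
    apply Nat.log_mono_right
    apply Nat.le_floor
    obtain ⟨_, _, _, h4, _, _, _⟩ := hS q hq
    linarith
  have hc : ∀ m ∈ range (L + 1), ((cell m).card : ℝ) ≤
      4 * C3 * Y ^ (σ + 5 / (2 * n) + 1 - t) := by
    intro m _
    rcases (cell m).eq_empty_or_nonempty with he | ⟨q0, hq0⟩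
    · rw [he]
      simp only [Finset.card_empty, Nat.cast_zero]
      positivity
    have hX1 : 1 ≤ 2 ^ m := Nat.one_le_two_pow
    have hmem : ∀ q ∈ cell m, 2 ^ m ≤ q.1 + q.2 ∧ q.1 + q.2 < 2 * 2 ^ m := by
      intro q hq
      obtain ⟨h1, h2⟩ := Finset.mem_filter.1 hq
      obtain ⟨a1, a2, _⟩ := hS q h1
      have hne : q.1 + q.2 ≠ 0 := by omega
      refine ⟨?_, ?_⟩
      · rw [← h2]
        exact Nat.pow_log_le_self 2 hne
      · rw [← h2]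
        have := Nat.lt_pow_succ_log_self (b := 2) (by norm_num) (q.1 + q.2)
        rw [Nat.succ_eq_add_one, pow_succ] at this
        omega
    have hq0S := (Finset.mem_filter.1 hq0).1
    obtain ⟨b1, b2, b3, b4, b5, b6, b7⟩ := hS q0 hq0S
    obtain ⟨b8, b9⟩ := hmem q0 hq0
    have hXc : ((2 ^ m : ℕ) : ℝ) ≤ ((q0.1 + q0.2 : ℕ) : ℝ) := by exact_mod_cast b8
    have hXY : ((2 ^ m : ℕ) : ℝ) ≤ Y := by linarith
    have hZ : 2 * 2 ^ m ≤ ⌊2 * Y⌋₊ := by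
      apply Nat.le_floor
      push_cast
      push_cast at hXY
      linarith
    have he : 0 ≤ 1 / (n : ℝ) := by positivity
    have he1 : 1 / (n : ℝ) ≤ 1 := by
      rw [div_le_one hn0]
      exact hn1
    have hX2 : ((2 ^ m : ℕ) : ℝ) ≤ 2 * y ^ (1 / 2 : ℝ) := by
      have : 0 < y ^ (1 / 2 : ℝ) := by positivity
      linarith
    have h := hC3 ⌊2 * Y⌋₊ (2 ^ m) y (1 / n) (cell m) (by omega) hX1 hZ hy1 he he1 hX2 (by
      intro q hq
      obtain ⟨h1, h2⟩ := Finset.mem_filter.1 hq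
      obtain ⟨a1, a2, a3, a4, a5, a6, a7⟩ := hS q h1
      obtain ⟨a8, a9⟩ := hmem q hq
      refine ⟨a1, a2, a3, a8, a9, a5, ?_⟩
      refine le_trans ?_ a6.le
      rw [hy, ← Real.rpow_mul hY0.le]
      apply Real.rpow_le_rpow_of_exponent_le hY
      push_cast
      have e1 : (1 - (i : ℝ) / (2 * n)) * (1 - 1 / n) =
        1 - (i : ℝ) / (2 * n) - (1 - (i : ℝ) / (2 * n)) * (1 / n) := by ring
      have e2 : ((i : ℝ) + 1) / (2 * n) = (i : ℝ) / (2 * n) + 1 / 2 * (1 / n) := by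
        field_simp
      rw [e1, e2]
      have e3 : 1 / 2 * (1 / (n : ℝ)) ≤ (1 - (i : ℝ) / (2 * n)) * (1 / n) :=
        mul_le_mul_of_nonneg_right (by linarith) he
      linarith)
    refine h.trans ?_
    -- the four factors
    have g1 : ((⌊2 * Y⌋₊ : ℕ) : ℝ) ^ σ ≤ 2 * Y ^ σ := by
      calc ((⌊2 * Y⌋₊ : ℕ) : ℝ) ^ σ ≤ (2 * Y) ^ σ :=
            Real.rpow_le_rpow (Nat.cast_nonneg _) (Nat.floor_le (by positivity)) hσ.le
        _ = 2 ^ σ * Y ^ σ := Real.mul_rpow (by norm_num) hY0.le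
        _ ≤ 2 * Y ^ σ := by
          apply mul_le_mul_of_nonneg_right _ (by positivity)
          calc (2 : ℝ) ^ σ ≤ (2 : ℝ) ^ (1 : ℝ) :=
                Real.rpow_le_rpow_of_exponent_le (by norm_num) hσ1
            _ = 2 := Real.rpow_one 2
    have g2 : y ^ (2 * (1 / (n : ℝ))) ≤ Y ^ (2 / (n : ℝ)) := by
      calc y ^ (2 * (1 / (n : ℝ))) ≤ Y ^ (2 * (1 / (n : ℝ))) :=
            Real.rpow_le_rpow hy0.le hyY (by positivity)
        _ = Y ^ (2 / (n : ℝ)) := by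
          congr 1
          ring
    have g3 : y / ((2 ^ m : ℕ) : ℝ) ≤ 2 * Y ^ (1 - t + 1 / (2 * n)) := by
      have hXpos : (0 : ℝ) < ((2 ^ m : ℕ) : ℝ) := by positivity
      rw [div_le_iff₀ hXpos]
      have c1 : (Y ^ (1 - ((i + 1 : ℕ) : ℝ) / (2 * n))) ^ t ≤ 2 * ((2 ^ m : ℕ) : ℝ) := by
        have d1 : (Y ^ (1 - ((i + 1 : ℕ) : ℝ) / (2 * n))) ^ t ≤ ((q0.1 + q0.2 : ℕ) : ℝ) :=
          (Real.rpow_le_rpow (by positivity) b6.le ht0).trans b7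
        have d2 : ((q0.1 + q0.2 : ℕ) : ℝ) ≤ 2 * ((2 ^ m : ℕ) : ℝ) := by exact_mod_cast b9.le
        exact d1.trans d2
      have c2 : y ≤ Y ^ (1 - t + 1 / (2 * n)) * (Y ^ (1 - ((i + 1 : ℕ) : ℝ) / (2 * n))) ^ t := by
        rw [← Real.rpow_mul hY0.le, ← Real.rpow_add hY0, hy]
        apply Real.rpow_le_rpow_of_exponent_le hY
        push_cast
        have e2 : ((i : ℝ) + 1) / (2 * n) = (i : ℝ) / (2 * n) + 1 / (2 * n) := by
          rw [add_div]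
        rw [e2]
        have e4 : 0 ≤ 1 / (2 * (n : ℝ)) := by positivity
        nlinarith [mul_nonneg hexp0 (by linarith : (0 : ℝ) ≤ 1 - t),
          mul_nonneg e4 (by linarith : (0 : ℝ) ≤ 1 - t)]
      calc y ≤ Y ^ (1 - t + 1 / (2 * n)) * (Y ^ (1 - ((i + 1 : ℕ) : ℝ) / (2 * n))) ^ t := c2
        _ ≤ Y ^ (1 - t + 1 / (2 * n)) * (2 * ((2 ^ m : ℕ) : ℝ)) :=
          mul_le_mul_of_nonneg_left c1 (by positivity)
        _ = 2 * Y ^ (1 - t + 1 / (2 * n)) * ((2 ^ m : ℕ) : ℝ) := by ring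
    calc C3 * ((⌊2 * Y⌋₊ : ℕ) : ℝ) ^ σ * y ^ (2 * (1 / (n : ℝ))) * (y / ((2 ^ m : ℕ) : ℝ))
        ≤ C3 * (2 * Y ^ σ) * Y ^ (2 / (n : ℝ)) * (2 * Y ^ (1 - t + 1 / (2 * n))) := by
          gcongr
      _ = 4 * C3 * (Y ^ σ * Y ^ (2 / (n : ℝ)) * Y ^ (1 - t + 1 / (2 * n))) := by ring
      _ = 4 * C3 * Y ^ (σ + 5 / (2 * n) + 1 - t) := by
          rw [← Real.rpow_add hY0, ← Real.rpow_add hY0]
          congr 2
          field_simp
          ring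
  have hcard : (S.card : ℝ) ≤ ∑ m ∈ range (L + 1), ((cell m).card : ℝ) := by
    have e1 := Finset.card_le_card hsub
    have e3 := Finset.card_biUnion_le (s := range (L + 1)) (t := cell)
    exact_mod_cast e1.trans e3
  have hL2 : ((L : ℕ) : ℝ) + 1 ≤ C4 * Y ^ σ := by
    refine (hC4 ⌊Y⌋₊ hF1).trans ?_
    apply mul_le_mul_of_nonneg_left _ (by linarith)
    exact Real.rpow_le_rpow (Nat.cast_nonneg _) (Nat.floor_le hY0.le) hσ.le
  calc (S.card : ℝ) ≤ ∑ m ∈ range (L + 1), ((cell m).card : ℝ) := hcard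
    _ ≤ ∑ m ∈ range (L + 1), 4 * C3 * Y ^ (σ + 5 / (2 * n) + 1 - t) := Finset.sum_le_sum hc
    _ = ((L : ℝ) + 1) * (4 * C3 * Y ^ (σ + 5 / (2 * n) + 1 - t)) := by
        rw [Finset.sum_const, Finset.card_range, nsmul_eq_mul]
        push_cast
        ring
    _ ≤ (C4 * Y ^ σ) * (4 * C3 * Y ^ (σ + 5 / (2 * n) + 1 - t)) := by
        apply mul_le_mul_of_nonneg_right hL2
        positivity
    _ = 4 * C3 * C4 * (Y ^ σ * Y ^ (σ + 5 / (2 * n) + 1 - t)) := by ring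
    _ = 4 * C3 * C4 * Y ^ (2 * σ + 5 / (2 * n) + 1 - t) := by
        rw [← Real.rpow_add hY0]
        congr 2
        ring

end LgQ

/-- the upper bound -/
theorem lg_upper (t ε κ : ℝ) (ht : 1 / 3 ≤ t) (ht' : t ≤ 11 / 30) (hε : 0 < ε) (hκ : 1 ≤ κ) :
    ∃ C : ℝ, 1 ≤ C ∧ ∀ (Y : ℝ) (S : Finset (ℕ × ℕ)), 1 ≤ Y →
    (∀ q ∈ S, 1 ≤ q.1 ∧ 1 ≤ q.2 ∧ Nat.Coprime q.1 q.2 ∧ ((q.1 + q.2 : ℕ) : ℝ) ≤ Y ^ κ ∧
      (rd (q.1 * q.2 * (q.1 + q.2)) : ℝ) ≤ Y ∧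
      (rd (q.1 * q.2 * (q.1 + q.2)) : ℝ) ^ t ≤ ((q.1 + q.2 : ℕ) : ℝ)) →
    (S.card : ℝ) ≤ C * Y ^ (1 - t + ε) := by
  classical
  have hκ0 : 0 < κ := by linarith
  set σ : ℝ := min (ε / 4) 1 with hσdef
  have hσ : 0 < σ := lt_min (by positivity) one_pos
  have hσ1 : σ ≤ 1 := min_le_right _ _
  have hσ4 : σ ≤ ε / 4 := min_le_left _ _
  obtain ⟨C1, hC11, hC1⟩ := card_evOne (1 / (10 * κ)) (by positivity)
  obtain ⟨C2, hC21, hC2⟩ := lg_scale (2 * κ) (by linarith)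
  obtain ⟨C3, hC31, hC3⟩ := LgQ.small σ hσ hσ1
  set n : ℕ := ⌈5 / ε⌉₊ + 1 with hn
  have hn1 : 1 ≤ n := by omega
  have hnR : (1 : ℝ) ≤ n := by exact_mod_cast hn1
  have hn0 : (0 : ℝ) < n := by linarith
  have hn5 : 5 / (2 * (n : ℝ)) ≤ ε / 2 := by
    have h1 : 5 / ε ≤ n := by
      have := Nat.le_ceil (5 / ε)
      rw [hn]
      push_cast
      linarith
    rw [div_le_iff₀ hε] at h1
    rw [div_le_iff₀ (by positivity)]
    nlinarith
  refine ⟨C1 + n * (C2 + C3), by nlinarith, ?_⟩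
  intro Y S hY hS
  have hY0 : 0 < Y := by linarith
  set r : ℕ × ℕ → ℝ := fun q => (rd (q.1 * q.2 * (q.1 + q.2)) : ℝ) with hr
  set f : ℕ → ℝ := fun i => Y ^ (1 - (i : ℝ) / (2 * n)) with hf
  set S0 := S.filter (fun q => r q ≤ f n) with hS0
  set Sb : ℕ → Finset (ℕ × ℕ) := fun i => S.filter (fun q => (f (i + 1) < r q ∧ r q ≤ f i) ∧
    (f i) ^ (1 / 2 : ℝ) ≤ ((q.1 + q.2 : ℕ) : ℝ)) with hSb
  set Ss : ℕ → Finset (ℕ × ℕ) := fun i => S.filter (fun q => (f (i + 1) < r q ∧ r q ≤ f i) ∧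
    ((q.1 + q.2 : ℕ) : ℝ) < (f i) ^ (1 / 2 : ℝ)) with hSs
  -- covering
  have hsub : S ⊆ S0 ∪ (range n).biUnion (fun i => Sb i ∪ Ss i) := by
    intro q hq
    rw [Finset.mem_union]
    rcases le_or_gt (r q) (f n) with h | h
    · exact Or.inl (Finset.mem_filter.2 ⟨hq, h⟩)
    · right
      have h0 : r q ≤ f 0 := by
        have h1 : f 0 = Y := by
          simp only [hf, Nat.cast_zero, zero_div, sub_zero, Real.rpow_one]
        rw [h1]
        exact (hS q hq).2.2.2.2.1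
      obtain ⟨i, hi1, hi2, hi3⟩ := LgQ.part f (r q) n h0 h
      rw [Finset.mem_biUnion]
      refine ⟨i, Finset.mem_range.2 hi1, ?_⟩
      rw [Finset.mem_union]
      rcases le_or_gt ((f i) ^ (1 / 2 : ℝ)) ((q.1 + q.2 : ℕ) : ℝ) with h' | h'
      · exact Or.inl (Finset.mem_filter.2 ⟨hq, ⟨hi2, hi3⟩, h'⟩)
      · exact Or.inr (Finset.mem_filter.2 ⟨hq, ⟨hi2, hi3⟩, h'⟩)
  -- part 0
  have hA : (S0.card : ℝ) ≤ C1 * Y ^ (1 - t + ε) := by
    have hYκ : (1 : ℝ) ≤ Y ^ κ := Real.one_le_rpow hY hκ0.le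
    have hZ1 : 1 ≤ ⌊Y ^ κ⌋₊ := (Nat.one_le_floor_iff _).2 hYκ
    have h := hC1 ⌊Y ^ κ⌋₊ (Y ^ (1 / 3 : ℝ)) S0 hZ1 (by positivity) (by
      intro q hq
      obtain ⟨hq1, hq2⟩ := Finset.mem_filter.1 hq
      obtain ⟨a1, a2, a3, a4, a5, a6⟩ := hS q hq1
      refine ⟨a1, a2, Nat.le_floor a4, ?_⟩
      unfold EvOne
      apply LgQ.three _ _ _ _ (by positivity)
      rw [← LgQ.rd_three q.1 q.2 a1 a2 a3]
      have hq3 : (rd (q.1 * q.2 * (q.1 + q.2)) : ℝ) ≤ Y ^ (1 / 2 : ℝ) := by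
        have : f n = Y ^ (1 / 2 : ℝ) := by
          simp only [hf]
          congr 1
          field_simp
          norm_num
        rw [← this]
        exact hq2
      calc (rd (q.1 * q.2 * (q.1 + q.2)) : ℝ) ^ 2 ≤ (Y ^ (1 / 2 : ℝ)) ^ 2 := by gcongr
        _ = (Y ^ (1 / 3 : ℝ)) ^ 3 := by
          rw [← Real.rpow_natCast, ← Real.rpow_mul hY0.le, ← Real.rpow_natCast,
            ← Real.rpow_mul hY0.le]
          congr 1
          norm_num)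
    refine h.trans ?_
    rw [mul_assoc]
    apply mul_le_mul_of_nonneg_left _ (by linarith)
    calc ((⌊Y ^ κ⌋₊ : ℕ) : ℝ) ^ (1 / (10 * κ)) * Y ^ (1 / 3 : ℝ)
        ≤ (Y ^ κ) ^ (1 / (10 * κ)) * Y ^ (1 / 3 : ℝ) := by
          apply mul_le_mul_of_nonneg_right _ (by positivity)
          exact Real.rpow_le_rpow (Nat.cast_nonneg _) (Nat.floor_le (by positivity)) (by positivity)
      _ = Y ^ (1 / 10 + 1 / 3 : ℝ) := by
          rw [← Real.rpow_mul hY0.le, ← Real.rpow_add hY0]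
          congr 1
          field_simp
      _ ≤ Y ^ (1 - t + ε) := Real.rpow_le_rpow_of_exponent_le hY (by linarith)
  -- the other parts
  have hfi1 : ∀ i, i < n → (i : ℝ) / (2 * n) ≤ 1 / 2 := by
    intro i hi
    have : (i : ℝ) ≤ n := by exact_mod_cast hi.le
    rw [div_le_iff₀ (by positivity)]
    linarith
  have hB : ∀ i ∈ range n, ((Sb i).card : ℝ) ≤ C2 * Y ^ (1 - t + ε) := by
    intro i hi
    have hi' := hfi1 i (Finset.mem_range.1 hi)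
    have hi0 : (0 : ℝ) ≤ (i : ℝ) / (2 * n) := by positivity
    have hfi : (1 : ℝ) ≤ f i := Real.one_le_rpow hY (by linarith)
    have h := hC2 (f i) (Sb i) hfi (by
      intro q hq
      obtain ⟨hq1, ⟨hq2, hq3⟩, hq4⟩ := Finset.mem_filter.1 hq
      obtain ⟨a1, a2, a3, a4, a5, a6⟩ := hS q hq1
      refine ⟨a1, a2, a3, ?_, hq3, ?_⟩
      · refine a4.trans ?_
        simp only [hf]
        rw [← Real.rpow_mul hY0.le]
        apply Real.rpow_le_rpow_of_exponent_le hY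
        nlinarith
      · exact (Real.rpow_le_rpow_of_exponent_le hfi (by norm_num)).trans hq4)
    refine h.trans ?_
    apply mul_le_mul_of_nonneg_left _ (by linarith)
    calc (f i) ^ (6331 / 10000 : ℝ) ≤ Y ^ (6331 / 10000 : ℝ) := by
          apply Real.rpow_le_rpow (by linarith) _ (by norm_num)
          calc f i ≤ Y ^ (1 : ℝ) := Real.rpow_le_rpow_of_exponent_le hY (by linarith)
            _ = Y := Real.rpow_one Y
      _ ≤ Y ^ (1 - t + ε) := Real.rpow_le_rpow_of_exponent_le hY (by linarith)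
  have hD : ∀ i ∈ range n, ((Ss i).card : ℝ) ≤ C3 * Y ^ (1 - t + ε) := by
    intro i hi
    have h := hC3 Y t n i (Ss i) hY (by linarith) (by linarith) hn1 (Finset.mem_range.1 hi) (by
      intro q hq
      obtain ⟨hq1, ⟨hq2, hq3⟩, hq4⟩ := Finset.mem_filter.1 hq
      obtain ⟨a1, a2, a3, a4, a5, a6⟩ := hS q hq1
      exact ⟨a1, a2, a3, hq4, hq3, hq2, a6⟩)
    refine h.trans ?_
    apply mul_le_mul_of_nonneg_left _ (by linarith)
    apply Real.rpow_le_rpow_of_exponent_le hY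
    linarith
  -- conclusion
  have hcard : (S.card : ℝ) ≤ (S0.card : ℝ) + ∑ i ∈ range n, (((Sb i).card : ℝ) + (Ss i).card) := by
    have e1 := Finset.card_le_card hsub
    have e2 := Finset.card_union_le S0 ((range n).biUnion (fun i => Sb i ∪ Ss i))
    have e3 := Finset.card_biUnion_le (s := range n) (t := fun i => Sb i ∪ Ss i)
    have e4 : ∑ i ∈ range n, (Sb i ∪ Ss i).card ≤ ∑ i ∈ range n, ((Sb i).card + (Ss i).card) :=
      Finset.sum_le_sum (fun i _ => Finset.card_union_le _ _)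
    exact_mod_cast (by omega : S.card ≤ S0.card + ∑ i ∈ range n, ((Sb i).card + (Ss i).card))
  have hsum : ∑ i ∈ range n, (((Sb i).card : ℝ) + (Ss i).card) ≤
      n * ((C2 + C3) * Y ^ (1 - t + ε)) := by
    refine (Finset.sum_le_sum (fun i hi => add_le_add (hB i hi) (hD i hi))).trans (le_of_eq ?_)
    rw [Finset.sum_const, Finset.card_range, nsmul_eq_mul]
    ring
  calc (S.card : ℝ) ≤ C1 * Y ^ (1 - t + ε) + n * ((C2 + C3) * Y ^ (1 - t + ε)) := by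
        linarith
    _ = _ := by ring

end Pool.Agent.Lib.MP_d8bd92_nt
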