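import Pool.Agent.Lib.MP_d8bd92_nt.CdK2
import Pool.Agent.Lib.MP_d8bd92_nt.LgDefs
import Pool.Agent.Lib.MP_d8bd92_nt.LgQ

set_option autoImplicit false

/-!
Row U: the curves (upper bound).
-/

namespace Pool.Agent.Lib.MP_d8bd92_nt

open Finset Pool.Agent.Lib.Szpiro


theorem lg_curves_upper (t ε κ : ℝ) (ht : 1 / 3 ≤ t) (ht' : t ≤ 11 / 30) (hε : 0 < ε)
    (hκ : 1 ≤ κ) : ∃ C : ℝ, 1 ≤ C ∧ ∀ Y : ℝ, 1 ≤ Y →
    (FullTwoSet (fun N D => (N : ℝ) ≤ Y ∧ (N : ℝ) ^ (6 * t) ≤ (D : ℝ) ∧ (D : ℝ) ≤ Y ^ κ)).Finite ∧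
    ((FullTwoSet (fun N D => (N : ℝ) ≤ Y ∧ (N : ℝ) ^ (6 * t) ≤ (D : ℝ) ∧
      (D : ℝ) ≤ Y ^ κ)).ncard : ℝ) ≤ C * Y ^ (1 - t + ε) := by
  classical
  set κ' : ℝ := κ / 4 + 3 with hκ'
  have hκ'0 : 1 ≤ κ' := by rw [hκ']; linarith
  obtain ⟨C, hC, hmain⟩ := lg_upper t ε κ' ht ht' hε hκ'0
  set P2 : ℝ := (2 : ℝ) ^ (1 - t + ε) with hP2
  have hP21 : 1 ≤ P2 := Real.one_le_rpow (by norm_num) (by linarith)
  refine ⟨4 * C * P2, by nlinarith, ?_⟩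
  intro Y hY
  have hY0 : 0 < Y := by linarith
  have h2Y : 1 ≤ 2 * Y := by linarith
  set M : ℕ := ⌊(2 * Y) ^ κ'⌋₊ with hM
  set S : Finset (ℕ × ℕ) := (Icc 1 M ×ˢ Icc 1 M).filter (fun q : ℕ × ℕ =>
    1 ≤ q.1 ∧ 1 ≤ q.2 ∧ Nat.Coprime q.1 q.2 ∧ ((q.1 + q.2 : ℕ) : ℝ) ≤ (2 * Y) ^ κ' ∧
      (rd (q.1 * q.2 * (q.1 + q.2)) : ℝ) ≤ 2 * Y ∧
      (rd (q.1 * q.2 * (q.1 + q.2)) : ℝ) ^ t ≤ ((q.1 + q.2 : ℕ) : ℝ)) with hS
  have hcov := cd_cover (fun N D => (N : ℝ) ≤ Y ∧ (N : ℝ) ^ (6 * t) ≤ (D : ℝ) ∧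
    (D : ℝ) ≤ Y ^ κ) S ?_
  · refine ⟨hcov.1, ?_⟩
    have h1 : (S.card : ℝ) ≤ C * (2 * Y) ^ (1 - t + ε) := by
      apply hmain (2 * Y) S h2Y
      intro q hq
      exact (Finset.mem_filter.1 hq).2
    have h2 : (2 * Y) ^ (1 - t + ε) = P2 * Y ^ (1 - t + ε) := by
      rw [Real.mul_rpow (by norm_num) hY0.le]
    calc ((FullTwoSet (fun N D => (N : ℝ) ≤ Y ∧ (N : ℝ) ^ (6 * t) ≤ (D : ℝ) ∧
      (D : ℝ) ≤ Y ^ κ)).ncard : ℝ) ≤ ((4 * S.card : ℕ) : ℝ) := by exact_mod_cast hcov.2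
      _ = 4 * (S.card : ℝ) := by push_cast; ring
      _ ≤ 4 * (C * (P2 * Y ^ (1 - t + ε))) := by
          rw [h2] at h1
          linarith
      _ = 4 * C * P2 * Y ^ (1 - t + ε) := by ring
  · intro a b N D ha hb hab hP hN hrd h4 h6
    obtain ⟨hP1, hP2', hP3⟩ := hP
    have hN1 : (1 : ℝ) ≤ (N : ℝ) := by exact_mod_cast hN
    have hab0 : (0 : ℝ) < ((a + b : ℕ) : ℝ) := by
      have : 0 < a + b := by omega
      exact_mod_cast this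
    -- `a + b ≤ (2Y)^κ'`
    have hsize : ((a + b : ℕ) : ℝ) ≤ (2 * Y) ^ κ' := by
      have h1 : (((a + b : ℕ) : ℝ)) ^ 4 ≤ 1024 * Y ^ κ := by
        have : (((a + b) ^ 4 : ℕ) : ℝ) ≤ ((1024 * D : ℕ) : ℝ) := by exact_mod_cast h4
        push_cast at this ⊢
        nlinarith [this, hP3]
      have h2 : 1024 * Y ^ κ ≤ ((2 * Y) ^ κ') ^ 4 := by
        have e1 : ((2 * Y) ^ κ') ^ 4 = (2 * Y) ^ (κ + 12) := by
          rw [← Real.rpow_natCast, ← Real.rpow_mul (by linarith)]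
          congr 1
          rw [hκ']
          push_cast
          ring
        rw [e1, Real.rpow_add (by linarith), Real.mul_rpow (by norm_num) hY0.le]
        have e2 : (1 : ℝ) ≤ (2 : ℝ) ^ κ := Real.one_le_rpow (by norm_num) (by linarith)
        have e3 : (4096 : ℝ) ≤ (2 * Y) ^ (12 : ℝ) := by
          have : (2 : ℝ) ^ (12 : ℝ) ≤ (2 * Y) ^ (12 : ℝ) :=
            Real.rpow_le_rpow (by norm_num) (by linarith) (by norm_num)
          have e4 : (2 : ℝ) ^ (12 : ℝ) = 4096 := by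
            rw [show (12 : ℝ) = ((12 : ℕ) : ℝ) by norm_num, Real.rpow_natCast]
            norm_num
          rwa [e4] at this
        have e5 : 0 < Y ^ κ := Real.rpow_pos_of_pos hY0 _
        calc 1024 * Y ^ κ ≤ (1 * Y ^ κ) * 4096 := by linarith
          _ ≤ ((2 : ℝ) ^ κ * Y ^ κ) * (2 * Y) ^ (12 : ℝ) := by
            apply mul_le_mul _ e3 (by norm_num) (by positivity)
            exact mul_le_mul_of_nonneg_right e2 e5.le
      exact le_of_pow_le_pow_left₀ (by norm_num) (by positivity) (h1.trans h2)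
    rw [hS, Finset.mem_filter, Finset.mem_product, Finset.mem_Icc, Finset.mem_Icc]
    have hM' : a + b ≤ M := Nat.le_floor hsize
    have hrdR : (rd (a * b * (a + b)) : ℝ) ≤ 2 * N := by exact_mod_cast hrd
    refine ⟨⟨⟨ha, by omega⟩, ⟨hb, by omega⟩⟩, ha, hb, hab, hsize, by linarith, ?_⟩
    -- the radical is small
    have hkey : 2 * (N : ℝ) ^ t ≤ ((a + b : ℕ) : ℝ) := by
      have e1 : (2 * (N : ℝ) ^ t) ^ 6 = 64 * (N : ℝ) ^ (6 * t) := by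
        rw [mul_pow, ← Real.rpow_natCast ((N : ℝ) ^ t),
          ← Real.rpow_mul (by linarith)]
        rw [mul_comm t]
        norm_num
      have h2 : (64 * (D : ℝ)) ≤ (((a + b : ℕ) : ℝ)) ^ 6 := by exact_mod_cast h6
      refine le_of_pow_le_pow_left₀ (n := 6) (by norm_num) hab0.le ?_
      rw [e1]
      linarith
    calc (rd (a * b * (a + b)) : ℝ) ^ t ≤ (2 * (N : ℝ)) ^ t :=
          Real.rpow_le_rpow (by positivity) hrdR (by linarith)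
      _ = (2 : ℝ) ^ t * (N : ℝ) ^ t :=
          Real.mul_rpow (by norm_num) (by linarith)
      _ ≤ 2 * (N : ℝ) ^ t := by
          apply mul_le_mul_of_nonneg_right _ (Real.rpow_nonneg (by linarith) _)
          calc (2 : ℝ) ^ t ≤ (2 : ℝ) ^ (1 : ℝ) :=
                Real.rpow_le_rpow_of_exponent_le (by norm_num) (by linarith)
            _ = 2 := Real.rpow_one 2
      _ ≤ ((a + b : ℕ) : ℝ) := hkey

end Pool.Agent.Lib.MP_d8bd92_nt
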