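import Pool.Agent.Lib.MP_d8bd92_nt.CdDefs
import Pool.Agent.Lib.MP_d8bd92_nt.CdA
import Pool.Agent.Lib.MP_d8bd92_nt.CdB

set_option autoImplicit false

/-!
Definitions for the bound `Y ^ (3/5)` for the exceptional set.
-/

namespace Pool.Agent.Lib.MP_d8bd92_nt

open Finset Pool.Agent.Lib.Szpiro

/-- the saving of the character argument: `min (D, P^(1/6) D^(1/3), P^(1/2))` -/
noncomputable def sav (P D : ℝ) : ℝ :=
  min D (min (P ^ (1 / 6 : ℝ) * D ^ (1 / 3 : ℝ)) (P ^ (1 / 2 : ℝ)))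

/-- the difference `m - s n` has a good divisor `D` -/
def EvMod (Q : ℝ) (s : ℤ) (m n : ℕ) : Prop :=
  ∃ D : ℕ, 1 ≤ D ∧ Nat.Coprime D (m * n) ∧ (D : ℤ) ∣ (m : ℤ) - s * n ∧
    (rd D : ℝ) * ((rd m : ℝ) * rd n) ≤ Q * sav ((rd m : ℝ) * rd n) D

end Pool.Agent.Lib.MP_d8bd92_nt
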