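import Pool.Agent.Lib.MP_d8bd92_nt.TfDefs
import Pool.Agent.Lib.MP_d8bd92_nt.CdI1
import Pool.Agent.Lib.MP_d8bd92_nt.TfF
import Pool.Agent.Lib.MP_d8bd92_nt.TfM
import Pool.Agent.Lib.MP_d8bd92_nt.TfO

set_option autoImplicit false

namespace Pool.Agent.Lib.MP_d8bd92_nt

open Finset Pool.Agent.Lib.Szpiro


namespace TfP

/-- powers of `Y` multiply -/
theorem rp {Y : ℝ} (hY : 0 < Y) {a b c : ℝ} (h : a + b = c) : Y ^ a * Y ^ b = Y ^ c := by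
  rw [← Real.rpow_add hY, h]

theorem rd_triple (a b : ℕ) (ha : 1 ≤ a) (hb : 1 ≤ b) (hc : Nat.Coprime a b) :
    (rd (a * b * (a + b)) : ℝ) = (rd a : ℝ) * rd b * rd (a + b) := by
  have h1 : Nat.Coprime (a * b) (a + b) := by
    refine Nat.Coprime.mul_left ?_ ?_
    · simpa using hc
    · simpa using hc.symm
  rw [rd_mul_coprime _ _ (Nat.mul_ne_zero (by omega) (by omega)) (by omega) h1,
    rd_mul_coprime _ _ (by omega) (by omega) hc]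
  push_cast
  ring

/-- The main trichotomy for a pair `a ≤ b`. -/
theorem cases (κ : ℝ) (hκ : 1 ≤ κ) (K : ℕ)
    (hK : ∀ (Y R : ℝ) (n : ℕ), 2 ≤ Y →
    1 ≤ n → Y ^ (1 - 1 / 5000 : ℝ) ≤ (n : ℝ) → (n : ℝ) ≤ Y ^ κ → (rd n : ℝ) * R ≤ Y →
    Y ^ (5995 / 10000 : ℝ) ≤ R → R ≤ Y ^ (801 / 1000 : ℝ) →
    (∃ k, 3 ≤ k ∧ k < K ∧ Y ^ (591 / 1000 : ℝ) ≤ (xpart n k : ℝ) * R ^ (1 / 2 : ℝ)) ∨
    (∃ D : ℕ, 1 ≤ D ∧ D ∣ n ∧ (rd D : ℝ) * R ≤ Y ^ (5995 / 10000 : ℝ) * sav R D))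
    (Y : ℝ) (hY : (2 : ℝ) ^ (10000 : ℝ) ≤ Y) (a b : ℕ) (ha : 1 ≤ a) (hb : 1 ≤ b)
    (hab : a ≤ b) (hc : Nat.Coprime a b) (hκ' : ((a + b : ℕ) : ℝ) ≤ Y ^ κ)
    (hrd : (rd (a * b * (a + b)) : ℝ) ≤ Y)
    (hbig : Y ^ (1 - 1 / 10000 : ℝ) ≤ ((a + b : ℕ) : ℝ)) :
    EvOne (Y ^ (5995 / 10000 : ℝ)) a b ∨ EvMod (Y ^ (5995 / 10000 : ℝ)) 1 (a + b) a ∨
    EvMod (Y ^ (5995 / 10000 : ℝ)) (-1) a b ∨
    ∃ j k : ℕ, 3 ≤ j ∧ j < K ∧ 3 ≤ k ∧ k < K ∧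
        Y ≤ Y ^ (5995 / 10000 : ℝ) * ((xpart b j : ℝ) * xpart (a + b) k) ^ (5 / 6 : ℝ) := by
  have h2 : (2 : ℝ) ≤ (2 : ℝ) ^ (10000 : ℝ) := by
    calc (2 : ℝ) = (2 : ℝ) ^ (1 : ℝ) := by simp
      _ ≤ (2 : ℝ) ^ (10000 : ℝ) := Real.rpow_le_rpow_of_exponent_le (by norm_num) (by norm_num)
  have hY2 : 2 ≤ Y := h2.trans hY
  have hY0 : 0 < Y := lt_of_lt_of_le two_pos hY2
  have hY1 : 1 ≤ Y := one_le_two.trans hY2
  set Q := Y ^ (5995 / 10000 : ℝ) with hQ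
  have hQ0 : 0 < Q := Real.rpow_pos_of_pos hY0 _
  by_cases h1 : EvOne Q a b
  · exact Or.inl h1
  right
  have h1' : Q < (rd a : ℝ) * rd b ∧ Q < (rd a : ℝ) * rd (a + b) ∧
      Q < (rd b : ℝ) * rd (a + b) := by
    unfold EvOne at h1
    push Not at h1
    exact h1
  obtain ⟨hAB, hAC, hBC⟩ := h1'
  rw [rd_triple a b ha hb hc] at hrd
  have hra : (1 : ℝ) ≤ (rd a : ℝ) := one_le_rd a
  have hrb : (1 : ℝ) ≤ (rd b : ℝ) := one_le_rd b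
  have hrc : (1 : ℝ) ≤ (rd (a + b) : ℝ) := one_le_rd (a + b)
  set A := (rd a : ℝ) with hA
  set B := (rd b : ℝ) with hB
  set C := (rd (a + b) : ℝ) with hC
  have hYQ : Y = Q * Y ^ (4005 / 10000 : ℝ) := by
    rw [hQ, rp hY0 (c := 1) (by norm_num), Real.rpow_one]
  have aux : ∀ r s : ℝ, 0 ≤ r → Q < s → r * s ≤ Y → r ≤ Y ^ (4005 / 10000 : ℝ) := by
    intro r s hr hs h
    have h3 : Q * r ≤ Q * Y ^ (4005 / 10000 : ℝ) := by
      rw [← hYQ]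
      calc Q * r = r * Q := by ring
        _ ≤ r * s := mul_le_mul_of_nonneg_left hs.le hr
        _ ≤ Y := h
    exact le_of_mul_le_mul_left h3 hQ0
  have hA4 : A ≤ Y ^ (4005 / 10000 : ℝ) :=
    aux A (B * C) (by linarith) hBC (by linarith [mul_assoc A B C])
  have hB4 : B ≤ Y ^ (4005 / 10000 : ℝ) :=
    aux B (A * C) (by linarith) hAC (by nlinarith)
  have hC4 : C ≤ Y ^ (4005 / 10000 : ℝ) :=
    aux C (A * B) (by linarith) hAB (by nlinarith)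
  have hp4 : (0 : ℝ) ≤ Y ^ (4005 / 10000 : ℝ) := (Real.rpow_pos_of_pos hY0 _).le
  have hb2 : Y ^ (1 - 1 / 5000 : ℝ) ≤ (b : ℝ) := by
    have h3 : (2 : ℝ) ≤ Y ^ (1 / 10000 : ℝ) := by
      calc (2 : ℝ) = ((2 : ℝ) ^ (10000 : ℝ)) ^ (1 / 10000 : ℝ) := by
            rw [← Real.rpow_mul (by norm_num)]; norm_num
        _ ≤ Y ^ (1 / 10000 : ℝ) := Real.rpow_le_rpow (by positivity) hY (by norm_num)
    have h4 : Y ^ (1 - 1 / 5000 : ℝ) * Y ^ (1 / 10000 : ℝ) = Y ^ (1 - 1 / 10000 : ℝ) :=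
      rp hY0 (by norm_num)
    have h5 : ((a + b : ℕ) : ℝ) ≤ 2 * (b : ℝ) := by
      have : a + b ≤ 2 * b := by omega
      exact_mod_cast this
    have h6 : 0 < Y ^ (1 - 1 / 5000 : ℝ) := Real.rpow_pos_of_pos hY0 _
    nlinarith
  have hc2 : Y ^ (1 - 1 / 5000 : ℝ) ≤ ((a + b : ℕ) : ℝ) := by
    refine le_trans ?_ hbig
    exact Real.rpow_le_rpow_of_exponent_le hY1 (by norm_num)
  have hbκ : (b : ℝ) ≤ Y ^ κ := by
    refine le_trans ?_ hκ'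
    exact_mod_cast (by omega : b ≤ a + b)
  have h801 : Y ^ (4005 / 10000 : ℝ) * Y ^ (4005 / 10000 : ℝ) = Y ^ (801 / 1000 : ℝ) :=
    rp hY0 (by norm_num)
  have hB1 := hK Y (C * A) b hY2 hb hb2 hbκ (by rw [← hB]; nlinarith) (by nlinarith)
    (by rw [← h801]; exact mul_le_mul hC4 hA4 (by linarith) hp4)
  have hC1 := hK Y (A * B) (a + b) hY2 (by omega) hc2 hκ' (by rw [← hC]; nlinarith)
    (by nlinarith) (by rw [← h801]; exact mul_le_mul hA4 hB4 (by linarith) hp4)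
  rcases hB1 with ⟨j, hj3, hjK, hj⟩ | ⟨D, hD1, hDd, hD⟩
  · rcases hC1 with ⟨k, hk3, hkK, hk⟩ | ⟨D, hD1, hDd, hD⟩
    · right; right
      refine ⟨j, k, hj3, hjK, hk3, hkK, ?_⟩
      have hx1 : (0 : ℝ) < (xpart b j : ℝ) := by exact_mod_cast xpart_pos b j
      have hx2 : (0 : ℝ) < (xpart (a + b) k : ℝ) := by exact_mod_cast xpart_pos (a + b) k
      set x := (xpart b j : ℝ)
      set y := (xpart (a + b) k : ℝ)
      have hCA : 0 < C * A := by positivity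
      have hABp : 0 < A * B := by positivity
      have h3 : Y ^ (591 / 1000 : ℝ) * Y ^ (591 / 1000 : ℝ) ≤
          (x * (C * A) ^ (1 / 2 : ℝ)) * (y * (A * B) ^ (1 / 2 : ℝ)) :=
        mul_le_mul hj hk (Real.rpow_pos_of_pos hY0 _).le (by positivity)
      have h4 : (C * A) ^ (1 / 2 : ℝ) * (A * B) ^ (1 / 2 : ℝ) ≤ Y ^ (70025 / 100000 : ℝ) := by
        rw [← Real.mul_rpow hCA.le hABp.le]
        have h5 : C * A * (A * B) ≤ Y ^ (4005 / 10000 : ℝ) * Y := by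
          have : C * A * (A * B) = A * (A * B * C) := by ring
          rw [this]
          exact mul_le_mul hA4 hrd (by positivity) hp4
        have h6 : Y ^ (4005 / 10000 : ℝ) * Y = Y ^ (14005 / 10000 : ℝ) := by
          have := rp hY0 (a := 4005 / 10000) (b := 1) (c := 14005 / 10000) (by norm_num)
          rwa [Real.rpow_one] at this
        calc (C * A * (A * B)) ^ (1 / 2 : ℝ) ≤ (Y ^ (14005 / 10000 : ℝ)) ^ (1 / 2 : ℝ) :=
              Real.rpow_le_rpow (by positivity) (by rw [← h6]; exact h5) (by norm_num)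
          _ = Y ^ (70025 / 100000 : ℝ) := by
              rw [← Real.rpow_mul hY0.le]; norm_num
      have h7 : Y ^ (48175 / 100000 : ℝ) ≤ x * y := by
        have h8 : Y ^ (48175 / 100000 : ℝ) * Y ^ (70025 / 100000 : ℝ) =
            Y ^ (591 / 1000 : ℝ) * Y ^ (591 / 1000 : ℝ) := by
          rw [rp hY0 (c := 1182 / 1000) (by norm_num), rp hY0 (c := 1182 / 1000) (by norm_num)]
        have h9 : 0 < Y ^ (70025 / 100000 : ℝ) := Real.rpow_pos_of_pos hY0 _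
        have h10 : Y ^ (48175 / 100000 : ℝ) * Y ^ (70025 / 100000 : ℝ) ≤
            x * y * Y ^ (70025 / 100000 : ℝ) := by
          rw [h8]
          calc _ ≤ (x * (C * A) ^ (1 / 2 : ℝ)) * (y * (A * B) ^ (1 / 2 : ℝ)) := h3
            _ = x * y * ((C * A) ^ (1 / 2 : ℝ) * (A * B) ^ (1 / 2 : ℝ)) := by ring
            _ ≤ _ := mul_le_mul_of_nonneg_left h4 (by positivity)
        exact le_of_mul_le_mul_right h10 h9
      have h11 : Y ^ (4005 / 10000 : ℝ) ≤ (x * y) ^ (5 / 6 : ℝ) := by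
        calc Y ^ (4005 / 10000 : ℝ) ≤ Y ^ ((48175 / 100000 : ℝ) * (5 / 6)) :=
              Real.rpow_le_rpow_of_exponent_le hY1 (by norm_num)
          _ = (Y ^ (48175 / 100000 : ℝ)) ^ (5 / 6 : ℝ) := Real.rpow_mul hY0.le _ _
          _ ≤ (x * y) ^ (5 / 6 : ℝ) :=
              Real.rpow_le_rpow (Real.rpow_pos_of_pos hY0 _).le h7 (by norm_num)
      calc Y = Q * Y ^ (4005 / 10000 : ℝ) := hYQ
        _ ≤ Q * (x * y) ^ (5 / 6 : ℝ) := mul_le_mul_of_nonneg_left h11 hQ0.le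
    · right; left
      refine ⟨D, hD1, ?_, ?_, hD⟩
      · have : Nat.Coprime (a + b) (a * b) := by
          refine Nat.Coprime.mul_right ?_ ?_
          · simpa using hc.symm
          · simpa using hc
        exact Nat.Coprime.coprime_dvd_left hDd this
      · have : ((a : ℤ) - (-1) * (b : ℤ)) = ((a + b : ℕ) : ℤ) := by push_cast; ring
        rw [this]
        exact_mod_cast hDd
  · left
    refine ⟨D, hD1, ?_, ?_, hD⟩
    · have : Nat.Coprime b ((a + b) * a) := by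
        refine Nat.Coprime.mul_right ?_ hc.symm
        simpa using hc.symm
      exact Nat.Coprime.coprime_dvd_left hDd this
    · have : (((a + b : ℕ) : ℤ) - 1 * (a : ℤ)) = (b : ℤ) := by push_cast; ring
      rw [this]
      exact_mod_cast hDd

/-- The bound for large `Y` and pairs with `a ≤ b`. -/
theorem half (κ : ℝ) (hκ : 1 ≤ κ) : ∃ C : ℝ, 1 ≤ C ∧ ∀ (Y : ℝ) (S : Finset (ℕ × ℕ)),
    (2 : ℝ) ^ (10000 : ℝ) ≤ Y →
    (∀ q ∈ S, q.1 ≤ q.2 ∧ 1 ≤ q.1 ∧ 1 ≤ q.2 ∧ Nat.Coprime q.1 q.2 ∧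
      ((q.1 + q.2 : ℕ) : ℝ) ≤ Y ^ κ ∧
      (rd (q.1 * q.2 * (q.1 + q.2)) : ℝ) ≤ Y ∧
      Y ^ (1 - 1 / 10000 : ℝ) ≤ ((q.1 + q.2 : ℕ) : ℝ)) →
    (S.card : ℝ) ≤ C * Y ^ (3 / 5 - 1 / 5000 : ℝ) := by
  classical
  obtain ⟨K, hK3, hK⟩ := tf_structure κ hκ
  have hκ0 : 0 < κ := by linarith
  set σ : ℝ := 3 / (10000 * κ) with hσ
  have hσ0 : 0 < σ := by positivity
  obtain ⟨C₁, hC₁, h₁⟩ := card_evOne σ hσ0
  obtain ⟨C₂, hC₂, h₂⟩ := card_evMod σ hσ0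
  obtain ⟨C₃, hC₃, h₃⟩ := card_evLong K σ hσ0
  refine ⟨C₁ + C₂ + C₂ + C₃, by linarith, ?_⟩
  intro Y S hY hS
  have h2 : (1 : ℝ) ≤ (2 : ℝ) ^ (10000 : ℝ) :=
    Real.one_le_rpow (by norm_num) (by norm_num)
  have hY1 : 1 ≤ Y := h2.trans hY
  have hY0 : 0 < Y := lt_of_lt_of_le one_pos hY1
  set Q := Y ^ (5995 / 10000 : ℝ) with hQ
  have hQ0 : 0 < Q := Real.rpow_pos_of_pos hY0 _
  set Z := ⌊Y ^ κ⌋₊ with hZ
  have hYκ : 1 ≤ Y ^ κ := Real.one_le_rpow hY1 hκ0.le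
  have hZ1 : 1 ≤ Z := Nat.le_floor (by simpa using hYκ)
  have hZσ : (Z : ℝ) ^ σ ≤ Y ^ (3 / 10000 : ℝ) := by
    calc (Z : ℝ) ^ σ ≤ (Y ^ κ) ^ σ :=
          Real.rpow_le_rpow (by positivity) (Nat.floor_le (by positivity)) hσ0.le
      _ = Y ^ (κ * σ) := (Real.rpow_mul hY0.le _ _).symm
      _ = Y ^ (3 / 10000 : ℝ) := by
          congr 1
          rw [hσ]; field_simp
  have hSZ : ∀ q ∈ S, q.1 + q.2 ≤ Z := fun q hq => Nat.le_floor (hS q hq).2.2.2.2.1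
  set S₁ := S.filter (fun q => EvOne Q q.1 q.2)
  set S₂ := S.filter (fun q => EvMod Q 1 (q.1 + q.2) q.1)
  set S₃ := S.filter (fun q => EvMod Q (-1) q.1 q.2)
  set S₄ := S.filter (fun q => ∃ j k : ℕ, 3 ≤ j ∧ j < K ∧ 3 ≤ k ∧ k < K ∧
        Y ≤ Q * ((xpart q.2 j : ℝ) * xpart (q.1 + q.2) k) ^ (5 / 6 : ℝ))
  have hcov : S ⊆ S₁ ∪ S₂ ∪ S₃ ∪ S₄ := by
    intro q hq
    obtain ⟨hq0, hq1, hq2, hq3, hq4, hq5, hq6⟩ := hS q hq
    simp only [Finset.mem_union, S₁, S₂, S₃, S₄, Finset.mem_filter]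
    rcases cases κ hκ K hK Y hY q.1 q.2 hq1 hq2 hq0 hq3 hq4 hq5 hq6 with h | h | h | h
    · exact Or.inl (Or.inl (Or.inl ⟨hq, h⟩))
    · exact Or.inl (Or.inl (Or.inr ⟨hq, h⟩))
    · exact Or.inl (Or.inr ⟨hq, h⟩)
    · exact Or.inr ⟨hq, h⟩
  have b₁ : (S₁.card : ℝ) ≤ C₁ * (Z : ℝ) ^ σ * Q := by
    refine h₁ Z Q S₁ hZ1 hQ0.le ?_
    intro q hq
    obtain ⟨hqS, hq'⟩ := Finset.mem_filter.1 hq
    obtain ⟨hq0, hq1, hq2, hq3, hq4, hq5, hq6⟩ := hS q hqS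
    exact ⟨hq1, hq2, hSZ q hqS, hq'⟩
  have b₂ : (S₂.card : ℝ) ≤ C₂ * (Z : ℝ) ^ σ * Q := by
    have hinj : Function.Injective (fun q : ℕ × ℕ => (q.1 + q.2, q.1)) := by
      intro p q h
      simp only [Prod.mk.injEq] at h
      exact Prod.ext h.2 (by omega)
    rw [← Finset.card_image_of_injective S₂ hinj]
    refine h₂ Z 1 Q _ hZ1 hQ0.le (Or.inl rfl) ?_
    intro q hq
    obtain ⟨p, hp, rfl⟩ := Finset.mem_image.1 hq
    obtain ⟨hqS, hq'⟩ := Finset.mem_filter.1 hp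
    obtain ⟨hq0, hq1, hq2, hq3, hq4, hq5, hq6⟩ := hS p hqS
    have := hSZ p hqS
    refine ⟨by simp only; omega, by simpa using this, hq1, by simp only; omega, ?_, hq'⟩
    simp only
    push_cast
    omega
  have b₃ : (S₃.card : ℝ) ≤ C₂ * (Z : ℝ) ^ σ * Q := by
    refine h₂ Z (-1) Q _ hZ1 hQ0.le (Or.inr rfl) ?_
    intro q hq
    obtain ⟨hqS, hq'⟩ := Finset.mem_filter.1 hq
    obtain ⟨hq0, hq1, hq2, hq3, hq4, hq5, hq6⟩ := hS q hqS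
    have := hSZ q hqS
    refine ⟨hq1, by omega, hq2, by omega, by omega, hq'⟩
  have b₄ : (S₄.card : ℝ) ≤ C₃ * (Z : ℝ) ^ σ * Q := by
    refine h₃ Z Y Q S₄ hZ1 hY1 hQ0.le ?_
    intro q hq
    obtain ⟨hqS, hq'⟩ := Finset.mem_filter.1 hq
    obtain ⟨hq0, hq1, hq2, hq3, hq4, hq5, hq6⟩ := hS q hqS
    exact ⟨hq1, hq2, hSZ q hqS, hq3, hq5, hq'⟩
  have hcard : (S.card : ℝ) ≤ S₁.card + S₂.card + S₃.card + S₄.card := by
    have h5 : S.card ≤ S₁.card + S₂.card + S₃.card + S₄.card := by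
      calc S.card ≤ (S₁ ∪ S₂ ∪ S₃ ∪ S₄).card := Finset.card_le_card hcov
        _ ≤ (S₁ ∪ S₂ ∪ S₃).card + S₄.card := Finset.card_union_le _ _
        _ ≤ (S₁ ∪ S₂).card + S₃.card + S₄.card := by
            gcongr; exact Finset.card_union_le _ _
        _ ≤ S₁.card + S₂.card + S₃.card + S₄.card := by
            gcongr; exact Finset.card_union_le _ _
    exact_mod_cast h5
  have hfin : Y ^ (3 / 10000 : ℝ) * Q = Y ^ (3 / 5 - 1 / 5000 : ℝ) := rp hY0 (by norm_num)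
  calc (S.card : ℝ) ≤ S₁.card + S₂.card + S₃.card + S₄.card := hcard
    _ ≤ (C₁ + C₂ + C₂ + C₃) * ((Z : ℝ) ^ σ * Q) := by nlinarith
    _ ≤ (C₁ + C₂ + C₂ + C₃) * (Y ^ (3 / 10000 : ℝ) * Q) := by
        refine mul_le_mul_of_nonneg_left ?_ (by linarith)
        exact mul_le_mul_of_nonneg_right hZσ hQ0.le
    _ = _ := by rw [hfin]

end TfP

theorem tf_scale (κ : ℝ) (hκ : 1 ≤ κ) : ∃ C : ℝ, 1 ≤ C ∧ ∀ (Y : ℝ) (S : Finset (ℕ × ℕ)), 1 ≤ Y →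
    (∀ q ∈ S, 1 ≤ q.1 ∧ 1 ≤ q.2 ∧ Nat.Coprime q.1 q.2 ∧ ((q.1 + q.2 : ℕ) : ℝ) ≤ Y ^ κ ∧
      (rd (q.1 * q.2 * (q.1 + q.2)) : ℝ) ≤ Y ∧
      Y ^ (1 - 1 / 10000 : ℝ) ≤ ((q.1 + q.2 : ℕ) : ℝ)) →
    (S.card : ℝ) ≤ C * Y ^ (3 / 5 - 1 / 5000 : ℝ) := by
  classical
  obtain ⟨C, hC1, hC⟩ := TfP.half κ hκ
  have hκ0 : 0 < κ := by linarith
  set M : ℝ := ((2 : ℝ) ^ (10000 : ℝ)) ^ κ with hM
  have hM1 : 1 ≤ M := Real.one_le_rpow (Real.one_le_rpow (by norm_num) (by norm_num)) hκ0.le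
  refine ⟨C + C + M * M, by nlinarith, ?_⟩
  intro Y S hY hS
  have hY0 : 0 < Y := by linarith
  have hYp : 1 ≤ Y ^ (3 / 5 - 1 / 5000 : ℝ) := Real.one_le_rpow hY (by norm_num)
  by_cases hbig : (2 : ℝ) ^ (10000 : ℝ) ≤ Y
  · set S₁ := S.filter (fun q => q.1 ≤ q.2)
    set S₂ := S.filter (fun q => ¬ q.1 ≤ q.2)
    have hcard : S.card = S₁.card + S₂.card :=
      (Finset.card_filter_add_card_filter_not (s := S) (fun q : ℕ × ℕ => q.1 ≤ q.2)).symm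
    have b₁ : (S₁.card : ℝ) ≤ C * Y ^ (3 / 5 - 1 / 5000 : ℝ) := by
      refine hC Y S₁ hbig ?_
      intro q hq
      obtain ⟨hqS, hq'⟩ := Finset.mem_filter.1 hq
      exact ⟨hq', hS q hqS⟩
    have b₂ : (S₂.card : ℝ) ≤ C * Y ^ (3 / 5 - 1 / 5000 : ℝ) := by
      rw [← Finset.card_image_of_injective S₂ Prod.swap_injective]
      refine hC Y _ hbig ?_
      intro q hq
      obtain ⟨p, hp, rfl⟩ := Finset.mem_image.1 hq
      obtain ⟨hqS, hq'⟩ := Finset.mem_filter.1 hp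
      obtain ⟨h1, h2, h3, h4, h5, h6⟩ := hS p hqS
      have e1 : p.2 + p.1 = p.1 + p.2 := by ring
      have e2 : p.2 * p.1 = p.1 * p.2 := by ring
      simp only [Prod.fst_swap, Prod.snd_swap]
      rw [e1, e2]
      exact ⟨by omega, h2, h1, h3.symm, h4, h5, h6⟩
    rw [hcard]
    push_cast
    have : 0 ≤ M * M * Y ^ (3 / 5 - 1 / 5000 : ℝ) := by positivity
    linarith
  · push Not at hbig
    set N := ⌊M⌋₊ with hN
    have hsub : S ⊆ Finset.Icc 1 N ×ˢ Finset.Icc 1 N := by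
      intro q hq
      obtain ⟨h1, h2, h3, h4, h5, h6⟩ := hS q hq
      have h7 : Y ^ κ ≤ M := Real.rpow_le_rpow hY0.le hbig.le hκ0.le
      have h8 : q.1 + q.2 ≤ N := Nat.le_floor (h4.trans h7)
      simp only [Finset.mem_product, Finset.mem_Icc]
      omega
    have hc : (S.card : ℝ) ≤ M * M := by
      have h1 : S.card ≤ N * N := by
        refine (Finset.card_le_card hsub).trans ?_
        rw [Finset.card_product, Nat.card_Icc]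
        simp
      have h2 : (N : ℝ) ≤ M := Nat.floor_le (by linarith)
      calc (S.card : ℝ) ≤ (N : ℝ) * N := by exact_mod_cast h1
        _ ≤ M * M := mul_le_mul h2 h2 (by positivity) (by linarith)
    calc (S.card : ℝ) ≤ M * M := hc
      _ ≤ (C + C + M * M) * 1 := by linarith
      _ ≤ _ := mul_le_mul_of_nonneg_left hYp (by nlinarith)

end Pool.Agent.Lib.MP_d8bd92_nt
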