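import Pool.Agent.Lib.MP_d8bd92_nt.TfDefs
import Pool.Agent.Lib.MP_d8bd92_nt.TwRad
import Pool.Agent.Lib.MP_d8bd92_nt.CdI1
import Pool.Agent.Lib.MP_d8bd92_nt.TfP

set_option autoImplicit false

/-!
The theorem on sums.
-/

namespace Pool.Agent.Lib.MP_d8bd92_nt

open Finset Pool.Agent.Lib.Szpiro


namespace TfQ

theorem three (x y z Q : ℝ) (hQ : 0 ≤ Q)
    (h : (x * y * z) ^ 2 ≤ Q ^ 3) : x * y ≤ Q ∨ x * z ≤ Q ∨ y * z ≤ Q := by
  by_contra hc
  push Not at hc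
  obtain ⟨h1, h2, h3⟩ := hc
  have h4 : Q * Q < (x * y) * (x * z) := mul_lt_mul'' h1 h2 hQ hQ
  have h5 : (Q * Q) * Q < ((x * y) * (x * z)) * (y * z) := mul_lt_mul'' h4 h3 (by positivity) hQ
  nlinarith

theorem rd_three (a b : ℕ) (ha : 1 ≤ a) (hb : 1 ≤ b) (h : Nat.Coprime a b) :
    (rd (a * b * (a + b)) : ℝ) = (rd a : ℝ) * rd b * rd (a + b) := by
  have h1 : Nat.Coprime (a * b) (a + b) := by
    refine Nat.Coprime.mul_left ?_ ?_
    · simpa using h
    · simpa using h.symm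
  rw [rd_mul_coprime (a * b) (a + b) (by positivity) (by omega) h1,
    rd_mul_coprime a b (by omega) (by omega) h]
  push_cast
  ring

/-- the choice of the part -/
theorem part (f : ℕ → ℝ) (t : ℝ) (n : ℕ) (h0 : t ≤ f 0) (hn : f n < t) :
    ∃ i, i < n ∧ f (i + 1) < t ∧ t ≤ f i := by
  induction n with
  | zero => exact absurd h0 (not_le.2 hn)
  | succ n ih =>
    rcases lt_or_ge (f n) t with h | h
    · obtain ⟨i, h1, h2, h3⟩ := ih h
      exact ⟨i, by omega, h2, h3⟩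
    · exact ⟨n, by omega, hn, h⟩

end TfQ

/-- the theorem on sums -/
theorem abc_three_fifths (κ : ℝ) (hκ : 1 ≤ κ) : ∃ C : ℝ, 1 ≤ C ∧
    ∀ (Y : ℝ) (S : Finset (ℕ × ℕ)), 1 ≤ Y →
    (∀ q ∈ S, 1 ≤ q.1 ∧ 1 ≤ q.2 ∧ Nat.Coprime q.1 q.2 ∧ ((q.1 + q.2 : ℕ) : ℝ) ≤ Y ^ κ ∧
      (rd (q.1 * q.2 * (q.1 + q.2)) : ℝ) ≤ Y ∧
      (rd (q.1 * q.2 * (q.1 + q.2)) : ℝ) ^ (1 - 1 / 20000 : ℝ) ≤ ((q.1 + q.2 : ℕ) : ℝ)) →
    (S.card : ℝ) ≤ C * Y ^ (3 / 5 - 1 / 5000 : ℝ) := by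
  classical
  have hκ0 : 0 < κ := by linarith
  obtain ⟨C1, hC11, hC1⟩ := card_evOne (1 / (200 * κ)) (by positivity)
  obtain ⟨C2, hC21, hC2⟩ := tf_scale (2 * κ) (by linarith)
  refine ⟨C1 + 3300 * C2, by linarith, ?_⟩
  intro Y S hY hS
  have hY0 : 0 < Y := by linarith
  obtain ⟨N, hN⟩ : ∃ N : ℕ, N = 3300 := ⟨3300, rfl⟩
  set r : ℕ × ℕ → ℝ := fun q => (rd (q.1 * q.2 * (q.1 + q.2)) : ℝ) with hr
  set f : ℕ → ℝ := fun i => Y ^ (1 - (i : ℝ) / 30000) with hf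
  set S0 := S.filter (fun q => r q ≤ f N) with hS0
  set Si : ℕ → Finset (ℕ × ℕ) := fun i => S.filter (fun q => f (i + 1) < r q ∧ r q ≤ f i) with hSi
  -- covering
  have hsub : S ⊆ S0 ∪ (range N).biUnion Si := by
    intro q hq
    rw [Finset.mem_union]
    rcases le_or_gt (r q) (f N) with h | h
    · exact Or.inl (Finset.mem_filter.2 ⟨hq, h⟩)
    · right
      have h0 : r q ≤ f 0 := by
        have h1 : f 0 = Y := by
          simp only [hf, Nat.cast_zero, zero_div, sub_zero, Real.rpow_one]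
        rw [h1]
        exact (hS q hq).2.2.2.2.1
      obtain ⟨i, hi1, hi2, hi3⟩ := TfQ.part f (r q) N h0 h
      rw [Finset.mem_biUnion]
      exact ⟨i, Finset.mem_range.2 hi1, Finset.mem_filter.2 ⟨hq, hi2, hi3⟩⟩
  -- part 0
  have hA : (S0.card : ℝ) ≤ C1 * Y ^ (3 / 5 - 1 / 5000 : ℝ) := by
    have hYκ : (1 : ℝ) ≤ Y ^ κ := Real.one_le_rpow hY hκ0.le
    have hZ1 : 1 ≤ ⌊Y ^ κ⌋₊ := (Nat.one_le_floor_iff _).2 hYκ
    have h := hC1 ⌊Y ^ κ⌋₊ (Y ^ (5934 / 10000 : ℝ)) S0 hZ1 (by positivity) (by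
      intro q hq
      obtain ⟨hq1, hq2⟩ := Finset.mem_filter.1 hq
      obtain ⟨a1, a2, a3, a4, a5, a6⟩ := hS q hq1
      refine ⟨a1, a2, Nat.le_floor a4, ?_⟩
      unfold EvOne
      apply TfQ.three _ _ _ _ (by positivity)
      rw [← TfQ.rd_three q.1 q.2 a1 a2 a3]
      have hq3 : (rd (q.1 * q.2 * (q.1 + q.2)) : ℝ) ≤ Y ^ (89 / 100 : ℝ) := by
        have : f N = Y ^ (89 / 100 : ℝ) := by
          simp only [hf, hN]
          congr 1
          norm_num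
        rw [← this]
        exact hq2
      calc (rd (q.1 * q.2 * (q.1 + q.2)) : ℝ) ^ 2 ≤ (Y ^ (89 / 100 : ℝ)) ^ 2 := by gcongr
        _ = Y ^ (178 / 100 : ℝ) := by
          rw [← Real.rpow_natCast, ← Real.rpow_mul hY0.le]
          congr 1
          norm_num
        _ ≤ Y ^ (17802 / 10000 : ℝ) := Real.rpow_le_rpow_of_exponent_le hY (by norm_num)
        _ = (Y ^ (5934 / 10000 : ℝ)) ^ 3 := by
          rw [← Real.rpow_natCast, ← Real.rpow_mul hY0.le]
          congr 1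
          norm_num)
    refine h.trans ?_
    rw [mul_assoc]
    apply mul_le_mul_of_nonneg_left _ (by linarith)
    calc ((⌊Y ^ κ⌋₊ : ℕ) : ℝ) ^ (1 / (200 * κ)) * Y ^ (5934 / 10000 : ℝ)
        ≤ (Y ^ κ) ^ (1 / (200 * κ)) * Y ^ (5934 / 10000 : ℝ) := by
          apply mul_le_mul_of_nonneg_right _ (by positivity)
          exact Real.rpow_le_rpow (Nat.cast_nonneg _) (Nat.floor_le (by positivity)) (by positivity)
      _ = Y ^ (5984 / 10000 : ℝ) := by
          rw [← Real.rpow_mul hY0.le, ← Real.rpow_add hY0]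
          congr 1
          field_simp
          norm_num
      _ ≤ Y ^ (3 / 5 - 1 / 5000 : ℝ) := Real.rpow_le_rpow_of_exponent_le hY (by norm_num)
  -- the other parts
  have hB : ∀ i ∈ range N, ((Si i).card : ℝ) ≤ C2 * Y ^ (3 / 5 - 1 / 5000 : ℝ) := by
    intro i hi
    have hi' : (i : ℝ) ≤ 3299 := by
      have := Finset.mem_range.1 hi
      have h2 : i ≤ 3299 := by omega
      exact_mod_cast h2
    have hi0 : (0 : ℝ) ≤ i := Nat.cast_nonneg i
    have hfi : (1 : ℝ) ≤ f i := Real.one_le_rpow hY (by linarith)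
    have h := hC2 (f i) (Si i) hfi (by
      intro q hq
      obtain ⟨hq1, hq2, hq3⟩ := Finset.mem_filter.1 hq
      obtain ⟨a1, a2, a3, a4, a5, a6⟩ := hS q hq1
      refine ⟨a1, a2, a3, ?_, hq3, ?_⟩
      · refine a4.trans ?_
        simp only [hf]
        rw [← Real.rpow_mul hY0.le]
        apply Real.rpow_le_rpow_of_exponent_le hY
        nlinarith
      · refine le_trans ?_ a6
        refine le_trans ?_ (Real.rpow_le_rpow (by positivity) hq2.le (by norm_num))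
        simp only [hf]
        rw [← Real.rpow_mul hY0.le, ← Real.rpow_mul hY0.le]
        apply Real.rpow_le_rpow_of_exponent_le hY
        push_cast
        nlinarith)
    refine h.trans ?_
    apply mul_le_mul_of_nonneg_left _ (by linarith)
    apply Real.rpow_le_rpow (by linarith) _ (by norm_num)
    calc f i ≤ Y ^ (1 : ℝ) := Real.rpow_le_rpow_of_exponent_le hY (by linarith)
      _ = Y := Real.rpow_one Y
  -- conclusion
  have hcard : (S.card : ℝ) ≤ (S0.card : ℝ) + ∑ i ∈ range N, ((Si i).card : ℝ) := by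
    have e1 := Finset.card_le_card hsub
    have e2 := Finset.card_union_le S0 ((range N).biUnion Si)
    have e3 := Finset.card_biUnion_le (s := range N) (t := Si)
    exact_mod_cast (by omega : S.card ≤ S0.card + ∑ i ∈ range N, (Si i).card)
  have hsum : ∑ i ∈ range N, ((Si i).card : ℝ) ≤ 3300 * (C2 * Y ^ (3 / 5 - 1 / 5000 : ℝ)) := by
    refine (Finset.sum_le_sum hB).trans (le_of_eq ?_)
    rw [Finset.sum_const, Finset.card_range, nsmul_eq_mul, hN]
    norm_num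
  calc (S.card : ℝ) ≤ C1 * Y ^ (3 / 5 - 1 / 5000 : ℝ) + 3300 * (C2 * Y ^ (3 / 5 - 1 / 5000 : ℝ)) := by
        linarith
    _ = _ := by ring

end Pool.Agent.Lib.MP_d8bd92_nt
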