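import Pool.Agent.Lib.MP_d8bd92_nt.CdI1

set_option autoImplicit false

/-!
Values of binary quadratic forms: a fixed value is taken few times at coprime pairs of bounded size.
-/

namespace Pool.Agent.Lib.MP_d8bd92_nt

open Finset Pool.Agent.Lib.Szpiro

namespace Fm

/-- gap between two positive solutions of `x² - D y² = N` in the same class modulo `N` -/
theorem pell_gap {D N x y x' y' : ℤ} (hD : 0 < D) (hN : 0 < N) (hx : 0 < x) (hx' : 0 < x')
    (hy : 0 < y) (hyy : y < y') (h : x ^ 2 - D * y ^ 2 = N) (h' : x' ^ 2 - D * y' ^ 2 = N)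
    (hcx : N ∣ x' - x) (hcy : N ∣ y' - y) : 2 * y ≤ y' := by
  obtain ⟨k, hk⟩ := hcx
  obtain ⟨l, hl⟩ := hcy
  have hy' : 0 < y' := hy.trans hyy
  set U : ℤ := 1 + x * k - D * y * l with hU
  set V : ℤ := x * l - k * y with hV
  have e1 : x * x' - D * y * y' = N * U := by
    have a1 : x' = x + N * k := by linarith
    have a2 : y' = y + N * l := by linarith
    rw [a1, a2, hU]
    linear_combination h
  have e2 : x * y' - x' * y = N * V := by
    have a1 : x' = x + N * k := by linarith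
    have a2 : y' = y + N * l := by linarith
    rw [a1, a2, hV]
    ring
  have e3 : U ^ 2 - D * V ^ 2 = 1 := by
    have b1 : N ^ 2 * (U ^ 2 - D * V ^ 2) = N ^ 2 * 1 := by
      have b2 : (x * x' - D * y * y') ^ 2 - D * (x * y' - x' * y) ^ 2 =
          (x ^ 2 - D * y ^ 2) * (x' ^ 2 - D * y' ^ 2) := by ring
      rw [e1, e2, h, h'] at b2
      linear_combination b2
    have b3 : N ^ 2 ≠ 0 := pow_ne_zero _ hN.ne'
    exact mul_left_cancel₀ b3 b1
  have e4 : 0 < x * y' - x' * y := by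
    have b1 : (x' * y) ^ 2 < (x * y') ^ 2 := by
      have b2 : (x * y') ^ 2 - (x' * y) ^ 2 = N * (y' ^ 2 - y ^ 2) := by
        have c1 : x ^ 2 = N + D * y ^ 2 := by linarith
        have c2 : x' ^ 2 = N + D * y' ^ 2 := by linarith
        rw [mul_pow, mul_pow, c1, c2]; ring
      have b3 : 0 < y' ^ 2 - y ^ 2 := by nlinarith
      have b4 := mul_pos hN b3
      linarith
    have b5 := lt_of_pow_lt_pow_left₀ 2 (by positivity) b1
    linarith
  have hVpos : 0 < V := by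
    rw [e2] at e4
    exact (pos_iff_pos_of_mul_pos e4).mp hN
  have e5 : 0 < x * x' - D * y * y' := by
    have b1 : (D * y * y') ^ 2 < (x * x') ^ 2 := by
      have c1 : x ^ 2 = N + D * y ^ 2 := by linarith
      have c2 : x' ^ 2 = N + D * y' ^ 2 := by linarith
      have c3 : (x * x') ^ 2 - (D * y * y') ^ 2 = N ^ 2 + N * D * y' ^ 2 + N * D * y ^ 2 := by
        rw [mul_pow, c1, c2]; ring
      have c4 : 0 < N ^ 2 + N * D * y' ^ 2 + N * D * y ^ 2 := by positivity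
      linarith
    have b5 := lt_of_pow_lt_pow_left₀ 2 (by positivity) b1
    linarith
  have hUpos : 0 < U := by
    rw [e1] at e5
    exact (pos_iff_pos_of_mul_pos e5).mp hN
  have hU2 : 2 ≤ U := by
    by_contra hcon
    push Not at hcon
    have : U = 1 := by omega
    rw [this] at e3
    have c1 : 0 < D * V ^ 2 := by positivity
    linarith
  have e6 : N * y' = N * (U * y + V * x) := by
    have : N * (U * y + V * x) = (N * U) * y + (N * V) * x := by ring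
    rw [this, ← e1, ← e2]
    linear_combination (-y') * h
  have e7 : y' = U * y + V * x := mul_left_cancel₀ hN.ne' e6
  have c1 : 2 * y ≤ U * y := mul_le_mul_of_nonneg_right hU2 hy.le
  have c2 : 0 < V * x := mul_pos hVpos hx
  linarith

/-- few solutions of `x² - D y² = N` with `|y| ≤ T` -/
theorem pell_count (D N : ℤ) (hD : ¬ IsSquare D) (hN : 0 < N) (T : ℕ) (S : Finset (ℤ × ℤ))
    (hS : ∀ w ∈ S, w.1 ^ 2 - D * w.2 ^ 2 = N ∧ w.2.natAbs ≤ T) :
    S.card ≤ 9 * (2 * N.natAbs + 1) ^ 2 * (Nat.log 2 T + 1) := by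
  classical
  have hNn : (N.natAbs : ℤ) = N := Int.natAbs_of_nonneg hN.le
  rcases lt_trichotomy D 0 with hneg | hzero | hpos
  · have h1 : S ⊆ Finset.Icc (-N) N ×ˢ Finset.Icc (-N) N := by
      intro w hw
      obtain ⟨h2, _⟩ := hS w hw
      have h3 : w.1 ^ 2 ≤ N := by nlinarith [sq_nonneg w.2]
      have h4 : w.2 ^ 2 ≤ N := by nlinarith [sq_nonneg w.1, sq_nonneg w.2]
      rw [Finset.mem_product, Finset.mem_Icc, Finset.mem_Icc]
      refine ⟨⟨?_, ?_⟩, ?_, ?_⟩ <;> nlinarith [sq_nonneg (w.1 + 1), sq_nonneg (w.1 - 1),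
        sq_nonneg (w.2 + 1), sq_nonneg (w.2 - 1)]
    have h2 := Finset.card_le_card h1
    rw [Finset.card_product, Int.card_Icc] at h2
    have h3 : (N + 1 - -N).toNat = 2 * N.natAbs + 1 := by omega
    rw [h3] at h2
    have h4 : 1 ≤ Nat.log 2 T + 1 := by omega
    calc S.card ≤ (2 * N.natAbs + 1) * (2 * N.natAbs + 1) := h2
      _ ≤ 9 * (2 * N.natAbs + 1) ^ 2 * 1 := by nlinarith
      _ ≤ _ := Nat.mul_le_mul_left _ h4
  · exact absurd ⟨0, by rw [hzero]; ring⟩ hD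
  set g : ℤ × ℤ → (ℤ × ℤ) × (ℕ × ℕ) × ℕ := fun w =>
    ((w.1.sign, w.2.sign), (w.1.natAbs % N.natAbs, w.2.natAbs % N.natAbs), Nat.log 2 w.2.natAbs) with hg
  have hNpos : 0 < N.natAbs := Int.natAbs_pos.mpr hN.ne'
  have hmaps : ∀ w ∈ S, g w ∈ (Finset.Icc (-1 : ℤ) 1 ×ˢ Finset.Icc (-1 : ℤ) 1) ×ˢ
      (Finset.range N.natAbs ×ˢ Finset.range N.natAbs) ×ˢ Finset.range (Nat.log 2 T + 1) := by
    intro w hw
    obtain ⟨_, h2⟩ := hS w hw
    have hs : ∀ a : ℤ, -1 ≤ a.sign ∧ a.sign ≤ 1 := by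
      intro a
      rcases lt_trichotomy a 0 with h | h | h
      · rw [Int.sign_eq_neg_one_of_neg h]; norm_num
      · rw [h]; norm_num
      · rw [Int.sign_eq_one_of_pos h]; norm_num
    simp only [hg, Finset.mem_product, Finset.mem_Icc, Finset.mem_range]
    refine ⟨⟨hs _, hs _⟩, ⟨Nat.mod_lt _ hNpos, Nat.mod_lt _ hNpos⟩, ?_⟩
    exact Nat.lt_succ_of_le (Nat.log_mono_right h2)
  have habs : ∀ w ∈ S, |w.1| ^ 2 - D * |w.2| ^ 2 = N ∧ 0 < |w.1| := by
    intro w hw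
    obtain ⟨h1, _⟩ := hS w hw
    refine ⟨by rw [sq_abs, sq_abs]; exact h1, ?_⟩
    apply abs_pos.mpr
    intro h
    rw [h] at h1
    have : 0 ≤ D * w.2 ^ 2 := by positivity
    nlinarith
  have hkey : ∀ w ∈ S, ∀ w' ∈ S, g w = g w' → |w.2| < |w'.2| → False := by
    intro w hw w' hw' hgg hlt
    simp only [hg, Prod.mk.injEq] at hgg
    obtain ⟨⟨g1, g2⟩, ⟨g3, g4⟩, g5⟩ := hgg
    have hy : 0 < |w.2| := by
      apply abs_pos.mpr
      intro h
      rw [h, Int.sign_zero] at g2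
      have : w'.2 = 0 := Int.sign_eq_zero_iff_zero.mp g2.symm
      rw [h, this] at hlt
      exact lt_irrefl _ hlt
    have hc : ∀ a b : ℤ, a.natAbs % N.natAbs = b.natAbs % N.natAbs → N ∣ |b| - |a| := by
      intro a b hab
      have h1 : (a.natAbs : ℤ) ≡ b.natAbs [ZMOD N.natAbs] := by
        exact_mod_cast (Int.natCast_modEq_iff.mpr hab)
      have h2 := h1.dvd
      rw [hNn, Int.natCast_natAbs, Int.natCast_natAbs] at h2
      exact h2
    have h1 := pell_gap hpos hN (habs w hw).2 (habs w' hw').2 hy hlt (habs w hw).1 (habs w' hw').1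
      (hc _ _ g3) (hc _ _ g4)
    have h2 : 2 * w.2.natAbs ≤ w'.2.natAbs := by
      rw [← Int.natCast_natAbs, ← Int.natCast_natAbs] at h1
      exact_mod_cast h1
    have h3 : w.2.natAbs ≠ 0 := by
      intro h
      rw [Int.natAbs_eq_zero] at h
      rw [h] at hy
      simp at hy
    have h4 : Nat.log 2 (2 * w.2.natAbs) = Nat.log 2 w.2.natAbs + 1 := by
      rw [mul_comm]
      exact Nat.log_mul_base (by norm_num) h3
    have h5 := Nat.log_mono_right (b := 2) h2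
    rw [h4, g5] at h5
    omega
  have hinj : Set.InjOn g S := by
    intro w hw w' hw' hgg
    have h1 : |w.2| = |w'.2| := by
      rcases lt_trichotomy |w.2| |w'.2| with h | h | h
      · exact (hkey w hw w' hw' hgg h).elim
      · exact h
      · exact (hkey w' hw' w hw hgg.symm h).elim
    have h2 : |w.1| = |w'.1| := by
      have e1 := (habs w hw).1
      have e2 := (habs w' hw').1
      rw [h1] at e1
      have e3 : |w.1| ^ 2 = |w'.1| ^ 2 := by linarith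
      exact (pow_left_inj₀ (abs_nonneg _) (abs_nonneg _) (by norm_num)).mp e3
    simp only [hg, Prod.mk.injEq] at hgg
    obtain ⟨⟨g1, g2⟩, _⟩ := hgg
    have e1 : w.1 = w'.1 := by
      rw [← Int.sign_mul_abs w.1, ← Int.sign_mul_abs w'.1, g1, h2]
    have e2 : w.2 = w'.2 := by
      rw [← Int.sign_mul_abs w.2, ← Int.sign_mul_abs w'.2, g2, h1]
    exact Prod.ext e1 e2
  have h1 := Finset.card_le_card_of_injOn g hmaps hinj
  rw [Finset.card_product, Finset.card_product, Finset.card_product, Finset.card_product,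
    Int.card_Icc, Finset.card_range, Finset.card_range] at h1
  have h2 : ((1 : ℤ) + 1 - -1).toNat = 3 := by decide
  rw [h2] at h1
  calc S.card ≤ 3 * 3 * (N.natAbs * N.natAbs * (Nat.log 2 T + 1)) := h1
    _ = 9 * N.natAbs ^ 2 * (Nat.log 2 T + 1) := by ring
    _ ≤ _ := by gcongr; omega

/-- two coprime solutions in the same class: the modulus divides the determinant, up to a constant -/
theorem class_dvd {D M c X V X0 V0 X' V' d : ℤ} (hM : X0 ^ 2 - D * V0 ^ 2 = M)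
    (h1 : X ^ 2 - D * V ^ 2 = M) (h2 : X' ^ 2 - D * V' ^ 2 = M) (hM0 : M ≠ 0)
    (hc0 : (Int.gcd X0 V0 : ℤ) ∣ c) (hc1 : (Int.gcd X V : ℤ) ∣ c)
    (hd : (Int.gcd (X * V0 - X0 * V) M : ℤ) = d) (hd' : (Int.gcd (X' * V0 - X0 * V') M : ℤ) = d) :
    M ∣ 4 * c ^ 5 * D * (X * V' - X' * V) := by
  have hdM : d ∣ M := by rw [← hd]; exact Int.gcd_dvd_right _ _
  obtain ⟨e, he⟩ := hdM
  have hd0 : d ≠ 0 := by rintro rfl; rw [zero_mul] at he; exact hM0 he
  -- divisibilities of a member of the class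
  have key : ∀ X V : ℤ, X ^ 2 - D * V ^ 2 = M → (Int.gcd (X * V0 - X0 * V) M : ℤ) = d →
      d ∣ X * V0 - X0 * V ∧ e ∣ X * V0 + X0 * V := by
    intro X V h hg
    have a1 : d ∣ X * V0 - X0 * V := by rw [← hg]; exact Int.gcd_dvd_left _ _
    refine ⟨a1, ?_⟩
    have a2 : M ∣ (X * V0 - X0 * V) * (X * V0 + X0 * V) := by
      refine ⟨V0 ^ 2 - V ^ 2, ?_⟩
      linear_combination V0 ^ 2 * h - V ^ 2 * hM
    have a3 : M ∣ d * (X * V0 + X0 * V) := by
      have b1 : M ∣ (Int.gcd ((X * V0 - X0 * V) * (X * V0 + X0 * V)) (M * (X * V0 + X0 * V)) : ℤ) :=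
        Int.dvd_coe_gcd a2 (dvd_mul_right _ _)
      rw [Int.gcd_mul_right] at b1
      push_cast at b1
      rw [hg] at b1
      have b2 : d * |X * V0 + X0 * V| = |d * (X * V0 + X0 * V)| ∨
          d * |X * V0 + X0 * V| = -|d * (X * V0 + X0 * V)| := by
        rw [abs_mul]
        rcases abs_choice d with h | h
        · left; rw [h]
        · right; rw [h]; ring
      rcases b2 with b2 | b2
      · rw [b2] at b1; exact (dvd_abs _ _).mp b1
      · rw [b2] at b1; exact (dvd_abs _ _).mp ((dvd_neg).mp b1)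
    rw [he] at a3
    exact (mul_dvd_mul_iff_left hd0).mp a3
  obtain ⟨k1, k2⟩ := key X V h1 hd
  obtain ⟨k3, k4⟩ := key X' V' h2 hd'
  set W : ℤ := X * V' - X' * V with hW
  -- `d ∣ c W`, `e ∣ c W`
  have hgc : ∀ z : ℤ, z ∣ V0 * W → z ∣ X0 * W → z ∣ c * W := by
    intro z z1 z2
    have a1 : z ∣ (Int.gcd (X0 * W) (V0 * W) : ℤ) := Int.dvd_coe_gcd z2 z1
    rw [Int.gcd_mul_right] at a1
    push_cast at a1
    have a2 : z ∣ (Int.gcd X0 V0 : ℤ) * W := by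
      rcases abs_choice W with h | h
      · rw [h] at a1; exact a1
      · rw [h, mul_neg] at a1; exact (dvd_neg).mp a1
    exact a2.trans (mul_dvd_mul_right hc0 _)
  have hdW : d ∣ c * W := by
    apply hgc
    · obtain ⟨r, hr⟩ := k1
      obtain ⟨r', hr'⟩ := k3
      exact ⟨r * V' - r' * V, by rw [hW]; linear_combination V' * hr - V * hr'⟩
    · obtain ⟨r, hr⟩ := k1
      obtain ⟨r', hr'⟩ := k3
      exact ⟨r * X' - r' * X, by rw [hW]; linear_combination X' * hr - X * hr'⟩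
  have heW : e ∣ c * W := by
    apply hgc
    · obtain ⟨r, hr⟩ := k2
      obtain ⟨r', hr'⟩ := k4
      exact ⟨r * V' - r' * V, by rw [hW]; linear_combination V' * hr - V * hr'⟩
    · obtain ⟨r, hr⟩ := k2
      obtain ⟨r', hr'⟩ := k4
      exact ⟨r' * X - r * X', by rw [hW]; linear_combination X * hr' - X' * hr⟩
  -- the common divisor of `d` and `e`
  set g : ℤ := (Int.gcd d e : ℤ) with hg
  have hgd : g ∣ d := Int.gcd_dvd_left _ _
  have hge : g ∣ e := Int.gcd_dvd_right _ _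
  have hg2M : g ^ 2 ∣ M := by
    rw [he, sq]
    exact mul_dvd_mul hgd hge
  have hsmall : ∀ X V : ℤ, X ^ 2 - D * V ^ 2 = M → (Int.gcd X V : ℤ) ∣ c →
      (Int.gcd g V : ℤ) ∣ c := by
    intro X V h hXV
    set t : ℤ := (Int.gcd g V : ℤ) with ht
    have t1 : t ∣ g := Int.gcd_dvd_left _ _
    have t2 : t ∣ V := Int.gcd_dvd_right _ _
    have t3 : t ^ 2 ∣ X ^ 2 := by
      have a1 : t ^ 2 ∣ M := (pow_dvd_pow_of_dvd t1 2).trans hg2M
      have a2 : t ^ 2 ∣ D * V ^ 2 := (pow_dvd_pow_of_dvd t2 2).mul_left _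
      have a3 := dvd_add a1 a2
      rw [← h] at a3
      have a4 : X ^ 2 - D * V ^ 2 + D * V ^ 2 = X ^ 2 := by ring
      rwa [a4] at a3
    have t4 : t ∣ X := (Int.pow_dvd_pow_iff (by norm_num)).mp t3
    exact (Int.dvd_coe_gcd t4 t2).trans hXV
  have hh := hsmall X0 V0 hM hc0
  have hh' := hsmall X V h1 hc1
  -- `g ∣ 2 c X`
  have hgX : g ∣ 2 * c * X := by
    have a1 : g ∣ 2 * X * V0 := by
      have := dvd_add (hgd.trans k1) (hge.trans k2)
      have e1 : X * V0 - X0 * V + (X * V0 + X0 * V) = 2 * X * V0 := by ring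
      rwa [e1] at this
    have a2 : g ∣ (Int.gcd (2 * X * g) (2 * X * V0) : ℤ) := Int.dvd_coe_gcd (dvd_mul_left _ _) a1
    rw [Int.gcd_mul_left] at a2
    push_cast at a2
    have a3 : g ∣ (2 * X) * (Int.gcd g V0 : ℤ) := by
      have b1 : |2 * X| * (Int.gcd g V0 : ℤ) ∣ (2 * X) * (Int.gcd g V0 : ℤ) := by
        apply mul_dvd_mul_right
        exact (abs_dvd _ _).mpr dvd_rfl
      have b2 : g ∣ |2 * X| * (Int.gcd g V0 : ℤ) := by simpa [abs_mul] using a2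
      exact b2.trans b1
    have a4 : (2 * X) * (Int.gcd g V0 : ℤ) ∣ 2 * c * X := by
      obtain ⟨r, hr⟩ := hh
      exact ⟨r, by rw [hr]; ring⟩
    exact a3.trans a4
  have hg2 : g ^ 2 ∣ 4 * c ^ 4 * D := by
    have a1 : g ^ 2 ∣ 4 * c ^ 2 * D * V ^ 2 := by
      have b1 := pow_dvd_pow_of_dvd hgX 2
      have b2 : g ^ 2 ∣ 4 * c ^ 2 * M := hg2M.mul_left _
      have b3 := dvd_sub b1 b2
      have b4 : (2 * c * X) ^ 2 - 4 * c ^ 2 * M = 4 * c ^ 2 * D * V ^ 2 := by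
        rw [← h1]; ring
      rwa [b4] at b3
    have a2 : g ^ 2 ∣ (4 * c ^ 2 * D) * (Int.gcd g V : ℤ) ^ 2 := by
      have b1 : g ^ 2 ∣ (Int.gcd ((4 * c ^ 2 * D) * g ^ 2) ((4 * c ^ 2 * D) * V ^ 2) : ℤ) :=
        Int.dvd_coe_gcd (dvd_mul_left _ _) a1
      rw [Int.gcd_mul_left, Int.pow_gcd_pow] at b1
      push_cast at b1
      have b2 : |4 * c ^ 2 * D| * (Int.gcd g V : ℤ) ^ 2 ∣ (4 * c ^ 2 * D) * (Int.gcd g V : ℤ) ^ 2 :=
        mul_dvd_mul_right ((abs_dvd _ _).mpr dvd_rfl) _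
      have b3 : g ^ 2 ∣ |4 * c ^ 2 * D| * (Int.gcd g V : ℤ) ^ 2 := by simpa [abs_mul] using b1
      exact b3.trans b2
    have a3 : (4 * c ^ 2 * D) * (Int.gcd g V : ℤ) ^ 2 ∣ 4 * c ^ 4 * D := by
      obtain ⟨r, hr⟩ := hh'
      refine ⟨r ^ 2, ?_⟩
      have : c ^ 4 = c ^ 2 * ((Int.gcd g V : ℤ) * r) ^ 2 := by rw [← hr]; ring
      rw [this]; ring
    exact a2.trans a3
  have hgg : g ∣ 4 * c ^ 4 * D := (Dvd.intro_left (g ^ 1) (by ring)).trans hg2
  -- conclusion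
  have hlcm : d * e ∣ g * (c * W) := by
    have a1 : d * e ∣ (Int.gcd (d * (c * W)) (e * (c * W)) : ℤ) := by
      apply Int.dvd_coe_gcd
      · exact mul_dvd_mul_left _ heW
      · rw [mul_comm e]
        exact mul_comm (c * W) e ▸ mul_dvd_mul_right hdW e
    rw [Int.gcd_mul_right] at a1
    push_cast at a1
    have b1 : g * |c * W| ∣ g * (c * W) := mul_dvd_mul_left _ ((abs_dvd _ _).mpr dvd_rfl)
    have b3 : d * e ∣ g * |c * W| := by simpa [abs_mul, hg] using a1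
    exact b3.trans b1
  rw [he]
  refine hlcm.trans ?_
  obtain ⟨r, hr⟩ := hgg
  exact ⟨r, by rw [show 4 * c ^ 5 * D * W = (4 * c ^ 4 * D) * (c * W) by ring, hr]; ring⟩

/-- few solutions of `x² - D y² = M` with `gcd (x, y)` dividing a constant -/
theorem norm_count (D c : ℤ) (hD : ¬ IsSquare D) (hc : c ≠ 0) (σ : ℝ) (hσ : 0 < σ) :
    ∃ C : ℝ, 1 ≤ C ∧ ∀ (Z : ℕ) (M : ℤ) (S : Finset (ℤ × ℤ)), 1 ≤ Z → M ≠ 0 →
    (∀ w ∈ S, w.1 ^ 2 - D * w.2 ^ 2 = M ∧ (Int.gcd w.1 w.2 : ℤ) ∣ c ∧ w.1.natAbs ≤ Z ∧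
      w.2.natAbs ≤ Z) →
    (S.card : ℝ) ≤ C * (Z : ℝ) ^ σ := by
  classical
  have hD0 : D ≠ 0 := by rintro rfl; exact hD ⟨0, by ring⟩
  set c3 : ℤ := 4 * c ^ 5 * D with hc3
  have hc30 : c3 ≠ 0 := by rw [hc3]; positivity
  have hc3sq : 0 < c3 ^ 2 := by positivity
  have hc3n : 1 ≤ c3.natAbs := Int.natAbs_pos.mpr hc30
  obtain ⟨C1, hC1, h1⟩ := card_divisors_le_rpow (σ / 4) (by positivity)
  obtain ⟨C2, hC2, h2⟩ := I1_log (σ / 4) (by positivity)
  set B : ℝ := ((9 * (2 * (c3 ^ 2).natAbs + 1) ^ 2 : ℕ) : ℝ) with hB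
  have hB1 : 1 ≤ B := by
    rw [hB]
    have : 1 ≤ 9 * (2 * (c3 ^ 2).natAbs + 1) ^ 2 := by nlinarith [Nat.zero_le (c3 ^ 2).natAbs]
    exact_mod_cast this
  set KD : ℝ := (((1 + D.natAbs : ℕ) : ℝ)) ^ (σ / 4) with hKD
  have hKD1 : 1 ≤ KD := by
    apply Real.one_le_rpow _ (by positivity)
    push_cast
    have : (0 : ℝ) ≤ (D.natAbs : ℝ) := Nat.cast_nonneg _
    linarith
  set KC : ℝ := (((2 * c3.natAbs : ℕ) : ℝ)) ^ (σ / 4) with hKC
  have hKC1 : 1 ≤ KC := by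
    apply Real.one_le_rpow _ (by positivity)
    have : 1 ≤ 2 * c3.natAbs := by omega
    exact_mod_cast this
  refine ⟨C1 * KD * B * C2 * KC, ?_, ?_⟩
  · have a1 : 1 ≤ C1 * KD := one_le_mul_of_one_le_of_one_le hC1 hKD1
    have a2 : 1 ≤ C1 * KD * B := one_le_mul_of_one_le_of_one_le a1 hB1
    have a3 : 1 ≤ C1 * KD * B * C2 := one_le_mul_of_one_le_of_one_le a2 hC2
    exact one_le_mul_of_one_le_of_one_le a3 hKC1
  intro Z M S hZ hM hS
  have hZ1 : (1 : ℝ) ≤ (Z : ℝ) := by exact_mod_cast hZ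
  have hZ0 : (0 : ℝ) < (Z : ℝ) := by linarith
  rcases S.eq_empty_or_nonempty with hE | ⟨w0, hw0⟩
  · rw [hE, Finset.card_empty]
    push_cast
    positivity
  obtain ⟨k1, k2, k3, k4⟩ := hS w0 hw0
  set e : ℤ × ℤ → ℕ := fun w => Int.gcd (w.1 * w0.2 - w0.1 * w.2) M with he
  have hMn : M.natAbs ≠ 0 := Int.natAbs_ne_zero.mpr hM
  have hmaps : ∀ w ∈ S, e w ∈ M.natAbs.divisors := by
    intro w _
    rw [Nat.mem_divisors]
    refine ⟨?_, hMn⟩
    exact Int.natCast_dvd.mp (Int.gcd_dvd_right _ _)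
  have hfib : ∀ d ∈ M.natAbs.divisors, ((S.filter (fun w => e w = d)).card : ℝ) ≤
      B * (C2 * KC * (Z : ℝ) ^ (σ / 2)) := by
    intro d _
    set F := S.filter (fun w => e w = d) with hF
    rcases F.eq_empty_or_nonempty with hE | ⟨w1, hw1⟩
    · rw [hE, Finset.card_empty]
      push_cast
      positivity
    rw [hF, Finset.mem_filter] at hw1
    obtain ⟨hw1S, hw1e⟩ := hw1
    obtain ⟨m1, m2, m3, m4⟩ := hS w1 hw1S
    set UW : ℤ × ℤ → ℤ × ℤ := fun w => (c3 * (w1.1 * w.1 - D * w1.2 * w.2) / M,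
      c3 * (w1.1 * w.2 - w.1 * w1.2) / M) with hUW
    have hprop : ∀ w ∈ F, M * (UW w).1 = c3 * (w1.1 * w.1 - D * w1.2 * w.2) ∧
        M * (UW w).2 = c3 * (w1.1 * w.2 - w.1 * w1.2) := by
      intro w hw
      rw [hF, Finset.mem_filter] at hw
      obtain ⟨hwS, hwe⟩ := hw
      obtain ⟨n1, n2, n3, n4⟩ := hS w hwS
      have hW : M ∣ c3 * (w1.1 * w.2 - w.1 * w1.2) := by
        rw [hc3]
        exact class_dvd (c := c) k1 m1 n1 hM k2 m2 (d := (d : ℤ)) (by rw [← hw1e]) (by rw [← hwe])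
      have hU : M ∣ c3 * (w1.1 * w.1 - D * w1.2 * w.2) := by
        have b1 : M ^ 2 ∣ (c3 * (w1.1 * w.1 - D * w1.2 * w.2)) ^ 2 := by
          have b2 : (c3 * (w1.1 * w.1 - D * w1.2 * w.2)) ^ 2 =
              c3 ^ 2 * M ^ 2 + D * (c3 * (w1.1 * w.2 - w.1 * w1.2)) ^ 2 := by
            have b3 : (w1.1 * w.1 - D * w1.2 * w.2) ^ 2 - D * (w1.1 * w.2 - w.1 * w1.2) ^ 2 =
                (w1.1 ^ 2 - D * w1.2 ^ 2) * (w.1 ^ 2 - D * w.2 ^ 2) := by ring
            rw [m1, n1] at b3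
            linear_combination c3 ^ 2 * b3
          rw [b2]
          exact dvd_add (dvd_mul_left _ _) ((pow_dvd_pow_of_dvd hW 2).mul_left _)
        exact (Int.pow_dvd_pow_iff (by norm_num)).mp b1
      exact ⟨Int.mul_ediv_cancel' hU, Int.mul_ediv_cancel' hW⟩
    have hinj : Set.InjOn UW F := by
      intro w hw w' hw' hww
      obtain ⟨p1, p2⟩ := hprop w hw
      obtain ⟨p3, p4⟩ := hprop w' hw'
      rw [hww, p3] at p1
      rw [hww, p4] at p2
      have q1 := mul_left_cancel₀ hc30 p1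
      have q2 := mul_left_cancel₀ hc30 p2
      have r1 : M * w'.1 = M * w.1 := by
        rw [← m1]
        linear_combination w1.1 * q1 + D * w1.2 * q2
      have r2 : M * w'.2 = M * w.2 := by
        rw [← m1]
        linear_combination w1.2 * q1 + w1.1 * q2
      exact Prod.ext (mul_left_cancel₀ hM r1).symm (mul_left_cancel₀ hM r2).symm
    have hpell := pell_count D (c3 ^ 2) hD hc3sq (2 * c3.natAbs * Z ^ 2) (F.image UW) (by
      intro z hz
      obtain ⟨w, hw, rfl⟩ := Finset.mem_image.mp hz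
      obtain ⟨p1, p2⟩ := hprop w hw
      have hwS : w ∈ S := (Finset.mem_filter.mp (hF ▸ hw)).1
      obtain ⟨n1, n2, n3, n4⟩ := hS w hwS
      constructor
      · have b3 : (w1.1 * w.1 - D * w1.2 * w.2) ^ 2 - D * (w1.1 * w.2 - w.1 * w1.2) ^ 2 =
            (w1.1 ^ 2 - D * w1.2 ^ 2) * (w.1 ^ 2 - D * w.2 ^ 2) := by ring
        rw [m1, n1] at b3
        have b4 : M ^ 2 * ((UW w).1 ^ 2 - D * (UW w).2 ^ 2) = M ^ 2 * c3 ^ 2 := by
          have b5 : M ^ 2 * ((UW w).1 ^ 2 - D * (UW w).2 ^ 2) =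
              (M * (UW w).1) ^ 2 - D * (M * (UW w).2) ^ 2 := by ring
          rw [b5, p1, p2]
          linear_combination c3 ^ 2 * b3
        exact mul_left_cancel₀ (pow_ne_zero 2 hM) b4
      · have b1 : M.natAbs * (UW w).2.natAbs = c3.natAbs * (w1.1 * w.2 - w.1 * w1.2).natAbs := by
          rw [← Int.natAbs_mul, ← Int.natAbs_mul, p2]
        have b2 : (UW w).2.natAbs ≤ M.natAbs * (UW w).2.natAbs :=
          Nat.le_mul_of_pos_left _ (Nat.pos_of_ne_zero hMn)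
        have b3 : (w1.1 * w.2 - w.1 * w1.2).natAbs ≤ Z * Z + Z * Z := by
          refine (Int.natAbs_sub_le _ _).trans ?_
          rw [Int.natAbs_mul, Int.natAbs_mul]
          exact Nat.add_le_add (Nat.mul_le_mul m3 n4) (Nat.mul_le_mul n3 m4)
        calc (UW w).2.natAbs ≤ c3.natAbs * (w1.1 * w.2 - w.1 * w1.2).natAbs := by
              rw [← b1]; exact b2
          _ ≤ c3.natAbs * (Z * Z + Z * Z) := Nat.mul_le_mul_left _ b3
          _ = 2 * c3.natAbs * Z ^ 2 := by ring)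
    rw [Finset.card_image_of_injOn hinj] at hpell
    have hT1 : 1 ≤ 2 * c3.natAbs * Z ^ 2 := by
      have : 0 < Z ^ 2 := by positivity
      nlinarith
    have hlog := h2 (2 * c3.natAbs * Z ^ 2) hT1
    have hpow : (((2 * c3.natAbs * Z ^ 2 : ℕ) : ℝ)) ^ (σ / 4) = KC * (Z : ℝ) ^ (σ / 2) := by
      push_cast
      rw [Real.mul_rpow (by positivity) (by positivity), hKC]
      push_cast
      congr 1
      rw [← Real.rpow_natCast, ← Real.rpow_mul hZ0.le]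
      congr 1
      push_cast; ring
    rw [hpow] at hlog
    calc (F.card : ℝ) ≤ ((9 * (2 * (c3 ^ 2).natAbs + 1) ^ 2 *
            (Nat.log 2 (2 * c3.natAbs * Z ^ 2) + 1) : ℕ) : ℝ) := by exact_mod_cast hpell
      _ = B * (((Nat.log 2 (2 * c3.natAbs * Z ^ 2) : ℕ) : ℝ) + 1) := by rw [hB]; push_cast; ring
      _ ≤ B * (C2 * (KC * (Z : ℝ) ^ (σ / 2))) := by gcongr
      _ = B * (C2 * KC * (Z : ℝ) ^ (σ / 2)) := by ring
  have hcard := Finset.card_eq_sum_card_fiberwise hmaps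
  have hMle : (M.natAbs : ℝ) ≤ ((1 + D.natAbs : ℕ) : ℝ) * (Z : ℝ) ^ (2 : ℕ) := by
    have b1 : M.natAbs ≤ (1 + D.natAbs) * Z ^ 2 := by
      rw [← k1]
      refine (Int.natAbs_sub_le _ _).trans ?_
      rw [Int.natAbs_mul, Int.natAbs_pow, Int.natAbs_pow]
      have c1 : w0.1.natAbs ^ 2 ≤ Z ^ 2 := Nat.pow_le_pow_left k3 2
      have c2 : w0.2.natAbs ^ 2 ≤ Z ^ 2 := Nat.pow_le_pow_left k4 2
      have c3' : D.natAbs * w0.2.natAbs ^ 2 ≤ D.natAbs * Z ^ 2 := Nat.mul_le_mul_left _ c2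
      calc w0.1.natAbs ^ 2 + D.natAbs * w0.2.natAbs ^ 2 ≤ Z ^ 2 + D.natAbs * Z ^ 2 := by omega
        _ = (1 + D.natAbs) * Z ^ 2 := by ring
    exact_mod_cast b1
  have hdiv : ((M.natAbs.divisors.card : ℕ) : ℝ) ≤ C1 * (KD * (Z : ℝ) ^ (σ / 2)) := by
    refine (h1 _ hMn).trans ?_
    have b1 : (M.natAbs : ℝ) ^ (σ / 4) ≤ KD * (Z : ℝ) ^ (σ / 2) := by
      calc (M.natAbs : ℝ) ^ (σ / 4) ≤ (((1 + D.natAbs : ℕ) : ℝ) * (Z : ℝ) ^ (2 : ℕ)) ^ (σ / 4) :=
            Real.rpow_le_rpow (Nat.cast_nonneg _) hMle (by positivity)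
        _ = KD * (Z : ℝ) ^ (σ / 2) := by
            rw [Real.mul_rpow (by positivity) (by positivity), hKD]
            congr 1
            rw [← Real.rpow_natCast, ← Real.rpow_mul hZ0.le]
            congr 1
            push_cast; ring
    gcongr
  have hZσ : (Z : ℝ) ^ (σ / 2) * (Z : ℝ) ^ (σ / 2) = (Z : ℝ) ^ σ := by
    rw [← Real.rpow_add hZ0]; congr 1; ring
  calc (S.card : ℝ) = ∑ d ∈ M.natAbs.divisors, ((S.filter (fun w => e w = d)).card : ℝ) := by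
        rw [hcard]; push_cast; rfl
    _ ≤ ∑ _d ∈ M.natAbs.divisors, B * (C2 * KC * (Z : ℝ) ^ (σ / 2)) := Finset.sum_le_sum hfib
    _ = (M.natAbs.divisors.card : ℝ) * (B * (C2 * KC * (Z : ℝ) ^ (σ / 2))) := by
        rw [Finset.sum_const, nsmul_eq_mul]
    _ ≤ (C1 * (KD * (Z : ℝ) ^ (σ / 2))) * (B * (C2 * KC * (Z : ℝ) ^ (σ / 2))) := by gcongr
    _ = C1 * KD * B * C2 * KC * ((Z : ℝ) ^ (σ / 2) * (Z : ℝ) ^ (σ / 2)) := by ring
    _ = C1 * KD * B * C2 * KC * (Z : ℝ) ^ σ := by rw [hZσ]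

/-- few coprime pairs with a given absolute value of an irreducible binary quadratic form -/
theorem form_count (a b c : ℤ) (hD : ¬ IsSquare (b ^ 2 - 4 * a * c)) (σ : ℝ) (hσ : 0 < σ) :
    ∃ C : ℝ, 1 ≤ C ∧ ∀ (Z n : ℕ) (S : Finset (ℤ × ℤ)), 1 ≤ Z → n ≠ 0 →
    (∀ w ∈ S, IsCoprime w.1 w.2 ∧ (a * w.1 ^ 2 + b * w.1 * w.2 + c * w.2 ^ 2).natAbs = n ∧
      w.1.natAbs ≤ Z ∧ w.2.natAbs ≤ Z) →
    (S.card : ℝ) ≤ C * (Z : ℝ) ^ σ := by
  classical
  have ha : a ≠ 0 := by rintro rfl; exact hD ⟨b, by ring⟩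
  obtain ⟨C, hC, h⟩ := norm_count (b ^ 2 - 4 * a * c) (2 * a) hD (by positivity) σ hσ
  set K : ℕ := 2 * a.natAbs + b.natAbs with hK
  have hK1 : 1 ≤ K := by have := Int.natAbs_pos.mpr ha; omega
  refine ⟨2 * (C * (K : ℝ) ^ σ), ?_, ?_⟩
  · have h1 : (1 : ℝ) ≤ (K : ℝ) ^ σ := Real.one_le_rpow (by exact_mod_cast hK1) hσ.le
    nlinarith
  intro Z n S hZ hn hS
  have hKZ : 1 ≤ K * Z := Nat.mul_le_mul hK1 hZ
  have hone : ∀ M : ℤ, M ≠ 0 → ∀ T : Finset (ℤ × ℤ), T ⊆ S →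
      (∀ w ∈ T, a * w.1 ^ 2 + b * w.1 * w.2 + c * w.2 ^ 2 = M) →
      (T.card : ℝ) ≤ C * (K : ℝ) ^ σ * (Z : ℝ) ^ σ := by
    intro M hM T hTS hT
    set f : ℤ × ℤ → ℤ × ℤ := fun w => (2 * a * w.1 + b * w.2, w.2) with hf
    have hinj : Set.InjOn f T := by
      intro w _ w' _ hww
      simp only [hf, Prod.mk.injEq] at hww
      obtain ⟨e1, e2⟩ := hww
      rw [e2] at e1
      have e3 : 2 * a * w.1 = 2 * a * w'.1 := by linarith
      exact Prod.ext (mul_left_cancel₀ (by positivity) e3) e2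
    have h1 := h (K * Z) (4 * a * M) (T.image f) hKZ (by positivity) (by
      intro z hz
      obtain ⟨w, hw, rfl⟩ := Finset.mem_image.mp hz
      obtain ⟨p1, p2, p3, p4⟩ := hS w (hTS hw)
      refine ⟨?_, ?_, ?_, ?_⟩
      · simp only [hf]
        rw [← hT w hw]; ring
      · simp only [hf]
        have q1 : (Int.gcd (2 * a * w.1 + b * w.2) w.2 : ℤ) ∣ 2 * a * w.1 := by
          have r1 : (Int.gcd (2 * a * w.1 + b * w.2) w.2 : ℤ) ∣ 2 * a * w.1 + b * w.2 :=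
            Int.gcd_dvd_left _ _
          have r2 : (Int.gcd (2 * a * w.1 + b * w.2) w.2 : ℤ) ∣ b * w.2 :=
            (Int.gcd_dvd_right _ _).mul_left _
          have r3 := dvd_sub r1 r2
          rwa [add_sub_cancel_right] at r3
        have q2 : IsCoprime (Int.gcd (2 * a * w.1 + b * w.2) w.2 : ℤ) w.1 := by
          exact (p1.symm.of_isCoprime_of_dvd_left (Int.gcd_dvd_right _ _))
        exact q2.dvd_of_dvd_mul_right q1
      · simp only [hf]
        refine (Int.natAbs_add_le _ _).trans ?_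
        rw [Int.natAbs_mul, Int.natAbs_mul, Int.natAbs_mul, hK]
        have r1 : (2 : ℤ).natAbs * a.natAbs * w.1.natAbs ≤ 2 * a.natAbs * Z :=
          Nat.mul_le_mul_left _ p3
        have r2 : b.natAbs * w.2.natAbs ≤ b.natAbs * Z := Nat.mul_le_mul_left _ p4
        calc (2 : ℤ).natAbs * a.natAbs * w.1.natAbs + b.natAbs * w.2.natAbs
            ≤ 2 * a.natAbs * Z + b.natAbs * Z := Nat.add_le_add r1 r2
          _ = (2 * a.natAbs + b.natAbs) * Z := by ring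
      · simp only [hf]
        exact p4.trans (Nat.le_mul_of_pos_left _ hK1))
    rw [Finset.card_image_of_injOn hinj] at h1
    push_cast at h1
    rw [Real.mul_rpow (by positivity) (by positivity)] at h1
    linarith
  have hsplit : S ⊆ S.filter (fun w => a * w.1 ^ 2 + b * w.1 * w.2 + c * w.2 ^ 2 = (n : ℤ)) ∪
      S.filter (fun w => a * w.1 ^ 2 + b * w.1 * w.2 + c * w.2 ^ 2 = -(n : ℤ)) := by
    intro w hw
    obtain ⟨_, p2, _⟩ := hS w hw
    rw [Finset.mem_union, Finset.mem_filter, Finset.mem_filter]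
    rcases Int.natAbs_eq (a * w.1 ^ 2 + b * w.1 * w.2 + c * w.2 ^ 2) with h | h
    · left; rw [p2] at h; exact ⟨hw, h⟩
    · right; rw [p2] at h; exact ⟨hw, h⟩
  have hn' : (n : ℤ) ≠ 0 := by exact_mod_cast hn
  have h1 := hone n hn' _ (Finset.filter_subset _ S) (fun w hw => (Finset.mem_filter.mp hw).2)
  have h2 := hone (-(n : ℤ)) (neg_ne_zero.mpr hn') _ (Finset.filter_subset _ S)
    (fun w hw => (Finset.mem_filter.mp hw).2)
  have h3 := (Finset.card_le_card hsplit).trans (Finset.card_union_le _ _)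
  have h4 : (S.card : ℝ) ≤ ((S.filter (fun w => a * w.1 ^ 2 + b * w.1 * w.2 + c * w.2 ^ 2 =
      (n : ℤ))).card : ℝ) + ((S.filter (fun w => a * w.1 ^ 2 + b * w.1 * w.2 + c * w.2 ^ 2 =
      -(n : ℤ))).card : ℝ) := by exact_mod_cast h3
  linarith

/-- few coprime pairs at which an irreducible binary quadratic form has a small radical -/
theorem form_rad_count (a b c : ℤ) (hD : ¬ IsSquare (b ^ 2 - 4 * a * c)) (σ : ℝ) (hσ : 0 < σ) :
    ∃ C : ℝ, 1 ≤ C ∧ ∀ (Z : ℕ) (X : ℝ) (S : Finset (ℤ × ℤ)), 1 ≤ Z → 0 ≤ X →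
    (∀ w ∈ S, IsCoprime w.1 w.2 ∧ (rd (a * w.1 ^ 2 + b * w.1 * w.2 + c * w.2 ^ 2).natAbs : ℝ) ≤ X ∧
      w.1.natAbs ≤ Z ∧ w.2.natAbs ≤ Z) →
    (S.card : ℝ) ≤ C * (Z : ℝ) ^ σ * X := by
  classical
  have ha : a ≠ 0 := by rintro rfl; exact hD ⟨b, by ring⟩
  obtain ⟨C1, hC1, h1⟩ := form_count a b c hD (σ / 2) (by positivity)
  obtain ⟨C2, hC2, h2⟩ := card_rd_le (σ / 4) (by positivity)
  set K : ℕ := a.natAbs + b.natAbs + c.natAbs with hK
  have hK1 : 1 ≤ K := by have := Int.natAbs_pos.mpr ha; omega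
  refine ⟨C1 * (C2 * (K : ℝ) ^ (σ / 4)), ?_, ?_⟩
  · have h3 : (1 : ℝ) ≤ (K : ℝ) ^ (σ / 4) := Real.one_le_rpow (by exact_mod_cast hK1) (by positivity)
    have h4 : 1 ≤ C2 * (K : ℝ) ^ (σ / 4) := one_le_mul_of_one_le_of_one_le hC2 h3
    exact one_le_mul_of_one_le_of_one_le hC1 h4
  intro Z X S hZ hX hS
  have hZ0 : (0 : ℝ) < (Z : ℝ) := by exact_mod_cast hZ
  set q : ℤ × ℤ → ℤ := fun w => a * w.1 ^ 2 + b * w.1 * w.2 + c * w.2 ^ 2 with hq
  have hq0 : ∀ w ∈ S, q w ≠ 0 := by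
    intro w hw h
    obtain ⟨p1, _⟩ := hS w hw
    have e1 : (2 * a * w.1 + b * w.2) ^ 2 = (b ^ 2 - 4 * a * c) * w.2 ^ 2 := by
      linear_combination 4 * a * h
    have hw2 : w.2 ≠ 0 := by
      intro h0
      rw [h0] at e1
      have e2 : (2 * a * w.1) ^ 2 = 0 := by linear_combination e1
      have e3 : 2 * a * w.1 = 0 := by
        exact pow_eq_zero_iff (by norm_num) |>.mp e2
      have e4 : w.1 = 0 := by
        rcases mul_eq_zero.mp e3 with h5 | h5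
        · exfalso; exact (by positivity : (2 * a) ≠ 0) h5
        · exact h5
      rw [h0, e4] at p1
      exact not_isCoprime_zero_zero p1
    have e2 : w.2 ∣ 2 * a * w.1 + b * w.2 := by
      have : w.2 ^ 2 ∣ (2 * a * w.1 + b * w.2) ^ 2 := ⟨b ^ 2 - 4 * a * c, by rw [e1]; ring⟩
      exact (Int.pow_dvd_pow_iff (by norm_num)).mp this
    obtain ⟨r, hr⟩ := e2
    apply hD
    refine ⟨r, ?_⟩
    rw [hr] at e1
    have e3 : w.2 ^ 2 * (b ^ 2 - 4 * a * c) = w.2 ^ 2 * (r * r) := by linear_combination -e1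
    exact mul_left_cancel₀ (pow_ne_zero 2 hw2) e3
  have hKZ : 1 ≤ K * Z ^ 2 := Nat.mul_le_mul hK1 (Nat.one_le_pow _ _ hZ)
  have hmaps : ∀ w ∈ S, (q w).natAbs ∈ (Icc 1 (K * Z ^ 2)).filter (fun n => (rd n : ℝ) ≤ X) := by
    intro w hw
    obtain ⟨p1, p2, p3, p4⟩ := hS w hw
    rw [Finset.mem_filter, Finset.mem_Icc]
    refine ⟨⟨Int.natAbs_pos.mpr (hq0 w hw), ?_⟩, p2⟩
    have r1 : (a * w.1 ^ 2).natAbs ≤ a.natAbs * Z ^ 2 := by
      rw [Int.natAbs_mul, Int.natAbs_pow]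
      exact Nat.mul_le_mul_left _ (Nat.pow_le_pow_left p3 2)
    have r2 : (b * w.1 * w.2).natAbs ≤ b.natAbs * Z ^ 2 := by
      rw [Int.natAbs_mul, Int.natAbs_mul, mul_assoc, sq]
      exact Nat.mul_le_mul_left _ (Nat.mul_le_mul p3 p4)
    have r3 : (c * w.2 ^ 2).natAbs ≤ c.natAbs * Z ^ 2 := by
      rw [Int.natAbs_mul, Int.natAbs_pow]
      exact Nat.mul_le_mul_left _ (Nat.pow_le_pow_left p4 2)
    calc (q w).natAbs ≤ (a * w.1 ^ 2 + b * w.1 * w.2).natAbs + (c * w.2 ^ 2).natAbs :=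
          Int.natAbs_add_le _ _
      _ ≤ ((a * w.1 ^ 2).natAbs + (b * w.1 * w.2).natAbs) + (c * w.2 ^ 2).natAbs :=
          Nat.add_le_add_right (Int.natAbs_add_le _ _) _
      _ ≤ (a.natAbs * Z ^ 2 + b.natAbs * Z ^ 2) + c.natAbs * Z ^ 2 := by omega
      _ = K * Z ^ 2 := by rw [hK]; ring
  have hcard := Finset.card_eq_sum_card_fiberwise hmaps
  have hfib : ∀ n ∈ (Icc 1 (K * Z ^ 2)).filter (fun n => (rd n : ℝ) ≤ X),
      ((S.filter (fun w => (q w).natAbs = n)).card : ℝ) ≤ C1 * (Z : ℝ) ^ (σ / 2) := by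
    intro n hn
    rw [Finset.mem_filter, Finset.mem_Icc] at hn
    apply h1 Z n _ hZ (by omega)
    intro w hw
    rw [Finset.mem_filter] at hw
    obtain ⟨p1, p2, p3, p4⟩ := hS w hw.1
    exact ⟨p1, hw.2, p3, p4⟩
  have h3 := h2 (K * Z ^ 2) X hKZ hX
  have hpow : (((K * Z ^ 2 : ℕ) : ℝ)) ^ (σ / 4) = (K : ℝ) ^ (σ / 4) * (Z : ℝ) ^ (σ / 2) := by
    push_cast
    rw [Real.mul_rpow (by positivity) (by positivity)]
    congr 1
    rw [← Real.rpow_natCast, ← Real.rpow_mul hZ0.le]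
    congr 1
    push_cast; ring
  rw [hpow] at h3
  have hZσ : (Z : ℝ) ^ (σ / 2) * (Z : ℝ) ^ (σ / 2) = (Z : ℝ) ^ σ := by
    rw [← Real.rpow_add hZ0]; congr 1; ring
  calc (S.card : ℝ) = ∑ n ∈ (Icc 1 (K * Z ^ 2)).filter (fun n => (rd n : ℝ) ≤ X),
        ((S.filter (fun w => (q w).natAbs = n)).card : ℝ) := by
        rw [hcard]; push_cast; rfl
    _ ≤ ∑ _n ∈ (Icc 1 (K * Z ^ 2)).filter (fun n => (rd n : ℝ) ≤ X), C1 * (Z : ℝ) ^ (σ / 2) :=
        Finset.sum_le_sum hfib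
    _ = (((Icc 1 (K * Z ^ 2)).filter (fun n => (rd n : ℝ) ≤ X)).card : ℝ) *
        (C1 * (Z : ℝ) ^ (σ / 2)) := by rw [Finset.sum_const, nsmul_eq_mul]
    _ ≤ (C2 * ((K : ℝ) ^ (σ / 4) * (Z : ℝ) ^ (σ / 2)) * X) * (C1 * (Z : ℝ) ^ (σ / 2)) := by gcongr
    _ = C1 * (C2 * (K : ℝ) ^ (σ / 4)) * ((Z : ℝ) ^ (σ / 2) * (Z : ℝ) ^ (σ / 2)) * X := by ring
    _ = C1 * (C2 * (K : ℝ) ^ (σ / 4)) * (Z : ℝ) ^ σ * X := by rw [hZσ]

end Fm

end Pool.Agent.Lib.MP_d8bd92_nt
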