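import Pool.Agent.Lib.MP_d8bd92_nt.FmA
import Pool.Agent.Lib.MP_d8bd92_nt.CdJ

set_option autoImplicit false

/-!
Coprime pairs at which several linear and quadratic forms have small radicals: the core count.
-/

namespace Pool.Agent.Lib.MP_d8bd92_nt

open Finset Pool.Agent.Lib.Szpiro

namespace Fm

/-- a linear form -/
def lf (l w : ℤ × ℤ) : ℤ := l.1 * w.1 + l.2 * w.2

/-- a quadratic form -/
def qf (q : ℤ × ℤ × ℤ) (w : ℤ × ℤ) : ℤ := q.1 * w.1 ^ 2 + q.2.1 * w.1 * w.2 + q.2.2 * w.2 ^ 2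

/-- its discriminant -/
def qdisc (q : ℤ × ℤ × ℤ) : ℤ := q.2.1 ^ 2 - 4 * q.1 * q.2.2

/-- determinant of two linear forms -/
def dt (l l' : ℤ × ℤ) : ℤ := l.1 * l'.2 - l.2 * l'.1

/-- the product of the radicals of the values -/
def radp (Λ : Finset (ℤ × ℤ)) (Θ : Finset (ℤ × ℤ × ℤ)) (w : ℤ × ℤ) : ℕ :=
  (∏ l ∈ Λ, rd (lf l w).natAbs) * ∏ q ∈ Θ, rd (qf q w).natAbs

theorem sign_abs_ext {a b : ℤ} (h1 : a.sign = b.sign) (h2 : a.natAbs = b.natAbs) : a = b := by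
  rw [← Int.sign_mul_natAbs a, ← Int.sign_mul_natAbs b, h1, h2]

theorem sign_mem (a : ℤ) : a.sign ∈ Finset.Icc (-1 : ℤ) 1 := by
  rw [Finset.mem_Icc]
  rcases lt_trichotomy a 0 with h | h | h
  · rw [Int.sign_eq_neg_one_of_neg h]; norm_num
  · rw [h]; norm_num
  · rw [Int.sign_eq_one_of_pos h]; norm_num

theorem lf_pair_inj {l l' w w' : ℤ × ℤ} (hd : dt l l' ≠ 0) (h1 : lf l w = lf l w')
    (h2 : lf l' w = lf l' w') : w = w' := by
  unfold lf at h1 h2
  unfold dt at hd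
  have e1 : (l.1 * l'.2 - l.2 * l'.1) * w.1 = (l.1 * l'.2 - l.2 * l'.1) * w'.1 := by
    linear_combination l'.2 * h1 - l.2 * h2
  have e2 : (l.1 * l'.2 - l.2 * l'.1) * w.2 = (l.1 * l'.2 - l.2 * l'.1) * w'.2 := by
    linear_combination l.1 * h2 - l'.1 * h1
  exact Prod.ext (mul_left_cancel₀ hd e1) (mul_left_cancel₀ hd e2)

theorem lf_natAbs_le (l w : ℤ × ℤ) (Z : ℕ) (h1 : w.1.natAbs ≤ Z) (h2 : w.2.natAbs ≤ Z) :
    (lf l w).natAbs ≤ (l.1.natAbs + l.2.natAbs) * Z := by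
  unfold lf
  refine (Int.natAbs_add_le _ _).trans ?_
  rw [Int.natAbs_mul, Int.natAbs_mul, add_mul]
  exact Nat.add_le_add (Nat.mul_le_mul_left _ h1) (Nat.mul_le_mul_left _ h2)

/-- pairs at which two independent linear forms have radicals with small product -/
theorem pair_count (l l' : ℤ × ℤ) (hd : dt l l' ≠ 0) (σ : ℝ) (hσ : 0 < σ) :
    ∃ C : ℝ, 1 ≤ C ∧ ∀ (Z : ℕ) (X : ℝ) (S : Finset (ℤ × ℤ)), 1 ≤ Z → 0 ≤ X →
    (∀ w ∈ S, lf l w ≠ 0 ∧ lf l' w ≠ 0 ∧
      (rd (lf l w).natAbs : ℝ) * rd (lf l' w).natAbs ≤ X ∧ w.1.natAbs ≤ Z ∧ w.2.natAbs ≤ Z) →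
    (S.card : ℝ) ≤ C * (Z : ℝ) ^ σ * X := by
  classical
  obtain ⟨C, hC, h⟩ := card_pair_rd_le σ hσ
  set K : ℕ := l.1.natAbs + l.2.natAbs + l'.1.natAbs + l'.2.natAbs with hK
  have hK1 : 1 ≤ K := by
    by_contra hcon
    have h1 : l.1 = 0 := by
      apply Int.natAbs_eq_zero.mp; omega
    have h2 : l.2 = 0 := by
      apply Int.natAbs_eq_zero.mp; omega
    apply hd
    unfold dt
    rw [h1, h2]; ring
  refine ⟨9 * (C * (K : ℝ) ^ σ), ?_, ?_⟩
  · have h1 : (1 : ℝ) ≤ (K : ℝ) ^ σ := Real.one_le_rpow (by exact_mod_cast hK1) hσ.le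
    have h2 := one_le_mul_of_one_le_of_one_le hC h1
    linarith
  intro Z X S hZ hX hS
  set f : ℤ × ℤ → (ℤ × ℤ) × (ℕ × ℕ) := fun w =>
    (((lf l w).sign, (lf l' w).sign), ((lf l w).natAbs, (lf l' w).natAbs)) with hf
  have hmaps : ∀ w ∈ S, f w ∈ (Finset.Icc (-1 : ℤ) 1 ×ˢ Finset.Icc (-1 : ℤ) 1) ×ˢ
      ((Icc 1 (K * Z) ×ˢ Icc 1 (K * Z)).filter (fun q : ℕ × ℕ => (rd q.1 : ℝ) * rd q.2 ≤ X)) := by
    intro w hw
    obtain ⟨h1, h2, h3, h4, h5⟩ := hS w hw
    simp only [hf, Finset.mem_product, Finset.mem_filter, Finset.mem_Icc]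
    refine ⟨⟨Finset.mem_Icc.mp (sign_mem _), Finset.mem_Icc.mp (sign_mem _)⟩, ⟨⟨?_, ?_⟩, ?_, ?_⟩, h3⟩
    · exact Int.natAbs_pos.mpr h1
    · refine (lf_natAbs_le l w Z h4 h5).trans (Nat.mul_le_mul_right _ ?_)
      omega
    · exact Int.natAbs_pos.mpr h2
    · refine (lf_natAbs_le l' w Z h4 h5).trans (Nat.mul_le_mul_right _ ?_)
      omega
  have hinj : Set.InjOn f S := by
    intro w _ w' _ hww
    simp only [hf, Prod.mk.injEq] at hww
    obtain ⟨⟨g1, g2⟩, g3, g4⟩ := hww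
    exact lf_pair_inj hd (sign_abs_ext g1 g3) (sign_abs_ext g2 g4)
  have h1 := Finset.card_le_card_of_injOn f hmaps hinj
  rw [Finset.card_product, Finset.card_product, Int.card_Icc] at h1
  have h2 : ((1 : ℤ) + 1 - -1).toNat = 3 := by decide
  rw [h2] at h1
  have h3 := h (K * Z) X (Nat.mul_le_mul hK1 hZ) hX
  push_cast at h3
  rw [Real.mul_rpow (by positivity) (by positivity)] at h3
  have h4 : (S.card : ℝ) ≤ 9 * (((Icc 1 (K * Z) ×ˢ Icc 1 (K * Z)).filter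
      (fun q : ℕ × ℕ => (rd q.1 : ℝ) * rd q.2 ≤ X)).card : ℝ) := by exact_mod_cast h1
  linarith

/-- parallel coprime vectors are equal up to sign -/
theorem parallel {w w' : ℤ × ℤ} (h : IsCoprime w.1 w.2) (h' : IsCoprime w'.1 w'.2)
    (hp : w.1 * w'.2 = w.2 * w'.1) : w' = w ∨ w' = -w := by
  obtain ⟨α, β, hαβ⟩ := h
  set k : ℤ := α * w'.1 + β * w'.2 with hk
  have e1 : w'.1 = w.1 * k := by
    rw [hk]; linear_combination (-w'.1) * hαβ - β * hp
  have e2 : w'.2 = w.2 * k := by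
    rw [hk]; linear_combination (-w'.2) * hαβ + α * hp
  have hu : IsUnit k := h'.isUnit_of_dvd' ⟨w.1, by rw [e1]; ring⟩ ⟨w.2, by rw [e2]; ring⟩
  rcases Int.isUnit_iff.mp hu with h1 | h1
  · left
    exact Prod.ext (by rw [e1, h1, mul_one]) (by rw [e2, h1, mul_one])
  · right
    refine Prod.ext ?_ ?_
    · rw [e1, h1, Prod.fst_neg]; ring
    · rw [e2, h1, Prod.snd_neg]; ring

theorem rd_mul_le3 (a b c : ℕ) (ha : a ≠ 0) (hb : b ≠ 0) (hc : c ≠ 0) :
    rd (a * b * c) ≤ rd a * rd b * rd c :=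
  (rd_mul_le _ _ (mul_ne_zero ha hb) hc).trans (Nat.mul_le_mul_right _ (rd_mul_le _ _ ha hb))

/-- one sign pattern of the triple lemma -/
theorem triple_one (a b c : ℤ × ℤ) (hab : dt a b ≠ 0) (hbc : dt b c ≠ 0) (hca : dt c a ≠ 0)
    (κ ε : ℝ) (hκ : 1 ≤ κ) (hε : 0 < ε) :
    ∃ C δ : ℝ, 1 ≤ C ∧ 0 < δ ∧ δ ≤ 1 / 8 ∧ ∀ (Y : ℝ) (S : Finset (ℤ × ℤ)), 1 ≤ Y →
    (∀ w ∈ S, IsCoprime w.1 w.2 ∧ lf a w ≠ 0 ∧ lf b w ≠ 0 ∧ lf c w ≠ 0 ∧
      0 < dt b c * lf a w ∧ 0 < dt c a * lf b w ∧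
      |(w.1 : ℝ)| ≤ Y ^ κ ∧ |(w.2 : ℝ)| ≤ Y ^ κ ∧
      (rd (lf a w).natAbs : ℝ) * rd (lf b w).natAbs * rd (lf c w).natAbs ≤ Y ∧
      C * ((rd (lf a w).natAbs : ℝ) * rd (lf b w).natAbs * rd (lf c w).natAbs) ^ (1 / 3 + ε) <
        max |(w.1 : ℝ)| |(w.2 : ℝ)|) →
    (S.card : ℝ) ≤ C * Y ^ (2 / 3 - δ) := by
  classical
  obtain ⟨C0, δ, hC0, hδ, hδ8, habc⟩ := abc_by_radical (κ + 1) ε (by linarith) hε
  set M0 : ℕ := (dt a b * dt b c * dt c a).natAbs with hM0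
  have hM01 : 1 ≤ M0 := Int.natAbs_pos.mpr (mul_ne_zero (mul_ne_zero hab hbc) hca)
  have hM0R : (1 : ℝ) ≤ (M0 : ℝ) := by exact_mod_cast hM01
  set K : ℕ := M0 + 2 * M0 * (a.1.natAbs + a.2.natAbs + b.1.natAbs + b.2.natAbs + c.1.natAbs + c.2.natAbs)
    with hK
  have hKM : M0 ≤ K := by rw [hK]; exact Nat.le_add_right _ _
  have hK1 : 1 ≤ K := hM01.trans hKM
  have hKR : (1 : ℝ) ≤ (K : ℝ) := by exact_mod_cast hK1
  have hKpow : (1 : ℝ) ≤ (K : ℝ) ^ (2 / 3 - δ) := Real.one_le_rpow hKR (by linarith)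
  have hKpow2 : (1 : ℝ) ≤ (K : ℝ) ^ (1 / 3 + ε) := Real.one_le_rpow hKR (by linarith)
  set C : ℝ := C0 * (K : ℝ) ^ (2 / 3 - δ) + (K : ℝ) ^ (1 / 3 + ε) * (K * M0) with hC
  have hCa : C0 * (K : ℝ) ^ (2 / 3 - δ) ≤ C := by
    rw [hC]
    have : 0 ≤ (K : ℝ) ^ (1 / 3 + ε) * (K * M0) := by positivity
    linarith
  have hCb : (K : ℝ) ^ (1 / 3 + ε) * (K * M0) ≤ C := by
    rw [hC]
    have : 0 ≤ C0 * (K : ℝ) ^ (2 / 3 - δ) := by positivity
    linarith
  have hC1 : 1 ≤ C := (one_le_mul_of_one_le_of_one_le hC0 hKpow).trans hCa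
  refine ⟨C, δ, hC1, hδ, hδ8, ?_⟩
  intro Y S hY hS
  have hY0 : 0 < Y := by linarith
  set A : ℤ × ℤ → ℤ := fun w => dt b c * lf a w with hA
  set B : ℤ × ℤ → ℤ := fun w => dt c a * lf b w with hB
  set D : ℤ × ℤ → ℤ := fun w => dt a b * lf c w with hD
  have hsum : ∀ w, A w + B w + D w = 0 := by
    intro w
    simp only [hA, hB, hD, dt, lf]; ring
  set g : ℤ × ℤ → ℕ := fun w => Int.gcd (A w) (B w) with hg
  set f : ℤ × ℤ → ℕ × ℕ := fun w => ((A w / g w).natAbs, (B w / g w).natAbs) with hf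
  have hprop : ∀ w ∈ S, 0 < g w ∧ A w = g w * (f w).1 ∧ B w = g w * (f w).2 ∧ 0 < (f w).1 ∧
      0 < (f w).2 ∧ Nat.Coprime (f w).1 (f w).2 ∧ g w ∣ M0 := by
    intro w hw
    obtain ⟨p1, p2, p3, p4, p5, p6, _⟩ := hS w hw
    have hAp : 0 < A w := p5
    have hBp : 0 < B w := p6
    have hg0 : 0 < g w := Int.gcd_pos_of_ne_zero_left _ hAp.ne'
    have hgZ : (0 : ℤ) < (g w : ℤ) := by exact_mod_cast hg0
    have d1 : (g w : ℤ) ∣ A w := Int.gcd_dvd_left _ _
    have d2 : (g w : ℤ) ∣ B w := Int.gcd_dvd_right _ _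
    have e1 : 0 < A w / g w := Int.ediv_pos_of_pos_of_dvd hAp hgZ.le d1
    have e2 : 0 < B w / g w := Int.ediv_pos_of_pos_of_dvd hBp hgZ.le d2
    have f1 : (((f w).1 : ℕ) : ℤ) = A w / g w := Int.natAbs_of_nonneg e1.le
    have f2 : (((f w).2 : ℕ) : ℤ) = B w / g w := Int.natAbs_of_nonneg e2.le
    refine ⟨hg0, ?_, ?_, Int.natAbs_pos.mpr e1.ne', Int.natAbs_pos.mpr e2.ne', ?_, ?_⟩
    · rw [f1]; exact (Int.mul_ediv_cancel' d1).symm
    · rw [f2]; exact (Int.mul_ediv_cancel' d2).symm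
    · exact Int.gcd_ediv_gcd_ediv_gcd hg0
    · -- the common divisor divides `M0`
      obtain ⟨α, β, hαβ⟩ := p1
      have h1 : (g w : ℤ) ∣ dt a b * dt b c * dt c a := by
        have h2 : dt a b * dt b c * dt c a =
            (α * (b.2 * dt c a) - β * (b.1 * dt c a)) * A w +
            (β * (a.1 * dt b c) - α * (a.2 * dt b c)) * B w := by
          have h3 : dt a b * dt b c * dt c a = dt a b * dt b c * dt c a * (α * w.1 + β * w.2) := by
            rw [hαβ, mul_one]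
          rw [h3]
          simp only [hA, hB, lf]
          have h4 : dt a b = a.1 * b.2 - a.2 * b.1 := rfl
          rw [h4]; ring
        rw [h2]
        exact dvd_add (d1.mul_left _) (d2.mul_left _)
      have h2 := Int.natAbs_dvd_natAbs.mpr h1
      rwa [Int.natAbs_natCast] at h2
  have hinj : Set.InjOn f S := by
    intro w hw w' hw' hww
    obtain ⟨p1, p2, p3, p4, p5, p6, _⟩ := hS w hw
    obtain ⟨q1, q2, q3, q4, q5, q6, _⟩ := hS w' hw'
    obtain ⟨g1, g2, g3, g4, g5, _⟩ := hprop w hw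
    obtain ⟨g1', g2', g3', g4', g5', _⟩ := hprop w' hw'
    have e1 : A w * B w' = A w' * B w := by
      rw [g2, g3, g2', g3', hww]; ring
    have e2 : (dt b c * dt c a * dt a b) * (w.1 * w'.2) = (dt b c * dt c a * dt a b) * (w.2 * w'.1) := by
      simp only [hA, hB, lf] at e1
      have h4 : dt a b = a.1 * b.2 - a.2 * b.1 := rfl
      rw [h4]
      linear_combination e1
    have e3 := mul_left_cancel₀ (mul_ne_zero (mul_ne_zero hbc hca) hab) e2
    rcases parallel p1 q1 e3 with h | h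
    · exact h.symm
    · exfalso
      rw [h] at q5
      have : dt b c * lf a (-w) = -(dt b c * lf a w) := by
        simp only [lf, Prod.fst_neg, Prod.snd_neg]; ring
      rw [this] at q5
      linarith
  have hbound := habc (K * Y) (S.image f) (by
      calc (1 : ℝ) = 1 * 1 := by ring
        _ ≤ K * Y := mul_le_mul hKR hY zero_le_one (by positivity)) (by
    intro q hq
    obtain ⟨w, hw, rfl⟩ := Finset.mem_image.mp hq
    obtain ⟨g1, g2, g3, g4, g5, g6, g7⟩ := hprop w hw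
    obtain ⟨p1, p2, p3, p4, p5, p6, p7, p8, p9, p10⟩ := hS w hw
    have hgM : g w ≤ M0 := Nat.le_of_dvd hM01 g7
    have hDw : D w = -(g w * ((f w).1 + (f w).2 : ℕ)) := by
      have := hsum w
      push_cast
      rw [g2, g3] at this
      linarith
    -- radical
    have hrd : rd ((f w).1 * (f w).2 * ((f w).1 + (f w).2)) ≤
        M0 * (rd (lf a w).natAbs * rd (lf b w).natAbs * rd (lf c w).natAbs) := by
      have n1 : (lf a w).natAbs ≠ 0 := Int.natAbs_ne_zero.mpr p2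
      have n2 : (lf b w).natAbs ≠ 0 := Int.natAbs_ne_zero.mpr p3
      have n3 : (lf c w).natAbs ≠ 0 := Int.natAbs_ne_zero.mpr p4
      have n4 : M0 * ((lf a w).natAbs * (lf b w).natAbs * (lf c w).natAbs) ≠ 0 :=
        mul_ne_zero (by omega) (mul_ne_zero (mul_ne_zero n1 n2) n3)
      have r1 : rd ((f w).1 * (f w).2 * ((f w).1 + (f w).2)) ≤
          rd (M0 * ((lf a w).natAbs * (lf b w).natAbs * (lf c w).natAbs)) := by
        apply rd_mono' n4
        intro p hp hpd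
        have cA : ∀ x : ℤ, ∀ y : ℕ, x = g w * y → p ∣ y → p ∣ x.natAbs := by
          intro x y hxy hpy
          rw [hxy, Int.natAbs_mul, Int.natAbs_natCast, Int.natAbs_natCast]
          exact hpy.mul_left _
        rw [Nat.Prime.dvd_mul hp, Nat.Prime.dvd_mul hp] at hpd
        have hfin : ∀ (m : ℤ) (x : ℤ), m.natAbs ∣ M0 → p ∣ (m * x).natAbs →
            p ∣ M0 ∨ p ∣ x.natAbs := by
          intro m x hm hpx
          rw [Int.natAbs_mul, Nat.Prime.dvd_mul hp] at hpx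
          rcases hpx with h | h
          · left; exact h.trans hm
          · right; exact h
        have m1 : (dt b c).natAbs ∣ M0 := by
          rw [hM0]; apply Int.natAbs_dvd_natAbs.mpr; exact ⟨dt a b * dt c a, by ring⟩
        have m2 : (dt c a).natAbs ∣ M0 := by
          rw [hM0]; apply Int.natAbs_dvd_natAbs.mpr; exact ⟨dt a b * dt b c, by ring⟩
        have m3 : (dt a b).natAbs ∣ M0 := by
          rw [hM0]; apply Int.natAbs_dvd_natAbs.mpr; exact ⟨dt b c * dt c a, by ring⟩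
        rw [Nat.Prime.dvd_mul hp, Nat.Prime.dvd_mul hp, Nat.Prime.dvd_mul hp]
        rcases hpd with (h | h) | h
        · rcases hfin _ _ m1 (cA _ _ g2 h) with h' | h'
          · exact Or.inl h'
          · exact Or.inr (Or.inl (Or.inl h'))
        · rcases hfin _ _ m2 (cA _ _ g3 h) with h' | h'
          · exact Or.inl h'
          · exact Or.inr (Or.inl (Or.inr h'))
        · have h2 : p ∣ (D w).natAbs := by
            rw [hDw, Int.natAbs_neg]
            exact cA _ _ rfl h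
          rcases hfin _ _ m3 h2 with h' | h'
          · exact Or.inl h'
          · exact Or.inr (Or.inr h')
      calc rd ((f w).1 * (f w).2 * ((f w).1 + (f w).2))
          ≤ rd (M0 * ((lf a w).natAbs * (lf b w).natAbs * (lf c w).natAbs)) := r1
        _ ≤ rd M0 * rd ((lf a w).natAbs * (lf b w).natAbs * (lf c w).natAbs) :=
            rd_mul_le _ _ (by omega) (mul_ne_zero (mul_ne_zero n1 n2) n3)
        _ ≤ M0 * (rd (lf a w).natAbs * rd (lf b w).natAbs * rd (lf c w).natAbs) :=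
            Nat.mul_le_mul (rd_le (by omega)) (rd_mul_le3 _ _ _ n1 n2 n3)
    set R : ℝ := (rd (lf a w).natAbs : ℝ) * rd (lf b w).natAbs * rd (lf c w).natAbs with hR
    have hRpos : 0 < R := by
      have r1 : (0 : ℝ) < rd (lf a w).natAbs := by exact_mod_cast rd_pos _
      have r2 : (0 : ℝ) < rd (lf b w).natAbs := by exact_mod_cast rd_pos _
      have r3 : (0 : ℝ) < rd (lf c w).natAbs := by exact_mod_cast rd_pos _
      positivity
    have hrdR : (rd ((f w).1 * (f w).2 * ((f w).1 + (f w).2)) : ℝ) ≤ K * R := by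
      have r1 : (rd ((f w).1 * (f w).2 * ((f w).1 + (f w).2)) : ℝ) ≤ M0 * R := by
        rw [hR]; exact_mod_cast hrd
      have r2 : (M0 : ℝ) ≤ K := by exact_mod_cast hKM
      exact r1.trans (mul_le_mul_of_nonneg_right r2 hRpos.le)
    -- sizes
    have hup : (((f w).1 + (f w).2 : ℕ) : ℝ) ≤ (K * Y) ^ (κ + 1) := by
      have u1 : (((f w).1 + (f w).2 : ℕ) : ℝ) ≤ |((D w : ℤ) : ℝ)| := by
        rw [hDw]
        push_cast
        rw [abs_neg, abs_of_nonneg (by positivity)]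
        have : (1 : ℝ) ≤ (g w : ℝ) := by exact_mod_cast g1
        have h0 : (0 : ℝ) ≤ ((f w).1 : ℝ) + (f w).2 := by positivity
        nlinarith
      have u2 : |((D w : ℤ) : ℝ)| ≤ K * Y ^ κ := by
        have v1 : |((D w : ℤ) : ℝ)| ≤ |(dt a b : ℝ)| * (|(c.1 : ℝ)| * |(w.1 : ℝ)| + |(c.2 : ℝ)| * |(w.2 : ℝ)|) := by
          simp only [hD, lf]
          push_cast
          rw [abs_mul]
          apply mul_le_mul_of_nonneg_left _ (abs_nonneg _)
          refine (abs_add_le _ _).trans ?_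
          rw [abs_mul, abs_mul]
        have v2 : |(dt a b : ℝ)| ≤ (M0 : ℝ) := by
          have m3 : (dt a b).natAbs ∣ M0 := by
            rw [hM0]; apply Int.natAbs_dvd_natAbs.mpr; exact ⟨dt b c * dt c a, by ring⟩
          have h5 := Nat.le_of_dvd hM01 m3
          have h6 : |(dt a b : ℝ)| = ((dt a b).natAbs : ℝ) := by rw [Nat.cast_natAbs]; push_cast; rfl
          rw [h6]
          exact_mod_cast h5
        have v3 : |(c.1 : ℝ)| * |(w.1 : ℝ)| + |(c.2 : ℝ)| * |(w.2 : ℝ)| ≤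
            (|(c.1 : ℝ)| + |(c.2 : ℝ)|) * Y ^ κ := by
          have := mul_le_mul_of_nonneg_left p7 (abs_nonneg (c.1 : ℝ))
          have := mul_le_mul_of_nonneg_left p8 (abs_nonneg (c.2 : ℝ))
          linarith
        have v4 : (M0 : ℝ) * (|(c.1 : ℝ)| + |(c.2 : ℝ)|) ≤ K := by
          have c1 : |(c.1 : ℝ)| = (c.1.natAbs : ℝ) := by rw [Nat.cast_natAbs]; push_cast; rfl
          have c2 : |(c.2 : ℝ)| = (c.2.natAbs : ℝ) := by rw [Nat.cast_natAbs]; push_cast; rfl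
          rw [c1, c2]
          have c3 : M0 * (c.1.natAbs + c.2.natAbs) ≤ K := by
            rw [hK]
            refine le_trans ?_ (Nat.le_add_left _ _)
            exact Nat.mul_le_mul (by omega) (by omega)
          exact_mod_cast c3
        have hYκ : 0 ≤ Y ^ κ := by positivity
        calc |((D w : ℤ) : ℝ)| ≤ |(dt a b : ℝ)| * (|(c.1 : ℝ)| * |(w.1 : ℝ)| + |(c.2 : ℝ)| * |(w.2 : ℝ)|) := v1
          _ ≤ (M0 : ℝ) * ((|(c.1 : ℝ)| + |(c.2 : ℝ)|) * Y ^ κ) := by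
              apply mul_le_mul v2 v3 (by positivity) (by positivity)
          _ = (M0 : ℝ) * (|(c.1 : ℝ)| + |(c.2 : ℝ)|) * Y ^ κ := by ring
          _ ≤ K * Y ^ κ := mul_le_mul_of_nonneg_right v4 hYκ
      have u3 : K * Y ^ κ ≤ (K * Y) ^ (κ + 1) := by
        rw [Real.mul_rpow (by positivity) hY0.le]
        have w1 : (K : ℝ) ≤ (K : ℝ) ^ (κ + 1) := by
          calc (K : ℝ) = (K : ℝ) ^ (1 : ℝ) := (Real.rpow_one _).symm
            _ ≤ _ := Real.rpow_le_rpow_of_exponent_le hKR (by linarith)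
        have w2 : Y ^ κ ≤ Y ^ (κ + 1) := Real.rpow_le_rpow_of_exponent_le hY (by linarith)
        exact mul_le_mul w1 w2 (by positivity) (by positivity)
      exact u1.trans (u2.trans u3)
    have hlow : max |(w.1 : ℝ)| |(w.2 : ℝ)| ≤ (K * M0) * (((f w).1 + (f w).2 : ℕ) : ℝ) := by
      -- `dt a b * w.1 = b.2 lf a w - a.2 lf b w`
      have habs : ∀ x : ℤ, |(x : ℝ)| = (x.natAbs : ℝ) := by
        intro x; rw [Nat.cast_natAbs]; push_cast; rfl
      have v0 : ∀ (x y : ℤ) (m : ℤ) (n : ℕ), m ≠ 0 → m * x = g w * n → |(x : ℝ)| ≤ g w * n := by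
        intro x y m n hm hx
        have e1 : m.natAbs * x.natAbs = g w * n := by
          rw [← Int.natAbs_mul, hx, Int.natAbs_mul, Int.natAbs_natCast, Int.natAbs_natCast]
        have e2 : x.natAbs ≤ m.natAbs * x.natAbs :=
          Nat.le_mul_of_pos_left _ (Int.natAbs_pos.mpr hm)
        rw [e1] at e2
        rw [habs]; exact_mod_cast e2
      have la : |(lf a w : ℝ)| ≤ g w * (f w).1 := v0 _ 0 _ _ hbc g2
      have lb : |(lf b w : ℝ)| ≤ g w * (f w).2 := v0 _ 0 _ _ hca g3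
      have hgM' : (g w : ℝ) ≤ M0 := by exact_mod_cast hgM
      have hone : (1 : ℝ) ≤ |(dt a b : ℝ)| := by
        rw [habs]; exact_mod_cast Int.natAbs_pos.mpr hab
      have v1 : |(w.1 : ℝ)| ≤ |(b.2 : ℝ)| * |(lf a w : ℝ)| + |(a.2 : ℝ)| * |(lf b w : ℝ)| := by
        have e1 : (dt a b : ℝ) * (w.1 : ℝ) = b.2 * (lf a w : ℝ) - a.2 * (lf b w : ℝ) := by
          simp only [dt, lf]; push_cast; ring
        have e2 : |(w.1 : ℝ)| ≤ |(dt a b : ℝ)| * |(w.1 : ℝ)| := by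
          nlinarith [abs_nonneg (w.1 : ℝ)]
        rw [← abs_mul, e1] at e2
        refine e2.trans ((abs_sub _ _).trans ?_)
        rw [abs_mul, abs_mul]
      have v2 : |(w.2 : ℝ)| ≤ |(b.1 : ℝ)| * |(lf a w : ℝ)| + |(a.1 : ℝ)| * |(lf b w : ℝ)| := by
        have e1 : (dt a b : ℝ) * (w.2 : ℝ) = a.1 * (lf b w : ℝ) - b.1 * (lf a w : ℝ) := by
          simp only [dt, lf]; push_cast; ring
        have e2 : |(w.2 : ℝ)| ≤ |(dt a b : ℝ)| * |(w.2 : ℝ)| := by
          nlinarith [abs_nonneg (w.2 : ℝ)]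
        rw [← abs_mul, e1] at e2
        refine e2.trans ((abs_sub _ _).trans ?_)
        rw [abs_mul, abs_mul]
        linarith
      set F : ℝ := (((f w).1 + (f w).2 : ℕ) : ℝ) with hF
      have f1 : ((f w).1 : ℝ) ≤ F := by rw [hF]; push_cast; linarith [Nat.cast_nonneg (α := ℝ) (f w).2]
      have f2 : ((f w).2 : ℝ) ≤ F := by rw [hF]; push_cast; linarith [Nat.cast_nonneg (α := ℝ) (f w).1]
      have hF0 : 0 ≤ F := by rw [hF]; positivity
      have la' : |(lf a w : ℝ)| ≤ M0 * F := la.trans (by gcongr)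
      have lb' : |(lf b w : ℝ)| ≤ M0 * F := lb.trans (by gcongr)
      have kk : ∀ x y : ℤ, x.natAbs + y.natAbs ≤ a.1.natAbs + a.2.natAbs + b.1.natAbs + b.2.natAbs + c.1.natAbs + c.2.natAbs →
          |(x : ℝ)| + |(y : ℝ)| ≤ K := by
        intro x y hxy
        rw [habs, habs]
        have : x.natAbs + y.natAbs ≤ K := by rw [hK]; nlinarith
        exact_mod_cast this
      apply max_le
      · calc |(w.1 : ℝ)| ≤ |(b.2 : ℝ)| * |(lf a w : ℝ)| + |(a.2 : ℝ)| * |(lf b w : ℝ)| := v1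
          _ ≤ |(b.2 : ℝ)| * (M0 * F) + |(a.2 : ℝ)| * (M0 * F) := by gcongr
          _ = (|(b.2 : ℝ)| + |(a.2 : ℝ)|) * (M0 * F) := by ring
          _ ≤ K * (M0 * F) := by
              apply mul_le_mul_of_nonneg_right _ (by positivity)
              exact kk _ _ (by omega)
          _ = (K * M0) * F := by ring
      · calc |(w.2 : ℝ)| ≤ |(b.1 : ℝ)| * |(lf a w : ℝ)| + |(a.1 : ℝ)| * |(lf b w : ℝ)| := v2
          _ ≤ |(b.1 : ℝ)| * (M0 * F) + |(a.1 : ℝ)| * (M0 * F) := by gcongr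
          _ = (|(b.1 : ℝ)| + |(a.1 : ℝ)|) * (M0 * F) := by ring
          _ ≤ K * (M0 * F) := by
              apply mul_le_mul_of_nonneg_right _ (by positivity)
              exact kk _ _ (by omega)
          _ = (K * M0) * F := by ring
    refine ⟨g4, g5, g6, hup, ?_, ?_⟩
    · exact hrdR.trans (mul_le_mul_of_nonneg_left p9 (by positivity))
    · have s1 : (rd ((f w).1 * (f w).2 * ((f w).1 + (f w).2)) : ℝ) ^ (1 / 3 + ε) ≤
          (K : ℝ) ^ (1 / 3 + ε) * R ^ (1 / 3 + ε) := by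
        rw [← Real.mul_rpow (by positivity) hRpos.le]
        exact Real.rpow_le_rpow (Nat.cast_nonneg _) hrdR (by linarith)
      have hKM0 : (0 : ℝ) < K * M0 := by positivity
      have s2 : (K * M0 : ℝ) * ((K : ℝ) ^ (1 / 3 + ε) * R ^ (1 / 3 + ε)) <
          (K * M0) * (((f w).1 + (f w).2 : ℕ) : ℝ) := by
        calc (K * M0 : ℝ) * ((K : ℝ) ^ (1 / 3 + ε) * R ^ (1 / 3 + ε))
            = ((K : ℝ) ^ (1 / 3 + ε) * (K * M0)) * R ^ (1 / 3 + ε) := by ring
          _ ≤ C * R ^ (1 / 3 + ε) := by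
              apply mul_le_mul_of_nonneg_right hCb (by positivity)
          _ < max |(w.1 : ℝ)| |(w.2 : ℝ)| := p10
          _ ≤ _ := hlow
      exact s1.trans_lt (lt_of_mul_lt_mul_left s2 hKM0.le))
  rw [Finset.card_image_of_injOn hinj] at hbound
  refine hbound.trans ?_
  rw [Real.mul_rpow (by positivity) hY0.le, ← mul_assoc]
  exact mul_le_mul_of_nonneg_right hCa (by positivity)

end Fm

end Pool.Agent.Lib.MP_d8bd92_nt
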