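import Pool.Agent.Lib.MP_d8bd92_nt.FmB

set_option autoImplicit false

/-!
The core count: linear and quadratic forms at coprime pairs, by the product of the radicals.
-/

namespace Pool.Agent.Lib.MP_d8bd92_nt

open Finset Pool.Agent.Lib.Szpiro

namespace Fm

theorem dt_swap (a b : ℤ × ℤ) : dt b a = - dt a b := by unfold dt; ring

/-- three pairwise independent linear forms -/
theorem triple (a b c : ℤ × ℤ) (hab : dt a b ≠ 0) (hbc : dt b c ≠ 0) (hca : dt c a ≠ 0)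
    (κ ε : ℝ) (hκ : 1 ≤ κ) (hε : 0 < ε) :
    ∃ C δ : ℝ, 1 ≤ C ∧ 0 < δ ∧ δ ≤ 1 / 8 ∧ ∀ (Y : ℝ) (S : Finset (ℤ × ℤ)), 1 ≤ Y →
    (∀ w ∈ S, IsCoprime w.1 w.2 ∧ lf a w ≠ 0 ∧ lf b w ≠ 0 ∧ lf c w ≠ 0 ∧
      |(w.1 : ℝ)| ≤ Y ^ κ ∧ |(w.2 : ℝ)| ≤ Y ^ κ ∧
      (rd (lf a w).natAbs : ℝ) * rd (lf b w).natAbs * rd (lf c w).natAbs ≤ Y ∧
      C * ((rd (lf a w).natAbs : ℝ) * rd (lf b w).natAbs * rd (lf c w).natAbs) ^ (1 / 3 + ε) <
        max |(w.1 : ℝ)| |(w.2 : ℝ)|) →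
    (S.card : ℝ) ≤ C * Y ^ (2 / 3 - δ) := by
  classical
  obtain ⟨C1, δ1, hC1, hδ1, hδ18, h1⟩ := triple_one a b c hab hbc hca κ ε hκ hε
  obtain ⟨C2, δ2, hC2, hδ2, hδ28, h2⟩ := triple_one b c a hbc hca hab κ ε hκ hε
  obtain ⟨C3, δ3, hC3, hδ3, hδ38, h3⟩ := triple_one c a b hca hab hbc κ ε hκ hε
  set δ : ℝ := min δ1 (min δ2 δ3) with hδ
  have hδpos : 0 < δ := lt_min hδ1 (lt_min hδ2 hδ3)
  have hd1 : δ ≤ δ1 := min_le_left _ _
  have hd2 : δ ≤ δ2 := (min_le_right _ _).trans (min_le_left _ _)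
  have hd3 : δ ≤ δ3 := (min_le_right _ _).trans (min_le_right _ _)
  refine ⟨2 * (C1 + C2 + C3), δ, by linarith, hδpos, hd1.trans hδ18, ?_⟩
  intro Y S hY hS
  have hY0 : 0 < Y := by linarith
  have hmono : ∀ δ' : ℝ, δ ≤ δ' → Y ^ (2 / 3 - δ') ≤ Y ^ (2 / 3 - δ) := fun δ' h =>
    Real.rpow_le_rpow_of_exponent_le hY (by linarith)
  have hneg : ∀ l w : ℤ × ℤ, lf l (-w) = - lf l w := by
    intro l w; simp only [lf, Prod.fst_neg, Prod.snd_neg]; ring
  have hneg' : ∀ l w : ℤ × ℤ, (lf l (-w)).natAbs = (lf l w).natAbs := by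
    intro l w; rw [hneg, Int.natAbs_neg]
  have hn1 : ∀ w : ℤ × ℤ, |(((-w).1 : ℤ) : ℝ)| = |(w.1 : ℝ)| := by
    intro w; rw [Prod.fst_neg]; push_cast; rw [abs_neg]
  have hn2 : ∀ w : ℤ × ℤ, |(((-w).2 : ℤ) : ℝ)| = |(w.2 : ℝ)| := by
    intro w; rw [Prod.snd_neg]; push_cast; rw [abs_neg]
  set A : ℤ × ℤ → ℤ := fun w => dt b c * lf a w with hA
  set B : ℤ × ℤ → ℤ := fun w => dt c a * lf b w with hB
  set D : ℤ × ℤ → ℤ := fun w => dt a b * lf c w with hD
  have hsum : ∀ w, A w + B w + D w = 0 := by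
    intro w
    simp only [hA, hB, hD, dt, lf]; ring
  -- general step: two of the three are positive, or two are negative
  have hstep : ∀ (P Q : ℤ × ℤ → ℤ), (∀ w, P (-w) = - P w) → (∀ w, Q (-w) = - Q w) →
      ∀ (C' δ' : ℝ), 0 ≤ C' → δ ≤ δ' →
      (∀ S' : Finset (ℤ × ℤ), (∀ w ∈ S', (w ∈ S ∨ -w ∈ S) ∧ 0 < P w ∧ 0 < Q w) →
        (S'.card : ℝ) ≤ C' * Y ^ (2 / 3 - δ')) →
      ((S.filter (fun w => 0 < P w * Q w)).card : ℝ) ≤ 2 * C' * Y ^ (2 / 3 - δ) := by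
    intro P Q hP hQ C' δ' hC' hδ' hh
    have e1 := hh (S.filter (fun w => 0 < P w ∧ 0 < Q w)) (by
      intro w hw
      rw [Finset.mem_filter] at hw
      exact ⟨Or.inl hw.1, hw.2⟩)
    have e2 := hh ((S.filter (fun w => P w < 0 ∧ Q w < 0)).image (fun w => -w)) (by
      intro w hw
      rw [Finset.mem_image] at hw
      obtain ⟨v, hv, rfl⟩ := hw
      rw [Finset.mem_filter] at hv
      refine ⟨Or.inr (by rw [neg_neg]; exact hv.1), ?_, ?_⟩
      · rw [hP]; linarith [hv.2.1]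
      · rw [hQ]; linarith [hv.2.2])
    rw [Finset.card_image_of_injective _ neg_injective] at e2
    have e3 : S.filter (fun w => 0 < P w * Q w) ⊆ S.filter (fun w => 0 < P w ∧ 0 < Q w) ∪
        S.filter (fun w => P w < 0 ∧ Q w < 0) := by
      intro w hw
      rw [Finset.mem_filter] at hw
      rw [Finset.mem_union, Finset.mem_filter, Finset.mem_filter]
      rcases pos_and_pos_or_neg_and_neg_of_mul_pos hw.2 with h | h
      · exact Or.inl ⟨hw.1, h⟩
      · exact Or.inr ⟨hw.1, h⟩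
    have e4 := (Finset.card_le_card e3).trans (Finset.card_union_le _ _)
    have e5 : ((S.filter (fun w => 0 < P w * Q w)).card : ℝ) ≤
        ((S.filter (fun w => 0 < P w ∧ 0 < Q w)).card : ℝ) +
        ((S.filter (fun w => P w < 0 ∧ Q w < 0)).card : ℝ) := by exact_mod_cast e4
    have e6 := mul_le_mul_of_nonneg_left (hmono δ' hδ') hC'
    linarith
  have hall : ∀ w, w ∈ S ∨ -w ∈ S → IsCoprime w.1 w.2 ∧ lf a w ≠ 0 ∧ lf b w ≠ 0 ∧ lf c w ≠ 0 ∧
      |(w.1 : ℝ)| ≤ Y ^ κ ∧ |(w.2 : ℝ)| ≤ Y ^ κ ∧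
      (rd (lf a w).natAbs : ℝ) * rd (lf b w).natAbs * rd (lf c w).natAbs ≤ Y ∧
      2 * (C1 + C2 + C3) * ((rd (lf a w).natAbs : ℝ) * rd (lf b w).natAbs * rd (lf c w).natAbs) ^ (1 / 3 + ε) <
        max |(w.1 : ℝ)| |(w.2 : ℝ)| := by
    intro w hw
    rcases hw with hw | hw
    · exact hS w hw
    · have h := hS (-w) hw
      rw [hneg', hneg', hneg', hn1, hn2, hneg, hneg, hneg] at h
      obtain ⟨q1, q2, q3, q4, q5⟩ := h
      refine ⟨?_, neg_ne_zero.mp q2, neg_ne_zero.mp q3, neg_ne_zero.mp q4, q5⟩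
      rw [Prod.fst_neg, Prod.snd_neg] at q1
      exact (IsCoprime.neg_neg_iff w.1 w.2).mp q1
  have hRpos : ∀ w : ℤ × ℤ, 0 ≤ ((rd (lf a w).natAbs : ℝ) * rd (lf b w).natAbs *
      rd (lf c w).natAbs) ^ (1 / 3 + ε) := fun w => by positivity
  have hnA : ∀ w, A (-w) = - A w := by intro w; simp only [hA]; rw [hneg]; ring
  have hnB : ∀ w, B (-w) = - B w := by intro w; simp only [hB]; rw [hneg]; ring
  have hnD : ∀ w, D (-w) = - D w := by intro w; simp only [hD]; rw [hneg]; ring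
  have s1 := hstep A B hnA hnB C1 δ1 (by linarith) hd1 (by
    intro S' hS'
    apply h1 Y S' hY
    intro w hw
    obtain ⟨p, p1, p2⟩ := hS' w hw
    obtain ⟨q1, q2, q3, q4, q5, q6, q7, q8⟩ := hall w p
    refine ⟨q1, q2, q3, q4, p1, p2, q5, q6, q7, lt_of_le_of_lt ?_ q8⟩
    exact mul_le_mul_of_nonneg_right (by linarith) (hRpos w))
  have s2 := hstep B D hnB hnD C2 δ2 (by linarith) hd2 (by
    intro S' hS'
    apply h2 Y S' hY
    intro w hw
    obtain ⟨p, p1, p2⟩ := hS' w hw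
    obtain ⟨q1, q2, q3, q4, q5, q6, q7, q8⟩ := hall w p
    have e1 : (rd (lf b w).natAbs : ℝ) * rd (lf c w).natAbs * rd (lf a w).natAbs =
        (rd (lf a w).natAbs : ℝ) * rd (lf b w).natAbs * rd (lf c w).natAbs := by ring
    refine ⟨q1, q3, q4, q2, p1, p2, q5, q6, by rw [e1]; exact q7, ?_⟩
    rw [e1]
    exact lt_of_le_of_lt (mul_le_mul_of_nonneg_right (by linarith) (hRpos w)) q8)
  have s3 := hstep D A hnD hnA C3 δ3 (by linarith) hd3 (by
    intro S' hS'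
    apply h3 Y S' hY
    intro w hw
    obtain ⟨p, p1, p2⟩ := hS' w hw
    obtain ⟨q1, q2, q3, q4, q5, q6, q7, q8⟩ := hall w p
    have e1 : (rd (lf c w).natAbs : ℝ) * rd (lf a w).natAbs * rd (lf b w).natAbs =
        (rd (lf a w).natAbs : ℝ) * rd (lf b w).natAbs * rd (lf c w).natAbs := by ring
    refine ⟨q1, q4, q2, q3, p1, p2, q5, q6, by rw [e1]; exact q7, ?_⟩
    rw [e1]
    exact lt_of_le_of_lt (mul_le_mul_of_nonneg_right (by linarith) (hRpos w)) q8)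
  have hcover : S ⊆ S.filter (fun w => 0 < A w * B w) ∪ (S.filter (fun w => 0 < B w * D w) ∪
      S.filter (fun w => 0 < D w * A w)) := by
    intro w hw
    obtain ⟨q1, q2, q3, q4, _⟩ := hS w hw
    have nA : A w ≠ 0 := mul_ne_zero hbc q2
    have nB : B w ≠ 0 := mul_ne_zero hca q3
    have nD : D w ≠ 0 := mul_ne_zero hab q4
    have hs := hsum w
    rw [Finset.mem_union, Finset.mem_union, Finset.mem_filter, Finset.mem_filter, Finset.mem_filter]
    rcases lt_or_gt_of_ne nA with hA1 | hA1 <;> rcases lt_or_gt_of_ne nB with hB1 | hB1 <;>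
      rcases lt_or_gt_of_ne nD with hD1 | hD1
    · linarith
    · exact Or.inl ⟨hw, mul_pos_of_neg_of_neg hA1 hB1⟩
    · exact Or.inr (Or.inr ⟨hw, mul_pos_of_neg_of_neg hD1 hA1⟩)
    · exact Or.inr (Or.inl ⟨hw, mul_pos hB1 hD1⟩)
    · exact Or.inr (Or.inl ⟨hw, mul_pos_of_neg_of_neg hB1 hD1⟩)
    · exact Or.inr (Or.inr ⟨hw, mul_pos hD1 hA1⟩)
    · exact Or.inl ⟨hw, mul_pos hA1 hB1⟩
    · linarith
  have c1 := Finset.card_le_card hcover
  have c2 := Finset.card_union_le (S.filter (fun w => 0 < A w * B w))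
    (S.filter (fun w => 0 < B w * D w) ∪ S.filter (fun w => 0 < D w * A w))
  have c3 := Finset.card_union_le (S.filter (fun w => 0 < B w * D w))
    (S.filter (fun w => 0 < D w * A w))
  have c4 : (S.card : ℝ) ≤ ((S.filter (fun w => 0 < A w * B w)).card : ℝ) +
      (((S.filter (fun w => 0 < B w * D w)).card : ℝ) +
      ((S.filter (fun w => 0 < D w * A w)).card : ℝ)) := by
    exact_mod_cast (by omega : S.card ≤ (S.filter (fun w => 0 < A w * B w)).card +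
      ((S.filter (fun w => 0 < B w * D w)).card + (S.filter (fun w => 0 < D w * A w)).card))
  calc (S.card : ℝ) ≤ 2 * C1 * Y ^ (2 / 3 - δ) + (2 * C2 * Y ^ (2 / 3 - δ) +
        2 * C3 * Y ^ (2 / 3 - δ)) := by linarith
    _ = 2 * (C1 + C2 + C3) * Y ^ (2 / 3 - δ) := by ring

/-- products of many factors at least `q` -/
theorem prod_ge {α : Type*} [DecidableEq α] (s : Finset α) (f : α → ℝ) (q : ℝ) (hq : 0 ≤ q)
    (h : ∀ x ∈ s, q ≤ f x) : q ^ s.card ≤ ∏ x ∈ s, f x := by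
  rw [← Finset.prod_const]
  exact Finset.prod_le_prod (fun _ _ => hq) h

/-- the combinatorial step: all pairs of linear radicals and all quadratic radicals are large -/
theorem comb {α β : Type*} [DecidableEq α] [DecidableEq β] (Λ : Finset α) (Θ : Finset β)
    (hs : 3 ≤ Λ.card) (R : α → ℝ) (S : β → ℝ) (hR : ∀ l ∈ Λ, 1 ≤ R l)
    (Q : ℝ) (hQ : 1 ≤ Q) (h1 : ∀ l ∈ Λ, ∀ l' ∈ Λ, l ≠ l' → Q < R l * R l')
    (h2 : ∀ q ∈ Θ, Q < S q) :
    Q ^ (((Λ.card : ℝ) + 2 * Θ.card) / 2) < (∏ l ∈ Λ, R l) * ∏ q ∈ Θ, S q ∧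
    ∃ a ∈ Λ, ∃ b ∈ Λ, ∃ c ∈ Λ, a ≠ b ∧ b ≠ c ∧ c ≠ a ∧
      R a * R b * R c * Q ^ (((Λ.card : ℝ) + 2 * Θ.card - 3) / 2) ≤
        (∏ l ∈ Λ, R l) * ∏ q ∈ Θ, S q := by
  have hQ0 : 0 < Q := by linarith
  have hne : Λ.Nonempty := Finset.card_pos.mp (by omega)
  obtain ⟨a, ha, hmin⟩ := Finset.exists_min_image Λ R hne
  have hcard : 2 ≤ (Λ.erase a).card := by rw [Finset.card_erase_of_mem ha]; omega
  obtain ⟨b, hb, c, hc, hbc⟩ := Finset.one_lt_card.mp (by omega : 1 < (Λ.erase a).card)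
  have hb' := Finset.mem_erase.mp hb
  have hc' := Finset.mem_erase.mp hc
  set q : ℝ := Q ^ (1 / 2 : ℝ) with hq
  have hq0 : 0 < q := Real.rpow_pos_of_pos hQ0 _
  have hqq : q * q = Q := by
    rw [hq, ← Real.rpow_add hQ0]; norm_num
  have hlarge : ∀ d ∈ Λ, d ≠ a → q ≤ R d := by
    intro d hd hda
    by_contra hcon
    push Not at hcon
    have e1 := h1 d hd a ha hda
    have e2 := hmin d hd
    have e3 : R d * R a ≤ q * q := by
      have := hR a ha
      have := hR d hd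
      apply mul_le_mul hcon.le (e2.trans hcon.le) (by linarith) hq0.le
    rw [hqq] at e3
    linarith
  have hSprod : Q ^ Θ.card ≤ ∏ x ∈ Θ, S x := prod_ge Θ S Q hQ0.le (fun x hx => (h2 x hx).le)
  have hSpos : 0 < ∏ x ∈ Θ, S x := lt_of_lt_of_le (by positivity) hSprod
  constructor
  · have e1 : ∏ l ∈ Λ, R l = R a * (R b * ∏ l ∈ (Λ.erase a).erase b, R l) := by
      rw [← Finset.mul_prod_erase Λ R ha, ← Finset.mul_prod_erase (Λ.erase a) R hb]
    have e2 : q ^ ((Λ.erase a).erase b).card ≤ ∏ l ∈ (Λ.erase a).erase b, R l := by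
      apply prod_ge _ _ _ hq0.le
      intro x hx
      have hx' := Finset.mem_erase.mp hx
      have hx'' := Finset.mem_erase.mp hx'.2
      exact hlarge x hx''.2 hx''.1
    have e3 : ((Λ.erase a).erase b).card = Λ.card - 2 := by
      rw [Finset.card_erase_of_mem hb, Finset.card_erase_of_mem ha]; omega
    rw [e3] at e2
    have e4 := h1 a ha b hb'.2 (Ne.symm hb'.1)
    have e5 : Q ^ (((Λ.card : ℝ) + 2 * Θ.card) / 2) = Q * q ^ (Λ.card - 2) * Q ^ Θ.card := by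
      rw [hq, ← Real.rpow_natCast, ← Real.rpow_mul hQ0.le, ← Real.rpow_natCast Q Θ.card]
      have : Q * Q ^ (1 / 2 * ((Λ.card - 2 : ℕ) : ℝ)) * Q ^ (Θ.card : ℝ) =
          Q ^ (1 : ℝ) * Q ^ (1 / 2 * ((Λ.card - 2 : ℕ) : ℝ)) * Q ^ (Θ.card : ℝ) := by
        rw [Real.rpow_one]
      rw [this, ← Real.rpow_add hQ0, ← Real.rpow_add hQ0]
      congr 1
      rw [Nat.cast_sub (by omega)]
      push_cast; ring
    rw [e5, e1]
    have hRa := hR a ha
    have hRb := hR b hb'.2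
    have hpos2 : 0 < ∏ l ∈ (Λ.erase a).erase b, R l := lt_of_lt_of_le (by positivity) e2
    calc Q * q ^ (Λ.card - 2) * Q ^ Θ.card
        < (R a * R b) * q ^ (Λ.card - 2) * Q ^ Θ.card := by
          apply mul_lt_mul_of_pos_right _ (by positivity)
          exact mul_lt_mul_of_pos_right e4 (by positivity)
      _ ≤ (R a * R b) * (∏ l ∈ (Λ.erase a).erase b, R l) * ∏ x ∈ Θ, S x := by
          apply mul_le_mul _ hSprod (by positivity) (by positivity)
          exact mul_le_mul_of_nonneg_left e2 (by positivity)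
      _ = R a * (R b * ∏ l ∈ (Λ.erase a).erase b, R l) * ∏ q ∈ Θ, S q := by ring
  · refine ⟨a, ha, b, hb'.2, c, hc'.2, Ne.symm hb'.1, hbc, hc'.1, ?_⟩
    have hcm : c ∈ (Λ.erase a).erase b := Finset.mem_erase.mpr ⟨Ne.symm hbc, hc⟩
    have e1 : ∏ l ∈ Λ, R l = R a * (R b * (R c * ∏ l ∈ ((Λ.erase a).erase b).erase c, R l)) := by
      rw [← Finset.mul_prod_erase Λ R ha, ← Finset.mul_prod_erase (Λ.erase a) R hb,
        ← Finset.mul_prod_erase ((Λ.erase a).erase b) R hcm]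
    have e2 : q ^ (((Λ.erase a).erase b).erase c).card ≤ ∏ l ∈ ((Λ.erase a).erase b).erase c, R l := by
      apply prod_ge _ _ _ hq0.le
      intro x hx
      have hx0 := Finset.mem_erase.mp hx
      have hx' := Finset.mem_erase.mp hx0.2
      have hx'' := Finset.mem_erase.mp hx'.2
      exact hlarge x hx''.2 hx''.1
    have e3 : (((Λ.erase a).erase b).erase c).card = Λ.card - 3 := by
      rw [Finset.card_erase_of_mem hcm, Finset.card_erase_of_mem hb, Finset.card_erase_of_mem ha]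
      omega
    rw [e3] at e2
    have e5 : Q ^ (((Λ.card : ℝ) + 2 * Θ.card - 3) / 2) = q ^ (Λ.card - 3) * Q ^ Θ.card := by
      rw [hq, ← Real.rpow_natCast, ← Real.rpow_mul hQ0.le, ← Real.rpow_natCast Q Θ.card,
        ← Real.rpow_add hQ0]
      congr 1
      rw [Nat.cast_sub (by omega)]
      push_cast; ring
    rw [e5, e1]
    have hRa := hR a ha
    have hRb := hR b hb'.2
    have hRc := hR c hc'.2
    calc R a * R b * R c * (q ^ (Λ.card - 3) * Q ^ Θ.card)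
        ≤ R a * R b * R c * ((∏ l ∈ ((Λ.erase a).erase b).erase c, R l) * ∏ x ∈ Θ, S x) := by
          apply mul_le_mul_of_nonneg_left _ (by positivity)
          apply mul_le_mul e2 hSprod (by positivity)
          exact le_trans (by positivity) e2
      _ = _ := by ring

end Fm

end Pool.Agent.Lib.MP_d8bd92_nt
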