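import Pool.Agent.Lib.MP_d8bd92_nt.FmC

set_option autoImplicit false

/-!
The core count: linear and quadratic forms at coprime pairs, by the product of the radicals.
-/

namespace Pool.Agent.Lib.MP_d8bd92_nt

open Finset Pool.Agent.Lib.Szpiro

namespace Fm

theorem natAbs_cast_abs (x : ℤ) : (x.natAbs : ℝ) = |(x : ℝ)| := by
  rw [Nat.cast_natAbs]; push_cast; rfl

theorem one_le_max_abs {w : ℤ × ℤ} (h : IsCoprime w.1 w.2) : 1 ≤ max |(w.1 : ℝ)| |(w.2 : ℝ)| := by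
  rw [← natAbs_cast_abs, ← natAbs_cast_abs]
  by_contra hcon
  push Not at hcon
  have h1 := (le_max_left _ _).trans_lt hcon
  have h2 := (le_max_right _ _).trans_lt hcon
  have h3 : w.1.natAbs < 1 := by exact_mod_cast h1
  have h4 : w.2.natAbs < 1 := by exact_mod_cast h2
  have h5 : w.1 = 0 := Int.natAbs_eq_zero.mp (by omega)
  have h6 : w.2 = 0 := Int.natAbs_eq_zero.mp (by omega)
  rw [h5, h6] at h
  exact not_isCoprime_zero_zero h

theorem core (Λ : Finset (ℤ × ℤ)) (Θ : Finset (ℤ × ℤ × ℤ)) (hs : 3 ≤ Λ.card)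
    (hind : ∀ l ∈ Λ, ∀ l' ∈ Λ, l ≠ l' → dt l l' ≠ 0) (hq : ∀ q ∈ Θ, ¬ IsSquare (qdisc q))
    (r : ℝ) (hr : r = (Λ.card : ℝ) + 2 * Θ.card) (κ ε : ℝ) (hκ : 1 ≤ κ) (hε : 0 < ε) :
    ∃ C δ : ℝ, 1 ≤ C ∧ 0 < δ ∧ ∀ (Y : ℝ) (T : Finset (ℤ × ℤ)), 1 ≤ Y →
    (∀ w ∈ T, IsCoprime w.1 w.2 ∧ (∀ l ∈ Λ, lf l w ≠ 0) ∧ |(w.1 : ℝ)| ≤ Y ^ κ ∧
      |(w.2 : ℝ)| ≤ Y ^ κ ∧ (radp Λ Θ w : ℝ) ≤ Y) →
    (T.card : ℝ) ≤ C * Y ^ (2 / r + ε) ∧
    ((∀ w ∈ T, (radp Λ Θ w : ℝ) ^ (1 / r + ε) < max |(w.1 : ℝ)| |(w.2 : ℝ)|) →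
      (T.card : ℝ) ≤ C * Y ^ (2 / r - δ)) := by
  classical
  have hr3 : 3 ≤ r := by
    rw [hr]
    have h1 : (3 : ℝ) ≤ (Λ.card : ℝ) := by exact_mod_cast hs
    have h2 : (0 : ℝ) ≤ (Θ.card : ℝ) := Nat.cast_nonneg _
    linarith
  have hr0 : 0 < r := by linarith
  have hκ0 : 0 < κ := by linarith
  have hΛne : Λ.Nonempty := Finset.card_pos.mp (by omega)
  -- radicals
  set Rf : ℤ × ℤ → ℤ × ℤ → ℝ := fun w l => (rd (lf l w).natAbs : ℝ) with hRf
  set Sf : ℤ × ℤ → ℤ × ℤ × ℤ → ℝ := fun w q => (rd (qf q w).natAbs : ℝ) with hSf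
  have hRf1 : ∀ w l, 1 ≤ Rf w l := fun w l => one_le_rd _
  have hradp : ∀ w, (radp Λ Θ w : ℝ) = (∏ l ∈ Λ, Rf w l) * ∏ q ∈ Θ, Sf w q := by
    intro w; simp only [radp, hRf, hSf]; push_cast; rfl
  -- triples
  have htri : ∀ a b c : ℤ × ℤ, ∃ C δ : ℝ, 1 ≤ C ∧ 0 < δ ∧ δ ≤ 1 / 8 ∧
      (a ∈ Λ → b ∈ Λ → c ∈ Λ → a ≠ b → b ≠ c → c ≠ a → ∀ (Y : ℝ) (S : Finset (ℤ × ℤ)), 1 ≤ Y →
      (∀ w ∈ S, IsCoprime w.1 w.2 ∧ lf a w ≠ 0 ∧ lf b w ≠ 0 ∧ lf c w ≠ 0 ∧
        |(w.1 : ℝ)| ≤ Y ^ (κ * r / 3) ∧ |(w.2 : ℝ)| ≤ Y ^ (κ * r / 3) ∧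
        Rf w a * Rf w b * Rf w c ≤ Y ∧
        C * (Rf w a * Rf w b * Rf w c) ^ (1 / 3 + ε / 4) < max |(w.1 : ℝ)| |(w.2 : ℝ)|) →
      (S.card : ℝ) ≤ C * Y ^ (2 / 3 - δ)) := by
    intro a b c
    by_cases h : a ∈ Λ ∧ b ∈ Λ ∧ c ∈ Λ ∧ a ≠ b ∧ b ≠ c ∧ c ≠ a
    · obtain ⟨ha, hb, hc, hab, hbc, hca⟩ := h
      have hκ' : 1 ≤ κ * r / 3 := by nlinarith
      obtain ⟨C, δ, h1, h2, h3, h4⟩ := triple a b c (hind a ha b hb hab) (hind b hb c hc hbc)
        (hind c hc a ha hca) (κ * r / 3) (ε / 4) hκ' (by positivity)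
      exact ⟨C, δ, h1, h2, h3, fun _ _ _ _ _ _ => h4⟩
    · refine ⟨1, 1 / 8, le_rfl, by norm_num, le_rfl, ?_⟩
      intro ha hb hc hab hbc hca
      exact absurd ⟨ha, hb, hc, hab, hbc, hca⟩ h
  choose Ct δt hCt hδt hδt8 htri using htri
  set Tr : Finset ((ℤ × ℤ) × (ℤ × ℤ) × (ℤ × ℤ)) := Λ ×ˢ Λ ×ˢ Λ with hTr
  have hTrne : Tr.Nonempty := hΛne.product (hΛne.product hΛne)
  set d1 : ℝ := Tr.inf' hTrne (fun x => δt x.1 x.2.1 x.2.2) with hd1
  have hd1pos : 0 < d1 := by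
    rw [hd1, Finset.lt_inf'_iff]
    intro x _; exact hδt _ _ _
  have hd1le : ∀ x ∈ Tr, d1 ≤ δt x.1 x.2.1 x.2.2 := fun x hx => Finset.inf'_le _ hx
  have hd18 : d1 ≤ 1 / 8 := by
    obtain ⟨x, hx⟩ := hTrne
    exact (hd1le x hx).trans (hδt8 _ _ _)
  set CT : ℝ := ∑ x ∈ Tr, Ct x.1 x.2.1 x.2.2 with hCT
  have hCT0 : 0 ≤ CT := Finset.sum_nonneg (fun x _ => by linarith [hCt x.1 x.2.1 x.2.2])
  have hCTle : ∀ x ∈ Tr, Ct x.1 x.2.1 x.2.2 ≤ CT := by
    intro x hx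
    exact Finset.single_le_sum (f := fun x : (ℤ × ℤ) × (ℤ × ℤ) × (ℤ × ℤ) => Ct x.1 x.2.1 x.2.2)
      (fun y _ => by linarith [hCt y.1 y.2.1 y.2.2]) hx
  -- parameters
  set δ0 : ℝ := min (4 * d1 / r ^ 2) (min (ε / (r * (1 + 2 * ε))) (1 / r)) with hδ0
  have hδ0pos : 0 < δ0 := lt_min (by positivity) (lt_min (by positivity) (by positivity))
  have hδ0a : δ0 ≤ 4 * d1 / r ^ 2 := min_le_left _ _
  have hδ0b : δ0 ≤ ε / (r * (1 + 2 * ε)) := (min_le_right _ _).trans (min_le_left _ _)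
  have hδ0c : δ0 ≤ 1 / r := (min_le_right _ _).trans (min_le_right _ _)
  set σ : ℝ := min (δ0 / (2 * κ)) (ε / κ) with hσ
  have hσpos : 0 < σ := lt_min (by positivity) (by positivity)
  have hσa : κ * σ ≤ δ0 / 2 := by
    calc κ * σ ≤ κ * (δ0 / (2 * κ)) := mul_le_mul_of_nonneg_left (min_le_left _ _) hκ0.le
      _ = δ0 / 2 := by field_simp
  have hσb : κ * σ ≤ ε := by
    calc κ * σ ≤ κ * (ε / κ) := mul_le_mul_of_nonneg_left (min_le_right _ _) hκ0.le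
      _ = ε := by field_simp
  -- pairs and quadratic forms
  have hpair : ∀ l l' : ℤ × ℤ, ∃ C : ℝ, 1 ≤ C ∧ (l ∈ Λ → l' ∈ Λ → l ≠ l' →
      ∀ (Z : ℕ) (X : ℝ) (S : Finset (ℤ × ℤ)), 1 ≤ Z → 0 ≤ X →
      (∀ w ∈ S, lf l w ≠ 0 ∧ lf l' w ≠ 0 ∧ Rf w l * Rf w l' ≤ X ∧ w.1.natAbs ≤ Z ∧
        w.2.natAbs ≤ Z) → (S.card : ℝ) ≤ C * (Z : ℝ) ^ σ * X) := by
    intro l l'
    by_cases h : l ∈ Λ ∧ l' ∈ Λ ∧ l ≠ l'
    · obtain ⟨C, hC, h1⟩ := pair_count l l' (hind l h.1 l' h.2.1 h.2.2) σ hσpos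
      exact ⟨C, hC, fun _ _ _ => h1⟩
    · exact ⟨1, le_rfl, fun h1 h2 h3 => absurd ⟨h1, h2, h3⟩ h⟩
  choose Cp hCp hpair using hpair
  have hquad : ∀ q : ℤ × ℤ × ℤ, ∃ C : ℝ, 1 ≤ C ∧ (q ∈ Θ →
      ∀ (Z : ℕ) (X : ℝ) (S : Finset (ℤ × ℤ)), 1 ≤ Z → 0 ≤ X →
      (∀ w ∈ S, IsCoprime w.1 w.2 ∧ Sf w q ≤ X ∧ w.1.natAbs ≤ Z ∧ w.2.natAbs ≤ Z) →
      (S.card : ℝ) ≤ C * (Z : ℝ) ^ σ * X) := by
    intro q
    by_cases h : q ∈ Θ
    · obtain ⟨C, hC, h1⟩ := form_rad_count q.1 q.2.1 q.2.2 (hq q h) σ hσpos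
      exact ⟨C, hC, fun _ => h1⟩
    · exact ⟨1, le_rfl, fun h1 => absurd h1 h⟩
  choose Cq hCq hquad using hquad
  set CS : ℝ := ∑ x ∈ Λ ×ˢ Λ, Cp x.1 x.2 + ∑ q ∈ Θ, Cq q with hCS
  have hCS0 : 0 ≤ CS := add_nonneg (Finset.sum_nonneg (fun x _ => by linarith [hCp x.1 x.2]))
    (Finset.sum_nonneg (fun x _ => by linarith [hCq x]))
  -- the final constant
  set Y0 : ℝ := (CT + 1) ^ (4 / ε) with hY0
  have hY01 : 1 ≤ Y0 := Real.one_le_rpow (by linarith) (by positivity)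
  set δ : ℝ := min (δ0 / 2) (d1 / r) with hδ
  have hδpos : 0 < δ := lt_min (by positivity) (by positivity)
  refine ⟨CS + CT + 9 * Y0 ^ (2 * κ) + 1, δ, ?_, hδpos, ?_⟩
  · have : 0 ≤ 9 * Y0 ^ (2 * κ) := by positivity
    linarith
  intro Y T hY hT
  have hYpos : 0 < Y := by linarith
  set Z : ℕ := ⌊Y ^ κ⌋₊ with hZ
  have hYκ1 : 1 ≤ Y ^ κ := Real.one_le_rpow hY hκ0.le
  have hZ1 : 1 ≤ Z := Nat.le_floor (by exact_mod_cast hYκ1)
  have hZle : (Z : ℝ) ≤ Y ^ κ := Nat.floor_le (by linarith)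
  have hZσ : (Z : ℝ) ^ σ ≤ Y ^ (κ * σ) := by
    rw [Real.rpow_mul hYpos.le]
    exact Real.rpow_le_rpow (Nat.cast_nonneg _) hZle hσpos.le
  have hTZ : ∀ w ∈ T, w.1.natAbs ≤ Z ∧ w.2.natAbs ≤ Z := by
    intro w hw
    obtain ⟨_, _, h3, h4, _⟩ := hT w hw
    constructor
    · apply Nat.le_floor; rw [natAbs_cast_abs]; exact h3
    · apply Nat.le_floor; rw [natAbs_cast_abs]; exact h4
  -- the small part
  have hsmall : ∀ Q : ℝ, 0 ≤ Q → ((T.filter (fun w => (∃ l ∈ Λ, ∃ l' ∈ Λ, l ≠ l' ∧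
      Rf w l * Rf w l' ≤ Q) ∨ ∃ q ∈ Θ, Sf w q ≤ Q)).card : ℝ) ≤ CS * Y ^ (κ * σ) * Q := by
    intro Q hQ
    set E : Finset (ℤ × ℤ) := T.filter (fun w => (∃ l ∈ Λ, ∃ l' ∈ Λ, l ≠ l' ∧
      Rf w l * Rf w l' ≤ Q) ∨ ∃ q ∈ Θ, Sf w q ≤ Q) with hE
    set E1 : (ℤ × ℤ) × (ℤ × ℤ) → Finset (ℤ × ℤ) := fun x => T.filter (fun w => x.1 ≠ x.2 ∧
      Rf w x.1 * Rf w x.2 ≤ Q) with hE1
    set E2 : ℤ × ℤ × ℤ → Finset (ℤ × ℤ) := fun q => T.filter (fun w => Sf w q ≤ Q) with hE2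
    have hcov : E ⊆ (Λ ×ˢ Λ).biUnion E1 ∪ Θ.biUnion E2 := by
      intro w hw
      rw [hE, Finset.mem_filter] at hw
      rw [Finset.mem_union, Finset.mem_biUnion, Finset.mem_biUnion]
      rcases hw.2 with ⟨l, hl, l', hl', hne, hle⟩ | ⟨q, hq', hle⟩
      · left
        refine ⟨(l, l'), Finset.mem_product.mpr ⟨hl, hl'⟩, ?_⟩
        rw [hE1, Finset.mem_filter]
        exact ⟨hw.1, hne, hle⟩
      · right
        refine ⟨q, hq', ?_⟩
        rw [hE2, Finset.mem_filter]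
        exact ⟨hw.1, hle⟩
    have hb1 : ∀ x ∈ Λ ×ˢ Λ, ((E1 x).card : ℝ) ≤ Cp x.1 x.2 * Y ^ (κ * σ) * Q := by
      intro x hx
      obtain ⟨hx1, hx2⟩ := Finset.mem_product.mp hx
      by_cases hne : x.1 ≠ x.2
      · have h1 := hpair x.1 x.2 hx1 hx2 hne Z Q (E1 x) hZ1 hQ (by
          intro w hw
          rw [hE1, Finset.mem_filter] at hw
          obtain ⟨hwT, _, hle⟩ := hw
          obtain ⟨_, h2, _⟩ := hT w hwT
          exact ⟨h2 _ hx1, h2 _ hx2, hle, hTZ w hwT⟩)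
        refine h1.trans ?_
        have := hCp x.1 x.2
        apply mul_le_mul_of_nonneg_right _ hQ
        exact mul_le_mul_of_nonneg_left hZσ (by linarith)
      · have h1 : E1 x = ∅ := by
          rw [hE1]
          apply Finset.filter_eq_empty_iff.mpr
          intro w _ h
          exact hne h.1
        rw [h1, Finset.card_empty]
        have := hCp x.1 x.2
        push_cast
        positivity
    have hb2 : ∀ q ∈ Θ, ((E2 q).card : ℝ) ≤ Cq q * Y ^ (κ * σ) * Q := by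
      intro q hqΘ
      have h1 := hquad q hqΘ Z Q (E2 q) hZ1 hQ (by
        intro w hw
        rw [hE2, Finset.mem_filter] at hw
        exact ⟨(hT w hw.1).1, hw.2, hTZ w hw.1⟩)
      refine h1.trans ?_
      have := hCq q
      apply mul_le_mul_of_nonneg_right _ hQ
      exact mul_le_mul_of_nonneg_left hZσ (by linarith)
    have h1 : E.card ≤ ∑ x ∈ Λ ×ˢ Λ, (E1 x).card + ∑ q ∈ Θ, (E2 q).card := by
      refine (Finset.card_le_card hcov).trans ((Finset.card_union_le _ _).trans ?_)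
      exact Nat.add_le_add Finset.card_biUnion_le Finset.card_biUnion_le
    have h2 : (E.card : ℝ) ≤ ∑ x ∈ Λ ×ˢ Λ, ((E1 x).card : ℝ) + ∑ q ∈ Θ, ((E2 q).card : ℝ) := by
      exact_mod_cast h1
    refine h2.trans ?_
    rw [hCS, add_mul, add_mul, Finset.sum_mul, Finset.sum_mul, Finset.sum_mul, Finset.sum_mul]
    exact add_le_add (Finset.sum_le_sum hb1) (Finset.sum_le_sum hb2)
  -- outside the small part
  have hlarge : ∀ Q : ℝ, 1 ≤ Q → ∀ w ∈ T, w ∉ (T.filter (fun w => (∃ l ∈ Λ, ∃ l' ∈ Λ, l ≠ l' ∧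
      Rf w l * Rf w l' ≤ Q) ∨ ∃ q ∈ Θ, Sf w q ≤ Q)) →
      Q ^ (r / 2) < (radp Λ Θ w : ℝ) ∧ ∃ a ∈ Λ, ∃ b ∈ Λ, ∃ c ∈ Λ, a ≠ b ∧ b ≠ c ∧ c ≠ a ∧
      Rf w a * Rf w b * Rf w c * Q ^ ((r - 3) / 2) ≤ (radp Λ Θ w : ℝ) := by
    intro Q hQ w hw hnot
    rw [Finset.mem_filter] at hnot
    push Not at hnot
    obtain ⟨h1, h2⟩ := hnot hw
    have h3 := comb Λ Θ hs (Rf w) (Sf w) (fun l _ => hRf1 w l) Q hQ h1 h2
    rw [← hr, ← hradp] at h3
    exact h3
  constructor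
  · -- the general bound
    set Q : ℝ := Y ^ (2 / r) with hQ
    have hQ1 : 1 ≤ Q := Real.one_le_rpow hY (by positivity)
    have hall : T ⊆ T.filter (fun w => (∃ l ∈ Λ, ∃ l' ∈ Λ, l ≠ l' ∧
      Rf w l * Rf w l' ≤ Q) ∨ ∃ q ∈ Θ, Sf w q ≤ Q) := by
      intro w hw
      by_contra hnot
      obtain ⟨h1, _⟩ := hlarge Q hQ1 w hw hnot
      have h2 : Q ^ (r / 2) = Y := by
        rw [hQ, ← Real.rpow_mul hYpos.le]
        have : 2 / r * (r / 2) = 1 := by field_simp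
        rw [this, Real.rpow_one]
      rw [h2] at h1
      obtain ⟨_, _, _, _, h3⟩ := hT w hw
      linarith
    have h1 : (T.card : ℝ) ≤ CS * Y ^ (κ * σ) * Q :=
      le_trans (by exact_mod_cast Finset.card_le_card hall) (hsmall Q (by linarith))
    have h2 : Y ^ (κ * σ) * Q ≤ Y ^ (2 / r + ε) := by
      rw [hQ, ← Real.rpow_add hYpos]
      apply Real.rpow_le_rpow_of_exponent_le hY
      linarith
    have h3 : 0 ≤ Y ^ (2 / r + ε) := by positivity
    calc (T.card : ℝ) ≤ CS * (Y ^ (κ * σ) * Q) := by rw [← mul_assoc]; exact h1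
      _ ≤ CS * Y ^ (2 / r + ε) := mul_le_mul_of_nonneg_left h2 hCS0
      _ ≤ _ := by
          apply mul_le_mul_of_nonneg_right _ h3
          have : 0 ≤ 9 * Y0 ^ (2 * κ) := by positivity
          linarith
  · intro hH
    have hexp0 : 0 ≤ 2 / r - δ := by
      have h1 : δ ≤ δ0 / 2 := min_le_left _ _
      have h2 : 1 / r ≤ 2 / r := by gcongr; norm_num
      have h3 : 0 < 1 / r := by positivity
      linarith
    have hYe : 1 ≤ Y ^ (2 / r - δ) := Real.one_le_rpow hY hexp0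
    rcases le_or_gt Y Y0 with hYY | hYY
    · -- bounded Y
      have h1 : T ⊆ Finset.Icc (-(Z : ℤ)) Z ×ˢ Finset.Icc (-(Z : ℤ)) Z := by
        intro w hw
        obtain ⟨h2, h3⟩ := hTZ w hw
        rw [Finset.mem_product, Finset.mem_Icc, Finset.mem_Icc]
        omega
      have h2 := Finset.card_le_card h1
      rw [Finset.card_product, Int.card_Icc] at h2
      have h3 : ((Z : ℤ) + 1 - -(Z : ℤ)).toNat = 2 * Z + 1 := by omega
      rw [h3] at h2
      have h4 : (T.card : ℝ) ≤ (2 * (Z : ℝ) + 1) * (2 * Z + 1) := by exact_mod_cast h2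
      have h5 : (Z : ℝ) ≤ Y0 ^ κ := hZle.trans (Real.rpow_le_rpow hYpos.le hYY hκ0.le)
      have h6 : 1 ≤ Y0 ^ κ := Real.one_le_rpow hY01 hκ0.le
      have h7 : Y0 ^ κ * Y0 ^ κ = Y0 ^ (2 * κ) := by
        rw [← Real.rpow_add (by linarith)]; congr 1; ring
      have h8 : (T.card : ℝ) ≤ 9 * Y0 ^ (2 * κ) := by
        rw [← h7]
        refine h4.trans ?_
        have h9 : 2 * (Z : ℝ) + 1 ≤ 3 * Y0 ^ κ := by linarith
        have h10 : (0 : ℝ) ≤ 2 * (Z : ℝ) + 1 := by positivity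
        nlinarith
      have h9 : 0 ≤ 9 * Y0 ^ (2 * κ) := by positivity
      calc (T.card : ℝ) ≤ (CS + CT + 9 * Y0 ^ (2 * κ) + 1) * 1 := by linarith
        _ ≤ _ := mul_le_mul_of_nonneg_left hYe (by linarith)
    · -- large Y
      set Q : ℝ := Y ^ (2 / r - δ0) with hQ
      have hQe : 0 ≤ 2 / r - δ0 := by
        have h2 : 1 / r ≤ 2 / r := by gcongr; norm_num
        linarith
      have hQ1 : 1 ≤ Q := Real.one_le_rpow hY hQe
      set E : Finset (ℤ × ℤ) := T.filter (fun w => (∃ l ∈ Λ, ∃ l' ∈ Λ, l ≠ l' ∧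
        Rf w l * Rf w l' ≤ Q) ∨ ∃ q ∈ Θ, Sf w q ≤ Q) with hE
      set μ : ℝ := (r - 3) * δ0 / 2 with hμ
      have hμ0 : 0 ≤ μ := by
        have : 0 ≤ r - 3 := by linarith
        positivity
      have hμr : μ ≤ r * δ0 / 2 := by rw [hμ]; nlinarith
      set Y3 : ℝ := Y ^ (3 / r + μ) with hY3
      have hY31 : 1 ≤ Y3 := Real.one_le_rpow hY (by positivity)
      set F : (ℤ × ℤ) × (ℤ × ℤ) × (ℤ × ℤ) → Finset (ℤ × ℤ) := fun x =>
        (T \ E).filter (fun w => x.1 ≠ x.2.1 ∧ x.2.1 ≠ x.2.2 ∧ x.2.2 ≠ x.1 ∧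
          Rf w x.1 * Rf w x.2.1 * Rf w x.2.2 ≤ Y3) with hF
      -- exponents
      have hrδ : r * δ0 / 2 * (1 + 2 * ε) ≤ ε / 2 := by
        have h1 : δ0 * (r * (1 + 2 * ε)) ≤ ε := by
          rw [← le_div_iff₀ (by positivity)]; exact hδ0b
        linarith
      have hexp1 : (3 / r + μ) * (1 / 3 + ε / 4) + ε / 4 ≤ (1 - r * δ0 / 2) * (1 / r + ε) := by
        have h1 : 3 / r * (ε / 4) ≤ ε / 4 := by
          have : 3 / r ≤ 1 := by rw [div_le_one hr0]; exact hr3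
          nlinarith
        have h2 : 3 / r * (1 / 3) = 1 / r := by field_simp
        have h3 : 1 / r ≤ 1 / 3 := by
          apply one_div_le_one_div_of_le (by norm_num) hr3
        have h4 : μ * (1 / 3 + ε / 4) ≤ r * δ0 / 2 * (1 / 3 + ε / 4) :=
          mul_le_mul_of_nonneg_right hμr (by positivity)
        have h5 : 0 ≤ r * δ0 / 2 := by positivity
        have h6 : r * δ0 / 2 * (1 / 3 + ε / 4) + r * δ0 / 2 * (1 / r + ε) ≤
            r * δ0 / 2 * (1 + 2 * ε) := by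
          rw [← mul_add]
          apply mul_le_mul_of_nonneg_left _ h5
          linarith
        have h7 : (3 / r + μ) * (1 / 3 + ε / 4) = 3 / r * (1 / 3) + 3 / r * (ε / 4) +
            μ * (1 / 3 + ε / 4) := by ring
        have h8 : (1 - r * δ0 / 2) * (1 / r + ε) = 1 / r + ε - r * δ0 / 2 * (1 / r + ε) := by ring
        rw [h7, h8, h2]
        linarith
      have hexp2 : (3 / r + μ) * (2 / 3 - d1) ≤ 2 / r - d1 / r := by
        have h1 : r * δ0 / 2 ≤ 2 * d1 / r := by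
          have h2 : δ0 * r ^ 2 ≤ 4 * d1 := by
            rw [← le_div_iff₀ (by positivity)]; exact hδ0a
          rw [le_div_iff₀ hr0]
          nlinarith
        have h3 : μ * (2 / 3 - d1) ≤ 2 * d1 / r := by
          have : μ * (2 / 3 - d1) ≤ μ * 1 := mul_le_mul_of_nonneg_left (by linarith) hμ0
          linarith
        have h4 : (3 / r + μ) * (2 / 3 - d1) = 2 / r - 3 * (d1 / r) + μ * (2 / 3 - d1) := by
          field_simp
        rw [h4]
        have h5 : 2 * d1 / r = 2 * (d1 / r) := by ring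
        linarith
      have hYε : CT < Y ^ (ε / 4) := by
        have h1 : Y0 ^ (ε / 4) = CT + 1 := by
          rw [hY0, ← Real.rpow_mul (by linarith)]
          have : 4 / ε * (ε / 4) = 1 := by field_simp
          rw [this, Real.rpow_one]
        have h2 : Y0 ^ (ε / 4) ≤ Y ^ (ε / 4) := Real.rpow_le_rpow (by linarith) hYY.le (by positivity)
        linarith
      have hFle : ∀ x ∈ Tr, ((F x).card : ℝ) ≤ Ct x.1 x.2.1 x.2.2 * Y ^ (2 / r - d1 / r) := by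
        intro x hx
        have hx' := Finset.mem_product.mp hx
        have hx'' := Finset.mem_product.mp hx'.2
        have hCx := hCt x.1 x.2.1 x.2.2
        by_cases hne : x.1 ≠ x.2.1 ∧ x.2.1 ≠ x.2.2 ∧ x.2.2 ≠ x.1
        · have h1 := htri x.1 x.2.1 x.2.2 hx'.1 hx''.1 hx''.2 hne.1 hne.2.1 hne.2.2 Y3 (F x) hY31 (by
            intro w hw
            rw [hF, Finset.mem_filter, Finset.mem_sdiff] at hw
            obtain ⟨⟨hwT, hwE⟩, _, _, _, hle⟩ := hw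
            obtain ⟨k1, k2, k3, k4, k5⟩ := hT w hwT
            have hYY3 : Y ^ κ ≤ Y3 ^ (κ * r / 3) := by
              rw [hY3, ← Real.rpow_mul hYpos.le]
              apply Real.rpow_le_rpow_of_exponent_le hY
              have h2 : (3 / r + μ) * (κ * r / 3) = κ + μ * (κ * r / 3) := by field_simp
              rw [h2]
              have : 0 ≤ μ * (κ * r / 3) := by positivity
              linarith
            refine ⟨k1, k2 _ hx'.1, k2 _ hx''.1, k2 _ hx''.2, k3.trans hYY3, k4.trans hYY3, hle, ?_⟩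
            have h3 : Q ^ (r / 2) < (radp Λ Θ w : ℝ) := (hlarge Q hQ1 w hwT hwE).1
            have h4 : Q ^ (r / 2) = Y ^ (1 - r * δ0 / 2) := by
              rw [hQ, ← Real.rpow_mul hYpos.le]
              congr 1
              field_simp
            rw [h4] at h3
            have h5 : (Y ^ (1 - r * δ0 / 2)) ^ (1 / r + ε) ≤ (radp Λ Θ w : ℝ) ^ (1 / r + ε) :=
              Real.rpow_le_rpow (by positivity) h3.le (by positivity)
            rw [← Real.rpow_mul hYpos.le] at h5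
            have h6 : (Rf w x.1 * Rf w x.2.1 * Rf w x.2.2) ^ (1 / 3 + ε / 4) ≤
                Y ^ ((3 / r + μ) * (1 / 3 + ε / 4)) := by
              rw [Real.rpow_mul hYpos.le]
              have g1 := hRf1 w x.1
              have g2 := hRf1 w x.2.1
              have g3 := hRf1 w x.2.2
              exact Real.rpow_le_rpow (by positivity) hle (by positivity)
            calc Ct x.1 x.2.1 x.2.2 * (Rf w x.1 * Rf w x.2.1 * Rf w x.2.2) ^ (1 / 3 + ε / 4)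
                ≤ CT * Y ^ ((3 / r + μ) * (1 / 3 + ε / 4)) := by
                  apply mul_le_mul (hCTle x hx) h6 _ hCT0
                  have g1 := hRf1 w x.1
                  have g2 := hRf1 w x.2.1
                  have g3 := hRf1 w x.2.2
                  positivity
              _ < Y ^ (ε / 4) * Y ^ ((3 / r + μ) * (1 / 3 + ε / 4)) :=
                  mul_lt_mul_of_pos_right hYε (by positivity)
              _ = Y ^ ((3 / r + μ) * (1 / 3 + ε / 4) + ε / 4) := by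
                  rw [← Real.rpow_add hYpos]; congr 1; ring
              _ ≤ Y ^ ((1 - r * δ0 / 2) * (1 / r + ε)) :=
                  Real.rpow_le_rpow_of_exponent_le hY hexp1
              _ ≤ (radp Λ Θ w : ℝ) ^ (1 / r + ε) := h5
              _ < _ := hH w hwT)
          refine h1.trans ?_
          apply mul_le_mul_of_nonneg_left _ (by linarith)
          calc Y3 ^ (2 / 3 - δt x.1 x.2.1 x.2.2) ≤ Y3 ^ (2 / 3 - d1) :=
                Real.rpow_le_rpow_of_exponent_le hY31 (by linarith [hd1le x hx])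
            _ = Y ^ ((3 / r + μ) * (2 / 3 - d1)) := by rw [hY3, ← Real.rpow_mul hYpos.le]
            _ ≤ _ := Real.rpow_le_rpow_of_exponent_le hY hexp2
        · have h1 : F x = ∅ := by
            rw [hF]
            apply Finset.filter_eq_empty_iff.mpr
            intro w _ h
            exact hne ⟨h.1, h.2.1, h.2.2.1⟩
          rw [h1, Finset.card_empty]
          push_cast
          positivity
      have hcov : T ⊆ E ∪ Tr.biUnion F := by
        intro w hw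
        rw [Finset.mem_union]
        by_cases hwE : w ∈ E
        · exact Or.inl hwE
        right
        obtain ⟨_, a, ha, b, hb, c, hc, hab, hbc, hca, hle⟩ := hlarge Q hQ1 w hw hwE
        rw [Finset.mem_biUnion]
        refine ⟨(a, b, c), Finset.mem_product.mpr ⟨ha, Finset.mem_product.mpr ⟨hb, hc⟩⟩, ?_⟩
        rw [hF, Finset.mem_filter, Finset.mem_sdiff]
        refine ⟨⟨hw, hwE⟩, hab, hbc, hca, ?_⟩
        obtain ⟨_, _, _, _, k5⟩ := hT w hw
        have h1 : Rf w a * Rf w b * Rf w c * Q ^ ((r - 3) / 2) ≤ Y3 * Q ^ ((r - 3) / 2) := by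
          refine (hle.trans k5).trans (le_of_eq ?_)
          rw [hY3, hQ, ← Real.rpow_mul hYpos.le, ← Real.rpow_add hYpos]
          have : 3 / r + μ + (2 / r - δ0) * ((r - 3) / 2) = 1 := by
            rw [hμ]; field_simp; ring
          rw [this, Real.rpow_one]
        exact le_of_mul_le_mul_right h1 (by positivity)
      have h1 : T.card ≤ E.card + ∑ x ∈ Tr, (F x).card :=
        (Finset.card_le_card hcov).trans ((Finset.card_union_le _ _).trans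
          (Nat.add_le_add_left Finset.card_biUnion_le _))
      have h2 : (T.card : ℝ) ≤ (E.card : ℝ) + ∑ x ∈ Tr, ((F x).card : ℝ) := by exact_mod_cast h1
      have h3 : (E.card : ℝ) ≤ CS * Y ^ (2 / r - δ) := by
        have h4 := hsmall Q (by linarith)
        refine h4.trans ?_
        rw [mul_assoc]
        apply mul_le_mul_of_nonneg_left _ hCS0
        rw [hQ, ← Real.rpow_add hYpos]
        apply Real.rpow_le_rpow_of_exponent_le hY
        have : δ ≤ δ0 / 2 := min_le_left _ _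
        linarith
      have h4 : ∑ x ∈ Tr, ((F x).card : ℝ) ≤ CT * Y ^ (2 / r - δ) := by
        rw [hCT, Finset.sum_mul]
        apply Finset.sum_le_sum
        intro x hx
        refine (hFle x hx).trans ?_
        apply mul_le_mul_of_nonneg_left _ (by linarith [hCt x.1 x.2.1 x.2.2])
        apply Real.rpow_le_rpow_of_exponent_le hY
        have : δ ≤ d1 / r := min_le_right _ _
        linarith
      have h5 : 0 ≤ 9 * Y0 ^ (2 * κ) := by positivity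
      calc (T.card : ℝ) ≤ (CS + CT) * Y ^ (2 / r - δ) := by linarith
        _ ≤ _ := by
            apply mul_le_mul_of_nonneg_right _ (by linarith)
            linarith

end Fm

end Pool.Agent.Lib.MP_d8bd92_nt
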