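import Pool.Agent.Lib.MP_d8bd92_nt.FmD
import Pool.Agent.Lib.MP_d8bd92_nt.FamForm
import Pool.Agent.Lib.MP_d8bd92_nt.FamAlg

set_option autoImplicit false

/-!
From a polynomial all of whose irreducible factors have degree at most two to linear and quadratic forms.
-/

namespace Pool.Agent.Lib.MP_d8bd92_nt

open Finset Polynomial UniqueFactorizationMonoid Pool.Agent.Lib.Szpiro

namespace Fm

theorem prime_dvd_bezout (f g P Q : ℤ[X]) (ρ : ℤ) (h : P * f + Q * g = C ρ) (n1 n2 : ℕ)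
    (hf : f.natDegree ≤ n1) (hg : g.natDegree ≤ n2) (a b : ℤ) (p : ℕ) (hp : p.Prime)
    (hpb : ¬ (p : ℤ) ∣ b) (h1 : (p : ℤ) ∣ hev n1 f a b) (h2 : (p : ℤ) ∣ hev n2 g a b) :
    (p : ℤ) ∣ ρ := by
  have hpp : Prime (p : ℤ) := Nat.prime_iff_prime_int.mp hp
  have hcop : IsCoprime (p : ℤ) b := (Prime.coprime_iff_not_dvd hpp).mpr hpb
  obtain ⟨u, v, huv⟩ := hcop
  -- u * p + v * b = 1
  set x : ℤ := a * v with hx
  have hxd : (p : ℤ) ∣ a - x * b := by
    refine ⟨a * u, ?_⟩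
    rw [hx]
    linear_combination (-a) * huv
  have hpow : ∀ n : ℕ, ¬ (p : ℤ) ∣ b ^ n := fun n hn => hpb (hpp.dvd_of_dvd_pow hn)
  have e1 : (p : ℤ) ∣ f.eval x := by
    have h3 := hev_modEq n1 f hf a b x p hxd
    have h4 : (p : ℤ) ∣ b ^ n1 * f.eval x := (dvd_iff_dvd_of_dvd_sub h3).mp h1
    exact (hpp.dvd_or_dvd h4).resolve_left (hpow n1)
  have e2 : (p : ℤ) ∣ g.eval x := by
    have h3 := hev_modEq n2 g hg a b x p hxd
    have h4 : (p : ℤ) ∣ b ^ n2 * g.eval x := (dvd_iff_dvd_of_dvd_sub h3).mp h2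
    exact (hpp.dvd_or_dvd h4).resolve_left (hpow n2)
  have h5 := congrArg (Polynomial.eval x) h
  rw [eval_add, eval_mul, eval_mul, eval_C] at h5
  rw [← h5]
  exact dvd_add (e1.mul_left _) (e2.mul_left _)

theorem prod_rad_le {ι : Type*} (I : Finset ι) (n : ι → ℕ) (M D : ℕ) (hM : M ≠ 0) (hD : D ≠ 0)
    (h1 : ∀ p : ℕ, p.Prime → ¬ p ∣ M → ∀ i ∈ I, p ∣ n i → p ∣ D)
    (h2 : ∀ p : ℕ, p.Prime → ¬ p ∣ M → ∀ i ∈ I, ∀ j ∈ I, p ∣ n i → p ∣ n j → i = j) :
    ∏ i ∈ I, (∏ p ∈ (n i).primeFactors, p) ≤ M ^ I.card * ∏ p ∈ D.primeFactors, p := by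
  classical
  have h3 : ∀ i ∈ I, (∏ p ∈ (n i).primeFactors, p) ≤
      M * ∏ p ∈ (n i).primeFactors.filter (fun p => ¬ p ∣ M), p := by
    intro i _
    have e1 := Finset.prod_filter_mul_prod_filter_not (n i).primeFactors (fun p => p ∣ M) (fun p => p)
    rw [← e1]
    apply Nat.mul_le_mul_right
    apply Nat.le_of_dvd (Nat.pos_of_ne_zero hM)
    refine dvd_trans ?_ (Nat.prod_primeFactors_dvd M)
    apply Finset.prod_dvd_prod_of_subset
    intro p hp
    rw [Finset.mem_filter] at hp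
    exact Nat.mem_primeFactors.mpr ⟨Nat.prime_of_mem_primeFactors hp.1, hp.2, hM⟩
  refine (Finset.prod_le_prod' h3).trans ?_
  rw [Finset.prod_mul_distrib, Finset.prod_const]
  apply Nat.mul_le_mul_left
  rw [← Finset.prod_biUnion]
  · apply Nat.le_of_dvd
    · exact Finset.prod_pos (fun p hp => (Nat.prime_of_mem_primeFactors hp).pos)
    · apply Finset.prod_dvd_prod_of_subset
      intro p hp
      rw [Finset.mem_biUnion] at hp
      obtain ⟨i, hi, hp⟩ := hp
      rw [Finset.mem_filter] at hp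
      have hpp := Nat.prime_of_mem_primeFactors hp.1
      exact Nat.mem_primeFactors.mpr ⟨hpp, h1 p hpp hp.2 i hi (Nat.dvd_of_mem_primeFactors hp.1), hD⟩
  · intro i hi j hj hij
    rw [Function.onFun, Finset.disjoint_left]
    intro p hp hp'
    rw [Finset.mem_filter] at hp hp'
    have hpp := Nat.prime_of_mem_primeFactors hp.1
    exact hij (h2 p hpp hp.2 i hi j hj (Nat.dvd_of_mem_primeFactors hp.1)
      (Nat.dvd_of_mem_primeFactors hp'.1))

theorem mason_general (J1 J2 P Q : ℚ[X]) (c c' : ℚ) (hcop : IsCoprime J1 J2)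
    (hnc : 0 < J1.natDegree ∨ 0 < J2.natDegree) (hc : c ≠ 0) (hc' : c' ≠ 0)
    (h1 : J1 = C c * P ^ 3) (h3 : J1 - C 1728 * J2 = C c' * Q ^ 2) :
    J1.natDegree + 6 ≤ 6 * (radical J2).natDegree ∧
      J2.natDegree + 6 ≤ 6 * (radical J2).natDegree := by
  classical
  have h1728 : (C (1728 : ℚ) : ℚ[X]) ≠ 0 := C_ne_zero.mpr (by norm_num)
  have hu : IsUnit (C (1728 : ℚ) : ℚ[X]) := isUnit_C.mpr (by norm_num)
  have hJ2 : J2 ≠ 0 := by
    intro h
    rw [h] at hcop hnc
    have h2 := natDegree_eq_zero_of_isUnit (isCoprime_zero_right.mp hcop)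
    rw [natDegree_zero, h2] at hnc
    omega
  have hJ1 : J1 ≠ 0 := by
    intro h
    rw [h] at hcop hnc
    have h2 := natDegree_eq_zero_of_isUnit (isCoprime_zero_left.mp hcop)
    rw [natDegree_zero, h2] at hnc
    omega
  have hJ3 : J1 - C 1728 * J2 ≠ 0 := by
    intro h
    have h2 : J1 = C 1728 * J2 := sub_eq_zero.mp h
    have h4 : J2 ∣ J1 := ⟨C 1728, by rw [h2]; ring⟩
    have h5 : IsUnit J2 := hcop.isUnit_of_dvd' h4 dvd_rfl
    have h6 : J2.natDegree = 0 := natDegree_eq_zero_of_isUnit h5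
    have h7 : J1.natDegree = 0 := by
      rw [h2, natDegree_C_mul (by norm_num), h6]
    omega
  have hP : P ≠ 0 := by
    intro h; rw [h] at h1; apply hJ1; rw [h1]; ring
  have hQ : Q ≠ 0 := by
    intro h; rw [h] at h3; apply hJ3; rw [h3]; ring
  have hd1 : J1.natDegree = 3 * P.natDegree := by
    rw [h1, natDegree_C_mul hc, natDegree_pow]
  have hd3 : (J1 - C 1728 * J2).natDegree = 2 * Q.natDegree := by
    rw [h3, natDegree_C_mul hc', natDegree_pow]
  have hcop2 : IsCoprime J1 (-(J1 - C 1728 * J2)) := by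
    have e1 : -(J1 - C 1728 * J2) = C 1728 * J2 + J1 * (-1) := by ring
    rw [e1]
    apply IsCoprime.add_mul_left_right
    exact (isCoprime_mul_unit_left_right hu _ _).mpr hcop
  have hsum : J1 + -(J1 - C 1728 * J2) + -(C 1728 * J2) = 0 := by ring
  have habc := Polynomial.abc hJ1 (neg_ne_zero.mpr hJ3)
    (neg_ne_zero.mpr (mul_ne_zero h1728 hJ2)) hcop2 hsum
  have hradle : (radical (J1 * -(J1 - C 1728 * J2) * -(C 1728 * J2))).natDegree ≤
      P.natDegree + Q.natDegree + (radical J2).natDegree := by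
    have hraddvd : radical (J1 * -(J1 - C 1728 * J2) * -(C 1728 * J2)) ∣ P * Q * radical J2 := by
      rw [← exists_dvd_pow_iff_radical_dvd]
      · obtain ⟨n, hn⟩ := exists_dvd_radical_self_pow hJ2
        refine ⟨3 + n, ?_⟩
        have e1 : (P * Q * radical J2) ^ (3 + n) =
            (P ^ 3 * P ^ n) * (Q ^ 2 * (Q * Q ^ n)) * ((radical J2) ^ 3 * (radical J2) ^ n) := by
          ring
        rw [e1]
        have huc : IsUnit (C c : ℚ[X]) := isUnit_C.mpr (isUnit_iff_ne_zero.mpr hc)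
        have huc' : IsUnit (C c' : ℚ[X]) := isUnit_C.mpr (isUnit_iff_ne_zero.mpr hc')
        apply mul_dvd_mul
        · apply mul_dvd_mul
          · rw [h1, huc.mul_left_dvd]; exact dvd_mul_right _ _
          · rw [neg_dvd, h3, huc'.mul_left_dvd]; exact dvd_mul_right _ _
        · rw [neg_dvd, hu.mul_left_dvd]
          exact hn.mul_left _
      · exact mul_ne_zero (mul_ne_zero hJ1 (neg_ne_zero.mpr hJ3))
          (neg_ne_zero.mpr (mul_ne_zero h1728 hJ2))
    have hne : P * Q * radical J2 ≠ 0 := mul_ne_zero (mul_ne_zero hP hQ) radical_ne_zero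
    have h5 := natDegree_le_of_dvd hraddvd hne
    rw [natDegree_mul (mul_ne_zero hP hQ) radical_ne_zero, natDegree_mul hP hQ] at h5
    exact h5
  have hdc : (-(C 1728 * J2)).natDegree = J2.natDegree := by
    rw [natDegree_neg, natDegree_C_mul (by norm_num)]
  rcases habc with ⟨e1, e2, e3⟩ | ⟨e1, _, e3⟩
  · rw [hd1] at e1
    rw [natDegree_neg, hd3] at e2
    rw [hdc] at e3
    rw [hd1]
    constructor <;> omega
  · exfalso
    have e4 := Polynomial.derivative_eq_zero.mp e1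
    have e5 := Polynomial.derivative_eq_zero.mp e3
    rw [hdc] at e5
    omega

theorem hev_pow_int (n : ℕ) (f : ℤ[X]) (hf : f.natDegree ≤ n) (a b : ℤ) (k : ℕ) :
    hev (k * n) (f ^ k) a b = hev n f a b ^ k := by
  induction k with
  | zero =>
    rw [zero_mul, pow_zero, pow_zero]
    unfold hev
    simp
  | succ k ih =>
    rw [pow_succ, pow_succ, ← ih, Nat.succ_mul]
    apply hev_mul_int
    · exact natDegree_pow_le_of_le k hf
    · exact hf

theorem hev_prod_int {ι : Type*} [DecidableEq ι] (F : Finset ι) (R : ι → ℤ[X]) (a b : ℤ) :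
    hev (∑ p ∈ F, (R p).natDegree) (∏ p ∈ F, R p) a b =
      ∏ p ∈ F, hev (R p).natDegree (R p) a b := by
  induction F using Finset.induction_on with
  | empty =>
    simp only [Finset.sum_empty, Finset.prod_empty]
    unfold hev
    simp
  | insert p F hp ih =>
    rw [Finset.sum_insert hp, Finset.prod_insert hp, Finset.prod_insert hp, ← ih]
    apply hev_mul_int
    · exact le_rfl
    · exact natDegree_prod_le _ _

theorem multiset_prod_dvd_pow {R : Type*} [CommMonoid R] (s : Multiset R) (P : R)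
    (h : ∀ p ∈ s, p ∣ P) : s.prod ∣ P ^ s.card := by
  induction s using Multiset.induction_on with
  | empty => simp
  | cons a s ih =>
    rw [Multiset.prod_cons, Multiset.card_cons, pow_succ, mul_comm]
    exact mul_dvd_mul (ih (fun p hp => h p (Multiset.mem_cons_of_mem hp)))
      (h a (Multiset.mem_cons_self _ _))

theorem factor_data2 (J : ℤ[X]) (hJ : J ≠ 0) (F : Finset ℚ[X])
    (hF : ∀ p, p ∈ F ↔ p ∈ normalizedFactors (J.map (Int.castRingHom ℚ))) :
    ∃ (R : ℚ[X] → ℤ[X]) (M : ℕ), M ≠ 0 ∧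
      (∀ p ∈ F, R p ∣ J ∧ (R p).natDegree = p.natDegree ∧
        (∃ u : ℚ, u ≠ 0 ∧ (R p).map (Int.castRingHom ℚ) = C u * p) ∧
        (∀ a b : ℤ, IsCoprime a b → ∀ l : ℕ, l.Prime → ¬ l ∣ M → (l : ℤ) ∣ b →
          ¬ (l : ℤ) ∣ hev (R p).natDegree (R p) a b)) ∧
      (∀ p ∈ F, ∀ q ∈ F, ∀ a b : ℤ, IsCoprime a b → ∀ l : ℕ, l.Prime → ¬ l ∣ M →
        (l : ℤ) ∣ hev (R p).natDegree (R p) a b → (l : ℤ) ∣ hev (R q).natDegree (R q) a b →
        p = q) ∧
      (∀ a b : ℤ, ∀ l : ℕ, l.Prime → ¬ l ∣ M → (l : ℤ) ∣ hev J.natDegree J a b →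
        ∃ p ∈ F, (l : ℤ) ∣ hev (R p).natDegree (R p) a b) := by
  classical
  set φ := Int.castRingHom ℚ with hφ
  have hJq : J.map φ ≠ 0 := by
    intro h
    apply hJ
    apply map_cast_injective
    rw [← hφ, h, Polynomial.map_zero]
  have hex : ∀ p : ℚ[X], ∃ R : ℤ[X], p ∈ F → (R.IsPrimitive ∧ ∃ u : ℚ, u ≠ 0 ∧ R.map φ = C u * p) := by
    intro p
    by_cases hp : p ∈ F
    · have h1 : p ≠ 0 := (irreducible_of_normalized_factor p ((hF p).mp hp)).ne_zero
      obtain ⟨R, hR⟩ := exists_primitive p h1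
      exact ⟨R, fun _ => hR⟩
    · exact ⟨0, fun h => absurd h hp⟩
  choose R hR using hex
  have hassoc : ∀ p ∈ F, Associated p ((R p).map φ) := by
    intro p hp
    obtain ⟨_, u, hu, hRu⟩ := hR p hp
    have hCu : IsUnit (C u : ℚ[X]) := isUnit_C.mpr (isUnit_iff_ne_zero.mpr hu)
    rw [hRu]
    exact (associated_unit_mul_left p _ hCu).symm
  have hcopR : ∀ p ∈ F, ∀ q ∈ F, p ≠ q → IsCoprime ((R p).map φ) ((R q).map φ) := by
    intro p hp q hq hpq
    have hip := irreducible_of_normalized_factor p ((hF p).mp hp)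
    have hiq := irreducible_of_normalized_factor q ((hF q).mp hq)
    have hcop : IsCoprime p q := by
      apply (hip.coprime_iff_not_dvd).mpr
      intro hdvd
      have h1 : Associated p q := hip.associated_of_dvd hiq hdvd
      have h2 : p = q := by
        have e1 := normalize_normalized_factor p ((hF p).mp hp)
        have e2 := normalize_normalized_factor q ((hF q).mp hq)
        rw [← e1, ← e2]
        exact normalize_eq_normalize_iff_associated.mpr h1
      exact hpq h2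
    obtain ⟨_, u, hu, hRu⟩ := hR p hp
    obtain ⟨_, v, hv, hRv⟩ := hR q hq
    have hCu : IsUnit (C u : ℚ[X]) := isUnit_C.mpr (isUnit_iff_ne_zero.mpr hu)
    have hCv : IsUnit (C v : ℚ[X]) := isUnit_C.mpr (isUnit_iff_ne_zero.mpr hv)
    rw [hRu, hRv]
    exact (isCoprime_mul_unit_left_left hCu _ _).mpr
      ((isCoprime_mul_unit_left_right hCv _ _).mpr hcop)
  have hbez : ∀ p q : ℚ[X], ∃ ρ : ℤ, ρ ≠ 0 ∧ (p ∈ F → q ∈ F → p ≠ q →
      ∃ (P Q : ℤ[X]), P * R p + Q * R q = C ρ) := by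
    intro p q
    by_cases h : p ∈ F ∧ q ∈ F ∧ p ≠ q
    · obtain ⟨P, Q, ρ, hρ, hPQ⟩ := exists_bezout_int (R p) (R q) (hcopR p h.1 q h.2.1 h.2.2)
      exact ⟨ρ, hρ, fun _ _ _ => ⟨P, Q, hPQ⟩⟩
    · exact ⟨1, one_ne_zero, fun h1 h2 h3 => absurd ⟨h1, h2, h3⟩ h⟩
  choose ρ hρ0 hρ using hbez
  have hR0 : ∀ p ∈ F, R p ≠ 0 := by
    intro p hp
    exact (hR p hp).1.ne_zero
  -- `J` divides a power of the product
  have hpow : ∃ (n : ℤ) (k : ℕ) (S : ℤ[X]), n ≠ 0 ∧ C n * (∏ p ∈ F, R p) ^ k = J * S := by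
    set P : ℚ[X] := ∏ p ∈ F, (R p).map φ with hP
    have h1 : ∀ p ∈ normalizedFactors (J.map φ), p ∣ P := by
      intro p hp
      have hpF : p ∈ F := (hF p).mpr hp
      exact (hassoc p hpF).dvd.trans (Finset.dvd_prod_of_mem (fun p => (R p).map φ) hpF)
    have h2 := multiset_prod_dvd_pow _ _ h1
    have h3 : J.map φ ∣ P ^ (normalizedFactors (J.map φ)).card :=
      (prod_normalizedFactors hJq).symm.dvd.trans h2
    obtain ⟨S, hS⟩ := h3
    obtain ⟨S1, n, hn, hS1⟩ := exists_int_poly S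
    refine ⟨n, (normalizedFactors (J.map φ)).card, S1, hn, ?_⟩
    apply map_cast_injective
    have e1 : (∏ p ∈ F, R p).map φ = P := by rw [Polynomial.map_prod]
    rw [← hφ, Polynomial.map_mul, Polynomial.map_mul, Polynomial.map_pow, e1, hS, map_C, hS1]
    simp only [hφ, eq_intCast]
    ring
  obtain ⟨n, k, S, hn, hS⟩ := hpow
  set M : ℕ := (∏ p ∈ F, (R p).leadingCoeff.natAbs) * (∏ p ∈ F, ∏ q ∈ F, (ρ p q).natAbs) * n.natAbs
    with hM
  have hlead : ∀ p ∈ F, ∀ a b : ℤ, IsCoprime a b → ∀ l : ℕ, l.Prime → (l : ℤ) ∣ b →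
      (l : ℤ) ∣ hev (R p).natDegree (R p) a b → l ∣ M := by
    intro p hp a b hab l hl hlb h1
    have h3 := prime_dvd_coeff_of_dvd _ (R p) a b l (Nat.prime_iff_prime_int.mp hl) hab hlb h1
    have h4 : l ∣ (R p).leadingCoeff.natAbs := Int.natCast_dvd.mp h3
    rw [hM, mul_assoc]
    exact (h4.trans (Finset.dvd_prod_of_mem (fun p => (R p).leadingCoeff.natAbs) hp)).mul_right _
  refine ⟨R, M, ?_, ?_, ?_, ?_⟩
  · rw [hM]
    apply mul_ne_zero
    apply mul_ne_zero
    · apply Finset.prod_ne_zero_iff.mpr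
      intro p hp
      exact Int.natAbs_ne_zero.mpr (leadingCoeff_ne_zero.mpr (hR0 p hp))
    · apply Finset.prod_ne_zero_iff.mpr
      intro p _
      apply Finset.prod_ne_zero_iff.mpr
      intro q _
      exact Int.natAbs_ne_zero.mpr (hρ0 p q)
    · exact Int.natAbs_ne_zero.mpr hn
  · intro p hp
    obtain ⟨hprim, u, hu, hRu⟩ := hR p hp
    have hdeg : (R p).natDegree = p.natDegree := by
      rw [← natDegree_map_eq_of_injective φ.injective_int (R p), hRu, natDegree_C_mul hu]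
    refine ⟨?_, hdeg, ⟨u, hu, hRu⟩, ?_⟩
    · rw [IsPrimitive.Int.dvd_iff_map_cast_dvd_map_cast (R p) J hprim]
      exact (hassoc p hp).symm.dvd.trans (dvd_of_mem_normalizedFactors ((hF p).mp hp))
    · intro a b hab l hl hlM hlb h1
      exact hlM (hlead p hp a b hab l hl hlb h1)
  · intro p hp q hq a b hab l hl hlM h1' h2'
    by_contra hpq
    obtain ⟨P, Q, hPQ⟩ := hρ p q hp hq hpq
    apply hlM
    by_cases hlb : (l : ℤ) ∣ b
    · exact hlead p hp a b hab l hl hlb h1'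
    · have h3 := prime_dvd_bezout (R p) (R q) P Q (ρ p q) hPQ _ _ le_rfl le_rfl a b l hl hlb h1' h2'
      have h4 : l ∣ (ρ p q).natAbs := Int.natCast_dvd.mp h3
      have h5 : (ρ p q).natAbs ∣ ∏ q ∈ F, (ρ p q).natAbs :=
        Finset.dvd_prod_of_mem (fun q => (ρ p q).natAbs) hq
      have h6 : ∏ q ∈ F, (ρ p q).natAbs ∣ ∏ p ∈ F, ∏ q ∈ F, (ρ p q).natAbs :=
        Finset.dvd_prod_of_mem (fun p => ∏ q ∈ F, (ρ p q).natAbs) hp
      rw [hM]
      exact (((h4.trans h5).trans h6).mul_left _).mul_right _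
  · intro a b l hl hlM hlJ
    have hlp : Prime (l : ℤ) := Nat.prime_iff_prime_int.mp hl
    have hPne : (∏ p ∈ F, R p) ≠ 0 := Finset.prod_ne_zero_iff.mpr hR0
    have hlhs : C n * (∏ p ∈ F, R p) ^ k ≠ 0 := by
      apply mul_ne_zero
      · rw [Ne, C_eq_zero]; exact hn
      · exact pow_ne_zero _ hPne
    have hS0 : S ≠ 0 := by
      intro h
      rw [h, mul_zero] at hS
      exact hlhs hS
    have hdegs : J.natDegree + S.natDegree = k * ∑ p ∈ F, (R p).natDegree := by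
      rw [← natDegree_mul hJ hS0, ← hS, natDegree_C_mul hn, natDegree_pow, natDegree_prod _ _ hR0]
    have e1 : hev (J.natDegree + S.natDegree) (J * S) a b =
        hev J.natDegree J a b * hev S.natDegree S a b := hev_mul_int _ _ _ _ le_rfl le_rfl _ _
    have e2 : hev (J.natDegree + S.natDegree) (J * S) a b =
        n * (∏ p ∈ F, hev (R p).natDegree (R p) a b) ^ k := by
      rw [← hS, hdegs]
      have e3 : hev (0 + k * ∑ p ∈ F, (R p).natDegree) (C n * (∏ p ∈ F, R p) ^ k) a b =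
          hev 0 (C n) a b * hev (k * ∑ p ∈ F, (R p).natDegree) ((∏ p ∈ F, R p) ^ k) a b := by
        apply hev_mul_int
        · rw [natDegree_C]
        · exact natDegree_pow_le_of_le k (natDegree_prod_le _ _)
      rw [zero_add] at e3
      rw [e3, hev_pow_int _ _ (natDegree_prod_le _ _), hev_prod_int]
      congr 1
      unfold hev
      simp
    have h1 : (l : ℤ) ∣ n * (∏ p ∈ F, hev (R p).natDegree (R p) a b) ^ k := by
      rw [← e2, e1]; exact hlJ.mul_right _
    rcases hlp.dvd_or_dvd h1 with h2 | h2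
    · exfalso
      apply hlM
      rw [hM]
      exact (Int.natCast_dvd.mp h2).mul_left _
    · have h3 := hlp.dvd_of_dvd_pow h2
      obtain ⟨p, hp, h4⟩ := (Prime.dvd_finsetProd_iff hlp _).mp h3
      exact ⟨p, hp, h4⟩

end Fm

end Pool.Agent.Lib.MP_d8bd92_nt
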