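import Pool.Agent.Lib.MP_d8bd92_nt.FmE

set_option autoImplicit false

/-!
From a polynomial all of whose irreducible factors have degree at most two to linear and quadratic forms.
-/

namespace Pool.Agent.Lib.MP_d8bd92_nt

open Finset Polynomial UniqueFactorizationMonoid Pool.Agent.Lib.Szpiro

namespace Fm

theorem hev_one_eq (f : ℤ[X]) (a b : ℤ) : hev 1 f a b = lf (f.coeff 1, f.coeff 0) (a, b) := by
  unfold hev lf
  rw [Finset.sum_range_succ, Finset.sum_range_succ, Finset.sum_range_zero]
  simp only [pow_zero, pow_one, mul_one, zero_add, Nat.sub_zero, Nat.sub_self]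
  ring

theorem hev_two_eq (f : ℤ[X]) (a b : ℤ) :
    hev 2 f a b = qf (f.coeff 2, f.coeff 1, f.coeff 0) (a, b) := by
  unfold hev qf
  rw [Finset.sum_range_succ, Finset.sum_range_succ, Finset.sum_range_succ, Finset.sum_range_zero]
  simp only [pow_zero, pow_one, mul_one, zero_add, Nat.sub_zero, Nat.sub_self]
  ring

theorem forms_data (J : ℤ[X]) (hJ : J ≠ 0) (m : ℕ) (hm : J.natDegree ≤ m) (F : Finset ℚ[X])
    (hF : ∀ p, p ∈ F ↔ p ∈ normalizedFactors (J.map (Int.castRingHom ℚ)))
    (hdeg : ∀ p ∈ F, p.natDegree ≤ 2) :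
    ∃ (Λ : Finset (ℤ × ℤ)) (Θ : Finset (ℤ × ℤ × ℤ)) (M : ℕ), M ≠ 0 ∧
      (∀ l ∈ Λ, ∀ l' ∈ Λ, l ≠ l' → dt l l' ≠ 0) ∧ (∀ q ∈ Θ, ¬ IsSquare (qdisc q)) ∧
      Λ.card = (F.filter (fun p => p.natDegree = 1)).card + (if J.natDegree < m then 1 else 0) ∧
      Λ.card + 2 * Θ.card = ∑ p ∈ F, p.natDegree + (if J.natDegree < m then 1 else 0) ∧
      ∀ a b : ℤ, IsCoprime a b →
        (∀ l ∈ Λ, lf l (a, b) ∣ hev m J a b) ∧ (∀ q ∈ Θ, qf q (a, b) ∣ hev m J a b) ∧
        (∀ M0 D : ℕ, M0 ≠ 0 → D ≠ 0 →
          (∀ p : ℕ, p.Prime → ¬ p ∣ M0 → p ∣ (hev m J a b).natAbs → p ∣ D) →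
          radp Λ Θ (a, b) ≤ (M * M0) ^ (Λ.card + Θ.card) * rd D) ∧
        (∀ p : ℕ, p.Prime → ¬ p ∣ M → (p : ℤ) ∣ hev m J a b →
          (∃ l ∈ Λ, (p : ℤ) ∣ lf l (a, b)) ∨ ∃ q ∈ Θ, (p : ℤ) ∣ qf q (a, b)) := by
  classical
  obtain ⟨R, M, hM, hR, hpair, hprime⟩ := factor_data2 J hJ F hF
  set φ := Int.castRingHom ℚ with hφ
  -- basic facts on the factors
  have hirr : ∀ p ∈ F, Irreducible p := fun p hp => irreducible_of_normalized_factor p ((hF p).mp hp)
  have hmonic : ∀ p ∈ F, p.Monic := by
    intro p hp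
    have h1 := normalize_normalized_factor p ((hF p).mp hp)
    rw [← h1]
    exact Polynomial.monic_normalize (hirr p hp).ne_zero
  have hpos : ∀ p ∈ F, 1 ≤ p.natDegree := fun p hp => (hirr p hp).natDegree_pos
  set F1 := F.filter (fun p => p.natDegree = 1) with hF1
  set F2 := F.filter (fun p => p.natDegree = 2) with hF2
  have hF12 : F = F1 ∪ F2 := by
    ext p
    rw [Finset.mem_union, hF1, hF2, Finset.mem_filter, Finset.mem_filter]
    constructor
    · intro hp
      have h1 := hpos p hp
      have h2 := hdeg p hp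
      rcases (by omega : p.natDegree = 1 ∨ p.natDegree = 2) with h | h
      · exact Or.inl ⟨hp, h⟩
      · exact Or.inr ⟨hp, h⟩
    · rintro (h | h) <;> exact h.1
  have hdisj : Disjoint F1 F2 := by
    rw [Finset.disjoint_left]
    intro p h1 h2
    rw [hF1, Finset.mem_filter] at h1
    rw [hF2, Finset.mem_filter] at h2
    omega
  have hF1F : ∀ p ∈ F1, p ∈ F ∧ p.natDegree = 1 := fun p hp => Finset.mem_filter.mp hp
  have hF2F : ∀ p ∈ F2, p ∈ F ∧ p.natDegree = 2 := fun p hp => Finset.mem_filter.mp hp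
  have hcoef : ∀ p ∈ F, ∃ u : ℚ, u ≠ 0 ∧ ∀ i, (((R p).coeff i : ℤ) : ℚ) = u * p.coeff i := by
    intro p hp
    obtain ⟨_, _, ⟨u, hu, hRu⟩, _⟩ := hR p hp
    refine ⟨u, hu, fun i => ?_⟩
    have h1 := congrArg (fun f : ℚ[X] => f.coeff i) hRu
    simp only [coeff_map, coeff_C_mul] at h1
    exact h1
  set lin : ℚ[X] → ℤ × ℤ := fun p => ((R p).coeff 1, (R p).coeff 0) with hlin
  set quad : ℚ[X] → ℤ × ℤ × ℤ := fun p => ((R p).coeff 2, (R p).coeff 1, (R p).coeff 0) with hquad
  have hlc1 : ∀ p ∈ F1, p.coeff 1 = 1 := by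
    intro p hp
    obtain ⟨hpF, hd⟩ := hF1F p hp
    have := hmonic p hpF
    rw [Polynomial.Monic, Polynomial.leadingCoeff, hd] at this
    exact this
  have hlc2 : ∀ p ∈ F2, p.coeff 2 = 1 := by
    intro p hp
    obtain ⟨hpF, hd⟩ := hF2F p hp
    have := hmonic p hpF
    rw [Polynomial.Monic, Polynomial.leadingCoeff, hd] at this
    exact this
  have hlin1 : ∀ p ∈ F1, (lin p).1 ≠ 0 := by
    intro p hp h
    obtain ⟨u, hu, hc⟩ := hcoef p (hF1F p hp).1
    have h1 := hc 1
    rw [hlc1 p hp, mul_one] at h1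
    simp only [hlin] at h
    rw [h] at h1
    push_cast at h1
    exact hu h1.symm
  have hdtlin : ∀ p ∈ F1, ∀ q ∈ F1, p ≠ q → dt (lin p) (lin q) ≠ 0 := by
    intro p hp q hq hpq h
    obtain ⟨u, hu, hc⟩ := hcoef p (hF1F p hp).1
    obtain ⟨v, hv, hc'⟩ := hcoef q (hF1F q hq).1
    have h1 : ((dt (lin p) (lin q) : ℤ) : ℚ) = 0 := by rw [h]; norm_num
    simp only [dt, hlin] at h1
    push_cast at h1
    rw [hc 1, hc 0, hc' 1, hc' 0, hlc1 p hp, hlc1 q hq] at h1
    have h2 : u * v * (q.coeff 0 - p.coeff 0) = 0 := by linear_combination h1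
    have h3 : q.coeff 0 = p.coeff 0 := by
      rcases mul_eq_zero.mp h2 with h4 | h4
      · exact absurd h4 (mul_ne_zero hu hv)
      · linarith
    apply hpq
    rw [(hmonic p (hF1F p hp).1).eq_X_add_C (hF1F p hp).2,
      (hmonic q (hF1F q hq).1).eq_X_add_C (hF1F q hq).2, h3]
  have hlininj : Set.InjOn lin F1 := by
    intro p hp q hq hpq
    by_contra hne
    apply hdtlin p hp q hq hne
    rw [hpq]; unfold dt; ring
  have hquadinj : Set.InjOn quad F2 := by
    intro p hp q hq hpq
    obtain ⟨u, hu, hc⟩ := hcoef p (hF2F p hp).1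
    obtain ⟨v, hv, hc'⟩ := hcoef q (hF2F q hq).1
    simp only [hquad, Prod.mk.injEq] at hpq
    obtain ⟨g2, g1, g0⟩ := hpq
    have e2 := hc 2
    have e2' := hc' 2
    rw [g2, e2', hlc2 p hp, hlc2 q hq, mul_one, mul_one] at e2
    have e1 := hc 1
    rw [g1, hc' 1, e2] at e1
    have e0 := hc 0
    rw [g0, hc' 0, e2] at e0
    have f1 := mul_left_cancel₀ hu e1
    have f0 := mul_left_cancel₀ hu e0
    ext i
    rcases (by omega : i = 0 ∨ i = 1 ∨ i = 2 ∨ 2 < i) with h | h | h | h
    · rw [h]; exact f0.symm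
    · rw [h]; exact f1.symm
    · rw [h, hlc2 p hp, hlc2 q hq]
    · rw [coeff_eq_zero_of_natDegree_lt (by rw [(hF2F p hp).2]; exact h),
        coeff_eq_zero_of_natDegree_lt (by rw [(hF2F q hq).2]; exact h)]
  have hquadsq : ∀ p ∈ F2, ¬ IsSquare (qdisc (quad p)) := by
    rintro p hp ⟨k, hk⟩
    obtain ⟨hpF, hd⟩ := hF2F p hp
    obtain ⟨u, hu, hc⟩ := hcoef p hpF
    have h1 : ((qdisc (quad p) : ℤ) : ℚ) = (k : ℚ) * k := by rw [hk]; push_cast; ring
    simp only [qdisc, hquad] at h1
    push_cast at h1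
    rw [hc 2, hc 1, hc 0, hlc2 p hp] at h1
    set s : ℚ := k / u with hs
    have hks : (k : ℚ) = u * s := by rw [hs]; field_simp
    have h2 : p.coeff 1 ^ 2 - 4 * p.coeff 0 = s ^ 2 := by
      rw [hks] at h1
      have h3 : u ^ 2 * (p.coeff 1 ^ 2 - 4 * p.coeff 0) = u ^ 2 * s ^ 2 := by linear_combination h1
      exact mul_left_cancel₀ (pow_ne_zero 2 hu) h3
    have hroot : p.IsRoot ((-p.coeff 1 + s) / 2) := by
      rw [Polynomial.IsRoot, Polynomial.eval_eq_sum_range, hd]
      rw [Finset.sum_range_succ, Finset.sum_range_succ, Finset.sum_range_succ,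
        Finset.sum_range_zero, hlc2 p hp]
      linear_combination (-1 / 4 : ℚ) * h2
    have h3 := Polynomial.degree_eq_one_of_irreducible_of_root (hirr p hpF) hroot
    have h4 : p.natDegree = 1 := Polynomial.natDegree_eq_of_degree_eq_some h3
    rw [hd] at h4
    exact absurd h4 (by norm_num)
  -- the forms
  set Λ1 : Finset (ℤ × ℤ) := F1.image lin with hΛ1
  have hnot : ((0 : ℤ), (1 : ℤ)) ∉ Λ1 := by
    intro h
    obtain ⟨p, hp, hpe⟩ := Finset.mem_image.mp h
    apply hlin1 p hp
    rw [hpe]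
  set Λ : Finset (ℤ × ℤ) := if J.natDegree < m then insert (0, 1) Λ1 else Λ1 with hΛ
  set Θ : Finset (ℤ × ℤ × ℤ) := F2.image quad with hΘ
  have hcardΛ : Λ.card = F1.card + (if J.natDegree < m then 1 else 0) := by
    rw [hΛ]
    split_ifs
    · rw [Finset.card_insert_of_notMem hnot, hΛ1, Finset.card_image_of_injOn hlininj]
    · rw [hΛ1, Finset.card_image_of_injOn hlininj, add_zero]
  have hcardΘ : Θ.card = F2.card := by rw [hΘ, Finset.card_image_of_injOn hquadinj]
  have hdeg1 : ∀ p ∈ F1, (R p).natDegree = 1 := by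
    intro p hp
    rw [(hR p (hF1F p hp).1).2.1]; exact (hF1F p hp).2
  have hdeg2 : ∀ p ∈ F2, (R p).natDegree = 2 := by
    intro p hp
    rw [(hR p (hF2F p hp).1).2.1]; exact (hF2F p hp).2
  have hval1 : ∀ p ∈ F1, ∀ a b : ℤ, hev (R p).natDegree (R p) a b = lf (lin p) (a, b) := by
    intro p hp a b
    rw [hdeg1 p hp, hev_one_eq]
  have hval2 : ∀ p ∈ F2, ∀ a b : ℤ, hev (R p).natDegree (R p) a b = qf (quad p) (a, b) := by
    intro p hp a b
    rw [hdeg2 p hp, hev_two_eq]
  have hΛmem : ∀ l ∈ Λ, (J.natDegree < m ∧ l = (0, 1)) ∨ ∃ p ∈ F1, l = lin p := by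
    intro l hl
    rw [hΛ] at hl
    split_ifs at hl with h
    · rcases Finset.mem_insert.mp hl with h1 | h1
      · exact Or.inl ⟨h, h1⟩
      · obtain ⟨p, hp, hpe⟩ := Finset.mem_image.mp h1
        exact Or.inr ⟨p, hp, hpe.symm⟩
    · obtain ⟨p, hp, hpe⟩ := Finset.mem_image.mp hl
      exact Or.inr ⟨p, hp, hpe.symm⟩
  have hΛ1Λ : ∀ p ∈ F1, lin p ∈ Λ := by
    intro p hp
    rw [hΛ]
    split_ifs
    · exact Finset.mem_insert_of_mem (Finset.mem_image_of_mem _ hp)
    · exact Finset.mem_image_of_mem _ hp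
  -- divisibility
  have hdiv : ∀ p ∈ F, ∀ a b : ℤ, hev (R p).natDegree (R p) a b ∣ hev m J a b := by
    intro p hp a b
    obtain ⟨⟨S', hS'⟩, _⟩ := hR p hp
    have hR0 : R p ≠ 0 := by intro h; rw [h, zero_mul] at hS'; exact hJ hS'
    have hS'0 : S' ≠ 0 := by intro h; rw [h, mul_zero] at hS'; exact hJ hS'
    have hdeg : (R p).natDegree + S'.natDegree ≤ m := by
      rw [hS', natDegree_mul hR0 hS'0] at hm
      exact hm
    have h1 : m = (R p).natDegree + (m - (R p).natDegree) := by omega
    refine ⟨hev (m - (R p).natDegree) S' a b, ?_⟩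
    rw [hS']
    conv_lhs => rw [h1]
    rw [hev_mul_int _ _ _ _ le_rfl (by omega)]
  have hhev : ∀ a b : ℤ, hev m J a b = hev J.natDegree J a b * b ^ (m - J.natDegree) := by
    intro a b
    have h := hev_add_int J.natDegree (m - J.natDegree) J le_rfl a b
    rwa [Nat.add_sub_cancel' hm] at h
  refine ⟨Λ, Θ, M, hM, ?_, ?_, hcardΛ, ?_, ?_⟩
  · intro l hl l' hl' hne
    rcases hΛmem l hl with ⟨_, h1⟩ | ⟨p, hp, h1⟩ <;> rcases hΛmem l' hl' with ⟨_, h2⟩ | ⟨q, hq, h2⟩
    · exact absurd (h1.trans h2.symm) hne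
    · rw [h1, h2]
      unfold dt
      have := hlin1 q hq
      intro h
      apply this
      linarith
    · rw [h1, h2]
      unfold dt
      have := hlin1 p hp
      intro h
      apply this
      linarith
    · rw [h1, h2]
      apply hdtlin p hp q hq
      rintro rfl
      exact hne (h1.trans h2.symm)
  · intro q hq
    obtain ⟨p, hp, rfl⟩ := Finset.mem_image.mp hq
    exact hquadsq p hp
  · rw [hcardΛ, hcardΘ]
    have h1 : ∑ p ∈ F, p.natDegree = F1.card + 2 * F2.card := by
      have h2 : ∑ p ∈ F, p.natDegree = ∑ p ∈ F1 ∪ F2, p.natDegree := by rw [← hF12]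
      rw [h2, Finset.sum_union hdisj, Finset.sum_congr rfl (fun p hp => (hF1F p hp).2),
        Finset.sum_congr rfl (fun p hp => (hF2F p hp).2), Finset.sum_const, Finset.sum_const,
        smul_eq_mul, smul_eq_mul]
      ring
    rw [h1]; ring
  · intro a b hab
    refine ⟨?_, ?_, ?_, ?_⟩
    · intro l hl
      rcases hΛmem l hl with ⟨h0, h1⟩ | ⟨p, hp, h1⟩
      · rw [h1, hhev]
        have : lf (0, 1) (a, b) = b := by simp [lf]
        rw [this]
        exact (dvd_pow_self b (by omega)).mul_left _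
      · rw [h1, ← hval1 p hp]
        exact hdiv p (hF1F p hp).1 a b
    · intro q hq
      obtain ⟨p, hp, rfl⟩ := Finset.mem_image.mp hq
      rw [← hval2 p hp]
      exact hdiv p (hF2F p hp).1 a b
    · intro M0 D hM0 hD hpD
      set val : Option ℚ[X] → ℕ := fun o => match o with
        | none => b.natAbs
        | some p => (hev (R p).natDegree (R p) a b).natAbs with hval
      set I : Finset (Option ℚ[X]) := if J.natDegree < m then insert none (F.image some)
        else F.image some with hI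
      have hnone : (none : Option ℚ[X]) ∉ F.image some := by
        intro h
        obtain ⟨p, _, hp⟩ := Finset.mem_image.mp h
        exact absurd hp (by simp)
      have hsomeinj : Set.InjOn (some : ℚ[X] → Option ℚ[X]) F := fun p _ q _ h => Option.some_injective _ h
      have hIcard : I.card = Λ.card + Θ.card := by
        rw [hcardΛ, hcardΘ, hI]
        have h1 : (F.image some).card = F1.card + F2.card := by
          rw [Finset.card_image_of_injOn hsomeinj]
          conv_lhs => rw [hF12]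
          exact Finset.card_union_of_disjoint hdisj
        split_ifs
        · rw [Finset.card_insert_of_notMem hnone, h1]; ring
        · rw [h1]; ring
      have hImem : ∀ o ∈ I, (o = none ∧ J.natDegree < m) ∨ ∃ p ∈ F, o = some p := by
        intro o ho
        rw [hI] at ho
        split_ifs at ho with h
        · rcases Finset.mem_insert.mp ho with h1 | h1
          · exact Or.inl ⟨h1, h⟩
          · obtain ⟨p, hp, hpe⟩ := Finset.mem_image.mp h1
            exact Or.inr ⟨p, hp, hpe.symm⟩
        · obtain ⟨p, hp, hpe⟩ := Finset.mem_image.mp ho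
          exact Or.inr ⟨p, hp, hpe.symm⟩
      have hprod := prod_rad_le I val (M * M0) D (mul_ne_zero hM hM0) hD
        (by
          intro p hp hpM o ho hpo
          apply hpD p hp (fun h => hpM (h.mul_left _))
          rcases hImem o ho with ⟨h1, h2⟩ | ⟨q, hq, h1⟩
          · rw [h1] at hpo
            simp only [hval] at hpo
            rw [hhev, Int.natAbs_mul, Int.natAbs_pow]
            exact (dvd_pow hpo (by omega)).mul_left _
          · rw [h1] at hpo
            simp only [hval] at hpo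
            exact hpo.trans (Int.natAbs_dvd_natAbs.mpr (hdiv q hq a b)))
        (by
          intro p hp hpM o ho o' ho' h1 h2
          have hpM' : ¬ p ∣ M := fun h => hpM (h.mul_right _)
          rcases hImem o ho with ⟨k1, _⟩ | ⟨q, hq, k1⟩ <;>
            rcases hImem o' ho' with ⟨k2, _⟩ | ⟨q', hq', k2⟩
          · rw [k1, k2]
          · exfalso
            rw [k1] at h1
            rw [k2] at h2
            simp only [hval] at h1 h2
            exact (hR q' hq').2.2.2 a b hab p hp hpM' (Int.natCast_dvd.mpr h1)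
              (Int.natCast_dvd.mpr h2)
          · exfalso
            rw [k1] at h1
            rw [k2] at h2
            simp only [hval] at h1 h2
            exact (hR q hq).2.2.2 a b hab p hp hpM' (Int.natCast_dvd.mpr h2)
              (Int.natCast_dvd.mpr h1)
          · rw [k1] at h1
            rw [k2] at h2
            simp only [hval] at h1 h2
            rw [k1, k2, hpair q hq q' hq' a b hab p hp hpM' (Int.natCast_dvd.mpr h1)
              (Int.natCast_dvd.mpr h2)])
      rw [hIcard] at hprod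
      refine le_trans (le_of_eq ?_) hprod
      -- the product over `I`
      have e1 : ∏ o ∈ F.image some, rd (val o) = (∏ p ∈ F1, rd (lf (lin p) (a, b)).natAbs) *
          ∏ p ∈ F2, rd (qf (quad p) (a, b)).natAbs := by
        rw [Finset.prod_image hsomeinj]
        have h2 : ∏ p ∈ F, rd (val (some p)) = ∏ p ∈ F1 ∪ F2, rd (val (some p)) := by rw [← hF12]
        rw [h2, Finset.prod_union hdisj]
        congr 1
        · apply Finset.prod_congr rfl
          intro p hp
          simp only [hval]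
          rw [hval1 p hp]
        · apply Finset.prod_congr rfl
          intro p hp
          simp only [hval]
          rw [hval2 p hp]
      have e2 : radp Λ Θ (a, b) = ∏ o ∈ I, rd (val o) := by
        unfold radp
        rw [hΛ, hΘ, hI, Finset.prod_image hquadinj]
        split_ifs
        · rw [Finset.prod_insert hnot, Finset.prod_insert hnone, e1, hΛ1,
            Finset.prod_image hlininj]
          have h3 : lf (0, 1) (a, b) = b := by simp [lf]
          rw [h3]
          simp only [hval]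
          ring
        · rw [e1, hΛ1, Finset.prod_image hlininj]
      rw [e2]
      rfl
    · intro p hp hpM hpJ
      have hpp : Prime (p : ℤ) := Nat.prime_iff_prime_int.mp hp
      rw [hhev] at hpJ
      rcases hpp.dvd_or_dvd hpJ with h1 | h1
      · obtain ⟨q, hq, h2⟩ := hprime a b p hp hpM h1
        rw [hF12, Finset.mem_union] at hq
        rcases hq with hq | hq
        · left
          rw [hval1 q hq] at h2
          exact ⟨lin q, hΛ1Λ q hq, h2⟩
        · right
          rw [hval2 q hq] at h2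
          exact ⟨quad q, Finset.mem_image_of_mem _ hq, h2⟩
      · left
        by_cases hlt : J.natDegree < m
        · refine ⟨(0, 1), ?_, ?_⟩
          · rw [hΛ, if_pos hlt]; exact Finset.mem_insert_self _ _
          · have h3 : lf (0, 1) (a, b) = b := by simp [lf]
            rw [h3]
            exact hpp.dvd_of_dvd_pow h1
        · exfalso
          have : m - J.natDegree = 0 := by omega
          rw [this, pow_zero] at h1
          exact hpp.not_isUnit (isUnit_of_dvd_one h1)

end Fm

end Pool.Agent.Lib.MP_d8bd92_nt
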