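import Pool.Agent.Lib.MP_d8bd92_nt.FmD

/-! Part (3) of Theorem F (MP_d8bd92_nt): separation and closeness of binary forms. -/

set_option autoImplicit false

namespace Pool.Agent.Lib.MP_d8bd92_nt

open Finset

namespace Fm

/-- height of an integral vector -/
noncomputable def hgt (w : ℤ × ℤ) : ℝ := max |(w.1 : ℝ)| |(w.2 : ℝ)|

theorem hgt_nonneg (w : ℤ × ℤ) : 0 ≤ hgt w := (abs_nonneg _).trans (le_max_left _ _)

theorem abs_fst_le_hgt (w : ℤ × ℤ) : |(w.1 : ℝ)| ≤ hgt w := le_max_left _ _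

theorem abs_snd_le_hgt (w : ℤ × ℤ) : |(w.2 : ℝ)| ≤ hgt w := le_max_right _ _

/-- bounded by a multiple of the `k`-th power of the height -/
def Bdd (U : ℤ × ℤ → ℤ) (k : ℕ) : Prop := ∃ C : ℝ, 0 ≤ C ∧ ∀ w, |(U w : ℝ)| ≤ C * hgt w ^ k

theorem Bdd.const (a : ℤ) : Bdd (fun _ => a) 0 :=
  ⟨|(a : ℝ)|, abs_nonneg _, fun w => by simp⟩

theorem Bdd.fst : Bdd (fun w => w.1) 1 :=
  ⟨1, zero_le_one, fun w => by rw [one_mul, pow_one]; exact abs_fst_le_hgt w⟩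

theorem Bdd.snd : Bdd (fun w => w.2) 1 :=
  ⟨1, zero_le_one, fun w => by rw [one_mul, pow_one]; exact abs_snd_le_hgt w⟩

theorem Bdd.add {U V : ℤ × ℤ → ℤ} {k : ℕ} (hU : Bdd U k) (hV : Bdd V k) :
    Bdd (fun w => U w + V w) k := by
  obtain ⟨C, hC, h⟩ := hU
  obtain ⟨C', hC', h'⟩ := hV
  refine ⟨C + C', add_nonneg hC hC', fun w => ?_⟩
  push_cast
  refine (abs_add_le _ _).trans ?_
  rw [add_mul]
  exact add_le_add (h w) (h' w)

theorem Bdd.mul {U V : ℤ × ℤ → ℤ} {k l : ℕ} (hU : Bdd U k) (hV : Bdd V l) :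
    Bdd (fun w => U w * V w) (k + l) := by
  obtain ⟨C, hC, h⟩ := hU
  obtain ⟨C', hC', h'⟩ := hV
  refine ⟨C * C', mul_nonneg hC hC', fun w => ?_⟩
  push_cast
  rw [abs_mul, pow_add]
  have h0 := hgt_nonneg w
  calc |(U w : ℝ)| * |(V w : ℝ)| ≤ (C * hgt w ^ k) * (C' * hgt w ^ l) :=
        mul_le_mul (h w) (h' w) (abs_nonneg _) (by positivity)
    _ = _ := by ring

theorem Bdd.lin (α β : ℤ) : Bdd (fun w => α * w.1 + β * w.2) 1 := by
  have h1 := (Bdd.const α).mul Bdd.fst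
  have h2 := (Bdd.const β).mul Bdd.snd
  exact h1.add h2

theorem Bdd.lf (l : ℤ × ℤ) : Bdd (lf l) 1 := Bdd.lin l.1 l.2

theorem Bdd.qf (q : ℤ × ℤ × ℤ) : Bdd (qf q) 2 := by
  have h1 : Bdd (fun w => q.1 * (w.1 * w.1)) 2 := (Bdd.const q.1).mul (Bdd.fst.mul Bdd.fst)
  have h2 : Bdd (fun w => q.2.1 * (w.1 * w.2)) 2 := (Bdd.const q.2.1).mul (Bdd.fst.mul Bdd.snd)
  have h3 : Bdd (fun w => q.2.2 * (w.2 * w.2)) 2 := (Bdd.const q.2.2).mul (Bdd.snd.mul Bdd.snd)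
  have h4 := (h1.add h2).add h3
  obtain ⟨C, hC, h⟩ := h4
  refine ⟨C, hC, fun w => ?_⟩
  have e : Fm.qf q w = q.1 * (w.1 * w.1) + q.2.1 * (w.1 * w.2) + q.2.2 * (w.2 * w.2) := by
    unfold Fm.qf; ring
  rw [e]
  exact h w

/-- two forms of degrees `df`, `dg` without a common root: bounded common divisors, and not both
small. -/
def Sep (f g : ℤ × ℤ → ℤ) (df dg : ℕ) : Prop :=
  ∃ (ρ : ℤ) (c : ℝ), ρ ≠ 0 ∧ 0 < c ∧
    (∀ (w : ℤ × ℤ) (d : ℤ), IsCoprime w.1 w.2 → d ∣ f w → d ∣ g w → d ∣ ρ) ∧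
    ∀ w : ℤ × ℤ, 1 ≤ hgt w → c * hgt w ^ df ≤ |(f w : ℝ)| ∨ c * hgt w ^ dg ≤ |(g w : ℝ)|

theorem Sep.symm {f g : ℤ × ℤ → ℤ} {df dg : ℕ} (h : Sep f g df dg) : Sep g f dg df := by
  obtain ⟨ρ, c, h1, h2, h3, h4⟩ := h
  exact ⟨ρ, c, h1, h2, fun w d hw a b => h3 w d hw b a, fun w hw => (h4 w hw).symm⟩

theorem sep_gen (f g : ℤ × ℤ → ℤ) (df dg ef eg N : ℕ) (hf : df + ef = N) (hg : dg + eg = N)
    (ρ : ℤ) (hρ : ρ ≠ 0) (U1 V1 U2 V2 : ℤ × ℤ → ℤ)
    (e1 : ∀ w, ρ * w.1 ^ N = U1 w * f w + V1 w * g w)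
    (e2 : ∀ w, ρ * w.2 ^ N = U2 w * f w + V2 w * g w)
    (b1 : Bdd U1 ef) (b2 : Bdd V1 eg) (b3 : Bdd U2 ef) (b4 : Bdd V2 eg) : Sep f g df dg := by
  obtain ⟨C1, hC1, b1⟩ := b1
  obtain ⟨C2, hC2, b2⟩ := b2
  obtain ⟨C3, hC3, b3⟩ := b3
  obtain ⟨C4, hC4, b4⟩ := b4
  set C0 : ℝ := C1 + C2 + C3 + C4 + 1 with hC0
  have hC : 0 < C0 := by positivity
  refine ⟨ρ, 1 / (4 * C0), hρ, by positivity, ?_, ?_⟩
  · intro w d hw h1 h2
    have h3 : d ∣ ρ * w.1 ^ N := by rw [e1]; exact dvd_add (h1.mul_left _) (h2.mul_left _)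
    have h4 : d ∣ ρ * w.2 ^ N := by rw [e2]; exact dvd_add (h1.mul_left _) (h2.mul_left _)
    have h5 : IsCoprime (w.1 ^ N) (w.2 ^ N) := hw.pow
    obtain ⟨u, v, huv⟩ := h5
    have h6 : ρ = u * (ρ * w.1 ^ N) + v * (ρ * w.2 ^ N) := by
      calc ρ = ρ * (u * w.1 ^ N + v * w.2 ^ N) := by rw [huv, mul_one]
        _ = _ := by ring
    rw [h6]
    exact dvd_add (h3.mul_left _) (h4.mul_left _)
  · intro w hw
    by_contra hcon
    push Not at hcon
    obtain ⟨h1, h2⟩ := hcon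
    have hpos : 0 < hgt w := by linarith
    have hρ1 : (1 : ℝ) ≤ |(ρ : ℝ)| := by
      rw [← natAbs_cast_abs]; exact_mod_cast Int.natAbs_pos.mpr hρ
    have key : ∀ (x U V : ℤ), ρ * x ^ N = U * f w + V * g w → |(U : ℝ)| ≤ C0 * hgt w ^ ef →
        |(V : ℝ)| ≤ C0 * hgt w ^ eg → |(x : ℝ)| = hgt w → False := by
      intro x U V h hU hV hx
      have e3 : (ρ : ℝ) * (x : ℝ) ^ N = U * f w + V * g w := by exact_mod_cast h
      have e4 : |(ρ : ℝ) * (x : ℝ) ^ N| = |(ρ : ℝ)| * hgt w ^ N := by rw [abs_mul, abs_pow, hx]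
      have e5 := abs_add_le ((U : ℝ) * f w) (V * g w)
      rw [← e3, e4, abs_mul, abs_mul] at e5
      have hpowf : hgt w ^ ef * hgt w ^ df = hgt w ^ N := by rw [← pow_add, add_comm ef df, hf]
      have hpowg : hgt w ^ eg * hgt w ^ dg = hgt w ^ N := by rw [← pow_add, add_comm eg dg, hg]
      have e7 : |(U : ℝ)| * |(f w : ℝ)| ≤ 1 / 4 * hgt w ^ N := by
        calc |(U : ℝ)| * |(f w : ℝ)| ≤ (C0 * hgt w ^ ef) * (1 / (4 * C0) * hgt w ^ df) :=
              mul_le_mul hU h1.le (abs_nonneg _) (by positivity)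
          _ = 1 / 4 * (hgt w ^ ef * hgt w ^ df) := by field_simp
          _ = _ := by rw [hpowf]
      have e8 : |(V : ℝ)| * |(g w : ℝ)| ≤ 1 / 4 * hgt w ^ N := by
        calc |(V : ℝ)| * |(g w : ℝ)| ≤ (C0 * hgt w ^ eg) * (1 / (4 * C0) * hgt w ^ dg) :=
              mul_le_mul hV h2.le (abs_nonneg _) (by positivity)
          _ = 1 / 4 * (hgt w ^ eg * hgt w ^ dg) := by field_simp
          _ = _ := by rw [hpowg]
      have e9 : 0 < hgt w ^ N := by positivity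
      nlinarith
    have hle : ∀ (C : ℝ) (k : ℕ), C ≤ C0 → C * hgt w ^ k ≤ C0 * hgt w ^ k := by
      intro C k h
      exact mul_le_mul_of_nonneg_right h (by positivity)
    rcases le_total |(w.1 : ℝ)| |(w.2 : ℝ)| with h | h
    · exact key w.2 (U2 w) (V2 w) (e2 w) ((b3 w).trans (hle _ _ (by linarith)))
        ((b4 w).trans (hle _ _ (by linarith))) (by unfold hgt; rw [max_eq_right h])
    · exact key w.1 (U1 w) (V1 w) (e1 w) ((b1 w).trans (hle _ _ (by linarith)))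
        ((b2 w).trans (hle _ _ (by linarith))) (by unfold hgt; rw [max_eq_left h])

theorem sep_ll (l l' : ℤ × ℤ) (h : dt l l' ≠ 0) : Sep (lf l) (lf l') 1 1 := by
  apply sep_gen (lf l) (lf l') 1 1 0 0 1 rfl rfl (dt l l') h
    (fun _ => l'.2) (fun _ => -l.2) (fun _ => -l'.1) (fun _ => l.1)
  · intro w; simp only [dt, lf]; ring
  · intro w; simp only [dt, lf]; ring
  · exact Bdd.const _
  · exact Bdd.const _
  · exact Bdd.const _
  · exact Bdd.const _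

/-- an integral square root from a rational one -/
theorem isSquare_of_mul_sq (D y z : ℤ) (hy : y ≠ 0) (h : D * y ^ 2 = z ^ 2) : IsSquare D := by
  have h1 : y ∣ z := by
    rw [← Int.pow_dvd_pow_iff (n := 2) (by norm_num)]
    exact ⟨D, by rw [← h]; ring⟩
  obtain ⟨k, hk⟩ := h1
  refine ⟨k, ?_⟩
  have h2 : y ^ 2 * D = y ^ 2 * (k * k) := by rw [hk] at h; linear_combination h
  exact mul_left_cancel₀ (pow_ne_zero 2 hy) h2

/-- a form with nonsquare discriminant has no nontrivial rational zero -/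
theorem qf_ne_zero (q : ℤ × ℤ × ℤ) (hq : ¬ IsSquare (qdisc q)) (w : ℤ × ℤ) (hw : w ≠ 0) :
    qf q w ≠ 0 := by
  intro h
  apply hq
  unfold qf at h
  by_cases h2 : w.2 = 0
  · have h1 : w.1 ≠ 0 := by
      intro h1
      exact hw (Prod.ext h1 h2)
    have h3 : q.1 = 0 := by
      rw [h2] at h
      have : q.1 * w.1 ^ 2 = 0 := by linear_combination h
      rcases mul_eq_zero.mp this with h4 | h4
      · exact h4
      · exact absurd h4 (pow_ne_zero 2 h1)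
    refine ⟨q.2.1, ?_⟩
    unfold qdisc
    rw [h3]; ring
  · apply isSquare_of_mul_sq (qdisc q) w.2 (2 * q.1 * w.1 + q.2.1 * w.2) h2
    unfold qdisc
    linear_combination (-4 * q.1) * h

theorem qf_coeff_ne_zero (q : ℤ × ℤ × ℤ) (hq : ¬ IsSquare (qdisc q)) : q.1 ≠ 0 ∧ q.2.2 ≠ 0 := by
  constructor
  · intro h
    apply hq
    refine ⟨q.2.1, ?_⟩
    unfold qdisc; rw [h]; ring
  · intro h
    apply hq
    refine ⟨q.2.1, ?_⟩
    unfold qdisc; rw [h]; ring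

theorem sep_lq (l : ℤ × ℤ) (hl : l ≠ 0) (q : ℤ × ℤ × ℤ) (hq : ¬ IsSquare (qdisc q)) :
    Sep (lf l) (qf q) 1 2 := by
  have hw : ((l.2, -l.1) : ℤ × ℤ) ≠ 0 := by
    intro h
    apply hl
    have h1 := congrArg Prod.fst h
    have h2 := congrArg Prod.snd h
    simp only [Prod.fst_zero, Prod.snd_zero, neg_eq_zero] at h1 h2
    exact Prod.ext h2 h1
  have hres := qf_ne_zero q hq _ hw
  apply sep_gen (lf l) (qf q) 1 2 1 0 2 rfl rfl (qf q (l.2, -l.1)) hres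
    (fun w => (q.2.2 * l.1 - q.2.1 * l.2) * w.1 + (-(q.2.2 * l.2)) * w.2)
    (fun _ => l.2 ^ 2)
    (fun w => (-(q.1 * l.1)) * w.1 + (q.1 * l.2 - q.2.1 * l.1) * w.2)
    (fun _ => l.1 ^ 2)
  · intro w; simp only [qf, lf]; ring
  · intro w; simp only [qf, lf]; ring
  · exact Bdd.lin _ _
  · exact Bdd.const _
  · exact Bdd.lin _ _
  · exact Bdd.const _

/-- not proportional -/
def NProp (q q' : ℤ × ℤ × ℤ) : Prop := q.1 * q'.2.1 ≠ q.2.1 * q'.1 ∨ q.1 * q'.2.2 ≠ q.2.2 * q'.1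

theorem sep_qq (q q' : ℤ × ℤ × ℤ) (hq : ¬ IsSquare (qdisc q)) (hqq : NProp q q') :
    Sep (qf q) (qf q') 2 2 := by
  set P : ℤ := q.1 * q'.2.2 - q'.1 * q.2.2 with hP
  set Q : ℤ := q.1 * q'.2.1 - q'.1 * q.2.1 with hQ
  set S : ℤ := q.2.1 * q'.2.2 - q'.2.1 * q.2.2 with hS
  have ha := (qf_coeff_ne_zero q hq).1
  have hres : P ^ 2 - Q * S ≠ 0 := by
    intro h0
    by_cases hQ0 : Q = 0
    · have hP0 : P = 0 := by
        rw [hQ0, zero_mul, sub_zero] at h0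
        exact pow_eq_zero_iff (two_ne_zero) |>.mp h0
      rcases hqq with h | h
      · apply h; linarith
      · apply h; linarith
    · have hne : ((-P, Q) : ℤ × ℤ) ≠ 0 := by
        intro h
        exact hQ0 (congrArg Prod.snd h)
      have hv := qf_ne_zero q hq _ hne
      set X : ℤ := qf q (-P, Q) with hX
      set X' : ℤ := qf q' (-P, Q) with hX'
      have k1 : q'.1 * X = q.1 * X' := by
        have : q'.1 * X - q.1 * X' = 0 := by
          simp only [hX, hX', qf, hP, hQ]; ring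
        linarith
      have k2 : q'.2.1 * X = q.2.1 * X' := by
        have : q'.2.1 * X - q.2.1 * X' = Q * (P ^ 2 - Q * S) := by
          simp only [hX, hX', qf, hP, hQ, hS]; ring
        rw [h0, mul_zero] at this
        linarith
      have k3 : q'.2.2 * X = q.2.2 * X' := by
        have : q'.2.2 * X - q.2.2 * X' = P * (P ^ 2 - Q * S) := by
          simp only [hX, hX', qf, hP, hQ, hS]; ring
        rw [h0, mul_zero] at this
        linarith
      apply hQ0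
      have k4 : X * Q = 0 := by rw [hQ]; linear_combination q.1 * k2 - q.2.1 * k1
      rcases mul_eq_zero.mp k4 with h | h
      · exact absurd h hv
      · exact h
  apply sep_gen (qf q) (qf q') 2 2 1 1 3 rfl rfl (P ^ 2 - Q * S) hres
    (fun w => (P * q'.2.2 - S * q'.2.1) * w.1 + (-(S * q'.2.2)) * w.2)
    (fun w => (-(P * q.2.2) + S * q.2.1) * w.1 + (S * q.2.2) * w.2)
    (fun w => (Q * q'.1) * w.1 + (-(P * q'.1) + Q * q'.2.1) * w.2)
    (fun w => (-(Q * q.1)) * w.1 + (P * q.1 - Q * q.2.1) * w.2)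
  · intro w; simp only [qf, hP, hQ, hS]; ring
  · intro w; simp only [qf, hP, hQ, hS]; ring
  · exact Bdd.lin _ _
  · exact Bdd.lin _ _
  · exact Bdd.lin _ _
  · exact Bdd.lin _ _

end Fm

end Pool.Agent.Lib.MP_d8bd92_nt
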