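import Pool.Agent.Lib.MP_d8bd92_nt.FmF

set_option autoImplicit false

/-!
Upper bounds for the number of semistable members of a one parameter family ordered by conductor.
-/

namespace Pool.Agent.Lib.MP_d8bd92_nt

open Finset Polynomial UniqueFactorizationMonoid Pool.Agent.Lib.Szpiro

namespace Fm

theorem hev_add (n : ℕ) (f g : ℤ[X]) (a b : ℤ) : hev n (f + g) a b = hev n f a b + hev n g a b := by
  unfold hev
  rw [← Finset.sum_add_distrib]
  apply Finset.sum_congr rfl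
  intro i _
  rw [coeff_add]; ring

theorem hev_C (n : ℕ) (ρ a b : ℤ) : hev n (C ρ) a b = ρ * b ^ n := by
  unfold hev
  rw [Finset.sum_eq_single 0]
  · simp
  · intro i _ hi
    rw [coeff_C, if_neg hi]; ring
  · intro h; exact absurd (Finset.mem_range.mpr (by omega)) h

theorem dvd_of_dvd_mul_pow (d b c : ℤ) (hg : (Int.gcd d b : ℤ) ∣ c) (k : ℕ) :
    ∀ ρ : ℤ, d ∣ ρ * b ^ k → d ∣ ρ * c ^ k := by
  induction k with
  | zero => intro ρ h; simpa using h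
  | succ k ih =>
    intro ρ h
    have h1 : d ∣ (ρ * b ^ k) * (Int.gcd d b : ℤ) := by
      rw [Int.gcd_eq_gcd_ab d b, mul_add]
      apply dvd_add
      · exact ⟨ρ * b ^ k * Int.gcdA d b, by ring⟩
      · have : ρ * b ^ k * (b * Int.gcdB d b) = (ρ * b ^ (k + 1)) * Int.gcdB d b := by ring
        rw [this]
        exact h.mul_right _
    have h2 : d ∣ (ρ * c) * b ^ k := by
      refine (h1.trans (mul_dvd_mul_left _ hg)).trans (dvd_of_eq ?_)
      ring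
    have h3 := ih (ρ * c) h2
    have h4 : ρ * c * c ^ k = ρ * c ^ (k + 1) := by ring
    rwa [h4] at h3

theorem gcd_dvd_lead (n : ℕ) (f : ℤ[X]) (a b d : ℤ) (hab : IsCoprime a b) (hd : d ∣ hev n f a b) :
    (Int.gcd d b : ℤ) ∣ f.coeff n := by
  have h0 : (Int.gcd d b : ℤ) ∣ b := Int.gcd_dvd_right _ _
  have hpf : (Int.gcd d b : ℤ) ∣ hev n f a b := (Int.gcd_dvd_left _ _).trans hd
  unfold hev at hpf
  rw [Finset.sum_range_succ, Nat.sub_self, pow_zero, mul_one] at hpf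
  have h1 : (Int.gcd d b : ℤ) ∣ ∑ i ∈ Finset.range n, f.coeff i * a ^ i * b ^ (n - i) := by
    apply Finset.dvd_sum
    intro i hi
    have : n - i ≠ 0 := by have := Finset.mem_range.mp hi; omega
    exact Dvd.dvd.mul_left (dvd_pow h0 this) _
  have h2 : (Int.gcd d b : ℤ) ∣ f.coeff n * a ^ n := (dvd_add_right h1).mp hpf
  have h3 : IsCoprime (Int.gcd d b : ℤ) (a ^ n) :=
    IsCoprime.pow_right (hab.symm.of_isCoprime_of_dvd_left h0)
  exact h3.dvd_of_dvd_mul_right h2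

/-- the common divisors of the two forms are bounded -/
theorem gcd_bound (J1 J2 : ℤ[X])
    (hcop : IsCoprime (J1.map (Int.castRingHom ℚ)) (J2.map (Int.castRingHom ℚ))) (m : ℕ)
    (hm1 : J1.natDegree ≤ m) (hm2 : J2.natDegree ≤ m) (hm3 : m = J1.natDegree ∨ m = J2.natDegree)
    (hmpos : 0 < m) : ∃ ρ0 : ℤ, ρ0 ≠ 0 ∧ ∀ a b d : ℤ, IsCoprime a b → d ∣ hev m J1 a b →
      d ∣ hev m J2 a b → d ∣ ρ0 := by
  obtain ⟨P, Q, ρ1, hρ1, hbez⟩ := exists_bezout_int J1 J2 hcop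
  set K : ℕ := max P.natDegree Q.natDegree with hK
  have hlead : ∃ c : ℤ, c ≠ 0 ∧ ∀ a b d : ℤ, IsCoprime a b → d ∣ hev m J1 a b →
      d ∣ hev m J2 a b → (Int.gcd d b : ℤ) ∣ c := by
    rcases hm3 with h | h
    · refine ⟨J1.coeff m, ?_, fun a b d hab h1 _ => gcd_dvd_lead m J1 a b d hab h1⟩
      rw [h]
      apply leadingCoeff_ne_zero.mpr
      rintro rfl
      rw [natDegree_zero] at h; omega
    · refine ⟨J2.coeff m, ?_, fun a b d hab _ h2 => gcd_dvd_lead m J2 a b d hab h2⟩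
      rw [h]
      apply leadingCoeff_ne_zero.mpr
      rintro rfl
      rw [natDegree_zero] at h; omega
  obtain ⟨c, hc, hlead⟩ := hlead
  refine ⟨ρ1 * c ^ (K + m), mul_ne_zero hρ1 (pow_ne_zero _ hc), ?_⟩
  intro a b d hab h1 h2
  apply dvd_of_dvd_mul_pow d b c (hlead a b d hab h1 h2)
  have e1 : hev (K + m) (P * J1 + Q * J2) a b =
      hev K P a b * hev m J1 a b + hev K Q a b * hev m J2 a b := by
    rw [hev_add, hev_mul_int K m P J1 (le_max_left _ _) hm1, hev_mul_int K m Q J2 (le_max_right _ _) hm2]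
  rw [hbez, hev_C] at e1
  rw [e1]
  exact dvd_add (h1.mul_left _) (h2.mul_left _)

/-- the pairs `(c₄, c₆)` of the semistable members of the family, with a condition on the radical and
the size of the discriminant -/
def Mem (m : ℕ) (J1 J2 : ℤ[X]) (P : ℕ → ℕ → Prop) (x : ℤ × ℤ) : Prop :=
  ∃ D a b : ℤ, IsCoprime a b ∧ 1 ≤ b ∧ D ≠ 0 ∧ IsCoprime x.1 D ∧ 1728 * D = x.1 ^ 3 - x.2 ^ 2 ∧
    hev m J1 a b * D = hev m J2 a b * x.1 ^ 3 ∧ P (rd D.natAbs) D.natAbs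

/-- the multiplier -/
theorem exists_mult (m : ℕ) (J1 J2 : ℤ[X]) (ρ0 : ℤ) (hρ0 : ρ0 ≠ 0)
    (hgcd : ∀ a b d : ℤ, IsCoprime a b → d ∣ hev m J1 a b → d ∣ hev m J2 a b → d ∣ ρ0)
    (x D a b : ℤ) (hab : IsCoprime a b) (hD : D ≠ 0) (hxD : IsCoprime x D)
    (hj : hev m J1 a b * D = hev m J2 a b * x ^ 3) :
    ∃ k : ℤ, k ≠ 0 ∧ k ∣ ρ0 ∧ hev m J2 a b = k * D ∧ hev m J1 a b = k * x ^ 3 := by
  have h1 : D ∣ hev m J2 a b := by
    have h2 : D ∣ hev m J2 a b * x ^ 3 := ⟨hev m J1 a b, by rw [← hj]; ring⟩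
    have h3 : IsCoprime D (x ^ 3) := (IsCoprime.pow_left hxD).symm
    exact h3.dvd_of_dvd_mul_right h2
  obtain ⟨k, hk⟩ := h1
  have hj1 : hev m J1 a b = k * x ^ 3 := by
    have h2 : hev m J1 a b * D = (k * x ^ 3) * D := by rw [hj, hk]; ring
    exact mul_right_cancel₀ hD h2
  have hk2 : hev m J2 a b = k * D := by rw [hk]; ring
  refine ⟨k, ?_, hgcd a b k hab ⟨x ^ 3, hj1⟩ ⟨D, hk2⟩, hk2, hj1⟩
  rintro rfl
  rw [zero_mul] at hj1 hk2
  have h2 := hgcd a b 0 hab (by rw [hj1]) (by rw [hk2])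
  rw [zero_dvd_iff] at h2
  exact hρ0 h2

/-- from parameters to curves -/
theorem transfer (m : ℕ) (J1 J2 : ℤ[X]) (ρ0 : ℤ) (hρ0 : ρ0 ≠ 0)
    (hgcd : ∀ a b d : ℤ, IsCoprime a b → d ∣ hev m J1 a b → d ∣ hev m J2 a b → d ∣ ρ0)
    (P : ℕ → ℕ → Prop) (T : Finset (ℤ × ℤ))
    (hT : ∀ x y D a b k : ℤ, IsCoprime a b → 1 ≤ b → D ≠ 0 → IsCoprime x D →
      1728 * D = x ^ 3 - y ^ 2 → k ≠ 0 → k ∣ ρ0 → hev m J2 a b = k * D → hev m J1 a b = k * x ^ 3 →
      P (rd D.natAbs) D.natAbs → (a, b) ∈ T) :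
    {x | Mem m J1 J2 P x}.Finite ∧
      ({x | Mem m J1 J2 P x}.ncard : ℝ) ≤ 3 * (2 * ρ0.natAbs + 1) * (T.card : ℝ) := by
  classical
  have hex : ∀ x : ℤ × ℤ, ∃ y : (ℤ × ℤ) × (ℤ × ℤ), Mem m J1 J2 P x →
      (∃ D : ℤ, D ≠ 0 ∧ y.2.1 ≠ 0 ∧ y.2.1 ∣ ρ0 ∧ 1728 * D = x.1 ^ 3 - x.2 ^ 2 ∧
        hev m J2 y.1.1 y.1.2 = y.2.1 * D ∧ hev m J1 y.1.1 y.1.2 = y.2.1 * x.1 ^ 3) ∧
      y.1 ∈ T ∧ y.2.2 = x.2.sign := by
    intro x
    by_cases hx : Mem m J1 J2 P x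
    · obtain ⟨D, a, b, h1, h2, h3, h4, h5, h6, h7⟩ := hx
      obtain ⟨k, hk, hkρ, e1, e2⟩ := exists_mult m J1 J2 ρ0 hρ0 hgcd x.1 D a b h1 h3 h4 h6
      refine ⟨((a, b), (k, x.2.sign)), fun _ => ⟨⟨D, h3, hk, hkρ, h5, e1, e2⟩, ?_, rfl⟩⟩
      exact hT x.1 x.2 D a b k h1 h2 h3 h4 h5 hk hkρ e1 e2 h7
    · exact ⟨((0, 0), (0, 0)), fun h => absurd h hx⟩
  choose f hf using hex
  set S : Set (ℤ × ℤ) := {x | Mem m J1 J2 P x} with hS
  set U : Finset ((ℤ × ℤ) × (ℤ × ℤ)) := T ×ˢ (Finset.Icc (-(ρ0.natAbs : ℤ)) ρ0.natAbs ×ˢ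
    Finset.Icc (-1) 1) with hU
  have hmaps : ∀ x ∈ S, f x ∈ (U : Set ((ℤ × ℤ) × (ℤ × ℤ))) := by
    intro x hx
    obtain ⟨⟨D, hD, hk, hkρ, _⟩, hT', hs⟩ := hf x hx
    rw [Finset.mem_coe, hU, Finset.mem_product, Finset.mem_product]
    refine ⟨hT', ?_, ?_⟩
    · rw [Finset.mem_Icc]
      have h1 : (f x).2.1.natAbs ≤ ρ0.natAbs :=
        Nat.le_of_dvd (Int.natAbs_pos.mpr hρ0) (Int.natAbs_dvd_natAbs.mpr hkρ)
      omega
    · rw [hs]; exact sign_mem _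
  have hinj : Set.InjOn f S := by
    intro x hx x' hx' hff
    obtain ⟨⟨D, hD, hk, hkρ, e1, e2, e3⟩, _, hs⟩ := hf x hx
    obtain ⟨⟨D', hD', hk', hkρ', e1', e2', e3'⟩, _, hs'⟩ := hf x' hx'
    rw [← hff] at e2' e3' hs' hk'
    have h1 : D = D' := by
      have : (f x).2.1 * D = (f x).2.1 * D' := by rw [← e2, ← e2']
      exact mul_left_cancel₀ hk this
    have h2 : x.1 ^ 3 = x'.1 ^ 3 := by
      have : (f x).2.1 * x.1 ^ 3 = (f x).2.1 * x'.1 ^ 3 := by rw [← e3, ← e3']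
      exact mul_left_cancel₀ hk this
    have h3 : x.1 = x'.1 := (Odd.pow_injective (by decide : Odd 3)) h2
    have h4 : x.2 ^ 2 = x'.2 ^ 2 := by
      rw [← h1] at e1'
      linarith
    have h5 : x.2.natAbs = x'.2.natAbs := by
      have := sq_eq_sq_iff_abs_eq_abs x.2 x'.2 |>.mp h4
      rw [← Int.natCast_natAbs, ← Int.natCast_natAbs] at this
      exact_mod_cast this
    exact Prod.ext h3 (sign_abs_ext (by rw [← hs, ← hs']) h5)
  have hfin : S.Finite := Set.Finite.of_injOn hmaps hinj (Finset.finite_toSet U)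
  refine ⟨hfin, ?_⟩
  have h1 : S.ncard ≤ U.card := by
    rw [← Set.ncard_coe_finset U]
    exact Set.ncard_le_ncard_of_injOn f hmaps hinj (Finset.finite_toSet U)
  rw [hU, Finset.card_product, Finset.card_product, Int.card_Icc, Int.card_Icc] at h1
  have h2 : ((1 : ℤ) + 1 - -1).toNat = 3 := by decide
  have h3 : ((ρ0.natAbs : ℤ) + 1 - -(ρ0.natAbs : ℤ)).toNat = 2 * ρ0.natAbs + 1 := by omega
  rw [h2, h3] at h1
  have h4 : (S.ncard : ℝ) ≤ ((T.card * ((2 * ρ0.natAbs + 1) * 3) : ℕ) : ℝ) := by exact_mod_cast h1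
  push_cast at h4
  linarith

theorem family_upper (J1 J2 : ℤ[X])
    (hcop : IsCoprime (J1.map (Int.castRingHom ℚ)) (J2.map (Int.castRingHom ℚ))) (m : ℕ)
    (hm1 : J1.natDegree ≤ m) (hm2 : J2.natDegree ≤ m) (hm3 : m = J1.natDegree ∨ m = J2.natDegree)
    (hmpos : 0 < m) (F : Finset ℚ[X])
    (hF : ∀ p, p ∈ F ↔ p ∈ normalizedFactors (J2.map (Int.castRingHom ℚ)))
    (hdeg : ∀ p ∈ F, p.natDegree ≤ 2) (r : ℝ)
    (hr : r = ((∑ p ∈ F, p.natDegree + (if J2.natDegree < m then 1 else 0) : ℕ) : ℝ))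
    (hs : 3 ≤ (F.filter (fun p => p.natDegree = 1)).card + (if J2.natDegree < m then 1 else 0))
    (κ ε : ℝ) (hκ : 1 ≤ κ) (hε : 0 < ε) :
    ∃ C δ : ℝ, 1 ≤ C ∧ 0 < δ ∧ ∀ Y : ℝ, 1 ≤ Y →
      ({x | Mem m J1 J2 (fun N D => (N : ℝ) ≤ Y ∧ (D : ℝ) ≤ Y ^ κ) x}.Finite ∧
      ({x | Mem m J1 J2 (fun N D => (N : ℝ) ≤ Y ∧ (D : ℝ) ≤ Y ^ κ) x}.ncard : ℝ) ≤
        C * Y ^ (2 / r + ε)) ∧
      ({x | Mem m J1 J2 (fun N D => (N : ℝ) ≤ Y ∧ (N : ℝ) ^ (m / r + ε) ≤ (D : ℝ) ∧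
        (D : ℝ) ≤ Y ^ κ) x}.ncard : ℝ) ≤ C * Y ^ (2 / r - δ) := by
  classical
  have hJ2 : J2 ≠ 0 := by
    intro h1
    rw [h1, Polynomial.map_zero] at hcop
    have h3 := natDegree_eq_zero_of_isUnit (isCoprime_zero_right.mp hcop)
    rw [natDegree_map_eq_of_injective (Int.castRingHom ℚ).injective_int] at h3
    rw [h1, natDegree_zero, h3] at hm3
    omega
  obtain ⟨Λ, Θ, M, hM, hind, hsq, hcard1, hcard2, hdata⟩ := forms_data J2 hJ2 m hm2 F hF hdeg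
  obtain ⟨ρ0, hρ0, hgcd⟩ := gcd_bound J1 J2 hcop m hm1 hm2 hm3 hmpos
  rw [← hcard1] at hs
  have hr' : r = (Λ.card : ℝ) + 2 * Θ.card := by
    rw [hr, ← hcard2]; push_cast; ring
  have hr3 : 3 ≤ r := by
    rw [hr']
    have h1 : (3 : ℝ) ≤ (Λ.card : ℝ) := by exact_mod_cast hs
    have h2 : (0 : ℝ) ≤ (Θ.card : ℝ) := Nat.cast_nonneg _
    linarith
  have hr0 : 0 < r := by linarith
  have hmR : (1 : ℝ) ≤ (m : ℝ) := by exact_mod_cast hmpos
  have hm0 : (0 : ℝ) < (m : ℝ) := by linarith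
  have hκ0 : 0 < κ := by linarith
  -- two independent linear forms
  obtain ⟨l1, hl1, l2, hl2, hl12⟩ := Finset.one_lt_card.mp (by omega : 1 < Λ.card)
  have hdt := hind l1 hl1 l2 hl2 hl12
  -- constants
  set n0 : ℕ := ρ0.natAbs with hn0
  have hn01 : 1 ≤ n0 := Int.natAbs_pos.mpr hρ0
  set K0 : ℕ := (M * n0) ^ (Λ.card + Θ.card) with hK0
  have hK01 : 1 ≤ K0 := Nat.one_le_pow _ _ (Nat.mul_pos (Nat.pos_of_ne_zero hM) hn01)
  set K1 : ℕ := n0 * (l1.1.natAbs + l1.2.natAbs + l2.1.natAbs + l2.2.natAbs) with hK1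
  set K : ℕ := K0 + K1 with hK
  have hK1' : 1 ≤ K := by omega
  have hKR : (1 : ℝ) ≤ (K : ℝ) := by exact_mod_cast hK1'
  have hK0R : (1 : ℝ) ≤ (K0 : ℝ) := by exact_mod_cast hK01
  set ε1 : ℝ := ε / (2 * m) with hε1
  have hε10 : 0 < ε1 := by positivity
  have hε1ε : ε1 ≤ ε := by
    rw [hε1]
    apply div_le_self hε.le
    linarith
  obtain ⟨C1, δ1, hC1, hδ1, hcore⟩ := core Λ Θ hs hind hsq r hr' κ ε1 hκ hε10
  obtain ⟨C2, hC2, hsmall⟩ := pair_count l1 l2 hdt (1 / (r * κ)) (by positivity)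
  set Cs : ℝ := csum m J2 with hCs
  have hCs0 : 0 ≤ Cs := csum_nonneg _ _
  set α : ℝ := m / r + ε with hα
  have hα0 : 0 < α := by positivity
  set Kc : ℝ := (K0 : ℝ) ^ α * (Cs + 1) with hKc
  have hKc1 : 1 ≤ Kc := by
    have h1 := Real.one_le_rpow hK0R hα0.le
    nlinarith
  set R0 : ℝ := Kc ^ (2 / ε) with hR0
  have hR01 : 1 ≤ R0 := Real.one_le_rpow hKc1 (by positivity)
  set δ : ℝ := min δ1 (1 / r) with hδ
  have hδpos : 0 < δ := lt_min hδ1 (by positivity)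
  set B : ℝ := 3 * (2 * n0 + 1) with hB
  have hB0 : 0 ≤ B := by positivity
  set Ca : ℝ := C1 * (K : ℝ) ^ (2 / r + ε1) with hCa
  set Cb : ℝ := C1 * (K : ℝ) ^ (2 / r) with hCb
  set Cc : ℝ := C2 * (K : ℝ) ^ (1 / r) * R0 with hCc
  have hCa0 : 0 ≤ Ca := by positivity
  have hCb0 : 0 ≤ Cb := by positivity
  have hCc0 : 0 ≤ Cc := by positivity
  refine ⟨B * (Ca + Cb + Cc) + 1, δ, ?_, hδpos, ?_⟩
  · have : 0 ≤ B * (Ca + Cb + Cc) := by positivity
    linarith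
  intro Y hY
  have hYpos : 0 < Y := by linarith
  set Y' : ℝ := K * Y with hY'
  have hY'1 : 1 ≤ Y' := by
    calc (1 : ℝ) = 1 * 1 := by ring
      _ ≤ K * Y := mul_le_mul hKR hY zero_le_one (by positivity)
  set Z : ℕ := ⌊Y' ^ κ⌋₊ with hZ
  have hY'κ : 1 ≤ Y' ^ κ := Real.one_le_rpow hY'1 hκ0.le
  have hZ1 : 1 ≤ Z := Nat.le_floor (by exact_mod_cast hY'κ)
  have hZle : (Z : ℝ) ≤ Y' ^ κ := Nat.floor_le (by linarith)
  set T : Finset (ℤ × ℤ) := (Finset.Icc (-(Z : ℤ)) Z ×ˢ Finset.Icc (-(Z : ℤ)) Z).filter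
    (fun w => IsCoprime w.1 w.2 ∧ (∀ l ∈ Λ, lf l w ≠ 0) ∧ |(w.1 : ℝ)| ≤ Y' ^ κ ∧
      |(w.2 : ℝ)| ≤ Y' ^ κ ∧ (radp Λ Θ w : ℝ) ≤ Y') with hT
  have hTprop : ∀ w ∈ T, IsCoprime w.1 w.2 ∧ (∀ l ∈ Λ, lf l w ≠ 0) ∧ |(w.1 : ℝ)| ≤ Y' ^ κ ∧
      |(w.2 : ℝ)| ≤ Y' ^ κ ∧ (radp Λ Θ w : ℝ) ≤ Y' := by
    intro w hw
    rw [hT, Finset.mem_filter] at hw
    exact hw.2
  have hTZ : ∀ w ∈ T, w.1.natAbs ≤ Z ∧ w.2.natAbs ≤ Z := by
    intro w hw
    obtain ⟨_, _, h3, h4, _⟩ := hTprop w hw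
    constructor
    · apply Nat.le_floor; rw [natAbs_cast_abs]; exact h3
    · apply Nat.le_floor; rw [natAbs_cast_abs]; exact h4
  -- radical comparison
  have hrad : ∀ D a b k : ℤ, IsCoprime a b → D ≠ 0 → k ≠ 0 → k ∣ ρ0 → hev m J2 a b = k * D →
      radp Λ Θ (a, b) ≤ K0 * rd D.natAbs := by
    intro D a b k hab hD hk hkρ hval
    obtain ⟨_, _, h3, _⟩ := hdata a b hab
    have h4 := h3 n0 D.natAbs (by omega) (Int.natAbs_ne_zero.mpr hD) (by
      intro p hp hpn hpd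
      rw [hval, Int.natAbs_mul] at hpd
      rcases (Nat.Prime.dvd_mul hp).mp hpd with h | h
      · exact absurd (h.trans (Int.natAbs_dvd_natAbs.mpr hkρ)) hpn
      · exact h)
    exact h4
  -- parameters of members belong to `T`
  have hmemT : ∀ D a b k : ℤ, IsCoprime a b → D ≠ 0 → k ≠ 0 → k ∣ ρ0 → hev m J2 a b = k * D →
      (rd D.natAbs : ℝ) ≤ Y → (D.natAbs : ℝ) ≤ Y ^ κ → (a, b) ∈ T := by
    intro D a b k hab hD hk hkρ hval hN hDY
    obtain ⟨h1, _, _, _⟩ := hdata a b hab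
    have hne : hev m J2 a b ≠ 0 := by rw [hval]; exact mul_ne_zero hk hD
    have hlne : ∀ l ∈ Λ, lf l (a, b) ≠ 0 := by
      intro l hl h
      have := h1 l hl
      rw [h, zero_dvd_iff] at this
      exact hne this
    have hkle : k.natAbs ≤ n0 := Nat.le_of_dvd (by omega) (Int.natAbs_dvd_natAbs.mpr hkρ)
    have hlle : ∀ l ∈ Λ, ((lf l (a, b)).natAbs : ℝ) ≤ n0 * Y ^ κ := by
      intro l hl
      have h2 : (lf l (a, b)).natAbs ≤ (k * D).natAbs := by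
        rw [← hval]
        exact Nat.le_of_dvd (Int.natAbs_pos.mpr hne) (Int.natAbs_dvd_natAbs.mpr (h1 l hl))
      rw [Int.natAbs_mul] at h2
      calc ((lf l (a, b)).natAbs : ℝ) ≤ ((k.natAbs * D.natAbs : ℕ) : ℝ) := by exact_mod_cast h2
        _ = (k.natAbs : ℝ) * D.natAbs := by push_cast; ring
        _ ≤ n0 * Y ^ κ := by
            apply mul_le_mul _ hDY (by positivity) (by positivity)
            exact_mod_cast hkle
    have hYκ0 : 0 ≤ Y ^ κ := by positivity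
    have hone : (1 : ℝ) ≤ |(dt l1 l2 : ℝ)| := by
      rw [← natAbs_cast_abs]; exact_mod_cast Int.natAbs_pos.mpr hdt
    have hKY : (K1 : ℝ) * Y ^ κ ≤ Y' ^ κ := by
      rw [hY', Real.mul_rpow (by positivity) hYpos.le]
      apply mul_le_mul_of_nonneg_right _ hYκ0
      calc (K1 : ℝ) ≤ K := by rw [hK]; push_cast; linarith [Nat.cast_nonneg (α := ℝ) K0]
        _ = (K : ℝ) ^ (1 : ℝ) := (Real.rpow_one _).symm
        _ ≤ (K : ℝ) ^ κ := Real.rpow_le_rpow_of_exponent_le hKR hκ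
    have b1 := hlle l1 hl1
    have b2 := hlle l2 hl2
    rw [natAbs_cast_abs] at b1 b2
    have ha : |(a : ℝ)| ≤ Y' ^ κ := by
      refine le_trans ?_ hKY
      have e1 : (dt l1 l2 : ℝ) * (a : ℝ) = l2.2 * (lf l1 (a, b) : ℝ) - l1.2 * (lf l2 (a, b) : ℝ) := by
        simp only [dt, lf]; push_cast; ring
      have e2 : |(a : ℝ)| ≤ |(dt l1 l2 : ℝ)| * |(a : ℝ)| := by
        nlinarith [abs_nonneg (a : ℝ)]
      rw [← abs_mul, e1] at e2
      refine e2.trans ((abs_sub _ _).trans ?_)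
      rw [abs_mul, abs_mul, ← natAbs_cast_abs l2.2, ← natAbs_cast_abs l1.2]
      have c1 : (l2.2.natAbs : ℝ) * |(lf l1 (a, b) : ℝ)| ≤ l2.2.natAbs * (n0 * Y ^ κ) := by gcongr
      have c2 : (l1.2.natAbs : ℝ) * |(lf l2 (a, b) : ℝ)| ≤ l1.2.natAbs * (n0 * Y ^ κ) := by gcongr
      have c3 : (K1 : ℝ) = n0 * ((l1.1.natAbs : ℝ) + l1.2.natAbs + l2.1.natAbs + l2.2.natAbs) := by
        rw [hK1]; push_cast; ring
      rw [c3]
      have c4 : 0 ≤ (n0 : ℝ) * Y ^ κ * ((l1.1.natAbs : ℝ) + l2.1.natAbs) := by positivity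
      nlinarith
    have hb : |(b : ℝ)| ≤ Y' ^ κ := by
      refine le_trans ?_ hKY
      have e1 : (dt l1 l2 : ℝ) * (b : ℝ) = l1.1 * (lf l2 (a, b) : ℝ) - l2.1 * (lf l1 (a, b) : ℝ) := by
        simp only [dt, lf]; push_cast; ring
      have e2 : |(b : ℝ)| ≤ |(dt l1 l2 : ℝ)| * |(b : ℝ)| := by
        nlinarith [abs_nonneg (b : ℝ)]
      rw [← abs_mul, e1] at e2
      refine e2.trans ((abs_sub _ _).trans ?_)
      rw [abs_mul, abs_mul, ← natAbs_cast_abs l1.1, ← natAbs_cast_abs l2.1]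
      have c1 : (l1.1.natAbs : ℝ) * |(lf l2 (a, b) : ℝ)| ≤ l1.1.natAbs * (n0 * Y ^ κ) := by gcongr
      have c2 : (l2.1.natAbs : ℝ) * |(lf l1 (a, b) : ℝ)| ≤ l2.1.natAbs * (n0 * Y ^ κ) := by gcongr
      have c3 : (K1 : ℝ) = n0 * ((l1.1.natAbs : ℝ) + l1.2.natAbs + l2.1.natAbs + l2.2.natAbs) := by
        rw [hK1]; push_cast; ring
      rw [c3]
      have c4 : 0 ≤ (n0 : ℝ) * Y ^ κ * ((l1.2.natAbs : ℝ) + l2.2.natAbs) := by positivity
      nlinarith
    have haZ : a.natAbs ≤ Z := by apply Nat.le_floor; rw [natAbs_cast_abs]; exact ha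
    have hbZ : b.natAbs ≤ Z := by apply Nat.le_floor; rw [natAbs_cast_abs]; exact hb
    rw [hT, Finset.mem_filter, Finset.mem_product, Finset.mem_Icc, Finset.mem_Icc]
    refine ⟨⟨by omega, by omega⟩, hab, hlne, ha, hb, ?_⟩
    have h5 := hrad D a b k hab hD hk hkρ hval
    calc (radp Λ Θ (a, b) : ℝ) ≤ ((K0 * rd D.natAbs : ℕ) : ℝ) := by exact_mod_cast h5
      _ = K0 * (rd D.natAbs : ℝ) := by push_cast; ring
      _ ≤ K * Y := by
          apply mul_le_mul _ hN (by positivity) (by positivity)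
          rw [hK]; push_cast; linarith [Nat.cast_nonneg (α := ℝ) K1]
  constructor
  · -- all members
    have h1 := transfer m J1 J2 ρ0 hρ0 hgcd (fun N D => (N : ℝ) ≤ Y ∧ (D : ℝ) ≤ Y ^ κ) T (by
      intro x y D a b k hab _ hD _ _ hk hkρ e1 _ hP
      exact hmemT D a b k hab hD hk hkρ e1 hP.1 hP.2)
    refine ⟨h1.1, h1.2.trans ?_⟩
    have h2 := (hcore Y' T hY'1 hTprop).1
    have h3 : C1 * Y' ^ (2 / r + ε1) ≤ Ca * Y ^ (2 / r + ε) := by
      rw [hY', Real.mul_rpow (by positivity) hYpos.le, ← mul_assoc]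
      apply mul_le_mul_of_nonneg_left _ hCa0
      exact Real.rpow_le_rpow_of_exponent_le hY (by linarith)
    have h4 : 0 ≤ Y ^ (2 / r + ε) := by positivity
    calc 3 * (2 * (ρ0.natAbs : ℝ) + 1) * (T.card : ℝ) ≤ B * (Ca * Y ^ (2 / r + ε)) := by
          apply mul_le_mul_of_nonneg_left (h2.trans h3) hB0
      _ = B * Ca * Y ^ (2 / r + ε) := by ring
      _ ≤ _ := by
          apply mul_le_mul_of_nonneg_right _ h4
          nlinarith [mul_nonneg hB0 hCb0, mul_nonneg hB0 hCc0]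
  · -- members with large ratio
    set Ta : Finset (ℤ × ℤ) := T.filter (fun w => (radp Λ Θ w : ℝ) ^ (1 / r + ε1) <
      max |(w.1 : ℝ)| |(w.2 : ℝ)|) with hTa
    set Tb : Finset (ℤ × ℤ) := T.filter (fun w => (radp Λ Θ w : ℝ) ≤ R0) with hTb
    have h1 := transfer m J1 J2 ρ0 hρ0 hgcd (fun N D => (N : ℝ) ≤ Y ∧ (N : ℝ) ^ α ≤ (D : ℝ) ∧
        (D : ℝ) ≤ Y ^ κ) (Ta ∪ Tb) (by
      intro x y D a b k hab _ hD _ _ hk hkρ e1 _ hP
      obtain ⟨hP1, hP2, hP3⟩ := hP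
      have hm := hmemT D a b k hab hD hk hkρ e1 hP1 hP3
      rw [Finset.mem_union]
      by_cases hR : (radp Λ Θ (a, b) : ℝ) ≤ R0
      · right; rw [hTb, Finset.mem_filter]; exact ⟨hm, hR⟩
      left
      push Not at hR
      rw [hTa, Finset.mem_filter]
      refine ⟨hm, ?_⟩
      set H : ℝ := max |(a : ℝ)| |(b : ℝ)| with hH
      have hH1 : 1 ≤ H := one_le_max_abs (w := (a, b)) hab
      set ϱ : ℝ := (radp Λ Θ (a, b) : ℝ) with hϱ
      have hϱ1 : 1 < ϱ := lt_of_le_of_lt hR01 hR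
      have hϱ0 : 0 < ϱ := by linarith
      have h5 := hrad D a b k hab hD hk hkρ e1
      have h6 : ϱ ≤ K0 * (rd D.natAbs : ℝ) := by
        rw [hϱ]; exact_mod_cast h5
      have h7 : ϱ ^ α ≤ Kc * H ^ (m : ℝ) := by
        have g1 : ϱ ^ α ≤ (K0 : ℝ) ^ α * (rd D.natAbs : ℝ) ^ α := by
          rw [← Real.mul_rpow (by positivity) (by positivity)]
          exact Real.rpow_le_rpow hϱ0.le h6 hα0.le
        have g2 : (D.natAbs : ℝ) ≤ Cs * H ^ (m : ℝ) := by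
          have g3 : |((hev m J2 a b : ℤ) : ℝ)| ≤ Cs * H ^ m :=
            abs_hev_le m J2 a b H (le_max_left _ _) (le_max_right _ _)
          rw [e1, ← natAbs_cast_abs, Int.natAbs_mul] at g3
          push_cast at g3
          rw [Real.rpow_natCast]
          refine le_trans ?_ g3
          have g4 : (1 : ℝ) ≤ (k.natAbs : ℝ) := by exact_mod_cast Int.natAbs_pos.mpr hk
          have g5 : (0 : ℝ) ≤ (D.natAbs : ℝ) := Nat.cast_nonneg _
          exact le_mul_of_one_le_left g5 g4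
        calc ϱ ^ α ≤ (K0 : ℝ) ^ α * (rd D.natAbs : ℝ) ^ α := g1
          _ ≤ (K0 : ℝ) ^ α * (Cs * H ^ (m : ℝ)) := by
              apply mul_le_mul_of_nonneg_left (hP2.trans g2) (by positivity)
          _ ≤ (K0 : ℝ) ^ α * ((Cs + 1) * H ^ (m : ℝ)) := by
              have : 0 ≤ H ^ (m : ℝ) := by positivity
              gcongr
              linarith
          _ = Kc * H ^ (m : ℝ) := by rw [hKc]; ring
      have h8 : ϱ ^ (α / m) ≤ Kc ^ (1 / (m : ℝ)) * H := by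
        have g1 : (ϱ ^ α) ^ (1 / (m : ℝ)) ≤ (Kc * H ^ (m : ℝ)) ^ (1 / (m : ℝ)) :=
          Real.rpow_le_rpow (by positivity) h7 (by positivity)
        rw [← Real.rpow_mul hϱ0.le, Real.mul_rpow (by linarith) (by positivity),
          ← Real.rpow_mul (by linarith : (0 : ℝ) ≤ H)] at g1
        have g2 : (m : ℝ) * (1 / (m : ℝ)) = 1 := by field_simp
        have g3 : α * (1 / (m : ℝ)) = α / m := by ring
        rw [g2, g3, Real.rpow_one] at g1
        exact g1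
      have h9 : Kc ^ (1 / (m : ℝ)) < ϱ ^ ε1 := by
        have g1 : R0 ^ ε1 < ϱ ^ ε1 := Real.rpow_lt_rpow (by linarith) hR hε10
        have g2 : R0 ^ ε1 = Kc ^ (1 / (m : ℝ)) := by
          rw [hR0, ← Real.rpow_mul (by linarith), hε1]
          congr 1
          field_simp
        rw [← g2]; exact g1
      have h10 : ϱ ^ (α / m) = ϱ ^ (1 / r + ε1) * ϱ ^ ε1 := by
        rw [← Real.rpow_add hϱ0, hα, hε1]
        congr 1
        field_simp
        ring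
      rw [h10] at h8
      have h11 : 0 < Kc ^ (1 / (m : ℝ)) := by positivity
      have h12 : ϱ ^ (1 / r + ε1) * Kc ^ (1 / (m : ℝ)) < Kc ^ (1 / (m : ℝ)) * H :=
        lt_of_lt_of_le (mul_lt_mul_of_pos_left h9 (by positivity)) h8
      rw [mul_comm (Kc ^ (1 / (m : ℝ))) H] at h12
      exact lt_of_mul_lt_mul_right h12 h11.le)
    refine h1.2.trans ?_
    have hYδ : 1 ≤ Y ^ (2 / r - δ) := by
      apply Real.one_le_rpow hY
      have h2 : δ ≤ 1 / r := min_le_right _ _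
      have h3 : 1 / r ≤ 2 / r := by gcongr; norm_num
      linarith
    have h2 : (Ta.card : ℝ) ≤ Cb * Y ^ (2 / r - δ) := by
      have g1 := (hcore Y' Ta hY'1 (fun w hw => hTprop w (Finset.mem_filter.mp hw).1)).2
        (fun w hw => (Finset.mem_filter.mp hw).2)
      refine g1.trans ?_
      rw [hY', Real.mul_rpow (by positivity) hYpos.le, ← mul_assoc]
      apply mul_le_mul
      · rw [hCb]
        apply mul_le_mul_of_nonneg_left _ (by linarith)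
        exact Real.rpow_le_rpow_of_exponent_le hKR (by linarith)
      · exact Real.rpow_le_rpow_of_exponent_le hY (by linarith [min_le_left δ1 (1 / r)])
      · positivity
      · exact hCb0
    have h3 : (Tb.card : ℝ) ≤ Cc * Y ^ (2 / r - δ) := by
      have g1 := hsmall Z R0 Tb hZ1 (by linarith) (by
        intro w hw
        rw [hTb, Finset.mem_filter] at hw
        obtain ⟨hwT, hwR⟩ := hw
        obtain ⟨_, k2, _⟩ := hTprop w hwT
        refine ⟨k2 l1 hl1, k2 l2 hl2, ?_, hTZ w hwT⟩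
        refine le_trans ?_ hwR
        have g2 : rd (lf l1 w).natAbs * rd (lf l2 w).natAbs ≤ radp Λ Θ w := by
          unfold radp
          have g3 : (∏ l ∈ ({l1, l2} : Finset (ℤ × ℤ)), rd (lf l w).natAbs) ≤
              ∏ l ∈ Λ, rd (lf l w).natAbs := by
            apply Finset.prod_le_prod_of_subset_of_one_le'
            · intro l hl
              rcases Finset.mem_insert.mp hl with h | h
              · rw [h]; exact hl1
              · rw [Finset.mem_singleton.mp h]; exact hl2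
            · intro l _ _; exact rd_pos _
          rw [Finset.prod_pair hl12] at g3
          refine g3.trans (Nat.le_mul_of_pos_right _ ?_)
          exact Finset.prod_pos (fun q _ => rd_pos _)
        exact_mod_cast g2)
      refine g1.trans ?_
      have g2 : (Z : ℝ) ^ (1 / (r * κ)) ≤ (K : ℝ) ^ (1 / r) * Y ^ (2 / r - δ) := by
        calc (Z : ℝ) ^ (1 / (r * κ)) ≤ (Y' ^ κ) ^ (1 / (r * κ)) :=
              Real.rpow_le_rpow (by positivity) hZle (by positivity)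
          _ = Y' ^ (1 / r) := by
              rw [← Real.rpow_mul (by linarith)]
              congr 1
              field_simp
          _ = (K : ℝ) ^ (1 / r) * Y ^ (1 / r) := by
              rw [hY', Real.mul_rpow (by positivity) hYpos.le]
          _ ≤ _ := by
              apply mul_le_mul_of_nonneg_left _ (by positivity)
              apply Real.rpow_le_rpow_of_exponent_le hY
              have h2 : δ ≤ 1 / r := min_le_right _ _
              have h3 : 2 / r = 1 / r + 1 / r := by ring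
              linarith
      calc C2 * (Z : ℝ) ^ (1 / (r * κ)) * R0 ≤ C2 * ((K : ℝ) ^ (1 / r) * Y ^ (2 / r - δ)) * R0 := by
            gcongr
        _ = Cc * Y ^ (2 / r - δ) := by rw [hCc]; ring
    have h4 : ((Ta ∪ Tb).card : ℝ) ≤ (Ta.card : ℝ) + (Tb.card : ℝ) := by
      exact_mod_cast Finset.card_union_le _ _
    calc 3 * (2 * (ρ0.natAbs : ℝ) + 1) * ((Ta ∪ Tb).card : ℝ)
        ≤ B * ((Cb + Cc) * Y ^ (2 / r - δ)) := by
          apply mul_le_mul_of_nonneg_left _ hB0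
          linarith
      _ = B * (Cb + Cc) * Y ^ (2 / r - δ) := by ring
      _ ≤ _ := by
          apply mul_le_mul_of_nonneg_right _ (by linarith)
          nlinarith [mul_nonneg hB0 hCa0]

end Fm

end Pool.Agent.Lib.MP_d8bd92_nt
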