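import Pool.Agent.Lib.MP_d8bd92_nt.FmG

set_option autoImplicit false

/-!
New semistable members of a family from a given one by congruences.
-/

namespace Pool.Agent.Lib.MP_d8bd92_nt

open Finset Polynomial UniqueFactorizationMonoid Pool.Agent.Lib.Szpiro

namespace Fm

theorem hev_pow_field {K : Type*} [Field K] (n : ℕ) (f : K[X]) (hf : f.natDegree ≤ n) (a b : K)
    (k : ℕ) : hev (k * n) (f ^ k) a b = hev n f a b ^ k := by
  induction k with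
  | zero =>
    rw [zero_mul, pow_zero, pow_zero]
    unfold hev
    simp
  | succ k ih =>
    rw [pow_succ, pow_succ, ← ih, Nat.succ_mul]
    apply hev_mul
    · exact natDegree_pow_le_of_le k hf
    · exact hf

theorem hev_C_mul_field {K : Type*} [Field K] (n : ℕ) (f : K[X]) (a b c : K) :
    hev n (C c * f) a b = c * hev n f a b := by
  unfold hev
  rw [Finset.mul_sum]
  apply Finset.sum_congr rfl
  intro i _
  rw [coeff_C_mul]; ring

theorem hev_cast (n : ℕ) (f : ℤ[X]) (a b : ℤ) :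
    hev n (f.map (Int.castRingHom ℚ)) (a : ℚ) (b : ℚ) = ((hev n f a b : ℤ) : ℚ) := by
  have h := hev_map (Int.castRingHom ℚ) n f a b
  simpa using h

/-- congruences for values of forms -/
theorem hev_dvd_sub (n : ℕ) (f : ℤ[X]) (a b a' b' M : ℤ) (ha : M ∣ a - a') (hb : M ∣ b - b') :
    M ∣ hev n f a b - hev n f a' b' := by
  have ha' : a ≡ a' [ZMOD M] := (Int.modEq_iff_dvd.mpr ha).symm
  have hb' : b ≡ b' [ZMOD M] := (Int.modEq_iff_dvd.mpr hb).symm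
  have h : hev n f a b ≡ hev n f a' b' [ZMOD M] := by
    unfold hev
    apply Int.ModEq.sum
    intro i _
    exact ((Int.ModEq.refl _).mul (ha'.pow _)).mul (hb'.pow _)
  exact Int.modEq_iff_dvd.mp h.symm

/-- `c₄` and `c₆` of a semistable curve do not vanish -/
theorem c4_c6_ne_zero (W : WeierstrassCurve ℤ) (hss : IsCoprime W.c₄ W.Δ) :
    W.c₄ ≠ 0 ∧ W.c₆ ≠ 0 := by
  have hrel := W.c_relation
  constructor
  · intro h
    rw [h] at hss hrel
    have hu : IsUnit W.Δ := isCoprime_zero_left.mp hss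
    have h2 : W.c₆ ^ 2 = -1728 * W.Δ := by linarith
    rcases Int.isUnit_iff.mp hu with h3 | h3
    · rw [h3] at h2
      nlinarith [sq_nonneg W.c₆]
    · rw [h3] at h2
      have h4 : W.c₆.natAbs ^ 2 = 1728 := by
        have : ((W.c₆.natAbs ^ 2 : ℕ) : ℤ) = 1728 := by
          push_cast
          rw [sq_abs]
          linarith
        exact_mod_cast this
      have h5 : W.c₆.natAbs ≤ 41 ∨ 42 ≤ W.c₆.natAbs := by omega
      rcases h5 with h5 | h5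
      · have := Nat.pow_le_pow_left h5 2
        omega
      · have := Nat.pow_le_pow_left h5 2
        omega
  · intro h
    rw [h] at hrel
    have hdvd : W.Δ ∣ W.c₄ ^ 3 := ⟨1728, by linarith⟩
    have hu : IsUnit W.Δ := (IsCoprime.pow_left hss).isUnit_of_dvd' hdvd dvd_rfl
    have hcases : W.c₄ = 12 ∨ W.c₄ = -12 := by
      have h3 : W.c₄.natAbs ^ 3 = 1728 := by
        have h4 : (W.c₄ ^ 3).natAbs = (1728 * W.Δ).natAbs := by
          rw [hrel]; congr 1; ring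
        rw [Int.natAbs_pow, Int.natAbs_mul] at h4
        have h5 : W.Δ.natAbs = 1 := Int.isUnit_iff_natAbs_eq.mp hu
        rw [h5] at h4
        simpa using h4
      have h5 : W.c₄.natAbs = 12 := by
        have h6 : W.c₄.natAbs ≤ 11 ∨ W.c₄.natAbs = 12 ∨ 13 ≤ W.c₄.natAbs := by omega
        rcases h6 with h6 | h6 | h6
        · have := Nat.pow_le_pow_left h6 3
          omega
        · exact h6
        · have := Nat.pow_le_pow_left h6 3
          omega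
      omega
    have hb2 : W.b₂ = W.a₁ ^ 2 + 4 * W.a₂ := rfl
    have hb4 : W.b₄ = 2 * W.a₄ + W.a₁ * W.a₃ := rfl
    have hc4 : W.c₄ = W.b₂ ^ 2 - 24 * W.b₄ := rfl
    -- `a₁` is even
    have hpar : W.a₁ % 2 = 0 := by
      rcases Int.emod_two_eq_zero_or_one W.a₁ with h3 | h3
      · exact h3
      exfalso
      have h4 : W.b₂ % 2 = 1 := by
        rw [hb2]
        have : W.a₁ ^ 2 % 2 = 1 := by rw [pow_two, Int.mul_emod, h3]; norm_num
        omega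
      have h5 : W.b₂ ^ 2 % 2 = 1 := by rw [pow_two, Int.mul_emod, h4]; norm_num
      rcases hcases with h6 | h6 <;> rw [h6] at hc4 <;> omega
    obtain ⟨t, ht⟩ : ∃ t, W.a₁ = 2 * t := ⟨W.a₁ / 2, by omega⟩
    rw [ht] at hb2
    have h3 : W.b₂ = 4 * (t ^ 2 + W.a₂) := by rw [hb2]; ring
    rw [h3] at hc4
    rcases hcases with h6 | h6
    · rw [h6] at hc4
      have : 4 * (t ^ 2 + W.a₂) ^ 2 * 4 = 12 + 24 * W.b₄ := by linarith
      omega
    · rw [h6] at hc4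
      have : 4 * (t ^ 2 + W.a₂) ^ 2 * 4 = -12 + 24 * W.b₄ := by linarith
      omega

/-- changing `c₄` and `c₆` of an integral curve by multiples of `1728 s` -/
theorem shift_curve (W0 : WeierstrassCurve ℤ) (s x y : ℤ) :
    ∃ W : WeierstrassCurve ℤ, W.c₄ = W0.c₄ + 1728 * s * x ∧ W.c₆ = W0.c₆ + 1728 * s * y := by
  refine ⟨⟨W0.a₁, W0.a₂, W0.a₃, W0.a₄ - 36 * s * x, W0.a₆ - 3 * W0.b₂ * s * x - 2 * s * y⟩, ?_, ?_⟩
  · simp only [WeierstrassCurve.c₄, WeierstrassCurve.b₂, WeierstrassCurve.b₄]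
    ring
  · simp only [WeierstrassCurve.c₆, WeierstrassCurve.b₂, WeierstrassCurve.b₄, WeierstrassCurve.b₆]
    ring

theorem lift (J1 J2 : ℤ[X]) (n : ℕ) (hm1 : J1.natDegree ≤ 6 * n) (A B : ℚ[X]) (c c' : ℚ)
    (hc : c ≠ 0) (hc' : c' ≠ 0) (hA : J1.map (Int.castRingHom ℚ) = C c * A ^ 3)
    (hB : (J1 - C 1728 * J2).map (Int.castRingHom ℚ) = C c' * B ^ 2)
    (hm2 : J2.natDegree ≤ 6 * n) (ρ0 : ℤ) (hρ0 : ρ0 ≠ 0)
    (hgcd : ∀ a b d : ℤ, IsCoprime a b → d ∣ hev (6 * n) J1 a b → d ∣ hev (6 * n) J2 a b → d ∣ ρ0)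
    (W0 : WeierstrassCurve ℤ) (hΔ : W0.Δ ≠ 0) (hss : IsCoprime W0.c₄ W0.Δ) (a0 b0 : ℤ)
    (hab : IsCoprime a0 b0) (hj : hev (6 * n) J1 a0 b0 * W0.Δ = hev (6 * n) J2 a0 b0 * W0.c₄ ^ 3) :
    ∃ (M : ℕ) (k : ℤ), 1 ≤ M ∧ k ≠ 0 ∧ ∀ a b : ℤ, IsCoprime a b → (M : ℤ) ∣ a - a0 →
      (M : ℤ) ∣ b - b0 → hev (6 * n) J2 a b ≠ 0 → ∃ W : WeierstrassCurve ℤ,
        hev (6 * n) J2 a b = k * W.Δ ∧ hev (6 * n) J1 a b = k * W.c₄ ^ 3 ∧ W.Δ ≠ 0 ∧
        IsCoprime W.c₄ W.Δ := by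
  obtain ⟨hc40, hc60⟩ := c4_c6_ne_zero W0 hss
  obtain ⟨k, hk, hkρ, e1, e2⟩ := exists_mult (6 * n) J1 J2 ρ0 hρ0 hgcd W0.c₄ W0.Δ a0 b0 hab hΔ hss hj
  -- values of the forms over the rationals
  have hdA : A.natDegree ≤ 2 * n := by
    have h1 : (J1.map (Int.castRingHom ℚ)).natDegree = 3 * A.natDegree := by
      rw [hA, natDegree_C_mul hc, natDegree_pow]
    have h2 : (J1.map (Int.castRingHom ℚ)).natDegree ≤ 6 * n := natDegree_map_le.trans hm1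
    omega
  have hdB : B.natDegree ≤ 3 * n := by
    have h1 : ((J1 - C 1728 * J2).map (Int.castRingHom ℚ)).natDegree = 2 * B.natDegree := by
      rw [hB, natDegree_C_mul hc', natDegree_pow]
    have h2 : ((J1 - C 1728 * J2).map (Int.castRingHom ℚ)).natDegree ≤ 6 * n := by
      refine natDegree_map_le.trans ((natDegree_sub_le _ _).trans (max_le hm1 ?_))
      exact (natDegree_C_mul_le _ _).trans hm2
    omega
  have hAval : ∀ a b : ℤ, ((hev (6 * n) J1 a b : ℤ) : ℚ) = c * hev (2 * n) A (a : ℚ) (b : ℚ) ^ 3 := by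
    intro a b
    rw [← hev_cast, hA, hev_C_mul_field, ← hev_pow_field _ _ hdA]
    congr 2
    ring
  have hBval : ∀ a b : ℤ, ((hev (6 * n) J1 a b : ℤ) : ℚ) - 1728 * ((hev (6 * n) J2 a b : ℤ) : ℚ) =
      c' * hev (3 * n) B (a : ℚ) (b : ℚ) ^ 2 := by
    intro a b
    have h1 : hev (6 * n) (J1 - C 1728 * J2) a b = hev (6 * n) J1 a b - 1728 * hev (6 * n) J2 a b := by
      unfold hev
      rw [Finset.mul_sum, ← Finset.sum_sub_distrib]
      apply Finset.sum_congr rfl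
      intro i _
      rw [coeff_sub, coeff_C_mul]; ring
    have h2 : (((hev (6 * n) (J1 - C 1728 * J2) a b : ℤ) : ℚ)) =
        c' * hev (3 * n) B (a : ℚ) (b : ℚ) ^ 2 := by
      rw [← hev_cast, hB, hev_C_mul_field, ← hev_pow_field _ _ hdB]
      congr 2
      ring
    rw [← h2, h1]
    push_cast; ring
  set A0 : ℚ := hev (2 * n) A (a0 : ℚ) (b0 : ℚ) with hA0
  set B0 : ℚ := hev (3 * n) B (a0 : ℚ) (b0 : ℚ) with hB0
  have hkq : (k : ℚ) ≠ 0 := by exact_mod_cast hk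
  have hc40q : (W0.c₄ : ℚ) ≠ 0 := by exact_mod_cast hc40
  have hc60q : (W0.c₆ : ℚ) ≠ 0 := by exact_mod_cast hc60
  have hrel0 : (1728 : ℚ) * (W0.Δ : ℚ) = (W0.c₄ : ℚ) ^ 3 - (W0.c₆ : ℚ) ^ 2 := by
    exact_mod_cast W0.c_relation
  have hF0 : (k : ℚ) * (W0.c₄ : ℚ) ^ 3 = c * A0 ^ 3 := by
    rw [hA0, ← hAval, e2]; push_cast; ring
  have hG0 : (k : ℚ) * (W0.c₆ : ℚ) ^ 2 = c' * B0 ^ 2 := by
    rw [hB0, ← hBval, e1, e2]
    push_cast
    linear_combination (k : ℚ) * hrel0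
  have hA0ne : A0 ≠ 0 := by
    intro h
    rw [h] at hF0
    have : (k : ℚ) * (W0.c₄ : ℚ) ^ 3 = 0 := by rw [hF0]; ring
    exact (mul_ne_zero hkq (pow_ne_zero 3 hc40q)) this
  have hB0ne : B0 ≠ 0 := by
    intro h
    rw [h] at hG0
    have : (k : ℚ) * (W0.c₆ : ℚ) ^ 2 = 0 := by rw [hG0]; ring
    exact (mul_ne_zero hkq (pow_ne_zero 2 hc60q)) this
  set lam : ℚ := W0.c₄ / A0 with hlam
  set mu : ℚ := W0.c₆ / B0 with hmu
  have hlam0 : lam * A0 = W0.c₄ := by rw [hlam]; field_simp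
  have hmu0 : mu * B0 = W0.c₆ := by rw [hmu]; field_simp
  have hlam3 : (k : ℚ) * lam ^ 3 = c := by
    have h1 : (k : ℚ) * lam ^ 3 * A0 ^ 3 = c * A0 ^ 3 := by
      rw [← hF0, ← hlam0]; ring
    exact mul_right_cancel₀ (pow_ne_zero 3 hA0ne) h1
  have hmu2 : (k : ℚ) * mu ^ 2 = c' := by
    have h1 : (k : ℚ) * mu ^ 2 * B0 ^ 2 = c' * B0 ^ 2 := by
      rw [← hG0, ← hmu0]; ring
    exact mul_right_cancel₀ (pow_ne_zero 2 hB0ne) h1
  obtain ⟨A', e, he, hA'⟩ := exists_int_poly (C lam * A)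
  obtain ⟨B', e', he', hB'⟩ := exists_int_poly (C mu * B)
  have hA'val : ∀ a b : ℤ, ((hev (2 * n) A' a b : ℤ) : ℚ) = e * (lam * hev (2 * n) A (a : ℚ) (b : ℚ)) := by
    intro a b
    rw [← hev_cast, hA', hev_C_mul_field, hev_C_mul_field]
  have hB'val : ∀ a b : ℤ, ((hev (3 * n) B' a b : ℤ) : ℚ) = e' * (mu * hev (3 * n) B (a : ℚ) (b : ℚ)) := by
    intro a b
    rw [← hev_cast, hB', hev_C_mul_field, hev_C_mul_field]
  have hA'0 : hev (2 * n) A' a0 b0 = e * W0.c₄ := by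
    have : ((hev (2 * n) A' a0 b0 : ℤ) : ℚ) = ((e * W0.c₄ : ℤ) : ℚ) := by
      rw [hA'val, ← hA0, hlam0]; push_cast; ring
    exact_mod_cast this
  have hB'0 : hev (3 * n) B' a0 b0 = e' * W0.c₆ := by
    have : ((hev (3 * n) B' a0 b0 : ℤ) : ℚ) = ((e' * W0.c₆ : ℤ) : ℚ) := by
      rw [hB'val, ← hB0, hmu0]; push_cast; ring
    exact_mod_cast this
  set M : ℕ := (e * e' * (1728 * ρ0)).natAbs with hM
  refine ⟨M, k, Int.natAbs_pos.mpr (mul_ne_zero (mul_ne_zero he he') (by positivity)), hk, ?_⟩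
  intro a b hab' hMa hMb hne
  have hMdvd : ∀ z : ℤ, (M : ℤ) ∣ z → e * e' * (1728 * ρ0) ∣ z := by
    intro z hz
    rw [hM] at hz
    exact Int.natAbs_dvd.mp hz
  have hx := hMdvd _ (hev_dvd_sub (2 * n) A' a b a0 b0 M hMa hMb)
  have hy := hMdvd _ (hev_dvd_sub (3 * n) B' a b a0 b0 M hMa hMb)
  obtain ⟨x, hx⟩ := hx
  obtain ⟨y, hy⟩ := hy
  rw [hA'0] at hx
  rw [hB'0] at hy
  obtain ⟨W, hW4, hW6⟩ := shift_curve W0 ρ0 (e' * x) (e * y)
  have hW4' : e * W.c₄ = hev (2 * n) A' a b := by rw [hW4]; linear_combination -hx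
  have hW6' : e' * W.c₆ = hev (3 * n) B' a b := by rw [hW6]; linear_combination -hy
  have heq : (e : ℚ) ≠ 0 := by exact_mod_cast he
  have heq' : (e' : ℚ) ≠ 0 := by exact_mod_cast he'
  have hW4q : (W.c₄ : ℚ) = lam * hev (2 * n) A (a : ℚ) (b : ℚ) := by
    have h1 : (e : ℚ) * (W.c₄ : ℚ) = e * (lam * hev (2 * n) A (a : ℚ) (b : ℚ)) := by
      rw [← hA'val, ← hW4']; push_cast; ring
    exact mul_left_cancel₀ heq h1
  have hW6q : (W.c₆ : ℚ) = mu * hev (3 * n) B (a : ℚ) (b : ℚ) := by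
    have h1 : (e' : ℚ) * (W.c₆ : ℚ) = e' * (mu * hev (3 * n) B (a : ℚ) (b : ℚ)) := by
      rw [← hB'val, ← hW6']; push_cast; ring
    exact mul_left_cancel₀ heq' h1
  have hF : hev (6 * n) J1 a b = k * W.c₄ ^ 3 := by
    have : ((hev (6 * n) J1 a b : ℤ) : ℚ) = ((k * W.c₄ ^ 3 : ℤ) : ℚ) := by
      rw [hAval, ← hlam3]; push_cast; rw [hW4q]; ring
    exact_mod_cast this
  have hrelW : (1728 : ℚ) * (W.Δ : ℚ) = (W.c₄ : ℚ) ^ 3 - (W.c₆ : ℚ) ^ 2 := by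
    exact_mod_cast W.c_relation
  have hG : hev (6 * n) J2 a b = k * W.Δ := by
    have h1 := hBval a b
    rw [hF, ← hmu2] at h1
    push_cast at h1
    have h2 : (k : ℚ) * mu ^ 2 * hev (3 * n) B (a : ℚ) (b : ℚ) ^ 2 = k * (W.c₆ : ℚ) ^ 2 := by
      rw [hW6q]; ring
    rw [h2] at h1
    have h3 : (1728 : ℚ) * ((hev (6 * n) J2 a b : ℤ) : ℚ) = 1728 * ((k * W.Δ : ℤ) : ℚ) := by
      push_cast
      linear_combination (-1 : ℚ) * h1 - (k : ℚ) * hrelW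
    have h4 := mul_left_cancel₀ (by norm_num : (1728 : ℚ) ≠ 0) h3
    exact_mod_cast h4
  have hΔW : W.Δ ≠ 0 := by
    intro h
    rw [h, mul_zero] at hG
    exact hne hG
  refine ⟨W, hG, hF, hΔW, ?_⟩
  rw [Int.isCoprime_iff_gcd_eq_one]
  by_contra hg
  obtain ⟨p, hp, hpd⟩ := Nat.exists_prime_and_dvd hg
  have hp1 : (p : ℤ) ∣ W.c₄ := (Int.natCast_dvd_natCast.mpr hpd).trans (Int.gcd_dvd_left _ _)
  have hp2 : (p : ℤ) ∣ W.Δ := (Int.natCast_dvd_natCast.mpr hpd).trans (Int.gcd_dvd_right _ _)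
  have hpρ : (p : ℤ) ∣ ρ0 := by
    apply hgcd a b p hab'
    · rw [hF]; exact (dvd_pow hp1 (by norm_num)).mul_left _
    · rw [hG]; exact hp2.mul_left _
  have hq1 : (p : ℤ) ∣ W0.c₄ := by
    have h1 : W0.c₄ = W.c₄ - ρ0 * (1728 * (e' * x)) := by rw [hW4]; ring
    rw [h1]
    exact dvd_sub hp1 (hpρ.mul_right _)
  have hq2 : (p : ℤ) ∣ W0.Δ := by
    set X := e' * x with hX
    set Z := e * y with hZ
    have h1 : W0.Δ = W.Δ - ρ0 * (X * (3 * W0.c₄ ^ 2 + 3 * W0.c₄ * (1728 * ρ0 * X) +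
        (1728 * ρ0 * X) ^ 2) - Z * (2 * W0.c₆ + 1728 * ρ0 * Z)) := by
      have h2 := W.c_relation
      rw [hW4, hW6] at h2
      have h3 := W0.c_relation
      have h4 : 1728 * W0.Δ = 1728 * (W.Δ - ρ0 * (X * (3 * W0.c₄ ^ 2 + 3 * W0.c₄ * (1728 * ρ0 * X) +
        (1728 * ρ0 * X) ^ 2) - Z * (2 * W0.c₆ + 1728 * ρ0 * Z))) := by
        linear_combination h3 - h2
      exact mul_left_cancel₀ (by norm_num) h4
    rw [h1]
    exact dvd_sub hp2 (hpρ.mul_right _)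
  have hpp : Prime (p : ℤ) := Nat.prime_iff_prime_int.mp hp
  exact hpp.not_isUnit (hss.isUnit_of_dvd' hq1 hq2)

end Fm

end Pool.Agent.Lib.MP_d8bd92_nt
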