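import Pool.Agent.Lib.MP_d8bd92_nt.FamForm

/-! Lower bound of Theorem F (MP_d8bd92_nt): many coprime pairs in a residue class (helper96). -/

set_option autoImplicit false

namespace Pool.Agent.Lib.MP_d8bd92_nt

open Finset Polynomial

namespace Fm

theorem cc_count (N p q a : ℕ) (hq : Nat.Coprime p q) :
    ((Finset.range N).filter (fun i => p ∣ a + q * i)).card ≤ N / p + 1 := by
  have h : ((Finset.range N).filter (fun i => p ∣ a + q * i)).card
      ≤ (Finset.range (N / p + 1)).card := by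
    apply Finset.card_le_card_of_injOn (fun i => i / p)
    · intro i hi
      simp only [Finset.coe_filter, Finset.mem_range, Set.mem_ofPred_eq] at hi
      simp only [Finset.coe_range, Set.mem_Iio]
      exact Nat.lt_succ_of_le (Nat.div_le_div_right hi.1.le)
    · intro i hi j hj hij
      simp only [Finset.coe_filter, Finset.mem_range, Set.mem_ofPred_eq] at hi hj
      have h1 : (q * i) ≡ (q * j) [MOD p] := by
        have := (Nat.modEq_zero_iff_dvd.2 hi.2).trans (Nat.modEq_zero_iff_dvd.2 hj.2).symm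
        exact Nat.ModEq.add_left_cancel' a this
      have h2 : i ≡ j [MOD p] := Nat.ModEq.cancel_left_of_coprime hq h1
      have h3 := Nat.div_add_mod i p
      have h4 := Nat.div_add_mod j p
      have h5 : i % p = j % p := h2
      simp only at hij
      rw [← h3, ← h4, h5, hij]
  simpa using h

theorem cc_zeros (J : ℤ[X]) (hJ : J ≠ 0) (m : ℕ) (hm : J.natDegree ≤ m) (b : ℤ) (hb : b ≠ 0)
    (N q a : ℕ) (hq : 0 < q) :
    ((Finset.range N).filter (fun i => hev m J ((a + q * i : ℕ) : ℤ) b = 0)).card ≤ m := by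
  set f : ℚ[X] := J.map (Int.castRingHom ℚ) with hfdef
  have hf : f ≠ 0 := (Polynomial.map_ne_zero_iff (RingHom.injective_int _)).2 hJ
  have hfd : f.natDegree ≤ m := natDegree_map_le.trans hm
  have hbQ : (b : ℚ) ≠ 0 := by exact_mod_cast hb
  have h1 : ((Finset.range N).filter (fun i => hev m J ((a + q * i : ℕ) : ℤ) b = 0)).card
      ≤ f.roots.toFinset.card := by
    apply Finset.card_le_card_of_injOn (fun i => ((a + q * i : ℕ) : ℚ) / (b : ℚ))
    · intro i hi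
      simp only [Finset.coe_filter, Finset.mem_range, Set.mem_ofPred_eq] at hi
      simp only [Finset.mem_coe, Multiset.mem_toFinset, mem_roots hf, IsRoot.def]
      have h2 := hev_eq_eval m f hfd ((a + q * i : ℕ) : ℚ) (b : ℚ) hbQ
      have h3 := hev_map (Int.castRingHom ℚ) m J ((a + q * i : ℕ) : ℤ) b
      rw [hi.2, map_zero] at h3
      have h4 : hev m f ((a + q * i : ℕ) : ℚ) (b : ℚ) = 0 := by
        rw [← h3]
        simp [hfdef]
      rw [h4] at h2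
      have h5 : (b : ℚ) ^ m ≠ 0 := pow_ne_zero _ hbQ
      rcases mul_eq_zero.1 h2.symm with h | h
      · exact absurd h h5
      · exact h
    · intro i _ j _ hij
      simp only at hij
      rw [div_left_inj' hbQ] at hij
      have h6 : a + q * i = a + q * j := by exact_mod_cast hij
      exact Nat.eq_of_mul_eq_mul_left hq (by omega)
  calc _ ≤ f.roots.toFinset.card := h1
    _ ≤ Multiset.card f.roots := Multiset.toFinset_card_le _
    _ ≤ f.natDegree := card_roots' _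
    _ ≤ m := hfd

theorem cc_sq (N p : ℕ) (hp : 0 < p) :
    (((N / p + 1 : ℕ) : ℝ)) ^ 2 ≤ 4 * (N : ℝ) ^ 2 * ((p : ℝ) ^ 2)⁻¹ + 1 := by
  have hp' : (0 : ℝ) < p := by exact_mod_cast hp
  rcases le_or_gt p N with h | h
  · have h1 : ((N / p + 1 : ℕ) : ℝ) ≤ 2 * (N : ℝ) * (p : ℝ)⁻¹ := by
      push_cast
      have h2 : ((N / p : ℕ) : ℝ) ≤ (N : ℝ) / p := Nat.cast_div_le
      have h3 : (1 : ℝ) ≤ (N : ℝ) / p := by
        rw [le_div_iff₀ hp', one_mul]
        exact_mod_cast h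
      rw [div_eq_mul_inv] at h2 h3
      linarith
    have h4 : (0 : ℝ) ≤ ((N / p + 1 : ℕ) : ℝ) := Nat.cast_nonneg _
    have h5 := pow_le_pow_left₀ h4 h1 2
    have h6 : (2 * (N : ℝ) * (p : ℝ)⁻¹) ^ 2 = 4 * (N : ℝ) ^ 2 * ((p : ℝ) ^ 2)⁻¹ := by
      rw [mul_pow, mul_pow, inv_pow]
      ring
    linarith
  · rw [Nat.div_eq_of_lt h]
    have : (0 : ℝ) ≤ 4 * (N : ℝ) ^ 2 * ((p : ℝ) ^ 2)⁻¹ := by positivity
    push_cast
    linarith

theorem cc_bad (q a b : ℕ) (hq : 0 < q) (ha : 1 ≤ a) (ha' : a ≤ q)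
    (h16 : ∀ p : ℕ, p.Prime → p ≤ 16 → p ∣ q)
    (hcop : ∀ p : ℕ, p.Prime → p ∣ q → p ∣ a → ¬ p ∣ b) (N : ℕ) :
    ((((range N) ×ˢ (range N)).filter
      (fun w => ¬ Nat.Coprime (a + q * w.1) (b + q * w.2))).card : ℝ)
      ≤ (1 / 4 : ℝ) * (N : ℝ) ^ 2 + q * N := by
  classical
  set P : Finset ℕ := (Finset.Ioc 16 (q * N)).filter (fun p => p.Prime ∧ Nat.Coprime p q) with hP
  have hsub : (((range N) ×ˢ (range N)).filter
      (fun w => ¬ Nat.Coprime (a + q * w.1) (b + q * w.2))) ⊆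
      P.biUnion (fun p => ((range N).filter (fun i => p ∣ a + q * i)) ×ˢ
        ((range N).filter (fun i => p ∣ b + q * i))) := by
    intro w hw
    simp only [mem_filter, mem_product, mem_range] at hw
    obtain ⟨⟨hi, hj⟩, hnc⟩ := hw
    obtain ⟨p, hp, hpa, hpb⟩ := Nat.Prime.not_coprime_iff_dvd.1 hnc
    have hpq : ¬ p ∣ q := by
      intro h
      have h1 : p ∣ a := (Nat.dvd_add_left (Dvd.dvd.mul_right h _)).1 hpa
      have h2 : p ∣ b := (Nat.dvd_add_left (Dvd.dvd.mul_right h _)).1 hpb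
      exact hcop p hp h h1 h2
    have h17 : 16 < p := by
      by_contra h
      exact hpq (h16 p hp (by omega))
    have hle : p ≤ q * N := by
      have h1 := Nat.le_of_dvd (by omega) hpa
      have h2 : q * w.1 + q ≤ q * N := by
        calc q * w.1 + q = q * (w.1 + 1) := by ring
          _ ≤ q * N := Nat.mul_le_mul_left _ hi
      omega
    simp only [mem_biUnion, mem_product, mem_filter, mem_range, hP, mem_Ioc]
    exact ⟨p, ⟨⟨h17, hle⟩, hp, (Nat.Prime.coprime_iff_not_dvd hp).2 hpq⟩, ⟨hi, hpa⟩, ⟨hj, hpb⟩⟩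
  have h1 := (card_le_card hsub).trans card_biUnion_le
  have h2 : (∑ p ∈ P, (((range N).filter (fun i => p ∣ a + q * i)) ×ˢ
        ((range N).filter (fun i => p ∣ b + q * i))).card) ≤ ∑ p ∈ P, (N / p + 1) ^ 2 := by
    apply Finset.sum_le_sum
    intro p hp
    simp only [hP, mem_filter, mem_Ioc] at hp
    rw [card_product, sq]
    exact Nat.mul_le_mul (cc_count N p q a hp.2.2) (cc_count N p q b hp.2.2)
  have h3 : ((∑ p ∈ P, (N / p + 1) ^ 2 : ℕ) : ℝ)
      ≤ ∑ p ∈ Finset.Ioc 16 (q * N), (4 * (N : ℝ) ^ 2 * ((p : ℝ) ^ 2)⁻¹ + 1) := by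
    rw [Nat.cast_sum]
    have h4 : ∑ p ∈ P, (((N / p + 1) ^ 2 : ℕ) : ℝ)
        ≤ ∑ p ∈ P, (4 * (N : ℝ) ^ 2 * ((p : ℝ) ^ 2)⁻¹ + 1) := by
      apply Finset.sum_le_sum
      intro p hp
      simp only [hP, mem_filter, mem_Ioc] at hp
      rw [Nat.cast_pow]
      exact cc_sq N p (by omega)
    refine h4.trans (Finset.sum_le_sum_of_subset_of_nonneg (Finset.filter_subset _ _) ?_)
    intro p _ _
    positivity
  have h5 : ∑ p ∈ Finset.Ioc 16 (q * N), (4 * (N : ℝ) ^ 2 * ((p : ℝ) ^ 2)⁻¹ + 1)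
      ≤ (1 / 4 : ℝ) * (N : ℝ) ^ 2 + q * N := by
    rw [Finset.sum_add_distrib, ← Finset.mul_sum, Finset.sum_const, Nat.card_Ioc, nsmul_eq_mul,
      mul_one]
    have h6 : (((q * N - 16 : ℕ)) : ℝ) ≤ (q : ℝ) * N := by
      have : (q * N - 16 : ℕ) ≤ q * N := Nat.sub_le _ _
      exact_mod_cast this
    have h7 : ∑ i ∈ Finset.Ioc 16 (q * N), ((i : ℝ) ^ 2)⁻¹ ≤ 1 / 16 := by
      rcases le_or_gt 16 (q * N) with h | h
      · have h8 := sum_Ioc_inv_sq_le_sub (α := ℝ) (k := 16) (n := q * N) (by norm_num) h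
        have h9 : (0 : ℝ) ≤ ((q * N : ℕ) : ℝ)⁻¹ := by positivity
        push_cast at h8 h9 ⊢
        linarith
      · rw [Finset.Ioc_eq_empty (by omega)]
        norm_num
    have h8 : 4 * (N : ℝ) ^ 2 * ∑ i ∈ Finset.Ioc 16 (q * N), ((i : ℝ) ^ 2)⁻¹
        ≤ 4 * (N : ℝ) ^ 2 * (1 / 16) := mul_le_mul_of_nonneg_left h7 (by positivity)
    linarith
  have h6 : ((((range N) ×ˢ (range N)).filter
      (fun w => ¬ Nat.Coprime (a + q * w.1) (b + q * w.2))).card : ℝ)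
      ≤ ((∑ p ∈ P, (N / p + 1) ^ 2 : ℕ) : ℝ) := by exact_mod_cast h1.trans h2
  linarith

theorem cc_good (J : ℤ[X]) (hJ : J ≠ 0) (m : ℕ) (hm : J.natDegree ≤ m) (q a b : ℕ) (hq : 0 < q)
    (ha : 1 ≤ a) (ha' : a ≤ q) (hb : 1 ≤ b)
    (h16 : ∀ p : ℕ, p.Prime → p ≤ 16 → p ∣ q)
    (hcop : ∀ p : ℕ, p.Prime → p ∣ q → p ∣ a → ¬ p ∣ b) (N : ℕ) :
    (3 / 4 : ℝ) * (N : ℝ) ^ 2 - (q + m) * N ≤
    ((((range N) ×ˢ (range N)).filter
      (fun w => Nat.Coprime (a + q * w.1) (b + q * w.2) ∧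
        hev m J ((a + q * w.1 : ℕ) : ℤ) ((b + q * w.2 : ℕ) : ℤ) ≠ 0)).card : ℝ) := by
  classical
  set T := (range N) ×ˢ (range N) with hT
  have h1 := Finset.card_filter_add_card_filter_not (s := T)
    (fun w => Nat.Coprime (a + q * w.1) (b + q * w.2) ∧
        hev m J ((a + q * w.1 : ℕ) : ℤ) ((b + q * w.2 : ℕ) : ℤ) ≠ 0)
  have h2 : T.card = N * N := by rw [hT, card_product, card_range]
  have h3 : (T.filter (fun w => ¬ (Nat.Coprime (a + q * w.1) (b + q * w.2) ∧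
        hev m J ((a + q * w.1 : ℕ) : ℤ) ((b + q * w.2 : ℕ) : ℤ) ≠ 0))).card ≤
      (T.filter (fun w => ¬ Nat.Coprime (a + q * w.1) (b + q * w.2))).card +
      (T.filter (fun w => hev m J ((a + q * w.1 : ℕ) : ℤ) ((b + q * w.2 : ℕ) : ℤ) = 0)).card := by
    refine le_trans (card_le_card ?_) (card_union_le _ _)
    intro w hw
    simp only [mem_union, mem_filter] at hw ⊢
    obtain ⟨h, h'⟩ := hw
    by_cases hc : Nat.Coprime (a + q * w.1) (b + q * w.2)
    · right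
      refine ⟨h, ?_⟩
      by_contra hne
      exact h' ⟨hc, hne⟩
    · exact Or.inl ⟨h, hc⟩
  have h4 : (T.filter (fun w => hev m J ((a + q * w.1 : ℕ) : ℤ) ((b + q * w.2 : ℕ) : ℤ) = 0)).card
      ≤ N * m := by
    have hsub : (T.filter (fun w => hev m J ((a + q * w.1 : ℕ) : ℤ) ((b + q * w.2 : ℕ) : ℤ) = 0))
        ⊆ (range N).biUnion (fun j => ((range N).filter
          (fun i => hev m J ((a + q * i : ℕ) : ℤ) ((b + q * j : ℕ) : ℤ) = 0)).image
            (fun i => (i, j))) := by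
      intro w hw
      simp only [hT, mem_filter, mem_product, mem_range] at hw
      simp only [mem_biUnion, mem_image, mem_filter, mem_range]
      exact ⟨w.2, hw.1.2, w.1, ⟨hw.1.1, hw.2⟩, rfl⟩
    refine (card_le_card hsub).trans ?_
    have := Finset.card_biUnion_le_card_mul (range N) (fun j => ((range N).filter
          (fun i => hev m J ((a + q * i : ℕ) : ℤ) ((b + q * j : ℕ) : ℤ) = 0)).image
            (fun i => (i, j))) m (by
      intro j _
      refine card_image_le.trans (cc_zeros J hJ m hm _ ?_ N q a hq)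
      have : 0 < b + q * j := by omega
      exact_mod_cast this.ne')
    simpa using this
  have h5 := cc_bad q a b hq ha ha' h16 hcop N
  rw [h2] at h1
  have h1' : (((T.filter (fun w => Nat.Coprime (a + q * w.1) (b + q * w.2) ∧
        hev m J ((a + q * w.1 : ℕ) : ℤ) ((b + q * w.2 : ℕ) : ℤ) ≠ 0)).card : ℕ) : ℝ) +
      ((T.filter (fun w => ¬ (Nat.Coprime (a + q * w.1) (b + q * w.2) ∧
        hev m J ((a + q * w.1 : ℕ) : ℤ) ((b + q * w.2 : ℕ) : ℤ) ≠ 0))).card : ℝ) = (N : ℝ) * N := by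
    exact_mod_cast h1
  have h3' : ((T.filter (fun w => ¬ (Nat.Coprime (a + q * w.1) (b + q * w.2) ∧
        hev m J ((a + q * w.1 : ℕ) : ℤ) ((b + q * w.2 : ℕ) : ℤ) ≠ 0))).card : ℝ) ≤
      ((T.filter (fun w => ¬ Nat.Coprime (a + q * w.1) (b + q * w.2))).card : ℝ) +
      ((T.filter (fun w => hev m J ((a + q * w.1 : ℕ) : ℤ) ((b + q * w.2 : ℕ) : ℤ) = 0)).card : ℝ) := by
    exact_mod_cast h3
  have h4' : ((T.filter (fun w => hev m J ((a + q * w.1 : ℕ) : ℤ)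
      ((b + q * w.2 : ℕ) : ℤ) = 0)).card : ℝ) ≤ (N : ℝ) * m := by exact_mod_cast h4
  nlinarith [h1', h3', h4', h5]

/-- many coprime pairs in a residue class coprime to the modulus, off finitely many lines. -/
theorem coprime_class (J : ℤ[X]) (hJ : J ≠ 0) (m : ℕ) (hm : J.natDegree ≤ m) (M : ℕ) (hM : 1 ≤ M)
    (a0 b0 : ℤ) (hab : IsCoprime a0 b0) :
    ∃ c H0 : ℝ, 0 < c ∧ ∀ H : ℝ, H0 ≤ H → ∃ S : Finset (ℤ × ℤ), c * H ^ 2 ≤ (S.card : ℝ) ∧
      ∀ w ∈ S, IsCoprime w.1 w.2 ∧ |(w.1 : ℝ)| ≤ H ∧ 1 ≤ w.2 ∧ (w.2 : ℝ) ≤ H ∧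
        (M : ℤ) ∣ w.1 - a0 ∧ (M : ℤ) ∣ w.2 - b0 ∧ hev m J w.1 w.2 ≠ 0 := by
  classical
  set q : ℕ := M * Nat.factorial 16 with hqdef
  have hq : 0 < q := Nat.mul_pos hM (Nat.factorial_pos _)
  have hqZ : (0 : ℤ) < q := by exact_mod_cast hq
  have hqR : (0 : ℝ) < q := by exact_mod_cast hq
  have hq1 : (1 : ℝ) ≤ q := by exact_mod_cast hq
  -- representatives in [1, q]
  have hrep : ∀ x : ℤ, ∃ a : ℕ, 1 ≤ a ∧ a ≤ q ∧ (q : ℤ) ∣ (a : ℤ) - x := by
    intro x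
    refine ⟨((x - 1) % q).toNat + 1, by omega, ?_, ?_⟩
    · have h1 := Int.emod_nonneg (x - 1) hqZ.ne'
      have h2 := Int.emod_lt_of_pos (x - 1) hqZ
      omega
    · have h1 := Int.emod_nonneg (x - 1) hqZ.ne'
      have h3 : ((((x - 1) % q).toNat + 1 : ℕ) : ℤ) = (x - 1) % q + 1 := by
        rw [Nat.cast_add, Int.toNat_of_nonneg h1, Nat.cast_one]
      rw [h3]
      have h4 := Int.emod_add_mul_ediv (x - 1) q
      exact ⟨-((x - 1) / q), by linarith⟩
  obtain ⟨a, ha, ha', had⟩ := hrep a0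
  obtain ⟨b, hb, hb', hbd⟩ := hrep b0
  have h16 : ∀ p : ℕ, p.Prime → p ≤ 16 → p ∣ q := fun p hp hp16 =>
    Dvd.dvd.mul_left ((Nat.Prime.dvd_factorial hp).2 hp16) _
  have hcop : ∀ p : ℕ, p.Prime → p ∣ q → p ∣ a → ¬ p ∣ b := by
    intro p hp hpq hpa hpb
    have h1 : (p : ℤ) ∣ a0 := by
      have h2 : (p : ℤ) ∣ (a : ℤ) - a0 := dvd_trans (by exact_mod_cast hpq) had
      have h3 : (p : ℤ) ∣ (a : ℤ) := by exact_mod_cast hpa
      exact (dvd_sub_right h3).1 h2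
    have h1' : (p : ℤ) ∣ b0 := by
      have h2 : (p : ℤ) ∣ (b : ℤ) - b0 := dvd_trans (by exact_mod_cast hpq) hbd
      have h3 : (p : ℤ) ∣ (b : ℤ) := by exact_mod_cast hpb
      exact (dvd_sub_right h3).1 h2
    have h4 : IsUnit (p : ℤ) := hab.isUnit_of_dvd' h1 h1'
    rw [Int.isUnit_iff] at h4
    have := hp.two_le
    omega
  have hMq : (M : ℤ) ∣ (q : ℤ) := by
    have : M ∣ q := Dvd.intro _ rfl
    exact_mod_cast this
  refine ⟨1 / (16 * (q : ℝ) ^ 2), 4 * q * (q + m + 1), by positivity, ?_⟩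
  intro H hH
  have hH0 : 0 < H := by
    have : (0 : ℝ) < 4 * q * (q + m + 1) := by positivity
    linarith
  set N : ℕ := ⌊H / q⌋₊ with hN
  have hN1 : (N : ℝ) ≤ H / q := Nat.floor_le (by positivity)
  have hN2 : H / q < N + 1 := Nat.lt_floor_add_one _
  have hHq : 4 * ((q : ℝ) + m + 1) ≤ H / q := by
    rw [le_div_iff₀ hqR]
    linarith
  have hm0 : (0 : ℝ) ≤ m := Nat.cast_nonneg _
  have hN3 : H / q ≤ 2 * N := by linarith
  have hN4 : 2 * ((q : ℝ) + m) ≤ N := by linarith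
  set S0 := ((range N) ×ˢ (range N)).filter
      (fun w => Nat.Coprime (a + q * w.1) (b + q * w.2) ∧
        hev m J ((a + q * w.1 : ℕ) : ℤ) ((b + q * w.2 : ℕ) : ℤ) ≠ 0) with hS0
  have hcard := cc_good J hJ m hm q a b hq ha ha' hb h16 hcop N
  rw [← hS0] at hcard
  have hinj : Function.Injective
      (fun w : ℕ × ℕ => (((a + q * w.1 : ℕ) : ℤ), ((b + q * w.2 : ℕ) : ℤ))) := by
    intro w w' h
    simp only [Prod.mk.injEq, Nat.cast_inj] at h
    obtain ⟨h1, h2⟩ := h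
    exact Prod.ext (Nat.eq_of_mul_eq_mul_left hq (by omega))
      (Nat.eq_of_mul_eq_mul_left hq (by omega))
  refine ⟨S0.image (fun w : ℕ × ℕ => (((a + q * w.1 : ℕ) : ℤ), ((b + q * w.2 : ℕ) : ℤ))), ?_, ?_⟩
  · rw [card_image_of_injective _ hinj]
    refine le_trans ?_ hcard
    have h1 : H ^ 2 / (4 * (q : ℝ) ^ 2) ≤ (N : ℝ) ^ 2 := by
      have h2 : (H / q) ^ 2 ≤ (2 * (N : ℝ)) ^ 2 := pow_le_pow_left₀ (by positivity) hN3 2
      have h3 : H ^ 2 / (4 * (q : ℝ) ^ 2) = (H / q) ^ 2 / 4 := by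
        field_simp
      rw [h3]
      nlinarith
    have h4 : 1 / (16 * (q : ℝ) ^ 2) * H ^ 2 = (1 / 4) * (H ^ 2 / (4 * (q : ℝ) ^ 2)) := by
      field_simp
      norm_num
    rw [h4]
    have hN0 : (0 : ℝ) ≤ N := Nat.cast_nonneg _
    have h5 : ((q : ℝ) + m) * N ≤ (1 / 2) * (N : ℝ) ^ 2 := by nlinarith
    linarith
  · intro w hw
    rw [mem_image] at hw
    obtain ⟨v, hv, rfl⟩ := hw
    rw [hS0, mem_filter, mem_product, mem_range, mem_range] at hv
    obtain ⟨⟨hi, hj⟩, hc, hne⟩ := hv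
    have hqN : (q : ℝ) * N ≤ H := by
      have := (le_div_iff₀ hqR).1 hN1
      linarith
    have hbound : ∀ (x : ℕ) (i : ℕ), x ≤ q → i < N → ((x + q * i : ℕ) : ℝ) ≤ H := by
      intro x i hx hiN
      have h1 : x + q * i ≤ q * N := by
        calc x + q * i ≤ q + q * i := by omega
          _ = q * (i + 1) := by ring
          _ ≤ q * N := Nat.mul_le_mul_left _ hiN
      have h2 : ((x + q * i : ℕ) : ℝ) ≤ (q : ℝ) * N := by exact_mod_cast h1
      linarith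
    refine ⟨Nat.isCoprime_iff_coprime.2 hc, ?_, ?_, ?_, ?_, ?_, hne⟩
    · have h1 := hbound a v.1 ha' hi
      have h2 : (0 : ℝ) ≤ ((a + q * v.1 : ℕ) : ℝ) := Nat.cast_nonneg _
      show |(((a + q * v.1 : ℕ) : ℤ) : ℝ)| ≤ H
      rw [Int.cast_natCast, abs_of_nonneg h2]
      exact h1
    · have h1 : 1 ≤ b + q * v.2 := by omega
      show (1 : ℤ) ≤ ((b + q * v.2 : ℕ) : ℤ)
      exact_mod_cast h1
    · show (((b + q * v.2 : ℕ) : ℤ) : ℝ) ≤ H
      rw [Int.cast_natCast]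
      exact hbound b v.2 hb' hj
    · show (M : ℤ) ∣ ((a + q * v.1 : ℕ) : ℤ) - a0
      have h1 : ((a + q * v.1 : ℕ) : ℤ) - a0 = ((a : ℤ) - a0) + q * v.1 := by
        push_cast
        ring
      rw [h1]
      exact dvd_add (hMq.trans had) (Dvd.dvd.mul_right hMq _)
    · show (M : ℤ) ∣ ((b + q * v.2 : ℕ) : ℤ) - b0
      have h1 : ((b + q * v.2 : ℕ) : ℤ) - b0 = ((b : ℤ) - b0) + q * v.2 := by
        push_cast
        ring
      rw [h1]
      exact dvd_add (hMq.trans hbd) (Dvd.dvd.mul_right hMq _)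

end Fm

end Pool.Agent.Lib.MP_d8bd92_nt
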