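import Pool.Agent.Lib.MP_d8bd92_nt.FmH
import Pool.Agent.Lib.MP_d8bd92_nt.FmX

set_option autoImplicit false

/-!
Lower bound for the number of semistable members of a one parameter family ordered by conductor.
-/

namespace Pool.Agent.Lib.MP_d8bd92_nt

open Finset Polynomial UniqueFactorizationMonoid Pool.Agent.Lib.Szpiro

namespace Fm

theorem qf_natAbs_le (q : ℤ × ℤ × ℤ) (w : ℤ × ℤ) (Z : ℕ) (h1 : w.1.natAbs ≤ Z) (h2 : w.2.natAbs ≤ Z) :
    (qf q w).natAbs ≤ (q.1.natAbs + q.2.1.natAbs + q.2.2.natAbs) * Z ^ 2 := by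
  unfold qf
  have r1 : (q.1 * w.1 ^ 2).natAbs ≤ q.1.natAbs * Z ^ 2 := by
    rw [Int.natAbs_mul, Int.natAbs_pow]
    exact Nat.mul_le_mul_left _ (Nat.pow_le_pow_left h1 2)
  have r2 : (q.2.1 * w.1 * w.2).natAbs ≤ q.2.1.natAbs * Z ^ 2 := by
    rw [Int.natAbs_mul, Int.natAbs_mul, mul_assoc, sq]
    exact Nat.mul_le_mul_left _ (Nat.mul_le_mul h1 h2)
  have r3 : (q.2.2 * w.2 ^ 2).natAbs ≤ q.2.2.natAbs * Z ^ 2 := by
    rw [Int.natAbs_mul, Int.natAbs_pow]
    exact Nat.mul_le_mul_left _ (Nat.pow_le_pow_left h2 2)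
  calc (q.1 * w.1 ^ 2 + q.2.1 * w.1 * w.2 + q.2.2 * w.2 ^ 2).natAbs
      ≤ (q.1 * w.1 ^ 2 + q.2.1 * w.1 * w.2).natAbs + (q.2.2 * w.2 ^ 2).natAbs := Int.natAbs_add_le _ _
    _ ≤ ((q.1 * w.1 ^ 2).natAbs + (q.2.1 * w.1 * w.2).natAbs) + (q.2.2 * w.2 ^ 2).natAbs :=
        Nat.add_le_add_right (Int.natAbs_add_le _ _) _
    _ ≤ (q.1.natAbs * Z ^ 2 + q.2.1.natAbs * Z ^ 2) + q.2.2.natAbs * Z ^ 2 := by omega
    _ = _ := by ring

/-- at most `m` coprime pairs give the same `j` -/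
theorem fiber_le (J1 J2 : ℤ[X]) (hcop : IsCoprime (J1.map (Int.castRingHom ℚ)) (J2.map (Int.castRingHom ℚ)))
    (m : ℕ) (hm1 : J1.natDegree ≤ m) (hm2 : J2.natDegree ≤ m)
    (hm3 : m = J1.natDegree ∨ m = J2.natDegree) (hmpos : 0 < m)
    (x D : ℤ) (hD : D ≠ 0) (S : Finset (ℤ × ℤ))
    (hS : ∀ w ∈ S, IsCoprime w.1 w.2 ∧ 1 ≤ w.2 ∧ hev m J1 w.1 w.2 * D = hev m J2 w.1 w.2 * x) :
    S.card ≤ m := by
  classical
  set f : ℤ[X] := C D * J1 - C x * J2 with hf
  have hf0 : f ≠ 0 := by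
    intro h
    have h1 : C D * J1 = C x * J2 := by rw [hf] at h; exact sub_eq_zero.mp h
    have h2 : C (D : ℚ) * J1.map (Int.castRingHom ℚ) = C (x : ℚ) * J2.map (Int.castRingHom ℚ) := by
      have := congrArg (Polynomial.map (Int.castRingHom ℚ)) h1
      rw [Polynomial.map_mul, Polynomial.map_mul, map_C, map_C] at this
      simpa using this
    have hDu : IsUnit (C (D : ℚ) : ℚ[X]) :=
      isUnit_C.mpr (isUnit_iff_ne_zero.mpr (by exact_mod_cast hD))
    have h3 : J2.map (Int.castRingHom ℚ) ∣ J1.map (Int.castRingHom ℚ) := by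
      have : J2.map (Int.castRingHom ℚ) ∣ C (D : ℚ) * J1.map (Int.castRingHom ℚ) := by
        rw [h2]; exact dvd_mul_left _ _
      exact (hDu.dvd_mul_left).mp this
    have h4 : IsUnit (J2.map (Int.castRingHom ℚ)) := hcop.isUnit_of_dvd' h3 dvd_rfl
    have h5 := natDegree_eq_zero_of_isUnit h4
    rw [natDegree_map_eq_of_injective (Int.castRingHom ℚ).injective_int] at h5
    have h6 : J1.natDegree = m := by
      rcases hm3 with h | h
      · exact h.symm
      · omega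
    have h7 := congrArg Polynomial.natDegree h1
    rw [natDegree_C_mul hD] at h7
    have h8 := natDegree_C_mul_le x J2
    omega
  have hdeg : f.natDegree ≤ m := by
    rw [hf]
    refine (natDegree_sub_le _ _).trans (max_le ?_ ?_)
    · exact (natDegree_C_mul_le _ _).trans hm1
    · exact (natDegree_C_mul_le _ _).trans hm2
  have hhev : ∀ w ∈ S, hev m f w.1 w.2 = 0 := by
    intro w hw
    obtain ⟨_, _, h3⟩ := hS w hw
    have : hev m f w.1 w.2 = D * hev m J1 w.1 w.2 - x * hev m J2 w.1 w.2 := by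
      rw [hf]
      unfold hev
      rw [Finset.mul_sum, Finset.mul_sum, ← Finset.sum_sub_distrib]
      apply Finset.sum_congr rfl
      intro i _
      rw [coeff_sub, coeff_C_mul, coeff_C_mul]; ring
    rw [this]
    linear_combination h3
  set fq : ℚ[X] := f.map (Int.castRingHom ℚ) with hfq
  have hfq0 : fq ≠ 0 := by
    rw [hfq]
    exact (Polynomial.map_ne_zero_iff (Int.castRingHom ℚ).injective_int).mpr hf0
  set g : ℤ × ℤ → ℚ := fun w => (w.1 : ℚ) / (w.2 : ℚ) with hg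
  have hmaps : ∀ w ∈ S, g w ∈ fq.roots.toFinset := by
    intro w hw
    obtain ⟨_, h2, _⟩ := hS w hw
    rw [Multiset.mem_toFinset, mem_roots hfq0, IsRoot]
    have hb : ((w.2 : ℤ) : ℚ) ≠ 0 := by
      have : w.2 ≠ 0 := by omega
      exact_mod_cast this
    have h3 := hev_cast m f w.1 w.2
    rw [hhev w hw, hev_eq_eval m _ (natDegree_map_le.trans hdeg) _ _ hb] at h3
    push_cast at h3
    exact (mul_eq_zero.mp h3).resolve_left (pow_ne_zero _ hb)
  have hinj : Set.InjOn g S := by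
    intro w hw w' hw' hgg
    obtain ⟨h1, h2, _⟩ := hS w hw
    obtain ⟨h1', h2', _⟩ := hS w' hw'
    have hb : ((w.2 : ℤ) : ℚ) ≠ 0 := by
      have : w.2 ≠ 0 := by omega
      exact_mod_cast this
    have hb' : ((w'.2 : ℤ) : ℚ) ≠ 0 := by
      have : w'.2 ≠ 0 := by omega
      exact_mod_cast this
    simp only [hg] at hgg
    rw [div_eq_div_iff hb hb'] at hgg
    have h3 : w.1 * w'.2 = w.2 * w'.1 := by
      have : ((w.1 * w'.2 : ℤ) : ℚ) = ((w.2 * w'.1 : ℤ) : ℚ) := by push_cast; linarith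
      exact_mod_cast this
    rcases parallel h1 h1' h3 with h4 | h4
    · exact h4.symm
    · exfalso
      rw [h4, Prod.snd_neg] at h2'
      omega
  calc S.card ≤ fq.roots.toFinset.card := Finset.card_le_card_of_injOn g hmaps hinj
    _ ≤ fq.roots.card := Multiset.toFinset_card_le _
    _ ≤ fq.natDegree := card_roots' _
    _ ≤ m := natDegree_map_le.trans hdeg

theorem family_lower (J1 J2 : ℤ[X])
    (hcop : IsCoprime (J1.map (Int.castRingHom ℚ)) (J2.map (Int.castRingHom ℚ))) (n : ℕ)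
    (hm1 : J1.natDegree ≤ 6 * n) (hm2 : J2.natDegree ≤ 6 * n)
    (hm3 : 6 * n = J1.natDegree ∨ 6 * n = J2.natDegree) (hmpos : 0 < 6 * n) (F : Finset ℚ[X])
    (hF : ∀ p, p ∈ F ↔ p ∈ normalizedFactors (J2.map (Int.castRingHom ℚ)))
    (hdeg : ∀ p ∈ F, p.natDegree ≤ 2) (r : ℝ) (hr0 : 1 ≤ r)
    (hr : r = ((∑ p ∈ F, p.natDegree + (if J2.natDegree < 6 * n then 1 else 0) : ℕ) : ℝ))
    (A B : ℚ[X]) (c c' : ℚ) (hc : c ≠ 0) (hc' : c' ≠ 0)
    (hA : J1.map (Int.castRingHom ℚ) = C c * A ^ 3)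
    (hB : (J1 - C 1728 * J2).map (Int.castRingHom ℚ) = C c' * B ^ 2)
    (W0 : WeierstrassCurve ℤ) (hΔ : W0.Δ ≠ 0) (hss : IsCoprime W0.c₄ W0.Δ) (a0 b0 : ℤ)
    (hab : IsCoprime a0 b0) (hj : hev (6 * n) J1 a0 b0 * W0.Δ = hev (6 * n) J2 a0 b0 * W0.c₄ ^ 3)
    (κ : ℝ) (hκ : ((6 * n : ℕ) : ℝ) / r ≤ κ) :
    ∃ c Y0 : ℝ, 0 < c ∧ 1 ≤ Y0 ∧ ∀ Y : ℝ, Y0 ≤ Y → ∃ X : Finset (ℤ × ℤ),
      c * Y ^ (2 / r) ≤ (X.card : ℝ) ∧ ∀ x ∈ X, ∃ W : WeierstrassCurve ℤ, W.c₄ = x.1 ∧ W.c₆ = x.2 ∧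
        W.Δ ≠ 0 ∧ IsCoprime W.c₄ W.Δ ∧ (∃ a b : ℤ, IsCoprime a b ∧ 1 ≤ b ∧
          hev (6 * n) J1 a b * W.Δ = hev (6 * n) J2 a b * W.c₄ ^ 3) ∧
        (rd W.Δ.natAbs : ℝ) ≤ Y ∧ (W.Δ.natAbs : ℝ) ≤ Y ^ κ := by
  classical
  have hJ2 : J2 ≠ 0 := by
    intro h1
    rw [h1, Polynomial.map_zero] at hcop
    have h3 := natDegree_eq_zero_of_isUnit (isCoprime_zero_right.mp hcop)
    rw [natDegree_map_eq_of_injective (Int.castRingHom ℚ).injective_int] at h3
    rw [h1, natDegree_zero, h3] at hm3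
    omega
  obtain ⟨Λ, Θ, M, hM, hind, hsq, hcard1, hcard2, hdata⟩ := forms_data J2 hJ2 (6 * n) hm2 F hF hdeg
  obtain ⟨ρ0, hρ0, hgcd⟩ := gcd_bound J1 J2 hcop (6 * n) hm1 hm2 hm3 hmpos
  obtain ⟨M1, k, hM1, hk, hlift⟩ := lift J1 J2 n hm1 A B c c' hc hc' hA hB hm2 ρ0 hρ0 hgcd W0 hΔ hss
    a0 b0 hab hj
  obtain ⟨c1, H0, hc1, hcount⟩ := coprime_class J2 hJ2 (6 * n) hm2 M1 hM1 a0 b0 hab
  have hr' : r = (Λ.card : ℝ) + 2 * Θ.card := by
    rw [hr, ← hcard2]; push_cast; ring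
  have hrpos : 0 < r := by linarith
  set Cs : ℝ := csum (6 * n) J2 with hCs
  have hCs0 : 0 ≤ Cs := csum_nonneg _ _
  set K : ℕ := M * (∏ l ∈ Λ, (l.1.natAbs + l.2.natAbs + 1)) *
    ∏ q ∈ Θ, (q.1.natAbs + q.2.1.natAbs + q.2.2.natAbs + 1) with hK
  have hK1 : 1 ≤ K := by
    have h1 : 0 < ∏ l ∈ Λ, (l.1.natAbs + l.2.natAbs + 1) := Finset.prod_pos (fun _ _ => by omega)
    have h2 : 0 < ∏ q ∈ Θ, (q.1.natAbs + q.2.1.natAbs + q.2.2.natAbs + 1) :=
      Finset.prod_pos (fun _ _ => by omega)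
    exact Nat.mul_pos (Nat.mul_pos (Nat.pos_of_ne_zero hM) h1) h2
  have hKR : (1 : ℝ) ≤ (K : ℝ) := by exact_mod_cast hK1
  -- scaling
  set L : ℝ := K + Cs with hL
  have hL1 : 1 ≤ L := by linarith
  set η : ℝ := L⁻¹ with hη
  have hη0 : 0 < η := by positivity
  have hη1 : η ≤ 1 := inv_le_one_of_one_le₀ hL1
  set H1 : ℝ := max H0 1 with hH1
  have hH11 : 1 ≤ H1 := le_max_right _ _
  refine ⟨c1 * η ^ 2 / (6 * n : ℕ), (H1 / η) ^ r, by positivity, ?_, ?_⟩
  · apply Real.one_le_rpow _ hrpos.le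
    rw [le_div_iff₀ hη0]
    linarith
  intro Y hY
  have hq1 : 1 ≤ H1 / η := by rw [le_div_iff₀ hη0]; linarith
  have hY1 : 1 ≤ Y := (Real.one_le_rpow hq1 hrpos.le).trans hY
  have hYpos : 0 < Y := by linarith
  set H : ℝ := η * Y ^ (1 / r) with hH
  have hHH : H1 ≤ H := by
    have h1 : H1 / η ≤ Y ^ (1 / r) := by
      calc H1 / η = ((H1 / η) ^ r) ^ (1 / r) := by
            rw [← Real.rpow_mul (by linarith)]
            have : r * (1 / r) = 1 := by field_simp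
            rw [this, Real.rpow_one]
        _ ≤ Y ^ (1 / r) := Real.rpow_le_rpow (by positivity) hY (by positivity)
    rw [div_le_iff₀ hη0] at h1
    rw [hH]; linarith
  have hH0 : 1 ≤ H := hH11.trans hHH
  obtain ⟨S, hScard, hS⟩ := hcount H ((le_max_left _ _).trans hHH)
  -- the curves
  have hex : ∀ w : ℤ × ℤ, ∃ W : WeierstrassCurve ℤ, w ∈ S → hev (6 * n) J2 w.1 w.2 = k * W.Δ ∧
      hev (6 * n) J1 w.1 w.2 = k * W.c₄ ^ 3 ∧ W.Δ ≠ 0 ∧ IsCoprime W.c₄ W.Δ := by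
    intro w
    by_cases hw : w ∈ S
    · obtain ⟨h1, _, _, _, h5, h6, h7⟩ := hS w hw
      obtain ⟨W, hW⟩ := hlift w.1 w.2 h1 h5 h6 h7
      exact ⟨W, fun _ => hW⟩
    · exact ⟨W0, fun h => absurd h hw⟩
  choose Wf hWf using hex
  set f : ℤ × ℤ → ℤ × ℤ := fun w => ((Wf w).c₄, (Wf w).c₆) with hf
  refine ⟨S.image f, ?_, ?_⟩
  · have h1 : S.card ≤ (6 * n) * (S.image f).card := by
      apply Finset.card_le_mul_card_image
      intro x hx
      obtain ⟨w0, hw0, hx0⟩ := Finset.mem_image.mp hx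
      apply fiber_le J1 J2 hcop (6 * n) hm1 hm2 hm3 hmpos (x.1 ^ 3) (Wf w0).Δ (hWf w0 hw0).2.2.1
      intro w hw
      rw [Finset.mem_filter] at hw
      obtain ⟨hwS, hwx⟩ := hw
      obtain ⟨g1, g2, g3, g4⟩ := hWf w hwS
      obtain ⟨h1, _, h3, _⟩ := hS w hwS
      refine ⟨h1, h3, ?_⟩
      have e1 : (Wf w).c₄ = x.1 := by rw [← hwx]
      have e2 : (Wf w).c₆ = x.2 := by rw [← hwx]
      have e3 : (Wf w0).c₄ = x.1 := by rw [← hx0]
      have e4 : (Wf w0).c₆ = x.2 := by rw [← hx0]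
      have e5 : (Wf w0).Δ = (Wf w).Δ := by
        have k1 := (Wf w).c_relation
        have k2 := (Wf w0).c_relation
        rw [e1, e2] at k1
        rw [e3, e4, ← k1] at k2
        exact mul_left_cancel₀ (by norm_num) k2
      rw [e5, g1, g2, e1]
      ring
    have h2 : (S.card : ℝ) ≤ ((6 * n : ℕ) : ℝ) * ((S.image f).card : ℝ) := by exact_mod_cast h1
    have hn0 : (0 : ℝ) < ((6 * n : ℕ) : ℝ) := by exact_mod_cast hmpos
    have h3 : c1 * H ^ 2 = c1 * η ^ 2 * Y ^ (2 / r) := by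
      rw [hH, mul_pow, ← Real.rpow_natCast (Y ^ (1 / r)), ← Real.rpow_mul hYpos.le]
      have : 1 / r * ((2 : ℕ) : ℝ) = 2 / r := by push_cast; ring
      rw [this]; ring
    rw [h3] at hScard
    rw [div_mul_eq_mul_div, div_le_iff₀ hn0]
    linarith
  · intro x hx
    obtain ⟨w, hw, rfl⟩ := Finset.mem_image.mp hx
    obtain ⟨g1, g2, g3, g4⟩ := hWf w hw
    obtain ⟨h1, h2, h3, h4, h5, h6, h7⟩ := hS w hw
    refine ⟨Wf w, rfl, rfl, g3, g4, ⟨w.1, w.2, h1, h3, by rw [g1, g2]; ring⟩, ?_, ?_⟩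
    · -- the conductor
      obtain ⟨d1, d2, _, d4⟩ := hdata w.1 w.2 h1
      set Z : ℕ := ⌊H⌋₊ with hZ
      have hwZ1 : w.1.natAbs ≤ Z := by apply Nat.le_floor; rw [natAbs_cast_abs]; exact h2
      have hwZ2 : w.2.natAbs ≤ Z := by
        apply Nat.le_floor
        rw [natAbs_cast_abs, abs_of_nonneg (by
          have : (0 : ℤ) ≤ w.2 := by omega
          exact_mod_cast this)]
        exact h4
      have hZH : (Z : ℝ) ≤ H := Nat.floor_le (by linarith)
      have hlne : ∀ l ∈ Λ, (lf l w).natAbs ≠ 0 := by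
        intro l hl
        apply Int.natAbs_ne_zero.mpr
        intro h
        have := d1 l hl
        rw [show ((w.1, w.2) : ℤ × ℤ) = w from rfl, h, zero_dvd_iff] at this
        exact h7 this
      have hqne : ∀ q ∈ Θ, (qf q w).natAbs ≠ 0 := by
        intro q hq
        apply Int.natAbs_ne_zero.mpr
        intro h
        have := d2 q hq
        rw [show ((w.1, w.2) : ℤ × ℤ) = w from rfl, h, zero_dvd_iff] at this
        exact h7 this
      set V : ℕ := M * (∏ l ∈ Λ, (lf l w).natAbs) * ∏ q ∈ Θ, (qf q w).natAbs with hV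
      have hV0 : V ≠ 0 := by
        rw [hV]
        exact mul_ne_zero (mul_ne_zero hM (Finset.prod_ne_zero_iff.mpr hlne))
          (Finset.prod_ne_zero_iff.mpr hqne)
      have hrV : rd (Wf w).Δ.natAbs ≤ V := by
        refine le_trans (rd_mono' hV0 ?_) (rd_le hV0)
        intro p hp hpd
        by_cases hpM : p ∣ M
        · rw [hV, mul_assoc]; exact hpM.mul_right _
        have h8 : (p : ℤ) ∣ hev (6 * n) J2 w.1 w.2 := by
          rw [g1]; exact (Int.natCast_dvd.mpr hpd).mul_left _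
        rcases d4 p hp hpM h8 with ⟨l, hl, h9⟩ | ⟨q, hq, h9⟩
        · have h10 : p ∣ ∏ l ∈ Λ, (lf l w).natAbs :=
            (Int.natCast_dvd.mp h9).trans (Finset.dvd_prod_of_mem (fun l => (lf l w).natAbs) hl)
          rw [hV]
          exact (h10.mul_left _).mul_right _
        · have h10 : p ∣ ∏ q ∈ Θ, (qf q w).natAbs :=
            (Int.natCast_dvd.mp h9).trans (Finset.dvd_prod_of_mem (fun q => (qf q w).natAbs) hq)
          rw [hV]
          exact h10.mul_left _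
      have hVle : V ≤ K * Z ^ (Λ.card + 2 * Θ.card) := by
        have k1 : ∏ l ∈ Λ, (lf l w).natAbs ≤ (∏ l ∈ Λ, (l.1.natAbs + l.2.natAbs + 1)) * Z ^ Λ.card := by
          rw [← Finset.prod_const, ← Finset.prod_mul_distrib]
          apply Finset.prod_le_prod'
          intro l _
          exact (lf_natAbs_le l w Z hwZ1 hwZ2).trans (Nat.mul_le_mul_right _ (by omega))
        have k2 : ∏ q ∈ Θ, (qf q w).natAbs ≤
            (∏ q ∈ Θ, (q.1.natAbs + q.2.1.natAbs + q.2.2.natAbs + 1)) * (Z ^ 2) ^ Θ.card := by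
          rw [← Finset.prod_const, ← Finset.prod_mul_distrib]
          apply Finset.prod_le_prod'
          intro q _
          exact (qf_natAbs_le q w Z hwZ1 hwZ2).trans (Nat.mul_le_mul_right _ (by omega))
        calc V ≤ M * ((∏ l ∈ Λ, (l.1.natAbs + l.2.natAbs + 1)) * Z ^ Λ.card) *
              ((∏ q ∈ Θ, (q.1.natAbs + q.2.1.natAbs + q.2.2.natAbs + 1)) * (Z ^ 2) ^ Θ.card) := by
              rw [hV]
              exact Nat.mul_le_mul (Nat.mul_le_mul_left _ k1) k2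
          _ = K * Z ^ (Λ.card + 2 * Θ.card) := by rw [hK, pow_add, pow_mul]; ring
      have hKη : (K : ℝ) * η ≤ 1 := by
        rw [hη, ← div_eq_mul_inv, div_le_one (by linarith)]
        linarith
      calc (rd (Wf w).Δ.natAbs : ℝ) ≤ ((K * Z ^ (Λ.card + 2 * Θ.card) : ℕ) : ℝ) := by
            exact_mod_cast hrV.trans hVle
        _ = K * (Z : ℝ) ^ (Λ.card + 2 * Θ.card) := by push_cast; ring
        _ ≤ K * H ^ (Λ.card + 2 * Θ.card) := by gcongr
        _ = K * H ^ r := by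
            rw [← Real.rpow_natCast]
            congr 2
            rw [hr']; push_cast; ring
        _ = K * (η ^ r * Y) := by
            rw [hH, Real.mul_rpow hη0.le (by positivity), ← Real.rpow_mul hYpos.le]
            have : 1 / r * r = 1 := by field_simp
            rw [this, Real.rpow_one]
        _ ≤ K * (η * Y) := by
            have : η ^ r ≤ η := by
              calc η ^ r ≤ η ^ (1 : ℝ) := Real.rpow_le_rpow_of_exponent_ge hη0 hη1 hr0
                _ = η := Real.rpow_one _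
            gcongr
        _ = (K * η) * Y := by ring
        _ ≤ 1 * Y := by gcongr
        _ = Y := one_mul _
    · -- the discriminant
      have h8 : |((hev (6 * n) J2 w.1 w.2 : ℤ) : ℝ)| ≤ Cs * H ^ (6 * n) := by
        apply abs_hev_le
        · exact h2
        · rw [abs_of_nonneg (by
            have : (0 : ℤ) ≤ w.2 := by omega
            exact_mod_cast this)]
          exact h4
      have h9 : ((Wf w).Δ.natAbs : ℝ) ≤ |((hev (6 * n) J2 w.1 w.2 : ℤ) : ℝ)| := by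
        rw [← natAbs_cast_abs, g1, Int.natAbs_mul]
        have : (Wf w).Δ.natAbs ≤ k.natAbs * (Wf w).Δ.natAbs :=
          Nat.le_mul_of_pos_left _ (Int.natAbs_pos.mpr hk)
        exact_mod_cast this
      have hCη : Cs * η ≤ 1 := by
        rw [hη, ← div_eq_mul_inv, div_le_one (by linarith)]
        linarith
      calc ((Wf w).Δ.natAbs : ℝ) ≤ Cs * H ^ (6 * n) := h9.trans h8
        _ = Cs * H ^ (((6 * n : ℕ) : ℝ)) := by rw [Real.rpow_natCast]
        _ = Cs * (η ^ (((6 * n : ℕ) : ℝ)) * Y ^ (((6 * n : ℕ) : ℝ) / r)) := by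
            rw [hH, Real.mul_rpow hη0.le (by positivity), ← Real.rpow_mul hYpos.le]
            congr 3
            ring
        _ ≤ Cs * (η * Y ^ κ) := by
            have k1 : η ^ (((6 * n : ℕ) : ℝ)) ≤ η := by
              calc η ^ (((6 * n : ℕ) : ℝ)) ≤ η ^ (1 : ℝ) := by
                    apply Real.rpow_le_rpow_of_exponent_ge hη0 hη1
                    exact_mod_cast hmpos
                _ = η := Real.rpow_one _
            have k2 : Y ^ (((6 * n : ℕ) : ℝ) / r) ≤ Y ^ κ := Real.rpow_le_rpow_of_exponent_le hY1 hκ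
            gcongr
        _ = (Cs * η) * Y ^ κ := by ring
        _ ≤ 1 * Y ^ κ := by gcongr
        _ = Y ^ κ := one_mul _

end Fm

end Pool.Agent.Lib.MP_d8bd92_nt
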