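import Pool.Agent.Lib.MP_d8bd92_nt.FmI

/-! Theorem F (MP_d8bd92_nt), assembly: cusps as roots, from rational functions to binary forms. -/

set_option autoImplicit false

namespace Pool.Agent.Lib.MP_d8bd92_nt

open Finset Polynomial UniqueFactorizationMonoid

namespace Fm

/-- rational roots correspond to the linear prime factors. -/
theorem card_roots_eq (J : ℚ[X]) (hJ : J ≠ 0) :
    J.roots.toFinset.card = ((primeFactors J).filter (fun p => p.natDegree = 1)).card := by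
  classical
  refine Finset.card_bij (fun a _ => X - C a) ?_ ?_ ?_
  · intro a ha
    rw [Multiset.mem_toFinset, mem_roots hJ] at ha
    rw [Finset.mem_filter, mem_primeFactors, mem_normalizedFactors_iff' hJ]
    refine ⟨⟨irreducible_X_sub_C a, ?_, dvd_iff_isRoot.mpr ha⟩, natDegree_X_sub_C a⟩
    exact (monic_X_sub_C a).normalize_eq_self
  · intro a _ b _ h
    have h1 : (C a : ℚ[X]) = C b := sub_right_injective h
    exact C_injective h1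
  · intro p hp
    rw [Finset.mem_filter, mem_primeFactors, mem_normalizedFactors_iff' hJ] at hp
    obtain ⟨⟨hirr, hnorm, hdvd⟩, hd⟩ := hp
    have hmonic : p.Monic := by
      rw [← hnorm]
      exact monic_normalize hirr.ne_zero
    have h1 : p = X + C (p.coeff 0) := hmonic.eq_X_add_C hd
    have h2 : X - C (-(p.coeff 0)) = p := by
      rw [C_neg, sub_neg_eq_add]; exact h1.symm
    refine ⟨-(p.coeff 0), ?_, h2⟩
    rw [Multiset.mem_toFinset, mem_roots hJ, ← dvd_iff_isRoot, h2]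
    exact hdvd

/-- the number of complex roots is the sum of the degrees of the prime factors. -/
theorem card_aroots_eq (J : ℚ[X]) (hJ : J ≠ 0) :
    (J.aroots ℂ).toFinset.card = ∑ p ∈ primeFactors J, p.natDegree := by
  classical
  set R : ℚ[X] := ∏ p ∈ primeFactors J, p with hR
  have hRrad : R = radical J := by rw [hR]; rfl
  have hR0 : R ≠ 0 := by rw [hRrad]; exact radical_ne_zero
  have hsep : R.Separable := by
    rw [PerfectField.separable_iff_squarefree, hRrad]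
    exact squarefree_radical
  have h1 : (R.aroots ℂ).toFinset.card = R.natDegree := by
    rw [Multiset.toFinset_card_of_nodup]
    · rw [IsAlgClosed.card_aroots_eq_natDegree]
    · exact nodup_roots (hsep.map)
  have h2 : R.natDegree = ∑ p ∈ primeFactors J, p.natDegree := by
    rw [hR, natDegree_prod]
    intro p hp
    exact (irreducible_of_normalized_factor p (mem_primeFactors.mp hp)).ne_zero
  have h3 : (J.aroots ℂ).toFinset = (R.aroots ℂ).toFinset := by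
    ext z
    rw [Multiset.mem_toFinset, Multiset.mem_toFinset, mem_aroots, mem_aroots]
    constructor
    · rintro ⟨_, hz⟩
      refine ⟨hR0, ?_⟩
      obtain ⟨u, hu⟩ := (prod_normalizedFactors hJ : Associated (normalizedFactors J).prod J)
      rw [← hu, map_mul] at hz
      have hu0 : (aeval z) (u : ℚ[X]) ≠ 0 := by
        obtain ⟨v, hv⟩ := u.isUnit.map (aeval z : ℚ[X] →ₐ[ℚ] ℂ)
        rw [← hv]
        exact v.ne_zero
      have hz2 : (aeval z) (normalizedFactors J).prod = 0 := by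
        rcases mul_eq_zero.mp hz with h | h
        · exact h
        · exact absurd h hu0
      rw [map_multiset_prod, Multiset.prod_eq_zero_iff] at hz2
      obtain ⟨p, hp, hpz⟩ := Multiset.mem_map.mp hz2
      have hp2 : p ∈ primeFactors J := mem_primeFactors.mpr hp
      rw [hR, map_prod]
      exact Finset.prod_eq_zero hp2 hpz
    · rintro ⟨_, hz⟩
      refine ⟨hJ, ?_⟩
      obtain ⟨Q, hQ⟩ := (radical_dvd_self : radical J ∣ J)
      rw [hQ, ← hRrad, map_mul, hz, zero_mul]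
  rw [h3, h1, h2]

/-- Theorem F for a family given by rational polynomials. -/
theorem family (J₁ J₂ A B : ℚ[X]) (c c' : ℚ) (n : ℕ) (r : ℝ) (hcop : IsCoprime J₁ J₂) (hn : 0 < n)
    (hm : max J₁.natDegree J₂.natDegree = 6 * n) (hc : c ≠ 0) (hc' : c' ≠ 0)
    (hA : J₁ = C c * A ^ 3) (hB : J₁ - C 1728 * J₂ = C c' * B ^ 2)
    (hdeg : ∀ p : ℚ[X], Irreducible p → p ∣ J₂ → p.natDegree ≤ 2)
    (h3 : 3 ≤ J₂.roots.toFinset.card + (if J₂.natDegree < J₁.natDegree then 1 else 0))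
    (hr : r = ((J₂.aroots ℂ).toFinset.card + (if J₂.natDegree < J₁.natDegree then 1 else 0) : ℕ))
    (hne : ∃ W : WeierstrassCurve ℤ, W.Δ ≠ 0 ∧ IsCoprime W.c₄ W.Δ ∧
      ∃ t : ℚ, J₂.eval t ≠ 0 ∧ (W.c₄ : ℚ) ^ 3 / (W.Δ : ℚ) = J₁.eval t / J₂.eval t) :
    (n : ℝ) < r ∧ ∀ κ ε : ℝ, 6 * n / r ≤ κ → 0 < ε →
    ∃ c C δ Y₀ : ℝ, 0 < c ∧ 0 < δ ∧ ∀ Y : ℝ, Y₀ ≤ Y →
      {x : ℤ × ℤ | ∃ W : WeierstrassCurve ℤ, W.c₄ = x.1 ∧ W.c₆ = x.2 ∧ W.Δ ≠ 0 ∧
        IsCoprime W.c₄ W.Δ ∧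
        (∃ t : ℚ, J₂.eval t ≠ 0 ∧ (W.c₄ : ℚ) ^ 3 / (W.Δ : ℚ) = J₁.eval t / J₂.eval t) ∧
        ((∏ p ∈ W.Δ.natAbs.primeFactors, p : ℕ) : ℝ) ≤ Y ∧
        (W.Δ.natAbs : ℝ) ≤ Y ^ κ}.Finite ∧
      c * Y ^ (2 / r) ≤ ({x : ℤ × ℤ | ∃ W : WeierstrassCurve ℤ, W.c₄ = x.1 ∧ W.c₆ = x.2 ∧ W.Δ ≠ 0 ∧
        IsCoprime W.c₄ W.Δ ∧
        (∃ t : ℚ, J₂.eval t ≠ 0 ∧ (W.c₄ : ℚ) ^ 3 / (W.Δ : ℚ) = J₁.eval t / J₂.eval t) ∧
        ((∏ p ∈ W.Δ.natAbs.primeFactors, p : ℕ) : ℝ) ≤ Y ∧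
        (W.Δ.natAbs : ℝ) ≤ Y ^ κ}.ncard : ℝ) ∧
      ({x : ℤ × ℤ | ∃ W : WeierstrassCurve ℤ, W.c₄ = x.1 ∧ W.c₆ = x.2 ∧ W.Δ ≠ 0 ∧
        IsCoprime W.c₄ W.Δ ∧
        (∃ t : ℚ, J₂.eval t ≠ 0 ∧ (W.c₄ : ℚ) ^ 3 / (W.Δ : ℚ) = J₁.eval t / J₂.eval t) ∧
        ((∏ p ∈ W.Δ.natAbs.primeFactors, p : ℕ) : ℝ) ≤ Y ∧
        (W.Δ.natAbs : ℝ) ≤ Y ^ κ}.ncard : ℝ) ≤ C * Y ^ (2 / r + ε) ∧
      ({x : ℤ × ℤ | ∃ W : WeierstrassCurve ℤ, W.c₄ = x.1 ∧ W.c₆ = x.2 ∧ W.Δ ≠ 0 ∧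
        IsCoprime W.c₄ W.Δ ∧
        (∃ t : ℚ, J₂.eval t ≠ 0 ∧ (W.c₄ : ℚ) ^ 3 / (W.Δ : ℚ) = J₁.eval t / J₂.eval t) ∧
        ((∏ p ∈ W.Δ.natAbs.primeFactors, p : ℕ) : ℝ) ≤ Y ∧
        ((∏ p ∈ W.Δ.natAbs.primeFactors, p : ℕ) : ℝ) ^ (6 * n / r + ε) ≤ (W.Δ.natAbs : ℝ) ∧
        (W.Δ.natAbs : ℝ) ≤ Y ^ κ}.ncard : ℝ) ≤ C * Y ^ (2 / r - δ) := by
  classical
  have hJ2ne : J₂ ≠ 0 := by
    rintro rfl
    have h1 : IsUnit J₁ := isCoprime_zero_right.mp hcop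
    have h2 := natDegree_eq_zero_of_isUnit h1
    rw [natDegree_zero, h2] at hm
    simp at hm
    omega
  obtain ⟨p1, n1, hn1, hp1⟩ := exists_int_poly J₁
  obtain ⟨p2, n2, hn2, hp2⟩ := exists_int_poly J₂
  set φ := Int.castRingHom ℚ with hφ
  set F1 : ℤ[X] := C n2 * p1 with hF1
  set F2 : ℤ[X] := C n1 * p2 with hF2
  set e : ℚ := (n1 : ℚ) * n2 with he
  have he0 : e ≠ 0 := by
    have h1 : (n1 : ℚ) ≠ 0 := by exact_mod_cast hn1
    have h2 : (n2 : ℚ) ≠ 0 := by exact_mod_cast hn2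
    exact mul_ne_zero h1 h2
  have hF1m : F1.map φ = C e * J₁ := by
    rw [hF1, Polynomial.map_mul, map_C, hp1, he, C_mul]
    simp only [hφ, eq_intCast]
    ring
  have hF2m : F2.map φ = C e * J₂ := by
    rw [hF2, Polynomial.map_mul, map_C, hp2, he, C_mul]
    simp only [hφ, eq_intCast]
    ring
  have hu : IsUnit (C e : ℚ[X]) := isUnit_C.mpr (isUnit_iff_ne_zero.mpr he0)
  have hcopF : IsCoprime (F1.map φ) (F2.map φ) := by
    rw [hF1m, hF2m]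
    exact (isCoprime_mul_unit_left_left hu _ _).mpr ((isCoprime_mul_unit_left_right hu _ _).mpr hcop)
  have hd1 : F1.natDegree = J₁.natDegree := by
    rw [← natDegree_map_eq_of_injective φ.injective_int F1, hF1m, natDegree_C_mul he0]
  have hd2 : F2.natDegree = J₂.natDegree := by
    rw [← natDegree_map_eq_of_injective φ.injective_int F2, hF2m, natDegree_C_mul he0]
  have hm1 : F1.natDegree ≤ 6 * n := by rw [hd1, ← hm]; exact le_max_left _ _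
  have hm2 : F2.natDegree ≤ 6 * n := by rw [hd2, ← hm]; exact le_max_right _ _
  have hm3 : 6 * n = F1.natDegree ∨ 6 * n = F2.natDegree := by
    rw [hd1, hd2, ← hm]
    exact max_choice _ _
  have hmpos : 0 < 6 * n := by omega
  have hassoc : Associated J₂ (F2.map φ) := by
    rw [hF2m, mul_comm]
    exact associated_mul_unit_right _ _ hu
  set F : Finset ℚ[X] := primeFactors J₂ with hF
  have hmemF : ∀ p, p ∈ F ↔ p ∈ normalizedFactors (F2.map φ) := by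
    intro p
    rw [hF, mem_primeFactors, hassoc.normalizedFactors_eq]
  have hdegF : ∀ p ∈ F, p.natDegree ≤ 2 := by
    intro p hp
    rw [hF, mem_primeFactors] at hp
    exact hdeg p (irreducible_of_normalized_factor p hp) (dvd_of_mem_normalizedFactors hp)
  -- the point at infinity
  have hinf : (if J₂.natDegree < J₁.natDegree then 1 else 0 : ℕ) =
      (if F2.natDegree < 6 * n then 1 else 0) := by
    rw [hd2]
    by_cases h : J₂.natDegree < J₁.natDegree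
    · have h1 : J₁.natDegree = 6 * n := by rw [← hm]; exact (max_eq_left h.le).symm
      rw [if_pos h, if_pos (by omega)]
    · have h1 : J₂.natDegree = 6 * n := by rw [← hm]; exact (max_eq_right (not_lt.mp h)).symm
      rw [if_neg h, if_neg (by omega)]
  rw [hinf, card_roots_eq J₂ hJ2ne, ← hF] at h3
  rw [hinf, card_aroots_eq J₂ hJ2ne, ← hF] at hr
  have hnc : 0 < J₁.natDegree ∨ 0 < J₂.natDegree := by
    rcases hm3 with h | h
    · left; omega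
    · right; omega
  have hmason := mason_general J₁ J₂ A B c c' hcop hnc hc hc' hA hB
  have hradF : (radical J₂).natDegree = ∑ p ∈ F, p.natDegree := by
    rw [show radical J₂ = ∏ p ∈ F, p from rfl, natDegree_prod]
    intro p hp
    exact (irreducible_of_normalized_factor p (mem_primeFactors.mp hp)).ne_zero
  have hnr : n + 1 ≤ ∑ p ∈ F, p.natDegree := by
    rw [hradF] at hmason
    rcases hm3 with h | h
    · have := hmason.1; omega
    · have := hmason.2; omega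
  have hnrR : (n : ℝ) + 1 ≤ r := by
    rw [hr]
    push_cast
    have h1 : ((n + 1 : ℕ) : ℝ) ≤ ((∑ p ∈ F, p.natDegree : ℕ) : ℝ) := by exact_mod_cast hnr
    push_cast at h1
    have h2 : (0 : ℝ) ≤ (if F2.natDegree < 6 * n then (1 : ℝ) else 0) := by split_ifs <;> norm_num
    linarith
  have hn1R : (1 : ℝ) ≤ n := by exact_mod_cast hn
  have hr1 : (1 : ℝ) ≤ r := by linarith
  have hrpos : (0 : ℝ) < r := by linarith
  -- `r ≤ 6 n`
  have hr6 : r ≤ 6 * n := by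
    have h1 : (∑ p ∈ F, p.natDegree) ≤ J₂.natDegree := by
      rw [← hradF]
      exact natDegree_le_of_dvd radical_dvd_self hJ2ne
    have h2 : (∑ p ∈ F, p.natDegree + (if F2.natDegree < 6 * n then 1 else 0)) ≤ 6 * n := by
      rw [hd2] at hm2 ⊢
      split_ifs <;> omega
    rw [hr]
    exact_mod_cast h2
  refine ⟨by linarith, ?_⟩
  intro κ ε hκ hε
  have hκ1 : 1 ≤ κ := by
    refine le_trans ?_ hκ
    rw [le_div_iff₀ hrpos, one_mul]
    exact hr6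
  obtain ⟨C0, δ, hC0, hδ, hup⟩ := family_upper F1 F2 hcopF (6 * n) hm1 hm2 hm3 hmpos F hmemF hdegF r
    hr h3 κ ε hκ1 hε
  -- the rational point from the curve
  have hrel : ∀ (W : WeierstrassCurve ℤ) (t : ℚ), W.Δ ≠ 0 → J₂.eval t ≠ 0 →
      (W.c₄ : ℚ) ^ 3 / (W.Δ : ℚ) = J₁.eval t / J₂.eval t →
      IsCoprime t.num (t.den : ℤ) ∧ (1 : ℤ) ≤ t.den ∧
        hev (6 * n) F1 t.num (t.den : ℤ) * W.Δ = hev (6 * n) F2 t.num (t.den : ℤ) * W.c₄ ^ 3 := by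
    intro W t hΔ hJ2 hj
    have hden0 : 0 < t.den := t.den_pos
    have hdenZ : (1 : ℤ) ≤ (t.den : ℤ) := by exact_mod_cast hden0
    refine ⟨?_, hdenZ, ?_⟩
    · have h1 := t.reduced
      rw [Int.isCoprime_iff_gcd_eq_one]
      simpa [Int.gcd] using h1
    · have hdq : ((t.den : ℤ) : ℚ) ≠ 0 := by
        have : (t.den : ℤ) ≠ 0 := by omega
        exact_mod_cast this
      have htq : ((t.num : ℤ) : ℚ) / ((t.den : ℤ) : ℚ) = t := by
        push_cast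
        exact Rat.num_div_den t
      have e1 : ((hev (6 * n) F1 t.num (t.den : ℤ) : ℤ) : ℚ) =
          ((t.den : ℤ) : ℚ) ^ (6 * n) * (e * J₁.eval t) := by
        have h1 := hev_map φ (6 * n) F1 t.num (t.den : ℤ)
        simp only [hφ, eq_intCast] at h1
        rw [← h1, hev_eq_eval (6 * n) _ (natDegree_map_le.trans hm1) _ _ hdq, htq]
        rw [hφ] at hF1m
        rw [hF1m, eval_mul, eval_C]
      have e2 : ((hev (6 * n) F2 t.num (t.den : ℤ) : ℤ) : ℚ) =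
          ((t.den : ℤ) : ℚ) ^ (6 * n) * (e * J₂.eval t) := by
        have h1 := hev_map φ (6 * n) F2 t.num (t.den : ℤ)
        simp only [hφ, eq_intCast] at h1
        rw [← h1, hev_eq_eval (6 * n) _ (natDegree_map_le.trans hm2) _ _ hdq, htq]
        rw [hφ] at hF2m
        rw [hF2m, eval_mul, eval_C]
      have hΔq : (W.Δ : ℚ) ≠ 0 := by exact_mod_cast hΔ
      have e3 : J₁.eval t * (W.Δ : ℚ) = J₂.eval t * (W.c₄ : ℚ) ^ 3 := by
        rw [div_eq_div_iff hΔq hJ2] at hj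
        linear_combination -hj
      have e4 : ((hev (6 * n) F1 t.num (t.den : ℤ) * W.Δ : ℤ) : ℚ) =
          ((hev (6 * n) F2 t.num (t.den : ℤ) * W.c₄ ^ 3 : ℤ) : ℚ) := by
        push_cast at e1 e2 ⊢
        rw [e1, e2]
        linear_combination ((t.den : ℚ) ^ (6 * n) * e) * e3
      exact_mod_cast e4
  -- and back
  have hback : ∀ (W : WeierstrassCurve ℤ) (a b : ℤ), W.Δ ≠ 0 → 1 ≤ b →
      hev (6 * n) F1 a b * W.Δ = hev (6 * n) F2 a b * W.c₄ ^ 3 →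
      ∃ t : ℚ, J₂.eval t ≠ 0 ∧ (W.c₄ : ℚ) ^ 3 / (W.Δ : ℚ) = J₁.eval t / J₂.eval t := by
    intro W a b hΔ hb hev
    have hbq : (b : ℚ) ≠ 0 := by
      have : b ≠ 0 := by omega
      exact_mod_cast this
    have hbm : (b : ℚ) ^ (6 * n) * e ≠ 0 := mul_ne_zero (pow_ne_zero _ hbq) he0
    set t : ℚ := (a : ℚ) / (b : ℚ) with ht
    have e1 : ((Lib.MP_d8bd92_nt.hev (6 * n) F1 a b : ℤ) : ℚ) =
        (b : ℚ) ^ (6 * n) * (e * J₁.eval t) := by
      have h1 := hev_map φ (6 * n) F1 a b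
      simp only [hφ, eq_intCast] at h1
      rw [← h1, hev_eq_eval (6 * n) _ (natDegree_map_le.trans hm1) _ _ hbq]
      rw [hφ] at hF1m
      rw [hF1m, eval_mul, eval_C]
    have e2 : ((Lib.MP_d8bd92_nt.hev (6 * n) F2 a b : ℤ) : ℚ) =
        (b : ℚ) ^ (6 * n) * (e * J₂.eval t) := by
      have h1 := hev_map φ (6 * n) F2 a b
      simp only [hφ, eq_intCast] at h1
      rw [← h1, hev_eq_eval (6 * n) _ (natDegree_map_le.trans hm2) _ _ hbq]
      rw [hφ] at hF2m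
      rw [hF2m, eval_mul, eval_C]
    have hΔq : (W.Δ : ℚ) ≠ 0 := by exact_mod_cast hΔ
    have e3 : ((b : ℚ) ^ (6 * n) * e) * (J₁.eval t * (W.Δ : ℚ)) =
        ((b : ℚ) ^ (6 * n) * e) * (J₂.eval t * (W.c₄ : ℚ) ^ 3) := by
      have h1 : ((Lib.MP_d8bd92_nt.hev (6 * n) F1 a b : ℤ) : ℚ) * (W.Δ : ℚ) =
          ((Lib.MP_d8bd92_nt.hev (6 * n) F2 a b : ℤ) : ℚ) * (W.c₄ : ℚ) ^ 3 := by exact_mod_cast hev
      rw [e1, e2] at h1
      linear_combination h1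
    have e4 := mul_left_cancel₀ hbm e3
    have hJ2t : J₂.eval t ≠ 0 := by
      intro h0
      rw [h0, zero_mul] at e4
      have h1 : J₁.eval t = 0 := by
        rcases mul_eq_zero.mp e4 with h | h
        · exact h
        · exact absurd h hΔq
      obtain ⟨u, v, huv⟩ := hcop
      have h2 := congrArg (Polynomial.eval t) huv
      rw [eval_add, eval_mul, eval_mul, h0, h1, mul_zero, mul_zero, add_zero, eval_one] at h2
      exact zero_ne_one h2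
    refine ⟨t, hJ2t, ?_⟩
    rw [div_eq_div_iff hΔq hJ2t]
    linear_combination -e4
  obtain ⟨W0, hΔ0, hss0, t0, ht0, hj0⟩ := hne
  obtain ⟨hab0, hb0, hj0'⟩ := hrel W0 t0 hΔ0 ht0 hj0
  have hκ' : ((6 * n : ℕ) : ℝ) / r ≤ κ := by push_cast; exact hκ
  have hB' : (F1 - C 1728 * F2).map φ = C (e * c') * B ^ 2 := by
    have h1 : (C (1728 : ℤ) : ℤ[X]).map φ = C (1728 : ℚ) := by
      rw [map_C]; simp [hφ]
    have h2 : (F1 - C 1728 * F2).map φ = F1.map φ - (C (1728 : ℤ) : ℤ[X]).map φ * F2.map φ := by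
      rw [← Polynomial.map_mul, ← Polynomial.map_sub]
    rw [h2, h1, hF1m, hF2m, show C (e * c') = C e * C c' from C_mul, mul_assoc, ← hB]
    ring
  have hA' : F1.map φ = C (e * c) * A ^ 3 := by
    rw [hF1m, show C (e * c) = C e * C c from C_mul, mul_assoc, ← hA]
  obtain ⟨c1, Y0, hc1, hY0, hlow⟩ := family_lower F1 F2 hcopF n hm1 hm2 hm3 hmpos F hmemF hdegF r
    hr1 hr A B (e * c) (e * c') (mul_ne_zero he0 hc) (mul_ne_zero he0 hc') hA' hB' W0 hΔ0 hss0 t0.num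
    (t0.den : ℤ) hab0 hj0' κ hκ'
  refine ⟨c1, C0, δ, Y0, hc1, hδ, ?_⟩
  intro Y hY
  have hY1 : 1 ≤ Y := hY0.trans hY
  obtain ⟨⟨hfin, hcard⟩, hcard2⟩ := hup Y hY1
  have hsub : {x : ℤ × ℤ | ∃ W : WeierstrassCurve ℤ, W.c₄ = x.1 ∧ W.c₆ = x.2 ∧ W.Δ ≠ 0 ∧
        IsCoprime W.c₄ W.Δ ∧
        (∃ t : ℚ, J₂.eval t ≠ 0 ∧ (W.c₄ : ℚ) ^ 3 / (W.Δ : ℚ) = J₁.eval t / J₂.eval t) ∧
        ((∏ p ∈ W.Δ.natAbs.primeFactors, p : ℕ) : ℝ) ≤ Y ∧
        (W.Δ.natAbs : ℝ) ≤ Y ^ κ} ⊆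
      {x | Mem (6 * n) F1 F2 (fun N D => (N : ℝ) ≤ Y ∧ (D : ℝ) ≤ Y ^ κ) x} := by
    rintro x ⟨W, h1, h2, h3, h4, ⟨t, h5, h6⟩, h7, h8⟩
    obtain ⟨g1, g2, g3⟩ := hrel W t h3 h5 h6
    refine ⟨W.Δ, t.num, t.den, g1, g2, h3, ?_, ?_, ?_, h7, h8⟩
    · rw [← h1]; exact h4
    · rw [← h1, ← h2]; exact W.c_relation
    · rw [← h1]; exact g3
  have hfinal := hfin.subset hsub
  refine ⟨hfinal, ?_, ?_, ?_⟩
  · obtain ⟨X, hX1, hX2⟩ := hlow Y hY
    refine hX1.trans ?_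
    rw [← Set.ncard_coe_finset X]
    have h1 : (X : Set (ℤ × ℤ)) ⊆ {x : ℤ × ℤ | ∃ W : WeierstrassCurve ℤ, W.c₄ = x.1 ∧ W.c₆ = x.2 ∧
        W.Δ ≠ 0 ∧ IsCoprime W.c₄ W.Δ ∧
        (∃ t : ℚ, J₂.eval t ≠ 0 ∧ (W.c₄ : ℚ) ^ 3 / (W.Δ : ℚ) = J₁.eval t / J₂.eval t) ∧
        ((∏ p ∈ W.Δ.natAbs.primeFactors, p : ℕ) : ℝ) ≤ Y ∧
        (W.Δ.natAbs : ℝ) ≤ Y ^ κ} := by
      intro x hx
      obtain ⟨W, g1, g2, g3, g4, ⟨a, b, _, g6, g7⟩, g8, g9⟩ := hX2 x hx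
      exact ⟨W, g1, g2, g3, g4, hback W a b g3 g6 g7, g8, g9⟩
    exact_mod_cast Set.ncard_le_ncard h1 hfinal
  · refine le_trans ?_ hcard
    exact_mod_cast Set.ncard_le_ncard hsub hfin
  · refine le_trans ?_ hcard2
    have hfin2 : {x | Mem (6 * n) F1 F2 (fun N D => (N : ℝ) ≤ Y ∧
        (N : ℝ) ^ (((6 * n : ℕ) : ℝ) / r + ε) ≤ (D : ℝ) ∧ (D : ℝ) ≤ Y ^ κ) x}.Finite := by
      apply hfin.subset
      rintro x ⟨D, a, b, g1, g2, g3, g4, g5, g6, g7, g8, g9⟩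
      exact ⟨D, a, b, g1, g2, g3, g4, g5, g6, g7, g9⟩
    have hsub2 : {x : ℤ × ℤ | ∃ W : WeierstrassCurve ℤ, W.c₄ = x.1 ∧ W.c₆ = x.2 ∧ W.Δ ≠ 0 ∧
        IsCoprime W.c₄ W.Δ ∧
        (∃ t : ℚ, J₂.eval t ≠ 0 ∧ (W.c₄ : ℚ) ^ 3 / (W.Δ : ℚ) = J₁.eval t / J₂.eval t) ∧
        ((∏ p ∈ W.Δ.natAbs.primeFactors, p : ℕ) : ℝ) ≤ Y ∧
        ((∏ p ∈ W.Δ.natAbs.primeFactors, p : ℕ) : ℝ) ^ (6 * n / r + ε) ≤ (W.Δ.natAbs : ℝ) ∧
        (W.Δ.natAbs : ℝ) ≤ Y ^ κ} ⊆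
      {x | Mem (6 * n) F1 F2 (fun N D => (N : ℝ) ≤ Y ∧
        (N : ℝ) ^ (((6 * n : ℕ) : ℝ) / r + ε) ≤ (D : ℝ) ∧ (D : ℝ) ≤ Y ^ κ) x} := by
      rintro x ⟨W, h1, h2, h3, h4, ⟨t, h5, h6⟩, h7, h8, h9⟩
      obtain ⟨g1, g2, g3⟩ := hrel W t h3 h5 h6
      refine ⟨W.Δ, t.num, t.den, g1, g2, h3, ?_, ?_, ?_, h7, ?_, h9⟩
      · rw [← h1]; exact h4
      · rw [← h1, ← h2]; exact W.c_relation
      · rw [← h1]; exact g3
      · have h10 : ((6 * n : ℕ) : ℝ) = 6 * (n : ℝ) := by push_cast; ring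
        simp only [h10]
        exact h8
    exact_mod_cast Set.ncard_le_ncard hsub2 hfin2

end Fm

end Pool.Agent.Lib.MP_d8bd92_nt
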