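import Pool.Agent.Lib.MP_d8bd92_nt.FmK

/-! Part (3) of Theorem F (MP_d8bd92_nt): small values mean a slope near a root. -/

set_option autoImplicit false

namespace Pool.Agent.Lib.MP_d8bd92_nt

open Finset

namespace Fm

/-- a small value of the form `f` of degree `d` means that the slope is near one of finitely many
numbers -/
def Near (f : ℤ × ℤ → ℤ) (d : ℕ) : Prop :=
  ∃ (Rt : Finset ℝ) (C : ℝ), 0 < C ∧ ∀ w : ℤ × ℤ,
    (w.2 ≠ 0 → |(w.1 : ℝ)| ≤ |(w.2 : ℝ)| →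
      ∃ ρ ∈ Rt, |(w.1 : ℝ) / w.2 - ρ| * |(w.2 : ℝ)| ^ d ≤ C * |(f w : ℝ)|) ∧
    (w.1 ≠ 0 → |(w.2 : ℝ)| ≤ |(w.1 : ℝ)| →
      ∃ ρ ∈ Rt, |(w.2 : ℝ) / w.1 - ρ| * |(w.1 : ℝ)| ^ d ≤ C * |(f w : ℝ)|)

/-- one chart of `Near` for a linear form -/
theorem near_lin (α β : ℝ) (h : α ≠ 0 ∨ β ≠ 0) : ∃ (ρ C : ℝ), 0 < C ∧ ∀ x y : ℝ, y ≠ 0 →
    |x| ≤ |y| → |x / y - ρ| * |y| ≤ C * |α * x + β * y| := by
  by_cases hα : α = 0
  · have hβ : β ≠ 0 := by
      rcases h with h | h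
      · exact absurd hα h
      · exact h
    refine ⟨0, 1 / |β|, by positivity, ?_⟩
    intro x y hy hxy
    rw [hα, zero_mul, zero_add, sub_zero, abs_mul, abs_div]
    have hy' : 0 < |y| := abs_pos.mpr hy
    have hβ' : 0 < |β| := abs_pos.mpr hβ
    rw [div_mul_cancel₀ _ hy'.ne']
    calc |x| ≤ |y| := hxy
      _ = 1 / |β| * (|β| * |y|) := by field_simp
  · refine ⟨-β / α, 1 / |α|, by positivity, ?_⟩
    intro x y hy _
    have hα' : 0 < |α| := abs_pos.mpr hα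
    have h1 : |x / y - -β / α| * |y| = |(x / y - -β / α) * y| := (abs_mul _ _).symm
    have h2 : (x / y - -β / α) * y = (α * x + β * y) / α := by field_simp; ring
    rw [h1, h2, abs_div]
    rw [div_eq_mul_inv, one_div, mul_comm]

/-- one chart of `Near` for a quadratic form with nonzero discriminant -/
theorem near_quad (a b c : ℝ) (ha : a ≠ 0) (hD : b ^ 2 - 4 * a * c ≠ 0) :
    ∃ (ρ ρ' C : ℝ), 0 < C ∧ ∀ x y : ℝ, y ≠ 0 →
    |x / y - ρ| * |y| ^ 2 ≤ C * |a * x ^ 2 + b * x * y + c * y ^ 2| ∨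
    |x / y - ρ'| * |y| ^ 2 ≤ C * |a * x ^ 2 + b * x * y + c * y ^ 2| := by
  have ha' : 0 < |a| := abs_pos.mpr ha
  set D : ℝ := b ^ 2 - 4 * a * c with hDdef
  rcases lt_or_gt_of_ne hD with hneg | hpos
  · -- complex roots
    refine ⟨-b / (2 * a), 0, 1 / |a| * (1 / Real.sqrt (-D / (4 * a ^ 2)) ), ?_, ?_⟩
    · have h1 : 0 < -D / (4 * a ^ 2) := div_pos (by linarith) (by positivity)
      have := Real.sqrt_pos.mpr h1
      positivity
    · intro x y hy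
      left
      set t : ℝ := x / y - -b / (2 * a) with ht
      set s : ℝ := Real.sqrt (-D / (4 * a ^ 2)) with hs
      have h1 : 0 < -D / (4 * a ^ 2) := div_pos (by linarith) (by positivity)
      have hs0 : 0 < s := Real.sqrt_pos.mpr h1
      have hs2 : s ^ 2 = -D / (4 * a ^ 2) := Real.sq_sqrt h1.le
      have h2 : a * x ^ 2 + b * x * y + c * y ^ 2 = a * (t ^ 2 + s ^ 2) * y ^ 2 := by
        rw [hs2, ht, hDdef]
        field_simp
        ring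
      have hy2 : |y| ^ 2 = y ^ 2 := sq_abs y
      have h3 : |a * (t ^ 2 + s ^ 2) * y ^ 2| = |a| * (t ^ 2 + s ^ 2) * y ^ 2 := by
        rw [abs_mul, abs_mul, abs_of_nonneg (by positivity : (0 : ℝ) ≤ t ^ 2 + s ^ 2),
          abs_of_nonneg (by positivity : (0 : ℝ) ≤ y ^ 2)]
      rw [h2, h3, hy2]
      have h4 : 1 / |a| * (1 / s) * (|a| * (t ^ 2 + s ^ 2) * y ^ 2) = (t ^ 2 + s ^ 2) / s * y ^ 2 := by
        field_simp
      rw [h4]
      apply mul_le_mul_of_nonneg_right _ (by positivity)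
      rw [le_div_iff₀ hs0]
      have h5 : |t| ^ 2 = t ^ 2 := sq_abs t
      nlinarith [sq_nonneg (|t| - s), abs_nonneg t]
  · -- real roots
    set s : ℝ := Real.sqrt D with hs
    have hs0 : 0 < s := Real.sqrt_pos.mpr hpos
    have hs2 : s ^ 2 = D := Real.sq_sqrt hpos.le
    set ρ : ℝ := (-b + s) / (2 * a) with hρ
    set ρ' : ℝ := (-b - s) / (2 * a) with hρ'
    have hdiff : |ρ - ρ'| = s / |a| := by
      have : ρ - ρ' = s / a := by rw [hρ, hρ']; field_simp; ring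
      rw [this, abs_div, abs_of_pos hs0]
    refine ⟨ρ, ρ', 2 / s, by positivity, ?_⟩
    intro x y hy
    have h2 : a * x ^ 2 + b * x * y + c * y ^ 2 = a * ((x / y - ρ) * (x / y - ρ')) * y ^ 2 := by
      have h3 : c = (b ^ 2 - s ^ 2) / (4 * a) := by rw [hs2, hDdef]; field_simp; ring
      rw [h3, hρ, hρ']
      field_simp
      ring
    have hy2 : |y| ^ 2 = y ^ 2 := sq_abs y
    have hy0 : (0 : ℝ) ≤ y ^ 2 := by positivity
    rw [h2, hy2, abs_mul, abs_mul, abs_mul, abs_of_nonneg hy0]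
    have htri : s / |a| ≤ |x / y - ρ| + |x / y - ρ'| := by
      rw [← hdiff]
      have : ρ - ρ' = (x / y - ρ') - (x / y - ρ) := by ring
      rw [this]
      refine (abs_sub _ _).trans ?_
      linarith
    have e1 : ∀ u v : ℝ, 0 ≤ u → s / |a| / 2 ≤ v → u * y ^ 2 ≤ 2 / s * (|a| * (u * v) * y ^ 2) := by
      intro u v hu hv
      have h5 : 2 / s * (|a| * (u * v) * y ^ 2) = u * (2 * |a| * v / s) * y ^ 2 := by ring
      rw [h5]
      apply mul_le_mul_of_nonneg_right _ hy0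
      have h6 : 1 ≤ 2 * |a| * v / s := by
        rw [le_div_iff₀ hs0, one_mul]
        have h7 : 2 * |a| * (s / |a| / 2) = s := by field_simp
        calc s = 2 * |a| * (s / |a| / 2) := h7.symm
          _ ≤ 2 * |a| * v := mul_le_mul_of_nonneg_left hv (by positivity)
      nlinarith
    rcases le_total |x / y - ρ| |x / y - ρ'| with h | h
    · left
      exact e1 _ _ (abs_nonneg _) (by linarith)
    · right
      have := e1 |x / y - ρ'| |x / y - ρ| (abs_nonneg _) (by linarith)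
      rw [mul_comm |x / y - ρ| |x / y - ρ'|]
      exact this

theorem near_lf (l : ℤ × ℤ) (hl : l ≠ 0) : Near (lf l) 1 := by
  have h0 : (l.1 : ℝ) ≠ 0 ∨ (l.2 : ℝ) ≠ 0 := by
    by_contra h
    push Not at h
    apply hl
    exact Prod.ext (by exact_mod_cast h.1) (by exact_mod_cast h.2)
  obtain ⟨ρ, C, hC, h1⟩ := near_lin l.1 l.2 h0
  obtain ⟨ρ', C', hC', h2⟩ := near_lin l.2 l.1 h0.symm
  refine ⟨{ρ, ρ'}, C + C', by positivity, fun w => ⟨fun hy hxy => ⟨ρ, by simp, ?_⟩,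
    fun hy hxy => ⟨ρ', by simp, ?_⟩⟩⟩
  · have hy' : (w.2 : ℝ) ≠ 0 := by exact_mod_cast hy
    have h3 := h1 w.1 w.2 hy' hxy
    have h4 : ((lf l w : ℤ) : ℝ) = l.1 * w.1 + l.2 * w.2 := by unfold lf; push_cast; ring
    rw [pow_one, h4]
    refine h3.trans (mul_le_mul_of_nonneg_right (by linarith) (abs_nonneg _))
  · have hy' : (w.1 : ℝ) ≠ 0 := by exact_mod_cast hy
    have h3 := h2 w.2 w.1 hy' hxy
    have h4 : ((lf l w : ℤ) : ℝ) = l.2 * w.2 + l.1 * w.1 := by unfold lf; push_cast; ring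
    rw [pow_one, h4]
    refine h3.trans (mul_le_mul_of_nonneg_right (by linarith) (abs_nonneg _))

theorem near_qf (q : ℤ × ℤ × ℤ) (hq : ¬ IsSquare (qdisc q)) : Near (qf q) 2 := by
  obtain ⟨ha, hc⟩ := qf_coeff_ne_zero q hq
  have ha' : (q.1 : ℝ) ≠ 0 := by exact_mod_cast ha
  have hc' : (q.2.2 : ℝ) ≠ 0 := by exact_mod_cast hc
  have hD0 : qdisc q ≠ 0 := by
    intro h
    apply hq
    rw [h]
    exact ⟨0, by ring⟩
  have hD : (q.2.1 : ℝ) ^ 2 - 4 * q.1 * q.2.2 ≠ 0 := by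
    have : ((qdisc q : ℤ) : ℝ) ≠ 0 := by exact_mod_cast hD0
    unfold qdisc at this
    push_cast at this
    exact this
  have hD' : (q.2.1 : ℝ) ^ 2 - 4 * q.2.2 * q.1 ≠ 0 := by
    intro h; apply hD; linarith
  obtain ⟨ρ1, ρ2, C, hC, h1⟩ := near_quad q.1 q.2.1 q.2.2 ha' hD
  obtain ⟨ρ3, ρ4, C', hC', h2⟩ := near_quad q.2.2 q.2.1 q.1 hc' hD'
  refine ⟨{ρ1, ρ2, ρ3, ρ4}, C + C', by positivity, fun w => ⟨fun hy _ => ?_, fun hy _ => ?_⟩⟩
  · have hy' : (w.2 : ℝ) ≠ 0 := by exact_mod_cast hy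
    have h4 : ((qf q w : ℤ) : ℝ) = q.1 * w.1 ^ 2 + q.2.1 * w.1 * w.2 + q.2.2 * w.2 ^ 2 := by
      unfold qf; push_cast; ring
    have h5 : C * |((qf q w : ℤ) : ℝ)| ≤ (C + C') * |((qf q w : ℤ) : ℝ)| :=
      mul_le_mul_of_nonneg_right (by linarith) (abs_nonneg _)
    rcases h1 w.1 w.2 hy' with h3 | h3
    · rw [← h4] at h3
      exact ⟨ρ1, by simp, h3.trans h5⟩
    · rw [← h4] at h3
      exact ⟨ρ2, by simp, h3.trans h5⟩
  · have hy' : (w.1 : ℝ) ≠ 0 := by exact_mod_cast hy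
    have h4 : ((qf q w : ℤ) : ℝ) = q.2.2 * w.2 ^ 2 + q.2.1 * w.2 * w.1 + q.1 * w.1 ^ 2 := by
      unfold qf; push_cast; ring
    have h5 : C' * |((qf q w : ℤ) : ℝ)| ≤ (C + C') * |((qf q w : ℤ) : ℝ)| :=
      mul_le_mul_of_nonneg_right (by linarith) (abs_nonneg _)
    rcases h2 w.2 w.1 hy' with h3 | h3
    · rw [← h4] at h3
      exact ⟨ρ3, by simp, h3.trans h5⟩
    · rw [← h4] at h3
      exact ⟨ρ4, by simp, h3.trans h5⟩

/-- vectors at which `f` is divisible by `d` lie in few projective classes modulo `d` -/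
def Cls (f : ℤ × ℤ → ℤ) : Prop :=
  ∃ K : ℤ, K ≠ 0 ∧ ∀ (d : ℕ), d ≠ 0 → ∀ T : Finset (ℤ × ℤ),
    (∀ w ∈ T, IsCoprime w.1 w.2 ∧ (d : ℤ) ∣ f w) →
    ∃ c : ℤ × ℤ → Finset ℕ, (∀ w, c w ⊆ d.primeFactors) ∧
      ∀ w ∈ T, ∀ w' ∈ T, c w = c w' → (d : ℤ) ∣ K * dt w w'

theorem cls_lf (l : ℤ × ℤ) (hl : l ≠ 0) : Cls (lf l) := by
  by_cases h1 : l.1 = 0
  · have h2 : l.2 ≠ 0 := fun h2 => hl (Prod.ext h1 h2)
    refine ⟨l.2, h2, fun d _ T hT => ⟨fun _ => ∅, fun _ => Finset.empty_subset _, ?_⟩⟩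
    intro w hw w' hw' _
    have e : l.2 * dt w w' = w.1 * lf l w' - w'.1 * lf l w := by
      unfold dt lf; ring
    rw [e]
    exact dvd_sub ((hT w' hw').2.mul_left _) ((hT w hw).2.mul_left _)
  · refine ⟨l.1, h1, fun d _ T hT => ⟨fun _ => ∅, fun _ => Finset.empty_subset _, ?_⟩⟩
    intro w hw w' hw' _
    have e : l.1 * dt w w' = w'.2 * lf l w - w.2 * lf l w' := by
      unfold dt lf; ring
    rw [e]
    exact dvd_sub ((hT w hw).2.mul_left _) ((hT w' hw').2.mul_left _)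

end Fm

end Pool.Agent.Lib.MP_d8bd92_nt
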