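import Pool.Agent.Lib.MP_d8bd92_nt.FmL

/-! Part (3) of Theorem F (MP_d8bd92_nt): counting in strips by spacing of slopes. -/

set_option autoImplicit false

namespace Pool.Agent.Lib.MP_d8bd92_nt

open Finset

namespace Fm

/-- points with slopes in an interval, at most two in each short interval -/
theorem spaced {α : Type*} [DecidableEq α] (T : Finset α) (x : α → ℝ) (ρ τ s : ℝ) (hs : 0 < s)
    (hτ : 0 ≤ τ) (h1 : ∀ w ∈ T, |x w - ρ| ≤ τ)
    (h2 : ∀ w ∈ T, (T.filter (fun w' => |x w' - x w| < s)).card ≤ 2) :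
    (T.card : ℝ) ≤ 2 * (2 * τ / s + 1) := by
  set g : α → ℤ := fun w => ⌊(x w - (ρ - τ)) / s⌋ with hg
  set J : Finset ℤ := Finset.Icc 0 ⌊2 * τ / s⌋ with hJ
  have hmaps : ∀ w ∈ T, g w ∈ J := by
    intro w hw
    have := abs_le.mp (h1 w hw)
    rw [hJ, Finset.mem_Icc]
    constructor
    · apply Int.floor_nonneg.mpr
      apply div_nonneg _ hs.le
      linarith
    · apply Int.floor_le_floor
      apply div_le_div_of_nonneg_right _ hs.le
      linarith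
  have hfib : ∀ n ∈ J, (T.filter (fun w => g w = n)).card ≤ 2 := by
    intro n _
    by_cases hne : (T.filter (fun w => g w = n)).Nonempty
    · obtain ⟨w0, hw0⟩ := hne
      rw [Finset.mem_filter] at hw0
      refine le_trans (Finset.card_le_card ?_) (h2 w0 hw0.1)
      intro w hw
      rw [Finset.mem_filter] at hw ⊢
      refine ⟨hw.1, ?_⟩
      have e1 : g w = g w0 := hw.2.trans hw0.2.symm
      simp only [hg] at e1
      have e2 := Int.abs_sub_lt_one_of_floor_eq_floor e1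
      have e3 : (x w - (ρ - τ)) / s - (x w0 - (ρ - τ)) / s = (x w - x w0) / s := by ring
      rw [e3, abs_div, abs_of_pos hs, div_lt_one hs] at e2
      exact e2
    · rw [Finset.not_nonempty_iff_eq_empty.mp hne]
      simp
  have h3 := Finset.card_le_mul_card_image_of_maps_to hmaps 2 hfib
  have h4 : (J.card : ℝ) ≤ 2 * τ / s + 1 := by
    rw [hJ, Int.card_Icc]
    have h5 : 0 ≤ ⌊2 * τ / s⌋ := Int.floor_nonneg.mpr (by positivity)
    have h6 : ((⌊2 * τ / s⌋ + 1 - 0).toNat : ℝ) = (⌊2 * τ / s⌋ : ℝ) + 1 := by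
      have : ((⌊2 * τ / s⌋ + 1 - 0).toNat : ℤ) = ⌊2 * τ / s⌋ + 1 := by
        rw [Int.toNat_of_nonneg (by omega)]; ring
      exact_mod_cast this
    rw [h6]
    have := Int.floor_le (2 * τ / s)
    linarith
  calc (T.card : ℝ) ≤ ((2 * J.card : ℕ) : ℝ) := by exact_mod_cast h3
    _ = 2 * (J.card : ℝ) := by push_cast; ring
    _ ≤ _ := by linarith

/-- the product of pairwise almost coprime divisors -/
theorem prod_dvd_of_pairwise {ι : Type*} [DecidableEq ι] (s : Finset ι) (d : ι → ℕ) (R X : ℕ)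
    (h1 : ∀ i ∈ s, d i ∣ X) (h2 : ∀ i ∈ s, ∀ j ∈ s, i ≠ j → Nat.gcd (d i) (d j) ∣ R) :
    ∏ i ∈ s, d i ∣ R ^ (s.card ^ 2) * X := by
  induction s using Finset.induction_on with
  | empty => simp
  | insert a s ha ih =>
    have ih' := ih (fun i hi => h1 i (Finset.mem_insert_of_mem hi))
      (fun i hi j hj => h2 i (Finset.mem_insert_of_mem hi) j (Finset.mem_insert_of_mem hj))
    rw [Finset.prod_insert ha, Finset.card_insert_of_notMem ha]
    set A : ℕ := ∏ i ∈ s, d i with hA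
    have hg : ∀ t : Finset ι, t ⊆ s → Nat.gcd (d a) (∏ i ∈ t, d i) ∣ R ^ t.card := by
      intro t
      induction t using Finset.induction_on with
      | empty => intro _; simp
      | insert b t hb ihb =>
        intro hbt
        rw [Finset.prod_insert hb, Finset.card_insert_of_notMem hb, pow_succ, mul_comm (R ^ t.card)]
        refine (Nat.gcd_mul_right_dvd_mul_gcd _ _ _).trans ?_
        apply mul_dvd_mul
        · apply h2 a (Finset.mem_insert_self _ _) b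
            (Finset.mem_insert_of_mem (hbt (Finset.mem_insert_self _ _)))
          rintro rfl
          exact ha (hbt (Finset.mem_insert_self _ _))
        · exact ihb (fun x hx => hbt (Finset.mem_insert_of_mem hx))
    have h3 := hg s (Finset.Subset.refl s)
    rw [← hA] at h3
    have h4 : Nat.lcm (d a) A ∣ R ^ (s.card ^ 2) * X :=
      Nat.lcm_dvd ((h1 a (Finset.mem_insert_self _ _)).mul_left _) ih'
    have h5 : d a * A = Nat.gcd (d a) A * Nat.lcm (d a) A := (Nat.gcd_mul_lcm _ _).symm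
    rw [h5]
    have h6 := mul_dvd_mul h3 h4
    refine h6.trans ?_
    rw [← mul_assoc, ← pow_add]
    apply mul_dvd_mul_right
    apply pow_dvd_pow
    nlinarith

theorem dt_zero_iff {w w' : ℤ × ℤ} (h : IsCoprime w.1 w.2) (h' : IsCoprime w'.1 w'.2)
    (hd : dt w w' = 0) : w' = w ∨ w' = -w := by
  apply parallel h h'
  unfold dt at hd
  linarith

/-- one cell: vectors of one class with slopes near `ρ` -/
theorem cell_count (T : Finset (ℤ × ℤ)) (H Q τ ρ : ℝ) (hH : 0 < H) (hQ : 0 < Q) (hτ : 0 ≤ τ)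
    (hT : ∀ w ∈ T, IsCoprime w.1 w.2 ∧ w.2 ≠ 0 ∧ |(w.2 : ℝ)| ≤ 2 * H ∧
      |(w.1 : ℝ) / w.2 - ρ| ≤ τ)
    (hd : ∀ w ∈ T, ∀ w' ∈ T, dt w w' ≠ 0 → Q ≤ |(dt w w' : ℝ)|) :
    (T.card : ℝ) ≤ 2 * (8 * τ * H ^ 2 / Q + 1) := by
  classical
  have h := spaced T (fun w => (w.1 : ℝ) / w.2) ρ τ (Q / (4 * H ^ 2)) (by positivity) hτ
    (fun w hw => (hT w hw).2.2.2) (by
      intro w hw
      refine le_trans (Finset.card_le_card (t := {w, -w}) ?_) Finset.card_le_two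
      intro w' hw'
      rw [Finset.mem_filter] at hw'
      obtain ⟨hw'T, hlt⟩ := hw'
      rw [Finset.mem_insert, Finset.mem_singleton]
      apply dt_zero_iff (hT w hw).1 (hT w' hw'T).1
      by_contra hne
      have h1 := hd w hw w' hw'T hne
      obtain ⟨_, k1, k2, _⟩ := hT w hw
      obtain ⟨_, k3, k4, _⟩ := hT w' hw'T
      have k1' : (w.2 : ℝ) ≠ 0 := by exact_mod_cast k1
      have k3' : (w'.2 : ℝ) ≠ 0 := by exact_mod_cast k3
      have e1 : (w'.1 : ℝ) / w'.2 - (w.1 : ℝ) / w.2 = -(dt w w' : ℝ) / (w.2 * w'.2) := by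
        unfold dt
        push_cast
        field_simp
        ring
      rw [e1, abs_div, abs_neg, abs_mul] at hlt
      have k5 : 0 < |(w.2 : ℝ)| := abs_pos.mpr k1'
      have k6 : 0 < |(w'.2 : ℝ)| := abs_pos.mpr k3'
      have k7 : |(w.2 : ℝ)| * |(w'.2 : ℝ)| ≤ 4 * H ^ 2 := by nlinarith
      have k8 : Q / (4 * H ^ 2) ≤ |(dt w w' : ℝ)| / (|(w.2 : ℝ)| * |(w'.2 : ℝ)|) := by
        apply div_le_div₀ (abs_nonneg _) h1 (by positivity) k7
      linarith)
  refine h.trans (le_of_eq ?_)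
  field_simp
  ring

/-- vectors in all the classes: the determinants are large -/
theorem dt_large {ι : Type*} [DecidableEq ι] (I : Finset ι) (f : ι → ℤ × ℤ → ℤ) (dg : ι → ℕ)
    (hsep : ∀ i ∈ I, ∀ j ∈ I, i ≠ j → Sep (f i) (f j) (dg i) (dg j)) (K : ι → ℤ)
    (hK : ∀ i ∈ I, K i ≠ 0) :
    ∃ K' : ℝ, 1 ≤ K' ∧ ∀ (d : ι → ℕ) (w w' : ℤ × ℤ), IsCoprime w.1 w.2 →
      (∀ i ∈ I, (d i : ℤ) ∣ f i w) → (∀ i ∈ I, (d i : ℤ) ∣ K i * dt w w') → dt w w' ≠ 0 →
      ∏ i ∈ I, (d i : ℝ) ≤ K' * |(dt w w' : ℝ)| := by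
  classical
  have hex : ∀ i j : ι, ∃ ρ : ℤ, ρ ≠ 0 ∧ (i ∈ I → j ∈ I → i ≠ j → ∀ (w : ℤ × ℤ) (d : ℤ),
      IsCoprime w.1 w.2 → d ∣ f i w → d ∣ f j w → d ∣ ρ) := by
    intro i j
    by_cases h : i ∈ I ∧ j ∈ I ∧ i ≠ j
    · obtain ⟨ρ, c, h1, _, h3, _⟩ := hsep i h.1 j h.2.1 h.2.2
      exact ⟨ρ, h1, fun _ _ _ => h3⟩
    · exact ⟨1, one_ne_zero, fun a b c => absurd ⟨a, b, c⟩ h⟩
  choose ρ hρ0 hρ using hex
  set R : ℕ := ∏ i ∈ I, ∏ j ∈ I, (ρ i j).natAbs with hR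
  have hR0 : R ≠ 0 := by
    rw [hR]
    apply Finset.prod_ne_zero_iff.mpr
    intro i _
    apply Finset.prod_ne_zero_iff.mpr
    intro j _
    exact Int.natAbs_ne_zero.mpr (hρ0 i j)
  set P : ℕ := ∏ i ∈ I, (K i).natAbs with hP
  have hP0 : P ≠ 0 := by
    rw [hP]
    exact Finset.prod_ne_zero_iff.mpr (fun i hi => Int.natAbs_ne_zero.mpr (hK i hi))
  refine ⟨((R ^ (I.card ^ 2) * P : ℕ) : ℝ), ?_, ?_⟩
  · exact_mod_cast Nat.one_le_iff_ne_zero.mpr (mul_ne_zero (pow_ne_zero _ hR0) hP0)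
  · intro d w w' hw hd hdK hdt
    have h1 := prod_dvd_of_pairwise I d R (P * (dt w w').natAbs)
      (by
        intro i hi
        have h2 : d i ∣ (K i).natAbs * (dt w w').natAbs := by
          rw [← Int.natAbs_mul]
          exact Int.natCast_dvd.mp (hdK i hi)
        refine h2.trans (mul_dvd_mul_right ?_ _)
        exact Finset.dvd_prod_of_mem (fun i => (K i).natAbs) hi)
      (by
        intro i hi j hj hij
        have h2 : ((Nat.gcd (d i) (d j) : ℕ) : ℤ) ∣ ρ i j := by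
          apply hρ i j hi hj hij w _ hw
          · exact (Int.natCast_dvd_natCast.mpr (Nat.gcd_dvd_left _ _)).trans (hd i hi)
          · exact (Int.natCast_dvd_natCast.mpr (Nat.gcd_dvd_right _ _)).trans (hd j hj)
        refine (Int.natCast_dvd.mp h2).trans ?_
        exact (Finset.dvd_prod_of_mem (fun j => (ρ i j).natAbs) hj).trans
          (Finset.dvd_prod_of_mem (fun i => ∏ j ∈ I, (ρ i j).natAbs) hi))
    have h3 : R ^ (I.card ^ 2) * (P * (dt w w').natAbs) ≠ 0 :=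
      mul_ne_zero (pow_ne_zero _ hR0) (mul_ne_zero hP0 (Int.natAbs_ne_zero.mpr hdt))
    have h4 := Nat.le_of_dvd (Nat.pos_of_ne_zero h3) h1
    have h5 : ((∏ i ∈ I, d i : ℕ) : ℝ) ≤ ((R ^ (I.card ^ 2) * (P * (dt w w').natAbs) : ℕ) : ℝ) := by
      exact_mod_cast h4
    rw [Nat.cast_prod] at h5
    refine h5.trans (le_of_eq ?_)
    rw [← natAbs_cast_abs]
    push_cast
    ring

/-- at most one form is small -/
theorem one_small {ι : Type*} [DecidableEq ι] (I : Finset ι) (hI : I.Nonempty)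
    (f : ι → ℤ × ℤ → ℤ) (dg : ι → ℕ)
    (hsep : ∀ i ∈ I, ∀ j ∈ I, i ≠ j → Sep (f i) (f j) (dg i) (dg j)) :
    ∃ c : ℝ, 0 < c ∧ ∀ (H V : ℝ) (w : ℤ × ℤ), 1 ≤ H → H ≤ hgt w →
      ∏ i ∈ I, |(f i w : ℝ)| ≤ V →
      ∃ i ∈ I, c * |(f i w : ℝ)| * H ^ (∑ j ∈ I, dg j) ≤ V * H ^ dg i := by
  classical
  have hex : ∀ i j : ι, ∃ c : ℝ, 0 < c ∧ (i ∈ I → j ∈ I → i ≠ j → ∀ w : ℤ × ℤ, 1 ≤ hgt w →
      c * hgt w ^ dg i ≤ |(f i w : ℝ)| ∨ c * hgt w ^ dg j ≤ |(f j w : ℝ)|) := by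
    intro i j
    by_cases h : i ∈ I ∧ j ∈ I ∧ i ≠ j
    · obtain ⟨_, c, _, h2, _, h4⟩ := hsep i h.1 j h.2.1 h.2.2
      exact ⟨c, h2, fun _ _ _ => h4⟩
    · exact ⟨1, one_pos, fun a b c => absurd ⟨a, b, c⟩ h⟩
  choose c0 hc0 hc using hex
  have hII : (I ×ˢ I).Nonempty := hI.product hI
  set c1 : ℝ := (I ×ˢ I).inf' hII (fun x => c0 x.1 x.2) with hc1
  have hc1pos : 0 < c1 := by
    rw [hc1, Finset.lt_inf'_iff]
    intro x _; exact hc0 _ _
  have hc1le : ∀ i ∈ I, ∀ j ∈ I, c1 ≤ c0 i j := fun i hi j hj =>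
    Finset.inf'_le (f := fun x : ι × ι => c0 x.1 x.2) (Finset.mk_mem_product hi hj)
  have hc1neg : ∀ i ∈ I, ∀ j ∈ I, i ≠ j → ∀ w : ℤ × ℤ, 1 ≤ hgt w →
      c1 * hgt w ^ dg i ≤ |(f i w : ℝ)| ∨ c1 * hgt w ^ dg j ≤ |(f j w : ℝ)| := by
    intro i hi j hj hij w hw
    have h0 : (0 : ℝ) ≤ hgt w := hgt_nonneg w
    rcases hc i j hi hj hij w hw with h | h
    · left
      exact (mul_le_mul_of_nonneg_right (hc1le i hi j hj) (by positivity)).trans h
    · right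
      exact (mul_le_mul_of_nonneg_right (hc1le i hi j hj) (by positivity)).trans h
  refine ⟨c1 ^ (I.card - 1), by positivity, ?_⟩
  intro H V w hH hHw hV
  have hH0 : 0 < H := by linarith
  have hw1 : 1 ≤ hgt w := hH.trans hHw
  -- the exceptional index
  obtain ⟨i, hi, hbig⟩ : ∃ i ∈ I, ∀ j ∈ I, j ≠ i → c1 * H ^ dg j ≤ |(f j w : ℝ)| := by
    by_cases hall : ∀ j ∈ I, c1 * hgt w ^ dg j ≤ |(f j w : ℝ)|
    · obtain ⟨i, hi⟩ := hI
      refine ⟨i, hi, fun j hj _ => ?_⟩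
      refine le_trans ?_ (hall j hj)
      apply mul_le_mul_of_nonneg_left _ hc1pos.le
      exact pow_le_pow_left₀ hH0.le hHw _
    · push Not at hall
      obtain ⟨i, hi, hlt⟩ := hall
      refine ⟨i, hi, fun j hj hji => ?_⟩
      rcases hc1neg i hi j hj (Ne.symm hji) w hw1 with h | h
      · exact absurd h (not_le.mpr hlt)
      · refine le_trans ?_ h
        apply mul_le_mul_of_nonneg_left _ hc1pos.le
        exact pow_le_pow_left₀ hH0.le hHw _
  refine ⟨i, hi, ?_⟩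
  have h1 : ∏ j ∈ I.erase i, (c1 * H ^ dg j) ≤ ∏ j ∈ I.erase i, |(f j w : ℝ)| := by
    apply Finset.prod_le_prod
    · intro j _; positivity
    · intro j hj
      rw [Finset.mem_erase] at hj
      exact hbig j hj.2 hj.1
  have h2 : ∏ j ∈ I.erase i, (c1 * H ^ dg j) = c1 ^ (I.card - 1) * H ^ (∑ j ∈ I.erase i, dg j) := by
    rw [Finset.prod_mul_distrib, Finset.prod_const, Finset.card_erase_of_mem hi,
      Finset.prod_pow_eq_pow_sum]
  have h3 : |(f i w : ℝ)| * ∏ j ∈ I.erase i, |(f j w : ℝ)| ≤ V := by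
    rw [Finset.mul_prod_erase I (fun j => |(f j w : ℝ)|) hi]
    exact hV
  have h4 : ∑ j ∈ I, dg j = dg i + ∑ j ∈ I.erase i, dg j := by
    rw [Finset.add_sum_erase I dg hi]
  rw [h4, pow_add]
  have h5 : |(f i w : ℝ)| * (c1 ^ (I.card - 1) * H ^ (∑ j ∈ I.erase i, dg j)) ≤ V := by
    rw [← h2]
    exact (mul_le_mul_of_nonneg_left h1 (abs_nonneg _)).trans h3
  have h6 : (0 : ℝ) ≤ H ^ dg i := by positivity
  calc c1 ^ (I.card - 1) * |(f i w : ℝ)| * (H ^ dg i * H ^ (∑ j ∈ I.erase i, dg j))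
      = (|(f i w : ℝ)| * (c1 ^ (I.card - 1) * H ^ (∑ j ∈ I.erase i, dg j))) * H ^ dg i := by ring
    _ ≤ V * H ^ dg i := mul_le_mul_of_nonneg_right h5 h6

end Fm

end Pool.Agent.Lib.MP_d8bd92_nt
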