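import Pool.Agent.Lib.MP_d8bd92_nt.FmM

/-! Part (3) of Theorem F (MP_d8bd92_nt): vectors of given height with prescribed divisors of the
forms. -/

set_option autoImplicit false

namespace Pool.Agent.Lib.MP_d8bd92_nt

open Finset

namespace Fm

theorem dt_swap2 (w w' : ℤ × ℤ) : dt w.swap w'.swap = - dt w w' := by
  unfold dt
  simp only [Prod.fst_swap, Prod.snd_swap]
  ring

theorem alg1 (SC V c Hr H2 D K' : ℝ) (hc : c ≠ 0) (hHr : Hr ≠ 0) (hD : D ≠ 0) (hK : K' ≠ 0) :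
    8 * (SC * V / (c * Hr)) * H2 / (D / K') = 8 * SC * K' / c * (V * H2 / (Hr * D)) := by
  field_simp

theorem alg2 (n a X : ℝ) (hn : 0 ≤ n) (ha : 0 ≤ a) (hX : 0 ≤ X) :
    2 * n * (2 * (1 + a * X)) ≤ (4 * n * (1 + a) + 1) * (1 + X) := by
  have h3 : (4 * n * (1 + a) + 1) * (1 + X) - 2 * n * (2 * (1 + a * X)) =
      4 * n * (a + X) + 1 + X := by ring
  have h4 : 0 ≤ 4 * n * (a + X) + 1 + X := by positivity
  linarith

theorem alg3 (n a : ℝ) (hn : 0 ≤ n) (ha : 0 ≤ a) : 1 ≤ 4 * n * (1 + a) + 1 := by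
  have h4 : 0 ≤ 4 * n * (1 + a) := by positivity
  linarith

theorem strip_count {ι : Type*} [DecidableEq ι] (I : Finset ι) (hI : I.Nonempty)
    (f : ι → ℤ × ℤ → ℤ) (dg : ι → ℕ) (hnear : ∀ i ∈ I, Near (f i) (dg i))
    (hcls : ∀ i ∈ I, Cls (f i)) (hsep : ∀ i ∈ I, ∀ j ∈ I, i ≠ j → Sep (f i) (f j) (dg i) (dg j)) :
    ∃ C : ℝ, 1 ≤ C ∧ ∀ (H V : ℝ) (d : ι → ℕ) (T : Finset (ℤ × ℤ)), 1 ≤ H → 0 ≤ V →
      (∀ i ∈ I, d i ≠ 0) →
      (∀ w ∈ T, IsCoprime w.1 w.2 ∧ H ≤ hgt w ∧ hgt w ≤ 2 * H ∧ (∀ i ∈ I, (d i : ℤ) ∣ f i w) ∧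
        ∏ i ∈ I, |(f i w : ℝ)| ≤ V) →
      (T.card : ℝ) ≤ C * (∏ i ∈ I, (2 : ℝ) ^ (d i).primeFactors.card) *
        (1 + V * H ^ 2 / (H ^ (∑ i ∈ I, dg i) * ∏ i ∈ I, (d i : ℝ))) := by
  classical
  obtain ⟨c, hc, hsmall⟩ := one_small I hI f dg hsep
  choose! K hK0 hKc using hcls
  obtain ⟨K', hK', hdt⟩ := dt_large I f dg hsep K hK0
  choose! Rt Cn hCn hnear using hnear
  set SC : ℝ := ∑ i ∈ I, Cn i with hSC
  have hSCle : ∀ i ∈ I, Cn i ≤ SC := fun i hi =>
    Finset.single_le_sum (f := Cn) (fun j hj => (hCn j hj).le) hi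
  have hSC0 : 0 ≤ SC := Finset.sum_nonneg (fun j hj => (hCn j hj).le)
  set nR : ℕ := ∑ i ∈ I, (Rt i).card with hnR
  have hK'0 : 0 < K' := by linarith
  refine ⟨4 * nR * (1 + 8 * SC * K' / c) + 1, ?_, ?_⟩
  · exact alg3 _ _ (Nat.cast_nonneg _)
      (div_nonneg (mul_nonneg (mul_nonneg (by norm_num) hSC0) hK'0.le) hc.le)
  intro H V d T hH hV hd hT
  have hH0 : 0 < H := by linarith
  set r : ℕ := ∑ i ∈ I, dg i with hr
  set D : ℝ := ∏ i ∈ I, (d i : ℝ) with hD
  have hDpos : 0 < D := by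
    rw [hD]
    apply Finset.prod_pos
    intro i hi
    exact_mod_cast Nat.pos_of_ne_zero (hd i hi)
  set τ : ℝ := SC * V / (c * H ^ r) with hτ
  have hHr : 0 < H ^ r := pow_pos hH0 r
  have hτ0 : 0 ≤ τ := div_nonneg (mul_nonneg hSC0 hV) (mul_pos hc hHr).le
  set Q : ℝ := D / K' with hQ
  have hQ0 : 0 < Q := div_pos hDpos hK'0
  set B : ℝ := 2 * (8 * τ * H ^ 2 / Q + 1) with hB
  have hB0 : 0 ≤ B := mul_nonneg (by norm_num) (add_nonneg (div_nonneg
    (mul_nonneg (mul_nonneg (by norm_num) hτ0) (sq_nonneg H)) hQ0.le) zero_le_one)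
  -- nearness of the slope, both charts
  have hchart : ∀ w ∈ T, ∀ (x y : ℝ) , |y| = hgt w → (∀ i ∈ I, ∃ ρ ∈ Rt i,
      |x / y - ρ| * |y| ^ dg i ≤ Cn i * |(f i w : ℝ)|) → ∃ i ∈ I, ∃ ρ ∈ Rt i, |x / y - ρ| ≤ τ := by
    intro w hw x y hy hnr
    obtain ⟨_, h2, _, _, h5⟩ := hT w hw
    obtain ⟨i, hi, hsm⟩ := hsmall H V w hH h2 h5
    obtain ⟨ρ, hρ, h6⟩ := hnr i hi
    refine ⟨i, hi, ρ, hρ, ?_⟩
    have hHd : 0 < H ^ dg i := pow_pos hH0 _
    have h7 : |x / y - ρ| * H ^ dg i ≤ Cn i * |(f i w : ℝ)| := by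
      refine le_trans ?_ h6
      apply mul_le_mul_of_nonneg_left _ (abs_nonneg _)
      rw [hy]
      exact pow_le_pow_left₀ hH0.le h2 _
    have h8 : |x / y - ρ| * H ^ dg i * (c * H ^ r) ≤ SC * (V * H ^ dg i) := by
      calc |x / y - ρ| * H ^ dg i * (c * H ^ r) ≤ (Cn i * |(f i w : ℝ)|) * (c * H ^ r) :=
            mul_le_mul_of_nonneg_right h7 (mul_pos hc hHr).le
        _ = Cn i * (c * |(f i w : ℝ)| * H ^ r) := by ring
        _ ≤ Cn i * (V * H ^ dg i) := mul_le_mul_of_nonneg_left hsm (hCn i hi).le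
        _ ≤ SC * (V * H ^ dg i) := mul_le_mul_of_nonneg_right (hSCle i hi) (mul_nonneg hV hHd.le)
    have h9 : |x / y - ρ| * (c * H ^ r) ≤ SC * V := by
      have : (|x / y - ρ| * (c * H ^ r)) * H ^ dg i ≤ (SC * V) * H ^ dg i := by
        calc (|x / y - ρ| * (c * H ^ r)) * H ^ dg i = |x / y - ρ| * H ^ dg i * (c * H ^ r) := by ring
          _ ≤ SC * (V * H ^ dg i) := h8
          _ = (SC * V) * H ^ dg i := by ring
      exact le_of_mul_le_mul_right this hHd
    rw [hτ, le_div_iff₀ (mul_pos hc hHr)]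
    exact h9
  -- one class
  have hclass : ∀ T' ⊆ T, (∀ w ∈ T', ∀ w' ∈ T', ∀ i ∈ I, (d i : ℤ) ∣ K i * dt w w') →
      (T'.card : ℝ) ≤ 2 * nR * B := by
    intro T' hT' hcl
    have hQdt : ∀ w ∈ T', ∀ w' ∈ T', dt w w' ≠ 0 → Q ≤ |(dt w w' : ℝ)| := by
      intro w hw w' hw' hne
      have h1 := hdt d w w' (hT w (hT' hw)).1 (hT w (hT' hw)).2.2.2.1
        (fun i hi => hcl w hw w' hw' i hi) hne
      rw [hQ, div_le_iff₀ hK'0]
      linarith
    set T1 : Finset (ℤ × ℤ) := T'.filter (fun w => |(w.1 : ℝ)| ≤ |(w.2 : ℝ)|) with hT1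
    set T2 : Finset (ℤ × ℤ) := T'.filter (fun w => ¬ |(w.1 : ℝ)| ≤ |(w.2 : ℝ)|) with hT2
    have hcard : T'.card = T1.card + T2.card := by
      rw [hT1, hT2, Finset.card_filter_add_card_filter_not]
    have hcells : ∀ (S : Finset (ℤ × ℤ)) (x : ℤ × ℤ → ℝ), (∀ w ∈ S, ∃ i ∈ I, ∃ ρ ∈ Rt i,
        |x w - ρ| ≤ τ) → (∀ i ∈ I, ∀ ρ ∈ Rt i, ((S.filter (fun w => |x w - ρ| ≤ τ)).card : ℝ) ≤ B) →
        (S.card : ℝ) ≤ nR * B := by
      intro S x hS hSB
      have hcov : S ⊆ I.biUnion (fun i => (Rt i).biUnion (fun ρ =>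
          S.filter (fun w => |x w - ρ| ≤ τ))) := by
        intro w hw
        obtain ⟨i, hi, ρ, hρ, h⟩ := hS w hw
        rw [Finset.mem_biUnion]
        refine ⟨i, hi, ?_⟩
        rw [Finset.mem_biUnion]
        exact ⟨ρ, hρ, Finset.mem_filter.mpr ⟨hw, h⟩⟩
      have h1 : S.card ≤ ∑ i ∈ I, ∑ ρ ∈ Rt i, (S.filter (fun w => |x w - ρ| ≤ τ)).card := by
        refine (Finset.card_le_card hcov).trans (Finset.card_biUnion_le.trans ?_)
        exact Finset.sum_le_sum (fun i _ => Finset.card_biUnion_le)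
      have h2 : (S.card : ℝ) ≤ ∑ i ∈ I, ∑ ρ ∈ Rt i,
          ((S.filter (fun w => |x w - ρ| ≤ τ)).card : ℝ) := by exact_mod_cast h1
      refine h2.trans ?_
      have h3 : ∑ i ∈ I, ∑ ρ ∈ Rt i, ((S.filter (fun w => |x w - ρ| ≤ τ)).card : ℝ) ≤
          ∑ i ∈ I, ∑ ρ ∈ Rt i, B :=
        Finset.sum_le_sum (fun i hi => Finset.sum_le_sum (fun ρ hρ => hSB i hi ρ hρ))
      refine h3.trans (le_of_eq ?_)
      rw [hnR, Nat.cast_sum, Finset.sum_mul]
      apply Finset.sum_congr rfl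
      intro i _
      rw [Finset.sum_const, nsmul_eq_mul]
    have hc1 : (T1.card : ℝ) ≤ nR * B := by
      apply hcells T1 (fun w => (w.1 : ℝ) / w.2)
      · intro w hw
        rw [hT1, Finset.mem_filter] at hw
        obtain ⟨hwT', hle⟩ := hw
        have hwT := hT' hwT'
        obtain ⟨_, h2, _, _, _⟩ := hT w hwT
        have hy : |(w.2 : ℝ)| = hgt w := by unfold hgt; rw [max_eq_right hle]
        have hne : w.2 ≠ 0 := by
          intro h0
          rw [h0, Int.cast_zero, abs_zero] at hy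
          linarith
        exact hchart w hwT w.1 w.2 hy (fun i hi => (hnear i hi w).1 hne hle)
      · intro i _ ρ _
        apply cell_count _ H Q τ ρ hH0 hQ0 hτ0
        · intro w hw
          rw [Finset.mem_filter, hT1, Finset.mem_filter] at hw
          obtain ⟨⟨hwT', hle⟩, hnr⟩ := hw
          obtain ⟨h1, h2, h3, _, _⟩ := hT w (hT' hwT')
          have hy : |(w.2 : ℝ)| = hgt w := by unfold hgt; rw [max_eq_right hle]
          have hne : w.2 ≠ 0 := by
            intro h0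
            rw [h0, Int.cast_zero, abs_zero] at hy
            linarith
          refine ⟨h1, hne, by rw [hy]; exact h3, hnr⟩
        · intro w hw w' hw' hne
          rw [Finset.mem_filter, hT1, Finset.mem_filter] at hw hw'
          exact hQdt w hw.1.1 w' hw'.1.1 hne
    have hc2 : (T2.card : ℝ) ≤ nR * B := by
      apply hcells T2 (fun w => (w.2 : ℝ) / w.1)
      · intro w hw
        rw [hT2, Finset.mem_filter] at hw
        obtain ⟨hwT', hle⟩ := hw
        push Not at hle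
        have hwT := hT' hwT'
        obtain ⟨_, h2, _, _, _⟩ := hT w hwT
        have hy : |(w.1 : ℝ)| = hgt w := by unfold hgt; rw [max_eq_left hle.le]
        have hne : w.1 ≠ 0 := by
          intro h0
          rw [h0, Int.cast_zero, abs_zero] at hy
          linarith
        exact hchart w hwT w.2 w.1 hy (fun i hi => (hnear i hi w).2 hne hle.le)
      · intro i _ ρ _
        set S : Finset (ℤ × ℤ) := T2.filter (fun w => |(w.2 : ℝ) / w.1 - ρ| ≤ τ) with hS
        have hSi : (S.image Prod.swap).card = S.card :=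
          Finset.card_image_of_injective _ Prod.swap_injective
        rw [← hSi]
        apply cell_count _ H Q τ ρ hH0 hQ0 hτ0
        · intro v hv
          obtain ⟨w, hw, rfl⟩ := Finset.mem_image.mp hv
          rw [hS, Finset.mem_filter, hT2, Finset.mem_filter] at hw
          obtain ⟨⟨hwT', hle⟩, hnr⟩ := hw
          push Not at hle
          obtain ⟨h1, h2, h3, _, _⟩ := hT w (hT' hwT')
          have hy : |(w.1 : ℝ)| = hgt w := by unfold hgt; rw [max_eq_left hle.le]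
          have hne : w.1 ≠ 0 := by
            intro h0
            rw [h0, Int.cast_zero, abs_zero] at hy
            linarith
          simp only [Prod.fst_swap, Prod.snd_swap]
          exact ⟨h1.symm, hne, by rw [hy]; exact h3, hnr⟩
        · intro v hv v' hv' hne
          obtain ⟨w, hw, rfl⟩ := Finset.mem_image.mp hv
          obtain ⟨w', hw', rfl⟩ := Finset.mem_image.mp hv'
          rw [hS, Finset.mem_filter, hT2, Finset.mem_filter] at hw hw'
          rw [dt_swap2] at hne ⊢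
          rw [Int.cast_neg, abs_neg]
          exact hQdt w hw.1.1 w' hw'.1.1 (fun h => hne (by rw [h, neg_zero]))
    have h9 : (T'.card : ℝ) = (T1.card : ℝ) + (T2.card : ℝ) := by rw [hcard, Nat.cast_add]
    rw [h9]
    linarith only [hc1, hc2]
  -- all classes
  have hex : ∀ i ∈ I, ∃ cf : ℤ × ℤ → Finset ℕ, (∀ w, cf w ⊆ (d i).primeFactors) ∧
      ∀ w ∈ T, ∀ w' ∈ T, cf w = cf w' → (d i : ℤ) ∣ K i * dt w w' := by
    intro i hi
    exact hKc i hi (d i) (hd i hi) T (fun w hw => ⟨(hT w hw).1, (hT w hw).2.2.2.1 i hi⟩)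
  choose! cf hcf1 hcf2 using hex
  set P : Finset ((i : ι) → i ∈ I → Finset ℕ) := I.pi (fun i => (d i).primeFactors.powerset) with hP
  set g : ℤ × ℤ → ((i : ι) → i ∈ I → Finset ℕ) := fun w i _ => cf i w with hg
  have hmaps : ∀ w ∈ T, g w ∈ P := by
    intro w _
    rw [hP, Finset.mem_pi]
    intro i hi
    rw [Finset.mem_powerset]
    exact hcf1 i hi w
  have hPcard : (P.card : ℝ) = ∏ i ∈ I, (2 : ℝ) ^ (d i).primeFactors.card := by
    rw [hP, Finset.card_pi, Nat.cast_prod]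
    apply Finset.prod_congr rfl
    intro i _
    rw [Finset.card_powerset, Nat.cast_pow, Nat.cast_ofNat]
  have hTcard : (T.card : ℝ) ≤ P.card * (2 * nR * B) := by
    have h1 : T.card = ∑ b ∈ P, (T.filter (fun w => g w = b)).card :=
      Finset.card_eq_sum_card_fiberwise hmaps
    have h2 : (T.card : ℝ) = ∑ b ∈ P, ((T.filter (fun w => g w = b)).card : ℝ) := by
      rw [h1, Nat.cast_sum]
    rw [h2]
    have h3 : ∑ b ∈ P, ((T.filter (fun w => g w = b)).card : ℝ) ≤ ∑ b ∈ P, 2 * nR * B := by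
      apply Finset.sum_le_sum
      intro b _
      apply hclass _ (Finset.filter_subset _ _)
      intro w hw w' hw' i hi
      rw [Finset.mem_filter] at hw hw'
      apply hcf2 i hi w hw.1 w' hw'.1
      have h4 := congrFun (congrFun (hw.2.trans hw'.2.symm) i) hi
      exact h4
    refine h3.trans (le_of_eq ?_)
    rw [Finset.sum_const, nsmul_eq_mul]
  rw [← hPcard]
  have hP0 : (0 : ℝ) ≤ P.card := Nat.cast_nonneg _
  set X : ℝ := V * H ^ 2 / (H ^ r * D) with hX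
  have hX0 : 0 ≤ X := div_nonneg (mul_nonneg hV (sq_nonneg _)) (mul_pos hHr hDpos).le
  have hBX : B = 2 * (1 + 8 * SC * K' / c * X) := by
    have e := alg1 SC V c (H ^ r) (H ^ 2) D K' hc.ne' hHr.ne' hDpos.ne' hK'0.ne'
    rw [hB, hX, hτ, hQ, e]
    ring
  have hle : 2 * (nR : ℝ) * B ≤ (4 * nR * (1 + 8 * SC * K' / c) + 1) * (1 + X) := by
    rw [hBX]
    have h1 : 0 ≤ 8 * SC * K' / c :=
      div_nonneg (mul_nonneg (mul_nonneg (by norm_num) hSC0) hK'0.le) hc.le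
    have h2 : (0 : ℝ) ≤ nR := Nat.cast_nonneg _
    exact alg2 _ _ _ h2 h1 hX0
  calc (T.card : ℝ) ≤ P.card * (2 * nR * B) := hTcard
    _ ≤ P.card * ((4 * nR * (1 + 8 * SC * K' / c) + 1) * (1 + X)) :=
        mul_le_mul_of_nonneg_left hle hP0
    _ = _ := by ring

end Fm

end Pool.Agent.Lib.MP_d8bd92_nt
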