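import Pool.Agent.Lib.MP_d8bd92_nt.FmN
import Pool.Agent.Lib.MP_d8bd92_nt.FamArith

/-! Part (3) of Theorem F (MP_d8bd92_nt): summation over the excess tuples. -/

set_option autoImplicit false

namespace Pool.Agent.Lib.MP_d8bd92_nt

open Finset Pool.Agent.Lib.Szpiro

namespace Fm

/-- the excess `n / rd n` -/
def exc (n : ℕ) : ℕ := n / rd n

theorem exc_mul_rd {n : ℕ} : exc n * rd n = n := by
  unfold exc
  exact Nat.div_mul_cancel (Nat.prod_primeFactors_dvd n)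

theorem exc_pos {n : ℕ} (hn : n ≠ 0) : 1 ≤ exc n := by
  by_contra h
  have h1 : exc n = 0 := by omega
  have h2 := exc_mul_rd (n := n)
  rw [h1, zero_mul] at h2
  exact hn h2.symm

theorem exc_mul_rd_dvd {n : ℕ} (hn : n ≠ 0) : exc n * rd (exc n) ∣ n := by
  conv_rhs => rw [← exc_mul_rd (n := n)]
  apply mul_dvd_mul_left
  unfold rd
  apply Finset.prod_dvd_prod_of_subset
  apply Nat.primeFactors_mono _ hn
  exact ⟨rd n, exc_mul_rd.symm⟩

theorem primeFactors_mul_rd {e : ℕ} (he : e ≠ 0) : (e * rd e).primeFactors = e.primeFactors := by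
  rw [Nat.primeFactors_mul he (rd_pos e).ne']
  apply Finset.union_eq_left.mpr
  apply Nat.primeFactors_mono (Nat.prod_primeFactors_dvd e) he

theorem excess_count {ι : Type*} [Fintype ι] [DecidableEq ι] [Nonempty ι]
    (f : ι → ℤ × ℤ → ℤ) (dg : ι → ℕ) (hnear : ∀ i, Near (f i) (dg i))
    (hcls : ∀ i, Cls (f i)) (hsep : ∀ i j, i ≠ j → Sep (f i) (f j) (dg i) (dg j))
    (ε : ℝ) (hε : 0 < ε) :
    ∃ C : ℝ, 1 ≤ C ∧ ∀ (H R : ℝ) (Z : ℕ) (T : Finset (ℤ × ℤ)), 1 ≤ H → 0 ≤ R → 1 ≤ Z →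
      (∀ w ∈ T, IsCoprime w.1 w.2 ∧ H ≤ hgt w ∧ hgt w ≤ 2 * H ∧ (∀ i, f i w ≠ 0) ∧
        ∏ i, (rd (f i w).natAbs : ℝ) ≤ R ∧ ∀ i, exc (f i w).natAbs ≤ Z) →
      (T.card : ℝ) ≤ C * (Z : ℝ) ^ ε * ((Z : ℝ) ^ (Fintype.card ι) + R * (H ^ 2 / H ^ (∑ i, dg i))) := by
  classical
  set N : ℕ := Fintype.card ι with hN
  have hN1 : 1 ≤ N := Fintype.card_pos
  have hN0 : (0 : ℝ) < N := by exact_mod_cast hN1
  obtain ⟨C0, hC0, hstrip⟩ := strip_count (Finset.univ : Finset ι) Finset.univ_nonempty f dg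
    (fun i _ => hnear i) (fun i _ => hcls i) (fun i _ j _ => hsep i j)
  set κ : ℝ := ε / (2 * N) with hκ
  have hκ0 : 0 < κ := by positivity
  obtain ⟨C1, hC1, hω⟩ := exists_pow_card_primeFactors_le 2 κ hκ0
  obtain ⟨C2, hC2, hsum⟩ := sum_inv_rd κ hκ0
  refine ⟨C0 * C1 ^ N * C2 ^ N, ?_, ?_⟩
  · exact one_le_mul_of_one_le_of_one_le (one_le_mul_of_one_le_of_one_le hC0 (one_le_pow₀ hC1))
      (one_le_pow₀ hC2)
  intro H R Z T hH hR hZ hT
  have hH0 : 0 < H := by linarith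
  have hZR : (1 : ℝ) ≤ Z := by exact_mod_cast hZ
  have hZ0 : (0 : ℝ) < Z := by linarith
  set r : ℕ := ∑ i, dg i with hr
  have hHr : 0 < H ^ r := pow_pos hH0 r
  set P : Finset (ι → ℕ) := Fintype.piFinset (fun _ : ι => Finset.Icc 1 Z) with hP
  set g : ℤ × ℤ → (ι → ℕ) := fun w i => exc (f i w).natAbs with hg
  have hmaps : ∀ w ∈ T, g w ∈ P := by
    intro w hw
    rw [hP, Fintype.mem_piFinset]
    intro i
    rw [Finset.mem_Icc]
    exact ⟨exc_pos (Int.natAbs_ne_zero.mpr ((hT w hw).2.2.2.1 i)), (hT w hw).2.2.2.2.2 i⟩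
  have hcardP : (P.card : ℝ) = (Z : ℝ) ^ N := by
    rw [hP, Fintype.card_piFinset]
    simp [hN]
  have hω' : ∀ e ∈ P, ∏ i, (2 : ℝ) ^ (e i * rd (e i)).primeFactors.card ≤ C1 ^ N * (Z : ℝ) ^ (κ * N) := by
    intro e he
    rw [hP, Fintype.mem_piFinset] at he
    have h1 : ∀ i, (2 : ℝ) ^ (e i * rd (e i)).primeFactors.card ≤ C1 * (Z : ℝ) ^ κ := by
      intro i
      have h2 := Finset.mem_Icc.mp (he i)
      have h3 : e i ≠ 0 := by omega
      rw [primeFactors_mul_rd h3]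
      have h4 := hω (e i) h3
      push_cast at h4
      refine h4.trans ?_
      apply mul_le_mul_of_nonneg_left _ (by linarith)
      apply Real.rpow_le_rpow (Nat.cast_nonneg _) _ hκ0.le
      exact_mod_cast h2.2
    calc ∏ i, (2 : ℝ) ^ (e i * rd (e i)).primeFactors.card ≤ ∏ _i : ι, C1 * (Z : ℝ) ^ κ := by
          apply Finset.prod_le_prod
          · intro i _; positivity
          · intro i _; exact h1 i
      _ = (C1 * (Z : ℝ) ^ κ) ^ N := by rw [Finset.prod_const, Finset.card_univ]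
      _ = C1 ^ N * (Z : ℝ) ^ (κ * N) := by
          rw [mul_pow, Real.rpow_mul hZ0.le, Real.rpow_natCast]
  -- one fibre
  have hfib : ∀ e ∈ P, ((T.filter (fun w => g w = e)).card : ℝ) ≤
      C0 * (C1 ^ N * (Z : ℝ) ^ (κ * N)) * (1 + R * (H ^ 2 / H ^ r) * ∏ i, ((rd (e i) : ℝ))⁻¹) := by
    intro e he
    have he' := he
    rw [hP, Fintype.mem_piFinset] at he'
    have hepos : ∀ i, e i ≠ 0 := by
      intro i
      have := Finset.mem_Icc.mp (he' i)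
      omega
    have hEpos : (0 : ℝ) < ∏ i, (e i : ℝ) :=
      Finset.prod_pos (fun i _ => by exact_mod_cast Nat.pos_of_ne_zero (hepos i))
    have h1 := hstrip H (R * ∏ i, (e i : ℝ)) (fun i => e i * rd (e i)) (T.filter (fun w => g w = e))
      hH (mul_nonneg hR hEpos.le) (fun i _ => mul_ne_zero (hepos i) (rd_pos _).ne') (by
        intro w hw
        rw [Finset.mem_filter] at hw
        obtain ⟨hwT, hge⟩ := hw
        obtain ⟨k1, k2, k3, k4, k5, k6⟩ := hT w hwT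
        have hei : ∀ i, exc (f i w).natAbs = e i := fun i => congrFun hge i
        refine ⟨k1, k2, k3, ?_, ?_⟩
        · intro i _
          rw [← hei i]
          exact Int.natCast_dvd.mpr (exc_mul_rd_dvd (Int.natAbs_ne_zero.mpr (k4 i)))
        · have h2 : ∏ i, |(f i w : ℝ)| = (∏ i, (e i : ℝ)) * ∏ i, (rd (f i w).natAbs : ℝ) := by
            rw [← Finset.prod_mul_distrib]
            apply Finset.prod_congr rfl
            intro i _
            rw [← natAbs_cast_abs, ← hei i, ← Nat.cast_mul, exc_mul_rd]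
          rw [h2, mul_comm R]
          exact mul_le_mul_of_nonneg_left k5 hEpos.le)
    refine h1.trans ?_
    have h3 : R * (∏ i, (e i : ℝ)) * H ^ 2 / (H ^ r * ∏ i, ((e i * rd (e i) : ℕ) : ℝ)) =
        R * (H ^ 2 / H ^ r) * ∏ i, ((rd (e i) : ℝ))⁻¹ := by
      have h4 : ∏ i, ((e i * rd (e i) : ℕ) : ℝ) = (∏ i, (e i : ℝ)) * ∏ i, (rd (e i) : ℝ) := by
        rw [← Finset.prod_mul_distrib]
        apply Finset.prod_congr rfl
        intro i _
        rw [Nat.cast_mul]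
      have h5 : (0 : ℝ) < ∏ i, (rd (e i) : ℝ) :=
        Finset.prod_pos (fun i _ => by exact_mod_cast rd_pos _)
      rw [h4, Finset.prod_inv_distrib]
      field_simp
    rw [h3]
    have h6 : 0 ≤ 1 + R * (H ^ 2 / H ^ r) * ∏ i, ((rd (e i) : ℝ))⁻¹ := by
      have : (0 : ℝ) ≤ ∏ i, ((rd (e i) : ℝ))⁻¹ := Finset.prod_nonneg (fun i _ => by positivity)
      have h7 : 0 ≤ H ^ 2 / H ^ r := div_nonneg (sq_nonneg _) hHr.le
      have h8 := mul_nonneg (mul_nonneg hR h7) this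
      linarith
    apply mul_le_mul_of_nonneg_right _ h6
    apply mul_le_mul_of_nonneg_left (hω' e he) (by linarith)
  -- sum
  have h1 : (T.card : ℝ) = ∑ e ∈ P, ((T.filter (fun w => g w = e)).card : ℝ) := by
    rw [Finset.card_eq_sum_card_fiberwise hmaps, Nat.cast_sum]
  have h2 : ∑ e ∈ P, ∏ i, ((rd (e i) : ℝ))⁻¹ = (∑ a ∈ Finset.Icc 1 Z, ((rd a : ℝ))⁻¹) ^ N := by
    rw [hP]
    have h3 := Finset.prod_univ_sum (fun _ : ι => Finset.Icc 1 Z) (fun _ a => ((rd a : ℝ))⁻¹)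
    rw [← h3, Finset.prod_const, Finset.card_univ]
  have h4 : (∑ a ∈ Finset.Icc 1 Z, ((rd a : ℝ))⁻¹) ^ N ≤ C2 ^ N * (Z : ℝ) ^ (κ * N) := by
    have h5 := hsum Z hZ
    calc (∑ a ∈ Finset.Icc 1 Z, ((rd a : ℝ))⁻¹) ^ N ≤ (C2 * (Z : ℝ) ^ κ) ^ N :=
          pow_le_pow_left₀ (Finset.sum_nonneg (fun _ _ => by positivity)) h5 N
      _ = _ := by rw [mul_pow, Real.rpow_mul hZ0.le, Real.rpow_natCast]
  set A : ℝ := C0 * (C1 ^ N * (Z : ℝ) ^ (κ * N)) with hA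
  have hA0 : 0 ≤ A := by
    rw [hA]
    have : (0 : ℝ) ≤ (Z : ℝ) ^ (κ * N) := by positivity
    have h5 : (0 : ℝ) ≤ C1 ^ N := by positivity
    exact mul_nonneg (by linarith) (mul_nonneg h5 this)
  set G : ℝ := R * (H ^ 2 / H ^ r) with hG
  have hG0 : 0 ≤ G := mul_nonneg hR (div_nonneg (sq_nonneg _) hHr.le)
  have h5 : (T.card : ℝ) ≤ A * ((Z : ℝ) ^ N + G * (C2 ^ N * (Z : ℝ) ^ (κ * N))) := by
    rw [h1]
    calc ∑ e ∈ P, ((T.filter (fun w => g w = e)).card : ℝ)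
        ≤ ∑ e ∈ P, A * (1 + G * ∏ i, ((rd (e i) : ℝ))⁻¹) := Finset.sum_le_sum hfib
      _ = A * ((P.card : ℝ) + G * ∑ e ∈ P, ∏ i, ((rd (e i) : ℝ))⁻¹) := by
          rw [← Finset.mul_sum, Finset.sum_add_distrib, Finset.sum_const, nsmul_eq_mul, mul_one,
            Finset.mul_sum]
      _ ≤ A * ((Z : ℝ) ^ N + G * (C2 ^ N * (Z : ℝ) ^ (κ * N))) := by
          rw [hcardP, h2]
          apply mul_le_mul_of_nonneg_left _ hA0
          exact add_le_add le_rfl (mul_le_mul_of_nonneg_left h4 hG0)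
  refine h5.trans ?_
  have hZκ : (1 : ℝ) ≤ (Z : ℝ) ^ (κ * N) := Real.one_le_rpow hZR (by positivity)
  have hZε : (Z : ℝ) ^ (κ * N) * (Z : ℝ) ^ (κ * N) = (Z : ℝ) ^ ε := by
    rw [← Real.rpow_add hZ0]
    congr 1
    rw [hκ]
    field_simp
    ring
  have hC2N : (1 : ℝ) ≤ C2 ^ N := one_le_pow₀ hC2
  have hZN : (0 : ℝ) ≤ (Z : ℝ) ^ N := by positivity
  have h6 : (Z : ℝ) ^ N + G * (C2 ^ N * (Z : ℝ) ^ (κ * N)) ≤
      C2 ^ N * (Z : ℝ) ^ (κ * N) * ((Z : ℝ) ^ N + G) := by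
    have h7 : (1 : ℝ) ≤ C2 ^ N * (Z : ℝ) ^ (κ * N) := one_le_mul_of_one_le_of_one_le hC2N hZκ
    nlinarith
  calc A * ((Z : ℝ) ^ N + G * (C2 ^ N * (Z : ℝ) ^ (κ * N)))
      ≤ A * (C2 ^ N * (Z : ℝ) ^ (κ * N) * ((Z : ℝ) ^ N + G)) := mul_le_mul_of_nonneg_left h6 hA0
    _ = C0 * C1 ^ N * C2 ^ N * ((Z : ℝ) ^ (κ * N) * (Z : ℝ) ^ (κ * N)) * ((Z : ℝ) ^ N + G) := by
        rw [hA]; ring
    _ = _ := by rw [hZε]

end Fm

end Pool.Agent.Lib.MP_d8bd92_nt
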