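import Pool.Agent.Lib.MP_d8bd92_nt.FmB

/-! Part (3) of Theorem F (MP_d8bd92_nt): the vectors at which a quadratic form is divisible by `d`
lie in few projective classes (helper96). -/

set_option autoImplicit false

namespace Pool.Agent.Lib.MP_d8bd92_nt

open Finset

namespace Fm

/-- one of `b`, `u` with `p ^ k ∣ b * u`, `u = a * (p ^ f * β') + b * γ`. -/
theorem qt_one (p : ℤ) (hp : Prime p) (k f : ℕ) (β' γ a b : ℤ) (hβ' : ¬ p ∣ β') (hfk : f ≤ k)
    (h1 : p ^ k ∣ b * (a * (p ^ f * β') + b * γ)) (hab : p ∣ b → ¬ p ∣ a) :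
    p ^ k ∣ p ^ f * b ∨ p ^ (k - f) ∣ a * (p ^ f * β') + b * γ := by
  by_cases hb : p ^ (f + 1) ∣ b
  · left
    obtain ⟨c, hc⟩ := hb
    have hpb : p ∣ b := by
      rw [hc]
      exact Dvd.dvd.mul_right (dvd_pow_self p (Nat.succ_ne_zero f)) c
    have h2 : a * (p ^ f * β') + b * γ = p ^ f * (a * β' + p * (c * γ)) := by
      rw [hc]
      ring
    rw [h2] at h1
    have h3 : ¬ p ∣ a * β' + p * (c * γ) := by
      intro h
      have h4 : p ∣ a * β' := (dvd_add_left (Dvd.intro _ rfl)).1 h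
      rcases hp.dvd_or_dvd h4 with h5 | h5
      · exact hab hpb h5
      · exact hβ' h5
    have h4 : p ^ k ∣ (p ^ f * b) * (a * β' + p * (c * γ)) := by
      have : (p ^ f * b) * (a * β' + p * (c * γ)) = b * (p ^ f * (a * β' + p * (c * γ))) := by ring
      rw [this]
      exact h1
    exact hp.pow_dvd_of_dvd_mul_right k h3 h4
  · right
    have hb0 : b ≠ 0 := by
      rintro rfl
      exact hb (dvd_zero _)
    obtain ⟨b1, hb1, hb1'⟩ :=
      (FiniteMultiplicity.of_prime_left hp hb0).exists_eq_pow_mul_and_not_dvd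
    set j := multiplicity p b with hj
    have hjf : j ≤ f := by
      by_contra h
      apply hb
      rw [hb1]
      exact Dvd.dvd.mul_right (pow_dvd_pow p (by omega)) b1
    set u := a * (p ^ f * β') + b * γ with hu
    have h2 : p ^ k ∣ p ^ j * (b1 * u) := by
      have : p ^ j * (b1 * u) = b * u := by
        rw [← mul_assoc, ← hb1]
      rw [this]
      exact h1
    have h3 : p ^ (k - j) ∣ b1 * u := by
      have h4 : p ^ j * p ^ (k - j) ∣ p ^ j * (b1 * u) := by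
        rw [← pow_add, Nat.add_sub_cancel' (hjf.trans hfk)]
        exact h2
      exact (mul_dvd_mul_iff_left (pow_ne_zero j hp.ne_zero)).1 h4
    have h4 : p ^ (k - j) ∣ u := hp.pow_dvd_of_dvd_mul_left _ hb1' h3
    exact (pow_dvd_pow p (by omega)).trans h4

/-- the arithmetic core of `quad_two` -/
theorem qt_core (p : ℤ) (hp : Prime p) (k : ℕ) (β γ D a b a' b' : ℤ) (hD : ¬ p ^ k ∣ D)
    (hβ : p ^ k ∣ β ^ 2 - D) (h1 : p ^ k ∣ b * (a * β + b * γ))
    (h2 : p ^ k ∣ b' * (a' * β + b' * γ)) (hab : p ∣ b → ¬ p ∣ a) (hab' : p ∣ b' → ¬ p ∣ a') :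
    p ^ k ∣ D * b ∨ p ^ k ∣ D * b' ∨ p ^ k ∣ D * (a * b' - b * a') := by
  have hβ0 : β ≠ 0 := by
    rintro rfl
    apply hD
    have h : p ^ k ∣ -D := by simpa using hβ
    exact (dvd_neg).1 h
  obtain ⟨β', hβeq, hβ'⟩ :=
    (FiniteMultiplicity.of_prime_left hp hβ0).exists_eq_pow_mul_and_not_dvd
  set f := multiplicity p β with hf
  clear_value f
  have h2f : 2 * f < k := by
    by_contra h
    apply hD
    have h3 : p ^ k ∣ β ^ 2 := by
      rw [hβeq, mul_pow, ← pow_mul]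
      exact Dvd.dvd.mul_right (pow_dvd_pow p (by omega)) _
    exact (dvd_sub_right h3).1 hβ
  have hpD : p ^ (2 * f) ∣ D := by
    have h3 : p ^ (2 * f) ∣ β ^ 2 := by
      rw [hβeq, mul_pow, ← pow_mul, mul_comm f 2]
      exact Dvd.intro _ rfl
    have h4 : p ^ (2 * f) ∣ β ^ 2 - D := (pow_dvd_pow p h2f.le).trans hβ
    exact (dvd_sub_right h3).1 h4
  have hpfD : p ^ f ∣ D := (pow_dvd_pow p (by omega)).trans hpD
  have hfin : ∀ x : ℤ, p ^ k ∣ p ^ f * x → p ^ k ∣ D * x := fun x hx =>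
    hx.trans (mul_dvd_mul_right hpfD x)
  rw [hβeq] at h1 h2
  rcases qt_one p hp k f β' γ a b hβ' (by omega) h1 hab with h3 | h3
  · exact Or.inl (hfin b h3)
  rcases qt_one p hp k f β' γ a' b' hβ' (by omega) h2 hab' with h4 | h4
  · exact Or.inr (Or.inl (hfin b' h4))
  · right
    right
    have h5 : p ^ (k - f) ∣ β' * (p ^ f * (a * b' - b * a')) := by
      have h6 : β' * (p ^ f * (a * b' - b * a'))
          = b' * (a * (p ^ f * β') + b * γ) - b * (a' * (p ^ f * β') + b' * γ) := by ring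
      rw [h6]
      exact dvd_sub (Dvd.dvd.mul_left h3 _) (Dvd.dvd.mul_left h4 _)
    have h6 : p ^ (k - f) ∣ p ^ f * (a * b' - b * a') := hp.pow_dvd_of_dvd_mul_left _ hβ' h5
    have h7 : p ^ k ∣ p ^ (2 * f) * (a * b' - b * a') := by
      have h8 : p ^ f * p ^ (k - f) ∣ p ^ f * (p ^ f * (a * b' - b * a')) :=
        mul_dvd_mul_left _ h6
      rw [← pow_add, Nat.add_sub_cancel' (by omega), ← mul_assoc, ← pow_add, ← two_mul] at h8
      exact h8
    exact h7.trans (mul_dvd_mul_right hpD _)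

/-- coordinates with respect to a primitive vector -/
theorem qt_coord (w z w' : ℤ × ℤ) (hz : dt w z = 1) :
    w'.1 = dt w' z * w.1 + dt w w' * z.1 ∧ w'.2 = dt w' z * w.2 + dt w w' * z.2 := by
  unfold dt at *
  constructor
  · linear_combination (-w'.1) * hz
  · linear_combination (-w'.2) * hz

theorem qt_exists (w : ℤ × ℤ) (h : IsCoprime w.1 w.2) : ∃ z : ℤ × ℤ, dt w z = 1 := by
  obtain ⟨α, β, hαβ⟩ := h
  refine ⟨(-β, α), ?_⟩
  unfold dt
  linear_combination hαβ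

theorem qt_dvd (q : ℤ × ℤ × ℤ) (N : ℤ) (w z w' : ℤ × ℤ) (hz : dt w z = 1) (h : N ∣ qf q w)
    (h' : N ∣ qf q w') :
    N ∣ dt w w' * (dt w' z * (2 * q.1 * w.1 * z.1 + q.2.1 * (w.1 * z.2 + w.2 * z.1)
      + 2 * q.2.2 * w.2 * z.2) + dt w w' * qf q z) := by
  obtain ⟨e1, e2⟩ := qt_coord w z w' hz
  set a := dt w' z with ha
  set b := dt w w' with hb
  have h3 : qf q w' = a ^ 2 * qf q w + b * (a * (2 * q.1 * w.1 * z.1 + q.2.1 * (w.1 * z.2
      + w.2 * z.1) + 2 * q.2.2 * w.2 * z.2) + b * qf q z) := by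
    unfold qf
    rw [e1, e2]
    ring
  rw [h3] at h'
  exact (dvd_add_right (Dvd.dvd.mul_left h _)).1 h'

theorem qt_prim (p : ℤ) (hp : Prime p) (w z w' : ℤ × ℤ) (hz : dt w z = 1)
    (h : IsCoprime w'.1 w'.2) : p ∣ dt w w' → ¬ p ∣ dt w' z := by
  intro h1 h2
  obtain ⟨e1, e2⟩ := qt_coord w z w' hz
  have h3 : p ∣ w'.1 := by
    rw [e1]
    exact dvd_add (Dvd.dvd.mul_right h2 _) (Dvd.dvd.mul_right h1 _)
  have h4 : p ∣ w'.2 := by
    rw [e2]
    exact dvd_add (Dvd.dvd.mul_right h2 _) (Dvd.dvd.mul_right h1 _)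
  exact hp.not_unit (h.isUnit_of_dvd' h3 h4)

/-- Of three primitive vectors with `p ^ k ∣ qf q` two are close modulo `p ^ k` up to
`qdisc q ^ 2`. -/
theorem quad_two (q : ℤ × ℤ × ℤ) (hD : qdisc q ≠ 0) (p k : ℕ) (hp : p.Prime) (w w' w'' : ℤ × ℤ)
    (h : IsCoprime w.1 w.2) (h' : IsCoprime w'.1 w'.2) (h'' : IsCoprime w''.1 w''.2)
    (e : (p : ℤ) ^ k ∣ qf q w) (e' : (p : ℤ) ^ k ∣ qf q w') (e'' : (p : ℤ) ^ k ∣ qf q w'') :
    (p : ℤ) ^ k ∣ qdisc q ^ 2 * dt w w' ∨ (p : ℤ) ^ k ∣ qdisc q ^ 2 * dt w w'' ∨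
      (p : ℤ) ^ k ∣ qdisc q ^ 2 * dt w' w'' := by
  have hpZ : Prime (p : ℤ) := Nat.prime_iff_prime_int.1 hp
  have hsq : ∀ x : ℤ, (p : ℤ) ^ k ∣ qdisc q * x → (p : ℤ) ^ k ∣ qdisc q ^ 2 * x := by
    intro x hx
    have : qdisc q ^ 2 * x = qdisc q * (qdisc q * x) := by ring
    rw [this]
    exact Dvd.dvd.mul_left hx _
  by_cases hpD : (p : ℤ) ^ k ∣ qdisc q
  · exact Or.inl (hsq _ (Dvd.dvd.mul_right hpD _))
  obtain ⟨z, hz⟩ := qt_exists w h
  have h1 := qt_dvd q _ w z w' hz e e'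
  have h2 := qt_dvd q _ w z w'' hz e e''
  set β := 2 * q.1 * w.1 * z.1 + q.2.1 * (w.1 * z.2 + w.2 * z.1) + 2 * q.2.2 * w.2 * z.2 with hβ
  have hβ2 : (p : ℤ) ^ k ∣ β ^ 2 - qdisc q := by
    have h3 : β ^ 2 - qdisc q * (dt w z) ^ 2 = 4 * qf q z * qf q w := by
      rw [hβ]
      unfold qdisc dt qf
      ring
    rw [hz, one_pow, mul_one] at h3
    rw [h3]
    exact Dvd.dvd.mul_left e _
  rcases qt_core p hpZ k β (qf q z) (qdisc q) _ _ _ _ hpD hβ2 h1 h2
    (qt_prim p hpZ w z w' hz h') (qt_prim p hpZ w z w'' hz h'') with h3 | h3 | h3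
  · exact Or.inl (hsq _ h3)
  · exact Or.inr (Or.inl (hsq _ h3))
  · right
    right
    apply hsq
    have h4 : dt w' w'' = dt w' z * dt w w'' - dt w w' * dt w'' z := by
      have h5 : dt w' w'' * dt w z = dt w' z * dt w w'' - dt w w' * dt w'' z := by
        unfold dt
        ring
      rw [hz, mul_one] at h5
      exact h5
    rw [h4]
    exact h3

/-- closeness is transitive (any modulus `N`, any factor `K`) -/
theorem close_trans (N K : ℤ) (u w w' : ℤ × ℤ) (hu : IsCoprime u.1 u.2)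
    (h : N ∣ K * dt u w) (h' : N ∣ K * dt u w') : N ∣ K * dt w w' := by
  obtain ⟨z, hz⟩ := qt_exists u hu
  have h1 : K * dt w w' = dt w z * (K * dt u w') - dt w' z * (K * dt u w) := by
    have h2 : K * dt w w' * dt u z = dt w z * (K * dt u w') - dt w' z * (K * dt u w) := by
      unfold dt
      ring
    rw [hz, mul_one] at h2
    exact h2
  rw [h1]
  exact dvd_sub (Dvd.dvd.mul_left h' _) (Dvd.dvd.mul_left h _)

/-- Classes for a composite modulus: the class of `w` is the set of the primes `p` of `d` at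
which `w` is not close to a chosen representative. -/
theorem quad_classes (q : ℤ × ℤ × ℤ) (hD : qdisc q ≠ 0) (d : ℕ) (hd : d ≠ 0) (T : Finset (ℤ × ℤ))
    (hT : ∀ w ∈ T, IsCoprime w.1 w.2 ∧ (d : ℤ) ∣ qf q w) :
    ∃ c : ℤ × ℤ → Finset ℕ, (∀ w, c w ⊆ d.primeFactors) ∧
      ∀ w ∈ T, ∀ w' ∈ T, c w = c w' → (d : ℤ) ∣ qdisc q ^ 2 * dt w w' := by
  classical
  rcases T.eq_empty_or_nonempty with rfl | ⟨w0, hw0⟩
  · exact ⟨fun _ => ∅, fun _ => Finset.empty_subset _, fun w hw => absurd hw (Finset.notMem_empty w)⟩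
  refine ⟨fun w => d.primeFactors.filter
    (fun p => ¬ (p : ℤ) ^ (d.factorization p) ∣ qdisc q ^ 2 * dt w0 w),
    fun w => Finset.filter_subset _ _, ?_⟩
  intro w hw w' hw' hc
  have key : ∀ p : ℕ, p.Prime → p ∣ d →
      (p : ℤ) ^ (d.factorization p) ∣ qdisc q ^ 2 * dt w w' := by
    intro p hp hpd
    have hpk : ((p : ℤ) ^ (d.factorization p)) ∣ (d : ℤ) := by
      exact_mod_cast Nat.ordProj_dvd d p
    have hmem : p ∈ d.primeFactors := Nat.mem_primeFactors.2 ⟨hp, hpd, hd⟩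
    have hiff : (p : ℤ) ^ (d.factorization p) ∣ qdisc q ^ 2 * dt w0 w ↔
        (p : ℤ) ^ (d.factorization p) ∣ qdisc q ^ 2 * dt w0 w' := by
      have h1 := Finset.ext_iff.1 hc p
      simp only [Finset.mem_filter, hmem, true_and] at h1
      exact not_iff_not.1 h1
    by_cases h0 : (p : ℤ) ^ (d.factorization p) ∣ qdisc q ^ 2 * dt w0 w
    · exact close_trans _ _ w0 w w' (hT w0 hw0).1 h0 (hiff.1 h0)
    · rcases quad_two q hD p (d.factorization p) hp w0 w w' (hT w0 hw0).1 (hT w hw).1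
        (hT w' hw').1 (hpk.trans (hT w0 hw0).2) (hpk.trans (hT w hw).2)
        (hpk.trans (hT w' hw').2) with h1 | h1 | h1
      · exact absurd h1 h0
      · exact absurd (hiff.2 h1) h0
      · exact h1
  rw [Int.natCast_dvd, Nat.dvd_iff_prime_pow_dvd_dvd]
  intro p k hp hpk
  rcases Nat.eq_zero_or_pos k with rfl | hk
  · simp
  · have hpd : p ∣ d := (dvd_pow_self p hk.ne').trans hpk
    have h1 : k ≤ d.factorization p := (hp.pow_dvd_iff_le_factorization hd).1 hpk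
    have h2 := key p hp hpd
    have h3 : ((p ^ k : ℕ) : ℤ) ∣ qdisc q ^ 2 * dt w w' := by
      rw [Nat.cast_pow]
      exact (pow_dvd_pow _ h1).trans h2
    exact Int.natCast_dvd.1 h3

end Fm

end Pool.Agent.Lib.MP_d8bd92_nt
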