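import Pool.Agent.Lib.MP_d8bd92_nt.FmX

/-! Part (3) of Theorem F (MP_d8bd92_nt): coprime pairs in a residue class in a thin rectangle
(helper96). -/

set_option autoImplicit false

namespace Pool.Agent.Lib.MP_d8bd92_nt

open Finset Polynomial

namespace Fm

theorem rc_sq (N1 N2 p : ℕ) (hp : 0 < p) (hN2 : 0 < N2) (h12 : N2 ≤ N1) :
    (((N1 / p + 1 : ℕ) : ℝ)) * (((N2 / p + 1 : ℕ) : ℝ))
      ≤ 4 * ((N1 : ℝ) * N2) * ((p : ℝ) ^ 2)⁻¹ + ((N1 : ℝ) / N2 + 1) := by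
  have hp' : (0 : ℝ) < p := by exact_mod_cast hp
  have hN2' : (0 : ℝ) < N2 := by exact_mod_cast hN2
  have hN1' : (0 : ℝ) < N1 := by exact_mod_cast (lt_of_lt_of_le hN2 h12)
  have key : ∀ N : ℕ, p ≤ N → ((N / p + 1 : ℕ) : ℝ) ≤ 2 * (N : ℝ) * (p : ℝ)⁻¹ := by
    intro N h
    push_cast
    have h2 : ((N / p : ℕ) : ℝ) ≤ (N : ℝ) / p := Nat.cast_div_le
    have h3 : (1 : ℝ) ≤ (N : ℝ) / p := by
      rw [le_div_iff₀ hp', one_mul]
      exact_mod_cast h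
    rw [div_eq_mul_inv] at h2 h3
    linarith
  rcases le_or_gt p N2 with h | h
  · have h1 := key N1 (h.trans h12)
    have h2 := key N2 h
    have h4 : (0 : ℝ) ≤ ((N2 / p + 1 : ℕ) : ℝ) := Nat.cast_nonneg _
    have h5 : (0 : ℝ) ≤ 2 * (N1 : ℝ) * (p : ℝ)⁻¹ := by positivity
    have h6 := mul_le_mul h1 h2 h4 h5
    have h7 : 2 * (N1 : ℝ) * (p : ℝ)⁻¹ * (2 * (N2 : ℝ) * (p : ℝ)⁻¹)
        = 4 * ((N1 : ℝ) * N2) * ((p : ℝ) ^ 2)⁻¹ := by
      rw [sq, mul_inv]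
      ring
    have h8 : (0 : ℝ) ≤ (N1 : ℝ) / N2 + 1 := by positivity
    linarith
  · rw [Nat.div_eq_of_lt h]
    have h9 : (0 : ℝ) ≤ 4 * ((N1 : ℝ) * N2) * ((p : ℝ) ^ 2)⁻¹ := by positivity
    have h2 : ((N1 / p : ℕ) : ℝ) ≤ (N1 : ℝ) / p := Nat.cast_div_le
    have h3 : (N1 : ℝ) / p ≤ (N1 : ℝ) / N2 :=
      div_le_div_of_nonneg_left hN1'.le hN2' (by exact_mod_cast h.le)
    push_cast
    linarith

theorem rc_bad (q a b : ℕ)
    (h16 : ∀ p : ℕ, p.Prime → p ≤ 16 → p ∣ q)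
    (hcop : ∀ p : ℕ, p.Prime → p ∣ q → p ∣ a → ¬ p ∣ b) (N1 N2 T : ℕ) (hN2 : 0 < N2)
    (h12 : N2 ≤ N1) (hb : 1 ≤ b) (hT : ∀ j < N2, b + q * j ≤ T) :
    ((((range N1) ×ˢ (range N2)).filter
      (fun w => ¬ Nat.Coprime (a + q * w.1) (b + q * w.2))).card : ℝ)
      ≤ (1 / 4 : ℝ) * ((N1 : ℝ) * N2) + T * ((N1 : ℝ) / N2 + 1) := by
  classical
  set P : Finset ℕ := (Finset.Ioc 16 T).filter (fun p => p.Prime ∧ Nat.Coprime p q) with hP
  have hsub : (((range N1) ×ˢ (range N2)).filter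
      (fun w => ¬ Nat.Coprime (a + q * w.1) (b + q * w.2))) ⊆
      P.biUnion (fun p => ((range N1).filter (fun i => p ∣ a + q * i)) ×ˢ
        ((range N2).filter (fun i => p ∣ b + q * i))) := by
    intro w hw
    simp only [mem_filter, mem_product, mem_range] at hw
    obtain ⟨⟨hi, hj⟩, hnc⟩ := hw
    obtain ⟨p, hp, hpa, hpb⟩ := Nat.Prime.not_coprime_iff_dvd.1 hnc
    have hpq : ¬ p ∣ q := by
      intro h
      have h1 : p ∣ a := (Nat.dvd_add_left (Dvd.dvd.mul_right h _)).1 hpa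
      have h2 : p ∣ b := (Nat.dvd_add_left (Dvd.dvd.mul_right h _)).1 hpb
      exact hcop p hp h h1 h2
    have h17 : 16 < p := by
      by_contra h
      exact hpq (h16 p hp (by omega))
    have hle : p ≤ T := (Nat.le_of_dvd (by omega) hpb).trans (hT _ hj)
    simp only [mem_biUnion, mem_product, mem_filter, mem_range, hP, mem_Ioc]
    exact ⟨p, ⟨⟨h17, hle⟩, hp, (Nat.Prime.coprime_iff_not_dvd hp).2 hpq⟩, ⟨hi, hpa⟩, ⟨hj, hpb⟩⟩
  have h1 := (card_le_card hsub).trans card_biUnion_le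
  have h2 : (∑ p ∈ P, (((range N1).filter (fun i => p ∣ a + q * i)) ×ˢ
        ((range N2).filter (fun i => p ∣ b + q * i))).card)
        ≤ ∑ p ∈ P, (N1 / p + 1) * (N2 / p + 1) := by
    apply Finset.sum_le_sum
    intro p hp
    simp only [hP, mem_filter, mem_Ioc] at hp
    rw [card_product]
    exact Nat.mul_le_mul (cc_count N1 p q a hp.2.2) (cc_count N2 p q b hp.2.2)
  have h3 : ((∑ p ∈ P, (N1 / p + 1) * (N2 / p + 1) : ℕ) : ℝ)
      ≤ ∑ p ∈ Finset.Ioc 16 T, (4 * ((N1 : ℝ) * N2) * ((p : ℝ) ^ 2)⁻¹ + ((N1 : ℝ) / N2 + 1)) := by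
    rw [Nat.cast_sum]
    have h4 : ∑ p ∈ P, (((N1 / p + 1) * (N2 / p + 1) : ℕ) : ℝ)
        ≤ ∑ p ∈ P, (4 * ((N1 : ℝ) * N2) * ((p : ℝ) ^ 2)⁻¹ + ((N1 : ℝ) / N2 + 1)) := by
      apply Finset.sum_le_sum
      intro p hp
      simp only [hP, mem_filter, mem_Ioc] at hp
      rw [Nat.cast_mul]
      exact rc_sq N1 N2 p (by omega) hN2 h12
    refine h4.trans (Finset.sum_le_sum_of_subset_of_nonneg (Finset.filter_subset _ _) ?_)
    intro p _ _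
    positivity
  have h5 : ∑ p ∈ Finset.Ioc 16 T, (4 * ((N1 : ℝ) * N2) * ((p : ℝ) ^ 2)⁻¹ + ((N1 : ℝ) / N2 + 1))
      ≤ (1 / 4 : ℝ) * ((N1 : ℝ) * N2) + T * ((N1 : ℝ) / N2 + 1) := by
    rw [Finset.sum_add_distrib, ← Finset.mul_sum, Finset.sum_const, Nat.card_Ioc, nsmul_eq_mul]
    have h6 : (((T - 16 : ℕ)) : ℝ) ≤ (T : ℝ) := by
      have : (T - 16 : ℕ) ≤ T := Nat.sub_le _ _
      exact_mod_cast this
    have h6' : (((T - 16 : ℕ)) : ℝ) * ((N1 : ℝ) / N2 + 1) ≤ (T : ℝ) * ((N1 : ℝ) / N2 + 1) :=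
      mul_le_mul_of_nonneg_right h6 (by positivity)
    have h7 : ∑ i ∈ Finset.Ioc 16 T, ((i : ℝ) ^ 2)⁻¹ ≤ 1 / 16 := by
      rcases le_or_gt 16 T with h | h
      · have h8 := sum_Ioc_inv_sq_le_sub (α := ℝ) (k := 16) (n := T) (by norm_num) h
        have h9 : (0 : ℝ) ≤ (T : ℝ)⁻¹ := by positivity
        push_cast at h8 h9 ⊢
        linarith
      · rw [Finset.Ioc_eq_empty (by omega)]
        norm_num
    have h8 : 4 * ((N1 : ℝ) * N2) * ∑ i ∈ Finset.Ioc 16 T, ((i : ℝ) ^ 2)⁻¹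
        ≤ 4 * ((N1 : ℝ) * N2) * (1 / 16) := mul_le_mul_of_nonneg_left h7 (by positivity)
    linarith
  have h6 : ((((range N1) ×ˢ (range N2)).filter
      (fun w => ¬ Nat.Coprime (a + q * w.1) (b + q * w.2))).card : ℝ)
      ≤ ((∑ p ∈ P, (N1 / p + 1) * (N2 / p + 1) : ℕ) : ℝ) := by exact_mod_cast h1.trans h2
  linarith

/-- a representative of `x` modulo `q` in `[t, t + q]`. -/
theorem rc_rep (q : ℕ) (hq : 0 < q) (x : ℤ) (t : ℝ) (ht : 0 ≤ t) :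
    ∃ a : ℕ, t ≤ a ∧ (a : ℝ) ≤ t + q ∧ (q : ℤ) ∣ (a : ℤ) - x := by
  have hqZ : (0 : ℤ) < q := by exact_mod_cast hq
  have h1 := Int.emod_nonneg (x - ⌈t⌉₊) hqZ.ne'
  have h2 := Int.emod_lt_of_pos (x - ⌈t⌉₊) hqZ
  have hc1 : t ≤ (⌈t⌉₊ : ℝ) := Nat.le_ceil t
  have hc2 : (⌈t⌉₊ : ℝ) < t + 1 := Nat.ceil_lt_add_one ht
  refine ⟨⌈t⌉₊ + ((x - ⌈t⌉₊) % q).toNat, ?_, ?_, ?_⟩
  · push_cast
    have : (0 : ℝ) ≤ (((x - ⌈t⌉₊) % q).toNat : ℝ) := Nat.cast_nonneg _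
    linarith
  · have h3 : ((x - ⌈t⌉₊) % q).toNat + 1 ≤ q := by omega
    have h4 : ((((x - ⌈t⌉₊) % q).toNat : ℕ) : ℝ) + 1 ≤ q := by exact_mod_cast h3
    rw [Nat.cast_add]
    linarith
  · rw [Nat.cast_add, Int.toNat_of_nonneg h1]
    have h4 := Int.emod_add_mul_ediv (x - ⌈t⌉₊) q
    exact ⟨-((x - ⌈t⌉₊) / q), by linarith⟩

/-- coprime pairs in a residue class in a rectangle `[K A, (K+1) A] x [B, 2B]`, `A ≥ B`. -/
theorem rect_count (M K : ℕ) (hM : 1 ≤ M) (x0 y0 : ℤ)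
    (hxy : ∀ p : ℕ, p.Prime → p ∣ M → (p : ℤ) ∣ x0 → ¬ (p : ℤ) ∣ y0) :
    ∃ c B0 : ℝ, 0 < c ∧ 1 ≤ B0 ∧ ∀ A B : ℝ, B0 ≤ B → B ≤ A → ∃ S : Finset (ℤ × ℤ),
      c * (A * B) ≤ (S.card : ℝ) ∧ ∀ v ∈ S, IsCoprime v.1 v.2 ∧
        (K : ℝ) * A ≤ (v.1 : ℝ) ∧ (v.1 : ℝ) ≤ (K + 1) * A ∧ B ≤ (v.2 : ℝ) ∧ (v.2 : ℝ) ≤ 2 * B ∧
        (M : ℤ) ∣ v.1 - x0 ∧ (M : ℤ) ∣ v.2 - y0 := by
  classical
  set R : ℕ := ∏ p ∈ (Finset.range 17).filter (fun p => p.Prime ∧ ¬ p ∣ M), p with hR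
  have hRM : Nat.Coprime M R := by
    rw [hR]
    apply Nat.Coprime.prod_right
    intro p hp
    rw [mem_filter] at hp
    exact ((Nat.Prime.coprime_iff_not_dvd hp.2.1).2 hp.2.2).symm
  have hRpos : 0 < R := by
    rw [hR]
    apply Finset.prod_pos
    intro p hp
    rw [mem_filter] at hp
    exact hp.2.1.pos
  set q : ℕ := M * R with hqdef
  have hq : 0 < q := Nat.mul_pos hM hRpos
  have hqR : (0 : ℝ) < q := by exact_mod_cast hq
  have hq1 : (1 : ℝ) ≤ q := by exact_mod_cast hq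
  -- CRT
  obtain ⟨y1, hy1M, hy1R⟩ : ∃ y1 : ℤ, (M : ℤ) ∣ y1 - y0 ∧ (R : ℤ) ∣ y1 - 1 := by
    obtain ⟨u, v, huv⟩ := Nat.isCoprime_iff_coprime.2 hRM
    refine ⟨y0 * (v * R) + u * M, ⟨u * (1 - y0), ?_⟩, ⟨v * (y0 - 1), ?_⟩⟩
    · have : v * (R : ℤ) = 1 - u * M := by linarith
      rw [this]
      ring
    · have : u * (M : ℤ) = 1 - v * R := by linarith
      rw [this]
      ring
  have h16 : ∀ p : ℕ, p.Prime → p ≤ 16 → p ∣ q := by
    intro p hp hp16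
    by_cases h : p ∣ M
    · exact Dvd.dvd.mul_right h _
    · refine Dvd.dvd.mul_left ?_ _
      rw [hR]
      apply Finset.dvd_prod_of_mem (fun p => p)
      rw [mem_filter, mem_range]
      exact ⟨by omega, hp, h⟩
  have hMq : (M : ℤ) ∣ (q : ℤ) := by
    have : M ∣ q := Dvd.intro _ rfl
    exact_mod_cast this
  have hRq : (R : ℤ) ∣ (q : ℤ) := by
    have : R ∣ q := Dvd.intro_left _ rfl
    exact_mod_cast this
  have hcopA : ∀ a b : ℕ, (q : ℤ) ∣ (a : ℤ) - x0 → (q : ℤ) ∣ (b : ℤ) - y1 →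
      ∀ p : ℕ, p.Prime → p ∣ q → p ∣ a → ¬ p ∣ b := by
    intro a b had hbd p hp hpq hpa hpb
    have hpqZ : (p : ℤ) ∣ (q : ℤ) := by exact_mod_cast hpq
    have h1 : (p : ℤ) ∣ x0 :=
      (dvd_sub_right (show (p : ℤ) ∣ (a : ℤ) by exact_mod_cast hpa)).1 (hpqZ.trans had)
    have h2 : (p : ℤ) ∣ y1 :=
      (dvd_sub_right (show (p : ℤ) ∣ (b : ℤ) by exact_mod_cast hpb)).1 (hpqZ.trans hbd)
    rcases (Nat.Prime.dvd_mul hp).1 hpq with h3 | h3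
    · have h4 : (p : ℤ) ∣ (M : ℤ) := by exact_mod_cast h3
      exact hxy p hp h3 h1 ((dvd_sub_right h2).1 (h4.trans hy1M))
    · have h4 : (p : ℤ) ∣ (R : ℤ) := by exact_mod_cast h3
      have h5 : (p : ℤ) ∣ 1 := (dvd_sub_right h2).1 (h4.trans hy1R)
      have h6 : p ∣ 1 := by exact_mod_cast h5
      exact hp.one_lt.ne' (Nat.dvd_one.1 h6)
  refine ⟨1 / (8 * (q : ℝ) ^ 2), 33 * (q : ℝ) ^ 2, by positivity, by nlinarith, ?_⟩
  intro A B hB hBA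
  have hB1 : 33 * (q : ℝ) ≤ B := by nlinarith
  have hB0 : 0 < B := by linarith
  have hA0 : 0 < A := by linarith
  obtain ⟨a, ha1, ha2, had⟩ := rc_rep q hq x0 (K * A) (by positivity)
  obtain ⟨b, hb1, hb2, hbd⟩ := rc_rep q hq y1 B hB0.le
  have hcop := hcopA a b had hbd
  set N1 : ℕ := ⌊A / q⌋₊ with hN1
  set N2 : ℕ := ⌊B / q⌋₊ with hN2
  have h12 : N2 ≤ N1 := Nat.floor_le_floor (div_le_div_of_nonneg_right hBA hqR.le)
  have hN1a : (N1 : ℝ) ≤ A / q := Nat.floor_le (by positivity)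
  have hN1b : A / q < N1 + 1 := Nat.lt_floor_add_one _
  have hN2a : (N2 : ℝ) ≤ B / q := Nat.floor_le (by positivity)
  have hN2b : B / q < N2 + 1 := Nat.lt_floor_add_one _
  have hBq : 33 * (q : ℝ) ≤ B / q := by
    rw [le_div_iff₀ hqR]
    nlinarith
  have hN2c : 32 * (q : ℝ) ≤ N2 := by linarith
  have hN2d : B / q ≤ 2 * N2 := by linarith
  have hN2pos' : (0 : ℝ) < N2 := by linarith
  have hN2pos : 0 < N2 := by exact_mod_cast hN2pos'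
  have h12' : (N2 : ℝ) ≤ N1 := by exact_mod_cast h12
  have hN1d : A / q ≤ 2 * N1 := by linarith
  have hN1pos' : (0 : ℝ) < N1 := by linarith
  have hqN2 : (q : ℝ) * N2 ≤ B := by
    have := (le_div_iff₀ hqR).1 hN2a
    linarith
  have hqN1 : (q : ℝ) * N1 ≤ A := by
    have := (le_div_iff₀ hqR).1 hN1a
    linarith
  have hB2 : B ≤ 2 * N2 * q := by
    have := (div_le_iff₀ hqR).1 hN2d
    linarith
  have hA2 : A ≤ 2 * N1 * q := by
    have := (div_le_iff₀ hqR).1 hN1d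
    linarith
  have hbnat : 1 ≤ b := by
    have : (1 : ℝ) ≤ b := by linarith
    exact_mod_cast this
  -- upper bounds for the entries
  have hup : ∀ (x i N : ℕ) (t H : ℝ), (x : ℝ) ≤ t + q → i < N → (q : ℝ) * N ≤ H →
      ((x + q * i : ℕ) : ℝ) ≤ t + H := by
    intro x i N t H hx hi hH
    have h1 : (i : ℝ) + 1 ≤ N := by exact_mod_cast hi
    have h2 : (q : ℝ) * (i + 1) ≤ q * N := mul_le_mul_of_nonneg_left h1 hqR.le
    push_cast
    linarith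
  set T : ℕ := ⌊2 * B⌋₊ with hTdef
  have hT : ∀ j < N2, b + q * j ≤ T := by
    intro j hj
    apply Nat.le_floor
    have := hup b j N2 B B hb2 hj hqN2
    linarith
  have hTle : (T : ℝ) ≤ 2 * B := Nat.floor_le (by positivity)
  have hbad := rc_bad q a b h16 hcop N1 N2 T hN2pos h12 hbnat hT
  set S0 := ((range N1) ×ˢ (range N2)).filter
      (fun w => Nat.Coprime (a + q * w.1) (b + q * w.2)) with hS0
  have hsum := Finset.card_filter_add_card_filter_not (s := (range N1) ×ˢ (range N2))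
    (fun w => Nat.Coprime (a + q * w.1) (b + q * w.2))
  rw [← hS0, card_product, card_range, card_range] at hsum
  have hsum' : (S0.card : ℝ) + ((((range N1) ×ˢ (range N2)).filter
      (fun w => ¬ Nat.Coprime (a + q * w.1) (b + q * w.2))).card : ℝ) = (N1 : ℝ) * N2 := by
    exact_mod_cast hsum
  have hTb : (T : ℝ) * ((N1 : ℝ) / N2 + 1) ≤ (1 / 4 : ℝ) * ((N1 : ℝ) * N2) := by
    have h1 : (T : ℝ) ≤ 4 * q * N2 := by linarith
    have h2 : (T : ℝ) * ((N1 : ℝ) / N2 + 1) ≤ 4 * q * N2 * ((N1 : ℝ) / N2 + 1) :=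
      mul_le_mul_of_nonneg_right h1 (by positivity)
    have h3 : 4 * (q : ℝ) * N2 * ((N1 : ℝ) / N2 + 1) = 4 * q * (N1 + N2) := by
      field_simp
    have h4 : 4 * (q : ℝ) * (N1 + N2) ≤ 8 * q * N1 := by nlinarith
    have h5 : 32 * (q : ℝ) * N1 ≤ N2 * N1 := mul_le_mul_of_nonneg_right hN2c hN1pos'.le
    nlinarith
  have hS0card : (1 / 2 : ℝ) * ((N1 : ℝ) * N2) ≤ S0.card := by linarith
  have hinj : Function.Injective
      (fun w : ℕ × ℕ => (((a + q * w.1 : ℕ) : ℤ), ((b + q * w.2 : ℕ) : ℤ))) := by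
    intro w w' h
    simp only [Prod.mk.injEq, Nat.cast_inj] at h
    obtain ⟨h1, h2⟩ := h
    exact Prod.ext (Nat.eq_of_mul_eq_mul_left hq (by omega))
      (Nat.eq_of_mul_eq_mul_left hq (by omega))
  refine ⟨S0.image (fun w : ℕ × ℕ => (((a + q * w.1 : ℕ) : ℤ), ((b + q * w.2 : ℕ) : ℤ))), ?_, ?_⟩
  · rw [card_image_of_injective _ hinj]
    refine le_trans ?_ hS0card
    have h1 : A * B ≤ (2 * N1 * q) * (2 * N2 * q) :=
      mul_le_mul hA2 hB2 hB0.le (by positivity)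
    have h2 : 1 / (8 * (q : ℝ) ^ 2) * ((2 * N1 * q) * (2 * N2 * q)) = (1 / 2 : ℝ) * ((N1 : ℝ) * N2) := by
      field_simp
      norm_num
    rw [← h2]
    exact mul_le_mul_of_nonneg_left h1 (by positivity)
  · intro w hw
    rw [mem_image] at hw
    obtain ⟨v, hv, rfl⟩ := hw
    rw [hS0, mem_filter, mem_product, mem_range, mem_range] at hv
    obtain ⟨⟨hi, hj⟩, hc⟩ := hv
    have hqi : (0 : ℝ) ≤ (q : ℝ) * v.1 := by positivity
    have hqj : (0 : ℝ) ≤ (q : ℝ) * v.2 := by positivity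
    refine ⟨Nat.isCoprime_iff_coprime.2 hc, ?_, ?_, ?_, ?_, ?_, ?_⟩
    · show (K : ℝ) * A ≤ (((a + q * v.1 : ℕ) : ℤ) : ℝ)
      rw [Int.cast_natCast]
      push_cast
      linarith
    · show (((a + q * v.1 : ℕ) : ℤ) : ℝ) ≤ (K + 1) * A
      rw [Int.cast_natCast]
      have := hup a v.1 N1 (K * A) A ha2 hi hqN1
      linarith
    · show B ≤ (((b + q * v.2 : ℕ) : ℤ) : ℝ)
      rw [Int.cast_natCast]
      push_cast
      linarith
    · show (((b + q * v.2 : ℕ) : ℤ) : ℝ) ≤ 2 * B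
      rw [Int.cast_natCast]
      have := hup b v.2 N2 B B hb2 hj hqN2
      linarith
    · show (M : ℤ) ∣ ((a + q * v.1 : ℕ) : ℤ) - x0
      have h1 : ((a + q * v.1 : ℕ) : ℤ) - x0 = ((a : ℤ) - x0) + q * v.1 := by
        push_cast
        ring
      rw [h1]
      exact dvd_add (hMq.trans had) (Dvd.dvd.mul_right hMq _)
    · show (M : ℤ) ∣ ((b + q * v.2 : ℕ) : ℤ) - y0
      have h1 : ((b + q * v.2 : ℕ) : ℤ) - y0 = ((b : ℤ) - y1) + q * v.2 + (y1 - y0) := by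
        push_cast
        ring
      rw [h1]
      exact dvd_add (dvd_add (hMq.trans hbd) (Dvd.dvd.mul_right hMq _)) hy1M

end Fm

end Pool.Agent.Lib.MP_d8bd92_nt
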