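import Pool.Agent.Lib.MP_d8bd92_nt.FmH
import Mathlib.Analysis.Polynomial.Basic

/-! Part (3) of Theorem F (MP_d8bd92_nt): lower bounds for values of a form in a cone. -/

set_option autoImplicit false

namespace Pool.Agent.Lib.MP_d8bd92_nt

open Finset Polynomial UniqueFactorizationMonoid Pool.Agent.Lib.Szpiro

namespace Fm

theorem poly_lower (g : ℝ[X]) (hg : 1 ≤ |g.leadingCoeff|) :
    ∃ K : ℕ, ∀ t : ℝ, (K : ℝ) ≤ t → 1 ≤ |g.eval t| := by
  by_cases hd : g.natDegree = 0
  · refine ⟨0, fun t _ => ?_⟩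
    rw [eq_C_of_natDegree_eq_zero hd, eval_C]
    rw [leadingCoeff, hd] at hg
    exact hg
  · have h1 := Polynomial.abs_tendsto_atTop g (natDegree_pos_iff_degree_pos.mp (Nat.pos_of_ne_zero hd))
    have h2 := (h1.eventually_ge_atTop 1)
    obtain ⟨K, hK⟩ := Filter.eventually_atTop.mp h2
    obtain ⟨N, hN⟩ := exists_nat_ge K
    exact ⟨N, fun t ht => hK t (hN.trans ht)⟩

theorem form_lower (f : ℤ[X]) (hf : f ≠ 0) (m : ℕ) (hm : f.natDegree ≤ m) (e1 e2 f1 f2 : ℤ)
    (hdt : e1 * f2 - e2 * f1 = 1) :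
    ∃ K : ℕ, ∀ x z : ℤ, 0 < z → (K : ℤ) * z ≤ x →
      (z : ℝ) ^ m ≤ |((hev m f (x * e1 + z * f1) (x * e2 + z * f2) : ℤ) : ℝ)| := by
  set g : ℤ[X] := ∑ i ∈ Finset.range (m + 1), C (f.coeff i) * (C e1 * X + C f1) ^ i *
    (C e2 * X + C f2) ^ (m - i) with hg
  have hgev : ∀ x z : ℝ, z ≠ 0 → (∑ i ∈ Finset.range (m + 1), (f.coeff i : ℝ) * (x * e1 + z * f1) ^ i *
      (x * e2 + z * f2) ^ (m - i)) = z ^ m * (g.map (Int.castRingHom ℝ)).eval (x / z) := by
    intro x z hz
    rw [hg, Polynomial.map_sum, eval_finsetSum, Finset.mul_sum]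
    apply Finset.sum_congr rfl
    intro i hi
    have him : i ≤ m := by have := Finset.mem_range.mp hi; omega
    simp only [Polynomial.map_mul, Polynomial.map_pow, Polynomial.map_add, map_C, map_X, eval_mul,
      eval_pow, eval_add, eval_C, eval_X]
    rw [eq_intCast, eq_intCast, eq_intCast, eq_intCast, eq_intCast]
    have h1 : (z : ℝ) ^ m = z ^ i * z ^ (m - i) := by rw [← pow_add]; congr 1; omega
    have h2 : x * (e1 : ℝ) + z * f1 = z * (e1 * (x / z) + f1) := by field_simp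
    have h3 : x * (e2 : ℝ) + z * f2 = z * (e2 * (x / z) + f2) := by field_simp
    rw [h1, h2, h3, mul_pow, mul_pow]
    ring
  have hg0 : g ≠ 0 := by
    intro h0
    apply hf
    -- the form vanishes at every point `(a, 1)` outside finitely many
    have h1 : ∀ a : ℤ, a * e2 - e1 ≠ 0 → (f.map (Int.castRingHom ℝ)).eval (a : ℝ) = 0 := by
      intro a ha
      have hz : (((-(a * e2 - e1) : ℤ)) : ℝ) ≠ 0 := by
        have : (-(a * e2 - e1) : ℤ) ≠ 0 := neg_ne_zero.mpr ha
        exact_mod_cast this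
      have h2 := hgev ((a * f2 - f1 : ℤ) : ℝ) ((-(a * e2 - e1) : ℤ) : ℝ) hz
      rw [h0, Polynomial.map_zero, eval_zero, mul_zero] at h2
      have hR : (e1 : ℝ) * f2 - e2 * f1 = 1 := by exact_mod_cast hdt
      have h3 : ((a * f2 - f1 : ℤ) : ℝ) * e1 + ((-(a * e2 - e1) : ℤ) : ℝ) * f1 = a := by
        push_cast
        linear_combination (a : ℝ) * hR
      have h4 : ((a * f2 - f1 : ℤ) : ℝ) * e2 + ((-(a * e2 - e1) : ℤ) : ℝ) * f2 = 1 := by
        push_cast
        linear_combination hR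
      rw [h3, h4] at h2
      rw [eval_eq_sum_range' (lt_of_le_of_lt (natDegree_map_le.trans hm) (Nat.lt_succ_self m)), ← h2]
      apply Finset.sum_congr rfl
      intro i _
      rw [coeff_map]
      simp
    have h5 : f.map (Int.castRingHom ℝ) = 0 := by
      by_contra hne
      have hfin : (((f.map (Int.castRingHom ℝ)).roots.toFinset : Set ℝ)).Finite :=
        Finset.finite_toSet _
      have hinf : (((fun a : ℤ => (a : ℝ)) '' {a : ℤ | a * e2 - e1 ≠ 0})).Infinite := by
        apply Set.Infinite.image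
        · intro a _ b _ hab
          exact Int.cast_injective hab
        · have h6 : {a : ℤ | a * e2 - e1 = 0}.Finite := by
            by_cases he2 : e2 = 0
            · have : {a : ℤ | a * e2 - e1 = 0} = ∅ := by
                ext a
                simp only [Set.mem_ofPred_eq, Set.mem_empty_iff_false, iff_false]
                intro h7
                rw [he2, mul_zero, zero_sub, neg_eq_zero] at h7
                rw [he2, h7] at hdt
                norm_num at hdt
              rw [this]; exact Set.finite_empty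
            · apply Set.Finite.subset (Set.finite_singleton (e1 / e2))
              intro a ha
              simp only [Set.mem_ofPred_eq] at ha
              rw [Set.mem_singleton_iff]
              have h7 : e1 = a * e2 := by linarith
              rw [h7, Int.mul_ediv_cancel _ he2]
          exact h6.infinite_compl
      apply hinf
      apply hfin.subset
      rintro _ ⟨a, ha, rfl⟩
      rw [Finset.mem_coe, Multiset.mem_toFinset, mem_roots hne]
      exact h1 a ha
    exact (Polynomial.map_eq_zero_iff (RingHom.injective_int (Int.castRingHom ℝ))).mp h5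
  obtain ⟨K, hK⟩ := poly_lower (g.map (Int.castRingHom ℝ)) (by
    rw [leadingCoeff_map_of_injective (RingHom.injective_int (Int.castRingHom ℝ))]
    have h1 : g.leadingCoeff ≠ 0 := leadingCoeff_ne_zero.mpr hg0
    rw [eq_intCast]
    have h2 : 1 ≤ |g.leadingCoeff| := Int.one_le_abs h1
    exact_mod_cast h2)
  refine ⟨K, ?_⟩
  intro x z hz hx
  have hzR : (0 : ℝ) < (z : ℝ) := by exact_mod_cast hz
  have h1 := hgev (x : ℝ) (z : ℝ) hzR.ne'
  have h2 : ((hev m f (x * e1 + z * f1) (x * e2 + z * f2) : ℤ) : ℝ) =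
      (z : ℝ) ^ m * (g.map (Int.castRingHom ℝ)).eval ((x : ℝ) / z) := by
    rw [← h1]
    unfold hev
    push_cast
    rfl
  rw [h2, abs_mul, abs_of_pos (pow_pos hzR m)]
  have h3 := hK ((x : ℝ) / z) (by
    rw [le_div_iff₀ hzR]
    exact_mod_cast hx)
  have h4 : 0 < (z : ℝ) ^ m := pow_pos hzR m
  nlinarith

/-- the form used for the lower bound: in the cone `x ≥ K A`, `A ≤ z ≤ 2 A` the form is at least
`A ^ m` and the second coordinate does not vanish -/
theorem form_lower2 (f : ℤ[X]) (hf : f ≠ 0) (m : ℕ) (hm : f.natDegree ≤ m) (e g : ℤ × ℤ)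
    (hdt : dt e g = 1) :
    ∃ K : ℕ, ∀ (A : ℝ) (x z : ℤ), 0 < A → A ≤ z → (z : ℝ) ≤ 2 * A → (K : ℝ) * A ≤ x →
      A ^ m ≤ |((hev m f (x * e.1 + z * g.1) (x * e.2 + z * g.2) : ℤ) : ℝ)| ∧
      x * e.2 + z * g.2 ≠ 0 := by
  have hdt' : e.1 * g.2 - e.2 * g.1 = 1 := by rw [← hdt]; unfold dt; ring
  obtain ⟨K1, hK1⟩ := form_lower f hf m hm e.1 e.2 g.1 g.2 hdt'
  obtain ⟨K2, hK2⟩ := form_lower 1 one_ne_zero 1 (by simp) e.1 e.2 g.1 g.2 hdt'
  refine ⟨2 * (K1 + K2), ?_⟩
  intro A x z hA hz1 hz2 hx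
  have hz0 : 0 < z := by
    have : (0 : ℝ) < (z : ℝ) := lt_of_lt_of_le hA hz1
    exact_mod_cast this
  have hkey : ((K1 + K2 : ℕ) : ℤ) * z ≤ x := by
    have h1 : ((K1 + K2 : ℕ) : ℝ) * z ≤ x := by
      refine le_trans ?_ hx
      have h2 : ((K1 + K2 : ℕ) : ℝ) * z ≤ ((K1 + K2 : ℕ) : ℝ) * (2 * A) :=
        mul_le_mul_of_nonneg_left hz2 (Nat.cast_nonneg _)
      refine h2.trans (le_of_eq ?_)
      push_cast; ring
    exact_mod_cast h1
  push_cast at hkey
  have hk1 : (K1 : ℤ) * z ≤ x := by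
    have : 0 ≤ (K2 : ℤ) * z := mul_nonneg (Int.natCast_nonneg _) hz0.le
    linarith
  have hk2 : (K2 : ℤ) * z ≤ x := by
    have : 0 ≤ (K1 : ℤ) * z := mul_nonneg (Int.natCast_nonneg _) hz0.le
    linarith
  refine ⟨le_trans (pow_le_pow_left₀ hA.le hz1 m) (hK1 x z hz0 hk1), ?_⟩
  intro h0
  have h1 := hK2 x z hz0 hk2
  have h2 : hev 1 (1 : ℤ[X]) (x * e.1 + z * g.1) (x * e.2 + z * g.2) = x * e.2 + z * g.2 := by
    unfold hev
    rw [Finset.sum_range_succ, Finset.sum_range_one]
    simp [coeff_one]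
  rw [h2, h0, Int.cast_zero, abs_zero, pow_one] at h1
  have : (0 : ℝ) < (z : ℝ) := by exact_mod_cast hz0
  linarith

end Fm

end Pool.Agent.Lib.MP_d8bd92_nt
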