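import Pool.Agent.Lib.MP_d8bd92_nt.FmI
import Pool.Agent.Lib.MP_d8bd92_nt.FmR
import Pool.Agent.Lib.MP_d8bd92_nt.FmT

set_option autoImplicit false

namespace Pool.Agent.Lib.MP_d8bd92_nt

open Finset Polynomial UniqueFactorizationMonoid Pool.Agent.Lib.Szpiro

namespace Fm

theorem frame (l : ℤ × ℤ) (hl : l ≠ 0) : ∃ e f : ℤ × ℤ, dt e f = 1 ∧ lf l e = 0 := by
  have hg : 0 < Int.gcd l.1 l.2 := by
    rcases Nat.eq_zero_or_pos (Int.gcd l.1 l.2) with h | h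
    · exfalso
      apply hl
      rw [Int.gcd_eq_zero_iff] at h
      exact Prod.ext h.1 h.2
    · exact h
  have h1 := Int.gcd_div_gcd_div_gcd hg
  obtain ⟨a, ha⟩ : ((Int.gcd l.1 l.2 : ℕ) : ℤ) ∣ l.1 := Int.gcd_dvd_left _ _
  obtain ⟨b, hb⟩ : ((Int.gcd l.1 l.2 : ℕ) : ℤ) ∣ l.2 := Int.gcd_dvd_right _ _
  have hgZ : ((Int.gcd l.1 l.2 : ℕ) : ℤ) ≠ 0 := by exact_mod_cast hg.ne'
  have e1 : l.1 / ((Int.gcd l.1 l.2 : ℕ) : ℤ) = a := by
    conv_lhs => rw [ha]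
    rw [← ha]
    exact Int.ediv_eq_of_eq_mul_right hgZ ha
  have e2 : l.2 / ((Int.gcd l.1 l.2 : ℕ) : ℤ) = b := Int.ediv_eq_of_eq_mul_right hgZ hb
  rw [e1, e2] at h1
  obtain ⟨u, v, huv⟩ : IsCoprime a b := Int.isCoprime_iff_gcd_eq_one.mpr h1
  refine ⟨(b, -a), (u, v), ?_, ?_⟩
  · unfold dt
    simp only
    linear_combination huv
  · unfold lf
    simp only
    linear_combination b * ha - a * hb

theorem hev_neg_neg (m : ℕ) (J : ℤ[X]) (a b : ℤ) : hev m J (-a) (-b) = (-1) ^ m * hev m J a b := by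
  unfold hev
  rw [Finset.mul_sum]
  apply Finset.sum_congr rfl
  intro i hi
  have hi' : i ≤ m := Nat.lt_succ_iff.mp (Finset.mem_range.mp hi)
  obtain ⟨j, rfl⟩ := Nat.exists_eq_add_of_le hi'
  rw [Nat.add_sub_cancel_left, neg_pow a, neg_pow b, pow_add]
  ring

theorem rd_form_le (J : ℤ[X]) (m : ℕ) (Λ : Finset (ℤ × ℤ)) (Θ : Finset (ℤ × ℤ × ℤ)) (M : ℕ)
    (hM : M ≠ 0) (w : ℤ × ℤ) (k D : ℤ) (hk : k ≠ 0) (hD : D ≠ 0) (he : hev m J w.1 w.2 = k * D)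
    (d1 : ∀ l ∈ Λ, lf l w ∣ hev m J w.1 w.2) (d2 : ∀ q ∈ Θ, qf q w ∣ hev m J w.1 w.2)
    (d4 : ∀ p : ℕ, p.Prime → ¬ p ∣ M → (p : ℤ) ∣ hev m J w.1 w.2 →
      (∃ l ∈ Λ, (p : ℤ) ∣ lf l w) ∨ ∃ q ∈ Θ, (p : ℤ) ∣ qf q w)
    (l1 : ℤ × ℤ) (u : ℤ) (hu0 : u ≠ 0)
    (hu : ∀ p : ℕ, p.Prime → (p : ℤ) ∣ lf l1 w → (p : ℤ) ∣ u)
    (H : ℝ) (hH : 1 ≤ H) (h1 : |(w.1 : ℝ)| ≤ H) (h2 : |(w.2 : ℝ)| ≤ H) :
    (rd D.natAbs : ℝ) ≤ ((M * (∏ l ∈ Λ.erase l1, (l.1.natAbs + l.2.natAbs + 1)) *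
      ∏ q ∈ Θ, (q.1.natAbs + q.2.1.natAbs + q.2.2.natAbs + 1) : ℕ) : ℝ) *
        H ^ ((Λ.erase l1).card + 2 * Θ.card) * |(u : ℝ)| := by
  classical
  have h7 : hev m J w.1 w.2 ≠ 0 := by rw [he]; exact mul_ne_zero hk hD
  set Z : ℕ := ⌊H⌋₊ with hZ
  have hwZ1 : w.1.natAbs ≤ Z := by apply Nat.le_floor; rw [natAbs_cast_abs]; exact h1
  have hwZ2 : w.2.natAbs ≤ Z := by apply Nat.le_floor; rw [natAbs_cast_abs]; exact h2
  have hZH : (Z : ℝ) ≤ H := Nat.floor_le (by linarith)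
  have hlne : ∀ l ∈ Λ.erase l1, (lf l w).natAbs ≠ 0 := by
    intro l hl
    apply Int.natAbs_ne_zero.mpr
    intro h
    have := d1 l (Finset.mem_of_mem_erase hl)
    rw [h, zero_dvd_iff] at this
    exact h7 this
  have hqne : ∀ q ∈ Θ, (qf q w).natAbs ≠ 0 := by
    intro q hq
    apply Int.natAbs_ne_zero.mpr
    intro h
    have := d2 q hq
    rw [h, zero_dvd_iff] at this
    exact h7 this
  set V : ℕ := M * (∏ l ∈ Λ.erase l1, (lf l w).natAbs) * (∏ q ∈ Θ, (qf q w).natAbs) * u.natAbs with hV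
  have hV0 : V ≠ 0 := by
    rw [hV]
    exact mul_ne_zero (mul_ne_zero (mul_ne_zero hM (Finset.prod_ne_zero_iff.mpr hlne))
      (Finset.prod_ne_zero_iff.mpr hqne)) (Int.natAbs_ne_zero.mpr hu0)
  have hrV : rd D.natAbs ≤ V := by
    refine le_trans (rd_mono' hV0 ?_) (rd_le hV0)
    intro p hp hpd
    by_cases hpM : p ∣ M
    · rw [hV, mul_assoc, mul_assoc]; exact hpM.mul_right _
    have h8 : (p : ℤ) ∣ hev m J w.1 w.2 := by
      rw [he]; exact (Int.natCast_dvd.mpr hpd).mul_left _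
    rcases d4 p hp hpM h8 with ⟨l, hl, h9⟩ | ⟨q, hq, h9⟩
    · by_cases hll : l = l1
      · rw [hll] at h9
        have h10 : p ∣ u.natAbs := Int.natCast_dvd.mp (hu p hp h9)
        rw [hV]
        exact h10.mul_left _
      · have h10 : p ∣ ∏ l ∈ Λ.erase l1, (lf l w).natAbs :=
          (Int.natCast_dvd.mp h9).trans
            (Finset.dvd_prod_of_mem (fun l => (lf l w).natAbs) (Finset.mem_erase.mpr ⟨hll, hl⟩))
        rw [hV]
        exact ((h10.mul_left _).mul_right _).mul_right _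
    · have h10 : p ∣ ∏ q ∈ Θ, (qf q w).natAbs :=
        (Int.natCast_dvd.mp h9).trans (Finset.dvd_prod_of_mem (fun q => (qf q w).natAbs) hq)
      rw [hV]
      exact (h10.mul_left _).mul_right _
  set K : ℕ := M * (∏ l ∈ Λ.erase l1, (l.1.natAbs + l.2.natAbs + 1)) *
      ∏ q ∈ Θ, (q.1.natAbs + q.2.1.natAbs + q.2.2.natAbs + 1) with hK
  have hVle : V ≤ K * Z ^ ((Λ.erase l1).card + 2 * Θ.card) * u.natAbs := by
    have k1 : ∏ l ∈ Λ.erase l1, (lf l w).natAbs ≤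
        (∏ l ∈ Λ.erase l1, (l.1.natAbs + l.2.natAbs + 1)) * Z ^ (Λ.erase l1).card := by
      rw [← Finset.prod_const, ← Finset.prod_mul_distrib]
      apply Finset.prod_le_prod'
      intro l _
      exact (lf_natAbs_le l w Z hwZ1 hwZ2).trans (Nat.mul_le_mul_right _ (by omega))
    have k2 : ∏ q ∈ Θ, (qf q w).natAbs ≤
        (∏ q ∈ Θ, (q.1.natAbs + q.2.1.natAbs + q.2.2.natAbs + 1)) * (Z ^ 2) ^ Θ.card := by
      rw [← Finset.prod_const, ← Finset.prod_mul_distrib]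
      apply Finset.prod_le_prod'
      intro q _
      exact (qf_natAbs_le q w Z hwZ1 hwZ2).trans (Nat.mul_le_mul_right _ (by omega))
    calc V ≤ M * ((∏ l ∈ Λ.erase l1, (l.1.natAbs + l.2.natAbs + 1)) * Z ^ (Λ.erase l1).card) *
          ((∏ q ∈ Θ, (q.1.natAbs + q.2.1.natAbs + q.2.2.natAbs + 1)) * (Z ^ 2) ^ Θ.card) *
            u.natAbs := by
          rw [hV]
          exact Nat.mul_le_mul_right _ (Nat.mul_le_mul (Nat.mul_le_mul_left _ k1) k2)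
      _ = K * Z ^ ((Λ.erase l1).card + 2 * Θ.card) * u.natAbs := by
          rw [hK, pow_add, pow_mul]; ring
  calc (rd D.natAbs : ℝ) ≤ ((K * Z ^ ((Λ.erase l1).card + 2 * Θ.card) * u.natAbs : ℕ) : ℝ) := by
        exact_mod_cast hrV.trans hVle
    _ = K * (Z : ℝ) ^ ((Λ.erase l1).card + 2 * Θ.card) * (u.natAbs : ℝ) := by push_cast; ring
    _ ≤ K * H ^ ((Λ.erase l1).card + 2 * Θ.card) * (u.natAbs : ℝ) := by gcongr
    _ = K * H ^ ((Λ.erase l1).card + 2 * Θ.card) * |(u : ℝ)| := by rw [natAbs_cast_abs]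

theorem family_lower3 (J1 J2 : ℤ[X])
    (hcop : IsCoprime (J1.map (Int.castRingHom ℚ)) (J2.map (Int.castRingHom ℚ))) (n : ℕ)
    (hm1 : J1.natDegree ≤ 6 * n) (hm2 : J2.natDegree ≤ 6 * n)
    (hm3 : 6 * n = J1.natDegree ∨ 6 * n = J2.natDegree) (hmpos : 0 < 6 * n) (F : Finset ℚ[X])
    (hF : ∀ p, p ∈ F ↔ p ∈ normalizedFactors (J2.map (Int.castRingHom ℚ)))
    (hdeg : ∀ p ∈ F, p.natDegree ≤ 2) (r : ℝ) (hr0 : 1 ≤ r)
    (hr : r = ((∑ p ∈ F, p.natDegree + (if J2.natDegree < 6 * n then 1 else 0) : ℕ) : ℝ))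
    (hs1 : 1 ≤ (F.filter (fun p => p.natDegree = 1)).card + (if J2.natDegree < 6 * n then 1 else 0))
    (A B : ℚ[X]) (c c' : ℚ) (hc : c ≠ 0) (hc' : c' ≠ 0)
    (hA : J1.map (Int.castRingHom ℚ) = C c * A ^ 3)
    (hB : (J1 - C 1728 * J2).map (Int.castRingHom ℚ) = C c' * B ^ 2)
    (W0 : WeierstrassCurve ℤ) (hΔ : W0.Δ ≠ 0) (hss : IsCoprime W0.c₄ W0.Δ) (a0 b0 : ℤ)
    (hab : IsCoprime a0 b0) (hj : hev (6 * n) J1 a0 b0 * W0.Δ = hev (6 * n) J2 a0 b0 * W0.c₄ ^ 3)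
    (s κ : ℝ) (hsr : 1 / r ≤ s) (hsr' : s * (r - 1) < 1) (hκ : 6 * n * s < κ) :
    ∃ c Y0 : ℝ, 0 < c ∧ 1 ≤ Y0 ∧ ∀ Y : ℝ, Y0 ≤ Y → ∃ X : Finset (ℤ × ℤ),
      c * Y ^ (1 - (r - 2) * s) ≤ (X.card : ℝ) ∧ ∀ x ∈ X, ∃ W : WeierstrassCurve ℤ, W.c₄ = x.1 ∧
        W.c₆ = x.2 ∧ W.Δ ≠ 0 ∧ IsCoprime W.c₄ W.Δ ∧ (∃ a b : ℤ, IsCoprime a b ∧ 1 ≤ b ∧
          hev (6 * n) J1 a b * W.Δ = hev (6 * n) J2 a b * W.c₄ ^ 3) ∧
        (rd W.Δ.natAbs : ℝ) ≤ Y ∧ (rd W.Δ.natAbs : ℝ) ^ (6 * n * s) ≤ (W.Δ.natAbs : ℝ) ∧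
        (W.Δ.natAbs : ℝ) ≤ Y ^ κ := by
  classical
  have hJ2 : J2 ≠ 0 := by
    intro h1
    rw [h1, Polynomial.map_zero] at hcop
    have h3 := natDegree_eq_zero_of_isUnit (isCoprime_zero_right.mp hcop)
    rw [natDegree_map_eq_of_injective (Int.castRingHom ℚ).injective_int] at h3
    rw [h1, natDegree_zero, h3] at hm3
    omega
  obtain ⟨Λ, Θ, M, hM, hind, hsq, hcard1, hcard2, hdata⟩ := forms_data J2 hJ2 (6 * n) hm2 F hF hdeg
  obtain ⟨ρ0, hρ0, hgcd⟩ := gcd_bound J1 J2 hcop (6 * n) hm1 hm2 hm3 hmpos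
  obtain ⟨M1, k, hM1, hk, hlift⟩ := lift J1 J2 n hm1 A B c c' hc hc' hA hB hm2 ρ0 hρ0 hgcd W0 hΔ hss
    a0 b0 hab hj
  have hr' : r = (Λ.card : ℝ) + 2 * Θ.card := by
    rw [hr, ← hcard2]; push_cast; ring
  have hrpos : 0 < r := by linarith
  -- a nonzero linear form
  obtain ⟨l1, hl1⟩ : Λ.Nonempty := by
    rw [← Finset.card_pos]; omega
  have hl10 : l1 ≠ 0 := by
    rintro rfl
    obtain ⟨c1, H0, hc1, hcount⟩ := coprime_class J2 hJ2 (6 * n) hm2 1 le_rfl 1 0 isCoprime_one_left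
    obtain ⟨S, hS1, hS2⟩ := hcount (max H0 1) (le_max_left _ _)
    have hpos : (0 : ℝ) < max H0 1 := lt_max_of_lt_right one_pos
    have : S.Nonempty := by
      rw [← Finset.card_pos]
      have h1 : (0 : ℝ) < c1 * (max H0 1) ^ 2 := by positivity
      exact_mod_cast h1.trans_le hS1
    obtain ⟨w, hw⟩ := this
    obtain ⟨h1, _, _, _, _, _, h7⟩ := hS2 w hw
    obtain ⟨d1, _⟩ := hdata w.1 w.2 h1
    have h2 := d1 _ hl1
    have h3 : lf (0 : ℤ × ℤ) (w.1, w.2) = 0 := by simp [lf]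
    rw [h3, zero_dvd_iff] at h2
    exact h7 h2
  obtain ⟨e, f, hef, hle⟩ := frame l1 hl10
  have hef' : e.1 * f.2 - e.2 * f.1 = 1 := by rw [← hef]; unfold dt; ring
  obtain ⟨K, hlow⟩ := form_lower2 J2 hJ2 (6 * n) hm2 e f hef
  -- the class
  obtain ⟨P, hP⟩ : ∃ P : ℕ, P = M1 + 1 := ⟨_, rfl⟩
  obtain ⟨x00, hx00⟩ : ∃ x : ℤ, x = a0 * f.2 - b0 * f.1 := ⟨_, rfl⟩
  obtain ⟨y00, hy00⟩ : ∃ x : ℤ, x = e.1 * b0 - e.2 * a0 := ⟨_, rfl⟩
  have hw01 : a0 = x00 * e.1 + y00 * f.1 := by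
    rw [hx00, hy00]; linear_combination (-a0) * hef'
  have hw02 : b0 = x00 * e.2 + y00 * f.2 := by
    rw [hx00, hy00]; linear_combination (-b0) * hef'
  have hPZ : (P : ℤ) = M1 + 1 := by rw [hP]; push_cast; ring
  have hcls : ∀ p : ℕ, p.Prime → p ∣ M1 * P → (p : ℤ) ∣ x00 * P - M1 → ¬ (p : ℤ) ∣ y00 := by
    intro p hp hpM hx hy
    have hnu := (Nat.prime_iff_prime_int.mp hp).not_isUnit
    rcases (Nat.Prime.dvd_mul hp).mp hpM with h | h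
    · have h1 : (p : ℤ) ∣ (M1 : ℤ) := Int.natCast_dvd_natCast.mpr h
      have h2 : (p : ℤ) ∣ x00 := by
        have : x00 = (x00 * P - M1) - x00 * M1 + M1 := by rw [hPZ]; ring
        rw [this]
        exact dvd_add (dvd_sub hx (h1.mul_left _)) h1
      have h3 : (p : ℤ) ∣ a0 := by rw [hw01]; exact dvd_add (h2.mul_right _) (hy.mul_right _)
      have h4 : (p : ℤ) ∣ b0 := by rw [hw02]; exact dvd_add (h2.mul_right _) (hy.mul_right _)
      exact hnu (hab.isUnit_of_dvd' h3 h4)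
    · have h1 : (p : ℤ) ∣ (P : ℤ) := Int.natCast_dvd_natCast.mpr h
      have h2 : (p : ℤ) ∣ 1 := by
        have : (1 : ℤ) = P - x00 * P + (x00 * P - M1) := by rw [hPZ]; ring
        rw [this]
        exact dvd_add (dvd_sub h1 (h1.mul_left _)) hx
      exact hnu (isUnit_of_dvd_one h2)
  obtain ⟨c1, B0, hc1, hB0, hrect⟩ := rect_count (M1 * P) K
    (Nat.mul_pos hM1 (by rw [hP]; exact Nat.succ_pos _)) (x00 * P - M1) y00 hcls
  -- constants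
  have hspos : 0 < s := lt_of_lt_of_le (by positivity) hsr
  have hmR : (0 : ℝ) < 6 * (n : ℝ) := by exact_mod_cast hmpos
  have hθ : 0 < 6 * (n : ℝ) * s := by positivity
  have hrs : 1 ≤ r * s := by
    rw [div_le_iff₀ hrpos] at hsr; linarith
  have hP2 : (2 : ℝ) ≤ (P : ℝ) := by
    rw [hP]; push_cast
    have : (1 : ℝ) ≤ M1 := by exact_mod_cast hM1
    linarith
  have hP0 : (0 : ℝ) < (P : ℝ) := by linarith
  obtain ⟨E, hE⟩ : ∃ E : ℝ, E = |(e.1 : ℝ)| + |(e.2 : ℝ)| + |(f.1 : ℝ)| + |(f.2 : ℝ)| + 1 := ⟨_, rfl⟩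
  have hEe1 : |(e.1 : ℝ)| ≤ E := by
    rw [hE]; linarith [abs_nonneg (e.2 : ℝ), abs_nonneg (f.1 : ℝ), abs_nonneg (f.2 : ℝ)]
  have hEe2 : |(e.2 : ℝ)| ≤ E := by
    rw [hE]; linarith [abs_nonneg (e.1 : ℝ), abs_nonneg (f.1 : ℝ), abs_nonneg (f.2 : ℝ)]
  have hEf1 : |(f.1 : ℝ)| ≤ E := by
    rw [hE]; linarith [abs_nonneg (e.2 : ℝ), abs_nonneg (e.1 : ℝ), abs_nonneg (f.2 : ℝ)]
  have hEf2 : |(f.2 : ℝ)| ≤ E := by
    rw [hE]; linarith [abs_nonneg (e.2 : ℝ), abs_nonneg (f.1 : ℝ), abs_nonneg (e.1 : ℝ)]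
  have hE1 : 1 ≤ E := by
    rw [hE]; linarith [abs_nonneg (e.2 : ℝ), abs_nonneg (f.1 : ℝ), abs_nonneg (e.1 : ℝ), abs_nonneg (f.2 : ℝ)]
  obtain ⟨C7, hC7⟩ : ∃ x : ℝ, x = (K + 3) * E := ⟨_, rfl⟩
  have hK0 : (0 : ℝ) ≤ K := Nat.cast_nonneg _
  have hC71 : 1 ≤ C7 := by rw [hC7]; nlinarith
  obtain ⟨N1, hN1⟩ : ∃ x : ℕ, x = (Λ.erase l1).card + 2 * Θ.card := ⟨_, rfl⟩
  have hN1r : ((N1 + 1 : ℕ) : ℝ) = r := by
    have h1 : (Λ.erase l1).card + 1 = Λ.card := Finset.card_erase_add_one hl1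
    rw [hr', hN1, ← h1]; push_cast; ring
  obtain ⟨K5, hK5⟩ : ∃ x : ℕ, x = M * (∏ l ∈ Λ.erase l1, (l.1.natAbs + l.2.natAbs + 1)) *
    ∏ q ∈ Θ, (q.1.natAbs + q.2.1.natAbs + q.2.2.natAbs + 1) := ⟨_, rfl⟩
  obtain ⟨g1, hg1⟩ : ∃ x : ℝ, x = |((lf l1 f : ℤ) : ℝ)| := ⟨_, rfl⟩
  have hg10 : 0 ≤ g1 := by rw [hg1]; positivity
  obtain ⟨C4, hC4⟩ : ∃ x : ℝ, x = K5 * C7 ^ N1 * (2 * g1) := ⟨_, rfl⟩
  have hC40 : 0 ≤ C4 := by rw [hC4]; positivity
  have hkR : 0 < |(k : ℝ)| := abs_pos.mpr (by exact_mod_cast hk)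
  obtain ⟨η, hη⟩ : ∃ x : ℝ, x = min 1 ((1 / |(k : ℝ)|) ^ (1 / (6 * (n : ℝ) * s))) := ⟨_, rfl⟩
  have hη0 : 0 < η := by rw [hη]; exact lt_min one_pos (by positivity)
  have hη1 : η ≤ 1 := by rw [hη]; exact min_le_left _ _
  have hηpow : η ^ (6 * (n : ℝ) * s) ≤ 1 / |(k : ℝ)| := by
    calc η ^ (6 * (n : ℝ) * s) ≤ ((1 / |(k : ℝ)|) ^ (1 / (6 * (n : ℝ) * s))) ^ (6 * (n : ℝ) * s) :=
          Real.rpow_le_rpow hη0.le (by rw [hη]; exact min_le_right _ _) hθ.le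
      _ = 1 / |(k : ℝ)| := by
          rw [← Real.rpow_mul (by positivity), one_div_mul_cancel hθ.ne', Real.rpow_one]
  obtain ⟨C6, hC6⟩ : ∃ x : ℝ, x = max 1 (C4 / η) := ⟨_, rfl⟩
  have hC61 : 1 ≤ C6 := by rw [hC6]; exact le_max_left _ _
  have hC60 : 0 < C6 := by linarith
  have hC64 : C4 ≤ C6 * η := by
    have := le_max_right 1 (C4 / η)
    rw [← hC6] at this
    rwa [div_le_iff₀ hη0] at this
  have hδ1 : 0 < 1 - (r - 1) * s := by linarith [mul_comm s (r - 1)]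
  have hδ2 : 0 < κ - 6 * n * s := by linarith
  obtain ⟨D1, hD1⟩ : ∃ x : ℝ, x = B0 * P ^ 2 * C6 := ⟨_, rfl⟩
  obtain ⟨D2, hD2⟩ : ∃ x : ℝ, x = csum (6 * n) J2 * C7 ^ (6 * n) := ⟨_, rfl⟩
  have hD10 : 0 ≤ D1 := by rw [hD1]; positivity
  have hD20 : 0 ≤ D2 := by
    rw [hD2]; exact mul_nonneg (csum_nonneg _ _) (by positivity)
  refine ⟨c1 / (P ^ 2 * C6) / (6 * n : ℕ), max 1 (max (D1 ^ (1 / (1 - (r - 1) * s)))
    (D2 ^ (1 / (κ - 6 * n * s)))), by positivity, le_max_left _ _, ?_⟩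
  intro Y hY
  have hY1 : 1 ≤ Y := (le_max_left _ _).trans hY
  have hYpos : 0 < Y := by linarith
  have hYD1 : D1 ≤ Y ^ (1 - (r - 1) * s) := by
    calc D1 = (D1 ^ (1 / (1 - (r - 1) * s))) ^ (1 - (r - 1) * s) := by
          rw [← Real.rpow_mul hD10, one_div_mul_cancel hδ1.ne', Real.rpow_one]
      _ ≤ _ := Real.rpow_le_rpow (by positivity)
          (((le_max_left _ _).trans (le_max_right _ _)).trans hY) hδ1.le
  have hYD2 : D2 ≤ Y ^ (κ - 6 * n * s) := by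
    calc D2 = (D2 ^ (1 / (κ - 6 * n * s))) ^ (κ - 6 * n * s) := by
          rw [← Real.rpow_mul hD20, one_div_mul_cancel hδ2.ne', Real.rpow_one]
      _ ≤ _ := Real.rpow_le_rpow (by positivity)
          (((le_max_right _ _).trans (le_max_right _ _)).trans hY) hδ2.le
  -- the power of P
  have hT1 : 1 ≤ C6 * Y ^ (r * s - 1) := by
    have : 1 ≤ Y ^ (r * s - 1) := Real.one_le_rpow hY1 (by linarith)
    nlinarith
  obtain ⟨j0, hj1, hj2⟩ := exists_nat_pow_near hT1 (show (1 : ℝ) < (P : ℝ) by linarith)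
  obtain ⟨Q, hQ⟩ : ∃ x : ℝ, x = (P : ℝ) ^ (j0 + 1) := ⟨_, rfl⟩
  have hQ1 : C6 * Y ^ (r * s - 1) ≤ Q := by rw [hQ]; exact hj2.le
  have hQ2 : Q ≤ P * (C6 * Y ^ (r * s - 1)) := by
    rw [hQ, pow_succ, mul_comm]
    exact mul_le_mul_of_nonneg_left hj1 hP0.le
  have hQ0 : 0 < Q := by rw [hQ]; positivity
  have hQ11 : 1 ≤ Q := hT1.trans hQ1
  obtain ⟨A1, hA1⟩ : ∃ x : ℝ, x = Y ^ s := ⟨_, rfl⟩
  have hA11 : 1 ≤ A1 := by rw [hA1]; exact Real.one_le_rpow hY1 hspos.le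
  have hA10 : 0 < A1 := by linarith
  obtain ⟨B1, hB1d⟩ : ∃ x : ℝ, x = A1 / (P * Q) := ⟨_, rfl⟩
  have hPQ : 1 ≤ P * Q := by nlinarith
  have hB1 : B0 ≤ B1 := by
    rw [hB1d, le_div_iff₀ (by positivity)]
    calc B0 * (P * Q) ≤ B0 * (P * (P * (C6 * Y ^ (r * s - 1)))) := by gcongr
      _ = D1 * Y ^ (r * s - 1) := by rw [hD1]; ring
      _ ≤ Y ^ (1 - (r - 1) * s) * Y ^ (r * s - 1) := by gcongr
      _ = A1 := by rw [hA1, ← Real.rpow_add hYpos]; congr 1; ring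
  have hBA : B1 ≤ A1 := by
    rw [hB1d]; exact div_le_self hA10.le hPQ
  obtain ⟨S, hScard, hS⟩ := hrect A1 B1 hB1 hBA
  -- the vectors
  obtain ⟨R, hR⟩ : ∃ x : ℤ, x = (P : ℤ) ^ (j0 + 2) := ⟨_, rfl⟩
  have hRR : (R : ℝ) = P * Q := by rw [hR, hQ]; push_cast; ring
  have hR0 : R ≠ 0 := by
    have : (R : ℝ) ≠ 0 := by rw [hRR]; positivity
    exact_mod_cast this
  have hRM : (M1 : ℤ) ∣ R - 1 := by
    have h1 : (P : ℤ) ≡ 1 [ZMOD M1] := by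
      apply Int.ModEq.symm
      rw [Int.modEq_iff_dvd, hPZ]; exact ⟨1, by ring⟩
    have h2 : R ≡ 1 [ZMOD M1] := by
      have := h1.pow (j0 + 2)
      rw [one_pow] at this
      rw [hR]; exact this
    exact (Int.modEq_iff_dvd.mp h2.symm)
  set tw : ℤ × ℤ → ℤ × ℤ := fun v =>
    (v.1 * e.1 + v.2 * R * f.1, v.1 * e.2 + v.2 * R * f.2) with htw
  set sg : ℤ × ℤ → ℤ × ℤ := fun w => if 0 < w.2 then w else -w with hsg
  have hkey : ∀ v ∈ S, 0 < v.2 ∧ (tw v).2 ≠ 0 ∧ IsCoprime (tw v).1 (tw v).2 ∧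
      ∃ W : WeierstrassCurve ℤ, hev (6 * n) J2 (tw v).1 (tw v).2 = k * W.Δ ∧
      hev (6 * n) J1 (tw v).1 (tw v).2 = k * W.c₄ ^ 3 ∧ W.Δ ≠ 0 ∧ IsCoprime W.c₄ W.Δ ∧
      (rd W.Δ.natAbs : ℝ) ≤ Y ∧ (rd W.Δ.natAbs : ℝ) ^ (6 * n * s) ≤ (W.Δ.natAbs : ℝ) ∧
      (W.Δ.natAbs : ℝ) ≤ Y ^ κ := by
    intro v hv
    obtain ⟨h1, h2, h3, h4, h5, h6, h7⟩ := hS v hv
    have hv2R : (0 : ℝ) < (v.2 : ℝ) := by linarith
    have hv2 : 0 < v.2 := by exact_mod_cast hv2R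
    have hz1 : A1 ≤ ((v.2 * R : ℤ) : ℝ) := by
      push_cast; rw [hRR]
      calc A1 = B1 * (P * Q) := by rw [hB1d]; field_simp
        _ ≤ (v.2 : ℝ) * (P * Q) := by gcongr
    have hz2 : ((v.2 * R : ℤ) : ℝ) ≤ 2 * A1 := by
      push_cast; rw [hRR]
      calc (v.2 : ℝ) * (P * Q) ≤ (2 * B1) * (P * Q) := by gcongr
        _ = 2 * A1 := by rw [hB1d]; field_simp
    obtain ⟨hlw, hw2⟩ := hlow A1 v.1 (v.2 * R) hA10 hz1 hz2 h2
    have hcopv : IsCoprime v.1 (v.2 * R) := by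
      apply IsCoprime.mul_right h1
      rw [hR]
      apply IsCoprime.pow_right
      -- v.1 = x00 P - M1 + t M1 P
      obtain ⟨t, ht⟩ := h6
      refine ⟨1, 1 - x00 - M1 * t, ?_⟩
      push_cast at ht
      have : v.1 = x00 * P - M1 + M1 * P * t := by linarith
      rw [this, hPZ]; ring
    have hcopw : IsCoprime (tw v).1 (tw v).2 := by
      obtain ⟨α, β, hαβ⟩ := hcopv
      refine ⟨α * f.2 - β * e.2, β * e.1 - α * f.1, ?_⟩
      simp only [htw]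
      linear_combination hαβ + (α * v.1 + β * (v.2 * R)) * hef'
    have hM1a : (M1 : ℤ) ∣ (tw v).1 - a0 := by
      obtain ⟨t, ht⟩ := h6
      obtain ⟨t', ht'⟩ := h7
      obtain ⟨t'', ht''⟩ := hRM
      push_cast at ht ht'
      have e1 : v.1 = x00 + M1 * (x00 - 1 + P * t) := by
        have : v.1 = x00 * P - M1 + M1 * P * t := by linarith
        rw [this, hPZ]; ring
      have e2 : v.2 * R = y00 + M1 * (P * t' + v.2 * t'') := by
        have : v.2 = y00 + M1 * P * t' := by linarith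
        have h8 : R = 1 + M1 * t'' := by linarith
        calc v.2 * R = v.2 * (1 + M1 * t'') := by rw [h8]
          _ = v.2 + M1 * (v.2 * t'') := by ring
          _ = (y00 + M1 * P * t') + M1 * (v.2 * t'') := by rw [← this]
          _ = _ := by ring
      refine ⟨(x00 - 1 + P * t) * e.1 + (P * t' + v.2 * t'') * f.1, ?_⟩
      simp only [htw]
      rw [e2, hw01]
      linear_combination e.1 * e1
    have hM1b : (M1 : ℤ) ∣ (tw v).2 - b0 := by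
      obtain ⟨t, ht⟩ := h6
      obtain ⟨t', ht'⟩ := h7
      obtain ⟨t'', ht''⟩ := hRM
      push_cast at ht ht'
      have e1 : v.1 = x00 + M1 * (x00 - 1 + P * t) := by
        have : v.1 = x00 * P - M1 + M1 * P * t := by linarith
        rw [this, hPZ]; ring
      have e2 : v.2 * R = y00 + M1 * (P * t' + v.2 * t'') := by
        have : v.2 = y00 + M1 * P * t' := by linarith
        have h8 : R = 1 + M1 * t'' := by linarith
        calc v.2 * R = v.2 * (1 + M1 * t'') := by rw [h8]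
          _ = v.2 + M1 * (v.2 * t'') := by ring
          _ = (y00 + M1 * P * t') + M1 * (v.2 * t'') := by rw [← this]
          _ = _ := by ring
      refine ⟨(x00 - 1 + P * t) * e.2 + (P * t' + v.2 * t'') * f.2, ?_⟩
      simp only [htw]
      rw [e2, hw02]
      linear_combination e.2 * e1
    have hlw' : A1 ^ (6 * n) ≤ |((hev (6 * n) J2 (tw v).1 (tw v).2 : ℤ) : ℝ)| := hlw
    have hne : hev (6 * n) J2 (tw v).1 (tw v).2 ≠ 0 := by
      intro h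
      rw [h, Int.cast_zero, abs_zero] at hlw'
      have : 0 < A1 ^ (6 * n) := by positivity
      linarith
    obtain ⟨W, g1', g2', g3', g4'⟩ := hlift _ _ hcopw hM1a hM1b hne
    have hv1R : 0 ≤ (v.1 : ℝ) := le_trans (by positivity) h2
    have hw1le : |((tw v).1 : ℝ)| ≤ C7 * A1 := by
      have e1 : ((tw v).1 : ℝ) = (v.1 : ℝ) * e.1 + ((v.2 * R : ℤ) : ℝ) * f.1 := by
        simp only [htw]; push_cast; ring
      rw [e1]
      calc |(v.1 : ℝ) * e.1 + ((v.2 * R : ℤ) : ℝ) * f.1|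
          ≤ |(v.1 : ℝ) * e.1| + |((v.2 * R : ℤ) : ℝ) * f.1| := abs_add_le _ _
        _ = (v.1 : ℝ) * |(e.1 : ℝ)| + ((v.2 * R : ℤ) : ℝ) * |(f.1 : ℝ)| := by
            rw [abs_mul, abs_mul, abs_of_nonneg hv1R, abs_of_nonneg (hA10.le.trans hz1)]
        _ ≤ ((K + 1) * A1) * E + (2 * A1) * E := by gcongr
        _ = C7 * A1 := by rw [hC7]; ring
    have hw2le : |((tw v).2 : ℝ)| ≤ C7 * A1 := by
      have e1 : ((tw v).2 : ℝ) = (v.1 : ℝ) * e.2 + ((v.2 * R : ℤ) : ℝ) * f.2 := by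
        simp only [htw]; push_cast; ring
      rw [e1]
      calc |(v.1 : ℝ) * e.2 + ((v.2 * R : ℤ) : ℝ) * f.2|
          ≤ |(v.1 : ℝ) * e.2| + |((v.2 * R : ℤ) : ℝ) * f.2| := abs_add_le _ _
        _ = (v.1 : ℝ) * |(e.2 : ℝ)| + ((v.2 * R : ℤ) : ℝ) * |(f.2 : ℝ)| := by
            rw [abs_mul, abs_mul, abs_of_nonneg hv1R, abs_of_nonneg (hA10.le.trans hz1)]
        _ ≤ ((K + 1) * A1) * E + (2 * A1) * E := by gcongr
        _ = C7 * A1 := by rw [hC7]; ring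
    have hH1 : 1 ≤ C7 * A1 := by nlinarith
    obtain ⟨d1, d2, _, d4⟩ := hdata (tw v).1 (tw v).2 hcopw
    have hlf : lf l1 (tw v) = v.2 * R * lf l1 f := by
      have e1 : lf l1 (tw v) = v.1 * lf l1 e + v.2 * R * lf l1 f := by
        simp only [htw, lf]; ring
      rw [e1, hle]; ring
    have hlfne : lf l1 f ≠ 0 := by
      intro h
      have h8 := d1 l1 hl1
      rw [show (((tw v).1, (tw v).2) : ℤ × ℤ) = tw v from rfl, hlf, h, mul_zero, zero_dvd_iff] at h8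
      exact hne h8
    have hrd := rd_form_le J2 (6 * n) Λ Θ M hM (tw v) k W.Δ hk g3' g1' d1 d2 d4 l1
      (v.2 * P * lf l1 f) (mul_ne_zero (mul_ne_zero hv2.ne' (by rw [hPZ]; positivity)) hlfne) (by
        intro p hp hpl
        rw [hlf, hR] at hpl
        have hpp := Nat.prime_iff_prime_int.mp hp
        rcases hpp.dvd_or_dvd hpl with h8 | h8
        · rcases hpp.dvd_or_dvd h8 with h9 | h9
          · exact (h9.mul_right _).mul_right _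
          · exact ((hpp.dvd_of_dvd_pow h9).mul_left _).mul_right _
        · exact h8.mul_left _) (C7 * A1) hH1 hw1le hw2le
    rw [← hK5, ← hN1] at hrd
    have hrd2 : (rd W.Δ.natAbs : ℝ) ≤ η * Y := by
      have e1 : |((v.2 * P * lf l1 f : ℤ) : ℝ)| = (v.2 : ℝ) * P * g1 := by
        push_cast
        rw [abs_mul, abs_mul, abs_of_pos hv2R, abs_of_pos hP0, hg1]
      rw [e1] at hrd
      have e2 : A1 ^ (N1 + 1) = Y ^ (r * s) := by
        rw [hA1, ← Real.rpow_natCast, ← Real.rpow_mul hYpos.le, hN1r, mul_comm]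
      calc (rd W.Δ.natAbs : ℝ) ≤ K5 * (C7 * A1) ^ N1 * ((v.2 : ℝ) * P * g1) := hrd
        _ ≤ K5 * (C7 * A1) ^ N1 * ((2 * B1) * P * g1) := by gcongr
        _ = C4 * (A1 ^ (N1 + 1) / Q) := by
            rw [hC4, hB1d, mul_pow, pow_succ]; field_simp
        _ ≤ (C6 * η) * (A1 ^ (N1 + 1) / Q) := by gcongr
        _ = (C6 * η) * (Y ^ (r * s) / Q) := by rw [e2]
        _ ≤ (C6 * η) * (Y ^ (r * s) / (C6 * Y ^ (r * s - 1))) := by gcongr
        _ = η * (Y ^ (r * s) / Y ^ (r * s - 1)) := by field_simp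
        _ = η * Y := by
            rw [← Real.rpow_sub hYpos]
            have : r * s - (r * s - 1) = 1 := by ring
            rw [this, Real.rpow_one]
    have hΔabs : |((hev (6 * n) J2 (tw v).1 (tw v).2 : ℤ) : ℝ)| = |(k : ℝ)| * (W.Δ.natAbs : ℝ) := by
      rw [g1', natAbs_cast_abs, ← abs_mul]; push_cast; rfl
    have hApow : A1 ^ (6 * n) = Y ^ (6 * n * s) := by
      rw [hA1, ← Real.rpow_natCast, ← Real.rpow_mul hYpos.le]
      congr 1; push_cast; ring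
    refine ⟨hv2, hw2, hcopw, W, g1', g2', g3', g4', ?_, ?_, ?_⟩
    · calc (rd W.Δ.natAbs : ℝ) ≤ η * Y := hrd2
        _ ≤ 1 * Y := by gcongr
        _ = Y := one_mul _
    · calc (rd W.Δ.natAbs : ℝ) ^ (6 * n * s) ≤ (η * Y) ^ (6 * n * s) :=
            Real.rpow_le_rpow (Nat.cast_nonneg _) hrd2 hθ.le
        _ = η ^ (6 * n * s) * Y ^ (6 * n * s) := Real.mul_rpow hη0.le hYpos.le
        _ ≤ (1 / |(k : ℝ)|) * Y ^ (6 * n * s) := by gcongr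
        _ = (1 / |(k : ℝ)|) * A1 ^ (6 * n) := by rw [hApow]
        _ ≤ (1 / |(k : ℝ)|) * (|(k : ℝ)| * (W.Δ.natAbs : ℝ)) := by
            rw [← hΔabs]; gcongr
        _ = (W.Δ.natAbs : ℝ) := by field_simp
    · have hk1 : 1 ≤ |(k : ℝ)| := by
        rw [← natAbs_cast_abs]
        exact_mod_cast Int.natAbs_pos.mpr hk
      calc (W.Δ.natAbs : ℝ) ≤ |(k : ℝ)| * (W.Δ.natAbs : ℝ) :=
            le_mul_of_one_le_left (Nat.cast_nonneg _) hk1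
        _ = |((hev (6 * n) J2 (tw v).1 (tw v).2 : ℤ) : ℝ)| := hΔabs.symm
        _ ≤ csum (6 * n) J2 * (C7 * A1) ^ (6 * n) := abs_hev_le _ _ _ _ _ hw1le hw2le
        _ = D2 * Y ^ (6 * n * s) := by rw [hD2, mul_pow, hApow]; ring
        _ ≤ Y ^ (κ - 6 * n * s) * Y ^ (6 * n * s) := by gcongr
        _ = Y ^ κ := by rw [← Real.rpow_add hYpos]; congr 1; ring
  -- injectivity
  have hinj : Set.InjOn (fun v => sg (tw v)) S := by
    intro v hv v' hv' hvv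
    obtain ⟨q1, _, _, _⟩ := hkey v hv
    obtain ⟨q1', _, _, _⟩ := hkey v' hv'
    have hlin : ∀ u u' : ℤ × ℤ, tw u = tw u' → u = u' := by
      intro u u' h
      simp only [htw, Prod.mk.injEq] at h
      obtain ⟨ha, hb⟩ := h
      have h1 : u.1 = u'.1 := by
        linear_combination f.2 * ha - f.1 * hb - (u.1 - u'.1) * hef'
      have h2 : u.2 * R = u'.2 * R := by
        linear_combination e.1 * hb - e.2 * ha - (u.2 * R - u'.2 * R) * hef'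
      exact Prod.ext h1 (mul_right_cancel₀ hR0 h2)
    have hneg : ∀ u : ℤ × ℤ, -tw u = tw (-u) := by
      intro u
      simp only [htw, Prod.neg_mk, Prod.fst_neg, Prod.snd_neg, Prod.mk.injEq]
      constructor <;> ring
    have hcase : tw v = tw v' ∨ tw v = -tw v' := by
      simp only [hsg] at hvv
      split_ifs at hvv
      · exact Or.inl hvv
      · exact Or.inr hvv
      · exact Or.inr (by rw [← hvv, neg_neg])
      · exact Or.inl (neg_injective hvv)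
    rcases hcase with h | h
    · exact hlin _ _ h
    · exfalso
      rw [hneg] at h
      have h2 := hlin _ _ h
      rw [h2, Prod.snd_neg] at q1
      omega
  obtain ⟨T, hT⟩ : ∃ x : Finset (ℤ × ℤ), x = S.image (fun v => sg (tw v)) := ⟨_, rfl⟩
  have hTcard : T.card = S.card := by rw [hT]; exact Finset.card_image_of_injOn hinj
  have heven : ∀ (J : ℤ[X]) (a b : ℤ), hev (6 * n) J (-a) (-b) = hev (6 * n) J a b := by
    intro J a b
    rw [hev_neg_neg, Even.neg_one_pow ⟨3 * n, by ring⟩, one_mul]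
  have hkey2 : ∀ w : ℤ × ℤ, ∃ W : WeierstrassCurve ℤ, w ∈ T → IsCoprime w.1 w.2 ∧ 1 ≤ w.2 ∧
      hev (6 * n) J2 w.1 w.2 = k * W.Δ ∧ hev (6 * n) J1 w.1 w.2 = k * W.c₄ ^ 3 ∧ W.Δ ≠ 0 ∧
      IsCoprime W.c₄ W.Δ ∧ (rd W.Δ.natAbs : ℝ) ≤ Y ∧
      (rd W.Δ.natAbs : ℝ) ^ (6 * n * s) ≤ (W.Δ.natAbs : ℝ) ∧ (W.Δ.natAbs : ℝ) ≤ Y ^ κ := by
    intro w
    by_cases hw : w ∈ T
    · rw [hT] at hw
      obtain ⟨v, hv, rfl⟩ := Finset.mem_image.mp hw
      obtain ⟨q1, q2, q3, W, q4, q5, q6, q7, q8⟩ := hkey v hv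
      refine ⟨W, fun _ => ?_⟩
      simp only [hsg]
      split_ifs with hpos
      · exact ⟨q3, hpos, q4, q5, q6, q7, q8⟩
      · refine ⟨?_, ?_, ?_, ?_, q6, q7, q8⟩
        · rw [Prod.fst_neg, Prod.snd_neg]; exact q3.neg_neg
        · rw [Prod.snd_neg]; omega
        · rw [Prod.fst_neg, Prod.snd_neg, heven]; exact q4
        · rw [Prod.fst_neg, Prod.snd_neg, heven]; exact q5
    · exact ⟨W0, fun h => absurd h hw⟩
  choose Wf hWf using hkey2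
  obtain ⟨fn, hfn⟩ : ∃ x : ℤ × ℤ → ℤ × ℤ, x = fun w => ((Wf w).c₄, (Wf w).c₆) := ⟨_, rfl⟩
  refine ⟨T.image fn, ?_, ?_⟩
  · have h1 : T.card ≤ (6 * n) * (T.image fn).card := by
      apply Finset.card_le_mul_card_image
      intro x hx
      obtain ⟨w0, hw0, hx0⟩ := Finset.mem_image.mp hx
      apply fiber_le J1 J2 hcop (6 * n) hm1 hm2 hm3 hmpos (x.1 ^ 3) (Wf w0).Δ (hWf w0 hw0).2.2.2.2.1
      intro w hw
      rw [Finset.mem_filter] at hw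
      obtain ⟨hwS, hwx⟩ := hw
      obtain ⟨h1, h3, g1, g2, g3, g4, _⟩ := hWf w hwS
      refine ⟨h1, h3, ?_⟩
      rw [hfn] at hwx hx0
      have e1 : (Wf w).c₄ = x.1 := by rw [← hwx]
      have e2 : (Wf w).c₆ = x.2 := by rw [← hwx]
      have e3 : (Wf w0).c₄ = x.1 := by rw [← hx0]
      have e4 : (Wf w0).c₆ = x.2 := by rw [← hx0]
      have e5 : (Wf w0).Δ = (Wf w).Δ := by
        have k1 := (Wf w).c_relation
        have k2 := (Wf w0).c_relation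
        rw [e1, e2] at k1
        rw [e3, e4, ← k1] at k2
        exact mul_left_cancel₀ (by norm_num) k2
      rw [e5, g1, g2, e1]
      ring
    have h2 : (T.card : ℝ) ≤ ((6 * n : ℕ) : ℝ) * ((T.image fn).card : ℝ) := by exact_mod_cast h1
    have hn0 : (0 : ℝ) < ((6 * n : ℕ) : ℝ) := by exact_mod_cast hmpos
    have h3 : c1 / (P ^ 2 * C6) * Y ^ (1 - (r - 2) * s) ≤ c1 * (A1 * B1) := by
      rw [hB1d]
      have e1 : Y ^ (1 - (r - 2) * s) = A1 * A1 / Y ^ (r * s - 1) := by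
        rw [hA1, ← Real.rpow_add hYpos, ← Real.rpow_sub hYpos]; congr 1; ring
      rw [e1]
      have e2 : c1 / (P ^ 2 * C6) * (A1 * A1 / Y ^ (r * s - 1)) =
          c1 * (A1 * (A1 / (P * (P * (C6 * Y ^ (r * s - 1)))))) := by
        field_simp
      rw [e2]
      gcongr
    rw [hTcard] at h2
    rw [div_mul_eq_mul_div, div_le_iff₀ hn0]
    linarith
  · intro x hx
    obtain ⟨w, hw, rfl⟩ := Finset.mem_image.mp hx
    obtain ⟨h1, h3, g1, g2, g3, g4, g5, g6, g7⟩ := hWf w hw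
    rw [hfn]
    exact ⟨Wf w, rfl, rfl, g3, g4, ⟨w.1, w.2, h1, h3, by rw [g1, g2]; ring⟩, g5, g6, g7⟩

end Fm

end Pool.Agent.Lib.MP_d8bd92_nt
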