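import Pool.Agent.Lib.MP_d8bd92_nt.FmO
import Pool.Agent.Lib.MP_d8bd92_nt.FmQ

/-! Part (3) of Theorem F (MP_d8bd92_nt): the upper bound for vectors of large height. -/

set_option autoImplicit false

namespace Pool.Agent.Lib.MP_d8bd92_nt

open Finset Pool.Agent.Lib.Szpiro

namespace Fm

theorem cls_qf (q : ℤ × ℤ × ℤ) (hq : ¬ IsSquare (qdisc q)) : Cls (qf q) := by
  have hD0 : qdisc q ≠ 0 := by
    intro h
    apply hq
    rw [h]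
    exact ⟨0, by ring⟩
  exact ⟨qdisc q ^ 2, pow_ne_zero 2 hD0, fun d hd T hT => quad_classes q hD0 d hd T hT⟩

/-- the index type of the forms -/
abbrev Idx (Λ : Finset (ℤ × ℤ)) (Θ : Finset (ℤ × ℤ × ℤ)) : Type :=
  {x : (ℤ × ℤ) ⊕ (ℤ × ℤ × ℤ) // x ∈ Λ.disjSum Θ}

/-- the form attached to an index -/
def ev : (ℤ × ℤ) ⊕ (ℤ × ℤ × ℤ) → ℤ × ℤ → ℤ := Sum.elim lf qf

/-- its degree -/
def dgr : (ℤ × ℤ) ⊕ (ℤ × ℤ × ℤ) → ℕ := Sum.elim (fun _ => 1) (fun _ => 2)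

theorem prod_idx (Λ : Finset (ℤ × ℤ)) (Θ : Finset (ℤ × ℤ × ℤ)) (g : (ℤ × ℤ) ⊕ (ℤ × ℤ × ℤ) → ℝ) :
    ∏ i : Idx Λ Θ, g i.1 = (∏ l ∈ Λ, g (Sum.inl l)) * ∏ q ∈ Θ, g (Sum.inr q) := by
  rw [Finset.prod_coe_sort (Λ.disjSum Θ) g, Finset.prod_disjSum]

theorem sum_idx (Λ : Finset (ℤ × ℤ)) (Θ : Finset (ℤ × ℤ × ℤ)) :
    ∑ i : Idx Λ Θ, dgr i.1 = Λ.card + 2 * Θ.card := by
  rw [Finset.sum_coe_sort (Λ.disjSum Θ) dgr, Finset.sum_disjSum]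
  simp [dgr, mul_comm]

theorem card_idx (Λ : Finset (ℤ × ℤ)) (Θ : Finset (ℤ × ℤ × ℤ)) :
    Fintype.card (Idx Λ Θ) = Λ.card + Θ.card := by
  rw [Fintype.card_coe, Finset.card_disjSum]

theorem min_le_interp {a b θ : ℝ} (ha : 0 < a) (hb : 0 < b) (h0 : 0 ≤ θ) (h1 : θ ≤ 1) :
    min a b ≤ a ^ (1 - θ) * b ^ θ := by
  have hm : 0 < min a b := lt_min ha hb
  calc min a b = (min a b) ^ (1 - θ) * (min a b) ^ θ := by
        rw [← Real.rpow_add hm]; simp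
    _ ≤ a ^ (1 - θ) * b ^ θ := by
        apply mul_le_mul
        · exact Real.rpow_le_rpow hm.le (min_le_left _ _) (by linarith)
        · exact Real.rpow_le_rpow hm.le (min_le_right _ _) h0
        · positivity
        · positivity

/-- integral height -/
def ht (w : ℤ × ℤ) : ℕ := max w.1.natAbs w.2.natAbs

theorem ht_cast (w : ℤ × ℤ) : (ht w : ℝ) = hgt w := by
  unfold ht hgt
  rw [Nat.cast_max, natAbs_cast_abs, natAbs_cast_abs]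

theorem log_le_rpow (ε : ℝ) (hε : 0 < ε) (N : ℕ) (hN : 1 ≤ N) :
    ((Nat.log 2 N + 1 : ℕ) : ℝ) ≤ (2 / ε + 1) * (N : ℝ) ^ ε := by
  have hN0 : (0 : ℝ) < N := by exact_mod_cast hN
  have hN1 : (1 : ℝ) ≤ N := by exact_mod_cast hN
  have h1 : (2 : ℝ) ^ (Nat.log 2 N) ≤ N := by exact_mod_cast Nat.pow_log_le_self 2 (by omega)
  have h2 : (Nat.log 2 N : ℝ) * Real.log 2 ≤ Real.log N := by
    rw [← Real.log_pow]
    exact Real.log_le_log (by positivity) h1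
  have h3 : Real.log N ≤ (N : ℝ) ^ ε / ε := Real.log_le_rpow_div hN0.le hε
  have h4 : (1 / 2 : ℝ) < Real.log 2 := by
    have := Real.log_two_gt_d9
    linarith
  have h5 : (1 : ℝ) ≤ (N : ℝ) ^ ε := Real.one_le_rpow hN1 hε.le
  have h6 : (Nat.log 2 N : ℝ) * (1 / 2) ≤ (Nat.log 2 N : ℝ) * Real.log 2 :=
    mul_le_mul_of_nonneg_left h4.le (Nat.cast_nonneg _)
  have h7 : (Nat.log 2 N : ℝ) ≤ 2 / ε * (N : ℝ) ^ ε := by
    have : 2 / ε * (N : ℝ) ^ ε = 2 * ((N : ℝ) ^ ε / ε) := by ring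
    rw [this]
    linarith
  push_cast
  linarith

end Fm

end Pool.Agent.Lib.MP_d8bd92_nt
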