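import Pool.Agent.Lib.MP_d8bd92_nt.FmU

/-! Part (3) of Theorem F (MP_d8bd92_nt): vectors of moderate height. -/

set_option autoImplicit false

namespace Pool.Agent.Lib.MP_d8bd92_nt

open Finset Pool.Agent.Lib.Szpiro

namespace Fm

theorem interp_bound (rn : ℕ) (hrn3 : 3 ≤ rn) (s Kc Y H : ℝ) (hs : 0 < s)
    (hs1 : s * ((rn : ℝ) - 2) ≤ 1) (hKc : 1 ≤ Kc) (hY : 1 ≤ Y) (hH : 1 ≤ H) :
    min Y ((Kc * (2 * H)) ^ (1 / s)) * (H ^ 2 / H ^ rn) ≤
      (2 * Kc) ^ (rn - 2) * Y ^ (1 - ((rn : ℝ) - 2) * s) := by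
  have hY0 : 0 < Y := by linarith
  have hH0 : 0 < H := by linarith
  have hK0 : 0 < Kc * (2 * H) := by positivity
  have hrnR : (2 : ℝ) ≤ (rn : ℝ) := by exact_mod_cast (by omega : 2 ≤ rn)
  have h1 := min_le_interp (θ := s * ((rn : ℝ) - 2)) hY0 (Real.rpow_pos_of_pos hK0 (1 / s))
    (mul_nonneg hs.le (by linarith)) hs1
  have h2 : ((Kc * (2 * H)) ^ (1 / s)) ^ (s * ((rn : ℝ) - 2)) = (2 * Kc) ^ (rn - 2) * H ^ (rn - 2) := by
    rw [← Real.rpow_mul hK0.le]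
    have e1 : 1 / s * (s * ((rn : ℝ) - 2)) = ((rn - 2 : ℕ) : ℝ) := by
      rw [Nat.cast_sub (by omega : 2 ≤ rn)]
      push_cast
      field_simp
    rw [e1, Real.rpow_natCast, ← mul_pow]
    congr 1
    ring
  rw [h2] at h1
  have h3 : H ^ rn = H ^ (rn - 2) * H ^ 2 := by rw [← pow_add]; congr 1; omega
  have hHp : 0 < H ^ (rn - 2) := pow_pos hH0 _
  have hH2 : 0 < H ^ 2 := pow_pos hH0 _
  have h4 : H ^ 2 / H ^ rn = 1 / H ^ (rn - 2) := by
    rw [h3]
    field_simp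
  rw [h4, mul_one_div, div_le_iff₀ hHp]
  have h5 : 1 - s * ((rn : ℝ) - 2) = 1 - ((rn : ℝ) - 2) * s := by ring
  rw [h5] at h1
  linarith

theorem strip_part (Λ : Finset (ℤ × ℤ)) (Θ : Finset (ℤ × ℤ × ℤ)) (hs3 : 3 ≤ Λ.card)
    (hind : ∀ l ∈ Λ, ∀ l' ∈ Λ, l ≠ l' → dt l l' ≠ 0) (hq : ∀ q ∈ Θ, ¬ IsSquare (qdisc q))
    (hqq : ∀ q ∈ Θ, ∀ q' ∈ Θ, q ≠ q' → NProp q q') (rn : ℕ) (hrn : rn = Λ.card + 2 * Θ.card)
    (η γ ω ε s Kc : ℝ) (hη : 0 < η) (hγ : 0 < γ) (hω : ((Λ.card + Θ.card : ℕ) : ℝ) * (rn * η + γ) ≤ ω)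
    (hε : 0 < ε) (hs : 0 < s) (hs1 : s * ((rn : ℝ) - 2) ≤ 1) (hKc : 1 ≤ Kc) :
    ∃ C : ℝ, 1 ≤ C ∧ ∀ (Y : ℝ) (T : Finset (ℤ × ℤ)), 1 ≤ Y →
      (∀ w ∈ T, IsCoprime w.1 w.2 ∧ (∀ l ∈ Λ, lf l w ≠ 0) ∧ Y ^ (1 - γ) ≤ (radp Λ Θ w : ℝ) ∧
        (radp Λ Θ w : ℝ) ≤ Y ∧ hgt w ≤ Y ^ (1 / (rn : ℝ) + η) ∧
        (radp Λ Θ w : ℝ) ^ s ≤ Kc * hgt w) →
      (T.card : ℝ) ≤ C * Y ^ ε * (Y ^ ω + Y ^ (1 - ((rn : ℝ) - 2) * s)) := by
  classical
  have hrn3 : 3 ≤ rn := by omega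
  have hrnR : (3 : ℝ) ≤ (rn : ℝ) := by exact_mod_cast hrn3
  have hrn0 : (0 : ℝ) < (rn : ℝ) := by linarith
  have hlne : ∀ l ∈ Λ, l ≠ 0 := by
    intro l hl h0
    obtain ⟨l', hl', hne⟩ := Finset.exists_mem_ne (by omega : 1 < Λ.card) l
    apply hind l hl l' hl' hne.symm
    rw [h0]; unfold dt; simp
  have hΛne : Λ.Nonempty := Finset.card_pos.mp (by omega)
  obtain ⟨l0, hl0⟩ := hΛne
  have : Nonempty (Idx Λ Θ) := ⟨⟨Sum.inl l0, Finset.inl_mem_disjSum.mpr hl0⟩⟩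
  set f : Idx Λ Θ → ℤ × ℤ → ℤ := fun i => ev i.1 with hf
  set dg : Idx Λ Θ → ℕ := fun i => dgr i.1 with hdg
  have hnear : ∀ i, Near (f i) (dg i) := by
    rintro ⟨x, hx⟩
    rcases x with l | q
    · exact near_lf l (hlne l (Finset.inl_mem_disjSum.mp hx))
    · exact near_qf q (hq q (Finset.inr_mem_disjSum.mp hx))
  have hcls : ∀ i, Cls (f i) := by
    rintro ⟨x, hx⟩
    rcases x with l | q
    · exact cls_lf l (hlne l (Finset.inl_mem_disjSum.mp hx))
    · exact cls_qf q (hq q (Finset.inr_mem_disjSum.mp hx))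
  have hsep : ∀ i j, i ≠ j → Sep (f i) (f j) (dg i) (dg j) := by
    rintro ⟨x, hx⟩ ⟨y, hy⟩ hne
    rcases x with l | q <;> rcases y with l' | q'
    · apply sep_ll
      apply hind l (Finset.inl_mem_disjSum.mp hx) l' (Finset.inl_mem_disjSum.mp hy)
      rintro rfl; exact hne rfl
    · exact sep_lq l (hlne l (Finset.inl_mem_disjSum.mp hx)) q' (hq q' (Finset.inr_mem_disjSum.mp hy))
    · exact (sep_lq l' (hlne l' (Finset.inl_mem_disjSum.mp hy)) q
        (hq q (Finset.inr_mem_disjSum.mp hx))).symm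
    · apply sep_qq q q' (hq q (Finset.inr_mem_disjSum.mp hx))
      apply hqq q (Finset.inr_mem_disjSum.mp hx) q' (Finset.inr_mem_disjSum.mp hy)
      rintro rfl; exact hne rfl
  have hbdd : ∀ i, ∃ B : ℝ, 0 ≤ B ∧ ∀ w, |(f i w : ℝ)| ≤ B * hgt w ^ dg i := by
    rintro ⟨x, hx⟩
    rcases x with l | q
    · exact Bdd.lf l
    · exact Bdd.qf q
  choose B hB0 hB using hbdd
  set Cf : ℝ := ∏ i, (B i + 1) with hCf
  have hCf1 : 1 ≤ Cf := by
    rw [hCf]
    calc (1 : ℝ) = ∏ _i : Idx Λ Θ, (1 : ℝ) := by simp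
      _ ≤ ∏ i, (B i + 1) := Finset.prod_le_prod (fun _ _ => zero_le_one)
          (fun i _ => by have := hB0 i; linarith)
  set ε1 : ℝ := ε / (2 * (rn * η + γ + 1)) with hε1
  have hden1 : 0 < rn * η + γ + 1 := by positivity
  have hε10 : 0 < ε1 := by positivity
  set ε2 : ℝ := ε / (2 * (1 / rn + η + 1)) with hε2
  have hden2 : 0 < 1 / (rn : ℝ) + η + 1 := by positivity
  have hε20 : 0 < ε2 := by positivity
  obtain ⟨C1, hC1, hexc⟩ := excess_count f dg hnear hcls hsep ε1 hε10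
  set k : ℕ := Fintype.card (Idx Λ Θ) with hk
  have hkcard : k = Λ.card + Θ.card := card_idx Λ Θ
  have hsumdg : ∑ i, dg i = rn := by rw [hrn]; exact sum_idx Λ Θ
  set C3 : ℝ := 2 / ε2 + 1 with hC3
  have hC30 : 1 ≤ C3 := by have : 0 < 2 / ε2 := by positivity
                           linarith
  set CK : ℝ := (2 * Kc) ^ (rn - 2) with hCK
  have hCK1 : 1 ≤ CK := one_le_pow₀ (by linarith)
  have hCfk : 1 ≤ Cf ^ k := one_le_pow₀ hCf1
  have hCfe : 1 ≤ Cf ^ ε1 := Real.one_le_rpow hCf1 hε10.le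
  refine ⟨C3 * C1 * Cf ^ ε1 * (Cf ^ k + CK), ?_, ?_⟩
  · have h1 : 1 ≤ C3 * C1 * Cf ^ ε1 :=
      one_le_mul_of_one_le_of_one_le (one_le_mul_of_one_le_of_one_le hC30 hC1) hCfe
    exact one_le_mul_of_one_le_of_one_le h1 (by linarith)
  intro Y T hY hT
  have hY0 : 0 < Y := by linarith
  set X : ℝ := Y ^ (1 / (rn : ℝ) + η) with hX
  have hX1 : 1 ≤ X := Real.one_le_rpow hY (by positivity)
  set N : ℕ := ⌊X⌋₊ with hN
  have hN1 : 1 ≤ N := Nat.le_floor (by exact_mod_cast hX1)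
  have hNX : (N : ℝ) ≤ X := Nat.floor_le (by linarith)
  set Zr : ℝ := Cf * Y ^ (rn * η + γ) with hZr
  have hYp : 1 ≤ Y ^ (rn * η + γ) := Real.one_le_rpow hY (by positivity)
  have hZr1 : 1 ≤ Zr := one_le_mul_of_one_le_of_one_le hCf1 hYp
  set Z : ℕ := ⌊Zr⌋₊ with hZ
  have hZ1 : 1 ≤ Z := Nat.le_floor (by exact_mod_cast hZr1)
  have hZle : (Z : ℝ) ≤ Zr := Nat.floor_le (by linarith)
  -- values do not vanish
  have hne0 : ∀ w ∈ T, ∀ i, f i w ≠ 0 := by
    intro w hw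
    obtain ⟨h1, h2, _⟩ := hT w hw
    rintro ⟨x, hx⟩
    rcases x with l | q
    · exact h2 l (Finset.inl_mem_disjSum.mp hx)
    · apply qf_ne_zero q (hq q (Finset.inr_mem_disjSum.mp hx))
      intro h0
      rw [h0] at h1
      exact not_isCoprime_zero_zero h1
  have hradp : ∀ w, ∏ i, (rd (f i w).natAbs : ℝ) = (radp Λ Θ w : ℝ) := by
    intro w
    have h1 := prod_idx Λ Θ (fun x => (rd (ev x w).natAbs : ℝ))
    rw [h1]
    unfold radp
    push_cast
    rfl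
  -- the excess is bounded
  have hexcle : ∀ w ∈ T, ∀ i, exc (f i w).natAbs ≤ Z := by
    intro w hw i
    obtain ⟨h1, h2, h3, h4, h5, h6⟩ := hT w hw
    apply Nat.le_floor
    have e1 : ∏ j, (exc (f j w).natAbs : ℝ) * (rd (f j w).natAbs : ℝ) = ∏ j, |(f j w : ℝ)| := by
      apply Finset.prod_congr rfl
      intro j _
      rw [← natAbs_cast_abs, ← Nat.cast_mul, exc_mul_rd]
    rw [Finset.prod_mul_distrib, hradp] at e1
    have e2 : ∏ j, |(f j w : ℝ)| ≤ Cf * hgt w ^ rn := by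
      calc ∏ j, |(f j w : ℝ)| ≤ ∏ j, ((B j + 1) * hgt w ^ dg j) := by
            apply Finset.prod_le_prod
            · intro j _; exact abs_nonneg _
            · intro j _
              refine (hB j w).trans ?_
              apply mul_le_mul_of_nonneg_right _ (pow_nonneg (hgt_nonneg w) _)
              linarith
        _ = Cf * hgt w ^ rn := by
            rw [Finset.prod_mul_distrib, Finset.prod_pow_eq_pow_sum, hsumdg]
    have e3 : hgt w ^ rn ≤ Y ^ (1 + rn * η) := by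
      calc hgt w ^ rn ≤ X ^ rn := pow_le_pow_left₀ (hgt_nonneg w) h5 rn
        _ = Y ^ (1 + rn * η) := by
            rw [hX, ← Real.rpow_natCast, ← Real.rpow_mul hY0.le]
            congr 1
            field_simp
    have e4 : (∏ j, (exc (f j w).natAbs : ℝ)) * Y ^ (1 - γ) ≤ Zr * Y ^ (1 - γ) := by
      have g1 : (0 : ℝ) ≤ ∏ j, (exc (f j w).natAbs : ℝ) :=
        Finset.prod_nonneg (fun _ _ => Nat.cast_nonneg _)
      calc (∏ j, (exc (f j w).natAbs : ℝ)) * Y ^ (1 - γ)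
          ≤ (∏ j, (exc (f j w).natAbs : ℝ)) * (radp Λ Θ w : ℝ) := mul_le_mul_of_nonneg_left h3 g1
        _ = ∏ j, |(f j w : ℝ)| := e1
        _ ≤ Cf * hgt w ^ rn := e2
        _ ≤ Cf * Y ^ (1 + rn * η) := mul_le_mul_of_nonneg_left e3 (by linarith)
        _ = Zr * Y ^ (1 - γ) := by
            rw [hZr, mul_assoc, ← Real.rpow_add hY0]
            congr 2
            ring
    have e5 : (∏ j, (exc (f j w).natAbs : ℝ)) ≤ Zr := le_of_mul_le_mul_right e4 (by positivity)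
    refine le_trans ?_ e5
    have e6 : exc (f i w).natAbs ≤ ∏ j, exc (f j w).natAbs := by
      apply Nat.le_of_dvd
      · exact Finset.prod_pos (fun j _ => exc_pos (Int.natAbs_ne_zero.mpr (hne0 w hw j)))
      · exact Finset.dvd_prod_of_mem (fun j => exc (f j w).natAbs) (Finset.mem_univ i)
    exact_mod_cast e6
  -- dyadic decomposition
  set J : Finset ℕ := Finset.range (Nat.log 2 N + 1) with hJ
  set g : ℤ × ℤ → ℕ := fun w => Nat.log 2 (ht w) with hg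
  have hht1 : ∀ w ∈ T, 1 ≤ ht w := by
    intro w hw
    obtain ⟨h1, _⟩ := hT w hw
    by_contra h
    have h2 : ht w = 0 := by omega
    unfold ht at h2
    have h3 : w.1 = 0 := by
      apply Int.natAbs_eq_zero.mp; omega
    have h4 : w.2 = 0 := by
      apply Int.natAbs_eq_zero.mp; omega
    rw [h3, h4] at h1
    exact not_isCoprime_zero_zero h1
  have hmaps : ∀ w ∈ T, g w ∈ J := by
    intro w hw
    rw [hJ, Finset.mem_range]
    obtain ⟨_, _, _, _, h5, _⟩ := hT w hw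
    have h1 : ht w ≤ N := by
      apply Nat.le_floor
      rw [ht_cast]; exact h5
    exact Nat.lt_succ_of_le (Nat.log_mono_right h1)
  have hfib : ∀ j ∈ J, ((T.filter (fun w => g w = j)).card : ℝ) ≤
      C1 * (Z : ℝ) ^ ε1 * ((Z : ℝ) ^ k + CK * Y ^ (1 - ((rn : ℝ) - 2) * s)) := by
    intro j _
    set H : ℝ := (2 : ℝ) ^ j with hH
    have hH1 : 1 ≤ H := one_le_pow₀ (by norm_num)
    have hH0 : 0 < H := by linarith
    set R : ℝ := min Y ((Kc * (2 * H)) ^ (1 / s)) with hR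
    have hR0 : 0 ≤ R := le_min hY0.le (by positivity)
    have h1 := hexc H R Z (T.filter (fun w => g w = j)) hH1 hR0 hZ1 (by
      intro w hw
      rw [Finset.mem_filter] at hw
      obtain ⟨hwT, hgw⟩ := hw
      obtain ⟨k1, k2, k3, k4, k5, k6⟩ := hT w hwT
      have hw1 := hht1 w hwT
      simp only [hg] at hgw
      have g1 : 2 ^ j ≤ ht w := by rw [← hgw]; exact Nat.pow_log_le_self 2 (by omega)
      have g2 : ht w < 2 ^ (j + 1) := by rw [← hgw]; exact Nat.lt_pow_succ_log_self (by norm_num) _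
      have g1' : H ≤ hgt w := by rw [← ht_cast, hH]; exact_mod_cast g1
      have g2' : hgt w ≤ 2 * H := by
        rw [← ht_cast, hH]
        have : (ht w : ℝ) ≤ (2 : ℝ) ^ (j + 1) := by exact_mod_cast g2.le
        rw [pow_succ] at this
        linarith
      refine ⟨k1, g1', g2', hne0 w hwT, ?_, hexcle w hwT⟩
      rw [hradp]
      apply le_min k4
      have g3 : (radp Λ Θ w : ℝ) ^ s ≤ Kc * (2 * H) :=
        k6.trans (mul_le_mul_of_nonneg_left g2' (by linarith))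
      have g4 : ((radp Λ Θ w : ℝ) ^ s) ^ (1 / s) ≤ (Kc * (2 * H)) ^ (1 / s) :=
        Real.rpow_le_rpow (by positivity) g3 (by positivity)
      rw [← Real.rpow_mul (by positivity)] at g4
      have g5 : s * (1 / s) = 1 := by field_simp
      rw [g5, Real.rpow_one] at g4
      exact g4)
    rw [hsumdg] at h1
    refine h1.trans ?_
    have hZe : 0 ≤ C1 * (Z : ℝ) ^ ε1 := by positivity
    apply mul_le_mul_of_nonneg_left _ hZe
    apply add_le_add le_rfl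
    exact interp_bound rn hrn3 s Kc Y H hs hs1 hKc hY hH1
  have h1 : (T.card : ℝ) ≤ (J.card : ℝ) * (C1 * (Z : ℝ) ^ ε1 * ((Z : ℝ) ^ k +
      CK * Y ^ (1 - ((rn : ℝ) - 2) * s))) := by
    rw [Finset.card_eq_sum_card_fiberwise hmaps, Nat.cast_sum]
    refine (Finset.sum_le_sum hfib).trans (le_of_eq ?_)
    rw [Finset.sum_const, nsmul_eq_mul]
  refine h1.trans ?_
  have h2 : (J.card : ℝ) ≤ C3 * Y ^ (ε / 2) := by
    rw [hJ, Finset.card_range]
    refine (log_le_rpow ε2 hε20 N hN1).trans ?_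
    apply mul_le_mul_of_nonneg_left _ (by linarith)
    calc (N : ℝ) ^ ε2 ≤ X ^ ε2 := Real.rpow_le_rpow (Nat.cast_nonneg _) hNX hε20.le
      _ = Y ^ ((1 / (rn : ℝ) + η) * ε2) := by rw [hX, ← Real.rpow_mul hY0.le]
      _ ≤ Y ^ (ε / 2) := by
          apply Real.rpow_le_rpow_of_exponent_le hY
          rw [hε2]
          have : (1 / (rn : ℝ) + η) * (ε / (2 * (1 / rn + η + 1))) =
              ε / 2 * ((1 / (rn : ℝ) + η) / (1 / rn + η + 1)) := by field_simp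
          rw [this]
          have h3 : (1 / (rn : ℝ) + η) / (1 / rn + η + 1) ≤ 1 := by
            rw [div_le_one hden2]; linarith
          nlinarith
  have h3 : (Z : ℝ) ^ ε1 ≤ Cf ^ ε1 * Y ^ (ε / 2) := by
    calc (Z : ℝ) ^ ε1 ≤ Zr ^ ε1 := Real.rpow_le_rpow (Nat.cast_nonneg _) hZle hε10.le
      _ = Cf ^ ε1 * Y ^ ((rn * η + γ) * ε1) := by
          rw [hZr, Real.mul_rpow (by linarith) (by positivity), ← Real.rpow_mul hY0.le]
      _ ≤ Cf ^ ε1 * Y ^ (ε / 2) := by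
          apply mul_le_mul_of_nonneg_left _ (by linarith)
          apply Real.rpow_le_rpow_of_exponent_le hY
          rw [hε1]
          have : (rn * η + γ) * (ε / (2 * (rn * η + γ + 1))) =
              ε / 2 * ((rn * η + γ) / (rn * η + γ + 1)) := by field_simp
          rw [this]
          have h3 : (rn * η + γ) / (rn * η + γ + 1) ≤ 1 := by
            rw [div_le_one hden1]; linarith
          nlinarith
  have h4 : (Z : ℝ) ^ k ≤ Cf ^ k * Y ^ ω := by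
    calc (Z : ℝ) ^ k ≤ Zr ^ k := pow_le_pow_left₀ (Nat.cast_nonneg _) hZle k
      _ = Cf ^ k * Y ^ ((rn * η + γ) * k) := by
          rw [hZr, mul_pow, ← Real.rpow_natCast (Y ^ (rn * η + γ)), ← Real.rpow_mul hY0.le]
      _ ≤ Cf ^ k * Y ^ ω := by
          apply mul_le_mul_of_nonneg_left _ (by linarith)
          apply Real.rpow_le_rpow_of_exponent_le hY
          rw [hkcard, mul_comm]
          exact hω
  set U : ℝ := Y ^ ω with hU
  set V : ℝ := Y ^ (1 - ((rn : ℝ) - 2) * s) with hV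
  have hU0 : 0 < U := by positivity
  have hV0 : 0 < V := by positivity
  have hE0 : 0 < Y ^ (ε / 2) := by positivity
  have h5 : (Z : ℝ) ^ k + CK * V ≤ (Cf ^ k + CK) * (U + V) := by nlinarith
  have h6 : Y ^ (ε / 2) * Y ^ (ε / 2) = Y ^ ε := by
    rw [← Real.rpow_add hY0]; congr 1; ring
  calc (J.card : ℝ) * (C1 * (Z : ℝ) ^ ε1 * ((Z : ℝ) ^ k + CK * V))
      ≤ (C3 * Y ^ (ε / 2)) * (C1 * (Cf ^ ε1 * Y ^ (ε / 2)) * ((Cf ^ k + CK) * (U + V))) := by
        apply mul_le_mul h2 _ _ (by positivity)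
        · apply mul_le_mul _ h5 _ (by positivity)
          · exact mul_le_mul_of_nonneg_left h3 (by linarith)
          · have : (0 : ℝ) ≤ (Z : ℝ) ^ k := by positivity
            have : 0 ≤ CK * V := by positivity
            linarith
        · have : (0 : ℝ) ≤ (Z : ℝ) ^ k := by positivity
          have : 0 ≤ CK * V := by positivity
          positivity
    _ = C3 * C1 * Cf ^ ε1 * (Cf ^ k + CK) * (Y ^ (ε / 2) * Y ^ (ε / 2)) * (U + V) := by ring
    _ = _ := by rw [h6]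

end Fm

end Pool.Agent.Lib.MP_d8bd92_nt
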