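import Pool.Agent.Lib.MP_d8bd92_nt.FmV

/-! Part (3) of Theorem F (MP_d8bd92_nt): the count of vectors with large height. -/

set_option autoImplicit false

namespace Pool.Agent.Lib.MP_d8bd92_nt

open Finset Pool.Agent.Lib.Szpiro

namespace Fm

theorem core3 (Λ : Finset (ℤ × ℤ)) (Θ : Finset (ℤ × ℤ × ℤ)) (hs3 : 3 ≤ Λ.card)
    (hind : ∀ l ∈ Λ, ∀ l' ∈ Λ, l ≠ l' → dt l l' ≠ 0) (hq : ∀ q ∈ Θ, ¬ IsSquare (qdisc q))
    (hqq : ∀ q ∈ Θ, ∀ q' ∈ Θ, q ≠ q' → NProp q q') (r : ℝ) (hr : r = (Λ.card : ℝ) + 2 * Θ.card)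
    (κ : ℝ) (hκ : 1 ≤ κ) :
    ∃ s0 : ℝ, 1 / r < s0 ∧ s0 * (r - 1) < 1 ∧ ∀ s : ℝ, 1 / r ≤ s → s ≤ s0 → ∀ ε : ℝ, 0 < ε →
      ∀ Kc : ℝ, 1 ≤ Kc → ∃ C : ℝ, 1 ≤ C ∧ ∀ (Y : ℝ) (T : Finset (ℤ × ℤ)), 1 ≤ Y →
      (∀ w ∈ T, IsCoprime w.1 w.2 ∧ (∀ l ∈ Λ, lf l w ≠ 0) ∧ |(w.1 : ℝ)| ≤ Y ^ κ ∧
        |(w.2 : ℝ)| ≤ Y ^ κ ∧ (radp Λ Θ w : ℝ) ≤ Y ∧ (radp Λ Θ w : ℝ) ^ s ≤ Kc * hgt w) →
      (T.card : ℝ) ≤ C * Y ^ (1 - (r - 2) * s + ε) := by
  classical
  set rn : ℕ := Λ.card + 2 * Θ.card with hrn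
  have hrrn : r = (rn : ℝ) := by rw [hr, hrn]; push_cast; ring
  have hrn3 : 3 ≤ rn := by omega
  have hr3 : 3 ≤ r := by rw [hrrn]; exact_mod_cast hrn3
  have hr0 : 0 < r := by linarith
  have hr2 : 0 < r - 2 := by linarith
  set k : ℕ := Λ.card + Θ.card with hk
  have hk1 : 1 ≤ k := by omega
  have hkR : (1 : ℝ) ≤ (k : ℝ) := by exact_mod_cast hk1
  have hk0 : (0 : ℝ) < (k : ℝ) := by linarith
  set η : ℝ := 1 / (4 * r ^ 2 * k) with hη
  set γ : ℝ := 1 / (4 * r * k) with hγ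
  have hη0 : 0 < η := by positivity
  have hγ0 : 0 < γ := by positivity
  have hγ12 : γ ≤ 1 / 2 := by
    rw [hγ, div_le_div_iff₀ (by positivity) (by norm_num)]
    nlinarith
  have hω : ((k : ℕ) : ℝ) * (rn * η + γ) ≤ 1 / (2 * r) := by
    rw [← hrrn, hη, hγ]
    apply le_of_eq
    field_simp
    norm_num
  obtain ⟨CA, δA, hCA, hδA, hcoreA⟩ := core Λ Θ hs3 hind hq r hr κ η hκ hη0
  obtain ⟨CB, δB, hCB, hδB, hcoreB⟩ := core Λ Θ hs3 hind hq r hr (2 * κ) (γ / r) (by linarith)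
    (by positivity)
  set μ : ℝ := min (min δA (γ / r)) (1 / (4 * r)) with hμ
  have hμ0 : 0 < μ := lt_min (lt_min hδA (by positivity)) (by positivity)
  have hμA : μ ≤ δA := (min_le_left _ _).trans (min_le_left _ _)
  have hμB : μ ≤ γ / r := (min_le_left _ _).trans (min_le_right _ _)
  have hμC : μ ≤ 1 / (4 * r) := min_le_right _ _
  refine ⟨1 / r + μ / (r - 2), ?_, ?_, ?_⟩
  · have : 0 < μ / (r - 2) := by positivity
    linarith
  · have h1 : μ / (r - 2) * (r - 1) ≤ 2 * μ := by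
      rw [div_mul_eq_mul_div, div_le_iff₀ hr2]
      nlinarith
    have h2 : 1 / r * (r - 1) = 1 - 1 / r := by field_simp
    have h3 : 2 * μ ≤ 1 / (2 * r) := by
      have : 2 * (1 / (4 * r)) = 1 / (2 * r) := by field_simp; norm_num
      linarith
    have h4 : 1 / (2 * r) < 1 / r := by
      rw [div_lt_div_iff₀ (by positivity) hr0]
      linarith
    rw [add_mul, h2]
    linarith
  intro s hs1 hs2 ε hε Kc hKc
  have hs0 : 0 < s := lt_of_lt_of_le (by positivity) hs1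
  -- the exponent
  set E : ℝ := 1 - (r - 2) * s with hE
  have hElow : 2 / r - μ ≤ E := by
    have h1 : (r - 2) * s ≤ (r - 2) * (1 / r + μ / (r - 2)) := mul_le_mul_of_nonneg_left hs2 hr2.le
    have h2 : (r - 2) * (1 / r + μ / (r - 2)) = 1 - 2 / r + μ := by field_simp
    rw [hE]; linarith
  have hE1 : 1 / r ≤ E := by
    have h1 : 1 / (4 * r) ≤ 1 / r := by
      rw [div_le_div_iff₀ (by positivity) hr0]; linarith
    have h2 : 2 / r = 1 / r + 1 / r := by ring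
    linarith
  have hs12 : s * ((rn : ℝ) - 2) ≤ 1 := by
    rw [← hrrn]
    have : 0 < 1 / r := by positivity
    have h1 : E = 1 - s * (r - 2) := by rw [hE]; ring
    linarith
  obtain ⟨CS, hCS, hstrip⟩ := strip_part Λ Θ hs3 hind hq hqq rn rfl η γ (1 / (2 * r)) ε s Kc hη0 hγ0
    hω hε hs0 hs12 hKc
  refine ⟨CA + CB + 2 * CS, by linarith, ?_⟩
  intro Y T hY hT
  have hY0 : 0 < Y := by linarith
  set TA : Finset (ℤ × ℤ) := T.filter (fun w => Y ^ (1 / r + η) < hgt w) with hTA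
  set TB : Finset (ℤ × ℤ) := T.filter (fun w => (radp Λ Θ w : ℝ) ≤ Y ^ (1 - γ)) with hTB
  set TC : Finset (ℤ × ℤ) := T.filter (fun w => hgt w ≤ Y ^ (1 / r + η) ∧
    Y ^ (1 - γ) ≤ (radp Λ Θ w : ℝ)) with hTC
  have hcov : T ⊆ TA ∪ (TB ∪ TC) := by
    intro w hw
    rw [Finset.mem_union, Finset.mem_union]
    by_cases h1 : Y ^ (1 / r + η) < hgt w
    · left; exact Finset.mem_filter.mpr ⟨hw, h1⟩
    · right
      by_cases h2 : (radp Λ Θ w : ℝ) ≤ Y ^ (1 - γ)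
      · left; exact Finset.mem_filter.mpr ⟨hw, h2⟩
      · right
        exact Finset.mem_filter.mpr ⟨hw, not_lt.mp h1, (not_le.mp h2).le⟩
  have hrad1 : ∀ w, (1 : ℝ) ≤ (radp Λ Θ w : ℝ) := by
    intro w
    have : 0 < radp Λ Θ w := by
      unfold radp
      exact Nat.mul_pos (Finset.prod_pos (fun _ _ => rd_pos _)) (Finset.prod_pos (fun _ _ => rd_pos _))
    exact_mod_cast this
  have hA : (TA.card : ℝ) ≤ CA * Y ^ (2 / r - δA) := by
    apply (hcoreA Y TA hY ?_).2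
    · intro w hw
      rw [hTA, Finset.mem_filter] at hw
      obtain ⟨hwT, hlt⟩ := hw
      refine lt_of_le_of_lt ?_ hlt
      exact Real.rpow_le_rpow (by linarith [hrad1 w]) (hT w hwT).2.2.2.2.1 (by positivity)
    · intro w hw
      rw [hTA, Finset.mem_filter] at hw
      obtain ⟨h1, h2, h3, h4, h5, _⟩ := hT w hw.1
      exact ⟨h1, h2, h3, h4, h5⟩
  have hYB : 1 ≤ Y ^ (1 - γ) := Real.one_le_rpow hY (by linarith)
  have hB : (TB.card : ℝ) ≤ CB * (Y ^ (1 - γ)) ^ (2 / r + γ / r) := by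
    apply (hcoreB (Y ^ (1 - γ)) TB hYB ?_).1
    intro w hw
    rw [hTB, Finset.mem_filter] at hw
    obtain ⟨hwT, hle⟩ := hw
    obtain ⟨h1, h2, h3, h4, h5, _⟩ := hT w hwT
    have h6 : Y ^ κ ≤ (Y ^ (1 - γ)) ^ (2 * κ) := by
      rw [← Real.rpow_mul hY0.le]
      apply Real.rpow_le_rpow_of_exponent_le hY
      nlinarith
    exact ⟨h1, h2, h3.trans h6, h4.trans h6, hle⟩
  have hC : (TC.card : ℝ) ≤ CS * Y ^ ε * (Y ^ (1 / (2 * r)) + Y ^ E) := by
    have h1 := hstrip Y TC hY (by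
      intro w hw
      rw [hTC, Finset.mem_filter] at hw
      obtain ⟨hwT, g1, g2⟩ := hw
      obtain ⟨h1, h2, _, _, h5, h6⟩ := hT w hwT
      rw [← hrrn]
      exact ⟨h1, h2, g2, h5, g1, h6⟩)
    rw [← hrrn] at h1
    exact h1
  have hcard : (T.card : ℝ) ≤ TA.card + (TB.card + TC.card) := by
    have h1 := (Finset.card_le_card hcov).trans (Finset.card_union_le _ _)
    have h2 := Finset.card_union_le TB TC
    have h3 : T.card ≤ TA.card + (TB.card + TC.card) := by omega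
    exact_mod_cast h3
  set P : ℝ := Y ^ (E + ε) with hP
  have hP0 : 0 < P := by positivity
  have eA : Y ^ (2 / r - δA) ≤ P := Real.rpow_le_rpow_of_exponent_le hY (by linarith)
  have eB : (Y ^ (1 - γ)) ^ (2 / r + γ / r) ≤ P := by
    rw [← Real.rpow_mul hY0.le]
    apply Real.rpow_le_rpow_of_exponent_le hY
    have h1 : (1 - γ) * (2 / r + γ / r) = 2 / r - γ / r - γ * γ / r := by field_simp; ring
    rw [h1]
    have h2 : 0 ≤ γ * γ / r := by positivity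
    linarith
  have eC : Y ^ ε * (Y ^ (1 / (2 * r)) + Y ^ E) ≤ 2 * P := by
    have h1 : Y ^ (1 / (2 * r)) ≤ Y ^ E := by
      apply Real.rpow_le_rpow_of_exponent_le hY
      have : 1 / (2 * r) ≤ 1 / r := by
        rw [div_le_div_iff₀ (by positivity) hr0]; linarith
      linarith
    have h2 : Y ^ ε * Y ^ E = P := by
      rw [← Real.rpow_add hY0, hP]; congr 1; ring
    have h3 : 0 < Y ^ ε := by positivity
    nlinarith
  calc (T.card : ℝ) ≤ TA.card + (TB.card + TC.card) := hcard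
    _ ≤ CA * Y ^ (2 / r - δA) + (CB * (Y ^ (1 - γ)) ^ (2 / r + γ / r) +
        CS * Y ^ ε * (Y ^ (1 / (2 * r)) + Y ^ E)) := add_le_add hA (add_le_add hB hC)
    _ ≤ CA * P + (CB * P + CS * (2 * P)) := by
        apply add_le_add
        · exact mul_le_mul_of_nonneg_left eA (by linarith)
        · apply add_le_add
          · exact mul_le_mul_of_nonneg_left eB (by linarith)
          · rw [mul_assoc]
            exact mul_le_mul_of_nonneg_left eC (by linarith)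
    _ = (CA + CB + 2 * CS) * P := by ring

end Fm

end Pool.Agent.Lib.MP_d8bd92_nt
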