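import Pool.Agent.Lib.MP_d8bd92_nt.FmG
import Pool.Agent.Lib.MP_d8bd92_nt.FmFb
import Pool.Agent.Lib.MP_d8bd92_nt.FmW

/-! Part (3) of Theorem F (MP_d8bd92_nt): upper bounds for the curves with large Szpiro ratio. -/

set_option autoImplicit false

namespace Pool.Agent.Lib.MP_d8bd92_nt

open Finset Polynomial UniqueFactorizationMonoid Pool.Agent.Lib.Szpiro

namespace Fm

theorem family_upper3 (J1 J2 : ℤ[X])
    (hcop : IsCoprime (J1.map (Int.castRingHom ℚ)) (J2.map (Int.castRingHom ℚ))) (m : ℕ)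
    (hm1 : J1.natDegree ≤ m) (hm2 : J2.natDegree ≤ m) (hm3 : m = J1.natDegree ∨ m = J2.natDegree)
    (hmpos : 0 < m) (F : Finset ℚ[X])
    (hF : ∀ p, p ∈ F ↔ p ∈ normalizedFactors (J2.map (Int.castRingHom ℚ)))
    (hdeg : ∀ p ∈ F, p.natDegree ≤ 2) (r : ℝ)
    (hr : r = ((∑ p ∈ F, p.natDegree + (if J2.natDegree < m then 1 else 0) : ℕ) : ℝ))
    (hs : 3 ≤ (F.filter (fun p => p.natDegree = 1)).card + (if J2.natDegree < m then 1 else 0))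
    (κ : ℝ) (hκ : 1 ≤ κ) :
    ∃ s0 : ℝ, 1 / r < s0 ∧ s0 * (r - 1) < 1 ∧ ∀ s : ℝ, 1 / r ≤ s → s ≤ s0 → ∀ ε : ℝ, 0 < ε →
      ∃ C : ℝ, 1 ≤ C ∧ ∀ Y : ℝ, 1 ≤ Y →
        {x | Mem m J1 J2 (fun N D => (N : ℝ) ≤ Y ∧ (N : ℝ) ^ (m * s) ≤ (D : ℝ) ∧
          (D : ℝ) ≤ Y ^ κ) x}.Finite ∧
        ({x | Mem m J1 J2 (fun N D => (N : ℝ) ≤ Y ∧ (N : ℝ) ^ (m * s) ≤ (D : ℝ) ∧
          (D : ℝ) ≤ Y ^ κ) x}.ncard : ℝ) ≤ C * Y ^ (1 - (r - 2) * s + ε) := by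
  classical
  have hJ2 : J2 ≠ 0 := by
    intro h1
    rw [h1, Polynomial.map_zero] at hcop
    have h3 := natDegree_eq_zero_of_isUnit (isCoprime_zero_right.mp hcop)
    rw [natDegree_map_eq_of_injective (Int.castRingHom ℚ).injective_int] at h3
    rw [h1, natDegree_zero, h3] at hm3
    omega
  obtain ⟨Λ, Θ, M, hM, hind, hsq, hnp, hcard1, hcard2, hdata⟩ := forms_data2 J2 hJ2 m hm2 F hF hdeg
  obtain ⟨ρ0, hρ0, hgcd⟩ := gcd_bound J1 J2 hcop m hm1 hm2 hm3 hmpos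
  rw [← hcard1] at hs
  have hr' : r = (Λ.card : ℝ) + 2 * Θ.card := by
    rw [hr, ← hcard2]; push_cast; ring
  have hr3 : 3 ≤ r := by
    rw [hr']
    have h1 : (3 : ℝ) ≤ (Λ.card : ℝ) := by exact_mod_cast hs
    have h2 : (0 : ℝ) ≤ (Θ.card : ℝ) := Nat.cast_nonneg _
    linarith
  have hr0 : 0 < r := by linarith
  have hmR : (1 : ℝ) ≤ (m : ℝ) := by exact_mod_cast hmpos
  have hm0 : (0 : ℝ) < (m : ℝ) := by linarith
  have hκ0 : 0 < κ := by linarith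
  -- two independent linear forms
  obtain ⟨l1, hl1, l2, hl2, hl12⟩ := Finset.one_lt_card.mp (by omega : 1 < Λ.card)
  have hdt := hind l1 hl1 l2 hl2 hl12
  -- constants
  set n0 : ℕ := ρ0.natAbs with hn0
  have hn01 : 1 ≤ n0 := Int.natAbs_pos.mpr hρ0
  set K0 : ℕ := (M * n0) ^ (Λ.card + Θ.card) with hK0
  have hK01 : 1 ≤ K0 := Nat.one_le_pow _ _ (Nat.mul_pos (Nat.pos_of_ne_zero hM) hn01)
  set K1 : ℕ := n0 * (l1.1.natAbs + l1.2.natAbs + l2.1.natAbs + l2.2.natAbs) with hK1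
  set K : ℕ := K0 + K1 with hK
  have hK1' : 1 ≤ K := by omega
  have hKR : (1 : ℝ) ≤ (K : ℝ) := by exact_mod_cast hK1'
  have hK0R : (1 : ℝ) ≤ (K0 : ℝ) := by exact_mod_cast hK01
  obtain ⟨s0, hs01, hs02, hcore⟩ := core3 Λ Θ hs hind hsq hnp r hr' κ hκ
  refine ⟨s0, hs01, hs02, ?_⟩
  intro s hsa hsb ε hε
  have hspos : 0 < s := lt_of_lt_of_le (by positivity) hsa
  set Cs : ℝ := csum m J2 with hCs
  have hCs0 : 0 ≤ Cs := csum_nonneg _ _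
  set α : ℝ := m * s with hα
  have hα0 : 0 < α := by positivity
  set Kc : ℝ := ((K0 : ℝ) ^ α * (Cs + 1)) ^ (1 / (m : ℝ)) with hKc
  have hKc0 : 1 ≤ (K0 : ℝ) ^ α * (Cs + 1) := by
    have h1 := Real.one_le_rpow hK0R hα0.le
    nlinarith
  have hKc1 : 1 ≤ Kc := Real.one_le_rpow hKc0 (by positivity)
  obtain ⟨C1, hC1, hcore1⟩ := hcore s hsa hsb ε hε Kc hKc1
  set B : ℝ := 3 * (2 * n0 + 1) with hB
  have hB0 : 0 ≤ B := by positivity
  have hE0 : 0 ≤ 1 - (r - 2) * s + ε := by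
    have h1 : s * (r - 1) ≤ s0 * (r - 1) := mul_le_mul_of_nonneg_right hsb (by linarith)
    nlinarith
  set Ca : ℝ := C1 * (K : ℝ) ^ (1 - (r - 2) * s + ε) with hCa
  have hCa0 : 0 ≤ Ca := by positivity
  refine ⟨B * Ca + 1, ?_, ?_⟩
  · have : 0 ≤ B * Ca := by positivity
    linarith
  intro Y hY
  have hYpos : 0 < Y := by linarith
  set Y' : ℝ := K * Y with hY'
  have hY'1 : 1 ≤ Y' := by
    calc (1 : ℝ) = 1 * 1 := by ring
      _ ≤ K * Y := mul_le_mul hKR hY zero_le_one (by positivity)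
  set Z : ℕ := ⌊Y' ^ κ⌋₊ with hZ
  have hY'κ : 1 ≤ Y' ^ κ := Real.one_le_rpow hY'1 hκ0.le
  set T : Finset (ℤ × ℤ) := (Finset.Icc (-(Z : ℤ)) Z ×ˢ Finset.Icc (-(Z : ℤ)) Z).filter
    (fun w => IsCoprime w.1 w.2 ∧ (∀ l ∈ Λ, lf l w ≠ 0) ∧ |(w.1 : ℝ)| ≤ Y' ^ κ ∧
      |(w.2 : ℝ)| ≤ Y' ^ κ ∧ (radp Λ Θ w : ℝ) ≤ Y' ∧ (radp Λ Θ w : ℝ) ^ s ≤ Kc * hgt w) with hT
  have hTprop : ∀ w ∈ T, IsCoprime w.1 w.2 ∧ (∀ l ∈ Λ, lf l w ≠ 0) ∧ |(w.1 : ℝ)| ≤ Y' ^ κ ∧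
      |(w.2 : ℝ)| ≤ Y' ^ κ ∧ (radp Λ Θ w : ℝ) ≤ Y' ∧ (radp Λ Θ w : ℝ) ^ s ≤ Kc * hgt w := by
    intro w hw
    rw [hT, Finset.mem_filter] at hw
    exact hw.2
  -- radical comparison
  have hrad : ∀ D a b k : ℤ, IsCoprime a b → D ≠ 0 → k ≠ 0 → k ∣ ρ0 → hev m J2 a b = k * D →
      radp Λ Θ (a, b) ≤ K0 * rd D.natAbs := by
    intro D a b k hab hD hk hkρ hval
    obtain ⟨_, _, h3, _⟩ := hdata a b hab
    have h4 := h3 n0 D.natAbs (by omega) (Int.natAbs_ne_zero.mpr hD) (by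
      intro p hp hpn hpd
      rw [hval, Int.natAbs_mul] at hpd
      rcases (Nat.Prime.dvd_mul hp).mp hpd with h | h
      · exact absurd (h.trans (Int.natAbs_dvd_natAbs.mpr hkρ)) hpn
      · exact h)
    exact h4
  -- parameters of members belong to `T`
  have hmemT : ∀ D a b k : ℤ, IsCoprime a b → D ≠ 0 → k ≠ 0 → k ∣ ρ0 → hev m J2 a b = k * D →
      (rd D.natAbs : ℝ) ≤ Y → (rd D.natAbs : ℝ) ^ α ≤ (D.natAbs : ℝ) → (D.natAbs : ℝ) ≤ Y ^ κ →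
      (a, b) ∈ T := by
    intro D a b k hab hD hk hkρ hval hN hND hDY
    obtain ⟨h1, _, _, _⟩ := hdata a b hab
    have hne : hev m J2 a b ≠ 0 := by rw [hval]; exact mul_ne_zero hk hD
    have hlne : ∀ l ∈ Λ, lf l (a, b) ≠ 0 := by
      intro l hl h
      have := h1 l hl
      rw [h, zero_dvd_iff] at this
      exact hne this
    have hkle : k.natAbs ≤ n0 := Nat.le_of_dvd (by omega) (Int.natAbs_dvd_natAbs.mpr hkρ)
    have hlle : ∀ l ∈ Λ, ((lf l (a, b)).natAbs : ℝ) ≤ n0 * Y ^ κ := by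
      intro l hl
      have h2 : (lf l (a, b)).natAbs ≤ (k * D).natAbs := by
        rw [← hval]
        exact Nat.le_of_dvd (Int.natAbs_pos.mpr hne) (Int.natAbs_dvd_natAbs.mpr (h1 l hl))
      rw [Int.natAbs_mul] at h2
      calc ((lf l (a, b)).natAbs : ℝ) ≤ ((k.natAbs * D.natAbs : ℕ) : ℝ) := by exact_mod_cast h2
        _ = (k.natAbs : ℝ) * D.natAbs := by push_cast; ring
        _ ≤ n0 * Y ^ κ := by
            apply mul_le_mul _ hDY (by positivity) (by positivity)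
            exact_mod_cast hkle
    have hYκ0 : 0 ≤ Y ^ κ := by positivity
    have hone : (1 : ℝ) ≤ |(dt l1 l2 : ℝ)| := by
      rw [← natAbs_cast_abs]; exact_mod_cast Int.natAbs_pos.mpr hdt
    have hKY : (K1 : ℝ) * Y ^ κ ≤ Y' ^ κ := by
      rw [hY', Real.mul_rpow (by positivity) hYpos.le]
      apply mul_le_mul_of_nonneg_right _ hYκ0
      calc (K1 : ℝ) ≤ K := by rw [hK]; push_cast; linarith [Nat.cast_nonneg (α := ℝ) K0]
        _ = (K : ℝ) ^ (1 : ℝ) := (Real.rpow_one _).symm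
        _ ≤ (K : ℝ) ^ κ := Real.rpow_le_rpow_of_exponent_le hKR hκ
    have b1 := hlle l1 hl1
    have b2 := hlle l2 hl2
    rw [natAbs_cast_abs] at b1 b2
    have ha : |(a : ℝ)| ≤ Y' ^ κ := by
      refine le_trans ?_ hKY
      have e1 : (dt l1 l2 : ℝ) * (a : ℝ) = l2.2 * (lf l1 (a, b) : ℝ) - l1.2 * (lf l2 (a, b) : ℝ) := by
        simp only [dt, lf]; push_cast; ring
      have e2 : |(a : ℝ)| ≤ |(dt l1 l2 : ℝ)| * |(a : ℝ)| := by
        nlinarith [abs_nonneg (a : ℝ)]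
      rw [← abs_mul, e1] at e2
      refine e2.trans ((abs_sub _ _).trans ?_)
      rw [abs_mul, abs_mul, ← natAbs_cast_abs l2.2, ← natAbs_cast_abs l1.2]
      have c1 : (l2.2.natAbs : ℝ) * |(lf l1 (a, b) : ℝ)| ≤ l2.2.natAbs * (n0 * Y ^ κ) := by gcongr
      have c2 : (l1.2.natAbs : ℝ) * |(lf l2 (a, b) : ℝ)| ≤ l1.2.natAbs * (n0 * Y ^ κ) := by gcongr
      have c3 : (K1 : ℝ) = n0 * ((l1.1.natAbs : ℝ) + l1.2.natAbs + l2.1.natAbs + l2.2.natAbs) := by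
        rw [hK1]; push_cast; ring
      rw [c3]
      have c4 : 0 ≤ (n0 : ℝ) * Y ^ κ * ((l1.1.natAbs : ℝ) + l2.1.natAbs) := by positivity
      nlinarith
    have hb : |(b : ℝ)| ≤ Y' ^ κ := by
      refine le_trans ?_ hKY
      have e1 : (dt l1 l2 : ℝ) * (b : ℝ) = l1.1 * (lf l2 (a, b) : ℝ) - l2.1 * (lf l1 (a, b) : ℝ) := by
        simp only [dt, lf]; push_cast; ring
      have e2 : |(b : ℝ)| ≤ |(dt l1 l2 : ℝ)| * |(b : ℝ)| := by
        nlinarith [abs_nonneg (b : ℝ)]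
      rw [← abs_mul, e1] at e2
      refine e2.trans ((abs_sub _ _).trans ?_)
      rw [abs_mul, abs_mul, ← natAbs_cast_abs l1.1, ← natAbs_cast_abs l2.1]
      have c1 : (l1.1.natAbs : ℝ) * |(lf l2 (a, b) : ℝ)| ≤ l1.1.natAbs * (n0 * Y ^ κ) := by gcongr
      have c2 : (l2.1.natAbs : ℝ) * |(lf l1 (a, b) : ℝ)| ≤ l2.1.natAbs * (n0 * Y ^ κ) := by gcongr
      have c3 : (K1 : ℝ) = n0 * ((l1.1.natAbs : ℝ) + l1.2.natAbs + l2.1.natAbs + l2.2.natAbs) := by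
        rw [hK1]; push_cast; ring
      rw [c3]
      have c4 : 0 ≤ (n0 : ℝ) * Y ^ κ * ((l1.2.natAbs : ℝ) + l2.2.natAbs) := by positivity
      nlinarith
    have haZ : a.natAbs ≤ Z := by apply Nat.le_floor; rw [natAbs_cast_abs]; exact ha
    have hbZ : b.natAbs ≤ Z := by apply Nat.le_floor; rw [natAbs_cast_abs]; exact hb
    have h5 := hrad D a b k hab hD hk hkρ hval
    set H : ℝ := hgt (a, b) with hH
    have hH0 : 0 ≤ H := hgt_nonneg _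
    set ϱ : ℝ := (radp Λ Θ (a, b) : ℝ) with hϱ
    have hϱ0 : 0 ≤ ϱ := Nat.cast_nonneg _
    have h6 : ϱ ≤ K0 * (rd D.natAbs : ℝ) := by
      rw [hϱ]; exact_mod_cast h5
    have h7 : ϱ ^ α ≤ ((K0 : ℝ) ^ α * (Cs + 1)) * H ^ (m : ℝ) := by
      have g1 : ϱ ^ α ≤ (K0 : ℝ) ^ α * (rd D.natAbs : ℝ) ^ α := by
        rw [← Real.mul_rpow (by positivity) (by positivity)]
        exact Real.rpow_le_rpow hϱ0 h6 hα0.le
      have g2 : (D.natAbs : ℝ) ≤ Cs * H ^ (m : ℝ) := by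
        have g3 : |((hev m J2 a b : ℤ) : ℝ)| ≤ Cs * H ^ m :=
          abs_hev_le m J2 a b H (le_max_left _ _) (le_max_right _ _)
        rw [hval, ← natAbs_cast_abs, Int.natAbs_mul] at g3
        push_cast at g3
        rw [Real.rpow_natCast]
        refine le_trans ?_ g3
        have g4 : (1 : ℝ) ≤ (k.natAbs : ℝ) := by exact_mod_cast Int.natAbs_pos.mpr hk
        have g5 : (0 : ℝ) ≤ (D.natAbs : ℝ) := Nat.cast_nonneg _
        exact le_mul_of_one_le_left g5 g4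
      calc ϱ ^ α ≤ (K0 : ℝ) ^ α * (rd D.natAbs : ℝ) ^ α := g1
        _ ≤ (K0 : ℝ) ^ α * (Cs * H ^ (m : ℝ)) := by
            apply mul_le_mul_of_nonneg_left (hND.trans g2) (by positivity)
        _ ≤ (K0 : ℝ) ^ α * ((Cs + 1) * H ^ (m : ℝ)) := by
            have : 0 ≤ H ^ (m : ℝ) := by positivity
            gcongr
            linarith
        _ = _ := by ring
    have h8 : ϱ ^ s ≤ Kc * H := by
      have g1 : (ϱ ^ α) ^ (1 / (m : ℝ)) ≤ (((K0 : ℝ) ^ α * (Cs + 1)) * H ^ (m : ℝ)) ^ (1 / (m : ℝ)) :=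
        Real.rpow_le_rpow (by positivity) h7 (by positivity)
      rw [← Real.rpow_mul hϱ0, Real.mul_rpow (by linarith) (by positivity),
        ← Real.rpow_mul hH0] at g1
      have g2 : (m : ℝ) * (1 / (m : ℝ)) = 1 := by field_simp
      have g3 : α * (1 / (m : ℝ)) = s := by rw [hα]; field_simp
      rw [g2, g3, Real.rpow_one] at g1
      exact g1
    rw [hT, Finset.mem_filter, Finset.mem_product, Finset.mem_Icc, Finset.mem_Icc]
    refine ⟨⟨by omega, by omega⟩, hab, hlne, ha, hb, ?_, h8⟩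
    calc (radp Λ Θ (a, b) : ℝ) ≤ K0 * (rd D.natAbs : ℝ) := h6
      _ ≤ K * Y := by
          apply mul_le_mul _ hN (by positivity) (by positivity)
          rw [hK]; push_cast; linarith [Nat.cast_nonneg (α := ℝ) K1]
  have h1 := transfer m J1 J2 ρ0 hρ0 hgcd (fun N D => (N : ℝ) ≤ Y ∧ (N : ℝ) ^ α ≤ (D : ℝ) ∧
      (D : ℝ) ≤ Y ^ κ) T (by
    intro x y D a b k hab _ hD _ _ hk hkρ e1 _ hP
    exact hmemT D a b k hab hD hk hkρ e1 hP.1 hP.2.1 hP.2.2)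
  refine ⟨h1.1, h1.2.trans ?_⟩
  have h2 := hcore1 Y' T hY'1 hTprop
  have h3 : C1 * Y' ^ (1 - (r - 2) * s + ε) = Ca * Y ^ (1 - (r - 2) * s + ε) := by
    rw [hY', Real.mul_rpow (by positivity) hYpos.le, ← mul_assoc]
  have h4 : 0 ≤ Y ^ (1 - (r - 2) * s + ε) := by positivity
  calc 3 * (2 * (ρ0.natAbs : ℝ) + 1) * (T.card : ℝ) ≤ B * (Ca * Y ^ (1 - (r - 2) * s + ε)) := by
        apply mul_le_mul_of_nonneg_left (h2.trans h3.le) hB0
    _ = B * Ca * Y ^ (1 - (r - 2) * s + ε) := by ring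
    _ ≤ _ := by
        apply mul_le_mul_of_nonneg_right _ h4
        linarith

end Fm

end Pool.Agent.Lib.MP_d8bd92_nt
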