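import Pool.Agent.Lib.MP_d8bd92_nt.FmJ
import Pool.Agent.Lib.MP_d8bd92_nt.FmS
import Pool.Agent.Lib.MP_d8bd92_nt.FmY

/-! Part (3) of Theorem F (MP_d8bd92_nt), assembly: the distribution of the Szpiro ratio. -/

set_option autoImplicit false

namespace Pool.Agent.Lib.MP_d8bd92_nt

open Finset Polynomial UniqueFactorizationMonoid

namespace Fm

/-- the pairs `(c₄, c₆)` of the semistable members of the family with a condition on the conductor and
the discriminant -/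
def CSet (J₁ J₂ : ℚ[X]) (P : ℝ → ℝ → Prop) : Set (ℤ × ℤ) :=
  {x | ∃ W : WeierstrassCurve ℤ, W.c₄ = x.1 ∧ W.c₆ = x.2 ∧ W.Δ ≠ 0 ∧ IsCoprime W.c₄ W.Δ ∧
    (∃ t : ℚ, J₂.eval t ≠ 0 ∧ (W.c₄ : ℚ) ^ 3 / (W.Δ : ℚ) = J₁.eval t / J₂.eval t) ∧
    P ((∏ p ∈ W.Δ.natAbs.primeFactors, p : ℕ) : ℝ) (W.Δ.natAbs : ℝ)}

/-- the distribution of the Szpiro ratio in the families of Theorem F -/
theorem family3 (J₁ J₂ A B : ℚ[X]) (c c' : ℚ) (n : ℕ) (r : ℝ) (hcop : IsCoprime J₁ J₂) (hn : 0 < n)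
    (hm : max J₁.natDegree J₂.natDegree = 6 * n) (hc : c ≠ 0) (hc' : c' ≠ 0)
    (hA : J₁ = C c * A ^ 3) (hB : J₁ - C 1728 * J₂ = C c' * B ^ 2)
    (hdeg : ∀ p : ℚ[X], Irreducible p → p ∣ J₂ → p.natDegree ≤ 2)
    (h3 : 3 ≤ J₂.roots.toFinset.card + (if J₂.natDegree < J₁.natDegree then 1 else 0))
    (hr : r = ((J₂.aroots ℂ).toFinset.card + (if J₂.natDegree < J₁.natDegree then 1 else 0) : ℕ))
    (hne : (CSet J₁ J₂ (fun _ _ => True)).Nonempty) :
    (n : ℝ) < r ∧ ∀ κ : ℝ, 6 * n / r < κ → ∃ σ₀ : ℝ, 6 * n / r < σ₀ ∧ ∀ σ ε : ℝ, σ ≤ σ₀ → 0 < ε →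
      ∃ c C Y₀ : ℝ, 0 < c ∧ ∀ Y : ℝ, Y₀ ≤ Y →
        (CSet J₁ J₂ (fun N D => N ≤ Y ∧ N ^ σ ≤ D ∧ D ≤ Y ^ κ)).Finite ∧
        c * Y ^ (min (2 / r) (1 - (r - 2) * σ / (6 * n))) ≤
          ((CSet J₁ J₂ (fun N D => N ≤ Y ∧ N ^ σ ≤ D ∧ D ≤ Y ^ κ)).ncard : ℝ) ∧
        ((CSet J₁ J₂ (fun N D => N ≤ Y ∧ N ^ σ ≤ D ∧ D ≤ Y ^ κ)).ncard : ℝ) ≤
          C * Y ^ (min (2 / r) (1 - (r - 2) * σ / (6 * n)) + ε) := by
  classical
  have hJ2ne : J₂ ≠ 0 := by
    rintro rfl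
    have h1 : IsUnit J₁ := isCoprime_zero_right.mp hcop
    have h2 := natDegree_eq_zero_of_isUnit h1
    rw [natDegree_zero, h2] at hm
    simp at hm
    omega
  obtain ⟨p1, n1, hn1, hp1⟩ := exists_int_poly J₁
  obtain ⟨p2, n2, hn2, hp2⟩ := exists_int_poly J₂
  set φ := Int.castRingHom ℚ with hφ
  set F1 : ℤ[X] := C n2 * p1 with hF1
  set F2 : ℤ[X] := C n1 * p2 with hF2
  set e : ℚ := (n1 : ℚ) * n2 with he
  have he0 : e ≠ 0 := by
    have h1 : (n1 : ℚ) ≠ 0 := by exact_mod_cast hn1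
    have h2 : (n2 : ℚ) ≠ 0 := by exact_mod_cast hn2
    exact mul_ne_zero h1 h2
  have hF1m : F1.map φ = C e * J₁ := by
    rw [hF1, Polynomial.map_mul, map_C, hp1, he, C_mul]
    simp only [hφ, eq_intCast]
    ring
  have hF2m : F2.map φ = C e * J₂ := by
    rw [hF2, Polynomial.map_mul, map_C, hp2, he, C_mul]
    simp only [hφ, eq_intCast]
    ring
  have hu : IsUnit (C e : ℚ[X]) := isUnit_C.mpr (isUnit_iff_ne_zero.mpr he0)
  have hcopF : IsCoprime (F1.map φ) (F2.map φ) := by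
    rw [hF1m, hF2m]
    exact (isCoprime_mul_unit_left_left hu _ _).mpr ((isCoprime_mul_unit_left_right hu _ _).mpr hcop)
  have hd1 : F1.natDegree = J₁.natDegree := by
    rw [← natDegree_map_eq_of_injective φ.injective_int F1, hF1m, natDegree_C_mul he0]
  have hd2 : F2.natDegree = J₂.natDegree := by
    rw [← natDegree_map_eq_of_injective φ.injective_int F2, hF2m, natDegree_C_mul he0]
  have hm1 : F1.natDegree ≤ 6 * n := by rw [hd1, ← hm]; exact le_max_left _ _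
  have hm2 : F2.natDegree ≤ 6 * n := by rw [hd2, ← hm]; exact le_max_right _ _
  have hm3 : 6 * n = F1.natDegree ∨ 6 * n = F2.natDegree := by
    rw [hd1, hd2, ← hm]
    exact max_choice _ _
  have hmpos : 0 < 6 * n := by omega
  have hassoc : Associated J₂ (F2.map φ) := by
    rw [hF2m, mul_comm]
    exact associated_mul_unit_right _ _ hu
  set F : Finset ℚ[X] := primeFactors J₂ with hF
  have hmemF : ∀ p, p ∈ F ↔ p ∈ normalizedFactors (F2.map φ) := by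
    intro p
    rw [hF, mem_primeFactors, hassoc.normalizedFactors_eq]
  have hdegF : ∀ p ∈ F, p.natDegree ≤ 2 := by
    intro p hp
    rw [hF, mem_primeFactors] at hp
    exact hdeg p (irreducible_of_normalized_factor p hp) (dvd_of_mem_normalizedFactors hp)
  -- the point at infinity
  have hinf : (if J₂.natDegree < J₁.natDegree then 1 else 0 : ℕ) =
      (if F2.natDegree < 6 * n then 1 else 0) := by
    rw [hd2]
    by_cases h : J₂.natDegree < J₁.natDegree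
    · have h1 : J₁.natDegree = 6 * n := by rw [← hm]; exact (max_eq_left h.le).symm
      rw [if_pos h, if_pos (by omega)]
    · have h1 : J₂.natDegree = 6 * n := by rw [← hm]; exact (max_eq_right (not_lt.mp h)).symm
      rw [if_neg h, if_neg (by omega)]
  rw [hinf, card_roots_eq J₂ hJ2ne, ← hF] at h3
  rw [hinf, card_aroots_eq J₂ hJ2ne, ← hF] at hr
  have hnc : 0 < J₁.natDegree ∨ 0 < J₂.natDegree := by
    rcases hm3 with h | h
    · left; omega
    · right; omega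
  have hmason := mason_general J₁ J₂ A B c c' hcop hnc hc hc' hA hB
  have hradF : (radical J₂).natDegree = ∑ p ∈ F, p.natDegree := by
    rw [show radical J₂ = ∏ p ∈ F, p from rfl, natDegree_prod]
    intro p hp
    exact (irreducible_of_normalized_factor p (mem_primeFactors.mp hp)).ne_zero
  have hnr : n + 1 ≤ ∑ p ∈ F, p.natDegree := by
    rw [hradF] at hmason
    rcases hm3 with h | h
    · have := hmason.1; omega
    · have := hmason.2; omega
  have hnrR : (n : ℝ) + 1 ≤ r := by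
    rw [hr]
    push_cast
    have h1 : ((n + 1 : ℕ) : ℝ) ≤ ((∑ p ∈ F, p.natDegree : ℕ) : ℝ) := by exact_mod_cast hnr
    push_cast at h1
    have h2 : (0 : ℝ) ≤ (if F2.natDegree < 6 * n then (1 : ℝ) else 0) := by split_ifs <;> norm_num
    linarith
  have hn1R : (1 : ℝ) ≤ n := by exact_mod_cast hn
  have hr1 : (1 : ℝ) ≤ r := by linarith
  have hrpos : (0 : ℝ) < r := by linarith
  -- `r ≤ 6 n`
  have hr6 : r ≤ 6 * n := by
    have h1 : (∑ p ∈ F, p.natDegree) ≤ J₂.natDegree := by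
      rw [← hradF]
      exact natDegree_le_of_dvd radical_dvd_self hJ2ne
    have h2 : (∑ p ∈ F, p.natDegree + (if F2.natDegree < 6 * n then 1 else 0)) ≤ 6 * n := by
      rw [hd2] at hm2 ⊢
      split_ifs <;> omega
    rw [hr]
    exact_mod_cast h2
  refine ⟨by linarith, ?_⟩
  intro κ hκ
  have hκ1 : 1 ≤ κ := by
    refine le_trans ?_ hκ.le
    rw [le_div_iff₀ hrpos, one_mul]
    exact hr6
  have hr3 : (3 : ℝ) ≤ r := by
    rw [hr]
    have h1 : (F.filter (fun p => p.natDegree = 1)).card ≤ ∑ p ∈ F, p.natDegree := by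
      rw [Finset.card_eq_sum_ones]
      refine le_trans (le_of_eq ?_) (Finset.sum_le_sum_of_subset (Finset.filter_subset
        (fun p : ℚ[X] => p.natDegree = 1) F))
      apply Finset.sum_congr rfl
      intro p hp
      exact (Finset.mem_filter.mp hp).2.symm
    have h2 : 3 ≤ ∑ p ∈ F, p.natDegree + (if F2.natDegree < 6 * n then 1 else 0) := by omega
    exact_mod_cast h2
  have hs1 : 1 ≤ (F.filter (fun p => p.natDegree = 1)).card +
      (if F2.natDegree < 6 * n then 1 else 0) := by omega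
  have h6n : (0 : ℝ) < 6 * n := by linarith
  obtain ⟨s0, hs01, hs02, hup3⟩ := family_upper3 F1 F2 hcopF (6 * n) hm1 hm2 hm3 hmpos F hmemF hdegF r
    hr h3 κ hκ1
  -- the rational point from the curve
  have hrel : ∀ (W : WeierstrassCurve ℤ) (t : ℚ), W.Δ ≠ 0 → J₂.eval t ≠ 0 →
      (W.c₄ : ℚ) ^ 3 / (W.Δ : ℚ) = J₁.eval t / J₂.eval t →
      IsCoprime t.num (t.den : ℤ) ∧ (1 : ℤ) ≤ t.den ∧
        hev (6 * n) F1 t.num (t.den : ℤ) * W.Δ = hev (6 * n) F2 t.num (t.den : ℤ) * W.c₄ ^ 3 := by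
    intro W t hΔ hJ2 hj
    have hden0 : 0 < t.den := t.den_pos
    have hdenZ : (1 : ℤ) ≤ (t.den : ℤ) := by exact_mod_cast hden0
    refine ⟨?_, hdenZ, ?_⟩
    · have h1 := t.reduced
      rw [Int.isCoprime_iff_gcd_eq_one]
      simpa [Int.gcd] using h1
    · have hdq : ((t.den : ℤ) : ℚ) ≠ 0 := by
        have : (t.den : ℤ) ≠ 0 := by omega
        exact_mod_cast this
      have htq : ((t.num : ℤ) : ℚ) / ((t.den : ℤ) : ℚ) = t := by
        push_cast
        exact Rat.num_div_den t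
      have e1 : ((hev (6 * n) F1 t.num (t.den : ℤ) : ℤ) : ℚ) =
          ((t.den : ℤ) : ℚ) ^ (6 * n) * (e * J₁.eval t) := by
        have h1 := hev_map φ (6 * n) F1 t.num (t.den : ℤ)
        simp only [hφ, eq_intCast] at h1
        rw [← h1, hev_eq_eval (6 * n) _ (natDegree_map_le.trans hm1) _ _ hdq, htq]
        rw [hφ] at hF1m
        rw [hF1m, eval_mul, eval_C]
      have e2 : ((hev (6 * n) F2 t.num (t.den : ℤ) : ℤ) : ℚ) =
          ((t.den : ℤ) : ℚ) ^ (6 * n) * (e * J₂.eval t) := by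
        have h1 := hev_map φ (6 * n) F2 t.num (t.den : ℤ)
        simp only [hφ, eq_intCast] at h1
        rw [← h1, hev_eq_eval (6 * n) _ (natDegree_map_le.trans hm2) _ _ hdq, htq]
        rw [hφ] at hF2m
        rw [hF2m, eval_mul, eval_C]
      have hΔq : (W.Δ : ℚ) ≠ 0 := by exact_mod_cast hΔ
      have e3 : J₁.eval t * (W.Δ : ℚ) = J₂.eval t * (W.c₄ : ℚ) ^ 3 := by
        rw [div_eq_div_iff hΔq hJ2] at hj
        linear_combination -hj
      have e4 : ((hev (6 * n) F1 t.num (t.den : ℤ) * W.Δ : ℤ) : ℚ) =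
          ((hev (6 * n) F2 t.num (t.den : ℤ) * W.c₄ ^ 3 : ℤ) : ℚ) := by
        push_cast at e1 e2 ⊢
        rw [e1, e2]
        linear_combination ((t.den : ℚ) ^ (6 * n) * e) * e3
      exact_mod_cast e4
  -- and back
  have hback : ∀ (W : WeierstrassCurve ℤ) (a b : ℤ), W.Δ ≠ 0 → 1 ≤ b →
      hev (6 * n) F1 a b * W.Δ = hev (6 * n) F2 a b * W.c₄ ^ 3 →
      ∃ t : ℚ, J₂.eval t ≠ 0 ∧ (W.c₄ : ℚ) ^ 3 / (W.Δ : ℚ) = J₁.eval t / J₂.eval t := by
    intro W a b hΔ hb hev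
    have hbq : (b : ℚ) ≠ 0 := by
      have : b ≠ 0 := by omega
      exact_mod_cast this
    have hbm : (b : ℚ) ^ (6 * n) * e ≠ 0 := mul_ne_zero (pow_ne_zero _ hbq) he0
    set t : ℚ := (a : ℚ) / (b : ℚ) with ht
    have e1 : ((Lib.MP_d8bd92_nt.hev (6 * n) F1 a b : ℤ) : ℚ) =
        (b : ℚ) ^ (6 * n) * (e * J₁.eval t) := by
      have h1 := hev_map φ (6 * n) F1 a b
      simp only [hφ, eq_intCast] at h1
      rw [← h1, hev_eq_eval (6 * n) _ (natDegree_map_le.trans hm1) _ _ hbq]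
      rw [hφ] at hF1m
      rw [hF1m, eval_mul, eval_C]
    have e2 : ((Lib.MP_d8bd92_nt.hev (6 * n) F2 a b : ℤ) : ℚ) =
        (b : ℚ) ^ (6 * n) * (e * J₂.eval t) := by
      have h1 := hev_map φ (6 * n) F2 a b
      simp only [hφ, eq_intCast] at h1
      rw [← h1, hev_eq_eval (6 * n) _ (natDegree_map_le.trans hm2) _ _ hbq]
      rw [hφ] at hF2m
      rw [hF2m, eval_mul, eval_C]
    have hΔq : (W.Δ : ℚ) ≠ 0 := by exact_mod_cast hΔ
    have e3 : ((b : ℚ) ^ (6 * n) * e) * (J₁.eval t * (W.Δ : ℚ)) =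
        ((b : ℚ) ^ (6 * n) * e) * (J₂.eval t * (W.c₄ : ℚ) ^ 3) := by
      have h1 : ((Lib.MP_d8bd92_nt.hev (6 * n) F1 a b : ℤ) : ℚ) * (W.Δ : ℚ) =
          ((Lib.MP_d8bd92_nt.hev (6 * n) F2 a b : ℤ) : ℚ) * (W.c₄ : ℚ) ^ 3 := by exact_mod_cast hev
      rw [e1, e2] at h1
      linear_combination h1
    have e4 := mul_left_cancel₀ hbm e3
    have hJ2t : J₂.eval t ≠ 0 := by
      intro h0
      rw [h0, zero_mul] at e4
      have h1 : J₁.eval t = 0 := by
        rcases mul_eq_zero.mp e4 with h | h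
        · exact h
        · exact absurd h hΔq
      obtain ⟨u, v, huv⟩ := hcop
      have h2 := congrArg (Polynomial.eval t) huv
      rw [eval_add, eval_mul, eval_mul, h0, h1, mul_zero, mul_zero, add_zero, eval_one] at h2
      exact zero_ne_one h2
    refine ⟨t, hJ2t, ?_⟩
    rw [div_eq_div_iff hΔq hJ2t]
    linear_combination -e4
  obtain ⟨W0, h01, h02, hΔ0, hss0, ⟨t0, ht0, hj0⟩, _⟩ := hne.some_mem
  obtain ⟨hab0, hb0, hj0'⟩ := hrel W0 t0 hΔ0 ht0 hj0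
  have hB' : (F1 - C 1728 * F2).map φ = C (e * c') * B ^ 2 := by
    have h1 : (C (1728 : ℤ) : ℤ[X]).map φ = C (1728 : ℚ) := by
      rw [map_C]; simp [hφ]
    have h2 : (F1 - C 1728 * F2).map φ = F1.map φ - (C (1728 : ℤ) : ℤ[X]).map φ * F2.map φ := by
      rw [← Polynomial.map_mul, ← Polynomial.map_sub]
    rw [h2, h1, hF1m, hF2m, show C (e * c') = C e * C c' from C_mul, mul_assoc, ← hB]
    ring
  have hA' : F1.map φ = C (e * c) * A ^ 3 := by
    rw [hF1m, show C (e * c) = C e * C c from C_mul, mul_assoc, ← hA]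
  refine ⟨min (6 * n * s0) ((6 * n / r + κ) / 2), ?_, ?_⟩
  · apply lt_min
    · have h1 : (6 * n : ℝ) * (1 / r) < 6 * n * s0 := mul_lt_mul_of_pos_left hs01 h6n
      have h2 : (6 * n : ℝ) * (1 / r) = 6 * n / r := by ring
      linarith
    · linarith
  intro σ ε hσ hε
  have hσa : σ ≤ 6 * n * s0 := hσ.trans (min_le_left _ _)
  have hσb : σ ≤ (6 * n / r + κ) / 2 := hσ.trans (min_le_right _ _)
  set τ : ℝ := max σ (6 * n / r) with hτ
  set s : ℝ := τ / (6 * n) with hs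
  have hτs : 6 * n * s = τ := by rw [hs]; field_simp
  have hsr : 1 / r ≤ s := by
    rw [hs, le_div_iff₀ h6n]
    refine le_trans (le_of_eq ?_) (le_max_right σ (6 * n / r))
    ring
  have hss0' : s ≤ s0 := by
    rw [hs, div_le_iff₀ h6n, hτ]
    apply max_le
    · rw [mul_comm]; exact hσa
    · have h1 : (6 * n : ℝ) * (1 / r) < 6 * n * s0 := mul_lt_mul_of_pos_left hs01 h6n
      have h2 : (6 * n : ℝ) * (1 / r) = 6 * n / r := by ring
      linarith
  have hτκ : τ < κ := by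
    rw [hτ]
    apply max_lt <;> linarith
  have hs0r : s * (r - 1) < 1 := lt_of_le_of_lt (mul_le_mul_of_nonneg_right hss0' (by linarith)) hs02
  have hE : min (2 / r) (1 - (r - 2) * σ / (6 * n)) = 1 - (r - 2) * s := by
    rcases le_total σ (6 * n / r) with h | h
    · have h1 : τ = 6 * n / r := max_eq_right h
      have h2 : 1 - (r - 2) * s = 2 / r := by rw [hs, h1]; field_simp; ring
      rw [h2]
      apply min_eq_left
      have h4 : (r - 2) * σ / (6 * n) ≤ (r - 2) * (6 * n / r) / (6 * n) := by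
        apply div_le_div_of_nonneg_right _ h6n.le
        exact mul_le_mul_of_nonneg_left h (by linarith)
      have h5 : (r - 2) * (6 * n / r) / (6 * n) = 1 - 2 / r := by field_simp
      linarith
    · have h1 : τ = σ := max_eq_left h
      have h2 : 1 - (r - 2) * s = 1 - (r - 2) * σ / (6 * n) := by rw [hs, h1]; ring
      rw [h2]
      apply min_eq_right
      have h4 : (r - 2) * (6 * n / r) / (6 * n) ≤ (r - 2) * σ / (6 * n) := by
        apply div_le_div_of_nonneg_right _ h6n.le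
        exact mul_le_mul_of_nonneg_left h (by linarith)
      have h5 : (r - 2) * (6 * n / r) / (6 * n) = 1 - 2 / r := by field_simp
      linarith
  rw [hE]
  -- lower bound
  obtain ⟨c1, Y1, hc1, hY1, hlow⟩ := family_lower3 F1 F2 hcopF n hm1 hm2 hm3 hmpos F hmemF hdegF r
    hr1 hr hs1 A B (e * c) (e * c') (mul_ne_zero he0 hc) (mul_ne_zero he0 hc') hA' hB' W0 hΔ0 hss0
    t0.num (t0.den : ℤ) hab0 hj0' s κ hsr hs0r (by rw [hτs]; exact hτκ)
  -- upper bound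
  have hupper : ∃ C0 : ℝ, ∀ Y : ℝ, 1 ≤ Y →
      (CSet J₁ J₂ (fun N D => N ≤ Y ∧ N ^ σ ≤ D ∧ D ≤ Y ^ κ)).Finite ∧
      ((CSet J₁ J₂ (fun N D => N ≤ Y ∧ N ^ σ ≤ D ∧ D ≤ Y ^ κ)).ncard : ℝ) ≤
        C0 * Y ^ (1 - (r - 2) * s + ε) := by
    rcases le_total σ (6 * n / r) with h | h
    · have h1 : τ = 6 * n / r := max_eq_right h
      have h2 : 1 - (r - 2) * s = 2 / r := by rw [hs, h1]; field_simp; ring
      obtain ⟨C0, δ, hC0, hδ, hup⟩ := family_upper F1 F2 hcopF (6 * n) hm1 hm2 hm3 hmpos F hmemF hdegF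
        r hr h3 κ ε hκ1 hε
      refine ⟨C0, ?_⟩
      intro Y hY
      obtain ⟨⟨hfin, hcard⟩, _⟩ := hup Y hY
      have hsub : CSet J₁ J₂ (fun N D => N ≤ Y ∧ N ^ σ ≤ D ∧ D ≤ Y ^ κ) ⊆
          {x | Mem (6 * n) F1 F2 (fun N D => (N : ℝ) ≤ Y ∧ (D : ℝ) ≤ Y ^ κ) x} := by
        rintro x ⟨W, k1, k2, k3, k4, ⟨t, k5, k6⟩, k7, k8, k9⟩
        obtain ⟨g1, g2, g3⟩ := hrel W t k3 k5 k6
        refine ⟨W.Δ, t.num, t.den, g1, g2, k3, ?_, ?_, ?_, k7, k9⟩
        · rw [← k1]; exact k4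
        · rw [← k1, ← k2]; exact W.c_relation
        · rw [← k1]; exact g3
      refine ⟨hfin.subset hsub, ?_⟩
      rw [h2]
      refine le_trans ?_ hcard
      exact_mod_cast Set.ncard_le_ncard hsub hfin
    · have h1 : τ = σ := max_eq_left h
      obtain ⟨C0, hC0, hup⟩ := hup3 s hsr hss0' ε hε
      refine ⟨C0, ?_⟩
      intro Y hY
      obtain ⟨hfin, hcard⟩ := hup Y hY
      have h10 : ((6 * n : ℕ) : ℝ) * s = σ := by
        rw [← h1, ← hτs]; push_cast; ring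
      have hsub : CSet J₁ J₂ (fun N D => N ≤ Y ∧ N ^ σ ≤ D ∧ D ≤ Y ^ κ) ⊆
          {x | Mem (6 * n) F1 F2 (fun N D => (N : ℝ) ≤ Y ∧ (N : ℝ) ^ (((6 * n : ℕ) : ℝ) * s) ≤ (D : ℝ) ∧
            (D : ℝ) ≤ Y ^ κ) x} := by
        rintro x ⟨W, k1, k2, k3, k4, ⟨t, k5, k6⟩, k7, k8, k9⟩
        obtain ⟨g1, g2, g3⟩ := hrel W t k3 k5 k6
        refine ⟨W.Δ, t.num, t.den, g1, g2, k3, ?_, ?_, ?_, k7, ?_, k9⟩
        · rw [← k1]; exact k4
        · rw [← k1, ← k2]; exact W.c_relation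
        · rw [← k1]; exact g3
        · rw [h10]; exact k8
      refine ⟨hfin.subset hsub, ?_⟩
      refine le_trans ?_ hcard
      exact_mod_cast Set.ncard_le_ncard hsub hfin
  obtain ⟨C0, hup⟩ := hupper
  refine ⟨c1, C0, Y1, hc1, ?_⟩
  intro Y hY
  have hY1' : 1 ≤ Y := hY1.trans hY
  obtain ⟨hfin, hcard⟩ := hup Y hY1'
  refine ⟨hfin, ?_, hcard⟩
  obtain ⟨X, hX1, hX2⟩ := hlow Y hY
  refine hX1.trans ?_
  rw [← Set.ncard_coe_finset X]
  have h1 : (X : Set (ℤ × ℤ)) ⊆ CSet J₁ J₂ (fun N D => N ≤ Y ∧ N ^ σ ≤ D ∧ D ≤ Y ^ κ) := by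
    intro x hx
    obtain ⟨W, g1, g2, g3, g4, ⟨a, b, _, g6, g7⟩, g8, g9, g10⟩ := hX2 x hx
    refine ⟨W, g1, g2, g3, g4, hback W a b g3 g6 g7, g8, ?_, g10⟩
    refine le_trans ?_ g9
    have h1 : (1 : ℝ) ≤ ((∏ p ∈ W.Δ.natAbs.primeFactors, p : ℕ) : ℝ) := by
      have : 0 < ∏ p ∈ W.Δ.natAbs.primeFactors, p :=
        Finset.prod_pos (fun p hp => (Nat.prime_of_mem_primeFactors hp).pos)
      exact_mod_cast this
    rw [hτs]
    exact Real.rpow_le_rpow_of_exponent_le h1 (le_max_left _ _)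
  exact_mod_cast Set.ncard_le_ncard h1 hfin

end Fm

end Pool.Agent.Lib.MP_d8bd92_nt
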