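import Mathlib

set_option autoImplicit false

/-!
Elementary facts on the radical of a natural number, real powers, and an absorption lemma.
-/

namespace Pool.Agent.Lib.Szpiro

/-- the product of the primes dividing `n` -/
def rd (n : ℕ) : ℕ := ∏ p ∈ n.primeFactors, p

theorem rd_pos (n : ℕ) : 0 < rd n := by
  unfold rd
  exact Finset.prod_pos fun p hp => (Nat.prime_of_mem_primeFactors hp).pos

theorem one_le_rd (n : ℕ) : (1 : ℝ) ≤ (rd n : ℝ) := by
  exact_mod_cast rd_pos n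

theorem rd_le {n : ℕ} (hn : n ≠ 0) : rd n ≤ n :=
  Nat.le_of_dvd (Nat.pos_of_ne_zero hn) (Nat.prod_primeFactors_dvd n)

theorem rd_mono {m n : ℕ} (h : m.primeFactors ⊆ n.primeFactors) : rd m ≤ rd n := by
  unfold rd
  exact Finset.prod_le_prod_of_subset_of_one_le' h
    fun p hp _ => (Nat.prime_of_mem_primeFactors hp).one_lt.le

theorem rd_mul_le (m n : ℕ) (hm : m ≠ 0) (hn : n ≠ 0) : rd (m * n) ≤ rd m * rd n := by
  unfold rd
  rw [Nat.primeFactors_mul hm hn, ← Finset.prod_union_inter]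
  apply Nat.le_mul_of_pos_right
  exact Finset.prod_pos fun p hp =>
    (Nat.prime_of_mem_primeFactors (Finset.mem_of_mem_inter_left hp)).pos

/-- primes dividing `m` divide `n` -/
theorem rd_mono' {m n : ℕ} (hn : n ≠ 0) (h : ∀ p, p.Prime → p ∣ m → p ∣ n) : rd m ≤ rd n := by
  apply rd_mono
  intro p hp
  have hp' := Nat.mem_primeFactors.mp hp
  exact Nat.mem_primeFactors.mpr ⟨hp'.1, h p hp'.1 hp'.2.1, hn⟩

theorem absorb {Y R C e η ε : ℝ} (hY : 1 ≤ Y) (hR : 1 ≤ R) (hC : 1 ≤ C)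
    (hη : η ≤ 1 / 2) (he : 6 + e ≤ (6 + ε) * (1 - η)) (h : Y ≤ C * R ^ (6 + e) * Y ^ η)
    (hη0 : 0 ≤ η) : Y ≤ C ^ 2 * R ^ (6 + ε) := by
  have hY0 : 0 < Y := by linarith
  have hR0 : 0 < R := by linarith
  have hC0 : 0 < C := by linarith
  have h1 : 0 < 1 - η := by linarith
  have h2 : Y ^ (1 - η) ≤ C * R ^ (6 + e) := by
    rw [Real.rpow_sub hY0, Real.rpow_one, div_le_iff₀ (Real.rpow_pos_of_pos hY0 _)]
    exact h
  have h3 : Y = (Y ^ (1 - η)) ^ (1 / (1 - η)) := by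
    rw [← Real.rpow_mul hY0.le, mul_one_div_cancel h1.ne', Real.rpow_one]
  have h4 : Y ≤ (C * R ^ (6 + e)) ^ (1 / (1 - η)) := by
    calc Y = (Y ^ (1 - η)) ^ (1 / (1 - η)) := h3
      _ ≤ _ := Real.rpow_le_rpow (Real.rpow_nonneg hY0.le _) h2 (by positivity)
  have h5 : (C * R ^ (6 + e)) ^ (1 / (1 - η)) = C ^ (1 / (1 - η)) * R ^ ((6 + e) / (1 - η)) := by
    rw [Real.mul_rpow hC0.le (Real.rpow_nonneg hR0.le _), ← Real.rpow_mul hR0.le]
    congr 2
    ring
  rw [h5] at h4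
  refine h4.trans ?_
  have h6 : 1 / (1 - η) ≤ 2 := by
    rw [div_le_iff₀ h1]
    linarith
  have h7 : (6 + e) / (1 - η) ≤ 6 + ε := by
    rw [div_le_iff₀ h1]
    exact he
  have h8 : C ^ (1 / (1 - η)) ≤ C ^ 2 := by
    rw [← Real.rpow_natCast C 2]
    exact Real.rpow_le_rpow_of_exponent_le hC (by push_cast; exact h6)
  have h9 : R ^ ((6 + e) / (1 - η)) ≤ R ^ (6 + ε) := Real.rpow_le_rpow_of_exponent_le hR h7
  exact mul_le_mul h8 h9 (Real.rpow_nonneg hR0.le _) (by positivity)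

/-- choice of the parameter in `absorb` -/
theorem absorb_param {k ε : ℝ} (hk : 0 ≤ k) (hε : 0 < ε) :
    ∃ e : ℝ, 0 < e ∧ e ≤ 1 ∧ 0 ≤ k * e ∧ k * e ≤ 1 / 2 ∧ 6 + e ≤ (6 + ε) * (1 - k * e) := by
  set ε' := min ε 1 with hε'
  have h0 : 0 < ε' := lt_min hε one_pos
  have h1 : ε' ≤ 1 := min_le_right _ _
  have h2 : ε' ≤ ε := min_le_left _ _
  have h3 : 0 < 1 + 7 * k := by positivity
  refine ⟨ε' / (1 + 7 * k), by positivity, ?_, by positivity, ?_, ?_⟩
  · rw [div_le_one h3]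
    linarith
  · rw [← mul_div_assoc, div_le_iff₀ h3]
    nlinarith
  · have h4 : 6 + ε' / (1 + 7 * k) ≤ (6 + ε') * (1 - k * (ε' / (1 + 7 * k))) := by
      set e := ε' / (1 + 7 * k) with he
      have h5 : e * (1 + 7 * k) = ε' := div_mul_cancel₀ _ h3.ne'
      have h6 : 0 < e := by positivity
      have h7 : ε' * (k * e) ≤ k * e := by
        have : 0 ≤ k * e := by positivity
        nlinarith
      nlinarith
    refine h4.trans ?_
    apply mul_le_mul_of_nonneg_right (by linarith)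
    have : k * (ε' / (1 + 7 * k)) ≤ 1 / 2 := by
      rw [← mul_div_assoc, div_le_iff₀ h3]
      nlinarith
    linarith

end Pool.Agent.Lib.Szpiro
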