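import Mathlib
import Pool.Agent.Lib.MP_d8bd92_nt.Radical

set_option autoImplicit false

/-!
The semistable curve `y² = x (x² - 2 (B - A) x + (A + B)²)` for `A = 16 A'`, `B = 4 B' + 1`,
in its global minimal form.
-/

namespace Pool.Agent.Lib.Szpiro

open WeierstrassCurve WeierstrassCurve.Affine

/-- the curve, `A = 16 A'`, `B = 4 B' + 1` -/
def FC (A' B' : ℤ) : WeierstrassCurve ℤ :=
  ⟨1, 20 * A' + B', 0, 8 * A' * (16 * A' + 4 * B' + 1), A' * (16 * A' + 4 * B' + 1) ^ 2⟩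

theorem FC_disc (A' B' : ℤ) :
    (FC A' B').Δ = -(A' * (4 * B' + 1) * (16 * A' + 4 * B' + 1) ^ 4) := by
  simp only [FC, WeierstrassCurve.Δ, WeierstrassCurve.b₂, WeierstrassCurve.b₄,
    WeierstrassCurve.b₆, WeierstrassCurve.b₈]
  ring

theorem FC_c₄ (A' B' : ℤ) :
    (FC A' B').c₄ = (16 * A' + 4 * B' + 1) ^ 2 - 256 * A' * (4 * B' + 1) := by
  simp only [FC, WeierstrassCurve.c₄, WeierstrassCurve.b₂, WeierstrassCurve.b₄]
  ring

theorem FC_coprime (A' B' : ℤ) (h : IsCoprime (16 * A') (4 * B' + 1)) :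
    IsCoprime (FC A' B').c₄ (FC A' B').Δ := by
  rw [FC_c₄, FC_disc]
  have h1 : IsCoprime A' (4 * B' + 1) := h.of_mul_left_right
  have h16 : IsCoprime (16 : ℤ) (4 * B' + 1) := h.of_mul_left_left
  have hS : IsCoprime (16 * A' + 4 * B' + 1) (16 * A') := by
    have := h.symm
    have h2 : (16 * A' + 4 * B' + 1) = (4 * B' + 1) + 1 * (16 * A') := by ring
    rw [h2]
    exact this.add_mul_right_left 1
  have hSB : IsCoprime (16 * A' + 4 * B' + 1) (4 * B' + 1) := by
    have h2 : (16 * A' + 4 * B' + 1) = (16 * A') + 1 * (4 * B' + 1) := by ring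
    rw [h2]
    exact h.add_mul_right_left 1
  have hSA' : IsCoprime (16 * A' + 4 * B' + 1) A' := hS.of_mul_right_right
  have hS16 : IsCoprime (16 * A' + 4 * B' + 1) (16 : ℤ) := hS.of_mul_right_left
  rw [IsCoprime.neg_right_iff]
  refine IsCoprime.mul_right (IsCoprime.mul_right ?_ ?_) (IsCoprime.pow_right ?_)
  · -- with A'
    have e : (16 * A' + 4 * B' + 1) ^ 2 - 256 * A' * (4 * B' + 1)
        = (16 * A' + 4 * B' + 1) ^ 2 + (-(256 * (4 * B' + 1))) * A' := by ring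
    rw [e]
    exact (hSA'.pow_left).add_mul_right_left _
  · have e : (16 * A' + 4 * B' + 1) ^ 2 - 256 * A' * (4 * B' + 1)
        = (16 * A' + 4 * B' + 1) ^ 2 + (-(256 * A')) * (4 * B' + 1) := by ring
    rw [e]
    exact (hSB.pow_left).add_mul_right_left _
  · have e : (16 * A' + 4 * B' + 1) ^ 2 - 256 * A' * (4 * B' + 1)
        = -(16 * 16 * A' * (4 * B' + 1)) + (16 * A' + 4 * B' + 1) * (16 * A' + 4 * B' + 1) := by
      ring
    rw [e]
    refine IsCoprime.add_mul_right_left ?_ _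
    rw [IsCoprime.neg_left_iff]
    exact ((hS16.symm.mul_left hS16.symm).mul_left hSA'.symm).mul_left hSB.symm

theorem FC_point (A' B' : ℤ) (h0 : (FC A' B').Δ ≠ 0) :
    ∃ P : ((FC A' B').baseChange ℚ).toAffine.Point, addOrderOf P = 2 := by
  set W := ((FC A' B').baseChange ℚ).toAffine with hW
  have hΔ : W.Δ ≠ 0 := by
    have : W.Δ = ((FC A' B').Δ : ℚ) := by
      rw [hW]
      exact WeierstrassCurve.map_Δ _ _
    rw [this]
    exact_mod_cast h0
  set S : ℚ := 16 * A' + 4 * B' + 1 with hS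
  have ha1 : W.a₁ = 1 := by simp [hW, FC, WeierstrassCurve.baseChange]
  have ha2 : W.a₂ = 20 * A' + B' := by simp [hW, FC, WeierstrassCurve.baseChange]
  have ha3 : W.a₃ = 0 := by simp [hW, FC, WeierstrassCurve.baseChange]
  have ha4 : W.a₄ = 8 * A' * S := by simp [hW, FC, WeierstrassCurve.baseChange, hS]
  have ha6 : W.a₆ = A' * S ^ 2 := by simp [hW, FC, WeierstrassCurve.baseChange, hS]
  have heq : W.Equation (-S / 4) (S / 8) := by
    rw [equation_iff, ha1, ha2, ha3, ha4, ha6]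
    rw [hS]; ring
  have hns : W.Nonsingular (-S / 4) (S / 8) := (equation_iff_nonsingular_of_Δ_ne_zero hΔ).mp heq
  refine ⟨Point.some _ _ hns, ?_⟩
  rw [addOrderOf_eq_prime_iff]
  refine ⟨?_, Point.some_ne_zero _⟩
  rw [two_nsmul]
  apply Point.add_self_of_Y_eq
  rw [negY, ha1, ha3]
  ring

end Pool.Agent.Lib.Szpiro
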