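import Mathlib
import Pool.Agent.Lib.MP_d8bd92_nt.Radical
import Pool.Agent.Lib.MP_d8bd92_nt.Frey4

set_option autoImplicit false

/-!
From Szpiro's inequality for certain semistable curves with a rational point of order two
to an inequality for all coprime sums `a + b = c`.
-/

namespace Pool.Agent.Lib.Szpiro

open WeierstrassCurve WeierstrassCurve.Affine

/-- Szpiro's inequality for a restricted class of curves with a rational point of order two. -/
def SzB (m : ℕ) (δ : ℝ) : Prop :=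
  ∀ ε : ℝ, 0 < ε → ∃ C : ℝ, ∀ W : WeierstrassCurve ℤ, W.Δ ≠ 0 → IsCoprime W.c₄ W.Δ →
    (∃ P : (W.baseChange ℚ).toAffine.Point, addOrderOf P = 2) → (m : ℤ) ∣ W.Δ →
    ((W.c₄.natAbs : ℕ) : ℝ) ^ 3 ≤ ((W.Δ.natAbs : ℕ) : ℝ) ^ (1 + δ) →
    ((W.Δ.natAbs : ℕ) : ℝ) ≤ C * ((rd W.Δ.natAbs : ℕ) : ℝ) ^ (6 + ε)

/-- the inequality for sums -/
def TT : Prop :=
  ∀ ε : ℝ, 0 < ε → ∃ C : ℝ, ∀ a b : ℕ, 0 < a → 0 < b → a.Coprime b →
    (a : ℝ) * b * (a + b : ℝ) ^ 4 ≤ C * ((rd (a * b * (a + b)) : ℕ) : ℝ) ^ (6 + ε)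

/-- the Frey-type curve: from `A, B` to the inequality -/
theorem frey_apply {m : ℕ} {δ : ℝ} {e C : ℝ} (hC : ∀ W : WeierstrassCurve ℤ, W.Δ ≠ 0 →
    IsCoprime W.c₄ W.Δ →
    (∃ P : (W.baseChange ℚ).toAffine.Point, addOrderOf P = 2) → (m : ℤ) ∣ W.Δ →
    ((W.c₄.natAbs : ℕ) : ℝ) ^ 3 ≤ ((W.Δ.natAbs : ℕ) : ℝ) ^ (1 + δ) →
    ((W.Δ.natAbs : ℕ) : ℝ) ≤ C * ((rd W.Δ.natAbs : ℕ) : ℝ) ^ (6 + e)) (hC0 : 0 ≤ C) (he : 0 ≤ e)
    (A B : ℤ) (hAB : IsCoprime A B) (h16 : (16 : ℤ) ∣ A) (hB : B % 4 = 1)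
    (h0 : A * B * (A + B) ≠ 0) (hm : (16 * m : ℤ) ∣ A * B * (A + B))
    (hbal : 16 ^ (1 + δ) * ((((A + B) ^ 2 - 16 * A * B).natAbs : ℕ) : ℝ) ^ 3 ≤
      (((A * B * (A + B) ^ 4).natAbs : ℕ) : ℝ) ^ (1 + δ)) :
    (((A * B * (A + B) ^ 4).natAbs : ℕ) : ℝ) ≤
      16 * C * ((rd (A * B * (A + B)).natAbs : ℕ) : ℝ) ^ (6 + e) := by
  obtain ⟨A', rfl⟩ := h16
  obtain ⟨B', hB'⟩ : ∃ B', B = 4 * B' + 1 := ⟨B / 4, by omega⟩
  subst hB'
  have hS : 16 * A' + (4 * B' + 1) = 16 * A' + 4 * B' + 1 := by ring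
  rw [hS] at h0 hm hbal ⊢
  have hd := FC_disc A' B'
  have hA0 : A' ≠ 0 := by rintro rfl; simp at h0
  have hB0 : 4 * B' + 1 ≠ 0 := by intro h; rw [h] at h0; simp at h0
  have hS0 : 16 * A' + 4 * B' + 1 ≠ 0 := by intro h; rw [h] at h0; simp at h0
  have hΔ : (FC A' B').Δ ≠ 0 := by
    rw [hd]
    exact neg_ne_zero.mpr (mul_ne_zero (mul_ne_zero hA0 hB0) (pow_ne_zero _ hS0))
  have hnat : (16 * A' * (4 * B' + 1) * (16 * A' + 4 * B' + 1) ^ 4).natAbs
      = 16 * (FC A' B').Δ.natAbs := by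
    rw [hd, Int.natAbs_neg]
    have : 16 * A' * (4 * B' + 1) * (16 * A' + 4 * B' + 1) ^ 4
      = 16 * (A' * (4 * B' + 1) * (16 * A' + 4 * B' + 1) ^ 4) := by ring
    rw [this, Int.natAbs_mul]
    rfl
  have hm' : (m : ℤ) ∣ (FC A' B').Δ := by
    rw [hd, dvd_neg]
    have h1 : (16 * m : ℤ) ∣ 16 * (A' * (4 * B' + 1) * (16 * A' + 4 * B' + 1)) := by
      have : 16 * (A' * (4 * B' + 1) * (16 * A' + 4 * B' + 1))
        = 16 * A' * (4 * B' + 1) * (16 * A' + 4 * B' + 1) := by ring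
      rw [this]; exact hm
    have h2 := (mul_dvd_mul_iff_left (by norm_num : (16 : ℤ) ≠ 0)).mp h1
    have h3 : A' * (4 * B' + 1) * (16 * A' + 4 * B' + 1) ^ 4
      = (A' * (4 * B' + 1) * (16 * A' + 4 * B' + 1)) * (16 * A' + 4 * B' + 1) ^ 3 := by ring
    rw [h3]
    exact h2.mul_right _
  have hc4 : (FC A' B').c₄ = (16 * A' + 4 * B' + 1) ^ 2 - 16 * (16 * A') * (4 * B' + 1) := by
    rw [FC_c₄]; ring
  have hbal' : (((FC A' B').c₄.natAbs : ℕ) : ℝ) ^ 3 ≤
      (((FC A' B').Δ.natAbs : ℕ) : ℝ) ^ (1 + δ) := by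
    rw [hc4]
    rw [hnat] at hbal
    push_cast at hbal
    rw [Real.mul_rpow (by norm_num) (by positivity)] at hbal
    have h16p : (0 : ℝ) < 16 ^ (1 + δ) := by positivity
    exact le_of_mul_le_mul_left hbal h16p
  have key := hC (FC A' B') hΔ (FC_coprime A' B' hAB) (FC_point A' B' hΔ) hm' hbal'
  rw [hnat]
  push_cast
  have hr : rd (FC A' B').Δ.natAbs ≤
      rd (16 * A' * (4 * B' + 1) * (16 * A' + 4 * B' + 1)).natAbs := by
    apply rd_mono' (by simpa using h0)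
    intro p hp hpd
    rw [hd, Int.natAbs_neg, Int.natAbs_mul, Int.natAbs_mul, Int.natAbs_pow] at hpd
    rw [Int.natAbs_mul, Int.natAbs_mul, Int.natAbs_mul]
    rcases (Nat.Prime.dvd_mul hp).mp hpd with h | h
    · rcases (Nat.Prime.dvd_mul hp).mp h with h | h
      · exact Dvd.dvd.mul_right (Dvd.dvd.mul_right (Dvd.dvd.mul_left h _) _) _
      · exact Dvd.dvd.mul_right (Dvd.dvd.mul_left h _) _
    · exact Dvd.dvd.mul_left (hp.dvd_of_dvd_pow h) _
  have hr' : ((rd (FC A' B').Δ.natAbs : ℕ) : ℝ) ^ (6 + e) ≤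
      ((rd (16 * A' * (4 * B' + 1) * (16 * A' + 4 * B' + 1)).natAbs : ℕ) : ℝ) ^ (6 + e) := by
    apply Real.rpow_le_rpow (by positivity) (by exact_mod_cast hr) (by linarith)
  calc 16 * (((FC A' B').Δ.natAbs : ℕ) : ℝ)
      ≤ 16 * (C * ((rd (FC A' B').Δ.natAbs : ℕ) : ℝ) ^ (6 + e)) := by linarith
    _ ≤ 16 * (C * ((rd (16 * A' * (4 * B' + 1) * (16 * A' + 4 * B' + 1)).natAbs : ℕ) : ℝ)
          ^ (6 + e)) := by
        have := mul_le_mul_of_nonneg_left hr' hC0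
        linarith
    _ = _ := by ring

/-- a power of each exponent divisible enough: `M ∣ cⁿ bⁿ (cⁿ - bⁿ)` -/
theorem dvd_pow_diff {M n b c : ℕ} (hM : 0 < M) (hMn : M ≤ n) (hphi : M.totient ∣ n)
    (hbc : b ≤ c) : M ∣ c ^ n * b ^ n * (c ^ n - b ^ n) := by
  rw [Nat.dvd_iff_prime_pow_dvd_dvd]
  intro p k hp hpk
  have hk : k ≤ n := by
    have h1 : p ^ k ≤ M := Nat.le_of_dvd hM hpk
    have h2 : k < p ^ k := Nat.lt_pow_self hp.one_lt
    omega
  by_cases hc : p ∣ c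
  · have : p ^ k ∣ c ^ n := (pow_dvd_pow_of_dvd hc k).trans (pow_dvd_pow c hk)
    exact (this.mul_right _).mul_right _
  by_cases hb : p ∣ b
  · have : p ^ k ∣ b ^ n := (pow_dvd_pow_of_dvd hb k).trans (pow_dvd_pow b hk)
    exact (this.mul_left _).mul_right _
  have hphi' : (p ^ k).totient ∣ n := (Nat.totient_dvd_of_dvd hpk).trans hphi
  obtain ⟨t, ht⟩ := hphi'
  have hc' : c ^ n ≡ 1 [MOD p ^ k] := by
    have h1 := Nat.ModEq.pow_totient
      (Nat.Coprime.pow_right k ((Nat.Prime.coprime_iff_not_dvd hp).mpr hc).symm)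
    have h2 := h1.pow t
    rw [← pow_mul, ← ht, one_pow] at h2
    exact h2
  have hb' : b ^ n ≡ 1 [MOD p ^ k] := by
    have h1 := Nat.ModEq.pow_totient
      (Nat.Coprime.pow_right k ((Nat.Prime.coprime_iff_not_dvd hp).mpr hb).symm)
    have h2 := h1.pow t
    rw [← pow_mul, ← ht, one_pow] at h2
    exact h2
  have h3 : b ^ n ≡ c ^ n [MOD p ^ k] := hb'.trans hc'.symm
  have h4 := (Nat.modEq_iff_dvd' (Nat.pow_le_pow_left hbc n)).mp h3
  exact h4.mul_left _

/-- choice of the signs and of the order -/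
theorem choose_AB {x y : ℤ} (hy : 0 < y) (hxy : y < x) (hco : IsCoprime x y)
    (hx4 : x % 4 = 0 ∨ x % 4 = 1) (hy4 : y % 4 = 0 ∨ y % 4 = 1)
    (h16 : (16 : ℤ) ∣ x * y * (x - y)) :
    ∃ A B : ℤ, IsCoprime A B ∧ (16 : ℤ) ∣ A ∧ B % 4 = 1 ∧
      (A * B * (A + B) = x * y * (x - y) ∨ A * B * (A + B) = -(x * y * (x - y))) ∧
      (x - y) * y ^ 5 ≤ |A * B * (A + B) ^ 4| ∧ |(A + B) ^ 2 - 16 * A * B| ≤ 17 * x ^ 2 := by
  have hx : 0 < x := hy.trans hxy
  have odd_cop : ∀ t : ℤ, t % 2 = 1 → IsCoprime (16 : ℤ) t := by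
    intro t ht
    have : IsCoprime (2 : ℤ) t := ⟨-(t / 2), 1, by omega⟩
    have h3 := this.pow_left (m := 4)
    norm_num at h3
    exact h3
  have hz : 0 < x - y := by linarith
  have hxy5 : y ^ 5 ≤ x * y ^ 4 := by nlinarith [pow_pos hy 4]
  have hx5 : y ^ 5 ≤ y * x ^ 4 := by
    have : y ^ 4 ≤ x ^ 4 := pow_le_pow_left₀ hy.le hxy.le 4
    nlinarith
  rcases hx4 with hx4 | hx4
  · -- x even
    have hy1 : y % 4 = 1 := by
      rcases hy4 with h | h
      · exfalso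
        obtain ⟨u, hu⟩ : (4 : ℤ) ∣ x := Int.dvd_of_emod_eq_zero hx4
        obtain ⟨v, hv⟩ : (4 : ℤ) ∣ y := Int.dvd_of_emod_eq_zero h
        obtain ⟨s, t, hst⟩ := hco
        rw [hu, hv] at hst
        have h4 : 4 * (s * u + t * v) = 1 := by linear_combination hst
        omega
      · exact h
    have h1 : (16 : ℤ) ∣ x := by
      have e : x * y * (x - y) = x * (y * (x - y)) := by ring
      rw [e] at h16
      exact (odd_cop (y * (x - y)) (by
        have h1 : y % 2 = 1 := by omega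
        have h2 : (x - y) % 2 = 1 := by omega
        rw [Int.mul_emod, h1, h2]; rfl)).dvd_of_dvd_mul_right h16
    refine ⟨x, y - x, ?_, h1, by omega, Or.inr (by ring), ?_, ?_⟩
    · have e : y - x = y + (-1) * x := by ring
      rw [e]
      exact (hco.symm.add_mul_right_left (-1)).symm
    · have e : x * (y - x) * (x + (y - x)) ^ 4 = -((x - y) * (x * y ^ 4)) := by ring
      rw [e, abs_neg, abs_of_pos (by positivity)]
      exact mul_le_mul_of_nonneg_left hxy5 hz.le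
    · have e : (x + (y - x)) ^ 2 - 16 * x * (y - x) = y ^ 2 + 16 * x * (x - y) := by ring
      rw [e, abs_of_pos (by positivity)]
      nlinarith
  · rcases hy4 with hy4 | hy4
    · -- y even
      have h1 : (16 : ℤ) ∣ y := by
        have e : x * y * (x - y) = y * (x * (x - y)) := by ring
        rw [e] at h16
        exact (odd_cop (x * (x - y)) (by
          have h1 : x % 2 = 1 := by omega
          have h2 : (x - y) % 2 = 1 := by omega
          rw [Int.mul_emod, h1, h2]; rfl)).dvd_of_dvd_mul_right h16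
      refine ⟨y, x - y, ?_, h1, by omega, Or.inl (by ring), ?_, ?_⟩
      · have e : x - y = x + (-1) * y := by ring
        rw [e]
        exact (hco.add_mul_right_left (-1)).symm
      · have e : y * (x - y) * (y + (x - y)) ^ 4 = (x - y) * (y * x ^ 4) := by ring
        rw [e, abs_of_pos (by positivity)]
        exact mul_le_mul_of_nonneg_left hx5 hz.le
      · have e : (y + (x - y)) ^ 2 - 16 * y * (x - y) = x ^ 2 - 16 * (y * (x - y)) := by ring
        have h2 : 0 < y * (x - y) := by positivity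
        have h3 : y * (x - y) ≤ x ^ 2 := by nlinarith
        rw [e, abs_le]
        constructor <;> nlinarith
    · -- both odd
      have h1 : (16 : ℤ) ∣ x - y := by
        have e : x * y * (x - y) = (x - y) * (x * y) := by ring
        rw [e] at h16
        exact (odd_cop (x * y) (by
          have h1 : x % 2 = 1 := by omega
          have h2 : y % 2 = 1 := by omega
          rw [Int.mul_emod, h1, h2]; rfl)).dvd_of_dvd_mul_right h16
      refine ⟨x - y, y, ?_, h1, hy4, Or.inl (by ring), ?_, ?_⟩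
      · have e : x - y = x + (-1) * y := by ring
        rw [e]
        exact hco.add_mul_right_left (-1)
      · have e : (x - y) * y * (x - y + y) ^ 4 = (x - y) * (y * x ^ 4) := by ring
        rw [e, abs_of_pos (by positivity)]
        exact mul_le_mul_of_nonneg_left hx5 hz.le
      · have e : (x - y + y) ^ 2 - 16 * (x - y) * y = x ^ 2 - 16 * (y * (x - y)) := by ring
        have h2 : 0 < y * (x - y) := by positivity
        have h3 : y * (x - y) ≤ x ^ 2 := by nlinarith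
        rw [e, abs_le]
        constructor <;> nlinarith

end Pool.Agent.Lib.Szpiro
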