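import Mathlib
import Pool.Agent.Lib.MP_d8bd92_nt.Reduce

set_option autoImplicit false

/-!
From the restricted class of curves with a point of order two to sums.
-/

namespace Pool.Agent.Lib.Szpiro

open WeierstrassCurve WeierstrassCurve.Affine

/-- `cⁿ - bⁿ = (c - b) Ψ` with `c^(n-1) ≤ Ψ ≤ n c^(n-1)` -/
theorem exists_psi {b c n : ℕ} (hn : 0 < n) (hbc : b < c) :
    ∃ Ψ : ℕ, c ^ n - b ^ n = (c - b) * Ψ ∧ c ^ (n - 1) ≤ Ψ ∧ Ψ ≤ n * c ^ (n - 1) := by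
  refine ⟨∑ i ∈ Finset.range n, c ^ i * b ^ (n - 1 - i), ?_, ?_, ?_⟩
  · have h := geom_sum₂_mul (c : ℤ) (b : ℤ) n
    zify [hbc.le, Nat.pow_le_pow_left hbc.le n]
    rw [← h]; ring
  · have h1 : c ^ (n - 1) * b ^ (n - 1 - (n - 1)) ≤
        ∑ i ∈ Finset.range n, c ^ i * b ^ (n - 1 - i) :=
      Finset.single_le_sum (f := fun i => c ^ i * b ^ (n - 1 - i)) (fun i _ => Nat.zero_le _)
        (Finset.mem_range.mpr (by omega))
    simpa using h1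
  · calc ∑ i ∈ Finset.range n, c ^ i * b ^ (n - 1 - i)
        ≤ ∑ _i ∈ Finset.range n, c ^ (n - 1) := by
          apply Finset.sum_le_sum
          intro i hi
          have hi' := Finset.mem_range.mp hi
          calc c ^ i * b ^ (n - 1 - i) ≤ c ^ i * c ^ (n - 1 - i) :=
                Nat.mul_le_mul_left _ (Nat.pow_le_pow_left hbc.le _)
            _ = c ^ (n - 1) := by rw [← pow_add]; congr 1; omega
      _ = n * c ^ (n - 1) := by simp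

set_option maxHeartbeats 4000000 in
/-- the integral core: `aΨ b^(5n) ≤ 16 C (rad(abc) Ψ)^(6+e)` -/
theorem core_apply {m : ℕ} {δ : ℝ} (hδ : 0 < δ) {e C : ℝ} (hC : ∀ W : WeierstrassCurve ℤ, W.Δ ≠ 0 →
    IsCoprime W.c₄ W.Δ →
    (∃ P : (W.baseChange ℚ).toAffine.Point, addOrderOf P = 2) → (m : ℤ) ∣ W.Δ →
    ((W.c₄.natAbs : ℕ) : ℝ) ^ 3 ≤ ((W.Δ.natAbs : ℕ) : ℝ) ^ (1 + δ) →
    ((W.Δ.natAbs : ℕ) : ℝ) ≤ C * ((rd W.Δ.natAbs : ℕ) : ℝ) ^ (6 + e)) (hC0 : 0 ≤ C) (he : 0 ≤ e)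
    {n : ℕ} (hm : 0 < m) (hn2 : 2 ∣ n) (hn0 : 0 < n) (hMn : 16 * m ≤ n)
    (hphi : (16 * m).totient ∣ n) (hnδ : 2 + δ ≤ 6 * n * δ)
    {a b c : ℕ} (ha : 0 < a) (hab : a ≤ b) (hc : a + b = c) (hco : a.Coprime b)
    (hbig : 16 ^ (1 + δ) * 4913 * (32 ^ n : ℝ) ^ (1 + δ) ≤ (c : ℝ)) {Ψ : ℕ}
    (hΨ : c ^ n - b ^ n = (c - b) * Ψ) (hΨ1 : c ^ (n - 1) ≤ Ψ) :
    (a : ℝ) * Ψ * (b : ℝ) ^ (5 * n) ≤
      16 * C * (((rd (a * b * c) : ℕ) : ℝ) * Ψ) ^ (6 + e) := by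
  have hb : 0 < b := lt_of_lt_of_le ha hab
  have hbc : b < c := by omega
  have hc0 : 0 < c := by omega
  obtain ⟨k, hk⟩ := hn2
  have hcb : c - b = a := by omega
  have hxy : (b : ℤ) ^ n < (c : ℤ) ^ n := by
    exact_mod_cast Nat.pow_lt_pow_left hbc hn0.ne'
  have hcop : IsCoprime ((c : ℤ) ^ n) ((b : ℤ) ^ n) := by
    apply IsCoprime.pow
    rw [Nat.isCoprime_iff_coprime, ← hc]
    simpa using hco
  have hsq : ∀ t : ℤ, (t ^ n) % 4 = 0 ∨ (t ^ n) % 4 = 1 := by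
    intro t
    have : t ^ n = (t ^ k) ^ 2 := by rw [← pow_mul, hk]; ring_nf
    rw [this]
    rcases Int.even_or_odd' (t ^ k) with ⟨s, hs | hs⟩
    · left; rw [hs]; ring_nf; omega
    · right
      rw [hs]
      have : (2 * s + 1) ^ 2 = 1 + 4 * (s ^ 2 + s) := by ring
      omega
  have hdiv : (16 * m : ℤ) ∣ (c : ℤ) ^ n * (b : ℤ) ^ n * ((c : ℤ) ^ n - (b : ℤ) ^ n) := by
    have h1 := dvd_pow_diff (M := 16 * m) (by omega) hMn hphi hbc.le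
    zify [Nat.pow_le_pow_left hbc.le n] at h1
    exact h1
  have h16 : (16 : ℤ) ∣ (c : ℤ) ^ n * (b : ℤ) ^ n * ((c : ℤ) ^ n - (b : ℤ) ^ n) :=
    (Dvd.intro _ rfl).trans hdiv
  have hbpos : (0 : ℤ) < (b : ℤ) ^ n := by positivity
  obtain ⟨A, B, hAB, hA16, hB4, hprod, hlow, hc4⟩ :=
    choose_AB hbpos hxy hcop (hsq _) (hsq _) h16
  have hzΨ : (c : ℤ) ^ n - (b : ℤ) ^ n = a * Ψ := by
    rw [hcb] at hΨ
    have := hΨ
    zify [Nat.pow_le_pow_left hbc.le n] at this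
    exact this
  have hΨ0 : 0 < Ψ := lt_of_lt_of_le (by positivity) hΨ1
  have hprod0 : (c : ℤ) ^ n * (b : ℤ) ^ n * ((c : ℤ) ^ n - (b : ℤ) ^ n) ≠ 0 := by
    rw [hzΨ]; positivity
  have h0 : A * B * (A + B) ≠ 0 := by
    rcases hprod with h | h <;> rw [h]
    · exact hprod0
    · exact neg_ne_zero.mpr hprod0
  have hm' : (16 * m : ℤ) ∣ A * B * (A + B) := by
    rcases hprod with h | h <;> rw [h]
    · exact hdiv
    · exact (dvd_neg).mpr hdiv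
  have hnat : (A * B * (A + B)).natAbs = c ^ n * b ^ n * (a * Ψ) := by
    have : (A * B * (A + B)).natAbs =
        ((c : ℤ) ^ n * (b : ℤ) ^ n * ((c : ℤ) ^ n - (b : ℤ) ^ n)).natAbs := by
      rcases hprod with h | h <;> rw [h]
      rw [Int.natAbs_neg]
    rw [this, hzΨ]
    have e : ((c : ℤ) ^ n * (b : ℤ) ^ n * (a * Ψ)) = ((c ^ n * b ^ n * (a * Ψ) : ℕ) : ℤ) := by
      push_cast; ring
    rw [e, Int.natAbs_natCast]
  -- lower bound for the discriminant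
  have hlow' : (a : ℝ) * Ψ * (b : ℝ) ^ (5 * n) ≤ (((A * B * (A + B) ^ 4).natAbs : ℕ) : ℝ) := by
    rw [hzΨ] at hlow
    have h1 : ((a : ℤ) * Ψ * (b : ℤ) ^ (5 * n)) ≤ ((A * B * (A + B) ^ 4).natAbs : ℤ) := by
      rw [Int.natCast_natAbs]
      have e : (b : ℤ) ^ (5 * n) = ((b : ℤ) ^ n) ^ 5 := by rw [← pow_mul]; ring_nf
      rw [e]; exact hlow
    exact_mod_cast h1
  -- b ≥ c / 2
  have h2b : (c : ℝ) ≤ 2 * b := by
    have : c ≤ 2 * b := by omega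
    exact_mod_cast this
  have hcR : (1 : ℝ) ≤ c := by exact_mod_cast hc0
  have hb5 : (c : ℝ) ^ (5 * n) ≤ (32 : ℝ) ^ n * (b : ℝ) ^ (5 * n) := by
    have e : (32 : ℝ) ^ n * (b : ℝ) ^ (5 * n) = (2 * b : ℝ) ^ (5 * n) := by
      rw [mul_pow, pow_mul 2 5 n]; norm_num
    rw [e]
    exact pow_le_pow_left₀ (by positivity) h2b _
  have hΨR : (c : ℝ) ^ (n - 1) ≤ Ψ := by exact_mod_cast hΨ1
  have haR : (1 : ℝ) ≤ a := by exact_mod_cast ha
  have hD : (c : ℝ) ^ (6 * n - 1) ≤ 32 ^ n * (((A * B * (A + B) ^ 4).natAbs : ℕ) : ℝ) := by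
    calc (c : ℝ) ^ (6 * n - 1) = (c : ℝ) ^ (n - 1) * (c : ℝ) ^ (5 * n) := by
          rw [← pow_add]; congr 1; omega
      _ ≤ (Ψ : ℝ) * ((32 : ℝ) ^ n * (b : ℝ) ^ (5 * n)) :=
          mul_le_mul hΨR hb5 (by positivity) (by positivity)
      _ ≤ (a * Ψ : ℝ) * ((32 : ℝ) ^ n * (b : ℝ) ^ (5 * n)) := by
          apply mul_le_mul_of_nonneg_right _ (by positivity)
          have : (0 : ℝ) ≤ Ψ := by positivity
          nlinarith
      _ = 32 ^ n * ((a : ℝ) * Ψ * (b : ℝ) ^ (5 * n)) := by ring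
      _ ≤ _ := mul_le_mul_of_nonneg_left hlow' (by positivity)
  have hc4R : ((((A + B) ^ 2 - 16 * A * B).natAbs : ℕ) : ℝ) ≤ 17 * (c : ℝ) ^ (2 * n) := by
    have h1 : ((((A + B) ^ 2 - 16 * A * B).natAbs : ℕ) : ℤ) ≤ 17 * (c : ℤ) ^ (2 * n) := by
      rw [Int.natCast_natAbs]
      have e : (c : ℤ) ^ (2 * n) = ((c : ℤ) ^ n) ^ 2 := by rw [← pow_mul]; ring_nf
      rw [e]; exact hc4
    exact_mod_cast h1
  have hfin : (c : ℝ) * (c : ℝ) ^ (6 * n) ≤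
      (32 ^ n : ℝ) ^ (1 + δ) * (((A * B * (A + B) ^ 4).natAbs : ℕ) : ℝ) ^ (1 + δ) := by
    calc (c : ℝ) * (c : ℝ) ^ (6 * n)
       = (c : ℝ) ^ ((6 * n + 1 : ℕ) : ℝ) := by rw [Real.rpow_natCast]; ring
      _ ≤ (c : ℝ) ^ (((6 * n - 1 : ℕ) : ℝ) * (1 + δ)) := by
          apply Real.rpow_le_rpow_of_exponent_le hcR
          have e : ((6 * n - 1 : ℕ) : ℝ) = 6 * n - 1 := by
            rw [Nat.cast_sub (by omega)]; push_cast; ring
          rw [e]; push_cast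
          nlinarith
      _ = ((c : ℝ) ^ (6 * n - 1)) ^ (1 + δ) := by
          rw [Real.rpow_mul (by positivity), Real.rpow_natCast]
      _ ≤ (32 ^ n * (((A * B * (A + B) ^ 4).natAbs : ℕ) : ℝ)) ^ (1 + δ) :=
          Real.rpow_le_rpow (by positivity) hD (by linarith)
      _ = (32 ^ n : ℝ) ^ (1 + δ) * (((A * B * (A + B) ^ 4).natAbs : ℕ) : ℝ) ^ (1 + δ) :=
          Real.mul_rpow (by positivity) (by positivity)
  have hbal : 16 ^ (1 + δ) * ((((A + B) ^ 2 - 16 * A * B).natAbs : ℕ) : ℝ) ^ 3 ≤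
      (((A * B * (A + B) ^ 4).natAbs : ℕ) : ℝ) ^ (1 + δ) := by
    have h32 : (0 : ℝ) < (32 ^ n : ℝ) ^ (1 + δ) := by positivity
    have h16p : (0 : ℝ) ≤ (16 : ℝ) ^ (1 + δ) := by positivity
    have hc43 : ((((A + B) ^ 2 - 16 * A * B).natAbs : ℕ) : ℝ) ^ 3 ≤
        4913 * (c : ℝ) ^ (6 * n) := by
      calc ((((A + B) ^ 2 - 16 * A * B).natAbs : ℕ) : ℝ) ^ 3
          ≤ (17 * (c : ℝ) ^ (2 * n)) ^ 3 := pow_le_pow_left₀ (by positivity) hc4R 3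
        _ = 4913 * (c : ℝ) ^ (6 * n) := by
            rw [mul_pow, ← pow_mul, show 2 * n * 3 = 6 * n by ring]; norm_num
    generalize ((((A + B) ^ 2 - 16 * A * B).natAbs : ℕ) : ℝ) ^ 3 = X at hc43 ⊢
    generalize (((A * B * (A + B) ^ 4).natAbs : ℕ) : ℝ) ^ (1 + δ) = Z at hfin ⊢
    generalize (32 ^ n : ℝ) ^ (1 + δ) = D1 at hfin h32 hbig ⊢
    generalize (16 : ℝ) ^ (1 + δ) = D2 at h16p hbig ⊢
    have hc6 : (0 : ℝ) ≤ (c : ℝ) ^ (6 * n) := by positivity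
    generalize (c : ℝ) ^ (6 * n) = Q at hc6 hc43 hfin
    have h1 : D2 * X ≤ D2 * (4913 * Q) := mul_le_mul_of_nonneg_left hc43 h16p
    have h2 : D1 * (D2 * X) ≤ D1 * (D2 * (4913 * Q)) := mul_le_mul_of_nonneg_left h1 h32.le
    have h3 : D1 * (D2 * (4913 * Q)) = (D2 * 4913 * D1) * Q := by ring
    have h4 : (D2 * 4913 * D1) * Q ≤ c * Q := mul_le_mul_of_nonneg_right hbig hc6
    have h5 : D1 * (D2 * X) ≤ D1 * Z := by linarith
    exact le_of_mul_le_mul_left h5 h32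
  have key := frey_apply hC hC0 he A B hAB hA16 hB4 h0 hm' hbal
  refine hlow'.trans (key.trans ?_)
  apply mul_le_mul_of_nonneg_left _ (by positivity)
  apply Real.rpow_le_rpow (by positivity) _ (by linarith)
  rw [hnat]
  have h1 : rd (c ^ n * b ^ n * (a * Ψ)) ≤ rd (a * b * c) * Ψ := by
    have e : c ^ n * b ^ n * (a * Ψ) = (c ^ n * b ^ n * a) * Ψ := by ring
    rw [e]
    refine (rd_mul_le _ _ (by positivity) hΨ0.ne').trans ?_
    apply Nat.mul_le_mul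
    · apply rd_mono' (by positivity)
      intro p hp hpd
      rcases (Nat.Prime.dvd_mul hp).mp hpd with h | h
      · rcases (Nat.Prime.dvd_mul hp).mp h with h | h
        · exact Dvd.dvd.mul_left (hp.dvd_of_dvd_pow h) _
        · exact Dvd.dvd.mul_right (Dvd.dvd.mul_left (hp.dvd_of_dvd_pow h) _) _
      · exact Dvd.dvd.mul_right (Dvd.dvd.mul_right h _) _
    · exact rd_le hΨ0.ne'
  exact_mod_cast h1

end Pool.Agent.Lib.Szpiro
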