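import Mathlib
import Pool.Agent.Lib.MP_d8bd92_nt.Reduce2

set_option autoImplicit false

/-!
From the restricted class of curves with a point of order two to sums: conclusion.
-/

namespace Pool.Agent.Lib.Szpiro

open WeierstrassCurve WeierstrassCurve.Affine

theorem exists_exponent {m : ℕ} (hm : 0 < m) {δ : ℝ} (hδ : 0 < δ) :
    ∃ n : ℕ, 2 ∣ n ∧ 0 < n ∧ 16 * m ≤ n ∧ (16 * m).totient ∣ n ∧ 2 + δ ≤ 6 * n * δ := by
  obtain ⟨t, ht⟩ := exists_nat_ge ((2 + δ) / (6 * δ))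
  have hphi : 0 < (16 * m).totient := Nat.totient_pos.mpr (by omega)
  refine ⟨2 * (16 * m) * (16 * m).totient * (t + 1), ?_, by positivity, ?_, ?_, ?_⟩
  · exact ((Dvd.intro _ rfl : 2 ∣ 2 * (16 * m)).mul_right _).mul_right _
  · calc 16 * m ≤ 16 * m * (2 * (16 * m).totient * (t + 1)) :=
          Nat.le_mul_of_pos_right _ (by positivity)
      _ = _ := by ring
  · exact (Dvd.intro_left _ rfl : (16 * m).totient ∣ 2 * (16 * m) * (16 * m).totient).mul_right _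
  · have h1 : (t : ℝ) ≤ ((2 * (16 * m) * (16 * m).totient * (t + 1) : ℕ) : ℝ) := by
      have : t ≤ 2 * (16 * m) * (16 * m).totient * (t + 1) := by
        calc t ≤ t + 1 := Nat.le_succ t
          _ ≤ 2 * (16 * m) * (16 * m).totient * (t + 1) :=
            Nat.le_mul_of_pos_left _ (by positivity)
      exact_mod_cast this
    rw [div_le_iff₀ (by positivity)] at ht
    nlinarith

theorem claim_of_SzB {m : ℕ} (hm : 0 < m) {δ : ℝ} (hδ : 0 < δ) (h : SzB m δ) (ε : ℝ)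
    (hε : 0 < ε) : ∃ C : ℝ, ∀ a b : ℕ, 0 < a → a ≤ b → a.Coprime b →
    (a : ℝ) * (a + b : ℝ) ^ 5 ≤ C * ((rd (a * b * (a + b)) : ℕ) : ℝ) ^ (6 + ε) := by
  obtain ⟨n, hn2, hn0, hMn, hphi, hnδ⟩ := exists_exponent hm hδ
  obtain ⟨e, he0, he1, hne0, hne, hpar⟩ := absorb_param (k := (n : ℝ)) (by positivity) hε
  obtain ⟨C0, hC0⟩ := h e he0
  set C : ℝ := max C0 1 with hCdef
  have hC1 : 1 ≤ C := le_max_right _ _
  have hC : ∀ W : WeierstrassCurve ℤ, W.Δ ≠ 0 → IsCoprime W.c₄ W.Δ →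
      (∃ P : (W.baseChange ℚ).toAffine.Point, addOrderOf P = 2) → (m : ℤ) ∣ W.Δ →
      ((W.c₄.natAbs : ℕ) : ℝ) ^ 3 ≤ ((W.Δ.natAbs : ℕ) : ℝ) ^ (1 + δ) →
      ((W.Δ.natAbs : ℕ) : ℝ) ≤ C * ((rd W.Δ.natAbs : ℕ) : ℝ) ^ (6 + e) := by
    intro W h1 h2 h3 h4 h5
    refine (hC0 W h1 h2 h3 h4 h5).trans ?_
    exact mul_le_mul_of_nonneg_right (le_max_left _ _) (by positivity)
  set c0 : ℝ := 16 ^ (1 + δ) * 4913 * (32 ^ n : ℝ) ^ (1 + δ) with hc0
  set K1 : ℝ := 32 ^ n * (16 * C) * n ^ 6 with hK1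
  have hnR : (1 : ℝ) ≤ n := by exact_mod_cast hn0
  have hK11 : 1 ≤ K1 := by
    have h1 : (1 : ℝ) ≤ 32 ^ n := one_le_pow₀ (by norm_num)
    have h2 : (1 : ℝ) ≤ (n : ℝ) ^ 6 := one_le_pow₀ hnR
    have h3 : (1 : ℝ) ≤ 16 * C := by linarith
    calc (1 : ℝ) = 1 * 1 * 1 := by ring
      _ ≤ 32 ^ n * (16 * C) * n ^ 6 := by
        apply mul_le_mul (mul_le_mul h1 h3 (by norm_num) (by positivity)) h2 (by norm_num)
        positivity
  refine ⟨max (c0 ^ 6) (K1 ^ 2), ?_⟩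
  intro a b ha hab hco
  have hb : 0 < b := lt_of_lt_of_le ha hab
  obtain ⟨c, hc⟩ : ∃ c, a + b = c := ⟨_, rfl⟩
  have hcR : (a : ℝ) + b = c := by rw [← hc]; push_cast; ring
  rw [hcR, hc]
  have hcpos : 0 < c := by omega
  have hc1 : (1 : ℝ) ≤ c := by exact_mod_cast hcpos
  have ha1 : (1 : ℝ) ≤ a := by exact_mod_cast ha
  have hac : (a : ℝ) ≤ c := by
    have : a ≤ c := by omega
    exact_mod_cast this
  have hR := one_le_rd (a * b * c)
  set R : ℝ := ((rd (a * b * c) : ℕ) : ℝ) with hRdef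
  have hRp : 1 ≤ R ^ (6 + ε) := Real.one_le_rpow hR (by linarith)
  rcases lt_or_ge (c : ℝ) c0 with hlt | hge
  · have h1 : (a : ℝ) * (c : ℝ) ^ 5 ≤ c0 ^ 6 := by
      calc (a : ℝ) * (c : ℝ) ^ 5 ≤ c * (c : ℝ) ^ 5 :=
            mul_le_mul_of_nonneg_right hac (by positivity)
        _ = (c : ℝ) ^ 6 := by ring
        _ ≤ c0 ^ 6 := pow_le_pow_left₀ (by positivity) hlt.le 6
    have h2 : c0 ^ 6 ≤ max (c0 ^ 6) (K1 ^ 2) := le_max_left _ _
    calc (a : ℝ) * (c : ℝ) ^ 5 ≤ max (c0 ^ 6) (K1 ^ 2) * 1 := by linarith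
      _ ≤ _ := mul_le_mul_of_nonneg_left hRp (le_trans (by positivity) h2)
  · have hbc : b < c := by omega
    obtain ⟨Ψ, hΨ, hΨ1, hΨ2⟩ := exists_psi hn0 hbc
    have core := core_apply hδ hC (by linarith) he0.le hm hn2 hn0 hMn hphi hnδ ha hab hc hco hge
      hΨ hΨ1
    rw [← hRdef] at core
    have hΨ0 : 0 < Ψ := lt_of_lt_of_le (by positivity) hΨ1
    have hΨR0 : (0 : ℝ) < Ψ := by exact_mod_cast hΨ0
    have hR0 : 0 < R := by linarith
    -- b ≥ c / 2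
    have h2b : (c : ℝ) ≤ 2 * b := by
      have : c ≤ 2 * b := by omega
      exact_mod_cast this
    have hb5 : (c : ℝ) ^ (5 * n) ≤ (32 : ℝ) ^ n * (b : ℝ) ^ (5 * n) := by
      have e : (32 : ℝ) ^ n * (b : ℝ) ^ (5 * n) = (2 * b : ℝ) ^ (5 * n) := by
        rw [mul_pow, pow_mul 2 5 n]; norm_num
      rw [e]
      exact pow_le_pow_left₀ (by positivity) h2b _
    have hΨ2R : (Ψ : ℝ) ≤ n * (c : ℝ) ^ (n - 1) := by exact_mod_cast hΨ2
    have hsplit : (R * (Ψ : ℝ)) ^ (6 + e) = R ^ (6 + e) * ((Ψ : ℝ) ^ (5 + e) * Ψ) := by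
      rw [Real.mul_rpow hR0.le hΨR0.le]
      congr 1
      rw [show (6 : ℝ) + e = (5 + e) + 1 by ring, Real.rpow_add hΨR0, Real.rpow_one]
    have h1 : (Ψ : ℝ) * (a * (c : ℝ) ^ (5 * n)) ≤
        Ψ * (32 ^ n * (16 * C) * (R ^ (6 + e) * (Ψ : ℝ) ^ (5 + e))) := by
      calc (Ψ : ℝ) * (a * (c : ℝ) ^ (5 * n))
          ≤ Ψ * (a * ((32 : ℝ) ^ n * (b : ℝ) ^ (5 * n))) := by gcongr
        _ = 32 ^ n * (a * Ψ * (b : ℝ) ^ (5 * n)) := by ring
        _ ≤ 32 ^ n * (16 * C * (R * (Ψ : ℝ)) ^ (6 + e)) :=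
            mul_le_mul_of_nonneg_left core (by positivity)
        _ = _ := by rw [hsplit]; ring
    have h2 := le_of_mul_le_mul_left h1 hΨR0
    have h3 : (Ψ : ℝ) ^ (5 + e) ≤ n ^ 6 * ((c : ℝ) ^ (5 * (n - 1)) * (c : ℝ) ^ ((n : ℝ) * e)) := by
      calc (Ψ : ℝ) ^ (5 + e) ≤ (n * (c : ℝ) ^ (n - 1)) ^ (5 + e) :=
            Real.rpow_le_rpow hΨR0.le hΨ2R (by linarith)
        _ = (n : ℝ) ^ (5 + e) * ((c : ℝ) ^ (n - 1)) ^ (5 + e) :=
            Real.mul_rpow (by positivity) (by positivity)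
        _ = (n : ℝ) ^ (5 + e) * ((c : ℝ) ^ (5 * (n - 1)) * (c : ℝ) ^ (((n - 1 : ℕ) : ℝ) * e)) := by
            congr 1
            rw [Real.rpow_add (by positivity), Real.rpow_mul (by positivity),
              Real.rpow_natCast]
            congr 1
            rw [show (5 : ℝ) = ((5 : ℕ) : ℝ) by norm_num, Real.rpow_natCast, ← pow_mul]
            congr 1; ring
        _ ≤ n ^ 6 * ((c : ℝ) ^ (5 * (n - 1)) * (c : ℝ) ^ ((n : ℝ) * e)) := by
            apply mul_le_mul _ _ (by positivity) (by positivity)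
            · rw [← Real.rpow_natCast (n : ℝ) 6]
              exact Real.rpow_le_rpow_of_exponent_le hnR (by push_cast; linarith)
            · apply mul_le_mul_of_nonneg_left _ (by positivity)
              apply Real.rpow_le_rpow_of_exponent_le hc1
              have : ((n - 1 : ℕ) : ℝ) ≤ n := by exact_mod_cast Nat.sub_le n 1
              exact mul_le_mul_of_nonneg_right this he0.le
    have h4 : (c : ℝ) ^ (5 * (n - 1)) * (a * (c : ℝ) ^ 5) ≤
        (c : ℝ) ^ (5 * (n - 1)) * (K1 * R ^ (6 + e) * (c : ℝ) ^ ((n : ℝ) * e)) := by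
      calc (c : ℝ) ^ (5 * (n - 1)) * (a * (c : ℝ) ^ 5) = a * (c : ℝ) ^ (5 * n) := by
            rw [mul_left_comm, ← pow_add]; congr 2; omega
        _ ≤ 32 ^ n * (16 * C) * (R ^ (6 + e) * (Ψ : ℝ) ^ (5 + e)) := h2
        _ ≤ 32 ^ n * (16 * C) * (R ^ (6 + e) *
              (n ^ 6 * ((c : ℝ) ^ (5 * (n - 1)) * (c : ℝ) ^ ((n : ℝ) * e)))) := by
            gcongr
        _ = _ := by rw [hK1]; ring
    have h5 := le_of_mul_le_mul_left h4 (by positivity)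
    have hY1 : (c : ℝ) ≤ a * (c : ℝ) ^ 5 := by
      calc (c : ℝ) = 1 * (c : ℝ) ^ 1 := by ring
        _ ≤ a * (c : ℝ) ^ 5 := by
          apply mul_le_mul ha1 (pow_le_pow_right₀ hc1 (by norm_num)) (by positivity)
            (by positivity)
    have h6 : (a : ℝ) * (c : ℝ) ^ 5 ≤
        K1 * R ^ (6 + e) * (a * (c : ℝ) ^ 5) ^ ((n : ℝ) * e) := by
      refine h5.trans ?_
      apply mul_le_mul_of_nonneg_left _ (by positivity)
      exact Real.rpow_le_rpow (by positivity) hY1 hne0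
    have h7 := absorb (hc1.trans hY1) hR hK11 hne hpar h6 hne0
    refine h7.trans ?_
    exact mul_le_mul_of_nonneg_right (le_max_right _ _) (by positivity)

theorem TT_of_SzB {m : ℕ} (hm : 0 < m) {δ : ℝ} (hδ : 0 < δ) (h : SzB m δ) : TT := by
  intro ε hε
  obtain ⟨C, hC⟩ := claim_of_SzB hm hδ h ε hε
  refine ⟨C, ?_⟩
  have aux : ∀ a b : ℕ, 0 < a → a ≤ b → a.Coprime b →
      (a : ℝ) * b * (a + b : ℝ) ^ 4 ≤ C * ((rd (a * b * (a + b)) : ℕ) : ℝ) ^ (6 + ε) := by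
    intro a b ha hab hco
    refine le_trans ?_ (hC a b ha hab hco)
    have hb' : (b : ℝ) ≤ a + b := by
      have : (0 : ℝ) ≤ a := by positivity
      linarith
    calc (a : ℝ) * b * (a + b : ℝ) ^ 4 ≤ (a : ℝ) * (a + b) * (a + b : ℝ) ^ 4 := by gcongr
      _ = _ := by ring
  intro a b ha hb hco
  rcases le_total a b with hab | hab
  · exact aux a b ha hab hco
  · have := aux b a hb hab hco.symm
    rw [show b * a * (b + a) = a * b * (a + b) by ring] at this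
    calc (a : ℝ) * b * (a + b : ℝ) ^ 4 = (b : ℝ) * a * (b + a : ℝ) ^ 4 := by ring
      _ ≤ _ := this

end Pool.Agent.Lib.Szpiro
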