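import Mathlib
import Pool.Agent.Lib.MP_d8bd92_nt.Reduce3

set_option autoImplicit false

/-!
From sums to all semistable curves with `|c₄| ≤ |Δ|^K`, and the position of the curves with a
rational point of order two.
-/

namespace Pool.Agent.Lib.Szpiro

open WeierstrassCurve WeierstrassCurve.Affine

/-- symmetric form of the inequality for sums -/
theorem TT_sym {e C : ℝ} (hC : ∀ a b : ℕ, 0 < a → 0 < b → a.Coprime b →
    (a : ℝ) * b * (a + b : ℝ) ^ 4 ≤ C * ((rd (a * b * (a + b)) : ℕ) : ℝ) ^ (6 + e))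
    {p q r : ℕ} (hp : 0 < p) (hq : 0 < q) (hr : 0 < r) (hco : p.Coprime q)
    (h : p = q + r ∨ q = p + r ∨ r = p + q) :
    ∃ M : ℕ, p ≤ M ∧ q ≤ M ∧ r ≤ M ∧
      (p : ℝ) * q * r * (M : ℝ) ^ 3 ≤ C * ((rd (p * q * r) : ℕ) : ℝ) ^ (6 + e) := by
  rcases h with h | h | h
  · refine ⟨p, le_rfl, by omega, by omega, ?_⟩
    have hco' : q.Coprime r := by
      rw [h] at hco
      have : (q + r).Coprime q := hco
      rw [Nat.coprime_comm] at this
      simpa using this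
    have := hC q r hq hr hco'
    have e1 : q * r * (q + r) = p * q * r := by rw [h]; ring
    rw [e1] at this
    have e2 : (q : ℝ) + r = p := by rw [h]; push_cast; ring
    rw [e2] at this
    calc (p : ℝ) * q * r * (p : ℝ) ^ 3 = q * r * (p : ℝ) ^ 4 := by ring
      _ ≤ _ := this
  · refine ⟨q, by omega, le_rfl, by omega, ?_⟩
    have hco' : p.Coprime r := by
      rw [h] at hco
      simpa using hco
    have := hC p r hp hr hco'
    have e1 : p * r * (p + r) = p * q * r := by rw [h]; ring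
    rw [e1] at this
    have e2 : (p : ℝ) + r = q := by rw [h]; push_cast; ring
    rw [e2] at this
    calc (p : ℝ) * q * r * (q : ℝ) ^ 3 = p * r * (q : ℝ) ^ 4 := by ring
      _ ≤ _ := this
  · refine ⟨r, by omega, by omega, le_rfl, ?_⟩
    have := hC p q hp hq hco
    have e1 : p * q * (p + q) = p * q * r := by rw [h]
    rw [e1] at this
    have e2 : (p : ℝ) + q = r := by rw [h]; push_cast; ring
    rw [e2] at this
    calc (p : ℝ) * q * r * (r : ℝ) ^ 3 = p * q * (r : ℝ) ^ 4 := by ring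
      _ ≤ _ := this

/-- the inequality `D ≤ K₂ (xy)^e N^(6+e)` for the natural numbers `x = |c₄|, y = |c₆|, D = |Δ|` -/
theorem hall_core {e C : ℝ} (hC1 : 1 ≤ C) (he0 : 0 < e) (he1 : e ≤ 1)
    (hC : ∀ a b : ℕ, 0 < a → 0 < b → a.Coprime b →
    (a : ℝ) * b * (a + b : ℝ) ^ 4 ≤ C * ((rd (a * b * (a + b)) : ℕ) : ℝ) ^ (6 + e))
    {x y D : ℕ} (hx : 0 < x) (hy : 0 < y) (hD : 0 < D) (hco : x.Coprime D)
    (h : x ^ 3 = y ^ 2 + 1728 * D ∨ y ^ 2 = x ^ 3 + 1728 * D ∨ 1728 * D = x ^ 3 + y ^ 2) :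
    (D : ℝ) ≤ C * 1728 ^ 6 * 6 ^ 7 * ((x * y : ℕ) : ℝ) ^ e * ((rd D : ℕ) : ℝ) ^ (6 + e) := by
  set g := Nat.gcd (x ^ 3) (y ^ 2) with hg
  have hg0 : 0 < g := Nat.gcd_pos_of_pos_left _ (by positivity)
  obtain ⟨p', hp'⟩ : g ∣ x ^ 3 := Nat.gcd_dvd_left _ _
  obtain ⟨q', hq'⟩ : g ∣ y ^ 2 := Nat.gcd_dvd_right _ _
  have hgr : g ∣ 1728 * D := by
    rcases h with h | h | h
    · have h1 : g ∣ y ^ 2 + 1728 * D := by rw [← h]; exact Dvd.intro _ hp'.symm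
      exact (Nat.dvd_add_right (Dvd.intro _ hq'.symm)).mp h1
    · have h1 : g ∣ x ^ 3 + 1728 * D := by rw [← h]; exact Dvd.intro _ hq'.symm
      exact (Nat.dvd_add_right (Dvd.intro _ hp'.symm)).mp h1
    · rw [h]; exact Nat.dvd_add (Dvd.intro _ hp'.symm) (Dvd.intro _ hq'.symm)
  obtain ⟨r', hr'⟩ := hgr
  have hg1728 : g ∣ 1728 := by
    have h1 : Nat.Coprime g D :=
      Nat.Coprime.coprime_dvd_left (Nat.gcd_dvd_left _ _) (Nat.Coprime.pow_left 3 hco)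
    exact h1.dvd_of_dvd_mul_right (Dvd.intro _ hr'.symm)
  have hg1728' : g ≤ 1728 := Nat.le_of_dvd (by norm_num) hg1728
  have hp0 : 0 < p' := by
    rcases Nat.eq_zero_or_pos p' with h0 | h0
    · rw [h0, mul_zero] at hp'; exact absurd hp' (by positivity)
    · exact h0
  have hq0 : 0 < q' := by
    rcases Nat.eq_zero_or_pos q' with h0 | h0
    · rw [h0, mul_zero] at hq'; exact absurd hq' (by positivity)
    · exact h0
  have hr0 : 0 < r' := by
    rcases Nat.eq_zero_or_pos r' with h0 | h0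
    · rw [h0, mul_zero] at hr'; exact absurd hr' (by positivity)
    · exact h0
  have hcopq : p'.Coprime q' := by
    have h1 : Nat.gcd (g * p') (g * q') = g * 1 := by rw [← hp', ← hq', mul_one]
    rw [Nat.gcd_mul_left] at h1
    exact Nat.eq_of_mul_eq_mul_left hg0 h1
  have hsum : p' = q' + r' ∨ q' = p' + r' ∨ r' = p' + q' := by
    rw [hp', hq', hr'] at h
    rcases h with h | h | h
    · left; rw [← mul_add] at h; exact Nat.eq_of_mul_eq_mul_left hg0 h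
    · right; left; rw [← mul_add] at h; exact Nat.eq_of_mul_eq_mul_left hg0 h
    · right; right; rw [← mul_add] at h; exact Nat.eq_of_mul_eq_mul_left hg0 h
  obtain ⟨M, hM1, hM2, hM3, key⟩ := TT_sym hC hp0 hq0 hr0 hcopq hsum
  have hrad : rd (p' * q' * r') ≤ 6 * (x * y) * rd D := by
    calc rd (p' * q' * r') ≤ rd ((6 * (x * y)) * D) := by
          apply rd_mono' (by positivity)
          intro l hl hld
          have e6 : l ∣ x ^ 3 → l ∣ 6 * (x * y) * D := fun h =>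
            ((Dvd.dvd.mul_right (hl.dvd_of_dvd_pow h) y).mul_left 6).mul_right D
          rcases (Nat.Prime.dvd_mul hl).mp hld with h1 | h1
          · rcases (Nat.Prime.dvd_mul hl).mp h1 with h2 | h2
            · exact e6 (by rw [hp']; exact h2.mul_left g)
            · have h3 : l ∣ y ^ 2 := by rw [hq']; exact h2.mul_left g
              exact ((Dvd.dvd.mul_left (hl.dvd_of_dvd_pow h3) x).mul_left 6).mul_right D
          · have h3 : l ∣ 1728 * D := by rw [hr']; exact h1.mul_left g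
            rcases (Nat.Prime.dvd_mul hl).mp h3 with h4 | h4
            · have h5 : l ∣ 6 := by
                have : l ∣ 6 ^ 6 := h4.trans (by norm_num)
                exact hl.dvd_of_dvd_pow this
              exact (h5.mul_right _).mul_right _
            · exact h4.mul_left _
      _ ≤ rd (6 * (x * y)) * rd D := rd_mul_le _ _ (by positivity) hD.ne'
      _ ≤ 6 * (x * y) * rd D := Nat.mul_le_mul_right _ (rd_le (by positivity))
  -- real computation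
  have hN := one_le_rd D
  set N : ℝ := ((rd D : ℕ) : ℝ) with hNdef
  set z : ℝ := ((x * y : ℕ) : ℝ) with hz
  have hz1 : 1 ≤ z := by
    rw [hz]; exact_mod_cast Nat.mul_pos hx hy
  have hgR : (0 : ℝ) < g := by exact_mod_cast hg0
  have hp'R : (x : ℝ) ^ 3 = g * p' := by exact_mod_cast hp'
  have hq'R : (y : ℝ) ^ 2 = g * q' := by exact_mod_cast hq'
  have hr'R : (1728 : ℝ) * D = g * r' := by exact_mod_cast hr'
  have hpR : (0 : ℝ) < p' := by exact_mod_cast hp0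
  have hqR : (0 : ℝ) < q' := by exact_mod_cast hq0
  have hM1R : (p' : ℝ) ≤ M := by exact_mod_cast hM1
  have hM2R : (q' : ℝ) ≤ M := by exact_mod_cast hM2
  have hMR : (0 : ℝ) < M := lt_of_lt_of_le hpR hM1R
  have hradR : ((rd (p' * q' * r') : ℕ) : ℝ) ≤ 6 * z * N := by
    rw [hz, hNdef]; exact_mod_cast hrad
  have h1 : ((rd (p' * q' * r') : ℕ) : ℝ) ^ (6 + e) ≤ 6 ^ 7 * (z ^ 6 * z ^ e) * N ^ (6 + e) := by
    calc ((rd (p' * q' * r') : ℕ) : ℝ) ^ (6 + e) ≤ (6 * z * N) ^ (6 + e) :=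
          Real.rpow_le_rpow (by positivity) hradR (by linarith)
      _ = 6 ^ (6 + e) * z ^ (6 + e) * N ^ (6 + e) := by
          rw [Real.mul_rpow (by positivity) (by positivity),
            Real.mul_rpow (by positivity) (by positivity)]
      _ ≤ 6 ^ 7 * (z ^ 6 * z ^ e) * N ^ (6 + e) := by
          apply mul_le_mul_of_nonneg_right _ (by positivity)
          apply mul_le_mul _ _ (by positivity) (by positivity)
          · rw [← Real.rpow_natCast (6 : ℝ) 7]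
            exact Real.rpow_le_rpow_of_exponent_le (by norm_num) (by push_cast; linarith)
          · rw [Real.rpow_add (by positivity)]
            apply le_of_eq
            congr 1
            rw [← Real.rpow_natCast z 6]
            norm_num
  -- z^6 = x^6 y^6 = g^5 p'^2 q'^3
  have h2 : z ^ 6 = g ^ 5 * p' ^ 2 * q' ^ 3 := by
    rw [hz]; push_cast
    calc ((x : ℝ) * y) ^ 6 = ((x : ℝ) ^ 3) ^ 2 * ((y : ℝ) ^ 2) ^ 3 := by ring
      _ = _ := by rw [hp'R, hq'R]; ring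
  have h3 : z ^ 6 ≤ 1728 ^ 5 * (p' * q' * (M : ℝ) ^ 3) := by
    rw [h2]
    have hg5 : (g : ℝ) ^ 5 ≤ 1728 ^ 5 :=
      pow_le_pow_left₀ hgR.le (by exact_mod_cast hg1728') 5
    calc (g : ℝ) ^ 5 * p' ^ 2 * q' ^ 3 = (g : ℝ) ^ 5 * (p' * q' * (p' * q' ^ 2)) := by ring
      _ ≤ 1728 ^ 5 * (p' * q' * ((M : ℝ) * (M : ℝ) ^ 2)) := by gcongr
      _ = _ := by ring
  have h4 : (p' * q' * (M : ℝ) ^ 3) * r' ≤
      (p' * q' * (M : ℝ) ^ 3) * (C * 1728 ^ 5 * 6 ^ 7 * z ^ e * N ^ (6 + e)) := by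
    calc (p' * q' * (M : ℝ) ^ 3) * r' = (p' : ℝ) * q' * r' * (M : ℝ) ^ 3 := by ring
      _ ≤ C * ((rd (p' * q' * r') : ℕ) : ℝ) ^ (6 + e) := key
      _ ≤ C * (6 ^ 7 * (z ^ 6 * z ^ e) * N ^ (6 + e)) :=
          mul_le_mul_of_nonneg_left h1 (by linarith)
      _ ≤ C * (6 ^ 7 * ((1728 ^ 5 * (p' * q' * (M : ℝ) ^ 3)) * z ^ e) * N ^ (6 + e)) := by
          gcongr
      _ = _ := by ring
  have h5 := le_of_mul_le_mul_left h4 (by positivity)
  have h6 : (D : ℝ) ≤ 1728 * r' := by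
    have : (1728 : ℝ) * D ≤ 1728 * r' := by
      rw [hr'R]
      apply mul_le_mul_of_nonneg_right _ (by positivity)
      exact_mod_cast hg1728'
    have hD' : (0 : ℝ) ≤ D := by positivity
    linarith
  calc (D : ℝ) ≤ 1728 * r' := h6
    _ ≤ 1728 * (C * 1728 ^ 5 * 6 ^ 7 * z ^ e * N ^ (6 + e)) := by linarith
    _ = _ := by ring

/-- Szpiro's inequality in the range `|c₄| ≤ |Δ|^K` -/
theorem hall_of_TT (h : TT) (K ε : ℝ) (hε : 0 < ε) : ∃ C : ℝ, ∀ W : WeierstrassCurve ℤ,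
    W.Δ ≠ 0 → IsCoprime W.c₄ W.Δ →
    ((W.c₄.natAbs : ℕ) : ℝ) ≤ ((W.Δ.natAbs : ℕ) : ℝ) ^ K →
    ((W.Δ.natAbs : ℕ) : ℝ) ≤ C * ((rd W.Δ.natAbs : ℕ) : ℝ) ^ (6 + ε) := by
  obtain ⟨k, hk⟩ := exists_nat_ge (max K 1)
  have hkK : K ≤ k := (le_max_left _ _).trans hk
  have hk1 : 1 ≤ k := by exact_mod_cast (le_max_right K 1).trans hk
  obtain ⟨e, he0, he1, hne0, hne, hpar⟩ := absorb_param (k := ((3 * k : ℕ) : ℝ)) (by positivity) hε
  obtain ⟨C0, hC0⟩ := h e he0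
  set C : ℝ := max C0 1 with hCdef
  have hC1 : 1 ≤ C := le_max_right _ _
  have hC : ∀ a b : ℕ, 0 < a → 0 < b → a.Coprime b →
      (a : ℝ) * b * (a + b : ℝ) ^ 4 ≤ C * ((rd (a * b * (a + b)) : ℕ) : ℝ) ^ (6 + e) := by
    intro a b ha hb hab
    exact (hC0 a b ha hb hab).trans (mul_le_mul_of_nonneg_right (le_max_left _ _) (by positivity))
  set K2 : ℝ := C * 1728 ^ 6 * 6 ^ 7 * 42 with hK2
  have hK21 : 1 ≤ K2 := by rw [hK2]; nlinarith
  refine ⟨K2 ^ 2, ?_⟩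
  intro W hΔ hss hc4
  have hD : 0 < W.Δ.natAbs := Int.natAbs_pos.mpr hΔ
  have hD1 : (1 : ℝ) ≤ ((W.Δ.natAbs : ℕ) : ℝ) := by exact_mod_cast hD
  have hN := one_le_rd W.Δ.natAbs
  have triv : W.Δ.natAbs = 1 →
      ((W.Δ.natAbs : ℕ) : ℝ) ≤ K2 ^ 2 * ((rd W.Δ.natAbs : ℕ) : ℝ) ^ (6 + ε) := by
    intro h1
    have h2 : (1 : ℝ) ≤ ((rd W.Δ.natAbs : ℕ) : ℝ) ^ (6 + ε) :=
      Real.one_le_rpow hN (by linarith)
    have h3 : (1 : ℝ) ≤ K2 ^ 2 := one_le_pow₀ hK21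
    have h4 : ((W.Δ.natAbs : ℕ) : ℝ) = 1 := by exact_mod_cast h1
    rw [h4]
    nlinarith
  have hrel := W.c_relation
  by_cases hc40 : W.c₄ = 0
  · apply triv
    rw [hc40] at hss
    exact Int.isUnit_iff_natAbs_eq.mp ((isCoprime_zero_left).mp hss)
  by_cases hc60 : W.c₆ = 0
  · apply triv
    rw [hc60] at hrel
    have h1 : W.Δ ∣ W.c₄ ^ 3 := ⟨1728, by linear_combination -hrel⟩
    have h2 : IsCoprime (W.c₄ ^ 3) W.Δ := hss.pow_left
    exact Int.isUnit_iff_natAbs_eq.mp (h2.isUnit_of_dvd' h1 dvd_rfl)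
  have hx : 0 < W.c₄.natAbs := Int.natAbs_pos.mpr hc40
  have hy : 0 < W.c₆.natAbs := Int.natAbs_pos.mpr hc60
  have hcoN : W.c₄.natAbs.Coprime W.Δ.natAbs := by
    rw [Nat.Coprime, ← Int.gcd_def]; exact Int.isCoprime_iff_gcd_eq_one.mp hss
  have habs : W.c₄.natAbs ^ 3 = W.c₆.natAbs ^ 2 + 1728 * W.Δ.natAbs ∨
      W.c₆.natAbs ^ 2 = W.c₄.natAbs ^ 3 + 1728 * W.Δ.natAbs ∨
      1728 * W.Δ.natAbs = W.c₄.natAbs ^ 3 + W.c₆.natAbs ^ 2 := by
    have e1 : (W.c₄ ^ 3).natAbs = W.c₄.natAbs ^ 3 := Int.natAbs_pow _ _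
    have e2 : (W.c₆ ^ 2).natAbs = W.c₆.natAbs ^ 2 := Int.natAbs_pow _ _
    have e3 : (1728 * W.Δ).natAbs = 1728 * W.Δ.natAbs := by rw [Int.natAbs_mul]; rfl
    have e4 : 0 ≤ W.c₆ ^ 2 := sq_nonneg _
    rw [← e1, ← e2, ← e3]
    generalize W.c₄ ^ 3 = P at *
    generalize W.c₆ ^ 2 = Q at *
    generalize 1728 * W.Δ = R at *
    omega
  have core := hall_core hC1 he0 he1 hC hx hy hD hcoN habs
  set x := W.c₄.natAbs with hxdef
  set y := W.c₆.natAbs with hydef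
  set D := W.Δ.natAbs with hDdef
  -- bounds for x and y
  have hxb : (x : ℝ) ≤ (D : ℝ) ^ k := by
    refine hc4.trans ?_
    rw [← Real.rpow_natCast (D : ℝ) k]
    exact Real.rpow_le_rpow_of_exponent_le hD1 hkK
  have hyb : (y : ℝ) ≤ 42 * (D : ℝ) ^ (2 * k) := by
    have h1 : y ^ 2 ≤ x ^ 3 + 1728 * D := by omega
    have h2 : (y : ℝ) ^ 2 ≤ (x : ℝ) ^ 3 + 1728 * D := by exact_mod_cast h1
    have h3 : (x : ℝ) ^ 3 ≤ (D : ℝ) ^ (4 * k) := by
      calc (x : ℝ) ^ 3 ≤ ((D : ℝ) ^ k) ^ 3 := pow_le_pow_left₀ (by positivity) hxb 3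
        _ = (D : ℝ) ^ (3 * k) := by rw [← pow_mul]; congr 1; ring
        _ ≤ (D : ℝ) ^ (4 * k) := pow_le_pow_right₀ hD1 (by omega)
    have h4 : (D : ℝ) ≤ (D : ℝ) ^ (4 * k) := by
      calc (D : ℝ) = (D : ℝ) ^ 1 := (pow_one _).symm
        _ ≤ (D : ℝ) ^ (4 * k) := pow_le_pow_right₀ hD1 (by omega)
    have h5 : (y : ℝ) ^ 2 ≤ (42 * (D : ℝ) ^ (2 * k)) ^ 2 := by
      have e : (42 * (D : ℝ) ^ (2 * k)) ^ 2 = 1764 * (D : ℝ) ^ (4 * k) := by
        rw [mul_pow, ← pow_mul, show 2 * k * 2 = 4 * k by ring]; norm_num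
      rw [e]
      have : (0 : ℝ) ≤ (D : ℝ) ^ (4 * k) := by positivity
      linarith
    exact (sq_le_sq₀ (by positivity) (by positivity)).mp h5
  have hxy : ((x * y : ℕ) : ℝ) ≤ 42 * (D : ℝ) ^ (3 * k) := by
    push_cast
    calc (x : ℝ) * y ≤ (D : ℝ) ^ k * (42 * (D : ℝ) ^ (2 * k)) := by gcongr
      _ = 42 * (D : ℝ) ^ (3 * k) := by rw [show 3 * k = k + 2 * k by ring, pow_add]; ring
  have hxye : ((x * y : ℕ) : ℝ) ^ e ≤ 42 * (D : ℝ) ^ (((3 * k : ℕ) : ℝ) * e) := by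
    calc ((x * y : ℕ) : ℝ) ^ e ≤ (42 * (D : ℝ) ^ (3 * k)) ^ e :=
          Real.rpow_le_rpow (by positivity) hxy he0.le
      _ = 42 ^ e * ((D : ℝ) ^ (3 * k)) ^ e := Real.mul_rpow (by positivity) (by positivity)
      _ ≤ 42 * (D : ℝ) ^ (((3 * k : ℕ) : ℝ) * e) := by
          apply mul_le_mul _ _ (by positivity) (by positivity)
          · calc (42 : ℝ) ^ e ≤ 42 ^ (1 : ℝ) :=
                  Real.rpow_le_rpow_of_exponent_le (by norm_num) he1
              _ = 42 := Real.rpow_one _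
          · rw [Real.rpow_mul (by positivity), Real.rpow_natCast]
  have hfin : (D : ℝ) ≤ K2 * ((rd D : ℕ) : ℝ) ^ (6 + e) * (D : ℝ) ^ (((3 * k : ℕ) : ℝ) * e) := by
    calc (D : ℝ) ≤ C * 1728 ^ 6 * 6 ^ 7 * ((x * y : ℕ) : ℝ) ^ e *
          ((rd D : ℕ) : ℝ) ^ (6 + e) := core
      _ ≤ C * 1728 ^ 6 * 6 ^ 7 * (42 * (D : ℝ) ^ (((3 * k : ℕ) : ℝ) * e)) *
          ((rd D : ℕ) : ℝ) ^ (6 + e) := by gcongr
      _ = _ := by rw [hK2]; ring
  exact absorb hD1 hN hK21 hne hpar hfin hne0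

end Pool.Agent.Lib.Szpiro
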