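import Pool.Agent.Lib.MP_d8bd92_nt.CdA

set_option autoImplicit false

/-!
Combinatorial lemmas on sets of pairs of integers with small radicals.
-/

namespace Pool.Agent.Lib.MP_d8bd92_nt

open Finset Pool.Agent.Lib.Szpiro

theorem Icc_sum_inv_nonneg (Z : ℕ) : 0 ≤ ∑ a ∈ Icc 1 Z, ((rd a : ℝ))⁻¹ :=
  Finset.sum_nonneg (fun _ _ => by positivity)

/-- a set fibred over triples `(j, m, u)` with fibres of size at most `Q / (rad m rad u)` -/
theorem weighted_count {α : Type*} [DecidableEq α] (σ : ℝ) (hσ : 0 < σ) : ∃ C : ℝ, 1 ≤ C ∧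
    ∀ (Z K : ℕ) (Q : ℝ) (S : Finset α) (g : α → ℕ × ℕ × ℕ), 1 ≤ Z → 0 ≤ Q →
    (∀ w ∈ S, (g w).1 < K ∧ 1 ≤ (g w).2.1 ∧ (g w).2.1 ≤ Z ∧ 1 ≤ (g w).2.2 ∧ (g w).2.2 ≤ Z) →
    (∀ j m u : ℕ, ((S.filter (fun w => g w = (j, m, u))).card : ℝ) ≤
      Q * (((rd m : ℝ))⁻¹ * ((rd u : ℝ))⁻¹)) →
    (S.card : ℝ) ≤ C * K * (Z : ℝ) ^ σ * Q := by
  classical
  obtain ⟨C, hC1, hC⟩ := sum_inv_rd (σ / 2) (by positivity)
  refine ⟨C ^ 2, one_le_pow₀ hC1, ?_⟩
  intro Z K Q S g hZ hQ hS hfib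
  have hZ0 : (0 : ℝ) < (Z : ℝ) := by exact_mod_cast hZ
  set I : Finset (ℕ × ℕ × ℕ) := (range K) ×ˢ ((Icc 1 Z) ×ˢ (Icc 1 Z)) with hI
  have hmaps : ∀ w ∈ S, g w ∈ I := by
    intro w hw
    obtain ⟨h1, h2, h3, h4, h5⟩ := hS w hw
    simp only [hI, Finset.mem_product, Finset.mem_range, Finset.mem_Icc]
    exact ⟨h1, ⟨h2, h3⟩, h4, h5⟩
  have hcardS : (S.card : ℝ) = ∑ i ∈ I, ((S.filter (fun w => g w = i)).card : ℝ) := by
    have h1 := Finset.card_eq_sum_card_fiberwise hmaps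
    rw [h1]
    push_cast
    rfl
  have h5 := hC Z hZ
  have h6 := Icc_sum_inv_nonneg Z
  have h7 : (Z : ℝ) ^ (σ / 2) * (Z : ℝ) ^ (σ / 2) = (Z : ℝ) ^ σ := by
    rw [← Real.rpow_add hZ0]
    congr 1
    ring
  have h8 : (∑ a ∈ Icc 1 Z, ((rd a : ℝ))⁻¹) * (∑ a ∈ Icc 1 Z, ((rd a : ℝ))⁻¹) ≤
      (C * (Z : ℝ) ^ (σ / 2)) * (C * (Z : ℝ) ^ (σ / 2)) := mul_le_mul h5 h5 h6 (h6.trans h5)
  calc (S.card : ℝ) = ∑ i ∈ I, ((S.filter (fun w => g w = i)).card : ℝ) := hcardS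
    _ ≤ ∑ i ∈ I, Q * (((rd i.2.1 : ℝ))⁻¹ * ((rd i.2.2 : ℝ))⁻¹) := by
        apply Finset.sum_le_sum
        rintro ⟨j, m, u⟩ _
        exact hfib j m u
    _ = K * (Q * ((∑ a ∈ Icc 1 Z, ((rd a : ℝ))⁻¹) * (∑ a ∈ Icc 1 Z, ((rd a : ℝ))⁻¹))) := by
        rw [hI, Finset.sum_product]
        dsimp only
        rw [Finset.sum_const, nsmul_eq_mul, Finset.card_range, Finset.sum_product,
          Finset.sum_mul_sum]
        simp only [Finset.mul_sum]
    _ ≤ K * (Q * ((C * (Z : ℝ) ^ (σ / 2)) * (C * (Z : ℝ) ^ (σ / 2)))) := by gcongr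
    _ = C ^ 2 * K * ((Z : ℝ) ^ (σ / 2) * (Z : ℝ) ^ (σ / 2)) * Q := by ring
    _ = C ^ 2 * K * (Z : ℝ) ^ σ * Q := by rw [h7]

/-- Cauchy-Schwarz for pairs with few common neighbours. -/
theorem cs_count (σ : ℝ) (hσ : 0 < σ) : ∃ C : ℝ, 1 ≤ C ∧
    ∀ (Z : ℕ) (R D : ℝ) (S : Finset (ℕ × ℕ)), 1 ≤ Z → 1 ≤ R → 1 ≤ D →
    (∀ w ∈ S, 1 ≤ w.1 ∧ w.1 ≤ Z ∧ 1 ≤ w.2 ∧ w.2 ≤ Z ∧ (rd w.1 : ℝ) * rd w.2 ≤ R ∧
      (rd w.1 : ℝ) ≤ R ^ (1 / 2 : ℝ) ∧ (rd w.2 : ℝ) ≤ R ^ (3 / 4 : ℝ)) →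
    (∀ m m' : ℕ, m ≠ m' →
      (((Icc 1 Z).filter (fun n => (m, n) ∈ S ∧ (m', n) ∈ S)).card : ℝ) ≤ D) →
    (S.card : ℝ) ≤ C * D * (Z : ℝ) ^ σ * R ^ (3 / 4 : ℝ) := by
  classical
  obtain ⟨C, hC1, hC⟩ := sum_inv_rd (σ / 2) (by positivity)
  refine ⟨2 * C ^ 2, by linarith [one_le_pow₀ (n := 2) hC1], ?_⟩
  intro Z R D S hZ hR hD hS hcom
  have hR0 : 0 < R := by linarith
  have hZ1 : (1 : ℝ) ≤ (Z : ℝ) := by exact_mod_cast hZ
  have hZ0 : (0 : ℝ) < (Z : ℝ) := by linarith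
  set V : ℝ := C * (Z : ℝ) ^ (σ / 2) with hV
  have hV1 : 1 ≤ V := by
    have h1 : 1 ≤ (Z : ℝ) ^ (σ / 2) := Real.one_le_rpow hZ1 (by positivity)
    rw [hV]
    exact one_le_mul_of_one_le_of_one_le hC1 h1
  have hsum := hC Z hZ
  rw [← hV] at hsum
  have hsum0 := Icc_sum_inv_nonneg Z
  set I := Icc 1 Z with hI
  set c : ℕ → ℕ → ℝ := fun m n => if (m, n) ∈ S then 1 else 0 with hc
  have hc0 : ∀ m n, 0 ≤ c m n := by
    intro m n
    simp only [hc]
    split_ifs <;> norm_num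
  have hc1 : ∀ m n, c m n * c m n = c m n := by
    intro m n
    simp only [hc]
    split_ifs <;> norm_num
  have hSI : S ⊆ I ×ˢ I := by
    intro w hw
    obtain ⟨h1, h2, h3, h4, _⟩ := hS w hw
    rw [Finset.mem_product, hI, Finset.mem_Icc, Finset.mem_Icc]
    exact ⟨⟨h1, h2⟩, ⟨h3, h4⟩⟩
  have hE : (S.card : ℝ) = ∑ m ∈ I, ∑ n ∈ I, c m n := by
    rw [← Finset.sum_product']
    simp only [hc]
    rw [← Finset.sum_filter, Finset.sum_const, nsmul_eq_mul, mul_one]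
    congr 2
    ext w
    rw [Finset.mem_filter]
    exact ⟨fun h => ⟨hSI h, h⟩, fun h => h.2⟩
  have hE' : (S.card : ℝ) = ∑ n ∈ I, ∑ m ∈ I, c m n := by rw [hE, Finset.sum_comm]
  -- Cauchy-Schwarz
  have hCS : (S.card : ℝ) ^ 2 ≤ (∑ n ∈ I, ((rd n : ℝ))⁻¹) *
      ∑ n ∈ I, (rd n : ℝ) * (∑ m ∈ I, c m n) ^ 2 := by
    rw [hE']
    apply Finset.sum_sq_le_sum_mul_sum_of_sq_le_mul
    · intro n _; positivity
    · intro n _; positivity
    · intro n _
      have : (rd n : ℝ) ≠ 0 := by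
        have := one_le_rd n
        linarith
      apply le_of_eq
      field_simp
  have hexp : ∑ n ∈ I, (rd n : ℝ) * (∑ m ∈ I, c m n) ^ 2 =
      ∑ m ∈ I, ∑ m' ∈ I, ∑ n ∈ I, (rd n : ℝ) * (c m n * c m' n) := by
    have h1 : ∀ n ∈ I, (rd n : ℝ) * (∑ m ∈ I, c m n) ^ 2 =
        ∑ m ∈ I, ∑ m' ∈ I, (rd n : ℝ) * (c m n * c m' n) := by
      intro n _
      rw [sq, Finset.sum_mul_sum, Finset.mul_sum]
      apply Finset.sum_congr rfl
      intro m _
      rw [Finset.mul_sum]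
    rw [Finset.sum_congr rfl h1, Finset.sum_comm]
    apply Finset.sum_congr rfl
    intro m _
    rw [Finset.sum_comm]
  have hterm : ∀ m ∈ I, ∀ m' ∈ I, ∑ n ∈ I, (rd n : ℝ) * (c m n * c m' n) ≤
      (if m = m' then ∑ n ∈ I, R ^ (3 / 4 : ℝ) * c m n else 0) +
      D * R ^ (3 / 2 : ℝ) * (((rd m : ℝ))⁻¹ * ((rd m' : ℝ))⁻¹) := by
    intro m _ m' _
    have hm := one_le_rd m
    have hm' := one_le_rd m'
    have hpos : 0 ≤ D * R ^ (3 / 2 : ℝ) * (((rd m : ℝ))⁻¹ * ((rd m' : ℝ))⁻¹) := by positivity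
    by_cases h : m = m'
    · subst h
      rw [if_pos rfl]
      have h1 : ∑ n ∈ I, (rd n : ℝ) * (c m n * c m n) ≤ ∑ n ∈ I, R ^ (3 / 4 : ℝ) * c m n := by
        apply Finset.sum_le_sum
        intro n _
        rw [hc1]
        by_cases hmn : (m, n) ∈ S
        · obtain ⟨_, _, _, _, _, _, h7⟩ := hS _ hmn
          exact mul_le_mul_of_nonneg_right h7 (hc0 _ _)
        · simp [hc, hmn]
      linarith
    · rw [if_neg h, zero_add]
      have h1 : ∀ n ∈ I, (rd n : ℝ) * (c m n * c m' n) ≤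
          (if (m, n) ∈ S ∧ (m', n) ∈ S then
            R ^ (3 / 2 : ℝ) * (((rd m : ℝ))⁻¹ * ((rd m' : ℝ))⁻¹) else 0) := by
        intro n _
        by_cases hmn : (m, n) ∈ S ∧ (m', n) ∈ S
        · rw [if_pos hmn]
          simp only [hc, if_pos hmn.1, if_pos hmn.2, mul_one]
          obtain ⟨_, _, _, _, h5, h6, _⟩ := hS _ hmn.1
          obtain ⟨_, _, _, _, h5', h6', _⟩ := hS _ hmn.2
          simp only at h5 h6 h5' h6'
          set a : ℝ := (rd m : ℝ) with ha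
          set b : ℝ := (rd m' : ℝ) with hb
          set r : ℝ := (rd n : ℝ) with hr
          have hr1 : 1 ≤ r := one_le_rd n
          have ha0 : 0 < a := by linarith
          have hb0 : 0 < b := by linarith
          rw [← mul_inv, ← div_eq_mul_inv, le_div_iff₀ (by positivity)]
          -- r * (a * b) ≤ R^(3/2)
          have hab : a * b ≤ R := by
            have h8 : a * b ≤ R ^ (1 / 2 : ℝ) * R ^ (1 / 2 : ℝ) :=
              mul_le_mul h6 h6' hb0.le (by positivity)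
            rw [← Real.rpow_add hR0] at h8
            norm_num at h8
            exact h8
          apply le_of_sq_le_sq _ (by positivity)
          have h9 : (R ^ (3 / 2 : ℝ)) ^ 2 = R ^ 3 := by
            rw [← Real.rpow_natCast, ← Real.rpow_mul hR0.le, ← Real.rpow_natCast]
            norm_num
          rw [h9]
          calc (r * (a * b)) ^ 2 = (a * r) * (b * r) * (a * b) := by ring
            _ ≤ R * R * R := by
                apply mul_le_mul _ hab (by positivity) (by positivity)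
                exact mul_le_mul h5 h5' (by positivity) hR0.le
            _ = R ^ 3 := by ring
        · rw [if_neg hmn]
          have h2 : c m n * c m' n = 0 := by
            simp only [hc]
            by_cases h3 : (m, n) ∈ S
            · have h4 : (m', n) ∉ S := fun h4 => hmn ⟨h3, h4⟩
              rw [if_neg h4, mul_zero]
            · rw [if_neg h3, zero_mul]
          rw [h2, mul_zero]
      refine (Finset.sum_le_sum h1).trans ?_
      rw [← Finset.sum_filter, Finset.sum_const, nsmul_eq_mul]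
      have h2 := hcom m m' h
      calc (((I.filter (fun n => (m, n) ∈ S ∧ (m', n) ∈ S)).card : ℕ) : ℝ) *
            (R ^ (3 / 2 : ℝ) * (((rd m : ℝ))⁻¹ * ((rd m' : ℝ))⁻¹)) ≤
          D * (R ^ (3 / 2 : ℝ) * (((rd m : ℝ))⁻¹ * ((rd m' : ℝ))⁻¹)) :=
            mul_le_mul_of_nonneg_right h2 (by positivity)
        _ = D * R ^ (3 / 2 : ℝ) * (((rd m : ℝ))⁻¹ * ((rd m' : ℝ))⁻¹) := by ring
  have htot : ∑ n ∈ I, (rd n : ℝ) * (∑ m ∈ I, c m n) ^ 2 ≤
      R ^ (3 / 4 : ℝ) * (S.card : ℝ) + D * R ^ (3 / 2 : ℝ) * (V * V) := by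
    rw [hexp]
    refine (Finset.sum_le_sum (fun m hm => Finset.sum_le_sum (hterm m hm))).trans ?_
    simp only [Finset.sum_add_distrib]
    apply add_le_add
    · rw [hE, Finset.mul_sum]
      apply Finset.sum_le_sum
      intro m hm
      rw [Finset.sum_ite_eq, if_pos hm, Finset.mul_sum]
    · simp_rw [← Finset.mul_sum]
      rw [← Finset.sum_mul]
      apply mul_le_mul_of_nonneg_left _ (by positivity)
      exact mul_le_mul hsum hsum hsum0 (by linarith)
  set E : ℝ := (S.card : ℝ) with hEdef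
  have hE0 : 0 ≤ E := Nat.cast_nonneg _
  have hquad : E ^ 2 ≤ V * (R ^ (3 / 4 : ℝ) * E + D * R ^ (3 / 2 : ℝ) * (V * V)) := by
    refine hCS.trans ?_
    apply mul_le_mul hsum htot _ (by linarith)
    apply Finset.sum_nonneg
    intro n _
    positivity
  set q : ℝ := R ^ (3 / 4 : ℝ) with hq
  have hq0 : 0 < q := by positivity
  have hqq : R ^ (3 / 2 : ℝ) = q * q := by
    rw [hq, ← Real.rpow_add hR0]; norm_num
  rw [hqq] at hquad
  have hfin : E ≤ 2 * (D * V ^ 2 * q) := by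
    by_contra hcon
    push Not at hcon
    set u : ℝ := D * V ^ 2 * q with hu
    have hV0 : 0 < V := by linarith
    have hD0 : 0 < D := by linarith
    have hu0 : 0 < u := by positivity
    have h1 : V * q ≤ u := by
      rw [hu]
      have h2 : V ≤ D * V ^ 2 := by
        calc V = 1 * (V * 1) := by ring
          _ ≤ D * (V * V) := mul_le_mul hD (mul_le_mul_of_nonneg_left hV1 hV0.le)
              (by rw [mul_one]; exact hV0.le) hD0.le
          _ = D * V ^ 2 := by ring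
      exact mul_le_mul_of_nonneg_right h2 hq0.le
    have h2 : V * (D * (q * q) * (V * V)) ≤ u * u := by
      have h3 : u * u = (D * V) * (V * (D * (q * q) * (V * V))) := by rw [hu]; ring
      rw [h3]
      have h4 : 1 ≤ D * V := one_le_mul_of_one_le_of_one_le hD hV1
      have h5 : 0 ≤ V * (D * (q * q) * (V * V)) := by positivity
      exact le_mul_of_one_le_left h5 h4
    have h3 : V * (q * E + D * (q * q) * (V * V)) ≤ u * E + u * u := by
      have h4 : V * q * E ≤ u * E := mul_le_mul_of_nonneg_right h1 hE0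
      calc V * (q * E + D * (q * q) * (V * V)) = V * q * E + V * (D * (q * q) * (V * V)) := by ring
        _ ≤ u * E + u * u := add_le_add h4 h2
    have hEpos : 0 < E := by linarith
    have k1 : 2 * u * E < E * E := mul_lt_mul_of_pos_right hcon hEpos
    have k2 : u * u ≤ u * E := mul_le_mul_of_nonneg_left (by linarith) hu0.le
    have k3 : E ^ 2 = E * E := sq E
    linarith
  have hV2 : V ^ 2 = C ^ 2 * (Z : ℝ) ^ σ := by
    have h7 : (Z : ℝ) ^ (σ / 2) * (Z : ℝ) ^ (σ / 2) = (Z : ℝ) ^ σ := by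
      rw [← Real.rpow_add hZ0]
      congr 1
      ring
    rw [hV, mul_pow, sq ((Z : ℝ) ^ (σ / 2)), h7]
  calc E ≤ 2 * (D * V ^ 2 * q) := hfin
    _ = 2 * C ^ 2 * D * (Z : ℝ) ^ σ * q := by rw [hV2]; ring

/-- the part of `n` supported on a set of primes -/
theorem part_primeFactors (n : ℕ) (t : Finset ℕ) (ht : t ⊆ n.primeFactors) :
    (∏ p ∈ t, p ^ n.factorization p) ≠ 0 ∧
    (∏ p ∈ t, p ^ n.factorization p).primeFactors = t := by
  classical
  have h0 : (∏ p ∈ t, p ^ n.factorization p) ≠ 0 := by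
    apply Finset.prod_ne_zero_iff.mpr
    intro p hp
    exact pow_ne_zero _ (Nat.prime_of_mem_primeFactors (ht hp)).ne_zero
  refine ⟨h0, ?_⟩
  ext p
  rw [Nat.mem_primeFactors]
  constructor
  · rintro ⟨hp, hdvd, _⟩
    obtain ⟨q, hq, hpq⟩ := (hp.prime.dvd_finsetProd_iff _).mp hdvd
    have h2 := (Nat.prime_dvd_prime_iff_eq hp (Nat.prime_of_mem_primeFactors (ht hq))).mp
      (hp.dvd_of_dvd_pow hpq)
    rw [h2]
    exact hq
  · intro hp
    have hp' := Nat.mem_primeFactors.mp (ht hp)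
    refine ⟨hp'.1, ?_, h0⟩
    have h1 : p ^ n.factorization p ∣ ∏ p ∈ t, p ^ n.factorization p :=
      Finset.dvd_prod_of_mem _ hp
    refine dvd_trans ?_ h1
    apply dvd_pow_self
    exact (hp'.1.factorization_pos_of_dvd hp'.2.2 hp'.2.1).ne'

theorem part_split (n : ℕ) (hn : n ≠ 0) (t : Finset ℕ) (ht : t ⊆ n.primeFactors) :
    (∏ p ∈ t, p ^ n.factorization p) * (∏ p ∈ n.primeFactors \ t, p ^ n.factorization p) = n ∧
    Nat.Coprime (∏ p ∈ t, p ^ n.factorization p)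
      (∏ p ∈ n.primeFactors \ t, p ^ n.factorization p) ∧
    rd (∏ p ∈ t, p ^ n.factorization p) = ∏ p ∈ t, p ∧
    rd (∏ p ∈ n.primeFactors \ t, p ^ n.factorization p) = ∏ p ∈ n.primeFactors \ t, p := by
  classical
  obtain ⟨h1, h2⟩ := part_primeFactors n t ht
  obtain ⟨h3, h4⟩ := part_primeFactors n (n.primeFactors \ t) Finset.sdiff_subset
  refine ⟨?_, ?_, ?_, ?_⟩
  · rw [mul_comm, Finset.prod_sdiff ht]
    have h := Nat.prod_factorization_pow_eq_self hn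
    rw [Finsupp.prod, Nat.support_factorization] at h
    exact h
  · rw [← Nat.disjoint_primeFactors h1 h3, h2, h4]
    exact Finset.disjoint_sdiff
  · unfold rd; rw [h2]
  · unfold rd; rw [h4]

/-- A number with large radical splits into two coprime parts with large radicals, or is a prime
power times a number with small radical. -/
theorem split_rd (n : ℕ) (hn : n ≠ 0) (T : ℝ) (hT : 1 ≤ T) (h : T ^ 3 < (rd n : ℝ)) :
    (∃ n1 n2 : ℕ, n1 * n2 = n ∧ Nat.Coprime n1 n2 ∧ T ≤ (rd n1 : ℝ) ∧ T ≤ (rd n2 : ℝ)) ∨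
    (∃ p i n' : ℕ, p.Prime ∧ 1 ≤ i ∧ n' ≠ 0 ∧ n' * p ^ i = n ∧ rd n' * p = rd n ∧
      (rd n' : ℝ) < T) := by
  classical
  have hT0 : 0 < T := by linarith
  by_cases hex : ∃ p ∈ n.primeFactors, T ≤ (p : ℝ)
  · obtain ⟨p, hp, hpT⟩ := hex
    have hpp := Nat.prime_of_mem_primeFactors hp
    obtain ⟨h1, h2, h3, h4⟩ := part_split n hn {p} (Finset.singleton_subset_iff.mpr hp)
    rw [Finset.prod_singleton] at h1 h2 h3
    rw [Finset.prod_singleton] at h3
    by_cases h5 : T ≤ (rd (∏ q ∈ n.primeFactors \ {p}, q ^ n.factorization q) : ℝ)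
    · left
      exact ⟨_, _, h1, h2, by rw [h3]; exact hpT, h5⟩
    · right
      have hnp := Nat.mem_primeFactors.mp hp
      refine ⟨p, n.factorization p, ∏ q ∈ n.primeFactors \ {p}, q ^ n.factorization q, hpp,
        hpp.factorization_pos_of_dvd hn hnp.2.1,
        (part_primeFactors n (n.primeFactors \ {p}) Finset.sdiff_subset).1, ?_, ?_, not_le.mp h5⟩
      · rw [mul_comm]; exact h1
      · rw [h4]
        unfold rd
        rw [← Finset.erase_eq, Finset.prod_erase_mul _ _ hp]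
  · push Not at hex
    left
    set F := n.primeFactors.powerset.filter (fun t => T ≤ ((∏ p ∈ t, p : ℕ) : ℝ)) with hF
    have hTrd : T ≤ (rd n : ℝ) := by
      have h1 : T ≤ T ^ 3 := le_self_pow₀ hT (by norm_num)
      linarith
    obtain ⟨t, ht, hmin⟩ := Finset.exists_min_image F Finset.card ⟨n.primeFactors, by
      rw [hF, Finset.mem_filter, Finset.mem_powerset]
      exact ⟨Finset.Subset.refl _, hTrd⟩⟩
    rw [hF, Finset.mem_filter, Finset.mem_powerset] at ht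
    obtain ⟨hts, htT⟩ := ht
    have hP2 : ((∏ p ∈ t, p : ℕ) : ℝ) ≤ T ^ 2 := by
      rcases t.eq_empty_or_nonempty with hE | ⟨q, hq⟩
      · rw [hE]
        simp only [Finset.prod_empty, Nat.cast_one]
        exact one_le_pow₀ hT
      · rw [← Finset.mul_prod_erase t _ hq]
        push_cast
        have h1 := hex q (hts hq)
        have h2 : ((∏ p ∈ t.erase q, p : ℕ) : ℝ) < T := by
          by_contra hcon
          push Not at hcon
          have h3 := hmin (t.erase q) (by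
            rw [hF, Finset.mem_filter, Finset.mem_powerset]
            exact ⟨(Finset.erase_subset _ _).trans hts, hcon⟩)
          rw [Finset.card_erase_of_mem hq] at h3
          have h4 := Finset.card_pos.mpr ⟨q, hq⟩
          omega
        push_cast at h2
        have h3 : (0 : ℝ) ≤ ∏ p ∈ t.erase q, (p : ℝ) := Finset.prod_nonneg (fun _ _ => by positivity)
        calc (q : ℝ) * ∏ p ∈ t.erase q, (p : ℝ) ≤ T * T :=
              mul_le_mul h1.le h2.le h3 hT0.le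
          _ = T ^ 2 := by ring
    obtain ⟨h1, h2, h3, h4⟩ := part_split n hn t hts
    refine ⟨_, _, h1, h2, by rw [h3]; exact htT, ?_⟩
    rw [h4]
    have h5 : (rd n : ℝ) = ((∏ p ∈ n.primeFactors \ t, p : ℕ) : ℝ) * ((∏ p ∈ t, p : ℕ) : ℝ) := by
      rw [← Nat.cast_mul, Finset.prod_sdiff hts]
      rfl
    by_contra hcon
    push Not at hcon
    rw [h5] at h
    have h6 : ((∏ p ∈ n.primeFactors \ t, p : ℕ) : ℝ) * ((∏ p ∈ t, p : ℕ) : ℝ) ≤ T * T ^ 2 :=
      mul_le_mul hcon.le hP2 (by positivity) hT0.le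
    have h7 : T * T ^ 2 = T ^ 3 := by ring
    linarith

end Pool.Agent.Lib.MP_d8bd92_nt
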