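import Pool.Agent.Lib.MP_d8bd92_nt.ToA
import Pool.Agent.Lib.MP_d8bd92_nt.ToB

set_option autoImplicit false

/-!
Roots of `y^2 = c` modulo `q` in short intervals, and common neighbours.
-/

namespace Pool.Agent.Lib.MP_d8bd92_nt

open Finset Pool.Agent.Lib.Szpiro

theorem step_count (L : ℕ) (hL : 1 ≤ L) (H : ℝ) (hH0 : 0 ≤ H) (T : Finset ℕ)
    (hd : ∀ x ∈ T, ∀ y ∈ T, (L : ℤ) ∣ (x : ℤ) - y) (hH : ∀ x ∈ T, ∀ y ∈ T, (x : ℝ) - y ≤ H) :
    (T.card : ℝ) ≤ H / L + 1 := by
  classical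
  rcases T.eq_empty_or_nonempty with hE | hne
  · rw [hE, Finset.card_empty]
    push_cast
    positivity
  · have hL0 : (0 : ℝ) < (L : ℝ) := by exact_mod_cast hL
    set x0 := T.min' hne with hx0
    have hx0T : x0 ∈ T := Finset.min'_mem _ _
    have hmin : ∀ x ∈ T, x0 ≤ x := fun x hx => Finset.min'_le _ _ hx
    have hdn : ∀ x ∈ T, L ∣ x - x0 := by
      intro x hx
      have h1 := hd x hx x0 hx0T
      have h2 : ((x - x0 : ℕ) : ℤ) = (x : ℤ) - x0 := by
        rw [Nat.cast_sub (hmin x hx)]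
      rw [← h2] at h1
      exact_mod_cast h1
    have h1 : T.card ≤ (range (⌊H / L⌋₊ + 1)).card := by
      apply Finset.card_le_card_of_injOn (fun x => (x - x0) / L)
      · intro x hx
        have hx' : x ∈ T := hx
        simp only [Finset.coe_range, Set.mem_Iio]
        apply Nat.lt_succ_of_le
        apply Nat.le_floor
        have h2 := hH x hx' x0 hx0T
        have h3 : (((x - x0) / L : ℕ) : ℝ) ≤ ((x - x0 : ℕ) : ℝ) / (L : ℝ) := Nat.cast_div_le
        refine h3.trans ?_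
        rw [Nat.cast_sub (hmin x hx')]
        exact div_le_div_of_nonneg_right h2 hL0.le
      · intro x hx y hy hxy
        have hx' : x ∈ T := hx
        have hy' : y ∈ T := hy
        simp only at hxy
        have h2 := Nat.div_mul_cancel (hdn x hx')
        have h3 := Nat.div_mul_cancel (hdn y hy')
        rw [hxy, h3] at h2
        have h4 := hmin x hx'
        have h5 := hmin y hy'
        omega
    rw [Finset.card_range] at h1
    have h2 : (T.card : ℝ) ≤ (⌊H / L⌋₊ : ℝ) + 1 := by exact_mod_cast h1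
    have h3 : (⌊H / L⌋₊ : ℝ) ≤ H / L := Nat.floor_le (by positivity)
    linarith

/-- square roots of `c` modulo `q` in an interval of length `H` -/
theorem roots_interval (q : ℕ) (hq : q ≠ 0) (c : ℤ) (G : ℕ) (hG : Int.gcd c q ≤ G) (H : ℝ)
    (hH0 : 0 ≤ H) (T : Finset ℕ) (hT : ∀ y ∈ T, (q : ℤ) ∣ (y : ℤ) ^ 2 - c)
    (hH : ∀ x ∈ T, ∀ y ∈ T, (x : ℝ) - y ≤ H) :
    (T.card : ℝ) ≤ (q.divisors.card : ℝ) * (4 * G * H / q + 1) := by
  classical
  have hq0 : (0 : ℝ) < (q : ℝ) := by exact_mod_cast Nat.pos_of_ne_zero hq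
  rcases T.eq_empty_or_nonempty with hE | ⟨y0, hy0⟩
  · rw [hE, Finset.card_empty]
    push_cast
    positivity
  · set e : ℕ → ℕ := fun y => Nat.gcd ((y : ℤ) - y0).natAbs q with he
    have hmaps : ∀ y ∈ T, e y ∈ q.divisors := by
      intro y _
      rw [Nat.mem_divisors]
      exact ⟨Nat.gcd_dvd_right _ _, hq⟩
    have hcard := Finset.card_eq_sum_card_fiberwise hmaps
    have hfib : ∀ d ∈ q.divisors, ((T.filter (fun y => e y = d)).card : ℝ) ≤ 4 * G * H / q + 1 := by
      intro d hd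
      set F := T.filter (fun y => e y = d) with hF
      rcases F.eq_empty_or_nonempty with hE | ⟨y1, hy1⟩
      · rw [hE, Finset.card_empty]
        push_cast
        positivity
      have hdq := (Nat.mem_divisors.mp hd).1
      have hd0 : 0 < d := Nat.pos_of_dvd_of_pos hdq (Nat.pos_of_ne_zero hq)
      obtain ⟨q', hq'⟩ := hdq
      have hq'0 : 0 < q' := by
        rcases Nat.eq_zero_or_pos q' with h | h
        · rw [h, mul_zero] at hq'; exact absurd hq' hq
        · exact h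
      have hprop : ∀ y ∈ F, (d : ℤ) ∣ (y : ℤ) - y0 ∧ (q' : ℤ) ∣ (y : ℤ) + y0 := by
        intro y hy
        rw [hF, Finset.mem_filter] at hy
        obtain ⟨hyT, hye⟩ := hy
        have h1 : d ∣ ((y : ℤ) - y0).natAbs := by
          rw [← hye]
          exact Nat.gcd_dvd_left _ _
        refine ⟨Int.natCast_dvd.mpr h1, ?_⟩
        have h2 : (q : ℤ) ∣ ((y : ℤ) - y0) * ((y : ℤ) + y0) := by
          have h3 := dvd_sub (hT y hyT) (hT y0 hy0)
          have h4 : (y : ℤ) ^ 2 - c - ((y0 : ℤ) ^ 2 - c) = ((y : ℤ) - y0) * ((y : ℤ) + y0) := by ring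
          rwa [h4] at h3
        have h3 : q ∣ ((y : ℤ) - y0).natAbs * ((y : ℤ) + y0).natAbs := by
          rw [← Int.natAbs_mul]
          exact Int.natCast_dvd.mp h2
        have h4 : q ∣ d * ((y : ℤ) + y0).natAbs := by
          have h5 : q ∣ Nat.gcd (((y : ℤ) - y0).natAbs * ((y : ℤ) + y0).natAbs)
              (q * ((y : ℤ) + y0).natAbs) := Nat.dvd_gcd h3 (dvd_mul_right _ _)
          rw [Nat.gcd_mul_right] at h5
          rw [← hye]
          exact h5
        rw [hq'] at h4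
        exact Int.natCast_dvd.mpr (Nat.dvd_of_mul_dvd_mul_left hd0 h4)
      set L := Nat.lcm d q' with hLdef
      have hLpos : 0 < L := Nat.lcm_pos hd0 hq'0
      have hgL : Nat.gcd d q' * L = q := by rw [hLdef, Nat.gcd_mul_lcm, hq']
      have hg : Nat.gcd d q' ≤ 4 * G := by
        set g := Nat.gcd d q' with hg
        obtain ⟨h1, h2⟩ := hprop y1 hy1
        have h3 : (g : ℤ) ∣ (y1 : ℤ) - y0 := dvd_trans (Int.natCast_dvd_natCast.mpr (Nat.gcd_dvd_left _ _)) h1
        have h4 : (g : ℤ) ∣ (y1 : ℤ) + y0 := dvd_trans (Int.natCast_dvd_natCast.mpr (Nat.gcd_dvd_right _ _)) h2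
        have h5 : (g : ℤ) ∣ 2 * (y0 : ℤ) := by
          have := dvd_sub h4 h3
          have h6 : (y1 : ℤ) + y0 - ((y1 : ℤ) - y0) = 2 * y0 := by ring
          rwa [h6] at this
        have hgq : g ∣ q := by
          rw [← hgL]; exact dvd_mul_right _ _
        have h6 : (g : ℤ) ∣ (y0 : ℤ) ^ 2 - c :=
          dvd_trans (Int.natCast_dvd_natCast.mpr hgq) (hT y0 hy0)
        have h7 : (g : ℤ) ∣ 4 * c := by
          have h8 : (g : ℤ) ∣ (2 * (y0 : ℤ)) * (2 * (y0 : ℤ)) := Dvd.dvd.mul_right h5 _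
          have h9 := dvd_sub h8 (Dvd.dvd.mul_left h6 4)
          have h10 : (2 * (y0 : ℤ)) * (2 * (y0 : ℤ)) - 4 * ((y0 : ℤ) ^ 2 - c) = 4 * c := by ring
          rwa [h10] at h9
        have h8 : g ∣ 4 * Int.gcd c q := by
          have h9 : g ∣ 4 * c.natAbs := by
            have := Int.natCast_dvd.mp h7
            rwa [Int.natAbs_mul] at this
          have h10 : g ∣ Nat.gcd (4 * c.natAbs) (4 * q) :=
            Nat.dvd_gcd h9 (Dvd.dvd.mul_left hgq 4)
          rw [Nat.gcd_mul_left] at h10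
          exact h10
        have h9 : 0 < Int.gcd c q := Nat.gcd_pos_of_pos_right _ (Nat.pos_of_ne_zero hq)
        exact (Nat.le_of_dvd (by omega) h8).trans (by omega)
      have hstep := step_count L hLpos H hH0 F (by
        intro x hx y hy
        obtain ⟨h1, h2⟩ := hprop x hx
        obtain ⟨h3, h4⟩ := hprop y hy
        have h5 : (d : ℤ) ∣ (x : ℤ) - y := by
          have := dvd_sub h1 h3
          have h6 : (x : ℤ) - y0 - ((y : ℤ) - y0) = x - y := by ring
          rwa [h6] at this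
        have h6 : (q' : ℤ) ∣ (x : ℤ) - y := by
          have := dvd_sub h2 h4
          have h6 : (x : ℤ) + y0 - ((y : ℤ) + y0) = x - y := by ring
          rwa [h6] at this
        apply Int.natCast_dvd.mpr
        exact Nat.lcm_dvd (Int.natCast_dvd.mp h5) (Int.natCast_dvd.mp h6))
        (fun x hx y hy => hH x (Finset.mem_filter.mp hx).1 y (Finset.mem_filter.mp hy).1)
      refine hstep.trans ?_
      apply add_le_add_left
      have hLR : (0 : ℝ) < (L : ℝ) := by exact_mod_cast hLpos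
      rw [div_le_div_iff₀ hLR hq0]
      have h1 : (q : ℝ) ≤ 4 * G * L := by
        have h2 : q ≤ 4 * G * L := by
          calc q = Nat.gcd d q' * L := hgL.symm
            _ ≤ 4 * G * L := Nat.mul_le_mul_right _ hg
        exact_mod_cast h2
      calc H * q ≤ H * (4 * G * L) := mul_le_mul_of_nonneg_left h1 hH0
        _ = 4 * G * H * L := by ring
    calc (T.card : ℝ) = ∑ d ∈ q.divisors, ((T.filter (fun y => e y = d)).card : ℝ) := by
          rw [hcard]; push_cast; rfl
      _ ≤ ∑ d ∈ q.divisors, (4 * G * H / q + 1) := Finset.sum_le_sum hfib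
      _ = (q.divisors.card : ℝ) * (4 * G * H / q + 1) := by
          rw [Finset.sum_const, nsmul_eq_mul]

/-- common neighbours -/
theorem common_count (α β : ℤ) (hα : α ≠ 0) (hβ : β ≠ 0) (m m' : ℕ) (hne : m ≠ m') (T : Finset ℕ)
    (hT : ∀ n ∈ T, (∃ y : ℤ, α * (m : ℤ) + β * (n : ℤ) = y ^ 2) ∧
      ∃ y : ℤ, α * (m' : ℤ) + β * (n : ℤ) = y ^ 2) :
    T.card ≤ (α * ((m : ℤ) - m')).natAbs.divisors.card := by
  classical
  have h0 : α * ((m : ℤ) - m') ≠ 0 := mul_ne_zero hα (sub_ne_zero.mpr (by exact_mod_cast hne))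
  have hch : ∀ n : ℕ, ∃ t : ℕ × ℕ, n ∈ T → α * (m : ℤ) + β * (n : ℤ) = (t.1 : ℤ) ^ 2 ∧
      α * (m' : ℤ) + β * (n : ℤ) = (t.2 : ℤ) ^ 2 := by
    intro n
    by_cases hn : n ∈ T
    · obtain ⟨⟨y, hy⟩, ⟨y', hy'⟩⟩ := hT n hn
      refine ⟨(y.natAbs, y'.natAbs), fun _ => ⟨?_, ?_⟩⟩
      · rw [hy, Int.natCast_natAbs, sq_abs]
      · rw [hy', Int.natCast_natAbs, sq_abs]
    · exact ⟨(0, 0), fun h => absurd h hn⟩
  choose t ht using hch
  have hprod : ∀ n ∈ T, (((t n).1 : ℤ) - (t n).2) * (((t n).1 + (t n).2 : ℕ) : ℤ) =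
      α * ((m : ℤ) - m') := by
    intro n hn
    obtain ⟨h1, h2⟩ := ht n hn
    push_cast
    linear_combination h2 - h1
  apply Finset.card_le_card_of_injOn (fun n => (t n).1 + (t n).2)
  · intro n hn
    have hn' : n ∈ T := hn
    simp only [Finset.mem_coe, Nat.mem_divisors]
    refine ⟨?_, Int.natAbs_ne_zero.mpr h0⟩
    apply Int.natCast_dvd.mp
    rw [← hprod n hn']
    exact dvd_mul_left _ _
  · intro n hn n' hn' hnn
    have h1 : n ∈ T := hn
    have h2 : n' ∈ T := hn'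
    simp only at hnn
    have h3 := hprod n h1
    have h4 := hprod n' h2
    rw [← hnn, ← h3] at h4
    have h5 : (((t n).1 + (t n).2 : ℕ) : ℤ) ≠ 0 := by
      intro h
      rw [h, mul_zero] at h3
      exact h0 h3.symm
    have h6 := mul_right_cancel₀ h5 h4
    have h7 : (((t n').1 + (t n').2 : ℕ) : ℤ) = (((t n).1 + (t n).2 : ℕ) : ℤ) := by rw [hnn]
    push_cast at h7
    have h8 : ((t n).1 : ℤ) = (t n').1 := by linarith
    obtain ⟨h9, _⟩ := ht n h1
    obtain ⟨h10, _⟩ := ht n' h2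
    rw [h8, ← h10] at h9
    have h11 : β * (n : ℤ) = β * (n' : ℤ) := by linarith
    exact_mod_cast mul_left_cancel₀ hβ h11

end Pool.Agent.Lib.MP_d8bd92_nt
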