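import Pool.Agent.Lib.MP_d8bd92_nt.TfL
import Pool.Agent.Lib.MP_d8bd92_nt.CdE1
import Pool.Agent.Lib.MP_d8bd92_nt.CdD

set_option autoImplicit false

/-!
Lemmas on cubes: cubes near a number and in a residue class, two cubes with a given difference,
points on `u x ^ i + a = y ^ 3`.
-/

namespace Pool.Agent.Lib.MP_d8bd92_nt

open Finset Pool.Agent.Lib.Szpiro

namespace Th

/-- integers prime to `D` with the same `e`-th power modulo `D` -/
theorem card_kth (e : ℕ) (he : 1 ≤ e) (σ : ℝ) (hσ : 0 < σ) : ∃ C : ℝ, 1 ≤ C ∧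
    ∀ (D : ℕ) (t : ℤ) (T : Finset ℤ) (M : ℝ), 1 ≤ D → 0 ≤ M →
    (∀ s ∈ T, IsCoprime s (D : ℤ) ∧ (D : ℤ) ∣ s ^ e - t) →
    (∀ x : ℤ, ∀ T' : Finset ℤ, T' ⊆ T → (∀ s ∈ T', (D : ℤ) ∣ s - x) → (T'.card : ℝ) ≤ M) →
    (T.card : ℝ) ≤ C * (D : ℝ) ^ σ * M := by
  classical
  obtain ⟨C, hC, hb⟩ := exists_pow_card_primeFactors_le (2 * e) σ hσ
  refine ⟨C, hC, ?_⟩
  intro D t T M hD hM hT hcl
  haveI : NeZero D := ⟨by omega⟩
  have hD0 : (0 : ℝ) < D := by exact_mod_cast hD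
  rcases T.eq_empty_or_nonempty with h0 | ⟨s0, hs0⟩
  · subst h0
    simp only [Finset.card_empty, Nat.cast_zero]
    positivity
  -- units
  have hunit : ∀ s : ℤ, ∃ u : (ZMod D)ˣ, IsCoprime s (D : ℤ) → (u : ZMod D) = ((s : ℤ) : ZMod D) := by
    intro s
    by_cases hs : IsCoprime s (D : ℤ)
    · obtain ⟨a, b, hab⟩ := hs
      have h1 : ((a : ℤ) : ZMod D) * ((s : ℤ) : ZMod D) = 1 := by
        have h2 := congrArg (Int.cast : ℤ → ZMod D) hab
        push_cast at h2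
        rw [ZMod.natCast_self, mul_zero, add_zero] at h2
        exact h2
      exact ⟨⟨((s : ℤ) : ZMod D), ((a : ℤ) : ZMod D), by rw [mul_comm]; exact h1, h1⟩, fun _ => rfl⟩
    · exact ⟨1, fun h => absurd h hs⟩
  choose un hun using hunit
  set R : Finset (ZMod D)ˣ := Finset.univ.filter (fun u => u ^ e = 1) with hR
  have hRcard : (R.card : ℝ) ≤ C * (D : ℝ) ^ σ := by
    have h1 : R.card = Nat.card {u : (ZMod D)ˣ // u ^ e = 1} := by
      rw [Nat.card_eq_fintype_card, Fintype.card_subtype]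
    have h2 := CdE1.nat_card_tors e he D (by omega)
    rw [← h1] at h2
    calc (R.card : ℝ) ≤ (((2 * e) ^ D.primeFactors.card : ℕ) : ℝ) := by exact_mod_cast h2
      _ = ((2 * e : ℕ) : ℝ) ^ D.primeFactors.card := by push_cast; ring
      _ ≤ C * (D : ℝ) ^ σ := hb D (by omega)
  have hmem : ∀ x ∈ T, un x * (un s0)⁻¹ ∈ R := by
    intro x hx
    rw [hR, Finset.mem_filter]
    refine ⟨Finset.mem_univ _, ?_⟩
    have h1 := hT x hx
    have h2 := hT s0 hs0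
    have h6 : (D : ℤ) ∣ x ^ e - s0 ^ e := by
      have h4 := dvd_sub h1.2 h2.2
      have h5 : x ^ e - t - (s0 ^ e - t) = x ^ e - s0 ^ e := by ring
      rwa [h5] at h4
    have h7 : ((x : ℤ) : ZMod D) ^ e = ((s0 : ℤ) : ZMod D) ^ e := by
      have h8 := (ZMod.intCast_zmod_eq_zero_iff_dvd (x ^ e - s0 ^ e) D).mpr h6
      push_cast at h8
      exact sub_eq_zero.mp h8
    have h9 : (un x) ^ e = (un s0) ^ e := by
      apply Units.ext
      rw [Units.val_pow_eq_pow_val, Units.val_pow_eq_pow_val, hun x h1.1, hun s0 h2.1, h7]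
    rw [mul_pow, inv_pow, h9, mul_inv_cancel]
  have hfib : ∀ r ∈ R, (((T.filter (fun x => un x * (un s0)⁻¹ = r)).card : ℕ) : ℝ) ≤ M := by
    intro r _
    rcases (T.filter (fun x => un x * (un s0)⁻¹ = r)).eq_empty_or_nonempty with h0 | ⟨x0, hx0⟩
    · rw [h0, Finset.card_empty, Nat.cast_zero]
      exact hM
    · apply hcl x0 _ (Finset.filter_subset _ _)
      intro y hy
      rw [Finset.mem_filter] at hx0 hy
      have h3 : un y = un x0 := mul_right_cancel (hy.2.trans hx0.2.symm)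
      have h4 : ((y : ℤ) : ZMod D) = ((x0 : ℤ) : ZMod D) := by
        rw [← hun y (hT y hy.1).1, ← hun x0 (hT x0 hx0.1).1, h3]
      rw [← ZMod.intCast_zmod_eq_zero_iff_dvd]
      push_cast
      rw [h4, sub_self]
  have hsum : (T.card : ℝ) = ∑ r ∈ R, (((T.filter (fun x => un x * (un s0)⁻¹ = r)).card : ℕ) : ℝ) := by
    rw [Finset.card_eq_sum_card_fiberwise (f := fun x => un x * (un s0)⁻¹) (t := R) hmem]
    push_cast
    rfl
  rw [hsum]
  calc ∑ r ∈ R, (((T.filter (fun x => un x * (un s0)⁻¹ = r)).card : ℕ) : ℝ)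
      ≤ ∑ _r ∈ R, M := Finset.sum_le_sum hfib
    _ = R.card * M := by rw [Finset.sum_const, nsmul_eq_mul]
    _ ≤ C * (D : ℝ) ^ σ * M := mul_le_mul_of_nonneg_right hRcard hM

/-- two integers whose cubes are close are close -/
theorem cube_gap (a b K : ℤ) (h : |a ^ 3 - b ^ 3| ≤ K) : |a - b| ^ 3 ≤ 4 * K := by
  have h1 : a ^ 3 - b ^ 3 = (a - b) * (a ^ 2 + a * b + b ^ 2) := by ring
  have h2 : (a - b) ^ 2 ≤ 4 * (a ^ 2 + a * b + b ^ 2) := by nlinarith [sq_nonneg (a + b)]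
  have h3 : 0 ≤ a ^ 2 + a * b + b ^ 2 := by nlinarith [sq_nonneg (a - b)]
  rw [h1, abs_mul, abs_of_nonneg h3] at h
  have h4 : |a - b| ^ 3 = |a - b| * (a - b) ^ 2 := by
    rw [pow_succ, sq_abs]; ring
  rw [h4]
  have h5 : |a - b| * (a - b) ^ 2 ≤ |a - b| * (4 * (a ^ 2 + a * b + b ^ 2)) :=
    mul_le_mul_of_nonneg_left h2 (abs_nonneg _)
  linarith

/-- multiples `n` of `n₁`, `n ≤ n₁²`, for which `α m + β n` is a cube -/
theorem fiber_two (α β : ℤ) (hβ : β ≠ 0) (σ : ℝ) (hσ : 0 < σ) : ∃ C : ℝ, 1 ≤ C ∧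
    ∀ (Z m n₁ : ℕ) (S : Finset ℕ), 1 ≤ Z → 1 ≤ n₁ → n₁ ≤ Z →
    IsCoprime (α * (m : ℤ)) (n₁ : ℤ) →
    (∀ n ∈ S, n₁ ∣ n ∧ n ≤ n₁ ^ 2 ∧ ∃ a : ℤ, α * (m : ℤ) + β * (n : ℤ) = a ^ 3) →
    (S.card : ℝ) ≤ C * (Z : ℝ) ^ σ := by
  classical
  obtain ⟨C, hC1, hC⟩ := card_kth 3 (by norm_num) σ hσ
  have hβ1 : 1 ≤ β.natAbs := Int.natAbs_pos.mpr hβ
  have hβR : (1 : ℝ) ≤ (β.natAbs : ℝ) := by exact_mod_cast hβ1
  refine ⟨C * (2 * (2 * (β.natAbs : ℝ) + 1)), ?_, ?_⟩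
  · nlinarith
  intro Z m n₁ S hZ hn hnZ hcop hS
  have hZ1 : (1 : ℝ) ≤ Z := by exact_mod_cast hZ
  have hn0 : (0 : ℝ) < n₁ := by exact_mod_cast hn
  have hch : ∀ n : ℕ, ∃ a : ℤ, n ∈ S → α * (m : ℤ) + β * (n : ℤ) = a ^ 3 := by
    intro n
    by_cases h : n ∈ S
    · obtain ⟨_, _, a, ha⟩ := hS n h
      exact ⟨a, fun _ => ha⟩
    · exact ⟨0, fun h' => absurd h' h⟩
  choose f hf using hch
  have hinj : Set.InjOn f (S : Set ℕ) := by
    intro n hn' n' hn'' h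
    have h1 := hf n hn'
    have h2 := hf n' hn''
    rw [← h] at h2
    have h3 : β * (n : ℤ) = β * (n' : ℤ) := by linarith
    have h4 := mul_left_cancel₀ hβ h3
    exact_mod_cast h4
  rw [← Finset.card_image_of_injOn hinj]
  have hkey : ∀ s ∈ S.image f, ∃ n ∈ S, s ^ 3 = α * (m : ℤ) + β * (n : ℤ) := by
    intro s hs
    obtain ⟨n, hn', rfl⟩ := Finset.mem_image.mp hs
    exact ⟨n, hn', (hf n hn').symm⟩
  have hdiam : ∀ s ∈ S.image f, ∀ s' ∈ S.image f, s - s' ≤ ((2 * β.natAbs * n₁ : ℕ) : ℤ) := by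
    intro s hs s' hs'
    obtain ⟨n, hnS, e1⟩ := hkey s hs
    obtain ⟨n', hnS', e2⟩ := hkey s' hs'
    obtain ⟨_, b1, _⟩ := hS n hnS
    obtain ⟨_, b2, _⟩ := hS n' hnS'
    have b1' : (n : ℤ) ≤ (n₁ : ℤ) ^ 2 := by exact_mod_cast b1
    have b2' : (n' : ℤ) ≤ (n₁ : ℤ) ^ 2 := by exact_mod_cast b2
    have h1 : |s ^ 3 - s' ^ 3| ≤ |β| * (n₁ : ℤ) ^ 2 := by
      have h2 : s ^ 3 - s' ^ 3 = β * ((n : ℤ) - n') := by rw [e1, e2]; ring
      rw [h2, abs_mul]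
      apply mul_le_mul_of_nonneg_left _ (abs_nonneg _)
      rw [abs_le]
      constructor <;> omega
    have h2 := cube_gap s s' _ h1
    have h3 : ((2 * β.natAbs * n₁ : ℕ) : ℤ) = 2 * |β| * n₁ := by
      push_cast
      rfl
    rw [h3]
    by_contra hcon
    push Not at hcon
    have hb1 : 1 ≤ |β| := Int.one_le_abs hβ
    have hn1 : (1 : ℤ) ≤ n₁ := by exact_mod_cast hn
    have h4 : 2 * |β| * n₁ < |s - s'| := lt_of_lt_of_le hcon (le_abs_self _)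
    have h5 : (2 * |β| * n₁) ^ 3 < |s - s'| ^ 3 := by
      apply pow_lt_pow_left₀ h4 (by positivity) (by norm_num)
    have h6 : 4 * (|β| * (n₁ : ℤ) ^ 2) ≤ (2 * |β| * n₁) ^ 3 := by
      have h7 : |β| ≤ |β| ^ 3 := by nlinarith [sq_nonneg |β|, mul_le_mul hb1 hb1 zero_le_one (by linarith)]
      have h8 : (n₁ : ℤ) ^ 2 ≤ (n₁ : ℤ) ^ 3 := by
        rw [pow_succ (n₁ : ℤ) 2]
        nlinarith [sq_nonneg (n₁ : ℤ)]
      have h9 : |β| * (n₁ : ℤ) ^ 2 ≤ |β| ^ 3 * (n₁ : ℤ) ^ 3 :=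
        mul_le_mul h7 h8 (by positivity) (by positivity)
      have h10 : (0 : ℤ) ≤ |β| ^ 3 * (n₁ : ℤ) ^ 3 := by positivity
      calc 4 * (|β| * (n₁ : ℤ) ^ 2) ≤ 8 * (|β| ^ 3 * (n₁ : ℤ) ^ 3) := by linarith
        _ = (2 * |β| * n₁) ^ 3 := by ring
    linarith
  have hfin := hC n₁ (α * (m : ℤ)) (S.image f) (2 * (2 * (β.natAbs : ℝ) + 1)) hn (by positivity) ?_ ?_
  · refine hfin.trans ?_
    have h1 : (n₁ : ℝ) ^ σ ≤ (Z : ℝ) ^ σ :=
      Real.rpow_le_rpow (by positivity) (by exact_mod_cast hnZ) hσ.le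
    calc C * (n₁ : ℝ) ^ σ * (2 * (2 * (β.natAbs : ℝ) + 1))
        ≤ C * (Z : ℝ) ^ σ * (2 * (2 * (β.natAbs : ℝ) + 1)) := by gcongr
      _ = C * (2 * (2 * (β.natAbs : ℝ) + 1)) * (Z : ℝ) ^ σ := by ring
  · intro s hs
    obtain ⟨n, hnS, e1⟩ := hkey s hs
    obtain ⟨b0, _, _⟩ := hS n hnS
    have hdv : (n₁ : ℤ) ∣ s ^ 3 - α * (m : ℤ) := by
      rw [e1]
      have h2 : α * (m : ℤ) + β * (n : ℤ) - α * (m : ℤ) = β * n := by ring
      rw [h2]
      exact Dvd.dvd.mul_left (by exact_mod_cast b0) _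
    refine ⟨?_, hdv⟩
    obtain ⟨k, hk⟩ := hdv
    have h3 : s ^ 3 = α * (m : ℤ) + n₁ * k := by linarith
    have h4 : IsCoprime (s ^ 3) (n₁ : ℤ) := by
      rw [h3]
      exact IsCoprime.add_mul_left_left hcop k
    exact IsCoprime.pow_left_iff (by norm_num) |>.mp h4
  · intro x T' hT' hx
    have h1 := cdD_card_class T' (2 * β.natAbs * n₁) n₁ hn
      (fun s hs t ht => hdiam s (hT' hs) t (hT' ht)) x hx
    refine h1.trans (le_of_eq ?_)
    push_cast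
    field_simp

/-- two cubes with two given differences -/
theorem common (α β : ℤ) (hα : α ≠ 0) (hβ : β ≠ 0) (σ : ℝ) (hσ : 0 < σ) : ∃ C : ℝ, 1 ≤ C ∧
    ∀ (Z m m' : ℕ) (S : Finset ℕ), 1 ≤ Z → m ≤ Z → m' ≤ Z → m ≠ m' →
    (∀ n ∈ S, (∃ a : ℤ, α * (m : ℤ) + β * (n : ℤ) = a ^ 3) ∧
      ∃ a : ℤ, α * (m' : ℤ) + β * (n : ℤ) = a ^ 3) →
    (S.card : ℝ) ≤ C * (Z : ℝ) ^ σ := by
  classical
  obtain ⟨C, hC1, hC⟩ := card_divisors_le_rpow σ hσ
  have hα1 : (1 : ℝ) ≤ (α.natAbs : ℝ) := by exact_mod_cast Int.natAbs_pos.mpr hα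
  have hαs : (1 : ℝ) ≤ (α.natAbs : ℝ) ^ σ := Real.one_le_rpow hα1 hσ.le
  refine ⟨4 * (C * (α.natAbs : ℝ) ^ σ), ?_, ?_⟩
  · nlinarith
  intro Z m m' S hZ hm hm' hne hS
  have hch : ∀ n : ℕ, ∃ p : ℤ × ℤ, n ∈ S → α * (m : ℤ) + β * (n : ℤ) = p.1 ^ 3 ∧
      α * (m' : ℤ) + β * (n : ℤ) = p.2 ^ 3 := by
    intro n
    by_cases h : n ∈ S
    · obtain ⟨⟨a, ha⟩, b, hb⟩ := hS n h
      exact ⟨(a, b), fun _ => ⟨ha, hb⟩⟩
    · exact ⟨0, fun h' => absurd h' h⟩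
  choose f hf using hch
  set N : ℤ := α * ((m : ℤ) - m') with hN
  have hN0 : N ≠ 0 := by
    apply mul_ne_zero hα
    intro h
    apply hne
    have : (m : ℤ) = m' := by linarith
    exact_mod_cast this
  have hprod : ∀ n ∈ S, ((f n).1 - (f n).2) *
      ((f n).1 ^ 2 + (f n).1 * (f n).2 + (f n).2 ^ 2) = N := by
    intro n hn
    obtain ⟨h1, h2⟩ := hf n hn
    rw [hN]
    linear_combination h2 - h1
  set g : ℕ → ℕ × Bool := fun n => (((f n).1 - (f n).2).natAbs, decide (0 ≤ (f n).1 - (f n).2)) with hg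
  have hmaps : ∀ n ∈ S, g n ∈ N.natAbs.divisors ×ˢ (Finset.univ : Finset Bool) := by
    intro n hn
    rw [Finset.mem_product]
    refine ⟨?_, Finset.mem_univ _⟩
    rw [Nat.mem_divisors]
    refine ⟨?_, Int.natAbs_ne_zero.mpr hN0⟩
    rw [Int.natAbs_dvd_natAbs, ← hprod n hn]
    exact dvd_mul_right _ _
  have hfib : ∀ c ∈ N.natAbs.divisors ×ˢ (Finset.univ : Finset Bool),
      (S.filter (fun n => g n = c)).card ≤ 2 := by
    intro c _
    by_contra hcon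
    push Not at hcon
    obtain ⟨n1, n2, n3, h1, h2, h3, h12, h13, h23⟩ := Finset.two_lt_card_iff.mp hcon
    rw [Finset.mem_filter] at h1 h2 h3
    have hd : ∀ n n' : ℕ, g n = g n' → (f n).1 - (f n).2 = (f n').1 - (f n').2 := by
      intro n n' h
      simp only [hg, Prod.mk.injEq, decide_eq_decide] at h
      omega
    have e12 := hd n1 n2 (h1.2.trans h2.2.symm)
    have e13 := hd n1 n3 (h1.2.trans h3.2.symm)
    have p1 := hprod n1 h1.1
    have p2 := hprod n2 h2.1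
    have p3 := hprod n3 h3.1
    have hd0 : (f n1).1 - (f n1).2 ≠ 0 := by
      intro h
      rw [h, zero_mul] at p1
      exact hN0 p1.symm
    have hinj : ∀ n ∈ S, ∀ n' ∈ S, (f n).1 = (f n').1 → n = n' := by
      intro n hn n' hn' h
      have k1 := (hf n hn).1
      have k2 := (hf n' hn').1
      rw [h] at k1
      have k3 : β * (n : ℤ) = β * (n' : ℤ) := by linarith
      exact_mod_cast mul_left_cancel₀ hβ k3
    -- quadratic equation
    have hquad : ∀ n n' : ℕ, (f n).1 - (f n).2 = (f n').1 - (f n').2 →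
        (f n).1 - (f n).2 ≠ 0 →
        ((f n).1 - (f n).2) * ((f n).1 ^ 2 + (f n).1 * (f n).2 + (f n).2 ^ 2) =
        ((f n').1 - (f n').2) * ((f n').1 ^ 2 + (f n').1 * (f n').2 + (f n').2 ^ 2) →
        (f n).1 ≠ (f n').1 → (f n).1 + (f n').1 = (f n).1 - (f n).2 := by
      intro n n' h hne0 hq hxx
      set x := (f n).1
      set y := (f n).2
      set x' := (f n').1
      set y' := (f n').2
      rw [← h] at hq
      have h4 := mul_left_cancel₀ hne0 hq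
      have h5 : y' = x' - (x - y) := by linarith
      rw [h5] at h4
      have h6 : (x - x') * (x + x' - (x - y)) = 0 := by nlinarith [h4]
      rcases mul_eq_zero.mp h6 with h7 | h7
      · exact absurd (by linarith) hxx
      · linarith
    have q12 := hquad n1 n2 e12 hd0 (p1.trans p2.symm) (fun h => h12 (hinj _ h1.1 _ h2.1 h))
    have q13 := hquad n1 n3 e13 hd0 (p1.trans p3.symm) (fun h => h13 (hinj _ h1.1 _ h3.1 h))
    apply h23
    apply hinj _ h2.1 _ h3.1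
    linarith
  have h1 : S.card ≤ 2 * (N.natAbs.divisors ×ˢ (Finset.univ : Finset Bool)).card :=
    Finset.card_le_mul_card_image_of_maps_to hmaps 2 hfib
  rw [Finset.card_product, Finset.card_univ, Fintype.card_bool] at h1
  have h2 : (S.card : ℝ) ≤ 4 * (N.natAbs.divisors.card : ℝ) := by
    have : (S.card : ℝ) ≤ ((2 * (N.natAbs.divisors.card * 2) : ℕ) : ℝ) := by exact_mod_cast h1
    push_cast at this
    linarith
  have h3 := hC N.natAbs (Int.natAbs_ne_zero.mpr hN0)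
  have h4 : (N.natAbs : ℝ) ≤ (α.natAbs : ℝ) * Z := by
    rw [hN, Int.natAbs_mul]
    push_cast
    apply mul_le_mul_of_nonneg_left _ (by positivity)
    have : ((m : ℤ) - m').natAbs ≤ Z := by omega
    exact_mod_cast this
  calc (S.card : ℝ) ≤ 4 * (N.natAbs.divisors.card : ℝ) := h2
    _ ≤ 4 * (C * ((α.natAbs : ℝ) * Z) ^ σ) := by
        apply mul_le_mul_of_nonneg_left _ (by norm_num)
        refine h3.trans ?_
        apply mul_le_mul_of_nonneg_left _ (by linarith)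
        exact Real.rpow_le_rpow (by positivity) h4 hσ.le
    _ = 4 * (C * (α.natAbs : ℝ) ^ σ) * (Z : ℝ) ^ σ := by
        rw [Real.mul_rpow (by positivity) (by positivity)]
        ring

end Th

end Pool.Agent.Lib.MP_d8bd92_nt
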