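import Pool.Agent.Lib.MP_d8bd92_nt.LgDefs
import Pool.Agent.Lib.MP_d8bd92_nt.CdA

set_option autoImplicit false

/-!
Row V1: residues coprime to `s`.
-/

namespace Pool.Agent.Lib.MP_d8bd92_nt

open Finset Pool.Agent.Lib.Szpiro

namespace LgV1

/-- `k` full blocks -/
theorem blocks (m n k : ℕ) :
    ((Ico n (n + k * m)).filter (fun t => Nat.Coprime m t)).card = k * Nat.totient m := by
  induction k with
  | zero => simp
  | succ k ih =>
    have h1 : Ico n (n + (k + 1) * m) = Ico n (n + k * m) ∪ Ico (n + k * m) (n + k * m + m) := by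
      rw [Finset.Ico_union_Ico_eq_Ico (by omega) (by omega)]
      congr 1
      ring
    have h2 : Disjoint (Ico n (n + k * m)) (Ico (n + k * m) (n + k * m + m)) :=
      Finset.Ico_disjoint_Ico_consecutive _ _ _
    rw [h1, Finset.filter_union, Finset.card_union_of_disjoint
      (Finset.disjoint_filter_filter h2), ih, Nat.filter_coprime_Ico_eq_totient]
    ring

/-- `m ≤ d(m) φ(m)` -/
theorem le_card_mul_totient (m : ℕ) (hm : 1 ≤ m) : m ≤ m.divisors.card * Nat.totient m := by
  calc m = ∑ d ∈ m.divisors, Nat.totient d := (Nat.sum_totient m).symm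
    _ ≤ ∑ _d ∈ m.divisors, Nat.totient m := by
        apply Finset.sum_le_sum
        intro d hd
        exact Nat.le_of_dvd (Nat.totient_pos.2 (by omega))
          (Nat.totient_dvd_of_dvd (Nat.dvd_of_mem_divisors hd))
    _ = m.divisors.card * Nat.totient m := by rw [Finset.sum_const, smul_eq_mul]

end LgV1

theorem lg_coprime (σ : ℝ) (hσ : 0 < σ) : ∃ c : ℝ, 0 < c ∧ ∀ (s u L : ℕ), 1 ≤ s → s ≤ L →
    c * (L : ℝ) / (s : ℝ) ^ σ ≤
      (((Ico u (u + L)).filter (fun t => Nat.Coprime s (4 * t + 1))).card : ℝ) := by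
  obtain ⟨C, hC, hdiv⟩ := card_divisors_le_rpow σ hσ
  refine ⟨1 / (2 * C), by positivity, ?_⟩
  intro s u L hs hsL
  -- odd part
  obtain ⟨k, m, hmo, hsm⟩ := Nat.exists_eq_two_pow_mul_odd (n := s) (by omega)
  have hm1 : 1 ≤ m := hmo.pos
  have hms : m ≤ s := by
    rw [hsm]
    exact Nat.le_mul_of_pos_left m (by positivity)
  have hm4 : Nat.Coprime 4 m := by
    have h : Nat.Coprime 2 m := (Nat.coprime_two_left).2 hmo
    have : Nat.Coprime (2 ^ 2) m := Nat.Coprime.pow_left 2 h
    simpa using this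
  -- inverse of 4 modulo m
  obtain ⟨a, ha⟩ : ∃ a : ℕ, 4 * a ≡ 1 [MOD m] := by
    rcases Nat.lt_or_ge 1 m with h | h
    · obtain ⟨a, -, ha⟩ := Nat.exists_mul_mod_eq_one_of_coprime hm4 h
      refine ⟨a, ?_⟩
      rw [Nat.ModEq, ha, Nat.mod_eq_of_lt h]
    · have h0 : m = 1 := by omega
      exact ⟨0, by rw [h0]; exact Nat.modEq_one⟩
  have hcop : ∀ t : ℕ, Nat.Coprime s (4 * t + 1) ↔ Nat.Coprime m (t + a) := by
    intro t
    have h2 : Nat.Coprime (2 ^ k) (4 * t + 1) := by
      apply Nat.Coprime.pow_left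
      rw [Nat.coprime_two_left]
      exact ⟨2 * t, by ring⟩
    rw [hsm, Nat.coprime_mul_iff_left]
    have h3 : Nat.Coprime m (4 * t + 1) ↔ Nat.Coprime m (t + a) := by
      have h4 : (4 * (t + a)) ≡ 4 * t + 1 [MOD m] := by
        have : 4 * (t + a) = 4 * t + 4 * a := by ring
        rw [this]
        exact Nat.ModEq.add_left _ ha
      have h5 : Nat.gcd m (4 * (t + a)) = Nat.gcd m (4 * t + 1) := by
        rw [Nat.gcd_comm m, Nat.gcd_comm m]
        exact h4.gcd_eq
      unfold Nat.Coprime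
      rw [← h5]
      constructor
      · intro h
        exact (Nat.coprime_mul_iff_right.1 h).2
      · intro h
        exact Nat.coprime_mul_iff_right.2 ⟨hm4.symm, h⟩
    rw [h3]
    exact ⟨fun h => h.2, fun h => ⟨h2, h⟩⟩
  -- the count
  have hcount : (L / m) * Nat.totient m ≤
      ((Ico u (u + L)).filter (fun t => Nat.Coprime s (4 * t + 1))).card := by
    rw [← LgV1.blocks m (u + a) (L / m)]
    apply Finset.card_le_card_of_injOn (fun t => t - a)
    · intro t ht
      simp only [Finset.coe_filter, Finset.mem_Ico, Set.mem_ofPred_eq] at ht ⊢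
      have h6 : L / m * m ≤ L := Nat.div_mul_le_self L m
      refine ⟨⟨by omega, by omega⟩, ?_⟩
      rw [hcop]
      have h7 : t - a + a = t := by omega
      rw [h7]
      exact ht.2
    · intro t ht t' ht' h
      simp only [Finset.coe_filter, Finset.mem_Ico, Set.mem_ofPred_eq] at ht ht' h
      omega
  -- conclusion
  have hdm := hdiv m (by omega)
  have hlt := LgV1.le_card_mul_totient m hm1
  have hLm : (L : ℝ) ≤ 2 * m * ((L / m : ℕ) : ℝ) := by
    have h8 : L < L / m * m + m := Nat.lt_div_mul_add (by omega)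
    have h9 : 1 ≤ L / m := (Nat.one_le_div_iff (by omega)).2 (by omega)
    have h10 : L ≤ 2 * m * (L / m) := by nlinarith
    exact_mod_cast h10
  have hspos : (0 : ℝ) < (s : ℝ) ^ σ := by positivity
  have hmpos : (0 : ℝ) < (m : ℝ) := by exact_mod_cast hm1
  have hms' : (m : ℝ) ^ σ ≤ (s : ℝ) ^ σ :=
    Real.rpow_le_rpow (by positivity) (by exact_mod_cast hms) hσ.le
  have hCpos : 0 < C := by linarith
  -- m ≤ C s^σ φ(m)
  have h11 : (m : ℝ) ≤ C * (s : ℝ) ^ σ * (Nat.totient m : ℝ) := by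
    have h12 : (m : ℝ) ≤ (m.divisors.card : ℝ) * (Nat.totient m : ℝ) := by exact_mod_cast hlt
    calc (m : ℝ) ≤ (m.divisors.card : ℝ) * (Nat.totient m : ℝ) := h12
      _ ≤ (C * (s : ℝ) ^ σ) * (Nat.totient m : ℝ) := by
          apply mul_le_mul_of_nonneg_right _ (by positivity)
          exact hdm.trans (mul_le_mul_of_nonneg_left hms' hCpos.le)
  rw [div_le_iff₀ hspos]
  have h13 : (((L / m) * Nat.totient m : ℕ) : ℝ) ≤
      (((Ico u (u + L)).filter (fun t => Nat.Coprime s (4 * t + 1))).card : ℝ) := by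
    exact_mod_cast hcount
  calc 1 / (2 * C) * (L : ℝ) ≤ 1 / (2 * C) * (2 * m * ((L / m : ℕ) : ℝ)) := by
        apply mul_le_mul_of_nonneg_left hLm (by positivity)
    _ = (1 / C) * ((m : ℝ) * ((L / m : ℕ) : ℝ)) := by field_simp
    _ ≤ (1 / C) * ((C * (s : ℝ) ^ σ * (Nat.totient m : ℝ)) * ((L / m : ℕ) : ℝ)) := by
        apply mul_le_mul_of_nonneg_left _ (by positivity)
        exact mul_le_mul_of_nonneg_right h11 (by positivity)
    _ = (((L / m) * Nat.totient m : ℕ) : ℝ) * (s : ℝ) ^ σ := by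
        push_cast
        field_simp
    _ ≤ _ := mul_le_mul_of_nonneg_right h13 hspos.le

end Pool.Agent.Lib.MP_d8bd92_nt
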