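import Pool.Agent.Lib.MP_d8bd92_nt.LgDefs

set_option autoImplicit false

namespace Pool.Agent.Lib.MP_d8bd92_nt

open Finset Pool.Agent.Lib.Szpiro


namespace LgV2

/-- the number of `s'` with `M < D² s' ≤ 2M` -/
theorem count (P M D : ℕ) (hP : 1 ≤ P) (hM : 16 * P ^ 2 ≤ M) (h1 : P ≤ D) (h2 : D < 2 * P) :
    3 / 16 * ((M : ℝ) / (P : ℝ) ^ 2) ≤ ((Ioc (M / D ^ 2) (2 * M / D ^ 2)).card : ℝ) := by
  have hD : 1 ≤ D := hP.trans h1
  have hDsq : 0 < D ^ 2 := by positivity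
  have hDr : (0 : ℝ) < (D : ℝ) ^ 2 := by positivity
  have hPr : (0 : ℝ) < (P : ℝ) ^ 2 := by
    have : (0 : ℝ) < P := by exact_mod_cast hP
    positivity
  rw [Nat.card_Ioc]
  have hle : M / D ^ 2 ≤ 2 * M / D ^ 2 := Nat.div_le_div_right (by omega)
  rw [Nat.cast_sub hle]
  -- floors
  have h3 : ((M / D ^ 2 : ℕ) : ℝ) ≤ (M : ℝ) / (D : ℝ) ^ 2 := by
    have := @Nat.cast_div_le ℝ _ _ _ M (D ^ 2)
    simpa using this
  have h4 : 2 * (M : ℝ) / (D : ℝ) ^ 2 - 1 ≤ ((2 * M / D ^ 2 : ℕ) : ℝ) := by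
    have h5 : 2 * M < D ^ 2 * (2 * M / D ^ 2 + 1) := Nat.lt_mul_div_succ _ hDsq
    have h6 : 2 * (M : ℝ) < (D : ℝ) ^ 2 * (((2 * M / D ^ 2 : ℕ) : ℝ) + 1) := by exact_mod_cast h5
    have h7 : 2 * (M : ℝ) / (D : ℝ) ^ 2 < ((2 * M / D ^ 2 : ℕ) : ℝ) + 1 := by
      rw [div_lt_iff₀ hDr]
      linarith [mul_comm ((D : ℝ) ^ 2) (((2 * M / D ^ 2 : ℕ) : ℝ) + 1)]
    linarith
  have h8 : (D : ℝ) ^ 2 ≤ 4 * (P : ℝ) ^ 2 := by
    have : (D : ℝ) ≤ 2 * P := by exact_mod_cast h2.le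
    have hD0 : (0 : ℝ) ≤ D := by positivity
    nlinarith
  have h9 : (M : ℝ) / (4 * (P : ℝ) ^ 2) ≤ (M : ℝ) / (D : ℝ) ^ 2 :=
    div_le_div_of_nonneg_left (by positivity) hDr h8
  have h10 : (4 : ℝ) ≤ (M : ℝ) / (4 * (P : ℝ) ^ 2) := by
    rw [le_div_iff₀ (by positivity)]
    have : (16 : ℝ) * (P : ℝ) ^ 2 ≤ M := by exact_mod_cast hM
    linarith
  have h11 : (M : ℝ) / (4 * (P : ℝ) ^ 2) = 1 / 4 * ((M : ℝ) / (P : ℝ) ^ 2) := by
    field_simp
  have h12 : 2 * (M : ℝ) / (D : ℝ) ^ 2 = 2 * ((M : ℝ) / (D : ℝ) ^ 2) := by ring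
  rw [h12] at h4
  rw [h11] at h9 h10
  linarith

end LgV2

theorem lg_squares (σ : ℝ) (hσ : 0 < σ) : ∃ c : ℝ, 0 < c ∧ ∀ (P M : ℕ), 1 ≤ P → 16 * P ^ 2 ≤ M →
    ∃ T : Finset ℕ, (∀ s ∈ T, M < s ∧ s ≤ 2 * M ∧ ∃ D s' : ℕ, P ≤ D ∧ s = D ^ 2 * s') ∧
    c * (M : ℝ) ^ (1 - σ) / P ≤ (T.card : ℝ) := by
  classical
  obtain ⟨C, hC1, hC⟩ := card_divisors_le_rpow σ hσ
  have hC0 : 0 < C := by linarith
  have h2σ : (0 : ℝ) < (2 : ℝ) ^ σ := Real.rpow_pos_of_pos two_pos _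
  refine ⟨3 / (16 * C * (2 : ℝ) ^ σ), by positivity, ?_⟩
  intro P M hP hM
  have hP0 : (0 : ℝ) < P := by exact_mod_cast hP
  have hM1 : 1 ≤ M := by
    have : 1 ≤ P ^ 2 := Nat.one_le_pow _ _ hP
    omega
  have hM0 : (0 : ℝ) < M := by exact_mod_cast hM1
  set U : Finset (Σ _ : ℕ, ℕ) :=
    (Ico P (2 * P)).sigma (fun D => Ioc (M / D ^ 2) (2 * M / D ^ 2)) with hU
  set f : (Σ _ : ℕ, ℕ) → ℕ := fun p => p.1 ^ 2 * p.2 with hf
  have hmem : ∀ p ∈ U, P ≤ p.1 ∧ 1 ≤ p.1 ∧ M < f p ∧ f p ≤ 2 * M := by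
    intro p hp
    rw [hU, Finset.mem_sigma, Finset.mem_Ico, Finset.mem_Ioc] at hp
    obtain ⟨⟨h1, h2⟩, h3, h4⟩ := hp
    have hp1 : 1 ≤ p.1 := hP.trans h1
    have hsq : 0 < p.1 ^ 2 := by positivity
    refine ⟨h1, hp1, ?_, ?_⟩
    · have := (Nat.div_lt_iff_lt_mul hsq).1 h3
      simp only [hf]
      rw [mul_comm]; exact this
    · have := (Nat.le_div_iff_mul_le hsq).1 h4
      simp only [hf]
      rw [mul_comm]; exact this
  refine ⟨U.image f, ?_, ?_⟩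
  · intro s hs
    obtain ⟨p, hp, rfl⟩ := Finset.mem_image.1 hs
    obtain ⟨h1, _, h3, h4⟩ := hmem p hp
    exact ⟨h3, h4, p.1, p.2, h1, rfl⟩
  · -- number of pairs
    have hcardU : 3 / 16 * ((M : ℝ) / P) ≤ (U.card : ℝ) := by
      rw [hU, Finset.card_sigma]
      push_cast
      calc 3 / 16 * ((M : ℝ) / P) = ∑ D ∈ Ico P (2 * P), 3 / 16 * ((M : ℝ) / (P : ℝ) ^ 2) := by
            rw [Finset.sum_const, Nat.card_Ico, nsmul_eq_mul]
            have : ((2 * P - P : ℕ) : ℝ) = P := by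
              have : 2 * P - P = P := by omega
              rw [this]
            rw [this]
            field_simp
        _ ≤ _ := by
            refine Finset.sum_le_sum ?_
            intro D hD
            rw [Finset.mem_Ico] at hD
            exact LgV2.count P M D hP hM hD.1 hD.2
    have hfib : ∀ a ∈ U.image f, (U.filter (fun x => f x = a)).card ≤
        ⌊C * (2 * (M : ℝ)) ^ σ⌋₊ := by
      intro a ha
      obtain ⟨p, hp, rfl⟩ := Finset.mem_image.1 ha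
      obtain ⟨h1, h2, h3, h4⟩ := hmem p hp
      have hne : f p ≠ 0 := by omega
      have h5 : (U.filter (fun x => f x = f p)).card ≤ (f p).divisors.card := by
        refine Finset.card_le_card_of_injOn (fun x => x.1) ?_ ?_
        · intro x hx
          have hx' := Finset.mem_filter.1 (Finset.mem_coe.1 hx)
          rw [Finset.mem_coe, Nat.mem_divisors]
          refine ⟨?_, hne⟩
          rw [← hx'.2]
          simp only [hf]
          exact (dvd_pow_self _ two_ne_zero).mul_right _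
        · intro x hx y hy hxy
          have hx' := Finset.mem_filter.1 (Finset.mem_coe.1 hx)
          have hy' := Finset.mem_filter.1 (Finset.mem_coe.1 hy)
          have h6 : f x = f y := by rw [hx'.2, hy'.2]
          simp only [hf] at h6
          have hxy' : x.1 = y.1 := hxy
          have h7 : 0 < x.1 ^ 2 := by
            have := (hmem x hx'.1).2.1
            positivity
          rw [← hxy'] at h6
          have h8 := Nat.eq_of_mul_eq_mul_left h7 h6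
          obtain ⟨x1, x2⟩ := x
          obtain ⟨y1, y2⟩ := y
          simp only at hxy' h8
          rw [hxy', h8]
      refine h5.trans (Nat.le_floor ?_)
      refine (hC (f p) hne).trans ?_
      refine mul_le_mul_of_nonneg_left ?_ hC0.le
      refine Real.rpow_le_rpow (by positivity) ?_ hσ.le
      exact_mod_cast h4
    have h6 := Finset.card_le_mul_card_image U _ hfib
    have h7 : (U.card : ℝ) ≤ C * (2 * (M : ℝ)) ^ σ * ((U.image f).card : ℝ) := by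
      calc (U.card : ℝ) ≤ ((⌊C * (2 * (M : ℝ)) ^ σ⌋₊ * (U.image f).card : ℕ) : ℝ) := by
            exact_mod_cast h6
        _ = (⌊C * (2 * (M : ℝ)) ^ σ⌋₊ : ℝ) * ((U.image f).card : ℝ) := by push_cast; ring
        _ ≤ _ := mul_le_mul_of_nonneg_right (Nat.floor_le (by positivity)) (by positivity)
    have h8 : (2 * (M : ℝ)) ^ σ = (2 : ℝ) ^ σ * (M : ℝ) ^ σ :=
      Real.mul_rpow (by norm_num) hM0.le
    have hMσ : (0 : ℝ) < (M : ℝ) ^ σ := Real.rpow_pos_of_pos hM0 _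
    have h9 : (M : ℝ) ^ (1 - σ) = (M : ℝ) / (M : ℝ) ^ σ := by
      rw [Real.rpow_sub hM0, Real.rpow_one]
    rw [h8] at h7
    rw [h9]
    have h10 : 3 / 16 * ((M : ℝ) / P) ≤
        C * ((2 : ℝ) ^ σ * (M : ℝ) ^ σ) * ((U.image f).card : ℝ) := hcardU.trans h7
    have h11 : 3 / (16 * C * (2 : ℝ) ^ σ) * ((M : ℝ) / (M : ℝ) ^ σ) / P =
        3 / 16 * ((M : ℝ) / P) / (C * ((2 : ℝ) ^ σ * (M : ℝ) ^ σ)) := by
      field_simp
    rw [h11, div_le_iff₀ (by positivity)]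
    linarith

end Pool.Agent.Lib.MP_d8bd92_nt
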