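import Pool.Agent.Lib.MP_d8bd92_nt.LgDefs
import Pool.Agent.Lib.MP_d8bd92_nt.CdK3

set_option autoImplicit false

/-!
Row V3: the curve `K3W s t` belongs to `FullTwoSet Pr`.
-/

namespace Pool.Agent.Lib.MP_d8bd92_nt

open Finset Pool.Agent.Lib.Szpiro

/-- Row V3 (about 60 lines). Generalisation of `K3_mem` (CdK3.lean, same proof): the curve
`K3W s t` belongs to `FullTwoSet Pr` as soon as `Pr (rd m) (m^2)`, `m = s (4t+1) (16s+4t+1)`. -/
theorem lg_mem (s t : ℕ) (hs : 1 ≤ s) (hcop : Nat.Coprime s (4 * t + 1)) (Pr : ℕ → ℕ → Prop)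
    (h : Pr (rd (s * (4 * t + 1) * (16 * s + (4 * t + 1))))
      ((s * (4 * t + 1) * (16 * s + (4 * t + 1))) ^ 2)) :
    ((K3W s t).c₄, (K3W s t).c₆) ∈ FullTwoSet Pr := by
  obtain ⟨W, h4, h6, hΔ0, hc, hpts, -⟩ := K3_mem s t hs hcop
    ((s * (4 * t + 1) * (16 * s + (4 * t + 1)) : ℕ) : ℝ) le_rfl
  refine ⟨W, h4, h6, hΔ0, hc, hpts, ?_⟩
  have hΔ : W.Δ = (K3W s t).Δ := by
    have r1 := W.c_relation
    have r2 := (K3W s t).c_relation
    rw [h4, h6] at r1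
    have r3 : 1728 * W.Δ = 1728 * (K3W s t).Δ := r1.trans r2.symm
    linarith
  have hnat : W.Δ.natAbs = (s * (4 * t + 1) * (16 * s + (4 * t + 1))) ^ 2 := by
    rw [hΔ, K3W_Δ]
    have : ((s : ℤ) * (4 * (t : ℤ) + 1) * (16 * (s : ℤ) + (4 * (t : ℤ) + 1))) ^ 2 =
        (((s * (4 * t + 1) * (16 * s + (4 * t + 1))) ^ 2 : ℕ) : ℤ) := by
      push_cast
      ring
    rw [this]
    exact Int.natAbs_natCast _
  rw [hnat, Nat.primeFactors_pow _ (by norm_num)]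
  exact h

end Pool.Agent.Lib.MP_d8bd92_nt
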