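import Pool.Agent.Lib.MP_d8bd92_nt.LgDefs
import Pool.Agent.Lib.MP_d8bd92_nt.CdK3
import Pool.Agent.Lib.MP_d8bd92_nt.LgV1
import Pool.Agent.Lib.MP_d8bd92_nt.LgV2
import Pool.Agent.Lib.MP_d8bd92_nt.LgV3

set_option autoImplicit false

/-!
Lower bound for the number of Frey curves with a large Szpiro ratio.
-/

namespace Pool.Agent.Lib.MP_d8bd92_nt

open Finset Pool.Agent.Lib.Szpiro


namespace LgV

/-- the radical of a number with a square divisor -/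
theorem rd_sq_le (D s' a b : ℕ) (hD : 1 ≤ D) (hs : 1 ≤ s') (ha : 1 ≤ a) (hb : 1 ≤ b) :
    rd (D ^ 2 * s' * a * b) * D ≤ D ^ 2 * s' * a * b := by
  have hn : D * s' * a * b ≠ 0 := by positivity
  have h1 : rd (D ^ 2 * s' * a * b) ≤ rd (D * s' * a * b) := by
    refine rd_mono' hn fun p hp h => ?_
    rcases (Nat.Prime.dvd_mul hp).1 h with h | h
    · rcases (Nat.Prime.dvd_mul hp).1 h with h | h
      · rcases (Nat.Prime.dvd_mul hp).1 h with h | h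
        · exact Dvd.dvd.mul_right (Dvd.dvd.mul_right (Dvd.dvd.mul_right (hp.dvd_of_dvd_pow h) _) _) _
        · exact Dvd.dvd.mul_right (Dvd.dvd.mul_right (Dvd.dvd.mul_left h _) _) _
      · exact Dvd.dvd.mul_right (Dvd.dvd.mul_left h _) _
    · exact Dvd.dvd.mul_left h _
  calc rd (D ^ 2 * s' * a * b) * D ≤ (D * s' * a * b) * D :=
        Nat.mul_le_mul_right _ (h1.trans (rd_le hn))
    _ = D ^ 2 * s' * a * b := by ring

/-- the pairs `(s, τ)` -/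
theorem pair_mem (t Y X : ℝ) (hY : 1 ≤ Y) (hX : 0 < X) (ht : 0 ≤ t) (M P s τ D s' : ℕ)
    (hM1 : X / 2000 ≤ M) (hM2 : (M : ℝ) ≤ X / 1000) (hP : X ^ 3 / Y ≤ P)
    (hXt : Y ^ (6 * t) * 10 ^ 16 ≤ X ^ 6) (hX3 : X ^ 6 ≤ Y ^ (3 : ℝ))
    (hs1 : M < s) (hs2 : s ≤ 2 * M) (hD : P ≤ D) (hsD : s = D ^ 2 * s')
    (hτ1 : 4 * M ≤ τ) (hτ2 : τ < 8 * M) (hcop : Nat.Coprime s (4 * τ + 1)) :
    ((K3W s τ).c₄, (K3W s τ).c₆) ∈ FullTwoSet (fun N D => (N : ℝ) ≤ Y ∧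
      (N : ℝ) ^ (6 * t) ≤ (D : ℝ) ∧ (D : ℝ) ≤ Y ^ (3 : ℝ)) := by
  have hs0 : 1 ≤ s := by omega
  have hM0 : 1 ≤ M := by omega
  have hD0 : D ≠ 0 := by rintro rfl; simp at hsD; omega
  have hs'0 : s' ≠ 0 := by rintro rfl; simp at hsD; omega
  refine lg_mem s τ hs0 hcop _ ?_
  set m : ℕ := s * (4 * τ + 1) * (16 * s + (4 * τ + 1)) with hm
  have hMr : (1 : ℝ) ≤ M := by exact_mod_cast hM0
  have hs1' : (M : ℝ) ≤ s := by exact_mod_cast hs1.le
  have hs2' : (s : ℝ) ≤ 2 * M := by exact_mod_cast hs2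
  have hτ1' : 4 * (M : ℝ) ≤ τ := by exact_mod_cast hτ1
  have hτ2' : (τ : ℝ) + 1 ≤ 8 * M := by exact_mod_cast hτ2
  have hmR : (m : ℝ) = s * (4 * τ + 1) * (16 * s + (4 * τ + 1)) := by
    rw [hm]; push_cast; ring
  have hup : (m : ℝ) ≤ X ^ 3 := by
    rw [hmR]
    calc (s : ℝ) * (4 * τ + 1) * (16 * s + (4 * τ + 1))
        ≤ (2 * M) * (32 * M) * (64 * M) := by
          gcongr
          · linarith
          · linarith
      _ = 4096 * (M : ℝ) ^ 3 := by ring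
      _ ≤ 4096 * (X / 1000) ^ 3 := by gcongr
      _ ≤ X ^ 3 := by
          have : 0 ≤ X ^ 3 := by positivity
          nlinarith
  have hlow : X ^ 3 / 10 ^ 8 ≤ (m : ℝ) := by
    rw [hmR]
    calc X ^ 3 / 10 ^ 8 ≤ 256 * (X / 2000) ^ 3 := by
          have : 0 ≤ X ^ 3 := by positivity
          nlinarith
      _ ≤ 256 * (M : ℝ) ^ 3 := by gcongr
      _ = M * (16 * M) * (16 * M) := by ring
      _ ≤ (s : ℝ) * (4 * τ + 1) * (16 * s + (4 * τ + 1)) := by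
          gcongr
          · linarith
          · linarith
  have hrd : (rd m : ℝ) ≤ Y := by
    have h1 := rd_sq_le D s' (4 * τ + 1) (16 * s + (4 * τ + 1)) (by omega) (by omega) (by omega)
      (by omega)
    rw [← hsD, ← hm] at h1
    have h2 : (rd m : ℝ) * D ≤ m := by exact_mod_cast h1
    have h3 : X ^ 3 / Y ≤ D := hP.trans (by exact_mod_cast hD)
    have h4 : 0 < X ^ 3 / Y := by positivity
    have h5 : (rd m : ℝ) * (X ^ 3 / Y) ≤ X ^ 3 :=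
      (mul_le_mul_of_nonneg_left h3 (Nat.cast_nonneg _)).trans (h2.trans hup)
    rw [mul_div_assoc', div_le_iff₀ (by linarith)] at h5
    have h6 : 0 < X ^ 3 := by positivity
    by_contra hlt
    push Not at hlt
    nlinarith [mul_lt_mul_of_pos_right hlt h6]
  refine ⟨hrd, ?_, ?_⟩
  · calc (rd m : ℝ) ^ (6 * t) ≤ Y ^ (6 * t) :=
          Real.rpow_le_rpow (Nat.cast_nonneg _) hrd (by positivity)
      _ ≤ X ^ 6 / 10 ^ 16 := by
          rw [le_div_iff₀ (by positivity)]; exact hXt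
      _ = (X ^ 3 / 10 ^ 8) ^ 2 := by ring
      _ ≤ (m : ℝ) ^ 2 := pow_le_pow_left₀ (by positivity) hlow 2
      _ = ((m ^ 2 : ℕ) : ℝ) := by push_cast; ring
  · calc ((m ^ 2 : ℕ) : ℝ) = (m : ℝ) ^ 2 := by push_cast; ring
      _ ≤ (X ^ 3) ^ 2 := pow_le_pow_left₀ (Nat.cast_nonneg _) hup 2
      _ = X ^ 6 := by ring
      _ ≤ Y ^ (3 : ℝ) := hX3

end LgV

theorem lg_curves_lower (t ε : ℝ) (ht : 1 / 3 ≤ t) (ht' : t ≤ 11 / 30) (hε : 0 < ε) :
    ∃ c Y₀ : ℝ, 0 < c ∧ 1 ≤ Y₀ ∧ ∀ Y : ℝ, Y₀ ≤ Y →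
    c * Y ^ (1 - t - ε) ≤ ((FullTwoSet (fun N D => (N : ℝ) ≤ Y ∧ (N : ℝ) ^ (6 * t) ≤ (D : ℝ) ∧
      (D : ℝ) ≤ Y ^ (3 : ℝ))).ncard : ℝ) := by
  classical
  set e : ℝ := min ε 1 / 100 with he
  have he0 : 0 < e := by rw [he]; positivity
  have he1 : e ≤ 1 / 100 := by
    have := min_le_right ε 1
    rw [he]; linarith
  have he2 : 100 * e ≤ ε := by
    have := min_le_left ε 1
    rw [he]; linarith
  obtain ⟨c₁, hc₁, hcop⟩ := lg_coprime e he0
  obtain ⟨c₂, hc₂, hsq⟩ := lg_squares e he0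
  have hlim : ∀ᶠ Y : ℝ in Filter.atTop, (128000 : ℝ) ≤ Y ^ (7 / 60 : ℝ) ∧
      (10 ^ 16 : ℝ) ≤ Y ^ (6 * e) ∧ (2000 : ℝ) ≤ Y ^ (1 / 3 : ℝ) := by
    have h1 := (tendsto_rpow_atTop (by norm_num : (0 : ℝ) < 7 / 60)).eventually_ge_atTop 128000
    have h2 := (tendsto_rpow_atTop (by positivity : (0 : ℝ) < 6 * e)).eventually_ge_atTop (10 ^ 16)
    have h3 := (tendsto_rpow_atTop (by norm_num : (0 : ℝ) < 1 / 3)).eventually_ge_atTop 2000
    exact h1.and (h2.and h3)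
  obtain ⟨Y₁, hY₁⟩ := Filter.eventually_atTop.1 hlim
  refine ⟨c₁ * c₂ / 4000000, max Y₁ 1, by positivity, le_max_right _ _, ?_⟩
  intro Y hY
  obtain ⟨hl1, hl2, hl3⟩ := hY₁ Y ((le_max_left _ _).trans hY)
  have hY1 : 1 ≤ Y := (le_max_right _ _).trans hY
  have hY0 : 0 < Y := by linarith
  set X : ℝ := Y ^ (t + e) with hXdef
  have hX0 : 0 < X := Real.rpow_pos_of_pos hY0 _
  have hXpow : ∀ n : ℕ, X ^ n = Y ^ ((t + e) * n) := by
    intro n
    rw [hXdef, ← Real.rpow_natCast, ← Real.rpow_mul hY0.le]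
  have hX2000 : 2000 ≤ X := by
    refine hl3.trans ?_
    exact Real.rpow_le_rpow_of_exponent_le hY1 (by linarith)
  have hX5 : 128000 * X ^ 5 ≤ Y ^ 2 := by
    calc 128000 * X ^ 5 ≤ Y ^ (7 / 60 : ℝ) * Y ^ ((t + e) * (5 : ℕ)) := by
          rw [← hXpow]
          exact mul_le_mul_of_nonneg_right hl1 (by positivity)
      _ = Y ^ (7 / 60 + (t + e) * (5 : ℕ)) := (Real.rpow_add hY0 _ _).symm
      _ ≤ Y ^ (2 : ℝ) := by
          refine Real.rpow_le_rpow_of_exponent_le hY1 ?_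
          push_cast
          linarith
      _ = Y ^ 2 := Real.rpow_natCast Y 2
  have hX6 : X ^ 6 ≤ Y ^ (3 : ℝ) := by
    rw [hXpow]
    refine Real.rpow_le_rpow_of_exponent_le hY1 ?_
    push_cast
    linarith
  have hX6' : Y ^ (6 * t) * 10 ^ 16 ≤ X ^ 6 := by
    calc Y ^ (6 * t) * 10 ^ 16 ≤ Y ^ (6 * t) * Y ^ (6 * e) :=
          mul_le_mul_of_nonneg_left hl2 (Real.rpow_pos_of_pos hY0 _).le
      _ = Y ^ (6 * t + 6 * e) := (Real.rpow_add hY0 _ _).symm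
      _ = X ^ 6 := by rw [hXpow]; congr 1; push_cast; ring
  have hX3Y : 1 ≤ X ^ 3 / Y := by
    rw [le_div_iff₀ hY0, one_mul, hXpow]
    calc Y = Y ^ (1 : ℝ) := (Real.rpow_one Y).symm
      _ ≤ Y ^ ((t + e) * (3 : ℕ)) := by
          refine Real.rpow_le_rpow_of_exponent_le hY1 ?_
          push_cast
          linarith
  set M : ℕ := ⌊X / 1000⌋₊ with hM
  set P : ℕ := ⌈X ^ 3 / Y⌉₊ with hP
  have hM2 : (M : ℝ) ≤ X / 1000 := Nat.floor_le (by positivity)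
  have hM1 : X / 2000 ≤ (M : ℝ) := by
    have := Nat.lt_floor_add_one (X / 1000)
    rw [← hM] at this
    linarith
  have hP1 : X ^ 3 / Y ≤ (P : ℝ) := Nat.le_ceil _
  have hP2 : (P : ℝ) ≤ 2 * (X ^ 3 / Y) := by
    have := Nat.ceil_lt_add_one (by positivity : 0 ≤ X ^ 3 / Y)
    rw [← hP] at this
    linarith
  have hP0 : (1 : ℝ) ≤ P := hX3Y.trans hP1
  have hP0' : 1 ≤ P := by exact_mod_cast hP0
  have hMr : (1 : ℝ) ≤ M := by linarith
  have hPM : 16 * P ^ 2 ≤ M := by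
    have h1 : 16 * (P : ℝ) ^ 2 ≤ M := by
      calc 16 * (P : ℝ) ^ 2 ≤ 16 * (2 * (X ^ 3 / Y)) ^ 2 := by gcongr
        _ = 64 * X ^ 6 / Y ^ 2 := by field_simp; ring
        _ ≤ X / 2000 := by
            rw [div_le_div_iff₀ (by positivity) (by norm_num)]
            calc 64 * X ^ 6 * 2000 = X * (128000 * X ^ 5) := by ring
              _ ≤ X * Y ^ 2 := mul_le_mul_of_nonneg_left hX5 hX0.le
        _ ≤ M := hM1
    exact_mod_cast h1
  obtain ⟨T, hT, hTc⟩ := hsq P M hP0' hPM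
  set G : Finset (Σ _ : ℕ, ℕ) := T.sigma (fun s =>
    (Ico (4 * M) (4 * M + 4 * M)).filter (fun τ => Nat.Coprime s (4 * τ + 1))) with hG
  have hfin : (FullTwoSet (fun N D => (N : ℝ) ≤ Y ∧ (N : ℝ) ^ (6 * t) ≤ (D : ℝ) ∧
      (D : ℝ) ≤ Y ^ (3 : ℝ))).Finite := by
    refine (full_two_finite (Y ^ (3 : ℝ))).subset ?_
    rintro c ⟨W, h1, h2, h3, h4, h5, h6⟩
    exact ⟨W, h1, h2, h3, h4, h5, h6.2.2⟩
  have hcard : G.card ≤ (FullTwoSet (fun N D => (N : ℝ) ≤ Y ∧ (N : ℝ) ^ (6 * t) ≤ (D : ℝ) ∧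
      (D : ℝ) ≤ Y ^ (3 : ℝ))).ncard := by
    rw [← Set.ncard_coe_finset G]
    refine Set.ncard_le_ncard_of_injOn
      (fun q : (Σ _ : ℕ, ℕ) => ((K3W q.1 q.2).c₄, (K3W q.1 q.2).c₆)) ?_ ?_ hfin
    · intro q hq
      obtain ⟨h1, h2⟩ := Finset.mem_sigma.1 (Finset.mem_coe.1 hq)
      rw [Finset.mem_filter, Finset.mem_Ico] at h2
      obtain ⟨h3, h4, D, s', h5, h6⟩ := hT q.1 h1
      exact LgV.pair_mem t Y X hY1 hX0 (by linarith) M P q.1 q.2 D s' hM1 hM2 hP1 hX6' hX6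
        h3 h4 h5 h6 h2.1.1 (by omega) h2.2
    · intro q hq q' hq' h
      obtain ⟨h1, h2⟩ := Finset.mem_sigma.1 (Finset.mem_coe.1 hq)
      obtain ⟨h1', h2'⟩ := Finset.mem_sigma.1 (Finset.mem_coe.1 hq')
      rw [Finset.mem_filter, Finset.mem_Ico] at h2 h2'
      have h3 := (hT q.1 h1).1
      have h3' := (hT q'.1 h1').1
      have hM0 : 1 ≤ M := by exact_mod_cast hMr
      simp only [Prod.mk.injEq] at h
      have := K3_inj (s := q.1) (t := q.2) (s' := q'.1) (t' := q'.2)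
        (by omega) (by omega) (by omega) (by omega) h.1 h.2
      refine Sigma.ext (by exact_mod_cast this.1) ?_
      exact heq_of_eq (by exact_mod_cast this.2)
  have hGc : (T.card : ℝ) * (c₁ * (4 * M) / (2 * M) ^ e) ≤ (G.card : ℝ) := by
    rw [hG, Finset.card_sigma]
    push_cast
    rw [← nsmul_eq_mul]
    refine Finset.card_nsmul_le_sum _ _ _ ?_
    intro s hs
    obtain ⟨h3, h4, -⟩ := hT s hs
    have h5 := hcop s (4 * M) (4 * M) (by omega) (by omega)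
    refine le_trans ?_ h5
    push_cast
    have hs0 : (0 : ℝ) < s := by exact_mod_cast (by omega : 0 < s)
    have h6 : (s : ℝ) ≤ 2 * M := by exact_mod_cast h4
    exact div_le_div_of_nonneg_left (by positivity) (Real.rpow_pos_of_pos hs0 _)
      (Real.rpow_le_rpow hs0.le h6 he0.le)
  have hGc' : (G.card : ℝ) ≤ ((FullTwoSet (fun N D => (N : ℝ) ≤ Y ∧ (N : ℝ) ^ (6 * t) ≤ (D : ℝ) ∧
      (D : ℝ) ≤ Y ^ (3 : ℝ))).ncard : ℝ) := by exact_mod_cast hcard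
  refine le_trans ?_ (hGc.trans hGc')
  have hM0 : (0 : ℝ) < M := by linarith
  have hPpos : (0 : ℝ) < P := by linarith
  have h2M : (2 * (M : ℝ)) ^ e ≤ 2 * (M : ℝ) ^ e := by
    rw [Real.mul_rpow (by norm_num) hM0.le]
    refine mul_le_mul_of_nonneg_right ?_ (Real.rpow_pos_of_pos hM0 _).le
    calc (2 : ℝ) ^ e ≤ 2 ^ (1 : ℝ) := Real.rpow_le_rpow_of_exponent_le (by norm_num) (by linarith)
      _ = 2 := Real.rpow_one 2
  have hMe : 0 < (M : ℝ) ^ e := Real.rpow_pos_of_pos hM0 _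
  have hstep1 : 2 * c₁ * c₂ * (M : ℝ) ^ (2 - 2 * e) / P ≤
      (T.card : ℝ) * (c₁ * (4 * M) / (2 * M) ^ e) := by
    calc 2 * c₁ * c₂ * (M : ℝ) ^ (2 - 2 * e) / P
        = (c₂ * (M : ℝ) ^ (1 - e) / P) * (c₁ * (4 * M) / (2 * (M : ℝ) ^ e)) := by
          have h1 : (M : ℝ) ^ (2 - 2 * e) = (M : ℝ) ^ (1 - e) * M / (M : ℝ) ^ e := by
            rw [eq_div_iff hMe.ne', ← Real.rpow_add hM0]
            nth_rewrite 3 [← Real.rpow_one (M : ℝ)]
            rw [← Real.rpow_add hM0]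
            congr 1
            ring
          rw [h1]
          field_simp
          ring
      _ ≤ (T.card : ℝ) * (c₁ * (4 * M) / (2 * M) ^ e) := by
          refine mul_le_mul hTc ?_ (by positivity) (Nat.cast_nonneg _)
          exact div_le_div_of_nonneg_left (by positivity)
            (Real.rpow_pos_of_pos (by positivity) _) h2M
  refine le_trans ?_ hstep1
  have hMX : X ^ (2 - 2 * e) / 4000000 ≤ (M : ℝ) ^ (2 - 2 * e) := by
    calc X ^ (2 - 2 * e) / 4000000 ≤ X ^ (2 - 2 * e) / 2000 ^ (2 - 2 * e) := by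
          refine div_le_div_of_nonneg_left (Real.rpow_pos_of_pos hX0 _).le
            (Real.rpow_pos_of_pos (by norm_num) _) ?_
          calc (2000 : ℝ) ^ (2 - 2 * e) ≤ 2000 ^ (2 : ℝ) :=
                Real.rpow_le_rpow_of_exponent_le (by norm_num) (by linarith)
            _ = 4000000 := by norm_num
      _ = (X / 2000) ^ (2 - 2 * e) := (Real.div_rpow hX0.le (by norm_num) _).symm
      _ ≤ (M : ℝ) ^ (2 - 2 * e) := Real.rpow_le_rpow (by positivity) hM1 (by linarith)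
  have hXe : X ^ (2 - 2 * e) = Y ^ ((t + e) * (2 - 2 * e)) := by
    rw [hXdef, ← Real.rpow_mul hY0.le]
  have hfinal : Y ^ (1 - t - ε) ≤ X ^ (2 - 2 * e) * Y / X ^ 3 := by
    rw [hXe, hXpow]
    have h1 : Y ^ ((t + e) * (2 - 2 * e)) * Y / Y ^ ((t + e) * (3 : ℕ)) =
        Y ^ ((t + e) * (2 - 2 * e) + 1 - (t + e) * (3 : ℕ)) := by
      rw [Real.rpow_sub hY0, Real.rpow_add hY0, Real.rpow_one]
    rw [h1]
    refine Real.rpow_le_rpow_of_exponent_le hY1 ?_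
    push_cast
    nlinarith
  calc c₁ * c₂ / 4000000 * Y ^ (1 - t - ε)
      ≤ c₁ * c₂ / 4000000 * (X ^ (2 - 2 * e) * Y / X ^ 3) :=
        mul_le_mul_of_nonneg_left hfinal (by positivity)
    _ = 2 * c₁ * c₂ * (X ^ (2 - 2 * e) / 4000000) / (2 * (X ^ 3 / Y)) := by
        field_simp
    _ ≤ 2 * c₁ * c₂ * (M : ℝ) ^ (2 - 2 * e) / P := by
        refine div_le_div₀ (by positivity) ?_ hPpos hP2
        exact mul_le_mul_of_nonneg_left hMX (by positivity)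

end Pool.Agent.Lib.MP_d8bd92_nt
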