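import Pool.Agent.Lib.MP_d8bd92_nt.FamArith
import Pool.Agent.Lib.MP_d8bd92_nt.FamMisc
import Pool.Agent.Lib.MP_d8bd92_nt.FamRoots
import Pool.Agent.Lib.MP_d8bd92_nt.FamEvents1

set_option autoImplicit false

namespace Pool.Agent.Lib.MP_d8bd92_nt

open Finset Polynomial

/-- `x^n - k` -/
noncomputable def powSub (n : ℕ) (k : ℤ) : ℤ[X] := X ^ n - C k

theorem powSub_eval (n : ℕ) (k x : ℤ) : (powSub n k).eval x = x ^ n - k := by
  unfold powSub; simp

theorem powSub_natDegree (n : ℕ) (k : ℤ) : (powSub n k).natDegree = n := by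
  unfold powSub
  exact natDegree_X_pow_sub_C

theorem powSub_bezout (n : ℕ) (hn : 1 ≤ n) (k : ℤ) :
    C (-(n : ℤ)) * powSub n k + X * derivative (powSub n k) = C ((n : ℤ) * k) := by
  unfold powSub
  rw [derivative_sub, derivative_X_pow, derivative_C, sub_zero]
  obtain ⟨j, rfl⟩ : ∃ j, n = j + 1 := ⟨n - 1, by omega⟩
  rw [Nat.add_sub_cancel]
  simp only [map_neg, map_mul]
  push_cast
  simp only [map_add, map_natCast, map_one]
  ring

theorem powSub_coeff (n : ℕ) (hn : 1 ≤ n) (k : ℤ) : (powSub n k).coeff n = 1 := by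
  unfold powSub
  rw [coeff_sub, coeff_X_pow, if_pos rfl, coeff_C, if_neg (by omega), sub_zero]

/-- integers of an interval in one residue class -/
theorem card_class (T : Finset ℤ) (H D : ℕ) (hD : 1 ≤ D)
    (hdiam : ∀ s ∈ T, ∀ t ∈ T, s - t ≤ (H : ℤ)) (x : ℤ) (hcl : ∀ s ∈ T, (D : ℤ) ∣ s - x) :
    (T.card : ℝ) ≤ 2 * ((H : ℝ) / D + 1) := by
  have h1 := card_le_of_windows T D hD 2 (H : ℝ) (Nat.cast_nonneg _)
    (fun s hs t ht => by exact_mod_cast hdiam s hs t ht) (by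
      intro S hS hd
      by_contra hc
      push Not at hc
      obtain ⟨a, b, c, ha, hb, hcc, hab, hac, hbc⟩ := Finset.two_lt_card_iff.mp hc
      have key : ∀ u ∈ S, ∀ v ∈ S, u ≠ v → |u - v| = (D : ℤ) := by
        intro u hu v hv huv
        have h1 : (D : ℤ) ∣ u - v := by
          have := dvd_sub (hcl u (hS hu)) (hcl v (hS hv))
          have e : u - x - (v - x) = u - v := by ring
          rwa [e] at this
        have h2 := hd u hu v hv
        have h3 : (D : ℤ) ∣ |u - v| := (dvd_abs _ _).mpr h1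
        have h4 : 0 < |u - v| := abs_pos.mpr (sub_ne_zero.mpr huv)
        have h5 := Int.le_of_dvd h4 h3
        omega
      have e1 := key a ha b hb hab
      have e2 := key a ha c hcc hac
      have e3 := key b hb c hcc hbc
      have hD0 : (1 : ℤ) ≤ (D : ℤ) := by exact_mod_cast hD
      rcases abs_choice (a - b) with h1 | h1 <;> rcases abs_choice (a - c) with h2 | h2 <;>
        rcases abs_choice (b - c) with h3 | h3 <;> omega)
  push_cast at h1
  exact h1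

/-- integers `x` of an interval with `D ∣ x^n - k`, `D` coprime to `n k` -/
theorem card_dvd_powSub (n : ℕ) (hn : 1 ≤ n) (k : ℤ) (T : Finset ℤ) (D : ℕ) (hD : 1 ≤ D)
    (hcop : IsCoprime (D : ℤ) ((n : ℤ) * k)) (hdvd : ∀ s ∈ T, (D : ℤ) ∣ s ^ n - k) (M : ℝ)
    (hM : 0 ≤ M)
    (hcl : ∀ x : ℤ, ∀ T' : Finset ℤ, T' ⊆ T → (∀ s ∈ T', (D : ℤ) ∣ s - x) → (T'.card : ℝ) ≤ M) :
    (T.card : ℝ) ≤ (n : ℝ) ^ D.primeFactors.card * M := by
  classical
  have hDZ : (0 : ℤ) < (D : ℤ) := by exact_mod_cast hD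
  have hcover : T ⊆ (rootsMod (powSub n k) D).biUnion
      (fun x => T.filter (fun s => (D : ℤ) ∣ s - (x : ℤ))) := by
    intro s hs
    rw [Finset.mem_biUnion]
    have h1 := Int.emod_nonneg s hDZ.ne'
    have h2 := Int.emod_lt_of_pos s hDZ
    have h3 : ((s % (D : ℤ)).toNat : ℤ) = s % (D : ℤ) := Int.toNat_of_nonneg h1
    have h4 : (D : ℤ) ∣ s - ((s % (D : ℤ)).toNat : ℤ) := by
      rw [h3]
      exact (Int.mod_modEq s (D : ℤ)).dvd
    refine ⟨(s % (D : ℤ)).toNat, ?_, ?_⟩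
    · rw [rootsMod, Finset.mem_filter, Finset.mem_range]
      refine ⟨by omega, ?_⟩
      have h5 : s - ((s % (D : ℤ)).toNat : ℤ) ∣
          (powSub n k).eval s - (powSub n k).eval (((s % (D : ℤ)).toNat : ℤ)) :=
        Polynomial.sub_dvd_eval_sub _ _ _
      have h6 := h4.trans h5
      have h7 : (D : ℤ) ∣ (powSub n k).eval s := by rw [powSub_eval]; exact hdvd s hs
      exact (dvd_iff_dvd_of_dvd_sub h6).mp h7
    · rw [Finset.mem_filter]
      exact ⟨hs, h4⟩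
  have hroots := card_rootsMod (powSub n k) (C (-(n : ℤ))) X ((n : ℤ) * k) (powSub_bezout n hn k) D
    (by omega) hcop
  rw [powSub_natDegree] at hroots
  have h1 : (T.card : ℝ) ≤ ∑ x ∈ rootsMod (powSub n k) D,
      ((T.filter (fun s => (D : ℤ) ∣ s - (x : ℤ))).card : ℝ) := by
    exact_mod_cast (Finset.card_le_card hcover).trans Finset.card_biUnion_le
  refine h1.trans ?_
  calc ∑ x ∈ rootsMod (powSub n k) D, ((T.filter (fun s => (D : ℤ) ∣ s - (x : ℤ))).card : ℝ)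
      ≤ ∑ _x ∈ rootsMod (powSub n k) D, M := by
        apply Finset.sum_le_sum
        intro x _
        exact hcl x _ (Finset.filter_subset _ _) (fun s hs => (Finset.mem_filter.mp hs).2)
    _ = (rootsMod (powSub n k) D).card * M := by rw [Finset.sum_const, nsmul_eq_mul]
    _ ≤ (n : ℝ) ^ D.primeFactors.card * M := by
        apply mul_le_mul_of_nonneg_right _ hM
        exact_mod_cast hroots

/-- Event E1 in short intervals. -/
theorem short_squareful (n : ℕ) (hn : 1 ≤ n) (η : ℝ) (hη : 0 < η) (hη' : η ≤ 1 / 2) :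
    ∃ C0 : ℝ, 0 < C0 ∧ ∀ (k : ℤ) (H : ℕ), 1 ≤ H → ∀ T : Finset ℤ,
      (∀ s ∈ T, ∀ t ∈ T, s - t ≤ (H : ℤ)) →
      (∀ s ∈ T, ∃ D : ℕ, Squareful D ∧ IsCoprime (D : ℤ) ((n : ℤ) * k) ∧
        (H : ℝ) ^ η ≤ (D : ℝ) ∧ (D : ℝ) ≤ (H : ℝ) ^ (2 - 2 * η) ∧ (D : ℤ) ∣ s ^ n - k) →
      (T.card : ℝ) ≤ C0 * (H : ℝ) ^ (1 - η / 4) := by
  classical
  set κ : ℝ := η / 8 with hκ
  have hκ0 : 0 < κ := by positivity
  obtain ⟨Cω, hCω1, hCω⟩ := exists_pow_card_primeFactors_le n κ hκ0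
  obtain ⟨C1, hC10, hC1⟩ := exists_sum_rpow_le (5 / 8) (by norm_num)
  obtain ⟨C2, hC20, hC2⟩ := exists_sum_rpow_le (1 / 2 + κ) (by linarith)
  refine ⟨Cω * (2 * C1 + 2 * C2), by positivity, ?_⟩
  intro k H hH T hdiam hTw
  have hU1 : (1 : ℝ) ≤ (H : ℝ) := by exact_mod_cast hH
  set U : ℝ := (H : ℝ) with hU
  have hU0 : 0 < U := by linarith
  set N : ℕ := ⌊U ^ (2 - 2 * η)⌋₊ with hN
  set PP : Finset (ℕ × ℕ) := ((Finset.range (N + 1)) ×ˢ (Finset.range (N + 1))).filter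
    (fun q => 0 < q.1 ∧ 0 < q.2 ∧ U ^ η ≤ ((q.1 ^ 2 * q.2 ^ 3 : ℕ) : ℝ) ∧
      ((q.1 ^ 2 * q.2 ^ 3 : ℕ) : ℝ) ≤ U ^ (2 - 2 * η) ∧
      IsCoprime ((q.1 ^ 2 * q.2 ^ 3 : ℕ) : ℤ) ((n : ℤ) * k)) with hPP
  have hcover : T ⊆ PP.biUnion (fun q =>
      T.filter (fun s => ((q.1 ^ 2 * q.2 ^ 3 : ℕ) : ℤ) ∣ s ^ n - k)) := by
    intro w hw
    obtain ⟨D, hDs, hDc, hD1, hD2, hDd⟩ := hTw w hw
    have hD0 : D ≠ 0 := by
      intro h
      rw [h] at hD1
      have : 0 < U ^ η := Real.rpow_pos_of_pos hU0 _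
      norm_num at hD1
      linarith
    obtain ⟨x, z, hx, hz, hxz⟩ := squareful_repr D hD0 hDs
    rw [Finset.mem_biUnion]
    refine ⟨(x, z), ?_, ?_⟩
    · rw [hPP, Finset.mem_filter, Finset.mem_product, Finset.mem_range, Finset.mem_range]
      have hDN : D ≤ N := Nat.le_floor hD2
      have hx1 : x ≤ D := by
        rw [hxz]
        calc x = x * 1 := (mul_one x).symm
          _ ≤ x ^ 2 * z ^ 3 := by
            apply Nat.mul_le_mul
            · nlinarith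
            · exact Nat.one_le_pow _ _ hz
      have hz1 : z ≤ D := by
        rw [hxz]
        calc z = 1 * z ^ 1 := by ring
          _ ≤ x ^ 2 * z ^ 3 := by
            apply Nat.mul_le_mul
            · exact Nat.one_le_pow _ _ hx
            · exact Nat.pow_le_pow_right hz (by norm_num)
      refine ⟨⟨?_, ?_⟩, hx, hz, ?_, ?_, ?_⟩
      · show x < N + 1; omega
      · show z < N + 1; omega
      · show U ^ η ≤ ((x ^ 2 * z ^ 3 : ℕ) : ℝ); rw [← hxz]; exact hD1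
      · show ((x ^ 2 * z ^ 3 : ℕ) : ℝ) ≤ U ^ (2 - 2 * η); rw [← hxz]; exact hD2
      · show IsCoprime ((x ^ 2 * z ^ 3 : ℕ) : ℤ) _; rw [← hxz]; exact hDc
    · rw [Finset.mem_filter]
      refine ⟨hw, ?_⟩
      show ((x ^ 2 * z ^ 3 : ℕ) : ℤ) ∣ _
      rw [← hxz]; exact hDd
  have h1 : (T.card : ℝ) ≤ ∑ q ∈ PP,
      ((T.filter (fun s => ((q.1 ^ 2 * q.2 ^ 3 : ℕ) : ℤ) ∣ s ^ n - k)).card : ℝ) := by
    exact_mod_cast (Finset.card_le_card hcover).trans Finset.card_biUnion_le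
  refine h1.trans ?_
  have hterm : ∀ q ∈ PP,
      ((T.filter (fun s => ((q.1 ^ 2 * q.2 ^ 3 : ℕ) : ℤ) ∣ s ^ n - k)).card : ℝ) ≤
      Cω * (2 * U ^ (1 - η / 4)) * ((q.1 : ℝ) ^ (2 : ℕ) * (q.2 : ℝ) ^ (3 : ℕ)) ^ (-(5 / 8 : ℝ)) +
      Cω * (2 * U ^ (1 - η / 4)) *
        ((q.1 : ℝ) ^ (2 : ℕ) * (q.2 : ℝ) ^ (3 : ℕ)) ^ (-(1 / 2 + κ)) := by
    intro q hq
    rw [hPP, Finset.mem_filter] at hq
    obtain ⟨_, hx, hz, hD1, hD2, hDc⟩ := hq
    set D : ℕ := q.1 ^ 2 * q.2 ^ 3 with hD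
    have hDR : ((q.1 : ℝ) ^ (2 : ℕ) * (q.2 : ℝ) ^ (3 : ℕ)) = (D : ℝ) := by rw [hD]; push_cast; ring
    rw [hDR]
    have hD0 : 1 ≤ D := Nat.one_le_iff_ne_zero.mpr (by positivity)
    have hDpos : (0 : ℝ) < (D : ℝ) := by exact_mod_cast hD0
    have h2 := card_dvd_powSub n hn k (T.filter (fun s => (D : ℤ) ∣ s ^ n - k)) D hD0 hDc
      (fun s hs => (Finset.mem_filter.mp hs).2) (2 * ((H : ℝ) / D + 1)) (by positivity) (by
        intro x T' hT' hcl
        exact card_class T' H D hD0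
          (fun s hs t ht => hdiam s (Finset.mem_filter.mp (hT' hs)).1 t
            (Finset.mem_filter.mp (hT' ht)).1) x hcl)
    refine h2.trans ?_
    have h3 := hCω D (by omega)
    have h4 : (n : ℝ) ^ D.primeFactors.card * (2 * (U / D + 1)) ≤
        (Cω * (D : ℝ) ^ κ) * (2 * (U / D + 1)) := by
      apply mul_le_mul_of_nonneg_right h3; positivity
    refine h4.trans ?_
    have h5 : (D : ℝ) ^ κ * (2 * (U / D)) ≤ 2 * U ^ (1 - η / 4) * (D : ℝ) ^ (-(5 / 8 : ℝ)) := by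
      have e1 : (D : ℝ) ^ κ * (2 * (U / D)) = 2 * U * ((D : ℝ) ^ (κ - 1)) := by
        rw [Real.rpow_sub hDpos, Real.rpow_one]; ring
      have e2 : (D : ℝ) ^ (κ - 1) = (D : ℝ) ^ (-(5 / 8 : ℝ)) * (D : ℝ) ^ (-(3 / 8 - κ)) := by
        rw [← Real.rpow_add hDpos]; congr 1; ring
      have e3 : (D : ℝ) ^ (-(3 / 8 - κ)) ≤ U ^ (-(η / 4)) := by
        have f1 : (D : ℝ) ^ (-(3 / 8 - κ)) ≤ (U ^ η) ^ (-(3 / 8 - κ)) := by
          apply Real.rpow_le_rpow_of_nonpos (Real.rpow_pos_of_pos hU0 _) hD1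
          rw [hκ]; linarith
        refine f1.trans ?_
        rw [← Real.rpow_mul hU0.le]
        apply Real.rpow_le_rpow_of_exponent_le hU1
        rw [hκ]; nlinarith
      have e4 : U ^ (1 - η / 4) = U * U ^ (-(η / 4)) := by
        rw [sub_eq_add_neg, Real.rpow_add hU0, Real.rpow_one]
      rw [e1, e2, e4]
      have e5 : 0 ≤ (D : ℝ) ^ (-(5 / 8 : ℝ)) := Real.rpow_nonneg hDpos.le _
      calc 2 * U * ((D : ℝ) ^ (-(5 / 8 : ℝ)) * (D : ℝ) ^ (-(3 / 8 - κ)))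
          ≤ 2 * U * ((D : ℝ) ^ (-(5 / 8 : ℝ)) * U ^ (-(η / 4))) := by gcongr
        _ = 2 * (U * U ^ (-(η / 4))) * (D : ℝ) ^ (-(5 / 8 : ℝ)) := by ring
    have h6 : (D : ℝ) ^ κ ≤ U ^ (1 - η / 4) * (D : ℝ) ^ (-(1 / 2 + κ)) := by
      have e1 : (D : ℝ) ^ κ = (D : ℝ) ^ (1 / 2 + 2 * κ) * (D : ℝ) ^ (-(1 / 2 + κ)) := by
        rw [← Real.rpow_add hDpos]; congr 1; ring
      rw [e1]
      apply mul_le_mul_of_nonneg_right _ (Real.rpow_nonneg hDpos.le _)
      have f1 : (D : ℝ) ^ (1 / 2 + 2 * κ) ≤ (U ^ (2 - 2 * η)) ^ (1 / 2 + 2 * κ) := by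
        apply Real.rpow_le_rpow hDpos.le hD2; positivity
      refine f1.trans ?_
      rw [← Real.rpow_mul hU0.le]
      apply Real.rpow_le_rpow_of_exponent_le hU1
      rw [hκ]; nlinarith
    have hCω0 : 0 ≤ Cω := by linarith
    calc (Cω * (D : ℝ) ^ κ) * (2 * (U / D + 1))
        = Cω * ((D : ℝ) ^ κ * (2 * (U / D))) + Cω * (2 * (D : ℝ) ^ κ) := by ring
      _ ≤ Cω * (2 * U ^ (1 - η / 4) * (D : ℝ) ^ (-(5 / 8 : ℝ))) +
          Cω * (2 * (U ^ (1 - η / 4) * (D : ℝ) ^ (-(1 / 2 + κ)))) := by gcongr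
      _ = _ := by ring
  have hCω0 : 0 ≤ Cω := by linarith
  have hUp : 0 ≤ U ^ (1 - η / 4) := Real.rpow_nonneg hU0.le _
  calc ∑ q ∈ PP, ((T.filter (fun s => ((q.1 ^ 2 * q.2 ^ 3 : ℕ) : ℤ) ∣ s ^ n - k)).card : ℝ)
      ≤ ∑ q ∈ PP, (Cω * (2 * U ^ (1 - η / 4)) *
          ((q.1 : ℝ) ^ (2 : ℕ) * (q.2 : ℝ) ^ (3 : ℕ)) ^ (-(5 / 8 : ℝ)) +
        Cω * (2 * U ^ (1 - η / 4)) *
          ((q.1 : ℝ) ^ (2 : ℕ) * (q.2 : ℝ) ^ (3 : ℕ)) ^ (-(1 / 2 + κ))) :=
        Finset.sum_le_sum hterm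
    _ = Cω * (2 * U ^ (1 - η / 4)) *
          (∑ q ∈ PP, ((q.1 : ℝ) ^ (2 : ℕ) * (q.2 : ℝ) ^ (3 : ℕ)) ^ (-(5 / 8 : ℝ))) +
        Cω * (2 * U ^ (1 - η / 4)) *
          (∑ q ∈ PP, ((q.1 : ℝ) ^ (2 : ℕ) * (q.2 : ℝ) ^ (3 : ℕ)) ^ (-(1 / 2 + κ))) := by
        rw [Finset.sum_add_distrib, Finset.mul_sum, Finset.mul_sum]
    _ ≤ Cω * (2 * U ^ (1 - η / 4)) * C1 + Cω * (2 * U ^ (1 - η / 4)) * C2 := by
        have g1 := hC1 PP
        have g2 := hC2 PP
        gcongr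
    _ = Cω * (2 * C1 + 2 * C2) * U ^ (1 - η / 4) := by ring

/-- Event Eb in short intervals: a large part of `a` supported on the primes of `n`. -/
theorem short_bad (n : ℕ) (hn : 2 ≤ n) (η1 : ℝ) (hη1 : 0 < η1) :
    ∃ C0 δ : ℝ, 0 < C0 ∧ 0 < δ ∧ δ ≤ 1 ∧ ∀ (k : ℤ) (H : ℕ), 1 ≤ H → ∀ T : Finset ℤ,
      (∀ s ∈ T, ∀ t ∈ T, s - t ≤ (H : ℤ)) →
      (∀ s ∈ T, ∃ a : ℕ, a ≠ 0 ∧ (a : ℤ) ∣ s ^ n - k ∧ (H : ℝ) ^ η1 <
        ((∏ p ∈ a.primeFactors.filter (fun p => p ∣ n), p ^ a.factorization p : ℕ) : ℝ)) →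
      (T.card : ℝ) ≤ C0 * (H : ℝ) ^ (1 - δ) := by
  classical
  have hn0 : n ≠ 0 := by omega
  set q : ℕ := (n + 1) * n + 1 with hq
  have hq1 : (1 : ℝ) ≤ (q : ℝ) := by
    have : 1 ≤ q := by omega
    exact_mod_cast this
  set kk : ℕ := n.primeFactors.card + 1 with hkk
  have hk1 : (1 : ℝ) ≤ (kk : ℝ) := by
    have : 1 ≤ kk := by omega
    exact_mod_cast this
  set η : ℝ := η1 / kk with hη
  have hη0 : 0 < η := by positivity
  set η2 : ℝ := η / q with hη2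
  have hη20 : 0 < η2 := by positivity
  set δ : ℝ := min η2 1 with hδ
  have hδ0 : 0 < δ := lt_min hη20 one_pos
  refine ⟨4 + kk * (n * 3), δ, by positivity, hδ0, min_le_right _ _, ?_⟩
  intro k H hH T hdiam hTw
  have hU1 : (1 : ℝ) ≤ (H : ℝ) := by exact_mod_cast hH
  set U : ℝ := (H : ℝ) with hU
  have hUpos : 0 < U := by linarith
  have hδ1 : δ ≤ 1 := min_le_right _ _
  have hUc1 : 1 ≤ U ^ (1 - δ) := Real.one_le_rpow hU1 (by linarith)
  rcases Nat.lt_or_ge 1 H with hH1 | hH1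
  swap
  · have h1 := card_class T H 1 le_rfl hdiam 0 (fun s _ => by simp)
    have h2 : U ≤ 1 := by rw [hU]; exact_mod_cast hH1
    have h3 : (T.card : ℝ) ≤ 4 := by
      push_cast at h1
      rw [div_one] at h1
      linarith
    have h4 : 4 * 1 ≤ (4 + kk * (n * 3)) * U ^ (1 - δ) := by
      apply mul_le_mul _ hUc1 zero_le_one (by positivity)
      have : 0 ≤ (kk : ℝ) * (n * 3) := by positivity
      linarith
    linarith
  have hU1' : 1 < U := by rw [hU]; exact_mod_cast hH1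
  set t : ℕ := ⌈U ^ η⌉₊ with ht
  have htU : U ^ η ≤ (t : ℝ) := Nat.le_ceil _
  set Dp : ℕ → ℕ := fun p => p ^ Nat.clog p t with hDp
  have hcover : T ⊆ n.primeFactors.biUnion (fun p =>
      T.filter (fun s => ((Dp p : ℕ) : ℤ) ∣ s ^ n - k)) := by
    intro w hw
    obtain ⟨a, ha0, hadvd, hbig⟩ := hTw w hw
    by_contra hcon
    have hsmall : ∀ p ∈ a.primeFactors.filter (fun p => p ∣ n),
        ((p ^ a.factorization p : ℕ) : ℝ) ≤ U ^ η := by
      intro p hp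
      rw [Finset.mem_filter] at hp
      by_contra hlt
      push Not at hlt
      apply hcon
      have hpp := Nat.prime_of_mem_primeFactors hp.1
      rw [Finset.mem_biUnion]
      refine ⟨p, Nat.mem_primeFactors.mpr ⟨hpp, hp.2, hn0⟩, ?_⟩
      rw [Finset.mem_filter]
      refine ⟨hw, ?_⟩
      have h1 : t ≤ p ^ a.factorization p := Nat.ceil_le.mpr hlt.le
      have h2 : Nat.clog p t ≤ a.factorization p := Nat.clog_le_of_le_pow h1
      have h3 : Dp p ∣ a := (pow_dvd_pow p h2).trans (Nat.ordProj_dvd a p)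
      exact (Int.natCast_dvd_natCast.mpr h3).trans hadvd
    have h1 : ((∏ p ∈ a.primeFactors.filter (fun p => p ∣ n),
        p ^ a.factorization p : ℕ) : ℝ) ≤ U ^ η1 := by
      rw [Nat.cast_prod]
      have h2 : ∏ p ∈ a.primeFactors.filter (fun p => p ∣ n), ((p ^ a.factorization p : ℕ) : ℝ) ≤
          ∏ _p ∈ a.primeFactors.filter (fun p => p ∣ n), U ^ η :=
        Finset.prod_le_prod (fun _ _ => Nat.cast_nonneg _) hsmall
      refine h2.trans ?_
      rw [Finset.prod_const]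
      have hUη : 1 ≤ U ^ η := Real.one_le_rpow hU1 hη0.le
      have h3 : (a.primeFactors.filter (fun p => p ∣ n)).card ≤ kk := by
        have h4 : a.primeFactors.filter (fun p => p ∣ n) ⊆ n.primeFactors := by
          intro p hp
          rw [Finset.mem_filter] at hp
          exact Nat.mem_primeFactors.mpr ⟨Nat.prime_of_mem_primeFactors hp.1, hp.2, hn0⟩
        have := Finset.card_le_card h4
        omega
      calc (U ^ η) ^ (a.primeFactors.filter (fun p => p ∣ n)).card ≤ (U ^ η) ^ kk :=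
            pow_le_pow_right₀ hUη h3
        _ = U ^ η1 := by
            rw [← Real.rpow_natCast, ← Real.rpow_mul hUpos.le, hη]
            congr 1
            field_simp
    linarith
  have h1 : (T.card : ℝ) ≤ ∑ p ∈ n.primeFactors,
      ((T.filter (fun s => ((Dp p : ℕ) : ℤ) ∣ s ^ n - k)).card : ℝ) := by
    exact_mod_cast (Finset.card_le_card hcover).trans Finset.card_biUnion_le
  refine h1.trans ?_
  set ℓ : ℕ := ⌊U ^ η2⌋₊ with hℓ
  have hUη2 : 1 ≤ U ^ η2 := Real.one_le_rpow hU1 hη20.le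
  have hℓ1 : 1 ≤ ℓ := Nat.one_le_floor_iff _ |>.mpr hUη2
  have hℓle : (ℓ : ℝ) ≤ U ^ η2 := Nat.floor_le (by positivity)
  have hℓge : U ^ η2 / 2 ≤ (ℓ : ℝ) := by
    have h1 : U ^ η2 < ℓ + 1 := Nat.lt_floor_add_one _
    have h2 : (1 : ℝ) ≤ (ℓ : ℝ) := by exact_mod_cast hℓ1
    linarith
  have hnR : (0 : ℝ) ≤ (n : ℝ) := Nat.cast_nonneg _
  have hterm : ∀ p ∈ n.primeFactors,
      ((T.filter (fun s => ((Dp p : ℕ) : ℤ) ∣ s ^ n - k)).card : ℝ) ≤
        n * 3 * U ^ (1 - δ) := by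
    intro p hp
    have hpp := Nat.prime_of_mem_primeFactors hp
    have hD1 : U ^ η ≤ ((Dp p : ℕ) : ℝ) := by
      have h2 : t ≤ Dp p := Nat.le_pow_clog hpp.one_lt t
      exact htU.trans (by exact_mod_cast h2)
    have h2 := card_le_of_windows (T.filter (fun s => ((Dp p : ℕ) : ℤ) ∣ s ^ n - k)) ℓ hℓ1 n (H : ℝ)
      (Nat.cast_nonneg _)
      (fun s hs t ht => by
        exact_mod_cast hdiam s (Finset.mem_filter.mp hs).1 t (Finset.mem_filter.mp ht).1) (by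
        intro S hS hd
        by_contra hcon
        push Not at hcon
        obtain ⟨S', hS', hcard⟩ := Finset.exists_subset_card_eq (Nat.succ_le_of_lt hcon)
        have h3 := dvd_values_bound (powSub n k) n (powSub_natDegree n k).le S' hcard ℓ
          (fun s hs t ht => hd s (hS' hs) t (hS' ht)) (Dp p) (by
            intro s hs
            rw [powSub_eval]
            exact (Finset.mem_filter.mp (hS (hS' hs))).2)
          (by rw [powSub_coeff n (by omega)]; exact one_ne_zero)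
        rw [powSub_coeff n (by omega)] at h3
        push_cast at h3
        rw [abs_one, one_mul] at h3
        have h4 : (ℓ : ℝ) ^ ((n + 1) * n) < U ^ η := by
          calc (ℓ : ℝ) ^ ((n + 1) * n) ≤ (U ^ η2) ^ ((n + 1) * n) := by gcongr
            _ = U ^ (η2 * ((n + 1) * n : ℕ)) := by
                rw [← Real.rpow_natCast, ← Real.rpow_mul hUpos.le]
            _ < U ^ η := by
                apply Real.rpow_lt_rpow_of_exponent_lt hU1'
                have e1 : η = η2 * q := by rw [hη2]; field_simp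
                rw [e1]
                apply mul_lt_mul_of_pos_left _ hη20
                rw [hq]; push_cast; linarith
        have h5 := h4.trans_le hD1
        linarith)
    refine h2.trans ?_
    have h3 : U ^ (1 - η2) = U / U ^ η2 := by rw [Real.rpow_sub hUpos, Real.rpow_one]
    have h4 : U / ℓ ≤ 2 * U ^ (1 - η2) := by
      have h5 : U / ℓ ≤ U / (U ^ η2 / 2) := by
        have : 0 < U ^ η2 / 2 := by positivity
        gcongr
      refine h5.trans (le_of_eq ?_)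
      rw [h3]
      field_simp
    have h6 : U ^ (1 - η2) ≤ U ^ (1 - δ) := by
      apply Real.rpow_le_rpow_of_exponent_le hU1
      have : δ ≤ η2 := min_le_left _ _
      linarith
    calc (n : ℝ) * ((H : ℝ) / ℓ + 1) ≤ n * (2 * U ^ (1 - δ) + U ^ (1 - δ)) := by
          have e1 := h4.trans (mul_le_mul_of_nonneg_left h6 (by norm_num : (0 : ℝ) ≤ 2))
          gcongr
      _ = n * 3 * U ^ (1 - δ) := by ring
  calc ∑ p ∈ n.primeFactors,
      ((T.filter (fun s => ((Dp p : ℕ) : ℤ) ∣ s ^ n - k)).card : ℝ)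
      ≤ ∑ _p ∈ n.primeFactors, n * 3 * U ^ (1 - δ) := Finset.sum_le_sum hterm
    _ = n.primeFactors.card * (n * 3 * U ^ (1 - δ)) := by rw [Finset.sum_const, nsmul_eq_mul]
    _ ≤ kk * (n * 3 * U ^ (1 - δ)) := by
        have : (n.primeFactors.card : ℝ) ≤ kk := by
          rw [hkk]; push_cast; linarith
        gcongr
    _ ≤ (4 + kk * (n * 3)) * U ^ (1 - δ) := by
        have : 0 ≤ 4 * U ^ (1 - δ) := by positivity
        nlinarith

end Pool.Agent.Lib.MP_d8bd92_nt
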