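import Pool.Agent.Lib.MP_d8bd92_nt.ShortA

set_option autoImplicit false

namespace Pool.Agent.Lib.MP_d8bd92_nt

open Finset Polynomial

/-- `(x + m s)^n - k` as a polynomial in `s` -/
noncomputable def powLine (n : ℕ) (k x m : ℤ) : ℤ[X] := (C x + C m * X) ^ n - C k

theorem powLine_eval (n : ℕ) (k x m s : ℤ) : (powLine n k x m).eval s = (x + m * s) ^ n - k := by
  unfold powLine; simp

theorem powLine_natDegree_le (n : ℕ) (k x m : ℤ) : (powLine n k x m).natDegree ≤ n := by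
  unfold powLine
  refine (natDegree_sub_le _ _).trans (max_le ?_ ?_)
  · refine natDegree_pow_le.trans ?_
    have h1 : (C x + C m * X : ℤ[X]).natDegree ≤ 1 := by
      refine (natDegree_add_le _ _).trans (max_le ?_ ?_)
      · rw [natDegree_C]; exact Nat.zero_le _
      · exact (natDegree_C_mul_le _ _).trans natDegree_X_le
    calc n * (C x + C m * X : ℤ[X]).natDegree ≤ n * 1 := Nat.mul_le_mul_left _ h1
      _ = n := mul_one n
  · rw [natDegree_C]; exact Nat.zero_le _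

/-- `(x + m s)^n - k`, `k ≠ 0`, `n ≥ 1`, is not a constant times an `e`-th power, `e ≥ 2`. -/
theorem powLine_not_pow (n : ℕ) (hn : 1 ≤ n) (k x m : ℤ) (hk : k ≠ 0) (hm : m ≠ 0) (M : ℤ)
    (e : ℕ) (he : 2 ≤ e) :
    ¬ ∃ R : ℚ[X], (powLine n k x m).map (Int.castRingHom ℚ) = C (M : ℚ) * R ^ e := by
  rintro ⟨R, hR⟩
  set P : ℚ[X] := (powLine n k x m).map (Int.castRingHom ℚ) with hP
  have hPeq : P = (C (x : ℚ) + C (m : ℚ) * X) ^ n - C (k : ℚ) := by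
    rw [hP, powLine]
    simp
  have hmQ : (m : ℚ) ≠ 0 := by exact_mod_cast hm
  have hkQ : (k : ℚ) ≠ 0 := by exact_mod_cast hk
  have hnQ : (n : ℚ) ≠ 0 := by
    have : n ≠ 0 := by omega
    exact_mod_cast this
  have hder : derivative P = C ((n : ℚ) * m) * (C (x : ℚ) + C (m : ℚ) * X) ^ (n - 1) := by
    rw [hPeq]
    simp only [derivative_sub, derivative_pow, derivative_add, derivative_C, derivative_mul,
      derivative_X, zero_mul, zero_add, mul_one, sub_zero, C_mul, map_natCast]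
    ring
  have hid : (C (x : ℚ) + C (m : ℚ) * X) * derivative P - C ((n : ℚ) * m) * P =
      C ((n : ℚ) * m * k) := by
    rw [hder, hPeq]
    obtain ⟨j, rfl⟩ : ∃ j, n = j + 1 := ⟨n - 1, by omega⟩
    rw [Nat.add_sub_cancel]
    simp only [C_mul]
    ring
  have hsep : P.Separable := by
    rw [separable_def']
    have hc : ((n : ℚ) * m * k) ≠ 0 := mul_ne_zero (mul_ne_zero hnQ hmQ) hkQ
    refine ⟨C (((n : ℚ) * m * k)⁻¹) * (-C ((n : ℚ) * m)),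
      C (((n : ℚ) * m * k)⁻¹) * (C (x : ℚ) + C (m : ℚ) * X), ?_⟩
    have e1 : C (((n : ℚ) * m * k)⁻¹) * (-C ((n : ℚ) * m)) * P +
        C (((n : ℚ) * m * k)⁻¹) * (C (x : ℚ) + C (m : ℚ) * X) * derivative P =
        C (((n : ℚ) * m * k)⁻¹) * ((C (x : ℚ) + C (m : ℚ) * X) * derivative P -
          C ((n : ℚ) * m) * P) := by ring
    rw [e1, hid, ← C_mul, inv_mul_cancel₀ hc, C_1]
  have hsq : Squarefree P := hsep.squarefree
  have hR2 : R * R ∣ P := by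
    obtain ⟨j, rfl⟩ : ∃ j, e = j + 2 := ⟨e - 2, by omega⟩
    refine ⟨C (M : ℚ) * R ^ j, ?_⟩
    rw [hR]; ring
  have hRu := hsq R hR2
  have hPdeg : P.natDegree = 0 := by
    rw [hR]
    refine Nat.le_zero.mp ((natDegree_C_mul_le _ _).trans ?_)
    refine natDegree_pow_le.trans ?_
    rw [natDegree_eq_zero_of_isUnit hRu, mul_zero]
  have hder0 : derivative P = 0 := Polynomial.derivative_eq_zero.mpr hPdeg
  rw [hder] at hder0
  have h1 : (C ((n : ℚ) * m) : ℚ[X]) ≠ 0 := C_ne_zero.mpr (mul_ne_zero hnQ hmQ)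
  have h2 : (C (x : ℚ) + C (m : ℚ) * X : ℚ[X]) ≠ 0 := by
    intro h
    have h3 : (C (x : ℚ) + C (m : ℚ) * X : ℚ[X]).coeff 1 = (m : ℚ) := by
      rw [coeff_add, coeff_C, if_neg one_ne_zero, coeff_C_mul, coeff_X_one, mul_one, zero_add]
    rw [h, coeff_zero] at h3
    exact hmQ h3.symm
  exact (mul_ne_zero h1 (pow_ne_zero _ h2)) hder0

theorem short_window (n : ℕ) (hn : 2 ≤ n) (e : ℕ) (he : 2 ≤ e) (ε : ℝ) (hε : 0 < ε) (K0 : ℝ)
    (hK0 : 0 ≤ K0) :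
    ∃ (c1 U0 : ℝ) (G : ℕ), 0 < c1 ∧ c1 ≤ 1 ∧ c1 ≤ ε / 16 ∧ 1 ≤ U0 ∧ ∀ (k : ℤ), k ≠ 0 →
      ∀ H : ℕ, U0 ≤ (H : ℝ) → ∀ (x : ℤ) (m1 : ℕ), 1 ≤ m1 → (m1 : ℝ) ≤ (H : ℝ) ^ (1 - ε) →
      ∀ m : ℤ, m ≠ 0 → ∀ (L : ℕ), 1 ≤ L → (L : ℝ) ≤ (H : ℝ) ^ c1 →
      ∀ S : Finset ℤ, (∀ s ∈ S,
        (H : ℝ) ^ (1 - ε / 16) ≤ |((x + m1 * s : ℤ) : ℝ)| ∧
        |((x + m1 * s : ℤ) : ℝ)| ^ (n - 1) * (H : ℝ) ^ (1 - ε / 16) ≤
          |(((x + m1 * s) ^ n - k : ℤ) : ℝ)| ∧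
        ∃ y : ℕ, 1 ≤ y ∧ (y : ℝ) ≤ (H : ℝ) ^ K0 ∧ (x + m1 * s) ^ n - k = m * (y : ℤ) ^ e) →
      (∀ s ∈ S, ∀ t ∈ S, |s - t| ≤ (L : ℤ)) → S.card ≤ G := by
  classical
  set K : ℕ := ⌈8 * (K0 + 2) / ε⌉₊ with hK
  have hKε : K0 + 2 ≤ ((K : ℝ) + 1) * (ε / 8) := by
    have h1 : 8 * (K0 + 2) / ε ≤ K := Nat.le_ceil _
    rw [div_le_iff₀ hε] at h1
    nlinarith
  obtain ⟨CI, z0, hCI, hz0, hpow⟩ := power_values_short n e K he
  set k' : ℕ := n * K + 1 with hk'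
  have hk1 : (1 : ℝ) ≤ (k' : ℝ) := by
    have : 1 ≤ k' := by omega
    exact_mod_cast this
  set c1 : ℝ := min (ε / 16) (1 / ((k' : ℝ) * k')) with hc1
  have hc1pos : 0 < c1 := lt_min (by positivity) (by positivity)
  have hc1k : c1 * (k' * k' : ℕ) ≤ 1 := by
    have h1 : c1 ≤ 1 / ((k' : ℝ) * k') := min_le_right _ _
    rw [le_div_iff₀ (by positivity)] at h1
    push_cast
    exact h1
  have hc1one : c1 ≤ 1 := by
    refine (min_le_right _ _).trans ?_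
    rw [div_le_one (by positivity)]
    nlinarith
  set Λ : ℝ := n * 2 ^ (n - 1) with hΛ
  have hΛ0 : 0 ≤ Λ := by positivity
  set U1 : ℝ := (Λ / z0 + 1) ^ (8 / ε) with hU1def
  set U2 : ℝ := CI * Λ ^ (K + 1) + 1 with hU2def
  set U0 : ℝ := max 1 (max U1 U2) with hU0def
  refine ⟨c1, U0, e * (n * K) + n, hc1pos, hc1one, min_le_left _ _, le_max_left _ _, ?_⟩
  intro k hk H hU x m1 hm1 hm1U m hm L hL hLU S hS hdiam
  set U : ℝ := (H : ℝ) with hUdef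
  have hU1' : 1 ≤ U := (le_max_left _ _).trans hU
  have hUpos : 0 < U := by linarith
  have hm1R : (1 : ℝ) ≤ (m1 : ℝ) := by exact_mod_cast hm1
  set lam : ℝ := Λ * U ^ (-(ε / 8)) with hlam
  have hlam0 : 0 ≤ lam := mul_nonneg hΛ0 (Real.rpow_nonneg hUpos.le _)
  have hlamz : lam ≤ z0 := by
    have h1 : U1 ≤ U := ((le_max_left _ _).trans (le_max_right _ _)).trans hU
    have h2 : Λ / z0 + 1 ≤ U ^ (ε / 8) := by
      have h3 : 0 ≤ Λ / z0 + 1 := by positivity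
      calc Λ / z0 + 1 = ((Λ / z0 + 1) ^ (8 / ε)) ^ (ε / 8) := by
            rw [← Real.rpow_mul h3]
            have : 8 / ε * (ε / 8) = 1 := by field_simp
            rw [this, Real.rpow_one]
        _ ≤ U ^ (ε / 8) := Real.rpow_le_rpow (Real.rpow_nonneg h3 _) h1 (by positivity)
    have h3 : Λ / z0 ≤ U ^ (ε / 8) := by linarith
    rw [div_le_iff₀ hz0] at h3
    rw [hlam, Real.rpow_neg hUpos.le, ← div_eq_mul_inv, div_le_iff₀ (Real.rpow_pos_of_pos hUpos _)]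
    linarith
  have hy : ∀ s : ℤ, ∃ y : ℕ, s ∈ S → (1 ≤ y ∧ (y : ℝ) ≤ U ^ K0 ∧
      (x + m1 * s) ^ n - k = m * (y : ℤ) ^ e) := by
    intro s
    by_cases hs : s ∈ S
    · obtain ⟨_, _, y, hy⟩ := hS s hs
      exact ⟨y, fun _ => hy⟩
    · exact ⟨0, fun h => absurd h hs⟩
  choose y hy using hy
  have heval : ∀ s : ℤ, (powLine n k x m1).eval s = (x + m1 * s) ^ n - k := by
    intro s
    rw [powLine_eval]
  apply hpow (powLine n k x m1) m S y L (U ^ K0) lam (powLine_natDegree_le _ _ _ _) hm hL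
  · intro s hs
    rw [heval]; exact (hy s hs).2.2
  · intro s hs
    exact (hy s hs).1
  · intro s hs
    exact (hy s hs).2.1
  · exact hdiam
  · exact hlam0
  · exact hlamz
  · intro s hs t ht
    rw [heval, heval]
    have hst : |(s : ℝ) - t| ≤ (L : ℝ) := by exact_mod_cast hdiam s hs t ht
    have hL0 : (0 : ℝ) ≤ (L : ℝ) := Nat.cast_nonneg _
    obtain ⟨ht1, ht2, _⟩ := hS t ht
    set a : ℝ := ((x + m1 * s : ℤ) : ℝ) with ha
    set b : ℝ := ((x + m1 * t : ℤ) : ℝ) with hb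
    have hab : |a - b| ≤ m1 * L := by
      have e1 : a - b = m1 * ((s : ℝ) - t) := by
        rw [ha, hb]; push_cast; ring
      rw [e1, abs_mul, abs_of_nonneg (by linarith : (0 : ℝ) ≤ (m1 : ℝ))]
      gcongr
    have hm1L : (m1 : ℝ) * L ≤ U ^ (1 - ε + c1) := by
      calc (m1 : ℝ) * L ≤ U ^ (1 - ε) * U ^ c1 := by gcongr
        _ = U ^ (1 - ε + c1) := by rw [← Real.rpow_add hUpos]
    have hc1ε : c1 ≤ ε / 16 := min_le_left _ _
    have hm1L2 : (m1 : ℝ) * L ≤ |b| := by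
      refine hm1L.trans (le_trans ?_ ht1)
      apply Real.rpow_le_rpow_of_exponent_le hU1'
      linarith
    have ha2 : |a| ≤ 2 * |b| := by
      have h1 : |a| ≤ |a - b| + |b| := by
        calc |a| = |(a - b) + b| := by ring_nf
          _ ≤ |a - b| + |b| := abs_add_le _ _
      linarith
    have h1 : |a ^ n - b ^ n| ≤ (m1 * L) * (n * (2 * |b|) ^ (n - 1)) := by
      refine (abs_pow_sub_pow_le a b n).trans ?_
      rw [mul_assoc]
      have h2 : max |a| |b| ≤ 2 * |b| := max_le ha2 (by linarith [abs_nonneg b])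
      gcongr
    have h2 : (((x + m1 * s) ^ n - k : ℤ) : ℝ) - (((x + m1 * t) ^ n - k : ℤ) : ℝ) = a ^ n - b ^ n := by
      rw [ha, hb]; push_cast; ring
    rw [h2]
    refine h1.trans ?_
    have h3 : (m1 * L) * ((n : ℝ) * (2 * |b|) ^ (n - 1)) = Λ * ((m1 * L) * |b| ^ (n - 1)) := by
      rw [hΛ, mul_pow]; ring
    rw [h3]
    have h4 : (m1 * L : ℝ) ≤ U ^ (-(ε / 8)) * U ^ (1 - ε / 16) := by
      refine hm1L.trans ?_
      rw [← Real.rpow_add hUpos]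
      apply Real.rpow_le_rpow_of_exponent_le hU1'
      linarith
    calc Λ * ((m1 * L) * |b| ^ (n - 1))
        ≤ Λ * ((U ^ (-(ε / 8)) * U ^ (1 - ε / 16)) * |b| ^ (n - 1)) := by gcongr
      _ = lam * (|b| ^ (n - 1) * U ^ (1 - ε / 16)) := by rw [hlam]; ring
      _ ≤ lam * |(((x + m1 * t) ^ n - k : ℤ) : ℝ)| := by gcongr
  · have h1 : U2 ≤ U := ((le_max_right _ _).trans (le_max_right _ _)).trans hU
    have h2 : lam ^ (K + 1) ≤ Λ ^ (K + 1) * U ^ (-(K0 + 2)) := by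
      rw [hlam, mul_pow]
      apply mul_le_mul_of_nonneg_left _ (by positivity)
      rw [← Real.rpow_natCast, ← Real.rpow_mul hUpos.le]
      apply Real.rpow_le_rpow_of_exponent_le hU1'
      push_cast
      linarith
    have h3 : (L : ℝ) ^ (k' * k') ≤ U := by
      calc (L : ℝ) ^ (k' * k') ≤ (U ^ c1) ^ (k' * k') := by gcongr
        _ = U ^ (c1 * (k' * k' : ℕ)) := by
            rw [← Real.rpow_natCast, ← Real.rpow_mul hUpos.le]
        _ ≤ U ^ (1 : ℝ) := Real.rpow_le_rpow_of_exponent_le hU1' hc1k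
        _ = U := Real.rpow_one U
    have h4 : U ^ K0 * U ^ (-(K0 + 2)) * U = U ^ (-(1 : ℝ)) := by
      rw [← Real.rpow_add hUpos]
      nth_rewrite 2 [← Real.rpow_one U]
      rw [← Real.rpow_add hUpos]
      congr 1; ring
    calc CI * (U ^ K0) * lam ^ (K + 1) * (L : ℝ) ^ (k' * k')
        ≤ CI * (U ^ K0) * (Λ ^ (K + 1) * U ^ (-(K0 + 2))) * U := by
          have : 0 ≤ U ^ K0 := Real.rpow_nonneg hUpos.le _
          gcongr
      _ = (CI * Λ ^ (K + 1)) * (U ^ K0 * U ^ (-(K0 + 2)) * U) := by ring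
      _ = (CI * Λ ^ (K + 1)) / U := by
          rw [h4, Real.rpow_neg hUpos.le, Real.rpow_one, div_eq_mul_inv]
      _ < 1 := by
          rw [div_lt_one hUpos]
          linarith
  · exact powLine_not_pow n (by omega) k x m1 hk (by exact_mod_cast (show m1 ≠ 0 by omega)) m e he

/-- Event E2 in short intervals. -/
theorem short_powers (n : ℕ) (hn : 2 ≤ n) (q0 : ℕ) (hq0 : 1 ≤ q0) (e : ℕ) (he : 2 ≤ e) (ε : ℝ)
    (hε : 0 < ε) (K0 : ℝ) (hK0 : 0 ≤ K0) :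
    ∃ C0 c : ℝ, 0 < C0 ∧ 0 < c ∧ c ≤ 1 ∧ c ≤ ε / 64 ∧ ∀ (k : ℤ), k ≠ 0 → ∀ H : ℕ, 1 ≤ H →
      ∀ T : Finset ℤ, (∀ s ∈ T, ∀ t ∈ T, s - t ≤ (H : ℤ)) →
      (∀ s ∈ T, (H : ℝ) ^ (1 - ε / 16) ≤ |(s : ℝ)| ∧
        |(s : ℝ)| ^ (n - 1) * (H : ℝ) ^ (1 - ε / 16) ≤ |((s ^ n - k : ℤ) : ℝ)| ∧
        ∃ m0 m1 y : ℕ, 1 ≤ m0 ∧ (m0 : ℝ) ≤ (H : ℝ) ^ c ∧ 1 ≤ m1 ∧
          (m1 : ℝ) ≤ (H : ℝ) ^ (1 - ε) ∧ IsCoprime (m1 : ℤ) ((n : ℤ) * k) ∧ 1 ≤ y ∧
          (y : ℝ) ≤ (H : ℝ) ^ K0 ∧ (s ^ n - k).natAbs = q0 * (m0 * m1 * y ^ e)) →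
      (T.card : ℝ) ≤ C0 * (H : ℝ) ^ (1 - c) := by
  classical
  obtain ⟨c1, U0, G, hc1, hc1one, hc1ε, hU0, hwin⟩ := short_window n hn e he ε hε K0 hK0
  set κ : ℝ := c1 / 8 with hκ
  have hκ0 : 0 < κ := by positivity
  obtain ⟨Cω, hCω1, hCω⟩ := exists_pow_card_primeFactors_le n κ hκ0
  obtain ⟨C1, hC10, hC1⟩ := exists_sum_rpow_sub_le κ hκ0
  set c : ℝ := c1 / 4 with hc
  refine ⟨4 * U0 + 2 * G * Cω + 4 * G * Cω * C1, c, by positivity, by positivity, by linarith,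
    by linarith, ?_⟩
  intro k hk H hH T hdiam hTw
  have hU1 : (1 : ℝ) ≤ (H : ℝ) := by exact_mod_cast hH
  set U : ℝ := (H : ℝ) with hUdef
  have hUpos : 0 < U := by linarith
  have hUc1 : 1 ≤ U ^ (1 - c) := Real.one_le_rpow hU1 (by linarith)
  have hCω0 : 0 ≤ Cω := by linarith
  have hG0 : (0 : ℝ) ≤ (G : ℝ) := Nat.cast_nonneg _
  rcases lt_or_ge U U0 with hUU | hUU
  · have h1 := card_class T H 1 le_rfl hdiam 0 (fun s _ => by simp)
    have h2 : (T.card : ℝ) ≤ 4 * U := by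
      push_cast at h1
      rw [div_one] at h1
      linarith
    have h3 : 4 * U0 * 1 ≤ (4 * U0 + 2 * G * Cω + 4 * G * Cω * C1) * U ^ (1 - c) := by
      apply mul_le_mul _ hUc1 zero_le_one (by positivity)
      have : 0 ≤ 2 * G * Cω + 4 * G * Cω * C1 := by positivity
      linarith
    linarith
  set N0 : ℕ := ⌊U ^ c⌋₊ with hN0
  set N1 : ℕ := ⌊U ^ (1 - ε)⌋₊ with hN1
  set L : ℕ := ⌊U ^ c1⌋₊ with hL
  have hUc : 1 ≤ U ^ c1 := Real.one_le_rpow hU1 hc1.le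
  have hL1 : 1 ≤ L := by
    rw [hL]; exact Nat.one_le_floor_iff _ |>.mpr hUc
  have hLle : (L : ℝ) ≤ U ^ c1 := Nat.floor_le (by positivity)
  have hLge : U ^ c1 / 2 ≤ (L : ℝ) := by
    have h1 : U ^ c1 < L + 1 := Nat.lt_floor_add_one _
    have h2 : (1 : ℝ) ≤ (L : ℝ) := by exact_mod_cast hL1
    linarith
  have hLR : (0 : ℝ) < (L : ℝ) := by exact_mod_cast hL1
  -- fixed m, m1
  have hfix : ∀ (m : ℤ) (m1 : ℕ), m ≠ 0 → 1 ≤ m1 → (m1 : ℤ) ∣ m → (m1 : ℝ) ≤ U ^ (1 - ε) →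
      IsCoprime (m1 : ℤ) ((n : ℤ) * k) → ∀ T' : Finset ℤ, T' ⊆ T →
      (∀ s ∈ T', ∃ y : ℕ, 1 ≤ y ∧ (y : ℝ) ≤ U ^ K0 ∧ s ^ n - k = m * (y : ℤ) ^ e) →
      (T'.card : ℝ) ≤ Cω * (m1 : ℝ) ^ κ * (G * (2 * U ^ (1 - c1) / m1 + 1)) := by
    intro m m1 hm hm1 hm1m hm1U hcop T' hT' hy
    have hm1R : (0 : ℝ) < (m1 : ℝ) := by exact_mod_cast hm1
    have hm1Z : (0 : ℤ) < (m1 : ℤ) := by exact_mod_cast hm1
    have hMnn : 0 ≤ (G : ℝ) * (2 * U ^ (1 - c1) / m1 + 1) := by positivity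
    have h1 := card_dvd_powSub n (by omega) k T' m1 hm1 hcop
      (fun s hs => by
        obtain ⟨y, _, _, hy2⟩ := hy s hs
        rw [hy2]
        exact hm1m.mul_right _)
      (G * (2 * U ^ (1 - c1) / m1 + 1)) hMnn (by
        intro x T'' hT'' hcl
        -- parametrise the class
        set S : Finset ℤ := T''.image (fun s => (s - x) / (m1 : ℤ)) with hS
        have hrec : ∀ s ∈ T'', x + m1 * ((s - x) / (m1 : ℤ)) = s := by
          intro s hs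
          rw [Int.mul_ediv_cancel' (hcl s hs)]; ring
        have hcard : T''.card = S.card := by
          rw [hS, Finset.card_image_of_injOn]
          intro s hs t ht hst
          have e1 := hrec s hs
          have e2 := hrec t ht
          simp only at hst
          rw [← e1, ← e2, hst]
        have hmem : ∀ u ∈ S, x + m1 * u ∈ T'' := by
          intro u hu
          rw [hS, Finset.mem_image] at hu
          obtain ⟨s, hs, rfl⟩ := hu
          rw [hrec s hs]; exact hs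
        rw [hcard]
        have h2 := card_le_of_windows S L hL1 G (U / m1) (by positivity) (by
          intro u hu v hv
          have h3 := hdiam _ (hT' (hT'' (hmem u hu))) _ (hT' (hT'' (hmem v hv)))
          have h4 : (x + m1 * u) - (x + m1 * v) = m1 * (u - v) := by ring
          rw [h4] at h3
          rw [le_div_iff₀ hm1R]
          have h5 : (((m1 : ℤ) * (u - v) : ℤ) : ℝ) ≤ ((H : ℤ) : ℝ) := by exact_mod_cast h3
          push_cast at h5 ⊢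
          linarith) (by
          intro S' hS' hd
          apply hwin k hk H hUU x m1 hm1 hm1U m hm L hL1 hLle S' _ hd
          intro u hu
          have h3 := hmem u (hS' hu)
          have h4 := hTw _ (hT' (hT'' h3))
          refine ⟨h4.1, h4.2.1, ?_⟩
          exact hy _ (hT'' h3))
        refine h2.trans ?_
        have h5 : U / m1 / L ≤ 2 * U ^ (1 - c1) / m1 := by
          have h6 : U ^ (1 - c1) = U / U ^ c1 := by rw [Real.rpow_sub hUpos, Real.rpow_one]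
          have h7 : 0 < U ^ c1 := by linarith
          have h8 : U / m1 / L ≤ U / m1 / (U ^ c1 / 2) := by gcongr
          refine h8.trans (le_of_eq ?_)
          rw [h6]
          field_simp
        gcongr)
    refine h1.trans ?_
    exact mul_le_mul_of_nonneg_right (hCω m1 (by omega)) hMnn
  set PP : Finset (ℤ × (ℕ × ℕ)) := ((({1, -1} : Finset ℤ) ×ˢ
    ((Finset.Icc 1 N0) ×ˢ (Finset.Icc 1 N1)))).filter
      (fun q => IsCoprime (q.2.2 : ℤ) ((n : ℤ) * k)) with hPP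
  have hcover : T ⊆ PP.biUnion (fun q => T.filter (fun s =>
      ∃ y : ℕ, 1 ≤ y ∧ (y : ℝ) ≤ U ^ K0 ∧
        s ^ n - k = (q.1 * (q0 * (q.2.1 * q.2.2))) * (y : ℤ) ^ e)) := by
    intro w hw
    obtain ⟨_, _, m0, m1, y, h1, h2, h3, h4, h5, h6, h6', h7⟩ := hTw w hw
    have h8 : ∃ σ ∈ ({1, -1} : Finset ℤ), w ^ n - k = σ * ((w ^ n - k).natAbs : ℤ) := by
      rcases Int.natAbs_eq (w ^ n - k) with h | h
      · exact ⟨1, by simp, by rw [one_mul]; exact h⟩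
      · exact ⟨-1, by simp, by rw [neg_one_mul]; exact h⟩
    obtain ⟨σ, hσ, hσe⟩ := h8
    rw [Finset.mem_biUnion]
    refine ⟨(σ, (m0, m1)), ?_, ?_⟩
    · rw [hPP, Finset.mem_filter, Finset.mem_product, Finset.mem_product, Finset.mem_Icc,
        Finset.mem_Icc]
      exact ⟨⟨hσ, ⟨h1, Nat.le_floor h2⟩, ⟨h3, Nat.le_floor h4⟩⟩, h5⟩
    · rw [Finset.mem_filter]
      refine ⟨hw, y, h6, h6', ?_⟩
      rw [hσe, h7]; push_cast; ring
  have h1 : (T.card : ℝ) ≤ ∑ q ∈ PP, ((T.filter (fun s =>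
      ∃ y : ℕ, 1 ≤ y ∧ (y : ℝ) ≤ U ^ K0 ∧
        s ^ n - k = (q.1 * (q0 * (q.2.1 * q.2.2))) * (y : ℤ) ^ e)).card : ℝ) := by
    exact_mod_cast (Finset.card_le_card hcover).trans Finset.card_biUnion_le
  refine h1.trans ?_
  have hUκ0 : 0 ≤ U ^ (1 - c1) := Real.rpow_nonneg hUpos.le _
  have hterm : ∀ q ∈ PP, ((T.filter (fun s =>
      ∃ y : ℕ, 1 ≤ y ∧ (y : ℝ) ≤ U ^ K0 ∧
        s ^ n - k = (q.1 * (q0 * (q.2.1 * q.2.2))) * (y : ℤ) ^ e)).card : ℝ) ≤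
      G * Cω * U ^ κ + 2 * G * Cω * U ^ (1 - c1) * (q.2.2 : ℝ) ^ (κ - 1) := by
    intro q hq
    rw [hPP, Finset.mem_filter, Finset.mem_product, Finset.mem_product, Finset.mem_Icc,
      Finset.mem_Icc] at hq
    obtain ⟨⟨hσ, ⟨h1, h2⟩, ⟨h3, h4⟩⟩, h5⟩ := hq
    have hσ0 : q.1 ≠ 0 := by
      rw [Finset.mem_insert, Finset.mem_singleton] at hσ
      rcases hσ with h | h <;> rw [h] <;> norm_num
    have hm0 : (q.2.1 : ℤ) ≠ 0 := by exact_mod_cast (show q.2.1 ≠ 0 by omega)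
    have hm1 : (q.2.2 : ℤ) ≠ 0 := by exact_mod_cast (show q.2.2 ≠ 0 by omega)
    have hq0Z : (q0 : ℤ) ≠ 0 := by exact_mod_cast (show q0 ≠ 0 by omega)
    have hm1U : (q.2.2 : ℝ) ≤ U ^ (1 - ε) := (Nat.le_floor_iff (by positivity)).mp h4
    have h6 := hfix (q.1 * (q0 * (q.2.1 * q.2.2))) q.2.2
      (mul_ne_zero hσ0 (mul_ne_zero hq0Z (mul_ne_zero hm0 hm1))) h3
      (((dvd_mul_left _ _).mul_left _).mul_left _) hm1U h5 _ (Finset.filter_subset _ _)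
      (fun w hw => (Finset.mem_filter.mp hw).2)
    refine h6.trans ?_
    have hm1R : (0 : ℝ) < (q.2.2 : ℝ) := by exact_mod_cast h3
    have h7 : (q.2.2 : ℝ) ^ κ ≤ U ^ κ := by
      have h8 : (q.2.2 : ℝ) ≤ U := by
        refine hm1U.trans ?_
        calc U ^ (1 - ε) ≤ U ^ (1 : ℝ) := Real.rpow_le_rpow_of_exponent_le hU1 (by linarith)
          _ = U := Real.rpow_one U
      gcongr
    have h8 : (q.2.2 : ℝ) ^ (κ - 1) = (q.2.2 : ℝ) ^ κ / q.2.2 := by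
      rw [Real.rpow_sub hm1R, Real.rpow_one]
    rw [h8]
    calc Cω * (q.2.2 : ℝ) ^ κ * (G * (2 * U ^ (1 - c1) / q.2.2 + 1))
        = G * Cω * (q.2.2 : ℝ) ^ κ + 2 * G * Cω * U ^ (1 - c1) * ((q.2.2 : ℝ) ^ κ / q.2.2) := by
          ring
      _ ≤ G * Cω * U ^ κ + 2 * G * Cω * U ^ (1 - c1) * ((q.2.2 : ℝ) ^ κ / q.2.2) := by gcongr
  have hN0U : (N0 : ℝ) ≤ U ^ c := Nat.floor_le (by positivity)
  have hN1U : (N1 : ℝ) ≤ U ^ (1 - ε) := Nat.floor_le (by positivity)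
  have hN1U' : (N1 : ℝ) ≤ U := by
    refine hN1U.trans ?_
    calc U ^ (1 - ε) ≤ U ^ (1 : ℝ) := Real.rpow_le_rpow_of_exponent_le hU1 (by linarith)
      _ = U := Real.rpow_one U
  calc ∑ q ∈ PP, ((T.filter (fun s =>
      ∃ y : ℕ, 1 ≤ y ∧ (y : ℝ) ≤ U ^ K0 ∧
        s ^ n - k = (q.1 * (q0 * (q.2.1 * q.2.2))) * (y : ℤ) ^ e)).card : ℝ)
      ≤ ∑ q ∈ PP, (G * Cω * U ^ κ + 2 * G * Cω * U ^ (1 - c1) * (q.2.2 : ℝ) ^ (κ - 1)) :=
        Finset.sum_le_sum hterm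
    _ ≤ ∑ q ∈ ({1, -1} : Finset ℤ) ×ˢ ((Finset.Icc 1 N0) ×ˢ (Finset.Icc 1 N1)),
        (G * Cω * U ^ κ + 2 * G * Cω * U ^ (1 - c1) * (q.2.2 : ℝ) ^ (κ - 1)) := by
        apply Finset.sum_le_sum_of_subset_of_nonneg (Finset.filter_subset _ _)
        intro q _ _
        positivity
    _ = 2 * (N0 * (N1 * (G * Cω * U ^ κ) + 2 * G * Cω * U ^ (1 - c1) *
          ∑ m ∈ Finset.Icc 1 N1, (m : ℝ) ^ (κ - 1))) := by
        simp only [Finset.sum_product, Finset.sum_const, Finset.sum_add_distrib, Nat.card_Icc,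
          Finset.card_product,
          Nat.add_sub_cancel, nsmul_eq_mul, ← Finset.mul_sum]
        rw [Finset.card_pair (by norm_num)]
        push_cast
        ring
    _ ≤ 2 * (U ^ c * (U ^ (1 - ε) * (G * Cω * U ^ κ) + 2 * G * Cω * U ^ (1 - c1) *
          (C1 * U ^ (2 * κ)))) := by
        have h9 := hC1 N1 U hN1U'
        gcongr
    _ = 2 * G * Cω * (U ^ c * (U ^ (1 - ε) * U ^ κ)) +
        4 * G * Cω * C1 * (U ^ c * (U ^ (1 - c1) * U ^ (2 * κ))) := by ring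
    _ ≤ 2 * G * Cω * U ^ (1 - c) + 4 * G * Cω * C1 * U ^ (1 - c) := by
        have g1 : U ^ c * (U ^ (1 - ε) * U ^ κ) ≤ U ^ (1 - c) := by
          rw [← Real.rpow_add hUpos, ← Real.rpow_add hUpos]
          apply Real.rpow_le_rpow_of_exponent_le hU1
          rw [hκ, hc]; linarith
        have g2 : U ^ c * (U ^ (1 - c1) * U ^ (2 * κ)) ≤ U ^ (1 - c) := by
          rw [← Real.rpow_add hUpos, ← Real.rpow_add hUpos]
          apply Real.rpow_le_rpow_of_exponent_le hU1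
          rw [hκ, hc]; linarith
        gcongr
    _ ≤ (4 * U0 + 2 * G * Cω + 4 * G * Cω * C1) * U ^ (1 - c) := by
        have : 0 ≤ 4 * U0 * U ^ (1 - c) := by positivity
        nlinarith

end Pool.Agent.Lib.MP_d8bd92_nt
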