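import Pool.Agent.Lib.MP_d8bd92_nt.FamDecomp
import Pool.Agent.Lib.MP_d8bd92_nt.ShortB

set_option autoImplicit false

namespace Pool.Agent.Lib.MP_d8bd92_nt

open Finset Polynomial

theorem near_root (n : ℕ) (hn : 1 ≤ n) (k : ℤ) (κ : ℝ) (hκ : 0 ≤ κ) (hκn : κ ^ n = |(k : ℝ)|) (s : ℤ)
    (hs : 0 < |(s : ℝ)|) (Y : ℝ)
    (h : |((s ^ n - k : ℤ) : ℝ)| < |(s : ℝ)| ^ (n - 1) * Y) : |(|(s : ℝ)| - κ)| < Y := by
  set u : ℝ := |(s : ℝ)| with hu
  obtain ⟨j, rfl⟩ : ∃ j, n = j + 1 := ⟨n - 1, by omega⟩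
  rw [Nat.add_sub_cancel] at h
  have h1 : |u ^ (j + 1) - κ ^ (j + 1)| ≤ |((s ^ (j + 1) - k : ℤ) : ℝ)| := by
    have h2 := abs_abs_sub_abs_le ((s : ℝ) ^ (j + 1)) (k : ℝ)
    rw [abs_pow, ← hκn] at h2
    push_cast
    exact h2
  have h2 : |u - κ| * u ^ j ≤ |u ^ (j + 1) - κ ^ (j + 1)| := by
    rcases le_total κ u with hle | hle
    · rw [abs_of_nonneg (sub_nonneg.mpr hle),
        abs_of_nonneg (sub_nonneg.mpr (pow_le_pow_left₀ hκ hle _))]
      have h3 : κ ^ j ≤ u ^ j := pow_le_pow_left₀ hκ hle _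
      rw [pow_succ, pow_succ]
      nlinarith
    · rw [abs_of_nonpos (sub_nonpos.mpr hle),
        abs_of_nonpos (sub_nonpos.mpr (pow_le_pow_left₀ hs.le hle _))]
      have h3 : u ^ j ≤ κ ^ j := pow_le_pow_left₀ hs.le hle _
      rw [pow_succ, pow_succ]
      nlinarith
  have h3 : |u - κ| * u ^ j < Y * u ^ j := by
    calc |u - κ| * u ^ j ≤ |((s ^ (j + 1) - k : ℤ) : ℝ)| := h2.trans h1
      _ < u ^ j * Y := h
      _ = Y * u ^ j := mul_comm _ _
  exact lt_of_mul_lt_mul_right h3 (by positivity)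

/-- The radical is large for almost all members of a short interval, uniformly in `k`. -/
theorem short_radical (n : ℕ) (hn : 2 ≤ n) (q0 : ℕ) (hq0 : 1 ≤ q0) (ε : ℝ) (hε : 0 < ε) (K0 : ℝ)
    (hK0 : 0 ≤ K0) :
    ∃ C0 δ : ℝ, 0 < C0 ∧ 0 < δ ∧ δ ≤ 1 ∧ ∀ k : ℤ, k ≠ 0 → ∀ H : ℕ, 1 ≤ H →
      ∀ T : Finset ℤ, (∀ s ∈ T, ∀ t ∈ T, s - t ≤ (H : ℤ)) →
      (∀ s ∈ T, ∃ a : ℕ, a ≠ 0 ∧ Nat.Coprime a k.natAbs ∧ (s ^ n - k).natAbs = q0 * a ∧
        (a : ℝ) ≤ (H : ℝ) ^ K0 ∧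
        ((∏ p ∈ a.primeFactors, p : ℕ) : ℝ) < min ((a : ℝ) ^ (1 - ε)) ((H : ℝ) ^ (2 - ε))) →
      (T.card : ℝ) ≤ C0 * (H : ℝ) ^ (1 - δ) := by
  classical
  have hn1 : 1 ≤ n := by omega
  have hn0 : n ≠ 0 := by omega
  set ε0 : ℝ := min ε 1 with hε0
  have hε0pos : 0 < ε0 := lt_min hε one_pos
  have hε0one : ε0 ≤ 1 := min_le_right _ _
  have hε0ε : ε0 ≤ ε := min_le_left _ _
  set η : ℝ := ε0 / 16 with hη
  have hη0 : 0 < η := by positivity
  set ε2 : ℝ := ε0 / 4 with hε2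
  have hε20 : 0 < ε2 := by positivity
  set θ : ℝ := ε2 / 16 with hθ
  have hθ0 : 0 < θ := by positivity
  obtain ⟨C1, hC1, hE1⟩ := short_squareful n hn1 η hη0 (by linarith)
  have hE2 : ∀ e : ℕ, ∃ C0 c : ℝ, 0 < C0 ∧ 0 < c ∧ c ≤ 1 ∧ (2 ≤ e → ∀ k : ℤ, k ≠ 0 → ∀ H : ℕ, 1 ≤ H →
      ∀ T : Finset ℤ, (∀ s ∈ T, ∀ t ∈ T, s - t ≤ (H : ℤ)) →
      (∀ s ∈ T, (H : ℝ) ^ (1 - ε2 / 16) ≤ |(s : ℝ)| ∧
        |(s : ℝ)| ^ (n - 1) * (H : ℝ) ^ (1 - ε2 / 16) ≤ |((s ^ n - k : ℤ) : ℝ)| ∧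
        ∃ m0 m1 y : ℕ, 1 ≤ m0 ∧ (m0 : ℝ) ≤ (H : ℝ) ^ c ∧ 1 ≤ m1 ∧
          (m1 : ℝ) ≤ (H : ℝ) ^ (1 - ε2) ∧ IsCoprime (m1 : ℤ) ((n : ℤ) * k) ∧ 1 ≤ y ∧
          (y : ℝ) ≤ (H : ℝ) ^ K0 ∧ (s ^ n - k).natAbs = q0 * (m0 * m1 * y ^ e)) →
      (T.card : ℝ) ≤ C0 * (H : ℝ) ^ (1 - c)) := by
    intro e
    by_cases he : 2 ≤ e
    · obtain ⟨C0, c, h1, h2, h3, _, h5⟩ := short_powers n hn q0 hq0 e he ε2 hε20 K0 hK0
      exact ⟨C0, c, h1, h2, h3, fun _ => h5⟩
    · exact ⟨1, 1, one_pos, one_pos, le_rfl, fun h => absurd h he⟩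
  choose CE cE hCE hcE hcE1 hE2 using hE2
  set EE : Finset ℕ := Finset.Icc 2 (⌈2 * K0⌉₊ + 2) with hEE
  have hEEne : EE.Nonempty := ⟨2, by rw [hEE, Finset.mem_Icc]; omega⟩
  set c' : ℝ := EE.inf' hEEne cE with hc'
  have hc'0 : 0 < c' := by
    rw [hc', Finset.lt_inf'_iff]
    intro e _; exact hcE e
  have hc'le : ∀ e ∈ EE, c' ≤ cE e := fun e he => Finset.inf'_le _ he
  set η1 : ℝ := min c' (ε0 / 16) with hη1
  have hη10 : 0 < η1 := lt_min hc'0 (by positivity)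
  obtain ⟨Cb, δb, hCb, hδb, hδb1, hEb⟩ := short_bad n hn η1 hη10
  set δ : ℝ := min (min θ (η / 4)) (min δb c') with hδ
  have hδpos : 0 < δ := lt_min (lt_min hθ0 (by positivity)) (lt_min hδb hc'0)
  have hδθ : δ ≤ θ := (min_le_left _ _).trans (min_le_left _ _)
  have hδη : δ ≤ η / 4 := (min_le_left _ _).trans (min_le_right _ _)
  have hδδb : δ ≤ δb := (min_le_right _ _).trans (min_le_left _ _)
  have hδc' : δ ≤ c' := (min_le_right _ _).trans (min_le_right _ _)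
  set U0 : ℝ := (q0 : ℝ) ^ 2 + 2 with hU0
  set CEs : ℝ := ∑ e ∈ EE, CE e with hCEs
  have hCEs0 : 0 ≤ CEs := Finset.sum_nonneg (fun e _ => (hCE e).le)
  refine ⟨4 * U0 + (9 + (C1 + (Cb + CEs))), δ, by positivity, hδpos, hδδb.trans hδb1, ?_⟩
  intro k hk H hH T hdiam hTw
  have hU1 : (1 : ℝ) ≤ (H : ℝ) := by exact_mod_cast hH
  set U : ℝ := (H : ℝ) with hUdef
  have hUpos : 0 < U := by linarith
  have hUδ1 : 1 ≤ U ^ (1 - δ) := Real.one_le_rpow hU1 (by linarith)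
  have hUδ0 : 0 ≤ U ^ (1 - δ) := by linarith
  rcases lt_or_ge U U0 with hUU | hUU
  · have h1 := card_class T H 1 le_rfl hdiam 0 (fun s _ => by simp)
    have h2 : (T.card : ℝ) ≤ 4 * U := by
      push_cast at h1
      rw [div_one] at h1
      linarith
    have h3 : 4 * U0 * 1 ≤ (4 * U0 + (9 + (C1 + (Cb + CEs)))) * U ^ (1 - δ) := by
      apply mul_le_mul _ hUδ1 zero_le_one (by positivity)
      have : 0 ≤ 9 + (C1 + (Cb + CEs)) := by positivity
      linarith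
    linarith
  have hq0R : (1 : ℝ) ≤ (q0 : ℝ) := by exact_mod_cast hq0
  have hU2 : 2 ≤ U := by nlinarith
  have hU1' : 1 < U := by linarith
  set Y : ℝ := U ^ (1 - θ) with hY
  have hY1 : 1 ≤ Y := Real.one_le_rpow hU1 (by linarith)
  have hYδ : Y ≤ U ^ (1 - δ) := Real.rpow_le_rpow_of_exponent_le hU1 (by linarith)
  -- choice of a
  have ha : ∀ s : ℤ, ∃ a : ℕ, s ∈ T → (a ≠ 0 ∧ Nat.Coprime a k.natAbs ∧
        (s ^ n - k).natAbs = q0 * a ∧ (a : ℝ) ≤ U ^ K0 ∧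
        ((∏ p ∈ a.primeFactors, p : ℕ) : ℝ) < min ((a : ℝ) ^ (1 - ε)) (U ^ (2 - ε))) := by
    intro s
    by_cases hs : s ∈ T
    · obtain ⟨a, ha⟩ := hTw s hs
      exact ⟨a, fun _ => ha⟩
    · exact ⟨0, fun h => absurd h hs⟩
  choose a ha using ha
  have hadvd : ∀ s ∈ T, ((a s : ℕ) : ℤ) ∣ s ^ n - k := by
    intro s hs
    have h1 : a s ∣ (s ^ n - k).natAbs := by
      rw [(ha s hs).2.2.1]; exact dvd_mul_left _ _
    exact Int.natCast_dvd.mpr h1
  set T0 := T.filter (fun s : ℤ => |(s : ℝ)| < Y ∨ |((s ^ n - k : ℤ) : ℝ)| < |(s : ℝ)| ^ (n - 1) * Y)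
    with hT0
  set T1 := T.filter (fun s : ℤ => ∃ D : ℕ, Squareful D ∧ Nat.Coprime D n ∧
        U ^ η ≤ (D : ℝ) ∧ (D : ℝ) ≤ U ^ (2 - 2 * η) ∧ D ∣ a s) with hT1
  set Tb := T.filter (fun s : ℤ => U ^ η1 < ((∏ p ∈ (a s).primeFactors.filter
    (fun p => p ∣ n), p ^ (a s).factorization p : ℕ) : ℝ)) with hTb
  set T2 : ℕ → Finset ℤ := fun e => T.filter (fun s : ℤ =>
    U ^ (1 - ε2 / 16) ≤ |(s : ℝ)| ∧
        |(s : ℝ)| ^ (n - 1) * U ^ (1 - ε2 / 16) ≤ |((s ^ n - k : ℤ) : ℝ)| ∧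
        ∃ m0 m1 y : ℕ, 1 ≤ m0 ∧ (m0 : ℝ) ≤ U ^ c' ∧ 1 ≤ m1 ∧
          (m1 : ℝ) ≤ U ^ (1 - ε2) ∧ IsCoprime (m1 : ℤ) ((n : ℤ) * k) ∧ 1 ≤ y ∧
          (y : ℝ) ≤ U ^ K0 ∧ (s ^ n - k).natAbs = q0 * (m0 * m1 * y ^ e)) with hT2
  have hcover : T ⊆ T0 ∪ (T1 ∪ (Tb ∪ EE.biUnion T2)) := by
    intro s hs
    obtain ⟨ha0, hcopa, hfaca, haU, hrad⟩ := ha s hs
    rw [Finset.mem_union, Finset.mem_union, Finset.mem_union, Finset.mem_biUnion]
    by_cases h0 : |(s : ℝ)| < Y ∨ |((s ^ n - k : ℤ) : ℝ)| < |(s : ℝ)| ^ (n - 1) * Y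
    · left; rw [hT0, Finset.mem_filter]; exact ⟨hs, h0⟩
    push Not at h0
    obtain ⟨h01, h02⟩ := h0
    right
    by_cases h1 : ∃ D : ℕ, Squareful D ∧ Nat.Coprime D n ∧
        U ^ η ≤ (D : ℝ) ∧ (D : ℝ) ≤ U ^ (2 - 2 * η) ∧ D ∣ a s
    · left; rw [hT1, Finset.mem_filter]; exact ⟨hs, h1⟩
    right
    by_cases hb : U ^ η1 < ((∏ p ∈ (a s).primeFactors.filter
      (fun p => p ∣ n), p ^ (a s).factorization p : ℕ) : ℝ)
    · left; rw [hTb, Finset.mem_filter]; exact ⟨hs, hb⟩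
    right
    push Not at hb
    set N : ℝ := ((∏ p ∈ (a s).primeFactors, p : ℕ) : ℝ) with hN
    have hrad1 : N < (a s : ℝ) ^ (1 - ε) := lt_of_lt_of_le hrad (min_le_left _ _)
    have hrad2 : N < U ^ (2 - ε) := lt_of_lt_of_le hrad (min_le_right _ _)
    have haR : (0 : ℝ) < (a s : ℝ) := by exact_mod_cast Nat.pos_of_ne_zero ha0
    have hdec := decomp (n := a s) (M0 := n) ha0 (y := U ^ (1 - η)) (Y1 := U ^ η)
      (Y2 := U ^ (2 - 2 * η)) (Yb := U ^ η1)
      (Real.one_lt_rpow hU1' hη0) (Real.one_le_rpow hU1 hη10.le) (Real.rpow_nonneg hUpos.le _)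
      (by
        rw [← Real.rpow_natCast, ← Real.rpow_mul hUpos.le]
        apply Real.rpow_le_rpow_of_exponent_le hU1
        push_cast; linarith)
      (by
        rw [← Real.rpow_natCast, ← Real.rpow_mul hUpos.le]
        apply Real.rpow_le_rpow_of_exponent_le hU1
        push_cast; linarith)
      (by
        intro D hDn hDs hDc hD1
        by_contra hcon
        push Not at hcon
        exact h1 ⟨D, hDs, hDc, hD1, hcon, hDn⟩)
      hb
    rcases hdec with hi | hii | ⟨p, e, m0, m1, hp, hpy, he, hfac, hm0, hm1, hm0U, hm1c, hm1p⟩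
    · exfalso
      have h2 : U ^ (2 - ε) ≤ (U ^ (1 - η)) ^ 2 := by
        rw [← Real.rpow_natCast, ← Real.rpow_mul hUpos.le]
        apply Real.rpow_le_rpow_of_exponent_le hU1
        push_cast; linarith
      linarith
    · exfalso
      -- a ≥ U
      have h2 : U ≤ (a s : ℝ) := by
        have e1 : (q0 : ℝ) * (a s : ℝ) = |((s ^ n - k : ℤ) : ℝ)| := by
          have e2 : (((s ^ n - k).natAbs : ℕ) : ℝ) = |((s ^ n - k : ℤ) : ℝ)| := by
            rw [Nat.cast_natAbs]; push_cast; rfl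
          rw [← e2, hfaca]; push_cast; ring
        have e3 : Y * Y ≤ (q0 : ℝ) * (a s : ℝ) := by
          rw [e1]
          refine le_trans ?_ h02
          apply mul_le_mul_of_nonneg_right _ (by linarith)
          obtain ⟨j, hj⟩ : ∃ j, n - 1 = j + 1 := ⟨n - 2, by omega⟩
          rw [hj]
          have e4 : (1 : ℝ) ≤ |(s : ℝ)| := hY1.trans h01
          calc Y ≤ |(s : ℝ)| := h01
            _ = |(s : ℝ)| ^ 1 := (pow_one _).symm
            _ ≤ |(s : ℝ)| ^ (j + 1) := pow_le_pow_right₀ e4 (by omega)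
        have e5 : U ^ (3 / 2 : ℝ) ≤ Y * Y := by
          rw [hY, ← Real.rpow_add hUpos]
          apply Real.rpow_le_rpow_of_exponent_le hU1
          linarith
        have e6 : (q0 : ℝ) ≤ U ^ (1 / 2 : ℝ) := by
          rw [← Real.sqrt_eq_rpow]
          apply Real.le_sqrt_of_sq_le
          linarith
        have e7 : (q0 : ℝ) * U ≤ (q0 : ℝ) * (a s : ℝ) := by
          refine le_trans ?_ (e5.trans e3)
          calc (q0 : ℝ) * U ≤ U ^ (1 / 2 : ℝ) * U ^ (1 : ℝ) := by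
                rw [Real.rpow_one]; gcongr
            _ = U ^ (3 / 2 : ℝ) := by rw [← Real.rpow_add hUpos]; norm_num
        exact le_of_mul_le_mul_left e7 (by linarith)
      have h3 : (a s : ℝ) < U ^ η1 * U ^ η * (a s : ℝ) ^ (1 - ε) := by
        have e1 : 0 < U ^ η1 * U ^ η :=
          mul_pos (Real.rpow_pos_of_pos hUpos _) (Real.rpow_pos_of_pos hUpos _)
        calc (a s : ℝ) ≤ U ^ η1 * U ^ η * N := hii
          _ < U ^ η1 * U ^ η * (a s : ℝ) ^ (1 - ε) := by gcongr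
      have h4 : (a s : ℝ) ^ ε * (a s : ℝ) ^ (1 - ε) = (a s : ℝ) := by
        rw [← Real.rpow_add haR]
        have : ε + (1 - ε) = 1 := by ring
        rw [this, Real.rpow_one]
      have h5 : (a s : ℝ) ^ ε < U ^ η1 * U ^ η := by
        have e2 : (a s : ℝ) ^ ε * (a s : ℝ) ^ (1 - ε) <
            U ^ η1 * U ^ η * (a s : ℝ) ^ (1 - ε) := by rw [h4]; exact h3
        exact lt_of_mul_lt_mul_right e2 (Real.rpow_nonneg haR.le _)
      have h6 : U ^ η1 * U ^ η ≤ (a s : ℝ) ^ ε := by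
        rw [← Real.rpow_add hUpos]
        calc U ^ (η1 + η) ≤ U ^ ε := by
              apply Real.rpow_le_rpow_of_exponent_le hU1
              have : η1 ≤ ε0 / 16 := min_le_right _ _
              linarith
          _ ≤ (a s : ℝ) ^ ε := Real.rpow_le_rpow hUpos.le h2 hε.le
      linarith
    · have hpR : (1 : ℝ) ≤ (p : ℝ) := by exact_mod_cast hp.one_le
      have hpe : (p : ℝ) ^ e ≤ U ^ K0 := by
        have h2 : p ^ e ≤ a s := by
          rw [hfac]
          exact Nat.le_mul_of_pos_left _ (Nat.pos_of_ne_zero (mul_ne_zero hm0 hm1))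
        have h3 : (p : ℝ) ^ e ≤ (a s : ℝ) := by exact_mod_cast h2
        linarith
      refine ⟨e, ?_, ?_⟩
      · rw [hEE, Finset.mem_Icc]
        refine ⟨he, ?_⟩
        by_contra hcon
        push Not at hcon
        have h6 : U ^ K0 < (p : ℝ) ^ e := by
          have e5 : U ^ (1 / 2 : ℝ) ≤ (p : ℝ) := by
            refine le_trans ?_ hpy.le
            apply Real.rpow_le_rpow_of_exponent_le hU1
            linarith
          calc U ^ K0 < U ^ ((1 / 2 : ℝ) * e) := by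
                apply Real.rpow_lt_rpow_of_exponent_lt hU1'
                have e6 : 2 * K0 ≤ (⌈2 * K0⌉₊ : ℝ) := Nat.le_ceil _
                have e7 : ((⌈2 * K0⌉₊ + 2 : ℕ) : ℝ) < (e : ℝ) := by exact_mod_cast hcon
                push_cast at e7
                linarith
            _ = (U ^ (1 / 2 : ℝ)) ^ e := by
                rw [← Real.rpow_natCast, ← Real.rpow_mul hUpos.le]
            _ ≤ (p : ℝ) ^ e := by gcongr
        linarith
      · rw [hT2, Finset.mem_filter]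
        refine ⟨hs, h01, h02, m0, m1, p, Nat.one_le_iff_ne_zero.mpr hm0, ?_,
          Nat.one_le_iff_ne_zero.mpr hm1, ?_, ?_, hp.one_le, ?_, by rw [hfaca, hfac]⟩
        · refine hm0U.trans ?_
          apply Real.rpow_le_rpow_of_exponent_le hU1
          exact min_le_left _ _
        · by_contra hcon
          push Not at hcon
          have h2 : U ^ (1 - ε2) * U ^ (1 - η) < U ^ η * N := by
            have e1 : 0 < U ^ (1 - ε2) := Real.rpow_pos_of_pos hUpos _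
            have e2 : 0 < U ^ (1 - η) := Real.rpow_pos_of_pos hUpos _
            calc U ^ (1 - ε2) * U ^ (1 - η) < (m1 : ℝ) * p := by
                  apply mul_lt_mul'' hcon hpy e1.le e2.le
              _ ≤ U ^ η * N := hm1p
          have h3 : U ^ η * N < U ^ η * U ^ (2 - ε) := by
            have e1 : 0 < U ^ η := Real.rpow_pos_of_pos hUpos _
            gcongr
          have h4 : U ^ η * U ^ (2 - ε) ≤ U ^ (1 - ε2) * U ^ (1 - η) := by
            rw [← Real.rpow_add hUpos, ← Real.rpow_add hUpos]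
            apply Real.rpow_le_rpow_of_exponent_le hU1
            linarith
          linarith
        · have h2 : Nat.Coprime m1 k.natAbs := by
            apply Nat.Coprime.coprime_dvd_left _ hcopa
            rw [hfac]
            exact (dvd_mul_left m1 m0).mul_right _
          have h3 : Nat.Coprime m1 ((n : ℤ) * k).natAbs := by
            rw [Int.natAbs_mul, Int.natAbs_natCast]
            exact Nat.Coprime.mul_right hm1c h2
          rw [Int.isCoprime_iff_gcd_eq_one]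
          simpa [Int.gcd] using h3
        · calc (p : ℝ) = (p : ℝ) ^ 1 := (pow_one _).symm
            _ ≤ (p : ℝ) ^ e := pow_le_pow_right₀ hpR (by omega)
            _ ≤ U ^ K0 := hpe
  have hT0le : (T0.card : ℝ) ≤ 9 * U ^ (1 - δ) := by
    set κ : ℝ := |(k : ℝ)| ^ ((1 : ℝ) / n) with hκ
    have hκ0 : 0 ≤ κ := Real.rpow_nonneg (abs_nonneg _) _
    have hκn : κ ^ n = |(k : ℝ)| := by
      rw [hκ, one_div, Real.rpow_inv_natCast_pow (abs_nonneg _) hn0]
    have hsub : T0 ⊆ T0.filter (fun s : ℤ => |(s : ℝ) - 0| ≤ Y) ∪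
        (T0.filter (fun s : ℤ => |(s : ℝ) - κ| ≤ Y) ∪
          T0.filter (fun s : ℤ => |(s : ℝ) - (-κ)| ≤ Y)) := by
      intro s hs
      have h1 := (Finset.mem_filter.mp hs).2
      by_cases hsY : |(s : ℝ)| < Y
      · exact Finset.mem_union_left _ (Finset.mem_filter.mpr ⟨hs, by rw [sub_zero]; exact hsY.le⟩)
      · apply Finset.mem_union_right
        have h2 := h1.resolve_left hsY
        push Not at hsY
        have h3 := near_root n hn1 k κ hκ0 hκn s (by linarith) Y h2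
        rcases le_total 0 (s : ℝ) with h4 | h4
        · rw [abs_of_nonneg h4] at h3
          exact Finset.mem_union_left _ (Finset.mem_filter.mpr ⟨hs, h3.le⟩)
        · rw [abs_of_nonpos h4] at h3
          apply Finset.mem_union_right
          refine Finset.mem_filter.mpr ⟨hs, ?_⟩
          have e1 : (s : ℝ) - (-κ) = -(-(s : ℝ) - κ) := by ring
          rw [e1, abs_neg]
          exact h3.le
    have hc1 := card_int_near (T0.filter (fun s : ℤ => |(s : ℝ) - 0| ≤ Y)) 0 Y (by linarith)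
      (fun s hs => (Finset.mem_filter.mp hs).2)
    have hc2 := card_int_near (T0.filter (fun s : ℤ => |(s : ℝ) - κ| ≤ Y)) κ Y (by linarith)
      (fun s hs => (Finset.mem_filter.mp hs).2)
    have hc3 := card_int_near (T0.filter (fun s : ℤ => |(s : ℝ) - (-κ)| ≤ Y)) (-κ) Y (by linarith)
      (fun s hs => (Finset.mem_filter.mp hs).2)
    have h1 := Finset.card_le_card hsub
    have h2 := Finset.card_union_le (T0.filter (fun s : ℤ => |(s : ℝ) - 0| ≤ Y))
      (T0.filter (fun s : ℤ => |(s : ℝ) - κ| ≤ Y) ∪ T0.filter (fun s : ℤ => |(s : ℝ) - (-κ)| ≤ Y))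
    have h3 := Finset.card_union_le (T0.filter (fun s : ℤ => |(s : ℝ) - κ| ≤ Y))
      (T0.filter (fun s : ℤ => |(s : ℝ) - (-κ)| ≤ Y))
    have h4 : (T0.card : ℝ) ≤ (T0.filter (fun s : ℤ => |(s : ℝ) - 0| ≤ Y)).card +
        ((T0.filter (fun s : ℤ => |(s : ℝ) - κ| ≤ Y)).card +
          (T0.filter (fun s : ℤ => |(s : ℝ) - (-κ)| ≤ Y)).card) := by
      exact_mod_cast h1.trans (h2.trans (Nat.add_le_add_left h3 _))
    linarith
  have hT1le : (T1.card : ℝ) ≤ C1 * U ^ (1 - δ) := by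
    have h1 := hE1 k H hH T1 (fun s hs t ht => hdiam s (Finset.mem_filter.mp hs).1 t
      (Finset.mem_filter.mp ht).1) (by
      intro s hs
      obtain ⟨hsT, D, hDs, hDc, hD1, hD2, hDa⟩ := Finset.mem_filter.mp hs
      refine ⟨D, hDs, ?_, hD1, hD2, (Int.natCast_dvd_natCast.mpr hDa).trans (hadvd s hsT)⟩
      have h2 : Nat.Coprime D k.natAbs := Nat.Coprime.coprime_dvd_left hDa (ha s hsT).2.1
      have h3 : Nat.Coprime D ((n : ℤ) * k).natAbs := by
        rw [Int.natAbs_mul, Int.natAbs_natCast]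
        exact Nat.Coprime.mul_right hDc h2
      rw [Int.isCoprime_iff_gcd_eq_one]
      simpa [Int.gcd] using h3)
    refine h1.trans ?_
    have h2 : U ^ (1 - η / 4) ≤ U ^ (1 - δ) :=
      Real.rpow_le_rpow_of_exponent_le hU1 (by linarith)
    gcongr
  have hTble : (Tb.card : ℝ) ≤ Cb * U ^ (1 - δ) := by
    have h1 := hEb k H hH Tb (fun s hs t ht => hdiam s (Finset.mem_filter.mp hs).1 t
      (Finset.mem_filter.mp ht).1) (by
      intro s hs
      obtain ⟨hsT, h2⟩ := Finset.mem_filter.mp hs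
      exact ⟨a s, (ha s hsT).1, hadvd s hsT, h2⟩)
    refine h1.trans ?_
    have h2 : U ^ (1 - δb) ≤ U ^ (1 - δ) :=
      Real.rpow_le_rpow_of_exponent_le hU1 (by linarith)
    gcongr
  have hT2le : ∀ e ∈ EE, ((T2 e).card : ℝ) ≤ CE e * U ^ (1 - δ) := by
    intro e he
    have h1 := hE2 e (Finset.mem_Icc.mp he).1 k hk H hH (T2 e)
      (fun s hs t ht => hdiam s (Finset.mem_filter.mp hs).1 t (Finset.mem_filter.mp ht).1) (by
        intro s hs
        obtain ⟨hsT, h2, h3, m0, m1, y, h4, h5, h6⟩ := Finset.mem_filter.mp hs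
        refine ⟨h2, h3, m0, m1, y, h4, ?_, h6⟩
        exact h5.trans (Real.rpow_le_rpow_of_exponent_le hU1 (hc'le e he)))
    refine h1.trans ?_
    have h2 : U ^ (1 - cE e) ≤ U ^ (1 - δ) := by
      apply Real.rpow_le_rpow_of_exponent_le hU1
      have := hc'le e he
      linarith
    have := (hCE e).le
    gcongr
  have hbi : ((EE.biUnion T2).card : ℝ) ≤ CEs * U ^ (1 - δ) := by
    calc ((EE.biUnion T2).card : ℝ) ≤ ∑ e ∈ EE, ((T2 e).card : ℝ) := by
          exact_mod_cast Finset.card_biUnion_le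
      _ ≤ ∑ e ∈ EE, CE e * U ^ (1 - δ) := Finset.sum_le_sum hT2le
      _ = CEs * U ^ (1 - δ) := by rw [hCEs, Finset.sum_mul]
  have hfin : (T.card : ℝ) ≤ T0.card + (T1.card + (Tb.card + (EE.biUnion T2).card)) := by
    have h1 := Finset.card_le_card hcover
    have h2 := Finset.card_union_le T0 (T1 ∪ (Tb ∪ EE.biUnion T2))
    have h3 := Finset.card_union_le T1 (Tb ∪ EE.biUnion T2)
    have h4 := Finset.card_union_le Tb (EE.biUnion T2)
    have h5 : T.card ≤ T0.card + (T1.card + (Tb.card + (EE.biUnion T2).card)) := by omega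
    exact_mod_cast h5
  have h9 : 0 ≤ 4 * U0 * U ^ (1 - δ) := by positivity
  linarith

end Pool.Agent.Lib.MP_d8bd92_nt
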