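import Pool.Agent.Lib.MP_d8bd92_nt.SqADefs

set_option autoImplicit false

/-!
A straight-line graph without crossings has at most three edges per vertex.

PROOF. For an edge e = (u,v) (u.1 < v.1) write sl e for its slope; `ev e` is affine with slope sl e.
Call e
 (TL) top at the left if no f in E with f.1 = e.1 has sl f > sl e;
 (TR) top at the right if no f in E with f.2 = e.2, f different from e, has sl f < sl e (so that f
      would lie above e);
 (VV) with a visible vertex w in V: e.1.1 < w.1 < e.2.1, ev e w.1 < w.2 and no f in E with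
      f.1.1 < w.1 < f.2.1 has ev e w.1 < ev f w.1 < w.2.
CLAIM: every e in E is TL, TR or VV. The maps e to e.1 on TL, e to e.2 on TR, and e to w on VV (choose
w) are injective, hence E.card <= 3 V.card.
Injectivity. TL: e, f TL with the same left end have equal slopes; if e is not f, then the right end
of the shorter one is a vertex inside the longer one (novert; the right ends have different
abscissas by inj unless equal). TR in the same way. VV: if e, f have the same w, then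
ev e w.1 < ev f w.1 is impossible (f blocks e), so ev e w.1 = ev f w.1; if the slopes differ, e and f
cross at w.1 (which is interior to both x-ranges: take x, x' on both sides close to w.1, inside both
ranges); if they are equal, e and f lie on one line, and if e is not f an end of one of them lies
strictly inside the other (the open x-ranges both contain w.1), against novert.
CLAIM, proof. Let e = (u,v) be neither TL nor TR. Take e1 in E with e1.1 = u, sl e1 > sl e, and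
e2 in E, e2 not e, e2.2 = v, sl e2 < sl e with sl e2 MAXIMAL among these. Write v' = e2.1, u' = e1.2.
Let W = {w in V : u.1 < w.1 < v.1, ev e w.1 < w.2, and (v'.1 <= w.1 implies w.2 <= ev e2 w.1)}.
(a) W is nonempty: if v'.1 > u.1 then v' in W. Otherwise v'.1 < u.1 (v'.1 = u.1 gives v' = u,
e2 = e). Then ev e2 u.1 > u.2. If u'.1 >= v.1: u'.1 = v.1 would give u' = v, e1 = e; so u'.1 > v.1,
and e1, e2 cross (at u.1: ev e1 = u.2 < ev e2; at v.1: ev e1 > v.2 = ev e2). So u'.1 < v.1; u' is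
above e, and u'.2 <= ev e2 u'.1 since otherwise e1, e2 cross (x = u.1, x' = u'.1). So u' in W.
(b) choose w in W with the minimal slope sw = (w.2-u.2)/(w.1-u.1); let l(x) = u.2 + sw (x-u.1).
Suppose w is not visible: f in E, f = (p,q), p.1 < w.1 < q.1, ev e w.1 < ev f w.1 < w.2. Since e, f do
not cross, ev f >= ev e on the common range.
(c) f is below l to the right of w.1: let x0 = max p.1 u.1 < w.1. Then ev f x0 >= l x0: if p.1 <= u.1,
x0 = u.1 and ev f u.1 >= ev e u.1 = u.2 = l u.1. If p.1 > u.1: p is above e (ev f p.1 >= ev e p.1 and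
novert), and p in W: otherwise v'.1 <= p.1 and p.2 > ev e2 p.1, while w.2 <= ev e2 w.1 (w in W,
v'.1 <= p.1 < w.1), so ev f w.1 < ev e2 w.1: f and e2 cross. So slope of p >= sw, i.e. p.2 >= l p.1.
As f - l is affine, >= 0 at x0 and < 0 at w.1 > x0, it is < 0 at all x >= w.1.
(d) case q.1 < v.1: q is above e (novert). If q in W: the slope of q is < sw, contradiction. Otherwise
v'.1 <= q.1 and q.2 > ev e2 q.1. If v'.1 <= w.1: w.2 <= ev e2 w.1 gives ev f w.1 < ev e2 w.1, and f, e2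
cross. If w.1 < v'.1: v' is in W (u.1 < v'.1 < v.1); v'.1 < q.1 (equality gives q = v', but
q.2 > ev e2 q.1); so v'.1 is inside f, ev f v'.1 is not v'.2; if ev f v'.1 < v'.2 = ev e2 v'.1 then f, e2
cross (x = v'.1, x' = q.1); so v'.2 < ev f v'.1 < l v'.1 and v' has slope < sw, contradiction.
(e) case q.1 >= v.1: ev f v.1 >= v.2. Then ev e2 x <= ev f x for all x <= v.1 in both ranges: if
ev f v.1 > v.2 because f, e2 do not cross; if ev f v.1 = v.2 then q = v (novert for v in f, inj), f is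
not e, and sl f < sl e (f is above e at w.1 < v.1), so sl f <= sl e2 by maximality and
ev e2 x = v.2 - sl e2 (v.1-x) <= v.2 - sl f (v.1-x) = ev f x. Now if v'.1 <= w.1:
ev e2 w.1 <= ev f w.1 < w.2 contradicts w in W. If w.1 < v'.1: v' in W, and
v'.2 = ev e2 v'.1 <= ev f v'.1 < l v'.1: slope of v' < sw, contradiction.
-/

namespace Pool.Agent.Lib.SqPart

open Finset

/-- slope -/
private noncomputable def a1_sl (e : (ℝ × ℝ) × (ℝ × ℝ)) : ℝ := (e.2.2 - e.1.2) / (e.2.1 - e.1.1)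

private theorem a1_ev (e : (ℝ × ℝ) × (ℝ × ℝ)) (x : ℝ) :
    ev e x = e.1.2 + a1_sl e * (x - e.1.1) := by
  unfold ev a1_sl
  ring

private theorem a1_ev_left (e : (ℝ × ℝ) × (ℝ × ℝ)) : ev e e.1.1 = e.1.2 := by
  rw [a1_ev]
  ring

private theorem a1_ev_right (e : (ℝ × ℝ) × (ℝ × ℝ)) (h : e.1.1 < e.2.1) : ev e e.2.1 = e.2.2 := by
  unfold ev
  have : e.2.1 - e.1.1 ≠ 0 := by linarith
  field_simp
  ring

private theorem a1_ev_sub (e : (ℝ × ℝ) × (ℝ × ℝ)) (x y : ℝ) :
    ev e x = ev e y + a1_sl e * (x - y) := by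
  rw [a1_ev, a1_ev]
  ring

private theorem a1_nc {e f : (ℝ × ℝ) × (ℝ × ℝ)} (h : ¬ Cross e f) {x x' : ℝ}
    (h1 : e.1.1 ≤ x) (h2 : x ≤ e.2.1) (h3 : f.1.1 ≤ x) (h4 : x ≤ f.2.1)
    (h5 : e.1.1 ≤ x') (h6 : x' ≤ e.2.1) (h7 : f.1.1 ≤ x') (h8 : x' ≤ f.2.1)
    (h9 : ev e x < ev f x) : ev e x' ≤ ev f x' := by
  by_contra hc
  exact h ⟨x, x', h1, h2, h3, h4, h5, h6, h7, h8, h9, not_le.1 hc⟩

private def a1_TL (E : Finset ((ℝ × ℝ) × (ℝ × ℝ))) (e : (ℝ × ℝ) × (ℝ × ℝ)) : Prop :=
  ∀ f ∈ E, f.1 = e.1 → ¬ (a1_sl e < a1_sl f)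

private def a1_TR (E : Finset ((ℝ × ℝ) × (ℝ × ℝ))) (e : (ℝ × ℝ) × (ℝ × ℝ)) : Prop :=
  ∀ f ∈ E, f.2 = e.2 → f ≠ e → ¬ (a1_sl f < a1_sl e)

private def a1_VV (V : Finset (ℝ × ℝ)) (E : Finset ((ℝ × ℝ) × (ℝ × ℝ)))
    (e : (ℝ × ℝ) × (ℝ × ℝ)) (w : ℝ × ℝ) : Prop :=
  w ∈ V ∧ e.1.1 < w.1 ∧ w.1 < e.2.1 ∧ ev e w.1 < w.2 ∧
    ∀ f ∈ E, f.1.1 < w.1 → w.1 < f.2.1 → ¬ (ev e w.1 < ev f w.1 ∧ ev f w.1 < w.2)

private theorem a1_TL_inj {V : Finset (ℝ × ℝ)} {E : Finset ((ℝ × ℝ) × (ℝ × ℝ))} (h : GoodG V E)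
    {e f : (ℝ × ℝ) × (ℝ × ℝ)} (he : e ∈ E) (hf : f ∈ E) (he' : a1_TL E e) (hf' : a1_TL E f)
    (hef : e.1 = f.1) : e = f := by
  have hs : a1_sl e = a1_sl f :=
    le_antisymm (not_lt.1 (hf' e he hef)) (not_lt.1 (he' f hf hef.symm))
  have key : ∀ a b : (ℝ × ℝ) × (ℝ × ℝ), a ∈ E → b ∈ E → a.1 = b.1 → a1_sl a = a1_sl b →
      ¬ a.2.1 < b.2.1 := by
    intro a b ha hb hab hsl hlt
    have h1 := h.mem a ha
    have h2 : ev b a.2.1 = a.2.2 := by
      rw [← a1_ev_right a h1.2.2, a1_ev, a1_ev, hsl, hab]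
    refine h.novert b hb a.2 h1.2.1 ?_ hlt h2.symm
    rw [← hab]
    exact h1.2.2
  rcases lt_trichotomy e.2.1 f.2.1 with hlt | heq | hgt
  · exact absurd hlt (key e f he hf hef hs)
  · exact Prod.ext hef (h.inj _ (h.mem e he).2.1 _ (h.mem f hf).2.1 heq)
  · exact absurd hgt (key f e hf he hef.symm hs.symm)

private theorem a1_TR_inj {V : Finset (ℝ × ℝ)} {E : Finset ((ℝ × ℝ) × (ℝ × ℝ))} (h : GoodG V E)
    {e f : (ℝ × ℝ) × (ℝ × ℝ)} (he : e ∈ E) (hf : f ∈ E) (he' : a1_TR E e) (hf' : a1_TR E f)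
    (hef : e.2 = f.2) : e = f := by
  by_contra hne
  have hs : a1_sl e = a1_sl f :=
    le_antisymm (not_lt.1 (he' f hf hef.symm (Ne.symm hne))) (not_lt.1 (hf' e he hef hne))
  have key : ∀ a b : (ℝ × ℝ) × (ℝ × ℝ), a ∈ E → b ∈ E → a.2 = b.2 → a1_sl a = a1_sl b →
      ¬ a.1.1 < b.1.1 := by
    intro a b ha hb hab hsl hlt
    have h1 := h.mem a ha
    have h3 := h.mem b hb
    have h2 : ev a b.1.1 = b.1.2 := by
      rw [← a1_ev_left b, a1_ev_sub a b.1.1 a.2.1, a1_ev_sub b b.1.1 b.2.1,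
        a1_ev_right a h1.2.2, a1_ev_right b h3.2.2, hsl, hab]
    refine h.novert a ha b.1 h3.1 hlt ?_ h2.symm
    rw [hab]
    exact h3.2.2
  rcases lt_trichotomy e.1.1 f.1.1 with hlt | heq | hgt
  · exact key e f he hf hef hs hlt
  · exact hne (Prod.ext (h.inj _ (h.mem e he).1 _ (h.mem f hf).1 heq) hef)
  · exact key f e hf he hef.symm hs.symm hgt

private theorem a1_VV_inj {V : Finset (ℝ × ℝ)} {E : Finset ((ℝ × ℝ) × (ℝ × ℝ))} (h : GoodG V E)
    (hc : ∀ e ∈ E, ∀ f ∈ E, ¬ Cross e f)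
    {e f : (ℝ × ℝ) × (ℝ × ℝ)} (he : e ∈ E) (hf : f ∈ E) {w : ℝ × ℝ}
    (he' : a1_VV V E e w) (hf' : a1_VV V E f w) : e = f := by
  obtain ⟨_, e1, e2, e3, e4⟩ := he'
  obtain ⟨_, f1, f2, f3, f4⟩ := hf'
  have hev : ev e w.1 = ev f w.1 := by
    rcases lt_trichotomy (ev e w.1) (ev f w.1) with hlt | heq | hgt
    · exact absurd ⟨hlt, f3⟩ (e4 f hf f1 f2)
    · exact heq
    · exact absurd ⟨hgt, e3⟩ (f4 e he e1 e2)
  -- different slopes cross
  have hslope : ∀ a b : (ℝ × ℝ) × (ℝ × ℝ), a ∈ E → b ∈ E → ev a w.1 = ev b w.1 →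
      a.1.1 < w.1 → w.1 < a.2.1 → b.1.1 < w.1 → w.1 < b.2.1 → ¬ a1_sl a < a1_sl b := by
    intro a b ha hb hab a1 a2 b1 b2 hlt
    refine hc a ha b hb ⟨min a.2.1 b.2.1, max a.1.1 b.1.1, ?_, min_le_left _ _, ?_,
      min_le_right _ _, le_max_left _ _, ?_, le_max_right _ _, ?_, ?_, ?_⟩
    · exact le_min (by linarith) (by linarith)
    · exact le_min (by linarith) (by linarith)
    · exact max_le (by linarith) (by linarith)
    · exact max_le (by linarith) (by linarith)
    · rw [a1_ev_sub a _ w.1, a1_ev_sub b _ w.1, hab]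
      have hpos : 0 < min a.2.1 b.2.1 - w.1 := by
        have : w.1 < min a.2.1 b.2.1 := lt_min a2 b2
        linarith
      have := mul_lt_mul_of_pos_right hlt hpos
      linarith
    · rw [a1_ev_sub a _ w.1, a1_ev_sub b _ w.1, hab]
      have hpos : 0 < w.1 - max a.1.1 b.1.1 := by
        have : max a.1.1 b.1.1 < w.1 := max_lt a1 b1
        linarith
      have := mul_lt_mul_of_pos_right hlt hpos
      have e5 : a1_sl b * (max a.1.1 b.1.1 - w.1) = -(a1_sl b * (w.1 - max a.1.1 b.1.1)) := by ring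
      have e6 : a1_sl a * (max a.1.1 b.1.1 - w.1) = -(a1_sl a * (w.1 - max a.1.1 b.1.1)) := by ring
      rw [e5, e6]
      linarith
  have hs : a1_sl e = a1_sl f := by
    rcases lt_trichotomy (a1_sl e) (a1_sl f) with hlt | heq | hgt
    · exact absurd hlt (hslope e f he hf hev e1 e2 f1 f2)
    · exact heq
    · exact absurd hgt (hslope f e hf he hev.symm f1 f2 e1 e2)
  have hall : ∀ x, ev e x = ev f x := by
    intro x
    rw [a1_ev_sub e x w.1, a1_ev_sub f x w.1, hev, hs]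
  have hL : ∀ a b : (ℝ × ℝ) × (ℝ × ℝ), a ∈ E → b ∈ E → (∀ x, ev a x = ev b x) →
      w.1 < a.2.1 → b.1.1 < w.1 → ¬ a.1.1 < b.1.1 := by
    intro a b ha hb hab a2 b1 hlt
    refine h.novert a ha b.1 (h.mem b hb).1 hlt (b1.trans a2) ?_
    rw [hab, a1_ev_left]
  have hR : ∀ a b : (ℝ × ℝ) × (ℝ × ℝ), a ∈ E → b ∈ E → (∀ x, ev a x = ev b x) →
      a.1.1 < w.1 → w.1 < b.2.1 → ¬ b.2.1 < a.2.1 := by
    intro a b ha hb hab a1 b2 hlt
    refine h.novert a ha b.2 (h.mem b hb).2.1 (a1.trans b2) hlt ?_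
    rw [hab, a1_ev_right b (h.mem b hb).2.2]
  have hleft : e.1 = f.1 := by
    apply h.inj _ (h.mem e he).1 _ (h.mem f hf).1
    rcases lt_trichotomy e.1.1 f.1.1 with hlt | heq | hgt
    · exact absurd hlt (hL e f he hf hall e2 f1)
    · exact heq
    · exact absurd hgt (hL f e hf he (fun x => (hall x).symm) f2 e1)
  have hright : e.2 = f.2 := by
    apply h.inj _ (h.mem e he).2.1 _ (h.mem f hf).2.1
    rcases lt_trichotomy e.2.1 f.2.1 with hlt | heq | hgt
    · exact absurd hlt (hR f e hf he (fun x => (hall x).symm) f1 e2)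
    · exact heq
    · exact absurd hgt (hR e f he hf hall e1 f2)
  exact Prod.ext hleft hright

private theorem a1_claim {V : Finset (ℝ × ℝ)} {E : Finset ((ℝ × ℝ) × (ℝ × ℝ))} (h : GoodG V E)
    (hc : ∀ e ∈ E, ∀ f ∈ E, ¬ Cross e f) {e : (ℝ × ℝ) × (ℝ × ℝ)} (he : e ∈ E)
    (hTL : ¬ a1_TL E e) (hTR : ¬ a1_TR E e) : ∃ w, a1_VV V E e w := by
  classical
  have hem := h.mem e he
  unfold a1_TL at hTL
  push Not at hTL
  obtain ⟨e1, he1, h11, hsl1⟩ := hTL
  unfold a1_TR at hTR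
  push Not at hTR
  -- the set `S`
  set S := E.filter (fun f => f.2 = e.2 ∧ f ≠ e ∧ a1_sl f < a1_sl e) with hS
  have hSne : S.Nonempty := by
    obtain ⟨f, hf, hf1, hf2, hf3⟩ := hTR
    exact ⟨f, Finset.mem_filter.2 ⟨hf, hf1, hf2, hf3⟩⟩
  obtain ⟨e2, he2S, hmax⟩ := S.exists_max_image a1_sl hSne
  obtain ⟨he2, h22, hne2, hsl2⟩ := Finset.mem_filter.1 he2S
  have hem1 := h.mem e1 he1
  have hem2 := h.mem e2 he2
  have hu1 : e.1.1 < e1.2.1 := by rw [← h11]; exact hem1.2.2
  have hv1 : e2.1.1 < e.2.1 := by rw [← h22]; exact hem2.2.2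
  -- values at the ends
  have ev_u : ev e e.1.1 = e.1.2 := a1_ev_left e
  have ev_v : ev e e.2.1 = e.2.2 := a1_ev_right e hem.2.2
  have ev1_u : ev e1 e.1.1 = e.1.2 := by rw [← h11]; exact a1_ev_left e1
  have ev2_v : ev e2 e.2.1 = e.2.2 := by rw [← h22]; exact a1_ev_right e2 hem2.2.2
  have ev2_v' : ev e2 e2.1.1 = e2.1.2 := a1_ev_left e2
  have ev1_u' : ev e1 e1.2.1 = e1.2.2 := a1_ev_right e1 hem1.2.2
  -- e2 is above e, e1 is above e
  have above2 : ∀ x, x < e.2.1 → ev e x < ev e2 x := by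
    intro x hx
    rw [a1_ev_sub e x e.2.1, a1_ev_sub e2 x e.2.1, ev_v, ev2_v]
    have := mul_lt_mul_of_neg_right hsl2 (sub_neg.2 hx)
    linarith
  have above1 : ∀ x, e.1.1 < x → ev e x < ev e1 x := by
    intro x hx
    rw [a1_ev_sub e x e.1.1, a1_ev_sub e1 x e.1.1, ev_u, ev1_u]
    have := mul_lt_mul_of_pos_right hsl1 (sub_pos.2 hx)
    linarith
  set W := V.filter (fun w => e.1.1 < w.1 ∧ w.1 < e.2.1 ∧ ev e w.1 < w.2 ∧
    (e2.1.1 ≤ w.1 → w.2 ≤ ev e2 w.1)) with hW
  have memW : ∀ w, w ∈ W ↔ w ∈ V ∧ e.1.1 < w.1 ∧ w.1 < e.2.1 ∧ ev e w.1 < w.2 ∧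
      (e2.1.1 ≤ w.1 → w.2 ≤ ev e2 w.1) := fun w => by rw [hW, Finset.mem_filter]
  have hv'W : e.1.1 < e2.1.1 → e2.1 ∈ W := by
    intro hlt
    rw [memW]
    refine ⟨hem2.1, hlt, hv1, ?_, fun _ => ?_⟩
    · rw [← ev2_v']
      exact above2 _ hv1
    · rw [ev2_v']
  have hWne : W.Nonempty := by
    rcases lt_trichotomy e.1.1 e2.1.1 with hlt | heq | hgt
    · exact ⟨e2.1, hv'W hlt⟩
    · exfalso
      exact hne2 (Prod.ext (h.inj _ hem2.1 _ hem.1 heq.symm) h22)
    · -- e2 starts left of e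
      have hu2 : e.1.2 < ev e2 e.1.1 := by
        rw [← ev_u]
        exact above2 _ hem.2.2
      have hu'lt : e1.2.1 < e.2.1 := by
        rcases lt_trichotomy e1.2.1 e.2.1 with hlt | heq | hgt'
        · exact hlt
        · exfalso
          have : e1 = e := Prod.ext h11 (h.inj _ hem1.2.1 _ hem.2.1 heq)
          rw [this] at hsl1
          exact lt_irrefl _ hsl1
        · exfalso
          refine hc e1 he1 e2 he2 ⟨e.1.1, e.2.1, ?_, hu1.le, hgt.le, ?_, ?_, hgt'.le, ?_, ?_, ?_, ?_⟩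
          · rw [h11]
          · rw [h22]; exact hem.2.2.le
          · rw [h11]; exact hem.2.2.le
          · exact hv1.le
          · rw [h22]
          · rw [ev1_u]; exact hu2
          · rw [ev2_v, ← ev_v]
            exact above1 _ hem.2.2
      refine ⟨e1.2, ?_⟩
      rw [memW]
      refine ⟨hem1.2.1, hu1, hu'lt, ?_, fun _ => ?_⟩
      · rw [← ev1_u']
        exact above1 _ hu1
      · by_contra hcon
        refine hc e1 he1 e2 he2 ⟨e.1.1, e1.2.1, ?_, hu1.le, hgt.le, ?_, ?_, le_refl _, ?_, ?_, ?_, ?_⟩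
        · rw [h11]
        · rw [h22]; exact hem.2.2.le
        · exact hem1.2.2.le
        · linarith
        · rw [h22]; exact hu'lt.le
        · rw [ev1_u]; exact hu2
        · rw [ev1_u']; exact not_le.1 hcon
  obtain ⟨w, hwW, hwmin⟩ := W.exists_min_image (fun w => (w.2 - e.1.2) / (w.1 - e.1.1)) hWne
  obtain ⟨hwV, hw1, hw2, hw3, hw4⟩ := (memW w).1 hwW
  set sw : ℝ := (w.2 - e.1.2) / (w.1 - e.1.1) with hsw
  have hlw : e.1.2 + sw * (w.1 - e.1.1) = w.2 := by
    rw [hsw]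
    have : w.1 - e.1.1 ≠ 0 := by linarith
    field_simp
    ring
  have hmin : ∀ z ∈ W, e.1.2 + sw * (z.1 - e.1.1) ≤ z.2 := by
    intro z hz
    have h1 := hwmin z hz
    have h2 := ((memW z).1 hz).2.1
    have hpos : 0 < z.1 - e.1.1 := by linarith
    have h3 : sw * (z.1 - e.1.1) ≤ z.2 - e.1.2 := by
      rw [← le_div_iff₀ hpos]
      exact h1
    linarith
  refine ⟨w, hwV, hw1, hw2, hw3, ?_⟩
  rintro f hf hf1 hf2 ⟨hg1, hg2⟩
  have hemf := h.mem f hf
  have evf_p : ev f f.1.1 = f.1.2 := a1_ev_left f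
  have evf_q : ev f f.2.1 = f.2.2 := a1_ev_right f hemf.2.2
  -- f is above e on the common range
  have hfe : ∀ x, e.1.1 ≤ x → x ≤ e.2.1 → f.1.1 ≤ x → x ≤ f.2.1 → ev e x ≤ ev f x := by
    intro x x1 x2 x3 x4
    exact a1_nc (hc e he f hf) hw1.le hw2.le hf1.le hf2.le x1 x2 x3 x4 hg1
  -- (c)
  have hslf : a1_sl f < sw := by
    have hx0 : ∃ x0, x0 < w.1 ∧ e.1.2 + sw * (x0 - e.1.1) ≤ ev f x0 := by
      by_cases hp : f.1.1 ≤ e.1.1
      · refine ⟨e.1.1, hw1, ?_⟩
        have := hfe e.1.1 (le_refl _) hem.2.2.le hp (by linarith)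
        rw [ev_u] at this
        linarith
      · have hp' : e.1.1 < f.1.1 := not_le.1 hp
        refine ⟨f.1.1, hf1, ?_⟩
        have h1 := hfe f.1.1 hp'.le (by linarith) (le_refl _) hemf.2.2.le
        have h2 : f.1.2 ≠ ev e f.1.1 := h.novert e he f.1 hemf.1 hp' (by linarith)
        rw [evf_p] at h1 ⊢
        have h3 : ev e f.1.1 < f.1.2 := lt_of_le_of_ne h1 (Ne.symm h2)
        apply hmin
        rw [memW]
        refine ⟨hemf.1, hp', by linarith, h3, fun hv' => ?_⟩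
        by_contra hcon
        have h4 := hw4 (by linarith)
        refine hc f hf e2 he2 ⟨w.1, f.1.1, hf1.le, hf2.le, by linarith, ?_, le_refl _,
          hemf.2.2.le, hv', ?_, by linarith, ?_⟩
        · rw [h22]; exact hw2.le
        · rw [h22]; linarith
        · rw [evf_p]; exact not_le.1 hcon
    obtain ⟨x0, hx0w, hx0l⟩ := hx0
    have h5 := a1_ev_sub f w.1 x0
    have h6 : a1_sl f * (w.1 - x0) < sw * (w.1 - x0) := by
      have e0 : sw * (w.1 - x0) = sw * (w.1 - e.1.1) - sw * (x0 - e.1.1) := by ring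
      rw [e0]
      linarith
    exact lt_of_mul_lt_mul_right h6 (by linarith)
  have hfl : ∀ x, w.1 ≤ x → ev f x < e.1.2 + sw * (x - e.1.1) := by
    intro x hx
    rw [a1_ev_sub f x w.1]
    have h7 : a1_sl f * (x - w.1) ≤ sw * (x - w.1) :=
      mul_le_mul_of_nonneg_right hslf.le (by linarith)
    have e0 : sw * (x - e.1.1) = sw * (w.1 - e.1.1) + sw * (x - w.1) := by ring
    rw [e0]
    linarith
  by_cases hq : f.2.1 < e.2.1
  · -- (d)
    have h1 := hfe f.2.1 (by linarith) hq.le hemf.2.2.le (le_refl _)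
    have h2 : f.2.2 ≠ ev e f.2.1 := h.novert e he f.2 hemf.2.1 (by linarith) hq
    rw [evf_q] at h1
    have h3 : ev e f.2.1 < f.2.2 := lt_of_le_of_ne h1 (Ne.symm h2)
    by_cases hqW : e2.1.1 ≤ f.2.1 → f.2.2 ≤ ev e2 f.2.1
    · have h4 := hmin f.2 ((memW f.2).2 ⟨hemf.2.1, by linarith, hq, h3, hqW⟩)
      have h5 := hfl f.2.1 hf2.le
      rw [evf_q] at h5
      linarith
    · push Not at hqW
      obtain ⟨hq1, hq2⟩ := hqW
      by_cases hv : e2.1.1 ≤ w.1
      · have h4 := hw4 hv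
        refine hc f hf e2 he2 ⟨w.1, f.2.1, hf1.le, hf2.le, hv, ?_, hemf.2.2.le, le_refl _, hq1, ?_,
          by linarith, ?_⟩
        · rw [h22]; exact hw2.le
        · rw [h22]; exact hq.le
        · rw [evf_q]; exact hq2
      · have hv' : w.1 < e2.1.1 := not_le.1 hv
        have hvW := hmin _ (hv'W (by linarith))
        have hv'q : e2.1.1 < f.2.1 := by
          rcases lt_or_eq_of_le hq1 with hlt | heq
          · exact hlt
          · exfalso
            have : e2.1 = f.2 := h.inj _ hem2.1 _ hemf.2.1 heq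
            rw [← heq, ev2_v', this] at hq2
            exact lt_irrefl _ hq2
        have h5 : e2.1.2 ≠ ev f e2.1.1 := h.novert f hf e2.1 hem2.1 (by linarith) hv'q
        have h6 := hfl e2.1.1 hv'.le
        have h7 : ev f e2.1.1 < e2.1.2 := lt_of_lt_of_le h6 hvW
        refine hc f hf e2 he2 ⟨e2.1.1, f.2.1, by linarith, hv'q.le, le_refl _, hem2.2.2.le,
          hemf.2.2.le, le_refl _, hq1, ?_, ?_, ?_⟩
        · rw [h22]; exact hq.le
        · rw [ev2_v']; exact h7
        · rw [evf_q]; exact hq2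
  · -- (e)
    have hq' : e.2.1 ≤ f.2.1 := not_lt.1 hq
    have hfv : e.2.2 ≤ ev f e.2.1 := by
      have := hfe e.2.1 hem.2.2.le (le_refl _) (by linarith) hq'
      rw [ev_v] at this
      exact this
    have h2f : ∀ x, x ≤ e.2.1 → e2.1.1 ≤ x → f.1.1 ≤ x → x ≤ f.2.1 → ev e2 x ≤ ev f x := by
      intro x x1 x2 x3 x4
      rcases lt_or_eq_of_le hfv with hlt | heq
      · refine a1_nc (hc e2 he2 f hf) (x := e.2.1) hv1.le ?_ (by linarith) hq' x2 ?_ x3 x4 ?_
        · rw [h22]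
        · rw [h22]; exact x1
        · rw [ev2_v]; exact hlt
      · have hqv : f.2 = e.2 := by
          apply h.inj _ hemf.2.1 _ hem.2.1
          rcases lt_or_eq_of_le hq' with hlt | heq'
          · exact absurd heq (h.novert f hf e.2 hem.2.1 (by linarith) hlt)
          · exact heq'.symm
        have hslfe : a1_sl f < a1_sl e := by
          have h8 := a1_ev_sub f w.1 e.2.1
          have h9 := a1_ev_sub e w.1 e.2.1
          rw [ev_v] at h9
          rw [← heq] at h8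
          have h10 : a1_sl f * (e.2.1 - w.1) < a1_sl e * (e.2.1 - w.1) := by
            have e0 : a1_sl f * (e.2.1 - w.1) = -(a1_sl f * (w.1 - e.2.1)) := by ring
            have e3 : a1_sl e * (e.2.1 - w.1) = -(a1_sl e * (w.1 - e.2.1)) := by ring
            rw [e0, e3]
            linarith
          exact lt_of_mul_lt_mul_right h10 (by linarith)
        have hfne : f ≠ e := by
          rintro rfl
          exact lt_irrefl _ hg1
        have hle := hmax f (Finset.mem_filter.2 ⟨hf, hqv, hfne, hslfe⟩)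
        rw [a1_ev_sub e2 x e.2.1, a1_ev_sub f x e.2.1, ev2_v, ← heq]
        have := mul_le_mul_of_nonpos_right hle (sub_nonpos.2 x1)
        linarith
    by_cases hv : e2.1.1 ≤ w.1
    · have h4 := hw4 hv
      have h5 := h2f w.1 hw2.le hv hf1.le hf2.le
      linarith
    · have hv' : w.1 < e2.1.1 := not_le.1 hv
      have hvW := hmin _ (hv'W (by linarith))
      have h5 := h2f e2.1.1 hv1.le (le_refl _) (by linarith) (by linarith)
      have h6 := hfl e2.1.1 hv'.le
      rw [ev2_v'] at h5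
      linarith

theorem card_edges_le (V : Finset (ℝ × ℝ)) (E : Finset ((ℝ × ℝ) × (ℝ × ℝ))) (h : GoodG V E)
    (hc : ∀ e ∈ E, ∀ f ∈ E, ¬ Cross e f) : E.card ≤ 3 * V.card := by
  classical
  set E1 := E.filter (fun e => a1_TL E e) with hE1
  set E2 := E.filter (fun e => a1_TR E e) with hE2
  set E3 := E.filter (fun e => ∃ w, a1_VV V E e w) with hE3
  have hcov : E ⊆ (E1 ∪ E2) ∪ E3 := by
    intro e he
    by_cases h1 : a1_TL E e
    · exact Finset.mem_union_left _ (Finset.mem_union_left _ (Finset.mem_filter.2 ⟨he, h1⟩))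
    · by_cases h2 : a1_TR E e
      · exact Finset.mem_union_left _ (Finset.mem_union_right _ (Finset.mem_filter.2 ⟨he, h2⟩))
      · exact Finset.mem_union_right _ (Finset.mem_filter.2 ⟨he, a1_claim h hc he h1 h2⟩)
  have c1 : E1.card ≤ V.card := by
    refine Finset.card_le_card_of_injOn (fun e => e.1) (fun e he => ?_) (fun e he f hf hef => ?_)
    · exact (h.mem e (Finset.mem_filter.1 he).1).1
    · have he' := Finset.mem_filter.1 (Finset.mem_coe.1 he)
      have hf' := Finset.mem_filter.1 (Finset.mem_coe.1 hf)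
      exact a1_TL_inj h he'.1 hf'.1 he'.2 hf'.2 hef
  have c2 : E2.card ≤ V.card := by
    refine Finset.card_le_card_of_injOn (fun e => e.2) (fun e he => ?_) (fun e he f hf hef => ?_)
    · exact (h.mem e (Finset.mem_filter.1 he).1).2.1
    · have he' := Finset.mem_filter.1 (Finset.mem_coe.1 he)
      have hf' := Finset.mem_filter.1 (Finset.mem_coe.1 hf)
      exact a1_TR_inj h he'.1 hf'.1 he'.2 hf'.2 hef
  have c3 : E3.card ≤ V.card := by
    refine Finset.card_le_card_of_injOn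
      (fun e => if hw : ∃ w, a1_VV V E e w then hw.choose else e.1)
      (fun e he => ?_) (fun e he f hf hef => ?_)
    · have he' := Finset.mem_filter.1 he
      simp only [dif_pos he'.2]
      exact he'.2.choose_spec.1
    · have he' := Finset.mem_filter.1 (Finset.mem_coe.1 he)
      have hf' := Finset.mem_filter.1 (Finset.mem_coe.1 hf)
      simp only [dif_pos he'.2, dif_pos hf'.2] at hef
      have s1 := he'.2.choose_spec
      have s2 := hf'.2.choose_spec
      rw [← hef] at s2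
      exact a1_VV_inj h hc he'.1 hf'.1 s1 s2
  calc E.card ≤ ((E1 ∪ E2) ∪ E3).card := Finset.card_le_card hcov
    _ ≤ (E1 ∪ E2).card + E3.card := Finset.card_union_le _ _
    _ ≤ E1.card + E2.card + E3.card := Nat.add_le_add_right (Finset.card_union_le _ _) _
    _ ≤ 3 * V.card := by omega

end Pool.Agent.Lib.SqPart
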