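import Pool.Agent.Lib.MP_d8bd92_nt.SqA1

set_option autoImplicit false

/-!
The crossing inequality by random sampling.

PROOF. For A a subset of V put E_A = edges with both ends in A, X_A = pairs (e,f) of edges of E_A with
Cross e f. Remove from E_A all e which have a partner f in E_A with Cross e f: at most |X_A| edges are
removed (first projection of X_A), the rest is a GoodG on A without crossings, so by `card_edges_le`
|E_A| <= 3 |A| + |X_A|. Multiply by the weight w(A) = p^|A| (1-p)^(|V|-|A|) >= 0 and sum over all A in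
V.powerset. For B a subset of V: sum of w(A) over A with B included in A = p^|B| (product formula:
A = B union A', A' a subset of V \ B, and `Finset.sum_pow_mul_eq_add_pow`-like binomial identity
sum over A' of p^|A'| (1-p)^(|V\B|-|A'|) = 1). Exchange the sums: sum w(A)|E_A| = p^2 |E| (the ends of an
edge are distinct), sum w(A) |A| = p |V|, sum w(A)|X_A| = p^4 |X| (four distinct ends by hd).
-/

namespace Pool.Agent.Lib.SqPart

open Finset

open Classical in
theorem a2_wsum (V B : Finset (ℝ × ℝ)) (hB : B ⊆ V) (p : ℝ) :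
    ∑ A ∈ V.powerset, (p ^ A.card * (1 - p) ^ (V \ A).card) * (if B ⊆ A then 1 else 0) =
      p ^ B.card := by
  have h1 := Finset.prod_add (fun _ : ℝ × ℝ => p) (fun i => if i ∈ B then 0 else 1 - p) V
  have h2 : ∏ i ∈ V, (p + if i ∈ B then 0 else 1 - p) = p ^ B.card := by
    have e : ∀ i ∈ V, (p + if i ∈ B then 0 else 1 - p) = if i ∈ B then p else 1 := by
      intro i _
      split_ifs <;> ring
    rw [Finset.prod_congr rfl e, Finset.prod_ite, Finset.prod_const, Finset.prod_const_one,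
      mul_one]
    congr 2
    ext i
    rw [Finset.mem_filter]
    exact ⟨fun h => h.2, fun h => ⟨hB h, h⟩⟩
  rw [← h2, h1]
  refine Finset.sum_congr rfl fun A hA => ?_
  rw [Finset.prod_const, mul_assoc]
  congr 1
  by_cases hBA : B ⊆ A
  · rw [if_pos hBA, mul_one]
    have e : ∀ i ∈ V \ A, (if i ∈ B then 0 else 1 - p) = 1 - p := by
      intro i hi
      rw [if_neg]
      exact fun hiB => (Finset.mem_sdiff.1 hi).2 (hBA hiB)
    rw [Finset.prod_congr rfl e, Finset.prod_const]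
  · rw [if_neg hBA, mul_zero]
    obtain ⟨i, hi, hiA⟩ := Finset.not_subset.1 hBA
    symm
    refine Finset.prod_eq_zero (i := i) (Finset.mem_sdiff.2 ⟨hB hi, hiA⟩) ?_
    rw [if_pos hi]

open Classical in
theorem a2_det (V A : Finset (ℝ × ℝ)) (E : Finset ((ℝ × ℝ) × (ℝ × ℝ))) (h : GoodG V E)
    (hA : A ⊆ V) :
    (E.filter (fun e => e.1 ∈ A ∧ e.2 ∈ A)).card ≤ 3 * A.card +
      (((E ×ˢ E).filter (fun x => Cross x.1 x.2)).filter
        (fun x => x.1.1 ∈ A ∧ x.1.2 ∈ A ∧ x.2.1 ∈ A ∧ x.2.2 ∈ A)).card := by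
  set EA := E.filter (fun e => e.1 ∈ A ∧ e.2 ∈ A) with hEA
  have hsplit := Finset.card_filter_add_card_filter_not (s := EA)
    (fun e => ∃ f ∈ EA, Cross e f)
  have h1 : (EA.filter (fun e => ∃ f ∈ EA, Cross e f)).card ≤
      (((E ×ˢ E).filter (fun x => Cross x.1 x.2)).filter
        (fun x => x.1.1 ∈ A ∧ x.1.2 ∈ A ∧ x.2.1 ∈ A ∧ x.2.2 ∈ A)).card := by
    refine (Finset.card_le_card ?_).trans (Finset.card_image_le (f := Prod.fst))
    intro e he
    obtain ⟨he1, f, hf, hc⟩ := Finset.mem_filter.1 he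
    obtain ⟨he2, he3, he4⟩ := Finset.mem_filter.1 he1
    obtain ⟨hf2, hf3, hf4⟩ := Finset.mem_filter.1 hf
    refine Finset.mem_image.2 ⟨(e, f), ?_, rfl⟩
    refine Finset.mem_filter.2 ⟨Finset.mem_filter.2 ⟨Finset.mem_product.2 ⟨he2, hf2⟩, hc⟩, ?_⟩
    exact ⟨he3, he4, hf3, hf4⟩
  have h2 : (EA.filter (fun e => ¬ ∃ f ∈ EA, Cross e f)).card ≤ 3 * A.card := by
    apply card_edges_le
    · refine ⟨fun v hv w hw => h.inj v (hA hv) w (hA hw), fun e he => ?_, fun e he w hw => ?_⟩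
      · obtain ⟨he1, _⟩ := Finset.mem_filter.1 he
        obtain ⟨he2, he3, he4⟩ := Finset.mem_filter.1 he1
        exact ⟨he3, he4, (h.mem e he2).2.2⟩
      · obtain ⟨he1, _⟩ := Finset.mem_filter.1 he
        obtain ⟨he2, he3, he4⟩ := Finset.mem_filter.1 he1
        exact h.novert e he2 w (hA hw)
    · intro e he f hf hc
      exact (Finset.mem_filter.1 he).2 ⟨f, (Finset.mem_filter.1 hf).1, hc⟩
  omega

open Classical in
theorem a2_swap {ι : Type*} (V : Finset (ℝ × ℝ)) (S : Finset ι) (b : ι → Finset (ℝ × ℝ))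
    (hb : ∀ i ∈ S, b i ⊆ V) (n : ℕ) (hn : ∀ i ∈ S, (b i).card = n) (p : ℝ) :
    ∑ A ∈ V.powerset, (p ^ A.card * (1 - p) ^ (V \ A).card) *
      ((S.filter (fun i => b i ⊆ A)).card : ℝ) = p ^ n * S.card := by
  have e : ∀ A ∈ V.powerset, (p ^ A.card * (1 - p) ^ (V \ A).card) *
      ((S.filter (fun i => b i ⊆ A)).card : ℝ) =
      ∑ i ∈ S, (p ^ A.card * (1 - p) ^ (V \ A).card) * (if b i ⊆ A then 1 else 0) := by
    intro A _
    rw [← Finset.mul_sum, Finset.card_filter]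
    push_cast
    rfl
  rw [Finset.sum_congr rfl e, Finset.sum_comm]
  have e2 : ∀ i ∈ S, ∑ A ∈ V.powerset, (p ^ A.card * (1 - p) ^ (V \ A).card) *
      (if b i ⊆ A then (1:ℝ) else 0) = p ^ n := by
    intro i hi
    rw [a2_wsum V (b i) (hb i hi) p, hn i hi]
  rw [Finset.sum_congr rfl e2, Finset.sum_const, nsmul_eq_mul, mul_comm]

open Classical in
theorem crossing_ineq (V : Finset (ℝ × ℝ)) (E : Finset ((ℝ × ℝ) × (ℝ × ℝ))) (h : GoodG V E)
    (hd : ∀ e ∈ E, ∀ f ∈ E, Cross e f → e.1 ≠ f.1 ∧ e.1 ≠ f.2 ∧ e.2 ≠ f.1 ∧ e.2 ≠ f.2)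
    (p : ℝ) (hp0 : 0 ≤ p) (hp1 : p ≤ 1) :
    p ^ 2 * (E.card : ℝ) ≤ 3 * p * (V.card : ℝ) +
      p ^ 4 * (((E ×ˢ E).filter (fun x => Cross x.1 x.2)).card : ℝ) := by
  set X := (E ×ˢ E).filter (fun x => Cross x.1 x.2) with hX
  have hne : ∀ e ∈ E, e.1 ≠ e.2 := by
    intro e he h0
    have := (h.mem e he).2.2
    rw [h0] at this
    exact lt_irrefl _ this
  have s1 := a2_swap V E (fun e => {e.1, e.2}) (by
    intro e he
    rw [Finset.insert_subset_iff, Finset.singleton_subset_iff]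
    exact ⟨(h.mem e he).1, (h.mem e he).2.1⟩) 2 (fun e he => Finset.card_pair (hne e he)) p
  have s2 := a2_swap V V (fun v => {v}) (by
    intro v hv
    rwa [Finset.singleton_subset_iff]) 1 (fun v _ => Finset.card_singleton v) p
  have s3 := a2_swap V X (fun x => {x.1.1, x.1.2, x.2.1, x.2.2}) (by
    intro x hx
    obtain ⟨hx1, _⟩ := Finset.mem_filter.1 hx
    obtain ⟨hx2, hx3⟩ := Finset.mem_product.1 hx1
    simp only [Finset.insert_subset_iff, Finset.singleton_subset_iff]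
    exact ⟨(h.mem _ hx2).1, (h.mem _ hx2).2.1, (h.mem _ hx3).1, (h.mem _ hx3).2.1⟩) 4 (by
    intro x hx
    obtain ⟨hx1, hc⟩ := Finset.mem_filter.1 hx
    obtain ⟨hx2, hx3⟩ := Finset.mem_product.1 hx1
    obtain ⟨d1, d2, d3, d4⟩ := hd _ hx2 _ hx3 hc
    have n1 := hne _ hx2
    have n2 := hne _ hx3
    rw [Finset.card_insert_of_notMem, Finset.card_insert_of_notMem, Finset.card_pair n2]
    · simp only [Finset.mem_insert, Finset.mem_singleton, not_or]
      exact ⟨d3, d4⟩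
    · simp only [Finset.mem_insert, Finset.mem_singleton, not_or]
      exact ⟨n1, d1, d2⟩) p
  have key : ∑ A ∈ V.powerset, (p ^ A.card * (1 - p) ^ (V \ A).card) *
        ((E.filter (fun e => ({e.1, e.2} : Finset (ℝ × ℝ)) ⊆ A)).card : ℝ) ≤
      ∑ A ∈ V.powerset, (p ^ A.card * (1 - p) ^ (V \ A).card) *
        (3 * ((V.filter (fun v => ({v} : Finset (ℝ × ℝ)) ⊆ A)).card : ℝ) +
          ((X.filter (fun x => ({x.1.1, x.1.2, x.2.1, x.2.2} : Finset (ℝ × ℝ)) ⊆ A)).card : ℝ)) := by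
    refine Finset.sum_le_sum fun A hA => ?_
    have hA' := Finset.mem_powerset.1 hA
    refine mul_le_mul_of_nonneg_left ?_
      (mul_nonneg (pow_nonneg hp0 _) (pow_nonneg (by linarith) _))
    have h1 := a2_det V A E h hA'
    have e1 : E.filter (fun e => ({e.1, e.2} : Finset (ℝ × ℝ)) ⊆ A) =
        E.filter (fun e => e.1 ∈ A ∧ e.2 ∈ A) := by
      refine Finset.filter_congr fun e _ => ?_
      rw [Finset.insert_subset_iff, Finset.singleton_subset_iff]
    have e2 : V.filter (fun v => ({v} : Finset (ℝ × ℝ)) ⊆ A) = A := by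
      ext v
      rw [Finset.mem_filter, Finset.singleton_subset_iff]
      exact ⟨fun h => h.2, fun h => ⟨hA' h, h⟩⟩
    have e3 : X.filter (fun x => ({x.1.1, x.1.2, x.2.1, x.2.2} : Finset (ℝ × ℝ)) ⊆ A) =
        X.filter (fun x => x.1.1 ∈ A ∧ x.1.2 ∈ A ∧ x.2.1 ∈ A ∧ x.2.2 ∈ A) := by
      refine Finset.filter_congr fun x _ => ?_
      simp only [Finset.insert_subset_iff, Finset.singleton_subset_iff]
    rw [e1, e2, e3]
    exact_mod_cast h1
  have key2 : ∑ A ∈ V.powerset, (p ^ A.card * (1 - p) ^ (V \ A).card) *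
        (3 * ((V.filter (fun v => ({v} : Finset (ℝ × ℝ)) ⊆ A)).card : ℝ) +
          ((X.filter (fun x => ({x.1.1, x.1.2, x.2.1, x.2.2} : Finset (ℝ × ℝ)) ⊆ A)).card : ℝ)) =
      3 * ∑ A ∈ V.powerset, (p ^ A.card * (1 - p) ^ (V \ A).card) *
          ((V.filter (fun v => ({v} : Finset (ℝ × ℝ)) ⊆ A)).card : ℝ) +
      ∑ A ∈ V.powerset, (p ^ A.card * (1 - p) ^ (V \ A).card) *
          ((X.filter (fun x => ({x.1.1, x.1.2, x.2.1, x.2.2} : Finset (ℝ × ℝ)) ⊆ A)).card : ℝ) := by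
    rw [Finset.mul_sum, ← Finset.sum_add_distrib]
    refine Finset.sum_congr rfl fun A _ => ?_
    ring
  rw [key2, s1, s2, s3] at key
  linarith

end Pool.Agent.Lib.SqPart
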