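import Pool.Agent.Lib.MP_d8bd92_nt.SqA2

set_option autoImplicit false

/-!
Szemeredi-Trotter for non-vertical lines and points with distinct abscissas.

PROOF. For a line l let V_l = points of V on l and E_l = pairs (u,v) of V_l with u.1 < v.1 and no w in
V_l with u.1 < w.1 < v.1. Then |E_l| >= |V_l| - 1 (map each u in V_l which is not the last one to (u,
next point); the first component is injective). E = union of the E_l over L. Different lines have
disjoint E_l (two points with different abscissas determine (slope, intercept)), so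
|E| = sum |E_l| >= I - |L|, I = number of incidences. For e in E_l: ev e x = l.1 x + l.2 for all x. E is a GoodG on V
(a vertex inside e lies on l, so in V_l, against the definition of E_l). If Cross e f, e in E_l,
f in E_m, then l is not m, the slopes of l, m differ, and the unique common abscissa x* of the two
lines lies strictly inside both x-ranges; hence the four ends are distinct (a common end would be on
both lines, so at x*), and for given (l,m) there is at most one crossing pair (e,f): the open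
x-ranges of different edges of E_l are disjoint, so x* lies in at most one of them. So the number of
ordered crossing pairs is at most |L|^2.
By `crossing_ineq`: p^2 |E| <= 3 p |V| + p^4 |L|^2 for 0 <= p <= 1. If |E| > 6|V| (so V nonempty) take
p = 6|V|/|E|: 3 p |V| <= p^4 |L|^2, so |E|^3 <= 72 |V|^2 |L|^2 and |E| <= 5 (|V||L|)^(2/3). In all cases
|E| <= 5 (|V||L|)^(2/3) + 6|V|.
-/

namespace Pool.Agent.Lib.SqPart

open Finset

/-- the line through the two ends -/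
noncomputable def a3_ln (e : (ℝ × ℝ) × (ℝ × ℝ)) : ℝ × ℝ :=
  ((e.2.2 - e.1.2) / (e.2.1 - e.1.1), e.1.2 - (e.2.2 - e.1.2) / (e.2.1 - e.1.1) * e.1.1)

open Classical in
/-- the points on the line `l` -/
noncomputable def a3_V (V : Finset (ℝ × ℝ)) (l : ℝ × ℝ) : Finset (ℝ × ℝ) :=
  V.filter (fun v => v.2 = l.1 * v.1 + l.2)

open Classical in
/-- consecutive points on the line `l` -/
noncomputable def a3_E (V : Finset (ℝ × ℝ)) (l : ℝ × ℝ) : Finset ((ℝ × ℝ) × (ℝ × ℝ)) :=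
  (a3_V V l ×ˢ a3_V V l).filter
    (fun e => e.1.1 < e.2.1 ∧ ∀ w ∈ a3_V V l, e.1.1 < w.1 → w.1 < e.2.1 → False)

lemma a3_mem_V {V : Finset (ℝ × ℝ)} {l v : ℝ × ℝ} :
    v ∈ a3_V V l ↔ v ∈ V ∧ v.2 = l.1 * v.1 + l.2 := by
  classical
  simp [a3_V]

lemma a3_mem_E {V : Finset (ℝ × ℝ)} {l : ℝ × ℝ} {e : (ℝ × ℝ) × (ℝ × ℝ)} :
    e ∈ a3_E V l ↔ (e.1 ∈ a3_V V l ∧ e.2 ∈ a3_V V l) ∧
      (e.1.1 < e.2.1 ∧ ∀ w ∈ a3_V V l, e.1.1 < w.1 → w.1 < e.2.1 → False) := by
  classical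
  unfold a3_E
  rw [Finset.mem_filter, Finset.mem_product]

lemma a3_ln_eq {V : Finset (ℝ × ℝ)} {l : ℝ × ℝ} {e : (ℝ × ℝ) × (ℝ × ℝ)} (he : e ∈ a3_E V l) :
    a3_ln e = l := by
  rw [a3_mem_E, a3_mem_V, a3_mem_V] at he
  obtain ⟨⟨⟨_, h1⟩, ⟨_, h2⟩⟩, h3, _⟩ := he
  have h4 : e.2.1 - e.1.1 ≠ 0 := ne_of_gt (by linarith)
  have h5 : (e.2.2 - e.1.2) / (e.2.1 - e.1.1) = l.1 := by
    rw [div_eq_iff h4, h1, h2]
    ring
  unfold a3_ln
  rw [h5]
  ext
  · rfl
  · simp only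
    rw [h1]
    ring

lemma a3_ev {V : Finset (ℝ × ℝ)} {l : ℝ × ℝ} {e : (ℝ × ℝ) × (ℝ × ℝ)} (he : e ∈ a3_E V l)
    (x : ℝ) : ev e x = l.1 * x + l.2 := by
  rw [a3_mem_E, a3_mem_V, a3_mem_V] at he
  obtain ⟨⟨⟨_, h1⟩, ⟨_, h2⟩⟩, h3, _⟩ := he
  have h4 : e.2.1 - e.1.1 ≠ 0 := ne_of_gt (by linarith)
  unfold ev
  rw [h1, h2]
  field_simp
  ring

lemma a3_card_V {V : Finset (ℝ × ℝ)} (l : ℝ × ℝ)
    (hV : ∀ v ∈ V, ∀ w ∈ V, v.1 = w.1 → v = w) :
    (a3_V V l).card ≤ (a3_E V l).card + 1 := by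
  classical
  rcases (a3_V V l).eq_empty_or_nonempty with h | h
  · rw [h]
    simp
  · obtain ⟨m, hm, hmax⟩ := (a3_V V l).exists_max_image (fun v => v.1) h
    have h1 : (a3_V V l).erase m ⊆ (a3_E V l).image Prod.fst := by
      intro u hu
      rw [Finset.mem_erase] at hu
      have hlt : u.1 < m.1 := by
        rcases lt_or_eq_of_le (hmax u hu.2) with h' | h'
        · exact h'
        · exact absurd (hV u (a3_mem_V.1 hu.2).1 m (a3_mem_V.1 hm).1 h') hu.1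
      have hne : ((a3_V V l).filter (fun w => u.1 < w.1)).Nonempty :=
        ⟨m, Finset.mem_filter.2 ⟨hm, hlt⟩⟩
      obtain ⟨v, hv, hmin⟩ := Finset.exists_min_image _ (fun v : ℝ × ℝ => v.1) hne
      rw [Finset.mem_filter] at hv
      rw [Finset.mem_image]
      refine ⟨(u, v), ?_, rfl⟩
      rw [a3_mem_E]
      refine ⟨⟨hu.2, hv.1⟩, hv.2, ?_⟩
      intro w hw hw1 hw2
      have := hmin w (Finset.mem_filter.2 ⟨hw, hw1⟩)
      simp only at this hw2
      linarith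
    have h2 := (Finset.card_le_card h1).trans Finset.card_image_le
    have h3 := Finset.card_erase_of_mem hm
    omega

lemma a3_cross {V : Finset (ℝ × ℝ)} {l m : ℝ × ℝ} {e f : (ℝ × ℝ) × (ℝ × ℝ)}
    (he : e ∈ a3_E V l) (hf : f ∈ a3_E V m) (h : Cross e f) :
    l.1 ≠ m.1 ∧ ∃ y : ℝ, l.1 * y + l.2 = m.1 * y + m.2 ∧ e.1.1 < y ∧ y < e.2.1 ∧ f.1.1 < y ∧
      y < f.2.1 := by
  obtain ⟨x, x', h1, h2, h3, h4, h5, h6, h7, h8, h9, h10⟩ := h
  rw [a3_ev he, a3_ev hf] at h9 h10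
  have hlm : l.1 ≠ m.1 := by
    intro hh
    rw [hh] at h9 h10
    linarith
  refine ⟨hlm, (m.2 - l.2) / (l.1 - m.1), ?_, ?_⟩
  · have : l.1 - m.1 ≠ 0 := sub_ne_zero.2 hlm
    field_simp
    ring
  · have key : ∀ a b : ℝ, a ≤ x → a ≤ x' → x ≤ b → x' ≤ b →
        a < (m.2 - l.2) / (l.1 - m.1) ∧ (m.2 - l.2) / (l.1 - m.1) < b := by
      intro a b ha1 ha2 hb1 hb2
      rcases lt_or_gt_of_ne (sub_ne_zero.2 hlm) with hs | hs
      · rw [lt_div_iff_of_neg hs, div_lt_iff_of_neg hs]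
        constructor
        · nlinarith
        · nlinarith
      · rw [lt_div_iff₀ hs, div_lt_iff₀ hs]
        constructor
        · nlinarith
        · nlinarith
    obtain ⟨k1, k2⟩ := key _ _ h1 h5 h2 h6
    obtain ⟨k3, k4⟩ := key _ _ h3 h7 h4 h8
    exact ⟨k1, k2, k3, k4⟩

lemma a3_meet {l m : ℝ × ℝ} (hlm : l.1 ≠ m.1) {y z : ℝ}
    (hy : l.1 * y + l.2 = m.1 * y + m.2) (hz : l.1 * z + l.2 = m.1 * z + m.2) : y = z := by
  have : (l.1 - m.1) * (y - z) = 0 := by linarith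
  rcases mul_eq_zero.1 this with h | h
  · exact absurd (sub_eq_zero.1 h) hlm
  · exact sub_eq_zero.1 h

lemma a3_uniq {V : Finset (ℝ × ℝ)} (hV : ∀ v ∈ V, ∀ w ∈ V, v.1 = w.1 → v = w) {l : ℝ × ℝ}
    {e f : (ℝ × ℝ) × (ℝ × ℝ)} (he : e ∈ a3_E V l) (hf : f ∈ a3_E V l) {y : ℝ}
    (h1 : e.1.1 < y) (h2 : y < e.2.1) (h3 : f.1.1 < y) (h4 : y < f.2.1) : e = f := by
  rw [a3_mem_E] at he hf
  obtain ⟨⟨e1, e2⟩, e3, e4⟩ := he
  obtain ⟨⟨f1, f2⟩, f3, f4⟩ := hf
  have k1 : e.1.1 = f.1.1 := by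
    rcases lt_trichotomy e.1.1 f.1.1 with h | h | h
    · exact (e4 _ f1 h (by linarith)).elim
    · exact h
    · exact (f4 _ e1 h (by linarith)).elim
  have k2 : e.2.1 = f.2.1 := by
    rcases lt_trichotomy e.2.1 f.2.1 with h | h | h
    · exact (f4 _ e2 (by linarith) h).elim
    · exact h
    · exact (e4 _ f2 (by linarith) h).elim
  exact Prod.ext (hV _ (a3_mem_V.1 e1).1 _ (a3_mem_V.1 f1).1 k1)
    (hV _ (a3_mem_V.1 e2).1 _ (a3_mem_V.1 f2).1 k2)

lemma a3_real {E V L : ℝ} (_hV : 0 ≤ V) (hL : 0 ≤ L)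
    (h : ∀ p : ℝ, 0 ≤ p → p ≤ 1 → p ^ 2 * E ≤ 3 * p * V + p ^ 4 * L ^ 2)
    (hEV : 6 * V < E) (hVpos : 0 < V) : E ≤ 5 * (V * L) ^ (2 / 3 : ℝ) := by
  have hE : 0 < E := by linarith
  have h1 := h (6 * V / E) (by positivity) (by rw [div_le_one hE]; linarith)
  have hp : 0 < 6 * V / E := by positivity
  have h2 : (6 * V / E) ^ 2 * E = 6 * V * (6 * V / E) := by
    field_simp
  have h3 : 3 * V ≤ (6 * V / E) ^ 3 * L ^ 2 := by
    have : (6 * V / E) * (3 * V) ≤ (6 * V / E) * ((6 * V / E) ^ 3 * L ^ 2) := by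
      nlinarith
    exact le_of_mul_le_mul_left this hp
  have h4 : E ^ 3 ≤ 72 * (V * L) ^ 2 := by
    rw [div_pow, div_mul_eq_mul_div, le_div_iff₀ (by positivity)] at h3
    have : (3 * V) * E ^ 3 ≤ (3 * V) * (72 * (V * L) ^ 2) := by
      nlinarith
    exact le_of_mul_le_mul_left this (by positivity)
  have h5 : (5 * (V * L) ^ (2 / 3 : ℝ)) ^ 3 = 125 * (V * L) ^ 2 := by
    rw [mul_pow, ← Real.rpow_natCast ((V * L) ^ (2 / 3 : ℝ)) 3, ← Real.rpow_mul (by positivity)]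
    norm_num
  have h6 : E ^ 3 ≤ (5 * (V * L) ^ (2 / 3 : ℝ)) ^ 3 := by
    rw [h5]
    nlinarith [sq_nonneg (V * L)]
  exact le_of_pow_le_pow_left₀ (by norm_num) (by positivity) h6

open Classical in
/-- lines `y = l.1 x + l.2` -/
theorem st_plane (V : Finset (ℝ × ℝ)) (hV : ∀ v ∈ V, ∀ w ∈ V, v.1 = w.1 → v = w)
    (L : Finset (ℝ × ℝ)) :
    (((V ×ˢ L).filter (fun x => x.1.2 = x.2.1 * x.1.1 + x.2.2)).card : ℝ) ≤
      5 * ((V.card : ℝ) * (L.card : ℝ)) ^ (2 / 3 : ℝ) + 6 * (V.card : ℝ) + (L.card : ℝ) := by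
  classical
  set E : Finset ((ℝ × ℝ) × (ℝ × ℝ)) := L.biUnion (fun l => a3_E V l) with hE
  have hEmem : ∀ e ∈ E, ∃ l ∈ L, e ∈ a3_E V l := by
    intro e he
    rw [hE, Finset.mem_biUnion] at he
    exact he
  have hcardE : E.card = ∑ l ∈ L, (a3_E V l).card := by
    rw [hE]
    apply Finset.card_biUnion
    intro l _ m _ hlm
    rw [Function.onFun, Finset.disjoint_left]
    intro e he hf
    exact hlm ((a3_ln_eq he).symm.trans (a3_ln_eq hf))
  have hI : ((V ×ˢ L).filter (fun x => x.1.2 = x.2.1 * x.1.1 + x.2.2)).card =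
      ∑ l ∈ L, (a3_V V l).card := by
    have h1 : (V ×ˢ L).filter (fun x => x.1.2 = x.2.1 * x.1.1 + x.2.2) =
        L.biUnion (fun l => (a3_V V l).image (fun v => (v, l))) := by
      ext ⟨v, l⟩
      simp only [Finset.mem_filter, Finset.mem_product, Finset.mem_biUnion, Finset.mem_image,
        Prod.mk.injEq]
      constructor
      · rintro ⟨⟨hv, hl⟩, h⟩
        exact ⟨l, hl, v, a3_mem_V.2 ⟨hv, h⟩, rfl, rfl⟩
      · rintro ⟨l', hl', v', hv', rfl, rfl⟩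
        exact ⟨⟨(a3_mem_V.1 hv').1, hl'⟩, (a3_mem_V.1 hv').2⟩
    rw [h1, Finset.card_biUnion]
    · apply Finset.sum_congr rfl
      intro l _
      apply Finset.card_image_of_injective
      intro a b hab
      exact (Prod.mk.inj hab).1
    · intro l _ m _ hlm
      rw [Function.onFun, Finset.disjoint_left]
      intro x hx hy
      rw [Finset.mem_image] at hx hy
      obtain ⟨_, _, rfl⟩ := hx
      obtain ⟨_, _, h⟩ := hy
      exact hlm (Prod.mk.inj h).2.symm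
  have hIE : ((V ×ˢ L).filter (fun x => x.1.2 = x.2.1 * x.1.1 + x.2.2)).card ≤
      E.card + L.card := by
    rw [hI, hcardE]
    calc ∑ l ∈ L, (a3_V V l).card ≤ ∑ l ∈ L, ((a3_E V l).card + 1) :=
          Finset.sum_le_sum (fun l _ => a3_card_V l hV)
      _ = ∑ l ∈ L, (a3_E V l).card + L.card := by
          rw [Finset.sum_add_distrib]
          simp
  have hgood : GoodG V E := by
    refine ⟨hV, ?_, ?_⟩
    · intro e he
      obtain ⟨l, _, hl⟩ := hEmem e he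
      rw [a3_mem_E] at hl
      exact ⟨(a3_mem_V.1 hl.1.1).1, (a3_mem_V.1 hl.1.2).1, hl.2.1⟩
    · intro e he w hw h1 h2 h3
      obtain ⟨l, _, hl⟩ := hEmem e he
      rw [a3_ev hl] at h3
      exact (a3_mem_E.1 hl).2.2 w (a3_mem_V.2 ⟨hw, h3⟩) h1 h2
  have hd : ∀ e ∈ E, ∀ f ∈ E, Cross e f → e.1 ≠ f.1 ∧ e.1 ≠ f.2 ∧ e.2 ≠ f.1 ∧ e.2 ≠ f.2 := by
    intro e he f hf hc
    obtain ⟨l, _, hl⟩ := hEmem e he
    obtain ⟨m, _, hm⟩ := hEmem f hf
    obtain ⟨hlm, y, hy, y1, y2, y3, y4⟩ := a3_cross hl hm hc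
    have e1 := (a3_mem_V.1 (a3_mem_E.1 hl).1.1).2
    have e2 := (a3_mem_V.1 (a3_mem_E.1 hl).1.2).2
    have f1 := (a3_mem_V.1 (a3_mem_E.1 hm).1.1).2
    have f2 := (a3_mem_V.1 (a3_mem_E.1 hm).1.2).2
    refine ⟨?_, ?_, ?_, ?_⟩
    · intro h
      rw [← h] at f1
      have := a3_meet hlm hy (e1.symm.trans f1)
      linarith
    · intro h
      rw [← h] at f2
      have := a3_meet hlm hy (e1.symm.trans f2)
      linarith
    · intro h
      rw [← h] at f1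
      have := a3_meet hlm hy (e2.symm.trans f1)
      linarith
    · intro h
      rw [← h] at f2
      have := a3_meet hlm hy (e2.symm.trans f2)
      linarith
  have hX : ((E ×ˢ E).filter (fun x => Cross x.1 x.2)).card ≤ L.card * L.card := by
    rw [← Finset.card_product]
    apply Finset.card_le_card_of_injOn (fun x => (a3_ln x.1, a3_ln x.2))
    · intro x hx
      rw [Finset.mem_coe, Finset.mem_filter, Finset.mem_product] at hx
      obtain ⟨l, hlL, hl⟩ := hEmem _ hx.1.1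
      obtain ⟨m, hmL, hm⟩ := hEmem _ hx.1.2
      rw [Finset.mem_coe, Finset.mem_product]
      simp only
      rw [a3_ln_eq hl, a3_ln_eq hm]
      exact ⟨hlL, hmL⟩
    · intro x hx x' hx' hxx
      rw [Finset.mem_coe, Finset.mem_filter, Finset.mem_product] at hx hx'
      obtain ⟨l, hlL, hl⟩ := hEmem _ hx.1.1
      obtain ⟨m, hmL, hm⟩ := hEmem _ hx.1.2
      obtain ⟨l', hlL', hl'⟩ := hEmem _ hx'.1.1
      obtain ⟨m', hmL', hm'⟩ := hEmem _ hx'.1.2
      simp only [Prod.mk.injEq] at hxx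
      rw [a3_ln_eq hl, a3_ln_eq hm, a3_ln_eq hl', a3_ln_eq hm'] at hxx
      obtain ⟨rfl, rfl⟩ := hxx
      obtain ⟨hlm, y, hy, y1, y2, y3, y4⟩ := a3_cross hl hm hx.2
      obtain ⟨_, z, hz, z1, z2, z3, z4⟩ := a3_cross hl' hm' hx'.2
      have hyz := a3_meet hlm hy hz
      subst hyz
      exact Prod.ext (a3_uniq hV hl hl' y1 y2 z1 z2) (a3_uniq hV hm hm' y3 y4 z3 z4)
  have hXr : ((((E ×ˢ E).filter (fun x => Cross x.1 x.2)).card : ℕ) : ℝ) ≤ (L.card : ℝ) ^ 2 := by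
    rw [sq]
    exact_mod_cast hX
  have hcr : ∀ p : ℝ, 0 ≤ p → p ≤ 1 →
      p ^ 2 * (E.card : ℝ) ≤ 3 * p * (V.card : ℝ) + p ^ 4 * (L.card : ℝ) ^ 2 := by
    intro p hp0 hp1
    have h1 := crossing_ineq V E hgood hd p hp0 hp1
    have h2 : p ^ 4 * ((((E ×ˢ E).filter (fun x => Cross x.1 x.2)).card : ℕ) : ℝ) ≤
        p ^ 4 * (L.card : ℝ) ^ 2 := mul_le_mul_of_nonneg_left hXr (by positivity)
    refine le_trans ?_ (add_le_add_right h2 _)
    convert h1 using 1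
  have hIEr : (((V ×ˢ L).filter (fun x => x.1.2 = x.2.1 * x.1.1 + x.2.2)).card : ℝ) ≤
      (E.card : ℝ) + (L.card : ℝ) := by
    exact_mod_cast hIE
  have hpow : 0 ≤ 5 * ((V.card : ℝ) * (L.card : ℝ)) ^ (2 / 3 : ℝ) := by positivity
  refine hIEr.trans ?_
  gcongr
  by_cases hcase : (E.card : ℝ) ≤ 6 * (V.card : ℝ)
  · linarith
  · push Not at hcase
    have hVpos : 0 < (V.card : ℝ) := by
      have hEpos : 0 < E.card := by
        have : (0 : ℝ) < E.card := lt_of_le_of_lt (by positivity) hcase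
        exact_mod_cast this
      obtain ⟨e, he⟩ := Finset.card_pos.1 hEpos
      have : e.1 ∈ V := (hgood.mem e he).1
      exact_mod_cast Finset.card_pos.2 ⟨_, this⟩
    have := a3_real (Nat.cast_nonneg _) (Nat.cast_nonneg _) hcr hcase hVpos
    have h6 : 0 ≤ 6 * (V.card : ℝ) := by positivity
    linarith

end Pool.Agent.Lib.SqPart
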