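import Pool.Agent.Lib.MP_d8bd92_nt.SqA3

set_option autoImplicit false

/-!
Szemeredi-Trotter for points and planes through the origin of a three-dimensional rational space.

PROOF of st_hom. Choose e2 in V which is not a zero of any l in L and does not lie in the span of p, p'
for any p, p' in P (finitely many proper subspaces; ℚ is infinite:
`Subspace.biUnion_ne_univ_of_top_nmem` or similar; the span of two vectors is proper). Choose linear
functionals L0, L1 on V with kernel of (L0,L1) = span e2 (basis e0,e1,e2 of V, dual basis) such that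
L0 p is nonzero for all p in P: the functionals vanishing on e2 form a 2-dimensional space, those
vanishing at p (p not in span e2) a proper subspace; take L0 outside all of them and outside 0, and L1
to complete a basis. L2 := third coordinate functional, so that x = L0 x e0 + L1 x e1 + L2 x e2. Map p to
the point (L1 p / L0 p, L2 p / L0 p) of the real plane: injective with distinct abscissas (if
L1 p/L0 p = L1 p'/L0 p' then L0 p' p - L0 p p' is in ker L0, ker L1, so a multiple of e2: e2 would be in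
span(p,p') unless this vector is 0, i.e. p, p' proportional, p = p' by hP). The functional
l = α L0 + β L1 + γ L2 with γ = l e2 nonzero is mapped to (-β/γ, -α/γ); injective by hL (equal pairs
means proportional functionals). l p = 0 iff α + β x + γ y = 0 iff y = (-β/γ) x - α/γ. Apply `st_plane`.
PROOF of st_mult. Choose P' a subset of P of representatives of the classes of proportional vectors
(e.g. image of P under a function r with r p in P, r p = c p, r p = r p' if p, p' are proportional; all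
vectors are nonzero so proportionality is an equivalence relation), L' in the same way. The map
(p,l) to (r p, r' l) sends incidences to incidences of P', L', and has fibres of size at most μ ν.
-/

namespace Pool.Agent.Lib.SqPart

open Finset

theorem a4_avoid {E : Type} [AddCommGroup E] [Module ℚ E] (S : Finset (Submodule ℚ E))
    (h : ∀ p ∈ S, p ≠ ⊤) : ∃ x : E, ∀ p ∈ S, x ∉ p := by
  have h1 : (⊤ : Submodule ℚ E) ∉ S := fun h2 => h _ h2 rfl
  have h2 := Subspace.biUnion_ne_univ_of_top_notMem h1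
  by_contra hno
  push Not at hno
  apply h2
  ext x
  simp only [Set.mem_iUnion, SetLike.mem_coe, Set.mem_univ, iff_true]
  obtain ⟨p, hp, hx⟩ := hno x
  exact ⟨p, hp, hx⟩

open Classical in
/-- the coordinate system -/
theorem a4_coord {V : Type} [AddCommGroup V] [Module ℚ V] (hV : Module.finrank ℚ V = 3)
    (P : Finset V) (L : Finset (V →ₗ[ℚ] ℚ)) (hPne : P.Nonempty) (hP0 : ∀ p ∈ P, p ≠ 0)
    (hL0 : ∀ l ∈ L, l ≠ 0) :
    ∃ (e : V) (f0 f1 f2 : V →ₗ[ℚ] ℚ), (∀ l ∈ L, l e ≠ 0) ∧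
      (∀ p ∈ P, ∀ p' ∈ P, e ∉ Submodule.span ℚ {p, p'}) ∧ (∀ p ∈ P, f0 p ≠ 0) ∧ f2 e = 1 ∧
      (∀ x : V, f0 x = 0 → f1 x = 0 → ∃ c : ℚ, x = c • e) ∧
      (∀ l : V →ₗ[ℚ] ℚ, ∃ α β : ℚ, l = α • f0 + β • f1 + l e • f2) ∧ f0 e = 0 ∧ f1 e = 0 := by
  have : FiniteDimensional ℚ V := FiniteDimensional.of_finrank_pos (by rw [hV]; norm_num)
  -- the vector `e`
  obtain ⟨e, he⟩ := a4_avoid ((L.image (fun l => LinearMap.ker l)) ∪
    ((P ×ˢ P).image (fun x => Submodule.span ℚ {x.1, x.2}))) (by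
      intro q hq
      rcases Finset.mem_union.1 hq with hq | hq
      · obtain ⟨l, hl, rfl⟩ := Finset.mem_image.1 hq
        intro h
        exact hL0 l hl (LinearMap.ker_eq_top.1 h)
      · obtain ⟨x, _, rfl⟩ := Finset.mem_image.1 hq
        intro h
        have h1 : Module.finrank ℚ (Submodule.span ℚ {x.1, x.2}) ≤ ({x.1, x.2} : Finset V).card := by
          have h2 := finrank_span_finset_le_card (R := ℚ) ({x.1, x.2} : Finset V)
          have h3 : (({x.1, x.2} : Finset V) : Set V) = {x.1, x.2} := by simp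
          rw [h3] at h2
          exact h2
        rw [h, finrank_top, hV] at h1
        have h2 := Finset.card_le_two (a := x.1) (b := x.2)
        omega)
  have heL : ∀ l ∈ L, l e ≠ 0 := by
    intro l hl h
    exact he (LinearMap.ker l) (Finset.mem_union_left _ (Finset.mem_image_of_mem _ hl)) h
  have heP : ∀ p ∈ P, ∀ p' ∈ P, e ∉ Submodule.span ℚ {p, p'} := by
    intro p hp p' hp'
    exact he _ (Finset.mem_union_right _ (Finset.mem_image.2
      ⟨(p, p'), Finset.mem_product.2 ⟨hp, hp'⟩, rfl⟩))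
  have hene : e ≠ 0 := by
    obtain ⟨p, hp⟩ := hPne
    intro h
    exact heP p hp p hp (h ▸ Submodule.zero_mem _)
  -- the functionals which vanish at `e`
  set W : Submodule ℚ (Module.Dual ℚ V) := (Submodule.span ℚ {e}).dualAnnihilator with hW
  have hWmem : ∀ f : Module.Dual ℚ V, f ∈ W ↔ f e = 0 := by
    intro f
    rw [hW, Submodule.mem_dualAnnihilator]
    constructor
    · intro h
      exact h e (Submodule.mem_span_singleton_self e)
    · intro h w hw
      obtain ⟨c, rfl⟩ := Submodule.mem_span_singleton.1 hw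
      rw [map_smul, h, smul_zero]
  have hWdim : Module.finrank ℚ W = 2 := by
    have h1 := Subspace.finrank_add_finrank_dualAnnihilator_eq (Submodule.span ℚ {e})
    rw [finrank_span_singleton hene, hV] at h1
    have h2 : Module.finrank ℚ ((Submodule.span ℚ {e}).dualAnnihilator) = 2 := by omega
    exact h2
  have hWfin : FiniteDimensional ℚ W := FiniteDimensional.of_finrank_pos (by rw [hWdim]; norm_num)
  obtain ⟨F0, hF0⟩ := a4_avoid (P.image (fun p =>
      LinearMap.ker ((Module.Dual.eval ℚ V p).comp W.subtype))) (by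
    intro q hq
    obtain ⟨p, hp, rfl⟩ := Finset.mem_image.1 hq
    intro h
    have hpe : p ∉ Submodule.span ℚ {e} := by
      intro h1
      obtain ⟨c, hc⟩ := Submodule.mem_span_singleton.1 h1
      have hc0 : c ≠ 0 := by
        rintro rfl
        exact hP0 p hp (by rw [← hc, zero_smul])
      apply heP p hp p hp
      have h2 : e = c⁻¹ • p := by rw [← hc, smul_smul, inv_mul_cancel₀ hc0, one_smul]
      rw [h2]
      exact Submodule.smul_mem _ _ (Submodule.subset_span (by simp))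
    obtain ⟨f, hf1, hf2⟩ := Submodule.exists_le_ker_of_notMem hpe
    have hfW : f ∈ W := (hWmem f).2 (hf2 (Submodule.mem_span_singleton_self e))
    have h3 : (⟨f, hfW⟩ : W) ∈ LinearMap.ker ((Module.Dual.eval ℚ V p).comp W.subtype) := by
      rw [h]; trivial
    exact hf1 h3)
  have hF0P : ∀ p ∈ P, (F0 : Module.Dual ℚ V) p ≠ 0 := by
    intro p hp h
    exact hF0 _ (Finset.mem_image_of_mem _ hp) h
  have hF0ne : (F0 : Module.Dual ℚ V) ≠ 0 := by
    obtain ⟨p, hp⟩ := hPne
    intro h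
    apply hF0P p hp
    rw [h]; rfl
  obtain ⟨F1, hF1W, hF1⟩ : ∃ F1 ∈ W, F1 ∉ Submodule.span ℚ {(F0 : Module.Dual ℚ V)} := by
    by_contra hno
    push Not at hno
    have h1 : W ≤ Submodule.span ℚ {(F0 : Module.Dual ℚ V)} := hno
    have h2 := Submodule.finrank_mono h1
    rw [hWdim, finrank_span_singleton hF0ne] at h2
    omega
  have hli : LinearIndependent ℚ ![F1, (F0 : Module.Dual ℚ V)] := by
    rw [linearIndependent_fin2]
    refine ⟨hF0ne, fun a ha => ?_⟩
    apply hF1
    rw [Submodule.mem_span_singleton]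
    exact ⟨a, ha⟩
  have hspan : Submodule.span ℚ {F1, (F0 : Module.Dual ℚ V)} = W := by
    apply Submodule.eq_of_le_of_finrank_le
    · rw [Submodule.span_le]
      rintro f (rfl | rfl)
      · exact hF1W
      · exact F0.2
    · have h1 := finrank_span_eq_card hli
      have h2 : Set.range ![F1, (F0 : Module.Dual ℚ V)] = {F1, (F0 : Module.Dual ℚ V)} := by
        simp [Matrix.range_cons, Matrix.range_empty, Set.pair_comm]
      rw [h2] at h1
      rw [h1, hWdim]
      simp
  obtain ⟨φ, hφ⟩ : ∃ φ : Module.Dual ℚ V, φ e ≠ 0 := by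
    by_contra hno
    push Not at hno
    exact hene ((Module.forall_dual_apply_eq_zero_iff ℚ e).1 hno)
  refine ⟨e, F0, F1, (φ e)⁻¹ • φ, heL, heP, hF0P, ?_, ?_, ?_, (hWmem _).1 F0.2, (hWmem _).1 hF1W⟩
  · rw [LinearMap.smul_apply, smul_eq_mul, inv_mul_cancel₀ hφ]
  · intro x h0 h1
    have h2 : x ∈ Submodule.span ℚ {e} := by
      rw [← Subspace.forall_mem_dualAnnihilator_apply_eq_zero_iff]
      intro ψ hψ
      have h3 : ψ ∈ Submodule.span ℚ {F1, (F0 : Module.Dual ℚ V)} := by rw [hspan]; exact hψ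
      obtain ⟨a, b, hab⟩ := Submodule.mem_span_pair.1 h3
      rw [← hab, LinearMap.add_apply, LinearMap.smul_apply, LinearMap.smul_apply, h0, h1]
      simp
    obtain ⟨c, hc⟩ := Submodule.mem_span_singleton.1 h2
    exact ⟨c, hc.symm⟩
  · intro l
    have h1 : l - l e • ((φ e)⁻¹ • φ) ∈ W := by
      rw [hWmem, LinearMap.sub_apply, LinearMap.smul_apply, LinearMap.smul_apply]
      simp only [smul_eq_mul]
      rw [inv_mul_cancel₀ hφ, mul_one, sub_self]
    rw [← hspan] at h1
    obtain ⟨a, b, hab⟩ := Submodule.mem_span_pair.1 h1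
    refine ⟨b, a, ?_⟩
    have h2 : l = (a • F1 + b • (F0 : Module.Dual ℚ V)) + l e • ((φ e)⁻¹ • φ) := by
      rw [hab]; abel
    rw [add_comm (b • (F0 : Module.Dual ℚ V))]
    exact h2

open Classical in
theorem st_hom {V : Type} [AddCommGroup V] [Module ℚ V] (hV : Module.finrank ℚ V = 3)
    (P : Finset V) (L : Finset (V →ₗ[ℚ] ℚ)) (hP0 : ∀ p ∈ P, p ≠ 0) (hL0 : ∀ l ∈ L, l ≠ 0)
    (hP : ∀ p ∈ P, ∀ p' ∈ P, ∀ c : ℚ, p' = c • p → p' = p)
    (hL : ∀ l ∈ L, ∀ l' ∈ L, ∀ c : ℚ, l' = c • l → l' = l) :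
    (((P ×ˢ L).filter (fun x => x.2 x.1 = 0)).card : ℝ) ≤
      6 * (((P.card : ℝ) * (L.card : ℝ)) ^ (2 / 3 : ℝ) + (P.card : ℝ) + (L.card : ℝ)) := by
  rcases P.eq_empty_or_nonempty with hPe | hPne
  · subst hPe
    simp only [Finset.empty_product, Finset.filter_empty, Finset.card_empty, Nat.cast_zero]
    positivity
  obtain ⟨e, f0, f1, f2, heL, heP, hf0, hf2, hker, hrep, hf0e, hf1e⟩ := a4_coord hV P L hPne hP0 hL0
  choose α β hαβ using hrep
  set φ : V → ℝ × ℝ := fun p => (((f1 p / f0 p : ℚ) : ℝ), ((f2 p / f0 p : ℚ) : ℝ)) with hφ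
  set ψ : (V →ₗ[ℚ] ℚ) → ℝ × ℝ := fun l => (((-β l / l e : ℚ) : ℝ), ((-α l / l e : ℚ) : ℝ)) with hψ
  have hφ1 : ∀ p ∈ P, ∀ p' ∈ P, (φ p).1 = (φ p').1 → p = p' := by
    intro p hp p' hp' h
    have h0 : ((f1 p / f0 p : ℚ) : ℝ) = ((f1 p' / f0 p' : ℚ) : ℝ) := h
    have h1 : f1 p / f0 p = f1 p' / f0 p' := by exact_mod_cast h0
    rw [div_eq_div_iff (hf0 p hp) (hf0 p' hp')] at h1
    obtain ⟨c, hc⟩ := hker (f0 p' • p - f0 p • p') (by
      rw [map_sub, map_smul, map_smul, smul_eq_mul, smul_eq_mul]; ring) (by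
      rw [map_sub, map_smul, map_smul, smul_eq_mul, smul_eq_mul]; linarith)
    have hc0 : c = 0 := by
      by_contra hc0
      apply heP p hp p' hp'
      have h2 : e = c⁻¹ • (f0 p' • p - f0 p • p') := by
        rw [hc, smul_smul, inv_mul_cancel₀ hc0, one_smul]
      rw [h2]
      refine Submodule.smul_mem _ _ (Submodule.sub_mem _ ?_ ?_)
      · exact Submodule.smul_mem _ _ (Submodule.subset_span (by simp))
      · exact Submodule.smul_mem _ _ (Submodule.subset_span (by simp))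
    rw [hc0, zero_smul, sub_eq_zero] at hc
    have h3 : p' = (f0 p' / f0 p) • p := by
      have h4 : (f0 p)⁻¹ • (f0 p' • p) = (f0 p)⁻¹ • (f0 p • p') := by rw [hc]
      rw [smul_smul, smul_smul, inv_mul_cancel₀ (hf0 p hp), one_smul] at h4
      calc p' = ((f0 p)⁻¹ * f0 p') • p := h4.symm
        _ = (f0 p' / f0 p) • p := by congr 1; ring
    exact (hP p hp p' hp' _ h3).symm
  have hφinj : Set.InjOn φ (P : Set V) := by
    intro p hp p' hp' h
    exact hφ1 p hp p' hp' (congrArg Prod.fst h)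
  have hψinj : Set.InjOn ψ (L : Set (V →ₗ[ℚ] ℚ)) := by
    intro l hl l' hl' h
    have h1' : ((-β l / l e : ℚ) : ℝ) = ((-β l' / l' e : ℚ) : ℝ) := congrArg Prod.fst h
    have h2' : ((-α l / l e : ℚ) : ℝ) = ((-α l' / l' e : ℚ) : ℝ) := congrArg Prod.snd h
    have h1 : -β l / l e = -β l' / l' e := by exact_mod_cast h1'
    have h2 : -α l / l e = -α l' / l' e := by exact_mod_cast h2'
    have he1 := heL l hl
    have he2 := heL l' hl'
    have h3 : l' = (l' e / l e) • l := by
      have hl1 := hαβ l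
      have hl2 := hαβ l'
      ext x
      have h4 := congrArg (fun g => g x) hl1
      have h5 := congrArg (fun g => g x) hl2
      simp only [LinearMap.add_apply, LinearMap.smul_apply, smul_eq_mul] at h4 h5
      rw [LinearMap.smul_apply, smul_eq_mul, h4]
      rw [h5]
      rw [div_eq_div_iff he1 he2] at h1 h2
      have h6 : α l' * l e = α l * l' e := by linarith
      have h7 : β l' * l e = β l * l' e := by linarith
      field_simp
      linear_combination (f0 x) * h6 + (f1 x) * h7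
    exact (hL l hl l' hl' _ h3).symm
  have hcardP : (P.image φ).card = P.card := Finset.card_image_of_injOn hφinj
  have hcardL : (L.image ψ).card = L.card := Finset.card_image_of_injOn hψinj
  have hmain := st_plane (P.image φ) (by
    intro v hv w hw hvw
    obtain ⟨p, hp, rfl⟩ := Finset.mem_image.1 hv
    obtain ⟨p', hp', rfl⟩ := Finset.mem_image.1 hw
    rw [hφ1 p hp p' hp' hvw]) (L.image ψ)
  rw [hcardP, hcardL] at hmain
  have hcard : ((P ×ˢ L).filter (fun x => x.2 x.1 = 0)).card ≤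
      (((P.image φ) ×ˢ (L.image ψ)).filter (fun x => x.1.2 = x.2.1 * x.1.1 + x.2.2)).card := by
    refine Finset.card_le_card_of_injOn (fun x => (φ x.1, ψ x.2)) ?_ ?_
    · rintro ⟨p, l⟩ hx
      obtain ⟨hx1, hx2⟩ := Finset.mem_filter.1 (Finset.mem_coe.1 hx)
      obtain ⟨hp, hl⟩ := Finset.mem_product.1 hx1
      refine Finset.mem_coe.2 (Finset.mem_filter.2 ⟨Finset.mem_product.2
        ⟨Finset.mem_image_of_mem _ hp, Finset.mem_image_of_mem _ hl⟩, ?_⟩)
      have hp' : f0 p ≠ 0 := hf0 p hp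
      have hl' : l e ≠ 0 := heL l hl
      have h1 := congrArg (fun g => g p) (hαβ l)
      simp only [LinearMap.add_apply, LinearMap.smul_apply, smul_eq_mul] at h1
      have h2 : l p = 0 := hx2
      rw [h2] at h1
      have h3 : f2 p / f0 p = -β l / l e * (f1 p / f0 p) + -α l / l e := by
        field_simp
        linarith
      have h4 : ((f2 p / f0 p : ℚ) : ℝ) =
          ((-β l / l e : ℚ) : ℝ) * ((f1 p / f0 p : ℚ) : ℝ) + ((-α l / l e : ℚ) : ℝ) := by
        exact_mod_cast h3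
      exact h4
    · rintro ⟨p, l⟩ hx ⟨p', l'⟩ hx' h
      obtain ⟨hp, hl⟩ := Finset.mem_product.1 (Finset.mem_filter.1 (Finset.mem_coe.1 hx)).1
      obtain ⟨hp', hl'⟩ := Finset.mem_product.1 (Finset.mem_filter.1 (Finset.mem_coe.1 hx')).1
      have h1 : φ p = φ p' := congrArg Prod.fst h
      have h2 : ψ l = ψ l' := congrArg Prod.snd h
      exact Prod.ext (hφinj hp hp' h1) (hψinj hl hl' h2)
  have hcardR : (((P ×ˢ L).filter (fun x => x.2 x.1 = 0)).card : ℝ) ≤
      ((((P.image φ) ×ˢ (L.image ψ)).filter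
        (fun x => x.1.2 = x.2.1 * x.1.1 + x.2.2)).card : ℝ) := by exact_mod_cast hcard
  have h0 : (0 : ℝ) ≤ ((P.card : ℝ) * (L.card : ℝ)) ^ (2 / 3 : ℝ) :=
    Real.rpow_nonneg (mul_nonneg (Nat.cast_nonneg _) (Nat.cast_nonneg _)) _
  have h0' : (0 : ℝ) ≤ (L.card : ℝ) := Nat.cast_nonneg _
  linarith

open Classical in
/-- representatives of the classes of proportional vectors -/
theorem a4_rep {M : Type} [AddCommGroup M] [Module ℚ M] (P : Finset M) (hP0 : ∀ p ∈ P, p ≠ 0)
    (μ : ℕ) (hP : ∀ p ∈ P, (P.filter (fun p' => ∃ c : ℚ, p' = c • p)).card ≤ μ) :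
    ∃ r : M → M, (∀ p ∈ P, r p ∈ P) ∧ (∀ p ∈ P, ∃ c : ℚ, c ≠ 0 ∧ r p = c • p) ∧
      (∀ p ∈ P, ∀ p' ∈ P, ∀ c : ℚ, r p' = c • r p → r p' = r p) ∧
      ∀ q ∈ P, (P.filter (fun p => r p = q)).card ≤ μ := by
  set cls : M → Finset M := fun p => P.filter (fun p' => ∃ c : ℚ, p' = c • p) with hcls
  set g : Finset M → M := fun s => if h : s.Nonempty then h.choose else 0 with hg
  have hgm : ∀ s : Finset M, s.Nonempty → g s ∈ s := by
    intro s hs
    rw [hg]
    simp only
    rw [dif_pos hs]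
    exact hs.choose_spec
  have hself : ∀ p ∈ P, (cls p).Nonempty := fun p hp =>
    ⟨p, Finset.mem_filter.2 ⟨hp, 1, (one_smul ℚ p).symm⟩⟩
  have hrm : ∀ p ∈ P, g (cls p) ∈ cls p := fun p hp => hgm _ (hself p hp)
  have hne : ∀ p ∈ P, ∀ p' ∈ P, ∀ c : ℚ, p' = c • p → c ≠ 0 := by
    intro p _ p' hp' c hc
    rintro rfl
    exact hP0 p' hp' (by rw [hc, zero_smul])
  have hclseq : ∀ p p' : M, ∀ c : ℚ, c ≠ 0 → p' = c • p → cls p' = cls p := by
    intro p p' c hc hpp
    rw [hcls]
    ext q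
    simp only [Finset.mem_filter]
    constructor
    · rintro ⟨hq, d, hd⟩
      exact ⟨hq, d * c, by rw [hd, hpp, smul_smul]⟩
    · rintro ⟨hq, d, hd⟩
      refine ⟨hq, d * c⁻¹, ?_⟩
      rw [hd, hpp, smul_smul, mul_assoc, inv_mul_cancel₀ hc, mul_one]
  have hrep : ∀ p ∈ P, ∃ c : ℚ, c ≠ 0 ∧ g (cls p) = c • p := by
    intro p hp
    obtain ⟨h1, c, hc⟩ := Finset.mem_filter.1 (hrm p hp)
    exact ⟨c, hne p hp _ h1 c hc, hc⟩
  refine ⟨fun p => g (cls p), fun p hp => (Finset.mem_filter.1 (hrm p hp)).1, hrep, ?_, ?_⟩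
  · intro p hp p' hp' c hc
    simp only at hc ⊢
    obtain ⟨a, ha, ha'⟩ := hrep p hp
    obtain ⟨b, hb, hb'⟩ := hrep p' hp'
    have h1 : p' = (b⁻¹ * (c * a)) • p := by
      have h2 : b • p' = (c * a) • p := by rw [← hb', hc, ha', smul_smul]
      rw [← smul_smul, ← h2, smul_smul, inv_mul_cancel₀ hb, one_smul]
    have h2 := hclseq p p' _ (hne p hp p' hp' _ h1) h1
    rw [h2]
  · intro q hq
    refine (Finset.card_le_card ?_).trans (hP q hq)
    intro p hp
    obtain ⟨hp1, hp2⟩ := Finset.mem_filter.1 hp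
    obtain ⟨c, hc, hc'⟩ := hrep p hp1
    refine Finset.mem_filter.2 ⟨hp1, c⁻¹, ?_⟩
    have h3 : g (cls p) = q := hp2
    rw [← h3, hc', smul_smul, inv_mul_cancel₀ hc, one_smul]

open Classical in
theorem st_mult {V : Type} [AddCommGroup V] [Module ℚ V] (hV : Module.finrank ℚ V = 3)
    (P : Finset V) (L : Finset (V →ₗ[ℚ] ℚ)) (hP0 : ∀ p ∈ P, p ≠ 0) (hL0 : ∀ l ∈ L, l ≠ 0)
    (μ ν : ℕ) (hP : ∀ p ∈ P, (P.filter (fun p' => ∃ c : ℚ, p' = c • p)).card ≤ μ)
    (hL : ∀ l ∈ L, (L.filter (fun l' => ∃ c : ℚ, l' = c • l)).card ≤ ν) :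
    (((P ×ˢ L).filter (fun x => x.2 x.1 = 0)).card : ℝ) ≤
      6 * μ * ν * (((P.card : ℝ) * (L.card : ℝ)) ^ (2 / 3 : ℝ) + (P.card : ℝ) + (L.card : ℝ)) := by
  obtain ⟨r, hr1, hr2, hr3, hr4⟩ := a4_rep P hP0 μ hP
  obtain ⟨r', hr1', hr2', hr3', hr4'⟩ := a4_rep L hL0 ν hL
  have hsubP : P.image r ⊆ P := by
    intro x hx
    obtain ⟨p, hp, rfl⟩ := Finset.mem_image.1 hx
    exact hr1 p hp
  have hsubL : L.image r' ⊆ L := by
    intro x hx
    obtain ⟨p, hp, rfl⟩ := Finset.mem_image.1 hx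
    exact hr1' p hp
  have hmain := st_hom hV (P.image r) (L.image r') (fun p hp => hP0 p (hsubP hp))
    (fun l hl => hL0 l (hsubL hl)) (by
      intro p hp p' hp' c hc
      obtain ⟨x, hx, rfl⟩ := Finset.mem_image.1 hp
      obtain ⟨x', hx', rfl⟩ := Finset.mem_image.1 hp'
      exact hr3 x hx x' hx' c hc) (by
      intro p hp p' hp' c hc
      obtain ⟨x, hx, rfl⟩ := Finset.mem_image.1 hp
      obtain ⟨x', hx', rfl⟩ := Finset.mem_image.1 hp'
      exact hr3' x hx x' hx' c hc)
  have hcount : ((P ×ˢ L).filter (fun x => x.2 x.1 = 0)).card ≤ μ * ν *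
      (((P.image r) ×ˢ (L.image r')).filter (fun x => x.2 x.1 = 0)).card := by
    refine Finset.card_le_mul_card_image_of_maps_to (f := fun x : V × (V →ₗ[ℚ] ℚ) => (r x.1, r' x.2))
      ?_ (μ * ν) ?_
    · rintro ⟨p, l⟩ hx
      obtain ⟨hx1, hx2⟩ := Finset.mem_filter.1 hx
      obtain ⟨hp, hl⟩ := Finset.mem_product.1 hx1
      refine Finset.mem_filter.2 ⟨Finset.mem_product.2
        ⟨Finset.mem_image_of_mem _ hp, Finset.mem_image_of_mem _ hl⟩, ?_⟩
      obtain ⟨c, _, hc⟩ := hr2 p hp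
      obtain ⟨d, _, hd⟩ := hr2' l hl
      have h1 : l p = 0 := hx2
      have h2 : (r' l) (r p) = 0 := by
        rw [hc, hd, LinearMap.smul_apply, map_smul, h1, smul_zero, smul_zero]
      exact h2
    · rintro ⟨q, k⟩ hx
      obtain ⟨hq, hk⟩ := Finset.mem_product.1 (Finset.mem_filter.1 hx).1
      have hsub : ((P ×ˢ L).filter (fun x => x.2 x.1 = 0)).filter
          (fun a => (r a.1, r' a.2) = (q, k)) ⊆
          (P.filter (fun p => r p = q)) ×ˢ (L.filter (fun l => r' l = k)) := by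
        rintro ⟨p, l⟩ hx
        obtain ⟨hx1, hx2⟩ := Finset.mem_filter.1 hx
        obtain ⟨hp, hl⟩ := Finset.mem_product.1 (Finset.mem_filter.1 hx1).1
        have h1 : r p = q := congrArg Prod.fst hx2
        have h2 : r' l = k := congrArg Prod.snd hx2
        exact Finset.mem_product.2 ⟨Finset.mem_filter.2 ⟨hp, h1⟩, Finset.mem_filter.2 ⟨hl, h2⟩⟩
      refine (Finset.card_le_card hsub).trans ?_
      rw [Finset.card_product]
      exact Nat.mul_le_mul (hr4 q (hsubP hq)) (hr4' k (hsubL hk))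
  have hcountR : (((P ×ˢ L).filter (fun x => x.2 x.1 = 0)).card : ℝ) ≤ μ * ν *
      ((((P.image r) ×ˢ (L.image r')).filter (fun x => x.2 x.1 = 0)).card : ℝ) := by
    exact_mod_cast hcount
  have hcP : ((P.image r).card : ℝ) ≤ P.card := by exact_mod_cast Finset.card_image_le
  have hcL : ((L.image r').card : ℝ) ≤ L.card := by exact_mod_cast Finset.card_image_le
  have hpow : (((P.image r).card : ℝ) * ((L.image r').card : ℝ)) ^ (2 / 3 : ℝ) ≤
      ((P.card : ℝ) * (L.card : ℝ)) ^ (2 / 3 : ℝ) := by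
    refine Real.rpow_le_rpow (by positivity) ?_ (by norm_num)
    exact mul_le_mul hcP hcL (by positivity) (by positivity)
  calc (((P ×ˢ L).filter (fun x => x.2 x.1 = 0)).card : ℝ) ≤ μ * ν *
      ((((P.image r) ×ˢ (L.image r')).filter (fun x => x.2 x.1 = 0)).card : ℝ) := hcountR
    _ ≤ μ * ν * (6 * (((P.card : ℝ) * (L.card : ℝ)) ^ (2 / 3 : ℝ) + (P.card : ℝ) +
        (L.card : ℝ))) := by
        refine mul_le_mul_of_nonneg_left ?_ (by positivity)
        linarith
    _ = 6 * μ * ν * (((P.card : ℝ) * (L.card : ℝ)) ^ (2 / 3 : ℝ) + (P.card : ℝ) +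
        (L.card : ℝ)) := by ring

end Pool.Agent.Lib.SqPart
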