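import Mathlib

set_option autoImplicit false

/-!
Straight-line graphs in the plane.
-/

namespace Pool.Agent.Lib.SqPart

/-- height of the segment `e` at abscissa `x` -/
noncomputable def ev (e : (ℝ × ℝ) × (ℝ × ℝ)) (x : ℝ) : ℝ :=
  e.1.2 + (e.2.2 - e.1.2) * (x - e.1.1) / (e.2.1 - e.1.1)

/-- a straight-line graph: distinct abscissas, edges go from left to right, no vertex inside an
edge -/
structure GoodG (V : Finset (ℝ × ℝ)) (E : Finset ((ℝ × ℝ) × (ℝ × ℝ))) : Prop where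
  inj : ∀ v ∈ V, ∀ w ∈ V, v.1 = w.1 → v = w
  mem : ∀ e ∈ E, e.1 ∈ V ∧ e.2 ∈ V ∧ e.1.1 < e.2.1
  novert : ∀ e ∈ E, ∀ w ∈ V, e.1.1 < w.1 → w.1 < e.2.1 → w.2 ≠ ev e w.1

/-- the segments cross -/
def Cross (e f : (ℝ × ℝ) × (ℝ × ℝ)) : Prop :=
  ∃ x x' : ℝ, e.1.1 ≤ x ∧ x ≤ e.2.1 ∧ f.1.1 ≤ x ∧ x ≤ f.2.1 ∧
    e.1.1 ≤ x' ∧ x' ≤ e.2.1 ∧ f.1.1 ≤ x' ∧ x' ≤ f.2.1 ∧ ev e x < ev f x ∧ ev f x' < ev e x'

end Pool.Agent.Lib.SqPart
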