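import Pool.Agent.Lib.MP_d8bd92_nt.SqL1

set_option autoImplicit false

/-!
A lower bound for the number of all semistable curves: the curves `y² + x y = x³ + u x + v` with
`1 ≤ u ≤ U`, `1 ≤ v ≤ V` and `48 u - 1`, `1728 v - 1` coprime.
-/

namespace Pool.Agent.Lib.SqPart

open Finset Pool.Agent.Lib.Szpiro

/-- number of members of a progression -/
theorem all_prog (M B q : ℕ) (hM : 1 ≤ M) :
    ((Icc 1 B).filter (fun i => q ∣ M * i - 1)).card ≤ B / q + 1 := by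
  rcases Nat.eq_zero_or_pos q with rfl | hq
  · have : ((Icc 1 B).filter (fun i => 0 ∣ M * i - 1)).card ≤ 1 := by
      rw [Finset.card_le_one]
      intro i hi j hj
      simp only [Finset.mem_filter, Finset.mem_Icc, zero_dvd_iff] at hi hj
      have h1 : 1 ≤ M * i := Nat.mul_pos hM hi.1.1
      have h2 : 1 ≤ M * j := Nat.mul_pos hM hj.1.1
      have h3 : M * i = M * j := by omega
      exact Nat.eq_of_mul_eq_mul_left (by omega) h3
    omega
  rw [← Finset.card_range (B / q + 1)]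
  apply Finset.card_le_card_of_injOn (fun i => i / q)
  · intro i hi
    rw [Finset.mem_coe, Finset.mem_filter, Finset.mem_Icc] at hi
    rw [Finset.mem_coe, Finset.mem_range, Nat.lt_succ_iff]
    exact Nat.div_le_div_right hi.1.2
  · intro i hi j hj hij
    rw [Finset.mem_coe, Finset.mem_filter, Finset.mem_Icc] at hi hj
    simp only at hij
    have hi1 : 1 ≤ M * i := Nat.mul_pos hM hi.1.1
    have hj1 : 1 ≤ M * j := Nat.mul_pos hM hj.1.1
    have a1 : (q : ℤ) ∣ (M : ℤ) * i - 1 := by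
      have : (q : ℤ) ∣ ((M * i - 1 : ℕ) : ℤ) := by exact_mod_cast hi.2
      rwa [Nat.cast_sub hi1, Nat.cast_mul, Nat.cast_one] at this
    have a2 : (q : ℤ) ∣ (M : ℤ) * j - 1 := by
      have : (q : ℤ) ∣ ((M * j - 1 : ℕ) : ℤ) := by exact_mod_cast hj.2
      rwa [Nat.cast_sub hj1, Nat.cast_mul, Nat.cast_one] at this
    have hcop : IsCoprime (q : ℤ) (M : ℤ) := by
      obtain ⟨k, hk⟩ := a1
      exact ⟨-k, i, by linarith⟩
    have h1 : (q : ℤ) ∣ (M : ℤ) * ((i : ℤ) - j) := by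
      have a3 := dvd_sub a1 a2
      have a4 : ((M : ℤ) * i - 1) - ((M : ℤ) * j - 1) = (M : ℤ) * ((i : ℤ) - j) := by ring
      rwa [a4] at a3
    have h2 : (q : ℤ) ∣ (i : ℤ) - j := hcop.dvd_of_dvd_mul_left h1
    have h3 : i % q = j % q := by
      have : (i : ℤ) ≡ j [ZMOD q] := by
        rw [Int.modEq_iff_dvd]
        have := (dvd_neg (a := (q : ℤ))).2 h2
        rwa [neg_sub] at this
      exact (Int.natCast_modEq_iff.1 this)
    rw [← Nat.div_add_mod i q, ← Nat.div_add_mod j q, hij, h3]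

theorem all_sum2 (n : ℕ) : ∑ q ∈ Icc 5 n, (1 / (q : ℝ) ^ 2) ≤ 2 / 9 := by
  have key : ∀ n : ℕ, 4 ≤ n → ∑ q ∈ Icc 5 n, (1 / (q : ℝ) ^ 2) ≤ 2 / 9 - 1 / ((n : ℝ) + 1 / 2) := by
    intro n hn
    induction n, hn using Nat.le_induction with
    | base => norm_num
    | succ m hm ih =>
      rw [← Finset.insert_Icc_right_eq_Icc_add_one (by omega), Finset.sum_insert (by simp)]
      have h1 : 1 / (((m + 1 : ℕ) : ℝ)) ^ 2 ≤ 1 / ((m : ℝ) + 1 / 2) - 1 / (((m + 1 : ℕ) : ℝ) + 1 / 2) := by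
        push_cast
        have hm0 : (0 : ℝ) ≤ m := Nat.cast_nonneg _
        rw [div_sub_div _ _ (by positivity) (by positivity), div_le_div_iff₀ (by positivity)
          (by positivity)]
        nlinarith
      linarith
  rcases le_or_gt 4 n with h | h
  · have h1 := key n h
    have h2 : 0 ≤ 1 / ((n : ℝ) + 1 / 2) := by positivity
    linarith
  · rw [Finset.Icc_eq_empty (by omega)]
    norm_num

theorem all_sum1 (n : ℕ) : ∑ q ∈ Icc 5 n, (1 / (q : ℝ)) ≤ 1 + Real.log n := by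
  have h1 := harmonic_le_one_add_log n
  have h2 : ((harmonic n : ℚ) : ℝ) = ∑ q ∈ Icc 1 n, (1 / (q : ℝ)) := by
    rw [harmonic_eq_sum_Icc]
    push_cast
    simp [one_div]
  rw [h2] at h1
  refine le_trans ?_ h1
  apply Finset.sum_le_sum_of_subset_of_nonneg
  · exact Finset.Icc_subset_Icc (by norm_num) le_rfl
  · intro q _ _
    positivity

/-- the pairs -/
noncomputable def allG (U V : ℕ) : Finset (ℕ × ℕ) :=
  ((Icc 1 U) ×ˢ (Icc 1 V)).filter (fun p => Nat.Coprime (48 * p.1 - 1) (1728 * p.2 - 1))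

theorem all_count (U V : ℕ) (hU : 480 ≤ U) (hUV : U ≤ V) :
    (U : ℝ) * V * (2 / 5) ≤ ((allG U V).card : ℝ) := by
  classical
  set T := (Icc 1 U) ×ˢ (Icc 1 V) with hT
  set Bad := (Icc 5 (48 * U)).biUnion (fun q => ((Icc 1 U).filter (fun i => q ∣ 48 * i - 1)) ×ˢ
    ((Icc 1 V).filter (fun j => q ∣ 1728 * j - 1))) with hBad
  have hsub : T ⊆ allG U V ∪ Bad := by
    rintro ⟨i, j⟩ hp
    rw [hT, Finset.mem_product, Finset.mem_Icc, Finset.mem_Icc] at hp
    obtain ⟨hi, hj⟩ := hp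
    simp only at hi hj
    rw [Finset.mem_union]
    by_cases hc : Nat.Coprime (48 * i - 1) (1728 * j - 1)
    · left
      unfold allG
      rw [Finset.mem_filter, Finset.mem_product, Finset.mem_Icc, Finset.mem_Icc]
      exact ⟨⟨hi, hj⟩, hc⟩
    · right
      obtain ⟨q, hq, hq1, hq2⟩ := Nat.Prime.not_coprime_iff_dvd.1 hc
      rw [hBad, Finset.mem_biUnion]
      refine ⟨q, ?_, ?_⟩
      · rw [Finset.mem_Icc]
        have h2 : q ≠ 2 := by
          rintro rfl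
          omega
        have h3 : q ≠ 3 := by
          rintro rfl
          omega
        have h4 : q ≠ 4 := by
          rintro rfl
          exact absurd hq (by norm_num)
        have := hq.two_le
        have := Nat.le_of_dvd (by omega) hq1
        omega
      · rw [Finset.mem_product, Finset.mem_filter, Finset.mem_filter, Finset.mem_Icc,
          Finset.mem_Icc]
        exact ⟨⟨hi, hq1⟩, hj, hq2⟩
  have h1 : T.card ≤ (allG U V).card + Bad.card :=
    (Finset.card_le_card hsub).trans (Finset.card_union_le _ _)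
  have hTc : T.card = U * V := by
    rw [hT, Finset.card_product, Nat.card_Icc, Nat.card_Icc]
    simp
  have hUR : (480 : ℝ) ≤ U := by exact_mod_cast hU
  have hUVR : (U : ℝ) ≤ V := by exact_mod_cast hUV
  have hU0 : (0 : ℝ) < U := by linarith
  have hV0 : (0 : ℝ) < V := by linarith
  have h2 : (Bad.card : ℝ) ≤ (U : ℝ) * V * (2 / 9) + (U + V) * (1 + Real.log (48 * U)) +
      48 * U := by
    have e1 : Bad.card ≤ ∑ q ∈ Icc 5 (48 * U), (U / q + 1) * (V / q + 1) := by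
      refine Finset.card_biUnion_le.trans (Finset.sum_le_sum fun q hq => ?_)
      rw [Finset.card_product]
      exact Nat.mul_le_mul (all_prog 48 U q (by norm_num)) (all_prog 1728 V q (by norm_num))
    have e2 : ((∑ q ∈ Icc 5 (48 * U), (U / q + 1) * (V / q + 1) : ℕ) : ℝ) ≤
        ∑ q ∈ Icc 5 (48 * U), ((U : ℝ) * V * (1 / (q : ℝ) ^ 2) + (U + V) * (1 / (q : ℝ)) + 1) := by
      push_cast
      apply Finset.sum_le_sum
      intro q hq
      rw [Finset.mem_Icc] at hq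
      have hq0 : (0 : ℝ) < q := by
        have : 0 < q := by omega
        exact_mod_cast this
      have e3 : ((U / q : ℕ) : ℝ) ≤ (U : ℝ) / q := Nat.cast_div_le
      have e4 : ((V / q : ℕ) : ℝ) ≤ (V : ℝ) / q := Nat.cast_div_le
      have e5 : (0 : ℝ) ≤ ((U / q : ℕ) : ℝ) := Nat.cast_nonneg _
      have e6 : (0 : ℝ) ≤ ((V / q : ℕ) : ℝ) := Nat.cast_nonneg _
      calc (((U / q : ℕ) : ℝ) + 1) * (((V / q : ℕ) : ℝ) + 1)
          ≤ ((U : ℝ) / q + 1) * ((V : ℝ) / q + 1) := by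
            apply mul_le_mul (by linarith) (by linarith) (by linarith)
            have : (0 : ℝ) ≤ (U : ℝ) / q := by positivity
            linarith
        _ = (U : ℝ) * V * (1 / (q : ℝ) ^ 2) + (U + V) * (1 / (q : ℝ)) + 1 := by
            field_simp
            ring
    rw [Finset.sum_add_distrib, Finset.sum_add_distrib, ← Finset.mul_sum, ← Finset.mul_sum,
      Finset.sum_const, Nat.card_Icc, nsmul_eq_mul, mul_one] at e2
    have e6 : (Bad.card : ℝ) ≤ ((∑ q ∈ Icc 5 (48 * U), (U / q + 1) * (V / q + 1) : ℕ) : ℝ) := by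
      exact_mod_cast e1
    have e7 := mul_le_mul_of_nonneg_left (all_sum2 (48 * U))
      (by positivity : (0 : ℝ) ≤ (U : ℝ) * V)
    have e8 := mul_le_mul_of_nonneg_left (all_sum1 (48 * U))
      (by positivity : (0 : ℝ) ≤ (U : ℝ) + V)
    have e9 : ((48 * U + 1 - 5 : ℕ) : ℝ) ≤ 48 * U := by
      have : 48 * U + 1 - 5 ≤ 48 * U := by omega
      calc ((48 * U + 1 - 5 : ℕ) : ℝ) ≤ ((48 * U : ℕ) : ℝ) := by exact_mod_cast this
        _ = 48 * U := by push_cast; ring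
    have e10 : ((48 * U : ℕ) : ℝ) = 48 * U := by push_cast; ring
    rw [e10] at e8
    linarith
  have h4 : (U : ℝ) * V ≤ ((allG U V).card : ℝ) + (Bad.card : ℝ) := by
    have : ((T.card : ℕ) : ℝ) ≤ ((allG U V).card : ℝ) + (Bad.card : ℝ) := by exact_mod_cast h1
    rw [hTc] at this
    push_cast at this
    exact this
  have h5 : 1 + Real.log (48 * U) ≤ U / 20 + 7 := by
    have e1 : Real.log (48 * U) = Real.log (U / 20) + Real.log 960 := by
      rw [← Real.log_mul (by positivity) (by norm_num)]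
      congr 1
      ring
    have e2 : Real.log ((U : ℝ) / 20) ≤ U / 20 - 1 := Real.log_le_sub_one_of_pos (by positivity)
    have e3 : Real.log 960 ≤ 7 := by
      rw [Real.log_le_iff_le_exp (by norm_num)]
      have := Real.exp_one_gt_d9
      calc (960 : ℝ) ≤ 2.7 ^ 7 := by norm_num
        _ ≤ (Real.exp 1) ^ 7 := pow_le_pow_left₀ (by norm_num) (by linarith) 7
        _ = Real.exp 7 := by rw [← Real.exp_nat_mul]; norm_num
    linarith
  have h6 : 1 + Real.log (48 * U) ≤ U / 10 := by linarith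
  have h7 : (U + V : ℝ) * (1 + Real.log (48 * U)) ≤ U * V * (1 / 5) := by
    calc (U + V : ℝ) * (1 + Real.log (48 * U)) ≤ (2 * V) * (U / 10) := by
          apply mul_le_mul (by linarith) h6 _ (by positivity)
          have : 0 ≤ Real.log (48 * U) := Real.log_nonneg (by linarith)
          linarith
      _ = U * V * (1 / 5) := by ring
  have h8 : (48 : ℝ) * U ≤ U * V * (1 / 10) := by nlinarith
  nlinarith

/-- the curve of a pair -/
theorem all_curve (u v : ℕ) (hu : 1 ≤ u) (hv : 1 ≤ v)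
    (h : Nat.Coprime (48 * u - 1) (1728 * v - 1)) : ∃ W : WeierstrassCurve ℤ,
      ((1 - 48 * (u : ℤ), -1 + 72 * (u : ℤ) - 864 * (v : ℤ)) : ℤ × ℤ) = (W.c₄, W.c₆) ∧
      W.Δ ≠ 0 ∧ IsCoprime W.c₄ W.Δ ∧
      |W.Δ| ≤ 65 * (u : ℤ) ^ 3 + 433 * (v : ℤ) ^ 2 + 72 * (u : ℤ) * v := by
  refine ⟨⟨1, 0, 0, u, v⟩, ?_, ?_, ?_, ?_⟩
  · simp only [WeierstrassCurve.c₄, WeierstrassCurve.c₆, WeierstrassCurve.b₂, WeierstrassCurve.b₄,
      WeierstrassCurve.b₆]
    apply Prod.ext <;> simp only <;> ring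
  · have hb : (⟨1, 0, 0, u, v⟩ : WeierstrassCurve ℤ).Δ =
        (u : ℤ) ^ 2 - v - 64 * (u : ℤ) ^ 3 - 432 * (v : ℤ) ^ 2 + 72 * u * v := by
      simp only [WeierstrassCurve.Δ, WeierstrassCurve.b₂, WeierstrassCurve.b₄,
        WeierstrassCurve.b₆, WeierstrassCurve.b₈]
      ring
    rw [hb]
    have hu' : (1 : ℤ) ≤ u := by exact_mod_cast hu
    have hv' : (1 : ℤ) ≤ v := by exact_mod_cast hv
    intro h0
    have e1 : (1 - 48 * (u : ℤ)) ^ 3 - (-1 + 72 * (u : ℤ) - 864 * (v : ℤ)) ^ 2 = 0 := by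
      have : (1 - 48 * (u : ℤ)) ^ 3 - (-1 + 72 * (u : ℤ) - 864 * (v : ℤ)) ^ 2 =
        1728 * ((u : ℤ) ^ 2 - v - 64 * (u : ℤ) ^ 3 - 432 * (v : ℤ) ^ 2 + 72 * u * v) := by ring
      rw [this, h0]
      ring
    have e2 : (1 - 48 * (u : ℤ)) ^ 3 < 0 := Odd.pow_neg (by decide) (by linarith)
    have e3 := sq_nonneg (-1 + 72 * (u : ℤ) - 864 * (v : ℤ))
    linarith
  · have hb : (⟨1, 0, 0, u, v⟩ : WeierstrassCurve ℤ).Δ =
        (u : ℤ) ^ 2 - v - 64 * (u : ℤ) ^ 3 - 432 * (v : ℤ) ^ 2 + 72 * u * v := by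
      simp only [WeierstrassCurve.Δ, WeierstrassCurve.b₂, WeierstrassCurve.b₄,
        WeierstrassCurve.b₆, WeierstrassCurve.b₈]
      ring
    have hc : (⟨1, 0, 0, u, v⟩ : WeierstrassCurve ℤ).c₄ = 1 - 48 * (u : ℤ) := by
      simp only [WeierstrassCurve.c₄, WeierstrassCurve.b₂, WeierstrassCurve.b₄]
      ring
    rw [hb, hc, Int.isCoprime_iff_gcd_eq_one]
    by_contra hne
    obtain ⟨p, hp, hpd⟩ := Nat.exists_prime_and_dvd hne
    have hpd' : (p : ℤ) ∣ ((Int.gcd (1 - 48 * (u : ℤ)) ((u : ℤ) ^ 2 - v - 64 * (u : ℤ) ^ 3 -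
      432 * (v : ℤ) ^ 2 + 72 * u * v) : ℕ) : ℤ) := by exact_mod_cast hpd
    have h1 : (p : ℤ) ∣ 1 - 48 * (u : ℤ) := hpd'.trans (Int.gcd_dvd_left ..)
    have h2 := hpd'.trans (Int.gcd_dvd_right ..)
    have hpp : Prime (p : ℤ) := Nat.prime_iff_prime_int.mp hp
    have h3 : (p : ℤ) ∣ (-1 + 72 * (u : ℤ) - 864 * (v : ℤ)) ^ 2 := by
      have e1 : (-1 + 72 * (u : ℤ) - 864 * (v : ℤ)) ^ 2 = (1 - 48 * (u : ℤ)) ^ 3 -
        1728 * ((u : ℤ) ^ 2 - v - 64 * (u : ℤ) ^ 3 - 432 * (v : ℤ) ^ 2 + 72 * u * v) := by ring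
      rw [e1]
      exact dvd_sub (dvd_pow h1 (by norm_num)) (h2.mul_left _)
    have h4 := hpp.dvd_of_dvd_pow h3
    have h5 : (p : ℤ) ∣ 1728 * (v : ℤ) - 1 := by
      have e1 : 1728 * (v : ℤ) - 1 = -2 * (-1 + 72 * (u : ℤ) - 864 * (v : ℤ)) -
        3 * (1 - 48 * (u : ℤ)) := by ring
      rw [e1]
      exact dvd_sub (h4.mul_left _) (h1.mul_left _)
    have h6 : p ∣ 48 * u - 1 := by
      have : (p : ℤ) ∣ ((48 * u - 1 : ℕ) : ℤ) := by
        rw [Nat.cast_sub (by omega)]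
        push_cast
        have := (dvd_neg (a := (p : ℤ))).2 h1
        rwa [neg_sub] at this
      exact_mod_cast this
    have h7 : p ∣ 1728 * v - 1 := by
      have : (p : ℤ) ∣ ((1728 * v - 1 : ℕ) : ℤ) := by
        rw [Nat.cast_sub (by omega)]
        push_cast
        exact h5
      exact_mod_cast this
    exact Nat.Prime.not_coprime_iff_dvd.2 ⟨p, hp, h6, h7⟩ h
  · have hb : (⟨1, 0, 0, u, v⟩ : WeierstrassCurve ℤ).Δ =
        (u : ℤ) ^ 2 - v - 64 * (u : ℤ) ^ 3 - 432 * (v : ℤ) ^ 2 + 72 * u * v := by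
      simp only [WeierstrassCurve.Δ, WeierstrassCurve.b₂, WeierstrassCurve.b₄,
        WeierstrassCurve.b₆, WeierstrassCurve.b₈]
      ring
    rw [hb]
    have hu' : (1 : ℤ) ≤ u := by exact_mod_cast hu
    have hv' : (1 : ℤ) ≤ v := by exact_mod_cast hv
    have e1 : (u : ℤ) ^ 2 ≤ (u : ℤ) ^ 3 := pow_le_pow_right₀ hu' (by norm_num)
    have e2 : (v : ℤ) ≤ (v : ℤ) ^ 2 := by nlinarith
    have e3 : (0 : ℤ) ≤ (u : ℤ) * v := by positivity
    have e4 : (0 : ℤ) ≤ (u : ℤ) ^ 2 := by positivity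
    have e5 : (0 : ℤ) ≤ (u : ℤ) ^ 3 := by positivity
    have e6 : (0 : ℤ) ≤ (v : ℤ) ^ 2 := by positivity
    rw [abs_le]
    constructor
    · nlinarith
    · nlinarith

theorem sq_all_lower : ∃ c : ℝ, 0 < c ∧ ∀ κ : ℝ, 2 ≤ κ → ∀ Y : ℝ, 11 ≤ Y → ∃ S : Finset (ℤ × ℤ),
    c * Y ^ (5 / 6 : ℝ) ≤ (S.card : ℝ) ∧ ∀ w ∈ S, ∃ W : WeierstrassCurve ℤ, w = (W.c₄, W.c₆) ∧
      W.Δ ≠ 0 ∧ IsCoprime W.c₄ W.Δ ∧ (rd W.Δ.natAbs : ℝ) ≤ Y ∧ |(W.Δ : ℝ)| ≤ Y ^ κ := by
  classical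
  obtain ⟨c0, hc0, hlow⟩ := sq_lower
  refine ⟨1 / 80 ^ 5, by positivity, fun κ hκ Y hY => ?_⟩
  have hY0 : 0 < Y := by linarith
  obtain ⟨y, hy⟩ : ∃ y : ℝ, y = Y ^ (1 / 6 : ℝ) := ⟨_, rfl⟩
  have hy0 : 0 < y := by rw [hy]; positivity
  have hy6 : y ^ 6 = Y := by
    rw [hy, ← Real.rpow_natCast, ← Real.rpow_mul hY0.le]
    norm_num
  have hy5 : Y ^ (5 / 6 : ℝ) = y ^ 5 := by
    rw [hy, ← Real.rpow_natCast, ← Real.rpow_mul hY0.le]
    norm_num
  rw [hy5]
  rcases le_or_gt y 80 with hsm | hbig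
  · obtain ⟨S, hS1, hS2⟩ := hlow κ hκ Y hY
    refine ⟨S, ?_, ?_⟩
    · have h1 : 0 < (S.card : ℝ) := lt_of_lt_of_le (by positivity) hS1
      have h2 : (1 : ℝ) ≤ S.card := by exact_mod_cast (by exact_mod_cast h1 : 0 < S.card)
      have h3 : y ^ 5 ≤ 80 ^ 5 := pow_le_pow_left₀ hy0.le hsm 5
      calc 1 / 80 ^ 5 * y ^ 5 ≤ 1 / 80 ^ 5 * 80 ^ 5 :=
            mul_le_mul_of_nonneg_left h3 (by positivity)
        _ = 1 := by norm_num
        _ ≤ S.card := h2
    · intro w hw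
      obtain ⟨W, h1, h2, h3, -, h4, h5, -⟩ := hS2 w hw
      exact ⟨W, h1, h2, h3, h4, h5⟩
  · set U := ⌊y ^ 2 / 10⌋₊ with hU
    set V := ⌊y ^ 3 / 50⌋₊ with hV
    have hU1 : (U : ℝ) ≤ y ^ 2 / 10 := Nat.floor_le (by positivity)
    have hU2 : y ^ 2 / 10 < (U : ℝ) + 1 := Nat.lt_floor_add_one _
    have hV1 : (V : ℝ) ≤ y ^ 3 / 50 := Nat.floor_le (by positivity)
    have hV2 : y ^ 3 / 50 < (V : ℝ) + 1 := Nat.lt_floor_add_one _
    have hy2 : (6400 : ℝ) ≤ y ^ 2 := by nlinarith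
    have hy3 : y ^ 2 * 80 ≤ y ^ 3 := by
      have : y ^ 3 = y ^ 2 * y := by ring
      rw [this]
      exact mul_le_mul_of_nonneg_left hbig.le (by positivity)
    have hU480 : 480 ≤ U := by
      rw [hU]
      apply Nat.le_floor
      push_cast
      linarith
    have hUV : U ≤ V := by
      rw [hU, hV]
      apply Nat.floor_le_floor
      linarith
    have hcount := all_count U V hU480 hUV
    set f : ℕ × ℕ → ℤ × ℤ := fun p =>
      (1 - 48 * (p.1 : ℤ), -1 + 72 * (p.1 : ℤ) - 864 * (p.2 : ℤ)) with hf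
    have hinj : Set.InjOn f (allG U V : Set (ℕ × ℕ)) := by
      rintro ⟨a, b⟩ _ ⟨c, d⟩ _ h
      simp only [hf, Prod.mk.injEq] at h ⊢
      omega
    refine ⟨(allG U V).image f, ?_, ?_⟩
    · rw [Finset.card_image_of_injOn hinj]
      refine le_trans ?_ hcount
      have h1 : y ^ 2 / 20 ≤ (U : ℝ) := by linarith
      have h2 : y ^ 3 / 100 ≤ (V : ℝ) := by linarith
      have h3 : y ^ 2 / 20 * (y ^ 3 / 100) ≤ (U : ℝ) * V :=
        mul_le_mul h1 h2 (by positivity) (by positivity)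
      have h4 : y ^ 2 / 20 * (y ^ 3 / 100) = y ^ 5 / 2000 := by ring
      have h5 : 0 ≤ y ^ 5 := by positivity
      rw [h4] at h3
      linarith
    · intro w hw
      obtain ⟨⟨a, b⟩, hp, rfl⟩ := Finset.mem_image.1 hw
      unfold allG at hp
      rw [Finset.mem_filter, Finset.mem_product, Finset.mem_Icc, Finset.mem_Icc] at hp
      obtain ⟨⟨⟨a1, a2⟩, b1, b2⟩, hab⟩ := hp
      simp only at a1 a2 b1 b2 hab
      obtain ⟨W, hW1, hW2, hW3, hW4⟩ := all_curve a b a1 b1 hab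
      have ha : (a : ℝ) ≤ y ^ 2 / 10 := by
        have : (a : ℝ) ≤ U := by exact_mod_cast a2
        linarith
      have hb : (b : ℝ) ≤ y ^ 3 / 50 := by
        have : (b : ℝ) ≤ V := by exact_mod_cast b2
        linarith
      have ha0 : (0 : ℝ) ≤ a := Nat.cast_nonneg _
      have hb0 : (0 : ℝ) ≤ b := Nat.cast_nonneg _
      have hΔ : |(W.Δ : ℝ)| ≤ Y := by
        have h1 : |(W.Δ : ℝ)| ≤ 65 * (a : ℝ) ^ 3 + 433 * (b : ℝ) ^ 2 + 72 * (a : ℝ) * b := by
          exact_mod_cast hW4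
        have h2 : (a : ℝ) ^ 3 ≤ (y ^ 2 / 10) ^ 3 := pow_le_pow_left₀ ha0 ha 3
        have h3 : (b : ℝ) ^ 2 ≤ (y ^ 3 / 50) ^ 2 := pow_le_pow_left₀ hb0 hb 2
        have h4 : (a : ℝ) * b ≤ (y ^ 2 / 10) * (y ^ 3 / 50) :=
          mul_le_mul ha hb hb0 (by positivity)
        have h5 : (y ^ 2 / 10) ^ 3 = Y / 1000 := by rw [← hy6]; ring
        have h6 : (y ^ 3 / 50) ^ 2 = Y / 2500 := by rw [← hy6]; ring
        have h7 : (y ^ 2 / 10) * (y ^ 3 / 50) ≤ Y / 500 := by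
          have h8 : (y ^ 2 / 10) * (y ^ 3 / 50) = y ^ 5 / 500 := by ring
          have h9 : y ^ 5 ≤ y ^ 6 := pow_le_pow_right₀ (by linarith) (by norm_num)
          rw [h8, ← hy6]
          linarith
        rw [h5] at h2
        rw [h6] at h3
        linarith
      refine ⟨W, hW1, hW2, hW3, ?_, ?_⟩
      · have h1 : (rd W.Δ.natAbs : ℝ) ≤ (W.Δ.natAbs : ℝ) := by
          exact_mod_cast rd_le (Int.natAbs_pos.mpr hW2).ne'
        have h2 : ((W.Δ.natAbs : ℕ) : ℝ) = |(W.Δ : ℝ)| := by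
          rw [Nat.cast_natAbs]
          push_cast
          rfl
        rw [h2] at h1
        linarith
      · refine hΔ.trans ?_
        calc Y = Y ^ (1 : ℝ) := (Real.rpow_one Y).symm
          _ ≤ Y ^ κ := Real.rpow_le_rpow_of_exponent_le (by linarith) (by linarith)

end Pool.Agent.Lib.SqPart
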