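import Pool.Agent.Lib.MP_d8bd92_nt.SqDefs

set_option autoImplicit false

/-!
Units of bounded height in a cubic field, uniformly in the field.

PROOF. Let S be as in the statement. K has exactly 3 embeddings (`NumberField.Embeddings.card`).
Map u in S to (floor (log ‖φ u‖ / log 2))_φ in (K →+* ℂ) → ℤ; the values lie between -T/log 2 - 1 and
T/log 2, so there are at most (2T/log 2 + 2)^3 <= C T^3 cells. If u, u0 are in the same cell then
x = u/u0 is integral (u and u0⁻¹ are integral), and ‖φ x‖ < 2 for all φ. So a cell has at most N elements, N a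
bound for the number of x in K integral over ℤ with ‖φ x‖ <= 2 for all φ: minpoly ℤ x is monic of
degree <= 3 and its coefficients are bounded by an absolute constant
(`NumberField.Embeddings.coeff_bdd_of_norm_le`: ‖(minpoly ℚ x).coeff i‖ <= max 2 1 ^ 3 * choose 3 1 = 24),
so there are at most 49^4 such polynomials, each with at most 3 roots in K: N = 3 * 49^4.
-/

namespace Pool.Agent.Lib.SqPart

open Finset NumberField

/-- the coefficients of the minimal polynomial of a small integer of a cubic field -/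
theorem b1_coeff {K : Type} [Field K] [NumberField K] (hK : Module.finrank ℚ K = 3) {x : K}
    (hx : IsIntegral ℤ x) (h : ∀ φ : K →+* ℂ, ‖φ x‖ ≤ 2) (i : ℕ) :
    (minpoly ℤ x).coeff i ∈ Finset.Icc (-24 : ℤ) 24 := by
  have h1 := NumberField.Embeddings.coeff_bdd_of_norm_le (B := 2) h i
  rw [hK, minpoly.isIntegrallyClosed_eq_field_fractions' ℚ hx, Polynomial.coeff_map] at h1
  have h2 : (max (2 : ℝ) 1 ^ 3 * ((Nat.choose 3 (3 / 2) : ℕ) : ℝ)) = 24 := by
    have : Nat.choose 3 (3 / 2) = 3 := by decide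
    rw [this, max_eq_left (by norm_num)]
    norm_num
  rw [h2] at h1
  have h3 : |(((minpoly ℤ x).coeff i : ℤ) : ℝ)| ≤ 24 := by
    have h4 : ‖((algebraMap ℤ ℚ) ((minpoly ℤ x).coeff i))‖ = |(((minpoly ℤ x).coeff i : ℤ) : ℝ)| := by
      rw [eq_intCast, ← Rat.norm_cast_real, Real.norm_eq_abs]
      push_cast
      rfl
    rw [← h4]
    exact h1
  have h5 : |(minpoly ℤ x).coeff i| ≤ 24 := by exact_mod_cast h3
  rw [Finset.mem_Icc]
  exact abs_le.mp h5

theorem b1_natDegree {K : Type} [Field K] [NumberField K] (hK : Module.finrank ℚ K = 3) {x : K}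
    (hx : IsIntegral ℤ x) : (minpoly ℤ x).natDegree ≤ 3 := by
  have h1 := minpoly.natDegree_le (A := ℚ) x
  rw [hK, minpoly.isIntegrallyClosed_eq_field_fractions' ℚ hx] at h1
  rwa [(minpoly.monic hx).natDegree_map] at h1

theorem b1_box {α : Type} (m c : ℕ) (I : Finset ℤ) (hI : I.card = c) (R : Finset α)
    (f : α → (Fin m → ℤ)) (h : ∀ x ∈ R, ∀ i, f x i ∈ I) : (R.image f).card ≤ c ^ m := by
  have h4 : R.image f ⊆ Fintype.piFinset (fun _ : Fin m => I) := by
    intro b hb
    obtain ⟨x, hx, rfl⟩ := Finset.mem_image.mp hb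
    exact Fintype.mem_piFinset.mpr (h x hx)
  refine (Finset.card_le_card h4).trans (le_of_eq ?_)
  rw [Fintype.card_piFinset, Finset.prod_const, Finset.card_univ, Fintype.card_fin, hI]

/-- a uniform bound for the number of small integers -/
theorem b1_small {K : Type} [Field K] [NumberField K] (hK : Module.finrank ℚ K = 3) (R : Finset K)
    (hR : ∀ x ∈ R, IsIntegral ℤ x ∧ ∀ φ : K →+* ℂ, ‖φ x‖ ≤ 2) : R.card ≤ 3 * 49 ^ 4 := by
  classical
  set f : K → (Fin 4 → ℤ) := fun x i => (minpoly ℤ x).coeff i with hf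
  have h1 : ∀ b ∈ R.image f, (R.filter (fun x => f x = b)).card ≤ 3 := by
    intro b hb
    obtain ⟨x₀, hx₀, rfl⟩ := Finset.mem_image.mp hb
    have hint := (hR x₀ hx₀).1
    have hne : (minpoly ℤ x₀).map (algebraMap ℤ K) ≠ 0 := ((minpoly.monic hint).map _).ne_zero
    have hsub : R.filter (fun x => f x = f x₀) ⊆
        ((minpoly ℤ x₀).map (algebraMap ℤ K)).roots.toFinset := by
      intro x hx
      rw [Finset.mem_filter] at hx
      have hxi := (hR x hx.1).1
      have hpoly : minpoly ℤ x = minpoly ℤ x₀ := by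
        ext i
        by_cases hi : i < 4
        · exact congrFun hx.2 ⟨i, hi⟩
        · rw [Polynomial.coeff_eq_zero_of_natDegree_lt, Polynomial.coeff_eq_zero_of_natDegree_lt]
          · have := b1_natDegree hK hint
            omega
          · have := b1_natDegree hK hxi
            omega
      rw [Multiset.mem_toFinset, Polynomial.mem_roots hne, Polynomial.IsRoot.def,
        Polynomial.eval_map_algebraMap, ← hpoly]
      exact minpoly.aeval ℤ x
    calc (R.filter (fun x => f x = f x₀)).card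
        ≤ ((minpoly ℤ x₀).map (algebraMap ℤ K)).roots.toFinset.card := Finset.card_le_card hsub
      _ ≤ Multiset.card ((minpoly ℤ x₀).map (algebraMap ℤ K)).roots := Multiset.toFinset_card_le _
      _ ≤ ((minpoly ℤ x₀).map (algebraMap ℤ K)).natDegree := Polynomial.card_roots' _
      _ ≤ (minpoly ℤ x₀).natDegree := Polynomial.natDegree_map_le
      _ ≤ 3 := b1_natDegree hK hint
  have h2 := Finset.card_le_mul_card_image R 3 h1
  have h3 : (R.image f).card ≤ 49 ^ 4 := by
    exact b1_box 4 49 (Finset.Icc (-24 : ℤ) 24) (by rw [Int.card_Icc]; rfl) R f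
      (fun x hx i => b1_coeff hK (hR x hx).1 (hR x hx).2 (i : ℕ))
  exact h2.trans (Nat.mul_le_mul_left 3 h3)

theorem card_units_le : ∃ C : ℝ, 0 < C ∧ ∀ (K : Type) [Field K] [NumberField K],
    Module.finrank ℚ K = 3 → ∀ T : ℝ, 1 ≤ T → ∀ S : Finset K,
    (∀ u ∈ S, IsIntegral ℤ u ∧ IsIntegral ℤ u⁻¹ ∧ Lht u T) → (S.card : ℝ) ≤ C * T ^ 3 := by
  classical
  refine ⟨3 * 49 ^ 4 * 216, by norm_num, ?_⟩
  intro K _ _ hK T hT S hS
  have hlog : (0.69 : ℝ) < Real.log 2 := lt_trans (by norm_num) Real.log_two_gt_d9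
  have hlog0 : 0 < Real.log 2 := lt_trans (by norm_num) hlog
  set M : ℕ := ⌈T / Real.log 2⌉₊ with hM
  have hM1 : T / Real.log 2 ≤ M := Nat.le_ceil _
  have hM2 : (M : ℝ) < T / Real.log 2 + 1 := Nat.ceil_lt_add_one (by positivity)
  set f : K → ((K →+* ℂ) → ℤ) := fun u φ => ⌊Real.log ‖φ u‖ / Real.log 2⌋ with hf
  -- the fibres
  have h1 : ∀ b ∈ S.image f, (S.filter (fun x => f x = b)).card ≤ 3 * 49 ^ 4 := by
    intro b hb
    obtain ⟨u₀, hu₀, rfl⟩ := Finset.mem_image.mp hb
    obtain ⟨hi0, hi0', hne0, hL0⟩ := hS u₀ hu₀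
    have h2 : ((S.filter (fun x => f x = f u₀)).image (fun u => u * u₀⁻¹)).card
        = (S.filter (fun x => f x = f u₀)).card := by
      apply Finset.card_image_of_injective
      intro u v huv
      exact mul_right_cancel₀ (inv_ne_zero hne0) huv
    rw [← h2]
    apply b1_small hK
    intro x hx
    obtain ⟨u, hu, rfl⟩ := Finset.mem_image.mp hx
    rw [Finset.mem_filter] at hu
    obtain ⟨hi, hi', hne, hL⟩ := hS u hu.1
    refine ⟨hi.mul hi0', fun φ => ?_⟩
    have h3 : ⌊Real.log ‖φ u‖ / Real.log 2⌋ = ⌊Real.log ‖φ u₀‖ / Real.log 2⌋ := congrFun hu.2 φ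
    have h4 := Int.abs_sub_lt_one_of_floor_eq_floor h3
    have h5 : Real.log ‖φ u‖ / Real.log 2 - Real.log ‖φ u₀‖ / Real.log 2 < 1 := (abs_lt.mp h4).2
    rw [← sub_div, div_lt_one hlog0] at h5
    have hu0 : 0 < ‖φ u‖ := norm_pos_iff.mpr ((map_ne_zero φ).mpr hne)
    have hu00 : 0 < ‖φ u₀‖ := norm_pos_iff.mpr ((map_ne_zero φ).mpr hne0)
    have h6 : Real.log ‖φ u‖ < Real.log (2 * ‖φ u₀‖) := by
      rw [Real.log_mul (by norm_num) hu00.ne']
      linarith
    have h7 : ‖φ u‖ < 2 * ‖φ u₀‖ := (Real.log_lt_log_iff hu0 (by positivity)).mp h6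
    rw [map_mul, map_inv₀, norm_mul, norm_inv, ← div_eq_mul_inv, div_le_iff₀ hu00]
    exact h7.le
  have h2 := Finset.card_le_mul_card_image S (3 * 49 ^ 4) h1
  -- the number of cells
  have h3 : (S.image f).card ≤ (2 * M + 1) ^ 3 := by
    have h4 : S.image f ⊆ Fintype.piFinset (fun _ : K →+* ℂ => Finset.Icc (-(M : ℤ)) M) := by
      intro b hb
      obtain ⟨u, hu, rfl⟩ := Finset.mem_image.mp hb
      obtain ⟨-, -, -, hL⟩ := hS u hu
      rw [Fintype.mem_piFinset]
      intro φ
      have h5 := abs_le.mp (hL φ)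
      have h6 : Real.log ‖φ u‖ / Real.log 2 ≤ M := by
        refine le_trans ?_ hM1
        gcongr
        exact h5.2
      have h7 : -(M : ℝ) ≤ Real.log ‖φ u‖ / Real.log 2 := by
        have h8 : -(T / Real.log 2) ≤ Real.log ‖φ u‖ / Real.log 2 := by
          rw [← neg_div]
          gcongr
          exact h5.1
        linarith
      rw [Finset.mem_Icc]
      constructor
      · apply Int.le_floor.mpr
        push_cast
        exact h7
      · have h9 := Int.floor_le (Real.log ‖φ u‖ / Real.log 2)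
        have h10 : ((⌊Real.log ‖φ u‖ / Real.log 2⌋ : ℤ) : ℝ) ≤ ((M : ℤ) : ℝ) := by
          push_cast
          exact h9.trans h6
        exact_mod_cast h10
    refine (Finset.card_le_card h4).trans (le_of_eq ?_)
    rw [Fintype.card_piFinset, Finset.prod_const, Finset.card_univ, NumberField.Embeddings.card, hK,
      Int.card_Icc]
    congr 1
    omega
  have h4 : (S.card : ℝ) ≤ 3 * 49 ^ 4 * (2 * (M : ℝ) + 1) ^ 3 := by
    have h5 : S.card ≤ 3 * 49 ^ 4 * (2 * M + 1) ^ 3 := h2.trans (Nat.mul_le_mul_left _ h3)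
    exact_mod_cast h5
  have h5 : 2 * (M : ℝ) + 1 ≤ 6 * T := by
    have h6 : T / Real.log 2 ≤ 1.5 * T := by
      rw [div_le_iff₀ hlog0]
      nlinarith
    linarith
  have h6 : (0 : ℝ) ≤ 2 * (M : ℝ) + 1 := by positivity
  calc (S.card : ℝ) ≤ 3 * 49 ^ 4 * (2 * (M : ℝ) + 1) ^ 3 := h4
    _ ≤ 3 * 49 ^ 4 * (6 * T) ^ 3 := by gcongr
    _ = 3 * 49 ^ 4 * 216 * T ^ 3 := by ring

end Pool.Agent.Lib.SqPart
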