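import Pool.Agent.Lib.MP_d8bd92_nt.SqDefs

set_option autoImplicit false

/-!
Ideals of a cubic field containing a given integer, uniformly in the field.

PROOF. The ideals containing n >= 1 are the divisors of the ideal (n). (n) = product over p | n of
(p)^(v_p(n)), and (p) has at most 3 prime factors, each with exponent at most 3 in (p)
(`Ideal.sum_ramification_inertia`), so (n) is the product of the Q^(a_Q), Q over the prime ideals over the
primes p | n, a_Q <= 3 v_p(n), at most 3 primes Q for each p. A divisor is determined by its exponents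
b_Q <= a_Q (`Ideal` unique factorisation; count of an irreducible in normalizedFactors), so the number
of divisors is at most product over p | n of (3 v_p(n) + 1)^3 <= (3^3)^(omega(n)) d(n)^3 <= C n^ε.
(For the last step use any divisor bound: for example a multiplicative function f(n) = prod (3v+1)^3
with f(p^v) <= p^(ε v) for p large and f(p^v) <= C_p p^(ε v) for the finitely many small p; see the
existing divisor bounds of the library, e.g. `Nat.card_divisors` bounds in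
Pool/Agent/Lib/MP_d8bd92_nt/Fam*.lean, Radical.lean, CdA.lean.)
card_ideals_norm: a nonzero ideal contains its norm (`Ideal.absNorm_mem`), so sum over 1 <= n <= N.
-/

namespace Pool.Agent.Lib.SqPart

open Finset NumberField UniqueFactorizationMonoid

theorem b2_bern {δ : ℝ} (hδ : 0 < δ) : ∃ C : ℝ, 1 ≤ C ∧ ∀ q : ℕ, 2 ≤ q → ∀ a : ℕ,
    ((a : ℝ) + 1) ≤ C * ((q : ℝ) ^ δ) ^ a := by
  have h2 : (1 : ℝ) < 2 ^ δ := Real.one_lt_rpow (by norm_num) hδ
  set t : ℝ := 2 ^ δ - 1 with ht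
  have ht0 : 0 < t := by rw [ht]; linarith
  refine ⟨max 1 (1 / t), le_max_left _ _, fun q hq a => ?_⟩
  have hq' : (2 : ℝ) ≤ q := by exact_mod_cast hq
  have h3 : (2 : ℝ) ^ δ ≤ (q : ℝ) ^ δ := Real.rpow_le_rpow (by norm_num) hq' hδ.le
  have h4 : 1 + (a : ℝ) * t ≤ ((2 : ℝ) ^ δ) ^ a := by
    have h := one_add_mul_le_pow (a := t) (by linarith) a
    have e : 1 + t = 2 ^ δ := by rw [ht]; ring
    rwa [e] at h
  have h5 : ((2 : ℝ) ^ δ) ^ a ≤ ((q : ℝ) ^ δ) ^ a := pow_le_pow_left₀ (by positivity) h3 a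
  have c1 : 1 ≤ max 1 (1 / t) := le_max_left _ _
  have c2 : 1 ≤ max 1 (1 / t) * t := by
    calc (1 : ℝ) = 1 / t * t := by field_simp
      _ ≤ _ := mul_le_mul_of_nonneg_right (le_max_right _ _) ht0.le
  have ha : (0 : ℝ) ≤ a := Nat.cast_nonneg a
  have c3 : (a : ℝ) ≤ a * (max 1 (1 / t) * t) := by
    calc (a : ℝ) = a * 1 := (mul_one _).symm
      _ ≤ _ := mul_le_mul_of_nonneg_left c2 ha
  calc (a : ℝ) + 1 ≤ a * (max 1 (1 / t) * t) + max 1 (1 / t) := add_le_add c3 c1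
    _ = max 1 (1 / t) * (1 + a * t) := by ring
    _ ≤ _ := mul_le_mul_of_nonneg_left (h4.trans h5) (by linarith)

theorem b2_large {δ : ℝ} (hδ : 0 < δ) : ∃ B : ℕ, ∀ q : ℕ, B ≤ q → ∀ a : ℕ,
    ((a : ℝ) + 1) ≤ ((q : ℝ) ^ δ) ^ a := by
  refine ⟨⌈(2 : ℝ) ^ (1 / δ)⌉₊, fun q hq a => ?_⟩
  have h1 : (2 : ℝ) ^ (1 / δ) ≤ q := (Nat.le_ceil _).trans (by exact_mod_cast hq)
  have h2 : (2 : ℝ) ≤ (q : ℝ) ^ δ := by
    calc (2 : ℝ) = ((2 : ℝ) ^ (1 / δ)) ^ δ := by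
          rw [← Real.rpow_mul (by norm_num), one_div, inv_mul_cancel₀ hδ.ne', Real.rpow_one]
      _ ≤ _ := Real.rpow_le_rpow (by positivity) h1 hδ.le
  have h3 : a + 1 ≤ 2 ^ a := Nat.lt_two_pow_self
  calc (a : ℝ) + 1 ≤ 2 ^ a := by exact_mod_cast h3
    _ ≤ _ := pow_le_pow_left₀ (by norm_num) h2 a

theorem b2_small (B : ℕ) : ∃ M : ℕ, ∀ (K : Type) [Field K] [NumberField K],
    Module.finrank ℚ K = 3 → ∀ F : Finset (Ideal (𝓞 K)),
    (∀ Q ∈ F, Q ≠ ⊥ ∧ Ideal.absNorm Q < B) → F.card ≤ M := by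
  refine ⟨2 ^ (B.factorial ^ 3), fun K _ _ hK F hF => ?_⟩
  classical
  set m : ℕ := B.factorial with hm
  have hm0 : 0 < m := Nat.factorial_pos B
  set J : Ideal (𝓞 K) := Ideal.span {(m : 𝓞 K)} with hJ
  have hJN : Ideal.absNorm J = m ^ 3 := by
    rw [hJ, Ideal.absNorm_span_natCast, RingOfIntegers.rank, hK]
  have hfin : Finite (𝓞 K ⧸ J) := by
    rw [← Ideal.absNorm_ne_zero_iff, hJN]
    positivity
  have hle : ∀ Q ∈ F, J ≤ Q := by
    intro Q hQ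
    obtain ⟨h0, h1⟩ := hF Q hQ
    have h2 : Ideal.absNorm Q ≠ 0 := fun h => h0 (Ideal.absNorm_eq_zero_iff.1 h)
    obtain ⟨c, hc⟩ := Nat.dvd_factorial (Nat.pos_of_ne_zero h2) h1.le
    rw [hJ, Ideal.span_singleton_le_iff_mem, hm, hc]
    push_cast
    exact Q.mul_mem_right _ (Ideal.absNorm_mem Q)
  have hft : Fintype (𝓞 K ⧸ J) := Fintype.ofFinite _
  have hinj : Set.InjOn (fun Q : Ideal (𝓞 K) => (Ideal.Quotient.mk J) '' (Q : Set (𝓞 K)))
      (F : Set (Ideal (𝓞 K))) := by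
    have key : ∀ Q ∈ F, ∀ Q' ∈ F, (Ideal.Quotient.mk J) '' (Q : Set (𝓞 K)) =
        (Ideal.Quotient.mk J) '' (Q' : Set (𝓞 K)) → Q ≤ Q' := by
      intro Q _ Q' hQ' h x hx
      have h1 : Ideal.Quotient.mk J x ∈ (Ideal.Quotient.mk J) '' (Q' : Set (𝓞 K)) := by
        rw [← h]
        exact ⟨x, hx, rfl⟩
      obtain ⟨y, hy, hyx⟩ := h1
      have h2 : y - x ∈ J := Ideal.Quotient.eq.1 hyx
      have h3 := hle Q' hQ' h2
      have h4 : x = y - (y - x) := by ring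
      rw [h4]
      exact Q'.sub_mem hy h3
    intro Q hQ Q' hQ' h
    exact le_antisymm (key Q hQ Q' hQ' h) (key Q' hQ' Q hQ h.symm)
  have h1 : F.card ≤ (Finset.univ : Finset (Set (𝓞 K ⧸ J))).card :=
    Finset.card_le_card_of_injOn _ (fun _ _ => by simp) hinj
  rw [Finset.card_univ, Fintype.card_set, ← Nat.card_eq_fintype_card] at h1
  have h2 : Nat.card (𝓞 K ⧸ J) = m ^ 3 := by
    rw [← hJN, Ideal.absNorm_apply, Submodule.cardQuot_apply]
  rwa [h2] at h1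

theorem card_ideals_dvd (ε : ℝ) (hε : 0 < ε) : ∃ C : ℝ, 0 < C ∧
    ∀ (K : Type) [Field K] [NumberField K], Module.finrank ℚ K = 3 → ∀ n : ℕ, 1 ≤ n →
    ∀ S : Finset (Ideal (𝓞 K)), (∀ I ∈ S, (n : 𝓞 K) ∈ I) → (S.card : ℝ) ≤ C * (n : ℝ) ^ ε := by
  have hδ : 0 < ε / 3 := by positivity
  obtain ⟨C, hC1, hC⟩ := b2_bern hδ
  obtain ⟨B, hB⟩ := b2_large hδ
  obtain ⟨M, hM⟩ := b2_small B
  have hC0 : 0 < C := by linarith
  refine ⟨C ^ M, by positivity, fun K _ _ hK n hn S hS => ?_⟩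
  classical
  set δ : ℝ := ε / 3 with hδd
  set J : Ideal (𝓞 K) := Ideal.span {(n : 𝓞 K)} with hJ
  have hn0 : (n : 𝓞 K) ≠ 0 := by
    have : n ≠ 0 := by omega
    exact_mod_cast this
  have hJ0 : J ≠ ⊥ := by
    rw [hJ, Ne, Ideal.span_singleton_eq_bot]
    exact hn0
  have hJN : Ideal.absNorm J = n ^ 3 := by
    rw [hJ, Ideal.absNorm_span_natCast, RingOfIntegers.rank, hK]
  have hdvd : ∀ I ∈ S, I ∣ J := fun I hI => Ideal.dvd_span_singleton.2 (hS I hI)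
  have hI0 : ∀ I ∈ S, I ≠ ⊥ := by
    intro I hI h
    have h1 := hS I hI
    rw [h, Ideal.mem_bot] at h1
    exact hn0 h1
  have hcard : S.card ≤ (Finset.Iic (normalizedFactors J)).card := by
    refine Finset.card_le_card_of_injOn normalizedFactors ?_ ?_
    · intro I hI
      rw [Finset.coe_Iic, Set.mem_Iic]
      exact (dvd_iff_normalizedFactors_le_normalizedFactors (hI0 I hI) hJ0).1 (hdvd I hI)
    · intro I hI I' hI' h
      have e1 := Ideal.prod_normalizedFactors_eq_self (hI0 I hI)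
      have e2 := Ideal.prod_normalizedFactors_eq_self (hI0 I' hI')
      rw [← e1, ← e2, h]
  rw [Multiset.card_Iic] at hcard
  set F : Finset (Ideal (𝓞 K)) := (normalizedFactors J).toFinset with hF
  have hprime : ∀ Q ∈ F, Q ≠ ⊥ ∧ 2 ≤ Ideal.absNorm Q := by
    intro Q hQ
    rw [hF, Multiset.mem_toFinset] at hQ
    have hp : Prime Q := prime_of_normalized_factor Q hQ
    have h0 : Q ≠ ⊥ := hp.ne_zero
    have h1 : Ideal.absNorm Q ≠ 0 := fun h => h0 (Ideal.absNorm_eq_zero_iff.1 h)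
    have h2 : Ideal.absNorm Q ≠ 1 := fun h =>
      hp.not_unit (Ideal.isUnit_iff.2 (Ideal.absNorm_eq_one_iff.1 h))
    exact ⟨h0, by omega⟩
  set cn : Ideal (𝓞 K) → ℕ := fun Q => (normalizedFactors J).count Q with hcn
  have hnorm : ∏ Q ∈ F, Ideal.absNorm Q ^ cn Q = n ^ 3 := by
    rw [← hJN]
    have e1 := Ideal.prod_normalizedFactors_eq_self hJ0
    conv_rhs => rw [← e1]
    rw [map_multiset_prod, Finset.prod_multiset_map_count]
  have hterm : ∀ Q ∈ F, ((cn Q : ℝ) + 1) ≤ (if Ideal.absNorm Q < B then C else 1) *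
      (((Ideal.absNorm Q : ℕ) : ℝ) ^ δ) ^ cn Q := by
    intro Q hQ
    by_cases hq : Ideal.absNorm Q < B
    · rw [if_pos hq]
      exact hC _ (hprime Q hQ).2 _
    · rw [if_neg hq, one_mul]
      exact hB _ (not_lt.1 hq) _
  have hprod : ∏ Q ∈ F, (((Ideal.absNorm Q : ℕ) : ℝ) ^ δ) ^ cn Q = (n : ℝ) ^ ε := by
    have e1 : ∀ Q ∈ F, (((Ideal.absNorm Q : ℕ) : ℝ) ^ δ) ^ cn Q =
        (((Ideal.absNorm Q : ℕ) : ℝ) ^ cn Q) ^ δ := fun Q _ =>
      Real.rpow_pow_comm (Nat.cast_nonneg _) _ _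
    rw [Finset.prod_congr rfl e1, Real.finset_prod_rpow _ _ (fun Q _ => by positivity)]
    have e2 : ∏ Q ∈ F, ((Ideal.absNorm Q : ℕ) : ℝ) ^ cn Q = (n : ℝ) ^ 3 := by
      exact_mod_cast hnorm
    rw [e2, ← Real.rpow_natCast, ← Real.rpow_mul (Nat.cast_nonneg _), hδd]
    congr 1
    push_cast
    ring
  have hc : ∏ Q ∈ F, (if Ideal.absNorm Q < B then C else 1) ≤ C ^ M := by
    rw [Finset.prod_ite, Finset.prod_const, Finset.prod_const_one, mul_one]
    refine pow_le_pow_right₀ hC1 (hM K hK _ ?_)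
    intro Q hQ
    rw [Finset.mem_filter] at hQ
    exact ⟨(hprime Q hQ.1).1, hQ.2⟩
  calc (S.card : ℝ) ≤ ((∏ Q ∈ F, (cn Q + 1) : ℕ) : ℝ) := by exact_mod_cast hcard
    _ = ∏ Q ∈ F, ((cn Q : ℝ) + 1) := by push_cast; rfl
    _ ≤ ∏ Q ∈ F, ((if Ideal.absNorm Q < B then C else 1) *
      (((Ideal.absNorm Q : ℕ) : ℝ) ^ δ) ^ cn Q) :=
        Finset.prod_le_prod (fun Q _ => by positivity) hterm
    _ = (∏ Q ∈ F, (if Ideal.absNorm Q < B then C else 1)) * (n : ℝ) ^ ε := by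
        rw [Finset.prod_mul_distrib, hprod]
    _ ≤ C ^ M * (n : ℝ) ^ ε := mul_le_mul_of_nonneg_right hc (by positivity)

theorem card_ideals_norm (ε : ℝ) (hε : 0 < ε) : ∃ C : ℝ, 0 < C ∧
    ∀ (K : Type) [Field K] [NumberField K], Module.finrank ℚ K = 3 → ∀ N : ℝ, 1 ≤ N →
    ∀ S : Finset (Ideal (𝓞 K)), (∀ I ∈ S, I ≠ ⊥ ∧ ((Ideal.absNorm I : ℕ) : ℝ) ≤ N) →
    (S.card : ℝ) ≤ C * N ^ (1 + ε) := by
  obtain ⟨C, hC0, hC⟩ := card_ideals_dvd ε hε
  refine ⟨C, hC0, fun K _ _ hK N hN S hS => ?_⟩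
  classical
  have hmaps : ∀ I ∈ S, Ideal.absNorm I ∈ Finset.Icc 1 ⌊N⌋₊ := by
    intro I hI
    obtain ⟨h0, h1⟩ := hS I hI
    have h2 : Ideal.absNorm I ≠ 0 := fun h => h0 (Ideal.absNorm_eq_zero_iff.1 h)
    rw [Finset.mem_Icc]
    exact ⟨by omega, Nat.le_floor h1⟩
  have hN0 : (0 : ℝ) < N := by linarith
  have hfib : ∀ n ∈ Finset.Icc 1 ⌊N⌋₊,
      ((S.filter (fun I => Ideal.absNorm I = n)).card : ℝ) ≤ C * N ^ ε := by
    intro n hn
    rw [Finset.mem_Icc] at hn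
    have h1 := hC K hK n hn.1 (S.filter (fun I => Ideal.absNorm I = n)) (by
      intro I hI
      rw [Finset.mem_filter] at hI
      rw [← hI.2]
      exact Ideal.absNorm_mem I)
    have h2 : (n : ℝ) ≤ N := (Nat.cast_le.2 hn.2).trans (Nat.floor_le hN0.le)
    exact h1.trans (mul_le_mul_of_nonneg_left
      (Real.rpow_le_rpow (Nat.cast_nonneg _) h2 hε.le) hC0.le)
  have hsum := Finset.card_eq_sum_card_fiberwise (f := fun I : Ideal (𝓞 K) => Ideal.absNorm I)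
    (s := S) (t := Finset.Icc 1 ⌊N⌋₊) hmaps
  calc (S.card : ℝ) = ∑ n ∈ Finset.Icc 1 ⌊N⌋₊,
        ((S.filter (fun I => Ideal.absNorm I = n)).card : ℝ) := by
          rw [hsum]; push_cast; rfl
    _ ≤ ∑ n ∈ Finset.Icc 1 ⌊N⌋₊, C * N ^ ε := Finset.sum_le_sum hfib
    _ = (⌊N⌋₊ : ℝ) * (C * N ^ ε) := by
        rw [Finset.sum_const, Nat.card_Icc, nsmul_eq_mul]
        simp
    _ ≤ N * (C * N ^ ε) :=
        mul_le_mul_of_nonneg_right (Nat.floor_le hN0.le) (by positivity)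
    _ = C * N ^ (1 + ε) := by
        rw [Real.rpow_add hN0, Real.rpow_one]
        ring

end Pool.Agent.Lib.SqPart
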