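import Pool.Agent.Lib.MP_d8bd92_nt.SqDefs

set_option autoImplicit false

/-!
The relation `Near`.

PROOF of card_near_le. S empty is trivial. Fix I0 in S; for I in S choose x_I with Lht x_I (3T) and
I = (x_I) I0. Map I to (floor (log ‖φ x_I‖ / T))_φ, with values in {-3,...,3} (3 embeddings): 343
values. If I, J have the same value then |log ‖φ (x_I/x_J)‖| <= T for all φ, and
I = (x_I) (x_J)⁻¹ J, so Near T I J and I = J.
PROOF of exists_net. Take for C a maximal subset of A (finite) with the property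
(Near T x y, x, y in C implies x = y) (e.g. of maximal cardinality); every a in A is near some element of C
(otherwise insert a; Near is symmetric and reflexive).
-/

namespace Pool.Agent.Lib.SqPart

open Finset NumberField

theorem near_refl {K : Type} [Field K] [NumberField K] {T : ℝ} (hT : 0 ≤ T)
    (I : FractionalIdeal (nonZeroDivisors (𝓞 K)) K) : Near T I I := by
  refine ⟨1, ⟨one_ne_zero, fun φ => ?_⟩, ?_⟩
  · rw [map_one, norm_one, Real.log_one, abs_zero]
    exact hT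
  · rw [FractionalIdeal.spanSingleton_one, one_mul]

theorem b3_ne {K : Type} [Field K] {x : K} (hx : x ≠ 0) (φ : K →+* ℂ) : ‖φ x‖ ≠ 0 := by
  rw [norm_ne_zero_iff]
  exact (map_ne_zero φ).2 hx

theorem lht_mul {K : Type} [Field K] [NumberField K] {x y : K} {T T' : ℝ} (h : Lht x T)
    (h' : Lht y T') : Lht (x * y) (T + T') := by
  refine ⟨mul_ne_zero h.1 h'.1, fun φ => ?_⟩
  rw [map_mul, norm_mul, Real.log_mul (b3_ne h.1 φ) (b3_ne h'.1 φ)]
  exact (abs_add_le _ _).trans (add_le_add (h.2 φ) (h'.2 φ))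

theorem lht_inv {K : Type} [Field K] [NumberField K] {x : K} {T : ℝ} (h : Lht x T) :
    Lht x⁻¹ T := by
  refine ⟨inv_ne_zero h.1, fun φ => ?_⟩
  rw [map_inv₀, norm_inv, Real.log_inv, abs_neg]
  exact h.2 φ

theorem lht_pow {K : Type} [Field K] [NumberField K] {x : K} {T : ℝ} (h : Lht x T) (n : ℕ) :
    Lht (x ^ n) (n * T) := by
  refine ⟨pow_ne_zero n h.1, fun φ => ?_⟩
  rw [map_pow, norm_pow, Real.log_pow, abs_mul, Nat.abs_cast]
  exact mul_le_mul_of_nonneg_left (h.2 φ) (Nat.cast_nonneg n)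

theorem b3_swap {K : Type} [Field K] [NumberField K] {x : K} (hx : x ≠ 0)
    {I J : FractionalIdeal (nonZeroDivisors (𝓞 K)) K}
    (h : I = FractionalIdeal.spanSingleton (nonZeroDivisors (𝓞 K)) x * J) :
    J = FractionalIdeal.spanSingleton (nonZeroDivisors (𝓞 K)) x⁻¹ * I := by
  rw [h, ← mul_assoc, FractionalIdeal.spanSingleton_mul_spanSingleton, inv_mul_cancel₀ hx,
    FractionalIdeal.spanSingleton_one, one_mul]

theorem near_symm {K : Type} [Field K] [NumberField K] {T : ℝ}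
    {I J : FractionalIdeal (nonZeroDivisors (𝓞 K)) K} (h : Near T I J) : Near T J I := by
  obtain ⟨x, hx, h1⟩ := h
  exact ⟨x⁻¹, lht_inv hx, b3_swap hx.1 h1⟩

theorem near_trans {K : Type} [Field K] [NumberField K] {T T' : ℝ}
    {I J J' : FractionalIdeal (nonZeroDivisors (𝓞 K)) K} (h : Near T I J) (h' : Near T' J J') :
    Near (T + T') I J' := by
  obtain ⟨x, hx, h1⟩ := h
  obtain ⟨y, hy, h2⟩ := h'
  refine ⟨x * y, lht_mul hx hy, ?_⟩
  rw [h1, h2, ← mul_assoc, FractionalIdeal.spanSingleton_mul_spanSingleton]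

theorem near_mono {K : Type} [Field K] [NumberField K] {T T' : ℝ} (hT : T ≤ T')
    {I J : FractionalIdeal (nonZeroDivisors (𝓞 K)) K} (h : Near T I J) : Near T' I J := by
  obtain ⟨x, hx, h1⟩ := h
  exact ⟨x, ⟨hx.1, fun φ => (hx.2 φ).trans hT⟩, h1⟩

open Classical in
theorem card_near_le (K : Type) [Field K] [NumberField K] (hK : Module.finrank ℚ K = 3)
    (T : ℝ) (hT : 0 < T) (S : Finset (FractionalIdeal (nonZeroDivisors (𝓞 K)) K))
    (h0 : ∀ I ∈ S, I ≠ 0)
    (hS : ∀ I ∈ S, ∀ J ∈ S, Near (3 * T) I J) (hS' : ∀ I ∈ S, ∀ J ∈ S, Near T I J → I = J) :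
    S.card ≤ 343 := by
  rcases S.eq_empty_or_nonempty with hemp | ⟨I0, hI0⟩
  · rw [hemp]
    simp
  have hch : ∀ I : FractionalIdeal (nonZeroDivisors (𝓞 K)) K, ∃ x : K, I ∈ S →
      (Lht x (3 * T) ∧ I = FractionalIdeal.spanSingleton (nonZeroDivisors (𝓞 K)) x * I0) := by
    intro I
    by_cases hI : I ∈ S
    · obtain ⟨x, hx, h⟩ := hS I hI I0 hI0
      exact ⟨x, fun _ => ⟨hx, h⟩⟩
    · exact ⟨0, fun h => absurd h hI⟩
  choose x hx using hch
  have hmaps : ∀ I ∈ S, (fun φ : K →+* ℂ => ⌊Real.log ‖φ (x I)‖ / T⌋) ∈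
      Fintype.piFinset (fun _ : K →+* ℂ => Finset.Icc (-3 : ℤ) 3) := by
    intro I hI
    rw [Fintype.mem_piFinset]
    intro φ
    have h1 := abs_le.1 ((hx I hI).1.2 φ)
    rw [Finset.mem_Icc]
    constructor
    · rw [Int.le_floor]
      push_cast
      rw [le_div_iff₀ hT]
      linarith [h1.1]
    · have h2 : (⌊Real.log ‖φ (x I)‖ / T⌋ : ℝ) ≤ 3 := by
        refine (Int.floor_le _).trans ?_
        rw [div_le_iff₀ hT]
        exact h1.2
      exact_mod_cast h2
  have hinj : Set.InjOn (fun (I : FractionalIdeal (nonZeroDivisors (𝓞 K)) K) (φ : K →+* ℂ) =>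
      ⌊Real.log ‖φ (x I)‖ / T⌋) (S : Set (FractionalIdeal (nonZeroDivisors (𝓞 K)) K)) := by
    intro I hI J hJ hIJ
    have hI' : I ∈ S := hI
    have hJ' : J ∈ S := hJ
    have hIJ' : ∀ φ : K →+* ℂ, ⌊Real.log ‖φ (x I)‖ / T⌋ = ⌊Real.log ‖φ (x J)‖ / T⌋ :=
      fun φ => congrFun hIJ φ
    obtain ⟨hxI, hI1⟩ := hx I hI'
    obtain ⟨hxJ, hJ1⟩ := hx J hJ'
    refine hS' I hI' J hJ' ⟨x I * (x J)⁻¹, ⟨mul_ne_zero hxI.1 (inv_ne_zero hxJ.1), fun φ => ?_⟩, ?_⟩
    · rw [map_mul, map_inv₀, norm_mul, norm_inv, Real.log_mul (b3_ne hxI.1 φ)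
        (inv_ne_zero (b3_ne hxJ.1 φ)), Real.log_inv]
      have h1 : |Real.log ‖φ (x I)‖ / T - Real.log ‖φ (x J)‖ / T| < 1 :=
        Int.abs_sub_lt_one_of_floor_eq_floor (hIJ' φ)
      have h2 : Real.log ‖φ (x I)‖ + -Real.log ‖φ (x J)‖ =
          T * (Real.log ‖φ (x I)‖ / T - Real.log ‖φ (x J)‖ / T) := by
        field_simp
        ring
      rw [h2, abs_mul, abs_of_pos hT]
      nlinarith [abs_nonneg (Real.log ‖φ (x I)‖ / T - Real.log ‖φ (x J)‖ / T)]
    · rw [← FractionalIdeal.spanSingleton_mul_spanSingleton, mul_assoc, ← b3_swap hxJ.1 hJ1]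
      exact hI1
  calc S.card ≤ (Fintype.piFinset (fun _ : K →+* ℂ => Finset.Icc (-3 : ℤ) 3)).card :=
        Finset.card_le_card_of_injOn _ hmaps hinj
    _ = 343 := by
        rw [Fintype.card_piFinset, Finset.prod_const, Finset.card_univ,
          NumberField.Embeddings.card K ℂ, hK]
        rfl

open Classical in
theorem exists_net {K : Type} [Field K] [NumberField K] (T : ℝ) (hT : 0 ≤ T)
    (A : Finset (Ideal (𝓞 K))) : ∃ (C : Finset (Ideal (𝓞 K))) (c : Ideal (𝓞 K) → Ideal (𝓞 K)),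
      C ⊆ A ∧ (∀ I ∈ A, c I ∈ C ∧ Near T (I : FractionalIdeal (nonZeroDivisors (𝓞 K)) K)
        (c I : FractionalIdeal (nonZeroDivisors (𝓞 K)) K)) ∧
      ∀ I ∈ C, ∀ J ∈ C, Near T (I : FractionalIdeal (nonZeroDivisors (𝓞 K)) K)
        (J : FractionalIdeal (nonZeroDivisors (𝓞 K)) K) → I = J := by
  have hne : (A.powerset.filter (fun C : Finset (Ideal (𝓞 K)) => ∀ I ∈ C, ∀ J ∈ C,
      Near T (I : FractionalIdeal (nonZeroDivisors (𝓞 K)) K)
        (J : FractionalIdeal (nonZeroDivisors (𝓞 K)) K) → I = J)).Nonempty := by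
    refine ⟨∅, ?_⟩
    rw [Finset.mem_filter]
    refine ⟨Finset.empty_mem_powerset A, ?_⟩
    intro I hI
    exact absurd hI (Finset.notMem_empty I)
  obtain ⟨C, hC, hmax⟩ := Finset.exists_max_image _ Finset.card hne
  rw [Finset.mem_filter, Finset.mem_powerset] at hC
  obtain ⟨hCA, hCp⟩ := hC
  have hcov : ∀ I ∈ A, ∃ J ∈ C, Near T (I : FractionalIdeal (nonZeroDivisors (𝓞 K)) K)
      (J : FractionalIdeal (nonZeroDivisors (𝓞 K)) K) := by
    intro I hI
    by_contra hno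
    push Not at hno
    have hIC : I ∉ C := fun h => hno I h (near_refl hT _)
    have hins : insert I C ∈ A.powerset.filter (fun C : Finset (Ideal (𝓞 K)) => ∀ I ∈ C, ∀ J ∈ C,
        Near T (I : FractionalIdeal (nonZeroDivisors (𝓞 K)) K)
          (J : FractionalIdeal (nonZeroDivisors (𝓞 K)) K) → I = J) := by
      rw [Finset.mem_filter, Finset.mem_powerset]
      refine ⟨Finset.insert_subset hI hCA, ?_⟩
      intro I1 hI1 J1 hJ1 hn
      rw [Finset.mem_insert] at hI1 hJ1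
      rcases hI1 with rfl | hI1
      · rcases hJ1 with rfl | hJ1
        · rfl
        · exact absurd hn (hno J1 hJ1)
      · rcases hJ1 with rfl | hJ1
        · exact absurd (near_symm hn) (hno I1 hI1)
        · exact hCp I1 hI1 J1 hJ1 hn
    have hcard := hmax _ hins
    rw [Finset.card_insert_of_notMem hIC] at hcard
    omega
  have hch : ∀ I : Ideal (𝓞 K), ∃ J : Ideal (𝓞 K), I ∈ A → (J ∈ C ∧
      Near T (I : FractionalIdeal (nonZeroDivisors (𝓞 K)) K)
      (J : FractionalIdeal (nonZeroDivisors (𝓞 K)) K)) := by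
    intro I
    by_cases hI : I ∈ A
    · obtain ⟨J, hJ, hn⟩ := hcov I hI
      exact ⟨J, fun _ => ⟨hJ, hn⟩⟩
    · exact ⟨I, fun h => absurd h hI⟩
  choose c hc using hch
  exact ⟨C, c, hCA, fun I hI => hc I hI, hCp⟩

end Pool.Agent.Lib.SqPart
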