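import Pool.Agent.Lib.MP_d8bd92_nt.SqB1
import Pool.Agent.Lib.MP_d8bd92_nt.SqB3
import Pool.Agent.Lib.MP_d8bd92_nt.SqA4

set_option autoImplicit false

/-!
Incidences of ideals: the number of principal ideals g A B with a generator in the plane `lam = 0`.

PROOF. Write (x) for spanSingleton x, A = S.image A, B = S.image B (finite sets of ideals).
Put T' = 2T and apply `exists_net` (T') to S.image A: net C, c. For I in S.image A choose ρ I in K with
Lht (ρ I) T' and I = (ρ I) (c I).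
(1) For s, s' in S with B s = B s': (α s)(α s')⁻¹ = A s (A s')⁻¹ (all fractional ideals nonzero; the
fractional ideals form a group with zero), so Near T' (A s) (A s') and
Near (3T') (c (A s)) (c (A s')). By `card_near_le` the set {c (A s) : s in S, B s = b} has at most 343
elements, for every b.
(2) For every pair (k, b) such that some s in S has c (A s) = k, B s = b choose such an s, s0(k,b), and put
κ(k,b) = α (s0) / ρ (A s0). For s in S with c (A s) = k, B s = b put u s = α s / (κ(k,b) ρ (A s)). Then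
(u s) = [g A_s b] / [g A_{s0} b] * [A_{s0} k⁻¹] / [A_s k⁻¹] = 1, so u s and (u s)⁻¹ are integral
(`FractionalIdeal.spanSingleton x = 1` means that x is a unit of the ring of integers), and
Lht (u s) (T + T' + T + T') = Lht (u s) (6T). By `card_units_le` the set U of all u s, s in S, has at most
C (6T)^3 elements.
(3) Fix k in C, S_k = {s in S : c (A s) = k}. P_k = {ρ I : I in S.image A, c I = k},
L_k = the functionals X ↦ lam (κ(k,b) u X), b in S.image B with κ(k,b) defined, u in U. The map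
s ↦ (ρ (A s), functional of (B s, u s)) goes to incidences: lam (κ u ρ) = lam (α s) = 0, and is injective:
if the functionals X ↦ lam (β X), X ↦ lam (β' X) are equal then lam ((β-β')X) = 0 for all X, so β = β' as
lam is not 0 (divide X by β - β'); so κ u and ρ (A s) are determined, so α s = κ u ρ, so s.
The points and functionals are nonzero. If ρ I' = q ρ I (c I = c I' = k), then I' = (q) I; so by hypothesis
the classes of proportional points have at most μ elements (I ↦ ρ I is injective on c I = k). If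
κ(k,b') u' = q κ(k,b) u (equality of functionals up to q gives this, q nonzero rational), then
b' = (q) b [since (κ(k,b)) = g k b and (u) = 1]; there are at most μ ideals b', and b' determines q up to
sign ((q) = (q') for rationals means q = ± q'), and then the functional; so classes of functionals have
at most 2μ elements. By `st_mult`, |S_k| <= 12 μ^2 ((|P_k| |L_k|)^(2/3) + |P_k| + |L_k|).
(4) sum_k |P_k| <= |S.image A|, and sum_k |L_k| <= 343 |S.image B| |U| by (1) (number of pairs (k,b)).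
Finally sum_k (x_k y_k)^(2/3) <= (sum x_k)^(2/3) (sum y_k)^(2/3) for x_k, y_k >= 0: with
p_k = x_k/sum x, q_k = y_k/sum y in [0,1], (p_k q_k)^(2/3) <= (p_k^(4/3) + q_k^(4/3))/2 <= (p_k+q_k)/2.
(K is a ℚ-vector space of dimension 3; `st_mult` with V = K.) The exponent 6 of T is generous.
-/

namespace Pool.Agent.Lib.SqPart

open Finset NumberField

section b4basic

variable {K : Type} [Field K] [NumberField K]

/-- the principal fractional ideal -/
private noncomputable def b4_sp (x : K) : FractionalIdeal (nonZeroDivisors (𝓞 K)) K :=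
  FractionalIdeal.spanSingleton (nonZeroDivisors (𝓞 K)) x

private lemma b4_sp_mul (x y : K) : b4_sp x * b4_sp y = b4_sp (x * y) :=
  FractionalIdeal.spanSingleton_mul_spanSingleton x y

private lemma b4_sp_inv (x : K) : (b4_sp x)⁻¹ = b4_sp x⁻¹ :=
  FractionalIdeal.spanSingleton_inv K x

private lemma b4_sp_ne {x : K} (hx : x ≠ 0) : b4_sp x ≠ 0 :=
  FractionalIdeal.spanSingleton_ne_zero_iff.mpr hx

private lemma b4_ne_of_sp_one {x : K} (hx : b4_sp x = 1) : x ≠ 0 := by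
  intro h
  have h1 : b4_sp (0 : K) = 0 := FractionalIdeal.spanSingleton_zero
  rw [h, h1] at hx
  exact zero_ne_one hx

private lemma b4_integral {u : K} (hu : b4_sp u = 1) : IsIntegral ℤ u ∧ IsIntegral ℤ u⁻¹ := by
  have key : ∀ v : K, b4_sp v = 1 → IsIntegral ℤ v := by
    intro v hv
    have h1 : v ∈ b4_sp v := FractionalIdeal.mem_spanSingleton_self _ v
    rw [hv, FractionalIdeal.mem_one_iff] at h1
    obtain ⟨x, hx⟩ := h1
    rw [← hx]
    exact RingOfIntegers.isIntegral_coe x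
  refine ⟨key u hu, key _ ?_⟩
  rw [← b4_sp_inv, hu, inv_one]

private lemma b4_rat {q q' : ℚ} (hq : q ≠ 0) (hq' : q' ≠ 0)
    (h : b4_sp (q : K) = b4_sp (q' : K)) : q' = q ∨ q' = -q := by
  have hqK : (q : K) ≠ 0 := by exact_mod_cast hq
  have h1 : b4_sp (((q' / q : ℚ)) : K) = 1 := by
    push_cast
    rw [div_eq_mul_inv, ← b4_sp_mul, ← b4_sp_inv, ← h, mul_inv_cancel₀ (b4_sp_ne hqK)]
  obtain ⟨h2, h3⟩ := b4_integral h1
  have key : ∀ r : ℚ, IsIntegral ℤ (r : K) → ∃ n : ℤ, (n : ℚ) = r := by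
    intro r hr
    have h4 : IsIntegral ℤ r := by
      have h5 : (r : K) = algebraMap ℚ K r := (eq_ratCast (algebraMap ℚ K) r).symm
      rw [h5] at hr
      exact (isIntegral_algebraMap_iff (algebraMap ℚ K).injective).mp hr
    obtain ⟨n, hn⟩ := IsIntegrallyClosed.isIntegral_iff.mp h4
    exact ⟨n, by simpa using hn⟩
  obtain ⟨n, hn⟩ := key _ h2
  have h3' : IsIntegral ℤ (((q' / q)⁻¹ : ℚ) : K) := by
    push_cast at h3 ⊢; exact h3
  obtain ⟨m, hm⟩ := key _ h3'
  have h4 : (n : ℚ) * m = 1 := by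
    rw [hn, hm, mul_inv_cancel₀ (div_ne_zero hq' hq)]
  have h5 : n * m = 1 := by exact_mod_cast h4
  have h6 : q' = n * q := by rw [hn]; field_simp
  rcases Int.isUnit_iff.mp (IsUnit.of_mul_eq_one _ h5) with h7 | h7
  · left; rw [h6, h7]; simp
  · right; rw [h6, h7]; simp

/-- the functional `X ↦ lam (β X)` -/
private noncomputable def b4_F (lam : K →ₗ[ℚ] ℚ) (β : K) : K →ₗ[ℚ] ℚ :=
  lam ∘ₗ (LinearMap.mulLeft ℚ β)

private lemma b4_F_apply (lam : K →ₗ[ℚ] ℚ) (β X : K) : b4_F lam β X = lam (β * X) := rfl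

private lemma b4_F_inj {lam : K →ₗ[ℚ] ℚ} (hlam : lam ≠ 0) {β β' : K}
    (h : b4_F lam β = b4_F lam β') : β = β' := by
  by_contra hne
  apply hlam
  ext X
  have hd : β - β' ≠ 0 := sub_ne_zero.mpr hne
  have h1 : X = β * ((β - β')⁻¹ * X) - β' * ((β - β')⁻¹ * X) := by
    field_simp
  have h2 : b4_F lam β ((β - β')⁻¹ * X) = b4_F lam β' ((β - β')⁻¹ * X) := by rw [h]
  rw [b4_F_apply, b4_F_apply] at h2
  rw [LinearMap.zero_apply, h1, map_sub, h2, sub_self]

private lemma b4_F_smul (lam : K →ₗ[ℚ] ℚ) (q : ℚ) (β : K) :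
    q • b4_F lam β = b4_F lam ((q : K) * β) := by
  ext X
  rw [LinearMap.smul_apply, b4_F_apply, b4_F_apply]
  have h1 : (q : K) * β * X = q • (β * X) := by
    rw [Rat.smul_def, mul_assoc]
  rw [h1, map_smul]

private lemma b4_F_ne {lam : K →ₗ[ℚ] ℚ} (hlam : lam ≠ 0) {β : K} (hβ : β ≠ 0) :
    b4_F lam β ≠ 0 := by
  intro h
  apply hβ
  refine b4_F_inj hlam (h.trans ?_)
  ext X
  rw [b4_F_apply, zero_mul, map_zero, LinearMap.zero_apply]


open Classical in
private lemma b4_slice (hK : Module.finrank ℚ K = 3) (lam : K →ₗ[ℚ] ℚ) (hlam : lam ≠ 0)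
    (g k : FractionalIdeal (nonZeroDivisors (𝓞 K)) K) (hg : g ≠ 0) (hk : k ≠ 0) (μ : ℕ)
    (S : Finset (ℤ × ℤ)) (α : ℤ × ℤ → K) (A B : ℤ × ℤ → Ideal (𝓞 K)) (ρ κ : Ideal (𝓞 K) → K)
    (U : Finset K) (us : ℤ × ℤ → K)
    (hρ : ∀ s ∈ S, ρ (A s) ≠ 0 ∧
      (A s : FractionalIdeal (nonZeroDivisors (𝓞 K)) K) = b4_sp (ρ (A s)) * k)
    (hκ : ∀ s ∈ S, κ (B s) ≠ 0 ∧ b4_sp (κ (B s)) =
      g * k * (B s : FractionalIdeal (nonZeroDivisors (𝓞 K)) K))
    (hU : ∀ u ∈ U, b4_sp u = 1)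
    (hus : ∀ s ∈ S, us s ∈ U ∧ α s = κ (B s) * us s * ρ (A s))
    (hl : ∀ s ∈ S, lam (α s) = 0) (hinj : ∀ s ∈ S, ∀ s' ∈ S, α s = α s' → s = s')
    (hA : ∀ s ∈ S, ((S.image A).filter (fun I : Ideal (𝓞 K) => ∃ q : ℚ, q ≠ 0 ∧
      (I : FractionalIdeal (nonZeroDivisors (𝓞 K)) K) = b4_sp (q : K) * (A s))).card ≤ μ)
    (hB : ∀ s ∈ S, ((S.image B).filter (fun I : Ideal (𝓞 K) => ∃ q : ℚ, q ≠ 0 ∧
      (I : FractionalIdeal (nonZeroDivisors (𝓞 K)) K) = b4_sp (q : K) * (B s))).card ≤ μ) :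
    (S.card : ℝ) ≤ 12 * (μ : ℝ) ^ 2 *
      ((((S.image A).card : ℝ) * (((S.image B).card : ℝ) * (U.card : ℝ))) ^ (2 / 3 : ℝ) +
        ((S.image A).card : ℝ) + ((S.image B).card : ℝ) * (U.card : ℝ)) := by
  set P : Finset K := (S.image A).image ρ with hP
  set L : Finset (K →ₗ[ℚ] ℚ) := ((S.image B) ×ˢ U).image (fun x => b4_F lam (κ x.1 * x.2)) with hL
  have hPmem : ∀ p ∈ P, ∃ s ∈ S, p = ρ (A s) := by
    intro p hp
    rw [hP, Finset.mem_image] at hp
    obtain ⟨I, hI, rfl⟩ := hp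
    rw [Finset.mem_image] at hI
    obtain ⟨s, hs, rfl⟩ := hI
    exact ⟨s, hs, rfl⟩
  have hLmem : ∀ l ∈ L, ∃ s ∈ S, ∃ u ∈ U, l = b4_F lam (κ (B s) * u) := by
    intro l hl'
    rw [hL, Finset.mem_image] at hl'
    obtain ⟨⟨b, u⟩, hbu, rfl⟩ := hl'
    rw [Finset.mem_product, Finset.mem_image] at hbu
    obtain ⟨⟨s, hs, hsb⟩, hu⟩ := hbu
    refine ⟨s, hs, u, hu, ?_⟩
    have : b = B s := hsb.symm
    rw [this]
  have hst := st_mult hK P L
    (fun p hp => by
      obtain ⟨s, hs, rfl⟩ := hPmem p hp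
      exact (hρ s hs).1)
    (fun l hl' => by
      obtain ⟨s, hs, u, hu, rfl⟩ := hLmem l hl'
      exact b4_F_ne hlam (mul_ne_zero (hκ s hs).1 (b4_ne_of_sp_one (hU u hu))))
    μ (2 * μ)
    (by
      intro p hp
      obtain ⟨s, hs, rfl⟩ := hPmem p hp
      refine le_trans ?_ (hA s hs)
      have h1 : P.filter (fun p' => ∃ c : ℚ, p' = c • ρ (A s)) ⊆
          ((S.image A).filter (fun I : Ideal (𝓞 K) => ∃ q : ℚ, q ≠ 0 ∧
            (I : FractionalIdeal (nonZeroDivisors (𝓞 K)) K) = b4_sp (q : K) * (A s))).image ρ := by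
        intro p' hp'
        rw [Finset.mem_filter] at hp'
        obtain ⟨h2, c, hc⟩ := hp'
        obtain ⟨s', hs', rfl⟩ := hPmem p' h2
        rw [Finset.mem_image]
        refine ⟨A s', ?_, rfl⟩
        rw [Finset.mem_filter]
        refine ⟨Finset.mem_image_of_mem A hs', c, ?_, ?_⟩
        · intro h3
          rw [h3, zero_smul] at hc
          exact (hρ s' hs').1 hc
        · have h4 : ρ (A s') = (c : K) * ρ (A s) := by rw [hc, Rat.smul_def]
          rw [(hρ s' hs').2, (hρ s hs).2, h4, ← b4_sp_mul, mul_assoc]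
      exact (Finset.card_le_card h1).trans Finset.card_image_le)
    (by
      intro l hl'
      obtain ⟨s, hs, u, hu, rfl⟩ := hLmem l hl'
      set Z : Finset (Ideal (𝓞 K)) := (S.image B).filter (fun I : Ideal (𝓞 K) => ∃ q : ℚ, q ≠ 0 ∧
            (I : FractionalIdeal (nonZeroDivisors (𝓞 K)) K) = b4_sp (q : K) * (B s)) with hZ
      have hZc : Z.card ≤ μ := hB s hs
      set qf : Ideal (𝓞 K) → ℚ := fun I => if h : ∃ q : ℚ, q ≠ 0 ∧
            (I : FractionalIdeal (nonZeroDivisors (𝓞 K)) K) = b4_sp (q : K) * (B s) then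
            h.choose else 0 with hqf
      have hqf1 : ∀ I ∈ Z, qf I ≠ 0 ∧
          (I : FractionalIdeal (nonZeroDivisors (𝓞 K)) K) = b4_sp (qf I : K) * (B s) := by
        intro I hI
        have h1 : ∃ q : ℚ, q ≠ 0 ∧
            (I : FractionalIdeal (nonZeroDivisors (𝓞 K)) K) = b4_sp (q : K) * (B s) :=
          (Finset.mem_filter.mp hI).2
        have h2 : qf I = h1.choose := dif_pos h1
        rw [h2]
        exact h1.choose_spec
      have h1 : L.filter (fun l' => ∃ c : ℚ, l' = c • b4_F lam (κ (B s) * u)) ⊆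
          (Z ×ˢ ({1, -1} : Finset ℚ)).image
            (fun x => (x.2 * qf x.1) • b4_F lam (κ (B s) * u)) := by
        intro l' hl''
        rw [Finset.mem_filter] at hl''
        obtain ⟨h2, c, hc⟩ := hl''
        obtain ⟨s', hs', u', hu', rfl⟩ := hLmem l' h2
        have h3 : κ (B s') * u' = (c : K) * (κ (B s) * u) := by
          rw [b4_F_smul] at hc
          exact b4_F_inj hlam hc
        have hu0 := b4_ne_of_sp_one (hU u hu)
        have hu0' := b4_ne_of_sp_one (hU u' hu')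
        have hc0 : c ≠ 0 := by
          intro h4
          rw [h4, Rat.cast_zero, zero_mul] at h3
          exact mul_ne_zero (hκ s' hs').1 hu0' h3
        have h4 : g * k * (B s' : FractionalIdeal (nonZeroDivisors (𝓞 K)) K) =
            b4_sp (c : K) * (g * k * (B s : FractionalIdeal (nonZeroDivisors (𝓞 K)) K)) := by
          have h5 : b4_sp (κ (B s') * u') = b4_sp ((c : K) * (κ (B s) * u)) := by rw [h3]
          rw [← b4_sp_mul, ← b4_sp_mul, ← b4_sp_mul, hU u hu, hU u' hu', mul_one, mul_one,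
            (hκ s hs).2, (hκ s' hs').2] at h5
          exact h5
        have h5 : (B s' : FractionalIdeal (nonZeroDivisors (𝓞 K)) K) =
            b4_sp (c : K) * (B s : FractionalIdeal (nonZeroDivisors (𝓞 K)) K) := by
          have h6 : g * k ≠ 0 := mul_ne_zero hg hk
          apply mul_left_cancel₀ h6
          rw [h4]; ring
        have hZs : B s' ∈ Z := by
          rw [hZ, Finset.mem_filter]
          exact ⟨Finset.mem_image_of_mem B hs', c, hc0, h5⟩
        obtain ⟨h6, h7⟩ := hqf1 _ hZs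
        have hBs : (B s : FractionalIdeal (nonZeroDivisors (𝓞 K)) K) ≠ 0 := by
          intro h8
          have h9 := (hκ s hs).2
          rw [h8, mul_zero] at h9
          exact b4_sp_ne (hκ s hs).1 h9
        have h8 : b4_sp (qf (B s') : K) = b4_sp (c : K) := by
          have h9 : b4_sp (qf (B s') : K) * (B s : FractionalIdeal (nonZeroDivisors (𝓞 K)) K) =
              b4_sp (c : K) * (B s : FractionalIdeal (nonZeroDivisors (𝓞 K)) K) := by
            rw [← h7, h5]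
          exact mul_right_cancel₀ hBs h9
        rw [Finset.mem_image]
        rcases b4_rat h6 hc0 h8 with h9 | h9
        · refine ⟨(B s', 1), ?_, ?_⟩
          · rw [Finset.mem_product]
            exact ⟨hZs, by simp⟩
          · simp only [one_mul]
            rw [hc, h9]
        · refine ⟨(B s', -1), ?_, ?_⟩
          · rw [Finset.mem_product]
            exact ⟨hZs, by simp⟩
          · simp only [neg_mul, one_mul]
            rw [hc, h9]
      refine (Finset.card_le_card h1).trans (Finset.card_image_le.trans ?_)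
      rw [Finset.card_product]
      have h2 : ({1, -1} : Finset ℚ).card ≤ 2 := Finset.card_le_two
      calc Z.card * ({1, -1} : Finset ℚ).card ≤ μ * 2 := Nat.mul_le_mul hZc h2
        _ = 2 * μ := by ring)
  -- the injection into incidences
  have hcard : S.card ≤ ((P ×ˢ L).filter (fun x => x.2 x.1 = 0)).card := by
    refine Finset.card_le_card_of_injOn
      (fun s => (ρ (A s), b4_F lam (κ (B s) * us s))) ?_ ?_
    · intro s hs
      have hs' : s ∈ S := hs
      obtain ⟨h1, h2⟩ := hus s hs'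
      rw [Finset.mem_coe, Finset.mem_filter, Finset.mem_product]
      refine ⟨⟨?_, ?_⟩, ?_⟩
      · exact Finset.mem_image_of_mem ρ (Finset.mem_image_of_mem A hs')
      · rw [hL, Finset.mem_image]
        exact ⟨(B s, us s), Finset.mem_product.mpr ⟨Finset.mem_image_of_mem B hs', h1⟩, rfl⟩
      · show b4_F lam (κ (B s) * us s) (ρ (A s)) = 0
        rw [b4_F_apply, ← h2]
        exact hl s hs'
    · intro s hs s' hs' heq
      have hs1 : s ∈ S := hs
      have hs2 : s' ∈ S := hs'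
      simp only [Prod.mk.injEq] at heq
      obtain ⟨h1, h2⟩ := heq
      have h3 := b4_F_inj hlam h2
      apply hinj s hs1 s' hs2
      rw [(hus s hs1).2, (hus s' hs2).2, h1, h3]
  have hPc : (P.card : ℝ) ≤ ((S.image A).card : ℝ) := by exact_mod_cast Finset.card_image_le
  have hLc : (L.card : ℝ) ≤ ((S.image B).card : ℝ) * (U.card : ℝ) := by
    have h1 : L.card ≤ (S.image B).card * U.card := by
      refine Finset.card_image_le.trans ?_
      rw [Finset.card_product]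
    exact_mod_cast h1
  have h1 : (S.card : ℝ) ≤ (((P ×ˢ L).filter (fun x => x.2 x.1 = 0)).card : ℝ) := by
    exact_mod_cast hcard
  refine h1.trans (hst.trans ?_)
  have h2 : 6 * (μ : ℝ) * ((2 * μ : ℕ) : ℝ) = 12 * (μ : ℝ) ^ 2 := by push_cast; ring
  rw [h2]
  refine mul_le_mul_of_nonneg_left ?_ (by positivity)
  have h3 : ((P.card : ℝ) * (L.card : ℝ)) ^ (2 / 3 : ℝ) ≤
      (((S.image A).card : ℝ) * (((S.image B).card : ℝ) * (U.card : ℝ))) ^ (2 / 3 : ℝ) := by
    refine Real.rpow_le_rpow (by positivity) ?_ (by norm_num)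
    exact mul_le_mul hPc hLc (by positivity) (by positivity)
  linarith


private lemma b4_sum {ι : Type} (I : Finset ι) (x y : ι → ℝ) (hx : ∀ i ∈ I, 0 ≤ x i)
    (hy : ∀ i ∈ I, 0 ≤ y i) :
    ∑ i ∈ I, (x i * y i) ^ (2 / 3 : ℝ) ≤ ((∑ i ∈ I, x i) * (∑ i ∈ I, y i)) ^ (2 / 3 : ℝ) := by
  have hX0 : 0 ≤ ∑ i ∈ I, x i := Finset.sum_nonneg hx
  have hY0 : 0 ≤ ∑ i ∈ I, y i := Finset.sum_nonneg hy
  have h0 : (0 : ℝ) ^ (2 / 3 : ℝ) = 0 := Real.zero_rpow (by norm_num)
  rcases eq_or_lt_of_le hX0 with hX | hX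
  · have h1 := (Finset.sum_eq_zero_iff_of_nonneg hx).mp hX.symm
    rw [← hX, zero_mul, h0]
    refine le_of_eq (Finset.sum_eq_zero fun i hi => ?_)
    rw [h1 i hi, zero_mul, h0]
  rcases eq_or_lt_of_le hY0 with hY | hY
  · have h1 := (Finset.sum_eq_zero_iff_of_nonneg hy).mp hY.symm
    rw [← hY, mul_zero, h0]
    refine le_of_eq (Finset.sum_eq_zero fun i hi => ?_)
    rw [h1 i hi, mul_zero, h0]
  set X := ∑ i ∈ I, x i with hXd
  set Y := ∑ i ∈ I, y i with hYd
  have key : ∀ i ∈ I, (x i * y i) ^ (2 / 3 : ℝ) ≤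
      (X * Y) ^ (2 / 3 : ℝ) * ((x i / X + y i / Y) / 2) := by
    intro i hi
    have hxi : x i ≤ X := Finset.single_le_sum hx hi
    have hyi : y i ≤ Y := Finset.single_le_sum hy hi
    have hp0 : 0 ≤ x i / X := div_nonneg (hx i hi) hX.le
    have hq0 : 0 ≤ y i / Y := div_nonneg (hy i hi) hY.le
    have hp1 : x i / X ≤ 1 := (div_le_one hX).mpr hxi
    have hq1 : y i / Y ≤ 1 := (div_le_one hY).mpr hyi
    have h1 : x i * y i = (X * Y) * (x i / X * (y i / Y)) := by field_simp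
    rw [h1, Real.mul_rpow (by positivity) (mul_nonneg hp0 hq0)]
    refine mul_le_mul_of_nonneg_left ?_ (by positivity)
    have hpq : 0 ≤ x i / X * (y i / Y) := mul_nonneg hp0 hq0
    rcases eq_or_lt_of_le hpq with h2 | h2
    · rw [← h2, h0]; linarith
    · have h3 : (x i / X * (y i / Y)) ^ (2 / 3 : ℝ) ≤ (x i / X * (y i / Y)) ^ (1 / 2 : ℝ) :=
        Real.rpow_le_rpow_of_exponent_ge h2 (by nlinarith) (by norm_num)
      refine h3.trans ?_
      rw [← Real.sqrt_eq_rpow, Real.sqrt_le_left (by linarith)]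
      nlinarith [sq_nonneg (x i / X - y i / Y)]
  refine (Finset.sum_le_sum key).trans ?_
  rw [← Finset.mul_sum]
  have h1 : ∑ i ∈ I, (x i / X + y i / Y) / 2 = 1 := by
    rw [← Finset.sum_div, Finset.sum_add_distrib, ← Finset.sum_div, ← Finset.sum_div, ← hXd,
      ← hYd, div_self hX.ne', div_self hY.ne']
    norm_num
  rw [h1, mul_one]

private lemma b4_num {ι : Type} (I : Finset ι) (sc x y : ι → ℝ) (M u a b W : ℝ) (hM : 0 ≤ M)
    (hu : 0 ≤ u)
    (hx0 : ∀ i ∈ I, 0 ≤ x i) (hy0 : ∀ i ∈ I, 0 ≤ y i)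
    (hs : ∀ i ∈ I, sc i ≤ M * ((x i * (y i * u)) ^ (2 / 3 : ℝ) + x i + y i * u))
    (hx : ∑ i ∈ I, x i ≤ a) (hy : ∑ i ∈ I, y i * u ≤ b * W) :
    ∑ i ∈ I, sc i ≤ M * ((a * (b * W)) ^ (2 / 3 : ℝ) + a + b * W) := by
  refine (Finset.sum_le_sum hs).trans ?_
  rw [← Finset.mul_sum]
  refine mul_le_mul_of_nonneg_left ?_ hM
  rw [Finset.sum_add_distrib, Finset.sum_add_distrib]
  have h1 := b4_sum I x (fun i => y i * u) hx0 (fun i hi => mul_nonneg (hy0 i hi) hu)
  have hX0 : 0 ≤ ∑ i ∈ I, x i := Finset.sum_nonneg hx0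
  have hY0 : 0 ≤ ∑ i ∈ I, y i * u := Finset.sum_nonneg (fun i hi => mul_nonneg (hy0 i hi) hu)
  have h2 : ((∑ i ∈ I, x i) * (∑ i ∈ I, y i * u)) ^ (2 / 3 : ℝ) ≤ (a * (b * W)) ^ (2 / 3 : ℝ) := by
    refine Real.rpow_le_rpow (mul_nonneg hX0 hY0) ?_ (by norm_num)
    exact mul_le_mul hx hy hY0 (hX0.trans hx)
  linarith

private lemma b4_fin (C₁ T W M s a b : ℝ) (hC₁ : 0 < C₁) (hT : 1 ≤ T) (hM : 0 ≤ M) (ha : 0 ≤ a)
    (hb : 0 ≤ b) (hW : W = 343 * (216 * C₁ * T ^ 3 + 1))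
    (hs : s ≤ 12 * M * ((a * (b * W)) ^ (2 / 3 : ℝ) + a + b * W)) :
    s ≤ (12 * 343 * (216 * C₁ + 1)) * M * T ^ 6 * ((a * b) ^ (2 / 3 : ℝ) + a + b) := by
  have hT3 : 0 < T ^ 3 := by positivity
  have hW1 : 1 ≤ W := by
    have : 0 < 216 * C₁ * T ^ 3 := by positivity
    rw [hW]; linarith
  have hW6 : W ≤ 343 * (216 * C₁ + 1) * T ^ 6 := by
    have h1 : (1 : ℝ) ≤ T ^ 6 := one_le_pow₀ hT
    have h2 : T ^ 3 ≤ T ^ 6 := pow_le_pow_right₀ hT (by norm_num)
    have h3 : 216 * C₁ * T ^ 3 ≤ 216 * C₁ * T ^ 6 :=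
      mul_le_mul_of_nonneg_left h2 (by positivity)
    rw [hW]; nlinarith
  have hfin : ((a * (b * W)) ^ (2 / 3 : ℝ) + a + b * W) ≤ W * ((a * b) ^ (2 / 3 : ℝ) + a + b) := by
    have h1 : (a * (b * W)) = (a * b) * W := by ring
    have h2 : W ^ (2 / 3 : ℝ) ≤ W := by
      have := Real.rpow_le_rpow_of_exponent_le hW1 (show (2 / 3 : ℝ) ≤ 1 by norm_num)
      rwa [Real.rpow_one] at this
    rw [h1, Real.mul_rpow (by positivity) (by linarith)]
    have h3 : 0 ≤ (a * b) ^ (2 / 3 : ℝ) := by positivity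
    have h4 := mul_le_mul_of_nonneg_left h2 h3
    nlinarith
  have hE0 : 0 ≤ ((a * b) ^ (2 / 3 : ℝ) + a + b) := by positivity
  calc s ≤ _ := hs
    _ ≤ 12 * M * (W * ((a * b) ^ (2 / 3 : ℝ) + a + b)) :=
        mul_le_mul_of_nonneg_left hfin (by positivity)
    _ ≤ 12 * M * ((343 * (216 * C₁ + 1) * T ^ 6) * ((a * b) ^ (2 / 3 : ℝ) + a + b)) := by
        refine mul_le_mul_of_nonneg_left ?_ (by positivity)
        exact mul_le_mul_of_nonneg_right hW6 hE0
    _ = _ := by ring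

open Classical in
private lemma b4_all (hK : Module.finrank ℚ K = 3) (C₁ : ℝ) (hC₁ : 0 < C₁)
    (hunits : ∀ T : ℝ, 1 ≤ T → ∀ S : Finset K,
      (∀ u ∈ S, IsIntegral ℤ u ∧ IsIntegral ℤ u⁻¹ ∧ Lht u T) → (S.card : ℝ) ≤ C₁ * T ^ 3)
    (lam : K →ₗ[ℚ] ℚ) (hlam : lam ≠ 0)
    (g : FractionalIdeal (nonZeroDivisors (𝓞 K)) K) (hg : g ≠ 0) (T : ℝ) (hT : 1 ≤ T) (μ : ℕ)
    (S : Finset (ℤ × ℤ)) (α : ℤ × ℤ → K) (A B : ℤ × ℤ → Ideal (𝓞 K))
    (hAB : ∀ s ∈ S, A s ≠ ⊥ ∧ B s ≠ ⊥)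
    (hα : ∀ s ∈ S, b4_sp (α s) =
      g * (A s : FractionalIdeal (nonZeroDivisors (𝓞 K)) K) *
        (B s : FractionalIdeal (nonZeroDivisors (𝓞 K)) K))
    (hl : ∀ s ∈ S, lam (α s) = 0) (hL : ∀ s ∈ S, Lht (α s) T)
    (hinj : ∀ s ∈ S, ∀ s' ∈ S, α s = α s' → s = s')
    (hA : ∀ s ∈ S, ((S.image A).filter (fun I : Ideal (𝓞 K) => ∃ q : ℚ, q ≠ 0 ∧
      (I : FractionalIdeal (nonZeroDivisors (𝓞 K)) K) = b4_sp (q : K) * (A s))).card ≤ μ)
    (hB : ∀ s ∈ S, ((S.image B).filter (fun I : Ideal (𝓞 K) => ∃ q : ℚ, q ≠ 0 ∧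
      (I : FractionalIdeal (nonZeroDivisors (𝓞 K)) K) = b4_sp (q : K) * (B s))).card ≤ μ) :
    (S.card : ℝ) ≤ (12 * 343 * (216 * C₁ + 1)) * (μ : ℝ) ^ 2 * T ^ 6 *
      ((((S.image A).card : ℝ) * ((S.image B).card : ℝ)) ^ (2 / 3 : ℝ) +
        ((S.image A).card : ℝ) + ((S.image B).card : ℝ)) := by
  have hT0 : 0 < T := by linarith
  obtain ⟨Cn, c, hCsub, hc, hnet⟩ := exists_net (2 * T) (by linarith) (S.image A)
  have hcs : ∀ s ∈ S, c (A s) ∈ Cn ∧
      Near (2 * T) (A s : FractionalIdeal (nonZeroDivisors (𝓞 K)) K)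
        (c (A s) : FractionalIdeal (nonZeroDivisors (𝓞 K)) K) :=
    fun s hs => hc (A s) (Finset.mem_image_of_mem A hs)
  have hCne : ∀ k ∈ Cn, (k : FractionalIdeal (nonZeroDivisors (𝓞 K)) K) ≠ 0 := by
    intro k hk
    obtain ⟨s, hs, h1⟩ := Finset.mem_image.mp (hCsub hk)
    rw [FractionalIdeal.coeIdeal_ne_zero, ← h1]
    exact (hAB s hs).1
  have hAne : ∀ s ∈ S, (A s : FractionalIdeal (nonZeroDivisors (𝓞 K)) K) ≠ 0 :=
    fun s hs => FractionalIdeal.coeIdeal_ne_zero.mpr (hAB s hs).1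
  have hBne : ∀ s ∈ S, (B s : FractionalIdeal (nonZeroDivisors (𝓞 K)) K) ≠ 0 :=
    fun s hs => FractionalIdeal.coeIdeal_ne_zero.mpr (hAB s hs).2
  -- the choice of the generators
  set ρ : Ideal (𝓞 K) → K := fun I =>
    if h : Near (2 * T) (I : FractionalIdeal (nonZeroDivisors (𝓞 K)) K)
      (c I : FractionalIdeal (nonZeroDivisors (𝓞 K)) K) then h.choose else 1 with hρd
  have hρ : ∀ s ∈ S, Lht (ρ (A s)) (2 * T) ∧
      (A s : FractionalIdeal (nonZeroDivisors (𝓞 K)) K) = b4_sp (ρ (A s)) * (c (A s)) := by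
    intro s hs
    have h1 := (hcs s hs).2
    have h2 : ρ (A s) = h1.choose := dif_pos h1
    rw [h2]
    exact h1.choose_spec
  have hρ0 : ∀ s ∈ S, ρ (A s) ≠ 0 := fun s hs => (hρ s hs).1.1
  -- near
  have hnear : ∀ s ∈ S, ∀ s' ∈ S, B s = B s' →
      Near (3 * (2 * T)) (c (A s) : FractionalIdeal (nonZeroDivisors (𝓞 K)) K)
        (c (A s') : FractionalIdeal (nonZeroDivisors (𝓞 K)) K) := by
    intro s hs s' hs' hbb
    have h1 : Near (2 * T) (A s : FractionalIdeal (nonZeroDivisors (𝓞 K)) K)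
        (A s' : FractionalIdeal (nonZeroDivisors (𝓞 K)) K) := by
      refine ⟨α s * (α s')⁻¹, ?_, ?_⟩
      · have := lht_mul (hL s hs) (lht_inv (hL s' hs'))
        rwa [← two_mul] at this
      · show _ = b4_sp (α s * (α s')⁻¹) * _
        rw [← b4_sp_mul, ← b4_sp_inv, hα s hs, hα s' hs', hbb]
        have h2 := hAne s' hs'
        have h3 := hBne s' hs'
        rw [mul_inv, mul_inv]
        have e1 : g * (A s : FractionalIdeal (nonZeroDivisors (𝓞 K)) K) * (B s') *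
            (g⁻¹ * (A s' : FractionalIdeal (nonZeroDivisors (𝓞 K)) K)⁻¹ *
              (B s' : FractionalIdeal (nonZeroDivisors (𝓞 K)) K)⁻¹) * (A s') =
            (g * g⁻¹) * ((A s' : FractionalIdeal (nonZeroDivisors (𝓞 K)) K) *
              (A s' : FractionalIdeal (nonZeroDivisors (𝓞 K)) K)⁻¹) *
            ((B s' : FractionalIdeal (nonZeroDivisors (𝓞 K)) K) *
              (B s' : FractionalIdeal (nonZeroDivisors (𝓞 K)) K)⁻¹) * (A s) := by ring
        rw [e1, mul_inv_cancel₀ hg, mul_inv_cancel₀ h2, mul_inv_cancel₀ h3]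
        ring
    have h2 := near_trans (near_symm (hcs s hs).2) (near_trans h1 (hcs s' hs').2)
    have h3 : 2 * T + (2 * T + 2 * T) = 3 * (2 * T) := by ring
    rwa [h3] at h2
  -- the base points
  set s0 : Ideal (𝓞 K) → Ideal (𝓞 K) → ℤ × ℤ := fun k b =>
    if h : ∃ s ∈ S, c (A s) = k ∧ B s = b then h.choose else 0 with hs0d
  have hs0 : ∀ s ∈ S, s0 (c (A s)) (B s) ∈ S ∧ c (A (s0 (c (A s)) (B s))) = c (A s) ∧
      B (s0 (c (A s)) (B s)) = B s := by
    intro s hs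
    have h1 : ∃ s' ∈ S, c (A s') = c (A s) ∧ B s' = B s := ⟨s, hs, rfl, rfl⟩
    have h2 : s0 (c (A s)) (B s) = h1.choose := dif_pos h1
    rw [h2]
    exact h1.choose_spec
  set κ : Ideal (𝓞 K) → Ideal (𝓞 K) → K := fun k b => α (s0 k b) * (ρ (A (s0 k b)))⁻¹ with hκd
  have hκL : ∀ s ∈ S, Lht (κ (c (A s)) (B s)) (T + 2 * T) := by
    intro s hs
    obtain ⟨h1, h2, h3⟩ := hs0 s hs
    exact lht_mul (hL _ h1) (lht_inv (hρ _ h1).1)
  have hκ : ∀ s ∈ S, b4_sp (κ (c (A s)) (B s)) =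
      g * (c (A s) : FractionalIdeal (nonZeroDivisors (𝓞 K)) K) *
        (B s : FractionalIdeal (nonZeroDivisors (𝓞 K)) K) := by
    intro s hs
    obtain ⟨h1, h2, h3⟩ := hs0 s hs
    show b4_sp (α (s0 (c (A s)) (B s)) * (ρ (A (s0 (c (A s)) (B s))))⁻¹) = _
    rw [← b4_sp_mul, ← b4_sp_inv, hα _ h1, (hρ _ h1).2, h2, h3]
    have h4 := b4_sp_ne (hρ0 _ h1)
    have e1 : g * (b4_sp (ρ (A (s0 (c (A s)) (B s)))) *
        (c (A s) : FractionalIdeal (nonZeroDivisors (𝓞 K)) K)) * (B s) *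
        (b4_sp (ρ (A (s0 (c (A s)) (B s)))))⁻¹ =
        (b4_sp (ρ (A (s0 (c (A s)) (B s)))) * (b4_sp (ρ (A (s0 (c (A s)) (B s)))))⁻¹) *
        (g * (c (A s)) * (B s)) := by ring
    rw [e1, mul_inv_cancel₀ h4, one_mul]
  have hκ0 : ∀ s ∈ S, κ (c (A s)) (B s) ≠ 0 := fun s hs => (hκL s hs).1
  set us : ℤ × ℤ → K := fun s => α s * (κ (c (A s)) (B s))⁻¹ * (ρ (A s))⁻¹ with husd
  have hus1 : ∀ s ∈ S, b4_sp (us s) = 1 := by
    intro s hs
    show b4_sp (α s * (κ (c (A s)) (B s))⁻¹ * (ρ (A s))⁻¹) = 1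
    rw [← b4_sp_mul, ← b4_sp_mul, ← b4_sp_inv, ← b4_sp_inv, hα s hs, hκ s hs]
    nth_rewrite 1 [(hρ s hs).2]
    have h4 := b4_sp_ne (hρ0 s hs)
    have h5 : g * (c (A s) : FractionalIdeal (nonZeroDivisors (𝓞 K)) K) * (B s) ≠ 0 :=
      mul_ne_zero (mul_ne_zero hg (hCne _ (hcs s hs).1)) (hBne s hs)
    have e1 : g * (b4_sp (ρ (A s)) * (c (A s) : FractionalIdeal (nonZeroDivisors (𝓞 K)) K)) *
        (B s) * (g * (c (A s) : FractionalIdeal (nonZeroDivisors (𝓞 K)) K) * (B s))⁻¹ *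
        (b4_sp (ρ (A s)))⁻¹ =
        ((g * (c (A s) : FractionalIdeal (nonZeroDivisors (𝓞 K)) K) * (B s)) *
        (g * (c (A s) : FractionalIdeal (nonZeroDivisors (𝓞 K)) K) * (B s))⁻¹) *
        (b4_sp (ρ (A s)) * (b4_sp (ρ (A s)))⁻¹) := by ring
    rw [e1, mul_inv_cancel₀ h4, mul_inv_cancel₀ h5, one_mul]
  have husL : ∀ s ∈ S, Lht (us s) (6 * T) := by
    intro s hs
    have := lht_mul (lht_mul (hL s hs) (lht_inv (hκL s hs))) (lht_inv (hρ s hs).1)
    have h3 : T + (T + 2 * T) + 2 * T = 6 * T := by ring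
    rwa [h3] at this
  set U : Finset K := S.image us with hUd
  have hUc : (U.card : ℝ) ≤ C₁ * (6 * T) ^ 3 := by
    refine hunits (6 * T) (by linarith) U ?_
    intro u hu
    obtain ⟨s, hs, rfl⟩ := Finset.mem_image.mp hu
    obtain ⟨h1, h2⟩ := b4_integral (hus1 s hs)
    exact ⟨h1, h2, husL s hs⟩
  -- the slices
  set Sk : Ideal (𝓞 K) → Finset (ℤ × ℤ) := fun k => S.filter (fun s => c (A s) = k) with hSk
  have hslice : ∀ k ∈ Cn, ((Sk k).card : ℝ) ≤ 12 * (μ : ℝ) ^ 2 *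
      (((((Sk k).image A).card : ℝ) * ((((Sk k).image B).card : ℝ) * (U.card : ℝ))) ^ (2 / 3 : ℝ) +
        (((Sk k).image A).card : ℝ) + (((Sk k).image B).card : ℝ) * (U.card : ℝ)) := by
    intro k hk
    have hsub : Sk k ⊆ S := Finset.filter_subset _ _
    have hck : ∀ s ∈ Sk k, c (A s) = k := fun s hs => (Finset.mem_filter.mp hs).2
    refine b4_slice hK lam hlam g k hg (hCne k hk) μ (Sk k) α A B ρ (κ k) U us ?_ ?_ ?_ ?_ ?_ ?_ ?_ ?_
    · intro s hs
      refine ⟨hρ0 s (hsub hs), ?_⟩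
      have := (hρ s (hsub hs)).2
      rwa [hck s hs] at this
    · intro s hs
      have h1 := hκ0 s (hsub hs)
      have h2 := hκ s (hsub hs)
      rw [hck s hs] at h1 h2
      exact ⟨h1, h2⟩
    · intro u hu
      obtain ⟨s, hs, rfl⟩ := Finset.mem_image.mp hu
      exact hus1 s hs
    · intro s hs
      refine ⟨Finset.mem_image_of_mem us (hsub hs), ?_⟩
      have h1 := hκ0 s (hsub hs)
      have h2 := hρ0 s (hsub hs)
      have h3 : us s = α s * (κ (c (A s)) (B s))⁻¹ * (ρ (A s))⁻¹ := rfl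
      rw [h3, hck s hs]
      rw [hck s hs] at h1
      field_simp
    · exact fun s hs => hl s (hsub hs)
    · exact fun s hs s' hs' => hinj s (hsub hs) s' (hsub hs')
    · intro s hs
      refine le_trans (Finset.card_le_card ?_) (hA s (hsub hs))
      exact Finset.filter_subset_filter _ (Finset.image_subset_image hsub)
    · intro s hs
      refine le_trans (Finset.card_le_card ?_) (hB s (hsub hs))
      exact Finset.filter_subset_filter _ (Finset.image_subset_image hsub)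
  have hScard : (S.card : ℝ) = ∑ k ∈ Cn, ((Sk k).card : ℝ) := by
    have h1 : S.card = ∑ k ∈ Cn, (Sk k).card :=
      Finset.card_eq_sum_card_fiberwise (f := fun s => c (A s)) (fun s hs => (hcs s hs).1)
    rw [h1]; push_cast; rfl
  -- the sums
  have hx : ∑ k ∈ Cn, (((Sk k).image A).card : ℝ) ≤ ((S.image A).card : ℝ) := by
    have h1 : (S.image A).card = ∑ k ∈ Cn, ((S.image A).filter (fun I => c I = k)).card :=
      Finset.card_eq_sum_card_fiberwise (f := c) (fun I hI => (hc I hI).1)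
    have h2 : ∑ k ∈ Cn, ((Sk k).image A).card ≤ (S.image A).card := by
      rw [h1]
      refine Finset.sum_le_sum fun k _ => Finset.card_le_card ?_
      intro I hI
      obtain ⟨s, hs, rfl⟩ := Finset.mem_image.mp hI
      obtain ⟨h3, h4⟩ := Finset.mem_filter.mp hs
      exact Finset.mem_filter.mpr ⟨Finset.mem_image_of_mem A h3, h4⟩
    exact_mod_cast h2
  have hy : ∑ k ∈ Cn, (((Sk k).image B).card : ℝ) ≤ 343 * ((S.image B).card : ℝ) := by
    have h2 : ∑ k ∈ Cn, ((Sk k).image B).card ≤ 343 * (S.image B).card := by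
      set r : Ideal (𝓞 K) → Ideal (𝓞 K) → Prop := fun k b => ∃ s ∈ S, c (A s) = k ∧ B s = b with hr
      have h3 : ∀ k ∈ Cn, ((Sk k).image B).card ≤ ((S.image B).bipartiteAbove r k).card := by
        intro k _
        refine Finset.card_le_card ?_
        intro I hI
        obtain ⟨s, hs, rfl⟩ := Finset.mem_image.mp hI
        obtain ⟨h3, h4⟩ := Finset.mem_filter.mp hs
        rw [Finset.mem_bipartiteAbove]
        exact ⟨Finset.mem_image_of_mem B h3, s, h3, h4, rfl⟩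
      refine (Finset.sum_le_sum h3).trans ?_
      rw [Finset.sum_card_bipartiteAbove_eq_sum_card_bipartiteBelow]
      have h4 : ∀ b ∈ S.image B, (Cn.bipartiteBelow r b).card ≤ 343 := by
        intro b _
        have h5 : (Cn.bipartiteBelow r b).card = ((Cn.bipartiteBelow r b).image
            (fun I : Ideal (𝓞 K) => (I : FractionalIdeal (nonZeroDivisors (𝓞 K)) K))).card :=
          (Finset.card_image_of_injective _ FractionalIdeal.coeIdeal_injective).symm
        rw [h5]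
        refine card_near_le K hK (2 * T) (by linarith) _ ?_ ?_ ?_
        · intro I hI
          obtain ⟨k, hk, rfl⟩ := Finset.mem_image.mp hI
          rw [Finset.mem_bipartiteBelow] at hk
          exact hCne k hk.1
        · intro I hI J hJ
          obtain ⟨k, hk, rfl⟩ := Finset.mem_image.mp hI
          obtain ⟨k', hk', rfl⟩ := Finset.mem_image.mp hJ
          rw [Finset.mem_bipartiteBelow] at hk hk'
          obtain ⟨_, s, hs, rfl, hb⟩ := hk
          obtain ⟨_, s', hs', rfl, hb'⟩ := hk'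
          exact hnear s hs s' hs' (hb.trans hb'.symm)
        · intro I hI J hJ hIJ
          obtain ⟨k, hk, rfl⟩ := Finset.mem_image.mp hI
          obtain ⟨k', hk', rfl⟩ := Finset.mem_image.mp hJ
          rw [Finset.mem_bipartiteBelow] at hk hk'
          have := hnet k hk.1 k' hk'.1 hIJ
          rw [this]
      refine (Finset.sum_le_sum h4).trans ?_
      rw [Finset.sum_const, smul_eq_mul, mul_comm]
    exact_mod_cast h2
  have hUc' : 343 * (U.card : ℝ) ≤ 343 * (216 * C₁ * T ^ 3 + 1) := by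
    have h1 : C₁ * (6 * T) ^ 3 = 216 * C₁ * T ^ 3 := by ring
    rw [h1] at hUc
    linarith
  have hy' : ∑ k ∈ Cn, (((Sk k).image B).card : ℝ) * (U.card : ℝ) ≤
      ((S.image B).card : ℝ) * (343 * (216 * C₁ * T ^ 3 + 1)) := by
    rw [← Finset.sum_mul]
    have hU0 : (0 : ℝ) ≤ (U.card : ℝ) := Nat.cast_nonneg _
    have hB0 : (0 : ℝ) ≤ ((S.image B).card : ℝ) := Nat.cast_nonneg _
    have h1 := mul_le_mul_of_nonneg_right hy hU0
    have h2 := mul_le_mul_of_nonneg_left hUc' hB0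
    linarith
  have hmain := b4_num Cn (fun k => ((Sk k).card : ℝ)) (fun k => (((Sk k).image A).card : ℝ))
    (fun k => (((Sk k).image B).card : ℝ)) (12 * (μ : ℝ) ^ 2) (U.card : ℝ) ((S.image A).card : ℝ)
    ((S.image B).card : ℝ) (343 * (216 * C₁ * T ^ 3 + 1)) (by positivity) (Nat.cast_nonneg _)
    (fun _ _ => Nat.cast_nonneg _) (fun _ _ => Nat.cast_nonneg _) hslice hx hy'
  rw [← hScard] at hmain
  exact b4_fin C₁ T (343 * (216 * C₁ * T ^ 3 + 1)) ((μ : ℝ) ^ 2) (S.card : ℝ)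
    ((S.image A).card : ℝ) ((S.image B).card : ℝ) hC₁ hT (by positivity) (Nat.cast_nonneg _)
    (Nat.cast_nonneg _) rfl hmain


open Classical in
omit [NumberField K] in
private lemma b4_mem_bind (t : Finset (Ideal (𝓞 K)))
    (x : FractionalIdeal (nonZeroDivisors (𝓞 K)) K) :
    x ∈ (t >>= fun a => pure (a : FractionalIdeal (nonZeroDivisors (𝓞 K)) K)) ↔
      ∃ a ∈ t, (a : FractionalIdeal (nonZeroDivisors (𝓞 K)) K) = x := by
  have h : (t >>= fun a => pure (a : FractionalIdeal (nonZeroDivisors (𝓞 K)) K)) =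
    t.sup (fun a => ({(a : FractionalIdeal (nonZeroDivisors (𝓞 K)) K)} :
      Finset (FractionalIdeal (nonZeroDivisors (𝓞 K)) K))) := rfl
  rw [h, Finset.mem_sup]
  constructor
  · rintro ⟨a, ha, hx⟩
    exact ⟨a, ha, (Finset.mem_singleton.mp hx).symm⟩
  · rintro ⟨a, ha, hx⟩
    exact ⟨a, ha, Finset.mem_singleton.mpr hx.symm⟩

end b4basic

open Classical in
/-- incidences of ideals -/
theorem incid_ideals : ∃ C : ℝ, 0 < C ∧ ∀ (K : Type) [Field K] [NumberField K],
    Module.finrank ℚ K = 3 → ∀ (lam : K →ₗ[ℚ] ℚ), lam ≠ 0 →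
    ∀ (g : FractionalIdeal (nonZeroDivisors (𝓞 K)) K), g ≠ 0 → ∀ (T : ℝ), 1 ≤ T → ∀ (μ : ℕ)
    (S : Finset (ℤ × ℤ)) (α : ℤ × ℤ → K) (A B : ℤ × ℤ → Ideal (𝓞 K)),
    (∀ s ∈ S, A s ≠ ⊥ ∧ B s ≠ ⊥) →
    (∀ s ∈ S, FractionalIdeal.spanSingleton (nonZeroDivisors (𝓞 K)) (α s) =
      g * (A s : FractionalIdeal (nonZeroDivisors (𝓞 K)) K) *
        (B s : FractionalIdeal (nonZeroDivisors (𝓞 K)) K)) →
    (∀ s ∈ S, lam (α s) = 0) → (∀ s ∈ S, Lht (α s) T) → (∀ s ∈ S, ∀ s' ∈ S, α s = α s' → s = s') →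
    (∀ s ∈ S, ((S.image A).filter (fun I => ∃ q : ℚ, q ≠ 0 ∧
      (I : FractionalIdeal (nonZeroDivisors (𝓞 K)) K) =
        FractionalIdeal.spanSingleton (nonZeroDivisors (𝓞 K)) (q : K) * (A s))).card ≤ μ) →
    (∀ s ∈ S, ((S.image B).filter (fun I => ∃ q : ℚ, q ≠ 0 ∧
      (I : FractionalIdeal (nonZeroDivisors (𝓞 K)) K) =
        FractionalIdeal.spanSingleton (nonZeroDivisors (𝓞 K)) (q : K) * (B s))).card ≤ μ) →
    (S.card : ℝ) ≤ C * (μ : ℝ) ^ 2 * T ^ 6 *
      ((((S.image A).card : ℝ) * ((S.image B).card : ℝ)) ^ (2 / 3 : ℝ) +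
        ((S.image A).card : ℝ) + ((S.image B).card : ℝ)) := by
  obtain ⟨C₁, hC₁, hunits⟩ := card_units_le
  refine ⟨12 * 343 * (216 * C₁ + 1), by positivity, ?_⟩
  intro K _ _ hK lam hlam g hg T hT μ S α A B hAB hα hl hL hinj hA hB
  have conv : ∀ (t : Finset (Ideal (𝓞 K))) (J : FractionalIdeal (nonZeroDivisors (𝓞 K)) K),
      (t.filter (fun I : Ideal (𝓞 K) => ∃ q : ℚ, q ≠ 0 ∧
        (I : FractionalIdeal (nonZeroDivisors (𝓞 K)) K) = b4_sp (q : K) * J)).card ≤
      ((t >>= fun a => pure (a : FractionalIdeal (nonZeroDivisors (𝓞 K)) K)).filter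
        (fun I => ∃ q : ℚ, q ≠ 0 ∧ I =
        FractionalIdeal.spanSingleton (nonZeroDivisors (𝓞 K)) (q : K) * J)).card := by
    intro t J
    refine Finset.card_le_card_of_injOn
      (fun I : Ideal (𝓞 K) => (I : FractionalIdeal (nonZeroDivisors (𝓞 K)) K)) ?_
      (FractionalIdeal.coeIdeal_injective.injOn)
    intro I hI
    obtain ⟨h1, h2⟩ := Finset.mem_filter.mp hI
    exact Finset.mem_filter.mpr ⟨(b4_mem_bind t _).mpr ⟨I, h1, rfl⟩, h2⟩
  refine b4_all hK C₁ hC₁ (fun T hT S hS => hunits K hK T hT S hS) lam hlam g hg T hT μ S α A B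
    hAB hα hl hL hinj ?_ ?_
  · intro s hs
    exact (conv (S.image A) (A s)).trans (hA s hs)
  · intro s hs
    exact (conv (S.image B) (B s)).trans (hB s hs)

end Pool.Agent.Lib.SqPart
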