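import Pool.Agent.Lib.MP_d8bd92_nt.SqB2
import Pool.Agent.Lib.MP_d8bd92_nt.SqB3

set_option autoImplicit false

/-!
The number of classes of ideals with respect to `Near`.

PROOF. D = |discr K| >= 1. For I in S, Minkowski's theorem (`NumberField.mixedEmbedding.exists_ne_zero_mem_ideal_lt`
with `minkowskiBound`, `convexBodyLT_volume`, `volume_fundamentalDomain_fractionalIdealLatticeBasis`) gives
β_I in I, β_I not 0, with ‖φ β_I‖ <= (c0 D^(1/2) N(I))^(1/3) for all φ (c0 absolute; all f w equal to this bound H;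
product over the places w of (f w)^mult = H^3). |N(β_I)| is a nonzero integer, >= 1, so
‖φ β_I‖ >= H^(-2), and Lht β_I (2 log H + something) with H <= (c0 D^(1/2) P)^(1/3); so Lht (β_I/β_J) T for
T >= C (1 + log (D P)).
r_I = (β_I) I⁻¹ is an integral nonzero ideal (β_I in I) of norm |N(β_I)|/N(I) <= H^3/N(I) = c0 D^(1/2). If
r_I = r_J then I = (β_I/β_J) J, so Near T I J and I = J. Hence |S| <= number of nonzero ideals of norm
<= c0 D^(1/2) <= C D^((1+ε)/2) by `card_ideals_norm`.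
-/

namespace Pool.Agent.Lib.SqPart

open Finset NumberField

open scoped Classical in
theorem b5_volume (K : Type) [Field K] [NumberField K] (hK : Module.finrank ℚ K = 3)
    (I : (FractionalIdeal (nonZeroDivisors (𝓞 K)) K)ˣ) (H : NNReal)
    (h : 8 * Real.sqrt |(discr K : ℝ)| * ((FractionalIdeal.absNorm I.1 : ℚ) : ℝ) < (H : ℝ) ^ 3) :
    mixedEmbedding.minkowskiBound K I <
      MeasureTheory.volume (mixedEmbedding.convexBodyLT K (fun _ => H)) := by
  have hN : (0 : ℝ) ≤ ((FractionalIdeal.absNorm I.1 : ℚ) : ℝ) :=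
    Rat.cast_nonneg.mpr (FractionalIdeal.absNorm_nonneg I.1)
  have h1 : mixedEmbedding.minkowskiBound K I ≤ ENNReal.ofReal (8 * Real.sqrt |(discr K : ℝ)| *
      ((FractionalIdeal.absNorm I.1 : ℚ) : ℝ)) := by
    rw [mixedEmbedding.minkowskiBound,
      mixedEmbedding.volume_fundamentalDomain_fractionalIdealLatticeBasis,
      mixedEmbedding.volume_fundamentalDomain_latticeBasis, mixedEmbedding.finrank, hK,
      mul_comm (8 * Real.sqrt |(discr K : ℝ)|), ENNReal.ofReal_mul hN,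
      ENNReal.ofReal_mul (by norm_num : (0 : ℝ) ≤ 8), mul_assoc]
    refine mul_le_mul_right ?_ _
    have e1 : ((NNReal.sqrt ‖discr K‖₊ : NNReal) : ENNReal) =
        ENNReal.ofReal (Real.sqrt |(discr K : ℝ)|) := by
      rw [← ENNReal.ofReal_coe_nnreal, Real.coe_sqrt]
      congr 2
    have e2 : ENNReal.ofReal 8 = 2 ^ 3 := by
      rw [show (8 : ℝ) = 2 ^ 3 by norm_num, ENNReal.ofReal_pow (by norm_num)]
      simp
    rw [e1, e2, mul_comm (2 ^ 3)]
    refine mul_le_mul_left ?_ _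
    calc (2 : ENNReal)⁻¹ ^ InfinitePlace.nrComplexPlaces K *
          ENNReal.ofReal (Real.sqrt |(discr K : ℝ)|)
        ≤ 1 * ENNReal.ofReal (Real.sqrt |(discr K : ℝ)|) := by
          refine mul_le_mul_left ?_ _
          exact pow_le_one' (ENNReal.inv_le_one.2 (by norm_num)) _
      _ = _ := one_mul _
  have h2 : ENNReal.ofReal ((H : ℝ) ^ 3) ≤
      MeasureTheory.volume (mixedEmbedding.convexBodyLT K (fun _ => H)) := by
    rw [mixedEmbedding.convexBodyLT_volume, Finset.prod_pow_eq_pow_sum,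
      InfinitePlace.sum_mult_eq, hK, ENNReal.ofReal_pow H.coe_nonneg, ENNReal.ofReal_coe_nnreal]
    calc (H : ENNReal) ^ 3 = 1 * (H : ENNReal) ^ 3 := (one_mul _).symm
      _ ≤ _ := by
        rw [ENNReal.coe_pow]
        refine mul_le_mul_left ?_ _
        exact_mod_cast mixedEmbedding.one_le_convexBodyLTFactor K
  refine lt_of_le_of_lt h1 (lt_of_lt_of_le ?_ h2)
  rw [ENNReal.ofReal_lt_ofReal_iff (lt_of_le_of_lt (by positivity) h)]
  exact h

theorem b5_mink (K : Type) [Field K] [NumberField K] (hK : Module.finrank ℚ K = 3)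
    (I : Ideal (𝓞 K)) (hI : I ≠ ⊥) (H : ℝ) (hH : 0 ≤ H)
    (h : 8 * Real.sqrt |(discr K : ℝ)| * ((Ideal.absNorm I : ℕ) : ℝ) < H ^ 3) :
    ∃ β : 𝓞 K, β ∈ I ∧ β ≠ 0 ∧ ∀ φ : K →+* ℂ, ‖φ (β : K)‖ < H := by
  have hI' : I ∈ nonZeroDivisors (Ideal (𝓞 K)) := mem_nonZeroDivisors_of_ne_zero hI
  have hv := b5_volume K hK (FractionalIdeal.mk0 K ⟨I, hI'⟩) ⟨H, hH⟩ (by
    rw [FractionalIdeal.coe_mk0, FractionalIdeal.coeIdeal_absNorm]
    push_cast
    exact h)
  obtain ⟨a, ha, ha0, haw⟩ := mixedEmbedding.exists_ne_zero_mem_ideal_lt K _ hv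
  rw [FractionalIdeal.coe_mk0, FractionalIdeal.mem_coeIdeal] at ha
  obtain ⟨β, hβ, rfl⟩ := ha
  refine ⟨β, hβ, fun h0 => ha0 (by rw [h0, map_zero]), fun φ => ?_⟩
  have := haw (InfinitePlace.mk φ)
  rw [InfinitePlace.apply] at this
  exact this

theorem b5_norm (K : Type) [Field K] [NumberField K] (β : 𝓞 K) :
    ((Ideal.absNorm (Ideal.span {β}) : ℕ) : ℝ) = ∏ φ : K →+* ℂ, ‖φ (β : K)‖ := by
  rw [Ideal.absNorm_span_singleton]
  have h1 : (((Algebra.norm ℤ β).natAbs : ℕ) : ℝ) = |((Algebra.norm ℚ (β : K) : ℚ) : ℝ)| := by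
    rw [← Algebra.coe_norm_int, Rat.cast_intCast, Nat.cast_natAbs, Int.cast_abs]
  rw [h1]
  have h2 := congr_arg norm (Algebra.norm_eq_prod_embeddings ℚ ℂ (β : K))
  rw [norm_prod, ← Fintype.prod_equiv (RingHom.equivRatAlgHom K ℂ) (fun f => ‖f (β : K)‖)
    (fun φ => ‖φ (β : K)‖) fun _ => by simp] at h2
  rw [← h2, eq_ratCast, ← Real.norm_eq_abs, ← Complex.norm_real, Complex.ofReal_ratCast]

theorem b5_lht (K : Type) [Field K] [NumberField K] (hK : Module.finrank ℚ K = 3) (β : 𝓞 K)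
    (h0 : β ≠ 0) (H : ℝ) (hH : 1 ≤ H) (h : ∀ φ : K →+* ℂ, ‖φ (β : K)‖ < H) :
    Lht (β : K) (2 * Real.log H) ∧ ((Ideal.absNorm (Ideal.span {β}) : ℕ) : ℝ) ≤ H ^ 3 := by
  classical
  have hcard : Fintype.card (K →+* ℂ) = 3 := by rw [Embeddings.card, hK]
  have hβ : (β : K) ≠ 0 := by
    intro h
    exact h0 (by exact_mod_cast h)
  have hpos : ∀ φ : K →+* ℂ, 0 < ‖φ (β : K)‖ := fun φ => norm_pos_iff.2 (by
    rw [Ne, map_eq_zero]; exact hβ)
  have hone : (1 : ℝ) ≤ ∏ φ : K →+* ℂ, ‖φ (β : K)‖ := by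
    rw [← b5_norm]
    have : Ideal.absNorm (Ideal.span {β}) ≠ 0 := by
      rw [Ne, Ideal.absNorm_eq_zero_iff, Ideal.span_singleton_eq_bot]
      exact h0
    exact_mod_cast Nat.one_le_iff_ne_zero.2 this
  have hlogH : 0 ≤ Real.log H := Real.log_nonneg hH
  refine ⟨⟨hβ, fun φ => ?_⟩, ?_⟩
  · rw [abs_le]
    constructor
    · have h1 : ∏ ψ : K →+* ℂ, ‖ψ (β : K)‖ ≤ ‖φ (β : K)‖ * H ^ 2 := by
        rw [← Finset.mul_prod_erase Finset.univ _ (Finset.mem_univ φ)]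
        refine mul_le_mul_of_nonneg_left ?_ (hpos φ).le
        calc ∏ ψ ∈ Finset.univ.erase φ, ‖ψ (β : K)‖ ≤ ∏ _ψ ∈ Finset.univ.erase φ, H :=
              Finset.prod_le_prod (fun ψ _ => (hpos ψ).le) (fun ψ _ => (h ψ).le)
          _ = H ^ 2 := by
              rw [Finset.prod_const, Finset.card_erase_of_mem (Finset.mem_univ φ),
                Finset.card_univ, hcard]
      have h2 : Real.log 1 ≤ Real.log (‖φ (β : K)‖ * H ^ 2) :=
        Real.log_le_log one_pos (hone.trans h1)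
      rw [Real.log_one, Real.log_mul (hpos φ).ne' (by positivity), Real.log_pow] at h2
      push_cast at h2
      linarith
    · have h1 : Real.log ‖φ (β : K)‖ ≤ Real.log H := Real.log_le_log (hpos φ) (h φ).le
      linarith
  · rw [b5_norm]
    calc ∏ ψ : K →+* ℂ, ‖ψ (β : K)‖ ≤ ∏ _ψ : K →+* ℂ, H :=
          Finset.prod_le_prod (fun ψ _ => (hpos ψ).le) (fun ψ _ => (h ψ).le)
      _ = H ^ 3 := by rw [Finset.prod_const, Finset.card_univ, hcard]

theorem b5_discr (K : Type) [Field K] [NumberField K] : (1 : ℝ) ≤ |(discr K : ℝ)| := by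
  rw [← Int.cast_abs]
  exact_mod_cast Int.one_le_abs (discr_ne_zero K)

theorem b5_ideal (K : Type) [Field K] [NumberField K] (hK : Module.finrank ℚ K = 3)
    (I : Ideal (𝓞 K)) (hI : I ≠ ⊥) (P : ℝ) (hP : ((Ideal.absNorm I : ℕ) : ℝ) ≤ P) :
    ∃ (β : 𝓞 K) (r : Ideal (𝓞 K)), Lht (β : K) (2 * Real.log (9 * (|(discr K : ℝ)| * P))) ∧
      Ideal.span {β} = I * r ∧ r ≠ ⊥ ∧
      ((Ideal.absNorm r : ℕ) : ℝ) ≤ 9 * Real.sqrt |(discr K : ℝ)| := by
  obtain ⟨D, hD⟩ : ∃ D : ℝ, D = |(discr K : ℝ)| := ⟨_, rfl⟩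
  have hD1 : 1 ≤ D := hD ▸ b5_discr K
  have hs1 : 1 ≤ Real.sqrt D := by rw [Real.one_le_sqrt]; exact hD1
  have hsD : Real.sqrt D ≤ D := by
    rw [Real.sqrt_le_left (by linarith)]
    nlinarith
  have hN1 : (1 : ℝ) ≤ ((Ideal.absNorm I : ℕ) : ℝ) := by
    have : Ideal.absNorm I ≠ 0 := by rw [Ne, Ideal.absNorm_eq_zero_iff]; exact hI
    exact_mod_cast Nat.one_le_iff_ne_zero.2 this
  obtain ⟨N, hN⟩ : ∃ N : ℝ, N = ((Ideal.absNorm I : ℕ) : ℝ) := ⟨_, rfl⟩
  rw [← hN] at hN1 hP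
  have hB1 : 1 ≤ 9 * Real.sqrt D * N := by nlinarith
  have hB0 : 0 ≤ 9 * Real.sqrt D * N := by linarith
  obtain ⟨H, hH⟩ : ∃ H : ℝ, H = (9 * Real.sqrt D * N) ^ (1 / 3 : ℝ) := ⟨_, rfl⟩
  have hH3 : H ^ 3 = 9 * Real.sqrt D * N := by
    rw [hH, ← Real.rpow_natCast, ← Real.rpow_mul hB0]
    norm_num
  have hH1 : 1 ≤ H := by rw [hH]; exact Real.one_le_rpow hB1 (by norm_num)
  have hHB : H ≤ 9 * (D * P) := by
    have h1 : H ≤ H ^ 3 := le_self_pow₀ hH1 (by norm_num)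
    rw [hH3] at h1
    have h2 : Real.sqrt D * N ≤ D * P := mul_le_mul hsD hP (by linarith) (by linarith)
    linarith
  obtain ⟨β, hβ, hβ0, hφ⟩ := b5_mink K hK I hI H (by linarith) (by
    rw [hH3, ← hD, ← hN]
    have : 0 < Real.sqrt D * N := by positivity
    linarith)
  obtain ⟨hl, hn⟩ := b5_lht K hK β hβ0 H hH1 hφ
  obtain ⟨r, hr⟩ := Ideal.dvd_span_singleton.2 hβ
  refine ⟨β, r, ⟨hl.1, fun φ => (hl.2 φ).trans ?_⟩, hr, ?_, ?_⟩
  · rw [← hD]
    have := Real.log_le_log (by linarith) hHB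
    linarith
  · rintro rfl
    rw [Ideal.mul_bot, Ideal.span_singleton_eq_bot] at hr
    exact hβ0 hr
  · rw [hr, map_mul, Nat.cast_mul, hH3, ← hN] at hn
    rw [← hD]
    have h5 : N * ((Ideal.absNorm r : ℕ) : ℝ) ≤ N * (9 * Real.sqrt D) := by linarith
    exact le_of_mul_le_mul_left h5 (by linarith)

theorem card_classes (ε : ℝ) (hε : 0 < ε) : ∃ C : ℝ, 0 < C ∧
    ∀ (K : Type) [Field K] [NumberField K], Module.finrank ℚ K = 3 → ∀ P : ℝ, 1 ≤ P →
    ∀ T : ℝ, C * (1 + Real.log (|(discr K : ℝ)| * P)) ≤ T →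
    ∀ S : Finset (Ideal (𝓞 K)), (∀ I ∈ S, I ≠ ⊥ ∧ ((Ideal.absNorm I : ℕ) : ℝ) ≤ P) →
    (∀ I ∈ S, ∀ J ∈ S, Near T (I : FractionalIdeal (nonZeroDivisors (𝓞 K)) K)
      (J : FractionalIdeal (nonZeroDivisors (𝓞 K)) K) → I = J) →
    (S.card : ℝ) ≤ C * |(discr K : ℝ)| ^ (1 / 2 + ε) := by
  classical
  obtain ⟨C', hC', hcount⟩ := card_ideals_norm (2 * ε) (by positivity)
  have hl9 : Real.log 9 ≤ 9 / 4 := by
    have h1 : Real.log 9 = 2 * Real.log 3 := by
      rw [show (9 : ℝ) = 3 ^ 2 by norm_num, Real.log_pow]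
      push_cast
      ring
    have h2 : Real.log 3 ≤ 9 / 8 := by
      rw [Real.log_le_iff_le_exp (by norm_num)]
      have h3 : (3 : ℝ) ≤ (1 + 1 / 8 + (1 / 8) ^ 2 / 2) ^ 9 := by norm_num
      have h4 : (1 + 1 / 8 + (1 / 8 : ℝ) ^ 2 / 2) ≤ Real.exp (1 / 8) :=
        Real.quadratic_le_exp_of_nonneg (by norm_num)
      have h5 : Real.exp (9 / 8) = Real.exp (1 / 8) ^ 9 := by
        rw [← Real.exp_nat_mul]
        norm_num
      rw [h5]
      exact h3.trans (pow_le_pow_left₀ (by norm_num) h4 9)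
    linarith
  refine ⟨max 9 (C' * 9 ^ (1 + 2 * ε)), lt_of_lt_of_le (by norm_num) (le_max_left _ _), ?_⟩
  intro K _ _ hK P hP T hT S hS hnear
  have hD1 : 1 ≤ |(discr K : ℝ)| := b5_discr K
  obtain ⟨D, hD⟩ : ∃ D : ℝ, D = |(discr K : ℝ)| := ⟨_, rfl⟩
  rw [← hD] at hD1 hT ⊢
  have hDP : 1 ≤ D * P := one_le_mul_of_one_le_of_one_le hD1 hP
  have hlDP : 0 ≤ Real.log (D * P) := Real.log_nonneg hDP
  have hT' : 2 * Real.log (9 * (D * P)) + 2 * Real.log (9 * (D * P)) ≤ T := by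
    rw [Real.log_mul (by norm_num) (by linarith)]
    have h1 : 9 * (1 + Real.log (D * P)) ≤ T :=
      (mul_le_mul_of_nonneg_right (le_max_left _ _) (by linarith)).trans hT
    linarith
  have hex : ∀ I : Ideal (𝓞 K), ∃ (β : 𝓞 K) (r : Ideal (𝓞 K)), I ∈ S →
      Lht (β : K) (2 * Real.log (9 * (D * P))) ∧ Ideal.span {β} = I * r ∧ r ≠ ⊥ ∧
      ((Ideal.absNorm r : ℕ) : ℝ) ≤ 9 * Real.sqrt D := by
    intro I
    by_cases hI : I ∈ S
    · obtain ⟨β, r, h1, h2, h3, h4⟩ := b5_ideal K hK I (hS I hI).1 P (hS I hI).2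
      rw [← hD] at h1 h4
      exact ⟨β, r, fun _ => ⟨h1, h2, h3, h4⟩⟩
    · exact ⟨0, ⊥, fun h => absurd h hI⟩
  choose β r hβr using hex
  have hinj : Set.InjOn r (S : Set (Ideal (𝓞 K))) := by
    intro I hI J hJ hr
    obtain ⟨a1, a2, a3, -⟩ := hβr I hI
    obtain ⟨b1, b2, b3, -⟩ := hβr J hJ
    refine hnear I hI J hJ ⟨(β I : K) * (β J : K)⁻¹, ?_, ?_⟩
    · have := lht_mul a1 (lht_inv b1)
      exact ⟨this.1, fun φ => (this.2 φ).trans hT'⟩
    · have e1 : Ideal.span {β I} * J = I * Ideal.span {β J} := by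
        rw [a2, b2, hr]
        ring
      have e2 := congrArg (fun X : Ideal (𝓞 K) =>
        (X : FractionalIdeal (nonZeroDivisors (𝓞 K)) K)) e1
      simp only [FractionalIdeal.coeIdeal_mul, FractionalIdeal.coeIdeal_span_singleton] at e2
      have e3 : FractionalIdeal.spanSingleton (nonZeroDivisors (𝓞 K)) (β J : K) *
          FractionalIdeal.spanSingleton (nonZeroDivisors (𝓞 K)) (β J : K)⁻¹ = 1 := by
        rw [FractionalIdeal.spanSingleton_mul_spanSingleton, mul_inv_cancel₀ b1.1,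
          FractionalIdeal.spanSingleton_one]
      calc (I : FractionalIdeal (nonZeroDivisors (𝓞 K)) K)
          = I * (FractionalIdeal.spanSingleton (nonZeroDivisors (𝓞 K)) (β J : K) *
            FractionalIdeal.spanSingleton (nonZeroDivisors (𝓞 K)) (β J : K)⁻¹) := by
            rw [e3, mul_one]
        _ = (I * FractionalIdeal.spanSingleton (nonZeroDivisors (𝓞 K)) (β J : K)) *
            FractionalIdeal.spanSingleton (nonZeroDivisors (𝓞 K)) (β J : K)⁻¹ := by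
            rw [mul_assoc]
        _ = (FractionalIdeal.spanSingleton (nonZeroDivisors (𝓞 K)) (β I : K) * J) *
            FractionalIdeal.spanSingleton (nonZeroDivisors (𝓞 K)) (β J : K)⁻¹ := by
            rw [e2]
        _ = _ := by
            rw [← FractionalIdeal.spanSingleton_mul_spanSingleton]
            ring
  have hs1 : 1 ≤ Real.sqrt D := by rw [Real.one_le_sqrt]; exact hD1
  have hc := hcount K hK (9 * Real.sqrt D) (by linarith) (S.image r) (by
    intro R hR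
    obtain ⟨I, hI, rfl⟩ := Finset.mem_image.1 hR
    exact (hβr I hI).2.2)
  rw [Finset.card_image_of_injOn hinj, Real.mul_rpow (by norm_num) (by positivity),
    Real.sqrt_eq_rpow, ← Real.rpow_mul (by linarith),
    show (1 / 2 : ℝ) * (1 + 2 * ε) = 1 / 2 + ε by ring, ← mul_assoc] at hc
  exact hc.trans (mul_le_mul_of_nonneg_right (le_max_right _ _) (by positivity))

end Pool.Agent.Lib.SqPart
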