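import Pool.Agent.Lib.MP_d8bd92_nt.SqDefs

set_option autoImplicit false

/-!
Three tools for the curve lemma.

exists_basis. PROOF. Take the ℤ-basis of J (`NumberField.fractionalIdealBasis` /
`NumberField.basisOfFractionalIdeal`, indexed by a type with 3 elements, reindexed by Fin 3). For a matrix
c of integers, (Σ_k c i k b_k) embedded by φ is the product matrix c * M, M k j = φ j (b_k), so
det = det c * det M, and |det M|^2 = |discr(b)| = absNorm(J)^2 |discr K|
(`Algebra.discr_eq_det_embeddingsMatrixReindex_pow_two`, `NumberField.det_basisOfFractionalIdeal_eq_absNorm`,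
`Algebra.discr_of_matrix_vecMul`, `NumberField.coe_discr`).

card_mod. PROOF. Normalise each c in S modulo ℓ (first nonzero coordinate equal to 1); the hypothesis says
that the normalised vectors are distinct. Vectors with c 0 not 0 mod ℓ: (1,y,z) with g(y,z) = G(1,y,z), a
polynomial in two variables of degree <= i over the field ZMod ℓ which is not zero (G is homogeneous and
nonzero, so G(1,y,z) is nonzero): at most i ℓ zeros (Schwartz-Zippel, `MvPolynomial.schwartz_zippel_*`, or: for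
the y for which g(y,.) is not the zero polynomial at most i zeros z; ...). Vectors with c 0 = 0: (0,1,z): at
most ℓ; (0,0,1): at most 1. Total <= (i+2) ℓ.

line_curve. PROOF. For (s,t) in S: Σ_k binom(i,k) s^k t^(i-k) lam(κ v^k w^(i-k)) = 0. Not all the numbers
lam(κ v^k w^(i-k)), 0 <= k <= i, are 0: ξ = v/w is not rational (v, w independent), so 1, ξ, ξ^2 is a basis of K
over ℚ (degree 3 is prime: ℚ(ξ) = K), and i >= 2; if all vanish then lam(κ w^i x) = 0 for x = 1, ξ, ξ^2, so for all x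
in K, so lam = 0. Hence the pairs (s,t) in S, pairwise non-proportional and nonzero, are zeros of a nonzero
binary form of degree i: at most i of them (those with t = 0: at most one class, and then the coefficient of
s^i is 0; the others have s/t a root of a nonzero polynomial of degree <= i, <= i-1 if the coefficient of s^i
is 0).
-/

namespace Pool.Agent.Lib.SqPart

open Finset NumberField

theorem exists_basis (K : Type) [Field K] [NumberField K] (hK : Module.finrank ℚ K = 3)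
    (J : FractionalIdeal (nonZeroDivisors (𝓞 K)) K) (hJ : J ≠ 0) :
    ∃ b : Fin 3 → K, LinearIndependent ℚ b ∧
      (∀ x : K, x ∈ J ↔ ∃ c : Fin 3 → ℤ, x = ∑ k, (c k : K) * b k) ∧
      ∀ (c : Matrix (Fin 3) (Fin 3) ℤ) (φ : Fin 3 ≃ (K →+* ℂ)),
        ‖Matrix.det (Matrix.of fun i j => (φ j) (∑ k, ((c i k : ℤ) : K) * b k))‖ =
          |(c.det : ℝ)| * ((FractionalIdeal.absNorm J : ℚ) : ℝ) *
            |(discr K : ℝ)| ^ (1 / 2 : ℝ) := by
  classical
  obtain ⟨I, hI⟩ : ∃ I : (FractionalIdeal (nonZeroDivisors (𝓞 K)) K)ˣ, I.1 = J :=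
    ⟨Units.mk0 J hJ, rfl⟩
  have hcard1 : Fintype.card (Module.Free.ChooseBasisIndex ℤ (𝓞 K)) = 3 := by
    rw [← Module.finrank_eq_card_chooseBasisIndex, RingOfIntegers.rank, hK]
  have hcard2 : Fintype.card (Module.Free.ChooseBasisIndex ℤ I) = 3 := by
    rw [← Module.finrank_eq_card_chooseBasisIndex, fractionalIdeal_rank, RingOfIntegers.rank, hK]
  obtain ⟨e⟩ : Nonempty ((Module.Free.ChooseBasisIndex ℤ (𝓞 K)) ≃
      (Module.Free.ChooseBasisIndex ℤ I)) :=
    ⟨Fintype.equivOfCardEq (hcard1.trans hcard2.symm)⟩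
  obtain ⟨f⟩ : Nonempty ((Module.Free.ChooseBasisIndex ℤ (𝓞 K)) ≃ Fin 3) :=
    ⟨Fintype.equivOfCardEq (hcard1.trans (Fintype.card_fin 3).symm)⟩
  have hdet := det_basisOfFractionalIdeal_eq_absNorm K I e
  obtain ⟨v, hv⟩ : ∃ v, v = (basisOfFractionalIdeal K I).reindex e.symm := ⟨_, rfl⟩
  rw [← hv] at hdet
  obtain ⟨b, hb⟩ : ∃ b, b = v.reindex f := ⟨_, rfl⟩
  have hdisc1 : Algebra.discr ℚ v = ((FractionalIdeal.absNorm J : ℚ)) ^ 2 * (discr K : ℚ) := by
    have h1 := Algebra.discr_of_matrix_vecMul (A := ℚ) (integralBasis K : _ → K)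
      ((integralBasis K).toMatrix v)
    rw [Module.Basis.toMatrix_map_vecMul] at h1
    rw [h1, ← coe_discr]
    congr 1
    rw [← hI, ← hdet, sq_abs, Module.Basis.det_apply]
  have hdisc2 : Algebra.discr ℚ b = ((FractionalIdeal.absNorm J : ℚ)) ^ 2 * (discr K : ℚ) := by
    rw [← hdisc1, hb, Module.Basis.coe_reindex]
    exact Algebra.discr_reindex ℚ v f
  refine ⟨b, b.linearIndependent, ?_, ?_⟩
  · intro x
    have h1 : x ∈ J ↔ x ∈ Submodule.span ℤ (Set.range b) := by
      rw [← hI]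
      have h2 : Set.range b = Set.range (basisOfFractionalIdeal K I) := by
        rw [hb, hv, Module.Basis.range_reindex, Module.Basis.range_reindex]
      rw [h2, mem_span_basisOfFractionalIdeal]
      rfl
    rw [h1, Submodule.mem_span_range_iff_exists_fun]
    constructor
    · rintro ⟨c, hc⟩
      exact ⟨c, by rw [← hc]; exact Finset.sum_congr rfl fun k _ => zsmul_eq_mul _ _⟩
    · rintro ⟨c, hc⟩
      exact ⟨c, by rw [hc]; exact Finset.sum_congr rfl fun k _ => zsmul_eq_mul _ _⟩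
  · intro c φ
    obtain ⟨B, hB⟩ : ∃ B : Matrix (Fin 3) (Fin 3) ℂ, B = Matrix.of fun k j => φ j (b k) :=
      ⟨_, rfl⟩
    have h1 : (Matrix.of fun i j => (φ j) (∑ k, ((c i k : ℤ) : K) * b k)) =
        (c.map (Int.castRingHom ℂ)) * B := by
      ext i j
      rw [Matrix.mul_apply, hB]
      simp only [Matrix.of_apply, Matrix.map_apply, map_sum, map_mul, map_intCast]
      rfl
    have h2 : B.det ^ 2 = algebraMap ℚ ℂ (Algebra.discr ℚ b) := by
      rw [Algebra.discr_eq_det_embeddingsMatrixReindex_pow_two ℚ ℂ b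
        (φ.trans (RingHom.equivRatAlgHom K ℂ))]
      congr 2
    have h3 : ‖B.det‖ ^ 2 = (((FractionalIdeal.absNorm J : ℚ) : ℝ)) ^ 2 * |(discr K : ℝ)| := by
      rw [← norm_pow, h2, hdisc2]
      simp
    have hN : 0 ≤ ((FractionalIdeal.absNorm J : ℚ) : ℝ) := by
      exact_mod_cast FractionalIdeal.absNorm_nonneg J
    have h4 : ‖B.det‖ = ((FractionalIdeal.absNorm J : ℚ) : ℝ) * |(discr K : ℝ)| ^ (1 / 2 : ℝ) := by
      rw [← sq_eq_sq₀ (norm_nonneg _) (by positivity), h3, mul_pow, ← Real.sqrt_eq_rpow,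
        Real.sq_sqrt (abs_nonneg _)]
    rw [h1, Matrix.det_mul, norm_mul, h4, mul_assoc]
    congr 1
    have h5 : (c.map (Int.castRingHom ℂ)).det = ((c.det : ℤ) : ℂ) := by
      have h6 := RingHom.map_det (Int.castRingHom ℂ) c
      rw [RingHom.mapMatrix_apply] at h6
      rw [← h6]
      rfl
    rw [h5, Complex.norm_intCast]

/-- homogeneity of the values -/
theorem b6b_eval {R : Type} [CommRing R] (i : ℕ) (G : MvPolynomial (Fin 3) R)
    (hi : G.IsHomogeneous i) (u : R) (f : Fin 3 → R) :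
    MvPolynomial.eval (fun k => u * f k) G = u ^ i * MvPolynomial.eval f G := by
  rw [MvPolynomial.eval_eq', MvPolynomial.eval_eq', Finset.mul_sum]
  refine Finset.sum_congr rfl fun d hd => ?_
  have h1 : ∑ k, d k = i := by
    have h2 := hi (MvPolynomial.mem_support_iff.mp hd)
    rw [← h2, Finsupp.weight_apply, Finsupp.sum_fintype]
    · simp
    · intro k
      simp
  have h3 : ∏ k, (u * f k) ^ d k = u ^ i * ∏ k, f k ^ d k := by
    rw [← h1, ← Finset.prod_pow_eq_pow_sum, ← Finset.prod_mul_distrib]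
    exact Finset.prod_congr rfl fun k _ => mul_pow _ _ _
  rw [h3]
  ring

/-- the number of zeros over a finite field -/
theorem b6b_zeros (l : ℕ) [Fact l.Prime] (i : ℕ) (G : MvPolynomial (Fin 3) (ZMod l)) (hG : G ≠ 0)
    (hi : G.IsHomogeneous i) :
    (univ.filter (fun f : Fin 3 → ZMod l => MvPolynomial.eval f G = 0)).card ≤ i * l ^ 2 := by
  classical
  have hl : 0 < l := (Fact.out : l.Prime).pos
  have h1 := MvPolynomial.schwartz_zippel_totalDegree hG (univ : Finset (ZMod l))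
  have h2 : (Fintype.piFinset fun _ : Fin 3 => (univ : Finset (ZMod l))) = univ :=
    Fintype.piFinset_univ
  rw [h2, Finset.card_univ, ZMod.card, hi.totalDegree hG] at h1
  have hl' : (0 : ℚ≥0) < l := by exact_mod_cast hl
  rw [div_le_div_iff₀ (by positivity) hl'] at h1
  have h3 : ((univ.filter (fun f : Fin 3 → ZMod l => MvPolynomial.eval f G = 0)).card : ℚ≥0) * l ≤
      (i * l ^ 2 : ℕ) * l := by
    refine h1.trans (le_of_eq ?_)
    push_cast
    ring
  have h4 := le_of_mul_le_mul_right h3 hl'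
  exact_mod_cast h4

theorem card_mod (l : ℕ) [Fact l.Prime] (i : ℕ) (G : MvPolynomial (Fin 3) (ZMod l)) (hG : G ≠ 0)
    (hi : G.IsHomogeneous i) (S : Finset (Fin 3 → ℤ))
    (h0 : ∀ c ∈ S, (∃ k, ((c k : ℤ) : ZMod l) ≠ 0) ∧
      MvPolynomial.eval (fun k => ((c k : ℤ) : ZMod l)) G = 0)
    (h1 : ∀ c ∈ S, ∀ c' ∈ S, (∀ j k, ((c j * c' k - c k * c' j : ℤ) : ZMod l) = 0) → c = c') :
    S.card ≤ (i + 2) * l := by
  classical
  have hl2 : 2 ≤ l := (Fact.out : l.Prime).two_le
  obtain ⟨T, hT⟩ : ∃ T, T = univ.filter (fun f : Fin 3 → ZMod l => MvPolynomial.eval f G = 0) :=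
    ⟨_, rfl⟩
  have hTc : T.card ≤ i * l ^ 2 := by
    rw [hT]
    exact b6b_zeros l i G hG hi
  obtain ⟨N, hN⟩ : ∃ N, N = (univ : Finset (Fin 3 → ZMod l)).erase 0 := ⟨_, rfl⟩
  have hNc : N.card = l ^ 3 - 1 := by
    rw [hN, Finset.card_erase_of_mem (Finset.mem_univ _), Finset.card_univ, Fintype.card_fun,
      ZMod.card, Fintype.card_fin]
  obtain ⟨F, hF⟩ : ∃ F : (Fin 3 → ℤ) × (ZMod l)ˣ → (Fin 3 → ZMod l),
      F = fun x k => (x.2 : ZMod l) * ((x.1 k : ℤ) : ZMod l) := ⟨_, rfl⟩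
  have hinj : Set.InjOn F (S ×ˢ (univ : Finset (ZMod l)ˣ) : Finset _) := by
    rintro ⟨c, u⟩ hx ⟨c', u'⟩ hy hxy
    rw [Finset.mem_coe, Finset.mem_product] at hx hy
    have hxy' : ∀ k, (u : ZMod l) * ((c k : ℤ) : ZMod l) = (u' : ZMod l) * ((c' k : ℤ) : ZMod l) := by
      intro k
      rw [hF] at hxy
      exact congrFun hxy k
    have hcc : c = c' := by
      apply h1 c hx.1 c' hy.1
      intro j k
      have h2 : (u : ZMod l) * (((c j * c' k - c k * c' j : ℤ) : ZMod l)) = 0 := by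
        push_cast
        have h3 := hxy' j
        have h4 := hxy' k
        calc (u : ZMod l) * ((c j : ZMod l) * (c' k : ZMod l) - (c k : ZMod l) * (c' j : ZMod l))
            = ((u : ZMod l) * (c j : ZMod l)) * (c' k : ZMod l) -
              ((u : ZMod l) * (c k : ZMod l)) * (c' j : ZMod l) := by ring
          _ = 0 := by rw [h3, h4]; ring
      exact (mul_eq_zero.mp h2).resolve_left (Units.ne_zero u)
    subst hcc
    obtain ⟨k, hk⟩ := (h0 c hx.1).1
    have h5 : u = u' := Units.ext (mul_right_cancel₀ hk (hxy' k))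
    rw [h5]
  have hcard : ((S ×ˢ (univ : Finset (ZMod l)ˣ)).image F).card = S.card * (l - 1) := by
    rw [Finset.card_image_of_injOn hinj, Finset.card_product, Finset.card_univ, ZMod.card_units]
  have hsub : (S ×ˢ (univ : Finset (ZMod l)ˣ)).image F ⊆ T ∩ N := by
    intro f hf
    rw [Finset.mem_image] at hf
    obtain ⟨⟨c, u⟩, hx, rfl⟩ := hf
    rw [Finset.mem_product] at hx
    rw [Finset.mem_inter, hT, hN, Finset.mem_filter, Finset.mem_erase]
    refine ⟨⟨Finset.mem_univ _, ?_⟩, ?_, Finset.mem_univ _⟩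
    · rw [hF]
      show MvPolynomial.eval (fun k => (u : ZMod l) * ((c k : ℤ) : ZMod l)) G = 0
      rw [b6b_eval i G hi, (h0 c hx.1).2, mul_zero]
    · intro h2
      obtain ⟨k, hk⟩ := (h0 c hx.1).1
      have h3 := congrFun h2 k
      rw [hF] at h3
      exact mul_ne_zero (Units.ne_zero u) hk h3
  have h3 : S.card * (l - 1) ≤ i * l ^ 2 := by
    rw [← hcard]
    exact ((Finset.card_le_card hsub).trans (Finset.card_le_card Finset.inter_subset_left)).trans
      hTc
  have h4 : S.card * (l - 1) ≤ l ^ 3 - 1 := by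
    rw [← hcard, ← hNc]
    exact (Finset.card_le_card hsub).trans (Finset.card_le_card Finset.inter_subset_right)
  obtain ⟨m, rfl⟩ : ∃ m, l = m + 1 := ⟨l - 1, by omega⟩
  have hm : 1 ≤ m := by omega
  rw [Nat.add_sub_cancel] at h3 h4
  by_contra hcon
  push Not at hcon
  have h5 : (i + 2) * (m + 1) + 1 ≤ S.card := hcon
  have h6 : ((i + 2) * (m + 1) + 1) * m ≤ S.card * m := Nat.mul_le_mul_right m h5
  have h7 : (m + 1) ^ 3 - 1 = m * (m ^ 2 + 3 * m + 3) := by
    have : (m + 1) ^ 3 = m * (m ^ 2 + 3 * m + 3) + 1 := by ring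
    rw [this, Nat.add_sub_cancel]
  rw [h7] at h4
  rcases le_or_gt i (2 * m) with h8 | h8
  · have h9 := h6.trans h3
    nlinarith
  · have h9 := h6.trans h4
    have h10 : (i + 2) * (m + 1) + 1 ≤ m ^ 2 + 3 * m + 3 := by
      have h11 : m * ((i + 2) * (m + 1) + 1) ≤ m * (m ^ 2 + 3 * m + 3) := by
        rw [mul_comm m ((i + 2) * (m + 1) + 1)]
        exact h9
      exact Nat.le_of_mul_le_mul_left h11 hm
    nlinarith

/-- not all the coefficients vanish -/
theorem b6c_ne (K : Type) [Field K] [NumberField K] (hK : Module.finrank ℚ K = 3)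
    (lam : K →ₗ[ℚ] ℚ) (hlam : lam ≠ 0) (κ : K) (hκ : κ ≠ 0) (i : ℕ) (hi : 2 ≤ i) (v w : K)
    (hvw : LinearIndependent ℚ ![v, w]) : ∃ k ≤ i, lam (κ * (v ^ k * w ^ (i - k))) ≠ 0 := by
  by_contra hcon
  push Not at hcon
  have hw : w ≠ 0 := by
    have := hvw.ne_zero 1
    simpa using this
  obtain ⟨ξ, hξ⟩ : ∃ ξ, ξ = v / w := ⟨_, rfl⟩
  have hint : IsIntegral ℚ ξ := Algebra.IsIntegral.isIntegral ξ
  have hne1 : (minpoly ℚ ξ).natDegree ≠ 1 := by
    intro h1
    rw [minpoly.natDegree_eq_one_iff] at h1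
    obtain ⟨q, hq⟩ := h1
    rw [LinearIndependent.pair_iff] at hvw
    have h2 := hvw 1 (-q) (by
      have h3 : v = (algebraMap ℚ K q) * w := by
        rw [hq, hξ, div_mul_cancel₀ _ hw]
      rw [one_smul, neg_smul, Algebra.smul_def, ← h3, add_neg_cancel])
    exact one_ne_zero h2.1
  have hdeg : (minpoly ℚ ξ).natDegree = 3 := by
    have h1 : (minpoly ℚ ξ).natDegree ∣ 3 := by
      rw [← hK, ← IntermediateField.adjoin.finrank hint]
      exact ⟨_, (Module.finrank_mul_finrank ℚ (IntermediateField.adjoin ℚ {ξ}) K).symm⟩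
    rcases (Nat.dvd_prime Nat.prime_three).mp h1 with h2 | h2
    · exact absurd h2 hne1
    · exact h2
  have hli := linearIndependent_pow (K := ℚ) ξ
  have hspan := hli.span_eq_top_of_card_eq_finrank' (by rw [Fintype.card_fin, hdeg, hK])
  obtain ⟨L, hL⟩ : ∃ L : K →ₗ[ℚ] ℚ, L = lam ∘ₗ (LinearMap.mulLeft ℚ (κ * w ^ i)) := ⟨_, rfl⟩
  have key : ∀ m : ℕ, m ≤ i → κ * w ^ i * ξ ^ m = κ * (v ^ m * w ^ (i - m)) := by
    intro m hm
    have h3 : w ^ i = w ^ m * w ^ (i - m) := by
      rw [← pow_add]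
      congr 1
      omega
    rw [h3, hξ, div_pow]
    have h4 : w ^ m ≠ 0 := pow_ne_zero _ hw
    field_simp
  have hL0 : L = 0 := by
    have h1 : Submodule.span ℚ (Set.range fun n : Fin (minpoly ℚ ξ).natDegree => ξ ^ (n : ℕ)) ≤
        LinearMap.ker L := by
      rw [Submodule.span_le]
      rintro _ ⟨n, rfl⟩
      rw [SetLike.mem_coe, LinearMap.mem_ker, hL]
      show lam (κ * w ^ i * ξ ^ (n : ℕ)) = 0
      have hn : (n : ℕ) ≤ i := by
        have := n.2
        omega
      have h2 := key (n : ℕ) hn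
      rw [h2]
      exact hcon n hn
    rw [hspan, top_le_iff, LinearMap.ker_eq_top] at h1
    exact h1
  apply hlam
  ext y
  have h1 : L ((κ * w ^ i)⁻¹ * y) = lam y := by
    rw [hL]
    show lam (κ * w ^ i * ((κ * w ^ i)⁻¹ * y)) = lam y
    rw [mul_inv_cancel_left₀ (mul_ne_zero hκ (pow_ne_zero _ hw))]
  rw [← h1, hL0]
  rfl

/-- the binomial expansion -/
theorem b6c_expand (K : Type) [Field K] [NumberField K]
    (lam : K →ₗ[ℚ] ℚ) (κ : K) (i : ℕ) (v w : K) (s t : ℚ) :
    lam (κ * ((s : K) * v + (t : K) * w) ^ i) =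
      ∑ k ∈ range (i + 1), (s ^ k * t ^ (i - k)) *
        ((i.choose k : ℚ) * lam (κ * (v ^ k * w ^ (i - k)))) := by
  rw [add_pow, Finset.mul_sum, map_sum]
  refine Finset.sum_congr rfl fun k _ => ?_
  have h1 : κ * (((s : K) * v) ^ k * ((t : K) * w) ^ (i - k) * (i.choose k : K)) =
      (s ^ k * t ^ (i - k) * (i.choose k : ℚ)) • (κ * (v ^ k * w ^ (i - k))) := by
    rw [Rat.smul_def]
    push_cast
    ring
  rw [h1, map_smul, smul_eq_mul]
  ring

theorem line_curve (K : Type) [Field K] [NumberField K] (hK : Module.finrank ℚ K = 3)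
    (lam : K →ₗ[ℚ] ℚ) (hlam : lam ≠ 0) (κ : K) (hκ : κ ≠ 0) (i : ℕ) (hi : 2 ≤ i) (v w : K)
    (hvw : LinearIndependent ℚ ![v, w]) (S : Finset (ℚ × ℚ)) (h0 : ∀ x ∈ S, x ≠ 0)
    (h1 : ∀ x ∈ S, ∀ y ∈ S, x.1 * y.2 = x.2 * y.1 → x = y)
    (h2 : ∀ x ∈ S, lam (κ * (((x.1 : ℚ) : K) * v + ((x.2 : ℚ) : K) * w) ^ i) = 0) :
    S.card ≤ i := by
  classical
  obtain ⟨k₀, hk₀, hk₀ne⟩ := b6c_ne K hK lam hlam κ hκ i hi v w hvw
  obtain ⟨a, ha⟩ : ∃ a : ℕ → ℚ, a = fun k => (i.choose k : ℚ) * lam (κ * (v ^ k * w ^ (i - k))) :=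
    ⟨_, rfl⟩
  have ha0 : a k₀ ≠ 0 := by
    rw [ha]
    exact mul_ne_zero (by exact_mod_cast (Nat.choose_pos hk₀).ne') hk₀ne
  obtain ⟨p, hp⟩ : ∃ p : Polynomial ℚ, p = ∑ k ∈ range (i + 1), Polynomial.monomial k (a k) :=
    ⟨_, rfl⟩
  have hpc : ∀ k, p.coeff k = if k ≤ i then a k else 0 := by
    intro k
    rw [hp, Polynomial.finsetSum_coeff]
    simp only [Polynomial.coeff_monomial]
    rw [Finset.sum_ite_eq' (range (i + 1)) k a]
    simp only [Finset.mem_range, Nat.lt_succ_iff]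
  have hp0 : p ≠ 0 := by
    intro h3
    have h4 := hpc k₀
    rw [h3, Polynomial.coeff_zero, if_pos hk₀] at h4
    exact ha0 h4.symm
  have hpdeg : p.natDegree ≤ i := by
    rw [Polynomial.natDegree_le_iff_coeff_eq_zero]
    intro N hN
    rw [hpc, if_neg (by omega)]
  have heval : ∀ x : ℚ, p.eval x = ∑ k ∈ range (i + 1), a k * x ^ k := by
    intro x
    rw [hp, Polynomial.eval_finsetSum]
    simp only [Polynomial.eval_monomial]
  -- points with nonzero second coordinate
  have hroot : ∀ x ∈ S, x.2 ≠ 0 → p.eval (x.1 / x.2) = 0 := by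
    intro x hx hx2
    have h3 := h2 x hx
    rw [b6c_expand] at h3
    have h4 : x.2 ^ i * p.eval (x.1 / x.2) = 0 := by
      rw [heval, Finset.mul_sum, ← h3]
      refine Finset.sum_congr rfl fun k hk => ?_
      have hk' : k ≤ i := Nat.lt_succ_iff.mp (Finset.mem_range.mp hk)
      have h5 : x.2 ^ i = x.2 ^ k * x.2 ^ (i - k) := by
        rw [← pow_add]
        congr 1
        omega
      rw [h5, div_pow, ha]
      have h6 : x.2 ^ k ≠ 0 := pow_ne_zero _ hx2
      field_simp
    exact (mul_eq_zero.mp h4).resolve_left (pow_ne_zero _ hx2)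
  obtain ⟨S', hS'⟩ : ∃ S', S' = S.filter (fun x => x.2 ≠ 0) := ⟨_, rfl⟩
  have hS'card : S'.card ≤ p.natDegree := by
    have h3 : (S'.image (fun x => x.1 / x.2)).card = S'.card := by
      apply Finset.card_image_of_injOn
      intro x hx y hy hxy
      rw [Finset.mem_coe, hS', Finset.mem_filter] at hx hy
      apply h1 x hx.1 y hy.1
      have h4 : x.1 / x.2 = y.1 / y.2 := hxy
      rw [div_eq_div_iff hx.2 hy.2] at h4
      rw [h4]
      ring
    rw [← h3]
    refine le_trans ?_ (Polynomial.card_roots' p)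
    refine le_trans ?_ (Multiset.toFinset_card_le _)
    apply Finset.card_le_card
    intro z hz
    rw [Finset.mem_image] at hz
    obtain ⟨x, hx, rfl⟩ := hz
    rw [hS', Finset.mem_filter] at hx
    rw [Multiset.mem_toFinset, Polynomial.mem_roots hp0]
    exact hroot x hx.1 hx.2
  obtain ⟨S'', hS''⟩ : ∃ S'', S'' = S.filter (fun x => ¬ x.2 ≠ 0) := ⟨_, rfl⟩
  have hcard : S.card = S'.card + S''.card := by
    rw [hS', hS'']
    exact (Finset.card_filter_add_card_filter_not _).symm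
  have hS''card : S''.card ≤ 1 := by
    rw [Finset.card_le_one]
    intro x hx y hy
    rw [hS'', Finset.mem_filter, not_not] at hx hy
    apply h1 x hx.1 y hy.1
    rw [hx.2, hy.2]
    ring
  rcases Nat.eq_zero_or_pos S''.card with hz | hpos
  · rw [hcard, hz, add_zero]
    exact hS'card.trans hpdeg
  · obtain ⟨x, hx⟩ := Finset.card_pos.mp hpos
    rw [hS'', Finset.mem_filter, not_not] at hx
    have hx1 : x.1 ≠ 0 := by
      intro h3
      exact h0 x hx.1 (Prod.ext h3 hx.2)
    have hai : a i = 0 := by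
      have h3 := h2 x hx.1
      rw [b6c_expand, Finset.sum_range_succ, Finset.sum_eq_zero, zero_add, Nat.sub_self,
        pow_zero, mul_one] at h3
      · have h4 : x.1 ^ i * a i = 0 := by
          rw [← h3, ha]
          simp
        exact (mul_eq_zero.mp h4).resolve_left (pow_ne_zero _ hx1)
      · intro k hk
        have hk' := Finset.mem_range.mp hk
        rw [hx.2, zero_pow (by omega), mul_zero, zero_mul]
    have hdeg' : p.natDegree ≤ i - 1 := by
      rw [Polynomial.natDegree_le_iff_coeff_eq_zero]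
      intro N hN
      rw [hpc]
      split_ifs with h3
      · have h4 : N = i := by omega
        rw [h4, hai]
      · rfl
    have h3 := hS'card.trans hdeg'
    omega

end Pool.Agent.Lib.SqPart
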