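import Pool.Agent.Lib.MP_d8bd92_nt.SqB6

set_option autoImplicit false

/-!
Elements of a fractional ideal of bounded height on a plane curve.

PROOF. D = |discr K|, N = absNorm J > 0, basis b of J from `exists_basis`; coordinates c(ρ) in ℤ^3 of ρ in S.
(1) Boxes: map ρ to (floor (log ‖φ ρ‖ / log 2))_φ; at most (2T/log 2 + 2)^3 <= C T^3 boxes. Fix a box.
(2) For ρ1, ρ2, ρ3 in the box, expanding the determinant of (φ_j ρ_i): it is at most
6 * prod_j max_i ‖φ_j ρ_i‖ <= 6 * 8 * prod_j ‖φ_j ρ_1‖ = 48 |Norm ρ_1| <= 48 B (product of the embeddings =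
norm). By `exists_basis`, |det (c(ρ_i))| <= B' := 48 B / (N D^(1/2)).
(3) Choose a prime l with B' < l^2 and l <= 2 B'^(1/2) + 4 (Bertrand, `Nat.exists_prime_lt_and_le_two_mul`, applied
to floor(B'^(1/2)) + 1). For ρ in S: c(ρ) is not 0 mod l since ρ is not in l J.
(4) The polynomial in c: lam (κ (Σ c_k b_k)^i), homogeneous of degree i with rational coefficients, is not zero:
if it vanished identically on ℤ^3, so on K, this would contradict `line_curve` (take two independent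
vectors and i+1 non-proportional pairs). Multiply by an integer and divide by the gcd of the coefficients:
primitive integral polynomial G0 of degree i; its reduction G mod l is nonzero, homogeneous of degree i, and
G(c(ρ)) = 0 for ρ in S. (Define G0 as an MvPolynomial (Fin 3) ℤ: e.g. expand with multinomial
coefficients, or abstractly: the MvPolynomial (Fin 3) ℚ  p := Σ over a basis..., and clear denominators,
`MvPolynomial` / `IsLocalization.integerNormalization`-type argument, content via gcd of coefficients.)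
(5) Call ρ, ρ' in the box equivalent if c(ρ), c(ρ') are proportional mod l (all 2x2 minors 0 mod l). By
`card_mod` there are at most (i+2) l classes. In a class, any three coordinate vectors have determinant
divisible by l^2 (all rows are multiples of one vector modulo l), and of absolute value < l^2 by (2),(3), so
equal to 0: the class lies in a ℚ-subspace of dimension <= 2. If the class contains two non-proportional
elements v, w, then every ρ in it is s v + t w, and `line_curve` bounds the number of elements up to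
rational proportionality by i; by hypothesis proportional elements are ±: at most 2i elements. If all are
proportional: at most 2 elements.
(6) Total: C T^3 (i+2) l 2i <= C' i^2 T^3 (1 + (B/(N D^(1/2)))^(1/2)).
-/

namespace Pool.Agent.Lib.SqPart

open Finset NumberField

theorem b7_sep {α : Type*} [DecidableEq α] (r : α → α → Prop) (hr : ∀ x, r x x)
    (hs : ∀ x y, r x y → r y x) (E : Finset α) :
    ∃ E' : Finset α, E' ⊆ E ∧ (∀ x ∈ E', ∀ y ∈ E', r x y → x = y) ∧ ∀ x ∈ E, ∃ y ∈ E', r x y := by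
  induction E using Finset.induction_on with
  | empty => exact ⟨∅, by simp, by simp, by simp⟩
  | insert a E ha ih =>
    obtain ⟨E', h1, h2, h3⟩ := ih
    by_cases h : ∃ y ∈ E', r a y
    · refine ⟨E', h1.trans (subset_insert _ _), h2, fun x hx => ?_⟩
      rcases mem_insert.1 hx with rfl | hx
      · exact h
      · exact h3 x hx
    · push Not at h
      refine ⟨insert a E', insert_subset_insert _ h1, fun x hx y hy hxy => ?_, fun x hx => ?_⟩
      · rcases mem_insert.1 hx with hx1 | hx1 <;> rcases mem_insert.1 hy with hy1 | hy1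
        · rw [hx1, hy1]
        · rw [hx1] at hxy
          exact absurd hxy (h y hy1)
        · rw [hy1] at hxy
          exact absurd (hs _ _ hxy) (h x hx1)
        · exact h2 x hx1 y hy1 hxy
      · rcases mem_insert.1 hx with rfl | hx
        · exact ⟨x, mem_insert_self _ _, hr x⟩
        · obtain ⟨y, hy, hxy⟩ := h3 x hx
          exact ⟨y, mem_insert_of_mem hy, hxy⟩

/-- the polynomial of the curve modulo `l` -/
theorem b7_poly (K : Type) [Field K] [NumberField K] (hK : Module.finrank ℚ K = 3)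
    (lam : K →ₗ[ℚ] ℚ) (hlam : lam ≠ 0) (κ : K) (hκ : κ ≠ 0) (i : ℕ) (hi : 2 ≤ i) (b : Fin 3 → K)
    (hb : LinearIndependent ℚ b) (l : ℕ) [hl : Fact l.Prime] :
    ∃ G : MvPolynomial (Fin 3) (ZMod l), G ≠ 0 ∧ G.IsHomogeneous i ∧
      ∀ c : Fin 3 → ℤ, lam (κ * (∑ k, (c k : K) * b k) ^ i) = 0 →
        MvPolynomial.eval (fun k => ((c k : ℤ) : ZMod l)) G = 0 := by
  classical
  set q : MvPolynomial (Fin 3) K :=
    MvPolynomial.C κ * (∑ k, MvPolynomial.C (b k) * MvPolynomial.X k) ^ i with hq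
  have hqh : q.IsHomogeneous i := by
    have h1 : (∑ k, MvPolynomial.C (b k) * MvPolynomial.X k : MvPolynomial (Fin 3) K).IsHomogeneous 1 := by
      refine MvPolynomial.IsHomogeneous.sum _ _ _ fun k _ => ?_
      have := (MvPolynomial.isHomogeneous_C (Fin 3) (b k)).mul (MvPolynomial.isHomogeneous_X K k)
      simpa using this
    have := (MvPolynomial.isHomogeneous_C (Fin 3) κ).mul (h1.pow i)
    simpa using this
  set s := q.support with hs
  -- evaluation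
  have heval : ∀ c : Fin 3 → ℤ, lam (κ * (∑ k, (c k : K) * b k) ^ i) =
      ∑ m ∈ s, lam (q.coeff m) * ((∏ k, c k ^ m k : ℤ) : ℚ) := by
    intro c
    have h1 : κ * (∑ k, (c k : K) * b k) ^ i = MvPolynomial.eval (fun k => (c k : K)) q := by
      rw [hq]
      simp only [map_mul, map_pow, map_sum, MvPolynomial.eval_C, MvPolynomial.eval_X]
      simp only [mul_comm]
    rw [h1, MvPolynomial.eval_eq', map_sum]
    refine sum_congr rfl fun m _ => ?_
    have h2 : (∏ k, (c k : K) ^ m k) = (((∏ k, c k ^ m k : ℤ) : ℚ) : K) := by push_cast; rfl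
    rw [h2, mul_comm, ← Rat.smul_def, map_smul, smul_eq_mul, mul_comm]
  -- common denominator
  set d : ℕ := ∏ m ∈ s, (lam (q.coeff m)).den with hd
  have hd0 : d ≠ 0 := by
    rw [hd]
    exact prod_ne_zero_iff.2 fun m _ => (lam (q.coeff m)).den_nz
  have hint : ∀ m ∈ s, ∃ z : ℤ, (z : ℚ) = d * lam (q.coeff m) := by
    intro m hm
    obtain ⟨e, he⟩ : (lam (q.coeff m)).den ∣ d := dvd_prod_of_mem _ hm
    refine ⟨e * (lam (q.coeff m)).num, ?_⟩
    have h3 := Rat.den_mul_eq_num (lam (q.coeff m))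
    rw [he]
    push_cast
    rw [← h3]
    ring
  choose! f hf using hint
  have hg0 : s.gcd f ≠ 0 := by
    intro h0
    rw [Finset.gcd_eq_zero_iff] at h0
    have hz : ∀ m ∈ s, lam (q.coeff m) = 0 := by
      intro m hm
      have := hf m hm
      rw [h0 m hm] at this
      have hd' : (d : ℚ) ≠ 0 := by exact_mod_cast hd0
      simpa [hd'] using this.symm
    have hall : ∀ c : Fin 3 → ℤ, lam (κ * (∑ k, (c k : K) * b k) ^ i) = 0 := by
      intro c
      rw [heval]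
      exact sum_eq_zero fun m hm => by rw [hz m hm, zero_mul]
    have hvw : LinearIndependent ℚ ![b 0, b 1] := by
      have := hb.comp ![0, 1] (by
        intro x y hxy
        fin_cases x <;> fin_cases y <;> simp_all)
      convert this using 1
      ext x
      fin_cases x <;> rfl
    set S' : Finset (ℚ × ℚ) := Finset.image (fun j : ℕ => ((1 : ℚ), (j : ℚ))) (range (i + 1)) with hS'
    have hcard : S'.card = i + 1 := by
      rw [hS', card_image_of_injective _ (fun x y hxy => by simpa using hxy), card_range]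
    have := line_curve K hK lam hlam κ hκ i hi (b 0) (b 1) hvw S' (by
      intro x hx
      obtain ⟨j, _, rfl⟩ := mem_image.1 hx
      simp) (by
      intro x hx y hy hxy
      obtain ⟨j, _, rfl⟩ := mem_image.1 hx
      obtain ⟨j', _, rfl⟩ := mem_image.1 hy
      simp only [one_mul, mul_one] at hxy
      rw [hxy]) (by
      intro x hx
      obtain ⟨j, _, rfl⟩ := mem_image.1 hx
      have := hall ![1, j, 0]
      simpa [Fin.sum_univ_three] using this)
    omega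
  have hsne : s.Nonempty := by
    by_contra h
    rw [not_nonempty_iff_eq_empty] at h
    rw [h] at hg0
    simp at hg0
  obtain ⟨g, hg1, hg2⟩ := Finset.extract_gcd f hsne
  refine ⟨∑ m ∈ s, MvPolynomial.monomial m ((g m : ℤ) : ZMod l), ?_, ?_, ?_⟩
  · intro h0
    have hdvd : ∀ m ∈ s, (l : ℤ) ∣ g m := by
      intro m hm
      rw [← ZMod.intCast_zmod_eq_zero_iff_dvd]
      have := congrArg (MvPolynomial.coeff m) h0
      rw [MvPolynomial.coeff_sum, MvPolynomial.coeff_zero] at this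
      simp only [MvPolynomial.coeff_monomial] at this
      rw [sum_ite_eq' s m] at this
      simpa [hm] using this
    have := Finset.dvd_gcd hdvd
    rw [hg2] at this
    have h2 : (l : ℤ) = 1 := by
      refine Int.eq_one_of_dvd_one (by positivity) this
    have h3 := hl.out.one_lt
    omega
  · refine MvPolynomial.IsHomogeneous.sum _ _ _ fun m hm => ?_
    refine MvPolynomial.isHomogeneous_monomial _ ?_
    have := hqh (MvPolynomial.mem_support_iff.1 hm)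
    rw [← this]
    simp [Finsupp.weight_apply, Finsupp.degree, Finsupp.sum]
  · intro c hc
    have h1 : (∑ m ∈ s, g m * ∏ k, c k ^ m k : ℤ) = 0 := by
      have h2 : (s.gcd f : ℤ) * (∑ m ∈ s, g m * ∏ k, c k ^ m k : ℤ) = 0 := by
        rw [mul_sum]
        have h3 : ∀ m ∈ s, s.gcd f * (g m * ∏ k, c k ^ m k) = f m * ∏ k, c k ^ m k := by
          intro m hm
          rw [hg1 m hm]
          ring
        rw [sum_congr rfl h3]
        have h4 : ((∑ m ∈ s, f m * ∏ k, c k ^ m k : ℤ) : ℚ) = 0 := by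
          push_cast
          have h5 : ∀ m ∈ s, (f m : ℚ) * ∏ k, (c k : ℚ) ^ m k =
              d * (lam (q.coeff m) * ((∏ k, c k ^ m k : ℤ) : ℚ)) := by
            intro m hm
            rw [hf m hm]
            push_cast
            ring
          rw [sum_congr rfl h5, ← mul_sum, ← heval, hc, mul_zero]
        exact_mod_cast h4
      exact (mul_eq_zero.1 h2).resolve_left hg0
    rw [map_sum]
    have h6 : ∀ m ∈ s, MvPolynomial.eval (fun k => ((c k : ℤ) : ZMod l))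
        (MvPolynomial.monomial m ((g m : ℤ) : ZMod l)) = ((g m * ∏ k, c k ^ m k : ℤ) : ZMod l) := by
      intro m _
      rw [MvPolynomial.eval_monomial, Finsupp.prod_fintype _ _ (by simp)]
      push_cast
      rfl
    rw [sum_congr rfl h6, ← Int.cast_sum, h1, Int.cast_zero]

/-- rows proportional to one vector modulo `l` -/
theorem b7_det_dvd (l : ℕ) [hl : Fact l.Prime] (r : Fin 3 → ℤ)
    (hr : ∃ k, ((r k : ℤ) : ZMod l) ≠ 0) (M : Matrix (Fin 3) (Fin 3) ℤ)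
    (hM : ∀ i j k, ((M i j * r k - M i k * r j : ℤ) : ZMod l) = 0) : ((l : ℤ) ^ 2) ∣ M.det := by
  obtain ⟨k0, hk0⟩ := hr
  have h1 : ∀ i, ∃ t : ℤ, ∀ j, ∃ e : ℤ, M i j = t * r j + l * e := by
    intro i
    obtain ⟨t, ht⟩ := ZMod.intCast_surjective (((M i k0 : ℤ) : ZMod l) * ((r k0 : ℤ) : ZMod l)⁻¹)
    refine ⟨t, fun j => ?_⟩
    have h2 : ((M i j - t * r j : ℤ) : ZMod l) = 0 := by
      have h3 := hM i j k0
      push_cast at h3 ⊢
      rw [ht]
      have h4 : ((M i j : ℤ) : ZMod l) * ((r k0 : ℤ) : ZMod l) =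
        ((M i k0 : ℤ) : ZMod l) * ((r j : ℤ) : ZMod l) := by linear_combination h3
      field_simp
      linear_combination h4
    rw [ZMod.intCast_zmod_eq_zero_iff_dvd] at h2
    obtain ⟨e, he⟩ := h2
    exact ⟨e, by linear_combination he⟩
  choose t ht using h1
  choose e he using ht
  rw [Matrix.det_fin_three]
  simp only [he]
  refine ⟨t 0 * (r 0 * (e 1 1 * e 2 2 - e 1 2 * e 2 1) - r 1 * (e 1 0 * e 2 2 - e 1 2 * e 2 0) +
      r 2 * (e 1 0 * e 2 1 - e 1 1 * e 2 0)) -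
    t 1 * (r 0 * (e 0 1 * e 2 2 - e 0 2 * e 2 1) - r 1 * (e 0 0 * e 2 2 - e 0 2 * e 2 0) +
      r 2 * (e 0 0 * e 2 1 - e 0 1 * e 2 0)) +
    t 2 * (r 0 * (e 0 1 * e 1 2 - e 0 2 * e 1 1) - r 1 * (e 0 0 * e 1 2 - e 0 2 * e 1 0) +
      r 2 * (e 0 0 * e 1 1 - e 0 1 * e 1 0)) +
    l * (e 0 0 * (e 1 1 * e 2 2 - e 1 2 * e 2 1) - e 0 1 * (e 1 0 * e 2 2 - e 1 2 * e 2 0) +
      e 0 2 * (e 1 0 * e 2 1 - e 1 1 * e 2 0)), ?_⟩
  ring

/-- elements of a class -/
theorem b7_class (K : Type) [Field K] [NumberField K] (hK : Module.finrank ℚ K = 3)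
    (lam : K →ₗ[ℚ] ℚ) (hlam : lam ≠ 0) (κ : K) (hκ : κ ≠ 0) (i : ℕ) (hi : 2 ≤ i) (b : Fin 3 → K)
    (E : Finset K) (c : K → Fin 3 → ℤ)
    (hc : ∀ ρ ∈ E, ρ = ∑ k, (c ρ k : K) * b k) (hlm : ∀ ρ ∈ E, lam (κ * ρ ^ i) = 0)
    (hne : ∀ ρ ∈ E, ρ ≠ 0)
    (hpm : ∀ ρ ∈ E, ∀ ρ' ∈ E, ∀ q : ℚ, ρ' = (q : K) * ρ → ρ' = ρ ∨ ρ' = -ρ)
    (hdet : ∀ ρ ∈ E, ∀ ρ' ∈ E, ∀ ρ'' ∈ E, Matrix.det ![c ρ, c ρ', c ρ''] = 0) :
    E.card ≤ 2 * i := by
  classical
  obtain ⟨E', h1, h2, h3⟩ := b7_sep (fun x y : K => x = y ∨ x = -y) (fun x => Or.inl rfl)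
    (fun x y h => h.imp (fun h => h.symm) (fun h => by rw [h, neg_neg])) E
  have hE : E ⊆ E' ∪ E'.image (fun x => -x) := by
    intro x hx
    obtain ⟨y, hy, hxy⟩ := h3 x hx
    rcases hxy with rfl | rfl
    · exact mem_union_left _ hy
    · exact mem_union_right _ (mem_image_of_mem _ hy)
  have hcard : E.card ≤ 2 * E'.card := by
    refine (card_le_card hE).trans ((card_union_le _ _).trans ?_)
    have := card_image_le (s := E') (f := fun x : K => -x)
    omega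
  suffices h : E'.card ≤ i by omega
  by_cases hone : E'.card ≤ 1
  · omega
  push Not at hone
  obtain ⟨v, hv, w, hw, hvw⟩ := one_lt_card.1 hone
  have hvE := h1 hv
  have hwE := h1 hw
  have hind : LinearIndependent ℚ ![v, w] := by
    rw [LinearIndependent.pair_iff]
    intro x y hxy
    have hv0 := hne v hvE
    have hw0 := hne w hwE
    by_cases hy : y = 0
    · subst hy
      rw [zero_smul, add_zero, smul_eq_zero] at hxy
      exact ⟨hxy.resolve_right hv0, rfl⟩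
    · exfalso
      have h5 : w = ((-(x / y) : ℚ) : K) * v := by
        have hy' : ((y : ℚ) : K) ≠ 0 := by exact_mod_cast hy
        rw [Rat.smul_def, Rat.smul_def] at hxy
        push_cast
        field_simp
        linear_combination hxy
      have h6 := hpm v hvE w hwE _ h5
      exact hvw (h2 v hv w hw (by
        rcases h6 with h6 | h6
        · exact Or.inl h6.symm
        · exact Or.inr (by rw [h6, neg_neg])))
  have hspan : ∀ ρ ∈ E', ∃ x : ℚ × ℚ, ρ = ((x.1 : ℚ) : K) * v + ((x.2 : ℚ) : K) * w := by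
    intro ρ hρ
    have hρE := h1 hρ
    have hd := hdet v hvE w hwE ρ hρE
    obtain ⟨y, hy0, hy⟩ := (Matrix.exists_vecMul_eq_zero_iff (M := (![c v, c w, c ρ] : Matrix (Fin 3) (Fin 3) ℤ))).2 hd
    have hy' : ∀ k, y 0 * c v k + y 1 * c w k + y 2 * c ρ k = 0 := by
      intro k
      have := congrFun hy k
      simpa [Matrix.vecMul, dotProduct, Fin.sum_univ_three] using this
    have hsum : (y 0 : K) * v + (y 1 : K) * w + (y 2 : K) * ρ = 0 := by
      rw [hc v hvE, hc w hwE, hc ρ hρE, mul_sum, mul_sum, mul_sum, ← sum_add_distrib,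
        ← sum_add_distrib]
      refine sum_eq_zero fun k _ => ?_
      have h7 : ((y 0 * c v k + y 1 * c w k + y 2 * c ρ k : ℤ) : K) = 0 := by
        rw [hy' k, Int.cast_zero]
      push_cast at h7
      linear_combination (b k) * h7
    have hy2 : y 2 ≠ 0 := by
      intro h0
      apply hy0
      rw [h0, Int.cast_zero, zero_mul, add_zero] at hsum
      rw [LinearIndependent.pair_iff] at hind
      have := hind (y 0) (y 1) (by
        rw [Rat.smul_def, Rat.smul_def]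
        push_cast
        exact hsum)
      ext k
      fin_cases k
      · exact_mod_cast this.1
      · exact_mod_cast this.2
      · exact h0
    refine ⟨(-(y 0 / y 2), -(y 1 / y 2)), ?_⟩
    have hy2' : ((y 2 : ℤ) : K) ≠ 0 := by exact_mod_cast hy2
    push_cast
    field_simp
    linear_combination hsum
  choose! g hg using hspan
  have hginj : Set.InjOn g (E' : Set K) := by
    intro x hx y hy hxy
    rw [hg x hx, hg y hy, hxy]
  have hcard2 : (E'.image g).card = E'.card := card_image_of_injOn hginj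
  rw [← hcard2]
  refine line_curve K hK lam hlam κ hκ i hi v w hind (E'.image g) ?_ ?_ ?_
  · intro x hx
    obtain ⟨ρ, hρ, rfl⟩ := mem_image.1 hx
    intro h0
    refine hne ρ (h1 hρ) ?_
    rw [hg ρ hρ, h0]
    simp
  · intro x hx y hy hxy
    obtain ⟨ρ, hρ, rfl⟩ := mem_image.1 hx
    obtain ⟨ρ', hρ', rfl⟩ := mem_image.1 hy
    have hρ0 := hne ρ (h1 hρ)
    obtain ⟨r, hr⟩ : ∃ r : ℚ, ρ' = (r : K) * ρ := by
      by_cases hs : (g ρ).1 = 0
      · have hs2 : (g ρ).2 ≠ 0 := by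
          intro h0
          apply hρ0
          rw [hg ρ hρ, hs, h0]
          simp
        rw [hs, zero_mul] at hxy
        have hs3 : (g ρ').1 = 0 := (mul_eq_zero.1 hxy.symm).resolve_left hs2
        refine ⟨(g ρ').2 / (g ρ).2, ?_⟩
        have hs2' : (((g ρ).2 : ℚ) : K) ≠ 0 := by exact_mod_cast hs2
        have e1 := hg ρ' hρ'
        have e2 := hg ρ hρ
        push_cast
        rw [div_mul_eq_mul_div, eq_div_iff hs2']
        calc ρ' * (((g ρ).2 : ℚ) : K) = ((((g ρ').1 : ℚ) : K) * v + (((g ρ').2 : ℚ) : K) * w) * (((g ρ).2 : ℚ) : K) := by rw [← e1]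
          _ = (((g ρ').2 : ℚ) : K) * ((((g ρ).1 : ℚ) : K) * v + (((g ρ).2 : ℚ) : K) * w) := by
            rw [hs3, hs]
            push_cast
            ring
          _ = (((g ρ').2 : ℚ) : K) * ρ := by rw [← e2]
      · refine ⟨(g ρ').1 / (g ρ).1, ?_⟩
        have hs' : (((g ρ).1 : ℚ) : K) ≠ 0 := by exact_mod_cast hs
        have hxy' : (((g ρ).1 : ℚ) : K) * (((g ρ').2 : ℚ) : K) = (((g ρ).2 : ℚ) : K) * (((g ρ').1 : ℚ) : K) := by
          exact_mod_cast hxy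
        have e1 := hg ρ' hρ'
        have e2 := hg ρ hρ
        push_cast
        rw [div_mul_eq_mul_div, eq_div_iff hs']
        calc ρ' * (((g ρ).1 : ℚ) : K) = ((((g ρ').1 : ℚ) : K) * v + (((g ρ').2 : ℚ) : K) * w) * (((g ρ).1 : ℚ) : K) := by rw [← e1]
          _ = (((g ρ').1 : ℚ) : K) * ((((g ρ).1 : ℚ) : K) * v + (((g ρ).2 : ℚ) : K) * w) := by
            linear_combination w * hxy'
          _ = (((g ρ').1 : ℚ) : K) * ρ := by rw [← e2]
    have h6 := hpm ρ (h1 hρ) ρ' (h1 hρ') r hr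
    rw [h2 ρ hρ ρ' hρ' (by
        rcases h6 with h6 | h6
        · exact Or.inl h6.symm
        · exact Or.inr (by rw [h6, neg_neg]))]
  · intro x hx
    obtain ⟨ρ, hρ, rfl⟩ := mem_image.1 hx
    rw [← hg ρ hρ]
    exact hlm ρ (h1 hρ)

/-- determinant of three elements of a box -/
theorem b7_box_det (K : Type) [Field K] [NumberField K]
    (φ : Fin 3 ≃ (K →+* ℂ)) (ρ : Fin 3 → K) (B : ℝ)
    (hB : |((Algebra.norm ℚ (ρ 0) : ℚ) : ℝ)| ≤ B)
    (hbox : ∀ i j, ‖(φ j) (ρ i)‖ ≤ 3 * ‖(φ j) (ρ 0)‖) :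
    ‖Matrix.det (Matrix.of fun i j => (φ j) (ρ i))‖ ≤ 162 * B := by
  classical
  have hnorm : ∏ j, ‖(φ j) (ρ 0)‖ = |((Algebra.norm ℚ (ρ 0) : ℚ) : ℝ)| := by
    have h1 := Algebra.norm_eq_prod_embeddings ℚ ℂ (ρ 0)
    have h2 : ∏ j, (φ j) (ρ 0) = ((Algebra.norm ℚ (ρ 0) : ℚ) : ℂ) := by
      rw [← eq_ratCast (algebraMap ℚ ℂ), h1, ← Fintype.prod_equiv (RingHom.equivRatAlgHom K ℂ) (fun f : K →+* ℂ => f (ρ 0)) _ (fun f => by simp)]
      exact Equiv.prod_comp φ (fun f => f (ρ 0))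
    rw [← norm_prod, h2, Complex.norm_ratCast]
  rw [Matrix.det_apply]
  refine (norm_sum_le _ _).trans ?_
  have h3 : ∀ σ : Equiv.Perm (Fin 3), ‖Equiv.Perm.sign σ • ∏ i, (Matrix.of fun i j => (φ j) (ρ i)) (σ i) i‖ ≤ 27 * B := by
    intro σ
    have h4 : ‖Equiv.Perm.sign σ • ∏ i, (Matrix.of fun i j => (φ j) (ρ i)) (σ i) i‖ =
        ∏ i, ‖(φ i) (ρ (σ i))‖ := by
      rcases Int.units_eq_one_or (Equiv.Perm.sign σ) with h | h
      · rw [h, one_smul, norm_prod]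
        rfl
      · rw [h, Units.neg_smul, one_smul, norm_neg, norm_prod]
        rfl
    rw [h4]
    calc ∏ i, ‖(φ i) (ρ (σ i))‖ ≤ ∏ i, (3 * ‖(φ i) (ρ 0)‖) :=
        prod_le_prod (fun i _ => norm_nonneg _) fun i _ => hbox (σ i) i
      _ = 27 * ∏ i, ‖(φ i) (ρ 0)‖ := by
        rw [prod_mul_distrib]
        norm_num
      _ ≤ 27 * B := by
        rw [hnorm]
        linarith
  refine (sum_le_sum fun σ _ => h3 σ).trans ?_
  rw [sum_const, card_univ, Fintype.card_perm, Fintype.card_fin]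
  norm_num [Nat.factorial]
  linarith

/-- one box -/
theorem b7_box (K : Type) [Field K] [NumberField K] (hK : Module.finrank ℚ K = 3)
    (lam : K →ₗ[ℚ] ℚ) (hlam : lam ≠ 0) (κ : K) (hκ : κ ≠ 0) (i : ℕ) (hi : 2 ≤ i)
    (J : FractionalIdeal (nonZeroDivisors (𝓞 K)) K) (hJ : J ≠ 0) (B : ℝ) (hB : 0 < B)
    (E : Finset K) (hEJ : ∀ ρ ∈ E, ρ ∈ J) (hlm : ∀ ρ ∈ E, lam (κ * ρ ^ i) = 0)
    (hne : ∀ ρ ∈ E, ρ ≠ 0) (hnB : ∀ ρ ∈ E, |((Algebra.norm ℚ ρ : ℚ) : ℝ)| ≤ B)
    (hpm : ∀ ρ ∈ E, ∀ ρ' ∈ E, ∀ q : ℚ, ρ' = (q : K) * ρ → ρ' = ρ ∨ ρ' = -ρ)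
    (hprime : ∀ ρ ∈ E, ∀ l : ℕ, l.Prime → ¬ ∃ x ∈ J, ρ = (l : K) * x)
    (hbox : ∀ ρ ∈ E, ∀ ρ' ∈ E, ∀ φ : K →+* ℂ, ‖φ ρ‖ ≤ 3 * ‖φ ρ'‖) :
    (E.card : ℝ) ≤ 4 * (i : ℝ) ^ 2 * (2 * Real.sqrt (162 * B /
      (((FractionalIdeal.absNorm J : ℚ) : ℝ) * |(discr K : ℝ)| ^ (1 / 2 : ℝ))) + 2) := by
  classical
  obtain ⟨b, hb, hJb, hdetb⟩ := exists_basis K hK J hJ
  have hN : 0 < ((FractionalIdeal.absNorm J : ℚ) : ℝ) := by
    have h1 : 0 < (FractionalIdeal.absNorm J : ℚ) := lt_of_le_of_ne (FractionalIdeal.absNorm_nonneg J)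
      (fun h => hJ (FractionalIdeal.absNorm_eq_zero_iff.1 h.symm))
    exact_mod_cast h1
  have hD : 0 < |(discr K : ℝ)| ^ (1 / 2 : ℝ) := by
    have h1 : (discr K : ℝ) ≠ 0 := by exact_mod_cast discr_ne_zero K
    positivity
  set R : ℝ := 162 * B / (((FractionalIdeal.absNorm J : ℚ) : ℝ) * |(discr K : ℝ)| ^ (1 / 2 : ℝ))
    with hR
  have hR0 : 0 < R := by positivity
  obtain ⟨l, hl, hnl, hl2⟩ := Nat.exists_prime_lt_and_le_two_mul (⌊Real.sqrt R⌋₊ + 1) (by omega)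
  have : Fact l.Prime := ⟨hl⟩
  have hlR : R < (l : ℝ) ^ 2 := by
    have h1 : Real.sqrt R < l := by
      have h2 := Nat.lt_floor_add_one (Real.sqrt R)
      have h3 : ((⌊Real.sqrt R⌋₊ + 1 : ℕ) : ℝ) < l := by exact_mod_cast hnl
      push_cast at h3
      linarith
    exact (Real.sqrt_lt' (by exact_mod_cast hl.pos)).1 h1
  have hlle : (l : ℝ) ≤ 2 * Real.sqrt R + 2 := by
    have h1 : (l : ℝ) ≤ ((2 * (⌊Real.sqrt R⌋₊ + 1) : ℕ) : ℝ) := by exact_mod_cast hl2
    push_cast at h1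
    have h2 := Nat.floor_le (Real.sqrt_nonneg R)
    linarith
  have hex : ∀ ρ ∈ E, ∃ c : Fin 3 → ℤ, ρ = ∑ k, (c k : K) * b k := fun ρ hρ =>
    (hJb ρ).1 (hEJ ρ hρ)
  choose! c hc using hex
  have hcne : ∀ ρ ∈ E, ∃ k, ((c ρ k : ℤ) : ZMod l) ≠ 0 := by
    intro ρ hρ
    by_contra hcon
    push Not at hcon
    have h1 : ∀ k, ∃ e : ℤ, c ρ k = l * e := fun k =>
      (ZMod.intCast_zmod_eq_zero_iff_dvd _ _).1 (hcon k)
    choose e he using h1
    refine hprime ρ hρ l hl ⟨∑ k, (e k : K) * b k, (hJb _).2 ⟨e, rfl⟩, ?_⟩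
    conv_lhs => rw [hc ρ hρ]
    rw [mul_sum]
    refine sum_congr rfl fun k _ => ?_
    rw [he k]
    push_cast
    ring
  obtain ⟨G, hG0, hGh, hGe⟩ := b7_poly K hK lam hlam κ hκ i hi b hb l
  have hGE : ∀ ρ ∈ E, MvPolynomial.eval (fun k => ((c ρ k : ℤ) : ZMod l)) G = 0 := by
    intro ρ hρ
    refine hGe (c ρ) ?_
    rw [← hc ρ hρ]
    exact hlm ρ hρ
  have hcard3 : Fintype.card (K →+* ℂ) = 3 := by
    rw [NumberField.Embeddings.card, hK]
  let φ : Fin 3 ≃ (K →+* ℂ) := (Fintype.equivFinOfCardEq hcard3).symm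
  have hdet : ∀ ρ ∈ E, ∀ ρ' ∈ E, ∀ ρ'' ∈ E,
      (((Matrix.det (![c ρ, c ρ', c ρ''] : Matrix (Fin 3) (Fin 3) ℤ)).natAbs : ℕ) : ℝ) ≤ R := by
    intro ρ hρ ρ' hρ' ρ'' hρ''
    have h1 := hdetb (![c ρ, c ρ', c ρ''] : Matrix (Fin 3) (Fin 3) ℤ) φ
    have h2 : (Matrix.of fun i j => (φ j) (∑ k, (((![c ρ, c ρ', c ρ''] : Matrix (Fin 3) (Fin 3) ℤ) i k : ℤ) : K) * b k)) =
        Matrix.of fun i j => (φ j) ((![ρ, ρ', ρ''] : Fin 3 → K) i) := by
      ext x y
      fin_cases x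
      · change (φ y) (∑ k, ((c ρ k : ℤ) : K) * b k) = (φ y) ρ
        rw [← hc ρ hρ]
      · change (φ y) (∑ k, ((c ρ' k : ℤ) : K) * b k) = (φ y) ρ'
        rw [← hc ρ' hρ']
      · change (φ y) (∑ k, ((c ρ'' k : ℤ) : K) * b k) = (φ y) ρ''
        rw [← hc ρ'' hρ'']
    rw [h2] at h1
    have h3 := b7_box_det K φ ![ρ, ρ', ρ''] B (hnB ρ hρ) (by
      intro x y
      fin_cases x
      · exact hbox ρ hρ ρ hρ (φ y)
      · exact hbox ρ' hρ' ρ hρ (φ y)
      · exact hbox ρ'' hρ'' ρ hρ (φ y))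
    rw [h1] at h3
    rw [Nat.cast_natAbs, Int.cast_abs, hR, le_div_iff₀ (by positivity)]
    linarith
  -- classes modulo `l`
  obtain ⟨E', hE'1, hE'2, hE'3⟩ := b7_sep
    (fun x y : K => ∀ j k, ((c x j * c y k - c x k * c y j : ℤ) : ZMod l) = 0)
    (fun x j k => by
      have : c x j * c x k - c x k * c x j = 0 := by ring
      rw [this, Int.cast_zero])
    (fun x y h j k => by
      have h1 := h k j
      have h2 : c y j * c x k - c y k * c x j = c x k * c y j - c x j * c y k := by ring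
      rw [h2]
      exact h1) E
  have hcinj : Set.InjOn c (E' : Set K) := by
    intro x hx y hy hxy
    rw [hc x (hE'1 hx), hc y (hE'1 hy), hxy]
  have hE'card : E'.card ≤ (i + 2) * l := by
    rw [← card_image_of_injOn hcinj]
    refine card_mod l i G hG0 hGh (E'.image c) ?_ ?_
    · intro x hx
      obtain ⟨ρ, hρ, rfl⟩ := mem_image.1 hx
      exact ⟨hcne ρ (hE'1 hρ), hGE ρ (hE'1 hρ)⟩
    · intro x hx y hy hxy
      obtain ⟨ρ, hρ, rfl⟩ := mem_image.1 hx
      obtain ⟨ρ', hρ', rfl⟩ := mem_image.1 hy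
      rw [hE'2 ρ hρ ρ' hρ' hxy]
  have hcls : ∀ r ∈ E', (E.filter fun x => ∀ j k, ((c x j * c r k - c x k * c r j : ℤ) : ZMod l) = 0).card
      ≤ 2 * i := by
    intro r hr
    refine b7_class K hK lam hlam κ hκ i hi b _ c (fun ρ hρ => hc ρ (mem_filter.1 hρ).1)
      (fun ρ hρ => hlm ρ (mem_filter.1 hρ).1) (fun ρ hρ => hne ρ (mem_filter.1 hρ).1)
      (fun ρ hρ ρ' hρ' => hpm ρ (mem_filter.1 hρ).1 ρ' (mem_filter.1 hρ').1) ?_
    intro ρ hρ ρ' hρ' ρ'' hρ''
    obtain ⟨h1, h1'⟩ := mem_filter.1 hρ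
    obtain ⟨h2, h2'⟩ := mem_filter.1 hρ'
    obtain ⟨h3, h3'⟩ := mem_filter.1 hρ''
    have hdvd := b7_det_dvd l (c r) (hcne r (hE'1 hr)) (![c ρ, c ρ', c ρ''] : Matrix (Fin 3) (Fin 3) ℤ) (by
      intro x j k
      fin_cases x
      · exact h1' j k
      · exact h2' j k
      · exact h3' j k)
    have hle := hdet ρ h1 ρ' h2 ρ'' h3
    by_contra hne0
    have h4 : l ^ 2 ∣ (Matrix.det (![c ρ, c ρ', c ρ''] : Matrix (Fin 3) (Fin 3) ℤ)).natAbs := by
      have := Int.natAbs_dvd_natAbs.2 hdvd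
      simpa [Int.natAbs_pow] using this
    have h5 := Nat.le_of_dvd (Int.natAbs_pos.2 hne0) h4
    have h6 : ((l ^ 2 : ℕ) : ℝ) ≤
        (((Matrix.det (![c ρ, c ρ', c ρ''] : Matrix (Fin 3) (Fin 3) ℤ)).natAbs : ℕ) : ℝ) := by
      exact_mod_cast h5
    push_cast at h6
    have h7 : ((Matrix.det (![c ρ, c ρ', c ρ''] : Matrix (Fin 3) (Fin 3) ℤ)).natAbs : ℝ) ≤ R := hle
    have h8 : (l : ℝ) ^ 2 ≤ R := by
      refine le_trans ?_ h7
      exact_mod_cast h5
    linarith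
  have hsub : E ⊆ E'.biUnion fun r =>
      E.filter fun x => ∀ j k, ((c x j * c r k - c x k * c r j : ℤ) : ZMod l) = 0 := by
    intro x hx
    obtain ⟨y, hy, hxy⟩ := hE'3 x hx
    exact mem_biUnion.2 ⟨y, hy, mem_filter.2 ⟨hx, hxy⟩⟩
  have hcard : E.card ≤ ((i + 2) * l) * (2 * i) :=
    (card_le_card hsub).trans ((card_biUnion_le_card_mul _ _ _ hcls).trans
      (Nat.mul_le_mul_right _ hE'card))
  have hcard2 : (E.card : ℝ) ≤ (((i + 2) * l) * (2 * i) : ℕ) := by exact_mod_cast hcard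
  push_cast at hcard2
  have hi2 : (2 : ℝ) ≤ i := by exact_mod_cast hi
  have hl0 : (0 : ℝ) ≤ l := by positivity
  calc (E.card : ℝ) ≤ ((i : ℝ) + 2) * l * (2 * i) := hcard2
    _ ≤ (2 * i) * l * (2 * i) := by
      have : (i : ℝ) + 2 ≤ 2 * i := by linarith
      gcongr
    _ = 4 * (i : ℝ) ^ 2 * l := by ring
    _ ≤ 4 * (i : ℝ) ^ 2 * (2 * Real.sqrt R + 2) := by gcongr

theorem card_curve_points : ∃ C : ℝ, 0 < C ∧
    ∀ (K : Type) [Field K] [NumberField K], Module.finrank ℚ K = 3 →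
    ∀ (lam : K →ₗ[ℚ] ℚ), lam ≠ 0 → ∀ (κ : K), κ ≠ 0 → ∀ (i : ℕ), 2 ≤ i →
    ∀ (J : FractionalIdeal (nonZeroDivisors (𝓞 K)) K), J ≠ 0 → ∀ (T B : ℝ), 1 ≤ T → 0 < B →
    ∀ S : Finset K, (∀ ρ ∈ S, ρ ∈ J ∧ lam (κ * ρ ^ i) = 0 ∧ Lht ρ T ∧
      |((Algebra.norm ℚ ρ : ℚ) : ℝ)| ≤ B) →
    (∀ ρ ∈ S, ∀ ρ' ∈ S, ∀ q : ℚ, ρ' = (q : K) * ρ → ρ' = ρ ∨ ρ' = -ρ) →
    (∀ ρ ∈ S, ∀ l : ℕ, l.Prime → ¬ ∃ x ∈ J, ρ = (l : K) * x) →
    (S.card : ℝ) ≤ C * (i : ℝ) ^ 2 * T ^ 3 *
      (1 + (B / (((FractionalIdeal.absNorm J : ℚ) : ℝ) * |(discr K : ℝ)| ^ (1 / 2 : ℝ))) ^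
        (1 / 2 : ℝ)) := by
  classical
  refine ⟨6656, by norm_num, ?_⟩
  intro K _ _ hK lam hlam κ hκ i hi J hJ T B hT hB S hS hpm hprime
  have hN : 0 < ((FractionalIdeal.absNorm J : ℚ) : ℝ) := by
    have h1 : 0 < (FractionalIdeal.absNorm J : ℚ) := lt_of_le_of_ne (FractionalIdeal.absNorm_nonneg J)
      (fun h => hJ (FractionalIdeal.absNorm_eq_zero_iff.1 h.symm))
    exact_mod_cast h1
  have hD : 0 < |(discr K : ℝ)| ^ (1 / 2 : ℝ) := by
    have h1 : (discr K : ℝ) ≠ 0 := by exact_mod_cast discr_ne_zero K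
    positivity
  set R : ℝ := 162 * B / (((FractionalIdeal.absNorm J : ℚ) : ℝ) * |(discr K : ℝ)| ^ (1 / 2 : ℝ))
    with hR
  set x : ℝ := B / (((FractionalIdeal.absNorm J : ℚ) : ℝ) * |(discr K : ℝ)| ^ (1 / 2 : ℝ)) with hx
  have hx0 : 0 < x := by positivity
  have hRx : R = 162 * x := by rw [hR, hx, mul_div_assoc]
  set f : K → (K →+* ℂ) → ℤ := fun ρ φ => ⌊Real.log ‖φ ρ‖⌋ with hf
  set n : ℕ := ⌊4 * (i : ℝ) ^ 2 * (2 * Real.sqrt R + 2)⌋₊ with hn
  have hfib : ∀ β ∈ S.image f, (S.filter fun a => f a = β).card ≤ n := by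
    intro β _
    refine Nat.le_floor ?_
    refine b7_box K hK lam hlam κ hκ i hi J hJ B hB _ (fun ρ hρ => (hS ρ (mem_filter.1 hρ).1).1)
      (fun ρ hρ => (hS ρ (mem_filter.1 hρ).1).2.1) (fun ρ hρ => (hS ρ (mem_filter.1 hρ).1).2.2.1.1)
      (fun ρ hρ => (hS ρ (mem_filter.1 hρ).1).2.2.2)
      (fun ρ hρ ρ' hρ' => hpm ρ (mem_filter.1 hρ).1 ρ' (mem_filter.1 hρ').1)
      (fun ρ hρ => hprime ρ (mem_filter.1 hρ).1) ?_
    intro ρ hρ ρ' hρ' φ
    obtain ⟨h1, h1'⟩ := mem_filter.1 hρ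
    obtain ⟨h2, h2'⟩ := mem_filter.1 hρ'
    have h3 : ⌊Real.log ‖φ ρ‖⌋ = ⌊Real.log ‖φ ρ'‖⌋ := by
      have := congrFun (h1'.trans h2'.symm) φ
      exact this
    have hρ0 : 0 < ‖φ ρ‖ := norm_pos_iff.2 ((map_ne_zero φ).2 (hS ρ h1).2.2.1.1)
    have hρ'0 : 0 < ‖φ ρ'‖ := norm_pos_iff.2 ((map_ne_zero φ).2 (hS ρ' h2).2.2.1.1)
    have h4 := Int.lt_floor_add_one (Real.log ‖φ ρ‖)
    have h5 := Int.floor_le (Real.log ‖φ ρ'‖)
    rw [h3] at h4
    have h6 : Real.log ‖φ ρ‖ ≤ Real.log ‖φ ρ'‖ + 1 := by linarith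
    have h7 : ‖φ ρ‖ ≤ ‖φ ρ'‖ * Real.exp 1 := by
      rw [← Real.exp_log hρ0, ← Real.exp_log hρ'0, ← Real.exp_add]
      exact Real.exp_le_exp.2 h6
    have h8 : Real.exp 1 ≤ 3 := by
      have := Real.exp_one_lt_d9
      linarith
    nlinarith
  have hcard := card_le_mul_card_image S n hfib
  -- number of boxes
  have hcard3 : Fintype.card (K →+* ℂ) = 3 := by
    rw [NumberField.Embeddings.card, hK]
  have himg : S.image f ⊆ Fintype.piFinset fun _ : K →+* ℂ => Icc ⌊-T⌋ ⌊T⌋ := by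
    intro β hβ
    obtain ⟨ρ, hρ, rfl⟩ := mem_image.1 hβ
    rw [Fintype.mem_piFinset]
    intro φ
    have h1 := (hS ρ hρ).2.2.1.2 φ
    rw [abs_le] at h1
    rw [mem_Icc]
    exact ⟨Int.floor_le_floor h1.1, Int.floor_le_floor h1.2⟩
  have hbx : ((S.image f).card : ℝ) ≤ (4 * T) ^ 3 := by
    have h1 := card_le_card himg
    rw [Fintype.card_piFinset, prod_const, card_univ, hcard3, Int.card_Icc] at h1
    have h2 : ((S.image f).card : ℝ) ≤ (((⌊T⌋ + 1 - ⌊-T⌋).toNat ^ 3 : ℕ) : ℝ) := by exact_mod_cast h1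
    refine h2.trans ?_
    push_cast
    have h3 : (((⌊T⌋ + 1 - ⌊-T⌋).toNat : ℕ) : ℝ) ≤ 4 * T := by
      have h4 : (0 : ℤ) ≤ ⌊T⌋ + 1 - ⌊-T⌋ := by
        have := Int.floor_le_floor (show -T ≤ T by linarith)
        omega
      have h5 : (((⌊T⌋ + 1 - ⌊-T⌋).toNat : ℕ) : ℝ) = ((⌊T⌋ + 1 - ⌊-T⌋ : ℤ) : ℝ) := by
        exact_mod_cast Int.toNat_of_nonneg h4
      rw [h5]
      push_cast
      have h6 := Int.floor_le T
      have h7 := Int.lt_floor_add_one (-T)
      linarith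
    gcongr
  have hnle : (n : ℝ) ≤ 4 * (i : ℝ) ^ 2 * (2 * Real.sqrt R + 2) := Nat.floor_le (by positivity)
  have hcard' : (S.card : ℝ) ≤ (n : ℝ) * ((S.image f).card : ℝ) := by exact_mod_cast hcard
  have hsq : Real.sqrt R ≤ 13 * x ^ (1 / 2 : ℝ) := by
    rw [← Real.sqrt_eq_rpow, hRx, Real.sqrt_mul (by norm_num)]
    have : Real.sqrt 162 ≤ 13 := by
      rw [Real.sqrt_le_left (by norm_num)]
      norm_num
    gcongr
  calc (S.card : ℝ) ≤ (n : ℝ) * ((S.image f).card : ℝ) := hcard'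
    _ ≤ (4 * (i : ℝ) ^ 2 * (2 * Real.sqrt R + 2)) * (4 * T) ^ 3 := by gcongr
    _ ≤ (4 * (i : ℝ) ^ 2 * (2 * (13 * x ^ (1 / 2 : ℝ)) + 2)) * (4 * T) ^ 3 := by gcongr
    _ ≤ (4 * (i : ℝ) ^ 2 * (2 * (13 * x ^ (1 / 2 : ℝ)) + 26)) * (4 * T) ^ 3 := by
      gcongr
      norm_num
    _ = 6656 * (i : ℝ) ^ 2 * T ^ 3 * (1 + x ^ (1 / 2 : ℝ)) := by ring

end Pool.Agent.Lib.SqPart
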