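import Pool.Agent.Lib.MP_d8bd92_nt.SqB1
import Pool.Agent.Lib.MP_d8bd92_nt.SqB5
import Pool.Agent.Lib.MP_d8bd92_nt.SqB7

set_option autoImplicit false

/-!
Principal ideals `h p^i` with a generator in the plane `lam = 0`.

PROOF. D = |discr K| >= 1. Let C0 be the constant of `card_classes` (with ε/4), T' = T + C0 (1 + log (2 D P)).
`exists_net` (T') on the finite set {p s : s in S}: net C with |C| <= C0 D^(1/2+ε/4) (`card_classes` with 2P), c.
Fix k in C and consider S_k = {s in S : c (p s) = k}. For s in S_k choose ρ_s with Lht ρ_s T', p s = (ρ_s) k.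
(If S_k is nonempty fix s0 in S_k.) Put u_s = (α s / α s0) (ρ_{s0}/ρ_s)^i: (u_s) = 1 (from the formula for (α s) and
p s = (ρ_s) k), so u_s, u_s⁻¹ are integral and Lht u_s (2T + 2 i T'). By `card_units_le` at most
C (2T + 2iT')^3 values of u_s. Fix also u = u_s, and put κ = α s0 u ρ_{s0}^(-i), so that α s = κ ρ_s^i and
lam (κ ρ_s^i) = 0. Apply `card_curve_points` with J = k⁻¹ (fractional ideal inverse), T', B = 2 to the set of the ρ_s:
- ρ_s in k⁻¹ as (ρ_s) k = p s is integral;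
- |Norm ρ_s| = absNorm (p s)/absNorm k <= 2 (both in [P, 2P]);
- ρ_s' = q ρ_s: then p s' = (q) p s; with q = a/b in lowest terms b p s' = a p s; if a prime l divides a then
  p s' is contained in l 𝓞 (l does not divide b), so l^3 divides absNorm (p s'), which is prime: impossible; so a
  = ±1, b = ±1 in the same way, q = ±1;
- ρ_s = l x with x in k⁻¹ would give p s = l (x k) contained in l 𝓞, impossible;
- absNorm k⁻¹ = 1/absNorm k >= 1/(2P).
ρ_s determines α s = κ ρ_s^i and so s. Hence |S_k, u| <= C i^2 T'^3 (1 + (4P/D^(1/2))^(1/2)).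
Total: |S| <= C D^(1/2+ε/4) (i (T+T'))^3 i^2 T'^3 (1 + P^(1/2) D^(-1/4)), and T' <= C T (1 + log(DP)),
(1 + log(DP))^6 <= C (DP)^(ε/4).
-/

namespace Pool.Agent.Lib.SqPart

open Finset NumberField

private theorem b8_int {K : Type} [Field K] [NumberField K] {u : K}
    (h : FractionalIdeal.spanSingleton (nonZeroDivisors (𝓞 K)) u = 1) : IsIntegral ℤ u := by
  have h1 : u ∈ FractionalIdeal.spanSingleton (nonZeroDivisors (𝓞 K)) u :=
    FractionalIdeal.mem_spanSingleton_self _ u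
  rw [h, FractionalIdeal.mem_one_iff] at h1
  obtain ⟨x, hx⟩ := h1
  rw [← hx]
  exact RingOfIntegers.isIntegral_coe x

/-- rational multiples -/
private theorem b8_ratio {a b : ℕ} (ha : a.Prime) (hb : b.Prime) {q : ℚ}
    (h : (b : ℚ) = |q| ^ 3 * a) : q = 1 ∨ q = -1 := by
  have ha0 : (a : ℚ) ≠ 0 := by exact_mod_cast ha.ne_zero
  have hq0 : |q| ≠ 0 := by
    intro h0
    rw [h0] at h
    have : (b : ℚ) = 0 := by rw [h]; ring
    exact hb.ne_zero (by exact_mod_cast this)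
  by_cases hab : a = b
  · subst hab
    have h1 : |q| ^ 3 = 1 := by
      have : |q| ^ 3 * a = 1 * a := by rw [← h, one_mul]
      exact mul_right_cancel₀ ha0 this
    have h2 : |q| = 1 := (pow_eq_one_iff_of_nonneg (abs_nonneg q) (by norm_num)).1 h1
    exact abs_eq (by norm_num) |>.1 h2
  · exfalso
    have : Fact a.Prime := ⟨ha⟩
    have h1 : padicValRat a (b : ℚ) = 0 := by
      rw [padicValRat.of_nat]
      have : ¬ a ∣ b := fun hd => hab ((Nat.prime_dvd_prime_iff_eq ha hb).1 hd)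
      exact_mod_cast padicValNat.eq_zero_of_not_dvd this
    have h2 : padicValRat a (|q| ^ 3 * a) = 3 * padicValRat a |q| + 1 := by
      rw [padicValRat.mul (pow_ne_zero 3 hq0) ha0, padicValRat.pow]
      have : padicValRat a (a : ℚ) = 1 := padicValRat.self ha.one_lt
      rw [this]
      norm_num
    rw [← h, h1] at h2
    omega

private theorem b8_cell : ∃ C : ℝ, 0 < C ∧
    ∀ (K : Type) [Field K] [NumberField K], Module.finrank ℚ K = 3 →
    ∀ (lam : K →ₗ[ℚ] ℚ), lam ≠ 0 → ∀ (T P : ℝ), 1 ≤ T → 1 ≤ P → ∀ (i : ℕ), 2 ≤ i →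
    ∀ (k : Ideal (𝓞 K)), P ≤ ((Ideal.absNorm k : ℕ) : ℝ) → ((Ideal.absNorm k : ℕ) : ℝ) ≤ 2 * P →
    ∀ (κ : K), κ ≠ 0 → ∀ (S : Finset (ℤ × ℤ)) (α ρ : ℤ × ℤ → K) (p : ℤ × ℤ → Ideal (𝓞 K)),
    (∀ s ∈ S, (Ideal.absNorm (p s)).Prime ∧ ((Ideal.absNorm (p s) : ℕ) : ℝ) ≤ 2 * P) →
    (∀ s ∈ S, (p s : FractionalIdeal (nonZeroDivisors (𝓞 K)) K) =
      FractionalIdeal.spanSingleton (nonZeroDivisors (𝓞 K)) (ρ s) * k) →
    (∀ s ∈ S, Lht (ρ s) T) → (∀ s ∈ S, α s = κ * ρ s ^ i) → (∀ s ∈ S, lam (α s) = 0) →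
    (∀ s ∈ S, ∀ s' ∈ S, α s = α s' → s = s') →
    (S.card : ℝ) ≤ C * (i : ℝ) ^ 2 * T ^ 3 *
      (1 + (4 * P / |(discr K : ℝ)| ^ (1 / 2 : ℝ)) ^ (1 / 2 : ℝ)) := by
  classical
  obtain ⟨C, hC, hcp⟩ := card_curve_points
  refine ⟨C, hC, ?_⟩
  intro K _ _ hK lam hlam T P hT hP i hi k hk1 hk2 κ hκ S α ρ p hp hpρ hρ hα hlamα hinj
  have hk0 : (k : FractionalIdeal (nonZeroDivisors (𝓞 K)) K) ≠ 0 := by
    rw [FractionalIdeal.coeIdeal_ne_zero]
    rintro rfl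
    rw [Ideal.absNorm_bot] at hk1
    norm_num at hk1
    linarith
  have hnk : FractionalIdeal.absNorm (k : FractionalIdeal (nonZeroDivisors (𝓞 K)) K)
      = (Ideal.absNorm k : ℚ) := FractionalIdeal.coeIdeal_absNorm k
  -- norms
  have hnorm : ∀ s ∈ S, ((Ideal.absNorm (p s) : ℕ) : ℚ)
      = |Algebra.norm ℚ (ρ s)| * (Ideal.absNorm k : ℚ) := by
    intro s hs
    have h1 := congrArg FractionalIdeal.absNorm (hpρ s hs)
    rw [map_mul, FractionalIdeal.coeIdeal_absNorm, hnk, FractionalIdeal.absNorm_span_singleton] at h1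
    exact h1
  have hinjρ : Set.InjOn ρ (S : Set (ℤ × ℤ)) := by
    intro s hs s' hs' he
    refine hinj s hs s' hs' ?_
    rw [hα s hs, hα s' hs', he]
  have hcard : (S.image ρ).card = S.card := Finset.card_image_of_injOn hinjρ
  have hkn : (0 : ℝ) < ((Ideal.absNorm k : ℕ) : ℝ) := by linarith
  have main := hcp K hK lam hlam κ hκ i hi (k : FractionalIdeal (nonZeroDivisors (𝓞 K)) K)⁻¹
    (inv_ne_zero hk0) T 2 hT (by norm_num) (S.image ρ) ?_ ?_ ?_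
  · rw [hcard] at main
    refine main.trans ?_
    have hD : (0 : ℝ) < |(discr K : ℝ)| := by
      rw [abs_pos]; exact_mod_cast NumberField.discr_ne_zero K
    have hD2 : (0 : ℝ) < |(discr K : ℝ)| ^ (1 / 2 : ℝ) := Real.rpow_pos_of_pos hD _
    have e1 : ((FractionalIdeal.absNorm (k : FractionalIdeal (nonZeroDivisors (𝓞 K)) K)⁻¹ : ℚ) : ℝ)
        = (((Ideal.absNorm k : ℕ) : ℝ))⁻¹ := by
      rw [map_inv₀, hnk]; push_cast; rfl
    rw [e1]
    have e2 : 2 / ((((Ideal.absNorm k : ℕ) : ℝ))⁻¹ * |(discr K : ℝ)| ^ (1 / 2 : ℝ))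
        ≤ 4 * P / |(discr K : ℝ)| ^ (1 / 2 : ℝ) := by
      have : 2 / ((((Ideal.absNorm k : ℕ) : ℝ))⁻¹ * |(discr K : ℝ)| ^ (1 / 2 : ℝ))
          = 2 * ((Ideal.absNorm k : ℕ) : ℝ) / |(discr K : ℝ)| ^ (1 / 2 : ℝ) := by
        field_simp
      rw [this]
      exact div_le_div_of_nonneg_right (by linarith) hD2.le
    refine mul_le_mul_of_nonneg_left ?_ (by positivity)
    have e3 := Real.rpow_le_rpow (by positivity) e2 (by norm_num : (0 : ℝ) ≤ 1 / 2)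
    linarith
  · intro x hx
    obtain ⟨s, hs, rfl⟩ := Finset.mem_image.1 hx
    refine ⟨?_, ?_, hρ s hs, ?_⟩
    · rw [FractionalIdeal.mem_inv_iff hk0]
      intro y hy
      have h1 : ρ s * y ∈ FractionalIdeal.spanSingleton (nonZeroDivisors (𝓞 K)) (ρ s) *
          (k : FractionalIdeal (nonZeroDivisors (𝓞 K)) K) :=
        FractionalIdeal.mul_mem_mul (FractionalIdeal.mem_spanSingleton_self _ _) hy
      rw [← hpρ s hs] at h1
      exact FractionalIdeal.coeIdeal_le_one h1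
    · rw [← hα s hs]; exact hlamα s hs
    · have h1 := hnorm s hs
      have h2 := (hp s hs).2
      have h3 : ((Ideal.absNorm (p s) : ℕ) : ℝ)
          = |((Algebra.norm ℚ (ρ s) : ℚ) : ℝ)| * ((Ideal.absNorm k : ℕ) : ℝ) := by
        have := congrArg (fun q : ℚ => (q : ℝ)) h1
        push_cast at this
        exact this
      rw [h3] at h2
      by_contra hcon
      push Not at hcon
      nlinarith
  · intro x hx y hy q hq
    obtain ⟨s, hs, rfl⟩ := Finset.mem_image.1 hx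
    obtain ⟨s', hs', rfl⟩ := Finset.mem_image.1 hy
    have h1 := hnorm s' hs'
    rw [hq, map_mul, abs_mul] at h1
    have h2 : Algebra.norm ℚ ((q : ℚ) : K) = q ^ 3 := by
      have := Algebra.norm_algebraMap (R := ℚ) (S := K) q
      rw [hK] at this
      rw [← this]
      congr 1
    rw [h2, mul_assoc, ← hnorm s hs, abs_pow] at h1
    rcases b8_ratio (hp s hs).1 (hp s' hs').1 h1 with rfl | rfl
    · left; rw [hq]; simp
    · right; rw [hq]; simp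
  · intro x hx l hl
    obtain ⟨s, hs, rfl⟩ := Finset.mem_image.1 hx
    rintro ⟨y, hy, hxy⟩
    -- `(y) k` is an integral ideal
    have hle : FractionalIdeal.spanSingleton (nonZeroDivisors (𝓞 K)) y *
        (k : FractionalIdeal (nonZeroDivisors (𝓞 K)) K) ≤ 1 := by
      rw [FractionalIdeal.mul_le]
      intro a ha b hb
      rw [FractionalIdeal.mem_spanSingleton] at ha
      obtain ⟨r, rfl⟩ := ha
      have h1 := (FractionalIdeal.mem_inv_iff hk0).1 hy b hb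
      rw [smul_mul_assoc]
      exact Submodule.smul_mem _ r h1
    obtain ⟨r, hr⟩ := FractionalIdeal.le_one_iff_exists_coeIdeal.1 hle
    have h1 : ((Ideal.absNorm (p s) : ℕ) : ℚ) = (l : ℚ) ^ 3 * (Ideal.absNorm r : ℚ) := by
      have h2 := congrArg FractionalIdeal.absNorm hr
      rw [map_mul, FractionalIdeal.coeIdeal_absNorm, FractionalIdeal.absNorm_span_singleton, hnk] at h2
      rw [hnorm s hs, hxy, map_mul, abs_mul, mul_assoc, ← h2]
      congr 1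
      have h3 := Algebra.norm_algebraMap (R := ℚ) (S := K) (l : ℚ)
      rw [hK] at h3
      have h4 : (algebraMap ℚ K) (l : ℚ) = (l : K) := by simp
      rw [h4] at h3
      rw [h3, abs_of_nonneg (by positivity)]
    have h5 : Ideal.absNorm (p s) = l ^ 3 * Ideal.absNorm r := by exact_mod_cast h1
    have h6 := (hp s hs).1
    rw [h5] at h6
    have h7 : l ∣ l ^ 3 * Ideal.absNorm r := Dvd.dvd.mul_right (dvd_pow_self l (by norm_num)) _
    have h8 : l = l ^ 3 * Ideal.absNorm r := (Nat.prime_dvd_prime_iff_eq hl h6).1 h7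
    have h9 : 1 < l := hl.one_lt
    have h10 : Ideal.absNorm r ≠ 0 := by
      intro h0; rw [h0, mul_zero] at h6; exact Nat.not_prime_zero h6
    have h11 : 1 ≤ Ideal.absNorm r := Nat.one_le_iff_ne_zero.2 h10
    have h12 : l ^ 3 ≤ l ^ 3 * Ideal.absNorm r := Nat.le_mul_of_pos_right _ h11
    have h13 : l < l ^ 3 := by
      calc l = l ^ 1 := (pow_one l).symm
        _ < l ^ 3 := Nat.pow_lt_pow_right h9 (by norm_num)
    omega

private theorem b8_fiber : ∃ C : ℝ, 0 < C ∧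
    ∀ (K : Type) [Field K] [NumberField K], Module.finrank ℚ K = 3 →
    ∀ (lam : K →ₗ[ℚ] ℚ), lam ≠ 0 →
    ∀ (h : FractionalIdeal (nonZeroDivisors (𝓞 K)) K), h ≠ 0 → ∀ (T T' P : ℝ), 1 ≤ T → T ≤ T' →
    1 ≤ P → ∀ (i : ℕ), 2 ≤ i →
    ∀ (k : Ideal (𝓞 K)), P ≤ ((Ideal.absNorm k : ℕ) : ℝ) → ((Ideal.absNorm k : ℕ) : ℝ) ≤ 2 * P →
    ∀ (S : Finset (ℤ × ℤ)) (α ρ : ℤ × ℤ → K) (p : ℤ × ℤ → Ideal (𝓞 K)),
    (∀ s ∈ S, (Ideal.absNorm (p s)).Prime ∧ ((Ideal.absNorm (p s) : ℕ) : ℝ) ≤ 2 * P) →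
    (∀ s ∈ S, FractionalIdeal.spanSingleton (nonZeroDivisors (𝓞 K)) (α s) =
      h * (p s : FractionalIdeal (nonZeroDivisors (𝓞 K)) K) ^ i) →
    (∀ s ∈ S, (p s : FractionalIdeal (nonZeroDivisors (𝓞 K)) K) =
      FractionalIdeal.spanSingleton (nonZeroDivisors (𝓞 K)) (ρ s) * k) →
    (∀ s ∈ S, Lht (ρ s) T') → (∀ s ∈ S, Lht (α s) T) → (∀ s ∈ S, lam (α s) = 0) →
    (∀ s ∈ S, ∀ s' ∈ S, α s = α s' → s = s') →
    (S.card : ℝ) ≤ C * ((i : ℝ) * T') ^ 3 * ((i : ℝ) ^ 2 * T' ^ 3 *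
      (1 + (4 * P / |(discr K : ℝ)| ^ (1 / 2 : ℝ)) ^ (1 / 2 : ℝ))) := by
  classical
  obtain ⟨C1, hC1, hu⟩ := card_units_le
  obtain ⟨C2, hC2, hcell⟩ := b8_cell
  refine ⟨C1 * 64 * C2, by positivity, ?_⟩
  intro K _ _ hK lam hlam h hh T T' P hT hTT' hP i hi k hk1 hk2 S α ρ p hp hαp hpρ hρ hα hlamα hinj
  have hT' : 1 ≤ T' := hT.trans hTT'
  have hi' : (2 : ℝ) ≤ i := by exact_mod_cast hi
  rcases S.eq_empty_or_nonempty with rfl | ⟨s0, hs0⟩
  · simp only [Finset.card_empty, Nat.cast_zero]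
    positivity
  have hk0 : (k : FractionalIdeal (nonZeroDivisors (𝓞 K)) K) ≠ 0 := by
    rw [FractionalIdeal.coeIdeal_ne_zero]
    rintro rfl
    rw [Ideal.absNorm_bot] at hk1
    norm_num at hk1
    linarith
  have hα0 : ∀ s ∈ S, α s ≠ 0 := fun s hs => (hα s hs).1
  have hρ0 : ∀ s ∈ S, ρ s ≠ 0 := fun s hs => (hρ s hs).1
  set u : ℤ × ℤ → K := fun s => (α s * (α s0)⁻¹) * ((ρ s0 * (ρ s)⁻¹) ^ i) with hudef
  have hu0 : ∀ s ∈ S, u s ≠ 0 := by
    intro s hs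
    exact mul_ne_zero (mul_ne_zero (hα0 s hs) (inv_ne_zero (hα0 s0 hs0)))
      (pow_ne_zero _ (mul_ne_zero (hρ0 s0 hs0) (inv_ne_zero (hρ0 s hs))))
  -- `α s` in terms of `ρ s`
  have hαeq : ∀ s ∈ S, α s = (α s0 * u s * ((ρ s0)⁻¹) ^ i) * ρ s ^ i := by
    intro s hs
    have h1 := hα0 s0 hs0
    have h2 := hρ0 s hs
    have h3 := hρ0 s0 hs0
    simp only [hudef]
    rw [mul_pow, inv_pow, inv_pow]
    field_simp
  -- the ideals
  have hspan : ∀ s ∈ S, FractionalIdeal.spanSingleton (nonZeroDivisors (𝓞 K)) (α s) =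
      h * (FractionalIdeal.spanSingleton (nonZeroDivisors (𝓞 K)) (ρ s) * k) ^ i := by
    intro s hs
    rw [hαp s hs, hpρ s hs]
  have hu1 : ∀ s ∈ S, FractionalIdeal.spanSingleton (nonZeroDivisors (𝓞 K)) (u s) = 1 := by
    intro s hs
    have h1 : α s * ρ s0 ^ i = u s * (α s0 * ρ s ^ i) := by
      rw [hαeq s hs]
      have h1 := hα0 s0 hs0
      have h2 := hρ0 s hs
      have h3 := hρ0 s0 hs0
      rw [inv_pow]
      field_simp
    revert h1
    generalize u s = w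
    intro h1
    have h2 := congrArg (FractionalIdeal.spanSingleton (nonZeroDivisors (𝓞 K))) h1
    rw [← FractionalIdeal.spanSingleton_mul_spanSingleton,
      ← FractionalIdeal.spanSingleton_mul_spanSingleton,
      ← FractionalIdeal.spanSingleton_mul_spanSingleton,
      ← FractionalIdeal.spanSingleton_pow, ← FractionalIdeal.spanSingleton_pow,
      hspan s hs, hspan s0 hs0, mul_pow, mul_pow] at h2
    have hsr : FractionalIdeal.spanSingleton (nonZeroDivisors (𝓞 K)) (ρ s) ≠ 0 :=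
      FractionalIdeal.spanSingleton_ne_zero_iff.2 (hρ0 s hs)
    have hsr0 : FractionalIdeal.spanSingleton (nonZeroDivisors (𝓞 K)) (ρ s0) ≠ 0 :=
      FractionalIdeal.spanSingleton_ne_zero_iff.2 (hρ0 s0 hs0)
    have h3 : h * (FractionalIdeal.spanSingleton (nonZeroDivisors (𝓞 K)) (ρ s) ^ i *
        (k : FractionalIdeal (nonZeroDivisors (𝓞 K)) K) ^ i) *
        FractionalIdeal.spanSingleton (nonZeroDivisors (𝓞 K)) (ρ s0) ^ i ≠ 0 :=
      mul_ne_zero (mul_ne_zero hh (mul_ne_zero (pow_ne_zero _ hsr) (pow_ne_zero _ hk0)))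
        (pow_ne_zero _ hsr0)
    have h4 : FractionalIdeal.spanSingleton (nonZeroDivisors (𝓞 K)) w *
        (h * (FractionalIdeal.spanSingleton (nonZeroDivisors (𝓞 K)) (ρ s) ^ i *
        (k : FractionalIdeal (nonZeroDivisors (𝓞 K)) K) ^ i) *
        FractionalIdeal.spanSingleton (nonZeroDivisors (𝓞 K)) (ρ s0) ^ i) =
        1 * (h * (FractionalIdeal.spanSingleton (nonZeroDivisors (𝓞 K)) (ρ s) ^ i *
        (k : FractionalIdeal (nonZeroDivisors (𝓞 K)) K) ^ i) *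
        FractionalIdeal.spanSingleton (nonZeroDivisors (𝓞 K)) (ρ s0) ^ i) := by
      rw [one_mul]
      conv_rhs => rw [h2]
      ring
    exact mul_right_cancel₀ h3 h4
  have hu1' : ∀ s ∈ S, FractionalIdeal.spanSingleton (nonZeroDivisors (𝓞 K)) (u s)⁻¹ = 1 := by
    intro s hs
    have h1 : FractionalIdeal.spanSingleton (nonZeroDivisors (𝓞 K)) (u s) *
        FractionalIdeal.spanSingleton (nonZeroDivisors (𝓞 K)) (u s)⁻¹ = 1 := by
      rw [FractionalIdeal.spanSingleton_mul_spanSingleton, mul_inv_cancel₀ (hu0 s hs),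
        FractionalIdeal.spanSingleton_one]
    rw [hu1 s hs, one_mul] at h1
    exact h1
  have hLu : ∀ s ∈ S, Lht (u s) (4 * ((i : ℝ) * T')) := by
    intro s hs
    have h1 : Lht (u s) ((T + T) + i * (T' + T')) :=
      lht_mul (lht_mul (hα s hs) (lht_inv (hα s0 hs0)))
        (lht_pow (lht_mul (hρ s0 hs0) (lht_inv (hρ s hs))) i)
    refine ⟨h1.1, fun φ => (h1.2 φ).trans ?_⟩
    nlinarith
  have hU := hu K hK (4 * ((i : ℝ) * T')) (by nlinarith) (S.image u) (by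
    intro x hx
    obtain ⟨s, hs, rfl⟩ := Finset.mem_image.1 hx
    exact ⟨b8_int (hu1 s hs), b8_int (hu1' s hs), hLu s hs⟩)
  have hfib : ∀ v ∈ S.image u, (((S.filter (fun s => u s = v)).card : ℕ) : ℝ) ≤
      C2 * (i : ℝ) ^ 2 * T' ^ 3 *
      (1 + (4 * P / |(discr K : ℝ)| ^ (1 / 2 : ℝ)) ^ (1 / 2 : ℝ)) := by
    intro v hv
    obtain ⟨s1, hs1, hv1⟩ := Finset.mem_image.1 hv
    have hv0 : v ≠ 0 := by rw [← hv1]; exact hu0 s1 hs1
    refine hcell K hK lam hlam T' P hT' hP i hi k hk1 hk2 (α s0 * v * ((ρ s0)⁻¹) ^ i)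
      (mul_ne_zero (mul_ne_zero (hα0 s0 hs0) hv0) (pow_ne_zero _ (inv_ne_zero (hρ0 s0 hs0))))
      (S.filter (fun s => u s = v)) α ρ p ?_ ?_ ?_ ?_ ?_ ?_
    · intro s hs; exact hp s (Finset.mem_filter.1 hs).1
    · intro s hs; exact hpρ s (Finset.mem_filter.1 hs).1
    · intro s hs; exact hρ s (Finset.mem_filter.1 hs).1
    · intro s hs
      obtain ⟨hs1, hs2⟩ := Finset.mem_filter.1 hs
      rw [← hs2]; exact hαeq s hs1
    · intro s hs; exact hlamα s (Finset.mem_filter.1 hs).1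
    · intro s hs s' hs'
      exact hinj s (Finset.mem_filter.1 hs).1 s' (Finset.mem_filter.1 hs').1
  have hsum : (S.card : ℝ) = ∑ v ∈ S.image u, (((S.filter (fun s => u s = v)).card : ℕ) : ℝ) := by
    have := Finset.card_eq_sum_card_fiberwise (f := u) (s := S) (t := S.image u)
      (fun s hs => Finset.mem_coe.2 (Finset.mem_image_of_mem u hs))
    rw [this]; push_cast; rfl
  rw [hsum]
  refine (Finset.sum_le_sum hfib).trans ?_
  rw [Finset.sum_const, nsmul_eq_mul]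
  refine (mul_le_mul_of_nonneg_right hU (by positivity)).trans (le_of_eq ?_)
  ring

private theorem b8_num (ε : ℝ) (hε : 0 < ε) (C0 C1 : ℝ) (hC0 : 0 < C0) (hC1 : 0 < C1)
    (D P T j : ℝ) (hD : 1 ≤ D) (hP : 1 ≤ P) (hT : 1 ≤ T) (hj : 0 ≤ j) :
    C0 * D ^ (1 / 2 + ε / 2) * (C1 * (j * (T + C0 * (1 + Real.log (D * (2 * P))))) ^ 3 *
      (j ^ 2 * (T + C0 * (1 + Real.log (D * (2 * P)))) ^ 3 *
      (1 + (4 * P / D ^ (1 / 2 : ℝ)) ^ (1 / 2 : ℝ)))) ≤
    (C0 * C1 * (1 + C0) ^ 6 * (1 + 12 / ε) ^ 6 * 2 ^ (ε / 2) * 2) * j ^ 5 * T ^ 6 * (D * P) ^ ε *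
      (D ^ (1 / 2 : ℝ) + D ^ (1 / 4 : ℝ) * P ^ (1 / 2 : ℝ)) := by
  have hD0 : 0 < D := by linarith
  have hP0 : 0 < P := by linarith
  have hDP : 1 ≤ D * P := by nlinarith
  have hDP2 : 1 ≤ D * (2 * P) := by nlinarith
  set L := 1 + Real.log (D * (2 * P)) with hL
  have hL1 : 1 ≤ L := by
    have := Real.log_nonneg hDP2
    linarith
  -- first: `T'`
  have h1 : T + C0 * L ≤ (1 + C0) * T * L := by nlinarith [mul_nonneg (sub_nonneg.2 hT) (sub_nonneg.2 hL1), mul_pos hC0 (by linarith : 0 < L), mul_nonneg (mul_nonneg hC0.le (sub_nonneg.2 hT)) (by linarith : 0 ≤ L)]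
  have h1' : (T + C0 * L) ^ 6 ≤ (1 + C0) ^ 6 * T ^ 6 * L ^ 6 := by
    calc (T + C0 * L) ^ 6 ≤ ((1 + C0) * T * L) ^ 6 :=
          pow_le_pow_left₀ (by positivity) h1 6
      _ = _ := by ring
  -- second: `L`
  have h2 : L ≤ (1 + 12 / ε) * (D * (2 * P)) ^ (ε / 12) := by
    have h3 := Real.log_le_rpow_div (x := D * (2 * P)) (by linarith) (show 0 < ε / 12 by positivity)
    have h4 : 1 ≤ (D * (2 * P)) ^ (ε / 12) := Real.one_le_rpow hDP2 (by positivity)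
    have h5 : (D * (2 * P)) ^ (ε / 12) / (ε / 12) = 12 / ε * (D * (2 * P)) ^ (ε / 12) := by
      field_simp
    rw [h5] at h3
    rw [add_mul, one_mul]
    linarith
  have h2' : L ^ 6 ≤ (1 + 12 / ε) ^ 6 * 2 ^ (ε / 2) * (D * P) ^ (ε / 2) := by
    have h3 : L ^ 6 ≤ ((1 + 12 / ε) * (D * (2 * P)) ^ (ε / 12)) ^ 6 :=
      pow_le_pow_left₀ (by linarith) h2 6
    refine h3.trans (le_of_eq ?_)
    rw [mul_pow, ← Real.rpow_natCast ((D * (2 * P)) ^ (ε / 12)), ← Real.rpow_mul (by positivity)]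
    have h4 : ε / 12 * ((6 : ℕ) : ℝ) = ε / 2 := by push_cast; ring
    rw [h4, show D * (2 * P) = 2 * (D * P) by ring, Real.mul_rpow (by norm_num) (by positivity)]
    ring
  -- third
  have h3 : D ^ (1 / 2 + ε / 2) * (1 + (4 * P / D ^ (1 / 2 : ℝ)) ^ (1 / 2 : ℝ)) ≤
      2 * D ^ (ε / 2) * (D ^ (1 / 2 : ℝ) + D ^ (1 / 4 : ℝ) * P ^ (1 / 2 : ℝ)) := by
    have h4 : (4 * P / D ^ (1 / 2 : ℝ)) ^ (1 / 2 : ℝ) = 2 * P ^ (1 / 2 : ℝ) / D ^ (1 / 4 : ℝ) := by
      rw [Real.div_rpow (by positivity) (by positivity), Real.mul_rpow (by norm_num) hP0.le,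
        ← Real.rpow_mul hD0.le]
      have h5 : (4 : ℝ) ^ (1 / 2 : ℝ) = 2 := by
        rw [show (4 : ℝ) = 2 ^ (2 : ℝ) by norm_num, ← Real.rpow_mul (by norm_num)]
        norm_num
      rw [h5]
      norm_num
    have h5 : D ^ (1 / 2 + ε / 2) = D ^ (ε / 2) * D ^ (1 / 2 : ℝ) := by
      rw [← Real.rpow_add hD0]; congr 1; ring
    have h6 : D ^ (1 / 2 : ℝ) = D ^ (1 / 4 : ℝ) * D ^ (1 / 4 : ℝ) := by
      rw [← Real.rpow_add hD0]; norm_num
    have h7 : 0 < D ^ (1 / 4 : ℝ) := Real.rpow_pos_of_pos hD0 _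
    have h8 : D ^ (1 / 2 : ℝ) * (2 * P ^ (1 / 2 : ℝ) / D ^ (1 / 4 : ℝ))
        = 2 * (D ^ (1 / 4 : ℝ) * P ^ (1 / 2 : ℝ)) := by
      rw [h6]; field_simp
    rw [h4, h5, mul_assoc, mul_add, h8, mul_one]
    have h9 : 0 < D ^ (ε / 2) := Real.rpow_pos_of_pos hD0 _
    have h10 : 0 < D ^ (1 / 2 : ℝ) := Real.rpow_pos_of_pos hD0 _
    nlinarith [mul_pos h9 h10]
  have h4 : D ^ (ε / 2) ≤ (D * P) ^ (ε / 2) :=
    Real.rpow_le_rpow hD0.le (by nlinarith) (by positivity)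
  have h5 : (D * P) ^ (ε / 2) * (D * P) ^ (ε / 2) = (D * P) ^ ε := by
    rw [← Real.rpow_add (by positivity)]; congr 1; ring
  have hQ : 0 ≤ D ^ (1 / 2 : ℝ) + D ^ (1 / 4 : ℝ) * P ^ (1 / 2 : ℝ) := by positivity
  have hE : 0 ≤ (D * P) ^ (ε / 2) := by positivity
  have hTT : 0 ≤ T + C0 * L := by positivity
  calc C0 * D ^ (1 / 2 + ε / 2) * (C1 * (j * (T + C0 * L)) ^ 3 *
      (j ^ 2 * (T + C0 * L) ^ 3 * (1 + (4 * P / D ^ (1 / 2 : ℝ)) ^ (1 / 2 : ℝ))))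
      = C0 * C1 * j ^ 5 * (T + C0 * L) ^ 6 * (D ^ (1 / 2 + ε / 2) *
        (1 + (4 * P / D ^ (1 / 2 : ℝ)) ^ (1 / 2 : ℝ))) := by ring
    _ ≤ C0 * C1 * j ^ 5 * ((1 + C0) ^ 6 * T ^ 6 * ((1 + 12 / ε) ^ 6 * 2 ^ (ε / 2) *
        (D * P) ^ (ε / 2))) * (2 * (D * P) ^ (ε / 2) *
        (D ^ (1 / 2 : ℝ) + D ^ (1 / 4 : ℝ) * P ^ (1 / 2 : ℝ))) := by
        refine mul_le_mul ?_ ?_ (by positivity) (by positivity)
        · refine mul_le_mul_of_nonneg_left ?_ (by positivity)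
          refine h1'.trans ?_
          exact mul_le_mul_of_nonneg_left h2' (by positivity)
        · refine h3.trans ?_
          refine mul_le_mul_of_nonneg_right ?_ hQ
          linarith
    _ = (C0 * C1 * (1 + C0) ^ 6 * (1 + 12 / ε) ^ 6 * 2 ^ (ε / 2) * 2) * j ^ 5 * T ^ 6 *
        ((D * P) ^ (ε / 2) * (D * P) ^ (ε / 2)) *
        (D ^ (1 / 2 : ℝ) + D ^ (1 / 4 : ℝ) * P ^ (1 / 2 : ℝ)) := by ring
    _ = _ := by rw [h5]

theorem curve_ideals (ε : ℝ) (hε : 0 < ε) : ∃ C : ℝ, 0 < C ∧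
    ∀ (K : Type) [Field K] [NumberField K], Module.finrank ℚ K = 3 →
    ∀ (lam : K →ₗ[ℚ] ℚ), lam ≠ 0 →
    ∀ (h : FractionalIdeal (nonZeroDivisors (𝓞 K)) K), h ≠ 0 → ∀ (T P : ℝ), 1 ≤ T → 1 ≤ P →
    ∀ (i : ℕ), 2 ≤ i → ∀ (S : Finset (ℤ × ℤ)) (α : ℤ × ℤ → K) (p : ℤ × ℤ → Ideal (𝓞 K)),
    (∀ s ∈ S, (Ideal.absNorm (p s)).Prime ∧ P ≤ ((Ideal.absNorm (p s) : ℕ) : ℝ) ∧
      ((Ideal.absNorm (p s) : ℕ) : ℝ) ≤ 2 * P) →
    (∀ s ∈ S, FractionalIdeal.spanSingleton (nonZeroDivisors (𝓞 K)) (α s) =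
      h * (p s : FractionalIdeal (nonZeroDivisors (𝓞 K)) K) ^ i) →
    (∀ s ∈ S, lam (α s) = 0) → (∀ s ∈ S, Lht (α s) T) → (∀ s ∈ S, ∀ s' ∈ S, α s = α s' → s = s') →
    (S.card : ℝ) ≤ C * (i : ℝ) ^ 5 * T ^ 6 * (|(discr K : ℝ)| * P) ^ ε *
      (|(discr K : ℝ)| ^ (1 / 2 : ℝ) + |(discr K : ℝ)| ^ (1 / 4 : ℝ) * P ^ (1 / 2 : ℝ)) := by
  classical
  obtain ⟨C0, hC0, hcl⟩ := card_classes (ε / 2) (by positivity)
  obtain ⟨C1, hC1, hfib⟩ := b8_fiber
  refine ⟨C0 * C1 * (1 + C0) ^ 6 * (1 + 12 / ε) ^ 6 * 2 ^ (ε / 2) * 2, by positivity, ?_⟩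
  intro K _ _ hK lam hlam h hh T P hT hP i hi S α p hp hαp hlamα hα hinj
  have hD : (1 : ℝ) ≤ |(discr K : ℝ)| := by
    have h1 : (discr K : ℤ) ≠ 0 := NumberField.discr_ne_zero K
    have h2 : 1 ≤ |discr K| := Int.one_le_abs h1
    have h3 : ((1 : ℤ) : ℝ) ≤ ((|discr K| : ℤ) : ℝ) := by exact_mod_cast h2
    rw [Int.cast_abs] at h3
    simpa using h3
  refine le_trans ?_ (b8_num ε hε C0 C1 hC0 hC1 |(discr K : ℝ)| P T i hD hP hT (Nat.cast_nonneg i))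
  set T' := T + C0 * (1 + Real.log (|(discr K : ℝ)| * (2 * P))) with hT'def
  have hlog : 0 ≤ Real.log (|(discr K : ℝ)| * (2 * P)) := Real.log_nonneg (by nlinarith)
  have hTT' : T ≤ T' := by
    have : 0 ≤ C0 * (1 + Real.log (|(discr K : ℝ)| * (2 * P))) := by positivity
    linarith
  obtain ⟨Cn, c, hCA, hc, hsep⟩ := exists_net T' (by linarith) (S.image p)
  have hCn := hcl K hK (2 * P) (by linarith) T' (by rw [hT'def]; linarith) Cn (by
    intro I hI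
    obtain ⟨s, hs, rfl⟩ := Finset.mem_image.1 (hCA hI)
    refine ⟨?_, (hp s hs).2.2⟩
    intro h0
    have := (hp s hs).1
    rw [h0, Ideal.absNorm_bot] at this
    exact Nat.not_prime_zero this) hsep
  have hfiber : ∀ k ∈ Cn, (((S.filter (fun s => c (p s) = k)).card : ℕ) : ℝ) ≤
      C1 * ((i : ℝ) * T') ^ 3 * ((i : ℝ) ^ 2 * T' ^ 3 *
      (1 + (4 * P / |(discr K : ℝ)| ^ (1 / 2 : ℝ)) ^ (1 / 2 : ℝ))) := by
    intro k hk
    obtain ⟨s1, hs1, hk1⟩ := Finset.mem_image.1 (hCA hk)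
    have hch : ∀ s ∈ S.filter (fun s => c (p s) = k), ∃ ρ : K, Lht ρ T' ∧
        (p s : FractionalIdeal (nonZeroDivisors (𝓞 K)) K) =
          FractionalIdeal.spanSingleton (nonZeroDivisors (𝓞 K)) ρ * k := by
      intro s hs
      obtain ⟨hs1, hs2⟩ := Finset.mem_filter.1 hs
      have h1 := (hc (p s) (Finset.mem_image_of_mem p hs1)).2
      rw [hs2] at h1
      obtain ⟨x, hx1, hx2⟩ := h1
      exact ⟨x, hx1, hx2⟩
    choose! ρ hρ1 hρ2 using hch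
    refine hfib K hK lam hlam h hh T T' P hT hTT' hP i hi k ?_ ?_ (S.filter (fun s => c (p s) = k))
      α ρ p ?_ ?_ ?_ ?_ ?_ ?_ ?_
    · rw [← hk1]; exact (hp s1 hs1).2.1
    · rw [← hk1]; exact (hp s1 hs1).2.2
    · intro s hs; exact ⟨(hp s (Finset.mem_filter.1 hs).1).1, (hp s (Finset.mem_filter.1 hs).1).2.2⟩
    · intro s hs; exact hαp s (Finset.mem_filter.1 hs).1
    · intro s hs; exact hρ2 s hs
    · intro s hs; exact hρ1 s hs
    · intro s hs; exact hα s (Finset.mem_filter.1 hs).1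
    · intro s hs; exact hlamα s (Finset.mem_filter.1 hs).1
    · intro s hs s' hs'
      exact hinj s (Finset.mem_filter.1 hs).1 s' (Finset.mem_filter.1 hs').1
  have hsum : (S.card : ℝ) = ∑ k ∈ Cn, (((S.filter (fun s => c (p s) = k)).card : ℕ) : ℝ) := by
    have := Finset.card_eq_sum_card_fiberwise (f := fun s => c (p s)) (s := S) (t := Cn)
      (fun s hs => Finset.mem_coe.2 ((hc (p s) (Finset.mem_image_of_mem p (Finset.mem_coe.1 hs))).1))
    rw [this]; push_cast; rfl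
  rw [hsum]
  refine (Finset.sum_le_sum hfiber).trans ?_
  rw [Finset.sum_const, nsmul_eq_mul]
  exact mul_le_mul_of_nonneg_right hCn (by positivity)

end Pool.Agent.Lib.SqPart
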