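import Pool.Agent.Lib.MP_d8bd92_nt.SqDefs

set_option autoImplicit false

/-!
The cubic field of an irreducible form, its discriminant, heights of x - θ y.

exists_field. PROOF. a = F.a is nonzero (F.val (1,0)). The polynomial f = a X^3 + b X^2 + c X + d over ℚ has degree
3 and no rational root (a root x/y in lowest terms gives F.val (x,y) = 0), so it is irreducible
(`Polynomial.irreducible_of_degree_le_three_of_not_isRoot`-like lemma). K = AdjoinRoot f, θ = root.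
discr_le. PROOF. ω = aθ and η = aθ^2 + bθ are integral (ω^3 + bω^2 + acω + a^2 d = 0; η is in the order
R = ℤ + ℤω + ℤη, which is closed under multiplication: ω^2 = aη - bω, ωη = -cω - ad, η^2 = -cη - dω·(...);
simplest: η = -c - d/θ and d/θ is a root of X^3 + cX^2 + bdX + ad^2, if d not 0, which holds as F.Irr). 1, ω, η
are linearly independent over ℚ, and their discriminant is F.disc (discriminant of 1, θ, θ^2 is
disc(F)/a^4; the transition matrix has determinant a^2). As they are integral, they are integral combinations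
of an integral basis, with integral transition matrix M, so F.disc = det(M)^2 discr K
(`Algebra.discr_of_matrix_vecMul`), det M nonzero.
The discriminant of 1, θ, θ^2: `Algebra.discr_powerBasis_eq_prod''` or the Vandermonde determinant of the three
conjugates θ_1, θ_2, θ_3 with θ_1+θ_2+θ_3 = -b/a, θ_1θ_2+... = c/a, θ_1θ_2θ_3 = -d/a and the identity
a^4 ((θ_1-θ_2)(θ_1-θ_3)(θ_2-θ_3))^2 = b^2c^2-4ac^3-4b^3d-27a^2d^2+18abcd.
lht_alpha. PROOF. x - θy is nonzero (θ irrational, z nonzero). For φ : K → ℂ: |φ θ| <= 1 + |b|+|c|+|d| <= 1 + Z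
(as |a| >= 1), so |φ(x - θy)| <= Z + (1+Z)Z <= 4 Z^2. The product over the three φ of |φ(x-θy)| is
|Norm (x - θy)| = |F.val z|/|a| >= 1/Z. So every |φ(x-θy)| >= (1/Z)(4Z^2)^(-2).
-/

namespace Pool.Agent.Lib.SqPart

open Finset NumberField

theorem c1a_a_ne (F : Cub) (hF : F.Irr) : F.a ≠ 0 := by
  intro h
  have := hF (1, 0) (by simp)
  apply this
  simp [Cub.val, h]

theorem c1a_noroot (F : Cub) (hF : F.Irr) (q : ℚ) :
    (F.a : ℚ) * q ^ 3 + (F.b : ℚ) * q ^ 2 + (F.c : ℚ) * q + (F.d : ℚ) ≠ 0 := by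
  intro h
  have hden : (q.den : ℚ) ≠ 0 := by exact_mod_cast q.den_nz
  have hz : ((q.num, (q.den : ℤ)) : ℤ × ℤ) ≠ 0 := by
    intro h0
    have := congrArg Prod.snd h0
    simp at this
  apply hF _ hz
  have hq : q * q.den = q.num := Rat.mul_den_eq_num q
  have h1 : ((F.val (q.num, (q.den : ℤ)) : ℤ) : ℚ) =
      ((F.a : ℚ) * q ^ 3 + (F.b : ℚ) * q ^ 2 + (F.c : ℚ) * q + (F.d : ℚ)) * (q.den : ℚ) ^ 3 := by
    simp only [Cub.val]
    push_cast
    rw [← hq]
    ring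
  rw [h, zero_mul] at h1
  exact_mod_cast h1

theorem c1a_eval {K : Type} [Field K] (F : Cub) (g : ℚ →+* K) (x : K) :
    (Cubic.toPoly (⟨F.a, F.b, F.c, F.d⟩ : Cubic ℚ)).eval₂ g x =
      (F.a : K) * x ^ 3 + (F.b : K) * x ^ 2 + (F.c : K) * x + (F.d : K) := by
  unfold Cubic.toPoly
  rw [Polynomial.eval₂_add, Polynomial.eval₂_add, Polynomial.eval₂_add, Polynomial.eval₂_mul,
    Polynomial.eval₂_mul, Polynomial.eval₂_mul, Polynomial.eval₂_C, Polynomial.eval₂_C,
    Polynomial.eval₂_C, Polynomial.eval₂_C, Polynomial.eval₂_pow, Polynomial.eval₂_pow,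
    Polynomial.eval₂_X, map_intCast, map_intCast, map_intCast, map_intCast]

theorem exists_field (F : Cub) (hF : F.Irr) : ∃ (K : Type) (_ : Field K) (_ : NumberField K)
    (θ : K), Module.finrank ℚ K = 3 ∧ IsRoot F θ ∧ ∀ q : ℚ, θ ≠ (q : K) := by
  have ha : (F.a : ℚ) ≠ 0 := by exact_mod_cast c1a_a_ne F hF
  let P : Cubic ℚ := ⟨F.a, F.b, F.c, F.d⟩
  have hdeg : P.toPoly.natDegree = 3 := Cubic.natDegree_of_a_ne_zero ha
  have heval : ∀ q : ℚ, P.toPoly.eval q =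
      (F.a : ℚ) * q ^ 3 + (F.b : ℚ) * q ^ 2 + (F.c : ℚ) * q + (F.d : ℚ) := by
    intro q
    simp [Cubic.toPoly, P]
  have hne : P.toPoly ≠ 0 := by
    intro h0
    rw [h0, Polynomial.natDegree_zero] at hdeg
    exact absurd hdeg (by norm_num)
  have hirr : Irreducible P.toPoly := by
    rw [Polynomial.irreducible_iff_roots_eq_zero_of_degree_le_three (by omega) (by omega)]
    rw [Multiset.eq_zero_iff_forall_notMem]
    intro q hq
    rw [Polynomial.mem_roots hne, Polynomial.IsRoot.def, heval] at hq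
    exact c1a_noroot F hF q hq
  have : Fact (Irreducible P.toPoly) := ⟨hirr⟩
  have hfin : FiniteDimensional ℚ (AdjoinRoot P.toPoly) :=
    (AdjoinRoot.powerBasis hne).finite
  have hchar : CharZero (AdjoinRoot P.toPoly) :=
    charZero_of_injective_algebraMap (algebraMap ℚ (AdjoinRoot P.toPoly)).injective
  have hNF : NumberField (AdjoinRoot P.toPoly) :=
    { to_charZero := hchar, to_finiteDimensional := hfin }
  refine ⟨AdjoinRoot P.toPoly, inferInstance, hNF, AdjoinRoot.root P.toPoly, ?_, ?_, ?_⟩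
  · rw [(AdjoinRoot.powerBasis hne).finrank, AdjoinRoot.powerBasis_dim, hdeg]
  · have h1 := AdjoinRoot.eval₂_root P.toPoly
    rw [c1a_eval] at h1
    exact h1
  · intro q hq
    have h1 := AdjoinRoot.eval₂_root P.toPoly
    rw [hq] at h1
    have h2 : ((q : AdjoinRoot P.toPoly)) = AdjoinRoot.of P.toPoly q :=
      (map_ratCast (AdjoinRoot.of P.toPoly) q).symm
    rw [h2, Polynomial.eval₂_at_apply] at h1
    have h3 : P.toPoly.eval q = 0 :=
      (map_eq_zero_iff _ (AdjoinRoot.of P.toPoly).injective).1 h1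
    rw [heval] at h3
    exact c1a_noroot F hF q h3

/-- bound for the roots -/
theorem c1a_root_le {a b c d : ℤ} (ha : a ≠ 0) {t : ℂ}
    (ht : (a : ℂ) * t ^ 3 + (b : ℂ) * t ^ 2 + (c : ℂ) * t + (d : ℂ) = 0) {Z : ℝ} (hZ : 1 ≤ Z)
    (h : |(b : ℝ)| + |(c : ℝ)| + |(d : ℝ)| ≤ Z) : ‖t‖ ≤ Z := by
  by_contra hcon
  have hcon' : Z < ‖t‖ := not_le.1 hcon
  have ht1 : 1 ≤ ‖t‖ := by linarith
  have ha1 : (1 : ℝ) ≤ |(a : ℝ)| := by
    have : (1 : ℤ) ≤ |a| := Int.one_le_abs ha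
    exact_mod_cast this
  have h1 : (a : ℂ) * t ^ 3 = -((b : ℂ) * t ^ 2 + (c : ℂ) * t + (d : ℂ)) := by
    linear_combination ht
  have h2 : |(a : ℝ)| * ‖t‖ ^ 3 ≤ |(b : ℝ)| * ‖t‖ ^ 2 + |(c : ℝ)| * ‖t‖ + |(d : ℝ)| := by
    calc |(a : ℝ)| * ‖t‖ ^ 3 = ‖(a : ℂ) * t ^ 3‖ := by
          rw [norm_mul, norm_pow, Complex.norm_intCast]
      _ = ‖(b : ℂ) * t ^ 2 + (c : ℂ) * t + (d : ℂ)‖ := by rw [h1, norm_neg]
      _ ≤ ‖(b : ℂ) * t ^ 2‖ + ‖(c : ℂ) * t‖ + ‖(d : ℂ)‖ := norm_add₃_le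
      _ = _ := by
          rw [norm_mul, norm_pow, norm_mul, Complex.norm_intCast, Complex.norm_intCast,
            Complex.norm_intCast]
  have h3 : ‖t‖ ^ 3 ≤ |(a : ℝ)| * ‖t‖ ^ 3 := by
    nlinarith [pow_nonneg (norm_nonneg t) 3]
  have h4 : |(c : ℝ)| * ‖t‖ ≤ |(c : ℝ)| * ‖t‖ ^ 2 := by
    refine mul_le_mul_of_nonneg_left ?_ (abs_nonneg _)
    nlinarith
  have h5 : |(d : ℝ)| ≤ |(d : ℝ)| * ‖t‖ ^ 2 := by
    have : 1 ≤ ‖t‖ ^ 2 := one_le_pow₀ ht1
    nlinarith [abs_nonneg (d : ℝ)]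
  have h6 : ‖t‖ ^ 3 ≤ Z * ‖t‖ ^ 2 := by
    calc ‖t‖ ^ 3 ≤ (|(b : ℝ)| + |(c : ℝ)| + |(d : ℝ)|) * ‖t‖ ^ 2 := by linarith
      _ ≤ Z * ‖t‖ ^ 2 := mul_le_mul_of_nonneg_right h (by positivity)
  have h7 : Z * ‖t‖ ^ 2 < ‖t‖ * ‖t‖ ^ 2 := mul_lt_mul_of_pos_right hcon' (by positivity)
  have h8 : ‖t‖ * ‖t‖ ^ 2 = ‖t‖ ^ 3 := by ring
  linarith

theorem lht_alpha : ∃ C : ℝ, 0 < C ∧ ∀ (F : Cub), F.Irr → ∀ (K : Type) [Field K] [NumberField K],
    Module.finrank ℚ K = 3 → ∀ θ : K, IsRoot F θ → (∀ q : ℚ, θ ≠ (q : K)) → ∀ Z : ℝ, 2 ≤ Z →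
    (F.ht : ℝ) ≤ Z → ∀ z : ℤ × ℤ, z ≠ 0 → |(z.1 : ℝ)| ≤ Z → |(z.2 : ℝ)| ≤ Z →
    Lht ((z.1 : K) - θ * (z.2 : K)) (C * Real.log Z) := by
  refine ⟨8, by norm_num, ?_⟩
  intro F hF K _ _ _ θ hθ hq Z hZ hht z hz hz1 hz2
  have ha := c1a_a_ne F hF
  have hZ0 : 0 ≤ Z := by linarith
  have hZ1 : 1 ≤ Z := by linarith
  have hht' : |(F.a : ℝ)| + |(F.b : ℝ)| + |(F.c : ℝ)| + |(F.d : ℝ)| ≤ Z := by
    have : (F.ht : ℝ) = |(F.a : ℝ)| + |(F.b : ℝ)| + |(F.c : ℝ)| + |(F.d : ℝ)| := by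
      simp [Cub.ht]
    rwa [this] at hht
  have hA := abs_nonneg (F.a : ℝ)
  have hB := abs_nonneg (F.b : ℝ)
  have hC := abs_nonneg (F.c : ℝ)
  have hD := abs_nonneg (F.d : ℝ)
  refine ⟨?_, ?_⟩
  · intro h0
    by_cases h2 : z.2 = 0
    · rw [h2] at h0
      have : z.1 = 0 := by
        have h3 : (z.1 : K) = 0 := by simpa using h0
        exact_mod_cast h3
      exact hz (Prod.ext this h2)
    · apply hq ((z.1 : ℚ) / z.2)
      have h3 : ((z.2 : ℤ) : K) ≠ 0 := by exact_mod_cast h2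
      push_cast
      rw [eq_div_iff h3]
      linear_combination -h0
  · intro φ
    set t : ℂ := φ θ with ht
    have hroot : (F.a : ℂ) * t ^ 3 + (F.b : ℂ) * t ^ 2 + (F.c : ℂ) * t + (F.d : ℂ) = 0 := by
      have := congrArg φ hθ
      simpa only [map_add, map_mul, map_pow, map_intCast, map_zero] using this
    have htZ : ‖t‖ ≤ Z := c1a_root_le ha hroot hZ1 (by linarith)
    have hφ : φ ((z.1 : K) - θ * (z.2 : K)) = (z.1 : ℂ) - t * (z.2 : ℂ) := by
      simp only [map_sub, map_mul, map_intCast, ht]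
    rw [hφ]
    set s : ℂ := (z.1 : ℂ) - t * (z.2 : ℂ) with hs
    have nz1 : ‖((z.1 : ℤ) : ℂ)‖ ≤ Z := by rw [Complex.norm_intCast]; exact hz1
    have nz2 : ‖((z.2 : ℤ) : ℂ)‖ ≤ Z := by rw [Complex.norm_intCast]; exact hz2
    have nA : ‖((F.a : ℤ) : ℂ)‖ ≤ Z := by rw [Complex.norm_intCast]; linarith
    have nB : ‖((F.b : ℤ) : ℂ)‖ ≤ Z := by rw [Complex.norm_intCast]; linarith
    have nC : ‖((F.c : ℤ) : ℂ)‖ ≤ Z := by rw [Complex.norm_intCast]; linarith
    -- the cofactor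
    set r : ℂ := (F.a : ℂ) * (z.1 : ℂ) ^ 2 + ((F.b : ℂ) + F.a * t) * (z.1 * z.2) +
      ((F.c : ℂ) + F.b * t + F.a * t ^ 2) * (z.2 : ℂ) ^ 2 with hr
    have hfac : ((F.val z : ℤ) : ℂ) = s * r := by
      rw [hs, hr]
      simp only [Cub.val]
      push_cast
      linear_combination (z.2 : ℂ) ^ 3 * hroot
    have hval1 : (1 : ℝ) ≤ ‖s‖ * ‖r‖ := by
      rw [← norm_mul, ← hfac, Complex.norm_intCast]
      have : (1 : ℤ) ≤ |F.val z| := Int.one_le_abs (hF z hz)
      exact_mod_cast this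
    have m1 : ‖(F.a : ℂ) * (z.1 : ℂ) ^ 2‖ ≤ Z * Z ^ 2 := by
      rw [norm_mul, norm_pow]
      exact mul_le_mul nA (pow_le_pow_left₀ (norm_nonneg _) nz1 2) (by positivity) hZ0
    have m2 : ‖((F.b : ℂ) + F.a * t) * (z.1 * z.2)‖ ≤ (Z + Z * Z) * (Z * Z) := by
      rw [norm_mul, norm_mul]
      refine mul_le_mul ((norm_add_le _ _).trans (add_le_add nB ?_))
        (mul_le_mul nz1 nz2 (norm_nonneg _) hZ0) (by positivity) (by positivity)
      rw [norm_mul]
      exact mul_le_mul nA htZ (norm_nonneg _) hZ0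
    have m3 : ‖((F.c : ℂ) + F.b * t + F.a * t ^ 2) * (z.2 : ℂ) ^ 2‖ ≤
        (Z + Z * Z + Z * Z ^ 2) * Z ^ 2 := by
      rw [norm_mul, norm_pow]
      refine mul_le_mul (norm_add₃_le.trans (add_le_add (add_le_add nC ?_) ?_))
        (pow_le_pow_left₀ (norm_nonneg _) nz2 2) (by positivity) (by positivity)
      · rw [norm_mul]
        exact mul_le_mul nB htZ (norm_nonneg _) hZ0
      · rw [norm_mul, norm_pow]
        exact mul_le_mul nA (pow_le_pow_left₀ (norm_nonneg _) htZ 2) (by positivity) hZ0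
    have hZ8 : Z * Z ^ 2 + (Z + Z * Z) * (Z * Z) + (Z + Z * Z + Z * Z ^ 2) * Z ^ 2 ≤ Z ^ 8 := by
      have p3 : Z ^ 3 ≤ Z ^ 5 := pow_le_pow_right₀ hZ1 (by norm_num)
      have p4 : Z ^ 4 ≤ Z ^ 5 := pow_le_pow_right₀ hZ1 (by norm_num)
      have p8 : (2 : ℝ) ^ 3 ≤ Z ^ 3 := pow_le_pow_left₀ (by norm_num) hZ 3
      have p5 : 0 ≤ Z ^ 5 := by positivity
      have e8 : Z ^ 8 = Z ^ 3 * Z ^ 5 := by ring
      have e1 : Z * Z ^ 2 + (Z + Z * Z) * (Z * Z) + (Z + Z * Z + Z * Z ^ 2) * Z ^ 2 =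
          3 * Z ^ 3 + 2 * Z ^ 4 + Z ^ 5 := by ring
      rw [e1, e8]
      nlinarith
    have hrZ : ‖r‖ ≤ Z ^ 8 := by
      rw [hr]
      exact (norm_add₃_le.trans (add_le_add (add_le_add m1 m2) m3)).trans hZ8
    have hsZ : ‖s‖ ≤ Z ^ 8 := by
      have h1 : ‖s‖ ≤ Z + Z * Z := by
        rw [hs]
        refine (norm_sub_le _ _).trans (add_le_add nz1 ?_)
        rw [norm_mul]
        exact mul_le_mul htZ nz2 (norm_nonneg _) hZ0
      have p1 : Z ≤ Z ^ 8 := by
        calc Z = Z ^ 1 := (pow_one Z).symm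
          _ ≤ Z ^ 8 := pow_le_pow_right₀ hZ1 (by norm_num)
      have p2 : Z ^ 3 ≤ Z ^ 8 := pow_le_pow_right₀ hZ1 (by norm_num)
      nlinarith [sq_nonneg Z]
    have hs0 : 0 < ‖s‖ := by
      rcases (norm_nonneg s).lt_or_eq with h | h
      · exact h
      · rw [← h, zero_mul] at hval1
        linarith
    have hZpos : 0 < Z := by linarith
    have hlog1 : Real.log ‖s‖ ≤ 8 * Real.log Z := by
      have := Real.log_le_log hs0 hsZ
      rwa [Real.log_pow] at this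
    have hlog2 : -(8 * Real.log Z) ≤ Real.log ‖s‖ := by
      have h1 : 1 ≤ ‖s‖ * Z ^ 8 := hval1.trans (mul_le_mul_of_nonneg_left hrZ (norm_nonneg _))
      have h2 := Real.log_le_log one_pos h1
      rw [Real.log_one, Real.log_mul hs0.ne' (by positivity), Real.log_pow] at h2
      push_cast at h2
      linarith
    exact abs_le.2 ⟨hlog2, by exact_mod_cast hlog1⟩

theorem c1b_a_ne {F : Cub} (hF : F.Irr) : F.a ≠ 0 := by
  intro h
  apply hF (1, 0) (by simp)
  simp [Cub.val, h]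

theorem c1b_lin {F : Cub} (hF : F.Irr) {K : Type} [Field K] [NumberField K] {θ : K}
    (hθ : IsRoot F θ) (hq : ∀ q : ℚ, θ ≠ (q : K)) (p q r : ℚ)
    (h : (p : K) * θ ^ 2 + (q : K) * θ + (r : K) = 0) : p = 0 ∧ q = 0 ∧ r = 0 := by
  have hlin : ∀ q r : ℚ, (q : K) * θ + (r : K) = 0 → q = 0 ∧ r = 0 := by
    intro q r h
    have hq0 : q = 0 := by
      by_contra hne
      apply hq (-r / q)
      have hne' : (q : K) ≠ 0 := by exact_mod_cast hne
      push_cast
      rw [eq_div_iff hne']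
      linear_combination h
    subst hq0
    refine ⟨rfl, ?_⟩
    rw [Rat.cast_zero, zero_mul, zero_add] at h
    exact_mod_cast h
  by_cases hp : p = 0
  · subst hp
    rw [Rat.cast_zero, zero_mul, zero_add] at h
    obtain ⟨h1, h2⟩ := hlin q r h
    exact ⟨rfl, h1, h2⟩
  · exfalso
    have ha : (F.a : ℚ) ≠ 0 := by exact_mod_cast c1b_a_ne hF
    obtain ⟨s, hs⟩ : ∃ s : ℚ, p * s = F.a := ⟨F.a / p, by field_simp⟩
    obtain ⟨t, ht⟩ : ∃ t : ℚ, p * t + q * s = F.b := ⟨(F.b - q * s) / p, by field_simp; ring⟩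
    have hs' : (p : K) * (s : K) = (F.a : K) := by exact_mod_cast congrArg (Rat.cast (K := K)) hs
    have ht' : (p : K) * (t : K) + (q : K) * (s : K) = (F.b : K) := by
      exact_mod_cast congrArg (Rat.cast (K := K)) ht
    have hθ' : (F.a : K) * θ ^ 3 + (F.b : K) * θ ^ 2 + (F.c : K) * θ + (F.d : K) = 0 := hθ
    have hs0 : s ≠ 0 := by
      intro h0
      rw [h0, mul_zero] at hs
      exact ha hs.symm
    have e : (((F.c : ℚ) - q * t - r * s : ℚ) : K) * θ + (((F.d : ℚ) - r * t : ℚ) : K) = 0 := by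
      push_cast
      linear_combination hθ' - ((s : K) * θ + (t : K)) * h + θ ^ 3 * hs' + θ ^ 2 * ht'
    obtain ⟨hu, hv⟩ := hlin _ _ e
    set x₀ : ℚ := -t / s with hx₀
    have hst : s * x₀ + t = 0 := by
      rw [hx₀]
      field_simp
      ring
    have hx : (F.a : ℚ) * x₀ ^ 3 + F.b * x₀ ^ 2 + F.c * x₀ + F.d = 0 := by
      linear_combination (p * x₀ ^ 2 + q * x₀ + r) * hst + x₀ * hu + hv - x₀ ^ 3 * hs -
        x₀ ^ 2 * ht
    have hn : (x₀.num : ℚ) = x₀ * x₀.den := (Rat.mul_den_eq_num x₀).symm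
    apply hF (x₀.num, (x₀.den : ℤ))
    · intro h0
      have h1 : (x₀.den : ℤ) = 0 := congrArg Prod.snd h0
      have h2 := x₀.den_ne_zero
      exact h2 (by exact_mod_cast h1)
    · have h1 : ((F.val (x₀.num, (x₀.den : ℤ)) : ℤ) : ℚ) = 0 := by
        unfold Cub.val
        push_cast
        rw [hn]
        linear_combination (x₀.den : ℚ) ^ 3 * hx
      exact_mod_cast h1

theorem c1b_basis {F : Cub} (hF : F.Irr) {K : Type} [Field K] [NumberField K]
    (hK : Module.finrank ℚ K = 3) {θ : K} (hθ : IsRoot F θ) (hq : ∀ q : ℚ, θ ≠ (q : K)) :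
    ∃ B : Module.Basis (Fin 3) ℚ K, B 0 = 1 ∧ B 1 = (F.a : K) * θ ∧
      B 2 = (F.a : K) * θ ^ 2 + (F.b : K) * θ := by
  have ha : (F.a : ℚ) ≠ 0 := by exact_mod_cast c1b_a_ne hF
  have hli : LinearIndependent ℚ
      (![1, (F.a : K) * θ, (F.a : K) * θ ^ 2 + (F.b : K) * θ] : Fin 3 → K) := by
    rw [Fintype.linearIndependent_iff]
    intro g hg
    rw [Fin.sum_univ_three] at hg
    simp only [Matrix.cons_val_zero, Matrix.cons_val_one, Matrix.cons_val, Rat.smul_def] at hg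
    have h1 : ((g 2 * F.a : ℚ) : K) * θ ^ 2 + ((g 1 * F.a + g 2 * F.b : ℚ) : K) * θ +
        ((g 0 : ℚ) : K) = 0 := by
      push_cast
      linear_combination hg
    obtain ⟨h2, h3, h4⟩ := c1b_lin hF hθ hq _ _ _ h1
    have g2 : g 2 = 0 := (mul_eq_zero.1 h2).resolve_right ha
    rw [g2, zero_mul, add_zero] at h3
    have g1 : g 1 = 0 := (mul_eq_zero.1 h3).resolve_right ha
    intro i
    fin_cases i
    · exact h4
    · exact g1
    · exact g2
  refine ⟨basisOfLinearIndependentOfCardEqFinrank hli (by rw [hK]; simp), ?_, ?_, ?_⟩ <;>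
    simp [coe_basisOfLinearIndependentOfCardEqFinrank]

theorem c1b_repr {K : Type} [Field K] [NumberField K] (B : Module.Basis (Fin 3) ℚ K)
    (v : Fin 3 → ℚ) (x : K) (hx : x = (v 0 : K) * B 0 + (v 1 : K) * B 1 + (v 2 : K) * B 2)
    (i : Fin 3) : B.repr x i = v i := by
  have h1 : x = ∑ j, v j • B j := by
    rw [Fin.sum_univ_three, Rat.smul_def, Rat.smul_def, Rat.smul_def]
    exact hx
  rw [h1, map_sum]
  simp [Finsupp.single_apply]

theorem c1b_trace {K : Type} [Field K] [NumberField K] (B : Module.Basis (Fin 3) ℚ K)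
    (x : K) (v : Fin 3 → Fin 3 → ℚ)
    (hx : ∀ j, x * B j = (v j 0 : K) * B 0 + (v j 1 : K) * B 1 + (v j 2 : K) * B 2) :
    Algebra.trace ℚ K x = v 0 0 + v 1 1 + v 2 2 := by
  rw [Algebra.trace_eq_matrix_trace B, Matrix.trace, Fin.sum_univ_three]
  simp only [Matrix.diag_apply, Algebra.leftMulMatrix_eq_repr_mul]
  rw [c1b_repr B (v 0) _ (hx 0), c1b_repr B (v 1) _ (hx 1), c1b_repr B (v 2) _ (hx 2)]

theorem c1b_discr {F : Cub} {K : Type} [Field K] [NumberField K]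
    {θ : K} (hθ : IsRoot F θ) (B : Module.Basis (Fin 3) ℚ K) (h0 : B 0 = 1)
    (h1 : B 1 = (F.a : K) * θ) (h2 : B 2 = (F.a : K) * θ ^ 2 + (F.b : K) * θ) :
    Algebra.discr ℚ B = (F.disc : ℚ) := by
  have hθ' : (F.a : K) * θ ^ 3 + (F.b : K) * θ ^ 2 + (F.c : K) * θ + (F.d : K) = 0 := hθ
  have m11 : B 1 * B 1 = -(F.b : K) * B 1 + (F.a : K) * B 2 := by
    rw [h1, h2]; ring
  have m12 : B 1 * B 2 = -(F.a * F.d : K) - (F.c : K) * B 1 := by
    rw [h1, h2]; linear_combination (F.a : K) * hθ'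
  have m22 : B 2 * B 2 = -(F.b * F.d : K) - (F.d : K) * B 1 - (F.c : K) * B 2 := by
    rw [h1, h2]; linear_combination ((F.a : K) * θ + F.b) * hθ'
  have t0 : Algebra.trace ℚ K 1 = 3 := by
    rw [c1b_trace B 1 ![![1, 0, 0], ![0, 1, 0], ![0, 0, 1]]]
    · simp; norm_num
    · intro j
      fin_cases j <;> simp
  have t1 : Algebra.trace ℚ K (B 1) = -F.b := by
    rw [c1b_trace B (B 1) ![![0, 1, 0], ![0, -F.b, F.a], ![-(F.a * F.d), -F.c, 0]]]
    · simp
    · intro j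
      fin_cases j
      · simp [h0]
      · simp only [Fin.mk_one, Fin.isValue, Matrix.cons_val_one, Matrix.cons_val_zero,
          Matrix.cons_val]
        rw [m11]; push_cast; ring
      · simp only [Fin.reduceFinMk, Fin.isValue, Matrix.cons_val_one, Matrix.cons_val_zero,
          Matrix.cons_val]
        rw [m12, h0]; push_cast; ring
  have t2 : Algebra.trace ℚ K (B 2) = -2 * F.c := by
    rw [c1b_trace B (B 2) ![![0, 0, 1], ![-(F.a * F.d), -F.c, 0], ![-(F.b * F.d), -F.d, -F.c]]]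
    · simp; ring
    · intro j
      fin_cases j
      · simp [h0]
      · simp only [Fin.mk_one, Fin.isValue, Matrix.cons_val_one, Matrix.cons_val_zero,
          Matrix.cons_val]
        rw [mul_comm (B 2) (B 1), m12, h0]; push_cast; ring
      · simp only [Fin.reduceFinMk, Fin.isValue, Matrix.cons_val_one, Matrix.cons_val_zero,
          Matrix.cons_val]
        rw [m22, h0]; push_cast; ring
  have hcomb : ∀ x y z : ℚ, Algebra.trace ℚ K ((x : K) + (y : K) * B 1 + (z : K) * B 2) =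
      3 * x + y * (-F.b) + z * (-2 * F.c) := by
    intro x y z
    have e : (x : K) + (y : K) * B 1 + (z : K) * B 2 = x • (1 : K) + y • B 1 + z • B 2 := by
      rw [Rat.smul_def, Rat.smul_def, Rat.smul_def, mul_one]
    rw [e, map_add, map_add, map_smul, map_smul, map_smul, t0, t1, t2]
    simp only [smul_eq_mul]
    ring
  have t11 : Algebra.trace ℚ K (B 1 * B 1) = F.b ^ 2 - 2 * F.a * F.c := by
    have e : B 1 * B 1 = ((0 : ℚ) : K) + ((-F.b : ℚ) : K) * B 1 + ((F.a : ℚ) : K) * B 2 := by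
      rw [m11]; push_cast; ring
    rw [e, hcomb]; ring
  have t12 : Algebra.trace ℚ K (B 1 * B 2) = F.b * F.c - 3 * F.a * F.d := by
    have e : B 1 * B 2 = ((-(F.a * F.d) : ℚ) : K) + ((-F.c : ℚ) : K) * B 1 +
        ((0 : ℚ) : K) * B 2 := by
      rw [m12]; push_cast; ring
    rw [e, hcomb]; ring
  have t22 : Algebra.trace ℚ K (B 2 * B 2) = 2 * F.c ^ 2 - 2 * F.b * F.d := by
    have e : B 2 * B 2 = ((-(F.b * F.d) : ℚ) : K) + ((-F.d : ℚ) : K) * B 1 +
        ((-F.c : ℚ) : K) * B 2 := by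
      rw [m22]; push_cast; ring
    rw [e, hcomb]; ring
  rw [Algebra.discr_def, Matrix.det_fin_three]
  simp only [Algebra.traceMatrix_apply, Algebra.traceForm_apply]
  rw [mul_comm (B 1) (B 0), mul_comm (B 2) (B 0), mul_comm (B 2) (B 1), h0]
  simp only [one_mul]
  rw [t0, t1, t2, t11, t12, t22]
  unfold Cub.disc
  push_cast
  ring

theorem c1b_int {F : Cub} {K : Type} [Field K] [NumberField K]
    {θ : K} (hθ : IsRoot F θ) : IsIntegral ℤ ((F.a : K) * θ) ∧
      IsIntegral ℤ ((F.a : K) * θ ^ 2 + (F.b : K) * θ) := by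
  have hθ' : (F.a : K) * θ ^ 3 + (F.b : K) * θ ^ 2 + (F.c : K) * θ + (F.d : K) = 0 := hθ
  have key : ∀ (u v w : ℤ) (z : K), z ^ 3 + (u : K) * z ^ 2 + (v : K) * z + (w : K) = 0 →
      IsIntegral ℤ z := by
    intro u v w z hz
    refine ⟨Polynomial.X ^ 3 + (Polynomial.C u * Polynomial.X ^ 2 + Polynomial.C v * Polynomial.X +
      Polynomial.C w), ?_, ?_⟩
    · refine Polynomial.monic_X_pow_add ?_
      compute_degree!
    · simp only [Polynomial.eval₂_add, Polynomial.eval₂_mul, Polynomial.eval₂_pow,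
        Polynomial.eval₂_X, Polynomial.eval₂_C]
      simp only [algebraMap_int_eq, eq_intCast]
      linear_combination hz
  constructor
  · apply key F.b (F.a * F.c) (F.a ^ 2 * F.d)
    push_cast
    linear_combination (F.a : K) ^ 2 * hθ'
  · have h1 : IsIntegral ℤ ((F.a : K) * θ ^ 2 + (F.b : K) * θ + F.c) := by
      apply key (-F.c) (F.b * F.d) (-(F.a * F.d ^ 2))
      push_cast
      linear_combination ((F.b : K) * ((F.a : K) * θ ^ 2 + (F.b : K) * θ + F.c) +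
        2 * F.a * θ * ((F.a : K) * θ ^ 2 + (F.b : K) * θ + F.c) -
        F.a * ((F.a : K) * θ ^ 3 + (F.b : K) * θ ^ 2 + (F.c : K) * θ + (F.d : K))) * hθ'
    have h2 : IsIntegral ℤ ((F.c : ℤ) : K) := by
      have := isIntegral_algebraMap (R := ℤ) (A := K) (x := F.c)
      simpa using this
    have h3 := h1.sub h2
    have e : (F.a : K) * θ ^ 2 + (F.b : K) * θ + F.c - ((F.c : ℤ) : K) =
      (F.a : K) * θ ^ 2 + (F.b : K) * θ := by ring
    rwa [e] at h3

theorem discr_le (F : Cub) (hF : F.Irr) (hD : F.disc ≠ 0) (K : Type) [Field K] [NumberField K]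
    (hK : Module.finrank ℚ K = 3) (θ : K) (hθ : IsRoot F θ) (hq : ∀ q : ℚ, θ ≠ (q : K)) :
    |discr K| ≤ |F.disc| := by
  classical
  obtain ⟨B, h0, h1, h2⟩ := c1b_basis hF hK hθ hq
  have hdisc := c1b_discr hθ B h0 h1 h2
  obtain ⟨i1, i2⟩ := c1b_int hθ
  have hint : ∀ j, ∃ y : 𝓞 K, algebraMap (𝓞 K) K y = B j := by
    intro j
    have hj : IsIntegral ℤ (B j) := by
      fin_cases j
      · simp only [Fin.zero_eta, Fin.isValue, h0]
        exact isIntegral_one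
      · simp only [Fin.mk_one, Fin.isValue, h1]
        exact i1
      · simp only [Fin.reduceFinMk, h2]
        exact i2
    exact ⟨⟨B j, hj⟩, rfl⟩
  choose y hy using hint
  have hcard : Fintype.card (Module.Free.ChooseBasisIndex ℤ (𝓞 K)) = 3 := by
    rw [← Module.finrank_eq_card_basis (RingOfIntegers.basis K), RingOfIntegers.rank, hK]
  set e : Module.Free.ChooseBasisIndex ℤ (𝓞 K) ≃ Fin 3 := Fintype.equivFinOfCardEq hcard with he
  set B' : Module.Basis (Fin 3) ℚ K := (integralBasis K).reindex e with hB'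
  have hdB' : Algebra.discr ℚ B' = (discr K : ℚ) := by
    rw [hB', Module.Basis.coe_reindex, Algebra.discr_reindex, coe_discr]
  set N : Matrix (Fin 3) (Fin 3) ℤ :=
    Matrix.of fun i j => (RingOfIntegers.basis K).repr (y j) (e.symm i) with hN
  have hmat : B'.toMatrix B = N.map (Int.castRingHom ℚ) := by
    ext i j
    rw [Module.Basis.toMatrix_apply, Matrix.map_apply, hN, Matrix.of_apply, hB',
      Module.Basis.repr_reindex_apply, ← hy j, integralBasis_repr_apply]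
    rfl
  have hdet : (B'.toMatrix B).det = (N.det : ℚ) := by
    rw [hmat, ← RingHom.mapMatrix_apply, ← RingHom.map_det]
    rfl
  have hmul : Algebra.discr ℚ B = (N.det : ℚ) ^ 2 * (discr K : ℚ) := by
    rw [← hdet, ← hdB', ← Algebra.discr_of_matrix_vecMul, Module.Basis.toMatrix_map_vecMul]
  rw [hdisc] at hmul
  have hmul' : F.disc = N.det ^ 2 * discr K := by exact_mod_cast hmul
  have hN0 : N.det ≠ 0 := by
    intro h
    rw [h] at hmul'
    exact hD (by rw [hmul']; ring)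
  rw [hmul', abs_mul, abs_pow]
  have h3 : 1 ≤ |N.det| ^ 2 := by
    have := Int.one_le_abs hN0
    nlinarith
  nlinarith [abs_nonneg (discr K)]

end Pool.Agent.Lib.SqPart
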