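import Pool.Agent.Lib.MP_d8bd92_nt.SqDefs

set_option autoImplicit false

/-!
The ideal of a form: the case of the point (1,0).

Setting: a θ^3 + bθ^2 + cθ + d = 0, a nonzero. The elements a, aθ+b, aθ^2+bθ+c are integral:
ω = aθ is a root of X^3+bX^2+acX+a^2d; aθ^2+bθ+c = -d/θ (θ nonzero) is -(d/θ), d/θ a root of
X^3+cX^2+bdX+ad^2.
first_ideal. PROOF. Let n = a. J = I ⊔ (p), β = aθ+b = ω+b. The element β satisfies
β(β-b)^2 + ca(β-b) + da^2 = 0; its characteristic polynomial is T(T-b)^2 + ca(T-b) + da^2 (θ generates K), so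
for every integer k: Norm(k - β) = k(k-b)^2 + ca(k-b) + da^2, and Norm β = cab - da^2, divisible by p^i if p^i | a.
p does not divide b since p | a, p not | b^2-3ac.
(1) For every ideal Q containing β and p: absNorm Q divides Norm(ps - β) for all integers s. If p^2 | absNorm Q,
s = 0, 1 give p^2 | p(p-b)^2 + cap, so p | b^2: contradiction. So p^2 does not divide absNorm Q.
(2) p divides Norm β, so there is a prime ideal P containing p and β (otherwise (β)+(p) = 1, and the norm of β is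
prime to p: e.g. via `Ideal.absNorm` multiplicativity and prime factors of (β): some prime factor Q of (β) has norm
divisible by p, so contains p). a ∈ P. ω(aθ^2+bθ+c) = a(aθ^3+bθ^2+cθ) = -ad ∈ P and ω = β - b, b not in P (b prime to
p), so aθ^2+bθ+c ∈ P. So J ≤ P, J not ⊤; absNorm J divides p^3 and not divisible by p^2: absNorm J = p, J prime.
(3) J^i contains I if p^i | a: let P = J. a ∈ P^i as p^i | a. If Q is a prime ideal containing β and p, Q not P, then
P Q = P ⊓ Q contains β and p and p^2 | absNorm (P Q): contradiction to (1). So the only prime factor of (β) above p is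
P, so p-part of |Norm β| = absNorm of P^s, s = exponent of P in (β): p^s, and p^i | Norm β gives s >= i: β ∈ P^i
(if Norm β = 0 then β = 0). Finally ω (aθ^2+bθ+c) = -ad ∈ P^i, ω not in P, P prime: aθ^2+bθ+c ∈ P^i
(`Ideal.IsPrime.mul_mem_pow` or valuations). So I ≤ P^i.
-/

namespace Pool.Agent.Lib.SqPart

open Finset NumberField

/-- the norm of a generator of a cubic field -/
theorem c2_norm {K : Type} [Field K] [NumberField K] (hK : Module.finrank ℚ K = 3) {x : K}
    (hx : ∀ q : ℚ, x ≠ (q : K)) {α β γ : ℚ}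
    (h : x ^ 3 + (α : K) * x ^ 2 + (β : K) * x + (γ : K) = 0) : Algebra.norm ℚ x = - γ := by
  have hi : IsIntegral ℚ x := IsIntegral.of_finite ℚ x
  have hne1 : (minpoly ℚ x).natDegree ≠ 1 := by
    intro h1
    rw [minpoly.natDegree_eq_one_iff] at h1
    obtain ⟨q, hq⟩ := h1
    exact hx q hq.symm
  have hdeg : (minpoly ℚ x).natDegree = 3 := by
    have h1 := minpoly.degree_dvd hi
    rw [hK] at h1
    rcases (Nat.dvd_prime Nat.prime_three).mp h1 with h2 | h2
    · exact absurd h2 hne1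
    · exact h2
  set P : Polynomial ℚ := Polynomial.X ^ 3 + Polynomial.C α * Polynomial.X ^ 2 +
    Polynomial.C β * Polynomial.X + Polynomial.C γ with hP
  have hPdeg : P.natDegree = 3 := by
    rw [hP]
    compute_degree!
  have hPmonic : P.Monic := by
    rw [hP]
    monicity!
  have hroot : Polynomial.aeval x P = 0 := by
    rw [hP]
    simp only [map_add, map_mul, map_pow, Polynomial.aeval_X, Polynomial.aeval_C]
    exact h
  have hmin : P = minpoly ℚ x := by
    refine Polynomial.eq_of_monic_of_dvd_of_natDegree_le (minpoly.monic hi) hPmonic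
      (minpoly.dvd ℚ x hroot) ?_
    rw [hPdeg, hdeg]
  have htower : Module.finrank ℚ (IntermediateField.adjoin ℚ {x}) *
      Module.finrank (IntermediateField.adjoin ℚ {x}) K = Module.finrank ℚ K :=
    Module.finrank_mul_finrank ℚ (IntermediateField.adjoin ℚ {x}) K
  rw [IntermediateField.adjoin.finrank hi, hdeg, hK] at htower
  have hone : Module.finrank (IntermediateField.adjoin ℚ {x}) K = 1 := by omega
  rw [Algebra.norm_eq_norm_adjoin, hone, pow_one]
  have hpb := Algebra.PowerBasis.norm_gen_eq_coeff_zero_minpoly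
    (IntermediateField.adjoin.powerBasis hi)
  rw [IntermediateField.adjoin.powerBasis_gen, IntermediateField.minpoly_gen,
    IntermediateField.adjoin.powerBasis_dim, hdeg, ← hmin] at hpb
  rw [hpb, hP]
  simp only [Polynomial.coeff_add, Polynomial.coeff_C_zero, Polynomial.coeff_C_mul,
    Polynomial.coeff_X_pow, Polynomial.coeff_X_zero]
  norm_num

theorem c2_root_u {K : Type} [Field K] {a b c d θ : K}
    (h : a * θ ^ 3 + b * θ ^ 2 + c * θ + d = 0) :
    (a * θ + b) ^ 3 - 2 * b * (a * θ + b) ^ 2 + (b ^ 2 + c * a) * (a * θ + b) +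
      (d * a ^ 2 - c * a * b) = 0 := by
  linear_combination a ^ 2 * h

theorem c2_root_v {K : Type} [Field K] {a b c d θ : K}
    (h : a * θ ^ 3 + b * θ ^ 2 + c * θ + d = 0) :
    (a * θ ^ 2 + b * θ + c) ^ 3 - c * (a * θ ^ 2 + b * θ + c) ^ 2 +
      b * d * (a * θ ^ 2 + b * θ + c) - a * d ^ 2 = 0 := by
  linear_combination ((a * θ + b) * (a * θ ^ 2 + b * θ + c) - a * d) * h

theorem c2_int {K : Type} [Field K] {x : K} (α β γ : ℤ)
    (h : x ^ 3 + (α : K) * x ^ 2 + (β : K) * x + (γ : K) = 0) : IsIntegral ℤ x := by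
  refine ⟨Polynomial.X ^ 3 + Polynomial.C α * Polynomial.X ^ 2 +
    Polynomial.C β * Polynomial.X + Polynomial.C γ, by monicity!, ?_⟩
  rw [← Polynomial.aeval_def]
  simp only [map_add, map_mul, map_pow, Polynomial.aeval_X, Polynomial.aeval_C]
  exact h

/-- the norm of `k - u` -/
theorem c2_norm_u (F : Cub) (ha : F.a ≠ 0) (K : Type) [Field K] [NumberField K]
    (hK : Module.finrank ℚ K = 3) (θ : K) (hθ : IsRoot F θ) (hq : ∀ q : ℚ, θ ≠ (q : K))
    (u : 𝓞 K) (hu : (u : K) = (F.a : K) * θ + (F.b : K)) (k : ℤ) :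
    Algebra.norm ℤ ((k : 𝓞 K) - u) =
      k * (k - F.b) ^ 2 + F.c * F.a * (k - F.b) + F.d * F.a ^ 2 := by
  have haK : (F.a : K) ≠ 0 := by exact_mod_cast ha
  have h1 : Algebra.norm ℚ ((((k : 𝓞 K) - u : 𝓞 K)) : K) =
      -(((-(k * (k - F.b) ^ 2 + F.c * F.a * (k - F.b) + F.d * F.a ^ 2) : ℤ)) : ℚ) := by
    refine c2_norm hK (α := ((2 * F.b - 3 * k : ℤ) : ℚ))
      (β := ((3 * k ^ 2 - 4 * F.b * k + F.b ^ 2 + F.c * F.a : ℤ) : ℚ)) ?_ ?_
    · intro q h2
      apply hq (((k : ℚ) - q - F.b) / F.a)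
      push_cast at h2 ⊢
      have hu' : algebraMap (𝓞 K) K u = (F.a : K) * θ + (F.b : K) := hu
      have h2' : (k : K) - ((F.a : K) * θ + (F.b : K)) = (q : K) := by
        rw [← h2, ← hu']
        simp
      rw [eq_div_iff haK]
      linear_combination -h2'
    · have h3 := c2_root_u hθ
      rw [← hu] at h3
      have h4 : ((((k : 𝓞 K) - u : 𝓞 K)) : K) = (k : K) - (u : K) := by
        simp
      rw [h4]
      push_cast
      linear_combination -h3
  rw [← Algebra.coe_norm_int] at h1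
  have h5 : ((Algebra.norm ℤ ((k : 𝓞 K) - u) : ℤ) : ℚ) =
      ((k * (k - F.b) ^ 2 + F.c * F.a * (k - F.b) + F.d * F.a ^ 2 : ℤ) : ℚ) := by
    rw [h1]
    push_cast
    ring
  exact_mod_cast h5

/-- no ideal containing `u` and `p` has norm divisible by `p²` -/
theorem c2_sq (F : Cub) (ha : F.a ≠ 0) (K : Type) [Field K] [NumberField K]
    (hK : Module.finrank ℚ K = 3) (θ : K) (hθ : IsRoot F θ) (hq : ∀ q : ℚ, θ ≠ (q : K))
    (u : 𝓞 K) (hu : (u : K) = (F.a : K) * θ + (F.b : K)) (p : ℕ) (hp : p.Prime)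
    (hpa : (p : ℤ) ∣ F.a) (hpb : ¬ (p : ℤ) ∣ F.b) (Q : Ideal (𝓞 K)) (hQu : u ∈ Q)
    (hQp : (p : 𝓞 K) ∈ Q) : ¬ p ^ 2 ∣ Ideal.absNorm Q := by
  intro hdvd
  have hp' : Prime (p : ℤ) := Nat.prime_iff_prime_int.mp hp
  have hp0 : (p : ℤ) ≠ 0 := hp'.ne_zero
  have key : ∀ k : ℤ, (k : 𝓞 K) ∈ Q →
      (p : ℤ) ^ 2 ∣ k * (k - F.b) ^ 2 + F.c * F.a * (k - F.b) + F.d * F.a ^ 2 := by
    intro k hk
    have h1 := Ideal.absNorm_dvd_norm_of_mem (Q.sub_mem hk hQu)
    rw [c2_norm_u F ha K hK θ hθ hq u hu k] at h1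
    have h2 : ((p : ℤ)) ^ 2 ∣ (Ideal.absNorm Q : ℤ) := by exact_mod_cast hdvd
    exact h2.trans h1
  have h0 := key 0 (by simp)
  have h1 := key p (by exact_mod_cast hQp)
  have h2 := dvd_sub h1 h0
  have h3 : (p : ℤ) * ((p - F.b) ^ 2 + F.c * F.a) =
      (p * (p - F.b) ^ 2 + F.c * F.a * (p - F.b) + F.d * F.a ^ 2) -
      (0 * (0 - F.b) ^ 2 + F.c * F.a * (0 - F.b) + F.d * F.a ^ 2) := by ring
  rw [← h3, pow_two] at h2
  have h4 := (mul_dvd_mul_iff_left hp0).mp h2
  have h5 : (p : ℤ) ∣ F.b ^ 2 := by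
    obtain ⟨m, hm⟩ := hpa
    obtain ⟨n, hn⟩ := h4
    refine ⟨n - p + 2 * F.b - F.c * m, ?_⟩
    rw [hm] at hn
    linear_combination hn
  exact hpb (hp'.dvd_of_dvd_pow h5)

/-- `b` is not in a proper ideal containing `p` -/
theorem c2_notMem (F : Cub) (K : Type) [Field K] [NumberField K] (p : ℕ) (hp : p.Prime)
    (hpb : ¬ (p : ℤ) ∣ F.b) (P : Ideal (𝓞 K)) (hP : P ≠ ⊤) (hpP : (p : 𝓞 K) ∈ P) :
    (F.b : 𝓞 K) ∉ P := by
  intro hb
  have hc : IsCoprime (p : ℤ) F.b :=
    (Prime.coprime_iff_not_dvd (Nat.prime_iff_prime_int.mp hp)).mpr hpb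
  obtain ⟨s, t, hst⟩ := hc
  apply hP
  rw [Ideal.eq_top_iff_one]
  have h1 : (1 : 𝓞 K) = (s : 𝓞 K) * (p : 𝓞 K) + (t : 𝓞 K) * (F.b : 𝓞 K) := by
    exact_mod_cast hst.symm
  rw [h1]
  exact P.add_mem (P.mul_mem_left _ hpP) (P.mul_mem_left _ hb)

theorem integral_one (F : Cub) (ha : F.a ≠ 0) (K : Type) [Field K] [NumberField K] (θ : K)
    (hθ : IsRoot F θ) (h0 : θ ≠ 0) : IsIntegral ℤ ((F.a : K) * θ + (F.b : K)) ∧
      IsIntegral ℤ ((F.a : K) * θ ^ 2 + (F.b : K) * θ + (F.c : K)) := by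
  constructor
  · refine c2_int (-(2 * F.b)) (F.b ^ 2 + F.c * F.a) (F.d * F.a ^ 2 - F.c * F.a * F.b) ?_
    have h := c2_root_u hθ
    push_cast
    linear_combination h
  · refine c2_int (-F.c) (F.b * F.d) (-(F.a * F.d ^ 2)) ?_
    have h := c2_root_v hθ
    push_cast
    linear_combination h

/-- `u, v` are the integers `aθ+b`, `aθ²+bθ+c` -/
theorem first_ideal (F : Cub) (hF : F.Irr) (K : Type) [Field K] [NumberField K]
    (hK : Module.finrank ℚ K = 3) (θ : K) (hθ : IsRoot F θ) (hq : ∀ q : ℚ, θ ≠ (q : K))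
    (u v : 𝓞 K) (hu : (u : K) = (F.a : K) * θ + (F.b : K))
    (hv : (v : K) = (F.a : K) * θ ^ 2 + (F.b : K) * θ + (F.c : K)) (p : ℕ) (hp : p.Prime)
    (hpa : (p : ℤ) ∣ F.a) (hpb : ¬ (p : ℤ) ∣ F.b) (I : Ideal (𝓞 K))
    (hI : I = Ideal.span {(F.a : 𝓞 K), u, v}) :
    (I ⊔ Ideal.span {(p : 𝓞 K)}).IsPrime ∧ Ideal.absNorm (I ⊔ Ideal.span {(p : 𝓞 K)}) = p ∧
      ∀ i : ℕ, (p : ℤ) ^ i ∣ F.a → I ≤ (I ⊔ Ideal.span {(p : 𝓞 K)}) ^ i := by
  have ha : F.a ≠ 0 := by
    have h := hF (1, 0) (by simp)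
    intro h0
    apply h
    simp [Cub.val, h0]
  set J := I ⊔ Ideal.span {(p : 𝓞 K)} with hJ
  have hpJ : (p : 𝓞 K) ∈ J := Ideal.mem_sup_right (Ideal.mem_span_singleton_self _)
  have huI : u ∈ I := by
    rw [hI]
    exact Ideal.subset_span (by simp)
  have huJ : u ∈ J := Ideal.mem_sup_left huI
  -- the relations
  have hu' : algebraMap (𝓞 K) K u = (F.a : K) * θ + (F.b : K) := hu
  have hv' : algebraMap (𝓞 K) K v = (F.a : K) * θ ^ 2 + (F.b : K) * θ + (F.c : K) := hv
  have r1 : u * (u - (F.b : 𝓞 K)) ^ 2 =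
      (F.a : 𝓞 K) * (-((F.c : 𝓞 K) * (u - (F.b : 𝓞 K)) + (F.d : 𝓞 K) * (F.a : 𝓞 K))) := by
    apply FaithfulSMul.algebraMap_injective (𝓞 K) K
    simp only [map_mul, map_sub, map_pow, map_add, map_neg, map_intCast, hu']
    have h := c2_root_u hθ
    linear_combination h
  have r2 : v * (u - (F.b : 𝓞 K)) = (F.a : 𝓞 K) * (-(F.d : 𝓞 K)) := by
    apply FaithfulSMul.algebraMap_injective (𝓞 K) K
    simp only [map_mul, map_sub, map_neg, map_intCast, hu', hv']
    have h := hθ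
    unfold IsRoot at h
    linear_combination (F.a : K) * h
  -- a prime containing J
  have hex : ∃ P : Ideal (𝓞 K), P.IsMaximal ∧ J ≤ P := by
    have hn : p ∣ Ideal.absNorm (Ideal.span {((0 : ℤ) : 𝓞 K) - u}) := by
      rw [Ideal.absNorm_span_singleton, c2_norm_u F ha K hK θ hθ hq u hu 0,
        ← Int.natCast_dvd]
      obtain ⟨m, hm⟩ := hpa
      refine ⟨F.c * m * (0 - F.b) + F.d * m * F.a, ?_⟩
      rw [hm]
      ring
    obtain ⟨P, hPm, hPu, hPd⟩ := Ideal.exists_isMaximal_dvd_of_dvd_absNorm' hp _ hn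
    have hpP : (p : 𝓞 K) ∈ P := by
      have h1 : (p : ℤ) ∈ P.under ℤ := by
        rw [hPu]
        exact Ideal.mem_span_singleton_self _
      have h2 : algebraMap ℤ (𝓞 K) (p : ℤ) ∈ P := h1
      simpa using h2
    have huP : u ∈ P := by
      have h1 : ((0 : ℤ) : 𝓞 K) - u ∈ P := by
        have h2 := Ideal.dvd_iff_le.mp hPd
        exact h2 (Ideal.mem_span_singleton_self _)
      have h3 := P.neg_mem h1
      simpa using h3
    have haP : (F.a : 𝓞 K) ∈ P := by
      obtain ⟨m, hm⟩ := hpa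
      rw [hm]
      push_cast
      exact P.mul_mem_right _ hpP
    have hbP := c2_notMem F K p hp hpb P hPm.ne_top hpP
    have hvP : v ∈ P := by
      have h1 : v * (u - (F.b : 𝓞 K)) ∈ P := by
        rw [r2]
        exact P.mul_mem_right _ haP
      rcases hPm.isPrime.mem_or_mem h1 with h2 | h2
      · exact h2
      · exfalso
        apply hbP
        have h3 := P.sub_mem huP h2
        simpa using h3
    refine ⟨P, hPm, ?_⟩
    rw [hJ, hI, sup_le_iff, Ideal.span_le, Ideal.span_le]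
    constructor
    · intro x hx
      simp only [Set.mem_insert_iff, Set.mem_singleton_iff] at hx
      rcases hx with rfl | rfl | rfl
      · exact haP
      · exact huP
      · exact hvP
    · intro x hx
      rw [Set.mem_singleton_iff] at hx
      rw [hx]
      exact hpP
  obtain ⟨P0, hP0, hJP0⟩ := hex
  have hJtop : J ≠ ⊤ := fun h => hP0.ne_top (top_le_iff.mp (h ▸ hJP0))
  have hnorm : Ideal.absNorm J = p := by
    have h1 : Ideal.absNorm J ∣ p ^ 3 := by
      have h2 := Ideal.absNorm_dvd_absNorm_of_le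
        ((Ideal.span_singleton_le_iff_mem J).mpr hpJ)
      rw [Ideal.absNorm_span_singleton] at h2
      have h3 : Algebra.norm ℤ ((p : 𝓞 K)) = (p : ℤ) ^ 3 := by
        have h4 := Algebra.norm_algebraMap (S := 𝓞 K) ((p : ℤ))
        rw [RingOfIntegers.rank, hK] at h4
        simpa using h4
      rw [h3, Int.natAbs_pow, Int.natAbs_natCast] at h2
      exact h2
    obtain ⟨j, hj, hj2⟩ := (Nat.dvd_prime_pow hp).mp h1
    have h5 := c2_sq F ha K hK θ hθ hq u hu p hp hpa hpb J huJ hpJ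
    rw [hj2] at h5 ⊢
    have h6 : j ≠ 0 := by
      rintro rfl
      rw [pow_zero, Ideal.absNorm_eq_one_iff] at hj2
      exact hJtop hj2
    have h7 : j < 2 := by
      by_contra hge
      push Not at hge
      exact h5 (pow_dvd_pow p hge)
    have h8 : j = 1 := by omega
    rw [h8, pow_one]
  have hJprime : J.IsPrime := by
    apply Ideal.isPrime_of_irreducible_absNorm
    rw [hnorm]
    exact hp
  refine ⟨hJprime, hnorm, fun i hi => ?_⟩
  have haJ : (F.a : 𝓞 K) ∈ J ^ i := by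
    obtain ⟨m, hm⟩ := hi
    rw [hm]
    push_cast
    exact (J ^ i).mul_mem_right _ (Ideal.pow_mem_pow hpJ i)
  have hbJ := c2_notMem F K p hp hpb J hJtop hpJ
  have hub : u - (F.b : 𝓞 K) ∉ J := by
    intro h
    apply hbJ
    have h3 := J.sub_mem huJ h
    simpa using h3
  rw [hI, Ideal.span_le]
  intro x hx
  simp only [Set.mem_insert_iff, Set.mem_singleton_iff] at hx
  rcases hx with rfl | rfl | rfl
  · exact haJ
  · have h1 : x * (x - (F.b : 𝓞 K)) ^ 2 ∈ J ^ i := by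
      rw [r1]
      exact (J ^ i).mul_mem_right _ haJ
    rcases Ideal.IsPrime.mem_pow_mul J h1 with h2 | h2
    · exact h2
    · exact absurd (hJprime.mem_of_pow_mem 2 h2) hub
  · have h1 : x * (u - (F.b : 𝓞 K)) ∈ J ^ i := by
      rw [r2]
      exact (J ^ i).mul_mem_right _ haJ
    rcases Ideal.IsPrime.mem_pow_mul J h1 with h2 | h2
    · exact h2
    · exact absurd h2 hub

end Pool.Agent.Lib.SqPart
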