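import Pool.Agent.Lib.MP_d8bd92_nt.SqC2

set_option autoImplicit false

/-!
The ideal of a point.

PROOF. For z = (x,y): α = x - θy. Define I z = span of the three elements
e0 = a x - ω y, e1 = (ω+b) x - η y, e2 = (η+c) x + d y, where ω = aθ, η = aθ^2+bθ integral (`integral_one`); they are
α a, α (aθ+b), α (aθ^2+bθ+c). Let g' = fractional ideal generated by a, aθ+b, aθ^2+bθ+c (nonzero, contained in 𝓞), g =
g'⁻¹. Then (I z) = (α) g', so (α) = g (I z).
F.val z = α (a x^2 + (aθ+b) x y + (aθ^2+bθ+c) y^2) = x^2 e0 + x y e1 + y^2 e2 ∈ I z.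
For coprime z choose u, v with x v - y u = 1 and F' = F.sub x u y v (substitution X ↦ xX+uY, Y ↦ yX+vY):
F'.a = F.val z, F'.Irr, and the hessian coefficient F'.b^2 - 3F'.aF'.c = F.hes z, so for p | F.val z: p does not
divide F'.b. θ' = (vθ - u)/α is a root of F' ((xθ'+u)/(yθ'+v) = θ: indeed xθ'+u = θ/α·(xv-yu) = θ/α and
yθ'+v = 1/α), irrational. Claim: F'.a, F'.aθ'+F'.b, F'.aθ'^2+F'.bθ'+F'.c span the same ideal as e0, e1, e2, i.e. I z: if
G(X,Y) = aX^2+(aθ+b)XY+(aθ^2+bθ+c)Y^2 then F(X,Y) = (X-θY)G(X,Y) and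
F'(X,Y) = F(xX+uY, yX+vY) = α(X-θ'Y) G(xX+uY, yX+vY), so
F'.a X^2 + (F'.aθ'+F'.b) XY + (F'.aθ'^2+F'.bθ'+F'.c) Y^2 = α G(xX+uY, yX+vY). Explicitly, with g0 = a, g1 = aθ+b,
g2 = aθ^2+bθ+c (e_k = α g_k): F'.a = x^2 e0 + x y e1 + y^2 e2,
F'.aθ'+F'.b = 2xu e0 + (xv+yu) e1 + 2yv e2, F'.aθ'^2+F'.bθ'+F'.c = u^2 e0 + u v e1 + v^2 e2; the integral matrix has
determinant (xv-yu)^3 = 1, with integral inverse given by the same formulas for the inverse substitution
(v, -u, -y, x). Now apply `first_ideal` to F', θ'.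
-/

namespace Pool.Agent.Lib.SqPart

open Finset NumberField

theorem c3_frac {K : Type} [Field K] [NumberField K] (p q r : 𝓞 K) :
    ((Ideal.span {p, q, r} : Ideal (𝓞 K)) : FractionalIdeal (nonZeroDivisors (𝓞 K)) K) =
      FractionalIdeal.spanSingleton (nonZeroDivisors (𝓞 K)) (p : K) +
      FractionalIdeal.spanSingleton (nonZeroDivisors (𝓞 K)) (q : K) +
      FractionalIdeal.spanSingleton (nonZeroDivisors (𝓞 K)) (r : K) := by
  rw [Ideal.span_insert, Ideal.span_insert, FractionalIdeal.coeIdeal_sup,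
    FractionalIdeal.coeIdeal_sup, FractionalIdeal.coeIdeal_span_singleton,
    FractionalIdeal.coeIdeal_span_singleton, FractionalIdeal.coeIdeal_span_singleton,
    ← add_assoc]

/-- the values of the substituted form -/
theorem c3_val_sub (F : Cub) (p q r s : ℤ) (w : ℤ × ℤ) :
    (F.sub p q r s).val w = F.val (p * w.1 + q * w.2, r * w.1 + s * w.2) := by
  simp only [Cub.sub, Cub.val]
  ring

theorem c3_irr {F : Cub} (hF : F.Irr) {x y u v : ℤ} (hd : x * v - y * u = 1) :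
    (F.sub x u y v).Irr := by
  intro w hw h0
  rw [c3_val_sub] at h0
  apply hF _ _ h0
  intro h1
  apply hw
  have e1 : x * w.1 + u * w.2 = 0 := congrArg Prod.fst h1
  have e2 : y * w.1 + v * w.2 = 0 := congrArg Prod.snd h1
  have f1 : w.1 = 0 := by
    linear_combination (-(w.1)) * hd + v * e1 - u * e2
  have f2 : w.2 = 0 := by
    linear_combination (-(w.2)) * hd - y * e1 + x * e2
  exact Prod.ext f1 f2

theorem c3_hes (F : Cub) (x y u v : ℤ) : (F.sub x u y v).b ^ 2 - 3 * (F.sub x u y v).a *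
    (F.sub x u y v).c = (x * v - y * u) ^ 2 * F.hes (x, y) := by
  simp only [Cub.sub, Cub.hes]
  ring

theorem c3_span {R : Type} [CommRing R] (e0 e1 e2 x y u v : R) (hd : x * v - y * u = 1) :
    Ideal.span {e0, e1, e2} = Ideal.span {x ^ 2 * e0 + x * y * e1 + y ^ 2 * e2,
      2 * x * u * e0 + (x * v + y * u) * e1 + 2 * y * v * e2,
      u ^ 2 * e0 + u * v * e1 + v ^ 2 * e2} := by
  apply le_antisymm
  · rw [Ideal.span_le]
    have h0 : x ^ 2 * e0 + x * y * e1 + y ^ 2 * e2 ∈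
        Ideal.span {x ^ 2 * e0 + x * y * e1 + y ^ 2 * e2,
          2 * x * u * e0 + (x * v + y * u) * e1 + 2 * y * v * e2,
          u ^ 2 * e0 + u * v * e1 + v ^ 2 * e2} := Ideal.subset_span (by simp)
    have h1 : 2 * x * u * e0 + (x * v + y * u) * e1 + 2 * y * v * e2 ∈
        Ideal.span {x ^ 2 * e0 + x * y * e1 + y ^ 2 * e2,
          2 * x * u * e0 + (x * v + y * u) * e1 + 2 * y * v * e2,
          u ^ 2 * e0 + u * v * e1 + v ^ 2 * e2} := Ideal.subset_span (by simp)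
    have h2 : u ^ 2 * e0 + u * v * e1 + v ^ 2 * e2 ∈
        Ideal.span {x ^ 2 * e0 + x * y * e1 + y ^ 2 * e2,
          2 * x * u * e0 + (x * v + y * u) * e1 + 2 * y * v * e2,
          u ^ 2 * e0 + u * v * e1 + v ^ 2 * e2} := Ideal.subset_span (by simp)
    have hd2 : (x * v - y * u) ^ 2 = 1 := by rw [hd, one_pow]
    intro t ht
    rcases ht with rfl | rfl | rfl
    · have e : t = v ^ 2 * (x ^ 2 * t + x * y * e1 + y ^ 2 * e2) +
          (-(v * y)) * (2 * x * u * t + (x * v + y * u) * e1 + 2 * y * v * e2) +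
          y ^ 2 * (u ^ 2 * t + u * v * e1 + v ^ 2 * e2) := by
        linear_combination (-t) * hd2
      have h3 := Ideal.add_mem _ (Ideal.add_mem _ (Ideal.mul_mem_left _ (v ^ 2) h0)
        (Ideal.mul_mem_left _ ((-(v * y))) h1)) (Ideal.mul_mem_left _ (y ^ 2) h2)
      rw [← e] at h3
      exact h3
    · have e : t = (-(2 * u * v)) * (x ^ 2 * e0 + x * y * t + y ^ 2 * e2) +
          (v * x + u * y) * (2 * x * u * e0 + (x * v + y * u) * t + 2 * y * v * e2) +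
          (-(2 * x * y)) * (u ^ 2 * e0 + u * v * t + v ^ 2 * e2) := by
        linear_combination (-t) * hd2
      have h3 := Ideal.add_mem _ (Ideal.add_mem _ (Ideal.mul_mem_left _ ((-(2 * u * v))) h0)
        (Ideal.mul_mem_left _ ((v * x + u * y)) h1)) (Ideal.mul_mem_left _ ((-(2 * x * y))) h2)
      rw [← e] at h3
      exact h3
    · have e : t = u ^ 2 * (x ^ 2 * e0 + x * y * e1 + y ^ 2 * t) +
          (-(u * x)) * (2 * x * u * e0 + (x * v + y * u) * e1 + 2 * y * v * t) +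
          x ^ 2 * (u ^ 2 * e0 + u * v * e1 + v ^ 2 * t) := by
        linear_combination (-t) * hd2
      have h3 := Ideal.add_mem _ (Ideal.add_mem _ (Ideal.mul_mem_left _ (u ^ 2) h0)
        (Ideal.mul_mem_left _ ((-(u * x))) h1)) (Ideal.mul_mem_left _ (x ^ 2) h2)
      rw [← e] at h3
      exact h3
  · rw [Ideal.span_le]
    have h0 : e0 ∈ Ideal.span {e0, e1, e2} := Ideal.subset_span (by simp)
    have h1 : e1 ∈ Ideal.span {e0, e1, e2} := Ideal.subset_span (by simp)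
    have h2 : e2 ∈ Ideal.span {e0, e1, e2} := Ideal.subset_span (by simp)
    intro t ht
    rcases ht with rfl | rfl | rfl
    · exact Ideal.add_mem _ (Ideal.add_mem _ (Ideal.mul_mem_left _ _ h0)
        (Ideal.mul_mem_left _ _ h1)) (Ideal.mul_mem_left _ _ h2)
    · exact Ideal.add_mem _ (Ideal.add_mem _ (Ideal.mul_mem_left _ _ h0)
        (Ideal.mul_mem_left _ _ h1)) (Ideal.mul_mem_left _ _ h2)
    · exact Ideal.add_mem _ (Ideal.add_mem _ (Ideal.mul_mem_left _ _ h0)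
        (Ideal.mul_mem_left _ _ h1)) (Ideal.mul_mem_left _ _ h2)

theorem c3_alpha_ne {K : Type} [Field K] [NumberField K] {θ : K} (hq : ∀ q : ℚ, θ ≠ (q : K))
    {x y : ℤ} (h : x ≠ 0 ∨ y ≠ 0) : (x : K) - θ * (y : K) ≠ 0 := by
  intro h0
  by_cases hy : y = 0
  · subst hy
    rw [Int.cast_zero, mul_zero, sub_zero] at h0
    have hx : x = 0 := by exact_mod_cast h0
    exact h.elim (fun h => h hx) (fun h => h rfl)
  · have hyK : (y : K) ≠ 0 := by exact_mod_cast hy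
    apply hq ((x : ℚ) / (y : ℚ))
    push_cast
    rw [eq_div_iff hyK]
    exact (sub_eq_zero.1 h0).symm

theorem exists_idl (F : Cub) (hF : F.Irr) (K : Type) [Field K] [NumberField K]
    (hK : Module.finrank ℚ K = 3) (θ : K) (hθ : IsRoot F θ) (hq : ∀ q : ℚ, θ ≠ (q : K)) :
    ∃ (g : FractionalIdeal (nonZeroDivisors (𝓞 K)) K) (I : ℤ × ℤ → Ideal (𝓞 K)), g ≠ 0 ∧
      (∀ z : ℤ × ℤ, z ≠ 0 → FractionalIdeal.spanSingleton (nonZeroDivisors (𝓞 K))
        ((z.1 : K) - θ * (z.2 : K)) = g * (I z : FractionalIdeal (nonZeroDivisors (𝓞 K)) K)) ∧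
      (∀ z : ℤ × ℤ, ((F.val z : ℤ) : 𝓞 K) ∈ I z) ∧
      (∀ z : ℤ × ℤ, IsCoprime z.1 z.2 → ∀ p : ℕ, p.Prime → (p : ℤ) ∣ F.val z →
        ¬ (p : ℤ) ∣ F.hes z → (I z ⊔ Ideal.span {(p : 𝓞 K)}).IsPrime ∧
          Ideal.absNorm (I z ⊔ Ideal.span {(p : 𝓞 K)}) = p ∧
          ∀ i : ℕ, (p : ℤ) ^ i ∣ F.val z → I z ≤ (I z ⊔ Ideal.span {(p : 𝓞 K)}) ^ i) := by
  classical
  have ha : F.a ≠ 0 := by
    have := hF (1, 0) (by simp)
    simpa [Cub.val] using this
  have hθ0 : θ ≠ 0 := by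
    have := hq 0
    simpa using this
  obtain ⟨hi1, hi2⟩ := integral_one F ha K θ hθ hθ0
  obtain ⟨u, hu⟩ : ∃ u : 𝓞 K, (u : K) = (F.a : K) * θ + (F.b : K) := ⟨⟨_, hi1⟩, rfl⟩
  obtain ⟨v, hv⟩ : ∃ v : 𝓞 K, (v : K) = (F.a : K) * θ ^ 2 + (F.b : K) * θ + (F.c : K) :=
    ⟨⟨_, hi2⟩, rfl⟩
  have hθ' : (F.a : K) * θ ^ 3 + (F.b : K) * θ ^ 2 + (F.c : K) * θ + (F.d : K) = 0 := hθ
  have hu2 : algebraMap (𝓞 K) K u = (F.a : K) * θ + (F.b : K) := hu
  have hv2 : algebraMap (𝓞 K) K v = (F.a : K) * θ ^ 2 + (F.b : K) * θ + (F.c : K) := hv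
  -- the three generators
  let e0 : ℤ × ℤ → 𝓞 K := fun z => (F.a : 𝓞 K) * (z.1 : 𝓞 K) - (u - (F.b : 𝓞 K)) * (z.2 : 𝓞 K)
  let e1 : ℤ × ℤ → 𝓞 K := fun z => u * (z.1 : 𝓞 K) - (v - (F.c : 𝓞 K)) * (z.2 : 𝓞 K)
  let e2 : ℤ × ℤ → 𝓞 K := fun z => v * (z.1 : 𝓞 K) + (F.d : 𝓞 K) * (z.2 : 𝓞 K)
  have he0 : ∀ z : ℤ × ℤ, ((e0 z : 𝓞 K) : K) = ((z.1 : K) - θ * (z.2 : K)) * (F.a : K) := by
    intro z
    show algebraMap (𝓞 K) K ((F.a : 𝓞 K) * (z.1 : 𝓞 K) - (u - (F.b : 𝓞 K)) * (z.2 : 𝓞 K)) = _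
    simp only [map_sub, map_mul, map_intCast]
    rw [hu2]
    ring
  have he1 : ∀ z : ℤ × ℤ, ((e1 z : 𝓞 K) : K) =
      ((z.1 : K) - θ * (z.2 : K)) * ((F.a : K) * θ + (F.b : K)) := by
    intro z
    show algebraMap (𝓞 K) K (u * (z.1 : 𝓞 K) - (v - (F.c : 𝓞 K)) * (z.2 : 𝓞 K)) = _
    simp only [map_sub, map_mul, map_intCast]
    rw [hu2, hv2]
    ring
  have he2 : ∀ z : ℤ × ℤ, ((e2 z : 𝓞 K) : K) =
      ((z.1 : K) - θ * (z.2 : K)) * ((F.a : K) * θ ^ 2 + (F.b : K) * θ + (F.c : K)) := by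
    intro z
    show algebraMap (𝓞 K) K (v * (z.1 : 𝓞 K) + (F.d : 𝓞 K) * (z.2 : 𝓞 K)) = _
    simp only [map_add, map_mul, map_intCast]
    rw [hv2]
    linear_combination (z.2 : K) * hθ'
  set S := nonZeroDivisors (𝓞 K) with hS
  set G' : FractionalIdeal S K :=
    ((Ideal.span {(F.a : 𝓞 K), u, v} : Ideal (𝓞 K)) : FractionalIdeal S K) with hG'
  have hG0 : G' ≠ 0 := by
    rw [hG', Ne, FractionalIdeal.coeIdeal_eq_zero]
    intro hbot
    have h1 : (F.a : 𝓞 K) ∈ (Ideal.span {(F.a : 𝓞 K), u, v} : Ideal (𝓞 K)) :=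
      Ideal.subset_span (by simp)
    rw [hbot] at h1
    have h2 : (F.a : 𝓞 K) = 0 := h1
    exact ha (by exact_mod_cast h2)
  refine ⟨G'⁻¹, fun z => Ideal.span {e0 z, e1 z, e2 z}, inv_ne_zero hG0, ?_, ?_, ?_⟩
  · intro z _
    have h1 : ((Ideal.span {e0 z, e1 z, e2 z} : Ideal (𝓞 K)) : FractionalIdeal S K) =
        FractionalIdeal.spanSingleton S ((z.1 : K) - θ * (z.2 : K)) * G' := by
      have hFa : (((F.a : ℤ) : 𝓞 K) : K) = (F.a : K) := by
        show algebraMap (𝓞 K) K ((F.a : ℤ) : 𝓞 K) = _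
        exact map_intCast _ _
      rw [hG', c3_frac, c3_frac, he0, he1, he2, hu, hv, hFa,
        ← FractionalIdeal.spanSingleton_mul_spanSingleton,
        ← FractionalIdeal.spanSingleton_mul_spanSingleton,
        ← FractionalIdeal.spanSingleton_mul_spanSingleton, ← mul_add, ← mul_add]
    show _ = G'⁻¹ * ((Ideal.span {e0 z, e1 z, e2 z} : Ideal (𝓞 K)) : FractionalIdeal S K)
    rw [h1, mul_left_comm, inv_mul_cancel₀ hG0, mul_one]
  · intro z
    show ((F.val z : ℤ) : 𝓞 K) ∈ Ideal.span {e0 z, e1 z, e2 z}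
    have h0 : e0 z ∈ Ideal.span {e0 z, e1 z, e2 z} := Ideal.subset_span (by simp)
    have h1 : e1 z ∈ Ideal.span {e0 z, e1 z, e2 z} := Ideal.subset_span (by simp)
    have h2 : e2 z ∈ Ideal.span {e0 z, e1 z, e2 z} := Ideal.subset_span (by simp)
    have e : ((F.val z : ℤ) : 𝓞 K) = (z.1 : 𝓞 K) ^ 2 * e0 z + (z.1 : 𝓞 K) * (z.2 : 𝓞 K) * e1 z +
        (z.2 : 𝓞 K) ^ 2 * e2 z := by
      simp only [e0, e1, e2, Cub.val]
      push_cast
      ring
    rw [e]
    exact Ideal.add_mem _ (Ideal.add_mem _ (Ideal.mul_mem_left _ _ h0)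
        (Ideal.mul_mem_left _ _ h1)) (Ideal.mul_mem_left _ _ h2)
  · rintro ⟨x, y⟩ hz p hp hpv hph
    obtain ⟨a', b', hab⟩ := hz
    have hd : x * a' - y * (-b') = 1 := by linear_combination hab
    set u' : ℤ := -b' with hu'
    set v' : ℤ := a' with hv'
    have hxy : x ≠ 0 ∨ y ≠ 0 := by
      by_contra hcon
      push Not at hcon
      rw [hcon.1, hcon.2] at hd
      simp at hd
    have hα : (x : K) - θ * (y : K) ≠ 0 := c3_alpha_ne hq hxy
    set α : K := (x : K) - θ * (y : K) with hαdef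
    set θ₁ : K := ((v' : K) * θ - (u' : K)) / α with hθ₁
    have hθ₁α : θ₁ * α = (v' : K) * θ - (u' : K) := div_mul_cancel₀ _ hα
    have hdK : (x : K) * (v' : K) - (y : K) * (u' : K) = 1 := by exact_mod_cast hd
    -- the coefficients of the quotient
    have hA0 : ((F.sub x u' y v').a : K) = α * ((x : K) ^ 2 * (F.a : K) +
        (x : K) * (y : K) * ((F.a : K) * θ + (F.b : K)) +
        (y : K) ^ 2 * ((F.a : K) * θ ^ 2 + (F.b : K) * θ + (F.c : K))) := by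
      simp only [Cub.sub, hαdef]
      push_cast
      linear_combination (y : K) ^ 3 * hθ'
    have hA1 : ((F.sub x u' y v').b : K) = α * (2 * (x : K) * (u' : K) * (F.a : K) +
        ((x : K) * (v' : K) + (y : K) * (u' : K)) * ((F.a : K) * θ + (F.b : K)) +
        2 * (y : K) * (v' : K) * ((F.a : K) * θ ^ 2 + (F.b : K) * θ + (F.c : K))) -
        θ₁ * α * ((x : K) ^ 2 * (F.a : K) +
        (x : K) * (y : K) * ((F.a : K) * θ + (F.b : K)) +
        (y : K) ^ 2 * ((F.a : K) * θ ^ 2 + (F.b : K) * θ + (F.c : K))) := by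
      rw [hθ₁α]
      simp only [Cub.sub, hαdef]
      push_cast
      linear_combination 3 * (y : K) ^ 2 * (v' : K) * hθ'
    have hA2 : ((F.sub x u' y v').c : K) = α * ((u' : K) ^ 2 * (F.a : K) +
        (u' : K) * (v' : K) * ((F.a : K) * θ + (F.b : K)) +
        (v' : K) ^ 2 * ((F.a : K) * θ ^ 2 + (F.b : K) * θ + (F.c : K))) -
        θ₁ * α * (2 * (x : K) * (u' : K) * (F.a : K) +
        ((x : K) * (v' : K) + (y : K) * (u' : K)) * ((F.a : K) * θ + (F.b : K)) +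
        2 * (y : K) * (v' : K) * ((F.a : K) * θ ^ 2 + (F.b : K) * θ + (F.c : K))) := by
      rw [hθ₁α]
      simp only [Cub.sub, hαdef]
      push_cast
      linear_combination 3 * (y : K) * (v' : K) ^ 2 * hθ'
    have hA3 : ((F.sub x u' y v').d : K) = - (θ₁ * α * ((u' : K) ^ 2 * (F.a : K) +
        (u' : K) * (v' : K) * ((F.a : K) * θ + (F.b : K)) +
        (v' : K) ^ 2 * ((F.a : K) * θ ^ 2 + (F.b : K) * θ + (F.c : K)))) := by
      rw [hθ₁α]
      simp only [Cub.sub]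
      push_cast
      linear_combination (v' : K) ^ 3 * hθ'
    have hroot : IsRoot (F.sub x u' y v') θ₁ := by
      unfold IsRoot
      rw [hA0, hA1, hA2, hA3]
      ring
    have hirr : ∀ q : ℚ, θ₁ ≠ (q : K) := by
      intro q hq1
      -- (x q + u') = θ (y q + v')
      have h1 : (x : K) * q + (u' : K) = θ * ((y : K) * q + (v' : K)) := by
        rw [← hq1]
        have h2 := hθ₁α
        rw [hαdef] at h2
        linear_combination h2
      by_cases h2 : (y : ℚ) * q + (v' : ℚ) = 0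
      · have h3 : (y : K) * q + (v' : K) = 0 := by exact_mod_cast congrArg (Rat.cast : ℚ → K) h2
        rw [h3, mul_zero] at h1
        have h4 : (1 : K) = 0 := by
          rw [← hdK]
          linear_combination (x : K) * h3 - (y : K) * h1
        exact one_ne_zero h4
      · apply hq (((x : ℚ) * q + (u' : ℚ)) / ((y : ℚ) * q + (v' : ℚ)))
        have h3 : (y : K) * q + (v' : K) ≠ 0 := by
          intro h4
          apply h2
          exact_mod_cast h4
        push_cast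
        rw [eq_div_iff h3]
        exact h1.symm
    have hpa : (p : ℤ) ∣ (F.sub x u' y v').a := by
      have : (F.sub x u' y v').a = F.val (x, y) := by
        simp only [Cub.sub, Cub.val]
      rw [this]
      exact hpv
    have hpb : ¬ (p : ℤ) ∣ (F.sub x u' y v').b := by
      intro hb
      apply hph
      have h1 := c3_hes F x y u' v'
      rw [hd, one_pow, one_mul] at h1
      rw [← h1]
      refine dvd_sub (hb.pow (by norm_num)) ?_
      exact Dvd.dvd.mul_right (Dvd.dvd.mul_left hpa 3) _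
    -- the integers
    have he0' : algebraMap (𝓞 K) K (e0 (x, y)) = α * (F.a : K) := he0 (x, y)
    have he1' : algebraMap (𝓞 K) K (e1 (x, y)) = α * ((F.a : K) * θ + (F.b : K)) := he1 (x, y)
    have he2' : algebraMap (𝓞 K) K (e2 (x, y)) =
      α * ((F.a : K) * θ ^ 2 + (F.b : K) * θ + (F.c : K)) := he2 (x, y)
    have hu1 : ((2 * (x : 𝓞 K) * (u' : 𝓞 K) * e0 (x, y) +
        ((x : 𝓞 K) * (v' : 𝓞 K) + (y : 𝓞 K) * (u' : 𝓞 K)) * e1 (x, y) +
        2 * (y : 𝓞 K) * (v' : 𝓞 K) * e2 (x, y) : 𝓞 K) : K) =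
        ((F.sub x u' y v').a : K) * θ₁ + ((F.sub x u' y v').b : K) := by
      rw [hA0, hA1]
      show algebraMap (𝓞 K) K _ = _
      simp only [map_add, map_mul, map_intCast, map_ofNat]
      rw [he0', he1', he2']
      ring
    have hv1 : (((u' : 𝓞 K) ^ 2 * e0 (x, y) +
        (u' : 𝓞 K) * (v' : 𝓞 K) * e1 (x, y) + (v' : 𝓞 K) ^ 2 * e2 (x, y) : 𝓞 K) : K) =
        ((F.sub x u' y v').a : K) * θ₁ ^ 2 + ((F.sub x u' y v').b : K) * θ₁ +
          ((F.sub x u' y v').c : K) := by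
      rw [hA0, hA1, hA2]
      show algebraMap (𝓞 K) K _ = _
      simp only [map_add, map_mul, map_pow, map_intCast]
      rw [he0', he1', he2']
      ring
    have hIeq : (Ideal.span {e0 (x, y), e1 (x, y), e2 (x, y)} : Ideal (𝓞 K)) =
        Ideal.span {((F.sub x u' y v').a : 𝓞 K), 2 * (x : 𝓞 K) * (u' : 𝓞 K) * e0 (x, y) +
        ((x : 𝓞 K) * (v' : 𝓞 K) + (y : 𝓞 K) * (u' : 𝓞 K)) * e1 (x, y) +
        2 * (y : 𝓞 K) * (v' : 𝓞 K) * e2 (x, y), (u' : 𝓞 K) ^ 2 * e0 (x, y) +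
        (u' : 𝓞 K) * (v' : 𝓞 K) * e1 (x, y) + (v' : 𝓞 K) ^ 2 * e2 (x, y)} := by
      have h1 : ((F.sub x u' y v').a : 𝓞 K) = (x : 𝓞 K) ^ 2 * e0 (x, y) +
          (x : 𝓞 K) * (y : 𝓞 K) * e1 (x, y) + (y : 𝓞 K) ^ 2 * e2 (x, y) := by
        simp only [e0, e1, e2, Cub.sub]
        push_cast
        ring
      rw [h1]
      refine c3_span _ _ _ _ _ _ _ ?_
      exact_mod_cast congrArg (Int.cast : ℤ → 𝓞 K) hd
    have hfin := first_ideal (F.sub x u' y v') (c3_irr hF hd) K hK θ₁ hroot hirr _ _ hu1 hv1 p hp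
      hpa hpb (Ideal.span {e0 (x, y), e1 (x, y), e2 (x, y)}) hIeq
    refine ⟨hfin.1, hfin.2.1, ?_⟩
    intro i hi
    apply hfin.2.2 i
    have : (F.sub x u' y v').a = F.val (x, y) := by
      simp only [Cub.sub, Cub.val]
    rw [this]
    exact hi


end Pool.Agent.Lib.SqPart
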