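import Pool.Agent.Lib.MP_d8bd92_nt.SqDefs

set_option autoImplicit false

/-!
Real roots of a form and the two linear forms attached to a root.
-/

namespace Pool.Agent.Lib.SqPart

namespace Cub

/-- `x - r y` -/
def U (r : ℝ) (z : ℤ × ℤ) : ℝ := (z.1 : ℝ) - r * (z.2 : ℝ)

/-- the second linear form of the root `r` -/
def V (F : Cub) (r : ℝ) (z : ℤ × ℤ) : ℝ :=
  (3 * (F.a : ℝ) * r + F.b) * (z.1 : ℝ) + (3 * (F.a : ℝ) * r ^ 2 + 3 * F.b * r + 2 * F.c) * (z.2 : ℝ)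

/-- `F'(r)` -/
def sl (F : Cub) (r : ℝ) : ℝ := 3 * (F.a : ℝ) * r ^ 2 + 2 * F.b * r + F.c

/-- the discriminant of the quadratic cofactor of the root `r` -/
def dl (F : Cub) (r : ℝ) : ℝ :=
  (F.b : ℝ) ^ 2 - 4 * F.a * F.c - 2 * F.a * F.b * r - 3 * (F.a : ℝ) ^ 2 * r ^ 2

end Cub

open Cub

theorem V_sq (F : Cub) (r : ℝ) (h : IsRoot F r) (z : ℤ × ℤ) :
    U r z * ((F.V r z) ^ 2 - F.dl r * (U r z) ^ 2) = 4 * F.sl r * (F.val z : ℝ) := by
  unfold IsRoot at h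
  unfold U V dl sl val
  have hd : (F.d : ℝ) = -((F.a : ℝ) * r ^ 3 + F.b * r ^ 2 + F.c * r) := by linarith
  push_cast
  rw [hd]
  ring

theorem disc_eq (F : Cub) (r : ℝ) (h : IsRoot F r) : (F.disc : ℝ) = F.dl r * (F.sl r) ^ 2 := by
  unfold IsRoot at h
  unfold dl sl disc
  have hd : (F.d : ℝ) = -((F.a : ℝ) * r ^ 3 + F.b * r ^ 2 + F.c * r) := by linarith
  push_cast
  rw [hd]
  ring

theorem hes_eq (F : Cub) (r : ℝ) (h : IsRoot F r) (z : ℤ × ℤ) :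
    4 * (F.hes z : ℝ) = (F.V r z) ^ 2 + 3 * F.dl r * (U r z) ^ 2 := by
  unfold IsRoot at h
  unfold U V dl hes
  have hd : (F.d : ℝ) = -((F.a : ℝ) * r ^ 3 + F.b * r ^ 2 + F.c * r) := by linarith
  push_cast
  rw [hd]
  ring

theorem wedge_eq (F : Cub) (r : ℝ) (h : IsRoot F r) (z w : ℤ × ℤ) :
    U r z * F.V r w - U r w * F.V r z = 2 * F.sl r * (wedge z w : ℝ) := by
  unfold U V sl wedge
  push_cast
  ring

/-- leading coefficient of absolute value at least one -/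
theorem d0_one_le (a : ℤ) (ha : a ≠ 0) : (1 : ℝ) ≤ |(a : ℝ)| := by
  have h : (1 : ℤ) ≤ |a| := Int.one_le_abs ha
  have h2 : ((1 : ℤ) : ℝ) ≤ ((|a| : ℤ) : ℝ) := by exact_mod_cast h
  simpa using h2

/-- sign of a real cubic at a large point -/
theorem d0_sign (a b c d x : ℝ) (ha : 1 ≤ |a|) (hx : |b| + |c| + |d| + 1 ≤ x) :
    0 < a * (a * x ^ 3 + b * x ^ 2 + c * x + d) := by
  have hb := abs_nonneg b
  have hc := abs_nonneg c
  have hd := abs_nonneg d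
  have hx1 : 1 ≤ x := by linarith
  have h1 : a * (a * x ^ 3 + b * x ^ 2 + c * x + d) = |a| ^ 2 * x ^ 3 + a * (b * x ^ 2 + c * x + d) := by
    rw [sq_abs]; ring
  have h2 : |b * x ^ 2 + c * x + d| ≤ (|b| + |c| + |d|) * x ^ 2 := by
    have e1 : |b * x ^ 2 + c * x + d| ≤ |b * x ^ 2| + |c * x| + |d| :=
      (abs_add_le _ _).trans (add_le_add_left (abs_add_le _ _) _)
    rw [abs_mul, abs_mul, abs_of_nonneg (by positivity : 0 ≤ x ^ 2), abs_of_pos (by linarith : 0 < x)] at e1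
    have e2 : |c| * x ≤ |c| * x ^ 2 := mul_le_mul_of_nonneg_left (by nlinarith) hc
    have e3 : |d| ≤ |d| * x ^ 2 := le_mul_of_one_le_right hd (one_le_pow₀ hx1)
    nlinarith
  have h3 : -(|a| * ((|b| + |c| + |d|) * x ^ 2)) ≤ a * (b * x ^ 2 + c * x + d) := by
    have e1 : |a * (b * x ^ 2 + c * x + d)| ≤ |a| * ((|b| + |c| + |d|) * x ^ 2) := by
      rw [abs_mul]
      exact mul_le_mul_of_nonneg_left h2 (abs_nonneg a)
    exact neg_le_of_abs_le e1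
  have h4 : 0 < |a| * x ^ 2 * (|a| * x - (|b| + |c| + |d|)) := by
    have e1 : 0 < |a| * x - (|b| + |c| + |d|) := by nlinarith
    have e2 : 0 < |a| * x ^ 2 := by positivity
    exact mul_pos e2 e1
  rw [h1]
  nlinarith

/-- a form with nonzero discriminant has a real root with nonzero `sl`, and for every `z` there is a
root in one of the two good positions -/
theorem exists_root (F : Cub) (ha : F.a ≠ 0) : ∃ r : ℝ, IsRoot F r := by
  have ha1 := d0_one_le F.a ha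
  set x : ℝ := |(F.b : ℝ)| + |(F.c : ℝ)| + |(F.d : ℝ)| + 1 with hx
  have hx0 : 0 ≤ x := by positivity
  set f : ℝ → ℝ := fun t => (F.a : ℝ) * ((F.a : ℝ) * t ^ 3 + (F.b : ℝ) * t ^ 2 + (F.c : ℝ) * t + (F.d : ℝ)) with hf
  have h1 : 0 < f x := d0_sign F.a F.b F.c F.d x ha1 le_rfl
  have h2 : f (-x) < 0 := by
    have := d0_sign F.a (-F.b) F.c (-F.d) x ha1 (by simp [hx])
    simp only [hf]
    nlinarith
  have hcont : ContinuousOn f (Set.Icc (-x) x) := by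
    simp only [hf]
    fun_prop
  have hiv := intermediate_value_Icc (by linarith : -x ≤ x) hcont
  obtain ⟨r, -, hr⟩ := hiv (show (0 : ℝ) ∈ Set.Icc (f (-x)) (f x) from ⟨h2.le, h1.le⟩)
  refine ⟨r, ?_⟩
  unfold IsRoot
  have ha0 : (F.a : ℝ) ≠ 0 := by exact_mod_cast ha
  simp only [hf] at hr
  rcases mul_eq_zero.1 hr with h | h
  · exact absurd h ha0
  · exact h

/-- Vieta -/
theorem d0_vieta (F : Cub) (ha : F.a ≠ 0) (r : ℝ) (h : IsRoot F r) (hd : 0 ≤ F.dl r) :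
    ∃ s t : ℝ, (F.b : ℝ) = -(F.a : ℝ) * (r + s + t) ∧ (F.c : ℝ) = (F.a : ℝ) * (r * s + r * t + s * t) ∧
      (F.d : ℝ) = -(F.a : ℝ) * (r * s * t) := by
  have ha0 : (F.a : ℝ) ≠ 0 := by exact_mod_cast ha
  have hsq := Real.sq_sqrt hd
  set D := Real.sqrt (F.dl r) with hD
  have e1 : (-((F.a : ℝ) * r + F.b) + D) / (2 * F.a) + (-((F.a : ℝ) * r + F.b) - D) / (2 * F.a) =
      -((F.a : ℝ) * r + F.b) / F.a := by
    field_simp
    ring
  have e2 : (-((F.a : ℝ) * r + F.b) + D) / (2 * F.a) * ((-((F.a : ℝ) * r + F.b) - D) / (2 * F.a)) =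
      ((F.a : ℝ) * r ^ 2 + F.b * r + F.c) / F.a := by
    rw [div_mul_div_comm]
    rw [div_eq_div_iff (by positivity) ha0]
    have : (-((F.a : ℝ) * r + F.b) + D) * (-((F.a : ℝ) * r + F.b) - D) =
        ((F.a : ℝ) * r + F.b) ^ 2 - D ^ 2 := by ring
    rw [this, hsq]
    unfold dl
    ring
  refine ⟨(-((F.a : ℝ) * r + F.b) + D) / (2 * F.a), (-((F.a : ℝ) * r + F.b) - D) / (2 * F.a), ?_, ?_, ?_⟩
  · rw [add_assoc, e1]
    field_simp
    ring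
  · have : r * ((-((F.a : ℝ) * r + F.b) + D) / (2 * F.a)) + r * ((-((F.a : ℝ) * r + F.b) - D) / (2 * F.a)) +
      (-((F.a : ℝ) * r + F.b) + D) / (2 * F.a) * ((-((F.a : ℝ) * r + F.b) - D) / (2 * F.a)) =
      r * (-((F.a : ℝ) * r + F.b) / F.a) + ((F.a : ℝ) * r ^ 2 + F.b * r + F.c) / F.a := by
      rw [e2, ← mul_add, e1]
    rw [this]
    field_simp
    ring
  · rw [mul_assoc r, e2]
    unfold IsRoot at h
    field_simp
    linarith

theorem d0_abs (x y : ℝ) : 2 * |x| ≤ |-x - y - y| ∨ 2 * |y| ≤ |x - (-x - y)| ∨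
    2 * |-x - y| ≤ |y - x| := by
  by_contra h
  push Not at h
  obtain ⟨h1, h2, h3⟩ := h
  rcases abs_cases x with ⟨a1, a2⟩ | ⟨a1, a2⟩ <;> rcases abs_cases y with ⟨b1, b2⟩ | ⟨b1, b2⟩ <;>
    rcases abs_cases (-x - y) with ⟨c1, c2⟩ | ⟨c1, c2⟩ <;>
    rcases abs_cases (-x - y - y) with ⟨d1, d2⟩ | ⟨d1, d2⟩ <;>
    rcases abs_cases (x - (-x - y)) with ⟨e1, e2⟩ | ⟨e1, e2⟩ <;>
    rcases abs_cases (y - x) with ⟨f1, f2⟩ | ⟨f1, f2⟩ <;> linarith

/-- one of the three roots is in good position -/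
theorem d0_good (F : Cub) (r s t : ℝ) (hb : (F.b : ℝ) = -(F.a : ℝ) * (r + s + t))
    (hc : (F.c : ℝ) = (F.a : ℝ) * (r * s + r * t + s * t)) (z : ℤ × ℤ) :
    2 * Real.sqrt (F.dl r) * |U r z| ≤ |F.V r z| ∨ 2 * Real.sqrt (F.dl s) * |U s z| ≤ |F.V s z| ∨
      2 * Real.sqrt (F.dl t) * |U t z| ≤ |F.V t z| := by
  have k1 : F.dl r = ((F.a : ℝ) * (s - t)) ^ 2 := by
    unfold dl; rw [hb, hc]; ring
  have k2 : F.dl s = ((F.a : ℝ) * (t - r)) ^ 2 := by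
    unfold dl; rw [hb, hc]; ring
  have k3 : F.dl t = ((F.a : ℝ) * (r - s)) ^ 2 := by
    unfold dl; rw [hb, hc]; ring
  rw [k1, k2, k3, Real.sqrt_sq_eq_abs, Real.sqrt_sq_eq_abs, Real.sqrt_sq_eq_abs, mul_assoc, mul_assoc,
    mul_assoc, ← abs_mul, ← abs_mul, ← abs_mul]
  have key := d0_abs ((F.a : ℝ) * (s - t) * U r z) ((F.a : ℝ) * (t - r) * U s z)
  have m3 : -((F.a : ℝ) * (s - t) * U r z) - (F.a : ℝ) * (t - r) * U s z =
      (F.a : ℝ) * (r - s) * U t z := by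
    unfold U; ring
  rw [m3] at key
  have v1 : (F.a : ℝ) * (r - s) * U t z - (F.a : ℝ) * (t - r) * U s z = F.V r z := by
    unfold U V; rw [hb, hc]; ring
  have v2 : (F.a : ℝ) * (s - t) * U r z - (F.a : ℝ) * (r - s) * U t z = F.V s z := by
    unfold U V; rw [hb, hc]; ring
  have v3 : (F.a : ℝ) * (t - r) * U s z - (F.a : ℝ) * (s - t) * U r z = F.V t z := by
    unfold U V; rw [hb, hc]; ring
  rw [v1, v2, v3] at key
  exact key

open Classical in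
/-- PROOF. At most 3 roots (polynomial of degree 3). Let r be a root. If dl r < 0 take it. If dl r > 0 the
quadratic cofactor has two real roots. -/
theorem exists_roots (F : Cub) (ha : F.a ≠ 0) (hD : F.disc ≠ 0) :
    ∃ R : Finset ℝ, R.card ≤ 3 ∧ (∀ r ∈ R, IsRoot F r ∧ F.sl r ≠ 0 ∧ F.dl r ≠ 0) ∧
      ∀ z : ℤ × ℤ, ∃ r ∈ R, F.dl r < 0 ∨
        (0 < F.dl r ∧ 2 * Real.sqrt (F.dl r) * |U r z| ≤ |F.V r z|) := by
  have hDR : (F.disc : ℝ) ≠ 0 := by exact_mod_cast hD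
  have hnz : ∀ r : ℝ, IsRoot F r → F.sl r ≠ 0 ∧ F.dl r ≠ 0 := by
    intro r hr
    rw [disc_eq F r hr] at hDR
    constructor
    · intro h; apply hDR; rw [h]; ring
    · intro h; apply hDR; rw [h]; ring
  obtain ⟨r, hr⟩ := exists_root F ha
  rcases lt_or_ge (F.dl r) 0 with h | h
  · refine ⟨{r}, by simp, ?_, ?_⟩
    · intro r' hr'
      rw [Finset.mem_singleton] at hr'
      subst hr'
      exact ⟨hr, hnz _ hr⟩
    · intro z
      exact ⟨r, Finset.mem_singleton_self r, Or.inl h⟩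
  · obtain ⟨s, t, hb, hc, hd⟩ := d0_vieta F ha r hr h
    have hs : IsRoot F s := by
      unfold IsRoot; rw [hb, hc, hd]; ring
    have ht : IsRoot F t := by
      unfold IsRoot; rw [hb, hc, hd]; ring
    have p1 : 0 < F.dl r := lt_of_le_of_ne h (Ne.symm (hnz r hr).2)
    have p2 : 0 < F.dl s := by
      have : F.dl s = ((F.a : ℝ) * (t - r)) ^ 2 := by
        unfold dl; rw [hb, hc]; ring
      exact lt_of_le_of_ne (this ▸ sq_nonneg _) (Ne.symm (hnz s hs).2)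
    have p3 : 0 < F.dl t := by
      have : F.dl t = ((F.a : ℝ) * (r - s)) ^ 2 := by
        unfold dl; rw [hb, hc]; ring
      exact lt_of_le_of_ne (this ▸ sq_nonneg _) (Ne.symm (hnz t ht).2)
    refine ⟨{r, s, t}, Finset.card_le_three, ?_, ?_⟩
    · intro r' hr'
      simp only [Finset.mem_insert, Finset.mem_singleton] at hr'
      rcases hr' with rfl | rfl | rfl
      · exact ⟨hr, hnz _ hr⟩
      · exact ⟨hs, hnz _ hs⟩
      · exact ⟨ht, hnz _ ht⟩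
    · intro z
      rcases d0_good F r s t hb hc z with g | g | g
      · exact ⟨r, by simp, Or.inr ⟨p1, g⟩⟩
      · exact ⟨s, by simp, Or.inr ⟨p2, g⟩⟩
      · exact ⟨t, by simp, Or.inr ⟨p3, g⟩⟩

/-- bounds for all quantities in terms of the height. PROOF. |r| <= 1 + ht (as |a| >= 1), so
|dl r|, |sl r| <= 100 ht^4; dl r * sl r^2 = disc is a nonzero integer, so |dl r| >= 1/(100 ht^4)^2 etc. -/
theorem root_bounds : ∃ C : ℝ, 1 ≤ C ∧ ∀ F : Cub, F.a ≠ 0 → F.disc ≠ 0 → ∀ r : ℝ, IsRoot F r →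
    |r| ≤ C * (F.ht : ℝ) ^ C ∧ |F.dl r| ≤ C * (F.ht : ℝ) ^ C ∧ |F.sl r| ≤ C * (F.ht : ℝ) ^ C ∧
    1 ≤ |F.dl r| * (C * (F.ht : ℝ) ^ C) ∧ 1 ≤ |F.sl r| * (C * (F.ht : ℝ) ^ C) ∧
    (1 : ℝ) ≤ |(F.disc : ℝ)| ∧ (1 : ℝ) ≤ (F.ht : ℝ) := by
  refine ⟨100, by norm_num, ?_⟩
  intro F ha hD r hr
  have ha1 := d0_one_le F.a ha
  have hD1 := d0_one_le F.disc hD
  have hpow : (F.ht : ℝ) ^ (100 : ℝ) = (F.ht : ℝ) ^ (100 : ℕ) := by
    rw [← Real.rpow_natCast]; norm_num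
  rw [hpow]
  have hht : (F.ht : ℝ) = |(F.a : ℝ)| + |(F.b : ℝ)| + |(F.c : ℝ)| + |(F.d : ℝ)| := by
    unfold ht; push_cast; ring
  set h : ℝ := (F.ht : ℝ) with hdef
  have pa := abs_nonneg (F.a : ℝ)
  have pb := abs_nonneg (F.b : ℝ)
  have pc := abs_nonneg (F.c : ℝ)
  have pd := abs_nonneg (F.d : ℝ)
  have h1 : 1 ≤ h := by linarith
  have ba : |(F.a : ℝ)| ≤ h := by linarith
  have bb : |(F.b : ℝ)| ≤ h := by linarith
  have bc : |(F.c : ℝ)| ≤ h := by linarith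
  have pr := abs_nonneg r
  have hr1 : |r| ≤ h := by
    by_contra hcon
    push Not at hcon
    have hr2 : 1 ≤ |r| := by linarith
    unfold IsRoot at hr
    have e1 : (F.a : ℝ) * r ^ 3 = -((F.b : ℝ) * r ^ 2 + F.c * r + F.d) := by linarith
    have e2 : |(F.a : ℝ)| * |r| ^ 3 ≤ |(F.b : ℝ)| * |r| ^ 2 + |(F.c : ℝ)| * |r| + |(F.d : ℝ)| := by
      rw [← abs_pow, ← abs_mul, e1, abs_neg]
      calc |(F.b : ℝ) * r ^ 2 + F.c * r + F.d| ≤ |(F.b : ℝ) * r ^ 2| + |(F.c : ℝ) * r| + |(F.d : ℝ)| :=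
            (abs_add_le _ _).trans (add_le_add_left (abs_add_le _ _) _)
        _ = _ := by rw [abs_mul, abs_mul, abs_pow]
    have e3 : |(F.c : ℝ)| * |r| ≤ |(F.c : ℝ)| * |r| ^ 2 := mul_le_mul_of_nonneg_left (by nlinarith) pc
    have e4 : |(F.d : ℝ)| ≤ |(F.d : ℝ)| * |r| ^ 2 := le_mul_of_one_le_right pd (one_le_pow₀ hr2)
    have e5 : |r| ^ 3 ≤ |(F.a : ℝ)| * |r| ^ 3 := by
      have : 0 ≤ |r| ^ 3 := by positivity
      nlinarith
    have e6 : |r| ^ 3 ≤ (h - 1) * |r| ^ 2 := by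
      have : 0 ≤ |r| ^ 2 := by positivity
      nlinarith
    have e7 : |r| ≤ h - 1 := by
      have : 0 < |r| ^ 2 := by positivity
      have e8 : |r| * |r| ^ 2 ≤ (h - 1) * |r| ^ 2 := by
        calc |r| * |r| ^ 2 = |r| ^ 3 := by ring
          _ ≤ _ := e6
      exact le_of_mul_le_mul_right e8 this
    linarith
  have hh2 : h ≤ h ^ 2 := by nlinarith
  have hh3 : h ^ 2 ≤ h ^ 3 := pow_le_pow_right₀ h1 (by norm_num)
  have hh4 : h ^ 3 ≤ h ^ 4 := pow_le_pow_right₀ h1 (by norm_num)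
  have hh8 : h ^ 8 ≤ h ^ 100 := pow_le_pow_right₀ h1 (by norm_num)
  have hh48 : h ^ 4 ≤ h ^ 8 := pow_le_pow_right₀ h1 (by norm_num)
  have hdl : |F.dl r| ≤ 10 * h ^ 4 := by
    unfold dl
    have t1 : |(F.b : ℝ) ^ 2| ≤ h ^ 2 := by
      rw [abs_pow]; exact pow_le_pow_left₀ pb bb 2
    have t2 : |4 * (F.a : ℝ) * F.c| ≤ 4 * h ^ 2 := by
      rw [abs_mul, abs_mul, abs_of_pos (by norm_num : (0 : ℝ) < 4)]
      have := mul_le_mul ba bc pc (by linarith)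
      nlinarith
    have t3 : |2 * (F.a : ℝ) * F.b * r| ≤ 2 * h ^ 3 := by
      rw [abs_mul, abs_mul, abs_mul, abs_of_pos (by norm_num : (0 : ℝ) < 2)]
      have e1 := mul_le_mul ba bb pb (by linarith)
      have e2 := mul_le_mul e1 hr1 pr (by positivity)
      nlinarith
    have t4 : |3 * (F.a : ℝ) ^ 2 * r ^ 2| ≤ 3 * h ^ 4 := by
      rw [abs_mul, abs_mul, abs_of_pos (by norm_num : (0 : ℝ) < 3), abs_pow, abs_pow]
      have e1 := pow_le_pow_left₀ pa ba 2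
      have e2 := pow_le_pow_left₀ pr hr1 2
      have e3 := mul_le_mul e1 e2 (by positivity) (by positivity)
      nlinarith
    have t5 : |(F.b : ℝ) ^ 2 - 4 * F.a * F.c - 2 * F.a * F.b * r - 3 * (F.a : ℝ) ^ 2 * r ^ 2| ≤
        |(F.b : ℝ) ^ 2| + |4 * (F.a : ℝ) * F.c| + |2 * (F.a : ℝ) * F.b * r| + |3 * (F.a : ℝ) ^ 2 * r ^ 2| := by
      refine (abs_sub _ _).trans (add_le_add_left ?_ _)
      refine (abs_sub _ _).trans (add_le_add_left ?_ _)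
      exact abs_sub _ _
    nlinarith
  have hsl : |F.sl r| ≤ 10 * h ^ 4 := by
    unfold sl
    have t1 : |3 * (F.a : ℝ) * r ^ 2| ≤ 3 * h ^ 3 := by
      rw [abs_mul, abs_mul, abs_of_pos (by norm_num : (0 : ℝ) < 3), abs_pow]
      have e2 := pow_le_pow_left₀ pr hr1 2
      have e3 := mul_le_mul ba e2 (by positivity) (by positivity)
      nlinarith
    have t2 : |2 * (F.b : ℝ) * r| ≤ 2 * h ^ 2 := by
      rw [abs_mul, abs_mul, abs_of_pos (by norm_num : (0 : ℝ) < 2)]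
      have e3 := mul_le_mul bb hr1 pr (by positivity)
      nlinarith
    have t5 : |3 * (F.a : ℝ) * r ^ 2 + 2 * F.b * r + F.c| ≤ |3 * (F.a : ℝ) * r ^ 2| + |2 * (F.b : ℝ) * r| + |(F.c : ℝ)| :=
      (abs_add_le _ _).trans (add_le_add_left (abs_add_le _ _) _)
    nlinarith
  have hdisc : |(F.disc : ℝ)| = |F.dl r| * |F.sl r| ^ 2 := by
    rw [disc_eq F r hr, abs_mul, abs_pow]
  have q1 := abs_nonneg (F.dl r)
  have q2 := abs_nonneg (F.sl r)
  have h4p : 0 ≤ 10 * h ^ 4 := by positivity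
  have hprod : (10 * h ^ 4) * (10 * h ^ 4) = 100 * h ^ 8 := by ring
  refine ⟨?_, ?_, ?_, ?_, ?_, hD1, h1⟩
  · nlinarith
  · nlinarith
  · nlinarith
  · have e1 : |F.sl r| ^ 2 ≤ 100 * h ^ 100 := by
      have := mul_le_mul hsl hsl q2 h4p
      nlinarith
    calc (1 : ℝ) ≤ |F.dl r| * |F.sl r| ^ 2 := by rw [← hdisc]; exact hD1
      _ ≤ _ := mul_le_mul_of_nonneg_left e1 q1
  · have e1 : |F.dl r| * |F.sl r| ≤ 100 * h ^ 100 := by
      have := mul_le_mul hdl hsl q2 h4p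
      nlinarith
    calc (1 : ℝ) ≤ |F.dl r| * |F.sl r| ^ 2 := by rw [← hdisc]; exact hD1
      _ = |F.sl r| * (|F.dl r| * |F.sl r|) := by ring
      _ ≤ _ := mul_le_mul_of_nonneg_left e1 q2

end Pool.Agent.Lib.SqPart
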