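import Pool.Agent.Lib.MP_d8bd92_nt.SqD0

set_option autoImplicit false

/-!
Points of a lattice with small value of the form.

PROOF. D = |disc| >= 1. Let R be the set of roots of `exists_roots`; split S into at most 3 subsets, S_r: the z for
which r is good. Fix r; write δ = |dl r|, s = |sl r|, A(z) = δ^(1/2) |U r z|, V = V r z; δ^(1/2) s = D^(1/2)
(`disc_eq`). Wedge: |δ^(1/2)U(z) V(w) - δ^(1/2)U(w) V(z)| = 2 D^(1/2) |wedge z w| >= 2 D^(1/2) m for z not w in S.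
Case (i): points with A <= |V| (all points if dl r > 0). Then |F.val z| 4 D^(1/2) = A |V^2 - dl U^2| >= (3/4) A V^2 (dl > 0:
A^2 <= V^2/4; dl < 0: V^2 + A^2 >= V^2), so A <= 6 D^(1/2) T / V^2, and V is nonzero (val nonzero). Fix an integer k, the
points with 2^k <= |V| < 2^(k+1), v = 2^k: the slope τ = δ^(1/2) U/V is in absolute value <= min(1, 6 D^(1/2) T/v^3),
and |τ(z) - τ(w)| >= 2 D^(1/2) m/(4 v^2) for z not w. So (points on a line with gaps >= γ in an interval of length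
2λ: at most 1 + 2λ/γ) the number is <= 1 + 4 (v^2/(D^(1/2) m)) min(1, 6D^(1/2)T/v^3)
<= 1 + (24/m) (v^2/D^(1/2))^(1/3) (T/v)^(2/3) <= 1 + (24/m) T^(2/3) D^(-1/6).
Case (ii): dl r < 0 and |V| < A: 4 D^(1/2) T >= A^3; for 2^k <= A < 2^(k+1), v = 2^k, the slope V/(δ^(1/2)U) is in
[-1,1] with gaps >= 2 D^(1/2) m/(4v^2): number <= 1 + 4v^2/(D^(1/2)m) <= 1 + 4 (4 D^(1/2)T)^(2/3)/(D^(1/2) m).
The number of k: in case (i) |V| <= C Z^C and |V|^3 >= |A| V^2·... : 4 D^(1/2) <= 4 D^(1/2)|val| <= A (V^2 + A^2) <= 2|V|^3, so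
|V| >= 1; in case (ii) A^3·2 >= 4D^(1/2) so A >= 1 and A <= C Z^C (root_bounds). So at most C log Z values of k.
-/

namespace Pool.Agent.Lib.SqPart

open Finset

open Cub

theorem d1_line {α : Type*} (S : Finset α) (f : α → ℝ) (l g : ℝ) (hg : 0 < g) (hl : 0 ≤ l)
    (h1 : ∀ z ∈ S, |f z| ≤ l) (h2 : ∀ z ∈ S, ∀ w ∈ S, z ≠ w → g ≤ |f z - f w|) :
    (S.card : ℝ) ≤ 1 + 2 * l / g := by
  have hc : S.card ≤ (Finset.Icc (0 : ℤ) ⌊2 * l / g⌋).card := by
    apply Finset.card_le_card_of_injOn (fun z => ⌊(f z + l) / g⌋)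
    · intro z hz
      have hz' := abs_le.1 (h1 z hz)
      simp only [Finset.coe_Icc, Set.mem_Icc]
      constructor
      · apply Int.floor_nonneg.2
        apply div_nonneg _ hg.le
        linarith [hz'.1]
      · apply Int.floor_le_floor
        apply div_le_div_of_nonneg_right _ hg.le
        linarith [hz'.2]
    · intro z hz w hw hzw
      by_contra hne
      have h3 := h2 z hz w hw hne
      have h4 : |(f z + l) / g - (f w + l) / g| < 1 := Int.abs_sub_lt_one_of_floor_eq_floor hzw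
      have h5 : (f z + l) / g - (f w + l) / g = (f z - f w) / g := by ring
      rw [h5, abs_div, abs_of_pos hg, div_lt_one hg] at h4
      linarith
  have h0 : (0 : ℤ) ≤ ⌊2 * l / g⌋ := Int.floor_nonneg.2 (by positivity)
  have h1' : ((Finset.Icc (0 : ℤ) ⌊2 * l / g⌋).card : ℝ) ≤ 1 + 2 * l / g := by
    rw [Int.card_Icc]
    have h6 : (((⌊2 * l / g⌋ + 1 - 0).toNat : ℤ) : ℝ) = (⌊2 * l / g⌋ : ℝ) + 1 := by
      rw [Int.toNat_of_nonneg (by linarith)]
      push_cast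
      ring
    have h7 : (((⌊2 * l / g⌋ + 1 - 0).toNat : ℕ) : ℝ) = (⌊2 * l / g⌋ : ℝ) + 1 := by
      rw [← h6]
      norm_cast
    rw [h7]
    have := Int.floor_le (2 * l / g)
    linarith
  calc (S.card : ℝ) ≤ ((Finset.Icc (0 : ℤ) ⌊2 * l / g⌋).card : ℝ) := by exact_mod_cast hc
    _ ≤ _ := h1'

theorem d1_slab {α : Type*} (S : Finset α) (p v : α → ℝ) (w l g : ℝ) (hw : 0 < w) (hg : 0 < g)
    (hl : 0 ≤ l) (h1 : ∀ z ∈ S, w ≤ |v z| ∧ |v z| < 2 * w) (h2 : ∀ z ∈ S, |p z| ≤ l * |v z|)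
    (h3 : ∀ z ∈ S, ∀ y ∈ S, z ≠ y → g ≤ |p z * v y - p y * v z|) :
    (S.card : ℝ) ≤ 1 + 8 * l * w ^ 2 / g := by
  have hk := d1_line S (fun z => p z / v z) l (g / (4 * w ^ 2)) (by positivity) hl ?_ ?_
  · have h4 : 2 * l / (g / (4 * w ^ 2)) = 8 * l * w ^ 2 / g := by
      field_simp
      ring
    rw [h4] at hk
    exact hk
  · intro z hz
    have hv : 0 < |v z| := lt_of_lt_of_le hw (h1 z hz).1
    rw [abs_div, div_le_iff₀ hv]
    exact h2 z hz
  · intro z hz y hy hne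
    have hv : 0 < |v z| := lt_of_lt_of_le hw (h1 z hz).1
    have hv' : 0 < |v y| := lt_of_lt_of_le hw (h1 y hy).1
    have hvz : v z ≠ 0 := abs_pos.1 hv
    have hvy : v y ≠ 0 := abs_pos.1 hv'
    have h5 : p z / v z - p y / v y = (p z * v y - p y * v z) / (v z * v y) := by
      field_simp
    rw [h5, abs_div, abs_mul, div_le_div_iff₀ (by positivity) (by positivity)]
    have h6 := h3 z hz y hy hne
    have h7 : |v z| * |v y| ≤ 4 * w ^ 2 := by
      nlinarith [(h1 z hz).2, (h1 y hy).2]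
    have h8 : g * (|v z| * |v y|) ≤ g * (4 * w ^ 2) := mul_le_mul_of_nonneg_left h7 hg.le
    have h9 : g * (4 * w ^ 2) ≤ |p z * v y - p y * v z| * (4 * w ^ 2) :=
      mul_le_mul_of_nonneg_right h6 (by positivity)
    linarith

theorem d1_cube (x q T : ℝ) (hq : 1 ≤ q) (hT : 1 ≤ T) (hx : x ^ 3 ≤ 36 * q ^ 2 * T ^ 2) :
    x ≤ 4 * q * T ^ (2 / 3 : ℝ) := by
  have hy0 : 0 ≤ T ^ (2 / 3 : ℝ) := Real.rpow_nonneg (by linarith) _
  have hy : (T ^ (2 / 3 : ℝ)) ^ 3 = T ^ 2 := by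
    rw [← Real.rpow_natCast (T ^ (2 / 3 : ℝ)) 3, ← Real.rpow_mul (by linarith)]
    norm_num
  have h1 : x ^ 3 ≤ (4 * q * T ^ (2 / 3 : ℝ)) ^ 3 := by
    have h2 : (4 * q * T ^ (2 / 3 : ℝ)) ^ 3 = 64 * q ^ 3 * T ^ 2 := by
      rw [mul_pow, hy]
      ring
    rw [h2]
    have h3 : q ^ 2 * T ^ 2 ≤ q ^ 3 * T ^ 2 := by
      apply mul_le_mul_of_nonneg_right _ (by positivity)
      nlinarith [sq_nonneg q]
    have h4 : 0 ≤ q ^ 2 * T ^ 2 := by positivity
    nlinarith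
  by_contra hcon
  push Not at hcon
  have h0 : 0 ≤ 4 * q * T ^ (2 / 3 : ℝ) := by positivity
  have := pow_lt_pow_left₀ hcon h0 (n := 3) (by norm_num)
  linarith

theorem d1_piece1 {α : Type*} (S : Finset α) (a V : α → ℝ) (q T w : ℝ) (m : ℕ) (hq : 1 ≤ q)
    (hT : 1 ≤ T) (hm : 1 ≤ m) (hw : 0 < w)
    (h1 : ∀ z ∈ S, w ≤ |V z| ∧ |V z| < 2 * w)
    (h2 : ∀ z ∈ S, |a z| ≤ |V z| ∧ |a z| * (V z) ^ 2 ≤ 6 * q * T)
    (h3 : ∀ z ∈ S, ∀ y ∈ S, z ≠ y → 2 * q * m ≤ |a z * V y - a y * V z|) :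
    (S.card : ℝ) ≤ 1 + 16 * T ^ (2 / 3 : ℝ) / m := by
  have hm' : (1 : ℝ) ≤ m := by exact_mod_cast hm
  have hT0 : 0 < T := by linarith
  have hq0 : 0 < q := by linarith
  have hm0 : (0 : ℝ) < m := by linarith
  have hw3 : 0 < w ^ 3 := by positivity
  set l : ℝ := min 1 (6 * q * T / w ^ 3) with hl
  have hl0 : 0 ≤ l := le_min zero_le_one (by positivity)
  have hl1 : l ≤ 1 := min_le_left _ _
  have hl2 : l ≤ 6 * q * T / w ^ 3 := min_le_right _ _
  have hk := d1_slab S a V w l (2 * q * m) hw (by positivity) hl0 h1 ?_ h3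
  · have hx : l * w ^ 2 ≤ 4 * q * T ^ (2 / 3 : ℝ) := by
      apply d1_cube _ q T hq hT
      have h4 : l * w ^ 3 ≤ 6 * q * T := by
        rw [le_div_iff₀ hw3] at hl2
        exact hl2
      have h5 : (l * w ^ 2) ^ 3 = l * (l * w ^ 3) ^ 2 := by ring
      rw [h5]
      have h6 : (l * w ^ 3) ^ 2 ≤ (6 * q * T) ^ 2 := pow_le_pow_left₀ (by positivity) h4 2
      have h7 : l * (l * w ^ 3) ^ 2 ≤ 1 * (l * w ^ 3) ^ 2 :=
        mul_le_mul_of_nonneg_right hl1 (by positivity)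
      calc l * (l * w ^ 3) ^ 2 ≤ (6 * q * T) ^ 2 := by linarith
        _ = 36 * q ^ 2 * T ^ 2 := by ring
    have h8 : 8 * l * w ^ 2 / (2 * q * m) = 4 * (l * w ^ 2) / (q * m) := by
      field_simp
      ring
    rw [h8] at hk
    have h9 : 4 * (l * w ^ 2) / (q * m) ≤ 16 * T ^ (2 / 3 : ℝ) / m := by
      rw [div_le_div_iff₀ (by positivity) hm0]
      have h10 : 4 * (l * w ^ 2) * m ≤ 4 * (4 * q * T ^ (2 / 3 : ℝ)) * m := by
        apply mul_le_mul_of_nonneg_right _ hm0.le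
        linarith
      calc 4 * (l * w ^ 2) * m ≤ 4 * (4 * q * T ^ (2 / 3 : ℝ)) * m := h10
        _ = 16 * T ^ (2 / 3 : ℝ) * (q * m) := by ring
    linarith
  · intro z hz
    obtain ⟨hz1, hz2⟩ := h2 z hz
    obtain ⟨hv1, hv2⟩ := h1 z hz
    have hv : 0 < |V z| := lt_of_lt_of_le hw hv1
    rcases le_total 1 (6 * q * T / w ^ 3) with h | h
    · rw [hl, min_eq_left h, one_mul]
      exact hz1
    · rw [hl, min_eq_right h]
      rw [← sq_abs (V z)] at hz2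
      rw [div_mul_eq_mul_div, le_div_iff₀ hw3]
      have h4 : w ^ 3 ≤ |V z| ^ 3 := pow_le_pow_left₀ hw.le hv1 3
      calc |a z| * w ^ 3 ≤ |a z| * |V z| ^ 3 := mul_le_mul_of_nonneg_left h4 (abs_nonneg _)
        _ = (|a z| * |V z| ^ 2) * |V z| := by ring
        _ ≤ 6 * q * T * |V z| := mul_le_mul_of_nonneg_right hz2 hv.le

theorem d1_piece2 {α : Type*} (S : Finset α) (a V : α → ℝ) (q T w : ℝ) (m : ℕ) (hq : 1 ≤ q)
    (hT : 1 ≤ T) (hm : 1 ≤ m) (hw : 0 < w)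
    (h1 : ∀ z ∈ S, w ≤ |a z| ∧ |a z| < 2 * w)
    (h2 : ∀ z ∈ S, |V z| ≤ |a z| ∧ |a z| ^ 3 ≤ 4 * q * T)
    (h3 : ∀ z ∈ S, ∀ y ∈ S, z ≠ y → 2 * q * m ≤ |a z * V y - a y * V z|) :
    (S.card : ℝ) ≤ 1 + 16 * T ^ (2 / 3 : ℝ) / m := by
  have hm' : (1 : ℝ) ≤ m := by exact_mod_cast hm
  have hT0 : 0 < T := by linarith
  have hq0 : 0 < q := by linarith
  have hm0 : (0 : ℝ) < m := by linarith
  rcases S.eq_empty_or_nonempty with he | ⟨z0, hz0⟩
  · rw [he]
    simp only [Finset.card_empty, Nat.cast_zero]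
    positivity
  have hk := d1_slab S V a w 1 (2 * q * m) hw (by positivity) zero_le_one h1 ?_ ?_
  · have hx : w ^ 2 ≤ 4 * q * T ^ (2 / 3 : ℝ) := by
      apply d1_cube _ q T hq hT
      have h4 : w ^ 3 ≤ 4 * q * T :=
        le_trans (pow_le_pow_left₀ hw.le (h1 z0 hz0).1 3) (h2 z0 hz0).2
      have h6 : (w ^ 3) ^ 2 ≤ (4 * q * T) ^ 2 := pow_le_pow_left₀ (by positivity) h4 2
      calc (w ^ 2) ^ 3 = (w ^ 3) ^ 2 := by ring
        _ ≤ (4 * q * T) ^ 2 := h6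
        _ = 16 * (q ^ 2 * T ^ 2) := by ring
        _ ≤ 36 * (q ^ 2 * T ^ 2) := by nlinarith [show (0 : ℝ) ≤ q ^ 2 * T ^ 2 by positivity]
        _ = 36 * q ^ 2 * T ^ 2 := by ring
    have h8 : 8 * 1 * w ^ 2 / (2 * q * m) = 4 * (w ^ 2) / (q * m) := by
      field_simp
      ring
    rw [h8] at hk
    have h9 : 4 * (w ^ 2) / (q * m) ≤ 16 * T ^ (2 / 3 : ℝ) / m := by
      rw [div_le_div_iff₀ (by positivity) hm0]
      have h10 : 4 * (w ^ 2) * m ≤ 4 * (4 * q * T ^ (2 / 3 : ℝ)) * m := by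
        apply mul_le_mul_of_nonneg_right _ hm0.le
        linarith
      calc 4 * (w ^ 2) * m ≤ 4 * (4 * q * T ^ (2 / 3 : ℝ)) * m := h10
        _ = 16 * T ^ (2 / 3 : ℝ) * (q * m) := by ring
    linarith
  · intro z hz
    rw [one_mul]
    exact (h2 z hz).1
  · intro z hz y hy hne
    have := h3 z hz y hy hne
    rw [abs_sub_comm] at this
    calc 2 * q * m ≤ |a y * V z - a z * V y| := this
      _ = |V z * a y - V y * a z| := by congr 1; ring

/-- the size of a point -/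
theorem d1_size : ∃ C : ℝ, 1 ≤ C ∧ ∀ (F : Cub), F.a ≠ 0 → F.disc ≠ 0 → ∀ r : ℝ, IsRoot F r →
    ∀ Z : ℝ, 2 ≤ Z → (F.ht : ℝ) ≤ Z → ∀ z : ℤ × ℤ, |(z.1 : ℝ)| ≤ Z → |(z.2 : ℝ)| ≤ Z →
    |F.V r z| ≤ C * Z ^ C ∧ |Real.sqrt |F.dl r| * U r z| ≤ C * Z ^ C := by
  obtain ⟨C, hC, h⟩ := root_bounds
  refine ⟨12 * C ^ 2 + 2 * C + 2, by nlinarith, ?_⟩
  intro F ha hD r hr Z hZ hht z hz1 hz2
  obtain ⟨h1, h2, -, -, -, -, h7⟩ := h F ha hD r hr
  have hZ0 : 0 < Z := by linarith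
  have hZ1 : 1 ≤ Z := by linarith
  set P : ℝ := C * Z ^ C with hP
  have hmono : C * (F.ht : ℝ) ^ C ≤ P := by
    apply mul_le_mul_of_nonneg_left _ (by linarith)
    exact Real.rpow_le_rpow (by linarith) hht (by linarith)
  have hP1 : 1 ≤ P := by
    have : 1 ≤ Z ^ C := Real.one_le_rpow hZ1 (by linarith)
    nlinarith
  have hP0 : 0 < P := by linarith
  have hr1 : |r| ≤ P := le_trans h1 hmono
  have hdl : |F.dl r| ≤ P := le_trans h2 hmono
  have hsum : |(F.a : ℝ)| + |(F.b : ℝ)| + |(F.c : ℝ)| + |(F.d : ℝ)| ≤ Z := by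
    have : (F.ht : ℝ) = |(F.a : ℝ)| + |(F.b : ℝ)| + |(F.c : ℝ)| + |(F.d : ℝ)| := by
      unfold ht
      push_cast
      ring
    rw [← this]
    exact hht
  have hA : |(F.a : ℝ)| ≤ Z := by linarith [abs_nonneg (F.b : ℝ), abs_nonneg (F.c : ℝ), abs_nonneg (F.d : ℝ)]
  have hB : |(F.b : ℝ)| ≤ Z := by linarith [abs_nonneg (F.a : ℝ), abs_nonneg (F.c : ℝ), abs_nonneg (F.d : ℝ)]
  have hCc : |(F.c : ℝ)| ≤ Z := by linarith [abs_nonneg (F.a : ℝ), abs_nonneg (F.b : ℝ), abs_nonneg (F.d : ℝ)]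
  -- the final bound
  have hfin : 12 * (Z ^ 2 * P ^ 2) ≤ (12 * C ^ 2 + 2 * C + 2) * Z ^ (12 * C ^ 2 + 2 * C + 2) := by
    have h8 : Z ^ 2 * P ^ 2 = C ^ 2 * Z ^ (2 * C + 2) := by
      rw [hP, mul_pow, ← Real.rpow_natCast (Z ^ C) 2, ← Real.rpow_mul hZ0.le,
        ← Real.rpow_natCast Z 2]
      rw [show Z ^ (2 * C + 2) = Z ^ (((2 : ℕ) : ℝ)) * Z ^ (C * ((2 : ℕ) : ℝ)) by
        rw [← Real.rpow_add hZ0]; congr 1; push_cast; ring]
      ring
    rw [h8]
    have h9 : Z ^ (2 * C + 2) ≤ Z ^ (12 * C ^ 2 + 2 * C + 2) :=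
      Real.rpow_le_rpow_of_exponent_le hZ1 (by nlinarith [sq_nonneg C])
    have h10 : 0 ≤ Z ^ (2 * C + 2) := Real.rpow_nonneg hZ0.le _
    calc 12 * (C ^ 2 * Z ^ (2 * C + 2)) = 12 * C ^ 2 * Z ^ (2 * C + 2) := by ring
      _ ≤ 12 * C ^ 2 * Z ^ (12 * C ^ 2 + 2 * C + 2) :=
          mul_le_mul_of_nonneg_left h9 (by positivity)
      _ ≤ (12 * C ^ 2 + 2 * C + 2) * Z ^ (12 * C ^ 2 + 2 * C + 2) := by
          apply mul_le_mul_of_nonneg_right _ (Real.rpow_nonneg hZ0.le _)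
          linarith
  have hZP : 1 ≤ Z * P := by nlinarith
  have hPP : P ≤ P ^ 2 := by nlinarith
  have hZZ : Z ≤ Z ^ 2 := by nlinarith
  constructor
  · refine le_trans ?_ hfin
    unfold V
    have e1 : |3 * (F.a : ℝ) * r + F.b| ≤ 3 * Z * P + Z := by
      calc |3 * (F.a : ℝ) * r + F.b| ≤ |3 * (F.a : ℝ) * r| + |(F.b : ℝ)| := abs_add_le _ _
        _ = 3 * |(F.a : ℝ)| * |r| + |(F.b : ℝ)| := by
            rw [abs_mul, abs_mul, abs_of_pos (show (0 : ℝ) < 3 by norm_num)]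
        _ ≤ 3 * Z * P + Z := by
            have := mul_le_mul hA hr1 (abs_nonneg _) hZ0.le
            nlinarith
    have e2 : |3 * (F.a : ℝ) * r ^ 2 + 3 * F.b * r + 2 * F.c| ≤ 3 * Z * P ^ 2 + 3 * Z * P + 2 * Z := by
      have f1 : |3 * (F.a : ℝ) * r ^ 2| ≤ 3 * Z * P ^ 2 := by
        rw [abs_mul, abs_mul, abs_of_pos (show (0 : ℝ) < 3 by norm_num), abs_pow]
        have := mul_le_mul hA (pow_le_pow_left₀ (abs_nonneg _) hr1 2) (by positivity) hZ0.le
        nlinarith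
      have f2 : |3 * (F.b : ℝ) * r| ≤ 3 * Z * P := by
        rw [abs_mul, abs_mul, abs_of_pos (show (0 : ℝ) < 3 by norm_num)]
        have := mul_le_mul hB hr1 (abs_nonneg _) hZ0.le
        nlinarith
      have f3 : |2 * (F.c : ℝ)| ≤ 2 * Z := by
        rw [abs_mul, abs_of_pos (show (0 : ℝ) < 2 by norm_num)]
        linarith
      calc |3 * (F.a : ℝ) * r ^ 2 + 3 * F.b * r + 2 * F.c|
          ≤ |3 * (F.a : ℝ) * r ^ 2 + 3 * F.b * r| + |2 * (F.c : ℝ)| := abs_add_le _ _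
        _ ≤ |3 * (F.a : ℝ) * r ^ 2| + |3 * F.b * r| + |2 * (F.c : ℝ)| := by
            linarith [abs_add_le (3 * (F.a : ℝ) * r ^ 2) (3 * F.b * r)]
        _ ≤ _ := by linarith
    have e3 : |(3 * (F.a : ℝ) * r + F.b) * (z.1 : ℝ)| ≤ (3 * Z * P + Z) * Z := by
      rw [abs_mul]
      exact mul_le_mul e1 hz1 (abs_nonneg _) (by positivity)
    have e4 : |(3 * (F.a : ℝ) * r ^ 2 + 3 * F.b * r + 2 * F.c) * (z.2 : ℝ)| ≤
        (3 * Z * P ^ 2 + 3 * Z * P + 2 * Z) * Z := by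
      rw [abs_mul]
      exact mul_le_mul e2 hz2 (abs_nonneg _) (by positivity)
    have e5 := abs_add_le ((3 * (F.a : ℝ) * r + F.b) * (z.1 : ℝ))
      ((3 * (F.a : ℝ) * r ^ 2 + 3 * F.b * r + 2 * F.c) * (z.2 : ℝ))
    have e6 : Z ^ 2 * P ≤ Z ^ 2 * P ^ 2 := mul_le_mul_of_nonneg_left hPP (by positivity)
    have e7 : Z ^ 2 ≤ Z ^ 2 * P := by nlinarith [sq_nonneg Z]
    nlinarith
  · refine le_trans ?_ hfin
    unfold U
    have g1 : Real.sqrt |F.dl r| ≤ P := by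
      rw [Real.sqrt_le_left hP0.le]
      linarith
    have g2 : |(z.1 : ℝ) - r * (z.2 : ℝ)| ≤ Z + P * Z := by
      calc |(z.1 : ℝ) - r * (z.2 : ℝ)| ≤ |(z.1 : ℝ)| + |r * (z.2 : ℝ)| := abs_sub _ _
        _ = |(z.1 : ℝ)| + |r| * |(z.2 : ℝ)| := by rw [abs_mul]
        _ ≤ Z + P * Z := by
            have := mul_le_mul hr1 hz2 (abs_nonneg _) hP0.le
            linarith
    rw [abs_mul, abs_of_nonneg (Real.sqrt_nonneg _)]
    have g3 := mul_le_mul g1 g2 (abs_nonneg _) hP0.le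
    have g4 : P * (Z + P * Z) ≤ 12 * (Z ^ 2 * P ^ 2) := by
      have e6 : Z * P ≤ Z ^ 2 * P ^ 2 := by
        have := mul_le_mul hZZ hPP hP0.le (by positivity)
        linarith
      have e7 : Z * P ^ 2 ≤ Z ^ 2 * P ^ 2 := mul_le_mul_of_nonneg_right hZZ (by positivity)
      have e8 : 0 ≤ Z ^ 2 * P ^ 2 := by positivity
      nlinarith
    linarith

/-- the facts on one point -/
theorem d1_point (F : Cub) (hD : F.disc ≠ 0) (r : ℝ) (hr : IsRoot F r)
    (z : ℤ × ℤ) (hz : 0 < F.val z)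
    (hgood : F.dl r < 0 ∨ (0 < F.dl r ∧ 2 * Real.sqrt (F.dl r) * |U r z| ≤ |F.V r z|))
    (T : ℝ) (hT : (F.val z : ℝ) ≤ T) :
    (|Real.sqrt |F.dl r| * U r z| ≤ |F.V r z| ∧ 1 ≤ |F.V r z| ∧
      |Real.sqrt |F.dl r| * U r z| * (F.V r z) ^ 2 ≤ 6 * Real.sqrt |(F.disc : ℝ)| * T) ∨
    (|F.V r z| ≤ |Real.sqrt |F.dl r| * U r z| ∧ 1 ≤ |Real.sqrt |F.dl r| * U r z| ∧
      |Real.sqrt |F.dl r| * U r z| ^ 3 ≤ 4 * Real.sqrt |(F.disc : ℝ)| * T) := by
  have hz1 : (1 : ℝ) ≤ (F.val z : ℝ) := by exact_mod_cast hz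
  have hD1 : (1 : ℝ) ≤ |(F.disc : ℝ)| := by
    have : (1 : ℤ) ≤ |F.disc| := Int.one_le_abs hD
    exact_mod_cast this
  set q : ℝ := Real.sqrt |(F.disc : ℝ)| with hq
  have hq1 : 1 ≤ q := by
    rw [hq, Real.one_le_sqrt]
    exact hD1
  set d : ℝ := Real.sqrt |F.dl r| with hd
  have hd0 : 0 ≤ d := Real.sqrt_nonneg _
  have hd2 : d ^ 2 = |F.dl r| := Real.sq_sqrt (abs_nonneg _)
  have hqd : q = d * |F.sl r| := by
    rw [hq, disc_eq F r hr, abs_mul, Real.sqrt_mul (abs_nonneg _), abs_of_nonneg (sq_nonneg (F.sl r)),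
      Real.sqrt_sq_eq_abs]
  have hV := V_sq F r hr z
  set u : ℝ := U r z with hu
  set v : ℝ := F.V r z with hv
  have hvabs : 0 ≤ |v| := abs_nonneg _
  -- the main identity, in absolute values
  have hid : |d * u| * |v ^ 2 - F.dl r * u ^ 2| = 4 * q * (F.val z : ℝ) := by
    have h1 : |u * (v ^ 2 - F.dl r * u ^ 2)| = 4 * |F.sl r| * (F.val z : ℝ) := by
      rw [hV, abs_mul, abs_mul, abs_of_pos (show (0 : ℝ) < 4 by norm_num),
        abs_of_pos (show (0 : ℝ) < (F.val z : ℝ) by linarith)]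
    rw [abs_mul] at h1
    rw [abs_mul, abs_of_nonneg hd0, hqd]
    calc d * |u| * |v ^ 2 - F.dl r * u ^ 2| = d * (|u| * |v ^ 2 - F.dl r * u ^ 2|) := by ring
      _ = d * (4 * |F.sl r| * (F.val z : ℝ)) := by rw [h1]
      _ = _ := by ring
  set a : ℝ := |d * u| with ha
  have ha0 : 0 ≤ a := abs_nonneg _
  have ha2 : a ^ 2 = |F.dl r| * u ^ 2 := by
    rw [ha, sq_abs, mul_pow, hd2]
  have hv2 : |v| ^ 2 = v ^ 2 := sq_abs v
  have hqT : 4 * q * (F.val z : ℝ) ≤ 4 * q * T := by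
    apply mul_le_mul_of_nonneg_left hT
    linarith
  have hq4 : 4 ≤ 4 * q * (F.val z : ℝ) := by nlinarith
  rcases hgood with hneg | ⟨hpos, hg⟩
  · -- dl < 0
    have h1 : v ^ 2 - F.dl r * u ^ 2 = v ^ 2 + a ^ 2 := by
      rw [ha2, abs_of_neg hneg]
      ring
    rw [h1, abs_of_nonneg (by positivity)] at hid
    rcases le_total a |v| with h | h
    · left
      refine ⟨h, ?_, ?_⟩
      · by_contra hlt
        push Not at hlt
        have h2 : a * (v ^ 2 + a ^ 2) ≤ |v| * (|v| ^ 2 + |v| ^ 2) := by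
          rw [← hv2]
          apply mul_le_mul h _ (by positivity) hvabs
          have := pow_le_pow_left₀ ha0 h 2
          linarith
        have h3 : |v| * (|v| ^ 2 + |v| ^ 2) = 2 * |v| ^ 3 := by ring
        have h4 : |v| ^ 3 < 1 := pow_lt_one₀ hvabs hlt (by norm_num)
        linarith
      · have h2 : a * v ^ 2 ≤ a * (v ^ 2 + a ^ 2) := by
          apply mul_le_mul_of_nonneg_left _ ha0
          nlinarith [sq_nonneg a]
        have h3 : 0 ≤ q * T := by nlinarith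
        nlinarith
    · right
      refine ⟨h, ?_, ?_⟩
      · by_contra hlt
        push Not at hlt
        have h2 : a * (v ^ 2 + a ^ 2) ≤ a * (a ^ 2 + a ^ 2) := by
          rw [← hv2]
          apply mul_le_mul_of_nonneg_left _ ha0
          have := pow_le_pow_left₀ hvabs h 2
          linarith
        have h3 : a * (a ^ 2 + a ^ 2) = 2 * a ^ 3 := by ring
        have h4 : a ^ 3 < 1 := pow_lt_one₀ ha0 hlt (by norm_num)
        linarith
      · have h2 : a ^ 3 ≤ a * (v ^ 2 + a ^ 2) := by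
          have : a ^ 3 = a * a ^ 2 := by ring
          rw [this]
          apply mul_le_mul_of_nonneg_left _ ha0
          nlinarith [sq_nonneg v]
        linarith
  · -- dl > 0
    left
    have hda : 2 * a ≤ |v| := by
      rw [ha, abs_mul, abs_of_nonneg hd0, hd, abs_of_pos hpos]
      linarith
    have hav : a ≤ |v| := by linarith
    have ha4 : 4 * a ^ 2 ≤ v ^ 2 := by
      rw [← hv2]
      nlinarith
    have h1 : v ^ 2 - F.dl r * u ^ 2 = v ^ 2 - a ^ 2 := by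
      rw [ha2, abs_of_pos hpos]
    rw [h1, abs_of_nonneg (by nlinarith [sq_nonneg a])] at hid
    refine ⟨hav, ?_, ?_⟩
    · by_contra hlt
      push Not at hlt
      have h2 : a * (v ^ 2 - a ^ 2) ≤ |v| * |v| ^ 2 := by
        rw [← hv2]
        apply mul_le_mul hav _ _ hvabs
        · nlinarith [sq_nonneg a]
        · rw [hv2]
          nlinarith [sq_nonneg a]
      have h4 : |v| ^ 3 < 1 := pow_lt_one₀ hvabs hlt (by norm_num)
      have h5 : |v| * |v| ^ 2 = |v| ^ 3 := by ring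
      linarith
    · have h2 : a * v ^ 2 * (3 / 4) ≤ a * (v ^ 2 - a ^ 2) := by
        have : a * (v ^ 2 * (3 / 4)) ≤ a * (v ^ 2 - a ^ 2) := by
          apply mul_le_mul_of_nonneg_left _ ha0
          linarith
        linarith
      have h3 : 0 ≤ q * T := by nlinarith
      nlinarith

theorem lattice_count : ∃ C : ℝ, 0 < C ∧ ∀ (F : Cub), F.Irr → F.disc ≠ 0 → ∀ (m : ℕ) (T Z : ℝ),
    1 ≤ m → 1 ≤ T → 2 ≤ Z → (F.ht : ℝ) ≤ Z → ∀ S : Finset (ℤ × ℤ),
    (∀ z ∈ S, 0 < F.val z ∧ (F.val z : ℝ) ≤ T ∧ |(z.1 : ℝ)| ≤ Z ∧ |(z.2 : ℝ)| ≤ Z) →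
    (∀ z ∈ S, ∀ w ∈ S, z ≠ w → wedge z w ≠ 0 ∧ (m : ℤ) ∣ wedge z w) →
    (S.card : ℝ) ≤ C * Real.log Z * (T ^ (2 / 3 : ℝ) / m + 1) := by
  classical
  obtain ⟨C, hC, hsize⟩ := d1_size
  have hlog2 : 0 < Real.log 2 := Real.log_pos (by norm_num)
  -- the constant
  refine ⟨6 * (1 / Real.log 2 + Real.log C / Real.log 2 / Real.log 2 + C / Real.log 2) * 16, ?_, ?_⟩
  · have : 0 ≤ Real.log C := Real.log_nonneg hC
    positivity
  intro F hirr hD m T Z hm hT hZ hht S hS hwedge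
  have ha : F.a ≠ 0 := by
    have h1 := hirr (1, 0) (by simp)
    simpa [Cub.val] using h1
  obtain ⟨R, hR3, hR, hgood⟩ := exists_roots F ha hD
  choose ρ hρ hρgood using hgood
  have hm' : (1 : ℝ) ≤ m := by exact_mod_cast hm
  have hZ0 : 0 < Z := by linarith
  have hlogC : 0 ≤ Real.log C := Real.log_nonneg hC
  have hD1 : (1 : ℝ) ≤ |(F.disc : ℝ)| := by
    have : (1 : ℤ) ≤ |F.disc| := Int.one_le_abs hD
    exact_mod_cast this
  have hq1 : 1 ≤ Real.sqrt |(F.disc : ℝ)| := by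
    rw [Real.one_le_sqrt]
    exact hD1
  -- the functions
  set A : ℝ → ℤ × ℤ → ℝ := fun r z => Real.sqrt |F.dl r| * U r z with hA
  set N : ℤ × ℤ → ℝ := fun z => max |A (ρ z) z| |F.V (ρ z) z| with hN
  set B : ℝ := C * Z ^ C with hB
  set K : ℕ := Nat.log 2 ⌊B⌋₊ + 1 with hK
  set n : ℕ := ⌊1 + 16 * T ^ (2 / 3 : ℝ) / m⌋₊ with hn
  have hT23 : 0 ≤ T ^ (2 / 3 : ℝ) := Real.rpow_nonneg (by linarith) _
  have hn1 : (n : ℝ) ≤ 1 + 16 * T ^ (2 / 3 : ℝ) / m := Nat.floor_le (by positivity)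
  have hB1 : 1 ≤ B := by
    have : 1 ≤ Z ^ C := Real.one_le_rpow (by linarith) (by linarith)
    nlinarith
  have hpt := fun z (hz : z ∈ S) => d1_point F hD (ρ z) (hR _ (hρ z)).1 z (hS z hz).1 (hρgood z) T
    (hS z hz).2.1
  have hN1 : ∀ z ∈ S, 1 ≤ N z := by
    intro z hz
    rcases hpt z hz with ⟨-, h, -⟩ | ⟨-, h, -⟩
    · exact le_max_of_le_right h
    · exact le_max_of_le_left h
  have hNB : ∀ z ∈ S, N z ≤ B := by
    intro z hz
    obtain ⟨h1, h2⟩ := hsize F ha hD (ρ z) (hR _ (hρ z)).1 Z hZ hht z (hS z hz).2.2.1 (hS z hz).2.2.2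
    exact max_le h2 h1
  set κ : ℤ × ℤ → ℕ := fun z => Nat.log 2 ⌊N z⌋₊ with hκ
  have hκ1 : ∀ z ∈ S, (2 : ℝ) ^ κ z ≤ N z ∧ N z < 2 * (2 : ℝ) ^ κ z := by
    intro z hz
    have h1 : 1 ≤ ⌊N z⌋₊ := (Nat.one_le_floor_iff _).2 (hN1 z hz)
    have h2 : 2 ^ κ z ≤ ⌊N z⌋₊ := Nat.pow_log_le_self 2 (by omega)
    have h3 : ⌊N z⌋₊ < 2 ^ (κ z + 1) := Nat.lt_pow_succ_log_self (by norm_num) _
    constructor
    · calc (2 : ℝ) ^ κ z = ((2 ^ κ z : ℕ) : ℝ) := by push_cast; rfl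
        _ ≤ (⌊N z⌋₊ : ℝ) := by exact_mod_cast h2
        _ ≤ N z := Nat.floor_le (by linarith [hN1 z hz])
    · have h4 : N z < ((2 ^ (κ z + 1) : ℕ) : ℝ) := (Nat.floor_lt' (by positivity)).1 h3
      push_cast at h4
      rw [pow_succ] at h4
      linarith
  have hmaps : ∀ z ∈ S, ((ρ z, (decide (|A (ρ z) z| ≤ |F.V (ρ z) z|), κ z)) : ℝ × Bool × ℕ) ∈
      R ×ˢ ((Finset.univ : Finset Bool) ×ˢ Finset.range K) := by
    intro z hz
    simp only [Finset.mem_product, Finset.mem_univ, Finset.mem_range, true_and]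
    refine ⟨hρ z, ?_⟩
    have : κ z ≤ Nat.log 2 ⌊B⌋₊ := Nat.log_mono_right (Nat.floor_le_floor (hNB z hz))
    omega
  have hfib : ∀ b ∈ R ×ˢ ((Finset.univ : Finset Bool) ×ˢ Finset.range K),
      (S.filter (fun z => ((ρ z, (decide (|A (ρ z) z| ≤ |F.V (ρ z) z|), κ z)) :
        ℝ × Bool × ℕ) = b)).card ≤ n := by
    rintro ⟨r, b, k⟩ hb
    apply Nat.le_floor
    have hfil : ∀ z ∈ S.filter (fun z => ((ρ z, (decide (|A (ρ z) z| ≤ |F.V (ρ z) z|), κ z)) :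
        ℝ × Bool × ℕ) = (r, b, k)), z ∈ S ∧ ρ z = r ∧ decide (|A r z| ≤ |F.V r z|) = b ∧
        κ z = k := by
      intro z hz
      rw [Finset.mem_filter] at hz
      obtain ⟨hz1, hz2⟩ := hz
      simp only [Prod.mk.injEq] at hz2
      obtain ⟨h1, h2, h3⟩ := hz2
      rw [h1] at h2
      exact ⟨hz1, h1, h2, h3⟩
    have hrR : r ∈ R := by
      simp only [Finset.mem_product] at hb
      exact hb.1
    have hroot := (hR r hrR).1
    have hqd : Real.sqrt |(F.disc : ℝ)| = Real.sqrt |F.dl r| * |F.sl r| := by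
      rw [disc_eq F r hroot, abs_mul, Real.sqrt_mul (abs_nonneg _),
        abs_of_nonneg (sq_nonneg (F.sl r)), Real.sqrt_sq_eq_abs]
    have hpair : ∀ z ∈ S, ∀ y ∈ S, z ≠ y →
        2 * Real.sqrt |(F.disc : ℝ)| * m ≤ |A r z * F.V r y - A r y * F.V r z| := by
      intro z hz y hy hne
      obtain ⟨hw1, hw2⟩ := hwedge z hz y hy hne
      have hw3 : (m : ℝ) ≤ |(wedge z y : ℝ)| := by
        have h1 : (m : ℤ) ≤ |wedge z y| := Int.le_of_dvd (abs_pos.2 hw1) ((dvd_abs _ _).2 hw2)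
        exact_mod_cast h1
      have h2 := wedge_eq F r hroot z y
      have h3 : A r z * F.V r y - A r y * F.V r z =
          Real.sqrt |F.dl r| * (2 * F.sl r * (wedge z y : ℝ)) := by
        rw [← h2, hA]
        ring
      rw [h3, abs_mul, abs_mul, abs_mul, abs_of_nonneg (Real.sqrt_nonneg _),
        abs_of_pos (show (0 : ℝ) < 2 by norm_num), hqd]
      calc 2 * (Real.sqrt |F.dl r| * |F.sl r|) * m
          ≤ 2 * (Real.sqrt |F.dl r| * |F.sl r|) * |(wedge z y : ℝ)| := by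
            apply mul_le_mul_of_nonneg_left hw3
            positivity
        _ = _ := by ring
    cases b with
    | true =>
      apply d1_piece1 _ (A r) (F.V r) (Real.sqrt |(F.disc : ℝ)|) T ((2 : ℝ) ^ k) m hq1 hT hm
        (by positivity)
      · intro z hz
        obtain ⟨hz1, hz2, hz3, hz4⟩ := hfil z hz
        have hz3' := of_decide_eq_true hz3
        have h1 := hκ1 z hz1
        have hNz : N z = |F.V r z| := by
          simp only [hN]
          rw [hz2]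
          exact max_eq_right hz3'
        rw [hNz, hz4] at h1
        exact h1
      · intro z hz
        obtain ⟨hz1, hz2, hz3, hz4⟩ := hfil z hz
        have hz3' := of_decide_eq_true hz3
        refine ⟨hz3', ?_⟩
        have h1 := hpt z hz1
        rw [hz2] at h1
        rcases h1 with ⟨-, -, h⟩ | ⟨h1, h2, h3⟩
        · exact h
        · have heq : |F.V r z| = |A r z| := le_antisymm h1 hz3'
          have h4 : |A r z| * (F.V r z) ^ 2 = |A r z| ^ 3 := by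
            rw [← sq_abs, heq]
            ring
          rw [h4]
          have h5 : 0 ≤ Real.sqrt |(F.disc : ℝ)| * T := by
            have := Real.sqrt_nonneg |(F.disc : ℝ)|
            nlinarith
          have h6 : |A r z| ^ 3 ≤ 4 * Real.sqrt |(F.disc : ℝ)| * T := h3
          nlinarith
      · intro z hz y hy hne
        exact hpair z (hfil z hz).1 y (hfil y hy).1 hne
    | false =>
      apply d1_piece2 _ (A r) (F.V r) (Real.sqrt |(F.disc : ℝ)|) T ((2 : ℝ) ^ k) m hq1 hT hm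
        (by positivity)
      · intro z hz
        obtain ⟨hz1, hz2, hz3, hz4⟩ := hfil z hz
        have hz3' := of_decide_eq_false hz3
        push Not at hz3'
        have h1 := hκ1 z hz1
        have hNz : N z = |A r z| := by
          simp only [hN]
          rw [hz2]
          exact max_eq_left hz3'.le
        rw [hNz, hz4] at h1
        exact h1
      · intro z hz
        obtain ⟨hz1, hz2, hz3, hz4⟩ := hfil z hz
        have hz3' := of_decide_eq_false hz3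
        push Not at hz3'
        refine ⟨hz3'.le, ?_⟩
        have h1 := hpt z hz1
        rw [hz2] at h1
        rcases h1 with ⟨h, -, -⟩ | ⟨-, -, h⟩
        · exact absurd h (not_le.2 hz3')
        · exact h
      · intro z hz y hy hne
        exact hpair z (hfil z hz).1 y (hfil y hy).1 hne
  have hcard := Finset.card_le_mul_card_image_of_maps_to hmaps n hfib
  have hcard2 : (R ×ˢ ((Finset.univ : Finset Bool) ×ˢ Finset.range K)).card ≤ 3 * (2 * K) := by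
    rw [Finset.card_product, Finset.card_product, Finset.card_range, Finset.card_univ,
      Fintype.card_bool]
    exact Nat.mul_le_mul_right _ hR3
  have hcard3 : S.card ≤ n * (3 * (2 * K)) := le_trans hcard (Nat.mul_le_mul_left _ hcard2)
  -- the number of dyadic pieces
  have hKb : (K : ℝ) ≤ (1 / Real.log 2 + Real.log C / Real.log 2 / Real.log 2 + C / Real.log 2) *
      Real.log Z := by
    have h1 : (2 : ℝ) ^ Nat.log 2 ⌊B⌋₊ ≤ B := by
      have h2 : 2 ^ Nat.log 2 ⌊B⌋₊ ≤ ⌊B⌋₊ :=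
        Nat.pow_log_le_self 2 (by have := (Nat.one_le_floor_iff B).2 hB1; omega)
      calc (2 : ℝ) ^ Nat.log 2 ⌊B⌋₊ = ((2 ^ Nat.log 2 ⌊B⌋₊ : ℕ) : ℝ) := by push_cast; rfl
        _ ≤ (⌊B⌋₊ : ℝ) := by exact_mod_cast h2
        _ ≤ B := Nat.floor_le (by linarith)
    have h2 := Real.log_le_log (by positivity) h1
    rw [Real.log_pow, hB, Real.log_mul (by linarith) (Real.rpow_pos_of_pos hZ0 _).ne',
      Real.log_rpow hZ0] at h2
    have hlZ : Real.log 2 ≤ Real.log Z := Real.log_le_log (by norm_num) hZ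
    have h3 : (Nat.log 2 ⌊B⌋₊ : ℝ) ≤ (Real.log C + C * Real.log Z) / Real.log 2 := by
      rw [le_div_iff₀ hlog2]
      exact h2
    have h4 : (K : ℝ) = (Nat.log 2 ⌊B⌋₊ : ℝ) + 1 := by
      rw [hK]
      push_cast
      ring
    rw [h4]
    have h5 : 1 ≤ 1 / Real.log 2 * Real.log Z := by
      rw [one_div, inv_mul_eq_div, one_le_div hlog2]
      exact hlZ
    have h6 : Real.log C / Real.log 2 ≤ Real.log C / Real.log 2 / Real.log 2 * Real.log Z := by
      have h7 : Real.log C / Real.log 2 / Real.log 2 * Real.log Z =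
          Real.log C / Real.log 2 * (Real.log Z / Real.log 2) := by ring
      rw [h7]
      have h8 : 1 ≤ Real.log Z / Real.log 2 := by
        rw [one_le_div hlog2]
        exact hlZ
      have h9 : 0 ≤ Real.log C / Real.log 2 := by positivity
      nlinarith
    have h10 : (Real.log C + C * Real.log Z) / Real.log 2 =
        Real.log C / Real.log 2 + C / Real.log 2 * Real.log Z := by ring
    rw [h10] at h3
    nlinarith
  set C2 : ℝ := 1 / Real.log 2 + Real.log C / Real.log 2 / Real.log 2 + C / Real.log 2 with hC2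
  have hC20 : 0 ≤ C2 := by positivity
  have hlZ0 : 0 ≤ Real.log Z := Real.log_nonneg (by linarith)
  have hfinal : (S.card : ℝ) ≤ (n : ℝ) * (3 * (2 * K)) := by exact_mod_cast hcard3
  have hnb : (n : ℝ) ≤ 16 * (T ^ (2 / 3 : ℝ) / m + 1) := by
    have : 16 * T ^ (2 / 3 : ℝ) / m = 16 * (T ^ (2 / 3 : ℝ) / m) := by ring
    rw [this] at hn1
    linarith
  have hK0 : (0 : ℝ) ≤ K := Nat.cast_nonneg _
  have hTm : 0 ≤ T ^ (2 / 3 : ℝ) / m + 1 := by positivity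
  calc (S.card : ℝ) ≤ (n : ℝ) * (3 * (2 * K)) := hfinal
    _ ≤ (16 * (T ^ (2 / 3 : ℝ) / m + 1)) * (3 * (2 * (C2 * Real.log Z))) := by
        apply mul_le_mul hnb _ (by positivity) (by positivity)
        linarith
    _ = 6 * C2 * 16 * Real.log Z * (T ^ (2 / 3 : ℝ) / m + 1) := by ring

end Pool.Agent.Lib.SqPart
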