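import Pool.Agent.Lib.MP_d8bd92_nt.SqD0

set_option autoImplicit false

/-!
The gap principle for large solutions, and the size of the small ones.
-/

namespace Pool.Agent.Lib.SqPart

open Finset Cub

/-- the three basic inequalities at a good root -/
theorem d2_good (F : Cub) (r : ℝ) (hr : IsRoot F r) (z : ℤ × ℤ) (T : ℝ)
    (hg : F.dl r < 0 ∨ (0 < F.dl r ∧ 2 * Real.sqrt (F.dl r) * |U r z| ≤ |F.V r z|))
    (hT : |(F.val z : ℝ)| ≤ T) :
    (Real.sqrt |F.dl r| * |U r z|) ^ 3 ≤ 4 * (Real.sqrt |F.dl r| * |F.sl r|) * T ∧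
    (Real.sqrt |F.dl r| * |U r z|) * |F.V r z| ^ 2 ≤ 6 * (Real.sqrt |F.dl r| * |F.sl r|) * T ∧
    |4 * (F.hes z : ℝ) - |F.V r z| ^ 2| ≤ 3 * (Real.sqrt |F.dl r| * |U r z|) ^ 2 := by
  set s := Real.sqrt |F.dl r| with hs
  have hs0 : 0 ≤ s := Real.sqrt_nonneg _
  have hs2 : s ^ 2 = |F.dl r| := Real.sq_sqrt (abs_nonneg _)
  have hT0 : 0 ≤ T := (abs_nonneg _).trans hT
  have hV := V_sq F r hr z
  have hH := hes_eq F r hr z
  have hA2 : (s * |U r z|) ^ 2 = |F.dl r| * (U r z) ^ 2 := by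
    rw [mul_pow, hs2, sq_abs]
  have hq0 : 0 ≤ s * |F.sl r| := mul_nonneg hs0 (abs_nonneg _)
  have hA0 : 0 ≤ s * |U r z| := mul_nonneg hs0 (abs_nonneg _)
  have hqT : 0 ≤ s * |F.sl r| * T := mul_nonneg hq0 hT0
  have key : (s * |U r z|) * |(F.V r z) ^ 2 - F.dl r * (U r z) ^ 2| ≤ 4 * (s * |F.sl r|) * T := by
    have h1 : |U r z| * |(F.V r z) ^ 2 - F.dl r * (U r z) ^ 2| = 4 * |F.sl r| * |(F.val z : ℝ)| := by
      rw [← abs_mul, hV, abs_mul, abs_mul]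
      norm_num
    calc (s * |U r z|) * |(F.V r z) ^ 2 - F.dl r * (U r z) ^ 2|
        = s * (|U r z| * |(F.V r z) ^ 2 - F.dl r * (U r z) ^ 2|) := by ring
      _ = 4 * (s * |F.sl r|) * |(F.val z : ℝ)| := by rw [h1]; ring
      _ ≤ _ := mul_le_mul_of_nonneg_left hT (by positivity)
  have hh : |4 * (F.hes z : ℝ) - |F.V r z| ^ 2| ≤ 3 * (s * |U r z|) ^ 2 := by
    rw [hA2, sq_abs, hH]
    have : (F.V r z) ^ 2 + 3 * F.dl r * (U r z) ^ 2 - (F.V r z) ^ 2 = 3 * (F.dl r * (U r z) ^ 2) := by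
      ring
    rw [this, abs_mul, abs_mul, abs_of_nonneg (sq_nonneg (U r z))]
    norm_num
  have tri : (F.dl r < 0 ∧ |(F.V r z) ^ 2 - F.dl r * (U r z) ^ 2| = |F.V r z| ^ 2 + (s * |U r z|) ^ 2) ∨
      (4 * (s * |U r z|) ^ 2 ≤ |F.V r z| ^ 2 ∧
        |(F.V r z) ^ 2 - F.dl r * (U r z) ^ 2| = |F.V r z| ^ 2 - (s * |U r z|) ^ 2) := by
    rcases hg with hg | ⟨hg, hg2⟩
    · left
      have e : (F.V r z) ^ 2 - F.dl r * (U r z) ^ 2 = |F.V r z| ^ 2 + (s * |U r z|) ^ 2 := by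
        rw [hA2, abs_of_neg hg, sq_abs]; ring
      exact ⟨hg, by rw [e]; exact abs_of_nonneg (by positivity)⟩
    · right
      have e : (F.V r z) ^ 2 - F.dl r * (U r z) ^ 2 = |F.V r z| ^ 2 - (s * |U r z|) ^ 2 := by
        rw [hA2, abs_of_pos hg, sq_abs]
      have hs' : s = Real.sqrt (F.dl r) := by rw [hs, abs_of_pos hg]
      rw [← hs', mul_assoc] at hg2
      have h4 : 4 * (s * |U r z|) ^ 2 ≤ |F.V r z| ^ 2 := by nlinarith
      refine ⟨h4, ?_⟩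
      rw [e]
      exact abs_of_nonneg (by nlinarith [sq_nonneg (s * |U r z|)])
  clear_value s
  generalize s * |U r z| = A at *
  generalize |F.V r z| = v at *
  generalize s * |F.sl r| = q at *
  refine ⟨?_, ?_, hh⟩
  · rcases tri with ⟨-, e⟩ | ⟨h4, e⟩
    · rw [e] at key
      nlinarith [mul_nonneg hA0 (sq_nonneg v)]
    · rw [e] at key
      have h5 : A * (3 * A ^ 2) ≤ A * (v ^ 2 - A ^ 2) :=
        mul_le_mul_of_nonneg_left (by linarith) hA0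
      have h6 : 0 ≤ A ^ 3 := by positivity
      nlinarith
  · rcases tri with ⟨-, e⟩ | ⟨h4, e⟩
    · rw [e] at key
      nlinarith [mul_nonneg hA0 (sq_nonneg A)]
    · rw [e] at key
      have h5 : A * (3 / 4 * v ^ 2) ≤ A * (v ^ 2 - A ^ 2) :=
        mul_le_mul_of_nonneg_left (by linarith) hA0
      nlinarith

theorem d2_le_of_sq {x y : ℝ} (h : x ^ 2 ≤ y ^ 2) (hy : 0 ≤ y) : x ≤ y := by
  exact le_of_not_gt fun hc => by nlinarith

/-- the wedge inequality -/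
theorem d2_wedge (F : Cub) (r : ℝ) (hr : IsRoot F r) (z w : ℤ × ℤ) :
    2 * (Real.sqrt |F.dl r| * |F.sl r|) * |(wedge z w : ℝ)| ≤
      (Real.sqrt |F.dl r| * |U r z|) * |F.V r w| + (Real.sqrt |F.dl r| * |U r w|) * |F.V r z| := by
  have h := wedge_eq F r hr z w
  have hs0 : 0 ≤ Real.sqrt |F.dl r| := Real.sqrt_nonneg _
  have h1 : 2 * |F.sl r| * |(wedge z w : ℝ)| ≤ |U r z| * |F.V r w| + |U r w| * |F.V r z| := by
    calc 2 * |F.sl r| * |(wedge z w : ℝ)| = |U r z * F.V r w - U r w * F.V r z| := by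
          rw [h, abs_mul, abs_mul]; norm_num
      _ ≤ |U r z * F.V r w| + |U r w * F.V r z| := abs_sub _ _
      _ = _ := by rw [abs_mul, abs_mul]
  calc 2 * (Real.sqrt |F.dl r| * |F.sl r|) * |(wedge z w : ℝ)|
      = Real.sqrt |F.dl r| * (2 * |F.sl r| * |(wedge z w : ℝ)|) := by ring
    _ ≤ Real.sqrt |F.dl r| * (|U r z| * |F.V r w| + |U r w| * |F.V r z|) :=
        mul_le_mul_of_nonneg_left h1 hs0
    _ = _ := by ring

/-- the gap -/
theorem d2_gap {q T Az Aw vz vw : ℝ} (hq : 0 < q) (hT : 1 ≤ T) (hAw : 0 ≤ Aw)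
    (h1 : Az * vz ^ 2 ≤ 6 * q * T) (h2 : Aw * vw ^ 2 ≤ 6 * q * T)
    (hz : 36 * T ^ 2 ≤ vz) (hzw : vz ≤ vw) (hw : 2 * q ≤ Az * vw + Aw * vz) :
    vz ^ 3 ≤ vw ^ 2 := by
  have hvz : 0 < vz := lt_of_lt_of_le (by positivity) hz
  have hvw : 0 < vw := lt_of_lt_of_le hvz hzw
  have a1 : 2 * q * vz ^ 2 ≤ (Az * vw + Aw * vz) * vz ^ 2 :=
    mul_le_mul_of_nonneg_right hw (by positivity)
  have a2 : Az * vz ^ 2 * vw ≤ 6 * q * T * vw := mul_le_mul_of_nonneg_right h1 hvw.le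
  have a3 : Aw * vz ^ 2 ≤ Aw * vw ^ 2 :=
    mul_le_mul_of_nonneg_left (pow_le_pow_left₀ hvz.le hzw 2) hAw
  have a4 : Aw * vz ^ 2 * vz ≤ 6 * q * T * vz :=
    mul_le_mul_of_nonneg_right (a3.trans h2) hvz.le
  have a5 : 2 * q * vz ^ 2 ≤ q * (6 * T * vw + 6 * T * vz) := by
    have e : (Az * vw + Aw * vz) * vz ^ 2 = Az * vz ^ 2 * vw + Aw * vz ^ 2 * vz := by ring
    rw [e] at a1
    linarith
  have a6 : 2 * vz ^ 2 ≤ 6 * T * vw + 6 * T * vz := by
    have : q * (2 * vz ^ 2) ≤ q * (6 * T * vw + 6 * T * vz) := by linarith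
    exact le_of_mul_le_mul_left this hq
  have hT6 : 6 * T ≤ vz := by
    have : T ≤ T ^ 2 := by rw [sq]; exact le_mul_of_one_le_left (by linarith) hT
    linarith
  have a7 : 6 * T * vz ≤ vz * vz := mul_le_mul_of_nonneg_right hT6 hvz.le
  have a8 : vz ^ 2 ≤ 6 * T * vw := by rw [← sq] at a7; linarith
  have a9 : (vz ^ 2) ^ 2 ≤ (6 * T * vw) ^ 2 := pow_le_pow_left₀ (by positivity) a8 2
  have a10 : (6 * T * vw) ^ 2 ≤ vz * vw ^ 2 := by
    have : (6 * T * vw) ^ 2 = 36 * T ^ 2 * vw ^ 2 := by ring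
    rw [this]
    exact mul_le_mul_of_nonneg_right hz (by positivity)
  have a11 : vz * vz ^ 3 ≤ vz * vw ^ 2 := by
    have : vz * vz ^ 3 = (vz ^ 2) ^ 2 := by ring
    rw [this]; exact a9.trans a10
  exact le_of_mul_le_mul_left a11 hvz

/-- counting numbers with geometric gaps -/
theorem d2_count {α : Type} (S : Finset α) (g : α → ℝ) (G : ℝ) (h1 : ∀ z ∈ S, 1 ≤ g z)
    (h2 : ∀ z ∈ S, g z ≤ G)
    (h3 : ∀ z ∈ S, ∀ w ∈ S, z ≠ w → g z ≤ g w → 3 / 2 * g z ≤ g w) (hG : 1 ≤ G) :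
    (S.card : ℝ) ≤ 1 + Real.log G / Real.log (3 / 2) := by
  have hl : 0 < Real.log (3 / 2) := Real.log_pos (by norm_num)
  set φ : α → ℕ := fun z => ⌊Real.log (g z) / Real.log (3 / 2)⌋₊ with hφ
  have key : ∀ z ∈ S, ∀ w ∈ S, z ≠ w → g z ≤ g w → φ z < φ w := by
    intro z hz w hw hne hle
    have hgz : 0 < g z := lt_of_lt_of_le one_pos (h1 z hz)
    have b1 : Real.log (3 / 2 * g z) ≤ Real.log (g w) :=
      Real.log_le_log (by positivity) (h3 z hz w hw hne hle)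
    rw [Real.log_mul (by norm_num) hgz.ne'] at b1
    have b2 : Real.log (g z) / Real.log (3 / 2) + 1 ≤ Real.log (g w) / Real.log (3 / 2) := by
      rw [div_add_one hl.ne']
      exact div_le_div_of_nonneg_right (by linarith) hl.le
    have b3 : 0 ≤ Real.log (g z) / Real.log (3 / 2) :=
      div_nonneg (Real.log_nonneg (h1 z hz)) hl.le
    have b4 : φ z + 1 ≤ φ w := by
      simp only [hφ]
      rw [← Nat.floor_add_one b3]
      exact Nat.floor_le_floor b2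
    omega
  have hinj : Set.InjOn φ S := by
    intro z hz w hw hzw
    by_contra hne
    rcases le_total (g z) (g w) with h | h
    · exact absurd (key z hz w hw hne h) (by omega)
    · exact absurd (key w hw z hz (Ne.symm hne) h) (by omega)
  have hmaps : ∀ z ∈ S, φ z ∈ Finset.range (⌊Real.log G / Real.log (3 / 2)⌋₊ + 1) := by
    intro z hz
    rw [Finset.mem_range, Nat.lt_succ_iff]
    refine Nat.floor_le_floor ?_
    exact div_le_div_of_nonneg_right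
      (Real.log_le_log (lt_of_lt_of_le one_pos (h1 z hz)) (h2 z hz)) hl.le
  have hc := Finset.card_le_card_of_injOn φ hmaps hinj
  rw [Finset.card_range] at hc
  have hc' : (S.card : ℝ) ≤ (⌊Real.log G / Real.log (3 / 2)⌋₊ : ℝ) + 1 := by exact_mod_cast hc
  have := Nat.floor_le (div_nonneg (Real.log_nonneg hG) hl.le)
  linarith

/-- the leading coefficient of a form without rational zeros -/
theorem d2_a_ne (F : Cub) (h : F.Irr) : F.a ≠ 0 := by
  have := h (1, 0) (by simp)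
  simpa [Cub.val] using this

/-- cube root trivial bound -/
theorem d2_cube {A M : ℝ} (hM : 1 ≤ M) (h : A ^ 3 ≤ M) : A ≤ M := by
  by_contra hc
  push Not at hc
  have h1 : 1 < A := lt_of_le_of_lt hM hc
  have : A * 1 ≤ A ^ 3 := by
    have h2 : 1 ≤ A ^ 2 := one_le_pow₀ h1.le
    calc A * 1 ≤ A * A ^ 2 := mul_le_mul_of_nonneg_left h2 (by linarith)
      _ = A ^ 3 := by ring
  linarith

/-- consequences of the root bounds -/
theorem d2_bounds : ∃ C : ℝ, 1 ≤ C ∧ ∀ F : Cub, F.a ≠ 0 → F.disc ≠ 0 → ∀ r : ℝ, IsRoot F r →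
    ∀ P : ℝ, (F.ht : ℝ) ≤ P →
    1 ≤ (F.ht : ℝ) ∧ 1 ≤ C * P ^ C ∧
    |r| ≤ C * P ^ C ∧
    1 ≤ |F.sl r| * (C * P ^ C) ∧ 1 ≤ Real.sqrt |F.dl r| * (C * P ^ C) ∧
    1 ≤ Real.sqrt |F.dl r| * |F.sl r| ∧
    Real.sqrt |F.dl r| * |F.sl r| ≤ (C * P ^ C) ^ 2 := by
  obtain ⟨C, hC, h⟩ := root_bounds
  refine ⟨C, hC, ?_⟩
  intro F ha hD r hr P hP
  obtain ⟨b1, b2, b3, b4, b5, b6, b7⟩ := h F ha hD r hr
  have hC0 : 0 ≤ C := by linarith
  have hht0 : 0 ≤ (F.ht : ℝ) := by linarith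
  have hpow : (F.ht : ℝ) ^ C ≤ P ^ C := Real.rpow_le_rpow hht0 hP hC0
  have hK : C * (F.ht : ℝ) ^ C ≤ C * P ^ C := mul_le_mul_of_nonneg_left hpow hC0
  have hK1 : 1 ≤ C * P ^ C := by
    have : 1 ≤ (F.ht : ℝ) ^ C := Real.one_le_rpow b7 hC0
    exact one_le_mul_of_one_le_of_one_le hC (this.trans hpow)
  set K := C * P ^ C with hKdef
  have hq2 : (Real.sqrt |F.dl r| * |F.sl r|) ^ 2 = |(F.disc : ℝ)| := by
    rw [mul_pow, Real.sq_sqrt (abs_nonneg _), disc_eq F r hr, abs_mul, sq_abs, abs_of_nonneg (sq_nonneg (F.sl r))]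
  have hq0 : 0 ≤ Real.sqrt |F.dl r| * |F.sl r| := by positivity
  have hsK : Real.sqrt |F.dl r| ≤ K := by
    rw [Real.sqrt_le_left (by linarith)]
    calc |F.dl r| ≤ K := b2.trans hK
      _ ≤ K ^ 2 := by rw [sq]; exact le_mul_of_one_le_left (by linarith) hK1
  refine ⟨b7, hK1, b1.trans hK, ?_, ?_, ?_, ?_⟩
  · exact b5.trans (mul_le_mul_of_nonneg_left hK (abs_nonneg _))
  · have h1 : 1 ≤ |F.dl r| * K := b4.trans (mul_le_mul_of_nonneg_left hK (abs_nonneg _))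
    have h2 : 1 ≤ (Real.sqrt |F.dl r| * K) ^ 2 := by
      rw [mul_pow, Real.sq_sqrt (abs_nonneg _)]
      calc 1 ≤ |F.dl r| * K := h1
        _ ≤ |F.dl r| * K ^ 2 := mul_le_mul_of_nonneg_left (by rw [sq]; exact le_mul_of_one_le_left (by linarith) hK1) (abs_nonneg _)
    have h3 : 0 ≤ Real.sqrt |F.dl r| * K := by positivity
    exact (one_le_sq_iff₀ h3).1 h2
  · exact (one_le_sq_iff₀ hq0).1 (by rw [hq2]; exact b6)
  · rw [sq]
    exact mul_le_mul hsK (b3.trans hK) (abs_nonneg _) (by linarith)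

theorem gap_count : ∃ C : ℝ, 1 ≤ C ∧ ∀ (F : Cub), F.Irr → F.disc ≠ 0 → ∀ (T E : ℝ), 1 ≤ T →
    1 ≤ E → ∀ S : Finset (ℤ × ℤ),
    (∀ z ∈ S, 0 < F.val z ∧ (F.val z : ℝ) ≤ T ∧ C * ((F.ht : ℝ) * T) ^ C ≤ |(F.hes z : ℝ)| ∧
      |(F.hes z : ℝ)| ≤ Real.exp E) →
    (∀ z ∈ S, ∀ w ∈ S, z ≠ w → wedge z w ≠ 0) →
    (S.card : ℝ) ≤ C * (1 + Real.log E) := by
  obtain ⟨K, hK, hb⟩ := d2_bounds
  have hK4 : 0 < K ^ 4 := by positivity
  refine ⟨48 * K ^ 4 + 1296 + 4 * K, by linarith, ?_⟩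
  set C := 48 * K ^ 4 + 1296 + 4 * K with hC
  have hCpos : 0 < C := by positivity
  intro F hF hD T E hT hE S hS hw
  classical
  have ha := d2_a_ne F hF
  obtain ⟨R, hR, hRr, hRz⟩ := exists_roots F ha hD
  -- the good part for one root
  have part : ∀ r ∈ R, ((S.filter (fun z => F.dl r < 0 ∨
      (0 < F.dl r ∧ 2 * Real.sqrt (F.dl r) * |U r z| ≤ |F.V r z|))).card : ℝ) ≤
      4 * (1 + Real.log E) := by
    intro r hr
    obtain ⟨hroot, -, -⟩ := hRr r hr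
    obtain ⟨c1, -, -, -, -, -, -⟩ := hb F ha hD r hroot (F.ht : ℝ) le_rfl
    have hP0 : (F.ht : ℝ) ≤ (F.ht : ℝ) * T := le_mul_of_one_le_right (by linarith) hT
    obtain ⟨-, c2, c3, c4, c5, c6, c7⟩ := hb F ha hD r hroot ((F.ht : ℝ) * T) hP0
    set P := (F.ht : ℝ) * T with hP
    set κ := K * P ^ K with hκ
    set q := Real.sqrt |F.dl r| * |F.sl r| with hq
    have hP1 : 1 ≤ P := one_le_mul_of_one_le_of_one_le c1 hT
    have hTP : T ≤ P := le_mul_of_one_le_left (by linarith) c1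
    have hq0 : 0 < q := by linarith
    -- the size of the constant
    have hbig1 : 48 * κ ^ 4 * P ^ 2 ≤ C * P ^ C := by
      have e : 48 * κ ^ 4 * P ^ 2 = 48 * K ^ 4 * P ^ (4 * K + 2) := by
        have hPp : 0 < P := by linarith
        rw [hκ, mul_pow, Real.rpow_add hPp, mul_comm (4 : ℝ) K, Real.rpow_mul hPp.le]
        norm_num
        ring
      rw [e]
      have h1 : P ^ (4 * K + 2) ≤ P ^ C := Real.rpow_le_rpow_of_exponent_le hP1 (by rw [hC]; linarith)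
      calc 48 * K ^ 4 * P ^ (4 * K + 2) ≤ 48 * K ^ 4 * P ^ C :=
            mul_le_mul_of_nonneg_left h1 (by positivity)
        _ ≤ C * P ^ C := mul_le_mul_of_nonneg_right (by rw [hC]; linarith) (by positivity)
    have hbig2 : 1296 * P ^ 4 ≤ C * P ^ C := by
      have h1 : P ^ (4 : ℝ) ≤ P ^ C := Real.rpow_le_rpow_of_exponent_le hP1 (by rw [hC]; linarith)
      have h2 : P ^ (4 : ℝ) = P ^ 4 := by norm_num
      rw [h2] at h1
      calc 1296 * P ^ 4 ≤ 1296 * P ^ C := mul_le_mul_of_nonneg_left h1 (by norm_num)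
        _ ≤ C * P ^ C := mul_le_mul_of_nonneg_right (by rw [hC]; linarith) (by positivity)
    -- pointwise facts
    have pt : ∀ z ∈ S.filter (fun z => F.dl r < 0 ∨
        (0 < F.dl r ∧ 2 * Real.sqrt (F.dl r) * |U r z| ≤ |F.V r z|)),
        (Real.sqrt |F.dl r| * |U r z|) * |F.V r z| ^ 2 ≤ 6 * q * T ∧ 36 * T ^ 2 ≤ |F.V r z| ∧
        |F.V r z| ^ 2 ≤ 5 * Real.exp E := by
      intro z hz
      rw [Finset.mem_filter] at hz
      obtain ⟨hzS, hzg⟩ := hz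
      obtain ⟨v0, v1, v2, v3⟩ := hS z hzS
      have habs : |(F.val z : ℝ)| ≤ T := by
        rw [abs_of_pos (by exact_mod_cast v0)]; exact v1
      obtain ⟨g1, g2, g3⟩ := d2_good F r hroot z T hzg habs
      rw [← hq] at g1 g2
      set A := Real.sqrt |F.dl r| * |U r z| with hA
      have hA0 : 0 ≤ A := by rw [hA]; positivity
      have hM1 : 1 ≤ 4 * q * T := by
        have : 1 ≤ q * T := one_le_mul_of_one_le_of_one_le c6 hT
        linarith
      have hAM : A ≤ 4 * q * T := d2_cube hM1 g1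
      have hM2 : 4 * q * T ≤ 4 * κ ^ 2 * P := by
        have : q * T ≤ κ ^ 2 * P := mul_le_mul c7 hTP (by linarith) (by positivity)
        linarith
      have hA2 : 3 * A ^ 2 ≤ 48 * κ ^ 4 * P ^ 2 := by
        have : A ^ 2 ≤ (4 * κ ^ 2 * P) ^ 2 := pow_le_pow_left₀ hA0 (hAM.trans hM2) 2
        calc 3 * A ^ 2 ≤ 3 * (4 * κ ^ 2 * P) ^ 2 := by linarith
          _ = 48 * κ ^ 4 * P ^ 2 := by ring
      have hAh : 3 * A ^ 2 ≤ |(F.hes z : ℝ)| := hA2.trans (hbig1.trans v2)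
      have h4 : |4 * (F.hes z : ℝ)| = 4 * |(F.hes z : ℝ)| := by rw [abs_mul]; norm_num
      have l1 : |F.V r z| ^ 2 ≤ 5 * |(F.hes z : ℝ)| := by
        have := abs_sub_abs_le_abs_sub (|F.V r z| ^ 2) (4 * (F.hes z : ℝ))
        rw [abs_of_nonneg (sq_nonneg |F.V r z|), h4, abs_sub_comm] at this
        linarith
      have l2 : 3 * |(F.hes z : ℝ)| ≤ |F.V r z| ^ 2 := by
        have := abs_sub_abs_le_abs_sub (4 * (F.hes z : ℝ)) (|F.V r z| ^ 2)
        rw [abs_of_nonneg (sq_nonneg |F.V r z|), h4] at this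
        linarith
      refine ⟨g2, ?_, ?_⟩
      · have l3 : 1296 * P ^ 4 ≤ |F.V r z| ^ 2 := by
          have := hbig2.trans v2
          have h5 : 0 ≤ |(F.hes z : ℝ)| := abs_nonneg _
          linarith
        have l4 : (36 * T ^ 2) ^ 2 ≤ |F.V r z| ^ 2 := by
          have h6 : T ^ 4 ≤ P ^ 4 := pow_le_pow_left₀ (by linarith) hTP 4
          calc (36 * T ^ 2) ^ 2 = 1296 * T ^ 4 := by ring
            _ ≤ 1296 * P ^ 4 := by linarith
            _ ≤ _ := l3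
        exact d2_le_of_sq l4 (abs_nonneg _)
      · linarith
    -- count
    have hcount := d2_count (S.filter (fun z => F.dl r < 0 ∨
      (0 < F.dl r ∧ 2 * Real.sqrt (F.dl r) * |U r z| ≤ |F.V r z|)))
      (fun z => Real.log |F.V r z|) (2 * E) ?_ ?_ ?_ (by linarith)
    · have hl : 1 / 3 ≤ Real.log (3 / 2) := by
        have := Real.one_sub_inv_le_log_of_pos (show (0 : ℝ) < 3 / 2 by norm_num)
        norm_num at this
        linarith
      have hlE : 0 ≤ Real.log E := Real.log_nonneg hE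
      have hl2 : Real.log (2 * E) ≤ 1 + Real.log E := by
        rw [Real.log_mul (by norm_num) (by linarith)]
        have := Real.log_two_lt_d9
        linarith
      have hdiv : Real.log (2 * E) / Real.log (3 / 2) ≤ 3 * (1 + Real.log E) := by
        rw [div_le_iff₀ (by linarith)]
        nlinarith
      linarith
    · intro z hz
      obtain ⟨-, p2, -⟩ := pt z hz
      have : Real.exp 1 ≤ |F.V r z| := by
        have h7 := Real.exp_one_lt_d9
        nlinarith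
      exact (Real.le_log_iff_exp_le (lt_of_lt_of_le (Real.exp_pos 1) this)).2 this
    · intro z hz
      obtain ⟨-, p2, p3⟩ := pt z hz
      have hv : 0 < |F.V r z| := lt_of_lt_of_le (by positivity) p2
      have h8 : Real.log (|F.V r z| ^ 2) ≤ Real.log (5 * Real.exp E) :=
        Real.log_le_log (by positivity) p3
      rw [Real.log_pow, Real.log_mul (by norm_num) (Real.exp_pos E).ne', Real.log_exp] at h8
      have h9 : Real.log 5 ≤ 2 := by
        rw [Real.log_le_iff_le_exp (by norm_num)]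
        have := Real.exp_one_gt_d9
        have e2 : Real.exp 2 = Real.exp 1 * Real.exp 1 := by rw [← Real.exp_add]; norm_num
        rw [e2]; nlinarith
      push_cast at h8
      show Real.log |F.V r z| ≤ 2 * E
      linarith
    · intro z hz w hw' hne hle
      obtain ⟨p1, p2, -⟩ := pt z hz
      obtain ⟨q1, q2, -⟩ := pt w hw'
      have hvz : 0 < |F.V r z| := lt_of_lt_of_le (by positivity) p2
      have hvw : 0 < |F.V r w| := lt_of_lt_of_le (by positivity) q2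
      have hle' : |F.V r z| ≤ |F.V r w| := (Real.log_le_log_iff hvz hvw).1 hle
      have hwd := d2_wedge F r hroot z w
      rw [← hq] at hwd
      have hw1 : (1 : ℝ) ≤ |(wedge z w : ℝ)| := by
        have := hw z (Finset.mem_filter.1 hz).1 w (Finset.mem_filter.1 hw').1 hne
        have h10 : 1 ≤ |wedge z w| := Int.one_le_abs this
        exact_mod_cast h10
      have h11 : 2 * q ≤ (Real.sqrt |F.dl r| * |U r z|) * |F.V r w| +
          (Real.sqrt |F.dl r| * |U r w|) * |F.V r z| := by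
        refine le_trans ?_ hwd
        have := mul_le_mul_of_nonneg_left hw1 (show 0 ≤ 2 * q by linarith)
        linarith
      have h12 := d2_gap hq0 hT (by positivity) p1 q1 p2 hle' h11
      have h13 : Real.log (|F.V r z| ^ 3) ≤ Real.log (|F.V r w| ^ 2) :=
        Real.log_le_log (by positivity) h12
      rw [Real.log_pow, Real.log_pow] at h13
      push_cast at h13
      show 3 / 2 * Real.log |F.V r z| ≤ Real.log |F.V r w|
      linarith
  -- union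
  have hsub : S ⊆ R.biUnion (fun r => S.filter (fun z => F.dl r < 0 ∨
      (0 < F.dl r ∧ 2 * Real.sqrt (F.dl r) * |U r z| ≤ |F.V r z|))) := by
    intro z hz
    obtain ⟨r, hr, hg⟩ := hRz z
    rw [Finset.mem_biUnion]
    exact ⟨r, hr, Finset.mem_filter.2 ⟨hz, hg⟩⟩
  have hc1 : (S.card : ℝ) ≤ ∑ r ∈ R, ((S.filter (fun z => F.dl r < 0 ∨
      (0 < F.dl r ∧ 2 * Real.sqrt (F.dl r) * |U r z| ≤ |F.V r z|))).card : ℝ) := by
    have := (Finset.card_le_card hsub).trans Finset.card_biUnion_le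
    exact_mod_cast this
  have hc2 : ∑ r ∈ R, ((S.filter (fun z => F.dl r < 0 ∨
      (0 < F.dl r ∧ 2 * Real.sqrt (F.dl r) * |U r z| ≤ |F.V r z|))).card : ℝ) ≤
      (R.card : ℝ) * (4 * (1 + Real.log E)) := by
    rw [← nsmul_eq_mul]
    exact Finset.sum_le_card_nsmul R _ _ part
  have hlE : 0 ≤ Real.log E := Real.log_nonneg hE
  have hR' : (R.card : ℝ) ≤ 3 := by exact_mod_cast hR
  calc (S.card : ℝ) ≤ (R.card : ℝ) * (4 * (1 + Real.log E)) := hc1.trans hc2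
    _ ≤ 3 * (4 * (1 + Real.log E)) := mul_le_mul_of_nonneg_right hR' (by linarith)
    _ ≤ C * (1 + Real.log E) := by
        have : (12 : ℝ) ≤ C := by rw [hC]; linarith
        have h20 := mul_le_mul_of_nonneg_right this (show 0 ≤ 1 + Real.log E by linarith)
        linarith

theorem coord_le : ∃ C : ℝ, 1 ≤ C ∧ ∀ (F : Cub), F.Irr → F.disc ≠ 0 → ∀ (T B : ℝ), 1 ≤ T →
    1 ≤ B → ∀ z : ℤ × ℤ, |(F.val z : ℝ)| ≤ T → |(F.hes z : ℝ)| ≤ B →
    |(z.1 : ℝ)| ≤ C * ((F.ht : ℝ) * T * B) ^ C ∧ |(z.2 : ℝ)| ≤ C * ((F.ht : ℝ) * T * B) ^ C := by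
  obtain ⟨K, hK, hb⟩ := d2_bounds
  have hK6 : 0 < K ^ 6 := by positivity
  refine ⟨20 * K ^ 6 + 6 * K + 2, by linarith, ?_⟩
  set C := 20 * K ^ 6 + 6 * K + 2 with hC
  have hCpos : 0 < C := by positivity
  intro F hF hD T B hT hB z hval hhes
  have ha := d2_a_ne F hF
  obtain ⟨R, -, hRr, hRz⟩ := exists_roots F ha hD
  obtain ⟨r, hr, hzg⟩ := hRz z
  obtain ⟨hroot, hsl, -⟩ := hRr r hr
  obtain ⟨c1, -, -, -, -, -, -⟩ := hb F ha hD r hroot (F.ht : ℝ) le_rfl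
  have hTB : 1 ≤ T * B := one_le_mul_of_one_le_of_one_le hT hB
  have hP0 : (F.ht : ℝ) ≤ (F.ht : ℝ) * T * B := by
    rw [mul_assoc]; exact le_mul_of_one_le_right (by linarith) hTB
  obtain ⟨-, c2, c3, c4, c5, c6, c7⟩ := hb F ha hD r hroot ((F.ht : ℝ) * T * B) hP0
  set Q := (F.ht : ℝ) * T * B with hQ
  set κ := K * Q ^ K with hκ
  set q := Real.sqrt |F.dl r| * |F.sl r| with hq
  have hhT : T ≤ (F.ht : ℝ) * T := le_mul_of_one_le_left (by linarith) c1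
  have hTQ : T ≤ Q := by
    calc T ≤ (F.ht : ℝ) * T := hhT
      _ ≤ (F.ht : ℝ) * T * B := le_mul_of_one_le_right (by linarith) hB
  have hBQ : B ≤ Q := by
    have : 1 ≤ (F.ht : ℝ) * T := hT.trans hhT
    rw [hQ]; exact le_mul_of_one_le_left (by linarith) this
  have hQ1 : 1 ≤ Q := hT.trans hTQ
  have hq0 : 0 < q := by linarith
  have hκ0 : 0 < κ := by linarith
  obtain ⟨g1, g2, g3⟩ := d2_good F r hroot z T hzg hval
  rw [← hq] at g1 g2
  set A := Real.sqrt |F.dl r| * |U r z| with hA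
  have hA0 : 0 ≤ A := by rw [hA]; positivity
  have hM1 : 1 ≤ 4 * q * T := by
    have : 1 ≤ q * T := one_le_mul_of_one_le_of_one_le c6 hT
    linarith
  have hAM : A ≤ 4 * q * T := d2_cube hM1 g1
  have hM2 : 4 * q * T ≤ 4 * κ ^ 2 * Q := by
    have : q * T ≤ κ ^ 2 * Q := mul_le_mul c7 hTQ (by linarith) (by positivity)
    linarith
  have hAκ : A ≤ 4 * κ ^ 2 * Q := hAM.trans hM2
  have hA2 : 3 * A ^ 2 ≤ 48 * κ ^ 4 * Q ^ 2 := by
    have : A ^ 2 ≤ (4 * κ ^ 2 * Q) ^ 2 := pow_le_pow_left₀ hA0 hAκ 2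
    calc 3 * A ^ 2 ≤ 3 * (4 * κ ^ 2 * Q) ^ 2 := by linarith
      _ = 48 * κ ^ 4 * Q ^ 2 := by ring
  have h4 : |4 * (F.hes z : ℝ)| = 4 * |(F.hes z : ℝ)| := by rw [abs_mul]; norm_num
  have l1 : |F.V r z| ^ 2 ≤ 4 * |(F.hes z : ℝ)| + 3 * A ^ 2 := by
    have := abs_sub_abs_le_abs_sub (|F.V r z| ^ 2) (4 * (F.hes z : ℝ))
    rw [abs_of_nonneg (sq_nonneg |F.V r z|), h4, abs_sub_comm] at this
    linarith
  have hκ4 : 1 ≤ κ ^ 4 := one_le_pow₀ c2
  have hV : |F.V r z| ≤ 8 * κ ^ 2 * Q := by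
    have l2 : |F.V r z| ^ 2 ≤ (8 * κ ^ 2 * Q) ^ 2 := by
      have h5 : 4 * |(F.hes z : ℝ)| ≤ 4 * κ ^ 4 * Q ^ 2 := by
        have h6 : |(F.hes z : ℝ)| ≤ Q := hhes.trans hBQ
        have h7 : Q ≤ Q ^ 2 := by rw [sq]; exact le_mul_of_one_le_left (by linarith) hQ1
        have h8 : Q ^ 2 ≤ κ ^ 4 * Q ^ 2 := by
          have : 0 ≤ Q ^ 2 := by positivity
          exact le_mul_of_one_le_left this hκ4
        linarith
      calc |F.V r z| ^ 2 ≤ 4 * κ ^ 4 * Q ^ 2 + 48 * κ ^ 4 * Q ^ 2 := by linarith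
        _ ≤ (8 * κ ^ 2 * Q) ^ 2 := by
            have : 0 ≤ κ ^ 4 * Q ^ 2 := by positivity
            linarith
    exact d2_le_of_sq l2 (by positivity)
  have hU : |U r z| ≤ 4 * κ ^ 3 * Q := by
    have h5 : |U r z| * 1 ≤ |U r z| * (Real.sqrt |F.dl r| * κ) :=
      mul_le_mul_of_nonneg_left c5 (abs_nonneg _)
    have h6 : |U r z| * (Real.sqrt |F.dl r| * κ) = A * κ := by rw [hA]; ring
    rw [h6, mul_one] at h5
    calc |U r z| ≤ A * κ := h5
      _ ≤ 4 * κ ^ 2 * Q * κ := mul_le_mul_of_nonneg_right hAκ hκ0.le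
      _ = 4 * κ ^ 3 * Q := by ring
  have hht : |F.a| + |F.b| + |F.c| + |F.d| = F.ht := rfl
  have hhQ : (F.ht : ℝ) ≤ Q := hP0
  have hsum : |(F.a : ℝ)| + |(F.b : ℝ)| + |(F.c : ℝ)| + |(F.d : ℝ)| ≤ Q := by
    have : ((|F.a| + |F.b| + |F.c| + |F.d| : ℤ) : ℝ) ≤ Q := by rw [hht]; exact hhQ
    push_cast at this
    exact this
  have pa := abs_nonneg (F.a : ℝ)
  have pb := abs_nonneg (F.b : ℝ)
  have pc := abs_nonneg (F.c : ℝ)
  have pd := abs_nonneg (F.d : ℝ)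
  have ha' : |(F.a : ℝ)| ≤ Q := by linarith
  have hb' : |(F.b : ℝ)| ≤ Q := by linarith
  have hc' : |(F.c : ℝ)| ≤ Q := by linarith
  have hQ0 : 0 < Q := by linarith
  have hα : |3 * (F.a : ℝ) * r + F.b| ≤ 4 * Q * κ := by
    have e1 : |3 * (F.a : ℝ) * r| ≤ 3 * Q * κ := by
      rw [abs_mul, abs_mul]
      have : |(3 : ℝ)| = 3 := by norm_num
      rw [this]
      exact mul_le_mul (by linarith) c3 (abs_nonneg _) (by positivity)
    have e2 : Q ≤ Q * κ := le_mul_of_one_le_right (by linarith) c2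
    calc |3 * (F.a : ℝ) * r + F.b| ≤ |3 * (F.a : ℝ) * r| + |(F.b : ℝ)| := abs_add_le _ _
      _ ≤ 3 * Q * κ + Q * κ := by linarith
      _ = 4 * Q * κ := by ring
  have hβ : |3 * (F.a : ℝ) * r ^ 2 + 3 * F.b * r + 2 * F.c| ≤ 8 * Q * κ ^ 2 := by
    have h3 : |(3 : ℝ)| = 3 := by norm_num
    have h2' : |(2 : ℝ)| = 2 := by norm_num
    have e1 : |3 * (F.a : ℝ) * r ^ 2| ≤ 3 * Q * κ ^ 2 := by
      rw [abs_mul, abs_mul, h3, abs_pow]
      exact mul_le_mul (by linarith) (pow_le_pow_left₀ (abs_nonneg _) c3 2) (by positivity)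
        (by positivity)
    have e2 : |3 * (F.b : ℝ) * r| ≤ 3 * Q * κ := by
      rw [abs_mul, abs_mul, h3]
      exact mul_le_mul (by linarith) c3 (abs_nonneg _) (by positivity)
    have e3 : |2 * (F.c : ℝ)| ≤ 2 * Q := by
      rw [abs_mul, h2']; linarith
    have e4 : κ ≤ κ ^ 2 := by rw [sq]; exact le_mul_of_one_le_left (by linarith) c2
    have e5 : Q * κ ≤ Q * κ ^ 2 := mul_le_mul_of_nonneg_left e4 hQ0.le
    have e6 : Q ≤ Q * κ ^ 2 := by
      have : Q ≤ Q * κ := le_mul_of_one_le_right (by linarith) c2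
      linarith
    calc |3 * (F.a : ℝ) * r ^ 2 + 3 * F.b * r + 2 * F.c|
        ≤ |3 * (F.a : ℝ) * r ^ 2 + 3 * F.b * r| + |2 * (F.c : ℝ)| := abs_add_le _ _
      _ ≤ |3 * (F.a : ℝ) * r ^ 2| + |3 * (F.b : ℝ) * r| + |2 * (F.c : ℝ)| := by
          have := abs_add_le (3 * (F.a : ℝ) * r ^ 2) (3 * F.b * r)
          linarith
      _ ≤ 3 * Q * κ ^ 2 + 3 * (Q * κ ^ 2) + 2 * (Q * κ ^ 2) := by linarith
      _ = 8 * Q * κ ^ 2 := by ring
  have hx : 2 * F.sl r * (z.1 : ℝ) =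
      (3 * (F.a : ℝ) * r ^ 2 + 3 * F.b * r + 2 * F.c) * U r z + r * F.V r z := by
    unfold U V sl; ring
  have hy : 2 * F.sl r * (z.2 : ℝ) = F.V r z - (3 * (F.a : ℝ) * r + F.b) * U r z := by
    unfold U V sl; ring
  have hκp : ∀ m n : ℕ, m ≤ n → κ ^ m ≤ κ ^ n := fun m n h => pow_le_pow_right₀ c2 h
  have hQ2 : Q ≤ Q ^ 2 := by rw [sq]; exact le_mul_of_one_le_left (by linarith) hQ1
  have bx : |2 * F.sl r * (z.1 : ℝ)| ≤ 40 * κ ^ 5 * Q ^ 2 := by
    rw [hx]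
    calc |(3 * (F.a : ℝ) * r ^ 2 + 3 * F.b * r + 2 * F.c) * U r z + r * F.V r z|
        ≤ |(3 * (F.a : ℝ) * r ^ 2 + 3 * F.b * r + 2 * F.c) * U r z| + |r * F.V r z| := abs_add_le _ _
      _ ≤ (8 * Q * κ ^ 2) * (4 * κ ^ 3 * Q) + κ * (8 * κ ^ 2 * Q) := by
          rw [abs_mul, abs_mul]
          exact add_le_add (mul_le_mul hβ hU (abs_nonneg _) (by positivity))
            (mul_le_mul c3 hV (abs_nonneg _) hκ0.le)
      _ = 32 * κ ^ 5 * Q ^ 2 + 8 * (κ ^ 3 * Q) := by ring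
      _ ≤ 32 * κ ^ 5 * Q ^ 2 + 8 * (κ ^ 5 * Q ^ 2) := by
          have := mul_le_mul (hκp 3 5 (by norm_num)) hQ2 hQ0.le (by positivity)
          linarith
      _ = 40 * κ ^ 5 * Q ^ 2 := by ring
  have by' : |2 * F.sl r * (z.2 : ℝ)| ≤ 40 * κ ^ 5 * Q ^ 2 := by
    rw [hy]
    calc |F.V r z - (3 * (F.a : ℝ) * r + F.b) * U r z|
        ≤ |F.V r z| + |(3 * (F.a : ℝ) * r + F.b) * U r z| := abs_sub _ _
      _ ≤ 8 * κ ^ 2 * Q + (4 * Q * κ) * (4 * κ ^ 3 * Q) := by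
          rw [abs_mul]
          exact add_le_add hV (mul_le_mul hα hU (abs_nonneg _) (by positivity))
      _ = 8 * (κ ^ 2 * Q) + 16 * (κ ^ 4 * Q ^ 2) := by ring
      _ ≤ 8 * (κ ^ 5 * Q ^ 2) + 16 * (κ ^ 5 * Q ^ 2) := by
          have t1 := mul_le_mul (hκp 2 5 (by norm_num)) hQ2 hQ0.le (by positivity)
          have t2 := mul_le_mul_of_nonneg_right (hκp 4 5 (by norm_num)) (sq_nonneg Q)
          linarith
      _ ≤ 40 * κ ^ 5 * Q ^ 2 := by
          have : 0 ≤ κ ^ 5 * Q ^ 2 := by positivity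
          linarith
  have fin : ∀ t : ℝ, |2 * F.sl r * t| ≤ 40 * κ ^ 5 * Q ^ 2 → |t| ≤ C * Q ^ C := by
    intro t ht
    rw [abs_mul, abs_mul] at ht
    have h2' : |(2 : ℝ)| = 2 := by norm_num
    rw [h2'] at ht
    have t1 : |t| * 1 ≤ |t| * (|F.sl r| * κ) := mul_le_mul_of_nonneg_left c4 (abs_nonneg _)
    have t2 : |t| ≤ 20 * κ ^ 6 * Q ^ 2 := by
      have t3 : 2 * |F.sl r| * |t| * κ ≤ 40 * κ ^ 5 * Q ^ 2 * κ :=
        mul_le_mul_of_nonneg_right ht hκ0.le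
      have t4 : 40 * κ ^ 5 * Q ^ 2 * κ = 40 * κ ^ 6 * Q ^ 2 := by ring
      rw [t4] at t3
      linarith
    have e : 20 * κ ^ 6 * Q ^ 2 = 20 * K ^ 6 * Q ^ (6 * K + 2) := by
      rw [hκ, mul_pow, Real.rpow_add hQ0, mul_comm (6 : ℝ) K, Real.rpow_mul hQ0.le]
      norm_num
      ring
    have h1 : Q ^ (6 * K + 2) ≤ Q ^ C := Real.rpow_le_rpow_of_exponent_le hQ1 (by rw [hC]; linarith)
    calc |t| ≤ 20 * K ^ 6 * Q ^ (6 * K + 2) := by rw [← e]; exact t2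
      _ ≤ 20 * K ^ 6 * Q ^ C := mul_le_mul_of_nonneg_left h1 (by positivity)
      _ ≤ C * Q ^ C := mul_le_mul_of_nonneg_right (by rw [hC]; linarith) (by positivity)
  exact ⟨fin _ bx, fin _ by'⟩

end Pool.Agent.Lib.SqPart
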