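import Pool.Agent.Lib.MP_d8bd92_nt.SqDefs

set_option autoImplicit false

/-!
Classes of simple roots modulo `m`.

PROOF. For a prime p | m: F mod p is not the zero form (hes z is not 0 mod p for z in S; if S is empty nothing to
prove), so F mod p has at most 3 zeros in the projective line over ZMod p. For z in S let ρ_p(z) be the
class of z mod p in the projective line (z is not 0 mod p by coprimality); normal form: (x : 1) ↦ x/y in ZMod p,
or infinity = none : Option (ZMod p). The map z ↦ (ρ_p(z))_{p | m} is injective on S: if z, w have the same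
image then p | wedge z w for all p | m, and then p^k | wedge z w for p^k || m: choose u, v with x v - y u = 1
(z = (x,y)); w = s z + t (u,v) with t = wedge z w, s, t integers; F.val w = F'(s,t) with F' = F.sub x u y v =
(n', b', c', d'), n' = F.val z = 0 mod p^k, b'^2 - 3n'c' = F.hes z, so p does not divide b'. F'(s,t) =
n's^3 + t (b's^2 + c'st + d't^2) = 0 mod p^k, p | t, s not 0 mod p (w coprime), so the bracket is prime to p and p^k | t.
So m | wedge z w and z = w. Hence |S| <= 3^(number of primes dividing m) <= C m^ε.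
-/

namespace Pool.Agent.Lib.SqPart

open Finset

/-- `3^ω(m) ≤ C m^ε` -/
theorem d3_three_pow (ε : ℝ) (hε : 0 < ε) : ∃ C : ℝ, 0 < C ∧ ∀ m : ℕ, 1 ≤ m →
    ((3 : ℝ) ^ m.primeFactors.card) ≤ C * (m : ℝ) ^ ε := by
  obtain ⟨B, hB⟩ := exists_nat_gt ((3 : ℝ) ^ (1 / ε))
  refine ⟨(3 : ℝ) ^ B, by positivity, fun m hm => ?_⟩
  have h1 : ∀ p ∈ m.primeFactors, (3 : ℝ) ≤ (if p < B then 3 else 1) * (p : ℝ) ^ ε := by
    intro p hp
    have hp1 : (1 : ℝ) ≤ p := by exact_mod_cast (Nat.prime_of_mem_primeFactors hp).one_lt.le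
    split_ifs with h
    · have := Real.one_le_rpow hp1 hε.le
      linarith
    · rw [one_mul]
      have h2 : (3 : ℝ) ^ (1 / ε) ≤ p := hB.le.trans (by exact_mod_cast not_lt.1 h)
      calc (3 : ℝ) = ((3 : ℝ) ^ (1 / ε)) ^ ε := by
            rw [← Real.rpow_mul (by norm_num), one_div_mul_cancel hε.ne', Real.rpow_one]
        _ ≤ (p : ℝ) ^ ε := Real.rpow_le_rpow (by positivity) h2 hε.le
  have h2 : (3 : ℝ) ^ m.primeFactors.card ≤
      ∏ p ∈ m.primeFactors, ((if p < B then 3 else 1) * (p : ℝ) ^ ε) := by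
    rw [← Finset.prod_const]
    exact Finset.prod_le_prod (fun _ _ => by norm_num) h1
  refine h2.trans ?_
  rw [Finset.prod_mul_distrib]
  refine mul_le_mul ?_ ?_ (Finset.prod_nonneg fun p _ => by positivity) (by positivity)
  · rw [Finset.prod_ite, Finset.prod_const, Finset.prod_const_one, mul_one]
    refine pow_le_pow_right₀ (by norm_num) ?_
    calc (m.primeFactors.filter (fun p => p < B)).card ≤ (Finset.range B).card := by
          refine Finset.card_le_card fun p hp => ?_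
          rw [Finset.mem_filter] at hp
          exact Finset.mem_range.2 hp.2
      _ = B := Finset.card_range B
  · rw [Real.finsetProd_rpow _ _ (fun p _ => by positivity)]
    refine Real.rpow_le_rpow (Finset.prod_nonneg fun p _ => by positivity) ?_ hε.le
    have h3 : ∏ p ∈ m.primeFactors, p ≤ m := Nat.le_of_dvd hm (Nat.prod_primeFactors_dvd m)
    have h4 : ((∏ p ∈ m.primeFactors, p : ℕ) : ℝ) ≤ m := Nat.cast_le.2 h3
    rwa [Nat.cast_prod] at h4

/-- uniqueness of the lift of a simple root -/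
theorem d3_lift {F : Cub} {p : ℕ} (hp : p.Prime) (k : ℕ) {z w : ℤ × ℤ} (hz : IsCoprime z.1 z.2)
    (hw : IsCoprime w.1 w.2) (h1 : ((p : ℤ) ^ k) ∣ F.val z) (h2 : ((p : ℤ) ^ k) ∣ F.val w)
    (h3 : ¬ (p : ℤ) ∣ F.hes z) (h4 : (p : ℤ) ∣ wedge z w) : ((p : ℤ) ^ k) ∣ wedge z w := by
  rcases Nat.eq_zero_or_pos k with rfl | hk
  · simp
  have hpi : Prime (p : ℤ) := Nat.prime_iff_prime_int.1 hp
  obtain ⟨x, y⟩ := z
  obtain ⟨w1, w2⟩ := w
  obtain ⟨v, u', huv⟩ := hz
  simp only at huv hw
  set u : ℤ := -u' with hu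
  have hdet : x * v - y * u = 1 := by rw [hu]; linarith
  set s : ℤ := w1 * v - w2 * u with hs
  set t : ℤ := x * w2 - y * w1 with ht
  have hwt : wedge (x, y) (w1, w2) = t := rfl
  rw [hwt] at h4 ⊢
  have e1 : w1 = x * s + u * t := by
    rw [hs, ht]; linear_combination -w1 * hdet
  have e2 : w2 = y * s + v * t := by
    rw [hs, ht]; linear_combination -w2 * hdet
  set G : Cub := F.sub x u y v with hG
  have ea : G.a = F.val (x, y) := by
    rw [hG]; unfold Cub.sub Cub.val; simp only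
  have eh : G.b ^ 2 - 3 * G.a * G.c = F.hes (x, y) := by
    have h5 : G.b ^ 2 - 3 * G.a * G.c = F.hes (x, y) * (x * v - y * u) ^ 2 := by
      rw [hG]; unfold Cub.sub Cub.hes; simp only; ring
    rw [h5, hdet]; ring
  have ev : F.val (w1, w2) = G.a * s ^ 3 + t * (G.b * s ^ 2 + G.c * s * t + G.d * t ^ 2) := by
    have h5 : F.val (w1, w2) = F.val (x * s + u * t, y * s + v * t) := by rw [← e1, ← e2]
    rw [h5, hG]; unfold Cub.sub Cub.val; simp only; ring
  have h5 : ((p : ℤ) ^ k) ∣ t * (G.b * s ^ 2 + G.c * s * t + G.d * t ^ 2) := by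
    have h6 : t * (G.b * s ^ 2 + G.c * s * t + G.d * t ^ 2) = F.val (w1, w2) - G.a * s ^ 3 := by
      rw [ev]; ring
    rw [h6, ea]
    exact dvd_sub h2 (Dvd.dvd.mul_right h1 _)
  have hpa : (p : ℤ) ∣ G.a := by
    rw [ea]; exact (dvd_pow_self _ hk.ne').trans h1
  have hpb : ¬ (p : ℤ) ∣ G.b := by
    intro hb
    apply h3
    rw [← eh]
    exact dvd_sub (dvd_pow hb (by norm_num)) (Dvd.dvd.mul_right (Dvd.dvd.mul_left hpa _) _)
  have hps : ¬ (p : ℤ) ∣ s := by
    intro h
    have g1 : (p : ℤ) ∣ w1 := by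
      rw [e1]; exact dvd_add (Dvd.dvd.mul_left h _) (Dvd.dvd.mul_left h4 _)
    have g2 : (p : ℤ) ∣ w2 := by
      rw [e2]; exact dvd_add (Dvd.dvd.mul_left h _) (Dvd.dvd.mul_left h4 _)
    exact hpi.not_isUnit (hw.isUnit_of_dvd' g1 g2)
  have hpq : ¬ (p : ℤ) ∣ (G.b * s ^ 2 + G.c * s * t + G.d * t ^ 2) := by
    intro h
    have g1 : (p : ℤ) ∣ G.b * s ^ 2 := by
      have g2 : G.b * s ^ 2 = (G.b * s ^ 2 + G.c * s * t + G.d * t ^ 2) - t * (G.c * s + G.d * t) := by ring
      rw [g2]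
      exact dvd_sub h (Dvd.dvd.mul_right h4 _)
    rcases hpi.dvd_or_dvd g1 with g3 | g3
    · exact hpb g3
    · exact hps (hpi.dvd_of_dvd_pow g3)
  have hcop : IsCoprime ((p : ℤ) ^ k) (G.b * s ^ 2 + G.c * s * t + G.d * t ^ 2) :=
    IsCoprime.pow_left ((Prime.coprime_iff_not_dvd hpi).2 hpq)
  exact hcop.dvd_of_dvd_mul_right h5

open Classical in
/-- the class in the projective line -/
noncomputable def d3_rho (p : ℕ) (z : ℤ × ℤ) : Option (ZMod p) :=
  if (z.2 : ZMod p) = 0 then none else some ((z.1 : ZMod p) * (z.2 : ZMod p)⁻¹)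

theorem d3_rho_wedge {p : ℕ} (hp : p.Prime) {z w : ℤ × ℤ} (h : d3_rho p z = d3_rho p w) : (p : ℤ) ∣ wedge z w := by
  have : Fact p.Prime := ⟨hp⟩
  rw [← ZMod.intCast_zmod_eq_zero_iff_dvd]
  unfold wedge
  push_cast
  unfold d3_rho at h
  split_ifs at h with h1 h2
  · rw [h1, h2]; ring
  · simp only [Option.some.injEq] at h
    field_simp at h
    rw [h]; ring

theorem d3_card {F : Cub} {p : ℕ} (hp : p.Prime) (S : Finset (ℤ × ℤ)) (h : ∀ z ∈ S, IsCoprime z.1 z.2 ∧ (p : ℤ) ∣ F.val z ∧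
      ¬ (p : ℤ) ∣ F.hes z) [DecidableEq (Option (ZMod p))] : (S.image (d3_rho p)).card ≤ 3 := by
  have : Fact p.Prime := ⟨hp⟩
  rcases S.eq_empty_or_nonempty with rfl | ⟨z0, hz0⟩
  · simp
  classical
  set a : ZMod p := (F.a : ZMod p) with ha
  set b : ZMod p := (F.b : ZMod p) with hb
  set c : ZMod p := (F.c : ZMod p) with hc
  set d : ZMod p := (F.d : ZMod p) with hd
  set P : Cubic (ZMod p) := ⟨a, b, c, d⟩ with hP
  have hP0 : P ≠ 0 := by
    intro h0
    have g := (h z0 hz0).2.2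
    apply g
    rw [← ZMod.intCast_zmod_eq_zero_iff_dvd]
    have ga : a = 0 := congrArg Cubic.a h0
    have gb : b = 0 := congrArg Cubic.b h0
    have gc : c = 0 := congrArg Cubic.c h0
    have gd : d = 0 := congrArg Cubic.d h0
    unfold Cub.hes
    push_cast
    rw [← ha, ← hb, ← hc, ← hd, ga, gb, gc, gd]
    ring
  have hP1 : P.toPoly ≠ 0 := fun h0 => hP0 ((Cubic.toPoly_eq_zero_iff P).1 h0)
  have hroot : ∀ z ∈ S, ∀ t, d3_rho p z = some t → t ∈ P.toPoly.roots.toFinset := by
    intro z hz t hzt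
    unfold d3_rho at hzt
    split_ifs at hzt with h1
    simp only [Option.some.injEq] at hzt
    rw [Multiset.mem_toFinset, Polynomial.mem_roots hP1, Polynomial.IsRoot.def]
    have g1 : (F.val z : ZMod p) = 0 := (ZMod.intCast_zmod_eq_zero_iff_dvd _ _).2 (h z hz).2.1
    unfold Cub.val at g1
    push_cast at g1
    rw [← ha, ← hb, ← hc, ← hd] at g1
    rw [← hzt]
    unfold Cubic.toPoly
    simp only [Polynomial.eval_add, Polynomial.eval_mul, Polynomial.eval_C, Polynomial.eval_pow, Polynomial.eval_X, hP]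
    field_simp
    linear_combination g1
  have hnone : ∀ z ∈ S, d3_rho p z = none → a = 0 := by
    intro z hz hzt
    unfold d3_rho at hzt
    split_ifs at hzt with h1
    have g1 : (F.val z : ZMod p) = 0 := (ZMod.intCast_zmod_eq_zero_iff_dvd _ _).2 (h z hz).2.1
    unfold Cub.val at g1
    push_cast at g1
    rw [h1, ← ha] at g1
    have g2 : a * (z.1 : ZMod p) ^ 3 = 0 := by linear_combination g1
    rcases mul_eq_zero.1 g2 with g3 | g3
    · exact g3
    · exfalso
      have g4 : (z.1 : ZMod p) = 0 := pow_eq_zero_iff (by norm_num) |>.1 g3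
      rw [ZMod.intCast_zmod_eq_zero_iff_dvd] at g4 h1
      exact (Nat.prime_iff_prime_int.1 hp).not_isUnit ((h z hz).1.isUnit_of_dvd' g4 h1)
  have hcard : P.toPoly.roots.toFinset.card ≤ P.toPoly.natDegree :=
    (Multiset.toFinset_card_le _).trans (Polynomial.card_roots' _)
  by_cases ha0 : a = 0
  · have h1 : S.image (d3_rho p) ⊆ insert none (P.toPoly.roots.toFinset.image some) := by
      intro o ho
      obtain ⟨z, hz, rfl⟩ := Finset.mem_image.1 ho
      rw [Finset.mem_insert]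
      cases hzo : d3_rho p z with
      | none => exact Or.inl rfl
      | some t => exact Or.inr (Finset.mem_image_of_mem _ (hroot z hz t hzo))
    have h2 : P.toPoly.natDegree ≤ 2 := by
      have h3 : P.toPoly.degree ≤ 2 := Cubic.degree_of_a_eq_zero ha0
      exact Polynomial.natDegree_le_of_degree_le h3
    calc (S.image (d3_rho p)).card ≤ (insert none (P.toPoly.roots.toFinset.image some)).card := Finset.card_le_card h1
      _ ≤ (P.toPoly.roots.toFinset.image some).card + 1 := Finset.card_insert_le _ _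
      _ ≤ P.toPoly.roots.toFinset.card + 1 := by gcongr; exact Finset.card_image_le
      _ ≤ 3 := by omega
  · have h1 : S.image (d3_rho p) ⊆ P.toPoly.roots.toFinset.image some := by
      intro o ho
      obtain ⟨z, hz, rfl⟩ := Finset.mem_image.1 ho
      cases hzo : d3_rho p z with
      | none => exact absurd (hnone z hz hzo) ha0
      | some t => exact Finset.mem_image_of_mem _ (hroot z hz t hzo)
    have h2 : P.toPoly.natDegree ≤ 3 := by
      have h3 : P.toPoly.degree ≤ 3 := Polynomial.degree_cubic_le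
      exact Polynomial.natDegree_le_of_degree_le h3
    calc (S.image (d3_rho p)).card ≤ (P.toPoly.roots.toFinset.image some).card := Finset.card_le_card h1
      _ ≤ P.toPoly.roots.toFinset.card := Finset.card_image_le
      _ ≤ 3 := by omega

theorem card_classes_mod (ε : ℝ) (hε : 0 < ε) : ∃ C : ℝ, 0 < C ∧ ∀ (F : Cub) (m : ℕ), 1 ≤ m →
    ∀ S : Finset (ℤ × ℤ), (∀ z ∈ S, IsCoprime z.1 z.2 ∧ (m : ℤ) ∣ F.val z ∧
      IsCoprime (m : ℤ) (F.hes z)) →
    (∀ z ∈ S, ∀ w ∈ S, (m : ℤ) ∣ wedge z w → z = w) →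
    (S.card : ℝ) ≤ C * (m : ℝ) ^ ε := by
  classical
  obtain ⟨C, hC, hC3⟩ := d3_three_pow ε hε
  refine ⟨C, hC, fun F m hm S hS hinj => le_trans ?_ (hC3 m hm)⟩
  have hpS : ∀ p : ℕ, p ∈ m.primeFactors → ∀ z ∈ S, IsCoprime z.1 z.2 ∧ (p : ℤ) ∣ F.val z ∧ ¬ (p : ℤ) ∣ F.hes z := by
    intro p hp z hz
    obtain ⟨a1, a2, a3⟩ := hS z hz
    have hpm : (p : ℤ) ∣ (m : ℤ) := by exact_mod_cast Nat.dvd_of_mem_primeFactors hp
    exact ⟨a1, hpm.trans a2, fun h => (Nat.prime_iff_prime_int.1 (Nat.prime_of_mem_primeFactors hp)).not_isUnit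
      (a3.isUnit_of_dvd' hpm h)⟩
  have key : S.card ≤ (m.primeFactors.pi (fun p => S.image (d3_rho p))).card := by
    refine Finset.card_le_card_of_injOn (fun z => fun p _ => d3_rho p z) ?_ ?_
    · intro z hz
      rw [Finset.mem_coe, Finset.mem_pi]
      exact fun p _ => Finset.mem_image_of_mem _ hz
    · intro z hz w hw hzw
      refine hinj z hz w hw ?_
      rw [Int.natCast_dvd, Nat.dvd_iff_prime_pow_dvd_dvd]
      intro p k hp hpk
      rcases Nat.eq_zero_or_pos k with rfl | hk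
      · simp
      have hpm : p ∣ m := (dvd_pow_self _ hk.ne').trans hpk
      have hp' : p ∈ m.primeFactors := Nat.mem_primeFactors.2 ⟨hp, hpm, by omega⟩
      have hpk' : (p : ℤ) ^ k ∣ (m : ℤ) := by exact_mod_cast hpk
      have h4 : (p : ℤ) ∣ wedge z w := d3_rho_wedge hp (congrFun (congrFun hzw p) hp')
      have h5 := d3_lift hp k (hS z hz).1 (hS w hw).1 (hpk'.trans (hS z hz).2.1) (hpk'.trans (hS w hw).2.1)
        (hpS p hp' z hz).2.2 h4
      rw [← Int.natCast_dvd]
      exact_mod_cast h5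
  have h3 : (m.primeFactors.pi (fun p => S.image (d3_rho p))).card ≤ 3 ^ m.primeFactors.card := by
    rw [Finset.card_pi, ← Finset.prod_const]
    exact Finset.prod_le_prod' fun p hp => d3_card (Nat.prime_of_mem_primeFactors hp) S (hpS p hp)
  exact_mod_cast key.trans h3

end Pool.Agent.Lib.SqPart
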