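import Mathlib
import Pool.Agent.Lib.MP_d8bd92_nt.CdA

set_option autoImplicit false

/-!
Integral binary cubic forms, their covariants, heights in number fields, partial radicals.
-/

namespace Pool.Agent.Lib.SqPart

open Finset Pool.Agent.Lib.Szpiro

/-- integral binary cubic forms `a X^3 + b X^2 Y + c X Y^2 + d Y^3` -/
@[ext] structure Cub where
  a : ℤ
  b : ℤ
  c : ℤ
  d : ℤ
  deriving DecidableEq

namespace Cub

/-- the value at `z` -/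
def val (F : Cub) (z : ℤ × ℤ) : ℤ :=
  F.a * z.1 ^ 3 + F.b * z.1 ^ 2 * z.2 + F.c * z.1 * z.2 ^ 2 + F.d * z.2 ^ 3

/-- the Hessian covariant -/
def hes (F : Cub) (z : ℤ × ℤ) : ℤ :=
  (F.b ^ 2 - 3 * F.a * F.c) * z.1 ^ 2 + (F.b * F.c - 9 * F.a * F.d) * z.1 * z.2 +
    (F.c ^ 2 - 3 * F.b * F.d) * z.2 ^ 2

/-- the cubic covariant -/
def cov (F : Cub) (z : ℤ × ℤ) : ℤ :=
  (2 * F.b ^ 3 - 9 * F.a * F.b * F.c + 27 * F.a ^ 2 * F.d) * z.1 ^ 3 +
    3 * (F.b ^ 2 * F.c - 6 * F.a * F.c ^ 2 + 9 * F.a * F.b * F.d) * z.1 ^ 2 * z.2 -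
    3 * (F.b * F.c ^ 2 - 6 * F.b ^ 2 * F.d + 9 * F.a * F.c * F.d) * z.1 * z.2 ^ 2 -
    (2 * F.c ^ 3 - 9 * F.b * F.c * F.d + 27 * F.a * F.d ^ 2) * z.2 ^ 3

/-- the discriminant -/
def disc (F : Cub) : ℤ :=
  F.b ^ 2 * F.c ^ 2 - 4 * F.a * F.c ^ 3 - 4 * F.b ^ 3 * F.d - 27 * F.a ^ 2 * F.d ^ 2 +
    18 * F.a * F.b * F.c * F.d

/-- the form `F(pX+qY, rX+sY)` -/
def sub (F : Cub) (p q r s : ℤ) : Cub where
  a := F.a * p ^ 3 + F.b * p ^ 2 * r + F.c * p * r ^ 2 + F.d * r ^ 3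
  b := 3 * F.a * p ^ 2 * q + F.b * (p ^ 2 * s + 2 * p * q * r) + F.c * (2 * p * r * s + q * r ^ 2) +
    3 * F.d * r ^ 2 * s
  c := 3 * F.a * p * q ^ 2 + F.b * (2 * p * q * s + q ^ 2 * r) + F.c * (p * s ^ 2 + 2 * q * r * s) +
    3 * F.d * r * s ^ 2
  d := F.a * q ^ 3 + F.b * q ^ 2 * s + F.c * q * s ^ 2 + F.d * s ^ 3

/-- `F` has no rational zero -/
def Irr (F : Cub) : Prop := ∀ z : ℤ × ℤ, z ≠ 0 → F.val z ≠ 0

/-- the size of the coefficients -/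
def ht (F : Cub) : ℤ := |F.a| + |F.b| + |F.c| + |F.d|

end Cub

/-- the determinant of two integral vectors -/
def wedge (z w : ℤ × ℤ) : ℤ := z.1 * w.2 - z.2 * w.1

/-- the product of the primes dividing `n` but not `M` -/
def nrad (M n : ℕ) : ℕ := ∏ p ∈ n.primeFactors.filter (fun p => ¬ p ∣ M), p

open NumberField

/-- `x` is nonzero and all its absolute values lie between `exp(-T)` and `exp T` -/
def Lht {K : Type} [Field K] [NumberField K] (x : K) (T : ℝ) : Prop :=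
  x ≠ 0 ∧ ∀ φ : K →+* ℂ, |Real.log ‖φ x‖| ≤ T

/-- the two fractional ideals differ by a principal one with a small generator -/
def Near {K : Type} [Field K] [NumberField K] (T : ℝ)
    (I J : FractionalIdeal (nonZeroDivisors (𝓞 K)) K) : Prop :=
  ∃ x : K, Lht x T ∧ I = FractionalIdeal.spanSingleton (nonZeroDivisors (𝓞 K)) x * J

/-- the equation `F(θ, 1) = 0` -/
def IsRoot {K : Type} [Field K] (F : Cub) (θ : K) : Prop :=
  (F.a : K) * θ ^ 3 + (F.b : K) * θ ^ 2 + (F.c : K) * θ + (F.d : K) = 0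

end Pool.Agent.Lib.SqPart
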