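import Pool.Agent.Lib.MP_d8bd92_nt.SqDefs

set_option autoImplicit false

/-!
Splitting an integer according to its partial radical.

PROOF. ρ = nrad M n = product of the set Q of the primes dividing n but not M. For a subset B of Q let
n_B = product of p^(v_p n), p in B; n = n_B * n_rest, coprime, nrad M n_B = prod B, nrad M n_rest = ρ/prod B; n_B
is prime to M.
If ρ <= R^(2/3): n₁ = 1, n₂ = n. Let ρ > R^(2/3). If some p in Q has ρ/p < R^(1/3): second alternative with
i = v_p n, n' = n/p^i (nrad M n' = ρ/p, p nrad M n' = ρ <= R). Otherwise ρ/p >= R^(1/3) for all p in Q. If some p in Q has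
p > R^(1/3), take B = {p}: p <= ρ/R^(1/3) <= R^(2/3), ρ/p <= R/R^(1/3) = R^(2/3). Otherwise all p in Q are <= R^(1/3):
choose a subset B of Q with prod B >= R^(1/3) and minimal cardinality (Q itself has ρ > R^(2/3) >= R^(1/3)); removing
one prime p from B gives a product < R^(1/3), so prod B < R^(1/3) p <= R^(2/3) and ρ/prod B <= R/R^(1/3) = R^(2/3)
(B is nonempty unless R^(1/3) <= 1, i.e. R = 1: then B empty gives prod = 1 fine).
-/

namespace Pool.Agent.Lib.SqPart

open Finset Pool.Agent.Lib.Szpiro Pool.Agent.Lib.MP_d8bd92_nt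

theorem nrad_mul (M m n : ℕ) (hm : m ≠ 0) (hn : n ≠ 0) (h : Nat.Coprime m n) :
    nrad M (m * n) = nrad M m * nrad M n := by
  unfold nrad
  rw [Nat.primeFactors_mul hm hn, filter_union, prod_union]
  exact disjoint_filter_filter h.disjoint_primeFactors

theorem one_le_nrad (M n : ℕ) : 1 ≤ nrad M n := by
  unfold nrad
  refine Nat.one_le_iff_ne_zero.mpr (prod_ne_zero_iff.mpr fun p hp => ?_)
  exact (Nat.prime_of_mem_primeFactors (mem_filter.mp hp).1).ne_zero

theorem e2_nrad_one (M : ℕ) : nrad M 1 = 1 := by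
  unfold nrad
  simp

/-- the partial radical of a product of prime powers -/
theorem e2_nrad_prod (M : ℕ) (f : ℕ → ℕ) (S : Finset ℕ) (hS : ∀ p ∈ S, p.Prime ∧ 1 ≤ f p) :
    nrad M (∏ p ∈ S, p ^ f p) = ∏ p ∈ S.filter (fun p => ¬ p ∣ M), p := by
  classical
  induction S using Finset.induction_on with
  | empty => simp [e2_nrad_one]
  | insert q S hq ih =>
    have hq1 := hS q (mem_insert_self _ _)
    have hS' : ∀ p ∈ S, p.Prime ∧ 1 ≤ f p := fun p hp => hS p (mem_insert_of_mem hp)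
    rw [prod_insert hq]
    have hcop : Nat.Coprime (q ^ f q) (∏ p ∈ S, p ^ f p) := by
      refine Nat.Coprime.prod_right fun p hp => ?_
      refine Nat.Coprime.pow _ _ ?_
      rw [Nat.coprime_primes hq1.1 (hS' p hp).1]
      rintro rfl
      exact hq hp
    have hne : ∏ p ∈ S, p ^ f p ≠ 0 :=
      prod_ne_zero_iff.mpr fun p hp => pow_ne_zero _ (hS' p hp).1.ne_zero
    rw [nrad_mul M _ _ (pow_ne_zero _ hq1.1.ne_zero) hne hcop, ih hS', filter_insert]
    have hpow : nrad M (q ^ f q) = if ¬ q ∣ M then q else 1 := by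
      unfold nrad
      rw [Nat.primeFactors_prime_pow (by omega) hq1.1, filter_singleton]
      split_ifs <;> simp
    rw [hpow]
    split_ifs with h
    · rw [one_mul]
    · rw [prod_insert]
      intro h2
      exact hq (mem_filter.mp h2).1

/-- splitting off the primes in `B` -/
theorem e2_split (M n : ℕ) (hn : n ≠ 0) (B : Finset ℕ)
    (hB : B ⊆ n.primeFactors.filter (fun p => ¬ p ∣ M)) :
    ∃ n₂ : ℕ, n = (∏ p ∈ B, p ^ n.factorization p) * n₂ ∧
      Nat.Coprime (∏ p ∈ B, p ^ n.factorization p) n₂ ∧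
      Nat.Coprime (∏ p ∈ B, p ^ n.factorization p) M ∧
      nrad M (∏ p ∈ B, p ^ n.factorization p) = ∏ p ∈ B, p ∧
      nrad M n = (∏ p ∈ B, p) * nrad M n₂ := by
  classical
  have hBpf : B ⊆ n.primeFactors := hB.trans (filter_subset _ _)
  have hpr : ∀ p ∈ n.primeFactors, p.Prime ∧ 1 ≤ n.factorization p := by
    intro p hp
    refine ⟨Nat.prime_of_mem_primeFactors hp, ?_⟩
    have h1 : p ∈ n.factorization.support := by
      rw [Nat.support_factorization]
      exact hp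
    have h2 := Finsupp.mem_support_iff.mp h1
    omega
  refine ⟨∏ p ∈ n.primeFactors \ B, p ^ n.factorization p, ?_, ?_, ?_, ?_, ?_⟩
  · rw [mul_comm, prod_sdiff hBpf]
    exact (Nat.prod_factorization_pow_eq_self hn).symm
  · refine Nat.Coprime.prod_left fun p hp => Nat.Coprime.prod_right fun q hq => ?_
    refine Nat.Coprime.pow _ _ ?_
    rw [mem_sdiff] at hq
    rw [Nat.coprime_primes (hpr p (hBpf hp)).1 (hpr q hq.1).1]
    rintro rfl
    exact hq.2 hp
  · refine Nat.Coprime.prod_left fun p hp => ?_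
    refine Nat.Coprime.pow_left _ ?_
    rw [Nat.Prime.coprime_iff_not_dvd (hpr p (hBpf hp)).1]
    exact (mem_filter.mp (hB hp)).2
  · rw [e2_nrad_prod M _ B fun p hp => hpr p (hBpf hp)]
    congr 1
    exact filter_true_of_mem fun p hp => (mem_filter.mp (hB hp)).2
  · rw [e2_nrad_prod M _ _ fun p hp => hpr p (mem_sdiff.mp hp).1]
    have h1 : (n.primeFactors \ B).filter (fun p => ¬ p ∣ M) =
        n.primeFactors.filter (fun p => ¬ p ∣ M) \ B := by
      ext p
      simp only [mem_filter, mem_sdiff]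
      tauto
    rw [h1, mul_comm, prod_sdiff hB]
    rfl

theorem split_nrad (M n : ℕ) (hM : M ≠ 0) (hn : n ≠ 0) (R : ℝ) (hR : 1 ≤ R)
    (h : (nrad M n : ℝ) ≤ R) :
    (∃ n₁ n₂ : ℕ, n = n₁ * n₂ ∧ Nat.Coprime n₁ n₂ ∧ Nat.Coprime n₁ M ∧
      (nrad M n₁ : ℝ) * (nrad M n₂ : ℝ) ≤ R ∧ (nrad M n₁ : ℝ) ≤ R ^ (2 / 3 : ℝ) ∧
      (nrad M n₂ : ℝ) ≤ R ^ (2 / 3 : ℝ)) ∨
    (∃ p i n' : ℕ, p.Prime ∧ 1 ≤ i ∧ n = p ^ i * n' ∧ ¬ p ∣ n' ∧ ¬ p ∣ M ∧
      (p : ℝ) * (nrad M n' : ℝ) ≤ R ∧ (nrad M n' : ℝ) ≤ R ^ (1 / 3 : ℝ)) := by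
  classical
  set Q := n.primeFactors.filter (fun p => ¬ p ∣ M) with hQ
  have hρ : nrad M n = ∏ p ∈ Q, p := rfl
  have hR0 : 0 < R := by linarith
  set r : ℝ := R ^ (1 / 3 : ℝ) with hr
  have hr1 : 1 ≤ r := Real.one_le_rpow hR (by norm_num)
  have hr0 : 0 < r := by linarith
  have hr2 : R ^ (2 / 3 : ℝ) = r * r := by
    rw [hr, ← Real.rpow_add hR0]
    norm_num
  have hr3 : R = r * r * r := by
    rw [hr, ← Real.rpow_add hR0, ← Real.rpow_add hR0]
    norm_num
  have hrr1 : 1 ≤ r * r := by nlinarith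
  have hQprime : ∀ p ∈ Q, p.Prime := fun p hp =>
    Nat.prime_of_mem_primeFactors (mem_filter.mp hp).1
  rw [hr2]
  by_cases hA : (nrad M n : ℝ) ≤ r * r
  · left
    refine ⟨1, n, by ring, Nat.coprime_one_left n, Nat.coprime_one_left M, ?_, ?_, hA⟩
    · rw [e2_nrad_one]
      push_cast
      linarith
    · rw [e2_nrad_one]
      push_cast
      exact hrr1
  push Not at hA
  by_cases hB1 : ∃ p ∈ Q, (nrad M n : ℝ) ≤ r * p
  · right
    obtain ⟨p, hp, hle⟩ := hB1
    have hpp := hQprime p hp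
    obtain ⟨n', e1, e2, e3, e4, e5⟩ := e2_split M n hn {p} (singleton_subset_iff.mpr hp)
    rw [prod_singleton] at e1 e2 e3 e5
    have hfac : 1 ≤ n.factorization p := by
      have h1 : p ∈ n.factorization.support := by
        rw [Nat.support_factorization]
        exact (mem_filter.mp hp).1
      have h2 := Finsupp.mem_support_iff.mp h1
      omega
    refine ⟨p, n.factorization p, n', hpp, hfac, e1, ?_, (mem_filter.mp hp).2, ?_, ?_⟩
    · have h3 : Nat.Coprime p n' := Nat.Coprime.of_dvd_left (dvd_pow_self p (by omega)) e2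
      exact (Nat.Prime.coprime_iff_not_dvd hpp).mp h3
    · have h4 : (nrad M n : ℝ) = (p : ℝ) * (nrad M n' : ℝ) := by exact_mod_cast e5
      rw [← h4]
      exact h
    · have h4 : (nrad M n : ℝ) = (p : ℝ) * (nrad M n' : ℝ) := by exact_mod_cast e5
      have hp0 : (0 : ℝ) < p := by exact_mod_cast hpp.pos
      rw [h4, mul_comm r] at hle
      exact le_of_mul_le_mul_left hle hp0
  push Not at hB1
  left
  -- it is enough to find a good subset
  suffices hex : ∃ B ⊆ Q, r ≤ ((∏ p ∈ B, p : ℕ) : ℝ) ∧ ((∏ p ∈ B, p : ℕ) : ℝ) ≤ r * r by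
    obtain ⟨B, hB, hB1, hB2⟩ := hex
    obtain ⟨n₂, e1, e2, e3, e4, e5⟩ := e2_split M n hn B hB
    refine ⟨_, n₂, e1, e2, e3, ?_, ?_, ?_⟩
    · rw [e4]
      have h4 : (nrad M n : ℝ) = ((∏ p ∈ B, p : ℕ) : ℝ) * (nrad M n₂ : ℝ) := by exact_mod_cast e5
      rw [← h4]
      exact h
    · rw [e4]
      exact hB2
    · have h4 : (nrad M n : ℝ) = ((∏ p ∈ B, p : ℕ) : ℝ) * (nrad M n₂ : ℝ) := by exact_mod_cast e5
      have h5 : (0 : ℝ) ≤ nrad M n₂ := Nat.cast_nonneg _
      have h6 : r * (nrad M n₂ : ℝ) ≤ r * (r * r) := by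
        calc r * (nrad M n₂ : ℝ) ≤ ((∏ p ∈ B, p : ℕ) : ℝ) * (nrad M n₂ : ℝ) :=
              mul_le_mul_of_nonneg_right hB1 h5
          _ = nrad M n := h4.symm
          _ ≤ R := h
          _ = r * (r * r) := by rw [hr3]; ring
      exact le_of_mul_le_mul_left h6 hr0
  by_cases hB2 : ∃ p ∈ Q, r < (p : ℝ)
  · obtain ⟨p, hp, hlt⟩ := hB2
    refine ⟨{p}, singleton_subset_iff.mpr hp, ?_, ?_⟩
    · rw [prod_singleton]
      exact hlt.le
    · rw [prod_singleton]
      have h1 := hB1 p hp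
      have h2 : r * (p : ℝ) ≤ r * (r * r) := by
        calc r * (p : ℝ) ≤ nrad M n := h1.le
          _ ≤ R := h
          _ = r * (r * r) := by rw [hr3]; ring
      exact le_of_mul_le_mul_left h2 hr0
  · push Not at hB2
    have hne : (Q.powerset.filter (fun B => r ≤ ((∏ p ∈ B, p : ℕ) : ℝ))).Nonempty := by
      refine ⟨Q, ?_⟩
      rw [mem_filter, mem_powerset]
      refine ⟨Subset.rfl, ?_⟩
      rw [← hρ]
      nlinarith
    obtain ⟨B, hBm, hmin⟩ := exists_min_image _ (fun B => B.card) hne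
    rw [mem_filter, mem_powerset] at hBm
    refine ⟨B, hBm.1, hBm.2, ?_⟩
    rcases B.eq_empty_or_nonempty with rfl | ⟨p, hp⟩
    · rw [prod_empty]
      push_cast
      exact hrr1
    · have hlt : ((∏ q ∈ B.erase p, q : ℕ) : ℝ) < r := by
        by_contra hge
        push Not at hge
        have h1 := hmin (B.erase p) (by
          rw [mem_filter, mem_powerset]
          exact ⟨(erase_subset _ _).trans hBm.1, hge⟩)
        have h2 := card_erase_lt_of_mem hp
        omega
      have h3 : ((∏ q ∈ B, q : ℕ) : ℝ) = (p : ℝ) * ((∏ q ∈ B.erase p, q : ℕ) : ℝ) := by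
        rw [← mul_prod_erase B (fun q => q) hp]
        push_cast
        rfl
      rw [h3]
      exact mul_le_mul (hB2 p (hBm.1 hp)) hlt.le (Nat.cast_nonneg _) hr0.le

end Pool.Agent.Lib.SqPart
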