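import Pool.Agent.Lib.MP_d8bd92_nt.SqFDefs

set_option autoImplicit false

/-!
Every irreducible form is equivalent to a reduced one.
-/

namespace Pool.Agent.Lib.SqPart

open Finset Cub

theorem f1_disc_sub (F : Cub) (p q r s : ℤ) (h : p * s - q * r = 1) :
    (F.sub p q r s).disc = F.disc := by
  have : (F.sub p q r s).disc = (p * s - q * r) ^ 6 * F.disc := by
    unfold Cub.disc Cub.sub
    ring
  rw [this, h]
  ring

/-- from square roots to the definition -/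
theorem f1_red_of (F : Cub) (al Dl : ℝ) (hal : 0 < al) (hDl : 0 < Dl)
    (hD : |(F.disc : ℝ)| = Dl ^ 2) (h0 : al ^ 2 ≤ 2 * Dl)
    (ha : |(F.a : ℝ)| ≤ 100 * (al ^ 3 / Dl)) (hb : |(F.b : ℝ)| ≤ 100 * al)
    (hc : |(F.c : ℝ)| ≤ 100 * (Dl / al)) (hd : |(F.d : ℝ)| ≤ 100 * (Dl ^ 2 / al ^ 3)) : Red F := by
  have e1 : ∀ x : ℝ, 0 < x → (x ^ 2) ^ (1 / 2 : ℝ) = x := by
    intro x hx
    rw [← Real.sqrt_eq_rpow, Real.sqrt_sq hx.le]
  have e2 : ∀ x : ℝ, 0 < x → (x ^ 2) ^ (-(1 / 2) : ℝ) = x⁻¹ := by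
    intro x hx
    rw [Real.rpow_neg (by positivity), e1 x hx]
  have e3 : ∀ x : ℝ, 0 < x → (x ^ 2) ^ (3 / 2 : ℝ) = x ^ 3 := by
    intro x hx
    have : (3 / 2 : ℝ) = (1 / 2 : ℝ) * (3 : ℕ) := by norm_num
    rw [this, Real.rpow_mul (by positivity), e1 x hx, Real.rpow_natCast]
  have e4 : ∀ x : ℝ, 0 < x → (x ^ 2) ^ (-(3 / 2) : ℝ) = (x ^ 3)⁻¹ := by
    intro x hx
    rw [Real.rpow_neg (by positivity), e3 x hx]
  refine ⟨al ^ 2, by positivity, ?_, ?_, ?_, ?_, ?_⟩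
  · rw [hD, e1 Dl hDl]
    exact h0
  · rw [hD, e2 Dl hDl, e3 al hal]
    calc _ ≤ _ := ha
      _ = _ := by rw [div_eq_mul_inv]; ring
  · rw [e1 al hal]
    exact hb
  · rw [hD, e1 Dl hDl, e2 al hal]
    calc _ ≤ _ := hc
      _ = _ := by rw [div_eq_mul_inv]; ring
  · rw [hD, e4 al hal]
    calc _ ≤ _ := hd
      _ = _ := by rw [div_eq_mul_inv]; ring

/-- the quadratic form attached to a root -/
noncomputable def f1Q (F : Cub) (r : ℝ) (z : ℤ × ℤ) : ℝ :=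
  ((F.V r z) ^ 2 + 3 * |F.dl r| * (U r z) ^ 2) / 2

/-- its bilinear form -/
noncomputable def f1B (F : Cub) (r : ℝ) (z w : ℤ × ℤ) : ℝ :=
  (F.V r z * F.V r w + 3 * |F.dl r| * (U r z * U r w)) / 2

theorem f1Q_nonneg (F : Cub) (r : ℝ) (z : ℤ × ℤ) : 0 ≤ f1Q F r z := by
  unfold f1Q
  positivity

theorem f1_gram (F : Cub) (r : ℝ) (z w : ℤ × ℤ) :
    f1Q F r z * f1Q F r w - (f1B F r z w) ^ 2 = 3 * |F.dl r| * (F.sl r) ^ 2 * (wedge z w : ℝ) ^ 2 := by
  have h : U r z * F.V r w - U r w * F.V r z = 2 * F.sl r * (wedge z w : ℝ) := by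
    unfold U V sl wedge
    push_cast
    ring
  have : f1Q F r z * f1Q F r w - (f1B F r z w) ^ 2 =
      3 * |F.dl r| / 4 * (U r z * F.V r w - U r w * F.V r z) ^ 2 := by
    unfold f1Q f1B
    ring
  rw [this, h]
  ring

theorem f1Q_pos (F : Cub) (r : ℝ) (hd : F.dl r ≠ 0) (hs : F.sl r ≠ 0) (z : ℤ × ℤ) (hz : z ≠ 0) :
    0 < f1Q F r z := by
  have h0 := f1Q_nonneg F r z
  rcases h0.lt_or_eq with h | h
  · exact h
  exfalso
  have hd' : 0 < |F.dl r| := abs_pos.2 hd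
  have hs' : 0 < (F.sl r) ^ 2 := by positivity
  have key : ∀ w : ℤ × ℤ, wedge z w = 0 := by
    intro w
    have hg := f1_gram F r z w
    rw [← h] at hg
    have h1 : 3 * |F.dl r| * (F.sl r) ^ 2 * (wedge z w : ℝ) ^ 2 ≤ 0 := by
      nlinarith [sq_nonneg (f1B F r z w)]
    have h2 : (wedge z w : ℝ) ^ 2 ≤ 0 := by
      by_contra hc
      push Not at hc
      have : 0 < 3 * |F.dl r| * (F.sl r) ^ 2 * (wedge z w : ℝ) ^ 2 := by positivity
      linarith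
    have h3 : (wedge z w : ℝ) = 0 := by
      have := sq_nonneg (wedge z w : ℝ)
      have h4 : (wedge z w : ℝ) ^ 2 = 0 := le_antisymm h2 this
      exact pow_eq_zero_iff (by norm_num) |>.1 h4
    exact_mod_cast h3
  apply hz
  have k1 := key (0, 1)
  have k2 := key (1, 0)
  unfold wedge at k1 k2
  simp at k1 k2
  ext
  · simpa using k1
  · simpa using k2

theorem f1Q_smul (F : Cub) (r : ℝ) (g : ℤ) (z w : ℤ × ℤ) (h : z = (g * w.1, g * w.2)) :
    f1Q F r z = (g : ℝ) ^ 2 * f1Q F r w := by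
  subst h
  unfold f1Q V U
  push_cast
  ring

theorem f1Q_add (F : Cub) (r : ℝ) (n : ℤ) (z w : ℤ × ℤ) :
    f1B F r z (w.1 + n * z.1, w.2 + n * z.2) = f1B F r z w + n * f1Q F r z := by
  unfold f1Q f1B V U
  push_cast
  ring

/-- finiteness of the set of small vectors -/
theorem f1_finite (F : Cub) (r : ℝ) (hd : F.dl r ≠ 0) (hs : F.sl r ≠ 0) (c : ℝ) :
    Set.Finite {z : ℤ × ℤ | f1Q F r z ≤ c} := by
  have hd' : 0 < |F.dl r| := abs_pos.2 hd
  have hs' : 0 < (F.sl r) ^ 2 := by positivity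
  -- bound of the wedge
  have key : ∀ w : ℤ × ℤ, ∃ N : ℕ, ∀ z : ℤ × ℤ, f1Q F r z ≤ c → |wedge z w| ≤ (N : ℤ) := by
    intro w
    obtain ⟨N, hN⟩ := exists_nat_ge (c * f1Q F r w / (3 * |F.dl r| * (F.sl r) ^ 2))
    refine ⟨N, fun z hz => ?_⟩
    have hg := f1_gram F r z w
    have h1 : 3 * |F.dl r| * (F.sl r) ^ 2 * (wedge z w : ℝ) ^ 2 ≤ c * f1Q F r w := by
      nlinarith [sq_nonneg (f1B F r z w), mul_le_mul_of_nonneg_right hz (f1Q_nonneg F r w)]
    have h2 : (wedge z w : ℝ) ^ 2 ≤ N := by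
      refine le_trans ?_ hN
      rw [le_div_iff₀ (by positivity)]
      linarith
    have h3 : (wedge z w) ^ 2 ≤ (N : ℤ) := by exact_mod_cast h2
    have h4 : |wedge z w| ≤ (wedge z w) ^ 2 := by
      rw [← sq_abs]
      rcases eq_or_ne (wedge z w) 0 with h | h
      · simp [h]
      · have : 1 ≤ |wedge z w| := Int.one_le_abs h
        nlinarith
    linarith
  obtain ⟨N1, h1⟩ := key (0, 1)
  obtain ⟨N2, h2⟩ := key (1, 0)
  refine Set.Finite.subset (s := (Set.Icc (-(N1 : ℤ)) N1) ×ˢ (Set.Icc (-(N2 : ℤ)) N2))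
    (Set.Finite.prod (Set.finite_Icc _ _) (Set.finite_Icc _ _)) ?_
  intro z hz
  have a1 := h1 z hz
  have a2 := h2 z hz
  unfold wedge at a1 a2
  simp at a1 a2
  rw [Set.mem_prod, Set.mem_Icc, Set.mem_Icc]
  exact ⟨abs_le.1 a1, abs_le.1 a2⟩

/-- a reduced basis -/
theorem f1_basis (F : Cub) (r : ℝ) (hd : F.dl r ≠ 0) (hs : F.sl r ≠ 0) :
    ∃ z w : ℤ × ℤ, wedge z w = 1 ∧ 0 < f1Q F r z ∧ f1Q F r z ≤ f1Q F r w ∧
      |f1B F r z w| ≤ f1Q F r z / 2 := by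
  have hfin := f1_finite F r hd hs (f1Q F r (1, 0))
  have hne : ({z : ℤ × ℤ | f1Q F r z ≤ f1Q F r (1, 0)} ∩ {z | z ≠ 0}).Nonempty :=
    ⟨(1, 0), ⟨le_refl (f1Q F r (1, 0)), by simp⟩⟩
  obtain ⟨z, hz, hmin⟩ := Set.exists_min_image _ (f1Q F r) (hfin.inter_of_left _) hne
  have hz0 : z ≠ 0 := hz.2
  have hmin' : ∀ w : ℤ × ℤ, w ≠ 0 → f1Q F r z ≤ f1Q F r w := by
    intro w hw
    by_cases h : f1Q F r w ≤ f1Q F r (1, 0)
    · exact hmin w ⟨h, hw⟩
    · push Not at h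
      exact le_trans hz.1 h.le
  have hzpos := f1Q_pos F r hd hs z hz0
  -- primitive
  have hg : Int.gcd z.1 z.2 = 1 := by
    set g := Int.gcd z.1 z.2 with hgdef
    have hg0 : g ≠ 0 := by
      intro h
      have := Int.gcd_eq_zero_iff.1 (hgdef ▸ h)
      apply hz0
      ext
      · exact this.1
      · exact this.2
    obtain ⟨x, hx⟩ := Int.gcd_dvd_left (a := z.1) (b := z.2)
    obtain ⟨y, hy⟩ := Int.gcd_dvd_right (a := z.1) (b := z.2)
    rw [← hgdef] at hx hy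
    have hsm := f1Q_smul F r g z (x, y) (by ext <;> simp [hx, hy])
    have hxy : (x, y) ≠ (0 : ℤ × ℤ) := by
      intro h
      have hx0 : x = 0 := congrArg Prod.fst h
      have hy0 : y = 0 := congrArg Prod.snd h
      apply hz0
      ext
      · rw [hx, hx0]; simp
      · rw [hy, hy0]; simp
    have hm := hmin' (x, y) hxy
    have hp := f1Q_pos F r hd hs (x, y) hxy
    rw [hsm] at hm
    by_contra hne1
    have hg2 : (2 : ℝ) ≤ (g : ℝ) := by
      have : 2 ≤ g := by omega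
      exact_mod_cast this
    push_cast at hm
    have hg4 : (4 : ℝ) ≤ (g : ℝ) ^ 2 := by nlinarith
    have hg5 := mul_le_mul_of_nonneg_right hg4 hp.le
    linarith
  obtain ⟨u, v, huv⟩ : ∃ u v : ℤ, z.1 * u - z.2 * v = 1 := by
    have := Int.gcd_eq_gcd_ab z.1 z.2
    rw [hg] at this
    refine ⟨Int.gcdA z.1 z.2, -Int.gcdB z.1 z.2, ?_⟩
    push_cast at this
    linarith
  set w0 : ℤ × ℤ := (v, u) with hw0
  set n : ℤ := -round (f1B F r z w0 / f1Q F r z) with hn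
  refine ⟨z, (w0.1 + n * z.1, w0.2 + n * z.2), ?_, hzpos, ?_, ?_⟩
  · unfold wedge
    simp only [hw0]
    linarith
  · apply hmin'
    intro h
    have h1 : w0.1 + n * z.1 = 0 := congrArg Prod.fst h
    have h2 : w0.2 + n * z.2 = 0 := congrArg Prod.snd h
    simp only [hw0] at h1 h2
    have : z.1 * (u + n * z.2) - z.2 * (v + n * z.1) = 1 := by linarith
    rw [h1, h2] at this
    simp at this
  · rw [f1Q_add]
    have hr := abs_sub_round (f1B F r z w0 / f1Q F r z)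
    have : f1B F r z w0 + n * f1Q F r z =
        (f1B F r z w0 / f1Q F r z - round (f1B F r z w0 / f1Q F r z)) * f1Q F r z := by
      rw [hn]
      push_cast
      field_simp
      ring
    rw [this, abs_mul, abs_of_pos hzpos]
    nlinarith

/-- coefficients of the substituted form -/
theorem f1_coeffs (F : Cub) (r : ℝ) (h : IsRoot F r) (z w : ℤ × ℤ) :
    4 * F.sl r * ((F.sub z.1 w.1 z.2 w.2).a : ℝ) =
      U r z * ((F.V r z) ^ 2 - F.dl r * (U r z) ^ 2) ∧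
    4 * F.sl r * ((F.sub z.1 w.1 z.2 w.2).b : ℝ) =
      U r w * ((F.V r z) ^ 2 - F.dl r * (U r z) ^ 2) +
        U r z * (2 * F.V r z * F.V r w - 2 * F.dl r * U r z * U r w) ∧
    4 * F.sl r * ((F.sub z.1 w.1 z.2 w.2).c : ℝ) =
      U r z * ((F.V r w) ^ 2 - F.dl r * (U r w) ^ 2) +
        U r w * (2 * F.V r z * F.V r w - 2 * F.dl r * U r z * U r w) ∧
    4 * F.sl r * ((F.sub z.1 w.1 z.2 w.2).d : ℝ) =
      U r w * ((F.V r w) ^ 2 - F.dl r * (U r w) ^ 2) := by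
  unfold IsRoot at h
  unfold U V dl sl sub
  have hd : (F.d : ℝ) = -((F.a : ℝ) * r ^ 3 + F.b * r ^ 2 + F.c * r) := by linarith
  refine ⟨?_, ?_, ?_, ?_⟩ <;>
  · push_cast
    rw [hd]
    ring

/-- the basic estimate -/
theorem f1_est (al ga u1 u2 v1 v2 e : ℝ) (hal : 0 ≤ al) (hga : 0 ≤ ga)
    (he : |e| ≤ 1) (h1 : |u1| ≤ al) (h2 : |u2| ≤ ga) (h3 : |v1| ≤ 2 * al) (h4 : |v2| ≤ 2 * ga) :
    |u2 * (v1 ^ 2 - e * u1 ^ 2) + u1 * (2 * v1 * v2 - 2 * e * u1 * u2)| ≤ 20 * al ^ 2 * ga ∧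
    |u1 * (v1 ^ 2 - e * u1 ^ 2)| ≤ 20 * al ^ 3 := by
  have hv1 : |v1 ^ 2| ≤ 4 * al ^ 2 := by
    rw [abs_pow]
    nlinarith [abs_nonneg v1]
  have hu1 : |e * u1 ^ 2| ≤ al ^ 2 := by
    rw [abs_mul, abs_pow]
    have : |u1| ^ 2 ≤ al ^ 2 := pow_le_pow_left₀ (abs_nonneg _) h1 2
    nlinarith [abs_nonneg e, abs_nonneg u1, sq_nonneg |u1|]
  have hA : |v1 ^ 2 - e * u1 ^ 2| ≤ 5 * al ^ 2 := by
    calc |v1 ^ 2 - e * u1 ^ 2| ≤ |v1 ^ 2| + |e * u1 ^ 2| := abs_sub _ _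
      _ ≤ _ := by linarith
  have hB : |2 * v1 * v2 - 2 * e * u1 * u2| ≤ 10 * al * ga := by
    have t1 : |v1 * v2| ≤ (2 * al) * (2 * ga) := by
      rw [abs_mul]
      exact mul_le_mul h3 h4 (abs_nonneg _) (by positivity)
    have t2 : |u1 * u2| ≤ al * ga := by
      rw [abs_mul]
      exact mul_le_mul h1 h2 (abs_nonneg _) (by positivity)
    have t3 : |e * (u1 * u2)| ≤ al * ga := by
      rw [abs_mul]
      calc |e| * |u1 * u2| ≤ 1 * (al * ga) := mul_le_mul he t2 (abs_nonneg _) (by norm_num)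
        _ = _ := one_mul _
    have : 2 * v1 * v2 - 2 * e * u1 * u2 = 2 * (v1 * v2) - 2 * (e * (u1 * u2)) := by ring
    rw [this]
    calc |2 * (v1 * v2) - 2 * (e * (u1 * u2))| ≤ |2 * (v1 * v2)| + |2 * (e * (u1 * u2))| := abs_sub _ _
      _ = 2 * |v1 * v2| + 2 * |e * (u1 * u2)| := by rw [abs_mul, abs_mul]; norm_num
      _ ≤ _ := by nlinarith
  constructor
  · calc _ ≤ |u2 * (v1 ^ 2 - e * u1 ^ 2)| + |u1 * (2 * v1 * v2 - 2 * e * u1 * u2)| := abs_add_le _ _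
      _ = |u2| * |v1 ^ 2 - e * u1 ^ 2| + |u1| * |2 * v1 * v2 - 2 * e * u1 * u2| := by
          rw [abs_mul, abs_mul]
      _ ≤ ga * (5 * al ^ 2) + al * (10 * al * ga) := by
          gcongr
      _ ≤ _ := by nlinarith [mul_nonneg (sq_nonneg al) hga]
  · rw [abs_mul]
    calc _ ≤ al * (5 * al ^ 2) := by gcongr
      _ ≤ _ := by nlinarith [pow_nonneg hal 3]

theorem exists_red (F : Cub) (hF : F.Irr) (hD : F.disc ≠ 0) :
    ∃ p q r s : ℤ, p * s - q * r = 1 ∧ Red (F.sub p q r s) := by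
  have ha : F.a ≠ 0 := by
    have := hF (1, 0) (by simp)
    unfold Cub.val at this
    simpa using this
  obtain ⟨r, hr⟩ := exists_root F ha
  have hdisc := disc_eq F r hr
  have hD' : (F.disc : ℝ) ≠ 0 := by exact_mod_cast hD
  have hd : F.dl r ≠ 0 := by
    intro h
    rw [hdisc, h] at hD'
    simp at hD'
  have hs : F.sl r ≠ 0 := by
    intro h
    rw [hdisc, h] at hD'
    simp at hD'
  obtain ⟨z, w, hzw, hA, hAC, hB⟩ := f1_basis F r hd hs
  refine ⟨z.1, w.1, z.2, w.2, ?_, ?_⟩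
  · unfold wedge at hzw
    linarith
  have hdet : z.1 * w.2 - w.1 * z.2 = 1 := by
    unfold wedge at hzw
    linarith
  have hC : 0 < f1Q F r w := lt_of_lt_of_le hA hAC
  set e : ℝ := Real.sqrt |F.dl r| with hedef
  have he : 0 < e := Real.sqrt_pos.2 (abs_pos.2 hd)
  have he2 : e ^ 2 = |F.dl r| := Real.sq_sqrt (abs_nonneg _)
  set Dl : ℝ := e * |F.sl r| with hDldef
  have hDl : 0 < Dl := mul_pos he (abs_pos.2 hs)
  have hDl2 : Dl ^ 2 = |(F.disc : ℝ)| := by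
    rw [hDldef, mul_pow, he2, hdisc, abs_mul, abs_pow]
  set al : ℝ := Real.sqrt (f1Q F r z) with haldef
  set ga : ℝ := Real.sqrt (f1Q F r w) with hgadef
  have hal : 0 < al := Real.sqrt_pos.2 hA
  have hga : 0 < ga := Real.sqrt_pos.2 hC
  have hal2 : al ^ 2 = f1Q F r z := Real.sq_sqrt hA.le
  have hga2 : ga ^ 2 = f1Q F r w := Real.sq_sqrt hC.le
  -- A C <= 4 D
  have hgram := f1_gram F r z w
  rw [hzw] at hgram
  have hprod : (al * ga) ^ 2 ≤ (2 * Dl) ^ 2 := by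
    have h3 : 3 * |F.dl r| * (F.sl r) ^ 2 * ((1 : ℤ) : ℝ) ^ 2 = 3 * Dl ^ 2 := by
      rw [hDldef, mul_pow, he2, sq_abs]
      push_cast
      ring
    rw [h3] at hgram
    have hB2 : (f1B F r z w) ^ 2 ≤ (f1Q F r z / 2) ^ 2 := by
      rw [← sq_abs]
      exact pow_le_pow_left₀ (abs_nonneg _) hB 2
    rw [mul_pow, hal2, hga2]
    nlinarith [mul_le_mul_of_nonneg_left hAC hA.le]
  have hprod' : al * ga ≤ 2 * Dl := by
    exact le_of_sq_le_sq hprod (by positivity)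
  have halga : al ≤ ga := Real.sqrt_le_sqrt hAC
  have hal0 : al ^ 2 ≤ 2 * Dl := by nlinarith
  -- bounds of the linear forms
  have hbU : ∀ t : ℤ × ℤ, |e * U r t| ≤ Real.sqrt (f1Q F r t) := by
    intro t
    apply Real.abs_le_sqrt
    rw [mul_pow, he2]
    unfold f1Q
    nlinarith [sq_nonneg (F.V r t), mul_nonneg (abs_nonneg (F.dl r)) (sq_nonneg (U r t))]
  have hbV : ∀ t : ℤ × ℤ, |F.V r t| ≤ 2 * Real.sqrt (f1Q F r t) := by
    intro t
    have h4 : 2 * Real.sqrt (f1Q F r t) = Real.sqrt (4 * f1Q F r t) := by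
      rw [Real.sqrt_mul (by norm_num)]
      congr 1
      rw [show (4 : ℝ) = 2 ^ 2 by norm_num, Real.sqrt_sq (by norm_num)]
    rw [h4]
    apply Real.abs_le_sqrt
    unfold f1Q
    nlinarith [sq_nonneg (F.V r t), mul_nonneg (abs_nonneg (F.dl r)) (sq_nonneg (U r t))]
  obtain ⟨ea, eb, ec, ed⟩ := f1_coeffs F r hr z w
  set ep : ℝ := F.dl r / |F.dl r| with hepdef
  have hep : |ep| ≤ 1 := by
    rw [hepdef, abs_div, abs_abs, div_self (abs_ne_zero.2 hd)]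
  have hep2 : ep * e ^ 2 = F.dl r := by
    rw [he2, hepdef]
    field_simp
  have hest := f1_est al ga (e * U r z) (e * U r w) (F.V r z) (F.V r w) ep hal.le hga.le hep
    (hbU z) (hbU w) (hbV z) (hbV w)
  have hest' := f1_est ga al (e * U r w) (e * U r z) (F.V r w) (F.V r z) ep hga.le hal.le hep
    (hbU w) (hbU z) (hbV w) (hbV z)
  have habs : ∀ x y : ℝ, 4 * F.sl r * x = y → 4 * Dl * |x| = |e * y| := by
    intro x y hxy
    rw [← hxy, hDldef]
    rw [abs_mul, abs_mul, abs_mul, abs_of_pos he]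
    norm_num
    ring
  have ga' := habs _ _ ea
  have gb' := habs _ _ eb
  have gc' := habs _ _ ec
  have gd' := habs _ _ ed
  have ia : e * (U r z * ((F.V r z) ^ 2 - F.dl r * (U r z) ^ 2)) =
      (e * U r z) * ((F.V r z) ^ 2 - ep * (e * U r z) ^ 2) := by
    rw [← hep2]; ring
  have id : e * (U r w * ((F.V r w) ^ 2 - F.dl r * (U r w) ^ 2)) =
      (e * U r w) * ((F.V r w) ^ 2 - ep * (e * U r w) ^ 2) := by
    rw [← hep2]; ring
  have ib : e * (U r w * ((F.V r z) ^ 2 - F.dl r * (U r z) ^ 2) +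
        U r z * (2 * F.V r z * F.V r w - 2 * F.dl r * U r z * U r w)) =
      (e * U r w) * ((F.V r z) ^ 2 - ep * (e * U r z) ^ 2) +
        (e * U r z) * (2 * F.V r z * F.V r w - 2 * ep * (e * U r z) * (e * U r w)) := by
    rw [← hep2]; ring
  have ic : e * (U r z * ((F.V r w) ^ 2 - F.dl r * (U r w) ^ 2) +
        U r w * (2 * F.V r z * F.V r w - 2 * F.dl r * U r z * U r w)) =
      (e * U r z) * ((F.V r w) ^ 2 - ep * (e * U r w) ^ 2) +
        (e * U r w) * (2 * F.V r w * F.V r z - 2 * ep * (e * U r w) * (e * U r z)) := by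
    rw [← hep2]; ring
  rw [ia] at ga'
  rw [ib] at gb'
  rw [ic] at gc'
  rw [id] at gd'
  have ja := hest.2
  have jb := hest.1
  have jc := hest'.1
  have jd := hest'.2
  rw [← ga'] at ja
  rw [← gb'] at jb
  rw [← gc'] at jc
  rw [← gd'] at jd
  have hpag : 0 < al * ga := mul_pos hal hga
  apply f1_red_of (F.sub z.1 w.1 z.2 w.2) al Dl hal hDl
  · rw [f1_disc_sub F _ _ _ _ hdet, hDl2]
  · exact hal0
  · rw [← mul_div_assoc, le_div_iff₀ hDl]
    nlinarith [pow_pos hal 3]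
  · have : Dl * |((F.sub z.1 w.1 z.2 w.2).b : ℝ)| ≤ Dl * (100 * al) := by
      nlinarith [mul_le_mul_of_nonneg_left hprod' hal.le]
    exact le_of_mul_le_mul_left this hDl
  · rw [← mul_div_assoc, le_div_iff₀ hal]
    have : Dl * (|((F.sub z.1 w.1 z.2 w.2).c : ℝ)| * al) ≤ Dl * (100 * Dl) := by
      nlinarith [mul_le_mul_of_nonneg_left jc hal.le]
    exact le_of_mul_le_mul_left this hDl
  · rw [← mul_div_assoc, le_div_iff₀ (pow_pos hal 3)]
    have h8 : (al * ga) ^ 3 ≤ (2 * Dl) ^ 3 := pow_le_pow_left₀ hpag.le hprod' 3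
    have : Dl * (|((F.sub z.1 w.1 z.2 w.2).d : ℝ)| * al ^ 3) ≤ Dl * (100 * Dl ^ 2) := by
      nlinarith [mul_le_mul_of_nonneg_left jd (pow_pos hal 3).le, pow_pos hDl 3]
    exact le_of_mul_le_mul_left this hDl

end Pool.Agent.Lib.SqPart
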