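import Pool.Agent.Lib.MP_d8bd92_nt.SqFDefs

set_option autoImplicit false

/-!
The number and the size of reduced forms.

card_red. PROOF. For F in S let D = |disc| in [1, M] and A from Red. From |a| >= 1: A^(3/2) >= D^(1/2)/100, so
A >= (D^(1/2)/100)^(2/3) >= 1/100 (say), and A <= 2 D^(1/2) <= 2 M. Classify F by the integers k = floor(log2 D), l = floor(log2 A)
(k between 0 and log2 M, l between -7 and 1 + log2 M: at most C (1+log M)^2 pairs). For given (k,l),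
with D ~ 2^k =: E, A ~ 2^l =: a0: |a| <= B1 = 300 a0^(3/2) E^(-1/2), |b| <= B2 = 200 a0^(1/2),
|c| <= B3 = 200 E^(1/2) a0^(-1/2), |d| <= B4 = 200 E a0^(-3/2). All B_i >= 1/100 by the bounds for A (B1 >= 1 as a is nonzero,
B2 since A >= 1/100, B3, B4 since A <= 2D^(1/2)), so the number of (a,b,c,d) is at most prod (2B_i+1) <= C prod B_i = C' E <= C' M.
Total <= C M (1+log M)^2.
ht_red. PROOF. D >= 1 integer. |a| <= 100 (2D^(1/2))^(3/2) D^(-1/2) <= 300 D; |b| <= 100 (2D^(1/2))^(1/2) <= 200 D;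
A^(-1/2) <= (100 D^(-1/2))^(1/3) <= 5, |c| <= 500 D^(1/2); A^(-3/2) <= 100 D^(-1/2): |d| <= 10^4 D^(1/2).
-/

namespace Pool.Agent.Lib.SqPart

open Finset

/-- the bounds of `Red` in terms of square roots -/
theorem f2_red (F : Cub) (ha : F.a ≠ 0) (hd : F.disc ≠ 0) (h : Red F) : ∃ x y : ℝ, 1 ≤ y ∧
    y ^ 2 = |(F.disc : ℝ)| ∧ 1 / 5 ≤ x ∧ x ^ 2 ≤ 2 * y ∧ y ≤ 100 * x ^ 3 ∧
    |(F.a : ℝ)| ≤ 100 * x ^ 3 / y ∧ |(F.b : ℝ)| ≤ 100 * x ∧ |(F.c : ℝ)| ≤ 100 * y / x ∧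
    |(F.d : ℝ)| ≤ 100 * y ^ 2 / x ^ 3 := by
  obtain ⟨A, hA0, hA1, h1, h2, h3, h4⟩ := h
  set D : ℝ := |(F.disc : ℝ)| with hD
  have hD1 : 1 ≤ D := by
    have : (1 : ℤ) ≤ |F.disc| := Int.one_le_abs hd
    rw [hD]; exact_mod_cast this
  have hD0 : 0 < D := by linarith
  set x : ℝ := Real.sqrt A with hx
  set y : ℝ := Real.sqrt D with hy
  have hx0 : 0 < x := Real.sqrt_pos.2 hA0
  have hy0 : 0 < y := Real.sqrt_pos.2 hD0
  have hy1 : 1 ≤ y := by rw [hy]; exact Real.one_le_sqrt.2 hD1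
  have hxx : x ^ 2 = A := Real.sq_sqrt hA0.le
  have hyy : y ^ 2 = D := Real.sq_sqrt hD0.le
  have eA1 : A ^ (1 / 2 : ℝ) = x := by rw [hx, Real.sqrt_eq_rpow]
  have eA3 : A ^ (3 / 2 : ℝ) = x ^ 3 := by
    rw [← eA1, ← Real.rpow_natCast, ← Real.rpow_mul hA0.le]; norm_num
  have eD1 : D ^ (1 / 2 : ℝ) = y := by rw [hy, Real.sqrt_eq_rpow]
  have eD1' : D ^ (-(1 / 2) : ℝ) = y⁻¹ := by rw [Real.rpow_neg hD0.le, eD1]
  have eA1' : A ^ (-(1 / 2) : ℝ) = x⁻¹ := by rw [Real.rpow_neg hA0.le, eA1]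
  have eA3' : A ^ (-(3 / 2) : ℝ) = (x ^ 3)⁻¹ := by rw [Real.rpow_neg hA0.le, eA3]
  rw [eD1] at hA1
  rw [eA3, eD1', ← div_eq_mul_inv] at h1
  rw [eA1] at h2
  rw [eD1, eA1', ← div_eq_mul_inv] at h3
  rw [eA3', ← div_eq_mul_inv, ← hyy] at h4
  have ha1 : (1 : ℝ) ≤ |(F.a : ℝ)| := by
    have : (1 : ℤ) ≤ |F.a| := Int.one_le_abs ha
    exact_mod_cast this
  have h5 : y ≤ 100 * x ^ 3 := by
    have := ha1.trans h1
    rwa [le_div_iff₀ hy0, one_mul] at this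
  refine ⟨x, y, hy1, hyy, ?_, by rw [hxx]; exact hA1, h5, h1, h2, h3, h4⟩
  by_contra hcon
  push Not at hcon
  have : x ^ 3 < (1 / 5) ^ 3 := pow_lt_pow_left₀ hcon hx0.le (by norm_num)
  norm_num at this
  linarith

/-- number of integers in an interval -/
theorem f2_card (B : ℝ) (hB : 1 ≤ B) : ((Icc (-⌊B⌋) ⌊B⌋).card : ℝ) ≤ 3 * B := by
  have h0 : 0 ≤ ⌊B⌋ := Int.floor_nonneg.2 (by linarith)
  rw [Int.card_Icc]
  have h1 : ((⌊B⌋ + 1 - -⌊B⌋).toNat : ℤ) = 2 * ⌊B⌋ + 1 := by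
    rw [Int.toNat_of_nonneg (by omega)]; ring
  have h2 : ((⌊B⌋ + 1 - -⌊B⌋).toNat : ℝ) = 2 * (⌊B⌋ : ℝ) + 1 := by
    have h3 : (((⌊B⌋ + 1 - -⌊B⌋).toNat : ℕ) : ℝ) = ((((⌊B⌋ + 1 - -⌊B⌋).toNat : ℕ) : ℤ) : ℝ) :=
      (Int.cast_natCast _).symm
    rw [h3, h1]
    push_cast
    ring
  rw [h2]
  have h3 := Int.floor_le B
  linarith

theorem f2_mem (n : ℤ) (B : ℝ) (h : |(n : ℝ)| ≤ B) : n ∈ Icc (-⌊B⌋) ⌊B⌋ := by
  have h1 : ((|n| : ℤ) : ℝ) ≤ B := by push_cast; exact h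
  have h2 : |n| ≤ ⌊B⌋ := Int.le_floor.2 h1
  rw [Finset.mem_Icc]
  exact abs_le.1 h2

/-- dyadic size of a positive number -/
theorem f2_dyad (x : ℝ) (hx : 0 < x) :
    (2 : ℝ) ^ ⌊Real.logb 2 x⌋ ≤ x ∧ x ≤ 2 * (2 : ℝ) ^ ⌊Real.logb 2 x⌋ := by
  constructor
  · have h1 : ((⌊Real.logb 2 x⌋ : ℤ) : ℝ) ≤ Real.logb 2 x := Int.floor_le _
    rw [Real.le_logb_iff_rpow_le (by norm_num) hx] at h1
    rwa [Real.rpow_intCast] at h1
  · have h1 : Real.logb 2 x < ((⌊Real.logb 2 x⌋ : ℤ) : ℝ) + 1 := Int.lt_floor_add_one _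
    rw [Real.logb_lt_iff_lt_rpow (by norm_num) hx, Real.rpow_add (by norm_num), Real.rpow_one,
      Real.rpow_intCast] at h1
    linarith

theorem card_red : ∃ C : ℝ, 1 ≤ C ∧ ∀ M : ℝ, 1 ≤ M → ∀ S : Finset Cub,
    (∀ F ∈ S, F.a ≠ 0 ∧ F.disc ≠ 0 ∧ Red F ∧ |(F.disc : ℝ)| ≤ M) →
    (S.card : ℝ) ≤ C * M * (1 + Real.log M) ^ 2 := by
  classical
  refine ⟨2000000000000 * 20, by norm_num, ?_⟩
  intro M hM S hS
  have hlM : 0 ≤ Real.log M := Real.log_nonneg hM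
  -- choose x and y
  have hex : ∀ F : Cub, ∃ x y : ℝ, F ∈ S → (1 ≤ y ∧
      y ^ 2 = |(F.disc : ℝ)| ∧ 1 / 5 ≤ x ∧ x ^ 2 ≤ 2 * y ∧ y ≤ 100 * x ^ 3 ∧
      |(F.a : ℝ)| ≤ 100 * x ^ 3 / y ∧ |(F.b : ℝ)| ≤ 100 * x ∧ |(F.c : ℝ)| ≤ 100 * y / x ∧
      |(F.d : ℝ)| ≤ 100 * y ^ 2 / x ^ 3) := by
    intro F
    by_cases hF : F ∈ S
    · obtain ⟨h1, h2, h3, _⟩ := hS F hF
      obtain ⟨x, y, h⟩ := f2_red F h1 h2 h3
      exact ⟨x, y, fun _ => h⟩
    · exact ⟨0, 0, fun h => absurd h hF⟩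
  choose x y hxy using hex
  let f : Cub → ℤ × ℤ := fun F => (⌊Real.logb 2 (y F)⌋, ⌊Real.logb 2 (x F)⌋)
  set K : ℤ := ⌊Real.logb 2 M⌋ with hK
  have hlb : Real.logb 2 M = Real.log M / Real.log 2 := rfl
  have hl2 : (1 : ℝ) / 2 < Real.log 2 := by have := Real.log_two_gt_d9; linarith
  have hlb0 : 0 ≤ Real.logb 2 M := Real.logb_nonneg (by norm_num) hM
  have hlb1 : Real.logb 2 M ≤ 2 * Real.log M := by
    rw [hlb, div_le_iff₀ (by linarith)]
    nlinarith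
  have hK0 : 0 ≤ K := Int.floor_nonneg.2 hlb0
  have hK1 : (K : ℝ) ≤ 2 * Real.log M := (Int.floor_le _).trans hlb1
  -- the image
  have himg : S.image f ⊆ (Icc (0 : ℤ) K) ×ˢ (Icc (-3 : ℤ) (K + 1)) := by
    intro p hp
    rw [Finset.mem_image] at hp
    obtain ⟨F, hF, rfl⟩ := hp
    obtain ⟨h1, h2, h3, h4, -⟩ := hxy F hF
    obtain ⟨-, -, -, hFM⟩ := hS F hF
    have hy0 : 0 < y F := by linarith
    have hx0 : 0 < x F := by linarith
    have hyM : y F ≤ M := by nlinarith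
    have hxM : x F ≤ 2 * M := by nlinarith
    rw [Finset.mem_product, Finset.mem_Icc, Finset.mem_Icc]
    refine ⟨⟨?_, ?_⟩, ?_, ?_⟩
    · exact Int.floor_nonneg.2 (Real.logb_nonneg (by norm_num) h1)
    · exact Int.floor_mono (Real.logb_le_logb_of_le (by norm_num) hy0 hyM)
    · rw [Int.le_floor]
      push_cast
      rw [Real.le_logb_iff_rpow_le (by norm_num) hx0]
      have : (2 : ℝ) ^ (-3 : ℝ) = 1 / 8 := by
        rw [show (-3 : ℝ) = ((-3 : ℤ) : ℝ) by norm_num, Real.rpow_intCast]; norm_num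
      rw [this]; linarith
    · have h5 : Real.logb 2 (x F) ≤ Real.logb 2 M + 1 := by
        have h6 : Real.logb 2 (2 * M) = Real.logb 2 M + 1 := by
          rw [Real.logb_mul (by norm_num) (by linarith), Real.logb_self_eq_one (by norm_num)]
          ring
        rw [← h6]
        exact Real.logb_le_logb_of_le (by norm_num) hx0 hxM
      have h7 : ⌊Real.logb 2 (x F)⌋ ≤ ⌊Real.logb 2 M + 1⌋ := Int.floor_mono h5
      rwa [Int.floor_add_one] at h7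
  have himgc : ((S.image f).card : ℝ) ≤ 20 * (1 + Real.log M) ^ 2 := by
    have h1 : (S.image f).card ≤ (K + 1).toNat * (K + 5).toNat := by
      refine (Finset.card_le_card himg).trans (le_of_eq ?_)
      rw [Finset.card_product, Int.card_Icc, Int.card_Icc]
      have e1 : K + 1 - 0 = K + 1 := by ring
      have e2 : K + 1 + 1 - -3 = K + 5 := by ring
      rw [e1, e2]
    have h2 : ((S.image f).card : ℝ) ≤ ((K + 1).toNat : ℝ) * ((K + 5).toNat : ℝ) := by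
      exact_mod_cast h1
    have h3 : ((K + 1).toNat : ℝ) = (K : ℝ) + 1 := by
      rw [← Int.cast_natCast, Int.toNat_of_nonneg (by omega)]
      push_cast; ring
    have h4 : ((K + 5).toNat : ℝ) = (K : ℝ) + 5 := by
      rw [← Int.cast_natCast, Int.toNat_of_nonneg (by omega)]
      push_cast; ring
    rw [h3, h4] at h2
    have h5 : (0 : ℝ) ≤ K := by exact_mod_cast hK0
    nlinarith
  -- the fibres
  have hfib : ∀ p ∈ S.image f, (S.filter fun F => f F = p).card ≤ ⌊2000000000000 * M⌋₊ := by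
    intro p hp
    obtain ⟨F₀, hF₀, hp₀⟩ := Finset.mem_image.1 hp
    set Y : ℝ := (2 : ℝ) ^ p.1 with hY
    set X : ℝ := (2 : ℝ) ^ p.2 with hX
    have hY0 : 0 < Y := by rw [hY]; positivity
    have hX0 : 0 < X := by rw [hX]; positivity
    have hprop : ∀ F ∈ S, f F = p → Y ≤ y F ∧ y F ≤ 2 * Y ∧ X ≤ x F ∧ x F ≤ 2 * X := by
      intro F hF hFp
      obtain ⟨h1, h2, h3, -⟩ := hxy F hF
      have hy0 : 0 < y F := by linarith
      have hx0 : 0 < x F := by linarith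
      have e1 : ⌊Real.logb 2 (y F)⌋ = p.1 := congrArg Prod.fst hFp
      have e2 : ⌊Real.logb 2 (x F)⌋ = p.2 := congrArg Prod.snd hFp
      have h4 := f2_dyad (y F) hy0
      have h5 := f2_dyad (x F) hx0
      rw [e1] at h4
      rw [e2] at h5
      exact ⟨h4.1, h4.2, h5.1, h5.2⟩
    set B1 : ℝ := 800 * X ^ 3 / Y with hB1
    set B2 : ℝ := 200 * X with hB2
    set B3 : ℝ := 200 * Y / X with hB3
    set B4 : ℝ := 400 * Y ^ 2 / X ^ 3 with hB4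
    have hb : ∀ F ∈ S, f F = p → |(F.a : ℝ)| ≤ B1 ∧ |(F.b : ℝ)| ≤ B2 ∧ |(F.c : ℝ)| ≤ B3 ∧
        |(F.d : ℝ)| ≤ B4 := by
      intro F hF hFp
      obtain ⟨h1, h2, h3, h4, h5, h6, h7, h8, h9⟩ := hxy F hF
      obtain ⟨g1, g2, g3, g4⟩ := hprop F hF hFp
      have hy0 : 0 < y F := by linarith
      have hx0 : 0 < x F := by linarith
      refine ⟨h6.trans ?_, h7.trans ?_, h8.trans ?_, h9.trans ?_⟩
      · rw [hB1]
        apply div_le_div₀ (by positivity) _ hY0 g1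
        have : x F ^ 3 ≤ (2 * X) ^ 3 := pow_le_pow_left₀ hx0.le g4 3
        calc 100 * x F ^ 3 ≤ 100 * (2 * X) ^ 3 := by linarith
          _ = 800 * X ^ 3 := by ring
      · rw [hB2]; linarith
      · rw [hB3]
        apply div_le_div₀ (by positivity) _ hX0 g3
        linarith
      · rw [hB4]
        apply div_le_div₀ (by positivity) _ (by positivity) (pow_le_pow_left₀ hX0.le g3 3)
        have : y F ^ 2 ≤ (2 * Y) ^ 2 := pow_le_pow_left₀ hy0.le g2 2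
        calc 100 * y F ^ 2 ≤ 100 * (2 * Y) ^ 2 := by linarith
          _ = 400 * Y ^ 2 := by ring
    obtain ⟨h1, h2, h3, h4, h5, h6, h7, h8, h9⟩ := hxy F₀ hF₀
    obtain ⟨g1, g2, g3, g4⟩ := hprop F₀ hF₀ hp₀
    obtain ⟨k1, k2, k3, k4⟩ := hb F₀ hF₀ hp₀
    have hy0 : 0 < y F₀ := by linarith
    have hx0 : 0 < x F₀ := by linarith
    have hB1' : 1 ≤ B1 := by
      have : (1 : ℤ) ≤ |F₀.a| := Int.one_le_abs (hS F₀ hF₀).1
      have h10 : (1 : ℝ) ≤ |(F₀.a : ℝ)| := by exact_mod_cast this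
      exact h10.trans k1
    have hB2' : 1 ≤ B2 := by rw [hB2]; linarith
    have hYx : x F₀ ^ 2 / 4 ≤ Y := by nlinarith
    have hB3' : 1 ≤ B3 := by
      rw [hB3, le_div_iff₀ hX0]
      nlinarith
    have hB4' : 1 ≤ B4 := by
      rw [hB4, le_div_iff₀ (by positivity), one_mul]
      have h11 : X ^ 3 ≤ x F₀ ^ 3 := pow_le_pow_left₀ hX0.le g3 3
      have h12 : (x F₀ ^ 2 / 4) ^ 2 ≤ Y ^ 2 := pow_le_pow_left₀ (by positivity) hYx 2
      have h13 : x F₀ ^ 3 ≤ 400 * (x F₀ ^ 2 / 4) ^ 2 := by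
        have : 0 ≤ x F₀ ^ 3 := by positivity
        nlinarith
      linarith
    have hprod : B1 * B2 * B3 * B4 = 12800000000 * Y ^ 2 := by
      rw [hB1, hB2, hB3, hB4]
      field_simp
      ring
    have hYM : Y ^ 2 ≤ M := by
      have : Y ^ 2 ≤ y F₀ ^ 2 := pow_le_pow_left₀ hY0.le g1 2
      rw [h2] at this
      exact this.trans (hS F₀ hF₀).2.2.2
    -- injection
    let T : Finset (ℤ × ℤ × ℤ × ℤ) := (Icc (-⌊B1⌋) ⌊B1⌋) ×ˢ (Icc (-⌊B2⌋) ⌊B2⌋) ×ˢ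
      (Icc (-⌊B3⌋) ⌊B3⌋) ×ˢ (Icc (-⌊B4⌋) ⌊B4⌋)
    have hcardT : (S.filter fun F => f F = p).card ≤ T.card := by
      apply Finset.card_le_card_of_injOn (fun F => (F.a, F.b, F.c, F.d))
      · intro F hF
        obtain ⟨hF1, hF2⟩ := Finset.mem_filter.1 (Finset.mem_coe.1 hF)
        obtain ⟨k1, k2, k3, k4⟩ := hb F hF1 hF2
        simp only [T, Finset.coe_product, Set.mem_prod, Finset.mem_coe]
        exact ⟨f2_mem _ _ k1, f2_mem _ _ k2, f2_mem _ _ k3, f2_mem _ _ k4⟩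
      · intro F _ G _ hFG
        simp only [Prod.mk.injEq] at hFG
        exact Cub.ext hFG.1 hFG.2.1 hFG.2.2.1 hFG.2.2.2
    apply Nat.le_floor
    have hT : (T.card : ℝ) ≤ (3 * B1) * ((3 * B2) * ((3 * B3) * (3 * B4))) := by
      simp only [T, Finset.card_product]
      push_cast
      apply mul_le_mul (f2_card B1 hB1') _ (by positivity) (by positivity)
      apply mul_le_mul (f2_card B2 hB2') _ (by positivity) (by positivity)
      apply mul_le_mul (f2_card B3 hB3') (f2_card B4 hB4') (by positivity) (by positivity)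
    have hfin : ((S.filter fun F => f F = p).card : ℝ) ≤ T.card := by exact_mod_cast hcardT
    refine hfin.trans (hT.trans ?_)
    calc (3 * B1) * ((3 * B2) * ((3 * B3) * (3 * B4))) = 81 * (B1 * B2 * B3 * B4) := by ring
      _ = 81 * (12800000000 * Y ^ 2) := by rw [hprod]
      _ ≤ 2000000000000 * M := by nlinarith
  have h1 := Finset.card_le_mul_card_image S _ hfib
  have h2 : (S.card : ℝ) ≤ (⌊2000000000000 * M⌋₊ : ℝ) * ((S.image f).card : ℝ) := by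
    exact_mod_cast h1
  have h3 : (⌊2000000000000 * M⌋₊ : ℝ) ≤ 2000000000000 * M := Nat.floor_le (by linarith)
  calc (S.card : ℝ) ≤ (⌊2000000000000 * M⌋₊ : ℝ) * ((S.image f).card : ℝ) := h2
    _ ≤ (2000000000000 * M) * (20 * (1 + Real.log M) ^ 2) :=
        mul_le_mul h3 himgc (Nat.cast_nonneg _) (by linarith)
    _ = _ := by ring

theorem ht_red : ∃ C : ℝ, 1 ≤ C ∧ ∀ F : Cub, F.a ≠ 0 → F.disc ≠ 0 → Red F →
    (F.ht : ℝ) ≤ C * |(F.disc : ℝ)| := by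
  refine ⟨12000, by norm_num, ?_⟩
  intro F ha hd h
  obtain ⟨x, y, h1, h2, h3, h4, h5, h6, h7, h8, h9⟩ := f2_red F ha hd h
  rw [← h2]
  unfold Cub.ht
  push_cast
  have hy0 : 0 < y := by linarith
  have hx0 : 0 < x := by linarith
  have hx2 : x ≤ 2 * y := by nlinarith
  have e1 : 100 * x ^ 3 / y ≤ 400 * y := by
    rw [div_le_iff₀ hy0]
    have : x ^ 3 ≤ 2 * y * (2 * y) := by
      calc x ^ 3 = x ^ 2 * x := by ring
        _ ≤ (2 * y) * (2 * y) := mul_le_mul h4 hx2 hx0.le (by linarith)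
    nlinarith
  have e3 : 100 * y / x ≤ 500 * y := by
    rw [div_le_iff₀ hx0]
    nlinarith
  have e4 : 100 * y ^ 2 / x ^ 3 ≤ 10000 * y := by
    rw [div_le_iff₀ (by positivity)]
    nlinarith
  have hyy : y ≤ y ^ 2 := by nlinarith
  linarith

end Pool.Agent.Lib.SqPart
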