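import Pool.Agent.Lib.MP_d8bd92_nt.SqD0

set_option autoImplicit false

/-!
Reduced forms.
-/

namespace Pool.Agent.Lib.SqPart

/-- the bounds of a reduced form -/
def Red (F : Cub) : Prop := ∃ A : ℝ, 0 < A ∧ A ≤ 2 * |(F.disc : ℝ)| ^ (1 / 2 : ℝ) ∧
  |(F.a : ℝ)| ≤ 100 * A ^ (3 / 2 : ℝ) * |(F.disc : ℝ)| ^ (-(1 / 2) : ℝ) ∧
  |(F.b : ℝ)| ≤ 100 * A ^ (1 / 2 : ℝ) ∧
  |(F.c : ℝ)| ≤ 100 * |(F.disc : ℝ)| ^ (1 / 2 : ℝ) * A ^ (-(1 / 2) : ℝ) ∧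
  |(F.d : ℝ)| ≤ 100 * |(F.disc : ℝ)| * A ^ (-(3 / 2) : ℝ)

end Pool.Agent.Lib.SqPart
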