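import Pool.Agent.Lib.MP_d8bd92_nt.SqDefs

set_option autoImplicit false

/-!
From a semistable curve to a form representing 4t.

PROOF. f(x) = 4x^3 + b2 x^2 + 2 b4 x + b6. IDENTITIES (linear_combination with `W.b_relation`: 4 b8 = b2 b6 - b4^2, and the
definitions of Δ, c4, c6): with r0 = 18 b6 - b2 b4,
c4^2 f'(r0/c4) = -144 Δ, i.e. 12 r0^2 + 2 b2 r0 c4 + 2 b4 c4^2 = -144 Δ, and
c4^3 f(r0/c4) = 4 r0^3 + b2 r0^2 c4 + 2 b4 r0 c4^2 + b6 c4^3 = 4 c6 Δ  (check the constants with `ring`).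
c4 is prime to Δ, so to t^2; choose r with c4 r = r0 mod t^2. Then c4^2 f'(r) = 0 and c4^3 f(r) = 0 mod t^2, so t^2 | f'(r),
t^2 | f(r). F = (4t, b2 + 12 r, f'(r)/t, f(r)/t^2). Then
hes (1,0) = (b2+12r)^2 - 12 f'(r) = b2^2 - 24 b4 = c4; cov (1,0) = 2b^3 - 9abc + 27a^2 d =
2(b2+12r)^3 - 36 (b2+12r) f'(r) + 432 f(r) = -2 c6; disc F = (disc f)/t^2 = 16 Δ/t^2 = 16 D₁.
Irr: F.val (x,y) = 0, y not 0, gives f(r + t x/y) = t^2 F.val(x,y)/y^3 = 0 with a rational argument, against h2;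
y = 0: 4 t x^3 is not 0.
-/

namespace Pool.Agent.Lib.SqPart

open Finset

theorem g1_disc (W : WeierstrassCurve ℤ) :
    4 * W.Δ = -W.b₂ ^ 2 * (W.b₂ * W.b₆ - W.b₄ ^ 2) - 32 * W.b₄ ^ 3 - 108 * W.b₆ ^ 2 + 36 * W.b₂ * W.b₄ * W.b₆ := by
  have h := W.b_relation
  rw [WeierstrassCurve.Δ]
  linear_combination (-W.b₂ ^ 2) * h

theorem g1_one (W : WeierstrassCurve ℤ) :
    12 * (18 * W.b₆ - W.b₂ * W.b₄) ^ 2 + 2 * W.b₂ * (18 * W.b₆ - W.b₂ * W.b₄) * W.c₄ + 2 * W.b₄ * W.c₄ ^ 2 =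
      -(144 * W.Δ) := by
  have h := g1_disc W
  rw [WeierstrassCurve.c₄]
  linear_combination 36 * h

theorem g1_two (W : WeierstrassCurve ℤ) :
    4 * (18 * W.b₆ - W.b₂ * W.b₄) ^ 3 + W.b₂ * (18 * W.b₆ - W.b₂ * W.b₄) ^ 2 * W.c₄ +
      2 * W.b₄ * (18 * W.b₆ - W.b₂ * W.b₄) * W.c₄ ^ 2 + W.b₆ * W.c₄ ^ 3 = 4 * W.c₆ * W.Δ := by
  have h := g1_disc W
  have h6 : W.c₆ = -W.b₂ ^ 3 + 36 * W.b₂ * W.b₄ - 216 * W.b₆ := rfl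
  rw [WeierstrassCurve.c₄, h6]
  linear_combination (-(-W.b₂ ^ 3 + 36 * W.b₂ * W.b₄ - 216 * W.b₆)) * h

theorem curve_form (W : WeierstrassCurve ℤ) (D₁ t : ℤ) (ht : 0 < t) (hW : W.Δ = D₁ * t ^ 2)
    (hD : W.Δ ≠ 0) (hc : IsCoprime W.c₄ W.Δ)
    (h2 : ∀ x : ℚ, 4 * x ^ 3 + (W.b₂ : ℚ) * x ^ 2 + 2 * (W.b₄ : ℚ) * x + (W.b₆ : ℚ) ≠ 0) :
    ∃ F : Cub, F.Irr ∧ F.disc = 16 * D₁ ∧ F.a = 4 * t ∧ F.hes (1, 0) = W.c₄ ∧
      F.cov (1, 0) = -(2 * W.c₆) := by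
  have hct : IsCoprime W.c₄ (t ^ 2) := hc.of_isCoprime_of_dvd_right ⟨D₁, by rw [hW]; ring⟩
  obtain ⟨u, v, huv⟩ := hct
  have hct : IsCoprime (t ^ 2) W.c₄ := ⟨v, u, by linear_combination huv⟩
  set r0 : ℤ := 18 * W.b₆ - W.b₂ * W.b₄ with hr0
  set r : ℤ := u * r0 with hr
  have hcr : W.c₄ * r = r0 - t ^ 2 * (v * r0) := by
    rw [hr]
    linear_combination r0 * huv
  have d1 : t ^ 2 ∣ 12 * r ^ 2 + 2 * W.b₂ * r + 2 * W.b₄ := by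
    refine (hct.pow_right (n := 2)).dvd_of_dvd_mul_left ?_
    refine ⟨-(144 * D₁) + 12 * (-(2 * r0 * (v * r0)) + t ^ 2 * (v * r0) ^ 2) - 2 * W.b₂ * W.c₄ * (v * r0), ?_⟩
    have h1 := g1_one W
    rw [← hr0, hW] at h1
    have h3 : W.c₄ ^ 2 * (12 * r ^ 2 + 2 * W.b₂ * r + 2 * W.b₄) =
        12 * (W.c₄ * r) ^ 2 + 2 * W.b₂ * W.c₄ * (W.c₄ * r) + 2 * W.b₄ * W.c₄ ^ 2 := by ring
    rw [h3, hcr]
    linear_combination h1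
  have d2 : t ^ 2 ∣ 4 * r ^ 3 + W.b₂ * r ^ 2 + 2 * W.b₄ * r + W.b₆ := by
    refine (hct.pow_right (n := 3)).dvd_of_dvd_mul_left ?_
    set k : ℤ := v * r0
    refine ⟨4 * W.c₆ * D₁ + 4 * (-(3 * r0 ^ 2 * k) + 3 * r0 * t ^ 2 * k ^ 2 - t ^ 4 * k ^ 3) +
      W.b₂ * W.c₄ * (-(2 * r0 * k) + t ^ 2 * k ^ 2) - 2 * W.b₄ * W.c₄ ^ 2 * k, ?_⟩
    have h1 := g1_two W
    rw [← hr0, hW] at h1
    have h3 : W.c₄ ^ 3 * (4 * r ^ 3 + W.b₂ * r ^ 2 + 2 * W.b₄ * r + W.b₆) =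
        4 * (W.c₄ * r) ^ 3 + W.b₂ * W.c₄ * (W.c₄ * r) ^ 2 + 2 * W.b₄ * W.c₄ ^ 2 * (W.c₄ * r) + W.b₆ * W.c₄ ^ 3 := by
      ring
    rw [h3, hcr]
    linear_combination h1
  obtain ⟨A, hA⟩ := d1
  obtain ⟨B, hB⟩ := d2
  have h6 : W.c₆ = -W.b₂ ^ 3 + 36 * W.b₂ * W.b₄ - 216 * W.b₆ := rfl
  have h4 : W.c₄ = W.b₂ ^ 2 - 24 * W.b₄ := rfl
  refine ⟨⟨4 * t, W.b₂ + 12 * r, t * A, B⟩, ?_, ?_, rfl, ?_, ?_⟩
  · rintro ⟨x, y⟩ hz hval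
    simp only [Cub.val] at hval
    by_cases hy : y = 0
    · subst hy
      have h5 : 4 * t * x ^ 3 = 0 := by linear_combination hval
      have h7 : x = 0 := by
        rcases mul_eq_zero.1 h5 with h | h
        · omega
        · exact pow_eq_zero_iff (by norm_num) |>.1 h
      exact hz (by rw [h7]; rfl)
    · have hyq : (y : ℚ) ≠ 0 := by exact_mod_cast hy
      refine h2 ((r : ℚ) + t * (x / y)) ?_
      have hA' : (12 * (r : ℚ) ^ 2 + 2 * W.b₂ * r + 2 * W.b₄) = t ^ 2 * A := by exact_mod_cast hA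
      have hB' : (4 * (r : ℚ) ^ 3 + W.b₂ * r ^ 2 + 2 * W.b₄ * r + W.b₆) = t ^ 2 * B := by exact_mod_cast hB
      have hv : (4 * (t : ℚ) * x ^ 3 + (W.b₂ + 12 * r) * x ^ 2 * y + t * A * x * y ^ 2 + B * y ^ 3) = 0 := by
        exact_mod_cast hval
      have h8 : 4 * (t : ℚ) * (x / y) ^ 3 + (W.b₂ + 12 * r) * (x / y) ^ 2 + t * A * (x / y) + B = 0 := by
        have : 4 * (t : ℚ) * (x / y) ^ 3 + (W.b₂ + 12 * r) * (x / y) ^ 2 + t * A * (x / y) + B =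
            (4 * (t : ℚ) * x ^ 3 + (W.b₂ + 12 * r) * x ^ 2 * y + t * A * x * y ^ 2 + B * y ^ 3) / y ^ 3 := by
          field_simp
        rw [this, hv, zero_div]
      generalize (x : ℚ) / y = q at h8 ⊢
      linear_combination (t : ℚ) ^ 2 * h8 + hB' + (t : ℚ) * q * hA'
  · have hd := g1_disc W
    have ht2 : t ^ 2 ≠ 0 := pow_ne_zero _ ht.ne'
    apply mul_left_cancel₀ ht2
    simp only [Cub.disc]
    have h9 : t ^ 2 * (16 * D₁) = 16 * W.Δ := by rw [hW]; ring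
    rw [h9]
    have h10 : t ^ 2 * ((W.b₂ + 12 * r) ^ 2 * (t * A) ^ 2 - 4 * (4 * t) * (t * A) ^ 3 - 4 * (W.b₂ + 12 * r) ^ 3 * B -
        27 * (4 * t) ^ 2 * B ^ 2 + 18 * (4 * t) * (W.b₂ + 12 * r) * (t * A) * B) =
        (W.b₂ + 12 * r) ^ 2 * (t ^ 2 * A) ^ 2 - 16 * (t ^ 2 * A) ^ 3 - 4 * (W.b₂ + 12 * r) ^ 3 * (t ^ 2 * B) -
        432 * (t ^ 2 * B) ^ 2 + 72 * (W.b₂ + 12 * r) * (t ^ 2 * A) * (t ^ 2 * B) := by ring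
    rw [h10, ← hA, ← hB]
    linear_combination (-4) * hd
  · simp only [Cub.hes]
    rw [h4]
    linear_combination (12 : ℤ) * hA
  · simp only [Cub.cov]
    rw [h6]
    linear_combination (36 * (W.b₂ + 12 * r)) * hA - 432 * hB

end Pool.Agent.Lib.SqPart
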