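import Pool.Agent.Lib.MP_d8bd92_nt.SqHDefs
import Pool.Agent.Lib.MP_d8bd92_nt.SqB2
import Pool.Agent.Lib.MP_d8bd92_nt.SqB4
import Pool.Agent.Lib.MP_d8bd92_nt.SqC1
import Pool.Agent.Lib.MP_d8bd92_nt.SqC3
import Pool.Agent.Lib.MP_d8bd92_nt.SqE1

set_option autoImplicit false

/-!
Points with two labels: Szemeredi-Trotter.

The ideal I z of a point is the product of the coprime ideals A z = I z + (n₁ z), B z = I z + (n₂ z). The number of
labels A z is bounded by counting n₁ z and the ideals that contain it; a rational number q with A s' = (q) A s has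
numerator and denominator at most 4, so the multiplicity is at most 36.
-/

namespace Pool.Agent.Lib.SqPart

open Finset NumberField

/-- monomials of degree three -/
theorem h1_mono (a X Y Z : ℝ) (i j : ℕ) (hij : i + j = 3) (hX : |X| ≤ Z) (hY : |Y| ≤ Z) :
    |a * X ^ i * Y ^ j| ≤ |a| * Z ^ 3 := by
  have hZ : 0 ≤ Z := (abs_nonneg X).trans hX
  rw [abs_mul, abs_mul, abs_pow, abs_pow, mul_assoc]
  refine mul_le_mul_of_nonneg_left ?_ (abs_nonneg a)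
  calc |X| ^ i * |Y| ^ j ≤ Z ^ i * Z ^ j :=
        mul_le_mul (pow_le_pow_left₀ (abs_nonneg _) hX _) (pow_le_pow_left₀ (abs_nonneg _) hY _)
          (by positivity) (by positivity)
    _ = Z ^ 3 := by rw [← pow_add, hij]

/-- the height in the reals -/
theorem h1_ht (F : Cub) : (F.ht : ℝ) = |(F.a : ℝ)| + |(F.b : ℝ)| + |(F.c : ℝ)| + |(F.d : ℝ)| := by
  unfold Cub.ht
  push_cast
  rfl

/-- the value is small -/
theorem h1_val_le (F : Cub) (Z : ℝ) (hF : (F.ht : ℝ) ≤ Z) (z : ℤ × ℤ)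
    (h1 : |(z.1 : ℝ)| ≤ Z) (h2 : |(z.2 : ℝ)| ≤ Z) : |(F.val z : ℝ)| ≤ Z ^ 4 := by
  have hZ0 : (0 : ℝ) ≤ Z := (abs_nonneg _).trans h1
  have e : (F.val z : ℝ) = F.a * (z.1 : ℝ) ^ 3 * (z.2 : ℝ) ^ 0 + F.b * (z.1 : ℝ) ^ 2 * (z.2 : ℝ) ^ 1 +
      F.c * (z.1 : ℝ) ^ 1 * (z.2 : ℝ) ^ 2 + F.d * (z.1 : ℝ) ^ 0 * (z.2 : ℝ) ^ 3 := by
    unfold Cub.val
    push_cast
    ring
  rw [h1_ht] at hF
  have m1 := h1_mono (F.a : ℝ) z.1 z.2 Z 3 0 rfl h1 h2
  have m2 := h1_mono (F.b : ℝ) z.1 z.2 Z 2 1 rfl h1 h2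
  have m3 := h1_mono (F.c : ℝ) z.1 z.2 Z 1 2 rfl h1 h2
  have m4 := h1_mono (F.d : ℝ) z.1 z.2 Z 0 3 rfl h1 h2
  rw [e]
  have t1 := abs_add_le ((F.a : ℝ) * (z.1 : ℝ) ^ 3 * (z.2 : ℝ) ^ 0 +
    F.b * (z.1 : ℝ) ^ 2 * (z.2 : ℝ) ^ 1 + F.c * (z.1 : ℝ) ^ 1 * (z.2 : ℝ) ^ 2)
    (F.d * (z.1 : ℝ) ^ 0 * (z.2 : ℝ) ^ 3)
  have t2 := abs_add_le ((F.a : ℝ) * (z.1 : ℝ) ^ 3 * (z.2 : ℝ) ^ 0 +
    F.b * (z.1 : ℝ) ^ 2 * (z.2 : ℝ) ^ 1) (F.c * (z.1 : ℝ) ^ 1 * (z.2 : ℝ) ^ 2)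
  have t3 := abs_add_le ((F.a : ℝ) * (z.1 : ℝ) ^ 3 * (z.2 : ℝ) ^ 0)
    (F.b * (z.1 : ℝ) ^ 2 * (z.2 : ℝ) ^ 1)
  have hs : (|(F.a : ℝ)| + |(F.b : ℝ)| + |(F.c : ℝ)| + |(F.d : ℝ)|) * Z ^ 3 ≤ Z * Z ^ 3 :=
    mul_le_mul_of_nonneg_right hF (by positivity)
  nlinarith [hs, m1, m2, m3, m4, t1, t2, t3]

/-- the discriminant is small -/
theorem h1_disc_le (F : Cub) (Z : ℝ) (hF : (F.ht : ℝ) ≤ Z) : |(F.disc : ℝ)| ≤ 54 * Z ^ 4 := by
  rw [h1_ht] at hF
  have ha := abs_nonneg (F.a : ℝ)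
  have hb := abs_nonneg (F.b : ℝ)
  have hc := abs_nonneg (F.c : ℝ)
  have hd := abs_nonneg (F.d : ℝ)
  have hZ0 : (0 : ℝ) ≤ Z := by linarith
  have q : ∀ x y u v : ℝ, |x| ≤ Z → |y| ≤ Z → |u| ≤ Z → |v| ≤ Z → |x * y * (u * v)| ≤ Z ^ 4 := by
    intro x y u v hx hy hu hv
    rw [abs_mul, abs_mul, abs_mul]
    have p1 : |x| * |y| ≤ Z * Z := mul_le_mul hx hy (abs_nonneg _) hZ0
    have p2 : |u| * |v| ≤ Z * Z := mul_le_mul hu hv (abs_nonneg _) hZ0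
    calc |x| * |y| * (|u| * |v|) ≤ Z * Z * (Z * Z) := mul_le_mul p1 p2 (by positivity) (by positivity)
      _ = Z ^ 4 := by ring
  have a1 : |(F.a : ℝ)| ≤ Z := by linarith
  have b1 : |(F.b : ℝ)| ≤ Z := by linarith
  have c1 : |(F.c : ℝ)| ≤ Z := by linarith
  have d1 : |(F.d : ℝ)| ≤ Z := by linarith
  have e : (F.disc : ℝ) = F.b * F.b * (F.c * F.c) - 4 * (F.a * F.c * (F.c * F.c)) -
      4 * (F.b * F.b * (F.b * F.d)) - 27 * (F.a * F.a * (F.d * F.d)) +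
      18 * (F.a * F.b * (F.c * F.d)) := by
    unfold Cub.disc
    push_cast
    ring
  have k1 := abs_le.mp (q _ _ _ _ b1 b1 c1 c1)
  have k2 := abs_le.mp (q _ _ _ _ a1 c1 c1 c1)
  have k3 := abs_le.mp (q _ _ _ _ b1 b1 b1 d1)
  have k4 := abs_le.mp (q _ _ _ _ a1 a1 d1 d1)
  have k5 := abs_le.mp (q _ _ _ _ a1 b1 c1 d1)
  rw [e, abs_le]
  constructor <;> linarith [k1.1, k1.2, k2.1, k2.2, k3.1, k3.2, k4.1, k4.2, k5.1, k5.2]

/-- norm of an integer -/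
theorem h1_norm (K : Type) [Field K] [NumberField K] (hK : Module.finrank ℚ K = 3) (m : ℤ) :
    Algebra.norm ℤ (m : 𝓞 K) = m ^ 3 := by
  have h := Algebra.norm_algebraMap (S := 𝓞 K) m
  rw [NumberField.RingOfIntegers.rank, hK] at h
  rw [← h]
  rfl

/-- divisibility of integers in the ring of integers -/
theorem h1_dvd (K : Type) [Field K] [NumberField K] (hK : Module.finrank ℚ K = 3) (m r : ℤ)
    (h : (m : 𝓞 K) ∈ Ideal.span {(r : 𝓞 K)}) : r ∣ m := by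
  rw [Ideal.mem_span_singleton] at h
  obtain ⟨w, hw⟩ := h
  have h1 := congrArg (Algebra.norm ℤ) hw
  rw [map_mul, h1_norm K hK, h1_norm K hK] at h1
  have h2 : r ^ 3 ∣ m ^ 3 := ⟨_, h1⟩
  exact (Int.pow_dvd_pow_iff (by norm_num)).mp h2

/-- the ideal of a point is divisible only by the integers 1, 2, 4 -/
theorem h1_div4 (F : Cub) (K : Type) [Field K] [NumberField K] (hK : Module.finrank ℚ K = 3)
    (Z : ℝ) (z : ℤ × ℤ) (hz : Pt F Z z) (I : ℤ × ℤ → Ideal (𝓞 K))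
    (hI2 : ∀ z : ℤ × ℤ, ((F.val z : ℤ) : 𝓞 K) ∈ I z)
    (hI3 : ∀ z : ℤ × ℤ, IsCoprime z.1 z.2 → ∀ p : ℕ, p.Prime → (p : ℤ) ∣ F.val z →
        ¬ (p : ℤ) ∣ F.hes z → Ideal.absNorm (I z ⊔ Ideal.span {(p : 𝓞 K)}) = p)
    (r : ℤ) (hr : I z ≤ Ideal.span {(r : 𝓞 K)}) : 1 ≤ r.natAbs ∧ r.natAbs ≤ 4 := by
  obtain ⟨hc, hpos, -, -, hodd, htwo⟩ := hz
  have hrv : r ∣ F.val z := h1_dvd K hK _ _ (hr (hI2 z))
  have hr0 : r ≠ 0 := by
    rintro rfl
    rw [zero_dvd_iff] at hrv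
    omega
  have key : ∀ p : ℕ, p.Prime → (p : ℤ) ∣ r → ¬ (p : ℤ) ∣ F.hes z → False := by
    intro p hp hpr hh
    have h1 := hI3 z hc p hp (hpr.trans hrv) hh
    have h2 : I z ⊔ Ideal.span {(p : 𝓞 K)} = Ideal.span {(p : 𝓞 K)} := by
      apply sup_eq_right.mpr
      refine hr.trans ?_
      rw [Ideal.span_singleton_le_span_singleton]
      obtain ⟨k, hk⟩ := hpr
      refine ⟨(k : 𝓞 K), ?_⟩
      rw [hk]
      push_cast
      ring
    rw [h2, Ideal.absNorm_span_singleton] at h1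
    have h3 := h1_norm K hK (p : ℤ)
    rw [Int.cast_natCast] at h3
    rw [h3, Int.natAbs_pow, Int.natAbs_natCast] at h1
    have h4 := hp.two_le
    nlinarith [h1, h4, sq_nonneg p, Nat.mul_le_mul h4 h4]
  have hn0 : r.natAbs ≠ 0 := by omega
  have hpw : r.natAbs = 2 ^ r.natAbs.primeFactorsList.length := by
    apply Nat.eq_prime_pow_of_unique_prime_dvd hn0
    intro d hd hdr
    by_contra hne
    have h1 : (d : ℤ) ∣ r := Int.natCast_dvd.mpr hdr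
    exact key d hd h1 (hodd d hd hne (h1.trans hrv))
  refine ⟨by omega, ?_⟩
  by_contra hlt
  have hk : 3 ≤ r.natAbs.primeFactorsList.length := by
    by_contra hk
    have : r.natAbs.primeFactorsList.length ≤ 2 := by omega
    have h2 : 2 ^ r.natAbs.primeFactorsList.length ≤ 2 ^ 2 := Nat.pow_le_pow_right (by norm_num) this
    omega
  have h8 : 8 ∣ r.natAbs := by
    rw [hpw]
    exact (pow_dvd_pow 2 hk)
  have h8' : (8 : ℤ) ∣ r := by
    have := Int.natCast_dvd.mpr h8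
    exact_mod_cast this
  have h2' : ((2 : ℕ) : ℤ) ∣ r := Dvd.dvd.trans (by norm_num) h8'
  refine key 2 Nat.prime_two h2' ?_
  exact_mod_cast htwo (h8'.trans hrv)

/-- proportional ideals: numerator and denominator divide the ideals -/
theorem h1_prop (K : Type) [Field K] [NumberField K] (A B : Ideal (𝓞 K)) (q : ℚ)
    (h : (A : FractionalIdeal (nonZeroDivisors (𝓞 K)) K) =
      FractionalIdeal.spanSingleton (nonZeroDivisors (𝓞 K)) (q : K) *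
        (B : FractionalIdeal (nonZeroDivisors (𝓞 K)) K)) :
    A ≤ Ideal.span {((q.num : ℤ) : 𝓞 K)} ∧ B ≤ Ideal.span {((q.den : ℤ) : 𝓞 K)} := by
  have hcop : IsCoprime q.num (q.den : ℤ) := by
    rw [Int.isCoprime_iff_gcd_eq_one]
    exact q.reduced
  obtain ⟨u, v, huv⟩ := hcop
  have hden : (q.den : K) ≠ 0 := by exact_mod_cast q.den_ne_zero
  have hqK : (q : K) * (q.den : K) = (q.num : K) := by
    have h1 : q * (q.den : ℚ) = (q.num : ℚ) := Rat.mul_den_eq_num q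
    exact_mod_cast congrArg (fun t : ℚ => (t : K)) h1
  have huvO : (u : 𝓞 K) * (q.num : 𝓞 K) + (v : 𝓞 K) * ((q.den : ℤ) : 𝓞 K) = 1 := by
    exact_mod_cast congrArg (fun t : ℤ => (t : 𝓞 K)) huv
  have rel : ∀ x y : 𝓞 K, (x : K) = (q : K) * (y : K) →
      ((q.den : ℤ) : 𝓞 K) * x = (q.num : 𝓞 K) * y := by
    intro x y hxy
    have e : algebraMap (𝓞 K) K x = (q : K) * algebraMap (𝓞 K) K y := hxy
    apply NumberField.RingOfIntegers.ext
    simp only [map_mul, map_intCast, Int.cast_natCast, map_natCast]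
    rw [← hqK, e]
    ring
  constructor
  · intro x hx
    have hx' : (x : K) ∈ (A : FractionalIdeal (nonZeroDivisors (𝓞 K)) K) :=
      FractionalIdeal.mem_coeIdeal_of_mem _ hx
    rw [h, FractionalIdeal.mem_singleton_mul] at hx'
    obtain ⟨y', hy', hxy⟩ := hx'
    rw [FractionalIdeal.mem_coeIdeal] at hy'
    obtain ⟨y, hy, rfl⟩ := hy'
    have h1 := rel x y hxy
    rw [Ideal.mem_span_singleton]
    refine ⟨(u : 𝓞 K) * x + (v : 𝓞 K) * y, ?_⟩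
    calc x = ((u : 𝓞 K) * (q.num : 𝓞 K) + (v : 𝓞 K) * ((q.den : ℤ) : 𝓞 K)) * x := by
          rw [huvO, one_mul]
      _ = (u : 𝓞 K) * (q.num : 𝓞 K) * x + (v : 𝓞 K) * (((q.den : ℤ) : 𝓞 K) * x) := by ring
      _ = _ := by rw [h1]; ring
  · intro y hy
    have hy' : (q : K) * (y : K) ∈ (A : FractionalIdeal (nonZeroDivisors (𝓞 K)) K) := by
      rw [h, FractionalIdeal.mem_singleton_mul]
      exact ⟨(y : K), FractionalIdeal.mem_coeIdeal_of_mem _ hy, rfl⟩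
    rw [FractionalIdeal.mem_coeIdeal] at hy'
    obtain ⟨x, hx, hxy⟩ := hy'
    have h1 := rel x y hxy
    rw [Ideal.mem_span_singleton]
    refine ⟨(u : 𝓞 K) * x + (v : 𝓞 K) * y, ?_⟩
    calc y = ((u : 𝓞 K) * (q.num : 𝓞 K) + (v : 𝓞 K) * ((q.den : ℤ) : 𝓞 K)) * y := by
          rw [huvO, one_mul]
      _ = (u : 𝓞 K) * ((q.num : 𝓞 K) * y) + (v : 𝓞 K) * ((q.den : ℤ) : 𝓞 K) * y := by ring
      _ = _ := by rw [← h1]; ring

open Classical in
/-- the multiplicity -/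
theorem h1_mult (F : Cub) (K : Type) [Field K] [NumberField K] (hK : Module.finrank ℚ K = 3)
    (Z : ℝ) (S : Finset (ℤ × ℤ)) (hS : ∀ z ∈ S, Pt F Z z) (I : ℤ × ℤ → Ideal (𝓞 K))
    (hI2 : ∀ z : ℤ × ℤ, ((F.val z : ℤ) : 𝓞 K) ∈ I z)
    (hI3 : ∀ z : ℤ × ℤ, IsCoprime z.1 z.2 → ∀ p : ℕ, p.Prime → (p : ℤ) ∣ F.val z →
        ¬ (p : ℤ) ∣ F.hes z → Ideal.absNorm (I z ⊔ Ideal.span {(p : 𝓞 K)}) = p)
    (A : ℤ × ℤ → Ideal (𝓞 K)) (hA : ∀ z, I z ≤ A z) (s : ℤ × ℤ) (hs : s ∈ S) :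
    ((S.image A).filter (fun I => ∃ q : ℚ, q ≠ 0 ∧
      (I : FractionalIdeal (nonZeroDivisors (𝓞 K)) K) =
        FractionalIdeal.spanSingleton (nonZeroDivisors (𝓞 K)) (q : K) * (A s))).card ≤ 36 := by
  set W := (S.image A).filter (fun I => ∃ q : ℚ, q ≠ 0 ∧
      (I : FractionalIdeal (nonZeroDivisors (𝓞 K)) K) =
        FractionalIdeal.spanSingleton (nonZeroDivisors (𝓞 K)) (q : K) * (A s)) with hW
  have hsub : W ⊆ ((Icc (-4 : ℤ) 4 ×ˢ Icc (1 : ℕ) 4).image (fun t : ℤ × ℕ =>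
        FractionalIdeal.spanSingleton (nonZeroDivisors (𝓞 K)) ((t.1 : K) / (t.2 : K)) *
          (A s : FractionalIdeal (nonZeroDivisors (𝓞 K)) K))) := by
    intro J hJ
    rw [hW, Finset.mem_filter] at hJ
    obtain ⟨hJ1, q, -, hJq⟩ := hJ
    have hJ2 : ∃ s' ∈ S, (A s' : FractionalIdeal (nonZeroDivisors (𝓞 K)) K) = J := by
      simp only [Finset.bind_def, Finset.pure_def, Finset.mem_sup, Finset.mem_image,
        Finset.mem_singleton] at hJ1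
      obtain ⟨a, ⟨s', hs', rfl⟩, hJ⟩ := hJ1
      exact ⟨s', hs', hJ.symm⟩
    obtain ⟨s', hs', rfl⟩ := hJ2
    obtain ⟨p1, p2⟩ := h1_prop K (A s') (A s) q hJq
    have b1 := h1_div4 F K hK Z s' (hS s' hs') I hI2 hI3 q.num ((hA s').trans p1)
    have b2 := h1_div4 F K hK Z s (hS s hs) I hI2 hI3 (q.den : ℤ) ((hA s).trans p2)
    rw [Int.natAbs_natCast] at b2
    rw [Finset.mem_image]
    refine ⟨(q.num, q.den), ?_, ?_⟩
    · rw [Finset.mem_product, Finset.mem_Icc, Finset.mem_Icc]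
      simp only
      omega
    · simp only
      rw [hJq]
      congr 2
      have h1 : (q : ℚ) = (q.num : ℚ) / (q.den : ℚ) := (Rat.num_div_den q).symm
      have h2 := congrArg (fun t : ℚ => (t : K)) h1
      simp only [Rat.cast_div, Rat.cast_intCast, Rat.cast_natCast] at h2
      exact h2.symm
  calc W.card ≤ _ := Finset.card_le_card hsub
    _ ≤ (Icc (-4 : ℤ) 4 ×ˢ Icc (1 : ℕ) 4).card := Finset.card_image_le
    _ = 36 := by decide

open Classical in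
/-- the number of labels -/
theorem h1_labels (K : Type) [Field K] [NumberField K] (M N0 : ℕ) (P C1 C2 σ : ℝ) (hσ : 0 < σ)
    (hC2 : 0 < C2)
    (h1 : (((Icc 1 N0).filter (fun n => (nrad M n : ℝ) ≤ P)).card : ℝ) ≤ C1 * (N0 : ℝ) ^ σ * P)
    (h2 : ∀ n : ℕ, 1 ≤ n → ∀ S : Finset (Ideal (𝓞 K)), (∀ I ∈ S, (n : 𝓞 K) ∈ I) →
      (S.card : ℝ) ≤ C2 * (n : ℝ) ^ σ)
    (S : Finset (ℤ × ℤ)) (A : ℤ × ℤ → Ideal (𝓞 K)) (n : ℤ × ℤ → ℕ)
    (h : ∀ z ∈ S, 1 ≤ n z ∧ n z ≤ N0 ∧ (nrad M (n z) : ℝ) ≤ P ∧ (n z : 𝓞 K) ∈ A z) :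
    ((S.image A).card : ℝ) ≤ C1 * (N0 : ℝ) ^ σ * P * (C2 * (N0 : ℝ) ^ σ) := by
  have hsub : S.image A ⊆ ((Icc 1 N0).filter (fun n => (nrad M n : ℝ) ≤ P)).biUnion
      (fun m => (S.image A).filter (fun I => (m : 𝓞 K) ∈ I)) := by
    intro J hJ
    have hJ' := hJ
    rw [Finset.mem_image] at hJ
    obtain ⟨z, hz, rfl⟩ := hJ
    obtain ⟨a1, a2, a3, a4⟩ := h z hz
    rw [Finset.mem_biUnion]
    exact ⟨n z, Finset.mem_filter.mpr ⟨Finset.mem_Icc.mpr ⟨a1, a2⟩, a3⟩,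
      Finset.mem_filter.mpr ⟨hJ', a4⟩⟩
  have hc : (S.image A).card ≤ ∑ m ∈ (Icc 1 N0).filter (fun n => (nrad M n : ℝ) ≤ P),
      ((S.image A).filter (fun I => (m : 𝓞 K) ∈ I)).card :=
    (Finset.card_le_card hsub).trans Finset.card_biUnion_le
  have hc' : ((S.image A).card : ℝ) ≤ ∑ m ∈ (Icc 1 N0).filter (fun n => (nrad M n : ℝ) ≤ P),
      (((S.image A).filter (fun I => (m : 𝓞 K) ∈ I)).card : ℝ) := by
    exact_mod_cast hc
  have hb : ∑ m ∈ (Icc 1 N0).filter (fun n => (nrad M n : ℝ) ≤ P),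
      (((S.image A).filter (fun I => (m : 𝓞 K) ∈ I)).card : ℝ) ≤
      ∑ m ∈ (Icc 1 N0).filter (fun n => (nrad M n : ℝ) ≤ P), C2 * (N0 : ℝ) ^ σ := by
    apply Finset.sum_le_sum
    intro m hm
    rw [Finset.mem_filter, Finset.mem_Icc] at hm
    refine (h2 m hm.1.1 _ (fun I hI => (Finset.mem_filter.mp hI).2)).trans ?_
    refine mul_le_mul_of_nonneg_left ?_ hC2.le
    exact Real.rpow_le_rpow (by positivity) (by exact_mod_cast hm.1.2) hσ.le
  rw [Finset.sum_const, nsmul_eq_mul] at hb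
  exact (hc'.trans hb).trans (mul_le_mul_of_nonneg_right h1 (by positivity))

/-- a functional vanishing at 1 and θ -/
theorem h1_lam (K : Type) [Field K] [NumberField K] (hK : Module.finrank ℚ K = 3) (θ : K) :
    ∃ lam : K →ₗ[ℚ] ℚ, lam ≠ 0 ∧ ∀ z : ℤ × ℤ, lam ((z.1 : K) - θ * (z.2 : K)) = 0 := by
  classical
  set p : Submodule ℚ K := Submodule.span ℚ (({1, θ} : Finset K) : Set K) with hp
  have hlt : p < ⊤ := by
    rw [lt_top_iff_ne_top]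
    intro htop
    have h1 : Module.finrank ℚ p ≤ ({1, θ} : Finset K).card := finrank_span_finset_le_card _
    rw [htop, finrank_top, hK] at h1
    have h2 : ({1, θ} : Finset K).card ≤ 2 := Finset.card_le_two
    omega
  obtain ⟨lam, hlam, hker⟩ := Submodule.exists_le_ker_of_lt_top p hlt
  refine ⟨lam, hlam, fun z => ?_⟩
  have hmem : (z.1 : K) - θ * (z.2 : K) ∈ p := by
    have m1 : (1 : K) ∈ p := Submodule.subset_span (by simp)
    have m2 : θ ∈ p := Submodule.subset_span (by simp)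
    have e : (z.1 : K) - θ * (z.2 : K) = (z.1 : ℚ) • (1 : K) - (z.2 : ℚ) • θ := by
      rw [Algebra.smul_def, Algebra.smul_def]
      simp [mul_comm]
    rw [e]
    exact p.sub_mem (p.smul_mem _ m1) (p.smul_mem _ m2)
  exact hker hmem

/-- the points are determined by the numbers x - θ y -/
theorem h1_inj (K : Type) [Field K] [NumberField K] (θ : K) (hq : ∀ q : ℚ, θ ≠ (q : K))
    (z w : ℤ × ℤ) (h : (z.1 : K) - θ * (z.2 : K) = (w.1 : K) - θ * (w.2 : K)) : z = w := by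
  have h2 : z.2 = w.2 := by
    by_contra hne
    have hne' : ((z.2 : K) - (w.2 : K)) ≠ 0 := by
      intro h0
      apply hne
      exact_mod_cast sub_eq_zero.mp h0
    apply hq (((z.1 : ℚ) - w.1) / ((z.2 : ℚ) - w.2))
    push_cast
    rw [eq_div_iff hne']
    linear_combination (-1 : K) * h
  have h1 : (z.1 : K) = (w.1 : K) := by
    rw [h2] at h
    linear_combination h
  exact Prod.ext (by exact_mod_cast h1) h2

/-- the two labels -/
theorem h1_AB (K : Type) [Field K] [NumberField K] (I : Ideal (𝓞 K)) (m n : ℕ)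
    (hc : Nat.Coprime m n) (h : (((m : ℤ) * (n : ℤ) : ℤ) : 𝓞 K) ∈ I) :
    (I ⊔ Ideal.span {(m : 𝓞 K)}) * (I ⊔ Ideal.span {(n : 𝓞 K)}) = I := by
  obtain ⟨u, v, huv⟩ := Nat.isCoprime_iff_coprime.mpr hc
  have huv' : (u : 𝓞 K) * (m : 𝓞 K) + (v : 𝓞 K) * (n : 𝓞 K) = 1 := by
    exact_mod_cast congrArg (fun t : ℤ => (t : 𝓞 K)) huv
  apply le_antisymm
  · rw [Ideal.sup_mul, Ideal.mul_sup, Ideal.mul_sup]
    have hl : ∀ J : Ideal (𝓞 K), I * J ≤ I := fun J =>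
      Ideal.mul_le.mpr fun r hr s _ => I.mul_mem_right _ hr
    have hr : ∀ J : Ideal (𝓞 K), J * I ≤ I := fun J =>
      Ideal.mul_le.mpr fun r _ s hs => I.mul_mem_left _ hs
    refine sup_le (sup_le (hl _) (hl _)) (sup_le (hr _) ?_)
    rw [Ideal.span_singleton_mul_span_singleton, Ideal.span_singleton_le_iff_mem]
    have e : (((m : ℤ) * (n : ℤ) : ℤ) : 𝓞 K) = (m : 𝓞 K) * (n : 𝓞 K) := by push_cast; ring
    rw [← e]
    exact h
  · have htop : (I ⊔ Ideal.span {(m : 𝓞 K)}) ⊔ (I ⊔ Ideal.span {(n : 𝓞 K)}) = ⊤ := by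
      rw [Ideal.eq_top_iff_one, ← huv']
      apply Ideal.add_mem
      · apply Ideal.mul_mem_left
        exact Ideal.mem_sup_left (Ideal.mem_sup_right (Ideal.mem_span_singleton_self _))
      · apply Ideal.mul_mem_left
        exact Ideal.mem_sup_right (Ideal.mem_sup_right (Ideal.mem_span_singleton_self _))
    rw [Ideal.mul_eq_inf_of_coprime htop]
    exact le_inf le_sup_left le_sup_left

theorem count_st (ε : ℝ) (hε : 0 < ε) : ∃ C : ℝ, 0 < C ∧ ∀ (F : Cub), F.Irr → F.disc ≠ 0 →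
    ∀ Z : ℝ, 2 ≤ Z → (F.ht : ℝ) ≤ Z → ∀ (P L : ℝ), 1 ≤ P → 1 ≤ L → ∀ (S : Finset (ℤ × ℤ))
    (n₁ n₂ : ℤ × ℤ → ℕ), (∀ z ∈ S, Pt F Z z ∧ F.val z = (n₁ z : ℤ) * (n₂ z : ℤ) ∧
      Nat.Coprime (n₁ z) (n₂ z) ∧ (nrad (2 * F.disc.natAbs) (n₁ z) : ℝ) ≤ P ∧
      (nrad (2 * F.disc.natAbs) (n₂ z) : ℝ) ≤ L) →
    (S.card : ℝ) ≤ C * Z ^ ε * ((P * L) ^ (2 / 3 : ℝ) + P + L) := by
  classical
  have hσ : 0 < ε / 32 := by positivity
  have hδ : 0 < ε / 12 := by positivity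
  obtain ⟨C1, hC1, h1⟩ := card_nrad_le (ε / 32) hσ
  obtain ⟨C2, hC2, h2⟩ := card_ideals_dvd (ε / 32) hσ
  obtain ⟨C3, hC3, h3⟩ := lht_alpha
  obtain ⟨C5, hC5, h5⟩ := incid_ideals
  have hC10 : 0 < C1 := by linarith
  set C4 : ℝ := 1 + C3 / (ε / 12) with hC4
  set D : ℝ := C1 * (C2 + 1) with hD
  set g8 : ℝ := (108 : ℝ) ^ (ε / 32) with hg8
  have hC40 : 0 < C4 := by positivity
  have hD0 : 0 < D := by positivity
  have hD1 : 1 ≤ D := by
    have : 1 * 1 ≤ C1 * (C2 + 1) := mul_le_mul hC1 (by linarith) zero_le_one hC10.le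
    linarith
  have hg80 : 0 < g8 := by positivity
  have hg81 : 1 ≤ g8 := Real.one_le_rpow (by norm_num) hσ.le
  refine ⟨C5 * 36 ^ 2 * C4 ^ 6 * (D ^ 2 * g8 ^ 4), by positivity, ?_⟩
  intro F hF hdisc Z hZ hht P L hP hL S n₁ n₂ hS
  have hZ0 : 0 < Z := by linarith
  have hZ1 : 1 ≤ Z := by linarith
  obtain ⟨K, _, _, θ, hK, hθ, hq⟩ := exists_field F hF
  obtain ⟨g, I, hg, hI1, hI2, hI3⟩ := exists_idl F hF K hK θ hθ hq
  obtain ⟨lam, hlam0, hlam⟩ := h1_lam K hK θ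
  set N0 : ℕ := ⌊108 * Z ^ 4⌋₊ with hN0
  set M : ℕ := 2 * F.disc.natAbs with hM
  have hN0le : (N0 : ℝ) ≤ 108 * Z ^ 4 := Nat.floor_le (by positivity)
  have hM1 : 1 ≤ M := by
    have : 0 < F.disc.natAbs := Int.natAbs_pos.mpr hdisc
    omega
  have hMN : M ≤ N0 := by
    apply Nat.le_floor
    have e : (M : ℝ) = 2 * |(F.disc : ℝ)| := by
      rw [hM]
      push_cast
      rw [Nat.cast_natAbs]
      push_cast
      ring
    rw [e]
    linarith [h1_disc_le F Z hht]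
  have hz0 : ∀ z ∈ S, z ≠ 0 := by
    rintro z hz rfl
    exact not_isCoprime_zero_zero (hS _ hz).1.1
  have hnn : ∀ z ∈ S, 1 ≤ n₁ z ∧ 1 ≤ n₂ z ∧ n₁ z ≤ N0 ∧ n₂ z ≤ N0 := by
    intro z hz
    obtain ⟨hpt, hval, -, -, -⟩ := hS z hz
    obtain ⟨-, hpos, hx, hy, -, -⟩ := hpt
    have hv := h1_val_le F Z hht z hx hy
    have hprod : 0 < n₁ z * n₂ z := by
      rw [hval] at hpos
      exact_mod_cast hpos
    have hp1 : 0 < n₁ z := Nat.pos_of_mul_pos_right hprod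
    have hp2 : 0 < n₂ z := Nat.pos_of_mul_pos_left hprod
    have hle : n₁ z * n₂ z ≤ N0 := by
      apply Nat.le_floor
      have e : ((n₁ z * n₂ z : ℕ) : ℝ) = (F.val z : ℝ) := by
        rw [hval]
        push_cast
        ring
      rw [e]
      have h9 := (abs_le.mp hv).2
      nlinarith [pow_pos hZ0 4]
    exact ⟨hp1, hp2, (Nat.le_mul_of_pos_right _ hp2).trans hle,
      (Nat.le_mul_of_pos_left _ hp1).trans hle⟩
  set A : ℤ × ℤ → Ideal (𝓞 K) := fun z => I z ⊔ Ideal.span {(n₁ z : 𝓞 K)} with hA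
  set B : ℤ × ℤ → Ideal (𝓞 K) := fun z => I z ⊔ Ideal.span {(n₂ z : 𝓞 K)} with hB
  have hmemA : ∀ z, (n₁ z : 𝓞 K) ∈ A z := fun z =>
    Ideal.mem_sup_right (Ideal.mem_span_singleton_self _)
  have hmemB : ∀ z, (n₂ z : 𝓞 K) ∈ B z := fun z =>
    Ideal.mem_sup_right (Ideal.mem_span_singleton_self _)
  have hcA := h1_labels K M N0 P C1 C2 (ε / 32) hσ hC2 (h1 N0 M P hM1 hMN (by linarith))
    (fun n hn => h2 K hK n hn) S A n₁
    (fun z hz => ⟨(hnn z hz).1, (hnn z hz).2.2.1, (hS z hz).2.2.2.1, hmemA z⟩)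
  have hcB := h1_labels K M N0 L C1 C2 (ε / 32) hσ hC2 (h1 N0 M L hM1 hMN (by linarith))
    (fun n hn => h2 K hK n hn) S B n₂
    (fun z hz => ⟨(hnn z hz).2.1, (hnn z hz).2.2.2, (hS z hz).2.2.2.2, hmemB z⟩)
  have hI3' : ∀ z : ℤ × ℤ, IsCoprime z.1 z.2 → ∀ p : ℕ, p.Prime → (p : ℤ) ∣ F.val z →
      ¬ (p : ℤ) ∣ F.hes z → Ideal.absNorm (I z ⊔ Ideal.span {(p : 𝓞 K)}) = p :=
    fun z hc p hp h4 h6 => (hI3 z hc p hp h4 h6).2.1
  have hlog : 0 ≤ Real.log Z := Real.log_nonneg hZ1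
  have hT1 : 1 ≤ 1 + C3 * Real.log Z := by
    have : 0 ≤ C3 * Real.log Z := by positivity
    linarith
  have main := h5 K hK lam hlam0 g hg (1 + C3 * Real.log Z) hT1 36 S
    (fun z => (z.1 : K) - θ * (z.2 : K)) A B
    (by
      intro z hz
      constructor
      · intro hbot
        have h6 := hmemA z
        rw [hbot, Ideal.mem_bot] at h6
        have h7 : n₁ z = 0 := by exact_mod_cast h6
        have := (hnn z hz).1
        omega
      · intro hbot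
        have h6 := hmemB z
        rw [hbot, Ideal.mem_bot] at h6
        have h7 : n₂ z = 0 := by exact_mod_cast h6
        have := (hnn z hz).2.1
        omega)
    (by
      intro z hz
      rw [hI1 z (hz0 z hz), mul_assoc, ← FractionalIdeal.coeIdeal_mul]
      congr 2
      refine (h1_AB K (I z) (n₁ z) (n₂ z) (hS z hz).2.2.1 ?_).symm
      rw [← (hS z hz).2.1]
      exact hI2 z)
    (fun z _ => hlam z)
    (by
      intro z hz
      have hpt := (hS z hz).1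
      have h6 := h3 F hF K hK θ hθ hq Z hZ hht z (hz0 z hz) hpt.2.2.1 hpt.2.2.2.1
      exact ⟨h6.1, fun φ => (h6.2 φ).trans (by linarith)⟩)
    (fun z _ w _ h => h1_inj K θ hq z w h)
    (fun s hs => h1_mult F K hK Z S (fun z hz => (hS z hz).1) I hI2 hI3' A
      (fun z => le_sup_left) s hs)
    (fun s hs => h1_mult F K hK Z S (fun z hz => (hS z hz).1) I hI2 hI3' B
      (fun z => le_sup_left) s hs)
  have hPL : 0 ≤ (P * L) ^ (2 / 3 : ℝ) := by positivity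
  -- the size of the factors
  set w : ℝ := g8 * Z ^ (4 * (ε / 32)) with hw
  have hZσ : 1 ≤ Z ^ (4 * (ε / 32)) := Real.one_le_rpow hZ1 (by positivity)
  have hw1 : 1 ≤ w := by
    have : 1 * 1 ≤ g8 * Z ^ (4 * (ε / 32)) := mul_le_mul hg81 hZσ zero_le_one hg80.le
    linarith
  have hNw : (N0 : ℝ) ^ (ε / 32) ≤ w := by
    calc (N0 : ℝ) ^ (ε / 32) ≤ (108 * Z ^ 4) ^ (ε / 32) :=
          Real.rpow_le_rpow (by positivity) hN0le hσ.le
      _ = w := by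
          rw [Real.mul_rpow (by norm_num) (by positivity), hw, hg8, ← Real.rpow_natCast Z 4,
            ← Real.rpow_mul hZ0.le]
          norm_num
  have hN00 : 0 ≤ (N0 : ℝ) ^ (ε / 32) := by positivity
  set W : ℝ := D * w ^ 2 with hW
  have hW1 : 1 ≤ W := by
    have : 1 * 1 ≤ D * w ^ 2 := mul_le_mul hD1 (one_le_pow₀ hw1) zero_le_one hD0.le
    linarith
  have hlab : ∀ Q : ℝ, 1 ≤ Q → C1 * (N0 : ℝ) ^ (ε / 32) * Q * (C2 * (N0 : ℝ) ^ (ε / 32)) ≤ W * Q := by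
    intro Q hQ
    have hsq : (N0 : ℝ) ^ (ε / 32) * (N0 : ℝ) ^ (ε / 32) ≤ w * w :=
      mul_le_mul hNw hNw hN00 (by linarith)
    calc C1 * (N0 : ℝ) ^ (ε / 32) * Q * (C2 * (N0 : ℝ) ^ (ε / 32))
        = (C1 * C2) * ((N0 : ℝ) ^ (ε / 32) * (N0 : ℝ) ^ (ε / 32)) * Q := by ring
      _ ≤ D * (w * w) * Q := by
          refine mul_le_mul_of_nonneg_right ?_ (by linarith)
          refine mul_le_mul ?_ hsq (by positivity) hD0.le
          rw [hD]
          exact mul_le_mul_of_nonneg_left (by linarith) hC10.le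
      _ = W * Q := by rw [hW]; ring
  have hA' := hcA.trans (hlab P hP)
  have hB' := hcB.trans (hlab L hL)
  have hWW : W ≤ W ^ 2 := by nlinarith
  have hsum : (((S.image A).card : ℝ) * ((S.image B).card : ℝ)) ^ (2 / 3 : ℝ) +
        ((S.image A).card : ℝ) + ((S.image B).card : ℝ) ≤
      W ^ 2 * ((P * L) ^ (2 / 3 : ℝ) + P + L) := by
    have s1 : (((S.image A).card : ℝ) * ((S.image B).card : ℝ)) ^ (2 / 3 : ℝ) ≤
        W ^ 2 * (P * L) ^ (2 / 3 : ℝ) := by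
      calc (((S.image A).card : ℝ) * ((S.image B).card : ℝ)) ^ (2 / 3 : ℝ)
          ≤ (W * P * (W * L)) ^ (2 / 3 : ℝ) :=
            Real.rpow_le_rpow (by positivity)
              (mul_le_mul hA' hB' (by positivity) (by positivity)) (by norm_num)
        _ = (W ^ 2) ^ (2 / 3 : ℝ) * (P * L) ^ (2 / 3 : ℝ) := by
            rw [← Real.mul_rpow (by positivity) (by positivity)]
            congr 1
            ring
        _ ≤ (W ^ 2) ^ (1 : ℝ) * (P * L) ^ (2 / 3 : ℝ) := by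
            refine mul_le_mul_of_nonneg_right ?_ hPL
            exact Real.rpow_le_rpow_of_exponent_le (one_le_pow₀ hW1) (by norm_num)
        _ = W ^ 2 * (P * L) ^ (2 / 3 : ℝ) := by rw [Real.rpow_one]
    have s2 : ((S.image A).card : ℝ) ≤ W ^ 2 * P :=
      hA'.trans (mul_le_mul_of_nonneg_right hWW (by linarith))
    have s3 : ((S.image B).card : ℝ) ≤ W ^ 2 * L :=
      hB'.trans (mul_le_mul_of_nonneg_right hWW (by linarith))
    linarith [s1, s2, s3]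
  have hTle : 1 + C3 * Real.log Z ≤ C4 * Z ^ (ε / 12) := by
    have h6 := Real.log_le_rpow_div hZ0.le hδ
    have h7 : 1 ≤ Z ^ (ε / 12) := Real.one_le_rpow hZ1 hδ.le
    have h8 : C3 * Real.log Z ≤ C3 * (Z ^ (ε / 12) / (ε / 12)) :=
      mul_le_mul_of_nonneg_left h6 hC3.le
    calc 1 + C3 * Real.log Z ≤ Z ^ (ε / 12) + C3 * (Z ^ (ε / 12) / (ε / 12)) := by linarith
      _ = C4 * Z ^ (ε / 12) := by rw [hC4]; ring
  have hT6 : (1 + C3 * Real.log Z) ^ 6 ≤ C4 ^ 6 * Z ^ (ε / 2) := by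
    calc (1 + C3 * Real.log Z) ^ 6 ≤ (C4 * Z ^ (ε / 12)) ^ 6 :=
          pow_le_pow_left₀ (by linarith) hTle 6
      _ = C4 ^ 6 * Z ^ (ε / 2) := by
          rw [mul_pow, ← Real.rpow_natCast (Z ^ (ε / 12)) 6, ← Real.rpow_mul hZ0.le]
          congr 2
          push_cast
          ring
  have hW2 : W ^ 2 = D ^ 2 * g8 ^ 4 * Z ^ (ε / 2) := by
    have h6 : (Z ^ (4 * (ε / 32))) ^ 4 = Z ^ (ε / 2) := by
      rw [← Real.rpow_natCast (Z ^ (4 * (ε / 32))) 4, ← Real.rpow_mul hZ0.le]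
      congr 1
      push_cast
      ring
    calc W ^ 2 = D ^ 2 * g8 ^ 4 * (Z ^ (4 * (ε / 32))) ^ 4 := by rw [hW, hw]; ring
      _ = _ := by rw [h6]
  have hZZ : Z ^ (ε / 2) * Z ^ (ε / 2) = Z ^ ε := by
    rw [← Real.rpow_add hZ0]
    congr 1
    ring
  have hX : 0 ≤ (P * L) ^ (2 / 3 : ℝ) + P + L := by linarith
  calc (S.card : ℝ) ≤ C5 * ((36 : ℕ) : ℝ) ^ 2 * (1 + C3 * Real.log Z) ^ 6 *
        ((((S.image A).card : ℝ) * ((S.image B).card : ℝ)) ^ (2 / 3 : ℝ) +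
          ((S.image A).card : ℝ) + ((S.image B).card : ℝ)) := main
    _ ≤ C5 * ((36 : ℕ) : ℝ) ^ 2 * (C4 ^ 6 * Z ^ (ε / 2)) *
        (W ^ 2 * ((P * L) ^ (2 / 3 : ℝ) + P + L)) := by
        refine mul_le_mul ?_ hsum (by positivity) (by positivity)
        exact mul_le_mul_of_nonneg_left hT6 (by positivity)
    _ = C5 * 36 ^ 2 * C4 ^ 6 * (D ^ 2 * g8 ^ 4) * (Z ^ (ε / 2) * Z ^ (ε / 2)) *
        ((P * L) ^ (2 / 3 : ℝ) + P + L) := by
        rw [hW2]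
        push_cast
        ring
    _ = _ := by rw [hZZ]

end Pool.Agent.Lib.SqPart
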