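import Pool.Agent.Lib.MP_d8bd92_nt.SqHDefs
import Pool.Agent.Lib.MP_d8bd92_nt.SqD1
import Pool.Agent.Lib.MP_d8bd92_nt.SqD3
import Pool.Agent.Lib.MP_d8bd92_nt.SqE1

set_option autoImplicit false

/-!
Points for which the value has one large prime to the first power.

PROOF. N0 <= C Z^5 bounds F.val z and M = 2|disc| as in SqH1. Group S by the value m of m z (1 <= m <= N0, nrad M m <= Q), and by
the parity of hes z. For a group let m' = m if hes z is odd, and m' = odd part of m if hes z is even (then 8 does not divide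
F.val z, so m' >= m/4). m' is prime to hes z for the z of the group and m' | F.val z. Choose a maximal subset of the
group whose elements are pairwise inequivalent (m' not | wedge z w): at most C N0^σ elements by `card_classes_mod`;
every element w of the group satisfies m' | wedge z w for some z in it. CLAIM: the relation m' | wedge is transitive here
(z, w, w' primitive: m' | wedge z w and m' | wedge z w' imply m' | wedge w w': with u z-complement; w = s z + t u,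
w' = s' z + t' u, m' | t, t', wedge w w' = s t' - t s'). So the group is a union of at most C N0^σ classes in which
m' | wedge w w' for all pairs, and wedge w w' is not 0 for w not w' (primitive, positive value: wedge = 0 means
w' = ± w, and F.val (-w) = -F.val w). `lattice_count` with m', T = m P: the class has at most
C log Z ((mP)^(2/3)/m' + 1) <= C log Z (4 P^(2/3) m^(-1/3) + 1) elements. Sum over m: `sum_nrad_le` and `card_nrad_le`:
C Z^ε (P^(2/3) Q^(2/3) + Q).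
-/

namespace Pool.Agent.Lib.SqPart

open Finset

/-- the Plücker relation -/
theorem h2_plucker (z u w w' : ℤ × ℤ) (h : wedge z u = 1) :
    wedge w w' = wedge z w * wedge u w' - wedge z w' * wedge u w := by
  have : wedge w w' = wedge z u * wedge w w' := by rw [h, one_mul]
  rw [this]
  unfold wedge
  ring

theorem h2_compl (z : ℤ × ℤ) (h : IsCoprime z.1 z.2) : ∃ u : ℤ × ℤ, wedge z u = 1 := by
  obtain ⟨a, b, hab⟩ := h
  refine ⟨(-b, a), ?_⟩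
  unfold wedge
  linear_combination hab

theorem h2_trans (m : ℤ) (z w w' : ℤ × ℤ) (hz : IsCoprime z.1 z.2) (h1 : m ∣ wedge z w)
    (h2 : m ∣ wedge z w') : m ∣ wedge w w' := by
  obtain ⟨u, hu⟩ := h2_compl z hz
  rw [h2_plucker z u w w' hu]
  exact dvd_sub (h1.mul_right _) (h2.mul_right _)

theorem h2_val_neg (F : Cub) (z : ℤ × ℤ) : F.val (-z) = - F.val z := by
  unfold Cub.val
  simp only [Prod.fst_neg, Prod.snd_neg]
  ring

theorem h2_wedge_zero (F : Cub) (z w : ℤ × ℤ) (hz : IsCoprime z.1 z.2) (hw : IsCoprime w.1 w.2)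
    (hzv : 0 < F.val z) (hwv : 0 < F.val w) (h : wedge z w = 0) : z = w := by
  obtain ⟨u, hu⟩ := h2_compl z hz
  have h1 : w.1 = wedge w u * z.1 := by
    have e : wedge z u * w.1 - wedge w u * z.1 = u.1 * wedge z w := by
      unfold wedge; ring
    rw [hu, h] at e
    linarith
  have h2 : w.2 = wedge w u * z.2 := by
    have e : wedge z u * w.2 - wedge w u * z.2 = u.2 * wedge z w := by
      unfold wedge; ring
    rw [hu, h] at e
    linarith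
  have h3 : wedge w u ∣ 1 := by
    obtain ⟨a, b, hab⟩ := hw
    refine ⟨a * z.1 + b * z.2, ?_⟩
    rw [← hab]
    nth_rw 1 [h1]
    nth_rw 1 [h2]
    ring
  rcases Int.isUnit_iff.1 (isUnit_of_dvd_one h3) with h4 | h4
  · rw [h4] at h1 h2
    exact Prod.ext (by linarith) (by linarith)
  · exfalso
    rw [h4] at h1 h2
    have h5 : w = -z := Prod.ext (by simp [h1]) (by simp [h2])
    rw [h5, h2_val_neg] at hwv
    linarith

/-- representatives -/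
theorem h2_reps (m : ℤ) (G : Finset (ℤ × ℤ)) : ∃ R : Finset (ℤ × ℤ), R ⊆ G ∧
    (∀ z ∈ R, ∀ w ∈ R, m ∣ wedge z w → z = w) ∧ ∀ z ∈ G, ∃ r ∈ R, m ∣ wedge r z := by
  classical
  induction G using Finset.induction_on with
  | empty => exact ⟨∅, by simp, by simp, by simp⟩
  | insert z G hz ih =>
    obtain ⟨R, hR1, hR2, hR3⟩ := ih
    by_cases h : ∃ r ∈ R, m ∣ wedge r z
    · refine ⟨R, hR1.trans (Finset.subset_insert _ _), hR2, ?_⟩
      intro w hw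
      rcases Finset.mem_insert.1 hw with rfl | hw
      · exact h
      · exact hR3 w hw
    · push Not at h
      have hneg : ∀ a b : ℤ × ℤ, wedge a b = -wedge b a := by
        intro a b; unfold wedge; ring
      refine ⟨insert z R, Finset.insert_subset_insert _ hR1, ?_, ?_⟩
      · intro a ha b hb hab
        rcases Finset.mem_insert.1 ha with ha' | ha'
        · rcases Finset.mem_insert.1 hb with hb' | hb'
          · rw [ha', hb']
          · exfalso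
            apply h b hb'
            rw [hneg b z, ← ha']
            exact (dvd_neg).2 hab
        · rcases Finset.mem_insert.1 hb with hb' | hb'
          · rw [hb'] at hab
            exact absurd hab (h a ha')
          · exact hR2 a ha' b hb' hab
      · intro w hw
        rcases Finset.mem_insert.1 hw with rfl | hw
        · refine ⟨w, Finset.mem_insert_self _ _, ?_⟩
          have : wedge w w = 0 := by unfold wedge; ring
          rw [this]; exact dvd_zero _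
        · obtain ⟨r, hr, hrw⟩ := hR3 w hw
          exact ⟨r, Finset.mem_insert_of_mem hr, hrw⟩

/-- the class bound -/
theorem h2_group (C₁ C₂ σ : ℝ) (hC₁ : 0 < C₁) (hC₂ : 0 < C₂) (hσ : 0 < σ)
    (hL : ∀ (F : Cub), F.Irr → F.disc ≠ 0 → ∀ (m : ℕ) (T Z : ℝ),
    1 ≤ m → 1 ≤ T → 2 ≤ Z → (F.ht : ℝ) ≤ Z → ∀ S : Finset (ℤ × ℤ),
    (∀ z ∈ S, 0 < F.val z ∧ (F.val z : ℝ) ≤ T ∧ |(z.1 : ℝ)| ≤ Z ∧ |(z.2 : ℝ)| ≤ Z) →
    (∀ z ∈ S, ∀ w ∈ S, z ≠ w → wedge z w ≠ 0 ∧ (m : ℤ) ∣ wedge z w) →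
    (S.card : ℝ) ≤ C₁ * Real.log Z * (T ^ (2 / 3 : ℝ) / m + 1))
    (hK : ∀ (F : Cub) (m : ℕ), 1 ≤ m →
    ∀ S : Finset (ℤ × ℤ), (∀ z ∈ S, IsCoprime z.1 z.2 ∧ (m : ℤ) ∣ F.val z ∧
      IsCoprime (m : ℤ) (F.hes z)) →
    (∀ z ∈ S, ∀ w ∈ S, (m : ℤ) ∣ wedge z w → z = w) →
    (S.card : ℝ) ≤ C₂ * (m : ℝ) ^ σ)
    (F : Cub) (hF : F.Irr) (hd : F.disc ≠ 0) (Z : ℝ) (hZ : 2 ≤ Z) (hht : (F.ht : ℝ) ≤ Z)
    (P : ℝ) (hP : 1 ≤ P) (n N₀ : ℕ) (hn : 1 ≤ n) (hnN : n ≤ N₀) (b : Prop) (G : Finset (ℤ × ℤ))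
    (hG : ∀ z ∈ G, Pt F Z z ∧ (n : ℤ) ∣ F.val z ∧ (F.val z : ℝ) ≤ n * P ∧ (2 ∣ F.hes z ↔ b)) :
    (G.card : ℝ) ≤ (C₂ * (N₀ : ℝ) ^ σ) * (C₁ * Real.log Z *
      (4 * P ^ (2 / 3 : ℝ) * (n : ℝ) ^ (-(1 / 3) : ℝ) + 1)) := by
  classical
  have hn1 : (1 : ℝ) ≤ n := by exact_mod_cast hn
  have hn0 : (0 : ℝ) < n := by linarith
  have hlZ : 0 ≤ Real.log Z := Real.log_nonneg (by linarith)
  rcases G.eq_empty_or_nonempty with rfl | ⟨z₀, hz₀⟩
  · rw [Finset.card_empty]; push_cast; positivity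
  -- the modulus
  have hmod : ∃ m : ℕ, 1 ≤ m ∧ m ∣ n ∧ (n : ℝ) ≤ 4 * m ∧ (b → ¬ 2 ∣ m) := by
    by_cases hb : b
    · refine ⟨n / 2 ^ (n.factorization 2), ?_, Nat.ordCompl_dvd n 2, ?_, fun _ => ?_⟩
      · exact Nat.ordCompl_pos 2 (by omega)
      · obtain ⟨hPt, hnv, -, hpar⟩ := hG z₀ hz₀
        have h8 : ¬ (8 : ℤ) ∣ F.val z₀ := fun h => (hPt.2.2.2.2.2 h) (hpar.2 hb)
        have h8n : ¬ 8 ∣ n := by
          intro h
          apply h8
          have : (8 : ℤ) ∣ (n : ℤ) := by exact_mod_cast h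
          exact this.trans hnv
        have hv : n.factorization 2 ≤ 2 := by
          by_contra hcon
          push Not at hcon
          apply h8n
          have h9 : 2 ^ 3 ∣ 2 ^ (n.factorization 2) := pow_dvd_pow 2 hcon
          exact (by simpa using h9.trans (Nat.ordProj_dvd n 2))
        have h10 : 2 ^ (n.factorization 2) * (n / 2 ^ (n.factorization 2)) = n :=
          Nat.ordProj_mul_ordCompl_eq_self n 2
        have h11 : 2 ^ (n.factorization 2) ≤ 4 := by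
          calc 2 ^ (n.factorization 2) ≤ 2 ^ 2 := Nat.pow_le_pow_right (by norm_num) hv
            _ = 4 := by norm_num
        have h12 : n ≤ 4 * (n / 2 ^ (n.factorization 2)) := by
          calc n = 2 ^ (n.factorization 2) * (n / 2 ^ (n.factorization 2)) := h10.symm
            _ ≤ 4 * (n / 2 ^ (n.factorization 2)) := Nat.mul_le_mul_right _ h11
        exact_mod_cast h12
      · exact Nat.not_dvd_ordCompl Nat.prime_two (by omega)
    · exact ⟨n, hn, dvd_rfl, by linarith, fun h => absurd h hb⟩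
  obtain ⟨m, hm1, hmn, hnm, hmb⟩ := hmod
  have hm0 : (0 : ℝ) < m := by exact_mod_cast hm1
  have hcop : ∀ z ∈ G, IsCoprime z.1 z.2 ∧ (m : ℤ) ∣ F.val z ∧ IsCoprime (m : ℤ) (F.hes z) := by
    intro z hz
    obtain ⟨hPt, hnv, -, hpar⟩ := hG z hz
    have hmv : (m : ℤ) ∣ F.val z := (Int.natCast_dvd_natCast.2 hmn).trans hnv
    refine ⟨hPt.1, hmv, ?_⟩
    rw [Int.isCoprime_iff_gcd_eq_one]
    have : Nat.Coprime m (F.hes z).natAbs := by
      apply Nat.Coprime.symm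
      apply Nat.coprime_of_dvd
      intro q hq hqh hqm
      have hqh' : (q : ℤ) ∣ F.hes z := Int.natCast_dvd.2 hqh
      have hqv : (q : ℤ) ∣ F.val z := (Int.natCast_dvd_natCast.2 hqm).trans hmv
      by_cases hq2 : q = 2
      · subst hq2
        exact hmb (hpar.1 (by exact_mod_cast hqh')) hqm
      · exact hPt.2.2.2.2.1 q hq hq2 hqv hqh'
    rw [Int.gcd_eq_natAbs, Int.natAbs_natCast]
    exact this
  obtain ⟨R, hR1, hR2, hR3⟩ := h2_reps (m : ℤ) G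
  have hRc : (R.card : ℝ) ≤ C₂ * (N₀ : ℝ) ^ σ := by
    refine (hK F m hm1 R (fun z hz => hcop z (hR1 hz)) hR2).trans ?_
    apply mul_le_mul_of_nonneg_left _ hC₂.le
    apply Real.rpow_le_rpow hm0.le _ hσ.le
    have : m ≤ N₀ := (Nat.le_of_dvd (by omega) hmn).trans hnN
    exact_mod_cast this
  have hT : (1 : ℝ) ≤ n * P := by nlinarith
  have hclass : ∀ r ∈ R, ((G.filter fun z => (m : ℤ) ∣ wedge r z).card : ℝ) ≤
      C₁ * Real.log Z * (4 * P ^ (2 / 3 : ℝ) * (n : ℝ) ^ (-(1 / 3) : ℝ) + 1) := by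
    intro r hr
    have h1 := hL F hF hd m (n * P) Z hm1 hT hZ hht (G.filter fun z => (m : ℤ) ∣ wedge r z) ?_ ?_
    · refine h1.trans ?_
      apply mul_le_mul_of_nonneg_left _ (by positivity)
      have h2 : ((n : ℝ) * P) ^ (2 / 3 : ℝ) / m ≤
          4 * P ^ (2 / 3 : ℝ) * (n : ℝ) ^ (-(1 / 3) : ℝ) := by
        rw [Real.mul_rpow hn0.le (by linarith), div_le_iff₀ hm0]
        have h3 : (n : ℝ) ^ (2 / 3 : ℝ) = n * (n : ℝ) ^ (-(1 / 3) : ℝ) := by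
          rw [← Real.rpow_one_add' hn0.le (by norm_num)]; norm_num
        rw [h3]
        have h4 : 0 ≤ (n : ℝ) ^ (-(1 / 3) : ℝ) := by positivity
        have h5 : 0 ≤ P ^ (2 / 3 : ℝ) := by positivity
        calc (n : ℝ) * (n : ℝ) ^ (-(1 / 3) : ℝ) * P ^ (2 / 3 : ℝ)
            = n * ((n : ℝ) ^ (-(1 / 3) : ℝ) * P ^ (2 / 3 : ℝ)) := by ring
          _ ≤ (4 * m) * ((n : ℝ) ^ (-(1 / 3) : ℝ) * P ^ (2 / 3 : ℝ)) :=
              mul_le_mul_of_nonneg_right hnm (mul_nonneg h4 h5)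
          _ = _ := by ring
      linarith
    · intro z hz
      obtain ⟨hz1, -⟩ := Finset.mem_filter.1 hz
      obtain ⟨hPt, -, hval, -⟩ := hG z hz1
      exact ⟨hPt.2.1, hval, hPt.2.2.1, hPt.2.2.2.1⟩
    · intro z hz w hw hne
      obtain ⟨hz1, hz2⟩ := Finset.mem_filter.1 hz
      obtain ⟨hw1, hw2⟩ := Finset.mem_filter.1 hw
      have hPz := (hG z hz1).1
      have hPw := (hG w hw1).1
      have hPr := (hG r (hR1 hr)).1
      refine ⟨fun h => hne (h2_wedge_zero F z w hPz.1 hPw.1 hPz.2.1 hPw.2.1 h), ?_⟩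
      exact h2_trans m r z w hPr.1 hz2 hw2
  have hcover : G ⊆ R.biUnion fun r => G.filter fun z => (m : ℤ) ∣ wedge r z := by
    intro z hz
    obtain ⟨r, hr, hrz⟩ := hR3 z hz
    exact Finset.mem_biUnion.2 ⟨r, hr, Finset.mem_filter.2 ⟨hz, hrz⟩⟩
  have hcard : (G.card : ℝ) ≤ ∑ r ∈ R, ((G.filter fun z => (m : ℤ) ∣ wedge r z).card : ℝ) := by
    have h1 := (Finset.card_le_card hcover).trans Finset.card_biUnion_le
    exact_mod_cast h1
  refine hcard.trans ((Finset.sum_le_card_nsmul _ _ _ hclass).trans ?_)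
  rw [nsmul_eq_mul]
  apply mul_le_mul_of_nonneg_right hRc
  positivity

theorem h2_val_le (F : Cub) (Z : ℝ) (hZ : 2 ≤ Z) (hht : (F.ht : ℝ) ≤ Z) (z : ℤ × ℤ)
    (h1 : |(z.1 : ℝ)| ≤ Z) (h2 : |(z.2 : ℝ)| ≤ Z) : (F.val z : ℝ) ≤ Z ^ 4 := by
  unfold Cub.ht at hht
  push_cast at hht
  unfold Cub.val
  push_cast
  have hZ0 : 0 ≤ Z := by linarith
  have key : ∀ (a x : ℝ), |x| ≤ Z ^ 3 → a * x ≤ |a| * Z ^ 3 := by
    intro a x hx
    calc a * x ≤ |a * x| := le_abs_self _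
      _ = |a| * |x| := abs_mul _ _
      _ ≤ |a| * Z ^ 3 := mul_le_mul_of_nonneg_left hx (abs_nonneg _)
  have e1 : |(z.1 : ℝ) ^ 3| ≤ Z ^ 3 := by rw [abs_pow]; exact pow_le_pow_left₀ (abs_nonneg _) h1 3
  have e4 : |(z.2 : ℝ) ^ 3| ≤ Z ^ 3 := by rw [abs_pow]; exact pow_le_pow_left₀ (abs_nonneg _) h2 3
  have e2 : |(z.1 : ℝ) ^ 2 * z.2| ≤ Z ^ 3 := by
    rw [abs_mul, abs_pow]
    calc |(z.1 : ℝ)| ^ 2 * |(z.2 : ℝ)| ≤ Z ^ 2 * Z :=
          mul_le_mul (pow_le_pow_left₀ (abs_nonneg _) h1 2) h2 (abs_nonneg _) (by positivity)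
      _ = Z ^ 3 := by ring
  have e3 : |(z.1 : ℝ) * (z.2 : ℝ) ^ 2| ≤ Z ^ 3 := by
    rw [abs_mul, abs_pow]
    calc |(z.1 : ℝ)| * |(z.2 : ℝ)| ^ 2 ≤ Z * Z ^ 2 :=
          mul_le_mul h1 (pow_le_pow_left₀ (abs_nonneg _) h2 2) (by positivity) hZ0
      _ = Z ^ 3 := by ring
  have f1 := key F.a _ e1
  have f2 := key F.b _ e2
  have f3 := key F.c _ e3
  have f4 := key F.d _ e4
  have hZ3 : 0 ≤ Z ^ 3 := by positivity
  have f5 : (|(F.a : ℝ)| + |(F.b : ℝ)| + |(F.c : ℝ)| + |(F.d : ℝ)|) * Z ^ 3 ≤ Z * Z ^ 3 :=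
    mul_le_mul_of_nonneg_right hht hZ3
  calc (F.a : ℝ) * (z.1 : ℝ) ^ 3 + F.b * (z.1 : ℝ) ^ 2 * z.2 + F.c * z.1 * (z.2 : ℝ) ^ 2 +
        F.d * (z.2 : ℝ) ^ 3 = F.a * ((z.1 : ℝ) ^ 3) + F.b * ((z.1 : ℝ) ^ 2 * z.2) +
        F.c * (z.1 * (z.2 : ℝ) ^ 2) + F.d * ((z.2 : ℝ) ^ 3) := by ring
    _ ≤ (|(F.a : ℝ)| + |(F.b : ℝ)| + |(F.c : ℝ)| + |(F.d : ℝ)|) * Z ^ 3 := by linarith
    _ ≤ Z * Z ^ 3 := f5
    _ = Z ^ 4 := by ring

theorem h2_disc_le (F : Cub) (Z : ℝ) (hht : (F.ht : ℝ) ≤ Z) :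
    |(F.disc : ℝ)| ≤ 54 * Z ^ 4 := by
  unfold Cub.ht at hht
  push_cast at hht
  have a0 := abs_nonneg (F.a : ℝ)
  have b0 := abs_nonneg (F.b : ℝ)
  have c0 := abs_nonneg (F.c : ℝ)
  have d0 := abs_nonneg (F.d : ℝ)
  have hZ0 : 0 ≤ Z := by linarith
  have ha : |(F.a : ℝ)| ≤ Z := by linarith
  have hb : |(F.b : ℝ)| ≤ Z := by linarith
  have hc : |(F.c : ℝ)| ≤ Z := by linarith
  have hd : |(F.d : ℝ)| ≤ Z := by linarith
  have key : ∀ x y z w : ℝ, |x| ≤ Z → |y| ≤ Z → |z| ≤ Z → |w| ≤ Z → |x * y * z * w| ≤ Z ^ 4 := by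
    intro x y z w hx hy hz hw
    rw [abs_mul, abs_mul, abs_mul]
    calc |x| * |y| * |z| * |w| ≤ Z * Z * Z * Z := by
          apply mul_le_mul _ hw (abs_nonneg _) (by positivity)
          apply mul_le_mul _ hz (abs_nonneg _) (by positivity)
          exact mul_le_mul hx hy (abs_nonneg _) hZ0
      _ = Z ^ 4 := by ring
  unfold Cub.disc
  push_cast
  have k1 := abs_le.1 (key F.b F.b F.c F.c hb hb hc hc)
  have k2 := abs_le.1 (key F.a F.c F.c F.c ha hc hc hc)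
  have k3 := abs_le.1 (key F.b F.b F.b F.d hb hb hb hd)
  have k4 := abs_le.1 (key F.a F.a F.d F.d ha ha hd hd)
  have k5 := abs_le.1 (key F.a F.b F.c F.d ha hb hc hd)
  rw [abs_le]
  constructor <;> nlinarith

theorem count_one (ε : ℝ) (hε : 0 < ε) : ∃ C : ℝ, 0 < C ∧ ∀ (F : Cub), F.Irr → F.disc ≠ 0 →
    ∀ Z : ℝ, 2 ≤ Z → (F.ht : ℝ) ≤ Z → ∀ (P Q : ℝ), 1 ≤ P → 1 ≤ Q → ∀ (S : Finset (ℤ × ℤ))
    (p m : ℤ × ℤ → ℕ), (∀ z ∈ S, Pt F Z z ∧ F.val z = (p z : ℤ) * (m z : ℤ) ∧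
      (p z).Prime ∧ ¬ (p z) ∣ m z ∧ ((p z : ℕ) : ℝ) ≤ P ∧
      (nrad (2 * F.disc.natAbs) (m z) : ℝ) ≤ Q) →
    (S.card : ℝ) ≤ C * Z ^ ε * ((P * Q) ^ (2 / 3 : ℝ) + Q) := by
  classical
  set σ : ℝ := ε / 34 with hσ
  have hσ0 : 0 < σ := by rw [hσ]; positivity
  obtain ⟨C₁, hC₁, hL⟩ := lattice_count
  obtain ⟨C₂, hC₂, hK⟩ := card_classes_mod σ hσ0
  obtain ⟨C₃, hC₃, hS⟩ := sum_nrad_le σ hσ0
  obtain ⟨C₄, hC₄, hN⟩ := card_nrad_le σ hσ0
  refine ⟨2 * (C₂ * (C₁ * (1 / σ))) * (4 * C₃ + C₄), by positivity, ?_⟩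
  intro F hF hd Z hZ hht P Q hP hQ S p m hSz
  have hZ0 : 0 < Z := by linarith
  set N₀ : ℕ := ⌊108 * Z ^ 4⌋₊ with hN₀
  have hN₀le : (N₀ : ℝ) ≤ 108 * Z ^ 4 := Nat.floor_le (by positivity)
  have hN₀Z : (N₀ : ℝ) ≤ Z ^ 11 := by
    refine hN₀le.trans ?_
    have h1 : (2 : ℝ) ^ 7 ≤ Z ^ 7 := pow_le_pow_left₀ (by norm_num) hZ 7
    have h2 : 0 ≤ Z ^ 4 := by positivity
    calc 108 * Z ^ 4 ≤ 2 ^ 7 * Z ^ 4 := by nlinarith
      _ ≤ Z ^ 7 * Z ^ 4 := mul_le_mul_of_nonneg_right h1 h2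
      _ = Z ^ 11 := by ring
  set M : ℕ := 2 * F.disc.natAbs with hM
  have hM1 : 1 ≤ M := by
    have : 1 ≤ F.disc.natAbs := Int.natAbs_pos.2 hd
    omega
  have hMN : M ≤ N₀ := by
    apply Nat.le_floor
    rw [hM]
    push_cast
    have h1 := h2_disc_le F Z hht
    have h2 : ((F.disc.natAbs : ℕ) : ℝ) = |(F.disc : ℝ)| := by
      rw [← Int.cast_natCast, Int.natCast_natAbs]; push_cast; rfl
    rw [h2]
    linarith
  set J : Finset ℕ := (Icc 1 N₀).filter (fun n => (nrad M n : ℝ) ≤ Q) with hJ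
  -- the basic facts for z in S
  have hbase : ∀ z ∈ S, m z ∈ J ∧ ((m z : ℕ) : ℤ) ∣ F.val z ∧ (F.val z : ℝ) ≤ (m z : ℝ) * P := by
    intro z hz
    obtain ⟨hPt, hval, hp, hpm, hpP, hnr⟩ := hSz z hz
    have hv0 := hPt.2.1
    have hm1 : 1 ≤ m z := by
      rcases Nat.eq_zero_or_pos (m z) with h | h
      · rw [h] at hval
        simp at hval
        omega
      · exact h
    have hp1 : 1 ≤ p z := hp.one_lt.le
    have hmv : (m z : ℝ) ≤ (F.val z : ℝ) := by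
      have h1 : ((m z : ℕ) : ℤ) ≤ F.val z := by
        rw [hval]
        have : (1 : ℤ) ≤ (p z : ℤ) := by exact_mod_cast hp1
        have : (0 : ℤ) ≤ (m z : ℤ) := Int.natCast_nonneg _
        nlinarith
      exact_mod_cast h1
    have hvZ := h2_val_le F Z hZ hht z hPt.2.2.1 hPt.2.2.2.1
    refine ⟨?_, ?_, ?_⟩
    · rw [hJ, Finset.mem_filter, Finset.mem_Icc]
      refine ⟨⟨hm1, Nat.le_floor ?_⟩, hnr⟩
      have : 0 ≤ Z ^ 4 := by positivity
      linarith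
    · rw [hval]; exact dvd_mul_left _ _
    · rw [hval]
      push_cast
      rw [mul_comm]
      exact mul_le_mul_of_nonneg_left hpP (Nat.cast_nonneg _)
  let g : ℤ × ℤ → ℕ × Bool := fun z => (m z, decide (2 ∣ F.hes z))
  have hmaps : ∀ z ∈ S, g z ∈ J ×ˢ (Finset.univ : Finset Bool) := by
    intro z hz
    rw [Finset.mem_product]
    exact ⟨(hbase z hz).1, Finset.mem_univ _⟩
  have hcard := Finset.card_eq_sum_card_fiberwise hmaps
  set A : ℝ := (C₂ * (N₀ : ℝ) ^ σ) * (C₁ * Real.log Z) with hA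
  have hlZ : 0 ≤ Real.log Z := Real.log_nonneg (by linarith)
  have hA0 : 0 ≤ A := by rw [hA]; positivity
  have hfib : ∀ i ∈ J ×ˢ (Finset.univ : Finset Bool), ((S.filter fun z => g z = i).card : ℝ) ≤
      A * (4 * P ^ (2 / 3 : ℝ) * (i.1 : ℝ) ^ (-(1 / 3) : ℝ) + 1) := by
    rintro ⟨n, b⟩ hi
    obtain ⟨hnJ, -⟩ := Finset.mem_product.1 hi
    simp only at hnJ
    rw [hJ, Finset.mem_filter, Finset.mem_Icc] at hnJ
    have h1 := h2_group C₁ C₂ σ hC₁ hC₂ hσ0 hL hK F hF hd Z hZ hht P hP n N₀ hnJ.1.1 hnJ.1.2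
      (b = true) (S.filter fun z => g z = (n, b)) ?_
    · refine h1.trans (le_of_eq ?_)
      rw [hA]; ring
    · intro z hz
      obtain ⟨hz1, hz2⟩ := Finset.mem_filter.1 hz
      obtain ⟨h1, h2, h3⟩ := hbase z hz1
      have e1 : m z = n := congrArg Prod.fst hz2
      have e2 : decide (2 ∣ F.hes z) = b := congrArg Prod.snd hz2
      rw [e1] at h2 h3
      refine ⟨(hSz z hz1).1, h2, h3, ?_⟩
      rw [← e2, decide_eq_true_eq]
  have htotal : (S.card : ℝ) ≤ ∑ i ∈ J ×ˢ (Finset.univ : Finset Bool),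
      A * (4 * P ^ (2 / 3 : ℝ) * (i.1 : ℝ) ^ (-(1 / 3) : ℝ) + 1) := by
    rw [hcard]
    push_cast
    exact Finset.sum_le_sum hfib
  have hsum : ∑ i ∈ J ×ˢ (Finset.univ : Finset Bool),
      A * (4 * P ^ (2 / 3 : ℝ) * (i.1 : ℝ) ^ (-(1 / 3) : ℝ) + 1) =
      2 * A * (4 * P ^ (2 / 3 : ℝ) * ∑ n ∈ J, (n : ℝ) ^ (-(1 / 3) : ℝ) + J.card) := by
    rw [Finset.sum_product]
    simp only [Finset.sum_const, Finset.card_univ, Fintype.card_bool, nsmul_eq_mul]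
    rw [← Finset.mul_sum, ← Finset.mul_sum, Finset.sum_add_distrib, ← Finset.mul_sum]
    simp only [Finset.sum_const, nsmul_eq_mul, mul_one]
    push_cast
    ring
  rw [hsum] at htotal
  have hs1 := hS N₀ M Q hM1 hMN hQ
  have hs2 := hN N₀ M Q hM1 hMN (by linarith)
  rw [← hJ] at hs1 hs2
  have hNσ : (N₀ : ℝ) ^ σ ≤ Z ^ (11 * σ) := by
    calc (N₀ : ℝ) ^ σ ≤ (Z ^ 11) ^ σ := Real.rpow_le_rpow (Nat.cast_nonneg _) hN₀Z hσ0.le
      _ = Z ^ (11 * σ) := by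
          rw [← Real.rpow_natCast, ← Real.rpow_mul hZ0.le]; norm_num
  have hNσ0 : 0 ≤ (N₀ : ℝ) ^ σ := by positivity
  have hlog : Real.log Z ≤ Z ^ σ / σ := Real.log_le_rpow_div hZ0.le hσ0
  set W : ℝ := Z ^ (11 * σ) with hW
  have hW0 : 0 ≤ W := by rw [hW]; positivity
  have hAle : A ≤ (C₂ * (C₁ * (1 / σ))) * (W * Z ^ σ) := by
    rw [hA]
    calc (C₂ * (N₀ : ℝ) ^ σ) * (C₁ * Real.log Z) ≤ (C₂ * W) * (C₁ * (Z ^ σ / σ)) := by
          apply mul_le_mul _ _ (by positivity) (by positivity)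
          · exact mul_le_mul_of_nonneg_left hNσ hC₂.le
          · exact mul_le_mul_of_nonneg_left hlog hC₁.le
      _ = _ := by ring
  have hPQ : (P * Q) ^ (2 / 3 : ℝ) = P ^ (2 / 3 : ℝ) * Q ^ (2 / 3 : ℝ) :=
    Real.mul_rpow (by linarith) (by linarith)
  have hP0 : 0 ≤ P ^ (2 / 3 : ℝ) := by positivity
  have hQ0 : 0 ≤ Q ^ (2 / 3 : ℝ) := by positivity
  have hbr : 4 * P ^ (2 / 3 : ℝ) * ∑ n ∈ J, (n : ℝ) ^ (-(1 / 3) : ℝ) + J.card ≤
      (4 * C₃ + C₄) * W * ((P * Q) ^ (2 / 3 : ℝ) + Q) := by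
    rw [hPQ]
    have e1 : ∑ n ∈ J, (n : ℝ) ^ (-(1 / 3) : ℝ) ≤ C₃ * W * Q ^ (2 / 3 : ℝ) :=
      hs1.trans (mul_le_mul_of_nonneg_right (mul_le_mul_of_nonneg_left hNσ (by linarith)) hQ0)
    have e2 : (J.card : ℝ) ≤ C₄ * W * Q :=
      hs2.trans (mul_le_mul_of_nonneg_right (mul_le_mul_of_nonneg_left hNσ (by linarith)) (by linarith))
    have e3 : 4 * P ^ (2 / 3 : ℝ) * ∑ n ∈ J, (n : ℝ) ^ (-(1 / 3) : ℝ) ≤
        4 * P ^ (2 / 3 : ℝ) * (C₃ * W * Q ^ (2 / 3 : ℝ)) :=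
      mul_le_mul_of_nonneg_left e1 (by positivity)
    have e4 : 0 ≤ C₄ * W * (P ^ (2 / 3 : ℝ) * Q ^ (2 / 3 : ℝ)) := by positivity
    have e5 : 0 ≤ 4 * C₃ * W * Q := by
      have : 0 ≤ Q := by linarith
      positivity
    calc _ ≤ 4 * P ^ (2 / 3 : ℝ) * (C₃ * W * Q ^ (2 / 3 : ℝ)) + C₄ * W * Q := add_le_add e3 e2
      _ ≤ 4 * P ^ (2 / 3 : ℝ) * (C₃ * W * Q ^ (2 / 3 : ℝ)) + C₄ * W * Q +
        (C₄ * W * (P ^ (2 / 3 : ℝ) * Q ^ (2 / 3 : ℝ)) + 4 * C₃ * W * Q) := by linarith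
      _ = _ := by ring
  have hQ1 : 0 ≤ Q := by linarith
  have hPQ0 : 0 ≤ (P * Q) ^ (2 / 3 : ℝ) + Q := by rw [hPQ]; positivity
  have hbr0 : 0 ≤ 4 * P ^ (2 / 3 : ℝ) * ∑ n ∈ J, (n : ℝ) ^ (-(1 / 3) : ℝ) + J.card := by
    have : 0 ≤ ∑ n ∈ J, (n : ℝ) ^ (-(1 / 3) : ℝ) :=
      Finset.sum_nonneg fun _ _ => by positivity
    positivity
  have hpow : W * Z ^ σ * W ≤ Z ^ ε := by
    rw [hW, ← Real.rpow_add hZ0, ← Real.rpow_add hZ0]
    apply Real.rpow_le_rpow_of_exponent_le (by linarith)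
    have : ε = 34 * σ := by rw [hσ]; ring
    linarith
  calc (S.card : ℝ) ≤ 2 * A * (4 * P ^ (2 / 3 : ℝ) * ∑ n ∈ J, (n : ℝ) ^ (-(1 / 3) : ℝ) + J.card) :=
        htotal
    _ ≤ (2 * ((C₂ * (C₁ * (1 / σ))) * (W * Z ^ σ))) *
        ((4 * C₃ + C₄) * W * ((P * Q) ^ (2 / 3 : ℝ) + Q)) := by
        apply mul_le_mul _ hbr hbr0 (by positivity)
        linarith
    _ = 2 * (C₂ * (C₁ * (1 / σ))) * (4 * C₃ + C₄) * (W * Z ^ σ * W) *
        ((P * Q) ^ (2 / 3 : ℝ) + Q) := by ring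
    _ ≤ 2 * (C₂ * (C₁ * (1 / σ))) * (4 * C₃ + C₄) * Z ^ ε *
        ((P * Q) ^ (2 / 3 : ℝ) + Q) := by
        apply mul_le_mul_of_nonneg_right _ hPQ0
        exact mul_le_mul_of_nonneg_left hpow (by positivity)

end Pool.Agent.Lib.SqPart
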