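import Pool.Agent.Lib.MP_d8bd92_nt.SqHDefs
import Pool.Agent.Lib.MP_d8bd92_nt.SqB2
import Pool.Agent.Lib.MP_d8bd92_nt.SqB8
import Pool.Agent.Lib.MP_d8bd92_nt.SqC1
import Pool.Agent.Lib.MP_d8bd92_nt.SqC3
import Pool.Agent.Lib.MP_d8bd92_nt.SqE1

set_option autoImplicit false

/-!
Points for which the value has one large odd prime to a higher power.

PROOF. K, θ, g, I, lam, α, T, N0 as in SqH1. For z in S, p = p z, i = i z, m = m z: P_z := I z ⊔ span{p} is prime of norm p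
and I z ≤ P_z^i (`exists_idl`; p odd, so p does not divide hes z). I z is nonzero. Let a be the exponent of P_z in
I z: a >= i >= 2, and I z = P_z^a * b_z with P_z not | b_z. p^a <= absNorm (I z), and absNorm(I z) divides
absNorm of (F.val z) = (F.val z)^3, so a <= C log Z. b_z contains m: p^i m ∈ I z ≤ b_z, and b_z ⊔ span{p} = ⊤ (a prime
Q containing b_z and p contains I z and p, so P_z ≤ Q, Q = P_z, but P_z does not divide b_z); so m ∈ b_z.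
Group S by (a, b_z): m <= N0 with nrad M m <= Q: at most C N0^σ Q values of m, then C N0^σ ideals b_z; so at most
C Z^(10σ) Q log Z groups. For a group: (α z) = g b P_z^a, apply `curve_ideals` with h = g b, exponent a, P: at most
C a^5 T^6 (D_K P)^σ (D_K^(1/2) + D_K^(1/4) P^(1/2)), D_K = |discr K| <= |F.disc| (`discr_le`), P <= p <= N0.
-/

namespace Pool.Agent.Lib.SqPart

open Finset NumberField

theorem h3_val (F : Cub) (Z : ℝ) (hZ : 2 ≤ Z) (hF : (F.ht : ℝ) ≤ Z) (z : ℤ × ℤ)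
    (h1 : |(z.1 : ℝ)| ≤ Z) (h2 : |(z.2 : ℝ)| ≤ Z) : |(F.val z : ℝ)| ≤ Z ^ 4 := by
  have hZ0 : 0 ≤ Z := by linarith
  have hht : |(F.a : ℝ)| + |(F.b : ℝ)| + |(F.c : ℝ)| + |(F.d : ℝ)| ≤ Z := by
    have : ((F.ht : ℤ) : ℝ) = |(F.a : ℝ)| + |(F.b : ℝ)| + |(F.c : ℝ)| + |(F.d : ℝ)| := by
      unfold Cub.ht
      push_cast
      ring
    rw [← this]
    exact hF
  have e1 : |(F.a * z.1 ^ 3 : ℝ)| ≤ |(F.a : ℝ)| * Z ^ 3 := by
    rw [abs_mul, abs_pow]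
    exact mul_le_mul_of_nonneg_left (pow_le_pow_left₀ (abs_nonneg _) h1 3) (abs_nonneg _)
  have e2 : |(F.b * z.1 ^ 2 * z.2 : ℝ)| ≤ |(F.b : ℝ)| * Z ^ 3 := by
    rw [abs_mul, abs_mul, abs_pow, mul_assoc]
    have : |(z.1 : ℝ)| ^ 2 * |(z.2 : ℝ)| ≤ Z ^ 2 * Z :=
      mul_le_mul (pow_le_pow_left₀ (abs_nonneg _) h1 2) h2 (abs_nonneg _) (by positivity)
    calc |(F.b : ℝ)| * (|(z.1 : ℝ)| ^ 2 * |(z.2 : ℝ)|) ≤ |(F.b : ℝ)| * (Z ^ 2 * Z) :=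
          mul_le_mul_of_nonneg_left this (abs_nonneg _)
      _ = |(F.b : ℝ)| * Z ^ 3 := by ring
  have e3 : |(F.c * z.1 * z.2 ^ 2 : ℝ)| ≤ |(F.c : ℝ)| * Z ^ 3 := by
    rw [abs_mul, abs_mul, abs_pow, mul_assoc]
    have : |(z.1 : ℝ)| * |(z.2 : ℝ)| ^ 2 ≤ Z * Z ^ 2 :=
      mul_le_mul h1 (pow_le_pow_left₀ (abs_nonneg _) h2 2) (by positivity) (by positivity)
    calc |(F.c : ℝ)| * (|(z.1 : ℝ)| * |(z.2 : ℝ)| ^ 2) ≤ |(F.c : ℝ)| * (Z * Z ^ 2) :=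
          mul_le_mul_of_nonneg_left this (abs_nonneg _)
      _ = |(F.c : ℝ)| * Z ^ 3 := by ring
  have e4 : |(F.d * z.2 ^ 3 : ℝ)| ≤ |(F.d : ℝ)| * Z ^ 3 := by
    rw [abs_mul, abs_pow]
    exact mul_le_mul_of_nonneg_left (pow_le_pow_left₀ (abs_nonneg _) h2 3) (abs_nonneg _)
  have e5 : ((F.val z : ℤ) : ℝ) = F.a * z.1 ^ 3 + F.b * z.1 ^ 2 * z.2 + F.c * z.1 * z.2 ^ 2 +
      F.d * z.2 ^ 3 := by
    unfold Cub.val
    push_cast
    ring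
  rw [e5]
  have e6 := abs_add_le (F.a * z.1 ^ 3 + F.b * z.1 ^ 2 * z.2 + F.c * z.1 * z.2 ^ 2 : ℝ)
    (F.d * z.2 ^ 3)
  have e7 := abs_add_le (F.a * z.1 ^ 3 + F.b * z.1 ^ 2 * z.2 : ℝ) (F.c * z.1 * z.2 ^ 2)
  have e8 := abs_add_le (F.a * z.1 ^ 3 : ℝ) (F.b * z.1 ^ 2 * z.2)
  have e9 : (|(F.a : ℝ)| + |(F.b : ℝ)| + |(F.c : ℝ)| + |(F.d : ℝ)|) * Z ^ 3 ≤ Z * Z ^ 3 :=
    mul_le_mul_of_nonneg_right hht (by positivity)
  have e10 : Z ^ 4 = Z * Z ^ 3 := by ring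
  rw [e10]
  nlinarith

theorem h3_disc (F : Cub) (Z : ℝ) (hZ : 2 ≤ Z) (hF : (F.ht : ℝ) ≤ Z) :
    2 * |(F.disc : ℝ)| ≤ Z ^ 11 := by
  have hZ0 : 0 ≤ Z := by linarith
  have hht : |(F.a : ℝ)| + |(F.b : ℝ)| + |(F.c : ℝ)| + |(F.d : ℝ)| ≤ Z := by
    have : ((F.ht : ℤ) : ℝ) = |(F.a : ℝ)| + |(F.b : ℝ)| + |(F.c : ℝ)| + |(F.d : ℝ)| := by
      unfold Cub.ht
      push_cast
      ring
    rw [← this]
    exact hF
  obtain ⟨a, ha⟩ : ∃ a : ℝ, a = F.a := ⟨_, rfl⟩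
  obtain ⟨b, hb⟩ : ∃ b : ℝ, b = F.b := ⟨_, rfl⟩
  obtain ⟨c, hc⟩ : ∃ c : ℝ, c = F.c := ⟨_, rfl⟩
  obtain ⟨d, hd⟩ : ∃ d : ℝ, d = F.d := ⟨_, rfl⟩
  have hdisc : ((F.disc : ℤ) : ℝ) = b ^ 2 * c ^ 2 - 4 * a * c ^ 3 - 4 * b ^ 3 * d -
      27 * a ^ 2 * d ^ 2 + 18 * a * b * c * d := by
    rw [ha, hb, hc, hd]
    unfold Cub.disc
    push_cast
    ring
  rw [← ha, ← hb, ← hc, ← hd] at hht
  have A0 := abs_nonneg a
  have B0 := abs_nonneg b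
  have C0 := abs_nonneg c
  have D0 := abs_nonneg d
  have A1 : |a| ≤ Z := by linarith
  have B1 : |b| ≤ Z := by linarith
  have C1 : |c| ≤ Z := by linarith
  have D1 : |d| ≤ Z := by linarith
  have t1 : |b ^ 2 * c ^ 2| ≤ Z ^ 4 := by
    rw [abs_mul, abs_pow, abs_pow]
    calc |b| ^ 2 * |c| ^ 2 ≤ Z ^ 2 * Z ^ 2 := mul_le_mul (pow_le_pow_left₀ B0 B1 2)
          (pow_le_pow_left₀ C0 C1 2) (by positivity) (by positivity)
      _ = Z ^ 4 := by ring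
  have t2 : |4 * a * c ^ 3| ≤ 4 * Z ^ 4 := by
    rw [abs_mul, abs_mul, abs_pow, abs_of_pos (by norm_num : (0 : ℝ) < 4)]
    calc 4 * |a| * |c| ^ 3 ≤ 4 * Z * Z ^ 3 := mul_le_mul (by linarith)
          (pow_le_pow_left₀ C0 C1 3) (by positivity) (by positivity)
      _ = 4 * Z ^ 4 := by ring
  have t3 : |4 * b ^ 3 * d| ≤ 4 * Z ^ 4 := by
    rw [abs_mul, abs_mul, abs_pow, abs_of_pos (by norm_num : (0 : ℝ) < 4)]
    have := pow_le_pow_left₀ B0 B1 3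
    calc 4 * |b| ^ 3 * |d| ≤ 4 * Z ^ 3 * Z := mul_le_mul (by linarith)
          D1 (by positivity) (by positivity)
      _ = 4 * Z ^ 4 := by ring
  have t4 : |27 * a ^ 2 * d ^ 2| ≤ 27 * Z ^ 4 := by
    rw [abs_mul, abs_mul, abs_pow, abs_pow, abs_of_pos (by norm_num : (0 : ℝ) < 27)]
    have := pow_le_pow_left₀ A0 A1 2
    calc 27 * |a| ^ 2 * |d| ^ 2 ≤ 27 * Z ^ 2 * Z ^ 2 := mul_le_mul (by linarith)
          (pow_le_pow_left₀ D0 D1 2) (by positivity) (by positivity)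
      _ = 27 * Z ^ 4 := by ring
  have t5 : |18 * a * b * c * d| ≤ 18 * Z ^ 4 := by
    rw [abs_mul, abs_mul, abs_mul, abs_mul, abs_of_pos (by norm_num : (0 : ℝ) < 18)]
    have u1 : 18 * |a| ≤ 18 * Z := by linarith
    have u2 : 18 * |a| * |b| ≤ 18 * Z * Z := mul_le_mul u1 B1 B0 (by positivity)
    have u3 : 18 * |a| * |b| * |c| ≤ 18 * Z * Z * Z := mul_le_mul u2 C1 C0 (by positivity)
    calc 18 * |a| * |b| * |c| * |d| ≤ 18 * Z * Z * Z * Z := mul_le_mul u3 D1 D0 (by positivity)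
      _ = 18 * Z ^ 4 := by ring
  have hab : |(F.disc : ℝ)| ≤ 54 * Z ^ 4 := by
    rw [hdisc]
    rw [abs_le] at t1 t2 t3 t4 t5 ⊢
    constructor <;> linarith [t1.1, t1.2, t2.1, t2.2, t3.1, t3.2, t4.1, t4.2, t5.1, t5.2]
  have h7 : (108 : ℝ) ≤ Z ^ 7 := by
    have : (2 : ℝ) ^ 7 ≤ Z ^ 7 := pow_le_pow_left₀ (by norm_num) hZ 7
    linarith [this, (by norm_num : (2 : ℝ) ^ 7 = 128)]
  calc 2 * |(F.disc : ℝ)| ≤ 108 * Z ^ 4 := by linarith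
    _ ≤ Z ^ 7 * Z ^ 4 := mul_le_mul_of_nonneg_right h7 (by positivity)
    _ = Z ^ 11 := by ring

/-- the part prime to `P` -/
theorem h3_decomp {K : Type} [Field K] [NumberField K] (J : Ideal (𝓞 K)) (hJ : J ≠ ⊥) (p i m : ℕ)
    (hp : p.Prime) (hP : (J ⊔ Ideal.span {(p : 𝓞 K)}).IsPrime)
    (hN : Ideal.absNorm (J ⊔ Ideal.span {(p : 𝓞 K)}) = p)
    (hi : J ≤ (J ⊔ Ideal.span {(p : 𝓞 K)}) ^ i) (hm : ((p : 𝓞 K)) ^ i * (m : 𝓞 K) ∈ J) :
    ∃ (a : ℕ) (b : Ideal (𝓞 K)), i ≤ a ∧ J = (J ⊔ Ideal.span {(p : 𝓞 K)}) ^ a * b ∧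
      (m : 𝓞 K) ∈ b := by
  set P := J ⊔ Ideal.span {(p : 𝓞 K)} with hPdef
  have hPbot : P ≠ ⊥ := by
    intro h0
    rw [h0] at hN
    simp at hN
    exact hp.ne_zero hN.symm
  have hPtop : P ≠ ⊤ := hP.ne_top
  have hunit : ¬ IsUnit P := by
    rw [Ideal.isUnit_iff]
    exact hPtop
  have hfin : FiniteMultiplicity P J := FiniteMultiplicity.of_not_isUnit hunit hJ
  obtain ⟨b, hb1, hb2⟩ := hfin.exists_eq_pow_mul_and_not_dvd
  refine ⟨multiplicity P J, b, ?_, hb1, ?_⟩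
  · rw [← hfin.pow_dvd_iff_le_multiplicity]
    exact Ideal.dvd_iff_le.2 hi
  · have hJb : J ≤ b := by
      have h0 : P ^ multiplicity P J * b ≤ b := Ideal.mul_le_right
      rwa [← hb1] at h0
    have hmax : P.IsMaximal := hP.isMaximal hPbot
    have hcop : b ⊔ Ideal.span {(p : 𝓞 K)} = ⊤ := by
      by_contra hne
      obtain ⟨Q, hQm, hQ⟩ := Ideal.exists_le_maximal _ hne
      have h1 : P ≤ Q := sup_le ((hJb.trans le_sup_left).trans hQ) (le_sup_right.trans hQ)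
      have h2 : P = Q := hmax.eq_of_le hQm.ne_top h1
      apply hb2
      rw [Ideal.dvd_iff_le, h2]
      exact le_sup_left.trans hQ
    have h3 : b ⊔ Ideal.span {(p : 𝓞 K)} ^ i = ⊤ := Ideal.sup_pow_eq_top hcop
    have h4 : (1 : 𝓞 K) ∈ b ⊔ Ideal.span {(p : 𝓞 K)} ^ i := by
      rw [h3]
      trivial
    rw [Ideal.span_singleton_pow] at h4
    obtain ⟨x, hx, y, hy, hxy⟩ := Submodule.mem_sup.1 h4
    obtain ⟨t, ht⟩ := Ideal.mem_span_singleton'.1 hy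
    have h5 : (m : 𝓞 K) = (m : 𝓞 K) * x + t * ((p : 𝓞 K) ^ i * (m : 𝓞 K)) := by
      calc (m : 𝓞 K) = (m : 𝓞 K) * (x + y) := by rw [hxy, mul_one]
        _ = (m : 𝓞 K) * x + t * ((p : 𝓞 K) ^ i * (m : 𝓞 K)) := by
          rw [← ht]
          ring
    rw [h5]
    exact b.add_mem (b.mul_mem_left _ hx) (b.mul_mem_left _ (hJb hm))

theorem h3_norm {K : Type} [Field K] [NumberField K] (hK : Module.finrank ℚ K = 3)
    (J P b : Ideal (𝓞 K)) (n p a : ℕ) (hn : 1 ≤ n) (hnJ : (n : 𝓞 K) ∈ J) (hJ : J = P ^ a * b)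
    (hP : Ideal.absNorm P = p) : p ^ a ≤ n ^ 3 := by
  have h1 : Ideal.absNorm (Ideal.span {(n : 𝓞 K)}) = n ^ 3 := by
    rw [Ideal.absNorm_span_natCast, RingOfIntegers.rank, hK]
  have h0 : J ≤ P ^ a := by
    rw [hJ]
    exact Ideal.mul_le_left
  have h2 : Ideal.absNorm (P ^ a) ∣ Ideal.absNorm (Ideal.span {(n : 𝓞 K)}) :=
    Ideal.absNorm_dvd_absNorm_of_le (((Ideal.span_singleton_le_iff_mem _).2 hnJ).trans h0)
  rw [h1, map_pow, hP] at h2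
  exact Nat.le_of_dvd (by positivity) h2

theorem h3_lam {K : Type} [Field K] [NumberField K] (hK : Module.finrank ℚ K = 3) (θ : K) :
    ∃ lam : K →ₗ[ℚ] ℚ, lam ≠ 0 ∧ ∀ x y : ℤ, lam ((x : K) - θ * (y : K)) = 0 := by
  classical
  have hlt : Submodule.span ℚ (({1, θ} : Finset K) : Set K) < ⊤ := by
    rw [lt_top_iff_ne_top]
    intro h
    have h1 := finrank_span_finset_le_card (R := ℚ) ({1, θ} : Finset K)
    rw [Set.finrank, h, finrank_top, hK] at h1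
    have h2 : ({1, θ} : Finset K).card ≤ 2 := Finset.card_le_two
    omega
  obtain ⟨lam, h0, hk⟩ := Submodule.exists_le_ker_of_lt_top _ hlt
  refine ⟨lam, h0, fun x y => ?_⟩
  have h1 : (x : K) - θ * (y : K) ∈ Submodule.span ℚ (({1, θ} : Finset K) : Set K) := by
    have e1 : (x : K) = (x : ℚ) • (1 : K) := by
      rw [Algebra.smul_def]
      simp
    have e2 : θ * (y : K) = (y : ℚ) • θ := by
      rw [Algebra.smul_def]
      simp [mul_comm]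
    rw [e1, e2]
    exact Submodule.sub_mem _ (Submodule.smul_mem _ _ (Submodule.subset_span (by simp)))
      (Submodule.smul_mem _ _ (Submodule.subset_span (by simp)))
  exact hk h1

theorem h3_inj {K : Type} [Field K] [NumberField K] (θ : K) (hq : ∀ q : ℚ, θ ≠ (q : K))
    (z w : ℤ × ℤ) (h : (z.1 : K) - θ * (z.2 : K) = (w.1 : K) - θ * (w.2 : K)) : z = w := by
  have h1 : (z.1 : K) - w.1 = θ * ((z.2 : K) - w.2) := by linear_combination h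
  by_cases h2 : z.2 = w.2
  · rw [h2, sub_self, mul_zero, sub_eq_zero] at h1
    exact Prod.ext (by exact_mod_cast h1) h2
  · exfalso
    have h3 : ((z.2 : K) - w.2) ≠ 0 := by
      rw [sub_ne_zero]
      exact_mod_cast h2
    apply hq (((z.1 - w.1 : ℤ) : ℚ) / ((z.2 - w.2 : ℤ) : ℚ))
    push_cast
    rw [eq_div_iff h3]
    exact h1.symm

theorem count_pow (ε : ℝ) (hε : 0 < ε) : ∃ C : ℝ, 0 < C ∧ ∀ (F : Cub), F.Irr → F.disc ≠ 0 →
    ∀ Z : ℝ, 2 ≤ Z → (F.ht : ℝ) ≤ Z → ∀ (P Q : ℝ), 1 ≤ P → 1 ≤ Q → ∀ (S : Finset (ℤ × ℤ))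
    (p i m : ℤ × ℤ → ℕ), (∀ z ∈ S, Pt F Z z ∧ F.val z = (p z : ℤ) ^ (i z) * (m z : ℤ) ∧
      (p z).Prime ∧ p z ≠ 2 ∧ ¬ (p z) ∣ m z ∧ 2 ≤ i z ∧ P ≤ ((p z : ℕ) : ℝ) ∧
      ((p z : ℕ) : ℝ) ≤ 2 * P ∧ (nrad (2 * F.disc.natAbs) (m z) : ℝ) ≤ Q) →
    (S.card : ℝ) ≤ C * Z ^ ε * Q * (|(F.disc : ℝ)| ^ (1 / 2 : ℝ) +
      |(F.disc : ℝ)| ^ (1 / 4 : ℝ) * P ^ (1 / 2 : ℝ)) := by
  classical
  obtain ⟨σ, hσd⟩ : ∃ σ : ℝ, σ = ε / 38 := ⟨_, rfl⟩
  have hσ : 0 < σ := by rw [hσd]; positivity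
  obtain ⟨τ, hτd⟩ : ∃ τ : ℝ, τ = σ / 12 := ⟨_, rfl⟩
  have hτ : 0 < τ := by rw [hτd]; positivity
  obtain ⟨C1, hC1, hcurve⟩ := curve_ideals σ hσ
  obtain ⟨C2, hC2, hdiv⟩ := card_ideals_dvd σ hσ
  obtain ⟨C3, hC3, hnrad⟩ := card_nrad_le σ hσ
  obtain ⟨C4, hC4, hlht⟩ := lht_alpha
  have hC3' : 0 < C3 := by linarith
  refine ⟨C1 * C2 * C3 * (24 / τ + 1) ^ 6 * (C4 / τ + 1) ^ 6, by positivity, ?_⟩
  intro F hF hD Z hZ hht P Q hP hQ S p i m hS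
  have hZ0 : 0 < Z := by linarith
  have hZ1 : 1 ≤ Z := by linarith
  have hD1 : (1 : ℝ) ≤ |(F.disc : ℝ)| := by
    have : (1 : ℤ) ≤ |F.disc| := Int.one_le_abs hD
    exact_mod_cast this
  obtain ⟨W, hWd⟩ : ∃ W : ℝ, W = |(F.disc : ℝ)| ^ (1 / 2 : ℝ) +
      |(F.disc : ℝ)| ^ (1 / 4 : ℝ) * P ^ (1 / 2 : ℝ) := ⟨_, rfl⟩
  have hW0 : 0 < W := by rw [hWd]; positivity
  rw [← hWd]
  rcases S.eq_empty_or_nonempty with hemp | ⟨z0, hz0⟩
  · rw [hemp]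
    simp only [Finset.card_empty, Nat.cast_zero]
    positivity
  -- the field
  obtain ⟨K, _, _, θ, hK, hθ, hq⟩ := exists_field F hF
  obtain ⟨g, I, hg0, hg1, hg2, hg3⟩ := exists_idl F hF K hK θ hθ hq
  obtain ⟨lam, hlam0, hlam⟩ := h3_lam hK θ
  have hdisc := discr_le F hF hD K hK θ hθ hq
  have hdiscR : |(discr K : ℝ)| ≤ |(F.disc : ℝ)| := by exact_mod_cast hdisc
  have hdisc0 : (0 : ℝ) ≤ |(discr K : ℝ)| := abs_nonneg _
  -- logarithm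
  obtain ⟨L, hL⟩ : ∃ L : ℝ, L = Real.log Z := ⟨_, rfl⟩
  have hL0 : 0 < L := by rw [hL]; exact Real.log_pos (by linarith)
  have hLτ : L ≤ Z ^ τ / τ := by rw [hL]; exact Real.log_le_rpow_div hZ0.le hτ
  have hZτ : 1 ≤ Z ^ τ := Real.one_le_rpow hZ1 hτ.le
  -- facts about the points
  have hzne : ∀ z ∈ S, z ≠ 0 := by
    rintro z hz rfl
    have := (hS 0 hz).1.2.1
    simp [Cub.val] at this
  have hval4 : ∀ z ∈ S, ((F.val z : ℤ) : ℝ) ≤ Z ^ 4 := fun z hz =>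
    (le_abs_self _).trans (h3_val F Z hZ hht z (hS z hz).1.2.2.1 (hS z hz).1.2.2.2.1)
  have hvalnat : ∀ z ∈ S, ((p z ^ i z * m z : ℕ) : ℝ) ≤ Z ^ 4 ∧ 1 ≤ p z ^ i z * m z := by
    intro z hz
    obtain ⟨⟨-, hpos, -⟩, hv, -⟩ := hS z hz
    have e1 : ((p z ^ i z * m z : ℕ) : ℤ) = F.val z := by rw [hv]; push_cast; ring
    constructor
    · have := hval4 z hz
      rw [← e1] at this
      exact_mod_cast this
    · have : (0 : ℤ) < ((p z ^ i z * m z : ℕ) : ℤ) := by rw [e1]; exact hpos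
      exact_mod_cast this
  have hIne : ∀ z ∈ S, I z ≠ ⊥ := by
    intro z hz h0
    have h1 := hg2 z
    rw [h0, Ideal.mem_bot] at h1
    have h2 := (hS z hz).1.2.1
    have h3 : F.val z = 0 := by exact_mod_cast h1
    omega
  have hdec : ∀ z ∈ S, ∃ (a : ℕ) (b : Ideal (𝓞 K)), i z ≤ a ∧
      I z = (I z ⊔ Ideal.span {((p z : ℕ) : 𝓞 K)}) ^ a * b ∧ ((m z : ℕ) : 𝓞 K) ∈ b := by
    intro z hz
    obtain ⟨hpt, hv, hpp, hp2, hpm, hi2, hPp, hpP, hn⟩ := hS z hz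
    have hdvd : ((p z : ℕ) : ℤ) ∣ F.val z := by
      rw [hv]
      exact Dvd.dvd.mul_right (dvd_pow_self _ (by omega)) _
    obtain ⟨h1, h2, h3⟩ := hg3 z hpt.1 (p z) hpp hdvd (hpt.2.2.2.2.1 (p z) hpp hp2 hdvd)
    refine h3_decomp (I z) (hIne z hz) (p z) (i z) (m z) hpp h1 h2 (h3 (i z) ?_) ?_
    · rw [hv]
      exact Dvd.intro _ rfl
    · have h4 := hg2 z
      rw [hv] at h4
      push_cast at h4
      exact h4
  choose! a b hab1 hab2 hab3 using hdec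
  -- bound for the exponents
  have ha24 : ∀ z ∈ S, (a z : ℝ) ≤ 24 * L := by
    intro z hz
    obtain ⟨hpt, hv, hpp, hp2, hpm, hi2, hPp, hpP, hn⟩ := hS z hz
    have hdvd : ((p z : ℕ) : ℤ) ∣ F.val z := by
      rw [hv]
      exact Dvd.dvd.mul_right (dvd_pow_self _ (by omega)) _
    obtain ⟨h1, h2, h3⟩ := hg3 z hpt.1 (p z) hpp hdvd (hpt.2.2.2.2.1 (p z) hpp hp2 hdvd)
    have hmem : (((p z ^ i z * m z : ℕ)) : 𝓞 K) ∈ I z := by
      have h4 := hg2 z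
      rw [hv] at h4
      push_cast at h4 ⊢
      exact h4
    have h5 := h3_norm hK (I z) _ (b z) (p z ^ i z * m z) (p z) (a z) (hvalnat z hz).2 hmem
      (hab2 z hz) h2
    have h6 : (2 : ℝ) ^ (a z) ≤ Z ^ 12 := by
      calc (2 : ℝ) ^ (a z) ≤ ((p z : ℕ) : ℝ) ^ (a z) :=
            pow_le_pow_left₀ (by norm_num) (by exact_mod_cast hpp.two_le) _
        _ ≤ ((p z ^ i z * m z : ℕ) : ℝ) ^ 3 := by exact_mod_cast h5
        _ ≤ (Z ^ 4) ^ 3 := pow_le_pow_left₀ (by positivity) (hvalnat z hz).1 3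
        _ = Z ^ 12 := by ring
    have h7 := Real.log_le_log (by positivity) h6
    rw [Real.log_pow, Real.log_pow] at h7
    have h8 : (1 / 2 : ℝ) ≤ Real.log 2 := by
      have := Real.log_two_gt_d9
      linarith
    have h9 : (0 : ℝ) ≤ (a z : ℝ) := Nat.cast_nonneg _
    rw [← hL] at h7
    push_cast at h7
    nlinarith
  -- the label sets
  obtain ⟨N0, hN0⟩ : ∃ N0 : ℕ, N0 = ⌊Z ^ 11⌋₊ := ⟨_, rfl⟩
  have hN0le : (N0 : ℝ) ≤ Z ^ 11 := by rw [hN0]; exact Nat.floor_le (by positivity)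
  have hM1 : 1 ≤ 2 * F.disc.natAbs := by
    have := Int.natAbs_pos.2 hD
    omega
  have hMN : 2 * F.disc.natAbs ≤ N0 := by
    rw [hN0]
    apply Nat.le_floor
    push_cast
    rw [Nat.cast_natAbs]
    push_cast
    exact h3_disc F Z hZ hht
  set Ms : Finset ℕ := (Icc 1 N0).filter (fun n => (nrad (2 * F.disc.natAbs) n : ℝ) ≤ Q) with hMs
  have hMsc : (Ms.card : ℝ) ≤ C3 * (N0 : ℝ) ^ σ * Q := hnrad N0 _ Q hM1 hMN (by linarith)
  have hmMs : ∀ z ∈ S, m z ∈ Ms := by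
    intro z hz
    obtain ⟨h1, h2⟩ := hvalnat z hz
    obtain ⟨hpt, hv, hpp, hp2, hpm, hi2, hPp, hpP, hn⟩ := hS z hz
    rw [hMs, Finset.mem_filter, Finset.mem_Icc]
    have hm1 : 1 ≤ m z := by
      rcases Nat.eq_zero_or_pos (m z) with h | h
      · rw [h] at h2
        simp at h2
      · exact h
    refine ⟨⟨hm1, ?_⟩, hn⟩
    rw [hN0]
    apply Nat.le_floor
    have h3 : m z ≤ p z ^ i z * m z := Nat.le_mul_of_pos_left _ (pow_pos hpp.pos _)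
    calc ((m z : ℕ) : ℝ) ≤ ((p z ^ i z * m z : ℕ) : ℝ) := by exact_mod_cast h3
      _ ≤ Z ^ 4 := h1
      _ ≤ Z ^ 11 := pow_le_pow_right₀ hZ1 (by norm_num)
  set Bs : Finset (Ideal (𝓞 K)) := S.image b with hBs
  have hBsc : (Bs.card : ℝ) ≤ (Ms.card : ℝ) * (C2 * (N0 : ℝ) ^ σ) := by
    have h1 : Bs ⊆ Ms.biUnion (fun n => Bs.filter (fun J => (n : 𝓞 K) ∈ J)) := by
      intro J hJ
      obtain ⟨z, hz, rfl⟩ := Finset.mem_image.1 hJ
      exact Finset.mem_biUnion.2 ⟨m z, hmMs z hz, Finset.mem_filter.2 ⟨hJ, hab3 z hz⟩⟩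
    have h2 : ∀ n ∈ Ms, ((Bs.filter (fun J => (n : 𝓞 K) ∈ J)).card : ℝ) ≤ C2 * (N0 : ℝ) ^ σ := by
      intro n hn
      rw [hMs, Finset.mem_filter, Finset.mem_Icc] at hn
      refine (hdiv K hK n hn.1.1 _ (fun J hJ => (Finset.mem_filter.1 hJ).2)).trans ?_
      apply mul_le_mul_of_nonneg_left _ hC2.le
      exact Real.rpow_le_rpow (Nat.cast_nonneg _) (by exact_mod_cast hn.1.2) hσ.le
    calc (Bs.card : ℝ) ≤ ((Ms.biUnion (fun n => Bs.filter (fun J => (n : 𝓞 K) ∈ J))).card : ℝ) := by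
          exact_mod_cast Finset.card_le_card h1
      _ ≤ ((∑ n ∈ Ms, (Bs.filter (fun J => (n : 𝓞 K) ∈ J)).card : ℕ) : ℝ) := by
          exact_mod_cast Finset.card_biUnion_le
      _ = ∑ n ∈ Ms, ((Bs.filter (fun J => (n : 𝓞 K) ∈ J)).card : ℝ) := by push_cast; rfl
      _ ≤ ∑ n ∈ Ms, C2 * (N0 : ℝ) ^ σ := Finset.sum_le_sum h2
      _ = (Ms.card : ℝ) * (C2 * (N0 : ℝ) ^ σ) := by rw [Finset.sum_const, nsmul_eq_mul]
  -- the groups
  obtain ⟨T, hT⟩ : ∃ T : ℝ, T = C4 * L + 1 := ⟨_, rfl⟩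
  have hT1 : 1 ≤ T := by rw [hT]; nlinarith
  obtain ⟨bd, hbd⟩ : ∃ bd : ℝ, bd = C1 * (24 * L) ^ 5 * T ^ 6 * Z ^ (15 * σ) * W := ⟨_, rfl⟩
  have hbd0 : 0 ≤ bd := by rw [hbd]; positivity
  have hPZ : P ≤ Z ^ 4 := by
    obtain ⟨h1, h2⟩ := hvalnat z0 hz0
    obtain ⟨hpt, hv, hpp, hp2, hpm, hi2, hPp, hpP, hn⟩ := hS z0 hz0
    have hm1 : 0 < m z0 := by
      rcases Nat.eq_zero_or_pos (m z0) with h | h
      · rw [h] at h2
        simp at h2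
      · exact h
    have h3 : p z0 ≤ p z0 ^ i z0 * m z0 :=
      (Nat.le_self_pow (by omega) _).trans (Nat.le_mul_of_pos_right _ hm1)
    calc P ≤ ((p z0 : ℕ) : ℝ) := hPp
      _ ≤ ((p z0 ^ i z0 * m z0 : ℕ) : ℝ) := by exact_mod_cast h3
      _ ≤ Z ^ 4 := h1
  have hgroup : ∀ (a0 : ℕ) (b0 : Ideal (𝓞 K)),
      ((S.filter (fun z => (a z, b z) = (a0, b0))).card : ℝ) ≤ bd := by
    intro a0 b0
    set G := S.filter (fun z => (a z, b z) = (a0, b0)) with hG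
    rcases G.eq_empty_or_nonempty with hGe | ⟨z1, hz1⟩
    · rw [hGe]
      simpa using hbd0
    have hGm : ∀ z ∈ G, z ∈ S ∧ a z = a0 ∧ b z = b0 := by
      intro z hz
      rw [hG, Finset.mem_filter] at hz
      exact ⟨hz.1, (Prod.mk.inj hz.2).1, (Prod.mk.inj hz.2).2⟩
    obtain ⟨hz1S, hz1a, hz1b⟩ := hGm z1 hz1
    have ha2 : 2 ≤ a0 := by
      rw [← hz1a]
      exact (hS z1 hz1S).2.2.2.2.2.1.trans (hab1 z1 hz1S)
    have haL : (a0 : ℝ) ≤ 24 * L := by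
      rw [← hz1a]
      exact ha24 z1 hz1S
    have hb0 : b0 ≠ ⊥ := by
      intro h0
      have h1 := hab2 z1 hz1S
      rw [hz1b, h0, Ideal.mul_bot] at h1
      exact hIne z1 hz1S h1
    have hh : g * (b0 : FractionalIdeal (nonZeroDivisors (𝓞 K)) K) ≠ 0 :=
      mul_ne_zero hg0 (by simpa using hb0)
    have hpr : ∀ z ∈ G, (Ideal.absNorm (I z ⊔ Ideal.span {((p z : ℕ) : 𝓞 K)}) = p z) := by
      intro z hz
      obtain ⟨hzS, -, -⟩ := hGm z hz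
      obtain ⟨hpt, hv, hpp, hp2, hpm, hi2, hPp, hpP, hn⟩ := hS z hzS
      have hdvd : ((p z : ℕ) : ℤ) ∣ F.val z := by
        rw [hv]
        exact Dvd.dvd.mul_right (dvd_pow_self _ (by omega)) _
      exact (hg3 z hpt.1 (p z) hpp hdvd (hpt.2.2.2.2.1 (p z) hpp hp2 hdvd)).2.1
    have hfin := hcurve K hK lam hlam0 _ hh T P hT1 hP a0 ha2 G
      (fun z => (z.1 : K) - θ * (z.2 : K)) (fun z => I z ⊔ Ideal.span {((p z : ℕ) : 𝓞 K)})
      (by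
        intro z hz
        obtain ⟨hzS, -, -⟩ := hGm z hz
        obtain ⟨hpt, hv, hpp, hp2, hpm, hi2, hPp, hpP, hn⟩ := hS z hzS
        rw [hpr z hz]
        exact ⟨hpp, hPp, hpP⟩)
      (by
        intro z hz
        obtain ⟨hzS, hza, hzb⟩ := hGm z hz
        rw [hg1 z (hzne z hzS)]
        have h1 : (I z : FractionalIdeal (nonZeroDivisors (𝓞 K)) K) =
            ((I z ⊔ Ideal.span {((p z : ℕ) : 𝓞 K)} : Ideal (𝓞 K)) :
              FractionalIdeal (nonZeroDivisors (𝓞 K)) K) ^ a0 *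
              (b0 : FractionalIdeal (nonZeroDivisors (𝓞 K)) K) := by
          have h2 := hab2 z hzS
          rw [hza, hzb] at h2
          conv_lhs => rw [h2]
          rw [FractionalIdeal.coeIdeal_mul, FractionalIdeal.coeIdeal_pow]
        rw [h1]
        ring)
      (fun z _ => hlam z.1 z.2)
      (by
        intro z hz
        obtain ⟨hzS, -, -⟩ := hGm z hz
        have h1 := hlht F hF K hK θ hθ hq Z hZ hht z (hzne z hzS) (hS z hzS).1.2.2.1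
          (hS z hzS).1.2.2.2.1
        refine ⟨h1.1, fun φ => (h1.2 φ).trans ?_⟩
        rw [hT, hL]
        linarith)
      (fun z _ w _ h => h3_inj θ hq z w h)
    refine hfin.trans ?_
    have hDP : (|(discr K : ℝ)| * P) ^ σ ≤ Z ^ (15 * σ) := by
      have h1 : |(discr K : ℝ)| * P ≤ Z ^ 15 := by
        have h2 : |(discr K : ℝ)| ≤ Z ^ 11 := by
          have := h3_disc F Z hZ hht
          linarith
        calc |(discr K : ℝ)| * P ≤ Z ^ 11 * Z ^ 4 :=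
              mul_le_mul h2 hPZ (by linarith) (by positivity)
          _ = Z ^ 15 := by ring
      calc (|(discr K : ℝ)| * P) ^ σ ≤ (Z ^ 15) ^ σ :=
            Real.rpow_le_rpow (by positivity) h1 hσ.le
        _ = Z ^ (15 * σ) := by
            rw [← Real.rpow_natCast, ← Real.rpow_mul hZ0.le]
            norm_num
    have hWD : |(discr K : ℝ)| ^ (1 / 2 : ℝ) + |(discr K : ℝ)| ^ (1 / 4 : ℝ) * P ^ (1 / 2 : ℝ) ≤
        W := by
      rw [hWd]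
      apply add_le_add
      · exact Real.rpow_le_rpow hdisc0 hdiscR (by norm_num)
      · exact mul_le_mul_of_nonneg_right (Real.rpow_le_rpow hdisc0 hdiscR (by norm_num))
          (by positivity)
    rw [hbd]
    gcongr
  -- the count
  set A : ℕ := ⌊24 * L⌋₊ with hA
  have hmaps : ∀ z ∈ S, (fun z => (a z, b z)) z ∈ (Finset.range (A + 1)) ×ˢ Bs := by
    intro z hz
    rw [Finset.mem_product]
    refine ⟨?_, Finset.mem_image_of_mem b hz⟩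
    rw [Finset.mem_range, Nat.lt_succ_iff]
    exact Nat.le_floor (ha24 z hz)
  have hcount := Finset.card_le_mul_card_image_of_maps_to hmaps ⌊bd⌋₊ (by
    rintro ⟨a0, b0⟩ _
    exact Nat.le_floor (hgroup a0 b0))
  rw [Finset.card_product, Finset.card_range] at hcount
  have hcountR : (S.card : ℝ) ≤ bd * ((A + 1 : ℝ) * (Bs.card : ℝ)) := by
    calc (S.card : ℝ) ≤ ((⌊bd⌋₊ * ((A + 1) * Bs.card) : ℕ) : ℝ) := by exact_mod_cast hcount
      _ = (⌊bd⌋₊ : ℝ) * ((A + 1 : ℝ) * (Bs.card : ℝ)) := by push_cast; ring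
      _ ≤ bd * ((A + 1 : ℝ) * (Bs.card : ℝ)) :=
          mul_le_mul_of_nonneg_right (Nat.floor_le hbd0) (by positivity)
  have hA1 : (A + 1 : ℝ) ≤ (24 / τ + 1) * Z ^ τ := by
    have h1 : (A : ℝ) ≤ 24 * L := Nat.floor_le (by positivity)
    have h2 : 24 * L ≤ 24 / τ * Z ^ τ := by
      calc 24 * L ≤ 24 * (Z ^ τ / τ) := by linarith
        _ = 24 / τ * Z ^ τ := by ring
    nlinarith
  have h24 : 24 * L ≤ (24 / τ + 1) * Z ^ τ := by
    have h2 : 24 * L ≤ 24 / τ * Z ^ τ := by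
      calc 24 * L ≤ 24 * (Z ^ τ / τ) := by linarith
        _ = 24 / τ * Z ^ τ := by ring
    nlinarith
  have hTτ : T ≤ (C4 / τ + 1) * Z ^ τ := by
    rw [hT]
    have h2 : C4 * L ≤ C4 / τ * Z ^ τ := by
      calc C4 * L ≤ C4 * (Z ^ τ / τ) := mul_le_mul_of_nonneg_left hLτ hC4.le
        _ = C4 / τ * Z ^ τ := by ring
    nlinarith
  have hN0σ : (N0 : ℝ) ^ σ ≤ Z ^ (11 * σ) := by
    calc (N0 : ℝ) ^ σ ≤ (Z ^ 11) ^ σ := Real.rpow_le_rpow (Nat.cast_nonneg _) hN0le hσ.le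
      _ = Z ^ (11 * σ) := by
          rw [← Real.rpow_natCast, ← Real.rpow_mul hZ0.le]
          norm_num
  have hBs2 : (Bs.card : ℝ) ≤ (C3 * Z ^ (11 * σ) * Q) * (C2 * Z ^ (11 * σ)) := by
    refine hBsc.trans ?_
    apply mul_le_mul
    · refine hMsc.trans ?_
      gcongr
    · gcongr
    · positivity
    · positivity
  have hbd2 : bd ≤ C1 * ((24 / τ + 1) * Z ^ τ) ^ 5 * ((C4 / τ + 1) * Z ^ τ) ^ 6 *
      Z ^ (15 * σ) * W := by
    rw [hbd]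
    gcongr
  have hfinal : bd * ((A + 1 : ℝ) * (Bs.card : ℝ)) ≤
      (C1 * ((24 / τ + 1) * Z ^ τ) ^ 5 * ((C4 / τ + 1) * Z ^ τ) ^ 6 * Z ^ (15 * σ) * W) *
      (((24 / τ + 1) * Z ^ τ) * ((C3 * Z ^ (11 * σ) * Q) * (C2 * Z ^ (11 * σ)))) := by
    apply mul_le_mul hbd2
    · apply mul_le_mul hA1 hBs2 (Nat.cast_nonneg _) (by positivity)
    · positivity
    · positivity
  refine hcountR.trans (hfinal.trans (le_of_eq ?_))
  have hexp : Z ^ ε = (Z ^ τ) ^ 12 * Z ^ (15 * σ) * Z ^ (11 * σ) * Z ^ (11 * σ) := by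
    rw [← Real.rpow_natCast, ← Real.rpow_mul hZ0.le, ← Real.rpow_add hZ0, ← Real.rpow_add hZ0,
      ← Real.rpow_add hZ0]
    congr 1
    rw [hτd, hσd]
    push_cast
    ring
  rw [hexp]
  ring

end Pool.Agent.Lib.SqPart
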