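import Pool.Agent.Lib.MP_d8bd92_nt.SqH1
import Pool.Agent.Lib.MP_d8bd92_nt.SqH2
import Pool.Agent.Lib.MP_d8bd92_nt.SqH3
import Pool.Agent.Lib.MP_d8bd92_nt.SqE2

set_option autoImplicit false

/-!
All points of one form.

PROOF. D = |disc|, M = 2D. All F.val z <= N0 <= C Z^5. Replacing R by min R N0 (nrad M n <= n) we may assume R <= N0 when counting
dyadic ranges (the bound is increasing in R). Apply `split_nrad` to n = F.val z for every z in S.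
(A) n = n₁n₂: classify by j with 2^j <= nrad n₁ < 2^(j+1) (2^j <= R^(2/3)): `count_st` with P = min(2^(j+1), R^(2/3)),
L = min(R/2^j, R^(2/3)): P L <= 2R, so <= C Z^ε R^(2/3) for each of the C log Z values of j.
(B) n = p^i n', p not dividing M (so p odd), 2^j <= p < 2^(j+1), P = 2^j, nrad n' <= Q := min(R/P, R^(1/3)) (Q >= 1).
i = 1: `count_one` with 2P, Q: C Z^ε ((2R)^(2/3) + R^(1/3)).
i >= 2: both `count_st` with n₁ = p^i (nrad = p <= 2P), n₂ = n': C Z^ε ((2R)^(2/3) + 2P + R^(1/3)), and `count_pow`: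
C Z^ε (R/P)(D^(1/2) + D^(1/4) P^(1/2)). The minimum of P and x + y, x = R D^(1/2)/P, y = R D^(1/4) P^(-1/2), is at most
min(P,x) + min(P,y) <= (P x)^(1/2) + P^(1/3) y^(2/3) = R^(1/2) D^(1/4) + R^(2/3) D^(1/6).
Sum over the C log Z values of j; R^(2/3) <= D^(1/6) R^(2/3).
-/

namespace Pool.Agent.Lib.SqPart

open Finset

/-- the size of the values -/
theorem h4_val_le (F : Cub) {Z : ℝ} (hZ : 0 ≤ Z) (hF : (F.ht : ℝ) ≤ Z) {z : ℤ × ℤ}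
    (h1 : |(z.1 : ℝ)| ≤ Z) (h2 : |(z.2 : ℝ)| ≤ Z) : |(F.val z : ℝ)| ≤ Z ^ 4 := by
  have h3 : (F.ht : ℝ) = |(F.a : ℝ)| + |(F.b : ℝ)| + |(F.c : ℝ)| + |(F.d : ℝ)| := by
    unfold Cub.ht
    push_cast
    rfl
  have h4 : (F.val z : ℝ) = F.a * (z.1 : ℝ) ^ 3 + F.b * (z.1 : ℝ) ^ 2 * z.2 +
      F.c * z.1 * (z.2 : ℝ) ^ 2 + F.d * (z.2 : ℝ) ^ 3 := by
    unfold Cub.val
    push_cast
    rfl
  have ha : |(F.a : ℝ) * (z.1 : ℝ) ^ 3| ≤ |(F.a : ℝ)| * Z ^ 3 := by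
    rw [abs_mul, abs_pow]
    exact mul_le_mul_of_nonneg_left (pow_le_pow_left₀ (abs_nonneg _) h1 3) (abs_nonneg _)
  have hb : |(F.b : ℝ) * (z.1 : ℝ) ^ 2 * z.2| ≤ |(F.b : ℝ)| * Z ^ 3 := by
    rw [mul_assoc, abs_mul, abs_mul, abs_pow]
    refine mul_le_mul_of_nonneg_left ?_ (abs_nonneg _)
    calc |(z.1 : ℝ)| ^ 2 * |(z.2 : ℝ)| ≤ Z ^ 2 * Z :=
          mul_le_mul (pow_le_pow_left₀ (abs_nonneg _) h1 2) h2 (abs_nonneg _) (by positivity)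
      _ = Z ^ 3 := by ring
  have hc : |(F.c : ℝ) * z.1 * (z.2 : ℝ) ^ 2| ≤ |(F.c : ℝ)| * Z ^ 3 := by
    rw [mul_assoc, abs_mul, abs_mul, abs_pow]
    refine mul_le_mul_of_nonneg_left ?_ (abs_nonneg _)
    calc |(z.1 : ℝ)| * |(z.2 : ℝ)| ^ 2 ≤ Z * Z ^ 2 :=
          mul_le_mul h1 (pow_le_pow_left₀ (abs_nonneg _) h2 2) (by positivity) hZ
      _ = Z ^ 3 := by ring
  have hd : |(F.d : ℝ) * (z.2 : ℝ) ^ 3| ≤ |(F.d : ℝ)| * Z ^ 3 := by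
    rw [abs_mul, abs_pow]
    exact mul_le_mul_of_nonneg_left (pow_le_pow_left₀ (abs_nonneg _) h2 3) (abs_nonneg _)
  rw [h4]
  have h5 := abs_add_le ((F.a : ℝ) * (z.1 : ℝ) ^ 3 + F.b * (z.1 : ℝ) ^ 2 * z.2 +
    F.c * z.1 * (z.2 : ℝ) ^ 2) (F.d * (z.2 : ℝ) ^ 3)
  have h6 := abs_add_le ((F.a : ℝ) * (z.1 : ℝ) ^ 3 + F.b * (z.1 : ℝ) ^ 2 * z.2)
    (F.c * z.1 * (z.2 : ℝ) ^ 2)
  have h7 := abs_add_le ((F.a : ℝ) * (z.1 : ℝ) ^ 3) (F.b * (z.1 : ℝ) ^ 2 * z.2)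
  have h8 : (F.ht : ℝ) * Z ^ 3 ≤ Z * Z ^ 3 := mul_le_mul_of_nonneg_right hF (by positivity)
  rw [h3] at h8
  calc _ ≤ (|(F.a : ℝ)| + |(F.b : ℝ)| + |(F.c : ℝ)| + |(F.d : ℝ)|) * Z ^ 3 := by linarith
    _ ≤ Z * Z ^ 3 := h8
    _ = Z ^ 4 := by ring

/-- the minimum of the two bounds -/
theorem h4_min {P R D : ℝ} (hP : 1 ≤ P) (hR : 1 ≤ R) (hD : 1 ≤ D)
    (h : D ^ (1 / 6 : ℝ) * R ^ (2 / 3 : ℝ) + D ^ (1 / 4 : ℝ) * R ^ (1 / 2 : ℝ) ≤ P) :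
    R / P * (D ^ (1 / 2 : ℝ) + D ^ (1 / 4 : ℝ) * P ^ (1 / 2 : ℝ)) ≤
      D ^ (1 / 6 : ℝ) * R ^ (2 / 3 : ℝ) + D ^ (1 / 4 : ℝ) * R ^ (1 / 2 : ℝ) := by
  have hP0 : (0 : ℝ) < P := by linarith
  have hR0 : (0 : ℝ) < R := by linarith
  have hD0 : (0 : ℝ) < D := by linarith
  set v : ℝ := D ^ (1 / 6 : ℝ) * R ^ (2 / 3 : ℝ) with hv
  set u : ℝ := D ^ (1 / 4 : ℝ) * R ^ (1 / 2 : ℝ) with hu
  have hv0 : 0 < v := by positivity
  have hu0 : 0 < u := by positivity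
  have h1 : R / P * D ^ (1 / 2 : ℝ) ≤ u := by
    rw [div_mul_eq_mul_div, div_le_iff₀ hP0]
    have h2 : R * D ^ (1 / 2 : ℝ) = u * u := by
      rw [hu]
      calc R * D ^ (1 / 2 : ℝ) = R ^ (1 / 2 + 1 / 2 : ℝ) * D ^ (1 / 4 + 1 / 4 : ℝ) := by
            norm_num
        _ = _ := by
            rw [Real.rpow_add hR0, Real.rpow_add hD0]
            ring
    rw [h2]
    exact mul_le_mul_of_nonneg_left (by linarith) hu0.le
  have h3 : R / P * (D ^ (1 / 4 : ℝ) * P ^ (1 / 2 : ℝ)) ≤ v := by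
    have h4 : v ^ (1 / 2 : ℝ) ≤ P ^ (1 / 2 : ℝ) :=
      Real.rpow_le_rpow hv0.le (by linarith) (by norm_num)
    have h5 : R * D ^ (1 / 4 : ℝ) = v * v ^ (1 / 2 : ℝ) := by
      rw [hv, Real.mul_rpow (by positivity) (by positivity), ← Real.rpow_mul hD0.le,
        ← Real.rpow_mul hR0.le]
      calc R * D ^ (1 / 4 : ℝ) = R ^ (2 / 3 + 2 / 3 * (1 / 2) : ℝ) *
            D ^ (1 / 6 + 1 / 6 * (1 / 2) : ℝ) := by
            norm_num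
        _ = _ := by
            rw [Real.rpow_add hR0, Real.rpow_add hD0]
            ring
    have h6 : P = P ^ (1 / 2 : ℝ) * P ^ (1 / 2 : ℝ) := by
      rw [← Real.rpow_add hP0]
      norm_num
    have h7 : R / P * (D ^ (1 / 4 : ℝ) * P ^ (1 / 2 : ℝ)) = v * v ^ (1 / 2 : ℝ) / P ^ (1 / 2 : ℝ) := by
      rw [← h5]
      have h8 : (0 : ℝ) < P ^ (1 / 2 : ℝ) := by positivity
      rw [div_mul_eq_mul_div, div_eq_div_iff hP0.ne' h8.ne']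
      conv_rhs => rw [h6]
      ring
    rw [h7, div_le_iff₀ (by positivity)]
    exact mul_le_mul_of_nonneg_left h4 hv0.le
  rw [mul_add]
  linarith

/-- the number of dyadic ranges -/
theorem h4_log (δ : ℝ) (hδ : 0 < δ) : ∃ C : ℝ, 0 < C ∧ ∀ Z : ℝ, 2 ≤ Z →
    ((Nat.log 2 ⌊Z ^ 4⌋₊ + 1 : ℕ) : ℝ) ≤ C * Z ^ δ := by
  have hl2 : 0 < Real.log 2 := Real.log_pos (by norm_num)
  refine ⟨1 + 4 / (Real.log 2 * δ), by positivity, fun Z hZ => ?_⟩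
  have hZ1 : 1 ≤ Z := by linarith
  have hZδ : 1 ≤ Z ^ δ := Real.one_le_rpow hZ1 hδ.le
  have h1 : (Nat.log 2 ⌊Z ^ 4⌋₊ : ℝ) * Real.log 2 ≤ 4 * Real.log Z := by
    have h2 : ⌊Z ^ 4⌋₊ ≠ 0 := by
      have : 1 ≤ ⌊Z ^ 4⌋₊ := Nat.le_floor (by
        have := one_le_pow₀ (n := 4) hZ1
        exact_mod_cast this)
      omega
    have h3 : (2 : ℝ) ^ Nat.log 2 ⌊Z ^ 4⌋₊ ≤ Z ^ 4 := by
      have h4 : ((2 ^ Nat.log 2 ⌊Z ^ 4⌋₊ : ℕ) : ℝ) ≤ (⌊Z ^ 4⌋₊ : ℝ) := by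
        exact_mod_cast Nat.pow_log_le_self 2 h2
      push_cast at h4
      exact h4.trans (Nat.floor_le (by positivity))
    have h5 := Real.log_le_log (by positivity) h3
    rw [Real.log_pow, Real.log_pow] at h5
    push_cast at h5
    exact h5
  have h6 : Real.log Z ≤ Z ^ δ / δ := Real.log_le_rpow_div (by linarith) hδ
  have h7 : (Nat.log 2 ⌊Z ^ 4⌋₊ : ℝ) ≤ 4 / (Real.log 2 * δ) * Z ^ δ := by
    rw [← le_div_iff₀ hl2] at h1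
    refine h1.trans ?_
    rw [div_le_iff₀ hl2]
    calc 4 * Real.log Z ≤ 4 * (Z ^ δ / δ) := by linarith
      _ = 4 / (Real.log 2 * δ) * Z ^ δ * Real.log 2 := by
          field_simp
  push_cast
  have h8 : (1 + 4 / (Real.log 2 * δ)) * Z ^ δ = Z ^ δ + 4 / (Real.log 2 * δ) * Z ^ δ := by ring
  rw [h8]
  linarith

/-- type A -/
def h4A (F : Cub) (R : ℝ) (j : ℕ) (z : ℤ × ℤ) : Prop :=
  ∃ n₁ n₂ : ℕ, F.val z = (n₁ : ℤ) * (n₂ : ℤ) ∧ Nat.Coprime n₁ n₂ ∧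
    (nrad (2 * F.disc.natAbs) n₁ : ℝ) * (nrad (2 * F.disc.natAbs) n₂ : ℝ) ≤ R ∧
    (nrad (2 * F.disc.natAbs) n₁ : ℝ) ≤ R ^ (2 / 3 : ℝ) ∧
    (nrad (2 * F.disc.natAbs) n₂ : ℝ) ≤ R ^ (2 / 3 : ℝ) ∧
    (2 : ℝ) ^ j ≤ (nrad (2 * F.disc.natAbs) n₁ : ℝ) ∧
    (nrad (2 * F.disc.natAbs) n₁ : ℝ) ≤ (2 : ℝ) ^ (j + 1)

/-- types B, exponent `i` with `Q i` -/
def h4B (Q : ℕ → Prop) (F : Cub) (R : ℝ) (j : ℕ) (z : ℤ × ℤ) : Prop :=
  ∃ p i n : ℕ, F.val z = (p : ℤ) ^ i * (n : ℤ) ∧ p.Prime ∧ p ≠ 2 ∧ ¬ p ∣ n ∧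
    ¬ p ∣ 2 * F.disc.natAbs ∧ Q i ∧
    (p : ℝ) * (nrad (2 * F.disc.natAbs) n : ℝ) ≤ R ∧
    (nrad (2 * F.disc.natAbs) n : ℝ) ≤ R ^ (1 / 3 : ℝ) ∧
    (2 : ℝ) ^ j ≤ (p : ℝ) ∧ (p : ℝ) ≤ (2 : ℝ) ^ (j + 1)

theorem h4_nrad_le (M n : ℕ) (hn : n ≠ 0) : nrad M n ≤ n := by
  have h1 : nrad M n ∣ n := by
    unfold nrad
    exact (Finset.prod_dvd_prod_of_subset _ _ _ (Finset.filter_subset _ _)).trans
      (Nat.prod_primeFactors_dvd n)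
  exact Nat.le_of_dvd (Nat.pos_of_ne_zero hn) h1

theorem h4_nrad_pow (M p i : ℕ) (hp : p.Prime) (hi : i ≠ 0) (hM : ¬ p ∣ M) :
    nrad M (p ^ i) = p := by
  unfold nrad
  rw [Nat.primeFactors_prime_pow hi hp, Finset.filter_singleton, if_pos hM,
    Finset.prod_singleton]

/-- every point has a type -/
theorem h4_cover (F : Cub) (hdisc : F.disc ≠ 0) {Z R : ℝ} (hZ : 2 ≤ Z) (hF : (F.ht : ℝ) ≤ Z)
    (hR : 1 ≤ R) {z : ℤ × ℤ} (hz : Pt F Z z)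
    (hr : (nrad (2 * F.disc.natAbs) (F.val z).natAbs : ℝ) ≤ R) :
    ∃ j ∈ range (Nat.log 2 ⌊Z ^ 4⌋₊ + 1), h4A F R j z ∨ h4B (fun i => i = 1) F R j z ∨
      h4B (fun i => 2 ≤ i) F R j z := by
  obtain ⟨_, hpos, hz1, hz2, _, _⟩ := hz
  set M : ℕ := 2 * F.disc.natAbs with hM
  have hM0 : M ≠ 0 := by
    have : F.disc.natAbs ≠ 0 := Int.natAbs_ne_zero.mpr hdisc
    omega
  set n : ℕ := (F.val z).natAbs with hn
  have hn0 : n ≠ 0 := Int.natAbs_ne_zero.mpr hpos.ne'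
  have hval : F.val z = (n : ℤ) := by
    rw [hn, Int.natCast_natAbs, abs_of_pos hpos]
  have hnZ : (n : ℝ) ≤ Z ^ 4 := by
    have h1 := h4_val_le F (by linarith) hF hz1 hz2
    rw [hval] at h1
    push_cast at h1
    rwa [abs_of_nonneg (Nat.cast_nonneg n)] at h1
  have hfl : ∀ m : ℕ, 1 ≤ m → m ≤ n → Nat.log 2 m ∈ range (Nat.log 2 ⌊Z ^ 4⌋₊ + 1) ∧
      (2 : ℝ) ^ Nat.log 2 m ≤ (m : ℝ) ∧ (m : ℝ) ≤ (2 : ℝ) ^ (Nat.log 2 m + 1) := by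
    intro m hm hmn
    refine ⟨?_, ?_, ?_⟩
    · rw [mem_range, Nat.lt_succ_iff]
      refine Nat.log_mono_right (Nat.le_floor ?_)
      have : (m : ℝ) ≤ n := by exact_mod_cast hmn
      linarith
    · exact_mod_cast Nat.pow_log_le_self 2 (by omega)
    · exact_mod_cast (Nat.lt_pow_succ_log_self (by norm_num) m).le
  rcases split_nrad M n hM0 hn0 R hR hr with ⟨n₁, n₂, h1, h2, h3, h4, h5, h6⟩ |
    ⟨p, i, n', hp, hi, h1, h2, h3, h4, h5⟩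
  · have hn1 : n₁ ≠ 0 := by
      intro h0
      rw [h0, zero_mul] at h1
      exact hn0 h1
    have hn2 : n₂ ≠ 0 := by
      intro h0
      rw [h0, mul_zero] at h1
      exact hn0 h1
    have hle : nrad M n₁ ≤ n := (h4_nrad_le M n₁ hn1).trans
      (h1 ▸ Nat.le_mul_of_pos_right _ (Nat.pos_of_ne_zero hn2))
    obtain ⟨hj, hj1, hj2⟩ := hfl (nrad M n₁) (one_le_nrad M n₁) hle
    refine ⟨_, hj, Or.inl ⟨n₁, n₂, ?_, h2, h4, h5, h6, hj1, hj2⟩⟩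
    rw [hval, h1]
    push_cast
    rfl
  · have hn'0 : n' ≠ 0 := by
      intro h0
      rw [h0, mul_zero] at h1
      exact hn0 h1
    have hple : p ≤ n := by
      rw [h1]
      calc p = p ^ 1 * 1 := by ring
        _ ≤ p ^ i * n' := Nat.mul_le_mul (Nat.pow_le_pow_right hp.pos hi)
            (Nat.pos_of_ne_zero hn'0)
    obtain ⟨hj, hj1, hj2⟩ := hfl p hp.one_lt.le hple
    have hp2 : p ≠ 2 := by
      intro h0
      apply h3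
      rw [h0, hM]
      exact Dvd.intro _ rfl
    have hv : F.val z = (p : ℤ) ^ i * (n' : ℤ) := by
      rw [hval, h1]
      push_cast
      rfl
    rcases Nat.lt_or_ge i 2 with h | h
    · have hi1 : i = 1 := by omega
      exact ⟨_, hj, Or.inr (Or.inl ⟨p, i, n', hv, hp, hp2, h2, h3, hi1, h4, h5, hj1, hj2⟩)⟩
    · exact ⟨_, hj, Or.inr (Or.inr ⟨p, i, n', hv, hp, hp2, h2, h3, h, h4, h5, hj1, hj2⟩)⟩

theorem h4_two_pow {R : ℝ} (hR : 1 ≤ R) : (2 * R) ^ (2 / 3 : ℝ) ≤ 2 * R ^ (2 / 3 : ℝ) := by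
  rw [Real.mul_rpow (by norm_num) (by linarith)]
  refine mul_le_mul_of_nonneg_right ?_ (by positivity)
  calc (2 : ℝ) ^ (2 / 3 : ℝ) ≤ (2 : ℝ) ^ (1 : ℝ) :=
        Real.rpow_le_rpow_of_exponent_le (by norm_num) (by norm_num)
    _ = 2 := Real.rpow_one 2

/-- the points of type A -/
theorem h4_countA (ε : ℝ) (hε : 0 < ε) : ∃ C : ℝ, 0 < C ∧ ∀ (F : Cub), F.Irr → F.disc ≠ 0 →
    ∀ Z : ℝ, 2 ≤ Z → (F.ht : ℝ) ≤ Z → ∀ R : ℝ, 1 ≤ R → ∀ (j : ℕ) (S : Finset (ℤ × ℤ)),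
    (∀ z ∈ S, Pt F Z z ∧ h4A F R j z) → (S.card : ℝ) ≤ C * Z ^ ε * R ^ (2 / 3 : ℝ) := by
  obtain ⟨C, hC, h⟩ := count_st ε hε
  refine ⟨4 * C, by positivity, fun F hI hd Z hZ hF R hR j S hS => ?_⟩
  have hR0 : (0 : ℝ) < R := by linarith
  have hR23 : 1 ≤ R ^ (2 / 3 : ℝ) := Real.one_le_rpow hR (by norm_num)
  have hZε : (0 : ℝ) < Z ^ ε := by positivity
  rcases S.eq_empty_or_nonempty with he | hne
  · rw [he, card_empty, Nat.cast_zero]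
    positivity
  · have hch : ∀ z : ℤ × ℤ, ∃ nn : ℕ × ℕ, z ∈ S → F.val z = (nn.1 : ℤ) * (nn.2 : ℤ) ∧
        Nat.Coprime nn.1 nn.2 ∧
        (nrad (2 * F.disc.natAbs) nn.1 : ℝ) * (nrad (2 * F.disc.natAbs) nn.2 : ℝ) ≤ R ∧
        (nrad (2 * F.disc.natAbs) nn.1 : ℝ) ≤ R ^ (2 / 3 : ℝ) ∧
        (nrad (2 * F.disc.natAbs) nn.2 : ℝ) ≤ R ^ (2 / 3 : ℝ) ∧
        (2 : ℝ) ^ j ≤ (nrad (2 * F.disc.natAbs) nn.1 : ℝ) ∧
        (nrad (2 * F.disc.natAbs) nn.1 : ℝ) ≤ (2 : ℝ) ^ (j + 1) := by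
      intro z
      by_cases hz : z ∈ S
      · obtain ⟨n₁, n₂, h1⟩ := (hS z hz).2
        exact ⟨(n₁, n₂), fun _ => h1⟩
      · exact ⟨(0, 0), fun h1 => absurd h1 hz⟩
    choose nn hnn using hch
    set P : ℝ := min ((2 : ℝ) ^ (j + 1)) (R ^ (2 / 3 : ℝ)) with hP
    set L : ℝ := min (R / 2 ^ j) (R ^ (2 / 3 : ℝ)) with hL
    have h2j : (0 : ℝ) < 2 ^ j := by positivity
    have hLz : ∀ z ∈ S, (nrad (2 * F.disc.natAbs) (nn z).2 : ℝ) ≤ R / 2 ^ j := by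
      intro z hz
      obtain ⟨_, _, h3, _, _, h6, _⟩ := hnn z hz
      rw [le_div_iff₀ h2j, mul_comm]
      exact (mul_le_mul_of_nonneg_right h6 (Nat.cast_nonneg _)).trans h3
    have hP1 : 1 ≤ P := le_min (one_le_pow₀ (by norm_num)) hR23
    have hL1 : 1 ≤ L := by
      obtain ⟨z, hz⟩ := hne
      refine le_min ((?_ : (1 : ℝ) ≤ _).trans (hLz z hz)) hR23
      exact_mod_cast one_le_nrad _ _
    have h1 := h F hI hd Z hZ hF P L hP1 hL1 S (fun z => (nn z).1) (fun z => (nn z).2)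
      (fun z hz => by
        obtain ⟨h1, h2, h3, h4, h5, h6, h7⟩ := hnn z hz
        exact ⟨(hS z hz).1, h1, h2, le_min h7 h4, le_min (hLz z hz) h5⟩)
    have hPL : P * L ≤ 2 * R := by
      calc P * L ≤ 2 ^ (j + 1) * (R / 2 ^ j) :=
            mul_le_mul (min_le_left _ _) (min_le_left _ _) (by linarith) (by positivity)
        _ = 2 * R := by
            rw [pow_succ]
            field_simp
    have h2 : (P * L) ^ (2 / 3 : ℝ) ≤ 2 * R ^ (2 / 3 : ℝ) :=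
      (Real.rpow_le_rpow (by positivity) hPL (by norm_num)).trans (h4_two_pow hR)
    have h3 : P ≤ R ^ (2 / 3 : ℝ) := min_le_right _ _
    have h4 : L ≤ R ^ (2 / 3 : ℝ) := min_le_right _ _
    calc (S.card : ℝ) ≤ C * Z ^ ε * ((P * L) ^ (2 / 3 : ℝ) + P + L) := h1
      _ ≤ C * Z ^ ε * (4 * R ^ (2 / 3 : ℝ)) :=
          mul_le_mul_of_nonneg_left (by linarith) (by positivity)
      _ = 4 * C * Z ^ ε * R ^ (2 / 3 : ℝ) := by ring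

/-- the points of type B -/
theorem h4_chooseB {Q : ℕ → Prop} {F : Cub} {R : ℝ} {j : ℕ} {S : Finset (ℤ × ℤ)}
    (hS : ∀ z ∈ S, h4B Q F R j z) : ∃ p i n : ℤ × ℤ → ℕ, ∀ z ∈ S,
      F.val z = (p z : ℤ) ^ (i z) * (n z : ℤ) ∧ (p z).Prime ∧ p z ≠ 2 ∧ ¬ p z ∣ n z ∧
      ¬ p z ∣ 2 * F.disc.natAbs ∧ Q (i z) ∧
      (p z : ℝ) * (nrad (2 * F.disc.natAbs) (n z) : ℝ) ≤ R ∧
      (nrad (2 * F.disc.natAbs) (n z) : ℝ) ≤ R ^ (1 / 3 : ℝ) ∧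
      (2 : ℝ) ^ j ≤ (p z : ℝ) ∧ (p z : ℝ) ≤ (2 : ℝ) ^ (j + 1) := by
  have hch : ∀ z : ℤ × ℤ, ∃ t : ℕ × ℕ × ℕ, z ∈ S →
      F.val z = (t.1 : ℤ) ^ t.2.1 * (t.2.2 : ℤ) ∧ t.1.Prime ∧ t.1 ≠ 2 ∧ ¬ t.1 ∣ t.2.2 ∧
      ¬ t.1 ∣ 2 * F.disc.natAbs ∧ Q t.2.1 ∧
      (t.1 : ℝ) * (nrad (2 * F.disc.natAbs) t.2.2 : ℝ) ≤ R ∧
      (nrad (2 * F.disc.natAbs) t.2.2 : ℝ) ≤ R ^ (1 / 3 : ℝ) ∧
      (2 : ℝ) ^ j ≤ (t.1 : ℝ) ∧ (t.1 : ℝ) ≤ (2 : ℝ) ^ (j + 1) := by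
    intro z
    by_cases hz : z ∈ S
    · obtain ⟨p, i, n, h1⟩ := hS z hz
      exact ⟨(p, i, n), fun _ => h1⟩
    · exact ⟨(0, 0, 0), fun h1 => absurd h1 hz⟩
  choose t ht using hch
  exact ⟨fun z => (t z).1, fun z => (t z).2.1, fun z => (t z).2.2, ht⟩

theorem h4_third {R : ℝ} (hR : 1 ≤ R) : R ^ (1 / 3 : ℝ) ≤ R ^ (2 / 3 : ℝ) :=
  Real.rpow_le_rpow_of_exponent_le hR (by norm_num)

theorem h4_countB1 (ε : ℝ) (hε : 0 < ε) : ∃ C : ℝ, 0 < C ∧ ∀ (F : Cub), F.Irr → F.disc ≠ 0 →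
    ∀ Z : ℝ, 2 ≤ Z → (F.ht : ℝ) ≤ Z → ∀ R : ℝ, 1 ≤ R → ∀ (j : ℕ) (S : Finset (ℤ × ℤ)),
    (∀ z ∈ S, Pt F Z z ∧ h4B (fun i => i = 1) F R j z) →
    (S.card : ℝ) ≤ C * Z ^ ε * R ^ (2 / 3 : ℝ) := by
  obtain ⟨C, hC, h⟩ := count_one ε hε
  refine ⟨3 * C, by positivity, fun F hI hd Z hZ hF R hR j S hS => ?_⟩
  have hR0 : (0 : ℝ) < R := by linarith
  have hR13 : 1 ≤ R ^ (1 / 3 : ℝ) := Real.one_le_rpow hR (by norm_num)
  have hZε : (0 : ℝ) < Z ^ ε := by positivity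
  rcases S.eq_empty_or_nonempty with he | hne
  · rw [he, card_empty, Nat.cast_zero]
    positivity
  · obtain ⟨p, i, n, hpn⟩ := h4_chooseB (fun z hz => (hS z hz).2)
    have h2j : (0 : ℝ) < 2 ^ j := by positivity
    set Q : ℝ := min (R / 2 ^ j) (R ^ (1 / 3 : ℝ)) with hQ
    have hQz : ∀ z ∈ S, (nrad (2 * F.disc.natAbs) (n z) : ℝ) ≤ R / 2 ^ j := by
      intro z hz
      obtain ⟨_, _, _, _, _, _, h7, _, h9, _⟩ := hpn z hz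
      rw [le_div_iff₀ h2j, mul_comm]
      exact (mul_le_mul_of_nonneg_right h9 (Nat.cast_nonneg _)).trans h7
    have hQ1 : 1 ≤ Q := by
      obtain ⟨z, hz⟩ := hne
      refine le_min ((?_ : (1 : ℝ) ≤ _).trans (hQz z hz)) hR13
      exact_mod_cast one_le_nrad _ _
    have h1 := h F hI hd Z hZ hF (2 ^ (j + 1)) Q (one_le_pow₀ (by norm_num)) hQ1 S p n
      (fun z hz => by
        obtain ⟨h1, h2, h3, h4, h5, h6, h7, h8, h9, h10⟩ := hpn z hz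
        have h6' : i z = 1 := h6
        refine ⟨(hS z hz).1, ?_, h2, h4, h10, le_min (hQz z hz) h8⟩
        rw [h1, h6', pow_one])
    have hPQ : 2 ^ (j + 1) * Q ≤ 2 * R := by
      calc 2 ^ (j + 1) * Q ≤ 2 ^ (j + 1) * (R / 2 ^ j) :=
            mul_le_mul_of_nonneg_left (min_le_left _ _) (by positivity)
        _ = 2 * R := by
            rw [pow_succ]
            field_simp
    have h2 : (2 ^ (j + 1) * Q) ^ (2 / 3 : ℝ) ≤ 2 * R ^ (2 / 3 : ℝ) :=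
      (Real.rpow_le_rpow (by positivity) hPQ (by norm_num)).trans (h4_two_pow hR)
    have h3 : Q ≤ R ^ (2 / 3 : ℝ) := (min_le_right _ _).trans (h4_third hR)
    calc (S.card : ℝ) ≤ C * Z ^ ε * ((2 ^ (j + 1) * Q) ^ (2 / 3 : ℝ) + Q) := h1
      _ ≤ C * Z ^ ε * (3 * R ^ (2 / 3 : ℝ)) :=
          mul_le_mul_of_nonneg_left (by linarith) (by positivity)
      _ = 3 * C * Z ^ ε * R ^ (2 / 3 : ℝ) := by ring

theorem h4_countB2 (ε : ℝ) (hε : 0 < ε) : ∃ C : ℝ, 0 < C ∧ ∀ (F : Cub), F.Irr → F.disc ≠ 0 →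
    ∀ Z : ℝ, 2 ≤ Z → (F.ht : ℝ) ≤ Z → ∀ R : ℝ, 1 ≤ R → ∀ (j : ℕ) (S : Finset (ℤ × ℤ)),
    (∀ z ∈ S, Pt F Z z ∧ h4B (fun i => 2 ≤ i) F R j z) →
    (S.card : ℝ) ≤ C * Z ^ ε * (|(F.disc : ℝ)| ^ (1 / 6 : ℝ) * R ^ (2 / 3 : ℝ) +
      |(F.disc : ℝ)| ^ (1 / 4 : ℝ) * R ^ (1 / 2 : ℝ)) := by
  obtain ⟨C₁, hC₁, hst⟩ := count_st ε hε
  obtain ⟨C₃, hC₃, hpow⟩ := count_pow ε hε
  refine ⟨5 * C₁ + C₃, by positivity, fun F hI hd Z hZ hF R hR j S hS => ?_⟩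
  have hR0 : (0 : ℝ) < R := by linarith
  have hR13 : 1 ≤ R ^ (1 / 3 : ℝ) := Real.one_le_rpow hR (by norm_num)
  have hZε : (0 : ℝ) < Z ^ ε := by positivity
  set D : ℝ := |(F.disc : ℝ)| with hD
  have hD1 : 1 ≤ D := by
    rw [hD]
    have h1 : 1 ≤ |F.disc| := Int.one_le_abs hd
    exact_mod_cast h1
  have hD0 : (0 : ℝ) < D := by linarith
  set X : ℝ := D ^ (1 / 6 : ℝ) * R ^ (2 / 3 : ℝ) + D ^ (1 / 4 : ℝ) * R ^ (1 / 2 : ℝ) with hX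
  have hRX : R ^ (2 / 3 : ℝ) ≤ X := by
    have h1 : 1 ≤ D ^ (1 / 6 : ℝ) := Real.one_le_rpow hD1 (by norm_num)
    have h2 : R ^ (2 / 3 : ℝ) ≤ D ^ (1 / 6 : ℝ) * R ^ (2 / 3 : ℝ) :=
      le_mul_of_one_le_left (by positivity) h1
    have h3 : 0 ≤ D ^ (1 / 4 : ℝ) * R ^ (1 / 2 : ℝ) := by positivity
    linarith
  have hX0 : 0 < X := lt_of_lt_of_le (by positivity) hRX
  rcases S.eq_empty_or_nonempty with he | hne
  · rw [he, card_empty, Nat.cast_zero]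
    positivity
  · obtain ⟨p, i, n, hpn⟩ := h4_chooseB (fun z hz => (hS z hz).2)
    have h2j : (0 : ℝ) < 2 ^ j := by positivity
    have h2j1 : (1 : ℝ) ≤ 2 ^ j := one_le_pow₀ (by norm_num)
    set Q : ℝ := min (R / 2 ^ j) (R ^ (1 / 3 : ℝ)) with hQ
    have hQz : ∀ z ∈ S, (nrad (2 * F.disc.natAbs) (n z) : ℝ) ≤ R / 2 ^ j := by
      intro z hz
      obtain ⟨_, _, _, _, _, _, h7, _, h9, _⟩ := hpn z hz
      rw [le_div_iff₀ h2j, mul_comm]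
      exact (mul_le_mul_of_nonneg_right h9 (Nat.cast_nonneg _)).trans h7
    have hQ1 : 1 ≤ Q := by
      obtain ⟨z, hz⟩ := hne
      refine le_min ((?_ : (1 : ℝ) ≤ _).trans (hQz z hz)) hR13
      exact_mod_cast one_le_nrad _ _
    have hQR : Q ≤ R ^ (2 / 3 : ℝ) := (min_le_right _ _).trans (h4_third hR)
    have h5C : (5 * C₁ + C₃) * Z ^ ε * X = 5 * C₁ * Z ^ ε * X + C₃ * Z ^ ε * X := by ring
    rcases le_or_gt ((2 : ℝ) ^ j) X with hjX | hjX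
    · -- Szemeredi-Trotter
      have h1 := hst F hI hd Z hZ hF (2 ^ (j + 1)) Q (one_le_pow₀ (by norm_num)) hQ1 S
        (fun z => p z ^ i z) n
        (fun z hz => by
          obtain ⟨h1, h2, h3, h4, h5, h6, h7, h8, h9, h10⟩ := hpn z hz
          have h6' : 2 ≤ i z := h6
          refine ⟨(hS z hz).1, ?_, ?_, ?_, le_min (hQz z hz) h8⟩
          · rw [h1]
            push_cast
            rfl
          · exact Nat.Coprime.pow_left _ ((Nat.Prime.coprime_iff_not_dvd h2).mpr h4)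
          · rw [h4_nrad_pow _ _ _ h2 (by omega) h5]
            exact h10)
      have hPQ : 2 ^ (j + 1) * Q ≤ 2 * R := by
        calc 2 ^ (j + 1) * Q ≤ 2 ^ (j + 1) * (R / 2 ^ j) :=
              mul_le_mul_of_nonneg_left (min_le_left _ _) (by positivity)
          _ = 2 * R := by
              rw [pow_succ]
              field_simp
      have h2 : (2 ^ (j + 1) * Q) ^ (2 / 3 : ℝ) ≤ 2 * R ^ (2 / 3 : ℝ) :=
        (Real.rpow_le_rpow (by positivity) hPQ (by norm_num)).trans (h4_two_pow hR)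
      have h3 : (2 : ℝ) ^ (j + 1) ≤ 2 * X := by
        rw [pow_succ]
        linarith
      have h4 : C₁ * Z ^ ε * ((2 ^ (j + 1) * Q) ^ (2 / 3 : ℝ) + 2 ^ (j + 1) + Q) ≤
          C₁ * Z ^ ε * (5 * X) :=
        mul_le_mul_of_nonneg_left (by linarith) (by positivity)
      have h5 : 0 ≤ C₃ * Z ^ ε * X := by positivity
      rw [h5C]
      linarith
    · -- one curve
      have h1 := hpow F hI hd Z hZ hF (2 ^ j) Q h2j1 hQ1 S p i n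
        (fun z hz => by
          obtain ⟨h1, h2, h3, h4, h5, h6, h7, h8, h9, h10⟩ := hpn z hz
          refine ⟨(hS z hz).1, h1, h2, h3, h4, h6, h9, ?_, le_min (hQz z hz) h8⟩
          rw [pow_succ, mul_comm] at h10
          exact h10)
      have h2 := h4_min h2j1 hR hD1 hjX.le
      have h3 : Q * (D ^ (1 / 2 : ℝ) + D ^ (1 / 4 : ℝ) * ((2 : ℝ) ^ j) ^ (1 / 2 : ℝ)) ≤ X :=
        (mul_le_mul_of_nonneg_right (min_le_left _ _) (by positivity)).trans h2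
      have h4 : C₃ * Z ^ ε * Q * (D ^ (1 / 2 : ℝ) + D ^ (1 / 4 : ℝ) * ((2 : ℝ) ^ j) ^ (1 / 2 : ℝ)) ≤
          C₃ * Z ^ ε * X := by
        rw [mul_assoc]
        exact mul_le_mul_of_nonneg_left h3 (by positivity)
      have h5 : 0 ≤ 5 * C₁ * Z ^ ε * X := by positivity
      rw [h5C]
      linarith

theorem count_form (ε : ℝ) (hε : 0 < ε) : ∃ C : ℝ, 0 < C ∧ ∀ (F : Cub), F.Irr → F.disc ≠ 0 →
    ∀ Z : ℝ, 2 ≤ Z → (F.ht : ℝ) ≤ Z → ∀ R : ℝ, 1 ≤ R → ∀ (S : Finset (ℤ × ℤ)),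
    (∀ z ∈ S, Pt F Z z ∧ (nrad (2 * F.disc.natAbs) (F.val z).natAbs : ℝ) ≤ R) →
    (S.card : ℝ) ≤ C * Z ^ ε * (|(F.disc : ℝ)| ^ (1 / 6 : ℝ) * R ^ (2 / 3 : ℝ) +
      |(F.disc : ℝ)| ^ (1 / 4 : ℝ) * R ^ (1 / 2 : ℝ)) := by
  classical
  have hε2 : 0 < ε / 2 := by linarith
  obtain ⟨CA, hCA, hA⟩ := h4_countA (ε / 2) hε2
  obtain ⟨CB, hCB, hB⟩ := h4_countB1 (ε / 2) hε2
  obtain ⟨CD, hCD, hB2⟩ := h4_countB2 (ε / 2) hε2
  obtain ⟨CL, hCL, hlog⟩ := h4_log (ε / 2) hε2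
  refine ⟨CL * (CA + CB + CD), by positivity, fun F hI hd Z hZ hF R hR S hS => ?_⟩
  have hR0 : (0 : ℝ) < R := by linarith
  have hZε : (0 : ℝ) < Z ^ (ε / 2) := by positivity
  set D : ℝ := |(F.disc : ℝ)| with hD
  have hD1 : 1 ≤ D := by
    rw [hD]
    have h1 : 1 ≤ |F.disc| := Int.one_le_abs hd
    exact_mod_cast h1
  have hD0 : (0 : ℝ) < D := by linarith
  set X : ℝ := D ^ (1 / 6 : ℝ) * R ^ (2 / 3 : ℝ) + D ^ (1 / 4 : ℝ) * R ^ (1 / 2 : ℝ) with hX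
  have hRX : R ^ (2 / 3 : ℝ) ≤ X := by
    have h1 : 1 ≤ D ^ (1 / 6 : ℝ) := Real.one_le_rpow hD1 (by norm_num)
    have h2 : R ^ (2 / 3 : ℝ) ≤ D ^ (1 / 6 : ℝ) * R ^ (2 / 3 : ℝ) :=
      le_mul_of_one_le_left (by positivity) h1
    have h3 : 0 ≤ D ^ (1 / 4 : ℝ) * R ^ (1 / 2 : ℝ) := by positivity
    linarith
  have hX0 : 0 < X := lt_of_lt_of_le (by positivity) hRX
  set J : ℕ := Nat.log 2 ⌊Z ^ 4⌋₊ + 1 with hJ
  have hsub : S ⊆ (range J).biUnion (fun j => (S.filter (h4A F R j) ∪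
      S.filter (h4B (fun i => i = 1) F R j)) ∪ S.filter (h4B (fun i => 2 ≤ i) F R j)) := by
    intro z hz
    obtain ⟨j, hj, h⟩ := h4_cover F hd hZ hF hR (hS z hz).1 (hS z hz).2
    rw [mem_biUnion]
    refine ⟨j, hj, ?_⟩
    rw [mem_union, mem_union, mem_filter, mem_filter, mem_filter]
    rcases h with h | h | h
    · exact Or.inl (Or.inl ⟨hz, h⟩)
    · exact Or.inl (Or.inr ⟨hz, h⟩)
    · exact Or.inr ⟨hz, h⟩
  have h1 : (S.card : ℝ) ≤ ∑ j ∈ range J, (((S.filter (h4A F R j)).card : ℝ) +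
      ((S.filter (h4B (fun i => i = 1) F R j)).card : ℝ) +
      ((S.filter (h4B (fun i => 2 ≤ i) F R j)).card : ℝ)) := by
    have h2 : S.card ≤ ∑ j ∈ range J, ((S.filter (h4A F R j)).card +
        (S.filter (h4B (fun i => i = 1) F R j)).card +
        (S.filter (h4B (fun i => 2 ≤ i) F R j)).card) := by
      refine (card_le_card hsub).trans (card_biUnion_le.trans (Finset.sum_le_sum fun j _ => ?_))
      exact (card_union_le _ _).trans (Nat.add_le_add_right (card_union_le _ _) _)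
    exact_mod_cast h2
  have h2 : ∀ j ∈ range J, (((S.filter (h4A F R j)).card : ℝ) +
      ((S.filter (h4B (fun i => i = 1) F R j)).card : ℝ) +
      ((S.filter (h4B (fun i => 2 ≤ i) F R j)).card : ℝ)) ≤
      (CA + CB + CD) * Z ^ (ε / 2) * X := by
    intro j _
    have ha := hA F hI hd Z hZ hF R hR j (S.filter (h4A F R j)) (fun z hz => by
      rw [mem_filter] at hz
      exact ⟨(hS z hz.1).1, hz.2⟩)
    have hb := hB F hI hd Z hZ hF R hR j (S.filter (h4B (fun i => i = 1) F R j)) (fun z hz => by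
      rw [mem_filter] at hz
      exact ⟨(hS z hz.1).1, hz.2⟩)
    have hc := hB2 F hI hd Z hZ hF R hR j (S.filter (h4B (fun i => 2 ≤ i) F R j)) (fun z hz => by
      rw [mem_filter] at hz
      exact ⟨(hS z hz.1).1, hz.2⟩)
    have ha' : CA * Z ^ (ε / 2) * R ^ (2 / 3 : ℝ) ≤ CA * Z ^ (ε / 2) * X :=
      mul_le_mul_of_nonneg_left hRX (by positivity)
    have hb' : CB * Z ^ (ε / 2) * R ^ (2 / 3 : ℝ) ≤ CB * Z ^ (ε / 2) * X :=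
      mul_le_mul_of_nonneg_left hRX (by positivity)
    have h3 : (CA + CB + CD) * Z ^ (ε / 2) * X = CA * Z ^ (ε / 2) * X + CB * Z ^ (ε / 2) * X +
      CD * Z ^ (ε / 2) * X := by ring
    rw [h3]
    linarith
  calc (S.card : ℝ) ≤ _ := h1
    _ ≤ ∑ _j ∈ range J, (CA + CB + CD) * Z ^ (ε / 2) * X := Finset.sum_le_sum h2
    _ = (J : ℝ) * ((CA + CB + CD) * Z ^ (ε / 2) * X) := by
        rw [Finset.sum_const, card_range, nsmul_eq_mul]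
    _ ≤ (CL * Z ^ (ε / 2)) * ((CA + CB + CD) * Z ^ (ε / 2) * X) :=
        mul_le_mul_of_nonneg_right (hlog Z hZ) (by positivity)
    _ = CL * (CA + CB + CD) * (Z ^ (ε / 2) * Z ^ (ε / 2)) * X := by ring
    _ = CL * (CA + CB + CD) * Z ^ ε * X := by
        rw [← Real.rpow_add (by linarith), add_halves]

end Pool.Agent.Lib.SqPart
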