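import Pool.Agent.Lib.MP_d8bd92_nt.SqH4
import Pool.Agent.Lib.MP_d8bd92_nt.SqD2
import Pool.Agent.Lib.MP_d8bd92_nt.SqF1
import Pool.Agent.Lib.MP_d8bd92_nt.SqF2
import Pool.Agent.Lib.MP_d8bd92_nt.SqG1

set_option autoImplicit false

/-!
The main theorem.

PROOF. (1) For w in S take W, and write W.Δ = D₁ t^2 with D₁ squarefree, t > 0 (from the given representation: the
squarefree part of Δ divides ... |D₁ new| <= |D₁ old| <= X: if Δ = D t^2, D = D' u^2 with D' squarefree then Δ = D'(ut)^2;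
`Nat.sq_mul_squarefree`). |D₁| <= rd |Δ| <= Y, and with n = 4t, M = 2·16|D₁|: nrad M n · |D₁| <= rd |Δ| <= Y (the primes dividing
4t but not 32 D₁ divide Δ and are prime to D₁). F := `curve_form`, F.disc = 16 D₁ not 0, F.val (1,0) = 4t.
`exists_red`: γ = (p,q,r,s) of determinant 1, F' = F.sub p q r s reduced; z = (s,-r) satisfies (pz₁+qz₂, rz₁+sz₂) = (1,0), so
F'.val z = 4t, F'.hes z = c₄, F'.cov z = -2c₆, F'.disc = 16 D₁, F'.Irr, z primitive. Simple zero conditions: an odd prime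
p | 4t divides Δ, so not c₄; if 8 | 4t then t even, Δ even, c₄ odd.
The map w ↦ (F', z) is injective (w = (hes, -cov/2)).
(2) So |S| <= sum over the set 𝓕 of the F' of |S_F'|, S_F' = the set of the z, with 0 < F'.val z = 4t <= 4Y^κ =: T
(t^2 <= |Δ| <= Y^κ), and ht F' <= C·16 X <= C Y (`ht_red`), |hes z| <= exp(Y^κ) (c₄ = 0: fine), wedge z z' not 0 for
z not z' (primitive and positive value). Let B0 = C (ht T)^C (constant of `gap_count`). The z with |hes z| >= B0: at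
most C (1 + κ log Y) (E = Y^κ; Y >= 1 so E >= 1). The others have coordinates <= (2Y)^(C') =: Z by `coord_le`
(choose C' so that also ht F' <= Z), so Pt F' Z z, and nrad (2·|disc|) (4t) <= Y/|D₁| = 16 Y/|disc| (and >= 1; take
R = max 1 (16Y/|disc|) = 16Y/|disc|): `count_form` gives
C (2Y)^(C'ε') (|disc|^(1/6) R^(2/3) + |disc|^(1/4) R^(1/2)) <= C Y^ε'' (|disc|^(-1/2) Y^(2/3) + |disc|^(-1/4) Y^(1/2)).
(3) Sum over F' in 𝓕, |disc| <= 16X: dyadic ranges 2^j <= |disc| < 2^(j+1), by `card_red` (M = 2^(j+1)) the number of F'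
is at most C 2^j (1+log)^2: sum over j with 2^j <= 16X of 2^j (2^(-j/2)Y^(2/3) + 2^(-j/4)Y^(1/2) + 1) Y^ε
<= C Y^ε (X^(1/2) Y^(2/3) + X^(3/4) Y^(1/2) + X), and X <= X^(1/2) Y^(2/3).
-/

namespace Pool.Agent.Lib.SqPart

open Finset Pool.Agent.Lib.Szpiro


theorem h5_val_sub (F : Cub) (p q r s : ℤ) (z : ℤ × ℤ) :
    (F.sub p q r s).val z = F.val (p * z.1 + q * z.2, r * z.1 + s * z.2) := by
  simp only [Cub.val, Cub.sub]
  ring

theorem h5_hes_sub (F : Cub) (p q r s : ℤ) (z : ℤ × ℤ) :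
    (F.sub p q r s).hes z =
      (p * s - q * r) ^ 2 * F.hes (p * z.1 + q * z.2, r * z.1 + s * z.2) := by
  simp only [Cub.hes, Cub.sub]
  ring

theorem h5_cov_sub (F : Cub) (p q r s : ℤ) (z : ℤ × ℤ) :
    (F.sub p q r s).cov z =
      (p * s - q * r) ^ 3 * F.cov (p * z.1 + q * z.2, r * z.1 + s * z.2) := by
  simp only [Cub.cov, Cub.sub]
  ring

theorem h5_disc_sub (F : Cub) (p q r s : ℤ) :
    (F.sub p q r s).disc = (p * s - q * r) ^ 6 * F.disc := by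
  simp only [Cub.disc, Cub.sub]
  ring

theorem h5_irr_sub (F : Cub) (hF : F.Irr) (p q r s : ℤ) (h : p * s - q * r = 1) :
    (F.sub p q r s).Irr := by
  intro z hz hv
  rw [h5_val_sub] at hv
  refine hF _ ?_ hv
  intro h0
  have h1 : p * z.1 + q * z.2 = 0 := congrArg Prod.fst h0
  have h2 : r * z.1 + s * z.2 = 0 := congrArg Prod.snd h0
  apply hz
  have h3 : z.1 = 0 := by linear_combination (-z.1) * h + s * h1 - q * h2
  have h4 : z.2 = 0 := by linear_combination (-z.2) * h + p * h2 - r * h1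
  exact Prod.ext h3 h4

/-- the conditions on the point of a curve -/
def h5P (Y κ : ℝ) (F : Cub) (z : ℤ × ℤ) : Prop :=
  IsCoprime z.1 z.2 ∧ 0 < F.val z ∧ (F.val z : ℝ) ≤ 4 * Y ^ κ ∧
  (∀ p : ℕ, p.Prime → p ≠ 2 → (p : ℤ) ∣ F.val z → ¬ (p : ℤ) ∣ F.hes z) ∧
  (8 ∣ F.val z → ¬ 2 ∣ F.hes z) ∧
  (nrad (2 * F.disc.natAbs) (F.val z).natAbs : ℝ) * |(F.disc : ℝ)| ≤ 16 * Y ∧
  Real.log |(F.hes z : ℝ)| ≤ Y ^ κ

theorem h5_rad (a u : ℕ) (ha : Squarefree a) (hu : 0 < u) :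
    nrad (2 * (16 * a)) (4 * u) * a ≤ rd (a * u ^ 2) := by
  have ha0 : a ≠ 0 := ha.ne_zero
  unfold nrad rd
  have h1 : ∏ p ∈ a.primeFactors, p = a := Nat.prod_primeFactors_of_squarefree ha
  have h1' : (∏ p ∈ (4 * u).primeFactors.filter (fun p => ¬ p ∣ 2 * (16 * a)), p) *
      ∏ p ∈ a.primeFactors, p ≤ ∏ p ∈ (a * u ^ 2).primeFactors, p := by
    rw [← Finset.prod_union]
    · refine Finset.prod_le_prod_of_subset_of_one_le' ?_
        fun p hp _ => (Nat.prime_of_mem_primeFactors hp).one_lt.le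
      intro p hp
      rw [Finset.mem_union, Finset.mem_filter] at hp
      rcases hp with ⟨hp1, hp2⟩ | hp1
      · have hpp := Nat.prime_of_mem_primeFactors hp1
        have hpd := Nat.dvd_of_mem_primeFactors hp1
        rw [Nat.mem_primeFactors]
        refine ⟨hpp, ?_, by positivity⟩
        rcases (hpp.dvd_mul).mp hpd with h | h
        · exfalso
          have h2 : p ∣ 2 := by
            have h3 : p ∣ 2 ^ 2 := by
              norm_num
              exact h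
            exact hpp.dvd_of_dvd_pow h3
          exact hp2 (h2.mul_right _)
        · exact (dvd_pow h two_ne_zero).mul_left _
      · have hpp := Nat.prime_of_mem_primeFactors hp1
        have hpd := Nat.dvd_of_mem_primeFactors hp1
        rw [Nat.mem_primeFactors]
        exact ⟨hpp, hpd.mul_right _, by positivity⟩
    · rw [Finset.disjoint_left]
      intro p hp1 hp2
      rw [Finset.mem_filter] at hp1
      exact hp1.2 (((Nat.dvd_of_mem_primeFactors hp2).mul_left _).mul_left _)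
  rw [h1] at h1'
  exact h1'

theorem h5_point (κ X Y : ℝ) (hX : 1 ≤ X) (hXY : X ≤ Y) (W : WeierstrassCurve ℤ)
    (h0 : W.Δ ≠ 0) (hc : IsCoprime W.c₄ W.Δ)
    (h2 : ∀ x : ℚ, 4 * x ^ 3 + (W.b₂ : ℚ) * x ^ 2 + 2 * (W.b₄ : ℚ) * x + (W.b₆ : ℚ) ≠ 0)
    (hrd : (rd W.Δ.natAbs : ℝ) ≤ Y) (hΔ : |(W.Δ : ℝ)| ≤ Y ^ κ)
    (hlog : Real.log |(W.c₄ : ℝ)| ≤ Y ^ κ) (hD : ∃ D₁ t : ℤ, W.Δ = D₁ * t ^ 2 ∧ |(D₁ : ℝ)| ≤ X) :
    ∃ (F : Cub) (z : ℤ × ℤ), F.Irr ∧ Red F ∧ F.disc ≠ 0 ∧ |(F.disc : ℝ)| ≤ 16 * X ∧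
      F.hes z = W.c₄ ∧ F.cov z = -(2 * W.c₆) ∧ h5P Y κ F z := by
  obtain ⟨D₁, t, hDt, hDX⟩ := hD
  have hD0 : D₁ ≠ 0 := by
    rintro rfl
    exact h0 (by rw [hDt]; ring)
  have ht0 : t ≠ 0 := by
    rintro rfl
    exact h0 (by rw [hDt]; ring)
  obtain ⟨a, b, hab, ha⟩ := Nat.sq_mul_squarefree D₁.natAbs
  have hb0 : b ≠ 0 := by
    rintro rfl
    rw [zero_pow two_ne_zero, zero_mul] at hab
    exact hD0 (Int.natAbs_eq_zero.mp hab.symm)
  set u : ℕ := b * t.natAbs with hu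
  have hu0 : 0 < u := Nat.mul_pos (Nat.pos_of_ne_zero hb0) (Int.natAbs_pos.mpr ht0)
  set D' : ℤ := D₁.sign * a with hD'
  have e1 : D₁ = D' * (b : ℤ) ^ 2 := by
    rw [hD', mul_assoc]
    have : ((a : ℤ) * (b : ℤ) ^ 2) = (D₁.natAbs : ℤ) := by
      rw [← hab]
      push_cast
      ring
    rw [this]
    exact (Int.sign_mul_natAbs D₁).symm
  have e2 : W.Δ = D' * (u : ℤ) ^ 2 := by
    rw [hDt, hu]
    push_cast
    have : ((t.natAbs : ℤ)) ^ 2 = t ^ 2 := Int.natAbs_sq t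
    rw [mul_pow, ← Int.natCast_natAbs, this]
    conv_lhs => rw [e1]
    ring
  have e3 : D'.natAbs = a := by
    rw [hD', Int.natAbs_mul, Int.natAbs_natCast, Int.natAbs_sign_of_ne_zero hD0, one_mul]
  have hD'0 : D' ≠ 0 := by
    intro h
    exact h0 (by rw [e2, h, zero_mul])
  have e4 : W.Δ.natAbs = a * u ^ 2 := by
    rw [e2, Int.natAbs_mul, e3, Int.natAbs_pow, Int.natAbs_natCast]
  have e5 : |(D' : ℝ)| = a := by
    have : |(D' : ℝ)| = ((D'.natAbs : ℕ) : ℝ) := by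
      rw [Nat.cast_natAbs]
      push_cast
      rfl
    rw [this, e3]
  have e6 : |(D₁ : ℝ)| = (b : ℝ) ^ 2 * a := by
    have : |(D₁ : ℝ)| = ((D₁.natAbs : ℕ) : ℝ) := by
      rw [Nat.cast_natAbs]
      push_cast
      rfl
    rw [this, ← hab]
    push_cast
    ring
  have hb1 : (1 : ℝ) ≤ (b : ℝ) ^ 2 := by
    have : (1 : ℝ) ≤ b := by exact_mod_cast Nat.one_le_iff_ne_zero.mpr hb0
    nlinarith
  have ha0 : (0 : ℝ) ≤ a := Nat.cast_nonneg a
  have hD'X : |(D' : ℝ)| ≤ X := by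
    rw [e5]
    rw [e6] at hDX
    nlinarith
  obtain ⟨F, hF1, hF2, hF3, hF4, hF5⟩ := curve_form W D' (u : ℤ) (by exact_mod_cast hu0) e2 h0 hc h2
  have hFd : F.disc ≠ 0 := by
    rw [hF2]
    exact mul_ne_zero (by norm_num) hD'0
  obtain ⟨p, q, r, s, hdet, hred⟩ := exists_red F hF1 hFd
  have hdisc : (F.sub p q r s).disc = 16 * D' := by
    rw [h5_disc_sub, hdet, one_pow, one_mul, hF2]
  have hp0 : (p * s + q * -r, r * s + s * -r) = ((1 : ℤ), (0 : ℤ)) := by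
    apply Prod.ext
    · show p * s + q * -r = 1
      linarith
    · show r * s + s * -r = 0
      ring
  have hval : (F.sub p q r s).val (s, -r) = 4 * (u : ℤ) := by
    rw [h5_val_sub]
    show F.val (p * s + q * -r, r * s + s * -r) = _
    rw [hp0, ← hF3]
    simp [Cub.val]
  have hhes : (F.sub p q r s).hes (s, -r) = W.c₄ := by
    rw [h5_hes_sub, hdet]
    show 1 ^ 2 * F.hes (p * s + q * -r, r * s + s * -r) = _
    rw [hp0, hF4]
    ring
  have hcov : (F.sub p q r s).cov (s, -r) = -(2 * W.c₆) := by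
    rw [h5_cov_sub, hdet]
    show 1 ^ 3 * F.cov (p * s + q * -r, r * s + s * -r) = _
    rw [hp0, hF5]
    ring
  have hdR : (((F.sub p q r s).disc : ℤ) : ℝ) = 16 * (D' : ℝ) := by
    rw [hdisc]
    push_cast
    ring
  have hcop : ∀ l : ℤ, Prime l → l ∣ W.Δ → ¬ l ∣ W.c₄ := by
    intro l hl h1 h2
    exact hl.not_isUnit (hc.isUnit_of_dvd' h2 h1)
  refine ⟨F.sub p q r s, (s, -r), h5_irr_sub F hF1 p q r s hdet, hred, ?_, ?_, hhes, hcov, ?_⟩
  · rw [hdisc]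
    exact mul_ne_zero (by norm_num) hD'0
  · rw [hdR, abs_mul, abs_of_pos (by norm_num : (0 : ℝ) < 16)]
    linarith
  · have hu1 : (1 : ℝ) ≤ u := by exact_mod_cast hu0
    have ha1 : (1 : ℝ) ≤ a := by
      exact_mod_cast Nat.one_le_iff_ne_zero.mpr ha.ne_zero
    refine ⟨⟨p, q, ?_⟩, ?_, ?_, ?_, ?_, ?_, ?_⟩
    · show p * s + q * -r = 1
      linarith
    · rw [hval]
      have : (0 : ℤ) < u := by exact_mod_cast hu0
      linarith
    · rw [hval]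
      push_cast
      have h3 : |(W.Δ : ℝ)| = (a : ℝ) * (u : ℝ) ^ 2 := by
        have : |(W.Δ : ℝ)| = ((W.Δ.natAbs : ℕ) : ℝ) := by
          rw [Nat.cast_natAbs]
          push_cast
          rfl
        rw [this, e4]
        push_cast
        ring
      have h4 : (u : ℝ) ≤ (a : ℝ) * (u : ℝ) ^ 2 := by nlinarith
      rw [h3] at hΔ
      linarith
    · intro l hl hl2 hlv
      rw [hval] at hlv
      rw [hhes]
      have hlp : Prime (l : ℤ) := Nat.prime_iff_prime_int.mp hl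
      refine hcop l hlp ?_
      rw [e2]
      rcases hlp.dvd_or_dvd hlv with h | h
      · exfalso
        have h3 : (l : ℤ) ∣ 2 := by
          have h5 : (l : ℤ) ∣ 2 ^ 2 := by
            norm_num
            exact h
          exact hlp.dvd_of_dvd_pow h5
        have h4 : l ∣ 2 := by exact_mod_cast h3
        exact hl2 ((Nat.prime_dvd_prime_iff_eq hl Nat.prime_two).mp h4)
      · exact (dvd_pow h two_ne_zero).mul_left _
    · intro h8
      rw [hval] at h8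
      rw [hhes]
      refine hcop 2 Int.prime_two ?_
      rw [e2]
      have h3 : (2 : ℤ) ∣ u := by
        obtain ⟨k, hk⟩ := h8
        exact ⟨k, by linarith⟩
      exact (dvd_pow h3 two_ne_zero).mul_left _
    · rw [hdR, abs_mul, abs_of_pos (by norm_num : (0 : ℝ) < 16), e5, hdisc, hval]
      have h3 : (16 * D').natAbs = 16 * a := by
        rw [Int.natAbs_mul, e3]
        rfl
      have h4 : (4 * (u : ℤ)).natAbs = 4 * u := by
        rw [Int.natAbs_mul, Int.natAbs_natCast]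
        rfl
      rw [h3, h4]
      have h5 := h5_rad a u ha hu0
      rw [← e4] at h5
      have h6 : ((nrad (2 * (16 * a)) (4 * u) * a : ℕ) : ℝ) ≤ (rd W.Δ.natAbs : ℝ) := by
        exact_mod_cast h5
      push_cast at h6
      linarith
    · rw [hhes]
      exact hlog

theorem h5_log (δ : ℝ) (hδ : 0 < δ) (A : ℝ) (hA : 1 ≤ A) :
    ∃ C : ℝ, 1 ≤ C ∧ ∀ Y : ℝ, 1 ≤ Y → 1 + Real.log (A * Y) ≤ C * Y ^ δ := by
  have hA0 : 0 < A := by linarith
  have hAδ : 0 < A ^ δ / δ := div_pos (Real.rpow_pos_of_pos hA0 δ) hδ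
  refine ⟨1 + A ^ δ / δ, by linarith, fun Y hY => ?_⟩
  have hY0 : 0 < Y := by linarith
  have h1 : Real.log (A * Y) ≤ (A * Y) ^ δ / δ := Real.log_le_rpow_div (by positivity) hδ
  rw [Real.mul_rpow hA0.le hY0.le] at h1
  have h2 : 1 ≤ Y ^ δ := Real.one_le_rpow hY hδ.le
  have h3 : A ^ δ * Y ^ δ / δ = A ^ δ / δ * Y ^ δ := by ring
  rw [h3] at h1
  linarith

theorem h5_abs_disc (F : Cub) : |(F.disc : ℝ)| = ((F.disc.natAbs : ℕ) : ℝ) := by
  rw [Nat.cast_natAbs]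
  push_cast
  rfl

open Classical in
theorem h5_sum (α : ℝ) (hα0 : 0 ≤ α) (hα1 : α ≤ 1) (K X' : ℝ) (hX' : 1 ≤ X') (hK : 0 ≤ K)
    (S : Finset Cub) (hd : ∀ F ∈ S, F.disc ≠ 0 ∧ |(F.disc : ℝ)| ≤ X')
    (hcard : ∀ M : ℝ, 1 ≤ M → M ≤ 2 * X' →
      ((S.filter (fun F => |(F.disc : ℝ)| ≤ M)).card : ℝ) ≤ K * M) :
    ∑ F ∈ S, |(F.disc : ℝ)| ^ (-α) ≤ 2 * K * (1 + Real.logb 2 X') * X' ^ (1 - α) := by
  have hfl : ⌊X'⌋₊ ≠ 0 := (Nat.floor_pos.mpr hX').ne'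
  set J := Nat.log 2 ⌊X'⌋₊ with hJ
  have hmap : ∀ F ∈ S, Nat.log 2 F.disc.natAbs ∈ Finset.range (J + 1) := by
    intro F hF
    rw [Finset.mem_range, Nat.lt_succ_iff]
    apply Nat.log_mono_right
    apply Nat.le_floor
    rw [← h5_abs_disc]
    exact (hd F hF).2
  rw [← Finset.sum_fiberwise_of_maps_to hmap]
  have hX0 : 0 < X' := by linarith
  have h1 : ∀ j ∈ Finset.range (J + 1),
      ∑ F ∈ S.filter (fun F => Nat.log 2 F.disc.natAbs = j), |(F.disc : ℝ)| ^ (-α) ≤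
        2 * K * X' ^ (1 - α) := by
    intro j hj
    rw [Finset.mem_range, Nat.lt_succ_iff] at hj
    have h2j : (2 : ℝ) ^ j ≤ X' := by
      calc (2 : ℝ) ^ j ≤ 2 ^ J := pow_le_pow_right₀ (by norm_num) hj
        _ ≤ (⌊X'⌋₊ : ℝ) := by exact_mod_cast Nat.pow_log_le_self 2 hfl
        _ ≤ X' := Nat.floor_le hX0.le
    have hj0 : (0 : ℝ) < 2 ^ j := by positivity
    have hj1 : (1 : ℝ) ≤ 2 ^ j := one_le_pow₀ (by norm_num)
    calc ∑ F ∈ S.filter (fun F => Nat.log 2 F.disc.natAbs = j), |(F.disc : ℝ)| ^ (-α)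
        ≤ ∑ _F ∈ S.filter (fun F => Nat.log 2 F.disc.natAbs = j), ((2 : ℝ) ^ j) ^ (-α) := by
          refine Finset.sum_le_sum fun F hF => ?_
          rw [Finset.mem_filter] at hF
          have h3 : F.disc.natAbs ≠ 0 := Int.natAbs_ne_zero.mpr (hd F hF.1).1
          have h4 : 2 ^ j ≤ F.disc.natAbs := by
            rw [← hF.2]
            exact Nat.pow_log_le_self 2 h3
          refine Real.rpow_le_rpow_of_nonpos hj0 ?_ (by linarith)
          rw [h5_abs_disc]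
          exact_mod_cast h4
      _ = ((S.filter (fun F => Nat.log 2 F.disc.natAbs = j)).card : ℝ) * ((2 : ℝ) ^ j) ^ (-α) := by
          rw [Finset.sum_const, nsmul_eq_mul]
      _ ≤ (K * (2 * 2 ^ j)) * ((2 : ℝ) ^ j) ^ (-α) := by
          refine mul_le_mul_of_nonneg_right ?_ (Real.rpow_nonneg hj0.le _)
          refine le_trans ?_ (hcard (2 * 2 ^ j) (by linarith) (by linarith))
          have : S.filter (fun F => Nat.log 2 F.disc.natAbs = j) ⊆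
              S.filter (fun F => |(F.disc : ℝ)| ≤ 2 * 2 ^ j) := by
            intro F hF
            rw [Finset.mem_filter] at hF ⊢
            refine ⟨hF.1, ?_⟩
            rw [h5_abs_disc]
            have h4 : F.disc.natAbs < 2 ^ (j + 1) := by
              rw [← hF.2]
              exact Nat.lt_pow_succ_log_self (by norm_num) _
            have h5 : ((F.disc.natAbs : ℕ) : ℝ) ≤ ((2 ^ (j + 1) : ℕ) : ℝ) := by
              exact_mod_cast h4.le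
            refine h5.trans (le_of_eq ?_)
            push_cast
            ring
          exact_mod_cast Finset.card_le_card this
      _ = 2 * K * ((2 : ℝ) ^ j) ^ (1 - α) := by
          rw [Real.rpow_sub hj0, Real.rpow_one, Real.rpow_neg hj0.le]
          ring
      _ ≤ 2 * K * X' ^ (1 - α) := by
          refine mul_le_mul_of_nonneg_left ?_ (by linarith)
          exact Real.rpow_le_rpow hj0.le h2j (by linarith)
  have hJl : (J : ℝ) ≤ Real.logb 2 X' := by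
    calc (J : ℝ) ≤ Real.logb (2 : ℕ) (⌊X'⌋₊ : ℝ) := Real.natLog_le_logb _ _
      _ ≤ Real.logb (2 : ℕ) X' := by
          refine Real.logb_le_logb_of_le (by norm_num) ?_ (Nat.floor_le hX0.le)
          exact_mod_cast Nat.pos_of_ne_zero hfl
      _ = Real.logb 2 X' := by norm_num
  have hXα : 0 ≤ X' ^ (1 - α) := Real.rpow_nonneg hX0.le _
  calc ∑ j ∈ Finset.range (J + 1),
        ∑ F ∈ S.filter (fun F => Nat.log 2 F.disc.natAbs = j), |(F.disc : ℝ)| ^ (-α)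
      ≤ ∑ _j ∈ Finset.range (J + 1), 2 * K * X' ^ (1 - α) := Finset.sum_le_sum h1
    _ = ((J : ℝ) + 1) * (2 * K * X' ^ (1 - α)) := by
        rw [Finset.sum_const, Finset.card_range, nsmul_eq_mul]
        push_cast
        ring
    _ ≤ (1 + Real.logb 2 X') * (2 * K * X' ^ (1 - α)) := by
        refine mul_le_mul_of_nonneg_right (by linarith) (by positivity)
    _ = _ := by ring

theorem h5_wedge (F : Cub) (z w : ℤ × ℤ) (hz : IsCoprime z.1 z.2) (hw : IsCoprime w.1 w.2)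
    (hvz : 0 < F.val z) (hvw : 0 < F.val w) (hzw : z ≠ w) : wedge z w ≠ 0 := by
  intro h
  have h0 : z.1 * w.2 = z.2 * w.1 := by
    unfold wedge at h
    linarith
  obtain ⟨u, v, huv⟩ := hz
  set k := u * w.1 + v * w.2 with hk
  have h1 : w.1 = k * z.1 := by
    rw [hk]
    linear_combination (-w.1) * huv - v * h0
  have h2 : w.2 = k * z.2 := by
    rw [hk]
    linear_combination (-w.2) * huv + u * h0
  have h3 : IsUnit k := hw.isUnit_of_dvd' ⟨z.1, h1⟩ ⟨z.2, h2⟩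
  rcases Int.isUnit_iff.mp h3 with hk1 | hk1
  · apply hzw
    rw [hk1, one_mul] at h1 h2
    exact (Prod.ext h1 h2).symm
  · have h4 : F.val w = - F.val z := by
      unfold Cub.val
      rw [h1, h2, hk1]
      ring
    linarith

theorem h5_a_ne (F : Cub) (hF : F.Irr) : F.a ≠ 0 := by
  intro h
  refine hF (1, 0) (by simp) ?_
  unfold Cub.val
  rw [h]
  ring

theorem h5_ht (F : Cub) (hF : F.Irr) : (1 : ℝ) ≤ (F.ht : ℝ) := by
  have h1 : 1 ≤ |F.a| := Int.one_le_abs (h5_a_ne F hF)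
  have h2 : 1 ≤ F.ht := by
    unfold Cub.ht
    have := abs_nonneg F.b
    have := abs_nonneg F.c
    have := abs_nonneg F.d
    linarith
  exact_mod_cast h2

open Classical in
theorem h5_form (κ ε : ℝ) (hκ : 0 < κ) (hε : 0 < ε) : ∃ C : ℝ, 0 < C ∧ ∀ Y : ℝ, 1 ≤ Y →
    ∀ F : Cub, F.Irr → F.disc ≠ 0 → Red F → |(F.disc : ℝ)| ≤ 16 * Y → ∀ S : Finset (ℤ × ℤ),
    (∀ z ∈ S, h5P Y κ F z) → (S.card : ℝ) ≤ C * Y ^ ε *
      (|(F.disc : ℝ)| ^ (-(1 / 2) : ℝ) * Y ^ (2 / 3 : ℝ) +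
        |(F.disc : ℝ)| ^ (-(1 / 4) : ℝ) * Y ^ (1 / 2 : ℝ) + 1) := by
  obtain ⟨Cg, hCg1, hgap⟩ := gap_count
  obtain ⟨Cc, hCc1, hcoord⟩ := coord_le
  obtain ⟨Ch, hCh1, hht⟩ := ht_red
  have hH1 : 1 ≤ 16 * Ch := by linarith
  set H := 16 * Ch with hH
  set K1 := 4 * H with hK1
  have hK1p : 1 ≤ K1 := by linarith
  set K2 := Cg * K1 ^ Cg with hK2
  have hK2p : 1 ≤ K2 := one_le_mul_of_one_le_of_one_le hCg1 (Real.one_le_rpow hK1p (by linarith))
  set a := (1 + κ) * (1 + Cg) * Cc with ha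
  have ha1 : 1 ≤ a := by
    rw [ha]
    refine one_le_mul_of_one_le_of_one_le (one_le_mul_of_one_le_of_one_le ?_ ?_) hCc1
    · linarith
    · linarith
  set K3 := Cc * (K1 * K2) ^ Cc with hK3
  have hK3p : 0 < K3 := by
    rw [hK3]
    have : 0 < K1 * K2 := by positivity
    have := Real.rpow_pos_of_pos this Cc
    positivity
  set A := K3 + H + 2 with hA
  have hA2 : 2 ≤ A := by linarith
  obtain ⟨Cf, hCf, hform⟩ := count_form (ε / a) (by positivity)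
  obtain ⟨Cl, hCl1, hlog⟩ := h5_log ε hε 1 le_rfl
  have hAe : 0 < A ^ (ε / a) := Real.rpow_pos_of_pos (by linarith) _
  refine ⟨16 * Cf * A ^ (ε / a) + Cg * (1 + κ) * Cl, by positivity, ?_⟩
  intro Y hY F hF hD hred hdY S hS
  have hY0 : 0 < Y := by linarith
  have hYκ : 1 ≤ Y ^ κ := Real.one_le_rpow hY hκ.le
  have hYε : 1 ≤ Y ^ ε := Real.one_le_rpow hY hε.le
  have hD1 : (1 : ℝ) ≤ |(F.disc : ℝ)| := by
    rw [h5_abs_disc]
    exact_mod_cast Nat.one_le_iff_ne_zero.mpr (Int.natAbs_ne_zero.mpr hD)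
  have hD0 : (0 : ℝ) < |(F.disc : ℝ)| := by linarith
  have hht1 := h5_ht F hF
  have hht2 : (F.ht : ℝ) ≤ H * Y := by
    refine (hht F (h5_a_ne F hF) hD hred).trans ?_
    rw [hH]
    have := mul_le_mul_of_nonneg_left hdY (by linarith : 0 ≤ Ch)
    linarith
  set T := 4 * Y ^ κ with hT
  have hT1 : 1 ≤ T := by linarith
  -- bounds
  have b1 : (F.ht : ℝ) * T ≤ K1 * Y ^ (1 + κ) := by
    rw [Real.rpow_add hY0, Real.rpow_one, hK1, hT]
    have := mul_le_mul_of_nonneg_right hht2 (by positivity : 0 ≤ 4 * Y ^ κ)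
    linarith
  have hhT1 : 1 ≤ (F.ht : ℝ) * T := one_le_mul_of_one_le_of_one_le hht1 hT1
  set B0 := Cg * ((F.ht : ℝ) * T) ^ Cg with hB0
  have hB01 : 1 ≤ B0 := one_le_mul_of_one_le_of_one_le hCg1 (Real.one_le_rpow hhT1 (by linarith))
  have b2 : B0 ≤ K2 * Y ^ ((1 + κ) * Cg) := by
    rw [hB0, hK2, Real.rpow_mul hY0.le, mul_assoc,
      ← Real.mul_rpow (by linarith) (Real.rpow_nonneg hY0.le _)]
    refine mul_le_mul_of_nonneg_left ?_ (by linarith)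
    exact Real.rpow_le_rpow (by linarith) b1 (by linarith)
  have b3 : (F.ht : ℝ) * T * B0 ≤ (K1 * K2) * Y ^ ((1 + κ) * (1 + Cg)) := by
    have e1 : (1 + κ) * (1 + Cg) = (1 + κ) + (1 + κ) * Cg := by ring
    rw [e1, Real.rpow_add hY0]
    have := mul_le_mul b1 b2 (by linarith) (by positivity)
    linarith
  have b4 : Cc * ((F.ht : ℝ) * T * B0) ^ Cc ≤ K3 * Y ^ a := by
    have h := Real.rpow_le_rpow (by positivity) b3 (by linarith : 0 ≤ Cc)
    rw [Real.mul_rpow (by positivity) (Real.rpow_nonneg hY0.le _), ← Real.rpow_mul hY0.le] at h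
    calc Cc * ((F.ht : ℝ) * T * B0) ^ Cc
        ≤ Cc * ((K1 * K2) ^ Cc * Y ^ ((1 + κ) * (1 + Cg) * Cc)) :=
          mul_le_mul_of_nonneg_left h (by linarith)
      _ = K3 * Y ^ a := by
          rw [hK3, ha]
          ring
  have hYa : Y ≤ Y ^ a := by
    conv_lhs => rw [← Real.rpow_one Y]
    exact Real.rpow_le_rpow_of_exponent_le hY ha1
  have hYa1 : 1 ≤ Y ^ a := hY.trans hYa
  have hZ2 : 2 ≤ A * Y ^ a := by nlinarith
  have hZ3 : (F.ht : ℝ) ≤ A * Y ^ a := by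
    have h1 : H * Y ≤ H * Y ^ a := mul_le_mul_of_nonneg_left hYa (by linarith)
    have h2 : H * Y ^ a ≤ A * Y ^ a := mul_le_mul_of_nonneg_right (by linarith) (by linarith)
    linarith
  have hZ4 : K3 * Y ^ a ≤ A * Y ^ a := mul_le_mul_of_nonneg_right (by linarith) (by linarith)
  -- large points
  have hbig : ((S.filter (fun z => B0 ≤ |(F.hes z : ℝ)|)).card : ℝ) ≤
      Cg * (1 + κ) * Cl * Y ^ ε := by
    have h1 := hgap F hF hD T (Y ^ κ) hT1 hYκ (S.filter (fun z => B0 ≤ |(F.hes z : ℝ)|)) ?_ ?_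
    · rw [Real.log_rpow hY0] at h1
      have h2 := hlog Y hY
      rw [one_mul] at h2
      have h3 : 0 ≤ Real.log Y := Real.log_nonneg hY
      calc _ ≤ Cg * (1 + κ * Real.log Y) := h1
        _ ≤ Cg * ((1 + κ) * (1 + Real.log Y)) := by
            refine mul_le_mul_of_nonneg_left ?_ (by linarith)
            nlinarith
        _ ≤ Cg * ((1 + κ) * (Cl * Y ^ ε)) := by
            refine mul_le_mul_of_nonneg_left ?_ (by linarith)
            exact mul_le_mul_of_nonneg_left h2 (by linarith)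
        _ = _ := by ring
    · intro z hz
      rw [Finset.mem_filter] at hz
      obtain ⟨q1, q2, q3, q4, q5, q6, q7⟩ := hS z hz.1
      refine ⟨q2, q3, hz.2, ?_⟩
      have h3 : 0 < |(F.hes z : ℝ)| := by linarith [hz.2]
      exact (Real.log_le_iff_le_exp h3).mp q7
    · intro z hz w hw hzw
      rw [Finset.mem_filter] at hz hw
      obtain ⟨q1, q2, -⟩ := hS z hz.1
      obtain ⟨r1, r2, -⟩ := hS w hw.1
      exact h5_wedge F z w q1 r1 q2 r2 hzw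
  -- small points
  have hR1 : 1 ≤ 16 * Y / |(F.disc : ℝ)| := by
    rw [le_div_iff₀ hD0]
    linarith
  have hsmall : ((S.filter (fun z => ¬ B0 ≤ |(F.hes z : ℝ)|)).card : ℝ) ≤
      16 * Cf * A ^ (ε / a) * Y ^ ε * (|(F.disc : ℝ)| ^ (-(1 / 2) : ℝ) * Y ^ (2 / 3 : ℝ) +
        |(F.disc : ℝ)| ^ (-(1 / 4) : ℝ) * Y ^ (1 / 2 : ℝ)) := by
    have h1 := hform F hF hD (A * Y ^ a) hZ2 hZ3 (16 * Y / |(F.disc : ℝ)|) hR1
      (S.filter (fun z => ¬ B0 ≤ |(F.hes z : ℝ)|)) ?_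
    · have e1 : (A * Y ^ a) ^ (ε / a) = A ^ (ε / a) * Y ^ ε := by
        rw [Real.mul_rpow (by linarith) (by linarith), ← Real.rpow_mul hY0.le]
        congr 2
        field_simp
      have e2 : |(F.disc : ℝ)| ^ (1 / 6 : ℝ) * (16 * Y / |(F.disc : ℝ)|) ^ (2 / 3 : ℝ) ≤
          16 * (|(F.disc : ℝ)| ^ (-(1 / 2) : ℝ) * Y ^ (2 / 3 : ℝ)) := by
        rw [Real.div_rpow (by positivity) hD0.le, Real.mul_rpow (by norm_num) hY0.le]
        have e3 : |(F.disc : ℝ)| ^ (-(1 / 2) : ℝ) =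
            |(F.disc : ℝ)| ^ (1 / 6 : ℝ) / |(F.disc : ℝ)| ^ (2 / 3 : ℝ) := by
          rw [← Real.rpow_sub hD0]
          norm_num
        have e4 : (16 : ℝ) ^ (2 / 3 : ℝ) ≤ 16 := by
          conv_rhs => rw [← Real.rpow_one 16]
          exact Real.rpow_le_rpow_of_exponent_le (by norm_num) (by norm_num)
        rw [e3]
        have h5 : 0 ≤ |(F.disc : ℝ)| ^ (1 / 6 : ℝ) / |(F.disc : ℝ)| ^ (2 / 3 : ℝ) *
            Y ^ (2 / 3 : ℝ) := by positivity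
        have h6 := mul_le_mul_of_nonneg_right e4 h5
        calc _ = (16 : ℝ) ^ (2 / 3 : ℝ) * (|(F.disc : ℝ)| ^ (1 / 6 : ℝ) /
              |(F.disc : ℝ)| ^ (2 / 3 : ℝ) * Y ^ (2 / 3 : ℝ)) := by ring
          _ ≤ _ := h6
      have e3 : |(F.disc : ℝ)| ^ (1 / 4 : ℝ) * (16 * Y / |(F.disc : ℝ)|) ^ (1 / 2 : ℝ) ≤
          16 * (|(F.disc : ℝ)| ^ (-(1 / 4) : ℝ) * Y ^ (1 / 2 : ℝ)) := by
        rw [Real.div_rpow (by positivity) hD0.le, Real.mul_rpow (by norm_num) hY0.le]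
        have e3 : |(F.disc : ℝ)| ^ (-(1 / 4) : ℝ) =
            |(F.disc : ℝ)| ^ (1 / 4 : ℝ) / |(F.disc : ℝ)| ^ (1 / 2 : ℝ) := by
          rw [← Real.rpow_sub hD0]
          norm_num
        have e4 : (16 : ℝ) ^ (1 / 2 : ℝ) ≤ 16 := by
          conv_rhs => rw [← Real.rpow_one 16]
          exact Real.rpow_le_rpow_of_exponent_le (by norm_num) (by norm_num)
        rw [e3]
        have h5 : 0 ≤ |(F.disc : ℝ)| ^ (1 / 4 : ℝ) / |(F.disc : ℝ)| ^ (1 / 2 : ℝ) *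
            Y ^ (1 / 2 : ℝ) := by positivity
        have h6 := mul_le_mul_of_nonneg_right e4 h5
        calc _ = (16 : ℝ) ^ (1 / 2 : ℝ) * (|(F.disc : ℝ)| ^ (1 / 4 : ℝ) /
              |(F.disc : ℝ)| ^ (1 / 2 : ℝ) * Y ^ (1 / 2 : ℝ)) := by ring
          _ ≤ _ := h6
      rw [e1] at h1
      have h7 : 0 ≤ Cf * (A ^ (ε / a) * Y ^ ε) := by positivity
      have h8 := mul_le_mul_of_nonneg_left (add_le_add e2 e3) h7
      calc _ ≤ _ := h1
        _ ≤ _ := h8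
        _ = _ := by ring
    · intro z hz
      rw [Finset.mem_filter] at hz
      obtain ⟨q1, q2, q3, q4, q5, q6, q7⟩ := hS z hz.1
      have hzB : |(F.hes z : ℝ)| ≤ B0 := (not_le.mp hz.2).le
      have hvabs : |(F.val z : ℝ)| ≤ T := by
        rw [abs_of_pos (by exact_mod_cast q2)]
        exact q3
      obtain ⟨c1, c2⟩ := hcoord F hF hD T B0 hT1 hB01 z hvabs hzB
      refine ⟨⟨q1, q2, ?_, ?_, q4, q5⟩, ?_⟩
      · linarith
      · linarith
      · rw [le_div_iff₀ hD0]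
        exact q6
  have hsplit := Finset.card_filter_add_card_filter_not (s := S)
    (fun z => B0 ≤ |(F.hes z : ℝ)|)
  have hsplit' : (S.card : ℝ) = ((S.filter (fun z => B0 ≤ |(F.hes z : ℝ)|)).card : ℝ) +
      ((S.filter (fun z => ¬ B0 ≤ |(F.hes z : ℝ)|)).card : ℝ) := by
    exact_mod_cast hsplit.symm
  rw [hsplit']
  set P1 := |(F.disc : ℝ)| ^ (-(1 / 2) : ℝ) * Y ^ (2 / 3 : ℝ) with hP1
  set P2 := |(F.disc : ℝ)| ^ (-(1 / 4) : ℝ) * Y ^ (1 / 2 : ℝ) with hP2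
  have hP1p : 0 ≤ P1 := by positivity
  have hP2p : 0 ≤ P2 := by positivity
  have h9 : 0 ≤ 16 * Cf * A ^ (ε / a) * Y ^ ε := by positivity
  have h10 : 0 ≤ Cg * (1 + κ) * Cl * Y ^ ε := by positivity
  have h11 := mul_nonneg h10 (add_nonneg hP1p hP2p)
  calc _ ≤ Cg * (1 + κ) * Cl * Y ^ ε + 16 * Cf * A ^ (ε / a) * Y ^ ε * (P1 + P2) :=
        add_le_add hbig hsmall
    _ ≤ (16 * Cf * A ^ (ε / a) + Cg * (1 + κ) * Cl) * Y ^ ε * (P1 + P2 + 1) := by
        have e : (16 * Cf * A ^ (ε / a) + Cg * (1 + κ) * Cl) * Y ^ ε * (P1 + P2 + 1) =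
            (Cg * (1 + κ) * Cl * Y ^ ε + 16 * Cf * A ^ (ε / a) * Y ^ ε * (P1 + P2)) +
            (16 * Cf * A ^ (ε / a) * Y ^ ε + Cg * (1 + κ) * Cl * Y ^ ε * (P1 + P2)) := by ring
        rw [e]
        linarith

theorem sq_main (κ ε : ℝ) (hκ : 0 < κ) (hε : 0 < ε) : ∃ C : ℝ, 0 < C ∧ ∀ X Y : ℝ, 1 ≤ X → X ≤ Y →
    ∀ S : Finset (ℤ × ℤ), (∀ w ∈ S, ∃ W : WeierstrassCurve ℤ, w = (W.c₄, W.c₆) ∧ W.Δ ≠ 0 ∧
      IsCoprime W.c₄ W.Δ ∧
      (∀ x : ℚ, 4 * x ^ 3 + (W.b₂ : ℚ) * x ^ 2 + 2 * (W.b₄ : ℚ) * x + (W.b₆ : ℚ) ≠ 0) ∧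
      (rd W.Δ.natAbs : ℝ) ≤ Y ∧ |(W.Δ : ℝ)| ≤ Y ^ κ ∧ Real.log |(W.c₄ : ℝ)| ≤ Y ^ κ ∧
      ∃ D₁ t : ℤ, W.Δ = D₁ * t ^ 2 ∧ |(D₁ : ℝ)| ≤ X) →
    (S.card : ℝ) ≤ C * Y ^ ε * (X ^ (1 / 2 : ℝ) * Y ^ (2 / 3 : ℝ) +
      X ^ (3 / 4 : ℝ) * Y ^ (1 / 2 : ℝ)) := by
  classical
  obtain ⟨C1, hC1, hform⟩ := h5_form κ (ε / 4) hκ (by positivity)
  obtain ⟨Cr, hCr, hcr⟩ := card_red
  obtain ⟨Cl, hCl1, hlog⟩ := h5_log (ε / 4) (by positivity) 32 (by norm_num)
  refine ⟨C1 * (128 * Cr * Cl ^ 3), by positivity, ?_⟩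
  intro X Y hX hXY S hS
  have hY : 1 ≤ Y := hX.trans hXY
  have hX0 : 0 < X := by linarith
  have hY0 : 0 < Y := by linarith
  have : Nonempty Cub := ⟨⟨0, 0, 0, 0⟩⟩
  have hpt : ∀ w ∈ S, ∃ (F : Cub) (z : ℤ × ℤ), F.Irr ∧ Red F ∧ F.disc ≠ 0 ∧
      |(F.disc : ℝ)| ≤ 16 * X ∧ F.hes z = w.1 ∧ F.cov z = -(2 * w.2) ∧ h5P Y κ F z := by
    intro w hw
    obtain ⟨W, hwW, w1, w2, w3, w4, w5, w6, w7⟩ := hS w hw
    rw [hwW]
    exact h5_point κ X Y hX hXY W w1 w2 w3 w4 w5 w6 w7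
  choose! Fw zw p1 p2 p3 p4 p5 p6 p7 using hpt
  have hcardS := Finset.card_eq_sum_card_image Fw S
  have hinj : ∀ F : Cub, Set.InjOn zw (S.filter (fun w => Fw w = F) : Finset (ℤ × ℤ)) := by
    intro F w hw w' hw' hz
    rw [Finset.mem_coe, Finset.mem_filter] at hw hw'
    have h1 := p5 w hw.1
    have h2 := p5 w' hw'.1
    have h3 := p6 w hw.1
    have h4 := p6 w' hw'.1
    rw [hw.2] at h1 h3
    rw [hw'.2, ← hz] at h2 h4
    refine Prod.ext (h1.symm.trans h2) ?_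
    have h5 := h3.symm.trans h4
    linarith
  have hper : ∀ F ∈ S.image Fw, ((S.filter (fun w => Fw w = F)).card : ℝ) ≤
      C1 * Y ^ (ε / 4) * (|(F.disc : ℝ)| ^ (-(1 / 2) : ℝ) * Y ^ (2 / 3 : ℝ) +
        |(F.disc : ℝ)| ^ (-(1 / 4) : ℝ) * Y ^ (1 / 2 : ℝ) + 1) := by
    intro F hF
    obtain ⟨w0, hw0, rfl⟩ := Finset.mem_image.mp hF
    rw [← Finset.card_image_of_injOn (hinj (Fw w0))]
    refine hform Y hY (Fw w0) (p1 w0 hw0) (p3 w0 hw0) (p2 w0 hw0) ?_ _ ?_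
    · exact (p4 w0 hw0).trans (by linarith)
    · intro z hz
      obtain ⟨w, hw, rfl⟩ := Finset.mem_image.mp hz
      rw [Finset.mem_filter] at hw
      rw [← hw.2]
      exact p7 w hw.1
  -- sums over the forms
  have hd : ∀ F ∈ S.image Fw, F.disc ≠ 0 ∧ |(F.disc : ℝ)| ≤ 16 * X := by
    intro F hF
    obtain ⟨w0, hw0, rfl⟩ := Finset.mem_image.mp hF
    exact ⟨p3 w0 hw0, p4 w0 hw0⟩
  set L := 1 + Real.log (32 * Y) with hL
  have hL1 : 1 ≤ L := by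
    have : 0 ≤ Real.log (32 * Y) := Real.log_nonneg (by linarith)
    linarith
  have hLY : L ≤ Cl * Y ^ (ε / 4) := hlog Y hY
  have hK : 0 ≤ Cr * L ^ 2 := by positivity
  have hcardM : ∀ M : ℝ, 1 ≤ M → M ≤ 2 * (16 * X) →
      (((S.image Fw).filter (fun F => |(F.disc : ℝ)| ≤ M)).card : ℝ) ≤ Cr * L ^ 2 * M := by
    intro M hM1 hM2
    refine (hcr M hM1 _ ?_).trans ?_
    · intro F hF
      rw [Finset.mem_filter] at hF
      obtain ⟨w0, hw0, rfl⟩ := Finset.mem_image.mp hF.1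
      exact ⟨h5_a_ne _ (p1 w0 hw0), p3 w0 hw0, p2 w0 hw0, hF.2⟩
    · have h1 : 0 ≤ Real.log M := Real.log_nonneg hM1
      have h2 : Real.log M ≤ Real.log (32 * Y) := Real.log_le_log (by linarith) (by linarith)
      have h3 : (1 + Real.log M) ^ 2 ≤ L ^ 2 := pow_le_pow_left₀ (by linarith) (by linarith) 2
      calc Cr * M * (1 + Real.log M) ^ 2 ≤ Cr * M * L ^ 2 :=
            mul_le_mul_of_nonneg_left h3 (by positivity)
        _ = _ := by ring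
  have hlb : 1 + Real.logb 2 (16 * X) ≤ 2 * L := by
    have h1 : Real.logb 2 (16 * X) = Real.log (16 * X) / Real.log 2 := rfl
    have h2 : (1 / 2 : ℝ) ≤ Real.log 2 := by
      have := Real.log_two_gt_d9
      linarith
    have h3 : 0 ≤ Real.log (16 * X) := Real.log_nonneg (by linarith)
    have h4 : Real.log (16 * X) ≤ Real.log (32 * Y) := Real.log_le_log (by linarith) (by linarith)
    have h5 : Real.log (16 * X) / Real.log 2 ≤ 2 * Real.log (16 * X) := by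
      rw [div_le_iff₀ (by linarith)]
      nlinarith
    rw [h1, hL]
    linarith
  have hsumα : ∀ α : ℝ, 0 ≤ α → α ≤ 1 → ∑ F ∈ S.image Fw, |(F.disc : ℝ)| ^ (-α) ≤
      4 * Cr * L ^ 3 * (16 * X) ^ (1 - α) := by
    intro α hα0 hα1
    refine (h5_sum α hα0 hα1 (Cr * L ^ 2) (16 * X) (by linarith) hK _ hd hcardM).trans ?_
    have h1 : 0 ≤ (16 * X) ^ (1 - α) := Real.rpow_nonneg (by linarith) _
    have h2 : 2 * (Cr * L ^ 2) * (1 + Real.logb 2 (16 * X)) ≤ 2 * (Cr * L ^ 2) * (2 * L) :=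
      mul_le_mul_of_nonneg_left hlb (by positivity)
    calc _ ≤ 2 * (Cr * L ^ 2) * (2 * L) * (16 * X) ^ (1 - α) :=
          mul_le_mul_of_nonneg_right h2 h1
      _ = _ := by ring
  have s1 := hsumα (1 / 2) (by norm_num) (by norm_num)
  have s2 := hsumα (1 / 4) (by norm_num) (by norm_num)
  have s3 := hsumα 0 le_rfl (by norm_num)
  have t1 : (16 * X) ^ (1 - (1 / 2) : ℝ) ≤ 16 * X ^ (1 / 2 : ℝ) := by
    rw [Real.mul_rpow (by norm_num) hX0.le]
    have e4 : (16 : ℝ) ^ (1 - (1 / 2) : ℝ) ≤ 16 := by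
      conv_rhs => rw [← Real.rpow_one 16]
      exact Real.rpow_le_rpow_of_exponent_le (by norm_num) (by norm_num)
    have e5 : (1 - (1 / 2) : ℝ) = 1 / 2 := by norm_num
    rw [e5] at e4 ⊢
    exact mul_le_mul_of_nonneg_right e4 (Real.rpow_nonneg hX0.le _)
  have t2 : (16 * X) ^ (1 - (1 / 4) : ℝ) ≤ 16 * X ^ (3 / 4 : ℝ) := by
    rw [Real.mul_rpow (by norm_num) hX0.le]
    have e4 : (16 : ℝ) ^ (1 - (1 / 4) : ℝ) ≤ 16 := by
      conv_rhs => rw [← Real.rpow_one 16]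
      exact Real.rpow_le_rpow_of_exponent_le (by norm_num) (by norm_num)
    have e5 : (1 - (1 / 4) : ℝ) = 3 / 4 := by norm_num
    rw [e5] at e4 ⊢
    exact mul_le_mul_of_nonneg_right e4 (Real.rpow_nonneg hX0.le _)
  have t3 : (16 * X) ^ (1 - 0 : ℝ) ≤ 16 * (X ^ (1 / 2 : ℝ) * Y ^ (2 / 3 : ℝ)) := by
    rw [sub_zero, Real.rpow_one]
    have h1 : X = X ^ (1 / 2 : ℝ) * X ^ (1 / 2 : ℝ) := by
      rw [← Real.rpow_add hX0]
      norm_num
    have h2 : X ^ (1 / 2 : ℝ) ≤ Y ^ (1 / 2 : ℝ) := Real.rpow_le_rpow hX0.le hXY (by norm_num)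
    have h3 : Y ^ (1 / 2 : ℝ) ≤ Y ^ (2 / 3 : ℝ) :=
      Real.rpow_le_rpow_of_exponent_le hY (by norm_num)
    have h4 : X ≤ X ^ (1 / 2 : ℝ) * Y ^ (2 / 3 : ℝ) := by
      calc X = X ^ (1 / 2 : ℝ) * X ^ (1 / 2 : ℝ) := h1
        _ ≤ _ := mul_le_mul_of_nonneg_left (h2.trans h3) (Real.rpow_nonneg hX0.le _)
    linarith
  have hcS : ∑ F ∈ S.image Fw, |(F.disc : ℝ)| ^ (-(0 : ℝ)) = ∑ F ∈ S.image Fw, (1 : ℝ) := by
    refine Finset.sum_congr rfl fun F _ => ?_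
    rw [neg_zero, Real.rpow_zero]
  rw [hcS] at s3
  have hL3 : L ^ 3 ≤ Cl ^ 3 * Y ^ (3 * (ε / 4)) := by
    have h1 : L ^ 3 ≤ (Cl * Y ^ (ε / 4)) ^ 3 := pow_le_pow_left₀ (by linarith) hLY 3
    have h2 : (Y ^ (ε / 4)) ^ 3 = Y ^ (3 * (ε / 4)) := by
      rw [← Real.rpow_natCast, ← Real.rpow_mul hY0.le]
      congr 1
      push_cast
      ring
    rw [mul_pow, h2] at h1
    exact h1
  set x1 := X ^ (1 / 2 : ℝ) with hx1
  set x2 := X ^ (3 / 4 : ℝ) with hx2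
  set y1 := Y ^ (2 / 3 : ℝ) with hy1
  set y2 := Y ^ (1 / 2 : ℝ) with hy2
  have hx1p : 0 ≤ x1 := Real.rpow_nonneg hX0.le _
  have hx2p : 0 ≤ x2 := Real.rpow_nonneg hX0.le _
  have hy1p : 0 ≤ y1 := Real.rpow_nonneg hY0.le _
  have hy2p : 0 ≤ y2 := Real.rpow_nonneg hY0.le _
  have hQ : 0 ≤ 4 * Cr * L ^ 3 := by positivity
  have u1 : ∑ F ∈ S.image Fw, |(F.disc : ℝ)| ^ (-(1 / 2) : ℝ) * y1 ≤
      4 * Cr * L ^ 3 * (16 * x1) * y1 := by
    rw [← Finset.sum_mul]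
    refine mul_le_mul_of_nonneg_right (s1.trans ?_) hy1p
    exact mul_le_mul_of_nonneg_left t1 hQ
  have u2 : ∑ F ∈ S.image Fw, |(F.disc : ℝ)| ^ (-(1 / 4) : ℝ) * y2 ≤
      4 * Cr * L ^ 3 * (16 * x2) * y2 := by
    rw [← Finset.sum_mul]
    refine mul_le_mul_of_nonneg_right (s2.trans ?_) hy2p
    exact mul_le_mul_of_nonneg_left t2 hQ
  have u3 : ∑ F ∈ S.image Fw, (1 : ℝ) ≤ 4 * Cr * L ^ 3 * (16 * (x1 * y1)) :=
    s3.trans (mul_le_mul_of_nonneg_left t3 hQ)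
  have hYe : 0 < Y ^ (ε / 4) := Real.rpow_pos_of_pos hY0 _
  have hprod : Y ^ (ε / 4) * Y ^ (3 * (ε / 4)) = Y ^ ε := by
    rw [← Real.rpow_add hY0]
    congr 1
    ring
  calc (S.card : ℝ) = ∑ F ∈ S.image Fw, ((S.filter (fun w => Fw w = F)).card : ℝ) := by
        rw [hcardS]
        push_cast
        rfl
    _ ≤ ∑ F ∈ S.image Fw, C1 * Y ^ (ε / 4) * (|(F.disc : ℝ)| ^ (-(1 / 2) : ℝ) * y1 +
        |(F.disc : ℝ)| ^ (-(1 / 4) : ℝ) * y2 + 1) := Finset.sum_le_sum hper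
    _ = C1 * Y ^ (ε / 4) * (∑ F ∈ S.image Fw, |(F.disc : ℝ)| ^ (-(1 / 2) : ℝ) * y1 +
        ∑ F ∈ S.image Fw, |(F.disc : ℝ)| ^ (-(1 / 4) : ℝ) * y2 + ∑ F ∈ S.image Fw, (1 : ℝ)) := by
        rw [← Finset.mul_sum, Finset.sum_add_distrib, Finset.sum_add_distrib]
    _ ≤ C1 * Y ^ (ε / 4) * (4 * Cr * L ^ 3 * (16 * x1) * y1 + 4 * Cr * L ^ 3 * (16 * x2) * y2 +
        4 * Cr * L ^ 3 * (16 * (x1 * y1))) := by
        refine mul_le_mul_of_nonneg_left ?_ (by positivity)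
        linarith
    _ = C1 * Y ^ (ε / 4) * (64 * Cr * L ^ 3 * (2 * (x1 * y1) + x2 * y2)) := by ring
    _ ≤ C1 * Y ^ (ε / 4) * (128 * Cr * L ^ 3 * (x1 * y1 + x2 * y2)) := by
        refine mul_le_mul_of_nonneg_left ?_ (by positivity)
        have h1 : 0 ≤ 64 * Cr * L ^ 3 * (x2 * y2) := by positivity
        linarith
    _ ≤ C1 * Y ^ (ε / 4) * (128 * Cr * (Cl ^ 3 * Y ^ (3 * (ε / 4))) * (x1 * y1 + x2 * y2)) := by
        refine mul_le_mul_of_nonneg_left ?_ (by positivity)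
        refine mul_le_mul_of_nonneg_right ?_ (by positivity)
        exact mul_le_mul_of_nonneg_left hL3 (by positivity)
    _ = C1 * (128 * Cr * Cl ^ 3) * (Y ^ (ε / 4) * Y ^ (3 * (ε / 4))) *
        (x1 * y1 + x2 * y2) := by ring
    _ = C1 * (128 * Cr * Cl ^ 3) * Y ^ ε * (x1 * y1 + x2 * y2) := by rw [hprod]

end Pool.Agent.Lib.SqPart
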