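import Pool.Agent.Lib.MP_d8bd92_nt.SqDefs

set_option autoImplicit false

/-!
The conditions on a point.
-/

namespace Pool.Agent.Lib.SqPart

/-- a primitive point of size at most `Z`, a simple zero of the form modulo all odd primes dividing the value, and
also modulo 2 if 8 divides the value -/
def Pt (F : Cub) (Z : ℝ) (z : ℤ × ℤ) : Prop :=
  IsCoprime z.1 z.2 ∧ 0 < F.val z ∧ |(z.1 : ℝ)| ≤ Z ∧ |(z.2 : ℝ)| ≤ Z ∧
  (∀ p : ℕ, p.Prime → p ≠ 2 → (p : ℤ) ∣ F.val z → ¬ (p : ℤ) ∣ F.hes z) ∧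
  (8 ∣ F.val z → ¬ 2 ∣ F.hes z)

end Pool.Agent.Lib.SqPart
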