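import Pool.Agent.Lib.MP_d8bd92_nt.SqDefs

set_option autoImplicit false

/-!
The lower bound: semistable curves with discriminant -11 t^2 (all with the 2-division field of 11a3).

F0 = (4,-4,0,1): F0.val (x,y) = 4x^3 - 4x^2 y + y^3, F0.disc = -176 = 16·(-11),
hes = 16x^2 - 36xy + 12y^2, cov = 304x^3 - 432x^2y + 288xy^2 - 108y^3.
one_curve. PROOF. Choose u, v with x v - y u = 1; v = 1 mod 88 (x v = 1 + y u), and by changing (u,v) to (u,v) + k(x,y) one may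
assume u = 0 mod 88 (x = 1 mod 88). F = F0.sub x u y v = (n,b,c,d) = (4,-4,0,1) mod 88, n = F0.val(x,y) = 4t, t odd as
n = 4 mod 8. W := (a1,a2,a3,a4,a6) = (0, b/4, 1, c t/4, (d t^2 - 1)/4): integers, as b = -4, c = 0, d = 1 mod 8, t odd.
b2 = b, b4 = c t/2, b6 = d t^2, so the 2-division polynomial is f(X) = 4X^3 + bX^2 + ctX + dt^2, f(t X/Y) = t^2 F(X,Y)/Y^3.
W.c₄ = b^2 - 24 b4 = b^2 - 12ct = b^2 - 3nc = F.hes(1,0) = F0.hes z; W.c₆ = -b^3 + 18bct - 216dt^2 = -F.cov(1,0)/2 =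
-F0.cov z/2; W.Δ = disc F·t^2/16 = -11 t^2 (1728 Δ = c₄^3 - c₆^2 and 4hes^3 - cov^2 = 27 disc val^2 (`ring`)).
No root: F0 has no rational zero (mod 3: F0.val(x,y) is not 0 mod 3 unless x = y = 0 mod 3: decide on ZMod 3, then descend for
a primitive zero), so F.val has none; f(r) = 0 with r = X t/Y.
Coprime: let p | c₄ and p | 11t^2. p = 11: z = (1,0) mod 11, hes z = 16 mod 11: no. p | t: p odd (t odd), p | n = F0.val z,
p | F0.hes z = b^2 - 3nc so p | b; then p^2 | disc F·... : disc F = b^2c^2-4nc^3-4b^3d-27n^2d^2+18nbcd is divisible by p (all terms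
contain n or b), so p | 176, p = 11, but t is not 0 mod 11 (4t = 4 mod 11). Contradiction.
inj. PROOF. With s = sqrt 33: cov + 12 s val = (304+48s)(x - (9-s)/8 y)^3, cov - 12 s val = (304-48s)(x - (9+s)/8 y)^3
(ring with s^2 = 33), both constants nonzero. If hes, cov agree for z, w then val^2 agree (syzygy), so val agree if both
positive; then the two cubes agree, so the two real numbers x - (9±s)/8 y agree (odd powers are injective on ℝ), so x, y.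
lower_bound. PROOF. For B >= 1 let G = set of z = (1+88i, 88j), 1 <= i, j <= B, gcd(1+88i, j) = 1, val z > 0. (val > 0: restrict to
j <= i: val = 4x^2(x-y) + y^3 >= 4x^2(x-y) > 0 since x > y.) The number of pairs (i,j), j <= i <= B with gcd(1+88i,j) > 1: such a pair has
an odd prime q | j, q | 1+88i, q <= B; for given q at most (B/q + 1)(B/q) pairs; sum over odd q >= 3:
<= B^2 sum 1/q^2 + B sum 1/q <= B^2/4 + B(1+log B). Better: the number of pairs j <= i is >= B^2/2, so |G| >= B^2/2 - B^2/4 - B(1+log B)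
>= B^2/8 for B >= B0. (Use sum over odd q >= 3 of 1/q^2 <= sum_k 1/(4k(k+1)) = 1/4.) For z in G: |val| <= 9·(89B)^3·..., t = val/4,
rd|Δ| <= 11 t <= C B^3. Given Y >= 11 take B = floor(c' Y^(1/3)); if B >= B0 take S = image of G under z ↦ (hes z, -cov z/2) (injective):
|S| >= B^2/8 >= c Y^(2/3); otherwise take z = (1,0) only (t = 1, Δ = -11, c₄ = 16). |Δ| = 11t^2 <= (11 t)^2 <= Y^2 <= Y^κ.
log|c₄| <= Y^κ: |c₄| <= C B^2 <= exp(Y) for c' small (or log|c₄| <= log(C Y) <= Y).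
-/

namespace Pool.Agent.Lib.SqPart

open Finset Pool.Agent.Lib.Szpiro

/-- the form `4X³-4X²Y+Y³` -/
def F0 : Cub := ⟨4, -4, 0, 1⟩

theorem l1a_val (z : ℤ × ℤ) : F0.val z = 4 * z.1 ^ 3 - 4 * z.1 ^ 2 * z.2 + z.2 ^ 3 := by
  simp only [Cub.val, F0]
  ring

theorem l1a_hes (z : ℤ × ℤ) : F0.hes z = 16 * z.1 ^ 2 - 36 * z.1 * z.2 + 12 * z.2 ^ 2 := by
  simp only [Cub.hes, F0]
  ring

theorem l1a_cov (z : ℤ × ℤ) : F0.cov z =
    304 * z.1 ^ 3 - 432 * z.1 ^ 2 * z.2 + 288 * z.1 * z.2 ^ 2 - 108 * z.2 ^ 3 := by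
  simp only [Cub.cov, F0]
  ring

theorem l1a_zmod3 : ∀ m k : ZMod 3, 4 * m ^ 3 - 4 * m ^ 2 * k + k ^ 3 = 0 → m = 0 ∧ k = 0 := by
  decide

theorem l1a_noroot (η : ℚ) : 4 * η ^ 3 - 4 * η ^ 2 + 1 ≠ 0 := by
  intro h
  have hden : (η.den : ℚ) ≠ 0 := by exact_mod_cast η.den_ne_zero
  have h1 : 4 * (η.num : ℚ) ^ 3 - 4 * (η.num : ℚ) ^ 2 * (η.den : ℚ) + (η.den : ℚ) ^ 3 = 0 := by
    have h2 : η = η.num / η.den := (Rat.num_div_den η).symm
    rw [h2] at h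
    field_simp at h
    linarith
  have h3 : 4 * η.num ^ 3 - 4 * η.num ^ 2 * (η.den : ℤ) + (η.den : ℤ) ^ 3 = 0 := by
    exact_mod_cast h1
  have h4 : 4 * ((η.num : ℤ) : ZMod 3) ^ 3 - 4 * ((η.num : ℤ) : ZMod 3) ^ 2 *
      (((η.den : ℕ) : ℤ) : ZMod 3) + (((η.den : ℕ) : ℤ) : ZMod 3) ^ 3 = 0 := by
    exact_mod_cast congrArg (fun t : ℤ => (t : ZMod 3)) h3
  obtain ⟨h5, h6⟩ := l1a_zmod3 _ _ h4
  rw [ZMod.intCast_zmod_eq_zero_iff_dvd] at h5 h6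
  have h7 : (3 : ℕ) ∣ η.num.natAbs := Int.natCast_dvd.1 (by exact_mod_cast h5)
  have h8 : (3 : ℕ) ∣ η.den := by exact_mod_cast h6
  have h9 := Nat.dvd_gcd h7 h8
  rw [η.reduced] at h9
  omega

/-- the identities for the form `F0.sub p q r s` -/
theorem l1a_coef (p q r s : ℤ) :
    (F0.sub p q r s).a = 4 * p ^ 3 - 4 * p ^ 2 * r + r ^ 3 ∧
    (F0.sub p q r s).b = 12 * p ^ 2 * q - 4 * (p ^ 2 * s + 2 * p * q * r) + 3 * r ^ 2 * s ∧
    (F0.sub p q r s).c = 12 * p * q ^ 2 - 4 * (2 * p * q * s + q ^ 2 * r) + 3 * r * s ^ 2 ∧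
    (F0.sub p q r s).d = 4 * q ^ 3 - 4 * q ^ 2 * s + s ^ 3 := by
  simp only [Cub.sub, F0]
  refine ⟨by ring, by ring, by ring, by ring⟩

theorem one_curve (z : ℤ × ℤ) (h : IsCoprime z.1 z.2) (h1 : z.1 ≡ 1 [ZMOD 88])
    (h2 : z.2 ≡ 0 [ZMOD 88]) : ∃ (W : WeierstrassCurve ℤ) (t : ℤ), F0.val z = 4 * t ∧
      W.c₄ = F0.hes z ∧ -(2 * W.c₆) = F0.cov z ∧ W.Δ = -11 * t ^ 2 ∧ W.Δ ≠ 0 ∧ IsCoprime W.c₄ W.Δ ∧
      ∀ x : ℚ, 4 * x ^ 3 + (W.b₂ : ℚ) * x ^ 2 + 2 * (W.b₄ : ℚ) * x + (W.b₆ : ℚ) ≠ 0 := by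
  obtain ⟨p, r⟩ := z
  simp only at h h1 h2
  -- the second vector
  obtain ⟨v0, u0', huv⟩ := h
  obtain ⟨P, hP⟩ : ∃ P : ℤ, p = 1 + 88 * P := by
    obtain ⟨P, hP⟩ := (Int.modEq_iff_dvd.1 h1.symm)
    exact ⟨P, by linarith⟩
  obtain ⟨R, hR⟩ : ∃ R : ℤ, r = 88 * R := by
    obtain ⟨R, hR⟩ := (Int.modEq_iff_dvd.1 h2.symm)
    exact ⟨R, by linarith⟩
  obtain ⟨q, s, Q, S, hQ, hS, hdet⟩ : ∃ q s Q S : ℤ, q = 88 * Q ∧ s = 1 + 88 * S ∧
      p * s - q * r = 1 := by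
    refine ⟨(-u0') * (1 - p), v0 - (-u0') * r, u0' * P, -v0 * P, ?_, ?_, ?_⟩
    · rw [hP]; ring
    · rw [hP, hR] at huv
      rw [hR]
      linear_combination huv
    · linear_combination huv
  -- the coefficients of the transformed form
  obtain ⟨A, hA⟩ : ∃ A : ℤ, A = 4 * p ^ 3 - 4 * p ^ 2 * r + r ^ 3 := ⟨_, rfl⟩
  obtain ⟨B, hB⟩ : ∃ B : ℤ, B = 12 * p ^ 2 * q - 4 * (p ^ 2 * s + 2 * p * q * r) +
    3 * r ^ 2 * s := ⟨_, rfl⟩
  obtain ⟨C, hC⟩ : ∃ C : ℤ, C = 12 * p * q ^ 2 - 4 * (2 * p * q * s + q ^ 2 * r) +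
    3 * r * s ^ 2 := ⟨_, rfl⟩
  obtain ⟨D, hD⟩ : ∃ D : ℤ, D = 4 * q ^ 3 - 4 * q ^ 2 * s + s ^ 3 := ⟨_, rfl⟩
  have I1 : B ^ 2 - 3 * A * C = 16 * p ^ 2 - 36 * p * r + 12 * r ^ 2 := by
    have : B ^ 2 - 3 * A * C = (16 * p ^ 2 - 36 * p * r + 12 * r ^ 2) * (p * s - q * r) ^ 2 := by
      rw [hA, hB, hC]; ring
    rw [this, hdet]; ring
  have I2 : 2 * B ^ 3 - 9 * A * B * C + 27 * A ^ 2 * D =
      304 * p ^ 3 - 432 * p ^ 2 * r + 288 * p * r ^ 2 - 108 * r ^ 3 := by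
    have : 2 * B ^ 3 - 9 * A * B * C + 27 * A ^ 2 * D =
        (304 * p ^ 3 - 432 * p ^ 2 * r + 288 * p * r ^ 2 - 108 * r ^ 3) *
        (p * s - q * r) ^ 3 := by
      rw [hA, hB, hC, hD]; ring
    rw [this, hdet]; ring
  have I3 : B ^ 2 * C ^ 2 - 4 * A * C ^ 3 - 4 * B ^ 3 * D - 27 * A ^ 2 * D ^ 2 +
      18 * A * B * C * D = -176 := by
    have : B ^ 2 * C ^ 2 - 4 * A * C ^ 3 - 4 * B ^ 3 * D - 27 * A ^ 2 * D ^ 2 +
      18 * A * B * C * D = -176 * (p * s - q * r) ^ 6 := by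
      rw [hA, hB, hC, hD]; ring
    rw [this, hdet]; ring
  -- divisibility
  obtain ⟨t, τ, ht, htτ⟩ : ∃ t τ : ℤ, A = 4 * t ∧ t = 1 + 88 * τ := by
    refine ⟨p ^ 2 * (p - r) + 170368 * R ^ 3, (2 * P + 88 * P ^ 2) + (P - R) +
      88 * (2 * P + 88 * P ^ 2) * (P - R) + 1936 * R ^ 3, ?_, ?_⟩
    · rw [hA, hR]; ring
    · rw [hP, hR]; ring
  obtain ⟨a2, ha2⟩ : ∃ a2 : ℤ, 4 * a2 = B :=
    ⟨3 * p ^ 2 * q - (p ^ 2 * s + 2 * p * q * r) + 5808 * R ^ 2 * s, by rw [hB, hR]; ring⟩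
  obtain ⟨a4, ha4⟩ : ∃ a4 : ℤ, 4 * a4 = C * t :=
    ⟨(3 * p * q ^ 2 - (2 * p * q * s + q ^ 2 * r) + 66 * R * s ^ 2) * t, by rw [hC, hR]; ring⟩
  obtain ⟨δ, hδ⟩ : ∃ δ : ℤ, D = 1 + 4 * δ :=
    ⟨q ^ 3 - q ^ 2 * s + (66 * S + 5808 * S ^ 2 + 170368 * S ^ 3), by rw [hD, hS]; ring⟩
  obtain ⟨a6, ha6⟩ : ∃ a6 : ℤ, 1 + 4 * a6 = D * t ^ 2 :=
    ⟨δ + (44 * τ + 1936 * τ ^ 2) + 4 * δ * (44 * τ + 1936 * τ ^ 2), by rw [hδ, htτ]; ring⟩
  have ht0 : t ≠ 0 := by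
    intro h0
    rw [h0] at htτ
    omega
  have hDelta : (⟨0, a2, 1, a4, a6⟩ : WeierstrassCurve ℤ).Δ = -11 * t ^ 2 := by
    have e1 : 16 * (⟨0, a2, 1, a4, a6⟩ : WeierstrassCurve ℤ).Δ =
        -4 * (4 * a2) ^ 3 * (1 + 4 * a6) + (4 * a2) ^ 2 * (4 * a4) ^ 2 - 16 * (4 * a4) ^ 3 -
        432 * (1 + 4 * a6) ^ 2 + 72 * (4 * a2) * (4 * a4) * (1 + 4 * a6) := by
      simp only [WeierstrassCurve.Δ, WeierstrassCurve.b₂, WeierstrassCurve.b₄,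
        WeierstrassCurve.b₆, WeierstrassCurve.b₈]
      ring
    rw [ha2, ha4, ha6] at e1
    have e2 : -4 * B ^ 3 * (D * t ^ 2) + B ^ 2 * (C * t) ^ 2 - 16 * (C * t) ^ 3 -
        432 * (D * t ^ 2) ^ 2 + 72 * B * (C * t) * (D * t ^ 2) = -176 * t ^ 2 := by
      rw [← I3, ht]; ring
    rw [e2] at e1
    linarith
  have hc4 : (⟨0, a2, 1, a4, a6⟩ : WeierstrassCurve ℤ).c₄ =
      16 * p ^ 2 - 36 * p * r + 12 * r ^ 2 := by
    have e1 : (⟨0, a2, 1, a4, a6⟩ : WeierstrassCurve ℤ).c₄ = (4 * a2) ^ 2 - 12 * (4 * a4) := by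
      simp only [WeierstrassCurve.c₄, WeierstrassCurve.b₂, WeierstrassCurve.b₄]
      ring
    rw [e1, ha2, ha4, ← I1, ht]
    ring
  have hc6 : -(2 * (⟨0, a2, 1, a4, a6⟩ : WeierstrassCurve ℤ).c₆) =
      304 * p ^ 3 - 432 * p ^ 2 * r + 288 * p * r ^ 2 - 108 * r ^ 3 := by
    have e1 : -(2 * (⟨0, a2, 1, a4, a6⟩ : WeierstrassCurve ℤ).c₆) =
        2 * (4 * a2) ^ 3 - 36 * (4 * a2) * (4 * a4) + 432 * (1 + 4 * a6) := by
      simp only [WeierstrassCurve.c₆, WeierstrassCurve.b₂, WeierstrassCurve.b₄,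
        WeierstrassCurve.b₆]
      ring
    rw [e1, ha2, ha4, ha6, ← I2, ht]
    ring
  have hDne : (⟨0, a2, 1, a4, a6⟩ : WeierstrassCurve ℤ).Δ ≠ 0 := by
    rw [hDelta]
    have := pow_ne_zero 2 ht0
    omega
  refine ⟨⟨0, a2, 1, a4, a6⟩, t, ?_, ?_, ?_, hDelta, hDne, ?_, ?_⟩
  · rw [l1a_val, ← ht, hA]
  · rw [hc4, l1a_hes]
  · rw [hc6, l1a_cov]
  · -- coprimality
    rw [hDelta, hc4]
    have k1 : IsCoprime (16 * p ^ 2 - 36 * p * r + 12 * r ^ 2) (-11 : ℤ) := by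
      -- modulo 11 the left side is 5
      refine ⟨9, (9 * (16 * p ^ 2 - 36 * p * r + 12 * r ^ 2) - 1) / 11, ?_⟩
      have hm : (11 : ℤ) ∣ 9 * (16 * p ^ 2 - 36 * p * r + 12 * r ^ 2) - 1 := by
        refine ⟨13 + 9 * (16 * (16 * P + 704 * P ^ 2) - 288 * (1 + 88 * P) * R +
          8448 * R ^ 2), ?_⟩
        rw [hP, hR]; ring
      have := Int.ediv_mul_cancel hm
      linarith
    have k2 : IsCoprime (16 * p ^ 2 - 36 * p * r + 12 * r ^ 2) t := by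
      rw [Int.isCoprime_iff_gcd_eq_one]
      by_contra hne
      obtain ⟨ℓ, hℓ, hdvd⟩ := Nat.exists_prime_and_dvd hne
      have hℓZ : Prime (ℓ : ℤ) := Nat.prime_iff_prime_int.1 hℓ
      have d1 : (ℓ : ℤ) ∣ 16 * p ^ 2 - 36 * p * r + 12 * r ^ 2 :=
        (Int.natCast_dvd_natCast.2 hdvd).trans (Int.gcd_dvd_left _ _)
      have d2 : (ℓ : ℤ) ∣ t :=
        (Int.natCast_dvd_natCast.2 hdvd).trans (Int.gcd_dvd_right _ _)
      have dA : (ℓ : ℤ) ∣ A := by rw [ht]; exact d2.mul_left _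
      have dB : (ℓ : ℤ) ∣ B := by
        rw [← I1] at d1
        have : (ℓ : ℤ) ∣ B ^ 2 := by
          have h5 : B ^ 2 = (B ^ 2 - 3 * A * C) + A * (3 * C) := by ring
          rw [h5]
          exact dvd_add d1 (dA.mul_right _)
        exact hℓZ.dvd_of_dvd_pow this
      have d176 : (ℓ : ℤ) ∣ 176 := by
        have h5 : (176 : ℤ) = -(B * (B * C ^ 2 - 4 * B ^ 2 * D + 18 * A * C * D) +
            A * (-4 * C ^ 3 - 27 * A * D ^ 2)) := by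
          linear_combination I3
        rw [h5]
        exact (dvd_add (dB.mul_right _) (dA.mul_right _)).neg_right
      have d176' : ℓ ∣ 176 := by exact_mod_cast d176
      have h176 : (176 : ℕ) = 2 ^ 4 * 11 := by norm_num
      rw [h176, hℓ.dvd_mul] at d176'
      rcases d176' with h5 | h5
      · have h6 := hℓ.dvd_of_dvd_pow h5
        rw [Nat.prime_dvd_prime_iff_eq hℓ Nat.prime_two] at h6
        rw [h6] at d2
        rw [htτ] at d2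
        omega
      · rw [Nat.prime_dvd_prime_iff_eq hℓ (by norm_num)] at h5
        rw [h5] at d2
        rw [htτ] at d2
        omega
    exact k1.mul_right (k2.pow_right)
  · -- no rational root
    intro x hx
    have hb2 : (((⟨0, a2, 1, a4, a6⟩ : WeierstrassCurve ℤ).b₂ : ℤ) : ℚ) = B := by
      rw [← ha2]
      simp only [WeierstrassCurve.b₂]
      push_cast
      ring
    have hb4 : 2 * (((⟨0, a2, 1, a4, a6⟩ : WeierstrassCurve ℤ).b₄ : ℤ) : ℚ) = C * t := by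
      have : (C : ℚ) * t = ((C * t : ℤ) : ℚ) := by push_cast; ring
      rw [this, ← ha4]
      simp only [WeierstrassCurve.b₄]
      push_cast
      ring
    have hb6 : (((⟨0, a2, 1, a4, a6⟩ : WeierstrassCurve ℤ).b₆ : ℤ) : ℚ) = D * t ^ 2 := by
      have : (D : ℚ) * t ^ 2 = ((D * t ^ 2 : ℤ) : ℚ) := by push_cast; ring
      rw [this, ← ha6]
      simp only [WeierstrassCurve.b₆]
      push_cast
      ring
    rw [hb2, hb4, hb6] at hx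
    have htq : (t : ℚ) ≠ 0 := by exact_mod_cast ht0
    have hρ : (A : ℚ) * (x / t) ^ 3 + B * (x / t) ^ 2 + C * (x / t) + D = 0 := by
      have hAq : (A : ℚ) = 4 * t := by exact_mod_cast ht
      rw [hAq]
      field_simp
      linear_combination hx
    obtain ⟨ρ, hρdef⟩ : ∃ ρ : ℚ, ρ = x / t := ⟨_, rfl⟩
    rw [← hρdef] at hρ
    have hXY : 4 * ((p : ℚ) * ρ + q) ^ 3 - 4 * ((p : ℚ) * ρ + q) ^ 2 * ((r : ℚ) * ρ + s) +
        ((r : ℚ) * ρ + s) ^ 3 = 0 := by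
      have hAq : (A : ℚ) = 4 * p ^ 3 - 4 * p ^ 2 * r + r ^ 3 := by exact_mod_cast hA
      have hBq : (B : ℚ) = 12 * p ^ 2 * q - 4 * (p ^ 2 * s + 2 * p * q * r) +
        3 * r ^ 2 * s := by exact_mod_cast hB
      have hCq : (C : ℚ) = 12 * p * q ^ 2 - 4 * (2 * p * q * s + q ^ 2 * r) +
        3 * r * s ^ 2 := by exact_mod_cast hC
      have hDq : (D : ℚ) = 4 * q ^ 3 - 4 * q ^ 2 * s + s ^ 3 := by exact_mod_cast hD
      rw [hAq, hBq, hCq, hDq] at hρ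
      linear_combination hρ
    have hdetq : (p : ℚ) * s - q * r = 1 := by exact_mod_cast hdet
    by_cases hY : (r : ℚ) * ρ + s = 0
    · rw [hY] at hXY
      have hX : (p : ℚ) * ρ + q = 0 := by
        have : ((p : ℚ) * ρ + q) ^ 3 = 0 := by linarith
        exact pow_eq_zero_iff (by norm_num) |>.1 this
      have : (1 : ℚ) = 0 := by
        linear_combination -hdetq + p * hY - r * hX
      exact one_ne_zero this
    · obtain ⟨X, hX⟩ : ∃ X : ℚ, X = (p : ℚ) * ρ + q := ⟨_, rfl⟩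
      obtain ⟨Z, hZ⟩ : ∃ Z : ℚ, Z = (r : ℚ) * ρ + s := ⟨_, rfl⟩
      rw [← hX, ← hZ] at hXY
      rw [← hZ] at hY
      apply l1a_noroot (X / Z)
      have e1 : 4 * (X / Z) ^ 3 - 4 * (X / Z) ^ 2 + 1 =
          (4 * X ^ 3 - 4 * X ^ 2 * Z + Z ^ 3) / Z ^ 3 := by
        field_simp
      rw [e1, hXY, zero_div]

theorem l1a_id (x y s : ℝ) (hs : s ^ 2 = 33) :
    (304 * x ^ 3 - 432 * x ^ 2 * y + 288 * x * y ^ 2 - 108 * y ^ 3) +
      12 * s * (4 * x ^ 3 - 4 * x ^ 2 * y + y ^ 3) =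
    (304 + 48 * s) * (x - (9 - s) / 8 * y) ^ 3 := by
  linear_combination (-(18 * x ^ 2 * y + 3 / 64 * (48 * s - 560) * x * y ^ 2 -
    1 / 512 * (-48 * s ^ 2 + 992 * s - 5040) * y ^ 3)) * hs

theorem l1a_lin (x y x' y' s : ℝ) (hs : s ^ 2 = 33)
    (hc : 304 * x ^ 3 - 432 * x ^ 2 * y + 288 * x * y ^ 2 - 108 * y ^ 3 =
      304 * x' ^ 3 - 432 * x' ^ 2 * y' + 288 * x' * y' ^ 2 - 108 * y' ^ 3)
    (hv : 4 * x ^ 3 - 4 * x ^ 2 * y + y ^ 3 = 4 * x' ^ 3 - 4 * x' ^ 2 * y' + y' ^ 3) :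
    x - (9 - s) / 8 * y = x' - (9 - s) / 8 * y' := by
  have e1 := l1a_id x y s hs
  have e2 := l1a_id x' y' s hs
  rw [hc, hv, e2] at e1
  have hne : (304 + 48 * s) ≠ 0 := by
    intro h0
    have h3 : s = -(19 / 3) := by linarith
    rw [h3] at hs
    norm_num at hs
  have e3 := mul_left_cancel₀ hne e1
  have hodd : Odd 3 := by decide
  exact (hodd.strictMono_pow.injective e3).symm

theorem inj_F0 (z w : ℤ × ℤ) (hz : 0 < F0.val z) (hw : 0 < F0.val w) (h : F0.hes z = F0.hes w)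
    (h' : F0.cov z = F0.cov w) : z = w := by
  have syz : ∀ z : ℤ × ℤ, 4 * F0.hes z ^ 3 - F0.cov z ^ 2 = -4752 * F0.val z ^ 2 := by
    intro z
    rw [l1a_val, l1a_hes, l1a_cov]
    ring
  have hv2 : F0.val z ^ 2 = F0.val w ^ 2 := by
    have a1 := syz z
    have a2 := syz w
    rw [h, h'] at a1
    linarith
  have hv : F0.val z = F0.val w := by
    rcases sq_eq_sq_iff_eq_or_eq_neg.1 hv2 with h3 | h3
    · exact h3
    · linarith
  rw [l1a_val, l1a_val] at hv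
  rw [l1a_cov, l1a_cov] at h'
  have hvR : (4 * (z.1 : ℝ) ^ 3 - 4 * (z.1 : ℝ) ^ 2 * z.2 + (z.2 : ℝ) ^ 3) =
      4 * (w.1 : ℝ) ^ 3 - 4 * (w.1 : ℝ) ^ 2 * w.2 + (w.2 : ℝ) ^ 3 := by exact_mod_cast hv
  have hcR : 304 * (z.1 : ℝ) ^ 3 - 432 * (z.1 : ℝ) ^ 2 * z.2 + 288 * z.1 * (z.2 : ℝ) ^ 2 -
      108 * (z.2 : ℝ) ^ 3 = 304 * (w.1 : ℝ) ^ 3 - 432 * (w.1 : ℝ) ^ 2 * w.2 +
      288 * w.1 * (w.2 : ℝ) ^ 2 - 108 * (w.2 : ℝ) ^ 3 := by exact_mod_cast h'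
  have hs : Real.sqrt 33 ^ 2 = 33 := Real.sq_sqrt (by norm_num)
  have hs' : (-Real.sqrt 33) ^ 2 = 33 := by rw [neg_sq]; exact hs
  have l1 := l1a_lin _ _ _ _ _ hs hcR hvR
  have l2 := l1a_lin _ _ _ _ _ hs' hcR hvR
  have hpos : 0 < Real.sqrt 33 := Real.sqrt_pos.2 (by norm_num)
  have hy : (z.2 : ℝ) = w.2 := by
    have h5 : Real.sqrt 33 * (z.2 : ℝ) = Real.sqrt 33 * w.2 := by linarith
    exact mul_left_cancel₀ hpos.ne' h5
  have hx : (z.1 : ℝ) = w.1 := by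
    rw [hy] at l1
    linarith
  exact Prod.ext (by exact_mod_cast hx) (by exact_mod_cast hy)

/-- the curve of a good point -/
theorem l1b_curve (z : ℤ × ℤ) (h : IsCoprime z.1 z.2) (h1 : z.1 ≡ 1 [ZMOD 88])
    (h2 : z.2 ≡ 0 [ZMOD 88]) (h3 : 0 ≤ z.2) (h4 : z.2 < z.1) (κ Y : ℝ) (hκ : 2 ≤ κ) (hY : 11 ≤ Y)
    (hzY : 11 * (z.1 : ℝ) ^ 3 ≤ Y) : ∃ W : WeierstrassCurve ℤ,
      (F0.hes z, -(F0.cov z) / 2) = (W.c₄, W.c₆) ∧
      W.Δ ≠ 0 ∧ IsCoprime W.c₄ W.Δ ∧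
      (∀ x : ℚ, 4 * x ^ 3 + (W.b₂ : ℚ) * x ^ 2 + 2 * (W.b₄ : ℚ) * x + (W.b₆ : ℚ) ≠ 0) ∧
      (rd W.Δ.natAbs : ℝ) ≤ Y ∧ |(W.Δ : ℝ)| ≤ Y ^ κ ∧ Real.log |(W.c₄ : ℝ)| ≤ Y ^ κ ∧
      ∃ D₁ t : ℤ, W.Δ = D₁ * t ^ 2 ∧ |(D₁ : ℝ)| ≤ 11 := by
  obtain ⟨W, t, ht, hc4, hc6, hΔ, hΔ0, hcop, hroot⟩ := one_curve z h h1 h2
  have hval : F0.val z = 4 * z.1 ^ 3 - 4 * z.1 ^ 2 * z.2 + z.2 ^ 3 := by
    simp only [Cub.val, F0]
    ring
  have hx0 : 0 < z.1 := by omega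
  have ht1 : t ≤ z.1 ^ 3 := by
    have e1 : z.2 ^ 3 ≤ 4 * z.1 ^ 2 * z.2 := by
      have : z.2 ^ 2 ≤ z.1 ^ 2 := pow_le_pow_left₀ h3 h4.le 2
      nlinarith [mul_nonneg h3 (sq_nonneg z.1)]
    have e2 : 4 * t ≤ 4 * z.1 ^ 3 := by
      rw [← ht, hval]
      linarith
    linarith
  have ht0 : 0 < t := by
    have e1 : 0 < 4 * z.1 ^ 2 * (z.1 - z.2) := by
      have : 0 < z.1 - z.2 := by omega
      positivity
    have e2 : 0 ≤ z.2 ^ 3 := by positivity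
    have e3 : 4 * t = 4 * z.1 ^ 2 * (z.1 - z.2) + z.2 ^ 3 := by
      rw [← ht, hval]
      ring
    linarith
  have htR : 11 * (t : ℝ) ≤ Y := by
    have : (t : ℝ) ≤ (z.1 : ℝ) ^ 3 := by exact_mod_cast ht1
    linarith
  have htR0 : (0 : ℝ) < t := by exact_mod_cast ht0
  have htR1 : (1 : ℝ) ≤ t := by exact_mod_cast ht0
  have hYκ : Y ^ 2 ≤ Y ^ κ := by
    rw [← Real.rpow_natCast]
    exact Real.rpow_le_rpow_of_exponent_le (by linarith) (by exact_mod_cast hκ)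
  refine ⟨W, ?_, hΔ0, hcop, hroot, ?_, ?_, ?_, -11, t, hΔ, ?_⟩
  · rw [hc4, ← hc6]
    congr 1
    omega
  · have e1 : W.Δ.natAbs = 11 * t.natAbs ^ 2 := by
      rw [hΔ, Int.natAbs_mul, Int.natAbs_pow]
      rfl
    have htn : t.natAbs ≠ 0 := by
      rw [Int.natAbs_ne_zero]
      exact ht0.ne'
    have e2 : rd W.Δ.natAbs ≤ 11 * t.natAbs := by
      rw [e1]
      refine (rd_mono' (n := 11 * t.natAbs) (by positivity) ?_).trans (rd_le (by positivity))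
      intro p hp hd
      rcases (hp.dvd_mul).1 hd with h5 | h5
      · exact h5.mul_right _
      · exact (hp.dvd_of_dvd_pow h5).mul_left _
    have e3 : ((11 * t.natAbs : ℕ) : ℝ) = 11 * (t : ℝ) := by
      push_cast
      rw [Nat.cast_natAbs]
      push_cast
      rw [abs_of_pos htR0]
    calc (rd W.Δ.natAbs : ℝ) ≤ ((11 * t.natAbs : ℕ) : ℝ) := by exact_mod_cast e2
      _ = 11 * (t : ℝ) := e3
      _ ≤ Y := htR
  · refine le_trans ?_ hYκ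
    have e1 : ((W.Δ : ℤ) : ℝ) = -11 * (t : ℝ) ^ 2 := by
      rw [hΔ]
      push_cast
      ring
    rw [e1, abs_mul, abs_neg, abs_of_pos (by norm_num : (0 : ℝ) < 11), abs_of_pos (by positivity)]
    calc 11 * (t : ℝ) ^ 2 ≤ (11 * (t : ℝ)) ^ 2 := by nlinarith [sq_nonneg (t : ℝ)]
      _ ≤ Y ^ 2 := pow_le_pow_left₀ (by positivity) htR 2
  · refine le_trans ?_ hYκ
    have e0 : F0.hes z = 16 * z.1 ^ 2 - 36 * z.1 * z.2 + 12 * z.2 ^ 2 := by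
      simp only [Cub.hes, F0]
      ring
    have e1 : |F0.hes z| ≤ 64 * z.1 ^ 2 := by
      rw [e0, abs_le]
      constructor <;> nlinarith [mul_nonneg h3 hx0.le, mul_nonneg h3 h3]
    have e2 : |((W.c₄ : ℤ) : ℝ)| ≤ 64 * (z.1 : ℝ) ^ 2 := by
      rw [hc4]
      exact_mod_cast e1
    have e3 : (1 : ℝ) ≤ z.1 := by exact_mod_cast hx0
    have e4 : (z.1 : ℝ) ^ 2 ≤ (z.1 : ℝ) ^ 3 := pow_le_pow_right₀ e3 (by norm_num)
    calc Real.log |(W.c₄ : ℝ)| ≤ |(W.c₄ : ℝ)| := Real.log_le_self (abs_nonneg _)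
      _ ≤ 64 * (z.1 : ℝ) ^ 2 := e2
      _ ≤ Y ^ 2 := by nlinarith
  · norm_num

/-- injectivity of the map to curves -/
theorem l1b_inj (z w : ℤ × ℤ) (h : IsCoprime z.1 z.2) (h1 : z.1 ≡ 1 [ZMOD 88])
    (h2 : z.2 ≡ 0 [ZMOD 88]) (h3 : 0 ≤ z.2) (h4 : z.2 < z.1)
    (g : IsCoprime w.1 w.2) (g1 : w.1 ≡ 1 [ZMOD 88])
    (g2 : w.2 ≡ 0 [ZMOD 88]) (g3 : 0 ≤ w.2) (g4 : w.2 < w.1)
    (he : ((F0.hes z, -(F0.cov z) / 2) : ℤ × ℤ) = (F0.hes w, -(F0.cov w) / 2)) : z = w := by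
  have pos : ∀ z : ℤ × ℤ, 0 ≤ z.2 → z.2 < z.1 → 0 < F0.val z := by
    intro z h3 h4
    have hx0 : 0 < z.1 := by omega
    have e1 : 0 < 4 * z.1 ^ 2 * (z.1 - z.2) := by
      have : 0 < z.1 - z.2 := by omega
      positivity
    have e2 : 0 ≤ z.2 ^ 3 := by positivity
    have e3 : F0.val z = 4 * z.1 ^ 2 * (z.1 - z.2) + z.2 ^ 3 := by
      simp only [Cub.val, F0]
      ring
    linarith
  obtain ⟨W, t, -, -, hc6, -⟩ := one_curve z h h1 h2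
  obtain ⟨W', t', -, -, hc6', -⟩ := one_curve w g g1 g2
  have e1 := (Prod.mk.inj he).1
  have e2 := (Prod.mk.inj he).2
  exact inj_F0 z w (pos z h3 h4) (pos w g3 g4) e1 (by omega)

/-- number of members of a progression -/
theorem l1b_prog (B q : ℕ) (hq : 1 ≤ q) :
    ((Icc 1 B).filter (fun i => q ∣ 1 + 88 * i)).card ≤ B / q + 1 := by
  rw [← Finset.card_range (B / q + 1)]
  apply Finset.card_le_card_of_injOn (fun i => i / q)
  · intro i hi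
    rw [Finset.mem_coe, Finset.mem_filter, Finset.mem_Icc] at hi
    rw [Finset.mem_coe, Finset.mem_range, Nat.lt_succ_iff]
    exact Nat.div_le_div_right hi.1.2
  · intro i hi j hj hij
    rw [Finset.mem_coe, Finset.mem_filter, Finset.mem_Icc] at hi hj
    simp only at hij
    have hcop : Nat.Coprime q 88 := by
      have : Nat.Coprime (1 + 88 * i) 88 := by
        rw [Nat.coprime_add_mul_left_left]
        exact Nat.coprime_one_left _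
      exact Nat.Coprime.coprime_dvd_left hi.2 this
    have h1 : (q : ℤ) ∣ 88 * ((i : ℤ) - j) := by
      have a1 : (q : ℤ) ∣ ((1 + 88 * i : ℕ) : ℤ) := by exact_mod_cast hi.2
      have a2 : (q : ℤ) ∣ ((1 + 88 * j : ℕ) : ℤ) := by exact_mod_cast hj.2
      have a3 := dvd_sub a1 a2
      have a4 : ((1 + 88 * i : ℕ) : ℤ) - ((1 + 88 * j : ℕ) : ℤ) = 88 * ((i : ℤ) - j) := by
        push_cast
        ring
      rwa [a4] at a3
    have h2 : (q : ℤ) ∣ (i : ℤ) - j := by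
      refine IsCoprime.dvd_of_dvd_mul_left ?_ h1
      exact_mod_cast Nat.isCoprime_iff_coprime.2 hcop
    have h3 : i % q = j % q := by
      have : (i : ℤ) ≡ j [ZMOD q] := by
        rw [Int.modEq_iff_dvd]
        have := (dvd_neg (a := (q : ℤ))).2 h2
        rwa [neg_sub] at this
      exact (Int.natCast_modEq_iff.1 this)
    rw [← Nat.div_add_mod i q, ← Nat.div_add_mod j q, hij, h3]

theorem l1b_mult (B q : ℕ) : ((Icc 1 B).filter (fun j => q ∣ j)).card = B / q := by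
  have := Nat.Ioc_filter_dvd_card_eq_div B q
  rw [← this]
  rfl

theorem l1b_sum2 (n : ℕ) : ∑ q ∈ Icc 3 n, (1 / (q : ℝ) ^ 2) ≤ 2 / 5 := by
  have key : ∀ n : ℕ, 2 ≤ n → ∑ q ∈ Icc 3 n, (1 / (q : ℝ) ^ 2) ≤ 2 / 5 - 1 / ((n : ℝ) + 1 / 2) := by
    intro n hn
    induction n, hn using Nat.le_induction with
    | base => norm_num
    | succ m hm ih =>
      rw [← Finset.insert_Icc_right_eq_Icc_add_one (by omega), Finset.sum_insert (by simp)]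
      have h1 : 1 / (((m + 1 : ℕ) : ℝ)) ^ 2 ≤ 1 / ((m : ℝ) + 1 / 2) - 1 / (((m + 1 : ℕ) : ℝ) + 1 / 2) := by
        push_cast
        have hm0 : (0 : ℝ) ≤ m := Nat.cast_nonneg _
        rw [div_sub_div _ _ (by positivity) (by positivity), div_le_div_iff₀ (by positivity)
          (by positivity)]
        nlinarith
      linarith
  rcases le_or_gt 2 n with h | h
  · have h1 := key n h
    have h2 : 0 ≤ 1 / ((n : ℝ) + 1 / 2) := by positivity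
    linarith
  · rw [Finset.Icc_eq_empty (by omega)]
    norm_num

theorem l1b_sum1 (n : ℕ) (hn : 1 ≤ n) : ∑ q ∈ Icc 3 n, (1 / (q : ℝ)) ≤ 1 + Real.log n := by
  have h1 := harmonic_le_one_add_log n
  have h2 : ((harmonic n : ℚ) : ℝ) = ∑ q ∈ Icc 1 n, (1 / (q : ℝ)) := by
    rw [harmonic_eq_sum_Icc]
    push_cast
    simp [one_div]
  rw [h2] at h1
  refine le_trans ?_ h1
  apply Finset.sum_le_sum_of_subset_of_nonneg
  · exact Finset.Icc_subset_Icc (by norm_num) le_rfl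
  · intro q _ _
    positivity

/-- the pairs -/
noncomputable def l1bG (B : ℕ) : Finset (ℕ × ℕ) :=
  ((Icc 1 B) ×ˢ (Icc 1 B)).filter (fun p => p.2 ≤ p.1 ∧ Nat.Coprime (1 + 88 * p.1) p.2)

theorem l1b_tri (B : ℕ) :
    (B : ℝ) ^ 2 / 2 ≤ ((((Icc 1 B) ×ˢ (Icc 1 B)).filter (fun p => p.2 ≤ p.1)).card : ℝ) := by
  have h1 : ((Icc 1 B) ×ˢ (Icc 1 B)).card ≤
      2 * (((Icc 1 B) ×ˢ (Icc 1 B)).filter (fun p => p.2 ≤ p.1)).card := by
    have h2 : (((Icc 1 B) ×ˢ (Icc 1 B)).filter (fun p => ¬ p.2 ≤ p.1)).card ≤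
        (((Icc 1 B) ×ˢ (Icc 1 B)).filter (fun p => p.2 ≤ p.1)).card := by
      apply Finset.card_le_card_of_injOn (fun p => (p.2, p.1))
      · rintro ⟨a, b⟩ hp
        simp only [Finset.coe_filter, Finset.mem_product, Set.mem_setOf_eq] at hp ⊢
        exact ⟨⟨hp.1.2, hp.1.1⟩, by omega⟩
      · rintro ⟨a, b⟩ _ ⟨c, d⟩ _ h
        simp only [Prod.mk.injEq] at h
        rw [h.1, h.2]
    have h3 := Finset.card_filter_add_card_filter_not (s := (Icc 1 B) ×ˢ (Icc 1 B))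
      (fun p : ℕ × ℕ => p.2 ≤ p.1)
    omega
  rw [Finset.card_product, Nat.card_Icc] at h1
  have h2 : (B : ℝ) * B ≤ 2 * ((((Icc 1 B) ×ˢ (Icc 1 B)).filter (fun p => p.2 ≤ p.1)).card : ℝ) := by
    exact_mod_cast (by simpa using h1)
  nlinarith

theorem l1b_count (B : ℕ) (hB : 200 ≤ B) : (B : ℝ) ^ 2 / 20 ≤ ((l1bG B).card : ℝ) := by
  classical
  set Tri := ((Icc 1 B) ×ˢ (Icc 1 B)).filter (fun p => p.2 ≤ p.1) with hTri
  set Bad := (Icc 3 B).biUnion (fun q => ((Icc 1 B).filter (fun i => q ∣ 1 + 88 * i)) ×ˢ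
    ((Icc 1 B).filter (fun j => q ∣ j))) with hBad
  have hsub : Tri ⊆ l1bG B ∪ Bad := by
    rintro ⟨i, j⟩ hp
    rw [hTri, Finset.mem_filter, Finset.mem_product, Finset.mem_Icc, Finset.mem_Icc] at hp
    obtain ⟨⟨hi, hj⟩, hji⟩ := hp
    rw [Finset.mem_union]
    by_cases hc : Nat.Coprime (1 + 88 * i) j
    · left
      unfold l1bG
      rw [Finset.mem_filter, Finset.mem_product, Finset.mem_Icc, Finset.mem_Icc]
      exact ⟨⟨hi, hj⟩, hji, hc⟩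
    · right
      obtain ⟨q, hq, hq1, hq2⟩ := Nat.Prime.not_coprime_iff_dvd.1 hc
      rw [hBad, Finset.mem_biUnion]
      refine ⟨q, ?_, ?_⟩
      · rw [Finset.mem_Icc]
        have h2 : q ≠ 2 := by
          rintro rfl
          omega
        have := hq.two_le
        have := Nat.le_of_dvd hj.1 hq2
        have := hj.2
        omega
      · rw [Finset.mem_product, Finset.mem_filter, Finset.mem_filter, Finset.mem_Icc,
          Finset.mem_Icc]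
        exact ⟨⟨hi, hq1⟩, hj, hq2⟩
  have h1 : Tri.card ≤ (l1bG B).card + Bad.card :=
    (Finset.card_le_card hsub).trans (Finset.card_union_le _ _)
  have h2 : (Bad.card : ℝ) ≤ (B : ℝ) ^ 2 * (2 / 5) + B * (1 + Real.log B) := by
    have e1 : Bad.card ≤ ∑ q ∈ Icc 3 B, (B / q + 1) * (B / q) := by
      refine Finset.card_biUnion_le.trans (Finset.sum_le_sum fun q hq => ?_)
      rw [Finset.mem_Icc] at hq
      rw [Finset.card_product, l1b_mult]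
      exact Nat.mul_le_mul_right _ (l1b_prog B q (by omega))
    have e2 : ((∑ q ∈ Icc 3 B, (B / q + 1) * (B / q) : ℕ) : ℝ) ≤
        ∑ q ∈ Icc 3 B, ((B : ℝ) ^ 2 * (1 / (q : ℝ) ^ 2) + B * (1 / (q : ℝ))) := by
      push_cast
      apply Finset.sum_le_sum
      intro q hq
      rw [Finset.mem_Icc] at hq
      have hq0 : (0 : ℝ) < q := by
        have : 0 < q := by omega
        exact_mod_cast this
      have e3 : ((B / q : ℕ) : ℝ) ≤ (B : ℝ) / q := Nat.cast_div_le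
      have e4 : (0 : ℝ) ≤ ((B / q : ℕ) : ℝ) := Nat.cast_nonneg _
      have e5 : (0 : ℝ) ≤ (B : ℝ) / q := by positivity
      calc (((B / q : ℕ) : ℝ) + 1) * ((B / q : ℕ) : ℝ) ≤ ((B : ℝ) / q + 1) * ((B : ℝ) / q) := by
            apply mul_le_mul (by linarith) e3 e4 (by linarith)
        _ = (B : ℝ) ^ 2 * (1 / (q : ℝ) ^ 2) + B * (1 / (q : ℝ)) := by
            field_simp
    rw [Finset.sum_add_distrib, ← Finset.mul_sum, ← Finset.mul_sum] at e2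
    have e6 : (Bad.card : ℝ) ≤ ((∑ q ∈ Icc 3 B, (B / q + 1) * (B / q) : ℕ) : ℝ) := by
      exact_mod_cast e1
    have e7 := mul_le_mul_of_nonneg_left (l1b_sum2 B) (by positivity : (0 : ℝ) ≤ (B : ℝ) ^ 2)
    have e8 := mul_le_mul_of_nonneg_left (l1b_sum1 B (by omega)) (by positivity : (0 : ℝ) ≤ (B : ℝ))
    linarith
  have h3 := l1b_tri B
  rw [← hTri] at h3
  have h4 : (Tri.card : ℝ) ≤ ((l1bG B).card : ℝ) + (Bad.card : ℝ) := by exact_mod_cast h1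
  have hBR : (200 : ℝ) ≤ B := by exact_mod_cast hB
  have h5 : Real.log B ≤ B / 40 + 3 := by
    have e1 : Real.log B = Real.log (B / 40) + Real.log 40 := by
      rw [← Real.log_mul (by positivity) (by norm_num)]
      congr 1
      field_simp
    have e2 : Real.log ((B : ℝ) / 40) ≤ B / 40 - 1 := Real.log_le_sub_one_of_pos (by positivity)
    have e3 : Real.log 40 ≤ 4 := by
      rw [Real.log_le_iff_le_exp (by norm_num)]
      have := Real.exp_one_gt_d9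
      calc (40 : ℝ) ≤ 2.7 ^ 4 := by norm_num
        _ ≤ (Real.exp 1) ^ 4 := pow_le_pow_left₀ (by norm_num) (by linarith) 4
        _ = Real.exp 4 := by rw [← Real.exp_nat_mul]; norm_num
    linarith
  nlinarith

/-- the point of a pair -/
theorem l1b_pt (i j : ℕ) (hj : j ≤ i) (hi : 1 ≤ i) (h : Nat.Coprime (1 + 88 * i) j) :
    IsCoprime (1 + 88 * (i : ℤ)) (88 * (j : ℤ)) ∧ (1 + 88 * (i : ℤ)) ≡ 1 [ZMOD 88] ∧
      (88 * (j : ℤ)) ≡ 0 [ZMOD 88] ∧ 0 ≤ 88 * (j : ℤ) ∧ 88 * (j : ℤ) < 1 + 88 * (i : ℤ) := by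
  refine ⟨?_, ?_, ?_, by positivity, by omega⟩
  · have h1 : Nat.Coprime (1 + 88 * i) (88 * j) := by
      apply Nat.Coprime.mul_right _ h
      rw [Nat.coprime_add_mul_left_left]
      exact Nat.coprime_one_left _
    have h2 := Nat.isCoprime_iff_coprime.2 h1
    push_cast at h2
    exact h2
  · rw [Int.modEq_iff_dvd]
    exact ⟨-(i : ℤ), by ring⟩
  · rw [Int.modEq_iff_dvd]
    exact ⟨-(j : ℤ), by ring⟩

theorem sq_lower : ∃ c : ℝ, 0 < c ∧ ∀ κ : ℝ, 2 ≤ κ → ∀ Y : ℝ, 11 ≤ Y → ∃ S : Finset (ℤ × ℤ),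
    c * Y ^ (2 / 3 : ℝ) ≤ (S.card : ℝ) ∧ ∀ w ∈ S, ∃ W : WeierstrassCurve ℤ, w = (W.c₄, W.c₆) ∧
      W.Δ ≠ 0 ∧ IsCoprime W.c₄ W.Δ ∧
      (∀ x : ℚ, 4 * x ^ 3 + (W.b₂ : ℚ) * x ^ 2 + 2 * (W.b₄ : ℚ) * x + (W.b₆ : ℚ) ≠ 0) ∧
      (rd W.Δ.natAbs : ℝ) ≤ Y ∧ |(W.Δ : ℝ)| ≤ Y ^ κ ∧ Real.log |(W.c₄ : ℝ)| ≤ Y ^ κ ∧
      ∃ D₁ t : ℤ, W.Δ = D₁ * t ^ 2 ∧ |(D₁ : ℝ)| ≤ 11 := by
  classical
  refine ⟨1 / 53400 ^ 2, by positivity, fun κ hκ Y hY => ?_⟩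
  have hY0 : 0 < Y := by linarith
  obtain ⟨y, hy⟩ : ∃ y : ℝ, y = Y ^ (1 / 3 : ℝ) := ⟨_, rfl⟩
  have hy0 : 0 < y := by rw [hy]; positivity
  have hy3 : y ^ 3 = Y := by
    rw [hy, ← Real.rpow_natCast, ← Real.rpow_mul hY0.le]
    norm_num
  have hy2 : Y ^ (2 / 3 : ℝ) = y ^ 2 := by
    rw [hy, ← Real.rpow_natCast, ← Real.rpow_mul hY0.le]
    norm_num
  rw [hy2]
  set f : ℤ × ℤ → ℤ × ℤ := fun z => (F0.hes z, -(F0.cov z) / 2) with hf
  obtain ⟨B, hB⟩ : ∃ B : ℕ, B = ⌊y / 267⌋₊ := ⟨_, rfl⟩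
  have hB1 : (B : ℝ) ≤ y / 267 := by rw [hB]; exact Nat.floor_le (by positivity)
  have hB2 : y / 267 < (B : ℝ) + 1 := by rw [hB]; exact Nat.lt_floor_add_one _
  rcases le_or_gt 200 B with h200 | h200
  · set g : ℕ × ℕ → ℤ × ℤ := fun p => (1 + 88 * (p.1 : ℤ), 88 * (p.2 : ℤ)) with hg
    have hmem : ∀ p ∈ l1bG B, 1 ≤ p.1 ∧ p.1 ≤ B ∧ 1 ≤ p.2 ∧ p.2 ≤ p.1 ∧
        Nat.Coprime (1 + 88 * p.1) p.2 := by
      intro p hp
      unfold l1bG at hp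
      rw [Finset.mem_filter, Finset.mem_product, Finset.mem_Icc, Finset.mem_Icc] at hp
      exact ⟨hp.1.1.1, hp.1.1.2, hp.1.2.1, hp.2.1, hp.2.2⟩
    have hinj : Set.InjOn (fun p => f (g p)) (l1bG B : Set (ℕ × ℕ)) := by
      rintro ⟨a, b⟩ hp ⟨c, d⟩ hq hpq
      obtain ⟨p1, p2, p3, p4, p5⟩ := hmem _ hp
      obtain ⟨q1, q2, q3, q4, q5⟩ := hmem _ hq
      obtain ⟨u1, u2, u3, u4, u5⟩ := l1b_pt a b p4 p1 p5
      obtain ⟨v1, v2, v3, v4, v5⟩ := l1b_pt c d q4 q1 q5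
      have h1 := l1b_inj (g (a, b)) (g (c, d)) u1 u2 u3 u4 u5 v1 v2 v3 v4 v5 hpq
      rw [hg] at h1
      simp only [Prod.mk.injEq] at h1 ⊢
      omega
    refine ⟨(l1bG B).image (fun p => f (g p)), ?_, ?_⟩
    · rw [Finset.card_image_of_injOn hinj]
      refine le_trans ?_ (l1b_count B h200)
      have hBR : (200 : ℝ) ≤ B := by exact_mod_cast h200
      have h1 : y ≤ 534 * B := by linarith
      have h2 : y ^ 2 ≤ (534 * B) ^ 2 := pow_le_pow_left₀ hy0.le h1 2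
      nlinarith
    · intro w hw
      obtain ⟨⟨a, b⟩, hp, rfl⟩ := Finset.mem_image.1 hw
      obtain ⟨p1, p2, p3, p4, p5⟩ := hmem _ hp
      obtain ⟨u1, u2, u3, u4, u5⟩ := l1b_pt a b p4 p1 p5
      refine l1b_curve (g (a, b)) u1 u2 u3 u4 u5 κ Y hκ hY ?_
      have h1 : (((g (a, b)).1 : ℤ) : ℝ) = 1 + 88 * (a : ℝ) := by
        rw [hg]
        push_cast
        ring
      rw [h1]
      have h2 : (a : ℝ) ≤ B := by exact_mod_cast p2
      have h3 : 1 + 88 * (a : ℝ) ≤ y / 3 := by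
        have hBR : (200 : ℝ) ≤ B := by exact_mod_cast h200
        linarith
      have h4 : (1 + 88 * (a : ℝ)) ^ 3 ≤ (y / 3) ^ 3 := pow_le_pow_left₀ (by positivity) h3 3
      have h5 : (y / 3) ^ 3 = Y / 27 := by
        rw [div_pow, hy3]
        norm_num
      rw [h5] at h4
      linarith
  · refine ⟨{f (1, 0)}, ?_, ?_⟩
    · rw [Finset.card_singleton]
      have h1 : (B : ℝ) + 1 ≤ 200 := by exact_mod_cast h200
      have h2 : y ≤ 53400 := by linarith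
      have h3 : y ^ 2 ≤ 53400 ^ 2 := pow_le_pow_left₀ hy0.le h2 2
      rw [Nat.cast_one, one_div_mul_eq_div, div_le_one (by positivity)]
      exact h3
    · intro w hw
      rw [Finset.mem_singleton] at hw
      subst hw
      refine l1b_curve (1, 0) isCoprime_one_left ?_ ?_ le_rfl (by norm_num) κ Y hκ hY ?_
      · exact Int.ModEq.refl _
      · exact Int.ModEq.refl _
      · norm_num
        linarith

end Pool.Agent.Lib.SqPart
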