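import Pool.Agent.Lib.MP_d8bd92_nt.CdK1

set_option autoImplicit false

/-!
Rational points of order two and rational roots of the 2-division polynomial.
-/

namespace Pool.Agent.Lib.SqPart

open WeierstrassCurve WeierstrassCurve.Affine

/-- a rational root of the 2-division polynomial gives a rational point of order two -/
theorem root_point (W : WeierstrassCurve ℤ) (hΔ : W.Δ ≠ 0) (x : ℚ)
    (hx : 4 * x ^ 3 + (W.b₂ : ℚ) * x ^ 2 + 2 * (W.b₄ : ℚ) * x + (W.b₆ : ℚ) = 0) :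
    ∃ P : (W.baseChange ℚ).toAffine.Point, addOrderOf P = 2 := by
  have hΔQ : (W.baseChange ℚ).toAffine.Δ ≠ 0 := by
    have : (W.baseChange ℚ).Δ = (W.Δ : ℚ) := by
      rw [WeierstrassCurve.baseChange, WeierstrassCurve.map_Δ]; simp
    change (W.baseChange ℚ).Δ ≠ 0
    rw [this]
    exact_mod_cast hΔ
  have e1 : (W.baseChange ℚ).toAffine.a₁ = (W.a₁ : ℚ) := by
    simp [WeierstrassCurve.baseChange]
  have e2 : (W.baseChange ℚ).toAffine.a₂ = (W.a₂ : ℚ) := by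
    simp [WeierstrassCurve.baseChange]
  have e3 : (W.baseChange ℚ).toAffine.a₃ = (W.a₃ : ℚ) := by
    simp [WeierstrassCurve.baseChange]
  have e4 : (W.baseChange ℚ).toAffine.a₄ = (W.a₄ : ℚ) := by
    simp [WeierstrassCurve.baseChange]
  have e6 : (W.baseChange ℚ).toAffine.a₆ = (W.a₆ : ℚ) := by
    simp [WeierstrassCurve.baseChange]
  have hS : (W.baseChange ℚ).toAffine.Nonsingular x (-((W.a₁ : ℚ) * x + W.a₃) / 2) := by
    rw [← equation_iff_nonsingular_of_Δ_ne_zero hΔQ, equation_iff, e1, e2, e3, e4, e6]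
    simp only [WeierstrassCurve.b₂, WeierstrassCurve.b₄, WeierstrassCurve.b₆] at hx
    push_cast at hx
    linear_combination (-1 / 4) * hx
  refine ⟨Point.some _ _ hS, ?_⟩
  rw [addOrderOf_eq_prime_iff (p := 2)]
  refine ⟨?_, Point.some_ne_zero _⟩
  rw [two_nsmul]
  apply Point.add_self_of_Y_eq
  rw [negY, e1, e3]; ring

/-- a rational point of order two gives a rational root of the 2-division polynomial -/
theorem point_root (W : WeierstrassCurve ℤ) (P : (W.baseChange ℚ).toAffine.Point)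
    (hP : addOrderOf P = 2) :
    ∃ x : ℚ, 4 * x ^ 3 + (W.b₂ : ℚ) * x ^ 2 + 2 * (W.b₄ : ℚ) * x + (W.b₆ : ℚ) = 0 := by
  obtain ⟨x, y, h, e, hPe, he, hy, hr⟩ := Pool.Agent.Lib.MP_d8bd92_nt.K1_root W P hP
  refine ⟨x, ?_⟩
  have hr' : ((e : ℚ)) ^ 3 + (W.b₂ : ℚ) * (e : ℚ) ^ 2 + 8 * (W.b₄ : ℚ) * (e : ℚ) +
      16 * (W.b₆ : ℚ) = 0 := by exact_mod_cast hr
  rw [he] at hr'
  linear_combination (1 / 16) * hr'

theorem no_two_iff (W : WeierstrassCurve ℤ) (hΔ : W.Δ ≠ 0) :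
    (∀ P : (W.baseChange ℚ).toAffine.Point, addOrderOf P ≠ 2) ↔
      ∀ x : ℚ, 4 * x ^ 3 + (W.b₂ : ℚ) * x ^ 2 + 2 * (W.b₄ : ℚ) * x + (W.b₆ : ℚ) ≠ 0 := by
  constructor
  · intro h x hx
    obtain ⟨P, hP⟩ := root_point W hΔ x hx
    exact h P hP
  · intro h P hP
    obtain ⟨x, hx⟩ := point_root W P hP
    exact h x hx

end Pool.Agent.Lib.SqPart
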