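import Pool.Agent.Lib.MP_d8bd92_nt.SqD0

set_option autoImplicit false

/-!
Thue's auxiliary polynomials, uniformly in the form.

PROOF of siegel_pair. h = F.ht >= 1 (F.a is not 0). Put a = F.a etc. Define σ : ℕ → ℤ × ℤ × ℤ by σ 0 = (1,0,0) and
σ (m+1) = (-d σ2, a σ0 - c σ2, a σ1 - b σ2) for σ m = (σ0,σ1,σ2). Then a^m r^m = σ0 + σ1 r + σ2 r^2 (induction, with
a r^3 = -(b r^2 + c r + d)), and |σ m|_∞ <= h^m. So for m <= d+1 (d the degree bound; n := d+1):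
a^n r^m = a^(n-m) (σ m 0 + σ m 1 r + σ m 2 r^2), integers ρ_e(m) = a^(n-m) (σ m)_e with |ρ_e(m)| <= h^n.
Unknown integer vector t : Fin (d+1) × Fin 2 → ℤ (t (i,0) = coefficient of X^i of A, t (i,1) of B). Equations indexed by
(j,e) in Fin k × Fin 3: Σ_i C(i,j) (t(i,0) ρ_e(i-j) + t(i,1) ρ_e(i-j+1)) = 0 (C(i,j) = 0 if i < j; i-j+1 <= d+1).
Multiplying by 1, r, r^2 and adding gives a^n (hasseDeriv j A (r) + r hasseDeriv j B (r)) = 0.
Siegel's lemma: `Int.Matrix.exists_ne_zero_int_vec_norm_le`.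
-/

namespace Pool.Agent.Lib.SqPart

open Finset Polynomial

/-- coordinates of `(a r)^m` in `1, r, r^2` -/
def T1_s (F : Cub) : ℕ → Fin 3 → ℤ
  | 0 => ![1, 0, 0]
  | m + 1 => ![-F.d * T1_s F m 2, F.a * T1_s F m 0 - F.c * T1_s F m 2,
      F.a * T1_s F m 1 - F.b * T1_s F m 2]

theorem T1_s_eq (F : Cub) (r : ℝ) (h : IsRoot F r) (m : ℕ) :
    (F.a : ℝ) ^ m * r ^ m = (T1_s F m 0 : ℝ) + T1_s F m 1 * r + T1_s F m 2 * r ^ 2 := by
  unfold IsRoot at h
  induction m with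
  | zero => simp [T1_s]
  | succ m ih =>
    have e0 : T1_s F (m + 1) 0 = -F.d * T1_s F m 2 := rfl
    have e1 : T1_s F (m + 1) 1 = F.a * T1_s F m 0 - F.c * T1_s F m 2 := rfl
    have e2 : T1_s F (m + 1) 2 = F.a * T1_s F m 1 - F.b * T1_s F m 2 := rfl
    rw [e0, e1, e2]
    push_cast
    linear_combination (F.a : ℝ) * r * ih + (T1_s F m 2 : ℝ) * h

theorem T1_ht_nonneg (F : Cub) : 0 ≤ F.ht := by
  unfold Cub.ht
  positivity

theorem T1_s_le (F : Cub) (m : ℕ) : ∀ e, |T1_s F m e| ≤ F.ht ^ m := by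
  induction m with
  | zero =>
    intro e
    fin_cases e <;> simp [T1_s]
  | succ m ih =>
    have h0 := ih 0
    have h1 := ih 1
    have h2 := ih 2
    have hH := T1_ht_nonneg F
    have hp : 0 ≤ F.ht ^ m := pow_nonneg hH m
    have ha := abs_nonneg F.a
    have hb := abs_nonneg F.b
    have hc := abs_nonneg F.c
    have hd := abs_nonneg F.d
    have hs : F.ht = |F.a| + |F.b| + |F.c| + |F.d| := rfl
    intro e
    rw [pow_succ]
    fin_cases e
    · show |-F.d * T1_s F m 2| ≤ _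
      rw [abs_mul, abs_neg]
      calc |F.d| * |T1_s F m 2| ≤ F.ht * F.ht ^ m :=
            mul_le_mul (by linarith) h2 (abs_nonneg _) hH
        _ = _ := mul_comm _ _
    · show |F.a * T1_s F m 0 - F.c * T1_s F m 2| ≤ _
      calc |F.a * T1_s F m 0 - F.c * T1_s F m 2| ≤ |F.a * T1_s F m 0| + |F.c * T1_s F m 2| :=
            abs_sub _ _
        _ ≤ |F.a| * F.ht ^ m + |F.c| * F.ht ^ m := by
            rw [abs_mul, abs_mul]
            exact add_le_add (mul_le_mul_of_nonneg_left h0 ha) (mul_le_mul_of_nonneg_left h2 hc)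
        _ = (|F.a| + |F.c|) * F.ht ^ m := by ring
        _ ≤ F.ht * F.ht ^ m := mul_le_mul_of_nonneg_right (by linarith) hp
        _ = _ := mul_comm _ _
    · show |F.a * T1_s F m 1 - F.b * T1_s F m 2| ≤ _
      calc |F.a * T1_s F m 1 - F.b * T1_s F m 2| ≤ |F.a * T1_s F m 1| + |F.b * T1_s F m 2| :=
            abs_sub _ _
        _ ≤ |F.a| * F.ht ^ m + |F.b| * F.ht ^ m := by
            rw [abs_mul, abs_mul]
            exact add_le_add (mul_le_mul_of_nonneg_left h1 ha) (mul_le_mul_of_nonneg_left h2 hb)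
        _ = (|F.a| + |F.b|) * F.ht ^ m := by ring
        _ ≤ F.ht * F.ht ^ m := mul_le_mul_of_nonneg_right (by linarith) hp
        _ = _ := mul_comm _ _

/-- coordinates of `a^n r^m` -/
def T1_rho (F : Cub) (n m : ℕ) (e : Fin 3) : ℤ := F.a ^ (n - m) * T1_s F m e

theorem T1_rho_eq (F : Cub) (r : ℝ) (h : IsRoot F r) {n m : ℕ} (hm : m ≤ n) :
    (F.a : ℝ) ^ n * r ^ m = (T1_rho F n m 0 : ℝ) + T1_rho F n m 1 * r + T1_rho F n m 2 * r ^ 2 := by
  have h1 := T1_s_eq F r h m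
  have h2 : (F.a : ℝ) ^ n = (F.a : ℝ) ^ (n - m) * (F.a : ℝ) ^ m := by
    rw [← pow_add, Nat.sub_add_cancel hm]
  unfold T1_rho
  push_cast
  rw [h2, mul_assoc, h1]
  ring

theorem T1_rho_le (F : Cub) {n m : ℕ} (hm : m ≤ n) (e : Fin 3) :
    |T1_rho F n m e| ≤ F.ht ^ n := by
  have hH := T1_ht_nonneg F
  have ha : |F.a| ≤ F.ht := by
    have hb := abs_nonneg F.b
    have hc := abs_nonneg F.c
    have hd := abs_nonneg F.d
    have hs : F.ht = |F.a| + |F.b| + |F.c| + |F.d| := rfl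
    linarith
  unfold T1_rho
  rw [abs_mul, abs_pow]
  calc |F.a| ^ (n - m) * |T1_s F m e| ≤ F.ht ^ (n - m) * F.ht ^ m :=
        mul_le_mul (pow_le_pow_left₀ (abs_nonneg _) ha _) (T1_s_le F m e) (abs_nonneg _)
          (pow_nonneg hH _)
    _ = F.ht ^ n := by rw [← pow_add, Nat.sub_add_cancel hm]

/-- Siegel's lemma with a bound for the entries -/
theorem T1_siegel {α β : Type} [Fintype α] [Fintype β] (M : Matrix α β ℤ) (b : ℝ) (hb : 1 ≤ b)
    (hM : ∀ i j, |(M i j : ℝ)| ≤ b) (hn : Fintype.card α < Fintype.card β)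
    (hm : 0 < Fintype.card α) :
    ∃ t : β → ℤ, t ≠ 0 ∧ M.mulVec t = 0 ∧ ∀ j, |(t j : ℝ)| ≤
      ((Fintype.card β : ℝ) * b) ^ ((Fintype.card α : ℝ) / (Fintype.card β - Fintype.card α)) := by
  obtain ⟨t, ht, h1, h2⟩ := Int.Matrix.exists_ne_zero_int_vec_norm_le M hn hm
  refine ⟨t, ht, h1, fun j => ?_⟩
  have h3 : ‖t j‖ ≤ ‖t‖ := norm_le_pi_norm t j
  rw [Int.norm_eq_abs] at h3
  refine h3.trans (h2.trans ?_)
  have hn' : (Fintype.card α : ℝ) < Fintype.card β := by exact_mod_cast hn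
  refine Real.rpow_le_rpow (by positivity) ?_ (div_nonneg (by positivity) (by linarith))
  refine mul_le_mul_of_nonneg_left (max_le hb ?_) (by positivity)
  refine (Matrix.norm_le_iff (by linarith)).2 fun i j => ?_
  rw [Int.norm_eq_abs]
  exact hM i j

theorem T1_exp {k d : ℕ} (hk : 1 ≤ k) (hd : 151 * k ≤ 100 * d) (hd2 : d ≤ 2 * k) (h : ℝ)
    (hh : 1 ≤ h) :
    (((2 * (d + 1) : ℕ) : ℝ) * (2 * h) ^ (d + 1)) ^
      (((3 * k : ℕ) : ℝ) / (((2 * (d + 1) : ℕ) : ℝ) - ((3 * k : ℕ) : ℝ))) ≤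
      (450 * h) ^ ((450 : ℝ) * k) := by
  have hk' : (1:ℝ) ≤ k := by exact_mod_cast hk
  have hd' : (151:ℝ) * k ≤ 100 * d := by exact_mod_cast hd
  have hd2' : (d:ℝ) ≤ 2 * k := by exact_mod_cast hd2
  have hex : ((3 * k : ℕ) : ℝ) / (((2 * (d + 1) : ℕ) : ℝ) - ((3 * k : ℕ) : ℝ)) ≤ 150 := by
    push_cast
    rw [div_le_iff₀ (by linarith)]
    linarith
  have hbase : ((2 * (d + 1) : ℕ) : ℝ) * (2 * h) ^ (d + 1) ≤ (4 * h) ^ (3 * k) := by
    have h1 : ((2 * (d + 1) : ℕ) : ℝ) ≤ 2 ^ (d + 1) := by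
      have : 2 * (d + 1) ≤ 2 ^ (d + 1) := by
        clear hk hd hd2 hk' hd' hd2' hex
        induction d with
        | zero => norm_num
        | succ d ih =>
          rw [pow_succ]
          omega
      exact_mod_cast this
    calc ((2 * (d + 1) : ℕ) : ℝ) * (2 * h) ^ (d + 1) ≤ 2 ^ (d + 1) * (2 * h) ^ (d + 1) :=
          mul_le_mul_of_nonneg_right h1 (by positivity)
      _ = (4 * h) ^ (d + 1) := by rw [← mul_pow]; ring_nf
      _ ≤ (4 * h) ^ (3 * k) := pow_le_pow_right₀ (by linarith) (by omega)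
  have hone : 1 ≤ ((2 * (d + 1) : ℕ) : ℝ) * (2 * h) ^ (d + 1) := by
    have h1 : (1:ℝ) ≤ ((2 * (d + 1) : ℕ) : ℝ) := by
      have : 1 ≤ 2 * (d + 1) := by omega
      exact_mod_cast this
    have h2 : (1:ℝ) ≤ (2 * h) ^ (d + 1) := one_le_pow₀ (by linarith)
    exact one_le_mul_of_one_le_of_one_le h1 h2
  calc (((2 * (d + 1) : ℕ) : ℝ) * (2 * h) ^ (d + 1)) ^
        (((3 * k : ℕ) : ℝ) / (((2 * (d + 1) : ℕ) : ℝ) - ((3 * k : ℕ) : ℝ)))
      ≤ (((2 * (d + 1) : ℕ) : ℝ) * (2 * h) ^ (d + 1)) ^ (150 : ℝ) :=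
        Real.rpow_le_rpow_of_exponent_le hone hex
    _ ≤ ((4 * h) ^ (3 * k)) ^ (150 : ℝ) :=
        Real.rpow_le_rpow (by linarith) hbase (by norm_num)
    _ = (4 * h) ^ ((450 : ℝ) * k) := by
        rw [← Real.rpow_natCast (4 * h) (3 * k), ← Real.rpow_mul (by linarith)]
        congr 1
        push_cast
        ring
    _ ≤ (450 * h) ^ ((450 : ℝ) * k) :=
        Real.rpow_le_rpow (by linarith) (by linarith) (by positivity)

/-- the polynomial with the coefficients `c` -/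
noncomputable def T1_pol (d : ℕ) (c : Fin (d + 1) → ℤ) : ℤ[X] := ∑ i : Fin (d + 1), monomial (i : ℕ) (c i)

theorem T1_pol_coeff (d : ℕ) (c : Fin (d + 1) → ℤ) (i : Fin (d + 1)) :
    (T1_pol d c).coeff i = c i := by
  unfold T1_pol
  rw [finsetSum_coeff]
  rw [Finset.sum_eq_single i]
  · rw [coeff_monomial, if_pos rfl]
  · intro j _ hj
    rw [coeff_monomial, if_neg]
    exact fun h => hj (Fin.ext h)
  · intro h
    exact absurd (mem_univ i) h

theorem T1_pol_natDegree (d : ℕ) (c : Fin (d + 1) → ℤ) : (T1_pol d c).natDegree ≤ d := by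
  unfold T1_pol
  refine natDegree_sum_le_of_forall_le _ _ fun i _ => ?_
  exact (natDegree_monomial_le _).trans (by omega)

theorem T1_pol_coeff_abs (d : ℕ) (c : Fin (d + 1) → ℤ) (X : ℝ) (hX : 0 ≤ X)
    (hc : ∀ i, |(c i : ℝ)| ≤ X) (i : ℕ) : |((T1_pol d c).coeff i : ℝ)| ≤ X := by
  rcases Nat.lt_or_ge i (d + 1) with h | h
  · have := T1_pol_coeff d c ⟨i, h⟩
    simp only at this
    rw [this]
    exact hc _
  · rw [coeff_eq_zero_of_natDegree_lt ((T1_pol_natDegree d c).trans_lt (by omega))]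
    simpa using hX

theorem T1_pol_hasse (d : ℕ) (c : Fin (d + 1) → ℤ) (r : ℝ) (j : ℕ) :
    aeval r (hasseDeriv j (T1_pol d c)) =
      ∑ i : Fin (d + 1), (Nat.choose (i : ℕ) j : ℝ) * (c i : ℝ) * r ^ ((i : ℕ) - j) := by
  unfold T1_pol
  rw [map_sum, map_sum]
  refine sum_congr rfl fun i _ => ?_
  rw [hasseDeriv_monomial, aeval_monomial]
  simp

theorem siegel_pair : ∃ C : ℝ, 1 ≤ C ∧ ∀ F : Cub, F.Irr → ∀ r : ℝ, IsRoot F r → ∀ k d : ℕ, 1 ≤ k →
    151 * k ≤ 100 * d → d ≤ 2 * k → ∃ A B : ℤ[X], (A ≠ 0 ∨ B ≠ 0) ∧ A.natDegree ≤ d ∧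
      B.natDegree ≤ d ∧ (∀ i, |(A.coeff i : ℝ)| ≤ (C * F.ht) ^ (C * k)) ∧
      (∀ i, |(B.coeff i : ℝ)| ≤ (C * F.ht) ^ (C * k)) ∧
      ∀ j < k, aeval r (hasseDeriv j A) + r * aeval r (hasseDeriv j B) = 0 := by
  refine ⟨450, by norm_num, ?_⟩
  intro F hF r hr k d hk hd hd2
  have ha : F.a ≠ 0 := by
    have := hF (1, 0) (by simp)
    intro h0
    apply this
    unfold Cub.val
    rw [h0]
    simp
  have hht : (1:ℝ) ≤ F.ht := by
    have h1 : (1 : ℤ) ≤ |F.a| := Int.one_le_abs ha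
    have hb := abs_nonneg F.b
    have hc := abs_nonneg F.c
    have hd := abs_nonneg F.d
    have hs : F.ht = |F.a| + |F.b| + |F.c| + |F.d| := rfl
    have : (1 : ℤ) ≤ F.ht := by linarith
    exact_mod_cast this
  let M : Matrix (Fin k × Fin 3) (Fin (d + 1) × Fin 2) ℤ := fun p q =>
    (Nat.choose (q.1 : ℕ) (p.1 : ℕ) : ℤ) * T1_rho F (d + 1) ((q.1 : ℕ) - (p.1 : ℕ) + (q.2 : ℕ)) p.2
  have hM : ∀ p q, |(M p q : ℝ)| ≤ (2 * (F.ht : ℝ)) ^ (d + 1) := by
    intro p q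
    have h1 : |M p q| ≤ 2 ^ (d + 1) * F.ht ^ (d + 1) := by
      have e : M p q = (Nat.choose (q.1 : ℕ) (p.1 : ℕ) : ℤ) *
        T1_rho F (d + 1) ((q.1 : ℕ) - (p.1 : ℕ) + (q.2 : ℕ)) p.2 := rfl
      rw [e, abs_mul]
      have hq1 := q.1.2
      have hq2 := q.2.2
      have h2 : (Nat.choose (q.1 : ℕ) (p.1 : ℕ) : ℤ) ≤ 2 ^ (d + 1) := by
        have h3 : Nat.choose (q.1 : ℕ) (p.1 : ℕ) ≤ 2 ^ (q.1 : ℕ) := Nat.choose_le_two_pow _ _
        have h4 : 2 ^ (q.1 : ℕ) ≤ 2 ^ (d + 1) := Nat.pow_le_pow_right (by norm_num) (by omega)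
        exact_mod_cast h3.trans h4
      refine mul_le_mul ?_ (T1_rho_le F (by omega) _) (abs_nonneg _) (by positivity)
      rw [abs_of_nonneg (by positivity)]
      exact h2
    have h2 : ((|M p q| : ℤ) : ℝ) ≤ ((2 ^ (d + 1) * F.ht ^ (d + 1) : ℤ) : ℝ) := by exact_mod_cast h1
    rw [mul_pow]
    push_cast at h2
    exact h2
  have hb1 : 1 ≤ (2 * (F.ht : ℝ)) ^ (d + 1) := one_le_pow₀ (by linarith)
  obtain ⟨t, ht, hMt, htb⟩ := T1_siegel M _ hb1 hM (by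
    rw [Fintype.card_prod, Fintype.card_prod]
    simp only [Fintype.card_fin]
    omega) (by
    rw [Fintype.card_prod]
    simp only [Fintype.card_fin]
    omega)
  have hX : ∀ q, |(t q : ℝ)| ≤ (450 * (F.ht : ℝ)) ^ ((450 : ℝ) * k) := by
    intro q
    refine (htb q).trans ?_
    have := T1_exp hk hd hd2 F.ht hht
    rw [Fintype.card_prod, Fintype.card_prod]
    simp only [Fintype.card_fin]
    rw [mul_comm (d + 1) 2, mul_comm k 3]
    exact this
  have hX0 : 0 ≤ (450 * (F.ht : ℝ)) ^ ((450 : ℝ) * k) := by positivity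
  refine ⟨T1_pol d (fun i => t (i, 0)), T1_pol d (fun i => t (i, 1)), ?_, T1_pol_natDegree _ _,
    T1_pol_natDegree _ _, T1_pol_coeff_abs _ _ _ hX0 (fun i => hX _),
    T1_pol_coeff_abs _ _ _ hX0 (fun i => hX _), ?_⟩
  · by_contra hcon
    push Not at hcon
    apply ht
    funext q
    obtain ⟨i, e⟩ := q
    fin_cases e
    · have := T1_pol_coeff d (fun i => t (i, 0)) i
      rw [hcon.1, coeff_zero] at this
      exact this.symm
    · have := T1_pol_coeff d (fun i => t (i, 1)) i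
      rw [hcon.2, coeff_zero] at this
      exact this.symm
  · intro j hj
    have han : (F.a : ℝ) ^ (d + 1) ≠ 0 := pow_ne_zero _ (by exact_mod_cast ha)
    have hrow : ∀ e : Fin 3, ∑ i : Fin (d + 1), (Nat.choose (i : ℕ) j : ℝ) *
        ((t (i, 0) : ℝ) * T1_rho F (d + 1) ((i : ℕ) - j) e +
          (t (i, 1) : ℝ) * T1_rho F (d + 1) ((i : ℕ) - j + 1) e) = 0 := by
      intro e
      have h1 : M.mulVec t (⟨j, hj⟩, e) = 0 := by rw [hMt]; rfl
      have h2 : M.mulVec t (⟨j, hj⟩, e) = ∑ q : Fin (d + 1) × Fin 2,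
          (Nat.choose (q.1 : ℕ) j : ℤ) * T1_rho F (d + 1) ((q.1 : ℕ) - j + (q.2 : ℕ)) e * t q := rfl
      rw [h2, Fintype.sum_prod_type] at h1
      have h3 : ∑ i : Fin (d + 1), (Nat.choose (i : ℕ) j : ℤ) *
        (t (i, 0) * T1_rho F (d + 1) ((i : ℕ) - j) e +
          t (i, 1) * T1_rho F (d + 1) ((i : ℕ) - j + 1) e) = 0 := by
        rw [← h1]
        refine sum_congr rfl fun i _ => ?_
        rw [Fin.sum_univ_two]
        simp only [Fin.val_zero, Fin.val_one, Nat.add_zero]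
        ring
      exact_mod_cast h3
    have h0 := hrow 0
    have h1 := hrow 1
    have h2 := hrow 2
    rw [T1_pol_hasse, T1_pol_hasse]
    have key : (F.a : ℝ) ^ (d + 1) * (∑ i : Fin (d + 1), (Nat.choose (i : ℕ) j : ℝ) * (t (i, 0) : ℝ) *
        r ^ ((i : ℕ) - j) + r * ∑ i : Fin (d + 1), (Nat.choose (i : ℕ) j : ℝ) * (t (i, 1) : ℝ) *
        r ^ ((i : ℕ) - j)) = 0 := by
      have h4 : (F.a : ℝ) ^ (d + 1) * (∑ i : Fin (d + 1), (Nat.choose (i : ℕ) j : ℝ) *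
          (t (i, 0) : ℝ) * r ^ ((i : ℕ) - j) + r * ∑ i : Fin (d + 1), (Nat.choose (i : ℕ) j : ℝ) *
          (t (i, 1) : ℝ) * r ^ ((i : ℕ) - j)) =
          (∑ i : Fin (d + 1), (Nat.choose (i : ℕ) j : ℝ) *
        ((t (i, 0) : ℝ) * T1_rho F (d + 1) ((i : ℕ) - j) 0 +
          (t (i, 1) : ℝ) * T1_rho F (d + 1) ((i : ℕ) - j + 1) 0)) +
          (∑ i : Fin (d + 1), (Nat.choose (i : ℕ) j : ℝ) *
        ((t (i, 0) : ℝ) * T1_rho F (d + 1) ((i : ℕ) - j) 1 +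
          (t (i, 1) : ℝ) * T1_rho F (d + 1) ((i : ℕ) - j + 1) 1)) * r +
          (∑ i : Fin (d + 1), (Nat.choose (i : ℕ) j : ℝ) *
        ((t (i, 0) : ℝ) * T1_rho F (d + 1) ((i : ℕ) - j) 2 +
          (t (i, 1) : ℝ) * T1_rho F (d + 1) ((i : ℕ) - j + 1) 2)) * r ^ 2 := by
        rw [mul_sum, ← sum_add_distrib, mul_sum, sum_mul, sum_mul, ← sum_add_distrib,
          ← sum_add_distrib]
        refine sum_congr rfl fun i _ => ?_
        have hi := i.2
        have a1 := T1_rho_eq F r hr (n := d + 1) (m := (i : ℕ) - j) (by omega)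
        have a2 := T1_rho_eq F r hr (n := d + 1) (m := (i : ℕ) - j + 1) (by omega)
        rw [pow_succ r] at a2
        linear_combination (Nat.choose (i : ℕ) j : ℝ) * (t (i, 0) : ℝ) * a1 +
          (Nat.choose (i : ℕ) j : ℝ) * (t (i, 1) : ℝ) * a2
      rw [h4, h0, h1, h2]
      ring
    exact (mul_eq_zero.1 key).resolve_left han

end Pool.Agent.Lib.SqPart
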