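import Pool.Agent.Lib.MP_d8bd92_nt.SqD0

set_option autoImplicit false

/-!
Nonvanishing of the auxiliary polynomials (Wronskian argument).

Let f = F.a X^3 + F.b X^2 + F.c X + F.d in ℚ[X]; it is irreducible (degree 3 without rational root), f(r) = 0 and
f'(r) = F.sl r is not 0 (`disc_eq` and disc not 0).
pow_dvd. PROOF. Induction on k. If (X-r)^(k+1) divides B (over ℝ) then B(r) = 0, so f divides B (f is, up to a
constant, the minimal polynomial of r), B = f B1. Over ℝ f = (X-r) g with g(r) = f'(r) not 0; so (X-r)^k divides g B1, is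
coprime to g, so divides B1; induction.
wronskian. PROOF. P = A + r B in ℝ[X] is divisible by (X-r)^k (its Hasse derivatives of order < k vanish at r; use
`taylor_coeff`, or `Polynomial.X_sub_C_pow_dvd_iff`). W = A' B - A B' = P' B - P B' (as A = P - r B) is divisible by
(X-r)^(k-1). W is not 0: otherwise, if B = 0 then A is divisible by (X-r)^k, so by f^k of degree 3k > d, so
A = 0, contradiction; if B is not 0, then A' B = A B' gives A = q B for a constant q in ℚ (the derivative of the quotient is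
0: e.g. `Polynomial.wronskian` API, or compare: leading coefficients, or in the fraction field; A/B reduced = u/v
coprime with u' v = u v', so v | v', v' = 0, v constant, likewise u), and (q + r) B is divisible by (X-r)^k with
q + r not 0 (r is irrational), so f^k | B, degree 3k > d, contradiction.
nonvanish. PROOF. By pow_dvd f^(k-1) divides W, W = f^(k-1) V in ℚ[X], V not 0, and deg W <= 2d - 1 (natDegree A' <= d-1), so
deg V <= 2d - 1 - 3(k-1) = 2d + 2 - 3k (in particular 3k <= 2d+2). Suppose that the claim fails: A + yB has all its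
Hasse derivatives of order j, j + 3k <= 2d+3, zero at x; so with J = 2d+3-3k, (X-x)^(J+1) divides A + yB in ℚ[X].
W = (A+yB)' B - (A+yB) B' is divisible by (X-x)^J. f(x) is not 0, so (X-x)^J divides V, so J <= deg V <= 2d+2-3k < J.
-/

namespace Pool.Agent.Lib.SqPart

open Finset Polynomial

/-- the dehomogenised polynomial of the form -/
private noncomputable def t2f (F : Cub) : ℚ[X] :=
  C (F.a : ℚ) * X ^ 3 + C (F.b : ℚ) * X ^ 2 + C (F.c : ℚ) * X + C (F.d : ℚ)

private theorem t2_a_ne (F : Cub) (hF : F.Irr) : F.a ≠ 0 := by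
  intro h
  refine hF (1, 0) (by simp) ?_
  simp [Cub.val, h]

private theorem t2f_natDegree (F : Cub) (hF : F.Irr) : (t2f F).natDegree = 3 := by
  unfold t2f
  exact natDegree_cubic (by exact_mod_cast t2_a_ne F hF)

private theorem t2f_eval (F : Cub) (hF : F.Irr) (x : ℚ) : (t2f F).eval x ≠ 0 := by
  intro h
  have hd : (x.den : ℚ) ≠ 0 := by exact_mod_cast x.den_ne_zero
  refine hF (x.num, (x.den : ℤ)) ?_ ?_
  · intro h0
    have h1 := congrArg Prod.snd h0
    simp at h1
  · have h2 : ((F.val (x.num, (x.den : ℤ)) : ℤ) : ℚ) = (x.den : ℚ) ^ 3 * (t2f F).eval x := by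
      have hx : (x.num : ℚ) = x * x.den := by
        rw [Rat.mul_den_eq_num]
      unfold Cub.val t2f
      simp only [eval_add, eval_mul, eval_C, eval_pow, eval_X]
      push_cast
      rw [hx]
      ring
    rw [h, mul_zero] at h2
    exact_mod_cast h2

private theorem t2f_irr (F : Cub) (hF : F.Irr) : Irreducible (t2f F) := by
  refine irreducible_of_degree_le_three_of_not_isRoot ?_ ?_
  · rw [t2f_natDegree F hF]
    decide
  · intro x hx
    exact t2f_eval F hF x hx

private theorem t2f_root (F : Cub) (r : ℝ) (hr : IsRoot F r) :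
    ((t2f F).map (algebraMap ℚ ℝ)).eval r = 0 := by
  unfold IsRoot at hr
  unfold t2f
  simp only [Polynomial.map_add, Polynomial.map_mul, Polynomial.map_pow, map_C, map_X, eval_add,
    eval_mul, eval_C, eval_pow, eval_X]
  simpa using hr

private theorem t2_dvd_of_root (F : Cub) (hF : F.Irr) (r : ℝ) (hr : IsRoot F r) (P : ℚ[X])
    (hP : (P.map (algebraMap ℚ ℝ)).eval r = 0) : t2f F ∣ P := by
  have hirr := t2f_irr F hF
  have h1 : aeval r (t2f F) = 0 := by
    rw [aeval_def, eval₂_eq_eval_map]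
    exact t2f_root F r hr
  have h2 : aeval r P = 0 := by
    rw [aeval_def, eval₂_eq_eval_map]
    exact hP
  have h3 := minpoly.eq_of_irreducible hirr h1
  have h4 := minpoly.dvd ℚ r h2
  rw [← h3] at h4
  exact (dvd_mul_right _ _).trans h4

private theorem t2_factor (F : Cub) (hF : F.Irr) (r : ℝ) (hr : IsRoot F r) :
    ∃ g : ℝ[X], (t2f F).map (algebraMap ℚ ℝ) = (X - C r) * g ∧ IsCoprime (X - C r) g := by
  obtain ⟨g, hg⟩ := dvd_iff_isRoot.mpr (t2f_root F r hr)
  refine ⟨g, hg, ?_⟩
  have hs : ((t2f F).map (algebraMap ℚ ℝ)).Separable := (t2f_irr F hF).separable.map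
  rw [hg] at hs
  exact hs.isCoprime

private theorem t2_pow_dvd (F : Cub) (hF : F.Irr) (r : ℝ) (hr : IsRoot F r) (k : ℕ) :
    ∀ P : ℚ[X], (X - C r) ^ k ∣ P.map (algebraMap ℚ ℝ) → (t2f F) ^ k ∣ P := by
  obtain ⟨g, hg, hcop⟩ := t2_factor F hF r hr
  induction k with
  | zero => intro P _; simp
  | succ k ih =>
    intro P hP
    have h1 : (P.map (algebraMap ℚ ℝ)).eval r = 0 := by
      have h2 : (X - C r) ∣ P.map (algebraMap ℚ ℝ) := (dvd_pow_self _ (Nat.succ_ne_zero k)).trans hP
      exact dvd_iff_isRoot.mp h2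
    obtain ⟨Q, hQ⟩ := t2_dvd_of_root F hF r hr P h1
    rw [hQ, Polynomial.map_mul, hg, pow_succ', mul_assoc] at hP
    have h3 : (X - C r) ^ k ∣ g * Q.map (algebraMap ℚ ℝ) :=
      (mul_dvd_mul_iff_left (X_sub_C_ne_zero r)).mp hP
    have h4 : (X - C r) ^ k ∣ Q.map (algebraMap ℚ ℝ) :=
      (IsCoprime.pow_left hcop).dvd_of_dvd_mul_left h3
    rw [hQ, pow_succ']
    exact mul_dvd_mul_left _ (ih Q h4)

private theorem t2_X_sub_C_pow_dvd {K : Type*} [Field K] (P : K[X]) (t : K) (n : ℕ) :
    (X - C t) ^ n ∣ P ↔ ∀ j < n, (hasseDeriv j P).eval t = 0 := by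
  rw [X_sub_C_pow_dvd_iff, ← taylor_apply, X_pow_dvd_iff]
  simp only [taylor_coeff]

private theorem t2_map_hasse {R S : Type*} [CommRing R] [CommRing S] (φ : R →+* S) (j : ℕ)
    (P : R[X]) : (hasseDeriv j P).map φ = hasseDeriv j (P.map φ) := by
  ext n
  rw [coeff_map, hasseDeriv_coeff, hasseDeriv_coeff, coeff_map, map_mul, map_natCast]

private theorem t2_aeval {K : Type*} [Field K] [Algebra ℚ K] (x : K) (j : ℕ) (P : ℤ[X]) :
    aeval x (hasseDeriv j P) =
      (hasseDeriv j ((P.map (Int.castRingHom ℚ)).map (algebraMap ℚ K))).eval x := by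
  rw [Polynomial.map_map, ← t2_map_hasse, aeval_def, eval₂_eq_eval_map]
  congr 2
  exact RingHom.ext_int _ _

private theorem t2_wr_eq {K : Type*} [Field K] (A B : K[X]) (y : K) :
    wronskian A B = (A + C y * B) * derivative B - derivative (A + C y * B) * B := by
  unfold wronskian
  rw [derivative_add, derivative_C_mul]
  ring

private theorem t2_wr_dvd {K : Type*} [Field K] (A B : K[X]) (y t : K) (n : ℕ)
    (h : (X - C t) ^ n ∣ A + C y * B) : (X - C t) ^ (n - 1) ∣ wronskian A B := by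
  rw [t2_wr_eq A B y]
  have h1 : (X - C t) ^ (n - 1) ∣ A + C y * B := (pow_dvd_pow _ (Nat.sub_le n 1)).trans h
  have h2 : (X - C t) ^ (n - 1) ∣ derivative (A + C y * B) :=
    pow_sub_one_dvd_derivative_of_pow_dvd h
  exact dvd_sub (h1.mul_right _) (h2.mul_right _)

private theorem t2_irrational (F : Cub) (hF : F.Irr) (r : ℝ) (hr : IsRoot F r) (u v : ℚ)
    (h : (u : ℝ) + r * v = 0) : u = 0 ∧ v = 0 := by
  by_cases hv : v = 0
  · subst hv
    refine ⟨?_, rfl⟩
    simpa using h
  · exfalso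
    have hv' : (v : ℝ) ≠ 0 := by exact_mod_cast hv
    have hr' : r = ((-u / v : ℚ) : ℝ) := by
      push_cast
      field_simp
      linarith
    have h1 := t2f_root F r hr
    rw [hr', ← eq_ratCast (algebraMap ℚ ℝ), eval_map_algebraMap, aeval_algebraMap_apply] at h1
    have h2 : (aeval (-u / v : ℚ)) (t2f F) = 0 := by
      exact (map_eq_zero_iff _ (algebraMap ℚ ℝ).injective).mp h1
    exact t2f_eval F hF (-u / v) h2

private theorem t2_wr_ne (F : Cub) (hF : F.Irr) (r : ℝ) (hr : IsRoot F r) (k d : ℕ)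
    (hd : d < 3 * k) (A B : ℚ[X]) (hne : A ≠ 0 ∨ B ≠ 0) (hA : A.natDegree ≤ d)
    (hB : B.natDegree ≤ d)
    (h : (X - C r) ^ k ∣ A.map (algebraMap ℚ ℝ) + C r * B.map (algebraMap ℚ ℝ)) :
    wronskian A B ≠ 0 := by
  intro hw
  have hg0 : gcd A B ≠ 0 := by
    intro h0
    rw [_root_.gcd_eq_zero_iff] at h0
    rcases hne with h1 | h1
    · exact h1 h0.1
    · exact h1 h0.2
  obtain ⟨u, hu⟩ := gcd_dvd_left A B
  obtain ⟨v, hv⟩ := gcd_dvd_right A B
  set g := gcd A B with hg
  have hcop : IsCoprime u v := by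
    have h1 : g * gcd u v ∣ g := by
      have h2 : g * gcd u v ∣ gcd A B := by
        apply GCDMonoid.dvd_gcd
        · rw [hu]; exact mul_dvd_mul_left _ (gcd_dvd_left u v)
        · rw [hv]; exact mul_dvd_mul_left _ (gcd_dvd_right u v)
      exact h2
    have h3 : gcd u v ∣ 1 := by
      rw [← mul_dvd_mul_iff_left hg0, mul_one]
      exact h1
    exact (gcd_isUnit_iff u v).mp (isUnit_of_dvd_one h3)
  have hwuv : wronskian A B = g ^ 2 * wronskian u v := by
    rw [hu, hv]
    unfold wronskian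
    rw [derivative_mul, derivative_mul]
    ring
  rw [hwuv] at hw
  have hw2 : wronskian u v = 0 := by
    rcases mul_eq_zero.mp hw with h1 | h1
    · exact absurd h1 (pow_ne_zero _ hg0)
    · exact h1
  obtain ⟨hu', hv'⟩ := hcop.wronskian_eq_zero_iff.mp hw2
  have hu2 : u = C (u.coeff 0) := eq_C_of_derivative_eq_zero hu'
  have hv2 : v = C (v.coeff 0) := eq_C_of_derivative_eq_zero hv'
  set u0 := u.coeff 0 with hu0
  set v0 := v.coeff 0 with hv0
  have hne2 : (u0 : ℝ) + r * v0 ≠ 0 := by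
    intro h1
    obtain ⟨h2, h3⟩ := t2_irrational F hF r hr u0 v0 h1
    rw [h2, C_0] at hu2
    rw [h3, C_0] at hv2
    rw [hu2] at hu
    rw [hv2] at hv
    rw [mul_zero] at hu hv
    rcases hne with h4 | h4
    · exact h4 hu
    · exact h4 hv
  have hP : A.map (algebraMap ℚ ℝ) + C r * B.map (algebraMap ℚ ℝ) =
      C ((u0 : ℝ) + r * v0) * g.map (algebraMap ℚ ℝ) := by
    rw [hu, hv, hu2, hv2, Polynomial.map_mul, Polynomial.map_mul, map_C, map_C, C_add, C_mul]
    simp only [eq_ratCast]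
    ring
  rw [hP] at h
  have h5 : (X - C r) ^ k ∣ g.map (algebraMap ℚ ℝ) := by
    have h6 : IsUnit (C ((u0 : ℝ) + r * v0)) := isUnit_C.mpr (isUnit_iff_ne_zero.mpr hne2)
    exact (h6.dvd_mul_left).mp h
  have h7 := t2_pow_dvd F hF r hr k g h5
  have h8 : 3 * k ≤ g.natDegree := by
    have h9 := natDegree_le_of_dvd h7 hg0
    rw [natDegree_pow, t2f_natDegree F hF] at h9
    omega
  have h10 : g.natDegree ≤ d := by
    rcases hne with h4 | h4
    · exact (natDegree_le_of_dvd (gcd_dvd_left A B) h4).trans hA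
    · exact (natDegree_le_of_dvd (gcd_dvd_right A B) h4).trans hB
  omega

theorem nonvanish (F : Cub) (hF : F.Irr) (hD : F.disc ≠ 0) (r : ℝ) (hr : IsRoot F r) (k d : ℕ)
    (hk : 1 ≤ k) (hd : d < 3 * k) (A B : ℤ[X]) (hne : A ≠ 0 ∨ B ≠ 0) (hA : A.natDegree ≤ d)
    (hB : B.natDegree ≤ d)
    (hvan : ∀ j < k, aeval r (hasseDeriv j A) + r * aeval r (hasseDeriv j B) = 0) (x y : ℚ) :
    ∃ j : ℕ, j + 3 * k ≤ 2 * d + 3 ∧ aeval x (hasseDeriv j A) + y * aeval x (hasseDeriv j B) ≠ 0 := by
  by_contra hcon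
  push Not at hcon
  set A' : ℚ[X] := A.map (Int.castRingHom ℚ) with hA'
  set B' : ℚ[X] := B.map (Int.castRingHom ℚ) with hB'
  have hne' : A' ≠ 0 ∨ B' ≠ 0 := by
    rcases hne with h | h
    · left
      rw [hA']
      exact (Polynomial.map_ne_zero_iff (RingHom.injective_int _)).mpr h
    · right
      rw [hB']
      exact (Polynomial.map_ne_zero_iff (RingHom.injective_int _)).mpr h
  have hAd : A'.natDegree ≤ d := natDegree_map_le.trans hA
  have hBd : B'.natDegree ≤ d := natDegree_map_le.trans hB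
  have h1 : (X - C r) ^ k ∣ A'.map (algebraMap ℚ ℝ) + C r * B'.map (algebraMap ℚ ℝ) := by
    rw [t2_X_sub_C_pow_dvd]
    intro j hj
    have h2 := hvan j hj
    rw [t2_aeval, t2_aeval] at h2
    rw [map_add, ← smul_eq_C_mul, map_smul, eval_add, eval_smul, smul_eq_mul]
    exact h2
  have hW0 := t2_wr_ne F hF r hr k d hd A' B' hne' hAd hBd h1
  have hWdvd : (t2f F) ^ (k - 1) ∣ wronskian A' B' := by
    apply t2_pow_dvd F hF r hr (k - 1)
    have h2 := t2_wr_dvd _ _ _ _ _ h1
    have h3 : (wronskian A' B').map (algebraMap ℚ ℝ) =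
        wronskian (A'.map (algebraMap ℚ ℝ)) (B'.map (algebraMap ℚ ℝ)) := by
      unfold wronskian
      rw [Polynomial.map_sub, Polynomial.map_mul, Polynomial.map_mul, ← derivative_map,
        ← derivative_map]
    rw [h3]
    exact h2
  obtain ⟨V, hV⟩ := hWdvd
  have hV0 : V ≠ 0 := by
    rintro rfl
    rw [mul_zero] at hV
    exact hW0 hV
  have hf0 : t2f F ≠ 0 := (t2f_irr F hF).ne_zero
  have hdegW : (wronskian A' B').natDegree < A'.natDegree + B'.natDegree :=
    natDegree_wronskian_lt_add hW0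
  have hdegV : (wronskian A' B').natDegree = 3 * (k - 1) + V.natDegree := by
    rw [hV, natDegree_mul (pow_ne_zero _ hf0) hV0, natDegree_pow, t2f_natDegree F hF]
    ring
  have h2 : (X - C x) ^ (2 * d + 3 - 3 * k + 1) ∣ A' + C y * B' := by
    rw [t2_X_sub_C_pow_dvd]
    intro j hj
    have h3 := hcon j (by omega)
    rw [t2_aeval, t2_aeval] at h3
    simp only [Algebra.algebraMap_self, Polynomial.map_id] at h3
    rw [map_add, ← smul_eq_C_mul, map_smul, eval_add, eval_smul, smul_eq_mul]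
    exact h3
  have h3 := t2_wr_dvd _ _ _ _ _ h2
  rw [Nat.add_sub_cancel, hV] at h3
  have hcop : IsCoprime ((X - C x) ^ (2 * d + 3 - 3 * k)) ((t2f F) ^ (k - 1)) := by
    apply IsCoprime.pow
    have h4 : IsCoprime (t2f F) (X - C x) := by
      rw [(t2f_irr F hF).coprime_iff_not_dvd]
      intro h5
      have h6 := natDegree_le_of_dvd h5 (X_sub_C_ne_zero x)
      rw [t2f_natDegree F hF, natDegree_X_sub_C] at h6
      omega
    exact h4.symm
  have h4 := hcop.dvd_of_dvd_mul_left h3
  have h5 := natDegree_le_of_dvd h4 hV0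
  rw [natDegree_pow, natDegree_X_sub_C, mul_one] at h5
  omega

end Pool.Agent.Lib.SqPart
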