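import Pool.Agent.Lib.MP_d8bd92_nt.SqT1
import Pool.Agent.Lib.MP_d8bd92_nt.SqT2

set_option autoImplicit false

/-!
Thue's inequality for two rational approximations.

PROOF. h = F.ht >= 1, |r| <= 1 + h (root bound, F.a a nonzero integer). Take A, B from `siegel_pair` with
H = (C h)^(Ck), x = z.1/z.2, y = w.1/w.2 and j from `nonvanish` (d <= 2k < 3k), N = D_j A(x) + y D_j B(x), not 0
(D_j = hasseDeriv j). z.2^d w.2 N is an integer (natDegree <= d), not 0, so 1 <= |z.2|^d |w.2| |N|.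
N = [D_j A(x) + r D_j B(x)] + (y - r) D_j B(x). With G = A + r B in ℝ[X], natDegree <= d, D_i G(r) = 0 for i < k, Taylor:
D_j G(x) = Σ_(i >= j) C(i,j) D_i G(r) (x-r)^(i-j) (apply `taylor` twice, or expand each monomial), only i >= k contribute, and
|x-r| <= 1, i - j >= k - j >= n (since j + 3k <= 2d+3 and n + 2d + 3 <= 4k), so |D_j G(x)| <=
|x-r|^n (d+1) 2^d max_i |D_i G(r)|, |D_i G(r)| <= (d+1) 2^d H (2+h)^(d+1); |D_j B(x)| <= (d+1) 2^d H (2+h)^d (|x| <= 2 + h).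
As d <= 2k all factors (d+1) 2^d, (2+h)^(d+1) <= (3h)^(3k) are at most (C h)^(Ck).
-/

namespace Pool.Agent.Lib.SqPart

open Finset Polynomial

private theorem t3_bound (P : ℝ[X]) (d j : ℕ) (hP : P.natDegree ≤ d) (M Q t : ℝ) (hM : 0 ≤ M)
    (hQ : 0 ≤ Q) (hc : ∀ i, |P.coeff i| ≤ M) (ht : ∀ i, P.coeff (i + j) ≠ 0 → |t| ^ i ≤ Q) :
    |(hasseDeriv j P).eval t| ≤ ((d : ℝ) + 1) * (2 ^ d * M * Q) := by
  have h1 : (hasseDeriv j P).natDegree < d + 1 := by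
    have := natDegree_hasseDeriv_le P j
    omega
  rw [eval_eq_sum_range' h1]
  refine (Finset.abs_sum_le_sum_abs _ _).trans ?_
  have h2 : ∀ i ∈ Finset.range (d + 1), |(hasseDeriv j P).coeff i * t ^ i| ≤ 2 ^ d * M * Q := by
    intro i _
    rw [hasseDeriv_coeff]
    by_cases h0 : P.coeff (i + j) = 0
    · rw [h0, mul_zero, zero_mul, abs_zero]
      positivity
    · have h3 : i + j ≤ d := (le_natDegree_of_ne_zero h0).trans hP
      rw [abs_mul, abs_mul, abs_pow]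
      have h4 : |(((i + j).choose j : ℕ) : ℝ)| ≤ 2 ^ d := by
        rw [abs_of_nonneg (Nat.cast_nonneg _)]
        have h5 : (i + j).choose j ≤ 2 ^ d :=
          (Nat.choose_le_two_pow _ _).trans (Nat.pow_le_pow_right (by norm_num) h3)
        exact_mod_cast h5
      exact mul_le_mul (mul_le_mul h4 (hc _) (abs_nonneg _) (by positivity)) (ht i h0)
        (by positivity) (by positivity)
  refine (Finset.sum_le_sum h2).trans ?_
  rw [Finset.sum_const, Finset.card_range, nsmul_eq_mul]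
  push_cast
  exact le_rfl

private theorem t3_int (P : ℤ[X]) (d : ℕ) (hP : P.natDegree ≤ d) (a b : ℤ) (hb : b ≠ 0) :
    ∃ m : ℤ, (b : ℚ) ^ d * aeval ((a : ℚ) / b) P = m := by
  have hb' : (b : ℚ) ≠ 0 := by exact_mod_cast hb
  refine ⟨∑ i ∈ Finset.range (d + 1), P.coeff i * a ^ i * b ^ (d - i), ?_⟩
  rw [aeval_eq_sum_range' (Nat.lt_succ_of_le hP), Finset.mul_sum]
  push_cast
  refine Finset.sum_congr rfl fun i hi => ?_
  have hid : i ≤ d := Nat.lt_succ_iff.mp (Finset.mem_range.mp hi)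
  have h1 : (b : ℚ) ^ d = b ^ i * b ^ (d - i) := by
    rw [← pow_add, Nat.add_sub_cancel' hid]
  rw [h1, div_pow, zsmul_eq_mul]
  field_simp

private theorem t3_root_le (F : Cub) (hF : F.Irr) (r : ℝ) (hr : IsRoot F r) :
    1 ≤ (F.ht : ℝ) ∧ |r| ≤ F.ht := by
  have ha : F.a ≠ 0 := by
    intro h
    refine hF (1, 0) (by simp) ?_
    simp [Cub.val, h]
  have ha1 : (1 : ℝ) ≤ |(F.a : ℝ)| := d0_one_le F.a ha
  have hht : (F.ht : ℝ) = |(F.a : ℝ)| + |(F.b : ℝ)| + |(F.c : ℝ)| + |(F.d : ℝ)| := by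
    unfold Cub.ht
    push_cast
    rfl
  have hb0 := abs_nonneg (F.b : ℝ)
  have hc0 := abs_nonneg (F.c : ℝ)
  have hd0 := abs_nonneg (F.d : ℝ)
  have h1 : 1 ≤ (F.ht : ℝ) := by linarith
  refine ⟨h1, ?_⟩
  by_cases hr1 : |r| ≤ 1
  · exact hr1.trans h1
  · push Not at hr1
    have hr0 : 0 < |r| := by linarith
    unfold IsRoot at hr
    have h2 : (F.a : ℝ) * r ^ 3 = -((F.b : ℝ) * r ^ 2 + F.c * r + F.d) := by linarith
    have h3 : |(F.a : ℝ)| * |r| ^ 3 ≤ |(F.b : ℝ)| * |r| ^ 2 + |(F.c : ℝ)| * |r| + |(F.d : ℝ)| := by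
      rw [← abs_pow, ← abs_mul, h2, abs_neg]
      refine (abs_add_le _ _).trans (add_le_add ((abs_add_le _ _).trans ?_) le_rfl)
      rw [abs_mul, abs_mul, abs_pow]
    have h4 : |r| ^ 3 ≤ (|(F.b : ℝ)| + |(F.c : ℝ)| + |(F.d : ℝ)|) * |r| ^ 2 := by
      have h5 : |r| ^ 3 ≤ |(F.a : ℝ)| * |r| ^ 3 := le_mul_of_one_le_left (by positivity) ha1
      have h6 : |r| ≤ |r| ^ 2 := by nlinarith
      have h7 : (1 : ℝ) ≤ |r| ^ 2 := by nlinarith
      have h8 : |(F.c : ℝ)| * |r| ≤ |(F.c : ℝ)| * |r| ^ 2 := mul_le_mul_of_nonneg_left h6 hc0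
      have h9 : |(F.d : ℝ)| * 1 ≤ |(F.d : ℝ)| * |r| ^ 2 := mul_le_mul_of_nonneg_left h7 hd0
      nlinarith
    have h5 : |r| * |r| ^ 2 ≤ (|(F.b : ℝ)| + |(F.c : ℝ)| + |(F.d : ℝ)|) * |r| ^ 2 := by
      calc |r| * |r| ^ 2 = |r| ^ 3 := by ring
        _ ≤ _ := h4
    have h6 := le_of_mul_le_mul_right h5 (by positivity)
    linarith [abs_nonneg (F.a : ℝ)]

private theorem t3_map_hasse {R S : Type*} [CommRing R] [CommRing S] (φ : R →+* S) (j : ℕ)
    (P : R[X]) : (hasseDeriv j P).map φ = hasseDeriv j (P.map φ) := by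
  ext n
  rw [coeff_map, hasseDeriv_coeff, hasseDeriv_coeff, coeff_map, map_mul, map_natCast]

private theorem t3_aeval (x : ℝ) (j : ℕ) (P : ℤ[X]) :
    aeval x (hasseDeriv j P) = (hasseDeriv j (P.map (Int.castRingHom ℝ))).eval x := by
  rw [← t3_map_hasse, aeval_def, eval₂_eq_eval_map]
  congr 2

private theorem t3_cast (x : ℚ) (P : ℤ[X]) : ((aeval x P : ℚ) : ℝ) = aeval (x : ℝ) P := by
  have h := aeval_algebraMap_apply ℝ x P
  simpa using h.symm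

/-- The upper bound for the value of the auxiliary polynomial. -/
private theorem t3_upper (h H : ℝ) (h1 : 1 ≤ h) (hH : 0 ≤ H) (r : ℝ) (hr : |r| ≤ h) (k d n j : ℕ)
    (hn : n + j ≤ k) (A B : ℝ[X]) (hA : A.natDegree ≤ d) (hB : B.natDegree ≤ d)
    (hcA : ∀ i, |A.coeff i| ≤ H) (hcB : ∀ i, |B.coeff i| ≤ H)
    (hvan : ∀ j < k, (hasseDeriv j A).eval r + r * (hasseDeriv j B).eval r = 0) (x y : ℝ)
    (hx : |r - x| ≤ 1) :
    |(hasseDeriv j A).eval x + y * (hasseDeriv j B).eval x| ≤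
      ((d : ℝ) + 1) ^ 2 * 4 ^ d * H * (2 * h) ^ (d + 1) * (|r - x| ^ n + |r - y|) := by
  set G : ℝ[X] := A + C r * B with hG
  have hGd : G.natDegree ≤ d := by
    refine (natDegree_add_le _ _).trans (max_le hA ?_)
    exact (natDegree_C_mul_le _ _).trans hB
  have hGc : ∀ i, |G.coeff i| ≤ 2 * h * H := by
    intro i
    rw [hG, coeff_add, coeff_C_mul]
    refine (abs_add_le _ _).trans ?_
    rw [abs_mul]
    have h2 : |r| * |B.coeff i| ≤ h * H := mul_le_mul hr (hcB i) (abs_nonneg _) (by linarith)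
    have h3 := hcA i
    nlinarith
  set T : ℝ[X] := taylor r G with hT
  have hTd : T.natDegree ≤ d := by rw [hT, natDegree_taylor]; exact hGd
  have hT0 : ∀ i < k, T.coeff i = 0 := by
    intro i hi
    rw [hT, taylor_coeff, hG, ← smul_eq_C_mul, map_add, map_smul, eval_add, eval_smul,
      smul_eq_mul]
    exact hvan i hi
  have hd1 : (0 : ℝ) ≤ (d : ℝ) + 1 := by positivity
  have hTc : ∀ i, |T.coeff i| ≤ ((d : ℝ) + 1) * (2 ^ d * (2 * h * H) * h ^ d) := by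
    intro i
    rw [hT, taylor_coeff]
    refine t3_bound G d i hGd (2 * h * H) (h ^ d) r (by positivity) (by positivity) hGc ?_
    intro m hm
    have h3 : m + i ≤ d := (le_natDegree_of_ne_zero hm).trans hGd
    calc |r| ^ m ≤ h ^ m := pow_le_pow_left₀ (abs_nonneg _) hr m
      _ ≤ h ^ d := pow_le_pow_right₀ h1 (by omega)
  have hGx : (hasseDeriv j G).eval x = (hasseDeriv j T).eval (x - r) := by
    rw [← taylor_coeff, ← taylor_coeff, hT, taylor_taylor, sub_add_cancel]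
  have hGb : |(hasseDeriv j G).eval x| ≤ ((d : ℝ) + 1) *
      (2 ^ d * (((d : ℝ) + 1) * (2 ^ d * (2 * h * H) * h ^ d)) * |r - x| ^ n) := by
    rw [hGx]
    refine t3_bound T d j hTd _ _ _ (by positivity) (by positivity) hTc ?_
    intro m hm
    have h3 : k ≤ m + j := by
      by_contra hlt
      exact hm (hT0 _ (by omega))
    rw [abs_sub_comm]
    exact pow_le_pow_of_le_one (abs_nonneg _) hx (by omega)
  have hxh : |x| ≤ 2 * h := by
    have h3 : |x| ≤ |r| + |r - x| := by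
      have h4 := abs_sub_abs_le_abs_sub x r
      rw [abs_sub_comm] at h4
      linarith
    linarith
  have hBb : |(hasseDeriv j B).eval x| ≤ ((d : ℝ) + 1) * (2 ^ d * H * (2 * h) ^ d) := by
    refine t3_bound B d j hB _ _ _ hH (by positivity) hcB ?_
    intro m hm
    have h3 : m + j ≤ d := (le_natDegree_of_ne_zero hm).trans hB
    calc |x| ^ m ≤ (2 * h) ^ m := pow_le_pow_left₀ (abs_nonneg _) hxh m
      _ ≤ (2 * h) ^ d := pow_le_pow_right₀ (by linarith) (by omega)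
  have hsplit : (hasseDeriv j A).eval x + y * (hasseDeriv j B).eval x =
      (hasseDeriv j G).eval x + (y - r) * (hasseDeriv j B).eval x := by
    rw [hG, ← smul_eq_C_mul, map_add, map_smul, eval_add, eval_smul, smul_eq_mul]
    ring
  rw [hsplit]
  refine (abs_add_le _ _).trans ?_
  rw [abs_mul, abs_sub_comm y r, mul_add]
  have hE0 : (0 : ℝ) ≤ ((d : ℝ) + 1) ^ 2 * 4 ^ d * H := by positivity
  have h4d : (4 : ℝ) ^ d = 2 ^ d * 2 ^ d := by
    rw [← mul_pow]; norm_num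
  refine add_le_add (hGb.trans ?_) ?_
  · have h5 : (2 * h) * h ^ d ≤ (2 * h) ^ (d + 1) := by
      rw [pow_succ', mul_pow]
      refine mul_le_mul_of_nonneg_left ?_ (by linarith)
      refine le_mul_of_one_le_left (by positivity) ?_
      exact one_le_pow₀ (by norm_num)
    have h6 : ((d : ℝ) + 1) * (2 ^ d * (((d : ℝ) + 1) * (2 ^ d * (2 * h * H) * h ^ d)) *
        |r - x| ^ n) = ((d : ℝ) + 1) ^ 2 * 4 ^ d * H * ((2 * h) * h ^ d) * |r - x| ^ n := by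
      rw [h4d]; ring
    rw [h6]
    exact mul_le_mul_of_nonneg_right (mul_le_mul_of_nonneg_left h5 hE0) (by positivity)
  · have h5 : ((d : ℝ) + 1) * (2 ^ d * H * (2 * h) ^ d) ≤
        ((d : ℝ) + 1) ^ 2 * 4 ^ d * H * (2 * h) ^ (d + 1) := by
      have h6 : (2 * h) ^ d ≤ (2 * h) ^ (d + 1) := pow_le_pow_right₀ (by linarith) (by omega)
      have h7 : ((d : ℝ) + 1) * (2 ^ d * H) ≤ ((d : ℝ) + 1) ^ 2 * 4 ^ d * H := by
        have h8 : (1 : ℝ) ≤ ((d : ℝ) + 1) := by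
          have : (0 : ℝ) ≤ d := Nat.cast_nonneg d
          linarith
        have h9 : (1 : ℝ) ≤ 2 ^ d := one_le_pow₀ (by norm_num)
        have h10 : ((d : ℝ) + 1) ^ 2 * 4 ^ d * H =
            (((d : ℝ) + 1) * (2 ^ d * H)) * (((d : ℝ) + 1) * 2 ^ d) := by
          rw [h4d]; ring
        rw [h10]
        refine le_mul_of_one_le_right (by positivity) ?_
        nlinarith
      calc ((d : ℝ) + 1) * (2 ^ d * H * (2 * h) ^ d) = ((d : ℝ) + 1) * (2 ^ d * H) * (2 * h) ^ d := by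
            ring
        _ ≤ _ := mul_le_mul h7 h6 (by positivity) hE0
    calc |r - y| * |(hasseDeriv j B).eval x| ≤
          |r - y| * (((d : ℝ) + 1) * (2 ^ d * H * (2 * h) ^ d)) :=
          mul_le_mul_of_nonneg_left hBb (abs_nonneg _)
      _ ≤ |r - y| * (((d : ℝ) + 1) ^ 2 * 4 ^ d * H * (2 * h) ^ (d + 1)) :=
          mul_le_mul_of_nonneg_left h5 (abs_nonneg _)
      _ = _ := by ring

/-- The parameters. -/
private theorem t3_param (C h : ℝ) (hC : 1 ≤ C) (h1 : 1 ≤ h) (k d : ℕ) (hk : 1 ≤ k)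
    (hd : d ≤ 2 * k) :
    ((d : ℝ) + 1) ^ 2 * 4 ^ d * (C * h) ^ (C * (k : ℝ)) * (2 * h) ^ (d + 1) ≤
      ((C + 11) * h) ^ ((C + 11) * (k : ℝ)) := by
  have hbase : 0 < (C + 11) * h := by positivity
  have h2 : ((C + 11) * h) ^ ((C + 11) * (k : ℝ)) =
      ((C + 11) * h) ^ (C * (k : ℝ)) * ((C + 11) * h) ^ (11 * k) := by
    rw [← Real.rpow_natCast, ← Real.rpow_add hbase]
    congr 1
    push_cast
    ring
  have h3 : (C * h) ^ (C * (k : ℝ)) ≤ ((C + 11) * h) ^ (C * (k : ℝ)) := by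
    refine Real.rpow_le_rpow (by positivity) ?_ (by positivity)
    nlinarith
  have h4 : ((d : ℝ) + 1) ^ 2 * 4 ^ d ≤ (2 : ℝ) ^ (8 * k) := by
    have h5 : ((d : ℝ) + 1) ≤ 2 ^ d := by
      have h6 : d + 1 ≤ 2 ^ d := Nat.lt_two_pow_self
      exact_mod_cast h6
    have h7 : ((d : ℝ) + 1) ^ 2 ≤ (2 ^ d) ^ 2 := pow_le_pow_left₀ (by positivity) h5 2
    calc ((d : ℝ) + 1) ^ 2 * 4 ^ d ≤ (2 ^ d) ^ 2 * 4 ^ d :=
          mul_le_mul_of_nonneg_right h7 (by positivity)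
      _ = (2 : ℝ) ^ (4 * d) := by
          have h44 : (4 : ℝ) ^ d = (2 ^ d) ^ 2 := by rw [← pow_mul, mul_comm, pow_mul]; norm_num
          rw [h44, ← pow_mul, ← pow_add]
          congr 1
          ring
      _ ≤ (2 : ℝ) ^ (8 * k) := pow_le_pow_right₀ (by norm_num) (by omega)
  have h5 : (2 * h) ^ (d + 1) ≤ ((C + 11) * h) ^ (3 * k) := by
    calc (2 * h) ^ (d + 1) ≤ (2 * h) ^ (3 * k) := pow_le_pow_right₀ (by linarith) (by omega)
      _ ≤ _ := pow_le_pow_left₀ (by linarith) (by nlinarith) _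
  have h6 : (2 : ℝ) ^ (8 * k) ≤ ((C + 11) * h) ^ (8 * k) :=
    pow_le_pow_left₀ (by norm_num) (by nlinarith) _
  have hpos : 0 ≤ (C * h) ^ (C * (k : ℝ)) := Real.rpow_nonneg (by positivity) _
  calc ((d : ℝ) + 1) ^ 2 * 4 ^ d * (C * h) ^ (C * (k : ℝ)) * (2 * h) ^ (d + 1)
      ≤ ((C + 11) * h) ^ (8 * k) * ((C + 11) * h) ^ (C * (k : ℝ)) * ((C + 11) * h) ^ (3 * k) := by
        refine mul_le_mul (mul_le_mul (h4.trans h6) h3 hpos (by positivity)) h5 (by positivity) ?_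
        exact mul_nonneg (by positivity) (Real.rpow_nonneg (by positivity) _)
    _ = _ := by
        rw [h2, show 11 * k = 8 * k + 3 * k by ring, pow_add]
        ring

theorem thue_ineq : ∃ C : ℝ, 1 ≤ C ∧ ∀ F : Cub, F.Irr → F.disc ≠ 0 → ∀ r : ℝ, IsRoot F r →
    ∀ k d n : ℕ, 1 ≤ k → 151 * k ≤ 100 * d → d ≤ 2 * k → n + 2 * d + 3 ≤ 4 * k →
    ∀ z w : ℤ × ℤ, z.2 ≠ 0 → w.2 ≠ 0 → |r - (z.1 : ℝ) / z.2| ≤ 1 →
    1 ≤ (C * F.ht) ^ (C * k) * (|(z.2 : ℝ)| ^ d * |(w.2 : ℝ)| *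
      (|r - (z.1 : ℝ) / z.2| ^ n + |r - (w.1 : ℝ) / w.2|)) := by
  obtain ⟨C₁, hC₁, hsieg⟩ := siegel_pair
  refine ⟨C₁ + 11, by linarith, ?_⟩
  intro F hF hD r hr k d n hk h151 hd2 hn z w hz hw hxr
  obtain ⟨hh1, hrh⟩ := t3_root_le F hF r hr
  obtain ⟨A, B, hne, hA, hB, hcA, hcB, hvan⟩ := hsieg F hF r hr k d hk h151 hd2
  obtain ⟨j, hj, hN⟩ := nonvanish F hF hD r hr k d hk (by omega) A B hne hA hB hvan
    ((z.1 : ℚ) / z.2) ((w.1 : ℚ) / w.2)
  set N : ℚ := aeval ((z.1 : ℚ) / z.2) (hasseDeriv j A) +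
    (w.1 : ℚ) / w.2 * aeval ((z.1 : ℚ) / z.2) (hasseDeriv j B) with hNdef
  have hz' : (z.2 : ℚ) ≠ 0 := by exact_mod_cast hz
  have hw' : (w.2 : ℚ) ≠ 0 := by exact_mod_cast hw
  obtain ⟨m₁, hm₁⟩ := t3_int (hasseDeriv j A) d
    ((natDegree_hasseDeriv_le A j).trans ((Nat.sub_le _ _).trans hA)) z.1 z.2 hz
  obtain ⟨m₂, hm₂⟩ := t3_int (hasseDeriv j B) d
    ((natDegree_hasseDeriv_le B j).trans ((Nat.sub_le _ _).trans hB)) z.1 z.2 hz
  have hint : (z.2 : ℚ) ^ d * w.2 * N = ((m₁ * w.2 + w.1 * m₂ : ℤ) : ℚ) := by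
    push_cast
    rw [← hm₁, ← hm₂, hNdef]
    field_simp
  have hne0 : (m₁ * w.2 + w.1 * m₂ : ℤ) ≠ 0 := by
    intro h0
    rw [h0, Int.cast_zero] at hint
    exact (mul_ne_zero (mul_ne_zero (pow_ne_zero _ hz') hw') hN) hint
  have h1 : (1 : ℝ) ≤ |(z.2 : ℝ)| ^ d * |(w.2 : ℝ)| * |(N : ℝ)| := by
    have h2 : (z.2 : ℝ) ^ d * w.2 * (N : ℝ) = ((m₁ * w.2 + w.1 * m₂ : ℤ) : ℝ) := by
      exact_mod_cast congrArg (fun q : ℚ => (q : ℝ)) hint
    rw [← abs_pow, ← abs_mul, ← abs_mul, h2]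
    exact d0_one_le _ hne0
  set H : ℝ := (C₁ * F.ht) ^ (C₁ * (k : ℝ)) with hHdef
  have hH0 : 0 ≤ H := Real.rpow_nonneg (by positivity) _
  set x : ℝ := (z.1 : ℝ) / z.2 with hx
  set y : ℝ := (w.1 : ℝ) / w.2 with hy
  have hNr : (N : ℝ) = (hasseDeriv j (A.map (Int.castRingHom ℝ))).eval x +
      y * (hasseDeriv j (B.map (Int.castRingHom ℝ))).eval x := by
    rw [hNdef, Rat.cast_add, Rat.cast_mul, t3_cast, t3_cast, ← t3_aeval, ← t3_aeval]
    simp only [Rat.cast_div, Rat.cast_intCast]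
    rfl
  have hup := t3_upper (F.ht : ℝ) H hh1 hH0 r hrh k d n j (by omega)
    (A.map (Int.castRingHom ℝ)) (B.map (Int.castRingHom ℝ)) (natDegree_map_le.trans hA)
    (natDegree_map_le.trans hB) (by intro i; rw [coeff_map]; exact hcA i)
    (by intro i; rw [coeff_map]; exact hcB i)
    (by intro i hi; rw [← t3_aeval, ← t3_aeval]; exact hvan i hi) x y hxr
  rw [← hNr] at hup
  have hpar := t3_param C₁ (F.ht : ℝ) hC₁ hh1 k d hk hd2
  have hS0 : 0 ≤ |r - x| ^ n + |r - y| := by positivity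
  have hN2 : |(N : ℝ)| ≤ ((C₁ + 11) * F.ht) ^ ((C₁ + 11) * (k : ℝ)) * (|r - x| ^ n + |r - y|) :=
    hup.trans (mul_le_mul_of_nonneg_right hpar hS0)
  calc (1 : ℝ) ≤ |(z.2 : ℝ)| ^ d * |(w.2 : ℝ)| * |(N : ℝ)| := h1
    _ ≤ |(z.2 : ℝ)| ^ d * |(w.2 : ℝ)| *
        (((C₁ + 11) * F.ht) ^ ((C₁ + 11) * (k : ℝ)) * (|r - x| ^ n + |r - y|)) :=
        mul_le_mul_of_nonneg_left hN2 (by positivity)
    _ = _ := by ring

end Pool.Agent.Lib.SqPart
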