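import Pool.Agent.Lib.MP_d8bd92_nt.SqT3

set_option autoImplicit false

/-!
Two very good approximations cannot be far apart.

PROOF. C0 the constant of `thue_ineq`, h = F.ht >= 1. Choose C so large that C (hM)^C <= q1 := |z.2| implies q1 >= 4,
(C0 h)^(C0) <= q1^(1/100), M <= q1^(1/100) (C = (4 C0)^(100 C0) ... say C = 100 C0 + (4 C0)^(100 C0) + 4). Suppose
q2 := |w.2| > q1^30, λ = log q2/log q1 >= 30. Let k = ⌈(λ + 16.45)/1.4102⌉, d = ⌈1.51 k⌉ (151k <= 100 d <= 151 k + 99),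
n = 4k - 2d - 3 (>= 0.98 k - 5 > 0), d <= 2k. By thue_ineq with |r - z.1/z.2| <= M/q1^3 <= 1, M/q2^3:
1 <= q1^(0.01 k) q1^d q2 ((M/q1^3)^n + M/q2^3) <= q1^(0.01k + d - 2.99 n) q2 + q1^(0.01 k + d + 0.01) q2^(-2).
First exponent: 0.01 k + 1.51 k + 1 - 2.99 (0.98 k - 5) <= -1.4102 k + 15.95, and q2 = q1^λ with
1.4102 k >= λ + 16.45: the first term is at most q1^(-1/2) <= 1/2. Second: 0.01k + 1.51k + 1 + 0.01 = 1.52 k + 1.01,
k <= (λ+16.45)/1.4102 + 1 <= 0.7092 λ + 12.67, so 1.52 k + 1.01 <= 1.078 λ + 20.27 <= 2λ - 1 as λ >= 30 (0.922·30 = 27.66),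
and the second term is at most q1^(-1) <= 1/4. Sum < 1: contradiction.
-/

namespace Pool.Agent.Lib.SqPart

open Finset

theorem t4_ht {F : Cub} (hF : F.Irr) : (1 : ℝ) ≤ (F.ht : ℝ) := by
  have ha : F.a ≠ 0 := by
    intro h
    refine hF (1, 0) (by simp) ?_
    simp [Cub.val, h]
  have h1 : 1 ≤ |F.a| := Int.one_le_abs ha
  have h2 : 1 ≤ F.ht := by
    unfold Cub.ht
    have := abs_nonneg F.b
    have := abs_nonneg F.c
    have := abs_nonneg F.d
    omega
  exact_mod_cast h2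

/-- choice of the parameters -/
theorem t4_param {l : ℝ} (hl : 30 < l) : ∃ k d n : ℕ, 1 ≤ k ∧ 151 * k ≤ 100 * d ∧ d ≤ 2 * k ∧ n + 2 * d + 3 ≤ 4 * k ∧
    (k : ℝ) / 100 + d + l - 299 / 100 * n ≤ -(1 / 2) ∧ (k : ℝ) / 100 + d + 1 / 100 - 2 * l ≤ -1 := by
  set k : ℕ := ⌈(l + 16.45) / 1.4102⌉₊ with hk
  have h1 : (l + 16.45) / 1.4102 ≤ (k : ℝ) := Nat.le_ceil _
  have h2 : (k : ℝ) < (l + 16.45) / 1.4102 + 1 := Nat.ceil_lt_add_one (by positivity)
  rw [div_le_iff₀ (by norm_num)] at h1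
  have h2' : ((k : ℝ) - 1) * 1.4102 < l + 16.45 := by
    rw [← lt_div_iff₀ (by norm_num)]
    linarith
  have hk33 : (32 : ℝ) < k := by linarith
  have hk33' : 32 < k := by exact_mod_cast hk33
  obtain ⟨d, hd1, hd2⟩ : ∃ d : ℕ, 151 * k ≤ 100 * d ∧ 100 * d ≤ 151 * k + 99 := ⟨(151 * k + 99) / 100, by omega, by omega⟩
  obtain ⟨n, hn⟩ : ∃ n : ℕ, n + 2 * d + 3 = 4 * k := ⟨4 * k - 2 * d - 3, by omega⟩
  have hn' : (n : ℝ) = 4 * k - 2 * d - 3 := by
    have : ((n + 2 * d + 3 : ℕ) : ℝ) = ((4 * k : ℕ) : ℝ) := by rw [hn]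
    push_cast at this
    linarith
  have hd2' : 100 * (d : ℝ) ≤ 151 * k + 99 := by exact_mod_cast hd2
  refine ⟨k, d, n, by omega, hd1, by omega, by omega, ?_, ?_⟩
  · rw [hn']
    linarith
  · linarith

theorem thue_gap : ∃ C : ℝ, 1 ≤ C ∧ ∀ F : Cub, F.Irr → F.disc ≠ 0 → ∀ r : ℝ, IsRoot F r →
    ∀ M : ℝ, 1 ≤ M → ∀ z w : ℤ × ℤ, C * ((F.ht : ℝ) * M) ^ C ≤ |(z.2 : ℝ)| → w.2 ≠ 0 →
    |r - (z.1 : ℝ) / z.2| ≤ M / |(z.2 : ℝ)| ^ 3 → |r - (w.1 : ℝ) / w.2| ≤ M / |(w.2 : ℝ)| ^ 3 →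
    |(w.2 : ℝ)| ≤ |(z.2 : ℝ)| ^ (30 : ℕ) := by
  obtain ⟨C0, hC0, hT⟩ := thue_ineq
  set C : ℝ := 4 + 100 * C0 + C0 ^ (100 * C0) with hC
  have hC0pos : 0 < C0 := by linarith
  have hpow : 0 < C0 ^ (100 * C0) := Real.rpow_pos_of_pos hC0pos _
  have hC4 : 4 ≤ C := by linarith
  have hC100 : 100 * C0 ≤ C := by linarith
  refine ⟨C, by linarith, ?_⟩
  intro F hF hdisc r hr M hM z w hz hw hrz hrw
  have hh := t4_ht hF
  set h : ℝ := (F.ht : ℝ) with hhdef
  have hhM : 1 ≤ h * M := one_le_mul_of_one_le_of_one_le hh hM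
  set q1 : ℝ := |(z.2 : ℝ)| with hq1
  set q2 : ℝ := |(w.2 : ℝ)| with hq2
  have hpw : 1 ≤ (h * M) ^ C := Real.one_le_rpow hhM (by linarith)
  have hq14 : 4 ≤ q1 := by
    have : C * 1 ≤ C * (h * M) ^ C := mul_le_mul_of_nonneg_left hpw (by linarith)
    linarith
  have hq1pos : 0 < q1 := by linarith
  have hz0 : z.2 ≠ 0 := by
    intro h0
    rw [hq1, h0] at hq1pos
    simp at hq1pos
  have hq21 : 1 ≤ q2 := by
    rw [hq2]
    have := Int.one_le_abs hw
    exact_mod_cast this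
  have hq2pos : 0 < q2 := by linarith
  by_contra hcon
  push Not at hcon
  set L : ℝ := Real.log q1 with hL
  set Λ : ℝ := Real.log q2 with hΛ
  have hLpos : 0 < L := Real.log_pos (by linarith)
  have hq1e : q1 = Real.exp L := (Real.exp_log hq1pos).symm
  have hq2e : q2 = Real.exp Λ := (Real.exp_log hq2pos).symm
  have hΛL : 30 * L < Λ := by
    have := Real.log_lt_log (by positivity) hcon
    rw [Real.log_pow] at this
    exact_mod_cast this
  -- logarithm of the hypothesis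
  have hlog : Real.log C + C * Real.log (h * M) ≤ L := by
    have h1 := Real.log_le_log (by positivity) hz
    rw [Real.log_mul (by linarith) (by linarith), Real.log_rpow (by linarith)] at h1
    exact h1
  have hlogh : 0 ≤ Real.log h := Real.log_nonneg hh
  have hlogM : 0 ≤ Real.log M := Real.log_nonneg hM
  have hlogC0 : 0 ≤ Real.log C0 := Real.log_nonneg hC0
  rw [Real.log_mul (by linarith) (by linarith)] at hlog
  have hlogC : 100 * C0 * Real.log C0 ≤ Real.log C := by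
    have h1 : C0 ^ (100 * C0) ≤ C := by linarith
    have h2 := Real.log_le_log hpow h1
    rwa [Real.log_rpow hC0pos] at h2
  have hlogC' : 0 ≤ Real.log C := Real.log_nonneg (by linarith)
  have e1 : C * Real.log h ≥ 100 * C0 * Real.log h := mul_le_mul_of_nonneg_right hC100 hlogh
  have e2 : C * Real.log M ≥ 100 * Real.log M := mul_le_mul_of_nonneg_right (by linarith) hlogM
  have e3 : 0 ≤ C * Real.log h := mul_nonneg (by linarith) hlogh
  have e4 : 0 ≤ C * Real.log M := mul_nonneg (by linarith) hlogM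
  have hMe : M ≤ Real.exp (L / 100) := by
    rw [← Real.log_le_iff_le_exp (by linarith)]
    linarith
  have hC0h : C0 * Real.log (C0 * h) ≤ L / 100 := by
    rw [Real.log_mul (by linarith) (by linarith)]
    linarith
  obtain ⟨k, d, n, hk, hd1, hd2, hn, hE1, hE2⟩ := t4_param (l := Λ / L) (by rw [lt_div_iff₀ hLpos]; exact hΛL)
  have hE1' : (k : ℝ) / 100 * L + d * L + Λ - 299 / 100 * n * L ≤ -(1 / 2) * L := by
    have h1 := mul_le_mul_of_nonneg_right hE1 hLpos.le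
    have h2 : ((k : ℝ) / 100 + d + Λ / L - 299 / 100 * n) * L =
        (k : ℝ) / 100 * L + d * L + Λ - 299 / 100 * n * L := by
      field_simp
    rwa [h2] at h1
  have hE2' : (k : ℝ) / 100 * L + d * L + L / 100 - 2 * Λ ≤ -L := by
    have h1 := mul_le_mul_of_nonneg_right hE2 hLpos.le
    have h2 : ((k : ℝ) / 100 + d + 1 / 100 - 2 * (Λ / L)) * L =
        (k : ℝ) / 100 * L + d * L + L / 100 - 2 * Λ := by
      field_simp
    rw [h2] at h1
    linarith
  have hz1 : |r - (z.1 : ℝ) / z.2| ≤ Real.exp (-(299 / 100 * L)) := by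
    refine hrz.trans ?_
    rw [hq1e, ← Real.exp_nat_mul, div_le_iff₀ (Real.exp_pos _), ← Real.exp_add]
    refine hMe.trans (Real.exp_le_exp.2 (le_of_eq ?_))
    push_cast
    ring
  have hw1 : |r - (w.1 : ℝ) / w.2| ≤ Real.exp (L / 100 - 3 * Λ) := by
    refine hrw.trans ?_
    rw [hq2e, ← Real.exp_nat_mul, div_le_iff₀ (Real.exp_pos _), ← Real.exp_add]
    refine hMe.trans (Real.exp_le_exp.2 (le_of_eq ?_))
    push_cast
    ring
  have hmain := hT F hF hdisc r hr k d n hk hd1 hd2 hn z w hz0 hw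
    (hz1.trans (by rw [Real.exp_le_one_iff]; linarith))
  have f1 : (C0 * h) ^ (C0 * k) ≤ Real.exp ((k : ℝ) / 100 * L) := by
    rw [Real.rpow_def_of_pos (by positivity)]
    refine Real.exp_le_exp.2 ?_
    have h1 := mul_le_mul_of_nonneg_right hC0h (Nat.cast_nonneg (α := ℝ) k)
    linarith
  have f2 : q1 ^ d * q2 = Real.exp (d * L + Λ) := by
    rw [hq1e, hq2e, ← Real.exp_nat_mul, Real.exp_add]
  have f3 : |r - (z.1 : ℝ) / z.2| ^ n ≤ Real.exp (-(299 / 100 * n * L)) := by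
    refine (pow_le_pow_left₀ (abs_nonneg _) hz1 n).trans (le_of_eq ?_)
    rw [← Real.exp_nat_mul]
    congr 1
    ring
  have f4 : 1 ≤ Real.exp ((k : ℝ) / 100 * L) * (Real.exp (d * L + Λ) *
      (Real.exp (-(299 / 100 * n * L)) + Real.exp (L / 100 - 3 * Λ))) := by
    refine hmain.trans ?_
    rw [f2]
    refine mul_le_mul f1 ?_ ?_ (Real.exp_pos _).le
    · exact mul_le_mul_of_nonneg_left (add_le_add f3 hw1) (Real.exp_pos _).le
    · exact mul_nonneg (Real.exp_pos _).le (add_nonneg (pow_nonneg (abs_nonneg _) _) (abs_nonneg _))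
  rw [mul_add, mul_add, ← Real.exp_add, ← Real.exp_add, ← Real.exp_add, ← Real.exp_add] at f4
  have g1 : Real.exp ((k : ℝ) / 100 * L + (d * L + Λ + -(299 / 100 * n * L))) ≤ 1 / 2 := by
    have h1 : Real.exp ((k : ℝ) / 100 * L + (d * L + Λ + -(299 / 100 * n * L))) ≤ Real.exp (-(1 / 2) * L) :=
      Real.exp_le_exp.2 (by linarith)
    refine h1.trans ?_
    have h2 : Real.exp (-(1 / 2) * L) ^ 2 = 1 / q1 := by
      have h4 : (1 : ℝ) / q1 = Real.exp (-L) := by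
        rw [Real.exp_neg, ← hq1e, one_div]
      rw [h4, ← Real.exp_nat_mul]
      congr 1
      push_cast
      ring
    have h3 : Real.exp (-(1 / 2) * L) ^ 2 ≤ (1 / 2) ^ 2 := by
      rw [h2, div_le_iff₀ hq1pos]
      linarith
    exact le_of_pow_le_pow_left₀ (by norm_num) (by norm_num) h3
  have g2 : Real.exp ((k : ℝ) / 100 * L + (d * L + Λ + (L / 100 - 3 * Λ))) ≤ 1 / 4 := by
    have h1 : Real.exp ((k : ℝ) / 100 * L + (d * L + Λ + (L / 100 - 3 * Λ))) ≤ Real.exp (-L) :=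
      Real.exp_le_exp.2 (by linarith)
    refine h1.trans ?_
    rw [Real.exp_neg, ← hq1e, ← one_div, div_le_iff₀ hq1pos]
    linarith
  linarith

end Pool.Agent.Lib.SqPart
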