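import Pool.Agent.Lib.MP_d8bd92_nt.SqD2
import Pool.Agent.Lib.MP_d8bd92_nt.SqT4

set_option autoImplicit false

/-!
The number of very large solutions is bounded by an absolute constant.
-/

namespace Pool.Agent.Lib.SqPart

open Finset Cub

theorem t5_y {κ P v u y s : ℝ} (hκ : 1 ≤ κ) (hP : 1 ≤ P) (hu0 : 0 ≤ u) (hy0 : 0 ≤ y)
    (hN : 48 * κ ^ 6 * P ^ 2 ≤ v) (hu : u * v ^ 2 ≤ 6 * κ ^ 3 * P)
    (hs1 : 1 ≤ s * κ) (hs2 : s ≤ κ ^ 3)
    (h1 : v - 4 * P * κ * u ≤ 2 * (s * y)) (h2 : 2 * (s * y) ≤ v + 4 * P * κ * u) :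
    v ≤ y ^ 2 ∧ y ≤ v ^ 2 ∧ u * y ^ 2 ≤ 6 * κ ^ 5 * P := by
  have hκ0 : 0 < κ := by linarith
  have hP0 : 0 < P := by linarith
  have hκ6 : κ ≤ κ ^ 6 := le_self_pow₀ hκ (by norm_num)
  have hκ4 : κ ^ 4 ≤ κ ^ 6 := pow_le_pow_right₀ hκ (by norm_num)
  have hP2 : 1 ≤ P ^ 2 := one_le_pow₀ hP
  have hκ61 : 1 ≤ κ ^ 6 := one_le_pow₀ hκ
  have hκP : κ ^ 6 ≤ κ ^ 6 * P ^ 2 := le_mul_of_one_le_right (by linarith) hP2
  have hv1 : 1 ≤ v := by linarith
  have hv0 : 0 < v := by linarith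
  have hv2 : 1 ≤ v ^ 2 := one_le_pow₀ hv1
  have ha : 4 * P * κ * u ≤ v / 2 := by
    have e1 : (4 * P * κ * u) * v ^ 2 ≤ (v / 2) * v ^ 2 := by
      calc (4 * P * κ * u) * v ^ 2 = 4 * P * κ * (u * v ^ 2) := by ring
        _ ≤ 4 * P * κ * (6 * κ ^ 3 * P) := mul_le_mul_of_nonneg_left hu (by positivity)
        _ = 24 * (κ ^ 4 * P ^ 2) := by ring
        _ ≤ 24 * (κ ^ 6 * P ^ 2) := by
            have := mul_le_mul_of_nonneg_right hκ4 (by positivity : 0 ≤ P ^ 2)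
            linarith
        _ ≤ v / 2 := by linarith
        _ ≤ (v / 2) * v ^ 2 := le_mul_of_one_le_right (by linarith) hv2
    exact le_of_mul_le_mul_right e1 (by positivity)
  have hb : v ≤ 4 * κ ^ 3 * y := by
    have : s * y ≤ κ ^ 3 * y := mul_le_mul_of_nonneg_right hs2 hy0
    linarith
  have hc : y ≤ v * κ := by
    have e1 : s * y ≤ v := by linarith
    calc y ≤ y * (s * κ) := le_mul_of_one_le_right hy0 hs1
      _ = (s * y) * κ := by ring
      _ ≤ v * κ := mul_le_mul_of_nonneg_right e1 hκ0.le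
  refine ⟨?_, ?_, ?_⟩
  · have e1 : v ^ 2 ≤ (4 * κ ^ 3 * y) ^ 2 := pow_le_pow_left₀ hv0.le hb 2
    have e2 : (16 * κ ^ 6) * v ≤ (16 * κ ^ 6) * y ^ 2 := by
      calc (16 * κ ^ 6) * v ≤ v * v := mul_le_mul_of_nonneg_right (by linarith) hv0.le
        _ = v ^ 2 := by ring
        _ ≤ (4 * κ ^ 3 * y) ^ 2 := e1
        _ = (16 * κ ^ 6) * y ^ 2 := by ring
    exact le_of_mul_le_mul_left e2 (by positivity)
  · calc y ≤ v * κ := hc
      _ ≤ v * v := mul_le_mul_of_nonneg_left (by linarith) hv0.le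
      _ = v ^ 2 := by ring
  · have e1 : y ^ 2 ≤ (v * κ) ^ 2 := pow_le_pow_left₀ hy0 hc 2
    calc u * y ^ 2 ≤ u * (v * κ) ^ 2 := mul_le_mul_of_nonneg_left e1 hu0
      _ = κ ^ 2 * (u * v ^ 2) := by ring
      _ ≤ κ ^ 2 * (6 * κ ^ 3 * P) := mul_le_mul_of_nonneg_left hu (by positivity)
      _ = 6 * κ ^ 5 * P := by ring

theorem t5_alpha (F : Cub) (r κ P : ℝ) (hκ : 1 ≤ κ) (hr : |r| ≤ κ) (hP : (F.ht : ℝ) ≤ P) :
    |3 * (F.a : ℝ) * r + F.b| ≤ 4 * P * κ := by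
  have hht : |F.a| + |F.b| + |F.c| + |F.d| = F.ht := rfl
  have hsum : |(F.a : ℝ)| + |(F.b : ℝ)| + |(F.c : ℝ)| + |(F.d : ℝ)| ≤ P := by
    have : ((|F.a| + |F.b| + |F.c| + |F.d| : ℤ) : ℝ) ≤ P := by rw [hht]; exact hP
    push_cast at this
    exact this
  have pa := abs_nonneg (F.a : ℝ)
  have pb := abs_nonneg (F.b : ℝ)
  have pc := abs_nonneg (F.c : ℝ)
  have pd := abs_nonneg (F.d : ℝ)
  have ha' : |(F.a : ℝ)| ≤ P := by linarith
  have hb' : |(F.b : ℝ)| ≤ P := by linarith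
  have hP0 : 0 ≤ P := by linarith
  have e1 : |3 * (F.a : ℝ) * r| ≤ 3 * P * κ := by
    rw [abs_mul, abs_mul]
    have : |(3 : ℝ)| = 3 := by norm_num
    rw [this]
    exact mul_le_mul (by linarith) hr (abs_nonneg _) (by positivity)
  have e2 : P ≤ P * κ := le_mul_of_one_le_right hP0 hκ
  calc |3 * (F.a : ℝ) * r + F.b| ≤ |3 * (F.a : ℝ) * r| + |(F.b : ℝ)| := abs_add_le _ _
    _ ≤ 3 * P * κ + P * κ := by linarith
    _ = 4 * P * κ := by ring

theorem t5_card {α : Type} (S : Finset α) (v : α → ℝ) (h3 : ∀ z ∈ S, 3 ≤ v z)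
    (hgap : ∀ z ∈ S, ∀ w ∈ S, z ≠ w → v z ≤ v w → v z ^ 3 ≤ v w ^ 2)
    (hup : ∀ z ∈ S, ∀ w ∈ S, v w ≤ v z ^ 120) : (S.card : ℝ) ≤ 16 := by
  rcases S.eq_empty_or_nonempty with h | hne
  · rw [h]; norm_num
  obtain ⟨z0, hz0, hmin⟩ := S.exists_min_image v hne
  have hv0 : ∀ z ∈ S, 0 < v z := fun z hz => by have := h3 z hz; linarith
  have hl0 : 0 < Real.log (v z0) := Real.log_pos (by have := h3 z0 hz0; linarith)
  have hc := d2_count S (fun z => Real.log (v z) / Real.log (v z0)) 120 ?_ ?_ ?_ (by norm_num)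
  · have hl : 1 / 3 ≤ Real.log (3 / 2) := by
      have := Real.one_sub_inv_le_log_of_pos (show (0 : ℝ) < 3 / 2 by norm_num)
      norm_num at this
      linarith
    have h120 : Real.log 120 ≤ 5 := by
      rw [Real.log_le_iff_le_exp (by norm_num)]
      have h1 := Real.exp_one_gt_d9
      have h2 : Real.exp 5 = Real.exp 1 ^ 5 := by
        rw [← Real.exp_nat_mul]; norm_num
      rw [h2]
      have h4 : (2.7 : ℝ) ^ 5 ≤ Real.exp 1 ^ 5 :=
        pow_le_pow_left₀ (by norm_num) (by linarith) 5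
      have h5 : (120 : ℝ) ≤ 2.7 ^ 5 := by norm_num
      linarith
    have hdiv : Real.log 120 / Real.log (3 / 2) ≤ 15 := by
      rw [div_le_iff₀ (by linarith)]
      linarith
    linarith
  · intro z hz
    show 1 ≤ Real.log (v z) / Real.log (v z0)
    rw [le_div_iff₀ hl0, one_mul]
    exact Real.log_le_log (hv0 z0 hz0) (hmin z hz)
  · intro z hz
    show Real.log (v z) / Real.log (v z0) ≤ 120
    rw [div_le_iff₀ hl0]
    have h1 := Real.log_le_log (hv0 z hz) (hup z0 hz0 z hz)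
    rw [Real.log_pow] at h1
    push_cast at h1
    exact h1
  · intro z hz w hw hzw hle
    have hle' : Real.log (v z) ≤ Real.log (v w) := by
      have h1 : Real.log (v z) / Real.log (v z0) * Real.log (v z0)
          ≤ Real.log (v w) / Real.log (v z0) * Real.log (v z0) :=
        mul_le_mul_of_nonneg_right hle hl0.le
      rwa [div_mul_cancel₀ _ hl0.ne', div_mul_cancel₀ _ hl0.ne'] at h1
    have h2 : v z ≤ v w := (Real.log_le_log_iff (hv0 z hz) (hv0 w hw)).1 hle'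
    have h4 := Real.log_le_log (pow_pos (hv0 z hz) 3) (hgap z hz w hw hzw h2)
    rw [Real.log_pow, Real.log_pow] at h4
    push_cast at h4
    show 3 / 2 * (Real.log (v z) / Real.log (v z0)) ≤ Real.log (v w) / Real.log (v z0)
    rw [← mul_div_assoc]
    exact div_le_div_of_nonneg_right (by linarith) hl0.le

theorem big_count : ∃ C : ℝ, 1 ≤ C ∧ ∀ (F : Cub), F.Irr → F.disc ≠ 0 → ∀ (T : ℝ), 1 ≤ T →
    ∀ S : Finset (ℤ × ℤ),
    (∀ z ∈ S, 0 < F.val z ∧ (F.val z : ℝ) ≤ T ∧ C * ((F.ht : ℝ) * T) ^ C ≤ |(F.hes z : ℝ)|) →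
    (∀ z ∈ S, ∀ w ∈ S, z ≠ w → wedge z w ≠ 0) →
    (S.card : ℝ) ≤ C := by
  obtain ⟨K, hK, hb⟩ := d2_bounds
  obtain ⟨Q, hQ, hthue⟩ := thue_gap
  set D : ℝ := (Q * (6 * K ^ 5) ^ Q) ^ 4 with hDdef
  have hD0 : 0 ≤ D := by positivity
  have hK12 : 1 ≤ K ^ 12 := one_le_pow₀ hK
  have hKQ : 0 ≤ K * Q := by positivity
  refine ⟨2304 * K ^ 12 + D + (12 * K + 4) + 4 * ((5 * K + 2) * Q), by nlinarith, ?_⟩
  set C := 2304 * K ^ 12 + D + (12 * K + 4) + 4 * ((5 * K + 2) * Q) with hC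
  have hC1 : 2304 * K ^ 12 ≤ C := by nlinarith
  have hC2 : D ≤ C := by nlinarith
  have hC3 : 12 * K + 4 ≤ C := by nlinarith
  have hC4 : 4 * ((5 * K + 2) * Q) ≤ C := by nlinarith
  have hC48 : 48 ≤ C := by linarith
  have hCpos : 0 < C := by linarith
  intro F hF hD T hT S hS hw
  classical
  have ha := d2_a_ne F hF
  obtain ⟨R, hR, hRr, hRz⟩ := exists_roots F ha hD
  have part : ∀ r ∈ R, ((S.filter (fun z => F.dl r < 0 ∨
      (0 < F.dl r ∧ 2 * Real.sqrt (F.dl r) * |U r z| ≤ |F.V r z|))).card : ℝ) ≤ 16 := by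
    intro r hr
    obtain ⟨hroot, -, -⟩ := hRr r hr
    obtain ⟨c1, -, -, -, -, -, -⟩ := hb F ha hD r hroot (F.ht : ℝ) le_rfl
    have hP0 : (F.ht : ℝ) ≤ (F.ht : ℝ) * T := le_mul_of_one_le_right (by linarith) hT
    obtain ⟨-, c2, c3, c4, c5, c6, c7⟩ := hb F ha hD r hroot ((F.ht : ℝ) * T) hP0
    set P := (F.ht : ℝ) * T with hP
    set κ := K * P ^ K with hκ
    set q := Real.sqrt |F.dl r| * |F.sl r| with hq
    have hP1 : 1 ≤ P := one_le_mul_of_one_le_of_one_le c1 hT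
    have hPp : 0 < P := by linarith
    have hTP : T ≤ P := le_mul_of_one_le_left (by linarith) c1
    have hq0 : 0 < q := by linarith
    have hκ0 : 0 < κ := by linarith
    -- the size of the constant
    have hbig1 : (48 * κ ^ 6 * P ^ 2) ^ 2 ≤ C * P ^ C := by
      have e : (48 * κ ^ 6 * P ^ 2) ^ 2 = 2304 * K ^ 12 * P ^ (12 * K + 4) := by
        rw [hκ, mul_pow, Real.rpow_add hPp, mul_comm (12 : ℝ) K, Real.rpow_mul hPp.le]
        norm_num
        ring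
      rw [e]
      have h1 : P ^ (12 * K + 4) ≤ P ^ C := Real.rpow_le_rpow_of_exponent_le hP1 hC3
      calc 2304 * K ^ 12 * P ^ (12 * K + 4) ≤ 2304 * K ^ 12 * P ^ C :=
            mul_le_mul_of_nonneg_left h1 (by positivity)
        _ ≤ C * P ^ C := mul_le_mul_of_nonneg_right hC1 (by positivity)
    set M := 6 * κ ^ 5 * P with hM
    have hM1 : 1 ≤ M := by
      have h1 : 1 ≤ κ ^ 5 := one_le_pow₀ c2
      have h2 : 1 ≤ κ ^ 5 * P := one_le_mul_of_one_le_of_one_le h1 hP1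
      rw [hM]
      linarith
    set Y := Q * (P * M) ^ Q with hY
    have hY0 : 0 ≤ Y := by positivity
    have hbig2 : (Y ^ 2) ^ 2 ≤ C * P ^ C := by
      have e0 : P * M = 6 * K ^ 5 * P ^ (5 * K + 2) := by
        rw [hM, hκ, mul_pow, Real.rpow_add hPp, mul_comm (5 : ℝ) K, Real.rpow_mul hPp.le]
        norm_num
        ring
      have e1 : Y = (Q * (6 * K ^ 5) ^ Q) * P ^ ((5 * K + 2) * Q) := by
        rw [hY, e0, Real.mul_rpow (by positivity) (by positivity), ← Real.rpow_mul hPp.le]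
        ring
      have e2 : (Y ^ 2) ^ 2 = D * P ^ (4 * ((5 * K + 2) * Q)) := by
        have e3 : P ^ (4 * ((5 * K + 2) * Q)) = (P ^ ((5 * K + 2) * Q)) ^ 4 := by
          rw [mul_comm (4 : ℝ) ((5 * K + 2) * Q), Real.rpow_mul hPp.le]
          norm_num
        rw [e1, hDdef, e3]
        generalize P ^ ((5 * K + 2) * Q) = W
        ring
      rw [e2]
      have h1 : P ^ (4 * ((5 * K + 2) * Q)) ≤ P ^ C := Real.rpow_le_rpow_of_exponent_le hP1 hC4
      calc D * P ^ (4 * ((5 * K + 2) * Q)) ≤ D * P ^ C := mul_le_mul_of_nonneg_left h1 hD0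
        _ ≤ C * P ^ C := mul_le_mul_of_nonneg_right hC2 (by positivity)
    have hslκ : |F.sl r| ≤ κ ^ 3 := by
      calc |F.sl r| ≤ |F.sl r| * (Real.sqrt |F.dl r| * κ) :=
            le_mul_of_one_le_right (abs_nonneg _) c5
        _ = q * κ := by rw [hq]; ring
        _ ≤ κ ^ 2 * κ := mul_le_mul_of_nonneg_right c7 hκ0.le
        _ = κ ^ 3 := by ring
    have hα := t5_alpha F r κ P c2 c3 hP0
    have hN48 : 48 * P ^ 2 ≤ 48 * κ ^ 6 * P ^ 2 := by
      have h1 : 1 ≤ κ ^ 6 := one_le_pow₀ c2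
      have h2 : P ^ 2 ≤ κ ^ 6 * P ^ 2 := le_mul_of_one_le_left (by positivity) h1
      linarith
    -- pointwise facts
    have pt : ∀ z ∈ S.filter (fun z => F.dl r < 0 ∨
        (0 < F.dl r ∧ 2 * Real.sqrt (F.dl r) * |U r z| ≤ |F.V r z|)),
        (Real.sqrt |F.dl r| * |U r z|) * |F.V r z| ^ 2 ≤ 6 * q * T ∧
        48 * κ ^ 6 * P ^ 2 ≤ |F.V r z| ∧ Y ≤ |(z.2 : ℝ)| ∧ |F.V r z| ≤ |(z.2 : ℝ)| ^ 2 ∧
        |(z.2 : ℝ)| ≤ |F.V r z| ^ 2 ∧ |r - (z.1 : ℝ) / z.2| ≤ M / |(z.2 : ℝ)| ^ 3 := by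
      intro z hz
      rw [Finset.mem_filter] at hz
      obtain ⟨hzS, hzg⟩ := hz
      obtain ⟨v0, v1, v2⟩ := hS z hzS
      have habs : |(F.val z : ℝ)| ≤ T := by
        rw [abs_of_pos (by exact_mod_cast v0)]; exact v1
      obtain ⟨g1, g2, g3⟩ := d2_good F r hroot z T hzg habs
      rw [← hq] at g1 g2
      set A := Real.sqrt |F.dl r| * |U r z| with hA
      have hA0 : 0 ≤ A := by rw [hA]; positivity
      have hM1' : 1 ≤ 4 * q * T := by
        have : 1 ≤ q * T := one_le_mul_of_one_le_of_one_le c6 hT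
        linarith
      have hAM : A ≤ 4 * q * T := d2_cube hM1' g1
      have hM2 : 4 * q * T ≤ 4 * κ ^ 2 * P := by
        have : q * T ≤ κ ^ 2 * P := mul_le_mul c7 hTP (by linarith) (by positivity)
        linarith
      have hbig0 : 48 * κ ^ 4 * P ^ 2 ≤ C * P ^ C := by
        refine le_trans ?_ hbig1
        have k1 : 1 ≤ 48 * κ ^ 6 * P ^ 2 := by
          have h1 : 1 ≤ κ ^ 6 := one_le_pow₀ c2
          have h2 : 1 ≤ P ^ 2 := one_le_pow₀ hP1
          have h3 : 1 ≤ κ ^ 6 * P ^ 2 := one_le_mul_of_one_le_of_one_le h1 h2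
          linarith
        have k2 : κ ^ 4 * P ^ 2 ≤ κ ^ 6 * P ^ 2 :=
          mul_le_mul_of_nonneg_right (pow_le_pow_right₀ c2 (by norm_num)) (by positivity)
        have k3 : 48 * κ ^ 6 * P ^ 2 ≤ (48 * κ ^ 6 * P ^ 2) ^ 2 := le_self_pow₀ k1 (by norm_num)
        linarith
      have hA2 : 3 * A ^ 2 ≤ 48 * κ ^ 4 * P ^ 2 := by
        have : A ^ 2 ≤ (4 * κ ^ 2 * P) ^ 2 := pow_le_pow_left₀ hA0 (hAM.trans hM2) 2
        calc 3 * A ^ 2 ≤ 3 * (4 * κ ^ 2 * P) ^ 2 := by linarith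
          _ = 48 * κ ^ 4 * P ^ 2 := by ring
      have hAh : 3 * A ^ 2 ≤ |(F.hes z : ℝ)| := hA2.trans (hbig0.trans v2)
      have h4 : |4 * (F.hes z : ℝ)| = 4 * |(F.hes z : ℝ)| := by rw [abs_mul]; norm_num
      have l2 : 3 * |(F.hes z : ℝ)| ≤ |F.V r z| ^ 2 := by
        have := abs_sub_abs_le_abs_sub (4 * (F.hes z : ℝ)) (|F.V r z| ^ 2)
        rw [abs_of_nonneg (sq_nonneg |F.V r z|), h4] at this
        linarith
      have l3 : C * P ^ C ≤ |F.V r z| ^ 2 := by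
        have h5 : 0 ≤ |(F.hes z : ℝ)| := abs_nonneg _
        linarith
      have hN : 48 * κ ^ 6 * P ^ 2 ≤ |F.V r z| := d2_le_of_sq (hbig1.trans l3) (abs_nonneg _)
      have hYv : Y ^ 2 ≤ |F.V r z| := d2_le_of_sq (hbig2.trans l3) (abs_nonneg _)
      have hu : |U r z| * |F.V r z| ^ 2 ≤ 6 * κ ^ 3 * P := by
        have h5 : |U r z| ≤ |U r z| * (Real.sqrt |F.dl r| * κ) :=
          le_mul_of_one_le_right (abs_nonneg _) c5
        have h6 : |U r z| * (Real.sqrt |F.dl r| * κ) = A * κ := by rw [hA]; ring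
        rw [h6] at h5
        calc |U r z| * |F.V r z| ^ 2 ≤ (A * κ) * |F.V r z| ^ 2 :=
              mul_le_mul_of_nonneg_right h5 (by positivity)
          _ = (A * |F.V r z| ^ 2) * κ := by ring
          _ ≤ (6 * q * T) * κ := mul_le_mul_of_nonneg_right g2 hκ0.le
          _ ≤ (6 * (κ ^ 2 * P)) * κ := by
              have : q * T ≤ κ ^ 2 * P := mul_le_mul c7 hTP (by linarith) (by positivity)
              exact mul_le_mul_of_nonneg_right (by linarith) hκ0.le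
          _ = 6 * κ ^ 3 * P := by ring
      have hy : 2 * F.sl r * (z.2 : ℝ) = F.V r z - (3 * (F.a : ℝ) * r + F.b) * U r z := by
        unfold U V sl; ring
      have hy' : |2 * F.sl r * (z.2 : ℝ)| = 2 * (|F.sl r| * |(z.2 : ℝ)|) := by
        rw [abs_mul, abs_mul]
        have : |(2 : ℝ)| = 2 := by norm_num
        rw [this]; ring
      have hαU : |(3 * (F.a : ℝ) * r + F.b) * U r z| ≤ 4 * P * κ * |U r z| := by
        rw [abs_mul]
        exact mul_le_mul_of_nonneg_right hα (abs_nonneg _)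
      have k1 : |F.V r z| - 4 * P * κ * |U r z| ≤ 2 * (|F.sl r| * |(z.2 : ℝ)|) := by
        rw [← hy', hy]
        have := abs_sub_abs_le_abs_sub (F.V r z) ((3 * (F.a : ℝ) * r + F.b) * U r z)
        linarith
      have k2 : 2 * (|F.sl r| * |(z.2 : ℝ)|) ≤ |F.V r z| + 4 * P * κ * |U r z| := by
        rw [← hy', hy]
        have := abs_sub (F.V r z) ((3 * (F.a : ℝ) * r + F.b) * U r z)
        linarith
      obtain ⟨y1, y2, y3⟩ := t5_y c2 hP1 (abs_nonneg (U r z)) (abs_nonneg (z.2 : ℝ)) hN hu c4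
        hslκ k1 k2
      have hvpos : 0 < |F.V r z| := by
        have : 0 < 48 * κ ^ 6 * P ^ 2 := by positivity
        linarith
      have hypos : 0 < |(z.2 : ℝ)| := by
        rcases (abs_nonneg (z.2 : ℝ)).lt_or_eq with h | h
        · exact h
        · rw [← h] at y1
          norm_num at y1
          rw [y1, abs_zero] at hvpos
          exact absurd hvpos (lt_irrefl _)
      have hy0 : (z.2 : ℝ) ≠ 0 := abs_pos.mp hypos
      refine ⟨g2, hN, d2_le_of_sq (hYv.trans y1) (abs_nonneg _), y1, y2, ?_⟩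
      have e1 : r - (z.1 : ℝ) / z.2 = -(U r z / z.2) := by
        unfold U
        field_simp
        ring
      rw [e1, abs_neg, abs_div, div_le_div_iff₀ hypos (by positivity)]
      calc |U r z| * |(z.2 : ℝ)| ^ 3 = (|U r z| * |(z.2 : ℝ)| ^ 2) * |(z.2 : ℝ)| := by ring
        _ ≤ M * |(z.2 : ℝ)| := mul_le_mul_of_nonneg_right y3 hypos.le
    -- count
    refine t5_card _ (fun z => |F.V r z|) ?_ ?_ ?_
    · intro z hz
      obtain ⟨-, p2, -⟩ := pt z hz
      have : 1 ≤ P ^ 2 := one_le_pow₀ hP1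
      show 3 ≤ |F.V r z|
      linarith
    · intro z hz w hw' hne hle
      obtain ⟨p1, p2, -⟩ := pt z hz
      obtain ⟨q1, q2, -⟩ := pt w hw'
      have hwd := d2_wedge F r hroot z w
      rw [← hq] at hwd
      have hw1 : (1 : ℝ) ≤ |(wedge z w : ℝ)| := by
        have := hw z (Finset.mem_filter.1 hz).1 w (Finset.mem_filter.1 hw').1 hne
        have h10 : 1 ≤ |wedge z w| := Int.one_le_abs this
        exact_mod_cast h10
      have h11 : 2 * q ≤ (Real.sqrt |F.dl r| * |U r z|) * |F.V r w| +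
          (Real.sqrt |F.dl r| * |U r w|) * |F.V r z| := by
        refine le_trans ?_ hwd
        have := mul_le_mul_of_nonneg_left hw1 (show 0 ≤ 2 * q by linarith)
        linarith
      have h36 : 36 * T ^ 2 ≤ |F.V r z| := by
        have : T ^ 2 ≤ P ^ 2 := pow_le_pow_left₀ (by linarith) hTP 2
        have h0 : 0 ≤ P ^ 2 := by positivity
        linarith
      exact d2_gap hq0 hT (by positivity) p1 q1 h36 hle h11
    · intro z hz w hw'
      obtain ⟨-, p2, p3, p4, p5, p6⟩ := pt z hz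
      obtain ⟨-, q2, q3, q4, q5, q6⟩ := pt w hw'
      show |F.V r w| ≤ |F.V r z| ^ 120
      have hMle : Q * ((F.ht : ℝ) * M) ^ Q ≤ |(z.2 : ℝ)| := by
        refine le_trans ?_ p3
        rw [hY]
        refine mul_le_mul_of_nonneg_left ?_ (by linarith)
        refine Real.rpow_le_rpow (by positivity) ?_ (by linarith)
        exact mul_le_mul_of_nonneg_right hP0 (by linarith)
      have hw0 : w.2 ≠ 0 := by
        intro h0
        rw [h0] at q4
        have hpos : 0 < 48 * κ ^ 6 * P ^ 2 := by positivity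
        norm_num at q4
        rw [q4, abs_zero] at q2
        linarith
      have h30 := hthue F hF hD r hroot M hM1 z w hMle hw0 p6 q6
      calc |F.V r w| ≤ |(w.2 : ℝ)| ^ 2 := q4
        _ ≤ (|(z.2 : ℝ)| ^ 30) ^ 2 := pow_le_pow_left₀ (abs_nonneg _) h30 2
        _ = |(z.2 : ℝ)| ^ 60 := by rw [← pow_mul]
        _ ≤ (|F.V r z| ^ 2) ^ 60 := pow_le_pow_left₀ (abs_nonneg _) p5 60
        _ = |F.V r z| ^ 120 := by rw [← pow_mul]
  -- union
  have hsub : S ⊆ R.biUnion (fun r => S.filter (fun z => F.dl r < 0 ∨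
      (0 < F.dl r ∧ 2 * Real.sqrt (F.dl r) * |U r z| ≤ |F.V r z|))) := by
    intro z hz
    obtain ⟨r, hr, hg⟩ := hRz z
    rw [Finset.mem_biUnion]
    exact ⟨r, hr, Finset.mem_filter.2 ⟨hz, hg⟩⟩
  have hc1 : (S.card : ℝ) ≤ ∑ r ∈ R, ((S.filter (fun z => F.dl r < 0 ∨
      (0 < F.dl r ∧ 2 * Real.sqrt (F.dl r) * |U r z| ≤ |F.V r z|))).card : ℝ) := by
    have := (Finset.card_le_card hsub).trans Finset.card_biUnion_le
    exact_mod_cast this
  have hc2 : ∑ r ∈ R, ((S.filter (fun z => F.dl r < 0 ∨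
      (0 < F.dl r ∧ 2 * Real.sqrt (F.dl r) * |U r z| ≤ |F.V r z|))).card : ℝ) ≤
      (R.card : ℝ) * 16 := by
    rw [← nsmul_eq_mul]
    exact Finset.sum_le_card_nsmul R _ _ part
  have hR' : (R.card : ℝ) ≤ 3 := by exact_mod_cast hR
  linarith

end Pool.Agent.Lib.SqPart
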