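import Pool.Agent.Lib.MP_d8bd92_nt.Mult

set_option autoImplicit false

/-!
Weierstrass curves with a rational point of order three or five.
-/

namespace Pool.Agent.Lib.Szpiro

open WeierstrassCurve WeierstrassCurve.Affine

variable {F : Type*} [Field F] [DecidableEq F]

/-- A point of order three gives the family `y² + a x y + b y = x³`. -/
theorem order_three {W : Affine F} (P : W.Point) (hP : addOrderOf P = 3) :
    ∃ a b : F, W.c₄ = a * (a ^ 3 - 24 * b) ∧ W.c₆ = -a ^ 6 + 36 * a ^ 3 * b - 216 * b ^ 2 ∧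
      W.Δ = b ^ 3 * (a ^ 3 - 27 * b) := by
  have h3 : P + P + P = 0 := by
    have := addOrderOf_nsmul_eq_zero P
    rw [hP] at this
    simpa [succ_nsmul] using this
  have hne : ∀ n : ℕ, 0 < n → n < 3 → n • P ≠ 0 := by
    intro n hn hn7 h0
    have := addOrderOf_le_of_nsmul_eq_zero hn h0
    omega
  have h1 : P ≠ 0 := by simpa using hne 1 (by norm_num) (by norm_num)
  have h2 : P + P ≠ 0 := by simpa [succ_nsmul] using hne 2 (by norm_num) (by norm_num)
  rcases P with _ | ⟨x, y, h⟩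
  · exact absurd rfl h1
  have hden : 2 * y + W.a₁ * x + W.a₃ ≠ 0 := by
    intro h0
    apply h2
    apply Point.add_self_of_Y_eq
    rw [negY]
    linear_combination h0
  obtain ⟨lam, hlam⟩ : ∃ lam, lam * (2 * y + W.a₁ * x + W.a₃)
      = 3 * x ^ 2 + 2 * W.a₂ * x + W.a₄ - W.a₁ * y := ⟨_, div_mul_cancel₀ _ hden⟩
  obtain ⟨h2', e2⟩ := add_tangent h hden hlam
  have hX : lam ^ 2 + W.a₁ * lam - W.a₂ - x - x = x := by
    have hneg : Point.some x y h + Point.some x y h = -(Point.some x y h) := by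
      rw [eq_neg_iff_add_eq_zero, ← h3]
    rw [e2] at hneg
    exact (Point.X_eq_iff (h₁ := h2') (h₂ := h)).mpr (Or.inr hneg)
  let C : VariableChange F := ⟨1, x, lam, y⟩
  have g1 : (C • W).a₁ = W.a₁ + 2 * lam := by
    rw [variableChange_a₁]; simp only [C, inv_one, Units.val_one, one_mul]
  have g2 : (C • W).a₂ = 0 := by
    rw [variableChange_a₂]; simp only [C, inv_one, Units.val_one, one_pow, one_mul]
    linear_combination -hX
  have g3 : (C • W).a₃ = 2 * y + W.a₁ * x + W.a₃ := by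
    rw [variableChange_a₃]; simp only [C, inv_one, Units.val_one, one_pow, one_mul]; ring
  have g4 : (C • W).a₄ = 0 := by
    rw [variableChange_a₄]; simp only [C, inv_one, Units.val_one, one_pow, one_mul]
    linear_combination -hlam
  have g6 : (C • W).a₆ = 0 := by
    rw [variableChange_a₆]; simp only [C, inv_one, Units.val_one, one_pow, one_mul]
    have h0 := h.1
    rw [equation_iff] at h0
    linear_combination -h0
  have hc : (C • W).c₄ = W.c₄ := by
    rw [variableChange_c₄]; simp only [C, inv_one, Units.val_one, one_pow, one_mul]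
  have hc6 : (C • W).c₆ = W.c₆ := by
    rw [variableChange_c₆]; simp only [C, inv_one, Units.val_one, one_pow, one_mul]
  have hD : (C • W).Δ = W.Δ := by
    rw [variableChange_Δ]; simp only [C, inv_one, Units.val_one, one_pow, one_mul]
  refine ⟨W.a₁ + 2 * lam, 2 * y + W.a₁ * x + W.a₃, ?_, ?_, ?_⟩
  · rw [← hc]
    simp only [WeierstrassCurve.c₄, WeierstrassCurve.b₂, WeierstrassCurve.b₄, g1, g2, g3, g4]
    ring
  · rw [← hc6]
    simp only [WeierstrassCurve.c₆, WeierstrassCurve.b₂, WeierstrassCurve.b₄,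
      WeierstrassCurve.b₆, g1, g2, g3, g4, g6]
    ring
  · rw [← hD]
    simp only [WeierstrassCurve.Δ, WeierstrassCurve.b₂, WeierstrassCurve.b₄,
      WeierstrassCurve.b₆, WeierstrassCurve.b₈, g1, g2, g3, g4, g6]
    ring

/-- the parameters are integers -/
theorem order_three_int (W : WeierstrassCurve ℤ) (P : (W.baseChange ℚ).toAffine.Point)
    (hP : addOrderOf P = 3) :
    ∃ a b : ℤ, W.c₄ = a * (a ^ 3 - 24 * b) ∧ W.c₆ = -a ^ 6 + 36 * a ^ 3 * b - 216 * b ^ 2 ∧
      W.Δ = b ^ 3 * (a ^ 3 - 27 * b) := by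
  obtain ⟨a, b, h4, h6, hD⟩ := order_three P hP
  have e4 : (W.baseChange ℚ).c₄ = ((W.c₄ : ℤ) : ℚ) := by simp [WeierstrassCurve.baseChange]
  have e6 : (W.baseChange ℚ).c₆ = ((W.c₆ : ℤ) : ℚ) := by simp [WeierstrassCurve.baseChange]
  have eD : (W.baseChange ℚ).Δ = ((W.Δ : ℤ) : ℚ) := by simp [WeierstrassCurve.baseChange]
  have h4' : ((W.c₄ : ℤ) : ℚ) = a * (a ^ 3 - 24 * b) := by rw [← e4]; exact h4
  have h6' : ((W.c₆ : ℤ) : ℚ) = -a ^ 6 + 36 * a ^ 3 * b - 216 * b ^ 2 := by rw [← e6]; exact h6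
  have hD' : ((W.Δ : ℤ) : ℚ) = b ^ 3 * (a ^ 3 - 27 * b) := by rw [← eD]; exact hD
  obtain ⟨A, hA⟩ : ∃ A : ℤ, (A : ℚ) = a := by
    have hint : _root_.IsIntegral ℤ a := by
      refine ⟨Polynomial.X ^ 8 - Polynomial.C (6 * W.c₄) * Polynomial.X ^ 4 -
        Polynomial.C (8 * W.c₆) * Polynomial.X ^ 2 - Polynomial.C (3 * W.c₄ ^ 2), ?_, ?_⟩
      · monicity!
      · simp only [Polynomial.eval₂_sub, Polynomial.eval₂_mul, Polynomial.eval₂_pow,
          Polynomial.eval₂_X, Polynomial.eval₂_C]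
        simp only [eq_intCast, Int.cast_mul, Int.cast_ofNat, Int.cast_pow]
        rw [h4', h6']
        ring
    obtain ⟨e, he⟩ := IsIntegrallyClosed.isIntegral_iff.mp hint
    exact ⟨e, by simpa using he⟩
  obtain ⟨B, hB⟩ : ∃ B : ℤ, (B : ℚ) = 27 * b := by
    have hint : _root_.IsIntegral ℤ (27 * b) := by
      refine ⟨Polynomial.X ^ 4 - Polynomial.C (A ^ 3) * Polynomial.X ^ 3 +
        Polynomial.C (27 ^ 3 * W.Δ), ?_, ?_⟩
      · monicity!
      · simp only [Polynomial.eval₂_sub, Polynomial.eval₂_add, Polynomial.eval₂_mul,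
          Polynomial.eval₂_pow, Polynomial.eval₂_X, Polynomial.eval₂_C]
        simp only [eq_intCast, Int.cast_mul, Int.cast_ofNat, Int.cast_pow]
        rw [hD', hA]
        ring
    obtain ⟨e, he⟩ := IsIntegrallyClosed.isIntegral_iff.mp hint
    exact ⟨e, by simpa using he⟩
  have hb : b = (B : ℚ) / 27 := by rw [hB]; ring
  rw [hb, ← hA] at h4' h6' hD'
  have k4 : 9 * W.c₄ = 9 * A ^ 4 - 8 * (A * B) := by
    have : (9 : ℚ) * ((W.c₄ : ℤ) : ℚ) = 9 * (A : ℚ) ^ 4 - 8 * (A * B) := by rw [h4']; ring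
    exact_mod_cast this
  have kD : 27 ^ 3 * W.Δ = B ^ 3 * (A ^ 3 - B) := by
    have : (27 : ℚ) ^ 3 * ((W.Δ : ℤ) : ℚ) = (B : ℚ) ^ 3 * ((A : ℚ) ^ 3 - B) := by
      rw [hD']; ring
    exact_mod_cast this
  have p3 : Prime (3 : ℤ) := Int.prime_three
  obtain ⟨b', hb'⟩ : ∃ b' : ℤ, B = 27 * b' := by
    by_cases h3A : (3 : ℤ) ∣ A
    · obtain ⟨A1, rfl⟩ := h3A
      have d1 : (3 : ℤ) ∣ B := by
        have h : (3 : ℤ) ∣ B ^ 3 * ((3 * A1) ^ 3 - B) := by
          rw [← kD]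
          exact ⟨6561 * W.Δ, by ring⟩
        rcases p3.dvd_or_dvd h with h | h
        · exact p3.dvd_of_dvd_pow h
        · have : B = (3 * A1) ^ 3 - ((3 * A1) ^ 3 - B) := by ring
          rw [this]
          exact dvd_sub ⟨9 * A1 ^ 3, by ring⟩ h
      obtain ⟨B1, rfl⟩ := d1
      have kD1 : 243 * W.Δ = B1 ^ 3 * (9 * A1 ^ 3 - B1) := by
        have h : 81 * (243 * W.Δ) = 81 * (B1 ^ 3 * (9 * A1 ^ 3 - B1)) := by
          linear_combination kD
        exact mul_left_cancel₀ (by norm_num) h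
      have d2 : (3 : ℤ) ∣ B1 := by
        have h : (3 : ℤ) ∣ B1 ^ 3 * (9 * A1 ^ 3 - B1) := by
          rw [← kD1]
          exact ⟨81 * W.Δ, by ring⟩
        rcases p3.dvd_or_dvd h with h | h
        · exact p3.dvd_of_dvd_pow h
        · have : B1 = 9 * A1 ^ 3 - (9 * A1 ^ 3 - B1) := by ring
          rw [this]
          exact dvd_sub ⟨3 * A1 ^ 3, by ring⟩ h
      obtain ⟨B2, rfl⟩ := d2
      have kD2 : 3 * W.Δ = B2 ^ 3 * (3 * A1 ^ 3 - B2) := by
        have h : 81 * (3 * W.Δ) = 81 * (B2 ^ 3 * (3 * A1 ^ 3 - B2)) := by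
          linear_combination kD1
        exact mul_left_cancel₀ (by norm_num) h
      have d3 : (3 : ℤ) ∣ B2 := by
        have h : (3 : ℤ) ∣ B2 ^ 3 * (3 * A1 ^ 3 - B2) := by
          rw [← kD2]
          exact ⟨W.Δ, by ring⟩
        rcases p3.dvd_or_dvd h with h | h
        · exact p3.dvd_of_dvd_pow h
        · have : B2 = 3 * A1 ^ 3 - (3 * A1 ^ 3 - B2) := by ring
          rw [this]
          exact dvd_sub ⟨A1 ^ 3, by ring⟩ h
      obtain ⟨B3, rfl⟩ := d3
      exact ⟨B3, by ring⟩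
    · have hAB : (9 : ℤ) ∣ A * B := by
        have h : (9 : ℤ) ∣ 8 * (A * B) := ⟨A ^ 4 - W.c₄, by linear_combination k4⟩
        exact IsCoprime.dvd_of_dvd_mul_left (by norm_num) h
      have hcA : IsCoprime (9 : ℤ) A := by
        have h1 : IsCoprime (3 : ℤ) A := (Prime.coprime_iff_not_dvd p3).mpr h3A
        have h2 : (9 : ℤ) = 3 ^ 2 := by norm_num
        rw [h2]
        exact IsCoprime.pow_left h1
      have hB9 : (9 : ℤ) ∣ B := IsCoprime.dvd_of_dvd_mul_left hcA hAB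
      have hnd : ¬ (3 : ℤ) ∣ A ^ 3 - B := by
        intro h
        apply h3A
        have h1 : (3 : ℤ) ∣ B := dvd_trans (by norm_num) hB9
        have h2 : A ^ 3 = (A ^ 3 - B) + B := by ring
        have h3 : (3 : ℤ) ∣ A ^ 3 := by rw [h2]; exact dvd_add h h1
        exact p3.dvd_of_dvd_pow h3
      have h9 : (3 : ℤ) ^ 9 ∣ B ^ 3 := by
        apply p3.pow_dvd_of_dvd_mul_right 9 hnd
        rw [← kD]
        exact ⟨W.Δ, by norm_num⟩
      have h27 : (27 : ℤ) ^ 3 ∣ B ^ 3 := by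
        have : (27 : ℤ) ^ 3 = 3 ^ 9 := by norm_num
        rw [this]; exact h9
      exact (Int.pow_dvd_pow_iff (by norm_num)).mp h27
  refine ⟨A, b', ?_, ?_, ?_⟩
  · have h : ((W.c₄ : ℤ) : ℚ) = ((A * (A ^ 3 - 24 * b') : ℤ) : ℚ) := by
      rw [h4', hb']; push_cast; ring
    exact_mod_cast h
  · have h : ((W.c₆ : ℤ) : ℚ) = ((-A ^ 6 + 36 * A ^ 3 * b' - 216 * b' ^ 2 : ℤ) : ℚ) := by
      rw [h6', hb']; push_cast; ring
    exact_mod_cast h
  · have h : ((W.Δ : ℤ) : ℚ) = ((b' ^ 3 * (A ^ 3 - 27 * b') : ℤ) : ℚ) := by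
      rw [hD', hb']; push_cast; ring
    exact_mod_cast h

/-- A point of order five gives the universal family over `X_1(5)`. -/
theorem order_five {W : Affine F} (P : W.Point) (hP : addOrderOf P = 5) :
    ∃ U t : F, U ≠ 0 ∧
      W.c₄ = U ^ 4 * (1 + 12 * t + 14 * t ^ 2 - 12 * t ^ 3 + t ^ 4) ∧
      W.Δ = U ^ 12 * (t ^ 5 * (t ^ 2 - 11 * t - 1)) := by
  have h5 : P + P + P + P + P = 0 := by
    have := addOrderOf_nsmul_eq_zero P
    rw [hP] at this
    simpa [succ_nsmul] using this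
  have hne : ∀ n : ℕ, 0 < n → n < 5 → n • P ≠ 0 := by
    intro n hn hn7 h0
    have := addOrderOf_le_of_nsmul_eq_zero hn h0
    omega
  have h1 : P ≠ 0 := by simpa using hne 1 (by norm_num) (by norm_num)
  have h2 : P + P ≠ 0 := by simpa [succ_nsmul] using hne 2 (by norm_num) (by norm_num)
  have h3 : P + P + P ≠ 0 := by simpa [succ_nsmul] using hne 3 (by norm_num) (by norm_num)
  rcases P with _ | ⟨x, y, h⟩
  · exact absurd rfl h1
  obtain ⟨lam, A1, A2, U, D, ⟨h2', e2⟩, ⟨h3', e3⟩⟩ := exists_multiples h h2 h3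
  obtain ⟨hc, hΔ⟩ := D.invariants h.1
  obtain ⟨hA2, hU, ha1, ha3, ha2, htan⟩ := D
  have hX : x + U * (U - A1) = x - A2 := by
    have hneg : Point.some x y h + Point.some x y h + Point.some x y h =
        -(Point.some x y h + Point.some x y h) := by
      rw [eq_neg_iff_add_eq_zero, ← h5]; abel
    rw [e3, e2] at hneg
    exact (Point.X_eq_iff (h₁ := h3') (h₂ := h2')).mpr (Or.inr hneg)
  refine ⟨U, 1 - A1 / U, hU, ?_, ?_⟩
  · have hA2' : A2 = U * (A1 - U) := by linear_combination hX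
    rw [hc, hA2']
    field_simp
    ring
  · have hA2' : A2 = U * (A1 - U) := by linear_combination hX
    rw [hΔ, hA2']
    field_simp
    ring

end Pool.Agent.Lib.Szpiro
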