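import Pool.Agent.Lib.MP_d8bd92_nt.ThD
import Pool.Agent.Lib.MP_d8bd92_nt.ThE

set_option autoImplicit false

/-!
Semistable curves with a rational point of order three, counted by conductor.
-/

namespace Pool.Agent.Lib.MP_d8bd92_nt

open Finset Pool.Agent.Lib.Szpiro WeierstrassCurve WeierstrassCurve.Affine

/-- the invariants of the semistable curves with a rational point of order `p` -/
def torSet (p : ℕ) (Y κ : ℝ) : Set (ℤ × ℤ) :=
  {c | ∃ W : WeierstrassCurve ℤ, W.c₄ = c.1 ∧ W.c₆ = c.2 ∧ W.Δ ≠ 0 ∧ IsCoprime W.c₄ W.Δ ∧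
    (∃ P : (W.baseChange ℚ).toAffine.Point, addOrderOf P = p) ∧
    ((rd W.Δ.natAbs : ℕ) : ℝ) ≤ Y ∧ ((W.Δ.natAbs : ℕ) : ℝ) ≤ Y ^ κ}

namespace Th

/-- a sign -/
def sg (b : Bool) : ℤ := if b then 1 else -1

theorem sg_ne (b : Bool) : sg b ≠ 0 := by
  cases b <;> simp [sg]

theorem sg_abs (b : Bool) : (sg b).natAbs = 1 := by
  cases b <;> simp [sg]

theorem sg_natAbs (n : ℤ) : n = sg (decide (0 ≤ n)) * (n.natAbs : ℤ) := by
  unfold sg
  by_cases h : 0 ≤ n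
  · simp only [h, decide_true, if_true]; omega
  · simp only [h, decide_false, Bool.false_eq_true, if_false]; omega

/-- counting a set of pairs of integers by the absolute values of two parameters -/
theorem transfer (A : Set (ℤ × ℤ)) (t : ℤ × ℤ → ℤ × ℤ) (Z : ℕ) (N : ℝ)
    (hinj : Set.InjOn (fun c : ℤ × ℤ => ((t c, decide (0 ≤ c.2)) : (ℤ × ℤ) × Bool)) A)
    (hb : ∀ c ∈ A, (t c).1.natAbs ≤ Z ∧ (t c).2.natAbs ≤ Z)
    (hN : ∀ (s : Bool × Bool) (S : Finset (ℕ × ℕ)), (∀ w ∈ S, ∃ c ∈ A,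
      (t c).1 = sg s.1 * (w.1 : ℤ) ∧ (t c).2 = sg s.2 * (w.2 : ℤ)) → (S.card : ℝ) ≤ N) :
    A.Finite ∧ (A.ncard : ℝ) ≤ 8 * N := by
  classical
  have hfin : A.Finite := by
    apply Set.Finite.of_finite_image _ hinj
    apply Set.Finite.subset (Finset.finite_toSet
      (((Finset.Icc (-(Z : ℤ)) Z) ×ˢ (Finset.Icc (-(Z : ℤ)) Z)) ×ˢ (Finset.univ : Finset Bool)))
    rintro w ⟨c, hc, rfl⟩
    obtain ⟨h1, h2⟩ := hb c hc
    simp only [Finset.mem_coe, Finset.mem_product, Finset.mem_Icc, Finset.mem_univ, and_true]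
    constructor <;> constructor <;> omega
  refine ⟨hfin, ?_⟩
  rw [Set.ncard_eq_toFinset_card _ hfin]
  set F : Finset (ℤ × ℤ) := hfin.toFinset with hF
  have hFmem : ∀ c ∈ F, c ∈ A := fun c hc => (Set.Finite.mem_toFinset hfin).mp hc
  set sgn : ℤ × ℤ → (Bool × Bool) × Bool := fun c =>
    ((decide (0 ≤ (t c).1), decide (0 ≤ (t c).2)), decide (0 ≤ c.2)) with hsg
  have hsum : F.card = ∑ s : (Bool × Bool) × Bool, (F.filter (fun c => sgn c = s)).card :=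
    Finset.card_eq_sum_card_fiberwise (fun c _ => Finset.mem_univ _)
  have hfib : ∀ s : (Bool × Bool) × Bool, ((F.filter (fun c => sgn c = s)).card : ℝ) ≤ N := by
    intro s
    set G := F.filter (fun c => sgn c = s) with hG
    have hGmem : ∀ c ∈ G, c ∈ A ∧ decide (0 ≤ (t c).1) = s.1.1 ∧
        decide (0 ≤ (t c).2) = s.1.2 ∧ decide (0 ≤ c.2) = s.2 := by
      intro c hc
      rw [hG, Finset.mem_filter] at hc
      have h1 := hc.2
      rw [hsg] at h1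
      simp only at h1
      rw [← h1]
      exact ⟨hFmem c hc.1, rfl, rfl, rfl⟩
    have hcardG : G.card = (G.image (fun c => ((t c).1.natAbs, (t c).2.natAbs))).card := by
      rw [Finset.card_image_of_injOn]
      intro c hc c' hc' hcc
      simp only [Prod.mk.injEq] at hcc
      obtain ⟨k1, k2, k3, k4⟩ := hGmem c hc
      obtain ⟨k1', k2', k3', k4'⟩ := hGmem c' hc'
      apply hinj k1 k1'
      simp only [Prod.mk.injEq]
      refine ⟨Prod.ext ?_ ?_, by rw [k4, k4']⟩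
      · rw [sg_natAbs (t c).1, sg_natAbs (t c').1, k2, k2', hcc.1]
      · rw [sg_natAbs (t c).2, sg_natAbs (t c').2, k3, k3', hcc.2]
    rw [hcardG]
    apply hN s.1
    intro w hw
    rw [Finset.mem_image] at hw
    obtain ⟨c, hc, rfl⟩ := hw
    obtain ⟨k1, k2, k3, k4⟩ := hGmem c hc
    refine ⟨c, k1, ?_, ?_⟩
    · simp only
      rw [← k2]
      exact sg_natAbs _
    · simp only
      rw [← k3]
      exact sg_natAbs _
  calc (F.card : ℝ) = ∑ s : (Bool × Bool) × Bool, ((F.filter (fun c => sgn c = s)).card : ℝ) := by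
        rw [hsum]; push_cast; rfl
    _ ≤ ∑ _s : (Bool × Bool) × Bool, N := Finset.sum_le_sum (fun s _ => hfib s)
    _ = 8 * N := by
        rw [Finset.sum_const, nsmul_eq_mul, Finset.card_univ]
        simp only [Fintype.card_prod, Fintype.card_bool]
        norm_num

end Th

open Th in
/-- Semistable curves with a rational point of order three. -/
theorem torSet_three (κ ε : ℝ) (hκ : 0 < κ) (hε : 0 < ε) : ∃ C : ℝ, 0 < C ∧ ∀ Y : ℝ, 1 ≤ Y →
    (torSet 3 Y κ).Finite ∧ ((torSet 3 Y κ).ncard : ℝ) ≤ C * Y ^ (3 / 4 + ε) := by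
  classical
  obtain ⟨σ, hσ⟩ : ∃ σ : ℝ, σ = ε / κ := ⟨_, rfl⟩
  have hσ0 : 0 < σ := by rw [hσ]; positivity
  have hs : ∀ s : Bool × Bool, ∃ C : ℝ, 1 ≤ C ∧ ∀ (R : ℝ) (Z : ℕ) (S : Finset (ℕ × ℕ)), 1 ≤ R →
      1 ≤ Z → (Z : ℝ) ≤ R ^ κ →
      (∀ w ∈ S, 1 ≤ w.1 ∧ w.1 ≤ Z ∧ 1 ≤ w.2 ∧ w.2 ≤ Z ∧ (rd w.1 : ℝ) * rd w.2 ≤ R ∧
        IsCoprime (27 * sg s.1 * (w.1 : ℤ)) (w.2 : ℤ) ∧ IsCoprime (sg s.2 * (w.2 : ℤ)) (w.1 : ℤ) ∧
        ∃ a : ℤ, 27 * sg s.1 * (w.1 : ℤ) + sg s.2 * (w.2 : ℤ) = a ^ 3) →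
      (S.card : ℝ) ≤ C * (Z : ℝ) ^ σ * R ^ (3 / 4 : ℝ) := fun s =>
    Th.pair_count _ _ (mul_ne_zero (by norm_num) (sg_ne _)) (sg_ne _) κ σ hκ hσ0
  choose Cf hCf hmain using hs
  have hCf0 : ∀ s, 0 ≤ Cf s := fun s => zero_le_one.trans (hCf s)
  set C1 : ℝ := 1 + ∑ s : Bool × Bool, Cf s with hC1
  have hCle : ∀ s, Cf s ≤ C1 := by
    intro s
    have := Finset.single_le_sum (f := Cf) (fun i _ => hCf0 i) (Finset.mem_univ s)
    linarith
  have hC1pos : 0 < C1 := by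
    have := Finset.sum_nonneg (fun i (_ : i ∈ Finset.univ) => hCf0 i)
    linarith
  refine ⟨8 * C1, by positivity, ?_⟩
  intro Y hY
  have hY0 : 0 < Y := by linarith
  -- parameters
  have hpar : ∀ c : ℤ × ℤ, ∃ t : ℤ × ℤ × ℤ, c ∈ torSet 3 Y κ → (t.2.1 ≠ 0 ∧ t.2.2 ≠ 0 ∧
      27 * t.2.1 + t.2.2 = t.1 ^ 3 ∧ IsCoprime (27 * t.2.1) t.2.2 ∧
      t.2.1.natAbs ≤ ⌊Y ^ κ⌋₊ ∧ t.2.2.natAbs ≤ ⌊Y ^ κ⌋₊ ∧
      ((rd t.2.1.natAbs : ℕ) : ℝ) * ((rd t.2.2.natAbs : ℕ) : ℝ) ≤ Y ∧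
      c.1 = t.1 * (t.1 ^ 3 - 24 * t.2.1) ∧
      c.2 = -t.1 ^ 6 + 36 * t.1 ^ 3 * t.2.1 - 216 * t.2.1 ^ 2) := by
    intro c
    by_cases hc : c ∈ torSet 3 Y κ
    · obtain ⟨W, h4, h6, hΔ, hss, ⟨P, hP⟩, hN, hD⟩ := hc
      obtain ⟨a, b, e1, e2, e3⟩ := order_three_int W P hP
      refine ⟨(a, b, a ^ 3 - 27 * b), fun _ => ?_⟩
      have hne : b ^ 3 * (a ^ 3 - 27 * b) ≠ 0 := by rw [← e3]; exact hΔ
      have hb0 : b ≠ 0 := by rintro h0; rw [h0] at hne; simp at hne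
      have hd0 : a ^ 3 - 27 * b ≠ 0 := by intro h0; rw [h0] at hne; simp at hne
      -- coprimality
      have hab : IsCoprime a b := by
        rw [Int.isCoprime_iff_gcd_eq_one]
        by_contra hg
        obtain ⟨p, hp, hpd⟩ := Nat.exists_prime_and_dvd hg
        have hpa : (p : ℤ) ∣ a := (Int.natCast_dvd_natCast.mpr hpd).trans (Int.gcd_dvd_left ..)
        have hpb : (p : ℤ) ∣ b := (Int.natCast_dvd_natCast.mpr hpd).trans (Int.gcd_dvd_right ..)
        have h7 : (p : ℤ) ∣ W.c₄ := by rw [e1]; exact Dvd.dvd.mul_right hpa _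
        have h8 : (p : ℤ) ∣ W.Δ := by rw [e3]; exact Dvd.dvd.mul_right (dvd_pow hpb (by norm_num)) _
        exact (Nat.prime_iff_prime_int.mp hp).not_isUnit (hss.isUnit_of_dvd' h7 h8)
      have h3a : IsCoprime (3 : ℤ) a := by
        rw [Prime.coprime_iff_not_dvd Int.prime_three]
        intro h3
        have h7 : (3 : ℤ) ∣ W.c₄ := by rw [e1]; exact Dvd.dvd.mul_right h3 _
        have h8 : (3 : ℤ) ∣ W.Δ := by
          rw [e3]
          apply Dvd.dvd.mul_left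
          exact dvd_sub (dvd_pow h3 (by norm_num)) ⟨9 * b, by ring⟩
        exact Int.prime_three.not_isUnit (hss.isUnit_of_dvd' h7 h8)
      have h27 : IsCoprime (27 * b) (a ^ 3 - 27 * b) := by
        have h7 : IsCoprime (27 * b) (a ^ 3) := by
          apply IsCoprime.pow_right
          apply IsCoprime.mul_left _ hab.symm
          have : (27 : ℤ) = 3 ^ 3 := by norm_num
          rw [this]
          exact IsCoprime.pow_left h3a
        have h8 : a ^ 3 - 27 * b = a ^ 3 + (27 * b) * (-1) := by ring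
        rw [h8]
        exact IsCoprime.add_mul_left_right h7 (-1)
      have hbd : IsCoprime b (a ^ 3 - 27 * b) := (IsCoprime.mul_left_iff.mp h27).2
      have hcop : Nat.Coprime b.natAbs (a ^ 3 - 27 * b).natAbs := by
        rw [← Int.isCoprime_iff_nat_coprime]; exact hbd
      have hN' : W.Δ.natAbs = b.natAbs ^ 3 * (a ^ 3 - 27 * b).natAbs := by
        rw [e3, Int.natAbs_mul, Int.natAbs_pow]
      have hb1 : 1 ≤ b.natAbs := Int.natAbs_pos.mpr hb0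
      have hd1 : 1 ≤ (a ^ 3 - 27 * b).natAbs := Int.natAbs_pos.mpr hd0
      have hrd : rd b.natAbs * rd (a ^ 3 - 27 * b).natAbs = rd W.Δ.natAbs := by
        rw [hN', rd_mul_coprime _ _ (by positivity) (by omega) (Nat.Coprime.pow_left 3 hcop)]
        congr 1
        unfold rd
        rw [Nat.primeFactors_pow _ (by norm_num)]
      have hfl : ∀ k : ℕ, k ≤ W.Δ.natAbs → k ≤ ⌊Y ^ κ⌋₊ := by
        intro k hk
        apply Nat.le_floor
        exact le_trans (by exact_mod_cast hk) hD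
      refine ⟨hb0, hd0, by ring, h27, hfl _ ?_, hfl _ ?_, ?_, by rw [← h4, e1], by rw [← h6, e2]⟩
      · rw [hN']
        exact (Nat.le_self_pow (by norm_num) _).trans (Nat.le_mul_of_pos_right _ hd1)
      · rw [hN']
        exact Nat.le_mul_of_pos_left _ (by positivity)
      · have : ((rd b.natAbs : ℕ) : ℝ) * ((rd (a ^ 3 - 27 * b).natAbs : ℕ) : ℝ) =
            ((rd W.Δ.natAbs : ℕ) : ℝ) := by exact_mod_cast hrd
        simp only
        rw [this]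
        exact hN
    · exact ⟨0, fun h => absurd h hc⟩
  choose t ht using hpar
  have hZ1 : 1 ≤ ⌊Y ^ κ⌋₊ := by
    apply Nat.le_floor
    rw [Nat.cast_one]
    exact Real.one_le_rpow hY hκ.le
  have hZR : ((⌊Y ^ κ⌋₊ : ℕ) : ℝ) ≤ Y ^ κ := Nat.floor_le (by positivity)
  have hZσ : ((⌊Y ^ κ⌋₊ : ℕ) : ℝ) ^ σ ≤ Y ^ ε := by
    calc ((⌊Y ^ κ⌋₊ : ℕ) : ℝ) ^ σ ≤ (Y ^ κ) ^ σ :=
          Real.rpow_le_rpow (by positivity) hZR hσ0.le
      _ = Y ^ ε := by
          rw [← Real.rpow_mul hY0.le, hσ]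
          congr 1
          field_simp
  have key := Th.transfer (torSet 3 Y κ) (fun c => ((t c).2.1, (t c).2.2)) ⌊Y ^ κ⌋₊
    (C1 * Y ^ (3 / 4 + ε)) ?_ ?_ ?_
  · refine ⟨key.1, key.2.trans (le_of_eq (by ring))⟩
  · intro c hc c' hc' hcc
    simp only [Prod.mk.injEq] at hcc
    obtain ⟨⟨h1, h2⟩, _⟩ := hcc
    obtain ⟨_, _, e1, _, _, _, _, e2, e3⟩ := ht c hc
    obtain ⟨_, _, e1', _, _, _, _, e2', e3'⟩ := ht c' hc'
    have h3 : (t c).1 ^ 3 = (t c').1 ^ 3 := by rw [← e1, ← e1', h1, h2]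
    have h4 : (t c).1 = (t c').1 := (Odd.strictMono_pow (by decide : Odd 3)).injective h3
    exact Prod.ext (by rw [e2, e2', h4, h1]) (by rw [e3, e3', h4, h1])
  · intro c hc
    obtain ⟨_, _, _, _, h5, h6, _⟩ := ht c hc
    exact ⟨h5, h6⟩
  · intro s S hS
    have h := hmain s Y ⌊Y ^ κ⌋₊ S hY hZ1 hZR ?_
    · refine h.trans ?_
      have h1 : Y ^ (3 / 4 + ε) = Y ^ ε * Y ^ (3 / 4 : ℝ) := by
        rw [← Real.rpow_add hY0]
        congr 1
        ring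
      rw [h1, ← mul_assoc]
      apply mul_le_mul_of_nonneg_right _ (by positivity)
      exact mul_le_mul (hCle s) hZσ (by positivity) hC1pos.le
    · intro w hw
      obtain ⟨c, hc, h1, h2⟩ := hS w hw
      simp only at h1 h2
      obtain ⟨g1, g2, g3, g4, g5, g6, g7, _⟩ := ht c hc
      have a1 : (t c).2.1.natAbs = w.1 := by
        rw [h1, Int.natAbs_mul, sg_abs, one_mul, Int.natAbs_natCast]
      have a2 : (t c).2.2.natAbs = w.2 := by
        rw [h2, Int.natAbs_mul, sg_abs, one_mul, Int.natAbs_natCast]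
      rw [a1] at g5 g7
      rw [a2] at g6 g7
      have b1 : 1 ≤ w.1 := by rw [← a1]; exact Int.natAbs_pos.mpr g1
      have b2 : 1 ≤ w.2 := by rw [← a2]; exact Int.natAbs_pos.mpr g2
      have hg4 := g4
      rw [h1, h2] at g4
      refine ⟨b1, g5, b2, g6, g7, ?_, ?_, (t c).1, ?_⟩
      · rw [mul_assoc]
        exact (IsCoprime.mul_right_iff.mp g4).2
      · exact ((IsCoprime.mul_left_iff.mp (IsCoprime.mul_left_iff.mp g4).2).2).symm
      · rw [← g3, h1, h2]; ring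

end Pool.Agent.Lib.MP_d8bd92_nt
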