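import Pool.Agent.Lib.MP_d8bd92_nt.ThB

set_option autoImplicit false

/-!
Points on `α m + β u x ^ i = a ^ 3` with a bounded variable `x`.
-/

namespace Pool.Agent.Lib.MP_d8bd92_nt

open Finset Pool.Agent.Lib.Szpiro

namespace Th

/-- points with positive cube -/
theorem long_pos (α β : ℤ) (hα : α ≠ 0) (hβ : β ≠ 0) (i : ℕ) (hi : 1 ≤ i) (σ : ℝ) (hσ : 0 < σ) :
    ∃ C : ℝ, 1 ≤ C ∧ ∀ (Z m u X : ℕ) (S : Finset ℕ), 1 ≤ Z → 1 ≤ m → m ≤ Z → 1 ≤ u → u ≤ Z →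
    1 ≤ X → X ≤ Z →
    (∀ x ∈ S, 1 ≤ x ∧ x ≤ X ∧ u * x ^ i ≤ Z ∧
      ∃ a : ℕ, 1 ≤ a ∧ α * (m : ℤ) + β * ((u * x ^ i : ℕ) : ℤ) = (a : ℤ) ^ 3) →
    (S.card : ℝ) ≤ C * (Z : ℝ) ^ σ * (X : ℝ) ^ (1 / 3 : ℝ) := by
  classical
  obtain ⟨C, hC1, hC⟩ := tf_curve i 3 hi (by norm_num) σ hσ
  set c : ℕ := α.natAbs + β.natAbs with hc
  have hα1 : 1 ≤ α.natAbs := Int.natAbs_pos.mpr hα
  have hβ1 : 1 ≤ β.natAbs := Int.natAbs_pos.mpr hβ
  have hc1 : (1 : ℝ) ≤ (c : ℝ) := by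
    have : 1 ≤ c := by omega
    exact_mod_cast this
  have hcσ : (1 : ℝ) ≤ (c : ℝ) ^ σ := Real.one_le_rpow hc1 hσ.le
  refine ⟨C * (c : ℝ) ^ σ, one_le_mul_of_one_le_of_one_le hC1 hcσ, ?_⟩
  intro Z m u X S hZ hm hmZ hu huZ hX hXZ hS
  have hch : ∀ x : ℕ, ∃ a : ℕ, x ∈ S → 1 ≤ a ∧
      α * (m : ℤ) + β * ((u * x ^ i : ℕ) : ℤ) = (a : ℤ) ^ 3 := by
    intro x
    by_cases h : x ∈ S
    · obtain ⟨_, _, _, a, ha⟩ := hS x h
      exact ⟨a, fun _ => ha⟩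
    · exact ⟨0, fun h' => absurd h' h⟩
  choose f hf using hch
  have hinj : Set.InjOn (fun x : ℕ => (x, f x)) (S : Set ℕ) := by
    intro x _ y _ h
    exact (Prod.mk.inj h).1
  rw [← Finset.card_image_of_injOn hinj]
  have hZc : Z ≤ c * Z := Nat.le_mul_of_pos_left _ (by omega)
  have habs : ∀ (γ : ℤ) (v : ℕ), γ.natAbs ≤ c → v ≤ Z → |γ * (v : ℤ)| ≤ ((c * Z : ℕ) : ℤ) := by
    intro γ v h1 h2
    rw [abs_mul, Nat.abs_cast]
    push_cast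
    apply mul_le_mul
    · have h3 : (γ.natAbs : ℤ) ≤ (c : ℤ) := by exact_mod_cast h1
      rwa [Int.natCast_natAbs] at h3
    · exact_mod_cast h2
    · positivity
    · positivity
  have hfa : ∀ x ∈ S, f x ≤ c * Z := by
    intro x hx
    obtain ⟨h1, h2⟩ := hf x hx
    obtain ⟨_, _, h3, _⟩ := hS x hx
    have h4 : (f x : ℤ) ≤ (f x : ℤ) ^ 3 := by
      have h1' : (1 : ℤ) ≤ f x := by exact_mod_cast h1
      nlinarith [mul_le_mul h1' h1' zero_le_one (by linarith)]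
    have h5 : (f x : ℤ) ^ 3 ≤ |α| * Z + |β| * Z := by
      rw [← h2]
      have k1 : α * (m : ℤ) ≤ |α| * Z := by
        calc α * (m : ℤ) ≤ |α * (m : ℤ)| := le_abs_self _
          _ = |α| * m := by rw [abs_mul, Nat.abs_cast]
          _ ≤ |α| * Z := mul_le_mul_of_nonneg_left (by exact_mod_cast hmZ) (abs_nonneg _)
      have k2 : β * ((u * x ^ i : ℕ) : ℤ) ≤ |β| * Z := by
        calc β * ((u * x ^ i : ℕ) : ℤ) ≤ |β * ((u * x ^ i : ℕ) : ℤ)| := le_abs_self _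
          _ = |β| * ((u * x ^ i : ℕ) : ℤ) := by rw [abs_mul, Nat.abs_cast]
          _ ≤ |β| * Z := mul_le_mul_of_nonneg_left (by exact_mod_cast h3) (abs_nonneg _)
      linarith
    have h6 : ((c * Z : ℕ) : ℤ) = |α| * Z + |β| * Z := by
      rw [hc]
      push_cast
      ring
    have h7 : (f x : ℤ) ≤ ((c * Z : ℕ) : ℤ) := by rw [h6]; linarith
    exact_mod_cast h7
  have h := hC (c * Z) (β * (u : ℤ)) 1 (α * (m : ℤ)) X (c * Z) (S.image (fun x : ℕ => (x, f x)))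
    (hZ.trans hZc)
    (mul_ne_zero hβ (by exact_mod_cast (by omega : u ≠ 0))) one_ne_zero
    (mul_ne_zero hα (by exact_mod_cast (by omega : m ≠ 0)))
    (habs β u (by omega) huZ) ?_ (habs α m (by omega) hmZ) hX (hXZ.trans hZc)
    (hZ.trans hZc) le_rfl ?_
  · refine h.trans (le_of_eq ?_)
    push_cast
    rw [Real.mul_rpow (by positivity) (by positivity)]
    ring
  · rw [abs_one]
    exact_mod_cast hZ.trans hZc
  · intro q hq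
    obtain ⟨x, hx, rfl⟩ := Finset.mem_image.mp hq
    obtain ⟨h1, h2, _⟩ := hS x hx
    obtain ⟨h3, h4⟩ := hf x hx
    refine ⟨h1, h2, h3, hfa x hx, ?_⟩
    simp only
    rw [one_mul, ← h4]
    push_cast
    ring

/-- points on `α m + β u x ^ i = a ^ 3` -/
theorem long_fiber (α β : ℤ) (hα : α ≠ 0) (hβ : β ≠ 0) (i : ℕ) (hi : 1 ≤ i) (σ : ℝ) (hσ : 0 < σ) :
    ∃ C : ℝ, 1 ≤ C ∧ ∀ (Z m u X : ℕ) (S : Finset ℕ), 1 ≤ Z → 1 ≤ m → m ≤ Z → 1 ≤ u → u ≤ Z →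
    1 ≤ X → X ≤ Z →
    (∀ x ∈ S, 1 ≤ x ∧ x ≤ X ∧ u * x ^ i ≤ Z ∧
      ∃ a : ℤ, α * (m : ℤ) + β * ((u * x ^ i : ℕ) : ℤ) = a ^ 3) →
    (S.card : ℝ) ≤ C * (Z : ℝ) ^ σ * (X : ℝ) ^ (1 / 3 : ℝ) := by
  classical
  obtain ⟨C1, hC11, hC1⟩ := long_pos α β hα hβ i hi σ hσ
  obtain ⟨C2, hC21, hC2⟩ := long_pos (-α) (-β) (neg_ne_zero.mpr hα) (neg_ne_zero.mpr hβ) i hi σ hσ
  refine ⟨C1 + C2 + 1, by linarith, ?_⟩
  intro Z m u X S hZ hm hmZ hu huZ hX hXZ hS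
  set S1 := S.filter (fun x => ∃ a : ℕ, 1 ≤ a ∧
    α * (m : ℤ) + β * ((u * x ^ i : ℕ) : ℤ) = (a : ℤ) ^ 3) with hS1
  set S2 := S.filter (fun x => ∃ a : ℕ, 1 ≤ a ∧
    -α * (m : ℤ) + -β * ((u * x ^ i : ℕ) : ℤ) = (a : ℤ) ^ 3) with hS2
  set S3 := S.filter (fun x => α * (m : ℤ) + β * ((u * x ^ i : ℕ) : ℤ) = 0) with hS3
  have hcover : S ⊆ S1 ∪ (S2 ∪ S3) := by
    intro x hx
    obtain ⟨_, _, _, a, ha⟩ := hS x hx
    rw [Finset.mem_union, Finset.mem_union, hS1, hS2, hS3, Finset.mem_filter, Finset.mem_filter,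
      Finset.mem_filter]
    rcases lt_trichotomy a 0 with h | h | h
    · right; left
      refine ⟨hx, a.natAbs, Int.natAbs_pos.mpr h.ne, ?_⟩
      have : (a.natAbs : ℤ) = -a := by omega
      rw [this]
      linear_combination -ha
    · right; right
      exact ⟨hx, by rw [ha, h]; norm_num⟩
    · left
      refine ⟨hx, a.natAbs, Int.natAbs_pos.mpr h.ne', ?_⟩
      have : (a.natAbs : ℤ) = a := by omega
      rw [this, ha]
  have hcard : (S.card : ℝ) ≤ (S1.card : ℝ) + ((S2.card : ℝ) + (S3.card : ℝ)) := by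
    have h1 := (Finset.card_le_card hcover).trans ((Finset.card_union_le _ _).trans
      (Nat.add_le_add_left (Finset.card_union_le _ _) _))
    exact_mod_cast h1
  have h1 := hC1 Z m u X S1 hZ hm hmZ hu huZ hX hXZ (by
    intro x hx
    rw [hS1, Finset.mem_filter] at hx
    obtain ⟨k1, k2, k3, _⟩ := hS x hx.1
    exact ⟨k1, k2, k3, hx.2⟩)
  have h2 := hC2 Z m u X S2 hZ hm hmZ hu huZ hX hXZ (by
    intro x hx
    rw [hS2, Finset.mem_filter] at hx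
    obtain ⟨k1, k2, k3, _⟩ := hS x hx.1
    exact ⟨k1, k2, k3, hx.2⟩)
  have h3 : (S3.card : ℝ) ≤ 1 := by
    have : S3.card ≤ 1 := by
      rw [Finset.card_le_one]
      intro x hx y hy
      rw [hS3, Finset.mem_filter] at hx hy
      have h4 : β * ((u * x ^ i : ℕ) : ℤ) = β * ((u * y ^ i : ℕ) : ℤ) := by linarith [hx.2, hy.2]
      have h5 := mul_left_cancel₀ hβ h4
      have h6 : u * x ^ i = u * y ^ i := by exact_mod_cast h5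
      have h7 := Nat.eq_of_mul_eq_mul_left (by omega) h6
      exact Nat.pow_left_injective (by omega : i ≠ 0) h7
    exact_mod_cast this
  have hZ1 : (1 : ℝ) ≤ Z := by exact_mod_cast hZ
  have hX1 : (1 : ℝ) ≤ X := by exact_mod_cast hX
  have h4 : (1 : ℝ) ≤ (Z : ℝ) ^ σ * (X : ℝ) ^ (1 / 3 : ℝ) :=
    one_le_mul_of_one_le_of_one_le (Real.one_le_rpow hZ1 hσ.le) (Real.one_le_rpow hX1 (by norm_num))
  calc (S.card : ℝ) ≤ (S1.card : ℝ) + ((S2.card : ℝ) + (S3.card : ℝ)) := hcard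
    _ ≤ C1 * (Z : ℝ) ^ σ * (X : ℝ) ^ (1 / 3 : ℝ) + (C2 * (Z : ℝ) ^ σ * (X : ℝ) ^ (1 / 3 : ℝ) +
        (Z : ℝ) ^ σ * (X : ℝ) ^ (1 / 3 : ℝ)) := by linarith
    _ = (C1 + C2 + 1) * (Z : ℝ) ^ σ * (X : ℝ) ^ (1 / 3 : ℝ) := by ring

end Th

end Pool.Agent.Lib.MP_d8bd92_nt
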