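import Pool.Agent.Lib.MP_d8bd92_nt.ThC
import Pool.Agent.Lib.MP_d8bd92_nt.ToB

set_option autoImplicit false

/-!
Pairs of natural numbers with small radicals for which a fixed linear form is a cube.
-/

namespace Pool.Agent.Lib.MP_d8bd92_nt

open Finset Pool.Agent.Lib.Szpiro

namespace Th

/-- small larger radical: Cauchy-Schwarz -/
theorem part_cs (α β : ℤ) (hα : α ≠ 0) (hβ : β ≠ 0) (σ : ℝ) (hσ : 0 < σ) : ∃ C : ℝ, 1 ≤ C ∧
    ∀ (R : ℝ) (Z : ℕ) (S : Finset (ℕ × ℕ)), 1 ≤ R → 1 ≤ Z →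
      (∀ w ∈ S, 1 ≤ w.1 ∧ w.1 ≤ Z ∧ 1 ≤ w.2 ∧ w.2 ≤ Z ∧ (rd w.1 : ℝ) * rd w.2 ≤ R ∧
        (rd w.1 : ℝ) ≤ R ^ (1 / 2 : ℝ) ∧ (rd w.2 : ℝ) ≤ R ^ (3 / 4 : ℝ) ∧
        ∃ a : ℤ, α * (w.1 : ℤ) + β * (w.2 : ℤ) = a ^ 3) →
      (S.card : ℝ) ≤ C * (Z : ℝ) ^ σ * R ^ (3 / 4 : ℝ) := by
  classical
  obtain ⟨C1, hC11, hC1⟩ := cs_count (σ / 2) (by positivity)
  obtain ⟨C2, hC21, hC2⟩ := common α β hα hβ (σ / 2) (by positivity)
  refine ⟨C1 * C2, one_le_mul_of_one_le_of_one_le hC11 hC21, ?_⟩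
  intro R Z S hR hZ hS
  have hZ1 : (1 : ℝ) ≤ Z := by exact_mod_cast hZ
  have hZ0 : (0 : ℝ) < Z := zero_lt_one.trans_le hZ1
  have hZσ : (1 : ℝ) ≤ (Z : ℝ) ^ (σ / 2) := Real.one_le_rpow hZ1 (by positivity)
  have h := hC1 Z R (C2 * (Z : ℝ) ^ (σ / 2)) S hZ hR (one_le_mul_of_one_le_of_one_le hC21 hZσ) ?_ ?_
  · refine h.trans (le_of_eq ?_)
    have h7 : (Z : ℝ) ^ (σ / 2) * (Z : ℝ) ^ (σ / 2) = (Z : ℝ) ^ σ := by
      rw [← Real.rpow_add hZ0]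
      congr 1
      ring
    rw [← h7]
    ring
  · intro w hw
    obtain ⟨h1, h2, h3, h4, h5, h6, h7, _⟩ := hS w hw
    exact ⟨h1, h2, h3, h4, h5, h6, h7⟩
  · intro m m' hne
    rcases ((Icc 1 Z).filter (fun n => (m, n) ∈ S ∧ (m', n) ∈ S)).eq_empty_or_nonempty with h0 | ⟨n0, hn0⟩
    · rw [h0, Finset.card_empty, Nat.cast_zero]
      positivity
    · rw [Finset.mem_filter] at hn0
      have k1 := hS _ hn0.2.1
      have k2 := hS _ hn0.2.2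
      apply hC2 Z m m' _ hZ k1.2.1 k2.2.1 hne
      intro n hn
      rw [Finset.mem_filter] at hn
      exact ⟨(hS _ hn.2.1).2.2.2.2.2.2.2, (hS _ hn.2.2).2.2.2.2.2.2.2⟩

/-- the larger number has a large divisor with a small radical -/
theorem part_div (α β : ℤ) (hβ : β ≠ 0) (σ : ℝ) (hσ : 0 < σ) : ∃ C : ℝ, 1 ≤ C ∧
    ∀ (Q : ℝ) (Z : ℕ) (S : Finset (ℕ × ℕ)), 0 ≤ Q → 1 ≤ Z →
      (∀ w ∈ S, 1 ≤ w.1 ∧ w.1 ≤ Z ∧ 1 ≤ w.2 ∧ w.2 ≤ Z ∧ IsCoprime (α * (w.1 : ℤ)) (w.2 : ℤ) ∧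
        (∃ n₁ : ℕ, 1 ≤ n₁ ∧ n₁ ∣ w.2 ∧ w.2 ≤ n₁ ^ 2 ∧ (rd w.1 : ℝ) * rd n₁ ≤ Q) ∧
        ∃ a : ℤ, α * (w.1 : ℤ) + β * (w.2 : ℤ) = a ^ 3) →
      (S.card : ℝ) ≤ C * (Z : ℝ) ^ σ * Q := by
  classical
  obtain ⟨C1, hC11, hC1⟩ := weighted_count (α := ℕ × ℕ) (σ / 2) (by positivity)
  obtain ⟨C2, hC21, hC2⟩ := fiber_two α β hβ (σ / 2) (by positivity)
  refine ⟨C1 * C2, one_le_mul_of_one_le_of_one_le hC11 hC21, ?_⟩
  intro Q Z S hQ hZ hS
  have hZ1 : (1 : ℝ) ≤ Z := by exact_mod_cast hZ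
  have hZ0 : (0 : ℝ) < Z := zero_lt_one.trans_le hZ1
  have hch : ∀ w : ℕ × ℕ, ∃ n₁ : ℕ, w ∈ S → (1 ≤ n₁ ∧ n₁ ∣ w.2 ∧ w.2 ≤ n₁ ^ 2 ∧
      (rd w.1 : ℝ) * rd n₁ ≤ Q) := by
    intro w
    by_cases h : w ∈ S
    · obtain ⟨_, _, _, _, _, ⟨n₁, hn⟩, _⟩ := hS w h
      exact ⟨n₁, fun _ => hn⟩
    · exact ⟨0, fun h' => absurd h' h⟩
  choose f hf using hch
  have h := hC1 Z 1 (C2 * (Z : ℝ) ^ (σ / 2) * Q) S (fun w => (0, w.1, f w)) hZ (by positivity) ?_ ?_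
  · refine h.trans (le_of_eq ?_)
    have h7 : (Z : ℝ) ^ (σ / 2) * (Z : ℝ) ^ (σ / 2) = (Z : ℝ) ^ σ := by
      rw [← Real.rpow_add hZ0]
      congr 1
      ring
    rw [← h7]
    push_cast
    ring
  · intro w hw
    obtain ⟨h1, h2, h3, h4, _⟩ := hS w hw
    obtain ⟨k1, k2, _⟩ := hf w hw
    exact ⟨by norm_num, h1, h2, k1, (Nat.le_of_dvd (by omega) k2).trans h4⟩
  · intro j m u
    set F := S.filter (fun w => ((0, w.1, f w) : ℕ × ℕ × ℕ) = (j, m, u)) with hF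
    rcases F.eq_empty_or_nonempty with h0 | ⟨w0, hw0⟩
    · rw [h0, Finset.card_empty, Nat.cast_zero]
      positivity
    · have hmem : ∀ w ∈ F, w ∈ S ∧ w.1 = m ∧ f w = u := by
        intro w hw
        rw [hF, Finset.mem_filter] at hw
        have h1 := hw.2
        simp only [Prod.mk.injEq] at h1
        exact ⟨hw.1, h1.2.1, h1.2.2⟩
      obtain ⟨a1, a2, a3⟩ := hmem w0 hw0
      obtain ⟨b1, b2, b3, b4⟩ := hf w0 a1
      obtain ⟨c1, c2, c3, c4, c5, _⟩ := hS w0 a1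
      rw [a3] at b1 b2 b3 b4
      rw [a2] at b4 c5
      have hcard : (F.card : ℝ) ≤ C2 * (Z : ℝ) ^ (σ / 2) := by
        have h1 : F.card = (F.image Prod.snd).card := by
          rw [Finset.card_image_of_injOn]
          intro w hw w' hw' hww
          exact Prod.ext ((hmem w hw).2.1.trans (hmem w' hw').2.1.symm) hww
        rw [h1]
        apply hC2 Z m u _ hZ b1 ((Nat.le_of_dvd (by omega) b2).trans c4)
        · exact IsCoprime.of_isCoprime_of_dvd_right c5 (by exact_mod_cast b2)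
        · intro n hn
          obtain ⟨w, hw, rfl⟩ := Finset.mem_image.mp hn
          obtain ⟨d1, d2, d3⟩ := hmem w hw
          obtain ⟨e1, e2, e3, e4⟩ := hf w d1
          obtain ⟨_, _, _, _, _, _, a, ha⟩ := hS w d1
          rw [d3] at e2 e3
          rw [d2] at ha
          exact ⟨e2, e3, a, ha⟩
      have hm := one_le_rd m
      have hu := one_le_rd u
      have h3 : (1 : ℝ) ≤ Q * (((rd m : ℝ))⁻¹ * ((rd u : ℝ))⁻¹) := by
        rw [← mul_inv, ← div_eq_mul_inv, le_div_iff₀ (by positivity), one_mul]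
        exact b4
      calc (F.card : ℝ) ≤ C2 * (Z : ℝ) ^ (σ / 2) * 1 := by rw [mul_one]; exact hcard
        _ ≤ C2 * (Z : ℝ) ^ (σ / 2) * (Q * (((rd m : ℝ))⁻¹ * ((rd u : ℝ))⁻¹)) :=
            mul_le_mul_of_nonneg_left h3 (by positivity)
        _ = C2 * (Z : ℝ) ^ (σ / 2) * Q * (((rd m : ℝ))⁻¹ * ((rd u : ℝ))⁻¹) := by ring

/-- the larger number is a power of a large number times a number with small radical -/
theorem part_long (α β : ℤ) (hα : α ≠ 0) (hβ : β ≠ 0) (K : ℕ) (σ : ℝ) (hσ : 0 < σ) :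
    ∃ C : ℝ, 1 ≤ C ∧
    ∀ (R : ℝ) (Z : ℕ) (S : Finset (ℕ × ℕ)), 1 ≤ R → 1 ≤ Z →
      (∀ w ∈ S, 1 ≤ w.1 ∧ w.1 ≤ Z ∧ 1 ≤ w.2 ∧ w.2 ≤ Z ∧ (rd w.1 : ℝ) * rd w.2 ≤ R ∧
        (∃ p i n' : ℕ, 1 ≤ i ∧ i < K ∧ 1 ≤ n' ∧ n' * p ^ i = w.2 ∧ rd n' * p = rd w.2 ∧
          R ^ (1 / 2 : ℝ) ≤ (p : ℝ)) ∧
        ∃ a : ℤ, α * (w.1 : ℤ) + β * (w.2 : ℤ) = a ^ 3) →
      (S.card : ℝ) ≤ C * (Z : ℝ) ^ σ * R ^ (2 / 3 : ℝ) := by
  classical
  obtain ⟨C1, hC11, hC1⟩ := weighted_count (α := ℕ × ℕ) (σ / 2) (by positivity)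
  have hfs : ∀ i : ℕ, ∃ C : ℝ, 1 ≤ C ∧ (1 ≤ i → ∀ (Z m u X : ℕ) (S : Finset ℕ), 1 ≤ Z → 1 ≤ m →
      m ≤ Z → 1 ≤ u → u ≤ Z → 1 ≤ X → X ≤ Z →
      (∀ x ∈ S, 1 ≤ x ∧ x ≤ X ∧ u * x ^ i ≤ Z ∧
        ∃ a : ℤ, α * (m : ℤ) + β * ((u * x ^ i : ℕ) : ℤ) = a ^ 3) →
      (S.card : ℝ) ≤ C * (Z : ℝ) ^ (σ / 2) * (X : ℝ) ^ (1 / 3 : ℝ)) := by
    intro i
    by_cases hi : 1 ≤ i
    · obtain ⟨C, h1, h2⟩ := long_fiber α β hα hβ i hi (σ / 2) (by positivity)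
      exact ⟨C, h1, fun _ => h2⟩
    · exact ⟨1, le_rfl, fun h => absurd h hi⟩
  choose Cf hCf1 hCf using hfs
  have hCf0 : ∀ i, 0 ≤ Cf i := fun i => zero_le_one.trans (hCf1 i)
  set C2 : ℝ := 1 + ∑ i ∈ range K, Cf i with hC2
  have hC21 : 1 ≤ C2 := le_add_of_nonneg_right (Finset.sum_nonneg (fun i (_ : i ∈ range K) => hCf0 i))
  have hCle : ∀ i, i < K → Cf i ≤ C2 := by
    intro i hi
    exact le_add_of_nonneg_of_le zero_le_one
      (Finset.single_le_sum (f := Cf) (fun i _ => hCf0 i) (Finset.mem_range.mpr hi))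
  refine ⟨C1 * (K + 1) * C2, ?_, ?_⟩
  · have h1 : (1 : ℝ) ≤ (K : ℝ) + 1 := le_add_of_nonneg_left (Nat.cast_nonneg K)
    exact one_le_mul_of_one_le_of_one_le (one_le_mul_of_one_le_of_one_le hC11 h1) hC21
  intro R Z S hR hZ hS
  have hR0 : 0 < R := zero_lt_one.trans_le hR
  have hZ1 : (1 : ℝ) ≤ Z := by exact_mod_cast hZ
  have hZ0 : (0 : ℝ) < Z := zero_lt_one.trans_le hZ1
  have hch : ∀ w : ℕ × ℕ, ∃ t : ℕ × ℕ × ℕ, w ∈ S → (1 ≤ t.2.1 ∧ t.2.1 < K ∧ 1 ≤ t.2.2 ∧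
      t.2.2 * t.1 ^ t.2.1 = w.2 ∧ rd t.2.2 * t.1 = rd w.2 ∧ R ^ (1 / 2 : ℝ) ≤ (t.1 : ℝ)) := by
    intro w
    by_cases h : w ∈ S
    · obtain ⟨_, _, _, _, _, ⟨p, i, n', hn⟩, _⟩ := hS w h
      exact ⟨(p, i, n'), fun _ => hn⟩
    · exact ⟨0, fun h' => absurd h' h⟩
  choose f hf using hch
  have h := hC1 Z K (C2 * (Z : ℝ) ^ (σ / 2) * R ^ (2 / 3 : ℝ)) S
    (fun w => ((f w).2.1, w.1, (f w).2.2)) hZ (by positivity) ?_ ?_
  · have h7 : (Z : ℝ) ^ (σ / 2) * (Z : ℝ) ^ (σ / 2) = (Z : ℝ) ^ σ := by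
      rw [← Real.rpow_add hZ0]
      congr 1
      ring
    calc (S.card : ℝ) ≤ C1 * K * (Z : ℝ) ^ (σ / 2) * (C2 * (Z : ℝ) ^ (σ / 2) * R ^ (2 / 3 : ℝ)) := h
      _ = C1 * K * C2 * ((Z : ℝ) ^ (σ / 2) * (Z : ℝ) ^ (σ / 2)) * R ^ (2 / 3 : ℝ) := by ring
      _ = C1 * K * C2 * (Z : ℝ) ^ σ * R ^ (2 / 3 : ℝ) := by rw [h7]
      _ ≤ C1 * (K + 1) * C2 * (Z : ℝ) ^ σ * R ^ (2 / 3 : ℝ) := by
          have hC10 : 0 ≤ C1 := zero_le_one.trans hC11
          have hC20 : 0 ≤ C2 := zero_le_one.trans hC21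
          exact mul_le_mul_of_nonneg_right (mul_le_mul_of_nonneg_right (mul_le_mul_of_nonneg_right
            (mul_le_mul_of_nonneg_left (le_add_of_nonneg_right zero_le_one) hC10) hC20)
            (Real.rpow_nonneg hZ0.le _)) (Real.rpow_nonneg hR0.le _)
  · intro w hw
    obtain ⟨h1, h2, h3, h4, _⟩ := hS w hw
    obtain ⟨k1, k2, k3, k4, k5, k6⟩ := hf w hw
    refine ⟨k2, h1, h2, k3, ?_⟩
    refine le_trans (Nat.le_of_dvd (by omega) ?_) h4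
    rw [← k4]
    exact dvd_mul_right _ _
  · intro i m u
    set F := S.filter (fun w => (((f w).2.1, w.1, (f w).2.2) : ℕ × ℕ × ℕ) = (i, m, u)) with hF
    rcases F.eq_empty_or_nonempty with h0 | ⟨w0, hw0⟩
    · rw [h0, Finset.card_empty, Nat.cast_zero]
      positivity
    · have hmem : ∀ w ∈ F, w ∈ S ∧ (f w).2.1 = i ∧ w.1 = m ∧ (f w).2.2 = u := by
        intro w hw
        rw [hF, Finset.mem_filter] at hw
        have h1 := hw.2
        simp only [Prod.mk.injEq] at h1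
        exact ⟨hw.1, h1.1, h1.2.1, h1.2.2⟩
      have hm := one_le_rd m
      have hu := one_le_rd u
      set q : ℝ := R * (((rd m : ℝ))⁻¹ * ((rd u : ℝ))⁻¹) with hq
      have hpq : ∀ w ∈ F, ((f w).1 : ℝ) ≤ q := by
        intro w hw
        obtain ⟨a1, a2, a3, a4⟩ := hmem w hw
        obtain ⟨k1, k2, k3, k4, k5, k6⟩ := hf w a1
        obtain ⟨_, _, _, _, h5, _⟩ := hS w a1
        rw [hq, ← mul_inv, ← div_eq_mul_inv, le_div_iff₀ (by positivity)]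
        rw [← k5, a4, a3] at h5
        push_cast at h5
        calc ((f w).1 : ℝ) * ((rd m : ℝ) * (rd u : ℝ)) = (rd m : ℝ) * ((rd u : ℝ) * ((f w).1 : ℝ)) := by
              ring
          _ ≤ R := h5
      have hp1 : ∀ w ∈ F, 1 ≤ (f w).1 := by
        intro w hw
        obtain ⟨a1, _⟩ := hmem w hw
        obtain ⟨_, _, _, _, _, k6⟩ := hf w a1
        have h1 : (1 : ℝ) ≤ ((f w).1 : ℝ) := (Real.one_le_rpow hR (by norm_num)).trans k6
        exact_mod_cast h1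
      have hpZ : ∀ w ∈ F, (f w).1 ≤ Z := by
        intro w hw
        obtain ⟨a1, a2, a3, a4⟩ := hmem w hw
        obtain ⟨k1, k2, k3, k4, k5, k6⟩ := hf w a1
        obtain ⟨_, _, h3, h4, _⟩ := hS w a1
        refine le_trans (Nat.le_of_dvd (by omega) ?_) h4
        rw [← k4]
        exact Dvd.dvd.mul_left (dvd_pow_self _ (by omega)) _
      obtain ⟨a1, a2, a3, a4⟩ := hmem w0 hw0
      obtain ⟨k1, k2, k3, k4, k5, k6⟩ := hf w0 a1
      obtain ⟨c1, c2, c3, c4, c5, _⟩ := hS w0 a1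
      have hq0 : 0 < q := by positivity
      have hqR : R ^ (1 / 2 : ℝ) ≤ q := k6.trans (hpq w0 hw0)
      set X : ℕ := min ⌊q⌋₊ Z with hX
      have hX1 : 1 ≤ X := by
        rw [hX, le_min_iff]
        refine ⟨?_, hZ⟩
        apply Nat.le_floor
        rw [Nat.cast_one]
        exact (Real.one_le_rpow hR (by norm_num)).trans hqR
      have hXq : (X : ℝ) ≤ q := by
        have h1 : X ≤ ⌊q⌋₊ := min_le_left _ _
        exact le_trans (by exact_mod_cast h1) (Nat.floor_le hq0.le)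
      have hcard : (F.card : ℝ) ≤ Cf i * (Z : ℝ) ^ (σ / 2) * (X : ℝ) ^ (1 / 3 : ℝ) := by
        have h1 : F.card = (F.image (fun w => (f w).1)).card := by
          rw [Finset.card_image_of_injOn]
          intro w hw w' hw' hww
          simp only at hww
          obtain ⟨b1, b2, b3, b4⟩ := hmem w hw
          obtain ⟨b1', b2', b3', b4'⟩ := hmem w' hw'
          obtain ⟨_, _, _, e1, _⟩ := hf w b1
          obtain ⟨_, _, _, e2, _⟩ := hf w' b1'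
          apply Prod.ext
          · rw [b3, b3']
          · rw [← e1, ← e2, b2, b2', b4, b4', hww]
        rw [h1]
        rw [a2] at k1
        apply hCf i k1 Z m u X _ hZ (by rw [← a3]; exact c1) (by rw [← a3]; exact c2)
          (by rw [← a4]; exact k3) ?_ hX1 (min_le_right _ _)
        · intro x hx
          obtain ⟨w, hw, rfl⟩ := Finset.mem_image.mp hx
          obtain ⟨b1, b2, b3, b4⟩ := hmem w hw
          obtain ⟨_, _, _, e1, _⟩ := hf w b1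
          obtain ⟨_, _, _, g4, _, _, a, ha⟩ := hS w b1
          rw [b2, b4] at e1
          refine ⟨hp1 w hw, ?_, ?_, a, ?_⟩
          · rw [hX, le_min_iff]
            exact ⟨Nat.le_floor (hpq w hw), hpZ w hw⟩
          · rw [e1]; exact g4
          · rw [e1, ← b3]; exact ha
        · refine le_trans (Nat.le_of_dvd (by omega) ?_) c4
          rw [← k4, a4]
          exact dvd_mul_right _ _
      have hXb : (X : ℝ) ^ (1 / 3 : ℝ) ≤ R ^ (-(1 / 3) : ℝ) * q := by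
        calc (X : ℝ) ^ (1 / 3 : ℝ) ≤ q ^ (1 / 3 : ℝ) :=
              Real.rpow_le_rpow (by positivity) hXq (by norm_num)
          _ = q ^ (-(2 / 3) : ℝ) * q := by
              nth_rewrite 3 [← Real.rpow_one q]
              rw [← Real.rpow_add hq0]
              norm_num
          _ ≤ R ^ (-(1 / 3) : ℝ) * q := by
              apply mul_le_mul_of_nonneg_right _ hq0.le
              calc q ^ (-(2 / 3) : ℝ) ≤ (R ^ (1 / 2 : ℝ)) ^ (-(2 / 3) : ℝ) :=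
                    Real.rpow_le_rpow_of_nonpos (by positivity) hqR (by norm_num)
                _ = R ^ (-(1 / 3) : ℝ) := by
                    rw [← Real.rpow_mul hR0.le]
                    norm_num
      have hRR : R ^ (-(1 / 3) : ℝ) * R = R ^ (2 / 3 : ℝ) := by
        nth_rewrite 2 [← Real.rpow_one R]
        rw [← Real.rpow_add hR0]
        norm_num
      have hi : i < K := by rw [← a2]; exact k2
      calc (F.card : ℝ) ≤ Cf i * (Z : ℝ) ^ (σ / 2) * (X : ℝ) ^ (1 / 3 : ℝ) := hcard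
        _ ≤ C2 * (Z : ℝ) ^ (σ / 2) * (R ^ (-(1 / 3) : ℝ) * q) := by
            apply mul_le_mul _ hXb (by positivity) (by positivity)
            exact mul_le_mul_of_nonneg_right (hCle i hi) (by positivity)
        _ = C2 * (Z : ℝ) ^ (σ / 2) * (R ^ (-(1 / 3) : ℝ) * R) *
            (((rd m : ℝ))⁻¹ * ((rd u : ℝ))⁻¹) := by rw [hq]; ring
        _ = C2 * (Z : ℝ) ^ (σ / 2) * R ^ (2 / 3 : ℝ) * (((rd m : ℝ))⁻¹ * ((rd u : ℝ))⁻¹) := by
            rw [hRR]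

/-- pairs whose first member has the smaller radical -/
theorem half_count (α β : ℤ) (hα : α ≠ 0) (hβ : β ≠ 0) (τ σ : ℝ) (hτ : 0 < τ) (hσ : 0 < σ) :
    ∃ C : ℝ, 1 ≤ C ∧ ∀ (R : ℝ) (Z : ℕ) (S : Finset (ℕ × ℕ)), 1 ≤ R → 1 ≤ Z → (Z : ℝ) ≤ R ^ τ →
      (∀ w ∈ S, 1 ≤ w.1 ∧ w.1 ≤ Z ∧ 1 ≤ w.2 ∧ w.2 ≤ Z ∧ (rd w.1 : ℝ) * rd w.2 ≤ R ∧
        (rd w.1 : ℝ) ≤ R ^ (1 / 2 : ℝ) ∧ IsCoprime (α * (w.1 : ℤ)) (w.2 : ℤ) ∧
        ∃ a : ℤ, α * (w.1 : ℤ) + β * (w.2 : ℤ) = a ^ 3) →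
      (S.card : ℝ) ≤ C * (Z : ℝ) ^ σ * R ^ (3 / 4 : ℝ) := by
  classical
  set K : ℕ := ⌈2 * τ⌉₊ + 1 with hK
  obtain ⟨C1, hC11, hC1⟩ := part_cs α β hα hβ σ hσ
  obtain ⟨C2, hC21, hC2⟩ := part_div α β hβ σ hσ
  obtain ⟨C3, hC31, hC3⟩ := part_long α β hα hβ K σ hσ
  refine ⟨C1 + C2 + C3, le_add_of_le_of_nonneg (le_add_of_le_of_nonneg hC11 (zero_le_one.trans hC21)) (zero_le_one.trans hC31), ?_⟩
  intro R Z S hR hZ hZR hS
  have hR0 : 0 < R := zero_lt_one.trans_le hR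
  have hZ1 : (1 : ℝ) ≤ Z := by exact_mod_cast hZ
  set S1 := S.filter (fun w => (rd w.2 : ℝ) ≤ R ^ (3 / 4 : ℝ)) with hS1
  set S2 := S.filter (fun w => ∃ n₁ : ℕ, 1 ≤ n₁ ∧ n₁ ∣ w.2 ∧ w.2 ≤ n₁ ^ 2 ∧
    (rd w.1 : ℝ) * rd n₁ ≤ R ^ (3 / 4 : ℝ)) with hS2
  set S3 := S.filter (fun w => ∃ p i n' : ℕ, 1 ≤ i ∧ i < K ∧ 1 ≤ n' ∧ n' * p ^ i = w.2 ∧
    rd n' * p = rd w.2 ∧ R ^ (1 / 2 : ℝ) ≤ (p : ℝ)) with hS3
  have hcover : S ⊆ S1 ∪ (S2 ∪ S3) := by
    intro w hw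
    rw [Finset.mem_union, Finset.mem_union, hS1, hS2, hS3, Finset.mem_filter, Finset.mem_filter,
      Finset.mem_filter]
    obtain ⟨h1, h2, h3, h4, h5, h6, h7, h8⟩ := hS w hw
    by_cases hsmall : (rd w.2 : ℝ) ≤ R ^ (3 / 4 : ℝ)
    · exact Or.inl ⟨hw, hsmall⟩
    · right
      push Not at hsmall
      set T : ℝ := R ^ (1 / 4 : ℝ) with hT
      have hT1 : 1 ≤ T := Real.one_le_rpow hR (by norm_num)
      have hT0 : 0 < T := zero_lt_one.trans_le hT1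
      have hT3 : T ^ 3 = R ^ (3 / 4 : ℝ) := by
        rw [hT, ← Real.rpow_natCast, ← Real.rpow_mul hR0.le]
        norm_num
      have hT2 : T ^ 2 = R ^ (1 / 2 : ℝ) := by
        rw [hT, ← Real.rpow_natCast, ← Real.rpow_mul hR0.le]
        norm_num
      have hT4 : T ^ 4 = R := by
        rw [hT, ← Real.rpow_natCast, ← Real.rpow_mul hR0.le]
        norm_num
      rcases split_rd w.2 (by omega) T hT1 (by rw [hT3]; exact hsmall) with
        ⟨n1, n2, e1, e2, e3, e4⟩ | ⟨p, i, n', e1, e2, e3, e4, e5, e6⟩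
      · left
        refine ⟨hw, ?_⟩
        have hn1 : n1 ≠ 0 := by rintro rfl; rw [zero_mul] at e1; omega
        have hn2 : n2 ≠ 0 := by rintro rfl; rw [mul_zero] at e1; omega
        have hrd : rd w.2 = rd n1 * rd n2 := by rw [← e1]; exact rd_mul_coprime n1 n2 hn1 hn2 e2
        have hbd : ∀ x y : ℕ, rd w.2 = rd x * rd y → T ≤ (rd y : ℝ) →
            (rd w.1 : ℝ) * rd x ≤ R ^ (3 / 4 : ℝ) := by
          intro x y hxy hy
          rw [hxy] at h5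
          push_cast at h5
          rw [← hT3]
          have h9 : (rd w.1 : ℝ) * rd x * T ≤ T ^ 3 * T := by
            calc (rd w.1 : ℝ) * rd x * T ≤ (rd w.1 : ℝ) * rd x * rd y :=
                  mul_le_mul_of_nonneg_left hy (by positivity)
              _ = (rd w.1 : ℝ) * (rd x * rd y) := by ring
              _ ≤ R := h5
              _ = T ^ 3 * T := by rw [← hT4]; ring
          exact le_of_mul_le_mul_right h9 hT0
        rcases le_total n1 n2 with hle | hle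
        · refine ⟨n2, by omega, ?_, ?_, hbd n2 n1 (by rw [hrd, mul_comm]) e3⟩
          · rw [← e1]; exact dvd_mul_left _ _
          · rw [← e1, sq]; exact Nat.mul_le_mul_right _ hle
        · refine ⟨n1, by omega, ?_, ?_, hbd n1 n2 hrd e4⟩
          · rw [← e1]; exact dvd_mul_right _ _
          · rw [← e1, sq]; exact Nat.mul_le_mul_left _ hle
      · right
        refine ⟨hw, p, i, n', e2, ?_, by omega, e4, e5, ?_⟩
        · -- bounded exponent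
          have hp : T ^ 2 < (p : ℝ) := by
            by_contra hcon
            push Not at hcon
            have h9 : (rd w.2 : ℝ) ≤ T * T ^ 2 := by
              rw [← e5]
              push_cast
              exact mul_le_mul e6.le hcon (by positivity) hT0.le
            rw [← pow_succ'] at h9
            exact absurd h9 (not_le.2 (lt_of_eq_of_lt hT3 hsmall))
          rw [hT2] at hp
          have hRne : 1 < R := by
            by_contra hcon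
            have hR1 : R = 1 := le_antisymm (not_lt.1 hcon) hR
            rw [hR1, Real.one_rpow] at hZR
            have hZ' : Z ≤ 1 := by exact_mod_cast hZR
            have hw2 : w.2 = 1 := by omega
            rw [hw2, rd_one, hR1, Real.one_rpow] at hsmall
            norm_num at hsmall
          have hpow : (p : ℝ) ^ i ≤ R ^ τ := by
            refine le_trans ?_ hZR
            have h9 : p ^ i ≤ Z := by
              refine le_trans ?_ h4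
              rw [← e4]
              exact Nat.le_mul_of_pos_left _ (by omega)
            exact_mod_cast h9
          have h10 : R ^ ((i : ℝ) / 2) ≤ R ^ τ := by
            calc R ^ ((i : ℝ) / 2) = (R ^ (1 / 2 : ℝ)) ^ i := by
                  rw [← Real.rpow_natCast, ← Real.rpow_mul hR0.le]
                  congr 1
                  ring
              _ ≤ (p : ℝ) ^ i := pow_le_pow_left₀ (by positivity) hp.le i
              _ ≤ R ^ τ := hpow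
          have h11 : (i : ℝ) / 2 ≤ τ := (Real.rpow_le_rpow_left_iff hRne).mp h10
          have h12 : (i : ℝ) ≤ (⌈2 * τ⌉₊ : ℝ) :=
            ((div_le_iff₀' two_pos).1 h11).trans (Nat.le_ceil (2 * τ))
          have h13 : i ≤ ⌈2 * τ⌉₊ := by exact_mod_cast h12
          omega
        · rw [← hT2]
          by_contra hcon
          push Not at hcon
          have h9 : (rd w.2 : ℝ) ≤ T * T ^ 2 := by
            rw [← e5]
            push_cast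
            exact mul_le_mul e6.le hcon.le (by positivity) hT0.le
          rw [← pow_succ'] at h9
          exact absurd h9 (not_le.2 (lt_of_eq_of_lt hT3 hsmall))
  have hcard : (S.card : ℝ) ≤ (S1.card : ℝ) + ((S2.card : ℝ) + (S3.card : ℝ)) := by
    have h1 := (Finset.card_le_card hcover).trans ((Finset.card_union_le _ _).trans
      (Nat.add_le_add_left (Finset.card_union_le _ _) _))
    exact_mod_cast h1
  have h1 := hC1 R Z S1 hR hZ (by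
    intro w hw
    rw [hS1, Finset.mem_filter] at hw
    obtain ⟨k1, k2, k3, k4, k5, k6, k7, k8⟩ := hS w hw.1
    exact ⟨k1, k2, k3, k4, k5, k6, hw.2, k8⟩)
  have h2 := hC2 (R ^ (3 / 4 : ℝ)) Z S2 (by positivity) hZ (by
    intro w hw
    rw [hS2, Finset.mem_filter] at hw
    obtain ⟨k1, k2, k3, k4, k5, k6, k7, k8⟩ := hS w hw.1
    exact ⟨k1, k2, k3, k4, k7, hw.2, k8⟩)
  have h3 := hC3 R Z S3 hR hZ (by
    intro w hw
    rw [hS3, Finset.mem_filter] at hw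
    obtain ⟨k1, k2, k3, k4, k5, k6, k7, k8⟩ := hS w hw.1
    exact ⟨k1, k2, k3, k4, k5, hw.2, k8⟩)
  have h4 : R ^ (2 / 3 : ℝ) ≤ R ^ (3 / 4 : ℝ) :=
    Real.rpow_le_rpow_of_exponent_le hR (by norm_num)
  calc (S.card : ℝ) ≤ (S1.card : ℝ) + ((S2.card : ℝ) + (S3.card : ℝ)) := hcard
    _ ≤ C1 * (Z : ℝ) ^ σ * R ^ (3 / 4 : ℝ) + (C2 * (Z : ℝ) ^ σ * R ^ (3 / 4 : ℝ) +
        C3 * (Z : ℝ) ^ σ * R ^ (2 / 3 : ℝ)) := add_le_add h1 (add_le_add h2 h3)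
    _ ≤ C1 * (Z : ℝ) ^ σ * R ^ (3 / 4 : ℝ) + (C2 * (Z : ℝ) ^ σ * R ^ (3 / 4 : ℝ) +
        C3 * (Z : ℝ) ^ σ * R ^ (3 / 4 : ℝ)) :=
          add_le_add le_rfl (add_le_add le_rfl (mul_le_mul_of_nonneg_left h4
            (mul_nonneg (zero_le_one.trans hC31) (Real.rpow_nonneg (zero_le_one.trans hZ1) _))))
    _ = (C1 + C2 + C3) * (Z : ℝ) ^ σ * R ^ (3 / 4 : ℝ) := by ring

/-- pairs with small radicals for which a fixed linear form is a cube -/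
theorem pair_count (α β : ℤ) (hα : α ≠ 0) (hβ : β ≠ 0) (τ σ : ℝ) (hτ : 0 < τ) (hσ : 0 < σ) :
    ∃ C : ℝ, 1 ≤ C ∧ ∀ (R : ℝ) (Z : ℕ) (S : Finset (ℕ × ℕ)), 1 ≤ R → 1 ≤ Z → (Z : ℝ) ≤ R ^ τ →
      (∀ w ∈ S, 1 ≤ w.1 ∧ w.1 ≤ Z ∧ 1 ≤ w.2 ∧ w.2 ≤ Z ∧ (rd w.1 : ℝ) * rd w.2 ≤ R ∧
        IsCoprime (α * (w.1 : ℤ)) (w.2 : ℤ) ∧ IsCoprime (β * (w.2 : ℤ)) (w.1 : ℤ) ∧
        ∃ a : ℤ, α * (w.1 : ℤ) + β * (w.2 : ℤ) = a ^ 3) →
      (S.card : ℝ) ≤ C * (Z : ℝ) ^ σ * R ^ (3 / 4 : ℝ) := by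
  classical
  obtain ⟨Ca, hCa, ha⟩ := half_count α β hα hβ τ σ hτ hσ
  obtain ⟨Cb, hCb, hb⟩ := half_count β α hβ hα τ σ hτ hσ
  refine ⟨Ca + Cb, le_add_of_le_of_nonneg hCa (zero_le_one.trans hCb), ?_⟩
  intro R Z S hR hZ hZR hS
  have hR0 : 0 < R := zero_lt_one.trans_le hR
  set S1 := S.filter (fun w => (rd w.1 : ℝ) ≤ R ^ (1 / 2 : ℝ)) with hS1
  set S2 := S.filter (fun w => (rd w.2 : ℝ) ≤ R ^ (1 / 2 : ℝ)) with hS2
  have hcover : S ⊆ S1 ∪ S2 := by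
    intro w hw
    obtain ⟨_, _, _, _, h5, _⟩ := hS w hw
    rw [Finset.mem_union, hS1, hS2, Finset.mem_filter, Finset.mem_filter]
    by_cases h : (rd w.1 : ℝ) ≤ R ^ (1 / 2 : ℝ)
    · exact Or.inl ⟨hw, h⟩
    · right
      refine ⟨hw, ?_⟩
      push Not at h
      by_contra hcon
      push Not at hcon
      have h1 : R ^ (1 / 2 : ℝ) * R ^ (1 / 2 : ℝ) < (rd w.1 : ℝ) * rd w.2 :=
        mul_lt_mul'' h hcon (by positivity) (by positivity)
      rw [← Real.rpow_add hR0] at h1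
      norm_num at h1
      exact absurd h5 (not_le.2 h1)
  have hcard : (S.card : ℝ) ≤ (S1.card : ℝ) + (S2.card : ℝ) := by
    have h1 := (Finset.card_le_card hcover).trans (Finset.card_union_le _ _)
    exact_mod_cast h1
  have h1 := ha R Z S1 hR hZ hZR (by
    intro w hw
    rw [hS1, Finset.mem_filter] at hw
    obtain ⟨k1, k2, k3, k4, k5, k6, k7, k8⟩ := hS w hw.1
    exact ⟨k1, k2, k3, k4, k5, hw.2, k6, k8⟩)
  have h2 : (S2.card : ℝ) ≤ Cb * (Z : ℝ) ^ σ * R ^ (3 / 4 : ℝ) := by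
    have h4 : S2.card = (S2.map ⟨Prod.swap, Prod.swap_injective⟩).card := (Finset.card_map _).symm
    rw [h4]
    apply hb R Z _ hR hZ hZR
    intro w hw
    rw [Finset.mem_map] at hw
    obtain ⟨v, hv, rfl⟩ := hw
    rw [hS2, Finset.mem_filter] at hv
    obtain ⟨k1, k2, k3, k4, k5, k6, k7, a, k8⟩ := hS v hv.1
    simp only [Function.Embedding.coeFn_mk, Prod.fst_swap, Prod.snd_swap]
    exact ⟨k3, k4, k1, k2, by rw [mul_comm]; exact k5, hv.2, k7, a, by rw [← k8]; ring⟩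
  calc (S.card : ℝ) ≤ (S1.card : ℝ) + (S2.card : ℝ) := hcard
    _ ≤ Ca * (Z : ℝ) ^ σ * R ^ (3 / 4 : ℝ) + Cb * (Z : ℝ) ^ σ * R ^ (3 / 4 : ℝ) := add_le_add h1 h2
    _ = (Ca + Cb) * (Z : ℝ) ^ σ * R ^ (3 / 4 : ℝ) := by ring

end Th

end Pool.Agent.Lib.MP_d8bd92_nt
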