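import Pool.Agent.Lib.MP_d8bd92_nt.TwSieve

set_option autoImplicit false

/-!
Gallagher's larger sieve, and the number of square values of `A x^j + B` in an interval:
at most `C N^(1/2) W^ε`, uniformly in the coefficients.
-/

namespace Pool.Agent.Lib.MP_d8bd92_nt

open Finset

/-- the primes of a set dividing a given nonzero number -/
theorem sum_log_dvd_le (Pr : Finset ℕ) (hPr : ∀ p ∈ Pr, p.Prime) (d : ℕ) (hd : d ≠ 0) :
    ∑ p ∈ Pr.filter (fun p => p ∣ d), Real.log p ≤ Real.log d := by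
  classical
  have h1 : ∏ p ∈ Pr.filter (fun p => p ∣ d), p ∣ d := by
    apply Finset.prod_primes_dvd
    · intro p hp
      exact (hPr p (Finset.mem_filter.mp hp).1).prime
    · intro p hp
      exact (Finset.mem_filter.mp hp).2
  have h2 : ∑ p ∈ Pr.filter (fun p => p ∣ d), Real.log p =
      Real.log ((∏ p ∈ Pr.filter (fun p => p ∣ d), p : ℕ) : ℝ) := by
    push_cast
    rw [Real.log_prod]
    intro p hp
    exact_mod_cast (hPr p (Finset.mem_filter.mp hp).1).ne_zero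
  rw [h2]
  apply Real.log_le_log
  · have : 0 < ∏ p ∈ Pr.filter (fun p => p ∣ d), p :=
      Finset.prod_pos (fun p hp => (hPr p (Finset.mem_filter.mp hp).1).pos)
    exact_mod_cast this
  · exact_mod_cast Nat.le_of_dvd (Nat.pos_of_ne_zero hd) h1

/-- pairs in the same class -/
theorem sq_card_le_mod (S : Finset ℕ) (p : ℕ) :
    (S.card : ℝ) ^ 2 ≤ ((S.image (fun x => x % p)).card : ℝ) *
      ∑ x ∈ S, ∑ y ∈ S, (if x % p = y % p then (1 : ℝ) else 0) := by
  classical
  set T := S.image (fun x => x % p) with hT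
  have h1 : (S.card : ℝ) = ∑ r ∈ T, ((S.filter (fun x => x % p = r)).card : ℝ) := by
    rw [Finset.card_eq_sum_card_image (fun x => x % p) S]
    push_cast
    rfl
  have h2 : ∑ r ∈ T, ((S.filter (fun x => x % p = r)).card : ℝ) ^ 2 =
      ∑ x ∈ S, ∑ y ∈ S, (if x % p = y % p then (1 : ℝ) else 0) := by
    have h3 : ∀ r ∈ T, ((S.filter (fun x => x % p = r)).card : ℝ) ^ 2 =
        ∑ x ∈ S, ∑ y ∈ S, (if x % p = r then (if x % p = y % p then (1 : ℝ) else 0) else 0) := by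
      intro r _
      rw [sq, Finset.card_filter]
      push_cast
      rw [Finset.sum_mul_sum]
      apply Finset.sum_congr rfl
      intro x _
      apply Finset.sum_congr rfl
      intro y _
      by_cases hx : x % p = r
      · simp only [hx, if_true, one_mul]
        by_cases hy : y % p = r
        · simp [hy]
        · rw [if_neg hy, if_neg (fun h => hy h.symm)]
      · simp [hx]
    rw [Finset.sum_congr rfl h3, Finset.sum_comm]
    apply Finset.sum_congr rfl
    intro x hx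
    rw [Finset.sum_comm]
    apply Finset.sum_congr rfl
    intro y _
    rw [Finset.sum_ite_eq, if_pos (Finset.mem_image_of_mem _ hx)]
  rw [← h2, h1]
  exact sq_sum_le_card_mul_sum_sq

/-- Gallagher's larger sieve. -/
theorem larger_sieve (S : Finset ℕ) (N : ℕ) (hN : 1 ≤ N) (hS : ∀ x ∈ S, x ≤ N) (Pr : Finset ℕ)
    (hPr : ∀ p ∈ Pr, p.Prime) (ν : ℕ → ℝ) (hν0 : ∀ p ∈ Pr, 0 < ν p)
    (hν : ∀ p ∈ Pr, ((S.image (fun x => x % p)).card : ℝ) ≤ ν p) :
    (S.card : ℝ) * (∑ p ∈ Pr, Real.log p / ν p - Real.log N) ≤ ∑ p ∈ Pr, Real.log p := by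
  classical
  have hlog : ∀ p ∈ Pr, 0 ≤ Real.log p := fun p hp =>
    Real.log_nonneg (by exact_mod_cast (hPr p hp).one_lt.le)
  rcases S.eq_empty_or_nonempty with hE | hne
  · subst hE
    simp only [Finset.card_empty, Nat.cast_zero, zero_mul]
    exact Finset.sum_nonneg hlog
  have hScard : (0 : ℝ) < (S.card : ℝ) := by exact_mod_cast Finset.card_pos.mpr hne
  have hlogN : 0 ≤ Real.log N := Real.log_nonneg (by exact_mod_cast hN)
  have h1 : ∀ p ∈ Pr, (S.card : ℝ) ^ 2 * (Real.log p / ν p) ≤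
      Real.log p * ∑ x ∈ S, ∑ y ∈ S, (if x % p = y % p then (1 : ℝ) else 0) := by
    intro p hp
    have h2 := sq_card_le_mod S p
    have h3 : (0 : ℝ) ≤ ∑ x ∈ S, ∑ y ∈ S, (if x % p = y % p then (1 : ℝ) else 0) :=
      Finset.sum_nonneg (fun x _ => Finset.sum_nonneg (fun y _ => by split_ifs <;> norm_num))
    have h4 := h2.trans (mul_le_mul_of_nonneg_right (hν p hp) h3)
    have h5 := hν0 p hp
    calc (S.card : ℝ) ^ 2 * (Real.log p / ν p) ≤
        (ν p * ∑ x ∈ S, ∑ y ∈ S, (if x % p = y % p then (1 : ℝ) else 0)) * (Real.log p / ν p) :=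
          mul_le_mul_of_nonneg_right h4 (div_nonneg (hlog p hp) h5.le)
      _ = Real.log p * ∑ x ∈ S, ∑ y ∈ S, (if x % p = y % p then (1 : ℝ) else 0) := by
          field_simp
  have h2 : (S.card : ℝ) ^ 2 * ∑ p ∈ Pr, Real.log p / ν p ≤
      ∑ x ∈ S, ∑ y ∈ S, ∑ p ∈ Pr, (if x % p = y % p then Real.log p else 0) := by
    rw [Finset.mul_sum]
    refine (Finset.sum_le_sum h1).trans (le_of_eq ?_)
    have h3 : ∀ p ∈ Pr, Real.log p * ∑ x ∈ S, ∑ y ∈ S, (if x % p = y % p then (1 : ℝ) else 0) =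
        ∑ x ∈ S, ∑ y ∈ S, (if x % p = y % p then Real.log p else 0) := by
      intro p _
      rw [Finset.mul_sum]
      apply Finset.sum_congr rfl
      intro x _
      rw [Finset.mul_sum]
      apply Finset.sum_congr rfl
      intro y _
      split_ifs <;> simp
    rw [Finset.sum_congr rfl h3, Finset.sum_comm]
    apply Finset.sum_congr rfl
    intro x _
    rw [Finset.sum_comm]
  have h3 : ∀ x ∈ S, ∑ y ∈ S, ∑ p ∈ Pr, (if x % p = y % p then Real.log p else 0) ≤
      ∑ p ∈ Pr, Real.log p + (S.card : ℝ) * Real.log N := by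
    intro x hx
    rw [← Finset.add_sum_erase _ _ hx]
    apply add_le_add
    · apply Finset.sum_le_sum
      intro p hp
      simp
    · have h4 : ∀ y ∈ S.erase x, ∑ p ∈ Pr, (if x % p = y % p then Real.log p else 0) ≤
          Real.log N := by
        intro y hy
        rw [Finset.mem_erase] at hy
        obtain ⟨d, hd⟩ : ∃ d : ℕ, d = ((x : ℤ) - (y : ℤ)).natAbs := ⟨_, rfl⟩
        have hd0 : d ≠ 0 := by
          rw [hd]
          intro h
          rw [Int.natAbs_eq_zero] at h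
          exact hy.1 (by omega)
        have hdN : d ≤ N := by
          have h5 := hS x hx
          have h6 := hS y hy.2
          omega
        rw [← Finset.sum_filter]
        have h5 : Pr.filter (fun p => x % p = y % p) ⊆ Pr.filter (fun p => p ∣ d) := by
          intro p hp
          rw [Finset.mem_filter] at hp ⊢
          refine ⟨hp.1, ?_⟩
          rw [hd]
          have h6 : (x : ℤ) ≡ (y : ℤ) [ZMOD (p : ℤ)] := by
            have h7 : x ≡ y [MOD p] := hp.2
            exact_mod_cast (Int.natCast_modEq_iff.mpr h7)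
          have h7 : (p : ℤ) ∣ (x : ℤ) - y := (Int.modEq_iff_dvd.mp h6.symm)
          exact Int.natCast_dvd.mp h7
        refine (Finset.sum_le_sum_of_subset_of_nonneg h5 ?_).trans ?_
        · intro p hp _
          exact hlog p (Finset.mem_filter.mp hp).1
        · refine (sum_log_dvd_le Pr hPr d hd0).trans ?_
          apply Real.log_le_log
          · exact_mod_cast Nat.pos_of_ne_zero hd0
          · exact_mod_cast hdN
      refine (Finset.sum_le_card_nsmul _ _ _ h4).trans ?_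
      rw [nsmul_eq_mul]
      apply mul_le_mul_of_nonneg_right _ hlogN
      exact_mod_cast Finset.card_le_card (Finset.erase_subset _ _)
  have h4 : ∑ x ∈ S, ∑ y ∈ S, ∑ p ∈ Pr, (if x % p = y % p then Real.log p else 0) ≤
      (S.card : ℝ) * (∑ p ∈ Pr, Real.log p + (S.card : ℝ) * Real.log N) := by
    refine (Finset.sum_le_card_nsmul _ _ _ h3).trans ?_
    rw [nsmul_eq_mul]
  have h5 := h2.trans h4
  have h6 : (S.card : ℝ) * ((S.card : ℝ) * (∑ p ∈ Pr, Real.log p / ν p - Real.log N)) ≤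
      (S.card : ℝ) * ∑ p ∈ Pr, Real.log p := by linarith
  exact le_of_mul_le_mul_left h6 hScard

/-- Mertens, lower bound: `∑_{p ≤ n} log p / (p - 1) ≥ log n - 1`. -/
theorem sum_log_div_ge (n : ℕ) (hn : 1 ≤ n) :
    Real.log n - 1 ≤ ∑ p ∈ (Icc 1 n).filter Nat.Prime, Real.log p / ((p : ℝ) - 1) := by
  classical
  have hnR : (0 : ℝ) < (n : ℝ) := by exact_mod_cast hn
  have h1 : (n : ℝ) * Real.log n - n ≤ Real.log (n.factorial : ℝ) := by
    have h2 := Real.pow_div_factorial_le_exp (n : ℝ) hnR.le n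
    have hf : (0 : ℝ) < (n.factorial : ℝ) := by exact_mod_cast n.factorial_pos
    have h3 : Real.log ((n : ℝ) ^ n / (n.factorial : ℝ)) ≤ (n : ℝ) := by
      have h4 := Real.log_le_log (div_pos (pow_pos hnR n) hf) h2
      rwa [Real.log_exp] at h4
    rw [Real.log_div (pow_pos hnR n).ne' hf.ne', Real.log_pow] at h3
    linarith
  have h2 : Real.log (n.factorial : ℝ) ≤
      ∑ p ∈ (Icc 1 n).filter Nat.Prime, (n : ℝ) * (Real.log p / ((p : ℝ) - 1)) := by
    rw [Real.log_nat_eq_sum_factorization, Finsupp.sum, Nat.support_factorization]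
    have hsub : n.factorial.primeFactors ⊆ (Icc 1 n).filter Nat.Prime := by
      intro p hp
      rw [Nat.mem_primeFactors] at hp
      rw [Finset.mem_filter, Finset.mem_Icc]
      exact ⟨⟨hp.1.one_lt.le, (hp.1.dvd_factorial).mp hp.2.1⟩, hp.1⟩
    refine (Finset.sum_le_sum (g := fun p : ℕ => (n : ℝ) * (Real.log p / ((p : ℝ) - 1))) ?_).trans
      (Finset.sum_le_sum_of_subset_of_nonneg hsub ?_)
    · intro p hp
      rw [Nat.mem_primeFactors] at hp
      have : Fact p.Prime := ⟨hp.1⟩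
      have hp2 : (2 : ℝ) ≤ (p : ℝ) := by exact_mod_cast hp.1.two_le
      have h3 := sub_one_mul_padicValNat_factorial (p := p) n
      have h4 : ((p : ℝ) - 1) * ((n.factorial.factorization p : ℕ) : ℝ) ≤ (n : ℝ) := by
        have h5 : (p - 1) * n.factorial.factorization p ≤ n := by
          rw [Nat.factorization_def _ hp.1, h3]
          omega
        have h6 : (((p - 1 : ℕ) : ℝ)) = (p : ℝ) - 1 := by
          rw [Nat.cast_sub hp.1.one_lt.le]; simp
        rw [← h6]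
        exact_mod_cast h5
      have hlp : 0 ≤ Real.log (p : ℝ) := Real.log_nonneg (by linarith)
      have h5 : ((n.factorial.factorization p : ℕ) : ℝ) ≤ (n : ℝ) / ((p : ℝ) - 1) := by
        rw [le_div_iff₀ (by linarith)]
        linarith
      calc ((n.factorial.factorization p : ℕ) : ℝ) * Real.log p ≤
          (n : ℝ) / ((p : ℝ) - 1) * Real.log p := mul_le_mul_of_nonneg_right h5 hlp
        _ = (n : ℝ) * (Real.log p / ((p : ℝ) - 1)) := by ring
    · intro p hp _
      rw [Finset.mem_filter] at hp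
      have hp2 : (2 : ℝ) ≤ (p : ℝ) := by exact_mod_cast hp.2.two_le
      have hlp : 0 ≤ Real.log (p : ℝ) := Real.log_nonneg (by linarith)
      have : 0 < (p : ℝ) - 1 := by linarith
      positivity
  rw [← Finset.mul_sum] at h2
  have h3 := h1.trans h2
  have h4 : (n : ℝ) * (Real.log n - 1) ≤
      (n : ℝ) * ∑ p ∈ (Icc 1 n).filter Nat.Prime, Real.log p / ((p : ℝ) - 1) := by linarith
  exact le_of_mul_le_mul_left h4 hnR

/-- classes in which `A x^j + B` is a square -/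
theorem card_square_classes (j : ℕ) (hj : 1 ≤ j) (A B : ℤ) (p : ℕ) (hp : p.Prime) (hp2 : p ≠ 2)
    (hA : ¬ (p : ℤ) ∣ A) (hB : ¬ (p : ℤ) ∣ B) (S : Finset ℕ)
    (hS : ∀ x ∈ S, ∃ y : ℤ, A * (x : ℤ) ^ j + B = y ^ 2) :
    ((S.image (fun x => x % p)).card : ℝ) ≤ (p : ℝ) / 2 + 3 / 2 * j * Real.sqrt p := by
  classical
  have hpf : Fact p.Prime := ⟨hp⟩
  have hA' : (A : ZMod p) ≠ 0 := by
    rw [Ne, ZMod.intCast_zmod_eq_zero_iff_dvd]; exact hA
  have hp0 : (0 : ℝ) < (p : ℝ) := by exact_mod_cast hp.pos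
  have hp1 : (1 : ℝ) ≤ (p : ℝ) := by exact_mod_cast hp.one_lt.le
  set T := S.image (fun x => x % p) with hT
  have hTr : T ⊆ range p := by
    intro r hr
    rw [hT, Finset.mem_image] at hr
    obtain ⟨x, _, rfl⟩ := hr
    exact Finset.mem_range.mpr (Nat.mod_lt _ hp.pos)
  have hTjs : ∀ r ∈ T, js j A B p r ≠ -1 := by
    intro r hr
    rw [hT, Finset.mem_image] at hr
    obtain ⟨x, hx, rfl⟩ := hr
    rw [js_mod]
    obtain ⟨y, hy⟩ := hS x hx
    unfold js
    rw [hy, pow_two, jacobiSym.mul_left]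
    have := mul_self_nonneg (jacobiSym y p)
    intro h
    rw [h] at this
    norm_num at this
  set Zr := (range p).filter (fun x => js j A B p x = 0) with hZr
  have hZcard : Zr.card ≤ j := by
    have h1 : Zr.card = (Zr.image (fun x : ℕ => (x : ZMod p))).card := by
      rw [Finset.card_image_of_injOn]
      intro x hx y hy hxy
      simp only [hZr, Finset.coe_filter, Set.mem_ofPred_eq, Finset.mem_range] at hx hy
      have h2 := (ZMod.natCast_eq_natCast_iff' x y p).mp hxy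
      rwa [Nat.mod_eq_of_lt hx.1, Nat.mod_eq_of_lt hy.1] at h2
    rw [h1]
    refine (Finset.card_le_card ?_).trans (card_pow_eq_le p j hj (-(A : ZMod p)⁻¹ * B))
    intro z hz
    rw [Finset.mem_image] at hz
    obtain ⟨x, hx, rfl⟩ := hz
    rw [hZr, Finset.mem_filter] at hx
    rw [Finset.mem_filter]
    refine ⟨Finset.mem_univ _, ?_⟩
    have h2 := hx.2
    unfold js at h2
    rw [← jacobiSym.legendreSym.to_jacobiSym, legendreSym.eq_zero_iff] at h2
    push_cast at h2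
    have h3 : (A : ZMod p) * (x : ZMod p) ^ j = - B := by linear_combination h2
    calc (x : ZMod p) ^ j = (A : ZMod p)⁻¹ * ((A : ZMod p) * (x : ZMod p) ^ j) := by
          rw [← mul_assoc, inv_mul_cancel₀ hA', one_mul]
      _ = -(A : ZMod p)⁻¹ * B := by rw [h3]; ring
  have hcount : (2 : ℤ) * T.card ≤ p + ∑ x ∈ range p, js j A B p x + Zr.card := by
    have h1 : ∀ x ∈ range p, (2 : ℤ) * (if x ∈ T then 1 else 0) ≤
        1 + js j A B p x + (if js j A B p x = 0 then 1 else 0) := by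
      intro x _
      have h2 := abs_le.mp (abs_js_le j A B p x)
      by_cases hx : x ∈ T
      · rw [if_pos hx]
        have h3 := hTjs x hx
        split_ifs with h4
        · rw [h4]; norm_num
        · omega
      · rw [if_neg hx]
        split_ifs <;> omega
    have h2 := Finset.sum_le_sum h1
    rw [← Finset.mul_sum, Finset.sum_add_distrib, Finset.sum_add_distrib, Finset.sum_const,
      Finset.card_range, nsmul_eq_mul, mul_one, ← Finset.sum_filter, ← Finset.sum_filter,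
      Finset.sum_const, Finset.sum_const, nsmul_eq_mul, nsmul_eq_mul, mul_one, mul_one] at h2
    have h3 : (range p).filter (fun x => x ∈ T) = T := by
      ext x
      simp only [Finset.mem_filter]
      exact ⟨fun h => h.2, fun h => ⟨hTr h, h⟩⟩
    rw [h3] at h2
    exact h2
  have hsum := js_sum_sq_le j hj A B p hp hp2 hA hB
  have hsqrt : ((∑ x ∈ range p, js j A B p x : ℤ) : ℝ) ≤ 2 * j * Real.sqrt p := by
    apply le_of_sq_le_sq _ (by positivity)
    have h1 : (((∑ x ∈ range p, js j A B p x : ℤ) : ℝ)) ^ 2 ≤ 4 * (j : ℝ) ^ 2 * p := by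
      exact_mod_cast hsum
    rw [mul_pow, Real.sq_sqrt hp0.le]
    linarith
  have hcR : (2 : ℝ) * (T.card : ℝ) ≤ (p : ℝ) + ((∑ x ∈ range p, js j A B p x : ℤ) : ℝ) +
      (Zr.card : ℝ) := by exact_mod_cast hcount
  have hZR : (Zr.card : ℝ) ≤ (j : ℝ) := by exact_mod_cast hZcard
  have h1s : (1 : ℝ) ≤ Real.sqrt p := by
    rw [Real.one_le_sqrt]; exact hp1
  have hjs : (j : ℝ) ≤ j * Real.sqrt p := le_mul_of_one_le_right (Nat.cast_nonneg j) h1s
  clear hsum hcount hZcard hTjs hTr hA' hA hB hS hp0 hp1 hj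
  linarith

/-- the primes dividing `D` contribute little -/
theorem sum_bad_le (ε : ℝ) (hε : 0 < ε) : ∃ T : ℝ, 0 ≤ T ∧ ∀ (D : ℕ), D ≠ 0 → ∀ Pr : Finset ℕ,
    (∀ p ∈ Pr, p.Prime) →
    ∑ p ∈ Pr.filter (fun p => p ∣ D), Real.log p / ((p : ℝ) - 1) ≤ T + ε * Real.log D := by
  classical
  obtain ⟨T, hT⟩ : ∃ T : ℕ, 2 / ε + 2 ≤ (T : ℝ) := ⟨⌈2 / ε + 2⌉₊, Nat.le_ceil _⟩
  refine ⟨T, Nat.cast_nonneg _, fun D hD Pr hPr => ?_⟩
  have h1 : ∀ p ∈ Pr.filter (fun p => p ∣ D), Real.log p / ((p : ℝ) - 1) ≤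
      (if p < T then (1 : ℝ) else 0) + ε * Real.log p := by
    intro p hp
    rw [Finset.mem_filter] at hp
    have hpp := hPr p hp.1
    have hp2 : (2 : ℝ) ≤ (p : ℝ) := by exact_mod_cast hpp.two_le
    have hlp : 0 ≤ Real.log (p : ℝ) := Real.log_nonneg (by linarith)
    have hp1 : 0 < (p : ℝ) - 1 := by linarith
    by_cases h : p < T
    · rw [if_pos h]
      have h2 := Real.log_le_sub_one_of_pos (by linarith : (0 : ℝ) < p)
      have h3 : Real.log p / ((p : ℝ) - 1) ≤ 1 := by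
        rw [div_le_one hp1]; exact h2
      have h4 : 0 ≤ ε * Real.log p := by positivity
      linarith
    · rw [if_neg h, zero_add, div_le_iff₀ hp1]
      have h2 : (T : ℝ) ≤ (p : ℝ) := by exact_mod_cast not_lt.mp h
      have h3 : 1 ≤ ε * ((p : ℝ) - 1) := by
        have h4 : 2 / ε + 1 ≤ (p : ℝ) - 1 := by linarith
        have h5 : ε * (2 / ε + 1) ≤ ε * ((p : ℝ) - 1) := mul_le_mul_of_nonneg_left h4 hε.le
        have h6 : ε * (2 / ε + 1) = 2 + ε := by field_simp
        linarith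
      calc Real.log p = 1 * Real.log p := (one_mul _).symm
        _ ≤ (ε * ((p : ℝ) - 1)) * Real.log p := mul_le_mul_of_nonneg_right h3 hlp
        _ = ε * Real.log p * ((p : ℝ) - 1) := by ring
  refine (Finset.sum_le_sum h1).trans ?_
  rw [Finset.sum_add_distrib]
  apply add_le_add
  · rw [← Finset.sum_filter, Finset.sum_const, nsmul_eq_mul, mul_one]
    have h2 : ((Pr.filter (fun p => p ∣ D)).filter (fun p => p < T)).card ≤ T := by
      refine (Finset.card_le_card (t := range T) ?_).trans (by rw [Finset.card_range])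
      intro p hp
      rw [Finset.mem_filter] at hp
      exact Finset.mem_range.mpr hp.2
    exact_mod_cast h2
  · rw [← Finset.mul_sum]
    exact mul_le_mul_of_nonneg_left (sum_log_dvd_le Pr hPr D hD) hε.le

/-- the loss from the square root terms -/
theorem loss_le (j : ℕ) (p : ℕ) (hp : p.Prime) :
    2 * (Real.log p / ((p : ℝ) - 1)) - 64 * ((j : ℝ) + 1) * ((p : ℝ) ^ (5 / 4 : ℝ))⁻¹ ≤
      Real.log p / ((p : ℝ) / 2 + 3 / 2 * j * Real.sqrt p) := by
  have hp2 : (2 : ℝ) ≤ (p : ℝ) := by exact_mod_cast hp.two_le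
  have hp0 : (0 : ℝ) < (p : ℝ) := zero_lt_two.trans_le hp2
  have hlp : 0 ≤ Real.log (p : ℝ) := Real.log_nonneg (one_le_two.trans hp2)
  have hj : (0 : ℝ) ≤ (j : ℝ) := Nat.cast_nonneg j
  set s := Real.sqrt p with hs
  have hs2 : s * s = p := Real.mul_self_sqrt hp0.le
  have hs1 : 1 ≤ s := by rw [hs, Real.one_le_sqrt]; exact one_le_two.trans hp2
  have hs0 : 0 < s := zero_lt_one.trans_le hs1
  have hjs : (0 : ℝ) ≤ 3 / 2 * j * s := mul_nonneg (mul_nonneg (by norm_num) hj) hs0.le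
  have hden : 0 < (p : ℝ) / 2 + 3 / 2 * j * s := add_pos_of_pos_of_nonneg (half_pos hp0) hjs
  have hp1 : 0 < (p : ℝ) - 1 := by linarith only [hp2]
  -- difference
  have h1 : 2 * (Real.log p / ((p : ℝ) - 1)) - Real.log p / ((p : ℝ) / 2 + 3 / 2 * j * s) ≤
      Real.log p * (16 * (j + 1) / (p * s)) := by
    have h2 : 2 * (Real.log p / ((p : ℝ) - 1)) - Real.log p / ((p : ℝ) / 2 + 3 / 2 * j * s) =
        Real.log p * ((3 * j * s + 1) / (((p : ℝ) - 1) * ((p : ℝ) / 2 + 3 / 2 * j * s))) := by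
      field_simp
      ring
    rw [h2]
    apply mul_le_mul_of_nonneg_left _ hlp
    rw [div_le_div_iff₀ (mul_pos hp1 hden) (mul_pos hp0 hs0)]
    have h3 : (p : ℝ) / 2 ≤ (p : ℝ) - 1 := by linarith only [hp2]
    have h4 : (3 * j * s + 1) * (p * s) ≤ 4 * (j + 1) * (p * p) := by
      have h5 : (3 * j * s + 1) * s ≤ 4 * (j + 1) * p := by
        have h6 : (3 * j * s + 1) * s = 3 * j * p + s := by rw [← hs2]; ring
        have h7 : s ≤ p := by
          rw [← hs2]; exact le_mul_of_one_le_right (zero_le_one.trans hs1) hs1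
        rw [h6]
        have h8 : 0 ≤ (j : ℝ) * p := mul_nonneg hj hp0.le
        linarith only [h8, h7, hp0]
      calc (3 * j * s + 1) * (p * s) = ((3 * j * s + 1) * s) * p := by ring
        _ ≤ (4 * (j + 1) * p) * p := mul_le_mul_of_nonneg_right h5 hp0.le
        _ = 4 * (j + 1) * (p * p) := by ring
    have h5 : (p : ℝ) * p / 4 ≤ ((p : ℝ) - 1) * ((p : ℝ) / 2 + 3 / 2 * j * s) := by
      have h6 := hjs
      calc (p : ℝ) * p / 4 = (p / 2) * (p / 2) := by ring
        _ ≤ ((p : ℝ) - 1) * (p / 2) := mul_le_mul_of_nonneg_right h3 (half_pos hp0).le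
        _ ≤ ((p : ℝ) - 1) * ((p : ℝ) / 2 + 3 / 2 * j * s) :=
          mul_le_mul_of_nonneg_left (le_add_of_nonneg_right h6) hp1.le
    calc (3 * j * s + 1) * (p * s) ≤ 4 * (j + 1) * (p * p) := h4
      _ = 16 * (j + 1) * (p * p / 4) := by ring
      _ ≤ 16 * (j + 1) * (((p : ℝ) - 1) * ((p : ℝ) / 2 + 3 / 2 * j * s)) :=
          mul_le_mul_of_nonneg_left h5 (mul_nonneg (by norm_num) (add_nonneg hj zero_le_one))
  have h2 : Real.log p * (16 * (j + 1) / (p * s)) ≤ 64 * ((j : ℝ) + 1) * ((p : ℝ) ^ (5 / 4 : ℝ))⁻¹ := by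
    have h3 := Real.log_le_rpow_div (x := (p : ℝ)) (ε := 1 / 4) hp0.le (by norm_num)
    have h4 : (p : ℝ) ^ (1 / 4 : ℝ) / (1 / 4) = 4 * (p : ℝ) ^ (1 / 4 : ℝ) := by ring
    rw [h4] at h3
    have h5 : (p : ℝ) * s = (p : ℝ) ^ (1 / 4 : ℝ) * (p : ℝ) ^ (5 / 4 : ℝ) := by
      rw [← Real.rpow_add hp0, hs, Real.sqrt_eq_rpow]
      nth_rewrite 1 [← Real.rpow_one (p : ℝ)]
      rw [← Real.rpow_add hp0]
      norm_num
    rw [h5]
    have h6 : 0 < (p : ℝ) ^ (1 / 4 : ℝ) := Real.rpow_pos_of_pos hp0 _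
    have h7 : 0 < (p : ℝ) ^ (5 / 4 : ℝ) := Real.rpow_pos_of_pos hp0 _
    calc Real.log p * (16 * (j + 1) / ((p : ℝ) ^ (1 / 4 : ℝ) * (p : ℝ) ^ (5 / 4 : ℝ))) ≤
        (4 * (p : ℝ) ^ (1 / 4 : ℝ)) * (16 * (j + 1) / ((p : ℝ) ^ (1 / 4 : ℝ) * (p : ℝ) ^ (5 / 4 : ℝ))) :=
          mul_le_mul_of_nonneg_right h3 (div_nonneg (mul_nonneg (by norm_num)
            (add_nonneg hj zero_le_one)) (mul_pos h6 h7).le)
      _ = 64 * ((j : ℝ) + 1) * ((p : ℝ) ^ (5 / 4 : ℝ))⁻¹ := by
          field_simp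
          ring
  linarith only [h1, h2]

/-- Few square values: at most `C N^(1/2) W^ε` of the integers `0 ≤ x ≤ N` have `A x^j + B` a
square. -/
theorem few_squares_sharp (j : ℕ) (hj : 1 ≤ j) (ε : ℝ) (hε : 0 < ε) : ∃ C : ℝ, 1 ≤ C ∧
    ∀ (N : ℕ) (W : ℝ) (A B : ℤ), 1 ≤ N → 1 ≤ W → A ≠ 0 → B ≠ 0 → |(A : ℝ)| ≤ W → |(B : ℝ)| ≤ W →
    ∀ S : Finset ℕ, (∀ x ∈ S, x ≤ N ∧ ∃ y : ℤ, A * (x : ℤ) ^ j + B = y ^ 2) →
    (S.card : ℝ) ≤ C * (N : ℝ) ^ (1 / 2 : ℝ) * W ^ ε := by
  classical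
  obtain ⟨T, hT0, hT⟩ := sum_bad_le (ε / 2) (by positivity)
  have hzeta : Summable (fun n : ℕ => ((n : ℝ) ^ (5 / 4 : ℝ))⁻¹) :=
    Real.summable_nat_rpow_inv.mpr (by norm_num)
  set ζ : ℝ := ∑' n : ℕ, ((n : ℝ) ^ (5 / 4 : ℝ))⁻¹ with hζ
  have hζ0 : 0 ≤ ζ := tsum_nonneg (fun n => by positivity)
  obtain ⟨C0, hC0⟩ : ∃ C0 : ℝ, C0 = (2 + 2 * T + ε * Real.log 2 + 64 * ((j : ℝ) + 1) * ζ + 1) / 2 :=
    ⟨_, rfl⟩
  have hl2 : 0 ≤ Real.log 2 := Real.log_nonneg (by norm_num)
  have hC0pos : 0 ≤ C0 := by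
    have h1 : 0 ≤ ε * Real.log 2 := mul_nonneg hε.le hl2
    have h2 : 0 ≤ 64 * ((j : ℝ) + 1) * ζ :=
      mul_nonneg (mul_nonneg (by norm_num) (add_nonneg (Nat.cast_nonneg j) zero_le_one)) hζ0
    rw [hC0]
    linarith only [h1, h2, hT0]
  refine ⟨2 * Real.log 4 * Real.exp C0, ?_, ?_⟩
  · have h1 : (1 : ℝ) ≤ Real.exp C0 := Real.one_le_exp hC0pos
    have h2 : (1 : ℝ) ≤ Real.log 4 := by
      rw [Real.le_log_iff_exp_le (by norm_num)]
      exact Real.exp_one_lt_d9.le.trans (by norm_num)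
    exact one_le_mul_of_one_le_of_one_le (by linarith only [h2]) h1
  intro N W A B hN hW hA hB hAW hBW S hS
  have hNR : (1 : ℝ) ≤ (N : ℝ) := by exact_mod_cast hN
  have hW0 : 0 < W := zero_lt_one.trans_le hW
  set Q : ℝ := (N : ℝ) ^ (1 / 2 : ℝ) * W ^ ε * Real.exp C0 with hQ
  have hN1 : 1 ≤ (N : ℝ) ^ (1 / 2 : ℝ) := Real.one_le_rpow hNR (by norm_num)
  have hW1 : 1 ≤ W ^ ε := Real.one_le_rpow hW hε.le
  have hE1 : 1 ≤ Real.exp C0 := Real.one_le_exp hC0pos
  have hQ1 : 1 ≤ Q := by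
    rw [hQ]
    exact one_le_mul_of_one_le_of_one_le (one_le_mul_of_one_le_of_one_le hN1 hW1) hE1
  set L : ℕ := ⌈Q⌉₊ with hL
  have hLQ : Q ≤ (L : ℝ) := Nat.le_ceil _
  have hL1 : 1 ≤ L := by
    have : (1 : ℝ) ≤ (L : ℝ) := hQ1.trans hLQ
    exact_mod_cast this
  have hL2 : (L : ℝ) ≤ 2 * Q := by
    have := (Nat.ceil_lt_add_one (zero_le_one.trans hQ1)).le
    linarith only [this, hQ1]
  obtain ⟨D, hD⟩ : ∃ D : ℕ, D = 2 * A.natAbs * B.natAbs := ⟨_, rfl⟩
  have hA' : A.natAbs ≠ 0 := Int.natAbs_ne_zero.mpr hA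
  have hB' : B.natAbs ≠ 0 := Int.natAbs_ne_zero.mpr hB
  have hD0 : D ≠ 0 := by rw [hD]; exact mul_ne_zero (mul_ne_zero two_ne_zero hA') hB'
  have hDW : Real.log D ≤ Real.log 2 + 2 * Real.log W := by
    have h1 : (D : ℝ) ≤ 2 * W * W := by
      rw [hD]
      push_cast
      simp only [Nat.cast_natAbs, Int.cast_abs]
      have h4 : 0 ≤ |(A : ℝ)| := abs_nonneg _
      have h5 : 0 ≤ |(B : ℝ)| := abs_nonneg _
      have h6 : |(A : ℝ)| * |(B : ℝ)| ≤ W * W := mul_le_mul hAW hBW h5 hW0.le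
      rw [mul_assoc, mul_assoc]
      exact mul_le_mul_of_nonneg_left h6 zero_le_two
    have h2 : Real.log D ≤ Real.log (2 * W * W) := by
      apply Real.log_le_log _ h1
      exact_mod_cast Nat.pos_of_ne_zero hD0
    rw [Real.log_mul (mul_pos two_pos hW0).ne' hW0.ne', Real.log_mul two_ne_zero hW0.ne'] at h2
    linarith only [h2]
  set P0 := (Icc 1 L).filter Nat.Prime with hP0
  set Pr := P0.filter (fun p => ¬ p ∣ D) with hPr
  have hP0p : ∀ p ∈ P0, p.Prime := fun p hp => (Finset.mem_filter.mp hp).2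
  have hPrp : ∀ p ∈ Pr, p.Prime := fun p hp => hP0p p (Finset.mem_filter.mp hp).1
  have hmert := sum_log_div_ge L hL1
  have hbad := hT D hD0 P0 hP0p
  have hsplit : ∑ p ∈ P0, Real.log p / ((p : ℝ) - 1) =
      ∑ p ∈ P0.filter (fun p => p ∣ D), Real.log p / ((p : ℝ) - 1) +
      ∑ p ∈ Pr, Real.log p / ((p : ℝ) - 1) := by
    rw [hPr, Finset.sum_filter_add_sum_filter_not]
  have hloss : 2 * ∑ p ∈ Pr, Real.log p / ((p : ℝ) - 1) - 64 * ((j : ℝ) + 1) * ζ ≤
      ∑ p ∈ Pr, Real.log p / ((p : ℝ) / 2 + 3 / 2 * j * Real.sqrt p) := by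
    have h1 := Finset.sum_le_sum (s := Pr) (fun p hp => loss_le j p (hPrp p hp))
    rw [Finset.sum_sub_distrib, ← Finset.mul_sum, ← Finset.mul_sum] at h1
    have h2 : ∑ p ∈ Pr, ((p : ℝ) ^ (5 / 4 : ℝ))⁻¹ ≤ ζ :=
      hzeta.sum_le_tsum _ (fun n _ => inv_nonneg.mpr (Real.rpow_nonneg (Nat.cast_nonneg n) _))
    have h3 : 64 * ((j : ℝ) + 1) * ∑ p ∈ Pr, ((p : ℝ) ^ (5 / 4 : ℝ))⁻¹ ≤ 64 * ((j : ℝ) + 1) * ζ :=
      mul_le_mul_of_nonneg_left h2
        (mul_nonneg (by norm_num) (add_nonneg (Nat.cast_nonneg j) zero_le_one))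
    linarith only [h1, h3]
  have hlogL : Real.log L ≥ Real.log N / 2 + ε * Real.log W + C0 := by
    have h1 : Real.log Q ≤ Real.log L := Real.log_le_log (zero_lt_one.trans_le hQ1) hLQ
    have h2 : Real.log Q = Real.log N / 2 + ε * Real.log W + C0 := by
      have hN0 : 0 < (N : ℝ) := zero_lt_one.trans_le hNR
      have h3 : 0 < (N : ℝ) ^ (1 / 2 : ℝ) := Real.rpow_pos_of_pos hN0 _
      have h4 : 0 < W ^ ε := Real.rpow_pos_of_pos hW0 _
      rw [hQ, Real.log_mul (mul_pos h3 h4).ne' (Real.exp_pos _).ne', Real.log_mul h3.ne' h4.ne',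
        Real.log_exp, Real.log_rpow hN0, Real.log_rpow hW0]
      ring
    linarith only [h1, h2]
  have hlogW : 0 ≤ Real.log W := Real.log_nonneg hW
  have hmain : 1 ≤ ∑ p ∈ Pr, Real.log p / ((p : ℝ) / 2 + 3 / 2 * j * Real.sqrt p) - Real.log N := by
    have h1 : ε / 2 * Real.log D ≤ ε / 2 * (Real.log 2 + 2 * Real.log W) :=
      mul_le_mul_of_nonneg_left hDW (half_pos hε).le
    rw [hC0] at hlogL
    rw [← hP0] at hmert
    linarith only [hmert, hbad, hsplit, hloss, hlogL, h1]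
  have hsieve := larger_sieve S N hN (fun x hx => (hS x hx).1) Pr hPrp
    (fun p => (p : ℝ) / 2 + 3 / 2 * j * Real.sqrt p)
    (fun p hp => by
      have h1 : (0 : ℝ) < (p : ℝ) := by exact_mod_cast (hPrp p hp).pos
      have h2 : (0 : ℝ) ≤ 3 / 2 * (j : ℝ) * Real.sqrt p :=
        mul_nonneg (mul_nonneg (by norm_num) (Nat.cast_nonneg j)) (Real.sqrt_nonneg _)
      exact add_pos_of_pos_of_nonneg (half_pos h1) h2)
    (fun p hp => by
      have hpD : ¬ p ∣ D := (Finset.mem_filter.mp hp).2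
      apply card_square_classes j hj A B p (hPrp p hp)
      · rintro rfl
        apply hpD
        rw [hD, mul_assoc]
        exact dvd_mul_right _ _
      · intro h
        apply hpD
        rw [hD]
        exact Dvd.dvd.mul_right (Dvd.dvd.mul_left (Int.natCast_dvd.mp h) _) _
      · intro h
        apply hpD
        rw [hD]
        exact Dvd.dvd.mul_left (Int.natCast_dvd.mp h) _
      · exact fun x hx => (hS x hx).2)
  have htheta : ∑ p ∈ Pr, Real.log p ≤ (L : ℝ) * Real.log 4 := by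
    have h1 : ∑ p ∈ Pr, Real.log p ≤ ∑ p ∈ (range (L + 1)).filter Nat.Prime, Real.log p := by
      apply Finset.sum_le_sum_of_subset_of_nonneg
      · intro p hp
        have h2 := (Finset.mem_filter.mp hp).1
        rw [hP0, Finset.mem_filter, Finset.mem_Icc] at h2
        rw [Finset.mem_filter, Finset.mem_range]
        exact ⟨by omega, h2.2⟩
      · intro p hp _
        exact Real.log_nonneg (by exact_mod_cast (Finset.mem_filter.mp hp).2.one_lt.le)
    have h2 : ∑ p ∈ (range (L + 1)).filter Nat.Prime, Real.log p = Real.log (primorial L) := by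
      unfold primorial
      push_cast
      rw [Real.log_prod]
      intro p hp
      exact_mod_cast (Finset.mem_filter.mp hp).2.ne_zero
    have h3 : Real.log (primorial L) ≤ Real.log ((4 : ℝ) ^ L) := by
      apply Real.log_le_log
      · exact_mod_cast primorial_pos L
      · exact_mod_cast primorial_le_four_pow L
    rw [Real.log_pow] at h3
    linarith only [h1, h2, h3]
  have hcard : (S.card : ℝ) ≤ (L : ℝ) * Real.log 4 := by
    have h1 : (S.card : ℝ) * 1 ≤ (S.card : ℝ) * (∑ p ∈ Pr,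
        Real.log p / ((p : ℝ) / 2 + 3 / 2 * j * Real.sqrt p) - Real.log N) :=
      mul_le_mul_of_nonneg_left hmain (Nat.cast_nonneg _)
    linarith only [h1, hsieve, htheta]
  have hl4 : 0 ≤ Real.log 4 := Real.log_nonneg (by norm_num)
  calc (S.card : ℝ) ≤ (L : ℝ) * Real.log 4 := hcard
    _ ≤ (2 * Q) * Real.log 4 := mul_le_mul_of_nonneg_right hL2 hl4
    _ = 2 * Real.log 4 * Real.exp C0 * (N : ℝ) ^ (1 / 2 : ℝ) * W ^ ε := by rw [hQ]; ring

end Pool.Agent.Lib.MP_d8bd92_nt
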