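import Mathlib

set_option autoImplicit false

/-!
Elementary bound for the character sums `∑ χ(A x^j + B)`.
-/

namespace Pool.Agent.Lib.MP_d8bd92_nt

open Finset

theorem sum_quad {p : ℕ} [Fact p.Prime] (hp : p ≠ 2) (a b : ZMod p) (hab : a ≠ b) :
    ∑ x : ZMod p, quadraticChar (ZMod p) ((x + a) * (x + b)) = -1 := by
  classical
  have hc : b - a ≠ 0 := sub_ne_zero.mpr (Ne.symm hab)
  have h1 : ∑ x : ZMod p, quadraticChar (ZMod p) ((x + a) * (x + b)) =
      ∑ x : ZMod p, quadraticChar (ZMod p) (x * (x + (b - a))) := by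
    refine Fintype.sum_equiv (Equiv.addRight a) _ _ (fun x => ?_)
    simp only [Equiv.coe_addRight]
    congr 1
    ring
  have hchar : ringChar (ZMod p) ≠ 2 := by
    rw [ZMod.ringChar_zmod_n]
    exact hp
  have h2 : ∀ x : ZMod p, quadraticChar (ZMod p) (x * (x + (b - a))) =
      quadraticChar (ZMod p) (1 + (b - a) * x⁻¹) - (if x = 0 then 1 else 0) := by
    intro x
    by_cases hx : x = 0
    · subst hx
      simp
    · rw [if_neg hx, sub_zero]
      have e : x * (x + (b - a)) = x ^ 2 * (1 + (b - a) * x⁻¹) := by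
        field_simp
      rw [e, map_mul, quadraticChar_sq_one' hx, one_mul]
  have h3 : ∑ x : ZMod p, quadraticChar (ZMod p) (1 + (b - a) * x⁻¹) =
      ∑ x : ZMod p, quadraticChar (ZMod p) x := by
    refine Fintype.sum_bijective (fun x : ZMod p => 1 + (b - a) * x⁻¹) ?_ _ _ (fun x => rfl)
    rw [Finite.injective_iff_bijective.symm]
    intro x y hxy
    simp only at hxy
    have h4 := mul_left_cancel₀ hc (add_left_cancel hxy)
    exact inv_injective h4
  rw [h1, Finset.sum_congr rfl (fun x _ => h2 x), Finset.sum_sub_distrib, h3,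
    quadraticChar_sum_zero hchar]
  simp

/-- the character sum -/
noncomputable def cs (p : ℕ) [Fact p.Prime] (j : ℕ) (B A : ZMod p) : ℤ :=
  ∑ x : ZMod p, quadraticChar (ZMod p) (A * x ^ j + B)

theorem card_pow_eq_le (p : ℕ) [Fact p.Prime] (j : ℕ) (hj : 1 ≤ j) (c : ZMod p) :
    (univ.filter (fun y : ZMod p => y ^ j = c)).card ≤ j := by
  classical
  have h1 : univ.filter (fun y : ZMod p => y ^ j = c) ⊆ (Polynomial.nthRoots j c).toFinset := by
    intro y hy
    rw [Finset.mem_filter] at hy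
    rw [Multiset.mem_toFinset, Polynomial.mem_nthRoots (by omega)]
    exact hy.2
  exact (Finset.card_le_card h1).trans
    ((Multiset.toFinset_card_le _).trans (Polynomial.card_nthRoots j c))

theorem cs_inner_le {p : ℕ} [Fact p.Prime] (hp : p ≠ 2) (B : ZMod p) (s t : ZMod p)
    (hB : B ≠ 0) :
    ∑ A : ZMod p, quadraticChar (ZMod p) (A * s + B) * quadraticChar (ZMod p) (A * t + B) ≤
      1 + (if s = t then (p : ℤ) else 0) := by
  classical
  have hchar : ringChar (ZMod p) ≠ 2 := by
    rw [ZMod.ringChar_zmod_n]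
    exact hp
  have hle : ∀ x : ZMod p, quadraticChar (ZMod p) x ≤ 1 ∧ -1 ≤ quadraticChar (ZMod p) x := by
    intro x
    by_cases hx : x = 0
    · subst hx; simp
    · rcases quadraticChar_dichotomy hx with h | h <;> rw [h] <;> norm_num
  by_cases hst : s = t
  · rw [if_pos hst]
    have h1 : ∀ A ∈ (univ : Finset (ZMod p)),
        quadraticChar (ZMod p) (A * s + B) * quadraticChar (ZMod p) (A * t + B) ≤ 1 := by
      intro A _
      obtain ⟨h2, h3⟩ := hle (A * s + B)
      obtain ⟨h4, h5⟩ := hle (A * t + B)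
      nlinarith
    have h2 := Finset.sum_le_card_nsmul _ _ _ h1
    rw [Finset.card_univ, ZMod.card, nsmul_eq_mul, mul_one] at h2
    linarith
  · rw [if_neg hst, add_zero]
    by_cases hs : s = 0
    · subst hs
      have ht : t ≠ 0 := fun h => hst h.symm
      have h1 : ∑ A : ZMod p, quadraticChar (ZMod p) (A * 0 + B) *
          quadraticChar (ZMod p) (A * t + B) =
          quadraticChar (ZMod p) B * ∑ A : ZMod p, quadraticChar (ZMod p) (A * t + B) := by
        rw [Finset.mul_sum]
        simp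
      have h2 : ∑ A : ZMod p, quadraticChar (ZMod p) (A * t + B) =
          ∑ A : ZMod p, quadraticChar (ZMod p) A := by
        refine Fintype.sum_bijective (fun A : ZMod p => A * t + B) ?_ _ _ (fun x => rfl)
        rw [Finite.injective_iff_bijective.symm]
        intro x y hxy
        exact mul_right_cancel₀ ht (add_right_cancel hxy)
      rw [h1, h2, quadraticChar_sum_zero hchar]
      norm_num
    · by_cases ht : t = 0
      · subst ht
        have h1 : ∑ A : ZMod p, quadraticChar (ZMod p) (A * s + B) *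
            quadraticChar (ZMod p) (A * 0 + B) =
            (∑ A : ZMod p, quadraticChar (ZMod p) (A * s + B)) * quadraticChar (ZMod p) B := by
          rw [Finset.sum_mul]
          simp
        have h2 : ∑ A : ZMod p, quadraticChar (ZMod p) (A * s + B) =
            ∑ A : ZMod p, quadraticChar (ZMod p) A := by
          refine Fintype.sum_bijective (fun A : ZMod p => A * s + B) ?_ _ _ (fun x => rfl)
          rw [Finite.injective_iff_bijective.symm]
          intro x y hxy
          exact mul_right_cancel₀ hs (add_right_cancel hxy)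
        rw [h1, h2, quadraticChar_sum_zero hchar]
        norm_num
      · have h1 : ∀ A : ZMod p, quadraticChar (ZMod p) (A * s + B) *
            quadraticChar (ZMod p) (A * t + B) =
            quadraticChar (ZMod p) (s * t) *
              quadraticChar (ZMod p) ((A + B * s⁻¹) * (A + B * t⁻¹)) := by
          intro A
          rw [← map_mul, ← map_mul]
          congr 1
          field_simp
        rw [Finset.sum_congr rfl (fun A _ => h1 A), ← Finset.mul_sum, sum_quad hp]
        · obtain ⟨h2, h3⟩ := hle (s * t)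
          linarith
        · intro h
          apply hst
          exact inv_injective (mul_left_cancel₀ hB h)

/-- `|∑ χ(A x^j + B)|² ≤ 4 j² p`. -/
theorem cs_sq_le {p : ℕ} [Fact p.Prime] (hp : p ≠ 2) (j : ℕ) (hj : 1 ≤ j) (A B : ZMod p)
    (hA : A ≠ 0) (hB : B ≠ 0) : (cs p j B A) ^ 2 ≤ 4 * (j : ℤ) ^ 2 * p := by
  classical
  have hpp : p.Prime := Fact.out
  have hp3 : 3 ≤ p := by
    have := hpp.two_le
    omega
  -- invariance
  have hinv : ∀ y : ZMod p, y ≠ 0 → cs p j B (A * y ^ j) = cs p j B A := by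
    intro y hy
    rw [cs, cs]
    refine Fintype.sum_equiv (Equiv.mulLeft₀ y hy) _ _ (fun x => ?_)
    show quadraticChar (ZMod p) (A * y ^ j * x ^ j + B) =
      quadraticChar (ZMod p) (A * (y * x) ^ j + B)
    congr 1
    ring
  -- average
  have h1 : ((p : ℤ) - 1) * (cs p j B A) ^ 2 = ∑ y ∈ univ.erase (0 : ZMod p),
      (cs p j B (A * y ^ j)) ^ 2 := by
    rw [Finset.sum_congr rfl (fun y hy => by rw [hinv y (Finset.ne_of_mem_erase hy)]),
      Finset.sum_const, Finset.card_erase_of_mem (Finset.mem_univ _), Finset.card_univ, ZMod.card,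
      nsmul_eq_mul]
    rw [Nat.cast_sub (by omega)]
    simp
  have h2 : ∑ y ∈ univ.erase (0 : ZMod p), (cs p j B (A * y ^ j)) ^ 2 ≤
      ∑ y : ZMod p, (cs p j B (A * y ^ j)) ^ 2 :=
    Finset.sum_le_sum_of_subset_of_nonneg (Finset.erase_subset _ _) (fun _ _ _ => sq_nonneg _)
  have h3 : ∑ y : ZMod p, (cs p j B (A * y ^ j)) ^ 2 ≤ (j : ℤ) * ∑ A' : ZMod p, (cs p j B A') ^ 2 := by
    rw [← Finset.sum_fiberwise (s := (univ : Finset (ZMod p))) (g := fun y => A * y ^ j), Finset.mul_sum]
    apply Finset.sum_le_sum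
    intro A' _
    rw [Finset.sum_congr rfl (fun y hy => by rw [(Finset.mem_filter.mp hy).2]), Finset.sum_const,
      nsmul_eq_mul]
    apply mul_le_mul_of_nonneg_right _ (sq_nonneg _)
    have h4 : (univ.filter (fun y : ZMod p => A * y ^ j = A')).card ≤ j := by
      refine (Finset.card_le_card ?_).trans (card_pow_eq_le p j hj (A⁻¹ * A'))
      intro y hy
      rw [Finset.mem_filter] at hy ⊢
      refine ⟨hy.1, ?_⟩
      rw [← hy.2, ← mul_assoc, inv_mul_cancel₀ hA, one_mul]
    exact_mod_cast h4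
  have h4 : ∑ A' : ZMod p, (cs p j B A') ^ 2 =
      ∑ x : ZMod p, ∑ x' : ZMod p, ∑ A' : ZMod p, quadraticChar (ZMod p) (A' * x ^ j + B) *
        quadraticChar (ZMod p) (A' * x' ^ j + B) := by
    have h5 : ∀ A' : ZMod p, (cs p j B A') ^ 2 = ∑ x : ZMod p, ∑ x' : ZMod p,
        quadraticChar (ZMod p) (A' * x ^ j + B) * quadraticChar (ZMod p) (A' * x' ^ j + B) := by
      intro A'
      rw [sq, cs, Finset.sum_mul_sum]
    rw [Finset.sum_congr rfl (fun A' _ => h5 A'), Finset.sum_comm]
    apply Finset.sum_congr rfl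
    intro x _
    rw [Finset.sum_comm]
  have h5 : ∑ x : ZMod p, ∑ x' : ZMod p, ∑ A' : ZMod p, quadraticChar (ZMod p) (A' * x ^ j + B) *
        quadraticChar (ZMod p) (A' * x' ^ j + B) ≤
      ∑ x : ZMod p, ∑ x' : ZMod p, (1 + (if x ^ j = x' ^ j then (p : ℤ) else 0)) := by
    apply Finset.sum_le_sum
    intro x _
    apply Finset.sum_le_sum
    intro x' _
    exact cs_inner_le hp B (x ^ j) (x' ^ j) hB
  have h6 : ∑ x : ZMod p, ∑ x' : ZMod p, (1 + (if x ^ j = x' ^ j then (p : ℤ) else 0)) ≤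
      (p : ℤ) ^ 2 + j * p ^ 2 := by
    have h7 : ∀ x ∈ (univ : Finset (ZMod p)),
        ∑ x' : ZMod p, (1 + (if x ^ j = x' ^ j then (p : ℤ) else 0)) ≤ p + j * p := by
      intro x _
      rw [Finset.sum_add_distrib, Finset.sum_const, Finset.card_univ, ZMod.card, nsmul_eq_mul,
        mul_one, ← Finset.sum_filter, Finset.sum_const, nsmul_eq_mul]
      have h8 : (univ.filter (fun x' : ZMod p => x ^ j = x' ^ j)).card ≤ j := by
        refine (Finset.card_le_card ?_).trans (card_pow_eq_le p j hj (x ^ j))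
        intro y hy
        rw [Finset.mem_filter] at hy ⊢
        exact ⟨hy.1, hy.2.symm⟩
      have h9 : ((univ.filter (fun x' : ZMod p => x ^ j = x' ^ j)).card : ℤ) ≤ j := by
        exact_mod_cast h8
      have h10 : (0 : ℤ) ≤ p := Int.natCast_nonneg p
      nlinarith
    have h8 := Finset.sum_le_card_nsmul _ _ _ h7
    rw [Finset.card_univ, ZMod.card, nsmul_eq_mul] at h8
    refine h8.trans (le_of_eq ?_)
    ring
  have h7 : ((p : ℤ) - 1) * (cs p j B A) ^ 2 ≤ j * ((p : ℤ) ^ 2 + j * p ^ 2) := by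
    calc ((p : ℤ) - 1) * (cs p j B A) ^ 2 ≤ (j : ℤ) * ∑ A' : ZMod p, (cs p j B A') ^ 2 := by
          rw [h1]; exact h2.trans h3
      _ ≤ j * ((p : ℤ) ^ 2 + j * p ^ 2) := by
          apply mul_le_mul_of_nonneg_left _ (Int.natCast_nonneg j)
          rw [h4]
          exact h5.trans h6
  have hp3' : (3 : ℤ) ≤ p := by exact_mod_cast hp3
  have hj' : (1 : ℤ) ≤ j := by exact_mod_cast hj
  have h8 : j * ((p : ℤ) ^ 2 + j * p ^ 2) ≤ ((p : ℤ) - 1) * (4 * (j : ℤ) ^ 2 * p) := by
    have h9 : j * ((p : ℤ) ^ 2 + j * p ^ 2) ≤ 2 * (j : ℤ) ^ 2 * p ^ 2 := by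
      nlinarith [sq_nonneg (p : ℤ), mul_nonneg (by linarith : (0 : ℤ) ≤ (j : ℤ) - 1) (sq_nonneg (p : ℤ))]
    have h10 : 2 * (j : ℤ) ^ 2 * p ^ 2 ≤ ((p : ℤ) - 1) * (4 * (j : ℤ) ^ 2 * p) := by
      have h11 : (0 : ℤ) ≤ 2 * (j : ℤ) ^ 2 * p := by positivity
      nlinarith
    exact h9.trans h10
  have h9 := h7.trans h8
  exact le_of_mul_le_mul_left h9 (by linarith)

end Pool.Agent.Lib.MP_d8bd92_nt
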