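import Pool.Agent.Lib.MP_d8bd92_nt.TwSieve

set_option autoImplicit false

/-!
Few values of `A x^j + B` are squares, uniformly in `A` and `B`.
-/

namespace Pool.Agent.Lib.MP_d8bd92_nt

open Finset

theorem log_succ_le (P : ℕ) (hP : 1 ≤ P) :
    Real.log ((P : ℝ) + 1) ≤ 16 * (P : ℝ) ^ (1 / 8 : ℝ) := by
  have hP1 : (1 : ℝ) ≤ (P : ℝ) := by exact_mod_cast hP
  have h1 := Real.log_le_rpow_div (x := (P : ℝ) + 1) (ε := 1 / 8) (by positivity) (by norm_num)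
  have h2 : ((P : ℝ) + 1) ^ (1 / 8 : ℝ) ≤ (2 * (P : ℝ)) ^ (1 / 8 : ℝ) := by
    apply Real.rpow_le_rpow (by positivity) (by linarith) (by norm_num)
  have h3 : (2 * (P : ℝ)) ^ (1 / 8 : ℝ) ≤ 2 * (P : ℝ) ^ (1 / 8 : ℝ) := by
    rw [Real.mul_rpow (by norm_num) (by positivity)]
    apply mul_le_mul_of_nonneg_right _ (by positivity)
    calc (2 : ℝ) ^ (1 / 8 : ℝ) ≤ (2 : ℝ) ^ (1 : ℝ) :=
          Real.rpow_le_rpow_of_exponent_le (by norm_num) (by norm_num)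
      _ = 2 := Real.rpow_one 2
  have h4 : ((P : ℝ) + 1) ^ (1 / 8 : ℝ) / (1 / 8) = 8 * ((P : ℝ) + 1) ^ (1 / 8 : ℝ) := by ring
  rw [h4] at h1
  linarith

theorem many_primes (K : ℝ) (hK : 0 ≤ K) : ∃ P0 : ℕ, 2 ≤ P0 ∧ ∀ P : ℕ, P0 ≤ P →
    (P : ℝ) ^ (3 / 4 : ℝ) + Real.sqrt P + 2 + K * Real.log ((P : ℝ) + 1) ≤ (Nat.primeCounting P : ℝ)
    ∧ 2 + K * Real.log ((P : ℝ) + 1) ≤ (P : ℝ) ^ (3 / 4 : ℝ) := by
  set z0 : ℝ := 32 * (5 + 16 * K) with hz0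
  refine ⟨⌈z0 ^ (8 : ℝ)⌉₊ + 2, by omega, ?_⟩
  intro P hP
  have hP2 : 2 ≤ P := by omega
  have hPR : (2 : ℝ) ≤ (P : ℝ) := by exact_mod_cast hP2
  set z : ℝ := (P : ℝ) ^ (1 / 8 : ℝ) with hz
  have hz0pos : 160 ≤ z0 := by rw [hz0]; linarith
  have hzz0 : z0 ≤ z := by
    have h1 : z0 ^ (8 : ℝ) ≤ (P : ℝ) := by
      calc z0 ^ (8 : ℝ) ≤ (⌈z0 ^ (8 : ℝ)⌉₊ : ℝ) := Nat.le_ceil _
        _ ≤ (P : ℝ) := by exact_mod_cast (by omega : ⌈z0 ^ (8 : ℝ)⌉₊ ≤ P)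
    calc z0 = (z0 ^ (8 : ℝ)) ^ (1 / 8 : ℝ) := by
          rw [← Real.rpow_mul (by linarith)]; norm_num
      _ ≤ z := Real.rpow_le_rpow (by positivity) h1 (by norm_num)
  have hz1 : 1 ≤ z := by linarith
  have e8 : (P : ℝ) = z ^ 8 := by
    rw [hz, ← Real.rpow_natCast, ← Real.rpow_mul (by positivity)]; norm_num
  have e6 : (P : ℝ) ^ (3 / 4 : ℝ) = z ^ 6 := by
    rw [hz, ← Real.rpow_natCast, ← Real.rpow_mul (by positivity)]; norm_num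
  have e4 : Real.sqrt P = z ^ 4 := by
    rw [Real.sqrt_eq_rpow, hz, ← Real.rpow_natCast, ← Real.rpow_mul (by positivity)]; norm_num
  have hlog := log_succ_le P (by omega)
  rw [← hz] at hlog
  have hlog0 : Real.log (P : ℝ) ≤ 16 * z := by
    refine le_trans ?_ hlog
    apply Real.log_le_log (by positivity)
    linarith
  have hlogpos : 0 < Real.log (P : ℝ) := Real.log_pos (by linarith)
  have hlogpos1 : 0 ≤ Real.log ((P : ℝ) + 1) := Real.log_nonneg (by linarith)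
  have hKz : 32 * (5 + 16 * K) ≤ z := hzz0
  have hz7 : z ^ 5 ≤ z ^ 7 := pow_le_pow_right₀ hz1 (by norm_num)
  have hz27 : z ^ 2 ≤ z ^ 7 := pow_le_pow_right₀ hz1 (by norm_num)
  have hz17 : z ≤ z ^ 7 := by
    calc z = z ^ 1 := (pow_one z).symm
      _ ≤ z ^ 7 := pow_le_pow_right₀ hz1 (by norm_num)
  constructor
  · have hpi := Chebyshev.pi_ge P
    refine le_trans ?_ hpi
    rw [le_div_iff₀ hlogpos, e6, e4]
    have h1 : (z ^ 6 + z ^ 4 + 2 + K * Real.log ((P : ℝ) + 1)) * Real.log P ≤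
        (z ^ 6 + z ^ 4 + 2 + K * (16 * z)) * (16 * z) := by
      apply mul_le_mul _ hlog0 hlogpos.le (by positivity)
      gcongr
    have h2 : (z ^ 6 + z ^ 4 + 2 + K * (16 * z)) * (16 * z) + 16 * z ≤ z ^ 8 / 2 := by
      have h3 : (z ^ 6 + z ^ 4 + 2 + K * (16 * z)) * (16 * z) + 16 * z =
          16 * (z ^ 7 + z ^ 5 + 3 * z + 16 * K * z ^ 2) := by ring
      rw [h3]
      have h4 : z ^ 7 + z ^ 5 + 3 * z + 16 * K * z ^ 2 ≤ (5 + 16 * K) * z ^ 7 := by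
        have h5 : K * z ^ 2 ≤ K * z ^ 7 := mul_le_mul_of_nonneg_left hz27 hK
        linarith
      have h5 : 32 * (5 + 16 * K) * z ^ 7 ≤ z * z ^ 7 :=
        mul_le_mul_of_nonneg_right hKz (by positivity)
      have h6 : z * z ^ 7 = z ^ 8 := by ring
      linarith
    have h3 : z ^ 8 / 2 ≤ (P : ℝ) * Real.log 2 := by
      have h4 := Real.log_two_gt_d9
      rw [e8]
      have h5 : (0 : ℝ) ≤ z ^ 8 := by positivity
      have h6 : z ^ 8 * (1 / 2) ≤ z ^ 8 * Real.log 2 := mul_le_mul_of_nonneg_left (by linarith) h5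
      linarith
    linarith
  · rw [e6]
    have h1 : K * Real.log ((P : ℝ) + 1) ≤ K * (16 * z) := by gcongr
    have h2 : z ^ 2 ≤ z ^ 6 := pow_le_pow_right₀ hz1 (by norm_num)
    have h3 : 32 * (5 + 16 * K) * z ≤ z * z := mul_le_mul_of_nonneg_right hKz (by linarith)
    have h4 : 0 ≤ K * z := mul_nonneg hK (by linarith)
    have h5 : z * z = z ^ 2 := by ring
    linarith

theorem two_pow_card_primeFactors_le (n : ℕ) (hn : n ≠ 0) : 2 ^ n.primeFactors.card ≤ n := by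
  calc 2 ^ n.primeFactors.card ≤ ∏ p ∈ n.primeFactors, p :=
        Finset.pow_card_le_prod _ _ _ (fun p hp => (Nat.prime_of_mem_primeFactors hp).two_le)
    _ ≤ n := Nat.le_of_dvd (Nat.pos_of_ne_zero hn) (Nat.prod_primeFactors_dvd n)

theorem card_primeFactors_le_log (n : ℕ) (hn : n ≠ 0) :
    (n.primeFactors.card : ℝ) ≤ 2 * Real.log n := by
  have h1 := two_pow_card_primeFactors_le n hn
  have h2 : ((2 : ℝ) ^ n.primeFactors.card) ≤ (n : ℝ) := by exact_mod_cast h1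
  have h3 := Real.log_le_log (by positivity) h2
  rw [Real.log_pow] at h3
  have h4 := Real.log_two_gt_d9
  have h5 : (0 : ℝ) ≤ (n.primeFactors.card : ℝ) := Nat.cast_nonneg _
  nlinarith

/-- the small case -/
theorem few_squares_small {M P P0 : ℕ} {S : Finset ℕ} (hS : ∀ x ∈ S, x ≤ M)
    (hPlt : (M : ℝ) ^ (1 / 3 : ℝ) < (P : ℝ) + 1) (hsmall : P < P0) :
    (S.card : ℝ) ≤ ((P0 + 1 : ℕ) : ℝ) ^ 3 + 1 := by
  have h1 : (M : ℝ) ≤ ((P0 + 1 : ℕ) : ℝ) ^ 3 := by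
    have h2 : (M : ℝ) ^ (1 / 3 : ℝ) ≤ ((P0 + 1 : ℕ) : ℝ) := by
      have h3 : (P : ℝ) < (P0 : ℝ) := by exact_mod_cast hsmall
      push_cast
      linarith
    calc (M : ℝ) = ((M : ℝ) ^ (1 / 3 : ℝ)) ^ 3 := by
          rw [← Real.rpow_natCast, ← Real.rpow_mul (Nat.cast_nonneg M)]; norm_num
      _ ≤ ((P0 + 1 : ℕ) : ℝ) ^ 3 := pow_le_pow_left₀ (Real.rpow_nonneg (Nat.cast_nonneg M) _) h2 3
  have h2 : S.card ≤ M + 1 := by
    calc S.card ≤ (range (M + 1)).card := by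
          apply Finset.card_le_card
          intro x hx
          rw [Finset.mem_range]
          have := hS x hx
          omega
      _ = M + 1 := Finset.card_range _
  have h3 : (S.card : ℝ) ≤ (M : ℝ) + 1 := by exact_mod_cast h2
  linarith

/-- the number of the primes of the sieve -/
theorem few_squares_count {P : ℕ} {A B : ℤ} (hA' : A.natAbs ≠ 0) (hB' : B.natAbs ≠ 0) {l : ℝ}
    (hlA : Real.log (A.natAbs : ℝ) ≤ l) (hlB : Real.log (B.natAbs : ℝ) ≤ l) :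
    (Nat.primeCounting P : ℝ) ≤ (((Nat.primesLE P).filter (fun p : ℕ => p ≠ 2 ∧ ¬ (p : ℤ) ∣ A ∧ ¬ (p : ℤ) ∣ B ∧
      P ≤ p * p)).card : ℝ) + (1 + (2 * l + (2 * l + (Real.sqrt P + 1)))) := by
  classical
  have hcover : Nat.primesLE P ⊆ (Nat.primesLE P).filter (fun p : ℕ => p ≠ 2 ∧ ¬ (p : ℤ) ∣ A ∧ ¬ (p : ℤ) ∣ B ∧
      P ≤ p * p) ∪ ({2} ∪ (A.natAbs.primeFactors ∪ (B.natAbs.primeFactors ∪
      range (Nat.sqrt P + 1)))) := by
    intro p hp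
    have hp' := Nat.mem_primesLE.mp hp
    by_cases h3 : p = 2
    · exact Finset.mem_union_right _ (Finset.mem_union_left _ (Finset.mem_singleton.2 h3))
    · by_cases h4 : (p : ℤ) ∣ A
      · apply Finset.mem_union_right
        apply Finset.mem_union_right
        apply Finset.mem_union_left
        rw [Nat.mem_primeFactors]
        exact ⟨hp'.2, Int.natCast_dvd.mp h4, hA'⟩
      · by_cases h5 : (p : ℤ) ∣ B
        · apply Finset.mem_union_right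
          apply Finset.mem_union_right
          apply Finset.mem_union_right
          apply Finset.mem_union_left
          rw [Nat.mem_primeFactors]
          exact ⟨hp'.2, Int.natCast_dvd.mp h5, hB'⟩
        · by_cases h6 : P ≤ p * p
          · apply Finset.mem_union_left
            rw [Finset.mem_filter]
            exact ⟨hp, h3, h4, h5, h6⟩
          · apply Finset.mem_union_right
            apply Finset.mem_union_right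
            apply Finset.mem_union_right
            apply Finset.mem_union_right
            rw [Finset.mem_range]
            have h7 : p ≤ Nat.sqrt P := Nat.le_sqrt.mpr (not_le.1 h6).le
            exact Nat.lt_succ_of_le h7
  have h1 := Finset.card_le_card hcover
  rw [Nat.primesLE_card_eq_primeCounting] at h1
  have h4 := h1.trans ((Finset.card_union_le _ _).trans (Nat.add_le_add_left
    ((Finset.card_union_le _ _).trans (Nat.add_le_add_left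
    ((Finset.card_union_le _ _).trans (Nat.add_le_add_left (Finset.card_union_le _ _) _)) _)) _))
  rw [Finset.card_singleton, Finset.card_range] at h4
  have h5 := card_primeFactors_le_log A.natAbs hA'
  have h6 := card_primeFactors_le_log B.natAbs hB'
  have h7 : (Nat.sqrt P : ℝ) ≤ Real.sqrt P := Real.nat_sqrt_le_real_sqrt
  have h8 : (Nat.primeCounting P : ℝ) ≤ (((Nat.primesLE P).filter (fun p : ℕ => p ≠ 2 ∧ ¬ (p : ℤ) ∣ A ∧ ¬ (p : ℤ) ∣ B ∧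
      P ≤ p * p)).card : ℝ) + (1 + ((A.natAbs.primeFactors.card : ℝ) +
          ((B.natAbs.primeFactors.card : ℝ) + ((Nat.sqrt P : ℝ) + 1)))) := by exact_mod_cast h4
  linarith

/-- the size of y -/
theorem few_squares_size {j M x : ℕ} {A B y : ℤ} {c : ℝ} (hM1 : (1 : ℝ) ≤ M) (hxM : x ≤ M)
    (hAM : |(A : ℝ)| ≤ (M : ℝ) ^ c) (hBM : |(B : ℝ)| ≤ (M : ℝ) ^ c) (hy : A * (x : ℤ) ^ j + B = y ^ 2)
    (hy0 : y.natAbs ≠ 0) : 2 * Real.log y.natAbs ≤ 1 + (c + j) * Real.log M := by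
  have hM0 : (0 : ℝ) < M := by linarith
  have hMc : (0 : ℝ) < (M : ℝ) ^ c := Real.rpow_pos_of_pos hM0 _
  have hMj : (0 : ℝ) < (M : ℝ) ^ j := pow_pos hM0 _
  have hyp : (0 : ℝ) < (y.natAbs : ℝ) := by exact_mod_cast Nat.pos_of_ne_zero hy0
  have h3 : ((y.natAbs : ℝ)) ^ 2 ≤ 2 * (M : ℝ) ^ (c + j) := by
    have h4 : ((y.natAbs : ℝ)) ^ 2 = (A : ℝ) * (x : ℝ) ^ j + B := by
      rw [Nat.cast_natAbs, Int.cast_abs, sq_abs]
      exact_mod_cast hy.symm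
    rw [h4]
    have h5 : (x : ℝ) ^ j ≤ (M : ℝ) ^ j := by
      apply pow_le_pow_left₀ (Nat.cast_nonneg x)
      exact_mod_cast hxM
    have h6 : (M : ℝ) ^ (c + j) = (M : ℝ) ^ c * (M : ℝ) ^ j := by
      rw [Real.rpow_add hM0, Real.rpow_natCast]
    have h7 : (A : ℝ) * (x : ℝ) ^ j ≤ (M : ℝ) ^ c * (M : ℝ) ^ j := by
      calc (A : ℝ) * (x : ℝ) ^ j ≤ |(A : ℝ)| * (x : ℝ) ^ j :=
            mul_le_mul_of_nonneg_right (le_abs_self _) (pow_nonneg (Nat.cast_nonneg x) _)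
        _ ≤ (M : ℝ) ^ c * (M : ℝ) ^ j := mul_le_mul hAM h5 (pow_nonneg (Nat.cast_nonneg x) _) hMc.le
    have h8 : (B : ℝ) ≤ (M : ℝ) ^ c * (M : ℝ) ^ j := by
      calc (B : ℝ) ≤ |(B : ℝ)| := le_abs_self _
        _ ≤ (M : ℝ) ^ c * 1 := by rw [mul_one]; exact hBM
        _ ≤ (M : ℝ) ^ c * (M : ℝ) ^ j :=
          mul_le_mul_of_nonneg_left (one_le_pow₀ hM1) hMc.le
    rw [h6]
    linarith
  have h5 := Real.log_le_log (pow_pos hyp 2) h3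
  rw [Real.log_pow, Real.log_mul (by norm_num) (Real.rpow_pos_of_pos hM0 _).ne', Real.log_rpow hM0] at h5
  have h6 := Real.log_two_lt_d9
  push_cast at h5
  linarith

theorem few_squares_n1 {pi q s pr c K l : ℝ} (h1 : q + s + 2 + K * l ≤ pi)
    (h2 : pi ≤ pr + (1 + (2 * (c * (3 * l)) + (2 * (c * (3 * l)) + (s + 1))))) (hK : 12 * c ≤ K) (hl : 0 ≤ l) :
    q ≤ pr := by
  have h3 := mul_le_mul_of_nonneg_right hK hl
  linarith

theorem few_squares_n2 {a b lM l d K q pr : ℝ} (h1 : a ≤ b) (h2 : b ≤ 1 + d * lM) (h3 : lM ≤ 3 * l)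
    (hd : 0 ≤ d) (hK : 6 * d ≤ K) (hl : 0 ≤ l) (h4 : 2 + K * l ≤ q) (h5 : q ≤ pr) : 2 * a ≤ pr := by
  have h6 := mul_le_mul_of_nonneg_left h3 hd
  have h7 := mul_le_mul_of_nonneg_right hK hl
  linarith

theorem few_squares_n3 {s s1 t1 t2 p2 r m q J : ℝ} (hs : s ≤ 1 + s1) (h1 : s1 ≤ 4 * (t1 + (t2 + p2)))
    (h2 : t1 ≤ 2 * r) (h3 : t2 ≤ 8 * J * r) (h4 : r ≤ 2 * m) (h5 : p2 ≤ m) (hm : 1 ≤ m) (hq : 0 ≤ q)
    (hJ : 0 ≤ J) : s ≤ (q + 3 + (10 * (4 + 16 * J) + 20)) * m := by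
  have h6 : J * r ≤ J * (2 * m) := mul_le_mul_of_nonneg_left h4 hJ
  have h7 : 0 ≤ q * m := mul_nonneg hq (by linarith)
  have h8 : 0 ≤ J * m := mul_nonneg hJ (by linarith)
  linarith

/-- the powers of M -/
theorem few_squares_pow {M P : ℕ} (hM1 : (1 : ℝ) ≤ M) (hPR : (2 : ℝ) ≤ P)
    (hPle : (P : ℝ) ≤ (M : ℝ) ^ (1 / 3 : ℝ)) (hPlt : (M : ℝ) ^ (1 / 3 : ℝ) < (P : ℝ) + 1) :
    (M : ℝ) / Real.sqrt P ≤ 2 * (M : ℝ) ^ (5 / 6 : ℝ) ∧ (P : ℝ) ^ 2 ≤ (M : ℝ) ^ (5 / 6 : ℝ) := by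
  have hM0 : (0 : ℝ) < M := by linarith
  have hsq : (0 : ℝ) < Real.sqrt P := Real.sqrt_pos.mpr (by linarith)
  constructor
  · have h5 : (M : ℝ) ^ (1 / 3 : ℝ) ≤ 4 * (P : ℝ) := by linarith
    have h6 : (M : ℝ) ^ (1 / 6 : ℝ) ≤ 2 * Real.sqrt P := by
      have h7 : (M : ℝ) ^ (1 / 6 : ℝ) = Real.sqrt ((M : ℝ) ^ (1 / 3 : ℝ)) := by
        rw [Real.sqrt_eq_rpow, ← Real.rpow_mul hM0.le]; norm_num
      have h8 : 2 * Real.sqrt P = Real.sqrt (4 * P) := by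
        rw [Real.sqrt_mul (by norm_num)]
        congr 1
        rw [show (4 : ℝ) = 2 ^ 2 by norm_num, Real.sqrt_sq (by norm_num)]
      rw [h7, h8]
      exact Real.sqrt_le_sqrt h5
    rw [div_le_iff₀ hsq]
    calc (M : ℝ) = (M : ℝ) ^ (5 / 6 : ℝ) * (M : ℝ) ^ (1 / 6 : ℝ) := by
          rw [← Real.rpow_add hM0]; norm_num
      _ ≤ (M : ℝ) ^ (5 / 6 : ℝ) * (2 * Real.sqrt P) :=
          mul_le_mul_of_nonneg_left h6 (Real.rpow_nonneg hM0.le _)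
      _ = 2 * (M : ℝ) ^ (5 / 6 : ℝ) * Real.sqrt P := by ring
  · calc (P : ℝ) ^ 2 ≤ ((M : ℝ) ^ (1 / 3 : ℝ)) ^ 2 := pow_le_pow_left₀ (Nat.cast_nonneg P) hPle 2
      _ = (M : ℝ) ^ (2 / 3 : ℝ) := by
          rw [← Real.rpow_natCast, ← Real.rpow_mul hM0.le]; norm_num
      _ ≤ (M : ℝ) ^ (5 / 6 : ℝ) := Real.rpow_le_rpow_of_exponent_le hM1 (by norm_num)

/-- division by the square of the number of primes -/
theorem few_squares_div {s pr M sq p2 J : ℝ} (hpr : 0 < pr)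
    (h : s * pr ^ 2 ≤ 4 * (pr * M + pr ^ 2 * (4 * J * M / sq + p2))) :
    s ≤ 4 * (M / pr + (4 * J * M / sq + p2)) := by
  have h2 : s * pr ^ 2 ≤ (4 * (M / pr + (4 * J * M / sq + p2))) * pr ^ 2 := by
    refine h.trans (le_of_eq ?_)
    have h3 : M / pr * pr ^ 2 = pr * M := by
      rw [pow_two, ← mul_assoc, div_mul_cancel₀ _ hpr.ne', mul_comm]
    have h4 : (4 * (M / pr + (4 * J * M / sq + p2))) * pr ^ 2 =
        4 * (M / pr * pr ^ 2 + pr ^ 2 * (4 * J * M / sq + p2)) := by ring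
    rw [h4, h3]
  exact le_of_mul_le_mul_right h2 (pow_pos hpr 2)

/-- the root of A x^j + B -/
theorem few_squares_zero {j : ℕ} (hj : 1 ≤ j) {A B : ℤ} (hA : A ≠ 0) (S : Finset ℕ) :
    (S.filter (fun x : ℕ => A * (x : ℤ) ^ j + B = 0)).card ≤ 1 := by
  rw [Finset.card_le_one]
  intro x hx x' hx'
  rw [Finset.mem_filter] at hx hx'
  have h1 : A * (x : ℤ) ^ j = A * (x' : ℤ) ^ j := by linarith [hx.2, hx'.2]
  have h2 : (x : ℤ) ^ j = (x' : ℤ) ^ j := mul_left_cancel₀ hA h1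
  have h3 : x ^ j = x' ^ j := by exact_mod_cast h2
  exact Nat.pow_left_injective (by omega) h3

/-- the last step -/
theorem few_squares_last {j M P : ℕ} {s s1 pr q : ℝ} (hM1 : (1 : ℝ) ≤ M) (hPR : (2 : ℝ) ≤ P)
    (hPle : (P : ℝ) ≤ (M : ℝ) ^ (1 / 3 : ℝ)) (hPlt : (M : ℝ) ^ (1 / 3 : ℝ) < (P : ℝ) + 1)
    (hpr : (P : ℝ) ^ (3 / 4 : ℝ) ≤ pr) (hq : 0 ≤ q) (hs : s ≤ 1 + s1)
    (h : s1 * pr ^ 2 ≤ 4 * (pr * ((M + 1 : ℕ) : ℝ) + pr ^ 2 * (4 * (j : ℝ) ^ 2 * ((M + 1 : ℕ) : ℝ) / Real.sqrt P +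
      (P : ℝ) ^ 2))) : s ≤ (q + 3 + (10 * (4 + 16 * (j : ℝ) ^ 2) + 20)) * (M : ℝ) ^ (5 / 6 : ℝ) := by
  have hP0 : (0 : ℝ) < P := by linarith
  have hsq : (0 : ℝ) < Real.sqrt P := Real.sqrt_pos.mpr hP0
  have hJ : (0 : ℝ) ≤ (j : ℝ) ^ 2 := sq_nonneg _
  obtain ⟨h4, h5⟩ := few_squares_pow hM1 hPR hPle hPlt
  have hpr0 : 0 < pr := lt_of_lt_of_le (Real.rpow_pos_of_pos hP0 _) hpr
  have hM2 : ((M + 1 : ℕ) : ℝ) ≤ 2 * (M : ℝ) := by push_cast; linarith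
  have h2 : ((M + 1 : ℕ) : ℝ) / pr ≤ 2 * ((M : ℝ) / Real.sqrt P) := by
    rw [← mul_div_assoc]
    apply div_le_div₀ (by linarith) hM2 hsq
    refine le_trans ?_ hpr
    rw [Real.sqrt_eq_rpow]
    exact Real.rpow_le_rpow_of_exponent_le (by linarith) (by norm_num)
  have h3 : 4 * (j : ℝ) ^ 2 * ((M + 1 : ℕ) : ℝ) / Real.sqrt P ≤ 8 * (j : ℝ) ^ 2 * ((M : ℝ) / Real.sqrt P) := by
    have h6 : 4 * (j : ℝ) ^ 2 * ((M + 1 : ℕ) : ℝ) / Real.sqrt P =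
        4 * (j : ℝ) ^ 2 * (((M + 1 : ℕ) : ℝ) / Real.sqrt P) := mul_div_assoc _ _ _
    have h7 : ((M + 1 : ℕ) : ℝ) / Real.sqrt P ≤ 2 * ((M : ℝ) / Real.sqrt P) := by
      rw [← mul_div_assoc]
      exact div_le_div_of_nonneg_right hM2 hsq.le
    have h8 := mul_le_mul_of_nonneg_left h7 (mul_nonneg (by norm_num : (0 : ℝ) ≤ 4) hJ)
    linarith
  exact few_squares_n3 hs (few_squares_div hpr0 h) h2 h3 h4 h5 (Real.one_le_rpow hM1 (by norm_num)) hq hJ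

/-- the sieve condition -/
theorem few_squares_half {P M j x : ℕ} {A B y : ℤ} {c K : ℝ} (Pr : Finset ℕ) (hPp : ∀ p ∈ Pr, p.Prime)
    (hc : 0 ≤ c) (hM1 : (1 : ℝ) ≤ M) (hPR : (2 : ℝ) ≤ P) (hxM : x ≤ M)
    (hAM : |(A : ℝ)| ≤ (M : ℝ) ^ c) (hBM : |(B : ℝ)| ≤ (M : ℝ) ^ c) (hy : A * (x : ℤ) ^ j + B = y ^ 2)
    (hx0 : ¬ A * (x : ℤ) ^ j + B = 0) (hlogM : Real.log M ≤ 3 * Real.log ((P : ℝ) + 1))
    (hK : 6 * (c + j) ≤ K) (hpow : 2 + K * Real.log ((P : ℝ) + 1) ≤ (P : ℝ) ^ (3 / 4 : ℝ))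
    (hPr : (P : ℝ) ^ (3 / 4 : ℝ) ≤ (Pr.card : ℝ)) :
    2 * (Pr.filter (fun p : ℕ => (p : ℤ) ∣ y)).card ≤ Pr.card := by
  have hy0 : y ≠ 0 := by
    rintro rfl
    apply hx0
    rw [hy, zero_pow two_ne_zero]
  have hy0' : y.natAbs ≠ 0 := Int.natAbs_ne_zero.mpr hy0
  have h1 : Pr.filter (fun p : ℕ => (p : ℤ) ∣ y) ⊆ y.natAbs.primeFactors := by
    intro p hp
    rw [Finset.mem_filter] at hp
    rw [Nat.mem_primeFactors]
    exact ⟨hPp p hp.1, Int.natCast_dvd.mp hp.2, hy0'⟩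
  have h2 : ((Pr.filter (fun p : ℕ => (p : ℤ) ∣ y)).card : ℝ) ≤ 2 * Real.log y.natAbs := by
    refine le_trans ?_ (card_primeFactors_le_log _ hy0')
    exact_mod_cast Finset.card_le_card h1
  have h3 := few_squares_size hM1 hxM hAM hBM hy hy0'
  have h4 : 0 ≤ Real.log ((P : ℝ) + 1) := Real.log_nonneg (by linarith)
  have h5 := few_squares_n2 h2 h3 hlogM (add_nonneg hc (Nat.cast_nonneg j)) hK h4 hpow hPr
  exact_mod_cast h5

/-- Few values of `A x^j + B` are squares. -/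
theorem few_squares (j : ℕ) (hj : 1 ≤ j) (c : ℝ) (hc : 0 ≤ c) : ∃ C : ℝ, 0 < C ∧
    ∀ (M : ℕ) (A B : ℤ), 1 ≤ M → A ≠ 0 → B ≠ 0 → |(A : ℝ)| ≤ (M : ℝ) ^ c →
      |(B : ℝ)| ≤ (M : ℝ) ^ c → ∀ S : Finset ℕ,
        (∀ x ∈ S, x ≤ M ∧ ∃ y : ℤ, A * (x : ℤ) ^ j + B = y ^ 2) →
        (S.card : ℝ) ≤ C * (M : ℝ) ^ (5 / 6 : ℝ) := by
  classical
  have hj0 : (1 : ℝ) ≤ (j : ℝ) := by exact_mod_cast hj
  obtain ⟨K, hK1, hK2, hK0⟩ : ∃ K : ℝ, 6 * (c + j) ≤ K ∧ 12 * c ≤ K ∧ 0 ≤ K :=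
    ⟨12 * (c + j + 1) + 12 * c, by linarith, by linarith, by linarith⟩
  obtain ⟨P0, hP02, hP0⟩ := many_primes K hK0
  have hq : (0 : ℝ) ≤ ((P0 + 1 : ℕ) : ℝ) ^ 3 := pow_nonneg (Nat.cast_nonneg _) 3
  have hJ : (0 : ℝ) ≤ (j : ℝ) ^ 2 := sq_nonneg _
  refine ⟨((P0 + 1 : ℕ) : ℝ) ^ 3 + 3 + (10 * (4 + 16 * (j : ℝ) ^ 2) + 20), by linarith, ?_⟩
  intro M A B hM hA hB hAM hBM S hS
  have hM1 : (1 : ℝ) ≤ (M : ℝ) := by exact_mod_cast hM
  have hM0 : (0 : ℝ) < (M : ℝ) := by linarith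
  have hM56 : (1 : ℝ) ≤ (M : ℝ) ^ (5 / 6 : ℝ) := Real.one_le_rpow hM1 (by norm_num)
  obtain ⟨P, hPle, hPlt⟩ : ∃ P : ℕ, (P : ℝ) ≤ (M : ℝ) ^ (1 / 3 : ℝ) ∧ (M : ℝ) ^ (1 / 3 : ℝ) < (P : ℝ) + 1 :=
    ⟨⌊(M : ℝ) ^ (1 / 3 : ℝ)⌋₊, Nat.floor_le (Real.rpow_nonneg hM0.le _), Nat.lt_floor_add_one _⟩
  by_cases hsmall : P < P0
  · have h1 := few_squares_small (fun x hx => (hS x hx).1) hPlt hsmall
    have h2 : ((P0 + 1 : ℕ) : ℝ) ^ 3 + 1 ≤ (((P0 + 1 : ℕ) : ℝ) ^ 3 + 3 + (10 * (4 + 16 * (j : ℝ) ^ 2) + 20)) * 1 := by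
      linarith
    exact h1.trans (h2.trans (mul_le_mul_of_nonneg_left hM56 (by linarith)))
  · obtain ⟨hpi, hpow⟩ := hP0 P (not_lt.1 hsmall)
    have hP2 : 2 ≤ P := le_trans hP02 (not_lt.1 hsmall)
    have hPR : (2 : ℝ) ≤ (P : ℝ) := by exact_mod_cast hP2
    have hlogM : Real.log M ≤ 3 * Real.log ((P : ℝ) + 1) := by
      have h1 : Real.log M = 3 * Real.log ((M : ℝ) ^ (1 / 3 : ℝ)) := by
        rw [Real.log_rpow hM0, ← mul_assoc, mul_one_div_cancel (by norm_num), one_mul]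
      rw [h1]
      exact mul_le_mul_of_nonneg_left (Real.log_le_log (Real.rpow_pos_of_pos hM0 _) hPlt.le) (by norm_num)
    have hlogP0 : 0 ≤ Real.log ((P : ℝ) + 1) := Real.log_nonneg (by linarith)
    have hA' : A.natAbs ≠ 0 := Int.natAbs_ne_zero.mpr hA
    have hB' : B.natAbs ≠ 0 := Int.natAbs_ne_zero.mpr hB
    have hlog : ∀ D : ℤ, D.natAbs ≠ 0 → |(D : ℝ)| ≤ (M : ℝ) ^ c →
        Real.log (D.natAbs : ℝ) ≤ c * (3 * Real.log ((P : ℝ) + 1)) := by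
      intro D hD hDM
      refine le_trans ?_ (mul_le_mul_of_nonneg_left hlogM hc)
      rw [← Real.log_rpow hM0]
      apply Real.log_le_log (by exact_mod_cast Nat.pos_of_ne_zero hD)
      rw [Nat.cast_natAbs, Int.cast_abs]
      exact hDM
    have hcard := few_squares_count (P := P) hA' hB' (hlog A hA' hAM) (hlog B hB' hBM)
    have hPrcard := few_squares_n1 hpi hcard hK2 hlogP0
    have hPrmem : ∀ p ∈ (Nat.primesLE P).filter (fun p : ℕ => p ≠ 2 ∧ ¬ (p : ℤ) ∣ A ∧ ¬ (p : ℤ) ∣ B ∧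
        P ≤ p * p), p.Prime ∧ p ≠ 2 ∧ ¬ (p : ℤ) ∣ A ∧ ¬ (p : ℤ) ∣ B ∧ p ≤ P ∧ P ≤ p * p := by
      intro p hp
      rw [Finset.mem_filter, Nat.mem_primesLE] at hp
      exact ⟨hp.1.2, hp.2.1, hp.2.2.1, hp.2.2.2.1, hp.1.1, hp.2.2.2.2⟩
    have hmain := square_sieve j hj A B (M + 1) P (by omega) _ hPrmem
      (S.filter (fun x : ℕ => ¬ A * (x : ℤ) ^ j + B = 0)) (by
        intro x hx
        rw [Finset.mem_filter] at hx
        obtain ⟨hxM, y, hy⟩ := hS x hx.1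
        exact ⟨Nat.lt_succ_of_le hxM, y, hy, few_squares_half _ (fun p hp => (hPrmem p hp).1) hc hM1 hPR hxM
          hAM hBM hy hx.2 hlogM hK1 hpow hPrcard⟩)
    have h6 : (S.card : ℝ) ≤ 1 + ((S.filter (fun x : ℕ => ¬ A * (x : ℤ) ^ j + B = 0)).card : ℝ) := by
      have h7 : (S.filter (fun x : ℕ => A * (x : ℤ) ^ j + B = 0)).card +
          (S.filter (fun x : ℕ => ¬ A * (x : ℤ) ^ j + B = 0)).card = S.card :=
        Finset.card_filter_add_card_filter_not _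
      have h9 := few_squares_zero (B := B) hj hA S
      have h8 : S.card ≤ 1 + (S.filter (fun x : ℕ => ¬ A * (x : ℤ) ^ j + B = 0)).card := by
        rw [← h7]
        exact Nat.add_le_add_right h9 _
      exact_mod_cast h8
    exact few_squares_last hM1 hPR hPle hPlt hPrcard hq h6 hmain

end Pool.Agent.Lib.MP_d8bd92_nt
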