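import Pool.Agent.Lib.MP_d8bd92_nt.TwMain

set_option autoImplicit false

/-!
Integral Weierstrass curves with a rational point of order two, counted by conductor.
-/

namespace Pool.Agent.Lib.MP_d8bd92_nt

open Finset Pool.Agent.Lib.Szpiro WeierstrassCurve WeierstrassCurve.Affine

theorem two_torsion_param (W : WeierstrassCurve ℤ)
    (P : (W.baseChange ℚ).toAffine.Point) (hP : addOrderOf P = 2) :
    ∃ m d g : ℤ, W.c₄ = m + d ∧ 256 * W.Δ = m ^ 2 * d ∧ 4 * m + d = g ^ 2 ∧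
      2 * W.c₆ = g * (m - 2 * d) := by
  obtain ⟨hP2, hP0⟩ := (addOrderOf_eq_prime_iff (p := 2)).mp hP
  rw [two_nsmul] at hP2
  rcases P with _ | ⟨x, y, h⟩
  · exact absurd rfl hP0
  have hy : 2 * y + (W.a₁ : ℚ) * x + W.a₃ = 0 := by
    by_contra hne
    have hy' : y ≠ (W.baseChange ℚ).toAffine.negY x y := by
      intro he
      apply hne
      rw [negY] at he
      have e1 : (W.baseChange ℚ).toAffine.a₁ = (W.a₁ : ℚ) := by
        simp [WeierstrassCurve.baseChange]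
      have e3 : (W.baseChange ℚ).toAffine.a₃ = (W.a₃ : ℚ) := by
        simp [WeierstrassCurve.baseChange]
      rw [e1, e3] at he
      linear_combination he
    rw [Point.add_self_of_Y_ne hy'] at hP2
    exact Point.some_ne_zero _ hP2
  have heq : y ^ 2 + W.a₁ * x * y + W.a₃ * y = x ^ 3 + W.a₂ * x ^ 2 + W.a₄ * x + (W.a₆ : ℚ) := by
    have := (equation_iff (W := (W.baseChange ℚ).toAffine) x y).mp h.1
    simpa [WeierstrassCurve.baseChange] using this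
  -- the integral root
  have hroot : (4 * x) ^ 3 + (W.b₂ : ℚ) * (4 * x) ^ 2 + 8 * W.b₄ * (4 * x) + 16 * W.b₆ = 0 := by
    simp only [WeierstrassCurve.b₂, WeierstrassCurve.b₄, WeierstrassCurve.b₆]
    push_cast
    have h2 : (2 * y + (W.a₁ : ℚ) * x + W.a₃) ^ 2 = 0 := by rw [hy]; ring
    linear_combination 16 * h2 - 64 * heq
  obtain ⟨e, he⟩ : ∃ e : ℤ, (e : ℚ) = 4 * x := by
    have hint : _root_.IsIntegral ℤ (4 * x) := by
      refine ⟨Polynomial.X ^ 3 + Polynomial.C W.b₂ * Polynomial.X ^ 2 +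
        Polynomial.C (8 * W.b₄) * Polynomial.X + Polynomial.C (16 * W.b₆), ?_, ?_⟩
      · monicity!
      · simp only [Polynomial.eval₂_add, Polynomial.eval₂_mul, Polynomial.eval₂_pow,
          Polynomial.eval₂_X, Polynomial.eval₂_C]
        simp only [eq_intCast, Int.cast_mul, Int.cast_ofNat]
        exact hroot
    obtain ⟨e, he⟩ := IsIntegrallyClosed.isIntegral_iff.mp hint
    exact ⟨e, by simpa using he⟩
  rw [← he] at hroot
  have hrZ : e ^ 3 + W.b₂ * e ^ 2 + 8 * W.b₄ * e + 16 * W.b₆ = 0 := by exact_mod_cast hroot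
  refine ⟨3 * e ^ 2 + 2 * W.b₂ * e + 8 * W.b₄, W.b₂ ^ 2 - 2 * W.b₂ * e - 3 * e ^ 2 - 32 * W.b₄,
    W.b₂ + 3 * e, ?_, ?_, ?_, ?_⟩
  · rw [WeierstrassCurve.c₄]; ring
  · have h8 := W.b_relation
    rw [WeierstrassCurve.Δ]
    linear_combination (-64 * W.b₂ ^ 2) * h8 +
      (-27 * (16 * W.b₆ - (e ^ 3 + W.b₂ * e ^ 2 + 8 * W.b₄ * e)) + 144 * W.b₂ * W.b₄
        - 4 * W.b₂ ^ 3) * hrZ
  · ring
  · rw [WeierstrassCurve.c₆]
    linear_combination -27 * hrZ

/-- radicals of the two factors -/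
theorem rd_mul_rd_le (m d D c : ℤ) (hD : D ≠ 0) (hc : c = m + d) (h256 : 256 * D = m ^ 2 * d)
    (hcop : IsCoprime c D) : rd m.natAbs * rd d.natAbs ≤ 4 * rd D.natAbs := by
  classical
  have hsplit : ∀ n : ℕ, rd n ≤ 2 * ∏ p ∈ n.primeFactors.erase 2, p := by
    intro n
    unfold rd
    by_cases h2 : 2 ∈ n.primeFactors
    · rw [← Finset.mul_prod_erase _ _ h2]
    · rw [Finset.erase_eq_of_notMem h2]
      omega
  have hD' : D.natAbs ≠ 0 := Int.natAbs_ne_zero.mpr hD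
  have hdvd : ∀ p : ℕ, p.Prime → p ≠ 2 → ((p : ℤ) ∣ m ∨ (p : ℤ) ∣ d) → (p : ℤ) ∣ D := by
    intro p hp hp2 h
    have h1 : (p : ℤ) ∣ 256 * D := by
      rw [h256]
      rcases h with h | h
      · exact Dvd.dvd.mul_right (dvd_pow h (by norm_num)) _
      · exact Dvd.dvd.mul_left h _
    have hpi : Prime (p : ℤ) := Nat.prime_iff_prime_int.mp hp
    rcases hpi.dvd_or_dvd h1 with h2 | h2
    · exfalso
      apply hp2
      have h3 : (p : ℤ) ∣ 2 ^ 8 := by norm_num; exact h2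
      have h4 : (p : ℤ) ∣ 2 := hpi.dvd_of_dvd_pow h3
      have h5 : p ∣ 2 := by exact_mod_cast h4
      exact (Nat.prime_dvd_prime_iff_eq hp Nat.prime_two).mp h5
    · exact h2
  have hdisj : Disjoint (m.natAbs.primeFactors.erase 2) (d.natAbs.primeFactors.erase 2) := by
    rw [Finset.disjoint_left]
    intro p h1 h2
    rw [Finset.mem_erase, Nat.mem_primeFactors] at h1 h2
    have hp := h1.2.1
    have hm : (p : ℤ) ∣ m := Int.natCast_dvd.mpr h1.2.2.1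
    have hd : (p : ℤ) ∣ d := Int.natCast_dvd.mpr h2.2.2.1
    have hpD := hdvd p hp h1.1 (Or.inl hm)
    have hpc : (p : ℤ) ∣ c := by rw [hc]; exact dvd_add hm hd
    have h3 : IsUnit (p : ℤ) := hcop.isUnit_of_dvd' hpc hpD
    exact (Nat.prime_iff_prime_int.mp hp).not_isUnit h3
  have hsub : (m.natAbs.primeFactors.erase 2) ∪ (d.natAbs.primeFactors.erase 2) ⊆
      D.natAbs.primeFactors := by
    intro p hp
    rw [Finset.mem_union, Finset.mem_erase, Finset.mem_erase, Nat.mem_primeFactors,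
      Nat.mem_primeFactors] at hp
    rw [Nat.mem_primeFactors]
    rcases hp with ⟨h1, h2, h3, _⟩ | ⟨h1, h2, h3, _⟩
    · exact ⟨h2, Int.natCast_dvd.mp (hdvd p h2 h1 (Or.inl (Int.natCast_dvd.mpr h3))), hD'⟩
    · exact ⟨h2, Int.natCast_dvd.mp (hdvd p h2 h1 (Or.inr (Int.natCast_dvd.mpr h3))), hD'⟩
  calc rd m.natAbs * rd d.natAbs ≤ (2 * ∏ p ∈ m.natAbs.primeFactors.erase 2, p) *
        (2 * ∏ p ∈ d.natAbs.primeFactors.erase 2, p) := Nat.mul_le_mul (hsplit _) (hsplit _)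
    _ = 4 * ∏ p ∈ (m.natAbs.primeFactors.erase 2) ∪ (d.natAbs.primeFactors.erase 2), p := by
        rw [Finset.prod_union hdisj]; ring
    _ ≤ 4 * rd D.natAbs := by
        apply Nat.mul_le_mul_left
        unfold rd
        apply Finset.prod_le_prod_of_subset_of_one_le' hsub
        intro p hp _
        exact (Nat.prime_of_mem_primeFactors hp).one_lt.le

/-- the invariants of the curves to be counted -/
def twoSet (Y κ : ℝ) : Set (ℤ × ℤ) :=
  {c | ∃ W : WeierstrassCurve ℤ, W.c₄ = c.1 ∧ W.c₆ = c.2 ∧ W.Δ ≠ 0 ∧ IsCoprime W.c₄ W.Δ ∧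
    (∃ P : (W.baseChange ℚ).toAffine.Point, addOrderOf P = 2) ∧
    ((rd W.Δ.natAbs : ℕ) : ℝ) ≤ Y ∧ ((W.Δ.natAbs : ℕ) : ℝ) ≤ Y ^ κ}

theorem twoSet_count (κ : ℝ) (hκ : 0 < κ) : ∃ C δ : ℝ, 0 < C ∧ 0 < δ ∧ δ ≤ 1 / 8 ∧ ∀ Y : ℝ, 1 ≤ Y →
    (twoSet Y κ).Finite ∧ ((twoSet Y κ).ncard : ℝ) ≤ C * Y ^ (1 - δ) := by
  classical
  have hs : ∀ s : Bool × Bool, ∃ C δ : ℝ, 0 < C ∧ 0 < δ ∧ δ ≤ 1 / 8 ∧ ∀ (R : ℝ) (Z : ℕ), 1 ≤ R →
      (Z : ℝ) ≤ R ^ (κ + 4) → ∀ S : Finset (ℕ × ℕ), (∀ w ∈ S, 1 ≤ w.1 ∧ w.1 ≤ Z ∧ 1 ≤ w.2 ∧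
        w.2 ≤ Z ∧ (rd w.1 : ℝ) * rd w.2 ≤ R ∧ ∃ y : ℤ, (if s.1 then 4 else -4) * (w.1 : ℤ) +
          (if s.2 then 1 else -1) * (w.2 : ℤ) = y ^ 2) →
      (S.card : ℝ) ≤ C * R ^ (1 - δ) := by
    intro s
    apply pair_count _ _ _ _ (κ + 4) (by linarith)
    · split_ifs <;> norm_num
    · split_ifs <;> norm_num
  choose Cf δf hCf hδf hδf' hmain using hs
  obtain ⟨δ, hδ⟩ : ∃ δ : ℝ, δ = Finset.univ.inf' Finset.univ_nonempty δf := ⟨_, rfl⟩
  have hδle : ∀ s, δ ≤ δf s := fun s => by rw [hδ]; exact Finset.inf'_le _ (Finset.mem_univ s)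
  have hδpos : 0 < δ := by
    rw [hδ, Finset.lt_inf'_iff]
    exact fun s _ => hδf s
  have hCsum : 0 < ∑ s : Bool × Bool, Cf s := Finset.sum_pos (fun s _ => hCf s) Finset.univ_nonempty
  refine ⟨8 * ∑ s : Bool × Bool, Cf s, δ, by positivity, hδpos, (hδle (true, true)).trans (hδf' _), ?_⟩
  intro Y hY
  have hY0 : 0 < Y := by linarith
  -- choose parameters
  have hpar : ∀ c : ℤ × ℤ, ∃ t : ℤ × ℤ, c ∈ twoSet Y κ → (t.1 ≠ 0 ∧ t.2 ≠ 0 ∧
      t.1.natAbs ≤ ⌊256 * Y ^ κ⌋₊ ∧ t.2.natAbs ≤ ⌊256 * Y ^ κ⌋₊ ∧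
      ((rd t.1.natAbs : ℕ) : ℝ) * ((rd t.2.natAbs : ℕ) : ℝ) ≤ 4 * Y ∧ c.1 = t.1 + t.2 ∧
      (∃ g : ℤ, 4 * t.1 + t.2 = g ^ 2) ∧ 4 * c.2 ^ 2 = (4 * t.1 + t.2) * (t.1 - 2 * t.2) ^ 2) := by
    intro c
    by_cases hc : c ∈ twoSet Y κ
    · obtain ⟨W, h4, h6, hΔ, hss, ⟨P, hP⟩, hN, hD⟩ := hc
      obtain ⟨m, d, g, e1, e2, e3, e4⟩ := two_torsion_param W P hP
      refine ⟨(m, d), fun _ => ?_⟩
      have hne : m ^ 2 * d ≠ 0 := by rw [← e2]; exact mul_ne_zero (by norm_num) hΔ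
      have hm0 : m ≠ 0 := by rintro h0; rw [h0] at hne; simp at hne
      have hd0 : d ≠ 0 := by rintro h0; rw [h0] at hne; simp at hne
      have hN' : 256 * W.Δ.natAbs = m.natAbs ^ 2 * d.natAbs := by
        have := congrArg Int.natAbs e2
        rw [Int.natAbs_mul, Int.natAbs_mul, Int.natAbs_pow] at this
        exact this
      have hm1 : 1 ≤ m.natAbs := Int.natAbs_pos.mpr hm0
      have hd1 : 1 ≤ d.natAbs := Int.natAbs_pos.mpr hd0
      have hdb : d.natAbs ≤ 256 * W.Δ.natAbs := by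
        rw [hN']; exact Nat.le_mul_of_pos_left _ (by positivity)
      have hmb : m.natAbs ≤ 256 * W.Δ.natAbs := by
        rw [hN']
        calc m.natAbs = m.natAbs * 1 * 1 := by ring
          _ ≤ m.natAbs * m.natAbs * d.natAbs := by gcongr
          _ = m.natAbs ^ 2 * d.natAbs := by ring
      have hfl : ∀ k : ℕ, k ≤ 256 * W.Δ.natAbs → k ≤ ⌊256 * Y ^ κ⌋₊ := by
        intro k hk
        apply Nat.le_floor
        have h1 : (k : ℝ) ≤ 256 * (W.Δ.natAbs : ℝ) := by exact_mod_cast hk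
        linarith
      refine ⟨hm0, hd0, hfl _ hmb, hfl _ hdb, ?_, ?_, ⟨g, e3⟩, ?_⟩
      · have h1 := rd_mul_rd_le m d W.Δ W.c₄ hΔ e1 e2 hss
        have h2 : ((rd m.natAbs : ℕ) : ℝ) * ((rd d.natAbs : ℕ) : ℝ) ≤ 4 * ((rd W.Δ.natAbs : ℕ) : ℝ) := by
          exact_mod_cast h1
        linarith
      · rw [← h4, e1]
      · have h1 : 4 * c.2 ^ 2 = (2 * W.c₆) ^ 2 := by rw [h6]; ring
        rw [h1, e4, e3]
        ring
    · exact ⟨(0, 0), fun h => absurd h hc⟩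
  choose t ht using hpar
  -- injectivity
  have hinj : Set.InjOn (fun c : ℤ × ℤ => ((t c, decide (0 ≤ c.2)) : (ℤ × ℤ) × Bool)) (twoSet Y κ) := by
    intro c hc c' hc' hcc
    simp only [Prod.mk.injEq] at hcc
    obtain ⟨h1, h2⟩ := hcc
    obtain ⟨_, _, _, _, _, e1, _, e2⟩ := ht c hc
    obtain ⟨_, _, _, _, _, e1', _, e2'⟩ := ht c' hc'
    rw [h1] at e1 e2
    have h3 : c.1 = c'.1 := by rw [e1, e1']
    have h4 : c.2 ^ 2 = c'.2 ^ 2 := by linarith
    have h5 : c.2 = c'.2 := by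
      rcases sq_eq_sq_iff_eq_or_eq_neg.mp h4 with h | h
      · exact h
      · have h6 : (0 ≤ c.2) ↔ (0 ≤ c'.2) := by simpa using h2
        by_cases h7 : 0 ≤ c'.2
        · have := h6.mpr h7
          omega
        · have h8 : ¬ 0 ≤ c.2 := fun h => h7 (h6.mp h)
          omega
    exact Prod.ext h3 h5
  set B : ℤ := (⌊256 * Y ^ κ⌋₊ : ℤ) with hB
  have hfin : (twoSet Y κ).Finite := by
    apply Set.Finite.of_finite_image _ hinj
    apply Set.Finite.subset (Finset.finite_toSet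
      (((Finset.Icc (-B) B) ×ˢ (Finset.Icc (-B) B)) ×ˢ (Finset.univ : Finset Bool)))
    rintro w ⟨c, hc, rfl⟩
    obtain ⟨_, _, h1, h2, _⟩ := ht c hc
    simp only [Finset.mem_coe, Finset.mem_product, Finset.mem_Icc, Finset.mem_univ, and_true]
    constructor <;> constructor <;> omega
  refine ⟨hfin, ?_⟩
  rw [Set.ncard_eq_toFinset_card _ hfin]
  set F : Finset (ℤ × ℤ) := hfin.toFinset with hF
  have hFmem : ∀ c ∈ F, c ∈ twoSet Y κ := fun c hc => (Set.Finite.mem_toFinset hfin).mp hc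
  -- split by signs
  set sg : ℤ × ℤ → (Bool × Bool) × Bool := fun c =>
    ((decide (0 ≤ (t c).1), decide (0 ≤ (t c).2)), decide (0 ≤ c.2)) with hsg
  have hsum : F.card = ∑ s : (Bool × Bool) × Bool, (F.filter (fun c => sg c = s)).card :=
    Finset.card_eq_sum_card_fiberwise (fun c _ => Finset.mem_univ _)
  have hZ : ((⌊256 * Y ^ κ⌋₊ : ℕ) : ℝ) ≤ (4 * Y) ^ (κ + 4) := by
    have h1 : ((⌊256 * Y ^ κ⌋₊ : ℕ) : ℝ) ≤ 256 * Y ^ κ := Nat.floor_le (by positivity)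
    refine h1.trans ?_
    have h2 : (4 * Y) ^ (κ + 4) = (4 * Y) ^ κ * (4 * Y) ^ (4 : ℕ) := by
      rw [Real.rpow_add (by positivity)]
      congr 1
      exact_mod_cast Real.rpow_natCast (4 * Y) 4
    have h3 : Y ^ κ ≤ (4 * Y) ^ κ := Real.rpow_le_rpow hY0.le (by linarith) hκ.le
    have h4 : (256 : ℝ) ≤ (4 * Y) ^ (4 : ℕ) := by
      have h5 : (4 : ℝ) ^ 4 ≤ (4 * Y) ^ 4 := pow_le_pow_left₀ (by norm_num) (by linarith) 4
      norm_num at h5 ⊢
      linarith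
    rw [h2]
    calc 256 * Y ^ κ = Y ^ κ * 256 := by ring
      _ ≤ (4 * Y) ^ κ * (4 * Y) ^ (4 : ℕ) := mul_le_mul h3 h4 (by norm_num) (by positivity)
  have hfib : ∀ s : (Bool × Bool) × Bool, ((F.filter (fun c => sg c = s)).card : ℝ) ≤
      Cf s.1 * (4 * Y) ^ (1 - δ) := by
    intro s
    set G := F.filter (fun c => sg c = s) with hG
    have hGmem : ∀ c ∈ G, c ∈ twoSet Y κ ∧ decide (0 ≤ (t c).1) = s.1.1 ∧
        decide (0 ≤ (t c).2) = s.1.2 ∧ decide (0 ≤ c.2) = s.2 := by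
      intro c hc
      rw [hG, Finset.mem_filter] at hc
      have h1 := hc.2
      rw [hsg] at h1
      simp only at h1
      rw [← h1]
      exact ⟨hFmem c hc.1, rfl, rfl, rfl⟩
    have hcardG : G.card = (G.image (fun c => ((t c).1.natAbs, (t c).2.natAbs))).card := by
      rw [Finset.card_image_of_injOn]
      intro c hc c' hc' hcc
      simp only [Prod.mk.injEq] at hcc
      obtain ⟨k1, k2, k3, k4⟩ := hGmem c hc
      obtain ⟨k1', k2', k3', k4'⟩ := hGmem c' hc'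
      apply hinj k1 k1'
      simp only [Prod.mk.injEq]
      refine ⟨Prod.ext ?_ ?_, by rw [k4, k4']⟩
      · have h1 : (0 ≤ (t c).1) ↔ (0 ≤ (t c').1) := by
          have := k2.trans k2'.symm
          simpa using this
        by_cases h2 : 0 ≤ (t c').1
        · have := h1.mpr h2
          omega
        · have h3 : ¬ 0 ≤ (t c).1 := fun h => h2 (h1.mp h)
          omega
      · have h1 : (0 ≤ (t c).2) ↔ (0 ≤ (t c').2) := by
          have := k3.trans k3'.symm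
          simpa using this
        by_cases h2 : 0 ≤ (t c').2
        · have := h1.mpr h2
          omega
        · have h3 : ¬ 0 ≤ (t c).2 := fun h => h2 (h1.mp h)
          omega
    rw [hcardG]
    refine (hmain s.1 (4 * Y) ⌊256 * Y ^ κ⌋₊ (by linarith) hZ _ ?_).trans ?_
    · intro w hw
      rw [Finset.mem_image] at hw
      obtain ⟨c, hc, rfl⟩ := hw
      obtain ⟨k1, k2, k3, k4⟩ := hGmem c hc
      obtain ⟨a1, a2, a3, a4, a5, _, ⟨g, a7⟩, _⟩ := ht c k1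
      refine ⟨Int.natAbs_pos.mpr a1, a3, Int.natAbs_pos.mpr a2, a4, a5, g, ?_⟩
      rw [← a7, ← k2, ← k3]
      simp only [decide_eq_true_eq]
      by_cases h1 : 0 ≤ (t c).1
      · by_cases h2 : 0 ≤ (t c).2
        · rw [if_pos h1, if_pos h2]; omega
        · rw [if_pos h1, if_neg h2]; omega
      · by_cases h2 : 0 ≤ (t c).2
        · rw [if_neg h1, if_pos h2]; omega
        · rw [if_neg h1, if_neg h2]; omega
    · apply mul_le_mul_of_nonneg_left _ (hCf s.1).le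
      apply Real.rpow_le_rpow_of_exponent_le (by linarith)
      have := hδle s.1
      linarith
  have h4Y : (4 * Y) ^ (1 - δ) ≤ 4 * Y ^ (1 - δ) := by
    rw [Real.mul_rpow (by norm_num) hY0.le]
    apply mul_le_mul_of_nonneg_right _ (by positivity)
    calc (4 : ℝ) ^ (1 - δ) ≤ (4 : ℝ) ^ (1 : ℝ) :=
          Real.rpow_le_rpow_of_exponent_le (by norm_num) (by linarith)
      _ = 4 := Real.rpow_one 4
  calc (F.card : ℝ) = ∑ s : (Bool × Bool) × Bool, ((F.filter (fun c => sg c = s)).card : ℝ) := by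
        rw [hsum]; push_cast; rfl
    _ ≤ ∑ s : (Bool × Bool) × Bool, Cf s.1 * (4 * Y) ^ (1 - δ) := Finset.sum_le_sum (fun s _ => hfib s)
    _ = 2 * (∑ s : Bool × Bool, Cf s) * (4 * Y) ^ (1 - δ) := by
        rw [Fintype.sum_prod_type]
        simp only [Finset.sum_const, Finset.card_univ, Fintype.card_bool, nsmul_eq_mul]
        rw [← Finset.mul_sum, ← Finset.sum_mul]
        push_cast
        ring
    _ ≤ 2 * (∑ s : Bool × Bool, Cf s) * (4 * Y ^ (1 - δ)) := by gcongr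
    _ = 8 * (∑ s : Bool × Bool, Cf s) * Y ^ (1 - δ) := by ring

end Pool.Agent.Lib.MP_d8bd92_nt
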