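import Pool.Agent.Lib.MP_d8bd92_nt.TwRad

set_option autoImplicit false

/-!
A number with a large radical has a long variable.
-/

namespace Pool.Agent.Lib.MP_d8bd92_nt

open Finset Pool.Agent.Lib.Szpiro

theorem prod_pow_factorization (n : ℕ) (hn : n ≠ 0) :
    ∏ p ∈ n.primeFactors, p ^ (n.factorization p) = n := by
  have h := Nat.prod_factorization_pow_eq_self hn
  rw [Finsupp.prod, Nat.support_factorization] at h
  exact h

theorem exists_long (n K : ℕ) (hn : n ≠ 0) (hK : 2 ≤ K) :
    ∃ j u x : ℕ, 1 ≤ j ∧ j < K ∧ u ≠ 0 ∧ x ≠ 0 ∧ n = u * x ^ j ∧ rd u * x ≤ rd n ∧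
      (rd n : ℝ) ≤ (x : ℝ) ^ (K - 1) * (n : ℝ) ^ (1 / (K : ℝ)) := by
  classical
  set X : ℕ → ℕ := fun j => ∏ p ∈ n.primeFactors.filter (fun p => n.factorization p = j), p with hX
  set Y : ℕ := ∏ p ∈ n.primeFactors.filter (fun p => ¬ n.factorization p < K), p with hY
  have hpos : ∀ s ⊆ n.primeFactors, 0 < ∏ p ∈ s, p := fun s hs =>
    Finset.prod_pos (fun p hp => (Nat.prime_of_mem_primeFactors (hs hp)).pos)
  have hXpos : ∀ j, 0 < X j := fun j => hpos _ (Finset.filter_subset _ _)
  have hfac1 : ∀ p ∈ n.primeFactors, 1 ≤ n.factorization p := fun p hp =>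
    (Nat.prime_of_mem_primeFactors hp).factorization_pos_of_dvd hn (Nat.dvd_of_mem_primeFactors hp)
  have hrd : rd n = (∏ j ∈ Ico 1 K, X j) * Y := by
    have h1 : ∏ p ∈ n.primeFactors.filter (fun p => n.factorization p < K), p =
        ∏ j ∈ Ico 1 K, X j := by
      rw [← Finset.prod_fiberwise_of_maps_to (s := n.primeFactors.filter (fun p => n.factorization p < K))
        (t := Ico 1 K) (g := fun p => n.factorization p)]
      · apply Finset.prod_congr rfl
        intro j hj
        rw [Finset.mem_Ico] at hj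
        simp only [hX]
        apply Finset.prod_congr _ (fun _ _ => rfl)
        ext p
        simp only [Finset.mem_filter]
        constructor
        · rintro ⟨⟨h1, _⟩, h2⟩
          exact ⟨h1, h2⟩
        · rintro ⟨h1, h2⟩
          exact ⟨⟨h1, by omega⟩, h2⟩
      · intro p hp
        rw [Finset.mem_filter] at hp
        rw [Finset.mem_Ico]
        exact ⟨hfac1 p hp.1, hp.2⟩
    unfold rd
    rw [← h1, hY, Finset.prod_filter_mul_prod_filter_not]
  have hYK : Y ^ K ≤ n := by
    have h1 : Y ^ K ∣ n := by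
      conv_rhs => rw [← prod_pow_factorization n hn]
      rw [hY, ← Finset.prod_pow]
      refine dvd_trans ?_ (Finset.prod_dvd_prod_of_subset _ _ _
        (Finset.filter_subset (fun p => ¬ n.factorization p < K) n.primeFactors))
      apply Finset.prod_dvd_prod_of_dvd
      intro p hp
      rw [Finset.mem_filter] at hp
      exact pow_dvd_pow p (by omega)
    exact Nat.le_of_dvd (Nat.pos_of_ne_zero hn) h1
  obtain ⟨j0, hj0, hmax⟩ := Finset.exists_max_image (Ico 1 K) X ⟨1, by
    rw [Finset.mem_Ico]; omega⟩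
  rw [Finset.mem_Ico] at hj0
  set u : ℕ := ∏ p ∈ n.primeFactors.filter (fun p => ¬ n.factorization p = j0),
    p ^ (n.factorization p) with hu
  have hu0 : u ≠ 0 := by
    rw [hu]
    apply Finset.prod_ne_zero_iff.mpr
    intro p hp
    rw [Finset.mem_filter] at hp
    exact pow_ne_zero _ (Nat.prime_of_mem_primeFactors hp.1).ne_zero
  refine ⟨j0, u, X j0, hj0.1, hj0.2, hu0, (hXpos j0).ne', ?_, ?_, ?_⟩
  · conv_lhs => rw [← prod_pow_factorization n hn]
    rw [← Finset.prod_filter_mul_prod_filter_not n.primeFactors (fun p => n.factorization p = j0),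
      mul_comm]
    congr 1
    simp only [hX]
    rw [← Finset.prod_pow]
    apply Finset.prod_congr rfl
    intro p hp
    rw [Finset.mem_filter] at hp
    rw [hp.2]
  · have h1 : rd u ≤ ∏ p ∈ n.primeFactors.filter (fun p => ¬ n.factorization p = j0), p := by
      unfold rd
      apply Finset.prod_le_prod_of_subset_of_one_le'
      · intro p hp
        have hp' := Nat.mem_primeFactors.mp hp
        rw [hu] at hp'
        obtain ⟨q, hq, hpq⟩ := (hp'.1.prime.dvd_finsetProd_iff _).mp hp'.2.1
        have h2 := Nat.prime_dvd_prime_iff_eq hp'.1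
          (Nat.prime_of_mem_primeFactors (Finset.mem_filter.mp hq).1) |>.mp
          (hp'.1.dvd_of_dvd_pow hpq)
        rw [h2]
        exact hq
      · intro p hp _
        exact (Nat.prime_of_mem_primeFactors (Finset.mem_filter.mp hp).1).one_lt.le
    calc rd u * X j0 ≤ (∏ p ∈ n.primeFactors.filter (fun p => ¬ n.factorization p = j0), p) * X j0 :=
          Nat.mul_le_mul_right _ h1
      _ = rd n := by
          unfold rd
          rw [mul_comm]
          simp only [hX]
          rw [Finset.prod_filter_mul_prod_filter_not]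
  · have h1 : (∏ j ∈ Ico 1 K, X j) ≤ (X j0) ^ (K - 1) := by
      have h2 := Finset.prod_le_pow_card (Ico 1 K) X (X j0) hmax
      rw [Nat.card_Ico] at h2
      exact h2
    have h2 : (Y : ℝ) ≤ (n : ℝ) ^ (1 / (K : ℝ)) := by
      have hK0 : (0 : ℝ) < (K : ℝ) := by exact_mod_cast (by omega : 0 < K)
      calc (Y : ℝ) = ((Y : ℝ) ^ (K : ℝ)) ^ (1 / (K : ℝ)) := by
            rw [← Real.rpow_mul (by positivity), mul_one_div_cancel hK0.ne', Real.rpow_one]
        _ ≤ (n : ℝ) ^ (1 / (K : ℝ)) := by
            apply Real.rpow_le_rpow (by positivity) _ (by positivity)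
            rw [Real.rpow_natCast]
            exact_mod_cast hYK
    calc (rd n : ℝ) = ((∏ j ∈ Ico 1 K, X j : ℕ) : ℝ) * (Y : ℝ) := by rw [hrd]; push_cast; ring
      _ ≤ (((X j0) ^ (K - 1) : ℕ) : ℝ) * (n : ℝ) ^ (1 / (K : ℝ)) := by
          apply mul_le_mul _ h2 (by positivity) (by positivity)
          exact_mod_cast h1
      _ = (X j0 : ℝ) ^ (K - 1) * (n : ℝ) ^ (1 / (K : ℝ)) := by push_cast; ring

end Pool.Agent.Lib.MP_d8bd92_nt
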