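import Pool.Agent.Lib.MP_d8bd92_nt.TwCount
import Pool.Agent.Lib.MP_d8bd92_nt.TwLong

set_option autoImplicit false

/-!
Pairs of natural numbers with small radicals for which a fixed linear form is a square.
-/

namespace Pool.Agent.Lib.MP_d8bd92_nt

open Finset Pool.Agent.Lib.Szpiro

theorem sum_inv_rd_pos (Z : ℕ) : 0 ≤ ∑ a ∈ Icc 1 Z, ((rd a : ℝ))⁻¹ :=
  Finset.sum_nonneg (fun _ _ => by positivity)

/-- pairs for which the first member has a large radical -/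
theorem half_count (α β : ℤ) (hα : α ≠ 0) (hβ : β ≠ 0) (τ : ℝ) (hτ : 0 < τ) :
    ∃ C δ : ℝ, 0 < C ∧ 0 < δ ∧ δ ≤ 1 / 8 ∧ ∀ (R : ℝ) (Z : ℕ), 1 ≤ R → (Z : ℝ) ≤ R ^ τ →
      ∀ S : Finset (ℕ × ℕ), (∀ w ∈ S, 1 ≤ w.1 ∧ w.1 ≤ Z ∧ 1 ≤ w.2 ∧ w.2 ≤ Z ∧
        (rd w.1 : ℝ) * rd w.2 ≤ R ∧ R ^ (3 / 8 : ℝ) ≤ (rd w.1 : ℝ) ∧
        ∃ y : ℤ, α * (w.1 : ℤ) + β * (w.2 : ℤ) = y ^ 2) →
      (S.card : ℝ) ≤ C * R ^ (1 - δ) := by
  classical
  obtain ⟨K, hK2, hKτ⟩ : ∃ K : ℕ, 2 ≤ K ∧ 8 * τ ≤ (K : ℝ) :=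
    ⟨⌈8 * τ⌉₊ + 2, by omega, by push_cast; linarith [Nat.le_ceil (8 * τ)]⟩
  have hKR : (2 : ℝ) ≤ (K : ℝ) := by exact_mod_cast hK2
  have hK1 : ((K - 1 : ℕ) : ℝ) = (K : ℝ) - 1 := by
    rw [Nat.cast_sub (by omega)]; simp
  have hK1pos : (0 : ℝ) < (K : ℝ) - 1 := by linarith
  obtain ⟨η, hη⟩ : ∃ η : ℝ, η = 1 / (4 * ((K : ℝ) - 1)) := ⟨_, rfl⟩
  have hη0 : 0 < η := by rw [hη]; positivity
  have hη1 : η ≤ 1 / 4 := by
    rw [hη]
    apply one_div_le_one_div_of_le (by norm_num)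
    linarith
  obtain ⟨c, hc⟩ : ∃ c : ℝ, c = 1 + τ / η := ⟨_, rfl⟩
  have hc0 : 0 ≤ c := by rw [hc]; positivity
  have hfs : ∀ j : ℕ, ∃ C : ℝ, 0 < C ∧ (1 ≤ j → ∀ (M : ℕ) (A B : ℤ), 1 ≤ M → A ≠ 0 → B ≠ 0 →
      |(A : ℝ)| ≤ (M : ℝ) ^ c → |(B : ℝ)| ≤ (M : ℝ) ^ c → ∀ S : Finset ℕ,
        (∀ x ∈ S, x ≤ M ∧ ∃ y : ℤ, A * (x : ℤ) ^ j + B = y ^ 2) →
        (S.card : ℝ) ≤ C * (M : ℝ) ^ (5 / 6 : ℝ)) := by
    intro j
    by_cases hj : 1 ≤ j
    · obtain ⟨C, h1, h2⟩ := few_squares j hj c hc0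
      exact ⟨C, h1, fun _ => h2⟩
    · exact ⟨1, one_pos, fun h => absurd h hj⟩
  choose Cf hCf0 hCf using hfs
  obtain ⟨C1, hC1⟩ : ∃ C1 : ℝ, C1 = ∑ j ∈ Ico 1 K, Cf j := ⟨_, rfl⟩
  have hC1le : ∀ j ∈ Ico 1 K, Cf j ≤ C1 := by
    intro j hj
    rw [hC1]
    exact Finset.single_le_sum (f := Cf) (fun i _ => (hCf0 i).le) hj
  have hC1pos : 0 < C1 := lt_of_lt_of_le (hCf0 1) (hC1le 1 (by rw [Finset.mem_Ico]; omega))
  obtain ⟨ε, hε⟩ : ∃ ε : ℝ, ε = η / (24 * τ) := ⟨_, rfl⟩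
  have hε0 : 0 < ε := by rw [hε]; positivity
  obtain ⟨C2, hC2, hrd⟩ := sum_inv_rd ε hε0
  -- size threshold
  obtain ⟨R0, hR01, hR0α, hR0β⟩ : ∃ R0 : ℝ, 1 ≤ R0 ∧ |(α : ℝ)| ≤ R0 ^ η ∧ |(β : ℝ)| ≤ R0 ^ η := by
    refine ⟨(max 1 (max |(α : ℝ)| |(β : ℝ)|)) ^ (1 / η), ?_, ?_, ?_⟩
    · exact Real.one_le_rpow (le_max_left _ _) (by positivity)
    · rw [← Real.rpow_mul (by positivity), one_div_mul_cancel hη0.ne', Real.rpow_one]
      exact (le_max_left _ _).trans (le_max_right _ _)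
    · rw [← Real.rpow_mul (by positivity), one_div_mul_cancel hη0.ne', Real.rpow_one]
      exact (le_max_right _ _).trans (le_max_right _ _)
  refine ⟨R0 ^ (2 * τ) + K * C1 * C2 ^ 2, η / 12, by positivity, by positivity, by linarith, ?_⟩
  intro R Z hR hZR S hS
  have hR0pos : 0 < R := by linarith
  have hδ1 : (1 : ℝ) ≤ R ^ (1 - η / 12) := Real.one_le_rpow hR (by linarith)
  have hKC : 0 ≤ (K : ℝ) * C1 * C2 ^ 2 := by positivity
  by_cases hsmall : R < R0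
  · -- trivial bound
    have h1 : S.card ≤ Z * Z := by
      calc S.card ≤ ((Icc 1 Z) ×ˢ (Icc 1 Z)).card := by
            apply Finset.card_le_card
            intro w hw
            obtain ⟨h1, h2, h3, h4, _⟩ := hS w hw
            rw [Finset.mem_product, Finset.mem_Icc, Finset.mem_Icc]
            exact ⟨⟨h1, h2⟩, ⟨h3, h4⟩⟩
        _ = Z * Z := by rw [Finset.card_product, Nat.card_Icc]; simp
    have h2 : (S.card : ℝ) ≤ (Z : ℝ) * Z := by exact_mod_cast h1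
    have h3 : (Z : ℝ) ≤ R0 ^ τ := hZR.trans (Real.rpow_le_rpow hR0pos.le hsmall.le hτ.le)
    have h4 : (Z : ℝ) * Z ≤ R0 ^ (2 * τ) := by
      calc (Z : ℝ) * Z ≤ R0 ^ τ * R0 ^ τ := mul_le_mul h3 h3 (by positivity) (by positivity)
        _ = R0 ^ (2 * τ) := by rw [← Real.rpow_add (by linarith)]; ring_nf
    have h5 : 0 ≤ R0 ^ (2 * τ) := by positivity
    calc (S.card : ℝ) ≤ R0 ^ (2 * τ) * 1 + K * C1 * C2 ^ 2 * 0 := by linarith
      _ ≤ R0 ^ (2 * τ) * R ^ (1 - η / 12) + K * C1 * C2 ^ 2 * R ^ (1 - η / 12) := by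
          gcongr
          positivity
      _ = (R0 ^ (2 * τ) + K * C1 * C2 ^ 2) * R ^ (1 - η / 12) := by ring
  · push Not at hsmall
    -- choose the decompositions
    have hdec : ∀ w : ℕ × ℕ, ∃ t : ℕ × ℕ × ℕ, w ∈ S → (1 ≤ t.1 ∧ t.1 < K ∧ t.2.1 ≠ 0 ∧ t.2.2 ≠ 0 ∧
        w.1 = t.2.1 * t.2.2 ^ t.1 ∧ rd t.2.1 * t.2.2 ≤ rd w.1 ∧
        (rd w.1 : ℝ) ≤ (t.2.2 : ℝ) ^ (K - 1) * (w.1 : ℝ) ^ (1 / (K : ℝ))) := by
      intro w
      by_cases hw : w ∈ S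
      · obtain ⟨h1, _⟩ := hS w hw
        obtain ⟨j, u, x, h⟩ := exists_long w.1 K (by omega) hK2
        exact ⟨(j, u, x), fun _ => h⟩
      · exact ⟨(0, 0, 0), fun h => absurd h hw⟩
    choose t ht using hdec
    set g : ℕ × ℕ → ℕ × ℕ × ℕ := fun w => ((t w).1, (t w).2.1, w.2) with hg
    set I : Finset (ℕ × ℕ × ℕ) := (Ico 1 K) ×ˢ ((Icc 1 Z) ×ˢ (Icc 1 Z)) with hI
    have hxlow : ∀ w ∈ S, R ^ η ≤ ((t w).2.2 : ℝ) := by
      intro w hw
      obtain ⟨_, _, _, _, _, _, h7⟩ := ht w hw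
      obtain ⟨h1, h2, _, _, _, h6, _⟩ := hS w hw
      have hKpos : (0 : ℝ) < (K : ℝ) := by linarith
      have h8 : (w.1 : ℝ) ^ (1 / (K : ℝ)) ≤ R ^ (1 / 8 : ℝ) := by
        have h9 : (w.1 : ℝ) ≤ R ^ τ := le_trans (by exact_mod_cast h2) hZR
        calc (w.1 : ℝ) ^ (1 / (K : ℝ)) ≤ (R ^ τ) ^ (1 / (K : ℝ)) :=
              Real.rpow_le_rpow (by positivity) h9 (by positivity)
          _ = R ^ (τ / K) := by rw [← Real.rpow_mul hR0pos.le]; ring_nf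
          _ ≤ R ^ (1 / 8 : ℝ) := by
              apply Real.rpow_le_rpow_of_exponent_le hR
              rw [div_le_div_iff₀ hKpos (by norm_num)]
              linarith
      have h9 : R ^ (1 / 4 : ℝ) ≤ ((t w).2.2 : ℝ) ^ (K - 1) := by
        have h10 : R ^ (3 / 8 : ℝ) ≤ ((t w).2.2 : ℝ) ^ (K - 1) * R ^ (1 / 8 : ℝ) :=
          h6.trans (h7.trans (mul_le_mul_of_nonneg_left h8 (by positivity)))
        have h11 : R ^ (3 / 8 : ℝ) = R ^ (1 / 4 : ℝ) * R ^ (1 / 8 : ℝ) := by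
          rw [← Real.rpow_add hR0pos]; norm_num
        rw [h11] at h10
        exact le_of_mul_le_mul_right h10 (by positivity)
      calc R ^ η = (R ^ (1 / 4 : ℝ)) ^ (1 / ((K : ℝ) - 1)) := by
            rw [← Real.rpow_mul hR0pos.le, hη]
            congr 1
            field_simp
        _ ≤ (((t w).2.2 : ℝ) ^ (K - 1)) ^ (1 / ((K : ℝ) - 1)) :=
            Real.rpow_le_rpow (by positivity) h9 (by positivity)
        _ = ((t w).2.2 : ℝ) := by
            rw [← Real.rpow_natCast, ← Real.rpow_mul (by positivity), hK1,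
              mul_one_div_cancel hK1pos.ne', Real.rpow_one]
    have hmaps : ∀ w ∈ S, g w ∈ I := by
      intro w hw
      obtain ⟨h1, h2, h3, h4, h5, _⟩ := ht w hw
      obtain ⟨k1, k2, k3, k4, _⟩ := hS w hw
      simp only [hg, hI, Finset.mem_product, Finset.mem_Ico, Finset.mem_Icc]
      refine ⟨⟨h1, h2⟩, ⟨by omega, ?_⟩, k3, k4⟩
      refine le_trans (Nat.le_of_dvd (by omega) ?_) k2
      rw [h5]
      exact dvd_mul_right _ _
    have hfiber : ∀ i ∈ I, ((S.filter (fun w => g w = i)).card : ℝ) ≤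
        C1 * R ^ (1 - η / 6) * (((rd i.2.1 : ℝ))⁻¹ * ((rd i.2.2 : ℝ))⁻¹) := by
      rintro ⟨j, u, b⟩ hi
      simp only [hI, Finset.mem_product, Finset.mem_Ico, Finset.mem_Icc] at hi
      obtain ⟨⟨hj1, hjK⟩, ⟨hu1, huZ⟩, hb1, hbZ⟩ := hi
      set F := S.filter (fun w => g w = (j, u, b)) with hF
      rcases F.eq_empty_or_nonempty with hE | ⟨w0, hw0⟩
      · rw [hE, Finset.card_empty]
        push_cast
        positivity
      · have hFmem : ∀ w ∈ F, w ∈ S ∧ (t w).1 = j ∧ (t w).2.1 = u ∧ w.2 = b := by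
          intro w hw
          rw [hF, Finset.mem_filter] at hw
          have h1 := hw.2
          simp only [hg, Prod.mk.injEq] at h1
          exact ⟨hw.1, h1.1, h1.2.1, h1.2.2⟩
        set Q : ℝ := R / ((rd u : ℝ) * (rd b : ℝ)) with hQ
        have hru : (1 : ℝ) ≤ (rd u : ℝ) := one_le_rd u
        have hrb : (1 : ℝ) ≤ (rd b : ℝ) := one_le_rd b
        have hrub : (0 : ℝ) < (rd u : ℝ) * (rd b : ℝ) := by positivity
        have hxQ : ∀ w ∈ F, ((t w).2.2 : ℝ) ≤ Q := by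
          intro w hw
          obtain ⟨hwS, h1, h2, h3⟩ := hFmem w hw
          obtain ⟨_, _, _, _, _, h6, _⟩ := ht w hwS
          obtain ⟨_, _, _, _, k5, _⟩ := hS w hwS
          rw [hQ, le_div_iff₀ hrub]
          rw [h2] at h6
          rw [h3] at k5
          have h7 : (rd u : ℝ) * ((t w).2.2 : ℝ) ≤ (rd w.1 : ℝ) := by exact_mod_cast h6
          calc ((t w).2.2 : ℝ) * ((rd u : ℝ) * (rd b : ℝ))
              = ((rd u : ℝ) * ((t w).2.2 : ℝ)) * (rd b : ℝ) := by ring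
            _ ≤ (rd w.1 : ℝ) * (rd b : ℝ) := by gcongr
            _ ≤ R := k5
        set M : ℕ := ⌊Q⌋₊ with hM
        have hxM : ∀ w ∈ F, (t w).2.2 ≤ M := fun w hw => Nat.le_floor (hxQ w hw)
        have hMη : R ^ η ≤ (M : ℝ) := by
          refine (hxlow w0 (hFmem w0 hw0).1).trans ?_
          exact_mod_cast hxM w0 hw0
        have hM1R : (1 : ℝ) ≤ (M : ℝ) := (Real.one_le_rpow hR hη0.le).trans hMη
        have hM1 : 1 ≤ M := by exact_mod_cast hM1R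
        have hQ0 : 0 ≤ Q := by positivity
        have hMQ : (M : ℝ) ≤ Q := Nat.floor_le hQ0
        have hRM : R ^ τ ≤ (M : ℝ) ^ (τ / η) := by
          calc R ^ τ = (R ^ η) ^ (τ / η) := by
                rw [← Real.rpow_mul hR0pos.le, mul_div_cancel₀ _ hη0.ne']
            _ ≤ (M : ℝ) ^ (τ / η) := Real.rpow_le_rpow (by positivity) hMη (by positivity)
        have hαM : |(α : ℝ)| ≤ (M : ℝ) :=
          hR0α.trans ((Real.rpow_le_rpow (by positivity) hsmall hη0.le).trans hMη)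
        have hβM : |(β : ℝ)| ≤ (M : ℝ) :=
          hR0β.trans ((Real.rpow_le_rpow (by positivity) hsmall hη0.le).trans hMη)
        have hcoef : ∀ (γ : ℤ) (v : ℕ), |(γ : ℝ)| ≤ (M : ℝ) → v ≤ Z →
            |((γ * (v : ℤ) : ℤ) : ℝ)| ≤ (M : ℝ) ^ c := by
          intro γ v hγ hv
          push_cast
          rw [abs_mul, Nat.abs_cast, hc, Real.rpow_add (by positivity), Real.rpow_one]
          apply mul_le_mul hγ _ (by positivity) (by positivity)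
          refine le_trans ?_ (hZR.trans hRM)
          exact_mod_cast hv
        have hcard : (F.card : ℝ) ≤ Cf j * (M : ℝ) ^ (5 / 6 : ℝ) := by
          have h1 : F.card = (F.image (fun w => (t w).2.2)).card := by
            rw [Finset.card_image_of_injOn]
            intro w hw w' hw' hww'
            simp only at hww'
            obtain ⟨hwS, h1, h2, h3⟩ := hFmem w hw
            obtain ⟨hwS', h1', h2', h3'⟩ := hFmem w' hw'
            obtain ⟨_, _, _, _, e1, _⟩ := ht w hwS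
            obtain ⟨_, _, _, _, e2, _⟩ := ht w' hwS'
            apply Prod.ext
            · rw [e1, e2, h1, h1', h2, h2', hww']
            · rw [h3, h3']
          rw [h1]
          apply hCf j hj1 M (α * (u : ℤ)) (β * (b : ℤ)) hM1
          · exact mul_ne_zero hα (by exact_mod_cast (by omega : u ≠ 0))
          · exact mul_ne_zero hβ (by exact_mod_cast (by omega : b ≠ 0))
          · exact hcoef α u hαM huZ
          · exact hcoef β b hβM hbZ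
          · intro x hx
            rw [Finset.mem_image] at hx
            obtain ⟨w, hw, rfl⟩ := hx
            refine ⟨hxM w hw, ?_⟩
            obtain ⟨hwS, h1, h2, h3⟩ := hFmem w hw
            obtain ⟨_, _, _, _, e1, _⟩ := ht w hwS
            obtain ⟨_, _, _, _, _, _, y, hy⟩ := hS w hwS
            refine ⟨y, ?_⟩
            rw [← hy, h3]
            conv_rhs => rw [e1]
            rw [h1, h2]
            push_cast
            ring
        -- final estimate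
        have hM56 : (M : ℝ) ^ (5 / 6 : ℝ) ≤ Q * R ^ (-(η / 6)) := by
          have h1 : (M : ℝ) ^ (5 / 6 : ℝ) = (M : ℝ) * (M : ℝ) ^ (-(1 / 6) : ℝ) := by
            nth_rewrite 2 [← Real.rpow_one (M : ℝ)]
            rw [← Real.rpow_add (by positivity)]
            norm_num
          have h2 : (M : ℝ) ^ (-(1 / 6) : ℝ) ≤ R ^ (-(η / 6)) := by
            calc (M : ℝ) ^ (-(1 / 6) : ℝ) ≤ (R ^ η) ^ (-(1 / 6) : ℝ) :=
                  Real.rpow_le_rpow_of_nonpos (by positivity) hMη (by norm_num)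
              _ = R ^ (-(η / 6)) := by rw [← Real.rpow_mul hR0pos.le]; ring_nf
          rw [h1]
          exact mul_le_mul hMQ h2 (by positivity) hQ0
        calc (F.card : ℝ) ≤ Cf j * (M : ℝ) ^ (5 / 6 : ℝ) := hcard
          _ ≤ C1 * (Q * R ^ (-(η / 6))) := by
              apply mul_le_mul (hC1le j (by rw [Finset.mem_Ico]; exact ⟨hj1, hjK⟩)) hM56
                (by positivity) hC1pos.le
          _ = C1 * R ^ (1 - η / 6) * (((rd u : ℝ))⁻¹ * ((rd b : ℝ))⁻¹) := by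
              rw [hQ, sub_eq_add_neg, Real.rpow_add hR0pos, Real.rpow_one]
              field_simp
    have hcardS : (S.card : ℝ) = ∑ i ∈ I, ((S.filter (fun w => g w = i)).card : ℝ) := by
      have h1 := Finset.card_eq_sum_card_fiberwise hmaps
      rw [h1]
      push_cast
      rfl
    have hsumI : ∑ i ∈ I, C1 * R ^ (1 - η / 6) * (((rd i.2.1 : ℝ))⁻¹ * ((rd i.2.2 : ℝ))⁻¹) ≤
        C1 * R ^ (1 - η / 6) * (K * ((C2 * (Z : ℝ) ^ ε) * (C2 * (Z : ℝ) ^ ε))) := by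
      rw [← Finset.mul_sum]
      apply mul_le_mul_of_nonneg_left _ (by positivity)
      rw [hI, Finset.sum_product]
      dsimp only
      rw [Finset.sum_const, nsmul_eq_mul, Nat.card_Ico, Finset.sum_product]
      have h1 : ∑ x ∈ Icc 1 Z, ∑ y ∈ Icc 1 Z, ((rd x : ℝ))⁻¹ * ((rd y : ℝ))⁻¹ =
          (∑ x ∈ Icc 1 Z, ((rd x : ℝ))⁻¹) * (∑ y ∈ Icc 1 Z, ((rd y : ℝ))⁻¹) := by
        rw [Finset.sum_mul_sum]
      rw [h1]
      rcases Nat.eq_zero_or_pos Z with hZ0 | hZ0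
      · subst hZ0
        simp only [Finset.Icc_eq_empty (by omega : ¬ 1 ≤ 0), Finset.sum_empty, mul_zero]
        positivity
      · have h2 := hrd Z hZ0
        have h3 := sum_inv_rd_pos Z
        apply mul_le_mul
        · rw [hK1]; linarith
        · exact mul_le_mul h2 h2 h3 (by positivity)
        · positivity
        · positivity
    have hZε : (Z : ℝ) ^ ε ≤ R ^ (η / 24) := by
      calc (Z : ℝ) ^ ε ≤ (R ^ τ) ^ ε := Real.rpow_le_rpow (by positivity) hZR hε0.le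
        _ = R ^ (η / 24) := by
            rw [← Real.rpow_mul hR0pos.le, hε]
            congr 1
            field_simp
    have hfinal : C1 * R ^ (1 - η / 6) * (K * ((C2 * (Z : ℝ) ^ ε) * (C2 * (Z : ℝ) ^ ε))) ≤
        K * C1 * C2 ^ 2 * R ^ (1 - η / 12) := by
      have h1 : (Z : ℝ) ^ ε * (Z : ℝ) ^ ε ≤ R ^ (η / 24) * R ^ (η / 24) :=
        mul_le_mul hZε hZε (by positivity) (by positivity)
      have h2 : R ^ (1 - η / 6) * (R ^ (η / 24) * R ^ (η / 24)) = R ^ (1 - η / 12) := by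
        rw [← Real.rpow_add hR0pos, ← Real.rpow_add hR0pos]
        congr 1
        ring
      calc C1 * R ^ (1 - η / 6) * (K * ((C2 * (Z : ℝ) ^ ε) * (C2 * (Z : ℝ) ^ ε)))
          = K * C1 * C2 ^ 2 * (R ^ (1 - η / 6) * ((Z : ℝ) ^ ε * (Z : ℝ) ^ ε)) := by ring
        _ ≤ K * C1 * C2 ^ 2 * (R ^ (1 - η / 6) * (R ^ (η / 24) * R ^ (η / 24))) := by gcongr
        _ = K * C1 * C2 ^ 2 * R ^ (1 - η / 12) := by rw [h2]
    calc (S.card : ℝ) = ∑ i ∈ I, ((S.filter (fun w => g w = i)).card : ℝ) := hcardS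
      _ ≤ ∑ i ∈ I, C1 * R ^ (1 - η / 6) * (((rd i.2.1 : ℝ))⁻¹ * ((rd i.2.2 : ℝ))⁻¹) :=
          Finset.sum_le_sum hfiber
      _ ≤ K * C1 * C2 ^ 2 * R ^ (1 - η / 12) := hsumI.trans hfinal
      _ ≤ (R0 ^ (2 * τ) + K * C1 * C2 ^ 2) * R ^ (1 - η / 12) := by
          apply mul_le_mul_of_nonneg_right _ (by positivity)
          have : 0 ≤ R0 ^ (2 * τ) := by positivity
          linarith

/-- Pairs with small radicals for which a fixed linear form is a square. -/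
theorem pair_count (α β : ℤ) (hα : α ≠ 0) (hβ : β ≠ 0) (τ : ℝ) (hτ : 0 < τ) :
    ∃ C δ : ℝ, 0 < C ∧ 0 < δ ∧ δ ≤ 1 / 8 ∧ ∀ (R : ℝ) (Z : ℕ), 1 ≤ R → (Z : ℝ) ≤ R ^ τ →
      ∀ S : Finset (ℕ × ℕ), (∀ w ∈ S, 1 ≤ w.1 ∧ w.1 ≤ Z ∧ 1 ≤ w.2 ∧ w.2 ≤ Z ∧
        (rd w.1 : ℝ) * rd w.2 ≤ R ∧ ∃ y : ℤ, α * (w.1 : ℤ) + β * (w.2 : ℤ) = y ^ 2) →
      (S.card : ℝ) ≤ C * R ^ (1 - δ) := by
  classical
  obtain ⟨Ca, δa, hCa, hδa, hδa', ha⟩ := half_count α β hα hβ τ hτ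
  obtain ⟨Cb, δb, hCb, hδb, hδb', hb⟩ := half_count β α hβ hα τ hτ
  obtain ⟨ε, hε⟩ : ∃ ε : ℝ, ε = 1 / (16 * τ) := ⟨_, rfl⟩
  have hε0 : 0 < ε := by rw [hε]; positivity
  obtain ⟨C2, hC2, hrd⟩ := sum_inv_rd ε hε0
  refine ⟨Ca + Cb + C2 ^ 2, min δa δb, by positivity, lt_min hδa hδb,
    (min_le_left _ _).trans hδa', ?_⟩
  intro R Z hR hZR S hS
  have hRpos : 0 < R := by linarith
  set S1 := S.filter (fun w => (rd w.1 : ℝ) * rd w.2 ≤ R ^ (3 / 4 : ℝ)) with hS1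
  set S2 := S.filter (fun w => R ^ (3 / 8 : ℝ) ≤ (rd w.1 : ℝ)) with hS2
  set S3 := S.filter (fun w => R ^ (3 / 8 : ℝ) ≤ (rd w.2 : ℝ)) with hS3
  have hcover : S ⊆ S1 ∪ (S2 ∪ S3) := by
    intro w hw
    by_cases h1 : (rd w.1 : ℝ) * rd w.2 ≤ R ^ (3 / 4 : ℝ)
    · exact Finset.mem_union_left _ (Finset.mem_filter.mpr ⟨hw, h1⟩)
    · apply Finset.mem_union_right
      by_cases h2 : R ^ (3 / 8 : ℝ) ≤ (rd w.1 : ℝ)
      · exact Finset.mem_union_left _ (Finset.mem_filter.mpr ⟨hw, h2⟩)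
      · apply Finset.mem_union_right
        rw [hS3, Finset.mem_filter]
        refine ⟨hw, ?_⟩
        by_contra h3
        push Not at h1 h2 h3
        have h4 : (rd w.1 : ℝ) * rd w.2 ≤ R ^ (3 / 8 : ℝ) * R ^ (3 / 8 : ℝ) :=
          mul_le_mul h2.le h3.le (by positivity) (by positivity)
        rw [← Real.rpow_add hRpos] at h4
        norm_num at h4
        linarith
  have hcard : (S.card : ℝ) ≤ (S1.card : ℝ) + ((S2.card : ℝ) + (S3.card : ℝ)) := by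
    have h1 := (Finset.card_le_card hcover).trans ((Finset.card_union_le _ _).trans
      (Nat.add_le_add_left (Finset.card_union_le _ _) _))
    exact_mod_cast h1
  have hmono : ∀ δ' : ℝ, min δa δb ≤ δ' → R ^ (1 - δ') ≤ R ^ (1 - min δa δb) := by
    intro δ' h
    apply Real.rpow_le_rpow_of_exponent_le hR
    linarith
  have h2 : (S2.card : ℝ) ≤ Ca * R ^ (1 - min δa δb) := by
    refine (ha R Z hR hZR S2 ?_).trans ?_
    · intro w hw
      rw [hS2, Finset.mem_filter] at hw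
      obtain ⟨k1, k2, k3, k4, k5, k6⟩ := hS w hw.1
      exact ⟨k1, k2, k3, k4, k5, hw.2, k6⟩
    · exact mul_le_mul_of_nonneg_left (hmono _ (min_le_left _ _)) hCa.le
  have h3 : (S3.card : ℝ) ≤ Cb * R ^ (1 - min δa δb) := by
    have h4 : S3.card = (S3.map ⟨Prod.swap, Prod.swap_injective⟩).card := (Finset.card_map _).symm
    rw [h4]
    refine (hb R Z hR hZR _ ?_).trans ?_
    · intro w hw
      rw [Finset.mem_map] at hw
      obtain ⟨v, hv, rfl⟩ := hw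
      rw [hS3, Finset.mem_filter] at hv
      obtain ⟨k1, k2, k3, k4, k5, y, hy⟩ := hS v hv.1
      simp only [Function.Embedding.coeFn_mk, Prod.fst_swap, Prod.snd_swap]
      refine ⟨k3, k4, k1, k2, by rw [mul_comm]; exact k5, hv.2, y, ?_⟩
      rw [← hy]; ring
    · exact mul_le_mul_of_nonneg_left (hmono _ (min_le_right _ _)) hCb.le
  have h1 : (S1.card : ℝ) ≤ C2 ^ 2 * R ^ (1 - min δa δb) := by
    have h5 : (S1.card : ℝ) ≤ ∑ w ∈ S1, R ^ (3 / 4 : ℝ) * (((rd w.1 : ℝ))⁻¹ * ((rd w.2 : ℝ))⁻¹) := by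
      have h6 : ∀ w ∈ S1, (1 : ℝ) ≤ R ^ (3 / 4 : ℝ) * (((rd w.1 : ℝ))⁻¹ * ((rd w.2 : ℝ))⁻¹) := by
        intro w hw
        rw [hS1, Finset.mem_filter] at hw
        have h7 := one_le_rd w.1
        have h8 := one_le_rd w.2
        rw [← mul_inv, ← div_eq_mul_inv, le_div_iff₀ (by positivity), one_mul]
        exact hw.2
      have h7 := Finset.card_nsmul_le_sum _ _ _ h6
      rw [nsmul_eq_mul, mul_one] at h7
      exact h7
    have h6 : ∑ w ∈ S1, R ^ (3 / 4 : ℝ) * (((rd w.1 : ℝ))⁻¹ * ((rd w.2 : ℝ))⁻¹) ≤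
        ∑ w ∈ (Icc 1 Z) ×ˢ (Icc 1 Z), R ^ (3 / 4 : ℝ) * (((rd w.1 : ℝ))⁻¹ * ((rd w.2 : ℝ))⁻¹) := by
      apply Finset.sum_le_sum_of_subset_of_nonneg
      · intro w hw
        rw [hS1, Finset.mem_filter] at hw
        obtain ⟨k1, k2, k3, k4, _⟩ := hS w hw.1
        rw [Finset.mem_product, Finset.mem_Icc, Finset.mem_Icc]
        exact ⟨⟨k1, k2⟩, ⟨k3, k4⟩⟩
      · intro _ _ _
        positivity
    have h7 : ∑ w ∈ (Icc 1 Z) ×ˢ (Icc 1 Z), R ^ (3 / 4 : ℝ) * (((rd w.1 : ℝ))⁻¹ * ((rd w.2 : ℝ))⁻¹) =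
        R ^ (3 / 4 : ℝ) * ((∑ x ∈ Icc 1 Z, ((rd x : ℝ))⁻¹) * (∑ y ∈ Icc 1 Z, ((rd y : ℝ))⁻¹)) := by
      rw [Finset.sum_mul_sum, ← Finset.mul_sum, Finset.sum_product]
    have h8 : (∑ x ∈ Icc 1 Z, ((rd x : ℝ))⁻¹) ≤ C2 * R ^ (1 / 16 : ℝ) := by
      rcases Nat.eq_zero_or_pos Z with hZ0 | hZ0
      · subst hZ0
        simp only [Finset.Icc_eq_empty (by omega : ¬ 1 ≤ 0), Finset.sum_empty]
        positivity
      · refine (hrd Z hZ0).trans ?_
        apply mul_le_mul_of_nonneg_left _ (by positivity)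
        calc (Z : ℝ) ^ ε ≤ (R ^ τ) ^ ε := Real.rpow_le_rpow (by positivity) hZR hε0.le
          _ = R ^ (1 / 16 : ℝ) := by
              rw [← Real.rpow_mul hRpos.le, hε]
              congr 1
              field_simp
    have h9 := sum_inv_rd_pos Z
    calc (S1.card : ℝ) ≤ R ^ (3 / 4 : ℝ) * ((∑ x ∈ Icc 1 Z, ((rd x : ℝ))⁻¹) *
          (∑ y ∈ Icc 1 Z, ((rd y : ℝ))⁻¹)) := h5.trans (h6.trans h7.le)
      _ ≤ R ^ (3 / 4 : ℝ) * ((C2 * R ^ (1 / 16 : ℝ)) * (C2 * R ^ (1 / 16 : ℝ))) := by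
          apply mul_le_mul_of_nonneg_left _ (by positivity)
          exact mul_le_mul h8 h8 h9 (by positivity)
      _ = C2 ^ 2 * (R ^ (3 / 4 : ℝ) * (R ^ (1 / 16 : ℝ) * R ^ (1 / 16 : ℝ))) := by ring
      _ = C2 ^ 2 * R ^ (7 / 8 : ℝ) := by
          rw [← Real.rpow_add hRpos, ← Real.rpow_add hRpos]; norm_num
      _ ≤ C2 ^ 2 * R ^ (1 - min δa δb) := by
          apply mul_le_mul_of_nonneg_left _ (by positivity)
          apply Real.rpow_le_rpow_of_exponent_le hR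
          have := min_le_left δa δb
          linarith
  calc (S.card : ℝ) ≤ (S1.card : ℝ) + ((S2.card : ℝ) + (S3.card : ℝ)) := hcard
    _ ≤ C2 ^ 2 * R ^ (1 - min δa δb) + (Ca * R ^ (1 - min δa δb) + Cb * R ^ (1 - min δa δb)) := by
        linarith
    _ = (Ca + Cb + C2 ^ 2) * R ^ (1 - min δa δb) := by ring

end Pool.Agent.Lib.MP_d8bd92_nt
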