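import Pool.Agent.Lib.MP_d8bd92_nt.TwChar

set_option autoImplicit false

/-!
The square sieve for `A x^j + B`.
-/

namespace Pool.Agent.Lib.MP_d8bd92_nt

open Finset

/-- sums over full periods, two coprime moduli -/
theorem sum_range_mul_coprime (p q : ℕ) (hp : 0 < p) (hq : 0 < q) (hpq : Nat.Coprime p q)
    (g h : ℕ → ℤ) (hg : ∀ x, g (x % p) = g x) (hh : ∀ x, h (x % q) = h x) :
    ∑ x ∈ range (p * q), g x * h x = (∑ x ∈ range p, g x) * (∑ x ∈ range q, h x) := by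
  classical
  rw [Finset.sum_mul_sum, ← Finset.sum_product']
  refine Finset.sum_nbij' (fun x => (x % p, x % q))
    (fun ab => (Nat.chineseRemainder hpq ab.1 ab.2 : ℕ)) ?_ ?_ ?_ ?_ ?_
  · intro x _
    simp only [Finset.mem_product, Finset.mem_range]
    exact ⟨Nat.mod_lt _ hp, Nat.mod_lt _ hq⟩
  · intro ab _
    simp only [Finset.mem_range]
    exact Nat.chineseRemainder_lt_mul hpq _ _ hp.ne' hq.ne'
  · intro x hx
    simp only [Finset.mem_range] at hx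
    have h1 := (Nat.chineseRemainder hpq (x % p) (x % q)).2
    have h2 : (Nat.chineseRemainder hpq (x % p) (x % q) : ℕ) ≡ x [MOD p * q] := by
      rw [← Nat.modEq_and_modEq_iff_modEq_mul hpq]
      exact ⟨h1.1.trans (Nat.mod_modEq _ _), h1.2.trans (Nat.mod_modEq _ _)⟩
    have h3 := Nat.chineseRemainder_lt_mul hpq (x % p) (x % q) hp.ne' hq.ne'
    exact Nat.ModEq.eq_of_lt_of_lt h2 h3 hx
  · intro ab hab
    simp only [Finset.mem_product, Finset.mem_range] at hab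
    have h1 := (Nat.chineseRemainder hpq ab.1 ab.2).2
    ext
    · exact (Nat.mod_eq_of_modEq h1.1 hab.1)
    · exact (Nat.mod_eq_of_modEq h1.2 hab.2)
  · intro x _
    simp only [hg, hh]

theorem sum_range_periodic_mul (Q k : ℕ) (h : ℕ → ℤ) (hh : ∀ x, h (x % Q) = h x) :
    ∑ x ∈ range (Q * k), h x = k * ∑ x ∈ range Q, h x := by
  induction k with
  | zero => simp
  | succ k ih =>
    rw [Nat.mul_succ, Finset.sum_range_add, ih]
    have h1 : ∑ x ∈ range Q, h (Q * k + x) = ∑ x ∈ range Q, h x := by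
      apply Finset.sum_congr rfl
      intro x _
      rw [← hh (Q * k + x), Nat.mul_add_mod, hh]
    rw [h1]
    push_cast
    ring

/-- incomplete sums of a periodic function bounded by one -/
theorem abs_sum_range_periodic_le (Q M : ℕ) (hQ : 0 < Q) (h : ℕ → ℤ)
    (hh : ∀ x, h (x % Q) = h x) (h1 : ∀ x, |h x| ≤ 1) :
    |∑ x ∈ range M, h x| ≤ (M / Q : ℕ) * |∑ x ∈ range Q, h x| + Q := by
  have e : M = Q * (M / Q) + M % Q := (Nat.div_add_mod M Q).symm
  have e1 : ∑ x ∈ range M, h x = ∑ x ∈ range (Q * (M / Q)), h x +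
      ∑ x ∈ range (M % Q), h (Q * (M / Q) + x) := by
    rw [← Finset.sum_range_add, ← e]
  rw [e1, sum_range_periodic_mul Q _ h hh]
  refine (abs_add_le _ _).trans ?_
  have h2 : |∑ x ∈ range (M % Q), h (Q * (M / Q) + x)| ≤ Q := by
    refine (Finset.abs_sum_le_sum_abs _ _).trans ?_
    refine (Finset.sum_le_card_nsmul _ _ 1 (fun x _ => h1 _)).trans ?_
    rw [Finset.card_range, nsmul_eq_mul, mul_one]
    exact_mod_cast (Nat.mod_lt M hQ).le
  rw [abs_mul, Nat.abs_cast]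
  linarith

/-- the local factor -/
noncomputable def js (j : ℕ) (A B : ℤ) (p x : ℕ) : ℤ := jacobiSym (A * (x : ℤ) ^ j + B) p

theorem js_mod (j : ℕ) (A B : ℤ) (p x : ℕ) : js j A B p (x % p) = js j A B p x := by
  unfold js
  rw [jacobiSym.mod_left (A * ((x % p : ℕ) : ℤ) ^ j + B), jacobiSym.mod_left (A * (x : ℤ) ^ j + B)]
  congr 1
  have h1 : (((x % p : ℕ) : ℤ)) ≡ (x : ℤ) [ZMOD p] := by
    push_cast
    exact Int.mod_modEq _ _
  exact ((h1.pow j).mul_left A).add_right B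

theorem abs_js_le (j : ℕ) (A B : ℤ) (p x : ℕ) : |js j A B p x| ≤ 1 := by
  unfold js
  rcases jacobiSym.trichotomy (A * (x : ℤ) ^ j + B) p with h | h | h <;> rw [h] <;> norm_num

theorem js_sum_sq_le (j : ℕ) (hj : 1 ≤ j) (A B : ℤ) (p : ℕ) (hp : p.Prime) (hp2 : p ≠ 2)
    (hA : ¬ (p : ℤ) ∣ A) (hB : ¬ (p : ℤ) ∣ B) :
    (∑ x ∈ range p, js j A B p x) ^ 2 ≤ 4 * (j : ℤ) ^ 2 * p := by
  classical
  have : Fact p.Prime := ⟨hp⟩
  have hA' : (A : ZMod p) ≠ 0 := by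
    rw [Ne, ZMod.intCast_zmod_eq_zero_iff_dvd]; exact hA
  have hB' : (B : ZMod p) ≠ 0 := by
    rw [Ne, ZMod.intCast_zmod_eq_zero_iff_dvd]; exact hB
  have h1 := cs_sq_le hp2 j hj (A : ZMod p) (B : ZMod p) hA' hB'
  have h2 : ∑ x ∈ range p, js j A B p x = cs p j (B : ZMod p) (A : ZMod p) := by
    unfold cs js
    refine Finset.sum_nbij' (fun x => (x : ZMod p)) (fun z => z.val) ?_ ?_ ?_ ?_ ?_
    · intro x _; exact Finset.mem_univ _
    · intro z _
      rw [Finset.mem_range]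
      exact ZMod.val_lt z
    · intro x hx
      rw [Finset.mem_range] at hx
      exact ZMod.val_cast_of_lt hx
    · intro z _
      exact ZMod.natCast_zmod_val z
    · intro x _
      rw [← jacobiSym.legendreSym.to_jacobiSym]
      unfold legendreSym
      push_cast
      rfl
  rw [h2]
  exact h1

/-- off-diagonal terms -/
theorem js_off_diag (j : ℕ) (hj : 1 ≤ j) (A B : ℤ) (M P p q : ℕ) (hp : p.Prime) (hq : q.Prime)
    (hpq : p ≠ q) (hp2 : p ≠ 2) (hq2 : q ≠ 2)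
    (hAp : ¬ (p : ℤ) ∣ A) (hBp : ¬ (p : ℤ) ∣ B) (hAq : ¬ (q : ℤ) ∣ A) (hBq : ¬ (q : ℤ) ∣ B)
    (hP : 0 < P) (hpP : p ≤ P) (hqP : q ≤ P) (hPp : P ≤ p * p) (hPq : P ≤ q * q) :
    ((∑ x ∈ range M, js j A B p x * js j A B q x : ℤ) : ℝ) ≤
      4 * (j : ℝ) ^ 2 * M / Real.sqrt P + (P : ℝ) ^ 2 := by
  have hcop : Nat.Coprime p q := (Nat.coprime_primes hp hq).mpr hpq
  have hp0 := hp.pos
  have hq0 := hq.pos
  have hper : ∀ x, js j A B p (x % (p * q)) * js j A B q (x % (p * q)) =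
      js j A B p x * js j A B q x := by
    intro x
    rw [← js_mod j A B p (x % (p * q)), ← js_mod j A B q (x % (p * q)),
      Nat.mod_mul_right_mod, Nat.mod_mul_left_mod, js_mod, js_mod]
  have h1 := abs_sum_range_periodic_le (p * q) M (Nat.mul_pos hp0 hq0)
    (fun x => js j A B p x * js j A B q x) hper (by
      intro x
      rw [abs_mul]
      have h2 := abs_js_le j A B p x
      have h3 := abs_js_le j A B q x
      have h4 := abs_nonneg (js j A B p x)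
      have h5 := abs_nonneg (js j A B q x)
      nlinarith)
  rw [sum_range_mul_coprime p q hp0 hq0 hcop _ _ (js_mod j A B p) (js_mod j A B q)] at h1
  have h2 := js_sum_sq_le j hj A B p hp hp2 hAp hBp
  have h3 := js_sum_sq_le j hj A B q hq hq2 hAq hBq
  set S := ∑ x ∈ range p, js j A B p x with hS
  set T := ∑ x ∈ range q, js j A B q x with hT
  have h2' : (S : ℝ) ^ 2 ≤ 4 * (j : ℝ) ^ 2 * p := by exact_mod_cast h2
  have h3' : (T : ℝ) ^ 2 ≤ 4 * (j : ℝ) ^ 2 * q := by exact_mod_cast h3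
  have hST : |((S * T : ℤ) : ℝ)| ≤ 4 * (j : ℝ) ^ 2 * Real.sqrt (p * q) := by
    apply abs_le_of_sq_le_sq
    · have h4 : ((S * T : ℤ) : ℝ) ^ 2 = (S : ℝ) ^ 2 * (T : ℝ) ^ 2 := by push_cast; ring
      rw [h4, mul_pow, Real.sq_sqrt (by positivity)]
      calc (S : ℝ) ^ 2 * (T : ℝ) ^ 2 ≤ (4 * (j : ℝ) ^ 2 * p) * (4 * (j : ℝ) ^ 2 * q) := by
            apply mul_le_mul h2' h3' (sq_nonneg _) (by positivity)
        _ = (4 * (j : ℝ) ^ 2) ^ 2 * (p * q) := by ring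
    · positivity
  have hpqR : (P : ℝ) ≤ (p : ℝ) * q := by
    have h4 : P * P ≤ (p * q) * (p * q) := by
      calc P * P ≤ (p * p) * (q * q) := Nat.mul_le_mul hPp hPq
        _ = (p * q) * (p * q) := by ring
    have h5 : P ≤ p * q := Nat.mul_self_le_mul_self_iff.mp h4
    exact_mod_cast h5
  have hPR : (0 : ℝ) < P := by exact_mod_cast hP
  have hpqpos : (0 : ℝ) < (p : ℝ) * q := by linarith
  obtain ⟨k, hk⟩ : ∃ k : ℕ, k = M / (p * q) := ⟨_, rfl⟩
  have hkR : (k : ℝ) ≤ (M : ℝ) / ((p : ℝ) * q) := by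
    have h6 := Nat.cast_div_le (m := M) (n := p * q) (α := ℝ)
    rw [← hk] at h6
    push_cast at h6
    exact h6
  rw [← hk] at h1
  calc ((∑ x ∈ range M, js j A B p x * js j A B q x : ℤ) : ℝ)
      ≤ ((|∑ x ∈ range M, js j A B p x * js j A B q x| : ℤ) : ℝ) := by
        exact_mod_cast le_abs_self _
    _ ≤ (((k : ℤ) * |S * T| + ((p * q : ℕ) : ℤ) : ℤ) : ℝ) := by exact_mod_cast h1
    _ = (k : ℝ) * |((S * T : ℤ) : ℝ)| + (p : ℝ) * q := by push_cast; ring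
    _ ≤ (M : ℝ) / ((p : ℝ) * q) * (4 * (j : ℝ) ^ 2 * Real.sqrt (p * q)) + (P : ℝ) * P := by
        apply add_le_add
        · exact mul_le_mul hkR hST (abs_nonneg _) (by positivity)
        · apply mul_le_mul _ _ (by positivity) (by positivity)
          · exact_mod_cast hpP
          · exact_mod_cast hqP
    _ ≤ 4 * (j : ℝ) ^ 2 * M / Real.sqrt P + (P : ℝ) ^ 2 := by
        have h7 : (M : ℝ) / ((p : ℝ) * q) * (4 * (j : ℝ) ^ 2 * Real.sqrt (p * q)) =
            4 * (j : ℝ) ^ 2 * M / Real.sqrt (p * q) := by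
          have h8 : Real.sqrt ((p : ℝ) * q) ≠ 0 := (Real.sqrt_pos.mpr hpqpos).ne'
          have h9 : (p : ℝ) * q = Real.sqrt ((p : ℝ) * q) * Real.sqrt ((p : ℝ) * q) :=
            (Real.mul_self_sqrt hpqpos.le).symm
          rw [div_mul_eq_mul_div, div_eq_div_iff (by positivity) h8]
          nth_rewrite 3 [h9]
          ring
        rw [h7, ← sq]
        gcongr
        
/-- the square sieve -/
theorem square_sieve (j : ℕ) (hj : 1 ≤ j) (A B : ℤ) (M P : ℕ) (hP : 0 < P)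
    (Pr : Finset ℕ) (hPr : ∀ p ∈ Pr, p.Prime ∧ p ≠ 2 ∧ ¬ (p : ℤ) ∣ A ∧ ¬ (p : ℤ) ∣ B ∧
      p ≤ P ∧ P ≤ p * p)
    (S : Finset ℕ) (hS : ∀ x ∈ S, x < M ∧ ∃ y : ℤ, A * (x : ℤ) ^ j + B = y ^ 2 ∧
      2 * (Pr.filter (fun p : ℕ => (p : ℤ) ∣ y)).card ≤ Pr.card) :
    (S.card : ℝ) * (Pr.card : ℝ) ^ 2 ≤
      4 * ((Pr.card : ℝ) * M + (Pr.card : ℝ) ^ 2 * (4 * (j : ℝ) ^ 2 * M / Real.sqrt P + (P : ℝ) ^ 2)) := by
  classical
  -- lower bound for members of S
  have hlow : ∀ x ∈ S, ((Pr.card : ℝ) / 2) ^ 2 ≤ ((∑ p ∈ Pr, js j A B p x : ℤ) : ℝ) ^ 2 := by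
    intro x hx
    obtain ⟨_, y, hy, hcard⟩ := hS x hx
    have h1 : ∀ p ∈ Pr, js j A B p x = 1 - (if (p : ℤ) ∣ y then 1 else 0) := by
      intro p hp
      obtain ⟨hpp, _⟩ := hPr p hp
      unfold js
      rw [hy]
      by_cases hd : (p : ℤ) ∣ y
      · rw [if_pos hd, sub_self]
        rw [jacobiSym.eq_zero_iff]
        refine ⟨hpp.ne_zero, ?_⟩
        intro hg
        have h2 : (p : ℤ) ∣ y ^ 2 := dvd_pow hd (by norm_num)
        have h3 : (p : ℕ) ∣ (y ^ 2).gcd p := Int.dvd_coe_gcd h2 (dvd_refl _) |> Int.natCast_dvd_natCast.mp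
        rw [hg] at h3
        exact hpp.one_lt.ne' (Nat.dvd_one.mp h3)
      · rw [if_neg hd, sub_zero]
        apply jacobiSym.sq_one'
        have h2 : IsCoprime y (p : ℤ) :=
          ((Nat.prime_iff_prime_int.mp hpp).coprime_iff_not_dvd.mpr hd).symm
        exact Int.isCoprime_iff_gcd_eq_one.mp h2
    have h2 : (∑ p ∈ Pr, js j A B p x : ℤ) = Pr.card - (Pr.filter (fun p : ℕ => (p : ℤ) ∣ y)).card := by
      rw [Finset.sum_congr rfl h1, Finset.sum_sub_distrib, Finset.sum_const, nsmul_eq_mul, mul_one,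
        Finset.card_filter]
      push_cast
      rfl
    have h3 : (2 : ℝ) * ((Pr.filter (fun p : ℕ => (p : ℤ) ∣ y)).card : ℝ) ≤ (Pr.card : ℝ) := by
      exact_mod_cast hcard
    rw [h2]
    push_cast
    apply pow_le_pow_left₀ (by positivity)
    linarith
  -- total
  have hsum : (S.card : ℝ) * ((Pr.card : ℝ) / 2) ^ 2 ≤
      ∑ x ∈ range M, ((∑ p ∈ Pr, js j A B p x : ℤ) : ℝ) ^ 2 := by
    calc (S.card : ℝ) * ((Pr.card : ℝ) / 2) ^ 2 = ∑ x ∈ S, ((Pr.card : ℝ) / 2) ^ 2 := by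
          rw [Finset.sum_const, nsmul_eq_mul]
      _ ≤ ∑ x ∈ S, ((∑ p ∈ Pr, js j A B p x : ℤ) : ℝ) ^ 2 := Finset.sum_le_sum hlow
      _ ≤ ∑ x ∈ range M, ((∑ p ∈ Pr, js j A B p x : ℤ) : ℝ) ^ 2 := by
          apply Finset.sum_le_sum_of_subset_of_nonneg
          · intro x hx
            exact Finset.mem_range.mpr (hS x hx).1
          · intro _ _ _; positivity
  have hexp : ∑ x ∈ range M, ((∑ p ∈ Pr, js j A B p x : ℤ) : ℝ) ^ 2 =
      ∑ p ∈ Pr, ∑ q ∈ Pr, ((∑ x ∈ range M, js j A B p x * js j A B q x : ℤ) : ℝ) := by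
    have h1 : ∀ x, ((∑ p ∈ Pr, js j A B p x : ℤ) : ℝ) ^ 2 =
        ∑ p ∈ Pr, ∑ q ∈ Pr, ((js j A B p x * js j A B q x : ℤ) : ℝ) := by
      intro x
      rw [sq, ← Int.cast_mul, Finset.sum_mul_sum]
      push_cast
      rfl
    rw [Finset.sum_congr rfl (fun x _ => h1 x), Finset.sum_comm]
    apply Finset.sum_congr rfl
    intro p _
    rw [Finset.sum_comm]
    apply Finset.sum_congr rfl
    intro q _
    push_cast
    rfl
  have hE : (0 : ℝ) ≤ 4 * (j : ℝ) ^ 2 * M / Real.sqrt P + (P : ℝ) ^ 2 := by positivity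
  have hbound : ∑ p ∈ Pr, ∑ q ∈ Pr, ((∑ x ∈ range M, js j A B p x * js j A B q x : ℤ) : ℝ) ≤
      (Pr.card : ℝ) * M + (Pr.card : ℝ) ^ 2 * (4 * (j : ℝ) ^ 2 * M / Real.sqrt P + (P : ℝ) ^ 2) := by
    have h1 : ∀ p ∈ Pr, ∀ q ∈ Pr, ((∑ x ∈ range M, js j A B p x * js j A B q x : ℤ) : ℝ) ≤
        (if p = q then (M : ℝ) else 0) + (4 * (j : ℝ) ^ 2 * M / Real.sqrt P + (P : ℝ) ^ 2) := by
      intro p hp q hq
      obtain ⟨hpp, hp2, hAp, hBp, hpP, hPp⟩ := hPr p hp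
      obtain ⟨hqp, hq2, hAq, hBq, hqP, hPq⟩ := hPr q hq
      by_cases hpq : p = q
      · rw [if_pos hpq]
        have h2 : (∑ x ∈ range M, js j A B p x * js j A B q x : ℤ) ≤ M := by
          refine (Finset.sum_le_card_nsmul _ _ 1 (fun x _ => ?_)).trans ?_
          · have h3 := abs_le.mp (abs_js_le j A B p x)
            have h4 := abs_le.mp (abs_js_le j A B q x)
            nlinarith [h3.1, h3.2, h4.1, h4.2]
          · rw [Finset.card_range, nsmul_eq_mul, mul_one]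
        have h3 : ((∑ x ∈ range M, js j A B p x * js j A B q x : ℤ) : ℝ) ≤ M := by
          exact_mod_cast h2
        linarith
      · rw [if_neg hpq, zero_add]
        exact js_off_diag j hj A B M P p q hpp hqp hpq hp2 hq2 hAp hBp hAq hBq hP hpP hqP hPp hPq
    calc ∑ p ∈ Pr, ∑ q ∈ Pr, ((∑ x ∈ range M, js j A B p x * js j A B q x : ℤ) : ℝ)
        ≤ ∑ p ∈ Pr, ∑ q ∈ Pr, ((if p = q then (M : ℝ) else 0) +
          (4 * (j : ℝ) ^ 2 * M / Real.sqrt P + (P : ℝ) ^ 2)) :=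
          Finset.sum_le_sum (fun p hp => Finset.sum_le_sum (fun q hq => h1 p hp q hq))
      _ = (Pr.card : ℝ) * M + (Pr.card : ℝ) ^ 2 *
          (4 * (j : ℝ) ^ 2 * M / Real.sqrt P + (P : ℝ) ^ 2) := by
          simp only [Finset.sum_add_distrib, Finset.sum_const, nsmul_eq_mul, Finset.sum_ite_eq]
          rw [Finset.sum_ite_mem, Finset.inter_self, Finset.sum_const, nsmul_eq_mul]
          ring
  have h2 := hsum.trans (hexp.le.trans hbound)
  have h3 : (S.card : ℝ) * ((Pr.card : ℝ) / 2) ^ 2 = (S.card : ℝ) * (Pr.card : ℝ) ^ 2 / 4 := by ring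
  rw [h3] at h2
  linarith

end Pool.Agent.Lib.MP_d8bd92_nt
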