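import Mathlib
import Pool.Agent.Lib.MP_d8bd92_nt.HallRange

set_option autoImplicit false

/-!
Integral Weierstrass equations with a rational point of order two satisfy `|c₄| ≤ 272 |Δ|`.
-/

namespace Pool.Agent.Lib.Szpiro

open WeierstrassCurve WeierstrassCurve.Affine

theorem two_torsion_bound (W : WeierstrassCurve ℤ) (hΔ : W.Δ ≠ 0)
    (P : (W.baseChange ℚ).toAffine.Point) (hP : addOrderOf P = 2) :
    W.c₄.natAbs ≤ 272 * W.Δ.natAbs := by
  obtain ⟨hP2, hP0⟩ := (addOrderOf_eq_prime_iff (p := 2)).mp hP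
  rw [two_nsmul] at hP2
  rcases P with _ | ⟨x, y, h⟩
  · exact absurd rfl hP0
  have hy : 2 * y + (W.a₁ : ℚ) * x + W.a₃ = 0 := by
    by_contra hne
    have hy' : y ≠ (W.baseChange ℚ).toAffine.negY x y := by
      intro he
      apply hne
      rw [negY] at he
      have e1 : (W.baseChange ℚ).toAffine.a₁ = (W.a₁ : ℚ) := by
        simp [WeierstrassCurve.baseChange]
      have e3 : (W.baseChange ℚ).toAffine.a₃ = (W.a₃ : ℚ) := by
        simp [WeierstrassCurve.baseChange]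
      rw [e1, e3] at he
      linear_combination he
    rw [Point.add_self_of_Y_ne hy'] at hP2
    exact Point.some_ne_zero _ hP2
  have heq : y ^ 2 + W.a₁ * x * y + W.a₃ * y = x ^ 3 + W.a₂ * x ^ 2 + W.a₄ * x + (W.a₆ : ℚ) := by
    have := (equation_iff (W := (W.baseChange ℚ).toAffine) x y).mp h.1
    simpa [WeierstrassCurve.baseChange] using this
  -- the integral root
  have hroot : (4 * x) ^ 3 + (W.b₂ : ℚ) * (4 * x) ^ 2 + 8 * W.b₄ * (4 * x) + 16 * W.b₆ = 0 := by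
    simp only [WeierstrassCurve.b₂, WeierstrassCurve.b₄, WeierstrassCurve.b₆]
    push_cast
    have h2 : (2 * y + (W.a₁ : ℚ) * x + W.a₃) ^ 2 = 0 := by rw [hy]; ring
    linear_combination 16 * h2 - 64 * heq
  obtain ⟨e, he⟩ : ∃ e : ℤ, (e : ℚ) = 4 * x := by
    have hint : _root_.IsIntegral ℤ (4 * x) := by
      refine ⟨Polynomial.X ^ 3 + Polynomial.C W.b₂ * Polynomial.X ^ 2 +
        Polynomial.C (8 * W.b₄) * Polynomial.X + Polynomial.C (16 * W.b₆), ?_, ?_⟩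
      · monicity!
      · simp only [Polynomial.eval₂_add, Polynomial.eval₂_mul, Polynomial.eval₂_pow,
          Polynomial.eval₂_X, Polynomial.eval₂_C]
        simp only [eq_intCast, Int.cast_mul, Int.cast_ofNat]
        exact hroot
    obtain ⟨e, he⟩ := IsIntegrallyClosed.isIntegral_iff.mp hint
    exact ⟨e, by simpa using he⟩
  rw [← he] at hroot
  have hrZ : e ^ 3 + W.b₂ * e ^ 2 + 8 * W.b₄ * e + 16 * W.b₆ = 0 := by exact_mod_cast hroot
  -- factorisation of the discriminant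
  obtain ⟨m, hm⟩ : ∃ m : ℤ, m = 3 * e ^ 2 + 2 * W.b₂ * e + 8 * W.b₄ := ⟨_, rfl⟩
  obtain ⟨d, hd⟩ : ∃ d : ℤ, d = W.b₂ ^ 2 - 2 * W.b₂ * e - 3 * e ^ 2 - 32 * W.b₄ := ⟨_, rfl⟩
  have hc4 : W.c₄ = m + d := by rw [hm, hd, WeierstrassCurve.c₄]; ring
  have hdisc : 256 * W.Δ = m ^ 2 * d := by
    have h8 := W.b_relation
    rw [hm, hd, WeierstrassCurve.Δ]
    linear_combination (-64 * W.b₂ ^ 2) * h8 +
      (-27 * (16 * W.b₆ - (e ^ 3 + W.b₂ * e ^ 2 + 8 * W.b₄ * e)) + 144 * W.b₂ * W.b₄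
        - 4 * W.b₂ ^ 3) * hrZ
  have hne : m ^ 2 * d ≠ 0 := by rw [← hdisc]; exact mul_ne_zero (by norm_num) hΔ
  have hm0 : m ≠ 0 := by rintro h0; rw [h0] at hne; simp at hne
  have hd0 : d ≠ 0 := by rintro h0; rw [h0] at hne; simp at hne
  have hN : 256 * W.Δ.natAbs = m.natAbs ^ 2 * d.natAbs := by
    have := congrArg Int.natAbs hdisc
    rw [Int.natAbs_mul, Int.natAbs_mul, Int.natAbs_pow] at this
    exact this
  have hm1 : 1 ≤ m.natAbs := Int.natAbs_pos.mpr hm0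
  have hd1 : 1 ≤ d.natAbs := Int.natAbs_pos.mpr hd0
  have hD1 : 1 ≤ W.Δ.natAbs := Int.natAbs_pos.mpr hΔ
  have hdb : d.natAbs ≤ 256 * W.Δ.natAbs := by
    rw [hN]; exact Nat.le_mul_of_pos_left _ (by positivity)
  have hmb : m.natAbs ≤ 16 * W.Δ.natAbs := by
    have h1 : m.natAbs ^ 2 ≤ 256 * W.Δ.natAbs := by
      rw [hN]; exact Nat.le_mul_of_pos_right _ hd1
    nlinarith
  rw [hc4]
  calc (m + d).natAbs ≤ m.natAbs + d.natAbs := Int.natAbs_add_le _ _
    _ ≤ 272 * W.Δ.natAbs := by omega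

end Pool.Agent.Lib.Szpiro
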